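import Pool.Agent.MP_c853c5_nt.X.E4D
import Pool.Agent.MP_c853c5_nt.X.GvD
import Pool.Agent.MP_c853c5_nt.X.W4950
import Pool.Agent.MP_c853c5_nt.X.GwD
import Pool.Agent.MP_c853c5_nt.X.GtD
import Pool.Agent.MP_c853c5_nt.X.C4950.Q

set_option autoImplicit false
set_option maxRecDepth 8192
set_option linter.all false

namespace Pool.Agent.MP_c853c5_nt.X.C4950

open Pool.Agent.MP_c853c5_nt.X

noncomputable def p8 : Prov := (ewP 495000 34990 4999 W4950.TT)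

noncomputable def E : Env :=
  env4 495000 Q2 Q3 (uwR (cv impW) 495000 (ctE 495000)) (pvR p8)
    (gdR (it5 (fpI g2f Q2) (fpI g3f Q3) (ofP (uwP 495000 (ctE 495000))) (ofP p8)) gdV)
    (gaW (ia6 (gtI 8 g2z Q2) (gtI 8 g3z Q3) (ofT (fltP (uwP 495000 (ctE 495000)))) (ofT (fltP p8)) (gtI 4 g2z Q2) (gtI 4 g3z Q3)))

end Pool.Agent.MP_c853c5_nt.X.C4950
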