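import Pool.Agent.MP_c853c5_nt.X.GlueD

set_option autoImplicit false
set_option maxRecDepth 8192
set_option linter.all false

namespace Pool.Agent.MP_c853c5_nt.X.C4950

open Pool.Agent.MP_c853c5_nt.X

noncomputable def e (sg : Bool) (k par kd lo hi : ℕ) (rs : List Rw) (v c : ℕ) (l : List (Rf × ℕ)) :
    List (Rf × ℕ) := (⟨sg, ⟨k, par, kd, lo, hi, rs⟩, v⟩, c) :: l

noncomputable def w0 : Rw := ⟨nat_lit 0,[nat_lit 7],nat_lit 0,[nat_lit 6]⟩

noncomputable def w1 : Rw := ⟨nat_lit 0,[nat_lit 7,nat_lit 7,nat_lit 6,nat_lit 5,nat_lit 4,nat_lit 3,nat_lit 2,nat_lit 1],nat_lit 0,[nat_lit 0]⟩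

noncomputable def w2 : Rw := ⟨nat_lit 0,[nat_lit 6],nat_lit 0,[nat_lit 5]⟩

noncomputable def w3 : Rw := ⟨nat_lit 0,[nat_lit 5],nat_lit 0,[nat_lit 4]⟩

noncomputable def w4 : Rw := ⟨nat_lit 0,[nat_lit 4],nat_lit 0,[nat_lit 3]⟩

noncomputable def w5 : Rw := ⟨nat_lit 0,[nat_lit 3],nat_lit 0,[nat_lit 2]⟩

noncomputable def w6 : Rw := ⟨nat_lit 0,[nat_lit 2],nat_lit 0,[nat_lit 1]⟩

noncomputable def w7 : Rw := ⟨nat_lit 0,[nat_lit 1,nat_lit 1],nat_lit 0,[nat_lit 0]⟩

noncomputable def w8 : Rw := ⟨nat_lit 0,[nat_lit 4,nat_lit 4,nat_lit 3,nat_lit 2,nat_lit 1],nat_lit 0,[nat_lit 0]⟩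

noncomputable def w9 : Rw := ⟨nat_lit 0,[nat_lit 3,nat_lit 3,nat_lit 2,nat_lit 1],nat_lit 0,[nat_lit 0]⟩

noncomputable def w10 : Rw := ⟨nat_lit 0,[nat_lit 6,nat_lit 6,nat_lit 5,nat_lit 4,nat_lit 3,nat_lit 2,nat_lit 1],nat_lit 0,[nat_lit 0]⟩

noncomputable def w11 : Rw := ⟨nat_lit 0,[nat_lit 5,nat_lit 5,nat_lit 4,nat_lit 3,nat_lit 2,nat_lit 1],nat_lit 0,[nat_lit 0]⟩

noncomputable def w12 : Rw := ⟨nat_lit 0,[nat_lit 7],nat_lit 0,[nat_lit 5]⟩

noncomputable def w13 : Rw := ⟨nat_lit 0,[nat_lit 7,nat_lit 7,nat_lit 5,nat_lit 4,nat_lit 3,nat_lit 2,nat_lit 1],nat_lit 0,[nat_lit 0]⟩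

noncomputable def w14 : Rw := ⟨nat_lit 0,[nat_lit 6,nat_lit 6],nat_lit 0,[nat_lit 2]⟩

noncomputable def w15 : Rw := ⟨nat_lit 0,[nat_lit 6,nat_lit 6],nat_lit 0,[nat_lit 3]⟩

noncomputable def w16 : Rw := ⟨nat_lit 34990,[],nat_lit 0,[nat_lit 2]⟩

noncomputable def w17 : Rw := ⟨nat_lit 0,[nat_lit 6,nat_lit 6],nat_lit 0,[nat_lit 4]⟩

noncomputable def w18 : Rw := ⟨nat_lit 34990,[],nat_lit 0,[nat_lit 4]⟩

noncomputable def w19 : Rw := ⟨nat_lit 34990,[],nat_lit 0,[nat_lit 3]⟩

noncomputable def w20 : Rw := ⟨nat_lit 0,[nat_lit 8,nat_lit 8],nat_lit 0,[nat_lit 1]⟩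

noncomputable def w21 : Rw := ⟨nat_lit 34990,[],nat_lit 0,[nat_lit 1]⟩

noncomputable def w22 : Rw := ⟨nat_lit 0,[nat_lit 5,nat_lit 5],nat_lit 0,[nat_lit 1]⟩

noncomputable def w23 : Rw := ⟨nat_lit 0,[nat_lit 6,nat_lit 6],nat_lit 0,[nat_lit 1]⟩

noncomputable def w24 : Rw := ⟨nat_lit 34990,[nat_lit 5,nat_lit 4,nat_lit 3,nat_lit 2,nat_lit 1],nat_lit 0,[nat_lit 0]⟩

noncomputable def w25 : Rw := ⟨nat_lit 0,[nat_lit 5,nat_lit 5],nat_lit 0,[nat_lit 3]⟩

noncomputable def w26 : Rw := ⟨nat_lit 0,[nat_lit 5,nat_lit 5],nat_lit 0,[nat_lit 2]⟩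

noncomputable def w27 : Rw := ⟨nat_lit 34989,[nat_lit 5,nat_lit 4,nat_lit 3,nat_lit 2,nat_lit 1],nat_lit 0,[nat_lit 0]⟩

noncomputable def w28 : Rw := ⟨nat_lit 0,[nat_lit 6],nat_lit 0,[nat_lit 4]⟩

noncomputable def w29 : Rw := ⟨nat_lit 0,[nat_lit 6,nat_lit 6,nat_lit 4,nat_lit 3,nat_lit 2,nat_lit 1],nat_lit 0,[nat_lit 0]⟩

noncomputable def w30 : Rw := ⟨nat_lit 34990,[nat_lit 4,nat_lit 3,nat_lit 2,nat_lit 1],nat_lit 0,[nat_lit 0]⟩

noncomputable def w31 : Rw := ⟨nat_lit 0,[nat_lit 2,nat_lit 2,nat_lit 1],nat_lit 0,[nat_lit 0]⟩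

noncomputable def w32 : Rw := ⟨nat_lit 34990,[nat_lit 3,nat_lit 2,nat_lit 1],nat_lit 0,[nat_lit 0]⟩

noncomputable def w33 : Rw := ⟨nat_lit 0,[nat_lit 5,nat_lit 5,nat_lit 4,nat_lit 2,nat_lit 1],nat_lit 0,[nat_lit 0]⟩

noncomputable def w34 : Rw := ⟨nat_lit 0,[nat_lit 4],nat_lit 0,[nat_lit 2]⟩

noncomputable def w35 : Rw := ⟨nat_lit 0,[nat_lit 4,nat_lit 4,nat_lit 2,nat_lit 1],nat_lit 0,[nat_lit 0]⟩

noncomputable def w36 : Rw := ⟨nat_lit 0,[nat_lit 3,nat_lit 3],nat_lit 0,[nat_lit 1]⟩

noncomputable def w37 : Rw := ⟨nat_lit 0,[nat_lit 4,nat_lit 4],nat_lit 0,[nat_lit 1]⟩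

noncomputable def w38 : Rw := ⟨nat_lit 0,[nat_lit 5],nat_lit 0,[nat_lit 3]⟩

noncomputable def w39 : Rw := ⟨nat_lit 0,[nat_lit 5,nat_lit 5,nat_lit 3,nat_lit 2,nat_lit 1],nat_lit 0,[nat_lit 0]⟩

noncomputable def w40 : Rw := ⟨nat_lit 0,[nat_lit 5,nat_lit 5,nat_lit 4],nat_lit 0,[nat_lit 1]⟩

noncomputable def w41 : Rw := ⟨nat_lit 0,[nat_lit 4,nat_lit 4],nat_lit 0,[nat_lit 2]⟩

noncomputable def w42 : Rw := ⟨nat_lit 34990,[nat_lit 5,nat_lit 3,nat_lit 2,nat_lit 1],nat_lit 0,[nat_lit 0]⟩

noncomputable def w43 : Rw := ⟨nat_lit 34990,[nat_lit 4],nat_lit 0,[nat_lit 1]⟩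

noncomputable def w44 : Rw := ⟨nat_lit 34989,[nat_lit 4,nat_lit 3,nat_lit 2,nat_lit 1],nat_lit 0,[nat_lit 0]⟩

noncomputable def w45 : Rw := ⟨nat_lit 34989,[nat_lit 5],nat_lit 0,[nat_lit 1]⟩

noncomputable def w46 : Rw := ⟨nat_lit 34990,[nat_lit 5],nat_lit 0,[nat_lit 1]⟩

noncomputable def w47 : Rw := ⟨nat_lit 34988,[nat_lit 5,nat_lit 4,nat_lit 3,nat_lit 2,nat_lit 1],nat_lit 0,[nat_lit 0]⟩

noncomputable def w48 : Rw := ⟨nat_lit 0,[nat_lit 7,nat_lit 7,nat_lit 6,nat_lit 4,nat_lit 3,nat_lit 2,nat_lit 1],nat_lit 0,[nat_lit 0]⟩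

noncomputable def w49 : Rw := ⟨nat_lit 34988,[nat_lit 6,nat_lit 5,nat_lit 4,nat_lit 3,nat_lit 2,nat_lit 1],nat_lit 0,[nat_lit 0]⟩

noncomputable def w50 : Rw := ⟨nat_lit 34989,[nat_lit 4],nat_lit 0,[nat_lit 1]⟩

noncomputable def w51 : Rw := ⟨nat_lit 0,[nat_lit 6,nat_lit 6,nat_lit 5],nat_lit 0,[nat_lit 1]⟩

noncomputable def w52 : Rw := ⟨nat_lit 34990,[nat_lit 5],nat_lit 0,[nat_lit 2]⟩

noncomputable def w53 : Rw := ⟨nat_lit 0,[nat_lit 6],nat_lit 0,[nat_lit 3]⟩

noncomputable def w54 : Rw := ⟨nat_lit 0,[nat_lit 6,nat_lit 6,nat_lit 3,nat_lit 2,nat_lit 1],nat_lit 0,[nat_lit 0]⟩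

noncomputable def w55 : Rw := ⟨nat_lit 34990,[nat_lit 5,nat_lit 4],nat_lit 0,[nat_lit 1]⟩

noncomputable def w56 : Rw := ⟨nat_lit 0,[nat_lit 6,nat_lit 6,nat_lit 5,nat_lit 3,nat_lit 2,nat_lit 1],nat_lit 0,[nat_lit 0]⟩

noncomputable def w57 : Rw := ⟨nat_lit 34988,[nat_lit 5,nat_lit 4],nat_lit 0,[nat_lit 1]⟩

noncomputable def w58 : Rw := ⟨nat_lit 34989,[nat_lit 5,nat_lit 4],nat_lit 0,[nat_lit 1]⟩

noncomputable def w59 : Rw := ⟨nat_lit 0,[nat_lit 6,nat_lit 6,nat_lit 4],nat_lit 0,[nat_lit 1]⟩

noncomputable def w60 : Rw := ⟨nat_lit 34989,[nat_lit 5,nat_lit 3,nat_lit 2,nat_lit 1],nat_lit 0,[nat_lit 0]⟩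

noncomputable def w61 : Rw := ⟨nat_lit 0,[nat_lit 4,nat_lit 4],nat_lit 0,[nat_lit 3]⟩

noncomputable def w62 : Rw := ⟨nat_lit 0,[nat_lit 6,nat_lit 6,nat_lit 5,nat_lit 4],nat_lit 0,[nat_lit 1]⟩

noncomputable def w63 : Rw := ⟨nat_lit 34990,[],nat_lit 0,[nat_lit 5]⟩

noncomputable def w64 : Rw := ⟨nat_lit 34990,[nat_lit 4,nat_lit 3],nat_lit 0,[nat_lit 1]⟩

noncomputable def w65 : Rw := ⟨nat_lit 0,[nat_lit 5,nat_lit 5,nat_lit 4,nat_lit 3],nat_lit 0,[nat_lit 1]⟩

noncomputable def w66 : Rw := ⟨nat_lit 0,[nat_lit 5,nat_lit 5,nat_lit 2,nat_lit 1],nat_lit 0,[nat_lit 0]⟩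

noncomputable def w67 : Rw := ⟨nat_lit 0,[nat_lit 5],nat_lit 0,[nat_lit 2]⟩

noncomputable def w68 : Rw := ⟨nat_lit 0,[nat_lit 5,nat_lit 5,nat_lit 3],nat_lit 0,[nat_lit 1]⟩

noncomputable def w69 : Rw := ⟨nat_lit 34990,[nat_lit 3],nat_lit 0,[nat_lit 1]⟩

noncomputable def w70 : Rw := ⟨nat_lit 34990,[nat_lit 5,nat_lit 4,nat_lit 2,nat_lit 1],nat_lit 0,[nat_lit 0]⟩

noncomputable def w71 : Rw := ⟨nat_lit 0,[nat_lit 4,nat_lit 4,nat_lit 3],nat_lit 0,[nat_lit 1]⟩

noncomputable def w72 : Rw := ⟨nat_lit 0,[nat_lit 6,nat_lit 6,nat_lit 4,nat_lit 3],nat_lit 0,[nat_lit 1]⟩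

noncomputable def w73 : Rw := ⟨nat_lit 34989,[nat_lit 4,nat_lit 3],nat_lit 0,[nat_lit 1]⟩

noncomputable def w74 : Rw := ⟨nat_lit 0,[nat_lit 6,nat_lit 6,nat_lit 5,nat_lit 2,nat_lit 1],nat_lit 0,[nat_lit 0]⟩

noncomputable def w75 : Rw := ⟨nat_lit 34990,[nat_lit 5,nat_lit 2,nat_lit 1],nat_lit 0,[nat_lit 0]⟩

noncomputable def w76 : Rw := ⟨nat_lit 0,[nat_lit 7,nat_lit 7,nat_lit 6],nat_lit 0,[nat_lit 1]⟩

noncomputable def w77 : Rw := ⟨nat_lit 34990,[nat_lit 5,nat_lit 3],nat_lit 0,[nat_lit 1]⟩

noncomputable def w78 : Rw := ⟨nat_lit 34989,[nat_lit 5,nat_lit 4,nat_lit 3],nat_lit 0,[nat_lit 1]⟩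

noncomputable def w79 : Rw := ⟨nat_lit 0,[nat_lit 6,nat_lit 6,nat_lit 3],nat_lit 0,[nat_lit 1]⟩

noncomputable def w80 : Rw := ⟨nat_lit 34990,[nat_lit 4,nat_lit 2,nat_lit 1],nat_lit 0,[nat_lit 0]⟩

noncomputable def w81 : Rw := ⟨nat_lit 34989,[nat_lit 5,nat_lit 4,nat_lit 2,nat_lit 1],nat_lit 0,[nat_lit 0]⟩

noncomputable def w82 : Rw := ⟨nat_lit 0,[nat_lit 6,nat_lit 6,nat_lit 4,nat_lit 2,nat_lit 1],nat_lit 0,[nat_lit 0]⟩

noncomputable def w83 : Rw := ⟨nat_lit 0,[nat_lit 7,nat_lit 7,nat_lit 6,nat_lit 4],nat_lit 0,[nat_lit 1]⟩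

noncomputable def w84 : Rw := ⟨nat_lit 0,[nat_lit 7,nat_lit 7,nat_lit 5],nat_lit 0,[nat_lit 1]⟩

noncomputable def w85 : Rw := ⟨nat_lit 0,[nat_lit 5,nat_lit 5],nat_lit 0,[nat_lit 4]⟩

noncomputable def w86 : Rw := ⟨nat_lit 0,[nat_lit 6],nat_lit 0,[nat_lit 2]⟩

noncomputable def w87 : Rw := ⟨nat_lit 0,[nat_lit 6,nat_lit 6,nat_lit 2,nat_lit 1],nat_lit 0,[nat_lit 0]⟩

noncomputable def w88 : Rw := ⟨nat_lit 0,[nat_lit 7,nat_lit 7,nat_lit 5,nat_lit 3,nat_lit 2,nat_lit 1],nat_lit 0,[nat_lit 0]⟩

noncomputable def w89 : Rw := ⟨nat_lit 0,[nat_lit 6,nat_lit 6],nat_lit 0,[nat_lit 5]⟩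

noncomputable def w90 : Rw := ⟨nat_lit 0,[nat_lit 8],nat_lit 0,[nat_lit 2]⟩

noncomputable def w91 : Rw := ⟨nat_lit 0,[nat_lit 8,nat_lit 8,nat_lit 2,nat_lit 1],nat_lit 0,[nat_lit 0]⟩

noncomputable def w92 : Rw := ⟨nat_lit 0,[nat_lit 7,nat_lit 7,nat_lit 6,nat_lit 5,nat_lit 4,nat_lit 3],nat_lit 0,[nat_lit 1]⟩

noncomputable def w93 : Rw := ⟨nat_lit 0,[nat_lit 6,nat_lit 6,nat_lit 5,nat_lit 4,nat_lit 3],nat_lit 0,[nat_lit 1]⟩

noncomputable def w94 : Rw := ⟨nat_lit 34989,[nat_lit 4,nat_lit 2,nat_lit 1],nat_lit 0,[nat_lit 0]⟩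

noncomputable def w95 : Rw := ⟨nat_lit 0,[nat_lit 7],nat_lit 0,[nat_lit 4]⟩

noncomputable def w96 : Rw := ⟨nat_lit 0,[nat_lit 7,nat_lit 7,nat_lit 4],nat_lit 0,[nat_lit 1]⟩

noncomputable def w97 : Rw := ⟨nat_lit 34990,[nat_lit 7,nat_lit 6,nat_lit 5,nat_lit 4],nat_lit 0,[nat_lit 1]⟩

noncomputable def w98 : Rw := ⟨nat_lit 0,[nat_lit 7],nat_lit 0,[nat_lit 3]⟩

noncomputable def w99 : Rw := ⟨nat_lit 0,[nat_lit 7,nat_lit 7,nat_lit 6,nat_lit 5],nat_lit 0,[nat_lit 1]⟩

noncomputable def w100 : Rw := ⟨nat_lit 0,[nat_lit 7,nat_lit 7,nat_lit 4,nat_lit 3,nat_lit 2,nat_lit 1],nat_lit 0,[nat_lit 0]⟩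

noncomputable def w101 : Rw := ⟨nat_lit 34990,[nat_lit 5,nat_lit 4,nat_lit 3],nat_lit 0,[nat_lit 1]⟩

noncomputable def w102 : Rw := ⟨nat_lit 34990,[nat_lit 2,nat_lit 1],nat_lit 0,[nat_lit 0]⟩

noncomputable def w103 : Rw := ⟨nat_lit 0,[nat_lit 3,nat_lit 3],nat_lit 0,[nat_lit 2]⟩

noncomputable def r0 : List Rw := [w0,w1,w2,w3,w4,w5,w6]

noncomputable def r1 : List Rw := [w5,w6]

noncomputable def r2 : List Rw := [w7]

noncomputable def r3 : List Rw := [w4,w8,w5,w9]

noncomputable def r4 : List Rw := [w0,w1,w2,w10,w3,w5,w6]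

noncomputable def r5 : List Rw := [w0,w2,w4,w5,w6]

noncomputable def r6 : List Rw := [w0,w3,w4,w5,w6]

noncomputable def r7 : List Rw := [w0,w2,w3,w4,w6]

noncomputable def r8 : List Rw := [w0,w1,w2,w3,w6]

noncomputable def r9 : List Rw := [w2,w10,w3,w11,w5,w6]

noncomputable def r10 : List Rw := [w2,w10,w3,w11,w4,w6]

noncomputable def r11 : List Rw := [w0,w1,w2,w3,w4,w6]

noncomputable def r12 : List Rw := [w2,w10,w3,w4,w5,w6]

noncomputable def r13 : List Rw := [w4,w8,w5,w9,w6]

noncomputable def r14 : List Rw := [w0,w2,w3,w5]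

noncomputable def r15 : List Rw := [w0,w2,w4,w5]

noncomputable def r16 : List Rw := [w0,w3,w4,w5]

noncomputable def r17 : List Rw := [w0,w1,w2,w10,w3,w4,w5]

noncomputable def r18 : List Rw := [w0,w2,w3,w4]

noncomputable def r19 : List Rw := [w0,w1,w2,w5]

noncomputable def r20 : List Rw := [w3,w5]

noncomputable def r21 : List Rw := [w0,w1,w2,w3,w5]

noncomputable def r22 : List Rw := [w2,w10,w3,w11,w5]

noncomputable def r23 : List Rw := [w2,w4,w5]

noncomputable def r24 : List Rw := [w3,w4,w5]

noncomputable def r25 : List Rw := [w0,w1,w2,w3,w4,w5]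

noncomputable def r26 : List Rw := [w2,w3,w4,w5]

noncomputable def r27 : List Rw := [w2,w3,w5]

noncomputable def r28 : List Rw := [w2,w10,w3,w11,w4,w5]

noncomputable def r29 : List Rw := [w0,w2,w3,w6]

noncomputable def r30 : List Rw := [w2,w10,w3,w4,w6]

noncomputable def r31 : List Rw := [w2,w3,w4,w6]

noncomputable def r32 : List Rw := [w2,w10,w3,w11,w6]

noncomputable def r33 : List Rw := [w6]

noncomputable def r34 : List Rw := [w3,w11,w4,w6]

noncomputable def r35 : List Rw := [w3,w4,w6]

noncomputable def r36 : List Rw := [w2,w10,w3,w5,w6]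

noncomputable def r37 : List Rw := [w4,w8,w5,w6]

noncomputable def r38 : List Rw := [w3,w5,w6]

noncomputable def r39 : List Rw := [w2,w3,w4,w5,w6]

noncomputable def r40 : List Rw := [w3,w11,w4,w8,w5,w6]

noncomputable def r41 : List Rw := []

noncomputable def r42 : List Rw := [w4]

noncomputable def r43 : List Rw := [w0,w1,w2,w3]

noncomputable def r44 : List Rw := [w5]

noncomputable def r45 : List Rw := [w2,w10,w3,w11,w4]

noncomputable def r46 : List Rw := [w0,w1,w2,w3,w4]

noncomputable def r47 : List Rw := [w2,w10,w3,w4,w5]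

noncomputable def r48 : List Rw := [w2,w3]

noncomputable def r49 : List Rw := [w2,w4]

noncomputable def r50 : List Rw := [w3,w4]

noncomputable def r51 : List Rw := [w2,w5]

noncomputable def r52 : List Rw := [w3,w11,w4]

noncomputable def r53 : List Rw := [w3,w11,w5]

noncomputable def r54 : List Rw := [w4,w5]

noncomputable def r55 : List Rw := [w3,w11,w4,w5]

noncomputable def r56 : List Rw := [w3,w11,w6]

noncomputable def r57 : List Rw := [w0,w1,w2,w4,w6]

noncomputable def r58 : List Rw := [w2,w3,w4]

noncomputable def r59 : List Rw := [w0,w1,w5,w6]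

noncomputable def r60 : List Rw := [w2,w5,w6]

noncomputable def r61 : List Rw := [w0,w1,w2,w3,w5,w6]

noncomputable def r62 : List Rw := [w0,w1,w3,w5]

noncomputable def r63 : List Rw := [w2,w10,w4,w5,w6]

noncomputable def r64 : List Rw := [w0,w4,w5,w6]

noncomputable def r65 : List Rw := [w4,w5,w6]

noncomputable def r66 : List Rw := [w3,w4,w5,w6]

noncomputable def r67 : List Rw := [w4,w6]

noncomputable def r68 : List Rw := [w5,w9,w6]

noncomputable def r69 : List Rw := [w2,w3,w5,w6]

noncomputable def r70 : List Rw := [w2,w3,w6]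

noncomputable def r71 : List Rw := [w3,w11,w5,w6]

noncomputable def r72 : List Rw := [w0,w1,w3,w4,w6]

noncomputable def r73 : List Rw := [w0,w1,w3,w5,w6]

noncomputable def r74 : List Rw := [w5,w9]

noncomputable def r75 : List Rw := [w2,w10,w3,w4]

noncomputable def r76 : List Rw := [w0,w1,w4,w5]

noncomputable def r77 : List Rw := [w0,w1,w2,w4]

noncomputable def r78 : List Rw := [w0,w1,w3,w4]

noncomputable def r79 : List Rw := [w0,w3,w5]

noncomputable def r80 : List Rw := [w0,w1,w2,w4,w5]

noncomputable def r81 : List Rw := [w0,w1,w3,w4,w5]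

noncomputable def r82 : List Rw := [w0,w2,w3,w4,w5]

noncomputable def r83 : List Rw := [w0,w3,w6]

noncomputable def r84 : List Rw := [w0,w4]

noncomputable def r85 : List Rw := [w0,w5,w6]

noncomputable def r86 : List Rw := [w0,w2,w5,w6]

noncomputable def r87 : List Rw := [w0,w3,w5,w6]

noncomputable def r88 : List Rw := [w0,w1,w2,w5,w6]

noncomputable def r89 : List Rw := [w0,w2,w3,w5,w6]

noncomputable def r90 : List Rw := [w0,w1,w2,w4,w5,w6]

noncomputable def r91 : List Rw := [w2,w4,w5,w6]

noncomputable def r92 : List Rw := [w12,w13,w4,w5,w6]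

noncomputable def r93 : List Rw := [w14,w3,w11,w4,w5,w6]

noncomputable def r94 : List Rw := [w2,w10,w3,w11,w4,w5,w6]

noncomputable def r95 : List Rw := [w3,w11,w4,w5,w6]

noncomputable def r96 : List Rw := [w2,w4,w6]

noncomputable def r97 : List Rw := [w2,w6]

noncomputable def r98 : List Rw := [w2,w10,w3,w6]

noncomputable def r99 : List Rw := [w2,w10,w3]

noncomputable def r100 : List Rw := [w0,w1,w2,w10,w6]

noncomputable def r101 : List Rw := [w0,w1,w2,w10,w3,w11,w5]

noncomputable def r102 : List Rw := [w3]

noncomputable def r103 : List Rw := [w0,w5]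

noncomputable def r104 : List Rw := [w14,w3,w11,w4]

noncomputable def r105 : List Rw := [w2]

noncomputable def r106 : List Rw := [w0,w1,w2,w10,w5]

noncomputable def r107 : List Rw := [w14,w3,w11,w6]

noncomputable def r108 : List Rw := [w0,w1,w2,w6]

noncomputable def r109 : List Rw := [w0,w2,w4,w6]

noncomputable def r110 : List Rw := [w0,w3,w4,w6]

noncomputable def r111 : List Rw := [w12,w15,w5]

noncomputable def r112 : List Rw := [w12,w13,w5]

noncomputable def r113 : List Rw := [w15,w3,w11,w5]

noncomputable def r114 : List Rw := [w16,w3,w11,w5]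

noncomputable def r115 : List Rw := [w15,w5]

noncomputable def r116 : List Rw := [w0,w1,w2,w10,w4]

noncomputable def r117 : List Rw := [w0]

noncomputable def r118 : List Rw := [w0,w1,w2,w10,w3,w5]

noncomputable def r119 : List Rw := [w0,w3]

noncomputable def r120 : List Rw := [w12,w17,w4]

noncomputable def r121 : List Rw := [w4,w8,w5]

noncomputable def r122 : List Rw := [w0,w2,w5]

noncomputable def r123 : List Rw := [w18,w3,w4,w6]

noncomputable def r124 : List Rw := [w18,w3,w11,w4]

noncomputable def r125 : List Rw := [w18,w3,w4,w5]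

noncomputable def r126 : List Rw := [w18]

noncomputable def r127 : List Rw := [w0,w1,w2,w10,w3,w4]

noncomputable def r128 : List Rw := [w19]

noncomputable def r129 : List Rw := [w16]

noncomputable def r130 : List Rw := [w18,w5]

noncomputable def r131 : List Rw := [w17,w3,w11,w4]

noncomputable def r132 : List Rw := [w14]

noncomputable def r133 : List Rw := [w12,w13,w15]

noncomputable def r134 : List Rw := [w17,w4]

noncomputable def r135 : List Rw := [w18,w4]

noncomputable def r136 : List Rw := [w20,w0,w2,w3,w4]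

noncomputable def r137 : List Rw := [w0,w1,w2,w10,w3]

noncomputable def r138 : List Rw := [w19,w4]

noncomputable def r139 : List Rw := [w21,w3,w6]

noncomputable def r140 : List Rw := [w21,w3,w11,w4,w6]

noncomputable def r141 : List Rw := [w22,w5,w6]

noncomputable def r142 : List Rw := [w21,w5,w6]

noncomputable def r143 : List Rw := [w16,w5,w6]

noncomputable def r144 : List Rw := [w14,w3,w11,w5]

noncomputable def r145 : List Rw := [w19,w3,w11,w5]

noncomputable def r146 : List Rw := [w19,w3,w11,w4]

noncomputable def r147 : List Rw := [w21,w3,w11,w4]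

noncomputable def r148 : List Rw := [w22,w4]

noncomputable def r149 : List Rw := [w23,w3,w11,w6]

noncomputable def r150 : List Rw := [w21,w3,w11,w6]

noncomputable def r151 : List Rw := [w23,w3,w4,w6]

noncomputable def r152 : List Rw := [w21,w3,w4,w6]

noncomputable def r153 : List Rw := [w24,w3,w11,w6]

noncomputable def r154 : List Rw := [w25,w5,w6]

noncomputable def r155 : List Rw := [w26,w5,w6]

noncomputable def r156 : List Rw := [w23,w26,w4,w8,w5,w6]

noncomputable def r157 : List Rw := [w26,w4,w8,w5,w6]

noncomputable def r158 : List Rw := [w23,w6]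

noncomputable def r159 : List Rw := [w23,w3,w11,w4,w6]

noncomputable def r160 : List Rw := [w14,w6]

noncomputable def r161 : List Rw := [w14,w3,w11,w4,w6]

noncomputable def r162 : List Rw := [w14,w3,w6]

noncomputable def r163 : List Rw := [w24,w6]

noncomputable def r164 : List Rw := [w3,w6]

noncomputable def r165 : List Rw := [w24,w3,w11,w4,w6]

noncomputable def r166 : List Rw := [w22,w4,w6]

noncomputable def r167 : List Rw := [w22,w6]

noncomputable def r168 : List Rw := [w21,w6]

noncomputable def r169 : List Rw := [w21,w3,w11,w5,w6]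

noncomputable def r170 : List Rw := [w19,w5]

noncomputable def r171 : List Rw := [w16,w3,w11,w4]

noncomputable def r172 : List Rw := [w24,w3,w11,w5]

noncomputable def r173 : List Rw := [w24,w3,w11,w4]

noncomputable def r174 : List Rw := [w24]

noncomputable def r175 : List Rw := [w3,w11]

noncomputable def r176 : List Rw := [w24,w3,w11]

noncomputable def r177 : List Rw := [w27,w3,w11]

noncomputable def r178 : List Rw := [w22]

noncomputable def r179 : List Rw := [w16,w5]

noncomputable def r180 : List Rw := [w21,w3,w11,w5]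

noncomputable def r181 : List Rw := [w3,w11,w16,w5]

noncomputable def r182 : List Rw := [w26,w5]

noncomputable def r183 : List Rw := [w25,w16,w5]

noncomputable def r184 : List Rw := [w22,w5]

noncomputable def r185 : List Rw := [w21,w5]

noncomputable def r186 : List Rw := [w16,w3,w11,w4,w6]

noncomputable def r187 : List Rw := [w23,w3,w6]

noncomputable def r188 : List Rw := [w16,w3,w11,w6]

noncomputable def r189 : List Rw := [w14,w24,w3,w11,w6]

noncomputable def r190 : List Rw := [w26,w6]

noncomputable def r191 : List Rw := [w28,w29,w22,w6]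

noncomputable def r192 : List Rw := [w3,w11,w21,w6]

noncomputable def r193 : List Rw := [w24,w3,w5,w6]

noncomputable def r194 : List Rw := [w22,w4,w8,w5,w6]

noncomputable def r195 : List Rw := [w28,w29,w26,w5]

noncomputable def r196 : List Rw := [w25,w5]

noncomputable def r197 : List Rw := [w28,w29,w5,w6]

noncomputable def r198 : List Rw := [w19,w26,w4,w8,w5,w6]

noncomputable def r199 : List Rw := [w14,w24,w3,w11,w4,w6]

noncomputable def r200 : List Rw := [w27,w6]

noncomputable def r201 : List Rw := [w27,w3,w11,w6]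

noncomputable def r202 : List Rw := [w3,w11,w8,w6]

noncomputable def r203 : List Rw := [w8,w6]

noncomputable def r204 : List Rw := [w21,w3,w11,w8,w6]

noncomputable def r205 : List Rw := [w22,w8,w6]

noncomputable def r206 : List Rw := [w26,w8,w6]

noncomputable def r207 : List Rw := [w16,w8,w6]

noncomputable def r208 : List Rw := [w23,w3,w11,w8,w6]

noncomputable def r209 : List Rw := [w22,w30,w8,w6]

noncomputable def r210 : List Rw := [w2,w10]

noncomputable def r211 : List Rw := [w23,w3,w11,w4]

noncomputable def r212 : List Rw := [w27,w3,w11,w5]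

noncomputable def r213 : List Rw := [w16,w24]

noncomputable def r214 : List Rw := [w16,w3]

noncomputable def r215 : List Rw := [w23,w3,w11]

noncomputable def r216 : List Rw := [w26]

noncomputable def r217 : List Rw := [w24,w3]

noncomputable def r218 : List Rw := [w14,w3,w11]

noncomputable def r219 : List Rw := [w14,w24,w3,w11]

noncomputable def r220 : List Rw := [w24,w16,w3]

noncomputable def r221 : List Rw := [w16,w22]

noncomputable def r222 : List Rw := [w28,w29,w26]

noncomputable def r223 : List Rw := [w28]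

noncomputable def r224 : List Rw := [w30,w26]

noncomputable def r225 : List Rw := [w26,w30]

noncomputable def r226 : List Rw := [w30]

noncomputable def r227 : List Rw := [w30,w5]

noncomputable def r228 : List Rw := [w30,w26,w5]

noncomputable def r229 : List Rw := [w8]

noncomputable def r230 : List Rw := [w3,w11,w8]

noncomputable def r231 : List Rw := [w30,w8]

noncomputable def r232 : List Rw := [w25,w30,w8]

noncomputable def r233 : List Rw := [w11]

noncomputable def r234 : List Rw := [w25,w8]

noncomputable def r235 : List Rw := [w3,w11,w19,w5]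

noncomputable def r236 : List Rw := [w24,w3,w4,w6]

noncomputable def r237 : List Rw := [w25,w30,w6]

noncomputable def r238 : List Rw := [w3,w11,w19,w6]

noncomputable def r239 : List Rw := [w25,w6]

noncomputable def r240 : List Rw := [w30,w6]

noncomputable def r241 : List Rw := [w25,w4,w8,w5,w6]

noncomputable def r242 : List Rw := [w4,w8,w6]

noncomputable def r243 : List Rw := [w3,w11,w4,w8,w6]

noncomputable def r244 : List Rw := [w24,w3,w11,w4,w8,w6]

noncomputable def r245 : List Rw := [w16,w3,w6]

noncomputable def r246 : List Rw := [w14,w3,w11,w4,w8,w6]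

noncomputable def r247 : List Rw := [w25,w30]

noncomputable def r248 : List Rw := [w25]

noncomputable def r249 : List Rw := [w25,w4,w8,w6]

noncomputable def r250 : List Rw := [w5,w9,w6,w31,w7]

noncomputable def r251 : List Rw := [w25,w4]

noncomputable def r252 : List Rw := [w24,w3,w5]

noncomputable def r253 : List Rw := [w16,w27]

noncomputable def r254 : List Rw := [w24,w16]

noncomputable def r255 : List Rw := [w23,w3,w11,w5]

noncomputable def r256 : List Rw := [w26,w30,w5]

noncomputable def r257 : List Rw := [w14,w3]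

noncomputable def r258 : List Rw := [w16,w3,w11,w8]

noncomputable def r259 : List Rw := [w19,w16,w3,w11,w5]

noncomputable def r260 : List Rw := [w25,w30,w5]

noncomputable def r261 : List Rw := [w14,w24]

noncomputable def r262 : List Rw := [w26,w30,w4]

noncomputable def r263 : List Rw := [w30,w4]

noncomputable def r264 : List Rw := [w22,w30]

noncomputable def r265 : List Rw := [w22,w8]

noncomputable def r266 : List Rw := [w28,w29,w22,w8]

noncomputable def r267 : List Rw := [w26,w8]

noncomputable def r268 : List Rw := [w26,w30,w8]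

noncomputable def r269 : List Rw := [w14,w3,w11,w8]

noncomputable def r270 : List Rw := [w19,w8]

noncomputable def r271 : List Rw := [w3,w11,w19,w8]

noncomputable def r272 : List Rw := [w14,w25,w8]

noncomputable def r273 : List Rw := [w16,w8]

noncomputable def r274 : List Rw := [w19,w26,w5]

noncomputable def r275 : List Rw := [w14,w25,w5]

noncomputable def r276 : List Rw := [w25,w4,w8,w5]

noncomputable def r277 : List Rw := [w26,w4,w8,w5]

noncomputable def r278 : List Rw := [w32,w5]

noncomputable def r279 : List Rw := [w22,w30,w8]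

noncomputable def r280 : List Rw := [w30,w26,w8]

noncomputable def r281 : List Rw := [w5,w9,w21]

noncomputable def r282 : List Rw := [w3,w33]

noncomputable def r283 : List Rw := [w34,w35,w36]

noncomputable def r284 : List Rw := [w36]

noncomputable def r285 : List Rw := [w37,w5,w9]

noncomputable def r286 : List Rw := [w38,w39]

noncomputable def r287 : List Rw := [w3,w40]

noncomputable def r288 : List Rw := [w36,w6]

noncomputable def r289 : List Rw := [w5,w9,w21,w6]

noncomputable def r290 : List Rw := [w34,w35,w36,w6]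

noncomputable def r291 : List Rw := [w41,w5,w9]

noncomputable def r292 : List Rw := [w4,w8]

noncomputable def r293 : List Rw := [w23,w3,w4,w5]

noncomputable def r294 : List Rw := [w23]

noncomputable def r295 : List Rw := [w24,w19]

noncomputable def r296 : List Rw := [w19,w24]

noncomputable def r297 : List Rw := [w24,w5]

noncomputable def r298 : List Rw := [w23,w5]

noncomputable def r299 : List Rw := [w16,w3,w11]

noncomputable def r300 : List Rw := [w15,w30,w26,w5]

noncomputable def r301 : List Rw := [w19,w30,w26,w5]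

noncomputable def r302 : List Rw := [w16,w4,w8,w5]

noncomputable def r303 : List Rw := [w27,w3,w11,w4]

noncomputable def r304 : List Rw := [w27]

noncomputable def r305 : List Rw := [w26,w4]

noncomputable def r306 : List Rw := [w16,w4]

noncomputable def r307 : List Rw := [w28,w29,w22]

noncomputable def r308 : List Rw := [w42,w38,w39]

noncomputable def r309 : List Rw := [w32,w5,w9]

noncomputable def r310 : List Rw := [w37,w5]

noncomputable def r311 : List Rw := [w25,w37,w5]

noncomputable def r312 : List Rw := [w43,w38,w39]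

noncomputable def r313 : List Rw := [w25,w37,w5,w9]

noncomputable def r314 : List Rw := [w16,w5,w9]

noncomputable def r315 : List Rw := [w30,w22,w4]

noncomputable def r316 : List Rw := [w16,w22,w4]

noncomputable def r317 : List Rw := [w43]

noncomputable def r318 : List Rw := [w43,w26]

noncomputable def r319 : List Rw := [w26,w44,w8]

noncomputable def r320 : List Rw := [w41]

noncomputable def r321 : List Rw := [w18,w3,w11,w5]

noncomputable def r322 : List Rw := [w45,w22,w5]

noncomputable def r323 : List Rw := [w28,w29,w22,w5]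

noncomputable def r324 : List Rw := [w18,w3]

noncomputable def r325 : List Rw := [w46,w22,w4]

noncomputable def r326 : List Rw := [w46,w22]

noncomputable def r327 : List Rw := [w23,w16,w3,w11,w5]

noncomputable def r328 : List Rw := [w18,w27]

noncomputable def r329 : List Rw := [w28,w29,w22,w4]

noncomputable def r330 : List Rw := [w14,w24,w3,w11,w4]

noncomputable def r331 : List Rw := [w14,w22,w4]

noncomputable def r332 : List Rw := [w26,w43]

noncomputable def r333 : List Rw := [w3,w40,w16]

noncomputable def r334 : List Rw := [w47,w3,w11]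

noncomputable def r335 : List Rw := [w3,w11,w16]

noncomputable def r336 : List Rw := [w14,w22]

noncomputable def r337 : List Rw := [w30,w22]

noncomputable def r338 : List Rw := [w30,w22,w8]

noncomputable def r339 : List Rw := [w21,w5,w9]

noncomputable def r340 : List Rw := [w3,w40,w37,w5,w9]

noncomputable def r341 : List Rw := [w26,w37,w5,w9]

noncomputable def r342 : List Rw := [w38,w39,w43]

noncomputable def r343 : List Rw := [w16,w0,w1,w2,w3]

noncomputable def r344 : List Rw := [w0,w48,w28,w4]

noncomputable def r345 : List Rw := [w49,w2,w10]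

noncomputable def r346 : List Rw := [w23,w24,w3,w11,w4]

noncomputable def r347 : List Rw := [w44,w8]

noncomputable def r348 : List Rw := [w26,w50]

noncomputable def r349 : List Rw := [w25,w43]

noncomputable def r350 : List Rw := [w3,w40,w19]

noncomputable def r351 : List Rw := [w43,w25]

noncomputable def r352 : List Rw := [w19,w18,w5]

noncomputable def r353 : List Rw := [w24,w18]

noncomputable def r354 : List Rw := [w18,w24]

noncomputable def r355 : List Rw := [w2,w51,w22,w5]

noncomputable def r356 : List Rw := [w23,w3]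

noncomputable def r357 : List Rw := [w2,w51,w22,w4]

noncomputable def r358 : List Rw := [w46]

noncomputable def r359 : List Rw := [w16,w38,w39]

noncomputable def r360 : List Rw := [w3,w11,w16,w8]

noncomputable def r361 : List Rw := [w16,w3,w40]

noncomputable def r362 : List Rw := [w3,w40,w5]

noncomputable def r363 : List Rw := [w23,w3,w11,w8]

noncomputable def r364 : List Rw := [w52,w26,w43]

noncomputable def r365 : List Rw := [w53,w54,w26]

noncomputable def r366 : List Rw := [w53,w54,w3,w40]

noncomputable def r367 : List Rw := [w16,w37,w5,w9]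

noncomputable def r368 : List Rw := [w43,w37,w5,w9]

noncomputable def r369 : List Rw := [w43,w19]

noncomputable def r370 : List Rw := [w55,w3,w40]

noncomputable def r371 : List Rw := [w14,w38,w39,w43]

noncomputable def r372 : List Rw := [w2,w56]

noncomputable def r373 : List Rw := [w14,w43,w38,w39]

noncomputable def r374 : List Rw := [w14,w38,w39]

noncomputable def r375 : List Rw := [w14,w22,w8]

noncomputable def r376 : List Rw := [w46,w22,w8]

noncomputable def r377 : List Rw := [w14,w3,w40]

noncomputable def r378 : List Rw := [w3,w9]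

noncomputable def r379 : List Rw := [w54,w25]

noncomputable def r380 : List Rw := [w39,w9]

noncomputable def r381 : List Rw := [w38,w37]

noncomputable def r382 : List Rw := [w14,w30,w22,w4]

noncomputable def r383 : List Rw := [w3,w40,w9]

noncomputable def r384 : List Rw := [w32,w25]

noncomputable def r385 : List Rw := [w9]

noncomputable def r386 : List Rw := [w23,w24]

noncomputable def r387 : List Rw := [w46,w22,w5]

noncomputable def r388 : List Rw := [w19,w3]

noncomputable def r389 : List Rw := [w22,w30,w4]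

noncomputable def r390 : List Rw := [w53,w54,w3,w5]

noncomputable def r391 : List Rw := [w16,w3,w5]

noncomputable def r392 : List Rw := [w2,w51,w22]

noncomputable def r393 : List Rw := [w25,w9]

noncomputable def r394 : List Rw := [w19,w32,w3,w9]

noncomputable def r395 : List Rw := [w32,w3,w9]

noncomputable def r396 : List Rw := [w43,w39,w9]

noncomputable def r397 : List Rw := [w54,w25,w9]

noncomputable def r398 : List Rw := [w32,w3,w40,w37,w5,w9]

noncomputable def r399 : List Rw := [w38,w39,w9]

noncomputable def r400 : List Rw := [w19,w22,w4]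

noncomputable def r401 : List Rw := [w19,w27]

noncomputable def r402 : List Rw := [w19,w24,w3]

noncomputable def r403 : List Rw := [w38,w39,w37,w5,w9]

noncomputable def r404 : List Rw := [w24,w4]

noncomputable def r405 : List Rw := [w39,w5]

noncomputable def r406 : List Rw := [w19,w16,w24]

noncomputable def r407 : List Rw := [w57,w3,w40]

noncomputable def r408 : List Rw := [w58,w3,w40]

noncomputable def r409 : List Rw := [w58]

noncomputable def r410 : List Rw := [w55,w3,w5]

noncomputable def r411 : List Rw := [w25,w16]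

noncomputable def r412 : List Rw := [w28,w59,w38,w39]

noncomputable def r413 : List Rw := [w2,w51]

noncomputable def r414 : List Rw := [w2,w51,w30,w22]

noncomputable def r415 : List Rw := [w53,w54,w3,w9]

noncomputable def r416 : List Rw := [w32,w37,w5,w9]

noncomputable def r417 : List Rw := [w28,w59,w39,w9]

noncomputable def r418 : List Rw := [w46,w30,w22,w4]

noncomputable def r419 : List Rw := [w26,w44]

noncomputable def r420 : List Rw := [w32,w3,w40]

noncomputable def r421 : List Rw := [w42,w43,w38]

noncomputable def r422 : List Rw := [w42,w38,w37]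

noncomputable def r423 : List Rw := [w24,w3,w4,w5]

noncomputable def r424 : List Rw := [w58,w3,w40,w37,w5]

noncomputable def r425 : List Rw := [w38,w39,w37,w5]

noncomputable def r426 : List Rw := [w16,w19,w24]

noncomputable def r427 : List Rw := [w19,w30,w4]

noncomputable def r428 : List Rw := [w22,w4,w8,w5]

noncomputable def r429 : List Rw := [w40,w5]

noncomputable def r430 : List Rw := [w58,w3,w5]

noncomputable def r431 : List Rw := [w60,w39,w5]

noncomputable def r432 : List Rw := [w54]

noncomputable def r433 : List Rw := [w16,w58,w3,w5]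

noncomputable def r434 : List Rw := [w28,w59,w26]

noncomputable def r435 : List Rw := [w19,w22]

noncomputable def r436 : List Rw := [w58,w3,w9]

noncomputable def r437 : List Rw := [w32]

noncomputable def r438 : List Rw := [w37]

noncomputable def r439 : List Rw := [w3,w40,w37]

noncomputable def r440 : List Rw := [w39,w37]

noncomputable def r441 : List Rw := [w39]

noncomputable def r442 : List Rw := [w54,w22]

noncomputable def r443 : List Rw := [w61]

noncomputable def r444 : List Rw := [w54,w61]

noncomputable def r445 : List Rw := [w22,w61]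

noncomputable def r446 : List Rw := [w61,w5,w9]

noncomputable def r447 : List Rw := [w26,w44,w4]

noncomputable def r448 : List Rw := [w44,w4]

noncomputable def r449 : List Rw := [w23,w3,w5]

noncomputable def r450 : List Rw := [w23,w3,w11,w4,w5]

noncomputable def r451 : List Rw := [w22,w19,w5]

noncomputable def r452 : List Rw := [w16,w19,w3,w5]

noncomputable def r453 : List Rw := [w3,w40,w37,w5]

noncomputable def r454 : List Rw := [w23,w4]

noncomputable def r455 : List Rw := [w42,w19,w5]

noncomputable def r456 : List Rw := [w24,w3,w4]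

noncomputable def r457 : List Rw := [w22,w19,w4]

noncomputable def r458 : List Rw := [w42,w39,w5]

noncomputable def r459 : List Rw := [w2,w62,w3,w40]

noncomputable def r460 : List Rw := [w2,w56,w38,w39]

noncomputable def r461 : List Rw := [w32,w55,w3,w40]

noncomputable def r462 : List Rw := [w27,w3,w5]

noncomputable def r463 : List Rw := [w27,w3,w11,w16,w5]

noncomputable def r464 : List Rw := [w12,w28,w5]

noncomputable def r465 : List Rw := [w30,w63,w22,w4]

noncomputable def r466 : List Rw := [w42,w5]

noncomputable def r467 : List Rw := [w60,w5]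

noncomputable def r468 : List Rw := [w16,w42,w5]

noncomputable def r469 : List Rw := [w30,w46,w22,w4]

noncomputable def r470 : List Rw := [w25,w30,w4]

noncomputable def r471 : List Rw := [w26,w64]

noncomputable def r472 : List Rw := [w3,w65]

noncomputable def r473 : List Rw := [w66,w4]

noncomputable def r474 : List Rw := [w67,w66,w64]

noncomputable def r475 : List Rw := [w67,w66]

noncomputable def r476 : List Rw := [w38,w68]

noncomputable def r477 : List Rw := [w69,w3,w33]

noncomputable def r478 : List Rw := [w70,w3,w33]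

noncomputable def r479 : List Rw := [w26,w4,w71,w36]

noncomputable def r480 : List Rw := [w4,w71,w36]

noncomputable def r481 : List Rw := [w26,w64,w4]

noncomputable def r482 : List Rw := [w3,w65,w4]

noncomputable def r483 : List Rw := [w28,w72,w66,w4]

noncomputable def r484 : List Rw := [w64,w66,w4]

noncomputable def r485 : List Rw := [w26,w73]

noncomputable def r486 : List Rw := [w64]

noncomputable def r487 : List Rw := [w52,w64,w26]

noncomputable def r488 : List Rw := [w2,w74,w66,w4]

noncomputable def r489 : List Rw := [w75,w66,w4]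

noncomputable def r490 : List Rw := [w2,w74]

noncomputable def r491 : List Rw := [w14,w64,w67,w66]

noncomputable def r492 : List Rw := [w67,w66,w4]

noncomputable def r493 : List Rw := [w2,w74,w67,w66,w4]

noncomputable def r494 : List Rw := [w73]

noncomputable def r495 : List Rw := [w64,w67,w66]

noncomputable def r496 : List Rw := [w66]

noncomputable def r497 : List Rw := [w2,w74,w67,w66]

noncomputable def r498 : List Rw := [w75,w67,w66]

noncomputable def r499 : List Rw := [w16,w36]

noncomputable def r500 : List Rw := [w70,w69,w3,w33]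

noncomputable def r501 : List Rw := [w3,w36]

noncomputable def r502 : List Rw := [w19,w3,w5]

noncomputable def r503 : List Rw := [w38,w5]

noncomputable def r504 : List Rw := [w0,w76,w3]

noncomputable def r505 : List Rw := [w38,w39,w37]

noncomputable def r506 : List Rw := [w42,w38,w5]

noncomputable def r507 : List Rw := [w24,w0,w76,w3]

noncomputable def r508 : List Rw := [w53]

noncomputable def r509 : List Rw := [w53,w54,w3,w40,w5]

noncomputable def r510 : List Rw := [w77,w38,w68]

noncomputable def r511 : List Rw := [w14,w67,w66]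

noncomputable def r512 : List Rw := [w38,w35]

noncomputable def r513 : List Rw := [w14,w3,w33]

noncomputable def r514 : List Rw := [w69,w26]

noncomputable def r515 : List Rw := [w3,w33,w36]

noncomputable def r516 : List Rw := [w78,w3,w4]

noncomputable def r517 : List Rw := [w53,w79,w3,w33]

noncomputable def r518 : List Rw := [w80]

noncomputable def r519 : List Rw := [w38]

noncomputable def r520 : List Rw := [w75]

noncomputable def r521 : List Rw := [w80,w38,w68]

noncomputable def r522 : List Rw := [w77,w38,w35]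

noncomputable def r523 : List Rw := [w69,w36]

noncomputable def r524 : List Rw := [w25,w36]

noncomputable def r525 : List Rw := [w68,w36]

noncomputable def r526 : List Rw := [w14,w78,w3,w65,w4]

noncomputable def r527 : List Rw := [w64,w4,w71,w36]

noncomputable def r528 : List Rw := [w69]

noncomputable def r529 : List Rw := [w38,w68,w80]

noncomputable def r530 : List Rw := [w14,w38,w68]

noncomputable def r531 : List Rw := [w38,w68,w34,w35,w36]

noncomputable def r532 : List Rw := [w63,w64,w67,w66]

noncomputable def r533 : List Rw := [w66,w41,w36]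

noncomputable def r534 : List Rw := [w41,w36]

noncomputable def r535 : List Rw := [w69,w81,w3,w36]

noncomputable def r536 : List Rw := [w69,w34,w35,w36]

noncomputable def r537 : List Rw := [w38,w68,w36]

noncomputable def r538 : List Rw := [w64,w67,w66,w4]

noncomputable def r539 : List Rw := [w75,w64,w67,w66]

noncomputable def r540 : List Rw := [w26,w80]

noncomputable def r541 : List Rw := [w80,w68,w36]

noncomputable def r542 : List Rw := [w28,w82,w68,w36]

noncomputable def r543 : List Rw := [w23,w4,w5]

noncomputable def r544 : List Rw := [w0,w3,w4]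

noncomputable def r545 : List Rw := [w43,w38,w37]

noncomputable def r546 : List Rw := [w0,w83,w38]

noncomputable def r547 : List Rw := [w27,w3]

noncomputable def r548 : List Rw := [w16,w19,w4]

noncomputable def r549 : List Rw := [w2,w62,w3,w5]

noncomputable def r550 : List Rw := [w40,w37]

noncomputable def r551 : List Rw := [w78,w3,w65,w4]

noncomputable def r552 : List Rw := [w78,w3,w65]

noncomputable def r553 : List Rw := [w69,w3,w36]

noncomputable def r554 : List Rw := [w25,w80]

noncomputable def r555 : List Rw := [w23,w3,w11,w4,w8,w5]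

noncomputable def r556 : List Rw := [w24,w16,w3,w4]

noncomputable def r557 : List Rw := [w0,w76,w23,w4]

noncomputable def r558 : List Rw := [w23,w24,w3,w11,w5]

noncomputable def r559 : List Rw := [w22,w4,w8,w5,w9]

noncomputable def r560 : List Rw := [w28,w59,w38,w37]

noncomputable def r561 : List Rw := [w63,w22,w4]

noncomputable def r562 : List Rw := [w16,w30,w4]

noncomputable def r563 : List Rw := [w18,w38,w39]

noncomputable def r564 : List Rw := [w2,w62,w3,w40,w37,w5]

noncomputable def r565 : List Rw := [w55,w5]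

noncomputable def r566 : List Rw := [w2,w56,w38,w37]

noncomputable def r567 : List Rw := [w18,w42,w38,w39]

noncomputable def r568 : List Rw := [w0,w2,w4]

noncomputable def r569 : List Rw := [w17,w42,w38,w37]

noncomputable def r570 : List Rw := [w12,w84,w28]

noncomputable def r571 : List Rw := [w85,w37]

noncomputable def r572 : List Rw := [w86,w87,w3,w65]

noncomputable def r573 : List Rw := [w3,w33,w34,w35,w36]

noncomputable def r574 : List Rw := [w79,w25,w80]

noncomputable def r575 : List Rw := [w3,w33,w19]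

noncomputable def r576 : List Rw := [w69,w25]

noncomputable def r577 : List Rw := [w24,w3,w11,w4,w5]

noncomputable def r578 : List Rw := [w0,w83,w28,w59,w38]

noncomputable def r579 : List Rw := [w12,w88,w28,w59,w38]

noncomputable def r580 : List Rw := [w2,w56,w38]

noncomputable def r581 : List Rw := [w2,w56,w38,w5]

noncomputable def r582 : List Rw := [w28,w59,w38,w5]

noncomputable def r583 : List Rw := [w18,w38,w39,w37,w5,w9]

noncomputable def r584 : List Rw := [w2,w51,w5]

noncomputable def r585 : List Rw := [w18,w38,w37]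

noncomputable def r586 : List Rw := [w28,w5]

noncomputable def r587 : List Rw := [w30,w22,w5]

noncomputable def r588 : List Rw := [w89,w22,w4]

noncomputable def r589 : List Rw := [w43,w38,w39,w37]

noncomputable def r590 : List Rw := [w55]

noncomputable def r591 : List Rw := [w17,w38,w37]

noncomputable def r592 : List Rw := [w59]

noncomputable def r593 : List Rw := [w2,w56,w18,w38,w37]

noncomputable def r594 : List Rw := [w90,w91,w0,w92,w2,w93,w3,w4]

noncomputable def r595 : List Rw := [w0,w92,w2,w4]

noncomputable def r596 : List Rw := [w94]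

noncomputable def r597 : List Rw := [w86,w87,w3,w4]

noncomputable def r598 : List Rw := [w3,w65,w4,w71,w36]

noncomputable def r599 : List Rw := [w26,w94]

noncomputable def r600 : List Rw := [w25,w34,w35,w36]

noncomputable def r601 : List Rw := [w19,w38,w68]

noncomputable def r602 : List Rw := [w95,w96,w2,w56,w38,w39]

noncomputable def r603 : List Rw := [w97,w0,w2,w5]

noncomputable def r604 : List Rw := [w98,w3,w5]

noncomputable def r605 : List Rw := [w28,w38,w5]

noncomputable def r606 : List Rw := [w0,w83,w28,w59,w38,w5]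

noncomputable def r607 : List Rw := [w95,w2,w38]

noncomputable def r608 : List Rw := [w12,w28,w38]

noncomputable def r609 : List Rw := [w28,w29]

noncomputable def r610 : List Rw := [w0,w99,w2]

noncomputable def r611 : List Rw := [w12,w84,w28,w29]

noncomputable def r612 : List Rw := [w15,w22,w4]

noncomputable def r613 : List Rw := [w2,w56,w18,w38,w39]

noncomputable def r614 : List Rw := [w17,w38,w39]

noncomputable def r615 : List Rw := [w53,w54]

noncomputable def r616 : List Rw := [w53,w54,w40,w37]

noncomputable def r617 : List Rw := [w18,w40,w37]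

noncomputable def r618 : List Rw := [w85,w37,w5,w9]

noncomputable def r619 : List Rw := [w53,w54,w3]

noncomputable def r620 : List Rw := [w86,w87,w3,w65,w4]

noncomputable def r621 : List Rw := [w67,w4]

noncomputable def r622 : List Rw := [w28,w72,w67,w66]

noncomputable def r623 : List Rw := [w15,w70,w3,w36]

noncomputable def r624 : List Rw := [w70,w3,w36]

noncomputable def r625 : List Rw := [w19,w3,w33]

noncomputable def r626 : List Rw := [w53,w79,w3,w36]

noncomputable def r627 : List Rw := [w38,w68,w94]

noncomputable def r628 : List Rw := [w64,w26]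

noncomputable def r629 : List Rw := [w66,w71]

noncomputable def r630 : List Rw := [w19,w68,w36]

noncomputable def r631 : List Rw := [w16,w22,w5]

noncomputable def r632 : List Rw := [w19,w30,w22,w5]

noncomputable def r633 : List Rw := [w19,w22,w5]

noncomputable def r634 : List Rw := [w95,w100,w2,w51,w22,w4]

noncomputable def r635 : List Rw := [w63]

noncomputable def r636 : List Rw := [w51]

noncomputable def r637 : List Rw := [w67,w66,w4,w71,w36]

noncomputable def r638 : List Rw := [w38,w34]

noncomputable def r639 : List Rw := [w38,w68,w34,w35]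

noncomputable def r640 : List Rw := [w19,w64]

noncomputable def r641 : List Rw := [w19,w70,w3,w33]

noncomputable def r642 : List Rw := [w16,w19,w3,w33]

noncomputable def r643 : List Rw := [w70,w36]

noncomputable def r644 : List Rw := [w101,w3,w4]

noncomputable def r645 : List Rw := [w101,w3,w65]

noncomputable def r646 : List Rw := [w63,w67,w66,w4]

noncomputable def r647 : List Rw := [w22,w41]

noncomputable def r648 : List Rw := [w22,w4,w8]

noncomputable def r649 : List Rw := [w41,w69,w36]

noncomputable def r650 : List Rw := [w34,w35,w36,w31]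

noncomputable def r651 : List Rw := [w36,w31]

noncomputable def r652 : List Rw := [w31]

noncomputable def r653 : List Rw := [w38,w68,w31]

noncomputable def r654 : List Rw := [w38,w35,w31]

noncomputable def r655 : List Rw := [w41,w36,w31]

noncomputable def r656 : List Rw := [w102,w36,w31]

noncomputable def r657 : List Rw := [w37,w5,w7]

noncomputable def r658 : List Rw := [w5,w7]

noncomputable def r659 : List Rw := [w3,w11,w4,w8,w5,w7]

noncomputable def r660 : List Rw := [w22,w4,w8,w5,w7]

noncomputable def r661 : List Rw := [w4,w8,w5,w7]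

noncomputable def r662 : List Rw := [w27,w3,w11,w4,w7]

noncomputable def r663 : List Rw := [w27,w3,w5,w7]

noncomputable def r664 : List Rw := [w3,w11,w7]

noncomputable def r665 : List Rw := [w4,w7]

noncomputable def r666 : List Rw := [w22,w7]

noncomputable def r667 : List Rw := [w3,w4,w7]

noncomputable def r668 : List Rw := [w23,w3,w4,w7]

noncomputable def r669 : List Rw := [w3,w5,w7]

noncomputable def r670 : List Rw := [w23,w3,w5,w7]

noncomputable def r671 : List Rw := [w24,w3,w5,w7]

noncomputable def r672 : List Rw := [w95,w100,w2,w51,w5,w7]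

noncomputable def r673 : List Rw := [w28,w29,w5,w7]

noncomputable def r674 : List Rw := [w32,w5,w7]

noncomputable def r675 : List Rw := [w3,w7]

noncomputable def r676 : List Rw := [w38,w7]

noncomputable def r677 : List Rw := [w28,w59,w38,w7]

noncomputable def r678 : List Rw := [w2,w56,w38,w7]

noncomputable def r679 : List Rw := [w3,w40,w37,w5,w7]

noncomputable def r680 : List Rw := [w38,w39,w37,w5,w7]

noncomputable def r681 : List Rw := [w2,w56,w38,w39,w37,w5,w7]

noncomputable def r682 : List Rw := [w42,w38,w39,w37,w5,w7]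

noncomputable def r683 : List Rw := [w38,w5,w7]

noncomputable def r684 : List Rw := [w16,w37,w5,w7]

noncomputable def r685 : List Rw := [w42,w38,w7]

noncomputable def r686 : List Rw := [w12,w84,w28,w29,w5,w7]

noncomputable def r687 : List Rw := [w16,w5,w7]

noncomputable def r688 : List Rw := [w2,w51,w5,w7]

noncomputable def r689 : List Rw := [w30,w5,w7]

noncomputable def r690 : List Rw := [w12,w28,w5,w7]

noncomputable def r691 : List Rw := [w28,w29,w16,w19,w5,w7]

noncomputable def r692 : List Rw := [w2,w5,w7]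

noncomputable def r693 : List Rw := [w19,w5,w7]

noncomputable def r694 : List Rw := [w102,w6,w31,w7]

noncomputable def r695 : List Rw := [w95,w96,w2,w56,w38,w7]

noncomputable def r696 : List Rw := [w28,w29,w22,w7]

noncomputable def r697 : List Rw := [w28,w7]

noncomputable def r698 : List Rw := [w19,w22,w7]

noncomputable def r699 : List Rw := [w40,w7]

noncomputable def r700 : List Rw := [w3,w40,w5,w7]

noncomputable def r701 : List Rw := [w2,w3,w5,w7]

noncomputable def r702 : List Rw := [w2,w62,w5,w7]

noncomputable def r703 : List Rw := [w53,w54,w5,w7]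

noncomputable def r704 : List Rw := [w103,w7]

noncomputable def r705 : List Rw := [w28,w29,w4,w7]

noncomputable def r706 : List Rw := [w30,w4,w7]

noncomputable def r707 : List Rw := [w22,w4,w7]

noncomputable def r708 : List Rw := [w37,w32,w5,w7]

noncomputable def r709 : List Rw := [w2,w51,w22,w7]

noncomputable def r710 : List Rw := [w30,w22,w7]

noncomputable def r711 : List Rw := [w0,w2,w7]

noncomputable def r712 : List Rw := [w2,w7]

noncomputable def r713 : List Rw := [w89,w22,w7]

noncomputable def r714 : List Rw := [w63,w22,w7]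

noncomputable def r715 : List Rw := [w18,w38,w7]

noncomputable def r716 : List Rw := [w60,w38,w7]

noncomputable def r717 : List Rw := [w4,w71,w7]

noncomputable def r718 : List Rw := [w3,w65,w4,w71,w7]

noncomputable def r719 : List Rw := [w34,w35,w7]

noncomputable def r720 : List Rw := [w68,w7]

noncomputable def r721 : List Rw := [w34,w36,w7]

noncomputable def r722 : List Rw := [w86,w3,w4,w7]

noncomputable def r723 : List Rw := [w67,w66,w4,w7]

noncomputable def r724 : List Rw := [w86,w87,w3,w7]

noncomputable def r725 : List Rw := [w67,w66,w4,w71,w7]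

noncomputable def r726 : List Rw := [w67,w7]

noncomputable def r727 : List Rw := [w86,w87,w101,w3,w7]

noncomputable def r728 : List Rw := [w101,w3,w7]

noncomputable def r729 : List Rw := [w38,w68,w34,w35,w7]

noncomputable def r730 : List Rw := [w3,w33,w34,w35,w7]

noncomputable def r731 : List Rw := [w81,w3,w7]

noncomputable def r732 : List Rw := [w16,w3,w7]

noncomputable def r733 : List Rw := [w53,w79,w3,w7]

noncomputable def r734 : List Rw := [w3,w33,w34,w36,w7]

noncomputable def r735 : List Rw := [w78,w4,w7]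

noncomputable def r736 : List Rw := [w86,w87,w4,w7]

noncomputable def r737 : List Rw := [w2,w74,w7]

noncomputable def r738 : List Rw := [w69,w7]

noncomputable def r739 : List Rw := [w28,w72,w7]

noncomputable def r740 : List Rw := [w25,w34,w35,w7]

noncomputable def r741 : List Rw := [w3,w33,w36,w7]

noncomputable def r742 : List Rw := [w36,w7]

noncomputable def r743 : List Rw := [w80,w25,w36,w7]

noncomputable def r744 : List Rw := [w28,w82,w25,w36,w7]

noncomputable def r745 : List Rw := [w25,w36,w7]

noncomputable def r746 : List Rw := [w3,w65,w4,w7]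

noncomputable def r747 : List Rw := [w19,w101,w3,w65]

noncomputable def r748 : List Rw := [w66,w7]

noncomputable def r749 : List Rw := [w78,w3,w7]

noncomputable def r750 : List Rw := [w33,w7]

noncomputable def r751 : List Rw := [w80,w7]

noncomputable def r752 : List Rw := [w19,w3,w7]

noncomputable def r753 : List Rw := [w35,w36,w7]

noncomputable def r754 : List Rw := [w3,w33,w35,w36,w7]

noncomputable def r755 : List Rw := [w25,w35,w36,w7]

noncomputable def r756 : List Rw := [w26,w36]

noncomputable def r757 : List Rw := [w15,w26,w36]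

noncomputable def r758 : List Rw := [w33,w36]

noncomputable def r759 : List Rw := [w36,w31,w7]

noncomputable def r760 : List Rw := [w67,w66,w7]

noncomputable def r761 : List Rw := [w67,w66,w71,w7]

noncomputable def r762 : List Rw := [w71,w7]

noncomputable def r763 : List Rw := [w26,w71,w7]

noncomputable def r764 : List Rw := [w35,w7]

noncomputable def r765 : List Rw := [w6,w31,w7]

noncomputable def r766 : List Rw := [w2,w10,w3,w5]

noncomputable def r767 : List Rw := [w2,w10,w4]

noncomputable def r768 : List Rw := [w16,w3,w11,w4,w5,w6]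

noncomputable def r769 : List Rw := [w2,w10,w6]

noncomputable def r770 : List Rw := [w15,w3,w5,w6]

noncomputable def r771 : List Rw := [w16,w24,w3,w11]

noncomputable def r772 : List Rw := [w50]

noncomputable def r773 : List Rw := [w32,w22,w61,w5,w9]

noncomputable def r774 : List Rw := [w22,w61,w5,w9]

noncomputable def r775 : List Rw := [w64,w75,w67,w66]

noncomputable def r776 : List Rw := [w16,w55,w3,w5]

noncomputable def r777 : List Rw := [w80,w77,w38,w68]

noncomputable def r778 : List Rw := [w77,w80,w38,w68]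

noncomputable def r779 : List Rw := [w80,w34,w35,w36]

noncomputable def r780 : List Rw := [w18,w3,w40]

noncomputable def r781 : List Rw := [w101,w3,w65,w4]

noncomputable def r782 : List Rw := [w16,w32,w3,w40,w5]

noncomputable def r783 : List Rw := [w52,w80,w26]

noncomputable def r784 : List Rw := [w36,w6,w31,w7]

noncomputable def r785 : List Rw := [w101,w3,w65,w4,w71,w7]

noncomputable def r786 : List Rw := [w101,w19,w4,w7]

noncomputable def r787 : List Rw := [w4,w71,w36,w31,w7]

noncomputable def r788 : List Rw := [w0,w1,w2,w10,w3,w11,w4,w6]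

noncomputable def r789 : List Rw := [w0,w1,w2,w10,w3,w4,w6]

noncomputable def r790 : List Rw := [w44]

noncomputable def r791 : List Rw := [w0,w2,w5,w7]

noncomputable def r792 : List Rw := [w34,w35,w36,w6,w31,w7]

noncomputable def r793 : List Rw := [w19,w5,w9]

noncomputable def r794 : List Rw := [w31,w7]

end Pool.Agent.MP_c853c5_nt.X.C4950
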