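import Pool.Agent.MP_c853c5_nt.X.L4950.TabOK
import Pool.Agent.MP_c853c5_nt.DV.F4950a.TabOK
import Pool.Agent.MP_c853c5_nt.X.SndL
import Pool.Agent.MP_c853c5_nt.X.C4950.Q

set_option autoImplicit false
set_option maxRecDepth 8192
set_option linter.all false

namespace Pool.Agent.MP_c853c5_nt.X.C4950

open Pool.Agent.MP_c853c5_nt.X

noncomputable def U2_0 : BT PP := (.nd 9 (.nd 4 (.nd 2 (.nd 1 (.lf (L4950.tab.find 0)) (.lf (L4950.tab.find 1))) (.nd 1 (.lf (L4950.tab.find 2)) (.lf (L4950.tab.find 3)))) (.nd 2 (.nd 1 (.lf (L4950.tab.find 4)) (.lf (L4950.tab.find 5))) (.nd 1 (.lf (L4950.tab.find 6)) (.nd 1 (.lf (L4950.tab.find 7)) (.lf (L4950.tab.find 8)))))) (.nd 5 (.nd 2 (.nd 1 (.lf (L4950.tab.find 9)) (.lf (L4950.tab.find 10))) (.nd 1 (.lf (L4950.tab.find 11)) (.nd 1 (.lf (L4950.tab.find 12)) (.lf (L4950.tab.find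 13))))) (.nd 2 (.nd 1 (.lf (L4950.tab.find 14)) (.lf (L4950.tab.find 15))) (.nd 1 (.lf (L4950.tab.find 16)) (.nd 1 (.lf (L4950.tab.find 17)) (.lf (L4950.tab.find 18)))))))

theorem hU2_0 : U2_0.All (PP.Good 495000) := ⟨⟨⟨⟨L4950.tabOK.find 0, L4950.tabOK.find 1⟩, ⟨L4950.tabOK.find 2, L4950.tabOK.find 3⟩⟩, ⟨⟨L4950.tabOK.find 4, L4950.tabOK.find 5⟩, ⟨L4950.tabOK.find 6, ⟨L4950.tabOK.find 7, L4950.tabOK.find 8⟩⟩⟩⟩, ⟨⟨⟨L4950.tabOK.find 9, L4950.tabOK.find 10⟩, ⟨L4950.tabOK.find 11, ⟨L4950.tabOK.find 12, L4950.tabOK.find 13⟩⟩⟩, ⟨⟨L4950.tabOK.find 14, L4950.tabOK.find 15⟩, ⟨L4950.tabOK.find 16, ⟨L4950.tabOK.find 17, L4950.tabOK.find 18⟩⟩⟩⟩⟩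

noncomputable def U2 : BT PP := U2_0

theorem hU2 : U2.All (PP.Good 495000) := hU2_0

theorem bU2 : btQ Q2 U2 = true := by decide +kernel

noncomputable def U3_0 : BT PP := (.nd 10 (.nd 5 (.nd 2 (.nd 1 (.lf (F4950a.tab.find 432)) (.lf (F4950a.tab.find 829))) (.nd 1 (.lf (F4950a.tab.find 545)) (.nd 1 (.lf (F4950a.tab.find 52)) (.lf (F4950a.tab.find 827))))) (.nd 2 (.nd 1 (.lf (F4950a.tab.find 835)) (.lf (F4950a.tab.find 834))) (.nd 1 (.lf (F4950a.tab.find 828)) (.nd 1 (.lf (F4950a.tab.find 831)) (.lf (F4950a.tab.find 57)))))) (.nd 5 (.nd 2 (.nd 1 (.lf (F4950a.tab.find 15)) (.lf (F4950a.tab.find 380))) (.nd 1 (.lf (F4950a.tab.find 238)) (.nd 1 (.lf (F4950a.tab.find 462)) (.lf (F4950a.tab.find 75))))) (.nd 2 (.nd 1 (.lf (F4950a.tab.find 128)) (.lf (F4950a.tab.find 658))) (.nd 1 (.lf (F4950a.tab.find 574))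 (.nd 1 (.lf (F4950a.tab.find 627)) (.lf (F4950a.tab.find 558)))))))

theorem hU3_0 : U3_0.All (PP.Good34 495000) := ⟨⟨⟨⟨F4950a.tabOK.find 432, F4950a.tabOK.find 829⟩, ⟨F4950a.tabOK.find 545, ⟨F4950a.tabOK.find 52, F4950a.tabOK.find 827⟩⟩⟩, ⟨⟨F4950a.tabOK.find 835, F4950a.tabOK.find 834⟩, ⟨F4950a.tabOK.find 828, ⟨F4950a.tabOK.find 831, F4950a.tabOK.find 57⟩⟩⟩⟩, ⟨⟨⟨F4950a.tabOK.find 15, F4950a.tabOK.find 380⟩, ⟨F4950a.tabOK.find 238, ⟨F4950a.tabOK.find 462, F4950a.tabOK.find 75⟩⟩⟩, ⟨⟨F4950a.tabOK.find 128, F4950a.tabOK.find 658⟩, ⟨F4950a.tabOK.find 574, ⟨F4950a.tabOK.find 627, F4950a.tabOK.find 558⟩⟩⟩⟩⟩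

noncomputable def U3_20 : BT PP := (.nd 10 (.nd 5 (.nd 2 (.nd 1 (.lf (F4950a.tab.find 16)) (.lf (F4950a.tab.find 830))) (.nd 1 (.lf (F4950a.tab.find 836)) (.nd 1 (.lf (F4950a.tab.find 837)) (.lf (F4950a.tab.find 344))))) (.nd 2 (.nd 1 (.lf (F4950a.tab.find 82)) (.lf (F4950a.tab.find 313))) (.nd 1 (.lf (F4950a.tab.find 76)) (.nd 1 (.lf (F4950a.tab.find 453)) (.lf (F4950a.tab.find 275)))))) (.nd 5 (.nd 2 (.nd 1 (.lf (F4950a.tab.find 511)) (.lf (F4950a.tab.find 6))) (.nd 1 (.lf (F4950a.tab.find 310)) (.nd 1 (.lf (F4950a.tab.find 92)) (.lf (F4950a.tab.find 223))))) (.nd 2 (.nd 1 (.lf (F4950a.tab.find 526)) (.lf (F4950a.tab.find 273))) (.nd 1 (.lf (F4950a.tab.find 520)) (.nd 1 (.lf (F4950a.tab.find 429)) (.lf (F4950a.tab.find 47)))))))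

theorem hU3_20 : U3_20.All (PP.Good34 495000) := ⟨⟨⟨⟨F4950a.tabOK.find 16, F4950a.tabOK.find 830⟩, ⟨F4950a.tabOK.find 836, ⟨F4950a.tabOK.find 837, F4950a.tabOK.find 344⟩⟩⟩, ⟨⟨F4950a.tabOK.find 82, F4950a.tabOK.find 313⟩, ⟨F4950a.tabOK.find 76, ⟨F4950a.tabOK.find 453, F4950a.tabOK.find 275⟩⟩⟩⟩, ⟨⟨⟨F4950a.tabOK.find 511, F4950a.tabOK.find 6⟩, ⟨F4950a.tabOK.find 310, ⟨F4950a.tabOK.find 92, F4950a.tabOK.find 223⟩⟩⟩, ⟨⟨F4950a.tabOK.find 526, F4950a.tabOK.find 273⟩, ⟨F4950a.tabOK.find 520, ⟨F4950a.tabOK.find 429, F4950a.tabOK.find 47⟩⟩⟩⟩⟩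

noncomputable def U3_40 : BT PP := (.nd 10 (.nd 5 (.nd 2 (.nd 1 (.lf (F4950a.tab.find 111)) (.lf (F4950a.tab.find 760))) (.nd 1 (.lf (F4950a.tab.find 1)) (.nd 1 (.lf (F4950a.tab.find 354)) (.lf (F4950a.tab.find 592))))) (.nd 2 (.nd 1 (.lf (F4950a.tab.find 90)) (.lf (F4950a.tab.find 595))) (.nd 1 (.lf (F4950a.tab.find 53)) (.nd 1 (.lf (F4950a.tab.find 657)) (.lf (F4950a.tab.find 397)))))) (.nd 5 (.nd 2 (.nd 1 (.lf (F4950a.tab.find 181)) (.lf (F4950a.tab.find 29))) (.nd 1 (.lf (F4950a.tab.find 270)) (.nd 1 (.lf (F4950a.tab.find 285)) (.lf (F4950a.tab.find 612))))) (.nd 2 (.nd 1 (.lf (F4950a.tab.find 55)) (.lf (F4950a.tab.find 50))) (.nd 1 (.lf (F4950a.tab.find 64)) (.nd 1 (.lf (F4950a.tab.find 122)) (.lf (F4950a.tab.find 346)))))))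

theorem hU3_40 : U3_40.All (PP.Good34 495000) := ⟨⟨⟨⟨F4950a.tabOK.find 111, F4950a.tabOK.find 760⟩, ⟨F4950a.tabOK.find 1, ⟨F4950a.tabOK.find 354, F4950a.tabOK.find 592⟩⟩⟩, ⟨⟨F4950a.tabOK.find 90, F4950a.tabOK.find 595⟩, ⟨F4950a.tabOK.find 53, ⟨F4950a.tabOK.find 657, F4950a.tabOK.find 397⟩⟩⟩⟩, ⟨⟨⟨F4950a.tabOK.find 181, F4950a.tabOK.find 29⟩, ⟨F4950a.tabOK.find 270, ⟨F4950a.tabOK.find 285, F4950a.tabOK.find 612⟩⟩⟩, ⟨⟨F4950a.tabOK.find 55, F4950a.tabOK.find 50⟩, ⟨F4950a.tabOK.find 64, ⟨F4950a.tabOK.find 122, F4950a.tabOK.find 346⟩⟩⟩⟩⟩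

noncomputable def U3_60 : BT PP := (.nd 10 (.nd 5 (.nd 2 (.nd 1 (.lf (F4950a.tab.find 353)) (.lf (F4950a.tab.find 115))) (.nd 1 (.lf (F4950a.tab.find 662)) (.nd 1 (.lf (F4950a.tab.find 508)) (.lf (F4950a.tab.find 88))))) (.nd 2 (.nd 1 (.lf (F4950a.tab.find 59)) (.lf (F4950a.tab.find 131))) (.nd 1 (.lf (F4950a.tab.find 351)) (.nd 1 (.lf (F4950a.tab.find 634)) (.lf (F4950a.tab.find 504)))))) (.nd 5 (.nd 2 (.nd 1 (.lf (F4950a.tab.find 491)) (.lf (F4950a.tab.find 33))) (.nd 1 (.lf (F4950a.tab.find 616)) (.nd 1 (.lf (F4950a.tab.find 341)) (.lf (F4950a.tab.find 623))))) (.nd 3 (.nd 1 (.lf (F4950a.tab.find 80)) (.nd 1 (.lf (F4950a.tab.find 822)) (.lf (F4950a.tab.find 78)))) (.nd 1 (.lf (F4950a.tab.find 832)) (.nd 1 (.lf (F4950a.tab.find 306)) (.lf (F4950a.tab.find 806)))))))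

theorem hU3_60 : U3_60.All (PP.Good34 495000) := ⟨⟨⟨⟨F4950a.tabOK.find 353, F4950a.tabOK.find 115⟩, ⟨F4950a.tabOK.find 662, ⟨F4950a.tabOK.find 508, F4950a.tabOK.find 88⟩⟩⟩, ⟨⟨F4950a.tabOK.find 59, F4950a.tabOK.find 131⟩, ⟨F4950a.tabOK.find 351, ⟨F4950a.tabOK.find 634, F4950a.tabOK.find 504⟩⟩⟩⟩, ⟨⟨⟨F4950a.tabOK.find 491, F4950a.tabOK.find 33⟩, ⟨F4950a.tabOK.find 616, ⟨F4950a.tabOK.find 341, F4950a.tabOK.find 623⟩⟩⟩, ⟨⟨F4950a.tabOK.find 80, ⟨F4950a.tabOK.find 822, F4950a.tabOK.find 78⟩⟩, ⟨F4950a.tabOK.find 832, ⟨F4950a.tabOK.find 306, F4950a.tabOK.find 806⟩⟩⟩⟩⟩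

noncomputable def U3_81 : BT PP := (.nd 10 (.nd 5 (.nd 2 (.nd 1 (.lf (F4950a.tab.find 596)) (.lf (F4950a.tab.find 383))) (.nd 1 (.lf (F4950a.tab.find 309)) (.nd 1 (.lf (F4950a.tab.find 791)) (.lf (F4950a.tab.find 373))))) (.nd 2 (.nd 1 (.lf (F4950a.tab.find 729)) (.lf (F4950a.tab.find 66))) (.nd 1 (.lf (F4950a.tab.find 712)) (.nd 1 (.lf (F4950a.tab.find 736)) (.lf (F4950a.tab.find 28)))))) (.nd 5 (.nd 2 (.nd 1 (.lf (F4950a.tab.find 196)) (.lf (F4950a.tab.find 454))) (.nd 1 (.lf (F4950a.tab.find 594)) (.nd 1 (.lf (F4950a.tab.find 531)) (.lf (F4950a.tab.find 542))))) (.nd 2 (.nd 1 (.lf (F4950a.tab.find 584)) (.lf (F4950a.tab.find 25))) (.nd 1 (.lf (F4950a.tab.find 549)) (.nd 1 (.lf (F4950a.tab.find 426)) (.lf (F4950a.tab.find 833)))))))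

theorem hU3_81 : U3_81.All (PP.Good34 495000) := ⟨⟨⟨⟨F4950a.tabOK.find 596, F4950a.tabOK.find 383⟩, ⟨F4950a.tabOK.find 309, ⟨F4950a.tabOK.find 791, F4950a.tabOK.find 373⟩⟩⟩, ⟨⟨F4950a.tabOK.find 729, F4950a.tabOK.find 66⟩, ⟨F4950a.tabOK.find 712, ⟨F4950a.tabOK.find 736, F4950a.tabOK.find 28⟩⟩⟩⟩, ⟨⟨⟨F4950a.tabOK.find 196, F4950a.tabOK.find 454⟩, ⟨F4950a.tabOK.find 594, ⟨F4950a.tabOK.find 531, F4950a.tabOK.find 542⟩⟩⟩, ⟨⟨F4950a.tabOK.find 584, F4950a.tabOK.find 25⟩, ⟨F4950a.tabOK.find 549, ⟨F4950a.tabOK.find 426, F4950a.tabOK.find 833⟩⟩⟩⟩⟩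

noncomputable def U3_101 : BT PP := (.nd 10 (.nd 5 (.nd 2 (.nd 1 (.lf (F4950a.tab.find 72)) (.lf (F4950a.tab.find 631))) (.nd 1 (.lf (F4950a.tab.find 356)) (.nd 1 (.lf (F4950a.tab.find 466)) (.lf (F4950a.tab.find 89))))) (.nd 2 (.nd 1 (.lf (F4950a.tab.find 421)) (.lf (F4950a.tab.find 21))) (.nd 1 (.lf (F4950a.tab.find 563)) (.nd 1 (.lf (F4950a.tab.find 160)) (.lf (F4950a.tab.find 629)))))) (.nd 5 (.nd 2 (.nd 1 (.lf (F4950a.tab.find 360)) (.lf (F4950a.tab.find 518))) (.nd 1 (.lf (F4950a.tab.find 229)) (.nd 1 (.lf (F4950a.tab.find 357)) (.lf (F4950a.tab.find 136))))) (.nd 2 (.nd 1 (.lf (F4950a.tab.find 821)) (.lf (F4950a.tab.find 58))) (.nd 1 (.lf (F4950a.tab.find 94)) (.nd 1 (.lf (F4950a.tab.find 759)) (.lf (F4950a.tab.find 224)))))))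

theorem hU3_101 : U3_101.All (PP.Good34 495000) := ⟨⟨⟨⟨F4950a.tabOK.find 72, F4950a.tabOK.find 631⟩, ⟨F4950a.tabOK.find 356, ⟨F4950a.tabOK.find 466, F4950a.tabOK.find 89⟩⟩⟩, ⟨⟨F4950a.tabOK.find 421, F4950a.tabOK.find 21⟩, ⟨F4950a.tabOK.find 563, ⟨F4950a.tabOK.find 160, F4950a.tabOK.find 629⟩⟩⟩⟩, ⟨⟨⟨F4950a.tabOK.find 360, F4950a.tabOK.find 518⟩, ⟨F4950a.tabOK.find 229, ⟨F4950a.tabOK.find 357, F4950a.tabOK.find 136⟩⟩⟩, ⟨⟨F4950a.tabOK.find 821, F4950a.tabOK.find 58⟩, ⟨F4950a.tabOK.find 94, ⟨F4950a.tabOK.find 759, F4950a.tabOK.find 224⟩⟩⟩⟩⟩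

noncomputable def U3_121 : BT PP := (.nd 10 (.nd 5 (.nd 2 (.nd 1 (.lf (F4950a.tab.find 456)) (.lf (F4950a.tab.find 678))) (.nd 1 (.lf (F4950a.tab.find 399)) (.nd 1 (.lf (F4950a.tab.find 71)) (.lf (F4950a.tab.find 683))))) (.nd 2 (.nd 1 (.lf (F4950a.tab.find 7)) (.lf (F4950a.tab.find 500))) (.nd 1 (.lf (F4950a.tab.find 818)) (.nd 1 (.lf (F4950a.tab.find 796)) (.lf (F4950a.tab.find 617)))))) (.nd 5 (.nd 2 (.nd 1 (.lf (F4950a.tab.find 445)) (.lf (F4950a.tab.find 305))) (.nd 1 (.lf (F4950a.tab.find 182)) (.nd 1 (.lf (F4950a.tab.find 811)) (.lf (F4950a.tab.find 326))))) (.nd 2 (.nd 1 (.lf (F4950a.tab.find 220)) (.lf (F4950a.tab.find 51))) (.nd 1 (.lf (F4950a.tab.find 626)) (.nd 1 (.lf (F4950a.tab.find 103)) (.lf (F4950a.tab.find 155)))))))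

theorem hU3_121 : U3_121.All (PP.Good34 495000) := ⟨⟨⟨⟨F4950a.tabOK.find 456, F4950a.tabOK.find 678⟩, ⟨F4950a.tabOK.find 399, ⟨F4950a.tabOK.find 71, F4950a.tabOK.find 683⟩⟩⟩, ⟨⟨F4950a.tabOK.find 7, F4950a.tabOK.find 500⟩, ⟨F4950a.tabOK.find 818, ⟨F4950a.tabOK.find 796, F4950a.tabOK.find 617⟩⟩⟩⟩, ⟨⟨⟨F4950a.tabOK.find 445, F4950a.tabOK.find 305⟩, ⟨F4950a.tabOK.find 182, ⟨F4950a.tabOK.find 811, F4950a.tabOK.find 326⟩⟩⟩, ⟨⟨F4950a.tabOK.find 220, F4950a.tabOK.find 51⟩, ⟨F4950a.tabOK.find 626, ⟨F4950a.tabOK.find 103, F4950a.tabOK.find 155⟩⟩⟩⟩⟩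

noncomputable def U3_141 : BT PP := (.nd 10 (.nd 5 (.nd 2 (.nd 1 (.lf (F4950a.tab.find 420)) (.lf (F4950a.tab.find 203))) (.nd 1 (.lf (F4950a.tab.find 147)) (.nd 1 (.lf (F4950a.tab.find 259)) (.lf (F4950a.tab.find 263))))) (.nd 2 (.nd 1 (.lf (F4950a.tab.find 593)) (.lf (F4950a.tab.find 800))) (.nd 1 (.lf (F4950a.tab.find 476)) (.nd 1 (.lf (F4950a.tab.find 345)) (.lf (F4950a.tab.find 843)))))) (.nd 5 (.nd 2 (.nd 1 (.lf (F4950a.tab.find 668)) (.lf (F4950a.tab.find 633))) (.nd 1 (.lf (F4950a.tab.find 299)) (.nd 1 (.lf (F4950a.tab.find 606)) (.lf (F4950a.tab.find 580))))) (.nd 3 (.nd 1 (.lf (F4950a.tab.find 747)) (.nd 1 (.lf (F4950a.tab.find 773)) (.lf (F4950a.tab.find 587)))) (.nd 1 (.lf (F4950a.tab.find 142)) (.nd 1 (.lf (F4950a.tab.find 602)) (.lf (F4950a.tab.find 597)))))))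

theorem hU3_141 : U3_141.All (PP.Good34 495000) := ⟨⟨⟨⟨F4950a.tabOK.find 420, F4950a.tabOK.find 203⟩, ⟨F4950a.tabOK.find 147, ⟨F4950a.tabOK.find 259, F4950a.tabOK.find 263⟩⟩⟩, ⟨⟨F4950a.tabOK.find 593, F4950a.tabOK.find 800⟩, ⟨F4950a.tabOK.find 476, ⟨F4950a.tabOK.find 345, F4950a.tabOK.find 843⟩⟩⟩⟩, ⟨⟨⟨F4950a.tabOK.find 668, F4950a.tabOK.find 633⟩, ⟨F4950a.tabOK.find 299, ⟨F4950a.tabOK.find 606, F4950a.tabOK.find 580⟩⟩⟩, ⟨⟨F4950a.tabOK.find 747, ⟨F4950a.tabOK.find 773, F4950a.tabOK.find 587⟩⟩, ⟨F4950a.tabOK.find 142, ⟨F4950a.tabOK.find 602, F4950a.tabOK.find 597⟩⟩⟩⟩⟩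

noncomputable def U3_162 : BT PP := (.nd 10 (.nd 5 (.nd 2 (.nd 1 (.lf (F4950a.tab.find 487)) (.lf (F4950a.tab.find 284))) (.nd 1 (.lf (F4950a.tab.find 288)) (.nd 1 (.lf (F4950a.tab.find 139)) (.lf (F4950a.tab.find 172))))) (.nd 2 (.nd 1 (.lf (F4950a.tab.find 561)) (.lf (F4950a.tab.find 143))) (.nd 1 (.lf (F4950a.tab.find 261)) (.nd 1 (.lf (F4950a.tab.find 159)) (.lf (F4950a.tab.find 528)))))) (.nd 5 (.nd 2 (.nd 1 (.lf (F4950a.tab.find 120)) (.lf (F4950a.tab.find 618))) (.nd 1 (.lf (F4950a.tab.find 572)) (.nd 1 (.lf (F4950a.tab.find 608)) (.lf (F4950a.tab.find 68))))) (.nd 2 (.nd 1 (.lf (F4950a.tab.find 394)) (.lf (F4950a.tab.find 127))) (.nd 1 (.lf (F4950a.tab.find 293)) (.nd 1 (.lf (F4950a.tab.find 252)) (.lf (F4950a.tab.find 5)))))))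

theorem hU3_162 : U3_162.All (PP.Good34 495000) := ⟨⟨⟨⟨F4950a.tabOK.find 487, F4950a.tabOK.find 284⟩, ⟨F4950a.tabOK.find 288, ⟨F4950a.tabOK.find 139, F4950a.tabOK.find 172⟩⟩⟩, ⟨⟨F4950a.tabOK.find 561, F4950a.tabOK.find 143⟩, ⟨F4950a.tabOK.find 261, ⟨F4950a.tabOK.find 159, F4950a.tabOK.find 528⟩⟩⟩⟩, ⟨⟨⟨F4950a.tabOK.find 120, F4950a.tabOK.find 618⟩, ⟨F4950a.tabOK.find 572, ⟨F4950a.tabOK.find 608, F4950a.tabOK.find 68⟩⟩⟩, ⟨⟨F4950a.tabOK.find 394, F4950a.tabOK.find 127⟩, ⟨F4950a.tabOK.find 293, ⟨F4950a.tabOK.find 252, F4950a.tabOK.find 5⟩⟩⟩⟩⟩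

noncomputable def U3_182 : BT PP := (.nd 10 (.nd 5 (.nd 2 (.nd 1 (.lf (F4950a.tab.find 369)) (.lf (F4950a.tab.find 403))) (.nd 1 (.lf (F4950a.tab.find 693)) (.nd 1 (.lf (F4950a.tab.find 569)) (.lf (F4950a.tab.find 711))))) (.nd 2 (.nd 1 (.lf (F4950a.tab.find 191)) (.lf (F4950a.tab.find 640))) (.nd 1 (.lf (F4950a.tab.find 308)) (.nd 1 (.lf (F4950a.tab.find 567)) (.lf (F4950a.tab.find 42)))))) (.nd 5 (.nd 2 (.nd 1 (.lf (F4950a.tab.find 249)) (.lf (F4950a.tab.find 8))) (.nd 1 (.lf (F4950a.tab.find 3)) (.nd 1 (.lf (F4950a.tab.find 106)) (.lf (F4950a.tab.find 517))))) (.nd 2 (.nd 1 (.lf (F4950a.tab.find 452)) (.lf (F4950a.tab.find 810))) (.nd 1 (.lf (F4950a.tab.find 379)) (.nd 1 (.lf (F4950a.tab.find 204)) (.lf (F4950a.tab.find 754)))))))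

theorem hU3_182 : U3_182.All (PP.Good34 495000) := ⟨⟨⟨⟨F4950a.tabOK.find 369, F4950a.tabOK.find 403⟩, ⟨F4950a.tabOK.find 693, ⟨F4950a.tabOK.find 569, F4950a.tabOK.find 711⟩⟩⟩, ⟨⟨F4950a.tabOK.find 191, F4950a.tabOK.find 640⟩, ⟨F4950a.tabOK.find 308, ⟨F4950a.tabOK.find 567, F4950a.tabOK.find 42⟩⟩⟩⟩, ⟨⟨⟨F4950a.tabOK.find 249, F4950a.tabOK.find 8⟩, ⟨F4950a.tabOK.find 3, ⟨F4950a.tabOK.find 106, F4950a.tabOK.find 517⟩⟩⟩, ⟨⟨F4950a.tabOK.find 452, F4950a.tabOK.find 810⟩, ⟨F4950a.tabOK.find 379, ⟨F4950a.tabOK.find 204, F4950a.tabOK.find 754⟩⟩⟩⟩⟩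

noncomputable def U3_202 : BT PP := (.nd 10 (.nd 5 (.nd 2 (.nd 1 (.lf (F4950a.tab.find 62)) (.lf (F4950a.tab.find 502))) (.nd 1 (.lf (F4950a.tab.find 65)) (.nd 1 (.lf (F4950a.tab.find 842)) (.lf (F4950a.tab.find 110))))) (.nd 2 (.nd 1 (.lf (F4950a.tab.find 146)) (.lf (F4950a.tab.find 459))) (.nd 1 (.lf (F4950a.tab.find 682)) (.nd 1 (.lf (F4950a.tab.find 167)) (.lf (F4950a.tab.find 789)))))) (.nd 5 (.nd 2 (.nd 1 (.lf (F4950a.tab.find 501)) (.lf (F4950a.tab.find 780))) (.nd 1 (.lf (F4950a.tab.find 521)) (.nd 1 (.lf (F4950a.tab.find 276)) (.lf (F4950a.tab.find 485))))) (.nd 2 (.nd 1 (.lf (F4950a.tab.find 541)) (.lf (F4950a.tab.find 611))) (.nd 1 (.lf (F4950a.tab.find 10)) (.nd 1 (.lf (F4950a.tab.find 209)) (.lf (F4950a.tab.find 653)))))))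

theorem hU3_202 : U3_202.All (PP.Good34 495000) := ⟨⟨⟨⟨F4950a.tabOK.find 62, F4950a.tabOK.find 502⟩, ⟨F4950a.tabOK.find 65, ⟨F4950a.tabOK.find 842, F4950a.tabOK.find 110⟩⟩⟩, ⟨⟨F4950a.tabOK.find 146, F4950a.tabOK.find 459⟩, ⟨F4950a.tabOK.find 682, ⟨F4950a.tabOK.find 167, F4950a.tabOK.find 789⟩⟩⟩⟩, ⟨⟨⟨F4950a.tabOK.find 501, F4950a.tabOK.find 780⟩, ⟨F4950a.tabOK.find 521, ⟨F4950a.tabOK.find 276, F4950a.tabOK.find 485⟩⟩⟩, ⟨⟨F4950a.tabOK.find 541, F4950a.tabOK.find 611⟩, ⟨F4950a.tabOK.find 10, ⟨F4950a.tabOK.find 209, F4950a.tabOK.find 653⟩⟩⟩⟩⟩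

noncomputable def U3_222 : BT PP := (.nd 10 (.nd 5 (.nd 2 (.nd 1 (.lf (F4950a.tab.find 11)) (.lf (F4950a.tab.find 390))) (.nd 1 (.lf (F4950a.tab.find 665)) (.nd 1 (.lf (F4950a.tab.find 54)) (.lf (F4950a.tab.find 44))))) (.nd 2 (.nd 1 (.lf (F4950a.tab.find 697)) (.lf (F4950a.tab.find 559))) (.nd 1 (.lf (F4950a.tab.find 32)) (.nd 1 (.lf (F4950a.tab.find 183)) (.lf (F4950a.tab.find 845)))))) (.nd 5 (.nd 2 (.nd 1 (.lf (F4950a.tab.find 30)) (.lf (F4950a.tab.find 765))) (.nd 1 (.lf (F4950a.tab.find 212)) (.nd 1 (.lf (F4950a.tab.find 116)) (.lf (F4950a.tab.find 384))))) (.nd 3 (.nd 1 (.lf (F4950a.tab.find 217)) (.nd 1 (.lf (F4950a.tab.find 744)) (.lf (F4950a.tab.find 222)))) (.nd 1 (.lf (F4950a.tab.find 247)) (.nd 1 (.lf (F4950a.tab.find 449)) (.lf (F4950a.tab.find 529)))))))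

theorem hU3_222 : U3_222.All (PP.Good34 495000) := ⟨⟨⟨⟨F4950a.tabOK.find 11, F4950a.tabOK.find 390⟩, ⟨F4950a.tabOK.find 665, ⟨F4950a.tabOK.find 54, F4950a.tabOK.find 44⟩⟩⟩, ⟨⟨F4950a.tabOK.find 697, F4950a.tabOK.find 559⟩, ⟨F4950a.tabOK.find 32, ⟨F4950a.tabOK.find 183, F4950a.tabOK.find 845⟩⟩⟩⟩, ⟨⟨⟨F4950a.tabOK.find 30, F4950a.tabOK.find 765⟩, ⟨F4950a.tabOK.find 212, ⟨F4950a.tabOK.find 116, F4950a.tabOK.find 384⟩⟩⟩, ⟨⟨F4950a.tabOK.find 217, ⟨F4950a.tabOK.find 744, F4950a.tabOK.find 222⟩⟩, ⟨F4950a.tabOK.find 247, ⟨F4950a.tabOK.find 449, F4950a.tabOK.find 529⟩⟩⟩⟩⟩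

noncomputable def U3_243 : BT PP := (.nd 10 (.nd 5 (.nd 2 (.nd 1 (.lf (F4950a.tab.find 317)) (.lf (F4950a.tab.find 303))) (.nd 1 (.lf (F4950a.tab.find 230)) (.nd 1 (.lf (F4950a.tab.find 258)) (.lf (F4950a.tab.find 576))))) (.nd 2 (.nd 1 (.lf (F4950a.tab.find 710)) (.lf (F4950a.tab.find 219))) (.nd 1 (.lf (F4950a.tab.find 601)) (.nd 1 (.lf (F4950a.tab.find 472)) (.lf (F4950a.tab.find 339)))))) (.nd 5 (.nd 2 (.nd 1 (.lf (F4950a.tab.find 281)) (.lf (F4950a.tab.find 221))) (.nd 1 (.lf (F4950a.tab.find 300)) (.nd 1 (.lf (F4950a.tab.find 248)) (.lf (F4950a.tab.find 327))))) (.nd 2 (.nd 1 (.lf (F4950a.tab.find 201)) (.lf (F4950a.tab.find 184))) (.nd 1 (.lf (F4950a.tab.find 141)) (.nd 1 (.lf (F4950a.tab.find 234)) (.lf (F4950a.tab.find 557)))))))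

theorem hU3_243 : U3_243.All (PP.Good34 495000) := ⟨⟨⟨⟨F4950a.tabOK.find 317, F4950a.tabOK.find 303⟩, ⟨F4950a.tabOK.find 230, ⟨F4950a.tabOK.find 258, F4950a.tabOK.find 576⟩⟩⟩, ⟨⟨F4950a.tabOK.find 710, F4950a.tabOK.find 219⟩, ⟨F4950a.tabOK.find 601, ⟨F4950a.tabOK.find 472, F4950a.tabOK.find 339⟩⟩⟩⟩, ⟨⟨⟨F4950a.tabOK.find 281, F4950a.tabOK.find 221⟩, ⟨F4950a.tabOK.find 300, ⟨F4950a.tabOK.find 248, F4950a.tabOK.find 327⟩⟩⟩, ⟨⟨F4950a.tabOK.find 201, F4950a.tabOK.find 184⟩, ⟨F4950a.tabOK.find 141, ⟨F4950a.tabOK.find 234, F4950a.tabOK.find 557⟩⟩⟩⟩⟩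

noncomputable def U3_263 : BT PP := (.nd 10 (.nd 5 (.nd 2 (.nd 1 (.lf (F4950a.tab.find 547)) (.lf (F4950a.tab.find 447))) (.nd 1 (.lf (F4950a.tab.find 513)) (.nd 1 (.lf (F4950a.tab.find 778)) (.lf (F4950a.tab.find 328))))) (.nd 2 (.nd 1 (.lf (F4950a.tab.find 194)) (.lf (F4950a.tab.find 358))) (.nd 1 (.lf (F4950a.tab.find 385)) (.nd 1 (.lf (F4950a.tab.find 779)) (.lf (F4950a.tab.find 444)))))) (.nd 5 (.nd 2 (.nd 1 (.lf (F4950a.tab.find 144)) (.lf (F4950a.tab.find 728))) (.nd 1 (.lf (F4950a.tab.find 816)) (.nd 1 (.lf (F4950a.tab.find 764)) (.lf (F4950a.tab.find 441))))) (.nd 2 (.nd 1 (.lf (F4950a.tab.find 817)) (.lf (F4950a.tab.find 396))) (.nd 1 (.lf (F4950a.tab.find 461)) (.nd 1 (.lf (F4950a.tab.find 494)) (.lf (F4950a.tab.find 100)))))))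

theorem hU3_263 : U3_263.All (PP.Good34 495000) := ⟨⟨⟨⟨F4950a.tabOK.find 547, F4950a.tabOK.find 447⟩, ⟨F4950a.tabOK.find 513, ⟨F4950a.tabOK.find 778, F4950a.tabOK.find 328⟩⟩⟩, ⟨⟨F4950a.tabOK.find 194, F4950a.tabOK.find 358⟩, ⟨F4950a.tabOK.find 385, ⟨F4950a.tabOK.find 779, F4950a.tabOK.find 444⟩⟩⟩⟩, ⟨⟨⟨F4950a.tabOK.find 144, F4950a.tabOK.find 728⟩, ⟨F4950a.tabOK.find 816, ⟨F4950a.tabOK.find 764, F4950a.tabOK.find 441⟩⟩⟩, ⟨⟨F4950a.tabOK.find 817, F4950a.tabOK.find 396⟩, ⟨F4950a.tabOK.find 461, ⟨F4950a.tabOK.find 494, F4950a.tabOK.find 100⟩⟩⟩⟩⟩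

noncomputable def U3_283 : BT PP := (.nd 10 (.nd 5 (.nd 2 (.nd 1 (.lf (F4950a.tab.find 282)) (.lf (F4950a.tab.find 769))) (.nd 1 (.lf (F4950a.tab.find 135)) (.nd 1 (.lf (F4950a.tab.find 630)) (.lf (F4950a.tab.find 17))))) (.nd 2 (.nd 1 (.lf (F4950a.tab.find 206)) (.lf (F4950a.tab.find 235))) (.nd 1 (.lf (F4950a.tab.find 301)) (.nd 1 (.lf (F4950a.tab.find 228)) (.lf (F4950a.tab.find 404)))))) (.nd 5 (.nd 2 (.nd 1 (.lf (F4950a.tab.find 624)) (.lf (F4950a.tab.find 824))) (.nd 1 (.lf (F4950a.tab.find 189)) (.nd 1 (.lf (F4950a.tab.find 77)) (.lf (F4950a.tab.find 727))))) (.nd 2 (.nd 1 (.lf (F4950a.tab.find 753)) (.lf (F4950a.tab.find 575))) (.nd 1 (.lf (F4950a.tab.find 523)) (.nd 1 (.lf (F4950a.tab.find 442)) (.lf (F4950a.tab.find 408)))))))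

theorem hU3_283 : U3_283.All (PP.Good34 495000) := ⟨⟨⟨⟨F4950a.tabOK.find 282, F4950a.tabOK.find 769⟩, ⟨F4950a.tabOK.find 135, ⟨F4950a.tabOK.find 630, F4950a.tabOK.find 17⟩⟩⟩, ⟨⟨F4950a.tabOK.find 206, F4950a.tabOK.find 235⟩, ⟨F4950a.tabOK.find 301, ⟨F4950a.tabOK.find 228, F4950a.tabOK.find 404⟩⟩⟩⟩, ⟨⟨⟨F4950a.tabOK.find 624, F4950a.tabOK.find 824⟩, ⟨F4950a.tabOK.find 189, ⟨F4950a.tabOK.find 77, F4950a.tabOK.find 727⟩⟩⟩, ⟨⟨F4950a.tabOK.find 753, F4950a.tabOK.find 575⟩, ⟨F4950a.tabOK.find 523, ⟨F4950a.tabOK.find 442, F4950a.tabOK.find 408⟩⟩⟩⟩⟩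

noncomputable def U3_303 : BT PP := (.nd 10 (.nd 5 (.nd 2 (.nd 1 (.lf (F4950a.tab.find 621)) (.lf (F4950a.tab.find 20))) (.nd 1 (.lf (F4950a.tab.find 746)) (.nd 1 (.lf (F4950a.tab.find 79)) (.lf (F4950a.tab.find 556))))) (.nd 2 (.nd 1 (.lf (F4950a.tab.find 533)) (.lf (F4950a.tab.find 481))) (.nd 1 (.lf (F4950a.tab.find 18)) (.nd 1 (.lf (F4950a.tab.find 534)) (.lf (F4950a.tab.find 495)))))) (.nd 5 (.nd 2 (.nd 1 (.lf (F4950a.tab.find 265)) (.lf (F4950a.tab.find 803))) (.nd 1 (.lf (F4950a.tab.find 337)) (.nd 1 (.lf (F4950a.tab.find 40)) (.lf (F4950a.tab.find 233))))) (.nd 3 (.nd 1 (.lf (F4950a.tab.find 208)) (.nd 1 (.lf (F4950a.tab.find 591)) (.lf (F4950a.tab.find 804)))) (.nd 1 (.lf (F4950a.tab.find 411)) (.nd 1 (.lf (F4950a.tab.find 242)) (.lf (F4950a.tab.find 154)))))))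

theorem hU3_303 : U3_303.All (PP.Good34 495000) := ⟨⟨⟨⟨F4950a.tabOK.find 621, F4950a.tabOK.find 20⟩, ⟨F4950a.tabOK.find 746, ⟨F4950a.tabOK.find 79, F4950a.tabOK.find 556⟩⟩⟩, ⟨⟨F4950a.tabOK.find 533, F4950a.tabOK.find 481⟩, ⟨F4950a.tabOK.find 18, ⟨F4950a.tabOK.find 534, F4950a.tabOK.find 495⟩⟩⟩⟩, ⟨⟨⟨F4950a.tabOK.find 265, F4950a.tabOK.find 803⟩, ⟨F4950a.tabOK.find 337, ⟨F4950a.tabOK.find 40, F4950a.tabOK.find 233⟩⟩⟩, ⟨⟨F4950a.tabOK.find 208, ⟨F4950a.tabOK.find 591, F4950a.tabOK.find 804⟩⟩, ⟨F4950a.tabOK.find 411, ⟨F4950a.tabOK.find 242, F4950a.tabOK.find 154⟩⟩⟩⟩⟩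

noncomputable def U3 : BT PP := (.nd 162 (.nd 81 (.nd 40 (.nd 20 U3_0 U3_20) (.nd 20 U3_40 U3_60)) (.nd 40 (.nd 20 U3_81 U3_101) (.nd 20 U3_121 U3_141))) (.nd 81 (.nd 40 (.nd 20 U3_162 U3_182) (.nd 20 U3_202 U3_222)) (.nd 40 (.nd 20 U3_243 U3_263) (.nd 20 U3_283 U3_303))))

theorem hU3 : U3.All (PP.Good34 495000) := ⟨⟨⟨⟨hU3_0, hU3_20⟩, ⟨hU3_40, hU3_60⟩⟩, ⟨⟨hU3_81, hU3_101⟩, ⟨hU3_121, hU3_141⟩⟩⟩, ⟨⟨⟨hU3_162, hU3_182⟩, ⟨hU3_202, hU3_222⟩⟩, ⟨⟨hU3_243, hU3_263⟩, ⟨hU3_283, hU3_303⟩⟩⟩⟩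

theorem bU3 : btQ Q3 U3 = true := by decide +kernel

end Pool.Agent.MP_c853c5_nt.X.C4950
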