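import Pool.Agent.MP_c853c5_nt.X.C4950.Env
import Pool.Agent.MP_c853c5_nt.X.C4950.D0

set_option autoImplicit false
set_option maxRecDepth 8192
set_option linter.all false

namespace Pool.Agent.MP_c853c5_nt.X.C4950

open Pool.Agent.MP_c853c5_nt.X

def t0 : allY (E.wth (lkp [])) l0 = true ∧
    allY (E.wth (lkp [])) l1 = true ∧
    allY (E.wth (lkp [])) l2 = true ∧
    allY (E.wth (lkp [])) l3 = true ∧
    allY (E.wth (lkp [])) l4 = true ∧
    allY (E.wth (lkp [])) l5 = true ∧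
    allY (E.wth (lkp [])) l6 = true ∧
    allY (E.wth (lkp [])) l7 = true :=
  ⟨by decide +kernel, by decide +kernel, by decide +kernel, by decide +kernel, by decide +kernel, by decide +kernel, by decide +kernel, by decide +kernel⟩

def t8 : allY (E.wth (lkp [])) l8 = true ∧
    allY (E.wth (lkp [])) l9 = true ∧
    allY (E.wth (lkp [])) l10 = true ∧
    allY (E.wth (lkp [])) l11 = true ∧
    allY (E.wth (lkp [])) l12 = true ∧
    allY (E.wth (lkp [])) l13 = true ∧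
    allY (E.wth (lkp [])) l14 = true ∧
    allY (E.wth (lkp [])) l15 = true :=
  ⟨by decide +kernel, by decide +kernel, by decide +kernel, by decide +kernel, by decide +kernel, by decide +kernel, by decide +kernel, by decide +kernel⟩

def t16 : allY (E.wth (lkp [])) l16 = true ∧
    allY (E.wth (lkp [])) l17 = true ∧
    allY (E.wth (lkp [])) l18 = true ∧
    allY (E.wth (lkp [])) l19 = true ∧
    allY (E.wth (lkp [])) l20 = true ∧
    allY (E.wth (lkp [])) l21 = true ∧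
    allY (E.wth (lkp [])) l22 = true ∧
    allY (E.wth (lkp [])) l23 = true :=
  ⟨by decide +kernel, by decide +kernel, by decide +kernel, by decide +kernel, by decide +kernel, by decide +kernel, by decide +kernel, by decide +kernel⟩

def t24 : allY (E.wth (lkp [])) l24 = true ∧
    allY (E.wth (lkp [])) l25 = true ∧
    allY (E.wth (lkp [])) l26 = true ∧
    allY (E.wth (lkp [])) l27 = true ∧
    allY (E.wth (lkp [])) l28 = true ∧
    allY (E.wth (lkp [])) l29 = true ∧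
    allY (E.wth (lkp [])) l30 = true ∧
    allY (E.wth (lkp [])) l31 = true :=
  ⟨by decide +kernel, by decide +kernel, by decide +kernel, by decide +kernel, by decide +kernel, by decide +kernel, by decide +kernel, by decide +kernel⟩

def t32 : allY (E.wth (lkp [])) l32 = true ∧
    allY (E.wth (lkp [])) l33 = true ∧
    allY (E.wth (lkp [])) l34 = true ∧
    allY (E.wth (lkp [])) l35 = true ∧
    allY (E.wth (lkp [])) l36 = true ∧
    allY (E.wth (lkp [])) l37 = true ∧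
    allY (E.wth (lkp [])) l38 = true ∧
    allY (E.wth (lkp [])) l39 = true :=
  ⟨by decide +kernel, by decide +kernel, by decide +kernel, by decide +kernel, by decide +kernel, by decide +kernel, by decide +kernel, by decide +kernel⟩

def t40 : allY (E.wth (lkp [])) l40 = true ∧
    allY (E.wth (lkp [])) l41 = true ∧
    allY (E.wth (lkp [])) l42 = true ∧
    allY (E.wth (lkp [])) l43 = true ∧
    allY (E.wth (lkp [])) l44 = true ∧
    allY (E.wth (lkp [])) l45 = true ∧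
    allY (E.wth (lkp [])) l46 = true ∧
    allY (E.wth (lkp [])) l47 = true :=
  ⟨by decide +kernel, by decide +kernel, by decide +kernel, by decide +kernel, by decide +kernel, by decide +kernel, by decide +kernel, by decide +kernel⟩

def t48 : allY (E.wth (lkp [])) l48 = true ∧
    allY (E.wth (lkp [])) l49 = true ∧
    allY (E.wth (lkp [])) l50 = true ∧
    allY (E.wth (lkp [])) l51 = true ∧
    allY (E.wth (lkp [])) l52 = true ∧
    allY (E.wth (lkp [])) l53 = true ∧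
    allY (E.wth (lkp [])) l54 = true ∧
    allY (E.wth (lkp [])) l55 = true :=
  ⟨by decide +kernel, by decide +kernel, by decide +kernel, by decide +kernel, by decide +kernel, by decide +kernel, by decide +kernel, by decide +kernel⟩

def t56 : allY (E.wth (lkp [])) l56 = true ∧
    allY (E.wth (lkp [])) l57 = true ∧
    allY (E.wth (lkp [])) l58 = true ∧
    allY (E.wth (lkp [])) l59 = true ∧
    allY (E.wth (lkp [])) l60 = true ∧
    allY (E.wth (lkp [])) l61 = true ∧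
    allY (E.wth (lkp [])) l62 = true ∧
    allY (E.wth (lkp [])) l63 = true :=
  ⟨by decide +kernel, by decide +kernel, by decide +kernel, by decide +kernel, by decide +kernel, by decide +kernel, by decide +kernel, by decide +kernel⟩

def t64 : allY (E.wth (lkp [])) l64 = true ∧
    allY (E.wth (lkp [])) l65 = true ∧
    allY (E.wth (lkp [])) l66 = true ∧
    allY (E.wth (lkp [])) l67 = true ∧
    allY (E.wth (lkp [])) l68 = true ∧
    allY (E.wth (lkp [])) l69 = true ∧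
    allY (E.wth (lkp [])) l70 = true ∧
    allY (E.wth (lkp [])) l71 = true :=
  ⟨by decide +kernel, by decide +kernel, by decide +kernel, by decide +kernel, by decide +kernel, by decide +kernel, by decide +kernel, by decide +kernel⟩

def t72 : allY (E.wth (lkp [])) l72 = true ∧
    allY (E.wth (lkp [])) l73 = true ∧
    allY (E.wth (lkp [])) l74 = true ∧
    allY (E.wth (lkp [])) l75 = true ∧
    allY (E.wth (lkp [])) l76 = true ∧
    allY (E.wth (lkp [])) l77 = true ∧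
    allY (E.wth (lkp [])) l78 = true ∧
    allY (E.wth (lkp [])) l79 = true :=
  ⟨by decide +kernel, by decide +kernel, by decide +kernel, by decide +kernel, by decide +kernel, by decide +kernel, by decide +kernel, by decide +kernel⟩

def t80 : allY (E.wth (lkp [])) l80 = true ∧
    allY (E.wth (lkp [])) l81 = true ∧
    allY (E.wth (lkp [])) l82 = true ∧
    allY (E.wth (lkp [])) l83 = true ∧
    allY (E.wth (lkp [])) l84 = true ∧
    allY (E.wth (lkp [])) l85 = true ∧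
    allY (E.wth (lkp [])) l86 = true ∧
    allY (E.wth (lkp [])) l87 = true :=
  ⟨by decide +kernel, by decide +kernel, by decide +kernel, by decide +kernel, by decide +kernel, by decide +kernel, by decide +kernel, by decide +kernel⟩

def t88 : allY (E.wth (lkp [])) l88 = true ∧
    allY (E.wth (lkp [])) l89 = true ∧
    allY (E.wth (lkp [])) l90 = true ∧
    allY (E.wth (lkp [])) l91 = true ∧
    allY (E.wth (lkp [])) l92 = true ∧
    allY (E.wth (lkp [])) l93 = true ∧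
    allY (E.wth (lkp [])) l94 = true ∧
    allY (E.wth (lkp [])) l95 = true :=
  ⟨by decide +kernel, by decide +kernel, by decide +kernel, by decide +kernel, by decide +kernel, by decide +kernel, by decide +kernel, by decide +kernel⟩

def t96 : allY (E.wth (lkp [])) l96 = true ∧
    allY (E.wth (lkp [])) l97 = true ∧
    allY (E.wth (lkp [])) l98 = true ∧
    allY (E.wth (lkp [])) l99 = true ∧
    allY (E.wth (lkp [])) l100 = true ∧
    allY (E.wth (lkp [])) l101 = true ∧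
    allY (E.wth (lkp [])) l102 = true ∧
    allY (E.wth (lkp [])) l103 = true :=
  ⟨by decide +kernel, by decide +kernel, by decide +kernel, by decide +kernel, by decide +kernel, by decide +kernel, by decide +kernel, by decide +kernel⟩

def t104 : allY (E.wth (lkp [])) l104 = true ∧
    allY (E.wth (lkp [])) l105 = true ∧
    allY (E.wth (lkp [])) l106 = true ∧
    allY (E.wth (lkp [])) l107 = true ∧
    allY (E.wth (lkp [])) l108 = true ∧
    allY (E.wth (lkp [])) l109 = true ∧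
    allY (E.wth (lkp [])) l110 = true ∧
    allY (E.wth (lkp [])) l111 = true :=
  ⟨by decide +kernel, by decide +kernel, by decide +kernel, by decide +kernel, by decide +kernel, by decide +kernel, by decide +kernel, by decide +kernel⟩

def t112 : allY (E.wth (lkp [])) l112 = true ∧
    allY (E.wth (lkp [])) l113 = true ∧
    allY (E.wth (lkp [])) l114 = true ∧
    allY (E.wth (lkp [])) l115 = true ∧
    allY (E.wth (lkp [])) l116 = true ∧
    allY (E.wth (lkp [])) l117 = true ∧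
    allY (E.wth (lkp [])) l118 = true ∧
    allY (E.wth (lkp [])) l119 = true :=
  ⟨by decide +kernel, by decide +kernel, by decide +kernel, by decide +kernel, by decide +kernel, by decide +kernel, by decide +kernel, by decide +kernel⟩

def t120 : allY (E.wth (lkp [])) l120 = true ∧
    allY (E.wth (lkp [])) l121 = true ∧
    allY (E.wth (lkp [])) l122 = true ∧
    allY (E.wth (lkp [])) l123 = true ∧
    allY (E.wth (lkp [])) l124 = true ∧
    allY (E.wth (lkp [])) l125 = true ∧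
    allY (E.wth (lkp [])) l126 = true ∧
    allY (E.wth (lkp [])) l127 = true :=
  ⟨by decide +kernel, by decide +kernel, by decide +kernel, by decide +kernel, by decide +kernel, by decide +kernel, by decide +kernel, by decide +kernel⟩

def t128 : allY (E.wth (lkp [])) l128 = true ∧
    allY (E.wth (lkp [])) l129 = true ∧
    allY (E.wth (lkp [])) l130 = true ∧
    allY (E.wth (lkp [])) l131 = true ∧
    allY (E.wth (lkp [])) l132 = true ∧
    allY (E.wth (lkp [])) l133 = true ∧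
    allY (E.wth (lkp [])) l134 = true ∧
    allY (E.wth (lkp [])) l135 = true :=
  ⟨by decide +kernel, by decide +kernel, by decide +kernel, by decide +kernel, by decide +kernel, by decide +kernel, by decide +kernel, by decide +kernel⟩

def t136 : allY (E.wth (lkp [])) l136 = true ∧
    allY (E.wth (lkp [])) l137 = true ∧
    allY (E.wth (lkp [])) l138 = true ∧
    allY (E.wth (lkp [])) l139 = true ∧
    allY (E.wth (lkp [])) l140 = true ∧
    allY (E.wth (lkp [])) l141 = true ∧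
    allY (E.wth (lkp [])) l142 = true ∧
    allY (E.wth (lkp [])) l143 = true :=
  ⟨by decide +kernel, by decide +kernel, by decide +kernel, by decide +kernel, by decide +kernel, by decide +kernel, by decide +kernel, by decide +kernel⟩

def t144 : allY (E.wth (lkp [])) l144 = true ∧
    allY (E.wth (lkp [])) l145 = true ∧
    allY (E.wth (lkp [])) l146 = true ∧
    allY (E.wth (lkp [])) l147 = true ∧
    allY (E.wth (lkp [])) l148 = true ∧
    allY (E.wth (lkp [])) l149 = true ∧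
    allY (E.wth (lkp [])) l150 = true ∧
    allY (E.wth (lkp [])) l151 = true :=
  ⟨by decide +kernel, by decide +kernel, by decide +kernel, by decide +kernel, by decide +kernel, by decide +kernel, by decide +kernel, by decide +kernel⟩

def t152 : allY (E.wth (lkp [])) l152 = true ∧
    allY (E.wth (lkp [])) l153 = true ∧
    allY (E.wth (lkp [])) l154 = true ∧
    allY (E.wth (lkp [])) l155 = true ∧
    allY (E.wth (lkp [])) l156 = true ∧
    allY (E.wth (lkp [])) l157 = true ∧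
    allY (E.wth (lkp [])) l158 = true ∧
    allY (E.wth (lkp [])) l159 = true :=
  ⟨by decide +kernel, by decide +kernel, by decide +kernel, by decide +kernel, by decide +kernel, by decide +kernel, by decide +kernel, by decide +kernel⟩

def t160 : allY (E.wth (lkp [])) l160 = true ∧
    allY (E.wth (lkp [])) l161 = true ∧
    allY (E.wth (lkp [])) l162 = true ∧
    allY (E.wth (lkp [])) l163 = true ∧
    allY (E.wth (lkp [])) l164 = true ∧
    allY (E.wth (lkp [])) l165 = true ∧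
    allY (E.wth (lkp [])) l166 = true ∧
    allY (E.wth (lkp [])) l167 = true :=
  ⟨by decide +kernel, by decide +kernel, by decide +kernel, by decide +kernel, by decide +kernel, by decide +kernel, by decide +kernel, by decide +kernel⟩

def t168 : allY (E.wth (lkp [])) l168 = true ∧
    allY (E.wth (lkp [])) l169 = true ∧
    allY (E.wth (lkp [])) l170 = true ∧
    allY (E.wth (lkp [])) l171 = true ∧
    allY (E.wth (lkp [])) l172 = true ∧
    allY (E.wth (lkp [])) l173 = true ∧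
    allY (E.wth (lkp [])) l174 = true ∧
    allY (E.wth (lkp [])) l175 = true :=
  ⟨by decide +kernel, by decide +kernel, by decide +kernel, by decide +kernel, by decide +kernel, by decide +kernel, by decide +kernel, by decide +kernel⟩

def t176 : allY (E.wth (lkp [])) l176 = true ∧
    allY (E.wth (lkp [])) l177 = true ∧
    allY (E.wth (lkp [])) l178 = true ∧
    allY (E.wth (lkp [])) l179 = true ∧
    allY (E.wth (lkp [])) l180 = true ∧
    allY (E.wth (lkp [])) l181 = true ∧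
    allY (E.wth (lkp [])) l182 = true ∧
    allY (E.wth (lkp [])) l183 = true :=
  ⟨by decide +kernel, by decide +kernel, by decide +kernel, by decide +kernel, by decide +kernel, by decide +kernel, by decide +kernel, by decide +kernel⟩

def t184 : allY (E.wth (lkp [])) l184 = true ∧
    allY (E.wth (lkp [])) l185 = true ∧
    allY (E.wth (lkp [])) l186 = true ∧
    allY (E.wth (lkp [])) l187 = true ∧
    allY (E.wth (lkp [])) l188 = true ∧
    allY (E.wth (lkp [])) l189 = true ∧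
    allY (E.wth (lkp [])) l190 = true ∧
    allY (E.wth (lkp [])) l191 = true :=
  ⟨by decide +kernel, by decide +kernel, by decide +kernel, by decide +kernel, by decide +kernel, by decide +kernel, by decide +kernel, by decide +kernel⟩

def t192 : allY (E.wth (lkp [])) l192 = true ∧
    allY (E.wth (lkp [])) l193 = true ∧
    allY (E.wth (lkp [])) l194 = true ∧
    allY (E.wth (lkp [])) l195 = true ∧
    allY (E.wth (lkp [])) l196 = true ∧
    allY (E.wth (lkp [])) l197 = true ∧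
    allY (E.wth (lkp [])) l198 = true ∧
    allY (E.wth (lkp [])) l199 = true :=
  ⟨by decide +kernel, by decide +kernel, by decide +kernel, by decide +kernel, by decide +kernel, by decide +kernel, by decide +kernel, by decide +kernel⟩

def t200 : allY (E.wth (lkp [])) l200 = true ∧
    allY (E.wth (lkp [])) l201 = true ∧
    allY (E.wth (lkp [])) l202 = true ∧
    allY (E.wth (lkp [])) l203 = true ∧
    allY (E.wth (lkp [])) l204 = true ∧
    allY (E.wth (lkp [])) l205 = true ∧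
    allY (E.wth (lkp [])) l206 = true ∧
    allY (E.wth (lkp [])) l207 = true :=
  ⟨by decide +kernel, by decide +kernel, by decide +kernel, by decide +kernel, by decide +kernel, by decide +kernel, by decide +kernel, by decide +kernel⟩

def t208 : allY (E.wth (lkp [])) l208 = true ∧
    allY (E.wth (lkp [])) l209 = true ∧
    allY (E.wth (lkp [])) l210 = true ∧
    allY (E.wth (lkp [])) l211 = true ∧
    allY (E.wth (lkp [])) l212 = true ∧
    allY (E.wth (lkp [])) l213 = true ∧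
    allY (E.wth (lkp [])) l214 = true ∧
    allY (E.wth (lkp [])) l215 = true :=
  ⟨by decide +kernel, by decide +kernel, by decide +kernel, by decide +kernel, by decide +kernel, by decide +kernel, by decide +kernel, by decide +kernel⟩

def t216 : allY (E.wth (lkp [])) l216 = true ∧
    allY (E.wth (lkp [])) l217 = true ∧
    allY (E.wth (lkp [])) l218 = true ∧
    allY (E.wth (lkp [])) l219 = true ∧
    allY (E.wth (lkp [])) l220 = true ∧
    allY (E.wth (lkp [])) l221 = true ∧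
    allY (E.wth (lkp [])) l222 = true ∧
    allY (E.wth (lkp [])) l223 = true :=
  ⟨by decide +kernel, by decide +kernel, by decide +kernel, by decide +kernel, by decide +kernel, by decide +kernel, by decide +kernel, by decide +kernel⟩

def t224 : allY (E.wth (lkp [])) l224 = true ∧
    allY (E.wth (lkp [])) l225 = true ∧
    allY (E.wth (lkp [])) l226 = true ∧
    allY (E.wth (lkp [])) l227 = true ∧
    allY (E.wth (lkp [])) l228 = true ∧
    allY (E.wth (lkp [])) l229 = true ∧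
    allY (E.wth (lkp [])) l230 = true ∧
    allY (E.wth (lkp [])) l231 = true :=
  ⟨by decide +kernel, by decide +kernel, by decide +kernel, by decide +kernel, by decide +kernel, by decide +kernel, by decide +kernel, by decide +kernel⟩

def t232 : allY (E.wth (lkp [])) l232 = true ∧
    allY (E.wth (lkp [])) l233 = true ∧
    allY (E.wth (lkp [])) l234 = true ∧
    allY (E.wth (lkp [])) l235 = true ∧
    allY (E.wth (lkp [])) l236 = true ∧
    allY (E.wth (lkp [])) l237 = true ∧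
    allY (E.wth (lkp [])) l238 = true ∧
    allY (E.wth (lkp [])) l239 = true :=
  ⟨by decide +kernel, by decide +kernel, by decide +kernel, by decide +kernel, by decide +kernel, by decide +kernel, by decide +kernel, by decide +kernel⟩

def t240 : allY (E.wth (lkp [])) l240 = true ∧
    allY (E.wth (lkp [])) l241 = true ∧
    allY (E.wth (lkp [])) l242 = true ∧
    allY (E.wth (lkp [])) l243 = true ∧
    allY (E.wth (lkp [])) l244 = true ∧
    allY (E.wth (lkp [])) l245 = true ∧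
    allY (E.wth (lkp [])) l246 = true ∧
    allY (E.wth (lkp [])) l247 = true :=
  ⟨by decide +kernel, by decide +kernel, by decide +kernel, by decide +kernel, by decide +kernel, by decide +kernel, by decide +kernel, by decide +kernel⟩

def t248 : allY (E.wth (lkp [])) l248 = true ∧
    allY (E.wth (lkp [])) l249 = true ∧
    allY (E.wth (lkp [])) l250 = true ∧
    allY (E.wth (lkp [])) l251 = true ∧
    allY (E.wth (lkp [])) l252 = true ∧
    allY (E.wth (lkp [])) l253 = true ∧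
    allY (E.wth (lkp [])) l254 = true ∧
    allY (E.wth (lkp [])) l255 = true :=
  ⟨by decide +kernel, by decide +kernel, by decide +kernel, by decide +kernel, by decide +kernel, by decide +kernel, by decide +kernel, by decide +kernel⟩

def t256 : allY (E.wth (lkp [])) l256 = true ∧
    allY (E.wth (lkp [])) l257 = true ∧
    allY (E.wth (lkp [])) l258 = true ∧
    allY (E.wth (lkp [])) l259 = true ∧
    allY (E.wth (lkp [])) l260 = true ∧
    allY (E.wth (lkp [])) l261 = true ∧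
    allY (E.wth (lkp [])) l262 = true ∧
    allY (E.wth (lkp [])) l263 = true :=
  ⟨by decide +kernel, by decide +kernel, by decide +kernel, by decide +kernel, by decide +kernel, by decide +kernel, by decide +kernel, by decide +kernel⟩

def t264 : allY (E.wth (lkp [])) l264 = true ∧
    allY (E.wth (lkp [])) l265 = true ∧
    allY (E.wth (lkp [])) l266 = true ∧
    allY (E.wth (lkp [])) l267 = true ∧
    allY (E.wth (lkp [])) l268 = true ∧
    allY (E.wth (lkp [])) l269 = true ∧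
    allY (E.wth (lkp [])) l270 = true ∧
    allY (E.wth (lkp [])) l271 = true :=
  ⟨by decide +kernel, by decide +kernel, by decide +kernel, by decide +kernel, by decide +kernel, by decide +kernel, by decide +kernel, by decide +kernel⟩

def t272 : allY (E.wth (lkp [])) l272 = true ∧
    allY (E.wth (lkp [])) l273 = true ∧
    allY (E.wth (lkp [])) l274 = true ∧
    allY (E.wth (lkp [])) l275 = true ∧
    allY (E.wth (lkp [])) l276 = true ∧
    allY (E.wth (lkp [])) l277 = true ∧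
    allY (E.wth (lkp [])) l278 = true ∧
    allY (E.wth (lkp [])) l279 = true :=
  ⟨by decide +kernel, by decide +kernel, by decide +kernel, by decide +kernel, by decide +kernel, by decide +kernel, by decide +kernel, by decide +kernel⟩

def t280 : allY (E.wth (lkp [])) l280 = true ∧
    allY (E.wth (lkp [])) l281 = true ∧
    allY (E.wth (lkp [])) l282 = true ∧
    allY (E.wth (lkp [])) l283 = true ∧
    allY (E.wth (lkp [])) l284 = true ∧
    allY (E.wth (lkp [])) l285 = true ∧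
    allY (E.wth (lkp [])) l286 = true ∧
    allY (E.wth (lkp [])) l287 = true :=
  ⟨by decide +kernel, by decide +kernel, by decide +kernel, by decide +kernel, by decide +kernel, by decide +kernel, by decide +kernel, by decide +kernel⟩

def t288 : allY (E.wth (lkp [])) l288 = true ∧
    allY (E.wth (lkp [])) l289 = true ∧
    allY (E.wth (lkp [])) l290 = true ∧
    allY (E.wth (lkp [])) l291 = true ∧
    allY (E.wth (lkp [])) l292 = true ∧
    allY (E.wth (lkp [])) l293 = true ∧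
    allY (E.wth (lkp [])) l294 = true ∧
    allY (E.wth (lkp [])) l295 = true :=
  ⟨by decide +kernel, by decide +kernel, by decide +kernel, by decide +kernel, by decide +kernel, by decide +kernel, by decide +kernel, by decide +kernel⟩

def t296 : allY (E.wth (lkp [])) l296 = true ∧
    allY (E.wth (lkp [])) l297 = true ∧
    allY (E.wth (lkp [])) l298 = true ∧
    allY (E.wth (lkp [])) l299 = true ∧
    allY (E.wth (lkp [])) l300 = true ∧
    allY (E.wth (lkp [])) l301 = true ∧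
    allY (E.wth (lkp [])) l302 = true ∧
    allY (E.wth (lkp [])) l303 = true :=
  ⟨by decide +kernel, by decide +kernel, by decide +kernel, by decide +kernel, by decide +kernel, by decide +kernel, by decide +kernel, by decide +kernel⟩

def t304 : allY (E.wth (lkp [])) l304 = true ∧
    allY (E.wth (lkp [])) l305 = true ∧
    allY (E.wth (lkp [])) l306 = true ∧
    allY (E.wth (lkp [])) l307 = true ∧
    allY (E.wth (lkp [])) l308 = true ∧
    allY (E.wth (lkp [])) l309 = true ∧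
    allY (E.wth (lkp [])) l310 = true ∧
    allY (E.wth (lkp [])) l311 = true :=
  ⟨by decide +kernel, by decide +kernel, by decide +kernel, by decide +kernel, by decide +kernel, by decide +kernel, by decide +kernel, by decide +kernel⟩

def t312 : allY (E.wth (lkp [])) l312 = true ∧
    allY (E.wth (lkp [])) l313 = true ∧
    allY (E.wth (lkp [])) l314 = true ∧
    allY (E.wth (lkp [])) l315 = true ∧
    allY (E.wth (lkp [])) l316 = true ∧
    allY (E.wth (lkp [])) l317 = true ∧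
    allY (E.wth (lkp [])) l318 = true ∧
    allY (E.wth (lkp [])) l319 = true :=
  ⟨by decide +kernel, by decide +kernel, by decide +kernel, by decide +kernel, by decide +kernel, by decide +kernel, by decide +kernel, by decide +kernel⟩

def t320 : allY (E.wth (lkp [])) l320 = true ∧
    allY (E.wth (lkp [])) l321 = true ∧
    allY (E.wth (lkp [])) l322 = true ∧
    allY (E.wth (lkp [])) l323 = true ∧
    allY (E.wth (lkp [])) l324 = true ∧
    allY (E.wth (lkp [])) l325 = true ∧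
    allY (E.wth (lkp [])) l326 = true ∧
    allY (E.wth (lkp [])) l327 = true :=
  ⟨by decide +kernel, by decide +kernel, by decide +kernel, by decide +kernel, by decide +kernel, by decide +kernel, by decide +kernel, by decide +kernel⟩

def t328 : allY (E.wth (lkp [])) l328 = true ∧
    allY (E.wth (lkp [])) l329 = true ∧
    allY (E.wth (lkp [])) l330 = true ∧
    allY (E.wth (lkp [])) l331 = true ∧
    allY (E.wth (lkp [])) l332 = true ∧
    allY (E.wth (lkp [])) l333 = true ∧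
    allY (E.wth (lkp [])) l334 = true ∧
    allY (E.wth (lkp [])) l335 = true :=
  ⟨by decide +kernel, by decide +kernel, by decide +kernel, by decide +kernel, by decide +kernel, by decide +kernel, by decide +kernel, by decide +kernel⟩

def t336 : allY (E.wth (lkp [])) l336 = true ∧
    allY (E.wth (lkp [])) l337 = true ∧
    allY (E.wth (lkp [])) l338 = true ∧
    allY (E.wth (lkp [])) l339 = true ∧
    allY (E.wth (lkp [])) l340 = true ∧
    allY (E.wth (lkp [])) l341 = true ∧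
    allY (E.wth (lkp [])) l342 = true ∧
    allY (E.wth (lkp [])) l343 = true :=
  ⟨by decide +kernel, by decide +kernel, by decide +kernel, by decide +kernel, by decide +kernel, by decide +kernel, by decide +kernel, by decide +kernel⟩

def t344 : allY (E.wth (lkp [])) l344 = true ∧
    allY (E.wth (lkp [])) l345 = true ∧
    allY (E.wth (lkp [])) l346 = true ∧
    allY (E.wth (lkp [])) l347 = true ∧
    allY (E.wth (lkp [])) l348 = true ∧
    allY (E.wth (lkp [])) l349 = true ∧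
    allY (E.wth (lkp [])) l350 = true ∧
    allY (E.wth (lkp [])) l351 = true :=
  ⟨by decide +kernel, by decide +kernel, by decide +kernel, by decide +kernel, by decide +kernel, by decide +kernel, by decide +kernel, by decide +kernel⟩

def t352 : allY (E.wth (lkp [])) l352 = true ∧
    allY (E.wth (lkp [])) l353 = true ∧
    allY (E.wth (lkp [])) l354 = true ∧
    allY (E.wth (lkp [])) l355 = true ∧
    allY (E.wth (lkp [])) l356 = true ∧
    allY (E.wth (lkp [])) l357 = true ∧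
    allY (E.wth (lkp [])) l358 = true ∧
    allY (E.wth (lkp [])) l359 = true :=
  ⟨by decide +kernel, by decide +kernel, by decide +kernel, by decide +kernel, by decide +kernel, by decide +kernel, by decide +kernel, by decide +kernel⟩

def t360 : allY (E.wth (lkp [])) l360 = true ∧
    allY (E.wth (lkp [])) l361 = true ∧
    allY (E.wth (lkp [])) l362 = true ∧
    allY (E.wth (lkp [])) l363 = true ∧
    allY (E.wth (lkp [])) l364 = true ∧
    allY (E.wth (lkp [])) l365 = true ∧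
    allY (E.wth (lkp [])) l366 = true ∧
    allY (E.wth (lkp [])) l367 = true :=
  ⟨by decide +kernel, by decide +kernel, by decide +kernel, by decide +kernel, by decide +kernel, by decide +kernel, by decide +kernel, by decide +kernel⟩

def t368 : allY (E.wth (lkp [])) l368 = true ∧
    allY (E.wth (lkp [])) l369 = true ∧
    allY (E.wth (lkp [])) l370 = true ∧
    allY (E.wth (lkp [])) l371 = true ∧
    allY (E.wth (lkp [])) l372 = true ∧
    allY (E.wth (lkp [])) l373 = true ∧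
    allY (E.wth (lkp [])) l374 = true ∧
    allY (E.wth (lkp [])) l375 = true :=
  ⟨by decide +kernel, by decide +kernel, by decide +kernel, by decide +kernel, by decide +kernel, by decide +kernel, by decide +kernel, by decide +kernel⟩

def t376 : allY (E.wth (lkp [])) l376 = true ∧
    allY (E.wth (lkp [])) l377 = true ∧
    allY (E.wth (lkp [])) l378 = true ∧
    allY (E.wth (lkp [])) l379 = true ∧
    allY (E.wth (lkp [])) l380 = true ∧
    allY (E.wth (lkp [])) l381 = true ∧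
    allY (E.wth (lkp [])) l382 = true ∧
    allY (E.wth (lkp [])) l383 = true :=
  ⟨by decide +kernel, by decide +kernel, by decide +kernel, by decide +kernel, by decide +kernel, by decide +kernel, by decide +kernel, by decide +kernel⟩

def t384 : allY (E.wth (lkp [])) l384 = true ∧
    allY (E.wth (lkp [])) l385 = true ∧
    allY (E.wth (lkp [])) l386 = true ∧
    allY (E.wth (lkp [])) l387 = true ∧
    allY (E.wth (lkp [])) l388 = true ∧
    allY (E.wth (lkp [])) l389 = true ∧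
    allY (E.wth (lkp [])) l390 = true ∧
    allY (E.wth (lkp [])) l391 = true :=
  ⟨by decide +kernel, by decide +kernel, by decide +kernel, by decide +kernel, by decide +kernel, by decide +kernel, by decide +kernel, by decide +kernel⟩

def t392 : allY (E.wth (lkp [])) l392 = true ∧
    allY (E.wth (lkp [])) l393 = true ∧
    allY (E.wth (lkp [])) l394 = true ∧
    allY (E.wth (lkp [])) l395 = true ∧
    allY (E.wth (lkp [])) l396 = true ∧
    allY (E.wth (lkp [])) l397 = true ∧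
    allY (E.wth (lkp [])) l398 = true ∧
    allY (E.wth (lkp [])) l399 = true :=
  ⟨by decide +kernel, by decide +kernel, by decide +kernel, by decide +kernel, by decide +kernel, by decide +kernel, by decide +kernel, by decide +kernel⟩

def t400 : allY (E.wth (lkp [])) l400 = true ∧
    allY (E.wth (lkp [])) l401 = true ∧
    allY (E.wth (lkp [])) l402 = true ∧
    allY (E.wth (lkp [])) l403 = true ∧
    allY (E.wth (lkp [])) l404 = true ∧
    allY (E.wth (lkp [])) l405 = true ∧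
    allY (E.wth (lkp [])) l406 = true ∧
    allY (E.wth (lkp [])) l407 = true :=
  ⟨by decide +kernel, by decide +kernel, by decide +kernel, by decide +kernel, by decide +kernel, by decide +kernel, by decide +kernel, by decide +kernel⟩

def t408 : allY (E.wth (lkp [])) l408 = true ∧
    allY (E.wth (lkp [])) l409 = true ∧
    allY (E.wth (lkp [])) l410 = true ∧
    allY (E.wth (lkp [])) l411 = true ∧
    allY (E.wth (lkp [])) l412 = true ∧
    allY (E.wth (lkp [])) l413 = true ∧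
    allY (E.wth (lkp [])) l414 = true ∧
    allY (E.wth (lkp [])) l415 = true :=
  ⟨by decide +kernel, by decide +kernel, by decide +kernel, by decide +kernel, by decide +kernel, by decide +kernel, by decide +kernel, by decide +kernel⟩

def t416 : allY (E.wth (lkp [])) l416 = true ∧
    allY (E.wth (lkp [])) l417 = true ∧
    allY (E.wth (lkp [])) l418 = true ∧
    allY (E.wth (lkp [])) l419 = true ∧
    allY (E.wth (lkp [])) l420 = true ∧
    allY (E.wth (lkp [])) l421 = true ∧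
    allY (E.wth (lkp [])) l422 = true ∧
    allY (E.wth (lkp [])) l423 = true :=
  ⟨by decide +kernel, by decide +kernel, by decide +kernel, by decide +kernel, by decide +kernel, by decide +kernel, by decide +kernel, by decide +kernel⟩

def t424 : allY (E.wth (lkp [])) l424 = true ∧
    allY (E.wth (lkp [])) l425 = true ∧
    allY (E.wth (lkp [])) l426 = true ∧
    allY (E.wth (lkp [])) l427 = true ∧
    allY (E.wth (lkp [])) l428 = true ∧
    allY (E.wth (lkp [])) l429 = true ∧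
    allY (E.wth (lkp [])) l430 = true ∧
    allY (E.wth (lkp [])) l431 = true :=
  ⟨by decide +kernel, by decide +kernel, by decide +kernel, by decide +kernel, by decide +kernel, by decide +kernel, by decide +kernel, by decide +kernel⟩

def t432 : allY (E.wth (lkp [])) l432 = true ∧
    allY (E.wth (lkp [])) l433 = true ∧
    allY (E.wth (lkp [])) l434 = true ∧
    allY (E.wth (lkp [])) l435 = true ∧
    allY (E.wth (lkp [])) l436 = true ∧
    allY (E.wth (lkp [])) l437 = true ∧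
    allY (E.wth (lkp [])) l438 = true ∧
    allY (E.wth (lkp [])) l439 = true :=
  ⟨by decide +kernel, by decide +kernel, by decide +kernel, by decide +kernel, by decide +kernel, by decide +kernel, by decide +kernel, by decide +kernel⟩

def t440 : allY (E.wth (lkp [])) l440 = true ∧
    allY (E.wth (lkp [])) l441 = true ∧
    allY (E.wth (lkp [])) l442 = true ∧
    allY (E.wth (lkp [])) l443 = true ∧
    allY (E.wth (lkp [])) l444 = true ∧
    allY (E.wth (lkp [])) l445 = true ∧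
    allY (E.wth (lkp [])) l446 = true ∧
    allY (E.wth (lkp [])) l447 = true :=
  ⟨by decide +kernel, by decide +kernel, by decide +kernel, by decide +kernel, by decide +kernel, by decide +kernel, by decide +kernel, by decide +kernel⟩

def t448 : allY (E.wth (lkp [])) l448 = true ∧
    allY (E.wth (lkp [])) l449 = true ∧
    allY (E.wth (lkp [])) l450 = true ∧
    allY (E.wth (lkp [])) l451 = true ∧
    allY (E.wth (lkp [])) l452 = true ∧
    allY (E.wth (lkp [])) l453 = true ∧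
    allY (E.wth (lkp [])) l454 = true ∧
    allY (E.wth (lkp [])) l455 = true :=
  ⟨by decide +kernel, by decide +kernel, by decide +kernel, by decide +kernel, by decide +kernel, by decide +kernel, by decide +kernel, by decide +kernel⟩

def t456 : allY (E.wth (lkp [])) l456 = true ∧
    allY (E.wth (lkp [])) l457 = true ∧
    allY (E.wth (lkp [])) l458 = true ∧
    allY (E.wth (lkp [])) l459 = true ∧
    allY (E.wth (lkp [])) l460 = true ∧
    allY (E.wth (lkp [])) l461 = true ∧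
    allY (E.wth (lkp [])) l462 = true ∧
    allY (E.wth (lkp [])) l463 = true :=
  ⟨by decide +kernel, by decide +kernel, by decide +kernel, by decide +kernel, by decide +kernel, by decide +kernel, by decide +kernel, by decide +kernel⟩

def t464 : allY (E.wth (lkp [])) l464 = true ∧
    allY (E.wth (lkp [])) l465 = true ∧
    allY (E.wth (lkp [])) l466 = true ∧
    allY (E.wth (lkp [])) l467 = true ∧
    allY (E.wth (lkp [])) l468 = true ∧
    allY (E.wth (lkp [])) l469 = true ∧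
    allY (E.wth (lkp [])) l470 = true ∧
    allY (E.wth (lkp [])) l471 = true :=
  ⟨by decide +kernel, by decide +kernel, by decide +kernel, by decide +kernel, by decide +kernel, by decide +kernel, by decide +kernel, by decide +kernel⟩

def t472 : allY (E.wth (lkp [])) l472 = true ∧
    allY (E.wth (lkp [])) l473 = true ∧
    allY (E.wth (lkp [])) l474 = true ∧
    allY (E.wth (lkp [])) l475 = true ∧
    allY (E.wth (lkp [])) l476 = true ∧
    allY (E.wth (lkp [])) l477 = true ∧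
    allY (E.wth (lkp [])) l478 = true ∧
    allY (E.wth (lkp [])) l479 = true :=
  ⟨by decide +kernel, by decide +kernel, by decide +kernel, by decide +kernel, by decide +kernel, by decide +kernel, by decide +kernel, by decide +kernel⟩

def t480 : allY (E.wth (lkp [])) l480 = true ∧
    allY (E.wth (lkp [])) l481 = true ∧
    allY (E.wth (lkp [])) l482 = true ∧
    allY (E.wth (lkp [])) l483 = true ∧
    allY (E.wth (lkp [])) l484 = true ∧
    allY (E.wth (lkp [])) l485 = true ∧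
    allY (E.wth (lkp [])) l486 = true ∧
    allY (E.wth (lkp [])) l487 = true :=
  ⟨by decide +kernel, by decide +kernel, by decide +kernel, by decide +kernel, by decide +kernel, by decide +kernel, by decide +kernel, by decide +kernel⟩

def t488 : allY (E.wth (lkp [])) l488 = true ∧
    allY (E.wth (lkp [])) l489 = true ∧
    allY (E.wth (lkp [])) l490 = true ∧
    allY (E.wth (lkp [])) l491 = true ∧
    allY (E.wth (lkp [])) l492 = true ∧
    allY (E.wth (lkp [])) l493 = true ∧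
    allY (E.wth (lkp [])) l494 = true ∧
    allY (E.wth (lkp [])) l495 = true :=
  ⟨by decide +kernel, by decide +kernel, by decide +kernel, by decide +kernel, by decide +kernel, by decide +kernel, by decide +kernel, by decide +kernel⟩

def t496 : allY (E.wth (lkp [])) l496 = true ∧
    allY (E.wth (lkp [])) l497 = true ∧
    allY (E.wth (lkp [])) l498 = true ∧
    allY (E.wth (lkp [])) l499 = true ∧
    allY (E.wth (lkp [])) l500 = true ∧
    allY (E.wth (lkp [])) l501 = true ∧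
    allY (E.wth (lkp [])) l502 = true ∧
    allY (E.wth (lkp [])) l503 = true :=
  ⟨by decide +kernel, by decide +kernel, by decide +kernel, by decide +kernel, by decide +kernel, by decide +kernel, by decide +kernel, by decide +kernel⟩

def t504 : allY (E.wth (lkp [])) l504 = true ∧
    allY (E.wth (lkp [])) l505 = true ∧
    allY (E.wth (lkp [])) l506 = true ∧
    allY (E.wth (lkp [])) l507 = true ∧
    allY (E.wth (lkp [])) l508 = true ∧
    allY (E.wth (lkp [])) l509 = true ∧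
    allY (E.wth (lkp [])) l510 = true ∧
    allY (E.wth (lkp [])) l511 = true :=
  ⟨by decide +kernel, by decide +kernel, by decide +kernel, by decide +kernel, by decide +kernel, by decide +kernel, by decide +kernel, by decide +kernel⟩

def t512 : allY (E.wth (lkp [])) l512 = true ∧
    allY (E.wth (lkp [])) l513 = true ∧
    allY (E.wth (lkp [])) l514 = true ∧
    allY (E.wth (lkp [])) l515 = true ∧
    allY (E.wth (lkp [])) l516 = true ∧
    allY (E.wth (lkp [])) l517 = true ∧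
    allY (E.wth (lkp [])) l518 = true ∧
    allY (E.wth (lkp [])) l519 = true :=
  ⟨by decide +kernel, by decide +kernel, by decide +kernel, by decide +kernel, by decide +kernel, by decide +kernel, by decide +kernel, by decide +kernel⟩

def t520 : allY (E.wth (lkp [])) l520 = true ∧
    allY (E.wth (lkp [])) l521 = true ∧
    allY (E.wth (lkp [])) l522 = true ∧
    allY (E.wth (lkp [])) l523 = true ∧
    allY (E.wth (lkp [])) l524 = true ∧
    allY (E.wth (lkp [])) l525 = true ∧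
    allY (E.wth (lkp [])) l526 = true ∧
    allY (E.wth (lkp [])) l527 = true :=
  ⟨by decide +kernel, by decide +kernel, by decide +kernel, by decide +kernel, by decide +kernel, by decide +kernel, by decide +kernel, by decide +kernel⟩

def t528 : allY (E.wth (lkp [])) l528 = true ∧
    allY (E.wth (lkp [])) l529 = true ∧
    allY (E.wth (lkp [])) l530 = true ∧
    allY (E.wth (lkp [])) l531 = true ∧
    allY (E.wth (lkp [])) l532 = true ∧
    allY (E.wth (lkp [])) l533 = true ∧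
    allY (E.wth (lkp [])) l534 = true :=
  ⟨by decide +kernel, by decide +kernel, by decide +kernel, by decide +kernel, by decide +kernel, by decide +kernel, by decide +kernel⟩

theorem a0 {p : Rf → Prop} (H : ∀ l, allY (E.wth (lkp [])) l = true → (lkp l).All p) :
    b0.All p := ⟨⟨⟨⟨⟨⟨⟨⟨⟨H _ t0.1, H _ t0.2.1⟩, ⟨H _ t0.2.2.1, H _ t0.2.2.2.1⟩⟩, ⟨⟨H _ t0.2.2.2.2.1, H _ t0.2.2.2.2.2.1⟩, ⟨H _ t0.2.2.2.2.2.2.1, H _ t0.2.2.2.2.2.2.2⟩⟩⟩, ⟨⟨⟨H _ t8.1, H _ t8.2.1⟩, ⟨H _ t8.2.2.1, H _ t8.2.2.2.1⟩⟩, ⟨⟨H _ t8.2.2.2.2.1, H _ t8.2.2.2.2.2.1⟩, ⟨H _ t8.2.2.2.2.2.2.1, H _ t8.2.2.2.2.2.2.2⟩⟩⟩⟩, ⟨⟨⟨⟨H _ t16.1, H _ t16.2.1⟩, ⟨H _ t16.2.2.1, H _ t16.2.2.2.1⟩⟩, ⟨⟨H _ t16.2.2.2.2.1, H _ t16.2.2.2.2.2.1⟩, ⟨H _ t16.2.2.2.2.2.2.1, H _ t16.2.2.2.2.2.2.2⟩⟩⟩, ⟨⟨⟨H _ t24.1, H _ t24.2.1⟩, ⟨H _ t24.2.2.1, H _ t24.2.2.2.1⟩⟩, ⟨⟨H _ t24.2.2.2.2.1, H _ t24.2.2.2.2.2.1⟩, ⟨H _ t24.2.2.2.2.2.2.1, ⟨H _ t24.2.2.2.2.2.2.2,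 H _ t32.1⟩⟩⟩⟩⟩⟩, ⟨⟨⟨⟨⟨H _ t32.2.1, H _ t32.2.2.1⟩, ⟨H _ t32.2.2.2.1, H _ t32.2.2.2.2.1⟩⟩, ⟨⟨H _ t32.2.2.2.2.2.1, H _ t32.2.2.2.2.2.2.1⟩, ⟨H _ t32.2.2.2.2.2.2.2, H _ t40.1⟩⟩⟩, ⟨⟨⟨H _ t40.2.1, H _ t40.2.2.1⟩, ⟨H _ t40.2.2.2.1, H _ t40.2.2.2.2.1⟩⟩, ⟨⟨H _ t40.2.2.2.2.2.1, H _ t40.2.2.2.2.2.2.1⟩, ⟨H _ t40.2.2.2.2.2.2.2, H _ t48.1⟩⟩⟩⟩, ⟨⟨⟨⟨H _ t48.2.1, H _ t48.2.2.1⟩, ⟨H _ t48.2.2.2.1, H _ t48.2.2.2.2.1⟩⟩, ⟨⟨H _ t48.2.2.2.2.2.1, H _ t48.2.2.2.2.2.2.1⟩, ⟨H _ t48.2.2.2.2.2.2.2, H _ t56.1⟩⟩⟩, ⟨⟨⟨H _ t56.2.1, H _ t56.2.2.1⟩, ⟨H _ t56.2.2.2.1, H _ t56.2.2.2.2.1⟩⟩, ⟨⟨H _ t56.2.2.2.2.2.1, H _ t56.2.2.2.2.2.2.1⟩, ⟨H _ t56.2.2.2.2.2.2.2, ⟨H _ t64.1, H _ t64.2.1⟩⟩⟩⟩⟩⟩⟩, ⟨⟨⟨⟨⟨⟨H _ t64.2.2.1, H _ t64.2.2.2.1⟩, ⟨H _ t64.2.2.2.2.1, H _ t64.2.2.2.2.2.1⟩⟩, ⟨⟨H _ t64.2.2.2.2.2.2.1, H _ t64.2.2.2.2.2.2.2⟩, ⟨H _ t72.1, H _ t72.2.1⟩⟩⟩, ⟨⟨⟨H _ t72.2.2.1, H _ t72.2.2.2.1⟩, ⟨H _ t72.2.2.2.2.1, H _ t72.2.2.2.2.2.1⟩⟩,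 ⟨⟨H _ t72.2.2.2.2.2.2.1, H _ t72.2.2.2.2.2.2.2⟩, ⟨H _ t80.1, H _ t80.2.1⟩⟩⟩⟩, ⟨⟨⟨⟨H _ t80.2.2.1, H _ t80.2.2.2.1⟩, ⟨H _ t80.2.2.2.2.1, H _ t80.2.2.2.2.2.1⟩⟩, ⟨⟨H _ t80.2.2.2.2.2.2.1, H _ t80.2.2.2.2.2.2.2⟩, ⟨H _ t88.1, H _ t88.2.1⟩⟩⟩, ⟨⟨⟨H _ t88.2.2.1, H _ t88.2.2.2.1⟩, ⟨H _ t88.2.2.2.2.1, H _ t88.2.2.2.2.2.1⟩⟩, ⟨⟨H _ t88.2.2.2.2.2.2.1, H _ t88.2.2.2.2.2.2.2⟩, ⟨H _ t96.1, ⟨H _ t96.2.1, H _ t96.2.2.1⟩⟩⟩⟩⟩⟩, ⟨⟨⟨⟨⟨H _ t96.2.2.2.1, H _ t96.2.2.2.2.1⟩, ⟨H _ t96.2.2.2.2.2.1, H _ t96.2.2.2.2.2.2.1⟩⟩, ⟨⟨H _ t96.2.2.2.2.2.2.2, H _ t104.1⟩, ⟨H _ t104.2.1, H _ t104.2.2.1⟩⟩⟩, ⟨⟨⟨H _ t104.2.2.2.1, H _ t104.2.2.2.2.1⟩, ⟨H _ t104.2.2.2.2.2.1, H _ t104.2.2.2.2.2.2.1⟩⟩, ⟨⟨H _ t104.2.2.2.2.2.2.2, H _ t112.1⟩, ⟨H _ t112.2.1, ⟨H _ t112.2.2.1, H _ t112.2.2.2.1⟩⟩⟩⟩⟩, ⟨⟨⟨⟨H _ t112.2.2.2.2.1, H _ t112.2.2.2.2.2.1⟩, ⟨H _ t112.2.2.2.2.2.2.1, H _ t112.2.2.2.2.2.2.2⟩⟩, ⟨⟨H _ t120.1, H _ t120.2.1⟩, ⟨H _ t120.2.2.1,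 H _ t120.2.2.2.1⟩⟩⟩, ⟨⟨⟨H _ t120.2.2.2.2.1, H _ t120.2.2.2.2.2.1⟩, ⟨H _ t120.2.2.2.2.2.2.1, H _ t120.2.2.2.2.2.2.2⟩⟩, ⟨⟨H _ t128.1, H _ t128.2.1⟩, ⟨H _ t128.2.2.1, ⟨H _ t128.2.2.2.1, H _ t128.2.2.2.2.1⟩⟩⟩⟩⟩⟩⟩⟩, ⟨⟨⟨⟨⟨⟨⟨H _ t128.2.2.2.2.2.1, H _ t128.2.2.2.2.2.2.1⟩, ⟨H _ t128.2.2.2.2.2.2.2, H _ t136.1⟩⟩, ⟨⟨H _ t136.2.1, H _ t136.2.2.1⟩, ⟨H _ t136.2.2.2.1, H _ t136.2.2.2.2.1⟩⟩⟩, ⟨⟨⟨H _ t136.2.2.2.2.2.1, H _ t136.2.2.2.2.2.2.1⟩, ⟨H _ t136.2.2.2.2.2.2.2, H _ t144.1⟩⟩, ⟨⟨H _ t144.2.1, H _ t144.2.2.1⟩, ⟨H _ t144.2.2.2.1, H _ t144.2.2.2.2.1⟩⟩⟩⟩, ⟨⟨⟨⟨H _ t144.2.2.2.2.2.1, H _ t144.2.2.2.2.2.2.1⟩, ⟨H _ t144.2.2.2.2.2.2.2, H _ t152.1⟩⟩, ⟨⟨H _ t152.2.1, H _ t152.2.2.1⟩, ⟨H _ t152.2.2.2.1, H _ t152.2.2.2.2.1⟩⟩⟩, ⟨⟨⟨H _ t152.2.2.2.2.2.1, H _ t152.2.2.2.2.2.2.1⟩, ⟨H _ t152.2.2.2.2.2.2.2, H _ t160.1⟩⟩, ⟨⟨H _ t160.2.1, H _ t160.2.2.1⟩, ⟨H _ t160.2.2.2.1, ⟨H _ t160.2.2.2.2.1, H _ t160.2.2.2.2.2.1⟩⟩⟩⟩⟩⟩,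 ⟨⟨⟨⟨⟨H _ t160.2.2.2.2.2.2.1, H _ t160.2.2.2.2.2.2.2⟩, ⟨H _ t168.1, H _ t168.2.1⟩⟩, ⟨⟨H _ t168.2.2.1, H _ t168.2.2.2.1⟩, ⟨H _ t168.2.2.2.2.1, H _ t168.2.2.2.2.2.1⟩⟩⟩, ⟨⟨⟨H _ t168.2.2.2.2.2.2.1, H _ t168.2.2.2.2.2.2.2⟩, ⟨H _ t176.1, H _ t176.2.1⟩⟩, ⟨⟨H _ t176.2.2.1, H _ t176.2.2.2.1⟩, ⟨H _ t176.2.2.2.2.1, ⟨H _ t176.2.2.2.2.2.1, H _ t176.2.2.2.2.2.2.1⟩⟩⟩⟩⟩, ⟨⟨⟨⟨H _ t176.2.2.2.2.2.2.2, H _ t184.1⟩, ⟨H _ t184.2.1, H _ t184.2.2.1⟩⟩, ⟨⟨H _ t184.2.2.2.1, H _ t184.2.2.2.2.1⟩, ⟨H _ t184.2.2.2.2.2.1, H _ t184.2.2.2.2.2.2.1⟩⟩⟩, ⟨⟨⟨H _ t184.2.2.2.2.2.2.2, H _ t192.1⟩, ⟨H _ t192.2.1, H _ t192.2.2.1⟩⟩, ⟨⟨H _ t192.2.2.2.1, H _ t192.2.2.2.2.1⟩, ⟨H _ t192.2.2.2.2.2.1, ⟨H _ t192.2.2.2.2.2.2.1, H _ t192.2.2.2.2.2.2.2⟩⟩⟩⟩⟩⟩⟩, ⟨⟨⟨⟨⟨⟨H _ t200.1, H _ t200.2.1⟩, ⟨H _ t200.2.2.1, H _ t200.2.2.2.1⟩⟩, ⟨⟨H _ t200.2.2.2.2.1, H _ t200.2.2.2.2.2.1⟩, ⟨H _ t200.2.2.2.2.2.2.1, H _ t200.2.2.2.2.2.2.2⟩⟩⟩, ⟨⟨⟨H _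 t208.1, H _ t208.2.1⟩, ⟨H _ t208.2.2.1, H _ t208.2.2.2.1⟩⟩, ⟨⟨H _ t208.2.2.2.2.1, H _ t208.2.2.2.2.2.1⟩, ⟨H _ t208.2.2.2.2.2.2.1, H _ t208.2.2.2.2.2.2.2⟩⟩⟩⟩, ⟨⟨⟨⟨H _ t216.1, H _ t216.2.1⟩, ⟨H _ t216.2.2.1, H _ t216.2.2.2.1⟩⟩, ⟨⟨H _ t216.2.2.2.2.1, H _ t216.2.2.2.2.2.1⟩, ⟨H _ t216.2.2.2.2.2.2.1, H _ t216.2.2.2.2.2.2.2⟩⟩⟩, ⟨⟨⟨H _ t224.1, H _ t224.2.1⟩, ⟨H _ t224.2.2.1, H _ t224.2.2.2.1⟩⟩, ⟨⟨H _ t224.2.2.2.2.1, H _ t224.2.2.2.2.2.1⟩, ⟨H _ t224.2.2.2.2.2.2.1, ⟨H _ t224.2.2.2.2.2.2.2, H _ t232.1⟩⟩⟩⟩⟩⟩, ⟨⟨⟨⟨⟨H _ t232.2.1, H _ t232.2.2.1⟩, ⟨H _ t232.2.2.2.1, H _ t232.2.2.2.2.1⟩⟩, ⟨⟨H _ t232.2.2.2.2.2.1, H _ t232.2.2.2.2.2.2.1⟩, ⟨H _ t232.2.2.2.2.2.2.2, H _ t240.1⟩⟩⟩, ⟨⟨⟨H _ t240.2.1, H _ t240.2.2.1⟩, ⟨H _ t240.2.2.2.1, H _ t240.2.2.2.2.1⟩⟩, ⟨⟨H _ t240.2.2.2.2.2.1, H _ t240.2.2.2.2.2.2.1⟩, ⟨H _ t240.2.2.2.2.2.2.2, ⟨H _ t248.1, H _ t248.2.1⟩⟩⟩⟩⟩, ⟨⟨⟨⟨H _ t248.2.2.1, H _ t248.2.2.2.1⟩,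 ⟨H _ t248.2.2.2.2.1, H _ t248.2.2.2.2.2.1⟩⟩, ⟨⟨H _ t248.2.2.2.2.2.2.1, H _ t248.2.2.2.2.2.2.2⟩, ⟨H _ t256.1, H _ t256.2.1⟩⟩⟩, ⟨⟨⟨H _ t256.2.2.1, H _ t256.2.2.2.1⟩, ⟨H _ t256.2.2.2.2.1, H _ t256.2.2.2.2.2.1⟩⟩, ⟨⟨H _ t256.2.2.2.2.2.2.1, H _ t256.2.2.2.2.2.2.2⟩, ⟨H _ t264.1, ⟨H _ t264.2.1, H _ t264.2.2.1⟩⟩⟩⟩⟩⟩⟩⟩⟩, ⟨⟨⟨⟨⟨⟨⟨⟨H _ t264.2.2.2.1, H _ t264.2.2.2.2.1⟩, ⟨H _ t264.2.2.2.2.2.1, H _ t264.2.2.2.2.2.2.1⟩⟩, ⟨⟨H _ t264.2.2.2.2.2.2.2, H _ t272.1⟩, ⟨H _ t272.2.1, H _ t272.2.2.1⟩⟩⟩, ⟨⟨⟨H _ t272.2.2.2.1, H _ t272.2.2.2.2.1⟩, ⟨H _ t272.2.2.2.2.2.1, H _ t272.2.2.2.2.2.2.1⟩⟩, ⟨⟨H _ t272.2.2.2.2.2.2.2, H _ t280.1⟩, ⟨H _ t280.2.1, H _ t280.2.2.1⟩⟩⟩⟩, ⟨⟨⟨⟨H _ t280.2.2.2.1, H _ t280.2.2.2.2.1⟩, ⟨H _ t280.2.2.2.2.2.1, H _ t280.2.2.2.2.2.2.1⟩⟩, ⟨⟨H _ t280.2.2.2.2.2.2.2, H _ t288.1⟩, ⟨H _ t288.2.1, H _ t288.2.2.1⟩⟩⟩, ⟨⟨⟨H _ t288.2.2.2.1, H _ t288.2.2.2.2.1⟩, ⟨H _ t288.2.2.2.2.2.1, H _ t288.2.2.2.2.2.2.1⟩⟩,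 ⟨⟨H _ t288.2.2.2.2.2.2.2, H _ t296.1⟩, ⟨H _ t296.2.1, ⟨H _ t296.2.2.1, H _ t296.2.2.2.1⟩⟩⟩⟩⟩⟩, ⟨⟨⟨⟨⟨H _ t296.2.2.2.2.1, H _ t296.2.2.2.2.2.1⟩, ⟨H _ t296.2.2.2.2.2.2.1, H _ t296.2.2.2.2.2.2.2⟩⟩, ⟨⟨H _ t304.1, H _ t304.2.1⟩, ⟨H _ t304.2.2.1, H _ t304.2.2.2.1⟩⟩⟩, ⟨⟨⟨H _ t304.2.2.2.2.1, H _ t304.2.2.2.2.2.1⟩, ⟨H _ t304.2.2.2.2.2.2.1, H _ t304.2.2.2.2.2.2.2⟩⟩, ⟨⟨H _ t312.1, H _ t312.2.1⟩, ⟨H _ t312.2.2.1, ⟨H _ t312.2.2.2.1, H _ t312.2.2.2.2.1⟩⟩⟩⟩⟩, ⟨⟨⟨⟨H _ t312.2.2.2.2.2.1, H _ t312.2.2.2.2.2.2.1⟩, ⟨H _ t312.2.2.2.2.2.2.2, H _ t320.1⟩⟩, ⟨⟨H _ t320.2.1, H _ t320.2.2.1⟩, ⟨H _ t320.2.2.2.1, H _ t320.2.2.2.2.1⟩⟩⟩, ⟨⟨⟨H _ t320.2.2.2.2.2.1, H _ t320.2.2.2.2.2.2.1⟩, ⟨H _ t320.2.2.2.2.2.2.2, H _ t328.1⟩⟩, ⟨⟨H _ t328.2.1, H _ t328.2.2.1⟩, ⟨H _ t328.2.2.2.1, ⟨H _ t328.2.2.2.2.1, H _ t328.2.2.2.2.2.1⟩⟩⟩⟩⟩⟩⟩, ⟨⟨⟨⟨⟨⟨H _ t328.2.2.2.2.2.2.1, H _ t328.2.2.2.2.2.2.2⟩, ⟨H _ t336.1, H _ t336.2.1⟩⟩, ⟨⟨H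 _ t336.2.2.1, H _ t336.2.2.2.1⟩, ⟨H _ t336.2.2.2.2.1, H _ t336.2.2.2.2.2.1⟩⟩⟩, ⟨⟨⟨H _ t336.2.2.2.2.2.2.1, H _ t336.2.2.2.2.2.2.2⟩, ⟨H _ t344.1, H _ t344.2.1⟩⟩, ⟨⟨H _ t344.2.2.1, H _ t344.2.2.2.1⟩, ⟨H _ t344.2.2.2.2.1, H _ t344.2.2.2.2.2.1⟩⟩⟩⟩, ⟨⟨⟨⟨H _ t344.2.2.2.2.2.2.1, H _ t344.2.2.2.2.2.2.2⟩, ⟨H _ t352.1, H _ t352.2.1⟩⟩, ⟨⟨H _ t352.2.2.1, H _ t352.2.2.2.1⟩, ⟨H _ t352.2.2.2.2.1, H _ t352.2.2.2.2.2.1⟩⟩⟩, ⟨⟨⟨H _ t352.2.2.2.2.2.2.1, H _ t352.2.2.2.2.2.2.2⟩, ⟨H _ t360.1, H _ t360.2.1⟩⟩, ⟨⟨H _ t360.2.2.1, H _ t360.2.2.2.1⟩, ⟨H _ t360.2.2.2.2.1, ⟨H _ t360.2.2.2.2.2.1, H _ t360.2.2.2.2.2.2.1⟩⟩⟩⟩⟩⟩, ⟨⟨⟨⟨⟨H _ t360.2.2.2.2.2.2.2, H _ t368.1⟩, ⟨H _ t368.2.1, H _ t368.2.2.1⟩⟩, ⟨⟨H _ t368.2.2.2.1, H _ t368.2.2.2.2.1⟩, ⟨H _ t368.2.2.2.2.2.1, H _ t368.2.2.2.2.2.2.1⟩⟩⟩, ⟨⟨⟨H _ t368.2.2.2.2.2.2.2, H _ t376.1⟩, ⟨H _ t376.2.1, H _ t376.2.2.1⟩⟩, ⟨⟨H _ t376.2.2.2.1, H _ t376.2.2.2.2.1⟩, ⟨H _ t376.2.2.2.2.2.1,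 ⟨H _ t376.2.2.2.2.2.2.1, H _ t376.2.2.2.2.2.2.2⟩⟩⟩⟩⟩, ⟨⟨⟨⟨H _ t384.1, H _ t384.2.1⟩, ⟨H _ t384.2.2.1, H _ t384.2.2.2.1⟩⟩, ⟨⟨H _ t384.2.2.2.2.1, H _ t384.2.2.2.2.2.1⟩, ⟨H _ t384.2.2.2.2.2.2.1, H _ t384.2.2.2.2.2.2.2⟩⟩⟩, ⟨⟨⟨H _ t392.1, H _ t392.2.1⟩, ⟨H _ t392.2.2.1, H _ t392.2.2.2.1⟩⟩, ⟨⟨H _ t392.2.2.2.2.1, H _ t392.2.2.2.2.2.1⟩, ⟨H _ t392.2.2.2.2.2.2.1, ⟨H _ t392.2.2.2.2.2.2.2, H _ t400.1⟩⟩⟩⟩⟩⟩⟩⟩, ⟨⟨⟨⟨⟨⟨⟨H _ t400.2.1, H _ t400.2.2.1⟩, ⟨H _ t400.2.2.2.1, H _ t400.2.2.2.2.1⟩⟩, ⟨⟨H _ t400.2.2.2.2.2.1, H _ t400.2.2.2.2.2.2.1⟩, ⟨H _ t400.2.2.2.2.2.2.2, H _ t408.1⟩⟩⟩, ⟨⟨⟨H _ t408.2.1, H _ t408.2.2.1⟩, ⟨H _ t408.2.2.2.1, H _ t408.2.2.2.2.1⟩⟩, ⟨⟨H _ t408.2.2.2.2.2.1, H _ t408.2.2.2.2.2.2.1⟩, ⟨H _ t408.2.2.2.2.2.2.2, H _ t416.1⟩⟩⟩⟩, ⟨⟨⟨⟨H _ t416.2.1, H _ t416.2.2.1⟩, ⟨H _ t416.2.2.2.1, H _ t416.2.2.2.2.1⟩⟩, ⟨⟨H _ t416.2.2.2.2.2.1, H _ t416.2.2.2.2.2.2.1⟩, ⟨H _ t416.2.2.2.2.2.2.2, H _ t424.1⟩⟩⟩,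 ⟨⟨⟨H _ t424.2.1, H _ t424.2.2.1⟩, ⟨H _ t424.2.2.2.1, H _ t424.2.2.2.2.1⟩⟩, ⟨⟨H _ t424.2.2.2.2.2.1, H _ t424.2.2.2.2.2.2.1⟩, ⟨H _ t424.2.2.2.2.2.2.2, ⟨H _ t432.1, H _ t432.2.1⟩⟩⟩⟩⟩⟩, ⟨⟨⟨⟨⟨H _ t432.2.2.1, H _ t432.2.2.2.1⟩, ⟨H _ t432.2.2.2.2.1, H _ t432.2.2.2.2.2.1⟩⟩, ⟨⟨H _ t432.2.2.2.2.2.2.1, H _ t432.2.2.2.2.2.2.2⟩, ⟨H _ t440.1, H _ t440.2.1⟩⟩⟩, ⟨⟨⟨H _ t440.2.2.1, H _ t440.2.2.2.1⟩, ⟨H _ t440.2.2.2.2.1, H _ t440.2.2.2.2.2.1⟩⟩, ⟨⟨H _ t440.2.2.2.2.2.2.1, H _ t440.2.2.2.2.2.2.2⟩, ⟨H _ t448.1, ⟨H _ t448.2.1, H _ t448.2.2.1⟩⟩⟩⟩⟩, ⟨⟨⟨⟨H _ t448.2.2.2.1, H _ t448.2.2.2.2.1⟩, ⟨H _ t448.2.2.2.2.2.1, H _ t448.2.2.2.2.2.2.1⟩⟩, ⟨⟨H _ t448.2.2.2.2.2.2.2, H _ t456.1⟩, ⟨H _ t456.2.1, H _ t456.2.2.1⟩⟩⟩, ⟨⟨⟨H _ t456.2.2.2.1, H _ t456.2.2.2.2.1⟩, ⟨H _ t456.2.2.2.2.2.1, H _ t456.2.2.2.2.2.2.1⟩⟩, ⟨⟨H _ t456.2.2.2.2.2.2.2, H _ t464.1⟩, ⟨H _ t464.2.1, ⟨H _ t464.2.2.1, H _ t464.2.2.2.1⟩⟩⟩⟩⟩⟩⟩, ⟨⟨⟨⟨⟨⟨H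 _ t464.2.2.2.2.1, H _ t464.2.2.2.2.2.1⟩, ⟨H _ t464.2.2.2.2.2.2.1, H _ t464.2.2.2.2.2.2.2⟩⟩, ⟨⟨H _ t472.1, H _ t472.2.1⟩, ⟨H _ t472.2.2.1, H _ t472.2.2.2.1⟩⟩⟩, ⟨⟨⟨H _ t472.2.2.2.2.1, H _ t472.2.2.2.2.2.1⟩, ⟨H _ t472.2.2.2.2.2.2.1, H _ t472.2.2.2.2.2.2.2⟩⟩, ⟨⟨H _ t480.1, H _ t480.2.1⟩, ⟨H _ t480.2.2.1, H _ t480.2.2.2.1⟩⟩⟩⟩, ⟨⟨⟨⟨H _ t480.2.2.2.2.1, H _ t480.2.2.2.2.2.1⟩, ⟨H _ t480.2.2.2.2.2.2.1, H _ t480.2.2.2.2.2.2.2⟩⟩, ⟨⟨H _ t488.1, H _ t488.2.1⟩, ⟨H _ t488.2.2.1, H _ t488.2.2.2.1⟩⟩⟩, ⟨⟨⟨H _ t488.2.2.2.2.1, H _ t488.2.2.2.2.2.1⟩, ⟨H _ t488.2.2.2.2.2.2.1, H _ t488.2.2.2.2.2.2.2⟩⟩, ⟨⟨H _ t496.1, H _ t496.2.1⟩, ⟨H _ t496.2.2.1, ⟨H _ t496.2.2.2.1, H _ t496.2.2.2.2.1⟩⟩⟩⟩⟩⟩, ⟨⟨⟨⟨⟨H _ t496.2.2.2.2.2.1, H _ t496.2.2.2.2.2.2.1⟩, ⟨H _ t496.2.2.2.2.2.2.2, H _ t504.1⟩⟩, ⟨⟨H _ t504.2.1, H _ t504.2.2.1⟩, ⟨H _ t504.2.2.2.1, H _ t504.2.2.2.2.1⟩⟩⟩, ⟨⟨⟨H _ t504.2.2.2.2.2.1, H _ t504.2.2.2.2.2.2.1⟩,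 ⟨H _ t504.2.2.2.2.2.2.2, H _ t512.1⟩⟩, ⟨⟨H _ t512.2.1, H _ t512.2.2.1⟩, ⟨H _ t512.2.2.2.1, ⟨H _ t512.2.2.2.2.1, H _ t512.2.2.2.2.2.1⟩⟩⟩⟩⟩, ⟨⟨⟨⟨H _ t512.2.2.2.2.2.2.1, H _ t512.2.2.2.2.2.2.2⟩, ⟨H _ t520.1, H _ t520.2.1⟩⟩, ⟨⟨H _ t520.2.2.1, H _ t520.2.2.2.1⟩, ⟨H _ t520.2.2.2.2.1, H _ t520.2.2.2.2.2.1⟩⟩⟩, ⟨⟨⟨H _ t520.2.2.2.2.2.2.1, H _ t520.2.2.2.2.2.2.2⟩, ⟨H _ t528.1, H _ t528.2.1⟩⟩, ⟨⟨H _ t528.2.2.1, H _ t528.2.2.2.1⟩, ⟨H _ t528.2.2.2.2.1, ⟨H _ t528.2.2.2.2.2.1, H _ t528.2.2.2.2.2.2⟩⟩⟩⟩⟩⟩⟩⟩⟩⟩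

end Pool.Agent.MP_c853c5_nt.X.C4950
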