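import Pool.Agent.MP_c853c5_nt.X.C4950.Env
import Pool.Agent.MP_c853c5_nt.X.C4950.D0

set_option autoImplicit false
set_option maxRecDepth 8192
set_option linter.all false

namespace Pool.Agent.MP_c853c5_nt.X.C4950

open Pool.Agent.MP_c853c5_nt.X

def t535 : allY (E.wth (lkp [])) l535 = true ∧
    allY (E.wth (lkp [])) l536 = true ∧
    allY (E.wth (lkp [])) l537 = true ∧
    allY (E.wth (lkp [])) l538 = true ∧
    allY (E.wth (lkp [])) l539 = true ∧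
    allY (E.wth (lkp [])) l540 = true ∧
    allY (E.wth (lkp [])) l541 = true ∧
    allY (E.wth (lkp [])) l542 = true :=
  ⟨by decide +kernel, by decide +kernel, by decide +kernel, by decide +kernel, by decide +kernel, by decide +kernel, by decide +kernel, by decide +kernel⟩

def t543 : allY (E.wth (lkp [])) l543 = true ∧
    allY (E.wth (lkp [])) l544 = true ∧
    allY (E.wth (lkp [])) l545 = true ∧
    allY (E.wth (lkp [])) l546 = true ∧
    allY (E.wth (lkp [])) l547 = true ∧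
    allY (E.wth (lkp [])) l548 = true ∧
    allY (E.wth (lkp [])) l549 = true ∧
    allY (E.wth (lkp [])) l550 = true :=
  ⟨by decide +kernel, by decide +kernel, by decide +kernel, by decide +kernel, by decide +kernel, by decide +kernel, by decide +kernel, by decide +kernel⟩

def t551 : allY (E.wth (lkp [])) l551 = true ∧
    allY (E.wth (lkp [])) l552 = true ∧
    allY (E.wth (lkp [])) l553 = true ∧
    allY (E.wth (lkp [])) l554 = true ∧
    allY (E.wth (lkp [])) l555 = true ∧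
    allY (E.wth (lkp [])) l556 = true ∧
    allY (E.wth (lkp [])) l557 = true ∧
    allY (E.wth (lkp [])) l558 = true :=
  ⟨by decide +kernel, by decide +kernel, by decide +kernel, by decide +kernel, by decide +kernel, by decide +kernel, by decide +kernel, by decide +kernel⟩

def t559 : allY (E.wth (lkp [])) l559 = true ∧
    allY (E.wth (lkp [])) l560 = true ∧
    allY (E.wth (lkp [])) l561 = true ∧
    allY (E.wth (lkp [])) l562 = true ∧
    allY (E.wth (lkp [])) l563 = true ∧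
    allY (E.wth (lkp [])) l564 = true ∧
    allY (E.wth (lkp [])) l565 = true ∧
    allY (E.wth (lkp [])) l566 = true :=
  ⟨by decide +kernel, by decide +kernel, by decide +kernel, by decide +kernel, by decide +kernel, by decide +kernel, by decide +kernel, by decide +kernel⟩

def t567 : allY (E.wth (lkp [])) l567 = true ∧
    allY (E.wth (lkp [])) l568 = true ∧
    allY (E.wth (lkp [])) l569 = true ∧
    allY (E.wth (lkp [])) l570 = true ∧
    allY (E.wth (lkp [])) l571 = true ∧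
    allY (E.wth (lkp [])) l572 = true ∧
    allY (E.wth (lkp [])) l573 = true ∧
    allY (E.wth (lkp [])) l574 = true :=
  ⟨by decide +kernel, by decide +kernel, by decide +kernel, by decide +kernel, by decide +kernel, by decide +kernel, by decide +kernel, by decide +kernel⟩

def t575 : allY (E.wth (lkp [])) l575 = true ∧
    allY (E.wth (lkp [])) l576 = true ∧
    allY (E.wth (lkp [])) l577 = true ∧
    allY (E.wth (lkp [])) l578 = true ∧
    allY (E.wth (lkp [])) l579 = true ∧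
    allY (E.wth (lkp [])) l580 = true ∧
    allY (E.wth (lkp [])) l581 = true ∧
    allY (E.wth (lkp [])) l582 = true :=
  ⟨by decide +kernel, by decide +kernel, by decide +kernel, by decide +kernel, by decide +kernel, by decide +kernel, by decide +kernel, by decide +kernel⟩

def t583 : allY (E.wth (lkp [])) l583 = true ∧
    allY (E.wth (lkp [])) l584 = true ∧
    allY (E.wth (lkp [])) l585 = true ∧
    allY (E.wth (lkp [])) l586 = true ∧
    allY (E.wth (lkp [])) l587 = true ∧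
    allY (E.wth (lkp [])) l588 = true ∧
    allY (E.wth (lkp [])) l589 = true ∧
    allY (E.wth (lkp [])) l590 = true :=
  ⟨by decide +kernel, by decide +kernel, by decide +kernel, by decide +kernel, by decide +kernel, by decide +kernel, by decide +kernel, by decide +kernel⟩

def t591 : allY (E.wth (lkp [])) l591 = true ∧
    allY (E.wth (lkp [])) l592 = true ∧
    allY (E.wth (lkp [])) l593 = true ∧
    allY (E.wth (lkp [])) l594 = true ∧
    allY (E.wth (lkp [])) l595 = true ∧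
    allY (E.wth (lkp [])) l596 = true ∧
    allY (E.wth (lkp [])) l597 = true ∧
    allY (E.wth (lkp [])) l598 = true :=
  ⟨by decide +kernel, by decide +kernel, by decide +kernel, by decide +kernel, by decide +kernel, by decide +kernel, by decide +kernel, by decide +kernel⟩

def t599 : allY (E.wth (lkp [])) l599 = true ∧
    allY (E.wth (lkp [])) l600 = true ∧
    allY (E.wth (lkp [])) l601 = true ∧
    allY (E.wth (lkp [])) l602 = true ∧
    allY (E.wth (lkp [])) l603 = true ∧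
    allY (E.wth (lkp [])) l604 = true ∧
    allY (E.wth (lkp [])) l605 = true ∧
    allY (E.wth (lkp [])) l606 = true :=
  ⟨by decide +kernel, by decide +kernel, by decide +kernel, by decide +kernel, by decide +kernel, by decide +kernel, by decide +kernel, by decide +kernel⟩

def t607 : allY (E.wth (lkp [])) l607 = true ∧
    allY (E.wth (lkp [])) l608 = true ∧
    allY (E.wth (lkp [])) l609 = true ∧
    allY (E.wth (lkp [])) l610 = true ∧
    allY (E.wth (lkp [])) l611 = true ∧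
    allY (E.wth (lkp [])) l612 = true ∧
    allY (E.wth (lkp [])) l613 = true ∧
    allY (E.wth (lkp [])) l614 = true :=
  ⟨by decide +kernel, by decide +kernel, by decide +kernel, by decide +kernel, by decide +kernel, by decide +kernel, by decide +kernel, by decide +kernel⟩

def t615 : allY (E.wth (lkp [])) l615 = true ∧
    allY (E.wth (lkp [])) l616 = true ∧
    allY (E.wth (lkp [])) l617 = true ∧
    allY (E.wth (lkp [])) l618 = true ∧
    allY (E.wth (lkp [])) l619 = true ∧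
    allY (E.wth (lkp [])) l620 = true ∧
    allY (E.wth (lkp [])) l621 = true ∧
    allY (E.wth (lkp [])) l622 = true :=
  ⟨by decide +kernel, by decide +kernel, by decide +kernel, by decide +kernel, by decide +kernel, by decide +kernel, by decide +kernel, by decide +kernel⟩

def t623 : allY (E.wth (lkp [])) l623 = true ∧
    allY (E.wth (lkp [])) l624 = true ∧
    allY (E.wth (lkp [])) l625 = true ∧
    allY (E.wth (lkp [])) l626 = true ∧
    allY (E.wth (lkp [])) l627 = true ∧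
    allY (E.wth (lkp [])) l628 = true ∧
    allY (E.wth (lkp [])) l629 = true ∧
    allY (E.wth (lkp [])) l630 = true :=
  ⟨by decide +kernel, by decide +kernel, by decide +kernel, by decide +kernel, by decide +kernel, by decide +kernel, by decide +kernel, by decide +kernel⟩

def t631 : allY (E.wth (lkp [])) l631 = true ∧
    allY (E.wth (lkp [])) l632 = true ∧
    allY (E.wth (lkp [])) l633 = true ∧
    allY (E.wth (lkp [])) l634 = true ∧
    allY (E.wth (lkp [])) l635 = true ∧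
    allY (E.wth (lkp [])) l636 = true ∧
    allY (E.wth (lkp [])) l637 = true ∧
    allY (E.wth (lkp [])) l638 = true :=
  ⟨by decide +kernel, by decide +kernel, by decide +kernel, by decide +kernel, by decide +kernel, by decide +kernel, by decide +kernel, by decide +kernel⟩

def t639 : allY (E.wth (lkp [])) l639 = true ∧
    allY (E.wth (lkp [])) l640 = true ∧
    allY (E.wth (lkp [])) l641 = true ∧
    allY (E.wth (lkp [])) l642 = true ∧
    allY (E.wth (lkp [])) l643 = true ∧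
    allY (E.wth (lkp [])) l644 = true ∧
    allY (E.wth (lkp [])) l645 = true ∧
    allY (E.wth (lkp [])) l646 = true :=
  ⟨by decide +kernel, by decide +kernel, by decide +kernel, by decide +kernel, by decide +kernel, by decide +kernel, by decide +kernel, by decide +kernel⟩

def t647 : allY (E.wth (lkp [])) l647 = true ∧
    allY (E.wth (lkp [])) l648 = true ∧
    allY (E.wth (lkp [])) l649 = true ∧
    allY (E.wth (lkp [])) l650 = true ∧
    allY (E.wth (lkp [])) l651 = true ∧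
    allY (E.wth (lkp [])) l652 = true ∧
    allY (E.wth (lkp [])) l653 = true ∧
    allY (E.wth (lkp [])) l654 = true :=
  ⟨by decide +kernel, by decide +kernel, by decide +kernel, by decide +kernel, by decide +kernel, by decide +kernel, by decide +kernel, by decide +kernel⟩

def t655 : allY (E.wth (lkp [])) l655 = true ∧
    allY (E.wth (lkp [])) l656 = true ∧
    allY (E.wth (lkp [])) l657 = true ∧
    allY (E.wth (lkp [])) l658 = true ∧
    allY (E.wth (lkp [])) l659 = true ∧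
    allY (E.wth (lkp [])) l660 = true ∧
    allY (E.wth (lkp [])) l661 = true ∧
    allY (E.wth (lkp [])) l662 = true :=
  ⟨by decide +kernel, by decide +kernel, by decide +kernel, by decide +kernel, by decide +kernel, by decide +kernel, by decide +kernel, by decide +kernel⟩

def t663 : allY (E.wth (lkp [])) l663 = true ∧
    allY (E.wth (lkp [])) l664 = true ∧
    allY (E.wth (lkp [])) l665 = true ∧
    allY (E.wth (lkp [])) l666 = true ∧
    allY (E.wth (lkp [])) l667 = true ∧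
    allY (E.wth (lkp [])) l668 = true ∧
    allY (E.wth (lkp [])) l669 = true ∧
    allY (E.wth (lkp [])) l670 = true :=
  ⟨by decide +kernel, by decide +kernel, by decide +kernel, by decide +kernel, by decide +kernel, by decide +kernel, by decide +kernel, by decide +kernel⟩

def t671 : allY (E.wth (lkp [])) l671 = true ∧
    allY (E.wth (lkp [])) l672 = true ∧
    allY (E.wth (lkp [])) l673 = true ∧
    allY (E.wth (lkp [])) l674 = true ∧
    allY (E.wth (lkp [])) l675 = true ∧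
    allY (E.wth (lkp [])) l676 = true ∧
    allY (E.wth (lkp [])) l677 = true ∧
    allY (E.wth (lkp [])) l678 = true :=
  ⟨by decide +kernel, by decide +kernel, by decide +kernel, by decide +kernel, by decide +kernel, by decide +kernel, by decide +kernel, by decide +kernel⟩

def t679 : allY (E.wth (lkp [])) l679 = true ∧
    allY (E.wth (lkp [])) l680 = true ∧
    allY (E.wth (lkp [])) l681 = true ∧
    allY (E.wth (lkp [])) l682 = true ∧
    allY (E.wth (lkp [])) l683 = true ∧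
    allY (E.wth (lkp [])) l684 = true ∧
    allY (E.wth (lkp [])) l685 = true ∧
    allY (E.wth (lkp [])) l686 = true :=
  ⟨by decide +kernel, by decide +kernel, by decide +kernel, by decide +kernel, by decide +kernel, by decide +kernel, by decide +kernel, by decide +kernel⟩

def t687 : allY (E.wth (lkp [])) l687 = true ∧
    allY (E.wth (lkp [])) l688 = true ∧
    allY (E.wth (lkp [])) l689 = true ∧
    allY (E.wth (lkp [])) l690 = true ∧
    allY (E.wth (lkp [])) l691 = true ∧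
    allY (E.wth (lkp [])) l692 = true ∧
    allY (E.wth (lkp [])) l693 = true ∧
    allY (E.wth (lkp [])) l694 = true :=
  ⟨by decide +kernel, by decide +kernel, by decide +kernel, by decide +kernel, by decide +kernel, by decide +kernel, by decide +kernel, by decide +kernel⟩

def t695 : allY (E.wth (lkp [])) l695 = true ∧
    allY (E.wth (lkp [])) l696 = true ∧
    allY (E.wth (lkp [])) l697 = true ∧
    allY (E.wth (lkp [])) l698 = true ∧
    allY (E.wth (lkp [])) l699 = true ∧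
    allY (E.wth (lkp [])) l700 = true ∧
    allY (E.wth (lkp [])) l701 = true ∧
    allY (E.wth (lkp [])) l702 = true :=
  ⟨by decide +kernel, by decide +kernel, by decide +kernel, by decide +kernel, by decide +kernel, by decide +kernel, by decide +kernel, by decide +kernel⟩

def t703 : allY (E.wth (lkp [])) l703 = true ∧
    allY (E.wth (lkp [])) l704 = true ∧
    allY (E.wth (lkp [])) l705 = true ∧
    allY (E.wth (lkp [])) l706 = true ∧
    allY (E.wth (lkp [])) l707 = true ∧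
    allY (E.wth (lkp [])) l708 = true ∧
    allY (E.wth (lkp [])) l709 = true ∧
    allY (E.wth (lkp [])) l710 = true :=
  ⟨by decide +kernel, by decide +kernel, by decide +kernel, by decide +kernel, by decide +kernel, by decide +kernel, by decide +kernel, by decide +kernel⟩

def t711 : allY (E.wth (lkp [])) l711 = true ∧
    allY (E.wth (lkp [])) l712 = true ∧
    allY (E.wth (lkp [])) l713 = true ∧
    allY (E.wth (lkp [])) l714 = true ∧
    allY (E.wth (lkp [])) l715 = true ∧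
    allY (E.wth (lkp [])) l716 = true ∧
    allY (E.wth (lkp [])) l717 = true ∧
    allY (E.wth (lkp [])) l718 = true :=
  ⟨by decide +kernel, by decide +kernel, by decide +kernel, by decide +kernel, by decide +kernel, by decide +kernel, by decide +kernel, by decide +kernel⟩

def t719 : allY (E.wth (lkp [])) l719 = true ∧
    allY (E.wth (lkp [])) l720 = true ∧
    allY (E.wth (lkp [])) l721 = true ∧
    allY (E.wth (lkp [])) l722 = true ∧
    allY (E.wth (lkp [])) l723 = true ∧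
    allY (E.wth (lkp [])) l724 = true ∧
    allY (E.wth (lkp [])) l725 = true ∧
    allY (E.wth (lkp [])) l726 = true :=
  ⟨by decide +kernel, by decide +kernel, by decide +kernel, by decide +kernel, by decide +kernel, by decide +kernel, by decide +kernel, by decide +kernel⟩

def t727 : allY (E.wth (lkp [])) l727 = true ∧
    allY (E.wth (lkp [])) l728 = true ∧
    allY (E.wth (lkp [])) l729 = true ∧
    allY (E.wth (lkp [])) l730 = true ∧
    allY (E.wth (lkp [])) l731 = true ∧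
    allY (E.wth (lkp [])) l732 = true ∧
    allY (E.wth (lkp [])) l733 = true ∧
    allY (E.wth (lkp [])) l734 = true :=
  ⟨by decide +kernel, by decide +kernel, by decide +kernel, by decide +kernel, by decide +kernel, by decide +kernel, by decide +kernel, by decide +kernel⟩

def t735 : allY (E.wth (lkp [])) l735 = true ∧
    allY (E.wth (lkp [])) l736 = true ∧
    allY (E.wth (lkp [])) l737 = true ∧
    allY (E.wth (lkp [])) l738 = true ∧
    allY (E.wth (lkp [])) l739 = true ∧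
    allY (E.wth (lkp [])) l740 = true ∧
    allY (E.wth (lkp [])) l741 = true ∧
    allY (E.wth (lkp [])) l742 = true :=
  ⟨by decide +kernel, by decide +kernel, by decide +kernel, by decide +kernel, by decide +kernel, by decide +kernel, by decide +kernel, by decide +kernel⟩

def t743 : allY (E.wth (lkp [])) l743 = true ∧
    allY (E.wth (lkp [])) l744 = true ∧
    allY (E.wth (lkp [])) l745 = true ∧
    allY (E.wth (lkp [])) l746 = true ∧
    allY (E.wth (lkp [])) l747 = true ∧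
    allY (E.wth (lkp [])) l748 = true ∧
    allY (E.wth (lkp [])) l749 = true ∧
    allY (E.wth (lkp [])) l750 = true :=
  ⟨by decide +kernel, by decide +kernel, by decide +kernel, by decide +kernel, by decide +kernel, by decide +kernel, by decide +kernel, by decide +kernel⟩

def t751 : allY (E.wth (lkp [])) l751 = true ∧
    allY (E.wth (lkp [])) l752 = true ∧
    allY (E.wth (lkp [])) l753 = true ∧
    allY (E.wth (lkp [])) l754 = true ∧
    allY (E.wth (lkp [])) l755 = true ∧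
    allY (E.wth (lkp [])) l756 = true ∧
    allY (E.wth (lkp [])) l757 = true ∧
    allY (E.wth (lkp [])) l758 = true :=
  ⟨by decide +kernel, by decide +kernel, by decide +kernel, by decide +kernel, by decide +kernel, by decide +kernel, by decide +kernel, by decide +kernel⟩

def t759 : allY (E.wth (lkp [])) l759 = true ∧
    allY (E.wth (lkp [])) l760 = true ∧
    allY (E.wth (lkp [])) l761 = true ∧
    allY (E.wth (lkp [])) l762 = true ∧
    allY (E.wth (lkp [])) l763 = true ∧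
    allY (E.wth (lkp [])) l764 = true ∧
    allY (E.wth (lkp [])) l765 = true ∧
    allY (E.wth (lkp [])) l766 = true :=
  ⟨by decide +kernel, by decide +kernel, by decide +kernel, by decide +kernel, by decide +kernel, by decide +kernel, by decide +kernel, by decide +kernel⟩

def t767 : allY (E.wth (lkp [])) l767 = true ∧
    allY (E.wth (lkp [])) l768 = true ∧
    allY (E.wth (lkp [])) l769 = true ∧
    allY (E.wth (lkp [])) l770 = true ∧
    allY (E.wth (lkp [])) l771 = true ∧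
    allY (E.wth (lkp [])) l772 = true ∧
    allY (E.wth (lkp [])) l773 = true ∧
    allY (E.wth (lkp [])) l774 = true :=
  ⟨by decide +kernel, by decide +kernel, by decide +kernel, by decide +kernel, by decide +kernel, by decide +kernel, by decide +kernel, by decide +kernel⟩

def t775 : allY (E.wth (lkp [])) l775 = true ∧
    allY (E.wth (lkp [])) l776 = true ∧
    allY (E.wth (lkp [])) l777 = true ∧
    allY (E.wth (lkp [])) l778 = true ∧
    allY (E.wth (lkp [])) l779 = true ∧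
    allY (E.wth (lkp [])) l780 = true ∧
    allY (E.wth (lkp [])) l781 = true ∧
    allY (E.wth (lkp [])) l782 = true :=
  ⟨by decide +kernel, by decide +kernel, by decide +kernel, by decide +kernel, by decide +kernel, by decide +kernel, by decide +kernel, by decide +kernel⟩

def t783 : allY (E.wth (lkp [])) l783 = true ∧
    allY (E.wth (lkp [])) l784 = true ∧
    allY (E.wth (lkp [])) l785 = true ∧
    allY (E.wth (lkp [])) l786 = true ∧
    allY (E.wth (lkp [])) l787 = true ∧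
    allY (E.wth (lkp [])) l788 = true ∧
    allY (E.wth (lkp [])) l789 = true ∧
    allY (E.wth (lkp [])) l790 = true :=
  ⟨by decide +kernel, by decide +kernel, by decide +kernel, by decide +kernel, by decide +kernel, by decide +kernel, by decide +kernel, by decide +kernel⟩

def t791 : allY (E.wth (lkp [])) l791 = true ∧
    allY (E.wth (lkp [])) l792 = true ∧
    allY (E.wth (lkp [])) l793 = true ∧
    allY (E.wth (lkp [])) l794 = true ∧
    allY (E.wth (lkp [])) l795 = true ∧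
    allY (E.wth (lkp [])) l796 = true ∧
    allY (E.wth (lkp [])) l797 = true ∧
    allY (E.wth (lkp [])) l798 = true :=
  ⟨by decide +kernel, by decide +kernel, by decide +kernel, by decide +kernel, by decide +kernel, by decide +kernel, by decide +kernel, by decide +kernel⟩

def t799 : allY (E.wth (lkp [])) l799 = true ∧
    allY (E.wth (lkp [])) l800 = true ∧
    allY (E.wth (lkp [])) l801 = true ∧
    allY (E.wth (lkp [])) l802 = true ∧
    allY (E.wth (lkp [])) l803 = true ∧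
    allY (E.wth (lkp [])) l804 = true ∧
    allY (E.wth (lkp [])) l805 = true ∧
    allY (E.wth (lkp [])) l806 = true :=
  ⟨by decide +kernel, by decide +kernel, by decide +kernel, by decide +kernel, by decide +kernel, by decide +kernel, by decide +kernel, by decide +kernel⟩

def t807 : allY (E.wth (lkp [])) l807 = true ∧
    allY (E.wth (lkp [])) l808 = true ∧
    allY (E.wth (lkp [])) l809 = true ∧
    allY (E.wth (lkp [])) l810 = true ∧
    allY (E.wth (lkp [])) l811 = true ∧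
    allY (E.wth (lkp [])) l812 = true ∧
    allY (E.wth (lkp [])) l813 = true ∧
    allY (E.wth (lkp [])) l814 = true :=
  ⟨by decide +kernel, by decide +kernel, by decide +kernel, by decide +kernel, by decide +kernel, by decide +kernel, by decide +kernel, by decide +kernel⟩

def t815 : allY (E.wth (lkp [])) l815 = true ∧
    allY (E.wth (lkp [])) l816 = true ∧
    allY (E.wth (lkp [])) l817 = true ∧
    allY (E.wth (lkp [])) l818 = true ∧
    allY (E.wth (lkp [])) l819 = true ∧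
    allY (E.wth (lkp [])) l820 = true ∧
    allY (E.wth (lkp [])) l821 = true ∧
    allY (E.wth (lkp [])) l822 = true :=
  ⟨by decide +kernel, by decide +kernel, by decide +kernel, by decide +kernel, by decide +kernel, by decide +kernel, by decide +kernel, by decide +kernel⟩

def t823 : allY (E.wth (lkp [])) l823 = true ∧
    allY (E.wth (lkp [])) l824 = true ∧
    allY (E.wth (lkp [])) l825 = true ∧
    allY (E.wth (lkp [])) l826 = true ∧
    allY (E.wth (lkp [])) l827 = true ∧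
    allY (E.wth (lkp [])) l828 = true ∧
    allY (E.wth (lkp [])) l829 = true ∧
    allY (E.wth (lkp [])) l830 = true :=
  ⟨by decide +kernel, by decide +kernel, by decide +kernel, by decide +kernel, by decide +kernel, by decide +kernel, by decide +kernel, by decide +kernel⟩

def t831 : allY (E.wth (lkp [])) l831 = true ∧
    allY (E.wth (lkp [])) l832 = true ∧
    allY (E.wth (lkp [])) l833 = true ∧
    allY (E.wth (lkp [])) l834 = true ∧
    allY (E.wth (lkp [])) l835 = true ∧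
    allY (E.wth (lkp [])) l836 = true ∧
    allY (E.wth (lkp [])) l837 = true ∧
    allY (E.wth (lkp [])) l838 = true :=
  ⟨by decide +kernel, by decide +kernel, by decide +kernel, by decide +kernel, by decide +kernel, by decide +kernel, by decide +kernel, by decide +kernel⟩

def t839 : allY (E.wth (lkp [])) l839 = true ∧
    allY (E.wth (lkp [])) l840 = true ∧
    allY (E.wth (lkp [])) l841 = true ∧
    allY (E.wth (lkp [])) l842 = true ∧
    allY (E.wth (lkp [])) l843 = true ∧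
    allY (E.wth (lkp [])) l844 = true ∧
    allY (E.wth (lkp [])) l845 = true ∧
    allY (E.wth (lkp [])) l846 = true :=
  ⟨by decide +kernel, by decide +kernel, by decide +kernel, by decide +kernel, by decide +kernel, by decide +kernel, by decide +kernel, by decide +kernel⟩

def t847 : allY (E.wth (lkp [])) l847 = true ∧
    allY (E.wth (lkp [])) l848 = true ∧
    allY (E.wth (lkp [])) l849 = true ∧
    allY (E.wth (lkp [])) l850 = true ∧
    allY (E.wth (lkp [])) l851 = true ∧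
    allY (E.wth (lkp [])) l852 = true ∧
    allY (E.wth (lkp [])) l853 = true ∧
    allY (E.wth (lkp [])) l854 = true :=
  ⟨by decide +kernel, by decide +kernel, by decide +kernel, by decide +kernel, by decide +kernel, by decide +kernel, by decide +kernel, by decide +kernel⟩

def t855 : allY (E.wth (lkp [])) l855 = true ∧
    allY (E.wth (lkp [])) l856 = true ∧
    allY (E.wth (lkp [])) l857 = true ∧
    allY (E.wth (lkp [])) l858 = true ∧
    allY (E.wth (lkp [])) l859 = true ∧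
    allY (E.wth (lkp [])) l860 = true ∧
    allY (E.wth (lkp [])) l861 = true ∧
    allY (E.wth (lkp [])) l862 = true :=
  ⟨by decide +kernel, by decide +kernel, by decide +kernel, by decide +kernel, by decide +kernel, by decide +kernel, by decide +kernel, by decide +kernel⟩

def t863 : allY (E.wth (lkp [])) l863 = true ∧
    allY (E.wth (lkp [])) l864 = true ∧
    allY (E.wth (lkp [])) l865 = true ∧
    allY (E.wth (lkp [])) l866 = true ∧
    allY (E.wth (lkp [])) l867 = true ∧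
    allY (E.wth (lkp [])) l868 = true ∧
    allY (E.wth (lkp [])) l869 = true ∧
    allY (E.wth (lkp [])) l870 = true :=
  ⟨by decide +kernel, by decide +kernel, by decide +kernel, by decide +kernel, by decide +kernel, by decide +kernel, by decide +kernel, by decide +kernel⟩

def t871 : allY (E.wth (lkp [])) l871 = true ∧
    allY (E.wth (lkp [])) l872 = true ∧
    allY (E.wth (lkp [])) l873 = true ∧
    allY (E.wth (lkp [])) l874 = true ∧
    allY (E.wth (lkp [])) l875 = true ∧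
    allY (E.wth (lkp [])) l876 = true ∧
    allY (E.wth (lkp [])) l877 = true ∧
    allY (E.wth (lkp [])) l878 = true :=
  ⟨by decide +kernel, by decide +kernel, by decide +kernel, by decide +kernel, by decide +kernel, by decide +kernel, by decide +kernel, by decide +kernel⟩

def t879 : allY (E.wth (lkp [])) l879 = true ∧
    allY (E.wth (lkp [])) l880 = true ∧
    allY (E.wth (lkp [])) l881 = true ∧
    allY (E.wth (lkp [])) l882 = true ∧
    allY (E.wth (lkp [])) l883 = true ∧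
    allY (E.wth (lkp [])) l884 = true ∧
    allY (E.wth (lkp [])) l885 = true ∧
    allY (E.wth (lkp [])) l886 = true :=
  ⟨by decide +kernel, by decide +kernel, by decide +kernel, by decide +kernel, by decide +kernel, by decide +kernel, by decide +kernel, by decide +kernel⟩

def t887 : allY (E.wth (lkp [])) l887 = true ∧
    allY (E.wth (lkp [])) l888 = true ∧
    allY (E.wth (lkp [])) l889 = true ∧
    allY (E.wth (lkp [])) l890 = true ∧
    allY (E.wth (lkp [])) l891 = true ∧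
    allY (E.wth (lkp [])) l892 = true ∧
    allY (E.wth (lkp [])) l893 = true ∧
    allY (E.wth (lkp [])) l894 = true :=
  ⟨by decide +kernel, by decide +kernel, by decide +kernel, by decide +kernel, by decide +kernel, by decide +kernel, by decide +kernel, by decide +kernel⟩

def t895 : allY (E.wth (lkp [])) l895 = true ∧
    allY (E.wth (lkp [])) l896 = true ∧
    allY (E.wth (lkp [])) l897 = true ∧
    allY (E.wth (lkp [])) l898 = true ∧
    allY (E.wth (lkp [])) l899 = true ∧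
    allY (E.wth (lkp [])) l900 = true ∧
    allY (E.wth (lkp [])) l901 = true ∧
    allY (E.wth (lkp [])) l902 = true :=
  ⟨by decide +kernel, by decide +kernel, by decide +kernel, by decide +kernel, by decide +kernel, by decide +kernel, by decide +kernel, by decide +kernel⟩

def t903 : allY (E.wth (lkp [])) l903 = true ∧
    allY (E.wth (lkp [])) l904 = true ∧
    allY (E.wth (lkp [])) l905 = true ∧
    allY (E.wth (lkp [])) l906 = true ∧
    allY (E.wth (lkp [])) l907 = true ∧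
    allY (E.wth (lkp [])) l908 = true ∧
    allY (E.wth (lkp [])) l909 = true ∧
    allY (E.wth (lkp [])) l910 = true :=
  ⟨by decide +kernel, by decide +kernel, by decide +kernel, by decide +kernel, by decide +kernel, by decide +kernel, by decide +kernel, by decide +kernel⟩

def t911 : allY (E.wth (lkp [])) l911 = true ∧
    allY (E.wth (lkp [])) l912 = true ∧
    allY (E.wth (lkp [])) l913 = true ∧
    allY (E.wth (lkp [])) l914 = true ∧
    allY (E.wth (lkp [])) l915 = true ∧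
    allY (E.wth (lkp [])) l916 = true ∧
    allY (E.wth (lkp [])) l917 = true ∧
    allY (E.wth (lkp [])) l918 = true :=
  ⟨by decide +kernel, by decide +kernel, by decide +kernel, by decide +kernel, by decide +kernel, by decide +kernel, by decide +kernel, by decide +kernel⟩

def t919 : allY (E.wth (lkp [])) l919 = true ∧
    allY (E.wth (lkp [])) l920 = true ∧
    allY (E.wth (lkp [])) l921 = true ∧
    allY (E.wth (lkp [])) l922 = true ∧
    allY (E.wth (lkp [])) l923 = true ∧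
    allY (E.wth (lkp [])) l924 = true ∧
    allY (E.wth (lkp [])) l925 = true ∧
    allY (E.wth (lkp [])) l926 = true :=
  ⟨by decide +kernel, by decide +kernel, by decide +kernel, by decide +kernel, by decide +kernel, by decide +kernel, by decide +kernel, by decide +kernel⟩

def t927 : allY (E.wth (lkp [])) l927 = true ∧
    allY (E.wth (lkp [])) l928 = true ∧
    allY (E.wth (lkp [])) l929 = true ∧
    allY (E.wth (lkp [])) l930 = true ∧
    allY (E.wth (lkp [])) l931 = true ∧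
    allY (E.wth (lkp [])) l932 = true ∧
    allY (E.wth (lkp [])) l933 = true ∧
    allY (E.wth (lkp [])) l934 = true :=
  ⟨by decide +kernel, by decide +kernel, by decide +kernel, by decide +kernel, by decide +kernel, by decide +kernel, by decide +kernel, by decide +kernel⟩

def t935 : allY (E.wth (lkp [])) l935 = true ∧
    allY (E.wth (lkp [])) l936 = true ∧
    allY (E.wth (lkp [])) l937 = true ∧
    allY (E.wth (lkp [])) l938 = true ∧
    allY (E.wth (lkp [])) l939 = true ∧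
    allY (E.wth (lkp [])) l940 = true ∧
    allY (E.wth (lkp [])) l941 = true ∧
    allY (E.wth (lkp [])) l942 = true :=
  ⟨by decide +kernel, by decide +kernel, by decide +kernel, by decide +kernel, by decide +kernel, by decide +kernel, by decide +kernel, by decide +kernel⟩

def t943 : allY (E.wth (lkp [])) l943 = true ∧
    allY (E.wth (lkp [])) l944 = true ∧
    allY (E.wth (lkp [])) l945 = true ∧
    allY (E.wth (lkp [])) l946 = true ∧
    allY (E.wth (lkp [])) l947 = true ∧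
    allY (E.wth (lkp [])) l948 = true ∧
    allY (E.wth (lkp [])) l949 = true ∧
    allY (E.wth (lkp [])) l950 = true :=
  ⟨by decide +kernel, by decide +kernel, by decide +kernel, by decide +kernel, by decide +kernel, by decide +kernel, by decide +kernel, by decide +kernel⟩

def t951 : allY (E.wth (lkp [])) l951 = true ∧
    allY (E.wth (lkp [])) l952 = true ∧
    allY (E.wth (lkp [])) l953 = true ∧
    allY (E.wth (lkp [])) l954 = true ∧
    allY (E.wth (lkp [])) l955 = true ∧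
    allY (E.wth (lkp [])) l956 = true ∧
    allY (E.wth (lkp [])) l957 = true ∧
    allY (E.wth (lkp [])) l958 = true :=
  ⟨by decide +kernel, by decide +kernel, by decide +kernel, by decide +kernel, by decide +kernel, by decide +kernel, by decide +kernel, by decide +kernel⟩

def t959 : allY (E.wth (lkp [])) l959 = true ∧
    allY (E.wth (lkp [])) l960 = true ∧
    allY (E.wth (lkp [])) l961 = true ∧
    allY (E.wth (lkp [])) l962 = true ∧
    allY (E.wth (lkp [])) l963 = true ∧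
    allY (E.wth (lkp [])) l964 = true ∧
    allY (E.wth (lkp [])) l965 = true ∧
    allY (E.wth (lkp [])) l966 = true :=
  ⟨by decide +kernel, by decide +kernel, by decide +kernel, by decide +kernel, by decide +kernel, by decide +kernel, by decide +kernel, by decide +kernel⟩

def t967 : allY (E.wth (lkp [])) l967 = true ∧
    allY (E.wth (lkp [])) l968 = true ∧
    allY (E.wth (lkp [])) l969 = true ∧
    allY (E.wth (lkp [])) l970 = true ∧
    allY (E.wth (lkp [])) l971 = true ∧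
    allY (E.wth (lkp [])) l972 = true ∧
    allY (E.wth (lkp [])) l973 = true ∧
    allY (E.wth (lkp [])) l974 = true :=
  ⟨by decide +kernel, by decide +kernel, by decide +kernel, by decide +kernel, by decide +kernel, by decide +kernel, by decide +kernel, by decide +kernel⟩

def t975 : allY (E.wth (lkp [])) l975 = true ∧
    allY (E.wth (lkp [])) l976 = true ∧
    allY (E.wth (lkp [])) l977 = true ∧
    allY (E.wth (lkp [])) l978 = true ∧
    allY (E.wth (lkp [])) l979 = true ∧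
    allY (E.wth (lkp [])) l980 = true ∧
    allY (E.wth (lkp [])) l981 = true ∧
    allY (E.wth (lkp [])) l982 = true :=
  ⟨by decide +kernel, by decide +kernel, by decide +kernel, by decide +kernel, by decide +kernel, by decide +kernel, by decide +kernel, by decide +kernel⟩

def t983 : allY (E.wth (lkp [])) l983 = true ∧
    allY (E.wth (lkp [])) l984 = true ∧
    allY (E.wth (lkp [])) l985 = true ∧
    allY (E.wth (lkp [])) l986 = true ∧
    allY (E.wth (lkp [])) l987 = true ∧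
    allY (E.wth (lkp [])) l988 = true ∧
    allY (E.wth (lkp [])) l989 = true ∧
    allY (E.wth (lkp [])) l990 = true :=
  ⟨by decide +kernel, by decide +kernel, by decide +kernel, by decide +kernel, by decide +kernel, by decide +kernel, by decide +kernel, by decide +kernel⟩

def t991 : allY (E.wth (lkp [])) l991 = true ∧
    allY (E.wth (lkp [])) l992 = true ∧
    allY (E.wth (lkp [])) l993 = true ∧
    allY (E.wth (lkp [])) l994 = true ∧
    allY (E.wth (lkp [])) l995 = true ∧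
    allY (E.wth (lkp [])) l996 = true ∧
    allY (E.wth (lkp [])) l997 = true ∧
    allY (E.wth (lkp [])) l998 = true :=
  ⟨by decide +kernel, by decide +kernel, by decide +kernel, by decide +kernel, by decide +kernel, by decide +kernel, by decide +kernel, by decide +kernel⟩

def t999 : allY (E.wth (lkp [])) l999 = true ∧
    allY (E.wth (lkp [])) l1000 = true ∧
    allY (E.wth (lkp [])) l1001 = true ∧
    allY (E.wth (lkp [])) l1002 = true ∧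
    allY (E.wth (lkp [])) l1003 = true ∧
    allY (E.wth (lkp [])) l1004 = true ∧
    allY (E.wth (lkp [])) l1005 = true ∧
    allY (E.wth (lkp [])) l1006 = true :=
  ⟨by decide +kernel, by decide +kernel, by decide +kernel, by decide +kernel, by decide +kernel, by decide +kernel, by decide +kernel, by decide +kernel⟩

def t1007 : allY (E.wth (lkp [])) l1007 = true ∧
    allY (E.wth (lkp [])) l1008 = true ∧
    allY (E.wth (lkp [])) l1009 = true ∧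
    allY (E.wth (lkp [])) l1010 = true ∧
    allY (E.wth (lkp [])) l1011 = true ∧
    allY (E.wth (lkp [])) l1012 = true ∧
    allY (E.wth (lkp [])) l1013 = true ∧
    allY (E.wth (lkp [])) l1014 = true :=
  ⟨by decide +kernel, by decide +kernel, by decide +kernel, by decide +kernel, by decide +kernel, by decide +kernel, by decide +kernel, by decide +kernel⟩

def t1015 : allY (E.wth (lkp [])) l1015 = true ∧
    allY (E.wth (lkp [])) l1016 = true ∧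
    allY (E.wth (lkp [])) l1017 = true ∧
    allY (E.wth (lkp [])) l1018 = true ∧
    allY (E.wth (lkp [])) l1019 = true ∧
    allY (E.wth (lkp [])) l1020 = true ∧
    allY (E.wth (lkp [])) l1021 = true ∧
    allY (E.wth (lkp [])) l1022 = true :=
  ⟨by decide +kernel, by decide +kernel, by decide +kernel, by decide +kernel, by decide +kernel, by decide +kernel, by decide +kernel, by decide +kernel⟩

def t1023 : allY (E.wth (lkp [])) l1023 = true ∧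
    allY (E.wth (lkp [])) l1024 = true ∧
    allY (E.wth (lkp [])) l1025 = true ∧
    allY (E.wth (lkp [])) l1026 = true ∧
    allY (E.wth (lkp [])) l1027 = true ∧
    allY (E.wth (lkp [])) l1028 = true ∧
    allY (E.wth (lkp [])) l1029 = true ∧
    allY (E.wth (lkp [])) l1030 = true :=
  ⟨by decide +kernel, by decide +kernel, by decide +kernel, by decide +kernel, by decide +kernel, by decide +kernel, by decide +kernel, by decide +kernel⟩

def t1031 : allY (E.wth (lkp [])) l1031 = true ∧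
    allY (E.wth (lkp [])) l1032 = true ∧
    allY (E.wth (lkp [])) l1033 = true ∧
    allY (E.wth (lkp [])) l1034 = true ∧
    allY (E.wth (lkp [])) l1035 = true ∧
    allY (E.wth (lkp [])) l1036 = true ∧
    allY (E.wth (lkp [])) l1037 = true ∧
    allY (E.wth (lkp [])) l1038 = true :=
  ⟨by decide +kernel, by decide +kernel, by decide +kernel, by decide +kernel, by decide +kernel, by decide +kernel, by decide +kernel, by decide +kernel⟩

def t1039 : allY (E.wth (lkp [])) l1039 = true ∧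
    allY (E.wth (lkp [])) l1040 = true ∧
    allY (E.wth (lkp [])) l1041 = true ∧
    allY (E.wth (lkp [])) l1042 = true ∧
    allY (E.wth (lkp [])) l1043 = true ∧
    allY (E.wth (lkp [])) l1044 = true ∧
    allY (E.wth (lkp [])) l1045 = true ∧
    allY (E.wth (lkp [])) l1046 = true :=
  ⟨by decide +kernel, by decide +kernel, by decide +kernel, by decide +kernel, by decide +kernel, by decide +kernel, by decide +kernel, by decide +kernel⟩

def t1047 : allY (E.wth (lkp [])) l1047 = true ∧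
    allY (E.wth (lkp [])) l1048 = true ∧
    allY (E.wth (lkp [])) l1049 = true ∧
    allY (E.wth (lkp [])) l1050 = true ∧
    allY (E.wth (lkp [])) l1051 = true ∧
    allY (E.wth (lkp [])) l1052 = true ∧
    allY (E.wth (lkp [])) l1053 = true ∧
    allY (E.wth (lkp [])) l1054 = true :=
  ⟨by decide +kernel, by decide +kernel, by decide +kernel, by decide +kernel, by decide +kernel, by decide +kernel, by decide +kernel, by decide +kernel⟩

def t1055 : allY (E.wth (lkp [])) l1055 = true ∧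
    allY (E.wth (lkp [])) l1056 = true ∧
    allY (E.wth (lkp [])) l1057 = true ∧
    allY (E.wth (lkp [])) l1058 = true ∧
    allY (E.wth (lkp [])) l1059 = true ∧
    allY (E.wth (lkp [])) l1060 = true ∧
    allY (E.wth (lkp [])) l1061 = true ∧
    allY (E.wth (lkp [])) l1062 = true :=
  ⟨by decide +kernel, by decide +kernel, by decide +kernel, by decide +kernel, by decide +kernel, by decide +kernel, by decide +kernel, by decide +kernel⟩

def t1063 : allY (E.wth (lkp [])) l1063 = true ∧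
    allY (E.wth (lkp [])) l1064 = true ∧
    allY (E.wth (lkp [])) l1065 = true ∧
    allY (E.wth (lkp [])) l1066 = true ∧
    allY (E.wth (lkp [])) l1067 = true ∧
    allY (E.wth (lkp [])) l1068 = true ∧
    allY (E.wth (lkp [])) l1069 = true ∧
    allY (E.wth (lkp [])) l1070 = true :=
  ⟨by decide +kernel, by decide +kernel, by decide +kernel, by decide +kernel, by decide +kernel, by decide +kernel, by decide +kernel, by decide +kernel⟩

def t1071 : allY (E.wth (lkp [])) l1071 = true ∧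
    allY (E.wth (lkp [])) l1072 = true :=
  ⟨by decide +kernel, by decide +kernel⟩

theorem a1 {p : Rf → Prop} (H : ∀ l, allY (E.wth (lkp [])) l = true → (lkp l).All p) :
    b1.All p := ⟨⟨⟨⟨⟨⟨⟨⟨⟨H _ t535.1, H _ t535.2.1⟩, ⟨H _ t535.2.2.1, H _ t535.2.2.2.1⟩⟩, ⟨⟨H _ t535.2.2.2.2.1, H _ t535.2.2.2.2.2.1⟩, ⟨H _ t535.2.2.2.2.2.2.1, H _ t535.2.2.2.2.2.2.2⟩⟩⟩, ⟨⟨⟨H _ t543.1, H _ t543.2.1⟩, ⟨H _ t543.2.2.1, H _ t543.2.2.2.1⟩⟩, ⟨⟨H _ t543.2.2.2.2.1, H _ t543.2.2.2.2.2.1⟩, ⟨H _ t543.2.2.2.2.2.2.1, H _ t543.2.2.2.2.2.2.2⟩⟩⟩⟩, ⟨⟨⟨⟨H _ t551.1, H _ t551.2.1⟩, ⟨H _ t551.2.2.1, H _ t551.2.2.2.1⟩⟩, ⟨⟨H _ t551.2.2.2.2.1, H _ t551.2.2.2.2.2.1⟩, ⟨H _ t551.2.2.2.2.2.2.1, H _ t551.2.2.2.2.2.2.2⟩⟩⟩, ⟨⟨⟨H _ t559.1, H _ t559.2.1⟩, ⟨H _ t559.2.2.1, H _ t559.2.2.2.1⟩⟩, ⟨⟨H _ t559.2.2.2.2.1, H _ t559.2.2.2.2.2.1⟩, ⟨H _ t559.2.2.2.2.2.2.1, ⟨H _ t559.2.2.2.2.2.2.2, H _ t567.1⟩⟩⟩⟩⟩⟩, ⟨⟨⟨⟨⟨H _ t567.2.1, H _ t567.2.2.1⟩,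 ⟨H _ t567.2.2.2.1, H _ t567.2.2.2.2.1⟩⟩, ⟨⟨H _ t567.2.2.2.2.2.1, H _ t567.2.2.2.2.2.2.1⟩, ⟨H _ t567.2.2.2.2.2.2.2, H _ t575.1⟩⟩⟩, ⟨⟨⟨H _ t575.2.1, H _ t575.2.2.1⟩, ⟨H _ t575.2.2.2.1, H _ t575.2.2.2.2.1⟩⟩, ⟨⟨H _ t575.2.2.2.2.2.1, H _ t575.2.2.2.2.2.2.1⟩, ⟨H _ t575.2.2.2.2.2.2.2, ⟨H _ t583.1, H _ t583.2.1⟩⟩⟩⟩⟩, ⟨⟨⟨⟨H _ t583.2.2.1, H _ t583.2.2.2.1⟩, ⟨H _ t583.2.2.2.2.1, H _ t583.2.2.2.2.2.1⟩⟩, ⟨⟨H _ t583.2.2.2.2.2.2.1, H _ t583.2.2.2.2.2.2.2⟩, ⟨H _ t591.1, H _ t591.2.1⟩⟩⟩, ⟨⟨⟨H _ t591.2.2.1, H _ t591.2.2.2.1⟩, ⟨H _ t591.2.2.2.2.1, H _ t591.2.2.2.2.2.1⟩⟩, ⟨⟨H _ t591.2.2.2.2.2.2.1, H _ t591.2.2.2.2.2.2.2⟩, ⟨H _ t599.1, ⟨H _ t599.2.1, H _ t599.2.2.1⟩⟩⟩⟩⟩⟩⟩, ⟨⟨⟨⟨⟨⟨H _ t599.2.2.2.1, H _ t599.2.2.2.2.1⟩, ⟨H _ t599.2.2.2.2.2.1, H _ t599.2.2.2.2.2.2.1⟩⟩, ⟨⟨H _ t599.2.2.2.2.2.2.2, H _ t607.1⟩, ⟨H _ t607.2.1, H _ t607.2.2.1⟩⟩⟩, ⟨⟨⟨H _ t607.2.2.2.1, H _ t607.2.2.2.2.1⟩, ⟨H _ t607.2.2.2.2.2.1,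 H _ t607.2.2.2.2.2.2.1⟩⟩, ⟨⟨H _ t607.2.2.2.2.2.2.2, H _ t615.1⟩, ⟨H _ t615.2.1, H _ t615.2.2.1⟩⟩⟩⟩, ⟨⟨⟨⟨H _ t615.2.2.2.1, H _ t615.2.2.2.2.1⟩, ⟨H _ t615.2.2.2.2.2.1, H _ t615.2.2.2.2.2.2.1⟩⟩, ⟨⟨H _ t615.2.2.2.2.2.2.2, H _ t623.1⟩, ⟨H _ t623.2.1, H _ t623.2.2.1⟩⟩⟩, ⟨⟨⟨H _ t623.2.2.2.1, H _ t623.2.2.2.2.1⟩, ⟨H _ t623.2.2.2.2.2.1, H _ t623.2.2.2.2.2.2.1⟩⟩, ⟨⟨H _ t623.2.2.2.2.2.2.2, H _ t631.1⟩, ⟨H _ t631.2.1, ⟨H _ t631.2.2.1, H _ t631.2.2.2.1⟩⟩⟩⟩⟩⟩, ⟨⟨⟨⟨⟨H _ t631.2.2.2.2.1, H _ t631.2.2.2.2.2.1⟩, ⟨H _ t631.2.2.2.2.2.2.1, H _ t631.2.2.2.2.2.2.2⟩⟩, ⟨⟨H _ t639.1, H _ t639.2.1⟩, ⟨H _ t639.2.2.1, H _ t639.2.2.2.1⟩⟩⟩, ⟨⟨⟨H _ t639.2.2.2.2.1, H _ t639.2.2.2.2.2.1⟩, ⟨H _ t639.2.2.2.2.2.2.1, H _ t639.2.2.2.2.2.2.2⟩⟩, ⟨⟨H _ t647.1, H _ t647.2.1⟩, ⟨H _ t647.2.2.1, ⟨H _ t647.2.2.2.1, H _ t647.2.2.2.2.1⟩⟩⟩⟩⟩, ⟨⟨⟨⟨H _ t647.2.2.2.2.2.1, H _ t647.2.2.2.2.2.2.1⟩, ⟨H _ t647.2.2.2.2.2.2.2, H _ t655.1⟩⟩,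 ⟨⟨H _ t655.2.1, H _ t655.2.2.1⟩, ⟨H _ t655.2.2.2.1, H _ t655.2.2.2.2.1⟩⟩⟩, ⟨⟨⟨H _ t655.2.2.2.2.2.1, H _ t655.2.2.2.2.2.2.1⟩, ⟨H _ t655.2.2.2.2.2.2.2, H _ t663.1⟩⟩, ⟨⟨H _ t663.2.1, H _ t663.2.2.1⟩, ⟨H _ t663.2.2.2.1, ⟨H _ t663.2.2.2.2.1, H _ t663.2.2.2.2.2.1⟩⟩⟩⟩⟩⟩⟩⟩, ⟨⟨⟨⟨⟨⟨⟨H _ t663.2.2.2.2.2.2.1, H _ t663.2.2.2.2.2.2.2⟩, ⟨H _ t671.1, H _ t671.2.1⟩⟩, ⟨⟨H _ t671.2.2.1, H _ t671.2.2.2.1⟩, ⟨H _ t671.2.2.2.2.1, H _ t671.2.2.2.2.2.1⟩⟩⟩, ⟨⟨⟨H _ t671.2.2.2.2.2.2.1, H _ t671.2.2.2.2.2.2.2⟩, ⟨H _ t679.1, H _ t679.2.1⟩⟩, ⟨⟨H _ t679.2.2.1, H _ t679.2.2.2.1⟩, ⟨H _ t679.2.2.2.2.1, H _ t679.2.2.2.2.2.1⟩⟩⟩⟩, ⟨⟨⟨⟨H _ t679.2.2.2.2.2.2.1, H _ t679.2.2.2.2.2.2.2⟩, ⟨H _ t687.1, H _ t687.2.1⟩⟩, ⟨⟨H _ t687.2.2.1, H _ t687.2.2.2.1⟩, ⟨H _ t687.2.2.2.2.1, H _ t687.2.2.2.2.2.1⟩⟩⟩, ⟨⟨⟨H _ t687.2.2.2.2.2.2.1, H _ t687.2.2.2.2.2.2.2⟩, ⟨H _ t695.1, H _ t695.2.1⟩⟩, ⟨⟨H _ t695.2.2.1, H _ t695.2.2.2.1⟩, ⟨H _ t695.2.2.2.2.1,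 ⟨H _ t695.2.2.2.2.2.1, H _ t695.2.2.2.2.2.2.1⟩⟩⟩⟩⟩⟩, ⟨⟨⟨⟨⟨H _ t695.2.2.2.2.2.2.2, H _ t703.1⟩, ⟨H _ t703.2.1, H _ t703.2.2.1⟩⟩, ⟨⟨H _ t703.2.2.2.1, H _ t703.2.2.2.2.1⟩, ⟨H _ t703.2.2.2.2.2.1, H _ t703.2.2.2.2.2.2.1⟩⟩⟩, ⟨⟨⟨H _ t703.2.2.2.2.2.2.2, H _ t711.1⟩, ⟨H _ t711.2.1, H _ t711.2.2.1⟩⟩, ⟨⟨H _ t711.2.2.2.1, H _ t711.2.2.2.2.1⟩, ⟨H _ t711.2.2.2.2.2.1, ⟨H _ t711.2.2.2.2.2.2.1, H _ t711.2.2.2.2.2.2.2⟩⟩⟩⟩⟩, ⟨⟨⟨⟨H _ t719.1, H _ t719.2.1⟩, ⟨H _ t719.2.2.1, H _ t719.2.2.2.1⟩⟩, ⟨⟨H _ t719.2.2.2.2.1, H _ t719.2.2.2.2.2.1⟩, ⟨H _ t719.2.2.2.2.2.2.1, H _ t719.2.2.2.2.2.2.2⟩⟩⟩, ⟨⟨⟨H _ t727.1, H _ t727.2.1⟩, ⟨H _ t727.2.2.1, H _ t727.2.2.2.1⟩⟩, ⟨⟨H _ t727.2.2.2.2.1, H _ t727.2.2.2.2.2.1⟩, ⟨H _ t727.2.2.2.2.2.2.1, ⟨H _ t727.2.2.2.2.2.2.2, H _ t735.1⟩⟩⟩⟩⟩⟩⟩, ⟨⟨⟨⟨⟨⟨H _ t735.2.1, H _ t735.2.2.1⟩, ⟨H _ t735.2.2.2.1, H _ t735.2.2.2.2.1⟩⟩, ⟨⟨H _ t735.2.2.2.2.2.1, H _ t735.2.2.2.2.2.2.1⟩, ⟨H _ t735.2.2.2.2.2.2.2,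 H _ t743.1⟩⟩⟩, ⟨⟨⟨H _ t743.2.1, H _ t743.2.2.1⟩, ⟨H _ t743.2.2.2.1, H _ t743.2.2.2.2.1⟩⟩, ⟨⟨H _ t743.2.2.2.2.2.1, H _ t743.2.2.2.2.2.2.1⟩, ⟨H _ t743.2.2.2.2.2.2.2, ⟨H _ t751.1, H _ t751.2.1⟩⟩⟩⟩⟩, ⟨⟨⟨⟨H _ t751.2.2.1, H _ t751.2.2.2.1⟩, ⟨H _ t751.2.2.2.2.1, H _ t751.2.2.2.2.2.1⟩⟩, ⟨⟨H _ t751.2.2.2.2.2.2.1, H _ t751.2.2.2.2.2.2.2⟩, ⟨H _ t759.1, H _ t759.2.1⟩⟩⟩, ⟨⟨⟨H _ t759.2.2.1, H _ t759.2.2.2.1⟩, ⟨H _ t759.2.2.2.2.1, H _ t759.2.2.2.2.2.1⟩⟩, ⟨⟨H _ t759.2.2.2.2.2.2.1, H _ t759.2.2.2.2.2.2.2⟩, ⟨H _ t767.1, ⟨H _ t767.2.1, H _ t767.2.2.1⟩⟩⟩⟩⟩⟩, ⟨⟨⟨⟨⟨H _ t767.2.2.2.1, H _ t767.2.2.2.2.1⟩, ⟨H _ t767.2.2.2.2.2.1, H _ t767.2.2.2.2.2.2.1⟩⟩, ⟨⟨H _ t767.2.2.2.2.2.2.2, H _ t775.1⟩, ⟨H _ t775.2.1, H _ t775.2.2.1⟩⟩⟩, ⟨⟨⟨H _ t775.2.2.2.1, H _ t775.2.2.2.2.1⟩, ⟨H _ t775.2.2.2.2.2.1, H _ t775.2.2.2.2.2.2.1⟩⟩, ⟨⟨H _ t775.2.2.2.2.2.2.2, H _ t783.1⟩, ⟨H _ t783.2.1, ⟨H _ t783.2.2.1, H _ t783.2.2.2.1⟩⟩⟩⟩⟩,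 ⟨⟨⟨⟨H _ t783.2.2.2.2.1, H _ t783.2.2.2.2.2.1⟩, ⟨H _ t783.2.2.2.2.2.2.1, H _ t783.2.2.2.2.2.2.2⟩⟩, ⟨⟨H _ t791.1, H _ t791.2.1⟩, ⟨H _ t791.2.2.1, H _ t791.2.2.2.1⟩⟩⟩, ⟨⟨⟨H _ t791.2.2.2.2.1, H _ t791.2.2.2.2.2.1⟩, ⟨H _ t791.2.2.2.2.2.2.1, H _ t791.2.2.2.2.2.2.2⟩⟩, ⟨⟨H _ t799.1, H _ t799.2.1⟩, ⟨H _ t799.2.2.1, ⟨H _ t799.2.2.2.1, H _ t799.2.2.2.2.1⟩⟩⟩⟩⟩⟩⟩⟩⟩, ⟨⟨⟨⟨⟨⟨⟨⟨H _ t799.2.2.2.2.2.1, H _ t799.2.2.2.2.2.2.1⟩, ⟨H _ t799.2.2.2.2.2.2.2, H _ t807.1⟩⟩, ⟨⟨H _ t807.2.1, H _ t807.2.2.1⟩, ⟨H _ t807.2.2.2.1, H _ t807.2.2.2.2.1⟩⟩⟩, ⟨⟨⟨H _ t807.2.2.2.2.2.1, H _ t807.2.2.2.2.2.2.1⟩, ⟨H _ t807.2.2.2.2.2.2.2, H _ t815.1⟩⟩, ⟨⟨H _ t815.2.1, H _ t815.2.2.1⟩, ⟨H _ t815.2.2.2.1, H _ t815.2.2.2.2.1⟩⟩⟩⟩, ⟨⟨⟨⟨H _ t815.2.2.2.2.2.1, H _ t815.2.2.2.2.2.2.1⟩, ⟨H _ t815.2.2.2.2.2.2.2, H _ t823.1⟩⟩, ⟨⟨H _ t823.2.1, H _ t823.2.2.1⟩, ⟨H _ t823.2.2.2.1, H _ t823.2.2.2.2.1⟩⟩⟩, ⟨⟨⟨H _ t823.2.2.2.2.2.1, H _ t823.2.2.2.2.2.2.1⟩,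 ⟨H _ t823.2.2.2.2.2.2.2, H _ t831.1⟩⟩, ⟨⟨H _ t831.2.1, H _ t831.2.2.1⟩, ⟨H _ t831.2.2.2.1, ⟨H _ t831.2.2.2.2.1, H _ t831.2.2.2.2.2.1⟩⟩⟩⟩⟩⟩, ⟨⟨⟨⟨⟨H _ t831.2.2.2.2.2.2.1, H _ t831.2.2.2.2.2.2.2⟩, ⟨H _ t839.1, H _ t839.2.1⟩⟩, ⟨⟨H _ t839.2.2.1, H _ t839.2.2.2.1⟩, ⟨H _ t839.2.2.2.2.1, H _ t839.2.2.2.2.2.1⟩⟩⟩, ⟨⟨⟨H _ t839.2.2.2.2.2.2.1, H _ t839.2.2.2.2.2.2.2⟩, ⟨H _ t847.1, H _ t847.2.1⟩⟩, ⟨⟨H _ t847.2.2.1, H _ t847.2.2.2.1⟩, ⟨H _ t847.2.2.2.2.1, ⟨H _ t847.2.2.2.2.2.1, H _ t847.2.2.2.2.2.2.1⟩⟩⟩⟩⟩, ⟨⟨⟨⟨H _ t847.2.2.2.2.2.2.2, H _ t855.1⟩, ⟨H _ t855.2.1, H _ t855.2.2.1⟩⟩, ⟨⟨H _ t855.2.2.2.1, H _ t855.2.2.2.2.1⟩, ⟨H _ t855.2.2.2.2.2.1, H _ t855.2.2.2.2.2.2.1⟩⟩⟩, ⟨⟨⟨H _ t855.2.2.2.2.2.2.2, H _ t863.1⟩, ⟨H _ t863.2.1, H _ t863.2.2.1⟩⟩, ⟨⟨H _ t863.2.2.2.1, H _ t863.2.2.2.2.1⟩, ⟨H _ t863.2.2.2.2.2.1, ⟨H _ t863.2.2.2.2.2.2.1, H _ t863.2.2.2.2.2.2.2⟩⟩⟩⟩⟩⟩⟩, ⟨⟨⟨⟨⟨⟨H _ t871.1, H _ t871.2.1⟩, ⟨H _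 t871.2.2.1, H _ t871.2.2.2.1⟩⟩, ⟨⟨H _ t871.2.2.2.2.1, H _ t871.2.2.2.2.2.1⟩, ⟨H _ t871.2.2.2.2.2.2.1, H _ t871.2.2.2.2.2.2.2⟩⟩⟩, ⟨⟨⟨H _ t879.1, H _ t879.2.1⟩, ⟨H _ t879.2.2.1, H _ t879.2.2.2.1⟩⟩, ⟨⟨H _ t879.2.2.2.2.1, H _ t879.2.2.2.2.2.1⟩, ⟨H _ t879.2.2.2.2.2.2.1, H _ t879.2.2.2.2.2.2.2⟩⟩⟩⟩, ⟨⟨⟨⟨H _ t887.1, H _ t887.2.1⟩, ⟨H _ t887.2.2.1, H _ t887.2.2.2.1⟩⟩, ⟨⟨H _ t887.2.2.2.2.1, H _ t887.2.2.2.2.2.1⟩, ⟨H _ t887.2.2.2.2.2.2.1, H _ t887.2.2.2.2.2.2.2⟩⟩⟩, ⟨⟨⟨H _ t895.1, H _ t895.2.1⟩, ⟨H _ t895.2.2.1, H _ t895.2.2.2.1⟩⟩, ⟨⟨H _ t895.2.2.2.2.1, H _ t895.2.2.2.2.2.1⟩, ⟨H _ t895.2.2.2.2.2.2.1, ⟨H _ t895.2.2.2.2.2.2.2, H _ t903.1⟩⟩⟩⟩⟩⟩, ⟨⟨⟨⟨⟨H _ t903.2.1, H _ t903.2.2.1⟩, ⟨H _ t903.2.2.2.1, H _ t903.2.2.2.2.1⟩⟩, ⟨⟨H _ t903.2.2.2.2.2.1, H _ t903.2.2.2.2.2.2.1⟩, ⟨H _ t903.2.2.2.2.2.2.2, H _ t911.1⟩⟩⟩, ⟨⟨⟨H _ t911.2.1, H _ t911.2.2.1⟩, ⟨H _ t911.2.2.2.1, H _ t911.2.2.2.2.1⟩⟩, ⟨⟨H _ t911.2.2.2.2.2.1,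 H _ t911.2.2.2.2.2.2.1⟩, ⟨H _ t911.2.2.2.2.2.2.2, ⟨H _ t919.1, H _ t919.2.1⟩⟩⟩⟩⟩, ⟨⟨⟨⟨H _ t919.2.2.1, H _ t919.2.2.2.1⟩, ⟨H _ t919.2.2.2.2.1, H _ t919.2.2.2.2.2.1⟩⟩, ⟨⟨H _ t919.2.2.2.2.2.2.1, H _ t919.2.2.2.2.2.2.2⟩, ⟨H _ t927.1, H _ t927.2.1⟩⟩⟩, ⟨⟨⟨H _ t927.2.2.1, H _ t927.2.2.2.1⟩, ⟨H _ t927.2.2.2.2.1, H _ t927.2.2.2.2.2.1⟩⟩, ⟨⟨H _ t927.2.2.2.2.2.2.1, H _ t927.2.2.2.2.2.2.2⟩, ⟨H _ t935.1, ⟨H _ t935.2.1, H _ t935.2.2.1⟩⟩⟩⟩⟩⟩⟩⟩, ⟨⟨⟨⟨⟨⟨⟨H _ t935.2.2.2.1, H _ t935.2.2.2.2.1⟩, ⟨H _ t935.2.2.2.2.2.1, H _ t935.2.2.2.2.2.2.1⟩⟩, ⟨⟨H _ t935.2.2.2.2.2.2.2, H _ t943.1⟩, ⟨H _ t943.2.1, H _ t943.2.2.1⟩⟩⟩, ⟨⟨⟨H _ t943.2.2.2.1, H _ t943.2.2.2.2.1⟩, ⟨H _ t943.2.2.2.2.2.1, H _ t943.2.2.2.2.2.2.1⟩⟩, ⟨⟨H _ t943.2.2.2.2.2.2.2, H _ t951.1⟩, ⟨H _ t951.2.1, H _ t951.2.2.1⟩⟩⟩⟩, ⟨⟨⟨⟨H _ t951.2.2.2.1, H _ t951.2.2.2.2.1⟩, ⟨H _ t951.2.2.2.2.2.1, H _ t951.2.2.2.2.2.2.1⟩⟩, ⟨⟨H _ t951.2.2.2.2.2.2.2, H _ t959.1⟩,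 ⟨H _ t959.2.1, H _ t959.2.2.1⟩⟩⟩, ⟨⟨⟨H _ t959.2.2.2.1, H _ t959.2.2.2.2.1⟩, ⟨H _ t959.2.2.2.2.2.1, H _ t959.2.2.2.2.2.2.1⟩⟩, ⟨⟨H _ t959.2.2.2.2.2.2.2, H _ t967.1⟩, ⟨H _ t967.2.1, ⟨H _ t967.2.2.1, H _ t967.2.2.2.1⟩⟩⟩⟩⟩⟩, ⟨⟨⟨⟨⟨H _ t967.2.2.2.2.1, H _ t967.2.2.2.2.2.1⟩, ⟨H _ t967.2.2.2.2.2.2.1, H _ t967.2.2.2.2.2.2.2⟩⟩, ⟨⟨H _ t975.1, H _ t975.2.1⟩, ⟨H _ t975.2.2.1, H _ t975.2.2.2.1⟩⟩⟩, ⟨⟨⟨H _ t975.2.2.2.2.1, H _ t975.2.2.2.2.2.1⟩, ⟨H _ t975.2.2.2.2.2.2.1, H _ t975.2.2.2.2.2.2.2⟩⟩, ⟨⟨H _ t983.1, H _ t983.2.1⟩, ⟨H _ t983.2.2.1, ⟨H _ t983.2.2.2.1, H _ t983.2.2.2.2.1⟩⟩⟩⟩⟩, ⟨⟨⟨⟨H _ t983.2.2.2.2.2.1, H _ t983.2.2.2.2.2.2.1⟩, ⟨H _ t983.2.2.2.2.2.2.2, H _ t991.1⟩⟩, ⟨⟨H _ t991.2.1, H _ t991.2.2.1⟩, ⟨H _ t991.2.2.2.1, H _ t991.2.2.2.2.1⟩⟩⟩, ⟨⟨⟨H _ t991.2.2.2.2.2.1, H _ t991.2.2.2.2.2.2.1⟩, ⟨H _ t991.2.2.2.2.2.2.2, H _ t999.1⟩⟩, ⟨⟨H _ t999.2.1, H _ t999.2.2.1⟩, ⟨H _ t999.2.2.2.1, ⟨H _ t999.2.2.2.2.1,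 H _ t999.2.2.2.2.2.1⟩⟩⟩⟩⟩⟩⟩, ⟨⟨⟨⟨⟨⟨H _ t999.2.2.2.2.2.2.1, H _ t999.2.2.2.2.2.2.2⟩, ⟨H _ t1007.1, H _ t1007.2.1⟩⟩, ⟨⟨H _ t1007.2.2.1, H _ t1007.2.2.2.1⟩, ⟨H _ t1007.2.2.2.2.1, H _ t1007.2.2.2.2.2.1⟩⟩⟩, ⟨⟨⟨H _ t1007.2.2.2.2.2.2.1, H _ t1007.2.2.2.2.2.2.2⟩, ⟨H _ t1015.1, H _ t1015.2.1⟩⟩, ⟨⟨H _ t1015.2.2.1, H _ t1015.2.2.2.1⟩, ⟨H _ t1015.2.2.2.2.1, ⟨H _ t1015.2.2.2.2.2.1, H _ t1015.2.2.2.2.2.2.1⟩⟩⟩⟩⟩, ⟨⟨⟨⟨H _ t1015.2.2.2.2.2.2.2, H _ t1023.1⟩, ⟨H _ t1023.2.1, H _ t1023.2.2.1⟩⟩, ⟨⟨H _ t1023.2.2.2.1, H _ t1023.2.2.2.2.1⟩, ⟨H _ t1023.2.2.2.2.2.1, H _ t1023.2.2.2.2.2.2.1⟩⟩⟩, ⟨⟨⟨H _ t1023.2.2.2.2.2.2.2, H _ t1031.1⟩, ⟨H _ t1031.2.1, H _ t1031.2.2.1⟩⟩, ⟨⟨H _ t1031.2.2.2.1, H _ t1031.2.2.2.2.1⟩, ⟨H _ t1031.2.2.2.2.2.1, ⟨H _ t1031.2.2.2.2.2.2.1, H _ t1031.2.2.2.2.2.2.2⟩⟩⟩⟩⟩⟩, ⟨⟨⟨⟨⟨H _ t1039.1, H _ t1039.2.1⟩, ⟨H _ t1039.2.2.1, H _ t1039.2.2.2.1⟩⟩, ⟨⟨H _ t1039.2.2.2.2.1, H _ t1039.2.2.2.2.2.1⟩,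 ⟨H _ t1039.2.2.2.2.2.2.1, H _ t1039.2.2.2.2.2.2.2⟩⟩⟩, ⟨⟨⟨H _ t1047.1, H _ t1047.2.1⟩, ⟨H _ t1047.2.2.1, H _ t1047.2.2.2.1⟩⟩, ⟨⟨H _ t1047.2.2.2.2.1, H _ t1047.2.2.2.2.2.1⟩, ⟨H _ t1047.2.2.2.2.2.2.1, ⟨H _ t1047.2.2.2.2.2.2.2, H _ t1055.1⟩⟩⟩⟩⟩, ⟨⟨⟨⟨H _ t1055.2.1, H _ t1055.2.2.1⟩, ⟨H _ t1055.2.2.2.1, H _ t1055.2.2.2.2.1⟩⟩, ⟨⟨H _ t1055.2.2.2.2.2.1, H _ t1055.2.2.2.2.2.2.1⟩, ⟨H _ t1055.2.2.2.2.2.2.2, H _ t1063.1⟩⟩⟩, ⟨⟨⟨H _ t1063.2.1, H _ t1063.2.2.1⟩, ⟨H _ t1063.2.2.2.1, H _ t1063.2.2.2.2.1⟩⟩, ⟨⟨H _ t1063.2.2.2.2.2.1, H _ t1063.2.2.2.2.2.2.1⟩, ⟨H _ t1063.2.2.2.2.2.2.2, ⟨H _ t1071.1, H _ t1071.2⟩⟩⟩⟩⟩⟩⟩⟩⟩⟩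

end Pool.Agent.MP_c853c5_nt.X.C4950
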