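import Pool.Agent.MP_c853c5_nt.X.C4950.Env
import Pool.Agent.MP_c853c5_nt.X.C4950.D2

set_option autoImplicit false
set_option maxRecDepth 8192
set_option linter.all false

namespace Pool.Agent.MP_c853c5_nt.X.C4950

open Pool.Agent.MP_c853c5_nt.X

def t5571 : allY (E.wth (lkp [])) l5571 = true ∧
    allY (E.wth (lkp [])) l5572 = true ∧
    allY (E.wth (lkp [])) l5573 = true ∧
    allY (E.wth (lkp [])) l5574 = true ∧
    allY (E.wth (lkp [])) l5575 = true ∧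
    allY (E.wth (lkp [])) l5576 = true ∧
    allY (E.wth (lkp [])) l5577 = true ∧
    allY (E.wth (lkp [])) l5578 = true :=
  ⟨by decide +kernel, by decide +kernel, by decide +kernel, by decide +kernel, by decide +kernel, by decide +kernel, by decide +kernel, by decide +kernel⟩

def t5579 : allY (E.wth (lkp [])) l5579 = true ∧
    allY (E.wth (lkp [])) l5580 = true ∧
    allY (E.wth (lkp [])) l5581 = true ∧
    allY (E.wth (lkp [])) l5582 = true ∧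
    allY (E.wth (lkp [])) l5583 = true ∧
    allY (E.wth (lkp [])) l5584 = true ∧
    allY (E.wth (lkp [])) l5585 = true ∧
    allY (E.wth (lkp [])) l5586 = true :=
  ⟨by decide +kernel, by decide +kernel, by decide +kernel, by decide +kernel, by decide +kernel, by decide +kernel, by decide +kernel, by decide +kernel⟩

def t5587 : allY (E.wth (lkp [])) l5587 = true ∧
    allY (E.wth (lkp [])) l5588 = true ∧
    allY (E.wth (lkp [])) l5589 = true ∧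
    allY (E.wth (lkp [])) l5590 = true ∧
    allY (E.wth (lkp [])) l5591 = true ∧
    allY (E.wth (lkp [])) l5592 = true ∧
    allY (E.wth (lkp [])) l5593 = true ∧
    allY (E.wth (lkp [])) l5594 = true :=
  ⟨by decide +kernel, by decide +kernel, by decide +kernel, by decide +kernel, by decide +kernel, by decide +kernel, by decide +kernel, by decide +kernel⟩

def t5595 : allY (E.wth (lkp [])) l5595 = true ∧
    allY (E.wth (lkp [])) l5596 = true ∧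
    allY (E.wth (lkp [])) l5597 = true ∧
    allY (E.wth (lkp [])) l5598 = true ∧
    allY (E.wth (lkp [])) l5599 = true ∧
    allY (E.wth (lkp [])) l5600 = true ∧
    allY (E.wth (lkp [])) l5601 = true ∧
    allY (E.wth (lkp [])) l5602 = true :=
  ⟨by decide +kernel, by decide +kernel, by decide +kernel, by decide +kernel, by decide +kernel, by decide +kernel, by decide +kernel, by decide +kernel⟩

def t5603 : allY (E.wth (lkp [])) l5603 = true ∧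
    allY (E.wth (lkp [])) l5604 = true ∧
    allY (E.wth (lkp [])) l5605 = true ∧
    allY (E.wth (lkp [])) l5606 = true ∧
    allY (E.wth (lkp [])) l5607 = true ∧
    allY (E.wth (lkp [])) l5608 = true ∧
    allY (E.wth (lkp [])) l5609 = true ∧
    allY (E.wth (lkp [])) l5610 = true :=
  ⟨by decide +kernel, by decide +kernel, by decide +kernel, by decide +kernel, by decide +kernel, by decide +kernel, by decide +kernel, by decide +kernel⟩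

def t5611 : allY (E.wth (lkp [])) l5611 = true ∧
    allY (E.wth (lkp [])) l5612 = true ∧
    allY (E.wth (lkp [])) l5613 = true ∧
    allY (E.wth (lkp [])) l5614 = true ∧
    allY (E.wth (lkp [])) l5615 = true ∧
    allY (E.wth (lkp [])) l5616 = true ∧
    allY (E.wth (lkp [])) l5617 = true ∧
    allY (E.wth (lkp [])) l5618 = true :=
  ⟨by decide +kernel, by decide +kernel, by decide +kernel, by decide +kernel, by decide +kernel, by decide +kernel, by decide +kernel, by decide +kernel⟩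

def t5619 : allY (E.wth (lkp [])) l5619 = true ∧
    allY (E.wth (lkp [])) l5620 = true ∧
    allY (E.wth (lkp [])) l5621 = true ∧
    allY (E.wth (lkp [])) l5622 = true ∧
    allY (E.wth (lkp [])) l5623 = true ∧
    allY (E.wth (lkp [])) l5624 = true ∧
    allY (E.wth (lkp [])) l5625 = true ∧
    allY (E.wth (lkp [])) l5626 = true :=
  ⟨by decide +kernel, by decide +kernel, by decide +kernel, by decide +kernel, by decide +kernel, by decide +kernel, by decide +kernel, by decide +kernel⟩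

def t5627 : allY (E.wth (lkp [])) l5627 = true ∧
    allY (E.wth (lkp [])) l5628 = true ∧
    allY (E.wth (lkp [])) l5629 = true ∧
    allY (E.wth (lkp [])) l5630 = true ∧
    allY (E.wth (lkp [])) l5631 = true ∧
    allY (E.wth (lkp [])) l5632 = true ∧
    allY (E.wth (lkp [])) l5633 = true ∧
    allY (E.wth (lkp [])) l5634 = true :=
  ⟨by decide +kernel, by decide +kernel, by decide +kernel, by decide +kernel, by decide +kernel, by decide +kernel, by decide +kernel, by decide +kernel⟩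

def t5635 : allY (E.wth (lkp [])) l5635 = true ∧
    allY (E.wth (lkp [])) l5636 = true ∧
    allY (E.wth (lkp [])) l5637 = true ∧
    allY (E.wth (lkp [])) l5638 = true ∧
    allY (E.wth (lkp [])) l5639 = true ∧
    allY (E.wth (lkp [])) l5640 = true ∧
    allY (E.wth (lkp [])) l5641 = true ∧
    allY (E.wth (lkp [])) l5642 = true :=
  ⟨by decide +kernel, by decide +kernel, by decide +kernel, by decide +kernel, by decide +kernel, by decide +kernel, by decide +kernel, by decide +kernel⟩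

def t5643 : allY (E.wth (lkp [])) l5643 = true ∧
    allY (E.wth (lkp [])) l5644 = true ∧
    allY (E.wth (lkp [])) l5645 = true ∧
    allY (E.wth (lkp [])) l5646 = true ∧
    allY (E.wth (lkp [])) l5647 = true ∧
    allY (E.wth (lkp [])) l5648 = true ∧
    allY (E.wth (lkp [])) l5649 = true ∧
    allY (E.wth (lkp [])) l5650 = true :=
  ⟨by decide +kernel, by decide +kernel, by decide +kernel, by decide +kernel, by decide +kernel, by decide +kernel, by decide +kernel, by decide +kernel⟩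

def t5651 : allY (E.wth (lkp [])) l5651 = true ∧
    allY (E.wth (lkp [])) l5652 = true ∧
    allY (E.wth (lkp [])) l5653 = true ∧
    allY (E.wth (lkp [])) l5654 = true ∧
    allY (E.wth (lkp [])) l5655 = true ∧
    allY (E.wth (lkp [])) l5656 = true ∧
    allY (E.wth (lkp [])) l5657 = true ∧
    allY (E.wth (lkp [])) l5658 = true :=
  ⟨by decide +kernel, by decide +kernel, by decide +kernel, by decide +kernel, by decide +kernel, by decide +kernel, by decide +kernel, by decide +kernel⟩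

def t5659 : allY (E.wth (lkp [])) l5659 = true ∧
    allY (E.wth (lkp [])) l5660 = true ∧
    allY (E.wth (lkp [])) l5661 = true ∧
    allY (E.wth (lkp [])) l5662 = true ∧
    allY (E.wth (lkp [])) l5663 = true ∧
    allY (E.wth (lkp [])) l5664 = true ∧
    allY (E.wth (lkp [])) l5665 = true ∧
    allY (E.wth (lkp [])) l5666 = true :=
  ⟨by decide +kernel, by decide +kernel, by decide +kernel, by decide +kernel, by decide +kernel, by decide +kernel, by decide +kernel, by decide +kernel⟩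

def t5667 : allY (E.wth (lkp [])) l5667 = true ∧
    allY (E.wth (lkp [])) l5668 = true ∧
    allY (E.wth (lkp [])) l5669 = true ∧
    allY (E.wth (lkp [])) l5670 = true ∧
    allY (E.wth (lkp [])) l5671 = true ∧
    allY (E.wth (lkp [])) l5672 = true ∧
    allY (E.wth (lkp [])) l5673 = true ∧
    allY (E.wth (lkp [])) l5674 = true :=
  ⟨by decide +kernel, by decide +kernel, by decide +kernel, by decide +kernel, by decide +kernel, by decide +kernel, by decide +kernel, by decide +kernel⟩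

def t5675 : allY (E.wth (lkp [])) l5675 = true ∧
    allY (E.wth (lkp [])) l5676 = true ∧
    allY (E.wth (lkp [])) l5677 = true ∧
    allY (E.wth (lkp [])) l5678 = true ∧
    allY (E.wth (lkp [])) l5679 = true ∧
    allY (E.wth (lkp [])) l5680 = true ∧
    allY (E.wth (lkp [])) l5681 = true ∧
    allY (E.wth (lkp [])) l5682 = true :=
  ⟨by decide +kernel, by decide +kernel, by decide +kernel, by decide +kernel, by decide +kernel, by decide +kernel, by decide +kernel, by decide +kernel⟩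

def t5683 : allY (E.wth (lkp [])) l5683 = true ∧
    allY (E.wth (lkp [])) l5684 = true ∧
    allY (E.wth (lkp [])) l5685 = true ∧
    allY (E.wth (lkp [])) l5686 = true ∧
    allY (E.wth (lkp [])) l5687 = true ∧
    allY (E.wth (lkp [])) l5688 = true ∧
    allY (E.wth (lkp [])) l5689 = true ∧
    allY (E.wth (lkp [])) l5690 = true :=
  ⟨by decide +kernel, by decide +kernel, by decide +kernel, by decide +kernel, by decide +kernel, by decide +kernel, by decide +kernel, by decide +kernel⟩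

def t5691 : allY (E.wth (lkp [])) l5691 = true ∧
    allY (E.wth (lkp [])) l5692 = true ∧
    allY (E.wth (lkp [])) l5693 = true ∧
    allY (E.wth (lkp [])) l5694 = true ∧
    allY (E.wth (lkp [])) l5695 = true ∧
    allY (E.wth (lkp [])) l5696 = true ∧
    allY (E.wth (lkp [])) l5697 = true ∧
    allY (E.wth (lkp [])) l5698 = true :=
  ⟨by decide +kernel, by decide +kernel, by decide +kernel, by decide +kernel, by decide +kernel, by decide +kernel, by decide +kernel, by decide +kernel⟩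

def t5699 : allY (E.wth (lkp [])) l5699 = true ∧
    allY (E.wth (lkp [])) l5700 = true ∧
    allY (E.wth (lkp [])) l5701 = true ∧
    allY (E.wth (lkp [])) l5702 = true ∧
    allY (E.wth (lkp [])) l5703 = true ∧
    allY (E.wth (lkp [])) l5704 = true ∧
    allY (E.wth (lkp [])) l5705 = true ∧
    allY (E.wth (lkp [])) l5706 = true :=
  ⟨by decide +kernel, by decide +kernel, by decide +kernel, by decide +kernel, by decide +kernel, by decide +kernel, by decide +kernel, by decide +kernel⟩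

def t5707 : allY (E.wth (lkp [])) l5707 = true ∧
    allY (E.wth (lkp [])) l5708 = true ∧
    allY (E.wth (lkp [])) l5709 = true ∧
    allY (E.wth (lkp [])) l5710 = true ∧
    allY (E.wth (lkp [])) l5711 = true ∧
    allY (E.wth (lkp [])) l5712 = true ∧
    allY (E.wth (lkp [])) l5713 = true ∧
    allY (E.wth (lkp [])) l5714 = true :=
  ⟨by decide +kernel, by decide +kernel, by decide +kernel, by decide +kernel, by decide +kernel, by decide +kernel, by decide +kernel, by decide +kernel⟩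

def t5715 : allY (E.wth (lkp [])) l5715 = true ∧
    allY (E.wth (lkp [])) l5716 = true ∧
    allY (E.wth (lkp [])) l5717 = true ∧
    allY (E.wth (lkp [])) l5718 = true ∧
    allY (E.wth (lkp [])) l5719 = true ∧
    allY (E.wth (lkp [])) l5720 = true ∧
    allY (E.wth (lkp [])) l5721 = true ∧
    allY (E.wth (lkp [])) l5722 = true :=
  ⟨by decide +kernel, by decide +kernel, by decide +kernel, by decide +kernel, by decide +kernel, by decide +kernel, by decide +kernel, by decide +kernel⟩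

def t5723 : allY (E.wth (lkp [])) l5723 = true ∧
    allY (E.wth (lkp [])) l5724 = true ∧
    allY (E.wth (lkp [])) l5725 = true ∧
    allY (E.wth (lkp [])) l5726 = true ∧
    allY (E.wth (lkp [])) l5727 = true ∧
    allY (E.wth (lkp [])) l5728 = true ∧
    allY (E.wth (lkp [])) l5729 = true ∧
    allY (E.wth (lkp [])) l5730 = true :=
  ⟨by decide +kernel, by decide +kernel, by decide +kernel, by decide +kernel, by decide +kernel, by decide +kernel, by decide +kernel, by decide +kernel⟩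

def t5731 : allY (E.wth (lkp [])) l5731 = true ∧
    allY (E.wth (lkp [])) l5732 = true ∧
    allY (E.wth (lkp [])) l5733 = true ∧
    allY (E.wth (lkp [])) l5734 = true ∧
    allY (E.wth (lkp [])) l5735 = true ∧
    allY (E.wth (lkp [])) l5736 = true ∧
    allY (E.wth (lkp [])) l5737 = true ∧
    allY (E.wth (lkp [])) l5738 = true :=
  ⟨by decide +kernel, by decide +kernel, by decide +kernel, by decide +kernel, by decide +kernel, by decide +kernel, by decide +kernel, by decide +kernel⟩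

def t5739 : allY (E.wth (lkp [])) l5739 = true ∧
    allY (E.wth (lkp [])) l5740 = true ∧
    allY (E.wth (lkp [])) l5741 = true ∧
    allY (E.wth (lkp [])) l5742 = true ∧
    allY (E.wth (lkp [])) l5743 = true ∧
    allY (E.wth (lkp [])) l5744 = true ∧
    allY (E.wth (lkp [])) l5745 = true ∧
    allY (E.wth (lkp [])) l5746 = true :=
  ⟨by decide +kernel, by decide +kernel, by decide +kernel, by decide +kernel, by decide +kernel, by decide +kernel, by decide +kernel, by decide +kernel⟩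

def t5747 : allY (E.wth (lkp [])) l5747 = true ∧
    allY (E.wth (lkp [])) l5748 = true ∧
    allY (E.wth (lkp [])) l5749 = true ∧
    allY (E.wth (lkp [])) l5750 = true ∧
    allY (E.wth (lkp [])) l5751 = true ∧
    allY (E.wth (lkp [])) l5752 = true ∧
    allY (E.wth (lkp [])) l5753 = true ∧
    allY (E.wth (lkp [])) l5754 = true :=
  ⟨by decide +kernel, by decide +kernel, by decide +kernel, by decide +kernel, by decide +kernel, by decide +kernel, by decide +kernel, by decide +kernel⟩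

def t5755 : allY (E.wth (lkp [])) l5755 = true ∧
    allY (E.wth (lkp [])) l5756 = true ∧
    allY (E.wth (lkp [])) l5757 = true ∧
    allY (E.wth (lkp [])) l5758 = true ∧
    allY (E.wth (lkp [])) l5759 = true ∧
    allY (E.wth (lkp [])) l5760 = true ∧
    allY (E.wth (lkp [])) l5761 = true ∧
    allY (E.wth (lkp [])) l5762 = true :=
  ⟨by decide +kernel, by decide +kernel, by decide +kernel, by decide +kernel, by decide +kernel, by decide +kernel, by decide +kernel, by decide +kernel⟩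

def t5763 : allY (E.wth (lkp [])) l5763 = true ∧
    allY (E.wth (lkp [])) l5764 = true ∧
    allY (E.wth (lkp [])) l5765 = true ∧
    allY (E.wth (lkp [])) l5766 = true ∧
    allY (E.wth (lkp [])) l5767 = true ∧
    allY (E.wth (lkp [])) l5768 = true ∧
    allY (E.wth (lkp [])) l5769 = true ∧
    allY (E.wth (lkp [])) l5770 = true :=
  ⟨by decide +kernel, by decide +kernel, by decide +kernel, by decide +kernel, by decide +kernel, by decide +kernel, by decide +kernel, by decide +kernel⟩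

def t5771 : allY (E.wth (lkp [])) l5771 = true ∧
    allY (E.wth (lkp [])) l5772 = true ∧
    allY (E.wth (lkp [])) l5773 = true ∧
    allY (E.wth (lkp [])) l5774 = true ∧
    allY (E.wth (lkp [])) l5775 = true ∧
    allY (E.wth (lkp [])) l5776 = true ∧
    allY (E.wth (lkp [])) l5777 = true ∧
    allY (E.wth (lkp [])) l5778 = true :=
  ⟨by decide +kernel, by decide +kernel, by decide +kernel, by decide +kernel, by decide +kernel, by decide +kernel, by decide +kernel, by decide +kernel⟩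

def t5779 : allY (E.wth (lkp [])) l5779 = true ∧
    allY (E.wth (lkp [])) l5780 = true ∧
    allY (E.wth (lkp [])) l5781 = true ∧
    allY (E.wth (lkp [])) l5782 = true ∧
    allY (E.wth (lkp [])) l5783 = true ∧
    allY (E.wth (lkp [])) l5784 = true ∧
    allY (E.wth (lkp [])) l5785 = true ∧
    allY (E.wth (lkp [])) l5786 = true :=
  ⟨by decide +kernel, by decide +kernel, by decide +kernel, by decide +kernel, by decide +kernel, by decide +kernel, by decide +kernel, by decide +kernel⟩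

def t5787 : allY (E.wth (lkp [])) l5787 = true ∧
    allY (E.wth (lkp [])) l5788 = true ∧
    allY (E.wth (lkp [])) l5789 = true ∧
    allY (E.wth (lkp [])) l5790 = true ∧
    allY (E.wth (lkp [])) l5791 = true ∧
    allY (E.wth (lkp [])) l5792 = true ∧
    allY (E.wth (lkp [])) l5793 = true ∧
    allY (E.wth (lkp [])) l5794 = true :=
  ⟨by decide +kernel, by decide +kernel, by decide +kernel, by decide +kernel, by decide +kernel, by decide +kernel, by decide +kernel, by decide +kernel⟩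

def t5795 : allY (E.wth (lkp [])) l5795 = true ∧
    allY (E.wth (lkp [])) l5796 = true ∧
    allY (E.wth (lkp [])) l5797 = true ∧
    allY (E.wth (lkp [])) l5798 = true ∧
    allY (E.wth (lkp [])) l5799 = true ∧
    allY (E.wth (lkp [])) l5800 = true ∧
    allY (E.wth (lkp [])) l5801 = true ∧
    allY (E.wth (lkp [])) l5802 = true :=
  ⟨by decide +kernel, by decide +kernel, by decide +kernel, by decide +kernel, by decide +kernel, by decide +kernel, by decide +kernel, by decide +kernel⟩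

def t5803 : allY (E.wth (lkp [])) l5803 = true ∧
    allY (E.wth (lkp [])) l5804 = true ∧
    allY (E.wth (lkp [])) l5805 = true ∧
    allY (E.wth (lkp [])) l5806 = true ∧
    allY (E.wth (lkp [])) l5807 = true ∧
    allY (E.wth (lkp [])) l5808 = true ∧
    allY (E.wth (lkp [])) l5809 = true ∧
    allY (E.wth (lkp [])) l5810 = true :=
  ⟨by decide +kernel, by decide +kernel, by decide +kernel, by decide +kernel, by decide +kernel, by decide +kernel, by decide +kernel, by decide +kernel⟩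

def t5811 : allY (E.wth (lkp [])) l5811 = true ∧
    allY (E.wth (lkp [])) l5812 = true ∧
    allY (E.wth (lkp [])) l5813 = true ∧
    allY (E.wth (lkp [])) l5814 = true ∧
    allY (E.wth (lkp [])) l5815 = true ∧
    allY (E.wth (lkp [])) l5816 = true ∧
    allY (E.wth (lkp [])) l5817 = true ∧
    allY (E.wth (lkp [])) l5818 = true :=
  ⟨by decide +kernel, by decide +kernel, by decide +kernel, by decide +kernel, by decide +kernel, by decide +kernel, by decide +kernel, by decide +kernel⟩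

def t5819 : allY (E.wth (lkp [])) l5819 = true ∧
    allY (E.wth (lkp [])) l5820 = true ∧
    allY (E.wth (lkp [])) l5821 = true ∧
    allY (E.wth (lkp [])) l5822 = true ∧
    allY (E.wth (lkp [])) l5823 = true ∧
    allY (E.wth (lkp [])) l5824 = true ∧
    allY (E.wth (lkp [])) l5825 = true ∧
    allY (E.wth (lkp [])) l5826 = true :=
  ⟨by decide +kernel, by decide +kernel, by decide +kernel, by decide +kernel, by decide +kernel, by decide +kernel, by decide +kernel, by decide +kernel⟩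

def t5827 : allY (E.wth (lkp [])) l5827 = true ∧
    allY (E.wth (lkp [])) l5828 = true ∧
    allY (E.wth (lkp [])) l5829 = true ∧
    allY (E.wth (lkp [])) l5830 = true ∧
    allY (E.wth (lkp [])) l5831 = true ∧
    allY (E.wth (lkp [])) l5832 = true ∧
    allY (E.wth (lkp [])) l5833 = true ∧
    allY (E.wth (lkp [])) l5834 = true :=
  ⟨by decide +kernel, by decide +kernel, by decide +kernel, by decide +kernel, by decide +kernel, by decide +kernel, by decide +kernel, by decide +kernel⟩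

def t5835 : allY (E.wth (lkp [])) l5835 = true ∧
    allY (E.wth (lkp [])) l5836 = true ∧
    allY (E.wth (lkp [])) l5837 = true ∧
    allY (E.wth (lkp [])) l5838 = true ∧
    allY (E.wth (lkp [])) l5839 = true ∧
    allY (E.wth (lkp [])) l5840 = true ∧
    allY (E.wth (lkp [])) l5841 = true ∧
    allY (E.wth (lkp [])) l5842 = true :=
  ⟨by decide +kernel, by decide +kernel, by decide +kernel, by decide +kernel, by decide +kernel, by decide +kernel, by decide +kernel, by decide +kernel⟩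

def t5843 : allY (E.wth (lkp [])) l5843 = true ∧
    allY (E.wth (lkp [])) l5844 = true ∧
    allY (E.wth (lkp [])) l5845 = true ∧
    allY (E.wth (lkp [])) l5846 = true ∧
    allY (E.wth (lkp [])) l5847 = true ∧
    allY (E.wth (lkp [])) l5848 = true ∧
    allY (E.wth (lkp [])) l5849 = true ∧
    allY (E.wth (lkp [])) l5850 = true :=
  ⟨by decide +kernel, by decide +kernel, by decide +kernel, by decide +kernel, by decide +kernel, by decide +kernel, by decide +kernel, by decide +kernel⟩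

def t5851 : allY (E.wth (lkp [])) l5851 = true ∧
    allY (E.wth (lkp [])) l5852 = true ∧
    allY (E.wth (lkp [])) l5853 = true ∧
    allY (E.wth (lkp [])) l5854 = true ∧
    allY (E.wth (lkp [])) l5855 = true ∧
    allY (E.wth (lkp [])) l5856 = true ∧
    allY (E.wth (lkp [])) l5857 = true ∧
    allY (E.wth (lkp [])) l5858 = true :=
  ⟨by decide +kernel, by decide +kernel, by decide +kernel, by decide +kernel, by decide +kernel, by decide +kernel, by decide +kernel, by decide +kernel⟩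

def t5859 : allY (E.wth (lkp [])) l5859 = true ∧
    allY (E.wth (lkp [])) l5860 = true ∧
    allY (E.wth (lkp [])) l5861 = true ∧
    allY (E.wth (lkp [])) l5862 = true ∧
    allY (E.wth (lkp [])) l5863 = true ∧
    allY (E.wth (lkp [])) l5864 = true ∧
    allY (E.wth (lkp [])) l5865 = true ∧
    allY (E.wth (lkp [])) l5866 = true :=
  ⟨by decide +kernel, by decide +kernel, by decide +kernel, by decide +kernel, by decide +kernel, by decide +kernel, by decide +kernel, by decide +kernel⟩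

def t5867 : allY (E.wth (lkp [])) l5867 = true ∧
    allY (E.wth (lkp [])) l5868 = true ∧
    allY (E.wth (lkp [])) l5869 = true ∧
    allY (E.wth (lkp [])) l5870 = true ∧
    allY (E.wth (lkp [])) l5871 = true ∧
    allY (E.wth (lkp [])) l5872 = true ∧
    allY (E.wth (lkp [])) l5873 = true ∧
    allY (E.wth (lkp [])) l5874 = true :=
  ⟨by decide +kernel, by decide +kernel, by decide +kernel, by decide +kernel, by decide +kernel, by decide +kernel, by decide +kernel, by decide +kernel⟩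

def t5875 : allY (E.wth (lkp [])) l5875 = true ∧
    allY (E.wth (lkp [])) l5876 = true ∧
    allY (E.wth (lkp [])) l5877 = true ∧
    allY (E.wth (lkp [])) l5878 = true ∧
    allY (E.wth (lkp [])) l5879 = true ∧
    allY (E.wth (lkp [])) l5880 = true ∧
    allY (E.wth (lkp [])) l5881 = true ∧
    allY (E.wth (lkp [])) l5882 = true :=
  ⟨by decide +kernel, by decide +kernel, by decide +kernel, by decide +kernel, by decide +kernel, by decide +kernel, by decide +kernel, by decide +kernel⟩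

def t5883 : allY (E.wth (lkp [])) l5883 = true ∧
    allY (E.wth (lkp [])) l5884 = true ∧
    allY (E.wth (lkp [])) l5885 = true ∧
    allY (E.wth (lkp [])) l5886 = true ∧
    allY (E.wth (lkp [])) l5887 = true ∧
    allY (E.wth (lkp [])) l5888 = true ∧
    allY (E.wth (lkp [])) l5889 = true ∧
    allY (E.wth (lkp [])) l5890 = true :=
  ⟨by decide +kernel, by decide +kernel, by decide +kernel, by decide +kernel, by decide +kernel, by decide +kernel, by decide +kernel, by decide +kernel⟩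

def t5891 : allY (E.wth (lkp [])) l5891 = true ∧
    allY (E.wth (lkp [])) l5892 = true ∧
    allY (E.wth (lkp [])) l5893 = true ∧
    allY (E.wth (lkp [])) l5894 = true ∧
    allY (E.wth (lkp [])) l5895 = true ∧
    allY (E.wth (lkp [])) l5896 = true ∧
    allY (E.wth (lkp [])) l5897 = true ∧
    allY (E.wth (lkp [])) l5898 = true :=
  ⟨by decide +kernel, by decide +kernel, by decide +kernel, by decide +kernel, by decide +kernel, by decide +kernel, by decide +kernel, by decide +kernel⟩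

def t5899 : allY (E.wth (lkp [])) l5899 = true ∧
    allY (E.wth (lkp [])) l5900 = true ∧
    allY (E.wth (lkp [])) l5901 = true ∧
    allY (E.wth (lkp [])) l5902 = true ∧
    allY (E.wth (lkp [])) l5903 = true ∧
    allY (E.wth (lkp [])) l5904 = true ∧
    allY (E.wth (lkp [])) l5905 = true ∧
    allY (E.wth (lkp [])) l5906 = true :=
  ⟨by decide +kernel, by decide +kernel, by decide +kernel, by decide +kernel, by decide +kernel, by decide +kernel, by decide +kernel, by decide +kernel⟩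

def t5907 : allY (E.wth (lkp [])) l5907 = true ∧
    allY (E.wth (lkp [])) l5908 = true ∧
    allY (E.wth (lkp [])) l5909 = true ∧
    allY (E.wth (lkp [])) l5910 = true ∧
    allY (E.wth (lkp [])) l5911 = true ∧
    allY (E.wth (lkp [])) l5912 = true ∧
    allY (E.wth (lkp [])) l5913 = true ∧
    allY (E.wth (lkp [])) l5914 = true :=
  ⟨by decide +kernel, by decide +kernel, by decide +kernel, by decide +kernel, by decide +kernel, by decide +kernel, by decide +kernel, by decide +kernel⟩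

def t5915 : allY (E.wth (lkp [])) l5915 = true ∧
    allY (E.wth (lkp [])) l5916 = true ∧
    allY (E.wth (lkp [])) l5917 = true ∧
    allY (E.wth (lkp [])) l5918 = true ∧
    allY (E.wth (lkp [])) l5919 = true ∧
    allY (E.wth (lkp [])) l5920 = true ∧
    allY (E.wth (lkp [])) l5921 = true ∧
    allY (E.wth (lkp [])) l5922 = true :=
  ⟨by decide +kernel, by decide +kernel, by decide +kernel, by decide +kernel, by decide +kernel, by decide +kernel, by decide +kernel, by decide +kernel⟩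

def t5923 : allY (E.wth (lkp [])) l5923 = true ∧
    allY (E.wth (lkp [])) l5924 = true ∧
    allY (E.wth (lkp [])) l5925 = true ∧
    allY (E.wth (lkp [])) l5926 = true ∧
    allY (E.wth (lkp [])) l5927 = true ∧
    allY (E.wth (lkp [])) l5928 = true ∧
    allY (E.wth (lkp [])) l5929 = true ∧
    allY (E.wth (lkp [])) l5930 = true :=
  ⟨by decide +kernel, by decide +kernel, by decide +kernel, by decide +kernel, by decide +kernel, by decide +kernel, by decide +kernel, by decide +kernel⟩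

def t5931 : allY (E.wth (lkp [])) l5931 = true ∧
    allY (E.wth (lkp [])) l5932 = true ∧
    allY (E.wth (lkp [])) l5933 = true ∧
    allY (E.wth (lkp [])) l5934 = true ∧
    allY (E.wth (lkp [])) l5935 = true ∧
    allY (E.wth (lkp [])) l5936 = true ∧
    allY (E.wth (lkp [])) l5937 = true ∧
    allY (E.wth (lkp [])) l5938 = true :=
  ⟨by decide +kernel, by decide +kernel, by decide +kernel, by decide +kernel, by decide +kernel, by decide +kernel, by decide +kernel, by decide +kernel⟩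

def t5939 : allY (E.wth (lkp [])) l5939 = true ∧
    allY (E.wth (lkp [])) l5940 = true ∧
    allY (E.wth (lkp [])) l5941 = true ∧
    allY (E.wth (lkp [])) l5942 = true ∧
    allY (E.wth (lkp [])) l5943 = true ∧
    allY (E.wth (lkp [])) l5944 = true ∧
    allY (E.wth (lkp [])) l5945 = true ∧
    allY (E.wth (lkp [])) l5946 = true :=
  ⟨by decide +kernel, by decide +kernel, by decide +kernel, by decide +kernel, by decide +kernel, by decide +kernel, by decide +kernel, by decide +kernel⟩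

def t5947 : allY (E.wth (lkp [])) l5947 = true ∧
    allY (E.wth (lkp [])) l5948 = true ∧
    allY (E.wth (lkp [])) l5949 = true ∧
    allY (E.wth (lkp [])) l5950 = true ∧
    allY (E.wth (lkp [])) l5951 = true ∧
    allY (E.wth (lkp [])) l5952 = true ∧
    allY (E.wth (lkp [])) l5953 = true ∧
    allY (E.wth (lkp [])) l5954 = true :=
  ⟨by decide +kernel, by decide +kernel, by decide +kernel, by decide +kernel, by decide +kernel, by decide +kernel, by decide +kernel, by decide +kernel⟩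

def t5955 : allY (E.wth (lkp [])) l5955 = true ∧
    allY (E.wth (lkp [])) l5956 = true ∧
    allY (E.wth (lkp [])) l5957 = true ∧
    allY (E.wth (lkp [])) l5958 = true ∧
    allY (E.wth (lkp [])) l5959 = true ∧
    allY (E.wth (lkp [])) l5960 = true ∧
    allY (E.wth (lkp [])) l5961 = true ∧
    allY (E.wth (lkp [])) l5962 = true :=
  ⟨by decide +kernel, by decide +kernel, by decide +kernel, by decide +kernel, by decide +kernel, by decide +kernel, by decide +kernel, by decide +kernel⟩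

def t5963 : allY (E.wth (lkp [])) l5963 = true ∧
    allY (E.wth (lkp [])) l5964 = true ∧
    allY (E.wth (lkp [])) l5965 = true ∧
    allY (E.wth (lkp [])) l5966 = true ∧
    allY (E.wth (lkp [])) l5967 = true ∧
    allY (E.wth (lkp [])) l5968 = true ∧
    allY (E.wth (lkp [])) l5969 = true ∧
    allY (E.wth (lkp [])) l5970 = true :=
  ⟨by decide +kernel, by decide +kernel, by decide +kernel, by decide +kernel, by decide +kernel, by decide +kernel, by decide +kernel, by decide +kernel⟩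

def t5971 : allY (E.wth (lkp [])) l5971 = true ∧
    allY (E.wth (lkp [])) l5972 = true ∧
    allY (E.wth (lkp [])) l5973 = true ∧
    allY (E.wth (lkp [])) l5974 = true ∧
    allY (E.wth (lkp [])) l5975 = true ∧
    allY (E.wth (lkp [])) l5976 = true ∧
    allY (E.wth (lkp [])) l5977 = true ∧
    allY (E.wth (lkp [])) l5978 = true :=
  ⟨by decide +kernel, by decide +kernel, by decide +kernel, by decide +kernel, by decide +kernel, by decide +kernel, by decide +kernel, by decide +kernel⟩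

def t5979 : allY (E.wth (lkp [])) l5979 = true ∧
    allY (E.wth (lkp [])) l5980 = true ∧
    allY (E.wth (lkp [])) l5981 = true ∧
    allY (E.wth (lkp [])) l5982 = true ∧
    allY (E.wth (lkp [])) l5983 = true ∧
    allY (E.wth (lkp [])) l5984 = true ∧
    allY (E.wth (lkp [])) l5985 = true ∧
    allY (E.wth (lkp [])) l5986 = true :=
  ⟨by decide +kernel, by decide +kernel, by decide +kernel, by decide +kernel, by decide +kernel, by decide +kernel, by decide +kernel, by decide +kernel⟩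

def t5987 : allY (E.wth (lkp [])) l5987 = true ∧
    allY (E.wth (lkp [])) l5988 = true ∧
    allY (E.wth (lkp [])) l5989 = true ∧
    allY (E.wth (lkp [])) l5990 = true ∧
    allY (E.wth (lkp [])) l5991 = true ∧
    allY (E.wth (lkp [])) l5992 = true ∧
    allY (E.wth (lkp [])) l5993 = true ∧
    allY (E.wth (lkp [])) l5994 = true :=
  ⟨by decide +kernel, by decide +kernel, by decide +kernel, by decide +kernel, by decide +kernel, by decide +kernel, by decide +kernel, by decide +kernel⟩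

def t5995 : allY (E.wth (lkp [])) l5995 = true ∧
    allY (E.wth (lkp [])) l5996 = true ∧
    allY (E.wth (lkp [])) l5997 = true ∧
    allY (E.wth (lkp [])) l5998 = true ∧
    allY (E.wth (lkp [])) l5999 = true ∧
    allY (E.wth (lkp [])) l6000 = true ∧
    allY (E.wth (lkp [])) l6001 = true ∧
    allY (E.wth (lkp [])) l6002 = true :=
  ⟨by decide +kernel, by decide +kernel, by decide +kernel, by decide +kernel, by decide +kernel, by decide +kernel, by decide +kernel, by decide +kernel⟩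

def t6003 : allY (E.wth (lkp [])) l6003 = true ∧
    allY (E.wth (lkp [])) l6004 = true ∧
    allY (E.wth (lkp [])) l6005 = true ∧
    allY (E.wth (lkp [])) l6006 = true ∧
    allY (E.wth (lkp [])) l6007 = true ∧
    allY (E.wth (lkp [])) l6008 = true ∧
    allY (E.wth (lkp [])) l6009 = true ∧
    allY (E.wth (lkp [])) l6010 = true :=
  ⟨by decide +kernel, by decide +kernel, by decide +kernel, by decide +kernel, by decide +kernel, by decide +kernel, by decide +kernel, by decide +kernel⟩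

def t6011 : allY (E.wth (lkp [])) l6011 = true ∧
    allY (E.wth (lkp [])) l6012 = true ∧
    allY (E.wth (lkp [])) l6013 = true ∧
    allY (E.wth (lkp [])) l6014 = true ∧
    allY (E.wth (lkp [])) l6015 = true ∧
    allY (E.wth (lkp [])) l6016 = true ∧
    allY (E.wth (lkp [])) l6017 = true ∧
    allY (E.wth (lkp [])) l6018 = true :=
  ⟨by decide +kernel, by decide +kernel, by decide +kernel, by decide +kernel, by decide +kernel, by decide +kernel, by decide +kernel, by decide +kernel⟩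

def t6019 : allY (E.wth (lkp [])) l6019 = true ∧
    allY (E.wth (lkp [])) l6020 = true ∧
    allY (E.wth (lkp [])) l6021 = true ∧
    allY (E.wth (lkp [])) l6022 = true ∧
    allY (E.wth (lkp [])) l6023 = true ∧
    allY (E.wth (lkp [])) l6024 = true ∧
    allY (E.wth (lkp [])) l6025 = true ∧
    allY (E.wth (lkp [])) l6026 = true :=
  ⟨by decide +kernel, by decide +kernel, by decide +kernel, by decide +kernel, by decide +kernel, by decide +kernel, by decide +kernel, by decide +kernel⟩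

def t6027 : allY (E.wth (lkp [])) l6027 = true ∧
    allY (E.wth (lkp [])) l6028 = true ∧
    allY (E.wth (lkp [])) l6029 = true ∧
    allY (E.wth (lkp [])) l6030 = true ∧
    allY (E.wth (lkp [])) l6031 = true ∧
    allY (E.wth (lkp [])) l6032 = true ∧
    allY (E.wth (lkp [])) l6033 = true ∧
    allY (E.wth (lkp [])) l6034 = true :=
  ⟨by decide +kernel, by decide +kernel, by decide +kernel, by decide +kernel, by decide +kernel, by decide +kernel, by decide +kernel, by decide +kernel⟩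

def t6035 : allY (E.wth (lkp [])) l6035 = true ∧
    allY (E.wth (lkp [])) l6036 = true ∧
    allY (E.wth (lkp [])) l6037 = true ∧
    allY (E.wth (lkp [])) l6038 = true ∧
    allY (E.wth (lkp [])) l6039 = true ∧
    allY (E.wth (lkp [])) l6040 = true ∧
    allY (E.wth (lkp [])) l6041 = true ∧
    allY (E.wth (lkp [])) l6042 = true :=
  ⟨by decide +kernel, by decide +kernel, by decide +kernel, by decide +kernel, by decide +kernel, by decide +kernel, by decide +kernel, by decide +kernel⟩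

def t6043 : allY (E.wth (lkp [])) l6043 = true ∧
    allY (E.wth (lkp [])) l6044 = true ∧
    allY (E.wth (lkp [])) l6045 = true ∧
    allY (E.wth (lkp [])) l6046 = true ∧
    allY (E.wth (lkp [])) l6047 = true ∧
    allY (E.wth (lkp [])) l6048 = true ∧
    allY (E.wth (lkp [])) l6049 = true ∧
    allY (E.wth (lkp [])) l6050 = true :=
  ⟨by decide +kernel, by decide +kernel, by decide +kernel, by decide +kernel, by decide +kernel, by decide +kernel, by decide +kernel, by decide +kernel⟩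

def t6051 : allY (E.wth (lkp [])) l6051 = true ∧
    allY (E.wth (lkp [])) l6052 = true ∧
    allY (E.wth (lkp [])) l6053 = true ∧
    allY (E.wth (lkp [])) l6054 = true ∧
    allY (E.wth (lkp [])) l6055 = true ∧
    allY (E.wth (lkp [])) l6056 = true ∧
    allY (E.wth (lkp [])) l6057 = true ∧
    allY (E.wth (lkp [])) l6058 = true :=
  ⟨by decide +kernel, by decide +kernel, by decide +kernel, by decide +kernel, by decide +kernel, by decide +kernel, by decide +kernel, by decide +kernel⟩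

def t6059 : allY (E.wth (lkp [])) l6059 = true ∧
    allY (E.wth (lkp [])) l6060 = true ∧
    allY (E.wth (lkp [])) l6061 = true ∧
    allY (E.wth (lkp [])) l6062 = true ∧
    allY (E.wth (lkp [])) l6063 = true ∧
    allY (E.wth (lkp [])) l6064 = true ∧
    allY (E.wth (lkp [])) l6065 = true ∧
    allY (E.wth (lkp [])) l6066 = true :=
  ⟨by decide +kernel, by decide +kernel, by decide +kernel, by decide +kernel, by decide +kernel, by decide +kernel, by decide +kernel, by decide +kernel⟩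

def t6067 : allY (E.wth (lkp [])) l6067 = true ∧
    allY (E.wth (lkp [])) l6068 = true ∧
    allY (E.wth (lkp [])) l6069 = true ∧
    allY (E.wth (lkp [])) l6070 = true ∧
    allY (E.wth (lkp [])) l6071 = true ∧
    allY (E.wth (lkp [])) l6072 = true ∧
    allY (E.wth (lkp [])) l6073 = true ∧
    allY (E.wth (lkp [])) l6074 = true :=
  ⟨by decide +kernel, by decide +kernel, by decide +kernel, by decide +kernel, by decide +kernel, by decide +kernel, by decide +kernel, by decide +kernel⟩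

def t6075 : allY (E.wth (lkp [])) l6075 = true ∧
    allY (E.wth (lkp [])) l6076 = true ∧
    allY (E.wth (lkp [])) l6077 = true ∧
    allY (E.wth (lkp [])) l6078 = true ∧
    allY (E.wth (lkp [])) l6079 = true ∧
    allY (E.wth (lkp [])) l6080 = true ∧
    allY (E.wth (lkp [])) l6081 = true ∧
    allY (E.wth (lkp [])) l6082 = true :=
  ⟨by decide +kernel, by decide +kernel, by decide +kernel, by decide +kernel, by decide +kernel, by decide +kernel, by decide +kernel, by decide +kernel⟩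

def t6083 : allY (E.wth (lkp [])) l6083 = true ∧
    allY (E.wth (lkp [])) l6084 = true ∧
    allY (E.wth (lkp [])) l6085 = true ∧
    allY (E.wth (lkp [])) l6086 = true ∧
    allY (E.wth (lkp [])) l6087 = true ∧
    allY (E.wth (lkp [])) l6088 = true ∧
    allY (E.wth (lkp [])) l6089 = true ∧
    allY (E.wth (lkp [])) l6090 = true :=
  ⟨by decide +kernel, by decide +kernel, by decide +kernel, by decide +kernel, by decide +kernel, by decide +kernel, by decide +kernel, by decide +kernel⟩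

def t6091 : allY (E.wth (lkp [])) l6091 = true ∧
    allY (E.wth (lkp [])) l6092 = true ∧
    allY (E.wth (lkp [])) l6093 = true ∧
    allY (E.wth (lkp [])) l6094 = true ∧
    allY (E.wth (lkp [])) l6095 = true ∧
    allY (E.wth (lkp [])) l6096 = true ∧
    allY (E.wth (lkp [])) l6097 = true ∧
    allY (E.wth (lkp [])) l6098 = true :=
  ⟨by decide +kernel, by decide +kernel, by decide +kernel, by decide +kernel, by decide +kernel, by decide +kernel, by decide +kernel, by decide +kernel⟩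

def t6099 : allY (E.wth (lkp [])) l6099 = true ∧
    allY (E.wth (lkp [])) l6100 = true ∧
    allY (E.wth (lkp [])) l6101 = true ∧
    allY (E.wth (lkp [])) l6102 = true ∧
    allY (E.wth (lkp [])) l6103 = true ∧
    allY (E.wth (lkp [])) l6104 = true ∧
    allY (E.wth (lkp [])) l6105 = true ∧
    allY (E.wth (lkp [])) l6106 = true :=
  ⟨by decide +kernel, by decide +kernel, by decide +kernel, by decide +kernel, by decide +kernel, by decide +kernel, by decide +kernel, by decide +kernel⟩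

def t6107 : allY (E.wth (lkp [])) l6107 = true ∧
    allY (E.wth (lkp [])) l6108 = true ∧
    allY (E.wth (lkp [])) l6109 = true ∧
    allY (E.wth (lkp [])) l6110 = true ∧
    allY (E.wth (lkp [])) l6111 = true ∧
    allY (E.wth (lkp [])) l6112 = true ∧
    allY (E.wth (lkp [])) l6113 = true ∧
    allY (E.wth (lkp [])) l6114 = true :=
  ⟨by decide +kernel, by decide +kernel, by decide +kernel, by decide +kernel, by decide +kernel, by decide +kernel, by decide +kernel, by decide +kernel⟩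

def t6115 : allY (E.wth (lkp [])) l6115 = true ∧
    allY (E.wth (lkp [])) l6116 = true ∧
    allY (E.wth (lkp [])) l6117 = true ∧
    allY (E.wth (lkp [])) l6118 = true ∧
    allY (E.wth (lkp [])) l6119 = true ∧
    allY (E.wth (lkp [])) l6120 = true ∧
    allY (E.wth (lkp [])) l6121 = true ∧
    allY (E.wth (lkp [])) l6122 = true :=
  ⟨by decide +kernel, by decide +kernel, by decide +kernel, by decide +kernel, by decide +kernel, by decide +kernel, by decide +kernel, by decide +kernel⟩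

def t6123 : allY (E.wth (lkp [])) l6123 = true ∧
    allY (E.wth (lkp [])) l6124 = true ∧
    allY (E.wth (lkp [])) l6125 = true ∧
    allY (E.wth (lkp [])) l6126 = true ∧
    allY (E.wth (lkp [])) l6127 = true ∧
    allY (E.wth (lkp [])) l6128 = true ∧
    allY (E.wth (lkp [])) l6129 = true ∧
    allY (E.wth (lkp [])) l6130 = true :=
  ⟨by decide +kernel, by decide +kernel, by decide +kernel, by decide +kernel, by decide +kernel, by decide +kernel, by decide +kernel, by decide +kernel⟩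

def t6131 : allY (E.wth (lkp [])) l6131 = true ∧
    allY (E.wth (lkp [])) l6132 = true ∧
    allY (E.wth (lkp [])) l6133 = true ∧
    allY (E.wth (lkp [])) l6134 = true ∧
    allY (E.wth (lkp [])) l6135 = true ∧
    allY (E.wth (lkp [])) l6136 = true :=
  ⟨by decide +kernel, by decide +kernel, by decide +kernel, by decide +kernel, by decide +kernel, by decide +kernel⟩

theorem a10 {p : Rf → Prop} (H : ∀ l, allY (E.wth (lkp [])) l = true → (lkp l).All p) :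
    b10.All p := ⟨⟨⟨⟨⟨⟨⟨⟨⟨H _ t5571.1, H _ t5571.2.1⟩, ⟨H _ t5571.2.2.1, H _ t5571.2.2.2.1⟩⟩, ⟨⟨H _ t5571.2.2.2.2.1, H _ t5571.2.2.2.2.2.1⟩, ⟨H _ t5571.2.2.2.2.2.2.1, H _ t5571.2.2.2.2.2.2.2⟩⟩⟩, ⟨⟨⟨H _ t5579.1, H _ t5579.2.1⟩, ⟨H _ t5579.2.2.1, H _ t5579.2.2.2.1⟩⟩, ⟨⟨H _ t5579.2.2.2.2.1, H _ t5579.2.2.2.2.2.1⟩, ⟨H _ t5579.2.2.2.2.2.2.1, ⟨H _ t5579.2.2.2.2.2.2.2, H _ t5587.1⟩⟩⟩⟩⟩, ⟨⟨⟨⟨H _ t5587.2.1, H _ t5587.2.2.1⟩, ⟨H _ t5587.2.2.2.1, H _ t5587.2.2.2.2.1⟩⟩, ⟨⟨H _ t5587.2.2.2.2.2.1, H _ t5587.2.2.2.2.2.2.1⟩, ⟨H _ t5587.2.2.2.2.2.2.2, ⟨H _ t5595.1, H _ t5595.2.1⟩⟩⟩⟩, ⟨⟨⟨H _ t5595.2.2.1, H _ t5595.2.2.2.1⟩, ⟨H _ t5595.2.2.2.2.1, H _ t5595.2.2.2.2.2.1⟩⟩, ⟨⟨H _ t5595.2.2.2.2.2.2.1, H _ t5595.2.2.2.2.2.2.2⟩, ⟨H _ t5603.1, ⟨H _ t5603.2.1, H _ t5603.2.2.1⟩⟩⟩⟩⟩⟩, ⟨⟨⟨⟨⟨H _ t5603.2.2.2.1, H _ t5603.2.2.2.2.1⟩, ⟨H _ t5603.2.2.2.2.2.1, H _ t5603.2.2.2.2.2.2.1⟩⟩, ⟨⟨H _ t5603.2.2.2.2.2.2.2,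 H _ t5611.1⟩, ⟨H _ t5611.2.1, H _ t5611.2.2.1⟩⟩⟩, ⟨⟨⟨H _ t5611.2.2.2.1, H _ t5611.2.2.2.2.1⟩, ⟨H _ t5611.2.2.2.2.2.1, H _ t5611.2.2.2.2.2.2.1⟩⟩, ⟨⟨H _ t5611.2.2.2.2.2.2.2, H _ t5619.1⟩, ⟨H _ t5619.2.1, ⟨H _ t5619.2.2.1, H _ t5619.2.2.2.1⟩⟩⟩⟩⟩, ⟨⟨⟨⟨H _ t5619.2.2.2.2.1, H _ t5619.2.2.2.2.2.1⟩, ⟨H _ t5619.2.2.2.2.2.2.1, H _ t5619.2.2.2.2.2.2.2⟩⟩, ⟨⟨H _ t5627.1, H _ t5627.2.1⟩, ⟨H _ t5627.2.2.1, ⟨H _ t5627.2.2.2.1, H _ t5627.2.2.2.2.1⟩⟩⟩⟩, ⟨⟨⟨H _ t5627.2.2.2.2.2.1, H _ t5627.2.2.2.2.2.2.1⟩, ⟨H _ t5627.2.2.2.2.2.2.2, H _ t5635.1⟩⟩, ⟨⟨H _ t5635.2.1, H _ t5635.2.2.1⟩, ⟨H _ t5635.2.2.2.1, ⟨H _ t5635.2.2.2.2.1, H _ t5635.2.2.2.2.2.1⟩⟩⟩⟩⟩⟩⟩, ⟨⟨⟨⟨⟨⟨H _ t5635.2.2.2.2.2.2.1, H _ t5635.2.2.2.2.2.2.2⟩, ⟨H _ t5643.1, H _ t5643.2.1⟩⟩, ⟨⟨H _ t5643.2.2.1, H _ t5643.2.2.2.1⟩, ⟨H _ t5643.2.2.2.2.1, H _ t5643.2.2.2.2.2.1⟩⟩⟩, ⟨⟨⟨H _ t5643.2.2.2.2.2.2.1, H _ t5643.2.2.2.2.2.2.2⟩, ⟨H _ t5651.1,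 H _ t5651.2.1⟩⟩, ⟨⟨H _ t5651.2.2.1, H _ t5651.2.2.2.1⟩, ⟨H _ t5651.2.2.2.2.1, ⟨H _ t5651.2.2.2.2.2.1, H _ t5651.2.2.2.2.2.2.1⟩⟩⟩⟩⟩, ⟨⟨⟨⟨H _ t5651.2.2.2.2.2.2.2, H _ t5659.1⟩, ⟨H _ t5659.2.1, H _ t5659.2.2.1⟩⟩, ⟨⟨H _ t5659.2.2.2.1, H _ t5659.2.2.2.2.1⟩, ⟨H _ t5659.2.2.2.2.2.1, ⟨H _ t5659.2.2.2.2.2.2.1, H _ t5659.2.2.2.2.2.2.2⟩⟩⟩⟩, ⟨⟨⟨H _ t5667.1, H _ t5667.2.1⟩, ⟨H _ t5667.2.2.1, H _ t5667.2.2.2.1⟩⟩, ⟨⟨H _ t5667.2.2.2.2.1, H _ t5667.2.2.2.2.2.1⟩, ⟨H _ t5667.2.2.2.2.2.2.1, ⟨H _ t5667.2.2.2.2.2.2.2, H _ t5675.1⟩⟩⟩⟩⟩⟩, ⟨⟨⟨⟨⟨H _ t5675.2.1, H _ t5675.2.2.1⟩, ⟨H _ t5675.2.2.2.1, H _ t5675.2.2.2.2.1⟩⟩, ⟨⟨H _ t5675.2.2.2.2.2.1, H _ t5675.2.2.2.2.2.2.1⟩, ⟨H _ t5675.2.2.2.2.2.2.2, ⟨H _ t5683.1, H _ t5683.2.1⟩⟩⟩⟩, ⟨⟨⟨H _ t5683.2.2.1, H _ t5683.2.2.2.1⟩, ⟨H _ t5683.2.2.2.2.1, H _ t5683.2.2.2.2.2.1⟩⟩, ⟨⟨H _ t5683.2.2.2.2.2.2.1, H _ t5683.2.2.2.2.2.2.2⟩, ⟨H _ t5691.1, ⟨H _ t5691.2.1,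 H _ t5691.2.2.1⟩⟩⟩⟩⟩, ⟨⟨⟨⟨H _ t5691.2.2.2.1, H _ t5691.2.2.2.2.1⟩, ⟨H _ t5691.2.2.2.2.2.1, H _ t5691.2.2.2.2.2.2.1⟩⟩, ⟨⟨H _ t5691.2.2.2.2.2.2.2, H _ t5699.1⟩, ⟨H _ t5699.2.1, ⟨H _ t5699.2.2.1, H _ t5699.2.2.2.1⟩⟩⟩⟩, ⟨⟨⟨H _ t5699.2.2.2.2.1, H _ t5699.2.2.2.2.2.1⟩, ⟨H _ t5699.2.2.2.2.2.2.1, H _ t5699.2.2.2.2.2.2.2⟩⟩, ⟨⟨H _ t5707.1, H _ t5707.2.1⟩, ⟨H _ t5707.2.2.1, ⟨H _ t5707.2.2.2.1, H _ t5707.2.2.2.2.1⟩⟩⟩⟩⟩⟩⟩⟩, ⟨⟨⟨⟨⟨⟨⟨H _ t5707.2.2.2.2.2.1, H _ t5707.2.2.2.2.2.2.1⟩, ⟨H _ t5707.2.2.2.2.2.2.2, H _ t5715.1⟩⟩, ⟨⟨H _ t5715.2.1, H _ t5715.2.2.1⟩, ⟨H _ t5715.2.2.2.1, H _ t5715.2.2.2.2.1⟩⟩⟩, ⟨⟨⟨H _ t5715.2.2.2.2.2.1, H _ t5715.2.2.2.2.2.2.1⟩, ⟨H _ t5715.2.2.2.2.2.2.2, H _ t5723.1⟩⟩, ⟨⟨H _ t5723.2.1, H _ t5723.2.2.1⟩, ⟨H _ t5723.2.2.2.1, ⟨H _ t5723.2.2.2.2.1, H _ t5723.2.2.2.2.2.1⟩⟩⟩⟩⟩, ⟨⟨⟨⟨H _ t5723.2.2.2.2.2.2.1, H _ t5723.2.2.2.2.2.2.2⟩, ⟨H _ t5731.1, H _ t5731.2.1⟩⟩, ⟨⟨H _ t5731.2.2.1,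 H _ t5731.2.2.2.1⟩, ⟨H _ t5731.2.2.2.2.1, ⟨H _ t5731.2.2.2.2.2.1, H _ t5731.2.2.2.2.2.2.1⟩⟩⟩⟩, ⟨⟨⟨H _ t5731.2.2.2.2.2.2.2, H _ t5739.1⟩, ⟨H _ t5739.2.1, H _ t5739.2.2.1⟩⟩, ⟨⟨H _ t5739.2.2.2.1, H _ t5739.2.2.2.2.1⟩, ⟨H _ t5739.2.2.2.2.2.1, ⟨H _ t5739.2.2.2.2.2.2.1, H _ t5739.2.2.2.2.2.2.2⟩⟩⟩⟩⟩⟩, ⟨⟨⟨⟨⟨H _ t5747.1, H _ t5747.2.1⟩, ⟨H _ t5747.2.2.1, H _ t5747.2.2.2.1⟩⟩, ⟨⟨H _ t5747.2.2.2.2.1, H _ t5747.2.2.2.2.2.1⟩, ⟨H _ t5747.2.2.2.2.2.2.1, ⟨H _ t5747.2.2.2.2.2.2.2, H _ t5755.1⟩⟩⟩⟩, ⟨⟨⟨H _ t5755.2.1, H _ t5755.2.2.1⟩, ⟨H _ t5755.2.2.2.1, H _ t5755.2.2.2.2.1⟩⟩, ⟨⟨H _ t5755.2.2.2.2.2.1, H _ t5755.2.2.2.2.2.2.1⟩, ⟨H _ t5755.2.2.2.2.2.2.2, ⟨H _ t5763.1, H _ t5763.2.1⟩⟩⟩⟩⟩, ⟨⟨⟨⟨H _ t5763.2.2.1, H _ t5763.2.2.2.1⟩, ⟨H _ t5763.2.2.2.2.1, H _ t5763.2.2.2.2.2.1⟩⟩, ⟨⟨H _ t5763.2.2.2.2.2.2.1, H _ t5763.2.2.2.2.2.2.2⟩, ⟨H _ t5771.1, ⟨H _ t5771.2.1, H _ t5771.2.2.1⟩⟩⟩⟩, ⟨⟨⟨H _ t5771.2.2.2.1,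 H _ t5771.2.2.2.2.1⟩, ⟨H _ t5771.2.2.2.2.2.1, H _ t5771.2.2.2.2.2.2.1⟩⟩, ⟨⟨H _ t5771.2.2.2.2.2.2.2, H _ t5779.1⟩, ⟨H _ t5779.2.1, ⟨H _ t5779.2.2.1, H _ t5779.2.2.2.1⟩⟩⟩⟩⟩⟩⟩, ⟨⟨⟨⟨⟨⟨H _ t5779.2.2.2.2.1, H _ t5779.2.2.2.2.2.1⟩, ⟨H _ t5779.2.2.2.2.2.2.1, H _ t5779.2.2.2.2.2.2.2⟩⟩, ⟨⟨H _ t5787.1, H _ t5787.2.1⟩, ⟨H _ t5787.2.2.1, H _ t5787.2.2.2.1⟩⟩⟩, ⟨⟨⟨H _ t5787.2.2.2.2.1, H _ t5787.2.2.2.2.2.1⟩, ⟨H _ t5787.2.2.2.2.2.2.1, H _ t5787.2.2.2.2.2.2.2⟩⟩, ⟨⟨H _ t5795.1, H _ t5795.2.1⟩, ⟨H _ t5795.2.2.1, ⟨H _ t5795.2.2.2.1, H _ t5795.2.2.2.2.1⟩⟩⟩⟩⟩, ⟨⟨⟨⟨H _ t5795.2.2.2.2.2.1, H _ t5795.2.2.2.2.2.2.1⟩, ⟨H _ t5795.2.2.2.2.2.2.2, H _ t5803.1⟩⟩, ⟨⟨H _ t5803.2.1, H _ t5803.2.2.1⟩, ⟨H _ t5803.2.2.2.1, ⟨H _ t5803.2.2.2.2.1, H _ t5803.2.2.2.2.2.1⟩⟩⟩⟩, ⟨⟨⟨H _ t5803.2.2.2.2.2.2.1, H _ t5803.2.2.2.2.2.2.2⟩, ⟨H _ t5811.1, H _ t5811.2.1⟩⟩, ⟨⟨H _ t5811.2.2.1, H _ t5811.2.2.2.1⟩, ⟨H _ t5811.2.2.2.2.1,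 ⟨H _ t5811.2.2.2.2.2.1, H _ t5811.2.2.2.2.2.2.1⟩⟩⟩⟩⟩⟩, ⟨⟨⟨⟨⟨H _ t5811.2.2.2.2.2.2.2, H _ t5819.1⟩, ⟨H _ t5819.2.1, H _ t5819.2.2.1⟩⟩, ⟨⟨H _ t5819.2.2.2.1, H _ t5819.2.2.2.2.1⟩, ⟨H _ t5819.2.2.2.2.2.1, ⟨H _ t5819.2.2.2.2.2.2.1, H _ t5819.2.2.2.2.2.2.2⟩⟩⟩⟩, ⟨⟨⟨H _ t5827.1, H _ t5827.2.1⟩, ⟨H _ t5827.2.2.1, H _ t5827.2.2.2.1⟩⟩, ⟨⟨H _ t5827.2.2.2.2.1, H _ t5827.2.2.2.2.2.1⟩, ⟨H _ t5827.2.2.2.2.2.2.1, ⟨H _ t5827.2.2.2.2.2.2.2, H _ t5835.1⟩⟩⟩⟩⟩, ⟨⟨⟨⟨H _ t5835.2.1, H _ t5835.2.2.1⟩, ⟨H _ t5835.2.2.2.1, H _ t5835.2.2.2.2.1⟩⟩, ⟨⟨H _ t5835.2.2.2.2.2.1, H _ t5835.2.2.2.2.2.2.1⟩, ⟨H _ t5835.2.2.2.2.2.2.2, ⟨H _ t5843.1, H _ t5843.2.1⟩⟩⟩⟩, ⟨⟨⟨H _ t5843.2.2.1, H _ t5843.2.2.2.1⟩, ⟨H _ t5843.2.2.2.2.1, H _ t5843.2.2.2.2.2.1⟩⟩, ⟨⟨H _ t5843.2.2.2.2.2.2.1, H _ t5843.2.2.2.2.2.2.2⟩, ⟨H _ t5851.1, ⟨H _ t5851.2.1, H _ t5851.2.2.1⟩⟩⟩⟩⟩⟩⟩⟩⟩, ⟨⟨⟨⟨⟨⟨⟨⟨H _ t5851.2.2.2.1, H _ t5851.2.2.2.2.1⟩, ⟨H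 _ t5851.2.2.2.2.2.1, H _ t5851.2.2.2.2.2.2.1⟩⟩, ⟨⟨H _ t5851.2.2.2.2.2.2.2, H _ t5859.1⟩, ⟨H _ t5859.2.1, H _ t5859.2.2.1⟩⟩⟩, ⟨⟨⟨H _ t5859.2.2.2.1, H _ t5859.2.2.2.2.1⟩, ⟨H _ t5859.2.2.2.2.2.1, H _ t5859.2.2.2.2.2.2.1⟩⟩, ⟨⟨H _ t5859.2.2.2.2.2.2.2, H _ t5867.1⟩, ⟨H _ t5867.2.1, ⟨H _ t5867.2.2.1, H _ t5867.2.2.2.1⟩⟩⟩⟩⟩, ⟨⟨⟨⟨H _ t5867.2.2.2.2.1, H _ t5867.2.2.2.2.2.1⟩, ⟨H _ t5867.2.2.2.2.2.2.1, H _ t5867.2.2.2.2.2.2.2⟩⟩, ⟨⟨H _ t5875.1, H _ t5875.2.1⟩, ⟨H _ t5875.2.2.1, ⟨H _ t5875.2.2.2.1, H _ t5875.2.2.2.2.1⟩⟩⟩⟩, ⟨⟨⟨H _ t5875.2.2.2.2.2.1, H _ t5875.2.2.2.2.2.2.1⟩, ⟨H _ t5875.2.2.2.2.2.2.2, H _ t5883.1⟩⟩, ⟨⟨H _ t5883.2.1, H _ t5883.2.2.1⟩, ⟨H _ t5883.2.2.2.1, ⟨H _ t5883.2.2.2.2.1, H _ t5883.2.2.2.2.2.1⟩⟩⟩⟩⟩⟩, ⟨⟨⟨⟨⟨H _ t5883.2.2.2.2.2.2.1, H _ t5883.2.2.2.2.2.2.2⟩, ⟨H _ t5891.1, H _ t5891.2.1⟩⟩, ⟨⟨H _ t5891.2.2.1, H _ t5891.2.2.2.1⟩, ⟨H _ t5891.2.2.2.2.1, H _ t5891.2.2.2.2.2.1⟩⟩⟩,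 ⟨⟨⟨H _ t5891.2.2.2.2.2.2.1, H _ t5891.2.2.2.2.2.2.2⟩, ⟨H _ t5899.1, H _ t5899.2.1⟩⟩, ⟨⟨H _ t5899.2.2.1, H _ t5899.2.2.2.1⟩, ⟨H _ t5899.2.2.2.2.1, ⟨H _ t5899.2.2.2.2.2.1, H _ t5899.2.2.2.2.2.2.1⟩⟩⟩⟩⟩, ⟨⟨⟨⟨H _ t5899.2.2.2.2.2.2.2, H _ t5907.1⟩, ⟨H _ t5907.2.1, H _ t5907.2.2.1⟩⟩, ⟨⟨H _ t5907.2.2.2.1, H _ t5907.2.2.2.2.1⟩, ⟨H _ t5907.2.2.2.2.2.1, ⟨H _ t5907.2.2.2.2.2.2.1, H _ t5907.2.2.2.2.2.2.2⟩⟩⟩⟩, ⟨⟨⟨H _ t5915.1, H _ t5915.2.1⟩, ⟨H _ t5915.2.2.1, H _ t5915.2.2.2.1⟩⟩, ⟨⟨H _ t5915.2.2.2.2.1, H _ t5915.2.2.2.2.2.1⟩, ⟨H _ t5915.2.2.2.2.2.2.1, ⟨H _ t5915.2.2.2.2.2.2.2, H _ t5923.1⟩⟩⟩⟩⟩⟩⟩, ⟨⟨⟨⟨⟨⟨H _ t5923.2.1, H _ t5923.2.2.1⟩, ⟨H _ t5923.2.2.2.1, H _ t5923.2.2.2.2.1⟩⟩, ⟨⟨H _ t5923.2.2.2.2.2.1, H _ t5923.2.2.2.2.2.2.1⟩, ⟨H _ t5923.2.2.2.2.2.2.2, H _ t5931.1⟩⟩⟩, ⟨⟨⟨H _ t5931.2.1, H _ t5931.2.2.1⟩, ⟨H _ t5931.2.2.2.1, H _ t5931.2.2.2.2.1⟩⟩, ⟨⟨H _ t5931.2.2.2.2.2.1, H _ t5931.2.2.2.2.2.2.1⟩,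 ⟨H _ t5931.2.2.2.2.2.2.2, ⟨H _ t5939.1, H _ t5939.2.1⟩⟩⟩⟩⟩, ⟨⟨⟨⟨H _ t5939.2.2.1, H _ t5939.2.2.2.1⟩, ⟨H _ t5939.2.2.2.2.1, H _ t5939.2.2.2.2.2.1⟩⟩, ⟨⟨H _ t5939.2.2.2.2.2.2.1, H _ t5939.2.2.2.2.2.2.2⟩, ⟨H _ t5947.1, ⟨H _ t5947.2.1, H _ t5947.2.2.1⟩⟩⟩⟩, ⟨⟨⟨H _ t5947.2.2.2.1, H _ t5947.2.2.2.2.1⟩, ⟨H _ t5947.2.2.2.2.2.1, H _ t5947.2.2.2.2.2.2.1⟩⟩, ⟨⟨H _ t5947.2.2.2.2.2.2.2, H _ t5955.1⟩, ⟨H _ t5955.2.1, ⟨H _ t5955.2.2.1, H _ t5955.2.2.2.1⟩⟩⟩⟩⟩⟩, ⟨⟨⟨⟨⟨H _ t5955.2.2.2.2.1, H _ t5955.2.2.2.2.2.1⟩, ⟨H _ t5955.2.2.2.2.2.2.1, H _ t5955.2.2.2.2.2.2.2⟩⟩, ⟨⟨H _ t5963.1, H _ t5963.2.1⟩, ⟨H _ t5963.2.2.1, ⟨H _ t5963.2.2.2.1, H _ t5963.2.2.2.2.1⟩⟩⟩⟩, ⟨⟨⟨H _ t5963.2.2.2.2.2.1, H _ t5963.2.2.2.2.2.2.1⟩, ⟨H _ t5963.2.2.2.2.2.2.2, H _ t5971.1⟩⟩, ⟨⟨H _ t5971.2.1, H _ t5971.2.2.1⟩, ⟨H _ t5971.2.2.2.1, ⟨H _ t5971.2.2.2.2.1, H _ t5971.2.2.2.2.2.1⟩⟩⟩⟩⟩, ⟨⟨⟨⟨H _ t5971.2.2.2.2.2.2.1, H _ t5971.2.2.2.2.2.2.2⟩,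 ⟨H _ t5979.1, H _ t5979.2.1⟩⟩, ⟨⟨H _ t5979.2.2.1, H _ t5979.2.2.2.1⟩, ⟨H _ t5979.2.2.2.2.1, ⟨H _ t5979.2.2.2.2.2.1, H _ t5979.2.2.2.2.2.2.1⟩⟩⟩⟩, ⟨⟨⟨H _ t5979.2.2.2.2.2.2.2, H _ t5987.1⟩, ⟨H _ t5987.2.1, H _ t5987.2.2.1⟩⟩, ⟨⟨H _ t5987.2.2.2.1, H _ t5987.2.2.2.2.1⟩, ⟨H _ t5987.2.2.2.2.2.1, ⟨H _ t5987.2.2.2.2.2.2.1, H _ t5987.2.2.2.2.2.2.2⟩⟩⟩⟩⟩⟩⟩⟩, ⟨⟨⟨⟨⟨⟨⟨H _ t5995.1, H _ t5995.2.1⟩, ⟨H _ t5995.2.2.1, H _ t5995.2.2.2.1⟩⟩, ⟨⟨H _ t5995.2.2.2.2.1, H _ t5995.2.2.2.2.2.1⟩, ⟨H _ t5995.2.2.2.2.2.2.1, H _ t5995.2.2.2.2.2.2.2⟩⟩⟩, ⟨⟨⟨H _ t6003.1, H _ t6003.2.1⟩, ⟨H _ t6003.2.2.1, H _ t6003.2.2.2.1⟩⟩, ⟨⟨H _ t6003.2.2.2.2.1, H _ t6003.2.2.2.2.2.1⟩, ⟨H _ t6003.2.2.2.2.2.2.1, ⟨H _ t6003.2.2.2.2.2.2.2, H _ t6011.1⟩⟩⟩⟩⟩, ⟨⟨⟨⟨H _ t6011.2.1, H _ t6011.2.2.1⟩, ⟨H _ t6011.2.2.2.1, H _ t6011.2.2.2.2.1⟩⟩, ⟨⟨H _ t6011.2.2.2.2.2.1, H _ t6011.2.2.2.2.2.2.1⟩, ⟨H _ t6011.2.2.2.2.2.2.2, ⟨H _ t6019.1,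 H _ t6019.2.1⟩⟩⟩⟩, ⟨⟨⟨H _ t6019.2.2.1, H _ t6019.2.2.2.1⟩, ⟨H _ t6019.2.2.2.2.1, H _ t6019.2.2.2.2.2.1⟩⟩, ⟨⟨H _ t6019.2.2.2.2.2.2.1, H _ t6019.2.2.2.2.2.2.2⟩, ⟨H _ t6027.1, ⟨H _ t6027.2.1, H _ t6027.2.2.1⟩⟩⟩⟩⟩⟩, ⟨⟨⟨⟨⟨H _ t6027.2.2.2.1, H _ t6027.2.2.2.2.1⟩, ⟨H _ t6027.2.2.2.2.2.1, H _ t6027.2.2.2.2.2.2.1⟩⟩, ⟨⟨H _ t6027.2.2.2.2.2.2.2, H _ t6035.1⟩, ⟨H _ t6035.2.1, ⟨H _ t6035.2.2.1, H _ t6035.2.2.2.1⟩⟩⟩⟩, ⟨⟨⟨H _ t6035.2.2.2.2.1, H _ t6035.2.2.2.2.2.1⟩, ⟨H _ t6035.2.2.2.2.2.2.1, H _ t6035.2.2.2.2.2.2.2⟩⟩, ⟨⟨H _ t6043.1, H _ t6043.2.1⟩, ⟨H _ t6043.2.2.1, ⟨H _ t6043.2.2.2.1, H _ t6043.2.2.2.2.1⟩⟩⟩⟩⟩, ⟨⟨⟨⟨H _ t6043.2.2.2.2.2.1, H _ t6043.2.2.2.2.2.2.1⟩, ⟨H _ t6043.2.2.2.2.2.2.2, H _ t6051.1⟩⟩, ⟨⟨H _ t6051.2.1, H _ t6051.2.2.1⟩, ⟨H _ t6051.2.2.2.1, ⟨H _ t6051.2.2.2.2.1, H _ t6051.2.2.2.2.2.1⟩⟩⟩⟩, ⟨⟨⟨H _ t6051.2.2.2.2.2.2.1, H _ t6051.2.2.2.2.2.2.2⟩, ⟨H _ t6059.1, H _ t6059.2.1⟩⟩,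 ⟨⟨H _ t6059.2.2.1, H _ t6059.2.2.2.1⟩, ⟨H _ t6059.2.2.2.2.1, ⟨H _ t6059.2.2.2.2.2.1, H _ t6059.2.2.2.2.2.2.1⟩⟩⟩⟩⟩⟩⟩, ⟨⟨⟨⟨⟨⟨H _ t6059.2.2.2.2.2.2.2, H _ t6067.1⟩, ⟨H _ t6067.2.1, H _ t6067.2.2.1⟩⟩, ⟨⟨H _ t6067.2.2.2.1, H _ t6067.2.2.2.2.1⟩, ⟨H _ t6067.2.2.2.2.2.1, H _ t6067.2.2.2.2.2.2.1⟩⟩⟩, ⟨⟨⟨H _ t6067.2.2.2.2.2.2.2, H _ t6075.1⟩, ⟨H _ t6075.2.1, H _ t6075.2.2.1⟩⟩, ⟨⟨H _ t6075.2.2.2.1, H _ t6075.2.2.2.2.1⟩, ⟨H _ t6075.2.2.2.2.2.1, ⟨H _ t6075.2.2.2.2.2.2.1, H _ t6075.2.2.2.2.2.2.2⟩⟩⟩⟩⟩, ⟨⟨⟨⟨H _ t6083.1, H _ t6083.2.1⟩, ⟨H _ t6083.2.2.1, H _ t6083.2.2.2.1⟩⟩, ⟨⟨H _ t6083.2.2.2.2.1, H _ t6083.2.2.2.2.2.1⟩, ⟨H _ t6083.2.2.2.2.2.2.1, ⟨H _ t6083.2.2.2.2.2.2.2, H _ t6091.1⟩⟩⟩⟩, ⟨⟨⟨H _ t6091.2.1, H _ t6091.2.2.1⟩, ⟨H _ t6091.2.2.2.1, H _ t6091.2.2.2.2.1⟩⟩, ⟨⟨H _ t6091.2.2.2.2.2.1, H _ t6091.2.2.2.2.2.2.1⟩, ⟨H _ t6091.2.2.2.2.2.2.2, ⟨H _ t6099.1, H _ t6099.2.1⟩⟩⟩⟩⟩⟩, ⟨⟨⟨⟨⟨H _ t6099.2.2.1,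 H _ t6099.2.2.2.1⟩, ⟨H _ t6099.2.2.2.2.1, H _ t6099.2.2.2.2.2.1⟩⟩, ⟨⟨H _ t6099.2.2.2.2.2.2.1, H _ t6099.2.2.2.2.2.2.2⟩, ⟨H _ t6107.1, ⟨H _ t6107.2.1, H _ t6107.2.2.1⟩⟩⟩⟩, ⟨⟨⟨H _ t6107.2.2.2.1, H _ t6107.2.2.2.2.1⟩, ⟨H _ t6107.2.2.2.2.2.1, H _ t6107.2.2.2.2.2.2.1⟩⟩, ⟨⟨H _ t6107.2.2.2.2.2.2.2, H _ t6115.1⟩, ⟨H _ t6115.2.1, ⟨H _ t6115.2.2.1, H _ t6115.2.2.2.1⟩⟩⟩⟩⟩, ⟨⟨⟨⟨H _ t6115.2.2.2.2.1, H _ t6115.2.2.2.2.2.1⟩, ⟨H _ t6115.2.2.2.2.2.2.1, H _ t6115.2.2.2.2.2.2.2⟩⟩, ⟨⟨H _ t6123.1, H _ t6123.2.1⟩, ⟨H _ t6123.2.2.1, ⟨H _ t6123.2.2.2.1, H _ t6123.2.2.2.2.1⟩⟩⟩⟩, ⟨⟨⟨H _ t6123.2.2.2.2.2.1, H _ t6123.2.2.2.2.2.2.1⟩, ⟨H _ t6123.2.2.2.2.2.2.2, H _ t6131.1⟩⟩, ⟨⟨H _ t6131.2.1, H _ t6131.2.2.1⟩, ⟨H _ t6131.2.2.2.1, ⟨H _ t6131.2.2.2.2.1, H _ t6131.2.2.2.2.2⟩⟩⟩⟩⟩⟩⟩⟩⟩⟩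

end Pool.Agent.MP_c853c5_nt.X.C4950
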