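import Pool.Agent.MP_c853c5_nt.X.C4950.Env
import Pool.Agent.MP_c853c5_nt.X.C4950.D2

set_option autoImplicit false
set_option maxRecDepth 8192
set_option linter.all false

namespace Pool.Agent.MP_c853c5_nt.X.C4950

open Pool.Agent.MP_c853c5_nt.X

def t6137 : allY (E.wth (lkp [])) l6137 = true ∧
    allY (E.wth (lkp [])) l6138 = true ∧
    allY (E.wth (lkp [])) l6139 = true ∧
    allY (E.wth (lkp [])) l6140 = true ∧
    allY (E.wth (lkp [])) l6141 = true ∧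
    allY (E.wth (lkp [])) l6142 = true ∧
    allY (E.wth (lkp [])) l6143 = true ∧
    allY (E.wth (lkp [])) l6144 = true :=
  ⟨by decide +kernel, by decide +kernel, by decide +kernel, by decide +kernel, by decide +kernel, by decide +kernel, by decide +kernel, by decide +kernel⟩

def t6145 : allY (E.wth (lkp [])) l6145 = true ∧
    allY (E.wth (lkp [])) l6146 = true ∧
    allY (E.wth (lkp [])) l6147 = true ∧
    allY (E.wth (lkp [])) l6148 = true ∧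
    allY (E.wth (lkp [])) l6149 = true ∧
    allY (E.wth (lkp [])) l6150 = true ∧
    allY (E.wth (lkp [])) l6151 = true ∧
    allY (E.wth (lkp [])) l6152 = true :=
  ⟨by decide +kernel, by decide +kernel, by decide +kernel, by decide +kernel, by decide +kernel, by decide +kernel, by decide +kernel, by decide +kernel⟩

def t6153 : allY (E.wth (lkp [])) l6153 = true ∧
    allY (E.wth (lkp [])) l6154 = true ∧
    allY (E.wth (lkp [])) l6155 = true ∧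
    allY (E.wth (lkp [])) l6156 = true ∧
    allY (E.wth (lkp [])) l6157 = true ∧
    allY (E.wth (lkp [])) l6158 = true ∧
    allY (E.wth (lkp [])) l6159 = true ∧
    allY (E.wth (lkp [])) l6160 = true :=
  ⟨by decide +kernel, by decide +kernel, by decide +kernel, by decide +kernel, by decide +kernel, by decide +kernel, by decide +kernel, by decide +kernel⟩

def t6161 : allY (E.wth (lkp [])) l6161 = true ∧
    allY (E.wth (lkp [])) l6162 = true ∧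
    allY (E.wth (lkp [])) l6163 = true ∧
    allY (E.wth (lkp [])) l6164 = true ∧
    allY (E.wth (lkp [])) l6165 = true ∧
    allY (E.wth (lkp [])) l6166 = true ∧
    allY (E.wth (lkp [])) l6167 = true ∧
    allY (E.wth (lkp [])) l6168 = true :=
  ⟨by decide +kernel, by decide +kernel, by decide +kernel, by decide +kernel, by decide +kernel, by decide +kernel, by decide +kernel, by decide +kernel⟩

def t6169 : allY (E.wth (lkp [])) l6169 = true ∧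
    allY (E.wth (lkp [])) l6170 = true ∧
    allY (E.wth (lkp [])) l6171 = true ∧
    allY (E.wth (lkp [])) l6172 = true ∧
    allY (E.wth (lkp [])) l6173 = true ∧
    allY (E.wth (lkp [])) l6174 = true ∧
    allY (E.wth (lkp [])) l6175 = true ∧
    allY (E.wth (lkp [])) l6176 = true :=
  ⟨by decide +kernel, by decide +kernel, by decide +kernel, by decide +kernel, by decide +kernel, by decide +kernel, by decide +kernel, by decide +kernel⟩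

def t6177 : allY (E.wth (lkp [])) l6177 = true ∧
    allY (E.wth (lkp [])) l6178 = true ∧
    allY (E.wth (lkp [])) l6179 = true ∧
    allY (E.wth (lkp [])) l6180 = true ∧
    allY (E.wth (lkp [])) l6181 = true ∧
    allY (E.wth (lkp [])) l6182 = true ∧
    allY (E.wth (lkp [])) l6183 = true ∧
    allY (E.wth (lkp [])) l6184 = true :=
  ⟨by decide +kernel, by decide +kernel, by decide +kernel, by decide +kernel, by decide +kernel, by decide +kernel, by decide +kernel, by decide +kernel⟩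

def t6185 : allY (E.wth (lkp [])) l6185 = true ∧
    allY (E.wth (lkp [])) l6186 = true ∧
    allY (E.wth (lkp [])) l6187 = true ∧
    allY (E.wth (lkp [])) l6188 = true ∧
    allY (E.wth (lkp [])) l6189 = true ∧
    allY (E.wth (lkp [])) l6190 = true ∧
    allY (E.wth (lkp [])) l6191 = true ∧
    allY (E.wth (lkp [])) l6192 = true :=
  ⟨by decide +kernel, by decide +kernel, by decide +kernel, by decide +kernel, by decide +kernel, by decide +kernel, by decide +kernel, by decide +kernel⟩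

def t6193 : allY (E.wth (lkp [])) l6193 = true ∧
    allY (E.wth (lkp [])) l6194 = true ∧
    allY (E.wth (lkp [])) l6195 = true ∧
    allY (E.wth (lkp [])) l6196 = true ∧
    allY (E.wth (lkp [])) l6197 = true ∧
    allY (E.wth (lkp [])) l6198 = true ∧
    allY (E.wth (lkp [])) l6199 = true ∧
    allY (E.wth (lkp [])) l6200 = true :=
  ⟨by decide +kernel, by decide +kernel, by decide +kernel, by decide +kernel, by decide +kernel, by decide +kernel, by decide +kernel, by decide +kernel⟩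

def t6201 : allY (E.wth (lkp [])) l6201 = true ∧
    allY (E.wth (lkp [])) l6202 = true ∧
    allY (E.wth (lkp [])) l6203 = true ∧
    allY (E.wth (lkp [])) l6204 = true ∧
    allY (E.wth (lkp [])) l6205 = true ∧
    allY (E.wth (lkp [])) l6206 = true ∧
    allY (E.wth (lkp [])) l6207 = true ∧
    allY (E.wth (lkp [])) l6208 = true :=
  ⟨by decide +kernel, by decide +kernel, by decide +kernel, by decide +kernel, by decide +kernel, by decide +kernel, by decide +kernel, by decide +kernel⟩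

def t6209 : allY (E.wth (lkp [])) l6209 = true ∧
    allY (E.wth (lkp [])) l6210 = true ∧
    allY (E.wth (lkp [])) l6211 = true ∧
    allY (E.wth (lkp [])) l6212 = true ∧
    allY (E.wth (lkp [])) l6213 = true ∧
    allY (E.wth (lkp [])) l6214 = true ∧
    allY (E.wth (lkp [])) l6215 = true ∧
    allY (E.wth (lkp [])) l6216 = true :=
  ⟨by decide +kernel, by decide +kernel, by decide +kernel, by decide +kernel, by decide +kernel, by decide +kernel, by decide +kernel, by decide +kernel⟩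

def t6217 : allY (E.wth (lkp [])) l6217 = true ∧
    allY (E.wth (lkp [])) l6218 = true ∧
    allY (E.wth (lkp [])) l6219 = true ∧
    allY (E.wth (lkp [])) l6220 = true ∧
    allY (E.wth (lkp [])) l6221 = true ∧
    allY (E.wth (lkp [])) l6222 = true ∧
    allY (E.wth (lkp [])) l6223 = true ∧
    allY (E.wth (lkp [])) l6224 = true :=
  ⟨by decide +kernel, by decide +kernel, by decide +kernel, by decide +kernel, by decide +kernel, by decide +kernel, by decide +kernel, by decide +kernel⟩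

def t6225 : allY (E.wth (lkp [])) l6225 = true ∧
    allY (E.wth (lkp [])) l6226 = true ∧
    allY (E.wth (lkp [])) l6227 = true ∧
    allY (E.wth (lkp [])) l6228 = true ∧
    allY (E.wth (lkp [])) l6229 = true ∧
    allY (E.wth (lkp [])) l6230 = true ∧
    allY (E.wth (lkp [])) l6231 = true ∧
    allY (E.wth (lkp [])) l6232 = true :=
  ⟨by decide +kernel, by decide +kernel, by decide +kernel, by decide +kernel, by decide +kernel, by decide +kernel, by decide +kernel, by decide +kernel⟩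

def t6233 : allY (E.wth (lkp [])) l6233 = true ∧
    allY (E.wth (lkp [])) l6234 = true ∧
    allY (E.wth (lkp [])) l6235 = true ∧
    allY (E.wth (lkp [])) l6236 = true ∧
    allY (E.wth (lkp [])) l6237 = true ∧
    allY (E.wth (lkp [])) l6238 = true ∧
    allY (E.wth (lkp [])) l6239 = true ∧
    allY (E.wth (lkp [])) l6240 = true :=
  ⟨by decide +kernel, by decide +kernel, by decide +kernel, by decide +kernel, by decide +kernel, by decide +kernel, by decide +kernel, by decide +kernel⟩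

def t6241 : allY (E.wth (lkp [])) l6241 = true ∧
    allY (E.wth (lkp [])) l6242 = true ∧
    allY (E.wth (lkp [])) l6243 = true ∧
    allY (E.wth (lkp [])) l6244 = true ∧
    allY (E.wth (lkp [])) l6245 = true ∧
    allY (E.wth (lkp [])) l6246 = true ∧
    allY (E.wth (lkp [])) l6247 = true ∧
    allY (E.wth (lkp [])) l6248 = true :=
  ⟨by decide +kernel, by decide +kernel, by decide +kernel, by decide +kernel, by decide +kernel, by decide +kernel, by decide +kernel, by decide +kernel⟩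

def t6249 : allY (E.wth (lkp [])) l6249 = true ∧
    allY (E.wth (lkp [])) l6250 = true ∧
    allY (E.wth (lkp [])) l6251 = true ∧
    allY (E.wth (lkp [])) l6252 = true ∧
    allY (E.wth (lkp [])) l6253 = true ∧
    allY (E.wth (lkp [])) l6254 = true ∧
    allY (E.wth (lkp [])) l6255 = true ∧
    allY (E.wth (lkp [])) l6256 = true :=
  ⟨by decide +kernel, by decide +kernel, by decide +kernel, by decide +kernel, by decide +kernel, by decide +kernel, by decide +kernel, by decide +kernel⟩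

def t6257 : allY (E.wth (lkp [])) l6257 = true ∧
    allY (E.wth (lkp [])) l6258 = true ∧
    allY (E.wth (lkp [])) l6259 = true ∧
    allY (E.wth (lkp [])) l6260 = true ∧
    allY (E.wth (lkp [])) l6261 = true ∧
    allY (E.wth (lkp [])) l6262 = true ∧
    allY (E.wth (lkp [])) l6263 = true ∧
    allY (E.wth (lkp [])) l6264 = true :=
  ⟨by decide +kernel, by decide +kernel, by decide +kernel, by decide +kernel, by decide +kernel, by decide +kernel, by decide +kernel, by decide +kernel⟩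

def t6265 : allY (E.wth (lkp [])) l6265 = true ∧
    allY (E.wth (lkp [])) l6266 = true ∧
    allY (E.wth (lkp [])) l6267 = true ∧
    allY (E.wth (lkp [])) l6268 = true ∧
    allY (E.wth (lkp [])) l6269 = true ∧
    allY (E.wth (lkp [])) l6270 = true ∧
    allY (E.wth (lkp [])) l6271 = true ∧
    allY (E.wth (lkp [])) l6272 = true :=
  ⟨by decide +kernel, by decide +kernel, by decide +kernel, by decide +kernel, by decide +kernel, by decide +kernel, by decide +kernel, by decide +kernel⟩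

def t6273 : allY (E.wth (lkp [])) l6273 = true ∧
    allY (E.wth (lkp [])) l6274 = true ∧
    allY (E.wth (lkp [])) l6275 = true ∧
    allY (E.wth (lkp [])) l6276 = true ∧
    allY (E.wth (lkp [])) l6277 = true ∧
    allY (E.wth (lkp [])) l6278 = true ∧
    allY (E.wth (lkp [])) l6279 = true ∧
    allY (E.wth (lkp [])) l6280 = true :=
  ⟨by decide +kernel, by decide +kernel, by decide +kernel, by decide +kernel, by decide +kernel, by decide +kernel, by decide +kernel, by decide +kernel⟩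

def t6281 : allY (E.wth (lkp [])) l6281 = true ∧
    allY (E.wth (lkp [])) l6282 = true ∧
    allY (E.wth (lkp [])) l6283 = true ∧
    allY (E.wth (lkp [])) l6284 = true ∧
    allY (E.wth (lkp [])) l6285 = true ∧
    allY (E.wth (lkp [])) l6286 = true ∧
    allY (E.wth (lkp [])) l6287 = true ∧
    allY (E.wth (lkp [])) l6288 = true :=
  ⟨by decide +kernel, by decide +kernel, by decide +kernel, by decide +kernel, by decide +kernel, by decide +kernel, by decide +kernel, by decide +kernel⟩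

def t6289 : allY (E.wth (lkp [])) l6289 = true ∧
    allY (E.wth (lkp [])) l6290 = true ∧
    allY (E.wth (lkp [])) l6291 = true ∧
    allY (E.wth (lkp [])) l6292 = true ∧
    allY (E.wth (lkp [])) l6293 = true ∧
    allY (E.wth (lkp [])) l6294 = true ∧
    allY (E.wth (lkp [])) l6295 = true ∧
    allY (E.wth (lkp [])) l6296 = true :=
  ⟨by decide +kernel, by decide +kernel, by decide +kernel, by decide +kernel, by decide +kernel, by decide +kernel, by decide +kernel, by decide +kernel⟩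

def t6297 : allY (E.wth (lkp [])) l6297 = true ∧
    allY (E.wth (lkp [])) l6298 = true ∧
    allY (E.wth (lkp [])) l6299 = true ∧
    allY (E.wth (lkp [])) l6300 = true ∧
    allY (E.wth (lkp [])) l6301 = true ∧
    allY (E.wth (lkp [])) l6302 = true ∧
    allY (E.wth (lkp [])) l6303 = true ∧
    allY (E.wth (lkp [])) l6304 = true :=
  ⟨by decide +kernel, by decide +kernel, by decide +kernel, by decide +kernel, by decide +kernel, by decide +kernel, by decide +kernel, by decide +kernel⟩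

def t6305 : allY (E.wth (lkp [])) l6305 = true ∧
    allY (E.wth (lkp [])) l6306 = true ∧
    allY (E.wth (lkp [])) l6307 = true ∧
    allY (E.wth (lkp [])) l6308 = true ∧
    allY (E.wth (lkp [])) l6309 = true ∧
    allY (E.wth (lkp [])) l6310 = true ∧
    allY (E.wth (lkp [])) l6311 = true ∧
    allY (E.wth (lkp [])) l6312 = true :=
  ⟨by decide +kernel, by decide +kernel, by decide +kernel, by decide +kernel, by decide +kernel, by decide +kernel, by decide +kernel, by decide +kernel⟩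

def t6313 : allY (E.wth (lkp [])) l6313 = true ∧
    allY (E.wth (lkp [])) l6314 = true ∧
    allY (E.wth (lkp [])) l6315 = true ∧
    allY (E.wth (lkp [])) l6316 = true ∧
    allY (E.wth (lkp [])) l6317 = true ∧
    allY (E.wth (lkp [])) l6318 = true ∧
    allY (E.wth (lkp [])) l6319 = true ∧
    allY (E.wth (lkp [])) l6320 = true :=
  ⟨by decide +kernel, by decide +kernel, by decide +kernel, by decide +kernel, by decide +kernel, by decide +kernel, by decide +kernel, by decide +kernel⟩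

def t6321 : allY (E.wth (lkp [])) l6321 = true ∧
    allY (E.wth (lkp [])) l6322 = true ∧
    allY (E.wth (lkp [])) l6323 = true ∧
    allY (E.wth (lkp [])) l6324 = true ∧
    allY (E.wth (lkp [])) l6325 = true ∧
    allY (E.wth (lkp [])) l6326 = true ∧
    allY (E.wth (lkp [])) l6327 = true ∧
    allY (E.wth (lkp [])) l6328 = true :=
  ⟨by decide +kernel, by decide +kernel, by decide +kernel, by decide +kernel, by decide +kernel, by decide +kernel, by decide +kernel, by decide +kernel⟩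

def t6329 : allY (E.wth (lkp [])) l6329 = true ∧
    allY (E.wth (lkp [])) l6330 = true ∧
    allY (E.wth (lkp [])) l6331 = true ∧
    allY (E.wth (lkp [])) l6332 = true ∧
    allY (E.wth (lkp [])) l6333 = true ∧
    allY (E.wth (lkp [])) l6334 = true ∧
    allY (E.wth (lkp [])) l6335 = true ∧
    allY (E.wth (lkp [])) l6336 = true :=
  ⟨by decide +kernel, by decide +kernel, by decide +kernel, by decide +kernel, by decide +kernel, by decide +kernel, by decide +kernel, by decide +kernel⟩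

def t6337 : allY (E.wth (lkp [])) l6337 = true ∧
    allY (E.wth (lkp [])) l6338 = true ∧
    allY (E.wth (lkp [])) l6339 = true ∧
    allY (E.wth (lkp [])) l6340 = true ∧
    allY (E.wth (lkp [])) l6341 = true ∧
    allY (E.wth (lkp [])) l6342 = true ∧
    allY (E.wth (lkp [])) l6343 = true ∧
    allY (E.wth (lkp [])) l6344 = true :=
  ⟨by decide +kernel, by decide +kernel, by decide +kernel, by decide +kernel, by decide +kernel, by decide +kernel, by decide +kernel, by decide +kernel⟩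

def t6345 : allY (E.wth (lkp [])) l6345 = true ∧
    allY (E.wth (lkp [])) l6346 = true ∧
    allY (E.wth (lkp [])) l6347 = true ∧
    allY (E.wth (lkp [])) l6348 = true ∧
    allY (E.wth (lkp [])) l6349 = true ∧
    allY (E.wth (lkp [])) l6350 = true ∧
    allY (E.wth (lkp [])) l6351 = true ∧
    allY (E.wth (lkp [])) l6352 = true :=
  ⟨by decide +kernel, by decide +kernel, by decide +kernel, by decide +kernel, by decide +kernel, by decide +kernel, by decide +kernel, by decide +kernel⟩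

def t6353 : allY (E.wth (lkp [])) l6353 = true ∧
    allY (E.wth (lkp [])) l6354 = true ∧
    allY (E.wth (lkp [])) l6355 = true ∧
    allY (E.wth (lkp [])) l6356 = true ∧
    allY (E.wth (lkp [])) l6357 = true ∧
    allY (E.wth (lkp [])) l6358 = true ∧
    allY (E.wth (lkp [])) l6359 = true ∧
    allY (E.wth (lkp [])) l6360 = true :=
  ⟨by decide +kernel, by decide +kernel, by decide +kernel, by decide +kernel, by decide +kernel, by decide +kernel, by decide +kernel, by decide +kernel⟩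

def t6361 : allY (E.wth (lkp [])) l6361 = true ∧
    allY (E.wth (lkp [])) l6362 = true ∧
    allY (E.wth (lkp [])) l6363 = true ∧
    allY (E.wth (lkp [])) l6364 = true ∧
    allY (E.wth (lkp [])) l6365 = true ∧
    allY (E.wth (lkp [])) l6366 = true ∧
    allY (E.wth (lkp [])) l6367 = true ∧
    allY (E.wth (lkp [])) l6368 = true :=
  ⟨by decide +kernel, by decide +kernel, by decide +kernel, by decide +kernel, by decide +kernel, by decide +kernel, by decide +kernel, by decide +kernel⟩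

def t6369 : allY (E.wth (lkp [])) l6369 = true ∧
    allY (E.wth (lkp [])) l6370 = true ∧
    allY (E.wth (lkp [])) l6371 = true ∧
    allY (E.wth (lkp [])) l6372 = true ∧
    allY (E.wth (lkp [])) l6373 = true ∧
    allY (E.wth (lkp [])) l6374 = true ∧
    allY (E.wth (lkp [])) l6375 = true ∧
    allY (E.wth (lkp [])) l6376 = true :=
  ⟨by decide +kernel, by decide +kernel, by decide +kernel, by decide +kernel, by decide +kernel, by decide +kernel, by decide +kernel, by decide +kernel⟩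

def t6377 : allY (E.wth (lkp [])) l6377 = true ∧
    allY (E.wth (lkp [])) l6378 = true ∧
    allY (E.wth (lkp [])) l6379 = true ∧
    allY (E.wth (lkp [])) l6380 = true ∧
    allY (E.wth (lkp [])) l6381 = true ∧
    allY (E.wth (lkp [])) l6382 = true ∧
    allY (E.wth (lkp [])) l6383 = true ∧
    allY (E.wth (lkp [])) l6384 = true :=
  ⟨by decide +kernel, by decide +kernel, by decide +kernel, by decide +kernel, by decide +kernel, by decide +kernel, by decide +kernel, by decide +kernel⟩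

def t6385 : allY (E.wth (lkp [])) l6385 = true ∧
    allY (E.wth (lkp [])) l6386 = true ∧
    allY (E.wth (lkp [])) l6387 = true ∧
    allY (E.wth (lkp [])) l6388 = true ∧
    allY (E.wth (lkp [])) l6389 = true ∧
    allY (E.wth (lkp [])) l6390 = true ∧
    allY (E.wth (lkp [])) l6391 = true ∧
    allY (E.wth (lkp [])) l6392 = true :=
  ⟨by decide +kernel, by decide +kernel, by decide +kernel, by decide +kernel, by decide +kernel, by decide +kernel, by decide +kernel, by decide +kernel⟩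

def t6393 : allY (E.wth (lkp [])) l6393 = true ∧
    allY (E.wth (lkp [])) l6394 = true ∧
    allY (E.wth (lkp [])) l6395 = true ∧
    allY (E.wth (lkp [])) l6396 = true ∧
    allY (E.wth (lkp [])) l6397 = true ∧
    allY (E.wth (lkp [])) l6398 = true ∧
    allY (E.wth (lkp [])) l6399 = true ∧
    allY (E.wth (lkp [])) l6400 = true :=
  ⟨by decide +kernel, by decide +kernel, by decide +kernel, by decide +kernel, by decide +kernel, by decide +kernel, by decide +kernel, by decide +kernel⟩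

def t6401 : allY (E.wth (lkp [])) l6401 = true ∧
    allY (E.wth (lkp [])) l6402 = true ∧
    allY (E.wth (lkp [])) l6403 = true ∧
    allY (E.wth (lkp [])) l6404 = true ∧
    allY (E.wth (lkp [])) l6405 = true ∧
    allY (E.wth (lkp [])) l6406 = true ∧
    allY (E.wth (lkp [])) l6407 = true ∧
    allY (E.wth (lkp [])) l6408 = true :=
  ⟨by decide +kernel, by decide +kernel, by decide +kernel, by decide +kernel, by decide +kernel, by decide +kernel, by decide +kernel, by decide +kernel⟩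

def t6409 : allY (E.wth (lkp [])) l6409 = true ∧
    allY (E.wth (lkp [])) l6410 = true ∧
    allY (E.wth (lkp [])) l6411 = true ∧
    allY (E.wth (lkp [])) l6412 = true ∧
    allY (E.wth (lkp [])) l6413 = true ∧
    allY (E.wth (lkp [])) l6414 = true ∧
    allY (E.wth (lkp [])) l6415 = true ∧
    allY (E.wth (lkp [])) l6416 = true :=
  ⟨by decide +kernel, by decide +kernel, by decide +kernel, by decide +kernel, by decide +kernel, by decide +kernel, by decide +kernel, by decide +kernel⟩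

def t6417 : allY (E.wth (lkp [])) l6417 = true ∧
    allY (E.wth (lkp [])) l6418 = true ∧
    allY (E.wth (lkp [])) l6419 = true ∧
    allY (E.wth (lkp [])) l6420 = true ∧
    allY (E.wth (lkp [])) l6421 = true ∧
    allY (E.wth (lkp [])) l6422 = true ∧
    allY (E.wth (lkp [])) l6423 = true ∧
    allY (E.wth (lkp [])) l6424 = true :=
  ⟨by decide +kernel, by decide +kernel, by decide +kernel, by decide +kernel, by decide +kernel, by decide +kernel, by decide +kernel, by decide +kernel⟩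

def t6425 : allY (E.wth (lkp [])) l6425 = true ∧
    allY (E.wth (lkp [])) l6426 = true ∧
    allY (E.wth (lkp [])) l6427 = true ∧
    allY (E.wth (lkp [])) l6428 = true ∧
    allY (E.wth (lkp [])) l6429 = true ∧
    allY (E.wth (lkp [])) l6430 = true ∧
    allY (E.wth (lkp [])) l6431 = true ∧
    allY (E.wth (lkp [])) l6432 = true :=
  ⟨by decide +kernel, by decide +kernel, by decide +kernel, by decide +kernel, by decide +kernel, by decide +kernel, by decide +kernel, by decide +kernel⟩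

def t6433 : allY (E.wth (lkp [])) l6433 = true ∧
    allY (E.wth (lkp [])) l6434 = true ∧
    allY (E.wth (lkp [])) l6435 = true ∧
    allY (E.wth (lkp [])) l6436 = true ∧
    allY (E.wth (lkp [])) l6437 = true ∧
    allY (E.wth (lkp [])) l6438 = true ∧
    allY (E.wth (lkp [])) l6439 = true ∧
    allY (E.wth (lkp [])) l6440 = true :=
  ⟨by decide +kernel, by decide +kernel, by decide +kernel, by decide +kernel, by decide +kernel, by decide +kernel, by decide +kernel, by decide +kernel⟩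

def t6441 : allY (E.wth (lkp [])) l6441 = true ∧
    allY (E.wth (lkp [])) l6442 = true ∧
    allY (E.wth (lkp [])) l6443 = true ∧
    allY (E.wth (lkp [])) l6444 = true ∧
    allY (E.wth (lkp [])) l6445 = true ∧
    allY (E.wth (lkp [])) l6446 = true ∧
    allY (E.wth (lkp [])) l6447 = true ∧
    allY (E.wth (lkp [])) l6448 = true :=
  ⟨by decide +kernel, by decide +kernel, by decide +kernel, by decide +kernel, by decide +kernel, by decide +kernel, by decide +kernel, by decide +kernel⟩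

def t6449 : allY (E.wth (lkp [])) l6449 = true ∧
    allY (E.wth (lkp [])) l6450 = true ∧
    allY (E.wth (lkp [])) l6451 = true ∧
    allY (E.wth (lkp [])) l6452 = true ∧
    allY (E.wth (lkp [])) l6453 = true ∧
    allY (E.wth (lkp [])) l6454 = true ∧
    allY (E.wth (lkp [])) l6455 = true ∧
    allY (E.wth (lkp [])) l6456 = true :=
  ⟨by decide +kernel, by decide +kernel, by decide +kernel, by decide +kernel, by decide +kernel, by decide +kernel, by decide +kernel, by decide +kernel⟩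

def t6457 : allY (E.wth (lkp [])) l6457 = true ∧
    allY (E.wth (lkp [])) l6458 = true ∧
    allY (E.wth (lkp [])) l6459 = true ∧
    allY (E.wth (lkp [])) l6460 = true ∧
    allY (E.wth (lkp [])) l6461 = true ∧
    allY (E.wth (lkp [])) l6462 = true ∧
    allY (E.wth (lkp [])) l6463 = true ∧
    allY (E.wth (lkp [])) l6464 = true :=
  ⟨by decide +kernel, by decide +kernel, by decide +kernel, by decide +kernel, by decide +kernel, by decide +kernel, by decide +kernel, by decide +kernel⟩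

def t6465 : allY (E.wth (lkp [])) l6465 = true ∧
    allY (E.wth (lkp [])) l6466 = true ∧
    allY (E.wth (lkp [])) l6467 = true ∧
    allY (E.wth (lkp [])) l6468 = true ∧
    allY (E.wth (lkp [])) l6469 = true ∧
    allY (E.wth (lkp [])) l6470 = true ∧
    allY (E.wth (lkp [])) l6471 = true ∧
    allY (E.wth (lkp [])) l6472 = true :=
  ⟨by decide +kernel, by decide +kernel, by decide +kernel, by decide +kernel, by decide +kernel, by decide +kernel, by decide +kernel, by decide +kernel⟩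

def t6473 : allY (E.wth (lkp [])) l6473 = true ∧
    allY (E.wth (lkp [])) l6474 = true ∧
    allY (E.wth (lkp [])) l6475 = true ∧
    allY (E.wth (lkp [])) l6476 = true ∧
    allY (E.wth (lkp [])) l6477 = true ∧
    allY (E.wth (lkp [])) l6478 = true ∧
    allY (E.wth (lkp [])) l6479 = true ∧
    allY (E.wth (lkp [])) l6480 = true :=
  ⟨by decide +kernel, by decide +kernel, by decide +kernel, by decide +kernel, by decide +kernel, by decide +kernel, by decide +kernel, by decide +kernel⟩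

def t6481 : allY (E.wth (lkp [])) l6481 = true ∧
    allY (E.wth (lkp [])) l6482 = true ∧
    allY (E.wth (lkp [])) l6483 = true ∧
    allY (E.wth (lkp [])) l6484 = true ∧
    allY (E.wth (lkp [])) l6485 = true ∧
    allY (E.wth (lkp [])) l6486 = true ∧
    allY (E.wth (lkp [])) l6487 = true ∧
    allY (E.wth (lkp [])) l6488 = true :=
  ⟨by decide +kernel, by decide +kernel, by decide +kernel, by decide +kernel, by decide +kernel, by decide +kernel, by decide +kernel, by decide +kernel⟩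

def t6489 : allY (E.wth (lkp [])) l6489 = true ∧
    allY (E.wth (lkp [])) l6490 = true ∧
    allY (E.wth (lkp [])) l6491 = true ∧
    allY (E.wth (lkp [])) l6492 = true ∧
    allY (E.wth (lkp [])) l6493 = true ∧
    allY (E.wth (lkp [])) l6494 = true ∧
    allY (E.wth (lkp [])) l6495 = true ∧
    allY (E.wth (lkp [])) l6496 = true :=
  ⟨by decide +kernel, by decide +kernel, by decide +kernel, by decide +kernel, by decide +kernel, by decide +kernel, by decide +kernel, by decide +kernel⟩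

def t6497 : allY (E.wth (lkp [])) l6497 = true ∧
    allY (E.wth (lkp [])) l6498 = true ∧
    allY (E.wth (lkp [])) l6499 = true ∧
    allY (E.wth (lkp [])) l6500 = true ∧
    allY (E.wth (lkp [])) l6501 = true ∧
    allY (E.wth (lkp [])) l6502 = true ∧
    allY (E.wth (lkp [])) l6503 = true ∧
    allY (E.wth (lkp [])) l6504 = true :=
  ⟨by decide +kernel, by decide +kernel, by decide +kernel, by decide +kernel, by decide +kernel, by decide +kernel, by decide +kernel, by decide +kernel⟩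

def t6505 : allY (E.wth (lkp [])) l6505 = true ∧
    allY (E.wth (lkp [])) l6506 = true ∧
    allY (E.wth (lkp [])) l6507 = true ∧
    allY (E.wth (lkp [])) l6508 = true ∧
    allY (E.wth (lkp [])) l6509 = true ∧
    allY (E.wth (lkp [])) l6510 = true ∧
    allY (E.wth (lkp [])) l6511 = true ∧
    allY (E.wth (lkp [])) l6512 = true :=
  ⟨by decide +kernel, by decide +kernel, by decide +kernel, by decide +kernel, by decide +kernel, by decide +kernel, by decide +kernel, by decide +kernel⟩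

def t6513 : allY (E.wth (lkp [])) l6513 = true ∧
    allY (E.wth (lkp [])) l6514 = true ∧
    allY (E.wth (lkp [])) l6515 = true ∧
    allY (E.wth (lkp [])) l6516 = true ∧
    allY (E.wth (lkp [])) l6517 = true ∧
    allY (E.wth (lkp [])) l6518 = true ∧
    allY (E.wth (lkp [])) l6519 = true ∧
    allY (E.wth (lkp [])) l6520 = true :=
  ⟨by decide +kernel, by decide +kernel, by decide +kernel, by decide +kernel, by decide +kernel, by decide +kernel, by decide +kernel, by decide +kernel⟩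

def t6521 : allY (E.wth (lkp [])) l6521 = true ∧
    allY (E.wth (lkp [])) l6522 = true ∧
    allY (E.wth (lkp [])) l6523 = true ∧
    allY (E.wth (lkp [])) l6524 = true ∧
    allY (E.wth (lkp [])) l6525 = true ∧
    allY (E.wth (lkp [])) l6526 = true ∧
    allY (E.wth (lkp [])) l6527 = true ∧
    allY (E.wth (lkp [])) l6528 = true :=
  ⟨by decide +kernel, by decide +kernel, by decide +kernel, by decide +kernel, by decide +kernel, by decide +kernel, by decide +kernel, by decide +kernel⟩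

def t6529 : allY (E.wth (lkp [])) l6529 = true ∧
    allY (E.wth (lkp [])) l6530 = true ∧
    allY (E.wth (lkp [])) l6531 = true ∧
    allY (E.wth (lkp [])) l6532 = true ∧
    allY (E.wth (lkp [])) l6533 = true ∧
    allY (E.wth (lkp [])) l6534 = true ∧
    allY (E.wth (lkp [])) l6535 = true ∧
    allY (E.wth (lkp [])) l6536 = true :=
  ⟨by decide +kernel, by decide +kernel, by decide +kernel, by decide +kernel, by decide +kernel, by decide +kernel, by decide +kernel, by decide +kernel⟩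

def t6537 : allY (E.wth (lkp [])) l6537 = true ∧
    allY (E.wth (lkp [])) l6538 = true ∧
    allY (E.wth (lkp [])) l6539 = true ∧
    allY (E.wth (lkp [])) l6540 = true ∧
    allY (E.wth (lkp [])) l6541 = true ∧
    allY (E.wth (lkp [])) l6542 = true ∧
    allY (E.wth (lkp [])) l6543 = true ∧
    allY (E.wth (lkp [])) l6544 = true :=
  ⟨by decide +kernel, by decide +kernel, by decide +kernel, by decide +kernel, by decide +kernel, by decide +kernel, by decide +kernel, by decide +kernel⟩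

def t6545 : allY (E.wth (lkp [])) l6545 = true ∧
    allY (E.wth (lkp [])) l6546 = true ∧
    allY (E.wth (lkp [])) l6547 = true ∧
    allY (E.wth (lkp [])) l6548 = true ∧
    allY (E.wth (lkp [])) l6549 = true ∧
    allY (E.wth (lkp [])) l6550 = true ∧
    allY (E.wth (lkp [])) l6551 = true ∧
    allY (E.wth (lkp [])) l6552 = true :=
  ⟨by decide +kernel, by decide +kernel, by decide +kernel, by decide +kernel, by decide +kernel, by decide +kernel, by decide +kernel, by decide +kernel⟩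

def t6553 : allY (E.wth (lkp [])) l6553 = true ∧
    allY (E.wth (lkp [])) l6554 = true ∧
    allY (E.wth (lkp [])) l6555 = true ∧
    allY (E.wth (lkp [])) l6556 = true ∧
    allY (E.wth (lkp [])) l6557 = true ∧
    allY (E.wth (lkp [])) l6558 = true ∧
    allY (E.wth (lkp [])) l6559 = true ∧
    allY (E.wth (lkp [])) l6560 = true :=
  ⟨by decide +kernel, by decide +kernel, by decide +kernel, by decide +kernel, by decide +kernel, by decide +kernel, by decide +kernel, by decide +kernel⟩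

def t6561 : allY (E.wth (lkp [])) l6561 = true ∧
    allY (E.wth (lkp [])) l6562 = true ∧
    allY (E.wth (lkp [])) l6563 = true ∧
    allY (E.wth (lkp [])) l6564 = true ∧
    allY (E.wth (lkp [])) l6565 = true ∧
    allY (E.wth (lkp [])) l6566 = true ∧
    allY (E.wth (lkp [])) l6567 = true ∧
    allY (E.wth (lkp [])) l6568 = true :=
  ⟨by decide +kernel, by decide +kernel, by decide +kernel, by decide +kernel, by decide +kernel, by decide +kernel, by decide +kernel, by decide +kernel⟩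

def t6569 : allY (E.wth (lkp [])) l6569 = true ∧
    allY (E.wth (lkp [])) l6570 = true ∧
    allY (E.wth (lkp [])) l6571 = true ∧
    allY (E.wth (lkp [])) l6572 = true ∧
    allY (E.wth (lkp [])) l6573 = true ∧
    allY (E.wth (lkp [])) l6574 = true ∧
    allY (E.wth (lkp [])) l6575 = true ∧
    allY (E.wth (lkp [])) l6576 = true :=
  ⟨by decide +kernel, by decide +kernel, by decide +kernel, by decide +kernel, by decide +kernel, by decide +kernel, by decide +kernel, by decide +kernel⟩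

def t6577 : allY (E.wth (lkp [])) l6577 = true ∧
    allY (E.wth (lkp [])) l6578 = true ∧
    allY (E.wth (lkp [])) l6579 = true ∧
    allY (E.wth (lkp [])) l6580 = true ∧
    allY (E.wth (lkp [])) l6581 = true ∧
    allY (E.wth (lkp [])) l6582 = true ∧
    allY (E.wth (lkp [])) l6583 = true ∧
    allY (E.wth (lkp [])) l6584 = true :=
  ⟨by decide +kernel, by decide +kernel, by decide +kernel, by decide +kernel, by decide +kernel, by decide +kernel, by decide +kernel, by decide +kernel⟩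

def t6585 : allY (E.wth (lkp [])) l6585 = true ∧
    allY (E.wth (lkp [])) l6586 = true ∧
    allY (E.wth (lkp [])) l6587 = true ∧
    allY (E.wth (lkp [])) l6588 = true ∧
    allY (E.wth (lkp [])) l6589 = true ∧
    allY (E.wth (lkp [])) l6590 = true ∧
    allY (E.wth (lkp [])) l6591 = true ∧
    allY (E.wth (lkp [])) l6592 = true :=
  ⟨by decide +kernel, by decide +kernel, by decide +kernel, by decide +kernel, by decide +kernel, by decide +kernel, by decide +kernel, by decide +kernel⟩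

def t6593 : allY (E.wth (lkp [])) l6593 = true ∧
    allY (E.wth (lkp [])) l6594 = true ∧
    allY (E.wth (lkp [])) l6595 = true ∧
    allY (E.wth (lkp [])) l6596 = true ∧
    allY (E.wth (lkp [])) l6597 = true ∧
    allY (E.wth (lkp [])) l6598 = true ∧
    allY (E.wth (lkp [])) l6599 = true ∧
    allY (E.wth (lkp [])) l6600 = true :=
  ⟨by decide +kernel, by decide +kernel, by decide +kernel, by decide +kernel, by decide +kernel, by decide +kernel, by decide +kernel, by decide +kernel⟩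

def t6601 : allY (E.wth (lkp [])) l6601 = true ∧
    allY (E.wth (lkp [])) l6602 = true ∧
    allY (E.wth (lkp [])) l6603 = true ∧
    allY (E.wth (lkp [])) l6604 = true ∧
    allY (E.wth (lkp [])) l6605 = true ∧
    allY (E.wth (lkp [])) l6606 = true ∧
    allY (E.wth (lkp [])) l6607 = true ∧
    allY (E.wth (lkp [])) l6608 = true :=
  ⟨by decide +kernel, by decide +kernel, by decide +kernel, by decide +kernel, by decide +kernel, by decide +kernel, by decide +kernel, by decide +kernel⟩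

def t6609 : allY (E.wth (lkp [])) l6609 = true ∧
    allY (E.wth (lkp [])) l6610 = true ∧
    allY (E.wth (lkp [])) l6611 = true ∧
    allY (E.wth (lkp [])) l6612 = true ∧
    allY (E.wth (lkp [])) l6613 = true ∧
    allY (E.wth (lkp [])) l6614 = true ∧
    allY (E.wth (lkp [])) l6615 = true ∧
    allY (E.wth (lkp [])) l6616 = true :=
  ⟨by decide +kernel, by decide +kernel, by decide +kernel, by decide +kernel, by decide +kernel, by decide +kernel, by decide +kernel, by decide +kernel⟩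

def t6617 : allY (E.wth (lkp [])) l6617 = true ∧
    allY (E.wth (lkp [])) l6618 = true ∧
    allY (E.wth (lkp [])) l6619 = true ∧
    allY (E.wth (lkp [])) l6620 = true ∧
    allY (E.wth (lkp [])) l6621 = true ∧
    allY (E.wth (lkp [])) l6622 = true ∧
    allY (E.wth (lkp [])) l6623 = true ∧
    allY (E.wth (lkp [])) l6624 = true :=
  ⟨by decide +kernel, by decide +kernel, by decide +kernel, by decide +kernel, by decide +kernel, by decide +kernel, by decide +kernel, by decide +kernel⟩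

def t6625 : allY (E.wth (lkp [])) l6625 = true ∧
    allY (E.wth (lkp [])) l6626 = true ∧
    allY (E.wth (lkp [])) l6627 = true ∧
    allY (E.wth (lkp [])) l6628 = true ∧
    allY (E.wth (lkp [])) l6629 = true ∧
    allY (E.wth (lkp [])) l6630 = true ∧
    allY (E.wth (lkp [])) l6631 = true ∧
    allY (E.wth (lkp [])) l6632 = true :=
  ⟨by decide +kernel, by decide +kernel, by decide +kernel, by decide +kernel, by decide +kernel, by decide +kernel, by decide +kernel, by decide +kernel⟩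

def t6633 : allY (E.wth (lkp [])) l6633 = true ∧
    allY (E.wth (lkp [])) l6634 = true ∧
    allY (E.wth (lkp [])) l6635 = true ∧
    allY (E.wth (lkp [])) l6636 = true ∧
    allY (E.wth (lkp [])) l6637 = true ∧
    allY (E.wth (lkp [])) l6638 = true ∧
    allY (E.wth (lkp [])) l6639 = true ∧
    allY (E.wth (lkp [])) l6640 = true :=
  ⟨by decide +kernel, by decide +kernel, by decide +kernel, by decide +kernel, by decide +kernel, by decide +kernel, by decide +kernel, by decide +kernel⟩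

def t6641 : allY (E.wth (lkp [])) l6641 = true ∧
    allY (E.wth (lkp [])) l6642 = true ∧
    allY (E.wth (lkp [])) l6643 = true ∧
    allY (E.wth (lkp [])) l6644 = true ∧
    allY (E.wth (lkp [])) l6645 = true ∧
    allY (E.wth (lkp [])) l6646 = true ∧
    allY (E.wth (lkp [])) l6647 = true ∧
    allY (E.wth (lkp [])) l6648 = true :=
  ⟨by decide +kernel, by decide +kernel, by decide +kernel, by decide +kernel, by decide +kernel, by decide +kernel, by decide +kernel, by decide +kernel⟩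

def t6649 : allY (E.wth (lkp [])) l6649 = true ∧
    allY (E.wth (lkp [])) l6650 = true ∧
    allY (E.wth (lkp [])) l6651 = true ∧
    allY (E.wth (lkp [])) l6652 = true ∧
    allY (E.wth (lkp [])) l6653 = true ∧
    allY (E.wth (lkp [])) l6654 = true ∧
    allY (E.wth (lkp [])) l6655 = true ∧
    allY (E.wth (lkp [])) l6656 = true :=
  ⟨by decide +kernel, by decide +kernel, by decide +kernel, by decide +kernel, by decide +kernel, by decide +kernel, by decide +kernel, by decide +kernel⟩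

def t6657 : allY (E.wth (lkp [])) l6657 = true ∧
    allY (E.wth (lkp [])) l6658 = true ∧
    allY (E.wth (lkp [])) l6659 = true ∧
    allY (E.wth (lkp [])) l6660 = true ∧
    allY (E.wth (lkp [])) l6661 = true ∧
    allY (E.wth (lkp [])) l6662 = true ∧
    allY (E.wth (lkp [])) l6663 = true ∧
    allY (E.wth (lkp [])) l6664 = true :=
  ⟨by decide +kernel, by decide +kernel, by decide +kernel, by decide +kernel, by decide +kernel, by decide +kernel, by decide +kernel, by decide +kernel⟩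

def t6665 : allY (E.wth (lkp [])) l6665 = true ∧
    allY (E.wth (lkp [])) l6666 = true ∧
    allY (E.wth (lkp [])) l6667 = true ∧
    allY (E.wth (lkp [])) l6668 = true ∧
    allY (E.wth (lkp [])) l6669 = true ∧
    allY (E.wth (lkp [])) l6670 = true ∧
    allY (E.wth (lkp [])) l6671 = true ∧
    allY (E.wth (lkp [])) l6672 = true :=
  ⟨by decide +kernel, by decide +kernel, by decide +kernel, by decide +kernel, by decide +kernel, by decide +kernel, by decide +kernel, by decide +kernel⟩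

def t6673 : allY (E.wth (lkp [])) l6673 = true ∧
    allY (E.wth (lkp [])) l6674 = true ∧
    allY (E.wth (lkp [])) l6675 = true ∧
    allY (E.wth (lkp [])) l6676 = true ∧
    allY (E.wth (lkp [])) l6677 = true ∧
    allY (E.wth (lkp [])) l6678 = true ∧
    allY (E.wth (lkp [])) l6679 = true ∧
    allY (E.wth (lkp [])) l6680 = true :=
  ⟨by decide +kernel, by decide +kernel, by decide +kernel, by decide +kernel, by decide +kernel, by decide +kernel, by decide +kernel, by decide +kernel⟩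

def t6681 : allY (E.wth (lkp [])) l6681 = true ∧
    allY (E.wth (lkp [])) l6682 = true ∧
    allY (E.wth (lkp [])) l6683 = true ∧
    allY (E.wth (lkp [])) l6684 = true ∧
    allY (E.wth (lkp [])) l6685 = true ∧
    allY (E.wth (lkp [])) l6686 = true ∧
    allY (E.wth (lkp [])) l6687 = true ∧
    allY (E.wth (lkp [])) l6688 = true :=
  ⟨by decide +kernel, by decide +kernel, by decide +kernel, by decide +kernel, by decide +kernel, by decide +kernel, by decide +kernel, by decide +kernel⟩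

def t6689 : allY (E.wth (lkp [])) l6689 = true ∧
    allY (E.wth (lkp [])) l6690 = true ∧
    allY (E.wth (lkp [])) l6691 = true ∧
    allY (E.wth (lkp [])) l6692 = true ∧
    allY (E.wth (lkp [])) l6693 = true ∧
    allY (E.wth (lkp [])) l6694 = true ∧
    allY (E.wth (lkp [])) l6695 = true ∧
    allY (E.wth (lkp [])) l6696 = true :=
  ⟨by decide +kernel, by decide +kernel, by decide +kernel, by decide +kernel, by decide +kernel, by decide +kernel, by decide +kernel, by decide +kernel⟩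

def t6697 : allY (E.wth (lkp [])) l6697 = true ∧
    allY (E.wth (lkp [])) l6698 = true ∧
    allY (E.wth (lkp [])) l6699 = true ∧
    allY (E.wth (lkp [])) l6700 = true ∧
    allY (E.wth (lkp [])) l6701 = true ∧
    allY (E.wth (lkp [])) l6702 = true ∧
    allY (E.wth (lkp [])) l6703 = true ∧
    allY (E.wth (lkp [])) l6704 = true :=
  ⟨by decide +kernel, by decide +kernel, by decide +kernel, by decide +kernel, by decide +kernel, by decide +kernel, by decide +kernel, by decide +kernel⟩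

def t6705 : allY (E.wth (lkp [])) l6705 = true ∧
    allY (E.wth (lkp [])) l6706 = true :=
  ⟨by decide +kernel, by decide +kernel⟩

theorem a11 {p : Rf → Prop} (H : ∀ l, allY (E.wth (lkp [])) l = true → (lkp l).All p) :
    b11.All p := ⟨⟨⟨⟨⟨⟨⟨⟨⟨H _ t6137.1, H _ t6137.2.1⟩, ⟨H _ t6137.2.2.1, H _ t6137.2.2.2.1⟩⟩, ⟨⟨H _ t6137.2.2.2.2.1, H _ t6137.2.2.2.2.2.1⟩, ⟨H _ t6137.2.2.2.2.2.2.1, H _ t6137.2.2.2.2.2.2.2⟩⟩⟩, ⟨⟨⟨H _ t6145.1, H _ t6145.2.1⟩, ⟨H _ t6145.2.2.1, H _ t6145.2.2.2.1⟩⟩, ⟨⟨H _ t6145.2.2.2.2.1, H _ t6145.2.2.2.2.2.1⟩, ⟨H _ t6145.2.2.2.2.2.2.1, ⟨H _ t6145.2.2.2.2.2.2.2, H _ t6153.1⟩⟩⟩⟩⟩, ⟨⟨⟨⟨H _ t6153.2.1, H _ t6153.2.2.1⟩, ⟨H _ t6153.2.2.2.1, H _ t6153.2.2.2.2.1⟩⟩, ⟨⟨H _ t6153.2.2.2.2.2.1, H _ t6153.2.2.2.2.2.2.1⟩, ⟨H _ t6153.2.2.2.2.2.2.2, ⟨H _ t6161.1, H _ t6161.2.1⟩⟩⟩⟩, ⟨⟨⟨H _ t6161.2.2.1, H _ t6161.2.2.2.1⟩, ⟨H _ t6161.2.2.2.2.1, H _ t6161.2.2.2.2.2.1⟩⟩,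 ⟨⟨H _ t6161.2.2.2.2.2.2.1, H _ t6161.2.2.2.2.2.2.2⟩, ⟨H _ t6169.1, ⟨H _ t6169.2.1, H _ t6169.2.2.1⟩⟩⟩⟩⟩⟩, ⟨⟨⟨⟨⟨H _ t6169.2.2.2.1, H _ t6169.2.2.2.2.1⟩, ⟨H _ t6169.2.2.2.2.2.1, H _ t6169.2.2.2.2.2.2.1⟩⟩, ⟨⟨H _ t6169.2.2.2.2.2.2.2, H _ t6177.1⟩, ⟨H _ t6177.2.1, ⟨H _ t6177.2.2.1, H _ t6177.2.2.2.1⟩⟩⟩⟩, ⟨⟨⟨H _ t6177.2.2.2.2.1, H _ t6177.2.2.2.2.2.1⟩, ⟨H _ t6177.2.2.2.2.2.2.1, H _ t6177.2.2.2.2.2.2.2⟩⟩, ⟨⟨H _ t6185.1, H _ t6185.2.1⟩, ⟨H _ t6185.2.2.1, ⟨H _ t6185.2.2.2.1, H _ t6185.2.2.2.2.1⟩⟩⟩⟩⟩, ⟨⟨⟨⟨H _ t6185.2.2.2.2.2.1, H _ t6185.2.2.2.2.2.2.1⟩, ⟨H _ t6185.2.2.2.2.2.2.2, H _ t6193.1⟩⟩, ⟨⟨H _ t6193.2.1, H _ t6193.2.2.1⟩, ⟨H _ t6193.2.2.2.1, ⟨H _ t6193.2.2.2.2.1, H _ t6193.2.2.2.2.2.1⟩⟩⟩⟩, ⟨⟨⟨H _ t6193.2.2.2.2.2.2.1, H _ t6193.2.2.2.2.2.2.2⟩, ⟨H _ t6201.1, H _ t6201.2.1⟩⟩, ⟨⟨H _ t6201.2.2.1, H _ t6201.2.2.2.1⟩, ⟨H _ t6201.2.2.2.2.1, ⟨H _ t6201.2.2.2.2.2.1, H _ t6201.2.2.2.2.2.2.1⟩⟩⟩⟩⟩⟩⟩,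 ⟨⟨⟨⟨⟨⟨H _ t6201.2.2.2.2.2.2.2, H _ t6209.1⟩, ⟨H _ t6209.2.1, H _ t6209.2.2.1⟩⟩, ⟨⟨H _ t6209.2.2.2.1, H _ t6209.2.2.2.2.1⟩, ⟨H _ t6209.2.2.2.2.2.1, H _ t6209.2.2.2.2.2.2.1⟩⟩⟩, ⟨⟨⟨H _ t6209.2.2.2.2.2.2.2, H _ t6217.1⟩, ⟨H _ t6217.2.1, H _ t6217.2.2.1⟩⟩, ⟨⟨H _ t6217.2.2.2.1, H _ t6217.2.2.2.2.1⟩, ⟨H _ t6217.2.2.2.2.2.1, ⟨H _ t6217.2.2.2.2.2.2.1, H _ t6217.2.2.2.2.2.2.2⟩⟩⟩⟩⟩, ⟨⟨⟨⟨H _ t6225.1, H _ t6225.2.1⟩, ⟨H _ t6225.2.2.1, H _ t6225.2.2.2.1⟩⟩, ⟨⟨H _ t6225.2.2.2.2.1, H _ t6225.2.2.2.2.2.1⟩, ⟨H _ t6225.2.2.2.2.2.2.1, ⟨H _ t6225.2.2.2.2.2.2.2, H _ t6233.1⟩⟩⟩⟩, ⟨⟨⟨H _ t6233.2.1, H _ t6233.2.2.1⟩, ⟨H _ t6233.2.2.2.1, H _ t6233.2.2.2.2.1⟩⟩, ⟨⟨H _ t6233.2.2.2.2.2.1, H _ t6233.2.2.2.2.2.2.1⟩, ⟨H _ t6233.2.2.2.2.2.2.2, ⟨H _ t6241.1, H _ t6241.2.1⟩⟩⟩⟩⟩⟩, ⟨⟨⟨⟨⟨H _ t6241.2.2.1, H _ t6241.2.2.2.1⟩, ⟨H _ t6241.2.2.2.2.1, H _ t6241.2.2.2.2.2.1⟩⟩, ⟨⟨H _ t6241.2.2.2.2.2.2.1, H _ t6241.2.2.2.2.2.2.2⟩,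 ⟨H _ t6249.1, ⟨H _ t6249.2.1, H _ t6249.2.2.1⟩⟩⟩⟩, ⟨⟨⟨H _ t6249.2.2.2.1, H _ t6249.2.2.2.2.1⟩, ⟨H _ t6249.2.2.2.2.2.1, H _ t6249.2.2.2.2.2.2.1⟩⟩, ⟨⟨H _ t6249.2.2.2.2.2.2.2, H _ t6257.1⟩, ⟨H _ t6257.2.1, ⟨H _ t6257.2.2.1, H _ t6257.2.2.2.1⟩⟩⟩⟩⟩, ⟨⟨⟨⟨H _ t6257.2.2.2.2.1, H _ t6257.2.2.2.2.2.1⟩, ⟨H _ t6257.2.2.2.2.2.2.1, H _ t6257.2.2.2.2.2.2.2⟩⟩, ⟨⟨H _ t6265.1, H _ t6265.2.1⟩, ⟨H _ t6265.2.2.1, ⟨H _ t6265.2.2.2.1, H _ t6265.2.2.2.2.1⟩⟩⟩⟩, ⟨⟨⟨H _ t6265.2.2.2.2.2.1, H _ t6265.2.2.2.2.2.2.1⟩, ⟨H _ t6265.2.2.2.2.2.2.2, H _ t6273.1⟩⟩, ⟨⟨H _ t6273.2.1, H _ t6273.2.2.1⟩, ⟨H _ t6273.2.2.2.1, ⟨H _ t6273.2.2.2.2.1, H _ t6273.2.2.2.2.2.1⟩⟩⟩⟩⟩⟩⟩⟩, ⟨⟨⟨⟨⟨⟨⟨H _ t6273.2.2.2.2.2.2.1, H _ t6273.2.2.2.2.2.2.2⟩, ⟨H _ t6281.1, H _ t6281.2.1⟩⟩, ⟨⟨H _ t6281.2.2.1, H _ t6281.2.2.2.1⟩, ⟨H _ t6281.2.2.2.2.1, H _ t6281.2.2.2.2.2.1⟩⟩⟩, ⟨⟨⟨H _ t6281.2.2.2.2.2.2.1, H _ t6281.2.2.2.2.2.2.2⟩, ⟨H _ t6289.1,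 H _ t6289.2.1⟩⟩, ⟨⟨H _ t6289.2.2.1, H _ t6289.2.2.2.1⟩, ⟨H _ t6289.2.2.2.2.1, ⟨H _ t6289.2.2.2.2.2.1, H _ t6289.2.2.2.2.2.2.1⟩⟩⟩⟩⟩, ⟨⟨⟨⟨H _ t6289.2.2.2.2.2.2.2, H _ t6297.1⟩, ⟨H _ t6297.2.1, H _ t6297.2.2.1⟩⟩, ⟨⟨H _ t6297.2.2.2.1, H _ t6297.2.2.2.2.1⟩, ⟨H _ t6297.2.2.2.2.2.1, ⟨H _ t6297.2.2.2.2.2.2.1, H _ t6297.2.2.2.2.2.2.2⟩⟩⟩⟩, ⟨⟨⟨H _ t6305.1, H _ t6305.2.1⟩, ⟨H _ t6305.2.2.1, H _ t6305.2.2.2.1⟩⟩, ⟨⟨H _ t6305.2.2.2.2.1, H _ t6305.2.2.2.2.2.1⟩, ⟨H _ t6305.2.2.2.2.2.2.1, ⟨H _ t6305.2.2.2.2.2.2.2, H _ t6313.1⟩⟩⟩⟩⟩⟩, ⟨⟨⟨⟨⟨H _ t6313.2.1, H _ t6313.2.2.1⟩, ⟨H _ t6313.2.2.2.1, H _ t6313.2.2.2.2.1⟩⟩, ⟨⟨H _ t6313.2.2.2.2.2.1, H _ t6313.2.2.2.2.2.2.1⟩, ⟨H _ t6313.2.2.2.2.2.2.2, ⟨H _ t6321.1, H _ t6321.2.1⟩⟩⟩⟩, ⟨⟨⟨H _ t6321.2.2.1, H _ t6321.2.2.2.1⟩, ⟨H _ t6321.2.2.2.2.1, H _ t6321.2.2.2.2.2.1⟩⟩, ⟨⟨H _ t6321.2.2.2.2.2.2.1, H _ t6321.2.2.2.2.2.2.2⟩, ⟨H _ t6329.1, ⟨H _ t6329.2.1,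 H _ t6329.2.2.1⟩⟩⟩⟩⟩, ⟨⟨⟨⟨H _ t6329.2.2.2.1, H _ t6329.2.2.2.2.1⟩, ⟨H _ t6329.2.2.2.2.2.1, H _ t6329.2.2.2.2.2.2.1⟩⟩, ⟨⟨H _ t6329.2.2.2.2.2.2.2, H _ t6337.1⟩, ⟨H _ t6337.2.1, ⟨H _ t6337.2.2.1, H _ t6337.2.2.2.1⟩⟩⟩⟩, ⟨⟨⟨H _ t6337.2.2.2.2.1, H _ t6337.2.2.2.2.2.1⟩, ⟨H _ t6337.2.2.2.2.2.2.1, H _ t6337.2.2.2.2.2.2.2⟩⟩, ⟨⟨H _ t6345.1, H _ t6345.2.1⟩, ⟨H _ t6345.2.2.1, ⟨H _ t6345.2.2.2.1, H _ t6345.2.2.2.2.1⟩⟩⟩⟩⟩⟩⟩, ⟨⟨⟨⟨⟨⟨H _ t6345.2.2.2.2.2.1, H _ t6345.2.2.2.2.2.2.1⟩, ⟨H _ t6345.2.2.2.2.2.2.2, H _ t6353.1⟩⟩, ⟨⟨H _ t6353.2.1, H _ t6353.2.2.1⟩, ⟨H _ t6353.2.2.2.1, ⟨H _ t6353.2.2.2.2.1, H _ t6353.2.2.2.2.2.1⟩⟩⟩⟩, ⟨⟨⟨H _ t6353.2.2.2.2.2.2.1, H _ t6353.2.2.2.2.2.2.2⟩, ⟨H _ t6361.1, H _ t6361.2.1⟩⟩, ⟨⟨H _ t6361.2.2.1, H _ t6361.2.2.2.1⟩, ⟨H _ t6361.2.2.2.2.1, ⟨H _ t6361.2.2.2.2.2.1, H _ t6361.2.2.2.2.2.2.1⟩⟩⟩⟩⟩, ⟨⟨⟨⟨H _ t6361.2.2.2.2.2.2.2, H _ t6369.1⟩, ⟨H _ t6369.2.1, H _ t6369.2.2.1⟩⟩,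 ⟨⟨H _ t6369.2.2.2.1, H _ t6369.2.2.2.2.1⟩, ⟨H _ t6369.2.2.2.2.2.1, ⟨H _ t6369.2.2.2.2.2.2.1, H _ t6369.2.2.2.2.2.2.2⟩⟩⟩⟩, ⟨⟨⟨H _ t6377.1, H _ t6377.2.1⟩, ⟨H _ t6377.2.2.1, H _ t6377.2.2.2.1⟩⟩, ⟨⟨H _ t6377.2.2.2.2.1, H _ t6377.2.2.2.2.2.1⟩, ⟨H _ t6377.2.2.2.2.2.2.1, ⟨H _ t6377.2.2.2.2.2.2.2, H _ t6385.1⟩⟩⟩⟩⟩⟩, ⟨⟨⟨⟨⟨H _ t6385.2.1, H _ t6385.2.2.1⟩, ⟨H _ t6385.2.2.2.1, H _ t6385.2.2.2.2.1⟩⟩, ⟨⟨H _ t6385.2.2.2.2.2.1, H _ t6385.2.2.2.2.2.2.1⟩, ⟨H _ t6385.2.2.2.2.2.2.2, ⟨H _ t6393.1, H _ t6393.2.1⟩⟩⟩⟩, ⟨⟨⟨H _ t6393.2.2.1, H _ t6393.2.2.2.1⟩, ⟨H _ t6393.2.2.2.2.1, H _ t6393.2.2.2.2.2.1⟩⟩, ⟨⟨H _ t6393.2.2.2.2.2.2.1, H _ t6393.2.2.2.2.2.2.2⟩, ⟨H _ t6401.1, ⟨H _ t6401.2.1, H _ t6401.2.2.1⟩⟩⟩⟩⟩, ⟨⟨⟨⟨H _ t6401.2.2.2.1, H _ t6401.2.2.2.2.1⟩, ⟨H _ t6401.2.2.2.2.2.1, H _ t6401.2.2.2.2.2.2.1⟩⟩, ⟨⟨H _ t6401.2.2.2.2.2.2.2, H _ t6409.1⟩, ⟨H _ t6409.2.1, ⟨H _ t6409.2.2.1, H _ t6409.2.2.2.1⟩⟩⟩⟩,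 ⟨⟨⟨H _ t6409.2.2.2.2.1, H _ t6409.2.2.2.2.2.1⟩, ⟨H _ t6409.2.2.2.2.2.2.1, H _ t6409.2.2.2.2.2.2.2⟩⟩, ⟨⟨H _ t6417.1, H _ t6417.2.1⟩, ⟨H _ t6417.2.2.1, ⟨H _ t6417.2.2.2.1, H _ t6417.2.2.2.2.1⟩⟩⟩⟩⟩⟩⟩⟩⟩, ⟨⟨⟨⟨⟨⟨⟨⟨H _ t6417.2.2.2.2.2.1, H _ t6417.2.2.2.2.2.2.1⟩, ⟨H _ t6417.2.2.2.2.2.2.2, H _ t6425.1⟩⟩, ⟨⟨H _ t6425.2.1, H _ t6425.2.2.1⟩, ⟨H _ t6425.2.2.2.1, H _ t6425.2.2.2.2.1⟩⟩⟩, ⟨⟨⟨H _ t6425.2.2.2.2.2.1, H _ t6425.2.2.2.2.2.2.1⟩, ⟨H _ t6425.2.2.2.2.2.2.2, H _ t6433.1⟩⟩, ⟨⟨H _ t6433.2.1, H _ t6433.2.2.1⟩, ⟨H _ t6433.2.2.2.1, ⟨H _ t6433.2.2.2.2.1, H _ t6433.2.2.2.2.2.1⟩⟩⟩⟩⟩, ⟨⟨⟨⟨H _ t6433.2.2.2.2.2.2.1, H _ t6433.2.2.2.2.2.2.2⟩, ⟨H _ t6441.1, H _ t6441.2.1⟩⟩, ⟨⟨H _ t6441.2.2.1, H _ t6441.2.2.2.1⟩, ⟨H _ t6441.2.2.2.2.1, ⟨H _ t6441.2.2.2.2.2.1, H _ t6441.2.2.2.2.2.2.1⟩⟩⟩⟩, ⟨⟨⟨H _ t6441.2.2.2.2.2.2.2, H _ t6449.1⟩, ⟨H _ t6449.2.1, H _ t6449.2.2.1⟩⟩, ⟨⟨H _ t6449.2.2.2.1, H _ t6449.2.2.2.2.1⟩,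 ⟨H _ t6449.2.2.2.2.2.1, ⟨H _ t6449.2.2.2.2.2.2.1, H _ t6449.2.2.2.2.2.2.2⟩⟩⟩⟩⟩⟩, ⟨⟨⟨⟨⟨H _ t6457.1, H _ t6457.2.1⟩, ⟨H _ t6457.2.2.1, H _ t6457.2.2.2.1⟩⟩, ⟨⟨H _ t6457.2.2.2.2.1, H _ t6457.2.2.2.2.2.1⟩, ⟨H _ t6457.2.2.2.2.2.2.1, ⟨H _ t6457.2.2.2.2.2.2.2, H _ t6465.1⟩⟩⟩⟩, ⟨⟨⟨H _ t6465.2.1, H _ t6465.2.2.1⟩, ⟨H _ t6465.2.2.2.1, H _ t6465.2.2.2.2.1⟩⟩, ⟨⟨H _ t6465.2.2.2.2.2.1, H _ t6465.2.2.2.2.2.2.1⟩, ⟨H _ t6465.2.2.2.2.2.2.2, ⟨H _ t6473.1, H _ t6473.2.1⟩⟩⟩⟩⟩, ⟨⟨⟨⟨H _ t6473.2.2.1, H _ t6473.2.2.2.1⟩, ⟨H _ t6473.2.2.2.2.1, H _ t6473.2.2.2.2.2.1⟩⟩, ⟨⟨H _ t6473.2.2.2.2.2.2.1, H _ t6473.2.2.2.2.2.2.2⟩, ⟨H _ t6481.1, ⟨H _ t6481.2.1, H _ t6481.2.2.1⟩⟩⟩⟩, ⟨⟨⟨H _ t6481.2.2.2.1, H _ t6481.2.2.2.2.1⟩, ⟨H _ t6481.2.2.2.2.2.1, H _ t6481.2.2.2.2.2.2.1⟩⟩, ⟨⟨H _ t6481.2.2.2.2.2.2.2, H _ t6489.1⟩, ⟨H _ t6489.2.1, ⟨H _ t6489.2.2.1, H _ t6489.2.2.2.1⟩⟩⟩⟩⟩⟩⟩, ⟨⟨⟨⟨⟨⟨H _ t6489.2.2.2.2.1, H _ t6489.2.2.2.2.2.1⟩,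 ⟨H _ t6489.2.2.2.2.2.2.1, H _ t6489.2.2.2.2.2.2.2⟩⟩, ⟨⟨H _ t6497.1, H _ t6497.2.1⟩, ⟨H _ t6497.2.2.1, H _ t6497.2.2.2.1⟩⟩⟩, ⟨⟨⟨H _ t6497.2.2.2.2.1, H _ t6497.2.2.2.2.2.1⟩, ⟨H _ t6497.2.2.2.2.2.2.1, H _ t6497.2.2.2.2.2.2.2⟩⟩, ⟨⟨H _ t6505.1, H _ t6505.2.1⟩, ⟨H _ t6505.2.2.1, ⟨H _ t6505.2.2.2.1, H _ t6505.2.2.2.2.1⟩⟩⟩⟩⟩, ⟨⟨⟨⟨H _ t6505.2.2.2.2.2.1, H _ t6505.2.2.2.2.2.2.1⟩, ⟨H _ t6505.2.2.2.2.2.2.2, H _ t6513.1⟩⟩, ⟨⟨H _ t6513.2.1, H _ t6513.2.2.1⟩, ⟨H _ t6513.2.2.2.1, ⟨H _ t6513.2.2.2.2.1, H _ t6513.2.2.2.2.2.1⟩⟩⟩⟩, ⟨⟨⟨H _ t6513.2.2.2.2.2.2.1, H _ t6513.2.2.2.2.2.2.2⟩, ⟨H _ t6521.1, H _ t6521.2.1⟩⟩, ⟨⟨H _ t6521.2.2.1, H _ t6521.2.2.2.1⟩, ⟨H _ t6521.2.2.2.2.1, ⟨H _ t6521.2.2.2.2.2.1, H _ t6521.2.2.2.2.2.2.1⟩⟩⟩⟩⟩⟩, ⟨⟨⟨⟨⟨H _ t6521.2.2.2.2.2.2.2, H _ t6529.1⟩, ⟨H _ t6529.2.1, H _ t6529.2.2.1⟩⟩, ⟨⟨H _ t6529.2.2.2.1, H _ t6529.2.2.2.2.1⟩, ⟨H _ t6529.2.2.2.2.2.1, ⟨H _ t6529.2.2.2.2.2.2.1,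 H _ t6529.2.2.2.2.2.2.2⟩⟩⟩⟩, ⟨⟨⟨H _ t6537.1, H _ t6537.2.1⟩, ⟨H _ t6537.2.2.1, H _ t6537.2.2.2.1⟩⟩, ⟨⟨H _ t6537.2.2.2.2.1, H _ t6537.2.2.2.2.2.1⟩, ⟨H _ t6537.2.2.2.2.2.2.1, ⟨H _ t6537.2.2.2.2.2.2.2, H _ t6545.1⟩⟩⟩⟩⟩, ⟨⟨⟨⟨H _ t6545.2.1, H _ t6545.2.2.1⟩, ⟨H _ t6545.2.2.2.1, H _ t6545.2.2.2.2.1⟩⟩, ⟨⟨H _ t6545.2.2.2.2.2.1, H _ t6545.2.2.2.2.2.2.1⟩, ⟨H _ t6545.2.2.2.2.2.2.2, ⟨H _ t6553.1, H _ t6553.2.1⟩⟩⟩⟩, ⟨⟨⟨H _ t6553.2.2.1, H _ t6553.2.2.2.1⟩, ⟨H _ t6553.2.2.2.2.1, H _ t6553.2.2.2.2.2.1⟩⟩, ⟨⟨H _ t6553.2.2.2.2.2.2.1, H _ t6553.2.2.2.2.2.2.2⟩, ⟨H _ t6561.1, ⟨H _ t6561.2.1, H _ t6561.2.2.1⟩⟩⟩⟩⟩⟩⟩⟩, ⟨⟨⟨⟨⟨⟨⟨H _ t6561.2.2.2.1, H _ t6561.2.2.2.2.1⟩, ⟨H _ t6561.2.2.2.2.2.1, H _ t6561.2.2.2.2.2.2.1⟩⟩, ⟨⟨H _ t6561.2.2.2.2.2.2.2, H _ t6569.1⟩, ⟨H _ t6569.2.1, H _ t6569.2.2.1⟩⟩⟩, ⟨⟨⟨H _ t6569.2.2.2.1, H _ t6569.2.2.2.2.1⟩, ⟨H _ t6569.2.2.2.2.2.1, H _ t6569.2.2.2.2.2.2.1⟩⟩, ⟨⟨H _ t6569.2.2.2.2.2.2.2,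 H _ t6577.1⟩, ⟨H _ t6577.2.1, ⟨H _ t6577.2.2.1, H _ t6577.2.2.2.1⟩⟩⟩⟩⟩, ⟨⟨⟨⟨H _ t6577.2.2.2.2.1, H _ t6577.2.2.2.2.2.1⟩, ⟨H _ t6577.2.2.2.2.2.2.1, H _ t6577.2.2.2.2.2.2.2⟩⟩, ⟨⟨H _ t6585.1, H _ t6585.2.1⟩, ⟨H _ t6585.2.2.1, ⟨H _ t6585.2.2.2.1, H _ t6585.2.2.2.2.1⟩⟩⟩⟩, ⟨⟨⟨H _ t6585.2.2.2.2.2.1, H _ t6585.2.2.2.2.2.2.1⟩, ⟨H _ t6585.2.2.2.2.2.2.2, H _ t6593.1⟩⟩, ⟨⟨H _ t6593.2.1, H _ t6593.2.2.1⟩, ⟨H _ t6593.2.2.2.1, ⟨H _ t6593.2.2.2.2.1, H _ t6593.2.2.2.2.2.1⟩⟩⟩⟩⟩⟩, ⟨⟨⟨⟨⟨H _ t6593.2.2.2.2.2.2.1, H _ t6593.2.2.2.2.2.2.2⟩, ⟨H _ t6601.1, H _ t6601.2.1⟩⟩, ⟨⟨H _ t6601.2.2.1, H _ t6601.2.2.2.1⟩, ⟨H _ t6601.2.2.2.2.1, ⟨H _ t6601.2.2.2.2.2.1, H _ t6601.2.2.2.2.2.2.1⟩⟩⟩⟩, ⟨⟨⟨H _ t6601.2.2.2.2.2.2.2, H _ t6609.1⟩, ⟨H _ t6609.2.1, H _ t6609.2.2.1⟩⟩, ⟨⟨H _ t6609.2.2.2.1, H _ t6609.2.2.2.2.1⟩, ⟨H _ t6609.2.2.2.2.2.1, ⟨H _ t6609.2.2.2.2.2.2.1, H _ t6609.2.2.2.2.2.2.2⟩⟩⟩⟩⟩, ⟨⟨⟨⟨H _ t6617.1,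 H _ t6617.2.1⟩, ⟨H _ t6617.2.2.1, H _ t6617.2.2.2.1⟩⟩, ⟨⟨H _ t6617.2.2.2.2.1, H _ t6617.2.2.2.2.2.1⟩, ⟨H _ t6617.2.2.2.2.2.2.1, ⟨H _ t6617.2.2.2.2.2.2.2, H _ t6625.1⟩⟩⟩⟩, ⟨⟨⟨H _ t6625.2.1, H _ t6625.2.2.1⟩, ⟨H _ t6625.2.2.2.1, H _ t6625.2.2.2.2.1⟩⟩, ⟨⟨H _ t6625.2.2.2.2.2.1, H _ t6625.2.2.2.2.2.2.1⟩, ⟨H _ t6625.2.2.2.2.2.2.2, ⟨H _ t6633.1, H _ t6633.2.1⟩⟩⟩⟩⟩⟩⟩, ⟨⟨⟨⟨⟨⟨H _ t6633.2.2.1, H _ t6633.2.2.2.1⟩, ⟨H _ t6633.2.2.2.2.1, H _ t6633.2.2.2.2.2.1⟩⟩, ⟨⟨H _ t6633.2.2.2.2.2.2.1, H _ t6633.2.2.2.2.2.2.2⟩, ⟨H _ t6641.1, ⟨H _ t6641.2.1, H _ t6641.2.2.1⟩⟩⟩⟩, ⟨⟨⟨H _ t6641.2.2.2.1, H _ t6641.2.2.2.2.1⟩, ⟨H _ t6641.2.2.2.2.2.1, H _ t6641.2.2.2.2.2.2.1⟩⟩, ⟨⟨H _ t6641.2.2.2.2.2.2.2, H _ t6649.1⟩, ⟨H _ t6649.2.1, ⟨H _ t6649.2.2.1, H _ t6649.2.2.2.1⟩⟩⟩⟩⟩, ⟨⟨⟨⟨H _ t6649.2.2.2.2.1, H _ t6649.2.2.2.2.2.1⟩, ⟨H _ t6649.2.2.2.2.2.2.1, H _ t6649.2.2.2.2.2.2.2⟩⟩, ⟨⟨H _ t6657.1, H _ t6657.2.1⟩,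 ⟨H _ t6657.2.2.1, ⟨H _ t6657.2.2.2.1, H _ t6657.2.2.2.2.1⟩⟩⟩⟩, ⟨⟨⟨H _ t6657.2.2.2.2.2.1, H _ t6657.2.2.2.2.2.2.1⟩, ⟨H _ t6657.2.2.2.2.2.2.2, H _ t6665.1⟩⟩, ⟨⟨H _ t6665.2.1, H _ t6665.2.2.1⟩, ⟨H _ t6665.2.2.2.1, ⟨H _ t6665.2.2.2.2.1, H _ t6665.2.2.2.2.2.1⟩⟩⟩⟩⟩⟩, ⟨⟨⟨⟨⟨H _ t6665.2.2.2.2.2.2.1, H _ t6665.2.2.2.2.2.2.2⟩, ⟨H _ t6673.1, H _ t6673.2.1⟩⟩, ⟨⟨H _ t6673.2.2.1, H _ t6673.2.2.2.1⟩, ⟨H _ t6673.2.2.2.2.1, ⟨H _ t6673.2.2.2.2.2.1, H _ t6673.2.2.2.2.2.2.1⟩⟩⟩⟩, ⟨⟨⟨H _ t6673.2.2.2.2.2.2.2, H _ t6681.1⟩, ⟨H _ t6681.2.1, H _ t6681.2.2.1⟩⟩, ⟨⟨H _ t6681.2.2.2.1, H _ t6681.2.2.2.2.1⟩, ⟨H _ t6681.2.2.2.2.2.1, ⟨H _ t6681.2.2.2.2.2.2.1, H _ t6681.2.2.2.2.2.2.2⟩⟩⟩⟩⟩, ⟨⟨⟨⟨H _ t6689.1, H _ t6689.2.1⟩, ⟨H _ t6689.2.2.1, H _ t6689.2.2.2.1⟩⟩, ⟨⟨H _ t6689.2.2.2.2.1, H _ t6689.2.2.2.2.2.1⟩, ⟨H _ t6689.2.2.2.2.2.2.1, ⟨H _ t6689.2.2.2.2.2.2.2, H _ t6697.1⟩⟩⟩⟩, ⟨⟨⟨H _ t6697.2.1, H _ t6697.2.2.1⟩,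 ⟨H _ t6697.2.2.2.1, H _ t6697.2.2.2.2.1⟩⟩, ⟨⟨H _ t6697.2.2.2.2.2.1, H _ t6697.2.2.2.2.2.2.1⟩, ⟨H _ t6697.2.2.2.2.2.2.2, ⟨H _ t6705.1, H _ t6705.2⟩⟩⟩⟩⟩⟩⟩⟩⟩⟩

end Pool.Agent.MP_c853c5_nt.X.C4950
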