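import Pool.Agent.MP_c853c5_nt.X.C4950.Env
import Pool.Agent.MP_c853c5_nt.X.C4950.D2

set_option autoImplicit false
set_option maxRecDepth 8192
set_option linter.all false

namespace Pool.Agent.MP_c853c5_nt.X.C4950

open Pool.Agent.MP_c853c5_nt.X

def t6707 : allY (E.wth (lkp [])) l6707 = true ∧
    allY (E.wth (lkp [])) l6708 = true ∧
    allY (E.wth (lkp [])) l6709 = true ∧
    allY (E.wth (lkp [])) l6710 = true ∧
    allY (E.wth (lkp [])) l6711 = true ∧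
    allY (E.wth (lkp [])) l6712 = true ∧
    allY (E.wth (lkp [])) l6713 = true ∧
    allY (E.wth (lkp [])) l6714 = true :=
  ⟨by decide +kernel, by decide +kernel, by decide +kernel, by decide +kernel, by decide +kernel, by decide +kernel, by decide +kernel, by decide +kernel⟩

def t6715 : allY (E.wth (lkp [])) l6715 = true ∧
    allY (E.wth (lkp [])) l6716 = true ∧
    allY (E.wth (lkp [])) l6717 = true ∧
    allY (E.wth (lkp [])) l6718 = true ∧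
    allY (E.wth (lkp [])) l6719 = true ∧
    allY (E.wth (lkp [])) l6720 = true ∧
    allY (E.wth (lkp [])) l6721 = true ∧
    allY (E.wth (lkp [])) l6722 = true :=
  ⟨by decide +kernel, by decide +kernel, by decide +kernel, by decide +kernel, by decide +kernel, by decide +kernel, by decide +kernel, by decide +kernel⟩

def t6723 : allY (E.wth (lkp [])) l6723 = true ∧
    allY (E.wth (lkp [])) l6724 = true ∧
    allY (E.wth (lkp [])) l6725 = true ∧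
    allY (E.wth (lkp [])) l6726 = true ∧
    allY (E.wth (lkp [])) l6727 = true ∧
    allY (E.wth (lkp [])) l6728 = true ∧
    allY (E.wth (lkp [])) l6729 = true ∧
    allY (E.wth (lkp [])) l6730 = true :=
  ⟨by decide +kernel, by decide +kernel, by decide +kernel, by decide +kernel, by decide +kernel, by decide +kernel, by decide +kernel, by decide +kernel⟩

def t6731 : allY (E.wth (lkp [])) l6731 = true ∧
    allY (E.wth (lkp [])) l6732 = true ∧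
    allY (E.wth (lkp [])) l6733 = true ∧
    allY (E.wth (lkp [])) l6734 = true ∧
    allY (E.wth (lkp [])) l6735 = true ∧
    allY (E.wth (lkp [])) l6736 = true ∧
    allY (E.wth (lkp [])) l6737 = true ∧
    allY (E.wth (lkp [])) l6738 = true :=
  ⟨by decide +kernel, by decide +kernel, by decide +kernel, by decide +kernel, by decide +kernel, by decide +kernel, by decide +kernel, by decide +kernel⟩

def t6739 : allY (E.wth (lkp [])) l6739 = true ∧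
    allY (E.wth (lkp [])) l6740 = true ∧
    allY (E.wth (lkp [])) l6741 = true ∧
    allY (E.wth (lkp [])) l6742 = true ∧
    allY (E.wth (lkp [])) l6743 = true ∧
    allY (E.wth (lkp [])) l6744 = true ∧
    allY (E.wth (lkp [])) l6745 = true ∧
    allY (E.wth (lkp [])) l6746 = true :=
  ⟨by decide +kernel, by decide +kernel, by decide +kernel, by decide +kernel, by decide +kernel, by decide +kernel, by decide +kernel, by decide +kernel⟩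

def t6747 : allY (E.wth (lkp [])) l6747 = true ∧
    allY (E.wth (lkp [])) l6748 = true ∧
    allY (E.wth (lkp [])) l6749 = true ∧
    allY (E.wth (lkp [])) l6750 = true ∧
    allY (E.wth (lkp [])) l6751 = true ∧
    allY (E.wth (lkp [])) l6752 = true ∧
    allY (E.wth (lkp [])) l6753 = true ∧
    allY (E.wth (lkp [])) l6754 = true :=
  ⟨by decide +kernel, by decide +kernel, by decide +kernel, by decide +kernel, by decide +kernel, by decide +kernel, by decide +kernel, by decide +kernel⟩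

def t6755 : allY (E.wth (lkp [])) l6755 = true ∧
    allY (E.wth (lkp [])) l6756 = true ∧
    allY (E.wth (lkp [])) l6757 = true ∧
    allY (E.wth (lkp [])) l6758 = true ∧
    allY (E.wth (lkp [])) l6759 = true ∧
    allY (E.wth (lkp [])) l6760 = true ∧
    allY (E.wth (lkp [])) l6761 = true ∧
    allY (E.wth (lkp [])) l6762 = true :=
  ⟨by decide +kernel, by decide +kernel, by decide +kernel, by decide +kernel, by decide +kernel, by decide +kernel, by decide +kernel, by decide +kernel⟩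

def t6763 : allY (E.wth (lkp [])) l6763 = true ∧
    allY (E.wth (lkp [])) l6764 = true ∧
    allY (E.wth (lkp [])) l6765 = true ∧
    allY (E.wth (lkp [])) l6766 = true ∧
    allY (E.wth (lkp [])) l6767 = true ∧
    allY (E.wth (lkp [])) l6768 = true ∧
    allY (E.wth (lkp [])) l6769 = true ∧
    allY (E.wth (lkp [])) l6770 = true :=
  ⟨by decide +kernel, by decide +kernel, by decide +kernel, by decide +kernel, by decide +kernel, by decide +kernel, by decide +kernel, by decide +kernel⟩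

def t6771 : allY (E.wth (lkp [])) l6771 = true ∧
    allY (E.wth (lkp [])) l6772 = true ∧
    allY (E.wth (lkp [])) l6773 = true ∧
    allY (E.wth (lkp [])) l6774 = true ∧
    allY (E.wth (lkp [])) l6775 = true ∧
    allY (E.wth (lkp [])) l6776 = true ∧
    allY (E.wth (lkp [])) l6777 = true ∧
    allY (E.wth (lkp [])) l6778 = true :=
  ⟨by decide +kernel, by decide +kernel, by decide +kernel, by decide +kernel, by decide +kernel, by decide +kernel, by decide +kernel, by decide +kernel⟩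

def t6779 : allY (E.wth (lkp [])) l6779 = true ∧
    allY (E.wth (lkp [])) l6780 = true ∧
    allY (E.wth (lkp [])) l6781 = true ∧
    allY (E.wth (lkp [])) l6782 = true ∧
    allY (E.wth (lkp [])) l6783 = true ∧
    allY (E.wth (lkp [])) l6784 = true ∧
    allY (E.wth (lkp [])) l6785 = true ∧
    allY (E.wth (lkp [])) l6786 = true :=
  ⟨by decide +kernel, by decide +kernel, by decide +kernel, by decide +kernel, by decide +kernel, by decide +kernel, by decide +kernel, by decide +kernel⟩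

def t6787 : allY (E.wth (lkp [])) l6787 = true ∧
    allY (E.wth (lkp [])) l6788 = true ∧
    allY (E.wth (lkp [])) l6789 = true ∧
    allY (E.wth (lkp [])) l6790 = true ∧
    allY (E.wth (lkp [])) l6791 = true ∧
    allY (E.wth (lkp [])) l6792 = true ∧
    allY (E.wth (lkp [])) l6793 = true ∧
    allY (E.wth (lkp [])) l6794 = true :=
  ⟨by decide +kernel, by decide +kernel, by decide +kernel, by decide +kernel, by decide +kernel, by decide +kernel, by decide +kernel, by decide +kernel⟩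

def t6795 : allY (E.wth (lkp [])) l6795 = true ∧
    allY (E.wth (lkp [])) l6796 = true ∧
    allY (E.wth (lkp [])) l6797 = true ∧
    allY (E.wth (lkp [])) l6798 = true ∧
    allY (E.wth (lkp [])) l6799 = true ∧
    allY (E.wth (lkp [])) l6800 = true ∧
    allY (E.wth (lkp [])) l6801 = true ∧
    allY (E.wth (lkp [])) l6802 = true :=
  ⟨by decide +kernel, by decide +kernel, by decide +kernel, by decide +kernel, by decide +kernel, by decide +kernel, by decide +kernel, by decide +kernel⟩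

def t6803 : allY (E.wth (lkp [])) l6803 = true ∧
    allY (E.wth (lkp [])) l6804 = true ∧
    allY (E.wth (lkp [])) l6805 = true ∧
    allY (E.wth (lkp [])) l6806 = true ∧
    allY (E.wth (lkp [])) l6807 = true ∧
    allY (E.wth (lkp [])) l6808 = true ∧
    allY (E.wth (lkp [])) l6809 = true ∧
    allY (E.wth (lkp [])) l6810 = true :=
  ⟨by decide +kernel, by decide +kernel, by decide +kernel, by decide +kernel, by decide +kernel, by decide +kernel, by decide +kernel, by decide +kernel⟩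

def t6811 : allY (E.wth (lkp [])) l6811 = true ∧
    allY (E.wth (lkp [])) l6812 = true ∧
    allY (E.wth (lkp [])) l6813 = true ∧
    allY (E.wth (lkp [])) l6814 = true ∧
    allY (E.wth (lkp [])) l6815 = true ∧
    allY (E.wth (lkp [])) l6816 = true ∧
    allY (E.wth (lkp [])) l6817 = true ∧
    allY (E.wth (lkp [])) l6818 = true :=
  ⟨by decide +kernel, by decide +kernel, by decide +kernel, by decide +kernel, by decide +kernel, by decide +kernel, by decide +kernel, by decide +kernel⟩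

def t6819 : allY (E.wth (lkp [])) l6819 = true ∧
    allY (E.wth (lkp [])) l6820 = true ∧
    allY (E.wth (lkp [])) l6821 = true ∧
    allY (E.wth (lkp [])) l6822 = true ∧
    allY (E.wth (lkp [])) l6823 = true ∧
    allY (E.wth (lkp [])) l6824 = true ∧
    allY (E.wth (lkp [])) l6825 = true ∧
    allY (E.wth (lkp [])) l6826 = true :=
  ⟨by decide +kernel, by decide +kernel, by decide +kernel, by decide +kernel, by decide +kernel, by decide +kernel, by decide +kernel, by decide +kernel⟩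

def t6827 : allY (E.wth (lkp [])) l6827 = true ∧
    allY (E.wth (lkp [])) l6828 = true ∧
    allY (E.wth (lkp [])) l6829 = true ∧
    allY (E.wth (lkp [])) l6830 = true ∧
    allY (E.wth (lkp [])) l6831 = true ∧
    allY (E.wth (lkp [])) l6832 = true ∧
    allY (E.wth (lkp [])) l6833 = true ∧
    allY (E.wth (lkp [])) l6834 = true :=
  ⟨by decide +kernel, by decide +kernel, by decide +kernel, by decide +kernel, by decide +kernel, by decide +kernel, by decide +kernel, by decide +kernel⟩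

def t6835 : allY (E.wth (lkp [])) l6835 = true ∧
    allY (E.wth (lkp [])) l6836 = true ∧
    allY (E.wth (lkp [])) l6837 = true ∧
    allY (E.wth (lkp [])) l6838 = true ∧
    allY (E.wth (lkp [])) l6839 = true ∧
    allY (E.wth (lkp [])) l6840 = true ∧
    allY (E.wth (lkp [])) l6841 = true ∧
    allY (E.wth (lkp [])) l6842 = true :=
  ⟨by decide +kernel, by decide +kernel, by decide +kernel, by decide +kernel, by decide +kernel, by decide +kernel, by decide +kernel, by decide +kernel⟩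

def t6843 : allY (E.wth (lkp [])) l6843 = true ∧
    allY (E.wth (lkp [])) l6844 = true ∧
    allY (E.wth (lkp [])) l6845 = true ∧
    allY (E.wth (lkp [])) l6846 = true ∧
    allY (E.wth (lkp [])) l6847 = true ∧
    allY (E.wth (lkp [])) l6848 = true ∧
    allY (E.wth (lkp [])) l6849 = true ∧
    allY (E.wth (lkp [])) l6850 = true :=
  ⟨by decide +kernel, by decide +kernel, by decide +kernel, by decide +kernel, by decide +kernel, by decide +kernel, by decide +kernel, by decide +kernel⟩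

def t6851 : allY (E.wth (lkp [])) l6851 = true ∧
    allY (E.wth (lkp [])) l6852 = true ∧
    allY (E.wth (lkp [])) l6853 = true ∧
    allY (E.wth (lkp [])) l6854 = true ∧
    allY (E.wth (lkp [])) l6855 = true ∧
    allY (E.wth (lkp [])) l6856 = true ∧
    allY (E.wth (lkp [])) l6857 = true ∧
    allY (E.wth (lkp [])) l6858 = true :=
  ⟨by decide +kernel, by decide +kernel, by decide +kernel, by decide +kernel, by decide +kernel, by decide +kernel, by decide +kernel, by decide +kernel⟩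

def t6859 : allY (E.wth (lkp [])) l6859 = true ∧
    allY (E.wth (lkp [])) l6860 = true ∧
    allY (E.wth (lkp [])) l6861 = true ∧
    allY (E.wth (lkp [])) l6862 = true ∧
    allY (E.wth (lkp [])) l6863 = true ∧
    allY (E.wth (lkp [])) l6864 = true ∧
    allY (E.wth (lkp [])) l6865 = true ∧
    allY (E.wth (lkp [])) l6866 = true :=
  ⟨by decide +kernel, by decide +kernel, by decide +kernel, by decide +kernel, by decide +kernel, by decide +kernel, by decide +kernel, by decide +kernel⟩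

def t6867 : allY (E.wth (lkp [])) l6867 = true ∧
    allY (E.wth (lkp [])) l6868 = true ∧
    allY (E.wth (lkp [])) l6869 = true ∧
    allY (E.wth (lkp [])) l6870 = true ∧
    allY (E.wth (lkp [])) l6871 = true ∧
    allY (E.wth (lkp [])) l6872 = true ∧
    allY (E.wth (lkp [])) l6873 = true ∧
    allY (E.wth (lkp [])) l6874 = true :=
  ⟨by decide +kernel, by decide +kernel, by decide +kernel, by decide +kernel, by decide +kernel, by decide +kernel, by decide +kernel, by decide +kernel⟩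

def t6875 : allY (E.wth (lkp [])) l6875 = true ∧
    allY (E.wth (lkp [])) l6876 = true ∧
    allY (E.wth (lkp [])) l6877 = true ∧
    allY (E.wth (lkp [])) l6878 = true ∧
    allY (E.wth (lkp [])) l6879 = true ∧
    allY (E.wth (lkp [])) l6880 = true ∧
    allY (E.wth (lkp [])) l6881 = true ∧
    allY (E.wth (lkp [])) l6882 = true :=
  ⟨by decide +kernel, by decide +kernel, by decide +kernel, by decide +kernel, by decide +kernel, by decide +kernel, by decide +kernel, by decide +kernel⟩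

def t6883 : allY (E.wth (lkp [])) l6883 = true ∧
    allY (E.wth (lkp [])) l6884 = true ∧
    allY (E.wth (lkp [])) l6885 = true ∧
    allY (E.wth (lkp [])) l6886 = true ∧
    allY (E.wth (lkp [])) l6887 = true ∧
    allY (E.wth (lkp [])) l6888 = true ∧
    allY (E.wth (lkp [])) l6889 = true ∧
    allY (E.wth (lkp [])) l6890 = true :=
  ⟨by decide +kernel, by decide +kernel, by decide +kernel, by decide +kernel, by decide +kernel, by decide +kernel, by decide +kernel, by decide +kernel⟩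

def t6891 : allY (E.wth (lkp [])) l6891 = true ∧
    allY (E.wth (lkp [])) l6892 = true ∧
    allY (E.wth (lkp [])) l6893 = true ∧
    allY (E.wth (lkp [])) l6894 = true ∧
    allY (E.wth (lkp [])) l6895 = true ∧
    allY (E.wth (lkp [])) l6896 = true ∧
    allY (E.wth (lkp [])) l6897 = true ∧
    allY (E.wth (lkp [])) l6898 = true :=
  ⟨by decide +kernel, by decide +kernel, by decide +kernel, by decide +kernel, by decide +kernel, by decide +kernel, by decide +kernel, by decide +kernel⟩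

def t6899 : allY (E.wth (lkp [])) l6899 = true ∧
    allY (E.wth (lkp [])) l6900 = true ∧
    allY (E.wth (lkp [])) l6901 = true ∧
    allY (E.wth (lkp [])) l6902 = true ∧
    allY (E.wth (lkp [])) l6903 = true ∧
    allY (E.wth (lkp [])) l6904 = true ∧
    allY (E.wth (lkp [])) l6905 = true ∧
    allY (E.wth (lkp [])) l6906 = true :=
  ⟨by decide +kernel, by decide +kernel, by decide +kernel, by decide +kernel, by decide +kernel, by decide +kernel, by decide +kernel, by decide +kernel⟩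

def t6907 : allY (E.wth (lkp [])) l6907 = true ∧
    allY (E.wth (lkp [])) l6908 = true ∧
    allY (E.wth (lkp [])) l6909 = true ∧
    allY (E.wth (lkp [])) l6910 = true ∧
    allY (E.wth (lkp [])) l6911 = true ∧
    allY (E.wth (lkp [])) l6912 = true ∧
    allY (E.wth (lkp [])) l6913 = true ∧
    allY (E.wth (lkp [])) l6914 = true :=
  ⟨by decide +kernel, by decide +kernel, by decide +kernel, by decide +kernel, by decide +kernel, by decide +kernel, by decide +kernel, by decide +kernel⟩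

def t6915 : allY (E.wth (lkp [])) l6915 = true ∧
    allY (E.wth (lkp [])) l6916 = true ∧
    allY (E.wth (lkp [])) l6917 = true ∧
    allY (E.wth (lkp [])) l6918 = true ∧
    allY (E.wth (lkp [])) l6919 = true ∧
    allY (E.wth (lkp [])) l6920 = true ∧
    allY (E.wth (lkp [])) l6921 = true ∧
    allY (E.wth (lkp [])) l6922 = true :=
  ⟨by decide +kernel, by decide +kernel, by decide +kernel, by decide +kernel, by decide +kernel, by decide +kernel, by decide +kernel, by decide +kernel⟩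

def t6923 : allY (E.wth (lkp [])) l6923 = true ∧
    allY (E.wth (lkp [])) l6924 = true ∧
    allY (E.wth (lkp [])) l6925 = true ∧
    allY (E.wth (lkp [])) l6926 = true ∧
    allY (E.wth (lkp [])) l6927 = true ∧
    allY (E.wth (lkp [])) l6928 = true ∧
    allY (E.wth (lkp [])) l6929 = true ∧
    allY (E.wth (lkp [])) l6930 = true :=
  ⟨by decide +kernel, by decide +kernel, by decide +kernel, by decide +kernel, by decide +kernel, by decide +kernel, by decide +kernel, by decide +kernel⟩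

def t6931 : allY (E.wth (lkp [])) l6931 = true ∧
    allY (E.wth (lkp [])) l6932 = true ∧
    allY (E.wth (lkp [])) l6933 = true ∧
    allY (E.wth (lkp [])) l6934 = true ∧
    allY (E.wth (lkp [])) l6935 = true ∧
    allY (E.wth (lkp [])) l6936 = true ∧
    allY (E.wth (lkp [])) l6937 = true ∧
    allY (E.wth (lkp [])) l6938 = true :=
  ⟨by decide +kernel, by decide +kernel, by decide +kernel, by decide +kernel, by decide +kernel, by decide +kernel, by decide +kernel, by decide +kernel⟩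

def t6939 : allY (E.wth (lkp [])) l6939 = true ∧
    allY (E.wth (lkp [])) l6940 = true ∧
    allY (E.wth (lkp [])) l6941 = true ∧
    allY (E.wth (lkp [])) l6942 = true ∧
    allY (E.wth (lkp [])) l6943 = true ∧
    allY (E.wth (lkp [])) l6944 = true ∧
    allY (E.wth (lkp [])) l6945 = true ∧
    allY (E.wth (lkp [])) l6946 = true :=
  ⟨by decide +kernel, by decide +kernel, by decide +kernel, by decide +kernel, by decide +kernel, by decide +kernel, by decide +kernel, by decide +kernel⟩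

def t6947 : allY (E.wth (lkp [])) l6947 = true ∧
    allY (E.wth (lkp [])) l6948 = true ∧
    allY (E.wth (lkp [])) l6949 = true ∧
    allY (E.wth (lkp [])) l6950 = true ∧
    allY (E.wth (lkp [])) l6951 = true ∧
    allY (E.wth (lkp [])) l6952 = true ∧
    allY (E.wth (lkp [])) l6953 = true ∧
    allY (E.wth (lkp [])) l6954 = true :=
  ⟨by decide +kernel, by decide +kernel, by decide +kernel, by decide +kernel, by decide +kernel, by decide +kernel, by decide +kernel, by decide +kernel⟩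

def t6955 : allY (E.wth (lkp [])) l6955 = true ∧
    allY (E.wth (lkp [])) l6956 = true ∧
    allY (E.wth (lkp [])) l6957 = true ∧
    allY (E.wth (lkp [])) l6958 = true ∧
    allY (E.wth (lkp [])) l6959 = true ∧
    allY (E.wth (lkp [])) l6960 = true ∧
    allY (E.wth (lkp [])) l6961 = true ∧
    allY (E.wth (lkp [])) l6962 = true :=
  ⟨by decide +kernel, by decide +kernel, by decide +kernel, by decide +kernel, by decide +kernel, by decide +kernel, by decide +kernel, by decide +kernel⟩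

def t6963 : allY (E.wth (lkp [])) l6963 = true ∧
    allY (E.wth (lkp [])) l6964 = true ∧
    allY (E.wth (lkp [])) l6965 = true ∧
    allY (E.wth (lkp [])) l6966 = true ∧
    allY (E.wth (lkp [])) l6967 = true ∧
    allY (E.wth (lkp [])) l6968 = true ∧
    allY (E.wth (lkp [])) l6969 = true ∧
    allY (E.wth (lkp [])) l6970 = true :=
  ⟨by decide +kernel, by decide +kernel, by decide +kernel, by decide +kernel, by decide +kernel, by decide +kernel, by decide +kernel, by decide +kernel⟩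

def t6971 : allY (E.wth (lkp [])) l6971 = true ∧
    allY (E.wth (lkp [])) l6972 = true ∧
    allY (E.wth (lkp [])) l6973 = true ∧
    allY (E.wth (lkp [])) l6974 = true ∧
    allY (E.wth (lkp [])) l6975 = true ∧
    allY (E.wth (lkp [])) l6976 = true ∧
    allY (E.wth (lkp [])) l6977 = true ∧
    allY (E.wth (lkp [])) l6978 = true :=
  ⟨by decide +kernel, by decide +kernel, by decide +kernel, by decide +kernel, by decide +kernel, by decide +kernel, by decide +kernel, by decide +kernel⟩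

def t6979 : allY (E.wth (lkp [])) l6979 = true ∧
    allY (E.wth (lkp [])) l6980 = true ∧
    allY (E.wth (lkp [])) l6981 = true ∧
    allY (E.wth (lkp [])) l6982 = true ∧
    allY (E.wth (lkp [])) l6983 = true ∧
    allY (E.wth (lkp [])) l6984 = true ∧
    allY (E.wth (lkp [])) l6985 = true ∧
    allY (E.wth (lkp [])) l6986 = true :=
  ⟨by decide +kernel, by decide +kernel, by decide +kernel, by decide +kernel, by decide +kernel, by decide +kernel, by decide +kernel, by decide +kernel⟩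

def t6987 : allY (E.wth (lkp [])) l6987 = true ∧
    allY (E.wth (lkp [])) l6988 = true ∧
    allY (E.wth (lkp [])) l6989 = true ∧
    allY (E.wth (lkp [])) l6990 = true ∧
    allY (E.wth (lkp [])) l6991 = true ∧
    allY (E.wth (lkp [])) l6992 = true ∧
    allY (E.wth (lkp [])) l6993 = true ∧
    allY (E.wth (lkp [])) l6994 = true :=
  ⟨by decide +kernel, by decide +kernel, by decide +kernel, by decide +kernel, by decide +kernel, by decide +kernel, by decide +kernel, by decide +kernel⟩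

def t6995 : allY (E.wth (lkp [])) l6995 = true ∧
    allY (E.wth (lkp [])) l6996 = true ∧
    allY (E.wth (lkp [])) l6997 = true ∧
    allY (E.wth (lkp [])) l6998 = true ∧
    allY (E.wth (lkp [])) l6999 = true ∧
    allY (E.wth (lkp [])) l7000 = true ∧
    allY (E.wth (lkp [])) l7001 = true ∧
    allY (E.wth (lkp [])) l7002 = true :=
  ⟨by decide +kernel, by decide +kernel, by decide +kernel, by decide +kernel, by decide +kernel, by decide +kernel, by decide +kernel, by decide +kernel⟩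

def t7003 : allY (E.wth (lkp [])) l7003 = true ∧
    allY (E.wth (lkp [])) l7004 = true ∧
    allY (E.wth (lkp [])) l7005 = true ∧
    allY (E.wth (lkp [])) l7006 = true ∧
    allY (E.wth (lkp [])) l7007 = true ∧
    allY (E.wth (lkp [])) l7008 = true ∧
    allY (E.wth (lkp [])) l7009 = true ∧
    allY (E.wth (lkp [])) l7010 = true :=
  ⟨by decide +kernel, by decide +kernel, by decide +kernel, by decide +kernel, by decide +kernel, by decide +kernel, by decide +kernel, by decide +kernel⟩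

def t7011 : allY (E.wth (lkp [])) l7011 = true ∧
    allY (E.wth (lkp [])) l7012 = true ∧
    allY (E.wth (lkp [])) l7013 = true ∧
    allY (E.wth (lkp [])) l7014 = true ∧
    allY (E.wth (lkp [])) l7015 = true ∧
    allY (E.wth (lkp [])) l7016 = true ∧
    allY (E.wth (lkp [])) l7017 = true ∧
    allY (E.wth (lkp [])) l7018 = true :=
  ⟨by decide +kernel, by decide +kernel, by decide +kernel, by decide +kernel, by decide +kernel, by decide +kernel, by decide +kernel, by decide +kernel⟩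

def t7019 : allY (E.wth (lkp [])) l7019 = true ∧
    allY (E.wth (lkp [])) l7020 = true ∧
    allY (E.wth (lkp [])) l7021 = true ∧
    allY (E.wth (lkp [])) l7022 = true ∧
    allY (E.wth (lkp [])) l7023 = true ∧
    allY (E.wth (lkp [])) l7024 = true ∧
    allY (E.wth (lkp [])) l7025 = true ∧
    allY (E.wth (lkp [])) l7026 = true :=
  ⟨by decide +kernel, by decide +kernel, by decide +kernel, by decide +kernel, by decide +kernel, by decide +kernel, by decide +kernel, by decide +kernel⟩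

def t7027 : allY (E.wth (lkp [])) l7027 = true ∧
    allY (E.wth (lkp [])) l7028 = true ∧
    allY (E.wth (lkp [])) l7029 = true ∧
    allY (E.wth (lkp [])) l7030 = true ∧
    allY (E.wth (lkp [])) l7031 = true ∧
    allY (E.wth (lkp [])) l7032 = true ∧
    allY (E.wth (lkp [])) l7033 = true ∧
    allY (E.wth (lkp [])) l7034 = true :=
  ⟨by decide +kernel, by decide +kernel, by decide +kernel, by decide +kernel, by decide +kernel, by decide +kernel, by decide +kernel, by decide +kernel⟩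

def t7035 : allY (E.wth (lkp [])) l7035 = true ∧
    allY (E.wth (lkp [])) l7036 = true ∧
    allY (E.wth (lkp [])) l7037 = true ∧
    allY (E.wth (lkp [])) l7038 = true ∧
    allY (E.wth (lkp [])) l7039 = true ∧
    allY (E.wth (lkp [])) l7040 = true ∧
    allY (E.wth (lkp [])) l7041 = true ∧
    allY (E.wth (lkp [])) l7042 = true :=
  ⟨by decide +kernel, by decide +kernel, by decide +kernel, by decide +kernel, by decide +kernel, by decide +kernel, by decide +kernel, by decide +kernel⟩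

def t7043 : allY (E.wth (lkp [])) l7043 = true ∧
    allY (E.wth (lkp [])) l7044 = true ∧
    allY (E.wth (lkp [])) l7045 = true ∧
    allY (E.wth (lkp [])) l7046 = true ∧
    allY (E.wth (lkp [])) l7047 = true ∧
    allY (E.wth (lkp [])) l7048 = true ∧
    allY (E.wth (lkp [])) l7049 = true ∧
    allY (E.wth (lkp [])) l7050 = true :=
  ⟨by decide +kernel, by decide +kernel, by decide +kernel, by decide +kernel, by decide +kernel, by decide +kernel, by decide +kernel, by decide +kernel⟩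

def t7051 : allY (E.wth (lkp [])) l7051 = true ∧
    allY (E.wth (lkp [])) l7052 = true ∧
    allY (E.wth (lkp [])) l7053 = true ∧
    allY (E.wth (lkp [])) l7054 = true ∧
    allY (E.wth (lkp [])) l7055 = true ∧
    allY (E.wth (lkp [])) l7056 = true ∧
    allY (E.wth (lkp [])) l7057 = true ∧
    allY (E.wth (lkp [])) l7058 = true :=
  ⟨by decide +kernel, by decide +kernel, by decide +kernel, by decide +kernel, by decide +kernel, by decide +kernel, by decide +kernel, by decide +kernel⟩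

def t7059 : allY (E.wth (lkp [])) l7059 = true ∧
    allY (E.wth (lkp [])) l7060 = true ∧
    allY (E.wth (lkp [])) l7061 = true ∧
    allY (E.wth (lkp [])) l7062 = true ∧
    allY (E.wth (lkp [])) l7063 = true ∧
    allY (E.wth (lkp [])) l7064 = true ∧
    allY (E.wth (lkp [])) l7065 = true ∧
    allY (E.wth (lkp [])) l7066 = true :=
  ⟨by decide +kernel, by decide +kernel, by decide +kernel, by decide +kernel, by decide +kernel, by decide +kernel, by decide +kernel, by decide +kernel⟩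

def t7067 : allY (E.wth (lkp [])) l7067 = true ∧
    allY (E.wth (lkp [])) l7068 = true ∧
    allY (E.wth (lkp [])) l7069 = true ∧
    allY (E.wth (lkp [])) l7070 = true ∧
    allY (E.wth (lkp [])) l7071 = true ∧
    allY (E.wth (lkp [])) l7072 = true ∧
    allY (E.wth (lkp [])) l7073 = true ∧
    allY (E.wth (lkp [])) l7074 = true :=
  ⟨by decide +kernel, by decide +kernel, by decide +kernel, by decide +kernel, by decide +kernel, by decide +kernel, by decide +kernel, by decide +kernel⟩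

def t7075 : allY (E.wth (lkp [])) l7075 = true ∧
    allY (E.wth (lkp [])) l7076 = true ∧
    allY (E.wth (lkp [])) l7077 = true ∧
    allY (E.wth (lkp [])) l7078 = true ∧
    allY (E.wth (lkp [])) l7079 = true ∧
    allY (E.wth (lkp [])) l7080 = true ∧
    allY (E.wth (lkp [])) l7081 = true ∧
    allY (E.wth (lkp [])) l7082 = true :=
  ⟨by decide +kernel, by decide +kernel, by decide +kernel, by decide +kernel, by decide +kernel, by decide +kernel, by decide +kernel, by decide +kernel⟩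

def t7083 : allY (E.wth (lkp [])) l7083 = true ∧
    allY (E.wth (lkp [])) l7084 = true ∧
    allY (E.wth (lkp [])) l7085 = true ∧
    allY (E.wth (lkp [])) l7086 = true ∧
    allY (E.wth (lkp [])) l7087 = true ∧
    allY (E.wth (lkp [])) l7088 = true ∧
    allY (E.wth (lkp [])) l7089 = true ∧
    allY (E.wth (lkp [])) l7090 = true :=
  ⟨by decide +kernel, by decide +kernel, by decide +kernel, by decide +kernel, by decide +kernel, by decide +kernel, by decide +kernel, by decide +kernel⟩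

def t7091 : allY (E.wth (lkp [])) l7091 = true ∧
    allY (E.wth (lkp [])) l7092 = true ∧
    allY (E.wth (lkp [])) l7093 = true ∧
    allY (E.wth (lkp [])) l7094 = true ∧
    allY (E.wth (lkp [])) l7095 = true ∧
    allY (E.wth (lkp [])) l7096 = true ∧
    allY (E.wth (lkp [])) l7097 = true ∧
    allY (E.wth (lkp [])) l7098 = true :=
  ⟨by decide +kernel, by decide +kernel, by decide +kernel, by decide +kernel, by decide +kernel, by decide +kernel, by decide +kernel, by decide +kernel⟩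

def t7099 : allY (E.wth (lkp [])) l7099 = true ∧
    allY (E.wth (lkp [])) l7100 = true ∧
    allY (E.wth (lkp [])) l7101 = true ∧
    allY (E.wth (lkp [])) l7102 = true ∧
    allY (E.wth (lkp [])) l7103 = true ∧
    allY (E.wth (lkp [])) l7104 = true ∧
    allY (E.wth (lkp [])) l7105 = true ∧
    allY (E.wth (lkp [])) l7106 = true :=
  ⟨by decide +kernel, by decide +kernel, by decide +kernel, by decide +kernel, by decide +kernel, by decide +kernel, by decide +kernel, by decide +kernel⟩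

def t7107 : allY (E.wth (lkp [])) l7107 = true ∧
    allY (E.wth (lkp [])) l7108 = true ∧
    allY (E.wth (lkp [])) l7109 = true ∧
    allY (E.wth (lkp [])) l7110 = true ∧
    allY (E.wth (lkp [])) l7111 = true ∧
    allY (E.wth (lkp [])) l7112 = true ∧
    allY (E.wth (lkp [])) l7113 = true ∧
    allY (E.wth (lkp [])) l7114 = true :=
  ⟨by decide +kernel, by decide +kernel, by decide +kernel, by decide +kernel, by decide +kernel, by decide +kernel, by decide +kernel, by decide +kernel⟩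

def t7115 : allY (E.wth (lkp [])) l7115 = true ∧
    allY (E.wth (lkp [])) l7116 = true ∧
    allY (E.wth (lkp [])) l7117 = true ∧
    allY (E.wth (lkp [])) l7118 = true ∧
    allY (E.wth (lkp [])) l7119 = true ∧
    allY (E.wth (lkp [])) l7120 = true ∧
    allY (E.wth (lkp [])) l7121 = true ∧
    allY (E.wth (lkp [])) l7122 = true :=
  ⟨by decide +kernel, by decide +kernel, by decide +kernel, by decide +kernel, by decide +kernel, by decide +kernel, by decide +kernel, by decide +kernel⟩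

def t7123 : allY (E.wth (lkp [])) l7123 = true ∧
    allY (E.wth (lkp [])) l7124 = true ∧
    allY (E.wth (lkp [])) l7125 = true ∧
    allY (E.wth (lkp [])) l7126 = true ∧
    allY (E.wth (lkp [])) l7127 = true ∧
    allY (E.wth (lkp [])) l7128 = true ∧
    allY (E.wth (lkp [])) l7129 = true ∧
    allY (E.wth (lkp [])) l7130 = true :=
  ⟨by decide +kernel, by decide +kernel, by decide +kernel, by decide +kernel, by decide +kernel, by decide +kernel, by decide +kernel, by decide +kernel⟩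

def t7131 : allY (E.wth (lkp [])) l7131 = true ∧
    allY (E.wth (lkp [])) l7132 = true ∧
    allY (E.wth (lkp [])) l7133 = true ∧
    allY (E.wth (lkp [])) l7134 = true ∧
    allY (E.wth (lkp [])) l7135 = true ∧
    allY (E.wth (lkp [])) l7136 = true ∧
    allY (E.wth (lkp [])) l7137 = true ∧
    allY (E.wth (lkp [])) l7138 = true :=
  ⟨by decide +kernel, by decide +kernel, by decide +kernel, by decide +kernel, by decide +kernel, by decide +kernel, by decide +kernel, by decide +kernel⟩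

def t7139 : allY (E.wth (lkp [])) l7139 = true ∧
    allY (E.wth (lkp [])) l7140 = true ∧
    allY (E.wth (lkp [])) l7141 = true ∧
    allY (E.wth (lkp [])) l7142 = true ∧
    allY (E.wth (lkp [])) l7143 = true ∧
    allY (E.wth (lkp [])) l7144 = true ∧
    allY (E.wth (lkp [])) l7145 = true ∧
    allY (E.wth (lkp [])) l7146 = true :=
  ⟨by decide +kernel, by decide +kernel, by decide +kernel, by decide +kernel, by decide +kernel, by decide +kernel, by decide +kernel, by decide +kernel⟩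

def t7147 : allY (E.wth (lkp [])) l7147 = true ∧
    allY (E.wth (lkp [])) l7148 = true ∧
    allY (E.wth (lkp [])) l7149 = true ∧
    allY (E.wth (lkp [])) l7150 = true ∧
    allY (E.wth (lkp [])) l7151 = true ∧
    allY (E.wth (lkp [])) l7152 = true ∧
    allY (E.wth (lkp [])) l7153 = true ∧
    allY (E.wth (lkp [])) l7154 = true :=
  ⟨by decide +kernel, by decide +kernel, by decide +kernel, by decide +kernel, by decide +kernel, by decide +kernel, by decide +kernel, by decide +kernel⟩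

def t7155 : allY (E.wth (lkp [])) l7155 = true ∧
    allY (E.wth (lkp [])) l7156 = true ∧
    allY (E.wth (lkp [])) l7157 = true ∧
    allY (E.wth (lkp [])) l7158 = true ∧
    allY (E.wth (lkp [])) l7159 = true ∧
    allY (E.wth (lkp [])) l7160 = true ∧
    allY (E.wth (lkp [])) l7161 = true ∧
    allY (E.wth (lkp [])) l7162 = true :=
  ⟨by decide +kernel, by decide +kernel, by decide +kernel, by decide +kernel, by decide +kernel, by decide +kernel, by decide +kernel, by decide +kernel⟩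

def t7163 : allY (E.wth (lkp [])) l7163 = true ∧
    allY (E.wth (lkp [])) l7164 = true ∧
    allY (E.wth (lkp [])) l7165 = true ∧
    allY (E.wth (lkp [])) l7166 = true ∧
    allY (E.wth (lkp [])) l7167 = true ∧
    allY (E.wth (lkp [])) l7168 = true ∧
    allY (E.wth (lkp [])) l7169 = true ∧
    allY (E.wth (lkp [])) l7170 = true :=
  ⟨by decide +kernel, by decide +kernel, by decide +kernel, by decide +kernel, by decide +kernel, by decide +kernel, by decide +kernel, by decide +kernel⟩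

def t7171 : allY (E.wth (lkp [])) l7171 = true ∧
    allY (E.wth (lkp [])) l7172 = true ∧
    allY (E.wth (lkp [])) l7173 = true ∧
    allY (E.wth (lkp [])) l7174 = true ∧
    allY (E.wth (lkp [])) l7175 = true ∧
    allY (E.wth (lkp [])) l7176 = true ∧
    allY (E.wth (lkp [])) l7177 = true ∧
    allY (E.wth (lkp [])) l7178 = true :=
  ⟨by decide +kernel, by decide +kernel, by decide +kernel, by decide +kernel, by decide +kernel, by decide +kernel, by decide +kernel, by decide +kernel⟩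

def t7179 : allY (E.wth (lkp [])) l7179 = true ∧
    allY (E.wth (lkp [])) l7180 = true ∧
    allY (E.wth (lkp [])) l7181 = true ∧
    allY (E.wth (lkp [])) l7182 = true ∧
    allY (E.wth (lkp [])) l7183 = true ∧
    allY (E.wth (lkp [])) l7184 = true ∧
    allY (E.wth (lkp [])) l7185 = true ∧
    allY (E.wth (lkp [])) l7186 = true :=
  ⟨by decide +kernel, by decide +kernel, by decide +kernel, by decide +kernel, by decide +kernel, by decide +kernel, by decide +kernel, by decide +kernel⟩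

def t7187 : allY (E.wth (lkp [])) l7187 = true ∧
    allY (E.wth (lkp [])) l7188 = true ∧
    allY (E.wth (lkp [])) l7189 = true ∧
    allY (E.wth (lkp [])) l7190 = true ∧
    allY (E.wth (lkp [])) l7191 = true ∧
    allY (E.wth (lkp [])) l7192 = true ∧
    allY (E.wth (lkp [])) l7193 = true ∧
    allY (E.wth (lkp [])) l7194 = true :=
  ⟨by decide +kernel, by decide +kernel, by decide +kernel, by decide +kernel, by decide +kernel, by decide +kernel, by decide +kernel, by decide +kernel⟩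

def t7195 : allY (E.wth (lkp [])) l7195 = true ∧
    allY (E.wth (lkp [])) l7196 = true ∧
    allY (E.wth (lkp [])) l7197 = true ∧
    allY (E.wth (lkp [])) l7198 = true ∧
    allY (E.wth (lkp [])) l7199 = true ∧
    allY (E.wth (lkp [])) l7200 = true ∧
    allY (E.wth (lkp [])) l7201 = true ∧
    allY (E.wth (lkp [])) l7202 = true :=
  ⟨by decide +kernel, by decide +kernel, by decide +kernel, by decide +kernel, by decide +kernel, by decide +kernel, by decide +kernel, by decide +kernel⟩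

def t7203 : allY (E.wth (lkp [])) l7203 = true ∧
    allY (E.wth (lkp [])) l7204 = true ∧
    allY (E.wth (lkp [])) l7205 = true ∧
    allY (E.wth (lkp [])) l7206 = true ∧
    allY (E.wth (lkp [])) l7207 = true ∧
    allY (E.wth (lkp [])) l7208 = true ∧
    allY (E.wth (lkp [])) l7209 = true ∧
    allY (E.wth (lkp [])) l7210 = true :=
  ⟨by decide +kernel, by decide +kernel, by decide +kernel, by decide +kernel, by decide +kernel, by decide +kernel, by decide +kernel, by decide +kernel⟩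

def t7211 : allY (E.wth (lkp [])) l7211 = true ∧
    allY (E.wth (lkp [])) l7212 = true ∧
    allY (E.wth (lkp [])) l7213 = true ∧
    allY (E.wth (lkp [])) l7214 = true ∧
    allY (E.wth (lkp [])) l7215 = true ∧
    allY (E.wth (lkp [])) l7216 = true ∧
    allY (E.wth (lkp [])) l7217 = true ∧
    allY (E.wth (lkp [])) l7218 = true :=
  ⟨by decide +kernel, by decide +kernel, by decide +kernel, by decide +kernel, by decide +kernel, by decide +kernel, by decide +kernel, by decide +kernel⟩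

def t7219 : allY (E.wth (lkp [])) l7219 = true ∧
    allY (E.wth (lkp [])) l7220 = true ∧
    allY (E.wth (lkp [])) l7221 = true ∧
    allY (E.wth (lkp [])) l7222 = true ∧
    allY (E.wth (lkp [])) l7223 = true ∧
    allY (E.wth (lkp [])) l7224 = true ∧
    allY (E.wth (lkp [])) l7225 = true ∧
    allY (E.wth (lkp [])) l7226 = true :=
  ⟨by decide +kernel, by decide +kernel, by decide +kernel, by decide +kernel, by decide +kernel, by decide +kernel, by decide +kernel, by decide +kernel⟩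

def t7227 : allY (E.wth (lkp [])) l7227 = true ∧
    allY (E.wth (lkp [])) l7228 = true ∧
    allY (E.wth (lkp [])) l7229 = true ∧
    allY (E.wth (lkp [])) l7230 = true ∧
    allY (E.wth (lkp [])) l7231 = true ∧
    allY (E.wth (lkp [])) l7232 = true ∧
    allY (E.wth (lkp [])) l7233 = true ∧
    allY (E.wth (lkp [])) l7234 = true :=
  ⟨by decide +kernel, by decide +kernel, by decide +kernel, by decide +kernel, by decide +kernel, by decide +kernel, by decide +kernel, by decide +kernel⟩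

def t7235 : allY (E.wth (lkp [])) l7235 = true ∧
    allY (E.wth (lkp [])) l7236 = true ∧
    allY (E.wth (lkp [])) l7237 = true ∧
    allY (E.wth (lkp [])) l7238 = true ∧
    allY (E.wth (lkp [])) l7239 = true ∧
    allY (E.wth (lkp [])) l7240 = true ∧
    allY (E.wth (lkp [])) l7241 = true ∧
    allY (E.wth (lkp [])) l7242 = true :=
  ⟨by decide +kernel, by decide +kernel, by decide +kernel, by decide +kernel, by decide +kernel, by decide +kernel, by decide +kernel, by decide +kernel⟩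

def t7243 : allY (E.wth (lkp [])) l7243 = true ∧
    allY (E.wth (lkp [])) l7244 = true ∧
    allY (E.wth (lkp [])) l7245 = true ∧
    allY (E.wth (lkp [])) l7246 = true ∧
    allY (E.wth (lkp [])) l7247 = true ∧
    allY (E.wth (lkp [])) l7248 = true ∧
    allY (E.wth (lkp [])) l7249 = true ∧
    allY (E.wth (lkp [])) l7250 = true :=
  ⟨by decide +kernel, by decide +kernel, by decide +kernel, by decide +kernel, by decide +kernel, by decide +kernel, by decide +kernel, by decide +kernel⟩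

def t7251 : allY (E.wth (lkp [])) l7251 = true ∧
    allY (E.wth (lkp [])) l7252 = true ∧
    allY (E.wth (lkp [])) l7253 = true ∧
    allY (E.wth (lkp [])) l7254 = true ∧
    allY (E.wth (lkp [])) l7255 = true ∧
    allY (E.wth (lkp [])) l7256 = true ∧
    allY (E.wth (lkp [])) l7257 = true ∧
    allY (E.wth (lkp [])) l7258 = true :=
  ⟨by decide +kernel, by decide +kernel, by decide +kernel, by decide +kernel, by decide +kernel, by decide +kernel, by decide +kernel, by decide +kernel⟩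

def t7259 : allY (E.wth (lkp [])) l7259 = true ∧
    allY (E.wth (lkp [])) l7260 = true ∧
    allY (E.wth (lkp [])) l7261 = true ∧
    allY (E.wth (lkp [])) l7262 = true ∧
    allY (E.wth (lkp [])) l7263 = true ∧
    allY (E.wth (lkp [])) l7264 = true ∧
    allY (E.wth (lkp [])) l7265 = true ∧
    allY (E.wth (lkp [])) l7266 = true :=
  ⟨by decide +kernel, by decide +kernel, by decide +kernel, by decide +kernel, by decide +kernel, by decide +kernel, by decide +kernel, by decide +kernel⟩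

def t7267 : allY (E.wth (lkp [])) l7267 = true :=
  by decide +kernel

theorem a12 {p : Rf → Prop} (H : ∀ l, allY (E.wth (lkp [])) l = true → (lkp l).All p) :
    b12.All p := ⟨⟨⟨⟨⟨⟨⟨⟨⟨H _ t6707.1, H _ t6707.2.1⟩, ⟨H _ t6707.2.2.1, H _ t6707.2.2.2.1⟩⟩, ⟨⟨H _ t6707.2.2.2.2.1, H _ t6707.2.2.2.2.2.1⟩, ⟨H _ t6707.2.2.2.2.2.2.1, H _ t6707.2.2.2.2.2.2.2⟩⟩⟩, ⟨⟨⟨H _ t6715.1, H _ t6715.2.1⟩, ⟨H _ t6715.2.2.1, H _ t6715.2.2.2.1⟩⟩, ⟨⟨H _ t6715.2.2.2.2.1, H _ t6715.2.2.2.2.2.1⟩, ⟨H _ t6715.2.2.2.2.2.2.1, ⟨H _ t6715.2.2.2.2.2.2.2, H _ t6723.1⟩⟩⟩⟩⟩, ⟨⟨⟨⟨H _ t6723.2.1, H _ t6723.2.2.1⟩, ⟨H _ t6723.2.2.2.1, H _ t6723.2.2.2.2.1⟩⟩, ⟨⟨H _ t6723.2.2.2.2.2.1, H _ t6723.2.2.2.2.2.2.1⟩, ⟨H _ t6723.2.2.2.2.2.2.2, ⟨H _ t6731.1, H _ t6731.2.1⟩⟩⟩⟩, ⟨⟨⟨H _ t6731.2.2.1, H _ t6731.2.2.2.1⟩, ⟨H _ t6731.2.2.2.2.1, H _ t6731.2.2.2.2.2.1⟩⟩, ⟨⟨H _ t6731.2.2.2.2.2.2.1, H _ t6731.2.2.2.2.2.2.2⟩, ⟨H _ t6739.1,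 ⟨H _ t6739.2.1, H _ t6739.2.2.1⟩⟩⟩⟩⟩⟩, ⟨⟨⟨⟨⟨H _ t6739.2.2.2.1, H _ t6739.2.2.2.2.1⟩, ⟨H _ t6739.2.2.2.2.2.1, H _ t6739.2.2.2.2.2.2.1⟩⟩, ⟨⟨H _ t6739.2.2.2.2.2.2.2, H _ t6747.1⟩, ⟨H _ t6747.2.1, H _ t6747.2.2.1⟩⟩⟩, ⟨⟨⟨H _ t6747.2.2.2.1, H _ t6747.2.2.2.2.1⟩, ⟨H _ t6747.2.2.2.2.2.1, H _ t6747.2.2.2.2.2.2.1⟩⟩, ⟨⟨H _ t6747.2.2.2.2.2.2.2, H _ t6755.1⟩, ⟨H _ t6755.2.1, ⟨H _ t6755.2.2.1, H _ t6755.2.2.2.1⟩⟩⟩⟩⟩, ⟨⟨⟨⟨H _ t6755.2.2.2.2.1, H _ t6755.2.2.2.2.2.1⟩, ⟨H _ t6755.2.2.2.2.2.2.1, H _ t6755.2.2.2.2.2.2.2⟩⟩, ⟨⟨H _ t6763.1, H _ t6763.2.1⟩, ⟨H _ t6763.2.2.1, ⟨H _ t6763.2.2.2.1, H _ t6763.2.2.2.2.1⟩⟩⟩⟩, ⟨⟨⟨H _ t6763.2.2.2.2.2.1, H _ t6763.2.2.2.2.2.2.1⟩, ⟨H _ t6763.2.2.2.2.2.2.2, H _ t6771.1⟩⟩, ⟨⟨H _ t6771.2.1, H _ t6771.2.2.1⟩, ⟨H _ t6771.2.2.2.1, ⟨H _ t6771.2.2.2.2.1, H _ t6771.2.2.2.2.2.1⟩⟩⟩⟩⟩⟩⟩, ⟨⟨⟨⟨⟨⟨H _ t6771.2.2.2.2.2.2.1, H _ t6771.2.2.2.2.2.2.2⟩, ⟨H _ t6779.1, H _ t6779.2.1⟩⟩,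 ⟨⟨H _ t6779.2.2.1, H _ t6779.2.2.2.1⟩, ⟨H _ t6779.2.2.2.2.1, H _ t6779.2.2.2.2.2.1⟩⟩⟩, ⟨⟨⟨H _ t6779.2.2.2.2.2.2.1, H _ t6779.2.2.2.2.2.2.2⟩, ⟨H _ t6787.1, H _ t6787.2.1⟩⟩, ⟨⟨H _ t6787.2.2.1, H _ t6787.2.2.2.1⟩, ⟨H _ t6787.2.2.2.2.1, ⟨H _ t6787.2.2.2.2.2.1, H _ t6787.2.2.2.2.2.2.1⟩⟩⟩⟩⟩, ⟨⟨⟨⟨H _ t6787.2.2.2.2.2.2.2, H _ t6795.1⟩, ⟨H _ t6795.2.1, H _ t6795.2.2.1⟩⟩, ⟨⟨H _ t6795.2.2.2.1, H _ t6795.2.2.2.2.1⟩, ⟨H _ t6795.2.2.2.2.2.1, ⟨H _ t6795.2.2.2.2.2.2.1, H _ t6795.2.2.2.2.2.2.2⟩⟩⟩⟩, ⟨⟨⟨H _ t6803.1, H _ t6803.2.1⟩, ⟨H _ t6803.2.2.1, H _ t6803.2.2.2.1⟩⟩, ⟨⟨H _ t6803.2.2.2.2.1, H _ t6803.2.2.2.2.2.1⟩, ⟨H _ t6803.2.2.2.2.2.2.1, ⟨H _ t6803.2.2.2.2.2.2.2, H _ t6811.1⟩⟩⟩⟩⟩⟩, ⟨⟨⟨⟨⟨H _ t6811.2.1, H _ t6811.2.2.1⟩, ⟨H _ t6811.2.2.2.1, H _ t6811.2.2.2.2.1⟩⟩, ⟨⟨H _ t6811.2.2.2.2.2.1, H _ t6811.2.2.2.2.2.2.1⟩, ⟨H _ t6811.2.2.2.2.2.2.2, H _ t6819.1⟩⟩⟩, ⟨⟨⟨H _ t6819.2.1, H _ t6819.2.2.1⟩,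 ⟨H _ t6819.2.2.2.1, H _ t6819.2.2.2.2.1⟩⟩, ⟨⟨H _ t6819.2.2.2.2.2.1, H _ t6819.2.2.2.2.2.2.1⟩, ⟨H _ t6819.2.2.2.2.2.2.2, ⟨H _ t6827.1, H _ t6827.2.1⟩⟩⟩⟩⟩, ⟨⟨⟨⟨H _ t6827.2.2.1, H _ t6827.2.2.2.1⟩, ⟨H _ t6827.2.2.2.2.1, H _ t6827.2.2.2.2.2.1⟩⟩, ⟨⟨H _ t6827.2.2.2.2.2.2.1, H _ t6827.2.2.2.2.2.2.2⟩, ⟨H _ t6835.1, ⟨H _ t6835.2.1, H _ t6835.2.2.1⟩⟩⟩⟩, ⟨⟨⟨H _ t6835.2.2.2.1, H _ t6835.2.2.2.2.1⟩, ⟨H _ t6835.2.2.2.2.2.1, H _ t6835.2.2.2.2.2.2.1⟩⟩, ⟨⟨H _ t6835.2.2.2.2.2.2.2, H _ t6843.1⟩, ⟨H _ t6843.2.1, ⟨H _ t6843.2.2.1, H _ t6843.2.2.2.1⟩⟩⟩⟩⟩⟩⟩⟩, ⟨⟨⟨⟨⟨⟨⟨H _ t6843.2.2.2.2.1, H _ t6843.2.2.2.2.2.1⟩, ⟨H _ t6843.2.2.2.2.2.2.1, H _ t6843.2.2.2.2.2.2.2⟩⟩, ⟨⟨H _ t6851.1, H _ t6851.2.1⟩, ⟨H _ t6851.2.2.1, H _ t6851.2.2.2.1⟩⟩⟩, ⟨⟨⟨H _ t6851.2.2.2.2.1, H _ t6851.2.2.2.2.2.1⟩, ⟨H _ t6851.2.2.2.2.2.2.1, H _ t6851.2.2.2.2.2.2.2⟩⟩, ⟨⟨H _ t6859.1, H _ t6859.2.1⟩, ⟨H _ t6859.2.2.1, ⟨H _ t6859.2.2.2.1,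 H _ t6859.2.2.2.2.1⟩⟩⟩⟩⟩, ⟨⟨⟨⟨H _ t6859.2.2.2.2.2.1, H _ t6859.2.2.2.2.2.2.1⟩, ⟨H _ t6859.2.2.2.2.2.2.2, H _ t6867.1⟩⟩, ⟨⟨H _ t6867.2.1, H _ t6867.2.2.1⟩, ⟨H _ t6867.2.2.2.1, ⟨H _ t6867.2.2.2.2.1, H _ t6867.2.2.2.2.2.1⟩⟩⟩⟩, ⟨⟨⟨H _ t6867.2.2.2.2.2.2.1, H _ t6867.2.2.2.2.2.2.2⟩, ⟨H _ t6875.1, H _ t6875.2.1⟩⟩, ⟨⟨H _ t6875.2.2.1, H _ t6875.2.2.2.1⟩, ⟨H _ t6875.2.2.2.2.1, ⟨H _ t6875.2.2.2.2.2.1, H _ t6875.2.2.2.2.2.2.1⟩⟩⟩⟩⟩⟩, ⟨⟨⟨⟨⟨H _ t6875.2.2.2.2.2.2.2, H _ t6883.1⟩, ⟨H _ t6883.2.1, H _ t6883.2.2.1⟩⟩, ⟨⟨H _ t6883.2.2.2.1, H _ t6883.2.2.2.2.1⟩, ⟨H _ t6883.2.2.2.2.2.1, H _ t6883.2.2.2.2.2.2.1⟩⟩⟩, ⟨⟨⟨H _ t6883.2.2.2.2.2.2.2, H _ t6891.1⟩, ⟨H _ t6891.2.1, H _ t6891.2.2.1⟩⟩, ⟨⟨H _ t6891.2.2.2.1, H _ t6891.2.2.2.2.1⟩, ⟨H _ t6891.2.2.2.2.2.1, ⟨H _ t6891.2.2.2.2.2.2.1, H _ t6891.2.2.2.2.2.2.2⟩⟩⟩⟩⟩, ⟨⟨⟨⟨H _ t6899.1, H _ t6899.2.1⟩, ⟨H _ t6899.2.2.1, H _ t6899.2.2.2.1⟩⟩, ⟨⟨H _ t6899.2.2.2.2.1,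 H _ t6899.2.2.2.2.2.1⟩, ⟨H _ t6899.2.2.2.2.2.2.1, ⟨H _ t6899.2.2.2.2.2.2.2, H _ t6907.1⟩⟩⟩⟩, ⟨⟨⟨H _ t6907.2.1, H _ t6907.2.2.1⟩, ⟨H _ t6907.2.2.2.1, H _ t6907.2.2.2.2.1⟩⟩, ⟨⟨H _ t6907.2.2.2.2.2.1, H _ t6907.2.2.2.2.2.2.1⟩, ⟨H _ t6907.2.2.2.2.2.2.2, ⟨H _ t6915.1, H _ t6915.2.1⟩⟩⟩⟩⟩⟩⟩, ⟨⟨⟨⟨⟨⟨H _ t6915.2.2.1, H _ t6915.2.2.2.1⟩, ⟨H _ t6915.2.2.2.2.1, H _ t6915.2.2.2.2.2.1⟩⟩, ⟨⟨H _ t6915.2.2.2.2.2.2.1, H _ t6915.2.2.2.2.2.2.2⟩, ⟨H _ t6923.1, H _ t6923.2.1⟩⟩⟩, ⟨⟨⟨H _ t6923.2.2.1, H _ t6923.2.2.2.1⟩, ⟨H _ t6923.2.2.2.2.1, H _ t6923.2.2.2.2.2.1⟩⟩, ⟨⟨H _ t6923.2.2.2.2.2.2.1, H _ t6923.2.2.2.2.2.2.2⟩, ⟨H _ t6931.1, ⟨H _ t6931.2.1, H _ t6931.2.2.1⟩⟩⟩⟩⟩, ⟨⟨⟨⟨H _ t6931.2.2.2.1, H _ t6931.2.2.2.2.1⟩, ⟨H _ t6931.2.2.2.2.2.1, H _ t6931.2.2.2.2.2.2.1⟩⟩, ⟨⟨H _ t6931.2.2.2.2.2.2.2, H _ t6939.1⟩, ⟨H _ t6939.2.1, ⟨H _ t6939.2.2.1, H _ t6939.2.2.2.1⟩⟩⟩⟩, ⟨⟨⟨H _ t6939.2.2.2.2.1, H _ t6939.2.2.2.2.2.1⟩,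 ⟨H _ t6939.2.2.2.2.2.2.1, H _ t6939.2.2.2.2.2.2.2⟩⟩, ⟨⟨H _ t6947.1, H _ t6947.2.1⟩, ⟨H _ t6947.2.2.1, ⟨H _ t6947.2.2.2.1, H _ t6947.2.2.2.2.1⟩⟩⟩⟩⟩⟩, ⟨⟨⟨⟨⟨H _ t6947.2.2.2.2.2.1, H _ t6947.2.2.2.2.2.2.1⟩, ⟨H _ t6947.2.2.2.2.2.2.2, H _ t6955.1⟩⟩, ⟨⟨H _ t6955.2.1, H _ t6955.2.2.1⟩, ⟨H _ t6955.2.2.2.1, H _ t6955.2.2.2.2.1⟩⟩⟩, ⟨⟨⟨H _ t6955.2.2.2.2.2.1, H _ t6955.2.2.2.2.2.2.1⟩, ⟨H _ t6955.2.2.2.2.2.2.2, H _ t6963.1⟩⟩, ⟨⟨H _ t6963.2.1, H _ t6963.2.2.1⟩, ⟨H _ t6963.2.2.2.1, ⟨H _ t6963.2.2.2.2.1, H _ t6963.2.2.2.2.2.1⟩⟩⟩⟩⟩, ⟨⟨⟨⟨H _ t6963.2.2.2.2.2.2.1, H _ t6963.2.2.2.2.2.2.2⟩, ⟨H _ t6971.1, H _ t6971.2.1⟩⟩, ⟨⟨H _ t6971.2.2.1, H _ t6971.2.2.2.1⟩, ⟨H _ t6971.2.2.2.2.1, ⟨H _ t6971.2.2.2.2.2.1, H _ t6971.2.2.2.2.2.2.1⟩⟩⟩⟩, ⟨⟨⟨H _ t6971.2.2.2.2.2.2.2, H _ t6979.1⟩, ⟨H _ t6979.2.1, H _ t6979.2.2.1⟩⟩, ⟨⟨H _ t6979.2.2.2.1, H _ t6979.2.2.2.2.1⟩, ⟨H _ t6979.2.2.2.2.2.1, ⟨H _ t6979.2.2.2.2.2.2.1,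 H _ t6979.2.2.2.2.2.2.2⟩⟩⟩⟩⟩⟩⟩⟩⟩, ⟨⟨⟨⟨⟨⟨⟨⟨H _ t6987.1, H _ t6987.2.1⟩, ⟨H _ t6987.2.2.1, H _ t6987.2.2.2.1⟩⟩, ⟨⟨H _ t6987.2.2.2.2.1, H _ t6987.2.2.2.2.2.1⟩, ⟨H _ t6987.2.2.2.2.2.2.1, H _ t6987.2.2.2.2.2.2.2⟩⟩⟩, ⟨⟨⟨H _ t6995.1, H _ t6995.2.1⟩, ⟨H _ t6995.2.2.1, H _ t6995.2.2.2.1⟩⟩, ⟨⟨H _ t6995.2.2.2.2.1, H _ t6995.2.2.2.2.2.1⟩, ⟨H _ t6995.2.2.2.2.2.2.1, ⟨H _ t6995.2.2.2.2.2.2.2, H _ t7003.1⟩⟩⟩⟩⟩, ⟨⟨⟨⟨H _ t7003.2.1, H _ t7003.2.2.1⟩, ⟨H _ t7003.2.2.2.1, H _ t7003.2.2.2.2.1⟩⟩, ⟨⟨H _ t7003.2.2.2.2.2.1, H _ t7003.2.2.2.2.2.2.1⟩, ⟨H _ t7003.2.2.2.2.2.2.2, ⟨H _ t7011.1, H _ t7011.2.1⟩⟩⟩⟩, ⟨⟨⟨H _ t7011.2.2.1, H _ t7011.2.2.2.1⟩, ⟨H _ t7011.2.2.2.2.1, H _ t7011.2.2.2.2.2.1⟩⟩, ⟨⟨H _ t7011.2.2.2.2.2.2.1, H _ t7011.2.2.2.2.2.2.2⟩, ⟨H _ t7019.1, ⟨H _ t7019.2.1, H _ t7019.2.2.1⟩⟩⟩⟩⟩⟩, ⟨⟨⟨⟨⟨H _ t7019.2.2.2.1, H _ t7019.2.2.2.2.1⟩, ⟨H _ t7019.2.2.2.2.2.1, H _ t7019.2.2.2.2.2.2.1⟩⟩, ⟨⟨H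 _ t7019.2.2.2.2.2.2.2, H _ t7027.1⟩, ⟨H _ t7027.2.1, H _ t7027.2.2.1⟩⟩⟩, ⟨⟨⟨H _ t7027.2.2.2.1, H _ t7027.2.2.2.2.1⟩, ⟨H _ t7027.2.2.2.2.2.1, H _ t7027.2.2.2.2.2.2.1⟩⟩, ⟨⟨H _ t7027.2.2.2.2.2.2.2, H _ t7035.1⟩, ⟨H _ t7035.2.1, ⟨H _ t7035.2.2.1, H _ t7035.2.2.2.1⟩⟩⟩⟩⟩, ⟨⟨⟨⟨H _ t7035.2.2.2.2.1, H _ t7035.2.2.2.2.2.1⟩, ⟨H _ t7035.2.2.2.2.2.2.1, H _ t7035.2.2.2.2.2.2.2⟩⟩, ⟨⟨H _ t7043.1, H _ t7043.2.1⟩, ⟨H _ t7043.2.2.1, ⟨H _ t7043.2.2.2.1, H _ t7043.2.2.2.2.1⟩⟩⟩⟩, ⟨⟨⟨H _ t7043.2.2.2.2.2.1, H _ t7043.2.2.2.2.2.2.1⟩, ⟨H _ t7043.2.2.2.2.2.2.2, H _ t7051.1⟩⟩, ⟨⟨H _ t7051.2.1, H _ t7051.2.2.1⟩, ⟨H _ t7051.2.2.2.1, ⟨H _ t7051.2.2.2.2.1, H _ t7051.2.2.2.2.2.1⟩⟩⟩⟩⟩⟩⟩, ⟨⟨⟨⟨⟨⟨H _ t7051.2.2.2.2.2.2.1, H _ t7051.2.2.2.2.2.2.2⟩, ⟨H _ t7059.1, H _ t7059.2.1⟩⟩, ⟨⟨H _ t7059.2.2.1, H _ t7059.2.2.2.1⟩, ⟨H _ t7059.2.2.2.2.1, H _ t7059.2.2.2.2.2.1⟩⟩⟩, ⟨⟨⟨H _ t7059.2.2.2.2.2.2.1, H _ t7059.2.2.2.2.2.2.2⟩,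 ⟨H _ t7067.1, H _ t7067.2.1⟩⟩, ⟨⟨H _ t7067.2.2.1, H _ t7067.2.2.2.1⟩, ⟨H _ t7067.2.2.2.2.1, ⟨H _ t7067.2.2.2.2.2.1, H _ t7067.2.2.2.2.2.2.1⟩⟩⟩⟩⟩, ⟨⟨⟨⟨H _ t7067.2.2.2.2.2.2.2, H _ t7075.1⟩, ⟨H _ t7075.2.1, H _ t7075.2.2.1⟩⟩, ⟨⟨H _ t7075.2.2.2.1, H _ t7075.2.2.2.2.1⟩, ⟨H _ t7075.2.2.2.2.2.1, ⟨H _ t7075.2.2.2.2.2.2.1, H _ t7075.2.2.2.2.2.2.2⟩⟩⟩⟩, ⟨⟨⟨H _ t7083.1, H _ t7083.2.1⟩, ⟨H _ t7083.2.2.1, H _ t7083.2.2.2.1⟩⟩, ⟨⟨H _ t7083.2.2.2.2.1, H _ t7083.2.2.2.2.2.1⟩, ⟨H _ t7083.2.2.2.2.2.2.1, ⟨H _ t7083.2.2.2.2.2.2.2, H _ t7091.1⟩⟩⟩⟩⟩⟩, ⟨⟨⟨⟨⟨H _ t7091.2.1, H _ t7091.2.2.1⟩, ⟨H _ t7091.2.2.2.1, H _ t7091.2.2.2.2.1⟩⟩, ⟨⟨H _ t7091.2.2.2.2.2.1, H _ t7091.2.2.2.2.2.2.1⟩, ⟨H _ t7091.2.2.2.2.2.2.2, H _ t7099.1⟩⟩⟩, ⟨⟨⟨H _ t7099.2.1, H _ t7099.2.2.1⟩, ⟨H _ t7099.2.2.2.1, H _ t7099.2.2.2.2.1⟩⟩, ⟨⟨H _ t7099.2.2.2.2.2.1, H _ t7099.2.2.2.2.2.2.1⟩, ⟨H _ t7099.2.2.2.2.2.2.2, ⟨H _ t7107.1, H _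 t7107.2.1⟩⟩⟩⟩⟩, ⟨⟨⟨⟨H _ t7107.2.2.1, H _ t7107.2.2.2.1⟩, ⟨H _ t7107.2.2.2.2.1, H _ t7107.2.2.2.2.2.1⟩⟩, ⟨⟨H _ t7107.2.2.2.2.2.2.1, H _ t7107.2.2.2.2.2.2.2⟩, ⟨H _ t7115.1, ⟨H _ t7115.2.1, H _ t7115.2.2.1⟩⟩⟩⟩, ⟨⟨⟨H _ t7115.2.2.2.1, H _ t7115.2.2.2.2.1⟩, ⟨H _ t7115.2.2.2.2.2.1, H _ t7115.2.2.2.2.2.2.1⟩⟩, ⟨⟨H _ t7115.2.2.2.2.2.2.2, H _ t7123.1⟩, ⟨H _ t7123.2.1, ⟨H _ t7123.2.2.1, H _ t7123.2.2.2.1⟩⟩⟩⟩⟩⟩⟩⟩, ⟨⟨⟨⟨⟨⟨⟨H _ t7123.2.2.2.2.1, H _ t7123.2.2.2.2.2.1⟩, ⟨H _ t7123.2.2.2.2.2.2.1, H _ t7123.2.2.2.2.2.2.2⟩⟩, ⟨⟨H _ t7131.1, H _ t7131.2.1⟩, ⟨H _ t7131.2.2.1, H _ t7131.2.2.2.1⟩⟩⟩, ⟨⟨⟨H _ t7131.2.2.2.2.1, H _ t7131.2.2.2.2.2.1⟩, ⟨H _ t7131.2.2.2.2.2.2.1, H _ t7131.2.2.2.2.2.2.2⟩⟩, ⟨⟨H _ t7139.1, H _ t7139.2.1⟩, ⟨H _ t7139.2.2.1, ⟨H _ t7139.2.2.2.1, H _ t7139.2.2.2.2.1⟩⟩⟩⟩⟩, ⟨⟨⟨⟨H _ t7139.2.2.2.2.2.1, H _ t7139.2.2.2.2.2.2.1⟩, ⟨H _ t7139.2.2.2.2.2.2.2, H _ t7147.1⟩⟩, ⟨⟨H _ t7147.2.1,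 H _ t7147.2.2.1⟩, ⟨H _ t7147.2.2.2.1, ⟨H _ t7147.2.2.2.2.1, H _ t7147.2.2.2.2.2.1⟩⟩⟩⟩, ⟨⟨⟨H _ t7147.2.2.2.2.2.2.1, H _ t7147.2.2.2.2.2.2.2⟩, ⟨H _ t7155.1, H _ t7155.2.1⟩⟩, ⟨⟨H _ t7155.2.2.1, H _ t7155.2.2.2.1⟩, ⟨H _ t7155.2.2.2.2.1, ⟨H _ t7155.2.2.2.2.2.1, H _ t7155.2.2.2.2.2.2.1⟩⟩⟩⟩⟩⟩, ⟨⟨⟨⟨⟨H _ t7155.2.2.2.2.2.2.2, H _ t7163.1⟩, ⟨H _ t7163.2.1, H _ t7163.2.2.1⟩⟩, ⟨⟨H _ t7163.2.2.2.1, H _ t7163.2.2.2.2.1⟩, ⟨H _ t7163.2.2.2.2.2.1, H _ t7163.2.2.2.2.2.2.1⟩⟩⟩, ⟨⟨⟨H _ t7163.2.2.2.2.2.2.2, H _ t7171.1⟩, ⟨H _ t7171.2.1, H _ t7171.2.2.1⟩⟩, ⟨⟨H _ t7171.2.2.2.1, H _ t7171.2.2.2.2.1⟩, ⟨H _ t7171.2.2.2.2.2.1, ⟨H _ t7171.2.2.2.2.2.2.1, H _ t7171.2.2.2.2.2.2.2⟩⟩⟩⟩⟩, ⟨⟨⟨⟨H _ t7179.1, H _ t7179.2.1⟩, ⟨H _ t7179.2.2.1, H _ t7179.2.2.2.1⟩⟩, ⟨⟨H _ t7179.2.2.2.2.1, H _ t7179.2.2.2.2.2.1⟩, ⟨H _ t7179.2.2.2.2.2.2.1, ⟨H _ t7179.2.2.2.2.2.2.2, H _ t7187.1⟩⟩⟩⟩, ⟨⟨⟨H _ t7187.2.1, H _ t7187.2.2.1⟩,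 ⟨H _ t7187.2.2.2.1, H _ t7187.2.2.2.2.1⟩⟩, ⟨⟨H _ t7187.2.2.2.2.2.1, H _ t7187.2.2.2.2.2.2.1⟩, ⟨H _ t7187.2.2.2.2.2.2.2, ⟨H _ t7195.1, H _ t7195.2.1⟩⟩⟩⟩⟩⟩⟩, ⟨⟨⟨⟨⟨⟨H _ t7195.2.2.1, H _ t7195.2.2.2.1⟩, ⟨H _ t7195.2.2.2.2.1, H _ t7195.2.2.2.2.2.1⟩⟩, ⟨⟨H _ t7195.2.2.2.2.2.2.1, H _ t7195.2.2.2.2.2.2.2⟩, ⟨H _ t7203.1, H _ t7203.2.1⟩⟩⟩, ⟨⟨⟨H _ t7203.2.2.1, H _ t7203.2.2.2.1⟩, ⟨H _ t7203.2.2.2.2.1, H _ t7203.2.2.2.2.2.1⟩⟩, ⟨⟨H _ t7203.2.2.2.2.2.2.1, H _ t7203.2.2.2.2.2.2.2⟩, ⟨H _ t7211.1, ⟨H _ t7211.2.1, H _ t7211.2.2.1⟩⟩⟩⟩⟩, ⟨⟨⟨⟨H _ t7211.2.2.2.1, H _ t7211.2.2.2.2.1⟩, ⟨H _ t7211.2.2.2.2.2.1, H _ t7211.2.2.2.2.2.2.1⟩⟩, ⟨⟨H _ t7211.2.2.2.2.2.2.2, H _ t7219.1⟩, ⟨H _ t7219.2.1, ⟨H _ t7219.2.2.1, H _ t7219.2.2.2.1⟩⟩⟩⟩, ⟨⟨⟨H _ t7219.2.2.2.2.1, H _ t7219.2.2.2.2.2.1⟩, ⟨H _ t7219.2.2.2.2.2.2.1, H _ t7219.2.2.2.2.2.2.2⟩⟩, ⟨⟨H _ t7227.1, H _ t7227.2.1⟩, ⟨H _ t7227.2.2.1, ⟨H _ t7227.2.2.2.1,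 H _ t7227.2.2.2.2.1⟩⟩⟩⟩⟩⟩, ⟨⟨⟨⟨⟨H _ t7227.2.2.2.2.2.1, H _ t7227.2.2.2.2.2.2.1⟩, ⟨H _ t7227.2.2.2.2.2.2.2, H _ t7235.1⟩⟩, ⟨⟨H _ t7235.2.1, H _ t7235.2.2.1⟩, ⟨H _ t7235.2.2.2.1, ⟨H _ t7235.2.2.2.2.1, H _ t7235.2.2.2.2.2.1⟩⟩⟩⟩, ⟨⟨⟨H _ t7235.2.2.2.2.2.2.1, H _ t7235.2.2.2.2.2.2.2⟩, ⟨H _ t7243.1, H _ t7243.2.1⟩⟩, ⟨⟨H _ t7243.2.2.1, H _ t7243.2.2.2.1⟩, ⟨H _ t7243.2.2.2.2.1, ⟨H _ t7243.2.2.2.2.2.1, H _ t7243.2.2.2.2.2.2.1⟩⟩⟩⟩⟩, ⟨⟨⟨⟨H _ t7243.2.2.2.2.2.2.2, H _ t7251.1⟩, ⟨H _ t7251.2.1, H _ t7251.2.2.1⟩⟩, ⟨⟨H _ t7251.2.2.2.1, H _ t7251.2.2.2.2.1⟩, ⟨H _ t7251.2.2.2.2.2.1, ⟨H _ t7251.2.2.2.2.2.2.1, H _ t7251.2.2.2.2.2.2.2⟩⟩⟩⟩, ⟨⟨⟨H _ t7259.1, H _ t7259.2.1⟩, ⟨H _ t7259.2.2.1, H _ t7259.2.2.2.1⟩⟩, ⟨⟨H _ t7259.2.2.2.2.1, H _ t7259.2.2.2.2.2.1⟩, ⟨H _ t7259.2.2.2.2.2.2.1, ⟨H _ t7259.2.2.2.2.2.2.2, H _ t7267⟩⟩⟩⟩⟩⟩⟩⟩⟩⟩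

end Pool.Agent.MP_c853c5_nt.X.C4950
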