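import Pool.Agent.MP_c853c5_nt.X.C4950.Env
import Pool.Agent.MP_c853c5_nt.X.C4950.D2

set_option autoImplicit false
set_option maxRecDepth 8192
set_option linter.all false

namespace Pool.Agent.MP_c853c5_nt.X.C4950

open Pool.Agent.MP_c853c5_nt.X

def t7268 : allY (E.wth (lkp [])) l7268 = true ∧
    allY (E.wth (lkp [])) l7269 = true ∧
    allY (E.wth (lkp [])) l7270 = true ∧
    allY (E.wth (lkp [])) l7271 = true ∧
    allY (E.wth (lkp [])) l7272 = true ∧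
    allY (E.wth (lkp [])) l7273 = true ∧
    allY (E.wth (lkp [])) l7274 = true ∧
    allY (E.wth (lkp [])) l7275 = true :=
  ⟨by decide +kernel, by decide +kernel, by decide +kernel, by decide +kernel, by decide +kernel, by decide +kernel, by decide +kernel, by decide +kernel⟩

def t7276 : allY (E.wth (lkp [])) l7276 = true ∧
    allY (E.wth (lkp [])) l7277 = true ∧
    allY (E.wth (lkp [])) l7278 = true ∧
    allY (E.wth (lkp [])) l7279 = true ∧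
    allY (E.wth (lkp [])) l7280 = true ∧
    allY (E.wth (lkp [])) l7281 = true ∧
    allY (E.wth (lkp [])) l7282 = true ∧
    allY (E.wth (lkp [])) l7283 = true :=
  ⟨by decide +kernel, by decide +kernel, by decide +kernel, by decide +kernel, by decide +kernel, by decide +kernel, by decide +kernel, by decide +kernel⟩

def t7284 : allY (E.wth (lkp [])) l7284 = true ∧
    allY (E.wth (lkp [])) l7285 = true ∧
    allY (E.wth (lkp [])) l7286 = true ∧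
    allY (E.wth (lkp [])) l7287 = true ∧
    allY (E.wth (lkp [])) l7288 = true ∧
    allY (E.wth (lkp [])) l7289 = true ∧
    allY (E.wth (lkp [])) l7290 = true ∧
    allY (E.wth (lkp [])) l7291 = true :=
  ⟨by decide +kernel, by decide +kernel, by decide +kernel, by decide +kernel, by decide +kernel, by decide +kernel, by decide +kernel, by decide +kernel⟩

def t7292 : allY (E.wth (lkp [])) l7292 = true ∧
    allY (E.wth (lkp [])) l7293 = true ∧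
    allY (E.wth (lkp [])) l7294 = true ∧
    allY (E.wth (lkp [])) l7295 = true ∧
    allY (E.wth (lkp [])) l7296 = true ∧
    allY (E.wth (lkp [])) l7297 = true ∧
    allY (E.wth (lkp [])) l7298 = true ∧
    allY (E.wth (lkp [])) l7299 = true :=
  ⟨by decide +kernel, by decide +kernel, by decide +kernel, by decide +kernel, by decide +kernel, by decide +kernel, by decide +kernel, by decide +kernel⟩

def t7300 : allY (E.wth (lkp [])) l7300 = true ∧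
    allY (E.wth (lkp [])) l7301 = true ∧
    allY (E.wth (lkp [])) l7302 = true ∧
    allY (E.wth (lkp [])) l7303 = true ∧
    allY (E.wth (lkp [])) l7304 = true ∧
    allY (E.wth (lkp [])) l7305 = true ∧
    allY (E.wth (lkp [])) l7306 = true ∧
    allY (E.wth (lkp [])) l7307 = true :=
  ⟨by decide +kernel, by decide +kernel, by decide +kernel, by decide +kernel, by decide +kernel, by decide +kernel, by decide +kernel, by decide +kernel⟩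

def t7308 : allY (E.wth (lkp [])) l7308 = true ∧
    allY (E.wth (lkp [])) l7309 = true ∧
    allY (E.wth (lkp [])) l7310 = true ∧
    allY (E.wth (lkp [])) l7311 = true ∧
    allY (E.wth (lkp [])) l7312 = true ∧
    allY (E.wth (lkp [])) l7313 = true ∧
    allY (E.wth (lkp [])) l7314 = true ∧
    allY (E.wth (lkp [])) l7315 = true :=
  ⟨by decide +kernel, by decide +kernel, by decide +kernel, by decide +kernel, by decide +kernel, by decide +kernel, by decide +kernel, by decide +kernel⟩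

def t7316 : allY (E.wth (lkp [])) l7316 = true ∧
    allY (E.wth (lkp [])) l7317 = true ∧
    allY (E.wth (lkp [])) l7318 = true ∧
    allY (E.wth (lkp [])) l7319 = true ∧
    allY (E.wth (lkp [])) l7320 = true ∧
    allY (E.wth (lkp [])) l7321 = true ∧
    allY (E.wth (lkp [])) l7322 = true ∧
    allY (E.wth (lkp [])) l7323 = true :=
  ⟨by decide +kernel, by decide +kernel, by decide +kernel, by decide +kernel, by decide +kernel, by decide +kernel, by decide +kernel, by decide +kernel⟩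

def t7324 : allY (E.wth (lkp [])) l7324 = true ∧
    allY (E.wth (lkp [])) l7325 = true ∧
    allY (E.wth (lkp [])) l7326 = true ∧
    allY (E.wth (lkp [])) l7327 = true ∧
    allY (E.wth (lkp [])) l7328 = true ∧
    allY (E.wth (lkp [])) l7329 = true ∧
    allY (E.wth (lkp [])) l7330 = true ∧
    allY (E.wth (lkp [])) l7331 = true :=
  ⟨by decide +kernel, by decide +kernel, by decide +kernel, by decide +kernel, by decide +kernel, by decide +kernel, by decide +kernel, by decide +kernel⟩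

def t7332 : allY (E.wth (lkp [])) l7332 = true ∧
    allY (E.wth (lkp [])) l7333 = true ∧
    allY (E.wth (lkp [])) l7334 = true ∧
    allY (E.wth (lkp [])) l7335 = true ∧
    allY (E.wth (lkp [])) l7336 = true ∧
    allY (E.wth (lkp [])) l7337 = true ∧
    allY (E.wth (lkp [])) l7338 = true ∧
    allY (E.wth (lkp [])) l7339 = true :=
  ⟨by decide +kernel, by decide +kernel, by decide +kernel, by decide +kernel, by decide +kernel, by decide +kernel, by decide +kernel, by decide +kernel⟩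

def t7340 : allY (E.wth (lkp [])) l7340 = true ∧
    allY (E.wth (lkp [])) l7341 = true ∧
    allY (E.wth (lkp [])) l7342 = true ∧
    allY (E.wth (lkp [])) l7343 = true ∧
    allY (E.wth (lkp [])) l7344 = true ∧
    allY (E.wth (lkp [])) l7345 = true ∧
    allY (E.wth (lkp [])) l7346 = true ∧
    allY (E.wth (lkp [])) l7347 = true :=
  ⟨by decide +kernel, by decide +kernel, by decide +kernel, by decide +kernel, by decide +kernel, by decide +kernel, by decide +kernel, by decide +kernel⟩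

def t7348 : allY (E.wth (lkp [])) l7348 = true ∧
    allY (E.wth (lkp [])) l7349 = true ∧
    allY (E.wth (lkp [])) l7350 = true ∧
    allY (E.wth (lkp [])) l7351 = true ∧
    allY (E.wth (lkp [])) l7352 = true ∧
    allY (E.wth (lkp [])) l7353 = true ∧
    allY (E.wth (lkp [])) l7354 = true ∧
    allY (E.wth (lkp [])) l7355 = true :=
  ⟨by decide +kernel, by decide +kernel, by decide +kernel, by decide +kernel, by decide +kernel, by decide +kernel, by decide +kernel, by decide +kernel⟩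

def t7356 : allY (E.wth (lkp [])) l7356 = true ∧
    allY (E.wth (lkp [])) l7357 = true ∧
    allY (E.wth (lkp [])) l7358 = true ∧
    allY (E.wth (lkp [])) l7359 = true ∧
    allY (E.wth (lkp [])) l7360 = true ∧
    allY (E.wth (lkp [])) l7361 = true ∧
    allY (E.wth (lkp [])) l7362 = true ∧
    allY (E.wth (lkp [])) l7363 = true :=
  ⟨by decide +kernel, by decide +kernel, by decide +kernel, by decide +kernel, by decide +kernel, by decide +kernel, by decide +kernel, by decide +kernel⟩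

def t7364 : allY (E.wth (lkp [])) l7364 = true ∧
    allY (E.wth (lkp [])) l7365 = true ∧
    allY (E.wth (lkp [])) l7366 = true ∧
    allY (E.wth (lkp [])) l7367 = true ∧
    allY (E.wth (lkp [])) l7368 = true ∧
    allY (E.wth (lkp [])) l7369 = true ∧
    allY (E.wth (lkp [])) l7370 = true ∧
    allY (E.wth (lkp [])) l7371 = true :=
  ⟨by decide +kernel, by decide +kernel, by decide +kernel, by decide +kernel, by decide +kernel, by decide +kernel, by decide +kernel, by decide +kernel⟩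

def t7372 : allY (E.wth (lkp [])) l7372 = true ∧
    allY (E.wth (lkp [])) l7373 = true ∧
    allY (E.wth (lkp [])) l7374 = true ∧
    allY (E.wth (lkp [])) l7375 = true ∧
    allY (E.wth (lkp [])) l7376 = true ∧
    allY (E.wth (lkp [])) l7377 = true ∧
    allY (E.wth (lkp [])) l7378 = true ∧
    allY (E.wth (lkp [])) l7379 = true :=
  ⟨by decide +kernel, by decide +kernel, by decide +kernel, by decide +kernel, by decide +kernel, by decide +kernel, by decide +kernel, by decide +kernel⟩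

def t7380 : allY (E.wth (lkp [])) l7380 = true ∧
    allY (E.wth (lkp [])) l7381 = true ∧
    allY (E.wth (lkp [])) l7382 = true ∧
    allY (E.wth (lkp [])) l7383 = true ∧
    allY (E.wth (lkp [])) l7384 = true ∧
    allY (E.wth (lkp [])) l7385 = true ∧
    allY (E.wth (lkp [])) l7386 = true ∧
    allY (E.wth (lkp [])) l7387 = true :=
  ⟨by decide +kernel, by decide +kernel, by decide +kernel, by decide +kernel, by decide +kernel, by decide +kernel, by decide +kernel, by decide +kernel⟩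

def t7388 : allY (E.wth (lkp [])) l7388 = true ∧
    allY (E.wth (lkp [])) l7389 = true ∧
    allY (E.wth (lkp [])) l7390 = true ∧
    allY (E.wth (lkp [])) l7391 = true ∧
    allY (E.wth (lkp [])) l7392 = true ∧
    allY (E.wth (lkp [])) l7393 = true ∧
    allY (E.wth (lkp [])) l7394 = true ∧
    allY (E.wth (lkp [])) l7395 = true :=
  ⟨by decide +kernel, by decide +kernel, by decide +kernel, by decide +kernel, by decide +kernel, by decide +kernel, by decide +kernel, by decide +kernel⟩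

def t7396 : allY (E.wth (lkp [])) l7396 = true ∧
    allY (E.wth (lkp [])) l7397 = true ∧
    allY (E.wth (lkp [])) l7398 = true ∧
    allY (E.wth (lkp [])) l7399 = true ∧
    allY (E.wth (lkp [])) l7400 = true ∧
    allY (E.wth (lkp [])) l7401 = true ∧
    allY (E.wth (lkp [])) l7402 = true ∧
    allY (E.wth (lkp [])) l7403 = true :=
  ⟨by decide +kernel, by decide +kernel, by decide +kernel, by decide +kernel, by decide +kernel, by decide +kernel, by decide +kernel, by decide +kernel⟩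

def t7404 : allY (E.wth (lkp [])) l7404 = true ∧
    allY (E.wth (lkp [])) l7405 = true ∧
    allY (E.wth (lkp [])) l7406 = true ∧
    allY (E.wth (lkp [])) l7407 = true ∧
    allY (E.wth (lkp [])) l7408 = true ∧
    allY (E.wth (lkp [])) l7409 = true ∧
    allY (E.wth (lkp [])) l7410 = true ∧
    allY (E.wth (lkp [])) l7411 = true :=
  ⟨by decide +kernel, by decide +kernel, by decide +kernel, by decide +kernel, by decide +kernel, by decide +kernel, by decide +kernel, by decide +kernel⟩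

def t7412 : allY (E.wth (lkp [])) l7412 = true ∧
    allY (E.wth (lkp [])) l7413 = true ∧
    allY (E.wth (lkp [])) l7414 = true ∧
    allY (E.wth (lkp [])) l7415 = true ∧
    allY (E.wth (lkp [])) l7416 = true ∧
    allY (E.wth (lkp [])) l7417 = true ∧
    allY (E.wth (lkp [])) l7418 = true ∧
    allY (E.wth (lkp [])) l7419 = true :=
  ⟨by decide +kernel, by decide +kernel, by decide +kernel, by decide +kernel, by decide +kernel, by decide +kernel, by decide +kernel, by decide +kernel⟩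

def t7420 : allY (E.wth (lkp [])) l7420 = true ∧
    allY (E.wth (lkp [])) l7421 = true ∧
    allY (E.wth (lkp [])) l7422 = true ∧
    allY (E.wth (lkp [])) l7423 = true ∧
    allY (E.wth (lkp [])) l7424 = true ∧
    allY (E.wth (lkp [])) l7425 = true ∧
    allY (E.wth (lkp [])) l7426 = true ∧
    allY (E.wth (lkp [])) l7427 = true :=
  ⟨by decide +kernel, by decide +kernel, by decide +kernel, by decide +kernel, by decide +kernel, by decide +kernel, by decide +kernel, by decide +kernel⟩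

def t7428 : allY (E.wth (lkp [])) l7428 = true ∧
    allY (E.wth (lkp [])) l7429 = true ∧
    allY (E.wth (lkp [])) l7430 = true ∧
    allY (E.wth (lkp [])) l7431 = true ∧
    allY (E.wth (lkp [])) l7432 = true ∧
    allY (E.wth (lkp [])) l7433 = true ∧
    allY (E.wth (lkp [])) l7434 = true ∧
    allY (E.wth (lkp [])) l7435 = true :=
  ⟨by decide +kernel, by decide +kernel, by decide +kernel, by decide +kernel, by decide +kernel, by decide +kernel, by decide +kernel, by decide +kernel⟩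

def t7436 : allY (E.wth (lkp [])) l7436 = true ∧
    allY (E.wth (lkp [])) l7437 = true ∧
    allY (E.wth (lkp [])) l7438 = true ∧
    allY (E.wth (lkp [])) l7439 = true ∧
    allY (E.wth (lkp [])) l7440 = true ∧
    allY (E.wth (lkp [])) l7441 = true ∧
    allY (E.wth (lkp [])) l7442 = true ∧
    allY (E.wth (lkp [])) l7443 = true :=
  ⟨by decide +kernel, by decide +kernel, by decide +kernel, by decide +kernel, by decide +kernel, by decide +kernel, by decide +kernel, by decide +kernel⟩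

def t7444 : allY (E.wth (lkp [])) l7444 = true ∧
    allY (E.wth (lkp [])) l7445 = true ∧
    allY (E.wth (lkp [])) l7446 = true ∧
    allY (E.wth (lkp [])) l7447 = true ∧
    allY (E.wth (lkp [])) l7448 = true ∧
    allY (E.wth (lkp [])) l7449 = true ∧
    allY (E.wth (lkp [])) l7450 = true ∧
    allY (E.wth (lkp [])) l7451 = true :=
  ⟨by decide +kernel, by decide +kernel, by decide +kernel, by decide +kernel, by decide +kernel, by decide +kernel, by decide +kernel, by decide +kernel⟩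

def t7452 : allY (E.wth (lkp [])) l7452 = true ∧
    allY (E.wth (lkp [])) l7453 = true ∧
    allY (E.wth (lkp [])) l7454 = true ∧
    allY (E.wth (lkp [])) l7455 = true ∧
    allY (E.wth (lkp [])) l7456 = true ∧
    allY (E.wth (lkp [])) l7457 = true ∧
    allY (E.wth (lkp [])) l7458 = true ∧
    allY (E.wth (lkp [])) l7459 = true :=
  ⟨by decide +kernel, by decide +kernel, by decide +kernel, by decide +kernel, by decide +kernel, by decide +kernel, by decide +kernel, by decide +kernel⟩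

def t7460 : allY (E.wth (lkp [])) l7460 = true ∧
    allY (E.wth (lkp [])) l7461 = true ∧
    allY (E.wth (lkp [])) l7462 = true ∧
    allY (E.wth (lkp [])) l7463 = true ∧
    allY (E.wth (lkp [])) l7464 = true ∧
    allY (E.wth (lkp [])) l7465 = true ∧
    allY (E.wth (lkp [])) l7466 = true ∧
    allY (E.wth (lkp [])) l7467 = true :=
  ⟨by decide +kernel, by decide +kernel, by decide +kernel, by decide +kernel, by decide +kernel, by decide +kernel, by decide +kernel, by decide +kernel⟩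

def t7468 : allY (E.wth (lkp [])) l7468 = true ∧
    allY (E.wth (lkp [])) l7469 = true ∧
    allY (E.wth (lkp [])) l7470 = true ∧
    allY (E.wth (lkp [])) l7471 = true ∧
    allY (E.wth (lkp [])) l7472 = true ∧
    allY (E.wth (lkp [])) l7473 = true ∧
    allY (E.wth (lkp [])) l7474 = true ∧
    allY (E.wth (lkp [])) l7475 = true :=
  ⟨by decide +kernel, by decide +kernel, by decide +kernel, by decide +kernel, by decide +kernel, by decide +kernel, by decide +kernel, by decide +kernel⟩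

def t7476 : allY (E.wth (lkp [])) l7476 = true ∧
    allY (E.wth (lkp [])) l7477 = true ∧
    allY (E.wth (lkp [])) l7478 = true ∧
    allY (E.wth (lkp [])) l7479 = true ∧
    allY (E.wth (lkp [])) l7480 = true ∧
    allY (E.wth (lkp [])) l7481 = true ∧
    allY (E.wth (lkp [])) l7482 = true ∧
    allY (E.wth (lkp [])) l7483 = true :=
  ⟨by decide +kernel, by decide +kernel, by decide +kernel, by decide +kernel, by decide +kernel, by decide +kernel, by decide +kernel, by decide +kernel⟩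

def t7484 : allY (E.wth (lkp [])) l7484 = true ∧
    allY (E.wth (lkp [])) l7485 = true ∧
    allY (E.wth (lkp [])) l7486 = true ∧
    allY (E.wth (lkp [])) l7487 = true ∧
    allY (E.wth (lkp [])) l7488 = true ∧
    allY (E.wth (lkp [])) l7489 = true ∧
    allY (E.wth (lkp [])) l7490 = true ∧
    allY (E.wth (lkp [])) l7491 = true :=
  ⟨by decide +kernel, by decide +kernel, by decide +kernel, by decide +kernel, by decide +kernel, by decide +kernel, by decide +kernel, by decide +kernel⟩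

def t7492 : allY (E.wth (lkp [])) l7492 = true ∧
    allY (E.wth (lkp [])) l7493 = true ∧
    allY (E.wth (lkp [])) l7494 = true ∧
    allY (E.wth (lkp [])) l7495 = true ∧
    allY (E.wth (lkp [])) l7496 = true ∧
    allY (E.wth (lkp [])) l7497 = true ∧
    allY (E.wth (lkp [])) l7498 = true ∧
    allY (E.wth (lkp [])) l7499 = true :=
  ⟨by decide +kernel, by decide +kernel, by decide +kernel, by decide +kernel, by decide +kernel, by decide +kernel, by decide +kernel, by decide +kernel⟩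

def t7500 : allY (E.wth (lkp [])) l7500 = true ∧
    allY (E.wth (lkp [])) l7501 = true ∧
    allY (E.wth (lkp [])) l7502 = true ∧
    allY (E.wth (lkp [])) l7503 = true ∧
    allY (E.wth (lkp [])) l7504 = true ∧
    allY (E.wth (lkp [])) l7505 = true ∧
    allY (E.wth (lkp [])) l7506 = true ∧
    allY (E.wth (lkp [])) l7507 = true :=
  ⟨by decide +kernel, by decide +kernel, by decide +kernel, by decide +kernel, by decide +kernel, by decide +kernel, by decide +kernel, by decide +kernel⟩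

def t7508 : allY (E.wth (lkp [])) l7508 = true ∧
    allY (E.wth (lkp [])) l7509 = true ∧
    allY (E.wth (lkp [])) l7510 = true ∧
    allY (E.wth (lkp [])) l7511 = true ∧
    allY (E.wth (lkp [])) l7512 = true ∧
    allY (E.wth (lkp [])) l7513 = true ∧
    allY (E.wth (lkp [])) l7514 = true ∧
    allY (E.wth (lkp [])) l7515 = true :=
  ⟨by decide +kernel, by decide +kernel, by decide +kernel, by decide +kernel, by decide +kernel, by decide +kernel, by decide +kernel, by decide +kernel⟩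

def t7516 : allY (E.wth (lkp [])) l7516 = true ∧
    allY (E.wth (lkp [])) l7517 = true ∧
    allY (E.wth (lkp [])) l7518 = true ∧
    allY (E.wth (lkp [])) l7519 = true ∧
    allY (E.wth (lkp [])) l7520 = true ∧
    allY (E.wth (lkp [])) l7521 = true ∧
    allY (E.wth (lkp [])) l7522 = true ∧
    allY (E.wth (lkp [])) l7523 = true :=
  ⟨by decide +kernel, by decide +kernel, by decide +kernel, by decide +kernel, by decide +kernel, by decide +kernel, by decide +kernel, by decide +kernel⟩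

def t7524 : allY (E.wth (lkp [])) l7524 = true ∧
    allY (E.wth (lkp [])) l7525 = true ∧
    allY (E.wth (lkp [])) l7526 = true ∧
    allY (E.wth (lkp [])) l7527 = true ∧
    allY (E.wth (lkp [])) l7528 = true ∧
    allY (E.wth (lkp [])) l7529 = true ∧
    allY (E.wth (lkp [])) l7530 = true ∧
    allY (E.wth (lkp [])) l7531 = true :=
  ⟨by decide +kernel, by decide +kernel, by decide +kernel, by decide +kernel, by decide +kernel, by decide +kernel, by decide +kernel, by decide +kernel⟩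

def t7532 : allY (E.wth (lkp [])) l7532 = true ∧
    allY (E.wth (lkp [])) l7533 = true ∧
    allY (E.wth (lkp [])) l7534 = true ∧
    allY (E.wth (lkp [])) l7535 = true ∧
    allY (E.wth (lkp [])) l7536 = true ∧
    allY (E.wth (lkp [])) l7537 = true ∧
    allY (E.wth (lkp [])) l7538 = true ∧
    allY (E.wth (lkp [])) l7539 = true :=
  ⟨by decide +kernel, by decide +kernel, by decide +kernel, by decide +kernel, by decide +kernel, by decide +kernel, by decide +kernel, by decide +kernel⟩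

def t7540 : allY (E.wth (lkp [])) l7540 = true ∧
    allY (E.wth (lkp [])) l7541 = true ∧
    allY (E.wth (lkp [])) l7542 = true ∧
    allY (E.wth (lkp [])) l7543 = true ∧
    allY (E.wth (lkp [])) l7544 = true ∧
    allY (E.wth (lkp [])) l7545 = true ∧
    allY (E.wth (lkp [])) l7546 = true ∧
    allY (E.wth (lkp [])) l7547 = true :=
  ⟨by decide +kernel, by decide +kernel, by decide +kernel, by decide +kernel, by decide +kernel, by decide +kernel, by decide +kernel, by decide +kernel⟩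

def t7548 : allY (E.wth (lkp [])) l7548 = true ∧
    allY (E.wth (lkp [])) l7549 = true ∧
    allY (E.wth (lkp [])) l7550 = true ∧
    allY (E.wth (lkp [])) l7551 = true ∧
    allY (E.wth (lkp [])) l7552 = true ∧
    allY (E.wth (lkp [])) l7553 = true ∧
    allY (E.wth (lkp [])) l7554 = true ∧
    allY (E.wth (lkp [])) l7555 = true :=
  ⟨by decide +kernel, by decide +kernel, by decide +kernel, by decide +kernel, by decide +kernel, by decide +kernel, by decide +kernel, by decide +kernel⟩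

def t7556 : allY (E.wth (lkp [])) l7556 = true ∧
    allY (E.wth (lkp [])) l7557 = true ∧
    allY (E.wth (lkp [])) l7558 = true ∧
    allY (E.wth (lkp [])) l7559 = true ∧
    allY (E.wth (lkp [])) l7560 = true ∧
    allY (E.wth (lkp [])) l7561 = true ∧
    allY (E.wth (lkp [])) l7562 = true ∧
    allY (E.wth (lkp [])) l7563 = true :=
  ⟨by decide +kernel, by decide +kernel, by decide +kernel, by decide +kernel, by decide +kernel, by decide +kernel, by decide +kernel, by decide +kernel⟩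

def t7564 : allY (E.wth (lkp [])) l7564 = true ∧
    allY (E.wth (lkp [])) l7565 = true ∧
    allY (E.wth (lkp [])) l7566 = true ∧
    allY (E.wth (lkp [])) l7567 = true ∧
    allY (E.wth (lkp [])) l7568 = true ∧
    allY (E.wth (lkp [])) l7569 = true ∧
    allY (E.wth (lkp [])) l7570 = true ∧
    allY (E.wth (lkp [])) l7571 = true :=
  ⟨by decide +kernel, by decide +kernel, by decide +kernel, by decide +kernel, by decide +kernel, by decide +kernel, by decide +kernel, by decide +kernel⟩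

def t7572 : allY (E.wth (lkp [])) l7572 = true ∧
    allY (E.wth (lkp [])) l7573 = true ∧
    allY (E.wth (lkp [])) l7574 = true ∧
    allY (E.wth (lkp [])) l7575 = true ∧
    allY (E.wth (lkp [])) l7576 = true ∧
    allY (E.wth (lkp [])) l7577 = true ∧
    allY (E.wth (lkp [])) l7578 = true ∧
    allY (E.wth (lkp [])) l7579 = true :=
  ⟨by decide +kernel, by decide +kernel, by decide +kernel, by decide +kernel, by decide +kernel, by decide +kernel, by decide +kernel, by decide +kernel⟩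

def t7580 : allY (E.wth (lkp [])) l7580 = true ∧
    allY (E.wth (lkp [])) l7581 = true ∧
    allY (E.wth (lkp [])) l7582 = true ∧
    allY (E.wth (lkp [])) l7583 = true ∧
    allY (E.wth (lkp [])) l7584 = true ∧
    allY (E.wth (lkp [])) l7585 = true ∧
    allY (E.wth (lkp [])) l7586 = true ∧
    allY (E.wth (lkp [])) l7587 = true :=
  ⟨by decide +kernel, by decide +kernel, by decide +kernel, by decide +kernel, by decide +kernel, by decide +kernel, by decide +kernel, by decide +kernel⟩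

def t7588 : allY (E.wth (lkp [])) l7588 = true ∧
    allY (E.wth (lkp [])) l7589 = true ∧
    allY (E.wth (lkp [])) l7590 = true ∧
    allY (E.wth (lkp [])) l7591 = true ∧
    allY (E.wth (lkp [])) l7592 = true ∧
    allY (E.wth (lkp [])) l7593 = true ∧
    allY (E.wth (lkp [])) l7594 = true ∧
    allY (E.wth (lkp [])) l7595 = true :=
  ⟨by decide +kernel, by decide +kernel, by decide +kernel, by decide +kernel, by decide +kernel, by decide +kernel, by decide +kernel, by decide +kernel⟩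

def t7596 : allY (E.wth (lkp [])) l7596 = true ∧
    allY (E.wth (lkp [])) l7597 = true ∧
    allY (E.wth (lkp [])) l7598 = true ∧
    allY (E.wth (lkp [])) l7599 = true ∧
    allY (E.wth (lkp [])) l7600 = true ∧
    allY (E.wth (lkp [])) l7601 = true ∧
    allY (E.wth (lkp [])) l7602 = true ∧
    allY (E.wth (lkp [])) l7603 = true :=
  ⟨by decide +kernel, by decide +kernel, by decide +kernel, by decide +kernel, by decide +kernel, by decide +kernel, by decide +kernel, by decide +kernel⟩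

def t7604 : allY (E.wth (lkp [])) l7604 = true ∧
    allY (E.wth (lkp [])) l7605 = true ∧
    allY (E.wth (lkp [])) l7606 = true ∧
    allY (E.wth (lkp [])) l7607 = true ∧
    allY (E.wth (lkp [])) l7608 = true ∧
    allY (E.wth (lkp [])) l7609 = true ∧
    allY (E.wth (lkp [])) l7610 = true ∧
    allY (E.wth (lkp [])) l7611 = true :=
  ⟨by decide +kernel, by decide +kernel, by decide +kernel, by decide +kernel, by decide +kernel, by decide +kernel, by decide +kernel, by decide +kernel⟩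

def t7612 : allY (E.wth (lkp [])) l7612 = true ∧
    allY (E.wth (lkp [])) l7613 = true ∧
    allY (E.wth (lkp [])) l7614 = true ∧
    allY (E.wth (lkp [])) l7615 = true ∧
    allY (E.wth (lkp [])) l7616 = true ∧
    allY (E.wth (lkp [])) l7617 = true ∧
    allY (E.wth (lkp [])) l7618 = true ∧
    allY (E.wth (lkp [])) l7619 = true :=
  ⟨by decide +kernel, by decide +kernel, by decide +kernel, by decide +kernel, by decide +kernel, by decide +kernel, by decide +kernel, by decide +kernel⟩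

def t7620 : allY (E.wth (lkp [])) l7620 = true ∧
    allY (E.wth (lkp [])) l7621 = true ∧
    allY (E.wth (lkp [])) l7622 = true ∧
    allY (E.wth (lkp [])) l7623 = true ∧
    allY (E.wth (lkp [])) l7624 = true ∧
    allY (E.wth (lkp [])) l7625 = true ∧
    allY (E.wth (lkp [])) l7626 = true ∧
    allY (E.wth (lkp [])) l7627 = true :=
  ⟨by decide +kernel, by decide +kernel, by decide +kernel, by decide +kernel, by decide +kernel, by decide +kernel, by decide +kernel, by decide +kernel⟩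

def t7628 : allY (E.wth (lkp [])) l7628 = true ∧
    allY (E.wth (lkp [])) l7629 = true ∧
    allY (E.wth (lkp [])) l7630 = true ∧
    allY (E.wth (lkp [])) l7631 = true ∧
    allY (E.wth (lkp [])) l7632 = true ∧
    allY (E.wth (lkp [])) l7633 = true ∧
    allY (E.wth (lkp [])) l7634 = true ∧
    allY (E.wth (lkp [])) l7635 = true :=
  ⟨by decide +kernel, by decide +kernel, by decide +kernel, by decide +kernel, by decide +kernel, by decide +kernel, by decide +kernel, by decide +kernel⟩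

def t7636 : allY (E.wth (lkp [])) l7636 = true ∧
    allY (E.wth (lkp [])) l7637 = true ∧
    allY (E.wth (lkp [])) l7638 = true ∧
    allY (E.wth (lkp [])) l7639 = true ∧
    allY (E.wth (lkp [])) l7640 = true ∧
    allY (E.wth (lkp [])) l7641 = true ∧
    allY (E.wth (lkp [])) l7642 = true ∧
    allY (E.wth (lkp [])) l7643 = true :=
  ⟨by decide +kernel, by decide +kernel, by decide +kernel, by decide +kernel, by decide +kernel, by decide +kernel, by decide +kernel, by decide +kernel⟩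

def t7644 : allY (E.wth (lkp [])) l7644 = true ∧
    allY (E.wth (lkp [])) l7645 = true ∧
    allY (E.wth (lkp [])) l7646 = true ∧
    allY (E.wth (lkp [])) l7647 = true ∧
    allY (E.wth (lkp [])) l7648 = true ∧
    allY (E.wth (lkp [])) l7649 = true ∧
    allY (E.wth (lkp [])) l7650 = true ∧
    allY (E.wth (lkp [])) l7651 = true :=
  ⟨by decide +kernel, by decide +kernel, by decide +kernel, by decide +kernel, by decide +kernel, by decide +kernel, by decide +kernel, by decide +kernel⟩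

def t7652 : allY (E.wth (lkp [])) l7652 = true ∧
    allY (E.wth (lkp [])) l7653 = true ∧
    allY (E.wth (lkp [])) l7654 = true ∧
    allY (E.wth (lkp [])) l7655 = true ∧
    allY (E.wth (lkp [])) l7656 = true ∧
    allY (E.wth (lkp [])) l7657 = true ∧
    allY (E.wth (lkp [])) l7658 = true ∧
    allY (E.wth (lkp [])) l7659 = true :=
  ⟨by decide +kernel, by decide +kernel, by decide +kernel, by decide +kernel, by decide +kernel, by decide +kernel, by decide +kernel, by decide +kernel⟩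

def t7660 : allY (E.wth (lkp [])) l7660 = true ∧
    allY (E.wth (lkp [])) l7661 = true ∧
    allY (E.wth (lkp [])) l7662 = true ∧
    allY (E.wth (lkp [])) l7663 = true ∧
    allY (E.wth (lkp [])) l7664 = true ∧
    allY (E.wth (lkp [])) l7665 = true ∧
    allY (E.wth (lkp [])) l7666 = true ∧
    allY (E.wth (lkp [])) l7667 = true :=
  ⟨by decide +kernel, by decide +kernel, by decide +kernel, by decide +kernel, by decide +kernel, by decide +kernel, by decide +kernel, by decide +kernel⟩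

def t7668 : allY (E.wth (lkp [])) l7668 = true ∧
    allY (E.wth (lkp [])) l7669 = true ∧
    allY (E.wth (lkp [])) l7670 = true ∧
    allY (E.wth (lkp [])) l7671 = true ∧
    allY (E.wth (lkp [])) l7672 = true ∧
    allY (E.wth (lkp [])) l7673 = true ∧
    allY (E.wth (lkp [])) l7674 = true ∧
    allY (E.wth (lkp [])) l7675 = true :=
  ⟨by decide +kernel, by decide +kernel, by decide +kernel, by decide +kernel, by decide +kernel, by decide +kernel, by decide +kernel, by decide +kernel⟩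

def t7676 : allY (E.wth (lkp [])) l7676 = true ∧
    allY (E.wth (lkp [])) l7677 = true ∧
    allY (E.wth (lkp [])) l7678 = true ∧
    allY (E.wth (lkp [])) l7679 = true ∧
    allY (E.wth (lkp [])) l7680 = true ∧
    allY (E.wth (lkp [])) l7681 = true ∧
    allY (E.wth (lkp [])) l7682 = true ∧
    allY (E.wth (lkp [])) l7683 = true :=
  ⟨by decide +kernel, by decide +kernel, by decide +kernel, by decide +kernel, by decide +kernel, by decide +kernel, by decide +kernel, by decide +kernel⟩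

def t7684 : allY (E.wth (lkp [])) l7684 = true ∧
    allY (E.wth (lkp [])) l7685 = true ∧
    allY (E.wth (lkp [])) l7686 = true ∧
    allY (E.wth (lkp [])) l7687 = true ∧
    allY (E.wth (lkp [])) l7688 = true ∧
    allY (E.wth (lkp [])) l7689 = true ∧
    allY (E.wth (lkp [])) l7690 = true ∧
    allY (E.wth (lkp [])) l7691 = true :=
  ⟨by decide +kernel, by decide +kernel, by decide +kernel, by decide +kernel, by decide +kernel, by decide +kernel, by decide +kernel, by decide +kernel⟩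

def t7692 : allY (E.wth (lkp [])) l7692 = true ∧
    allY (E.wth (lkp [])) l7693 = true ∧
    allY (E.wth (lkp [])) l7694 = true ∧
    allY (E.wth (lkp [])) l7695 = true ∧
    allY (E.wth (lkp [])) l7696 = true ∧
    allY (E.wth (lkp [])) l7697 = true ∧
    allY (E.wth (lkp [])) l7698 = true ∧
    allY (E.wth (lkp [])) l7699 = true :=
  ⟨by decide +kernel, by decide +kernel, by decide +kernel, by decide +kernel, by decide +kernel, by decide +kernel, by decide +kernel, by decide +kernel⟩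

def t7700 : allY (E.wth (lkp [])) l7700 = true ∧
    allY (E.wth (lkp [])) l7701 = true ∧
    allY (E.wth (lkp [])) l7702 = true ∧
    allY (E.wth (lkp [])) l7703 = true ∧
    allY (E.wth (lkp [])) l7704 = true ∧
    allY (E.wth (lkp [])) l7705 = true ∧
    allY (E.wth (lkp [])) l7706 = true ∧
    allY (E.wth (lkp [])) l7707 = true :=
  ⟨by decide +kernel, by decide +kernel, by decide +kernel, by decide +kernel, by decide +kernel, by decide +kernel, by decide +kernel, by decide +kernel⟩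

def t7708 : allY (E.wth (lkp [])) l7708 = true ∧
    allY (E.wth (lkp [])) l7709 = true ∧
    allY (E.wth (lkp [])) l7710 = true ∧
    allY (E.wth (lkp [])) l7711 = true ∧
    allY (E.wth (lkp [])) l7712 = true ∧
    allY (E.wth (lkp [])) l7713 = true ∧
    allY (E.wth (lkp [])) l7714 = true ∧
    allY (E.wth (lkp [])) l7715 = true :=
  ⟨by decide +kernel, by decide +kernel, by decide +kernel, by decide +kernel, by decide +kernel, by decide +kernel, by decide +kernel, by decide +kernel⟩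

def t7716 : allY (E.wth (lkp [])) l7716 = true ∧
    allY (E.wth (lkp [])) l7717 = true ∧
    allY (E.wth (lkp [])) l7718 = true ∧
    allY (E.wth (lkp [])) l7719 = true ∧
    allY (E.wth (lkp [])) l7720 = true ∧
    allY (E.wth (lkp [])) l7721 = true ∧
    allY (E.wth (lkp [])) l7722 = true ∧
    allY (E.wth (lkp [])) l7723 = true :=
  ⟨by decide +kernel, by decide +kernel, by decide +kernel, by decide +kernel, by decide +kernel, by decide +kernel, by decide +kernel, by decide +kernel⟩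

def t7724 : allY (E.wth (lkp [])) l7724 = true ∧
    allY (E.wth (lkp [])) l7725 = true ∧
    allY (E.wth (lkp [])) l7726 = true ∧
    allY (E.wth (lkp [])) l7727 = true ∧
    allY (E.wth (lkp [])) l7728 = true ∧
    allY (E.wth (lkp [])) l7729 = true ∧
    allY (E.wth (lkp [])) l7730 = true ∧
    allY (E.wth (lkp [])) l7731 = true :=
  ⟨by decide +kernel, by decide +kernel, by decide +kernel, by decide +kernel, by decide +kernel, by decide +kernel, by decide +kernel, by decide +kernel⟩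

def t7732 : allY (E.wth (lkp [])) l7732 = true ∧
    allY (E.wth (lkp [])) l7733 = true ∧
    allY (E.wth (lkp [])) l7734 = true ∧
    allY (E.wth (lkp [])) l7735 = true ∧
    allY (E.wth (lkp [])) l7736 = true ∧
    allY (E.wth (lkp [])) l7737 = true ∧
    allY (E.wth (lkp [])) l7738 = true ∧
    allY (E.wth (lkp [])) l7739 = true :=
  ⟨by decide +kernel, by decide +kernel, by decide +kernel, by decide +kernel, by decide +kernel, by decide +kernel, by decide +kernel, by decide +kernel⟩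

def t7740 : allY (E.wth (lkp [])) l7740 = true ∧
    allY (E.wth (lkp [])) l7741 = true ∧
    allY (E.wth (lkp [])) l7742 = true ∧
    allY (E.wth (lkp [])) l7743 = true ∧
    allY (E.wth (lkp [])) l7744 = true ∧
    allY (E.wth (lkp [])) l7745 = true ∧
    allY (E.wth (lkp [])) l7746 = true ∧
    allY (E.wth (lkp [])) l7747 = true :=
  ⟨by decide +kernel, by decide +kernel, by decide +kernel, by decide +kernel, by decide +kernel, by decide +kernel, by decide +kernel, by decide +kernel⟩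

def t7748 : allY (E.wth (lkp [])) l7748 = true ∧
    allY (E.wth (lkp [])) l7749 = true ∧
    allY (E.wth (lkp [])) l7750 = true ∧
    allY (E.wth (lkp [])) l7751 = true ∧
    allY (E.wth (lkp [])) l7752 = true ∧
    allY (E.wth (lkp [])) l7753 = true ∧
    allY (E.wth (lkp [])) l7754 = true ∧
    allY (E.wth (lkp [])) l7755 = true :=
  ⟨by decide +kernel, by decide +kernel, by decide +kernel, by decide +kernel, by decide +kernel, by decide +kernel, by decide +kernel, by decide +kernel⟩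

def t7756 : allY (E.wth (lkp [])) l7756 = true ∧
    allY (E.wth (lkp [])) l7757 = true ∧
    allY (E.wth (lkp [])) l7758 = true ∧
    allY (E.wth (lkp [])) l7759 = true ∧
    allY (E.wth (lkp [])) l7760 = true ∧
    allY (E.wth (lkp [])) l7761 = true ∧
    allY (E.wth (lkp [])) l7762 = true ∧
    allY (E.wth (lkp [])) l7763 = true :=
  ⟨by decide +kernel, by decide +kernel, by decide +kernel, by decide +kernel, by decide +kernel, by decide +kernel, by decide +kernel, by decide +kernel⟩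

def t7764 : allY (E.wth (lkp [])) l7764 = true ∧
    allY (E.wth (lkp [])) l7765 = true ∧
    allY (E.wth (lkp [])) l7766 = true ∧
    allY (E.wth (lkp [])) l7767 = true ∧
    allY (E.wth (lkp [])) l7768 = true ∧
    allY (E.wth (lkp [])) l7769 = true ∧
    allY (E.wth (lkp [])) l7770 = true ∧
    allY (E.wth (lkp [])) l7771 = true :=
  ⟨by decide +kernel, by decide +kernel, by decide +kernel, by decide +kernel, by decide +kernel, by decide +kernel, by decide +kernel, by decide +kernel⟩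

def t7772 : allY (E.wth (lkp [])) l7772 = true ∧
    allY (E.wth (lkp [])) l7773 = true ∧
    allY (E.wth (lkp [])) l7774 = true ∧
    allY (E.wth (lkp [])) l7775 = true ∧
    allY (E.wth (lkp [])) l7776 = true ∧
    allY (E.wth (lkp [])) l7777 = true ∧
    allY (E.wth (lkp [])) l7778 = true ∧
    allY (E.wth (lkp [])) l7779 = true :=
  ⟨by decide +kernel, by decide +kernel, by decide +kernel, by decide +kernel, by decide +kernel, by decide +kernel, by decide +kernel, by decide +kernel⟩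

def t7780 : allY (E.wth (lkp [])) l7780 = true ∧
    allY (E.wth (lkp [])) l7781 = true ∧
    allY (E.wth (lkp [])) l7782 = true ∧
    allY (E.wth (lkp [])) l7783 = true ∧
    allY (E.wth (lkp [])) l7784 = true ∧
    allY (E.wth (lkp [])) l7785 = true ∧
    allY (E.wth (lkp [])) l7786 = true ∧
    allY (E.wth (lkp [])) l7787 = true :=
  ⟨by decide +kernel, by decide +kernel, by decide +kernel, by decide +kernel, by decide +kernel, by decide +kernel, by decide +kernel, by decide +kernel⟩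

def t7788 : allY (E.wth (lkp [])) l7788 = true ∧
    allY (E.wth (lkp [])) l7789 = true ∧
    allY (E.wth (lkp [])) l7790 = true ∧
    allY (E.wth (lkp [])) l7791 = true ∧
    allY (E.wth (lkp [])) l7792 = true ∧
    allY (E.wth (lkp [])) l7793 = true ∧
    allY (E.wth (lkp [])) l7794 = true ∧
    allY (E.wth (lkp [])) l7795 = true :=
  ⟨by decide +kernel, by decide +kernel, by decide +kernel, by decide +kernel, by decide +kernel, by decide +kernel, by decide +kernel, by decide +kernel⟩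

def t7796 : allY (E.wth (lkp [])) l7796 = true ∧
    allY (E.wth (lkp [])) l7797 = true ∧
    allY (E.wth (lkp [])) l7798 = true ∧
    allY (E.wth (lkp [])) l7799 = true ∧
    allY (E.wth (lkp [])) l7800 = true ∧
    allY (E.wth (lkp [])) l7801 = true ∧
    allY (E.wth (lkp [])) l7802 = true ∧
    allY (E.wth (lkp [])) l7803 = true :=
  ⟨by decide +kernel, by decide +kernel, by decide +kernel, by decide +kernel, by decide +kernel, by decide +kernel, by decide +kernel, by decide +kernel⟩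

def t7804 : allY (E.wth (lkp [])) l7804 = true ∧
    allY (E.wth (lkp [])) l7805 = true ∧
    allY (E.wth (lkp [])) l7806 = true ∧
    allY (E.wth (lkp [])) l7807 = true ∧
    allY (E.wth (lkp [])) l7808 = true ∧
    allY (E.wth (lkp [])) l7809 = true ∧
    allY (E.wth (lkp [])) l7810 = true ∧
    allY (E.wth (lkp [])) l7811 = true :=
  ⟨by decide +kernel, by decide +kernel, by decide +kernel, by decide +kernel, by decide +kernel, by decide +kernel, by decide +kernel, by decide +kernel⟩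

def t7812 : allY (E.wth (lkp [])) l7812 = true ∧
    allY (E.wth (lkp [])) l7813 = true ∧
    allY (E.wth (lkp [])) l7814 = true ∧
    allY (E.wth (lkp [])) l7815 = true ∧
    allY (E.wth (lkp [])) l7816 = true ∧
    allY (E.wth (lkp [])) l7817 = true ∧
    allY (E.wth (lkp [])) l7818 = true ∧
    allY (E.wth (lkp [])) l7819 = true :=
  ⟨by decide +kernel, by decide +kernel, by decide +kernel, by decide +kernel, by decide +kernel, by decide +kernel, by decide +kernel, by decide +kernel⟩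

def t7820 : allY (E.wth (lkp [])) l7820 = true ∧
    allY (E.wth (lkp [])) l7821 = true :=
  ⟨by decide +kernel, by decide +kernel⟩

theorem a13 {p : Rf → Prop} (H : ∀ l, allY (E.wth (lkp [])) l = true → (lkp l).All p) :
    b13.All p := ⟨⟨⟨⟨⟨⟨⟨⟨⟨H _ t7268.1, H _ t7268.2.1⟩, ⟨H _ t7268.2.2.1, H _ t7268.2.2.2.1⟩⟩, ⟨⟨H _ t7268.2.2.2.2.1, H _ t7268.2.2.2.2.2.1⟩, ⟨H _ t7268.2.2.2.2.2.2.1, H _ t7268.2.2.2.2.2.2.2⟩⟩⟩, ⟨⟨⟨H _ t7276.1, H _ t7276.2.1⟩, ⟨H _ t7276.2.2.1, H _ t7276.2.2.2.1⟩⟩, ⟨⟨H _ t7276.2.2.2.2.1, H _ t7276.2.2.2.2.2.1⟩, ⟨H _ t7276.2.2.2.2.2.2.1, ⟨H _ t7276.2.2.2.2.2.2.2, H _ t7284.1⟩⟩⟩⟩⟩, ⟨⟨⟨⟨H _ t7284.2.1, H _ t7284.2.2.1⟩, ⟨H _ t7284.2.2.2.1, H _ t7284.2.2.2.2.1⟩⟩, ⟨⟨H _ t7284.2.2.2.2.2.1, H _ t7284.2.2.2.2.2.2.1⟩, ⟨H _ t7284.2.2.2.2.2.2.2, H _ t7292.1⟩⟩⟩, ⟨⟨⟨H _ t7292.2.1, H _ t7292.2.2.1⟩, ⟨H _ t7292.2.2.2.1, H _ t7292.2.2.2.2.1⟩⟩, ⟨⟨H _ t7292.2.2.2.2.2.1, H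 _ t7292.2.2.2.2.2.2.1⟩, ⟨H _ t7292.2.2.2.2.2.2.2, ⟨H _ t7300.1, H _ t7300.2.1⟩⟩⟩⟩⟩⟩, ⟨⟨⟨⟨⟨H _ t7300.2.2.1, H _ t7300.2.2.2.1⟩, ⟨H _ t7300.2.2.2.2.1, H _ t7300.2.2.2.2.2.1⟩⟩, ⟨⟨H _ t7300.2.2.2.2.2.2.1, H _ t7300.2.2.2.2.2.2.2⟩, ⟨H _ t7308.1, H _ t7308.2.1⟩⟩⟩, ⟨⟨⟨H _ t7308.2.2.1, H _ t7308.2.2.2.1⟩, ⟨H _ t7308.2.2.2.2.1, H _ t7308.2.2.2.2.2.1⟩⟩, ⟨⟨H _ t7308.2.2.2.2.2.2.1, H _ t7308.2.2.2.2.2.2.2⟩, ⟨H _ t7316.1, ⟨H _ t7316.2.1, H _ t7316.2.2.1⟩⟩⟩⟩⟩, ⟨⟨⟨⟨H _ t7316.2.2.2.1, H _ t7316.2.2.2.2.1⟩, ⟨H _ t7316.2.2.2.2.2.1, H _ t7316.2.2.2.2.2.2.1⟩⟩, ⟨⟨H _ t7316.2.2.2.2.2.2.2, H _ t7324.1⟩, ⟨H _ t7324.2.1, ⟨H _ t7324.2.2.1, H _ t7324.2.2.2.1⟩⟩⟩⟩, ⟨⟨⟨H _ t7324.2.2.2.2.1, H _ t7324.2.2.2.2.2.1⟩, ⟨H _ t7324.2.2.2.2.2.2.1, H _ t7324.2.2.2.2.2.2.2⟩⟩, ⟨⟨H _ t7332.1, H _ t7332.2.1⟩, ⟨H _ t7332.2.2.1, ⟨H _ t7332.2.2.2.1, H _ t7332.2.2.2.2.1⟩⟩⟩⟩⟩⟩⟩, ⟨⟨⟨⟨⟨⟨H _ t7332.2.2.2.2.2.1, H _ t7332.2.2.2.2.2.2.1⟩,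 ⟨H _ t7332.2.2.2.2.2.2.2, H _ t7340.1⟩⟩, ⟨⟨H _ t7340.2.1, H _ t7340.2.2.1⟩, ⟨H _ t7340.2.2.2.1, H _ t7340.2.2.2.2.1⟩⟩⟩, ⟨⟨⟨H _ t7340.2.2.2.2.2.1, H _ t7340.2.2.2.2.2.2.1⟩, ⟨H _ t7340.2.2.2.2.2.2.2, H _ t7348.1⟩⟩, ⟨⟨H _ t7348.2.1, H _ t7348.2.2.1⟩, ⟨H _ t7348.2.2.2.1, ⟨H _ t7348.2.2.2.2.1, H _ t7348.2.2.2.2.2.1⟩⟩⟩⟩⟩, ⟨⟨⟨⟨H _ t7348.2.2.2.2.2.2.1, H _ t7348.2.2.2.2.2.2.2⟩, ⟨H _ t7356.1, H _ t7356.2.1⟩⟩, ⟨⟨H _ t7356.2.2.1, H _ t7356.2.2.2.1⟩, ⟨H _ t7356.2.2.2.2.1, H _ t7356.2.2.2.2.2.1⟩⟩⟩, ⟨⟨⟨H _ t7356.2.2.2.2.2.2.1, H _ t7356.2.2.2.2.2.2.2⟩, ⟨H _ t7364.1, H _ t7364.2.1⟩⟩, ⟨⟨H _ t7364.2.2.1, H _ t7364.2.2.2.1⟩, ⟨H _ t7364.2.2.2.2.1, ⟨H _ t7364.2.2.2.2.2.1, H _ t7364.2.2.2.2.2.2.1⟩⟩⟩⟩⟩⟩, ⟨⟨⟨⟨⟨H _ t7364.2.2.2.2.2.2.2, H _ t7372.1⟩, ⟨H _ t7372.2.1, H _ t7372.2.2.1⟩⟩, ⟨⟨H _ t7372.2.2.2.1, H _ t7372.2.2.2.2.1⟩, ⟨H _ t7372.2.2.2.2.2.1, H _ t7372.2.2.2.2.2.2.1⟩⟩⟩, ⟨⟨⟨H _ t7372.2.2.2.2.2.2.2,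 H _ t7380.1⟩, ⟨H _ t7380.2.1, H _ t7380.2.2.1⟩⟩, ⟨⟨H _ t7380.2.2.2.1, H _ t7380.2.2.2.2.1⟩, ⟨H _ t7380.2.2.2.2.2.1, ⟨H _ t7380.2.2.2.2.2.2.1, H _ t7380.2.2.2.2.2.2.2⟩⟩⟩⟩⟩, ⟨⟨⟨⟨H _ t7388.1, H _ t7388.2.1⟩, ⟨H _ t7388.2.2.1, H _ t7388.2.2.2.1⟩⟩, ⟨⟨H _ t7388.2.2.2.2.1, H _ t7388.2.2.2.2.2.1⟩, ⟨H _ t7388.2.2.2.2.2.2.1, ⟨H _ t7388.2.2.2.2.2.2.2, H _ t7396.1⟩⟩⟩⟩, ⟨⟨⟨H _ t7396.2.1, H _ t7396.2.2.1⟩, ⟨H _ t7396.2.2.2.1, H _ t7396.2.2.2.2.1⟩⟩, ⟨⟨H _ t7396.2.2.2.2.2.1, H _ t7396.2.2.2.2.2.2.1⟩, ⟨H _ t7396.2.2.2.2.2.2.2, ⟨H _ t7404.1, H _ t7404.2.1⟩⟩⟩⟩⟩⟩⟩⟩, ⟨⟨⟨⟨⟨⟨⟨H _ t7404.2.2.1, H _ t7404.2.2.2.1⟩, ⟨H _ t7404.2.2.2.2.1, H _ t7404.2.2.2.2.2.1⟩⟩, ⟨⟨H _ t7404.2.2.2.2.2.2.1, H _ t7404.2.2.2.2.2.2.2⟩, ⟨H _ t7412.1, H _ t7412.2.1⟩⟩⟩, ⟨⟨⟨H _ t7412.2.2.1, H _ t7412.2.2.2.1⟩, ⟨H _ t7412.2.2.2.2.1, H _ t7412.2.2.2.2.2.1⟩⟩, ⟨⟨H _ t7412.2.2.2.2.2.2.1, H _ t7412.2.2.2.2.2.2.2⟩, ⟨H _ t7420.1,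 ⟨H _ t7420.2.1, H _ t7420.2.2.1⟩⟩⟩⟩⟩, ⟨⟨⟨⟨H _ t7420.2.2.2.1, H _ t7420.2.2.2.2.1⟩, ⟨H _ t7420.2.2.2.2.2.1, H _ t7420.2.2.2.2.2.2.1⟩⟩, ⟨⟨H _ t7420.2.2.2.2.2.2.2, H _ t7428.1⟩, ⟨H _ t7428.2.1, H _ t7428.2.2.1⟩⟩⟩, ⟨⟨⟨H _ t7428.2.2.2.1, H _ t7428.2.2.2.2.1⟩, ⟨H _ t7428.2.2.2.2.2.1, H _ t7428.2.2.2.2.2.2.1⟩⟩, ⟨⟨H _ t7428.2.2.2.2.2.2.2, H _ t7436.1⟩, ⟨H _ t7436.2.1, ⟨H _ t7436.2.2.1, H _ t7436.2.2.2.1⟩⟩⟩⟩⟩⟩, ⟨⟨⟨⟨⟨H _ t7436.2.2.2.2.1, H _ t7436.2.2.2.2.2.1⟩, ⟨H _ t7436.2.2.2.2.2.2.1, H _ t7436.2.2.2.2.2.2.2⟩⟩, ⟨⟨H _ t7444.1, H _ t7444.2.1⟩, ⟨H _ t7444.2.2.1, H _ t7444.2.2.2.1⟩⟩⟩, ⟨⟨⟨H _ t7444.2.2.2.2.1, H _ t7444.2.2.2.2.2.1⟩, ⟨H _ t7444.2.2.2.2.2.2.1, H _ t7444.2.2.2.2.2.2.2⟩⟩, ⟨⟨H _ t7452.1, H _ t7452.2.1⟩, ⟨H _ t7452.2.2.1, ⟨H _ t7452.2.2.2.1, H _ t7452.2.2.2.2.1⟩⟩⟩⟩⟩, ⟨⟨⟨⟨H _ t7452.2.2.2.2.2.1, H _ t7452.2.2.2.2.2.2.1⟩, ⟨H _ t7452.2.2.2.2.2.2.2, H _ t7460.1⟩⟩, ⟨⟨H _ t7460.2.1,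 H _ t7460.2.2.1⟩, ⟨H _ t7460.2.2.2.1, ⟨H _ t7460.2.2.2.2.1, H _ t7460.2.2.2.2.2.1⟩⟩⟩⟩, ⟨⟨⟨H _ t7460.2.2.2.2.2.2.1, H _ t7460.2.2.2.2.2.2.2⟩, ⟨H _ t7468.1, H _ t7468.2.1⟩⟩, ⟨⟨H _ t7468.2.2.1, H _ t7468.2.2.2.1⟩, ⟨H _ t7468.2.2.2.2.1, ⟨H _ t7468.2.2.2.2.2.1, H _ t7468.2.2.2.2.2.2.1⟩⟩⟩⟩⟩⟩⟩, ⟨⟨⟨⟨⟨⟨H _ t7468.2.2.2.2.2.2.2, H _ t7476.1⟩, ⟨H _ t7476.2.1, H _ t7476.2.2.1⟩⟩, ⟨⟨H _ t7476.2.2.2.1, H _ t7476.2.2.2.2.1⟩, ⟨H _ t7476.2.2.2.2.2.1, H _ t7476.2.2.2.2.2.2.1⟩⟩⟩, ⟨⟨⟨H _ t7476.2.2.2.2.2.2.2, H _ t7484.1⟩, ⟨H _ t7484.2.1, H _ t7484.2.2.1⟩⟩, ⟨⟨H _ t7484.2.2.2.1, H _ t7484.2.2.2.2.1⟩, ⟨H _ t7484.2.2.2.2.2.1, ⟨H _ t7484.2.2.2.2.2.2.1, H _ t7484.2.2.2.2.2.2.2⟩⟩⟩⟩⟩, ⟨⟨⟨⟨H _ t7492.1, H _ t7492.2.1⟩, ⟨H _ t7492.2.2.1, H _ t7492.2.2.2.1⟩⟩, ⟨⟨H _ t7492.2.2.2.2.1, H _ t7492.2.2.2.2.2.1⟩, ⟨H _ t7492.2.2.2.2.2.2.1, ⟨H _ t7492.2.2.2.2.2.2.2, H _ t7500.1⟩⟩⟩⟩, ⟨⟨⟨H _ t7500.2.1, H _ t7500.2.2.1⟩,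 ⟨H _ t7500.2.2.2.1, H _ t7500.2.2.2.2.1⟩⟩, ⟨⟨H _ t7500.2.2.2.2.2.1, H _ t7500.2.2.2.2.2.2.1⟩, ⟨H _ t7500.2.2.2.2.2.2.2, ⟨H _ t7508.1, H _ t7508.2.1⟩⟩⟩⟩⟩⟩, ⟨⟨⟨⟨⟨H _ t7508.2.2.1, H _ t7508.2.2.2.1⟩, ⟨H _ t7508.2.2.2.2.1, H _ t7508.2.2.2.2.2.1⟩⟩, ⟨⟨H _ t7508.2.2.2.2.2.2.1, H _ t7508.2.2.2.2.2.2.2⟩, ⟨H _ t7516.1, H _ t7516.2.1⟩⟩⟩, ⟨⟨⟨H _ t7516.2.2.1, H _ t7516.2.2.2.1⟩, ⟨H _ t7516.2.2.2.2.1, H _ t7516.2.2.2.2.2.1⟩⟩, ⟨⟨H _ t7516.2.2.2.2.2.2.1, H _ t7516.2.2.2.2.2.2.2⟩, ⟨H _ t7524.1, ⟨H _ t7524.2.1, H _ t7524.2.2.1⟩⟩⟩⟩⟩, ⟨⟨⟨⟨H _ t7524.2.2.2.1, H _ t7524.2.2.2.2.1⟩, ⟨H _ t7524.2.2.2.2.2.1, H _ t7524.2.2.2.2.2.2.1⟩⟩, ⟨⟨H _ t7524.2.2.2.2.2.2.2, H _ t7532.1⟩, ⟨H _ t7532.2.1, ⟨H _ t7532.2.2.1, H _ t7532.2.2.2.1⟩⟩⟩⟩, ⟨⟨⟨H _ t7532.2.2.2.2.1, H _ t7532.2.2.2.2.2.1⟩, ⟨H _ t7532.2.2.2.2.2.2.1, H _ t7532.2.2.2.2.2.2.2⟩⟩, ⟨⟨H _ t7540.1, H _ t7540.2.1⟩, ⟨H _ t7540.2.2.1, ⟨H _ t7540.2.2.2.1,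 H _ t7540.2.2.2.2.1⟩⟩⟩⟩⟩⟩⟩⟩⟩, ⟨⟨⟨⟨⟨⟨⟨⟨H _ t7540.2.2.2.2.2.1, H _ t7540.2.2.2.2.2.2.1⟩, ⟨H _ t7540.2.2.2.2.2.2.2, H _ t7548.1⟩⟩, ⟨⟨H _ t7548.2.1, H _ t7548.2.2.1⟩, ⟨H _ t7548.2.2.2.1, H _ t7548.2.2.2.2.1⟩⟩⟩, ⟨⟨⟨H _ t7548.2.2.2.2.2.1, H _ t7548.2.2.2.2.2.2.1⟩, ⟨H _ t7548.2.2.2.2.2.2.2, H _ t7556.1⟩⟩, ⟨⟨H _ t7556.2.1, H _ t7556.2.2.1⟩, ⟨H _ t7556.2.2.2.1, ⟨H _ t7556.2.2.2.2.1, H _ t7556.2.2.2.2.2.1⟩⟩⟩⟩⟩, ⟨⟨⟨⟨H _ t7556.2.2.2.2.2.2.1, H _ t7556.2.2.2.2.2.2.2⟩, ⟨H _ t7564.1, H _ t7564.2.1⟩⟩, ⟨⟨H _ t7564.2.2.1, H _ t7564.2.2.2.1⟩, ⟨H _ t7564.2.2.2.2.1, H _ t7564.2.2.2.2.2.1⟩⟩⟩, ⟨⟨⟨H _ t7564.2.2.2.2.2.2.1, H _ t7564.2.2.2.2.2.2.2⟩, ⟨H _ t7572.1, H _ t7572.2.1⟩⟩, ⟨⟨H _ t7572.2.2.1, H _ t7572.2.2.2.1⟩, ⟨H _ t7572.2.2.2.2.1, ⟨H _ t7572.2.2.2.2.2.1, H _ t7572.2.2.2.2.2.2.1⟩⟩⟩⟩⟩⟩, ⟨⟨⟨⟨⟨H _ t7572.2.2.2.2.2.2.2, H _ t7580.1⟩, ⟨H _ t7580.2.1, H _ t7580.2.2.1⟩⟩, ⟨⟨H _ t7580.2.2.2.1, H _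 t7580.2.2.2.2.1⟩, ⟨H _ t7580.2.2.2.2.2.1, H _ t7580.2.2.2.2.2.2.1⟩⟩⟩, ⟨⟨⟨H _ t7580.2.2.2.2.2.2.2, H _ t7588.1⟩, ⟨H _ t7588.2.1, H _ t7588.2.2.1⟩⟩, ⟨⟨H _ t7588.2.2.2.1, H _ t7588.2.2.2.2.1⟩, ⟨H _ t7588.2.2.2.2.2.1, ⟨H _ t7588.2.2.2.2.2.2.1, H _ t7588.2.2.2.2.2.2.2⟩⟩⟩⟩⟩, ⟨⟨⟨⟨H _ t7596.1, H _ t7596.2.1⟩, ⟨H _ t7596.2.2.1, H _ t7596.2.2.2.1⟩⟩, ⟨⟨H _ t7596.2.2.2.2.1, H _ t7596.2.2.2.2.2.1⟩, ⟨H _ t7596.2.2.2.2.2.2.1, ⟨H _ t7596.2.2.2.2.2.2.2, H _ t7604.1⟩⟩⟩⟩, ⟨⟨⟨H _ t7604.2.1, H _ t7604.2.2.1⟩, ⟨H _ t7604.2.2.2.1, H _ t7604.2.2.2.2.1⟩⟩, ⟨⟨H _ t7604.2.2.2.2.2.1, H _ t7604.2.2.2.2.2.2.1⟩, ⟨H _ t7604.2.2.2.2.2.2.2, ⟨H _ t7612.1, H _ t7612.2.1⟩⟩⟩⟩⟩⟩⟩, ⟨⟨⟨⟨⟨⟨H _ t7612.2.2.1, H _ t7612.2.2.2.1⟩, ⟨H _ t7612.2.2.2.2.1, H _ t7612.2.2.2.2.2.1⟩⟩, ⟨⟨H _ t7612.2.2.2.2.2.2.1, H _ t7612.2.2.2.2.2.2.2⟩, ⟨H _ t7620.1, H _ t7620.2.1⟩⟩⟩, ⟨⟨⟨H _ t7620.2.2.1, H _ t7620.2.2.2.1⟩, ⟨H _ t7620.2.2.2.2.1,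 H _ t7620.2.2.2.2.2.1⟩⟩, ⟨⟨H _ t7620.2.2.2.2.2.2.1, H _ t7620.2.2.2.2.2.2.2⟩, ⟨H _ t7628.1, ⟨H _ t7628.2.1, H _ t7628.2.2.1⟩⟩⟩⟩⟩, ⟨⟨⟨⟨H _ t7628.2.2.2.1, H _ t7628.2.2.2.2.1⟩, ⟨H _ t7628.2.2.2.2.2.1, H _ t7628.2.2.2.2.2.2.1⟩⟩, ⟨⟨H _ t7628.2.2.2.2.2.2.2, H _ t7636.1⟩, ⟨H _ t7636.2.1, H _ t7636.2.2.1⟩⟩⟩, ⟨⟨⟨H _ t7636.2.2.2.1, H _ t7636.2.2.2.2.1⟩, ⟨H _ t7636.2.2.2.2.2.1, H _ t7636.2.2.2.2.2.2.1⟩⟩, ⟨⟨H _ t7636.2.2.2.2.2.2.2, H _ t7644.1⟩, ⟨H _ t7644.2.1, ⟨H _ t7644.2.2.1, H _ t7644.2.2.2.1⟩⟩⟩⟩⟩⟩, ⟨⟨⟨⟨⟨H _ t7644.2.2.2.2.1, H _ t7644.2.2.2.2.2.1⟩, ⟨H _ t7644.2.2.2.2.2.2.1, H _ t7644.2.2.2.2.2.2.2⟩⟩, ⟨⟨H _ t7652.1, H _ t7652.2.1⟩, ⟨H _ t7652.2.2.1, H _ t7652.2.2.2.1⟩⟩⟩, ⟨⟨⟨H _ t7652.2.2.2.2.1, H _ t7652.2.2.2.2.2.1⟩, ⟨H _ t7652.2.2.2.2.2.2.1, H _ t7652.2.2.2.2.2.2.2⟩⟩, ⟨⟨H _ t7660.1, H _ t7660.2.1⟩, ⟨H _ t7660.2.2.1, ⟨H _ t7660.2.2.2.1, H _ t7660.2.2.2.2.1⟩⟩⟩⟩⟩, ⟨⟨⟨⟨H _ t7660.2.2.2.2.2.1,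 H _ t7660.2.2.2.2.2.2.1⟩, ⟨H _ t7660.2.2.2.2.2.2.2, H _ t7668.1⟩⟩, ⟨⟨H _ t7668.2.1, H _ t7668.2.2.1⟩, ⟨H _ t7668.2.2.2.1, ⟨H _ t7668.2.2.2.2.1, H _ t7668.2.2.2.2.2.1⟩⟩⟩⟩, ⟨⟨⟨H _ t7668.2.2.2.2.2.2.1, H _ t7668.2.2.2.2.2.2.2⟩, ⟨H _ t7676.1, H _ t7676.2.1⟩⟩, ⟨⟨H _ t7676.2.2.1, H _ t7676.2.2.2.1⟩, ⟨H _ t7676.2.2.2.2.1, ⟨H _ t7676.2.2.2.2.2.1, H _ t7676.2.2.2.2.2.2.1⟩⟩⟩⟩⟩⟩⟩⟩, ⟨⟨⟨⟨⟨⟨⟨H _ t7676.2.2.2.2.2.2.2, H _ t7684.1⟩, ⟨H _ t7684.2.1, H _ t7684.2.2.1⟩⟩, ⟨⟨H _ t7684.2.2.2.1, H _ t7684.2.2.2.2.1⟩, ⟨H _ t7684.2.2.2.2.2.1, H _ t7684.2.2.2.2.2.2.1⟩⟩⟩, ⟨⟨⟨H _ t7684.2.2.2.2.2.2.2, H _ t7692.1⟩, ⟨H _ t7692.2.1, H _ t7692.2.2.1⟩⟩, ⟨⟨H _ t7692.2.2.2.1, H _ t7692.2.2.2.2.1⟩, ⟨H _ t7692.2.2.2.2.2.1, ⟨H _ t7692.2.2.2.2.2.2.1, H _ t7692.2.2.2.2.2.2.2⟩⟩⟩⟩⟩, ⟨⟨⟨⟨H _ t7700.1, H _ t7700.2.1⟩, ⟨H _ t7700.2.2.1, H _ t7700.2.2.2.1⟩⟩, ⟨⟨H _ t7700.2.2.2.2.1, H _ t7700.2.2.2.2.2.1⟩, ⟨H _ t7700.2.2.2.2.2.2.1,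 H _ t7700.2.2.2.2.2.2.2⟩⟩⟩, ⟨⟨⟨H _ t7708.1, H _ t7708.2.1⟩, ⟨H _ t7708.2.2.1, H _ t7708.2.2.2.1⟩⟩, ⟨⟨H _ t7708.2.2.2.2.1, H _ t7708.2.2.2.2.2.1⟩, ⟨H _ t7708.2.2.2.2.2.2.1, ⟨H _ t7708.2.2.2.2.2.2.2, H _ t7716.1⟩⟩⟩⟩⟩⟩, ⟨⟨⟨⟨⟨H _ t7716.2.1, H _ t7716.2.2.1⟩, ⟨H _ t7716.2.2.2.1, H _ t7716.2.2.2.2.1⟩⟩, ⟨⟨H _ t7716.2.2.2.2.2.1, H _ t7716.2.2.2.2.2.2.1⟩, ⟨H _ t7716.2.2.2.2.2.2.2, H _ t7724.1⟩⟩⟩, ⟨⟨⟨H _ t7724.2.1, H _ t7724.2.2.1⟩, ⟨H _ t7724.2.2.2.1, H _ t7724.2.2.2.2.1⟩⟩, ⟨⟨H _ t7724.2.2.2.2.2.1, H _ t7724.2.2.2.2.2.2.1⟩, ⟨H _ t7724.2.2.2.2.2.2.2, ⟨H _ t7732.1, H _ t7732.2.1⟩⟩⟩⟩⟩, ⟨⟨⟨⟨H _ t7732.2.2.1, H _ t7732.2.2.2.1⟩, ⟨H _ t7732.2.2.2.2.1, H _ t7732.2.2.2.2.2.1⟩⟩, ⟨⟨H _ t7732.2.2.2.2.2.2.1, H _ t7732.2.2.2.2.2.2.2⟩, ⟨H _ t7740.1, ⟨H _ t7740.2.1, H _ t7740.2.2.1⟩⟩⟩⟩, ⟨⟨⟨H _ t7740.2.2.2.1, H _ t7740.2.2.2.2.1⟩, ⟨H _ t7740.2.2.2.2.2.1, H _ t7740.2.2.2.2.2.2.1⟩⟩, ⟨⟨H _ t7740.2.2.2.2.2.2.2,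 H _ t7748.1⟩, ⟨H _ t7748.2.1, ⟨H _ t7748.2.2.1, H _ t7748.2.2.2.1⟩⟩⟩⟩⟩⟩⟩, ⟨⟨⟨⟨⟨⟨H _ t7748.2.2.2.2.1, H _ t7748.2.2.2.2.2.1⟩, ⟨H _ t7748.2.2.2.2.2.2.1, H _ t7748.2.2.2.2.2.2.2⟩⟩, ⟨⟨H _ t7756.1, H _ t7756.2.1⟩, ⟨H _ t7756.2.2.1, H _ t7756.2.2.2.1⟩⟩⟩, ⟨⟨⟨H _ t7756.2.2.2.2.1, H _ t7756.2.2.2.2.2.1⟩, ⟨H _ t7756.2.2.2.2.2.2.1, H _ t7756.2.2.2.2.2.2.2⟩⟩, ⟨⟨H _ t7764.1, H _ t7764.2.1⟩, ⟨H _ t7764.2.2.1, ⟨H _ t7764.2.2.2.1, H _ t7764.2.2.2.2.1⟩⟩⟩⟩⟩, ⟨⟨⟨⟨H _ t7764.2.2.2.2.2.1, H _ t7764.2.2.2.2.2.2.1⟩, ⟨H _ t7764.2.2.2.2.2.2.2, H _ t7772.1⟩⟩, ⟨⟨H _ t7772.2.1, H _ t7772.2.2.1⟩, ⟨H _ t7772.2.2.2.1, ⟨H _ t7772.2.2.2.2.1, H _ t7772.2.2.2.2.2.1⟩⟩⟩⟩, ⟨⟨⟨H _ t7772.2.2.2.2.2.2.1, H _ t7772.2.2.2.2.2.2.2⟩, ⟨H _ t7780.1, H _ t7780.2.1⟩⟩, ⟨⟨H _ t7780.2.2.1, H _ t7780.2.2.2.1⟩, ⟨H _ t7780.2.2.2.2.1, ⟨H _ t7780.2.2.2.2.2.1, H _ t7780.2.2.2.2.2.2.1⟩⟩⟩⟩⟩⟩, ⟨⟨⟨⟨⟨H _ t7780.2.2.2.2.2.2.2, H _ t7788.1⟩,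 ⟨H _ t7788.2.1, H _ t7788.2.2.1⟩⟩, ⟨⟨H _ t7788.2.2.2.1, H _ t7788.2.2.2.2.1⟩, ⟨H _ t7788.2.2.2.2.2.1, H _ t7788.2.2.2.2.2.2.1⟩⟩⟩, ⟨⟨⟨H _ t7788.2.2.2.2.2.2.2, H _ t7796.1⟩, ⟨H _ t7796.2.1, H _ t7796.2.2.1⟩⟩, ⟨⟨H _ t7796.2.2.2.1, H _ t7796.2.2.2.2.1⟩, ⟨H _ t7796.2.2.2.2.2.1, ⟨H _ t7796.2.2.2.2.2.2.1, H _ t7796.2.2.2.2.2.2.2⟩⟩⟩⟩⟩, ⟨⟨⟨⟨H _ t7804.1, H _ t7804.2.1⟩, ⟨H _ t7804.2.2.1, H _ t7804.2.2.2.1⟩⟩, ⟨⟨H _ t7804.2.2.2.2.1, H _ t7804.2.2.2.2.2.1⟩, ⟨H _ t7804.2.2.2.2.2.2.1, ⟨H _ t7804.2.2.2.2.2.2.2, H _ t7812.1⟩⟩⟩⟩, ⟨⟨⟨H _ t7812.2.1, H _ t7812.2.2.1⟩, ⟨H _ t7812.2.2.2.1, H _ t7812.2.2.2.2.1⟩⟩, ⟨⟨H _ t7812.2.2.2.2.2.1, H _ t7812.2.2.2.2.2.2.1⟩, ⟨H _ t7812.2.2.2.2.2.2.2, ⟨H _ t7820.1, H _ t7820.2⟩⟩⟩⟩⟩⟩⟩⟩⟩⟩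

end Pool.Agent.MP_c853c5_nt.X.C4950
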