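import Pool.Agent.MP_c853c5_nt.X.C4950.Env
import Pool.Agent.MP_c853c5_nt.X.C4950.D2

set_option autoImplicit false
set_option maxRecDepth 8192
set_option linter.all false

namespace Pool.Agent.MP_c853c5_nt.X.C4950

open Pool.Agent.MP_c853c5_nt.X

def t7822 : allY (E.wth (lkp [])) l7822 = true ∧
    allY (E.wth (lkp [])) l7823 = true ∧
    allY (E.wth (lkp [])) l7824 = true ∧
    allY (E.wth (lkp [])) l7825 = true ∧
    allY (E.wth (lkp [])) l7826 = true ∧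
    allY (E.wth (lkp [])) l7827 = true ∧
    allY (E.wth (lkp [])) l7828 = true ∧
    allY (E.wth (lkp [])) l7829 = true :=
  ⟨by decide +kernel, by decide +kernel, by decide +kernel, by decide +kernel, by decide +kernel, by decide +kernel, by decide +kernel, by decide +kernel⟩

def t7830 : allY (E.wth (lkp [])) l7830 = true ∧
    allY (E.wth (lkp [])) l7831 = true ∧
    allY (E.wth (lkp [])) l7832 = true ∧
    allY (E.wth (lkp [])) l7833 = true ∧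
    allY (E.wth (lkp [])) l7834 = true ∧
    allY (E.wth (lkp [])) l7835 = true ∧
    allY (E.wth (lkp [])) l7836 = true ∧
    allY (E.wth (lkp [])) l7837 = true :=
  ⟨by decide +kernel, by decide +kernel, by decide +kernel, by decide +kernel, by decide +kernel, by decide +kernel, by decide +kernel, by decide +kernel⟩

def t7838 : allY (E.wth (lkp [])) l7838 = true ∧
    allY (E.wth (lkp [])) l7839 = true ∧
    allY (E.wth (lkp [])) l7840 = true ∧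
    allY (E.wth (lkp [])) l7841 = true ∧
    allY (E.wth (lkp [])) l7842 = true ∧
    allY (E.wth (lkp [])) l7843 = true ∧
    allY (E.wth (lkp [])) l7844 = true ∧
    allY (E.wth (lkp [])) l7845 = true :=
  ⟨by decide +kernel, by decide +kernel, by decide +kernel, by decide +kernel, by decide +kernel, by decide +kernel, by decide +kernel, by decide +kernel⟩

def t7846 : allY (E.wth (lkp [])) l7846 = true ∧
    allY (E.wth (lkp [])) l7847 = true ∧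
    allY (E.wth (lkp [])) l7848 = true ∧
    allY (E.wth (lkp [])) l7849 = true ∧
    allY (E.wth (lkp [])) l7850 = true ∧
    allY (E.wth (lkp [])) l7851 = true ∧
    allY (E.wth (lkp [])) l7852 = true ∧
    allY (E.wth (lkp [])) l7853 = true :=
  ⟨by decide +kernel, by decide +kernel, by decide +kernel, by decide +kernel, by decide +kernel, by decide +kernel, by decide +kernel, by decide +kernel⟩

def t7854 : allY (E.wth (lkp [])) l7854 = true ∧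
    allY (E.wth (lkp [])) l7855 = true ∧
    allY (E.wth (lkp [])) l7856 = true ∧
    allY (E.wth (lkp [])) l7857 = true ∧
    allY (E.wth (lkp [])) l7858 = true ∧
    allY (E.wth (lkp [])) l7859 = true ∧
    allY (E.wth (lkp [])) l7860 = true ∧
    allY (E.wth (lkp [])) l7861 = true :=
  ⟨by decide +kernel, by decide +kernel, by decide +kernel, by decide +kernel, by decide +kernel, by decide +kernel, by decide +kernel, by decide +kernel⟩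

def t7862 : allY (E.wth (lkp [])) l7862 = true ∧
    allY (E.wth (lkp [])) l7863 = true ∧
    allY (E.wth (lkp [])) l7864 = true ∧
    allY (E.wth (lkp [])) l7865 = true ∧
    allY (E.wth (lkp [])) l7866 = true ∧
    allY (E.wth (lkp [])) l7867 = true ∧
    allY (E.wth (lkp [])) l7868 = true ∧
    allY (E.wth (lkp [])) l7869 = true :=
  ⟨by decide +kernel, by decide +kernel, by decide +kernel, by decide +kernel, by decide +kernel, by decide +kernel, by decide +kernel, by decide +kernel⟩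

def t7870 : allY (E.wth (lkp [])) l7870 = true ∧
    allY (E.wth (lkp [])) l7871 = true ∧
    allY (E.wth (lkp [])) l7872 = true ∧
    allY (E.wth (lkp [])) l7873 = true ∧
    allY (E.wth (lkp [])) l7874 = true ∧
    allY (E.wth (lkp [])) l7875 = true ∧
    allY (E.wth (lkp [])) l7876 = true ∧
    allY (E.wth (lkp [])) l7877 = true :=
  ⟨by decide +kernel, by decide +kernel, by decide +kernel, by decide +kernel, by decide +kernel, by decide +kernel, by decide +kernel, by decide +kernel⟩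

def t7878 : allY (E.wth (lkp [])) l7878 = true ∧
    allY (E.wth (lkp [])) l7879 = true ∧
    allY (E.wth (lkp [])) l7880 = true ∧
    allY (E.wth (lkp [])) l7881 = true ∧
    allY (E.wth (lkp [])) l7882 = true ∧
    allY (E.wth (lkp [])) l7883 = true ∧
    allY (E.wth (lkp [])) l7884 = true ∧
    allY (E.wth (lkp [])) l7885 = true :=
  ⟨by decide +kernel, by decide +kernel, by decide +kernel, by decide +kernel, by decide +kernel, by decide +kernel, by decide +kernel, by decide +kernel⟩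

def t7886 : allY (E.wth (lkp [])) l7886 = true ∧
    allY (E.wth (lkp [])) l7887 = true ∧
    allY (E.wth (lkp [])) l7888 = true ∧
    allY (E.wth (lkp [])) l7889 = true ∧
    allY (E.wth (lkp [])) l7890 = true ∧
    allY (E.wth (lkp [])) l7891 = true ∧
    allY (E.wth (lkp [])) l7892 = true ∧
    allY (E.wth (lkp [])) l7893 = true :=
  ⟨by decide +kernel, by decide +kernel, by decide +kernel, by decide +kernel, by decide +kernel, by decide +kernel, by decide +kernel, by decide +kernel⟩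

def t7894 : allY (E.wth (lkp [])) l7894 = true ∧
    allY (E.wth (lkp [])) l7895 = true ∧
    allY (E.wth (lkp [])) l7896 = true ∧
    allY (E.wth (lkp [])) l7897 = true ∧
    allY (E.wth (lkp [])) l7898 = true ∧
    allY (E.wth (lkp [])) l7899 = true ∧
    allY (E.wth (lkp [])) l7900 = true ∧
    allY (E.wth (lkp [])) l7901 = true :=
  ⟨by decide +kernel, by decide +kernel, by decide +kernel, by decide +kernel, by decide +kernel, by decide +kernel, by decide +kernel, by decide +kernel⟩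

def t7902 : allY (E.wth (lkp [])) l7902 = true ∧
    allY (E.wth (lkp [])) l7903 = true ∧
    allY (E.wth (lkp [])) l7904 = true ∧
    allY (E.wth (lkp [])) l7905 = true ∧
    allY (E.wth (lkp [])) l7906 = true ∧
    allY (E.wth (lkp [])) l7907 = true ∧
    allY (E.wth (lkp [])) l7908 = true ∧
    allY (E.wth (lkp [])) l7909 = true :=
  ⟨by decide +kernel, by decide +kernel, by decide +kernel, by decide +kernel, by decide +kernel, by decide +kernel, by decide +kernel, by decide +kernel⟩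

def t7910 : allY (E.wth (lkp [])) l7910 = true ∧
    allY (E.wth (lkp [])) l7911 = true ∧
    allY (E.wth (lkp [])) l7912 = true ∧
    allY (E.wth (lkp [])) l7913 = true ∧
    allY (E.wth (lkp [])) l7914 = true ∧
    allY (E.wth (lkp [])) l7915 = true ∧
    allY (E.wth (lkp [])) l7916 = true ∧
    allY (E.wth (lkp [])) l7917 = true :=
  ⟨by decide +kernel, by decide +kernel, by decide +kernel, by decide +kernel, by decide +kernel, by decide +kernel, by decide +kernel, by decide +kernel⟩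

def t7918 : allY (E.wth (lkp [])) l7918 = true ∧
    allY (E.wth (lkp [])) l7919 = true ∧
    allY (E.wth (lkp [])) l7920 = true ∧
    allY (E.wth (lkp [])) l7921 = true ∧
    allY (E.wth (lkp [])) l7922 = true ∧
    allY (E.wth (lkp [])) l7923 = true ∧
    allY (E.wth (lkp [])) l7924 = true ∧
    allY (E.wth (lkp [])) l7925 = true :=
  ⟨by decide +kernel, by decide +kernel, by decide +kernel, by decide +kernel, by decide +kernel, by decide +kernel, by decide +kernel, by decide +kernel⟩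

def t7926 : allY (E.wth (lkp [])) l7926 = true ∧
    allY (E.wth (lkp [])) l7927 = true ∧
    allY (E.wth (lkp [])) l7928 = true ∧
    allY (E.wth (lkp [])) l7929 = true ∧
    allY (E.wth (lkp [])) l7930 = true ∧
    allY (E.wth (lkp [])) l7931 = true ∧
    allY (E.wth (lkp [])) l7932 = true ∧
    allY (E.wth (lkp [])) l7933 = true :=
  ⟨by decide +kernel, by decide +kernel, by decide +kernel, by decide +kernel, by decide +kernel, by decide +kernel, by decide +kernel, by decide +kernel⟩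

def t7934 : allY (E.wth (lkp [])) l7934 = true ∧
    allY (E.wth (lkp [])) l7935 = true ∧
    allY (E.wth (lkp [])) l7936 = true ∧
    allY (E.wth (lkp [])) l7937 = true ∧
    allY (E.wth (lkp [])) l7938 = true ∧
    allY (E.wth (lkp [])) l7939 = true ∧
    allY (E.wth (lkp [])) l7940 = true ∧
    allY (E.wth (lkp [])) l7941 = true :=
  ⟨by decide +kernel, by decide +kernel, by decide +kernel, by decide +kernel, by decide +kernel, by decide +kernel, by decide +kernel, by decide +kernel⟩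

def t7942 : allY (E.wth (lkp [])) l7942 = true ∧
    allY (E.wth (lkp [])) l7943 = true ∧
    allY (E.wth (lkp [])) l7944 = true ∧
    allY (E.wth (lkp [])) l7945 = true ∧
    allY (E.wth (lkp [])) l7946 = true ∧
    allY (E.wth (lkp [])) l7947 = true ∧
    allY (E.wth (lkp [])) l7948 = true ∧
    allY (E.wth (lkp [])) l7949 = true :=
  ⟨by decide +kernel, by decide +kernel, by decide +kernel, by decide +kernel, by decide +kernel, by decide +kernel, by decide +kernel, by decide +kernel⟩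

def t7950 : allY (E.wth (lkp [])) l7950 = true ∧
    allY (E.wth (lkp [])) l7951 = true ∧
    allY (E.wth (lkp [])) l7952 = true ∧
    allY (E.wth (lkp [])) l7953 = true ∧
    allY (E.wth (lkp [])) l7954 = true ∧
    allY (E.wth (lkp [])) l7955 = true ∧
    allY (E.wth (lkp [])) l7956 = true ∧
    allY (E.wth (lkp [])) l7957 = true :=
  ⟨by decide +kernel, by decide +kernel, by decide +kernel, by decide +kernel, by decide +kernel, by decide +kernel, by decide +kernel, by decide +kernel⟩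

def t7958 : allY (E.wth (lkp [])) l7958 = true ∧
    allY (E.wth (lkp [])) l7959 = true ∧
    allY (E.wth (lkp [])) l7960 = true ∧
    allY (E.wth (lkp [])) l7961 = true ∧
    allY (E.wth (lkp [])) l7962 = true ∧
    allY (E.wth (lkp [])) l7963 = true ∧
    allY (E.wth (lkp [])) l7964 = true ∧
    allY (E.wth (lkp [])) l7965 = true :=
  ⟨by decide +kernel, by decide +kernel, by decide +kernel, by decide +kernel, by decide +kernel, by decide +kernel, by decide +kernel, by decide +kernel⟩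

def t7966 : allY (E.wth (lkp [])) l7966 = true ∧
    allY (E.wth (lkp [])) l7967 = true ∧
    allY (E.wth (lkp [])) l7968 = true ∧
    allY (E.wth (lkp [])) l7969 = true ∧
    allY (E.wth (lkp [])) l7970 = true ∧
    allY (E.wth (lkp [])) l7971 = true ∧
    allY (E.wth (lkp [])) l7972 = true ∧
    allY (E.wth (lkp [])) l7973 = true :=
  ⟨by decide +kernel, by decide +kernel, by decide +kernel, by decide +kernel, by decide +kernel, by decide +kernel, by decide +kernel, by decide +kernel⟩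

def t7974 : allY (E.wth (lkp [])) l7974 = true ∧
    allY (E.wth (lkp [])) l7975 = true ∧
    allY (E.wth (lkp [])) l7976 = true ∧
    allY (E.wth (lkp [])) l7977 = true ∧
    allY (E.wth (lkp [])) l7978 = true ∧
    allY (E.wth (lkp [])) l7979 = true ∧
    allY (E.wth (lkp [])) l7980 = true ∧
    allY (E.wth (lkp [])) l7981 = true :=
  ⟨by decide +kernel, by decide +kernel, by decide +kernel, by decide +kernel, by decide +kernel, by decide +kernel, by decide +kernel, by decide +kernel⟩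

def t7982 : allY (E.wth (lkp [])) l7982 = true ∧
    allY (E.wth (lkp [])) l7983 = true ∧
    allY (E.wth (lkp [])) l7984 = true ∧
    allY (E.wth (lkp [])) l7985 = true ∧
    allY (E.wth (lkp [])) l7986 = true ∧
    allY (E.wth (lkp [])) l7987 = true ∧
    allY (E.wth (lkp [])) l7988 = true ∧
    allY (E.wth (lkp [])) l7989 = true :=
  ⟨by decide +kernel, by decide +kernel, by decide +kernel, by decide +kernel, by decide +kernel, by decide +kernel, by decide +kernel, by decide +kernel⟩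

def t7990 : allY (E.wth (lkp [])) l7990 = true ∧
    allY (E.wth (lkp [])) l7991 = true ∧
    allY (E.wth (lkp [])) l7992 = true ∧
    allY (E.wth (lkp [])) l7993 = true ∧
    allY (E.wth (lkp [])) l7994 = true ∧
    allY (E.wth (lkp [])) l7995 = true ∧
    allY (E.wth (lkp [])) l7996 = true ∧
    allY (E.wth (lkp [])) l7997 = true :=
  ⟨by decide +kernel, by decide +kernel, by decide +kernel, by decide +kernel, by decide +kernel, by decide +kernel, by decide +kernel, by decide +kernel⟩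

def t7998 : allY (E.wth (lkp [])) l7998 = true ∧
    allY (E.wth (lkp [])) l7999 = true ∧
    allY (E.wth (lkp [])) l8000 = true ∧
    allY (E.wth (lkp [])) l8001 = true ∧
    allY (E.wth (lkp [])) l8002 = true ∧
    allY (E.wth (lkp [])) l8003 = true ∧
    allY (E.wth (lkp [])) l8004 = true ∧
    allY (E.wth (lkp [])) l8005 = true :=
  ⟨by decide +kernel, by decide +kernel, by decide +kernel, by decide +kernel, by decide +kernel, by decide +kernel, by decide +kernel, by decide +kernel⟩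

def t8006 : allY (E.wth (lkp [])) l8006 = true ∧
    allY (E.wth (lkp [])) l8007 = true ∧
    allY (E.wth (lkp [])) l8008 = true ∧
    allY (E.wth (lkp [])) l8009 = true ∧
    allY (E.wth (lkp [])) l8010 = true ∧
    allY (E.wth (lkp [])) l8011 = true ∧
    allY (E.wth (lkp [])) l8012 = true ∧
    allY (E.wth (lkp [])) l8013 = true :=
  ⟨by decide +kernel, by decide +kernel, by decide +kernel, by decide +kernel, by decide +kernel, by decide +kernel, by decide +kernel, by decide +kernel⟩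

def t8014 : allY (E.wth (lkp [])) l8014 = true ∧
    allY (E.wth (lkp [])) l8015 = true ∧
    allY (E.wth (lkp [])) l8016 = true ∧
    allY (E.wth (lkp [])) l8017 = true ∧
    allY (E.wth (lkp [])) l8018 = true ∧
    allY (E.wth (lkp [])) l8019 = true ∧
    allY (E.wth (lkp [])) l8020 = true ∧
    allY (E.wth (lkp [])) l8021 = true :=
  ⟨by decide +kernel, by decide +kernel, by decide +kernel, by decide +kernel, by decide +kernel, by decide +kernel, by decide +kernel, by decide +kernel⟩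

def t8022 : allY (E.wth (lkp [])) l8022 = true ∧
    allY (E.wth (lkp [])) l8023 = true ∧
    allY (E.wth (lkp [])) l8024 = true ∧
    allY (E.wth (lkp [])) l8025 = true ∧
    allY (E.wth (lkp [])) l8026 = true ∧
    allY (E.wth (lkp [])) l8027 = true ∧
    allY (E.wth (lkp [])) l8028 = true ∧
    allY (E.wth (lkp [])) l8029 = true :=
  ⟨by decide +kernel, by decide +kernel, by decide +kernel, by decide +kernel, by decide +kernel, by decide +kernel, by decide +kernel, by decide +kernel⟩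

def t8030 : allY (E.wth (lkp [])) l8030 = true ∧
    allY (E.wth (lkp [])) l8031 = true ∧
    allY (E.wth (lkp [])) l8032 = true ∧
    allY (E.wth (lkp [])) l8033 = true ∧
    allY (E.wth (lkp [])) l8034 = true ∧
    allY (E.wth (lkp [])) l8035 = true ∧
    allY (E.wth (lkp [])) l8036 = true ∧
    allY (E.wth (lkp [])) l8037 = true :=
  ⟨by decide +kernel, by decide +kernel, by decide +kernel, by decide +kernel, by decide +kernel, by decide +kernel, by decide +kernel, by decide +kernel⟩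

def t8038 : allY (E.wth (lkp [])) l8038 = true ∧
    allY (E.wth (lkp [])) l8039 = true ∧
    allY (E.wth (lkp [])) l8040 = true ∧
    allY (E.wth (lkp [])) l8041 = true ∧
    allY (E.wth (lkp [])) l8042 = true ∧
    allY (E.wth (lkp [])) l8043 = true ∧
    allY (E.wth (lkp [])) l8044 = true ∧
    allY (E.wth (lkp [])) l8045 = true :=
  ⟨by decide +kernel, by decide +kernel, by decide +kernel, by decide +kernel, by decide +kernel, by decide +kernel, by decide +kernel, by decide +kernel⟩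

def t8046 : allY (E.wth (lkp [])) l8046 = true ∧
    allY (E.wth (lkp [])) l8047 = true ∧
    allY (E.wth (lkp [])) l8048 = true ∧
    allY (E.wth (lkp [])) l8049 = true ∧
    allY (E.wth (lkp [])) l8050 = true ∧
    allY (E.wth (lkp [])) l8051 = true ∧
    allY (E.wth (lkp [])) l8052 = true ∧
    allY (E.wth (lkp [])) l8053 = true :=
  ⟨by decide +kernel, by decide +kernel, by decide +kernel, by decide +kernel, by decide +kernel, by decide +kernel, by decide +kernel, by decide +kernel⟩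

def t8054 : allY (E.wth (lkp [])) l8054 = true ∧
    allY (E.wth (lkp [])) l8055 = true ∧
    allY (E.wth (lkp [])) l8056 = true ∧
    allY (E.wth (lkp [])) l8057 = true ∧
    allY (E.wth (lkp [])) l8058 = true ∧
    allY (E.wth (lkp [])) l8059 = true ∧
    allY (E.wth (lkp [])) l8060 = true ∧
    allY (E.wth (lkp [])) l8061 = true :=
  ⟨by decide +kernel, by decide +kernel, by decide +kernel, by decide +kernel, by decide +kernel, by decide +kernel, by decide +kernel, by decide +kernel⟩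

def t8062 : allY (E.wth (lkp [])) l8062 = true ∧
    allY (E.wth (lkp [])) l8063 = true ∧
    allY (E.wth (lkp [])) l8064 = true ∧
    allY (E.wth (lkp [])) l8065 = true ∧
    allY (E.wth (lkp [])) l8066 = true ∧
    allY (E.wth (lkp [])) l8067 = true ∧
    allY (E.wth (lkp [])) l8068 = true ∧
    allY (E.wth (lkp [])) l8069 = true :=
  ⟨by decide +kernel, by decide +kernel, by decide +kernel, by decide +kernel, by decide +kernel, by decide +kernel, by decide +kernel, by decide +kernel⟩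

def t8070 : allY (E.wth (lkp [])) l8070 = true ∧
    allY (E.wth (lkp [])) l8071 = true ∧
    allY (E.wth (lkp [])) l8072 = true ∧
    allY (E.wth (lkp [])) l8073 = true ∧
    allY (E.wth (lkp [])) l8074 = true ∧
    allY (E.wth (lkp [])) l8075 = true ∧
    allY (E.wth (lkp [])) l8076 = true ∧
    allY (E.wth (lkp [])) l8077 = true :=
  ⟨by decide +kernel, by decide +kernel, by decide +kernel, by decide +kernel, by decide +kernel, by decide +kernel, by decide +kernel, by decide +kernel⟩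

def t8078 : allY (E.wth (lkp [])) l8078 = true ∧
    allY (E.wth (lkp [])) l8079 = true ∧
    allY (E.wth (lkp [])) l8080 = true ∧
    allY (E.wth (lkp [])) l8081 = true ∧
    allY (E.wth (lkp [])) l8082 = true ∧
    allY (E.wth (lkp [])) l8083 = true ∧
    allY (E.wth (lkp [])) l8084 = true ∧
    allY (E.wth (lkp [])) l8085 = true :=
  ⟨by decide +kernel, by decide +kernel, by decide +kernel, by decide +kernel, by decide +kernel, by decide +kernel, by decide +kernel, by decide +kernel⟩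

def t8086 : allY (E.wth (lkp [])) l8086 = true ∧
    allY (E.wth (lkp [])) l8087 = true ∧
    allY (E.wth (lkp [])) l8088 = true ∧
    allY (E.wth (lkp [])) l8089 = true ∧
    allY (E.wth (lkp [])) l8090 = true ∧
    allY (E.wth (lkp [])) l8091 = true ∧
    allY (E.wth (lkp [])) l8092 = true ∧
    allY (E.wth (lkp [])) l8093 = true :=
  ⟨by decide +kernel, by decide +kernel, by decide +kernel, by decide +kernel, by decide +kernel, by decide +kernel, by decide +kernel, by decide +kernel⟩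

def t8094 : allY (E.wth (lkp [])) l8094 = true ∧
    allY (E.wth (lkp [])) l8095 = true ∧
    allY (E.wth (lkp [])) l8096 = true ∧
    allY (E.wth (lkp [])) l8097 = true ∧
    allY (E.wth (lkp [])) l8098 = true ∧
    allY (E.wth (lkp [])) l8099 = true ∧
    allY (E.wth (lkp [])) l8100 = true ∧
    allY (E.wth (lkp [])) l8101 = true :=
  ⟨by decide +kernel, by decide +kernel, by decide +kernel, by decide +kernel, by decide +kernel, by decide +kernel, by decide +kernel, by decide +kernel⟩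

def t8102 : allY (E.wth (lkp [])) l8102 = true ∧
    allY (E.wth (lkp [])) l8103 = true ∧
    allY (E.wth (lkp [])) l8104 = true ∧
    allY (E.wth (lkp [])) l8105 = true ∧
    allY (E.wth (lkp [])) l8106 = true ∧
    allY (E.wth (lkp [])) l8107 = true ∧
    allY (E.wth (lkp [])) l8108 = true ∧
    allY (E.wth (lkp [])) l8109 = true :=
  ⟨by decide +kernel, by decide +kernel, by decide +kernel, by decide +kernel, by decide +kernel, by decide +kernel, by decide +kernel, by decide +kernel⟩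

def t8110 : allY (E.wth (lkp [])) l8110 = true ∧
    allY (E.wth (lkp [])) l8111 = true ∧
    allY (E.wth (lkp [])) l8112 = true ∧
    allY (E.wth (lkp [])) l8113 = true ∧
    allY (E.wth (lkp [])) l8114 = true ∧
    allY (E.wth (lkp [])) l8115 = true ∧
    allY (E.wth (lkp [])) l8116 = true ∧
    allY (E.wth (lkp [])) l8117 = true :=
  ⟨by decide +kernel, by decide +kernel, by decide +kernel, by decide +kernel, by decide +kernel, by decide +kernel, by decide +kernel, by decide +kernel⟩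

def t8118 : allY (E.wth (lkp [])) l8118 = true ∧
    allY (E.wth (lkp [])) l8119 = true ∧
    allY (E.wth (lkp [])) l8120 = true ∧
    allY (E.wth (lkp [])) l8121 = true ∧
    allY (E.wth (lkp [])) l8122 = true ∧
    allY (E.wth (lkp [])) l8123 = true ∧
    allY (E.wth (lkp [])) l8124 = true ∧
    allY (E.wth (lkp [])) l8125 = true :=
  ⟨by decide +kernel, by decide +kernel, by decide +kernel, by decide +kernel, by decide +kernel, by decide +kernel, by decide +kernel, by decide +kernel⟩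

def t8126 : allY (E.wth (lkp [])) l8126 = true ∧
    allY (E.wth (lkp [])) l8127 = true ∧
    allY (E.wth (lkp [])) l8128 = true ∧
    allY (E.wth (lkp [])) l8129 = true ∧
    allY (E.wth (lkp [])) l8130 = true ∧
    allY (E.wth (lkp [])) l8131 = true ∧
    allY (E.wth (lkp [])) l8132 = true ∧
    allY (E.wth (lkp [])) l8133 = true :=
  ⟨by decide +kernel, by decide +kernel, by decide +kernel, by decide +kernel, by decide +kernel, by decide +kernel, by decide +kernel, by decide +kernel⟩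

def t8134 : allY (E.wth (lkp [])) l8134 = true ∧
    allY (E.wth (lkp [])) l8135 = true ∧
    allY (E.wth (lkp [])) l8136 = true ∧
    allY (E.wth (lkp [])) l8137 = true ∧
    allY (E.wth (lkp [])) l8138 = true ∧
    allY (E.wth (lkp [])) l8139 = true ∧
    allY (E.wth (lkp [])) l8140 = true ∧
    allY (E.wth (lkp [])) l8141 = true :=
  ⟨by decide +kernel, by decide +kernel, by decide +kernel, by decide +kernel, by decide +kernel, by decide +kernel, by decide +kernel, by decide +kernel⟩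

def t8142 : allY (E.wth (lkp [])) l8142 = true ∧
    allY (E.wth (lkp [])) l8143 = true ∧
    allY (E.wth (lkp [])) l8144 = true ∧
    allY (E.wth (lkp [])) l8145 = true ∧
    allY (E.wth (lkp [])) l8146 = true ∧
    allY (E.wth (lkp [])) l8147 = true ∧
    allY (E.wth (lkp [])) l8148 = true ∧
    allY (E.wth (lkp [])) l8149 = true :=
  ⟨by decide +kernel, by decide +kernel, by decide +kernel, by decide +kernel, by decide +kernel, by decide +kernel, by decide +kernel, by decide +kernel⟩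

def t8150 : allY (E.wth (lkp [])) l8150 = true ∧
    allY (E.wth (lkp [])) l8151 = true ∧
    allY (E.wth (lkp [])) l8152 = true ∧
    allY (E.wth (lkp [])) l8153 = true ∧
    allY (E.wth (lkp [])) l8154 = true ∧
    allY (E.wth (lkp [])) l8155 = true ∧
    allY (E.wth (lkp [])) l8156 = true ∧
    allY (E.wth (lkp [])) l8157 = true :=
  ⟨by decide +kernel, by decide +kernel, by decide +kernel, by decide +kernel, by decide +kernel, by decide +kernel, by decide +kernel, by decide +kernel⟩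

def t8158 : allY (E.wth (lkp [])) l8158 = true ∧
    allY (E.wth (lkp [])) l8159 = true ∧
    allY (E.wth (lkp [])) l8160 = true ∧
    allY (E.wth (lkp [])) l8161 = true ∧
    allY (E.wth (lkp [])) l8162 = true ∧
    allY (E.wth (lkp [])) l8163 = true ∧
    allY (E.wth (lkp [])) l8164 = true ∧
    allY (E.wth (lkp [])) l8165 = true :=
  ⟨by decide +kernel, by decide +kernel, by decide +kernel, by decide +kernel, by decide +kernel, by decide +kernel, by decide +kernel, by decide +kernel⟩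

def t8166 : allY (E.wth (lkp [])) l8166 = true ∧
    allY (E.wth (lkp [])) l8167 = true ∧
    allY (E.wth (lkp [])) l8168 = true ∧
    allY (E.wth (lkp [])) l8169 = true ∧
    allY (E.wth (lkp [])) l8170 = true ∧
    allY (E.wth (lkp [])) l8171 = true ∧
    allY (E.wth (lkp [])) l8172 = true ∧
    allY (E.wth (lkp [])) l8173 = true :=
  ⟨by decide +kernel, by decide +kernel, by decide +kernel, by decide +kernel, by decide +kernel, by decide +kernel, by decide +kernel, by decide +kernel⟩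

def t8174 : allY (E.wth (lkp [])) l8174 = true ∧
    allY (E.wth (lkp [])) l8175 = true ∧
    allY (E.wth (lkp [])) l8176 = true ∧
    allY (E.wth (lkp [])) l8177 = true ∧
    allY (E.wth (lkp [])) l8178 = true ∧
    allY (E.wth (lkp [])) l8179 = true ∧
    allY (E.wth (lkp [])) l8180 = true ∧
    allY (E.wth (lkp [])) l8181 = true :=
  ⟨by decide +kernel, by decide +kernel, by decide +kernel, by decide +kernel, by decide +kernel, by decide +kernel, by decide +kernel, by decide +kernel⟩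

def t8182 : allY (E.wth (lkp [])) l8182 = true ∧
    allY (E.wth (lkp [])) l8183 = true ∧
    allY (E.wth (lkp [])) l8184 = true ∧
    allY (E.wth (lkp [])) l8185 = true ∧
    allY (E.wth (lkp [])) l8186 = true ∧
    allY (E.wth (lkp [])) l8187 = true ∧
    allY (E.wth (lkp [])) l8188 = true ∧
    allY (E.wth (lkp [])) l8189 = true :=
  ⟨by decide +kernel, by decide +kernel, by decide +kernel, by decide +kernel, by decide +kernel, by decide +kernel, by decide +kernel, by decide +kernel⟩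

def t8190 : allY (E.wth (lkp [])) l8190 = true ∧
    allY (E.wth (lkp [])) l8191 = true ∧
    allY (E.wth (lkp [])) l8192 = true ∧
    allY (E.wth (lkp [])) l8193 = true ∧
    allY (E.wth (lkp [])) l8194 = true ∧
    allY (E.wth (lkp [])) l8195 = true ∧
    allY (E.wth (lkp [])) l8196 = true ∧
    allY (E.wth (lkp [])) l8197 = true :=
  ⟨by decide +kernel, by decide +kernel, by decide +kernel, by decide +kernel, by decide +kernel, by decide +kernel, by decide +kernel, by decide +kernel⟩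

def t8198 : allY (E.wth (lkp [])) l8198 = true ∧
    allY (E.wth (lkp [])) l8199 = true ∧
    allY (E.wth (lkp [])) l8200 = true ∧
    allY (E.wth (lkp [])) l8201 = true ∧
    allY (E.wth (lkp [])) l8202 = true ∧
    allY (E.wth (lkp [])) l8203 = true ∧
    allY (E.wth (lkp [])) l8204 = true ∧
    allY (E.wth (lkp [])) l8205 = true :=
  ⟨by decide +kernel, by decide +kernel, by decide +kernel, by decide +kernel, by decide +kernel, by decide +kernel, by decide +kernel, by decide +kernel⟩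

def t8206 : allY (E.wth (lkp [])) l8206 = true ∧
    allY (E.wth (lkp [])) l8207 = true ∧
    allY (E.wth (lkp [])) l8208 = true ∧
    allY (E.wth (lkp [])) l8209 = true ∧
    allY (E.wth (lkp [])) l8210 = true ∧
    allY (E.wth (lkp [])) l8211 = true ∧
    allY (E.wth (lkp [])) l8212 = true ∧
    allY (E.wth (lkp [])) l8213 = true :=
  ⟨by decide +kernel, by decide +kernel, by decide +kernel, by decide +kernel, by decide +kernel, by decide +kernel, by decide +kernel, by decide +kernel⟩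

def t8214 : allY (E.wth (lkp [])) l8214 = true ∧
    allY (E.wth (lkp [])) l8215 = true ∧
    allY (E.wth (lkp [])) l8216 = true ∧
    allY (E.wth (lkp [])) l8217 = true ∧
    allY (E.wth (lkp [])) l8218 = true ∧
    allY (E.wth (lkp [])) l8219 = true ∧
    allY (E.wth (lkp [])) l8220 = true ∧
    allY (E.wth (lkp [])) l8221 = true :=
  ⟨by decide +kernel, by decide +kernel, by decide +kernel, by decide +kernel, by decide +kernel, by decide +kernel, by decide +kernel, by decide +kernel⟩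

def t8222 : allY (E.wth (lkp [])) l8222 = true ∧
    allY (E.wth (lkp [])) l8223 = true ∧
    allY (E.wth (lkp [])) l8224 = true ∧
    allY (E.wth (lkp [])) l8225 = true ∧
    allY (E.wth (lkp [])) l8226 = true ∧
    allY (E.wth (lkp [])) l8227 = true ∧
    allY (E.wth (lkp [])) l8228 = true ∧
    allY (E.wth (lkp [])) l8229 = true :=
  ⟨by decide +kernel, by decide +kernel, by decide +kernel, by decide +kernel, by decide +kernel, by decide +kernel, by decide +kernel, by decide +kernel⟩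

def t8230 : allY (E.wth (lkp [])) l8230 = true ∧
    allY (E.wth (lkp [])) l8231 = true ∧
    allY (E.wth (lkp [])) l8232 = true ∧
    allY (E.wth (lkp [])) l8233 = true ∧
    allY (E.wth (lkp [])) l8234 = true ∧
    allY (E.wth (lkp [])) l8235 = true ∧
    allY (E.wth (lkp [])) l8236 = true ∧
    allY (E.wth (lkp [])) l8237 = true :=
  ⟨by decide +kernel, by decide +kernel, by decide +kernel, by decide +kernel, by decide +kernel, by decide +kernel, by decide +kernel, by decide +kernel⟩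

def t8238 : allY (E.wth (lkp [])) l8238 = true ∧
    allY (E.wth (lkp [])) l8239 = true ∧
    allY (E.wth (lkp [])) l8240 = true ∧
    allY (E.wth (lkp [])) l8241 = true ∧
    allY (E.wth (lkp [])) l8242 = true ∧
    allY (E.wth (lkp [])) l8243 = true ∧
    allY (E.wth (lkp [])) l8244 = true ∧
    allY (E.wth (lkp [])) l8245 = true :=
  ⟨by decide +kernel, by decide +kernel, by decide +kernel, by decide +kernel, by decide +kernel, by decide +kernel, by decide +kernel, by decide +kernel⟩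

def t8246 : allY (E.wth (lkp [])) l8246 = true ∧
    allY (E.wth (lkp [])) l8247 = true ∧
    allY (E.wth (lkp [])) l8248 = true ∧
    allY (E.wth (lkp [])) l8249 = true ∧
    allY (E.wth (lkp [])) l8250 = true ∧
    allY (E.wth (lkp [])) l8251 = true ∧
    allY (E.wth (lkp [])) l8252 = true ∧
    allY (E.wth (lkp [])) l8253 = true :=
  ⟨by decide +kernel, by decide +kernel, by decide +kernel, by decide +kernel, by decide +kernel, by decide +kernel, by decide +kernel, by decide +kernel⟩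

def t8254 : allY (E.wth (lkp [])) l8254 = true ∧
    allY (E.wth (lkp [])) l8255 = true ∧
    allY (E.wth (lkp [])) l8256 = true ∧
    allY (E.wth (lkp [])) l8257 = true ∧
    allY (E.wth (lkp [])) l8258 = true ∧
    allY (E.wth (lkp [])) l8259 = true ∧
    allY (E.wth (lkp [])) l8260 = true ∧
    allY (E.wth (lkp [])) l8261 = true :=
  ⟨by decide +kernel, by decide +kernel, by decide +kernel, by decide +kernel, by decide +kernel, by decide +kernel, by decide +kernel, by decide +kernel⟩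

def t8262 : allY (E.wth (lkp [])) l8262 = true ∧
    allY (E.wth (lkp [])) l8263 = true ∧
    allY (E.wth (lkp [])) l8264 = true ∧
    allY (E.wth (lkp [])) l8265 = true ∧
    allY (E.wth (lkp [])) l8266 = true ∧
    allY (E.wth (lkp [])) l8267 = true ∧
    allY (E.wth (lkp [])) l8268 = true ∧
    allY (E.wth (lkp [])) l8269 = true :=
  ⟨by decide +kernel, by decide +kernel, by decide +kernel, by decide +kernel, by decide +kernel, by decide +kernel, by decide +kernel, by decide +kernel⟩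

def t8270 : allY (E.wth (lkp [])) l8270 = true ∧
    allY (E.wth (lkp [])) l8271 = true ∧
    allY (E.wth (lkp [])) l8272 = true ∧
    allY (E.wth (lkp [])) l8273 = true ∧
    allY (E.wth (lkp [])) l8274 = true ∧
    allY (E.wth (lkp [])) l8275 = true ∧
    allY (E.wth (lkp [])) l8276 = true ∧
    allY (E.wth (lkp [])) l8277 = true :=
  ⟨by decide +kernel, by decide +kernel, by decide +kernel, by decide +kernel, by decide +kernel, by decide +kernel, by decide +kernel, by decide +kernel⟩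

def t8278 : allY (E.wth (lkp [])) l8278 = true ∧
    allY (E.wth (lkp [])) l8279 = true ∧
    allY (E.wth (lkp [])) l8280 = true ∧
    allY (E.wth (lkp [])) l8281 = true ∧
    allY (E.wth (lkp [])) l8282 = true ∧
    allY (E.wth (lkp [])) l8283 = true ∧
    allY (E.wth (lkp [])) l8284 = true ∧
    allY (E.wth (lkp [])) l8285 = true :=
  ⟨by decide +kernel, by decide +kernel, by decide +kernel, by decide +kernel, by decide +kernel, by decide +kernel, by decide +kernel, by decide +kernel⟩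

def t8286 : allY (E.wth (lkp [])) l8286 = true ∧
    allY (E.wth (lkp [])) l8287 = true ∧
    allY (E.wth (lkp [])) l8288 = true ∧
    allY (E.wth (lkp [])) l8289 = true ∧
    allY (E.wth (lkp [])) l8290 = true ∧
    allY (E.wth (lkp [])) l8291 = true ∧
    allY (E.wth (lkp [])) l8292 = true ∧
    allY (E.wth (lkp [])) l8293 = true :=
  ⟨by decide +kernel, by decide +kernel, by decide +kernel, by decide +kernel, by decide +kernel, by decide +kernel, by decide +kernel, by decide +kernel⟩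

def t8294 : allY (E.wth (lkp [])) l8294 = true ∧
    allY (E.wth (lkp [])) l8295 = true ∧
    allY (E.wth (lkp [])) l8296 = true ∧
    allY (E.wth (lkp [])) l8297 = true ∧
    allY (E.wth (lkp [])) l8298 = true ∧
    allY (E.wth (lkp [])) l8299 = true ∧
    allY (E.wth (lkp [])) l8300 = true ∧
    allY (E.wth (lkp [])) l8301 = true :=
  ⟨by decide +kernel, by decide +kernel, by decide +kernel, by decide +kernel, by decide +kernel, by decide +kernel, by decide +kernel, by decide +kernel⟩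

def t8302 : allY (E.wth (lkp [])) l8302 = true ∧
    allY (E.wth (lkp [])) l8303 = true ∧
    allY (E.wth (lkp [])) l8304 = true ∧
    allY (E.wth (lkp [])) l8305 = true ∧
    allY (E.wth (lkp [])) l8306 = true ∧
    allY (E.wth (lkp [])) l8307 = true ∧
    allY (E.wth (lkp [])) l8308 = true ∧
    allY (E.wth (lkp [])) l8309 = true :=
  ⟨by decide +kernel, by decide +kernel, by decide +kernel, by decide +kernel, by decide +kernel, by decide +kernel, by decide +kernel, by decide +kernel⟩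

def t8310 : allY (E.wth (lkp [])) l8310 = true ∧
    allY (E.wth (lkp [])) l8311 = true ∧
    allY (E.wth (lkp [])) l8312 = true ∧
    allY (E.wth (lkp [])) l8313 = true ∧
    allY (E.wth (lkp [])) l8314 = true ∧
    allY (E.wth (lkp [])) l8315 = true ∧
    allY (E.wth (lkp [])) l8316 = true ∧
    allY (E.wth (lkp [])) l8317 = true :=
  ⟨by decide +kernel, by decide +kernel, by decide +kernel, by decide +kernel, by decide +kernel, by decide +kernel, by decide +kernel, by decide +kernel⟩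

def t8318 : allY (E.wth (lkp [])) l8318 = true ∧
    allY (E.wth (lkp [])) l8319 = true ∧
    allY (E.wth (lkp [])) l8320 = true ∧
    allY (E.wth (lkp [])) l8321 = true ∧
    allY (E.wth (lkp [])) l8322 = true ∧
    allY (E.wth (lkp [])) l8323 = true ∧
    allY (E.wth (lkp [])) l8324 = true ∧
    allY (E.wth (lkp [])) l8325 = true :=
  ⟨by decide +kernel, by decide +kernel, by decide +kernel, by decide +kernel, by decide +kernel, by decide +kernel, by decide +kernel, by decide +kernel⟩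

def t8326 : allY (E.wth (lkp [])) l8326 = true ∧
    allY (E.wth (lkp [])) l8327 = true ∧
    allY (E.wth (lkp [])) l8328 = true ∧
    allY (E.wth (lkp [])) l8329 = true ∧
    allY (E.wth (lkp [])) l8330 = true ∧
    allY (E.wth (lkp [])) l8331 = true ∧
    allY (E.wth (lkp [])) l8332 = true ∧
    allY (E.wth (lkp [])) l8333 = true :=
  ⟨by decide +kernel, by decide +kernel, by decide +kernel, by decide +kernel, by decide +kernel, by decide +kernel, by decide +kernel, by decide +kernel⟩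

def t8334 : allY (E.wth (lkp [])) l8334 = true ∧
    allY (E.wth (lkp [])) l8335 = true ∧
    allY (E.wth (lkp [])) l8336 = true ∧
    allY (E.wth (lkp [])) l8337 = true ∧
    allY (E.wth (lkp [])) l8338 = true ∧
    allY (E.wth (lkp [])) l8339 = true ∧
    allY (E.wth (lkp [])) l8340 = true ∧
    allY (E.wth (lkp [])) l8341 = true :=
  ⟨by decide +kernel, by decide +kernel, by decide +kernel, by decide +kernel, by decide +kernel, by decide +kernel, by decide +kernel, by decide +kernel⟩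

def t8342 : allY (E.wth (lkp [])) l8342 = true ∧
    allY (E.wth (lkp [])) l8343 = true ∧
    allY (E.wth (lkp [])) l8344 = true ∧
    allY (E.wth (lkp [])) l8345 = true ∧
    allY (E.wth (lkp [])) l8346 = true ∧
    allY (E.wth (lkp [])) l8347 = true ∧
    allY (E.wth (lkp [])) l8348 = true ∧
    allY (E.wth (lkp [])) l8349 = true :=
  ⟨by decide +kernel, by decide +kernel, by decide +kernel, by decide +kernel, by decide +kernel, by decide +kernel, by decide +kernel, by decide +kernel⟩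

def t8350 : allY (E.wth (lkp [])) l8350 = true ∧
    allY (E.wth (lkp [])) l8351 = true ∧
    allY (E.wth (lkp [])) l8352 = true ∧
    allY (E.wth (lkp [])) l8353 = true ∧
    allY (E.wth (lkp [])) l8354 = true ∧
    allY (E.wth (lkp [])) l8355 = true ∧
    allY (E.wth (lkp [])) l8356 = true ∧
    allY (E.wth (lkp [])) l8357 = true :=
  ⟨by decide +kernel, by decide +kernel, by decide +kernel, by decide +kernel, by decide +kernel, by decide +kernel, by decide +kernel, by decide +kernel⟩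

def t8358 : allY (E.wth (lkp [])) l8358 = true ∧
    allY (E.wth (lkp [])) l8359 = true ∧
    allY (E.wth (lkp [])) l8360 = true ∧
    allY (E.wth (lkp [])) l8361 = true ∧
    allY (E.wth (lkp [])) l8362 = true ∧
    allY (E.wth (lkp [])) l8363 = true ∧
    allY (E.wth (lkp [])) l8364 = true ∧
    allY (E.wth (lkp [])) l8365 = true :=
  ⟨by decide +kernel, by decide +kernel, by decide +kernel, by decide +kernel, by decide +kernel, by decide +kernel, by decide +kernel, by decide +kernel⟩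

def t8366 : allY (E.wth (lkp [])) l8366 = true ∧
    allY (E.wth (lkp [])) l8367 = true ∧
    allY (E.wth (lkp [])) l8368 = true ∧
    allY (E.wth (lkp [])) l8369 = true ∧
    allY (E.wth (lkp [])) l8370 = true ∧
    allY (E.wth (lkp [])) l8371 = true ∧
    allY (E.wth (lkp [])) l8372 = true ∧
    allY (E.wth (lkp [])) l8373 = true :=
  ⟨by decide +kernel, by decide +kernel, by decide +kernel, by decide +kernel, by decide +kernel, by decide +kernel, by decide +kernel, by decide +kernel⟩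

def t8374 : allY (E.wth (lkp [])) l8374 = true ∧
    allY (E.wth (lkp [])) l8375 = true ∧
    allY (E.wth (lkp [])) l8376 = true ∧
    allY (E.wth (lkp [])) l8377 = true ∧
    allY (E.wth (lkp [])) l8378 = true ∧
    allY (E.wth (lkp [])) l8379 = true ∧
    allY (E.wth (lkp [])) l8380 = true ∧
    allY (E.wth (lkp [])) l8381 = true :=
  ⟨by decide +kernel, by decide +kernel, by decide +kernel, by decide +kernel, by decide +kernel, by decide +kernel, by decide +kernel, by decide +kernel⟩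

def t8382 : allY (E.wth (lkp [])) l8382 = true ∧
    allY (E.wth (lkp [])) l8383 = true ∧
    allY (E.wth (lkp [])) l8384 = true ∧
    allY (E.wth (lkp [])) l8385 = true ∧
    allY (E.wth (lkp [])) l8386 = true ∧
    allY (E.wth (lkp [])) l8387 = true ∧
    allY (E.wth (lkp [])) l8388 = true :=
  ⟨by decide +kernel, by decide +kernel, by decide +kernel, by decide +kernel, by decide +kernel, by decide +kernel, by decide +kernel⟩

theorem a14 {p : Rf → Prop} (H : ∀ l, allY (E.wth (lkp [])) l = true → (lkp l).All p) :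
    b14.All p := ⟨⟨⟨⟨⟨⟨⟨⟨⟨H _ t7822.1, H _ t7822.2.1⟩, ⟨H _ t7822.2.2.1, H _ t7822.2.2.2.1⟩⟩, ⟨⟨H _ t7822.2.2.2.2.1, H _ t7822.2.2.2.2.2.1⟩, ⟨H _ t7822.2.2.2.2.2.2.1, H _ t7822.2.2.2.2.2.2.2⟩⟩⟩, ⟨⟨⟨H _ t7830.1, H _ t7830.2.1⟩, ⟨H _ t7830.2.2.1, H _ t7830.2.2.2.1⟩⟩, ⟨⟨H _ t7830.2.2.2.2.1, H _ t7830.2.2.2.2.2.1⟩, ⟨H _ t7830.2.2.2.2.2.2.1, ⟨H _ t7830.2.2.2.2.2.2.2, H _ t7838.1⟩⟩⟩⟩⟩, ⟨⟨⟨⟨H _ t7838.2.1, H _ t7838.2.2.1⟩, ⟨H _ t7838.2.2.2.1, H _ t7838.2.2.2.2.1⟩⟩, ⟨⟨H _ t7838.2.2.2.2.2.1, H _ t7838.2.2.2.2.2.2.1⟩, ⟨H _ t7838.2.2.2.2.2.2.2, ⟨H _ t7846.1, H _ t7846.2.1⟩⟩⟩⟩, ⟨⟨⟨H _ t7846.2.2.1, H _ t7846.2.2.2.1⟩, ⟨H _ t7846.2.2.2.2.1, H _ t7846.2.2.2.2.2.1⟩⟩, ⟨⟨H _ t7846.2.2.2.2.2.2.1, H _ t7846.2.2.2.2.2.2.2⟩, ⟨H _ t7854.1, ⟨H _ t7854.2.1, H _ t7854.2.2.1⟩⟩⟩⟩⟩⟩, ⟨⟨⟨⟨⟨H _ t7854.2.2.2.1, H _ t7854.2.2.2.2.1⟩, ⟨H _ t7854.2.2.2.2.2.1, H _ t7854.2.2.2.2.2.2.1⟩⟩, ⟨⟨H _ t7854.2.2.2.2.2.2.2,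 H _ t7862.1⟩, ⟨H _ t7862.2.1, H _ t7862.2.2.1⟩⟩⟩, ⟨⟨⟨H _ t7862.2.2.2.1, H _ t7862.2.2.2.2.1⟩, ⟨H _ t7862.2.2.2.2.2.1, H _ t7862.2.2.2.2.2.2.1⟩⟩, ⟨⟨H _ t7862.2.2.2.2.2.2.2, H _ t7870.1⟩, ⟨H _ t7870.2.1, ⟨H _ t7870.2.2.1, H _ t7870.2.2.2.1⟩⟩⟩⟩⟩, ⟨⟨⟨⟨H _ t7870.2.2.2.2.1, H _ t7870.2.2.2.2.2.1⟩, ⟨H _ t7870.2.2.2.2.2.2.1, H _ t7870.2.2.2.2.2.2.2⟩⟩, ⟨⟨H _ t7878.1, H _ t7878.2.1⟩, ⟨H _ t7878.2.2.1, ⟨H _ t7878.2.2.2.1, H _ t7878.2.2.2.2.1⟩⟩⟩⟩, ⟨⟨⟨H _ t7878.2.2.2.2.2.1, H _ t7878.2.2.2.2.2.2.1⟩, ⟨H _ t7878.2.2.2.2.2.2.2, H _ t7886.1⟩⟩, ⟨⟨H _ t7886.2.1, H _ t7886.2.2.1⟩, ⟨H _ t7886.2.2.2.1, ⟨H _ t7886.2.2.2.2.1, H _ t7886.2.2.2.2.2.1⟩⟩⟩⟩⟩⟩⟩, ⟨⟨⟨⟨⟨⟨H _ t7886.2.2.2.2.2.2.1, H _ t7886.2.2.2.2.2.2.2⟩, ⟨H _ t7894.1, H _ t7894.2.1⟩⟩, ⟨⟨H _ t7894.2.2.1, H _ t7894.2.2.2.1⟩, ⟨H _ t7894.2.2.2.2.1, H _ t7894.2.2.2.2.2.1⟩⟩⟩, ⟨⟨⟨H _ t7894.2.2.2.2.2.2.1, H _ t7894.2.2.2.2.2.2.2⟩, ⟨H _ t7902.1,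 H _ t7902.2.1⟩⟩, ⟨⟨H _ t7902.2.2.1, H _ t7902.2.2.2.1⟩, ⟨H _ t7902.2.2.2.2.1, ⟨H _ t7902.2.2.2.2.2.1, H _ t7902.2.2.2.2.2.2.1⟩⟩⟩⟩⟩, ⟨⟨⟨⟨H _ t7902.2.2.2.2.2.2.2, H _ t7910.1⟩, ⟨H _ t7910.2.1, H _ t7910.2.2.1⟩⟩, ⟨⟨H _ t7910.2.2.2.1, H _ t7910.2.2.2.2.1⟩, ⟨H _ t7910.2.2.2.2.2.1, ⟨H _ t7910.2.2.2.2.2.2.1, H _ t7910.2.2.2.2.2.2.2⟩⟩⟩⟩, ⟨⟨⟨H _ t7918.1, H _ t7918.2.1⟩, ⟨H _ t7918.2.2.1, H _ t7918.2.2.2.1⟩⟩, ⟨⟨H _ t7918.2.2.2.2.1, H _ t7918.2.2.2.2.2.1⟩, ⟨H _ t7918.2.2.2.2.2.2.1, ⟨H _ t7918.2.2.2.2.2.2.2, H _ t7926.1⟩⟩⟩⟩⟩⟩, ⟨⟨⟨⟨⟨H _ t7926.2.1, H _ t7926.2.2.1⟩, ⟨H _ t7926.2.2.2.1, H _ t7926.2.2.2.2.1⟩⟩, ⟨⟨H _ t7926.2.2.2.2.2.1, H _ t7926.2.2.2.2.2.2.1⟩, ⟨H _ t7926.2.2.2.2.2.2.2, ⟨H _ t7934.1, H _ t7934.2.1⟩⟩⟩⟩, ⟨⟨⟨H _ t7934.2.2.1, H _ t7934.2.2.2.1⟩, ⟨H _ t7934.2.2.2.2.1, H _ t7934.2.2.2.2.2.1⟩⟩, ⟨⟨H _ t7934.2.2.2.2.2.2.1, H _ t7934.2.2.2.2.2.2.2⟩, ⟨H _ t7942.1, ⟨H _ t7942.2.1,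 H _ t7942.2.2.1⟩⟩⟩⟩⟩, ⟨⟨⟨⟨H _ t7942.2.2.2.1, H _ t7942.2.2.2.2.1⟩, ⟨H _ t7942.2.2.2.2.2.1, H _ t7942.2.2.2.2.2.2.1⟩⟩, ⟨⟨H _ t7942.2.2.2.2.2.2.2, H _ t7950.1⟩, ⟨H _ t7950.2.1, ⟨H _ t7950.2.2.1, H _ t7950.2.2.2.1⟩⟩⟩⟩, ⟨⟨⟨H _ t7950.2.2.2.2.1, H _ t7950.2.2.2.2.2.1⟩, ⟨H _ t7950.2.2.2.2.2.2.1, H _ t7950.2.2.2.2.2.2.2⟩⟩, ⟨⟨H _ t7958.1, H _ t7958.2.1⟩, ⟨H _ t7958.2.2.1, ⟨H _ t7958.2.2.2.1, H _ t7958.2.2.2.2.1⟩⟩⟩⟩⟩⟩⟩⟩, ⟨⟨⟨⟨⟨⟨⟨H _ t7958.2.2.2.2.2.1, H _ t7958.2.2.2.2.2.2.1⟩, ⟨H _ t7958.2.2.2.2.2.2.2, H _ t7966.1⟩⟩, ⟨⟨H _ t7966.2.1, H _ t7966.2.2.1⟩, ⟨H _ t7966.2.2.2.1, H _ t7966.2.2.2.2.1⟩⟩⟩, ⟨⟨⟨H _ t7966.2.2.2.2.2.1, H _ t7966.2.2.2.2.2.2.1⟩, ⟨H _ t7966.2.2.2.2.2.2.2, H _ t7974.1⟩⟩, ⟨⟨H _ t7974.2.1, H _ t7974.2.2.1⟩, ⟨H _ t7974.2.2.2.1, ⟨H _ t7974.2.2.2.2.1, H _ t7974.2.2.2.2.2.1⟩⟩⟩⟩⟩, ⟨⟨⟨⟨H _ t7974.2.2.2.2.2.2.1, H _ t7974.2.2.2.2.2.2.2⟩, ⟨H _ t7982.1, H _ t7982.2.1⟩⟩, ⟨⟨H _ t7982.2.2.1,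 H _ t7982.2.2.2.1⟩, ⟨H _ t7982.2.2.2.2.1, ⟨H _ t7982.2.2.2.2.2.1, H _ t7982.2.2.2.2.2.2.1⟩⟩⟩⟩, ⟨⟨⟨H _ t7982.2.2.2.2.2.2.2, H _ t7990.1⟩, ⟨H _ t7990.2.1, H _ t7990.2.2.1⟩⟩, ⟨⟨H _ t7990.2.2.2.1, H _ t7990.2.2.2.2.1⟩, ⟨H _ t7990.2.2.2.2.2.1, ⟨H _ t7990.2.2.2.2.2.2.1, H _ t7990.2.2.2.2.2.2.2⟩⟩⟩⟩⟩⟩, ⟨⟨⟨⟨⟨H _ t7998.1, H _ t7998.2.1⟩, ⟨H _ t7998.2.2.1, H _ t7998.2.2.2.1⟩⟩, ⟨⟨H _ t7998.2.2.2.2.1, H _ t7998.2.2.2.2.2.1⟩, ⟨H _ t7998.2.2.2.2.2.2.1, ⟨H _ t7998.2.2.2.2.2.2.2, H _ t8006.1⟩⟩⟩⟩, ⟨⟨⟨H _ t8006.2.1, H _ t8006.2.2.1⟩, ⟨H _ t8006.2.2.2.1, H _ t8006.2.2.2.2.1⟩⟩, ⟨⟨H _ t8006.2.2.2.2.2.1, H _ t8006.2.2.2.2.2.2.1⟩, ⟨H _ t8006.2.2.2.2.2.2.2, ⟨H _ t8014.1, H _ t8014.2.1⟩⟩⟩⟩⟩, ⟨⟨⟨⟨H _ t8014.2.2.1, H _ t8014.2.2.2.1⟩, ⟨H _ t8014.2.2.2.2.1, H _ t8014.2.2.2.2.2.1⟩⟩, ⟨⟨H _ t8014.2.2.2.2.2.2.1, H _ t8014.2.2.2.2.2.2.2⟩, ⟨H _ t8022.1, ⟨H _ t8022.2.1, H _ t8022.2.2.1⟩⟩⟩⟩, ⟨⟨⟨H _ t8022.2.2.2.1,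 H _ t8022.2.2.2.2.1⟩, ⟨H _ t8022.2.2.2.2.2.1, H _ t8022.2.2.2.2.2.2.1⟩⟩, ⟨⟨H _ t8022.2.2.2.2.2.2.2, H _ t8030.1⟩, ⟨H _ t8030.2.1, ⟨H _ t8030.2.2.1, H _ t8030.2.2.2.1⟩⟩⟩⟩⟩⟩⟩, ⟨⟨⟨⟨⟨⟨H _ t8030.2.2.2.2.1, H _ t8030.2.2.2.2.2.1⟩, ⟨H _ t8030.2.2.2.2.2.2.1, H _ t8030.2.2.2.2.2.2.2⟩⟩, ⟨⟨H _ t8038.1, H _ t8038.2.1⟩, ⟨H _ t8038.2.2.1, H _ t8038.2.2.2.1⟩⟩⟩, ⟨⟨⟨H _ t8038.2.2.2.2.1, H _ t8038.2.2.2.2.2.1⟩, ⟨H _ t8038.2.2.2.2.2.2.1, H _ t8038.2.2.2.2.2.2.2⟩⟩, ⟨⟨H _ t8046.1, H _ t8046.2.1⟩, ⟨H _ t8046.2.2.1, ⟨H _ t8046.2.2.2.1, H _ t8046.2.2.2.2.1⟩⟩⟩⟩⟩, ⟨⟨⟨⟨H _ t8046.2.2.2.2.2.1, H _ t8046.2.2.2.2.2.2.1⟩, ⟨H _ t8046.2.2.2.2.2.2.2, H _ t8054.1⟩⟩, ⟨⟨H _ t8054.2.1, H _ t8054.2.2.1⟩, ⟨H _ t8054.2.2.2.1, ⟨H _ t8054.2.2.2.2.1, H _ t8054.2.2.2.2.2.1⟩⟩⟩⟩, ⟨⟨⟨H _ t8054.2.2.2.2.2.2.1, H _ t8054.2.2.2.2.2.2.2⟩, ⟨H _ t8062.1, H _ t8062.2.1⟩⟩, ⟨⟨H _ t8062.2.2.1, H _ t8062.2.2.2.1⟩, ⟨H _ t8062.2.2.2.2.1,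 ⟨H _ t8062.2.2.2.2.2.1, H _ t8062.2.2.2.2.2.2.1⟩⟩⟩⟩⟩⟩, ⟨⟨⟨⟨⟨H _ t8062.2.2.2.2.2.2.2, H _ t8070.1⟩, ⟨H _ t8070.2.1, H _ t8070.2.2.1⟩⟩, ⟨⟨H _ t8070.2.2.2.1, H _ t8070.2.2.2.2.1⟩, ⟨H _ t8070.2.2.2.2.2.1, ⟨H _ t8070.2.2.2.2.2.2.1, H _ t8070.2.2.2.2.2.2.2⟩⟩⟩⟩, ⟨⟨⟨H _ t8078.1, H _ t8078.2.1⟩, ⟨H _ t8078.2.2.1, H _ t8078.2.2.2.1⟩⟩, ⟨⟨H _ t8078.2.2.2.2.1, H _ t8078.2.2.2.2.2.1⟩, ⟨H _ t8078.2.2.2.2.2.2.1, ⟨H _ t8078.2.2.2.2.2.2.2, H _ t8086.1⟩⟩⟩⟩⟩, ⟨⟨⟨⟨H _ t8086.2.1, H _ t8086.2.2.1⟩, ⟨H _ t8086.2.2.2.1, H _ t8086.2.2.2.2.1⟩⟩, ⟨⟨H _ t8086.2.2.2.2.2.1, H _ t8086.2.2.2.2.2.2.1⟩, ⟨H _ t8086.2.2.2.2.2.2.2, ⟨H _ t8094.1, H _ t8094.2.1⟩⟩⟩⟩, ⟨⟨⟨H _ t8094.2.2.1, H _ t8094.2.2.2.1⟩, ⟨H _ t8094.2.2.2.2.1, H _ t8094.2.2.2.2.2.1⟩⟩, ⟨⟨H _ t8094.2.2.2.2.2.2.1, H _ t8094.2.2.2.2.2.2.2⟩, ⟨H _ t8102.1, ⟨H _ t8102.2.1, H _ t8102.2.2.1⟩⟩⟩⟩⟩⟩⟩⟩⟩, ⟨⟨⟨⟨⟨⟨⟨⟨H _ t8102.2.2.2.1, H _ t8102.2.2.2.2.1⟩, ⟨H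 _ t8102.2.2.2.2.2.1, H _ t8102.2.2.2.2.2.2.1⟩⟩, ⟨⟨H _ t8102.2.2.2.2.2.2.2, H _ t8110.1⟩, ⟨H _ t8110.2.1, H _ t8110.2.2.1⟩⟩⟩, ⟨⟨⟨H _ t8110.2.2.2.1, H _ t8110.2.2.2.2.1⟩, ⟨H _ t8110.2.2.2.2.2.1, H _ t8110.2.2.2.2.2.2.1⟩⟩, ⟨⟨H _ t8110.2.2.2.2.2.2.2, H _ t8118.1⟩, ⟨H _ t8118.2.1, ⟨H _ t8118.2.2.1, H _ t8118.2.2.2.1⟩⟩⟩⟩⟩, ⟨⟨⟨⟨H _ t8118.2.2.2.2.1, H _ t8118.2.2.2.2.2.1⟩, ⟨H _ t8118.2.2.2.2.2.2.1, H _ t8118.2.2.2.2.2.2.2⟩⟩, ⟨⟨H _ t8126.1, H _ t8126.2.1⟩, ⟨H _ t8126.2.2.1, ⟨H _ t8126.2.2.2.1, H _ t8126.2.2.2.2.1⟩⟩⟩⟩, ⟨⟨⟨H _ t8126.2.2.2.2.2.1, H _ t8126.2.2.2.2.2.2.1⟩, ⟨H _ t8126.2.2.2.2.2.2.2, H _ t8134.1⟩⟩, ⟨⟨H _ t8134.2.1, H _ t8134.2.2.1⟩, ⟨H _ t8134.2.2.2.1, ⟨H _ t8134.2.2.2.2.1, H _ t8134.2.2.2.2.2.1⟩⟩⟩⟩⟩⟩, ⟨⟨⟨⟨⟨H _ t8134.2.2.2.2.2.2.1, H _ t8134.2.2.2.2.2.2.2⟩, ⟨H _ t8142.1, H _ t8142.2.1⟩⟩, ⟨⟨H _ t8142.2.2.1, H _ t8142.2.2.2.1⟩, ⟨H _ t8142.2.2.2.2.1, ⟨H _ t8142.2.2.2.2.2.1,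 H _ t8142.2.2.2.2.2.2.1⟩⟩⟩⟩, ⟨⟨⟨H _ t8142.2.2.2.2.2.2.2, H _ t8150.1⟩, ⟨H _ t8150.2.1, H _ t8150.2.2.1⟩⟩, ⟨⟨H _ t8150.2.2.2.1, H _ t8150.2.2.2.2.1⟩, ⟨H _ t8150.2.2.2.2.2.1, ⟨H _ t8150.2.2.2.2.2.2.1, H _ t8150.2.2.2.2.2.2.2⟩⟩⟩⟩⟩, ⟨⟨⟨⟨H _ t8158.1, H _ t8158.2.1⟩, ⟨H _ t8158.2.2.1, H _ t8158.2.2.2.1⟩⟩, ⟨⟨H _ t8158.2.2.2.2.1, H _ t8158.2.2.2.2.2.1⟩, ⟨H _ t8158.2.2.2.2.2.2.1, ⟨H _ t8158.2.2.2.2.2.2.2, H _ t8166.1⟩⟩⟩⟩, ⟨⟨⟨H _ t8166.2.1, H _ t8166.2.2.1⟩, ⟨H _ t8166.2.2.2.1, H _ t8166.2.2.2.2.1⟩⟩, ⟨⟨H _ t8166.2.2.2.2.2.1, H _ t8166.2.2.2.2.2.2.1⟩, ⟨H _ t8166.2.2.2.2.2.2.2, ⟨H _ t8174.1, H _ t8174.2.1⟩⟩⟩⟩⟩⟩⟩, ⟨⟨⟨⟨⟨⟨H _ t8174.2.2.1, H _ t8174.2.2.2.1⟩, ⟨H _ t8174.2.2.2.2.1, H _ t8174.2.2.2.2.2.1⟩⟩, ⟨⟨H _ t8174.2.2.2.2.2.2.1, H _ t8174.2.2.2.2.2.2.2⟩, ⟨H _ t8182.1, H _ t8182.2.1⟩⟩⟩, ⟨⟨⟨H _ t8182.2.2.1, H _ t8182.2.2.2.1⟩, ⟨H _ t8182.2.2.2.2.1, H _ t8182.2.2.2.2.2.1⟩⟩, ⟨⟨H _ t8182.2.2.2.2.2.2.1,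 H _ t8182.2.2.2.2.2.2.2⟩, ⟨H _ t8190.1, ⟨H _ t8190.2.1, H _ t8190.2.2.1⟩⟩⟩⟩⟩, ⟨⟨⟨⟨H _ t8190.2.2.2.1, H _ t8190.2.2.2.2.1⟩, ⟨H _ t8190.2.2.2.2.2.1, H _ t8190.2.2.2.2.2.2.1⟩⟩, ⟨⟨H _ t8190.2.2.2.2.2.2.2, H _ t8198.1⟩, ⟨H _ t8198.2.1, ⟨H _ t8198.2.2.1, H _ t8198.2.2.2.1⟩⟩⟩⟩, ⟨⟨⟨H _ t8198.2.2.2.2.1, H _ t8198.2.2.2.2.2.1⟩, ⟨H _ t8198.2.2.2.2.2.2.1, H _ t8198.2.2.2.2.2.2.2⟩⟩, ⟨⟨H _ t8206.1, H _ t8206.2.1⟩, ⟨H _ t8206.2.2.1, ⟨H _ t8206.2.2.2.1, H _ t8206.2.2.2.2.1⟩⟩⟩⟩⟩⟩, ⟨⟨⟨⟨⟨H _ t8206.2.2.2.2.2.1, H _ t8206.2.2.2.2.2.2.1⟩, ⟨H _ t8206.2.2.2.2.2.2.2, H _ t8214.1⟩⟩, ⟨⟨H _ t8214.2.1, H _ t8214.2.2.1⟩, ⟨H _ t8214.2.2.2.1, ⟨H _ t8214.2.2.2.2.1, H _ t8214.2.2.2.2.2.1⟩⟩⟩⟩, ⟨⟨⟨H _ t8214.2.2.2.2.2.2.1, H _ t8214.2.2.2.2.2.2.2⟩, ⟨H _ t8222.1, H _ t8222.2.1⟩⟩, ⟨⟨H _ t8222.2.2.1, H _ t8222.2.2.2.1⟩, ⟨H _ t8222.2.2.2.2.1, ⟨H _ t8222.2.2.2.2.2.1, H _ t8222.2.2.2.2.2.2.1⟩⟩⟩⟩⟩, ⟨⟨⟨⟨H _ t8222.2.2.2.2.2.2.2,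 H _ t8230.1⟩, ⟨H _ t8230.2.1, H _ t8230.2.2.1⟩⟩, ⟨⟨H _ t8230.2.2.2.1, H _ t8230.2.2.2.2.1⟩, ⟨H _ t8230.2.2.2.2.2.1, ⟨H _ t8230.2.2.2.2.2.2.1, H _ t8230.2.2.2.2.2.2.2⟩⟩⟩⟩, ⟨⟨⟨H _ t8238.1, H _ t8238.2.1⟩, ⟨H _ t8238.2.2.1, H _ t8238.2.2.2.1⟩⟩, ⟨⟨H _ t8238.2.2.2.2.1, H _ t8238.2.2.2.2.2.1⟩, ⟨H _ t8238.2.2.2.2.2.2.1, ⟨H _ t8238.2.2.2.2.2.2.2, H _ t8246.1⟩⟩⟩⟩⟩⟩⟩⟩, ⟨⟨⟨⟨⟨⟨⟨H _ t8246.2.1, H _ t8246.2.2.1⟩, ⟨H _ t8246.2.2.2.1, H _ t8246.2.2.2.2.1⟩⟩, ⟨⟨H _ t8246.2.2.2.2.2.1, H _ t8246.2.2.2.2.2.2.1⟩, ⟨H _ t8246.2.2.2.2.2.2.2, H _ t8254.1⟩⟩⟩, ⟨⟨⟨H _ t8254.2.1, H _ t8254.2.2.1⟩, ⟨H _ t8254.2.2.2.1, H _ t8254.2.2.2.2.1⟩⟩, ⟨⟨H _ t8254.2.2.2.2.2.1, H _ t8254.2.2.2.2.2.2.1⟩, ⟨H _ t8254.2.2.2.2.2.2.2, ⟨H _ t8262.1, H _ t8262.2.1⟩⟩⟩⟩⟩, ⟨⟨⟨⟨H _ t8262.2.2.1, H _ t8262.2.2.2.1⟩, ⟨H _ t8262.2.2.2.2.1, H _ t8262.2.2.2.2.2.1⟩⟩, ⟨⟨H _ t8262.2.2.2.2.2.2.1, H _ t8262.2.2.2.2.2.2.2⟩, ⟨H _ t8270.1,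 ⟨H _ t8270.2.1, H _ t8270.2.2.1⟩⟩⟩⟩, ⟨⟨⟨H _ t8270.2.2.2.1, H _ t8270.2.2.2.2.1⟩, ⟨H _ t8270.2.2.2.2.2.1, H _ t8270.2.2.2.2.2.2.1⟩⟩, ⟨⟨H _ t8270.2.2.2.2.2.2.2, H _ t8278.1⟩, ⟨H _ t8278.2.1, ⟨H _ t8278.2.2.1, H _ t8278.2.2.2.1⟩⟩⟩⟩⟩⟩, ⟨⟨⟨⟨⟨H _ t8278.2.2.2.2.1, H _ t8278.2.2.2.2.2.1⟩, ⟨H _ t8278.2.2.2.2.2.2.1, H _ t8278.2.2.2.2.2.2.2⟩⟩, ⟨⟨H _ t8286.1, H _ t8286.2.1⟩, ⟨H _ t8286.2.2.1, ⟨H _ t8286.2.2.2.1, H _ t8286.2.2.2.2.1⟩⟩⟩⟩, ⟨⟨⟨H _ t8286.2.2.2.2.2.1, H _ t8286.2.2.2.2.2.2.1⟩, ⟨H _ t8286.2.2.2.2.2.2.2, H _ t8294.1⟩⟩, ⟨⟨H _ t8294.2.1, H _ t8294.2.2.1⟩, ⟨H _ t8294.2.2.2.1, ⟨H _ t8294.2.2.2.2.1, H _ t8294.2.2.2.2.2.1⟩⟩⟩⟩⟩, ⟨⟨⟨⟨H _ t8294.2.2.2.2.2.2.1, H _ t8294.2.2.2.2.2.2.2⟩, ⟨H _ t8302.1, H _ t8302.2.1⟩⟩, ⟨⟨H _ t8302.2.2.1, H _ t8302.2.2.2.1⟩, ⟨H _ t8302.2.2.2.2.1, ⟨H _ t8302.2.2.2.2.2.1, H _ t8302.2.2.2.2.2.2.1⟩⟩⟩⟩, ⟨⟨⟨H _ t8302.2.2.2.2.2.2.2, H _ t8310.1⟩, ⟨H _ t8310.2.1,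 H _ t8310.2.2.1⟩⟩, ⟨⟨H _ t8310.2.2.2.1, H _ t8310.2.2.2.2.1⟩, ⟨H _ t8310.2.2.2.2.2.1, ⟨H _ t8310.2.2.2.2.2.2.1, H _ t8310.2.2.2.2.2.2.2⟩⟩⟩⟩⟩⟩⟩, ⟨⟨⟨⟨⟨⟨H _ t8318.1, H _ t8318.2.1⟩, ⟨H _ t8318.2.2.1, H _ t8318.2.2.2.1⟩⟩, ⟨⟨H _ t8318.2.2.2.2.1, H _ t8318.2.2.2.2.2.1⟩, ⟨H _ t8318.2.2.2.2.2.2.1, H _ t8318.2.2.2.2.2.2.2⟩⟩⟩, ⟨⟨⟨H _ t8326.1, H _ t8326.2.1⟩, ⟨H _ t8326.2.2.1, H _ t8326.2.2.2.1⟩⟩, ⟨⟨H _ t8326.2.2.2.2.1, H _ t8326.2.2.2.2.2.1⟩, ⟨H _ t8326.2.2.2.2.2.2.1, ⟨H _ t8326.2.2.2.2.2.2.2, H _ t8334.1⟩⟩⟩⟩⟩, ⟨⟨⟨⟨H _ t8334.2.1, H _ t8334.2.2.1⟩, ⟨H _ t8334.2.2.2.1, H _ t8334.2.2.2.2.1⟩⟩, ⟨⟨H _ t8334.2.2.2.2.2.1, H _ t8334.2.2.2.2.2.2.1⟩, ⟨H _ t8334.2.2.2.2.2.2.2, ⟨H _ t8342.1, H _ t8342.2.1⟩⟩⟩⟩, ⟨⟨⟨H _ t8342.2.2.1, H _ t8342.2.2.2.1⟩, ⟨H _ t8342.2.2.2.2.1, H _ t8342.2.2.2.2.2.1⟩⟩, ⟨⟨H _ t8342.2.2.2.2.2.2.1, H _ t8342.2.2.2.2.2.2.2⟩, ⟨H _ t8350.1, ⟨H _ t8350.2.1, H _ t8350.2.2.1⟩⟩⟩⟩⟩⟩,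 ⟨⟨⟨⟨⟨H _ t8350.2.2.2.1, H _ t8350.2.2.2.2.1⟩, ⟨H _ t8350.2.2.2.2.2.1, H _ t8350.2.2.2.2.2.2.1⟩⟩, ⟨⟨H _ t8350.2.2.2.2.2.2.2, H _ t8358.1⟩, ⟨H _ t8358.2.1, ⟨H _ t8358.2.2.1, H _ t8358.2.2.2.1⟩⟩⟩⟩, ⟨⟨⟨H _ t8358.2.2.2.2.1, H _ t8358.2.2.2.2.2.1⟩, ⟨H _ t8358.2.2.2.2.2.2.1, H _ t8358.2.2.2.2.2.2.2⟩⟩, ⟨⟨H _ t8366.1, H _ t8366.2.1⟩, ⟨H _ t8366.2.2.1, ⟨H _ t8366.2.2.2.1, H _ t8366.2.2.2.2.1⟩⟩⟩⟩⟩, ⟨⟨⟨⟨H _ t8366.2.2.2.2.2.1, H _ t8366.2.2.2.2.2.2.1⟩, ⟨H _ t8366.2.2.2.2.2.2.2, H _ t8374.1⟩⟩, ⟨⟨H _ t8374.2.1, H _ t8374.2.2.1⟩, ⟨H _ t8374.2.2.2.1, ⟨H _ t8374.2.2.2.2.1, H _ t8374.2.2.2.2.2.1⟩⟩⟩⟩, ⟨⟨⟨H _ t8374.2.2.2.2.2.2.1, H _ t8374.2.2.2.2.2.2.2⟩, ⟨H _ t8382.1, H _ t8382.2.1⟩⟩, ⟨⟨H _ t8382.2.2.1, H _ t8382.2.2.2.1⟩, ⟨H _ t8382.2.2.2.2.1, ⟨H _ t8382.2.2.2.2.2.1, H _ t8382.2.2.2.2.2.2⟩⟩⟩⟩⟩⟩⟩⟩⟩⟩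

end Pool.Agent.MP_c853c5_nt.X.C4950
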