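import Pool.Agent.MP_c853c5_nt.X.C4950.Env
import Pool.Agent.MP_c853c5_nt.X.C4950.D3

set_option autoImplicit false
set_option maxRecDepth 8192
set_option linter.all false

namespace Pool.Agent.MP_c853c5_nt.X.C4950

open Pool.Agent.MP_c853c5_nt.X

def t8389 : allY (E.wth (lkp [])) l8389 = true ∧
    allY (E.wth (lkp [])) l8390 = true ∧
    allY (E.wth (lkp [])) l8391 = true ∧
    allY (E.wth (lkp [])) l8392 = true ∧
    allY (E.wth (lkp [])) l8393 = true ∧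
    allY (E.wth (lkp [])) l8394 = true ∧
    allY (E.wth (lkp [])) l8395 = true ∧
    allY (E.wth (lkp [])) l8396 = true :=
  ⟨by decide +kernel, by decide +kernel, by decide +kernel, by decide +kernel, by decide +kernel, by decide +kernel, by decide +kernel, by decide +kernel⟩

def t8397 : allY (E.wth (lkp [])) l8397 = true ∧
    allY (E.wth (lkp [])) l8398 = true ∧
    allY (E.wth (lkp [])) l8399 = true ∧
    allY (E.wth (lkp [])) l8400 = true ∧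
    allY (E.wth (lkp [])) l8401 = true ∧
    allY (E.wth (lkp [])) l8402 = true ∧
    allY (E.wth (lkp [])) l8403 = true ∧
    allY (E.wth (lkp [])) l8404 = true :=
  ⟨by decide +kernel, by decide +kernel, by decide +kernel, by decide +kernel, by decide +kernel, by decide +kernel, by decide +kernel, by decide +kernel⟩

def t8405 : allY (E.wth (lkp [])) l8405 = true ∧
    allY (E.wth (lkp [])) l8406 = true ∧
    allY (E.wth (lkp [])) l8407 = true ∧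
    allY (E.wth (lkp [])) l8408 = true ∧
    allY (E.wth (lkp [])) l8409 = true ∧
    allY (E.wth (lkp [])) l8410 = true ∧
    allY (E.wth (lkp [])) l8411 = true ∧
    allY (E.wth (lkp [])) l8412 = true :=
  ⟨by decide +kernel, by decide +kernel, by decide +kernel, by decide +kernel, by decide +kernel, by decide +kernel, by decide +kernel, by decide +kernel⟩

def t8413 : allY (E.wth (lkp [])) l8413 = true ∧
    allY (E.wth (lkp [])) l8414 = true ∧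
    allY (E.wth (lkp [])) l8415 = true ∧
    allY (E.wth (lkp [])) l8416 = true ∧
    allY (E.wth (lkp [])) l8417 = true ∧
    allY (E.wth (lkp [])) l8418 = true ∧
    allY (E.wth (lkp [])) l8419 = true ∧
    allY (E.wth (lkp [])) l8420 = true :=
  ⟨by decide +kernel, by decide +kernel, by decide +kernel, by decide +kernel, by decide +kernel, by decide +kernel, by decide +kernel, by decide +kernel⟩

def t8421 : allY (E.wth (lkp [])) l8421 = true ∧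
    allY (E.wth (lkp [])) l8422 = true ∧
    allY (E.wth (lkp [])) l8423 = true ∧
    allY (E.wth (lkp [])) l8424 = true ∧
    allY (E.wth (lkp [])) l8425 = true ∧
    allY (E.wth (lkp [])) l8426 = true ∧
    allY (E.wth (lkp [])) l8427 = true ∧
    allY (E.wth (lkp [])) l8428 = true :=
  ⟨by decide +kernel, by decide +kernel, by decide +kernel, by decide +kernel, by decide +kernel, by decide +kernel, by decide +kernel, by decide +kernel⟩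

def t8429 : allY (E.wth (lkp [])) l8429 = true ∧
    allY (E.wth (lkp [])) l8430 = true ∧
    allY (E.wth (lkp [])) l8431 = true ∧
    allY (E.wth (lkp [])) l8432 = true ∧
    allY (E.wth (lkp [])) l8433 = true ∧
    allY (E.wth (lkp [])) l8434 = true ∧
    allY (E.wth (lkp [])) l8435 = true ∧
    allY (E.wth (lkp [])) l8436 = true :=
  ⟨by decide +kernel, by decide +kernel, by decide +kernel, by decide +kernel, by decide +kernel, by decide +kernel, by decide +kernel, by decide +kernel⟩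

def t8437 : allY (E.wth (lkp [])) l8437 = true ∧
    allY (E.wth (lkp [])) l8438 = true ∧
    allY (E.wth (lkp [])) l8439 = true ∧
    allY (E.wth (lkp [])) l8440 = true ∧
    allY (E.wth (lkp [])) l8441 = true ∧
    allY (E.wth (lkp [])) l8442 = true ∧
    allY (E.wth (lkp [])) l8443 = true ∧
    allY (E.wth (lkp [])) l8444 = true :=
  ⟨by decide +kernel, by decide +kernel, by decide +kernel, by decide +kernel, by decide +kernel, by decide +kernel, by decide +kernel, by decide +kernel⟩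

def t8445 : allY (E.wth (lkp [])) l8445 = true ∧
    allY (E.wth (lkp [])) l8446 = true ∧
    allY (E.wth (lkp [])) l8447 = true ∧
    allY (E.wth (lkp [])) l8448 = true ∧
    allY (E.wth (lkp [])) l8449 = true ∧
    allY (E.wth (lkp [])) l8450 = true ∧
    allY (E.wth (lkp [])) l8451 = true ∧
    allY (E.wth (lkp [])) l8452 = true :=
  ⟨by decide +kernel, by decide +kernel, by decide +kernel, by decide +kernel, by decide +kernel, by decide +kernel, by decide +kernel, by decide +kernel⟩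

def t8453 : allY (E.wth (lkp [])) l8453 = true ∧
    allY (E.wth (lkp [])) l8454 = true ∧
    allY (E.wth (lkp [])) l8455 = true ∧
    allY (E.wth (lkp [])) l8456 = true ∧
    allY (E.wth (lkp [])) l8457 = true ∧
    allY (E.wth (lkp [])) l8458 = true ∧
    allY (E.wth (lkp [])) l8459 = true ∧
    allY (E.wth (lkp [])) l8460 = true :=
  ⟨by decide +kernel, by decide +kernel, by decide +kernel, by decide +kernel, by decide +kernel, by decide +kernel, by decide +kernel, by decide +kernel⟩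

def t8461 : allY (E.wth (lkp [])) l8461 = true ∧
    allY (E.wth (lkp [])) l8462 = true ∧
    allY (E.wth (lkp [])) l8463 = true ∧
    allY (E.wth (lkp [])) l8464 = true ∧
    allY (E.wth (lkp [])) l8465 = true ∧
    allY (E.wth (lkp [])) l8466 = true ∧
    allY (E.wth (lkp [])) l8467 = true ∧
    allY (E.wth (lkp [])) l8468 = true :=
  ⟨by decide +kernel, by decide +kernel, by decide +kernel, by decide +kernel, by decide +kernel, by decide +kernel, by decide +kernel, by decide +kernel⟩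

def t8469 : allY (E.wth (lkp [])) l8469 = true ∧
    allY (E.wth (lkp [])) l8470 = true ∧
    allY (E.wth (lkp [])) l8471 = true ∧
    allY (E.wth (lkp [])) l8472 = true ∧
    allY (E.wth (lkp [])) l8473 = true ∧
    allY (E.wth (lkp [])) l8474 = true ∧
    allY (E.wth (lkp [])) l8475 = true ∧
    allY (E.wth (lkp [])) l8476 = true :=
  ⟨by decide +kernel, by decide +kernel, by decide +kernel, by decide +kernel, by decide +kernel, by decide +kernel, by decide +kernel, by decide +kernel⟩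

def t8477 : allY (E.wth (lkp [])) l8477 = true ∧
    allY (E.wth (lkp [])) l8478 = true ∧
    allY (E.wth (lkp [])) l8479 = true ∧
    allY (E.wth (lkp [])) l8480 = true ∧
    allY (E.wth (lkp [])) l8481 = true ∧
    allY (E.wth (lkp [])) l8482 = true ∧
    allY (E.wth (lkp [])) l8483 = true ∧
    allY (E.wth (lkp [])) l8484 = true :=
  ⟨by decide +kernel, by decide +kernel, by decide +kernel, by decide +kernel, by decide +kernel, by decide +kernel, by decide +kernel, by decide +kernel⟩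

def t8485 : allY (E.wth (lkp [])) l8485 = true ∧
    allY (E.wth (lkp [])) l8486 = true ∧
    allY (E.wth (lkp [])) l8487 = true ∧
    allY (E.wth (lkp [])) l8488 = true ∧
    allY (E.wth (lkp [])) l8489 = true ∧
    allY (E.wth (lkp [])) l8490 = true ∧
    allY (E.wth (lkp [])) l8491 = true ∧
    allY (E.wth (lkp [])) l8492 = true :=
  ⟨by decide +kernel, by decide +kernel, by decide +kernel, by decide +kernel, by decide +kernel, by decide +kernel, by decide +kernel, by decide +kernel⟩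

def t8493 : allY (E.wth (lkp [])) l8493 = true ∧
    allY (E.wth (lkp [])) l8494 = true ∧
    allY (E.wth (lkp [])) l8495 = true ∧
    allY (E.wth (lkp [])) l8496 = true ∧
    allY (E.wth (lkp [])) l8497 = true ∧
    allY (E.wth (lkp [])) l8498 = true ∧
    allY (E.wth (lkp [])) l8499 = true ∧
    allY (E.wth (lkp [])) l8500 = true :=
  ⟨by decide +kernel, by decide +kernel, by decide +kernel, by decide +kernel, by decide +kernel, by decide +kernel, by decide +kernel, by decide +kernel⟩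

def t8501 : allY (E.wth (lkp [])) l8501 = true ∧
    allY (E.wth (lkp [])) l8502 = true ∧
    allY (E.wth (lkp [])) l8503 = true ∧
    allY (E.wth (lkp [])) l8504 = true ∧
    allY (E.wth (lkp [])) l8505 = true ∧
    allY (E.wth (lkp [])) l8506 = true ∧
    allY (E.wth (lkp [])) l8507 = true ∧
    allY (E.wth (lkp [])) l8508 = true :=
  ⟨by decide +kernel, by decide +kernel, by decide +kernel, by decide +kernel, by decide +kernel, by decide +kernel, by decide +kernel, by decide +kernel⟩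

def t8509 : allY (E.wth (lkp [])) l8509 = true ∧
    allY (E.wth (lkp [])) l8510 = true ∧
    allY (E.wth (lkp [])) l8511 = true ∧
    allY (E.wth (lkp [])) l8512 = true ∧
    allY (E.wth (lkp [])) l8513 = true ∧
    allY (E.wth (lkp [])) l8514 = true ∧
    allY (E.wth (lkp [])) l8515 = true ∧
    allY (E.wth (lkp [])) l8516 = true :=
  ⟨by decide +kernel, by decide +kernel, by decide +kernel, by decide +kernel, by decide +kernel, by decide +kernel, by decide +kernel, by decide +kernel⟩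

def t8517 : allY (E.wth (lkp [])) l8517 = true ∧
    allY (E.wth (lkp [])) l8518 = true ∧
    allY (E.wth (lkp [])) l8519 = true ∧
    allY (E.wth (lkp [])) l8520 = true ∧
    allY (E.wth (lkp [])) l8521 = true ∧
    allY (E.wth (lkp [])) l8522 = true ∧
    allY (E.wth (lkp [])) l8523 = true ∧
    allY (E.wth (lkp [])) l8524 = true :=
  ⟨by decide +kernel, by decide +kernel, by decide +kernel, by decide +kernel, by decide +kernel, by decide +kernel, by decide +kernel, by decide +kernel⟩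

def t8525 : allY (E.wth (lkp [])) l8525 = true ∧
    allY (E.wth (lkp [])) l8526 = true ∧
    allY (E.wth (lkp [])) l8527 = true ∧
    allY (E.wth (lkp [])) l8528 = true ∧
    allY (E.wth (lkp [])) l8529 = true ∧
    allY (E.wth (lkp [])) l8530 = true ∧
    allY (E.wth (lkp [])) l8531 = true ∧
    allY (E.wth (lkp [])) l8532 = true :=
  ⟨by decide +kernel, by decide +kernel, by decide +kernel, by decide +kernel, by decide +kernel, by decide +kernel, by decide +kernel, by decide +kernel⟩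

def t8533 : allY (E.wth (lkp [])) l8533 = true ∧
    allY (E.wth (lkp [])) l8534 = true ∧
    allY (E.wth (lkp [])) l8535 = true ∧
    allY (E.wth (lkp [])) l8536 = true ∧
    allY (E.wth (lkp [])) l8537 = true ∧
    allY (E.wth (lkp [])) l8538 = true ∧
    allY (E.wth (lkp [])) l8539 = true ∧
    allY (E.wth (lkp [])) l8540 = true :=
  ⟨by decide +kernel, by decide +kernel, by decide +kernel, by decide +kernel, by decide +kernel, by decide +kernel, by decide +kernel, by decide +kernel⟩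

def t8541 : allY (E.wth (lkp [])) l8541 = true ∧
    allY (E.wth (lkp [])) l8542 = true ∧
    allY (E.wth (lkp [])) l8543 = true ∧
    allY (E.wth (lkp [])) l8544 = true ∧
    allY (E.wth (lkp [])) l8545 = true ∧
    allY (E.wth (lkp [])) l8546 = true ∧
    allY (E.wth (lkp [])) l8547 = true ∧
    allY (E.wth (lkp [])) l8548 = true :=
  ⟨by decide +kernel, by decide +kernel, by decide +kernel, by decide +kernel, by decide +kernel, by decide +kernel, by decide +kernel, by decide +kernel⟩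

def t8549 : allY (E.wth (lkp [])) l8549 = true ∧
    allY (E.wth (lkp [])) l8550 = true ∧
    allY (E.wth (lkp [])) l8551 = true ∧
    allY (E.wth (lkp [])) l8552 = true ∧
    allY (E.wth (lkp [])) l8553 = true ∧
    allY (E.wth (lkp [])) l8554 = true ∧
    allY (E.wth (lkp [])) l8555 = true ∧
    allY (E.wth (lkp [])) l8556 = true :=
  ⟨by decide +kernel, by decide +kernel, by decide +kernel, by decide +kernel, by decide +kernel, by decide +kernel, by decide +kernel, by decide +kernel⟩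

def t8557 : allY (E.wth (lkp [])) l8557 = true ∧
    allY (E.wth (lkp [])) l8558 = true ∧
    allY (E.wth (lkp [])) l8559 = true ∧
    allY (E.wth (lkp [])) l8560 = true ∧
    allY (E.wth (lkp [])) l8561 = true ∧
    allY (E.wth (lkp [])) l8562 = true ∧
    allY (E.wth (lkp [])) l8563 = true ∧
    allY (E.wth (lkp [])) l8564 = true :=
  ⟨by decide +kernel, by decide +kernel, by decide +kernel, by decide +kernel, by decide +kernel, by decide +kernel, by decide +kernel, by decide +kernel⟩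

def t8565 : allY (E.wth (lkp [])) l8565 = true ∧
    allY (E.wth (lkp [])) l8566 = true ∧
    allY (E.wth (lkp [])) l8567 = true ∧
    allY (E.wth (lkp [])) l8568 = true ∧
    allY (E.wth (lkp [])) l8569 = true ∧
    allY (E.wth (lkp [])) l8570 = true ∧
    allY (E.wth (lkp [])) l8571 = true ∧
    allY (E.wth (lkp [])) l8572 = true :=
  ⟨by decide +kernel, by decide +kernel, by decide +kernel, by decide +kernel, by decide +kernel, by decide +kernel, by decide +kernel, by decide +kernel⟩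

def t8573 : allY (E.wth (lkp [])) l8573 = true ∧
    allY (E.wth (lkp [])) l8574 = true ∧
    allY (E.wth (lkp [])) l8575 = true ∧
    allY (E.wth (lkp [])) l8576 = true ∧
    allY (E.wth (lkp [])) l8577 = true ∧
    allY (E.wth (lkp [])) l8578 = true ∧
    allY (E.wth (lkp [])) l8579 = true ∧
    allY (E.wth (lkp [])) l8580 = true :=
  ⟨by decide +kernel, by decide +kernel, by decide +kernel, by decide +kernel, by decide +kernel, by decide +kernel, by decide +kernel, by decide +kernel⟩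

def t8581 : allY (E.wth (lkp [])) l8581 = true ∧
    allY (E.wth (lkp [])) l8582 = true ∧
    allY (E.wth (lkp [])) l8583 = true ∧
    allY (E.wth (lkp [])) l8584 = true ∧
    allY (E.wth (lkp [])) l8585 = true ∧
    allY (E.wth (lkp [])) l8586 = true ∧
    allY (E.wth (lkp [])) l8587 = true ∧
    allY (E.wth (lkp [])) l8588 = true :=
  ⟨by decide +kernel, by decide +kernel, by decide +kernel, by decide +kernel, by decide +kernel, by decide +kernel, by decide +kernel, by decide +kernel⟩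

def t8589 : allY (E.wth (lkp [])) l8589 = true ∧
    allY (E.wth (lkp [])) l8590 = true ∧
    allY (E.wth (lkp [])) l8591 = true ∧
    allY (E.wth (lkp [])) l8592 = true ∧
    allY (E.wth (lkp [])) l8593 = true ∧
    allY (E.wth (lkp [])) l8594 = true ∧
    allY (E.wth (lkp [])) l8595 = true ∧
    allY (E.wth (lkp [])) l8596 = true :=
  ⟨by decide +kernel, by decide +kernel, by decide +kernel, by decide +kernel, by decide +kernel, by decide +kernel, by decide +kernel, by decide +kernel⟩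

def t8597 : allY (E.wth (lkp [])) l8597 = true ∧
    allY (E.wth (lkp [])) l8598 = true ∧
    allY (E.wth (lkp [])) l8599 = true ∧
    allY (E.wth (lkp [])) l8600 = true ∧
    allY (E.wth (lkp [])) l8601 = true ∧
    allY (E.wth (lkp [])) l8602 = true ∧
    allY (E.wth (lkp [])) l8603 = true ∧
    allY (E.wth (lkp [])) l8604 = true :=
  ⟨by decide +kernel, by decide +kernel, by decide +kernel, by decide +kernel, by decide +kernel, by decide +kernel, by decide +kernel, by decide +kernel⟩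

def t8605 : allY (E.wth (lkp [])) l8605 = true ∧
    allY (E.wth (lkp [])) l8606 = true ∧
    allY (E.wth (lkp [])) l8607 = true ∧
    allY (E.wth (lkp [])) l8608 = true ∧
    allY (E.wth (lkp [])) l8609 = true ∧
    allY (E.wth (lkp [])) l8610 = true ∧
    allY (E.wth (lkp [])) l8611 = true ∧
    allY (E.wth (lkp [])) l8612 = true :=
  ⟨by decide +kernel, by decide +kernel, by decide +kernel, by decide +kernel, by decide +kernel, by decide +kernel, by decide +kernel, by decide +kernel⟩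

def t8613 : allY (E.wth (lkp [])) l8613 = true ∧
    allY (E.wth (lkp [])) l8614 = true ∧
    allY (E.wth (lkp [])) l8615 = true ∧
    allY (E.wth (lkp [])) l8616 = true ∧
    allY (E.wth (lkp [])) l8617 = true ∧
    allY (E.wth (lkp [])) l8618 = true ∧
    allY (E.wth (lkp [])) l8619 = true ∧
    allY (E.wth (lkp [])) l8620 = true :=
  ⟨by decide +kernel, by decide +kernel, by decide +kernel, by decide +kernel, by decide +kernel, by decide +kernel, by decide +kernel, by decide +kernel⟩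

def t8621 : allY (E.wth (lkp [])) l8621 = true ∧
    allY (E.wth (lkp [])) l8622 = true ∧
    allY (E.wth (lkp [])) l8623 = true ∧
    allY (E.wth (lkp [])) l8624 = true ∧
    allY (E.wth (lkp [])) l8625 = true ∧
    allY (E.wth (lkp [])) l8626 = true ∧
    allY (E.wth (lkp [])) l8627 = true ∧
    allY (E.wth (lkp [])) l8628 = true :=
  ⟨by decide +kernel, by decide +kernel, by decide +kernel, by decide +kernel, by decide +kernel, by decide +kernel, by decide +kernel, by decide +kernel⟩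

def t8629 : allY (E.wth (lkp [])) l8629 = true ∧
    allY (E.wth (lkp [])) l8630 = true ∧
    allY (E.wth (lkp [])) l8631 = true ∧
    allY (E.wth (lkp [])) l8632 = true ∧
    allY (E.wth (lkp [])) l8633 = true ∧
    allY (E.wth (lkp [])) l8634 = true ∧
    allY (E.wth (lkp [])) l8635 = true ∧
    allY (E.wth (lkp [])) l8636 = true :=
  ⟨by decide +kernel, by decide +kernel, by decide +kernel, by decide +kernel, by decide +kernel, by decide +kernel, by decide +kernel, by decide +kernel⟩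

def t8637 : allY (E.wth (lkp [])) l8637 = true ∧
    allY (E.wth (lkp [])) l8638 = true ∧
    allY (E.wth (lkp [])) l8639 = true ∧
    allY (E.wth (lkp [])) l8640 = true ∧
    allY (E.wth (lkp [])) l8641 = true ∧
    allY (E.wth (lkp [])) l8642 = true ∧
    allY (E.wth (lkp [])) l8643 = true ∧
    allY (E.wth (lkp [])) l8644 = true :=
  ⟨by decide +kernel, by decide +kernel, by decide +kernel, by decide +kernel, by decide +kernel, by decide +kernel, by decide +kernel, by decide +kernel⟩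

def t8645 : allY (E.wth (lkp [])) l8645 = true ∧
    allY (E.wth (lkp [])) l8646 = true ∧
    allY (E.wth (lkp [])) l8647 = true ∧
    allY (E.wth (lkp [])) l8648 = true ∧
    allY (E.wth (lkp [])) l8649 = true ∧
    allY (E.wth (lkp [])) l8650 = true ∧
    allY (E.wth (lkp [])) l8651 = true ∧
    allY (E.wth (lkp [])) l8652 = true :=
  ⟨by decide +kernel, by decide +kernel, by decide +kernel, by decide +kernel, by decide +kernel, by decide +kernel, by decide +kernel, by decide +kernel⟩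

def t8653 : allY (E.wth (lkp [])) l8653 = true ∧
    allY (E.wth (lkp [])) l8654 = true ∧
    allY (E.wth (lkp [])) l8655 = true ∧
    allY (E.wth (lkp [])) l8656 = true ∧
    allY (E.wth (lkp [])) l8657 = true ∧
    allY (E.wth (lkp [])) l8658 = true ∧
    allY (E.wth (lkp [])) l8659 = true ∧
    allY (E.wth (lkp [])) l8660 = true :=
  ⟨by decide +kernel, by decide +kernel, by decide +kernel, by decide +kernel, by decide +kernel, by decide +kernel, by decide +kernel, by decide +kernel⟩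

def t8661 : allY (E.wth (lkp [])) l8661 = true ∧
    allY (E.wth (lkp [])) l8662 = true ∧
    allY (E.wth (lkp [])) l8663 = true ∧
    allY (E.wth (lkp [])) l8664 = true ∧
    allY (E.wth (lkp [])) l8665 = true ∧
    allY (E.wth (lkp [])) l8666 = true ∧
    allY (E.wth (lkp [])) l8667 = true ∧
    allY (E.wth (lkp [])) l8668 = true :=
  ⟨by decide +kernel, by decide +kernel, by decide +kernel, by decide +kernel, by decide +kernel, by decide +kernel, by decide +kernel, by decide +kernel⟩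

def t8669 : allY (E.wth (lkp [])) l8669 = true ∧
    allY (E.wth (lkp [])) l8670 = true ∧
    allY (E.wth (lkp [])) l8671 = true ∧
    allY (E.wth (lkp [])) l8672 = true ∧
    allY (E.wth (lkp [])) l8673 = true ∧
    allY (E.wth (lkp [])) l8674 = true ∧
    allY (E.wth (lkp [])) l8675 = true ∧
    allY (E.wth (lkp [])) l8676 = true :=
  ⟨by decide +kernel, by decide +kernel, by decide +kernel, by decide +kernel, by decide +kernel, by decide +kernel, by decide +kernel, by decide +kernel⟩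

def t8677 : allY (E.wth (lkp [])) l8677 = true ∧
    allY (E.wth (lkp [])) l8678 = true ∧
    allY (E.wth (lkp [])) l8679 = true ∧
    allY (E.wth (lkp [])) l8680 = true ∧
    allY (E.wth (lkp [])) l8681 = true ∧
    allY (E.wth (lkp [])) l8682 = true ∧
    allY (E.wth (lkp [])) l8683 = true ∧
    allY (E.wth (lkp [])) l8684 = true :=
  ⟨by decide +kernel, by decide +kernel, by decide +kernel, by decide +kernel, by decide +kernel, by decide +kernel, by decide +kernel, by decide +kernel⟩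

def t8685 : allY (E.wth (lkp [])) l8685 = true ∧
    allY (E.wth (lkp [])) l8686 = true ∧
    allY (E.wth (lkp [])) l8687 = true ∧
    allY (E.wth (lkp [])) l8688 = true ∧
    allY (E.wth (lkp [])) l8689 = true ∧
    allY (E.wth (lkp [])) l8690 = true ∧
    allY (E.wth (lkp [])) l8691 = true ∧
    allY (E.wth (lkp [])) l8692 = true :=
  ⟨by decide +kernel, by decide +kernel, by decide +kernel, by decide +kernel, by decide +kernel, by decide +kernel, by decide +kernel, by decide +kernel⟩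

def t8693 : allY (E.wth (lkp [])) l8693 = true ∧
    allY (E.wth (lkp [])) l8694 = true ∧
    allY (E.wth (lkp [])) l8695 = true ∧
    allY (E.wth (lkp [])) l8696 = true ∧
    allY (E.wth (lkp [])) l8697 = true ∧
    allY (E.wth (lkp [])) l8698 = true ∧
    allY (E.wth (lkp [])) l8699 = true ∧
    allY (E.wth (lkp [])) l8700 = true :=
  ⟨by decide +kernel, by decide +kernel, by decide +kernel, by decide +kernel, by decide +kernel, by decide +kernel, by decide +kernel, by decide +kernel⟩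

def t8701 : allY (E.wth (lkp [])) l8701 = true ∧
    allY (E.wth (lkp [])) l8702 = true ∧
    allY (E.wth (lkp [])) l8703 = true ∧
    allY (E.wth (lkp [])) l8704 = true ∧
    allY (E.wth (lkp [])) l8705 = true ∧
    allY (E.wth (lkp [])) l8706 = true ∧
    allY (E.wth (lkp [])) l8707 = true ∧
    allY (E.wth (lkp [])) l8708 = true :=
  ⟨by decide +kernel, by decide +kernel, by decide +kernel, by decide +kernel, by decide +kernel, by decide +kernel, by decide +kernel, by decide +kernel⟩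

def t8709 : allY (E.wth (lkp [])) l8709 = true ∧
    allY (E.wth (lkp [])) l8710 = true ∧
    allY (E.wth (lkp [])) l8711 = true ∧
    allY (E.wth (lkp [])) l8712 = true ∧
    allY (E.wth (lkp [])) l8713 = true ∧
    allY (E.wth (lkp [])) l8714 = true ∧
    allY (E.wth (lkp [])) l8715 = true ∧
    allY (E.wth (lkp [])) l8716 = true :=
  ⟨by decide +kernel, by decide +kernel, by decide +kernel, by decide +kernel, by decide +kernel, by decide +kernel, by decide +kernel, by decide +kernel⟩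

def t8717 : allY (E.wth (lkp [])) l8717 = true ∧
    allY (E.wth (lkp [])) l8718 = true ∧
    allY (E.wth (lkp [])) l8719 = true ∧
    allY (E.wth (lkp [])) l8720 = true ∧
    allY (E.wth (lkp [])) l8721 = true ∧
    allY (E.wth (lkp [])) l8722 = true ∧
    allY (E.wth (lkp [])) l8723 = true ∧
    allY (E.wth (lkp [])) l8724 = true :=
  ⟨by decide +kernel, by decide +kernel, by decide +kernel, by decide +kernel, by decide +kernel, by decide +kernel, by decide +kernel, by decide +kernel⟩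

def t8725 : allY (E.wth (lkp [])) l8725 = true ∧
    allY (E.wth (lkp [])) l8726 = true ∧
    allY (E.wth (lkp [])) l8727 = true ∧
    allY (E.wth (lkp [])) l8728 = true ∧
    allY (E.wth (lkp [])) l8729 = true ∧
    allY (E.wth (lkp [])) l8730 = true ∧
    allY (E.wth (lkp [])) l8731 = true ∧
    allY (E.wth (lkp [])) l8732 = true :=
  ⟨by decide +kernel, by decide +kernel, by decide +kernel, by decide +kernel, by decide +kernel, by decide +kernel, by decide +kernel, by decide +kernel⟩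

def t8733 : allY (E.wth (lkp [])) l8733 = true ∧
    allY (E.wth (lkp [])) l8734 = true ∧
    allY (E.wth (lkp [])) l8735 = true ∧
    allY (E.wth (lkp [])) l8736 = true ∧
    allY (E.wth (lkp [])) l8737 = true ∧
    allY (E.wth (lkp [])) l8738 = true ∧
    allY (E.wth (lkp [])) l8739 = true ∧
    allY (E.wth (lkp [])) l8740 = true :=
  ⟨by decide +kernel, by decide +kernel, by decide +kernel, by decide +kernel, by decide +kernel, by decide +kernel, by decide +kernel, by decide +kernel⟩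

def t8741 : allY (E.wth (lkp [])) l8741 = true ∧
    allY (E.wth (lkp [])) l8742 = true ∧
    allY (E.wth (lkp [])) l8743 = true ∧
    allY (E.wth (lkp [])) l8744 = true ∧
    allY (E.wth (lkp [])) l8745 = true ∧
    allY (E.wth (lkp [])) l8746 = true ∧
    allY (E.wth (lkp [])) l8747 = true ∧
    allY (E.wth (lkp [])) l8748 = true :=
  ⟨by decide +kernel, by decide +kernel, by decide +kernel, by decide +kernel, by decide +kernel, by decide +kernel, by decide +kernel, by decide +kernel⟩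

def t8749 : allY (E.wth (lkp [])) l8749 = true ∧
    allY (E.wth (lkp [])) l8750 = true ∧
    allY (E.wth (lkp [])) l8751 = true ∧
    allY (E.wth (lkp [])) l8752 = true ∧
    allY (E.wth (lkp [])) l8753 = true ∧
    allY (E.wth (lkp [])) l8754 = true ∧
    allY (E.wth (lkp [])) l8755 = true ∧
    allY (E.wth (lkp [])) l8756 = true :=
  ⟨by decide +kernel, by decide +kernel, by decide +kernel, by decide +kernel, by decide +kernel, by decide +kernel, by decide +kernel, by decide +kernel⟩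

def t8757 : allY (E.wth (lkp [])) l8757 = true ∧
    allY (E.wth (lkp [])) l8758 = true ∧
    allY (E.wth (lkp [])) l8759 = true ∧
    allY (E.wth (lkp [])) l8760 = true ∧
    allY (E.wth (lkp [])) l8761 = true ∧
    allY (E.wth (lkp [])) l8762 = true ∧
    allY (E.wth (lkp [])) l8763 = true ∧
    allY (E.wth (lkp [])) l8764 = true :=
  ⟨by decide +kernel, by decide +kernel, by decide +kernel, by decide +kernel, by decide +kernel, by decide +kernel, by decide +kernel, by decide +kernel⟩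

def t8765 : allY (E.wth (lkp [])) l8765 = true ∧
    allY (E.wth (lkp [])) l8766 = true ∧
    allY (E.wth (lkp [])) l8767 = true ∧
    allY (E.wth (lkp [])) l8768 = true ∧
    allY (E.wth (lkp [])) l8769 = true ∧
    allY (E.wth (lkp [])) l8770 = true ∧
    allY (E.wth (lkp [])) l8771 = true ∧
    allY (E.wth (lkp [])) l8772 = true :=
  ⟨by decide +kernel, by decide +kernel, by decide +kernel, by decide +kernel, by decide +kernel, by decide +kernel, by decide +kernel, by decide +kernel⟩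

def t8773 : allY (E.wth (lkp [])) l8773 = true ∧
    allY (E.wth (lkp [])) l8774 = true ∧
    allY (E.wth (lkp [])) l8775 = true ∧
    allY (E.wth (lkp [])) l8776 = true ∧
    allY (E.wth (lkp [])) l8777 = true ∧
    allY (E.wth (lkp [])) l8778 = true ∧
    allY (E.wth (lkp [])) l8779 = true ∧
    allY (E.wth (lkp [])) l8780 = true :=
  ⟨by decide +kernel, by decide +kernel, by decide +kernel, by decide +kernel, by decide +kernel, by decide +kernel, by decide +kernel, by decide +kernel⟩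

def t8781 : allY (E.wth (lkp [])) l8781 = true ∧
    allY (E.wth (lkp [])) l8782 = true ∧
    allY (E.wth (lkp [])) l8783 = true ∧
    allY (E.wth (lkp [])) l8784 = true ∧
    allY (E.wth (lkp [])) l8785 = true ∧
    allY (E.wth (lkp [])) l8786 = true ∧
    allY (E.wth (lkp [])) l8787 = true ∧
    allY (E.wth (lkp [])) l8788 = true :=
  ⟨by decide +kernel, by decide +kernel, by decide +kernel, by decide +kernel, by decide +kernel, by decide +kernel, by decide +kernel, by decide +kernel⟩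

def t8789 : allY (E.wth (lkp [])) l8789 = true ∧
    allY (E.wth (lkp [])) l8790 = true ∧
    allY (E.wth (lkp [])) l8791 = true ∧
    allY (E.wth (lkp [])) l8792 = true ∧
    allY (E.wth (lkp [])) l8793 = true ∧
    allY (E.wth (lkp [])) l8794 = true ∧
    allY (E.wth (lkp [])) l8795 = true ∧
    allY (E.wth (lkp [])) l8796 = true :=
  ⟨by decide +kernel, by decide +kernel, by decide +kernel, by decide +kernel, by decide +kernel, by decide +kernel, by decide +kernel, by decide +kernel⟩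

def t8797 : allY (E.wth (lkp [])) l8797 = true ∧
    allY (E.wth (lkp [])) l8798 = true ∧
    allY (E.wth (lkp [])) l8799 = true ∧
    allY (E.wth (lkp [])) l8800 = true ∧
    allY (E.wth (lkp [])) l8801 = true ∧
    allY (E.wth (lkp [])) l8802 = true ∧
    allY (E.wth (lkp [])) l8803 = true ∧
    allY (E.wth (lkp [])) l8804 = true :=
  ⟨by decide +kernel, by decide +kernel, by decide +kernel, by decide +kernel, by decide +kernel, by decide +kernel, by decide +kernel, by decide +kernel⟩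

def t8805 : allY (E.wth (lkp [])) l8805 = true ∧
    allY (E.wth (lkp [])) l8806 = true ∧
    allY (E.wth (lkp [])) l8807 = true ∧
    allY (E.wth (lkp [])) l8808 = true ∧
    allY (E.wth (lkp [])) l8809 = true ∧
    allY (E.wth (lkp [])) l8810 = true ∧
    allY (E.wth (lkp [])) l8811 = true ∧
    allY (E.wth (lkp [])) l8812 = true :=
  ⟨by decide +kernel, by decide +kernel, by decide +kernel, by decide +kernel, by decide +kernel, by decide +kernel, by decide +kernel, by decide +kernel⟩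

def t8813 : allY (E.wth (lkp [])) l8813 = true ∧
    allY (E.wth (lkp [])) l8814 = true ∧
    allY (E.wth (lkp [])) l8815 = true ∧
    allY (E.wth (lkp [])) l8816 = true ∧
    allY (E.wth (lkp [])) l8817 = true ∧
    allY (E.wth (lkp [])) l8818 = true ∧
    allY (E.wth (lkp [])) l8819 = true ∧
    allY (E.wth (lkp [])) l8820 = true :=
  ⟨by decide +kernel, by decide +kernel, by decide +kernel, by decide +kernel, by decide +kernel, by decide +kernel, by decide +kernel, by decide +kernel⟩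

def t8821 : allY (E.wth (lkp [])) l8821 = true ∧
    allY (E.wth (lkp [])) l8822 = true ∧
    allY (E.wth (lkp [])) l8823 = true ∧
    allY (E.wth (lkp [])) l8824 = true ∧
    allY (E.wth (lkp [])) l8825 = true ∧
    allY (E.wth (lkp [])) l8826 = true ∧
    allY (E.wth (lkp [])) l8827 = true ∧
    allY (E.wth (lkp [])) l8828 = true :=
  ⟨by decide +kernel, by decide +kernel, by decide +kernel, by decide +kernel, by decide +kernel, by decide +kernel, by decide +kernel, by decide +kernel⟩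

def t8829 : allY (E.wth (lkp [])) l8829 = true ∧
    allY (E.wth (lkp [])) l8830 = true ∧
    allY (E.wth (lkp [])) l8831 = true ∧
    allY (E.wth (lkp [])) l8832 = true ∧
    allY (E.wth (lkp [])) l8833 = true ∧
    allY (E.wth (lkp [])) l8834 = true ∧
    allY (E.wth (lkp [])) l8835 = true ∧
    allY (E.wth (lkp [])) l8836 = true :=
  ⟨by decide +kernel, by decide +kernel, by decide +kernel, by decide +kernel, by decide +kernel, by decide +kernel, by decide +kernel, by decide +kernel⟩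

def t8837 : allY (E.wth (lkp [])) l8837 = true ∧
    allY (E.wth (lkp [])) l8838 = true ∧
    allY (E.wth (lkp [])) l8839 = true ∧
    allY (E.wth (lkp [])) l8840 = true ∧
    allY (E.wth (lkp [])) l8841 = true ∧
    allY (E.wth (lkp [])) l8842 = true ∧
    allY (E.wth (lkp [])) l8843 = true ∧
    allY (E.wth (lkp [])) l8844 = true :=
  ⟨by decide +kernel, by decide +kernel, by decide +kernel, by decide +kernel, by decide +kernel, by decide +kernel, by decide +kernel, by decide +kernel⟩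

def t8845 : allY (E.wth (lkp [])) l8845 = true ∧
    allY (E.wth (lkp [])) l8846 = true ∧
    allY (E.wth (lkp [])) l8847 = true ∧
    allY (E.wth (lkp [])) l8848 = true ∧
    allY (E.wth (lkp [])) l8849 = true ∧
    allY (E.wth (lkp [])) l8850 = true ∧
    allY (E.wth (lkp [])) l8851 = true ∧
    allY (E.wth (lkp [])) l8852 = true :=
  ⟨by decide +kernel, by decide +kernel, by decide +kernel, by decide +kernel, by decide +kernel, by decide +kernel, by decide +kernel, by decide +kernel⟩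

def t8853 : allY (E.wth (lkp [])) l8853 = true ∧
    allY (E.wth (lkp [])) l8854 = true ∧
    allY (E.wth (lkp [])) l8855 = true ∧
    allY (E.wth (lkp [])) l8856 = true ∧
    allY (E.wth (lkp [])) l8857 = true ∧
    allY (E.wth (lkp [])) l8858 = true ∧
    allY (E.wth (lkp [])) l8859 = true ∧
    allY (E.wth (lkp [])) l8860 = true :=
  ⟨by decide +kernel, by decide +kernel, by decide +kernel, by decide +kernel, by decide +kernel, by decide +kernel, by decide +kernel, by decide +kernel⟩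

def t8861 : allY (E.wth (lkp [])) l8861 = true ∧
    allY (E.wth (lkp [])) l8862 = true ∧
    allY (E.wth (lkp [])) l8863 = true ∧
    allY (E.wth (lkp [])) l8864 = true ∧
    allY (E.wth (lkp [])) l8865 = true ∧
    allY (E.wth (lkp [])) l8866 = true ∧
    allY (E.wth (lkp [])) l8867 = true ∧
    allY (E.wth (lkp [])) l8868 = true :=
  ⟨by decide +kernel, by decide +kernel, by decide +kernel, by decide +kernel, by decide +kernel, by decide +kernel, by decide +kernel, by decide +kernel⟩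

def t8869 : allY (E.wth (lkp [])) l8869 = true ∧
    allY (E.wth (lkp [])) l8870 = true ∧
    allY (E.wth (lkp [])) l8871 = true ∧
    allY (E.wth (lkp [])) l8872 = true ∧
    allY (E.wth (lkp [])) l8873 = true ∧
    allY (E.wth (lkp [])) l8874 = true ∧
    allY (E.wth (lkp [])) l8875 = true ∧
    allY (E.wth (lkp [])) l8876 = true :=
  ⟨by decide +kernel, by decide +kernel, by decide +kernel, by decide +kernel, by decide +kernel, by decide +kernel, by decide +kernel, by decide +kernel⟩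

def t8877 : allY (E.wth (lkp [])) l8877 = true ∧
    allY (E.wth (lkp [])) l8878 = true ∧
    allY (E.wth (lkp [])) l8879 = true ∧
    allY (E.wth (lkp [])) l8880 = true ∧
    allY (E.wth (lkp [])) l8881 = true ∧
    allY (E.wth (lkp [])) l8882 = true ∧
    allY (E.wth (lkp [])) l8883 = true ∧
    allY (E.wth (lkp [])) l8884 = true :=
  ⟨by decide +kernel, by decide +kernel, by decide +kernel, by decide +kernel, by decide +kernel, by decide +kernel, by decide +kernel, by decide +kernel⟩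

def t8885 : allY (E.wth (lkp [])) l8885 = true ∧
    allY (E.wth (lkp [])) l8886 = true ∧
    allY (E.wth (lkp [])) l8887 = true ∧
    allY (E.wth (lkp [])) l8888 = true ∧
    allY (E.wth (lkp [])) l8889 = true ∧
    allY (E.wth (lkp [])) l8890 = true ∧
    allY (E.wth (lkp [])) l8891 = true ∧
    allY (E.wth (lkp [])) l8892 = true :=
  ⟨by decide +kernel, by decide +kernel, by decide +kernel, by decide +kernel, by decide +kernel, by decide +kernel, by decide +kernel, by decide +kernel⟩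

def t8893 : allY (E.wth (lkp [])) l8893 = true ∧
    allY (E.wth (lkp [])) l8894 = true ∧
    allY (E.wth (lkp [])) l8895 = true ∧
    allY (E.wth (lkp [])) l8896 = true ∧
    allY (E.wth (lkp [])) l8897 = true ∧
    allY (E.wth (lkp [])) l8898 = true ∧
    allY (E.wth (lkp [])) l8899 = true ∧
    allY (E.wth (lkp [])) l8900 = true :=
  ⟨by decide +kernel, by decide +kernel, by decide +kernel, by decide +kernel, by decide +kernel, by decide +kernel, by decide +kernel, by decide +kernel⟩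

def t8901 : allY (E.wth (lkp [])) l8901 = true ∧
    allY (E.wth (lkp [])) l8902 = true ∧
    allY (E.wth (lkp [])) l8903 = true ∧
    allY (E.wth (lkp [])) l8904 = true ∧
    allY (E.wth (lkp [])) l8905 = true ∧
    allY (E.wth (lkp [])) l8906 = true ∧
    allY (E.wth (lkp [])) l8907 = true ∧
    allY (E.wth (lkp [])) l8908 = true :=
  ⟨by decide +kernel, by decide +kernel, by decide +kernel, by decide +kernel, by decide +kernel, by decide +kernel, by decide +kernel, by decide +kernel⟩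

def t8909 : allY (E.wth (lkp [])) l8909 = true ∧
    allY (E.wth (lkp [])) l8910 = true ∧
    allY (E.wth (lkp [])) l8911 = true ∧
    allY (E.wth (lkp [])) l8912 = true ∧
    allY (E.wth (lkp [])) l8913 = true ∧
    allY (E.wth (lkp [])) l8914 = true ∧
    allY (E.wth (lkp [])) l8915 = true ∧
    allY (E.wth (lkp [])) l8916 = true :=
  ⟨by decide +kernel, by decide +kernel, by decide +kernel, by decide +kernel, by decide +kernel, by decide +kernel, by decide +kernel, by decide +kernel⟩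

def t8917 : allY (E.wth (lkp [])) l8917 = true ∧
    allY (E.wth (lkp [])) l8918 = true ∧
    allY (E.wth (lkp [])) l8919 = true ∧
    allY (E.wth (lkp [])) l8920 = true ∧
    allY (E.wth (lkp [])) l8921 = true ∧
    allY (E.wth (lkp [])) l8922 = true ∧
    allY (E.wth (lkp [])) l8923 = true ∧
    allY (E.wth (lkp [])) l8924 = true :=
  ⟨by decide +kernel, by decide +kernel, by decide +kernel, by decide +kernel, by decide +kernel, by decide +kernel, by decide +kernel, by decide +kernel⟩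

def t8925 : allY (E.wth (lkp [])) l8925 = true ∧
    allY (E.wth (lkp [])) l8926 = true ∧
    allY (E.wth (lkp [])) l8927 = true ∧
    allY (E.wth (lkp [])) l8928 = true ∧
    allY (E.wth (lkp [])) l8929 = true ∧
    allY (E.wth (lkp [])) l8930 = true ∧
    allY (E.wth (lkp [])) l8931 = true ∧
    allY (E.wth (lkp [])) l8932 = true :=
  ⟨by decide +kernel, by decide +kernel, by decide +kernel, by decide +kernel, by decide +kernel, by decide +kernel, by decide +kernel, by decide +kernel⟩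

def t8933 : allY (E.wth (lkp [])) l8933 = true ∧
    allY (E.wth (lkp [])) l8934 = true ∧
    allY (E.wth (lkp [])) l8935 = true ∧
    allY (E.wth (lkp [])) l8936 = true :=
  ⟨by decide +kernel, by decide +kernel, by decide +kernel, by decide +kernel⟩

theorem a15 {p : Rf → Prop} (H : ∀ l, allY (E.wth (lkp [])) l = true → (lkp l).All p) :
    b15.All p := ⟨⟨⟨⟨⟨⟨⟨⟨⟨H _ t8389.1, H _ t8389.2.1⟩, ⟨H _ t8389.2.2.1, H _ t8389.2.2.2.1⟩⟩, ⟨⟨H _ t8389.2.2.2.2.1, H _ t8389.2.2.2.2.2.1⟩, ⟨H _ t8389.2.2.2.2.2.2.1, H _ t8389.2.2.2.2.2.2.2⟩⟩⟩, ⟨⟨⟨H _ t8397.1, H _ t8397.2.1⟩, ⟨H _ t8397.2.2.1, H _ t8397.2.2.2.1⟩⟩, ⟨⟨H _ t8397.2.2.2.2.1, H _ t8397.2.2.2.2.2.1⟩, ⟨H _ t8397.2.2.2.2.2.2.1, ⟨H _ t8397.2.2.2.2.2.2.2, H _ t8405.1⟩⟩⟩⟩⟩, ⟨⟨⟨⟨H _ t8405.2.1, H _ t8405.2.2.1⟩, ⟨H _ t8405.2.2.2.1, H _ t8405.2.2.2.2.1⟩⟩, ⟨⟨H _ t8405.2.2.2.2.2.1, H _ t8405.2.2.2.2.2.2.1⟩, ⟨H _ t8405.2.2.2.2.2.2.2, H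 _ t8413.1⟩⟩⟩, ⟨⟨⟨H _ t8413.2.1, H _ t8413.2.2.1⟩, ⟨H _ t8413.2.2.2.1, H _ t8413.2.2.2.2.1⟩⟩, ⟨⟨H _ t8413.2.2.2.2.2.1, H _ t8413.2.2.2.2.2.2.1⟩, ⟨H _ t8413.2.2.2.2.2.2.2, ⟨H _ t8421.1, H _ t8421.2.1⟩⟩⟩⟩⟩⟩, ⟨⟨⟨⟨⟨H _ t8421.2.2.1, H _ t8421.2.2.2.1⟩, ⟨H _ t8421.2.2.2.2.1, H _ t8421.2.2.2.2.2.1⟩⟩, ⟨⟨H _ t8421.2.2.2.2.2.2.1, H _ t8421.2.2.2.2.2.2.2⟩, ⟨H _ t8429.1, H _ t8429.2.1⟩⟩⟩, ⟨⟨⟨H _ t8429.2.2.1, H _ t8429.2.2.2.1⟩, ⟨H _ t8429.2.2.2.2.1, H _ t8429.2.2.2.2.2.1⟩⟩, ⟨⟨H _ t8429.2.2.2.2.2.2.1, H _ t8429.2.2.2.2.2.2.2⟩, ⟨H _ t8437.1, ⟨H _ t8437.2.1, H _ t8437.2.2.1⟩⟩⟩⟩⟩, ⟨⟨⟨⟨H _ t8437.2.2.2.1, H _ t8437.2.2.2.2.1⟩, ⟨H _ t8437.2.2.2.2.2.1, H _ t8437.2.2.2.2.2.2.1⟩⟩, ⟨⟨H _ t8437.2.2.2.2.2.2.2, H _ t8445.1⟩, ⟨H _ t8445.2.1, H _ t8445.2.2.1⟩⟩⟩, ⟨⟨⟨H _ t8445.2.2.2.1, H _ t8445.2.2.2.2.1⟩, ⟨H _ t8445.2.2.2.2.2.1, H _ t8445.2.2.2.2.2.2.1⟩⟩, ⟨⟨H _ t8445.2.2.2.2.2.2.2, H _ t8453.1⟩, ⟨H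 _ t8453.2.1, ⟨H _ t8453.2.2.1, H _ t8453.2.2.2.1⟩⟩⟩⟩⟩⟩⟩, ⟨⟨⟨⟨⟨⟨H _ t8453.2.2.2.2.1, H _ t8453.2.2.2.2.2.1⟩, ⟨H _ t8453.2.2.2.2.2.2.1, H _ t8453.2.2.2.2.2.2.2⟩⟩, ⟨⟨H _ t8461.1, H _ t8461.2.1⟩, ⟨H _ t8461.2.2.1, H _ t8461.2.2.2.1⟩⟩⟩, ⟨⟨⟨H _ t8461.2.2.2.2.1, H _ t8461.2.2.2.2.2.1⟩, ⟨H _ t8461.2.2.2.2.2.2.1, H _ t8461.2.2.2.2.2.2.2⟩⟩, ⟨⟨H _ t8469.1, H _ t8469.2.1⟩, ⟨H _ t8469.2.2.1, ⟨H _ t8469.2.2.2.1, H _ t8469.2.2.2.2.1⟩⟩⟩⟩⟩, ⟨⟨⟨⟨H _ t8469.2.2.2.2.2.1, H _ t8469.2.2.2.2.2.2.1⟩, ⟨H _ t8469.2.2.2.2.2.2.2, H _ t8477.1⟩⟩, ⟨⟨H _ t8477.2.1, H _ t8477.2.2.1⟩, ⟨H _ t8477.2.2.2.1, H _ t8477.2.2.2.2.1⟩⟩⟩, ⟨⟨⟨H _ t8477.2.2.2.2.2.1, H _ t8477.2.2.2.2.2.2.1⟩, ⟨H _ t8477.2.2.2.2.2.2.2, H _ t8485.1⟩⟩, ⟨⟨H _ t8485.2.1, H _ t8485.2.2.1⟩, ⟨H _ t8485.2.2.2.1, ⟨H _ t8485.2.2.2.2.1, H _ t8485.2.2.2.2.2.1⟩⟩⟩⟩⟩⟩, ⟨⟨⟨⟨⟨H _ t8485.2.2.2.2.2.2.1, H _ t8485.2.2.2.2.2.2.2⟩, ⟨H _ t8493.1, H _ t8493.2.1⟩⟩,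 ⟨⟨H _ t8493.2.2.1, H _ t8493.2.2.2.1⟩, ⟨H _ t8493.2.2.2.2.1, H _ t8493.2.2.2.2.2.1⟩⟩⟩, ⟨⟨⟨H _ t8493.2.2.2.2.2.2.1, H _ t8493.2.2.2.2.2.2.2⟩, ⟨H _ t8501.1, H _ t8501.2.1⟩⟩, ⟨⟨H _ t8501.2.2.1, H _ t8501.2.2.2.1⟩, ⟨H _ t8501.2.2.2.2.1, ⟨H _ t8501.2.2.2.2.2.1, H _ t8501.2.2.2.2.2.2.1⟩⟩⟩⟩⟩, ⟨⟨⟨⟨H _ t8501.2.2.2.2.2.2.2, H _ t8509.1⟩, ⟨H _ t8509.2.1, H _ t8509.2.2.1⟩⟩, ⟨⟨H _ t8509.2.2.2.1, H _ t8509.2.2.2.2.1⟩, ⟨H _ t8509.2.2.2.2.2.1, ⟨H _ t8509.2.2.2.2.2.2.1, H _ t8509.2.2.2.2.2.2.2⟩⟩⟩⟩, ⟨⟨⟨H _ t8517.1, H _ t8517.2.1⟩, ⟨H _ t8517.2.2.1, H _ t8517.2.2.2.1⟩⟩, ⟨⟨H _ t8517.2.2.2.2.1, H _ t8517.2.2.2.2.2.1⟩, ⟨H _ t8517.2.2.2.2.2.2.1, ⟨H _ t8517.2.2.2.2.2.2.2, H _ t8525.1⟩⟩⟩⟩⟩⟩⟩⟩, ⟨⟨⟨⟨⟨⟨⟨H _ t8525.2.1, H _ t8525.2.2.1⟩, ⟨H _ t8525.2.2.2.1, H _ t8525.2.2.2.2.1⟩⟩, ⟨⟨H _ t8525.2.2.2.2.2.1, H _ t8525.2.2.2.2.2.2.1⟩, ⟨H _ t8525.2.2.2.2.2.2.2, H _ t8533.1⟩⟩⟩, ⟨⟨⟨H _ t8533.2.1, H _ t8533.2.2.1⟩,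 ⟨H _ t8533.2.2.2.1, H _ t8533.2.2.2.2.1⟩⟩, ⟨⟨H _ t8533.2.2.2.2.2.1, H _ t8533.2.2.2.2.2.2.1⟩, ⟨H _ t8533.2.2.2.2.2.2.2, ⟨H _ t8541.1, H _ t8541.2.1⟩⟩⟩⟩⟩, ⟨⟨⟨⟨H _ t8541.2.2.1, H _ t8541.2.2.2.1⟩, ⟨H _ t8541.2.2.2.2.1, H _ t8541.2.2.2.2.2.1⟩⟩, ⟨⟨H _ t8541.2.2.2.2.2.2.1, H _ t8541.2.2.2.2.2.2.2⟩, ⟨H _ t8549.1, H _ t8549.2.1⟩⟩⟩, ⟨⟨⟨H _ t8549.2.2.1, H _ t8549.2.2.2.1⟩, ⟨H _ t8549.2.2.2.2.1, H _ t8549.2.2.2.2.2.1⟩⟩, ⟨⟨H _ t8549.2.2.2.2.2.2.1, H _ t8549.2.2.2.2.2.2.2⟩, ⟨H _ t8557.1, ⟨H _ t8557.2.1, H _ t8557.2.2.1⟩⟩⟩⟩⟩⟩, ⟨⟨⟨⟨⟨H _ t8557.2.2.2.1, H _ t8557.2.2.2.2.1⟩, ⟨H _ t8557.2.2.2.2.2.1, H _ t8557.2.2.2.2.2.2.1⟩⟩, ⟨⟨H _ t8557.2.2.2.2.2.2.2, H _ t8565.1⟩, ⟨H _ t8565.2.1, H _ t8565.2.2.1⟩⟩⟩, ⟨⟨⟨H _ t8565.2.2.2.1, H _ t8565.2.2.2.2.1⟩, ⟨H _ t8565.2.2.2.2.2.1, H _ t8565.2.2.2.2.2.2.1⟩⟩, ⟨⟨H _ t8565.2.2.2.2.2.2.2, H _ t8573.1⟩, ⟨H _ t8573.2.1, ⟨H _ t8573.2.2.1, H _ t8573.2.2.2.1⟩⟩⟩⟩⟩,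 ⟨⟨⟨⟨H _ t8573.2.2.2.2.1, H _ t8573.2.2.2.2.2.1⟩, ⟨H _ t8573.2.2.2.2.2.2.1, H _ t8573.2.2.2.2.2.2.2⟩⟩, ⟨⟨H _ t8581.1, H _ t8581.2.1⟩, ⟨H _ t8581.2.2.1, H _ t8581.2.2.2.1⟩⟩⟩, ⟨⟨⟨H _ t8581.2.2.2.2.1, H _ t8581.2.2.2.2.2.1⟩, ⟨H _ t8581.2.2.2.2.2.2.1, H _ t8581.2.2.2.2.2.2.2⟩⟩, ⟨⟨H _ t8589.1, H _ t8589.2.1⟩, ⟨H _ t8589.2.2.1, ⟨H _ t8589.2.2.2.1, H _ t8589.2.2.2.2.1⟩⟩⟩⟩⟩⟩⟩, ⟨⟨⟨⟨⟨⟨H _ t8589.2.2.2.2.2.1, H _ t8589.2.2.2.2.2.2.1⟩, ⟨H _ t8589.2.2.2.2.2.2.2, H _ t8597.1⟩⟩, ⟨⟨H _ t8597.2.1, H _ t8597.2.2.1⟩, ⟨H _ t8597.2.2.2.1, H _ t8597.2.2.2.2.1⟩⟩⟩, ⟨⟨⟨H _ t8597.2.2.2.2.2.1, H _ t8597.2.2.2.2.2.2.1⟩, ⟨H _ t8597.2.2.2.2.2.2.2, H _ t8605.1⟩⟩, ⟨⟨H _ t8605.2.1, H _ t8605.2.2.1⟩, ⟨H _ t8605.2.2.2.1, ⟨H _ t8605.2.2.2.2.1, H _ t8605.2.2.2.2.2.1⟩⟩⟩⟩⟩, ⟨⟨⟨⟨H _ t8605.2.2.2.2.2.2.1, H _ t8605.2.2.2.2.2.2.2⟩, ⟨H _ t8613.1, H _ t8613.2.1⟩⟩, ⟨⟨H _ t8613.2.2.1, H _ t8613.2.2.2.1⟩, ⟨H _ t8613.2.2.2.2.1,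 H _ t8613.2.2.2.2.2.1⟩⟩⟩, ⟨⟨⟨H _ t8613.2.2.2.2.2.2.1, H _ t8613.2.2.2.2.2.2.2⟩, ⟨H _ t8621.1, H _ t8621.2.1⟩⟩, ⟨⟨H _ t8621.2.2.1, H _ t8621.2.2.2.1⟩, ⟨H _ t8621.2.2.2.2.1, ⟨H _ t8621.2.2.2.2.2.1, H _ t8621.2.2.2.2.2.2.1⟩⟩⟩⟩⟩⟩, ⟨⟨⟨⟨⟨H _ t8621.2.2.2.2.2.2.2, H _ t8629.1⟩, ⟨H _ t8629.2.1, H _ t8629.2.2.1⟩⟩, ⟨⟨H _ t8629.2.2.2.1, H _ t8629.2.2.2.2.1⟩, ⟨H _ t8629.2.2.2.2.2.1, H _ t8629.2.2.2.2.2.2.1⟩⟩⟩, ⟨⟨⟨H _ t8629.2.2.2.2.2.2.2, H _ t8637.1⟩, ⟨H _ t8637.2.1, H _ t8637.2.2.1⟩⟩, ⟨⟨H _ t8637.2.2.2.1, H _ t8637.2.2.2.2.1⟩, ⟨H _ t8637.2.2.2.2.2.1, ⟨H _ t8637.2.2.2.2.2.2.1, H _ t8637.2.2.2.2.2.2.2⟩⟩⟩⟩⟩, ⟨⟨⟨⟨H _ t8645.1, H _ t8645.2.1⟩, ⟨H _ t8645.2.2.1, H _ t8645.2.2.2.1⟩⟩, ⟨⟨H _ t8645.2.2.2.2.1, H _ t8645.2.2.2.2.2.1⟩, ⟨H _ t8645.2.2.2.2.2.2.1, ⟨H _ t8645.2.2.2.2.2.2.2, H _ t8653.1⟩⟩⟩⟩, ⟨⟨⟨H _ t8653.2.1, H _ t8653.2.2.1⟩, ⟨H _ t8653.2.2.2.1, H _ t8653.2.2.2.2.1⟩⟩, ⟨⟨H _ t8653.2.2.2.2.2.1,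 H _ t8653.2.2.2.2.2.2.1⟩, ⟨H _ t8653.2.2.2.2.2.2.2, ⟨H _ t8661.1, H _ t8661.2.1⟩⟩⟩⟩⟩⟩⟩⟩⟩, ⟨⟨⟨⟨⟨⟨⟨⟨H _ t8661.2.2.1, H _ t8661.2.2.2.1⟩, ⟨H _ t8661.2.2.2.2.1, H _ t8661.2.2.2.2.2.1⟩⟩, ⟨⟨H _ t8661.2.2.2.2.2.2.1, H _ t8661.2.2.2.2.2.2.2⟩, ⟨H _ t8669.1, H _ t8669.2.1⟩⟩⟩, ⟨⟨⟨H _ t8669.2.2.1, H _ t8669.2.2.2.1⟩, ⟨H _ t8669.2.2.2.2.1, H _ t8669.2.2.2.2.2.1⟩⟩, ⟨⟨H _ t8669.2.2.2.2.2.2.1, H _ t8669.2.2.2.2.2.2.2⟩, ⟨H _ t8677.1, ⟨H _ t8677.2.1, H _ t8677.2.2.1⟩⟩⟩⟩⟩, ⟨⟨⟨⟨H _ t8677.2.2.2.1, H _ t8677.2.2.2.2.1⟩, ⟨H _ t8677.2.2.2.2.2.1, H _ t8677.2.2.2.2.2.2.1⟩⟩, ⟨⟨H _ t8677.2.2.2.2.2.2.2, H _ t8685.1⟩, ⟨H _ t8685.2.1, H _ t8685.2.2.1⟩⟩⟩, ⟨⟨⟨H _ t8685.2.2.2.1, H _ t8685.2.2.2.2.1⟩, ⟨H _ t8685.2.2.2.2.2.1, H _ t8685.2.2.2.2.2.2.1⟩⟩, ⟨⟨H _ t8685.2.2.2.2.2.2.2, H _ t8693.1⟩, ⟨H _ t8693.2.1, ⟨H _ t8693.2.2.1, H _ t8693.2.2.2.1⟩⟩⟩⟩⟩⟩, ⟨⟨⟨⟨⟨H _ t8693.2.2.2.2.1, H _ t8693.2.2.2.2.2.1⟩, ⟨H _ t8693.2.2.2.2.2.2.1,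 H _ t8693.2.2.2.2.2.2.2⟩⟩, ⟨⟨H _ t8701.1, H _ t8701.2.1⟩, ⟨H _ t8701.2.2.1, H _ t8701.2.2.2.1⟩⟩⟩, ⟨⟨⟨H _ t8701.2.2.2.2.1, H _ t8701.2.2.2.2.2.1⟩, ⟨H _ t8701.2.2.2.2.2.2.1, H _ t8701.2.2.2.2.2.2.2⟩⟩, ⟨⟨H _ t8709.1, H _ t8709.2.1⟩, ⟨H _ t8709.2.2.1, ⟨H _ t8709.2.2.2.1, H _ t8709.2.2.2.2.1⟩⟩⟩⟩⟩, ⟨⟨⟨⟨H _ t8709.2.2.2.2.2.1, H _ t8709.2.2.2.2.2.2.1⟩, ⟨H _ t8709.2.2.2.2.2.2.2, H _ t8717.1⟩⟩, ⟨⟨H _ t8717.2.1, H _ t8717.2.2.1⟩, ⟨H _ t8717.2.2.2.1, H _ t8717.2.2.2.2.1⟩⟩⟩, ⟨⟨⟨H _ t8717.2.2.2.2.2.1, H _ t8717.2.2.2.2.2.2.1⟩, ⟨H _ t8717.2.2.2.2.2.2.2, H _ t8725.1⟩⟩, ⟨⟨H _ t8725.2.1, H _ t8725.2.2.1⟩, ⟨H _ t8725.2.2.2.1, ⟨H _ t8725.2.2.2.2.1, H _ t8725.2.2.2.2.2.1⟩⟩⟩⟩⟩⟩⟩, ⟨⟨⟨⟨⟨⟨H _ t8725.2.2.2.2.2.2.1, H _ t8725.2.2.2.2.2.2.2⟩, ⟨H _ t8733.1, H _ t8733.2.1⟩⟩, ⟨⟨H _ t8733.2.2.1, H _ t8733.2.2.2.1⟩, ⟨H _ t8733.2.2.2.2.1, H _ t8733.2.2.2.2.2.1⟩⟩⟩, ⟨⟨⟨H _ t8733.2.2.2.2.2.2.1, H _ t8733.2.2.2.2.2.2.2⟩,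 ⟨H _ t8741.1, H _ t8741.2.1⟩⟩, ⟨⟨H _ t8741.2.2.1, H _ t8741.2.2.2.1⟩, ⟨H _ t8741.2.2.2.2.1, ⟨H _ t8741.2.2.2.2.2.1, H _ t8741.2.2.2.2.2.2.1⟩⟩⟩⟩⟩, ⟨⟨⟨⟨H _ t8741.2.2.2.2.2.2.2, H _ t8749.1⟩, ⟨H _ t8749.2.1, H _ t8749.2.2.1⟩⟩, ⟨⟨H _ t8749.2.2.2.1, H _ t8749.2.2.2.2.1⟩, ⟨H _ t8749.2.2.2.2.2.1, H _ t8749.2.2.2.2.2.2.1⟩⟩⟩, ⟨⟨⟨H _ t8749.2.2.2.2.2.2.2, H _ t8757.1⟩, ⟨H _ t8757.2.1, H _ t8757.2.2.1⟩⟩, ⟨⟨H _ t8757.2.2.2.1, H _ t8757.2.2.2.2.1⟩, ⟨H _ t8757.2.2.2.2.2.1, ⟨H _ t8757.2.2.2.2.2.2.1, H _ t8757.2.2.2.2.2.2.2⟩⟩⟩⟩⟩⟩, ⟨⟨⟨⟨⟨H _ t8765.1, H _ t8765.2.1⟩, ⟨H _ t8765.2.2.1, H _ t8765.2.2.2.1⟩⟩, ⟨⟨H _ t8765.2.2.2.2.1, H _ t8765.2.2.2.2.2.1⟩, ⟨H _ t8765.2.2.2.2.2.2.1, H _ t8765.2.2.2.2.2.2.2⟩⟩⟩, ⟨⟨⟨H _ t8773.1, H _ t8773.2.1⟩, ⟨H _ t8773.2.2.1, H _ t8773.2.2.2.1⟩⟩, ⟨⟨H _ t8773.2.2.2.2.1, H _ t8773.2.2.2.2.2.1⟩, ⟨H _ t8773.2.2.2.2.2.2.1, ⟨H _ t8773.2.2.2.2.2.2.2, H _ t8781.1⟩⟩⟩⟩⟩, ⟨⟨⟨⟨H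 _ t8781.2.1, H _ t8781.2.2.1⟩, ⟨H _ t8781.2.2.2.1, H _ t8781.2.2.2.2.1⟩⟩, ⟨⟨H _ t8781.2.2.2.2.2.1, H _ t8781.2.2.2.2.2.2.1⟩, ⟨H _ t8781.2.2.2.2.2.2.2, ⟨H _ t8789.1, H _ t8789.2.1⟩⟩⟩⟩, ⟨⟨⟨H _ t8789.2.2.1, H _ t8789.2.2.2.1⟩, ⟨H _ t8789.2.2.2.2.1, H _ t8789.2.2.2.2.2.1⟩⟩, ⟨⟨H _ t8789.2.2.2.2.2.2.1, H _ t8789.2.2.2.2.2.2.2⟩, ⟨H _ t8797.1, ⟨H _ t8797.2.1, H _ t8797.2.2.1⟩⟩⟩⟩⟩⟩⟩⟩, ⟨⟨⟨⟨⟨⟨⟨H _ t8797.2.2.2.1, H _ t8797.2.2.2.2.1⟩, ⟨H _ t8797.2.2.2.2.2.1, H _ t8797.2.2.2.2.2.2.1⟩⟩, ⟨⟨H _ t8797.2.2.2.2.2.2.2, H _ t8805.1⟩, ⟨H _ t8805.2.1, H _ t8805.2.2.1⟩⟩⟩, ⟨⟨⟨H _ t8805.2.2.2.1, H _ t8805.2.2.2.2.1⟩, ⟨H _ t8805.2.2.2.2.2.1, H _ t8805.2.2.2.2.2.2.1⟩⟩, ⟨⟨H _ t8805.2.2.2.2.2.2.2, H _ t8813.1⟩, ⟨H _ t8813.2.1, ⟨H _ t8813.2.2.1, H _ t8813.2.2.2.1⟩⟩⟩⟩⟩, ⟨⟨⟨⟨H _ t8813.2.2.2.2.1, H _ t8813.2.2.2.2.2.1⟩, ⟨H _ t8813.2.2.2.2.2.2.1, H _ t8813.2.2.2.2.2.2.2⟩⟩, ⟨⟨H _ t8821.1, H _ t8821.2.1⟩, ⟨H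 _ t8821.2.2.1, H _ t8821.2.2.2.1⟩⟩⟩, ⟨⟨⟨H _ t8821.2.2.2.2.1, H _ t8821.2.2.2.2.2.1⟩, ⟨H _ t8821.2.2.2.2.2.2.1, H _ t8821.2.2.2.2.2.2.2⟩⟩, ⟨⟨H _ t8829.1, H _ t8829.2.1⟩, ⟨H _ t8829.2.2.1, ⟨H _ t8829.2.2.2.1, H _ t8829.2.2.2.2.1⟩⟩⟩⟩⟩⟩, ⟨⟨⟨⟨⟨H _ t8829.2.2.2.2.2.1, H _ t8829.2.2.2.2.2.2.1⟩, ⟨H _ t8829.2.2.2.2.2.2.2, H _ t8837.1⟩⟩, ⟨⟨H _ t8837.2.1, H _ t8837.2.2.1⟩, ⟨H _ t8837.2.2.2.1, H _ t8837.2.2.2.2.1⟩⟩⟩, ⟨⟨⟨H _ t8837.2.2.2.2.2.1, H _ t8837.2.2.2.2.2.2.1⟩, ⟨H _ t8837.2.2.2.2.2.2.2, H _ t8845.1⟩⟩, ⟨⟨H _ t8845.2.1, H _ t8845.2.2.1⟩, ⟨H _ t8845.2.2.2.1, ⟨H _ t8845.2.2.2.2.1, H _ t8845.2.2.2.2.2.1⟩⟩⟩⟩⟩, ⟨⟨⟨⟨H _ t8845.2.2.2.2.2.2.1, H _ t8845.2.2.2.2.2.2.2⟩, ⟨H _ t8853.1, H _ t8853.2.1⟩⟩, ⟨⟨H _ t8853.2.2.1, H _ t8853.2.2.2.1⟩, ⟨H _ t8853.2.2.2.2.1, H _ t8853.2.2.2.2.2.1⟩⟩⟩, ⟨⟨⟨H _ t8853.2.2.2.2.2.2.1, H _ t8853.2.2.2.2.2.2.2⟩, ⟨H _ t8861.1, H _ t8861.2.1⟩⟩, ⟨⟨H _ t8861.2.2.1,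 H _ t8861.2.2.2.1⟩, ⟨H _ t8861.2.2.2.2.1, ⟨H _ t8861.2.2.2.2.2.1, H _ t8861.2.2.2.2.2.2.1⟩⟩⟩⟩⟩⟩⟩, ⟨⟨⟨⟨⟨⟨H _ t8861.2.2.2.2.2.2.2, H _ t8869.1⟩, ⟨H _ t8869.2.1, H _ t8869.2.2.1⟩⟩, ⟨⟨H _ t8869.2.2.2.1, H _ t8869.2.2.2.2.1⟩, ⟨H _ t8869.2.2.2.2.2.1, H _ t8869.2.2.2.2.2.2.1⟩⟩⟩, ⟨⟨⟨H _ t8869.2.2.2.2.2.2.2, H _ t8877.1⟩, ⟨H _ t8877.2.1, H _ t8877.2.2.1⟩⟩, ⟨⟨H _ t8877.2.2.2.1, H _ t8877.2.2.2.2.1⟩, ⟨H _ t8877.2.2.2.2.2.1, ⟨H _ t8877.2.2.2.2.2.2.1, H _ t8877.2.2.2.2.2.2.2⟩⟩⟩⟩⟩, ⟨⟨⟨⟨H _ t8885.1, H _ t8885.2.1⟩, ⟨H _ t8885.2.2.1, H _ t8885.2.2.2.1⟩⟩, ⟨⟨H _ t8885.2.2.2.2.1, H _ t8885.2.2.2.2.2.1⟩, ⟨H _ t8885.2.2.2.2.2.2.1, H _ t8885.2.2.2.2.2.2.2⟩⟩⟩, ⟨⟨⟨H _ t8893.1, H _ t8893.2.1⟩, ⟨H _ t8893.2.2.1, H _ t8893.2.2.2.1⟩⟩, ⟨⟨H _ t8893.2.2.2.2.1, H _ t8893.2.2.2.2.2.1⟩, ⟨H _ t8893.2.2.2.2.2.2.1, ⟨H _ t8893.2.2.2.2.2.2.2, H _ t8901.1⟩⟩⟩⟩⟩⟩, ⟨⟨⟨⟨⟨H _ t8901.2.1, H _ t8901.2.2.1⟩, ⟨H _ t8901.2.2.2.1,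 H _ t8901.2.2.2.2.1⟩⟩, ⟨⟨H _ t8901.2.2.2.2.2.1, H _ t8901.2.2.2.2.2.2.1⟩, ⟨H _ t8901.2.2.2.2.2.2.2, H _ t8909.1⟩⟩⟩, ⟨⟨⟨H _ t8909.2.1, H _ t8909.2.2.1⟩, ⟨H _ t8909.2.2.2.1, H _ t8909.2.2.2.2.1⟩⟩, ⟨⟨H _ t8909.2.2.2.2.2.1, H _ t8909.2.2.2.2.2.2.1⟩, ⟨H _ t8909.2.2.2.2.2.2.2, ⟨H _ t8917.1, H _ t8917.2.1⟩⟩⟩⟩⟩, ⟨⟨⟨⟨H _ t8917.2.2.1, H _ t8917.2.2.2.1⟩, ⟨H _ t8917.2.2.2.2.1, H _ t8917.2.2.2.2.2.1⟩⟩, ⟨⟨H _ t8917.2.2.2.2.2.2.1, H _ t8917.2.2.2.2.2.2.2⟩, ⟨H _ t8925.1, ⟨H _ t8925.2.1, H _ t8925.2.2.1⟩⟩⟩⟩, ⟨⟨⟨H _ t8925.2.2.2.1, H _ t8925.2.2.2.2.1⟩, ⟨H _ t8925.2.2.2.2.2.1, H _ t8925.2.2.2.2.2.2.1⟩⟩, ⟨⟨H _ t8925.2.2.2.2.2.2.2, H _ t8933.1⟩, ⟨H _ t8933.2.1, ⟨H _ t8933.2.2.1, H _ t8933.2.2.2⟩⟩⟩⟩⟩⟩⟩⟩⟩⟩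

end Pool.Agent.MP_c853c5_nt.X.C4950
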