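import Pool.Agent.MP_c853c5_nt.X.C4950.Env
import Pool.Agent.MP_c853c5_nt.X.C4950.D3

set_option autoImplicit false
set_option maxRecDepth 8192
set_option linter.all false

namespace Pool.Agent.MP_c853c5_nt.X.C4950

open Pool.Agent.MP_c853c5_nt.X

def t8937 : allY (E.wth (lkp [])) l8937 = true ∧
    allY (E.wth (lkp [])) l8938 = true ∧
    allY (E.wth (lkp [])) l8939 = true ∧
    allY (E.wth (lkp [])) l8940 = true ∧
    allY (E.wth (lkp [])) l8941 = true ∧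
    allY (E.wth (lkp [])) l8942 = true ∧
    allY (E.wth (lkp [])) l8943 = true ∧
    allY (E.wth (lkp [])) l8944 = true :=
  ⟨by decide +kernel, by decide +kernel, by decide +kernel, by decide +kernel, by decide +kernel, by decide +kernel, by decide +kernel, by decide +kernel⟩

def t8945 : allY (E.wth (lkp [])) l8945 = true ∧
    allY (E.wth (lkp [])) l8946 = true ∧
    allY (E.wth (lkp [])) l8947 = true ∧
    allY (E.wth (lkp [])) l8948 = true ∧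
    allY (E.wth (lkp [])) l8949 = true ∧
    allY (E.wth (lkp [])) l8950 = true ∧
    allY (E.wth (lkp [])) l8951 = true ∧
    allY (E.wth (lkp [])) l8952 = true :=
  ⟨by decide +kernel, by decide +kernel, by decide +kernel, by decide +kernel, by decide +kernel, by decide +kernel, by decide +kernel, by decide +kernel⟩

def t8953 : allY (E.wth (lkp [])) l8953 = true ∧
    allY (E.wth (lkp [])) l8954 = true ∧
    allY (E.wth (lkp [])) l8955 = true ∧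
    allY (E.wth (lkp [])) l8956 = true ∧
    allY (E.wth (lkp [])) l8957 = true ∧
    allY (E.wth (lkp [])) l8958 = true ∧
    allY (E.wth (lkp [])) l8959 = true ∧
    allY (E.wth (lkp [])) l8960 = true :=
  ⟨by decide +kernel, by decide +kernel, by decide +kernel, by decide +kernel, by decide +kernel, by decide +kernel, by decide +kernel, by decide +kernel⟩

def t8961 : allY (E.wth (lkp [])) l8961 = true ∧
    allY (E.wth (lkp [])) l8962 = true ∧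
    allY (E.wth (lkp [])) l8963 = true ∧
    allY (E.wth (lkp [])) l8964 = true ∧
    allY (E.wth (lkp [])) l8965 = true ∧
    allY (E.wth (lkp [])) l8966 = true ∧
    allY (E.wth (lkp [])) l8967 = true ∧
    allY (E.wth (lkp [])) l8968 = true :=
  ⟨by decide +kernel, by decide +kernel, by decide +kernel, by decide +kernel, by decide +kernel, by decide +kernel, by decide +kernel, by decide +kernel⟩

def t8969 : allY (E.wth (lkp [])) l8969 = true ∧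
    allY (E.wth (lkp [])) l8970 = true ∧
    allY (E.wth (lkp [])) l8971 = true ∧
    allY (E.wth (lkp [])) l8972 = true ∧
    allY (E.wth (lkp [])) l8973 = true ∧
    allY (E.wth (lkp [])) l8974 = true ∧
    allY (E.wth (lkp [])) l8975 = true ∧
    allY (E.wth (lkp [])) l8976 = true :=
  ⟨by decide +kernel, by decide +kernel, by decide +kernel, by decide +kernel, by decide +kernel, by decide +kernel, by decide +kernel, by decide +kernel⟩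

def t8977 : allY (E.wth (lkp [])) l8977 = true ∧
    allY (E.wth (lkp [])) l8978 = true ∧
    allY (E.wth (lkp [])) l8979 = true ∧
    allY (E.wth (lkp [])) l8980 = true ∧
    allY (E.wth (lkp [])) l8981 = true ∧
    allY (E.wth (lkp [])) l8982 = true ∧
    allY (E.wth (lkp [])) l8983 = true ∧
    allY (E.wth (lkp [])) l8984 = true :=
  ⟨by decide +kernel, by decide +kernel, by decide +kernel, by decide +kernel, by decide +kernel, by decide +kernel, by decide +kernel, by decide +kernel⟩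

def t8985 : allY (E.wth (lkp [])) l8985 = true ∧
    allY (E.wth (lkp [])) l8986 = true ∧
    allY (E.wth (lkp [])) l8987 = true ∧
    allY (E.wth (lkp [])) l8988 = true ∧
    allY (E.wth (lkp [])) l8989 = true ∧
    allY (E.wth (lkp [])) l8990 = true ∧
    allY (E.wth (lkp [])) l8991 = true ∧
    allY (E.wth (lkp [])) l8992 = true :=
  ⟨by decide +kernel, by decide +kernel, by decide +kernel, by decide +kernel, by decide +kernel, by decide +kernel, by decide +kernel, by decide +kernel⟩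

def t8993 : allY (E.wth (lkp [])) l8993 = true ∧
    allY (E.wth (lkp [])) l8994 = true ∧
    allY (E.wth (lkp [])) l8995 = true ∧
    allY (E.wth (lkp [])) l8996 = true ∧
    allY (E.wth (lkp [])) l8997 = true ∧
    allY (E.wth (lkp [])) l8998 = true ∧
    allY (E.wth (lkp [])) l8999 = true ∧
    allY (E.wth (lkp [])) l9000 = true :=
  ⟨by decide +kernel, by decide +kernel, by decide +kernel, by decide +kernel, by decide +kernel, by decide +kernel, by decide +kernel, by decide +kernel⟩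

def t9001 : allY (E.wth (lkp [])) l9001 = true ∧
    allY (E.wth (lkp [])) l9002 = true ∧
    allY (E.wth (lkp [])) l9003 = true ∧
    allY (E.wth (lkp [])) l9004 = true ∧
    allY (E.wth (lkp [])) l9005 = true ∧
    allY (E.wth (lkp [])) l9006 = true ∧
    allY (E.wth (lkp [])) l9007 = true ∧
    allY (E.wth (lkp [])) l9008 = true :=
  ⟨by decide +kernel, by decide +kernel, by decide +kernel, by decide +kernel, by decide +kernel, by decide +kernel, by decide +kernel, by decide +kernel⟩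

def t9009 : allY (E.wth (lkp [])) l9009 = true ∧
    allY (E.wth (lkp [])) l9010 = true ∧
    allY (E.wth (lkp [])) l9011 = true ∧
    allY (E.wth (lkp [])) l9012 = true ∧
    allY (E.wth (lkp [])) l9013 = true ∧
    allY (E.wth (lkp [])) l9014 = true ∧
    allY (E.wth (lkp [])) l9015 = true ∧
    allY (E.wth (lkp [])) l9016 = true :=
  ⟨by decide +kernel, by decide +kernel, by decide +kernel, by decide +kernel, by decide +kernel, by decide +kernel, by decide +kernel, by decide +kernel⟩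

def t9017 : allY (E.wth (lkp [])) l9017 = true ∧
    allY (E.wth (lkp [])) l9018 = true ∧
    allY (E.wth (lkp [])) l9019 = true ∧
    allY (E.wth (lkp [])) l9020 = true ∧
    allY (E.wth (lkp [])) l9021 = true ∧
    allY (E.wth (lkp [])) l9022 = true ∧
    allY (E.wth (lkp [])) l9023 = true ∧
    allY (E.wth (lkp [])) l9024 = true :=
  ⟨by decide +kernel, by decide +kernel, by decide +kernel, by decide +kernel, by decide +kernel, by decide +kernel, by decide +kernel, by decide +kernel⟩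

def t9025 : allY (E.wth (lkp [])) l9025 = true ∧
    allY (E.wth (lkp [])) l9026 = true ∧
    allY (E.wth (lkp [])) l9027 = true ∧
    allY (E.wth (lkp [])) l9028 = true ∧
    allY (E.wth (lkp [])) l9029 = true ∧
    allY (E.wth (lkp [])) l9030 = true ∧
    allY (E.wth (lkp [])) l9031 = true ∧
    allY (E.wth (lkp [])) l9032 = true :=
  ⟨by decide +kernel, by decide +kernel, by decide +kernel, by decide +kernel, by decide +kernel, by decide +kernel, by decide +kernel, by decide +kernel⟩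

def t9033 : allY (E.wth (lkp [])) l9033 = true ∧
    allY (E.wth (lkp [])) l9034 = true ∧
    allY (E.wth (lkp [])) l9035 = true ∧
    allY (E.wth (lkp [])) l9036 = true ∧
    allY (E.wth (lkp [])) l9037 = true ∧
    allY (E.wth (lkp [])) l9038 = true ∧
    allY (E.wth (lkp [])) l9039 = true ∧
    allY (E.wth (lkp [])) l9040 = true :=
  ⟨by decide +kernel, by decide +kernel, by decide +kernel, by decide +kernel, by decide +kernel, by decide +kernel, by decide +kernel, by decide +kernel⟩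

def t9041 : allY (E.wth (lkp [])) l9041 = true ∧
    allY (E.wth (lkp [])) l9042 = true ∧
    allY (E.wth (lkp [])) l9043 = true ∧
    allY (E.wth (lkp [])) l9044 = true ∧
    allY (E.wth (lkp [])) l9045 = true ∧
    allY (E.wth (lkp [])) l9046 = true ∧
    allY (E.wth (lkp [])) l9047 = true ∧
    allY (E.wth (lkp [])) l9048 = true :=
  ⟨by decide +kernel, by decide +kernel, by decide +kernel, by decide +kernel, by decide +kernel, by decide +kernel, by decide +kernel, by decide +kernel⟩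

def t9049 : allY (E.wth (lkp [])) l9049 = true ∧
    allY (E.wth (lkp [])) l9050 = true ∧
    allY (E.wth (lkp [])) l9051 = true ∧
    allY (E.wth (lkp [])) l9052 = true ∧
    allY (E.wth (lkp [])) l9053 = true ∧
    allY (E.wth (lkp [])) l9054 = true ∧
    allY (E.wth (lkp [])) l9055 = true ∧
    allY (E.wth (lkp [])) l9056 = true :=
  ⟨by decide +kernel, by decide +kernel, by decide +kernel, by decide +kernel, by decide +kernel, by decide +kernel, by decide +kernel, by decide +kernel⟩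

def t9057 : allY (E.wth (lkp [])) l9057 = true ∧
    allY (E.wth (lkp [])) l9058 = true ∧
    allY (E.wth (lkp [])) l9059 = true ∧
    allY (E.wth (lkp [])) l9060 = true ∧
    allY (E.wth (lkp [])) l9061 = true ∧
    allY (E.wth (lkp [])) l9062 = true ∧
    allY (E.wth (lkp [])) l9063 = true ∧
    allY (E.wth (lkp [])) l9064 = true :=
  ⟨by decide +kernel, by decide +kernel, by decide +kernel, by decide +kernel, by decide +kernel, by decide +kernel, by decide +kernel, by decide +kernel⟩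

def t9065 : allY (E.wth (lkp [])) l9065 = true ∧
    allY (E.wth (lkp [])) l9066 = true ∧
    allY (E.wth (lkp [])) l9067 = true ∧
    allY (E.wth (lkp [])) l9068 = true ∧
    allY (E.wth (lkp [])) l9069 = true ∧
    allY (E.wth (lkp [])) l9070 = true ∧
    allY (E.wth (lkp [])) l9071 = true ∧
    allY (E.wth (lkp [])) l9072 = true :=
  ⟨by decide +kernel, by decide +kernel, by decide +kernel, by decide +kernel, by decide +kernel, by decide +kernel, by decide +kernel, by decide +kernel⟩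

def t9073 : allY (E.wth (lkp [])) l9073 = true ∧
    allY (E.wth (lkp [])) l9074 = true ∧
    allY (E.wth (lkp [])) l9075 = true ∧
    allY (E.wth (lkp [])) l9076 = true ∧
    allY (E.wth (lkp [])) l9077 = true ∧
    allY (E.wth (lkp [])) l9078 = true ∧
    allY (E.wth (lkp [])) l9079 = true ∧
    allY (E.wth (lkp [])) l9080 = true :=
  ⟨by decide +kernel, by decide +kernel, by decide +kernel, by decide +kernel, by decide +kernel, by decide +kernel, by decide +kernel, by decide +kernel⟩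

def t9081 : allY (E.wth (lkp [])) l9081 = true ∧
    allY (E.wth (lkp [])) l9082 = true ∧
    allY (E.wth (lkp [])) l9083 = true ∧
    allY (E.wth (lkp [])) l9084 = true ∧
    allY (E.wth (lkp [])) l9085 = true ∧
    allY (E.wth (lkp [])) l9086 = true ∧
    allY (E.wth (lkp [])) l9087 = true ∧
    allY (E.wth (lkp [])) l9088 = true :=
  ⟨by decide +kernel, by decide +kernel, by decide +kernel, by decide +kernel, by decide +kernel, by decide +kernel, by decide +kernel, by decide +kernel⟩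

def t9089 : allY (E.wth (lkp [])) l9089 = true ∧
    allY (E.wth (lkp [])) l9090 = true ∧
    allY (E.wth (lkp [])) l9091 = true ∧
    allY (E.wth (lkp [])) l9092 = true ∧
    allY (E.wth (lkp [])) l9093 = true ∧
    allY (E.wth (lkp [])) l9094 = true ∧
    allY (E.wth (lkp [])) l9095 = true ∧
    allY (E.wth (lkp [])) l9096 = true :=
  ⟨by decide +kernel, by decide +kernel, by decide +kernel, by decide +kernel, by decide +kernel, by decide +kernel, by decide +kernel, by decide +kernel⟩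

def t9097 : allY (E.wth (lkp [])) l9097 = true ∧
    allY (E.wth (lkp [])) l9098 = true ∧
    allY (E.wth (lkp [])) l9099 = true ∧
    allY (E.wth (lkp [])) l9100 = true ∧
    allY (E.wth (lkp [])) l9101 = true ∧
    allY (E.wth (lkp [])) l9102 = true ∧
    allY (E.wth (lkp [])) l9103 = true ∧
    allY (E.wth (lkp [])) l9104 = true :=
  ⟨by decide +kernel, by decide +kernel, by decide +kernel, by decide +kernel, by decide +kernel, by decide +kernel, by decide +kernel, by decide +kernel⟩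

def t9105 : allY (E.wth (lkp [])) l9105 = true ∧
    allY (E.wth (lkp [])) l9106 = true ∧
    allY (E.wth (lkp [])) l9107 = true ∧
    allY (E.wth (lkp [])) l9108 = true ∧
    allY (E.wth (lkp [])) l9109 = true ∧
    allY (E.wth (lkp [])) l9110 = true ∧
    allY (E.wth (lkp [])) l9111 = true ∧
    allY (E.wth (lkp [])) l9112 = true :=
  ⟨by decide +kernel, by decide +kernel, by decide +kernel, by decide +kernel, by decide +kernel, by decide +kernel, by decide +kernel, by decide +kernel⟩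

def t9113 : allY (E.wth (lkp [])) l9113 = true ∧
    allY (E.wth (lkp [])) l9114 = true ∧
    allY (E.wth (lkp [])) l9115 = true ∧
    allY (E.wth (lkp [])) l9116 = true ∧
    allY (E.wth (lkp [])) l9117 = true ∧
    allY (E.wth (lkp [])) l9118 = true ∧
    allY (E.wth (lkp [])) l9119 = true ∧
    allY (E.wth (lkp [])) l9120 = true :=
  ⟨by decide +kernel, by decide +kernel, by decide +kernel, by decide +kernel, by decide +kernel, by decide +kernel, by decide +kernel, by decide +kernel⟩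

def t9121 : allY (E.wth (lkp [])) l9121 = true ∧
    allY (E.wth (lkp [])) l9122 = true ∧
    allY (E.wth (lkp [])) l9123 = true ∧
    allY (E.wth (lkp [])) l9124 = true ∧
    allY (E.wth (lkp [])) l9125 = true ∧
    allY (E.wth (lkp [])) l9126 = true ∧
    allY (E.wth (lkp [])) l9127 = true ∧
    allY (E.wth (lkp [])) l9128 = true :=
  ⟨by decide +kernel, by decide +kernel, by decide +kernel, by decide +kernel, by decide +kernel, by decide +kernel, by decide +kernel, by decide +kernel⟩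

def t9129 : allY (E.wth (lkp [])) l9129 = true ∧
    allY (E.wth (lkp [])) l9130 = true ∧
    allY (E.wth (lkp [])) l9131 = true ∧
    allY (E.wth (lkp [])) l9132 = true ∧
    allY (E.wth (lkp [])) l9133 = true ∧
    allY (E.wth (lkp [])) l9134 = true ∧
    allY (E.wth (lkp [])) l9135 = true ∧
    allY (E.wth (lkp [])) l9136 = true :=
  ⟨by decide +kernel, by decide +kernel, by decide +kernel, by decide +kernel, by decide +kernel, by decide +kernel, by decide +kernel, by decide +kernel⟩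

def t9137 : allY (E.wth (lkp [])) l9137 = true ∧
    allY (E.wth (lkp [])) l9138 = true ∧
    allY (E.wth (lkp [])) l9139 = true ∧
    allY (E.wth (lkp [])) l9140 = true ∧
    allY (E.wth (lkp [])) l9141 = true ∧
    allY (E.wth (lkp [])) l9142 = true ∧
    allY (E.wth (lkp [])) l9143 = true ∧
    allY (E.wth (lkp [])) l9144 = true :=
  ⟨by decide +kernel, by decide +kernel, by decide +kernel, by decide +kernel, by decide +kernel, by decide +kernel, by decide +kernel, by decide +kernel⟩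

def t9145 : allY (E.wth (lkp [])) l9145 = true ∧
    allY (E.wth (lkp [])) l9146 = true ∧
    allY (E.wth (lkp [])) l9147 = true ∧
    allY (E.wth (lkp [])) l9148 = true ∧
    allY (E.wth (lkp [])) l9149 = true ∧
    allY (E.wth (lkp [])) l9150 = true ∧
    allY (E.wth (lkp [])) l9151 = true ∧
    allY (E.wth (lkp [])) l9152 = true :=
  ⟨by decide +kernel, by decide +kernel, by decide +kernel, by decide +kernel, by decide +kernel, by decide +kernel, by decide +kernel, by decide +kernel⟩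

def t9153 : allY (E.wth (lkp [])) l9153 = true ∧
    allY (E.wth (lkp [])) l9154 = true ∧
    allY (E.wth (lkp [])) l9155 = true ∧
    allY (E.wth (lkp [])) l9156 = true ∧
    allY (E.wth (lkp [])) l9157 = true ∧
    allY (E.wth (lkp [])) l9158 = true ∧
    allY (E.wth (lkp [])) l9159 = true ∧
    allY (E.wth (lkp [])) l9160 = true :=
  ⟨by decide +kernel, by decide +kernel, by decide +kernel, by decide +kernel, by decide +kernel, by decide +kernel, by decide +kernel, by decide +kernel⟩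

def t9161 : allY (E.wth (lkp [])) l9161 = true ∧
    allY (E.wth (lkp [])) l9162 = true ∧
    allY (E.wth (lkp [])) l9163 = true ∧
    allY (E.wth (lkp [])) l9164 = true ∧
    allY (E.wth (lkp [])) l9165 = true ∧
    allY (E.wth (lkp [])) l9166 = true ∧
    allY (E.wth (lkp [])) l9167 = true ∧
    allY (E.wth (lkp [])) l9168 = true :=
  ⟨by decide +kernel, by decide +kernel, by decide +kernel, by decide +kernel, by decide +kernel, by decide +kernel, by decide +kernel, by decide +kernel⟩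

def t9169 : allY (E.wth (lkp [])) l9169 = true ∧
    allY (E.wth (lkp [])) l9170 = true ∧
    allY (E.wth (lkp [])) l9171 = true ∧
    allY (E.wth (lkp [])) l9172 = true ∧
    allY (E.wth (lkp [])) l9173 = true ∧
    allY (E.wth (lkp [])) l9174 = true ∧
    allY (E.wth (lkp [])) l9175 = true ∧
    allY (E.wth (lkp [])) l9176 = true :=
  ⟨by decide +kernel, by decide +kernel, by decide +kernel, by decide +kernel, by decide +kernel, by decide +kernel, by decide +kernel, by decide +kernel⟩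

def t9177 : allY (E.wth (lkp [])) l9177 = true ∧
    allY (E.wth (lkp [])) l9178 = true ∧
    allY (E.wth (lkp [])) l9179 = true ∧
    allY (E.wth (lkp [])) l9180 = true ∧
    allY (E.wth (lkp [])) l9181 = true ∧
    allY (E.wth (lkp [])) l9182 = true ∧
    allY (E.wth (lkp [])) l9183 = true ∧
    allY (E.wth (lkp [])) l9184 = true :=
  ⟨by decide +kernel, by decide +kernel, by decide +kernel, by decide +kernel, by decide +kernel, by decide +kernel, by decide +kernel, by decide +kernel⟩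

def t9185 : allY (E.wth (lkp [])) l9185 = true ∧
    allY (E.wth (lkp [])) l9186 = true ∧
    allY (E.wth (lkp [])) l9187 = true ∧
    allY (E.wth (lkp [])) l9188 = true ∧
    allY (E.wth (lkp [])) l9189 = true ∧
    allY (E.wth (lkp [])) l9190 = true ∧
    allY (E.wth (lkp [])) l9191 = true ∧
    allY (E.wth (lkp [])) l9192 = true :=
  ⟨by decide +kernel, by decide +kernel, by decide +kernel, by decide +kernel, by decide +kernel, by decide +kernel, by decide +kernel, by decide +kernel⟩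

def t9193 : allY (E.wth (lkp [])) l9193 = true ∧
    allY (E.wth (lkp [])) l9194 = true ∧
    allY (E.wth (lkp [])) l9195 = true ∧
    allY (E.wth (lkp [])) l9196 = true ∧
    allY (E.wth (lkp [])) l9197 = true ∧
    allY (E.wth (lkp [])) l9198 = true ∧
    allY (E.wth (lkp [])) l9199 = true ∧
    allY (E.wth (lkp [])) l9200 = true :=
  ⟨by decide +kernel, by decide +kernel, by decide +kernel, by decide +kernel, by decide +kernel, by decide +kernel, by decide +kernel, by decide +kernel⟩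

def t9201 : allY (E.wth (lkp [])) l9201 = true ∧
    allY (E.wth (lkp [])) l9202 = true ∧
    allY (E.wth (lkp [])) l9203 = true ∧
    allY (E.wth (lkp [])) l9204 = true ∧
    allY (E.wth (lkp [])) l9205 = true ∧
    allY (E.wth (lkp [])) l9206 = true ∧
    allY (E.wth (lkp [])) l9207 = true ∧
    allY (E.wth (lkp [])) l9208 = true :=
  ⟨by decide +kernel, by decide +kernel, by decide +kernel, by decide +kernel, by decide +kernel, by decide +kernel, by decide +kernel, by decide +kernel⟩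

def t9209 : allY (E.wth (lkp [])) l9209 = true ∧
    allY (E.wth (lkp [])) l9210 = true ∧
    allY (E.wth (lkp [])) l9211 = true ∧
    allY (E.wth (lkp [])) l9212 = true ∧
    allY (E.wth (lkp [])) l9213 = true ∧
    allY (E.wth (lkp [])) l9214 = true ∧
    allY (E.wth (lkp [])) l9215 = true ∧
    allY (E.wth (lkp [])) l9216 = true :=
  ⟨by decide +kernel, by decide +kernel, by decide +kernel, by decide +kernel, by decide +kernel, by decide +kernel, by decide +kernel, by decide +kernel⟩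

def t9217 : allY (E.wth (lkp [])) l9217 = true ∧
    allY (E.wth (lkp [])) l9218 = true ∧
    allY (E.wth (lkp [])) l9219 = true ∧
    allY (E.wth (lkp [])) l9220 = true ∧
    allY (E.wth (lkp [])) l9221 = true ∧
    allY (E.wth (lkp [])) l9222 = true ∧
    allY (E.wth (lkp [])) l9223 = true ∧
    allY (E.wth (lkp [])) l9224 = true :=
  ⟨by decide +kernel, by decide +kernel, by decide +kernel, by decide +kernel, by decide +kernel, by decide +kernel, by decide +kernel, by decide +kernel⟩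

def t9225 : allY (E.wth (lkp [])) l9225 = true ∧
    allY (E.wth (lkp [])) l9226 = true ∧
    allY (E.wth (lkp [])) l9227 = true ∧
    allY (E.wth (lkp [])) l9228 = true ∧
    allY (E.wth (lkp [])) l9229 = true ∧
    allY (E.wth (lkp [])) l9230 = true ∧
    allY (E.wth (lkp [])) l9231 = true ∧
    allY (E.wth (lkp [])) l9232 = true :=
  ⟨by decide +kernel, by decide +kernel, by decide +kernel, by decide +kernel, by decide +kernel, by decide +kernel, by decide +kernel, by decide +kernel⟩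

def t9233 : allY (E.wth (lkp [])) l9233 = true ∧
    allY (E.wth (lkp [])) l9234 = true ∧
    allY (E.wth (lkp [])) l9235 = true ∧
    allY (E.wth (lkp [])) l9236 = true ∧
    allY (E.wth (lkp [])) l9237 = true ∧
    allY (E.wth (lkp [])) l9238 = true ∧
    allY (E.wth (lkp [])) l9239 = true ∧
    allY (E.wth (lkp [])) l9240 = true :=
  ⟨by decide +kernel, by decide +kernel, by decide +kernel, by decide +kernel, by decide +kernel, by decide +kernel, by decide +kernel, by decide +kernel⟩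

def t9241 : allY (E.wth (lkp [])) l9241 = true ∧
    allY (E.wth (lkp [])) l9242 = true ∧
    allY (E.wth (lkp [])) l9243 = true ∧
    allY (E.wth (lkp [])) l9244 = true ∧
    allY (E.wth (lkp [])) l9245 = true ∧
    allY (E.wth (lkp [])) l9246 = true ∧
    allY (E.wth (lkp [])) l9247 = true ∧
    allY (E.wth (lkp [])) l9248 = true :=
  ⟨by decide +kernel, by decide +kernel, by decide +kernel, by decide +kernel, by decide +kernel, by decide +kernel, by decide +kernel, by decide +kernel⟩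

def t9249 : allY (E.wth (lkp [])) l9249 = true ∧
    allY (E.wth (lkp [])) l9250 = true ∧
    allY (E.wth (lkp [])) l9251 = true ∧
    allY (E.wth (lkp [])) l9252 = true ∧
    allY (E.wth (lkp [])) l9253 = true ∧
    allY (E.wth (lkp [])) l9254 = true ∧
    allY (E.wth (lkp [])) l9255 = true ∧
    allY (E.wth (lkp [])) l9256 = true :=
  ⟨by decide +kernel, by decide +kernel, by decide +kernel, by decide +kernel, by decide +kernel, by decide +kernel, by decide +kernel, by decide +kernel⟩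

def t9257 : allY (E.wth (lkp [])) l9257 = true ∧
    allY (E.wth (lkp [])) l9258 = true ∧
    allY (E.wth (lkp [])) l9259 = true ∧
    allY (E.wth (lkp [])) l9260 = true ∧
    allY (E.wth (lkp [])) l9261 = true ∧
    allY (E.wth (lkp [])) l9262 = true ∧
    allY (E.wth (lkp [])) l9263 = true ∧
    allY (E.wth (lkp [])) l9264 = true :=
  ⟨by decide +kernel, by decide +kernel, by decide +kernel, by decide +kernel, by decide +kernel, by decide +kernel, by decide +kernel, by decide +kernel⟩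

def t9265 : allY (E.wth (lkp [])) l9265 = true ∧
    allY (E.wth (lkp [])) l9266 = true ∧
    allY (E.wth (lkp [])) l9267 = true ∧
    allY (E.wth (lkp [])) l9268 = true ∧
    allY (E.wth (lkp [])) l9269 = true ∧
    allY (E.wth (lkp [])) l9270 = true ∧
    allY (E.wth (lkp [])) l9271 = true ∧
    allY (E.wth (lkp [])) l9272 = true :=
  ⟨by decide +kernel, by decide +kernel, by decide +kernel, by decide +kernel, by decide +kernel, by decide +kernel, by decide +kernel, by decide +kernel⟩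

def t9273 : allY (E.wth (lkp [])) l9273 = true ∧
    allY (E.wth (lkp [])) l9274 = true ∧
    allY (E.wth (lkp [])) l9275 = true ∧
    allY (E.wth (lkp [])) l9276 = true ∧
    allY (E.wth (lkp [])) l9277 = true ∧
    allY (E.wth (lkp [])) l9278 = true ∧
    allY (E.wth (lkp [])) l9279 = true ∧
    allY (E.wth (lkp [])) l9280 = true :=
  ⟨by decide +kernel, by decide +kernel, by decide +kernel, by decide +kernel, by decide +kernel, by decide +kernel, by decide +kernel, by decide +kernel⟩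

def t9281 : allY (E.wth (lkp [])) l9281 = true ∧
    allY (E.wth (lkp [])) l9282 = true ∧
    allY (E.wth (lkp [])) l9283 = true ∧
    allY (E.wth (lkp [])) l9284 = true ∧
    allY (E.wth (lkp [])) l9285 = true ∧
    allY (E.wth (lkp [])) l9286 = true ∧
    allY (E.wth (lkp [])) l9287 = true ∧
    allY (E.wth (lkp [])) l9288 = true :=
  ⟨by decide +kernel, by decide +kernel, by decide +kernel, by decide +kernel, by decide +kernel, by decide +kernel, by decide +kernel, by decide +kernel⟩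

def t9289 : allY (E.wth (lkp [])) l9289 = true ∧
    allY (E.wth (lkp [])) l9290 = true ∧
    allY (E.wth (lkp [])) l9291 = true ∧
    allY (E.wth (lkp [])) l9292 = true ∧
    allY (E.wth (lkp [])) l9293 = true ∧
    allY (E.wth (lkp [])) l9294 = true ∧
    allY (E.wth (lkp [])) l9295 = true ∧
    allY (E.wth (lkp [])) l9296 = true :=
  ⟨by decide +kernel, by decide +kernel, by decide +kernel, by decide +kernel, by decide +kernel, by decide +kernel, by decide +kernel, by decide +kernel⟩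

def t9297 : allY (E.wth (lkp [])) l9297 = true ∧
    allY (E.wth (lkp [])) l9298 = true ∧
    allY (E.wth (lkp [])) l9299 = true ∧
    allY (E.wth (lkp [])) l9300 = true ∧
    allY (E.wth (lkp [])) l9301 = true ∧
    allY (E.wth (lkp [])) l9302 = true ∧
    allY (E.wth (lkp [])) l9303 = true ∧
    allY (E.wth (lkp [])) l9304 = true :=
  ⟨by decide +kernel, by decide +kernel, by decide +kernel, by decide +kernel, by decide +kernel, by decide +kernel, by decide +kernel, by decide +kernel⟩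

def t9305 : allY (E.wth (lkp [])) l9305 = true ∧
    allY (E.wth (lkp [])) l9306 = true ∧
    allY (E.wth (lkp [])) l9307 = true ∧
    allY (E.wth (lkp [])) l9308 = true ∧
    allY (E.wth (lkp [])) l9309 = true ∧
    allY (E.wth (lkp [])) l9310 = true ∧
    allY (E.wth (lkp [])) l9311 = true ∧
    allY (E.wth (lkp [])) l9312 = true :=
  ⟨by decide +kernel, by decide +kernel, by decide +kernel, by decide +kernel, by decide +kernel, by decide +kernel, by decide +kernel, by decide +kernel⟩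

def t9313 : allY (E.wth (lkp [])) l9313 = true ∧
    allY (E.wth (lkp [])) l9314 = true ∧
    allY (E.wth (lkp [])) l9315 = true ∧
    allY (E.wth (lkp [])) l9316 = true ∧
    allY (E.wth (lkp [])) l9317 = true ∧
    allY (E.wth (lkp [])) l9318 = true ∧
    allY (E.wth (lkp [])) l9319 = true ∧
    allY (E.wth (lkp [])) l9320 = true :=
  ⟨by decide +kernel, by decide +kernel, by decide +kernel, by decide +kernel, by decide +kernel, by decide +kernel, by decide +kernel, by decide +kernel⟩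

def t9321 : allY (E.wth (lkp [])) l9321 = true ∧
    allY (E.wth (lkp [])) l9322 = true ∧
    allY (E.wth (lkp [])) l9323 = true ∧
    allY (E.wth (lkp [])) l9324 = true ∧
    allY (E.wth (lkp [])) l9325 = true ∧
    allY (E.wth (lkp [])) l9326 = true ∧
    allY (E.wth (lkp [])) l9327 = true ∧
    allY (E.wth (lkp [])) l9328 = true :=
  ⟨by decide +kernel, by decide +kernel, by decide +kernel, by decide +kernel, by decide +kernel, by decide +kernel, by decide +kernel, by decide +kernel⟩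

def t9329 : allY (E.wth (lkp [])) l9329 = true ∧
    allY (E.wth (lkp [])) l9330 = true ∧
    allY (E.wth (lkp [])) l9331 = true ∧
    allY (E.wth (lkp [])) l9332 = true ∧
    allY (E.wth (lkp [])) l9333 = true ∧
    allY (E.wth (lkp [])) l9334 = true ∧
    allY (E.wth (lkp [])) l9335 = true ∧
    allY (E.wth (lkp [])) l9336 = true :=
  ⟨by decide +kernel, by decide +kernel, by decide +kernel, by decide +kernel, by decide +kernel, by decide +kernel, by decide +kernel, by decide +kernel⟩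

def t9337 : allY (E.wth (lkp [])) l9337 = true ∧
    allY (E.wth (lkp [])) l9338 = true ∧
    allY (E.wth (lkp [])) l9339 = true ∧
    allY (E.wth (lkp [])) l9340 = true ∧
    allY (E.wth (lkp [])) l9341 = true ∧
    allY (E.wth (lkp [])) l9342 = true ∧
    allY (E.wth (lkp [])) l9343 = true ∧
    allY (E.wth (lkp [])) l9344 = true :=
  ⟨by decide +kernel, by decide +kernel, by decide +kernel, by decide +kernel, by decide +kernel, by decide +kernel, by decide +kernel, by decide +kernel⟩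

def t9345 : allY (E.wth (lkp [])) l9345 = true ∧
    allY (E.wth (lkp [])) l9346 = true ∧
    allY (E.wth (lkp [])) l9347 = true ∧
    allY (E.wth (lkp [])) l9348 = true ∧
    allY (E.wth (lkp [])) l9349 = true ∧
    allY (E.wth (lkp [])) l9350 = true ∧
    allY (E.wth (lkp [])) l9351 = true ∧
    allY (E.wth (lkp [])) l9352 = true :=
  ⟨by decide +kernel, by decide +kernel, by decide +kernel, by decide +kernel, by decide +kernel, by decide +kernel, by decide +kernel, by decide +kernel⟩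

def t9353 : allY (E.wth (lkp [])) l9353 = true ∧
    allY (E.wth (lkp [])) l9354 = true ∧
    allY (E.wth (lkp [])) l9355 = true ∧
    allY (E.wth (lkp [])) l9356 = true ∧
    allY (E.wth (lkp [])) l9357 = true ∧
    allY (E.wth (lkp [])) l9358 = true ∧
    allY (E.wth (lkp [])) l9359 = true ∧
    allY (E.wth (lkp [])) l9360 = true :=
  ⟨by decide +kernel, by decide +kernel, by decide +kernel, by decide +kernel, by decide +kernel, by decide +kernel, by decide +kernel, by decide +kernel⟩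

def t9361 : allY (E.wth (lkp [])) l9361 = true ∧
    allY (E.wth (lkp [])) l9362 = true ∧
    allY (E.wth (lkp [])) l9363 = true ∧
    allY (E.wth (lkp [])) l9364 = true ∧
    allY (E.wth (lkp [])) l9365 = true ∧
    allY (E.wth (lkp [])) l9366 = true ∧
    allY (E.wth (lkp [])) l9367 = true ∧
    allY (E.wth (lkp [])) l9368 = true :=
  ⟨by decide +kernel, by decide +kernel, by decide +kernel, by decide +kernel, by decide +kernel, by decide +kernel, by decide +kernel, by decide +kernel⟩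

def t9369 : allY (E.wth (lkp [])) l9369 = true ∧
    allY (E.wth (lkp [])) l9370 = true ∧
    allY (E.wth (lkp [])) l9371 = true ∧
    allY (E.wth (lkp [])) l9372 = true ∧
    allY (E.wth (lkp [])) l9373 = true ∧
    allY (E.wth (lkp [])) l9374 = true ∧
    allY (E.wth (lkp [])) l9375 = true ∧
    allY (E.wth (lkp [])) l9376 = true :=
  ⟨by decide +kernel, by decide +kernel, by decide +kernel, by decide +kernel, by decide +kernel, by decide +kernel, by decide +kernel, by decide +kernel⟩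

def t9377 : allY (E.wth (lkp [])) l9377 = true ∧
    allY (E.wth (lkp [])) l9378 = true ∧
    allY (E.wth (lkp [])) l9379 = true ∧
    allY (E.wth (lkp [])) l9380 = true ∧
    allY (E.wth (lkp [])) l9381 = true ∧
    allY (E.wth (lkp [])) l9382 = true ∧
    allY (E.wth (lkp [])) l9383 = true ∧
    allY (E.wth (lkp [])) l9384 = true :=
  ⟨by decide +kernel, by decide +kernel, by decide +kernel, by decide +kernel, by decide +kernel, by decide +kernel, by decide +kernel, by decide +kernel⟩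

def t9385 : allY (E.wth (lkp [])) l9385 = true ∧
    allY (E.wth (lkp [])) l9386 = true ∧
    allY (E.wth (lkp [])) l9387 = true ∧
    allY (E.wth (lkp [])) l9388 = true ∧
    allY (E.wth (lkp [])) l9389 = true ∧
    allY (E.wth (lkp [])) l9390 = true ∧
    allY (E.wth (lkp [])) l9391 = true ∧
    allY (E.wth (lkp [])) l9392 = true :=
  ⟨by decide +kernel, by decide +kernel, by decide +kernel, by decide +kernel, by decide +kernel, by decide +kernel, by decide +kernel, by decide +kernel⟩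

def t9393 : allY (E.wth (lkp [])) l9393 = true ∧
    allY (E.wth (lkp [])) l9394 = true ∧
    allY (E.wth (lkp [])) l9395 = true ∧
    allY (E.wth (lkp [])) l9396 = true ∧
    allY (E.wth (lkp [])) l9397 = true ∧
    allY (E.wth (lkp [])) l9398 = true ∧
    allY (E.wth (lkp [])) l9399 = true ∧
    allY (E.wth (lkp [])) l9400 = true :=
  ⟨by decide +kernel, by decide +kernel, by decide +kernel, by decide +kernel, by decide +kernel, by decide +kernel, by decide +kernel, by decide +kernel⟩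

def t9401 : allY (E.wth (lkp [])) l9401 = true ∧
    allY (E.wth (lkp [])) l9402 = true ∧
    allY (E.wth (lkp [])) l9403 = true ∧
    allY (E.wth (lkp [])) l9404 = true ∧
    allY (E.wth (lkp [])) l9405 = true ∧
    allY (E.wth (lkp [])) l9406 = true ∧
    allY (E.wth (lkp [])) l9407 = true ∧
    allY (E.wth (lkp [])) l9408 = true :=
  ⟨by decide +kernel, by decide +kernel, by decide +kernel, by decide +kernel, by decide +kernel, by decide +kernel, by decide +kernel, by decide +kernel⟩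

def t9409 : allY (E.wth (lkp [])) l9409 = true ∧
    allY (E.wth (lkp [])) l9410 = true ∧
    allY (E.wth (lkp [])) l9411 = true ∧
    allY (E.wth (lkp [])) l9412 = true ∧
    allY (E.wth (lkp [])) l9413 = true ∧
    allY (E.wth (lkp [])) l9414 = true ∧
    allY (E.wth (lkp [])) l9415 = true ∧
    allY (E.wth (lkp [])) l9416 = true :=
  ⟨by decide +kernel, by decide +kernel, by decide +kernel, by decide +kernel, by decide +kernel, by decide +kernel, by decide +kernel, by decide +kernel⟩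

def t9417 : allY (E.wth (lkp [])) l9417 = true ∧
    allY (E.wth (lkp [])) l9418 = true ∧
    allY (E.wth (lkp [])) l9419 = true ∧
    allY (E.wth (lkp [])) l9420 = true ∧
    allY (E.wth (lkp [])) l9421 = true ∧
    allY (E.wth (lkp [])) l9422 = true ∧
    allY (E.wth (lkp [])) l9423 = true ∧
    allY (E.wth (lkp [])) l9424 = true :=
  ⟨by decide +kernel, by decide +kernel, by decide +kernel, by decide +kernel, by decide +kernel, by decide +kernel, by decide +kernel, by decide +kernel⟩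

def t9425 : allY (E.wth (lkp [])) l9425 = true ∧
    allY (E.wth (lkp [])) l9426 = true ∧
    allY (E.wth (lkp [])) l9427 = true ∧
    allY (E.wth (lkp [])) l9428 = true ∧
    allY (E.wth (lkp [])) l9429 = true ∧
    allY (E.wth (lkp [])) l9430 = true ∧
    allY (E.wth (lkp [])) l9431 = true ∧
    allY (E.wth (lkp [])) l9432 = true :=
  ⟨by decide +kernel, by decide +kernel, by decide +kernel, by decide +kernel, by decide +kernel, by decide +kernel, by decide +kernel, by decide +kernel⟩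

def t9433 : allY (E.wth (lkp [])) l9433 = true ∧
    allY (E.wth (lkp [])) l9434 = true ∧
    allY (E.wth (lkp [])) l9435 = true ∧
    allY (E.wth (lkp [])) l9436 = true ∧
    allY (E.wth (lkp [])) l9437 = true ∧
    allY (E.wth (lkp [])) l9438 = true ∧
    allY (E.wth (lkp [])) l9439 = true ∧
    allY (E.wth (lkp [])) l9440 = true :=
  ⟨by decide +kernel, by decide +kernel, by decide +kernel, by decide +kernel, by decide +kernel, by decide +kernel, by decide +kernel, by decide +kernel⟩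

def t9441 : allY (E.wth (lkp [])) l9441 = true ∧
    allY (E.wth (lkp [])) l9442 = true ∧
    allY (E.wth (lkp [])) l9443 = true ∧
    allY (E.wth (lkp [])) l9444 = true ∧
    allY (E.wth (lkp [])) l9445 = true ∧
    allY (E.wth (lkp [])) l9446 = true ∧
    allY (E.wth (lkp [])) l9447 = true ∧
    allY (E.wth (lkp [])) l9448 = true :=
  ⟨by decide +kernel, by decide +kernel, by decide +kernel, by decide +kernel, by decide +kernel, by decide +kernel, by decide +kernel, by decide +kernel⟩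

def t9449 : allY (E.wth (lkp [])) l9449 = true ∧
    allY (E.wth (lkp [])) l9450 = true ∧
    allY (E.wth (lkp [])) l9451 = true ∧
    allY (E.wth (lkp [])) l9452 = true ∧
    allY (E.wth (lkp [])) l9453 = true ∧
    allY (E.wth (lkp [])) l9454 = true ∧
    allY (E.wth (lkp [])) l9455 = true ∧
    allY (E.wth (lkp [])) l9456 = true :=
  ⟨by decide +kernel, by decide +kernel, by decide +kernel, by decide +kernel, by decide +kernel, by decide +kernel, by decide +kernel, by decide +kernel⟩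

def t9457 : allY (E.wth (lkp [])) l9457 = true ∧
    allY (E.wth (lkp [])) l9458 = true ∧
    allY (E.wth (lkp [])) l9459 = true ∧
    allY (E.wth (lkp [])) l9460 = true ∧
    allY (E.wth (lkp [])) l9461 = true ∧
    allY (E.wth (lkp [])) l9462 = true ∧
    allY (E.wth (lkp [])) l9463 = true ∧
    allY (E.wth (lkp [])) l9464 = true :=
  ⟨by decide +kernel, by decide +kernel, by decide +kernel, by decide +kernel, by decide +kernel, by decide +kernel, by decide +kernel, by decide +kernel⟩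

def t9465 : allY (E.wth (lkp [])) l9465 = true ∧
    allY (E.wth (lkp [])) l9466 = true ∧
    allY (E.wth (lkp [])) l9467 = true ∧
    allY (E.wth (lkp [])) l9468 = true ∧
    allY (E.wth (lkp [])) l9469 = true ∧
    allY (E.wth (lkp [])) l9470 = true ∧
    allY (E.wth (lkp [])) l9471 = true ∧
    allY (E.wth (lkp [])) l9472 = true :=
  ⟨by decide +kernel, by decide +kernel, by decide +kernel, by decide +kernel, by decide +kernel, by decide +kernel, by decide +kernel, by decide +kernel⟩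

def t9473 : allY (E.wth (lkp [])) l9473 = true ∧
    allY (E.wth (lkp [])) l9474 = true ∧
    allY (E.wth (lkp [])) l9475 = true ∧
    allY (E.wth (lkp [])) l9476 = true ∧
    allY (E.wth (lkp [])) l9477 = true ∧
    allY (E.wth (lkp [])) l9478 = true ∧
    allY (E.wth (lkp [])) l9479 = true ∧
    allY (E.wth (lkp [])) l9480 = true :=
  ⟨by decide +kernel, by decide +kernel, by decide +kernel, by decide +kernel, by decide +kernel, by decide +kernel, by decide +kernel, by decide +kernel⟩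

def t9481 : allY (E.wth (lkp [])) l9481 = true ∧
    allY (E.wth (lkp [])) l9482 = true ∧
    allY (E.wth (lkp [])) l9483 = true ∧
    allY (E.wth (lkp [])) l9484 = true ∧
    allY (E.wth (lkp [])) l9485 = true ∧
    allY (E.wth (lkp [])) l9486 = true ∧
    allY (E.wth (lkp [])) l9487 = true ∧
    allY (E.wth (lkp [])) l9488 = true :=
  ⟨by decide +kernel, by decide +kernel, by decide +kernel, by decide +kernel, by decide +kernel, by decide +kernel, by decide +kernel, by decide +kernel⟩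

def t9489 : allY (E.wth (lkp [])) l9489 = true ∧
    allY (E.wth (lkp [])) l9490 = true ∧
    allY (E.wth (lkp [])) l9491 = true ∧
    allY (E.wth (lkp [])) l9492 = true ∧
    allY (E.wth (lkp [])) l9493 = true ∧
    allY (E.wth (lkp [])) l9494 = true ∧
    allY (E.wth (lkp [])) l9495 = true ∧
    allY (E.wth (lkp [])) l9496 = true :=
  ⟨by decide +kernel, by decide +kernel, by decide +kernel, by decide +kernel, by decide +kernel, by decide +kernel, by decide +kernel, by decide +kernel⟩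

def t9497 : allY (E.wth (lkp [])) l9497 = true ∧
    allY (E.wth (lkp [])) l9498 = true ∧
    allY (E.wth (lkp [])) l9499 = true ∧
    allY (E.wth (lkp [])) l9500 = true ∧
    allY (E.wth (lkp [])) l9501 = true ∧
    allY (E.wth (lkp [])) l9502 = true ∧
    allY (E.wth (lkp [])) l9503 = true ∧
    allY (E.wth (lkp [])) l9504 = true :=
  ⟨by decide +kernel, by decide +kernel, by decide +kernel, by decide +kernel, by decide +kernel, by decide +kernel, by decide +kernel, by decide +kernel⟩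

theorem a16 {p : Rf → Prop} (H : ∀ l, allY (E.wth (lkp [])) l = true → (lkp l).All p) :
    b16.All p := ⟨⟨⟨⟨⟨⟨⟨⟨⟨H _ t8937.1, H _ t8937.2.1⟩, ⟨H _ t8937.2.2.1, H _ t8937.2.2.2.1⟩⟩, ⟨⟨H _ t8937.2.2.2.2.1, H _ t8937.2.2.2.2.2.1⟩, ⟨H _ t8937.2.2.2.2.2.2.1, H _ t8937.2.2.2.2.2.2.2⟩⟩⟩, ⟨⟨⟨H _ t8945.1, H _ t8945.2.1⟩, ⟨H _ t8945.2.2.1, H _ t8945.2.2.2.1⟩⟩, ⟨⟨H _ t8945.2.2.2.2.1, H _ t8945.2.2.2.2.2.1⟩, ⟨H _ t8945.2.2.2.2.2.2.1, ⟨H _ t8945.2.2.2.2.2.2.2, H _ t8953.1⟩⟩⟩⟩⟩, ⟨⟨⟨⟨H _ t8953.2.1, H _ t8953.2.2.1⟩, ⟨H _ t8953.2.2.2.1, H _ t8953.2.2.2.2.1⟩⟩, ⟨⟨H _ t8953.2.2.2.2.2.1, H _ t8953.2.2.2.2.2.2.1⟩, ⟨H _ t8953.2.2.2.2.2.2.2, ⟨H _ t8961.1, H _ t8961.2.1⟩⟩⟩⟩, ⟨⟨⟨H _ t8961.2.2.1, H _ t8961.2.2.2.1⟩, ⟨H _ t8961.2.2.2.2.1, H _ t8961.2.2.2.2.2.1⟩⟩, ⟨⟨H _ t8961.2.2.2.2.2.2.1, H _ t8961.2.2.2.2.2.2.2⟩, ⟨H _ t8969.1, ⟨H _ t8969.2.1, H _ t8969.2.2.1⟩⟩⟩⟩⟩⟩, ⟨⟨⟨⟨⟨H _ t8969.2.2.2.1, H _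 t8969.2.2.2.2.1⟩, ⟨H _ t8969.2.2.2.2.2.1, H _ t8969.2.2.2.2.2.2.1⟩⟩, ⟨⟨H _ t8969.2.2.2.2.2.2.2, H _ t8977.1⟩, ⟨H _ t8977.2.1, ⟨H _ t8977.2.2.1, H _ t8977.2.2.2.1⟩⟩⟩⟩, ⟨⟨⟨H _ t8977.2.2.2.2.1, H _ t8977.2.2.2.2.2.1⟩, ⟨H _ t8977.2.2.2.2.2.2.1, H _ t8977.2.2.2.2.2.2.2⟩⟩, ⟨⟨H _ t8985.1, H _ t8985.2.1⟩, ⟨H _ t8985.2.2.1, ⟨H _ t8985.2.2.2.1, H _ t8985.2.2.2.2.1⟩⟩⟩⟩⟩, ⟨⟨⟨⟨H _ t8985.2.2.2.2.2.1, H _ t8985.2.2.2.2.2.2.1⟩, ⟨H _ t8985.2.2.2.2.2.2.2, H _ t8993.1⟩⟩, ⟨⟨H _ t8993.2.1, H _ t8993.2.2.1⟩, ⟨H _ t8993.2.2.2.1, ⟨H _ t8993.2.2.2.2.1, H _ t8993.2.2.2.2.2.1⟩⟩⟩⟩, ⟨⟨⟨H _ t8993.2.2.2.2.2.2.1, H _ t8993.2.2.2.2.2.2.2⟩, ⟨H _ t9001.1, H _ t9001.2.1⟩⟩, ⟨⟨H _ t9001.2.2.1, H _ t9001.2.2.2.1⟩, ⟨H _ t9001.2.2.2.2.1, ⟨H _ t9001.2.2.2.2.2.1, H _ t9001.2.2.2.2.2.2.1⟩⟩⟩⟩⟩⟩⟩, ⟨⟨⟨⟨⟨⟨H _ t9001.2.2.2.2.2.2.2, H _ t9009.1⟩, ⟨H _ t9009.2.1, H _ t9009.2.2.1⟩⟩, ⟨⟨H _ t9009.2.2.2.1, H _ t9009.2.2.2.2.1⟩,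 ⟨H _ t9009.2.2.2.2.2.1, H _ t9009.2.2.2.2.2.2.1⟩⟩⟩, ⟨⟨⟨H _ t9009.2.2.2.2.2.2.2, H _ t9017.1⟩, ⟨H _ t9017.2.1, H _ t9017.2.2.1⟩⟩, ⟨⟨H _ t9017.2.2.2.1, H _ t9017.2.2.2.2.1⟩, ⟨H _ t9017.2.2.2.2.2.1, ⟨H _ t9017.2.2.2.2.2.2.1, H _ t9017.2.2.2.2.2.2.2⟩⟩⟩⟩⟩, ⟨⟨⟨⟨H _ t9025.1, H _ t9025.2.1⟩, ⟨H _ t9025.2.2.1, H _ t9025.2.2.2.1⟩⟩, ⟨⟨H _ t9025.2.2.2.2.1, H _ t9025.2.2.2.2.2.1⟩, ⟨H _ t9025.2.2.2.2.2.2.1, ⟨H _ t9025.2.2.2.2.2.2.2, H _ t9033.1⟩⟩⟩⟩, ⟨⟨⟨H _ t9033.2.1, H _ t9033.2.2.1⟩, ⟨H _ t9033.2.2.2.1, H _ t9033.2.2.2.2.1⟩⟩, ⟨⟨H _ t9033.2.2.2.2.2.1, H _ t9033.2.2.2.2.2.2.1⟩, ⟨H _ t9033.2.2.2.2.2.2.2, ⟨H _ t9041.1, H _ t9041.2.1⟩⟩⟩⟩⟩⟩, ⟨⟨⟨⟨⟨H _ t9041.2.2.1, H _ t9041.2.2.2.1⟩, ⟨H _ t9041.2.2.2.2.1, H _ t9041.2.2.2.2.2.1⟩⟩, ⟨⟨H _ t9041.2.2.2.2.2.2.1, H _ t9041.2.2.2.2.2.2.2⟩, ⟨H _ t9049.1, ⟨H _ t9049.2.1, H _ t9049.2.2.1⟩⟩⟩⟩, ⟨⟨⟨H _ t9049.2.2.2.1, H _ t9049.2.2.2.2.1⟩, ⟨H _ t9049.2.2.2.2.2.1,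 H _ t9049.2.2.2.2.2.2.1⟩⟩, ⟨⟨H _ t9049.2.2.2.2.2.2.2, H _ t9057.1⟩, ⟨H _ t9057.2.1, ⟨H _ t9057.2.2.1, H _ t9057.2.2.2.1⟩⟩⟩⟩⟩, ⟨⟨⟨⟨H _ t9057.2.2.2.2.1, H _ t9057.2.2.2.2.2.1⟩, ⟨H _ t9057.2.2.2.2.2.2.1, H _ t9057.2.2.2.2.2.2.2⟩⟩, ⟨⟨H _ t9065.1, H _ t9065.2.1⟩, ⟨H _ t9065.2.2.1, ⟨H _ t9065.2.2.2.1, H _ t9065.2.2.2.2.1⟩⟩⟩⟩, ⟨⟨⟨H _ t9065.2.2.2.2.2.1, H _ t9065.2.2.2.2.2.2.1⟩, ⟨H _ t9065.2.2.2.2.2.2.2, H _ t9073.1⟩⟩, ⟨⟨H _ t9073.2.1, H _ t9073.2.2.1⟩, ⟨H _ t9073.2.2.2.1, ⟨H _ t9073.2.2.2.2.1, H _ t9073.2.2.2.2.2.1⟩⟩⟩⟩⟩⟩⟩⟩, ⟨⟨⟨⟨⟨⟨⟨H _ t9073.2.2.2.2.2.2.1, H _ t9073.2.2.2.2.2.2.2⟩, ⟨H _ t9081.1, H _ t9081.2.1⟩⟩, ⟨⟨H _ t9081.2.2.1, H _ t9081.2.2.2.1⟩, ⟨H _ t9081.2.2.2.2.1, H _ t9081.2.2.2.2.2.1⟩⟩⟩, ⟨⟨⟨H _ t9081.2.2.2.2.2.2.1, H _ t9081.2.2.2.2.2.2.2⟩, ⟨H _ t9089.1, H _ t9089.2.1⟩⟩, ⟨⟨H _ t9089.2.2.1, H _ t9089.2.2.2.1⟩, ⟨H _ t9089.2.2.2.2.1, ⟨H _ t9089.2.2.2.2.2.1, H _ t9089.2.2.2.2.2.2.1⟩⟩⟩⟩⟩,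 ⟨⟨⟨⟨H _ t9089.2.2.2.2.2.2.2, H _ t9097.1⟩, ⟨H _ t9097.2.1, H _ t9097.2.2.1⟩⟩, ⟨⟨H _ t9097.2.2.2.1, H _ t9097.2.2.2.2.1⟩, ⟨H _ t9097.2.2.2.2.2.1, ⟨H _ t9097.2.2.2.2.2.2.1, H _ t9097.2.2.2.2.2.2.2⟩⟩⟩⟩, ⟨⟨⟨H _ t9105.1, H _ t9105.2.1⟩, ⟨H _ t9105.2.2.1, H _ t9105.2.2.2.1⟩⟩, ⟨⟨H _ t9105.2.2.2.2.1, H _ t9105.2.2.2.2.2.1⟩, ⟨H _ t9105.2.2.2.2.2.2.1, ⟨H _ t9105.2.2.2.2.2.2.2, H _ t9113.1⟩⟩⟩⟩⟩⟩, ⟨⟨⟨⟨⟨H _ t9113.2.1, H _ t9113.2.2.1⟩, ⟨H _ t9113.2.2.2.1, H _ t9113.2.2.2.2.1⟩⟩, ⟨⟨H _ t9113.2.2.2.2.2.1, H _ t9113.2.2.2.2.2.2.1⟩, ⟨H _ t9113.2.2.2.2.2.2.2, ⟨H _ t9121.1, H _ t9121.2.1⟩⟩⟩⟩, ⟨⟨⟨H _ t9121.2.2.1, H _ t9121.2.2.2.1⟩, ⟨H _ t9121.2.2.2.2.1, H _ t9121.2.2.2.2.2.1⟩⟩, ⟨⟨H _ t9121.2.2.2.2.2.2.1, H _ t9121.2.2.2.2.2.2.2⟩, ⟨H _ t9129.1, ⟨H _ t9129.2.1, H _ t9129.2.2.1⟩⟩⟩⟩⟩, ⟨⟨⟨⟨H _ t9129.2.2.2.1, H _ t9129.2.2.2.2.1⟩, ⟨H _ t9129.2.2.2.2.2.1, H _ t9129.2.2.2.2.2.2.1⟩⟩, ⟨⟨H _ t9129.2.2.2.2.2.2.2,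 H _ t9137.1⟩, ⟨H _ t9137.2.1, ⟨H _ t9137.2.2.1, H _ t9137.2.2.2.1⟩⟩⟩⟩, ⟨⟨⟨H _ t9137.2.2.2.2.1, H _ t9137.2.2.2.2.2.1⟩, ⟨H _ t9137.2.2.2.2.2.2.1, H _ t9137.2.2.2.2.2.2.2⟩⟩, ⟨⟨H _ t9145.1, H _ t9145.2.1⟩, ⟨H _ t9145.2.2.1, ⟨H _ t9145.2.2.2.1, H _ t9145.2.2.2.2.1⟩⟩⟩⟩⟩⟩⟩, ⟨⟨⟨⟨⟨⟨H _ t9145.2.2.2.2.2.1, H _ t9145.2.2.2.2.2.2.1⟩, ⟨H _ t9145.2.2.2.2.2.2.2, H _ t9153.1⟩⟩, ⟨⟨H _ t9153.2.1, H _ t9153.2.2.1⟩, ⟨H _ t9153.2.2.2.1, H _ t9153.2.2.2.2.1⟩⟩⟩, ⟨⟨⟨H _ t9153.2.2.2.2.2.1, H _ t9153.2.2.2.2.2.2.1⟩, ⟨H _ t9153.2.2.2.2.2.2.2, H _ t9161.1⟩⟩, ⟨⟨H _ t9161.2.1, H _ t9161.2.2.1⟩, ⟨H _ t9161.2.2.2.1, ⟨H _ t9161.2.2.2.2.1, H _ t9161.2.2.2.2.2.1⟩⟩⟩⟩⟩, ⟨⟨⟨⟨H _ t9161.2.2.2.2.2.2.1, H _ t9161.2.2.2.2.2.2.2⟩, ⟨H _ t9169.1, H _ t9169.2.1⟩⟩, ⟨⟨H _ t9169.2.2.1, H _ t9169.2.2.2.1⟩, ⟨H _ t9169.2.2.2.2.1, ⟨H _ t9169.2.2.2.2.2.1, H _ t9169.2.2.2.2.2.2.1⟩⟩⟩⟩, ⟨⟨⟨H _ t9169.2.2.2.2.2.2.2, H _ t9177.1⟩,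 ⟨H _ t9177.2.1, H _ t9177.2.2.1⟩⟩, ⟨⟨H _ t9177.2.2.2.1, H _ t9177.2.2.2.2.1⟩, ⟨H _ t9177.2.2.2.2.2.1, ⟨H _ t9177.2.2.2.2.2.2.1, H _ t9177.2.2.2.2.2.2.2⟩⟩⟩⟩⟩⟩, ⟨⟨⟨⟨⟨H _ t9185.1, H _ t9185.2.1⟩, ⟨H _ t9185.2.2.1, H _ t9185.2.2.2.1⟩⟩, ⟨⟨H _ t9185.2.2.2.2.1, H _ t9185.2.2.2.2.2.1⟩, ⟨H _ t9185.2.2.2.2.2.2.1, ⟨H _ t9185.2.2.2.2.2.2.2, H _ t9193.1⟩⟩⟩⟩, ⟨⟨⟨H _ t9193.2.1, H _ t9193.2.2.1⟩, ⟨H _ t9193.2.2.2.1, H _ t9193.2.2.2.2.1⟩⟩, ⟨⟨H _ t9193.2.2.2.2.2.1, H _ t9193.2.2.2.2.2.2.1⟩, ⟨H _ t9193.2.2.2.2.2.2.2, ⟨H _ t9201.1, H _ t9201.2.1⟩⟩⟩⟩⟩, ⟨⟨⟨⟨H _ t9201.2.2.1, H _ t9201.2.2.2.1⟩, ⟨H _ t9201.2.2.2.2.1, H _ t9201.2.2.2.2.2.1⟩⟩, ⟨⟨H _ t9201.2.2.2.2.2.2.1, H _ t9201.2.2.2.2.2.2.2⟩, ⟨H _ t9209.1, ⟨H _ t9209.2.1, H _ t9209.2.2.1⟩⟩⟩⟩, ⟨⟨⟨H _ t9209.2.2.2.1, H _ t9209.2.2.2.2.1⟩, ⟨H _ t9209.2.2.2.2.2.1, H _ t9209.2.2.2.2.2.2.1⟩⟩, ⟨⟨H _ t9209.2.2.2.2.2.2.2, H _ t9217.1⟩, ⟨H _ t9217.2.1,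 ⟨H _ t9217.2.2.1, H _ t9217.2.2.2.1⟩⟩⟩⟩⟩⟩⟩⟩⟩, ⟨⟨⟨⟨⟨⟨⟨⟨H _ t9217.2.2.2.2.1, H _ t9217.2.2.2.2.2.1⟩, ⟨H _ t9217.2.2.2.2.2.2.1, H _ t9217.2.2.2.2.2.2.2⟩⟩, ⟨⟨H _ t9225.1, H _ t9225.2.1⟩, ⟨H _ t9225.2.2.1, H _ t9225.2.2.2.1⟩⟩⟩, ⟨⟨⟨H _ t9225.2.2.2.2.1, H _ t9225.2.2.2.2.2.1⟩, ⟨H _ t9225.2.2.2.2.2.2.1, H _ t9225.2.2.2.2.2.2.2⟩⟩, ⟨⟨H _ t9233.1, H _ t9233.2.1⟩, ⟨H _ t9233.2.2.1, ⟨H _ t9233.2.2.2.1, H _ t9233.2.2.2.2.1⟩⟩⟩⟩⟩, ⟨⟨⟨⟨H _ t9233.2.2.2.2.2.1, H _ t9233.2.2.2.2.2.2.1⟩, ⟨H _ t9233.2.2.2.2.2.2.2, H _ t9241.1⟩⟩, ⟨⟨H _ t9241.2.1, H _ t9241.2.2.1⟩, ⟨H _ t9241.2.2.2.1, ⟨H _ t9241.2.2.2.2.1, H _ t9241.2.2.2.2.2.1⟩⟩⟩⟩, ⟨⟨⟨H _ t9241.2.2.2.2.2.2.1, H _ t9241.2.2.2.2.2.2.2⟩, ⟨H _ t9249.1, H _ t9249.2.1⟩⟩, ⟨⟨H _ t9249.2.2.1, H _ t9249.2.2.2.1⟩, ⟨H _ t9249.2.2.2.2.1, ⟨H _ t9249.2.2.2.2.2.1, H _ t9249.2.2.2.2.2.2.1⟩⟩⟩⟩⟩⟩, ⟨⟨⟨⟨⟨H _ t9249.2.2.2.2.2.2.2, H _ t9257.1⟩, ⟨H _ t9257.2.1, H _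 t9257.2.2.1⟩⟩, ⟨⟨H _ t9257.2.2.2.1, H _ t9257.2.2.2.2.1⟩, ⟨H _ t9257.2.2.2.2.2.1, ⟨H _ t9257.2.2.2.2.2.2.1, H _ t9257.2.2.2.2.2.2.2⟩⟩⟩⟩, ⟨⟨⟨H _ t9265.1, H _ t9265.2.1⟩, ⟨H _ t9265.2.2.1, H _ t9265.2.2.2.1⟩⟩, ⟨⟨H _ t9265.2.2.2.2.1, H _ t9265.2.2.2.2.2.1⟩, ⟨H _ t9265.2.2.2.2.2.2.1, ⟨H _ t9265.2.2.2.2.2.2.2, H _ t9273.1⟩⟩⟩⟩⟩, ⟨⟨⟨⟨H _ t9273.2.1, H _ t9273.2.2.1⟩, ⟨H _ t9273.2.2.2.1, H _ t9273.2.2.2.2.1⟩⟩, ⟨⟨H _ t9273.2.2.2.2.2.1, H _ t9273.2.2.2.2.2.2.1⟩, ⟨H _ t9273.2.2.2.2.2.2.2, ⟨H _ t9281.1, H _ t9281.2.1⟩⟩⟩⟩, ⟨⟨⟨H _ t9281.2.2.1, H _ t9281.2.2.2.1⟩, ⟨H _ t9281.2.2.2.2.1, H _ t9281.2.2.2.2.2.1⟩⟩, ⟨⟨H _ t9281.2.2.2.2.2.2.1, H _ t9281.2.2.2.2.2.2.2⟩, ⟨H _ t9289.1, ⟨H _ t9289.2.1, H _ t9289.2.2.1⟩⟩⟩⟩⟩⟩⟩, ⟨⟨⟨⟨⟨⟨H _ t9289.2.2.2.1, H _ t9289.2.2.2.2.1⟩, ⟨H _ t9289.2.2.2.2.2.1, H _ t9289.2.2.2.2.2.2.1⟩⟩, ⟨⟨H _ t9289.2.2.2.2.2.2.2, H _ t9297.1⟩, ⟨H _ t9297.2.1, H _ t9297.2.2.1⟩⟩⟩,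 ⟨⟨⟨H _ t9297.2.2.2.1, H _ t9297.2.2.2.2.1⟩, ⟨H _ t9297.2.2.2.2.2.1, H _ t9297.2.2.2.2.2.2.1⟩⟩, ⟨⟨H _ t9297.2.2.2.2.2.2.2, H _ t9305.1⟩, ⟨H _ t9305.2.1, ⟨H _ t9305.2.2.1, H _ t9305.2.2.2.1⟩⟩⟩⟩⟩, ⟨⟨⟨⟨H _ t9305.2.2.2.2.1, H _ t9305.2.2.2.2.2.1⟩, ⟨H _ t9305.2.2.2.2.2.2.1, H _ t9305.2.2.2.2.2.2.2⟩⟩, ⟨⟨H _ t9313.1, H _ t9313.2.1⟩, ⟨H _ t9313.2.2.1, ⟨H _ t9313.2.2.2.1, H _ t9313.2.2.2.2.1⟩⟩⟩⟩, ⟨⟨⟨H _ t9313.2.2.2.2.2.1, H _ t9313.2.2.2.2.2.2.1⟩, ⟨H _ t9313.2.2.2.2.2.2.2, H _ t9321.1⟩⟩, ⟨⟨H _ t9321.2.1, H _ t9321.2.2.1⟩, ⟨H _ t9321.2.2.2.1, ⟨H _ t9321.2.2.2.2.1, H _ t9321.2.2.2.2.2.1⟩⟩⟩⟩⟩⟩, ⟨⟨⟨⟨⟨H _ t9321.2.2.2.2.2.2.1, H _ t9321.2.2.2.2.2.2.2⟩, ⟨H _ t9329.1, H _ t9329.2.1⟩⟩, ⟨⟨H _ t9329.2.2.1, H _ t9329.2.2.2.1⟩, ⟨H _ t9329.2.2.2.2.1, ⟨H _ t9329.2.2.2.2.2.1, H _ t9329.2.2.2.2.2.2.1⟩⟩⟩⟩, ⟨⟨⟨H _ t9329.2.2.2.2.2.2.2, H _ t9337.1⟩, ⟨H _ t9337.2.1, H _ t9337.2.2.1⟩⟩, ⟨⟨H _ t9337.2.2.2.1,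 H _ t9337.2.2.2.2.1⟩, ⟨H _ t9337.2.2.2.2.2.1, ⟨H _ t9337.2.2.2.2.2.2.1, H _ t9337.2.2.2.2.2.2.2⟩⟩⟩⟩⟩, ⟨⟨⟨⟨H _ t9345.1, H _ t9345.2.1⟩, ⟨H _ t9345.2.2.1, H _ t9345.2.2.2.1⟩⟩, ⟨⟨H _ t9345.2.2.2.2.1, H _ t9345.2.2.2.2.2.1⟩, ⟨H _ t9345.2.2.2.2.2.2.1, ⟨H _ t9345.2.2.2.2.2.2.2, H _ t9353.1⟩⟩⟩⟩, ⟨⟨⟨H _ t9353.2.1, H _ t9353.2.2.1⟩, ⟨H _ t9353.2.2.2.1, H _ t9353.2.2.2.2.1⟩⟩, ⟨⟨H _ t9353.2.2.2.2.2.1, H _ t9353.2.2.2.2.2.2.1⟩, ⟨H _ t9353.2.2.2.2.2.2.2, ⟨H _ t9361.1, H _ t9361.2.1⟩⟩⟩⟩⟩⟩⟩⟩, ⟨⟨⟨⟨⟨⟨⟨H _ t9361.2.2.1, H _ t9361.2.2.2.1⟩, ⟨H _ t9361.2.2.2.2.1, H _ t9361.2.2.2.2.2.1⟩⟩, ⟨⟨H _ t9361.2.2.2.2.2.2.1, H _ t9361.2.2.2.2.2.2.2⟩, ⟨H _ t9369.1, H _ t9369.2.1⟩⟩⟩, ⟨⟨⟨H _ t9369.2.2.1, H _ t9369.2.2.2.1⟩, ⟨H _ t9369.2.2.2.2.1, H _ t9369.2.2.2.2.2.1⟩⟩, ⟨⟨H _ t9369.2.2.2.2.2.2.1, H _ t9369.2.2.2.2.2.2.2⟩, ⟨H _ t9377.1, ⟨H _ t9377.2.1, H _ t9377.2.2.1⟩⟩⟩⟩⟩, ⟨⟨⟨⟨H _ t9377.2.2.2.1, H _ t9377.2.2.2.2.1⟩,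 ⟨H _ t9377.2.2.2.2.2.1, H _ t9377.2.2.2.2.2.2.1⟩⟩, ⟨⟨H _ t9377.2.2.2.2.2.2.2, H _ t9385.1⟩, ⟨H _ t9385.2.1, ⟨H _ t9385.2.2.1, H _ t9385.2.2.2.1⟩⟩⟩⟩, ⟨⟨⟨H _ t9385.2.2.2.2.1, H _ t9385.2.2.2.2.2.1⟩, ⟨H _ t9385.2.2.2.2.2.2.1, H _ t9385.2.2.2.2.2.2.2⟩⟩, ⟨⟨H _ t9393.1, H _ t9393.2.1⟩, ⟨H _ t9393.2.2.1, ⟨H _ t9393.2.2.2.1, H _ t9393.2.2.2.2.1⟩⟩⟩⟩⟩⟩, ⟨⟨⟨⟨⟨H _ t9393.2.2.2.2.2.1, H _ t9393.2.2.2.2.2.2.1⟩, ⟨H _ t9393.2.2.2.2.2.2.2, H _ t9401.1⟩⟩, ⟨⟨H _ t9401.2.1, H _ t9401.2.2.1⟩, ⟨H _ t9401.2.2.2.1, ⟨H _ t9401.2.2.2.2.1, H _ t9401.2.2.2.2.2.1⟩⟩⟩⟩, ⟨⟨⟨H _ t9401.2.2.2.2.2.2.1, H _ t9401.2.2.2.2.2.2.2⟩, ⟨H _ t9409.1, H _ t9409.2.1⟩⟩, ⟨⟨H _ t9409.2.2.1, H _ t9409.2.2.2.1⟩, ⟨H _ t9409.2.2.2.2.1, ⟨H _ t9409.2.2.2.2.2.1, H _ t9409.2.2.2.2.2.2.1⟩⟩⟩⟩⟩, ⟨⟨⟨⟨H _ t9409.2.2.2.2.2.2.2, H _ t9417.1⟩, ⟨H _ t9417.2.1, H _ t9417.2.2.1⟩⟩, ⟨⟨H _ t9417.2.2.2.1, H _ t9417.2.2.2.2.1⟩, ⟨H _ t9417.2.2.2.2.2.1,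 ⟨H _ t9417.2.2.2.2.2.2.1, H _ t9417.2.2.2.2.2.2.2⟩⟩⟩⟩, ⟨⟨⟨H _ t9425.1, H _ t9425.2.1⟩, ⟨H _ t9425.2.2.1, H _ t9425.2.2.2.1⟩⟩, ⟨⟨H _ t9425.2.2.2.2.1, H _ t9425.2.2.2.2.2.1⟩, ⟨H _ t9425.2.2.2.2.2.2.1, ⟨H _ t9425.2.2.2.2.2.2.2, H _ t9433.1⟩⟩⟩⟩⟩⟩⟩, ⟨⟨⟨⟨⟨⟨H _ t9433.2.1, H _ t9433.2.2.1⟩, ⟨H _ t9433.2.2.2.1, H _ t9433.2.2.2.2.1⟩⟩, ⟨⟨H _ t9433.2.2.2.2.2.1, H _ t9433.2.2.2.2.2.2.1⟩, ⟨H _ t9433.2.2.2.2.2.2.2, H _ t9441.1⟩⟩⟩, ⟨⟨⟨H _ t9441.2.1, H _ t9441.2.2.1⟩, ⟨H _ t9441.2.2.2.1, H _ t9441.2.2.2.2.1⟩⟩, ⟨⟨H _ t9441.2.2.2.2.2.1, H _ t9441.2.2.2.2.2.2.1⟩, ⟨H _ t9441.2.2.2.2.2.2.2, ⟨H _ t9449.1, H _ t9449.2.1⟩⟩⟩⟩⟩, ⟨⟨⟨⟨H _ t9449.2.2.1, H _ t9449.2.2.2.1⟩, ⟨H _ t9449.2.2.2.2.1, H _ t9449.2.2.2.2.2.1⟩⟩, ⟨⟨H _ t9449.2.2.2.2.2.2.1, H _ t9449.2.2.2.2.2.2.2⟩, ⟨H _ t9457.1, ⟨H _ t9457.2.1, H _ t9457.2.2.1⟩⟩⟩⟩, ⟨⟨⟨H _ t9457.2.2.2.1, H _ t9457.2.2.2.2.1⟩, ⟨H _ t9457.2.2.2.2.2.1, H _ t9457.2.2.2.2.2.2.1⟩⟩,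 ⟨⟨H _ t9457.2.2.2.2.2.2.2, H _ t9465.1⟩, ⟨H _ t9465.2.1, ⟨H _ t9465.2.2.1, H _ t9465.2.2.2.1⟩⟩⟩⟩⟩⟩, ⟨⟨⟨⟨⟨H _ t9465.2.2.2.2.1, H _ t9465.2.2.2.2.2.1⟩, ⟨H _ t9465.2.2.2.2.2.2.1, H _ t9465.2.2.2.2.2.2.2⟩⟩, ⟨⟨H _ t9473.1, H _ t9473.2.1⟩, ⟨H _ t9473.2.2.1, ⟨H _ t9473.2.2.2.1, H _ t9473.2.2.2.2.1⟩⟩⟩⟩, ⟨⟨⟨H _ t9473.2.2.2.2.2.1, H _ t9473.2.2.2.2.2.2.1⟩, ⟨H _ t9473.2.2.2.2.2.2.2, H _ t9481.1⟩⟩, ⟨⟨H _ t9481.2.1, H _ t9481.2.2.1⟩, ⟨H _ t9481.2.2.2.1, ⟨H _ t9481.2.2.2.2.1, H _ t9481.2.2.2.2.2.1⟩⟩⟩⟩⟩, ⟨⟨⟨⟨H _ t9481.2.2.2.2.2.2.1, H _ t9481.2.2.2.2.2.2.2⟩, ⟨H _ t9489.1, H _ t9489.2.1⟩⟩, ⟨⟨H _ t9489.2.2.1, H _ t9489.2.2.2.1⟩, ⟨H _ t9489.2.2.2.2.1, ⟨H _ t9489.2.2.2.2.2.1, H _ t9489.2.2.2.2.2.2.1⟩⟩⟩⟩, ⟨⟨⟨H _ t9489.2.2.2.2.2.2.2, H _ t9497.1⟩, ⟨H _ t9497.2.1, H _ t9497.2.2.1⟩⟩, ⟨⟨H _ t9497.2.2.2.1, H _ t9497.2.2.2.2.1⟩, ⟨H _ t9497.2.2.2.2.2.1, ⟨H _ t9497.2.2.2.2.2.2.1, H _ t9497.2.2.2.2.2.2.2⟩⟩⟩⟩⟩⟩⟩⟩⟩⟩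

end Pool.Agent.MP_c853c5_nt.X.C4950
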