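import Pool.Agent.MP_c853c5_nt.X.C4950.Env
import Pool.Agent.MP_c853c5_nt.X.C4950.D3

set_option autoImplicit false
set_option maxRecDepth 8192
set_option linter.all false

namespace Pool.Agent.MP_c853c5_nt.X.C4950

open Pool.Agent.MP_c853c5_nt.X

def t9505 : allY (E.wth (lkp [])) l9505 = true ∧
    allY (E.wth (lkp [])) l9506 = true ∧
    allY (E.wth (lkp [])) l9507 = true ∧
    allY (E.wth (lkp [])) l9508 = true ∧
    allY (E.wth (lkp [])) l9509 = true ∧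
    allY (E.wth (lkp [])) l9510 = true ∧
    allY (E.wth (lkp [])) l9511 = true ∧
    allY (E.wth (lkp [])) l9512 = true :=
  ⟨by decide +kernel, by decide +kernel, by decide +kernel, by decide +kernel, by decide +kernel, by decide +kernel, by decide +kernel, by decide +kernel⟩

def t9513 : allY (E.wth (lkp [])) l9513 = true ∧
    allY (E.wth (lkp [])) l9514 = true ∧
    allY (E.wth (lkp [])) l9515 = true ∧
    allY (E.wth (lkp [])) l9516 = true ∧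
    allY (E.wth (lkp [])) l9517 = true ∧
    allY (E.wth (lkp [])) l9518 = true ∧
    allY (E.wth (lkp [])) l9519 = true ∧
    allY (E.wth (lkp [])) l9520 = true :=
  ⟨by decide +kernel, by decide +kernel, by decide +kernel, by decide +kernel, by decide +kernel, by decide +kernel, by decide +kernel, by decide +kernel⟩

def t9521 : allY (E.wth (lkp [])) l9521 = true ∧
    allY (E.wth (lkp [])) l9522 = true ∧
    allY (E.wth (lkp [])) l9523 = true ∧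
    allY (E.wth (lkp [])) l9524 = true ∧
    allY (E.wth (lkp [])) l9525 = true ∧
    allY (E.wth (lkp [])) l9526 = true ∧
    allY (E.wth (lkp [])) l9527 = true ∧
    allY (E.wth (lkp [])) l9528 = true :=
  ⟨by decide +kernel, by decide +kernel, by decide +kernel, by decide +kernel, by decide +kernel, by decide +kernel, by decide +kernel, by decide +kernel⟩

def t9529 : allY (E.wth (lkp [])) l9529 = true ∧
    allY (E.wth (lkp [])) l9530 = true ∧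
    allY (E.wth (lkp [])) l9531 = true ∧
    allY (E.wth (lkp [])) l9532 = true ∧
    allY (E.wth (lkp [])) l9533 = true ∧
    allY (E.wth (lkp [])) l9534 = true ∧
    allY (E.wth (lkp [])) l9535 = true ∧
    allY (E.wth (lkp [])) l9536 = true :=
  ⟨by decide +kernel, by decide +kernel, by decide +kernel, by decide +kernel, by decide +kernel, by decide +kernel, by decide +kernel, by decide +kernel⟩

def t9537 : allY (E.wth (lkp [])) l9537 = true ∧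
    allY (E.wth (lkp [])) l9538 = true ∧
    allY (E.wth (lkp [])) l9539 = true ∧
    allY (E.wth (lkp [])) l9540 = true ∧
    allY (E.wth (lkp [])) l9541 = true ∧
    allY (E.wth (lkp [])) l9542 = true ∧
    allY (E.wth (lkp [])) l9543 = true ∧
    allY (E.wth (lkp [])) l9544 = true :=
  ⟨by decide +kernel, by decide +kernel, by decide +kernel, by decide +kernel, by decide +kernel, by decide +kernel, by decide +kernel, by decide +kernel⟩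

def t9545 : allY (E.wth (lkp [])) l9545 = true ∧
    allY (E.wth (lkp [])) l9546 = true ∧
    allY (E.wth (lkp [])) l9547 = true ∧
    allY (E.wth (lkp [])) l9548 = true ∧
    allY (E.wth (lkp [])) l9549 = true ∧
    allY (E.wth (lkp [])) l9550 = true ∧
    allY (E.wth (lkp [])) l9551 = true ∧
    allY (E.wth (lkp [])) l9552 = true :=
  ⟨by decide +kernel, by decide +kernel, by decide +kernel, by decide +kernel, by decide +kernel, by decide +kernel, by decide +kernel, by decide +kernel⟩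

def t9553 : allY (E.wth (lkp [])) l9553 = true ∧
    allY (E.wth (lkp [])) l9554 = true ∧
    allY (E.wth (lkp [])) l9555 = true ∧
    allY (E.wth (lkp [])) l9556 = true ∧
    allY (E.wth (lkp [])) l9557 = true ∧
    allY (E.wth (lkp [])) l9558 = true ∧
    allY (E.wth (lkp [])) l9559 = true ∧
    allY (E.wth (lkp [])) l9560 = true :=
  ⟨by decide +kernel, by decide +kernel, by decide +kernel, by decide +kernel, by decide +kernel, by decide +kernel, by decide +kernel, by decide +kernel⟩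

def t9561 : allY (E.wth (lkp [])) l9561 = true ∧
    allY (E.wth (lkp [])) l9562 = true ∧
    allY (E.wth (lkp [])) l9563 = true ∧
    allY (E.wth (lkp [])) l9564 = true ∧
    allY (E.wth (lkp [])) l9565 = true ∧
    allY (E.wth (lkp [])) l9566 = true ∧
    allY (E.wth (lkp [])) l9567 = true ∧
    allY (E.wth (lkp [])) l9568 = true :=
  ⟨by decide +kernel, by decide +kernel, by decide +kernel, by decide +kernel, by decide +kernel, by decide +kernel, by decide +kernel, by decide +kernel⟩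

def t9569 : allY (E.wth (lkp [])) l9569 = true ∧
    allY (E.wth (lkp [])) l9570 = true ∧
    allY (E.wth (lkp [])) l9571 = true ∧
    allY (E.wth (lkp [])) l9572 = true ∧
    allY (E.wth (lkp [])) l9573 = true ∧
    allY (E.wth (lkp [])) l9574 = true ∧
    allY (E.wth (lkp [])) l9575 = true ∧
    allY (E.wth (lkp [])) l9576 = true :=
  ⟨by decide +kernel, by decide +kernel, by decide +kernel, by decide +kernel, by decide +kernel, by decide +kernel, by decide +kernel, by decide +kernel⟩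

def t9577 : allY (E.wth (lkp [])) l9577 = true ∧
    allY (E.wth (lkp [])) l9578 = true ∧
    allY (E.wth (lkp [])) l9579 = true ∧
    allY (E.wth (lkp [])) l9580 = true ∧
    allY (E.wth (lkp [])) l9581 = true ∧
    allY (E.wth (lkp [])) l9582 = true ∧
    allY (E.wth (lkp [])) l9583 = true ∧
    allY (E.wth (lkp [])) l9584 = true :=
  ⟨by decide +kernel, by decide +kernel, by decide +kernel, by decide +kernel, by decide +kernel, by decide +kernel, by decide +kernel, by decide +kernel⟩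

def t9585 : allY (E.wth (lkp [])) l9585 = true ∧
    allY (E.wth (lkp [])) l9586 = true ∧
    allY (E.wth (lkp [])) l9587 = true ∧
    allY (E.wth (lkp [])) l9588 = true ∧
    allY (E.wth (lkp [])) l9589 = true ∧
    allY (E.wth (lkp [])) l9590 = true ∧
    allY (E.wth (lkp [])) l9591 = true ∧
    allY (E.wth (lkp [])) l9592 = true :=
  ⟨by decide +kernel, by decide +kernel, by decide +kernel, by decide +kernel, by decide +kernel, by decide +kernel, by decide +kernel, by decide +kernel⟩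

def t9593 : allY (E.wth (lkp [])) l9593 = true ∧
    allY (E.wth (lkp [])) l9594 = true ∧
    allY (E.wth (lkp [])) l9595 = true ∧
    allY (E.wth (lkp [])) l9596 = true ∧
    allY (E.wth (lkp [])) l9597 = true ∧
    allY (E.wth (lkp [])) l9598 = true ∧
    allY (E.wth (lkp [])) l9599 = true ∧
    allY (E.wth (lkp [])) l9600 = true :=
  ⟨by decide +kernel, by decide +kernel, by decide +kernel, by decide +kernel, by decide +kernel, by decide +kernel, by decide +kernel, by decide +kernel⟩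

def t9601 : allY (E.wth (lkp [])) l9601 = true ∧
    allY (E.wth (lkp [])) l9602 = true ∧
    allY (E.wth (lkp [])) l9603 = true ∧
    allY (E.wth (lkp [])) l9604 = true ∧
    allY (E.wth (lkp [])) l9605 = true ∧
    allY (E.wth (lkp [])) l9606 = true ∧
    allY (E.wth (lkp [])) l9607 = true ∧
    allY (E.wth (lkp [])) l9608 = true :=
  ⟨by decide +kernel, by decide +kernel, by decide +kernel, by decide +kernel, by decide +kernel, by decide +kernel, by decide +kernel, by decide +kernel⟩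

def t9609 : allY (E.wth (lkp [])) l9609 = true ∧
    allY (E.wth (lkp [])) l9610 = true ∧
    allY (E.wth (lkp [])) l9611 = true ∧
    allY (E.wth (lkp [])) l9612 = true ∧
    allY (E.wth (lkp [])) l9613 = true ∧
    allY (E.wth (lkp [])) l9614 = true ∧
    allY (E.wth (lkp [])) l9615 = true ∧
    allY (E.wth (lkp [])) l9616 = true :=
  ⟨by decide +kernel, by decide +kernel, by decide +kernel, by decide +kernel, by decide +kernel, by decide +kernel, by decide +kernel, by decide +kernel⟩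

def t9617 : allY (E.wth (lkp [])) l9617 = true ∧
    allY (E.wth (lkp [])) l9618 = true ∧
    allY (E.wth (lkp [])) l9619 = true ∧
    allY (E.wth (lkp [])) l9620 = true ∧
    allY (E.wth (lkp [])) l9621 = true ∧
    allY (E.wth (lkp [])) l9622 = true ∧
    allY (E.wth (lkp [])) l9623 = true ∧
    allY (E.wth (lkp [])) l9624 = true :=
  ⟨by decide +kernel, by decide +kernel, by decide +kernel, by decide +kernel, by decide +kernel, by decide +kernel, by decide +kernel, by decide +kernel⟩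

def t9625 : allY (E.wth (lkp [])) l9625 = true ∧
    allY (E.wth (lkp [])) l9626 = true ∧
    allY (E.wth (lkp [])) l9627 = true ∧
    allY (E.wth (lkp [])) l9628 = true ∧
    allY (E.wth (lkp [])) l9629 = true ∧
    allY (E.wth (lkp [])) l9630 = true ∧
    allY (E.wth (lkp [])) l9631 = true ∧
    allY (E.wth (lkp [])) l9632 = true :=
  ⟨by decide +kernel, by decide +kernel, by decide +kernel, by decide +kernel, by decide +kernel, by decide +kernel, by decide +kernel, by decide +kernel⟩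

def t9633 : allY (E.wth (lkp [])) l9633 = true ∧
    allY (E.wth (lkp [])) l9634 = true ∧
    allY (E.wth (lkp [])) l9635 = true ∧
    allY (E.wth (lkp [])) l9636 = true ∧
    allY (E.wth (lkp [])) l9637 = true ∧
    allY (E.wth (lkp [])) l9638 = true ∧
    allY (E.wth (lkp [])) l9639 = true ∧
    allY (E.wth (lkp [])) l9640 = true :=
  ⟨by decide +kernel, by decide +kernel, by decide +kernel, by decide +kernel, by decide +kernel, by decide +kernel, by decide +kernel, by decide +kernel⟩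

def t9641 : allY (E.wth (lkp [])) l9641 = true ∧
    allY (E.wth (lkp [])) l9642 = true ∧
    allY (E.wth (lkp [])) l9643 = true ∧
    allY (E.wth (lkp [])) l9644 = true ∧
    allY (E.wth (lkp [])) l9645 = true ∧
    allY (E.wth (lkp [])) l9646 = true ∧
    allY (E.wth (lkp [])) l9647 = true ∧
    allY (E.wth (lkp [])) l9648 = true :=
  ⟨by decide +kernel, by decide +kernel, by decide +kernel, by decide +kernel, by decide +kernel, by decide +kernel, by decide +kernel, by decide +kernel⟩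

def t9649 : allY (E.wth (lkp [])) l9649 = true ∧
    allY (E.wth (lkp [])) l9650 = true ∧
    allY (E.wth (lkp [])) l9651 = true ∧
    allY (E.wth (lkp [])) l9652 = true ∧
    allY (E.wth (lkp [])) l9653 = true ∧
    allY (E.wth (lkp [])) l9654 = true ∧
    allY (E.wth (lkp [])) l9655 = true ∧
    allY (E.wth (lkp [])) l9656 = true :=
  ⟨by decide +kernel, by decide +kernel, by decide +kernel, by decide +kernel, by decide +kernel, by decide +kernel, by decide +kernel, by decide +kernel⟩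

def t9657 : allY (E.wth (lkp [])) l9657 = true ∧
    allY (E.wth (lkp [])) l9658 = true ∧
    allY (E.wth (lkp [])) l9659 = true ∧
    allY (E.wth (lkp [])) l9660 = true ∧
    allY (E.wth (lkp [])) l9661 = true ∧
    allY (E.wth (lkp [])) l9662 = true ∧
    allY (E.wth (lkp [])) l9663 = true ∧
    allY (E.wth (lkp [])) l9664 = true :=
  ⟨by decide +kernel, by decide +kernel, by decide +kernel, by decide +kernel, by decide +kernel, by decide +kernel, by decide +kernel, by decide +kernel⟩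

def t9665 : allY (E.wth (lkp [])) l9665 = true ∧
    allY (E.wth (lkp [])) l9666 = true ∧
    allY (E.wth (lkp [])) l9667 = true ∧
    allY (E.wth (lkp [])) l9668 = true ∧
    allY (E.wth (lkp [])) l9669 = true ∧
    allY (E.wth (lkp [])) l9670 = true ∧
    allY (E.wth (lkp [])) l9671 = true ∧
    allY (E.wth (lkp [])) l9672 = true :=
  ⟨by decide +kernel, by decide +kernel, by decide +kernel, by decide +kernel, by decide +kernel, by decide +kernel, by decide +kernel, by decide +kernel⟩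

def t9673 : allY (E.wth (lkp [])) l9673 = true ∧
    allY (E.wth (lkp [])) l9674 = true ∧
    allY (E.wth (lkp [])) l9675 = true ∧
    allY (E.wth (lkp [])) l9676 = true ∧
    allY (E.wth (lkp [])) l9677 = true ∧
    allY (E.wth (lkp [])) l9678 = true ∧
    allY (E.wth (lkp [])) l9679 = true ∧
    allY (E.wth (lkp [])) l9680 = true :=
  ⟨by decide +kernel, by decide +kernel, by decide +kernel, by decide +kernel, by decide +kernel, by decide +kernel, by decide +kernel, by decide +kernel⟩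

def t9681 : allY (E.wth (lkp [])) l9681 = true ∧
    allY (E.wth (lkp [])) l9682 = true ∧
    allY (E.wth (lkp [])) l9683 = true ∧
    allY (E.wth (lkp [])) l9684 = true ∧
    allY (E.wth (lkp [])) l9685 = true ∧
    allY (E.wth (lkp [])) l9686 = true ∧
    allY (E.wth (lkp [])) l9687 = true ∧
    allY (E.wth (lkp [])) l9688 = true :=
  ⟨by decide +kernel, by decide +kernel, by decide +kernel, by decide +kernel, by decide +kernel, by decide +kernel, by decide +kernel, by decide +kernel⟩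

def t9689 : allY (E.wth (lkp [])) l9689 = true ∧
    allY (E.wth (lkp [])) l9690 = true ∧
    allY (E.wth (lkp [])) l9691 = true ∧
    allY (E.wth (lkp [])) l9692 = true ∧
    allY (E.wth (lkp [])) l9693 = true ∧
    allY (E.wth (lkp [])) l9694 = true ∧
    allY (E.wth (lkp [])) l9695 = true ∧
    allY (E.wth (lkp [])) l9696 = true :=
  ⟨by decide +kernel, by decide +kernel, by decide +kernel, by decide +kernel, by decide +kernel, by decide +kernel, by decide +kernel, by decide +kernel⟩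

def t9697 : allY (E.wth (lkp [])) l9697 = true ∧
    allY (E.wth (lkp [])) l9698 = true ∧
    allY (E.wth (lkp [])) l9699 = true ∧
    allY (E.wth (lkp [])) l9700 = true ∧
    allY (E.wth (lkp [])) l9701 = true ∧
    allY (E.wth (lkp [])) l9702 = true ∧
    allY (E.wth (lkp [])) l9703 = true ∧
    allY (E.wth (lkp [])) l9704 = true :=
  ⟨by decide +kernel, by decide +kernel, by decide +kernel, by decide +kernel, by decide +kernel, by decide +kernel, by decide +kernel, by decide +kernel⟩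

def t9705 : allY (E.wth (lkp [])) l9705 = true ∧
    allY (E.wth (lkp [])) l9706 = true ∧
    allY (E.wth (lkp [])) l9707 = true ∧
    allY (E.wth (lkp [])) l9708 = true ∧
    allY (E.wth (lkp [])) l9709 = true ∧
    allY (E.wth (lkp [])) l9710 = true ∧
    allY (E.wth (lkp [])) l9711 = true ∧
    allY (E.wth (lkp [])) l9712 = true :=
  ⟨by decide +kernel, by decide +kernel, by decide +kernel, by decide +kernel, by decide +kernel, by decide +kernel, by decide +kernel, by decide +kernel⟩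

def t9713 : allY (E.wth (lkp [])) l9713 = true ∧
    allY (E.wth (lkp [])) l9714 = true ∧
    allY (E.wth (lkp [])) l9715 = true ∧
    allY (E.wth (lkp [])) l9716 = true ∧
    allY (E.wth (lkp [])) l9717 = true ∧
    allY (E.wth (lkp [])) l9718 = true ∧
    allY (E.wth (lkp [])) l9719 = true ∧
    allY (E.wth (lkp [])) l9720 = true :=
  ⟨by decide +kernel, by decide +kernel, by decide +kernel, by decide +kernel, by decide +kernel, by decide +kernel, by decide +kernel, by decide +kernel⟩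

def t9721 : allY (E.wth (lkp [])) l9721 = true ∧
    allY (E.wth (lkp [])) l9722 = true ∧
    allY (E.wth (lkp [])) l9723 = true ∧
    allY (E.wth (lkp [])) l9724 = true ∧
    allY (E.wth (lkp [])) l9725 = true ∧
    allY (E.wth (lkp [])) l9726 = true ∧
    allY (E.wth (lkp [])) l9727 = true ∧
    allY (E.wth (lkp [])) l9728 = true :=
  ⟨by decide +kernel, by decide +kernel, by decide +kernel, by decide +kernel, by decide +kernel, by decide +kernel, by decide +kernel, by decide +kernel⟩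

def t9729 : allY (E.wth (lkp [])) l9729 = true ∧
    allY (E.wth (lkp [])) l9730 = true ∧
    allY (E.wth (lkp [])) l9731 = true ∧
    allY (E.wth (lkp [])) l9732 = true ∧
    allY (E.wth (lkp [])) l9733 = true ∧
    allY (E.wth (lkp [])) l9734 = true ∧
    allY (E.wth (lkp [])) l9735 = true ∧
    allY (E.wth (lkp [])) l9736 = true :=
  ⟨by decide +kernel, by decide +kernel, by decide +kernel, by decide +kernel, by decide +kernel, by decide +kernel, by decide +kernel, by decide +kernel⟩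

def t9737 : allY (E.wth (lkp [])) l9737 = true ∧
    allY (E.wth (lkp [])) l9738 = true ∧
    allY (E.wth (lkp [])) l9739 = true ∧
    allY (E.wth (lkp [])) l9740 = true ∧
    allY (E.wth (lkp [])) l9741 = true ∧
    allY (E.wth (lkp [])) l9742 = true ∧
    allY (E.wth (lkp [])) l9743 = true ∧
    allY (E.wth (lkp [])) l9744 = true :=
  ⟨by decide +kernel, by decide +kernel, by decide +kernel, by decide +kernel, by decide +kernel, by decide +kernel, by decide +kernel, by decide +kernel⟩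

def t9745 : allY (E.wth (lkp [])) l9745 = true ∧
    allY (E.wth (lkp [])) l9746 = true ∧
    allY (E.wth (lkp [])) l9747 = true ∧
    allY (E.wth (lkp [])) l9748 = true ∧
    allY (E.wth (lkp [])) l9749 = true ∧
    allY (E.wth (lkp [])) l9750 = true ∧
    allY (E.wth (lkp [])) l9751 = true ∧
    allY (E.wth (lkp [])) l9752 = true :=
  ⟨by decide +kernel, by decide +kernel, by decide +kernel, by decide +kernel, by decide +kernel, by decide +kernel, by decide +kernel, by decide +kernel⟩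

def t9753 : allY (E.wth (lkp [])) l9753 = true ∧
    allY (E.wth (lkp [])) l9754 = true ∧
    allY (E.wth (lkp [])) l9755 = true ∧
    allY (E.wth (lkp [])) l9756 = true ∧
    allY (E.wth (lkp [])) l9757 = true ∧
    allY (E.wth (lkp [])) l9758 = true ∧
    allY (E.wth (lkp [])) l9759 = true ∧
    allY (E.wth (lkp [])) l9760 = true :=
  ⟨by decide +kernel, by decide +kernel, by decide +kernel, by decide +kernel, by decide +kernel, by decide +kernel, by decide +kernel, by decide +kernel⟩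

def t9761 : allY (E.wth (lkp [])) l9761 = true ∧
    allY (E.wth (lkp [])) l9762 = true ∧
    allY (E.wth (lkp [])) l9763 = true ∧
    allY (E.wth (lkp [])) l9764 = true ∧
    allY (E.wth (lkp [])) l9765 = true ∧
    allY (E.wth (lkp [])) l9766 = true ∧
    allY (E.wth (lkp [])) l9767 = true ∧
    allY (E.wth (lkp [])) l9768 = true :=
  ⟨by decide +kernel, by decide +kernel, by decide +kernel, by decide +kernel, by decide +kernel, by decide +kernel, by decide +kernel, by decide +kernel⟩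

def t9769 : allY (E.wth (lkp [])) l9769 = true ∧
    allY (E.wth (lkp [])) l9770 = true ∧
    allY (E.wth (lkp [])) l9771 = true ∧
    allY (E.wth (lkp [])) l9772 = true ∧
    allY (E.wth (lkp [])) l9773 = true ∧
    allY (E.wth (lkp [])) l9774 = true ∧
    allY (E.wth (lkp [])) l9775 = true ∧
    allY (E.wth (lkp [])) l9776 = true :=
  ⟨by decide +kernel, by decide +kernel, by decide +kernel, by decide +kernel, by decide +kernel, by decide +kernel, by decide +kernel, by decide +kernel⟩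

def t9777 : allY (E.wth (lkp [])) l9777 = true ∧
    allY (E.wth (lkp [])) l9778 = true ∧
    allY (E.wth (lkp [])) l9779 = true ∧
    allY (E.wth (lkp [])) l9780 = true ∧
    allY (E.wth (lkp [])) l9781 = true ∧
    allY (E.wth (lkp [])) l9782 = true ∧
    allY (E.wth (lkp [])) l9783 = true ∧
    allY (E.wth (lkp [])) l9784 = true :=
  ⟨by decide +kernel, by decide +kernel, by decide +kernel, by decide +kernel, by decide +kernel, by decide +kernel, by decide +kernel, by decide +kernel⟩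

def t9785 : allY (E.wth (lkp [])) l9785 = true ∧
    allY (E.wth (lkp [])) l9786 = true ∧
    allY (E.wth (lkp [])) l9787 = true ∧
    allY (E.wth (lkp [])) l9788 = true ∧
    allY (E.wth (lkp [])) l9789 = true ∧
    allY (E.wth (lkp [])) l9790 = true ∧
    allY (E.wth (lkp [])) l9791 = true ∧
    allY (E.wth (lkp [])) l9792 = true :=
  ⟨by decide +kernel, by decide +kernel, by decide +kernel, by decide +kernel, by decide +kernel, by decide +kernel, by decide +kernel, by decide +kernel⟩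

def t9793 : allY (E.wth (lkp [])) l9793 = true ∧
    allY (E.wth (lkp [])) l9794 = true ∧
    allY (E.wth (lkp [])) l9795 = true ∧
    allY (E.wth (lkp [])) l9796 = true ∧
    allY (E.wth (lkp [])) l9797 = true ∧
    allY (E.wth (lkp [])) l9798 = true ∧
    allY (E.wth (lkp [])) l9799 = true ∧
    allY (E.wth (lkp [])) l9800 = true :=
  ⟨by decide +kernel, by decide +kernel, by decide +kernel, by decide +kernel, by decide +kernel, by decide +kernel, by decide +kernel, by decide +kernel⟩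

def t9801 : allY (E.wth (lkp [])) l9801 = true ∧
    allY (E.wth (lkp [])) l9802 = true ∧
    allY (E.wth (lkp [])) l9803 = true ∧
    allY (E.wth (lkp [])) l9804 = true ∧
    allY (E.wth (lkp [])) l9805 = true ∧
    allY (E.wth (lkp [])) l9806 = true ∧
    allY (E.wth (lkp [])) l9807 = true ∧
    allY (E.wth (lkp [])) l9808 = true :=
  ⟨by decide +kernel, by decide +kernel, by decide +kernel, by decide +kernel, by decide +kernel, by decide +kernel, by decide +kernel, by decide +kernel⟩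

def t9809 : allY (E.wth (lkp [])) l9809 = true ∧
    allY (E.wth (lkp [])) l9810 = true ∧
    allY (E.wth (lkp [])) l9811 = true ∧
    allY (E.wth (lkp [])) l9812 = true ∧
    allY (E.wth (lkp [])) l9813 = true ∧
    allY (E.wth (lkp [])) l9814 = true ∧
    allY (E.wth (lkp [])) l9815 = true ∧
    allY (E.wth (lkp [])) l9816 = true :=
  ⟨by decide +kernel, by decide +kernel, by decide +kernel, by decide +kernel, by decide +kernel, by decide +kernel, by decide +kernel, by decide +kernel⟩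

def t9817 : allY (E.wth (lkp [])) l9817 = true ∧
    allY (E.wth (lkp [])) l9818 = true ∧
    allY (E.wth (lkp [])) l9819 = true ∧
    allY (E.wth (lkp [])) l9820 = true ∧
    allY (E.wth (lkp [])) l9821 = true ∧
    allY (E.wth (lkp [])) l9822 = true ∧
    allY (E.wth (lkp [])) l9823 = true ∧
    allY (E.wth (lkp [])) l9824 = true :=
  ⟨by decide +kernel, by decide +kernel, by decide +kernel, by decide +kernel, by decide +kernel, by decide +kernel, by decide +kernel, by decide +kernel⟩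

def t9825 : allY (E.wth (lkp [])) l9825 = true ∧
    allY (E.wth (lkp [])) l9826 = true ∧
    allY (E.wth (lkp [])) l9827 = true ∧
    allY (E.wth (lkp [])) l9828 = true ∧
    allY (E.wth (lkp [])) l9829 = true ∧
    allY (E.wth (lkp [])) l9830 = true ∧
    allY (E.wth (lkp [])) l9831 = true ∧
    allY (E.wth (lkp [])) l9832 = true :=
  ⟨by decide +kernel, by decide +kernel, by decide +kernel, by decide +kernel, by decide +kernel, by decide +kernel, by decide +kernel, by decide +kernel⟩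

def t9833 : allY (E.wth (lkp [])) l9833 = true ∧
    allY (E.wth (lkp [])) l9834 = true ∧
    allY (E.wth (lkp [])) l9835 = true ∧
    allY (E.wth (lkp [])) l9836 = true ∧
    allY (E.wth (lkp [])) l9837 = true ∧
    allY (E.wth (lkp [])) l9838 = true ∧
    allY (E.wth (lkp [])) l9839 = true ∧
    allY (E.wth (lkp [])) l9840 = true :=
  ⟨by decide +kernel, by decide +kernel, by decide +kernel, by decide +kernel, by decide +kernel, by decide +kernel, by decide +kernel, by decide +kernel⟩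

def t9841 : allY (E.wth (lkp [])) l9841 = true ∧
    allY (E.wth (lkp [])) l9842 = true ∧
    allY (E.wth (lkp [])) l9843 = true ∧
    allY (E.wth (lkp [])) l9844 = true ∧
    allY (E.wth (lkp [])) l9845 = true ∧
    allY (E.wth (lkp [])) l9846 = true ∧
    allY (E.wth (lkp [])) l9847 = true ∧
    allY (E.wth (lkp [])) l9848 = true :=
  ⟨by decide +kernel, by decide +kernel, by decide +kernel, by decide +kernel, by decide +kernel, by decide +kernel, by decide +kernel, by decide +kernel⟩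

def t9849 : allY (E.wth (lkp [])) l9849 = true ∧
    allY (E.wth (lkp [])) l9850 = true ∧
    allY (E.wth (lkp [])) l9851 = true ∧
    allY (E.wth (lkp [])) l9852 = true ∧
    allY (E.wth (lkp [])) l9853 = true ∧
    allY (E.wth (lkp [])) l9854 = true ∧
    allY (E.wth (lkp [])) l9855 = true ∧
    allY (E.wth (lkp [])) l9856 = true :=
  ⟨by decide +kernel, by decide +kernel, by decide +kernel, by decide +kernel, by decide +kernel, by decide +kernel, by decide +kernel, by decide +kernel⟩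

def t9857 : allY (E.wth (lkp [])) l9857 = true ∧
    allY (E.wth (lkp [])) l9858 = true ∧
    allY (E.wth (lkp [])) l9859 = true ∧
    allY (E.wth (lkp [])) l9860 = true ∧
    allY (E.wth (lkp [])) l9861 = true ∧
    allY (E.wth (lkp [])) l9862 = true ∧
    allY (E.wth (lkp [])) l9863 = true ∧
    allY (E.wth (lkp [])) l9864 = true :=
  ⟨by decide +kernel, by decide +kernel, by decide +kernel, by decide +kernel, by decide +kernel, by decide +kernel, by decide +kernel, by decide +kernel⟩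

def t9865 : allY (E.wth (lkp [])) l9865 = true ∧
    allY (E.wth (lkp [])) l9866 = true ∧
    allY (E.wth (lkp [])) l9867 = true ∧
    allY (E.wth (lkp [])) l9868 = true ∧
    allY (E.wth (lkp [])) l9869 = true ∧
    allY (E.wth (lkp [])) l9870 = true ∧
    allY (E.wth (lkp [])) l9871 = true ∧
    allY (E.wth (lkp [])) l9872 = true :=
  ⟨by decide +kernel, by decide +kernel, by decide +kernel, by decide +kernel, by decide +kernel, by decide +kernel, by decide +kernel, by decide +kernel⟩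

def t9873 : allY (E.wth (lkp [])) l9873 = true ∧
    allY (E.wth (lkp [])) l9874 = true ∧
    allY (E.wth (lkp [])) l9875 = true ∧
    allY (E.wth (lkp [])) l9876 = true ∧
    allY (E.wth (lkp [])) l9877 = true ∧
    allY (E.wth (lkp [])) l9878 = true ∧
    allY (E.wth (lkp [])) l9879 = true ∧
    allY (E.wth (lkp [])) l9880 = true :=
  ⟨by decide +kernel, by decide +kernel, by decide +kernel, by decide +kernel, by decide +kernel, by decide +kernel, by decide +kernel, by decide +kernel⟩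

def t9881 : allY (E.wth (lkp [])) l9881 = true ∧
    allY (E.wth (lkp [])) l9882 = true ∧
    allY (E.wth (lkp [])) l9883 = true ∧
    allY (E.wth (lkp [])) l9884 = true ∧
    allY (E.wth (lkp [])) l9885 = true ∧
    allY (E.wth (lkp [])) l9886 = true ∧
    allY (E.wth (lkp [])) l9887 = true ∧
    allY (E.wth (lkp [])) l9888 = true :=
  ⟨by decide +kernel, by decide +kernel, by decide +kernel, by decide +kernel, by decide +kernel, by decide +kernel, by decide +kernel, by decide +kernel⟩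

def t9889 : allY (E.wth (lkp [])) l9889 = true ∧
    allY (E.wth (lkp [])) l9890 = true ∧
    allY (E.wth (lkp [])) l9891 = true ∧
    allY (E.wth (lkp [])) l9892 = true ∧
    allY (E.wth (lkp [])) l9893 = true ∧
    allY (E.wth (lkp [])) l9894 = true ∧
    allY (E.wth (lkp [])) l9895 = true ∧
    allY (E.wth (lkp [])) l9896 = true :=
  ⟨by decide +kernel, by decide +kernel, by decide +kernel, by decide +kernel, by decide +kernel, by decide +kernel, by decide +kernel, by decide +kernel⟩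

def t9897 : allY (E.wth (lkp [])) l9897 = true ∧
    allY (E.wth (lkp [])) l9898 = true ∧
    allY (E.wth (lkp [])) l9899 = true ∧
    allY (E.wth (lkp [])) l9900 = true ∧
    allY (E.wth (lkp [])) l9901 = true ∧
    allY (E.wth (lkp [])) l9902 = true ∧
    allY (E.wth (lkp [])) l9903 = true ∧
    allY (E.wth (lkp [])) l9904 = true :=
  ⟨by decide +kernel, by decide +kernel, by decide +kernel, by decide +kernel, by decide +kernel, by decide +kernel, by decide +kernel, by decide +kernel⟩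

def t9905 : allY (E.wth (lkp [])) l9905 = true ∧
    allY (E.wth (lkp [])) l9906 = true ∧
    allY (E.wth (lkp [])) l9907 = true ∧
    allY (E.wth (lkp [])) l9908 = true ∧
    allY (E.wth (lkp [])) l9909 = true ∧
    allY (E.wth (lkp [])) l9910 = true ∧
    allY (E.wth (lkp [])) l9911 = true ∧
    allY (E.wth (lkp [])) l9912 = true :=
  ⟨by decide +kernel, by decide +kernel, by decide +kernel, by decide +kernel, by decide +kernel, by decide +kernel, by decide +kernel, by decide +kernel⟩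

def t9913 : allY (E.wth (lkp [])) l9913 = true ∧
    allY (E.wth (lkp [])) l9914 = true ∧
    allY (E.wth (lkp [])) l9915 = true ∧
    allY (E.wth (lkp [])) l9916 = true ∧
    allY (E.wth (lkp [])) l9917 = true ∧
    allY (E.wth (lkp [])) l9918 = true ∧
    allY (E.wth (lkp [])) l9919 = true ∧
    allY (E.wth (lkp [])) l9920 = true :=
  ⟨by decide +kernel, by decide +kernel, by decide +kernel, by decide +kernel, by decide +kernel, by decide +kernel, by decide +kernel, by decide +kernel⟩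

def t9921 : allY (E.wth (lkp [])) l9921 = true ∧
    allY (E.wth (lkp [])) l9922 = true ∧
    allY (E.wth (lkp [])) l9923 = true ∧
    allY (E.wth (lkp [])) l9924 = true ∧
    allY (E.wth (lkp [])) l9925 = true ∧
    allY (E.wth (lkp [])) l9926 = true ∧
    allY (E.wth (lkp [])) l9927 = true ∧
    allY (E.wth (lkp [])) l9928 = true :=
  ⟨by decide +kernel, by decide +kernel, by decide +kernel, by decide +kernel, by decide +kernel, by decide +kernel, by decide +kernel, by decide +kernel⟩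

def t9929 : allY (E.wth (lkp [])) l9929 = true ∧
    allY (E.wth (lkp [])) l9930 = true ∧
    allY (E.wth (lkp [])) l9931 = true ∧
    allY (E.wth (lkp [])) l9932 = true ∧
    allY (E.wth (lkp [])) l9933 = true ∧
    allY (E.wth (lkp [])) l9934 = true ∧
    allY (E.wth (lkp [])) l9935 = true ∧
    allY (E.wth (lkp [])) l9936 = true :=
  ⟨by decide +kernel, by decide +kernel, by decide +kernel, by decide +kernel, by decide +kernel, by decide +kernel, by decide +kernel, by decide +kernel⟩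

def t9937 : allY (E.wth (lkp [])) l9937 = true ∧
    allY (E.wth (lkp [])) l9938 = true ∧
    allY (E.wth (lkp [])) l9939 = true ∧
    allY (E.wth (lkp [])) l9940 = true ∧
    allY (E.wth (lkp [])) l9941 = true ∧
    allY (E.wth (lkp [])) l9942 = true ∧
    allY (E.wth (lkp [])) l9943 = true ∧
    allY (E.wth (lkp [])) l9944 = true :=
  ⟨by decide +kernel, by decide +kernel, by decide +kernel, by decide +kernel, by decide +kernel, by decide +kernel, by decide +kernel, by decide +kernel⟩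

def t9945 : allY (E.wth (lkp [])) l9945 = true ∧
    allY (E.wth (lkp [])) l9946 = true ∧
    allY (E.wth (lkp [])) l9947 = true ∧
    allY (E.wth (lkp [])) l9948 = true ∧
    allY (E.wth (lkp [])) l9949 = true ∧
    allY (E.wth (lkp [])) l9950 = true ∧
    allY (E.wth (lkp [])) l9951 = true ∧
    allY (E.wth (lkp [])) l9952 = true :=
  ⟨by decide +kernel, by decide +kernel, by decide +kernel, by decide +kernel, by decide +kernel, by decide +kernel, by decide +kernel, by decide +kernel⟩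

def t9953 : allY (E.wth (lkp [])) l9953 = true ∧
    allY (E.wth (lkp [])) l9954 = true ∧
    allY (E.wth (lkp [])) l9955 = true ∧
    allY (E.wth (lkp [])) l9956 = true ∧
    allY (E.wth (lkp [])) l9957 = true ∧
    allY (E.wth (lkp [])) l9958 = true ∧
    allY (E.wth (lkp [])) l9959 = true ∧
    allY (E.wth (lkp [])) l9960 = true :=
  ⟨by decide +kernel, by decide +kernel, by decide +kernel, by decide +kernel, by decide +kernel, by decide +kernel, by decide +kernel, by decide +kernel⟩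

def t9961 : allY (E.wth (lkp [])) l9961 = true ∧
    allY (E.wth (lkp [])) l9962 = true ∧
    allY (E.wth (lkp [])) l9963 = true ∧
    allY (E.wth (lkp [])) l9964 = true ∧
    allY (E.wth (lkp [])) l9965 = true ∧
    allY (E.wth (lkp [])) l9966 = true ∧
    allY (E.wth (lkp [])) l9967 = true ∧
    allY (E.wth (lkp [])) l9968 = true :=
  ⟨by decide +kernel, by decide +kernel, by decide +kernel, by decide +kernel, by decide +kernel, by decide +kernel, by decide +kernel, by decide +kernel⟩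

def t9969 : allY (E.wth (lkp [])) l9969 = true ∧
    allY (E.wth (lkp [])) l9970 = true ∧
    allY (E.wth (lkp [])) l9971 = true ∧
    allY (E.wth (lkp [])) l9972 = true ∧
    allY (E.wth (lkp [])) l9973 = true ∧
    allY (E.wth (lkp [])) l9974 = true ∧
    allY (E.wth (lkp [])) l9975 = true ∧
    allY (E.wth (lkp [])) l9976 = true :=
  ⟨by decide +kernel, by decide +kernel, by decide +kernel, by decide +kernel, by decide +kernel, by decide +kernel, by decide +kernel, by decide +kernel⟩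

def t9977 : allY (E.wth (lkp [])) l9977 = true ∧
    allY (E.wth (lkp [])) l9978 = true ∧
    allY (E.wth (lkp [])) l9979 = true ∧
    allY (E.wth (lkp [])) l9980 = true ∧
    allY (E.wth (lkp [])) l9981 = true ∧
    allY (E.wth (lkp [])) l9982 = true ∧
    allY (E.wth (lkp [])) l9983 = true ∧
    allY (E.wth (lkp [])) l9984 = true :=
  ⟨by decide +kernel, by decide +kernel, by decide +kernel, by decide +kernel, by decide +kernel, by decide +kernel, by decide +kernel, by decide +kernel⟩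

def t9985 : allY (E.wth (lkp [])) l9985 = true ∧
    allY (E.wth (lkp [])) l9986 = true ∧
    allY (E.wth (lkp [])) l9987 = true ∧
    allY (E.wth (lkp [])) l9988 = true ∧
    allY (E.wth (lkp [])) l9989 = true ∧
    allY (E.wth (lkp [])) l9990 = true ∧
    allY (E.wth (lkp [])) l9991 = true ∧
    allY (E.wth (lkp [])) l9992 = true :=
  ⟨by decide +kernel, by decide +kernel, by decide +kernel, by decide +kernel, by decide +kernel, by decide +kernel, by decide +kernel, by decide +kernel⟩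

def t9993 : allY (E.wth (lkp [])) l9993 = true ∧
    allY (E.wth (lkp [])) l9994 = true ∧
    allY (E.wth (lkp [])) l9995 = true ∧
    allY (E.wth (lkp [])) l9996 = true ∧
    allY (E.wth (lkp [])) l9997 = true ∧
    allY (E.wth (lkp [])) l9998 = true ∧
    allY (E.wth (lkp [])) l9999 = true ∧
    allY (E.wth (lkp [])) l10000 = true :=
  ⟨by decide +kernel, by decide +kernel, by decide +kernel, by decide +kernel, by decide +kernel, by decide +kernel, by decide +kernel, by decide +kernel⟩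

def t10001 : allY (E.wth (lkp [])) l10001 = true ∧
    allY (E.wth (lkp [])) l10002 = true ∧
    allY (E.wth (lkp [])) l10003 = true ∧
    allY (E.wth (lkp [])) l10004 = true ∧
    allY (E.wth (lkp [])) l10005 = true ∧
    allY (E.wth (lkp [])) l10006 = true ∧
    allY (E.wth (lkp [])) l10007 = true ∧
    allY (E.wth (lkp [])) l10008 = true :=
  ⟨by decide +kernel, by decide +kernel, by decide +kernel, by decide +kernel, by decide +kernel, by decide +kernel, by decide +kernel, by decide +kernel⟩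

def t10009 : allY (E.wth (lkp [])) l10009 = true ∧
    allY (E.wth (lkp [])) l10010 = true ∧
    allY (E.wth (lkp [])) l10011 = true ∧
    allY (E.wth (lkp [])) l10012 = true ∧
    allY (E.wth (lkp [])) l10013 = true ∧
    allY (E.wth (lkp [])) l10014 = true ∧
    allY (E.wth (lkp [])) l10015 = true ∧
    allY (E.wth (lkp [])) l10016 = true :=
  ⟨by decide +kernel, by decide +kernel, by decide +kernel, by decide +kernel, by decide +kernel, by decide +kernel, by decide +kernel, by decide +kernel⟩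

def t10017 : allY (E.wth (lkp [])) l10017 = true ∧
    allY (E.wth (lkp [])) l10018 = true ∧
    allY (E.wth (lkp [])) l10019 = true ∧
    allY (E.wth (lkp [])) l10020 = true ∧
    allY (E.wth (lkp [])) l10021 = true ∧
    allY (E.wth (lkp [])) l10022 = true ∧
    allY (E.wth (lkp [])) l10023 = true ∧
    allY (E.wth (lkp [])) l10024 = true :=
  ⟨by decide +kernel, by decide +kernel, by decide +kernel, by decide +kernel, by decide +kernel, by decide +kernel, by decide +kernel, by decide +kernel⟩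

def t10025 : allY (E.wth (lkp [])) l10025 = true ∧
    allY (E.wth (lkp [])) l10026 = true ∧
    allY (E.wth (lkp [])) l10027 = true ∧
    allY (E.wth (lkp [])) l10028 = true ∧
    allY (E.wth (lkp [])) l10029 = true ∧
    allY (E.wth (lkp [])) l10030 = true ∧
    allY (E.wth (lkp [])) l10031 = true ∧
    allY (E.wth (lkp [])) l10032 = true :=
  ⟨by decide +kernel, by decide +kernel, by decide +kernel, by decide +kernel, by decide +kernel, by decide +kernel, by decide +kernel, by decide +kernel⟩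

def t10033 : allY (E.wth (lkp [])) l10033 = true ∧
    allY (E.wth (lkp [])) l10034 = true ∧
    allY (E.wth (lkp [])) l10035 = true ∧
    allY (E.wth (lkp [])) l10036 = true ∧
    allY (E.wth (lkp [])) l10037 = true ∧
    allY (E.wth (lkp [])) l10038 = true ∧
    allY (E.wth (lkp [])) l10039 = true ∧
    allY (E.wth (lkp [])) l10040 = true :=
  ⟨by decide +kernel, by decide +kernel, by decide +kernel, by decide +kernel, by decide +kernel, by decide +kernel, by decide +kernel, by decide +kernel⟩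

def t10041 : allY (E.wth (lkp [])) l10041 = true ∧
    allY (E.wth (lkp [])) l10042 = true ∧
    allY (E.wth (lkp [])) l10043 = true ∧
    allY (E.wth (lkp [])) l10044 = true ∧
    allY (E.wth (lkp [])) l10045 = true ∧
    allY (E.wth (lkp [])) l10046 = true ∧
    allY (E.wth (lkp [])) l10047 = true ∧
    allY (E.wth (lkp [])) l10048 = true :=
  ⟨by decide +kernel, by decide +kernel, by decide +kernel, by decide +kernel, by decide +kernel, by decide +kernel, by decide +kernel, by decide +kernel⟩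

def t10049 : allY (E.wth (lkp [])) l10049 = true ∧
    allY (E.wth (lkp [])) l10050 = true ∧
    allY (E.wth (lkp [])) l10051 = true ∧
    allY (E.wth (lkp [])) l10052 = true ∧
    allY (E.wth (lkp [])) l10053 = true ∧
    allY (E.wth (lkp [])) l10054 = true ∧
    allY (E.wth (lkp [])) l10055 = true ∧
    allY (E.wth (lkp [])) l10056 = true :=
  ⟨by decide +kernel, by decide +kernel, by decide +kernel, by decide +kernel, by decide +kernel, by decide +kernel, by decide +kernel, by decide +kernel⟩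

def t10057 : allY (E.wth (lkp [])) l10057 = true ∧
    allY (E.wth (lkp [])) l10058 = true ∧
    allY (E.wth (lkp [])) l10059 = true ∧
    allY (E.wth (lkp [])) l10060 = true :=
  ⟨by decide +kernel, by decide +kernel, by decide +kernel, by decide +kernel⟩

theorem a17 {p : Rf → Prop} (H : ∀ l, allY (E.wth (lkp [])) l = true → (lkp l).All p) :
    b17.All p := ⟨⟨⟨⟨⟨⟨⟨⟨⟨H _ t9505.1, H _ t9505.2.1⟩, ⟨H _ t9505.2.2.1, H _ t9505.2.2.2.1⟩⟩, ⟨⟨H _ t9505.2.2.2.2.1, H _ t9505.2.2.2.2.2.1⟩, ⟨H _ t9505.2.2.2.2.2.2.1, H _ t9505.2.2.2.2.2.2.2⟩⟩⟩, ⟨⟨⟨H _ t9513.1, H _ t9513.2.1⟩, ⟨H _ t9513.2.2.1, H _ t9513.2.2.2.1⟩⟩, ⟨⟨H _ t9513.2.2.2.2.1, H _ t9513.2.2.2.2.2.1⟩, ⟨H _ t9513.2.2.2.2.2.2.1, ⟨H _ t9513.2.2.2.2.2.2.2, H _ t9521.1⟩⟩⟩⟩⟩, ⟨⟨⟨⟨H _ t9521.2.1, H _ t9521.2.2.1⟩, ⟨H _ t9521.2.2.2.1, H _ t9521.2.2.2.2.1⟩⟩, ⟨⟨H _ t9521.2.2.2.2.2.1, H _ t9521.2.2.2.2.2.2.1⟩, ⟨H _ t9521.2.2.2.2.2.2.2,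 H _ t9529.1⟩⟩⟩, ⟨⟨⟨H _ t9529.2.1, H _ t9529.2.2.1⟩, ⟨H _ t9529.2.2.2.1, H _ t9529.2.2.2.2.1⟩⟩, ⟨⟨H _ t9529.2.2.2.2.2.1, H _ t9529.2.2.2.2.2.2.1⟩, ⟨H _ t9529.2.2.2.2.2.2.2, ⟨H _ t9537.1, H _ t9537.2.1⟩⟩⟩⟩⟩⟩, ⟨⟨⟨⟨⟨H _ t9537.2.2.1, H _ t9537.2.2.2.1⟩, ⟨H _ t9537.2.2.2.2.1, H _ t9537.2.2.2.2.2.1⟩⟩, ⟨⟨H _ t9537.2.2.2.2.2.2.1, H _ t9537.2.2.2.2.2.2.2⟩, ⟨H _ t9545.1, H _ t9545.2.1⟩⟩⟩, ⟨⟨⟨H _ t9545.2.2.1, H _ t9545.2.2.2.1⟩, ⟨H _ t9545.2.2.2.2.1, H _ t9545.2.2.2.2.2.1⟩⟩, ⟨⟨H _ t9545.2.2.2.2.2.2.1, H _ t9545.2.2.2.2.2.2.2⟩, ⟨H _ t9553.1, ⟨H _ t9553.2.1, H _ t9553.2.2.1⟩⟩⟩⟩⟩, ⟨⟨⟨⟨H _ t9553.2.2.2.1, H _ t9553.2.2.2.2.1⟩, ⟨H _ t9553.2.2.2.2.2.1, H _ t9553.2.2.2.2.2.2.1⟩⟩, ⟨⟨H _ t9553.2.2.2.2.2.2.2, H _ t9561.1⟩, ⟨H _ t9561.2.1, ⟨H _ t9561.2.2.1, H _ t9561.2.2.2.1⟩⟩⟩⟩, ⟨⟨⟨H _ t9561.2.2.2.2.1, H _ t9561.2.2.2.2.2.1⟩, ⟨H _ t9561.2.2.2.2.2.2.1, H _ t9561.2.2.2.2.2.2.2⟩⟩, ⟨⟨H _ t9569.1, H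 _ t9569.2.1⟩, ⟨H _ t9569.2.2.1, ⟨H _ t9569.2.2.2.1, H _ t9569.2.2.2.2.1⟩⟩⟩⟩⟩⟩⟩, ⟨⟨⟨⟨⟨⟨H _ t9569.2.2.2.2.2.1, H _ t9569.2.2.2.2.2.2.1⟩, ⟨H _ t9569.2.2.2.2.2.2.2, H _ t9577.1⟩⟩, ⟨⟨H _ t9577.2.1, H _ t9577.2.2.1⟩, ⟨H _ t9577.2.2.2.1, H _ t9577.2.2.2.2.1⟩⟩⟩, ⟨⟨⟨H _ t9577.2.2.2.2.2.1, H _ t9577.2.2.2.2.2.2.1⟩, ⟨H _ t9577.2.2.2.2.2.2.2, H _ t9585.1⟩⟩, ⟨⟨H _ t9585.2.1, H _ t9585.2.2.1⟩, ⟨H _ t9585.2.2.2.1, ⟨H _ t9585.2.2.2.2.1, H _ t9585.2.2.2.2.2.1⟩⟩⟩⟩⟩, ⟨⟨⟨⟨H _ t9585.2.2.2.2.2.2.1, H _ t9585.2.2.2.2.2.2.2⟩, ⟨H _ t9593.1, H _ t9593.2.1⟩⟩, ⟨⟨H _ t9593.2.2.1, H _ t9593.2.2.2.1⟩, ⟨H _ t9593.2.2.2.2.1, ⟨H _ t9593.2.2.2.2.2.1, H _ t9593.2.2.2.2.2.2.1⟩⟩⟩⟩, ⟨⟨⟨H _ t9593.2.2.2.2.2.2.2, H _ t9601.1⟩, ⟨H _ t9601.2.1, H _ t9601.2.2.1⟩⟩, ⟨⟨H _ t9601.2.2.2.1, H _ t9601.2.2.2.2.1⟩, ⟨H _ t9601.2.2.2.2.2.1, ⟨H _ t9601.2.2.2.2.2.2.1, H _ t9601.2.2.2.2.2.2.2⟩⟩⟩⟩⟩⟩, ⟨⟨⟨⟨⟨H _ t9609.1, H _ t9609.2.1⟩,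 ⟨H _ t9609.2.2.1, H _ t9609.2.2.2.1⟩⟩, ⟨⟨H _ t9609.2.2.2.2.1, H _ t9609.2.2.2.2.2.1⟩, ⟨H _ t9609.2.2.2.2.2.2.1, H _ t9609.2.2.2.2.2.2.2⟩⟩⟩, ⟨⟨⟨H _ t9617.1, H _ t9617.2.1⟩, ⟨H _ t9617.2.2.1, H _ t9617.2.2.2.1⟩⟩, ⟨⟨H _ t9617.2.2.2.2.1, H _ t9617.2.2.2.2.2.1⟩, ⟨H _ t9617.2.2.2.2.2.2.1, ⟨H _ t9617.2.2.2.2.2.2.2, H _ t9625.1⟩⟩⟩⟩⟩, ⟨⟨⟨⟨H _ t9625.2.1, H _ t9625.2.2.1⟩, ⟨H _ t9625.2.2.2.1, H _ t9625.2.2.2.2.1⟩⟩, ⟨⟨H _ t9625.2.2.2.2.2.1, H _ t9625.2.2.2.2.2.2.1⟩, ⟨H _ t9625.2.2.2.2.2.2.2, ⟨H _ t9633.1, H _ t9633.2.1⟩⟩⟩⟩, ⟨⟨⟨H _ t9633.2.2.1, H _ t9633.2.2.2.1⟩, ⟨H _ t9633.2.2.2.2.1, H _ t9633.2.2.2.2.2.1⟩⟩, ⟨⟨H _ t9633.2.2.2.2.2.2.1, H _ t9633.2.2.2.2.2.2.2⟩, ⟨H _ t9641.1, ⟨H _ t9641.2.1, H _ t9641.2.2.1⟩⟩⟩⟩⟩⟩⟩⟩, ⟨⟨⟨⟨⟨⟨⟨H _ t9641.2.2.2.1, H _ t9641.2.2.2.2.1⟩, ⟨H _ t9641.2.2.2.2.2.1, H _ t9641.2.2.2.2.2.2.1⟩⟩, ⟨⟨H _ t9641.2.2.2.2.2.2.2, H _ t9649.1⟩, ⟨H _ t9649.2.1, H _ t9649.2.2.1⟩⟩⟩,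 ⟨⟨⟨H _ t9649.2.2.2.1, H _ t9649.2.2.2.2.1⟩, ⟨H _ t9649.2.2.2.2.2.1, H _ t9649.2.2.2.2.2.2.1⟩⟩, ⟨⟨H _ t9649.2.2.2.2.2.2.2, H _ t9657.1⟩, ⟨H _ t9657.2.1, ⟨H _ t9657.2.2.1, H _ t9657.2.2.2.1⟩⟩⟩⟩⟩, ⟨⟨⟨⟨H _ t9657.2.2.2.2.1, H _ t9657.2.2.2.2.2.1⟩, ⟨H _ t9657.2.2.2.2.2.2.1, H _ t9657.2.2.2.2.2.2.2⟩⟩, ⟨⟨H _ t9665.1, H _ t9665.2.1⟩, ⟨H _ t9665.2.2.1, H _ t9665.2.2.2.1⟩⟩⟩, ⟨⟨⟨H _ t9665.2.2.2.2.1, H _ t9665.2.2.2.2.2.1⟩, ⟨H _ t9665.2.2.2.2.2.2.1, H _ t9665.2.2.2.2.2.2.2⟩⟩, ⟨⟨H _ t9673.1, H _ t9673.2.1⟩, ⟨H _ t9673.2.2.1, ⟨H _ t9673.2.2.2.1, H _ t9673.2.2.2.2.1⟩⟩⟩⟩⟩⟩, ⟨⟨⟨⟨⟨H _ t9673.2.2.2.2.2.1, H _ t9673.2.2.2.2.2.2.1⟩, ⟨H _ t9673.2.2.2.2.2.2.2, H _ t9681.1⟩⟩, ⟨⟨H _ t9681.2.1, H _ t9681.2.2.1⟩, ⟨H _ t9681.2.2.2.1, H _ t9681.2.2.2.2.1⟩⟩⟩, ⟨⟨⟨H _ t9681.2.2.2.2.2.1, H _ t9681.2.2.2.2.2.2.1⟩, ⟨H _ t9681.2.2.2.2.2.2.2, H _ t9689.1⟩⟩, ⟨⟨H _ t9689.2.1, H _ t9689.2.2.1⟩, ⟨H _ t9689.2.2.2.1,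 ⟨H _ t9689.2.2.2.2.1, H _ t9689.2.2.2.2.2.1⟩⟩⟩⟩⟩, ⟨⟨⟨⟨H _ t9689.2.2.2.2.2.2.1, H _ t9689.2.2.2.2.2.2.2⟩, ⟨H _ t9697.1, H _ t9697.2.1⟩⟩, ⟨⟨H _ t9697.2.2.1, H _ t9697.2.2.2.1⟩, ⟨H _ t9697.2.2.2.2.1, ⟨H _ t9697.2.2.2.2.2.1, H _ t9697.2.2.2.2.2.2.1⟩⟩⟩⟩, ⟨⟨⟨H _ t9697.2.2.2.2.2.2.2, H _ t9705.1⟩, ⟨H _ t9705.2.1, H _ t9705.2.2.1⟩⟩, ⟨⟨H _ t9705.2.2.2.1, H _ t9705.2.2.2.2.1⟩, ⟨H _ t9705.2.2.2.2.2.1, ⟨H _ t9705.2.2.2.2.2.2.1, H _ t9705.2.2.2.2.2.2.2⟩⟩⟩⟩⟩⟩⟩, ⟨⟨⟨⟨⟨⟨H _ t9713.1, H _ t9713.2.1⟩, ⟨H _ t9713.2.2.1, H _ t9713.2.2.2.1⟩⟩, ⟨⟨H _ t9713.2.2.2.2.1, H _ t9713.2.2.2.2.2.1⟩, ⟨H _ t9713.2.2.2.2.2.2.1, H _ t9713.2.2.2.2.2.2.2⟩⟩⟩, ⟨⟨⟨H _ t9721.1, H _ t9721.2.1⟩, ⟨H _ t9721.2.2.1, H _ t9721.2.2.2.1⟩⟩, ⟨⟨H _ t9721.2.2.2.2.1, H _ t9721.2.2.2.2.2.1⟩, ⟨H _ t9721.2.2.2.2.2.2.1, ⟨H _ t9721.2.2.2.2.2.2.2, H _ t9729.1⟩⟩⟩⟩⟩, ⟨⟨⟨⟨H _ t9729.2.1, H _ t9729.2.2.1⟩, ⟨H _ t9729.2.2.2.1, H _ t9729.2.2.2.2.1⟩⟩,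 ⟨⟨H _ t9729.2.2.2.2.2.1, H _ t9729.2.2.2.2.2.2.1⟩, ⟨H _ t9729.2.2.2.2.2.2.2, ⟨H _ t9737.1, H _ t9737.2.1⟩⟩⟩⟩, ⟨⟨⟨H _ t9737.2.2.1, H _ t9737.2.2.2.1⟩, ⟨H _ t9737.2.2.2.2.1, H _ t9737.2.2.2.2.2.1⟩⟩, ⟨⟨H _ t9737.2.2.2.2.2.2.1, H _ t9737.2.2.2.2.2.2.2⟩, ⟨H _ t9745.1, ⟨H _ t9745.2.1, H _ t9745.2.2.1⟩⟩⟩⟩⟩⟩, ⟨⟨⟨⟨⟨H _ t9745.2.2.2.1, H _ t9745.2.2.2.2.1⟩, ⟨H _ t9745.2.2.2.2.2.1, H _ t9745.2.2.2.2.2.2.1⟩⟩, ⟨⟨H _ t9745.2.2.2.2.2.2.2, H _ t9753.1⟩, ⟨H _ t9753.2.1, H _ t9753.2.2.1⟩⟩⟩, ⟨⟨⟨H _ t9753.2.2.2.1, H _ t9753.2.2.2.2.1⟩, ⟨H _ t9753.2.2.2.2.2.1, H _ t9753.2.2.2.2.2.2.1⟩⟩, ⟨⟨H _ t9753.2.2.2.2.2.2.2, H _ t9761.1⟩, ⟨H _ t9761.2.1, ⟨H _ t9761.2.2.1, H _ t9761.2.2.2.1⟩⟩⟩⟩⟩, ⟨⟨⟨⟨H _ t9761.2.2.2.2.1, H _ t9761.2.2.2.2.2.1⟩, ⟨H _ t9761.2.2.2.2.2.2.1, H _ t9761.2.2.2.2.2.2.2⟩⟩, ⟨⟨H _ t9769.1, H _ t9769.2.1⟩, ⟨H _ t9769.2.2.1, ⟨H _ t9769.2.2.2.1, H _ t9769.2.2.2.2.1⟩⟩⟩⟩, ⟨⟨⟨H _ t9769.2.2.2.2.2.1,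 H _ t9769.2.2.2.2.2.2.1⟩, ⟨H _ t9769.2.2.2.2.2.2.2, H _ t9777.1⟩⟩, ⟨⟨H _ t9777.2.1, H _ t9777.2.2.1⟩, ⟨H _ t9777.2.2.2.1, ⟨H _ t9777.2.2.2.2.1, H _ t9777.2.2.2.2.2.1⟩⟩⟩⟩⟩⟩⟩⟩⟩, ⟨⟨⟨⟨⟨⟨⟨⟨H _ t9777.2.2.2.2.2.2.1, H _ t9777.2.2.2.2.2.2.2⟩, ⟨H _ t9785.1, H _ t9785.2.1⟩⟩, ⟨⟨H _ t9785.2.2.1, H _ t9785.2.2.2.1⟩, ⟨H _ t9785.2.2.2.2.1, H _ t9785.2.2.2.2.2.1⟩⟩⟩, ⟨⟨⟨H _ t9785.2.2.2.2.2.2.1, H _ t9785.2.2.2.2.2.2.2⟩, ⟨H _ t9793.1, H _ t9793.2.1⟩⟩, ⟨⟨H _ t9793.2.2.1, H _ t9793.2.2.2.1⟩, ⟨H _ t9793.2.2.2.2.1, ⟨H _ t9793.2.2.2.2.2.1, H _ t9793.2.2.2.2.2.2.1⟩⟩⟩⟩⟩, ⟨⟨⟨⟨H _ t9793.2.2.2.2.2.2.2, H _ t9801.1⟩, ⟨H _ t9801.2.1, H _ t9801.2.2.1⟩⟩, ⟨⟨H _ t9801.2.2.2.1, H _ t9801.2.2.2.2.1⟩, ⟨H _ t9801.2.2.2.2.2.1, H _ t9801.2.2.2.2.2.2.1⟩⟩⟩, ⟨⟨⟨H _ t9801.2.2.2.2.2.2.2, H _ t9809.1⟩, ⟨H _ t9809.2.1, H _ t9809.2.2.1⟩⟩, ⟨⟨H _ t9809.2.2.2.1, H _ t9809.2.2.2.2.1⟩, ⟨H _ t9809.2.2.2.2.2.1, ⟨H _ t9809.2.2.2.2.2.2.1,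 H _ t9809.2.2.2.2.2.2.2⟩⟩⟩⟩⟩⟩, ⟨⟨⟨⟨⟨H _ t9817.1, H _ t9817.2.1⟩, ⟨H _ t9817.2.2.1, H _ t9817.2.2.2.1⟩⟩, ⟨⟨H _ t9817.2.2.2.2.1, H _ t9817.2.2.2.2.2.1⟩, ⟨H _ t9817.2.2.2.2.2.2.1, H _ t9817.2.2.2.2.2.2.2⟩⟩⟩, ⟨⟨⟨H _ t9825.1, H _ t9825.2.1⟩, ⟨H _ t9825.2.2.1, H _ t9825.2.2.2.1⟩⟩, ⟨⟨H _ t9825.2.2.2.2.1, H _ t9825.2.2.2.2.2.1⟩, ⟨H _ t9825.2.2.2.2.2.2.1, ⟨H _ t9825.2.2.2.2.2.2.2, H _ t9833.1⟩⟩⟩⟩⟩, ⟨⟨⟨⟨H _ t9833.2.1, H _ t9833.2.2.1⟩, ⟨H _ t9833.2.2.2.1, H _ t9833.2.2.2.2.1⟩⟩, ⟨⟨H _ t9833.2.2.2.2.2.1, H _ t9833.2.2.2.2.2.2.1⟩, ⟨H _ t9833.2.2.2.2.2.2.2, ⟨H _ t9841.1, H _ t9841.2.1⟩⟩⟩⟩, ⟨⟨⟨H _ t9841.2.2.1, H _ t9841.2.2.2.1⟩, ⟨H _ t9841.2.2.2.2.1, H _ t9841.2.2.2.2.2.1⟩⟩, ⟨⟨H _ t9841.2.2.2.2.2.2.1, H _ t9841.2.2.2.2.2.2.2⟩, ⟨H _ t9849.1, ⟨H _ t9849.2.1, H _ t9849.2.2.1⟩⟩⟩⟩⟩⟩⟩, ⟨⟨⟨⟨⟨⟨H _ t9849.2.2.2.1, H _ t9849.2.2.2.2.1⟩, ⟨H _ t9849.2.2.2.2.2.1, H _ t9849.2.2.2.2.2.2.1⟩⟩, ⟨⟨H _ t9849.2.2.2.2.2.2.2,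 H _ t9857.1⟩, ⟨H _ t9857.2.1, H _ t9857.2.2.1⟩⟩⟩, ⟨⟨⟨H _ t9857.2.2.2.1, H _ t9857.2.2.2.2.1⟩, ⟨H _ t9857.2.2.2.2.2.1, H _ t9857.2.2.2.2.2.2.1⟩⟩, ⟨⟨H _ t9857.2.2.2.2.2.2.2, H _ t9865.1⟩, ⟨H _ t9865.2.1, ⟨H _ t9865.2.2.1, H _ t9865.2.2.2.1⟩⟩⟩⟩⟩, ⟨⟨⟨⟨H _ t9865.2.2.2.2.1, H _ t9865.2.2.2.2.2.1⟩, ⟨H _ t9865.2.2.2.2.2.2.1, H _ t9865.2.2.2.2.2.2.2⟩⟩, ⟨⟨H _ t9873.1, H _ t9873.2.1⟩, ⟨H _ t9873.2.2.1, ⟨H _ t9873.2.2.2.1, H _ t9873.2.2.2.2.1⟩⟩⟩⟩, ⟨⟨⟨H _ t9873.2.2.2.2.2.1, H _ t9873.2.2.2.2.2.2.1⟩, ⟨H _ t9873.2.2.2.2.2.2.2, H _ t9881.1⟩⟩, ⟨⟨H _ t9881.2.1, H _ t9881.2.2.1⟩, ⟨H _ t9881.2.2.2.1, ⟨H _ t9881.2.2.2.2.1, H _ t9881.2.2.2.2.2.1⟩⟩⟩⟩⟩⟩, ⟨⟨⟨⟨⟨H _ t9881.2.2.2.2.2.2.1, H _ t9881.2.2.2.2.2.2.2⟩, ⟨H _ t9889.1, H _ t9889.2.1⟩⟩, ⟨⟨H _ t9889.2.2.1, H _ t9889.2.2.2.1⟩, ⟨H _ t9889.2.2.2.2.1, H _ t9889.2.2.2.2.2.1⟩⟩⟩, ⟨⟨⟨H _ t9889.2.2.2.2.2.2.1, H _ t9889.2.2.2.2.2.2.2⟩, ⟨H _ t9897.1, H _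 t9897.2.1⟩⟩, ⟨⟨H _ t9897.2.2.1, H _ t9897.2.2.2.1⟩, ⟨H _ t9897.2.2.2.2.1, ⟨H _ t9897.2.2.2.2.2.1, H _ t9897.2.2.2.2.2.2.1⟩⟩⟩⟩⟩, ⟨⟨⟨⟨H _ t9897.2.2.2.2.2.2.2, H _ t9905.1⟩, ⟨H _ t9905.2.1, H _ t9905.2.2.1⟩⟩, ⟨⟨H _ t9905.2.2.2.1, H _ t9905.2.2.2.2.1⟩, ⟨H _ t9905.2.2.2.2.2.1, ⟨H _ t9905.2.2.2.2.2.2.1, H _ t9905.2.2.2.2.2.2.2⟩⟩⟩⟩, ⟨⟨⟨H _ t9913.1, H _ t9913.2.1⟩, ⟨H _ t9913.2.2.1, H _ t9913.2.2.2.1⟩⟩, ⟨⟨H _ t9913.2.2.2.2.1, H _ t9913.2.2.2.2.2.1⟩, ⟨H _ t9913.2.2.2.2.2.2.1, ⟨H _ t9913.2.2.2.2.2.2.2, H _ t9921.1⟩⟩⟩⟩⟩⟩⟩⟩, ⟨⟨⟨⟨⟨⟨⟨H _ t9921.2.1, H _ t9921.2.2.1⟩, ⟨H _ t9921.2.2.2.1, H _ t9921.2.2.2.2.1⟩⟩, ⟨⟨H _ t9921.2.2.2.2.2.1, H _ t9921.2.2.2.2.2.2.1⟩, ⟨H _ t9921.2.2.2.2.2.2.2, H _ t9929.1⟩⟩⟩, ⟨⟨⟨H _ t9929.2.1, H _ t9929.2.2.1⟩, ⟨H _ t9929.2.2.2.1, H _ t9929.2.2.2.2.1⟩⟩, ⟨⟨H _ t9929.2.2.2.2.2.1, H _ t9929.2.2.2.2.2.2.1⟩, ⟨H _ t9929.2.2.2.2.2.2.2, ⟨H _ t9937.1, H _ t9937.2.1⟩⟩⟩⟩⟩,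 ⟨⟨⟨⟨H _ t9937.2.2.1, H _ t9937.2.2.2.1⟩, ⟨H _ t9937.2.2.2.2.1, H _ t9937.2.2.2.2.2.1⟩⟩, ⟨⟨H _ t9937.2.2.2.2.2.2.1, H _ t9937.2.2.2.2.2.2.2⟩, ⟨H _ t9945.1, H _ t9945.2.1⟩⟩⟩, ⟨⟨⟨H _ t9945.2.2.1, H _ t9945.2.2.2.1⟩, ⟨H _ t9945.2.2.2.2.1, H _ t9945.2.2.2.2.2.1⟩⟩, ⟨⟨H _ t9945.2.2.2.2.2.2.1, H _ t9945.2.2.2.2.2.2.2⟩, ⟨H _ t9953.1, ⟨H _ t9953.2.1, H _ t9953.2.2.1⟩⟩⟩⟩⟩⟩, ⟨⟨⟨⟨⟨H _ t9953.2.2.2.1, H _ t9953.2.2.2.2.1⟩, ⟨H _ t9953.2.2.2.2.2.1, H _ t9953.2.2.2.2.2.2.1⟩⟩, ⟨⟨H _ t9953.2.2.2.2.2.2.2, H _ t9961.1⟩, ⟨H _ t9961.2.1, H _ t9961.2.2.1⟩⟩⟩, ⟨⟨⟨H _ t9961.2.2.2.1, H _ t9961.2.2.2.2.1⟩, ⟨H _ t9961.2.2.2.2.2.1, H _ t9961.2.2.2.2.2.2.1⟩⟩, ⟨⟨H _ t9961.2.2.2.2.2.2.2, H _ t9969.1⟩, ⟨H _ t9969.2.1, ⟨H _ t9969.2.2.1, H _ t9969.2.2.2.1⟩⟩⟩⟩⟩, ⟨⟨⟨⟨H _ t9969.2.2.2.2.1, H _ t9969.2.2.2.2.2.1⟩, ⟨H _ t9969.2.2.2.2.2.2.1, H _ t9969.2.2.2.2.2.2.2⟩⟩, ⟨⟨H _ t9977.1, H _ t9977.2.1⟩, ⟨H _ t9977.2.2.1,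 ⟨H _ t9977.2.2.2.1, H _ t9977.2.2.2.2.1⟩⟩⟩⟩, ⟨⟨⟨H _ t9977.2.2.2.2.2.1, H _ t9977.2.2.2.2.2.2.1⟩, ⟨H _ t9977.2.2.2.2.2.2.2, H _ t9985.1⟩⟩, ⟨⟨H _ t9985.2.1, H _ t9985.2.2.1⟩, ⟨H _ t9985.2.2.2.1, ⟨H _ t9985.2.2.2.2.1, H _ t9985.2.2.2.2.2.1⟩⟩⟩⟩⟩⟩⟩, ⟨⟨⟨⟨⟨⟨H _ t9985.2.2.2.2.2.2.1, H _ t9985.2.2.2.2.2.2.2⟩, ⟨H _ t9993.1, H _ t9993.2.1⟩⟩, ⟨⟨H _ t9993.2.2.1, H _ t9993.2.2.2.1⟩, ⟨H _ t9993.2.2.2.2.1, H _ t9993.2.2.2.2.2.1⟩⟩⟩, ⟨⟨⟨H _ t9993.2.2.2.2.2.2.1, H _ t9993.2.2.2.2.2.2.2⟩, ⟨H _ t10001.1, H _ t10001.2.1⟩⟩, ⟨⟨H _ t10001.2.2.1, H _ t10001.2.2.2.1⟩, ⟨H _ t10001.2.2.2.2.1, ⟨H _ t10001.2.2.2.2.2.1, H _ t10001.2.2.2.2.2.2.1⟩⟩⟩⟩⟩, ⟨⟨⟨⟨H _ t10001.2.2.2.2.2.2.2, H _ t10009.1⟩, ⟨H _ t10009.2.1, H _ t10009.2.2.1⟩⟩, ⟨⟨H _ t10009.2.2.2.1, H _ t10009.2.2.2.2.1⟩, ⟨H _ t10009.2.2.2.2.2.1, ⟨H _ t10009.2.2.2.2.2.2.1, H _ t10009.2.2.2.2.2.2.2⟩⟩⟩⟩, ⟨⟨⟨H _ t10017.1, H _ t10017.2.1⟩, ⟨H _ t10017.2.2.1,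 H _ t10017.2.2.2.1⟩⟩, ⟨⟨H _ t10017.2.2.2.2.1, H _ t10017.2.2.2.2.2.1⟩, ⟨H _ t10017.2.2.2.2.2.2.1, ⟨H _ t10017.2.2.2.2.2.2.2, H _ t10025.1⟩⟩⟩⟩⟩⟩, ⟨⟨⟨⟨⟨H _ t10025.2.1, H _ t10025.2.2.1⟩, ⟨H _ t10025.2.2.2.1, H _ t10025.2.2.2.2.1⟩⟩, ⟨⟨H _ t10025.2.2.2.2.2.1, H _ t10025.2.2.2.2.2.2.1⟩, ⟨H _ t10025.2.2.2.2.2.2.2, H _ t10033.1⟩⟩⟩, ⟨⟨⟨H _ t10033.2.1, H _ t10033.2.2.1⟩, ⟨H _ t10033.2.2.2.1, H _ t10033.2.2.2.2.1⟩⟩, ⟨⟨H _ t10033.2.2.2.2.2.1, H _ t10033.2.2.2.2.2.2.1⟩, ⟨H _ t10033.2.2.2.2.2.2.2, ⟨H _ t10041.1, H _ t10041.2.1⟩⟩⟩⟩⟩, ⟨⟨⟨⟨H _ t10041.2.2.1, H _ t10041.2.2.2.1⟩, ⟨H _ t10041.2.2.2.2.1, H _ t10041.2.2.2.2.2.1⟩⟩, ⟨⟨H _ t10041.2.2.2.2.2.2.1, H _ t10041.2.2.2.2.2.2.2⟩, ⟨H _ t10049.1, ⟨H _ t10049.2.1, H _ t10049.2.2.1⟩⟩⟩⟩, ⟨⟨⟨H _ t10049.2.2.2.1, H _ t10049.2.2.2.2.1⟩, ⟨H _ t10049.2.2.2.2.2.1, H _ t10049.2.2.2.2.2.2.1⟩⟩, ⟨⟨H _ t10049.2.2.2.2.2.2.2, H _ t10057.1⟩, ⟨H _ t10057.2.1,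 ⟨H _ t10057.2.2.1, H _ t10057.2.2.2⟩⟩⟩⟩⟩⟩⟩⟩⟩⟩

end Pool.Agent.MP_c853c5_nt.X.C4950
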