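import Pool.Agent.MP_c853c5_nt.X.C4950.Env
import Pool.Agent.MP_c853c5_nt.X.C4950.D3

set_option autoImplicit false
set_option maxRecDepth 8192
set_option linter.all false

namespace Pool.Agent.MP_c853c5_nt.X.C4950

open Pool.Agent.MP_c853c5_nt.X

def t10061 : allY (E.wth (lkp [])) l10061 = true ∧
    allY (E.wth (lkp [])) l10062 = true ∧
    allY (E.wth (lkp [])) l10063 = true ∧
    allY (E.wth (lkp [])) l10064 = true ∧
    allY (E.wth (lkp [])) l10065 = true ∧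
    allY (E.wth (lkp [])) l10066 = true ∧
    allY (E.wth (lkp [])) l10067 = true ∧
    allY (E.wth (lkp [])) l10068 = true :=
  ⟨by decide +kernel, by decide +kernel, by decide +kernel, by decide +kernel, by decide +kernel, by decide +kernel, by decide +kernel, by decide +kernel⟩

def t10069 : allY (E.wth (lkp [])) l10069 = true ∧
    allY (E.wth (lkp [])) l10070 = true ∧
    allY (E.wth (lkp [])) l10071 = true ∧
    allY (E.wth (lkp [])) l10072 = true ∧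
    allY (E.wth (lkp [])) l10073 = true ∧
    allY (E.wth (lkp [])) l10074 = true ∧
    allY (E.wth (lkp [])) l10075 = true ∧
    allY (E.wth (lkp [])) l10076 = true :=
  ⟨by decide +kernel, by decide +kernel, by decide +kernel, by decide +kernel, by decide +kernel, by decide +kernel, by decide +kernel, by decide +kernel⟩

def t10077 : allY (E.wth (lkp [])) l10077 = true ∧
    allY (E.wth (lkp [])) l10078 = true ∧
    allY (E.wth (lkp [])) l10079 = true ∧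
    allY (E.wth (lkp [])) l10080 = true ∧
    allY (E.wth (lkp [])) l10081 = true ∧
    allY (E.wth (lkp [])) l10082 = true ∧
    allY (E.wth (lkp [])) l10083 = true ∧
    allY (E.wth (lkp [])) l10084 = true :=
  ⟨by decide +kernel, by decide +kernel, by decide +kernel, by decide +kernel, by decide +kernel, by decide +kernel, by decide +kernel, by decide +kernel⟩

def t10085 : allY (E.wth (lkp [])) l10085 = true ∧
    allY (E.wth (lkp [])) l10086 = true ∧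
    allY (E.wth (lkp [])) l10087 = true ∧
    allY (E.wth (lkp [])) l10088 = true ∧
    allY (E.wth (lkp [])) l10089 = true ∧
    allY (E.wth (lkp [])) l10090 = true ∧
    allY (E.wth (lkp [])) l10091 = true ∧
    allY (E.wth (lkp [])) l10092 = true :=
  ⟨by decide +kernel, by decide +kernel, by decide +kernel, by decide +kernel, by decide +kernel, by decide +kernel, by decide +kernel, by decide +kernel⟩

def t10093 : allY (E.wth (lkp [])) l10093 = true ∧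
    allY (E.wth (lkp [])) l10094 = true ∧
    allY (E.wth (lkp [])) l10095 = true ∧
    allY (E.wth (lkp [])) l10096 = true ∧
    allY (E.wth (lkp [])) l10097 = true ∧
    allY (E.wth (lkp [])) l10098 = true ∧
    allY (E.wth (lkp [])) l10099 = true ∧
    allY (E.wth (lkp [])) l10100 = true :=
  ⟨by decide +kernel, by decide +kernel, by decide +kernel, by decide +kernel, by decide +kernel, by decide +kernel, by decide +kernel, by decide +kernel⟩

def t10101 : allY (E.wth (lkp [])) l10101 = true ∧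
    allY (E.wth (lkp [])) l10102 = true ∧
    allY (E.wth (lkp [])) l10103 = true ∧
    allY (E.wth (lkp [])) l10104 = true ∧
    allY (E.wth (lkp [])) l10105 = true ∧
    allY (E.wth (lkp [])) l10106 = true ∧
    allY (E.wth (lkp [])) l10107 = true ∧
    allY (E.wth (lkp [])) l10108 = true :=
  ⟨by decide +kernel, by decide +kernel, by decide +kernel, by decide +kernel, by decide +kernel, by decide +kernel, by decide +kernel, by decide +kernel⟩

def t10109 : allY (E.wth (lkp [])) l10109 = true ∧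
    allY (E.wth (lkp [])) l10110 = true ∧
    allY (E.wth (lkp [])) l10111 = true ∧
    allY (E.wth (lkp [])) l10112 = true ∧
    allY (E.wth (lkp [])) l10113 = true ∧
    allY (E.wth (lkp [])) l10114 = true ∧
    allY (E.wth (lkp [])) l10115 = true ∧
    allY (E.wth (lkp [])) l10116 = true :=
  ⟨by decide +kernel, by decide +kernel, by decide +kernel, by decide +kernel, by decide +kernel, by decide +kernel, by decide +kernel, by decide +kernel⟩

def t10117 : allY (E.wth (lkp [])) l10117 = true ∧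
    allY (E.wth (lkp [])) l10118 = true ∧
    allY (E.wth (lkp [])) l10119 = true ∧
    allY (E.wth (lkp [])) l10120 = true ∧
    allY (E.wth (lkp [])) l10121 = true ∧
    allY (E.wth (lkp [])) l10122 = true ∧
    allY (E.wth (lkp [])) l10123 = true ∧
    allY (E.wth (lkp [])) l10124 = true :=
  ⟨by decide +kernel, by decide +kernel, by decide +kernel, by decide +kernel, by decide +kernel, by decide +kernel, by decide +kernel, by decide +kernel⟩

def t10125 : allY (E.wth (lkp [])) l10125 = true ∧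
    allY (E.wth (lkp [])) l10126 = true ∧
    allY (E.wth (lkp [])) l10127 = true ∧
    allY (E.wth (lkp [])) l10128 = true ∧
    allY (E.wth (lkp [])) l10129 = true ∧
    allY (E.wth (lkp [])) l10130 = true ∧
    allY (E.wth (lkp [])) l10131 = true ∧
    allY (E.wth (lkp [])) l10132 = true :=
  ⟨by decide +kernel, by decide +kernel, by decide +kernel, by decide +kernel, by decide +kernel, by decide +kernel, by decide +kernel, by decide +kernel⟩

def t10133 : allY (E.wth (lkp [])) l10133 = true ∧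
    allY (E.wth (lkp [])) l10134 = true ∧
    allY (E.wth (lkp [])) l10135 = true ∧
    allY (E.wth (lkp [])) l10136 = true ∧
    allY (E.wth (lkp [])) l10137 = true ∧
    allY (E.wth (lkp [])) l10138 = true ∧
    allY (E.wth (lkp [])) l10139 = true ∧
    allY (E.wth (lkp [])) l10140 = true :=
  ⟨by decide +kernel, by decide +kernel, by decide +kernel, by decide +kernel, by decide +kernel, by decide +kernel, by decide +kernel, by decide +kernel⟩

def t10141 : allY (E.wth (lkp [])) l10141 = true ∧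
    allY (E.wth (lkp [])) l10142 = true ∧
    allY (E.wth (lkp [])) l10143 = true ∧
    allY (E.wth (lkp [])) l10144 = true ∧
    allY (E.wth (lkp [])) l10145 = true ∧
    allY (E.wth (lkp [])) l10146 = true ∧
    allY (E.wth (lkp [])) l10147 = true ∧
    allY (E.wth (lkp [])) l10148 = true :=
  ⟨by decide +kernel, by decide +kernel, by decide +kernel, by decide +kernel, by decide +kernel, by decide +kernel, by decide +kernel, by decide +kernel⟩

def t10149 : allY (E.wth (lkp [])) l10149 = true ∧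
    allY (E.wth (lkp [])) l10150 = true ∧
    allY (E.wth (lkp [])) l10151 = true ∧
    allY (E.wth (lkp [])) l10152 = true ∧
    allY (E.wth (lkp [])) l10153 = true ∧
    allY (E.wth (lkp [])) l10154 = true ∧
    allY (E.wth (lkp [])) l10155 = true ∧
    allY (E.wth (lkp [])) l10156 = true :=
  ⟨by decide +kernel, by decide +kernel, by decide +kernel, by decide +kernel, by decide +kernel, by decide +kernel, by decide +kernel, by decide +kernel⟩

def t10157 : allY (E.wth (lkp [])) l10157 = true ∧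
    allY (E.wth (lkp [])) l10158 = true ∧
    allY (E.wth (lkp [])) l10159 = true ∧
    allY (E.wth (lkp [])) l10160 = true ∧
    allY (E.wth (lkp [])) l10161 = true ∧
    allY (E.wth (lkp [])) l10162 = true ∧
    allY (E.wth (lkp [])) l10163 = true ∧
    allY (E.wth (lkp [])) l10164 = true :=
  ⟨by decide +kernel, by decide +kernel, by decide +kernel, by decide +kernel, by decide +kernel, by decide +kernel, by decide +kernel, by decide +kernel⟩

def t10165 : allY (E.wth (lkp [])) l10165 = true ∧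
    allY (E.wth (lkp [])) l10166 = true ∧
    allY (E.wth (lkp [])) l10167 = true ∧
    allY (E.wth (lkp [])) l10168 = true ∧
    allY (E.wth (lkp [])) l10169 = true ∧
    allY (E.wth (lkp [])) l10170 = true ∧
    allY (E.wth (lkp [])) l10171 = true ∧
    allY (E.wth (lkp [])) l10172 = true :=
  ⟨by decide +kernel, by decide +kernel, by decide +kernel, by decide +kernel, by decide +kernel, by decide +kernel, by decide +kernel, by decide +kernel⟩

def t10173 : allY (E.wth (lkp [])) l10173 = true ∧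
    allY (E.wth (lkp [])) l10174 = true ∧
    allY (E.wth (lkp [])) l10175 = true ∧
    allY (E.wth (lkp [])) l10176 = true ∧
    allY (E.wth (lkp [])) l10177 = true ∧
    allY (E.wth (lkp [])) l10178 = true ∧
    allY (E.wth (lkp [])) l10179 = true ∧
    allY (E.wth (lkp [])) l10180 = true :=
  ⟨by decide +kernel, by decide +kernel, by decide +kernel, by decide +kernel, by decide +kernel, by decide +kernel, by decide +kernel, by decide +kernel⟩

def t10181 : allY (E.wth (lkp [])) l10181 = true ∧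
    allY (E.wth (lkp [])) l10182 = true ∧
    allY (E.wth (lkp [])) l10183 = true ∧
    allY (E.wth (lkp [])) l10184 = true ∧
    allY (E.wth (lkp [])) l10185 = true ∧
    allY (E.wth (lkp [])) l10186 = true ∧
    allY (E.wth (lkp [])) l10187 = true ∧
    allY (E.wth (lkp [])) l10188 = true :=
  ⟨by decide +kernel, by decide +kernel, by decide +kernel, by decide +kernel, by decide +kernel, by decide +kernel, by decide +kernel, by decide +kernel⟩

def t10189 : allY (E.wth (lkp [])) l10189 = true ∧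
    allY (E.wth (lkp [])) l10190 = true ∧
    allY (E.wth (lkp [])) l10191 = true ∧
    allY (E.wth (lkp [])) l10192 = true ∧
    allY (E.wth (lkp [])) l10193 = true ∧
    allY (E.wth (lkp [])) l10194 = true ∧
    allY (E.wth (lkp [])) l10195 = true ∧
    allY (E.wth (lkp [])) l10196 = true :=
  ⟨by decide +kernel, by decide +kernel, by decide +kernel, by decide +kernel, by decide +kernel, by decide +kernel, by decide +kernel, by decide +kernel⟩

def t10197 : allY (E.wth (lkp [])) l10197 = true ∧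
    allY (E.wth (lkp [])) l10198 = true ∧
    allY (E.wth (lkp [])) l10199 = true ∧
    allY (E.wth (lkp [])) l10200 = true ∧
    allY (E.wth (lkp [])) l10201 = true ∧
    allY (E.wth (lkp [])) l10202 = true ∧
    allY (E.wth (lkp [])) l10203 = true ∧
    allY (E.wth (lkp [])) l10204 = true :=
  ⟨by decide +kernel, by decide +kernel, by decide +kernel, by decide +kernel, by decide +kernel, by decide +kernel, by decide +kernel, by decide +kernel⟩

def t10205 : allY (E.wth (lkp [])) l10205 = true ∧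
    allY (E.wth (lkp [])) l10206 = true ∧
    allY (E.wth (lkp [])) l10207 = true ∧
    allY (E.wth (lkp [])) l10208 = true ∧
    allY (E.wth (lkp [])) l10209 = true ∧
    allY (E.wth (lkp [])) l10210 = true ∧
    allY (E.wth (lkp [])) l10211 = true ∧
    allY (E.wth (lkp [])) l10212 = true :=
  ⟨by decide +kernel, by decide +kernel, by decide +kernel, by decide +kernel, by decide +kernel, by decide +kernel, by decide +kernel, by decide +kernel⟩

def t10213 : allY (E.wth (lkp [])) l10213 = true ∧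
    allY (E.wth (lkp [])) l10214 = true ∧
    allY (E.wth (lkp [])) l10215 = true ∧
    allY (E.wth (lkp [])) l10216 = true ∧
    allY (E.wth (lkp [])) l10217 = true ∧
    allY (E.wth (lkp [])) l10218 = true ∧
    allY (E.wth (lkp [])) l10219 = true ∧
    allY (E.wth (lkp [])) l10220 = true :=
  ⟨by decide +kernel, by decide +kernel, by decide +kernel, by decide +kernel, by decide +kernel, by decide +kernel, by decide +kernel, by decide +kernel⟩

def t10221 : allY (E.wth (lkp [])) l10221 = true ∧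
    allY (E.wth (lkp [])) l10222 = true ∧
    allY (E.wth (lkp [])) l10223 = true ∧
    allY (E.wth (lkp [])) l10224 = true ∧
    allY (E.wth (lkp [])) l10225 = true ∧
    allY (E.wth (lkp [])) l10226 = true ∧
    allY (E.wth (lkp [])) l10227 = true ∧
    allY (E.wth (lkp [])) l10228 = true :=
  ⟨by decide +kernel, by decide +kernel, by decide +kernel, by decide +kernel, by decide +kernel, by decide +kernel, by decide +kernel, by decide +kernel⟩

def t10229 : allY (E.wth (lkp [])) l10229 = true ∧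
    allY (E.wth (lkp [])) l10230 = true ∧
    allY (E.wth (lkp [])) l10231 = true ∧
    allY (E.wth (lkp [])) l10232 = true ∧
    allY (E.wth (lkp [])) l10233 = true ∧
    allY (E.wth (lkp [])) l10234 = true ∧
    allY (E.wth (lkp [])) l10235 = true ∧
    allY (E.wth (lkp [])) l10236 = true :=
  ⟨by decide +kernel, by decide +kernel, by decide +kernel, by decide +kernel, by decide +kernel, by decide +kernel, by decide +kernel, by decide +kernel⟩

def t10237 : allY (E.wth (lkp [])) l10237 = true ∧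
    allY (E.wth (lkp [])) l10238 = true ∧
    allY (E.wth (lkp [])) l10239 = true ∧
    allY (E.wth (lkp [])) l10240 = true ∧
    allY (E.wth (lkp [])) l10241 = true ∧
    allY (E.wth (lkp [])) l10242 = true ∧
    allY (E.wth (lkp [])) l10243 = true ∧
    allY (E.wth (lkp [])) l10244 = true :=
  ⟨by decide +kernel, by decide +kernel, by decide +kernel, by decide +kernel, by decide +kernel, by decide +kernel, by decide +kernel, by decide +kernel⟩

def t10245 : allY (E.wth (lkp [])) l10245 = true ∧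
    allY (E.wth (lkp [])) l10246 = true ∧
    allY (E.wth (lkp [])) l10247 = true ∧
    allY (E.wth (lkp [])) l10248 = true ∧
    allY (E.wth (lkp [])) l10249 = true ∧
    allY (E.wth (lkp [])) l10250 = true ∧
    allY (E.wth (lkp [])) l10251 = true ∧
    allY (E.wth (lkp [])) l10252 = true :=
  ⟨by decide +kernel, by decide +kernel, by decide +kernel, by decide +kernel, by decide +kernel, by decide +kernel, by decide +kernel, by decide +kernel⟩

def t10253 : allY (E.wth (lkp [])) l10253 = true ∧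
    allY (E.wth (lkp [])) l10254 = true ∧
    allY (E.wth (lkp [])) l10255 = true ∧
    allY (E.wth (lkp [])) l10256 = true ∧
    allY (E.wth (lkp [])) l10257 = true ∧
    allY (E.wth (lkp [])) l10258 = true ∧
    allY (E.wth (lkp [])) l10259 = true ∧
    allY (E.wth (lkp [])) l10260 = true :=
  ⟨by decide +kernel, by decide +kernel, by decide +kernel, by decide +kernel, by decide +kernel, by decide +kernel, by decide +kernel, by decide +kernel⟩

def t10261 : allY (E.wth (lkp [])) l10261 = true ∧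
    allY (E.wth (lkp [])) l10262 = true ∧
    allY (E.wth (lkp [])) l10263 = true ∧
    allY (E.wth (lkp [])) l10264 = true ∧
    allY (E.wth (lkp [])) l10265 = true ∧
    allY (E.wth (lkp [])) l10266 = true ∧
    allY (E.wth (lkp [])) l10267 = true ∧
    allY (E.wth (lkp [])) l10268 = true :=
  ⟨by decide +kernel, by decide +kernel, by decide +kernel, by decide +kernel, by decide +kernel, by decide +kernel, by decide +kernel, by decide +kernel⟩

def t10269 : allY (E.wth (lkp [])) l10269 = true ∧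
    allY (E.wth (lkp [])) l10270 = true ∧
    allY (E.wth (lkp [])) l10271 = true ∧
    allY (E.wth (lkp [])) l10272 = true ∧
    allY (E.wth (lkp [])) l10273 = true ∧
    allY (E.wth (lkp [])) l10274 = true ∧
    allY (E.wth (lkp [])) l10275 = true ∧
    allY (E.wth (lkp [])) l10276 = true :=
  ⟨by decide +kernel, by decide +kernel, by decide +kernel, by decide +kernel, by decide +kernel, by decide +kernel, by decide +kernel, by decide +kernel⟩

def t10277 : allY (E.wth (lkp [])) l10277 = true ∧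
    allY (E.wth (lkp [])) l10278 = true ∧
    allY (E.wth (lkp [])) l10279 = true ∧
    allY (E.wth (lkp [])) l10280 = true ∧
    allY (E.wth (lkp [])) l10281 = true ∧
    allY (E.wth (lkp [])) l10282 = true ∧
    allY (E.wth (lkp [])) l10283 = true ∧
    allY (E.wth (lkp [])) l10284 = true :=
  ⟨by decide +kernel, by decide +kernel, by decide +kernel, by decide +kernel, by decide +kernel, by decide +kernel, by decide +kernel, by decide +kernel⟩

def t10285 : allY (E.wth (lkp [])) l10285 = true ∧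
    allY (E.wth (lkp [])) l10286 = true ∧
    allY (E.wth (lkp [])) l10287 = true ∧
    allY (E.wth (lkp [])) l10288 = true ∧
    allY (E.wth (lkp [])) l10289 = true ∧
    allY (E.wth (lkp [])) l10290 = true ∧
    allY (E.wth (lkp [])) l10291 = true ∧
    allY (E.wth (lkp [])) l10292 = true :=
  ⟨by decide +kernel, by decide +kernel, by decide +kernel, by decide +kernel, by decide +kernel, by decide +kernel, by decide +kernel, by decide +kernel⟩

def t10293 : allY (E.wth (lkp [])) l10293 = true ∧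
    allY (E.wth (lkp [])) l10294 = true ∧
    allY (E.wth (lkp [])) l10295 = true ∧
    allY (E.wth (lkp [])) l10296 = true ∧
    allY (E.wth (lkp [])) l10297 = true ∧
    allY (E.wth (lkp [])) l10298 = true ∧
    allY (E.wth (lkp [])) l10299 = true ∧
    allY (E.wth (lkp [])) l10300 = true :=
  ⟨by decide +kernel, by decide +kernel, by decide +kernel, by decide +kernel, by decide +kernel, by decide +kernel, by decide +kernel, by decide +kernel⟩

def t10301 : allY (E.wth (lkp [])) l10301 = true ∧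
    allY (E.wth (lkp [])) l10302 = true ∧
    allY (E.wth (lkp [])) l10303 = true ∧
    allY (E.wth (lkp [])) l10304 = true ∧
    allY (E.wth (lkp [])) l10305 = true ∧
    allY (E.wth (lkp [])) l10306 = true ∧
    allY (E.wth (lkp [])) l10307 = true ∧
    allY (E.wth (lkp [])) l10308 = true :=
  ⟨by decide +kernel, by decide +kernel, by decide +kernel, by decide +kernel, by decide +kernel, by decide +kernel, by decide +kernel, by decide +kernel⟩

def t10309 : allY (E.wth (lkp [])) l10309 = true ∧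
    allY (E.wth (lkp [])) l10310 = true ∧
    allY (E.wth (lkp [])) l10311 = true ∧
    allY (E.wth (lkp [])) l10312 = true ∧
    allY (E.wth (lkp [])) l10313 = true ∧
    allY (E.wth (lkp [])) l10314 = true ∧
    allY (E.wth (lkp [])) l10315 = true ∧
    allY (E.wth (lkp [])) l10316 = true :=
  ⟨by decide +kernel, by decide +kernel, by decide +kernel, by decide +kernel, by decide +kernel, by decide +kernel, by decide +kernel, by decide +kernel⟩

def t10317 : allY (E.wth (lkp [])) l10317 = true ∧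
    allY (E.wth (lkp [])) l10318 = true ∧
    allY (E.wth (lkp [])) l10319 = true ∧
    allY (E.wth (lkp [])) l10320 = true ∧
    allY (E.wth (lkp [])) l10321 = true ∧
    allY (E.wth (lkp [])) l10322 = true ∧
    allY (E.wth (lkp [])) l10323 = true ∧
    allY (E.wth (lkp [])) l10324 = true :=
  ⟨by decide +kernel, by decide +kernel, by decide +kernel, by decide +kernel, by decide +kernel, by decide +kernel, by decide +kernel, by decide +kernel⟩

def t10325 : allY (E.wth (lkp [])) l10325 = true ∧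
    allY (E.wth (lkp [])) l10326 = true ∧
    allY (E.wth (lkp [])) l10327 = true ∧
    allY (E.wth (lkp [])) l10328 = true ∧
    allY (E.wth (lkp [])) l10329 = true ∧
    allY (E.wth (lkp [])) l10330 = true ∧
    allY (E.wth (lkp [])) l10331 = true ∧
    allY (E.wth (lkp [])) l10332 = true :=
  ⟨by decide +kernel, by decide +kernel, by decide +kernel, by decide +kernel, by decide +kernel, by decide +kernel, by decide +kernel, by decide +kernel⟩

def t10333 : allY (E.wth (lkp [])) l10333 = true ∧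
    allY (E.wth (lkp [])) l10334 = true ∧
    allY (E.wth (lkp [])) l10335 = true ∧
    allY (E.wth (lkp [])) l10336 = true ∧
    allY (E.wth (lkp [])) l10337 = true ∧
    allY (E.wth (lkp [])) l10338 = true ∧
    allY (E.wth (lkp [])) l10339 = true ∧
    allY (E.wth (lkp [])) l10340 = true :=
  ⟨by decide +kernel, by decide +kernel, by decide +kernel, by decide +kernel, by decide +kernel, by decide +kernel, by decide +kernel, by decide +kernel⟩

def t10341 : allY (E.wth (lkp [])) l10341 = true ∧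
    allY (E.wth (lkp [])) l10342 = true ∧
    allY (E.wth (lkp [])) l10343 = true ∧
    allY (E.wth (lkp [])) l10344 = true ∧
    allY (E.wth (lkp [])) l10345 = true ∧
    allY (E.wth (lkp [])) l10346 = true ∧
    allY (E.wth (lkp [])) l10347 = true ∧
    allY (E.wth (lkp [])) l10348 = true :=
  ⟨by decide +kernel, by decide +kernel, by decide +kernel, by decide +kernel, by decide +kernel, by decide +kernel, by decide +kernel, by decide +kernel⟩

def t10349 : allY (E.wth (lkp [])) l10349 = true ∧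
    allY (E.wth (lkp [])) l10350 = true ∧
    allY (E.wth (lkp [])) l10351 = true ∧
    allY (E.wth (lkp [])) l10352 = true ∧
    allY (E.wth (lkp [])) l10353 = true ∧
    allY (E.wth (lkp [])) l10354 = true ∧
    allY (E.wth (lkp [])) l10355 = true ∧
    allY (E.wth (lkp [])) l10356 = true :=
  ⟨by decide +kernel, by decide +kernel, by decide +kernel, by decide +kernel, by decide +kernel, by decide +kernel, by decide +kernel, by decide +kernel⟩

def t10357 : allY (E.wth (lkp [])) l10357 = true ∧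
    allY (E.wth (lkp [])) l10358 = true ∧
    allY (E.wth (lkp [])) l10359 = true ∧
    allY (E.wth (lkp [])) l10360 = true ∧
    allY (E.wth (lkp [])) l10361 = true ∧
    allY (E.wth (lkp [])) l10362 = true ∧
    allY (E.wth (lkp [])) l10363 = true ∧
    allY (E.wth (lkp [])) l10364 = true :=
  ⟨by decide +kernel, by decide +kernel, by decide +kernel, by decide +kernel, by decide +kernel, by decide +kernel, by decide +kernel, by decide +kernel⟩

def t10365 : allY (E.wth (lkp [])) l10365 = true ∧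
    allY (E.wth (lkp [])) l10366 = true ∧
    allY (E.wth (lkp [])) l10367 = true ∧
    allY (E.wth (lkp [])) l10368 = true ∧
    allY (E.wth (lkp [])) l10369 = true ∧
    allY (E.wth (lkp [])) l10370 = true ∧
    allY (E.wth (lkp [])) l10371 = true ∧
    allY (E.wth (lkp [])) l10372 = true :=
  ⟨by decide +kernel, by decide +kernel, by decide +kernel, by decide +kernel, by decide +kernel, by decide +kernel, by decide +kernel, by decide +kernel⟩

def t10373 : allY (E.wth (lkp [])) l10373 = true ∧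
    allY (E.wth (lkp [])) l10374 = true ∧
    allY (E.wth (lkp [])) l10375 = true ∧
    allY (E.wth (lkp [])) l10376 = true ∧
    allY (E.wth (lkp [])) l10377 = true ∧
    allY (E.wth (lkp [])) l10378 = true ∧
    allY (E.wth (lkp [])) l10379 = true ∧
    allY (E.wth (lkp [])) l10380 = true :=
  ⟨by decide +kernel, by decide +kernel, by decide +kernel, by decide +kernel, by decide +kernel, by decide +kernel, by decide +kernel, by decide +kernel⟩

def t10381 : allY (E.wth (lkp [])) l10381 = true ∧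
    allY (E.wth (lkp [])) l10382 = true ∧
    allY (E.wth (lkp [])) l10383 = true ∧
    allY (E.wth (lkp [])) l10384 = true ∧
    allY (E.wth (lkp [])) l10385 = true ∧
    allY (E.wth (lkp [])) l10386 = true ∧
    allY (E.wth (lkp [])) l10387 = true ∧
    allY (E.wth (lkp [])) l10388 = true :=
  ⟨by decide +kernel, by decide +kernel, by decide +kernel, by decide +kernel, by decide +kernel, by decide +kernel, by decide +kernel, by decide +kernel⟩

def t10389 : allY (E.wth (lkp [])) l10389 = true ∧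
    allY (E.wth (lkp [])) l10390 = true ∧
    allY (E.wth (lkp [])) l10391 = true ∧
    allY (E.wth (lkp [])) l10392 = true ∧
    allY (E.wth (lkp [])) l10393 = true ∧
    allY (E.wth (lkp [])) l10394 = true ∧
    allY (E.wth (lkp [])) l10395 = true ∧
    allY (E.wth (lkp [])) l10396 = true :=
  ⟨by decide +kernel, by decide +kernel, by decide +kernel, by decide +kernel, by decide +kernel, by decide +kernel, by decide +kernel, by decide +kernel⟩

def t10397 : allY (E.wth (lkp [])) l10397 = true ∧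
    allY (E.wth (lkp [])) l10398 = true ∧
    allY (E.wth (lkp [])) l10399 = true ∧
    allY (E.wth (lkp [])) l10400 = true ∧
    allY (E.wth (lkp [])) l10401 = true ∧
    allY (E.wth (lkp [])) l10402 = true ∧
    allY (E.wth (lkp [])) l10403 = true ∧
    allY (E.wth (lkp [])) l10404 = true :=
  ⟨by decide +kernel, by decide +kernel, by decide +kernel, by decide +kernel, by decide +kernel, by decide +kernel, by decide +kernel, by decide +kernel⟩

def t10405 : allY (E.wth (lkp [])) l10405 = true ∧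
    allY (E.wth (lkp [])) l10406 = true ∧
    allY (E.wth (lkp [])) l10407 = true ∧
    allY (E.wth (lkp [])) l10408 = true ∧
    allY (E.wth (lkp [])) l10409 = true ∧
    allY (E.wth (lkp [])) l10410 = true ∧
    allY (E.wth (lkp [])) l10411 = true ∧
    allY (E.wth (lkp [])) l10412 = true :=
  ⟨by decide +kernel, by decide +kernel, by decide +kernel, by decide +kernel, by decide +kernel, by decide +kernel, by decide +kernel, by decide +kernel⟩

def t10413 : allY (E.wth (lkp [])) l10413 = true ∧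
    allY (E.wth (lkp [])) l10414 = true ∧
    allY (E.wth (lkp [])) l10415 = true ∧
    allY (E.wth (lkp [])) l10416 = true ∧
    allY (E.wth (lkp [])) l10417 = true ∧
    allY (E.wth (lkp [])) l10418 = true ∧
    allY (E.wth (lkp [])) l10419 = true ∧
    allY (E.wth (lkp [])) l10420 = true :=
  ⟨by decide +kernel, by decide +kernel, by decide +kernel, by decide +kernel, by decide +kernel, by decide +kernel, by decide +kernel, by decide +kernel⟩

def t10421 : allY (E.wth (lkp [])) l10421 = true ∧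
    allY (E.wth (lkp [])) l10422 = true ∧
    allY (E.wth (lkp [])) l10423 = true ∧
    allY (E.wth (lkp [])) l10424 = true ∧
    allY (E.wth (lkp [])) l10425 = true ∧
    allY (E.wth (lkp [])) l10426 = true ∧
    allY (E.wth (lkp [])) l10427 = true ∧
    allY (E.wth (lkp [])) l10428 = true :=
  ⟨by decide +kernel, by decide +kernel, by decide +kernel, by decide +kernel, by decide +kernel, by decide +kernel, by decide +kernel, by decide +kernel⟩

def t10429 : allY (E.wth (lkp [])) l10429 = true ∧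
    allY (E.wth (lkp [])) l10430 = true ∧
    allY (E.wth (lkp [])) l10431 = true ∧
    allY (E.wth (lkp [])) l10432 = true ∧
    allY (E.wth (lkp [])) l10433 = true ∧
    allY (E.wth (lkp [])) l10434 = true ∧
    allY (E.wth (lkp [])) l10435 = true ∧
    allY (E.wth (lkp [])) l10436 = true :=
  ⟨by decide +kernel, by decide +kernel, by decide +kernel, by decide +kernel, by decide +kernel, by decide +kernel, by decide +kernel, by decide +kernel⟩

def t10437 : allY (E.wth (lkp [])) l10437 = true ∧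
    allY (E.wth (lkp [])) l10438 = true ∧
    allY (E.wth (lkp [])) l10439 = true ∧
    allY (E.wth (lkp [])) l10440 = true ∧
    allY (E.wth (lkp [])) l10441 = true ∧
    allY (E.wth (lkp [])) l10442 = true ∧
    allY (E.wth (lkp [])) l10443 = true ∧
    allY (E.wth (lkp [])) l10444 = true :=
  ⟨by decide +kernel, by decide +kernel, by decide +kernel, by decide +kernel, by decide +kernel, by decide +kernel, by decide +kernel, by decide +kernel⟩

def t10445 : allY (E.wth (lkp [])) l10445 = true ∧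
    allY (E.wth (lkp [])) l10446 = true ∧
    allY (E.wth (lkp [])) l10447 = true ∧
    allY (E.wth (lkp [])) l10448 = true ∧
    allY (E.wth (lkp [])) l10449 = true ∧
    allY (E.wth (lkp [])) l10450 = true ∧
    allY (E.wth (lkp [])) l10451 = true ∧
    allY (E.wth (lkp [])) l10452 = true :=
  ⟨by decide +kernel, by decide +kernel, by decide +kernel, by decide +kernel, by decide +kernel, by decide +kernel, by decide +kernel, by decide +kernel⟩

def t10453 : allY (E.wth (lkp [])) l10453 = true ∧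
    allY (E.wth (lkp [])) l10454 = true ∧
    allY (E.wth (lkp [])) l10455 = true ∧
    allY (E.wth (lkp [])) l10456 = true ∧
    allY (E.wth (lkp [])) l10457 = true ∧
    allY (E.wth (lkp [])) l10458 = true ∧
    allY (E.wth (lkp [])) l10459 = true ∧
    allY (E.wth (lkp [])) l10460 = true :=
  ⟨by decide +kernel, by decide +kernel, by decide +kernel, by decide +kernel, by decide +kernel, by decide +kernel, by decide +kernel, by decide +kernel⟩

def t10461 : allY (E.wth (lkp [])) l10461 = true ∧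
    allY (E.wth (lkp [])) l10462 = true ∧
    allY (E.wth (lkp [])) l10463 = true ∧
    allY (E.wth (lkp [])) l10464 = true ∧
    allY (E.wth (lkp [])) l10465 = true ∧
    allY (E.wth (lkp [])) l10466 = true ∧
    allY (E.wth (lkp [])) l10467 = true ∧
    allY (E.wth (lkp [])) l10468 = true :=
  ⟨by decide +kernel, by decide +kernel, by decide +kernel, by decide +kernel, by decide +kernel, by decide +kernel, by decide +kernel, by decide +kernel⟩

def t10469 : allY (E.wth (lkp [])) l10469 = true ∧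
    allY (E.wth (lkp [])) l10470 = true ∧
    allY (E.wth (lkp [])) l10471 = true ∧
    allY (E.wth (lkp [])) l10472 = true ∧
    allY (E.wth (lkp [])) l10473 = true ∧
    allY (E.wth (lkp [])) l10474 = true ∧
    allY (E.wth (lkp [])) l10475 = true ∧
    allY (E.wth (lkp [])) l10476 = true :=
  ⟨by decide +kernel, by decide +kernel, by decide +kernel, by decide +kernel, by decide +kernel, by decide +kernel, by decide +kernel, by decide +kernel⟩

def t10477 : allY (E.wth (lkp [])) l10477 = true ∧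
    allY (E.wth (lkp [])) l10478 = true ∧
    allY (E.wth (lkp [])) l10479 = true ∧
    allY (E.wth (lkp [])) l10480 = true ∧
    allY (E.wth (lkp [])) l10481 = true ∧
    allY (E.wth (lkp [])) l10482 = true ∧
    allY (E.wth (lkp [])) l10483 = true ∧
    allY (E.wth (lkp [])) l10484 = true :=
  ⟨by decide +kernel, by decide +kernel, by decide +kernel, by decide +kernel, by decide +kernel, by decide +kernel, by decide +kernel, by decide +kernel⟩

def t10485 : allY (E.wth (lkp [])) l10485 = true ∧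
    allY (E.wth (lkp [])) l10486 = true ∧
    allY (E.wth (lkp [])) l10487 = true ∧
    allY (E.wth (lkp [])) l10488 = true ∧
    allY (E.wth (lkp [])) l10489 = true ∧
    allY (E.wth (lkp [])) l10490 = true ∧
    allY (E.wth (lkp [])) l10491 = true ∧
    allY (E.wth (lkp [])) l10492 = true :=
  ⟨by decide +kernel, by decide +kernel, by decide +kernel, by decide +kernel, by decide +kernel, by decide +kernel, by decide +kernel, by decide +kernel⟩

def t10493 : allY (E.wth (lkp [])) l10493 = true ∧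
    allY (E.wth (lkp [])) l10494 = true ∧
    allY (E.wth (lkp [])) l10495 = true ∧
    allY (E.wth (lkp [])) l10496 = true ∧
    allY (E.wth (lkp [])) l10497 = true ∧
    allY (E.wth (lkp [])) l10498 = true ∧
    allY (E.wth (lkp [])) l10499 = true ∧
    allY (E.wth (lkp [])) l10500 = true :=
  ⟨by decide +kernel, by decide +kernel, by decide +kernel, by decide +kernel, by decide +kernel, by decide +kernel, by decide +kernel, by decide +kernel⟩

def t10501 : allY (E.wth (lkp [])) l10501 = true ∧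
    allY (E.wth (lkp [])) l10502 = true ∧
    allY (E.wth (lkp [])) l10503 = true ∧
    allY (E.wth (lkp [])) l10504 = true ∧
    allY (E.wth (lkp [])) l10505 = true ∧
    allY (E.wth (lkp [])) l10506 = true ∧
    allY (E.wth (lkp [])) l10507 = true ∧
    allY (E.wth (lkp [])) l10508 = true :=
  ⟨by decide +kernel, by decide +kernel, by decide +kernel, by decide +kernel, by decide +kernel, by decide +kernel, by decide +kernel, by decide +kernel⟩

def t10509 : allY (E.wth (lkp [])) l10509 = true ∧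
    allY (E.wth (lkp [])) l10510 = true ∧
    allY (E.wth (lkp [])) l10511 = true ∧
    allY (E.wth (lkp [])) l10512 = true ∧
    allY (E.wth (lkp [])) l10513 = true ∧
    allY (E.wth (lkp [])) l10514 = true ∧
    allY (E.wth (lkp [])) l10515 = true ∧
    allY (E.wth (lkp [])) l10516 = true :=
  ⟨by decide +kernel, by decide +kernel, by decide +kernel, by decide +kernel, by decide +kernel, by decide +kernel, by decide +kernel, by decide +kernel⟩

def t10517 : allY (E.wth (lkp [])) l10517 = true ∧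
    allY (E.wth (lkp [])) l10518 = true ∧
    allY (E.wth (lkp [])) l10519 = true ∧
    allY (E.wth (lkp [])) l10520 = true ∧
    allY (E.wth (lkp [])) l10521 = true ∧
    allY (E.wth (lkp [])) l10522 = true ∧
    allY (E.wth (lkp [])) l10523 = true ∧
    allY (E.wth (lkp [])) l10524 = true :=
  ⟨by decide +kernel, by decide +kernel, by decide +kernel, by decide +kernel, by decide +kernel, by decide +kernel, by decide +kernel, by decide +kernel⟩

def t10525 : allY (E.wth (lkp [])) l10525 = true ∧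
    allY (E.wth (lkp [])) l10526 = true ∧
    allY (E.wth (lkp [])) l10527 = true ∧
    allY (E.wth (lkp [])) l10528 = true ∧
    allY (E.wth (lkp [])) l10529 = true ∧
    allY (E.wth (lkp [])) l10530 = true ∧
    allY (E.wth (lkp [])) l10531 = true ∧
    allY (E.wth (lkp [])) l10532 = true :=
  ⟨by decide +kernel, by decide +kernel, by decide +kernel, by decide +kernel, by decide +kernel, by decide +kernel, by decide +kernel, by decide +kernel⟩

def t10533 : allY (E.wth (lkp [])) l10533 = true ∧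
    allY (E.wth (lkp [])) l10534 = true ∧
    allY (E.wth (lkp [])) l10535 = true ∧
    allY (E.wth (lkp [])) l10536 = true ∧
    allY (E.wth (lkp [])) l10537 = true ∧
    allY (E.wth (lkp [])) l10538 = true ∧
    allY (E.wth (lkp [])) l10539 = true ∧
    allY (E.wth (lkp [])) l10540 = true :=
  ⟨by decide +kernel, by decide +kernel, by decide +kernel, by decide +kernel, by decide +kernel, by decide +kernel, by decide +kernel, by decide +kernel⟩

def t10541 : allY (E.wth (lkp [])) l10541 = true ∧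
    allY (E.wth (lkp [])) l10542 = true ∧
    allY (E.wth (lkp [])) l10543 = true ∧
    allY (E.wth (lkp [])) l10544 = true ∧
    allY (E.wth (lkp [])) l10545 = true ∧
    allY (E.wth (lkp [])) l10546 = true ∧
    allY (E.wth (lkp [])) l10547 = true ∧
    allY (E.wth (lkp [])) l10548 = true :=
  ⟨by decide +kernel, by decide +kernel, by decide +kernel, by decide +kernel, by decide +kernel, by decide +kernel, by decide +kernel, by decide +kernel⟩

def t10549 : allY (E.wth (lkp [])) l10549 = true ∧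
    allY (E.wth (lkp [])) l10550 = true ∧
    allY (E.wth (lkp [])) l10551 = true ∧
    allY (E.wth (lkp [])) l10552 = true ∧
    allY (E.wth (lkp [])) l10553 = true ∧
    allY (E.wth (lkp [])) l10554 = true ∧
    allY (E.wth (lkp [])) l10555 = true ∧
    allY (E.wth (lkp [])) l10556 = true :=
  ⟨by decide +kernel, by decide +kernel, by decide +kernel, by decide +kernel, by decide +kernel, by decide +kernel, by decide +kernel, by decide +kernel⟩

def t10557 : allY (E.wth (lkp [])) l10557 = true ∧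
    allY (E.wth (lkp [])) l10558 = true ∧
    allY (E.wth (lkp [])) l10559 = true ∧
    allY (E.wth (lkp [])) l10560 = true ∧
    allY (E.wth (lkp [])) l10561 = true ∧
    allY (E.wth (lkp [])) l10562 = true ∧
    allY (E.wth (lkp [])) l10563 = true ∧
    allY (E.wth (lkp [])) l10564 = true :=
  ⟨by decide +kernel, by decide +kernel, by decide +kernel, by decide +kernel, by decide +kernel, by decide +kernel, by decide +kernel, by decide +kernel⟩

def t10565 : allY (E.wth (lkp [])) l10565 = true ∧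
    allY (E.wth (lkp [])) l10566 = true ∧
    allY (E.wth (lkp [])) l10567 = true ∧
    allY (E.wth (lkp [])) l10568 = true ∧
    allY (E.wth (lkp [])) l10569 = true ∧
    allY (E.wth (lkp [])) l10570 = true ∧
    allY (E.wth (lkp [])) l10571 = true ∧
    allY (E.wth (lkp [])) l10572 = true :=
  ⟨by decide +kernel, by decide +kernel, by decide +kernel, by decide +kernel, by decide +kernel, by decide +kernel, by decide +kernel, by decide +kernel⟩

def t10573 : allY (E.wth (lkp [])) l10573 = true ∧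
    allY (E.wth (lkp [])) l10574 = true ∧
    allY (E.wth (lkp [])) l10575 = true ∧
    allY (E.wth (lkp [])) l10576 = true ∧
    allY (E.wth (lkp [])) l10577 = true ∧
    allY (E.wth (lkp [])) l10578 = true ∧
    allY (E.wth (lkp [])) l10579 = true ∧
    allY (E.wth (lkp [])) l10580 = true :=
  ⟨by decide +kernel, by decide +kernel, by decide +kernel, by decide +kernel, by decide +kernel, by decide +kernel, by decide +kernel, by decide +kernel⟩

def t10581 : allY (E.wth (lkp [])) l10581 = true ∧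
    allY (E.wth (lkp [])) l10582 = true ∧
    allY (E.wth (lkp [])) l10583 = true ∧
    allY (E.wth (lkp [])) l10584 = true ∧
    allY (E.wth (lkp [])) l10585 = true ∧
    allY (E.wth (lkp [])) l10586 = true ∧
    allY (E.wth (lkp [])) l10587 = true ∧
    allY (E.wth (lkp [])) l10588 = true :=
  ⟨by decide +kernel, by decide +kernel, by decide +kernel, by decide +kernel, by decide +kernel, by decide +kernel, by decide +kernel, by decide +kernel⟩

def t10589 : allY (E.wth (lkp [])) l10589 = true ∧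
    allY (E.wth (lkp [])) l10590 = true ∧
    allY (E.wth (lkp [])) l10591 = true ∧
    allY (E.wth (lkp [])) l10592 = true ∧
    allY (E.wth (lkp [])) l10593 = true ∧
    allY (E.wth (lkp [])) l10594 = true ∧
    allY (E.wth (lkp [])) l10595 = true ∧
    allY (E.wth (lkp [])) l10596 = true :=
  ⟨by decide +kernel, by decide +kernel, by decide +kernel, by decide +kernel, by decide +kernel, by decide +kernel, by decide +kernel, by decide +kernel⟩

def t10597 : allY (E.wth (lkp [])) l10597 = true ∧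
    allY (E.wth (lkp [])) l10598 = true ∧
    allY (E.wth (lkp [])) l10599 = true ∧
    allY (E.wth (lkp [])) l10600 = true ∧
    allY (E.wth (lkp [])) l10601 = true ∧
    allY (E.wth (lkp [])) l10602 = true ∧
    allY (E.wth (lkp [])) l10603 = true ∧
    allY (E.wth (lkp [])) l10604 = true :=
  ⟨by decide +kernel, by decide +kernel, by decide +kernel, by decide +kernel, by decide +kernel, by decide +kernel, by decide +kernel, by decide +kernel⟩

def t10605 : allY (E.wth (lkp [])) l10605 = true ∧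
    allY (E.wth (lkp [])) l10606 = true ∧
    allY (E.wth (lkp [])) l10607 = true ∧
    allY (E.wth (lkp [])) l10608 = true ∧
    allY (E.wth (lkp [])) l10609 = true ∧
    allY (E.wth (lkp [])) l10610 = true ∧
    allY (E.wth (lkp [])) l10611 = true ∧
    allY (E.wth (lkp [])) l10612 = true :=
  ⟨by decide +kernel, by decide +kernel, by decide +kernel, by decide +kernel, by decide +kernel, by decide +kernel, by decide +kernel, by decide +kernel⟩

def t10613 : allY (E.wth (lkp [])) l10613 = true ∧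
    allY (E.wth (lkp [])) l10614 = true ∧
    allY (E.wth (lkp [])) l10615 = true ∧
    allY (E.wth (lkp [])) l10616 = true ∧
    allY (E.wth (lkp [])) l10617 = true ∧
    allY (E.wth (lkp [])) l10618 = true ∧
    allY (E.wth (lkp [])) l10619 = true :=
  ⟨by decide +kernel, by decide +kernel, by decide +kernel, by decide +kernel, by decide +kernel, by decide +kernel, by decide +kernel⟩

theorem a18 {p : Rf → Prop} (H : ∀ l, allY (E.wth (lkp [])) l = true → (lkp l).All p) :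
    b18.All p := ⟨⟨⟨⟨⟨⟨⟨⟨⟨H _ t10061.1, H _ t10061.2.1⟩, ⟨H _ t10061.2.2.1, H _ t10061.2.2.2.1⟩⟩, ⟨⟨H _ t10061.2.2.2.2.1, H _ t10061.2.2.2.2.2.1⟩, ⟨H _ t10061.2.2.2.2.2.2.1, H _ t10061.2.2.2.2.2.2.2⟩⟩⟩, ⟨⟨⟨H _ t10069.1, H _ t10069.2.1⟩, ⟨H _ t10069.2.2.1, H _ t10069.2.2.2.1⟩⟩, ⟨⟨H _ t10069.2.2.2.2.1, H _ t10069.2.2.2.2.2.1⟩, ⟨H _ t10069.2.2.2.2.2.2.1, ⟨H _ t10069.2.2.2.2.2.2.2, H _ t10077.1⟩⟩⟩⟩⟩, ⟨⟨⟨⟨H _ t10077.2.1, H _ t10077.2.2.1⟩, ⟨H _ t10077.2.2.2.1, H _ t10077.2.2.2.2.1⟩⟩, ⟨⟨H _ t10077.2.2.2.2.2.1, H _ t10077.2.2.2.2.2.2.1⟩, ⟨H _ t10077.2.2.2.2.2.2.2, H _ t10085.1⟩⟩⟩, ⟨⟨⟨H _ t10085.2.1, H _ t10085.2.2.1⟩, ⟨H _ t10085.2.2.2.1, H _ t10085.2.2.2.2.1⟩⟩, ⟨⟨H _ t10085.2.2.2.2.2.1, H _ t10085.2.2.2.2.2.2.1⟩, ⟨H _ t10085.2.2.2.2.2.2.2, ⟨H _ t10093.1, H _ t10093.2.1⟩⟩⟩⟩⟩⟩, ⟨⟨⟨⟨⟨H _ t10093.2.2.1, H _ t10093.2.2.2.1⟩, ⟨H _ t10093.2.2.2.2.1, H _ t10093.2.2.2.2.2.1⟩⟩, ⟨⟨H _ t10093.2.2.2.2.2.2.1, H _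 t10093.2.2.2.2.2.2.2⟩, ⟨H _ t10101.1, H _ t10101.2.1⟩⟩⟩, ⟨⟨⟨H _ t10101.2.2.1, H _ t10101.2.2.2.1⟩, ⟨H _ t10101.2.2.2.2.1, H _ t10101.2.2.2.2.2.1⟩⟩, ⟨⟨H _ t10101.2.2.2.2.2.2.1, H _ t10101.2.2.2.2.2.2.2⟩, ⟨H _ t10109.1, ⟨H _ t10109.2.1, H _ t10109.2.2.1⟩⟩⟩⟩⟩, ⟨⟨⟨⟨H _ t10109.2.2.2.1, H _ t10109.2.2.2.2.1⟩, ⟨H _ t10109.2.2.2.2.2.1, H _ t10109.2.2.2.2.2.2.1⟩⟩, ⟨⟨H _ t10109.2.2.2.2.2.2.2, H _ t10117.1⟩, ⟨H _ t10117.2.1, ⟨H _ t10117.2.2.1, H _ t10117.2.2.2.1⟩⟩⟩⟩, ⟨⟨⟨H _ t10117.2.2.2.2.1, H _ t10117.2.2.2.2.2.1⟩, ⟨H _ t10117.2.2.2.2.2.2.1, H _ t10117.2.2.2.2.2.2.2⟩⟩, ⟨⟨H _ t10125.1, H _ t10125.2.1⟩, ⟨H _ t10125.2.2.1, ⟨H _ t10125.2.2.2.1, H _ t10125.2.2.2.2.1⟩⟩⟩⟩⟩⟩⟩, ⟨⟨⟨⟨⟨⟨H _ t10125.2.2.2.2.2.1, H _ t10125.2.2.2.2.2.2.1⟩, ⟨H _ t10125.2.2.2.2.2.2.2, H _ t10133.1⟩⟩, ⟨⟨H _ t10133.2.1, H _ t10133.2.2.1⟩, ⟨H _ t10133.2.2.2.1, H _ t10133.2.2.2.2.1⟩⟩⟩, ⟨⟨⟨H _ t10133.2.2.2.2.2.1, H _ t10133.2.2.2.2.2.2.1⟩,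 ⟨H _ t10133.2.2.2.2.2.2.2, H _ t10141.1⟩⟩, ⟨⟨H _ t10141.2.1, H _ t10141.2.2.1⟩, ⟨H _ t10141.2.2.2.1, ⟨H _ t10141.2.2.2.2.1, H _ t10141.2.2.2.2.2.1⟩⟩⟩⟩⟩, ⟨⟨⟨⟨H _ t10141.2.2.2.2.2.2.1, H _ t10141.2.2.2.2.2.2.2⟩, ⟨H _ t10149.1, H _ t10149.2.1⟩⟩, ⟨⟨H _ t10149.2.2.1, H _ t10149.2.2.2.1⟩, ⟨H _ t10149.2.2.2.2.1, ⟨H _ t10149.2.2.2.2.2.1, H _ t10149.2.2.2.2.2.2.1⟩⟩⟩⟩, ⟨⟨⟨H _ t10149.2.2.2.2.2.2.2, H _ t10157.1⟩, ⟨H _ t10157.2.1, H _ t10157.2.2.1⟩⟩, ⟨⟨H _ t10157.2.2.2.1, H _ t10157.2.2.2.2.1⟩, ⟨H _ t10157.2.2.2.2.2.1, ⟨H _ t10157.2.2.2.2.2.2.1, H _ t10157.2.2.2.2.2.2.2⟩⟩⟩⟩⟩⟩, ⟨⟨⟨⟨⟨H _ t10165.1, H _ t10165.2.1⟩, ⟨H _ t10165.2.2.1, H _ t10165.2.2.2.1⟩⟩, ⟨⟨H _ t10165.2.2.2.2.1, H _ t10165.2.2.2.2.2.1⟩, ⟨H _ t10165.2.2.2.2.2.2.1, H _ t10165.2.2.2.2.2.2.2⟩⟩⟩, ⟨⟨⟨H _ t10173.1, H _ t10173.2.1⟩, ⟨H _ t10173.2.2.1, H _ t10173.2.2.2.1⟩⟩, ⟨⟨H _ t10173.2.2.2.2.1, H _ t10173.2.2.2.2.2.1⟩, ⟨H _ t10173.2.2.2.2.2.2.1,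 ⟨H _ t10173.2.2.2.2.2.2.2, H _ t10181.1⟩⟩⟩⟩⟩, ⟨⟨⟨⟨H _ t10181.2.1, H _ t10181.2.2.1⟩, ⟨H _ t10181.2.2.2.1, H _ t10181.2.2.2.2.1⟩⟩, ⟨⟨H _ t10181.2.2.2.2.2.1, H _ t10181.2.2.2.2.2.2.1⟩, ⟨H _ t10181.2.2.2.2.2.2.2, ⟨H _ t10189.1, H _ t10189.2.1⟩⟩⟩⟩, ⟨⟨⟨H _ t10189.2.2.1, H _ t10189.2.2.2.1⟩, ⟨H _ t10189.2.2.2.2.1, H _ t10189.2.2.2.2.2.1⟩⟩, ⟨⟨H _ t10189.2.2.2.2.2.2.1, H _ t10189.2.2.2.2.2.2.2⟩, ⟨H _ t10197.1, ⟨H _ t10197.2.1, H _ t10197.2.2.1⟩⟩⟩⟩⟩⟩⟩⟩, ⟨⟨⟨⟨⟨⟨⟨H _ t10197.2.2.2.1, H _ t10197.2.2.2.2.1⟩, ⟨H _ t10197.2.2.2.2.2.1, H _ t10197.2.2.2.2.2.2.1⟩⟩, ⟨⟨H _ t10197.2.2.2.2.2.2.2, H _ t10205.1⟩, ⟨H _ t10205.2.1, H _ t10205.2.2.1⟩⟩⟩, ⟨⟨⟨H _ t10205.2.2.2.1, H _ t10205.2.2.2.2.1⟩, ⟨H _ t10205.2.2.2.2.2.1, H _ t10205.2.2.2.2.2.2.1⟩⟩, ⟨⟨H _ t10205.2.2.2.2.2.2.2, H _ t10213.1⟩, ⟨H _ t10213.2.1, ⟨H _ t10213.2.2.1, H _ t10213.2.2.2.1⟩⟩⟩⟩⟩, ⟨⟨⟨⟨H _ t10213.2.2.2.2.1, H _ t10213.2.2.2.2.2.1⟩, ⟨H _ t10213.2.2.2.2.2.2.1,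 H _ t10213.2.2.2.2.2.2.2⟩⟩, ⟨⟨H _ t10221.1, H _ t10221.2.1⟩, ⟨H _ t10221.2.2.1, ⟨H _ t10221.2.2.2.1, H _ t10221.2.2.2.2.1⟩⟩⟩⟩, ⟨⟨⟨H _ t10221.2.2.2.2.2.1, H _ t10221.2.2.2.2.2.2.1⟩, ⟨H _ t10221.2.2.2.2.2.2.2, H _ t10229.1⟩⟩, ⟨⟨H _ t10229.2.1, H _ t10229.2.2.1⟩, ⟨H _ t10229.2.2.2.1, ⟨H _ t10229.2.2.2.2.1, H _ t10229.2.2.2.2.2.1⟩⟩⟩⟩⟩⟩, ⟨⟨⟨⟨⟨H _ t10229.2.2.2.2.2.2.1, H _ t10229.2.2.2.2.2.2.2⟩, ⟨H _ t10237.1, H _ t10237.2.1⟩⟩, ⟨⟨H _ t10237.2.2.1, H _ t10237.2.2.2.1⟩, ⟨H _ t10237.2.2.2.2.1, H _ t10237.2.2.2.2.2.1⟩⟩⟩, ⟨⟨⟨H _ t10237.2.2.2.2.2.2.1, H _ t10237.2.2.2.2.2.2.2⟩, ⟨H _ t10245.1, H _ t10245.2.1⟩⟩, ⟨⟨H _ t10245.2.2.1, H _ t10245.2.2.2.1⟩, ⟨H _ t10245.2.2.2.2.1, ⟨H _ t10245.2.2.2.2.2.1, H _ t10245.2.2.2.2.2.2.1⟩⟩⟩⟩⟩, ⟨⟨⟨⟨H _ t10245.2.2.2.2.2.2.2, H _ t10253.1⟩, ⟨H _ t10253.2.1, H _ t10253.2.2.1⟩⟩, ⟨⟨H _ t10253.2.2.2.1, H _ t10253.2.2.2.2.1⟩, ⟨H _ t10253.2.2.2.2.2.1, ⟨H _ t10253.2.2.2.2.2.2.1,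 H _ t10253.2.2.2.2.2.2.2⟩⟩⟩⟩, ⟨⟨⟨H _ t10261.1, H _ t10261.2.1⟩, ⟨H _ t10261.2.2.1, H _ t10261.2.2.2.1⟩⟩, ⟨⟨H _ t10261.2.2.2.2.1, H _ t10261.2.2.2.2.2.1⟩, ⟨H _ t10261.2.2.2.2.2.2.1, ⟨H _ t10261.2.2.2.2.2.2.2, H _ t10269.1⟩⟩⟩⟩⟩⟩⟩, ⟨⟨⟨⟨⟨⟨H _ t10269.2.1, H _ t10269.2.2.1⟩, ⟨H _ t10269.2.2.2.1, H _ t10269.2.2.2.2.1⟩⟩, ⟨⟨H _ t10269.2.2.2.2.2.1, H _ t10269.2.2.2.2.2.2.1⟩, ⟨H _ t10269.2.2.2.2.2.2.2, H _ t10277.1⟩⟩⟩, ⟨⟨⟨H _ t10277.2.1, H _ t10277.2.2.1⟩, ⟨H _ t10277.2.2.2.1, H _ t10277.2.2.2.2.1⟩⟩, ⟨⟨H _ t10277.2.2.2.2.2.1, H _ t10277.2.2.2.2.2.2.1⟩, ⟨H _ t10277.2.2.2.2.2.2.2, ⟨H _ t10285.1, H _ t10285.2.1⟩⟩⟩⟩⟩, ⟨⟨⟨⟨H _ t10285.2.2.1, H _ t10285.2.2.2.1⟩, ⟨H _ t10285.2.2.2.2.1, H _ t10285.2.2.2.2.2.1⟩⟩, ⟨⟨H _ t10285.2.2.2.2.2.2.1, H _ t10285.2.2.2.2.2.2.2⟩, ⟨H _ t10293.1, ⟨H _ t10293.2.1, H _ t10293.2.2.1⟩⟩⟩⟩, ⟨⟨⟨H _ t10293.2.2.2.1, H _ t10293.2.2.2.2.1⟩, ⟨H _ t10293.2.2.2.2.2.1, H _ t10293.2.2.2.2.2.2.1⟩⟩,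 ⟨⟨H _ t10293.2.2.2.2.2.2.2, H _ t10301.1⟩, ⟨H _ t10301.2.1, ⟨H _ t10301.2.2.1, H _ t10301.2.2.2.1⟩⟩⟩⟩⟩⟩, ⟨⟨⟨⟨⟨H _ t10301.2.2.2.2.1, H _ t10301.2.2.2.2.2.1⟩, ⟨H _ t10301.2.2.2.2.2.2.1, H _ t10301.2.2.2.2.2.2.2⟩⟩, ⟨⟨H _ t10309.1, H _ t10309.2.1⟩, ⟨H _ t10309.2.2.1, H _ t10309.2.2.2.1⟩⟩⟩, ⟨⟨⟨H _ t10309.2.2.2.2.1, H _ t10309.2.2.2.2.2.1⟩, ⟨H _ t10309.2.2.2.2.2.2.1, H _ t10309.2.2.2.2.2.2.2⟩⟩, ⟨⟨H _ t10317.1, H _ t10317.2.1⟩, ⟨H _ t10317.2.2.1, ⟨H _ t10317.2.2.2.1, H _ t10317.2.2.2.2.1⟩⟩⟩⟩⟩, ⟨⟨⟨⟨H _ t10317.2.2.2.2.2.1, H _ t10317.2.2.2.2.2.2.1⟩, ⟨H _ t10317.2.2.2.2.2.2.2, H _ t10325.1⟩⟩, ⟨⟨H _ t10325.2.1, H _ t10325.2.2.1⟩, ⟨H _ t10325.2.2.2.1, ⟨H _ t10325.2.2.2.2.1, H _ t10325.2.2.2.2.2.1⟩⟩⟩⟩, ⟨⟨⟨H _ t10325.2.2.2.2.2.2.1, H _ t10325.2.2.2.2.2.2.2⟩, ⟨H _ t10333.1, H _ t10333.2.1⟩⟩, ⟨⟨H _ t10333.2.2.1, H _ t10333.2.2.2.1⟩, ⟨H _ t10333.2.2.2.2.1, ⟨H _ t10333.2.2.2.2.2.1, H _ t10333.2.2.2.2.2.2.1⟩⟩⟩⟩⟩⟩⟩⟩⟩,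 ⟨⟨⟨⟨⟨⟨⟨⟨H _ t10333.2.2.2.2.2.2.2, H _ t10341.1⟩, ⟨H _ t10341.2.1, H _ t10341.2.2.1⟩⟩, ⟨⟨H _ t10341.2.2.2.1, H _ t10341.2.2.2.2.1⟩, ⟨H _ t10341.2.2.2.2.2.1, H _ t10341.2.2.2.2.2.2.1⟩⟩⟩, ⟨⟨⟨H _ t10341.2.2.2.2.2.2.2, H _ t10349.1⟩, ⟨H _ t10349.2.1, H _ t10349.2.2.1⟩⟩, ⟨⟨H _ t10349.2.2.2.1, H _ t10349.2.2.2.2.1⟩, ⟨H _ t10349.2.2.2.2.2.1, ⟨H _ t10349.2.2.2.2.2.2.1, H _ t10349.2.2.2.2.2.2.2⟩⟩⟩⟩⟩, ⟨⟨⟨⟨H _ t10357.1, H _ t10357.2.1⟩, ⟨H _ t10357.2.2.1, H _ t10357.2.2.2.1⟩⟩, ⟨⟨H _ t10357.2.2.2.2.1, H _ t10357.2.2.2.2.2.1⟩, ⟨H _ t10357.2.2.2.2.2.2.1, ⟨H _ t10357.2.2.2.2.2.2.2, H _ t10365.1⟩⟩⟩⟩, ⟨⟨⟨H _ t10365.2.1, H _ t10365.2.2.1⟩, ⟨H _ t10365.2.2.2.1, H _ t10365.2.2.2.2.1⟩⟩, ⟨⟨H _ t10365.2.2.2.2.2.1, H _ t10365.2.2.2.2.2.2.1⟩, ⟨H _ t10365.2.2.2.2.2.2.2, ⟨H _ t10373.1, H _ t10373.2.1⟩⟩⟩⟩⟩⟩, ⟨⟨⟨⟨⟨H _ t10373.2.2.1, H _ t10373.2.2.2.1⟩, ⟨H _ t10373.2.2.2.2.1, H _ t10373.2.2.2.2.2.1⟩⟩, ⟨⟨H _ t10373.2.2.2.2.2.2.1,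 H _ t10373.2.2.2.2.2.2.2⟩, ⟨H _ t10381.1, H _ t10381.2.1⟩⟩⟩, ⟨⟨⟨H _ t10381.2.2.1, H _ t10381.2.2.2.1⟩, ⟨H _ t10381.2.2.2.2.1, H _ t10381.2.2.2.2.2.1⟩⟩, ⟨⟨H _ t10381.2.2.2.2.2.2.1, H _ t10381.2.2.2.2.2.2.2⟩, ⟨H _ t10389.1, ⟨H _ t10389.2.1, H _ t10389.2.2.1⟩⟩⟩⟩⟩, ⟨⟨⟨⟨H _ t10389.2.2.2.1, H _ t10389.2.2.2.2.1⟩, ⟨H _ t10389.2.2.2.2.2.1, H _ t10389.2.2.2.2.2.2.1⟩⟩, ⟨⟨H _ t10389.2.2.2.2.2.2.2, H _ t10397.1⟩, ⟨H _ t10397.2.1, ⟨H _ t10397.2.2.1, H _ t10397.2.2.2.1⟩⟩⟩⟩, ⟨⟨⟨H _ t10397.2.2.2.2.1, H _ t10397.2.2.2.2.2.1⟩, ⟨H _ t10397.2.2.2.2.2.2.1, H _ t10397.2.2.2.2.2.2.2⟩⟩, ⟨⟨H _ t10405.1, H _ t10405.2.1⟩, ⟨H _ t10405.2.2.1, ⟨H _ t10405.2.2.2.1, H _ t10405.2.2.2.2.1⟩⟩⟩⟩⟩⟩⟩, ⟨⟨⟨⟨⟨⟨H _ t10405.2.2.2.2.2.1, H _ t10405.2.2.2.2.2.2.1⟩, ⟨H _ t10405.2.2.2.2.2.2.2, H _ t10413.1⟩⟩, ⟨⟨H _ t10413.2.1, H _ t10413.2.2.1⟩, ⟨H _ t10413.2.2.2.1, H _ t10413.2.2.2.2.1⟩⟩⟩, ⟨⟨⟨H _ t10413.2.2.2.2.2.1, H _ t10413.2.2.2.2.2.2.1⟩,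 ⟨H _ t10413.2.2.2.2.2.2.2, H _ t10421.1⟩⟩, ⟨⟨H _ t10421.2.1, H _ t10421.2.2.1⟩, ⟨H _ t10421.2.2.2.1, ⟨H _ t10421.2.2.2.2.1, H _ t10421.2.2.2.2.2.1⟩⟩⟩⟩⟩, ⟨⟨⟨⟨H _ t10421.2.2.2.2.2.2.1, H _ t10421.2.2.2.2.2.2.2⟩, ⟨H _ t10429.1, H _ t10429.2.1⟩⟩, ⟨⟨H _ t10429.2.2.1, H _ t10429.2.2.2.1⟩, ⟨H _ t10429.2.2.2.2.1, ⟨H _ t10429.2.2.2.2.2.1, H _ t10429.2.2.2.2.2.2.1⟩⟩⟩⟩, ⟨⟨⟨H _ t10429.2.2.2.2.2.2.2, H _ t10437.1⟩, ⟨H _ t10437.2.1, H _ t10437.2.2.1⟩⟩, ⟨⟨H _ t10437.2.2.2.1, H _ t10437.2.2.2.2.1⟩, ⟨H _ t10437.2.2.2.2.2.1, ⟨H _ t10437.2.2.2.2.2.2.1, H _ t10437.2.2.2.2.2.2.2⟩⟩⟩⟩⟩⟩, ⟨⟨⟨⟨⟨H _ t10445.1, H _ t10445.2.1⟩, ⟨H _ t10445.2.2.1, H _ t10445.2.2.2.1⟩⟩, ⟨⟨H _ t10445.2.2.2.2.1, H _ t10445.2.2.2.2.2.1⟩, ⟨H _ t10445.2.2.2.2.2.2.1, H _ t10445.2.2.2.2.2.2.2⟩⟩⟩, ⟨⟨⟨H _ t10453.1, H _ t10453.2.1⟩, ⟨H _ t10453.2.2.1, H _ t10453.2.2.2.1⟩⟩, ⟨⟨H _ t10453.2.2.2.2.1, H _ t10453.2.2.2.2.2.1⟩, ⟨H _ t10453.2.2.2.2.2.2.1,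 ⟨H _ t10453.2.2.2.2.2.2.2, H _ t10461.1⟩⟩⟩⟩⟩, ⟨⟨⟨⟨H _ t10461.2.1, H _ t10461.2.2.1⟩, ⟨H _ t10461.2.2.2.1, H _ t10461.2.2.2.2.1⟩⟩, ⟨⟨H _ t10461.2.2.2.2.2.1, H _ t10461.2.2.2.2.2.2.1⟩, ⟨H _ t10461.2.2.2.2.2.2.2, ⟨H _ t10469.1, H _ t10469.2.1⟩⟩⟩⟩, ⟨⟨⟨H _ t10469.2.2.1, H _ t10469.2.2.2.1⟩, ⟨H _ t10469.2.2.2.2.1, H _ t10469.2.2.2.2.2.1⟩⟩, ⟨⟨H _ t10469.2.2.2.2.2.2.1, H _ t10469.2.2.2.2.2.2.2⟩, ⟨H _ t10477.1, ⟨H _ t10477.2.1, H _ t10477.2.2.1⟩⟩⟩⟩⟩⟩⟩⟩, ⟨⟨⟨⟨⟨⟨⟨H _ t10477.2.2.2.1, H _ t10477.2.2.2.2.1⟩, ⟨H _ t10477.2.2.2.2.2.1, H _ t10477.2.2.2.2.2.2.1⟩⟩, ⟨⟨H _ t10477.2.2.2.2.2.2.2, H _ t10485.1⟩, ⟨H _ t10485.2.1, H _ t10485.2.2.1⟩⟩⟩, ⟨⟨⟨H _ t10485.2.2.2.1, H _ t10485.2.2.2.2.1⟩, ⟨H _ t10485.2.2.2.2.2.1, H _ t10485.2.2.2.2.2.2.1⟩⟩, ⟨⟨H _ t10485.2.2.2.2.2.2.2, H _ t10493.1⟩, ⟨H _ t10493.2.1, ⟨H _ t10493.2.2.1, H _ t10493.2.2.2.1⟩⟩⟩⟩⟩, ⟨⟨⟨⟨H _ t10493.2.2.2.2.1, H _ t10493.2.2.2.2.2.1⟩, ⟨H _ t10493.2.2.2.2.2.2.1,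 H _ t10493.2.2.2.2.2.2.2⟩⟩, ⟨⟨H _ t10501.1, H _ t10501.2.1⟩, ⟨H _ t10501.2.2.1, ⟨H _ t10501.2.2.2.1, H _ t10501.2.2.2.2.1⟩⟩⟩⟩, ⟨⟨⟨H _ t10501.2.2.2.2.2.1, H _ t10501.2.2.2.2.2.2.1⟩, ⟨H _ t10501.2.2.2.2.2.2.2, H _ t10509.1⟩⟩, ⟨⟨H _ t10509.2.1, H _ t10509.2.2.1⟩, ⟨H _ t10509.2.2.2.1, ⟨H _ t10509.2.2.2.2.1, H _ t10509.2.2.2.2.2.1⟩⟩⟩⟩⟩⟩, ⟨⟨⟨⟨⟨H _ t10509.2.2.2.2.2.2.1, H _ t10509.2.2.2.2.2.2.2⟩, ⟨H _ t10517.1, H _ t10517.2.1⟩⟩, ⟨⟨H _ t10517.2.2.1, H _ t10517.2.2.2.1⟩, ⟨H _ t10517.2.2.2.2.1, H _ t10517.2.2.2.2.2.1⟩⟩⟩, ⟨⟨⟨H _ t10517.2.2.2.2.2.2.1, H _ t10517.2.2.2.2.2.2.2⟩, ⟨H _ t10525.1, H _ t10525.2.1⟩⟩, ⟨⟨H _ t10525.2.2.1, H _ t10525.2.2.2.1⟩, ⟨H _ t10525.2.2.2.2.1, ⟨H _ t10525.2.2.2.2.2.1, H _ t10525.2.2.2.2.2.2.1⟩⟩⟩⟩⟩, ⟨⟨⟨⟨H _ t10525.2.2.2.2.2.2.2, H _ t10533.1⟩, ⟨H _ t10533.2.1, H _ t10533.2.2.1⟩⟩, ⟨⟨H _ t10533.2.2.2.1, H _ t10533.2.2.2.2.1⟩, ⟨H _ t10533.2.2.2.2.2.1, ⟨H _ t10533.2.2.2.2.2.2.1,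 H _ t10533.2.2.2.2.2.2.2⟩⟩⟩⟩, ⟨⟨⟨H _ t10541.1, H _ t10541.2.1⟩, ⟨H _ t10541.2.2.1, H _ t10541.2.2.2.1⟩⟩, ⟨⟨H _ t10541.2.2.2.2.1, H _ t10541.2.2.2.2.2.1⟩, ⟨H _ t10541.2.2.2.2.2.2.1, ⟨H _ t10541.2.2.2.2.2.2.2, H _ t10549.1⟩⟩⟩⟩⟩⟩⟩, ⟨⟨⟨⟨⟨⟨H _ t10549.2.1, H _ t10549.2.2.1⟩, ⟨H _ t10549.2.2.2.1, H _ t10549.2.2.2.2.1⟩⟩, ⟨⟨H _ t10549.2.2.2.2.2.1, H _ t10549.2.2.2.2.2.2.1⟩, ⟨H _ t10549.2.2.2.2.2.2.2, H _ t10557.1⟩⟩⟩, ⟨⟨⟨H _ t10557.2.1, H _ t10557.2.2.1⟩, ⟨H _ t10557.2.2.2.1, H _ t10557.2.2.2.2.1⟩⟩, ⟨⟨H _ t10557.2.2.2.2.2.1, H _ t10557.2.2.2.2.2.2.1⟩, ⟨H _ t10557.2.2.2.2.2.2.2, ⟨H _ t10565.1, H _ t10565.2.1⟩⟩⟩⟩⟩, ⟨⟨⟨⟨H _ t10565.2.2.1, H _ t10565.2.2.2.1⟩, ⟨H _ t10565.2.2.2.2.1, H _ t10565.2.2.2.2.2.1⟩⟩, ⟨⟨H _ t10565.2.2.2.2.2.2.1, H _ t10565.2.2.2.2.2.2.2⟩, ⟨H _ t10573.1, ⟨H _ t10573.2.1, H _ t10573.2.2.1⟩⟩⟩⟩, ⟨⟨⟨H _ t10573.2.2.2.1, H _ t10573.2.2.2.2.1⟩, ⟨H _ t10573.2.2.2.2.2.1, H _ t10573.2.2.2.2.2.2.1⟩⟩,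 ⟨⟨H _ t10573.2.2.2.2.2.2.2, H _ t10581.1⟩, ⟨H _ t10581.2.1, ⟨H _ t10581.2.2.1, H _ t10581.2.2.2.1⟩⟩⟩⟩⟩⟩, ⟨⟨⟨⟨⟨H _ t10581.2.2.2.2.1, H _ t10581.2.2.2.2.2.1⟩, ⟨H _ t10581.2.2.2.2.2.2.1, H _ t10581.2.2.2.2.2.2.2⟩⟩, ⟨⟨H _ t10589.1, H _ t10589.2.1⟩, ⟨H _ t10589.2.2.1, H _ t10589.2.2.2.1⟩⟩⟩, ⟨⟨⟨H _ t10589.2.2.2.2.1, H _ t10589.2.2.2.2.2.1⟩, ⟨H _ t10589.2.2.2.2.2.2.1, H _ t10589.2.2.2.2.2.2.2⟩⟩, ⟨⟨H _ t10597.1, H _ t10597.2.1⟩, ⟨H _ t10597.2.2.1, ⟨H _ t10597.2.2.2.1, H _ t10597.2.2.2.2.1⟩⟩⟩⟩⟩, ⟨⟨⟨⟨H _ t10597.2.2.2.2.2.1, H _ t10597.2.2.2.2.2.2.1⟩, ⟨H _ t10597.2.2.2.2.2.2.2, H _ t10605.1⟩⟩, ⟨⟨H _ t10605.2.1, H _ t10605.2.2.1⟩, ⟨H _ t10605.2.2.2.1, ⟨H _ t10605.2.2.2.2.1, H _ t10605.2.2.2.2.2.1⟩⟩⟩⟩, ⟨⟨⟨H _ t10605.2.2.2.2.2.2.1, H _ t10605.2.2.2.2.2.2.2⟩, ⟨H _ t10613.1, H _ t10613.2.1⟩⟩, ⟨⟨H _ t10613.2.2.1, H _ t10613.2.2.2.1⟩, ⟨H _ t10613.2.2.2.2.1, ⟨H _ t10613.2.2.2.2.2.1, H _ t10613.2.2.2.2.2.2⟩⟩⟩⟩⟩⟩⟩⟩⟩⟩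

end Pool.Agent.MP_c853c5_nt.X.C4950
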