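import Pool.Agent.MP_c853c5_nt.X.C4950.Env
import Pool.Agent.MP_c853c5_nt.X.C4950.D3

set_option autoImplicit false
set_option maxRecDepth 8192
set_option linter.all false

namespace Pool.Agent.MP_c853c5_nt.X.C4950

open Pool.Agent.MP_c853c5_nt.X

def t10620 : allY (E.wth (lkp [])) l10620 = true ∧
    allY (E.wth (lkp [])) l10621 = true ∧
    allY (E.wth (lkp [])) l10622 = true ∧
    allY (E.wth (lkp [])) l10623 = true ∧
    allY (E.wth (lkp [])) l10624 = true ∧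
    allY (E.wth (lkp [])) l10625 = true ∧
    allY (E.wth (lkp [])) l10626 = true ∧
    allY (E.wth (lkp [])) l10627 = true :=
  ⟨by decide +kernel, by decide +kernel, by decide +kernel, by decide +kernel, by decide +kernel, by decide +kernel, by decide +kernel, by decide +kernel⟩

def t10628 : allY (E.wth (lkp [])) l10628 = true ∧
    allY (E.wth (lkp [])) l10629 = true ∧
    allY (E.wth (lkp [])) l10630 = true ∧
    allY (E.wth (lkp [])) l10631 = true ∧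
    allY (E.wth (lkp [])) l10632 = true ∧
    allY (E.wth (lkp [])) l10633 = true ∧
    allY (E.wth (lkp [])) l10634 = true ∧
    allY (E.wth (lkp [])) l10635 = true :=
  ⟨by decide +kernel, by decide +kernel, by decide +kernel, by decide +kernel, by decide +kernel, by decide +kernel, by decide +kernel, by decide +kernel⟩

def t10636 : allY (E.wth (lkp [])) l10636 = true ∧
    allY (E.wth (lkp [])) l10637 = true ∧
    allY (E.wth (lkp [])) l10638 = true ∧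
    allY (E.wth (lkp [])) l10639 = true ∧
    allY (E.wth (lkp [])) l10640 = true ∧
    allY (E.wth (lkp [])) l10641 = true ∧
    allY (E.wth (lkp [])) l10642 = true ∧
    allY (E.wth (lkp [])) l10643 = true :=
  ⟨by decide +kernel, by decide +kernel, by decide +kernel, by decide +kernel, by decide +kernel, by decide +kernel, by decide +kernel, by decide +kernel⟩

def t10644 : allY (E.wth (lkp [])) l10644 = true ∧
    allY (E.wth (lkp [])) l10645 = true ∧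
    allY (E.wth (lkp [])) l10646 = true ∧
    allY (E.wth (lkp [])) l10647 = true ∧
    allY (E.wth (lkp [])) l10648 = true ∧
    allY (E.wth (lkp [])) l10649 = true ∧
    allY (E.wth (lkp [])) l10650 = true ∧
    allY (E.wth (lkp [])) l10651 = true :=
  ⟨by decide +kernel, by decide +kernel, by decide +kernel, by decide +kernel, by decide +kernel, by decide +kernel, by decide +kernel, by decide +kernel⟩

def t10652 : allY (E.wth (lkp [])) l10652 = true ∧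
    allY (E.wth (lkp [])) l10653 = true ∧
    allY (E.wth (lkp [])) l10654 = true ∧
    allY (E.wth (lkp [])) l10655 = true ∧
    allY (E.wth (lkp [])) l10656 = true ∧
    allY (E.wth (lkp [])) l10657 = true ∧
    allY (E.wth (lkp [])) l10658 = true ∧
    allY (E.wth (lkp [])) l10659 = true :=
  ⟨by decide +kernel, by decide +kernel, by decide +kernel, by decide +kernel, by decide +kernel, by decide +kernel, by decide +kernel, by decide +kernel⟩

def t10660 : allY (E.wth (lkp [])) l10660 = true ∧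
    allY (E.wth (lkp [])) l10661 = true ∧
    allY (E.wth (lkp [])) l10662 = true ∧
    allY (E.wth (lkp [])) l10663 = true ∧
    allY (E.wth (lkp [])) l10664 = true ∧
    allY (E.wth (lkp [])) l10665 = true ∧
    allY (E.wth (lkp [])) l10666 = true ∧
    allY (E.wth (lkp [])) l10667 = true :=
  ⟨by decide +kernel, by decide +kernel, by decide +kernel, by decide +kernel, by decide +kernel, by decide +kernel, by decide +kernel, by decide +kernel⟩

def t10668 : allY (E.wth (lkp [])) l10668 = true ∧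
    allY (E.wth (lkp [])) l10669 = true ∧
    allY (E.wth (lkp [])) l10670 = true ∧
    allY (E.wth (lkp [])) l10671 = true ∧
    allY (E.wth (lkp [])) l10672 = true ∧
    allY (E.wth (lkp [])) l10673 = true ∧
    allY (E.wth (lkp [])) l10674 = true ∧
    allY (E.wth (lkp [])) l10675 = true :=
  ⟨by decide +kernel, by decide +kernel, by decide +kernel, by decide +kernel, by decide +kernel, by decide +kernel, by decide +kernel, by decide +kernel⟩

def t10676 : allY (E.wth (lkp [])) l10676 = true ∧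
    allY (E.wth (lkp [])) l10677 = true ∧
    allY (E.wth (lkp [])) l10678 = true ∧
    allY (E.wth (lkp [])) l10679 = true ∧
    allY (E.wth (lkp [])) l10680 = true ∧
    allY (E.wth (lkp [])) l10681 = true ∧
    allY (E.wth (lkp [])) l10682 = true ∧
    allY (E.wth (lkp [])) l10683 = true :=
  ⟨by decide +kernel, by decide +kernel, by decide +kernel, by decide +kernel, by decide +kernel, by decide +kernel, by decide +kernel, by decide +kernel⟩

def t10684 : allY (E.wth (lkp [])) l10684 = true ∧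
    allY (E.wth (lkp [])) l10685 = true ∧
    allY (E.wth (lkp [])) l10686 = true ∧
    allY (E.wth (lkp [])) l10687 = true ∧
    allY (E.wth (lkp [])) l10688 = true ∧
    allY (E.wth (lkp [])) l10689 = true ∧
    allY (E.wth (lkp [])) l10690 = true ∧
    allY (E.wth (lkp [])) l10691 = true :=
  ⟨by decide +kernel, by decide +kernel, by decide +kernel, by decide +kernel, by decide +kernel, by decide +kernel, by decide +kernel, by decide +kernel⟩

def t10692 : allY (E.wth (lkp [])) l10692 = true ∧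
    allY (E.wth (lkp [])) l10693 = true ∧
    allY (E.wth (lkp [])) l10694 = true ∧
    allY (E.wth (lkp [])) l10695 = true ∧
    allY (E.wth (lkp [])) l10696 = true ∧
    allY (E.wth (lkp [])) l10697 = true ∧
    allY (E.wth (lkp [])) l10698 = true ∧
    allY (E.wth (lkp [])) l10699 = true :=
  ⟨by decide +kernel, by decide +kernel, by decide +kernel, by decide +kernel, by decide +kernel, by decide +kernel, by decide +kernel, by decide +kernel⟩

def t10700 : allY (E.wth (lkp [])) l10700 = true ∧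
    allY (E.wth (lkp [])) l10701 = true ∧
    allY (E.wth (lkp [])) l10702 = true ∧
    allY (E.wth (lkp [])) l10703 = true ∧
    allY (E.wth (lkp [])) l10704 = true ∧
    allY (E.wth (lkp [])) l10705 = true ∧
    allY (E.wth (lkp [])) l10706 = true ∧
    allY (E.wth (lkp [])) l10707 = true :=
  ⟨by decide +kernel, by decide +kernel, by decide +kernel, by decide +kernel, by decide +kernel, by decide +kernel, by decide +kernel, by decide +kernel⟩

def t10708 : allY (E.wth (lkp [])) l10708 = true ∧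
    allY (E.wth (lkp [])) l10709 = true ∧
    allY (E.wth (lkp [])) l10710 = true ∧
    allY (E.wth (lkp [])) l10711 = true ∧
    allY (E.wth (lkp [])) l10712 = true ∧
    allY (E.wth (lkp [])) l10713 = true ∧
    allY (E.wth (lkp [])) l10714 = true ∧
    allY (E.wth (lkp [])) l10715 = true :=
  ⟨by decide +kernel, by decide +kernel, by decide +kernel, by decide +kernel, by decide +kernel, by decide +kernel, by decide +kernel, by decide +kernel⟩

def t10716 : allY (E.wth (lkp [])) l10716 = true ∧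
    allY (E.wth (lkp [])) l10717 = true ∧
    allY (E.wth (lkp [])) l10718 = true ∧
    allY (E.wth (lkp [])) l10719 = true ∧
    allY (E.wth (lkp [])) l10720 = true ∧
    allY (E.wth (lkp [])) l10721 = true ∧
    allY (E.wth (lkp [])) l10722 = true ∧
    allY (E.wth (lkp [])) l10723 = true :=
  ⟨by decide +kernel, by decide +kernel, by decide +kernel, by decide +kernel, by decide +kernel, by decide +kernel, by decide +kernel, by decide +kernel⟩

def t10724 : allY (E.wth (lkp [])) l10724 = true ∧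
    allY (E.wth (lkp [])) l10725 = true ∧
    allY (E.wth (lkp [])) l10726 = true ∧
    allY (E.wth (lkp [])) l10727 = true ∧
    allY (E.wth (lkp [])) l10728 = true ∧
    allY (E.wth (lkp [])) l10729 = true ∧
    allY (E.wth (lkp [])) l10730 = true ∧
    allY (E.wth (lkp [])) l10731 = true :=
  ⟨by decide +kernel, by decide +kernel, by decide +kernel, by decide +kernel, by decide +kernel, by decide +kernel, by decide +kernel, by decide +kernel⟩

def t10732 : allY (E.wth (lkp [])) l10732 = true ∧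
    allY (E.wth (lkp [])) l10733 = true ∧
    allY (E.wth (lkp [])) l10734 = true ∧
    allY (E.wth (lkp [])) l10735 = true ∧
    allY (E.wth (lkp [])) l10736 = true ∧
    allY (E.wth (lkp [])) l10737 = true ∧
    allY (E.wth (lkp [])) l10738 = true ∧
    allY (E.wth (lkp [])) l10739 = true :=
  ⟨by decide +kernel, by decide +kernel, by decide +kernel, by decide +kernel, by decide +kernel, by decide +kernel, by decide +kernel, by decide +kernel⟩

def t10740 : allY (E.wth (lkp [])) l10740 = true ∧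
    allY (E.wth (lkp [])) l10741 = true ∧
    allY (E.wth (lkp [])) l10742 = true ∧
    allY (E.wth (lkp [])) l10743 = true ∧
    allY (E.wth (lkp [])) l10744 = true ∧
    allY (E.wth (lkp [])) l10745 = true ∧
    allY (E.wth (lkp [])) l10746 = true ∧
    allY (E.wth (lkp [])) l10747 = true :=
  ⟨by decide +kernel, by decide +kernel, by decide +kernel, by decide +kernel, by decide +kernel, by decide +kernel, by decide +kernel, by decide +kernel⟩

def t10748 : allY (E.wth (lkp [])) l10748 = true ∧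
    allY (E.wth (lkp [])) l10749 = true ∧
    allY (E.wth (lkp [])) l10750 = true ∧
    allY (E.wth (lkp [])) l10751 = true ∧
    allY (E.wth (lkp [])) l10752 = true ∧
    allY (E.wth (lkp [])) l10753 = true ∧
    allY (E.wth (lkp [])) l10754 = true ∧
    allY (E.wth (lkp [])) l10755 = true :=
  ⟨by decide +kernel, by decide +kernel, by decide +kernel, by decide +kernel, by decide +kernel, by decide +kernel, by decide +kernel, by decide +kernel⟩

def t10756 : allY (E.wth (lkp [])) l10756 = true ∧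
    allY (E.wth (lkp [])) l10757 = true ∧
    allY (E.wth (lkp [])) l10758 = true ∧
    allY (E.wth (lkp [])) l10759 = true ∧
    allY (E.wth (lkp [])) l10760 = true ∧
    allY (E.wth (lkp [])) l10761 = true ∧
    allY (E.wth (lkp [])) l10762 = true ∧
    allY (E.wth (lkp [])) l10763 = true :=
  ⟨by decide +kernel, by decide +kernel, by decide +kernel, by decide +kernel, by decide +kernel, by decide +kernel, by decide +kernel, by decide +kernel⟩

def t10764 : allY (E.wth (lkp [])) l10764 = true ∧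
    allY (E.wth (lkp [])) l10765 = true ∧
    allY (E.wth (lkp [])) l10766 = true ∧
    allY (E.wth (lkp [])) l10767 = true ∧
    allY (E.wth (lkp [])) l10768 = true ∧
    allY (E.wth (lkp [])) l10769 = true ∧
    allY (E.wth (lkp [])) l10770 = true ∧
    allY (E.wth (lkp [])) l10771 = true :=
  ⟨by decide +kernel, by decide +kernel, by decide +kernel, by decide +kernel, by decide +kernel, by decide +kernel, by decide +kernel, by decide +kernel⟩

def t10772 : allY (E.wth (lkp [])) l10772 = true ∧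
    allY (E.wth (lkp [])) l10773 = true ∧
    allY (E.wth (lkp [])) l10774 = true ∧
    allY (E.wth (lkp [])) l10775 = true ∧
    allY (E.wth (lkp [])) l10776 = true ∧
    allY (E.wth (lkp [])) l10777 = true ∧
    allY (E.wth (lkp [])) l10778 = true ∧
    allY (E.wth (lkp [])) l10779 = true :=
  ⟨by decide +kernel, by decide +kernel, by decide +kernel, by decide +kernel, by decide +kernel, by decide +kernel, by decide +kernel, by decide +kernel⟩

def t10780 : allY (E.wth (lkp [])) l10780 = true ∧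
    allY (E.wth (lkp [])) l10781 = true ∧
    allY (E.wth (lkp [])) l10782 = true ∧
    allY (E.wth (lkp [])) l10783 = true ∧
    allY (E.wth (lkp [])) l10784 = true ∧
    allY (E.wth (lkp [])) l10785 = true ∧
    allY (E.wth (lkp [])) l10786 = true ∧
    allY (E.wth (lkp [])) l10787 = true :=
  ⟨by decide +kernel, by decide +kernel, by decide +kernel, by decide +kernel, by decide +kernel, by decide +kernel, by decide +kernel, by decide +kernel⟩

def t10788 : allY (E.wth (lkp [])) l10788 = true ∧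
    allY (E.wth (lkp [])) l10789 = true ∧
    allY (E.wth (lkp [])) l10790 = true ∧
    allY (E.wth (lkp [])) l10791 = true ∧
    allY (E.wth (lkp [])) l10792 = true ∧
    allY (E.wth (lkp [])) l10793 = true ∧
    allY (E.wth (lkp [])) l10794 = true ∧
    allY (E.wth (lkp [])) l10795 = true :=
  ⟨by decide +kernel, by decide +kernel, by decide +kernel, by decide +kernel, by decide +kernel, by decide +kernel, by decide +kernel, by decide +kernel⟩

def t10796 : allY (E.wth (lkp [])) l10796 = true ∧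
    allY (E.wth (lkp [])) l10797 = true ∧
    allY (E.wth (lkp [])) l10798 = true ∧
    allY (E.wth (lkp [])) l10799 = true ∧
    allY (E.wth (lkp [])) l10800 = true ∧
    allY (E.wth (lkp [])) l10801 = true ∧
    allY (E.wth (lkp [])) l10802 = true ∧
    allY (E.wth (lkp [])) l10803 = true :=
  ⟨by decide +kernel, by decide +kernel, by decide +kernel, by decide +kernel, by decide +kernel, by decide +kernel, by decide +kernel, by decide +kernel⟩

def t10804 : allY (E.wth (lkp [])) l10804 = true ∧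
    allY (E.wth (lkp [])) l10805 = true ∧
    allY (E.wth (lkp [])) l10806 = true ∧
    allY (E.wth (lkp [])) l10807 = true ∧
    allY (E.wth (lkp [])) l10808 = true ∧
    allY (E.wth (lkp [])) l10809 = true ∧
    allY (E.wth (lkp [])) l10810 = true ∧
    allY (E.wth (lkp [])) l10811 = true :=
  ⟨by decide +kernel, by decide +kernel, by decide +kernel, by decide +kernel, by decide +kernel, by decide +kernel, by decide +kernel, by decide +kernel⟩

def t10812 : allY (E.wth (lkp [])) l10812 = true ∧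
    allY (E.wth (lkp [])) l10813 = true ∧
    allY (E.wth (lkp [])) l10814 = true ∧
    allY (E.wth (lkp [])) l10815 = true ∧
    allY (E.wth (lkp [])) l10816 = true ∧
    allY (E.wth (lkp [])) l10817 = true ∧
    allY (E.wth (lkp [])) l10818 = true ∧
    allY (E.wth (lkp [])) l10819 = true :=
  ⟨by decide +kernel, by decide +kernel, by decide +kernel, by decide +kernel, by decide +kernel, by decide +kernel, by decide +kernel, by decide +kernel⟩

def t10820 : allY (E.wth (lkp [])) l10820 = true ∧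
    allY (E.wth (lkp [])) l10821 = true ∧
    allY (E.wth (lkp [])) l10822 = true ∧
    allY (E.wth (lkp [])) l10823 = true ∧
    allY (E.wth (lkp [])) l10824 = true ∧
    allY (E.wth (lkp [])) l10825 = true ∧
    allY (E.wth (lkp [])) l10826 = true ∧
    allY (E.wth (lkp [])) l10827 = true :=
  ⟨by decide +kernel, by decide +kernel, by decide +kernel, by decide +kernel, by decide +kernel, by decide +kernel, by decide +kernel, by decide +kernel⟩

def t10828 : allY (E.wth (lkp [])) l10828 = true ∧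
    allY (E.wth (lkp [])) l10829 = true ∧
    allY (E.wth (lkp [])) l10830 = true ∧
    allY (E.wth (lkp [])) l10831 = true ∧
    allY (E.wth (lkp [])) l10832 = true ∧
    allY (E.wth (lkp [])) l10833 = true ∧
    allY (E.wth (lkp [])) l10834 = true ∧
    allY (E.wth (lkp [])) l10835 = true :=
  ⟨by decide +kernel, by decide +kernel, by decide +kernel, by decide +kernel, by decide +kernel, by decide +kernel, by decide +kernel, by decide +kernel⟩

def t10836 : allY (E.wth (lkp [])) l10836 = true ∧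
    allY (E.wth (lkp [])) l10837 = true ∧
    allY (E.wth (lkp [])) l10838 = true ∧
    allY (E.wth (lkp [])) l10839 = true ∧
    allY (E.wth (lkp [])) l10840 = true ∧
    allY (E.wth (lkp [])) l10841 = true ∧
    allY (E.wth (lkp [])) l10842 = true ∧
    allY (E.wth (lkp [])) l10843 = true :=
  ⟨by decide +kernel, by decide +kernel, by decide +kernel, by decide +kernel, by decide +kernel, by decide +kernel, by decide +kernel, by decide +kernel⟩

def t10844 : allY (E.wth (lkp [])) l10844 = true ∧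
    allY (E.wth (lkp [])) l10845 = true ∧
    allY (E.wth (lkp [])) l10846 = true ∧
    allY (E.wth (lkp [])) l10847 = true ∧
    allY (E.wth (lkp [])) l10848 = true ∧
    allY (E.wth (lkp [])) l10849 = true ∧
    allY (E.wth (lkp [])) l10850 = true ∧
    allY (E.wth (lkp [])) l10851 = true :=
  ⟨by decide +kernel, by decide +kernel, by decide +kernel, by decide +kernel, by decide +kernel, by decide +kernel, by decide +kernel, by decide +kernel⟩

def t10852 : allY (E.wth (lkp [])) l10852 = true ∧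
    allY (E.wth (lkp [])) l10853 = true ∧
    allY (E.wth (lkp [])) l10854 = true ∧
    allY (E.wth (lkp [])) l10855 = true ∧
    allY (E.wth (lkp [])) l10856 = true ∧
    allY (E.wth (lkp [])) l10857 = true ∧
    allY (E.wth (lkp [])) l10858 = true ∧
    allY (E.wth (lkp [])) l10859 = true :=
  ⟨by decide +kernel, by decide +kernel, by decide +kernel, by decide +kernel, by decide +kernel, by decide +kernel, by decide +kernel, by decide +kernel⟩

def t10860 : allY (E.wth (lkp [])) l10860 = true ∧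
    allY (E.wth (lkp [])) l10861 = true ∧
    allY (E.wth (lkp [])) l10862 = true ∧
    allY (E.wth (lkp [])) l10863 = true ∧
    allY (E.wth (lkp [])) l10864 = true ∧
    allY (E.wth (lkp [])) l10865 = true ∧
    allY (E.wth (lkp [])) l10866 = true ∧
    allY (E.wth (lkp [])) l10867 = true :=
  ⟨by decide +kernel, by decide +kernel, by decide +kernel, by decide +kernel, by decide +kernel, by decide +kernel, by decide +kernel, by decide +kernel⟩

def t10868 : allY (E.wth (lkp [])) l10868 = true ∧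
    allY (E.wth (lkp [])) l10869 = true ∧
    allY (E.wth (lkp [])) l10870 = true ∧
    allY (E.wth (lkp [])) l10871 = true ∧
    allY (E.wth (lkp [])) l10872 = true ∧
    allY (E.wth (lkp [])) l10873 = true ∧
    allY (E.wth (lkp [])) l10874 = true ∧
    allY (E.wth (lkp [])) l10875 = true :=
  ⟨by decide +kernel, by decide +kernel, by decide +kernel, by decide +kernel, by decide +kernel, by decide +kernel, by decide +kernel, by decide +kernel⟩

def t10876 : allY (E.wth (lkp [])) l10876 = true ∧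
    allY (E.wth (lkp [])) l10877 = true ∧
    allY (E.wth (lkp [])) l10878 = true ∧
    allY (E.wth (lkp [])) l10879 = true ∧
    allY (E.wth (lkp [])) l10880 = true ∧
    allY (E.wth (lkp [])) l10881 = true ∧
    allY (E.wth (lkp [])) l10882 = true ∧
    allY (E.wth (lkp [])) l10883 = true :=
  ⟨by decide +kernel, by decide +kernel, by decide +kernel, by decide +kernel, by decide +kernel, by decide +kernel, by decide +kernel, by decide +kernel⟩

def t10884 : allY (E.wth (lkp [])) l10884 = true ∧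
    allY (E.wth (lkp [])) l10885 = true ∧
    allY (E.wth (lkp [])) l10886 = true ∧
    allY (E.wth (lkp [])) l10887 = true ∧
    allY (E.wth (lkp [])) l10888 = true ∧
    allY (E.wth (lkp [])) l10889 = true ∧
    allY (E.wth (lkp [])) l10890 = true ∧
    allY (E.wth (lkp [])) l10891 = true :=
  ⟨by decide +kernel, by decide +kernel, by decide +kernel, by decide +kernel, by decide +kernel, by decide +kernel, by decide +kernel, by decide +kernel⟩

def t10892 : allY (E.wth (lkp [])) l10892 = true ∧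
    allY (E.wth (lkp [])) l10893 = true ∧
    allY (E.wth (lkp [])) l10894 = true ∧
    allY (E.wth (lkp [])) l10895 = true ∧
    allY (E.wth (lkp [])) l10896 = true ∧
    allY (E.wth (lkp [])) l10897 = true ∧
    allY (E.wth (lkp [])) l10898 = true ∧
    allY (E.wth (lkp [])) l10899 = true :=
  ⟨by decide +kernel, by decide +kernel, by decide +kernel, by decide +kernel, by decide +kernel, by decide +kernel, by decide +kernel, by decide +kernel⟩

def t10900 : allY (E.wth (lkp [])) l10900 = true ∧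
    allY (E.wth (lkp [])) l10901 = true ∧
    allY (E.wth (lkp [])) l10902 = true ∧
    allY (E.wth (lkp [])) l10903 = true ∧
    allY (E.wth (lkp [])) l10904 = true ∧
    allY (E.wth (lkp [])) l10905 = true ∧
    allY (E.wth (lkp [])) l10906 = true ∧
    allY (E.wth (lkp [])) l10907 = true :=
  ⟨by decide +kernel, by decide +kernel, by decide +kernel, by decide +kernel, by decide +kernel, by decide +kernel, by decide +kernel, by decide +kernel⟩

def t10908 : allY (E.wth (lkp [])) l10908 = true ∧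
    allY (E.wth (lkp [])) l10909 = true ∧
    allY (E.wth (lkp [])) l10910 = true ∧
    allY (E.wth (lkp [])) l10911 = true ∧
    allY (E.wth (lkp [])) l10912 = true ∧
    allY (E.wth (lkp [])) l10913 = true ∧
    allY (E.wth (lkp [])) l10914 = true ∧
    allY (E.wth (lkp [])) l10915 = true :=
  ⟨by decide +kernel, by decide +kernel, by decide +kernel, by decide +kernel, by decide +kernel, by decide +kernel, by decide +kernel, by decide +kernel⟩

def t10916 : allY (E.wth (lkp [])) l10916 = true ∧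
    allY (E.wth (lkp [])) l10917 = true ∧
    allY (E.wth (lkp [])) l10918 = true ∧
    allY (E.wth (lkp [])) l10919 = true ∧
    allY (E.wth (lkp [])) l10920 = true ∧
    allY (E.wth (lkp [])) l10921 = true ∧
    allY (E.wth (lkp [])) l10922 = true ∧
    allY (E.wth (lkp [])) l10923 = true :=
  ⟨by decide +kernel, by decide +kernel, by decide +kernel, by decide +kernel, by decide +kernel, by decide +kernel, by decide +kernel, by decide +kernel⟩

def t10924 : allY (E.wth (lkp [])) l10924 = true ∧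
    allY (E.wth (lkp [])) l10925 = true ∧
    allY (E.wth (lkp [])) l10926 = true ∧
    allY (E.wth (lkp [])) l10927 = true ∧
    allY (E.wth (lkp [])) l10928 = true ∧
    allY (E.wth (lkp [])) l10929 = true ∧
    allY (E.wth (lkp [])) l10930 = true ∧
    allY (E.wth (lkp [])) l10931 = true :=
  ⟨by decide +kernel, by decide +kernel, by decide +kernel, by decide +kernel, by decide +kernel, by decide +kernel, by decide +kernel, by decide +kernel⟩

def t10932 : allY (E.wth (lkp [])) l10932 = true ∧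
    allY (E.wth (lkp [])) l10933 = true ∧
    allY (E.wth (lkp [])) l10934 = true ∧
    allY (E.wth (lkp [])) l10935 = true ∧
    allY (E.wth (lkp [])) l10936 = true ∧
    allY (E.wth (lkp [])) l10937 = true ∧
    allY (E.wth (lkp [])) l10938 = true ∧
    allY (E.wth (lkp [])) l10939 = true :=
  ⟨by decide +kernel, by decide +kernel, by decide +kernel, by decide +kernel, by decide +kernel, by decide +kernel, by decide +kernel, by decide +kernel⟩

def t10940 : allY (E.wth (lkp [])) l10940 = true ∧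
    allY (E.wth (lkp [])) l10941 = true ∧
    allY (E.wth (lkp [])) l10942 = true ∧
    allY (E.wth (lkp [])) l10943 = true ∧
    allY (E.wth (lkp [])) l10944 = true ∧
    allY (E.wth (lkp [])) l10945 = true ∧
    allY (E.wth (lkp [])) l10946 = true ∧
    allY (E.wth (lkp [])) l10947 = true :=
  ⟨by decide +kernel, by decide +kernel, by decide +kernel, by decide +kernel, by decide +kernel, by decide +kernel, by decide +kernel, by decide +kernel⟩

def t10948 : allY (E.wth (lkp [])) l10948 = true ∧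
    allY (E.wth (lkp [])) l10949 = true ∧
    allY (E.wth (lkp [])) l10950 = true ∧
    allY (E.wth (lkp [])) l10951 = true ∧
    allY (E.wth (lkp [])) l10952 = true ∧
    allY (E.wth (lkp [])) l10953 = true ∧
    allY (E.wth (lkp [])) l10954 = true ∧
    allY (E.wth (lkp [])) l10955 = true :=
  ⟨by decide +kernel, by decide +kernel, by decide +kernel, by decide +kernel, by decide +kernel, by decide +kernel, by decide +kernel, by decide +kernel⟩

def t10956 : allY (E.wth (lkp [])) l10956 = true ∧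
    allY (E.wth (lkp [])) l10957 = true ∧
    allY (E.wth (lkp [])) l10958 = true ∧
    allY (E.wth (lkp [])) l10959 = true ∧
    allY (E.wth (lkp [])) l10960 = true ∧
    allY (E.wth (lkp [])) l10961 = true ∧
    allY (E.wth (lkp [])) l10962 = true ∧
    allY (E.wth (lkp [])) l10963 = true :=
  ⟨by decide +kernel, by decide +kernel, by decide +kernel, by decide +kernel, by decide +kernel, by decide +kernel, by decide +kernel, by decide +kernel⟩

def t10964 : allY (E.wth (lkp [])) l10964 = true ∧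
    allY (E.wth (lkp [])) l10965 = true ∧
    allY (E.wth (lkp [])) l10966 = true ∧
    allY (E.wth (lkp [])) l10967 = true ∧
    allY (E.wth (lkp [])) l10968 = true ∧
    allY (E.wth (lkp [])) l10969 = true ∧
    allY (E.wth (lkp [])) l10970 = true ∧
    allY (E.wth (lkp [])) l10971 = true :=
  ⟨by decide +kernel, by decide +kernel, by decide +kernel, by decide +kernel, by decide +kernel, by decide +kernel, by decide +kernel, by decide +kernel⟩

def t10972 : allY (E.wth (lkp [])) l10972 = true ∧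
    allY (E.wth (lkp [])) l10973 = true ∧
    allY (E.wth (lkp [])) l10974 = true ∧
    allY (E.wth (lkp [])) l10975 = true ∧
    allY (E.wth (lkp [])) l10976 = true ∧
    allY (E.wth (lkp [])) l10977 = true ∧
    allY (E.wth (lkp [])) l10978 = true ∧
    allY (E.wth (lkp [])) l10979 = true :=
  ⟨by decide +kernel, by decide +kernel, by decide +kernel, by decide +kernel, by decide +kernel, by decide +kernel, by decide +kernel, by decide +kernel⟩

def t10980 : allY (E.wth (lkp [])) l10980 = true ∧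
    allY (E.wth (lkp [])) l10981 = true ∧
    allY (E.wth (lkp [])) l10982 = true ∧
    allY (E.wth (lkp [])) l10983 = true ∧
    allY (E.wth (lkp [])) l10984 = true ∧
    allY (E.wth (lkp [])) l10985 = true ∧
    allY (E.wth (lkp [])) l10986 = true ∧
    allY (E.wth (lkp [])) l10987 = true :=
  ⟨by decide +kernel, by decide +kernel, by decide +kernel, by decide +kernel, by decide +kernel, by decide +kernel, by decide +kernel, by decide +kernel⟩

def t10988 : allY (E.wth (lkp [])) l10988 = true ∧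
    allY (E.wth (lkp [])) l10989 = true ∧
    allY (E.wth (lkp [])) l10990 = true ∧
    allY (E.wth (lkp [])) l10991 = true ∧
    allY (E.wth (lkp [])) l10992 = true ∧
    allY (E.wth (lkp [])) l10993 = true ∧
    allY (E.wth (lkp [])) l10994 = true ∧
    allY (E.wth (lkp [])) l10995 = true :=
  ⟨by decide +kernel, by decide +kernel, by decide +kernel, by decide +kernel, by decide +kernel, by decide +kernel, by decide +kernel, by decide +kernel⟩

def t10996 : allY (E.wth (lkp [])) l10996 = true ∧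
    allY (E.wth (lkp [])) l10997 = true ∧
    allY (E.wth (lkp [])) l10998 = true ∧
    allY (E.wth (lkp [])) l10999 = true ∧
    allY (E.wth (lkp [])) l11000 = true ∧
    allY (E.wth (lkp [])) l11001 = true ∧
    allY (E.wth (lkp [])) l11002 = true ∧
    allY (E.wth (lkp [])) l11003 = true :=
  ⟨by decide +kernel, by decide +kernel, by decide +kernel, by decide +kernel, by decide +kernel, by decide +kernel, by decide +kernel, by decide +kernel⟩

def t11004 : allY (E.wth (lkp [])) l11004 = true ∧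
    allY (E.wth (lkp [])) l11005 = true ∧
    allY (E.wth (lkp [])) l11006 = true ∧
    allY (E.wth (lkp [])) l11007 = true ∧
    allY (E.wth (lkp [])) l11008 = true ∧
    allY (E.wth (lkp [])) l11009 = true ∧
    allY (E.wth (lkp [])) l11010 = true ∧
    allY (E.wth (lkp [])) l11011 = true :=
  ⟨by decide +kernel, by decide +kernel, by decide +kernel, by decide +kernel, by decide +kernel, by decide +kernel, by decide +kernel, by decide +kernel⟩

def t11012 : allY (E.wth (lkp [])) l11012 = true ∧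
    allY (E.wth (lkp [])) l11013 = true ∧
    allY (E.wth (lkp [])) l11014 = true ∧
    allY (E.wth (lkp [])) l11015 = true ∧
    allY (E.wth (lkp [])) l11016 = true ∧
    allY (E.wth (lkp [])) l11017 = true ∧
    allY (E.wth (lkp [])) l11018 = true ∧
    allY (E.wth (lkp [])) l11019 = true :=
  ⟨by decide +kernel, by decide +kernel, by decide +kernel, by decide +kernel, by decide +kernel, by decide +kernel, by decide +kernel, by decide +kernel⟩

def t11020 : allY (E.wth (lkp [])) l11020 = true ∧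
    allY (E.wth (lkp [])) l11021 = true ∧
    allY (E.wth (lkp [])) l11022 = true ∧
    allY (E.wth (lkp [])) l11023 = true ∧
    allY (E.wth (lkp [])) l11024 = true ∧
    allY (E.wth (lkp [])) l11025 = true ∧
    allY (E.wth (lkp [])) l11026 = true ∧
    allY (E.wth (lkp [])) l11027 = true :=
  ⟨by decide +kernel, by decide +kernel, by decide +kernel, by decide +kernel, by decide +kernel, by decide +kernel, by decide +kernel, by decide +kernel⟩

def t11028 : allY (E.wth (lkp [])) l11028 = true ∧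
    allY (E.wth (lkp [])) l11029 = true ∧
    allY (E.wth (lkp [])) l11030 = true ∧
    allY (E.wth (lkp [])) l11031 = true ∧
    allY (E.wth (lkp [])) l11032 = true ∧
    allY (E.wth (lkp [])) l11033 = true ∧
    allY (E.wth (lkp [])) l11034 = true ∧
    allY (E.wth (lkp [])) l11035 = true :=
  ⟨by decide +kernel, by decide +kernel, by decide +kernel, by decide +kernel, by decide +kernel, by decide +kernel, by decide +kernel, by decide +kernel⟩

def t11036 : allY (E.wth (lkp [])) l11036 = true ∧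
    allY (E.wth (lkp [])) l11037 = true ∧
    allY (E.wth (lkp [])) l11038 = true ∧
    allY (E.wth (lkp [])) l11039 = true ∧
    allY (E.wth (lkp [])) l11040 = true ∧
    allY (E.wth (lkp [])) l11041 = true ∧
    allY (E.wth (lkp [])) l11042 = true ∧
    allY (E.wth (lkp [])) l11043 = true :=
  ⟨by decide +kernel, by decide +kernel, by decide +kernel, by decide +kernel, by decide +kernel, by decide +kernel, by decide +kernel, by decide +kernel⟩

def t11044 : allY (E.wth (lkp [])) l11044 = true ∧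
    allY (E.wth (lkp [])) l11045 = true ∧
    allY (E.wth (lkp [])) l11046 = true ∧
    allY (E.wth (lkp [])) l11047 = true ∧
    allY (E.wth (lkp [])) l11048 = true ∧
    allY (E.wth (lkp [])) l11049 = true ∧
    allY (E.wth (lkp [])) l11050 = true ∧
    allY (E.wth (lkp [])) l11051 = true :=
  ⟨by decide +kernel, by decide +kernel, by decide +kernel, by decide +kernel, by decide +kernel, by decide +kernel, by decide +kernel, by decide +kernel⟩

def t11052 : allY (E.wth (lkp [])) l11052 = true ∧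
    allY (E.wth (lkp [])) l11053 = true ∧
    allY (E.wth (lkp [])) l11054 = true ∧
    allY (E.wth (lkp [])) l11055 = true ∧
    allY (E.wth (lkp [])) l11056 = true ∧
    allY (E.wth (lkp [])) l11057 = true ∧
    allY (E.wth (lkp [])) l11058 = true ∧
    allY (E.wth (lkp [])) l11059 = true :=
  ⟨by decide +kernel, by decide +kernel, by decide +kernel, by decide +kernel, by decide +kernel, by decide +kernel, by decide +kernel, by decide +kernel⟩

def t11060 : allY (E.wth (lkp [])) l11060 = true ∧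
    allY (E.wth (lkp [])) l11061 = true ∧
    allY (E.wth (lkp [])) l11062 = true ∧
    allY (E.wth (lkp [])) l11063 = true ∧
    allY (E.wth (lkp [])) l11064 = true ∧
    allY (E.wth (lkp [])) l11065 = true ∧
    allY (E.wth (lkp [])) l11066 = true ∧
    allY (E.wth (lkp [])) l11067 = true :=
  ⟨by decide +kernel, by decide +kernel, by decide +kernel, by decide +kernel, by decide +kernel, by decide +kernel, by decide +kernel, by decide +kernel⟩

def t11068 : allY (E.wth (lkp [])) l11068 = true ∧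
    allY (E.wth (lkp [])) l11069 = true ∧
    allY (E.wth (lkp [])) l11070 = true ∧
    allY (E.wth (lkp [])) l11071 = true ∧
    allY (E.wth (lkp [])) l11072 = true ∧
    allY (E.wth (lkp [])) l11073 = true ∧
    allY (E.wth (lkp [])) l11074 = true ∧
    allY (E.wth (lkp [])) l11075 = true :=
  ⟨by decide +kernel, by decide +kernel, by decide +kernel, by decide +kernel, by decide +kernel, by decide +kernel, by decide +kernel, by decide +kernel⟩

def t11076 : allY (E.wth (lkp [])) l11076 = true ∧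
    allY (E.wth (lkp [])) l11077 = true ∧
    allY (E.wth (lkp [])) l11078 = true ∧
    allY (E.wth (lkp [])) l11079 = true ∧
    allY (E.wth (lkp [])) l11080 = true ∧
    allY (E.wth (lkp [])) l11081 = true ∧
    allY (E.wth (lkp [])) l11082 = true ∧
    allY (E.wth (lkp [])) l11083 = true :=
  ⟨by decide +kernel, by decide +kernel, by decide +kernel, by decide +kernel, by decide +kernel, by decide +kernel, by decide +kernel, by decide +kernel⟩

def t11084 : allY (E.wth (lkp [])) l11084 = true ∧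
    allY (E.wth (lkp [])) l11085 = true ∧
    allY (E.wth (lkp [])) l11086 = true ∧
    allY (E.wth (lkp [])) l11087 = true ∧
    allY (E.wth (lkp [])) l11088 = true ∧
    allY (E.wth (lkp [])) l11089 = true ∧
    allY (E.wth (lkp [])) l11090 = true ∧
    allY (E.wth (lkp [])) l11091 = true :=
  ⟨by decide +kernel, by decide +kernel, by decide +kernel, by decide +kernel, by decide +kernel, by decide +kernel, by decide +kernel, by decide +kernel⟩

def t11092 : allY (E.wth (lkp [])) l11092 = true ∧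
    allY (E.wth (lkp [])) l11093 = true ∧
    allY (E.wth (lkp [])) l11094 = true ∧
    allY (E.wth (lkp [])) l11095 = true ∧
    allY (E.wth (lkp [])) l11096 = true ∧
    allY (E.wth (lkp [])) l11097 = true ∧
    allY (E.wth (lkp [])) l11098 = true ∧
    allY (E.wth (lkp [])) l11099 = true :=
  ⟨by decide +kernel, by decide +kernel, by decide +kernel, by decide +kernel, by decide +kernel, by decide +kernel, by decide +kernel, by decide +kernel⟩

def t11100 : allY (E.wth (lkp [])) l11100 = true ∧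
    allY (E.wth (lkp [])) l11101 = true ∧
    allY (E.wth (lkp [])) l11102 = true ∧
    allY (E.wth (lkp [])) l11103 = true ∧
    allY (E.wth (lkp [])) l11104 = true ∧
    allY (E.wth (lkp [])) l11105 = true ∧
    allY (E.wth (lkp [])) l11106 = true ∧
    allY (E.wth (lkp [])) l11107 = true :=
  ⟨by decide +kernel, by decide +kernel, by decide +kernel, by decide +kernel, by decide +kernel, by decide +kernel, by decide +kernel, by decide +kernel⟩

def t11108 : allY (E.wth (lkp [])) l11108 = true ∧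
    allY (E.wth (lkp [])) l11109 = true ∧
    allY (E.wth (lkp [])) l11110 = true ∧
    allY (E.wth (lkp [])) l11111 = true ∧
    allY (E.wth (lkp [])) l11112 = true ∧
    allY (E.wth (lkp [])) l11113 = true ∧
    allY (E.wth (lkp [])) l11114 = true ∧
    allY (E.wth (lkp [])) l11115 = true :=
  ⟨by decide +kernel, by decide +kernel, by decide +kernel, by decide +kernel, by decide +kernel, by decide +kernel, by decide +kernel, by decide +kernel⟩

def t11116 : allY (E.wth (lkp [])) l11116 = true ∧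
    allY (E.wth (lkp [])) l11117 = true ∧
    allY (E.wth (lkp [])) l11118 = true ∧
    allY (E.wth (lkp [])) l11119 = true ∧
    allY (E.wth (lkp [])) l11120 = true ∧
    allY (E.wth (lkp [])) l11121 = true ∧
    allY (E.wth (lkp [])) l11122 = true ∧
    allY (E.wth (lkp [])) l11123 = true :=
  ⟨by decide +kernel, by decide +kernel, by decide +kernel, by decide +kernel, by decide +kernel, by decide +kernel, by decide +kernel, by decide +kernel⟩

def t11124 : allY (E.wth (lkp [])) l11124 = true ∧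
    allY (E.wth (lkp [])) l11125 = true ∧
    allY (E.wth (lkp [])) l11126 = true ∧
    allY (E.wth (lkp [])) l11127 = true ∧
    allY (E.wth (lkp [])) l11128 = true ∧
    allY (E.wth (lkp [])) l11129 = true ∧
    allY (E.wth (lkp [])) l11130 = true ∧
    allY (E.wth (lkp [])) l11131 = true :=
  ⟨by decide +kernel, by decide +kernel, by decide +kernel, by decide +kernel, by decide +kernel, by decide +kernel, by decide +kernel, by decide +kernel⟩

def t11132 : allY (E.wth (lkp [])) l11132 = true ∧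
    allY (E.wth (lkp [])) l11133 = true ∧
    allY (E.wth (lkp [])) l11134 = true ∧
    allY (E.wth (lkp [])) l11135 = true ∧
    allY (E.wth (lkp [])) l11136 = true ∧
    allY (E.wth (lkp [])) l11137 = true ∧
    allY (E.wth (lkp [])) l11138 = true ∧
    allY (E.wth (lkp [])) l11139 = true :=
  ⟨by decide +kernel, by decide +kernel, by decide +kernel, by decide +kernel, by decide +kernel, by decide +kernel, by decide +kernel, by decide +kernel⟩

def t11140 : allY (E.wth (lkp [])) l11140 = true ∧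
    allY (E.wth (lkp [])) l11141 = true ∧
    allY (E.wth (lkp [])) l11142 = true ∧
    allY (E.wth (lkp [])) l11143 = true ∧
    allY (E.wth (lkp [])) l11144 = true ∧
    allY (E.wth (lkp [])) l11145 = true ∧
    allY (E.wth (lkp [])) l11146 = true ∧
    allY (E.wth (lkp [])) l11147 = true :=
  ⟨by decide +kernel, by decide +kernel, by decide +kernel, by decide +kernel, by decide +kernel, by decide +kernel, by decide +kernel, by decide +kernel⟩

def t11148 : allY (E.wth (lkp [])) l11148 = true ∧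
    allY (E.wth (lkp [])) l11149 = true ∧
    allY (E.wth (lkp [])) l11150 = true ∧
    allY (E.wth (lkp [])) l11151 = true ∧
    allY (E.wth (lkp [])) l11152 = true ∧
    allY (E.wth (lkp [])) l11153 = true ∧
    allY (E.wth (lkp [])) l11154 = true ∧
    allY (E.wth (lkp [])) l11155 = true :=
  ⟨by decide +kernel, by decide +kernel, by decide +kernel, by decide +kernel, by decide +kernel, by decide +kernel, by decide +kernel, by decide +kernel⟩

def t11156 : allY (E.wth (lkp [])) l11156 = true ∧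
    allY (E.wth (lkp [])) l11157 = true ∧
    allY (E.wth (lkp [])) l11158 = true ∧
    allY (E.wth (lkp [])) l11159 = true ∧
    allY (E.wth (lkp [])) l11160 = true ∧
    allY (E.wth (lkp [])) l11161 = true ∧
    allY (E.wth (lkp [])) l11162 = true ∧
    allY (E.wth (lkp [])) l11163 = true :=
  ⟨by decide +kernel, by decide +kernel, by decide +kernel, by decide +kernel, by decide +kernel, by decide +kernel, by decide +kernel, by decide +kernel⟩

def t11164 : allY (E.wth (lkp [])) l11164 = true ∧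
    allY (E.wth (lkp [])) l11165 = true ∧
    allY (E.wth (lkp [])) l11166 = true ∧
    allY (E.wth (lkp [])) l11167 = true ∧
    allY (E.wth (lkp [])) l11168 = true ∧
    allY (E.wth (lkp [])) l11169 = true ∧
    allY (E.wth (lkp [])) l11170 = true ∧
    allY (E.wth (lkp [])) l11171 = true :=
  ⟨by decide +kernel, by decide +kernel, by decide +kernel, by decide +kernel, by decide +kernel, by decide +kernel, by decide +kernel, by decide +kernel⟩

def t11172 : allY (E.wth (lkp [])) l11172 = true ∧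
    allY (E.wth (lkp [])) l11173 = true ∧
    allY (E.wth (lkp [])) l11174 = true ∧
    allY (E.wth (lkp [])) l11175 = true ∧
    allY (E.wth (lkp [])) l11176 = true ∧
    allY (E.wth (lkp [])) l11177 = true ∧
    allY (E.wth (lkp [])) l11178 = true ∧
    allY (E.wth (lkp [])) l11179 = true :=
  ⟨by decide +kernel, by decide +kernel, by decide +kernel, by decide +kernel, by decide +kernel, by decide +kernel, by decide +kernel, by decide +kernel⟩

def t11180 : allY (E.wth (lkp [])) l11180 = true ∧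
    allY (E.wth (lkp [])) l11181 = true ∧
    allY (E.wth (lkp [])) l11182 = true ∧
    allY (E.wth (lkp [])) l11183 = true ∧
    allY (E.wth (lkp [])) l11184 = true ∧
    allY (E.wth (lkp [])) l11185 = true ∧
    allY (E.wth (lkp [])) l11186 = true ∧
    allY (E.wth (lkp [])) l11187 = true :=
  ⟨by decide +kernel, by decide +kernel, by decide +kernel, by decide +kernel, by decide +kernel, by decide +kernel, by decide +kernel, by decide +kernel⟩

def t11188 : allY (E.wth (lkp [])) l11188 = true ∧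
    allY (E.wth (lkp [])) l11189 = true ∧
    allY (E.wth (lkp [])) l11190 = true :=
  ⟨by decide +kernel, by decide +kernel, by decide +kernel⟩

theorem a19 {p : Rf → Prop} (H : ∀ l, allY (E.wth (lkp [])) l = true → (lkp l).All p) :
    b19.All p := ⟨⟨⟨⟨⟨⟨⟨⟨⟨H _ t10620.1, H _ t10620.2.1⟩, ⟨H _ t10620.2.2.1, H _ t10620.2.2.2.1⟩⟩, ⟨⟨H _ t10620.2.2.2.2.1, H _ t10620.2.2.2.2.2.1⟩, ⟨H _ t10620.2.2.2.2.2.2.1, H _ t10620.2.2.2.2.2.2.2⟩⟩⟩, ⟨⟨⟨H _ t10628.1, H _ t10628.2.1⟩, ⟨H _ t10628.2.2.1, H _ t10628.2.2.2.1⟩⟩, ⟨⟨H _ t10628.2.2.2.2.1, H _ t10628.2.2.2.2.2.1⟩, ⟨H _ t10628.2.2.2.2.2.2.1, ⟨H _ t10628.2.2.2.2.2.2.2, H _ t10636.1⟩⟩⟩⟩⟩, ⟨⟨⟨⟨H _ t10636.2.1, H _ t10636.2.2.1⟩, ⟨H _ t10636.2.2.2.1, H _ t10636.2.2.2.2.1⟩⟩, ⟨⟨H _ t10636.2.2.2.2.2.1, H _ t10636.2.2.2.2.2.2.1⟩, ⟨H _ t10636.2.2.2.2.2.2.2, ⟨H _ t10644.1, H _ t10644.2.1⟩⟩⟩⟩, ⟨⟨⟨H _ t10644.2.2.1, H _ t10644.2.2.2.1⟩, ⟨H _ t10644.2.2.2.2.1, H _ t10644.2.2.2.2.2.1⟩⟩,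 ⟨⟨H _ t10644.2.2.2.2.2.2.1, H _ t10644.2.2.2.2.2.2.2⟩, ⟨H _ t10652.1, ⟨H _ t10652.2.1, H _ t10652.2.2.1⟩⟩⟩⟩⟩⟩, ⟨⟨⟨⟨⟨H _ t10652.2.2.2.1, H _ t10652.2.2.2.2.1⟩, ⟨H _ t10652.2.2.2.2.2.1, H _ t10652.2.2.2.2.2.2.1⟩⟩, ⟨⟨H _ t10652.2.2.2.2.2.2.2, H _ t10660.1⟩, ⟨H _ t10660.2.1, ⟨H _ t10660.2.2.1, H _ t10660.2.2.2.1⟩⟩⟩⟩, ⟨⟨⟨H _ t10660.2.2.2.2.1, H _ t10660.2.2.2.2.2.1⟩, ⟨H _ t10660.2.2.2.2.2.2.1, H _ t10660.2.2.2.2.2.2.2⟩⟩, ⟨⟨H _ t10668.1, H _ t10668.2.1⟩, ⟨H _ t10668.2.2.1, ⟨H _ t10668.2.2.2.1, H _ t10668.2.2.2.2.1⟩⟩⟩⟩⟩, ⟨⟨⟨⟨H _ t10668.2.2.2.2.2.1, H _ t10668.2.2.2.2.2.2.1⟩, ⟨H _ t10668.2.2.2.2.2.2.2, H _ t10676.1⟩⟩, ⟨⟨H _ t10676.2.1, H _ t10676.2.2.1⟩, ⟨H _ t10676.2.2.2.1, ⟨H _ t10676.2.2.2.2.1, H _ t10676.2.2.2.2.2.1⟩⟩⟩⟩, ⟨⟨⟨H _ t10676.2.2.2.2.2.2.1, H _ t10676.2.2.2.2.2.2.2⟩, ⟨H _ t10684.1, H _ t10684.2.1⟩⟩, ⟨⟨H _ t10684.2.2.1, H _ t10684.2.2.2.1⟩, ⟨H _ t10684.2.2.2.2.1, ⟨H _ t10684.2.2.2.2.2.1,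 H _ t10684.2.2.2.2.2.2.1⟩⟩⟩⟩⟩⟩⟩, ⟨⟨⟨⟨⟨⟨H _ t10684.2.2.2.2.2.2.2, H _ t10692.1⟩, ⟨H _ t10692.2.1, H _ t10692.2.2.1⟩⟩, ⟨⟨H _ t10692.2.2.2.1, H _ t10692.2.2.2.2.1⟩, ⟨H _ t10692.2.2.2.2.2.1, H _ t10692.2.2.2.2.2.2.1⟩⟩⟩, ⟨⟨⟨H _ t10692.2.2.2.2.2.2.2, H _ t10700.1⟩, ⟨H _ t10700.2.1, H _ t10700.2.2.1⟩⟩, ⟨⟨H _ t10700.2.2.2.1, H _ t10700.2.2.2.2.1⟩, ⟨H _ t10700.2.2.2.2.2.1, ⟨H _ t10700.2.2.2.2.2.2.1, H _ t10700.2.2.2.2.2.2.2⟩⟩⟩⟩⟩, ⟨⟨⟨⟨H _ t10708.1, H _ t10708.2.1⟩, ⟨H _ t10708.2.2.1, H _ t10708.2.2.2.1⟩⟩, ⟨⟨H _ t10708.2.2.2.2.1, H _ t10708.2.2.2.2.2.1⟩, ⟨H _ t10708.2.2.2.2.2.2.1, ⟨H _ t10708.2.2.2.2.2.2.2, H _ t10716.1⟩⟩⟩⟩, ⟨⟨⟨H _ t10716.2.1, H _ t10716.2.2.1⟩, ⟨H _ t10716.2.2.2.1, H _ t10716.2.2.2.2.1⟩⟩, ⟨⟨H _ t10716.2.2.2.2.2.1, H _ t10716.2.2.2.2.2.2.1⟩, ⟨H _ t10716.2.2.2.2.2.2.2, ⟨H _ t10724.1, H _ t10724.2.1⟩⟩⟩⟩⟩⟩, ⟨⟨⟨⟨⟨H _ t10724.2.2.1, H _ t10724.2.2.2.1⟩, ⟨H _ t10724.2.2.2.2.1, H _ t10724.2.2.2.2.2.1⟩⟩,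 ⟨⟨H _ t10724.2.2.2.2.2.2.1, H _ t10724.2.2.2.2.2.2.2⟩, ⟨H _ t10732.1, ⟨H _ t10732.2.1, H _ t10732.2.2.1⟩⟩⟩⟩, ⟨⟨⟨H _ t10732.2.2.2.1, H _ t10732.2.2.2.2.1⟩, ⟨H _ t10732.2.2.2.2.2.1, H _ t10732.2.2.2.2.2.2.1⟩⟩, ⟨⟨H _ t10732.2.2.2.2.2.2.2, H _ t10740.1⟩, ⟨H _ t10740.2.1, ⟨H _ t10740.2.2.1, H _ t10740.2.2.2.1⟩⟩⟩⟩⟩, ⟨⟨⟨⟨H _ t10740.2.2.2.2.1, H _ t10740.2.2.2.2.2.1⟩, ⟨H _ t10740.2.2.2.2.2.2.1, H _ t10740.2.2.2.2.2.2.2⟩⟩, ⟨⟨H _ t10748.1, H _ t10748.2.1⟩, ⟨H _ t10748.2.2.1, ⟨H _ t10748.2.2.2.1, H _ t10748.2.2.2.2.1⟩⟩⟩⟩, ⟨⟨⟨H _ t10748.2.2.2.2.2.1, H _ t10748.2.2.2.2.2.2.1⟩, ⟨H _ t10748.2.2.2.2.2.2.2, H _ t10756.1⟩⟩, ⟨⟨H _ t10756.2.1, H _ t10756.2.2.1⟩, ⟨H _ t10756.2.2.2.1, ⟨H _ t10756.2.2.2.2.1, H _ t10756.2.2.2.2.2.1⟩⟩⟩⟩⟩⟩⟩⟩, ⟨⟨⟨⟨⟨⟨⟨H _ t10756.2.2.2.2.2.2.1, H _ t10756.2.2.2.2.2.2.2⟩, ⟨H _ t10764.1, H _ t10764.2.1⟩⟩, ⟨⟨H _ t10764.2.2.1, H _ t10764.2.2.2.1⟩, ⟨H _ t10764.2.2.2.2.1, H _ t10764.2.2.2.2.2.1⟩⟩⟩,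 ⟨⟨⟨H _ t10764.2.2.2.2.2.2.1, H _ t10764.2.2.2.2.2.2.2⟩, ⟨H _ t10772.1, H _ t10772.2.1⟩⟩, ⟨⟨H _ t10772.2.2.1, H _ t10772.2.2.2.1⟩, ⟨H _ t10772.2.2.2.2.1, ⟨H _ t10772.2.2.2.2.2.1, H _ t10772.2.2.2.2.2.2.1⟩⟩⟩⟩⟩, ⟨⟨⟨⟨H _ t10772.2.2.2.2.2.2.2, H _ t10780.1⟩, ⟨H _ t10780.2.1, H _ t10780.2.2.1⟩⟩, ⟨⟨H _ t10780.2.2.2.1, H _ t10780.2.2.2.2.1⟩, ⟨H _ t10780.2.2.2.2.2.1, ⟨H _ t10780.2.2.2.2.2.2.1, H _ t10780.2.2.2.2.2.2.2⟩⟩⟩⟩, ⟨⟨⟨H _ t10788.1, H _ t10788.2.1⟩, ⟨H _ t10788.2.2.1, H _ t10788.2.2.2.1⟩⟩, ⟨⟨H _ t10788.2.2.2.2.1, H _ t10788.2.2.2.2.2.1⟩, ⟨H _ t10788.2.2.2.2.2.2.1, ⟨H _ t10788.2.2.2.2.2.2.2, H _ t10796.1⟩⟩⟩⟩⟩⟩, ⟨⟨⟨⟨⟨H _ t10796.2.1, H _ t10796.2.2.1⟩, ⟨H _ t10796.2.2.2.1, H _ t10796.2.2.2.2.1⟩⟩, ⟨⟨H _ t10796.2.2.2.2.2.1, H _ t10796.2.2.2.2.2.2.1⟩, ⟨H _ t10796.2.2.2.2.2.2.2, ⟨H _ t10804.1, H _ t10804.2.1⟩⟩⟩⟩, ⟨⟨⟨H _ t10804.2.2.1, H _ t10804.2.2.2.1⟩, ⟨H _ t10804.2.2.2.2.1, H _ t10804.2.2.2.2.2.1⟩⟩,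 ⟨⟨H _ t10804.2.2.2.2.2.2.1, H _ t10804.2.2.2.2.2.2.2⟩, ⟨H _ t10812.1, ⟨H _ t10812.2.1, H _ t10812.2.2.1⟩⟩⟩⟩⟩, ⟨⟨⟨⟨H _ t10812.2.2.2.1, H _ t10812.2.2.2.2.1⟩, ⟨H _ t10812.2.2.2.2.2.1, H _ t10812.2.2.2.2.2.2.1⟩⟩, ⟨⟨H _ t10812.2.2.2.2.2.2.2, H _ t10820.1⟩, ⟨H _ t10820.2.1, ⟨H _ t10820.2.2.1, H _ t10820.2.2.2.1⟩⟩⟩⟩, ⟨⟨⟨H _ t10820.2.2.2.2.1, H _ t10820.2.2.2.2.2.1⟩, ⟨H _ t10820.2.2.2.2.2.2.1, H _ t10820.2.2.2.2.2.2.2⟩⟩, ⟨⟨H _ t10828.1, H _ t10828.2.1⟩, ⟨H _ t10828.2.2.1, ⟨H _ t10828.2.2.2.1, H _ t10828.2.2.2.2.1⟩⟩⟩⟩⟩⟩⟩, ⟨⟨⟨⟨⟨⟨H _ t10828.2.2.2.2.2.1, H _ t10828.2.2.2.2.2.2.1⟩, ⟨H _ t10828.2.2.2.2.2.2.2, H _ t10836.1⟩⟩, ⟨⟨H _ t10836.2.1, H _ t10836.2.2.1⟩, ⟨H _ t10836.2.2.2.1, ⟨H _ t10836.2.2.2.2.1, H _ t10836.2.2.2.2.2.1⟩⟩⟩⟩, ⟨⟨⟨H _ t10836.2.2.2.2.2.2.1, H _ t10836.2.2.2.2.2.2.2⟩, ⟨H _ t10844.1, H _ t10844.2.1⟩⟩, ⟨⟨H _ t10844.2.2.1, H _ t10844.2.2.2.1⟩, ⟨H _ t10844.2.2.2.2.1, ⟨H _ t10844.2.2.2.2.2.1,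 H _ t10844.2.2.2.2.2.2.1⟩⟩⟩⟩⟩, ⟨⟨⟨⟨H _ t10844.2.2.2.2.2.2.2, H _ t10852.1⟩, ⟨H _ t10852.2.1, H _ t10852.2.2.1⟩⟩, ⟨⟨H _ t10852.2.2.2.1, H _ t10852.2.2.2.2.1⟩, ⟨H _ t10852.2.2.2.2.2.1, ⟨H _ t10852.2.2.2.2.2.2.1, H _ t10852.2.2.2.2.2.2.2⟩⟩⟩⟩, ⟨⟨⟨H _ t10860.1, H _ t10860.2.1⟩, ⟨H _ t10860.2.2.1, H _ t10860.2.2.2.1⟩⟩, ⟨⟨H _ t10860.2.2.2.2.1, H _ t10860.2.2.2.2.2.1⟩, ⟨H _ t10860.2.2.2.2.2.2.1, ⟨H _ t10860.2.2.2.2.2.2.2, H _ t10868.1⟩⟩⟩⟩⟩⟩, ⟨⟨⟨⟨⟨H _ t10868.2.1, H _ t10868.2.2.1⟩, ⟨H _ t10868.2.2.2.1, H _ t10868.2.2.2.2.1⟩⟩, ⟨⟨H _ t10868.2.2.2.2.2.1, H _ t10868.2.2.2.2.2.2.1⟩, ⟨H _ t10868.2.2.2.2.2.2.2, ⟨H _ t10876.1, H _ t10876.2.1⟩⟩⟩⟩, ⟨⟨⟨H _ t10876.2.2.1, H _ t10876.2.2.2.1⟩, ⟨H _ t10876.2.2.2.2.1, H _ t10876.2.2.2.2.2.1⟩⟩, ⟨⟨H _ t10876.2.2.2.2.2.2.1, H _ t10876.2.2.2.2.2.2.2⟩, ⟨H _ t10884.1, ⟨H _ t10884.2.1, H _ t10884.2.2.1⟩⟩⟩⟩⟩, ⟨⟨⟨⟨H _ t10884.2.2.2.1, H _ t10884.2.2.2.2.1⟩, ⟨H _ t10884.2.2.2.2.2.1,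 H _ t10884.2.2.2.2.2.2.1⟩⟩, ⟨⟨H _ t10884.2.2.2.2.2.2.2, H _ t10892.1⟩, ⟨H _ t10892.2.1, ⟨H _ t10892.2.2.1, H _ t10892.2.2.2.1⟩⟩⟩⟩, ⟨⟨⟨H _ t10892.2.2.2.2.1, H _ t10892.2.2.2.2.2.1⟩, ⟨H _ t10892.2.2.2.2.2.2.1, H _ t10892.2.2.2.2.2.2.2⟩⟩, ⟨⟨H _ t10900.1, H _ t10900.2.1⟩, ⟨H _ t10900.2.2.1, ⟨H _ t10900.2.2.2.1, H _ t10900.2.2.2.2.1⟩⟩⟩⟩⟩⟩⟩⟩⟩, ⟨⟨⟨⟨⟨⟨⟨⟨H _ t10900.2.2.2.2.2.1, H _ t10900.2.2.2.2.2.2.1⟩, ⟨H _ t10900.2.2.2.2.2.2.2, H _ t10908.1⟩⟩, ⟨⟨H _ t10908.2.1, H _ t10908.2.2.1⟩, ⟨H _ t10908.2.2.2.1, H _ t10908.2.2.2.2.1⟩⟩⟩, ⟨⟨⟨H _ t10908.2.2.2.2.2.1, H _ t10908.2.2.2.2.2.2.1⟩, ⟨H _ t10908.2.2.2.2.2.2.2, H _ t10916.1⟩⟩, ⟨⟨H _ t10916.2.1, H _ t10916.2.2.1⟩, ⟨H _ t10916.2.2.2.1, ⟨H _ t10916.2.2.2.2.1, H _ t10916.2.2.2.2.2.1⟩⟩⟩⟩⟩, ⟨⟨⟨⟨H _ t10916.2.2.2.2.2.2.1, H _ t10916.2.2.2.2.2.2.2⟩, ⟨H _ t10924.1, H _ t10924.2.1⟩⟩, ⟨⟨H _ t10924.2.2.1, H _ t10924.2.2.2.1⟩, ⟨H _ t10924.2.2.2.2.1, ⟨H _ t10924.2.2.2.2.2.1,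 H _ t10924.2.2.2.2.2.2.1⟩⟩⟩⟩, ⟨⟨⟨H _ t10924.2.2.2.2.2.2.2, H _ t10932.1⟩, ⟨H _ t10932.2.1, H _ t10932.2.2.1⟩⟩, ⟨⟨H _ t10932.2.2.2.1, H _ t10932.2.2.2.2.1⟩, ⟨H _ t10932.2.2.2.2.2.1, ⟨H _ t10932.2.2.2.2.2.2.1, H _ t10932.2.2.2.2.2.2.2⟩⟩⟩⟩⟩⟩, ⟨⟨⟨⟨⟨H _ t10940.1, H _ t10940.2.1⟩, ⟨H _ t10940.2.2.1, H _ t10940.2.2.2.1⟩⟩, ⟨⟨H _ t10940.2.2.2.2.1, H _ t10940.2.2.2.2.2.1⟩, ⟨H _ t10940.2.2.2.2.2.2.1, ⟨H _ t10940.2.2.2.2.2.2.2, H _ t10948.1⟩⟩⟩⟩, ⟨⟨⟨H _ t10948.2.1, H _ t10948.2.2.1⟩, ⟨H _ t10948.2.2.2.1, H _ t10948.2.2.2.2.1⟩⟩, ⟨⟨H _ t10948.2.2.2.2.2.1, H _ t10948.2.2.2.2.2.2.1⟩, ⟨H _ t10948.2.2.2.2.2.2.2, ⟨H _ t10956.1, H _ t10956.2.1⟩⟩⟩⟩⟩, ⟨⟨⟨⟨H _ t10956.2.2.1, H _ t10956.2.2.2.1⟩, ⟨H _ t10956.2.2.2.2.1, H _ t10956.2.2.2.2.2.1⟩⟩, ⟨⟨H _ t10956.2.2.2.2.2.2.1, H _ t10956.2.2.2.2.2.2.2⟩, ⟨H _ t10964.1, ⟨H _ t10964.2.1, H _ t10964.2.2.1⟩⟩⟩⟩, ⟨⟨⟨H _ t10964.2.2.2.1, H _ t10964.2.2.2.2.1⟩, ⟨H _ t10964.2.2.2.2.2.1,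 H _ t10964.2.2.2.2.2.2.1⟩⟩, ⟨⟨H _ t10964.2.2.2.2.2.2.2, H _ t10972.1⟩, ⟨H _ t10972.2.1, ⟨H _ t10972.2.2.1, H _ t10972.2.2.2.1⟩⟩⟩⟩⟩⟩⟩, ⟨⟨⟨⟨⟨⟨H _ t10972.2.2.2.2.1, H _ t10972.2.2.2.2.2.1⟩, ⟨H _ t10972.2.2.2.2.2.2.1, H _ t10972.2.2.2.2.2.2.2⟩⟩, ⟨⟨H _ t10980.1, H _ t10980.2.1⟩, ⟨H _ t10980.2.2.1, ⟨H _ t10980.2.2.2.1, H _ t10980.2.2.2.2.1⟩⟩⟩⟩, ⟨⟨⟨H _ t10980.2.2.2.2.2.1, H _ t10980.2.2.2.2.2.2.1⟩, ⟨H _ t10980.2.2.2.2.2.2.2, H _ t10988.1⟩⟩, ⟨⟨H _ t10988.2.1, H _ t10988.2.2.1⟩, ⟨H _ t10988.2.2.2.1, ⟨H _ t10988.2.2.2.2.1, H _ t10988.2.2.2.2.2.1⟩⟩⟩⟩⟩, ⟨⟨⟨⟨H _ t10988.2.2.2.2.2.2.1, H _ t10988.2.2.2.2.2.2.2⟩, ⟨H _ t10996.1, H _ t10996.2.1⟩⟩, ⟨⟨H _ t10996.2.2.1, H _ t10996.2.2.2.1⟩, ⟨H _ t10996.2.2.2.2.1, ⟨H _ t10996.2.2.2.2.2.1, H _ t10996.2.2.2.2.2.2.1⟩⟩⟩⟩, ⟨⟨⟨H _ t10996.2.2.2.2.2.2.2, H _ t11004.1⟩, ⟨H _ t11004.2.1, H _ t11004.2.2.1⟩⟩, ⟨⟨H _ t11004.2.2.2.1, H _ t11004.2.2.2.2.1⟩, ⟨H _ t11004.2.2.2.2.2.1,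 ⟨H _ t11004.2.2.2.2.2.2.1, H _ t11004.2.2.2.2.2.2.2⟩⟩⟩⟩⟩⟩, ⟨⟨⟨⟨⟨H _ t11012.1, H _ t11012.2.1⟩, ⟨H _ t11012.2.2.1, H _ t11012.2.2.2.1⟩⟩, ⟨⟨H _ t11012.2.2.2.2.1, H _ t11012.2.2.2.2.2.1⟩, ⟨H _ t11012.2.2.2.2.2.2.1, ⟨H _ t11012.2.2.2.2.2.2.2, H _ t11020.1⟩⟩⟩⟩, ⟨⟨⟨H _ t11020.2.1, H _ t11020.2.2.1⟩, ⟨H _ t11020.2.2.2.1, H _ t11020.2.2.2.2.1⟩⟩, ⟨⟨H _ t11020.2.2.2.2.2.1, H _ t11020.2.2.2.2.2.2.1⟩, ⟨H _ t11020.2.2.2.2.2.2.2, ⟨H _ t11028.1, H _ t11028.2.1⟩⟩⟩⟩⟩, ⟨⟨⟨⟨H _ t11028.2.2.1, H _ t11028.2.2.2.1⟩, ⟨H _ t11028.2.2.2.2.1, H _ t11028.2.2.2.2.2.1⟩⟩, ⟨⟨H _ t11028.2.2.2.2.2.2.1, H _ t11028.2.2.2.2.2.2.2⟩, ⟨H _ t11036.1, ⟨H _ t11036.2.1, H _ t11036.2.2.1⟩⟩⟩⟩, ⟨⟨⟨H _ t11036.2.2.2.1, H _ t11036.2.2.2.2.1⟩, ⟨H _ t11036.2.2.2.2.2.1, H _ t11036.2.2.2.2.2.2.1⟩⟩, ⟨⟨H _ t11036.2.2.2.2.2.2.2, H _ t11044.1⟩, ⟨H _ t11044.2.1, ⟨H _ t11044.2.2.1, H _ t11044.2.2.2.1⟩⟩⟩⟩⟩⟩⟩⟩, ⟨⟨⟨⟨⟨⟨⟨H _ t11044.2.2.2.2.1, H _ t11044.2.2.2.2.2.1⟩,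 ⟨H _ t11044.2.2.2.2.2.2.1, H _ t11044.2.2.2.2.2.2.2⟩⟩, ⟨⟨H _ t11052.1, H _ t11052.2.1⟩, ⟨H _ t11052.2.2.1, H _ t11052.2.2.2.1⟩⟩⟩, ⟨⟨⟨H _ t11052.2.2.2.2.1, H _ t11052.2.2.2.2.2.1⟩, ⟨H _ t11052.2.2.2.2.2.2.1, H _ t11052.2.2.2.2.2.2.2⟩⟩, ⟨⟨H _ t11060.1, H _ t11060.2.1⟩, ⟨H _ t11060.2.2.1, ⟨H _ t11060.2.2.2.1, H _ t11060.2.2.2.2.1⟩⟩⟩⟩⟩, ⟨⟨⟨⟨H _ t11060.2.2.2.2.2.1, H _ t11060.2.2.2.2.2.2.1⟩, ⟨H _ t11060.2.2.2.2.2.2.2, H _ t11068.1⟩⟩, ⟨⟨H _ t11068.2.1, H _ t11068.2.2.1⟩, ⟨H _ t11068.2.2.2.1, ⟨H _ t11068.2.2.2.2.1, H _ t11068.2.2.2.2.2.1⟩⟩⟩⟩, ⟨⟨⟨H _ t11068.2.2.2.2.2.2.1, H _ t11068.2.2.2.2.2.2.2⟩, ⟨H _ t11076.1, H _ t11076.2.1⟩⟩, ⟨⟨H _ t11076.2.2.1, H _ t11076.2.2.2.1⟩, ⟨H _ t11076.2.2.2.2.1, ⟨H _ t11076.2.2.2.2.2.1, H _ t11076.2.2.2.2.2.2.1⟩⟩⟩⟩⟩⟩, ⟨⟨⟨⟨⟨H _ t11076.2.2.2.2.2.2.2, H _ t11084.1⟩, ⟨H _ t11084.2.1, H _ t11084.2.2.1⟩⟩, ⟨⟨H _ t11084.2.2.2.1, H _ t11084.2.2.2.2.1⟩, ⟨H _ t11084.2.2.2.2.2.1,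 ⟨H _ t11084.2.2.2.2.2.2.1, H _ t11084.2.2.2.2.2.2.2⟩⟩⟩⟩, ⟨⟨⟨H _ t11092.1, H _ t11092.2.1⟩, ⟨H _ t11092.2.2.1, H _ t11092.2.2.2.1⟩⟩, ⟨⟨H _ t11092.2.2.2.2.1, H _ t11092.2.2.2.2.2.1⟩, ⟨H _ t11092.2.2.2.2.2.2.1, ⟨H _ t11092.2.2.2.2.2.2.2, H _ t11100.1⟩⟩⟩⟩⟩, ⟨⟨⟨⟨H _ t11100.2.1, H _ t11100.2.2.1⟩, ⟨H _ t11100.2.2.2.1, H _ t11100.2.2.2.2.1⟩⟩, ⟨⟨H _ t11100.2.2.2.2.2.1, H _ t11100.2.2.2.2.2.2.1⟩, ⟨H _ t11100.2.2.2.2.2.2.2, ⟨H _ t11108.1, H _ t11108.2.1⟩⟩⟩⟩, ⟨⟨⟨H _ t11108.2.2.1, H _ t11108.2.2.2.1⟩, ⟨H _ t11108.2.2.2.2.1, H _ t11108.2.2.2.2.2.1⟩⟩, ⟨⟨H _ t11108.2.2.2.2.2.2.1, H _ t11108.2.2.2.2.2.2.2⟩, ⟨H _ t11116.1, ⟨H _ t11116.2.1, H _ t11116.2.2.1⟩⟩⟩⟩⟩⟩⟩, ⟨⟨⟨⟨⟨⟨H _ t11116.2.2.2.1, H _ t11116.2.2.2.2.1⟩, ⟨H _ t11116.2.2.2.2.2.1, H _ t11116.2.2.2.2.2.2.1⟩⟩, ⟨⟨H _ t11116.2.2.2.2.2.2.2, H _ t11124.1⟩, ⟨H _ t11124.2.1, ⟨H _ t11124.2.2.1, H _ t11124.2.2.2.1⟩⟩⟩⟩, ⟨⟨⟨H _ t11124.2.2.2.2.1, H _ t11124.2.2.2.2.2.1⟩,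 ⟨H _ t11124.2.2.2.2.2.2.1, H _ t11124.2.2.2.2.2.2.2⟩⟩, ⟨⟨H _ t11132.1, H _ t11132.2.1⟩, ⟨H _ t11132.2.2.1, ⟨H _ t11132.2.2.2.1, H _ t11132.2.2.2.2.1⟩⟩⟩⟩⟩, ⟨⟨⟨⟨H _ t11132.2.2.2.2.2.1, H _ t11132.2.2.2.2.2.2.1⟩, ⟨H _ t11132.2.2.2.2.2.2.2, H _ t11140.1⟩⟩, ⟨⟨H _ t11140.2.1, H _ t11140.2.2.1⟩, ⟨H _ t11140.2.2.2.1, ⟨H _ t11140.2.2.2.2.1, H _ t11140.2.2.2.2.2.1⟩⟩⟩⟩, ⟨⟨⟨H _ t11140.2.2.2.2.2.2.1, H _ t11140.2.2.2.2.2.2.2⟩, ⟨H _ t11148.1, H _ t11148.2.1⟩⟩, ⟨⟨H _ t11148.2.2.1, H _ t11148.2.2.2.1⟩, ⟨H _ t11148.2.2.2.2.1, ⟨H _ t11148.2.2.2.2.2.1, H _ t11148.2.2.2.2.2.2.1⟩⟩⟩⟩⟩⟩, ⟨⟨⟨⟨⟨H _ t11148.2.2.2.2.2.2.2, H _ t11156.1⟩, ⟨H _ t11156.2.1, H _ t11156.2.2.1⟩⟩, ⟨⟨H _ t11156.2.2.2.1, H _ t11156.2.2.2.2.1⟩, ⟨H _ t11156.2.2.2.2.2.1, ⟨H _ t11156.2.2.2.2.2.2.1, H _ t11156.2.2.2.2.2.2.2⟩⟩⟩⟩, ⟨⟨⟨H _ t11164.1, H _ t11164.2.1⟩, ⟨H _ t11164.2.2.1, H _ t11164.2.2.2.1⟩⟩, ⟨⟨H _ t11164.2.2.2.2.1, H _ t11164.2.2.2.2.2.1⟩,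 ⟨H _ t11164.2.2.2.2.2.2.1, ⟨H _ t11164.2.2.2.2.2.2.2, H _ t11172.1⟩⟩⟩⟩⟩, ⟨⟨⟨⟨H _ t11172.2.1, H _ t11172.2.2.1⟩, ⟨H _ t11172.2.2.2.1, H _ t11172.2.2.2.2.1⟩⟩, ⟨⟨H _ t11172.2.2.2.2.2.1, H _ t11172.2.2.2.2.2.2.1⟩, ⟨H _ t11172.2.2.2.2.2.2.2, ⟨H _ t11180.1, H _ t11180.2.1⟩⟩⟩⟩, ⟨⟨⟨H _ t11180.2.2.1, H _ t11180.2.2.2.1⟩, ⟨H _ t11180.2.2.2.2.1, H _ t11180.2.2.2.2.2.1⟩⟩, ⟨⟨H _ t11180.2.2.2.2.2.2.1, H _ t11180.2.2.2.2.2.2.2⟩, ⟨H _ t11188.1, ⟨H _ t11188.2.1, H _ t11188.2.2⟩⟩⟩⟩⟩⟩⟩⟩⟩⟩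

end Pool.Agent.MP_c853c5_nt.X.C4950
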