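import Pool.Agent.MP_c853c5_nt.X.C4950.Env
import Pool.Agent.MP_c853c5_nt.X.C4950.D0

set_option autoImplicit false
set_option maxRecDepth 8192
set_option linter.all false

namespace Pool.Agent.MP_c853c5_nt.X.C4950

open Pool.Agent.MP_c853c5_nt.X

def t1073 : allY (E.wth (lkp [])) l1073 = true ∧
    allY (E.wth (lkp [])) l1074 = true ∧
    allY (E.wth (lkp [])) l1075 = true ∧
    allY (E.wth (lkp [])) l1076 = true ∧
    allY (E.wth (lkp [])) l1077 = true ∧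
    allY (E.wth (lkp [])) l1078 = true ∧
    allY (E.wth (lkp [])) l1079 = true ∧
    allY (E.wth (lkp [])) l1080 = true :=
  ⟨by decide +kernel, by decide +kernel, by decide +kernel, by decide +kernel, by decide +kernel, by decide +kernel, by decide +kernel, by decide +kernel⟩

def t1081 : allY (E.wth (lkp [])) l1081 = true ∧
    allY (E.wth (lkp [])) l1082 = true ∧
    allY (E.wth (lkp [])) l1083 = true ∧
    allY (E.wth (lkp [])) l1084 = true ∧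
    allY (E.wth (lkp [])) l1085 = true ∧
    allY (E.wth (lkp [])) l1086 = true ∧
    allY (E.wth (lkp [])) l1087 = true ∧
    allY (E.wth (lkp [])) l1088 = true :=
  ⟨by decide +kernel, by decide +kernel, by decide +kernel, by decide +kernel, by decide +kernel, by decide +kernel, by decide +kernel, by decide +kernel⟩

def t1089 : allY (E.wth (lkp [])) l1089 = true ∧
    allY (E.wth (lkp [])) l1090 = true ∧
    allY (E.wth (lkp [])) l1091 = true ∧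
    allY (E.wth (lkp [])) l1092 = true ∧
    allY (E.wth (lkp [])) l1093 = true ∧
    allY (E.wth (lkp [])) l1094 = true ∧
    allY (E.wth (lkp [])) l1095 = true ∧
    allY (E.wth (lkp [])) l1096 = true :=
  ⟨by decide +kernel, by decide +kernel, by decide +kernel, by decide +kernel, by decide +kernel, by decide +kernel, by decide +kernel, by decide +kernel⟩

def t1097 : allY (E.wth (lkp [])) l1097 = true ∧
    allY (E.wth (lkp [])) l1098 = true ∧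
    allY (E.wth (lkp [])) l1099 = true ∧
    allY (E.wth (lkp [])) l1100 = true ∧
    allY (E.wth (lkp [])) l1101 = true ∧
    allY (E.wth (lkp [])) l1102 = true ∧
    allY (E.wth (lkp [])) l1103 = true ∧
    allY (E.wth (lkp [])) l1104 = true :=
  ⟨by decide +kernel, by decide +kernel, by decide +kernel, by decide +kernel, by decide +kernel, by decide +kernel, by decide +kernel, by decide +kernel⟩

def t1105 : allY (E.wth (lkp [])) l1105 = true ∧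
    allY (E.wth (lkp [])) l1106 = true ∧
    allY (E.wth (lkp [])) l1107 = true ∧
    allY (E.wth (lkp [])) l1108 = true ∧
    allY (E.wth (lkp [])) l1109 = true ∧
    allY (E.wth (lkp [])) l1110 = true ∧
    allY (E.wth (lkp [])) l1111 = true ∧
    allY (E.wth (lkp [])) l1112 = true :=
  ⟨by decide +kernel, by decide +kernel, by decide +kernel, by decide +kernel, by decide +kernel, by decide +kernel, by decide +kernel, by decide +kernel⟩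

def t1113 : allY (E.wth (lkp [])) l1113 = true ∧
    allY (E.wth (lkp [])) l1114 = true ∧
    allY (E.wth (lkp [])) l1115 = true ∧
    allY (E.wth (lkp [])) l1116 = true ∧
    allY (E.wth (lkp [])) l1117 = true ∧
    allY (E.wth (lkp [])) l1118 = true ∧
    allY (E.wth (lkp [])) l1119 = true ∧
    allY (E.wth (lkp [])) l1120 = true :=
  ⟨by decide +kernel, by decide +kernel, by decide +kernel, by decide +kernel, by decide +kernel, by decide +kernel, by decide +kernel, by decide +kernel⟩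

def t1121 : allY (E.wth (lkp [])) l1121 = true ∧
    allY (E.wth (lkp [])) l1122 = true ∧
    allY (E.wth (lkp [])) l1123 = true ∧
    allY (E.wth (lkp [])) l1124 = true ∧
    allY (E.wth (lkp [])) l1125 = true ∧
    allY (E.wth (lkp [])) l1126 = true ∧
    allY (E.wth (lkp [])) l1127 = true ∧
    allY (E.wth (lkp [])) l1128 = true :=
  ⟨by decide +kernel, by decide +kernel, by decide +kernel, by decide +kernel, by decide +kernel, by decide +kernel, by decide +kernel, by decide +kernel⟩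

def t1129 : allY (E.wth (lkp [])) l1129 = true ∧
    allY (E.wth (lkp [])) l1130 = true ∧
    allY (E.wth (lkp [])) l1131 = true ∧
    allY (E.wth (lkp [])) l1132 = true ∧
    allY (E.wth (lkp [])) l1133 = true ∧
    allY (E.wth (lkp [])) l1134 = true ∧
    allY (E.wth (lkp [])) l1135 = true ∧
    allY (E.wth (lkp [])) l1136 = true :=
  ⟨by decide +kernel, by decide +kernel, by decide +kernel, by decide +kernel, by decide +kernel, by decide +kernel, by decide +kernel, by decide +kernel⟩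

def t1137 : allY (E.wth (lkp [])) l1137 = true ∧
    allY (E.wth (lkp [])) l1138 = true ∧
    allY (E.wth (lkp [])) l1139 = true ∧
    allY (E.wth (lkp [])) l1140 = true ∧
    allY (E.wth (lkp [])) l1141 = true ∧
    allY (E.wth (lkp [])) l1142 = true ∧
    allY (E.wth (lkp [])) l1143 = true ∧
    allY (E.wth (lkp [])) l1144 = true :=
  ⟨by decide +kernel, by decide +kernel, by decide +kernel, by decide +kernel, by decide +kernel, by decide +kernel, by decide +kernel, by decide +kernel⟩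

def t1145 : allY (E.wth (lkp [])) l1145 = true ∧
    allY (E.wth (lkp [])) l1146 = true ∧
    allY (E.wth (lkp [])) l1147 = true ∧
    allY (E.wth (lkp [])) l1148 = true ∧
    allY (E.wth (lkp [])) l1149 = true ∧
    allY (E.wth (lkp [])) l1150 = true ∧
    allY (E.wth (lkp [])) l1151 = true ∧
    allY (E.wth (lkp [])) l1152 = true :=
  ⟨by decide +kernel, by decide +kernel, by decide +kernel, by decide +kernel, by decide +kernel, by decide +kernel, by decide +kernel, by decide +kernel⟩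

def t1153 : allY (E.wth (lkp [])) l1153 = true ∧
    allY (E.wth (lkp [])) l1154 = true ∧
    allY (E.wth (lkp [])) l1155 = true ∧
    allY (E.wth (lkp [])) l1156 = true ∧
    allY (E.wth (lkp [])) l1157 = true ∧
    allY (E.wth (lkp [])) l1158 = true ∧
    allY (E.wth (lkp [])) l1159 = true ∧
    allY (E.wth (lkp [])) l1160 = true :=
  ⟨by decide +kernel, by decide +kernel, by decide +kernel, by decide +kernel, by decide +kernel, by decide +kernel, by decide +kernel, by decide +kernel⟩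

def t1161 : allY (E.wth (lkp [])) l1161 = true ∧
    allY (E.wth (lkp [])) l1162 = true ∧
    allY (E.wth (lkp [])) l1163 = true ∧
    allY (E.wth (lkp [])) l1164 = true ∧
    allY (E.wth (lkp [])) l1165 = true ∧
    allY (E.wth (lkp [])) l1166 = true ∧
    allY (E.wth (lkp [])) l1167 = true ∧
    allY (E.wth (lkp [])) l1168 = true :=
  ⟨by decide +kernel, by decide +kernel, by decide +kernel, by decide +kernel, by decide +kernel, by decide +kernel, by decide +kernel, by decide +kernel⟩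

def t1169 : allY (E.wth (lkp [])) l1169 = true ∧
    allY (E.wth (lkp [])) l1170 = true ∧
    allY (E.wth (lkp [])) l1171 = true ∧
    allY (E.wth (lkp [])) l1172 = true ∧
    allY (E.wth (lkp [])) l1173 = true ∧
    allY (E.wth (lkp [])) l1174 = true ∧
    allY (E.wth (lkp [])) l1175 = true ∧
    allY (E.wth (lkp [])) l1176 = true :=
  ⟨by decide +kernel, by decide +kernel, by decide +kernel, by decide +kernel, by decide +kernel, by decide +kernel, by decide +kernel, by decide +kernel⟩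

def t1177 : allY (E.wth (lkp [])) l1177 = true ∧
    allY (E.wth (lkp [])) l1178 = true ∧
    allY (E.wth (lkp [])) l1179 = true ∧
    allY (E.wth (lkp [])) l1180 = true ∧
    allY (E.wth (lkp [])) l1181 = true ∧
    allY (E.wth (lkp [])) l1182 = true ∧
    allY (E.wth (lkp [])) l1183 = true ∧
    allY (E.wth (lkp [])) l1184 = true :=
  ⟨by decide +kernel, by decide +kernel, by decide +kernel, by decide +kernel, by decide +kernel, by decide +kernel, by decide +kernel, by decide +kernel⟩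

def t1185 : allY (E.wth (lkp [])) l1185 = true ∧
    allY (E.wth (lkp [])) l1186 = true ∧
    allY (E.wth (lkp [])) l1187 = true ∧
    allY (E.wth (lkp [])) l1188 = true ∧
    allY (E.wth (lkp [])) l1189 = true ∧
    allY (E.wth (lkp [])) l1190 = true ∧
    allY (E.wth (lkp [])) l1191 = true ∧
    allY (E.wth (lkp [])) l1192 = true :=
  ⟨by decide +kernel, by decide +kernel, by decide +kernel, by decide +kernel, by decide +kernel, by decide +kernel, by decide +kernel, by decide +kernel⟩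

def t1193 : allY (E.wth (lkp [])) l1193 = true ∧
    allY (E.wth (lkp [])) l1194 = true ∧
    allY (E.wth (lkp [])) l1195 = true ∧
    allY (E.wth (lkp [])) l1196 = true ∧
    allY (E.wth (lkp [])) l1197 = true ∧
    allY (E.wth (lkp [])) l1198 = true ∧
    allY (E.wth (lkp [])) l1199 = true ∧
    allY (E.wth (lkp [])) l1200 = true :=
  ⟨by decide +kernel, by decide +kernel, by decide +kernel, by decide +kernel, by decide +kernel, by decide +kernel, by decide +kernel, by decide +kernel⟩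

def t1201 : allY (E.wth (lkp [])) l1201 = true ∧
    allY (E.wth (lkp [])) l1202 = true ∧
    allY (E.wth (lkp [])) l1203 = true ∧
    allY (E.wth (lkp [])) l1204 = true ∧
    allY (E.wth (lkp [])) l1205 = true ∧
    allY (E.wth (lkp [])) l1206 = true ∧
    allY (E.wth (lkp [])) l1207 = true ∧
    allY (E.wth (lkp [])) l1208 = true :=
  ⟨by decide +kernel, by decide +kernel, by decide +kernel, by decide +kernel, by decide +kernel, by decide +kernel, by decide +kernel, by decide +kernel⟩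

def t1209 : allY (E.wth (lkp [])) l1209 = true ∧
    allY (E.wth (lkp [])) l1210 = true ∧
    allY (E.wth (lkp [])) l1211 = true ∧
    allY (E.wth (lkp [])) l1212 = true ∧
    allY (E.wth (lkp [])) l1213 = true ∧
    allY (E.wth (lkp [])) l1214 = true ∧
    allY (E.wth (lkp [])) l1215 = true ∧
    allY (E.wth (lkp [])) l1216 = true :=
  ⟨by decide +kernel, by decide +kernel, by decide +kernel, by decide +kernel, by decide +kernel, by decide +kernel, by decide +kernel, by decide +kernel⟩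

def t1217 : allY (E.wth (lkp [])) l1217 = true ∧
    allY (E.wth (lkp [])) l1218 = true ∧
    allY (E.wth (lkp [])) l1219 = true ∧
    allY (E.wth (lkp [])) l1220 = true ∧
    allY (E.wth (lkp [])) l1221 = true ∧
    allY (E.wth (lkp [])) l1222 = true ∧
    allY (E.wth (lkp [])) l1223 = true ∧
    allY (E.wth (lkp [])) l1224 = true :=
  ⟨by decide +kernel, by decide +kernel, by decide +kernel, by decide +kernel, by decide +kernel, by decide +kernel, by decide +kernel, by decide +kernel⟩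

def t1225 : allY (E.wth (lkp [])) l1225 = true ∧
    allY (E.wth (lkp [])) l1226 = true ∧
    allY (E.wth (lkp [])) l1227 = true ∧
    allY (E.wth (lkp [])) l1228 = true ∧
    allY (E.wth (lkp [])) l1229 = true ∧
    allY (E.wth (lkp [])) l1230 = true ∧
    allY (E.wth (lkp [])) l1231 = true ∧
    allY (E.wth (lkp [])) l1232 = true :=
  ⟨by decide +kernel, by decide +kernel, by decide +kernel, by decide +kernel, by decide +kernel, by decide +kernel, by decide +kernel, by decide +kernel⟩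

def t1233 : allY (E.wth (lkp [])) l1233 = true ∧
    allY (E.wth (lkp [])) l1234 = true ∧
    allY (E.wth (lkp [])) l1235 = true ∧
    allY (E.wth (lkp [])) l1236 = true ∧
    allY (E.wth (lkp [])) l1237 = true ∧
    allY (E.wth (lkp [])) l1238 = true ∧
    allY (E.wth (lkp [])) l1239 = true ∧
    allY (E.wth (lkp [])) l1240 = true :=
  ⟨by decide +kernel, by decide +kernel, by decide +kernel, by decide +kernel, by decide +kernel, by decide +kernel, by decide +kernel, by decide +kernel⟩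

def t1241 : allY (E.wth (lkp [])) l1241 = true ∧
    allY (E.wth (lkp [])) l1242 = true ∧
    allY (E.wth (lkp [])) l1243 = true ∧
    allY (E.wth (lkp [])) l1244 = true ∧
    allY (E.wth (lkp [])) l1245 = true ∧
    allY (E.wth (lkp [])) l1246 = true ∧
    allY (E.wth (lkp [])) l1247 = true ∧
    allY (E.wth (lkp [])) l1248 = true :=
  ⟨by decide +kernel, by decide +kernel, by decide +kernel, by decide +kernel, by decide +kernel, by decide +kernel, by decide +kernel, by decide +kernel⟩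

def t1249 : allY (E.wth (lkp [])) l1249 = true ∧
    allY (E.wth (lkp [])) l1250 = true ∧
    allY (E.wth (lkp [])) l1251 = true ∧
    allY (E.wth (lkp [])) l1252 = true ∧
    allY (E.wth (lkp [])) l1253 = true ∧
    allY (E.wth (lkp [])) l1254 = true ∧
    allY (E.wth (lkp [])) l1255 = true ∧
    allY (E.wth (lkp [])) l1256 = true :=
  ⟨by decide +kernel, by decide +kernel, by decide +kernel, by decide +kernel, by decide +kernel, by decide +kernel, by decide +kernel, by decide +kernel⟩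

def t1257 : allY (E.wth (lkp [])) l1257 = true ∧
    allY (E.wth (lkp [])) l1258 = true ∧
    allY (E.wth (lkp [])) l1259 = true ∧
    allY (E.wth (lkp [])) l1260 = true ∧
    allY (E.wth (lkp [])) l1261 = true ∧
    allY (E.wth (lkp [])) l1262 = true ∧
    allY (E.wth (lkp [])) l1263 = true ∧
    allY (E.wth (lkp [])) l1264 = true :=
  ⟨by decide +kernel, by decide +kernel, by decide +kernel, by decide +kernel, by decide +kernel, by decide +kernel, by decide +kernel, by decide +kernel⟩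

def t1265 : allY (E.wth (lkp [])) l1265 = true ∧
    allY (E.wth (lkp [])) l1266 = true ∧
    allY (E.wth (lkp [])) l1267 = true ∧
    allY (E.wth (lkp [])) l1268 = true ∧
    allY (E.wth (lkp [])) l1269 = true ∧
    allY (E.wth (lkp [])) l1270 = true ∧
    allY (E.wth (lkp [])) l1271 = true ∧
    allY (E.wth (lkp [])) l1272 = true :=
  ⟨by decide +kernel, by decide +kernel, by decide +kernel, by decide +kernel, by decide +kernel, by decide +kernel, by decide +kernel, by decide +kernel⟩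

def t1273 : allY (E.wth (lkp [])) l1273 = true ∧
    allY (E.wth (lkp [])) l1274 = true ∧
    allY (E.wth (lkp [])) l1275 = true ∧
    allY (E.wth (lkp [])) l1276 = true ∧
    allY (E.wth (lkp [])) l1277 = true ∧
    allY (E.wth (lkp [])) l1278 = true ∧
    allY (E.wth (lkp [])) l1279 = true ∧
    allY (E.wth (lkp [])) l1280 = true :=
  ⟨by decide +kernel, by decide +kernel, by decide +kernel, by decide +kernel, by decide +kernel, by decide +kernel, by decide +kernel, by decide +kernel⟩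

def t1281 : allY (E.wth (lkp [])) l1281 = true ∧
    allY (E.wth (lkp [])) l1282 = true ∧
    allY (E.wth (lkp [])) l1283 = true ∧
    allY (E.wth (lkp [])) l1284 = true ∧
    allY (E.wth (lkp [])) l1285 = true ∧
    allY (E.wth (lkp [])) l1286 = true ∧
    allY (E.wth (lkp [])) l1287 = true ∧
    allY (E.wth (lkp [])) l1288 = true :=
  ⟨by decide +kernel, by decide +kernel, by decide +kernel, by decide +kernel, by decide +kernel, by decide +kernel, by decide +kernel, by decide +kernel⟩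

def t1289 : allY (E.wth (lkp [])) l1289 = true ∧
    allY (E.wth (lkp [])) l1290 = true ∧
    allY (E.wth (lkp [])) l1291 = true ∧
    allY (E.wth (lkp [])) l1292 = true ∧
    allY (E.wth (lkp [])) l1293 = true ∧
    allY (E.wth (lkp [])) l1294 = true ∧
    allY (E.wth (lkp [])) l1295 = true ∧
    allY (E.wth (lkp [])) l1296 = true :=
  ⟨by decide +kernel, by decide +kernel, by decide +kernel, by decide +kernel, by decide +kernel, by decide +kernel, by decide +kernel, by decide +kernel⟩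

def t1297 : allY (E.wth (lkp [])) l1297 = true ∧
    allY (E.wth (lkp [])) l1298 = true ∧
    allY (E.wth (lkp [])) l1299 = true ∧
    allY (E.wth (lkp [])) l1300 = true ∧
    allY (E.wth (lkp [])) l1301 = true ∧
    allY (E.wth (lkp [])) l1302 = true ∧
    allY (E.wth (lkp [])) l1303 = true ∧
    allY (E.wth (lkp [])) l1304 = true :=
  ⟨by decide +kernel, by decide +kernel, by decide +kernel, by decide +kernel, by decide +kernel, by decide +kernel, by decide +kernel, by decide +kernel⟩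

def t1305 : allY (E.wth (lkp [])) l1305 = true ∧
    allY (E.wth (lkp [])) l1306 = true ∧
    allY (E.wth (lkp [])) l1307 = true ∧
    allY (E.wth (lkp [])) l1308 = true ∧
    allY (E.wth (lkp [])) l1309 = true ∧
    allY (E.wth (lkp [])) l1310 = true ∧
    allY (E.wth (lkp [])) l1311 = true ∧
    allY (E.wth (lkp [])) l1312 = true :=
  ⟨by decide +kernel, by decide +kernel, by decide +kernel, by decide +kernel, by decide +kernel, by decide +kernel, by decide +kernel, by decide +kernel⟩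

def t1313 : allY (E.wth (lkp [])) l1313 = true ∧
    allY (E.wth (lkp [])) l1314 = true ∧
    allY (E.wth (lkp [])) l1315 = true ∧
    allY (E.wth (lkp [])) l1316 = true ∧
    allY (E.wth (lkp [])) l1317 = true ∧
    allY (E.wth (lkp [])) l1318 = true ∧
    allY (E.wth (lkp [])) l1319 = true ∧
    allY (E.wth (lkp [])) l1320 = true :=
  ⟨by decide +kernel, by decide +kernel, by decide +kernel, by decide +kernel, by decide +kernel, by decide +kernel, by decide +kernel, by decide +kernel⟩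

def t1321 : allY (E.wth (lkp [])) l1321 = true ∧
    allY (E.wth (lkp [])) l1322 = true ∧
    allY (E.wth (lkp [])) l1323 = true ∧
    allY (E.wth (lkp [])) l1324 = true ∧
    allY (E.wth (lkp [])) l1325 = true ∧
    allY (E.wth (lkp [])) l1326 = true ∧
    allY (E.wth (lkp [])) l1327 = true ∧
    allY (E.wth (lkp [])) l1328 = true :=
  ⟨by decide +kernel, by decide +kernel, by decide +kernel, by decide +kernel, by decide +kernel, by decide +kernel, by decide +kernel, by decide +kernel⟩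

def t1329 : allY (E.wth (lkp [])) l1329 = true ∧
    allY (E.wth (lkp [])) l1330 = true ∧
    allY (E.wth (lkp [])) l1331 = true ∧
    allY (E.wth (lkp [])) l1332 = true ∧
    allY (E.wth (lkp [])) l1333 = true ∧
    allY (E.wth (lkp [])) l1334 = true ∧
    allY (E.wth (lkp [])) l1335 = true ∧
    allY (E.wth (lkp [])) l1336 = true :=
  ⟨by decide +kernel, by decide +kernel, by decide +kernel, by decide +kernel, by decide +kernel, by decide +kernel, by decide +kernel, by decide +kernel⟩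

def t1337 : allY (E.wth (lkp [])) l1337 = true ∧
    allY (E.wth (lkp [])) l1338 = true ∧
    allY (E.wth (lkp [])) l1339 = true ∧
    allY (E.wth (lkp [])) l1340 = true ∧
    allY (E.wth (lkp [])) l1341 = true ∧
    allY (E.wth (lkp [])) l1342 = true ∧
    allY (E.wth (lkp [])) l1343 = true ∧
    allY (E.wth (lkp [])) l1344 = true :=
  ⟨by decide +kernel, by decide +kernel, by decide +kernel, by decide +kernel, by decide +kernel, by decide +kernel, by decide +kernel, by decide +kernel⟩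

def t1345 : allY (E.wth (lkp [])) l1345 = true ∧
    allY (E.wth (lkp [])) l1346 = true ∧
    allY (E.wth (lkp [])) l1347 = true ∧
    allY (E.wth (lkp [])) l1348 = true ∧
    allY (E.wth (lkp [])) l1349 = true ∧
    allY (E.wth (lkp [])) l1350 = true ∧
    allY (E.wth (lkp [])) l1351 = true ∧
    allY (E.wth (lkp [])) l1352 = true :=
  ⟨by decide +kernel, by decide +kernel, by decide +kernel, by decide +kernel, by decide +kernel, by decide +kernel, by decide +kernel, by decide +kernel⟩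

def t1353 : allY (E.wth (lkp [])) l1353 = true ∧
    allY (E.wth (lkp [])) l1354 = true ∧
    allY (E.wth (lkp [])) l1355 = true ∧
    allY (E.wth (lkp [])) l1356 = true ∧
    allY (E.wth (lkp [])) l1357 = true ∧
    allY (E.wth (lkp [])) l1358 = true ∧
    allY (E.wth (lkp [])) l1359 = true ∧
    allY (E.wth (lkp [])) l1360 = true :=
  ⟨by decide +kernel, by decide +kernel, by decide +kernel, by decide +kernel, by decide +kernel, by decide +kernel, by decide +kernel, by decide +kernel⟩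

def t1361 : allY (E.wth (lkp [])) l1361 = true ∧
    allY (E.wth (lkp [])) l1362 = true ∧
    allY (E.wth (lkp [])) l1363 = true ∧
    allY (E.wth (lkp [])) l1364 = true ∧
    allY (E.wth (lkp [])) l1365 = true ∧
    allY (E.wth (lkp [])) l1366 = true ∧
    allY (E.wth (lkp [])) l1367 = true ∧
    allY (E.wth (lkp [])) l1368 = true :=
  ⟨by decide +kernel, by decide +kernel, by decide +kernel, by decide +kernel, by decide +kernel, by decide +kernel, by decide +kernel, by decide +kernel⟩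

def t1369 : allY (E.wth (lkp [])) l1369 = true ∧
    allY (E.wth (lkp [])) l1370 = true ∧
    allY (E.wth (lkp [])) l1371 = true ∧
    allY (E.wth (lkp [])) l1372 = true ∧
    allY (E.wth (lkp [])) l1373 = true ∧
    allY (E.wth (lkp [])) l1374 = true ∧
    allY (E.wth (lkp [])) l1375 = true ∧
    allY (E.wth (lkp [])) l1376 = true :=
  ⟨by decide +kernel, by decide +kernel, by decide +kernel, by decide +kernel, by decide +kernel, by decide +kernel, by decide +kernel, by decide +kernel⟩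

def t1377 : allY (E.wth (lkp [])) l1377 = true ∧
    allY (E.wth (lkp [])) l1378 = true ∧
    allY (E.wth (lkp [])) l1379 = true ∧
    allY (E.wth (lkp [])) l1380 = true ∧
    allY (E.wth (lkp [])) l1381 = true ∧
    allY (E.wth (lkp [])) l1382 = true ∧
    allY (E.wth (lkp [])) l1383 = true ∧
    allY (E.wth (lkp [])) l1384 = true :=
  ⟨by decide +kernel, by decide +kernel, by decide +kernel, by decide +kernel, by decide +kernel, by decide +kernel, by decide +kernel, by decide +kernel⟩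

def t1385 : allY (E.wth (lkp [])) l1385 = true ∧
    allY (E.wth (lkp [])) l1386 = true ∧
    allY (E.wth (lkp [])) l1387 = true ∧
    allY (E.wth (lkp [])) l1388 = true ∧
    allY (E.wth (lkp [])) l1389 = true ∧
    allY (E.wth (lkp [])) l1390 = true ∧
    allY (E.wth (lkp [])) l1391 = true ∧
    allY (E.wth (lkp [])) l1392 = true :=
  ⟨by decide +kernel, by decide +kernel, by decide +kernel, by decide +kernel, by decide +kernel, by decide +kernel, by decide +kernel, by decide +kernel⟩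

def t1393 : allY (E.wth (lkp [])) l1393 = true ∧
    allY (E.wth (lkp [])) l1394 = true ∧
    allY (E.wth (lkp [])) l1395 = true ∧
    allY (E.wth (lkp [])) l1396 = true ∧
    allY (E.wth (lkp [])) l1397 = true ∧
    allY (E.wth (lkp [])) l1398 = true ∧
    allY (E.wth (lkp [])) l1399 = true ∧
    allY (E.wth (lkp [])) l1400 = true :=
  ⟨by decide +kernel, by decide +kernel, by decide +kernel, by decide +kernel, by decide +kernel, by decide +kernel, by decide +kernel, by decide +kernel⟩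

def t1401 : allY (E.wth (lkp [])) l1401 = true ∧
    allY (E.wth (lkp [])) l1402 = true ∧
    allY (E.wth (lkp [])) l1403 = true ∧
    allY (E.wth (lkp [])) l1404 = true ∧
    allY (E.wth (lkp [])) l1405 = true ∧
    allY (E.wth (lkp [])) l1406 = true ∧
    allY (E.wth (lkp [])) l1407 = true ∧
    allY (E.wth (lkp [])) l1408 = true :=
  ⟨by decide +kernel, by decide +kernel, by decide +kernel, by decide +kernel, by decide +kernel, by decide +kernel, by decide +kernel, by decide +kernel⟩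

def t1409 : allY (E.wth (lkp [])) l1409 = true ∧
    allY (E.wth (lkp [])) l1410 = true ∧
    allY (E.wth (lkp [])) l1411 = true ∧
    allY (E.wth (lkp [])) l1412 = true ∧
    allY (E.wth (lkp [])) l1413 = true ∧
    allY (E.wth (lkp [])) l1414 = true ∧
    allY (E.wth (lkp [])) l1415 = true ∧
    allY (E.wth (lkp [])) l1416 = true :=
  ⟨by decide +kernel, by decide +kernel, by decide +kernel, by decide +kernel, by decide +kernel, by decide +kernel, by decide +kernel, by decide +kernel⟩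

def t1417 : allY (E.wth (lkp [])) l1417 = true ∧
    allY (E.wth (lkp [])) l1418 = true ∧
    allY (E.wth (lkp [])) l1419 = true ∧
    allY (E.wth (lkp [])) l1420 = true ∧
    allY (E.wth (lkp [])) l1421 = true ∧
    allY (E.wth (lkp [])) l1422 = true ∧
    allY (E.wth (lkp [])) l1423 = true ∧
    allY (E.wth (lkp [])) l1424 = true :=
  ⟨by decide +kernel, by decide +kernel, by decide +kernel, by decide +kernel, by decide +kernel, by decide +kernel, by decide +kernel, by decide +kernel⟩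

def t1425 : allY (E.wth (lkp [])) l1425 = true ∧
    allY (E.wth (lkp [])) l1426 = true ∧
    allY (E.wth (lkp [])) l1427 = true ∧
    allY (E.wth (lkp [])) l1428 = true ∧
    allY (E.wth (lkp [])) l1429 = true ∧
    allY (E.wth (lkp [])) l1430 = true ∧
    allY (E.wth (lkp [])) l1431 = true ∧
    allY (E.wth (lkp [])) l1432 = true :=
  ⟨by decide +kernel, by decide +kernel, by decide +kernel, by decide +kernel, by decide +kernel, by decide +kernel, by decide +kernel, by decide +kernel⟩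

def t1433 : allY (E.wth (lkp [])) l1433 = true ∧
    allY (E.wth (lkp [])) l1434 = true ∧
    allY (E.wth (lkp [])) l1435 = true ∧
    allY (E.wth (lkp [])) l1436 = true ∧
    allY (E.wth (lkp [])) l1437 = true ∧
    allY (E.wth (lkp [])) l1438 = true ∧
    allY (E.wth (lkp [])) l1439 = true ∧
    allY (E.wth (lkp [])) l1440 = true :=
  ⟨by decide +kernel, by decide +kernel, by decide +kernel, by decide +kernel, by decide +kernel, by decide +kernel, by decide +kernel, by decide +kernel⟩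

def t1441 : allY (E.wth (lkp [])) l1441 = true ∧
    allY (E.wth (lkp [])) l1442 = true ∧
    allY (E.wth (lkp [])) l1443 = true ∧
    allY (E.wth (lkp [])) l1444 = true ∧
    allY (E.wth (lkp [])) l1445 = true ∧
    allY (E.wth (lkp [])) l1446 = true ∧
    allY (E.wth (lkp [])) l1447 = true ∧
    allY (E.wth (lkp [])) l1448 = true :=
  ⟨by decide +kernel, by decide +kernel, by decide +kernel, by decide +kernel, by decide +kernel, by decide +kernel, by decide +kernel, by decide +kernel⟩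

def t1449 : allY (E.wth (lkp [])) l1449 = true ∧
    allY (E.wth (lkp [])) l1450 = true ∧
    allY (E.wth (lkp [])) l1451 = true ∧
    allY (E.wth (lkp [])) l1452 = true ∧
    allY (E.wth (lkp [])) l1453 = true ∧
    allY (E.wth (lkp [])) l1454 = true ∧
    allY (E.wth (lkp [])) l1455 = true ∧
    allY (E.wth (lkp [])) l1456 = true :=
  ⟨by decide +kernel, by decide +kernel, by decide +kernel, by decide +kernel, by decide +kernel, by decide +kernel, by decide +kernel, by decide +kernel⟩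

def t1457 : allY (E.wth (lkp [])) l1457 = true ∧
    allY (E.wth (lkp [])) l1458 = true ∧
    allY (E.wth (lkp [])) l1459 = true ∧
    allY (E.wth (lkp [])) l1460 = true ∧
    allY (E.wth (lkp [])) l1461 = true ∧
    allY (E.wth (lkp [])) l1462 = true ∧
    allY (E.wth (lkp [])) l1463 = true ∧
    allY (E.wth (lkp [])) l1464 = true :=
  ⟨by decide +kernel, by decide +kernel, by decide +kernel, by decide +kernel, by decide +kernel, by decide +kernel, by decide +kernel, by decide +kernel⟩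

def t1465 : allY (E.wth (lkp [])) l1465 = true ∧
    allY (E.wth (lkp [])) l1466 = true ∧
    allY (E.wth (lkp [])) l1467 = true ∧
    allY (E.wth (lkp [])) l1468 = true ∧
    allY (E.wth (lkp [])) l1469 = true ∧
    allY (E.wth (lkp [])) l1470 = true ∧
    allY (E.wth (lkp [])) l1471 = true ∧
    allY (E.wth (lkp [])) l1472 = true :=
  ⟨by decide +kernel, by decide +kernel, by decide +kernel, by decide +kernel, by decide +kernel, by decide +kernel, by decide +kernel, by decide +kernel⟩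

def t1473 : allY (E.wth (lkp [])) l1473 = true ∧
    allY (E.wth (lkp [])) l1474 = true ∧
    allY (E.wth (lkp [])) l1475 = true ∧
    allY (E.wth (lkp [])) l1476 = true ∧
    allY (E.wth (lkp [])) l1477 = true ∧
    allY (E.wth (lkp [])) l1478 = true ∧
    allY (E.wth (lkp [])) l1479 = true ∧
    allY (E.wth (lkp [])) l1480 = true :=
  ⟨by decide +kernel, by decide +kernel, by decide +kernel, by decide +kernel, by decide +kernel, by decide +kernel, by decide +kernel, by decide +kernel⟩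

def t1481 : allY (E.wth (lkp [])) l1481 = true ∧
    allY (E.wth (lkp [])) l1482 = true ∧
    allY (E.wth (lkp [])) l1483 = true ∧
    allY (E.wth (lkp [])) l1484 = true ∧
    allY (E.wth (lkp [])) l1485 = true ∧
    allY (E.wth (lkp [])) l1486 = true ∧
    allY (E.wth (lkp [])) l1487 = true ∧
    allY (E.wth (lkp [])) l1488 = true :=
  ⟨by decide +kernel, by decide +kernel, by decide +kernel, by decide +kernel, by decide +kernel, by decide +kernel, by decide +kernel, by decide +kernel⟩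

def t1489 : allY (E.wth (lkp [])) l1489 = true ∧
    allY (E.wth (lkp [])) l1490 = true ∧
    allY (E.wth (lkp [])) l1491 = true ∧
    allY (E.wth (lkp [])) l1492 = true ∧
    allY (E.wth (lkp [])) l1493 = true ∧
    allY (E.wth (lkp [])) l1494 = true ∧
    allY (E.wth (lkp [])) l1495 = true ∧
    allY (E.wth (lkp [])) l1496 = true :=
  ⟨by decide +kernel, by decide +kernel, by decide +kernel, by decide +kernel, by decide +kernel, by decide +kernel, by decide +kernel, by decide +kernel⟩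

def t1497 : allY (E.wth (lkp [])) l1497 = true ∧
    allY (E.wth (lkp [])) l1498 = true ∧
    allY (E.wth (lkp [])) l1499 = true ∧
    allY (E.wth (lkp [])) l1500 = true ∧
    allY (E.wth (lkp [])) l1501 = true ∧
    allY (E.wth (lkp [])) l1502 = true ∧
    allY (E.wth (lkp [])) l1503 = true ∧
    allY (E.wth (lkp [])) l1504 = true :=
  ⟨by decide +kernel, by decide +kernel, by decide +kernel, by decide +kernel, by decide +kernel, by decide +kernel, by decide +kernel, by decide +kernel⟩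

def t1505 : allY (E.wth (lkp [])) l1505 = true ∧
    allY (E.wth (lkp [])) l1506 = true ∧
    allY (E.wth (lkp [])) l1507 = true ∧
    allY (E.wth (lkp [])) l1508 = true ∧
    allY (E.wth (lkp [])) l1509 = true ∧
    allY (E.wth (lkp [])) l1510 = true ∧
    allY (E.wth (lkp [])) l1511 = true ∧
    allY (E.wth (lkp [])) l1512 = true :=
  ⟨by decide +kernel, by decide +kernel, by decide +kernel, by decide +kernel, by decide +kernel, by decide +kernel, by decide +kernel, by decide +kernel⟩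

def t1513 : allY (E.wth (lkp [])) l1513 = true ∧
    allY (E.wth (lkp [])) l1514 = true ∧
    allY (E.wth (lkp [])) l1515 = true ∧
    allY (E.wth (lkp [])) l1516 = true ∧
    allY (E.wth (lkp [])) l1517 = true ∧
    allY (E.wth (lkp [])) l1518 = true ∧
    allY (E.wth (lkp [])) l1519 = true ∧
    allY (E.wth (lkp [])) l1520 = true :=
  ⟨by decide +kernel, by decide +kernel, by decide +kernel, by decide +kernel, by decide +kernel, by decide +kernel, by decide +kernel, by decide +kernel⟩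

def t1521 : allY (E.wth (lkp [])) l1521 = true ∧
    allY (E.wth (lkp [])) l1522 = true ∧
    allY (E.wth (lkp [])) l1523 = true ∧
    allY (E.wth (lkp [])) l1524 = true ∧
    allY (E.wth (lkp [])) l1525 = true ∧
    allY (E.wth (lkp [])) l1526 = true ∧
    allY (E.wth (lkp [])) l1527 = true ∧
    allY (E.wth (lkp [])) l1528 = true :=
  ⟨by decide +kernel, by decide +kernel, by decide +kernel, by decide +kernel, by decide +kernel, by decide +kernel, by decide +kernel, by decide +kernel⟩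

def t1529 : allY (E.wth (lkp [])) l1529 = true ∧
    allY (E.wth (lkp [])) l1530 = true ∧
    allY (E.wth (lkp [])) l1531 = true ∧
    allY (E.wth (lkp [])) l1532 = true ∧
    allY (E.wth (lkp [])) l1533 = true ∧
    allY (E.wth (lkp [])) l1534 = true ∧
    allY (E.wth (lkp [])) l1535 = true ∧
    allY (E.wth (lkp [])) l1536 = true :=
  ⟨by decide +kernel, by decide +kernel, by decide +kernel, by decide +kernel, by decide +kernel, by decide +kernel, by decide +kernel, by decide +kernel⟩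

def t1537 : allY (E.wth (lkp [])) l1537 = true ∧
    allY (E.wth (lkp [])) l1538 = true ∧
    allY (E.wth (lkp [])) l1539 = true ∧
    allY (E.wth (lkp [])) l1540 = true ∧
    allY (E.wth (lkp [])) l1541 = true ∧
    allY (E.wth (lkp [])) l1542 = true ∧
    allY (E.wth (lkp [])) l1543 = true ∧
    allY (E.wth (lkp [])) l1544 = true :=
  ⟨by decide +kernel, by decide +kernel, by decide +kernel, by decide +kernel, by decide +kernel, by decide +kernel, by decide +kernel, by decide +kernel⟩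

def t1545 : allY (E.wth (lkp [])) l1545 = true ∧
    allY (E.wth (lkp [])) l1546 = true ∧
    allY (E.wth (lkp [])) l1547 = true ∧
    allY (E.wth (lkp [])) l1548 = true ∧
    allY (E.wth (lkp [])) l1549 = true ∧
    allY (E.wth (lkp [])) l1550 = true ∧
    allY (E.wth (lkp [])) l1551 = true ∧
    allY (E.wth (lkp [])) l1552 = true :=
  ⟨by decide +kernel, by decide +kernel, by decide +kernel, by decide +kernel, by decide +kernel, by decide +kernel, by decide +kernel, by decide +kernel⟩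

def t1553 : allY (E.wth (lkp [])) l1553 = true ∧
    allY (E.wth (lkp [])) l1554 = true ∧
    allY (E.wth (lkp [])) l1555 = true ∧
    allY (E.wth (lkp [])) l1556 = true ∧
    allY (E.wth (lkp [])) l1557 = true ∧
    allY (E.wth (lkp [])) l1558 = true ∧
    allY (E.wth (lkp [])) l1559 = true ∧
    allY (E.wth (lkp [])) l1560 = true :=
  ⟨by decide +kernel, by decide +kernel, by decide +kernel, by decide +kernel, by decide +kernel, by decide +kernel, by decide +kernel, by decide +kernel⟩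

def t1561 : allY (E.wth (lkp [])) l1561 = true ∧
    allY (E.wth (lkp [])) l1562 = true ∧
    allY (E.wth (lkp [])) l1563 = true ∧
    allY (E.wth (lkp [])) l1564 = true ∧
    allY (E.wth (lkp [])) l1565 = true ∧
    allY (E.wth (lkp [])) l1566 = true ∧
    allY (E.wth (lkp [])) l1567 = true ∧
    allY (E.wth (lkp [])) l1568 = true :=
  ⟨by decide +kernel, by decide +kernel, by decide +kernel, by decide +kernel, by decide +kernel, by decide +kernel, by decide +kernel, by decide +kernel⟩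

def t1569 : allY (E.wth (lkp [])) l1569 = true ∧
    allY (E.wth (lkp [])) l1570 = true ∧
    allY (E.wth (lkp [])) l1571 = true ∧
    allY (E.wth (lkp [])) l1572 = true ∧
    allY (E.wth (lkp [])) l1573 = true ∧
    allY (E.wth (lkp [])) l1574 = true ∧
    allY (E.wth (lkp [])) l1575 = true ∧
    allY (E.wth (lkp [])) l1576 = true :=
  ⟨by decide +kernel, by decide +kernel, by decide +kernel, by decide +kernel, by decide +kernel, by decide +kernel, by decide +kernel, by decide +kernel⟩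

def t1577 : allY (E.wth (lkp [])) l1577 = true ∧
    allY (E.wth (lkp [])) l1578 = true ∧
    allY (E.wth (lkp [])) l1579 = true ∧
    allY (E.wth (lkp [])) l1580 = true ∧
    allY (E.wth (lkp [])) l1581 = true ∧
    allY (E.wth (lkp [])) l1582 = true ∧
    allY (E.wth (lkp [])) l1583 = true ∧
    allY (E.wth (lkp [])) l1584 = true :=
  ⟨by decide +kernel, by decide +kernel, by decide +kernel, by decide +kernel, by decide +kernel, by decide +kernel, by decide +kernel, by decide +kernel⟩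

def t1585 : allY (E.wth (lkp [])) l1585 = true ∧
    allY (E.wth (lkp [])) l1586 = true ∧
    allY (E.wth (lkp [])) l1587 = true ∧
    allY (E.wth (lkp [])) l1588 = true ∧
    allY (E.wth (lkp [])) l1589 = true ∧
    allY (E.wth (lkp [])) l1590 = true ∧
    allY (E.wth (lkp [])) l1591 = true ∧
    allY (E.wth (lkp [])) l1592 = true :=
  ⟨by decide +kernel, by decide +kernel, by decide +kernel, by decide +kernel, by decide +kernel, by decide +kernel, by decide +kernel, by decide +kernel⟩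

def t1593 : allY (E.wth (lkp [])) l1593 = true ∧
    allY (E.wth (lkp [])) l1594 = true ∧
    allY (E.wth (lkp [])) l1595 = true ∧
    allY (E.wth (lkp [])) l1596 = true ∧
    allY (E.wth (lkp [])) l1597 = true ∧
    allY (E.wth (lkp [])) l1598 = true ∧
    allY (E.wth (lkp [])) l1599 = true ∧
    allY (E.wth (lkp [])) l1600 = true :=
  ⟨by decide +kernel, by decide +kernel, by decide +kernel, by decide +kernel, by decide +kernel, by decide +kernel, by decide +kernel, by decide +kernel⟩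

def t1601 : allY (E.wth (lkp [])) l1601 = true ∧
    allY (E.wth (lkp [])) l1602 = true ∧
    allY (E.wth (lkp [])) l1603 = true ∧
    allY (E.wth (lkp [])) l1604 = true ∧
    allY (E.wth (lkp [])) l1605 = true ∧
    allY (E.wth (lkp [])) l1606 = true ∧
    allY (E.wth (lkp [])) l1607 = true ∧
    allY (E.wth (lkp [])) l1608 = true :=
  ⟨by decide +kernel, by decide +kernel, by decide +kernel, by decide +kernel, by decide +kernel, by decide +kernel, by decide +kernel, by decide +kernel⟩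

def t1609 : allY (E.wth (lkp [])) l1609 = true ∧
    allY (E.wth (lkp [])) l1610 = true ∧
    allY (E.wth (lkp [])) l1611 = true ∧
    allY (E.wth (lkp [])) l1612 = true ∧
    allY (E.wth (lkp [])) l1613 = true ∧
    allY (E.wth (lkp [])) l1614 = true :=
  ⟨by decide +kernel, by decide +kernel, by decide +kernel, by decide +kernel, by decide +kernel, by decide +kernel⟩

theorem a2 {p : Rf → Prop} (H : ∀ l, allY (E.wth (lkp [])) l = true → (lkp l).All p) :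
    b2.All p := ⟨⟨⟨⟨⟨⟨⟨⟨⟨H _ t1073.1, H _ t1073.2.1⟩, ⟨H _ t1073.2.2.1, H _ t1073.2.2.2.1⟩⟩, ⟨⟨H _ t1073.2.2.2.2.1, H _ t1073.2.2.2.2.2.1⟩, ⟨H _ t1073.2.2.2.2.2.2.1, H _ t1073.2.2.2.2.2.2.2⟩⟩⟩, ⟨⟨⟨H _ t1081.1, H _ t1081.2.1⟩, ⟨H _ t1081.2.2.1, H _ t1081.2.2.2.1⟩⟩, ⟨⟨H _ t1081.2.2.2.2.1, H _ t1081.2.2.2.2.2.1⟩, ⟨H _ t1081.2.2.2.2.2.2.1, H _ t1081.2.2.2.2.2.2.2⟩⟩⟩⟩, ⟨⟨⟨⟨H _ t1089.1, H _ t1089.2.1⟩, ⟨H _ t1089.2.2.1, H _ t1089.2.2.2.1⟩⟩, ⟨⟨H _ t1089.2.2.2.2.1, H _ t1089.2.2.2.2.2.1⟩, ⟨H _ t1089.2.2.2.2.2.2.1, H _ t1089.2.2.2.2.2.2.2⟩⟩⟩, ⟨⟨⟨H _ t1097.1, H _ t1097.2.1⟩, ⟨H _ t1097.2.2.1, H _ t1097.2.2.2.1⟩⟩, ⟨⟨H _ t1097.2.2.2.2.1, H _ t1097.2.2.2.2.2.1⟩, ⟨H _ t1097.2.2.2.2.2.2.1, ⟨H _ t1097.2.2.2.2.2.2.2, H _ t1105.1⟩⟩⟩⟩⟩⟩, ⟨⟨⟨⟨⟨H _ t1105.2.1, H _ t1105.2.2.1⟩, ⟨H _ t1105.2.2.2.1, H _ t1105.2.2.2.2.1⟩⟩, ⟨⟨H _ t1105.2.2.2.2.2.1, H _ t1105.2.2.2.2.2.2.1⟩, ⟨H _ t1105.2.2.2.2.2.2.2,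 H _ t1113.1⟩⟩⟩, ⟨⟨⟨H _ t1113.2.1, H _ t1113.2.2.1⟩, ⟨H _ t1113.2.2.2.1, H _ t1113.2.2.2.2.1⟩⟩, ⟨⟨H _ t1113.2.2.2.2.2.1, H _ t1113.2.2.2.2.2.2.1⟩, ⟨H _ t1113.2.2.2.2.2.2.2, ⟨H _ t1121.1, H _ t1121.2.1⟩⟩⟩⟩⟩, ⟨⟨⟨⟨H _ t1121.2.2.1, H _ t1121.2.2.2.1⟩, ⟨H _ t1121.2.2.2.2.1, H _ t1121.2.2.2.2.2.1⟩⟩, ⟨⟨H _ t1121.2.2.2.2.2.2.1, H _ t1121.2.2.2.2.2.2.2⟩, ⟨H _ t1129.1, H _ t1129.2.1⟩⟩⟩, ⟨⟨⟨H _ t1129.2.2.1, H _ t1129.2.2.2.1⟩, ⟨H _ t1129.2.2.2.2.1, H _ t1129.2.2.2.2.2.1⟩⟩, ⟨⟨H _ t1129.2.2.2.2.2.2.1, H _ t1129.2.2.2.2.2.2.2⟩, ⟨H _ t1137.1, ⟨H _ t1137.2.1, H _ t1137.2.2.1⟩⟩⟩⟩⟩⟩⟩, ⟨⟨⟨⟨⟨⟨H _ t1137.2.2.2.1, H _ t1137.2.2.2.2.1⟩, ⟨H _ t1137.2.2.2.2.2.1, H _ t1137.2.2.2.2.2.2.1⟩⟩, ⟨⟨H _ t1137.2.2.2.2.2.2.2, H _ t1145.1⟩, ⟨H _ t1145.2.1, H _ t1145.2.2.1⟩⟩⟩, ⟨⟨⟨H _ t1145.2.2.2.1, H _ t1145.2.2.2.2.1⟩, ⟨H _ t1145.2.2.2.2.2.1, H _ t1145.2.2.2.2.2.2.1⟩⟩, ⟨⟨H _ t1145.2.2.2.2.2.2.2, H _ t1153.1⟩,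 ⟨H _ t1153.2.1, ⟨H _ t1153.2.2.1, H _ t1153.2.2.2.1⟩⟩⟩⟩⟩, ⟨⟨⟨⟨H _ t1153.2.2.2.2.1, H _ t1153.2.2.2.2.2.1⟩, ⟨H _ t1153.2.2.2.2.2.2.1, H _ t1153.2.2.2.2.2.2.2⟩⟩, ⟨⟨H _ t1161.1, H _ t1161.2.1⟩, ⟨H _ t1161.2.2.1, H _ t1161.2.2.2.1⟩⟩⟩, ⟨⟨⟨H _ t1161.2.2.2.2.1, H _ t1161.2.2.2.2.2.1⟩, ⟨H _ t1161.2.2.2.2.2.2.1, H _ t1161.2.2.2.2.2.2.2⟩⟩, ⟨⟨H _ t1169.1, H _ t1169.2.1⟩, ⟨H _ t1169.2.2.1, ⟨H _ t1169.2.2.2.1, H _ t1169.2.2.2.2.1⟩⟩⟩⟩⟩⟩, ⟨⟨⟨⟨⟨H _ t1169.2.2.2.2.2.1, H _ t1169.2.2.2.2.2.2.1⟩, ⟨H _ t1169.2.2.2.2.2.2.2, H _ t1177.1⟩⟩, ⟨⟨H _ t1177.2.1, H _ t1177.2.2.1⟩, ⟨H _ t1177.2.2.2.1, H _ t1177.2.2.2.2.1⟩⟩⟩, ⟨⟨⟨H _ t1177.2.2.2.2.2.1, H _ t1177.2.2.2.2.2.2.1⟩, ⟨H _ t1177.2.2.2.2.2.2.2, H _ t1185.1⟩⟩, ⟨⟨H _ t1185.2.1, H _ t1185.2.2.1⟩, ⟨H _ t1185.2.2.2.1, ⟨H _ t1185.2.2.2.2.1, H _ t1185.2.2.2.2.2.1⟩⟩⟩⟩⟩, ⟨⟨⟨⟨H _ t1185.2.2.2.2.2.2.1, H _ t1185.2.2.2.2.2.2.2⟩, ⟨H _ t1193.1, H _ t1193.2.1⟩⟩,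 ⟨⟨H _ t1193.2.2.1, H _ t1193.2.2.2.1⟩, ⟨H _ t1193.2.2.2.2.1, H _ t1193.2.2.2.2.2.1⟩⟩⟩, ⟨⟨⟨H _ t1193.2.2.2.2.2.2.1, H _ t1193.2.2.2.2.2.2.2⟩, ⟨H _ t1201.1, H _ t1201.2.1⟩⟩, ⟨⟨H _ t1201.2.2.1, H _ t1201.2.2.2.1⟩, ⟨H _ t1201.2.2.2.2.1, ⟨H _ t1201.2.2.2.2.2.1, H _ t1201.2.2.2.2.2.2.1⟩⟩⟩⟩⟩⟩⟩⟩, ⟨⟨⟨⟨⟨⟨⟨H _ t1201.2.2.2.2.2.2.2, H _ t1209.1⟩, ⟨H _ t1209.2.1, H _ t1209.2.2.1⟩⟩, ⟨⟨H _ t1209.2.2.2.1, H _ t1209.2.2.2.2.1⟩, ⟨H _ t1209.2.2.2.2.2.1, H _ t1209.2.2.2.2.2.2.1⟩⟩⟩, ⟨⟨⟨H _ t1209.2.2.2.2.2.2.2, H _ t1217.1⟩, ⟨H _ t1217.2.1, H _ t1217.2.2.1⟩⟩, ⟨⟨H _ t1217.2.2.2.1, H _ t1217.2.2.2.2.1⟩, ⟨H _ t1217.2.2.2.2.2.1, ⟨H _ t1217.2.2.2.2.2.2.1, H _ t1217.2.2.2.2.2.2.2⟩⟩⟩⟩⟩, ⟨⟨⟨⟨H _ t1225.1, H _ t1225.2.1⟩, ⟨H _ t1225.2.2.1, H _ t1225.2.2.2.1⟩⟩, ⟨⟨H _ t1225.2.2.2.2.1, H _ t1225.2.2.2.2.2.1⟩, ⟨H _ t1225.2.2.2.2.2.2.1, H _ t1225.2.2.2.2.2.2.2⟩⟩⟩, ⟨⟨⟨H _ t1233.1, H _ t1233.2.1⟩, ⟨H _ t1233.2.2.1,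 H _ t1233.2.2.2.1⟩⟩, ⟨⟨H _ t1233.2.2.2.2.1, H _ t1233.2.2.2.2.2.1⟩, ⟨H _ t1233.2.2.2.2.2.2.1, ⟨H _ t1233.2.2.2.2.2.2.2, H _ t1241.1⟩⟩⟩⟩⟩⟩, ⟨⟨⟨⟨⟨H _ t1241.2.1, H _ t1241.2.2.1⟩, ⟨H _ t1241.2.2.2.1, H _ t1241.2.2.2.2.1⟩⟩, ⟨⟨H _ t1241.2.2.2.2.2.1, H _ t1241.2.2.2.2.2.2.1⟩, ⟨H _ t1241.2.2.2.2.2.2.2, H _ t1249.1⟩⟩⟩, ⟨⟨⟨H _ t1249.2.1, H _ t1249.2.2.1⟩, ⟨H _ t1249.2.2.2.1, H _ t1249.2.2.2.2.1⟩⟩, ⟨⟨H _ t1249.2.2.2.2.2.1, H _ t1249.2.2.2.2.2.2.1⟩, ⟨H _ t1249.2.2.2.2.2.2.2, ⟨H _ t1257.1, H _ t1257.2.1⟩⟩⟩⟩⟩, ⟨⟨⟨⟨H _ t1257.2.2.1, H _ t1257.2.2.2.1⟩, ⟨H _ t1257.2.2.2.2.1, H _ t1257.2.2.2.2.2.1⟩⟩, ⟨⟨H _ t1257.2.2.2.2.2.2.1, H _ t1257.2.2.2.2.2.2.2⟩, ⟨H _ t1265.1, H _ t1265.2.1⟩⟩⟩, ⟨⟨⟨H _ t1265.2.2.1, H _ t1265.2.2.2.1⟩, ⟨H _ t1265.2.2.2.2.1, H _ t1265.2.2.2.2.2.1⟩⟩, ⟨⟨H _ t1265.2.2.2.2.2.2.1, H _ t1265.2.2.2.2.2.2.2⟩, ⟨H _ t1273.1, ⟨H _ t1273.2.1, H _ t1273.2.2.1⟩⟩⟩⟩⟩⟩⟩, ⟨⟨⟨⟨⟨⟨H _ t1273.2.2.2.1,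 H _ t1273.2.2.2.2.1⟩, ⟨H _ t1273.2.2.2.2.2.1, H _ t1273.2.2.2.2.2.2.1⟩⟩, ⟨⟨H _ t1273.2.2.2.2.2.2.2, H _ t1281.1⟩, ⟨H _ t1281.2.1, H _ t1281.2.2.1⟩⟩⟩, ⟨⟨⟨H _ t1281.2.2.2.1, H _ t1281.2.2.2.2.1⟩, ⟨H _ t1281.2.2.2.2.2.1, H _ t1281.2.2.2.2.2.2.1⟩⟩, ⟨⟨H _ t1281.2.2.2.2.2.2.2, H _ t1289.1⟩, ⟨H _ t1289.2.1, ⟨H _ t1289.2.2.1, H _ t1289.2.2.2.1⟩⟩⟩⟩⟩, ⟨⟨⟨⟨H _ t1289.2.2.2.2.1, H _ t1289.2.2.2.2.2.1⟩, ⟨H _ t1289.2.2.2.2.2.2.1, H _ t1289.2.2.2.2.2.2.2⟩⟩, ⟨⟨H _ t1297.1, H _ t1297.2.1⟩, ⟨H _ t1297.2.2.1, H _ t1297.2.2.2.1⟩⟩⟩, ⟨⟨⟨H _ t1297.2.2.2.2.1, H _ t1297.2.2.2.2.2.1⟩, ⟨H _ t1297.2.2.2.2.2.2.1, H _ t1297.2.2.2.2.2.2.2⟩⟩, ⟨⟨H _ t1305.1, H _ t1305.2.1⟩, ⟨H _ t1305.2.2.1, ⟨H _ t1305.2.2.2.1, H _ t1305.2.2.2.2.1⟩⟩⟩⟩⟩⟩, ⟨⟨⟨⟨⟨H _ t1305.2.2.2.2.2.1, H _ t1305.2.2.2.2.2.2.1⟩, ⟨H _ t1305.2.2.2.2.2.2.2, H _ t1313.1⟩⟩, ⟨⟨H _ t1313.2.1, H _ t1313.2.2.1⟩, ⟨H _ t1313.2.2.2.1, H _ t1313.2.2.2.2.1⟩⟩⟩,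 ⟨⟨⟨H _ t1313.2.2.2.2.2.1, H _ t1313.2.2.2.2.2.2.1⟩, ⟨H _ t1313.2.2.2.2.2.2.2, H _ t1321.1⟩⟩, ⟨⟨H _ t1321.2.1, H _ t1321.2.2.1⟩, ⟨H _ t1321.2.2.2.1, ⟨H _ t1321.2.2.2.2.1, H _ t1321.2.2.2.2.2.1⟩⟩⟩⟩⟩, ⟨⟨⟨⟨H _ t1321.2.2.2.2.2.2.1, H _ t1321.2.2.2.2.2.2.2⟩, ⟨H _ t1329.1, H _ t1329.2.1⟩⟩, ⟨⟨H _ t1329.2.2.1, H _ t1329.2.2.2.1⟩, ⟨H _ t1329.2.2.2.2.1, H _ t1329.2.2.2.2.2.1⟩⟩⟩, ⟨⟨⟨H _ t1329.2.2.2.2.2.2.1, H _ t1329.2.2.2.2.2.2.2⟩, ⟨H _ t1337.1, H _ t1337.2.1⟩⟩, ⟨⟨H _ t1337.2.2.1, H _ t1337.2.2.2.1⟩, ⟨H _ t1337.2.2.2.2.1, ⟨H _ t1337.2.2.2.2.2.1, H _ t1337.2.2.2.2.2.2.1⟩⟩⟩⟩⟩⟩⟩⟩⟩, ⟨⟨⟨⟨⟨⟨⟨⟨H _ t1337.2.2.2.2.2.2.2, H _ t1345.1⟩, ⟨H _ t1345.2.1, H _ t1345.2.2.1⟩⟩, ⟨⟨H _ t1345.2.2.2.1, H _ t1345.2.2.2.2.1⟩, ⟨H _ t1345.2.2.2.2.2.1, H _ t1345.2.2.2.2.2.2.1⟩⟩⟩, ⟨⟨⟨H _ t1345.2.2.2.2.2.2.2, H _ t1353.1⟩, ⟨H _ t1353.2.1, H _ t1353.2.2.1⟩⟩, ⟨⟨H _ t1353.2.2.2.1, H _ t1353.2.2.2.2.1⟩, ⟨H _ t1353.2.2.2.2.2.1,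 H _ t1353.2.2.2.2.2.2.1⟩⟩⟩⟩, ⟨⟨⟨⟨H _ t1353.2.2.2.2.2.2.2, H _ t1361.1⟩, ⟨H _ t1361.2.1, H _ t1361.2.2.1⟩⟩, ⟨⟨H _ t1361.2.2.2.1, H _ t1361.2.2.2.2.1⟩, ⟨H _ t1361.2.2.2.2.2.1, H _ t1361.2.2.2.2.2.2.1⟩⟩⟩, ⟨⟨⟨H _ t1361.2.2.2.2.2.2.2, H _ t1369.1⟩, ⟨H _ t1369.2.1, H _ t1369.2.2.1⟩⟩, ⟨⟨H _ t1369.2.2.2.1, H _ t1369.2.2.2.2.1⟩, ⟨H _ t1369.2.2.2.2.2.1, ⟨H _ t1369.2.2.2.2.2.2.1, H _ t1369.2.2.2.2.2.2.2⟩⟩⟩⟩⟩⟩, ⟨⟨⟨⟨⟨H _ t1377.1, H _ t1377.2.1⟩, ⟨H _ t1377.2.2.1, H _ t1377.2.2.2.1⟩⟩, ⟨⟨H _ t1377.2.2.2.2.1, H _ t1377.2.2.2.2.2.1⟩, ⟨H _ t1377.2.2.2.2.2.2.1, H _ t1377.2.2.2.2.2.2.2⟩⟩⟩, ⟨⟨⟨H _ t1385.1, H _ t1385.2.1⟩, ⟨H _ t1385.2.2.1, H _ t1385.2.2.2.1⟩⟩, ⟨⟨H _ t1385.2.2.2.2.1, H _ t1385.2.2.2.2.2.1⟩, ⟨H _ t1385.2.2.2.2.2.2.1, ⟨H _ t1385.2.2.2.2.2.2.2, H _ t1393.1⟩⟩⟩⟩⟩, ⟨⟨⟨⟨H _ t1393.2.1, H _ t1393.2.2.1⟩, ⟨H _ t1393.2.2.2.1, H _ t1393.2.2.2.2.1⟩⟩, ⟨⟨H _ t1393.2.2.2.2.2.1, H _ t1393.2.2.2.2.2.2.1⟩,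 ⟨H _ t1393.2.2.2.2.2.2.2, H _ t1401.1⟩⟩⟩, ⟨⟨⟨H _ t1401.2.1, H _ t1401.2.2.1⟩, ⟨H _ t1401.2.2.2.1, H _ t1401.2.2.2.2.1⟩⟩, ⟨⟨H _ t1401.2.2.2.2.2.1, H _ t1401.2.2.2.2.2.2.1⟩, ⟨H _ t1401.2.2.2.2.2.2.2, ⟨H _ t1409.1, H _ t1409.2.1⟩⟩⟩⟩⟩⟩⟩, ⟨⟨⟨⟨⟨⟨H _ t1409.2.2.1, H _ t1409.2.2.2.1⟩, ⟨H _ t1409.2.2.2.2.1, H _ t1409.2.2.2.2.2.1⟩⟩, ⟨⟨H _ t1409.2.2.2.2.2.2.1, H _ t1409.2.2.2.2.2.2.2⟩, ⟨H _ t1417.1, H _ t1417.2.1⟩⟩⟩, ⟨⟨⟨H _ t1417.2.2.1, H _ t1417.2.2.2.1⟩, ⟨H _ t1417.2.2.2.2.1, H _ t1417.2.2.2.2.2.1⟩⟩, ⟨⟨H _ t1417.2.2.2.2.2.2.1, H _ t1417.2.2.2.2.2.2.2⟩, ⟨H _ t1425.1, ⟨H _ t1425.2.1, H _ t1425.2.2.1⟩⟩⟩⟩⟩, ⟨⟨⟨⟨H _ t1425.2.2.2.1, H _ t1425.2.2.2.2.1⟩, ⟨H _ t1425.2.2.2.2.2.1, H _ t1425.2.2.2.2.2.2.1⟩⟩, ⟨⟨H _ t1425.2.2.2.2.2.2.2, H _ t1433.1⟩, ⟨H _ t1433.2.1, H _ t1433.2.2.1⟩⟩⟩, ⟨⟨⟨H _ t1433.2.2.2.1, H _ t1433.2.2.2.2.1⟩, ⟨H _ t1433.2.2.2.2.2.1, H _ t1433.2.2.2.2.2.2.1⟩⟩, ⟨⟨H _ t1433.2.2.2.2.2.2.2,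 H _ t1441.1⟩, ⟨H _ t1441.2.1, ⟨H _ t1441.2.2.1, H _ t1441.2.2.2.1⟩⟩⟩⟩⟩⟩, ⟨⟨⟨⟨⟨H _ t1441.2.2.2.2.1, H _ t1441.2.2.2.2.2.1⟩, ⟨H _ t1441.2.2.2.2.2.2.1, H _ t1441.2.2.2.2.2.2.2⟩⟩, ⟨⟨H _ t1449.1, H _ t1449.2.1⟩, ⟨H _ t1449.2.2.1, H _ t1449.2.2.2.1⟩⟩⟩, ⟨⟨⟨H _ t1449.2.2.2.2.1, H _ t1449.2.2.2.2.2.1⟩, ⟨H _ t1449.2.2.2.2.2.2.1, H _ t1449.2.2.2.2.2.2.2⟩⟩, ⟨⟨H _ t1457.1, H _ t1457.2.1⟩, ⟨H _ t1457.2.2.1, ⟨H _ t1457.2.2.2.1, H _ t1457.2.2.2.2.1⟩⟩⟩⟩⟩, ⟨⟨⟨⟨H _ t1457.2.2.2.2.2.1, H _ t1457.2.2.2.2.2.2.1⟩, ⟨H _ t1457.2.2.2.2.2.2.2, H _ t1465.1⟩⟩, ⟨⟨H _ t1465.2.1, H _ t1465.2.2.1⟩, ⟨H _ t1465.2.2.2.1, H _ t1465.2.2.2.2.1⟩⟩⟩, ⟨⟨⟨H _ t1465.2.2.2.2.2.1, H _ t1465.2.2.2.2.2.2.1⟩, ⟨H _ t1465.2.2.2.2.2.2.2, H _ t1473.1⟩⟩, ⟨⟨H _ t1473.2.1, H _ t1473.2.2.1⟩, ⟨H _ t1473.2.2.2.1, ⟨H _ t1473.2.2.2.2.1, H _ t1473.2.2.2.2.2.1⟩⟩⟩⟩⟩⟩⟩⟩, ⟨⟨⟨⟨⟨⟨⟨H _ t1473.2.2.2.2.2.2.1, H _ t1473.2.2.2.2.2.2.2⟩, ⟨H _ t1481.1,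 H _ t1481.2.1⟩⟩, ⟨⟨H _ t1481.2.2.1, H _ t1481.2.2.2.1⟩, ⟨H _ t1481.2.2.2.2.1, H _ t1481.2.2.2.2.2.1⟩⟩⟩, ⟨⟨⟨H _ t1481.2.2.2.2.2.2.1, H _ t1481.2.2.2.2.2.2.2⟩, ⟨H _ t1489.1, H _ t1489.2.1⟩⟩, ⟨⟨H _ t1489.2.2.1, H _ t1489.2.2.2.1⟩, ⟨H _ t1489.2.2.2.2.1, ⟨H _ t1489.2.2.2.2.2.1, H _ t1489.2.2.2.2.2.2.1⟩⟩⟩⟩⟩, ⟨⟨⟨⟨H _ t1489.2.2.2.2.2.2.2, H _ t1497.1⟩, ⟨H _ t1497.2.1, H _ t1497.2.2.1⟩⟩, ⟨⟨H _ t1497.2.2.2.1, H _ t1497.2.2.2.2.1⟩, ⟨H _ t1497.2.2.2.2.2.1, H _ t1497.2.2.2.2.2.2.1⟩⟩⟩, ⟨⟨⟨H _ t1497.2.2.2.2.2.2.2, H _ t1505.1⟩, ⟨H _ t1505.2.1, H _ t1505.2.2.1⟩⟩, ⟨⟨H _ t1505.2.2.2.1, H _ t1505.2.2.2.2.1⟩, ⟨H _ t1505.2.2.2.2.2.1, ⟨H _ t1505.2.2.2.2.2.2.1, H _ t1505.2.2.2.2.2.2.2⟩⟩⟩⟩⟩⟩, ⟨⟨⟨⟨⟨H _ t1513.1, H _ t1513.2.1⟩, ⟨H _ t1513.2.2.1, H _ t1513.2.2.2.1⟩⟩, ⟨⟨H _ t1513.2.2.2.2.1, H _ t1513.2.2.2.2.2.1⟩, ⟨H _ t1513.2.2.2.2.2.2.1, H _ t1513.2.2.2.2.2.2.2⟩⟩⟩, ⟨⟨⟨H _ t1521.1, H _ t1521.2.1⟩,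 ⟨H _ t1521.2.2.1, H _ t1521.2.2.2.1⟩⟩, ⟨⟨H _ t1521.2.2.2.2.1, H _ t1521.2.2.2.2.2.1⟩, ⟨H _ t1521.2.2.2.2.2.2.1, ⟨H _ t1521.2.2.2.2.2.2.2, H _ t1529.1⟩⟩⟩⟩⟩, ⟨⟨⟨⟨H _ t1529.2.1, H _ t1529.2.2.1⟩, ⟨H _ t1529.2.2.2.1, H _ t1529.2.2.2.2.1⟩⟩, ⟨⟨H _ t1529.2.2.2.2.2.1, H _ t1529.2.2.2.2.2.2.1⟩, ⟨H _ t1529.2.2.2.2.2.2.2, H _ t1537.1⟩⟩⟩, ⟨⟨⟨H _ t1537.2.1, H _ t1537.2.2.1⟩, ⟨H _ t1537.2.2.2.1, H _ t1537.2.2.2.2.1⟩⟩, ⟨⟨H _ t1537.2.2.2.2.2.1, H _ t1537.2.2.2.2.2.2.1⟩, ⟨H _ t1537.2.2.2.2.2.2.2, ⟨H _ t1545.1, H _ t1545.2.1⟩⟩⟩⟩⟩⟩⟩, ⟨⟨⟨⟨⟨⟨H _ t1545.2.2.1, H _ t1545.2.2.2.1⟩, ⟨H _ t1545.2.2.2.2.1, H _ t1545.2.2.2.2.2.1⟩⟩, ⟨⟨H _ t1545.2.2.2.2.2.2.1, H _ t1545.2.2.2.2.2.2.2⟩, ⟨H _ t1553.1, H _ t1553.2.1⟩⟩⟩, ⟨⟨⟨H _ t1553.2.2.1, H _ t1553.2.2.2.1⟩, ⟨H _ t1553.2.2.2.2.1, H _ t1553.2.2.2.2.2.1⟩⟩, ⟨⟨H _ t1553.2.2.2.2.2.2.1, H _ t1553.2.2.2.2.2.2.2⟩, ⟨H _ t1561.1, ⟨H _ t1561.2.1, H _ t1561.2.2.1⟩⟩⟩⟩⟩,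 ⟨⟨⟨⟨H _ t1561.2.2.2.1, H _ t1561.2.2.2.2.1⟩, ⟨H _ t1561.2.2.2.2.2.1, H _ t1561.2.2.2.2.2.2.1⟩⟩, ⟨⟨H _ t1561.2.2.2.2.2.2.2, H _ t1569.1⟩, ⟨H _ t1569.2.1, H _ t1569.2.2.1⟩⟩⟩, ⟨⟨⟨H _ t1569.2.2.2.1, H _ t1569.2.2.2.2.1⟩, ⟨H _ t1569.2.2.2.2.2.1, H _ t1569.2.2.2.2.2.2.1⟩⟩, ⟨⟨H _ t1569.2.2.2.2.2.2.2, H _ t1577.1⟩, ⟨H _ t1577.2.1, ⟨H _ t1577.2.2.1, H _ t1577.2.2.2.1⟩⟩⟩⟩⟩⟩, ⟨⟨⟨⟨⟨H _ t1577.2.2.2.2.1, H _ t1577.2.2.2.2.2.1⟩, ⟨H _ t1577.2.2.2.2.2.2.1, H _ t1577.2.2.2.2.2.2.2⟩⟩, ⟨⟨H _ t1585.1, H _ t1585.2.1⟩, ⟨H _ t1585.2.2.1, H _ t1585.2.2.2.1⟩⟩⟩, ⟨⟨⟨H _ t1585.2.2.2.2.1, H _ t1585.2.2.2.2.2.1⟩, ⟨H _ t1585.2.2.2.2.2.2.1, H _ t1585.2.2.2.2.2.2.2⟩⟩, ⟨⟨H _ t1593.1, H _ t1593.2.1⟩, ⟨H _ t1593.2.2.1, ⟨H _ t1593.2.2.2.1, H _ t1593.2.2.2.2.1⟩⟩⟩⟩⟩, ⟨⟨⟨⟨H _ t1593.2.2.2.2.2.1, H _ t1593.2.2.2.2.2.2.1⟩, ⟨H _ t1593.2.2.2.2.2.2.2, H _ t1601.1⟩⟩, ⟨⟨H _ t1601.2.1, H _ t1601.2.2.1⟩, ⟨H _ t1601.2.2.2.1,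 H _ t1601.2.2.2.2.1⟩⟩⟩, ⟨⟨⟨H _ t1601.2.2.2.2.2.1, H _ t1601.2.2.2.2.2.2.1⟩, ⟨H _ t1601.2.2.2.2.2.2.2, H _ t1609.1⟩⟩, ⟨⟨H _ t1609.2.1, H _ t1609.2.2.1⟩, ⟨H _ t1609.2.2.2.1, ⟨H _ t1609.2.2.2.2.1, H _ t1609.2.2.2.2.2⟩⟩⟩⟩⟩⟩⟩⟩⟩⟩

end Pool.Agent.MP_c853c5_nt.X.C4950
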