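import Pool.Agent.MP_c853c5_nt.X.C4950.Env
import Pool.Agent.MP_c853c5_nt.X.C4950.D4

set_option autoImplicit false
set_option maxRecDepth 8192
set_option linter.all false

namespace Pool.Agent.MP_c853c5_nt.X.C4950

open Pool.Agent.MP_c853c5_nt.X

def t11191 : allY (E.wth (lkp [])) l11191 = true ∧
    allY (E.wth (lkp [])) l11192 = true ∧
    allY (E.wth (lkp [])) l11193 = true ∧
    allY (E.wth (lkp [])) l11194 = true ∧
    allY (E.wth (lkp [])) l11195 = true ∧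
    allY (E.wth (lkp [])) l11196 = true ∧
    allY (E.wth (lkp [])) l11197 = true ∧
    allY (E.wth (lkp [])) l11198 = true :=
  ⟨by decide +kernel, by decide +kernel, by decide +kernel, by decide +kernel, by decide +kernel, by decide +kernel, by decide +kernel, by decide +kernel⟩

def t11199 : allY (E.wth (lkp [])) l11199 = true ∧
    allY (E.wth (lkp [])) l11200 = true ∧
    allY (E.wth (lkp [])) l11201 = true ∧
    allY (E.wth (lkp [])) l11202 = true ∧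
    allY (E.wth (lkp [])) l11203 = true ∧
    allY (E.wth (lkp [])) l11204 = true ∧
    allY (E.wth (lkp [])) l11205 = true ∧
    allY (E.wth (lkp [])) l11206 = true :=
  ⟨by decide +kernel, by decide +kernel, by decide +kernel, by decide +kernel, by decide +kernel, by decide +kernel, by decide +kernel, by decide +kernel⟩

def t11207 : allY (E.wth (lkp [])) l11207 = true ∧
    allY (E.wth (lkp [])) l11208 = true ∧
    allY (E.wth (lkp [])) l11209 = true ∧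
    allY (E.wth (lkp [])) l11210 = true ∧
    allY (E.wth (lkp [])) l11211 = true ∧
    allY (E.wth (lkp [])) l11212 = true ∧
    allY (E.wth (lkp [])) l11213 = true ∧
    allY (E.wth (lkp [])) l11214 = true :=
  ⟨by decide +kernel, by decide +kernel, by decide +kernel, by decide +kernel, by decide +kernel, by decide +kernel, by decide +kernel, by decide +kernel⟩

def t11215 : allY (E.wth (lkp [])) l11215 = true ∧
    allY (E.wth (lkp [])) l11216 = true ∧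
    allY (E.wth (lkp [])) l11217 = true ∧
    allY (E.wth (lkp [])) l11218 = true ∧
    allY (E.wth (lkp [])) l11219 = true ∧
    allY (E.wth (lkp [])) l11220 = true ∧
    allY (E.wth (lkp [])) l11221 = true ∧
    allY (E.wth (lkp [])) l11222 = true :=
  ⟨by decide +kernel, by decide +kernel, by decide +kernel, by decide +kernel, by decide +kernel, by decide +kernel, by decide +kernel, by decide +kernel⟩

def t11223 : allY (E.wth (lkp [])) l11223 = true ∧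
    allY (E.wth (lkp [])) l11224 = true ∧
    allY (E.wth (lkp [])) l11225 = true ∧
    allY (E.wth (lkp [])) l11226 = true ∧
    allY (E.wth (lkp [])) l11227 = true ∧
    allY (E.wth (lkp [])) l11228 = true ∧
    allY (E.wth (lkp [])) l11229 = true ∧
    allY (E.wth (lkp [])) l11230 = true :=
  ⟨by decide +kernel, by decide +kernel, by decide +kernel, by decide +kernel, by decide +kernel, by decide +kernel, by decide +kernel, by decide +kernel⟩

def t11231 : allY (E.wth (lkp [])) l11231 = true ∧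
    allY (E.wth (lkp [])) l11232 = true ∧
    allY (E.wth (lkp [])) l11233 = true ∧
    allY (E.wth (lkp [])) l11234 = true ∧
    allY (E.wth (lkp [])) l11235 = true ∧
    allY (E.wth (lkp [])) l11236 = true ∧
    allY (E.wth (lkp [])) l11237 = true ∧
    allY (E.wth (lkp [])) l11238 = true :=
  ⟨by decide +kernel, by decide +kernel, by decide +kernel, by decide +kernel, by decide +kernel, by decide +kernel, by decide +kernel, by decide +kernel⟩

def t11239 : allY (E.wth (lkp [])) l11239 = true ∧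
    allY (E.wth (lkp [])) l11240 = true ∧
    allY (E.wth (lkp [])) l11241 = true ∧
    allY (E.wth (lkp [])) l11242 = true ∧
    allY (E.wth (lkp [])) l11243 = true ∧
    allY (E.wth (lkp [])) l11244 = true ∧
    allY (E.wth (lkp [])) l11245 = true ∧
    allY (E.wth (lkp [])) l11246 = true :=
  ⟨by decide +kernel, by decide +kernel, by decide +kernel, by decide +kernel, by decide +kernel, by decide +kernel, by decide +kernel, by decide +kernel⟩

def t11247 : allY (E.wth (lkp [])) l11247 = true ∧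
    allY (E.wth (lkp [])) l11248 = true ∧
    allY (E.wth (lkp [])) l11249 = true ∧
    allY (E.wth (lkp [])) l11250 = true ∧
    allY (E.wth (lkp [])) l11251 = true ∧
    allY (E.wth (lkp [])) l11252 = true ∧
    allY (E.wth (lkp [])) l11253 = true ∧
    allY (E.wth (lkp [])) l11254 = true :=
  ⟨by decide +kernel, by decide +kernel, by decide +kernel, by decide +kernel, by decide +kernel, by decide +kernel, by decide +kernel, by decide +kernel⟩

def t11255 : allY (E.wth (lkp [])) l11255 = true ∧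
    allY (E.wth (lkp [])) l11256 = true ∧
    allY (E.wth (lkp [])) l11257 = true ∧
    allY (E.wth (lkp [])) l11258 = true ∧
    allY (E.wth (lkp [])) l11259 = true ∧
    allY (E.wth (lkp [])) l11260 = true ∧
    allY (E.wth (lkp [])) l11261 = true ∧
    allY (E.wth (lkp [])) l11262 = true :=
  ⟨by decide +kernel, by decide +kernel, by decide +kernel, by decide +kernel, by decide +kernel, by decide +kernel, by decide +kernel, by decide +kernel⟩

def t11263 : allY (E.wth (lkp [])) l11263 = true ∧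
    allY (E.wth (lkp [])) l11264 = true ∧
    allY (E.wth (lkp [])) l11265 = true ∧
    allY (E.wth (lkp [])) l11266 = true ∧
    allY (E.wth (lkp [])) l11267 = true ∧
    allY (E.wth (lkp [])) l11268 = true ∧
    allY (E.wth (lkp [])) l11269 = true ∧
    allY (E.wth (lkp [])) l11270 = true :=
  ⟨by decide +kernel, by decide +kernel, by decide +kernel, by decide +kernel, by decide +kernel, by decide +kernel, by decide +kernel, by decide +kernel⟩

def t11271 : allY (E.wth (lkp [])) l11271 = true ∧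
    allY (E.wth (lkp [])) l11272 = true ∧
    allY (E.wth (lkp [])) l11273 = true ∧
    allY (E.wth (lkp [])) l11274 = true ∧
    allY (E.wth (lkp [])) l11275 = true ∧
    allY (E.wth (lkp [])) l11276 = true ∧
    allY (E.wth (lkp [])) l11277 = true ∧
    allY (E.wth (lkp [])) l11278 = true :=
  ⟨by decide +kernel, by decide +kernel, by decide +kernel, by decide +kernel, by decide +kernel, by decide +kernel, by decide +kernel, by decide +kernel⟩

def t11279 : allY (E.wth (lkp [])) l11279 = true ∧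
    allY (E.wth (lkp [])) l11280 = true ∧
    allY (E.wth (lkp [])) l11281 = true ∧
    allY (E.wth (lkp [])) l11282 = true ∧
    allY (E.wth (lkp [])) l11283 = true ∧
    allY (E.wth (lkp [])) l11284 = true ∧
    allY (E.wth (lkp [])) l11285 = true ∧
    allY (E.wth (lkp [])) l11286 = true :=
  ⟨by decide +kernel, by decide +kernel, by decide +kernel, by decide +kernel, by decide +kernel, by decide +kernel, by decide +kernel, by decide +kernel⟩

def t11287 : allY (E.wth (lkp [])) l11287 = true ∧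
    allY (E.wth (lkp [])) l11288 = true ∧
    allY (E.wth (lkp [])) l11289 = true ∧
    allY (E.wth (lkp [])) l11290 = true ∧
    allY (E.wth (lkp [])) l11291 = true ∧
    allY (E.wth (lkp [])) l11292 = true ∧
    allY (E.wth (lkp [])) l11293 = true ∧
    allY (E.wth (lkp [])) l11294 = true :=
  ⟨by decide +kernel, by decide +kernel, by decide +kernel, by decide +kernel, by decide +kernel, by decide +kernel, by decide +kernel, by decide +kernel⟩

def t11295 : allY (E.wth (lkp [])) l11295 = true ∧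
    allY (E.wth (lkp [])) l11296 = true ∧
    allY (E.wth (lkp [])) l11297 = true ∧
    allY (E.wth (lkp [])) l11298 = true ∧
    allY (E.wth (lkp [])) l11299 = true ∧
    allY (E.wth (lkp [])) l11300 = true ∧
    allY (E.wth (lkp [])) l11301 = true ∧
    allY (E.wth (lkp [])) l11302 = true :=
  ⟨by decide +kernel, by decide +kernel, by decide +kernel, by decide +kernel, by decide +kernel, by decide +kernel, by decide +kernel, by decide +kernel⟩

def t11303 : allY (E.wth (lkp [])) l11303 = true ∧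
    allY (E.wth (lkp [])) l11304 = true ∧
    allY (E.wth (lkp [])) l11305 = true ∧
    allY (E.wth (lkp [])) l11306 = true ∧
    allY (E.wth (lkp [])) l11307 = true ∧
    allY (E.wth (lkp [])) l11308 = true ∧
    allY (E.wth (lkp [])) l11309 = true ∧
    allY (E.wth (lkp [])) l11310 = true :=
  ⟨by decide +kernel, by decide +kernel, by decide +kernel, by decide +kernel, by decide +kernel, by decide +kernel, by decide +kernel, by decide +kernel⟩

def t11311 : allY (E.wth (lkp [])) l11311 = true ∧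
    allY (E.wth (lkp [])) l11312 = true ∧
    allY (E.wth (lkp [])) l11313 = true ∧
    allY (E.wth (lkp [])) l11314 = true ∧
    allY (E.wth (lkp [])) l11315 = true ∧
    allY (E.wth (lkp [])) l11316 = true ∧
    allY (E.wth (lkp [])) l11317 = true ∧
    allY (E.wth (lkp [])) l11318 = true :=
  ⟨by decide +kernel, by decide +kernel, by decide +kernel, by decide +kernel, by decide +kernel, by decide +kernel, by decide +kernel, by decide +kernel⟩

def t11319 : allY (E.wth (lkp [])) l11319 = true ∧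
    allY (E.wth (lkp [])) l11320 = true ∧
    allY (E.wth (lkp [])) l11321 = true ∧
    allY (E.wth (lkp [])) l11322 = true ∧
    allY (E.wth (lkp [])) l11323 = true ∧
    allY (E.wth (lkp [])) l11324 = true ∧
    allY (E.wth (lkp [])) l11325 = true ∧
    allY (E.wth (lkp [])) l11326 = true :=
  ⟨by decide +kernel, by decide +kernel, by decide +kernel, by decide +kernel, by decide +kernel, by decide +kernel, by decide +kernel, by decide +kernel⟩

def t11327 : allY (E.wth (lkp [])) l11327 = true ∧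
    allY (E.wth (lkp [])) l11328 = true ∧
    allY (E.wth (lkp [])) l11329 = true ∧
    allY (E.wth (lkp [])) l11330 = true ∧
    allY (E.wth (lkp [])) l11331 = true ∧
    allY (E.wth (lkp [])) l11332 = true ∧
    allY (E.wth (lkp [])) l11333 = true ∧
    allY (E.wth (lkp [])) l11334 = true :=
  ⟨by decide +kernel, by decide +kernel, by decide +kernel, by decide +kernel, by decide +kernel, by decide +kernel, by decide +kernel, by decide +kernel⟩

def t11335 : allY (E.wth (lkp [])) l11335 = true ∧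
    allY (E.wth (lkp [])) l11336 = true ∧
    allY (E.wth (lkp [])) l11337 = true ∧
    allY (E.wth (lkp [])) l11338 = true ∧
    allY (E.wth (lkp [])) l11339 = true ∧
    allY (E.wth (lkp [])) l11340 = true ∧
    allY (E.wth (lkp [])) l11341 = true ∧
    allY (E.wth (lkp [])) l11342 = true :=
  ⟨by decide +kernel, by decide +kernel, by decide +kernel, by decide +kernel, by decide +kernel, by decide +kernel, by decide +kernel, by decide +kernel⟩

def t11343 : allY (E.wth (lkp [])) l11343 = true ∧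
    allY (E.wth (lkp [])) l11344 = true ∧
    allY (E.wth (lkp [])) l11345 = true ∧
    allY (E.wth (lkp [])) l11346 = true ∧
    allY (E.wth (lkp [])) l11347 = true ∧
    allY (E.wth (lkp [])) l11348 = true ∧
    allY (E.wth (lkp [])) l11349 = true ∧
    allY (E.wth (lkp [])) l11350 = true :=
  ⟨by decide +kernel, by decide +kernel, by decide +kernel, by decide +kernel, by decide +kernel, by decide +kernel, by decide +kernel, by decide +kernel⟩

def t11351 : allY (E.wth (lkp [])) l11351 = true ∧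
    allY (E.wth (lkp [])) l11352 = true ∧
    allY (E.wth (lkp [])) l11353 = true ∧
    allY (E.wth (lkp [])) l11354 = true ∧
    allY (E.wth (lkp [])) l11355 = true ∧
    allY (E.wth (lkp [])) l11356 = true ∧
    allY (E.wth (lkp [])) l11357 = true ∧
    allY (E.wth (lkp [])) l11358 = true :=
  ⟨by decide +kernel, by decide +kernel, by decide +kernel, by decide +kernel, by decide +kernel, by decide +kernel, by decide +kernel, by decide +kernel⟩

def t11359 : allY (E.wth (lkp [])) l11359 = true ∧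
    allY (E.wth (lkp [])) l11360 = true ∧
    allY (E.wth (lkp [])) l11361 = true ∧
    allY (E.wth (lkp [])) l11362 = true ∧
    allY (E.wth (lkp [])) l11363 = true ∧
    allY (E.wth (lkp [])) l11364 = true ∧
    allY (E.wth (lkp [])) l11365 = true ∧
    allY (E.wth (lkp [])) l11366 = true :=
  ⟨by decide +kernel, by decide +kernel, by decide +kernel, by decide +kernel, by decide +kernel, by decide +kernel, by decide +kernel, by decide +kernel⟩

def t11367 : allY (E.wth (lkp [])) l11367 = true ∧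
    allY (E.wth (lkp [])) l11368 = true ∧
    allY (E.wth (lkp [])) l11369 = true ∧
    allY (E.wth (lkp [])) l11370 = true ∧
    allY (E.wth (lkp [])) l11371 = true ∧
    allY (E.wth (lkp [])) l11372 = true ∧
    allY (E.wth (lkp [])) l11373 = true ∧
    allY (E.wth (lkp [])) l11374 = true :=
  ⟨by decide +kernel, by decide +kernel, by decide +kernel, by decide +kernel, by decide +kernel, by decide +kernel, by decide +kernel, by decide +kernel⟩

def t11375 : allY (E.wth (lkp [])) l11375 = true ∧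
    allY (E.wth (lkp [])) l11376 = true ∧
    allY (E.wth (lkp [])) l11377 = true ∧
    allY (E.wth (lkp [])) l11378 = true ∧
    allY (E.wth (lkp [])) l11379 = true ∧
    allY (E.wth (lkp [])) l11380 = true ∧
    allY (E.wth (lkp [])) l11381 = true ∧
    allY (E.wth (lkp [])) l11382 = true :=
  ⟨by decide +kernel, by decide +kernel, by decide +kernel, by decide +kernel, by decide +kernel, by decide +kernel, by decide +kernel, by decide +kernel⟩

def t11383 : allY (E.wth (lkp [])) l11383 = true ∧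
    allY (E.wth (lkp [])) l11384 = true ∧
    allY (E.wth (lkp [])) l11385 = true ∧
    allY (E.wth (lkp [])) l11386 = true ∧
    allY (E.wth (lkp [])) l11387 = true ∧
    allY (E.wth (lkp [])) l11388 = true ∧
    allY (E.wth (lkp [])) l11389 = true ∧
    allY (E.wth (lkp [])) l11390 = true :=
  ⟨by decide +kernel, by decide +kernel, by decide +kernel, by decide +kernel, by decide +kernel, by decide +kernel, by decide +kernel, by decide +kernel⟩

def t11391 : allY (E.wth (lkp [])) l11391 = true ∧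
    allY (E.wth (lkp [])) l11392 = true ∧
    allY (E.wth (lkp [])) l11393 = true ∧
    allY (E.wth (lkp [])) l11394 = true ∧
    allY (E.wth (lkp [])) l11395 = true ∧
    allY (E.wth (lkp [])) l11396 = true ∧
    allY (E.wth (lkp [])) l11397 = true ∧
    allY (E.wth (lkp [])) l11398 = true :=
  ⟨by decide +kernel, by decide +kernel, by decide +kernel, by decide +kernel, by decide +kernel, by decide +kernel, by decide +kernel, by decide +kernel⟩

def t11399 : allY (E.wth (lkp [])) l11399 = true ∧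
    allY (E.wth (lkp [])) l11400 = true ∧
    allY (E.wth (lkp [])) l11401 = true ∧
    allY (E.wth (lkp [])) l11402 = true ∧
    allY (E.wth (lkp [])) l11403 = true ∧
    allY (E.wth (lkp [])) l11404 = true ∧
    allY (E.wth (lkp [])) l11405 = true ∧
    allY (E.wth (lkp [])) l11406 = true :=
  ⟨by decide +kernel, by decide +kernel, by decide +kernel, by decide +kernel, by decide +kernel, by decide +kernel, by decide +kernel, by decide +kernel⟩

def t11407 : allY (E.wth (lkp [])) l11407 = true ∧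
    allY (E.wth (lkp [])) l11408 = true ∧
    allY (E.wth (lkp [])) l11409 = true ∧
    allY (E.wth (lkp [])) l11410 = true ∧
    allY (E.wth (lkp [])) l11411 = true ∧
    allY (E.wth (lkp [])) l11412 = true ∧
    allY (E.wth (lkp [])) l11413 = true ∧
    allY (E.wth (lkp [])) l11414 = true :=
  ⟨by decide +kernel, by decide +kernel, by decide +kernel, by decide +kernel, by decide +kernel, by decide +kernel, by decide +kernel, by decide +kernel⟩

def t11415 : allY (E.wth (lkp [])) l11415 = true ∧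
    allY (E.wth (lkp [])) l11416 = true ∧
    allY (E.wth (lkp [])) l11417 = true ∧
    allY (E.wth (lkp [])) l11418 = true ∧
    allY (E.wth (lkp [])) l11419 = true ∧
    allY (E.wth (lkp [])) l11420 = true ∧
    allY (E.wth (lkp [])) l11421 = true ∧
    allY (E.wth (lkp [])) l11422 = true :=
  ⟨by decide +kernel, by decide +kernel, by decide +kernel, by decide +kernel, by decide +kernel, by decide +kernel, by decide +kernel, by decide +kernel⟩

def t11423 : allY (E.wth (lkp [])) l11423 = true ∧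
    allY (E.wth (lkp [])) l11424 = true ∧
    allY (E.wth (lkp [])) l11425 = true ∧
    allY (E.wth (lkp [])) l11426 = true ∧
    allY (E.wth (lkp [])) l11427 = true ∧
    allY (E.wth (lkp [])) l11428 = true ∧
    allY (E.wth (lkp [])) l11429 = true ∧
    allY (E.wth (lkp [])) l11430 = true :=
  ⟨by decide +kernel, by decide +kernel, by decide +kernel, by decide +kernel, by decide +kernel, by decide +kernel, by decide +kernel, by decide +kernel⟩

def t11431 : allY (E.wth (lkp [])) l11431 = true ∧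
    allY (E.wth (lkp [])) l11432 = true ∧
    allY (E.wth (lkp [])) l11433 = true ∧
    allY (E.wth (lkp [])) l11434 = true ∧
    allY (E.wth (lkp [])) l11435 = true ∧
    allY (E.wth (lkp [])) l11436 = true ∧
    allY (E.wth (lkp [])) l11437 = true ∧
    allY (E.wth (lkp [])) l11438 = true :=
  ⟨by decide +kernel, by decide +kernel, by decide +kernel, by decide +kernel, by decide +kernel, by decide +kernel, by decide +kernel, by decide +kernel⟩

def t11439 : allY (E.wth (lkp [])) l11439 = true ∧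
    allY (E.wth (lkp [])) l11440 = true ∧
    allY (E.wth (lkp [])) l11441 = true ∧
    allY (E.wth (lkp [])) l11442 = true ∧
    allY (E.wth (lkp [])) l11443 = true ∧
    allY (E.wth (lkp [])) l11444 = true ∧
    allY (E.wth (lkp [])) l11445 = true ∧
    allY (E.wth (lkp [])) l11446 = true :=
  ⟨by decide +kernel, by decide +kernel, by decide +kernel, by decide +kernel, by decide +kernel, by decide +kernel, by decide +kernel, by decide +kernel⟩

def t11447 : allY (E.wth (lkp [])) l11447 = true ∧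
    allY (E.wth (lkp [])) l11448 = true ∧
    allY (E.wth (lkp [])) l11449 = true ∧
    allY (E.wth (lkp [])) l11450 = true ∧
    allY (E.wth (lkp [])) l11451 = true ∧
    allY (E.wth (lkp [])) l11452 = true ∧
    allY (E.wth (lkp [])) l11453 = true ∧
    allY (E.wth (lkp [])) l11454 = true :=
  ⟨by decide +kernel, by decide +kernel, by decide +kernel, by decide +kernel, by decide +kernel, by decide +kernel, by decide +kernel, by decide +kernel⟩

def t11455 : allY (E.wth (lkp [])) l11455 = true ∧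
    allY (E.wth (lkp [])) l11456 = true ∧
    allY (E.wth (lkp [])) l11457 = true ∧
    allY (E.wth (lkp [])) l11458 = true ∧
    allY (E.wth (lkp [])) l11459 = true ∧
    allY (E.wth (lkp [])) l11460 = true ∧
    allY (E.wth (lkp [])) l11461 = true ∧
    allY (E.wth (lkp [])) l11462 = true :=
  ⟨by decide +kernel, by decide +kernel, by decide +kernel, by decide +kernel, by decide +kernel, by decide +kernel, by decide +kernel, by decide +kernel⟩

def t11463 : allY (E.wth (lkp [])) l11463 = true ∧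
    allY (E.wth (lkp [])) l11464 = true ∧
    allY (E.wth (lkp [])) l11465 = true ∧
    allY (E.wth (lkp [])) l11466 = true ∧
    allY (E.wth (lkp [])) l11467 = true ∧
    allY (E.wth (lkp [])) l11468 = true ∧
    allY (E.wth (lkp [])) l11469 = true ∧
    allY (E.wth (lkp [])) l11470 = true :=
  ⟨by decide +kernel, by decide +kernel, by decide +kernel, by decide +kernel, by decide +kernel, by decide +kernel, by decide +kernel, by decide +kernel⟩

def t11471 : allY (E.wth (lkp [])) l11471 = true ∧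
    allY (E.wth (lkp [])) l11472 = true ∧
    allY (E.wth (lkp [])) l11473 = true ∧
    allY (E.wth (lkp [])) l11474 = true ∧
    allY (E.wth (lkp [])) l11475 = true ∧
    allY (E.wth (lkp [])) l11476 = true ∧
    allY (E.wth (lkp [])) l11477 = true ∧
    allY (E.wth (lkp [])) l11478 = true :=
  ⟨by decide +kernel, by decide +kernel, by decide +kernel, by decide +kernel, by decide +kernel, by decide +kernel, by decide +kernel, by decide +kernel⟩

def t11479 : allY (E.wth (lkp [])) l11479 = true ∧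
    allY (E.wth (lkp [])) l11480 = true ∧
    allY (E.wth (lkp [])) l11481 = true ∧
    allY (E.wth (lkp [])) l11482 = true ∧
    allY (E.wth (lkp [])) l11483 = true ∧
    allY (E.wth (lkp [])) l11484 = true ∧
    allY (E.wth (lkp [])) l11485 = true ∧
    allY (E.wth (lkp [])) l11486 = true :=
  ⟨by decide +kernel, by decide +kernel, by decide +kernel, by decide +kernel, by decide +kernel, by decide +kernel, by decide +kernel, by decide +kernel⟩

def t11487 : allY (E.wth (lkp [])) l11487 = true ∧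
    allY (E.wth (lkp [])) l11488 = true ∧
    allY (E.wth (lkp [])) l11489 = true ∧
    allY (E.wth (lkp [])) l11490 = true ∧
    allY (E.wth (lkp [])) l11491 = true ∧
    allY (E.wth (lkp [])) l11492 = true ∧
    allY (E.wth (lkp [])) l11493 = true ∧
    allY (E.wth (lkp [])) l11494 = true :=
  ⟨by decide +kernel, by decide +kernel, by decide +kernel, by decide +kernel, by decide +kernel, by decide +kernel, by decide +kernel, by decide +kernel⟩

def t11495 : allY (E.wth (lkp [])) l11495 = true ∧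
    allY (E.wth (lkp [])) l11496 = true ∧
    allY (E.wth (lkp [])) l11497 = true ∧
    allY (E.wth (lkp [])) l11498 = true ∧
    allY (E.wth (lkp [])) l11499 = true ∧
    allY (E.wth (lkp [])) l11500 = true ∧
    allY (E.wth (lkp [])) l11501 = true ∧
    allY (E.wth (lkp [])) l11502 = true :=
  ⟨by decide +kernel, by decide +kernel, by decide +kernel, by decide +kernel, by decide +kernel, by decide +kernel, by decide +kernel, by decide +kernel⟩

def t11503 : allY (E.wth (lkp [])) l11503 = true ∧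
    allY (E.wth (lkp [])) l11504 = true ∧
    allY (E.wth (lkp [])) l11505 = true ∧
    allY (E.wth (lkp [])) l11506 = true ∧
    allY (E.wth (lkp [])) l11507 = true ∧
    allY (E.wth (lkp [])) l11508 = true ∧
    allY (E.wth (lkp [])) l11509 = true ∧
    allY (E.wth (lkp [])) l11510 = true :=
  ⟨by decide +kernel, by decide +kernel, by decide +kernel, by decide +kernel, by decide +kernel, by decide +kernel, by decide +kernel, by decide +kernel⟩

def t11511 : allY (E.wth (lkp [])) l11511 = true ∧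
    allY (E.wth (lkp [])) l11512 = true ∧
    allY (E.wth (lkp [])) l11513 = true ∧
    allY (E.wth (lkp [])) l11514 = true ∧
    allY (E.wth (lkp [])) l11515 = true ∧
    allY (E.wth (lkp [])) l11516 = true ∧
    allY (E.wth (lkp [])) l11517 = true ∧
    allY (E.wth (lkp [])) l11518 = true :=
  ⟨by decide +kernel, by decide +kernel, by decide +kernel, by decide +kernel, by decide +kernel, by decide +kernel, by decide +kernel, by decide +kernel⟩

def t11519 : allY (E.wth (lkp [])) l11519 = true ∧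
    allY (E.wth (lkp [])) l11520 = true ∧
    allY (E.wth (lkp [])) l11521 = true ∧
    allY (E.wth (lkp [])) l11522 = true ∧
    allY (E.wth (lkp [])) l11523 = true ∧
    allY (E.wth (lkp [])) l11524 = true ∧
    allY (E.wth (lkp [])) l11525 = true ∧
    allY (E.wth (lkp [])) l11526 = true :=
  ⟨by decide +kernel, by decide +kernel, by decide +kernel, by decide +kernel, by decide +kernel, by decide +kernel, by decide +kernel, by decide +kernel⟩

def t11527 : allY (E.wth (lkp [])) l11527 = true ∧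
    allY (E.wth (lkp [])) l11528 = true ∧
    allY (E.wth (lkp [])) l11529 = true ∧
    allY (E.wth (lkp [])) l11530 = true ∧
    allY (E.wth (lkp [])) l11531 = true ∧
    allY (E.wth (lkp [])) l11532 = true ∧
    allY (E.wth (lkp [])) l11533 = true ∧
    allY (E.wth (lkp [])) l11534 = true :=
  ⟨by decide +kernel, by decide +kernel, by decide +kernel, by decide +kernel, by decide +kernel, by decide +kernel, by decide +kernel, by decide +kernel⟩

def t11535 : allY (E.wth (lkp [])) l11535 = true ∧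
    allY (E.wth (lkp [])) l11536 = true ∧
    allY (E.wth (lkp [])) l11537 = true ∧
    allY (E.wth (lkp [])) l11538 = true ∧
    allY (E.wth (lkp [])) l11539 = true ∧
    allY (E.wth (lkp [])) l11540 = true ∧
    allY (E.wth (lkp [])) l11541 = true ∧
    allY (E.wth (lkp [])) l11542 = true :=
  ⟨by decide +kernel, by decide +kernel, by decide +kernel, by decide +kernel, by decide +kernel, by decide +kernel, by decide +kernel, by decide +kernel⟩

def t11543 : allY (E.wth (lkp [])) l11543 = true ∧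
    allY (E.wth (lkp [])) l11544 = true ∧
    allY (E.wth (lkp [])) l11545 = true ∧
    allY (E.wth (lkp [])) l11546 = true ∧
    allY (E.wth (lkp [])) l11547 = true ∧
    allY (E.wth (lkp [])) l11548 = true ∧
    allY (E.wth (lkp [])) l11549 = true ∧
    allY (E.wth (lkp [])) l11550 = true :=
  ⟨by decide +kernel, by decide +kernel, by decide +kernel, by decide +kernel, by decide +kernel, by decide +kernel, by decide +kernel, by decide +kernel⟩

def t11551 : allY (E.wth (lkp [])) l11551 = true ∧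
    allY (E.wth (lkp [])) l11552 = true ∧
    allY (E.wth (lkp [])) l11553 = true ∧
    allY (E.wth (lkp [])) l11554 = true ∧
    allY (E.wth (lkp [])) l11555 = true ∧
    allY (E.wth (lkp [])) l11556 = true ∧
    allY (E.wth (lkp [])) l11557 = true ∧
    allY (E.wth (lkp [])) l11558 = true :=
  ⟨by decide +kernel, by decide +kernel, by decide +kernel, by decide +kernel, by decide +kernel, by decide +kernel, by decide +kernel, by decide +kernel⟩

def t11559 : allY (E.wth (lkp [])) l11559 = true ∧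
    allY (E.wth (lkp [])) l11560 = true ∧
    allY (E.wth (lkp [])) l11561 = true ∧
    allY (E.wth (lkp [])) l11562 = true ∧
    allY (E.wth (lkp [])) l11563 = true ∧
    allY (E.wth (lkp [])) l11564 = true ∧
    allY (E.wth (lkp [])) l11565 = true ∧
    allY (E.wth (lkp [])) l11566 = true :=
  ⟨by decide +kernel, by decide +kernel, by decide +kernel, by decide +kernel, by decide +kernel, by decide +kernel, by decide +kernel, by decide +kernel⟩

def t11567 : allY (E.wth (lkp [])) l11567 = true ∧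
    allY (E.wth (lkp [])) l11568 = true ∧
    allY (E.wth (lkp [])) l11569 = true ∧
    allY (E.wth (lkp [])) l11570 = true ∧
    allY (E.wth (lkp [])) l11571 = true ∧
    allY (E.wth (lkp [])) l11572 = true ∧
    allY (E.wth (lkp [])) l11573 = true ∧
    allY (E.wth (lkp [])) l11574 = true :=
  ⟨by decide +kernel, by decide +kernel, by decide +kernel, by decide +kernel, by decide +kernel, by decide +kernel, by decide +kernel, by decide +kernel⟩

def t11575 : allY (E.wth (lkp [])) l11575 = true ∧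
    allY (E.wth (lkp [])) l11576 = true ∧
    allY (E.wth (lkp [])) l11577 = true ∧
    allY (E.wth (lkp [])) l11578 = true ∧
    allY (E.wth (lkp [])) l11579 = true ∧
    allY (E.wth (lkp [])) l11580 = true ∧
    allY (E.wth (lkp [])) l11581 = true ∧
    allY (E.wth (lkp [])) l11582 = true :=
  ⟨by decide +kernel, by decide +kernel, by decide +kernel, by decide +kernel, by decide +kernel, by decide +kernel, by decide +kernel, by decide +kernel⟩

def t11583 : allY (E.wth (lkp [])) l11583 = true ∧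
    allY (E.wth (lkp [])) l11584 = true ∧
    allY (E.wth (lkp [])) l11585 = true ∧
    allY (E.wth (lkp [])) l11586 = true ∧
    allY (E.wth (lkp [])) l11587 = true ∧
    allY (E.wth (lkp [])) l11588 = true ∧
    allY (E.wth (lkp [])) l11589 = true ∧
    allY (E.wth (lkp [])) l11590 = true :=
  ⟨by decide +kernel, by decide +kernel, by decide +kernel, by decide +kernel, by decide +kernel, by decide +kernel, by decide +kernel, by decide +kernel⟩

def t11591 : allY (E.wth (lkp [])) l11591 = true ∧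
    allY (E.wth (lkp [])) l11592 = true ∧
    allY (E.wth (lkp [])) l11593 = true ∧
    allY (E.wth (lkp [])) l11594 = true ∧
    allY (E.wth (lkp [])) l11595 = true ∧
    allY (E.wth (lkp [])) l11596 = true ∧
    allY (E.wth (lkp [])) l11597 = true ∧
    allY (E.wth (lkp [])) l11598 = true :=
  ⟨by decide +kernel, by decide +kernel, by decide +kernel, by decide +kernel, by decide +kernel, by decide +kernel, by decide +kernel, by decide +kernel⟩

def t11599 : allY (E.wth (lkp [])) l11599 = true ∧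
    allY (E.wth (lkp [])) l11600 = true ∧
    allY (E.wth (lkp [])) l11601 = true ∧
    allY (E.wth (lkp [])) l11602 = true ∧
    allY (E.wth (lkp [])) l11603 = true ∧
    allY (E.wth (lkp [])) l11604 = true ∧
    allY (E.wth (lkp [])) l11605 = true ∧
    allY (E.wth (lkp [])) l11606 = true :=
  ⟨by decide +kernel, by decide +kernel, by decide +kernel, by decide +kernel, by decide +kernel, by decide +kernel, by decide +kernel, by decide +kernel⟩

def t11607 : allY (E.wth (lkp [])) l11607 = true ∧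
    allY (E.wth (lkp [])) l11608 = true ∧
    allY (E.wth (lkp [])) l11609 = true ∧
    allY (E.wth (lkp [])) l11610 = true ∧
    allY (E.wth (lkp [])) l11611 = true ∧
    allY (E.wth (lkp [])) l11612 = true ∧
    allY (E.wth (lkp [])) l11613 = true ∧
    allY (E.wth (lkp [])) l11614 = true :=
  ⟨by decide +kernel, by decide +kernel, by decide +kernel, by decide +kernel, by decide +kernel, by decide +kernel, by decide +kernel, by decide +kernel⟩

def t11615 : allY (E.wth (lkp [])) l11615 = true ∧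
    allY (E.wth (lkp [])) l11616 = true ∧
    allY (E.wth (lkp [])) l11617 = true ∧
    allY (E.wth (lkp [])) l11618 = true ∧
    allY (E.wth (lkp [])) l11619 = true ∧
    allY (E.wth (lkp [])) l11620 = true ∧
    allY (E.wth (lkp [])) l11621 = true ∧
    allY (E.wth (lkp [])) l11622 = true :=
  ⟨by decide +kernel, by decide +kernel, by decide +kernel, by decide +kernel, by decide +kernel, by decide +kernel, by decide +kernel, by decide +kernel⟩

def t11623 : allY (E.wth (lkp [])) l11623 = true ∧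
    allY (E.wth (lkp [])) l11624 = true ∧
    allY (E.wth (lkp [])) l11625 = true ∧
    allY (E.wth (lkp [])) l11626 = true ∧
    allY (E.wth (lkp [])) l11627 = true ∧
    allY (E.wth (lkp [])) l11628 = true ∧
    allY (E.wth (lkp [])) l11629 = true ∧
    allY (E.wth (lkp [])) l11630 = true :=
  ⟨by decide +kernel, by decide +kernel, by decide +kernel, by decide +kernel, by decide +kernel, by decide +kernel, by decide +kernel, by decide +kernel⟩

def t11631 : allY (E.wth (lkp [])) l11631 = true ∧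
    allY (E.wth (lkp [])) l11632 = true ∧
    allY (E.wth (lkp [])) l11633 = true ∧
    allY (E.wth (lkp [])) l11634 = true ∧
    allY (E.wth (lkp [])) l11635 = true ∧
    allY (E.wth (lkp [])) l11636 = true ∧
    allY (E.wth (lkp [])) l11637 = true ∧
    allY (E.wth (lkp [])) l11638 = true :=
  ⟨by decide +kernel, by decide +kernel, by decide +kernel, by decide +kernel, by decide +kernel, by decide +kernel, by decide +kernel, by decide +kernel⟩

def t11639 : allY (E.wth (lkp [])) l11639 = true ∧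
    allY (E.wth (lkp [])) l11640 = true ∧
    allY (E.wth (lkp [])) l11641 = true ∧
    allY (E.wth (lkp [])) l11642 = true ∧
    allY (E.wth (lkp [])) l11643 = true ∧
    allY (E.wth (lkp [])) l11644 = true ∧
    allY (E.wth (lkp [])) l11645 = true ∧
    allY (E.wth (lkp [])) l11646 = true :=
  ⟨by decide +kernel, by decide +kernel, by decide +kernel, by decide +kernel, by decide +kernel, by decide +kernel, by decide +kernel, by decide +kernel⟩

def t11647 : allY (E.wth (lkp [])) l11647 = true ∧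
    allY (E.wth (lkp [])) l11648 = true ∧
    allY (E.wth (lkp [])) l11649 = true ∧
    allY (E.wth (lkp [])) l11650 = true ∧
    allY (E.wth (lkp [])) l11651 = true ∧
    allY (E.wth (lkp [])) l11652 = true ∧
    allY (E.wth (lkp [])) l11653 = true ∧
    allY (E.wth (lkp [])) l11654 = true :=
  ⟨by decide +kernel, by decide +kernel, by decide +kernel, by decide +kernel, by decide +kernel, by decide +kernel, by decide +kernel, by decide +kernel⟩

def t11655 : allY (E.wth (lkp [])) l11655 = true ∧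
    allY (E.wth (lkp [])) l11656 = true ∧
    allY (E.wth (lkp [])) l11657 = true ∧
    allY (E.wth (lkp [])) l11658 = true ∧
    allY (E.wth (lkp [])) l11659 = true ∧
    allY (E.wth (lkp [])) l11660 = true ∧
    allY (E.wth (lkp [])) l11661 = true ∧
    allY (E.wth (lkp [])) l11662 = true :=
  ⟨by decide +kernel, by decide +kernel, by decide +kernel, by decide +kernel, by decide +kernel, by decide +kernel, by decide +kernel, by decide +kernel⟩

def t11663 : allY (E.wth (lkp [])) l11663 = true ∧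
    allY (E.wth (lkp [])) l11664 = true ∧
    allY (E.wth (lkp [])) l11665 = true ∧
    allY (E.wth (lkp [])) l11666 = true ∧
    allY (E.wth (lkp [])) l11667 = true ∧
    allY (E.wth (lkp [])) l11668 = true ∧
    allY (E.wth (lkp [])) l11669 = true ∧
    allY (E.wth (lkp [])) l11670 = true :=
  ⟨by decide +kernel, by decide +kernel, by decide +kernel, by decide +kernel, by decide +kernel, by decide +kernel, by decide +kernel, by decide +kernel⟩

def t11671 : allY (E.wth (lkp [])) l11671 = true ∧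
    allY (E.wth (lkp [])) l11672 = true ∧
    allY (E.wth (lkp [])) l11673 = true ∧
    allY (E.wth (lkp [])) l11674 = true ∧
    allY (E.wth (lkp [])) l11675 = true ∧
    allY (E.wth (lkp [])) l11676 = true ∧
    allY (E.wth (lkp [])) l11677 = true ∧
    allY (E.wth (lkp [])) l11678 = true :=
  ⟨by decide +kernel, by decide +kernel, by decide +kernel, by decide +kernel, by decide +kernel, by decide +kernel, by decide +kernel, by decide +kernel⟩

def t11679 : allY (E.wth (lkp [])) l11679 = true ∧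
    allY (E.wth (lkp [])) l11680 = true ∧
    allY (E.wth (lkp [])) l11681 = true ∧
    allY (E.wth (lkp [])) l11682 = true ∧
    allY (E.wth (lkp [])) l11683 = true ∧
    allY (E.wth (lkp [])) l11684 = true ∧
    allY (E.wth (lkp [])) l11685 = true ∧
    allY (E.wth (lkp [])) l11686 = true :=
  ⟨by decide +kernel, by decide +kernel, by decide +kernel, by decide +kernel, by decide +kernel, by decide +kernel, by decide +kernel, by decide +kernel⟩

def t11687 : allY (E.wth (lkp [])) l11687 = true ∧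
    allY (E.wth (lkp [])) l11688 = true ∧
    allY (E.wth (lkp [])) l11689 = true ∧
    allY (E.wth (lkp [])) l11690 = true ∧
    allY (E.wth (lkp [])) l11691 = true ∧
    allY (E.wth (lkp [])) l11692 = true ∧
    allY (E.wth (lkp [])) l11693 = true ∧
    allY (E.wth (lkp [])) l11694 = true :=
  ⟨by decide +kernel, by decide +kernel, by decide +kernel, by decide +kernel, by decide +kernel, by decide +kernel, by decide +kernel, by decide +kernel⟩

def t11695 : allY (E.wth (lkp [])) l11695 = true ∧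
    allY (E.wth (lkp [])) l11696 = true ∧
    allY (E.wth (lkp [])) l11697 = true ∧
    allY (E.wth (lkp [])) l11698 = true ∧
    allY (E.wth (lkp [])) l11699 = true ∧
    allY (E.wth (lkp [])) l11700 = true ∧
    allY (E.wth (lkp [])) l11701 = true ∧
    allY (E.wth (lkp [])) l11702 = true :=
  ⟨by decide +kernel, by decide +kernel, by decide +kernel, by decide +kernel, by decide +kernel, by decide +kernel, by decide +kernel, by decide +kernel⟩

def t11703 : allY (E.wth (lkp [])) l11703 = true ∧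
    allY (E.wth (lkp [])) l11704 = true ∧
    allY (E.wth (lkp [])) l11705 = true ∧
    allY (E.wth (lkp [])) l11706 = true ∧
    allY (E.wth (lkp [])) l11707 = true ∧
    allY (E.wth (lkp [])) l11708 = true ∧
    allY (E.wth (lkp [])) l11709 = true ∧
    allY (E.wth (lkp [])) l11710 = true :=
  ⟨by decide +kernel, by decide +kernel, by decide +kernel, by decide +kernel, by decide +kernel, by decide +kernel, by decide +kernel, by decide +kernel⟩

def t11711 : allY (E.wth (lkp [])) l11711 = true ∧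
    allY (E.wth (lkp [])) l11712 = true ∧
    allY (E.wth (lkp [])) l11713 = true ∧
    allY (E.wth (lkp [])) l11714 = true ∧
    allY (E.wth (lkp [])) l11715 = true ∧
    allY (E.wth (lkp [])) l11716 = true ∧
    allY (E.wth (lkp [])) l11717 = true ∧
    allY (E.wth (lkp [])) l11718 = true :=
  ⟨by decide +kernel, by decide +kernel, by decide +kernel, by decide +kernel, by decide +kernel, by decide +kernel, by decide +kernel, by decide +kernel⟩

def t11719 : allY (E.wth (lkp [])) l11719 = true ∧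
    allY (E.wth (lkp [])) l11720 = true ∧
    allY (E.wth (lkp [])) l11721 = true ∧
    allY (E.wth (lkp [])) l11722 = true ∧
    allY (E.wth (lkp [])) l11723 = true ∧
    allY (E.wth (lkp [])) l11724 = true ∧
    allY (E.wth (lkp [])) l11725 = true ∧
    allY (E.wth (lkp [])) l11726 = true :=
  ⟨by decide +kernel, by decide +kernel, by decide +kernel, by decide +kernel, by decide +kernel, by decide +kernel, by decide +kernel, by decide +kernel⟩

def t11727 : allY (E.wth (lkp [])) l11727 = true ∧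
    allY (E.wth (lkp [])) l11728 = true ∧
    allY (E.wth (lkp [])) l11729 = true ∧
    allY (E.wth (lkp [])) l11730 = true ∧
    allY (E.wth (lkp [])) l11731 = true ∧
    allY (E.wth (lkp [])) l11732 = true ∧
    allY (E.wth (lkp [])) l11733 = true ∧
    allY (E.wth (lkp [])) l11734 = true :=
  ⟨by decide +kernel, by decide +kernel, by decide +kernel, by decide +kernel, by decide +kernel, by decide +kernel, by decide +kernel, by decide +kernel⟩

def t11735 : allY (E.wth (lkp [])) l11735 = true ∧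
    allY (E.wth (lkp [])) l11736 = true ∧
    allY (E.wth (lkp [])) l11737 = true ∧
    allY (E.wth (lkp [])) l11738 = true ∧
    allY (E.wth (lkp [])) l11739 = true ∧
    allY (E.wth (lkp [])) l11740 = true ∧
    allY (E.wth (lkp [])) l11741 = true ∧
    allY (E.wth (lkp [])) l11742 = true :=
  ⟨by decide +kernel, by decide +kernel, by decide +kernel, by decide +kernel, by decide +kernel, by decide +kernel, by decide +kernel, by decide +kernel⟩

def t11743 : allY (E.wth (lkp [])) l11743 = true ∧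
    allY (E.wth (lkp [])) l11744 = true ∧
    allY (E.wth (lkp [])) l11745 = true ∧
    allY (E.wth (lkp [])) l11746 = true ∧
    allY (E.wth (lkp [])) l11747 = true ∧
    allY (E.wth (lkp [])) l11748 = true ∧
    allY (E.wth (lkp [])) l11749 = true ∧
    allY (E.wth (lkp [])) l11750 = true :=
  ⟨by decide +kernel, by decide +kernel, by decide +kernel, by decide +kernel, by decide +kernel, by decide +kernel, by decide +kernel, by decide +kernel⟩

def t11751 : allY (E.wth (lkp [])) l11751 = true ∧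
    allY (E.wth (lkp [])) l11752 = true ∧
    allY (E.wth (lkp [])) l11753 = true :=
  ⟨by decide +kernel, by decide +kernel, by decide +kernel⟩

theorem a20 {p : Rf → Prop} (H : ∀ l, allY (E.wth (lkp [])) l = true → (lkp l).All p) :
    b20.All p := ⟨⟨⟨⟨⟨⟨⟨⟨⟨H _ t11191.1, H _ t11191.2.1⟩, ⟨H _ t11191.2.2.1, H _ t11191.2.2.2.1⟩⟩, ⟨⟨H _ t11191.2.2.2.2.1, H _ t11191.2.2.2.2.2.1⟩, ⟨H _ t11191.2.2.2.2.2.2.1, H _ t11191.2.2.2.2.2.2.2⟩⟩⟩, ⟨⟨⟨H _ t11199.1, H _ t11199.2.1⟩, ⟨H _ t11199.2.2.1, H _ t11199.2.2.2.1⟩⟩, ⟨⟨H _ t11199.2.2.2.2.1, H _ t11199.2.2.2.2.2.1⟩, ⟨H _ t11199.2.2.2.2.2.2.1, ⟨H _ t11199.2.2.2.2.2.2.2, H _ t11207.1⟩⟩⟩⟩⟩, ⟨⟨⟨⟨H _ t11207.2.1, H _ t11207.2.2.1⟩, ⟨H _ t11207.2.2.2.1, H _ t11207.2.2.2.2.1⟩⟩, ⟨⟨H _ t11207.2.2.2.2.2.1, H _ t11207.2.2.2.2.2.2.1⟩, ⟨H _ t11207.2.2.2.2.2.2.2, ⟨H _ t11215.1, H _ t11215.2.1⟩⟩⟩⟩, ⟨⟨⟨H _ t11215.2.2.1, H _ t11215.2.2.2.1⟩, ⟨H _ t11215.2.2.2.2.1, H _ t11215.2.2.2.2.2.1⟩⟩,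 ⟨⟨H _ t11215.2.2.2.2.2.2.1, H _ t11215.2.2.2.2.2.2.2⟩, ⟨H _ t11223.1, ⟨H _ t11223.2.1, H _ t11223.2.2.1⟩⟩⟩⟩⟩⟩, ⟨⟨⟨⟨⟨H _ t11223.2.2.2.1, H _ t11223.2.2.2.2.1⟩, ⟨H _ t11223.2.2.2.2.2.1, H _ t11223.2.2.2.2.2.2.1⟩⟩, ⟨⟨H _ t11223.2.2.2.2.2.2.2, H _ t11231.1⟩, ⟨H _ t11231.2.1, H _ t11231.2.2.1⟩⟩⟩, ⟨⟨⟨H _ t11231.2.2.2.1, H _ t11231.2.2.2.2.1⟩, ⟨H _ t11231.2.2.2.2.2.1, H _ t11231.2.2.2.2.2.2.1⟩⟩, ⟨⟨H _ t11231.2.2.2.2.2.2.2, H _ t11239.1⟩, ⟨H _ t11239.2.1, ⟨H _ t11239.2.2.1, H _ t11239.2.2.2.1⟩⟩⟩⟩⟩, ⟨⟨⟨⟨H _ t11239.2.2.2.2.1, H _ t11239.2.2.2.2.2.1⟩, ⟨H _ t11239.2.2.2.2.2.2.1, H _ t11239.2.2.2.2.2.2.2⟩⟩, ⟨⟨H _ t11247.1, H _ t11247.2.1⟩, ⟨H _ t11247.2.2.1, ⟨H _ t11247.2.2.2.1, H _ t11247.2.2.2.2.1⟩⟩⟩⟩, ⟨⟨⟨H _ t11247.2.2.2.2.2.1, H _ t11247.2.2.2.2.2.2.1⟩, ⟨H _ t11247.2.2.2.2.2.2.2, H _ t11255.1⟩⟩, ⟨⟨H _ t11255.2.1, H _ t11255.2.2.1⟩, ⟨H _ t11255.2.2.2.1, ⟨H _ t11255.2.2.2.2.1, H _ t11255.2.2.2.2.2.1⟩⟩⟩⟩⟩⟩⟩,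 ⟨⟨⟨⟨⟨⟨H _ t11255.2.2.2.2.2.2.1, H _ t11255.2.2.2.2.2.2.2⟩, ⟨H _ t11263.1, H _ t11263.2.1⟩⟩, ⟨⟨H _ t11263.2.2.1, H _ t11263.2.2.2.1⟩, ⟨H _ t11263.2.2.2.2.1, H _ t11263.2.2.2.2.2.1⟩⟩⟩, ⟨⟨⟨H _ t11263.2.2.2.2.2.2.1, H _ t11263.2.2.2.2.2.2.2⟩, ⟨H _ t11271.1, H _ t11271.2.1⟩⟩, ⟨⟨H _ t11271.2.2.1, H _ t11271.2.2.2.1⟩, ⟨H _ t11271.2.2.2.2.1, ⟨H _ t11271.2.2.2.2.2.1, H _ t11271.2.2.2.2.2.2.1⟩⟩⟩⟩⟩, ⟨⟨⟨⟨H _ t11271.2.2.2.2.2.2.2, H _ t11279.1⟩, ⟨H _ t11279.2.1, H _ t11279.2.2.1⟩⟩, ⟨⟨H _ t11279.2.2.2.1, H _ t11279.2.2.2.2.1⟩, ⟨H _ t11279.2.2.2.2.2.1, ⟨H _ t11279.2.2.2.2.2.2.1, H _ t11279.2.2.2.2.2.2.2⟩⟩⟩⟩, ⟨⟨⟨H _ t11287.1, H _ t11287.2.1⟩, ⟨H _ t11287.2.2.1, H _ t11287.2.2.2.1⟩⟩, ⟨⟨H _ t11287.2.2.2.2.1, H _ t11287.2.2.2.2.2.1⟩, ⟨H _ t11287.2.2.2.2.2.2.1, ⟨H _ t11287.2.2.2.2.2.2.2, H _ t11295.1⟩⟩⟩⟩⟩⟩, ⟨⟨⟨⟨⟨H _ t11295.2.1, H _ t11295.2.2.1⟩, ⟨H _ t11295.2.2.2.1, H _ t11295.2.2.2.2.1⟩⟩, ⟨⟨H _ t11295.2.2.2.2.2.1,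 H _ t11295.2.2.2.2.2.2.1⟩, ⟨H _ t11295.2.2.2.2.2.2.2, H _ t11303.1⟩⟩⟩, ⟨⟨⟨H _ t11303.2.1, H _ t11303.2.2.1⟩, ⟨H _ t11303.2.2.2.1, H _ t11303.2.2.2.2.1⟩⟩, ⟨⟨H _ t11303.2.2.2.2.2.1, H _ t11303.2.2.2.2.2.2.1⟩, ⟨H _ t11303.2.2.2.2.2.2.2, ⟨H _ t11311.1, H _ t11311.2.1⟩⟩⟩⟩⟩, ⟨⟨⟨⟨H _ t11311.2.2.1, H _ t11311.2.2.2.1⟩, ⟨H _ t11311.2.2.2.2.1, H _ t11311.2.2.2.2.2.1⟩⟩, ⟨⟨H _ t11311.2.2.2.2.2.2.1, H _ t11311.2.2.2.2.2.2.2⟩, ⟨H _ t11319.1, ⟨H _ t11319.2.1, H _ t11319.2.2.1⟩⟩⟩⟩, ⟨⟨⟨H _ t11319.2.2.2.1, H _ t11319.2.2.2.2.1⟩, ⟨H _ t11319.2.2.2.2.2.1, H _ t11319.2.2.2.2.2.2.1⟩⟩, ⟨⟨H _ t11319.2.2.2.2.2.2.2, H _ t11327.1⟩, ⟨H _ t11327.2.1, ⟨H _ t11327.2.2.1, H _ t11327.2.2.2.1⟩⟩⟩⟩⟩⟩⟩⟩, ⟨⟨⟨⟨⟨⟨⟨H _ t11327.2.2.2.2.1, H _ t11327.2.2.2.2.2.1⟩, ⟨H _ t11327.2.2.2.2.2.2.1, H _ t11327.2.2.2.2.2.2.2⟩⟩, ⟨⟨H _ t11335.1, H _ t11335.2.1⟩, ⟨H _ t11335.2.2.1, H _ t11335.2.2.2.1⟩⟩⟩, ⟨⟨⟨H _ t11335.2.2.2.2.1, H _ t11335.2.2.2.2.2.1⟩,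 ⟨H _ t11335.2.2.2.2.2.2.1, H _ t11335.2.2.2.2.2.2.2⟩⟩, ⟨⟨H _ t11343.1, H _ t11343.2.1⟩, ⟨H _ t11343.2.2.1, ⟨H _ t11343.2.2.2.1, H _ t11343.2.2.2.2.1⟩⟩⟩⟩⟩, ⟨⟨⟨⟨H _ t11343.2.2.2.2.2.1, H _ t11343.2.2.2.2.2.2.1⟩, ⟨H _ t11343.2.2.2.2.2.2.2, H _ t11351.1⟩⟩, ⟨⟨H _ t11351.2.1, H _ t11351.2.2.1⟩, ⟨H _ t11351.2.2.2.1, ⟨H _ t11351.2.2.2.2.1, H _ t11351.2.2.2.2.2.1⟩⟩⟩⟩, ⟨⟨⟨H _ t11351.2.2.2.2.2.2.1, H _ t11351.2.2.2.2.2.2.2⟩, ⟨H _ t11359.1, H _ t11359.2.1⟩⟩, ⟨⟨H _ t11359.2.2.1, H _ t11359.2.2.2.1⟩, ⟨H _ t11359.2.2.2.2.1, ⟨H _ t11359.2.2.2.2.2.1, H _ t11359.2.2.2.2.2.2.1⟩⟩⟩⟩⟩⟩, ⟨⟨⟨⟨⟨H _ t11359.2.2.2.2.2.2.2, H _ t11367.1⟩, ⟨H _ t11367.2.1, H _ t11367.2.2.1⟩⟩, ⟨⟨H _ t11367.2.2.2.1, H _ t11367.2.2.2.2.1⟩, ⟨H _ t11367.2.2.2.2.2.1, H _ t11367.2.2.2.2.2.2.1⟩⟩⟩, ⟨⟨⟨H _ t11367.2.2.2.2.2.2.2, H _ t11375.1⟩, ⟨H _ t11375.2.1, H _ t11375.2.2.1⟩⟩, ⟨⟨H _ t11375.2.2.2.1, H _ t11375.2.2.2.2.1⟩, ⟨H _ t11375.2.2.2.2.2.1,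 ⟨H _ t11375.2.2.2.2.2.2.1, H _ t11375.2.2.2.2.2.2.2⟩⟩⟩⟩⟩, ⟨⟨⟨⟨H _ t11383.1, H _ t11383.2.1⟩, ⟨H _ t11383.2.2.1, H _ t11383.2.2.2.1⟩⟩, ⟨⟨H _ t11383.2.2.2.2.1, H _ t11383.2.2.2.2.2.1⟩, ⟨H _ t11383.2.2.2.2.2.2.1, ⟨H _ t11383.2.2.2.2.2.2.2, H _ t11391.1⟩⟩⟩⟩, ⟨⟨⟨H _ t11391.2.1, H _ t11391.2.2.1⟩, ⟨H _ t11391.2.2.2.1, H _ t11391.2.2.2.2.1⟩⟩, ⟨⟨H _ t11391.2.2.2.2.2.1, H _ t11391.2.2.2.2.2.2.1⟩, ⟨H _ t11391.2.2.2.2.2.2.2, ⟨H _ t11399.1, H _ t11399.2.1⟩⟩⟩⟩⟩⟩⟩, ⟨⟨⟨⟨⟨⟨H _ t11399.2.2.1, H _ t11399.2.2.2.1⟩, ⟨H _ t11399.2.2.2.2.1, H _ t11399.2.2.2.2.2.1⟩⟩, ⟨⟨H _ t11399.2.2.2.2.2.2.1, H _ t11399.2.2.2.2.2.2.2⟩, ⟨H _ t11407.1, H _ t11407.2.1⟩⟩⟩, ⟨⟨⟨H _ t11407.2.2.1, H _ t11407.2.2.2.1⟩, ⟨H _ t11407.2.2.2.2.1, H _ t11407.2.2.2.2.2.1⟩⟩, ⟨⟨H _ t11407.2.2.2.2.2.2.1, H _ t11407.2.2.2.2.2.2.2⟩, ⟨H _ t11415.1, ⟨H _ t11415.2.1, H _ t11415.2.2.1⟩⟩⟩⟩⟩, ⟨⟨⟨⟨H _ t11415.2.2.2.1, H _ t11415.2.2.2.2.1⟩, ⟨H _ t11415.2.2.2.2.2.1,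 H _ t11415.2.2.2.2.2.2.1⟩⟩, ⟨⟨H _ t11415.2.2.2.2.2.2.2, H _ t11423.1⟩, ⟨H _ t11423.2.1, ⟨H _ t11423.2.2.1, H _ t11423.2.2.2.1⟩⟩⟩⟩, ⟨⟨⟨H _ t11423.2.2.2.2.1, H _ t11423.2.2.2.2.2.1⟩, ⟨H _ t11423.2.2.2.2.2.2.1, H _ t11423.2.2.2.2.2.2.2⟩⟩, ⟨⟨H _ t11431.1, H _ t11431.2.1⟩, ⟨H _ t11431.2.2.1, ⟨H _ t11431.2.2.2.1, H _ t11431.2.2.2.2.1⟩⟩⟩⟩⟩⟩, ⟨⟨⟨⟨⟨H _ t11431.2.2.2.2.2.1, H _ t11431.2.2.2.2.2.2.1⟩, ⟨H _ t11431.2.2.2.2.2.2.2, H _ t11439.1⟩⟩, ⟨⟨H _ t11439.2.1, H _ t11439.2.2.1⟩, ⟨H _ t11439.2.2.2.1, ⟨H _ t11439.2.2.2.2.1, H _ t11439.2.2.2.2.2.1⟩⟩⟩⟩, ⟨⟨⟨H _ t11439.2.2.2.2.2.2.1, H _ t11439.2.2.2.2.2.2.2⟩, ⟨H _ t11447.1, H _ t11447.2.1⟩⟩, ⟨⟨H _ t11447.2.2.1, H _ t11447.2.2.2.1⟩, ⟨H _ t11447.2.2.2.2.1, ⟨H _ t11447.2.2.2.2.2.1, H _ t11447.2.2.2.2.2.2.1⟩⟩⟩⟩⟩, ⟨⟨⟨⟨H _ t11447.2.2.2.2.2.2.2, H _ t11455.1⟩, ⟨H _ t11455.2.1, H _ t11455.2.2.1⟩⟩, ⟨⟨H _ t11455.2.2.2.1, H _ t11455.2.2.2.2.1⟩, ⟨H _ t11455.2.2.2.2.2.1,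 ⟨H _ t11455.2.2.2.2.2.2.1, H _ t11455.2.2.2.2.2.2.2⟩⟩⟩⟩, ⟨⟨⟨H _ t11463.1, H _ t11463.2.1⟩, ⟨H _ t11463.2.2.1, H _ t11463.2.2.2.1⟩⟩, ⟨⟨H _ t11463.2.2.2.2.1, H _ t11463.2.2.2.2.2.1⟩, ⟨H _ t11463.2.2.2.2.2.2.1, ⟨H _ t11463.2.2.2.2.2.2.2, H _ t11471.1⟩⟩⟩⟩⟩⟩⟩⟩⟩, ⟨⟨⟨⟨⟨⟨⟨⟨H _ t11471.2.1, H _ t11471.2.2.1⟩, ⟨H _ t11471.2.2.2.1, H _ t11471.2.2.2.2.1⟩⟩, ⟨⟨H _ t11471.2.2.2.2.2.1, H _ t11471.2.2.2.2.2.2.1⟩, ⟨H _ t11471.2.2.2.2.2.2.2, H _ t11479.1⟩⟩⟩, ⟨⟨⟨H _ t11479.2.1, H _ t11479.2.2.1⟩, ⟨H _ t11479.2.2.2.1, H _ t11479.2.2.2.2.1⟩⟩, ⟨⟨H _ t11479.2.2.2.2.2.1, H _ t11479.2.2.2.2.2.2.1⟩, ⟨H _ t11479.2.2.2.2.2.2.2, ⟨H _ t11487.1, H _ t11487.2.1⟩⟩⟩⟩⟩, ⟨⟨⟨⟨H _ t11487.2.2.1, H _ t11487.2.2.2.1⟩, ⟨H _ t11487.2.2.2.2.1, H _ t11487.2.2.2.2.2.1⟩⟩, ⟨⟨H _ t11487.2.2.2.2.2.2.1, H _ t11487.2.2.2.2.2.2.2⟩, ⟨H _ t11495.1, ⟨H _ t11495.2.1, H _ t11495.2.2.1⟩⟩⟩⟩, ⟨⟨⟨H _ t11495.2.2.2.1, H _ t11495.2.2.2.2.1⟩, ⟨H _ t11495.2.2.2.2.2.1,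 H _ t11495.2.2.2.2.2.2.1⟩⟩, ⟨⟨H _ t11495.2.2.2.2.2.2.2, H _ t11503.1⟩, ⟨H _ t11503.2.1, ⟨H _ t11503.2.2.1, H _ t11503.2.2.2.1⟩⟩⟩⟩⟩⟩, ⟨⟨⟨⟨⟨H _ t11503.2.2.2.2.1, H _ t11503.2.2.2.2.2.1⟩, ⟨H _ t11503.2.2.2.2.2.2.1, H _ t11503.2.2.2.2.2.2.2⟩⟩, ⟨⟨H _ t11511.1, H _ t11511.2.1⟩, ⟨H _ t11511.2.2.1, H _ t11511.2.2.2.1⟩⟩⟩, ⟨⟨⟨H _ t11511.2.2.2.2.1, H _ t11511.2.2.2.2.2.1⟩, ⟨H _ t11511.2.2.2.2.2.2.1, H _ t11511.2.2.2.2.2.2.2⟩⟩, ⟨⟨H _ t11519.1, H _ t11519.2.1⟩, ⟨H _ t11519.2.2.1, ⟨H _ t11519.2.2.2.1, H _ t11519.2.2.2.2.1⟩⟩⟩⟩⟩, ⟨⟨⟨⟨H _ t11519.2.2.2.2.2.1, H _ t11519.2.2.2.2.2.2.1⟩, ⟨H _ t11519.2.2.2.2.2.2.2, H _ t11527.1⟩⟩, ⟨⟨H _ t11527.2.1, H _ t11527.2.2.1⟩, ⟨H _ t11527.2.2.2.1, ⟨H _ t11527.2.2.2.2.1, H _ t11527.2.2.2.2.2.1⟩⟩⟩⟩, ⟨⟨⟨H _ t11527.2.2.2.2.2.2.1, H _ t11527.2.2.2.2.2.2.2⟩, ⟨H _ t11535.1, H _ t11535.2.1⟩⟩, ⟨⟨H _ t11535.2.2.1, H _ t11535.2.2.2.1⟩, ⟨H _ t11535.2.2.2.2.1, ⟨H _ t11535.2.2.2.2.2.1,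 H _ t11535.2.2.2.2.2.2.1⟩⟩⟩⟩⟩⟩⟩, ⟨⟨⟨⟨⟨⟨H _ t11535.2.2.2.2.2.2.2, H _ t11543.1⟩, ⟨H _ t11543.2.1, H _ t11543.2.2.1⟩⟩, ⟨⟨H _ t11543.2.2.2.1, H _ t11543.2.2.2.2.1⟩, ⟨H _ t11543.2.2.2.2.2.1, H _ t11543.2.2.2.2.2.2.1⟩⟩⟩, ⟨⟨⟨H _ t11543.2.2.2.2.2.2.2, H _ t11551.1⟩, ⟨H _ t11551.2.1, H _ t11551.2.2.1⟩⟩, ⟨⟨H _ t11551.2.2.2.1, H _ t11551.2.2.2.2.1⟩, ⟨H _ t11551.2.2.2.2.2.1, ⟨H _ t11551.2.2.2.2.2.2.1, H _ t11551.2.2.2.2.2.2.2⟩⟩⟩⟩⟩, ⟨⟨⟨⟨H _ t11559.1, H _ t11559.2.1⟩, ⟨H _ t11559.2.2.1, H _ t11559.2.2.2.1⟩⟩, ⟨⟨H _ t11559.2.2.2.2.1, H _ t11559.2.2.2.2.2.1⟩, ⟨H _ t11559.2.2.2.2.2.2.1, ⟨H _ t11559.2.2.2.2.2.2.2, H _ t11567.1⟩⟩⟩⟩, ⟨⟨⟨H _ t11567.2.1, H _ t11567.2.2.1⟩, ⟨H _ t11567.2.2.2.1, H _ t11567.2.2.2.2.1⟩⟩, ⟨⟨H _ t11567.2.2.2.2.2.1, H _ t11567.2.2.2.2.2.2.1⟩, ⟨H _ t11567.2.2.2.2.2.2.2, ⟨H _ t11575.1, H _ t11575.2.1⟩⟩⟩⟩⟩⟩, ⟨⟨⟨⟨⟨H _ t11575.2.2.1, H _ t11575.2.2.2.1⟩, ⟨H _ t11575.2.2.2.2.1, H _ t11575.2.2.2.2.2.1⟩⟩,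 ⟨⟨H _ t11575.2.2.2.2.2.2.1, H _ t11575.2.2.2.2.2.2.2⟩, ⟨H _ t11583.1, ⟨H _ t11583.2.1, H _ t11583.2.2.1⟩⟩⟩⟩, ⟨⟨⟨H _ t11583.2.2.2.1, H _ t11583.2.2.2.2.1⟩, ⟨H _ t11583.2.2.2.2.2.1, H _ t11583.2.2.2.2.2.2.1⟩⟩, ⟨⟨H _ t11583.2.2.2.2.2.2.2, H _ t11591.1⟩, ⟨H _ t11591.2.1, ⟨H _ t11591.2.2.1, H _ t11591.2.2.2.1⟩⟩⟩⟩⟩, ⟨⟨⟨⟨H _ t11591.2.2.2.2.1, H _ t11591.2.2.2.2.2.1⟩, ⟨H _ t11591.2.2.2.2.2.2.1, H _ t11591.2.2.2.2.2.2.2⟩⟩, ⟨⟨H _ t11599.1, H _ t11599.2.1⟩, ⟨H _ t11599.2.2.1, ⟨H _ t11599.2.2.2.1, H _ t11599.2.2.2.2.1⟩⟩⟩⟩, ⟨⟨⟨H _ t11599.2.2.2.2.2.1, H _ t11599.2.2.2.2.2.2.1⟩, ⟨H _ t11599.2.2.2.2.2.2.2, H _ t11607.1⟩⟩, ⟨⟨H _ t11607.2.1, H _ t11607.2.2.1⟩, ⟨H _ t11607.2.2.2.1, ⟨H _ t11607.2.2.2.2.1, H _ t11607.2.2.2.2.2.1⟩⟩⟩⟩⟩⟩⟩⟩, ⟨⟨⟨⟨⟨⟨⟨H _ t11607.2.2.2.2.2.2.1, H _ t11607.2.2.2.2.2.2.2⟩, ⟨H _ t11615.1, H _ t11615.2.1⟩⟩, ⟨⟨H _ t11615.2.2.1, H _ t11615.2.2.2.1⟩, ⟨H _ t11615.2.2.2.2.1, H _ t11615.2.2.2.2.2.1⟩⟩⟩,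 ⟨⟨⟨H _ t11615.2.2.2.2.2.2.1, H _ t11615.2.2.2.2.2.2.2⟩, ⟨H _ t11623.1, H _ t11623.2.1⟩⟩, ⟨⟨H _ t11623.2.2.1, H _ t11623.2.2.2.1⟩, ⟨H _ t11623.2.2.2.2.1, ⟨H _ t11623.2.2.2.2.2.1, H _ t11623.2.2.2.2.2.2.1⟩⟩⟩⟩⟩, ⟨⟨⟨⟨H _ t11623.2.2.2.2.2.2.2, H _ t11631.1⟩, ⟨H _ t11631.2.1, H _ t11631.2.2.1⟩⟩, ⟨⟨H _ t11631.2.2.2.1, H _ t11631.2.2.2.2.1⟩, ⟨H _ t11631.2.2.2.2.2.1, ⟨H _ t11631.2.2.2.2.2.2.1, H _ t11631.2.2.2.2.2.2.2⟩⟩⟩⟩, ⟨⟨⟨H _ t11639.1, H _ t11639.2.1⟩, ⟨H _ t11639.2.2.1, H _ t11639.2.2.2.1⟩⟩, ⟨⟨H _ t11639.2.2.2.2.1, H _ t11639.2.2.2.2.2.1⟩, ⟨H _ t11639.2.2.2.2.2.2.1, ⟨H _ t11639.2.2.2.2.2.2.2, H _ t11647.1⟩⟩⟩⟩⟩⟩, ⟨⟨⟨⟨⟨H _ t11647.2.1, H _ t11647.2.2.1⟩, ⟨H _ t11647.2.2.2.1, H _ t11647.2.2.2.2.1⟩⟩, ⟨⟨H _ t11647.2.2.2.2.2.1, H _ t11647.2.2.2.2.2.2.1⟩, ⟨H _ t11647.2.2.2.2.2.2.2, H _ t11655.1⟩⟩⟩, ⟨⟨⟨H _ t11655.2.1, H _ t11655.2.2.1⟩, ⟨H _ t11655.2.2.2.1, H _ t11655.2.2.2.2.1⟩⟩, ⟨⟨H _ t11655.2.2.2.2.2.1,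 H _ t11655.2.2.2.2.2.2.1⟩, ⟨H _ t11655.2.2.2.2.2.2.2, ⟨H _ t11663.1, H _ t11663.2.1⟩⟩⟩⟩⟩, ⟨⟨⟨⟨H _ t11663.2.2.1, H _ t11663.2.2.2.1⟩, ⟨H _ t11663.2.2.2.2.1, H _ t11663.2.2.2.2.2.1⟩⟩, ⟨⟨H _ t11663.2.2.2.2.2.2.1, H _ t11663.2.2.2.2.2.2.2⟩, ⟨H _ t11671.1, ⟨H _ t11671.2.1, H _ t11671.2.2.1⟩⟩⟩⟩, ⟨⟨⟨H _ t11671.2.2.2.1, H _ t11671.2.2.2.2.1⟩, ⟨H _ t11671.2.2.2.2.2.1, H _ t11671.2.2.2.2.2.2.1⟩⟩, ⟨⟨H _ t11671.2.2.2.2.2.2.2, H _ t11679.1⟩, ⟨H _ t11679.2.1, ⟨H _ t11679.2.2.1, H _ t11679.2.2.2.1⟩⟩⟩⟩⟩⟩⟩, ⟨⟨⟨⟨⟨⟨H _ t11679.2.2.2.2.1, H _ t11679.2.2.2.2.2.1⟩, ⟨H _ t11679.2.2.2.2.2.2.1, H _ t11679.2.2.2.2.2.2.2⟩⟩, ⟨⟨H _ t11687.1, H _ t11687.2.1⟩, ⟨H _ t11687.2.2.1, H _ t11687.2.2.2.1⟩⟩⟩, ⟨⟨⟨H _ t11687.2.2.2.2.1, H _ t11687.2.2.2.2.2.1⟩, ⟨H _ t11687.2.2.2.2.2.2.1, H _ t11687.2.2.2.2.2.2.2⟩⟩, ⟨⟨H _ t11695.1, H _ t11695.2.1⟩, ⟨H _ t11695.2.2.1, ⟨H _ t11695.2.2.2.1, H _ t11695.2.2.2.2.1⟩⟩⟩⟩⟩, ⟨⟨⟨⟨H _ t11695.2.2.2.2.2.1,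 H _ t11695.2.2.2.2.2.2.1⟩, ⟨H _ t11695.2.2.2.2.2.2.2, H _ t11703.1⟩⟩, ⟨⟨H _ t11703.2.1, H _ t11703.2.2.1⟩, ⟨H _ t11703.2.2.2.1, ⟨H _ t11703.2.2.2.2.1, H _ t11703.2.2.2.2.2.1⟩⟩⟩⟩, ⟨⟨⟨H _ t11703.2.2.2.2.2.2.1, H _ t11703.2.2.2.2.2.2.2⟩, ⟨H _ t11711.1, H _ t11711.2.1⟩⟩, ⟨⟨H _ t11711.2.2.1, H _ t11711.2.2.2.1⟩, ⟨H _ t11711.2.2.2.2.1, ⟨H _ t11711.2.2.2.2.2.1, H _ t11711.2.2.2.2.2.2.1⟩⟩⟩⟩⟩⟩, ⟨⟨⟨⟨⟨H _ t11711.2.2.2.2.2.2.2, H _ t11719.1⟩, ⟨H _ t11719.2.1, H _ t11719.2.2.1⟩⟩, ⟨⟨H _ t11719.2.2.2.1, H _ t11719.2.2.2.2.1⟩, ⟨H _ t11719.2.2.2.2.2.1, ⟨H _ t11719.2.2.2.2.2.2.1, H _ t11719.2.2.2.2.2.2.2⟩⟩⟩⟩, ⟨⟨⟨H _ t11727.1, H _ t11727.2.1⟩, ⟨H _ t11727.2.2.1, H _ t11727.2.2.2.1⟩⟩, ⟨⟨H _ t11727.2.2.2.2.1, H _ t11727.2.2.2.2.2.1⟩, ⟨H _ t11727.2.2.2.2.2.2.1, ⟨H _ t11727.2.2.2.2.2.2.2, H _ t11735.1⟩⟩⟩⟩⟩, ⟨⟨⟨⟨H _ t11735.2.1, H _ t11735.2.2.1⟩, ⟨H _ t11735.2.2.2.1, H _ t11735.2.2.2.2.1⟩⟩, ⟨⟨H _ t11735.2.2.2.2.2.1,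 H _ t11735.2.2.2.2.2.2.1⟩, ⟨H _ t11735.2.2.2.2.2.2.2, ⟨H _ t11743.1, H _ t11743.2.1⟩⟩⟩⟩, ⟨⟨⟨H _ t11743.2.2.1, H _ t11743.2.2.2.1⟩, ⟨H _ t11743.2.2.2.2.1, H _ t11743.2.2.2.2.2.1⟩⟩, ⟨⟨H _ t11743.2.2.2.2.2.2.1, H _ t11743.2.2.2.2.2.2.2⟩, ⟨H _ t11751.1, ⟨H _ t11751.2.1, H _ t11751.2.2⟩⟩⟩⟩⟩⟩⟩⟩⟩⟩

end Pool.Agent.MP_c853c5_nt.X.C4950
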