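import Pool.Agent.MP_c853c5_nt.X.C4950.Env
import Pool.Agent.MP_c853c5_nt.X.C4950.D4

set_option autoImplicit false
set_option maxRecDepth 8192
set_option linter.all false

namespace Pool.Agent.MP_c853c5_nt.X.C4950

open Pool.Agent.MP_c853c5_nt.X

def t11754 : allY (E.wth (lkp [])) l11754 = true ∧
    allY (E.wth (lkp [])) l11755 = true ∧
    allY (E.wth (lkp [])) l11756 = true ∧
    allY (E.wth (lkp [])) l11757 = true ∧
    allY (E.wth (lkp [])) l11758 = true ∧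
    allY (E.wth (lkp [])) l11759 = true ∧
    allY (E.wth (lkp [])) l11760 = true ∧
    allY (E.wth (lkp [])) l11761 = true :=
  ⟨by decide +kernel, by decide +kernel, by decide +kernel, by decide +kernel, by decide +kernel, by decide +kernel, by decide +kernel, by decide +kernel⟩

def t11762 : allY (E.wth (lkp [])) l11762 = true ∧
    allY (E.wth (lkp [])) l11763 = true ∧
    allY (E.wth (lkp [])) l11764 = true ∧
    allY (E.wth (lkp [])) l11765 = true ∧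
    allY (E.wth (lkp [])) l11766 = true ∧
    allY (E.wth (lkp [])) l11767 = true ∧
    allY (E.wth (lkp [])) l11768 = true ∧
    allY (E.wth (lkp [])) l11769 = true :=
  ⟨by decide +kernel, by decide +kernel, by decide +kernel, by decide +kernel, by decide +kernel, by decide +kernel, by decide +kernel, by decide +kernel⟩

def t11770 : allY (E.wth (lkp [])) l11770 = true ∧
    allY (E.wth (lkp [])) l11771 = true ∧
    allY (E.wth (lkp [])) l11772 = true ∧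
    allY (E.wth (lkp [])) l11773 = true ∧
    allY (E.wth (lkp [])) l11774 = true ∧
    allY (E.wth (lkp [])) l11775 = true ∧
    allY (E.wth (lkp [])) l11776 = true ∧
    allY (E.wth (lkp [])) l11777 = true :=
  ⟨by decide +kernel, by decide +kernel, by decide +kernel, by decide +kernel, by decide +kernel, by decide +kernel, by decide +kernel, by decide +kernel⟩

def t11778 : allY (E.wth (lkp [])) l11778 = true ∧
    allY (E.wth (lkp [])) l11779 = true ∧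
    allY (E.wth (lkp [])) l11780 = true ∧
    allY (E.wth (lkp [])) l11781 = true ∧
    allY (E.wth (lkp [])) l11782 = true ∧
    allY (E.wth (lkp [])) l11783 = true ∧
    allY (E.wth (lkp [])) l11784 = true ∧
    allY (E.wth (lkp [])) l11785 = true :=
  ⟨by decide +kernel, by decide +kernel, by decide +kernel, by decide +kernel, by decide +kernel, by decide +kernel, by decide +kernel, by decide +kernel⟩

def t11786 : allY (E.wth (lkp [])) l11786 = true ∧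
    allY (E.wth (lkp [])) l11787 = true ∧
    allY (E.wth (lkp [])) l11788 = true ∧
    allY (E.wth (lkp [])) l11789 = true ∧
    allY (E.wth (lkp [])) l11790 = true ∧
    allY (E.wth (lkp [])) l11791 = true ∧
    allY (E.wth (lkp [])) l11792 = true ∧
    allY (E.wth (lkp [])) l11793 = true :=
  ⟨by decide +kernel, by decide +kernel, by decide +kernel, by decide +kernel, by decide +kernel, by decide +kernel, by decide +kernel, by decide +kernel⟩

def t11794 : allY (E.wth (lkp [])) l11794 = true ∧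
    allY (E.wth (lkp [])) l11795 = true ∧
    allY (E.wth (lkp [])) l11796 = true ∧
    allY (E.wth (lkp [])) l11797 = true ∧
    allY (E.wth (lkp [])) l11798 = true ∧
    allY (E.wth (lkp [])) l11799 = true ∧
    allY (E.wth (lkp [])) l11800 = true ∧
    allY (E.wth (lkp [])) l11801 = true :=
  ⟨by decide +kernel, by decide +kernel, by decide +kernel, by decide +kernel, by decide +kernel, by decide +kernel, by decide +kernel, by decide +kernel⟩

def t11802 : allY (E.wth (lkp [])) l11802 = true ∧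
    allY (E.wth (lkp [])) l11803 = true ∧
    allY (E.wth (lkp [])) l11804 = true ∧
    allY (E.wth (lkp [])) l11805 = true ∧
    allY (E.wth (lkp [])) l11806 = true ∧
    allY (E.wth (lkp [])) l11807 = true ∧
    allY (E.wth (lkp [])) l11808 = true ∧
    allY (E.wth (lkp [])) l11809 = true :=
  ⟨by decide +kernel, by decide +kernel, by decide +kernel, by decide +kernel, by decide +kernel, by decide +kernel, by decide +kernel, by decide +kernel⟩

def t11810 : allY (E.wth (lkp [])) l11810 = true ∧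
    allY (E.wth (lkp [])) l11811 = true ∧
    allY (E.wth (lkp [])) l11812 = true ∧
    allY (E.wth (lkp [])) l11813 = true ∧
    allY (E.wth (lkp [])) l11814 = true ∧
    allY (E.wth (lkp [])) l11815 = true ∧
    allY (E.wth (lkp [])) l11816 = true ∧
    allY (E.wth (lkp [])) l11817 = true :=
  ⟨by decide +kernel, by decide +kernel, by decide +kernel, by decide +kernel, by decide +kernel, by decide +kernel, by decide +kernel, by decide +kernel⟩

def t11818 : allY (E.wth (lkp [])) l11818 = true ∧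
    allY (E.wth (lkp [])) l11819 = true ∧
    allY (E.wth (lkp [])) l11820 = true ∧
    allY (E.wth (lkp [])) l11821 = true ∧
    allY (E.wth (lkp [])) l11822 = true ∧
    allY (E.wth (lkp [])) l11823 = true ∧
    allY (E.wth (lkp [])) l11824 = true ∧
    allY (E.wth (lkp [])) l11825 = true :=
  ⟨by decide +kernel, by decide +kernel, by decide +kernel, by decide +kernel, by decide +kernel, by decide +kernel, by decide +kernel, by decide +kernel⟩

def t11826 : allY (E.wth (lkp [])) l11826 = true ∧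
    allY (E.wth (lkp [])) l11827 = true ∧
    allY (E.wth (lkp [])) l11828 = true ∧
    allY (E.wth (lkp [])) l11829 = true ∧
    allY (E.wth (lkp [])) l11830 = true ∧
    allY (E.wth (lkp [])) l11831 = true ∧
    allY (E.wth (lkp [])) l11832 = true ∧
    allY (E.wth (lkp [])) l11833 = true :=
  ⟨by decide +kernel, by decide +kernel, by decide +kernel, by decide +kernel, by decide +kernel, by decide +kernel, by decide +kernel, by decide +kernel⟩

def t11834 : allY (E.wth (lkp [])) l11834 = true ∧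
    allY (E.wth (lkp [])) l11835 = true ∧
    allY (E.wth (lkp [])) l11836 = true ∧
    allY (E.wth (lkp [])) l11837 = true ∧
    allY (E.wth (lkp [])) l11838 = true ∧
    allY (E.wth (lkp [])) l11839 = true ∧
    allY (E.wth (lkp [])) l11840 = true ∧
    allY (E.wth (lkp [])) l11841 = true :=
  ⟨by decide +kernel, by decide +kernel, by decide +kernel, by decide +kernel, by decide +kernel, by decide +kernel, by decide +kernel, by decide +kernel⟩

def t11842 : allY (E.wth (lkp [])) l11842 = true ∧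
    allY (E.wth (lkp [])) l11843 = true ∧
    allY (E.wth (lkp [])) l11844 = true ∧
    allY (E.wth (lkp [])) l11845 = true ∧
    allY (E.wth (lkp [])) l11846 = true ∧
    allY (E.wth (lkp [])) l11847 = true ∧
    allY (E.wth (lkp [])) l11848 = true ∧
    allY (E.wth (lkp [])) l11849 = true :=
  ⟨by decide +kernel, by decide +kernel, by decide +kernel, by decide +kernel, by decide +kernel, by decide +kernel, by decide +kernel, by decide +kernel⟩

def t11850 : allY (E.wth (lkp [])) l11850 = true ∧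
    allY (E.wth (lkp [])) l11851 = true ∧
    allY (E.wth (lkp [])) l11852 = true ∧
    allY (E.wth (lkp [])) l11853 = true ∧
    allY (E.wth (lkp [])) l11854 = true ∧
    allY (E.wth (lkp [])) l11855 = true ∧
    allY (E.wth (lkp [])) l11856 = true ∧
    allY (E.wth (lkp [])) l11857 = true :=
  ⟨by decide +kernel, by decide +kernel, by decide +kernel, by decide +kernel, by decide +kernel, by decide +kernel, by decide +kernel, by decide +kernel⟩

def t11858 : allY (E.wth (lkp [])) l11858 = true ∧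
    allY (E.wth (lkp [])) l11859 = true ∧
    allY (E.wth (lkp [])) l11860 = true ∧
    allY (E.wth (lkp [])) l11861 = true ∧
    allY (E.wth (lkp [])) l11862 = true ∧
    allY (E.wth (lkp [])) l11863 = true ∧
    allY (E.wth (lkp [])) l11864 = true ∧
    allY (E.wth (lkp [])) l11865 = true :=
  ⟨by decide +kernel, by decide +kernel, by decide +kernel, by decide +kernel, by decide +kernel, by decide +kernel, by decide +kernel, by decide +kernel⟩

def t11866 : allY (E.wth (lkp [])) l11866 = true ∧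
    allY (E.wth (lkp [])) l11867 = true ∧
    allY (E.wth (lkp [])) l11868 = true ∧
    allY (E.wth (lkp [])) l11869 = true ∧
    allY (E.wth (lkp [])) l11870 = true ∧
    allY (E.wth (lkp [])) l11871 = true ∧
    allY (E.wth (lkp [])) l11872 = true ∧
    allY (E.wth (lkp [])) l11873 = true :=
  ⟨by decide +kernel, by decide +kernel, by decide +kernel, by decide +kernel, by decide +kernel, by decide +kernel, by decide +kernel, by decide +kernel⟩

def t11874 : allY (E.wth (lkp [])) l11874 = true ∧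
    allY (E.wth (lkp [])) l11875 = true ∧
    allY (E.wth (lkp [])) l11876 = true ∧
    allY (E.wth (lkp [])) l11877 = true ∧
    allY (E.wth (lkp [])) l11878 = true ∧
    allY (E.wth (lkp [])) l11879 = true ∧
    allY (E.wth (lkp [])) l11880 = true ∧
    allY (E.wth (lkp [])) l11881 = true :=
  ⟨by decide +kernel, by decide +kernel, by decide +kernel, by decide +kernel, by decide +kernel, by decide +kernel, by decide +kernel, by decide +kernel⟩

def t11882 : allY (E.wth (lkp [])) l11882 = true ∧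
    allY (E.wth (lkp [])) l11883 = true ∧
    allY (E.wth (lkp [])) l11884 = true ∧
    allY (E.wth (lkp [])) l11885 = true ∧
    allY (E.wth (lkp [])) l11886 = true ∧
    allY (E.wth (lkp [])) l11887 = true ∧
    allY (E.wth (lkp [])) l11888 = true ∧
    allY (E.wth (lkp [])) l11889 = true :=
  ⟨by decide +kernel, by decide +kernel, by decide +kernel, by decide +kernel, by decide +kernel, by decide +kernel, by decide +kernel, by decide +kernel⟩

def t11890 : allY (E.wth (lkp [])) l11890 = true ∧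
    allY (E.wth (lkp [])) l11891 = true ∧
    allY (E.wth (lkp [])) l11892 = true ∧
    allY (E.wth (lkp [])) l11893 = true ∧
    allY (E.wth (lkp [])) l11894 = true ∧
    allY (E.wth (lkp [])) l11895 = true ∧
    allY (E.wth (lkp [])) l11896 = true ∧
    allY (E.wth (lkp [])) l11897 = true :=
  ⟨by decide +kernel, by decide +kernel, by decide +kernel, by decide +kernel, by decide +kernel, by decide +kernel, by decide +kernel, by decide +kernel⟩

def t11898 : allY (E.wth (lkp [])) l11898 = true ∧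
    allY (E.wth (lkp [])) l11899 = true ∧
    allY (E.wth (lkp [])) l11900 = true ∧
    allY (E.wth (lkp [])) l11901 = true ∧
    allY (E.wth (lkp [])) l11902 = true ∧
    allY (E.wth (lkp [])) l11903 = true ∧
    allY (E.wth (lkp [])) l11904 = true ∧
    allY (E.wth (lkp [])) l11905 = true :=
  ⟨by decide +kernel, by decide +kernel, by decide +kernel, by decide +kernel, by decide +kernel, by decide +kernel, by decide +kernel, by decide +kernel⟩

def t11906 : allY (E.wth (lkp [])) l11906 = true ∧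
    allY (E.wth (lkp [])) l11907 = true ∧
    allY (E.wth (lkp [])) l11908 = true ∧
    allY (E.wth (lkp [])) l11909 = true ∧
    allY (E.wth (lkp [])) l11910 = true ∧
    allY (E.wth (lkp [])) l11911 = true ∧
    allY (E.wth (lkp [])) l11912 = true ∧
    allY (E.wth (lkp [])) l11913 = true :=
  ⟨by decide +kernel, by decide +kernel, by decide +kernel, by decide +kernel, by decide +kernel, by decide +kernel, by decide +kernel, by decide +kernel⟩

def t11914 : allY (E.wth (lkp [])) l11914 = true ∧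
    allY (E.wth (lkp [])) l11915 = true ∧
    allY (E.wth (lkp [])) l11916 = true ∧
    allY (E.wth (lkp [])) l11917 = true ∧
    allY (E.wth (lkp [])) l11918 = true ∧
    allY (E.wth (lkp [])) l11919 = true ∧
    allY (E.wth (lkp [])) l11920 = true ∧
    allY (E.wth (lkp [])) l11921 = true :=
  ⟨by decide +kernel, by decide +kernel, by decide +kernel, by decide +kernel, by decide +kernel, by decide +kernel, by decide +kernel, by decide +kernel⟩

def t11922 : allY (E.wth (lkp [])) l11922 = true ∧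
    allY (E.wth (lkp [])) l11923 = true ∧
    allY (E.wth (lkp [])) l11924 = true ∧
    allY (E.wth (lkp [])) l11925 = true ∧
    allY (E.wth (lkp [])) l11926 = true ∧
    allY (E.wth (lkp [])) l11927 = true ∧
    allY (E.wth (lkp [])) l11928 = true ∧
    allY (E.wth (lkp [])) l11929 = true :=
  ⟨by decide +kernel, by decide +kernel, by decide +kernel, by decide +kernel, by decide +kernel, by decide +kernel, by decide +kernel, by decide +kernel⟩

def t11930 : allY (E.wth (lkp [])) l11930 = true ∧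
    allY (E.wth (lkp [])) l11931 = true ∧
    allY (E.wth (lkp [])) l11932 = true ∧
    allY (E.wth (lkp [])) l11933 = true ∧
    allY (E.wth (lkp [])) l11934 = true ∧
    allY (E.wth (lkp [])) l11935 = true ∧
    allY (E.wth (lkp [])) l11936 = true ∧
    allY (E.wth (lkp [])) l11937 = true :=
  ⟨by decide +kernel, by decide +kernel, by decide +kernel, by decide +kernel, by decide +kernel, by decide +kernel, by decide +kernel, by decide +kernel⟩

def t11938 : allY (E.wth (lkp [])) l11938 = true ∧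
    allY (E.wth (lkp [])) l11939 = true ∧
    allY (E.wth (lkp [])) l11940 = true ∧
    allY (E.wth (lkp [])) l11941 = true ∧
    allY (E.wth (lkp [])) l11942 = true ∧
    allY (E.wth (lkp [])) l11943 = true ∧
    allY (E.wth (lkp [])) l11944 = true ∧
    allY (E.wth (lkp [])) l11945 = true :=
  ⟨by decide +kernel, by decide +kernel, by decide +kernel, by decide +kernel, by decide +kernel, by decide +kernel, by decide +kernel, by decide +kernel⟩

def t11946 : allY (E.wth (lkp [])) l11946 = true ∧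
    allY (E.wth (lkp [])) l11947 = true ∧
    allY (E.wth (lkp [])) l11948 = true ∧
    allY (E.wth (lkp [])) l11949 = true ∧
    allY (E.wth (lkp [])) l11950 = true ∧
    allY (E.wth (lkp [])) l11951 = true ∧
    allY (E.wth (lkp [])) l11952 = true ∧
    allY (E.wth (lkp [])) l11953 = true :=
  ⟨by decide +kernel, by decide +kernel, by decide +kernel, by decide +kernel, by decide +kernel, by decide +kernel, by decide +kernel, by decide +kernel⟩

def t11954 : allY (E.wth (lkp [])) l11954 = true ∧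
    allY (E.wth (lkp [])) l11955 = true ∧
    allY (E.wth (lkp [])) l11956 = true ∧
    allY (E.wth (lkp [])) l11957 = true ∧
    allY (E.wth (lkp [])) l11958 = true ∧
    allY (E.wth (lkp [])) l11959 = true ∧
    allY (E.wth (lkp [])) l11960 = true ∧
    allY (E.wth (lkp [])) l11961 = true :=
  ⟨by decide +kernel, by decide +kernel, by decide +kernel, by decide +kernel, by decide +kernel, by decide +kernel, by decide +kernel, by decide +kernel⟩

def t11962 : allY (E.wth (lkp [])) l11962 = true ∧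
    allY (E.wth (lkp [])) l11963 = true ∧
    allY (E.wth (lkp [])) l11964 = true ∧
    allY (E.wth (lkp [])) l11965 = true ∧
    allY (E.wth (lkp [])) l11966 = true ∧
    allY (E.wth (lkp [])) l11967 = true ∧
    allY (E.wth (lkp [])) l11968 = true ∧
    allY (E.wth (lkp [])) l11969 = true :=
  ⟨by decide +kernel, by decide +kernel, by decide +kernel, by decide +kernel, by decide +kernel, by decide +kernel, by decide +kernel, by decide +kernel⟩

def t11970 : allY (E.wth (lkp [])) l11970 = true ∧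
    allY (E.wth (lkp [])) l11971 = true ∧
    allY (E.wth (lkp [])) l11972 = true ∧
    allY (E.wth (lkp [])) l11973 = true ∧
    allY (E.wth (lkp [])) l11974 = true ∧
    allY (E.wth (lkp [])) l11975 = true ∧
    allY (E.wth (lkp [])) l11976 = true ∧
    allY (E.wth (lkp [])) l11977 = true :=
  ⟨by decide +kernel, by decide +kernel, by decide +kernel, by decide +kernel, by decide +kernel, by decide +kernel, by decide +kernel, by decide +kernel⟩

def t11978 : allY (E.wth (lkp [])) l11978 = true ∧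
    allY (E.wth (lkp [])) l11979 = true ∧
    allY (E.wth (lkp [])) l11980 = true ∧
    allY (E.wth (lkp [])) l11981 = true ∧
    allY (E.wth (lkp [])) l11982 = true ∧
    allY (E.wth (lkp [])) l11983 = true ∧
    allY (E.wth (lkp [])) l11984 = true ∧
    allY (E.wth (lkp [])) l11985 = true :=
  ⟨by decide +kernel, by decide +kernel, by decide +kernel, by decide +kernel, by decide +kernel, by decide +kernel, by decide +kernel, by decide +kernel⟩

def t11986 : allY (E.wth (lkp [])) l11986 = true ∧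
    allY (E.wth (lkp [])) l11987 = true ∧
    allY (E.wth (lkp [])) l11988 = true ∧
    allY (E.wth (lkp [])) l11989 = true ∧
    allY (E.wth (lkp [])) l11990 = true ∧
    allY (E.wth (lkp [])) l11991 = true ∧
    allY (E.wth (lkp [])) l11992 = true ∧
    allY (E.wth (lkp [])) l11993 = true :=
  ⟨by decide +kernel, by decide +kernel, by decide +kernel, by decide +kernel, by decide +kernel, by decide +kernel, by decide +kernel, by decide +kernel⟩

def t11994 : allY (E.wth (lkp [])) l11994 = true ∧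
    allY (E.wth (lkp [])) l11995 = true ∧
    allY (E.wth (lkp [])) l11996 = true ∧
    allY (E.wth (lkp [])) l11997 = true ∧
    allY (E.wth (lkp [])) l11998 = true ∧
    allY (E.wth (lkp [])) l11999 = true ∧
    allY (E.wth (lkp [])) l12000 = true ∧
    allY (E.wth (lkp [])) l12001 = true :=
  ⟨by decide +kernel, by decide +kernel, by decide +kernel, by decide +kernel, by decide +kernel, by decide +kernel, by decide +kernel, by decide +kernel⟩

def t12002 : allY (E.wth (lkp [])) l12002 = true ∧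
    allY (E.wth (lkp [])) l12003 = true ∧
    allY (E.wth (lkp [])) l12004 = true ∧
    allY (E.wth (lkp [])) l12005 = true ∧
    allY (E.wth (lkp [])) l12006 = true ∧
    allY (E.wth (lkp [])) l12007 = true ∧
    allY (E.wth (lkp [])) l12008 = true ∧
    allY (E.wth (lkp [])) l12009 = true :=
  ⟨by decide +kernel, by decide +kernel, by decide +kernel, by decide +kernel, by decide +kernel, by decide +kernel, by decide +kernel, by decide +kernel⟩

def t12010 : allY (E.wth (lkp [])) l12010 = true ∧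
    allY (E.wth (lkp [])) l12011 = true ∧
    allY (E.wth (lkp [])) l12012 = true ∧
    allY (E.wth (lkp [])) l12013 = true ∧
    allY (E.wth (lkp [])) l12014 = true ∧
    allY (E.wth (lkp [])) l12015 = true ∧
    allY (E.wth (lkp [])) l12016 = true ∧
    allY (E.wth (lkp [])) l12017 = true :=
  ⟨by decide +kernel, by decide +kernel, by decide +kernel, by decide +kernel, by decide +kernel, by decide +kernel, by decide +kernel, by decide +kernel⟩

def t12018 : allY (E.wth (lkp [])) l12018 = true ∧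
    allY (E.wth (lkp [])) l12019 = true ∧
    allY (E.wth (lkp [])) l12020 = true ∧
    allY (E.wth (lkp [])) l12021 = true ∧
    allY (E.wth (lkp [])) l12022 = true ∧
    allY (E.wth (lkp [])) l12023 = true ∧
    allY (E.wth (lkp [])) l12024 = true ∧
    allY (E.wth (lkp [])) l12025 = true :=
  ⟨by decide +kernel, by decide +kernel, by decide +kernel, by decide +kernel, by decide +kernel, by decide +kernel, by decide +kernel, by decide +kernel⟩

def t12026 : allY (E.wth (lkp [])) l12026 = true ∧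
    allY (E.wth (lkp [])) l12027 = true ∧
    allY (E.wth (lkp [])) l12028 = true ∧
    allY (E.wth (lkp [])) l12029 = true ∧
    allY (E.wth (lkp [])) l12030 = true ∧
    allY (E.wth (lkp [])) l12031 = true ∧
    allY (E.wth (lkp [])) l12032 = true ∧
    allY (E.wth (lkp [])) l12033 = true :=
  ⟨by decide +kernel, by decide +kernel, by decide +kernel, by decide +kernel, by decide +kernel, by decide +kernel, by decide +kernel, by decide +kernel⟩

def t12034 : allY (E.wth (lkp [])) l12034 = true ∧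
    allY (E.wth (lkp [])) l12035 = true ∧
    allY (E.wth (lkp [])) l12036 = true ∧
    allY (E.wth (lkp [])) l12037 = true ∧
    allY (E.wth (lkp [])) l12038 = true ∧
    allY (E.wth (lkp [])) l12039 = true ∧
    allY (E.wth (lkp [])) l12040 = true ∧
    allY (E.wth (lkp [])) l12041 = true :=
  ⟨by decide +kernel, by decide +kernel, by decide +kernel, by decide +kernel, by decide +kernel, by decide +kernel, by decide +kernel, by decide +kernel⟩

def t12042 : allY (E.wth (lkp [])) l12042 = true ∧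
    allY (E.wth (lkp [])) l12043 = true ∧
    allY (E.wth (lkp [])) l12044 = true ∧
    allY (E.wth (lkp [])) l12045 = true ∧
    allY (E.wth (lkp [])) l12046 = true ∧
    allY (E.wth (lkp [])) l12047 = true ∧
    allY (E.wth (lkp [])) l12048 = true ∧
    allY (E.wth (lkp [])) l12049 = true :=
  ⟨by decide +kernel, by decide +kernel, by decide +kernel, by decide +kernel, by decide +kernel, by decide +kernel, by decide +kernel, by decide +kernel⟩

def t12050 : allY (E.wth (lkp [])) l12050 = true ∧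
    allY (E.wth (lkp [])) l12051 = true ∧
    allY (E.wth (lkp [])) l12052 = true ∧
    allY (E.wth (lkp [])) l12053 = true ∧
    allY (E.wth (lkp [])) l12054 = true ∧
    allY (E.wth (lkp [])) l12055 = true ∧
    allY (E.wth (lkp [])) l12056 = true ∧
    allY (E.wth (lkp [])) l12057 = true :=
  ⟨by decide +kernel, by decide +kernel, by decide +kernel, by decide +kernel, by decide +kernel, by decide +kernel, by decide +kernel, by decide +kernel⟩

def t12058 : allY (E.wth (lkp [])) l12058 = true ∧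
    allY (E.wth (lkp [])) l12059 = true ∧
    allY (E.wth (lkp [])) l12060 = true ∧
    allY (E.wth (lkp [])) l12061 = true ∧
    allY (E.wth (lkp [])) l12062 = true ∧
    allY (E.wth (lkp [])) l12063 = true ∧
    allY (E.wth (lkp [])) l12064 = true ∧
    allY (E.wth (lkp [])) l12065 = true :=
  ⟨by decide +kernel, by decide +kernel, by decide +kernel, by decide +kernel, by decide +kernel, by decide +kernel, by decide +kernel, by decide +kernel⟩

def t12066 : allY (E.wth (lkp [])) l12066 = true ∧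
    allY (E.wth (lkp [])) l12067 = true ∧
    allY (E.wth (lkp [])) l12068 = true ∧
    allY (E.wth (lkp [])) l12069 = true ∧
    allY (E.wth (lkp [])) l12070 = true ∧
    allY (E.wth (lkp [])) l12071 = true ∧
    allY (E.wth (lkp [])) l12072 = true ∧
    allY (E.wth (lkp [])) l12073 = true :=
  ⟨by decide +kernel, by decide +kernel, by decide +kernel, by decide +kernel, by decide +kernel, by decide +kernel, by decide +kernel, by decide +kernel⟩

def t12074 : allY (E.wth (lkp [])) l12074 = true ∧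
    allY (E.wth (lkp [])) l12075 = true ∧
    allY (E.wth (lkp [])) l12076 = true ∧
    allY (E.wth (lkp [])) l12077 = true ∧
    allY (E.wth (lkp [])) l12078 = true ∧
    allY (E.wth (lkp [])) l12079 = true ∧
    allY (E.wth (lkp [])) l12080 = true ∧
    allY (E.wth (lkp [])) l12081 = true :=
  ⟨by decide +kernel, by decide +kernel, by decide +kernel, by decide +kernel, by decide +kernel, by decide +kernel, by decide +kernel, by decide +kernel⟩

def t12082 : allY (E.wth (lkp [])) l12082 = true ∧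
    allY (E.wth (lkp [])) l12083 = true ∧
    allY (E.wth (lkp [])) l12084 = true ∧
    allY (E.wth (lkp [])) l12085 = true ∧
    allY (E.wth (lkp [])) l12086 = true ∧
    allY (E.wth (lkp [])) l12087 = true ∧
    allY (E.wth (lkp [])) l12088 = true ∧
    allY (E.wth (lkp [])) l12089 = true :=
  ⟨by decide +kernel, by decide +kernel, by decide +kernel, by decide +kernel, by decide +kernel, by decide +kernel, by decide +kernel, by decide +kernel⟩

def t12090 : allY (E.wth (lkp [])) l12090 = true ∧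
    allY (E.wth (lkp [])) l12091 = true ∧
    allY (E.wth (lkp [])) l12092 = true ∧
    allY (E.wth (lkp [])) l12093 = true ∧
    allY (E.wth (lkp [])) l12094 = true ∧
    allY (E.wth (lkp [])) l12095 = true ∧
    allY (E.wth (lkp [])) l12096 = true ∧
    allY (E.wth (lkp [])) l12097 = true :=
  ⟨by decide +kernel, by decide +kernel, by decide +kernel, by decide +kernel, by decide +kernel, by decide +kernel, by decide +kernel, by decide +kernel⟩

def t12098 : allY (E.wth (lkp [])) l12098 = true ∧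
    allY (E.wth (lkp [])) l12099 = true ∧
    allY (E.wth (lkp [])) l12100 = true ∧
    allY (E.wth (lkp [])) l12101 = true ∧
    allY (E.wth (lkp [])) l12102 = true ∧
    allY (E.wth (lkp [])) l12103 = true ∧
    allY (E.wth (lkp [])) l12104 = true ∧
    allY (E.wth (lkp [])) l12105 = true :=
  ⟨by decide +kernel, by decide +kernel, by decide +kernel, by decide +kernel, by decide +kernel, by decide +kernel, by decide +kernel, by decide +kernel⟩

def t12106 : allY (E.wth (lkp [])) l12106 = true ∧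
    allY (E.wth (lkp [])) l12107 = true ∧
    allY (E.wth (lkp [])) l12108 = true ∧
    allY (E.wth (lkp [])) l12109 = true ∧
    allY (E.wth (lkp [])) l12110 = true ∧
    allY (E.wth (lkp [])) l12111 = true ∧
    allY (E.wth (lkp [])) l12112 = true ∧
    allY (E.wth (lkp [])) l12113 = true :=
  ⟨by decide +kernel, by decide +kernel, by decide +kernel, by decide +kernel, by decide +kernel, by decide +kernel, by decide +kernel, by decide +kernel⟩

def t12114 : allY (E.wth (lkp [])) l12114 = true ∧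
    allY (E.wth (lkp [])) l12115 = true ∧
    allY (E.wth (lkp [])) l12116 = true ∧
    allY (E.wth (lkp [])) l12117 = true ∧
    allY (E.wth (lkp [])) l12118 = true ∧
    allY (E.wth (lkp [])) l12119 = true ∧
    allY (E.wth (lkp [])) l12120 = true ∧
    allY (E.wth (lkp [])) l12121 = true :=
  ⟨by decide +kernel, by decide +kernel, by decide +kernel, by decide +kernel, by decide +kernel, by decide +kernel, by decide +kernel, by decide +kernel⟩

def t12122 : allY (E.wth (lkp [])) l12122 = true ∧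
    allY (E.wth (lkp [])) l12123 = true ∧
    allY (E.wth (lkp [])) l12124 = true ∧
    allY (E.wth (lkp [])) l12125 = true ∧
    allY (E.wth (lkp [])) l12126 = true ∧
    allY (E.wth (lkp [])) l12127 = true ∧
    allY (E.wth (lkp [])) l12128 = true ∧
    allY (E.wth (lkp [])) l12129 = true :=
  ⟨by decide +kernel, by decide +kernel, by decide +kernel, by decide +kernel, by decide +kernel, by decide +kernel, by decide +kernel, by decide +kernel⟩

def t12130 : allY (E.wth (lkp [])) l12130 = true ∧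
    allY (E.wth (lkp [])) l12131 = true ∧
    allY (E.wth (lkp [])) l12132 = true ∧
    allY (E.wth (lkp [])) l12133 = true ∧
    allY (E.wth (lkp [])) l12134 = true ∧
    allY (E.wth (lkp [])) l12135 = true ∧
    allY (E.wth (lkp [])) l12136 = true ∧
    allY (E.wth (lkp [])) l12137 = true :=
  ⟨by decide +kernel, by decide +kernel, by decide +kernel, by decide +kernel, by decide +kernel, by decide +kernel, by decide +kernel, by decide +kernel⟩

def t12138 : allY (E.wth (lkp [])) l12138 = true ∧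
    allY (E.wth (lkp [])) l12139 = true ∧
    allY (E.wth (lkp [])) l12140 = true ∧
    allY (E.wth (lkp [])) l12141 = true ∧
    allY (E.wth (lkp [])) l12142 = true ∧
    allY (E.wth (lkp [])) l12143 = true ∧
    allY (E.wth (lkp [])) l12144 = true ∧
    allY (E.wth (lkp [])) l12145 = true :=
  ⟨by decide +kernel, by decide +kernel, by decide +kernel, by decide +kernel, by decide +kernel, by decide +kernel, by decide +kernel, by decide +kernel⟩

def t12146 : allY (E.wth (lkp [])) l12146 = true ∧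
    allY (E.wth (lkp [])) l12147 = true ∧
    allY (E.wth (lkp [])) l12148 = true ∧
    allY (E.wth (lkp [])) l12149 = true ∧
    allY (E.wth (lkp [])) l12150 = true ∧
    allY (E.wth (lkp [])) l12151 = true ∧
    allY (E.wth (lkp [])) l12152 = true ∧
    allY (E.wth (lkp [])) l12153 = true :=
  ⟨by decide +kernel, by decide +kernel, by decide +kernel, by decide +kernel, by decide +kernel, by decide +kernel, by decide +kernel, by decide +kernel⟩

def t12154 : allY (E.wth (lkp [])) l12154 = true ∧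
    allY (E.wth (lkp [])) l12155 = true ∧
    allY (E.wth (lkp [])) l12156 = true ∧
    allY (E.wth (lkp [])) l12157 = true ∧
    allY (E.wth (lkp [])) l12158 = true ∧
    allY (E.wth (lkp [])) l12159 = true ∧
    allY (E.wth (lkp [])) l12160 = true ∧
    allY (E.wth (lkp [])) l12161 = true :=
  ⟨by decide +kernel, by decide +kernel, by decide +kernel, by decide +kernel, by decide +kernel, by decide +kernel, by decide +kernel, by decide +kernel⟩

def t12162 : allY (E.wth (lkp [])) l12162 = true ∧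
    allY (E.wth (lkp [])) l12163 = true ∧
    allY (E.wth (lkp [])) l12164 = true ∧
    allY (E.wth (lkp [])) l12165 = true ∧
    allY (E.wth (lkp [])) l12166 = true ∧
    allY (E.wth (lkp [])) l12167 = true ∧
    allY (E.wth (lkp [])) l12168 = true ∧
    allY (E.wth (lkp [])) l12169 = true :=
  ⟨by decide +kernel, by decide +kernel, by decide +kernel, by decide +kernel, by decide +kernel, by decide +kernel, by decide +kernel, by decide +kernel⟩

def t12170 : allY (E.wth (lkp [])) l12170 = true ∧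
    allY (E.wth (lkp [])) l12171 = true ∧
    allY (E.wth (lkp [])) l12172 = true ∧
    allY (E.wth (lkp [])) l12173 = true ∧
    allY (E.wth (lkp [])) l12174 = true ∧
    allY (E.wth (lkp [])) l12175 = true ∧
    allY (E.wth (lkp [])) l12176 = true ∧
    allY (E.wth (lkp [])) l12177 = true :=
  ⟨by decide +kernel, by decide +kernel, by decide +kernel, by decide +kernel, by decide +kernel, by decide +kernel, by decide +kernel, by decide +kernel⟩

def t12178 : allY (E.wth (lkp [])) l12178 = true ∧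
    allY (E.wth (lkp [])) l12179 = true ∧
    allY (E.wth (lkp [])) l12180 = true ∧
    allY (E.wth (lkp [])) l12181 = true ∧
    allY (E.wth (lkp [])) l12182 = true ∧
    allY (E.wth (lkp [])) l12183 = true ∧
    allY (E.wth (lkp [])) l12184 = true ∧
    allY (E.wth (lkp [])) l12185 = true :=
  ⟨by decide +kernel, by decide +kernel, by decide +kernel, by decide +kernel, by decide +kernel, by decide +kernel, by decide +kernel, by decide +kernel⟩

def t12186 : allY (E.wth (lkp [])) l12186 = true ∧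
    allY (E.wth (lkp [])) l12187 = true ∧
    allY (E.wth (lkp [])) l12188 = true ∧
    allY (E.wth (lkp [])) l12189 = true ∧
    allY (E.wth (lkp [])) l12190 = true ∧
    allY (E.wth (lkp [])) l12191 = true ∧
    allY (E.wth (lkp [])) l12192 = true ∧
    allY (E.wth (lkp [])) l12193 = true :=
  ⟨by decide +kernel, by decide +kernel, by decide +kernel, by decide +kernel, by decide +kernel, by decide +kernel, by decide +kernel, by decide +kernel⟩

def t12194 : allY (E.wth (lkp [])) l12194 = true ∧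
    allY (E.wth (lkp [])) l12195 = true ∧
    allY (E.wth (lkp [])) l12196 = true ∧
    allY (E.wth (lkp [])) l12197 = true ∧
    allY (E.wth (lkp [])) l12198 = true ∧
    allY (E.wth (lkp [])) l12199 = true ∧
    allY (E.wth (lkp [])) l12200 = true ∧
    allY (E.wth (lkp [])) l12201 = true :=
  ⟨by decide +kernel, by decide +kernel, by decide +kernel, by decide +kernel, by decide +kernel, by decide +kernel, by decide +kernel, by decide +kernel⟩

def t12202 : allY (E.wth (lkp [])) l12202 = true ∧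
    allY (E.wth (lkp [])) l12203 = true ∧
    allY (E.wth (lkp [])) l12204 = true ∧
    allY (E.wth (lkp [])) l12205 = true ∧
    allY (E.wth (lkp [])) l12206 = true ∧
    allY (E.wth (lkp [])) l12207 = true ∧
    allY (E.wth (lkp [])) l12208 = true ∧
    allY (E.wth (lkp [])) l12209 = true :=
  ⟨by decide +kernel, by decide +kernel, by decide +kernel, by decide +kernel, by decide +kernel, by decide +kernel, by decide +kernel, by decide +kernel⟩

def t12210 : allY (E.wth (lkp [])) l12210 = true ∧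
    allY (E.wth (lkp [])) l12211 = true ∧
    allY (E.wth (lkp [])) l12212 = true ∧
    allY (E.wth (lkp [])) l12213 = true ∧
    allY (E.wth (lkp [])) l12214 = true ∧
    allY (E.wth (lkp [])) l12215 = true ∧
    allY (E.wth (lkp [])) l12216 = true ∧
    allY (E.wth (lkp [])) l12217 = true :=
  ⟨by decide +kernel, by decide +kernel, by decide +kernel, by decide +kernel, by decide +kernel, by decide +kernel, by decide +kernel, by decide +kernel⟩

def t12218 : allY (E.wth (lkp [])) l12218 = true ∧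
    allY (E.wth (lkp [])) l12219 = true ∧
    allY (E.wth (lkp [])) l12220 = true ∧
    allY (E.wth (lkp [])) l12221 = true ∧
    allY (E.wth (lkp [])) l12222 = true ∧
    allY (E.wth (lkp [])) l12223 = true ∧
    allY (E.wth (lkp [])) l12224 = true ∧
    allY (E.wth (lkp [])) l12225 = true :=
  ⟨by decide +kernel, by decide +kernel, by decide +kernel, by decide +kernel, by decide +kernel, by decide +kernel, by decide +kernel, by decide +kernel⟩

def t12226 : allY (E.wth (lkp [])) l12226 = true ∧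
    allY (E.wth (lkp [])) l12227 = true ∧
    allY (E.wth (lkp [])) l12228 = true ∧
    allY (E.wth (lkp [])) l12229 = true ∧
    allY (E.wth (lkp [])) l12230 = true ∧
    allY (E.wth (lkp [])) l12231 = true ∧
    allY (E.wth (lkp [])) l12232 = true ∧
    allY (E.wth (lkp [])) l12233 = true :=
  ⟨by decide +kernel, by decide +kernel, by decide +kernel, by decide +kernel, by decide +kernel, by decide +kernel, by decide +kernel, by decide +kernel⟩

def t12234 : allY (E.wth (lkp [])) l12234 = true ∧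
    allY (E.wth (lkp [])) l12235 = true ∧
    allY (E.wth (lkp [])) l12236 = true ∧
    allY (E.wth (lkp [])) l12237 = true ∧
    allY (E.wth (lkp [])) l12238 = true ∧
    allY (E.wth (lkp [])) l12239 = true ∧
    allY (E.wth (lkp [])) l12240 = true ∧
    allY (E.wth (lkp [])) l12241 = true :=
  ⟨by decide +kernel, by decide +kernel, by decide +kernel, by decide +kernel, by decide +kernel, by decide +kernel, by decide +kernel, by decide +kernel⟩

def t12242 : allY (E.wth (lkp [])) l12242 = true ∧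
    allY (E.wth (lkp [])) l12243 = true ∧
    allY (E.wth (lkp [])) l12244 = true ∧
    allY (E.wth (lkp [])) l12245 = true ∧
    allY (E.wth (lkp [])) l12246 = true ∧
    allY (E.wth (lkp [])) l12247 = true ∧
    allY (E.wth (lkp [])) l12248 = true ∧
    allY (E.wth (lkp [])) l12249 = true :=
  ⟨by decide +kernel, by decide +kernel, by decide +kernel, by decide +kernel, by decide +kernel, by decide +kernel, by decide +kernel, by decide +kernel⟩

def t12250 : allY (E.wth (lkp [])) l12250 = true ∧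
    allY (E.wth (lkp [])) l12251 = true ∧
    allY (E.wth (lkp [])) l12252 = true ∧
    allY (E.wth (lkp [])) l12253 = true ∧
    allY (E.wth (lkp [])) l12254 = true ∧
    allY (E.wth (lkp [])) l12255 = true ∧
    allY (E.wth (lkp [])) l12256 = true ∧
    allY (E.wth (lkp [])) l12257 = true :=
  ⟨by decide +kernel, by decide +kernel, by decide +kernel, by decide +kernel, by decide +kernel, by decide +kernel, by decide +kernel, by decide +kernel⟩

def t12258 : allY (E.wth (lkp [])) l12258 = true ∧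
    allY (E.wth (lkp [])) l12259 = true ∧
    allY (E.wth (lkp [])) l12260 = true ∧
    allY (E.wth (lkp [])) l12261 = true ∧
    allY (E.wth (lkp [])) l12262 = true ∧
    allY (E.wth (lkp [])) l12263 = true ∧
    allY (E.wth (lkp [])) l12264 = true ∧
    allY (E.wth (lkp [])) l12265 = true :=
  ⟨by decide +kernel, by decide +kernel, by decide +kernel, by decide +kernel, by decide +kernel, by decide +kernel, by decide +kernel, by decide +kernel⟩

def t12266 : allY (E.wth (lkp [])) l12266 = true ∧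
    allY (E.wth (lkp [])) l12267 = true ∧
    allY (E.wth (lkp [])) l12268 = true ∧
    allY (E.wth (lkp [])) l12269 = true ∧
    allY (E.wth (lkp [])) l12270 = true ∧
    allY (E.wth (lkp [])) l12271 = true ∧
    allY (E.wth (lkp [])) l12272 = true ∧
    allY (E.wth (lkp [])) l12273 = true :=
  ⟨by decide +kernel, by decide +kernel, by decide +kernel, by decide +kernel, by decide +kernel, by decide +kernel, by decide +kernel, by decide +kernel⟩

def t12274 : allY (E.wth (lkp [])) l12274 = true ∧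
    allY (E.wth (lkp [])) l12275 = true ∧
    allY (E.wth (lkp [])) l12276 = true ∧
    allY (E.wth (lkp [])) l12277 = true ∧
    allY (E.wth (lkp [])) l12278 = true ∧
    allY (E.wth (lkp [])) l12279 = true ∧
    allY (E.wth (lkp [])) l12280 = true ∧
    allY (E.wth (lkp [])) l12281 = true :=
  ⟨by decide +kernel, by decide +kernel, by decide +kernel, by decide +kernel, by decide +kernel, by decide +kernel, by decide +kernel, by decide +kernel⟩

def t12282 : allY (E.wth (lkp [])) l12282 = true ∧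
    allY (E.wth (lkp [])) l12283 = true ∧
    allY (E.wth (lkp [])) l12284 = true ∧
    allY (E.wth (lkp [])) l12285 = true ∧
    allY (E.wth (lkp [])) l12286 = true ∧
    allY (E.wth (lkp [])) l12287 = true ∧
    allY (E.wth (lkp [])) l12288 = true ∧
    allY (E.wth (lkp [])) l12289 = true :=
  ⟨by decide +kernel, by decide +kernel, by decide +kernel, by decide +kernel, by decide +kernel, by decide +kernel, by decide +kernel, by decide +kernel⟩

def t12290 : allY (E.wth (lkp [])) l12290 = true ∧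
    allY (E.wth (lkp [])) l12291 = true ∧
    allY (E.wth (lkp [])) l12292 = true ∧
    allY (E.wth (lkp [])) l12293 = true ∧
    allY (E.wth (lkp [])) l12294 = true ∧
    allY (E.wth (lkp [])) l12295 = true ∧
    allY (E.wth (lkp [])) l12296 = true ∧
    allY (E.wth (lkp [])) l12297 = true :=
  ⟨by decide +kernel, by decide +kernel, by decide +kernel, by decide +kernel, by decide +kernel, by decide +kernel, by decide +kernel, by decide +kernel⟩

def t12298 : allY (E.wth (lkp [])) l12298 = true ∧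
    allY (E.wth (lkp [])) l12299 = true ∧
    allY (E.wth (lkp [])) l12300 = true ∧
    allY (E.wth (lkp [])) l12301 = true ∧
    allY (E.wth (lkp [])) l12302 = true ∧
    allY (E.wth (lkp [])) l12303 = true ∧
    allY (E.wth (lkp [])) l12304 = true ∧
    allY (E.wth (lkp [])) l12305 = true :=
  ⟨by decide +kernel, by decide +kernel, by decide +kernel, by decide +kernel, by decide +kernel, by decide +kernel, by decide +kernel, by decide +kernel⟩

def t12306 : allY (E.wth (lkp [])) l12306 = true ∧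
    allY (E.wth (lkp [])) l12307 = true ∧
    allY (E.wth (lkp [])) l12308 = true ∧
    allY (E.wth (lkp [])) l12309 = true ∧
    allY (E.wth (lkp [])) l12310 = true :=
  ⟨by decide +kernel, by decide +kernel, by decide +kernel, by decide +kernel, by decide +kernel⟩

theorem a21 {p : Rf → Prop} (H : ∀ l, allY (E.wth (lkp [])) l = true → (lkp l).All p) :
    b21.All p := ⟨⟨⟨⟨⟨⟨⟨⟨⟨H _ t11754.1, H _ t11754.2.1⟩, ⟨H _ t11754.2.2.1, H _ t11754.2.2.2.1⟩⟩, ⟨⟨H _ t11754.2.2.2.2.1, H _ t11754.2.2.2.2.2.1⟩, ⟨H _ t11754.2.2.2.2.2.2.1, H _ t11754.2.2.2.2.2.2.2⟩⟩⟩, ⟨⟨⟨H _ t11762.1, H _ t11762.2.1⟩, ⟨H _ t11762.2.2.1, H _ t11762.2.2.2.1⟩⟩, ⟨⟨H _ t11762.2.2.2.2.1, H _ t11762.2.2.2.2.2.1⟩, ⟨H _ t11762.2.2.2.2.2.2.1, ⟨H _ t11762.2.2.2.2.2.2.2, H _ t11770.1⟩⟩⟩⟩⟩, ⟨⟨⟨⟨H _ t11770.2.1, H _ t11770.2.2.1⟩, ⟨H _ t11770.2.2.2.1, H _ t11770.2.2.2.2.1⟩⟩, ⟨⟨H _ t11770.2.2.2.2.2.1, H _ t11770.2.2.2.2.2.2.1⟩, ⟨H _ t11770.2.2.2.2.2.2.2,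 H _ t11778.1⟩⟩⟩, ⟨⟨⟨H _ t11778.2.1, H _ t11778.2.2.1⟩, ⟨H _ t11778.2.2.2.1, H _ t11778.2.2.2.2.1⟩⟩, ⟨⟨H _ t11778.2.2.2.2.2.1, H _ t11778.2.2.2.2.2.2.1⟩, ⟨H _ t11778.2.2.2.2.2.2.2, ⟨H _ t11786.1, H _ t11786.2.1⟩⟩⟩⟩⟩⟩, ⟨⟨⟨⟨⟨H _ t11786.2.2.1, H _ t11786.2.2.2.1⟩, ⟨H _ t11786.2.2.2.2.1, H _ t11786.2.2.2.2.2.1⟩⟩, ⟨⟨H _ t11786.2.2.2.2.2.2.1, H _ t11786.2.2.2.2.2.2.2⟩, ⟨H _ t11794.1, H _ t11794.2.1⟩⟩⟩, ⟨⟨⟨H _ t11794.2.2.1, H _ t11794.2.2.2.1⟩, ⟨H _ t11794.2.2.2.2.1, H _ t11794.2.2.2.2.2.1⟩⟩, ⟨⟨H _ t11794.2.2.2.2.2.2.1, H _ t11794.2.2.2.2.2.2.2⟩, ⟨H _ t11802.1, ⟨H _ t11802.2.1, H _ t11802.2.2.1⟩⟩⟩⟩⟩, ⟨⟨⟨⟨H _ t11802.2.2.2.1, H _ t11802.2.2.2.2.1⟩, ⟨H _ t11802.2.2.2.2.2.1, H _ t11802.2.2.2.2.2.2.1⟩⟩, ⟨⟨H _ t11802.2.2.2.2.2.2.2, H _ t11810.1⟩, ⟨H _ t11810.2.1, ⟨H _ t11810.2.2.1, H _ t11810.2.2.2.1⟩⟩⟩⟩, ⟨⟨⟨H _ t11810.2.2.2.2.1, H _ t11810.2.2.2.2.2.1⟩, ⟨H _ t11810.2.2.2.2.2.2.1, H _ t11810.2.2.2.2.2.2.2⟩⟩,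 ⟨⟨H _ t11818.1, H _ t11818.2.1⟩, ⟨H _ t11818.2.2.1, ⟨H _ t11818.2.2.2.1, H _ t11818.2.2.2.2.1⟩⟩⟩⟩⟩⟩⟩, ⟨⟨⟨⟨⟨⟨H _ t11818.2.2.2.2.2.1, H _ t11818.2.2.2.2.2.2.1⟩, ⟨H _ t11818.2.2.2.2.2.2.2, H _ t11826.1⟩⟩, ⟨⟨H _ t11826.2.1, H _ t11826.2.2.1⟩, ⟨H _ t11826.2.2.2.1, H _ t11826.2.2.2.2.1⟩⟩⟩, ⟨⟨⟨H _ t11826.2.2.2.2.2.1, H _ t11826.2.2.2.2.2.2.1⟩, ⟨H _ t11826.2.2.2.2.2.2.2, H _ t11834.1⟩⟩, ⟨⟨H _ t11834.2.1, H _ t11834.2.2.1⟩, ⟨H _ t11834.2.2.2.1, ⟨H _ t11834.2.2.2.2.1, H _ t11834.2.2.2.2.2.1⟩⟩⟩⟩⟩, ⟨⟨⟨⟨H _ t11834.2.2.2.2.2.2.1, H _ t11834.2.2.2.2.2.2.2⟩, ⟨H _ t11842.1, H _ t11842.2.1⟩⟩, ⟨⟨H _ t11842.2.2.1, H _ t11842.2.2.2.1⟩, ⟨H _ t11842.2.2.2.2.1, ⟨H _ t11842.2.2.2.2.2.1, H _ t11842.2.2.2.2.2.2.1⟩⟩⟩⟩, ⟨⟨⟨H _ t11842.2.2.2.2.2.2.2, H _ t11850.1⟩, ⟨H _ t11850.2.1, H _ t11850.2.2.1⟩⟩, ⟨⟨H _ t11850.2.2.2.1, H _ t11850.2.2.2.2.1⟩, ⟨H _ t11850.2.2.2.2.2.1, ⟨H _ t11850.2.2.2.2.2.2.1, H _ t11850.2.2.2.2.2.2.2⟩⟩⟩⟩⟩⟩,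 ⟨⟨⟨⟨⟨H _ t11858.1, H _ t11858.2.1⟩, ⟨H _ t11858.2.2.1, H _ t11858.2.2.2.1⟩⟩, ⟨⟨H _ t11858.2.2.2.2.1, H _ t11858.2.2.2.2.2.1⟩, ⟨H _ t11858.2.2.2.2.2.2.1, H _ t11858.2.2.2.2.2.2.2⟩⟩⟩, ⟨⟨⟨H _ t11866.1, H _ t11866.2.1⟩, ⟨H _ t11866.2.2.1, H _ t11866.2.2.2.1⟩⟩, ⟨⟨H _ t11866.2.2.2.2.1, H _ t11866.2.2.2.2.2.1⟩, ⟨H _ t11866.2.2.2.2.2.2.1, ⟨H _ t11866.2.2.2.2.2.2.2, H _ t11874.1⟩⟩⟩⟩⟩, ⟨⟨⟨⟨H _ t11874.2.1, H _ t11874.2.2.1⟩, ⟨H _ t11874.2.2.2.1, H _ t11874.2.2.2.2.1⟩⟩, ⟨⟨H _ t11874.2.2.2.2.2.1, H _ t11874.2.2.2.2.2.2.1⟩, ⟨H _ t11874.2.2.2.2.2.2.2, ⟨H _ t11882.1, H _ t11882.2.1⟩⟩⟩⟩, ⟨⟨⟨H _ t11882.2.2.1, H _ t11882.2.2.2.1⟩, ⟨H _ t11882.2.2.2.2.1, H _ t11882.2.2.2.2.2.1⟩⟩, ⟨⟨H _ t11882.2.2.2.2.2.2.1, H _ t11882.2.2.2.2.2.2.2⟩, ⟨H _ t11890.1, ⟨H _ t11890.2.1, H _ t11890.2.2.1⟩⟩⟩⟩⟩⟩⟩⟩, ⟨⟨⟨⟨⟨⟨⟨H _ t11890.2.2.2.1, H _ t11890.2.2.2.2.1⟩, ⟨H _ t11890.2.2.2.2.2.1, H _ t11890.2.2.2.2.2.2.1⟩⟩, ⟨⟨H _ t11890.2.2.2.2.2.2.2,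 H _ t11898.1⟩, ⟨H _ t11898.2.1, H _ t11898.2.2.1⟩⟩⟩, ⟨⟨⟨H _ t11898.2.2.2.1, H _ t11898.2.2.2.2.1⟩, ⟨H _ t11898.2.2.2.2.2.1, H _ t11898.2.2.2.2.2.2.1⟩⟩, ⟨⟨H _ t11898.2.2.2.2.2.2.2, H _ t11906.1⟩, ⟨H _ t11906.2.1, ⟨H _ t11906.2.2.1, H _ t11906.2.2.2.1⟩⟩⟩⟩⟩, ⟨⟨⟨⟨H _ t11906.2.2.2.2.1, H _ t11906.2.2.2.2.2.1⟩, ⟨H _ t11906.2.2.2.2.2.2.1, H _ t11906.2.2.2.2.2.2.2⟩⟩, ⟨⟨H _ t11914.1, H _ t11914.2.1⟩, ⟨H _ t11914.2.2.1, H _ t11914.2.2.2.1⟩⟩⟩, ⟨⟨⟨H _ t11914.2.2.2.2.1, H _ t11914.2.2.2.2.2.1⟩, ⟨H _ t11914.2.2.2.2.2.2.1, H _ t11914.2.2.2.2.2.2.2⟩⟩, ⟨⟨H _ t11922.1, H _ t11922.2.1⟩, ⟨H _ t11922.2.2.1, ⟨H _ t11922.2.2.2.1, H _ t11922.2.2.2.2.1⟩⟩⟩⟩⟩⟩, ⟨⟨⟨⟨⟨H _ t11922.2.2.2.2.2.1, H _ t11922.2.2.2.2.2.2.1⟩, ⟨H _ t11922.2.2.2.2.2.2.2, H _ t11930.1⟩⟩, ⟨⟨H _ t11930.2.1, H _ t11930.2.2.1⟩, ⟨H _ t11930.2.2.2.1, H _ t11930.2.2.2.2.1⟩⟩⟩, ⟨⟨⟨H _ t11930.2.2.2.2.2.1, H _ t11930.2.2.2.2.2.2.1⟩, ⟨H _ t11930.2.2.2.2.2.2.2,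 H _ t11938.1⟩⟩, ⟨⟨H _ t11938.2.1, H _ t11938.2.2.1⟩, ⟨H _ t11938.2.2.2.1, ⟨H _ t11938.2.2.2.2.1, H _ t11938.2.2.2.2.2.1⟩⟩⟩⟩⟩, ⟨⟨⟨⟨H _ t11938.2.2.2.2.2.2.1, H _ t11938.2.2.2.2.2.2.2⟩, ⟨H _ t11946.1, H _ t11946.2.1⟩⟩, ⟨⟨H _ t11946.2.2.1, H _ t11946.2.2.2.1⟩, ⟨H _ t11946.2.2.2.2.1, ⟨H _ t11946.2.2.2.2.2.1, H _ t11946.2.2.2.2.2.2.1⟩⟩⟩⟩, ⟨⟨⟨H _ t11946.2.2.2.2.2.2.2, H _ t11954.1⟩, ⟨H _ t11954.2.1, H _ t11954.2.2.1⟩⟩, ⟨⟨H _ t11954.2.2.2.1, H _ t11954.2.2.2.2.1⟩, ⟨H _ t11954.2.2.2.2.2.1, ⟨H _ t11954.2.2.2.2.2.2.1, H _ t11954.2.2.2.2.2.2.2⟩⟩⟩⟩⟩⟩⟩, ⟨⟨⟨⟨⟨⟨H _ t11962.1, H _ t11962.2.1⟩, ⟨H _ t11962.2.2.1, H _ t11962.2.2.2.1⟩⟩, ⟨⟨H _ t11962.2.2.2.2.1, H _ t11962.2.2.2.2.2.1⟩, ⟨H _ t11962.2.2.2.2.2.2.1, H _ t11962.2.2.2.2.2.2.2⟩⟩⟩, ⟨⟨⟨H _ t11970.1, H _ t11970.2.1⟩, ⟨H _ t11970.2.2.1, H _ t11970.2.2.2.1⟩⟩, ⟨⟨H _ t11970.2.2.2.2.1, H _ t11970.2.2.2.2.2.1⟩, ⟨H _ t11970.2.2.2.2.2.2.1, ⟨H _ t11970.2.2.2.2.2.2.2,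 H _ t11978.1⟩⟩⟩⟩⟩, ⟨⟨⟨⟨H _ t11978.2.1, H _ t11978.2.2.1⟩, ⟨H _ t11978.2.2.2.1, H _ t11978.2.2.2.2.1⟩⟩, ⟨⟨H _ t11978.2.2.2.2.2.1, H _ t11978.2.2.2.2.2.2.1⟩, ⟨H _ t11978.2.2.2.2.2.2.2, ⟨H _ t11986.1, H _ t11986.2.1⟩⟩⟩⟩, ⟨⟨⟨H _ t11986.2.2.1, H _ t11986.2.2.2.1⟩, ⟨H _ t11986.2.2.2.2.1, H _ t11986.2.2.2.2.2.1⟩⟩, ⟨⟨H _ t11986.2.2.2.2.2.2.1, H _ t11986.2.2.2.2.2.2.2⟩, ⟨H _ t11994.1, ⟨H _ t11994.2.1, H _ t11994.2.2.1⟩⟩⟩⟩⟩⟩, ⟨⟨⟨⟨⟨H _ t11994.2.2.2.1, H _ t11994.2.2.2.2.1⟩, ⟨H _ t11994.2.2.2.2.2.1, H _ t11994.2.2.2.2.2.2.1⟩⟩, ⟨⟨H _ t11994.2.2.2.2.2.2.2, H _ t12002.1⟩, ⟨H _ t12002.2.1, H _ t12002.2.2.1⟩⟩⟩, ⟨⟨⟨H _ t12002.2.2.2.1, H _ t12002.2.2.2.2.1⟩, ⟨H _ t12002.2.2.2.2.2.1, H _ t12002.2.2.2.2.2.2.1⟩⟩, ⟨⟨H _ t12002.2.2.2.2.2.2.2, H _ t12010.1⟩, ⟨H _ t12010.2.1, ⟨H _ t12010.2.2.1, H _ t12010.2.2.2.1⟩⟩⟩⟩⟩, ⟨⟨⟨⟨H _ t12010.2.2.2.2.1, H _ t12010.2.2.2.2.2.1⟩, ⟨H _ t12010.2.2.2.2.2.2.1, H _ t12010.2.2.2.2.2.2.2⟩⟩,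 ⟨⟨H _ t12018.1, H _ t12018.2.1⟩, ⟨H _ t12018.2.2.1, ⟨H _ t12018.2.2.2.1, H _ t12018.2.2.2.2.1⟩⟩⟩⟩, ⟨⟨⟨H _ t12018.2.2.2.2.2.1, H _ t12018.2.2.2.2.2.2.1⟩, ⟨H _ t12018.2.2.2.2.2.2.2, H _ t12026.1⟩⟩, ⟨⟨H _ t12026.2.1, H _ t12026.2.2.1⟩, ⟨H _ t12026.2.2.2.1, ⟨H _ t12026.2.2.2.2.1, H _ t12026.2.2.2.2.2.1⟩⟩⟩⟩⟩⟩⟩⟩⟩, ⟨⟨⟨⟨⟨⟨⟨⟨H _ t12026.2.2.2.2.2.2.1, H _ t12026.2.2.2.2.2.2.2⟩, ⟨H _ t12034.1, H _ t12034.2.1⟩⟩, ⟨⟨H _ t12034.2.2.1, H _ t12034.2.2.2.1⟩, ⟨H _ t12034.2.2.2.2.1, H _ t12034.2.2.2.2.2.1⟩⟩⟩, ⟨⟨⟨H _ t12034.2.2.2.2.2.2.1, H _ t12034.2.2.2.2.2.2.2⟩, ⟨H _ t12042.1, H _ t12042.2.1⟩⟩, ⟨⟨H _ t12042.2.2.1, H _ t12042.2.2.2.1⟩, ⟨H _ t12042.2.2.2.2.1, ⟨H _ t12042.2.2.2.2.2.1, H _ t12042.2.2.2.2.2.2.1⟩⟩⟩⟩⟩, ⟨⟨⟨⟨H _ t12042.2.2.2.2.2.2.2, H _ t12050.1⟩, ⟨H _ t12050.2.1, H _ t12050.2.2.1⟩⟩, ⟨⟨H _ t12050.2.2.2.1, H _ t12050.2.2.2.2.1⟩, ⟨H _ t12050.2.2.2.2.2.1, H _ t12050.2.2.2.2.2.2.1⟩⟩⟩, ⟨⟨⟨H _ t12050.2.2.2.2.2.2.2,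 H _ t12058.1⟩, ⟨H _ t12058.2.1, H _ t12058.2.2.1⟩⟩, ⟨⟨H _ t12058.2.2.2.1, H _ t12058.2.2.2.2.1⟩, ⟨H _ t12058.2.2.2.2.2.1, ⟨H _ t12058.2.2.2.2.2.2.1, H _ t12058.2.2.2.2.2.2.2⟩⟩⟩⟩⟩⟩, ⟨⟨⟨⟨⟨H _ t12066.1, H _ t12066.2.1⟩, ⟨H _ t12066.2.2.1, H _ t12066.2.2.2.1⟩⟩, ⟨⟨H _ t12066.2.2.2.2.1, H _ t12066.2.2.2.2.2.1⟩, ⟨H _ t12066.2.2.2.2.2.2.1, H _ t12066.2.2.2.2.2.2.2⟩⟩⟩, ⟨⟨⟨H _ t12074.1, H _ t12074.2.1⟩, ⟨H _ t12074.2.2.1, H _ t12074.2.2.2.1⟩⟩, ⟨⟨H _ t12074.2.2.2.2.1, H _ t12074.2.2.2.2.2.1⟩, ⟨H _ t12074.2.2.2.2.2.2.1, ⟨H _ t12074.2.2.2.2.2.2.2, H _ t12082.1⟩⟩⟩⟩⟩, ⟨⟨⟨⟨H _ t12082.2.1, H _ t12082.2.2.1⟩, ⟨H _ t12082.2.2.2.1, H _ t12082.2.2.2.2.1⟩⟩, ⟨⟨H _ t12082.2.2.2.2.2.1, H _ t12082.2.2.2.2.2.2.1⟩, ⟨H _ t12082.2.2.2.2.2.2.2, ⟨H _ t12090.1, H _ t12090.2.1⟩⟩⟩⟩, ⟨⟨⟨H _ t12090.2.2.1, H _ t12090.2.2.2.1⟩, ⟨H _ t12090.2.2.2.2.1, H _ t12090.2.2.2.2.2.1⟩⟩, ⟨⟨H _ t12090.2.2.2.2.2.2.1, H _ t12090.2.2.2.2.2.2.2⟩,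 ⟨H _ t12098.1, ⟨H _ t12098.2.1, H _ t12098.2.2.1⟩⟩⟩⟩⟩⟩⟩, ⟨⟨⟨⟨⟨⟨H _ t12098.2.2.2.1, H _ t12098.2.2.2.2.1⟩, ⟨H _ t12098.2.2.2.2.2.1, H _ t12098.2.2.2.2.2.2.1⟩⟩, ⟨⟨H _ t12098.2.2.2.2.2.2.2, H _ t12106.1⟩, ⟨H _ t12106.2.1, H _ t12106.2.2.1⟩⟩⟩, ⟨⟨⟨H _ t12106.2.2.2.1, H _ t12106.2.2.2.2.1⟩, ⟨H _ t12106.2.2.2.2.2.1, H _ t12106.2.2.2.2.2.2.1⟩⟩, ⟨⟨H _ t12106.2.2.2.2.2.2.2, H _ t12114.1⟩, ⟨H _ t12114.2.1, ⟨H _ t12114.2.2.1, H _ t12114.2.2.2.1⟩⟩⟩⟩⟩, ⟨⟨⟨⟨H _ t12114.2.2.2.2.1, H _ t12114.2.2.2.2.2.1⟩, ⟨H _ t12114.2.2.2.2.2.2.1, H _ t12114.2.2.2.2.2.2.2⟩⟩, ⟨⟨H _ t12122.1, H _ t12122.2.1⟩, ⟨H _ t12122.2.2.1, ⟨H _ t12122.2.2.2.1, H _ t12122.2.2.2.2.1⟩⟩⟩⟩, ⟨⟨⟨H _ t12122.2.2.2.2.2.1, H _ t12122.2.2.2.2.2.2.1⟩, ⟨H _ t12122.2.2.2.2.2.2.2, H _ t12130.1⟩⟩, ⟨⟨H _ t12130.2.1, H _ t12130.2.2.1⟩, ⟨H _ t12130.2.2.2.1, ⟨H _ t12130.2.2.2.2.1, H _ t12130.2.2.2.2.2.1⟩⟩⟩⟩⟩⟩, ⟨⟨⟨⟨⟨H _ t12130.2.2.2.2.2.2.1, H _ t12130.2.2.2.2.2.2.2⟩,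 ⟨H _ t12138.1, H _ t12138.2.1⟩⟩, ⟨⟨H _ t12138.2.2.1, H _ t12138.2.2.2.1⟩, ⟨H _ t12138.2.2.2.2.1, H _ t12138.2.2.2.2.2.1⟩⟩⟩, ⟨⟨⟨H _ t12138.2.2.2.2.2.2.1, H _ t12138.2.2.2.2.2.2.2⟩, ⟨H _ t12146.1, H _ t12146.2.1⟩⟩, ⟨⟨H _ t12146.2.2.1, H _ t12146.2.2.2.1⟩, ⟨H _ t12146.2.2.2.2.1, ⟨H _ t12146.2.2.2.2.2.1, H _ t12146.2.2.2.2.2.2.1⟩⟩⟩⟩⟩, ⟨⟨⟨⟨H _ t12146.2.2.2.2.2.2.2, H _ t12154.1⟩, ⟨H _ t12154.2.1, H _ t12154.2.2.1⟩⟩, ⟨⟨H _ t12154.2.2.2.1, H _ t12154.2.2.2.2.1⟩, ⟨H _ t12154.2.2.2.2.2.1, ⟨H _ t12154.2.2.2.2.2.2.1, H _ t12154.2.2.2.2.2.2.2⟩⟩⟩⟩, ⟨⟨⟨H _ t12162.1, H _ t12162.2.1⟩, ⟨H _ t12162.2.2.1, H _ t12162.2.2.2.1⟩⟩, ⟨⟨H _ t12162.2.2.2.2.1, H _ t12162.2.2.2.2.2.1⟩, ⟨H _ t12162.2.2.2.2.2.2.1, ⟨H _ t12162.2.2.2.2.2.2.2, H _ t12170.1⟩⟩⟩⟩⟩⟩⟩⟩, ⟨⟨⟨⟨⟨⟨⟨H _ t12170.2.1, H _ t12170.2.2.1⟩, ⟨H _ t12170.2.2.2.1, H _ t12170.2.2.2.2.1⟩⟩, ⟨⟨H _ t12170.2.2.2.2.2.1, H _ t12170.2.2.2.2.2.2.1⟩, ⟨H _ t12170.2.2.2.2.2.2.2,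 H _ t12178.1⟩⟩⟩, ⟨⟨⟨H _ t12178.2.1, H _ t12178.2.2.1⟩, ⟨H _ t12178.2.2.2.1, H _ t12178.2.2.2.2.1⟩⟩, ⟨⟨H _ t12178.2.2.2.2.2.1, H _ t12178.2.2.2.2.2.2.1⟩, ⟨H _ t12178.2.2.2.2.2.2.2, ⟨H _ t12186.1, H _ t12186.2.1⟩⟩⟩⟩⟩, ⟨⟨⟨⟨H _ t12186.2.2.1, H _ t12186.2.2.2.1⟩, ⟨H _ t12186.2.2.2.2.1, H _ t12186.2.2.2.2.2.1⟩⟩, ⟨⟨H _ t12186.2.2.2.2.2.2.1, H _ t12186.2.2.2.2.2.2.2⟩, ⟨H _ t12194.1, ⟨H _ t12194.2.1, H _ t12194.2.2.1⟩⟩⟩⟩, ⟨⟨⟨H _ t12194.2.2.2.1, H _ t12194.2.2.2.2.1⟩, ⟨H _ t12194.2.2.2.2.2.1, H _ t12194.2.2.2.2.2.2.1⟩⟩, ⟨⟨H _ t12194.2.2.2.2.2.2.2, H _ t12202.1⟩, ⟨H _ t12202.2.1, ⟨H _ t12202.2.2.1, H _ t12202.2.2.2.1⟩⟩⟩⟩⟩⟩, ⟨⟨⟨⟨⟨H _ t12202.2.2.2.2.1, H _ t12202.2.2.2.2.2.1⟩, ⟨H _ t12202.2.2.2.2.2.2.1, H _ t12202.2.2.2.2.2.2.2⟩⟩, ⟨⟨H _ t12210.1, H _ t12210.2.1⟩, ⟨H _ t12210.2.2.1, H _ t12210.2.2.2.1⟩⟩⟩, ⟨⟨⟨H _ t12210.2.2.2.2.1, H _ t12210.2.2.2.2.2.1⟩, ⟨H _ t12210.2.2.2.2.2.2.1, H _ t12210.2.2.2.2.2.2.2⟩⟩,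 ⟨⟨H _ t12218.1, H _ t12218.2.1⟩, ⟨H _ t12218.2.2.1, ⟨H _ t12218.2.2.2.1, H _ t12218.2.2.2.2.1⟩⟩⟩⟩⟩, ⟨⟨⟨⟨H _ t12218.2.2.2.2.2.1, H _ t12218.2.2.2.2.2.2.1⟩, ⟨H _ t12218.2.2.2.2.2.2.2, H _ t12226.1⟩⟩, ⟨⟨H _ t12226.2.1, H _ t12226.2.2.1⟩, ⟨H _ t12226.2.2.2.1, ⟨H _ t12226.2.2.2.2.1, H _ t12226.2.2.2.2.2.1⟩⟩⟩⟩, ⟨⟨⟨H _ t12226.2.2.2.2.2.2.1, H _ t12226.2.2.2.2.2.2.2⟩, ⟨H _ t12234.1, H _ t12234.2.1⟩⟩, ⟨⟨H _ t12234.2.2.1, H _ t12234.2.2.2.1⟩, ⟨H _ t12234.2.2.2.2.1, ⟨H _ t12234.2.2.2.2.2.1, H _ t12234.2.2.2.2.2.2.1⟩⟩⟩⟩⟩⟩⟩, ⟨⟨⟨⟨⟨⟨H _ t12234.2.2.2.2.2.2.2, H _ t12242.1⟩, ⟨H _ t12242.2.1, H _ t12242.2.2.1⟩⟩, ⟨⟨H _ t12242.2.2.2.1, H _ t12242.2.2.2.2.1⟩, ⟨H _ t12242.2.2.2.2.2.1, H _ t12242.2.2.2.2.2.2.1⟩⟩⟩, ⟨⟨⟨H _ t12242.2.2.2.2.2.2.2, H _ t12250.1⟩, ⟨H _ t12250.2.1, H _ t12250.2.2.1⟩⟩, ⟨⟨H _ t12250.2.2.2.1, H _ t12250.2.2.2.2.1⟩, ⟨H _ t12250.2.2.2.2.2.1, ⟨H _ t12250.2.2.2.2.2.2.1, H _ t12250.2.2.2.2.2.2.2⟩⟩⟩⟩⟩,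 ⟨⟨⟨⟨H _ t12258.1, H _ t12258.2.1⟩, ⟨H _ t12258.2.2.1, H _ t12258.2.2.2.1⟩⟩, ⟨⟨H _ t12258.2.2.2.2.1, H _ t12258.2.2.2.2.2.1⟩, ⟨H _ t12258.2.2.2.2.2.2.1, ⟨H _ t12258.2.2.2.2.2.2.2, H _ t12266.1⟩⟩⟩⟩, ⟨⟨⟨H _ t12266.2.1, H _ t12266.2.2.1⟩, ⟨H _ t12266.2.2.2.1, H _ t12266.2.2.2.2.1⟩⟩, ⟨⟨H _ t12266.2.2.2.2.2.1, H _ t12266.2.2.2.2.2.2.1⟩, ⟨H _ t12266.2.2.2.2.2.2.2, ⟨H _ t12274.1, H _ t12274.2.1⟩⟩⟩⟩⟩⟩, ⟨⟨⟨⟨⟨H _ t12274.2.2.1, H _ t12274.2.2.2.1⟩, ⟨H _ t12274.2.2.2.2.1, H _ t12274.2.2.2.2.2.1⟩⟩, ⟨⟨H _ t12274.2.2.2.2.2.2.1, H _ t12274.2.2.2.2.2.2.2⟩, ⟨H _ t12282.1, H _ t12282.2.1⟩⟩⟩, ⟨⟨⟨H _ t12282.2.2.1, H _ t12282.2.2.2.1⟩, ⟨H _ t12282.2.2.2.2.1, H _ t12282.2.2.2.2.2.1⟩⟩, ⟨⟨H _ t12282.2.2.2.2.2.2.1, H _ t12282.2.2.2.2.2.2.2⟩, ⟨H _ t12290.1, ⟨H _ t12290.2.1, H _ t12290.2.2.1⟩⟩⟩⟩⟩, ⟨⟨⟨⟨H _ t12290.2.2.2.1, H _ t12290.2.2.2.2.1⟩, ⟨H _ t12290.2.2.2.2.2.1, H _ t12290.2.2.2.2.2.2.1⟩⟩, ⟨⟨H _ t12290.2.2.2.2.2.2.2,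 H _ t12298.1⟩, ⟨H _ t12298.2.1, ⟨H _ t12298.2.2.1, H _ t12298.2.2.2.1⟩⟩⟩⟩, ⟨⟨⟨H _ t12298.2.2.2.2.1, H _ t12298.2.2.2.2.2.1⟩, ⟨H _ t12298.2.2.2.2.2.2.1, H _ t12298.2.2.2.2.2.2.2⟩⟩, ⟨⟨H _ t12306.1, H _ t12306.2.1⟩, ⟨H _ t12306.2.2.1, ⟨H _ t12306.2.2.2.1, H _ t12306.2.2.2.2⟩⟩⟩⟩⟩⟩⟩⟩⟩⟩

end Pool.Agent.MP_c853c5_nt.X.C4950
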