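import Pool.Agent.MP_c853c5_nt.X.C4950.Env
import Pool.Agent.MP_c853c5_nt.X.C4950.D4

set_option autoImplicit false
set_option maxRecDepth 8192
set_option linter.all false

namespace Pool.Agent.MP_c853c5_nt.X.C4950

open Pool.Agent.MP_c853c5_nt.X

def t12311 : allY (E.wth (lkp [])) l12311 = true ∧
    allY (E.wth (lkp [])) l12312 = true ∧
    allY (E.wth (lkp [])) l12313 = true ∧
    allY (E.wth (lkp [])) l12314 = true ∧
    allY (E.wth (lkp [])) l12315 = true ∧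
    allY (E.wth (lkp [])) l12316 = true ∧
    allY (E.wth (lkp [])) l12317 = true ∧
    allY (E.wth (lkp [])) l12318 = true :=
  ⟨by decide +kernel, by decide +kernel, by decide +kernel, by decide +kernel, by decide +kernel, by decide +kernel, by decide +kernel, by decide +kernel⟩

def t12319 : allY (E.wth (lkp [])) l12319 = true ∧
    allY (E.wth (lkp [])) l12320 = true ∧
    allY (E.wth (lkp [])) l12321 = true ∧
    allY (E.wth (lkp [])) l12322 = true ∧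
    allY (E.wth (lkp [])) l12323 = true ∧
    allY (E.wth (lkp [])) l12324 = true ∧
    allY (E.wth (lkp [])) l12325 = true ∧
    allY (E.wth (lkp [])) l12326 = true :=
  ⟨by decide +kernel, by decide +kernel, by decide +kernel, by decide +kernel, by decide +kernel, by decide +kernel, by decide +kernel, by decide +kernel⟩

def t12327 : allY (E.wth (lkp [])) l12327 = true ∧
    allY (E.wth (lkp [])) l12328 = true ∧
    allY (E.wth (lkp [])) l12329 = true ∧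
    allY (E.wth (lkp [])) l12330 = true ∧
    allY (E.wth (lkp [])) l12331 = true ∧
    allY (E.wth (lkp [])) l12332 = true ∧
    allY (E.wth (lkp [])) l12333 = true ∧
    allY (E.wth (lkp [])) l12334 = true :=
  ⟨by decide +kernel, by decide +kernel, by decide +kernel, by decide +kernel, by decide +kernel, by decide +kernel, by decide +kernel, by decide +kernel⟩

def t12335 : allY (E.wth (lkp [])) l12335 = true ∧
    allY (E.wth (lkp [])) l12336 = true ∧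
    allY (E.wth (lkp [])) l12337 = true ∧
    allY (E.wth (lkp [])) l12338 = true ∧
    allY (E.wth (lkp [])) l12339 = true ∧
    allY (E.wth (lkp [])) l12340 = true ∧
    allY (E.wth (lkp [])) l12341 = true ∧
    allY (E.wth (lkp [])) l12342 = true :=
  ⟨by decide +kernel, by decide +kernel, by decide +kernel, by decide +kernel, by decide +kernel, by decide +kernel, by decide +kernel, by decide +kernel⟩

def t12343 : allY (E.wth (lkp [])) l12343 = true ∧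
    allY (E.wth (lkp [])) l12344 = true ∧
    allY (E.wth (lkp [])) l12345 = true ∧
    allY (E.wth (lkp [])) l12346 = true ∧
    allY (E.wth (lkp [])) l12347 = true ∧
    allY (E.wth (lkp [])) l12348 = true ∧
    allY (E.wth (lkp [])) l12349 = true ∧
    allY (E.wth (lkp [])) l12350 = true :=
  ⟨by decide +kernel, by decide +kernel, by decide +kernel, by decide +kernel, by decide +kernel, by decide +kernel, by decide +kernel, by decide +kernel⟩

def t12351 : allY (E.wth (lkp [])) l12351 = true ∧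
    allY (E.wth (lkp [])) l12352 = true ∧
    allY (E.wth (lkp [])) l12353 = true ∧
    allY (E.wth (lkp [])) l12354 = true ∧
    allY (E.wth (lkp [])) l12355 = true ∧
    allY (E.wth (lkp [])) l12356 = true ∧
    allY (E.wth (lkp [])) l12357 = true ∧
    allY (E.wth (lkp [])) l12358 = true :=
  ⟨by decide +kernel, by decide +kernel, by decide +kernel, by decide +kernel, by decide +kernel, by decide +kernel, by decide +kernel, by decide +kernel⟩

def t12359 : allY (E.wth (lkp [])) l12359 = true ∧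
    allY (E.wth (lkp [])) l12360 = true ∧
    allY (E.wth (lkp [])) l12361 = true ∧
    allY (E.wth (lkp [])) l12362 = true ∧
    allY (E.wth (lkp [])) l12363 = true ∧
    allY (E.wth (lkp [])) l12364 = true ∧
    allY (E.wth (lkp [])) l12365 = true ∧
    allY (E.wth (lkp [])) l12366 = true :=
  ⟨by decide +kernel, by decide +kernel, by decide +kernel, by decide +kernel, by decide +kernel, by decide +kernel, by decide +kernel, by decide +kernel⟩

def t12367 : allY (E.wth (lkp [])) l12367 = true ∧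
    allY (E.wth (lkp [])) l12368 = true ∧
    allY (E.wth (lkp [])) l12369 = true ∧
    allY (E.wth (lkp [])) l12370 = true ∧
    allY (E.wth (lkp [])) l12371 = true ∧
    allY (E.wth (lkp [])) l12372 = true ∧
    allY (E.wth (lkp [])) l12373 = true ∧
    allY (E.wth (lkp [])) l12374 = true :=
  ⟨by decide +kernel, by decide +kernel, by decide +kernel, by decide +kernel, by decide +kernel, by decide +kernel, by decide +kernel, by decide +kernel⟩

def t12375 : allY (E.wth (lkp [])) l12375 = true ∧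
    allY (E.wth (lkp [])) l12376 = true ∧
    allY (E.wth (lkp [])) l12377 = true ∧
    allY (E.wth (lkp [])) l12378 = true ∧
    allY (E.wth (lkp [])) l12379 = true ∧
    allY (E.wth (lkp [])) l12380 = true ∧
    allY (E.wth (lkp [])) l12381 = true ∧
    allY (E.wth (lkp [])) l12382 = true :=
  ⟨by decide +kernel, by decide +kernel, by decide +kernel, by decide +kernel, by decide +kernel, by decide +kernel, by decide +kernel, by decide +kernel⟩

def t12383 : allY (E.wth (lkp [])) l12383 = true ∧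
    allY (E.wth (lkp [])) l12384 = true ∧
    allY (E.wth (lkp [])) l12385 = true ∧
    allY (E.wth (lkp [])) l12386 = true ∧
    allY (E.wth (lkp [])) l12387 = true ∧
    allY (E.wth (lkp [])) l12388 = true ∧
    allY (E.wth (lkp [])) l12389 = true ∧
    allY (E.wth (lkp [])) l12390 = true :=
  ⟨by decide +kernel, by decide +kernel, by decide +kernel, by decide +kernel, by decide +kernel, by decide +kernel, by decide +kernel, by decide +kernel⟩

def t12391 : allY (E.wth (lkp [])) l12391 = true ∧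
    allY (E.wth (lkp [])) l12392 = true ∧
    allY (E.wth (lkp [])) l12393 = true ∧
    allY (E.wth (lkp [])) l12394 = true ∧
    allY (E.wth (lkp [])) l12395 = true ∧
    allY (E.wth (lkp [])) l12396 = true ∧
    allY (E.wth (lkp [])) l12397 = true ∧
    allY (E.wth (lkp [])) l12398 = true :=
  ⟨by decide +kernel, by decide +kernel, by decide +kernel, by decide +kernel, by decide +kernel, by decide +kernel, by decide +kernel, by decide +kernel⟩

def t12399 : allY (E.wth (lkp [])) l12399 = true ∧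
    allY (E.wth (lkp [])) l12400 = true ∧
    allY (E.wth (lkp [])) l12401 = true ∧
    allY (E.wth (lkp [])) l12402 = true ∧
    allY (E.wth (lkp [])) l12403 = true ∧
    allY (E.wth (lkp [])) l12404 = true ∧
    allY (E.wth (lkp [])) l12405 = true ∧
    allY (E.wth (lkp [])) l12406 = true :=
  ⟨by decide +kernel, by decide +kernel, by decide +kernel, by decide +kernel, by decide +kernel, by decide +kernel, by decide +kernel, by decide +kernel⟩

def t12407 : allY (E.wth (lkp [])) l12407 = true ∧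
    allY (E.wth (lkp [])) l12408 = true ∧
    allY (E.wth (lkp [])) l12409 = true ∧
    allY (E.wth (lkp [])) l12410 = true ∧
    allY (E.wth (lkp [])) l12411 = true ∧
    allY (E.wth (lkp [])) l12412 = true ∧
    allY (E.wth (lkp [])) l12413 = true ∧
    allY (E.wth (lkp [])) l12414 = true :=
  ⟨by decide +kernel, by decide +kernel, by decide +kernel, by decide +kernel, by decide +kernel, by decide +kernel, by decide +kernel, by decide +kernel⟩

def t12415 : allY (E.wth (lkp [])) l12415 = true ∧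
    allY (E.wth (lkp [])) l12416 = true ∧
    allY (E.wth (lkp [])) l12417 = true ∧
    allY (E.wth (lkp [])) l12418 = true ∧
    allY (E.wth (lkp [])) l12419 = true ∧
    allY (E.wth (lkp [])) l12420 = true ∧
    allY (E.wth (lkp [])) l12421 = true ∧
    allY (E.wth (lkp [])) l12422 = true :=
  ⟨by decide +kernel, by decide +kernel, by decide +kernel, by decide +kernel, by decide +kernel, by decide +kernel, by decide +kernel, by decide +kernel⟩

def t12423 : allY (E.wth (lkp [])) l12423 = true ∧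
    allY (E.wth (lkp [])) l12424 = true ∧
    allY (E.wth (lkp [])) l12425 = true ∧
    allY (E.wth (lkp [])) l12426 = true ∧
    allY (E.wth (lkp [])) l12427 = true ∧
    allY (E.wth (lkp [])) l12428 = true ∧
    allY (E.wth (lkp [])) l12429 = true ∧
    allY (E.wth (lkp [])) l12430 = true :=
  ⟨by decide +kernel, by decide +kernel, by decide +kernel, by decide +kernel, by decide +kernel, by decide +kernel, by decide +kernel, by decide +kernel⟩

def t12431 : allY (E.wth (lkp [])) l12431 = true ∧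
    allY (E.wth (lkp [])) l12432 = true ∧
    allY (E.wth (lkp [])) l12433 = true ∧
    allY (E.wth (lkp [])) l12434 = true ∧
    allY (E.wth (lkp [])) l12435 = true ∧
    allY (E.wth (lkp [])) l12436 = true ∧
    allY (E.wth (lkp [])) l12437 = true ∧
    allY (E.wth (lkp [])) l12438 = true :=
  ⟨by decide +kernel, by decide +kernel, by decide +kernel, by decide +kernel, by decide +kernel, by decide +kernel, by decide +kernel, by decide +kernel⟩

def t12439 : allY (E.wth (lkp [])) l12439 = true ∧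
    allY (E.wth (lkp [])) l12440 = true ∧
    allY (E.wth (lkp [])) l12441 = true ∧
    allY (E.wth (lkp [])) l12442 = true ∧
    allY (E.wth (lkp [])) l12443 = true ∧
    allY (E.wth (lkp [])) l12444 = true ∧
    allY (E.wth (lkp [])) l12445 = true ∧
    allY (E.wth (lkp [])) l12446 = true :=
  ⟨by decide +kernel, by decide +kernel, by decide +kernel, by decide +kernel, by decide +kernel, by decide +kernel, by decide +kernel, by decide +kernel⟩

def t12447 : allY (E.wth (lkp [])) l12447 = true ∧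
    allY (E.wth (lkp [])) l12448 = true ∧
    allY (E.wth (lkp [])) l12449 = true ∧
    allY (E.wth (lkp [])) l12450 = true ∧
    allY (E.wth (lkp [])) l12451 = true ∧
    allY (E.wth (lkp [])) l12452 = true ∧
    allY (E.wth (lkp [])) l12453 = true ∧
    allY (E.wth (lkp [])) l12454 = true :=
  ⟨by decide +kernel, by decide +kernel, by decide +kernel, by decide +kernel, by decide +kernel, by decide +kernel, by decide +kernel, by decide +kernel⟩

def t12455 : allY (E.wth (lkp [])) l12455 = true ∧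
    allY (E.wth (lkp [])) l12456 = true ∧
    allY (E.wth (lkp [])) l12457 = true ∧
    allY (E.wth (lkp [])) l12458 = true ∧
    allY (E.wth (lkp [])) l12459 = true ∧
    allY (E.wth (lkp [])) l12460 = true ∧
    allY (E.wth (lkp [])) l12461 = true ∧
    allY (E.wth (lkp [])) l12462 = true :=
  ⟨by decide +kernel, by decide +kernel, by decide +kernel, by decide +kernel, by decide +kernel, by decide +kernel, by decide +kernel, by decide +kernel⟩

def t12463 : allY (E.wth (lkp [])) l12463 = true ∧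
    allY (E.wth (lkp [])) l12464 = true ∧
    allY (E.wth (lkp [])) l12465 = true ∧
    allY (E.wth (lkp [])) l12466 = true ∧
    allY (E.wth (lkp [])) l12467 = true ∧
    allY (E.wth (lkp [])) l12468 = true ∧
    allY (E.wth (lkp [])) l12469 = true ∧
    allY (E.wth (lkp [])) l12470 = true :=
  ⟨by decide +kernel, by decide +kernel, by decide +kernel, by decide +kernel, by decide +kernel, by decide +kernel, by decide +kernel, by decide +kernel⟩

def t12471 : allY (E.wth (lkp [])) l12471 = true ∧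
    allY (E.wth (lkp [])) l12472 = true ∧
    allY (E.wth (lkp [])) l12473 = true ∧
    allY (E.wth (lkp [])) l12474 = true ∧
    allY (E.wth (lkp [])) l12475 = true ∧
    allY (E.wth (lkp [])) l12476 = true ∧
    allY (E.wth (lkp [])) l12477 = true ∧
    allY (E.wth (lkp [])) l12478 = true :=
  ⟨by decide +kernel, by decide +kernel, by decide +kernel, by decide +kernel, by decide +kernel, by decide +kernel, by decide +kernel, by decide +kernel⟩

def t12479 : allY (E.wth (lkp [])) l12479 = true ∧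
    allY (E.wth (lkp [])) l12480 = true ∧
    allY (E.wth (lkp [])) l12481 = true ∧
    allY (E.wth (lkp [])) l12482 = true ∧
    allY (E.wth (lkp [])) l12483 = true ∧
    allY (E.wth (lkp [])) l12484 = true ∧
    allY (E.wth (lkp [])) l12485 = true ∧
    allY (E.wth (lkp [])) l12486 = true :=
  ⟨by decide +kernel, by decide +kernel, by decide +kernel, by decide +kernel, by decide +kernel, by decide +kernel, by decide +kernel, by decide +kernel⟩

def t12487 : allY (E.wth (lkp [])) l12487 = true ∧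
    allY (E.wth (lkp [])) l12488 = true ∧
    allY (E.wth (lkp [])) l12489 = true ∧
    allY (E.wth (lkp [])) l12490 = true ∧
    allY (E.wth (lkp [])) l12491 = true ∧
    allY (E.wth (lkp [])) l12492 = true ∧
    allY (E.wth (lkp [])) l12493 = true ∧
    allY (E.wth (lkp [])) l12494 = true :=
  ⟨by decide +kernel, by decide +kernel, by decide +kernel, by decide +kernel, by decide +kernel, by decide +kernel, by decide +kernel, by decide +kernel⟩

def t12495 : allY (E.wth (lkp [])) l12495 = true ∧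
    allY (E.wth (lkp [])) l12496 = true ∧
    allY (E.wth (lkp [])) l12497 = true ∧
    allY (E.wth (lkp [])) l12498 = true ∧
    allY (E.wth (lkp [])) l12499 = true ∧
    allY (E.wth (lkp [])) l12500 = true ∧
    allY (E.wth (lkp [])) l12501 = true ∧
    allY (E.wth (lkp [])) l12502 = true :=
  ⟨by decide +kernel, by decide +kernel, by decide +kernel, by decide +kernel, by decide +kernel, by decide +kernel, by decide +kernel, by decide +kernel⟩

def t12503 : allY (E.wth (lkp [])) l12503 = true ∧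
    allY (E.wth (lkp [])) l12504 = true ∧
    allY (E.wth (lkp [])) l12505 = true ∧
    allY (E.wth (lkp [])) l12506 = true ∧
    allY (E.wth (lkp [])) l12507 = true ∧
    allY (E.wth (lkp [])) l12508 = true ∧
    allY (E.wth (lkp [])) l12509 = true ∧
    allY (E.wth (lkp [])) l12510 = true :=
  ⟨by decide +kernel, by decide +kernel, by decide +kernel, by decide +kernel, by decide +kernel, by decide +kernel, by decide +kernel, by decide +kernel⟩

def t12511 : allY (E.wth (lkp [])) l12511 = true ∧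
    allY (E.wth (lkp [])) l12512 = true ∧
    allY (E.wth (lkp [])) l12513 = true ∧
    allY (E.wth (lkp [])) l12514 = true ∧
    allY (E.wth (lkp [])) l12515 = true ∧
    allY (E.wth (lkp [])) l12516 = true ∧
    allY (E.wth (lkp [])) l12517 = true ∧
    allY (E.wth (lkp [])) l12518 = true :=
  ⟨by decide +kernel, by decide +kernel, by decide +kernel, by decide +kernel, by decide +kernel, by decide +kernel, by decide +kernel, by decide +kernel⟩

def t12519 : allY (E.wth (lkp [])) l12519 = true ∧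
    allY (E.wth (lkp [])) l12520 = true ∧
    allY (E.wth (lkp [])) l12521 = true ∧
    allY (E.wth (lkp [])) l12522 = true ∧
    allY (E.wth (lkp [])) l12523 = true ∧
    allY (E.wth (lkp [])) l12524 = true ∧
    allY (E.wth (lkp [])) l12525 = true ∧
    allY (E.wth (lkp [])) l12526 = true :=
  ⟨by decide +kernel, by decide +kernel, by decide +kernel, by decide +kernel, by decide +kernel, by decide +kernel, by decide +kernel, by decide +kernel⟩

def t12527 : allY (E.wth (lkp [])) l12527 = true ∧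
    allY (E.wth (lkp [])) l12528 = true ∧
    allY (E.wth (lkp [])) l12529 = true ∧
    allY (E.wth (lkp [])) l12530 = true ∧
    allY (E.wth (lkp [])) l12531 = true ∧
    allY (E.wth (lkp [])) l12532 = true ∧
    allY (E.wth (lkp [])) l12533 = true ∧
    allY (E.wth (lkp [])) l12534 = true :=
  ⟨by decide +kernel, by decide +kernel, by decide +kernel, by decide +kernel, by decide +kernel, by decide +kernel, by decide +kernel, by decide +kernel⟩

def t12535 : allY (E.wth (lkp [])) l12535 = true ∧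
    allY (E.wth (lkp [])) l12536 = true ∧
    allY (E.wth (lkp [])) l12537 = true ∧
    allY (E.wth (lkp [])) l12538 = true ∧
    allY (E.wth (lkp [])) l12539 = true ∧
    allY (E.wth (lkp [])) l12540 = true ∧
    allY (E.wth (lkp [])) l12541 = true ∧
    allY (E.wth (lkp [])) l12542 = true :=
  ⟨by decide +kernel, by decide +kernel, by decide +kernel, by decide +kernel, by decide +kernel, by decide +kernel, by decide +kernel, by decide +kernel⟩

def t12543 : allY (E.wth (lkp [])) l12543 = true ∧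
    allY (E.wth (lkp [])) l12544 = true ∧
    allY (E.wth (lkp [])) l12545 = true ∧
    allY (E.wth (lkp [])) l12546 = true ∧
    allY (E.wth (lkp [])) l12547 = true ∧
    allY (E.wth (lkp [])) l12548 = true ∧
    allY (E.wth (lkp [])) l12549 = true ∧
    allY (E.wth (lkp [])) l12550 = true :=
  ⟨by decide +kernel, by decide +kernel, by decide +kernel, by decide +kernel, by decide +kernel, by decide +kernel, by decide +kernel, by decide +kernel⟩

def t12551 : allY (E.wth (lkp [])) l12551 = true ∧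
    allY (E.wth (lkp [])) l12552 = true ∧
    allY (E.wth (lkp [])) l12553 = true ∧
    allY (E.wth (lkp [])) l12554 = true ∧
    allY (E.wth (lkp [])) l12555 = true ∧
    allY (E.wth (lkp [])) l12556 = true ∧
    allY (E.wth (lkp [])) l12557 = true ∧
    allY (E.wth (lkp [])) l12558 = true :=
  ⟨by decide +kernel, by decide +kernel, by decide +kernel, by decide +kernel, by decide +kernel, by decide +kernel, by decide +kernel, by decide +kernel⟩

def t12559 : allY (E.wth (lkp [])) l12559 = true ∧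
    allY (E.wth (lkp [])) l12560 = true ∧
    allY (E.wth (lkp [])) l12561 = true ∧
    allY (E.wth (lkp [])) l12562 = true ∧
    allY (E.wth (lkp [])) l12563 = true ∧
    allY (E.wth (lkp [])) l12564 = true ∧
    allY (E.wth (lkp [])) l12565 = true ∧
    allY (E.wth (lkp [])) l12566 = true :=
  ⟨by decide +kernel, by decide +kernel, by decide +kernel, by decide +kernel, by decide +kernel, by decide +kernel, by decide +kernel, by decide +kernel⟩

def t12567 : allY (E.wth (lkp [])) l12567 = true ∧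
    allY (E.wth (lkp [])) l12568 = true ∧
    allY (E.wth (lkp [])) l12569 = true ∧
    allY (E.wth (lkp [])) l12570 = true ∧
    allY (E.wth (lkp [])) l12571 = true ∧
    allY (E.wth (lkp [])) l12572 = true ∧
    allY (E.wth (lkp [])) l12573 = true ∧
    allY (E.wth (lkp [])) l12574 = true :=
  ⟨by decide +kernel, by decide +kernel, by decide +kernel, by decide +kernel, by decide +kernel, by decide +kernel, by decide +kernel, by decide +kernel⟩

def t12575 : allY (E.wth (lkp [])) l12575 = true ∧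
    allY (E.wth (lkp [])) l12576 = true ∧
    allY (E.wth (lkp [])) l12577 = true ∧
    allY (E.wth (lkp [])) l12578 = true ∧
    allY (E.wth (lkp [])) l12579 = true ∧
    allY (E.wth (lkp [])) l12580 = true ∧
    allY (E.wth (lkp [])) l12581 = true ∧
    allY (E.wth (lkp [])) l12582 = true :=
  ⟨by decide +kernel, by decide +kernel, by decide +kernel, by decide +kernel, by decide +kernel, by decide +kernel, by decide +kernel, by decide +kernel⟩

def t12583 : allY (E.wth (lkp [])) l12583 = true ∧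
    allY (E.wth (lkp [])) l12584 = true ∧
    allY (E.wth (lkp [])) l12585 = true ∧
    allY (E.wth (lkp [])) l12586 = true ∧
    allY (E.wth (lkp [])) l12587 = true ∧
    allY (E.wth (lkp [])) l12588 = true ∧
    allY (E.wth (lkp [])) l12589 = true ∧
    allY (E.wth (lkp [])) l12590 = true :=
  ⟨by decide +kernel, by decide +kernel, by decide +kernel, by decide +kernel, by decide +kernel, by decide +kernel, by decide +kernel, by decide +kernel⟩

def t12591 : allY (E.wth (lkp [])) l12591 = true ∧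
    allY (E.wth (lkp [])) l12592 = true ∧
    allY (E.wth (lkp [])) l12593 = true ∧
    allY (E.wth (lkp [])) l12594 = true ∧
    allY (E.wth (lkp [])) l12595 = true ∧
    allY (E.wth (lkp [])) l12596 = true ∧
    allY (E.wth (lkp [])) l12597 = true ∧
    allY (E.wth (lkp [])) l12598 = true :=
  ⟨by decide +kernel, by decide +kernel, by decide +kernel, by decide +kernel, by decide +kernel, by decide +kernel, by decide +kernel, by decide +kernel⟩

def t12599 : allY (E.wth (lkp [])) l12599 = true ∧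
    allY (E.wth (lkp [])) l12600 = true ∧
    allY (E.wth (lkp [])) l12601 = true ∧
    allY (E.wth (lkp [])) l12602 = true ∧
    allY (E.wth (lkp [])) l12603 = true ∧
    allY (E.wth (lkp [])) l12604 = true ∧
    allY (E.wth (lkp [])) l12605 = true ∧
    allY (E.wth (lkp [])) l12606 = true :=
  ⟨by decide +kernel, by decide +kernel, by decide +kernel, by decide +kernel, by decide +kernel, by decide +kernel, by decide +kernel, by decide +kernel⟩

def t12607 : allY (E.wth (lkp [])) l12607 = true ∧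
    allY (E.wth (lkp [])) l12608 = true ∧
    allY (E.wth (lkp [])) l12609 = true ∧
    allY (E.wth (lkp [])) l12610 = true ∧
    allY (E.wth (lkp [])) l12611 = true ∧
    allY (E.wth (lkp [])) l12612 = true ∧
    allY (E.wth (lkp [])) l12613 = true ∧
    allY (E.wth (lkp [])) l12614 = true :=
  ⟨by decide +kernel, by decide +kernel, by decide +kernel, by decide +kernel, by decide +kernel, by decide +kernel, by decide +kernel, by decide +kernel⟩

def t12615 : allY (E.wth (lkp [])) l12615 = true ∧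
    allY (E.wth (lkp [])) l12616 = true ∧
    allY (E.wth (lkp [])) l12617 = true ∧
    allY (E.wth (lkp [])) l12618 = true ∧
    allY (E.wth (lkp [])) l12619 = true ∧
    allY (E.wth (lkp [])) l12620 = true ∧
    allY (E.wth (lkp [])) l12621 = true ∧
    allY (E.wth (lkp [])) l12622 = true :=
  ⟨by decide +kernel, by decide +kernel, by decide +kernel, by decide +kernel, by decide +kernel, by decide +kernel, by decide +kernel, by decide +kernel⟩

def t12623 : allY (E.wth (lkp [])) l12623 = true ∧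
    allY (E.wth (lkp [])) l12624 = true ∧
    allY (E.wth (lkp [])) l12625 = true ∧
    allY (E.wth (lkp [])) l12626 = true ∧
    allY (E.wth (lkp [])) l12627 = true ∧
    allY (E.wth (lkp [])) l12628 = true ∧
    allY (E.wth (lkp [])) l12629 = true ∧
    allY (E.wth (lkp [])) l12630 = true :=
  ⟨by decide +kernel, by decide +kernel, by decide +kernel, by decide +kernel, by decide +kernel, by decide +kernel, by decide +kernel, by decide +kernel⟩

def t12631 : allY (E.wth (lkp [])) l12631 = true ∧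
    allY (E.wth (lkp [])) l12632 = true ∧
    allY (E.wth (lkp [])) l12633 = true ∧
    allY (E.wth (lkp [])) l12634 = true ∧
    allY (E.wth (lkp [])) l12635 = true ∧
    allY (E.wth (lkp [])) l12636 = true ∧
    allY (E.wth (lkp [])) l12637 = true ∧
    allY (E.wth (lkp [])) l12638 = true :=
  ⟨by decide +kernel, by decide +kernel, by decide +kernel, by decide +kernel, by decide +kernel, by decide +kernel, by decide +kernel, by decide +kernel⟩

def t12639 : allY (E.wth (lkp [])) l12639 = true ∧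
    allY (E.wth (lkp [])) l12640 = true ∧
    allY (E.wth (lkp [])) l12641 = true ∧
    allY (E.wth (lkp [])) l12642 = true ∧
    allY (E.wth (lkp [])) l12643 = true ∧
    allY (E.wth (lkp [])) l12644 = true ∧
    allY (E.wth (lkp [])) l12645 = true ∧
    allY (E.wth (lkp [])) l12646 = true :=
  ⟨by decide +kernel, by decide +kernel, by decide +kernel, by decide +kernel, by decide +kernel, by decide +kernel, by decide +kernel, by decide +kernel⟩

def t12647 : allY (E.wth (lkp [])) l12647 = true ∧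
    allY (E.wth (lkp [])) l12648 = true ∧
    allY (E.wth (lkp [])) l12649 = true ∧
    allY (E.wth (lkp [])) l12650 = true ∧
    allY (E.wth (lkp [])) l12651 = true ∧
    allY (E.wth (lkp [])) l12652 = true ∧
    allY (E.wth (lkp [])) l12653 = true ∧
    allY (E.wth (lkp [])) l12654 = true :=
  ⟨by decide +kernel, by decide +kernel, by decide +kernel, by decide +kernel, by decide +kernel, by decide +kernel, by decide +kernel, by decide +kernel⟩

def t12655 : allY (E.wth (lkp [])) l12655 = true ∧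
    allY (E.wth (lkp [])) l12656 = true ∧
    allY (E.wth (lkp [])) l12657 = true ∧
    allY (E.wth (lkp [])) l12658 = true ∧
    allY (E.wth (lkp [])) l12659 = true ∧
    allY (E.wth (lkp [])) l12660 = true ∧
    allY (E.wth (lkp [])) l12661 = true ∧
    allY (E.wth (lkp [])) l12662 = true :=
  ⟨by decide +kernel, by decide +kernel, by decide +kernel, by decide +kernel, by decide +kernel, by decide +kernel, by decide +kernel, by decide +kernel⟩

def t12663 : allY (E.wth (lkp [])) l12663 = true ∧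
    allY (E.wth (lkp [])) l12664 = true ∧
    allY (E.wth (lkp [])) l12665 = true ∧
    allY (E.wth (lkp [])) l12666 = true ∧
    allY (E.wth (lkp [])) l12667 = true ∧
    allY (E.wth (lkp [])) l12668 = true ∧
    allY (E.wth (lkp [])) l12669 = true ∧
    allY (E.wth (lkp [])) l12670 = true :=
  ⟨by decide +kernel, by decide +kernel, by decide +kernel, by decide +kernel, by decide +kernel, by decide +kernel, by decide +kernel, by decide +kernel⟩

def t12671 : allY (E.wth (lkp [])) l12671 = true ∧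
    allY (E.wth (lkp [])) l12672 = true ∧
    allY (E.wth (lkp [])) l12673 = true ∧
    allY (E.wth (lkp [])) l12674 = true ∧
    allY (E.wth (lkp [])) l12675 = true ∧
    allY (E.wth (lkp [])) l12676 = true ∧
    allY (E.wth (lkp [])) l12677 = true ∧
    allY (E.wth (lkp [])) l12678 = true :=
  ⟨by decide +kernel, by decide +kernel, by decide +kernel, by decide +kernel, by decide +kernel, by decide +kernel, by decide +kernel, by decide +kernel⟩

def t12679 : allY (E.wth (lkp [])) l12679 = true ∧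
    allY (E.wth (lkp [])) l12680 = true ∧
    allY (E.wth (lkp [])) l12681 = true ∧
    allY (E.wth (lkp [])) l12682 = true ∧
    allY (E.wth (lkp [])) l12683 = true ∧
    allY (E.wth (lkp [])) l12684 = true ∧
    allY (E.wth (lkp [])) l12685 = true ∧
    allY (E.wth (lkp [])) l12686 = true :=
  ⟨by decide +kernel, by decide +kernel, by decide +kernel, by decide +kernel, by decide +kernel, by decide +kernel, by decide +kernel, by decide +kernel⟩

def t12687 : allY (E.wth (lkp [])) l12687 = true ∧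
    allY (E.wth (lkp [])) l12688 = true ∧
    allY (E.wth (lkp [])) l12689 = true ∧
    allY (E.wth (lkp [])) l12690 = true ∧
    allY (E.wth (lkp [])) l12691 = true ∧
    allY (E.wth (lkp [])) l12692 = true ∧
    allY (E.wth (lkp [])) l12693 = true ∧
    allY (E.wth (lkp [])) l12694 = true :=
  ⟨by decide +kernel, by decide +kernel, by decide +kernel, by decide +kernel, by decide +kernel, by decide +kernel, by decide +kernel, by decide +kernel⟩

def t12695 : allY (E.wth (lkp [])) l12695 = true ∧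
    allY (E.wth (lkp [])) l12696 = true ∧
    allY (E.wth (lkp [])) l12697 = true ∧
    allY (E.wth (lkp [])) l12698 = true ∧
    allY (E.wth (lkp [])) l12699 = true ∧
    allY (E.wth (lkp [])) l12700 = true ∧
    allY (E.wth (lkp [])) l12701 = true ∧
    allY (E.wth (lkp [])) l12702 = true :=
  ⟨by decide +kernel, by decide +kernel, by decide +kernel, by decide +kernel, by decide +kernel, by decide +kernel, by decide +kernel, by decide +kernel⟩

def t12703 : allY (E.wth (lkp [])) l12703 = true ∧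
    allY (E.wth (lkp [])) l12704 = true ∧
    allY (E.wth (lkp [])) l12705 = true ∧
    allY (E.wth (lkp [])) l12706 = true ∧
    allY (E.wth (lkp [])) l12707 = true ∧
    allY (E.wth (lkp [])) l12708 = true ∧
    allY (E.wth (lkp [])) l12709 = true ∧
    allY (E.wth (lkp [])) l12710 = true :=
  ⟨by decide +kernel, by decide +kernel, by decide +kernel, by decide +kernel, by decide +kernel, by decide +kernel, by decide +kernel, by decide +kernel⟩

def t12711 : allY (E.wth (lkp [])) l12711 = true ∧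
    allY (E.wth (lkp [])) l12712 = true ∧
    allY (E.wth (lkp [])) l12713 = true ∧
    allY (E.wth (lkp [])) l12714 = true ∧
    allY (E.wth (lkp [])) l12715 = true ∧
    allY (E.wth (lkp [])) l12716 = true ∧
    allY (E.wth (lkp [])) l12717 = true ∧
    allY (E.wth (lkp [])) l12718 = true :=
  ⟨by decide +kernel, by decide +kernel, by decide +kernel, by decide +kernel, by decide +kernel, by decide +kernel, by decide +kernel, by decide +kernel⟩

def t12719 : allY (E.wth (lkp [])) l12719 = true ∧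
    allY (E.wth (lkp [])) l12720 = true ∧
    allY (E.wth (lkp [])) l12721 = true ∧
    allY (E.wth (lkp [])) l12722 = true ∧
    allY (E.wth (lkp [])) l12723 = true ∧
    allY (E.wth (lkp [])) l12724 = true ∧
    allY (E.wth (lkp [])) l12725 = true ∧
    allY (E.wth (lkp [])) l12726 = true :=
  ⟨by decide +kernel, by decide +kernel, by decide +kernel, by decide +kernel, by decide +kernel, by decide +kernel, by decide +kernel, by decide +kernel⟩

def t12727 : allY (E.wth (lkp [])) l12727 = true ∧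
    allY (E.wth (lkp [])) l12728 = true ∧
    allY (E.wth (lkp [])) l12729 = true ∧
    allY (E.wth (lkp [])) l12730 = true ∧
    allY (E.wth (lkp [])) l12731 = true ∧
    allY (E.wth (lkp [])) l12732 = true ∧
    allY (E.wth (lkp [])) l12733 = true ∧
    allY (E.wth (lkp [])) l12734 = true :=
  ⟨by decide +kernel, by decide +kernel, by decide +kernel, by decide +kernel, by decide +kernel, by decide +kernel, by decide +kernel, by decide +kernel⟩

def t12735 : allY (E.wth (lkp [])) l12735 = true ∧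
    allY (E.wth (lkp [])) l12736 = true ∧
    allY (E.wth (lkp [])) l12737 = true ∧
    allY (E.wth (lkp [])) l12738 = true ∧
    allY (E.wth (lkp [])) l12739 = true ∧
    allY (E.wth (lkp [])) l12740 = true ∧
    allY (E.wth (lkp [])) l12741 = true ∧
    allY (E.wth (lkp [])) l12742 = true :=
  ⟨by decide +kernel, by decide +kernel, by decide +kernel, by decide +kernel, by decide +kernel, by decide +kernel, by decide +kernel, by decide +kernel⟩

def t12743 : allY (E.wth (lkp [])) l12743 = true ∧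
    allY (E.wth (lkp [])) l12744 = true ∧
    allY (E.wth (lkp [])) l12745 = true ∧
    allY (E.wth (lkp [])) l12746 = true ∧
    allY (E.wth (lkp [])) l12747 = true ∧
    allY (E.wth (lkp [])) l12748 = true ∧
    allY (E.wth (lkp [])) l12749 = true ∧
    allY (E.wth (lkp [])) l12750 = true :=
  ⟨by decide +kernel, by decide +kernel, by decide +kernel, by decide +kernel, by decide +kernel, by decide +kernel, by decide +kernel, by decide +kernel⟩

def t12751 : allY (E.wth (lkp [])) l12751 = true ∧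
    allY (E.wth (lkp [])) l12752 = true ∧
    allY (E.wth (lkp [])) l12753 = true ∧
    allY (E.wth (lkp [])) l12754 = true ∧
    allY (E.wth (lkp [])) l12755 = true ∧
    allY (E.wth (lkp [])) l12756 = true ∧
    allY (E.wth (lkp [])) l12757 = true ∧
    allY (E.wth (lkp [])) l12758 = true :=
  ⟨by decide +kernel, by decide +kernel, by decide +kernel, by decide +kernel, by decide +kernel, by decide +kernel, by decide +kernel, by decide +kernel⟩

def t12759 : allY (E.wth (lkp [])) l12759 = true ∧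
    allY (E.wth (lkp [])) l12760 = true ∧
    allY (E.wth (lkp [])) l12761 = true ∧
    allY (E.wth (lkp [])) l12762 = true ∧
    allY (E.wth (lkp [])) l12763 = true ∧
    allY (E.wth (lkp [])) l12764 = true ∧
    allY (E.wth (lkp [])) l12765 = true ∧
    allY (E.wth (lkp [])) l12766 = true :=
  ⟨by decide +kernel, by decide +kernel, by decide +kernel, by decide +kernel, by decide +kernel, by decide +kernel, by decide +kernel, by decide +kernel⟩

def t12767 : allY (E.wth (lkp [])) l12767 = true ∧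
    allY (E.wth (lkp [])) l12768 = true ∧
    allY (E.wth (lkp [])) l12769 = true ∧
    allY (E.wth (lkp [])) l12770 = true ∧
    allY (E.wth (lkp [])) l12771 = true ∧
    allY (E.wth (lkp [])) l12772 = true ∧
    allY (E.wth (lkp [])) l12773 = true ∧
    allY (E.wth (lkp [])) l12774 = true :=
  ⟨by decide +kernel, by decide +kernel, by decide +kernel, by decide +kernel, by decide +kernel, by decide +kernel, by decide +kernel, by decide +kernel⟩

def t12775 : allY (E.wth (lkp [])) l12775 = true ∧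
    allY (E.wth (lkp [])) l12776 = true ∧
    allY (E.wth (lkp [])) l12777 = true ∧
    allY (E.wth (lkp [])) l12778 = true ∧
    allY (E.wth (lkp [])) l12779 = true ∧
    allY (E.wth (lkp [])) l12780 = true ∧
    allY (E.wth (lkp [])) l12781 = true ∧
    allY (E.wth (lkp [])) l12782 = true :=
  ⟨by decide +kernel, by decide +kernel, by decide +kernel, by decide +kernel, by decide +kernel, by decide +kernel, by decide +kernel, by decide +kernel⟩

def t12783 : allY (E.wth (lkp [])) l12783 = true ∧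
    allY (E.wth (lkp [])) l12784 = true ∧
    allY (E.wth (lkp [])) l12785 = true ∧
    allY (E.wth (lkp [])) l12786 = true ∧
    allY (E.wth (lkp [])) l12787 = true ∧
    allY (E.wth (lkp [])) l12788 = true ∧
    allY (E.wth (lkp [])) l12789 = true ∧
    allY (E.wth (lkp [])) l12790 = true :=
  ⟨by decide +kernel, by decide +kernel, by decide +kernel, by decide +kernel, by decide +kernel, by decide +kernel, by decide +kernel, by decide +kernel⟩

def t12791 : allY (E.wth (lkp [])) l12791 = true ∧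
    allY (E.wth (lkp [])) l12792 = true ∧
    allY (E.wth (lkp [])) l12793 = true ∧
    allY (E.wth (lkp [])) l12794 = true ∧
    allY (E.wth (lkp [])) l12795 = true ∧
    allY (E.wth (lkp [])) l12796 = true ∧
    allY (E.wth (lkp [])) l12797 = true ∧
    allY (E.wth (lkp [])) l12798 = true :=
  ⟨by decide +kernel, by decide +kernel, by decide +kernel, by decide +kernel, by decide +kernel, by decide +kernel, by decide +kernel, by decide +kernel⟩

def t12799 : allY (E.wth (lkp [])) l12799 = true ∧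
    allY (E.wth (lkp [])) l12800 = true ∧
    allY (E.wth (lkp [])) l12801 = true ∧
    allY (E.wth (lkp [])) l12802 = true ∧
    allY (E.wth (lkp [])) l12803 = true ∧
    allY (E.wth (lkp [])) l12804 = true ∧
    allY (E.wth (lkp [])) l12805 = true ∧
    allY (E.wth (lkp [])) l12806 = true :=
  ⟨by decide +kernel, by decide +kernel, by decide +kernel, by decide +kernel, by decide +kernel, by decide +kernel, by decide +kernel, by decide +kernel⟩

def t12807 : allY (E.wth (lkp [])) l12807 = true ∧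
    allY (E.wth (lkp [])) l12808 = true ∧
    allY (E.wth (lkp [])) l12809 = true ∧
    allY (E.wth (lkp [])) l12810 = true ∧
    allY (E.wth (lkp [])) l12811 = true ∧
    allY (E.wth (lkp [])) l12812 = true ∧
    allY (E.wth (lkp [])) l12813 = true ∧
    allY (E.wth (lkp [])) l12814 = true :=
  ⟨by decide +kernel, by decide +kernel, by decide +kernel, by decide +kernel, by decide +kernel, by decide +kernel, by decide +kernel, by decide +kernel⟩

def t12815 : allY (E.wth (lkp [])) l12815 = true ∧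
    allY (E.wth (lkp [])) l12816 = true ∧
    allY (E.wth (lkp [])) l12817 = true ∧
    allY (E.wth (lkp [])) l12818 = true ∧
    allY (E.wth (lkp [])) l12819 = true ∧
    allY (E.wth (lkp [])) l12820 = true ∧
    allY (E.wth (lkp [])) l12821 = true ∧
    allY (E.wth (lkp [])) l12822 = true :=
  ⟨by decide +kernel, by decide +kernel, by decide +kernel, by decide +kernel, by decide +kernel, by decide +kernel, by decide +kernel, by decide +kernel⟩

def t12823 : allY (E.wth (lkp [])) l12823 = true ∧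
    allY (E.wth (lkp [])) l12824 = true ∧
    allY (E.wth (lkp [])) l12825 = true ∧
    allY (E.wth (lkp [])) l12826 = true ∧
    allY (E.wth (lkp [])) l12827 = true ∧
    allY (E.wth (lkp [])) l12828 = true ∧
    allY (E.wth (lkp [])) l12829 = true ∧
    allY (E.wth (lkp [])) l12830 = true :=
  ⟨by decide +kernel, by decide +kernel, by decide +kernel, by decide +kernel, by decide +kernel, by decide +kernel, by decide +kernel, by decide +kernel⟩

def t12831 : allY (E.wth (lkp [])) l12831 = true ∧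
    allY (E.wth (lkp [])) l12832 = true ∧
    allY (E.wth (lkp [])) l12833 = true ∧
    allY (E.wth (lkp [])) l12834 = true ∧
    allY (E.wth (lkp [])) l12835 = true ∧
    allY (E.wth (lkp [])) l12836 = true ∧
    allY (E.wth (lkp [])) l12837 = true ∧
    allY (E.wth (lkp [])) l12838 = true :=
  ⟨by decide +kernel, by decide +kernel, by decide +kernel, by decide +kernel, by decide +kernel, by decide +kernel, by decide +kernel, by decide +kernel⟩

def t12839 : allY (E.wth (lkp [])) l12839 = true ∧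
    allY (E.wth (lkp [])) l12840 = true ∧
    allY (E.wth (lkp [])) l12841 = true ∧
    allY (E.wth (lkp [])) l12842 = true ∧
    allY (E.wth (lkp [])) l12843 = true ∧
    allY (E.wth (lkp [])) l12844 = true ∧
    allY (E.wth (lkp [])) l12845 = true ∧
    allY (E.wth (lkp [])) l12846 = true :=
  ⟨by decide +kernel, by decide +kernel, by decide +kernel, by decide +kernel, by decide +kernel, by decide +kernel, by decide +kernel, by decide +kernel⟩

def t12847 : allY (E.wth (lkp [])) l12847 = true ∧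
    allY (E.wth (lkp [])) l12848 = true ∧
    allY (E.wth (lkp [])) l12849 = true ∧
    allY (E.wth (lkp [])) l12850 = true ∧
    allY (E.wth (lkp [])) l12851 = true ∧
    allY (E.wth (lkp [])) l12852 = true ∧
    allY (E.wth (lkp [])) l12853 = true ∧
    allY (E.wth (lkp [])) l12854 = true :=
  ⟨by decide +kernel, by decide +kernel, by decide +kernel, by decide +kernel, by decide +kernel, by decide +kernel, by decide +kernel, by decide +kernel⟩

def t12855 : allY (E.wth (lkp [])) l12855 = true ∧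
    allY (E.wth (lkp [])) l12856 = true ∧
    allY (E.wth (lkp [])) l12857 = true ∧
    allY (E.wth (lkp [])) l12858 = true ∧
    allY (E.wth (lkp [])) l12859 = true ∧
    allY (E.wth (lkp [])) l12860 = true ∧
    allY (E.wth (lkp [])) l12861 = true ∧
    allY (E.wth (lkp [])) l12862 = true :=
  ⟨by decide +kernel, by decide +kernel, by decide +kernel, by decide +kernel, by decide +kernel, by decide +kernel, by decide +kernel, by decide +kernel⟩

def t12863 : allY (E.wth (lkp [])) l12863 = true ∧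
    allY (E.wth (lkp [])) l12864 = true ∧
    allY (E.wth (lkp [])) l12865 = true ∧
    allY (E.wth (lkp [])) l12866 = true ∧
    allY (E.wth (lkp [])) l12867 = true ∧
    allY (E.wth (lkp [])) l12868 = true ∧
    allY (E.wth (lkp [])) l12869 = true ∧
    allY (E.wth (lkp [])) l12870 = true :=
  ⟨by decide +kernel, by decide +kernel, by decide +kernel, by decide +kernel, by decide +kernel, by decide +kernel, by decide +kernel, by decide +kernel⟩

def t12871 : allY (E.wth (lkp [])) l12871 = true ∧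
    allY (E.wth (lkp [])) l12872 = true ∧
    allY (E.wth (lkp [])) l12873 = true ∧
    allY (E.wth (lkp [])) l12874 = true ∧
    allY (E.wth (lkp [])) l12875 = true ∧
    allY (E.wth (lkp [])) l12876 = true ∧
    allY (E.wth (lkp [])) l12877 = true ∧
    allY (E.wth (lkp [])) l12878 = true :=
  ⟨by decide +kernel, by decide +kernel, by decide +kernel, by decide +kernel, by decide +kernel, by decide +kernel, by decide +kernel, by decide +kernel⟩

def t12879 : allY (E.wth (lkp [])) l12879 = true ∧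
    allY (E.wth (lkp [])) l12880 = true :=
  ⟨by decide +kernel, by decide +kernel⟩

theorem a22 {p : Rf → Prop} (H : ∀ l, allY (E.wth (lkp [])) l = true → (lkp l).All p) :
    b22.All p := ⟨⟨⟨⟨⟨⟨⟨⟨⟨H _ t12311.1, H _ t12311.2.1⟩, ⟨H _ t12311.2.2.1, H _ t12311.2.2.2.1⟩⟩, ⟨⟨H _ t12311.2.2.2.2.1, H _ t12311.2.2.2.2.2.1⟩, ⟨H _ t12311.2.2.2.2.2.2.1, H _ t12311.2.2.2.2.2.2.2⟩⟩⟩, ⟨⟨⟨H _ t12319.1, H _ t12319.2.1⟩, ⟨H _ t12319.2.2.1, H _ t12319.2.2.2.1⟩⟩, ⟨⟨H _ t12319.2.2.2.2.1, H _ t12319.2.2.2.2.2.1⟩, ⟨H _ t12319.2.2.2.2.2.2.1, ⟨H _ t12319.2.2.2.2.2.2.2, H _ t12327.1⟩⟩⟩⟩⟩, ⟨⟨⟨⟨H _ t12327.2.1, H _ t12327.2.2.1⟩, ⟨H _ t12327.2.2.2.1, H _ t12327.2.2.2.2.1⟩⟩, ⟨⟨H _ t12327.2.2.2.2.2.1, H _ t12327.2.2.2.2.2.2.1⟩, ⟨H _ t12327.2.2.2.2.2.2.2, ⟨H _ t12335.1, H _ t12335.2.1⟩⟩⟩⟩, ⟨⟨⟨H _ t12335.2.2.1, H _ t12335.2.2.2.1⟩, ⟨H _ t12335.2.2.2.2.1, H _ t12335.2.2.2.2.2.1⟩⟩, ⟨⟨H _ t12335.2.2.2.2.2.2.1, H _ t12335.2.2.2.2.2.2.2⟩,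 ⟨H _ t12343.1, ⟨H _ t12343.2.1, H _ t12343.2.2.1⟩⟩⟩⟩⟩⟩, ⟨⟨⟨⟨⟨H _ t12343.2.2.2.1, H _ t12343.2.2.2.2.1⟩, ⟨H _ t12343.2.2.2.2.2.1, H _ t12343.2.2.2.2.2.2.1⟩⟩, ⟨⟨H _ t12343.2.2.2.2.2.2.2, H _ t12351.1⟩, ⟨H _ t12351.2.1, ⟨H _ t12351.2.2.1, H _ t12351.2.2.2.1⟩⟩⟩⟩, ⟨⟨⟨H _ t12351.2.2.2.2.1, H _ t12351.2.2.2.2.2.1⟩, ⟨H _ t12351.2.2.2.2.2.2.1, H _ t12351.2.2.2.2.2.2.2⟩⟩, ⟨⟨H _ t12359.1, H _ t12359.2.1⟩, ⟨H _ t12359.2.2.1, ⟨H _ t12359.2.2.2.1, H _ t12359.2.2.2.2.1⟩⟩⟩⟩⟩, ⟨⟨⟨⟨H _ t12359.2.2.2.2.2.1, H _ t12359.2.2.2.2.2.2.1⟩, ⟨H _ t12359.2.2.2.2.2.2.2, H _ t12367.1⟩⟩, ⟨⟨H _ t12367.2.1, H _ t12367.2.2.1⟩, ⟨H _ t12367.2.2.2.1, ⟨H _ t12367.2.2.2.2.1, H _ t12367.2.2.2.2.2.1⟩⟩⟩⟩, ⟨⟨⟨H _ t12367.2.2.2.2.2.2.1, H _ t12367.2.2.2.2.2.2.2⟩, ⟨H _ t12375.1, H _ t12375.2.1⟩⟩, ⟨⟨H _ t12375.2.2.1, H _ t12375.2.2.2.1⟩, ⟨H _ t12375.2.2.2.2.1, ⟨H _ t12375.2.2.2.2.2.1, H _ t12375.2.2.2.2.2.2.1⟩⟩⟩⟩⟩⟩⟩, ⟨⟨⟨⟨⟨⟨H _ t12375.2.2.2.2.2.2.2,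 H _ t12383.1⟩, ⟨H _ t12383.2.1, H _ t12383.2.2.1⟩⟩, ⟨⟨H _ t12383.2.2.2.1, H _ t12383.2.2.2.2.1⟩, ⟨H _ t12383.2.2.2.2.2.1, H _ t12383.2.2.2.2.2.2.1⟩⟩⟩, ⟨⟨⟨H _ t12383.2.2.2.2.2.2.2, H _ t12391.1⟩, ⟨H _ t12391.2.1, H _ t12391.2.2.1⟩⟩, ⟨⟨H _ t12391.2.2.2.1, H _ t12391.2.2.2.2.1⟩, ⟨H _ t12391.2.2.2.2.2.1, ⟨H _ t12391.2.2.2.2.2.2.1, H _ t12391.2.2.2.2.2.2.2⟩⟩⟩⟩⟩, ⟨⟨⟨⟨H _ t12399.1, H _ t12399.2.1⟩, ⟨H _ t12399.2.2.1, H _ t12399.2.2.2.1⟩⟩, ⟨⟨H _ t12399.2.2.2.2.1, H _ t12399.2.2.2.2.2.1⟩, ⟨H _ t12399.2.2.2.2.2.2.1, ⟨H _ t12399.2.2.2.2.2.2.2, H _ t12407.1⟩⟩⟩⟩, ⟨⟨⟨H _ t12407.2.1, H _ t12407.2.2.1⟩, ⟨H _ t12407.2.2.2.1, H _ t12407.2.2.2.2.1⟩⟩, ⟨⟨H _ t12407.2.2.2.2.2.1, H _ t12407.2.2.2.2.2.2.1⟩, ⟨H _ t12407.2.2.2.2.2.2.2, ⟨H _ t12415.1, H _ t12415.2.1⟩⟩⟩⟩⟩⟩, ⟨⟨⟨⟨⟨H _ t12415.2.2.1, H _ t12415.2.2.2.1⟩, ⟨H _ t12415.2.2.2.2.1, H _ t12415.2.2.2.2.2.1⟩⟩, ⟨⟨H _ t12415.2.2.2.2.2.2.1, H _ t12415.2.2.2.2.2.2.2⟩,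 ⟨H _ t12423.1, ⟨H _ t12423.2.1, H _ t12423.2.2.1⟩⟩⟩⟩, ⟨⟨⟨H _ t12423.2.2.2.1, H _ t12423.2.2.2.2.1⟩, ⟨H _ t12423.2.2.2.2.2.1, H _ t12423.2.2.2.2.2.2.1⟩⟩, ⟨⟨H _ t12423.2.2.2.2.2.2.2, H _ t12431.1⟩, ⟨H _ t12431.2.1, ⟨H _ t12431.2.2.1, H _ t12431.2.2.2.1⟩⟩⟩⟩⟩, ⟨⟨⟨⟨H _ t12431.2.2.2.2.1, H _ t12431.2.2.2.2.2.1⟩, ⟨H _ t12431.2.2.2.2.2.2.1, H _ t12431.2.2.2.2.2.2.2⟩⟩, ⟨⟨H _ t12439.1, H _ t12439.2.1⟩, ⟨H _ t12439.2.2.1, ⟨H _ t12439.2.2.2.1, H _ t12439.2.2.2.2.1⟩⟩⟩⟩, ⟨⟨⟨H _ t12439.2.2.2.2.2.1, H _ t12439.2.2.2.2.2.2.1⟩, ⟨H _ t12439.2.2.2.2.2.2.2, H _ t12447.1⟩⟩, ⟨⟨H _ t12447.2.1, H _ t12447.2.2.1⟩, ⟨H _ t12447.2.2.2.1, ⟨H _ t12447.2.2.2.2.1, H _ t12447.2.2.2.2.2.1⟩⟩⟩⟩⟩⟩⟩⟩, ⟨⟨⟨⟨⟨⟨⟨H _ t12447.2.2.2.2.2.2.1, H _ t12447.2.2.2.2.2.2.2⟩, ⟨H _ t12455.1, H _ t12455.2.1⟩⟩, ⟨⟨H _ t12455.2.2.1, H _ t12455.2.2.2.1⟩, ⟨H _ t12455.2.2.2.2.1, H _ t12455.2.2.2.2.2.1⟩⟩⟩, ⟨⟨⟨H _ t12455.2.2.2.2.2.2.1, H _ t12455.2.2.2.2.2.2.2⟩,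 ⟨H _ t12463.1, H _ t12463.2.1⟩⟩, ⟨⟨H _ t12463.2.2.1, H _ t12463.2.2.2.1⟩, ⟨H _ t12463.2.2.2.2.1, ⟨H _ t12463.2.2.2.2.2.1, H _ t12463.2.2.2.2.2.2.1⟩⟩⟩⟩⟩, ⟨⟨⟨⟨H _ t12463.2.2.2.2.2.2.2, H _ t12471.1⟩, ⟨H _ t12471.2.1, H _ t12471.2.2.1⟩⟩, ⟨⟨H _ t12471.2.2.2.1, H _ t12471.2.2.2.2.1⟩, ⟨H _ t12471.2.2.2.2.2.1, ⟨H _ t12471.2.2.2.2.2.2.1, H _ t12471.2.2.2.2.2.2.2⟩⟩⟩⟩, ⟨⟨⟨H _ t12479.1, H _ t12479.2.1⟩, ⟨H _ t12479.2.2.1, H _ t12479.2.2.2.1⟩⟩, ⟨⟨H _ t12479.2.2.2.2.1, H _ t12479.2.2.2.2.2.1⟩, ⟨H _ t12479.2.2.2.2.2.2.1, ⟨H _ t12479.2.2.2.2.2.2.2, H _ t12487.1⟩⟩⟩⟩⟩⟩, ⟨⟨⟨⟨⟨H _ t12487.2.1, H _ t12487.2.2.1⟩, ⟨H _ t12487.2.2.2.1, H _ t12487.2.2.2.2.1⟩⟩, ⟨⟨H _ t12487.2.2.2.2.2.1, H _ t12487.2.2.2.2.2.2.1⟩, ⟨H _ t12487.2.2.2.2.2.2.2, ⟨H _ t12495.1, H _ t12495.2.1⟩⟩⟩⟩, ⟨⟨⟨H _ t12495.2.2.1, H _ t12495.2.2.2.1⟩, ⟨H _ t12495.2.2.2.2.1, H _ t12495.2.2.2.2.2.1⟩⟩, ⟨⟨H _ t12495.2.2.2.2.2.2.1, H _ t12495.2.2.2.2.2.2.2⟩,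 ⟨H _ t12503.1, ⟨H _ t12503.2.1, H _ t12503.2.2.1⟩⟩⟩⟩⟩, ⟨⟨⟨⟨H _ t12503.2.2.2.1, H _ t12503.2.2.2.2.1⟩, ⟨H _ t12503.2.2.2.2.2.1, H _ t12503.2.2.2.2.2.2.1⟩⟩, ⟨⟨H _ t12503.2.2.2.2.2.2.2, H _ t12511.1⟩, ⟨H _ t12511.2.1, ⟨H _ t12511.2.2.1, H _ t12511.2.2.2.1⟩⟩⟩⟩, ⟨⟨⟨H _ t12511.2.2.2.2.1, H _ t12511.2.2.2.2.2.1⟩, ⟨H _ t12511.2.2.2.2.2.2.1, H _ t12511.2.2.2.2.2.2.2⟩⟩, ⟨⟨H _ t12519.1, H _ t12519.2.1⟩, ⟨H _ t12519.2.2.1, ⟨H _ t12519.2.2.2.1, H _ t12519.2.2.2.2.1⟩⟩⟩⟩⟩⟩⟩, ⟨⟨⟨⟨⟨⟨H _ t12519.2.2.2.2.2.1, H _ t12519.2.2.2.2.2.2.1⟩, ⟨H _ t12519.2.2.2.2.2.2.2, H _ t12527.1⟩⟩, ⟨⟨H _ t12527.2.1, H _ t12527.2.2.1⟩, ⟨H _ t12527.2.2.2.1, ⟨H _ t12527.2.2.2.2.1, H _ t12527.2.2.2.2.2.1⟩⟩⟩⟩, ⟨⟨⟨H _ t12527.2.2.2.2.2.2.1, H _ t12527.2.2.2.2.2.2.2⟩, ⟨H _ t12535.1, H _ t12535.2.1⟩⟩, ⟨⟨H _ t12535.2.2.1, H _ t12535.2.2.2.1⟩, ⟨H _ t12535.2.2.2.2.1, ⟨H _ t12535.2.2.2.2.2.1, H _ t12535.2.2.2.2.2.2.1⟩⟩⟩⟩⟩, ⟨⟨⟨⟨H _ t12535.2.2.2.2.2.2.2,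 H _ t12543.1⟩, ⟨H _ t12543.2.1, H _ t12543.2.2.1⟩⟩, ⟨⟨H _ t12543.2.2.2.1, H _ t12543.2.2.2.2.1⟩, ⟨H _ t12543.2.2.2.2.2.1, ⟨H _ t12543.2.2.2.2.2.2.1, H _ t12543.2.2.2.2.2.2.2⟩⟩⟩⟩, ⟨⟨⟨H _ t12551.1, H _ t12551.2.1⟩, ⟨H _ t12551.2.2.1, H _ t12551.2.2.2.1⟩⟩, ⟨⟨H _ t12551.2.2.2.2.1, H _ t12551.2.2.2.2.2.1⟩, ⟨H _ t12551.2.2.2.2.2.2.1, ⟨H _ t12551.2.2.2.2.2.2.2, H _ t12559.1⟩⟩⟩⟩⟩⟩, ⟨⟨⟨⟨⟨H _ t12559.2.1, H _ t12559.2.2.1⟩, ⟨H _ t12559.2.2.2.1, H _ t12559.2.2.2.2.1⟩⟩, ⟨⟨H _ t12559.2.2.2.2.2.1, H _ t12559.2.2.2.2.2.2.1⟩, ⟨H _ t12559.2.2.2.2.2.2.2, ⟨H _ t12567.1, H _ t12567.2.1⟩⟩⟩⟩, ⟨⟨⟨H _ t12567.2.2.1, H _ t12567.2.2.2.1⟩, ⟨H _ t12567.2.2.2.2.1, H _ t12567.2.2.2.2.2.1⟩⟩, ⟨⟨H _ t12567.2.2.2.2.2.2.1, H _ t12567.2.2.2.2.2.2.2⟩, ⟨H _ t12575.1, ⟨H _ t12575.2.1, H _ t12575.2.2.1⟩⟩⟩⟩⟩, ⟨⟨⟨⟨H _ t12575.2.2.2.1, H _ t12575.2.2.2.2.1⟩, ⟨H _ t12575.2.2.2.2.2.1, H _ t12575.2.2.2.2.2.2.1⟩⟩, ⟨⟨H _ t12575.2.2.2.2.2.2.2,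 H _ t12583.1⟩, ⟨H _ t12583.2.1, ⟨H _ t12583.2.2.1, H _ t12583.2.2.2.1⟩⟩⟩⟩, ⟨⟨⟨H _ t12583.2.2.2.2.1, H _ t12583.2.2.2.2.2.1⟩, ⟨H _ t12583.2.2.2.2.2.2.1, H _ t12583.2.2.2.2.2.2.2⟩⟩, ⟨⟨H _ t12591.1, H _ t12591.2.1⟩, ⟨H _ t12591.2.2.1, ⟨H _ t12591.2.2.2.1, H _ t12591.2.2.2.2.1⟩⟩⟩⟩⟩⟩⟩⟩⟩, ⟨⟨⟨⟨⟨⟨⟨⟨H _ t12591.2.2.2.2.2.1, H _ t12591.2.2.2.2.2.2.1⟩, ⟨H _ t12591.2.2.2.2.2.2.2, H _ t12599.1⟩⟩, ⟨⟨H _ t12599.2.1, H _ t12599.2.2.1⟩, ⟨H _ t12599.2.2.2.1, H _ t12599.2.2.2.2.1⟩⟩⟩, ⟨⟨⟨H _ t12599.2.2.2.2.2.1, H _ t12599.2.2.2.2.2.2.1⟩, ⟨H _ t12599.2.2.2.2.2.2.2, H _ t12607.1⟩⟩, ⟨⟨H _ t12607.2.1, H _ t12607.2.2.1⟩, ⟨H _ t12607.2.2.2.1, ⟨H _ t12607.2.2.2.2.1, H _ t12607.2.2.2.2.2.1⟩⟩⟩⟩⟩, ⟨⟨⟨⟨H _ t12607.2.2.2.2.2.2.1, H _ t12607.2.2.2.2.2.2.2⟩, ⟨H _ t12615.1, H _ t12615.2.1⟩⟩, ⟨⟨H _ t12615.2.2.1, H _ t12615.2.2.2.1⟩, ⟨H _ t12615.2.2.2.2.1, ⟨H _ t12615.2.2.2.2.2.1, H _ t12615.2.2.2.2.2.2.1⟩⟩⟩⟩, ⟨⟨⟨H _ t12615.2.2.2.2.2.2.2,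 H _ t12623.1⟩, ⟨H _ t12623.2.1, H _ t12623.2.2.1⟩⟩, ⟨⟨H _ t12623.2.2.2.1, H _ t12623.2.2.2.2.1⟩, ⟨H _ t12623.2.2.2.2.2.1, ⟨H _ t12623.2.2.2.2.2.2.1, H _ t12623.2.2.2.2.2.2.2⟩⟩⟩⟩⟩⟩, ⟨⟨⟨⟨⟨H _ t12631.1, H _ t12631.2.1⟩, ⟨H _ t12631.2.2.1, H _ t12631.2.2.2.1⟩⟩, ⟨⟨H _ t12631.2.2.2.2.1, H _ t12631.2.2.2.2.2.1⟩, ⟨H _ t12631.2.2.2.2.2.2.1, ⟨H _ t12631.2.2.2.2.2.2.2, H _ t12639.1⟩⟩⟩⟩, ⟨⟨⟨H _ t12639.2.1, H _ t12639.2.2.1⟩, ⟨H _ t12639.2.2.2.1, H _ t12639.2.2.2.2.1⟩⟩, ⟨⟨H _ t12639.2.2.2.2.2.1, H _ t12639.2.2.2.2.2.2.1⟩, ⟨H _ t12639.2.2.2.2.2.2.2, ⟨H _ t12647.1, H _ t12647.2.1⟩⟩⟩⟩⟩, ⟨⟨⟨⟨H _ t12647.2.2.1, H _ t12647.2.2.2.1⟩, ⟨H _ t12647.2.2.2.2.1, H _ t12647.2.2.2.2.2.1⟩⟩, ⟨⟨H _ t12647.2.2.2.2.2.2.1, H _ t12647.2.2.2.2.2.2.2⟩, ⟨H _ t12655.1, ⟨H _ t12655.2.1, H _ t12655.2.2.1⟩⟩⟩⟩, ⟨⟨⟨H _ t12655.2.2.2.1, H _ t12655.2.2.2.2.1⟩, ⟨H _ t12655.2.2.2.2.2.1, H _ t12655.2.2.2.2.2.2.1⟩⟩, ⟨⟨H _ t12655.2.2.2.2.2.2.2,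 H _ t12663.1⟩, ⟨H _ t12663.2.1, ⟨H _ t12663.2.2.1, H _ t12663.2.2.2.1⟩⟩⟩⟩⟩⟩⟩, ⟨⟨⟨⟨⟨⟨H _ t12663.2.2.2.2.1, H _ t12663.2.2.2.2.2.1⟩, ⟨H _ t12663.2.2.2.2.2.2.1, H _ t12663.2.2.2.2.2.2.2⟩⟩, ⟨⟨H _ t12671.1, H _ t12671.2.1⟩, ⟨H _ t12671.2.2.1, H _ t12671.2.2.2.1⟩⟩⟩, ⟨⟨⟨H _ t12671.2.2.2.2.1, H _ t12671.2.2.2.2.2.1⟩, ⟨H _ t12671.2.2.2.2.2.2.1, H _ t12671.2.2.2.2.2.2.2⟩⟩, ⟨⟨H _ t12679.1, H _ t12679.2.1⟩, ⟨H _ t12679.2.2.1, ⟨H _ t12679.2.2.2.1, H _ t12679.2.2.2.2.1⟩⟩⟩⟩⟩, ⟨⟨⟨⟨H _ t12679.2.2.2.2.2.1, H _ t12679.2.2.2.2.2.2.1⟩, ⟨H _ t12679.2.2.2.2.2.2.2, H _ t12687.1⟩⟩, ⟨⟨H _ t12687.2.1, H _ t12687.2.2.1⟩, ⟨H _ t12687.2.2.2.1, ⟨H _ t12687.2.2.2.2.1, H _ t12687.2.2.2.2.2.1⟩⟩⟩⟩, ⟨⟨⟨H _ t12687.2.2.2.2.2.2.1, H _ t12687.2.2.2.2.2.2.2⟩, ⟨H _ t12695.1, H _ t12695.2.1⟩⟩, ⟨⟨H _ t12695.2.2.1, H _ t12695.2.2.2.1⟩, ⟨H _ t12695.2.2.2.2.1, ⟨H _ t12695.2.2.2.2.2.1, H _ t12695.2.2.2.2.2.2.1⟩⟩⟩⟩⟩⟩, ⟨⟨⟨⟨⟨H _ t12695.2.2.2.2.2.2.2,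 H _ t12703.1⟩, ⟨H _ t12703.2.1, H _ t12703.2.2.1⟩⟩, ⟨⟨H _ t12703.2.2.2.1, H _ t12703.2.2.2.2.1⟩, ⟨H _ t12703.2.2.2.2.2.1, ⟨H _ t12703.2.2.2.2.2.2.1, H _ t12703.2.2.2.2.2.2.2⟩⟩⟩⟩, ⟨⟨⟨H _ t12711.1, H _ t12711.2.1⟩, ⟨H _ t12711.2.2.1, H _ t12711.2.2.2.1⟩⟩, ⟨⟨H _ t12711.2.2.2.2.1, H _ t12711.2.2.2.2.2.1⟩, ⟨H _ t12711.2.2.2.2.2.2.1, ⟨H _ t12711.2.2.2.2.2.2.2, H _ t12719.1⟩⟩⟩⟩⟩, ⟨⟨⟨⟨H _ t12719.2.1, H _ t12719.2.2.1⟩, ⟨H _ t12719.2.2.2.1, H _ t12719.2.2.2.2.1⟩⟩, ⟨⟨H _ t12719.2.2.2.2.2.1, H _ t12719.2.2.2.2.2.2.1⟩, ⟨H _ t12719.2.2.2.2.2.2.2, ⟨H _ t12727.1, H _ t12727.2.1⟩⟩⟩⟩, ⟨⟨⟨H _ t12727.2.2.1, H _ t12727.2.2.2.1⟩, ⟨H _ t12727.2.2.2.2.1, H _ t12727.2.2.2.2.2.1⟩⟩, ⟨⟨H _ t12727.2.2.2.2.2.2.1, H _ t12727.2.2.2.2.2.2.2⟩, ⟨H _ t12735.1, ⟨H _ t12735.2.1, H _ t12735.2.2.1⟩⟩⟩⟩⟩⟩⟩⟩, ⟨⟨⟨⟨⟨⟨⟨H _ t12735.2.2.2.1, H _ t12735.2.2.2.2.1⟩, ⟨H _ t12735.2.2.2.2.2.1, H _ t12735.2.2.2.2.2.2.1⟩⟩, ⟨⟨H _ t12735.2.2.2.2.2.2.2,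 H _ t12743.1⟩, ⟨H _ t12743.2.1, H _ t12743.2.2.1⟩⟩⟩, ⟨⟨⟨H _ t12743.2.2.2.1, H _ t12743.2.2.2.2.1⟩, ⟨H _ t12743.2.2.2.2.2.1, H _ t12743.2.2.2.2.2.2.1⟩⟩, ⟨⟨H _ t12743.2.2.2.2.2.2.2, H _ t12751.1⟩, ⟨H _ t12751.2.1, ⟨H _ t12751.2.2.1, H _ t12751.2.2.2.1⟩⟩⟩⟩⟩, ⟨⟨⟨⟨H _ t12751.2.2.2.2.1, H _ t12751.2.2.2.2.2.1⟩, ⟨H _ t12751.2.2.2.2.2.2.1, H _ t12751.2.2.2.2.2.2.2⟩⟩, ⟨⟨H _ t12759.1, H _ t12759.2.1⟩, ⟨H _ t12759.2.2.1, ⟨H _ t12759.2.2.2.1, H _ t12759.2.2.2.2.1⟩⟩⟩⟩, ⟨⟨⟨H _ t12759.2.2.2.2.2.1, H _ t12759.2.2.2.2.2.2.1⟩, ⟨H _ t12759.2.2.2.2.2.2.2, H _ t12767.1⟩⟩, ⟨⟨H _ t12767.2.1, H _ t12767.2.2.1⟩, ⟨H _ t12767.2.2.2.1, ⟨H _ t12767.2.2.2.2.1, H _ t12767.2.2.2.2.2.1⟩⟩⟩⟩⟩⟩, ⟨⟨⟨⟨⟨H _ t12767.2.2.2.2.2.2.1, H _ t12767.2.2.2.2.2.2.2⟩, ⟨H _ t12775.1, H _ t12775.2.1⟩⟩, ⟨⟨H _ t12775.2.2.1, H _ t12775.2.2.2.1⟩, ⟨H _ t12775.2.2.2.2.1, ⟨H _ t12775.2.2.2.2.2.1, H _ t12775.2.2.2.2.2.2.1⟩⟩⟩⟩, ⟨⟨⟨H _ t12775.2.2.2.2.2.2.2,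 H _ t12783.1⟩, ⟨H _ t12783.2.1, H _ t12783.2.2.1⟩⟩, ⟨⟨H _ t12783.2.2.2.1, H _ t12783.2.2.2.2.1⟩, ⟨H _ t12783.2.2.2.2.2.1, ⟨H _ t12783.2.2.2.2.2.2.1, H _ t12783.2.2.2.2.2.2.2⟩⟩⟩⟩⟩, ⟨⟨⟨⟨H _ t12791.1, H _ t12791.2.1⟩, ⟨H _ t12791.2.2.1, H _ t12791.2.2.2.1⟩⟩, ⟨⟨H _ t12791.2.2.2.2.1, H _ t12791.2.2.2.2.2.1⟩, ⟨H _ t12791.2.2.2.2.2.2.1, ⟨H _ t12791.2.2.2.2.2.2.2, H _ t12799.1⟩⟩⟩⟩, ⟨⟨⟨H _ t12799.2.1, H _ t12799.2.2.1⟩, ⟨H _ t12799.2.2.2.1, H _ t12799.2.2.2.2.1⟩⟩, ⟨⟨H _ t12799.2.2.2.2.2.1, H _ t12799.2.2.2.2.2.2.1⟩, ⟨H _ t12799.2.2.2.2.2.2.2, ⟨H _ t12807.1, H _ t12807.2.1⟩⟩⟩⟩⟩⟩⟩, ⟨⟨⟨⟨⟨⟨H _ t12807.2.2.1, H _ t12807.2.2.2.1⟩, ⟨H _ t12807.2.2.2.2.1, H _ t12807.2.2.2.2.2.1⟩⟩, ⟨⟨H _ t12807.2.2.2.2.2.2.1, H _ t12807.2.2.2.2.2.2.2⟩, ⟨H _ t12815.1, ⟨H _ t12815.2.1, H _ t12815.2.2.1⟩⟩⟩⟩, ⟨⟨⟨H _ t12815.2.2.2.1, H _ t12815.2.2.2.2.1⟩, ⟨H _ t12815.2.2.2.2.2.1, H _ t12815.2.2.2.2.2.2.1⟩⟩, ⟨⟨H _ t12815.2.2.2.2.2.2.2,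 H _ t12823.1⟩, ⟨H _ t12823.2.1, ⟨H _ t12823.2.2.1, H _ t12823.2.2.2.1⟩⟩⟩⟩⟩, ⟨⟨⟨⟨H _ t12823.2.2.2.2.1, H _ t12823.2.2.2.2.2.1⟩, ⟨H _ t12823.2.2.2.2.2.2.1, H _ t12823.2.2.2.2.2.2.2⟩⟩, ⟨⟨H _ t12831.1, H _ t12831.2.1⟩, ⟨H _ t12831.2.2.1, ⟨H _ t12831.2.2.2.1, H _ t12831.2.2.2.2.1⟩⟩⟩⟩, ⟨⟨⟨H _ t12831.2.2.2.2.2.1, H _ t12831.2.2.2.2.2.2.1⟩, ⟨H _ t12831.2.2.2.2.2.2.2, H _ t12839.1⟩⟩, ⟨⟨H _ t12839.2.1, H _ t12839.2.2.1⟩, ⟨H _ t12839.2.2.2.1, ⟨H _ t12839.2.2.2.2.1, H _ t12839.2.2.2.2.2.1⟩⟩⟩⟩⟩⟩, ⟨⟨⟨⟨⟨H _ t12839.2.2.2.2.2.2.1, H _ t12839.2.2.2.2.2.2.2⟩, ⟨H _ t12847.1, H _ t12847.2.1⟩⟩, ⟨⟨H _ t12847.2.2.1, H _ t12847.2.2.2.1⟩, ⟨H _ t12847.2.2.2.2.1, ⟨H _ t12847.2.2.2.2.2.1, H _ t12847.2.2.2.2.2.2.1⟩⟩⟩⟩, ⟨⟨⟨H _ t12847.2.2.2.2.2.2.2, H _ t12855.1⟩, ⟨H _ t12855.2.1, H _ t12855.2.2.1⟩⟩, ⟨⟨H _ t12855.2.2.2.1, H _ t12855.2.2.2.2.1⟩, ⟨H _ t12855.2.2.2.2.2.1, ⟨H _ t12855.2.2.2.2.2.2.1, H _ t12855.2.2.2.2.2.2.2⟩⟩⟩⟩⟩,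 ⟨⟨⟨⟨H _ t12863.1, H _ t12863.2.1⟩, ⟨H _ t12863.2.2.1, H _ t12863.2.2.2.1⟩⟩, ⟨⟨H _ t12863.2.2.2.2.1, H _ t12863.2.2.2.2.2.1⟩, ⟨H _ t12863.2.2.2.2.2.2.1, ⟨H _ t12863.2.2.2.2.2.2.2, H _ t12871.1⟩⟩⟩⟩, ⟨⟨⟨H _ t12871.2.1, H _ t12871.2.2.1⟩, ⟨H _ t12871.2.2.2.1, H _ t12871.2.2.2.2.1⟩⟩, ⟨⟨H _ t12871.2.2.2.2.2.1, H _ t12871.2.2.2.2.2.2.1⟩, ⟨H _ t12871.2.2.2.2.2.2.2, ⟨H _ t12879.1, H _ t12879.2⟩⟩⟩⟩⟩⟩⟩⟩⟩⟩

end Pool.Agent.MP_c853c5_nt.X.C4950
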