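import Pool.Agent.MP_c853c5_nt.X.C4950.Env
import Pool.Agent.MP_c853c5_nt.X.C4950.D4

set_option autoImplicit false
set_option maxRecDepth 8192
set_option linter.all false

namespace Pool.Agent.MP_c853c5_nt.X.C4950

open Pool.Agent.MP_c853c5_nt.X

def t12881 : allY (E.wth (lkp [])) l12881 = true ∧
    allY (E.wth (lkp [])) l12882 = true ∧
    allY (E.wth (lkp [])) l12883 = true ∧
    allY (E.wth (lkp [])) l12884 = true ∧
    allY (E.wth (lkp [])) l12885 = true ∧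
    allY (E.wth (lkp [])) l12886 = true ∧
    allY (E.wth (lkp [])) l12887 = true ∧
    allY (E.wth (lkp [])) l12888 = true :=
  ⟨by decide +kernel, by decide +kernel, by decide +kernel, by decide +kernel, by decide +kernel, by decide +kernel, by decide +kernel, by decide +kernel⟩

def t12889 : allY (E.wth (lkp [])) l12889 = true ∧
    allY (E.wth (lkp [])) l12890 = true ∧
    allY (E.wth (lkp [])) l12891 = true ∧
    allY (E.wth (lkp [])) l12892 = true ∧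
    allY (E.wth (lkp [])) l12893 = true ∧
    allY (E.wth (lkp [])) l12894 = true ∧
    allY (E.wth (lkp [])) l12895 = true ∧
    allY (E.wth (lkp [])) l12896 = true :=
  ⟨by decide +kernel, by decide +kernel, by decide +kernel, by decide +kernel, by decide +kernel, by decide +kernel, by decide +kernel, by decide +kernel⟩

def t12897 : allY (E.wth (lkp [])) l12897 = true ∧
    allY (E.wth (lkp [])) l12898 = true ∧
    allY (E.wth (lkp [])) l12899 = true ∧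
    allY (E.wth (lkp [])) l12900 = true ∧
    allY (E.wth (lkp [])) l12901 = true ∧
    allY (E.wth (lkp [])) l12902 = true ∧
    allY (E.wth (lkp [])) l12903 = true ∧
    allY (E.wth (lkp [])) l12904 = true :=
  ⟨by decide +kernel, by decide +kernel, by decide +kernel, by decide +kernel, by decide +kernel, by decide +kernel, by decide +kernel, by decide +kernel⟩

def t12905 : allY (E.wth (lkp [])) l12905 = true ∧
    allY (E.wth (lkp [])) l12906 = true ∧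
    allY (E.wth (lkp [])) l12907 = true ∧
    allY (E.wth (lkp [])) l12908 = true ∧
    allY (E.wth (lkp [])) l12909 = true ∧
    allY (E.wth (lkp [])) l12910 = true ∧
    allY (E.wth (lkp [])) l12911 = true ∧
    allY (E.wth (lkp [])) l12912 = true :=
  ⟨by decide +kernel, by decide +kernel, by decide +kernel, by decide +kernel, by decide +kernel, by decide +kernel, by decide +kernel, by decide +kernel⟩

def t12913 : allY (E.wth (lkp [])) l12913 = true ∧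
    allY (E.wth (lkp [])) l12914 = true ∧
    allY (E.wth (lkp [])) l12915 = true ∧
    allY (E.wth (lkp [])) l12916 = true ∧
    allY (E.wth (lkp [])) l12917 = true ∧
    allY (E.wth (lkp [])) l12918 = true ∧
    allY (E.wth (lkp [])) l12919 = true ∧
    allY (E.wth (lkp [])) l12920 = true :=
  ⟨by decide +kernel, by decide +kernel, by decide +kernel, by decide +kernel, by decide +kernel, by decide +kernel, by decide +kernel, by decide +kernel⟩

def t12921 : allY (E.wth (lkp [])) l12921 = true ∧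
    allY (E.wth (lkp [])) l12922 = true ∧
    allY (E.wth (lkp [])) l12923 = true ∧
    allY (E.wth (lkp [])) l12924 = true ∧
    allY (E.wth (lkp [])) l12925 = true ∧
    allY (E.wth (lkp [])) l12926 = true ∧
    allY (E.wth (lkp [])) l12927 = true ∧
    allY (E.wth (lkp [])) l12928 = true :=
  ⟨by decide +kernel, by decide +kernel, by decide +kernel, by decide +kernel, by decide +kernel, by decide +kernel, by decide +kernel, by decide +kernel⟩

def t12929 : allY (E.wth (lkp [])) l12929 = true ∧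
    allY (E.wth (lkp [])) l12930 = true ∧
    allY (E.wth (lkp [])) l12931 = true ∧
    allY (E.wth (lkp [])) l12932 = true ∧
    allY (E.wth (lkp [])) l12933 = true ∧
    allY (E.wth (lkp [])) l12934 = true ∧
    allY (E.wth (lkp [])) l12935 = true ∧
    allY (E.wth (lkp [])) l12936 = true :=
  ⟨by decide +kernel, by decide +kernel, by decide +kernel, by decide +kernel, by decide +kernel, by decide +kernel, by decide +kernel, by decide +kernel⟩

def t12937 : allY (E.wth (lkp [])) l12937 = true ∧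
    allY (E.wth (lkp [])) l12938 = true ∧
    allY (E.wth (lkp [])) l12939 = true ∧
    allY (E.wth (lkp [])) l12940 = true ∧
    allY (E.wth (lkp [])) l12941 = true ∧
    allY (E.wth (lkp [])) l12942 = true ∧
    allY (E.wth (lkp [])) l12943 = true ∧
    allY (E.wth (lkp [])) l12944 = true :=
  ⟨by decide +kernel, by decide +kernel, by decide +kernel, by decide +kernel, by decide +kernel, by decide +kernel, by decide +kernel, by decide +kernel⟩

def t12945 : allY (E.wth (lkp [])) l12945 = true ∧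
    allY (E.wth (lkp [])) l12946 = true ∧
    allY (E.wth (lkp [])) l12947 = true ∧
    allY (E.wth (lkp [])) l12948 = true ∧
    allY (E.wth (lkp [])) l12949 = true ∧
    allY (E.wth (lkp [])) l12950 = true ∧
    allY (E.wth (lkp [])) l12951 = true ∧
    allY (E.wth (lkp [])) l12952 = true :=
  ⟨by decide +kernel, by decide +kernel, by decide +kernel, by decide +kernel, by decide +kernel, by decide +kernel, by decide +kernel, by decide +kernel⟩

def t12953 : allY (E.wth (lkp [])) l12953 = true ∧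
    allY (E.wth (lkp [])) l12954 = true ∧
    allY (E.wth (lkp [])) l12955 = true ∧
    allY (E.wth (lkp [])) l12956 = true ∧
    allY (E.wth (lkp [])) l12957 = true ∧
    allY (E.wth (lkp [])) l12958 = true ∧
    allY (E.wth (lkp [])) l12959 = true ∧
    allY (E.wth (lkp [])) l12960 = true :=
  ⟨by decide +kernel, by decide +kernel, by decide +kernel, by decide +kernel, by decide +kernel, by decide +kernel, by decide +kernel, by decide +kernel⟩

def t12961 : allY (E.wth (lkp [])) l12961 = true ∧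
    allY (E.wth (lkp [])) l12962 = true ∧
    allY (E.wth (lkp [])) l12963 = true ∧
    allY (E.wth (lkp [])) l12964 = true ∧
    allY (E.wth (lkp [])) l12965 = true ∧
    allY (E.wth (lkp [])) l12966 = true ∧
    allY (E.wth (lkp [])) l12967 = true ∧
    allY (E.wth (lkp [])) l12968 = true :=
  ⟨by decide +kernel, by decide +kernel, by decide +kernel, by decide +kernel, by decide +kernel, by decide +kernel, by decide +kernel, by decide +kernel⟩

def t12969 : allY (E.wth (lkp [])) l12969 = true ∧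
    allY (E.wth (lkp [])) l12970 = true ∧
    allY (E.wth (lkp [])) l12971 = true ∧
    allY (E.wth (lkp [])) l12972 = true ∧
    allY (E.wth (lkp [])) l12973 = true ∧
    allY (E.wth (lkp [])) l12974 = true ∧
    allY (E.wth (lkp [])) l12975 = true ∧
    allY (E.wth (lkp [])) l12976 = true :=
  ⟨by decide +kernel, by decide +kernel, by decide +kernel, by decide +kernel, by decide +kernel, by decide +kernel, by decide +kernel, by decide +kernel⟩

def t12977 : allY (E.wth (lkp [])) l12977 = true ∧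
    allY (E.wth (lkp [])) l12978 = true ∧
    allY (E.wth (lkp [])) l12979 = true ∧
    allY (E.wth (lkp [])) l12980 = true ∧
    allY (E.wth (lkp [])) l12981 = true ∧
    allY (E.wth (lkp [])) l12982 = true ∧
    allY (E.wth (lkp [])) l12983 = true ∧
    allY (E.wth (lkp [])) l12984 = true :=
  ⟨by decide +kernel, by decide +kernel, by decide +kernel, by decide +kernel, by decide +kernel, by decide +kernel, by decide +kernel, by decide +kernel⟩

def t12985 : allY (E.wth (lkp [])) l12985 = true ∧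
    allY (E.wth (lkp [])) l12986 = true ∧
    allY (E.wth (lkp [])) l12987 = true ∧
    allY (E.wth (lkp [])) l12988 = true ∧
    allY (E.wth (lkp [])) l12989 = true ∧
    allY (E.wth (lkp [])) l12990 = true ∧
    allY (E.wth (lkp [])) l12991 = true ∧
    allY (E.wth (lkp [])) l12992 = true :=
  ⟨by decide +kernel, by decide +kernel, by decide +kernel, by decide +kernel, by decide +kernel, by decide +kernel, by decide +kernel, by decide +kernel⟩

def t12993 : allY (E.wth (lkp [])) l12993 = true ∧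
    allY (E.wth (lkp [])) l12994 = true ∧
    allY (E.wth (lkp [])) l12995 = true ∧
    allY (E.wth (lkp [])) l12996 = true ∧
    allY (E.wth (lkp [])) l12997 = true ∧
    allY (E.wth (lkp [])) l12998 = true ∧
    allY (E.wth (lkp [])) l12999 = true ∧
    allY (E.wth (lkp [])) l13000 = true :=
  ⟨by decide +kernel, by decide +kernel, by decide +kernel, by decide +kernel, by decide +kernel, by decide +kernel, by decide +kernel, by decide +kernel⟩

def t13001 : allY (E.wth (lkp [])) l13001 = true ∧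
    allY (E.wth (lkp [])) l13002 = true ∧
    allY (E.wth (lkp [])) l13003 = true ∧
    allY (E.wth (lkp [])) l13004 = true ∧
    allY (E.wth (lkp [])) l13005 = true ∧
    allY (E.wth (lkp [])) l13006 = true ∧
    allY (E.wth (lkp [])) l13007 = true ∧
    allY (E.wth (lkp [])) l13008 = true :=
  ⟨by decide +kernel, by decide +kernel, by decide +kernel, by decide +kernel, by decide +kernel, by decide +kernel, by decide +kernel, by decide +kernel⟩

def t13009 : allY (E.wth (lkp [])) l13009 = true ∧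
    allY (E.wth (lkp [])) l13010 = true ∧
    allY (E.wth (lkp [])) l13011 = true ∧
    allY (E.wth (lkp [])) l13012 = true ∧
    allY (E.wth (lkp [])) l13013 = true ∧
    allY (E.wth (lkp [])) l13014 = true ∧
    allY (E.wth (lkp [])) l13015 = true ∧
    allY (E.wth (lkp [])) l13016 = true :=
  ⟨by decide +kernel, by decide +kernel, by decide +kernel, by decide +kernel, by decide +kernel, by decide +kernel, by decide +kernel, by decide +kernel⟩

def t13017 : allY (E.wth (lkp [])) l13017 = true ∧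
    allY (E.wth (lkp [])) l13018 = true ∧
    allY (E.wth (lkp [])) l13019 = true ∧
    allY (E.wth (lkp [])) l13020 = true ∧
    allY (E.wth (lkp [])) l13021 = true ∧
    allY (E.wth (lkp [])) l13022 = true ∧
    allY (E.wth (lkp [])) l13023 = true ∧
    allY (E.wth (lkp [])) l13024 = true :=
  ⟨by decide +kernel, by decide +kernel, by decide +kernel, by decide +kernel, by decide +kernel, by decide +kernel, by decide +kernel, by decide +kernel⟩

def t13025 : allY (E.wth (lkp [])) l13025 = true ∧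
    allY (E.wth (lkp [])) l13026 = true ∧
    allY (E.wth (lkp [])) l13027 = true ∧
    allY (E.wth (lkp [])) l13028 = true ∧
    allY (E.wth (lkp [])) l13029 = true ∧
    allY (E.wth (lkp [])) l13030 = true ∧
    allY (E.wth (lkp [])) l13031 = true ∧
    allY (E.wth (lkp [])) l13032 = true :=
  ⟨by decide +kernel, by decide +kernel, by decide +kernel, by decide +kernel, by decide +kernel, by decide +kernel, by decide +kernel, by decide +kernel⟩

def t13033 : allY (E.wth (lkp [])) l13033 = true ∧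
    allY (E.wth (lkp [])) l13034 = true ∧
    allY (E.wth (lkp [])) l13035 = true ∧
    allY (E.wth (lkp [])) l13036 = true ∧
    allY (E.wth (lkp [])) l13037 = true ∧
    allY (E.wth (lkp [])) l13038 = true ∧
    allY (E.wth (lkp [])) l13039 = true ∧
    allY (E.wth (lkp [])) l13040 = true :=
  ⟨by decide +kernel, by decide +kernel, by decide +kernel, by decide +kernel, by decide +kernel, by decide +kernel, by decide +kernel, by decide +kernel⟩

def t13041 : allY (E.wth (lkp [])) l13041 = true ∧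
    allY (E.wth (lkp [])) l13042 = true ∧
    allY (E.wth (lkp [])) l13043 = true ∧
    allY (E.wth (lkp [])) l13044 = true ∧
    allY (E.wth (lkp [])) l13045 = true ∧
    allY (E.wth (lkp [])) l13046 = true ∧
    allY (E.wth (lkp [])) l13047 = true ∧
    allY (E.wth (lkp [])) l13048 = true :=
  ⟨by decide +kernel, by decide +kernel, by decide +kernel, by decide +kernel, by decide +kernel, by decide +kernel, by decide +kernel, by decide +kernel⟩

def t13049 : allY (E.wth (lkp [])) l13049 = true ∧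
    allY (E.wth (lkp [])) l13050 = true ∧
    allY (E.wth (lkp [])) l13051 = true ∧
    allY (E.wth (lkp [])) l13052 = true ∧
    allY (E.wth (lkp [])) l13053 = true ∧
    allY (E.wth (lkp [])) l13054 = true ∧
    allY (E.wth (lkp [])) l13055 = true ∧
    allY (E.wth (lkp [])) l13056 = true :=
  ⟨by decide +kernel, by decide +kernel, by decide +kernel, by decide +kernel, by decide +kernel, by decide +kernel, by decide +kernel, by decide +kernel⟩

def t13057 : allY (E.wth (lkp [])) l13057 = true ∧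
    allY (E.wth (lkp [])) l13058 = true ∧
    allY (E.wth (lkp [])) l13059 = true ∧
    allY (E.wth (lkp [])) l13060 = true ∧
    allY (E.wth (lkp [])) l13061 = true ∧
    allY (E.wth (lkp [])) l13062 = true ∧
    allY (E.wth (lkp [])) l13063 = true ∧
    allY (E.wth (lkp [])) l13064 = true :=
  ⟨by decide +kernel, by decide +kernel, by decide +kernel, by decide +kernel, by decide +kernel, by decide +kernel, by decide +kernel, by decide +kernel⟩

def t13065 : allY (E.wth (lkp [])) l13065 = true ∧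
    allY (E.wth (lkp [])) l13066 = true ∧
    allY (E.wth (lkp [])) l13067 = true ∧
    allY (E.wth (lkp [])) l13068 = true ∧
    allY (E.wth (lkp [])) l13069 = true ∧
    allY (E.wth (lkp [])) l13070 = true ∧
    allY (E.wth (lkp [])) l13071 = true ∧
    allY (E.wth (lkp [])) l13072 = true :=
  ⟨by decide +kernel, by decide +kernel, by decide +kernel, by decide +kernel, by decide +kernel, by decide +kernel, by decide +kernel, by decide +kernel⟩

def t13073 : allY (E.wth (lkp [])) l13073 = true ∧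
    allY (E.wth (lkp [])) l13074 = true ∧
    allY (E.wth (lkp [])) l13075 = true ∧
    allY (E.wth (lkp [])) l13076 = true ∧
    allY (E.wth (lkp [])) l13077 = true ∧
    allY (E.wth (lkp [])) l13078 = true ∧
    allY (E.wth (lkp [])) l13079 = true ∧
    allY (E.wth (lkp [])) l13080 = true :=
  ⟨by decide +kernel, by decide +kernel, by decide +kernel, by decide +kernel, by decide +kernel, by decide +kernel, by decide +kernel, by decide +kernel⟩

def t13081 : allY (E.wth (lkp [])) l13081 = true ∧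
    allY (E.wth (lkp [])) l13082 = true ∧
    allY (E.wth (lkp [])) l13083 = true ∧
    allY (E.wth (lkp [])) l13084 = true ∧
    allY (E.wth (lkp [])) l13085 = true ∧
    allY (E.wth (lkp [])) l13086 = true ∧
    allY (E.wth (lkp [])) l13087 = true ∧
    allY (E.wth (lkp [])) l13088 = true :=
  ⟨by decide +kernel, by decide +kernel, by decide +kernel, by decide +kernel, by decide +kernel, by decide +kernel, by decide +kernel, by decide +kernel⟩

def t13089 : allY (E.wth (lkp [])) l13089 = true ∧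
    allY (E.wth (lkp [])) l13090 = true ∧
    allY (E.wth (lkp [])) l13091 = true ∧
    allY (E.wth (lkp [])) l13092 = true ∧
    allY (E.wth (lkp [])) l13093 = true ∧
    allY (E.wth (lkp [])) l13094 = true ∧
    allY (E.wth (lkp [])) l13095 = true ∧
    allY (E.wth (lkp [])) l13096 = true :=
  ⟨by decide +kernel, by decide +kernel, by decide +kernel, by decide +kernel, by decide +kernel, by decide +kernel, by decide +kernel, by decide +kernel⟩

def t13097 : allY (E.wth (lkp [])) l13097 = true ∧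
    allY (E.wth (lkp [])) l13098 = true ∧
    allY (E.wth (lkp [])) l13099 = true ∧
    allY (E.wth (lkp [])) l13100 = true ∧
    allY (E.wth (lkp [])) l13101 = true ∧
    allY (E.wth (lkp [])) l13102 = true ∧
    allY (E.wth (lkp [])) l13103 = true ∧
    allY (E.wth (lkp [])) l13104 = true :=
  ⟨by decide +kernel, by decide +kernel, by decide +kernel, by decide +kernel, by decide +kernel, by decide +kernel, by decide +kernel, by decide +kernel⟩

def t13105 : allY (E.wth (lkp [])) l13105 = true ∧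
    allY (E.wth (lkp [])) l13106 = true ∧
    allY (E.wth (lkp [])) l13107 = true ∧
    allY (E.wth (lkp [])) l13108 = true ∧
    allY (E.wth (lkp [])) l13109 = true ∧
    allY (E.wth (lkp [])) l13110 = true ∧
    allY (E.wth (lkp [])) l13111 = true ∧
    allY (E.wth (lkp [])) l13112 = true :=
  ⟨by decide +kernel, by decide +kernel, by decide +kernel, by decide +kernel, by decide +kernel, by decide +kernel, by decide +kernel, by decide +kernel⟩

def t13113 : allY (E.wth (lkp [])) l13113 = true ∧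
    allY (E.wth (lkp [])) l13114 = true ∧
    allY (E.wth (lkp [])) l13115 = true ∧
    allY (E.wth (lkp [])) l13116 = true ∧
    allY (E.wth (lkp [])) l13117 = true ∧
    allY (E.wth (lkp [])) l13118 = true ∧
    allY (E.wth (lkp [])) l13119 = true ∧
    allY (E.wth (lkp [])) l13120 = true :=
  ⟨by decide +kernel, by decide +kernel, by decide +kernel, by decide +kernel, by decide +kernel, by decide +kernel, by decide +kernel, by decide +kernel⟩

def t13121 : allY (E.wth (lkp [])) l13121 = true ∧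
    allY (E.wth (lkp [])) l13122 = true ∧
    allY (E.wth (lkp [])) l13123 = true ∧
    allY (E.wth (lkp [])) l13124 = true ∧
    allY (E.wth (lkp [])) l13125 = true ∧
    allY (E.wth (lkp [])) l13126 = true ∧
    allY (E.wth (lkp [])) l13127 = true ∧
    allY (E.wth (lkp [])) l13128 = true :=
  ⟨by decide +kernel, by decide +kernel, by decide +kernel, by decide +kernel, by decide +kernel, by decide +kernel, by decide +kernel, by decide +kernel⟩

def t13129 : allY (E.wth (lkp [])) l13129 = true ∧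
    allY (E.wth (lkp [])) l13130 = true ∧
    allY (E.wth (lkp [])) l13131 = true ∧
    allY (E.wth (lkp [])) l13132 = true ∧
    allY (E.wth (lkp [])) l13133 = true ∧
    allY (E.wth (lkp [])) l13134 = true ∧
    allY (E.wth (lkp [])) l13135 = true ∧
    allY (E.wth (lkp [])) l13136 = true :=
  ⟨by decide +kernel, by decide +kernel, by decide +kernel, by decide +kernel, by decide +kernel, by decide +kernel, by decide +kernel, by decide +kernel⟩

def t13137 : allY (E.wth (lkp [])) l13137 = true ∧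
    allY (E.wth (lkp [])) l13138 = true ∧
    allY (E.wth (lkp [])) l13139 = true ∧
    allY (E.wth (lkp [])) l13140 = true ∧
    allY (E.wth (lkp [])) l13141 = true ∧
    allY (E.wth (lkp [])) l13142 = true ∧
    allY (E.wth (lkp [])) l13143 = true ∧
    allY (E.wth (lkp [])) l13144 = true :=
  ⟨by decide +kernel, by decide +kernel, by decide +kernel, by decide +kernel, by decide +kernel, by decide +kernel, by decide +kernel, by decide +kernel⟩

def t13145 : allY (E.wth (lkp [])) l13145 = true ∧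
    allY (E.wth (lkp [])) l13146 = true ∧
    allY (E.wth (lkp [])) l13147 = true ∧
    allY (E.wth (lkp [])) l13148 = true ∧
    allY (E.wth (lkp [])) l13149 = true ∧
    allY (E.wth (lkp [])) l13150 = true ∧
    allY (E.wth (lkp [])) l13151 = true ∧
    allY (E.wth (lkp [])) l13152 = true :=
  ⟨by decide +kernel, by decide +kernel, by decide +kernel, by decide +kernel, by decide +kernel, by decide +kernel, by decide +kernel, by decide +kernel⟩

def t13153 : allY (E.wth (lkp [])) l13153 = true ∧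
    allY (E.wth (lkp [])) l13154 = true ∧
    allY (E.wth (lkp [])) l13155 = true ∧
    allY (E.wth (lkp [])) l13156 = true ∧
    allY (E.wth (lkp [])) l13157 = true ∧
    allY (E.wth (lkp [])) l13158 = true ∧
    allY (E.wth (lkp [])) l13159 = true ∧
    allY (E.wth (lkp [])) l13160 = true :=
  ⟨by decide +kernel, by decide +kernel, by decide +kernel, by decide +kernel, by decide +kernel, by decide +kernel, by decide +kernel, by decide +kernel⟩

def t13161 : allY (E.wth (lkp [])) l13161 = true ∧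
    allY (E.wth (lkp [])) l13162 = true ∧
    allY (E.wth (lkp [])) l13163 = true ∧
    allY (E.wth (lkp [])) l13164 = true ∧
    allY (E.wth (lkp [])) l13165 = true ∧
    allY (E.wth (lkp [])) l13166 = true ∧
    allY (E.wth (lkp [])) l13167 = true ∧
    allY (E.wth (lkp [])) l13168 = true :=
  ⟨by decide +kernel, by decide +kernel, by decide +kernel, by decide +kernel, by decide +kernel, by decide +kernel, by decide +kernel, by decide +kernel⟩

def t13169 : allY (E.wth (lkp [])) l13169 = true ∧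
    allY (E.wth (lkp [])) l13170 = true ∧
    allY (E.wth (lkp [])) l13171 = true ∧
    allY (E.wth (lkp [])) l13172 = true ∧
    allY (E.wth (lkp [])) l13173 = true ∧
    allY (E.wth (lkp [])) l13174 = true ∧
    allY (E.wth (lkp [])) l13175 = true ∧
    allY (E.wth (lkp [])) l13176 = true :=
  ⟨by decide +kernel, by decide +kernel, by decide +kernel, by decide +kernel, by decide +kernel, by decide +kernel, by decide +kernel, by decide +kernel⟩

def t13177 : allY (E.wth (lkp [])) l13177 = true ∧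
    allY (E.wth (lkp [])) l13178 = true ∧
    allY (E.wth (lkp [])) l13179 = true ∧
    allY (E.wth (lkp [])) l13180 = true ∧
    allY (E.wth (lkp [])) l13181 = true ∧
    allY (E.wth (lkp [])) l13182 = true ∧
    allY (E.wth (lkp [])) l13183 = true ∧
    allY (E.wth (lkp [])) l13184 = true :=
  ⟨by decide +kernel, by decide +kernel, by decide +kernel, by decide +kernel, by decide +kernel, by decide +kernel, by decide +kernel, by decide +kernel⟩

def t13185 : allY (E.wth (lkp [])) l13185 = true ∧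
    allY (E.wth (lkp [])) l13186 = true ∧
    allY (E.wth (lkp [])) l13187 = true ∧
    allY (E.wth (lkp [])) l13188 = true ∧
    allY (E.wth (lkp [])) l13189 = true ∧
    allY (E.wth (lkp [])) l13190 = true ∧
    allY (E.wth (lkp [])) l13191 = true ∧
    allY (E.wth (lkp [])) l13192 = true :=
  ⟨by decide +kernel, by decide +kernel, by decide +kernel, by decide +kernel, by decide +kernel, by decide +kernel, by decide +kernel, by decide +kernel⟩

def t13193 : allY (E.wth (lkp [])) l13193 = true ∧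
    allY (E.wth (lkp [])) l13194 = true ∧
    allY (E.wth (lkp [])) l13195 = true ∧
    allY (E.wth (lkp [])) l13196 = true ∧
    allY (E.wth (lkp [])) l13197 = true ∧
    allY (E.wth (lkp [])) l13198 = true ∧
    allY (E.wth (lkp [])) l13199 = true ∧
    allY (E.wth (lkp [])) l13200 = true :=
  ⟨by decide +kernel, by decide +kernel, by decide +kernel, by decide +kernel, by decide +kernel, by decide +kernel, by decide +kernel, by decide +kernel⟩

def t13201 : allY (E.wth (lkp [])) l13201 = true ∧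
    allY (E.wth (lkp [])) l13202 = true ∧
    allY (E.wth (lkp [])) l13203 = true ∧
    allY (E.wth (lkp [])) l13204 = true ∧
    allY (E.wth (lkp [])) l13205 = true ∧
    allY (E.wth (lkp [])) l13206 = true ∧
    allY (E.wth (lkp [])) l13207 = true ∧
    allY (E.wth (lkp [])) l13208 = true :=
  ⟨by decide +kernel, by decide +kernel, by decide +kernel, by decide +kernel, by decide +kernel, by decide +kernel, by decide +kernel, by decide +kernel⟩

def t13209 : allY (E.wth (lkp [])) l13209 = true ∧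
    allY (E.wth (lkp [])) l13210 = true ∧
    allY (E.wth (lkp [])) l13211 = true ∧
    allY (E.wth (lkp [])) l13212 = true ∧
    allY (E.wth (lkp [])) l13213 = true ∧
    allY (E.wth (lkp [])) l13214 = true ∧
    allY (E.wth (lkp [])) l13215 = true ∧
    allY (E.wth (lkp [])) l13216 = true :=
  ⟨by decide +kernel, by decide +kernel, by decide +kernel, by decide +kernel, by decide +kernel, by decide +kernel, by decide +kernel, by decide +kernel⟩

def t13217 : allY (E.wth (lkp [])) l13217 = true ∧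
    allY (E.wth (lkp [])) l13218 = true ∧
    allY (E.wth (lkp [])) l13219 = true ∧
    allY (E.wth (lkp [])) l13220 = true ∧
    allY (E.wth (lkp [])) l13221 = true ∧
    allY (E.wth (lkp [])) l13222 = true ∧
    allY (E.wth (lkp [])) l13223 = true ∧
    allY (E.wth (lkp [])) l13224 = true :=
  ⟨by decide +kernel, by decide +kernel, by decide +kernel, by decide +kernel, by decide +kernel, by decide +kernel, by decide +kernel, by decide +kernel⟩

def t13225 : allY (E.wth (lkp [])) l13225 = true ∧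
    allY (E.wth (lkp [])) l13226 = true ∧
    allY (E.wth (lkp [])) l13227 = true ∧
    allY (E.wth (lkp [])) l13228 = true ∧
    allY (E.wth (lkp [])) l13229 = true ∧
    allY (E.wth (lkp [])) l13230 = true ∧
    allY (E.wth (lkp [])) l13231 = true ∧
    allY (E.wth (lkp [])) l13232 = true :=
  ⟨by decide +kernel, by decide +kernel, by decide +kernel, by decide +kernel, by decide +kernel, by decide +kernel, by decide +kernel, by decide +kernel⟩

def t13233 : allY (E.wth (lkp [])) l13233 = true ∧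
    allY (E.wth (lkp [])) l13234 = true ∧
    allY (E.wth (lkp [])) l13235 = true ∧
    allY (E.wth (lkp [])) l13236 = true ∧
    allY (E.wth (lkp [])) l13237 = true ∧
    allY (E.wth (lkp [])) l13238 = true ∧
    allY (E.wth (lkp [])) l13239 = true ∧
    allY (E.wth (lkp [])) l13240 = true :=
  ⟨by decide +kernel, by decide +kernel, by decide +kernel, by decide +kernel, by decide +kernel, by decide +kernel, by decide +kernel, by decide +kernel⟩

def t13241 : allY (E.wth (lkp [])) l13241 = true ∧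
    allY (E.wth (lkp [])) l13242 = true ∧
    allY (E.wth (lkp [])) l13243 = true ∧
    allY (E.wth (lkp [])) l13244 = true ∧
    allY (E.wth (lkp [])) l13245 = true ∧
    allY (E.wth (lkp [])) l13246 = true ∧
    allY (E.wth (lkp [])) l13247 = true ∧
    allY (E.wth (lkp [])) l13248 = true :=
  ⟨by decide +kernel, by decide +kernel, by decide +kernel, by decide +kernel, by decide +kernel, by decide +kernel, by decide +kernel, by decide +kernel⟩

def t13249 : allY (E.wth (lkp [])) l13249 = true ∧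
    allY (E.wth (lkp [])) l13250 = true ∧
    allY (E.wth (lkp [])) l13251 = true ∧
    allY (E.wth (lkp [])) l13252 = true ∧
    allY (E.wth (lkp [])) l13253 = true ∧
    allY (E.wth (lkp [])) l13254 = true ∧
    allY (E.wth (lkp [])) l13255 = true ∧
    allY (E.wth (lkp [])) l13256 = true :=
  ⟨by decide +kernel, by decide +kernel, by decide +kernel, by decide +kernel, by decide +kernel, by decide +kernel, by decide +kernel, by decide +kernel⟩

def t13257 : allY (E.wth (lkp [])) l13257 = true ∧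
    allY (E.wth (lkp [])) l13258 = true ∧
    allY (E.wth (lkp [])) l13259 = true ∧
    allY (E.wth (lkp [])) l13260 = true ∧
    allY (E.wth (lkp [])) l13261 = true ∧
    allY (E.wth (lkp [])) l13262 = true ∧
    allY (E.wth (lkp [])) l13263 = true ∧
    allY (E.wth (lkp [])) l13264 = true :=
  ⟨by decide +kernel, by decide +kernel, by decide +kernel, by decide +kernel, by decide +kernel, by decide +kernel, by decide +kernel, by decide +kernel⟩

def t13265 : allY (E.wth (lkp [])) l13265 = true ∧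
    allY (E.wth (lkp [])) l13266 = true ∧
    allY (E.wth (lkp [])) l13267 = true ∧
    allY (E.wth (lkp [])) l13268 = true ∧
    allY (E.wth (lkp [])) l13269 = true ∧
    allY (E.wth (lkp [])) l13270 = true ∧
    allY (E.wth (lkp [])) l13271 = true ∧
    allY (E.wth (lkp [])) l13272 = true :=
  ⟨by decide +kernel, by decide +kernel, by decide +kernel, by decide +kernel, by decide +kernel, by decide +kernel, by decide +kernel, by decide +kernel⟩

def t13273 : allY (E.wth (lkp [])) l13273 = true ∧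
    allY (E.wth (lkp [])) l13274 = true ∧
    allY (E.wth (lkp [])) l13275 = true ∧
    allY (E.wth (lkp [])) l13276 = true ∧
    allY (E.wth (lkp [])) l13277 = true ∧
    allY (E.wth (lkp [])) l13278 = true ∧
    allY (E.wth (lkp [])) l13279 = true ∧
    allY (E.wth (lkp [])) l13280 = true :=
  ⟨by decide +kernel, by decide +kernel, by decide +kernel, by decide +kernel, by decide +kernel, by decide +kernel, by decide +kernel, by decide +kernel⟩

def t13281 : allY (E.wth (lkp [])) l13281 = true ∧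
    allY (E.wth (lkp [])) l13282 = true ∧
    allY (E.wth (lkp [])) l13283 = true ∧
    allY (E.wth (lkp [])) l13284 = true ∧
    allY (E.wth (lkp [])) l13285 = true ∧
    allY (E.wth (lkp [])) l13286 = true ∧
    allY (E.wth (lkp [])) l13287 = true ∧
    allY (E.wth (lkp [])) l13288 = true :=
  ⟨by decide +kernel, by decide +kernel, by decide +kernel, by decide +kernel, by decide +kernel, by decide +kernel, by decide +kernel, by decide +kernel⟩

def t13289 : allY (E.wth (lkp [])) l13289 = true ∧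
    allY (E.wth (lkp [])) l13290 = true ∧
    allY (E.wth (lkp [])) l13291 = true ∧
    allY (E.wth (lkp [])) l13292 = true ∧
    allY (E.wth (lkp [])) l13293 = true ∧
    allY (E.wth (lkp [])) l13294 = true ∧
    allY (E.wth (lkp [])) l13295 = true ∧
    allY (E.wth (lkp [])) l13296 = true :=
  ⟨by decide +kernel, by decide +kernel, by decide +kernel, by decide +kernel, by decide +kernel, by decide +kernel, by decide +kernel, by decide +kernel⟩

def t13297 : allY (E.wth (lkp [])) l13297 = true ∧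
    allY (E.wth (lkp [])) l13298 = true ∧
    allY (E.wth (lkp [])) l13299 = true ∧
    allY (E.wth (lkp [])) l13300 = true ∧
    allY (E.wth (lkp [])) l13301 = true ∧
    allY (E.wth (lkp [])) l13302 = true ∧
    allY (E.wth (lkp [])) l13303 = true ∧
    allY (E.wth (lkp [])) l13304 = true :=
  ⟨by decide +kernel, by decide +kernel, by decide +kernel, by decide +kernel, by decide +kernel, by decide +kernel, by decide +kernel, by decide +kernel⟩

def t13305 : allY (E.wth (lkp [])) l13305 = true ∧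
    allY (E.wth (lkp [])) l13306 = true ∧
    allY (E.wth (lkp [])) l13307 = true ∧
    allY (E.wth (lkp [])) l13308 = true ∧
    allY (E.wth (lkp [])) l13309 = true ∧
    allY (E.wth (lkp [])) l13310 = true ∧
    allY (E.wth (lkp [])) l13311 = true ∧
    allY (E.wth (lkp [])) l13312 = true :=
  ⟨by decide +kernel, by decide +kernel, by decide +kernel, by decide +kernel, by decide +kernel, by decide +kernel, by decide +kernel, by decide +kernel⟩

def t13313 : allY (E.wth (lkp [])) l13313 = true ∧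
    allY (E.wth (lkp [])) l13314 = true ∧
    allY (E.wth (lkp [])) l13315 = true ∧
    allY (E.wth (lkp [])) l13316 = true ∧
    allY (E.wth (lkp [])) l13317 = true ∧
    allY (E.wth (lkp [])) l13318 = true ∧
    allY (E.wth (lkp [])) l13319 = true ∧
    allY (E.wth (lkp [])) l13320 = true :=
  ⟨by decide +kernel, by decide +kernel, by decide +kernel, by decide +kernel, by decide +kernel, by decide +kernel, by decide +kernel, by decide +kernel⟩

def t13321 : allY (E.wth (lkp [])) l13321 = true ∧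
    allY (E.wth (lkp [])) l13322 = true ∧
    allY (E.wth (lkp [])) l13323 = true ∧
    allY (E.wth (lkp [])) l13324 = true ∧
    allY (E.wth (lkp [])) l13325 = true ∧
    allY (E.wth (lkp [])) l13326 = true ∧
    allY (E.wth (lkp [])) l13327 = true ∧
    allY (E.wth (lkp [])) l13328 = true :=
  ⟨by decide +kernel, by decide +kernel, by decide +kernel, by decide +kernel, by decide +kernel, by decide +kernel, by decide +kernel, by decide +kernel⟩

def t13329 : allY (E.wth (lkp [])) l13329 = true ∧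
    allY (E.wth (lkp [])) l13330 = true ∧
    allY (E.wth (lkp [])) l13331 = true ∧
    allY (E.wth (lkp [])) l13332 = true ∧
    allY (E.wth (lkp [])) l13333 = true ∧
    allY (E.wth (lkp [])) l13334 = true ∧
    allY (E.wth (lkp [])) l13335 = true ∧
    allY (E.wth (lkp [])) l13336 = true :=
  ⟨by decide +kernel, by decide +kernel, by decide +kernel, by decide +kernel, by decide +kernel, by decide +kernel, by decide +kernel, by decide +kernel⟩

def t13337 : allY (E.wth (lkp [])) l13337 = true ∧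
    allY (E.wth (lkp [])) l13338 = true ∧
    allY (E.wth (lkp [])) l13339 = true ∧
    allY (E.wth (lkp [])) l13340 = true ∧
    allY (E.wth (lkp [])) l13341 = true ∧
    allY (E.wth (lkp [])) l13342 = true ∧
    allY (E.wth (lkp [])) l13343 = true ∧
    allY (E.wth (lkp [])) l13344 = true :=
  ⟨by decide +kernel, by decide +kernel, by decide +kernel, by decide +kernel, by decide +kernel, by decide +kernel, by decide +kernel, by decide +kernel⟩

def t13345 : allY (E.wth (lkp [])) l13345 = true ∧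
    allY (E.wth (lkp [])) l13346 = true ∧
    allY (E.wth (lkp [])) l13347 = true ∧
    allY (E.wth (lkp [])) l13348 = true ∧
    allY (E.wth (lkp [])) l13349 = true ∧
    allY (E.wth (lkp [])) l13350 = true ∧
    allY (E.wth (lkp [])) l13351 = true ∧
    allY (E.wth (lkp [])) l13352 = true :=
  ⟨by decide +kernel, by decide +kernel, by decide +kernel, by decide +kernel, by decide +kernel, by decide +kernel, by decide +kernel, by decide +kernel⟩

def t13353 : allY (E.wth (lkp [])) l13353 = true ∧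
    allY (E.wth (lkp [])) l13354 = true ∧
    allY (E.wth (lkp [])) l13355 = true ∧
    allY (E.wth (lkp [])) l13356 = true ∧
    allY (E.wth (lkp [])) l13357 = true ∧
    allY (E.wth (lkp [])) l13358 = true ∧
    allY (E.wth (lkp [])) l13359 = true ∧
    allY (E.wth (lkp [])) l13360 = true :=
  ⟨by decide +kernel, by decide +kernel, by decide +kernel, by decide +kernel, by decide +kernel, by decide +kernel, by decide +kernel, by decide +kernel⟩

def t13361 : allY (E.wth (lkp [])) l13361 = true ∧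
    allY (E.wth (lkp [])) l13362 = true ∧
    allY (E.wth (lkp [])) l13363 = true ∧
    allY (E.wth (lkp [])) l13364 = true ∧
    allY (E.wth (lkp [])) l13365 = true ∧
    allY (E.wth (lkp [])) l13366 = true ∧
    allY (E.wth (lkp [])) l13367 = true ∧
    allY (E.wth (lkp [])) l13368 = true :=
  ⟨by decide +kernel, by decide +kernel, by decide +kernel, by decide +kernel, by decide +kernel, by decide +kernel, by decide +kernel, by decide +kernel⟩

def t13369 : allY (E.wth (lkp [])) l13369 = true ∧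
    allY (E.wth (lkp [])) l13370 = true ∧
    allY (E.wth (lkp [])) l13371 = true ∧
    allY (E.wth (lkp [])) l13372 = true ∧
    allY (E.wth (lkp [])) l13373 = true ∧
    allY (E.wth (lkp [])) l13374 = true ∧
    allY (E.wth (lkp [])) l13375 = true ∧
    allY (E.wth (lkp [])) l13376 = true :=
  ⟨by decide +kernel, by decide +kernel, by decide +kernel, by decide +kernel, by decide +kernel, by decide +kernel, by decide +kernel, by decide +kernel⟩

def t13377 : allY (E.wth (lkp [])) l13377 = true ∧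
    allY (E.wth (lkp [])) l13378 = true ∧
    allY (E.wth (lkp [])) l13379 = true ∧
    allY (E.wth (lkp [])) l13380 = true ∧
    allY (E.wth (lkp [])) l13381 = true ∧
    allY (E.wth (lkp [])) l13382 = true ∧
    allY (E.wth (lkp [])) l13383 = true ∧
    allY (E.wth (lkp [])) l13384 = true :=
  ⟨by decide +kernel, by decide +kernel, by decide +kernel, by decide +kernel, by decide +kernel, by decide +kernel, by decide +kernel, by decide +kernel⟩

def t13385 : allY (E.wth (lkp [])) l13385 = true ∧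
    allY (E.wth (lkp [])) l13386 = true ∧
    allY (E.wth (lkp [])) l13387 = true ∧
    allY (E.wth (lkp [])) l13388 = true ∧
    allY (E.wth (lkp [])) l13389 = true ∧
    allY (E.wth (lkp [])) l13390 = true ∧
    allY (E.wth (lkp [])) l13391 = true ∧
    allY (E.wth (lkp [])) l13392 = true :=
  ⟨by decide +kernel, by decide +kernel, by decide +kernel, by decide +kernel, by decide +kernel, by decide +kernel, by decide +kernel, by decide +kernel⟩

def t13393 : allY (E.wth (lkp [])) l13393 = true ∧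
    allY (E.wth (lkp [])) l13394 = true ∧
    allY (E.wth (lkp [])) l13395 = true ∧
    allY (E.wth (lkp [])) l13396 = true ∧
    allY (E.wth (lkp [])) l13397 = true ∧
    allY (E.wth (lkp [])) l13398 = true ∧
    allY (E.wth (lkp [])) l13399 = true ∧
    allY (E.wth (lkp [])) l13400 = true :=
  ⟨by decide +kernel, by decide +kernel, by decide +kernel, by decide +kernel, by decide +kernel, by decide +kernel, by decide +kernel, by decide +kernel⟩

def t13401 : allY (E.wth (lkp [])) l13401 = true ∧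
    allY (E.wth (lkp [])) l13402 = true ∧
    allY (E.wth (lkp [])) l13403 = true ∧
    allY (E.wth (lkp [])) l13404 = true ∧
    allY (E.wth (lkp [])) l13405 = true ∧
    allY (E.wth (lkp [])) l13406 = true ∧
    allY (E.wth (lkp [])) l13407 = true ∧
    allY (E.wth (lkp [])) l13408 = true :=
  ⟨by decide +kernel, by decide +kernel, by decide +kernel, by decide +kernel, by decide +kernel, by decide +kernel, by decide +kernel, by decide +kernel⟩

def t13409 : allY (E.wth (lkp [])) l13409 = true ∧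
    allY (E.wth (lkp [])) l13410 = true ∧
    allY (E.wth (lkp [])) l13411 = true ∧
    allY (E.wth (lkp [])) l13412 = true ∧
    allY (E.wth (lkp [])) l13413 = true ∧
    allY (E.wth (lkp [])) l13414 = true ∧
    allY (E.wth (lkp [])) l13415 = true ∧
    allY (E.wth (lkp [])) l13416 = true :=
  ⟨by decide +kernel, by decide +kernel, by decide +kernel, by decide +kernel, by decide +kernel, by decide +kernel, by decide +kernel, by decide +kernel⟩

def t13417 : allY (E.wth (lkp [])) l13417 = true ∧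
    allY (E.wth (lkp [])) l13418 = true ∧
    allY (E.wth (lkp [])) l13419 = true ∧
    allY (E.wth (lkp [])) l13420 = true ∧
    allY (E.wth (lkp [])) l13421 = true ∧
    allY (E.wth (lkp [])) l13422 = true ∧
    allY (E.wth (lkp [])) l13423 = true ∧
    allY (E.wth (lkp [])) l13424 = true :=
  ⟨by decide +kernel, by decide +kernel, by decide +kernel, by decide +kernel, by decide +kernel, by decide +kernel, by decide +kernel, by decide +kernel⟩

def t13425 : allY (E.wth (lkp [])) l13425 = true ∧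
    allY (E.wth (lkp [])) l13426 = true ∧
    allY (E.wth (lkp [])) l13427 = true ∧
    allY (E.wth (lkp [])) l13428 = true ∧
    allY (E.wth (lkp [])) l13429 = true ∧
    allY (E.wth (lkp [])) l13430 = true ∧
    allY (E.wth (lkp [])) l13431 = true ∧
    allY (E.wth (lkp [])) l13432 = true :=
  ⟨by decide +kernel, by decide +kernel, by decide +kernel, by decide +kernel, by decide +kernel, by decide +kernel, by decide +kernel, by decide +kernel⟩

def t13433 : allY (E.wth (lkp [])) l13433 = true ∧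
    allY (E.wth (lkp [])) l13434 = true ∧
    allY (E.wth (lkp [])) l13435 = true ∧
    allY (E.wth (lkp [])) l13436 = true ∧
    allY (E.wth (lkp [])) l13437 = true ∧
    allY (E.wth (lkp [])) l13438 = true ∧
    allY (E.wth (lkp [])) l13439 = true ∧
    allY (E.wth (lkp [])) l13440 = true :=
  ⟨by decide +kernel, by decide +kernel, by decide +kernel, by decide +kernel, by decide +kernel, by decide +kernel, by decide +kernel, by decide +kernel⟩

def t13441 : allY (E.wth (lkp [])) l13441 = true ∧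
    allY (E.wth (lkp [])) l13442 = true ∧
    allY (E.wth (lkp [])) l13443 = true :=
  ⟨by decide +kernel, by decide +kernel, by decide +kernel⟩

theorem a23 {p : Rf → Prop} (H : ∀ l, allY (E.wth (lkp [])) l = true → (lkp l).All p) :
    b23.All p := ⟨⟨⟨⟨⟨⟨⟨⟨⟨H _ t12881.1, H _ t12881.2.1⟩, ⟨H _ t12881.2.2.1, H _ t12881.2.2.2.1⟩⟩, ⟨⟨H _ t12881.2.2.2.2.1, H _ t12881.2.2.2.2.2.1⟩, ⟨H _ t12881.2.2.2.2.2.2.1, H _ t12881.2.2.2.2.2.2.2⟩⟩⟩, ⟨⟨⟨H _ t12889.1, H _ t12889.2.1⟩, ⟨H _ t12889.2.2.1, H _ t12889.2.2.2.1⟩⟩, ⟨⟨H _ t12889.2.2.2.2.1, H _ t12889.2.2.2.2.2.1⟩, ⟨H _ t12889.2.2.2.2.2.2.1, ⟨H _ t12889.2.2.2.2.2.2.2, H _ t12897.1⟩⟩⟩⟩⟩, ⟨⟨⟨⟨H _ t12897.2.1, H _ t12897.2.2.1⟩, ⟨H _ t12897.2.2.2.1, H _ t12897.2.2.2.2.1⟩⟩, ⟨⟨H _ t12897.2.2.2.2.2.1, H _ t12897.2.2.2.2.2.2.1⟩, ⟨H _ t12897.2.2.2.2.2.2.2, ⟨H _ t12905.1, H _ t12905.2.1⟩⟩⟩⟩, ⟨⟨⟨H _ t12905.2.2.1, H _ t12905.2.2.2.1⟩, ⟨H _ t12905.2.2.2.2.1, H _ t12905.2.2.2.2.2.1⟩⟩,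 ⟨⟨H _ t12905.2.2.2.2.2.2.1, H _ t12905.2.2.2.2.2.2.2⟩, ⟨H _ t12913.1, ⟨H _ t12913.2.1, H _ t12913.2.2.1⟩⟩⟩⟩⟩⟩, ⟨⟨⟨⟨⟨H _ t12913.2.2.2.1, H _ t12913.2.2.2.2.1⟩, ⟨H _ t12913.2.2.2.2.2.1, H _ t12913.2.2.2.2.2.2.1⟩⟩, ⟨⟨H _ t12913.2.2.2.2.2.2.2, H _ t12921.1⟩, ⟨H _ t12921.2.1, H _ t12921.2.2.1⟩⟩⟩, ⟨⟨⟨H _ t12921.2.2.2.1, H _ t12921.2.2.2.2.1⟩, ⟨H _ t12921.2.2.2.2.2.1, H _ t12921.2.2.2.2.2.2.1⟩⟩, ⟨⟨H _ t12921.2.2.2.2.2.2.2, H _ t12929.1⟩, ⟨H _ t12929.2.1, ⟨H _ t12929.2.2.1, H _ t12929.2.2.2.1⟩⟩⟩⟩⟩, ⟨⟨⟨⟨H _ t12929.2.2.2.2.1, H _ t12929.2.2.2.2.2.1⟩, ⟨H _ t12929.2.2.2.2.2.2.1, H _ t12929.2.2.2.2.2.2.2⟩⟩, ⟨⟨H _ t12937.1, H _ t12937.2.1⟩, ⟨H _ t12937.2.2.1, ⟨H _ t12937.2.2.2.1, H _ t12937.2.2.2.2.1⟩⟩⟩⟩, ⟨⟨⟨H _ t12937.2.2.2.2.2.1, H _ t12937.2.2.2.2.2.2.1⟩, ⟨H _ t12937.2.2.2.2.2.2.2, H _ t12945.1⟩⟩, ⟨⟨H _ t12945.2.1, H _ t12945.2.2.1⟩, ⟨H _ t12945.2.2.2.1, ⟨H _ t12945.2.2.2.2.1, H _ t12945.2.2.2.2.2.1⟩⟩⟩⟩⟩⟩⟩,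 ⟨⟨⟨⟨⟨⟨H _ t12945.2.2.2.2.2.2.1, H _ t12945.2.2.2.2.2.2.2⟩, ⟨H _ t12953.1, H _ t12953.2.1⟩⟩, ⟨⟨H _ t12953.2.2.1, H _ t12953.2.2.2.1⟩, ⟨H _ t12953.2.2.2.2.1, H _ t12953.2.2.2.2.2.1⟩⟩⟩, ⟨⟨⟨H _ t12953.2.2.2.2.2.2.1, H _ t12953.2.2.2.2.2.2.2⟩, ⟨H _ t12961.1, H _ t12961.2.1⟩⟩, ⟨⟨H _ t12961.2.2.1, H _ t12961.2.2.2.1⟩, ⟨H _ t12961.2.2.2.2.1, ⟨H _ t12961.2.2.2.2.2.1, H _ t12961.2.2.2.2.2.2.1⟩⟩⟩⟩⟩, ⟨⟨⟨⟨H _ t12961.2.2.2.2.2.2.2, H _ t12969.1⟩, ⟨H _ t12969.2.1, H _ t12969.2.2.1⟩⟩, ⟨⟨H _ t12969.2.2.2.1, H _ t12969.2.2.2.2.1⟩, ⟨H _ t12969.2.2.2.2.2.1, ⟨H _ t12969.2.2.2.2.2.2.1, H _ t12969.2.2.2.2.2.2.2⟩⟩⟩⟩, ⟨⟨⟨H _ t12977.1, H _ t12977.2.1⟩, ⟨H _ t12977.2.2.1, H _ t12977.2.2.2.1⟩⟩, ⟨⟨H _ t12977.2.2.2.2.1, H _ t12977.2.2.2.2.2.1⟩, ⟨H _ t12977.2.2.2.2.2.2.1, ⟨H _ t12977.2.2.2.2.2.2.2, H _ t12985.1⟩⟩⟩⟩⟩⟩, ⟨⟨⟨⟨⟨H _ t12985.2.1, H _ t12985.2.2.1⟩, ⟨H _ t12985.2.2.2.1, H _ t12985.2.2.2.2.1⟩⟩, ⟨⟨H _ t12985.2.2.2.2.2.1,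 H _ t12985.2.2.2.2.2.2.1⟩, ⟨H _ t12985.2.2.2.2.2.2.2, H _ t12993.1⟩⟩⟩, ⟨⟨⟨H _ t12993.2.1, H _ t12993.2.2.1⟩, ⟨H _ t12993.2.2.2.1, H _ t12993.2.2.2.2.1⟩⟩, ⟨⟨H _ t12993.2.2.2.2.2.1, H _ t12993.2.2.2.2.2.2.1⟩, ⟨H _ t12993.2.2.2.2.2.2.2, ⟨H _ t13001.1, H _ t13001.2.1⟩⟩⟩⟩⟩, ⟨⟨⟨⟨H _ t13001.2.2.1, H _ t13001.2.2.2.1⟩, ⟨H _ t13001.2.2.2.2.1, H _ t13001.2.2.2.2.2.1⟩⟩, ⟨⟨H _ t13001.2.2.2.2.2.2.1, H _ t13001.2.2.2.2.2.2.2⟩, ⟨H _ t13009.1, ⟨H _ t13009.2.1, H _ t13009.2.2.1⟩⟩⟩⟩, ⟨⟨⟨H _ t13009.2.2.2.1, H _ t13009.2.2.2.2.1⟩, ⟨H _ t13009.2.2.2.2.2.1, H _ t13009.2.2.2.2.2.2.1⟩⟩, ⟨⟨H _ t13009.2.2.2.2.2.2.2, H _ t13017.1⟩, ⟨H _ t13017.2.1, ⟨H _ t13017.2.2.1, H _ t13017.2.2.2.1⟩⟩⟩⟩⟩⟩⟩⟩, ⟨⟨⟨⟨⟨⟨⟨H _ t13017.2.2.2.2.1, H _ t13017.2.2.2.2.2.1⟩, ⟨H _ t13017.2.2.2.2.2.2.1, H _ t13017.2.2.2.2.2.2.2⟩⟩, ⟨⟨H _ t13025.1, H _ t13025.2.1⟩, ⟨H _ t13025.2.2.1, H _ t13025.2.2.2.1⟩⟩⟩, ⟨⟨⟨H _ t13025.2.2.2.2.1, H _ t13025.2.2.2.2.2.1⟩,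 ⟨H _ t13025.2.2.2.2.2.2.1, H _ t13025.2.2.2.2.2.2.2⟩⟩, ⟨⟨H _ t13033.1, H _ t13033.2.1⟩, ⟨H _ t13033.2.2.1, ⟨H _ t13033.2.2.2.1, H _ t13033.2.2.2.2.1⟩⟩⟩⟩⟩, ⟨⟨⟨⟨H _ t13033.2.2.2.2.2.1, H _ t13033.2.2.2.2.2.2.1⟩, ⟨H _ t13033.2.2.2.2.2.2.2, H _ t13041.1⟩⟩, ⟨⟨H _ t13041.2.1, H _ t13041.2.2.1⟩, ⟨H _ t13041.2.2.2.1, ⟨H _ t13041.2.2.2.2.1, H _ t13041.2.2.2.2.2.1⟩⟩⟩⟩, ⟨⟨⟨H _ t13041.2.2.2.2.2.2.1, H _ t13041.2.2.2.2.2.2.2⟩, ⟨H _ t13049.1, H _ t13049.2.1⟩⟩, ⟨⟨H _ t13049.2.2.1, H _ t13049.2.2.2.1⟩, ⟨H _ t13049.2.2.2.2.1, ⟨H _ t13049.2.2.2.2.2.1, H _ t13049.2.2.2.2.2.2.1⟩⟩⟩⟩⟩⟩, ⟨⟨⟨⟨⟨H _ t13049.2.2.2.2.2.2.2, H _ t13057.1⟩, ⟨H _ t13057.2.1, H _ t13057.2.2.1⟩⟩, ⟨⟨H _ t13057.2.2.2.1, H _ t13057.2.2.2.2.1⟩, ⟨H _ t13057.2.2.2.2.2.1, H _ t13057.2.2.2.2.2.2.1⟩⟩⟩, ⟨⟨⟨H _ t13057.2.2.2.2.2.2.2, H _ t13065.1⟩, ⟨H _ t13065.2.1, H _ t13065.2.2.1⟩⟩, ⟨⟨H _ t13065.2.2.2.1, H _ t13065.2.2.2.2.1⟩, ⟨H _ t13065.2.2.2.2.2.1,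 ⟨H _ t13065.2.2.2.2.2.2.1, H _ t13065.2.2.2.2.2.2.2⟩⟩⟩⟩⟩, ⟨⟨⟨⟨H _ t13073.1, H _ t13073.2.1⟩, ⟨H _ t13073.2.2.1, H _ t13073.2.2.2.1⟩⟩, ⟨⟨H _ t13073.2.2.2.2.1, H _ t13073.2.2.2.2.2.1⟩, ⟨H _ t13073.2.2.2.2.2.2.1, ⟨H _ t13073.2.2.2.2.2.2.2, H _ t13081.1⟩⟩⟩⟩, ⟨⟨⟨H _ t13081.2.1, H _ t13081.2.2.1⟩, ⟨H _ t13081.2.2.2.1, H _ t13081.2.2.2.2.1⟩⟩, ⟨⟨H _ t13081.2.2.2.2.2.1, H _ t13081.2.2.2.2.2.2.1⟩, ⟨H _ t13081.2.2.2.2.2.2.2, ⟨H _ t13089.1, H _ t13089.2.1⟩⟩⟩⟩⟩⟩⟩, ⟨⟨⟨⟨⟨⟨H _ t13089.2.2.1, H _ t13089.2.2.2.1⟩, ⟨H _ t13089.2.2.2.2.1, H _ t13089.2.2.2.2.2.1⟩⟩, ⟨⟨H _ t13089.2.2.2.2.2.2.1, H _ t13089.2.2.2.2.2.2.2⟩, ⟨H _ t13097.1, H _ t13097.2.1⟩⟩⟩, ⟨⟨⟨H _ t13097.2.2.1, H _ t13097.2.2.2.1⟩, ⟨H _ t13097.2.2.2.2.1, H _ t13097.2.2.2.2.2.1⟩⟩, ⟨⟨H _ t13097.2.2.2.2.2.2.1, H _ t13097.2.2.2.2.2.2.2⟩, ⟨H _ t13105.1, ⟨H _ t13105.2.1, H _ t13105.2.2.1⟩⟩⟩⟩⟩, ⟨⟨⟨⟨H _ t13105.2.2.2.1, H _ t13105.2.2.2.2.1⟩, ⟨H _ t13105.2.2.2.2.2.1,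 H _ t13105.2.2.2.2.2.2.1⟩⟩, ⟨⟨H _ t13105.2.2.2.2.2.2.2, H _ t13113.1⟩, ⟨H _ t13113.2.1, ⟨H _ t13113.2.2.1, H _ t13113.2.2.2.1⟩⟩⟩⟩, ⟨⟨⟨H _ t13113.2.2.2.2.1, H _ t13113.2.2.2.2.2.1⟩, ⟨H _ t13113.2.2.2.2.2.2.1, H _ t13113.2.2.2.2.2.2.2⟩⟩, ⟨⟨H _ t13121.1, H _ t13121.2.1⟩, ⟨H _ t13121.2.2.1, ⟨H _ t13121.2.2.2.1, H _ t13121.2.2.2.2.1⟩⟩⟩⟩⟩⟩, ⟨⟨⟨⟨⟨H _ t13121.2.2.2.2.2.1, H _ t13121.2.2.2.2.2.2.1⟩, ⟨H _ t13121.2.2.2.2.2.2.2, H _ t13129.1⟩⟩, ⟨⟨H _ t13129.2.1, H _ t13129.2.2.1⟩, ⟨H _ t13129.2.2.2.1, ⟨H _ t13129.2.2.2.2.1, H _ t13129.2.2.2.2.2.1⟩⟩⟩⟩, ⟨⟨⟨H _ t13129.2.2.2.2.2.2.1, H _ t13129.2.2.2.2.2.2.2⟩, ⟨H _ t13137.1, H _ t13137.2.1⟩⟩, ⟨⟨H _ t13137.2.2.1, H _ t13137.2.2.2.1⟩, ⟨H _ t13137.2.2.2.2.1, ⟨H _ t13137.2.2.2.2.2.1, H _ t13137.2.2.2.2.2.2.1⟩⟩⟩⟩⟩, ⟨⟨⟨⟨H _ t13137.2.2.2.2.2.2.2, H _ t13145.1⟩, ⟨H _ t13145.2.1, H _ t13145.2.2.1⟩⟩, ⟨⟨H _ t13145.2.2.2.1, H _ t13145.2.2.2.2.1⟩, ⟨H _ t13145.2.2.2.2.2.1,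 ⟨H _ t13145.2.2.2.2.2.2.1, H _ t13145.2.2.2.2.2.2.2⟩⟩⟩⟩, ⟨⟨⟨H _ t13153.1, H _ t13153.2.1⟩, ⟨H _ t13153.2.2.1, H _ t13153.2.2.2.1⟩⟩, ⟨⟨H _ t13153.2.2.2.2.1, H _ t13153.2.2.2.2.2.1⟩, ⟨H _ t13153.2.2.2.2.2.2.1, ⟨H _ t13153.2.2.2.2.2.2.2, H _ t13161.1⟩⟩⟩⟩⟩⟩⟩⟩⟩, ⟨⟨⟨⟨⟨⟨⟨⟨H _ t13161.2.1, H _ t13161.2.2.1⟩, ⟨H _ t13161.2.2.2.1, H _ t13161.2.2.2.2.1⟩⟩, ⟨⟨H _ t13161.2.2.2.2.2.1, H _ t13161.2.2.2.2.2.2.1⟩, ⟨H _ t13161.2.2.2.2.2.2.2, H _ t13169.1⟩⟩⟩, ⟨⟨⟨H _ t13169.2.1, H _ t13169.2.2.1⟩, ⟨H _ t13169.2.2.2.1, H _ t13169.2.2.2.2.1⟩⟩, ⟨⟨H _ t13169.2.2.2.2.2.1, H _ t13169.2.2.2.2.2.2.1⟩, ⟨H _ t13169.2.2.2.2.2.2.2, ⟨H _ t13177.1, H _ t13177.2.1⟩⟩⟩⟩⟩, ⟨⟨⟨⟨H _ t13177.2.2.1, H _ t13177.2.2.2.1⟩, ⟨H _ t13177.2.2.2.2.1, H _ t13177.2.2.2.2.2.1⟩⟩, ⟨⟨H _ t13177.2.2.2.2.2.2.1, H _ t13177.2.2.2.2.2.2.2⟩, ⟨H _ t13185.1, ⟨H _ t13185.2.1, H _ t13185.2.2.1⟩⟩⟩⟩, ⟨⟨⟨H _ t13185.2.2.2.1, H _ t13185.2.2.2.2.1⟩, ⟨H _ t13185.2.2.2.2.2.1,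 H _ t13185.2.2.2.2.2.2.1⟩⟩, ⟨⟨H _ t13185.2.2.2.2.2.2.2, H _ t13193.1⟩, ⟨H _ t13193.2.1, ⟨H _ t13193.2.2.1, H _ t13193.2.2.2.1⟩⟩⟩⟩⟩⟩, ⟨⟨⟨⟨⟨H _ t13193.2.2.2.2.1, H _ t13193.2.2.2.2.2.1⟩, ⟨H _ t13193.2.2.2.2.2.2.1, H _ t13193.2.2.2.2.2.2.2⟩⟩, ⟨⟨H _ t13201.1, H _ t13201.2.1⟩, ⟨H _ t13201.2.2.1, H _ t13201.2.2.2.1⟩⟩⟩, ⟨⟨⟨H _ t13201.2.2.2.2.1, H _ t13201.2.2.2.2.2.1⟩, ⟨H _ t13201.2.2.2.2.2.2.1, H _ t13201.2.2.2.2.2.2.2⟩⟩, ⟨⟨H _ t13209.1, H _ t13209.2.1⟩, ⟨H _ t13209.2.2.1, ⟨H _ t13209.2.2.2.1, H _ t13209.2.2.2.2.1⟩⟩⟩⟩⟩, ⟨⟨⟨⟨H _ t13209.2.2.2.2.2.1, H _ t13209.2.2.2.2.2.2.1⟩, ⟨H _ t13209.2.2.2.2.2.2.2, H _ t13217.1⟩⟩, ⟨⟨H _ t13217.2.1, H _ t13217.2.2.1⟩, ⟨H _ t13217.2.2.2.1, ⟨H _ t13217.2.2.2.2.1, H _ t13217.2.2.2.2.2.1⟩⟩⟩⟩, ⟨⟨⟨H _ t13217.2.2.2.2.2.2.1, H _ t13217.2.2.2.2.2.2.2⟩, ⟨H _ t13225.1, H _ t13225.2.1⟩⟩, ⟨⟨H _ t13225.2.2.1, H _ t13225.2.2.2.1⟩, ⟨H _ t13225.2.2.2.2.1, ⟨H _ t13225.2.2.2.2.2.1,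 H _ t13225.2.2.2.2.2.2.1⟩⟩⟩⟩⟩⟩⟩, ⟨⟨⟨⟨⟨⟨H _ t13225.2.2.2.2.2.2.2, H _ t13233.1⟩, ⟨H _ t13233.2.1, H _ t13233.2.2.1⟩⟩, ⟨⟨H _ t13233.2.2.2.1, H _ t13233.2.2.2.2.1⟩, ⟨H _ t13233.2.2.2.2.2.1, H _ t13233.2.2.2.2.2.2.1⟩⟩⟩, ⟨⟨⟨H _ t13233.2.2.2.2.2.2.2, H _ t13241.1⟩, ⟨H _ t13241.2.1, H _ t13241.2.2.1⟩⟩, ⟨⟨H _ t13241.2.2.2.1, H _ t13241.2.2.2.2.1⟩, ⟨H _ t13241.2.2.2.2.2.1, ⟨H _ t13241.2.2.2.2.2.2.1, H _ t13241.2.2.2.2.2.2.2⟩⟩⟩⟩⟩, ⟨⟨⟨⟨H _ t13249.1, H _ t13249.2.1⟩, ⟨H _ t13249.2.2.1, H _ t13249.2.2.2.1⟩⟩, ⟨⟨H _ t13249.2.2.2.2.1, H _ t13249.2.2.2.2.2.1⟩, ⟨H _ t13249.2.2.2.2.2.2.1, ⟨H _ t13249.2.2.2.2.2.2.2, H _ t13257.1⟩⟩⟩⟩, ⟨⟨⟨H _ t13257.2.1, H _ t13257.2.2.1⟩, ⟨H _ t13257.2.2.2.1, H _ t13257.2.2.2.2.1⟩⟩, ⟨⟨H _ t13257.2.2.2.2.2.1, H _ t13257.2.2.2.2.2.2.1⟩, ⟨H _ t13257.2.2.2.2.2.2.2, ⟨H _ t13265.1, H _ t13265.2.1⟩⟩⟩⟩⟩⟩, ⟨⟨⟨⟨⟨H _ t13265.2.2.1, H _ t13265.2.2.2.1⟩, ⟨H _ t13265.2.2.2.2.1, H _ t13265.2.2.2.2.2.1⟩⟩,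 ⟨⟨H _ t13265.2.2.2.2.2.2.1, H _ t13265.2.2.2.2.2.2.2⟩, ⟨H _ t13273.1, ⟨H _ t13273.2.1, H _ t13273.2.2.1⟩⟩⟩⟩, ⟨⟨⟨H _ t13273.2.2.2.1, H _ t13273.2.2.2.2.1⟩, ⟨H _ t13273.2.2.2.2.2.1, H _ t13273.2.2.2.2.2.2.1⟩⟩, ⟨⟨H _ t13273.2.2.2.2.2.2.2, H _ t13281.1⟩, ⟨H _ t13281.2.1, ⟨H _ t13281.2.2.1, H _ t13281.2.2.2.1⟩⟩⟩⟩⟩, ⟨⟨⟨⟨H _ t13281.2.2.2.2.1, H _ t13281.2.2.2.2.2.1⟩, ⟨H _ t13281.2.2.2.2.2.2.1, H _ t13281.2.2.2.2.2.2.2⟩⟩, ⟨⟨H _ t13289.1, H _ t13289.2.1⟩, ⟨H _ t13289.2.2.1, ⟨H _ t13289.2.2.2.1, H _ t13289.2.2.2.2.1⟩⟩⟩⟩, ⟨⟨⟨H _ t13289.2.2.2.2.2.1, H _ t13289.2.2.2.2.2.2.1⟩, ⟨H _ t13289.2.2.2.2.2.2.2, H _ t13297.1⟩⟩, ⟨⟨H _ t13297.2.1, H _ t13297.2.2.1⟩, ⟨H _ t13297.2.2.2.1, ⟨H _ t13297.2.2.2.2.1, H _ t13297.2.2.2.2.2.1⟩⟩⟩⟩⟩⟩⟩⟩, ⟨⟨⟨⟨⟨⟨⟨H _ t13297.2.2.2.2.2.2.1, H _ t13297.2.2.2.2.2.2.2⟩, ⟨H _ t13305.1, H _ t13305.2.1⟩⟩, ⟨⟨H _ t13305.2.2.1, H _ t13305.2.2.2.1⟩, ⟨H _ t13305.2.2.2.2.1, H _ t13305.2.2.2.2.2.1⟩⟩⟩,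 ⟨⟨⟨H _ t13305.2.2.2.2.2.2.1, H _ t13305.2.2.2.2.2.2.2⟩, ⟨H _ t13313.1, H _ t13313.2.1⟩⟩, ⟨⟨H _ t13313.2.2.1, H _ t13313.2.2.2.1⟩, ⟨H _ t13313.2.2.2.2.1, ⟨H _ t13313.2.2.2.2.2.1, H _ t13313.2.2.2.2.2.2.1⟩⟩⟩⟩⟩, ⟨⟨⟨⟨H _ t13313.2.2.2.2.2.2.2, H _ t13321.1⟩, ⟨H _ t13321.2.1, H _ t13321.2.2.1⟩⟩, ⟨⟨H _ t13321.2.2.2.1, H _ t13321.2.2.2.2.1⟩, ⟨H _ t13321.2.2.2.2.2.1, ⟨H _ t13321.2.2.2.2.2.2.1, H _ t13321.2.2.2.2.2.2.2⟩⟩⟩⟩, ⟨⟨⟨H _ t13329.1, H _ t13329.2.1⟩, ⟨H _ t13329.2.2.1, H _ t13329.2.2.2.1⟩⟩, ⟨⟨H _ t13329.2.2.2.2.1, H _ t13329.2.2.2.2.2.1⟩, ⟨H _ t13329.2.2.2.2.2.2.1, ⟨H _ t13329.2.2.2.2.2.2.2, H _ t13337.1⟩⟩⟩⟩⟩⟩, ⟨⟨⟨⟨⟨H _ t13337.2.1, H _ t13337.2.2.1⟩, ⟨H _ t13337.2.2.2.1, H _ t13337.2.2.2.2.1⟩⟩, ⟨⟨H _ t13337.2.2.2.2.2.1, H _ t13337.2.2.2.2.2.2.1⟩, ⟨H _ t13337.2.2.2.2.2.2.2, H _ t13345.1⟩⟩⟩, ⟨⟨⟨H _ t13345.2.1, H _ t13345.2.2.1⟩, ⟨H _ t13345.2.2.2.1, H _ t13345.2.2.2.2.1⟩⟩, ⟨⟨H _ t13345.2.2.2.2.2.1,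 H _ t13345.2.2.2.2.2.2.1⟩, ⟨H _ t13345.2.2.2.2.2.2.2, ⟨H _ t13353.1, H _ t13353.2.1⟩⟩⟩⟩⟩, ⟨⟨⟨⟨H _ t13353.2.2.1, H _ t13353.2.2.2.1⟩, ⟨H _ t13353.2.2.2.2.1, H _ t13353.2.2.2.2.2.1⟩⟩, ⟨⟨H _ t13353.2.2.2.2.2.2.1, H _ t13353.2.2.2.2.2.2.2⟩, ⟨H _ t13361.1, ⟨H _ t13361.2.1, H _ t13361.2.2.1⟩⟩⟩⟩, ⟨⟨⟨H _ t13361.2.2.2.1, H _ t13361.2.2.2.2.1⟩, ⟨H _ t13361.2.2.2.2.2.1, H _ t13361.2.2.2.2.2.2.1⟩⟩, ⟨⟨H _ t13361.2.2.2.2.2.2.2, H _ t13369.1⟩, ⟨H _ t13369.2.1, ⟨H _ t13369.2.2.1, H _ t13369.2.2.2.1⟩⟩⟩⟩⟩⟩⟩, ⟨⟨⟨⟨⟨⟨H _ t13369.2.2.2.2.1, H _ t13369.2.2.2.2.2.1⟩, ⟨H _ t13369.2.2.2.2.2.2.1, H _ t13369.2.2.2.2.2.2.2⟩⟩, ⟨⟨H _ t13377.1, H _ t13377.2.1⟩, ⟨H _ t13377.2.2.1, H _ t13377.2.2.2.1⟩⟩⟩, ⟨⟨⟨H _ t13377.2.2.2.2.1, H _ t13377.2.2.2.2.2.1⟩, ⟨H _ t13377.2.2.2.2.2.2.1, H _ t13377.2.2.2.2.2.2.2⟩⟩, ⟨⟨H _ t13385.1, H _ t13385.2.1⟩, ⟨H _ t13385.2.2.1, ⟨H _ t13385.2.2.2.1, H _ t13385.2.2.2.2.1⟩⟩⟩⟩⟩, ⟨⟨⟨⟨H _ t13385.2.2.2.2.2.1,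 H _ t13385.2.2.2.2.2.2.1⟩, ⟨H _ t13385.2.2.2.2.2.2.2, H _ t13393.1⟩⟩, ⟨⟨H _ t13393.2.1, H _ t13393.2.2.1⟩, ⟨H _ t13393.2.2.2.1, ⟨H _ t13393.2.2.2.2.1, H _ t13393.2.2.2.2.2.1⟩⟩⟩⟩, ⟨⟨⟨H _ t13393.2.2.2.2.2.2.1, H _ t13393.2.2.2.2.2.2.2⟩, ⟨H _ t13401.1, H _ t13401.2.1⟩⟩, ⟨⟨H _ t13401.2.2.1, H _ t13401.2.2.2.1⟩, ⟨H _ t13401.2.2.2.2.1, ⟨H _ t13401.2.2.2.2.2.1, H _ t13401.2.2.2.2.2.2.1⟩⟩⟩⟩⟩⟩, ⟨⟨⟨⟨⟨H _ t13401.2.2.2.2.2.2.2, H _ t13409.1⟩, ⟨H _ t13409.2.1, H _ t13409.2.2.1⟩⟩, ⟨⟨H _ t13409.2.2.2.1, H _ t13409.2.2.2.2.1⟩, ⟨H _ t13409.2.2.2.2.2.1, ⟨H _ t13409.2.2.2.2.2.2.1, H _ t13409.2.2.2.2.2.2.2⟩⟩⟩⟩, ⟨⟨⟨H _ t13417.1, H _ t13417.2.1⟩, ⟨H _ t13417.2.2.1, H _ t13417.2.2.2.1⟩⟩, ⟨⟨H _ t13417.2.2.2.2.1, H _ t13417.2.2.2.2.2.1⟩, ⟨H _ t13417.2.2.2.2.2.2.1, ⟨H _ t13417.2.2.2.2.2.2.2, H _ t13425.1⟩⟩⟩⟩⟩, ⟨⟨⟨⟨H _ t13425.2.1, H _ t13425.2.2.1⟩, ⟨H _ t13425.2.2.2.1, H _ t13425.2.2.2.2.1⟩⟩, ⟨⟨H _ t13425.2.2.2.2.2.1,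 H _ t13425.2.2.2.2.2.2.1⟩, ⟨H _ t13425.2.2.2.2.2.2.2, ⟨H _ t13433.1, H _ t13433.2.1⟩⟩⟩⟩, ⟨⟨⟨H _ t13433.2.2.1, H _ t13433.2.2.2.1⟩, ⟨H _ t13433.2.2.2.2.1, H _ t13433.2.2.2.2.2.1⟩⟩, ⟨⟨H _ t13433.2.2.2.2.2.2.1, H _ t13433.2.2.2.2.2.2.2⟩, ⟨H _ t13441.1, ⟨H _ t13441.2.1, H _ t13441.2.2⟩⟩⟩⟩⟩⟩⟩⟩⟩⟩

end Pool.Agent.MP_c853c5_nt.X.C4950
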