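import Pool.Agent.MP_c853c5_nt.X.C4950.Env
import Pool.Agent.MP_c853c5_nt.X.C4950.D4

set_option autoImplicit false
set_option maxRecDepth 8192
set_option linter.all false

namespace Pool.Agent.MP_c853c5_nt.X.C4950

open Pool.Agent.MP_c853c5_nt.X

def t13444 : allY (E.wth (lkp [])) l13444 = true ∧
    allY (E.wth (lkp [])) l13445 = true ∧
    allY (E.wth (lkp [])) l13446 = true ∧
    allY (E.wth (lkp [])) l13447 = true ∧
    allY (E.wth (lkp [])) l13448 = true ∧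
    allY (E.wth (lkp [])) l13449 = true ∧
    allY (E.wth (lkp [])) l13450 = true ∧
    allY (E.wth (lkp [])) l13451 = true :=
  ⟨by decide +kernel, by decide +kernel, by decide +kernel, by decide +kernel, by decide +kernel, by decide +kernel, by decide +kernel, by decide +kernel⟩

def t13452 : allY (E.wth (lkp [])) l13452 = true ∧
    allY (E.wth (lkp [])) l13453 = true ∧
    allY (E.wth (lkp [])) l13454 = true ∧
    allY (E.wth (lkp [])) l13455 = true ∧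
    allY (E.wth (lkp [])) l13456 = true ∧
    allY (E.wth (lkp [])) l13457 = true ∧
    allY (E.wth (lkp [])) l13458 = true ∧
    allY (E.wth (lkp [])) l13459 = true :=
  ⟨by decide +kernel, by decide +kernel, by decide +kernel, by decide +kernel, by decide +kernel, by decide +kernel, by decide +kernel, by decide +kernel⟩

def t13460 : allY (E.wth (lkp [])) l13460 = true ∧
    allY (E.wth (lkp [])) l13461 = true ∧
    allY (E.wth (lkp [])) l13462 = true ∧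
    allY (E.wth (lkp [])) l13463 = true ∧
    allY (E.wth (lkp [])) l13464 = true ∧
    allY (E.wth (lkp [])) l13465 = true ∧
    allY (E.wth (lkp [])) l13466 = true ∧
    allY (E.wth (lkp [])) l13467 = true :=
  ⟨by decide +kernel, by decide +kernel, by decide +kernel, by decide +kernel, by decide +kernel, by decide +kernel, by decide +kernel, by decide +kernel⟩

def t13468 : allY (E.wth (lkp [])) l13468 = true ∧
    allY (E.wth (lkp [])) l13469 = true ∧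
    allY (E.wth (lkp [])) l13470 = true ∧
    allY (E.wth (lkp [])) l13471 = true ∧
    allY (E.wth (lkp [])) l13472 = true ∧
    allY (E.wth (lkp [])) l13473 = true ∧
    allY (E.wth (lkp [])) l13474 = true ∧
    allY (E.wth (lkp [])) l13475 = true :=
  ⟨by decide +kernel, by decide +kernel, by decide +kernel, by decide +kernel, by decide +kernel, by decide +kernel, by decide +kernel, by decide +kernel⟩

def t13476 : allY (E.wth (lkp [])) l13476 = true ∧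
    allY (E.wth (lkp [])) l13477 = true ∧
    allY (E.wth (lkp [])) l13478 = true ∧
    allY (E.wth (lkp [])) l13479 = true ∧
    allY (E.wth (lkp [])) l13480 = true ∧
    allY (E.wth (lkp [])) l13481 = true ∧
    allY (E.wth (lkp [])) l13482 = true ∧
    allY (E.wth (lkp [])) l13483 = true :=
  ⟨by decide +kernel, by decide +kernel, by decide +kernel, by decide +kernel, by decide +kernel, by decide +kernel, by decide +kernel, by decide +kernel⟩

def t13484 : allY (E.wth (lkp [])) l13484 = true ∧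
    allY (E.wth (lkp [])) l13485 = true ∧
    allY (E.wth (lkp [])) l13486 = true ∧
    allY (E.wth (lkp [])) l13487 = true ∧
    allY (E.wth (lkp [])) l13488 = true ∧
    allY (E.wth (lkp [])) l13489 = true ∧
    allY (E.wth (lkp [])) l13490 = true ∧
    allY (E.wth (lkp [])) l13491 = true :=
  ⟨by decide +kernel, by decide +kernel, by decide +kernel, by decide +kernel, by decide +kernel, by decide +kernel, by decide +kernel, by decide +kernel⟩

def t13492 : allY (E.wth (lkp [])) l13492 = true ∧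
    allY (E.wth (lkp [])) l13493 = true ∧
    allY (E.wth (lkp [])) l13494 = true ∧
    allY (E.wth (lkp [])) l13495 = true ∧
    allY (E.wth (lkp [])) l13496 = true ∧
    allY (E.wth (lkp [])) l13497 = true ∧
    allY (E.wth (lkp [])) l13498 = true ∧
    allY (E.wth (lkp [])) l13499 = true :=
  ⟨by decide +kernel, by decide +kernel, by decide +kernel, by decide +kernel, by decide +kernel, by decide +kernel, by decide +kernel, by decide +kernel⟩

def t13500 : allY (E.wth (lkp [])) l13500 = true ∧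
    allY (E.wth (lkp [])) l13501 = true ∧
    allY (E.wth (lkp [])) l13502 = true ∧
    allY (E.wth (lkp [])) l13503 = true ∧
    allY (E.wth (lkp [])) l13504 = true ∧
    allY (E.wth (lkp [])) l13505 = true ∧
    allY (E.wth (lkp [])) l13506 = true ∧
    allY (E.wth (lkp [])) l13507 = true :=
  ⟨by decide +kernel, by decide +kernel, by decide +kernel, by decide +kernel, by decide +kernel, by decide +kernel, by decide +kernel, by decide +kernel⟩

def t13508 : allY (E.wth (lkp [])) l13508 = true ∧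
    allY (E.wth (lkp [])) l13509 = true ∧
    allY (E.wth (lkp [])) l13510 = true ∧
    allY (E.wth (lkp [])) l13511 = true ∧
    allY (E.wth (lkp [])) l13512 = true ∧
    allY (E.wth (lkp [])) l13513 = true ∧
    allY (E.wth (lkp [])) l13514 = true ∧
    allY (E.wth (lkp [])) l13515 = true :=
  ⟨by decide +kernel, by decide +kernel, by decide +kernel, by decide +kernel, by decide +kernel, by decide +kernel, by decide +kernel, by decide +kernel⟩

def t13516 : allY (E.wth (lkp [])) l13516 = true ∧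
    allY (E.wth (lkp [])) l13517 = true ∧
    allY (E.wth (lkp [])) l13518 = true ∧
    allY (E.wth (lkp [])) l13519 = true ∧
    allY (E.wth (lkp [])) l13520 = true ∧
    allY (E.wth (lkp [])) l13521 = true ∧
    allY (E.wth (lkp [])) l13522 = true ∧
    allY (E.wth (lkp [])) l13523 = true :=
  ⟨by decide +kernel, by decide +kernel, by decide +kernel, by decide +kernel, by decide +kernel, by decide +kernel, by decide +kernel, by decide +kernel⟩

def t13524 : allY (E.wth (lkp [])) l13524 = true ∧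
    allY (E.wth (lkp [])) l13525 = true ∧
    allY (E.wth (lkp [])) l13526 = true ∧
    allY (E.wth (lkp [])) l13527 = true ∧
    allY (E.wth (lkp [])) l13528 = true ∧
    allY (E.wth (lkp [])) l13529 = true ∧
    allY (E.wth (lkp [])) l13530 = true ∧
    allY (E.wth (lkp [])) l13531 = true :=
  ⟨by decide +kernel, by decide +kernel, by decide +kernel, by decide +kernel, by decide +kernel, by decide +kernel, by decide +kernel, by decide +kernel⟩

def t13532 : allY (E.wth (lkp [])) l13532 = true ∧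
    allY (E.wth (lkp [])) l13533 = true ∧
    allY (E.wth (lkp [])) l13534 = true ∧
    allY (E.wth (lkp [])) l13535 = true ∧
    allY (E.wth (lkp [])) l13536 = true ∧
    allY (E.wth (lkp [])) l13537 = true ∧
    allY (E.wth (lkp [])) l13538 = true ∧
    allY (E.wth (lkp [])) l13539 = true :=
  ⟨by decide +kernel, by decide +kernel, by decide +kernel, by decide +kernel, by decide +kernel, by decide +kernel, by decide +kernel, by decide +kernel⟩

def t13540 : allY (E.wth (lkp [])) l13540 = true ∧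
    allY (E.wth (lkp [])) l13541 = true ∧
    allY (E.wth (lkp [])) l13542 = true ∧
    allY (E.wth (lkp [])) l13543 = true ∧
    allY (E.wth (lkp [])) l13544 = true ∧
    allY (E.wth (lkp [])) l13545 = true ∧
    allY (E.wth (lkp [])) l13546 = true ∧
    allY (E.wth (lkp [])) l13547 = true :=
  ⟨by decide +kernel, by decide +kernel, by decide +kernel, by decide +kernel, by decide +kernel, by decide +kernel, by decide +kernel, by decide +kernel⟩

def t13548 : allY (E.wth (lkp [])) l13548 = true ∧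
    allY (E.wth (lkp [])) l13549 = true ∧
    allY (E.wth (lkp [])) l13550 = true ∧
    allY (E.wth (lkp [])) l13551 = true ∧
    allY (E.wth (lkp [])) l13552 = true ∧
    allY (E.wth (lkp [])) l13553 = true ∧
    allY (E.wth (lkp [])) l13554 = true ∧
    allY (E.wth (lkp [])) l13555 = true :=
  ⟨by decide +kernel, by decide +kernel, by decide +kernel, by decide +kernel, by decide +kernel, by decide +kernel, by decide +kernel, by decide +kernel⟩

def t13556 : allY (E.wth (lkp [])) l13556 = true ∧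
    allY (E.wth (lkp [])) l13557 = true ∧
    allY (E.wth (lkp [])) l13558 = true ∧
    allY (E.wth (lkp [])) l13559 = true ∧
    allY (E.wth (lkp [])) l13560 = true ∧
    allY (E.wth (lkp [])) l13561 = true ∧
    allY (E.wth (lkp [])) l13562 = true ∧
    allY (E.wth (lkp [])) l13563 = true :=
  ⟨by decide +kernel, by decide +kernel, by decide +kernel, by decide +kernel, by decide +kernel, by decide +kernel, by decide +kernel, by decide +kernel⟩

def t13564 : allY (E.wth (lkp [])) l13564 = true ∧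
    allY (E.wth (lkp [])) l13565 = true ∧
    allY (E.wth (lkp [])) l13566 = true ∧
    allY (E.wth (lkp [])) l13567 = true ∧
    allY (E.wth (lkp [])) l13568 = true ∧
    allY (E.wth (lkp [])) l13569 = true ∧
    allY (E.wth (lkp [])) l13570 = true ∧
    allY (E.wth (lkp [])) l13571 = true :=
  ⟨by decide +kernel, by decide +kernel, by decide +kernel, by decide +kernel, by decide +kernel, by decide +kernel, by decide +kernel, by decide +kernel⟩

def t13572 : allY (E.wth (lkp [])) l13572 = true ∧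
    allY (E.wth (lkp [])) l13573 = true ∧
    allY (E.wth (lkp [])) l13574 = true ∧
    allY (E.wth (lkp [])) l13575 = true ∧
    allY (E.wth (lkp [])) l13576 = true ∧
    allY (E.wth (lkp [])) l13577 = true ∧
    allY (E.wth (lkp [])) l13578 = true ∧
    allY (E.wth (lkp [])) l13579 = true :=
  ⟨by decide +kernel, by decide +kernel, by decide +kernel, by decide +kernel, by decide +kernel, by decide +kernel, by decide +kernel, by decide +kernel⟩

def t13580 : allY (E.wth (lkp [])) l13580 = true ∧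
    allY (E.wth (lkp [])) l13581 = true ∧
    allY (E.wth (lkp [])) l13582 = true ∧
    allY (E.wth (lkp [])) l13583 = true ∧
    allY (E.wth (lkp [])) l13584 = true ∧
    allY (E.wth (lkp [])) l13585 = true ∧
    allY (E.wth (lkp [])) l13586 = true ∧
    allY (E.wth (lkp [])) l13587 = true :=
  ⟨by decide +kernel, by decide +kernel, by decide +kernel, by decide +kernel, by decide +kernel, by decide +kernel, by decide +kernel, by decide +kernel⟩

def t13588 : allY (E.wth (lkp [])) l13588 = true ∧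
    allY (E.wth (lkp [])) l13589 = true ∧
    allY (E.wth (lkp [])) l13590 = true ∧
    allY (E.wth (lkp [])) l13591 = true ∧
    allY (E.wth (lkp [])) l13592 = true ∧
    allY (E.wth (lkp [])) l13593 = true ∧
    allY (E.wth (lkp [])) l13594 = true ∧
    allY (E.wth (lkp [])) l13595 = true :=
  ⟨by decide +kernel, by decide +kernel, by decide +kernel, by decide +kernel, by decide +kernel, by decide +kernel, by decide +kernel, by decide +kernel⟩

def t13596 : allY (E.wth (lkp [])) l13596 = true ∧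
    allY (E.wth (lkp [])) l13597 = true ∧
    allY (E.wth (lkp [])) l13598 = true ∧
    allY (E.wth (lkp [])) l13599 = true ∧
    allY (E.wth (lkp [])) l13600 = true ∧
    allY (E.wth (lkp [])) l13601 = true ∧
    allY (E.wth (lkp [])) l13602 = true ∧
    allY (E.wth (lkp [])) l13603 = true :=
  ⟨by decide +kernel, by decide +kernel, by decide +kernel, by decide +kernel, by decide +kernel, by decide +kernel, by decide +kernel, by decide +kernel⟩

def t13604 : allY (E.wth (lkp [])) l13604 = true ∧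
    allY (E.wth (lkp [])) l13605 = true ∧
    allY (E.wth (lkp [])) l13606 = true ∧
    allY (E.wth (lkp [])) l13607 = true ∧
    allY (E.wth (lkp [])) l13608 = true ∧
    allY (E.wth (lkp [])) l13609 = true ∧
    allY (E.wth (lkp [])) l13610 = true ∧
    allY (E.wth (lkp [])) l13611 = true :=
  ⟨by decide +kernel, by decide +kernel, by decide +kernel, by decide +kernel, by decide +kernel, by decide +kernel, by decide +kernel, by decide +kernel⟩

def t13612 : allY (E.wth (lkp [])) l13612 = true ∧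
    allY (E.wth (lkp [])) l13613 = true ∧
    allY (E.wth (lkp [])) l13614 = true ∧
    allY (E.wth (lkp [])) l13615 = true ∧
    allY (E.wth (lkp [])) l13616 = true ∧
    allY (E.wth (lkp [])) l13617 = true ∧
    allY (E.wth (lkp [])) l13618 = true ∧
    allY (E.wth (lkp [])) l13619 = true :=
  ⟨by decide +kernel, by decide +kernel, by decide +kernel, by decide +kernel, by decide +kernel, by decide +kernel, by decide +kernel, by decide +kernel⟩

def t13620 : allY (E.wth (lkp [])) l13620 = true ∧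
    allY (E.wth (lkp [])) l13621 = true ∧
    allY (E.wth (lkp [])) l13622 = true ∧
    allY (E.wth (lkp [])) l13623 = true ∧
    allY (E.wth (lkp [])) l13624 = true ∧
    allY (E.wth (lkp [])) l13625 = true ∧
    allY (E.wth (lkp [])) l13626 = true ∧
    allY (E.wth (lkp [])) l13627 = true :=
  ⟨by decide +kernel, by decide +kernel, by decide +kernel, by decide +kernel, by decide +kernel, by decide +kernel, by decide +kernel, by decide +kernel⟩

def t13628 : allY (E.wth (lkp [])) l13628 = true ∧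
    allY (E.wth (lkp [])) l13629 = true ∧
    allY (E.wth (lkp [])) l13630 = true ∧
    allY (E.wth (lkp [])) l13631 = true ∧
    allY (E.wth (lkp [])) l13632 = true ∧
    allY (E.wth (lkp [])) l13633 = true ∧
    allY (E.wth (lkp [])) l13634 = true ∧
    allY (E.wth (lkp [])) l13635 = true :=
  ⟨by decide +kernel, by decide +kernel, by decide +kernel, by decide +kernel, by decide +kernel, by decide +kernel, by decide +kernel, by decide +kernel⟩

def t13636 : allY (E.wth (lkp [])) l13636 = true ∧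
    allY (E.wth (lkp [])) l13637 = true ∧
    allY (E.wth (lkp [])) l13638 = true ∧
    allY (E.wth (lkp [])) l13639 = true ∧
    allY (E.wth (lkp [])) l13640 = true ∧
    allY (E.wth (lkp [])) l13641 = true ∧
    allY (E.wth (lkp [])) l13642 = true ∧
    allY (E.wth (lkp [])) l13643 = true :=
  ⟨by decide +kernel, by decide +kernel, by decide +kernel, by decide +kernel, by decide +kernel, by decide +kernel, by decide +kernel, by decide +kernel⟩

def t13644 : allY (E.wth (lkp [])) l13644 = true ∧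
    allY (E.wth (lkp [])) l13645 = true ∧
    allY (E.wth (lkp [])) l13646 = true ∧
    allY (E.wth (lkp [])) l13647 = true ∧
    allY (E.wth (lkp [])) l13648 = true ∧
    allY (E.wth (lkp [])) l13649 = true ∧
    allY (E.wth (lkp [])) l13650 = true ∧
    allY (E.wth (lkp [])) l13651 = true :=
  ⟨by decide +kernel, by decide +kernel, by decide +kernel, by decide +kernel, by decide +kernel, by decide +kernel, by decide +kernel, by decide +kernel⟩

def t13652 : allY (E.wth (lkp [])) l13652 = true ∧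
    allY (E.wth (lkp [])) l13653 = true ∧
    allY (E.wth (lkp [])) l13654 = true ∧
    allY (E.wth (lkp [])) l13655 = true ∧
    allY (E.wth (lkp [])) l13656 = true ∧
    allY (E.wth (lkp [])) l13657 = true ∧
    allY (E.wth (lkp [])) l13658 = true ∧
    allY (E.wth (lkp [])) l13659 = true :=
  ⟨by decide +kernel, by decide +kernel, by decide +kernel, by decide +kernel, by decide +kernel, by decide +kernel, by decide +kernel, by decide +kernel⟩

def t13660 : allY (E.wth (lkp [])) l13660 = true ∧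
    allY (E.wth (lkp [])) l13661 = true ∧
    allY (E.wth (lkp [])) l13662 = true ∧
    allY (E.wth (lkp [])) l13663 = true ∧
    allY (E.wth (lkp [])) l13664 = true ∧
    allY (E.wth (lkp [])) l13665 = true ∧
    allY (E.wth (lkp [])) l13666 = true ∧
    allY (E.wth (lkp [])) l13667 = true :=
  ⟨by decide +kernel, by decide +kernel, by decide +kernel, by decide +kernel, by decide +kernel, by decide +kernel, by decide +kernel, by decide +kernel⟩

def t13668 : allY (E.wth (lkp [])) l13668 = true ∧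
    allY (E.wth (lkp [])) l13669 = true ∧
    allY (E.wth (lkp [])) l13670 = true ∧
    allY (E.wth (lkp [])) l13671 = true ∧
    allY (E.wth (lkp [])) l13672 = true ∧
    allY (E.wth (lkp [])) l13673 = true ∧
    allY (E.wth (lkp [])) l13674 = true ∧
    allY (E.wth (lkp [])) l13675 = true :=
  ⟨by decide +kernel, by decide +kernel, by decide +kernel, by decide +kernel, by decide +kernel, by decide +kernel, by decide +kernel, by decide +kernel⟩

def t13676 : allY (E.wth (lkp [])) l13676 = true ∧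
    allY (E.wth (lkp [])) l13677 = true ∧
    allY (E.wth (lkp [])) l13678 = true ∧
    allY (E.wth (lkp [])) l13679 = true ∧
    allY (E.wth (lkp [])) l13680 = true ∧
    allY (E.wth (lkp [])) l13681 = true ∧
    allY (E.wth (lkp [])) l13682 = true ∧
    allY (E.wth (lkp [])) l13683 = true :=
  ⟨by decide +kernel, by decide +kernel, by decide +kernel, by decide +kernel, by decide +kernel, by decide +kernel, by decide +kernel, by decide +kernel⟩

def t13684 : allY (E.wth (lkp [])) l13684 = true ∧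
    allY (E.wth (lkp [])) l13685 = true ∧
    allY (E.wth (lkp [])) l13686 = true ∧
    allY (E.wth (lkp [])) l13687 = true ∧
    allY (E.wth (lkp [])) l13688 = true ∧
    allY (E.wth (lkp [])) l13689 = true ∧
    allY (E.wth (lkp [])) l13690 = true ∧
    allY (E.wth (lkp [])) l13691 = true :=
  ⟨by decide +kernel, by decide +kernel, by decide +kernel, by decide +kernel, by decide +kernel, by decide +kernel, by decide +kernel, by decide +kernel⟩

def t13692 : allY (E.wth (lkp [])) l13692 = true ∧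
    allY (E.wth (lkp [])) l13693 = true ∧
    allY (E.wth (lkp [])) l13694 = true ∧
    allY (E.wth (lkp [])) l13695 = true ∧
    allY (E.wth (lkp [])) l13696 = true ∧
    allY (E.wth (lkp [])) l13697 = true ∧
    allY (E.wth (lkp [])) l13698 = true ∧
    allY (E.wth (lkp [])) l13699 = true :=
  ⟨by decide +kernel, by decide +kernel, by decide +kernel, by decide +kernel, by decide +kernel, by decide +kernel, by decide +kernel, by decide +kernel⟩

def t13700 : allY (E.wth (lkp [])) l13700 = true ∧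
    allY (E.wth (lkp [])) l13701 = true ∧
    allY (E.wth (lkp [])) l13702 = true ∧
    allY (E.wth (lkp [])) l13703 = true ∧
    allY (E.wth (lkp [])) l13704 = true ∧
    allY (E.wth (lkp [])) l13705 = true ∧
    allY (E.wth (lkp [])) l13706 = true ∧
    allY (E.wth (lkp [])) l13707 = true :=
  ⟨by decide +kernel, by decide +kernel, by decide +kernel, by decide +kernel, by decide +kernel, by decide +kernel, by decide +kernel, by decide +kernel⟩

def t13708 : allY (E.wth (lkp [])) l13708 = true ∧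
    allY (E.wth (lkp [])) l13709 = true ∧
    allY (E.wth (lkp [])) l13710 = true ∧
    allY (E.wth (lkp [])) l13711 = true ∧
    allY (E.wth (lkp [])) l13712 = true ∧
    allY (E.wth (lkp [])) l13713 = true ∧
    allY (E.wth (lkp [])) l13714 = true ∧
    allY (E.wth (lkp [])) l13715 = true :=
  ⟨by decide +kernel, by decide +kernel, by decide +kernel, by decide +kernel, by decide +kernel, by decide +kernel, by decide +kernel, by decide +kernel⟩

def t13716 : allY (E.wth (lkp [])) l13716 = true ∧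
    allY (E.wth (lkp [])) l13717 = true ∧
    allY (E.wth (lkp [])) l13718 = true ∧
    allY (E.wth (lkp [])) l13719 = true ∧
    allY (E.wth (lkp [])) l13720 = true ∧
    allY (E.wth (lkp [])) l13721 = true ∧
    allY (E.wth (lkp [])) l13722 = true ∧
    allY (E.wth (lkp [])) l13723 = true :=
  ⟨by decide +kernel, by decide +kernel, by decide +kernel, by decide +kernel, by decide +kernel, by decide +kernel, by decide +kernel, by decide +kernel⟩

def t13724 : allY (E.wth (lkp [])) l13724 = true ∧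
    allY (E.wth (lkp [])) l13725 = true ∧
    allY (E.wth (lkp [])) l13726 = true ∧
    allY (E.wth (lkp [])) l13727 = true ∧
    allY (E.wth (lkp [])) l13728 = true ∧
    allY (E.wth (lkp [])) l13729 = true ∧
    allY (E.wth (lkp [])) l13730 = true ∧
    allY (E.wth (lkp [])) l13731 = true :=
  ⟨by decide +kernel, by decide +kernel, by decide +kernel, by decide +kernel, by decide +kernel, by decide +kernel, by decide +kernel, by decide +kernel⟩

def t13732 : allY (E.wth (lkp [])) l13732 = true ∧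
    allY (E.wth (lkp [])) l13733 = true ∧
    allY (E.wth (lkp [])) l13734 = true ∧
    allY (E.wth (lkp [])) l13735 = true ∧
    allY (E.wth (lkp [])) l13736 = true ∧
    allY (E.wth (lkp [])) l13737 = true ∧
    allY (E.wth (lkp [])) l13738 = true ∧
    allY (E.wth (lkp [])) l13739 = true :=
  ⟨by decide +kernel, by decide +kernel, by decide +kernel, by decide +kernel, by decide +kernel, by decide +kernel, by decide +kernel, by decide +kernel⟩

def t13740 : allY (E.wth (lkp [])) l13740 = true ∧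
    allY (E.wth (lkp [])) l13741 = true ∧
    allY (E.wth (lkp [])) l13742 = true ∧
    allY (E.wth (lkp [])) l13743 = true ∧
    allY (E.wth (lkp [])) l13744 = true ∧
    allY (E.wth (lkp [])) l13745 = true ∧
    allY (E.wth (lkp [])) l13746 = true ∧
    allY (E.wth (lkp [])) l13747 = true :=
  ⟨by decide +kernel, by decide +kernel, by decide +kernel, by decide +kernel, by decide +kernel, by decide +kernel, by decide +kernel, by decide +kernel⟩

def t13748 : allY (E.wth (lkp [])) l13748 = true ∧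
    allY (E.wth (lkp [])) l13749 = true ∧
    allY (E.wth (lkp [])) l13750 = true ∧
    allY (E.wth (lkp [])) l13751 = true ∧
    allY (E.wth (lkp [])) l13752 = true ∧
    allY (E.wth (lkp [])) l13753 = true ∧
    allY (E.wth (lkp [])) l13754 = true ∧
    allY (E.wth (lkp [])) l13755 = true :=
  ⟨by decide +kernel, by decide +kernel, by decide +kernel, by decide +kernel, by decide +kernel, by decide +kernel, by decide +kernel, by decide +kernel⟩

def t13756 : allY (E.wth (lkp [])) l13756 = true ∧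
    allY (E.wth (lkp [])) l13757 = true ∧
    allY (E.wth (lkp [])) l13758 = true ∧
    allY (E.wth (lkp [])) l13759 = true ∧
    allY (E.wth (lkp [])) l13760 = true ∧
    allY (E.wth (lkp [])) l13761 = true ∧
    allY (E.wth (lkp [])) l13762 = true ∧
    allY (E.wth (lkp [])) l13763 = true :=
  ⟨by decide +kernel, by decide +kernel, by decide +kernel, by decide +kernel, by decide +kernel, by decide +kernel, by decide +kernel, by decide +kernel⟩

def t13764 : allY (E.wth (lkp [])) l13764 = true ∧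
    allY (E.wth (lkp [])) l13765 = true ∧
    allY (E.wth (lkp [])) l13766 = true ∧
    allY (E.wth (lkp [])) l13767 = true ∧
    allY (E.wth (lkp [])) l13768 = true ∧
    allY (E.wth (lkp [])) l13769 = true ∧
    allY (E.wth (lkp [])) l13770 = true ∧
    allY (E.wth (lkp [])) l13771 = true :=
  ⟨by decide +kernel, by decide +kernel, by decide +kernel, by decide +kernel, by decide +kernel, by decide +kernel, by decide +kernel, by decide +kernel⟩

def t13772 : allY (E.wth (lkp [])) l13772 = true ∧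
    allY (E.wth (lkp [])) l13773 = true ∧
    allY (E.wth (lkp [])) l13774 = true ∧
    allY (E.wth (lkp [])) l13775 = true ∧
    allY (E.wth (lkp [])) l13776 = true ∧
    allY (E.wth (lkp [])) l13777 = true ∧
    allY (E.wth (lkp [])) l13778 = true ∧
    allY (E.wth (lkp [])) l13779 = true :=
  ⟨by decide +kernel, by decide +kernel, by decide +kernel, by decide +kernel, by decide +kernel, by decide +kernel, by decide +kernel, by decide +kernel⟩

def t13780 : allY (E.wth (lkp [])) l13780 = true ∧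
    allY (E.wth (lkp [])) l13781 = true ∧
    allY (E.wth (lkp [])) l13782 = true ∧
    allY (E.wth (lkp [])) l13783 = true ∧
    allY (E.wth (lkp [])) l13784 = true ∧
    allY (E.wth (lkp [])) l13785 = true ∧
    allY (E.wth (lkp [])) l13786 = true ∧
    allY (E.wth (lkp [])) l13787 = true :=
  ⟨by decide +kernel, by decide +kernel, by decide +kernel, by decide +kernel, by decide +kernel, by decide +kernel, by decide +kernel, by decide +kernel⟩

def t13788 : allY (E.wth (lkp [])) l13788 = true ∧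
    allY (E.wth (lkp [])) l13789 = true ∧
    allY (E.wth (lkp [])) l13790 = true ∧
    allY (E.wth (lkp [])) l13791 = true ∧
    allY (E.wth (lkp [])) l13792 = true ∧
    allY (E.wth (lkp [])) l13793 = true ∧
    allY (E.wth (lkp [])) l13794 = true ∧
    allY (E.wth (lkp [])) l13795 = true :=
  ⟨by decide +kernel, by decide +kernel, by decide +kernel, by decide +kernel, by decide +kernel, by decide +kernel, by decide +kernel, by decide +kernel⟩

def t13796 : allY (E.wth (lkp [])) l13796 = true ∧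
    allY (E.wth (lkp [])) l13797 = true ∧
    allY (E.wth (lkp [])) l13798 = true ∧
    allY (E.wth (lkp [])) l13799 = true ∧
    allY (E.wth (lkp [])) l13800 = true ∧
    allY (E.wth (lkp [])) l13801 = true ∧
    allY (E.wth (lkp [])) l13802 = true ∧
    allY (E.wth (lkp [])) l13803 = true :=
  ⟨by decide +kernel, by decide +kernel, by decide +kernel, by decide +kernel, by decide +kernel, by decide +kernel, by decide +kernel, by decide +kernel⟩

def t13804 : allY (E.wth (lkp [])) l13804 = true ∧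
    allY (E.wth (lkp [])) l13805 = true ∧
    allY (E.wth (lkp [])) l13806 = true ∧
    allY (E.wth (lkp [])) l13807 = true ∧
    allY (E.wth (lkp [])) l13808 = true ∧
    allY (E.wth (lkp [])) l13809 = true ∧
    allY (E.wth (lkp [])) l13810 = true ∧
    allY (E.wth (lkp [])) l13811 = true :=
  ⟨by decide +kernel, by decide +kernel, by decide +kernel, by decide +kernel, by decide +kernel, by decide +kernel, by decide +kernel, by decide +kernel⟩

def t13812 : allY (E.wth (lkp [])) l13812 = true ∧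
    allY (E.wth (lkp [])) l13813 = true ∧
    allY (E.wth (lkp [])) l13814 = true ∧
    allY (E.wth (lkp [])) l13815 = true ∧
    allY (E.wth (lkp [])) l13816 = true ∧
    allY (E.wth (lkp [])) l13817 = true ∧
    allY (E.wth (lkp [])) l13818 = true ∧
    allY (E.wth (lkp [])) l13819 = true :=
  ⟨by decide +kernel, by decide +kernel, by decide +kernel, by decide +kernel, by decide +kernel, by decide +kernel, by decide +kernel, by decide +kernel⟩

def t13820 : allY (E.wth (lkp [])) l13820 = true ∧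
    allY (E.wth (lkp [])) l13821 = true ∧
    allY (E.wth (lkp [])) l13822 = true ∧
    allY (E.wth (lkp [])) l13823 = true ∧
    allY (E.wth (lkp [])) l13824 = true ∧
    allY (E.wth (lkp [])) l13825 = true ∧
    allY (E.wth (lkp [])) l13826 = true ∧
    allY (E.wth (lkp [])) l13827 = true :=
  ⟨by decide +kernel, by decide +kernel, by decide +kernel, by decide +kernel, by decide +kernel, by decide +kernel, by decide +kernel, by decide +kernel⟩

def t13828 : allY (E.wth (lkp [])) l13828 = true ∧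
    allY (E.wth (lkp [])) l13829 = true ∧
    allY (E.wth (lkp [])) l13830 = true ∧
    allY (E.wth (lkp [])) l13831 = true ∧
    allY (E.wth (lkp [])) l13832 = true ∧
    allY (E.wth (lkp [])) l13833 = true ∧
    allY (E.wth (lkp [])) l13834 = true ∧
    allY (E.wth (lkp [])) l13835 = true :=
  ⟨by decide +kernel, by decide +kernel, by decide +kernel, by decide +kernel, by decide +kernel, by decide +kernel, by decide +kernel, by decide +kernel⟩

def t13836 : allY (E.wth (lkp [])) l13836 = true ∧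
    allY (E.wth (lkp [])) l13837 = true ∧
    allY (E.wth (lkp [])) l13838 = true ∧
    allY (E.wth (lkp [])) l13839 = true ∧
    allY (E.wth (lkp [])) l13840 = true ∧
    allY (E.wth (lkp [])) l13841 = true ∧
    allY (E.wth (lkp [])) l13842 = true ∧
    allY (E.wth (lkp [])) l13843 = true :=
  ⟨by decide +kernel, by decide +kernel, by decide +kernel, by decide +kernel, by decide +kernel, by decide +kernel, by decide +kernel, by decide +kernel⟩

def t13844 : allY (E.wth (lkp [])) l13844 = true ∧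
    allY (E.wth (lkp [])) l13845 = true ∧
    allY (E.wth (lkp [])) l13846 = true ∧
    allY (E.wth (lkp [])) l13847 = true ∧
    allY (E.wth (lkp [])) l13848 = true ∧
    allY (E.wth (lkp [])) l13849 = true ∧
    allY (E.wth (lkp [])) l13850 = true ∧
    allY (E.wth (lkp [])) l13851 = true :=
  ⟨by decide +kernel, by decide +kernel, by decide +kernel, by decide +kernel, by decide +kernel, by decide +kernel, by decide +kernel, by decide +kernel⟩

def t13852 : allY (E.wth (lkp [])) l13852 = true ∧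
    allY (E.wth (lkp [])) l13853 = true ∧
    allY (E.wth (lkp [])) l13854 = true ∧
    allY (E.wth (lkp [])) l13855 = true ∧
    allY (E.wth (lkp [])) l13856 = true ∧
    allY (E.wth (lkp [])) l13857 = true ∧
    allY (E.wth (lkp [])) l13858 = true ∧
    allY (E.wth (lkp [])) l13859 = true :=
  ⟨by decide +kernel, by decide +kernel, by decide +kernel, by decide +kernel, by decide +kernel, by decide +kernel, by decide +kernel, by decide +kernel⟩

def t13860 : allY (E.wth (lkp [])) l13860 = true ∧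
    allY (E.wth (lkp [])) l13861 = true ∧
    allY (E.wth (lkp [])) l13862 = true ∧
    allY (E.wth (lkp [])) l13863 = true ∧
    allY (E.wth (lkp [])) l13864 = true ∧
    allY (E.wth (lkp [])) l13865 = true ∧
    allY (E.wth (lkp [])) l13866 = true ∧
    allY (E.wth (lkp [])) l13867 = true :=
  ⟨by decide +kernel, by decide +kernel, by decide +kernel, by decide +kernel, by decide +kernel, by decide +kernel, by decide +kernel, by decide +kernel⟩

def t13868 : allY (E.wth (lkp [])) l13868 = true ∧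
    allY (E.wth (lkp [])) l13869 = true ∧
    allY (E.wth (lkp [])) l13870 = true ∧
    allY (E.wth (lkp [])) l13871 = true ∧
    allY (E.wth (lkp [])) l13872 = true ∧
    allY (E.wth (lkp [])) l13873 = true ∧
    allY (E.wth (lkp [])) l13874 = true ∧
    allY (E.wth (lkp [])) l13875 = true :=
  ⟨by decide +kernel, by decide +kernel, by decide +kernel, by decide +kernel, by decide +kernel, by decide +kernel, by decide +kernel, by decide +kernel⟩

def t13876 : allY (E.wth (lkp [])) l13876 = true ∧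
    allY (E.wth (lkp [])) l13877 = true ∧
    allY (E.wth (lkp [])) l13878 = true ∧
    allY (E.wth (lkp [])) l13879 = true ∧
    allY (E.wth (lkp [])) l13880 = true ∧
    allY (E.wth (lkp [])) l13881 = true ∧
    allY (E.wth (lkp [])) l13882 = true ∧
    allY (E.wth (lkp [])) l13883 = true :=
  ⟨by decide +kernel, by decide +kernel, by decide +kernel, by decide +kernel, by decide +kernel, by decide +kernel, by decide +kernel, by decide +kernel⟩

def t13884 : allY (E.wth (lkp [])) l13884 = true ∧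
    allY (E.wth (lkp [])) l13885 = true ∧
    allY (E.wth (lkp [])) l13886 = true ∧
    allY (E.wth (lkp [])) l13887 = true ∧
    allY (E.wth (lkp [])) l13888 = true ∧
    allY (E.wth (lkp [])) l13889 = true ∧
    allY (E.wth (lkp [])) l13890 = true ∧
    allY (E.wth (lkp [])) l13891 = true :=
  ⟨by decide +kernel, by decide +kernel, by decide +kernel, by decide +kernel, by decide +kernel, by decide +kernel, by decide +kernel, by decide +kernel⟩

def t13892 : allY (E.wth (lkp [])) l13892 = true ∧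
    allY (E.wth (lkp [])) l13893 = true ∧
    allY (E.wth (lkp [])) l13894 = true ∧
    allY (E.wth (lkp [])) l13895 = true ∧
    allY (E.wth (lkp [])) l13896 = true ∧
    allY (E.wth (lkp [])) l13897 = true ∧
    allY (E.wth (lkp [])) l13898 = true ∧
    allY (E.wth (lkp [])) l13899 = true :=
  ⟨by decide +kernel, by decide +kernel, by decide +kernel, by decide +kernel, by decide +kernel, by decide +kernel, by decide +kernel, by decide +kernel⟩

def t13900 : allY (E.wth (lkp [])) l13900 = true ∧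
    allY (E.wth (lkp [])) l13901 = true ∧
    allY (E.wth (lkp [])) l13902 = true ∧
    allY (E.wth (lkp [])) l13903 = true ∧
    allY (E.wth (lkp [])) l13904 = true ∧
    allY (E.wth (lkp [])) l13905 = true ∧
    allY (E.wth (lkp [])) l13906 = true ∧
    allY (E.wth (lkp [])) l13907 = true :=
  ⟨by decide +kernel, by decide +kernel, by decide +kernel, by decide +kernel, by decide +kernel, by decide +kernel, by decide +kernel, by decide +kernel⟩

def t13908 : allY (E.wth (lkp [])) l13908 = true ∧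
    allY (E.wth (lkp [])) l13909 = true ∧
    allY (E.wth (lkp [])) l13910 = true ∧
    allY (E.wth (lkp [])) l13911 = true ∧
    allY (E.wth (lkp [])) l13912 = true ∧
    allY (E.wth (lkp [])) l13913 = true ∧
    allY (E.wth (lkp [])) l13914 = true ∧
    allY (E.wth (lkp [])) l13915 = true :=
  ⟨by decide +kernel, by decide +kernel, by decide +kernel, by decide +kernel, by decide +kernel, by decide +kernel, by decide +kernel, by decide +kernel⟩

def t13916 : allY (E.wth (lkp [])) l13916 = true ∧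
    allY (E.wth (lkp [])) l13917 = true ∧
    allY (E.wth (lkp [])) l13918 = true ∧
    allY (E.wth (lkp [])) l13919 = true ∧
    allY (E.wth (lkp [])) l13920 = true ∧
    allY (E.wth (lkp [])) l13921 = true ∧
    allY (E.wth (lkp [])) l13922 = true ∧
    allY (E.wth (lkp [])) l13923 = true :=
  ⟨by decide +kernel, by decide +kernel, by decide +kernel, by decide +kernel, by decide +kernel, by decide +kernel, by decide +kernel, by decide +kernel⟩

def t13924 : allY (E.wth (lkp [])) l13924 = true ∧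
    allY (E.wth (lkp [])) l13925 = true ∧
    allY (E.wth (lkp [])) l13926 = true ∧
    allY (E.wth (lkp [])) l13927 = true ∧
    allY (E.wth (lkp [])) l13928 = true ∧
    allY (E.wth (lkp [])) l13929 = true ∧
    allY (E.wth (lkp [])) l13930 = true ∧
    allY (E.wth (lkp [])) l13931 = true :=
  ⟨by decide +kernel, by decide +kernel, by decide +kernel, by decide +kernel, by decide +kernel, by decide +kernel, by decide +kernel, by decide +kernel⟩

def t13932 : allY (E.wth (lkp [])) l13932 = true ∧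
    allY (E.wth (lkp [])) l13933 = true ∧
    allY (E.wth (lkp [])) l13934 = true ∧
    allY (E.wth (lkp [])) l13935 = true ∧
    allY (E.wth (lkp [])) l13936 = true ∧
    allY (E.wth (lkp [])) l13937 = true ∧
    allY (E.wth (lkp [])) l13938 = true ∧
    allY (E.wth (lkp [])) l13939 = true :=
  ⟨by decide +kernel, by decide +kernel, by decide +kernel, by decide +kernel, by decide +kernel, by decide +kernel, by decide +kernel, by decide +kernel⟩

def t13940 : allY (E.wth (lkp [])) l13940 = true ∧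
    allY (E.wth (lkp [])) l13941 = true ∧
    allY (E.wth (lkp [])) l13942 = true ∧
    allY (E.wth (lkp [])) l13943 = true ∧
    allY (E.wth (lkp [])) l13944 = true ∧
    allY (E.wth (lkp [])) l13945 = true ∧
    allY (E.wth (lkp [])) l13946 = true ∧
    allY (E.wth (lkp [])) l13947 = true :=
  ⟨by decide +kernel, by decide +kernel, by decide +kernel, by decide +kernel, by decide +kernel, by decide +kernel, by decide +kernel, by decide +kernel⟩

def t13948 : allY (E.wth (lkp [])) l13948 = true ∧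
    allY (E.wth (lkp [])) l13949 = true ∧
    allY (E.wth (lkp [])) l13950 = true ∧
    allY (E.wth (lkp [])) l13951 = true ∧
    allY (E.wth (lkp [])) l13952 = true ∧
    allY (E.wth (lkp [])) l13953 = true ∧
    allY (E.wth (lkp [])) l13954 = true ∧
    allY (E.wth (lkp [])) l13955 = true :=
  ⟨by decide +kernel, by decide +kernel, by decide +kernel, by decide +kernel, by decide +kernel, by decide +kernel, by decide +kernel, by decide +kernel⟩

def t13956 : allY (E.wth (lkp [])) l13956 = true ∧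
    allY (E.wth (lkp [])) l13957 = true ∧
    allY (E.wth (lkp [])) l13958 = true ∧
    allY (E.wth (lkp [])) l13959 = true ∧
    allY (E.wth (lkp [])) l13960 = true ∧
    allY (E.wth (lkp [])) l13961 = true ∧
    allY (E.wth (lkp [])) l13962 = true ∧
    allY (E.wth (lkp [])) l13963 = true :=
  ⟨by decide +kernel, by decide +kernel, by decide +kernel, by decide +kernel, by decide +kernel, by decide +kernel, by decide +kernel, by decide +kernel⟩

def t13964 : allY (E.wth (lkp [])) l13964 = true ∧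
    allY (E.wth (lkp [])) l13965 = true ∧
    allY (E.wth (lkp [])) l13966 = true ∧
    allY (E.wth (lkp [])) l13967 = true ∧
    allY (E.wth (lkp [])) l13968 = true ∧
    allY (E.wth (lkp [])) l13969 = true ∧
    allY (E.wth (lkp [])) l13970 = true ∧
    allY (E.wth (lkp [])) l13971 = true :=
  ⟨by decide +kernel, by decide +kernel, by decide +kernel, by decide +kernel, by decide +kernel, by decide +kernel, by decide +kernel, by decide +kernel⟩

def t13972 : allY (E.wth (lkp [])) l13972 = true ∧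
    allY (E.wth (lkp [])) l13973 = true ∧
    allY (E.wth (lkp [])) l13974 = true ∧
    allY (E.wth (lkp [])) l13975 = true ∧
    allY (E.wth (lkp [])) l13976 = true ∧
    allY (E.wth (lkp [])) l13977 = true ∧
    allY (E.wth (lkp [])) l13978 = true ∧
    allY (E.wth (lkp [])) l13979 = true :=
  ⟨by decide +kernel, by decide +kernel, by decide +kernel, by decide +kernel, by decide +kernel, by decide +kernel, by decide +kernel, by decide +kernel⟩

def t13980 : allY (E.wth (lkp [])) l13980 = true ∧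
    allY (E.wth (lkp [])) l13981 = true ∧
    allY (E.wth (lkp [])) l13982 = true ∧
    allY (E.wth (lkp [])) l13983 = true ∧
    allY (E.wth (lkp [])) l13984 = true ∧
    allY (E.wth (lkp [])) l13985 = true ∧
    allY (E.wth (lkp [])) l13986 = true ∧
    allY (E.wth (lkp [])) l13987 = true :=
  ⟨by decide +kernel, by decide +kernel, by decide +kernel, by decide +kernel, by decide +kernel, by decide +kernel, by decide +kernel, by decide +kernel⟩

def t13988 : allY (E.wth (lkp [])) l13988 = true ∧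
    allY (E.wth (lkp [])) l13989 = true ∧
    allY (E.wth (lkp [])) l13990 = true ∧
    allY (E.wth (lkp [])) l13991 = true ∧
    allY (E.wth (lkp [])) l13992 = true ∧
    allY (E.wth (lkp [])) l13993 = true ∧
    allY (E.wth (lkp [])) l13994 = true ∧
    allY (E.wth (lkp [])) l13995 = true :=
  ⟨by decide +kernel, by decide +kernel, by decide +kernel, by decide +kernel, by decide +kernel, by decide +kernel, by decide +kernel, by decide +kernel⟩

def t13996 : allY (E.wth (lkp [])) l13996 = true ∧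
    allY (E.wth (lkp [])) l13997 = true ∧
    allY (E.wth (lkp [])) l13998 = true ∧
    allY (E.wth (lkp [])) l13999 = true ∧
    allY (E.wth (lkp [])) l14000 = true ∧
    allY (E.wth (lkp [])) l14001 = true ∧
    allY (E.wth (lkp [])) l14002 = true ∧
    allY (E.wth (lkp [])) l14003 = true :=
  ⟨by decide +kernel, by decide +kernel, by decide +kernel, by decide +kernel, by decide +kernel, by decide +kernel, by decide +kernel, by decide +kernel⟩

def t14004 : allY (E.wth (lkp [])) l14004 = true :=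
  by decide +kernel

theorem a24 {p : Rf → Prop} (H : ∀ l, allY (E.wth (lkp [])) l = true → (lkp l).All p) :
    b24.All p := ⟨⟨⟨⟨⟨⟨⟨⟨⟨H _ t13444.1, H _ t13444.2.1⟩, ⟨H _ t13444.2.2.1, H _ t13444.2.2.2.1⟩⟩, ⟨⟨H _ t13444.2.2.2.2.1, H _ t13444.2.2.2.2.2.1⟩, ⟨H _ t13444.2.2.2.2.2.2.1, H _ t13444.2.2.2.2.2.2.2⟩⟩⟩, ⟨⟨⟨H _ t13452.1, H _ t13452.2.1⟩, ⟨H _ t13452.2.2.1, H _ t13452.2.2.2.1⟩⟩, ⟨⟨H _ t13452.2.2.2.2.1, H _ t13452.2.2.2.2.2.1⟩, ⟨H _ t13452.2.2.2.2.2.2.1, ⟨H _ t13452.2.2.2.2.2.2.2, H _ t13460.1⟩⟩⟩⟩⟩, ⟨⟨⟨⟨H _ t13460.2.1, H _ t13460.2.2.1⟩, ⟨H _ t13460.2.2.2.1, H _ t13460.2.2.2.2.1⟩⟩, ⟨⟨H _ t13460.2.2.2.2.2.1, H _ t13460.2.2.2.2.2.2.1⟩, ⟨H _ t13460.2.2.2.2.2.2.2, ⟨H _ t13468.1, H _ t13468.2.1⟩⟩⟩⟩, ⟨⟨⟨H _ t13468.2.2.1, H _ t13468.2.2.2.1⟩, ⟨H _ t13468.2.2.2.2.1, H _ t13468.2.2.2.2.2.1⟩⟩, ⟨⟨H _ t13468.2.2.2.2.2.2.1, H _ t13468.2.2.2.2.2.2.2⟩, ⟨H _ t13476.1, ⟨H _ t13476.2.1, H _ t13476.2.2.1⟩⟩⟩⟩⟩⟩,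 ⟨⟨⟨⟨⟨H _ t13476.2.2.2.1, H _ t13476.2.2.2.2.1⟩, ⟨H _ t13476.2.2.2.2.2.1, H _ t13476.2.2.2.2.2.2.1⟩⟩, ⟨⟨H _ t13476.2.2.2.2.2.2.2, H _ t13484.1⟩, ⟨H _ t13484.2.1, H _ t13484.2.2.1⟩⟩⟩, ⟨⟨⟨H _ t13484.2.2.2.1, H _ t13484.2.2.2.2.1⟩, ⟨H _ t13484.2.2.2.2.2.1, H _ t13484.2.2.2.2.2.2.1⟩⟩, ⟨⟨H _ t13484.2.2.2.2.2.2.2, H _ t13492.1⟩, ⟨H _ t13492.2.1, ⟨H _ t13492.2.2.1, H _ t13492.2.2.2.1⟩⟩⟩⟩⟩, ⟨⟨⟨⟨H _ t13492.2.2.2.2.1, H _ t13492.2.2.2.2.2.1⟩, ⟨H _ t13492.2.2.2.2.2.2.1, H _ t13492.2.2.2.2.2.2.2⟩⟩, ⟨⟨H _ t13500.1, H _ t13500.2.1⟩, ⟨H _ t13500.2.2.1, ⟨H _ t13500.2.2.2.1, H _ t13500.2.2.2.2.1⟩⟩⟩⟩, ⟨⟨⟨H _ t13500.2.2.2.2.2.1, H _ t13500.2.2.2.2.2.2.1⟩, ⟨H _ t13500.2.2.2.2.2.2.2, H _ t13508.1⟩⟩, ⟨⟨H _ t13508.2.1, H _ t13508.2.2.1⟩, ⟨H _ t13508.2.2.2.1, ⟨H _ t13508.2.2.2.2.1, H _ t13508.2.2.2.2.2.1⟩⟩⟩⟩⟩⟩⟩, ⟨⟨⟨⟨⟨⟨H _ t13508.2.2.2.2.2.2.1, H _ t13508.2.2.2.2.2.2.2⟩, ⟨H _ t13516.1, H _ t13516.2.1⟩⟩, ⟨⟨H _ t13516.2.2.1,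 H _ t13516.2.2.2.1⟩, ⟨H _ t13516.2.2.2.2.1, H _ t13516.2.2.2.2.2.1⟩⟩⟩, ⟨⟨⟨H _ t13516.2.2.2.2.2.2.1, H _ t13516.2.2.2.2.2.2.2⟩, ⟨H _ t13524.1, H _ t13524.2.1⟩⟩, ⟨⟨H _ t13524.2.2.1, H _ t13524.2.2.2.1⟩, ⟨H _ t13524.2.2.2.2.1, ⟨H _ t13524.2.2.2.2.2.1, H _ t13524.2.2.2.2.2.2.1⟩⟩⟩⟩⟩, ⟨⟨⟨⟨H _ t13524.2.2.2.2.2.2.2, H _ t13532.1⟩, ⟨H _ t13532.2.1, H _ t13532.2.2.1⟩⟩, ⟨⟨H _ t13532.2.2.2.1, H _ t13532.2.2.2.2.1⟩, ⟨H _ t13532.2.2.2.2.2.1, ⟨H _ t13532.2.2.2.2.2.2.1, H _ t13532.2.2.2.2.2.2.2⟩⟩⟩⟩, ⟨⟨⟨H _ t13540.1, H _ t13540.2.1⟩, ⟨H _ t13540.2.2.1, H _ t13540.2.2.2.1⟩⟩, ⟨⟨H _ t13540.2.2.2.2.1, H _ t13540.2.2.2.2.2.1⟩, ⟨H _ t13540.2.2.2.2.2.2.1, ⟨H _ t13540.2.2.2.2.2.2.2, H _ t13548.1⟩⟩⟩⟩⟩⟩, ⟨⟨⟨⟨⟨H _ t13548.2.1, H _ t13548.2.2.1⟩, ⟨H _ t13548.2.2.2.1, H _ t13548.2.2.2.2.1⟩⟩, ⟨⟨H _ t13548.2.2.2.2.2.1, H _ t13548.2.2.2.2.2.2.1⟩, ⟨H _ t13548.2.2.2.2.2.2.2, H _ t13556.1⟩⟩⟩, ⟨⟨⟨H _ t13556.2.1, H _ t13556.2.2.1⟩,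 ⟨H _ t13556.2.2.2.1, H _ t13556.2.2.2.2.1⟩⟩, ⟨⟨H _ t13556.2.2.2.2.2.1, H _ t13556.2.2.2.2.2.2.1⟩, ⟨H _ t13556.2.2.2.2.2.2.2, ⟨H _ t13564.1, H _ t13564.2.1⟩⟩⟩⟩⟩, ⟨⟨⟨⟨H _ t13564.2.2.1, H _ t13564.2.2.2.1⟩, ⟨H _ t13564.2.2.2.2.1, H _ t13564.2.2.2.2.2.1⟩⟩, ⟨⟨H _ t13564.2.2.2.2.2.2.1, H _ t13564.2.2.2.2.2.2.2⟩, ⟨H _ t13572.1, ⟨H _ t13572.2.1, H _ t13572.2.2.1⟩⟩⟩⟩, ⟨⟨⟨H _ t13572.2.2.2.1, H _ t13572.2.2.2.2.1⟩, ⟨H _ t13572.2.2.2.2.2.1, H _ t13572.2.2.2.2.2.2.1⟩⟩, ⟨⟨H _ t13572.2.2.2.2.2.2.2, H _ t13580.1⟩, ⟨H _ t13580.2.1, ⟨H _ t13580.2.2.1, H _ t13580.2.2.2.1⟩⟩⟩⟩⟩⟩⟩⟩, ⟨⟨⟨⟨⟨⟨⟨H _ t13580.2.2.2.2.1, H _ t13580.2.2.2.2.2.1⟩, ⟨H _ t13580.2.2.2.2.2.2.1, H _ t13580.2.2.2.2.2.2.2⟩⟩, ⟨⟨H _ t13588.1, H _ t13588.2.1⟩, ⟨H _ t13588.2.2.1, H _ t13588.2.2.2.1⟩⟩⟩, ⟨⟨⟨H _ t13588.2.2.2.2.1, H _ t13588.2.2.2.2.2.1⟩, ⟨H _ t13588.2.2.2.2.2.2.1, H _ t13588.2.2.2.2.2.2.2⟩⟩, ⟨⟨H _ t13596.1, H _ t13596.2.1⟩, ⟨H _ t13596.2.2.1,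 ⟨H _ t13596.2.2.2.1, H _ t13596.2.2.2.2.1⟩⟩⟩⟩⟩, ⟨⟨⟨⟨H _ t13596.2.2.2.2.2.1, H _ t13596.2.2.2.2.2.2.1⟩, ⟨H _ t13596.2.2.2.2.2.2.2, H _ t13604.1⟩⟩, ⟨⟨H _ t13604.2.1, H _ t13604.2.2.1⟩, ⟨H _ t13604.2.2.2.1, ⟨H _ t13604.2.2.2.2.1, H _ t13604.2.2.2.2.2.1⟩⟩⟩⟩, ⟨⟨⟨H _ t13604.2.2.2.2.2.2.1, H _ t13604.2.2.2.2.2.2.2⟩, ⟨H _ t13612.1, H _ t13612.2.1⟩⟩, ⟨⟨H _ t13612.2.2.1, H _ t13612.2.2.2.1⟩, ⟨H _ t13612.2.2.2.2.1, ⟨H _ t13612.2.2.2.2.2.1, H _ t13612.2.2.2.2.2.2.1⟩⟩⟩⟩⟩⟩, ⟨⟨⟨⟨⟨H _ t13612.2.2.2.2.2.2.2, H _ t13620.1⟩, ⟨H _ t13620.2.1, H _ t13620.2.2.1⟩⟩, ⟨⟨H _ t13620.2.2.2.1, H _ t13620.2.2.2.2.1⟩, ⟨H _ t13620.2.2.2.2.2.1, H _ t13620.2.2.2.2.2.2.1⟩⟩⟩, ⟨⟨⟨H _ t13620.2.2.2.2.2.2.2, H _ t13628.1⟩, ⟨H _ t13628.2.1, H _ t13628.2.2.1⟩⟩, ⟨⟨H _ t13628.2.2.2.1, H _ t13628.2.2.2.2.1⟩, ⟨H _ t13628.2.2.2.2.2.1, ⟨H _ t13628.2.2.2.2.2.2.1, H _ t13628.2.2.2.2.2.2.2⟩⟩⟩⟩⟩, ⟨⟨⟨⟨H _ t13636.1, H _ t13636.2.1⟩, ⟨H _ t13636.2.2.1,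 H _ t13636.2.2.2.1⟩⟩, ⟨⟨H _ t13636.2.2.2.2.1, H _ t13636.2.2.2.2.2.1⟩, ⟨H _ t13636.2.2.2.2.2.2.1, ⟨H _ t13636.2.2.2.2.2.2.2, H _ t13644.1⟩⟩⟩⟩, ⟨⟨⟨H _ t13644.2.1, H _ t13644.2.2.1⟩, ⟨H _ t13644.2.2.2.1, H _ t13644.2.2.2.2.1⟩⟩, ⟨⟨H _ t13644.2.2.2.2.2.1, H _ t13644.2.2.2.2.2.2.1⟩, ⟨H _ t13644.2.2.2.2.2.2.2, ⟨H _ t13652.1, H _ t13652.2.1⟩⟩⟩⟩⟩⟩⟩, ⟨⟨⟨⟨⟨⟨H _ t13652.2.2.1, H _ t13652.2.2.2.1⟩, ⟨H _ t13652.2.2.2.2.1, H _ t13652.2.2.2.2.2.1⟩⟩, ⟨⟨H _ t13652.2.2.2.2.2.2.1, H _ t13652.2.2.2.2.2.2.2⟩, ⟨H _ t13660.1, H _ t13660.2.1⟩⟩⟩, ⟨⟨⟨H _ t13660.2.2.1, H _ t13660.2.2.2.1⟩, ⟨H _ t13660.2.2.2.2.1, H _ t13660.2.2.2.2.2.1⟩⟩, ⟨⟨H _ t13660.2.2.2.2.2.2.1, H _ t13660.2.2.2.2.2.2.2⟩, ⟨H _ t13668.1, ⟨H _ t13668.2.1, H _ t13668.2.2.1⟩⟩⟩⟩⟩, ⟨⟨⟨⟨H _ t13668.2.2.2.1, H _ t13668.2.2.2.2.1⟩, ⟨H _ t13668.2.2.2.2.2.1, H _ t13668.2.2.2.2.2.2.1⟩⟩, ⟨⟨H _ t13668.2.2.2.2.2.2.2, H _ t13676.1⟩, ⟨H _ t13676.2.1, ⟨H _ t13676.2.2.1,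 H _ t13676.2.2.2.1⟩⟩⟩⟩, ⟨⟨⟨H _ t13676.2.2.2.2.1, H _ t13676.2.2.2.2.2.1⟩, ⟨H _ t13676.2.2.2.2.2.2.1, H _ t13676.2.2.2.2.2.2.2⟩⟩, ⟨⟨H _ t13684.1, H _ t13684.2.1⟩, ⟨H _ t13684.2.2.1, ⟨H _ t13684.2.2.2.1, H _ t13684.2.2.2.2.1⟩⟩⟩⟩⟩⟩, ⟨⟨⟨⟨⟨H _ t13684.2.2.2.2.2.1, H _ t13684.2.2.2.2.2.2.1⟩, ⟨H _ t13684.2.2.2.2.2.2.2, H _ t13692.1⟩⟩, ⟨⟨H _ t13692.2.1, H _ t13692.2.2.1⟩, ⟨H _ t13692.2.2.2.1, H _ t13692.2.2.2.2.1⟩⟩⟩, ⟨⟨⟨H _ t13692.2.2.2.2.2.1, H _ t13692.2.2.2.2.2.2.1⟩, ⟨H _ t13692.2.2.2.2.2.2.2, H _ t13700.1⟩⟩, ⟨⟨H _ t13700.2.1, H _ t13700.2.2.1⟩, ⟨H _ t13700.2.2.2.1, ⟨H _ t13700.2.2.2.2.1, H _ t13700.2.2.2.2.2.1⟩⟩⟩⟩⟩, ⟨⟨⟨⟨H _ t13700.2.2.2.2.2.2.1, H _ t13700.2.2.2.2.2.2.2⟩, ⟨H _ t13708.1, H _ t13708.2.1⟩⟩, ⟨⟨H _ t13708.2.2.1, H _ t13708.2.2.2.1⟩, ⟨H _ t13708.2.2.2.2.1, ⟨H _ t13708.2.2.2.2.2.1, H _ t13708.2.2.2.2.2.2.1⟩⟩⟩⟩, ⟨⟨⟨H _ t13708.2.2.2.2.2.2.2, H _ t13716.1⟩, ⟨H _ t13716.2.1, H _ t13716.2.2.1⟩⟩,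 ⟨⟨H _ t13716.2.2.2.1, H _ t13716.2.2.2.2.1⟩, ⟨H _ t13716.2.2.2.2.2.1, ⟨H _ t13716.2.2.2.2.2.2.1, H _ t13716.2.2.2.2.2.2.2⟩⟩⟩⟩⟩⟩⟩⟩⟩, ⟨⟨⟨⟨⟨⟨⟨⟨H _ t13724.1, H _ t13724.2.1⟩, ⟨H _ t13724.2.2.1, H _ t13724.2.2.2.1⟩⟩, ⟨⟨H _ t13724.2.2.2.2.1, H _ t13724.2.2.2.2.2.1⟩, ⟨H _ t13724.2.2.2.2.2.2.1, H _ t13724.2.2.2.2.2.2.2⟩⟩⟩, ⟨⟨⟨H _ t13732.1, H _ t13732.2.1⟩, ⟨H _ t13732.2.2.1, H _ t13732.2.2.2.1⟩⟩, ⟨⟨H _ t13732.2.2.2.2.1, H _ t13732.2.2.2.2.2.1⟩, ⟨H _ t13732.2.2.2.2.2.2.1, ⟨H _ t13732.2.2.2.2.2.2.2, H _ t13740.1⟩⟩⟩⟩⟩, ⟨⟨⟨⟨H _ t13740.2.1, H _ t13740.2.2.1⟩, ⟨H _ t13740.2.2.2.1, H _ t13740.2.2.2.2.1⟩⟩, ⟨⟨H _ t13740.2.2.2.2.2.1, H _ t13740.2.2.2.2.2.2.1⟩, ⟨H _ t13740.2.2.2.2.2.2.2, ⟨H _ t13748.1, H _ t13748.2.1⟩⟩⟩⟩, ⟨⟨⟨H _ t13748.2.2.1, H _ t13748.2.2.2.1⟩, ⟨H _ t13748.2.2.2.2.1, H _ t13748.2.2.2.2.2.1⟩⟩, ⟨⟨H _ t13748.2.2.2.2.2.2.1, H _ t13748.2.2.2.2.2.2.2⟩, ⟨H _ t13756.1, ⟨H _ t13756.2.1, H _ t13756.2.2.1⟩⟩⟩⟩⟩⟩,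 ⟨⟨⟨⟨⟨H _ t13756.2.2.2.1, H _ t13756.2.2.2.2.1⟩, ⟨H _ t13756.2.2.2.2.2.1, H _ t13756.2.2.2.2.2.2.1⟩⟩, ⟨⟨H _ t13756.2.2.2.2.2.2.2, H _ t13764.1⟩, ⟨H _ t13764.2.1, H _ t13764.2.2.1⟩⟩⟩, ⟨⟨⟨H _ t13764.2.2.2.1, H _ t13764.2.2.2.2.1⟩, ⟨H _ t13764.2.2.2.2.2.1, H _ t13764.2.2.2.2.2.2.1⟩⟩, ⟨⟨H _ t13764.2.2.2.2.2.2.2, H _ t13772.1⟩, ⟨H _ t13772.2.1, ⟨H _ t13772.2.2.1, H _ t13772.2.2.2.1⟩⟩⟩⟩⟩, ⟨⟨⟨⟨H _ t13772.2.2.2.2.1, H _ t13772.2.2.2.2.2.1⟩, ⟨H _ t13772.2.2.2.2.2.2.1, H _ t13772.2.2.2.2.2.2.2⟩⟩, ⟨⟨H _ t13780.1, H _ t13780.2.1⟩, ⟨H _ t13780.2.2.1, ⟨H _ t13780.2.2.2.1, H _ t13780.2.2.2.2.1⟩⟩⟩⟩, ⟨⟨⟨H _ t13780.2.2.2.2.2.1, H _ t13780.2.2.2.2.2.2.1⟩, ⟨H _ t13780.2.2.2.2.2.2.2, H _ t13788.1⟩⟩, ⟨⟨H _ t13788.2.1, H _ t13788.2.2.1⟩, ⟨H _ t13788.2.2.2.1, ⟨H _ t13788.2.2.2.2.1, H _ t13788.2.2.2.2.2.1⟩⟩⟩⟩⟩⟩⟩, ⟨⟨⟨⟨⟨⟨H _ t13788.2.2.2.2.2.2.1, H _ t13788.2.2.2.2.2.2.2⟩, ⟨H _ t13796.1, H _ t13796.2.1⟩⟩, ⟨⟨H _ t13796.2.2.1,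 H _ t13796.2.2.2.1⟩, ⟨H _ t13796.2.2.2.2.1, H _ t13796.2.2.2.2.2.1⟩⟩⟩, ⟨⟨⟨H _ t13796.2.2.2.2.2.2.1, H _ t13796.2.2.2.2.2.2.2⟩, ⟨H _ t13804.1, H _ t13804.2.1⟩⟩, ⟨⟨H _ t13804.2.2.1, H _ t13804.2.2.2.1⟩, ⟨H _ t13804.2.2.2.2.1, ⟨H _ t13804.2.2.2.2.2.1, H _ t13804.2.2.2.2.2.2.1⟩⟩⟩⟩⟩, ⟨⟨⟨⟨H _ t13804.2.2.2.2.2.2.2, H _ t13812.1⟩, ⟨H _ t13812.2.1, H _ t13812.2.2.1⟩⟩, ⟨⟨H _ t13812.2.2.2.1, H _ t13812.2.2.2.2.1⟩, ⟨H _ t13812.2.2.2.2.2.1, ⟨H _ t13812.2.2.2.2.2.2.1, H _ t13812.2.2.2.2.2.2.2⟩⟩⟩⟩, ⟨⟨⟨H _ t13820.1, H _ t13820.2.1⟩, ⟨H _ t13820.2.2.1, H _ t13820.2.2.2.1⟩⟩, ⟨⟨H _ t13820.2.2.2.2.1, H _ t13820.2.2.2.2.2.1⟩, ⟨H _ t13820.2.2.2.2.2.2.1, ⟨H _ t13820.2.2.2.2.2.2.2, H _ t13828.1⟩⟩⟩⟩⟩⟩, ⟨⟨⟨⟨⟨H _ t13828.2.1, H _ t13828.2.2.1⟩, ⟨H _ t13828.2.2.2.1, H _ t13828.2.2.2.2.1⟩⟩, ⟨⟨H _ t13828.2.2.2.2.2.1, H _ t13828.2.2.2.2.2.2.1⟩, ⟨H _ t13828.2.2.2.2.2.2.2, H _ t13836.1⟩⟩⟩, ⟨⟨⟨H _ t13836.2.1, H _ t13836.2.2.1⟩,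 ⟨H _ t13836.2.2.2.1, H _ t13836.2.2.2.2.1⟩⟩, ⟨⟨H _ t13836.2.2.2.2.2.1, H _ t13836.2.2.2.2.2.2.1⟩, ⟨H _ t13836.2.2.2.2.2.2.2, ⟨H _ t13844.1, H _ t13844.2.1⟩⟩⟩⟩⟩, ⟨⟨⟨⟨H _ t13844.2.2.1, H _ t13844.2.2.2.1⟩, ⟨H _ t13844.2.2.2.2.1, H _ t13844.2.2.2.2.2.1⟩⟩, ⟨⟨H _ t13844.2.2.2.2.2.2.1, H _ t13844.2.2.2.2.2.2.2⟩, ⟨H _ t13852.1, ⟨H _ t13852.2.1, H _ t13852.2.2.1⟩⟩⟩⟩, ⟨⟨⟨H _ t13852.2.2.2.1, H _ t13852.2.2.2.2.1⟩, ⟨H _ t13852.2.2.2.2.2.1, H _ t13852.2.2.2.2.2.2.1⟩⟩, ⟨⟨H _ t13852.2.2.2.2.2.2.2, H _ t13860.1⟩, ⟨H _ t13860.2.1, ⟨H _ t13860.2.2.1, H _ t13860.2.2.2.1⟩⟩⟩⟩⟩⟩⟩⟩, ⟨⟨⟨⟨⟨⟨⟨H _ t13860.2.2.2.2.1, H _ t13860.2.2.2.2.2.1⟩, ⟨H _ t13860.2.2.2.2.2.2.1, H _ t13860.2.2.2.2.2.2.2⟩⟩, ⟨⟨H _ t13868.1, H _ t13868.2.1⟩, ⟨H _ t13868.2.2.1, H _ t13868.2.2.2.1⟩⟩⟩, ⟨⟨⟨H _ t13868.2.2.2.2.1, H _ t13868.2.2.2.2.2.1⟩, ⟨H _ t13868.2.2.2.2.2.2.1, H _ t13868.2.2.2.2.2.2.2⟩⟩, ⟨⟨H _ t13876.1, H _ t13876.2.1⟩, ⟨H _ t13876.2.2.1,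 ⟨H _ t13876.2.2.2.1, H _ t13876.2.2.2.2.1⟩⟩⟩⟩⟩, ⟨⟨⟨⟨H _ t13876.2.2.2.2.2.1, H _ t13876.2.2.2.2.2.2.1⟩, ⟨H _ t13876.2.2.2.2.2.2.2, H _ t13884.1⟩⟩, ⟨⟨H _ t13884.2.1, H _ t13884.2.2.1⟩, ⟨H _ t13884.2.2.2.1, ⟨H _ t13884.2.2.2.2.1, H _ t13884.2.2.2.2.2.1⟩⟩⟩⟩, ⟨⟨⟨H _ t13884.2.2.2.2.2.2.1, H _ t13884.2.2.2.2.2.2.2⟩, ⟨H _ t13892.1, H _ t13892.2.1⟩⟩, ⟨⟨H _ t13892.2.2.1, H _ t13892.2.2.2.1⟩, ⟨H _ t13892.2.2.2.2.1, ⟨H _ t13892.2.2.2.2.2.1, H _ t13892.2.2.2.2.2.2.1⟩⟩⟩⟩⟩⟩, ⟨⟨⟨⟨⟨H _ t13892.2.2.2.2.2.2.2, H _ t13900.1⟩, ⟨H _ t13900.2.1, H _ t13900.2.2.1⟩⟩, ⟨⟨H _ t13900.2.2.2.1, H _ t13900.2.2.2.2.1⟩, ⟨H _ t13900.2.2.2.2.2.1, H _ t13900.2.2.2.2.2.2.1⟩⟩⟩, ⟨⟨⟨H _ t13900.2.2.2.2.2.2.2, H _ t13908.1⟩, ⟨H _ t13908.2.1, H _ t13908.2.2.1⟩⟩, ⟨⟨H _ t13908.2.2.2.1, H _ t13908.2.2.2.2.1⟩, ⟨H _ t13908.2.2.2.2.2.1, ⟨H _ t13908.2.2.2.2.2.2.1, H _ t13908.2.2.2.2.2.2.2⟩⟩⟩⟩⟩, ⟨⟨⟨⟨H _ t13916.1, H _ t13916.2.1⟩, ⟨H _ t13916.2.2.1,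 H _ t13916.2.2.2.1⟩⟩, ⟨⟨H _ t13916.2.2.2.2.1, H _ t13916.2.2.2.2.2.1⟩, ⟨H _ t13916.2.2.2.2.2.2.1, ⟨H _ t13916.2.2.2.2.2.2.2, H _ t13924.1⟩⟩⟩⟩, ⟨⟨⟨H _ t13924.2.1, H _ t13924.2.2.1⟩, ⟨H _ t13924.2.2.2.1, H _ t13924.2.2.2.2.1⟩⟩, ⟨⟨H _ t13924.2.2.2.2.2.1, H _ t13924.2.2.2.2.2.2.1⟩, ⟨H _ t13924.2.2.2.2.2.2.2, ⟨H _ t13932.1, H _ t13932.2.1⟩⟩⟩⟩⟩⟩⟩, ⟨⟨⟨⟨⟨⟨H _ t13932.2.2.1, H _ t13932.2.2.2.1⟩, ⟨H _ t13932.2.2.2.2.1, H _ t13932.2.2.2.2.2.1⟩⟩, ⟨⟨H _ t13932.2.2.2.2.2.2.1, H _ t13932.2.2.2.2.2.2.2⟩, ⟨H _ t13940.1, H _ t13940.2.1⟩⟩⟩, ⟨⟨⟨H _ t13940.2.2.1, H _ t13940.2.2.2.1⟩, ⟨H _ t13940.2.2.2.2.1, H _ t13940.2.2.2.2.2.1⟩⟩, ⟨⟨H _ t13940.2.2.2.2.2.2.1, H _ t13940.2.2.2.2.2.2.2⟩, ⟨H _ t13948.1, ⟨H _ t13948.2.1, H _ t13948.2.2.1⟩⟩⟩⟩⟩, ⟨⟨⟨⟨H _ t13948.2.2.2.1, H _ t13948.2.2.2.2.1⟩, ⟨H _ t13948.2.2.2.2.2.1, H _ t13948.2.2.2.2.2.2.1⟩⟩, ⟨⟨H _ t13948.2.2.2.2.2.2.2, H _ t13956.1⟩, ⟨H _ t13956.2.1, ⟨H _ t13956.2.2.1,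 H _ t13956.2.2.2.1⟩⟩⟩⟩, ⟨⟨⟨H _ t13956.2.2.2.2.1, H _ t13956.2.2.2.2.2.1⟩, ⟨H _ t13956.2.2.2.2.2.2.1, H _ t13956.2.2.2.2.2.2.2⟩⟩, ⟨⟨H _ t13964.1, H _ t13964.2.1⟩, ⟨H _ t13964.2.2.1, ⟨H _ t13964.2.2.2.1, H _ t13964.2.2.2.2.1⟩⟩⟩⟩⟩⟩, ⟨⟨⟨⟨⟨H _ t13964.2.2.2.2.2.1, H _ t13964.2.2.2.2.2.2.1⟩, ⟨H _ t13964.2.2.2.2.2.2.2, H _ t13972.1⟩⟩, ⟨⟨H _ t13972.2.1, H _ t13972.2.2.1⟩, ⟨H _ t13972.2.2.2.1, ⟨H _ t13972.2.2.2.2.1, H _ t13972.2.2.2.2.2.1⟩⟩⟩⟩, ⟨⟨⟨H _ t13972.2.2.2.2.2.2.1, H _ t13972.2.2.2.2.2.2.2⟩, ⟨H _ t13980.1, H _ t13980.2.1⟩⟩, ⟨⟨H _ t13980.2.2.1, H _ t13980.2.2.2.1⟩, ⟨H _ t13980.2.2.2.2.1, ⟨H _ t13980.2.2.2.2.2.1, H _ t13980.2.2.2.2.2.2.1⟩⟩⟩⟩⟩, ⟨⟨⟨⟨H _ t13980.2.2.2.2.2.2.2, H _ t13988.1⟩, ⟨H _ t13988.2.1, H _ t13988.2.2.1⟩⟩, ⟨⟨H _ t13988.2.2.2.1, H _ t13988.2.2.2.2.1⟩, ⟨H _ t13988.2.2.2.2.2.1, ⟨H _ t13988.2.2.2.2.2.2.1, H _ t13988.2.2.2.2.2.2.2⟩⟩⟩⟩, ⟨⟨⟨H _ t13996.1, H _ t13996.2.1⟩, ⟨H _ t13996.2.2.1,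 H _ t13996.2.2.2.1⟩⟩, ⟨⟨H _ t13996.2.2.2.2.1, H _ t13996.2.2.2.2.2.1⟩, ⟨H _ t13996.2.2.2.2.2.2.1, ⟨H _ t13996.2.2.2.2.2.2.2, H _ t14004⟩⟩⟩⟩⟩⟩⟩⟩⟩⟩

end Pool.Agent.MP_c853c5_nt.X.C4950
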