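import Pool.Agent.MP_c853c5_nt.X.C4950.Env
import Pool.Agent.MP_c853c5_nt.X.C4950.D5

set_option autoImplicit false
set_option maxRecDepth 8192
set_option linter.all false

namespace Pool.Agent.MP_c853c5_nt.X.C4950

open Pool.Agent.MP_c853c5_nt.X

def t14005 : allY (E.wth (lkp [])) l14005 = true ∧
    allY (E.wth (lkp [])) l14006 = true ∧
    allY (E.wth (lkp [])) l14007 = true ∧
    allY (E.wth (lkp [])) l14008 = true ∧
    allY (E.wth (lkp [])) l14009 = true ∧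
    allY (E.wth (lkp [])) l14010 = true ∧
    allY (E.wth (lkp [])) l14011 = true ∧
    allY (E.wth (lkp [])) l14012 = true :=
  ⟨by decide +kernel, by decide +kernel, by decide +kernel, by decide +kernel, by decide +kernel, by decide +kernel, by decide +kernel, by decide +kernel⟩

def t14013 : allY (E.wth (lkp [])) l14013 = true ∧
    allY (E.wth (lkp [])) l14014 = true ∧
    allY (E.wth (lkp [])) l14015 = true ∧
    allY (E.wth (lkp [])) l14016 = true ∧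
    allY (E.wth (lkp [])) l14017 = true ∧
    allY (E.wth (lkp [])) l14018 = true ∧
    allY (E.wth (lkp [])) l14019 = true ∧
    allY (E.wth (lkp [])) l14020 = true :=
  ⟨by decide +kernel, by decide +kernel, by decide +kernel, by decide +kernel, by decide +kernel, by decide +kernel, by decide +kernel, by decide +kernel⟩

def t14021 : allY (E.wth (lkp [])) l14021 = true ∧
    allY (E.wth (lkp [])) l14022 = true ∧
    allY (E.wth (lkp [])) l14023 = true ∧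
    allY (E.wth (lkp [])) l14024 = true ∧
    allY (E.wth (lkp [])) l14025 = true ∧
    allY (E.wth (lkp [])) l14026 = true ∧
    allY (E.wth (lkp [])) l14027 = true ∧
    allY (E.wth (lkp [])) l14028 = true :=
  ⟨by decide +kernel, by decide +kernel, by decide +kernel, by decide +kernel, by decide +kernel, by decide +kernel, by decide +kernel, by decide +kernel⟩

def t14029 : allY (E.wth (lkp [])) l14029 = true ∧
    allY (E.wth (lkp [])) l14030 = true ∧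
    allY (E.wth (lkp [])) l14031 = true ∧
    allY (E.wth (lkp [])) l14032 = true ∧
    allY (E.wth (lkp [])) l14033 = true ∧
    allY (E.wth (lkp [])) l14034 = true ∧
    allY (E.wth (lkp [])) l14035 = true ∧
    allY (E.wth (lkp [])) l14036 = true :=
  ⟨by decide +kernel, by decide +kernel, by decide +kernel, by decide +kernel, by decide +kernel, by decide +kernel, by decide +kernel, by decide +kernel⟩

def t14037 : allY (E.wth (lkp [])) l14037 = true ∧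
    allY (E.wth (lkp [])) l14038 = true ∧
    allY (E.wth (lkp [])) l14039 = true ∧
    allY (E.wth (lkp [])) l14040 = true ∧
    allY (E.wth (lkp [])) l14041 = true ∧
    allY (E.wth (lkp [])) l14042 = true ∧
    allY (E.wth (lkp [])) l14043 = true ∧
    allY (E.wth (lkp [])) l14044 = true :=
  ⟨by decide +kernel, by decide +kernel, by decide +kernel, by decide +kernel, by decide +kernel, by decide +kernel, by decide +kernel, by decide +kernel⟩

def t14045 : allY (E.wth (lkp [])) l14045 = true ∧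
    allY (E.wth (lkp [])) l14046 = true ∧
    allY (E.wth (lkp [])) l14047 = true ∧
    allY (E.wth (lkp [])) l14048 = true ∧
    allY (E.wth (lkp [])) l14049 = true ∧
    allY (E.wth (lkp [])) l14050 = true ∧
    allY (E.wth (lkp [])) l14051 = true ∧
    allY (E.wth (lkp [])) l14052 = true :=
  ⟨by decide +kernel, by decide +kernel, by decide +kernel, by decide +kernel, by decide +kernel, by decide +kernel, by decide +kernel, by decide +kernel⟩

def t14053 : allY (E.wth (lkp [])) l14053 = true ∧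
    allY (E.wth (lkp [])) l14054 = true ∧
    allY (E.wth (lkp [])) l14055 = true ∧
    allY (E.wth (lkp [])) l14056 = true ∧
    allY (E.wth (lkp [])) l14057 = true ∧
    allY (E.wth (lkp [])) l14058 = true ∧
    allY (E.wth (lkp [])) l14059 = true ∧
    allY (E.wth (lkp [])) l14060 = true :=
  ⟨by decide +kernel, by decide +kernel, by decide +kernel, by decide +kernel, by decide +kernel, by decide +kernel, by decide +kernel, by decide +kernel⟩

def t14061 : allY (E.wth (lkp [])) l14061 = true ∧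
    allY (E.wth (lkp [])) l14062 = true ∧
    allY (E.wth (lkp [])) l14063 = true ∧
    allY (E.wth (lkp [])) l14064 = true ∧
    allY (E.wth (lkp [])) l14065 = true ∧
    allY (E.wth (lkp [])) l14066 = true ∧
    allY (E.wth (lkp [])) l14067 = true ∧
    allY (E.wth (lkp [])) l14068 = true :=
  ⟨by decide +kernel, by decide +kernel, by decide +kernel, by decide +kernel, by decide +kernel, by decide +kernel, by decide +kernel, by decide +kernel⟩

def t14069 : allY (E.wth (lkp [])) l14069 = true ∧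
    allY (E.wth (lkp [])) l14070 = true ∧
    allY (E.wth (lkp [])) l14071 = true ∧
    allY (E.wth (lkp [])) l14072 = true ∧
    allY (E.wth (lkp [])) l14073 = true ∧
    allY (E.wth (lkp [])) l14074 = true ∧
    allY (E.wth (lkp [])) l14075 = true ∧
    allY (E.wth (lkp [])) l14076 = true :=
  ⟨by decide +kernel, by decide +kernel, by decide +kernel, by decide +kernel, by decide +kernel, by decide +kernel, by decide +kernel, by decide +kernel⟩

def t14077 : allY (E.wth (lkp [])) l14077 = true ∧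
    allY (E.wth (lkp [])) l14078 = true ∧
    allY (E.wth (lkp [])) l14079 = true ∧
    allY (E.wth (lkp [])) l14080 = true ∧
    allY (E.wth (lkp [])) l14081 = true ∧
    allY (E.wth (lkp [])) l14082 = true ∧
    allY (E.wth (lkp [])) l14083 = true ∧
    allY (E.wth (lkp [])) l14084 = true :=
  ⟨by decide +kernel, by decide +kernel, by decide +kernel, by decide +kernel, by decide +kernel, by decide +kernel, by decide +kernel, by decide +kernel⟩

def t14085 : allY (E.wth (lkp [])) l14085 = true ∧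
    allY (E.wth (lkp [])) l14086 = true ∧
    allY (E.wth (lkp [])) l14087 = true ∧
    allY (E.wth (lkp [])) l14088 = true ∧
    allY (E.wth (lkp [])) l14089 = true ∧
    allY (E.wth (lkp [])) l14090 = true ∧
    allY (E.wth (lkp [])) l14091 = true ∧
    allY (E.wth (lkp [])) l14092 = true :=
  ⟨by decide +kernel, by decide +kernel, by decide +kernel, by decide +kernel, by decide +kernel, by decide +kernel, by decide +kernel, by decide +kernel⟩

def t14093 : allY (E.wth (lkp [])) l14093 = true ∧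
    allY (E.wth (lkp [])) l14094 = true ∧
    allY (E.wth (lkp [])) l14095 = true ∧
    allY (E.wth (lkp [])) l14096 = true ∧
    allY (E.wth (lkp [])) l14097 = true ∧
    allY (E.wth (lkp [])) l14098 = true ∧
    allY (E.wth (lkp [])) l14099 = true ∧
    allY (E.wth (lkp [])) l14100 = true :=
  ⟨by decide +kernel, by decide +kernel, by decide +kernel, by decide +kernel, by decide +kernel, by decide +kernel, by decide +kernel, by decide +kernel⟩

def t14101 : allY (E.wth (lkp [])) l14101 = true ∧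
    allY (E.wth (lkp [])) l14102 = true ∧
    allY (E.wth (lkp [])) l14103 = true ∧
    allY (E.wth (lkp [])) l14104 = true ∧
    allY (E.wth (lkp [])) l14105 = true ∧
    allY (E.wth (lkp [])) l14106 = true ∧
    allY (E.wth (lkp [])) l14107 = true ∧
    allY (E.wth (lkp [])) l14108 = true :=
  ⟨by decide +kernel, by decide +kernel, by decide +kernel, by decide +kernel, by decide +kernel, by decide +kernel, by decide +kernel, by decide +kernel⟩

def t14109 : allY (E.wth (lkp [])) l14109 = true ∧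
    allY (E.wth (lkp [])) l14110 = true ∧
    allY (E.wth (lkp [])) l14111 = true ∧
    allY (E.wth (lkp [])) l14112 = true ∧
    allY (E.wth (lkp [])) l14113 = true ∧
    allY (E.wth (lkp [])) l14114 = true ∧
    allY (E.wth (lkp [])) l14115 = true ∧
    allY (E.wth (lkp [])) l14116 = true :=
  ⟨by decide +kernel, by decide +kernel, by decide +kernel, by decide +kernel, by decide +kernel, by decide +kernel, by decide +kernel, by decide +kernel⟩

def t14117 : allY (E.wth (lkp [])) l14117 = true ∧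
    allY (E.wth (lkp [])) l14118 = true ∧
    allY (E.wth (lkp [])) l14119 = true ∧
    allY (E.wth (lkp [])) l14120 = true ∧
    allY (E.wth (lkp [])) l14121 = true ∧
    allY (E.wth (lkp [])) l14122 = true ∧
    allY (E.wth (lkp [])) l14123 = true ∧
    allY (E.wth (lkp [])) l14124 = true :=
  ⟨by decide +kernel, by decide +kernel, by decide +kernel, by decide +kernel, by decide +kernel, by decide +kernel, by decide +kernel, by decide +kernel⟩

def t14125 : allY (E.wth (lkp [])) l14125 = true ∧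
    allY (E.wth (lkp [])) l14126 = true ∧
    allY (E.wth (lkp [])) l14127 = true ∧
    allY (E.wth (lkp [])) l14128 = true ∧
    allY (E.wth (lkp [])) l14129 = true ∧
    allY (E.wth (lkp [])) l14130 = true ∧
    allY (E.wth (lkp [])) l14131 = true ∧
    allY (E.wth (lkp [])) l14132 = true :=
  ⟨by decide +kernel, by decide +kernel, by decide +kernel, by decide +kernel, by decide +kernel, by decide +kernel, by decide +kernel, by decide +kernel⟩

def t14133 : allY (E.wth (lkp [])) l14133 = true ∧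
    allY (E.wth (lkp [])) l14134 = true ∧
    allY (E.wth (lkp [])) l14135 = true ∧
    allY (E.wth (lkp [])) l14136 = true ∧
    allY (E.wth (lkp [])) l14137 = true ∧
    allY (E.wth (lkp [])) l14138 = true ∧
    allY (E.wth (lkp [])) l14139 = true ∧
    allY (E.wth (lkp [])) l14140 = true :=
  ⟨by decide +kernel, by decide +kernel, by decide +kernel, by decide +kernel, by decide +kernel, by decide +kernel, by decide +kernel, by decide +kernel⟩

def t14141 : allY (E.wth (lkp [])) l14141 = true ∧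
    allY (E.wth (lkp [])) l14142 = true ∧
    allY (E.wth (lkp [])) l14143 = true ∧
    allY (E.wth (lkp [])) l14144 = true ∧
    allY (E.wth (lkp [])) l14145 = true ∧
    allY (E.wth (lkp [])) l14146 = true ∧
    allY (E.wth (lkp [])) l14147 = true ∧
    allY (E.wth (lkp [])) l14148 = true :=
  ⟨by decide +kernel, by decide +kernel, by decide +kernel, by decide +kernel, by decide +kernel, by decide +kernel, by decide +kernel, by decide +kernel⟩

def t14149 : allY (E.wth (lkp [])) l14149 = true ∧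
    allY (E.wth (lkp [])) l14150 = true ∧
    allY (E.wth (lkp [])) l14151 = true ∧
    allY (E.wth (lkp [])) l14152 = true ∧
    allY (E.wth (lkp [])) l14153 = true ∧
    allY (E.wth (lkp [])) l14154 = true ∧
    allY (E.wth (lkp [])) l14155 = true ∧
    allY (E.wth (lkp [])) l14156 = true :=
  ⟨by decide +kernel, by decide +kernel, by decide +kernel, by decide +kernel, by decide +kernel, by decide +kernel, by decide +kernel, by decide +kernel⟩

def t14157 : allY (E.wth (lkp [])) l14157 = true ∧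
    allY (E.wth (lkp [])) l14158 = true ∧
    allY (E.wth (lkp [])) l14159 = true ∧
    allY (E.wth (lkp [])) l14160 = true ∧
    allY (E.wth (lkp [])) l14161 = true ∧
    allY (E.wth (lkp [])) l14162 = true ∧
    allY (E.wth (lkp [])) l14163 = true ∧
    allY (E.wth (lkp [])) l14164 = true :=
  ⟨by decide +kernel, by decide +kernel, by decide +kernel, by decide +kernel, by decide +kernel, by decide +kernel, by decide +kernel, by decide +kernel⟩

def t14165 : allY (E.wth (lkp [])) l14165 = true ∧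
    allY (E.wth (lkp [])) l14166 = true ∧
    allY (E.wth (lkp [])) l14167 = true ∧
    allY (E.wth (lkp [])) l14168 = true ∧
    allY (E.wth (lkp [])) l14169 = true ∧
    allY (E.wth (lkp [])) l14170 = true ∧
    allY (E.wth (lkp [])) l14171 = true ∧
    allY (E.wth (lkp [])) l14172 = true :=
  ⟨by decide +kernel, by decide +kernel, by decide +kernel, by decide +kernel, by decide +kernel, by decide +kernel, by decide +kernel, by decide +kernel⟩

def t14173 : allY (E.wth (lkp [])) l14173 = true ∧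
    allY (E.wth (lkp [])) l14174 = true ∧
    allY (E.wth (lkp [])) l14175 = true ∧
    allY (E.wth (lkp [])) l14176 = true ∧
    allY (E.wth (lkp [])) l14177 = true ∧
    allY (E.wth (lkp [])) l14178 = true ∧
    allY (E.wth (lkp [])) l14179 = true ∧
    allY (E.wth (lkp [])) l14180 = true :=
  ⟨by decide +kernel, by decide +kernel, by decide +kernel, by decide +kernel, by decide +kernel, by decide +kernel, by decide +kernel, by decide +kernel⟩

def t14181 : allY (E.wth (lkp [])) l14181 = true ∧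
    allY (E.wth (lkp [])) l14182 = true ∧
    allY (E.wth (lkp [])) l14183 = true ∧
    allY (E.wth (lkp [])) l14184 = true ∧
    allY (E.wth (lkp [])) l14185 = true ∧
    allY (E.wth (lkp [])) l14186 = true ∧
    allY (E.wth (lkp [])) l14187 = true ∧
    allY (E.wth (lkp [])) l14188 = true :=
  ⟨by decide +kernel, by decide +kernel, by decide +kernel, by decide +kernel, by decide +kernel, by decide +kernel, by decide +kernel, by decide +kernel⟩

def t14189 : allY (E.wth (lkp [])) l14189 = true ∧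
    allY (E.wth (lkp [])) l14190 = true ∧
    allY (E.wth (lkp [])) l14191 = true ∧
    allY (E.wth (lkp [])) l14192 = true ∧
    allY (E.wth (lkp [])) l14193 = true ∧
    allY (E.wth (lkp [])) l14194 = true ∧
    allY (E.wth (lkp [])) l14195 = true ∧
    allY (E.wth (lkp [])) l14196 = true :=
  ⟨by decide +kernel, by decide +kernel, by decide +kernel, by decide +kernel, by decide +kernel, by decide +kernel, by decide +kernel, by decide +kernel⟩

def t14197 : allY (E.wth (lkp [])) l14197 = true ∧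
    allY (E.wth (lkp [])) l14198 = true ∧
    allY (E.wth (lkp [])) l14199 = true ∧
    allY (E.wth (lkp [])) l14200 = true ∧
    allY (E.wth (lkp [])) l14201 = true ∧
    allY (E.wth (lkp [])) l14202 = true ∧
    allY (E.wth (lkp [])) l14203 = true ∧
    allY (E.wth (lkp [])) l14204 = true :=
  ⟨by decide +kernel, by decide +kernel, by decide +kernel, by decide +kernel, by decide +kernel, by decide +kernel, by decide +kernel, by decide +kernel⟩

def t14205 : allY (E.wth (lkp [])) l14205 = true ∧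
    allY (E.wth (lkp [])) l14206 = true ∧
    allY (E.wth (lkp [])) l14207 = true ∧
    allY (E.wth (lkp [])) l14208 = true ∧
    allY (E.wth (lkp [])) l14209 = true ∧
    allY (E.wth (lkp [])) l14210 = true ∧
    allY (E.wth (lkp [])) l14211 = true ∧
    allY (E.wth (lkp [])) l14212 = true :=
  ⟨by decide +kernel, by decide +kernel, by decide +kernel, by decide +kernel, by decide +kernel, by decide +kernel, by decide +kernel, by decide +kernel⟩

def t14213 : allY (E.wth (lkp [])) l14213 = true ∧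
    allY (E.wth (lkp [])) l14214 = true ∧
    allY (E.wth (lkp [])) l14215 = true ∧
    allY (E.wth (lkp [])) l14216 = true ∧
    allY (E.wth (lkp [])) l14217 = true ∧
    allY (E.wth (lkp [])) l14218 = true ∧
    allY (E.wth (lkp [])) l14219 = true ∧
    allY (E.wth (lkp [])) l14220 = true :=
  ⟨by decide +kernel, by decide +kernel, by decide +kernel, by decide +kernel, by decide +kernel, by decide +kernel, by decide +kernel, by decide +kernel⟩

def t14221 : allY (E.wth (lkp [])) l14221 = true ∧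
    allY (E.wth (lkp [])) l14222 = true ∧
    allY (E.wth (lkp [])) l14223 = true ∧
    allY (E.wth (lkp [])) l14224 = true ∧
    allY (E.wth (lkp [])) l14225 = true ∧
    allY (E.wth (lkp [])) l14226 = true ∧
    allY (E.wth (lkp [])) l14227 = true ∧
    allY (E.wth (lkp [])) l14228 = true :=
  ⟨by decide +kernel, by decide +kernel, by decide +kernel, by decide +kernel, by decide +kernel, by decide +kernel, by decide +kernel, by decide +kernel⟩

def t14229 : allY (E.wth (lkp [])) l14229 = true ∧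
    allY (E.wth (lkp [])) l14230 = true ∧
    allY (E.wth (lkp [])) l14231 = true ∧
    allY (E.wth (lkp [])) l14232 = true ∧
    allY (E.wth (lkp [])) l14233 = true ∧
    allY (E.wth (lkp [])) l14234 = true ∧
    allY (E.wth (lkp [])) l14235 = true ∧
    allY (E.wth (lkp [])) l14236 = true :=
  ⟨by decide +kernel, by decide +kernel, by decide +kernel, by decide +kernel, by decide +kernel, by decide +kernel, by decide +kernel, by decide +kernel⟩

def t14237 : allY (E.wth (lkp [])) l14237 = true ∧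
    allY (E.wth (lkp [])) l14238 = true ∧
    allY (E.wth (lkp [])) l14239 = true ∧
    allY (E.wth (lkp [])) l14240 = true ∧
    allY (E.wth (lkp [])) l14241 = true ∧
    allY (E.wth (lkp [])) l14242 = true ∧
    allY (E.wth (lkp [])) l14243 = true ∧
    allY (E.wth (lkp [])) l14244 = true :=
  ⟨by decide +kernel, by decide +kernel, by decide +kernel, by decide +kernel, by decide +kernel, by decide +kernel, by decide +kernel, by decide +kernel⟩

def t14245 : allY (E.wth (lkp [])) l14245 = true ∧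
    allY (E.wth (lkp [])) l14246 = true ∧
    allY (E.wth (lkp [])) l14247 = true ∧
    allY (E.wth (lkp [])) l14248 = true ∧
    allY (E.wth (lkp [])) l14249 = true ∧
    allY (E.wth (lkp [])) l14250 = true ∧
    allY (E.wth (lkp [])) l14251 = true ∧
    allY (E.wth (lkp [])) l14252 = true :=
  ⟨by decide +kernel, by decide +kernel, by decide +kernel, by decide +kernel, by decide +kernel, by decide +kernel, by decide +kernel, by decide +kernel⟩

def t14253 : allY (E.wth (lkp [])) l14253 = true ∧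
    allY (E.wth (lkp [])) l14254 = true ∧
    allY (E.wth (lkp [])) l14255 = true ∧
    allY (E.wth (lkp [])) l14256 = true ∧
    allY (E.wth (lkp [])) l14257 = true ∧
    allY (E.wth (lkp [])) l14258 = true ∧
    allY (E.wth (lkp [])) l14259 = true ∧
    allY (E.wth (lkp [])) l14260 = true :=
  ⟨by decide +kernel, by decide +kernel, by decide +kernel, by decide +kernel, by decide +kernel, by decide +kernel, by decide +kernel, by decide +kernel⟩

def t14261 : allY (E.wth (lkp [])) l14261 = true ∧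
    allY (E.wth (lkp [])) l14262 = true ∧
    allY (E.wth (lkp [])) l14263 = true ∧
    allY (E.wth (lkp [])) l14264 = true ∧
    allY (E.wth (lkp [])) l14265 = true ∧
    allY (E.wth (lkp [])) l14266 = true ∧
    allY (E.wth (lkp [])) l14267 = true ∧
    allY (E.wth (lkp [])) l14268 = true :=
  ⟨by decide +kernel, by decide +kernel, by decide +kernel, by decide +kernel, by decide +kernel, by decide +kernel, by decide +kernel, by decide +kernel⟩

def t14269 : allY (E.wth (lkp [])) l14269 = true ∧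
    allY (E.wth (lkp [])) l14270 = true ∧
    allY (E.wth (lkp [])) l14271 = true ∧
    allY (E.wth (lkp [])) l14272 = true ∧
    allY (E.wth (lkp [])) l14273 = true ∧
    allY (E.wth (lkp [])) l14274 = true ∧
    allY (E.wth (lkp [])) l14275 = true ∧
    allY (E.wth (lkp [])) l14276 = true :=
  ⟨by decide +kernel, by decide +kernel, by decide +kernel, by decide +kernel, by decide +kernel, by decide +kernel, by decide +kernel, by decide +kernel⟩

def t14277 : allY (E.wth (lkp [])) l14277 = true ∧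
    allY (E.wth (lkp [])) l14278 = true ∧
    allY (E.wth (lkp [])) l14279 = true ∧
    allY (E.wth (lkp [])) l14280 = true ∧
    allY (E.wth (lkp [])) l14281 = true ∧
    allY (E.wth (lkp [])) l14282 = true ∧
    allY (E.wth (lkp [])) l14283 = true ∧
    allY (E.wth (lkp [])) l14284 = true :=
  ⟨by decide +kernel, by decide +kernel, by decide +kernel, by decide +kernel, by decide +kernel, by decide +kernel, by decide +kernel, by decide +kernel⟩

def t14285 : allY (E.wth (lkp [])) l14285 = true ∧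
    allY (E.wth (lkp [])) l14286 = true ∧
    allY (E.wth (lkp [])) l14287 = true ∧
    allY (E.wth (lkp [])) l14288 = true ∧
    allY (E.wth (lkp [])) l14289 = true ∧
    allY (E.wth (lkp [])) l14290 = true ∧
    allY (E.wth (lkp [])) l14291 = true ∧
    allY (E.wth (lkp [])) l14292 = true :=
  ⟨by decide +kernel, by decide +kernel, by decide +kernel, by decide +kernel, by decide +kernel, by decide +kernel, by decide +kernel, by decide +kernel⟩

def t14293 : allY (E.wth (lkp [])) l14293 = true ∧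
    allY (E.wth (lkp [])) l14294 = true ∧
    allY (E.wth (lkp [])) l14295 = true ∧
    allY (E.wth (lkp [])) l14296 = true ∧
    allY (E.wth (lkp [])) l14297 = true ∧
    allY (E.wth (lkp [])) l14298 = true ∧
    allY (E.wth (lkp [])) l14299 = true ∧
    allY (E.wth (lkp [])) l14300 = true :=
  ⟨by decide +kernel, by decide +kernel, by decide +kernel, by decide +kernel, by decide +kernel, by decide +kernel, by decide +kernel, by decide +kernel⟩

def t14301 : allY (E.wth (lkp [])) l14301 = true ∧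
    allY (E.wth (lkp [])) l14302 = true ∧
    allY (E.wth (lkp [])) l14303 = true ∧
    allY (E.wth (lkp [])) l14304 = true ∧
    allY (E.wth (lkp [])) l14305 = true ∧
    allY (E.wth (lkp [])) l14306 = true ∧
    allY (E.wth (lkp [])) l14307 = true ∧
    allY (E.wth (lkp [])) l14308 = true :=
  ⟨by decide +kernel, by decide +kernel, by decide +kernel, by decide +kernel, by decide +kernel, by decide +kernel, by decide +kernel, by decide +kernel⟩

def t14309 : allY (E.wth (lkp [])) l14309 = true ∧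
    allY (E.wth (lkp [])) l14310 = true ∧
    allY (E.wth (lkp [])) l14311 = true ∧
    allY (E.wth (lkp [])) l14312 = true ∧
    allY (E.wth (lkp [])) l14313 = true ∧
    allY (E.wth (lkp [])) l14314 = true ∧
    allY (E.wth (lkp [])) l14315 = true ∧
    allY (E.wth (lkp [])) l14316 = true :=
  ⟨by decide +kernel, by decide +kernel, by decide +kernel, by decide +kernel, by decide +kernel, by decide +kernel, by decide +kernel, by decide +kernel⟩

def t14317 : allY (E.wth (lkp [])) l14317 = true ∧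
    allY (E.wth (lkp [])) l14318 = true ∧
    allY (E.wth (lkp [])) l14319 = true ∧
    allY (E.wth (lkp [])) l14320 = true ∧
    allY (E.wth (lkp [])) l14321 = true ∧
    allY (E.wth (lkp [])) l14322 = true ∧
    allY (E.wth (lkp [])) l14323 = true ∧
    allY (E.wth (lkp [])) l14324 = true :=
  ⟨by decide +kernel, by decide +kernel, by decide +kernel, by decide +kernel, by decide +kernel, by decide +kernel, by decide +kernel, by decide +kernel⟩

def t14325 : allY (E.wth (lkp [])) l14325 = true ∧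
    allY (E.wth (lkp [])) l14326 = true ∧
    allY (E.wth (lkp [])) l14327 = true ∧
    allY (E.wth (lkp [])) l14328 = true ∧
    allY (E.wth (lkp [])) l14329 = true ∧
    allY (E.wth (lkp [])) l14330 = true ∧
    allY (E.wth (lkp [])) l14331 = true ∧
    allY (E.wth (lkp [])) l14332 = true :=
  ⟨by decide +kernel, by decide +kernel, by decide +kernel, by decide +kernel, by decide +kernel, by decide +kernel, by decide +kernel, by decide +kernel⟩

def t14333 : allY (E.wth (lkp [])) l14333 = true ∧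
    allY (E.wth (lkp [])) l14334 = true ∧
    allY (E.wth (lkp [])) l14335 = true ∧
    allY (E.wth (lkp [])) l14336 = true ∧
    allY (E.wth (lkp [])) l14337 = true ∧
    allY (E.wth (lkp [])) l14338 = true ∧
    allY (E.wth (lkp [])) l14339 = true ∧
    allY (E.wth (lkp [])) l14340 = true :=
  ⟨by decide +kernel, by decide +kernel, by decide +kernel, by decide +kernel, by decide +kernel, by decide +kernel, by decide +kernel, by decide +kernel⟩

def t14341 : allY (E.wth (lkp [])) l14341 = true ∧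
    allY (E.wth (lkp [])) l14342 = true ∧
    allY (E.wth (lkp [])) l14343 = true ∧
    allY (E.wth (lkp [])) l14344 = true ∧
    allY (E.wth (lkp [])) l14345 = true ∧
    allY (E.wth (lkp [])) l14346 = true ∧
    allY (E.wth (lkp [])) l14347 = true ∧
    allY (E.wth (lkp [])) l14348 = true :=
  ⟨by decide +kernel, by decide +kernel, by decide +kernel, by decide +kernel, by decide +kernel, by decide +kernel, by decide +kernel, by decide +kernel⟩

def t14349 : allY (E.wth (lkp [])) l14349 = true ∧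
    allY (E.wth (lkp [])) l14350 = true ∧
    allY (E.wth (lkp [])) l14351 = true ∧
    allY (E.wth (lkp [])) l14352 = true ∧
    allY (E.wth (lkp [])) l14353 = true ∧
    allY (E.wth (lkp [])) l14354 = true ∧
    allY (E.wth (lkp [])) l14355 = true ∧
    allY (E.wth (lkp [])) l14356 = true :=
  ⟨by decide +kernel, by decide +kernel, by decide +kernel, by decide +kernel, by decide +kernel, by decide +kernel, by decide +kernel, by decide +kernel⟩

def t14357 : allY (E.wth (lkp [])) l14357 = true ∧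
    allY (E.wth (lkp [])) l14358 = true ∧
    allY (E.wth (lkp [])) l14359 = true ∧
    allY (E.wth (lkp [])) l14360 = true ∧
    allY (E.wth (lkp [])) l14361 = true ∧
    allY (E.wth (lkp [])) l14362 = true ∧
    allY (E.wth (lkp [])) l14363 = true ∧
    allY (E.wth (lkp [])) l14364 = true :=
  ⟨by decide +kernel, by decide +kernel, by decide +kernel, by decide +kernel, by decide +kernel, by decide +kernel, by decide +kernel, by decide +kernel⟩

def t14365 : allY (E.wth (lkp [])) l14365 = true ∧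
    allY (E.wth (lkp [])) l14366 = true ∧
    allY (E.wth (lkp [])) l14367 = true ∧
    allY (E.wth (lkp [])) l14368 = true ∧
    allY (E.wth (lkp [])) l14369 = true ∧
    allY (E.wth (lkp [])) l14370 = true ∧
    allY (E.wth (lkp [])) l14371 = true ∧
    allY (E.wth (lkp [])) l14372 = true :=
  ⟨by decide +kernel, by decide +kernel, by decide +kernel, by decide +kernel, by decide +kernel, by decide +kernel, by decide +kernel, by decide +kernel⟩

def t14373 : allY (E.wth (lkp [])) l14373 = true ∧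
    allY (E.wth (lkp [])) l14374 = true ∧
    allY (E.wth (lkp [])) l14375 = true ∧
    allY (E.wth (lkp [])) l14376 = true ∧
    allY (E.wth (lkp [])) l14377 = true ∧
    allY (E.wth (lkp [])) l14378 = true ∧
    allY (E.wth (lkp [])) l14379 = true ∧
    allY (E.wth (lkp [])) l14380 = true :=
  ⟨by decide +kernel, by decide +kernel, by decide +kernel, by decide +kernel, by decide +kernel, by decide +kernel, by decide +kernel, by decide +kernel⟩

def t14381 : allY (E.wth (lkp [])) l14381 = true ∧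
    allY (E.wth (lkp [])) l14382 = true ∧
    allY (E.wth (lkp [])) l14383 = true ∧
    allY (E.wth (lkp [])) l14384 = true ∧
    allY (E.wth (lkp [])) l14385 = true ∧
    allY (E.wth (lkp [])) l14386 = true ∧
    allY (E.wth (lkp [])) l14387 = true ∧
    allY (E.wth (lkp [])) l14388 = true :=
  ⟨by decide +kernel, by decide +kernel, by decide +kernel, by decide +kernel, by decide +kernel, by decide +kernel, by decide +kernel, by decide +kernel⟩

def t14389 : allY (E.wth (lkp [])) l14389 = true ∧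
    allY (E.wth (lkp [])) l14390 = true ∧
    allY (E.wth (lkp [])) l14391 = true ∧
    allY (E.wth (lkp [])) l14392 = true ∧
    allY (E.wth (lkp [])) l14393 = true ∧
    allY (E.wth (lkp [])) l14394 = true ∧
    allY (E.wth (lkp [])) l14395 = true ∧
    allY (E.wth (lkp [])) l14396 = true :=
  ⟨by decide +kernel, by decide +kernel, by decide +kernel, by decide +kernel, by decide +kernel, by decide +kernel, by decide +kernel, by decide +kernel⟩

def t14397 : allY (E.wth (lkp [])) l14397 = true ∧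
    allY (E.wth (lkp [])) l14398 = true ∧
    allY (E.wth (lkp [])) l14399 = true ∧
    allY (E.wth (lkp [])) l14400 = true ∧
    allY (E.wth (lkp [])) l14401 = true ∧
    allY (E.wth (lkp [])) l14402 = true ∧
    allY (E.wth (lkp [])) l14403 = true ∧
    allY (E.wth (lkp [])) l14404 = true :=
  ⟨by decide +kernel, by decide +kernel, by decide +kernel, by decide +kernel, by decide +kernel, by decide +kernel, by decide +kernel, by decide +kernel⟩

def t14405 : allY (E.wth (lkp [])) l14405 = true ∧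
    allY (E.wth (lkp [])) l14406 = true ∧
    allY (E.wth (lkp [])) l14407 = true ∧
    allY (E.wth (lkp [])) l14408 = true ∧
    allY (E.wth (lkp [])) l14409 = true ∧
    allY (E.wth (lkp [])) l14410 = true ∧
    allY (E.wth (lkp [])) l14411 = true ∧
    allY (E.wth (lkp [])) l14412 = true :=
  ⟨by decide +kernel, by decide +kernel, by decide +kernel, by decide +kernel, by decide +kernel, by decide +kernel, by decide +kernel, by decide +kernel⟩

def t14413 : allY (E.wth (lkp [])) l14413 = true ∧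
    allY (E.wth (lkp [])) l14414 = true ∧
    allY (E.wth (lkp [])) l14415 = true ∧
    allY (E.wth (lkp [])) l14416 = true ∧
    allY (E.wth (lkp [])) l14417 = true ∧
    allY (E.wth (lkp [])) l14418 = true ∧
    allY (E.wth (lkp [])) l14419 = true ∧
    allY (E.wth (lkp [])) l14420 = true :=
  ⟨by decide +kernel, by decide +kernel, by decide +kernel, by decide +kernel, by decide +kernel, by decide +kernel, by decide +kernel, by decide +kernel⟩

def t14421 : allY (E.wth (lkp [])) l14421 = true ∧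
    allY (E.wth (lkp [])) l14422 = true ∧
    allY (E.wth (lkp [])) l14423 = true ∧
    allY (E.wth (lkp [])) l14424 = true ∧
    allY (E.wth (lkp [])) l14425 = true ∧
    allY (E.wth (lkp [])) l14426 = true ∧
    allY (E.wth (lkp [])) l14427 = true ∧
    allY (E.wth (lkp [])) l14428 = true :=
  ⟨by decide +kernel, by decide +kernel, by decide +kernel, by decide +kernel, by decide +kernel, by decide +kernel, by decide +kernel, by decide +kernel⟩

def t14429 : allY (E.wth (lkp [])) l14429 = true ∧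
    allY (E.wth (lkp [])) l14430 = true ∧
    allY (E.wth (lkp [])) l14431 = true ∧
    allY (E.wth (lkp [])) l14432 = true ∧
    allY (E.wth (lkp [])) l14433 = true ∧
    allY (E.wth (lkp [])) l14434 = true ∧
    allY (E.wth (lkp [])) l14435 = true ∧
    allY (E.wth (lkp [])) l14436 = true :=
  ⟨by decide +kernel, by decide +kernel, by decide +kernel, by decide +kernel, by decide +kernel, by decide +kernel, by decide +kernel, by decide +kernel⟩

def t14437 : allY (E.wth (lkp [])) l14437 = true ∧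
    allY (E.wth (lkp [])) l14438 = true ∧
    allY (E.wth (lkp [])) l14439 = true ∧
    allY (E.wth (lkp [])) l14440 = true ∧
    allY (E.wth (lkp [])) l14441 = true ∧
    allY (E.wth (lkp [])) l14442 = true ∧
    allY (E.wth (lkp [])) l14443 = true ∧
    allY (E.wth (lkp [])) l14444 = true :=
  ⟨by decide +kernel, by decide +kernel, by decide +kernel, by decide +kernel, by decide +kernel, by decide +kernel, by decide +kernel, by decide +kernel⟩

def t14445 : allY (E.wth (lkp [])) l14445 = true ∧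
    allY (E.wth (lkp [])) l14446 = true ∧
    allY (E.wth (lkp [])) l14447 = true ∧
    allY (E.wth (lkp [])) l14448 = true ∧
    allY (E.wth (lkp [])) l14449 = true ∧
    allY (E.wth (lkp [])) l14450 = true ∧
    allY (E.wth (lkp [])) l14451 = true ∧
    allY (E.wth (lkp [])) l14452 = true :=
  ⟨by decide +kernel, by decide +kernel, by decide +kernel, by decide +kernel, by decide +kernel, by decide +kernel, by decide +kernel, by decide +kernel⟩

def t14453 : allY (E.wth (lkp [])) l14453 = true ∧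
    allY (E.wth (lkp [])) l14454 = true ∧
    allY (E.wth (lkp [])) l14455 = true ∧
    allY (E.wth (lkp [])) l14456 = true ∧
    allY (E.wth (lkp [])) l14457 = true ∧
    allY (E.wth (lkp [])) l14458 = true ∧
    allY (E.wth (lkp [])) l14459 = true ∧
    allY (E.wth (lkp [])) l14460 = true :=
  ⟨by decide +kernel, by decide +kernel, by decide +kernel, by decide +kernel, by decide +kernel, by decide +kernel, by decide +kernel, by decide +kernel⟩

def t14461 : allY (E.wth (lkp [])) l14461 = true ∧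
    allY (E.wth (lkp [])) l14462 = true ∧
    allY (E.wth (lkp [])) l14463 = true ∧
    allY (E.wth (lkp [])) l14464 = true ∧
    allY (E.wth (lkp [])) l14465 = true ∧
    allY (E.wth (lkp [])) l14466 = true ∧
    allY (E.wth (lkp [])) l14467 = true ∧
    allY (E.wth (lkp [])) l14468 = true :=
  ⟨by decide +kernel, by decide +kernel, by decide +kernel, by decide +kernel, by decide +kernel, by decide +kernel, by decide +kernel, by decide +kernel⟩

def t14469 : allY (E.wth (lkp [])) l14469 = true ∧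
    allY (E.wth (lkp [])) l14470 = true ∧
    allY (E.wth (lkp [])) l14471 = true ∧
    allY (E.wth (lkp [])) l14472 = true ∧
    allY (E.wth (lkp [])) l14473 = true ∧
    allY (E.wth (lkp [])) l14474 = true ∧
    allY (E.wth (lkp [])) l14475 = true ∧
    allY (E.wth (lkp [])) l14476 = true :=
  ⟨by decide +kernel, by decide +kernel, by decide +kernel, by decide +kernel, by decide +kernel, by decide +kernel, by decide +kernel, by decide +kernel⟩

def t14477 : allY (E.wth (lkp [])) l14477 = true ∧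
    allY (E.wth (lkp [])) l14478 = true ∧
    allY (E.wth (lkp [])) l14479 = true ∧
    allY (E.wth (lkp [])) l14480 = true ∧
    allY (E.wth (lkp [])) l14481 = true ∧
    allY (E.wth (lkp [])) l14482 = true ∧
    allY (E.wth (lkp [])) l14483 = true ∧
    allY (E.wth (lkp [])) l14484 = true :=
  ⟨by decide +kernel, by decide +kernel, by decide +kernel, by decide +kernel, by decide +kernel, by decide +kernel, by decide +kernel, by decide +kernel⟩

def t14485 : allY (E.wth (lkp [])) l14485 = true ∧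
    allY (E.wth (lkp [])) l14486 = true ∧
    allY (E.wth (lkp [])) l14487 = true ∧
    allY (E.wth (lkp [])) l14488 = true ∧
    allY (E.wth (lkp [])) l14489 = true ∧
    allY (E.wth (lkp [])) l14490 = true ∧
    allY (E.wth (lkp [])) l14491 = true ∧
    allY (E.wth (lkp [])) l14492 = true :=
  ⟨by decide +kernel, by decide +kernel, by decide +kernel, by decide +kernel, by decide +kernel, by decide +kernel, by decide +kernel, by decide +kernel⟩

def t14493 : allY (E.wth (lkp [])) l14493 = true ∧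
    allY (E.wth (lkp [])) l14494 = true ∧
    allY (E.wth (lkp [])) l14495 = true ∧
    allY (E.wth (lkp [])) l14496 = true ∧
    allY (E.wth (lkp [])) l14497 = true ∧
    allY (E.wth (lkp [])) l14498 = true ∧
    allY (E.wth (lkp [])) l14499 = true ∧
    allY (E.wth (lkp [])) l14500 = true :=
  ⟨by decide +kernel, by decide +kernel, by decide +kernel, by decide +kernel, by decide +kernel, by decide +kernel, by decide +kernel, by decide +kernel⟩

def t14501 : allY (E.wth (lkp [])) l14501 = true ∧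
    allY (E.wth (lkp [])) l14502 = true ∧
    allY (E.wth (lkp [])) l14503 = true ∧
    allY (E.wth (lkp [])) l14504 = true ∧
    allY (E.wth (lkp [])) l14505 = true ∧
    allY (E.wth (lkp [])) l14506 = true ∧
    allY (E.wth (lkp [])) l14507 = true ∧
    allY (E.wth (lkp [])) l14508 = true :=
  ⟨by decide +kernel, by decide +kernel, by decide +kernel, by decide +kernel, by decide +kernel, by decide +kernel, by decide +kernel, by decide +kernel⟩

def t14509 : allY (E.wth (lkp [])) l14509 = true ∧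
    allY (E.wth (lkp [])) l14510 = true ∧
    allY (E.wth (lkp [])) l14511 = true ∧
    allY (E.wth (lkp [])) l14512 = true ∧
    allY (E.wth (lkp [])) l14513 = true ∧
    allY (E.wth (lkp [])) l14514 = true ∧
    allY (E.wth (lkp [])) l14515 = true ∧
    allY (E.wth (lkp [])) l14516 = true :=
  ⟨by decide +kernel, by decide +kernel, by decide +kernel, by decide +kernel, by decide +kernel, by decide +kernel, by decide +kernel, by decide +kernel⟩

def t14517 : allY (E.wth (lkp [])) l14517 = true ∧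
    allY (E.wth (lkp [])) l14518 = true ∧
    allY (E.wth (lkp [])) l14519 = true ∧
    allY (E.wth (lkp [])) l14520 = true ∧
    allY (E.wth (lkp [])) l14521 = true ∧
    allY (E.wth (lkp [])) l14522 = true ∧
    allY (E.wth (lkp [])) l14523 = true ∧
    allY (E.wth (lkp [])) l14524 = true :=
  ⟨by decide +kernel, by decide +kernel, by decide +kernel, by decide +kernel, by decide +kernel, by decide +kernel, by decide +kernel, by decide +kernel⟩

def t14525 : allY (E.wth (lkp [])) l14525 = true ∧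
    allY (E.wth (lkp [])) l14526 = true ∧
    allY (E.wth (lkp [])) l14527 = true ∧
    allY (E.wth (lkp [])) l14528 = true ∧
    allY (E.wth (lkp [])) l14529 = true ∧
    allY (E.wth (lkp [])) l14530 = true ∧
    allY (E.wth (lkp [])) l14531 = true ∧
    allY (E.wth (lkp [])) l14532 = true :=
  ⟨by decide +kernel, by decide +kernel, by decide +kernel, by decide +kernel, by decide +kernel, by decide +kernel, by decide +kernel, by decide +kernel⟩

def t14533 : allY (E.wth (lkp [])) l14533 = true ∧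
    allY (E.wth (lkp [])) l14534 = true ∧
    allY (E.wth (lkp [])) l14535 = true ∧
    allY (E.wth (lkp [])) l14536 = true ∧
    allY (E.wth (lkp [])) l14537 = true ∧
    allY (E.wth (lkp [])) l14538 = true ∧
    allY (E.wth (lkp [])) l14539 = true ∧
    allY (E.wth (lkp [])) l14540 = true :=
  ⟨by decide +kernel, by decide +kernel, by decide +kernel, by decide +kernel, by decide +kernel, by decide +kernel, by decide +kernel, by decide +kernel⟩

def t14541 : allY (E.wth (lkp [])) l14541 = true ∧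
    allY (E.wth (lkp [])) l14542 = true ∧
    allY (E.wth (lkp [])) l14543 = true ∧
    allY (E.wth (lkp [])) l14544 = true ∧
    allY (E.wth (lkp [])) l14545 = true ∧
    allY (E.wth (lkp [])) l14546 = true ∧
    allY (E.wth (lkp [])) l14547 = true ∧
    allY (E.wth (lkp [])) l14548 = true :=
  ⟨by decide +kernel, by decide +kernel, by decide +kernel, by decide +kernel, by decide +kernel, by decide +kernel, by decide +kernel, by decide +kernel⟩

def t14549 : allY (E.wth (lkp [])) l14549 = true ∧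
    allY (E.wth (lkp [])) l14550 = true ∧
    allY (E.wth (lkp [])) l14551 = true ∧
    allY (E.wth (lkp [])) l14552 = true ∧
    allY (E.wth (lkp [])) l14553 = true ∧
    allY (E.wth (lkp [])) l14554 = true ∧
    allY (E.wth (lkp [])) l14555 = true ∧
    allY (E.wth (lkp [])) l14556 = true :=
  ⟨by decide +kernel, by decide +kernel, by decide +kernel, by decide +kernel, by decide +kernel, by decide +kernel, by decide +kernel, by decide +kernel⟩

def t14557 : allY (E.wth (lkp [])) l14557 = true ∧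
    allY (E.wth (lkp [])) l14558 = true ∧
    allY (E.wth (lkp [])) l14559 = true ∧
    allY (E.wth (lkp [])) l14560 = true ∧
    allY (E.wth (lkp [])) l14561 = true ∧
    allY (E.wth (lkp [])) l14562 = true ∧
    allY (E.wth (lkp [])) l14563 = true ∧
    allY (E.wth (lkp [])) l14564 = true :=
  ⟨by decide +kernel, by decide +kernel, by decide +kernel, by decide +kernel, by decide +kernel, by decide +kernel, by decide +kernel, by decide +kernel⟩

def t14565 : allY (E.wth (lkp [])) l14565 = true ∧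
    allY (E.wth (lkp [])) l14566 = true ∧
    allY (E.wth (lkp [])) l14567 = true :=
  ⟨by decide +kernel, by decide +kernel, by decide +kernel⟩

theorem a25 {p : Rf → Prop} (H : ∀ l, allY (E.wth (lkp [])) l = true → (lkp l).All p) :
    b25.All p := ⟨⟨⟨⟨⟨⟨⟨⟨⟨H _ t14005.1, H _ t14005.2.1⟩, ⟨H _ t14005.2.2.1, H _ t14005.2.2.2.1⟩⟩, ⟨⟨H _ t14005.2.2.2.2.1, H _ t14005.2.2.2.2.2.1⟩, ⟨H _ t14005.2.2.2.2.2.2.1, H _ t14005.2.2.2.2.2.2.2⟩⟩⟩, ⟨⟨⟨H _ t14013.1, H _ t14013.2.1⟩, ⟨H _ t14013.2.2.1, H _ t14013.2.2.2.1⟩⟩, ⟨⟨H _ t14013.2.2.2.2.1, H _ t14013.2.2.2.2.2.1⟩, ⟨H _ t14013.2.2.2.2.2.2.1, ⟨H _ t14013.2.2.2.2.2.2.2, H _ t14021.1⟩⟩⟩⟩⟩, ⟨⟨⟨⟨H _ t14021.2.1, H _ t14021.2.2.1⟩, ⟨H _ t14021.2.2.2.1, H _ t14021.2.2.2.2.1⟩⟩, ⟨⟨H _ t14021.2.2.2.2.2.1, H _ t14021.2.2.2.2.2.2.1⟩, ⟨H _ t14021.2.2.2.2.2.2.2, ⟨H _ t14029.1, H _ t14029.2.1⟩⟩⟩⟩, ⟨⟨⟨H _ t14029.2.2.1, H _ t14029.2.2.2.1⟩, ⟨H _ t14029.2.2.2.2.1, H _ t14029.2.2.2.2.2.1⟩⟩,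 ⟨⟨H _ t14029.2.2.2.2.2.2.1, H _ t14029.2.2.2.2.2.2.2⟩, ⟨H _ t14037.1, ⟨H _ t14037.2.1, H _ t14037.2.2.1⟩⟩⟩⟩⟩⟩, ⟨⟨⟨⟨⟨H _ t14037.2.2.2.1, H _ t14037.2.2.2.2.1⟩, ⟨H _ t14037.2.2.2.2.2.1, H _ t14037.2.2.2.2.2.2.1⟩⟩, ⟨⟨H _ t14037.2.2.2.2.2.2.2, H _ t14045.1⟩, ⟨H _ t14045.2.1, H _ t14045.2.2.1⟩⟩⟩, ⟨⟨⟨H _ t14045.2.2.2.1, H _ t14045.2.2.2.2.1⟩, ⟨H _ t14045.2.2.2.2.2.1, H _ t14045.2.2.2.2.2.2.1⟩⟩, ⟨⟨H _ t14045.2.2.2.2.2.2.2, H _ t14053.1⟩, ⟨H _ t14053.2.1, ⟨H _ t14053.2.2.1, H _ t14053.2.2.2.1⟩⟩⟩⟩⟩, ⟨⟨⟨⟨H _ t14053.2.2.2.2.1, H _ t14053.2.2.2.2.2.1⟩, ⟨H _ t14053.2.2.2.2.2.2.1, H _ t14053.2.2.2.2.2.2.2⟩⟩, ⟨⟨H _ t14061.1, H _ t14061.2.1⟩, ⟨H _ t14061.2.2.1, ⟨H _ t14061.2.2.2.1, H _ t14061.2.2.2.2.1⟩⟩⟩⟩, ⟨⟨⟨H _ t14061.2.2.2.2.2.1, H _ t14061.2.2.2.2.2.2.1⟩, ⟨H _ t14061.2.2.2.2.2.2.2, H _ t14069.1⟩⟩, ⟨⟨H _ t14069.2.1, H _ t14069.2.2.1⟩, ⟨H _ t14069.2.2.2.1, ⟨H _ t14069.2.2.2.2.1, H _ t14069.2.2.2.2.2.1⟩⟩⟩⟩⟩⟩⟩,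 ⟨⟨⟨⟨⟨⟨H _ t14069.2.2.2.2.2.2.1, H _ t14069.2.2.2.2.2.2.2⟩, ⟨H _ t14077.1, H _ t14077.2.1⟩⟩, ⟨⟨H _ t14077.2.2.1, H _ t14077.2.2.2.1⟩, ⟨H _ t14077.2.2.2.2.1, H _ t14077.2.2.2.2.2.1⟩⟩⟩, ⟨⟨⟨H _ t14077.2.2.2.2.2.2.1, H _ t14077.2.2.2.2.2.2.2⟩, ⟨H _ t14085.1, H _ t14085.2.1⟩⟩, ⟨⟨H _ t14085.2.2.1, H _ t14085.2.2.2.1⟩, ⟨H _ t14085.2.2.2.2.1, ⟨H _ t14085.2.2.2.2.2.1, H _ t14085.2.2.2.2.2.2.1⟩⟩⟩⟩⟩, ⟨⟨⟨⟨H _ t14085.2.2.2.2.2.2.2, H _ t14093.1⟩, ⟨H _ t14093.2.1, H _ t14093.2.2.1⟩⟩, ⟨⟨H _ t14093.2.2.2.1, H _ t14093.2.2.2.2.1⟩, ⟨H _ t14093.2.2.2.2.2.1, ⟨H _ t14093.2.2.2.2.2.2.1, H _ t14093.2.2.2.2.2.2.2⟩⟩⟩⟩, ⟨⟨⟨H _ t14101.1, H _ t14101.2.1⟩, ⟨H _ t14101.2.2.1, H _ t14101.2.2.2.1⟩⟩, ⟨⟨H _ t14101.2.2.2.2.1, H _ t14101.2.2.2.2.2.1⟩, ⟨H _ t14101.2.2.2.2.2.2.1, ⟨H _ t14101.2.2.2.2.2.2.2, H _ t14109.1⟩⟩⟩⟩⟩⟩, ⟨⟨⟨⟨⟨H _ t14109.2.1, H _ t14109.2.2.1⟩, ⟨H _ t14109.2.2.2.1, H _ t14109.2.2.2.2.1⟩⟩, ⟨⟨H _ t14109.2.2.2.2.2.1,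 H _ t14109.2.2.2.2.2.2.1⟩, ⟨H _ t14109.2.2.2.2.2.2.2, H _ t14117.1⟩⟩⟩, ⟨⟨⟨H _ t14117.2.1, H _ t14117.2.2.1⟩, ⟨H _ t14117.2.2.2.1, H _ t14117.2.2.2.2.1⟩⟩, ⟨⟨H _ t14117.2.2.2.2.2.1, H _ t14117.2.2.2.2.2.2.1⟩, ⟨H _ t14117.2.2.2.2.2.2.2, ⟨H _ t14125.1, H _ t14125.2.1⟩⟩⟩⟩⟩, ⟨⟨⟨⟨H _ t14125.2.2.1, H _ t14125.2.2.2.1⟩, ⟨H _ t14125.2.2.2.2.1, H _ t14125.2.2.2.2.2.1⟩⟩, ⟨⟨H _ t14125.2.2.2.2.2.2.1, H _ t14125.2.2.2.2.2.2.2⟩, ⟨H _ t14133.1, ⟨H _ t14133.2.1, H _ t14133.2.2.1⟩⟩⟩⟩, ⟨⟨⟨H _ t14133.2.2.2.1, H _ t14133.2.2.2.2.1⟩, ⟨H _ t14133.2.2.2.2.2.1, H _ t14133.2.2.2.2.2.2.1⟩⟩, ⟨⟨H _ t14133.2.2.2.2.2.2.2, H _ t14141.1⟩, ⟨H _ t14141.2.1, ⟨H _ t14141.2.2.1, H _ t14141.2.2.2.1⟩⟩⟩⟩⟩⟩⟩⟩, ⟨⟨⟨⟨⟨⟨⟨H _ t14141.2.2.2.2.1, H _ t14141.2.2.2.2.2.1⟩, ⟨H _ t14141.2.2.2.2.2.2.1, H _ t14141.2.2.2.2.2.2.2⟩⟩, ⟨⟨H _ t14149.1, H _ t14149.2.1⟩, ⟨H _ t14149.2.2.1, H _ t14149.2.2.2.1⟩⟩⟩, ⟨⟨⟨H _ t14149.2.2.2.2.1, H _ t14149.2.2.2.2.2.1⟩,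 ⟨H _ t14149.2.2.2.2.2.2.1, H _ t14149.2.2.2.2.2.2.2⟩⟩, ⟨⟨H _ t14157.1, H _ t14157.2.1⟩, ⟨H _ t14157.2.2.1, ⟨H _ t14157.2.2.2.1, H _ t14157.2.2.2.2.1⟩⟩⟩⟩⟩, ⟨⟨⟨⟨H _ t14157.2.2.2.2.2.1, H _ t14157.2.2.2.2.2.2.1⟩, ⟨H _ t14157.2.2.2.2.2.2.2, H _ t14165.1⟩⟩, ⟨⟨H _ t14165.2.1, H _ t14165.2.2.1⟩, ⟨H _ t14165.2.2.2.1, ⟨H _ t14165.2.2.2.2.1, H _ t14165.2.2.2.2.2.1⟩⟩⟩⟩, ⟨⟨⟨H _ t14165.2.2.2.2.2.2.1, H _ t14165.2.2.2.2.2.2.2⟩, ⟨H _ t14173.1, H _ t14173.2.1⟩⟩, ⟨⟨H _ t14173.2.2.1, H _ t14173.2.2.2.1⟩, ⟨H _ t14173.2.2.2.2.1, ⟨H _ t14173.2.2.2.2.2.1, H _ t14173.2.2.2.2.2.2.1⟩⟩⟩⟩⟩⟩, ⟨⟨⟨⟨⟨H _ t14173.2.2.2.2.2.2.2, H _ t14181.1⟩, ⟨H _ t14181.2.1, H _ t14181.2.2.1⟩⟩, ⟨⟨H _ t14181.2.2.2.1, H _ t14181.2.2.2.2.1⟩, ⟨H _ t14181.2.2.2.2.2.1, H _ t14181.2.2.2.2.2.2.1⟩⟩⟩, ⟨⟨⟨H _ t14181.2.2.2.2.2.2.2, H _ t14189.1⟩, ⟨H _ t14189.2.1, H _ t14189.2.2.1⟩⟩, ⟨⟨H _ t14189.2.2.2.1, H _ t14189.2.2.2.2.1⟩, ⟨H _ t14189.2.2.2.2.2.1,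 ⟨H _ t14189.2.2.2.2.2.2.1, H _ t14189.2.2.2.2.2.2.2⟩⟩⟩⟩⟩, ⟨⟨⟨⟨H _ t14197.1, H _ t14197.2.1⟩, ⟨H _ t14197.2.2.1, H _ t14197.2.2.2.1⟩⟩, ⟨⟨H _ t14197.2.2.2.2.1, H _ t14197.2.2.2.2.2.1⟩, ⟨H _ t14197.2.2.2.2.2.2.1, ⟨H _ t14197.2.2.2.2.2.2.2, H _ t14205.1⟩⟩⟩⟩, ⟨⟨⟨H _ t14205.2.1, H _ t14205.2.2.1⟩, ⟨H _ t14205.2.2.2.1, H _ t14205.2.2.2.2.1⟩⟩, ⟨⟨H _ t14205.2.2.2.2.2.1, H _ t14205.2.2.2.2.2.2.1⟩, ⟨H _ t14205.2.2.2.2.2.2.2, ⟨H _ t14213.1, H _ t14213.2.1⟩⟩⟩⟩⟩⟩⟩, ⟨⟨⟨⟨⟨⟨H _ t14213.2.2.1, H _ t14213.2.2.2.1⟩, ⟨H _ t14213.2.2.2.2.1, H _ t14213.2.2.2.2.2.1⟩⟩, ⟨⟨H _ t14213.2.2.2.2.2.2.1, H _ t14213.2.2.2.2.2.2.2⟩, ⟨H _ t14221.1, H _ t14221.2.1⟩⟩⟩, ⟨⟨⟨H _ t14221.2.2.1, H _ t14221.2.2.2.1⟩, ⟨H _ t14221.2.2.2.2.1, H _ t14221.2.2.2.2.2.1⟩⟩, ⟨⟨H _ t14221.2.2.2.2.2.2.1, H _ t14221.2.2.2.2.2.2.2⟩, ⟨H _ t14229.1, ⟨H _ t14229.2.1, H _ t14229.2.2.1⟩⟩⟩⟩⟩, ⟨⟨⟨⟨H _ t14229.2.2.2.1, H _ t14229.2.2.2.2.1⟩, ⟨H _ t14229.2.2.2.2.2.1,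 H _ t14229.2.2.2.2.2.2.1⟩⟩, ⟨⟨H _ t14229.2.2.2.2.2.2.2, H _ t14237.1⟩, ⟨H _ t14237.2.1, ⟨H _ t14237.2.2.1, H _ t14237.2.2.2.1⟩⟩⟩⟩, ⟨⟨⟨H _ t14237.2.2.2.2.1, H _ t14237.2.2.2.2.2.1⟩, ⟨H _ t14237.2.2.2.2.2.2.1, H _ t14237.2.2.2.2.2.2.2⟩⟩, ⟨⟨H _ t14245.1, H _ t14245.2.1⟩, ⟨H _ t14245.2.2.1, ⟨H _ t14245.2.2.2.1, H _ t14245.2.2.2.2.1⟩⟩⟩⟩⟩⟩, ⟨⟨⟨⟨⟨H _ t14245.2.2.2.2.2.1, H _ t14245.2.2.2.2.2.2.1⟩, ⟨H _ t14245.2.2.2.2.2.2.2, H _ t14253.1⟩⟩, ⟨⟨H _ t14253.2.1, H _ t14253.2.2.1⟩, ⟨H _ t14253.2.2.2.1, ⟨H _ t14253.2.2.2.2.1, H _ t14253.2.2.2.2.2.1⟩⟩⟩⟩, ⟨⟨⟨H _ t14253.2.2.2.2.2.2.1, H _ t14253.2.2.2.2.2.2.2⟩, ⟨H _ t14261.1, H _ t14261.2.1⟩⟩, ⟨⟨H _ t14261.2.2.1, H _ t14261.2.2.2.1⟩, ⟨H _ t14261.2.2.2.2.1, ⟨H _ t14261.2.2.2.2.2.1, H _ t14261.2.2.2.2.2.2.1⟩⟩⟩⟩⟩, ⟨⟨⟨⟨H _ t14261.2.2.2.2.2.2.2, H _ t14269.1⟩, ⟨H _ t14269.2.1, H _ t14269.2.2.1⟩⟩, ⟨⟨H _ t14269.2.2.2.1, H _ t14269.2.2.2.2.1⟩, ⟨H _ t14269.2.2.2.2.2.1,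 ⟨H _ t14269.2.2.2.2.2.2.1, H _ t14269.2.2.2.2.2.2.2⟩⟩⟩⟩, ⟨⟨⟨H _ t14277.1, H _ t14277.2.1⟩, ⟨H _ t14277.2.2.1, H _ t14277.2.2.2.1⟩⟩, ⟨⟨H _ t14277.2.2.2.2.1, H _ t14277.2.2.2.2.2.1⟩, ⟨H _ t14277.2.2.2.2.2.2.1, ⟨H _ t14277.2.2.2.2.2.2.2, H _ t14285.1⟩⟩⟩⟩⟩⟩⟩⟩⟩, ⟨⟨⟨⟨⟨⟨⟨⟨H _ t14285.2.1, H _ t14285.2.2.1⟩, ⟨H _ t14285.2.2.2.1, H _ t14285.2.2.2.2.1⟩⟩, ⟨⟨H _ t14285.2.2.2.2.2.1, H _ t14285.2.2.2.2.2.2.1⟩, ⟨H _ t14285.2.2.2.2.2.2.2, H _ t14293.1⟩⟩⟩, ⟨⟨⟨H _ t14293.2.1, H _ t14293.2.2.1⟩, ⟨H _ t14293.2.2.2.1, H _ t14293.2.2.2.2.1⟩⟩, ⟨⟨H _ t14293.2.2.2.2.2.1, H _ t14293.2.2.2.2.2.2.1⟩, ⟨H _ t14293.2.2.2.2.2.2.2, ⟨H _ t14301.1, H _ t14301.2.1⟩⟩⟩⟩⟩, ⟨⟨⟨⟨H _ t14301.2.2.1, H _ t14301.2.2.2.1⟩, ⟨H _ t14301.2.2.2.2.1, H _ t14301.2.2.2.2.2.1⟩⟩, ⟨⟨H _ t14301.2.2.2.2.2.2.1, H _ t14301.2.2.2.2.2.2.2⟩, ⟨H _ t14309.1, ⟨H _ t14309.2.1, H _ t14309.2.2.1⟩⟩⟩⟩, ⟨⟨⟨H _ t14309.2.2.2.1, H _ t14309.2.2.2.2.1⟩, ⟨H _ t14309.2.2.2.2.2.1,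 H _ t14309.2.2.2.2.2.2.1⟩⟩, ⟨⟨H _ t14309.2.2.2.2.2.2.2, H _ t14317.1⟩, ⟨H _ t14317.2.1, ⟨H _ t14317.2.2.1, H _ t14317.2.2.2.1⟩⟩⟩⟩⟩⟩, ⟨⟨⟨⟨⟨H _ t14317.2.2.2.2.1, H _ t14317.2.2.2.2.2.1⟩, ⟨H _ t14317.2.2.2.2.2.2.1, H _ t14317.2.2.2.2.2.2.2⟩⟩, ⟨⟨H _ t14325.1, H _ t14325.2.1⟩, ⟨H _ t14325.2.2.1, H _ t14325.2.2.2.1⟩⟩⟩, ⟨⟨⟨H _ t14325.2.2.2.2.1, H _ t14325.2.2.2.2.2.1⟩, ⟨H _ t14325.2.2.2.2.2.2.1, H _ t14325.2.2.2.2.2.2.2⟩⟩, ⟨⟨H _ t14333.1, H _ t14333.2.1⟩, ⟨H _ t14333.2.2.1, ⟨H _ t14333.2.2.2.1, H _ t14333.2.2.2.2.1⟩⟩⟩⟩⟩, ⟨⟨⟨⟨H _ t14333.2.2.2.2.2.1, H _ t14333.2.2.2.2.2.2.1⟩, ⟨H _ t14333.2.2.2.2.2.2.2, H _ t14341.1⟩⟩, ⟨⟨H _ t14341.2.1, H _ t14341.2.2.1⟩, ⟨H _ t14341.2.2.2.1, ⟨H _ t14341.2.2.2.2.1, H _ t14341.2.2.2.2.2.1⟩⟩⟩⟩, ⟨⟨⟨H _ t14341.2.2.2.2.2.2.1, H _ t14341.2.2.2.2.2.2.2⟩, ⟨H _ t14349.1, H _ t14349.2.1⟩⟩, ⟨⟨H _ t14349.2.2.1, H _ t14349.2.2.2.1⟩, ⟨H _ t14349.2.2.2.2.1, ⟨H _ t14349.2.2.2.2.2.1,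 H _ t14349.2.2.2.2.2.2.1⟩⟩⟩⟩⟩⟩⟩, ⟨⟨⟨⟨⟨⟨H _ t14349.2.2.2.2.2.2.2, H _ t14357.1⟩, ⟨H _ t14357.2.1, H _ t14357.2.2.1⟩⟩, ⟨⟨H _ t14357.2.2.2.1, H _ t14357.2.2.2.2.1⟩, ⟨H _ t14357.2.2.2.2.2.1, H _ t14357.2.2.2.2.2.2.1⟩⟩⟩, ⟨⟨⟨H _ t14357.2.2.2.2.2.2.2, H _ t14365.1⟩, ⟨H _ t14365.2.1, H _ t14365.2.2.1⟩⟩, ⟨⟨H _ t14365.2.2.2.1, H _ t14365.2.2.2.2.1⟩, ⟨H _ t14365.2.2.2.2.2.1, ⟨H _ t14365.2.2.2.2.2.2.1, H _ t14365.2.2.2.2.2.2.2⟩⟩⟩⟩⟩, ⟨⟨⟨⟨H _ t14373.1, H _ t14373.2.1⟩, ⟨H _ t14373.2.2.1, H _ t14373.2.2.2.1⟩⟩, ⟨⟨H _ t14373.2.2.2.2.1, H _ t14373.2.2.2.2.2.1⟩, ⟨H _ t14373.2.2.2.2.2.2.1, ⟨H _ t14373.2.2.2.2.2.2.2, H _ t14381.1⟩⟩⟩⟩, ⟨⟨⟨H _ t14381.2.1, H _ t14381.2.2.1⟩, ⟨H _ t14381.2.2.2.1, H _ t14381.2.2.2.2.1⟩⟩, ⟨⟨H _ t14381.2.2.2.2.2.1, H _ t14381.2.2.2.2.2.2.1⟩, ⟨H _ t14381.2.2.2.2.2.2.2, ⟨H _ t14389.1, H _ t14389.2.1⟩⟩⟩⟩⟩⟩, ⟨⟨⟨⟨⟨H _ t14389.2.2.1, H _ t14389.2.2.2.1⟩, ⟨H _ t14389.2.2.2.2.1, H _ t14389.2.2.2.2.2.1⟩⟩,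 ⟨⟨H _ t14389.2.2.2.2.2.2.1, H _ t14389.2.2.2.2.2.2.2⟩, ⟨H _ t14397.1, ⟨H _ t14397.2.1, H _ t14397.2.2.1⟩⟩⟩⟩, ⟨⟨⟨H _ t14397.2.2.2.1, H _ t14397.2.2.2.2.1⟩, ⟨H _ t14397.2.2.2.2.2.1, H _ t14397.2.2.2.2.2.2.1⟩⟩, ⟨⟨H _ t14397.2.2.2.2.2.2.2, H _ t14405.1⟩, ⟨H _ t14405.2.1, ⟨H _ t14405.2.2.1, H _ t14405.2.2.2.1⟩⟩⟩⟩⟩, ⟨⟨⟨⟨H _ t14405.2.2.2.2.1, H _ t14405.2.2.2.2.2.1⟩, ⟨H _ t14405.2.2.2.2.2.2.1, H _ t14405.2.2.2.2.2.2.2⟩⟩, ⟨⟨H _ t14413.1, H _ t14413.2.1⟩, ⟨H _ t14413.2.2.1, ⟨H _ t14413.2.2.2.1, H _ t14413.2.2.2.2.1⟩⟩⟩⟩, ⟨⟨⟨H _ t14413.2.2.2.2.2.1, H _ t14413.2.2.2.2.2.2.1⟩, ⟨H _ t14413.2.2.2.2.2.2.2, H _ t14421.1⟩⟩, ⟨⟨H _ t14421.2.1, H _ t14421.2.2.1⟩, ⟨H _ t14421.2.2.2.1, ⟨H _ t14421.2.2.2.2.1, H _ t14421.2.2.2.2.2.1⟩⟩⟩⟩⟩⟩⟩⟩, ⟨⟨⟨⟨⟨⟨⟨H _ t14421.2.2.2.2.2.2.1, H _ t14421.2.2.2.2.2.2.2⟩, ⟨H _ t14429.1, H _ t14429.2.1⟩⟩, ⟨⟨H _ t14429.2.2.1, H _ t14429.2.2.2.1⟩, ⟨H _ t14429.2.2.2.2.1, H _ t14429.2.2.2.2.2.1⟩⟩⟩,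 ⟨⟨⟨H _ t14429.2.2.2.2.2.2.1, H _ t14429.2.2.2.2.2.2.2⟩, ⟨H _ t14437.1, H _ t14437.2.1⟩⟩, ⟨⟨H _ t14437.2.2.1, H _ t14437.2.2.2.1⟩, ⟨H _ t14437.2.2.2.2.1, ⟨H _ t14437.2.2.2.2.2.1, H _ t14437.2.2.2.2.2.2.1⟩⟩⟩⟩⟩, ⟨⟨⟨⟨H _ t14437.2.2.2.2.2.2.2, H _ t14445.1⟩, ⟨H _ t14445.2.1, H _ t14445.2.2.1⟩⟩, ⟨⟨H _ t14445.2.2.2.1, H _ t14445.2.2.2.2.1⟩, ⟨H _ t14445.2.2.2.2.2.1, ⟨H _ t14445.2.2.2.2.2.2.1, H _ t14445.2.2.2.2.2.2.2⟩⟩⟩⟩, ⟨⟨⟨H _ t14453.1, H _ t14453.2.1⟩, ⟨H _ t14453.2.2.1, H _ t14453.2.2.2.1⟩⟩, ⟨⟨H _ t14453.2.2.2.2.1, H _ t14453.2.2.2.2.2.1⟩, ⟨H _ t14453.2.2.2.2.2.2.1, ⟨H _ t14453.2.2.2.2.2.2.2, H _ t14461.1⟩⟩⟩⟩⟩⟩, ⟨⟨⟨⟨⟨H _ t14461.2.1, H _ t14461.2.2.1⟩, ⟨H _ t14461.2.2.2.1, H _ t14461.2.2.2.2.1⟩⟩, ⟨⟨H _ t14461.2.2.2.2.2.1, H _ t14461.2.2.2.2.2.2.1⟩, ⟨H _ t14461.2.2.2.2.2.2.2, H _ t14469.1⟩⟩⟩, ⟨⟨⟨H _ t14469.2.1, H _ t14469.2.2.1⟩, ⟨H _ t14469.2.2.2.1, H _ t14469.2.2.2.2.1⟩⟩, ⟨⟨H _ t14469.2.2.2.2.2.1,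 H _ t14469.2.2.2.2.2.2.1⟩, ⟨H _ t14469.2.2.2.2.2.2.2, ⟨H _ t14477.1, H _ t14477.2.1⟩⟩⟩⟩⟩, ⟨⟨⟨⟨H _ t14477.2.2.1, H _ t14477.2.2.2.1⟩, ⟨H _ t14477.2.2.2.2.1, H _ t14477.2.2.2.2.2.1⟩⟩, ⟨⟨H _ t14477.2.2.2.2.2.2.1, H _ t14477.2.2.2.2.2.2.2⟩, ⟨H _ t14485.1, ⟨H _ t14485.2.1, H _ t14485.2.2.1⟩⟩⟩⟩, ⟨⟨⟨H _ t14485.2.2.2.1, H _ t14485.2.2.2.2.1⟩, ⟨H _ t14485.2.2.2.2.2.1, H _ t14485.2.2.2.2.2.2.1⟩⟩, ⟨⟨H _ t14485.2.2.2.2.2.2.2, H _ t14493.1⟩, ⟨H _ t14493.2.1, ⟨H _ t14493.2.2.1, H _ t14493.2.2.2.1⟩⟩⟩⟩⟩⟩⟩, ⟨⟨⟨⟨⟨⟨H _ t14493.2.2.2.2.1, H _ t14493.2.2.2.2.2.1⟩, ⟨H _ t14493.2.2.2.2.2.2.1, H _ t14493.2.2.2.2.2.2.2⟩⟩, ⟨⟨H _ t14501.1, H _ t14501.2.1⟩, ⟨H _ t14501.2.2.1, H _ t14501.2.2.2.1⟩⟩⟩, ⟨⟨⟨H _ t14501.2.2.2.2.1, H _ t14501.2.2.2.2.2.1⟩, ⟨H _ t14501.2.2.2.2.2.2.1, H _ t14501.2.2.2.2.2.2.2⟩⟩, ⟨⟨H _ t14509.1, H _ t14509.2.1⟩, ⟨H _ t14509.2.2.1, ⟨H _ t14509.2.2.2.1, H _ t14509.2.2.2.2.1⟩⟩⟩⟩⟩, ⟨⟨⟨⟨H _ t14509.2.2.2.2.2.1,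 H _ t14509.2.2.2.2.2.2.1⟩, ⟨H _ t14509.2.2.2.2.2.2.2, H _ t14517.1⟩⟩, ⟨⟨H _ t14517.2.1, H _ t14517.2.2.1⟩, ⟨H _ t14517.2.2.2.1, ⟨H _ t14517.2.2.2.2.1, H _ t14517.2.2.2.2.2.1⟩⟩⟩⟩, ⟨⟨⟨H _ t14517.2.2.2.2.2.2.1, H _ t14517.2.2.2.2.2.2.2⟩, ⟨H _ t14525.1, H _ t14525.2.1⟩⟩, ⟨⟨H _ t14525.2.2.1, H _ t14525.2.2.2.1⟩, ⟨H _ t14525.2.2.2.2.1, ⟨H _ t14525.2.2.2.2.2.1, H _ t14525.2.2.2.2.2.2.1⟩⟩⟩⟩⟩⟩, ⟨⟨⟨⟨⟨H _ t14525.2.2.2.2.2.2.2, H _ t14533.1⟩, ⟨H _ t14533.2.1, H _ t14533.2.2.1⟩⟩, ⟨⟨H _ t14533.2.2.2.1, H _ t14533.2.2.2.2.1⟩, ⟨H _ t14533.2.2.2.2.2.1, ⟨H _ t14533.2.2.2.2.2.2.1, H _ t14533.2.2.2.2.2.2.2⟩⟩⟩⟩, ⟨⟨⟨H _ t14541.1, H _ t14541.2.1⟩, ⟨H _ t14541.2.2.1, H _ t14541.2.2.2.1⟩⟩, ⟨⟨H _ t14541.2.2.2.2.1, H _ t14541.2.2.2.2.2.1⟩, ⟨H _ t14541.2.2.2.2.2.2.1, ⟨H _ t14541.2.2.2.2.2.2.2, H _ t14549.1⟩⟩⟩⟩⟩, ⟨⟨⟨⟨H _ t14549.2.1, H _ t14549.2.2.1⟩, ⟨H _ t14549.2.2.2.1, H _ t14549.2.2.2.2.1⟩⟩, ⟨⟨H _ t14549.2.2.2.2.2.1,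 H _ t14549.2.2.2.2.2.2.1⟩, ⟨H _ t14549.2.2.2.2.2.2.2, ⟨H _ t14557.1, H _ t14557.2.1⟩⟩⟩⟩, ⟨⟨⟨H _ t14557.2.2.1, H _ t14557.2.2.2.1⟩, ⟨H _ t14557.2.2.2.2.1, H _ t14557.2.2.2.2.2.1⟩⟩, ⟨⟨H _ t14557.2.2.2.2.2.2.1, H _ t14557.2.2.2.2.2.2.2⟩, ⟨H _ t14565.1, ⟨H _ t14565.2.1, H _ t14565.2.2⟩⟩⟩⟩⟩⟩⟩⟩⟩⟩

end Pool.Agent.MP_c853c5_nt.X.C4950
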