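import Pool.Agent.MP_c853c5_nt.X.C4950.Env
import Pool.Agent.MP_c853c5_nt.X.C4950.D5

set_option autoImplicit false
set_option maxRecDepth 8192
set_option linter.all false

namespace Pool.Agent.MP_c853c5_nt.X.C4950

open Pool.Agent.MP_c853c5_nt.X

def t14568 : allY (E.wth (lkp [])) l14568 = true ∧
    allY (E.wth (lkp [])) l14569 = true ∧
    allY (E.wth (lkp [])) l14570 = true ∧
    allY (E.wth (lkp [])) l14571 = true ∧
    allY (E.wth (lkp [])) l14572 = true ∧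
    allY (E.wth (lkp [])) l14573 = true ∧
    allY (E.wth (lkp [])) l14574 = true ∧
    allY (E.wth (lkp [])) l14575 = true :=
  ⟨by decide +kernel, by decide +kernel, by decide +kernel, by decide +kernel, by decide +kernel, by decide +kernel, by decide +kernel, by decide +kernel⟩

def t14576 : allY (E.wth (lkp [])) l14576 = true ∧
    allY (E.wth (lkp [])) l14577 = true ∧
    allY (E.wth (lkp [])) l14578 = true ∧
    allY (E.wth (lkp [])) l14579 = true ∧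
    allY (E.wth (lkp [])) l14580 = true ∧
    allY (E.wth (lkp [])) l14581 = true ∧
    allY (E.wth (lkp [])) l14582 = true ∧
    allY (E.wth (lkp [])) l14583 = true :=
  ⟨by decide +kernel, by decide +kernel, by decide +kernel, by decide +kernel, by decide +kernel, by decide +kernel, by decide +kernel, by decide +kernel⟩

def t14584 : allY (E.wth (lkp [])) l14584 = true ∧
    allY (E.wth (lkp [])) l14585 = true ∧
    allY (E.wth (lkp [])) l14586 = true ∧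
    allY (E.wth (lkp [])) l14587 = true ∧
    allY (E.wth (lkp [])) l14588 = true ∧
    allY (E.wth (lkp [])) l14589 = true ∧
    allY (E.wth (lkp [])) l14590 = true ∧
    allY (E.wth (lkp [])) l14591 = true :=
  ⟨by decide +kernel, by decide +kernel, by decide +kernel, by decide +kernel, by decide +kernel, by decide +kernel, by decide +kernel, by decide +kernel⟩

def t14592 : allY (E.wth (lkp [])) l14592 = true ∧
    allY (E.wth (lkp [])) l14593 = true ∧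
    allY (E.wth (lkp [])) l14594 = true ∧
    allY (E.wth (lkp [])) l14595 = true ∧
    allY (E.wth (lkp [])) l14596 = true ∧
    allY (E.wth (lkp [])) l14597 = true ∧
    allY (E.wth (lkp [])) l14598 = true ∧
    allY (E.wth (lkp [])) l14599 = true :=
  ⟨by decide +kernel, by decide +kernel, by decide +kernel, by decide +kernel, by decide +kernel, by decide +kernel, by decide +kernel, by decide +kernel⟩

def t14600 : allY (E.wth (lkp [])) l14600 = true ∧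
    allY (E.wth (lkp [])) l14601 = true ∧
    allY (E.wth (lkp [])) l14602 = true ∧
    allY (E.wth (lkp [])) l14603 = true ∧
    allY (E.wth (lkp [])) l14604 = true ∧
    allY (E.wth (lkp [])) l14605 = true ∧
    allY (E.wth (lkp [])) l14606 = true ∧
    allY (E.wth (lkp [])) l14607 = true :=
  ⟨by decide +kernel, by decide +kernel, by decide +kernel, by decide +kernel, by decide +kernel, by decide +kernel, by decide +kernel, by decide +kernel⟩

def t14608 : allY (E.wth (lkp [])) l14608 = true ∧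
    allY (E.wth (lkp [])) l14609 = true ∧
    allY (E.wth (lkp [])) l14610 = true ∧
    allY (E.wth (lkp [])) l14611 = true ∧
    allY (E.wth (lkp [])) l14612 = true ∧
    allY (E.wth (lkp [])) l14613 = true ∧
    allY (E.wth (lkp [])) l14614 = true ∧
    allY (E.wth (lkp [])) l14615 = true :=
  ⟨by decide +kernel, by decide +kernel, by decide +kernel, by decide +kernel, by decide +kernel, by decide +kernel, by decide +kernel, by decide +kernel⟩

def t14616 : allY (E.wth (lkp [])) l14616 = true ∧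
    allY (E.wth (lkp [])) l14617 = true ∧
    allY (E.wth (lkp [])) l14618 = true ∧
    allY (E.wth (lkp [])) l14619 = true ∧
    allY (E.wth (lkp [])) l14620 = true ∧
    allY (E.wth (lkp [])) l14621 = true ∧
    allY (E.wth (lkp [])) l14622 = true ∧
    allY (E.wth (lkp [])) l14623 = true :=
  ⟨by decide +kernel, by decide +kernel, by decide +kernel, by decide +kernel, by decide +kernel, by decide +kernel, by decide +kernel, by decide +kernel⟩

def t14624 : allY (E.wth (lkp [])) l14624 = true ∧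
    allY (E.wth (lkp [])) l14625 = true ∧
    allY (E.wth (lkp [])) l14626 = true ∧
    allY (E.wth (lkp [])) l14627 = true ∧
    allY (E.wth (lkp [])) l14628 = true ∧
    allY (E.wth (lkp [])) l14629 = true ∧
    allY (E.wth (lkp [])) l14630 = true ∧
    allY (E.wth (lkp [])) l14631 = true :=
  ⟨by decide +kernel, by decide +kernel, by decide +kernel, by decide +kernel, by decide +kernel, by decide +kernel, by decide +kernel, by decide +kernel⟩

def t14632 : allY (E.wth (lkp [])) l14632 = true ∧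
    allY (E.wth (lkp [])) l14633 = true ∧
    allY (E.wth (lkp [])) l14634 = true ∧
    allY (E.wth (lkp [])) l14635 = true ∧
    allY (E.wth (lkp [])) l14636 = true ∧
    allY (E.wth (lkp [])) l14637 = true ∧
    allY (E.wth (lkp [])) l14638 = true ∧
    allY (E.wth (lkp [])) l14639 = true :=
  ⟨by decide +kernel, by decide +kernel, by decide +kernel, by decide +kernel, by decide +kernel, by decide +kernel, by decide +kernel, by decide +kernel⟩

def t14640 : allY (E.wth (lkp [])) l14640 = true ∧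
    allY (E.wth (lkp [])) l14641 = true ∧
    allY (E.wth (lkp [])) l14642 = true ∧
    allY (E.wth (lkp [])) l14643 = true ∧
    allY (E.wth (lkp [])) l14644 = true ∧
    allY (E.wth (lkp [])) l14645 = true ∧
    allY (E.wth (lkp [])) l14646 = true ∧
    allY (E.wth (lkp [])) l14647 = true :=
  ⟨by decide +kernel, by decide +kernel, by decide +kernel, by decide +kernel, by decide +kernel, by decide +kernel, by decide +kernel, by decide +kernel⟩

def t14648 : allY (E.wth (lkp [])) l14648 = true ∧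
    allY (E.wth (lkp [])) l14649 = true ∧
    allY (E.wth (lkp [])) l14650 = true ∧
    allY (E.wth (lkp [])) l14651 = true ∧
    allY (E.wth (lkp [])) l14652 = true ∧
    allY (E.wth (lkp [])) l14653 = true ∧
    allY (E.wth (lkp [])) l14654 = true ∧
    allY (E.wth (lkp [])) l14655 = true :=
  ⟨by decide +kernel, by decide +kernel, by decide +kernel, by decide +kernel, by decide +kernel, by decide +kernel, by decide +kernel, by decide +kernel⟩

def t14656 : allY (E.wth (lkp [])) l14656 = true ∧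
    allY (E.wth (lkp [])) l14657 = true ∧
    allY (E.wth (lkp [])) l14658 = true ∧
    allY (E.wth (lkp [])) l14659 = true ∧
    allY (E.wth (lkp [])) l14660 = true ∧
    allY (E.wth (lkp [])) l14661 = true ∧
    allY (E.wth (lkp [])) l14662 = true ∧
    allY (E.wth (lkp [])) l14663 = true :=
  ⟨by decide +kernel, by decide +kernel, by decide +kernel, by decide +kernel, by decide +kernel, by decide +kernel, by decide +kernel, by decide +kernel⟩

def t14664 : allY (E.wth (lkp [])) l14664 = true ∧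
    allY (E.wth (lkp [])) l14665 = true ∧
    allY (E.wth (lkp [])) l14666 = true ∧
    allY (E.wth (lkp [])) l14667 = true ∧
    allY (E.wth (lkp [])) l14668 = true ∧
    allY (E.wth (lkp [])) l14669 = true ∧
    allY (E.wth (lkp [])) l14670 = true ∧
    allY (E.wth (lkp [])) l14671 = true :=
  ⟨by decide +kernel, by decide +kernel, by decide +kernel, by decide +kernel, by decide +kernel, by decide +kernel, by decide +kernel, by decide +kernel⟩

def t14672 : allY (E.wth (lkp [])) l14672 = true ∧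
    allY (E.wth (lkp [])) l14673 = true ∧
    allY (E.wth (lkp [])) l14674 = true ∧
    allY (E.wth (lkp [])) l14675 = true ∧
    allY (E.wth (lkp [])) l14676 = true ∧
    allY (E.wth (lkp [])) l14677 = true ∧
    allY (E.wth (lkp [])) l14678 = true ∧
    allY (E.wth (lkp [])) l14679 = true :=
  ⟨by decide +kernel, by decide +kernel, by decide +kernel, by decide +kernel, by decide +kernel, by decide +kernel, by decide +kernel, by decide +kernel⟩

def t14680 : allY (E.wth (lkp [])) l14680 = true ∧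
    allY (E.wth (lkp [])) l14681 = true ∧
    allY (E.wth (lkp [])) l14682 = true ∧
    allY (E.wth (lkp [])) l14683 = true ∧
    allY (E.wth (lkp [])) l14684 = true ∧
    allY (E.wth (lkp [])) l14685 = true ∧
    allY (E.wth (lkp [])) l14686 = true ∧
    allY (E.wth (lkp [])) l14687 = true :=
  ⟨by decide +kernel, by decide +kernel, by decide +kernel, by decide +kernel, by decide +kernel, by decide +kernel, by decide +kernel, by decide +kernel⟩

def t14688 : allY (E.wth (lkp [])) l14688 = true ∧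
    allY (E.wth (lkp [])) l14689 = true ∧
    allY (E.wth (lkp [])) l14690 = true ∧
    allY (E.wth (lkp [])) l14691 = true ∧
    allY (E.wth (lkp [])) l14692 = true ∧
    allY (E.wth (lkp [])) l14693 = true ∧
    allY (E.wth (lkp [])) l14694 = true ∧
    allY (E.wth (lkp [])) l14695 = true :=
  ⟨by decide +kernel, by decide +kernel, by decide +kernel, by decide +kernel, by decide +kernel, by decide +kernel, by decide +kernel, by decide +kernel⟩

def t14696 : allY (E.wth (lkp [])) l14696 = true ∧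
    allY (E.wth (lkp [])) l14697 = true ∧
    allY (E.wth (lkp [])) l14698 = true ∧
    allY (E.wth (lkp [])) l14699 = true ∧
    allY (E.wth (lkp [])) l14700 = true ∧
    allY (E.wth (lkp [])) l14701 = true ∧
    allY (E.wth (lkp [])) l14702 = true ∧
    allY (E.wth (lkp [])) l14703 = true :=
  ⟨by decide +kernel, by decide +kernel, by decide +kernel, by decide +kernel, by decide +kernel, by decide +kernel, by decide +kernel, by decide +kernel⟩

def t14704 : allY (E.wth (lkp [])) l14704 = true ∧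
    allY (E.wth (lkp [])) l14705 = true ∧
    allY (E.wth (lkp [])) l14706 = true ∧
    allY (E.wth (lkp [])) l14707 = true ∧
    allY (E.wth (lkp [])) l14708 = true ∧
    allY (E.wth (lkp [])) l14709 = true ∧
    allY (E.wth (lkp [])) l14710 = true ∧
    allY (E.wth (lkp [])) l14711 = true :=
  ⟨by decide +kernel, by decide +kernel, by decide +kernel, by decide +kernel, by decide +kernel, by decide +kernel, by decide +kernel, by decide +kernel⟩

def t14712 : allY (E.wth (lkp [])) l14712 = true ∧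
    allY (E.wth (lkp [])) l14713 = true ∧
    allY (E.wth (lkp [])) l14714 = true ∧
    allY (E.wth (lkp [])) l14715 = true ∧
    allY (E.wth (lkp [])) l14716 = true ∧
    allY (E.wth (lkp [])) l14717 = true ∧
    allY (E.wth (lkp [])) l14718 = true ∧
    allY (E.wth (lkp [])) l14719 = true :=
  ⟨by decide +kernel, by decide +kernel, by decide +kernel, by decide +kernel, by decide +kernel, by decide +kernel, by decide +kernel, by decide +kernel⟩

def t14720 : allY (E.wth (lkp [])) l14720 = true ∧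
    allY (E.wth (lkp [])) l14721 = true ∧
    allY (E.wth (lkp [])) l14722 = true ∧
    allY (E.wth (lkp [])) l14723 = true ∧
    allY (E.wth (lkp [])) l14724 = true ∧
    allY (E.wth (lkp [])) l14725 = true ∧
    allY (E.wth (lkp [])) l14726 = true ∧
    allY (E.wth (lkp [])) l14727 = true :=
  ⟨by decide +kernel, by decide +kernel, by decide +kernel, by decide +kernel, by decide +kernel, by decide +kernel, by decide +kernel, by decide +kernel⟩

def t14728 : allY (E.wth (lkp [])) l14728 = true ∧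
    allY (E.wth (lkp [])) l14729 = true ∧
    allY (E.wth (lkp [])) l14730 = true ∧
    allY (E.wth (lkp [])) l14731 = true ∧
    allY (E.wth (lkp [])) l14732 = true ∧
    allY (E.wth (lkp [])) l14733 = true ∧
    allY (E.wth (lkp [])) l14734 = true ∧
    allY (E.wth (lkp [])) l14735 = true :=
  ⟨by decide +kernel, by decide +kernel, by decide +kernel, by decide +kernel, by decide +kernel, by decide +kernel, by decide +kernel, by decide +kernel⟩

def t14736 : allY (E.wth (lkp [])) l14736 = true ∧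
    allY (E.wth (lkp [])) l14737 = true ∧
    allY (E.wth (lkp [])) l14738 = true ∧
    allY (E.wth (lkp [])) l14739 = true ∧
    allY (E.wth (lkp [])) l14740 = true ∧
    allY (E.wth (lkp [])) l14741 = true ∧
    allY (E.wth (lkp [])) l14742 = true ∧
    allY (E.wth (lkp [])) l14743 = true :=
  ⟨by decide +kernel, by decide +kernel, by decide +kernel, by decide +kernel, by decide +kernel, by decide +kernel, by decide +kernel, by decide +kernel⟩

def t14744 : allY (E.wth (lkp [])) l14744 = true ∧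
    allY (E.wth (lkp [])) l14745 = true ∧
    allY (E.wth (lkp [])) l14746 = true ∧
    allY (E.wth (lkp [])) l14747 = true ∧
    allY (E.wth (lkp [])) l14748 = true ∧
    allY (E.wth (lkp [])) l14749 = true ∧
    allY (E.wth (lkp [])) l14750 = true ∧
    allY (E.wth (lkp [])) l14751 = true :=
  ⟨by decide +kernel, by decide +kernel, by decide +kernel, by decide +kernel, by decide +kernel, by decide +kernel, by decide +kernel, by decide +kernel⟩

def t14752 : allY (E.wth (lkp [])) l14752 = true ∧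
    allY (E.wth (lkp [])) l14753 = true ∧
    allY (E.wth (lkp [])) l14754 = true ∧
    allY (E.wth (lkp [])) l14755 = true ∧
    allY (E.wth (lkp [])) l14756 = true ∧
    allY (E.wth (lkp [])) l14757 = true ∧
    allY (E.wth (lkp [])) l14758 = true ∧
    allY (E.wth (lkp [])) l14759 = true :=
  ⟨by decide +kernel, by decide +kernel, by decide +kernel, by decide +kernel, by decide +kernel, by decide +kernel, by decide +kernel, by decide +kernel⟩

def t14760 : allY (E.wth (lkp [])) l14760 = true ∧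
    allY (E.wth (lkp [])) l14761 = true ∧
    allY (E.wth (lkp [])) l14762 = true ∧
    allY (E.wth (lkp [])) l14763 = true ∧
    allY (E.wth (lkp [])) l14764 = true ∧
    allY (E.wth (lkp [])) l14765 = true ∧
    allY (E.wth (lkp [])) l14766 = true ∧
    allY (E.wth (lkp [])) l14767 = true :=
  ⟨by decide +kernel, by decide +kernel, by decide +kernel, by decide +kernel, by decide +kernel, by decide +kernel, by decide +kernel, by decide +kernel⟩

def t14768 : allY (E.wth (lkp [])) l14768 = true ∧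
    allY (E.wth (lkp [])) l14769 = true ∧
    allY (E.wth (lkp [])) l14770 = true ∧
    allY (E.wth (lkp [])) l14771 = true ∧
    allY (E.wth (lkp [])) l14772 = true ∧
    allY (E.wth (lkp [])) l14773 = true ∧
    allY (E.wth (lkp [])) l14774 = true ∧
    allY (E.wth (lkp [])) l14775 = true :=
  ⟨by decide +kernel, by decide +kernel, by decide +kernel, by decide +kernel, by decide +kernel, by decide +kernel, by decide +kernel, by decide +kernel⟩

def t14776 : allY (E.wth (lkp [])) l14776 = true ∧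
    allY (E.wth (lkp [])) l14777 = true ∧
    allY (E.wth (lkp [])) l14778 = true ∧
    allY (E.wth (lkp [])) l14779 = true ∧
    allY (E.wth (lkp [])) l14780 = true ∧
    allY (E.wth (lkp [])) l14781 = true ∧
    allY (E.wth (lkp [])) l14782 = true ∧
    allY (E.wth (lkp [])) l14783 = true :=
  ⟨by decide +kernel, by decide +kernel, by decide +kernel, by decide +kernel, by decide +kernel, by decide +kernel, by decide +kernel, by decide +kernel⟩

def t14784 : allY (E.wth (lkp [])) l14784 = true ∧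
    allY (E.wth (lkp [])) l14785 = true ∧
    allY (E.wth (lkp [])) l14786 = true ∧
    allY (E.wth (lkp [])) l14787 = true ∧
    allY (E.wth (lkp [])) l14788 = true ∧
    allY (E.wth (lkp [])) l14789 = true ∧
    allY (E.wth (lkp [])) l14790 = true ∧
    allY (E.wth (lkp [])) l14791 = true :=
  ⟨by decide +kernel, by decide +kernel, by decide +kernel, by decide +kernel, by decide +kernel, by decide +kernel, by decide +kernel, by decide +kernel⟩

def t14792 : allY (E.wth (lkp [])) l14792 = true ∧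
    allY (E.wth (lkp [])) l14793 = true ∧
    allY (E.wth (lkp [])) l14794 = true ∧
    allY (E.wth (lkp [])) l14795 = true ∧
    allY (E.wth (lkp [])) l14796 = true ∧
    allY (E.wth (lkp [])) l14797 = true ∧
    allY (E.wth (lkp [])) l14798 = true ∧
    allY (E.wth (lkp [])) l14799 = true :=
  ⟨by decide +kernel, by decide +kernel, by decide +kernel, by decide +kernel, by decide +kernel, by decide +kernel, by decide +kernel, by decide +kernel⟩

def t14800 : allY (E.wth (lkp [])) l14800 = true ∧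
    allY (E.wth (lkp [])) l14801 = true ∧
    allY (E.wth (lkp [])) l14802 = true ∧
    allY (E.wth (lkp [])) l14803 = true ∧
    allY (E.wth (lkp [])) l14804 = true ∧
    allY (E.wth (lkp [])) l14805 = true ∧
    allY (E.wth (lkp [])) l14806 = true ∧
    allY (E.wth (lkp [])) l14807 = true :=
  ⟨by decide +kernel, by decide +kernel, by decide +kernel, by decide +kernel, by decide +kernel, by decide +kernel, by decide +kernel, by decide +kernel⟩

def t14808 : allY (E.wth (lkp [])) l14808 = true ∧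
    allY (E.wth (lkp [])) l14809 = true ∧
    allY (E.wth (lkp [])) l14810 = true ∧
    allY (E.wth (lkp [])) l14811 = true ∧
    allY (E.wth (lkp [])) l14812 = true ∧
    allY (E.wth (lkp [])) l14813 = true ∧
    allY (E.wth (lkp [])) l14814 = true ∧
    allY (E.wth (lkp [])) l14815 = true :=
  ⟨by decide +kernel, by decide +kernel, by decide +kernel, by decide +kernel, by decide +kernel, by decide +kernel, by decide +kernel, by decide +kernel⟩

def t14816 : allY (E.wth (lkp [])) l14816 = true ∧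
    allY (E.wth (lkp [])) l14817 = true ∧
    allY (E.wth (lkp [])) l14818 = true ∧
    allY (E.wth (lkp [])) l14819 = true ∧
    allY (E.wth (lkp [])) l14820 = true ∧
    allY (E.wth (lkp [])) l14821 = true ∧
    allY (E.wth (lkp [])) l14822 = true ∧
    allY (E.wth (lkp [])) l14823 = true :=
  ⟨by decide +kernel, by decide +kernel, by decide +kernel, by decide +kernel, by decide +kernel, by decide +kernel, by decide +kernel, by decide +kernel⟩

def t14824 : allY (E.wth (lkp [])) l14824 = true ∧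
    allY (E.wth (lkp [])) l14825 = true ∧
    allY (E.wth (lkp [])) l14826 = true ∧
    allY (E.wth (lkp [])) l14827 = true ∧
    allY (E.wth (lkp [])) l14828 = true ∧
    allY (E.wth (lkp [])) l14829 = true ∧
    allY (E.wth (lkp [])) l14830 = true ∧
    allY (E.wth (lkp [])) l14831 = true :=
  ⟨by decide +kernel, by decide +kernel, by decide +kernel, by decide +kernel, by decide +kernel, by decide +kernel, by decide +kernel, by decide +kernel⟩

def t14832 : allY (E.wth (lkp [])) l14832 = true ∧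
    allY (E.wth (lkp [])) l14833 = true ∧
    allY (E.wth (lkp [])) l14834 = true ∧
    allY (E.wth (lkp [])) l14835 = true ∧
    allY (E.wth (lkp [])) l14836 = true ∧
    allY (E.wth (lkp [])) l14837 = true ∧
    allY (E.wth (lkp [])) l14838 = true ∧
    allY (E.wth (lkp [])) l14839 = true :=
  ⟨by decide +kernel, by decide +kernel, by decide +kernel, by decide +kernel, by decide +kernel, by decide +kernel, by decide +kernel, by decide +kernel⟩

def t14840 : allY (E.wth (lkp [])) l14840 = true ∧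
    allY (E.wth (lkp [])) l14841 = true ∧
    allY (E.wth (lkp [])) l14842 = true ∧
    allY (E.wth (lkp [])) l14843 = true ∧
    allY (E.wth (lkp [])) l14844 = true ∧
    allY (E.wth (lkp [])) l14845 = true ∧
    allY (E.wth (lkp [])) l14846 = true ∧
    allY (E.wth (lkp [])) l14847 = true :=
  ⟨by decide +kernel, by decide +kernel, by decide +kernel, by decide +kernel, by decide +kernel, by decide +kernel, by decide +kernel, by decide +kernel⟩

def t14848 : allY (E.wth (lkp [])) l14848 = true ∧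
    allY (E.wth (lkp [])) l14849 = true ∧
    allY (E.wth (lkp [])) l14850 = true ∧
    allY (E.wth (lkp [])) l14851 = true ∧
    allY (E.wth (lkp [])) l14852 = true ∧
    allY (E.wth (lkp [])) l14853 = true ∧
    allY (E.wth (lkp [])) l14854 = true ∧
    allY (E.wth (lkp [])) l14855 = true :=
  ⟨by decide +kernel, by decide +kernel, by decide +kernel, by decide +kernel, by decide +kernel, by decide +kernel, by decide +kernel, by decide +kernel⟩

def t14856 : allY (E.wth (lkp [])) l14856 = true ∧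
    allY (E.wth (lkp [])) l14857 = true ∧
    allY (E.wth (lkp [])) l14858 = true ∧
    allY (E.wth (lkp [])) l14859 = true ∧
    allY (E.wth (lkp [])) l14860 = true ∧
    allY (E.wth (lkp [])) l14861 = true ∧
    allY (E.wth (lkp [])) l14862 = true ∧
    allY (E.wth (lkp [])) l14863 = true :=
  ⟨by decide +kernel, by decide +kernel, by decide +kernel, by decide +kernel, by decide +kernel, by decide +kernel, by decide +kernel, by decide +kernel⟩

def t14864 : allY (E.wth (lkp [])) l14864 = true ∧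
    allY (E.wth (lkp [])) l14865 = true ∧
    allY (E.wth (lkp [])) l14866 = true ∧
    allY (E.wth (lkp [])) l14867 = true ∧
    allY (E.wth (lkp [])) l14868 = true ∧
    allY (E.wth (lkp [])) l14869 = true ∧
    allY (E.wth (lkp [])) l14870 = true ∧
    allY (E.wth (lkp [])) l14871 = true :=
  ⟨by decide +kernel, by decide +kernel, by decide +kernel, by decide +kernel, by decide +kernel, by decide +kernel, by decide +kernel, by decide +kernel⟩

def t14872 : allY (E.wth (lkp [])) l14872 = true ∧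
    allY (E.wth (lkp [])) l14873 = true ∧
    allY (E.wth (lkp [])) l14874 = true ∧
    allY (E.wth (lkp [])) l14875 = true ∧
    allY (E.wth (lkp [])) l14876 = true ∧
    allY (E.wth (lkp [])) l14877 = true ∧
    allY (E.wth (lkp [])) l14878 = true ∧
    allY (E.wth (lkp [])) l14879 = true :=
  ⟨by decide +kernel, by decide +kernel, by decide +kernel, by decide +kernel, by decide +kernel, by decide +kernel, by decide +kernel, by decide +kernel⟩

def t14880 : allY (E.wth (lkp [])) l14880 = true ∧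
    allY (E.wth (lkp [])) l14881 = true ∧
    allY (E.wth (lkp [])) l14882 = true ∧
    allY (E.wth (lkp [])) l14883 = true ∧
    allY (E.wth (lkp [])) l14884 = true ∧
    allY (E.wth (lkp [])) l14885 = true ∧
    allY (E.wth (lkp [])) l14886 = true ∧
    allY (E.wth (lkp [])) l14887 = true :=
  ⟨by decide +kernel, by decide +kernel, by decide +kernel, by decide +kernel, by decide +kernel, by decide +kernel, by decide +kernel, by decide +kernel⟩

def t14888 : allY (E.wth (lkp [])) l14888 = true ∧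
    allY (E.wth (lkp [])) l14889 = true ∧
    allY (E.wth (lkp [])) l14890 = true ∧
    allY (E.wth (lkp [])) l14891 = true ∧
    allY (E.wth (lkp [])) l14892 = true ∧
    allY (E.wth (lkp [])) l14893 = true ∧
    allY (E.wth (lkp [])) l14894 = true ∧
    allY (E.wth (lkp [])) l14895 = true :=
  ⟨by decide +kernel, by decide +kernel, by decide +kernel, by decide +kernel, by decide +kernel, by decide +kernel, by decide +kernel, by decide +kernel⟩

def t14896 : allY (E.wth (lkp [])) l14896 = true ∧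
    allY (E.wth (lkp [])) l14897 = true ∧
    allY (E.wth (lkp [])) l14898 = true ∧
    allY (E.wth (lkp [])) l14899 = true ∧
    allY (E.wth (lkp [])) l14900 = true ∧
    allY (E.wth (lkp [])) l14901 = true ∧
    allY (E.wth (lkp [])) l14902 = true ∧
    allY (E.wth (lkp [])) l14903 = true :=
  ⟨by decide +kernel, by decide +kernel, by decide +kernel, by decide +kernel, by decide +kernel, by decide +kernel, by decide +kernel, by decide +kernel⟩

def t14904 : allY (E.wth (lkp [])) l14904 = true ∧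
    allY (E.wth (lkp [])) l14905 = true ∧
    allY (E.wth (lkp [])) l14906 = true ∧
    allY (E.wth (lkp [])) l14907 = true ∧
    allY (E.wth (lkp [])) l14908 = true ∧
    allY (E.wth (lkp [])) l14909 = true ∧
    allY (E.wth (lkp [])) l14910 = true ∧
    allY (E.wth (lkp [])) l14911 = true :=
  ⟨by decide +kernel, by decide +kernel, by decide +kernel, by decide +kernel, by decide +kernel, by decide +kernel, by decide +kernel, by decide +kernel⟩

def t14912 : allY (E.wth (lkp [])) l14912 = true ∧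
    allY (E.wth (lkp [])) l14913 = true ∧
    allY (E.wth (lkp [])) l14914 = true ∧
    allY (E.wth (lkp [])) l14915 = true ∧
    allY (E.wth (lkp [])) l14916 = true ∧
    allY (E.wth (lkp [])) l14917 = true ∧
    allY (E.wth (lkp [])) l14918 = true ∧
    allY (E.wth (lkp [])) l14919 = true :=
  ⟨by decide +kernel, by decide +kernel, by decide +kernel, by decide +kernel, by decide +kernel, by decide +kernel, by decide +kernel, by decide +kernel⟩

def t14920 : allY (E.wth (lkp [])) l14920 = true ∧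
    allY (E.wth (lkp [])) l14921 = true ∧
    allY (E.wth (lkp [])) l14922 = true ∧
    allY (E.wth (lkp [])) l14923 = true ∧
    allY (E.wth (lkp [])) l14924 = true ∧
    allY (E.wth (lkp [])) l14925 = true ∧
    allY (E.wth (lkp [])) l14926 = true ∧
    allY (E.wth (lkp [])) l14927 = true :=
  ⟨by decide +kernel, by decide +kernel, by decide +kernel, by decide +kernel, by decide +kernel, by decide +kernel, by decide +kernel, by decide +kernel⟩

def t14928 : allY (E.wth (lkp [])) l14928 = true ∧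
    allY (E.wth (lkp [])) l14929 = true ∧
    allY (E.wth (lkp [])) l14930 = true ∧
    allY (E.wth (lkp [])) l14931 = true ∧
    allY (E.wth (lkp [])) l14932 = true ∧
    allY (E.wth (lkp [])) l14933 = true ∧
    allY (E.wth (lkp [])) l14934 = true ∧
    allY (E.wth (lkp [])) l14935 = true :=
  ⟨by decide +kernel, by decide +kernel, by decide +kernel, by decide +kernel, by decide +kernel, by decide +kernel, by decide +kernel, by decide +kernel⟩

def t14936 : allY (E.wth (lkp [])) l14936 = true ∧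
    allY (E.wth (lkp [])) l14937 = true ∧
    allY (E.wth (lkp [])) l14938 = true ∧
    allY (E.wth (lkp [])) l14939 = true ∧
    allY (E.wth (lkp [])) l14940 = true ∧
    allY (E.wth (lkp [])) l14941 = true ∧
    allY (E.wth (lkp [])) l14942 = true ∧
    allY (E.wth (lkp [])) l14943 = true :=
  ⟨by decide +kernel, by decide +kernel, by decide +kernel, by decide +kernel, by decide +kernel, by decide +kernel, by decide +kernel, by decide +kernel⟩

def t14944 : allY (E.wth (lkp [])) l14944 = true ∧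
    allY (E.wth (lkp [])) l14945 = true ∧
    allY (E.wth (lkp [])) l14946 = true ∧
    allY (E.wth (lkp [])) l14947 = true ∧
    allY (E.wth (lkp [])) l14948 = true ∧
    allY (E.wth (lkp [])) l14949 = true ∧
    allY (E.wth (lkp [])) l14950 = true ∧
    allY (E.wth (lkp [])) l14951 = true :=
  ⟨by decide +kernel, by decide +kernel, by decide +kernel, by decide +kernel, by decide +kernel, by decide +kernel, by decide +kernel, by decide +kernel⟩

def t14952 : allY (E.wth (lkp [])) l14952 = true ∧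
    allY (E.wth (lkp [])) l14953 = true ∧
    allY (E.wth (lkp [])) l14954 = true ∧
    allY (E.wth (lkp [])) l14955 = true ∧
    allY (E.wth (lkp [])) l14956 = true ∧
    allY (E.wth (lkp [])) l14957 = true ∧
    allY (E.wth (lkp [])) l14958 = true ∧
    allY (E.wth (lkp [])) l14959 = true :=
  ⟨by decide +kernel, by decide +kernel, by decide +kernel, by decide +kernel, by decide +kernel, by decide +kernel, by decide +kernel, by decide +kernel⟩

def t14960 : allY (E.wth (lkp [])) l14960 = true ∧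
    allY (E.wth (lkp [])) l14961 = true ∧
    allY (E.wth (lkp [])) l14962 = true ∧
    allY (E.wth (lkp [])) l14963 = true ∧
    allY (E.wth (lkp [])) l14964 = true ∧
    allY (E.wth (lkp [])) l14965 = true ∧
    allY (E.wth (lkp [])) l14966 = true ∧
    allY (E.wth (lkp [])) l14967 = true :=
  ⟨by decide +kernel, by decide +kernel, by decide +kernel, by decide +kernel, by decide +kernel, by decide +kernel, by decide +kernel, by decide +kernel⟩

def t14968 : allY (E.wth (lkp [])) l14968 = true ∧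
    allY (E.wth (lkp [])) l14969 = true ∧
    allY (E.wth (lkp [])) l14970 = true ∧
    allY (E.wth (lkp [])) l14971 = true ∧
    allY (E.wth (lkp [])) l14972 = true ∧
    allY (E.wth (lkp [])) l14973 = true ∧
    allY (E.wth (lkp [])) l14974 = true ∧
    allY (E.wth (lkp [])) l14975 = true :=
  ⟨by decide +kernel, by decide +kernel, by decide +kernel, by decide +kernel, by decide +kernel, by decide +kernel, by decide +kernel, by decide +kernel⟩

def t14976 : allY (E.wth (lkp [])) l14976 = true ∧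
    allY (E.wth (lkp [])) l14977 = true ∧
    allY (E.wth (lkp [])) l14978 = true ∧
    allY (E.wth (lkp [])) l14979 = true ∧
    allY (E.wth (lkp [])) l14980 = true ∧
    allY (E.wth (lkp [])) l14981 = true ∧
    allY (E.wth (lkp [])) l14982 = true ∧
    allY (E.wth (lkp [])) l14983 = true :=
  ⟨by decide +kernel, by decide +kernel, by decide +kernel, by decide +kernel, by decide +kernel, by decide +kernel, by decide +kernel, by decide +kernel⟩

def t14984 : allY (E.wth (lkp [])) l14984 = true ∧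
    allY (E.wth (lkp [])) l14985 = true ∧
    allY (E.wth (lkp [])) l14986 = true ∧
    allY (E.wth (lkp [])) l14987 = true ∧
    allY (E.wth (lkp [])) l14988 = true ∧
    allY (E.wth (lkp [])) l14989 = true ∧
    allY (E.wth (lkp [])) l14990 = true ∧
    allY (E.wth (lkp [])) l14991 = true :=
  ⟨by decide +kernel, by decide +kernel, by decide +kernel, by decide +kernel, by decide +kernel, by decide +kernel, by decide +kernel, by decide +kernel⟩

def t14992 : allY (E.wth (lkp [])) l14992 = true ∧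
    allY (E.wth (lkp [])) l14993 = true ∧
    allY (E.wth (lkp [])) l14994 = true ∧
    allY (E.wth (lkp [])) l14995 = true ∧
    allY (E.wth (lkp [])) l14996 = true ∧
    allY (E.wth (lkp [])) l14997 = true ∧
    allY (E.wth (lkp [])) l14998 = true ∧
    allY (E.wth (lkp [])) l14999 = true :=
  ⟨by decide +kernel, by decide +kernel, by decide +kernel, by decide +kernel, by decide +kernel, by decide +kernel, by decide +kernel, by decide +kernel⟩

def t15000 : allY (E.wth (lkp [])) l15000 = true ∧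
    allY (E.wth (lkp [])) l15001 = true ∧
    allY (E.wth (lkp [])) l15002 = true ∧
    allY (E.wth (lkp [])) l15003 = true ∧
    allY (E.wth (lkp [])) l15004 = true ∧
    allY (E.wth (lkp [])) l15005 = true ∧
    allY (E.wth (lkp [])) l15006 = true ∧
    allY (E.wth (lkp [])) l15007 = true :=
  ⟨by decide +kernel, by decide +kernel, by decide +kernel, by decide +kernel, by decide +kernel, by decide +kernel, by decide +kernel, by decide +kernel⟩

def t15008 : allY (E.wth (lkp [])) l15008 = true ∧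
    allY (E.wth (lkp [])) l15009 = true ∧
    allY (E.wth (lkp [])) l15010 = true ∧
    allY (E.wth (lkp [])) l15011 = true ∧
    allY (E.wth (lkp [])) l15012 = true ∧
    allY (E.wth (lkp [])) l15013 = true ∧
    allY (E.wth (lkp [])) l15014 = true ∧
    allY (E.wth (lkp [])) l15015 = true :=
  ⟨by decide +kernel, by decide +kernel, by decide +kernel, by decide +kernel, by decide +kernel, by decide +kernel, by decide +kernel, by decide +kernel⟩

def t15016 : allY (E.wth (lkp [])) l15016 = true ∧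
    allY (E.wth (lkp [])) l15017 = true ∧
    allY (E.wth (lkp [])) l15018 = true ∧
    allY (E.wth (lkp [])) l15019 = true ∧
    allY (E.wth (lkp [])) l15020 = true ∧
    allY (E.wth (lkp [])) l15021 = true ∧
    allY (E.wth (lkp [])) l15022 = true ∧
    allY (E.wth (lkp [])) l15023 = true :=
  ⟨by decide +kernel, by decide +kernel, by decide +kernel, by decide +kernel, by decide +kernel, by decide +kernel, by decide +kernel, by decide +kernel⟩

def t15024 : allY (E.wth (lkp [])) l15024 = true ∧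
    allY (E.wth (lkp [])) l15025 = true ∧
    allY (E.wth (lkp [])) l15026 = true ∧
    allY (E.wth (lkp [])) l15027 = true ∧
    allY (E.wth (lkp [])) l15028 = true ∧
    allY (E.wth (lkp [])) l15029 = true ∧
    allY (E.wth (lkp [])) l15030 = true ∧
    allY (E.wth (lkp [])) l15031 = true :=
  ⟨by decide +kernel, by decide +kernel, by decide +kernel, by decide +kernel, by decide +kernel, by decide +kernel, by decide +kernel, by decide +kernel⟩

def t15032 : allY (E.wth (lkp [])) l15032 = true ∧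
    allY (E.wth (lkp [])) l15033 = true ∧
    allY (E.wth (lkp [])) l15034 = true ∧
    allY (E.wth (lkp [])) l15035 = true ∧
    allY (E.wth (lkp [])) l15036 = true ∧
    allY (E.wth (lkp [])) l15037 = true ∧
    allY (E.wth (lkp [])) l15038 = true ∧
    allY (E.wth (lkp [])) l15039 = true :=
  ⟨by decide +kernel, by decide +kernel, by decide +kernel, by decide +kernel, by decide +kernel, by decide +kernel, by decide +kernel, by decide +kernel⟩

def t15040 : allY (E.wth (lkp [])) l15040 = true ∧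
    allY (E.wth (lkp [])) l15041 = true ∧
    allY (E.wth (lkp [])) l15042 = true ∧
    allY (E.wth (lkp [])) l15043 = true ∧
    allY (E.wth (lkp [])) l15044 = true ∧
    allY (E.wth (lkp [])) l15045 = true ∧
    allY (E.wth (lkp [])) l15046 = true ∧
    allY (E.wth (lkp [])) l15047 = true :=
  ⟨by decide +kernel, by decide +kernel, by decide +kernel, by decide +kernel, by decide +kernel, by decide +kernel, by decide +kernel, by decide +kernel⟩

def t15048 : allY (E.wth (lkp [])) l15048 = true ∧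
    allY (E.wth (lkp [])) l15049 = true ∧
    allY (E.wth (lkp [])) l15050 = true ∧
    allY (E.wth (lkp [])) l15051 = true ∧
    allY (E.wth (lkp [])) l15052 = true ∧
    allY (E.wth (lkp [])) l15053 = true ∧
    allY (E.wth (lkp [])) l15054 = true ∧
    allY (E.wth (lkp [])) l15055 = true :=
  ⟨by decide +kernel, by decide +kernel, by decide +kernel, by decide +kernel, by decide +kernel, by decide +kernel, by decide +kernel, by decide +kernel⟩

def t15056 : allY (E.wth (lkp [])) l15056 = true ∧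
    allY (E.wth (lkp [])) l15057 = true ∧
    allY (E.wth (lkp [])) l15058 = true ∧
    allY (E.wth (lkp [])) l15059 = true ∧
    allY (E.wth (lkp [])) l15060 = true ∧
    allY (E.wth (lkp [])) l15061 = true ∧
    allY (E.wth (lkp [])) l15062 = true ∧
    allY (E.wth (lkp [])) l15063 = true :=
  ⟨by decide +kernel, by decide +kernel, by decide +kernel, by decide +kernel, by decide +kernel, by decide +kernel, by decide +kernel, by decide +kernel⟩

def t15064 : allY (E.wth (lkp [])) l15064 = true ∧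
    allY (E.wth (lkp [])) l15065 = true ∧
    allY (E.wth (lkp [])) l15066 = true ∧
    allY (E.wth (lkp [])) l15067 = true ∧
    allY (E.wth (lkp [])) l15068 = true ∧
    allY (E.wth (lkp [])) l15069 = true ∧
    allY (E.wth (lkp [])) l15070 = true ∧
    allY (E.wth (lkp [])) l15071 = true :=
  ⟨by decide +kernel, by decide +kernel, by decide +kernel, by decide +kernel, by decide +kernel, by decide +kernel, by decide +kernel, by decide +kernel⟩

def t15072 : allY (E.wth (lkp [])) l15072 = true ∧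
    allY (E.wth (lkp [])) l15073 = true ∧
    allY (E.wth (lkp [])) l15074 = true ∧
    allY (E.wth (lkp [])) l15075 = true ∧
    allY (E.wth (lkp [])) l15076 = true ∧
    allY (E.wth (lkp [])) l15077 = true ∧
    allY (E.wth (lkp [])) l15078 = true ∧
    allY (E.wth (lkp [])) l15079 = true :=
  ⟨by decide +kernel, by decide +kernel, by decide +kernel, by decide +kernel, by decide +kernel, by decide +kernel, by decide +kernel, by decide +kernel⟩

def t15080 : allY (E.wth (lkp [])) l15080 = true ∧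
    allY (E.wth (lkp [])) l15081 = true ∧
    allY (E.wth (lkp [])) l15082 = true ∧
    allY (E.wth (lkp [])) l15083 = true ∧
    allY (E.wth (lkp [])) l15084 = true ∧
    allY (E.wth (lkp [])) l15085 = true ∧
    allY (E.wth (lkp [])) l15086 = true ∧
    allY (E.wth (lkp [])) l15087 = true :=
  ⟨by decide +kernel, by decide +kernel, by decide +kernel, by decide +kernel, by decide +kernel, by decide +kernel, by decide +kernel, by decide +kernel⟩

def t15088 : allY (E.wth (lkp [])) l15088 = true ∧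
    allY (E.wth (lkp [])) l15089 = true ∧
    allY (E.wth (lkp [])) l15090 = true ∧
    allY (E.wth (lkp [])) l15091 = true ∧
    allY (E.wth (lkp [])) l15092 = true ∧
    allY (E.wth (lkp [])) l15093 = true ∧
    allY (E.wth (lkp [])) l15094 = true ∧
    allY (E.wth (lkp [])) l15095 = true :=
  ⟨by decide +kernel, by decide +kernel, by decide +kernel, by decide +kernel, by decide +kernel, by decide +kernel, by decide +kernel, by decide +kernel⟩

def t15096 : allY (E.wth (lkp [])) l15096 = true ∧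
    allY (E.wth (lkp [])) l15097 = true ∧
    allY (E.wth (lkp [])) l15098 = true ∧
    allY (E.wth (lkp [])) l15099 = true ∧
    allY (E.wth (lkp [])) l15100 = true ∧
    allY (E.wth (lkp [])) l15101 = true ∧
    allY (E.wth (lkp [])) l15102 = true ∧
    allY (E.wth (lkp [])) l15103 = true :=
  ⟨by decide +kernel, by decide +kernel, by decide +kernel, by decide +kernel, by decide +kernel, by decide +kernel, by decide +kernel, by decide +kernel⟩

def t15104 : allY (E.wth (lkp [])) l15104 = true ∧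
    allY (E.wth (lkp [])) l15105 = true ∧
    allY (E.wth (lkp [])) l15106 = true ∧
    allY (E.wth (lkp [])) l15107 = true ∧
    allY (E.wth (lkp [])) l15108 = true ∧
    allY (E.wth (lkp [])) l15109 = true ∧
    allY (E.wth (lkp [])) l15110 = true ∧
    allY (E.wth (lkp [])) l15111 = true :=
  ⟨by decide +kernel, by decide +kernel, by decide +kernel, by decide +kernel, by decide +kernel, by decide +kernel, by decide +kernel, by decide +kernel⟩

def t15112 : allY (E.wth (lkp [])) l15112 = true ∧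
    allY (E.wth (lkp [])) l15113 = true ∧
    allY (E.wth (lkp [])) l15114 = true ∧
    allY (E.wth (lkp [])) l15115 = true ∧
    allY (E.wth (lkp [])) l15116 = true ∧
    allY (E.wth (lkp [])) l15117 = true ∧
    allY (E.wth (lkp [])) l15118 = true ∧
    allY (E.wth (lkp [])) l15119 = true :=
  ⟨by decide +kernel, by decide +kernel, by decide +kernel, by decide +kernel, by decide +kernel, by decide +kernel, by decide +kernel, by decide +kernel⟩

def t15120 : allY (E.wth (lkp [])) l15120 = true ∧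
    allY (E.wth (lkp [])) l15121 = true ∧
    allY (E.wth (lkp [])) l15122 = true ∧
    allY (E.wth (lkp [])) l15123 = true ∧
    allY (E.wth (lkp [])) l15124 = true ∧
    allY (E.wth (lkp [])) l15125 = true ∧
    allY (E.wth (lkp [])) l15126 = true ∧
    allY (E.wth (lkp [])) l15127 = true :=
  ⟨by decide +kernel, by decide +kernel, by decide +kernel, by decide +kernel, by decide +kernel, by decide +kernel, by decide +kernel, by decide +kernel⟩

def t15128 : allY (E.wth (lkp [])) l15128 = true ∧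
    allY (E.wth (lkp [])) l15129 = true ∧
    allY (E.wth (lkp [])) l15130 = true ∧
    allY (E.wth (lkp [])) l15131 = true :=
  ⟨by decide +kernel, by decide +kernel, by decide +kernel, by decide +kernel⟩

theorem a26 {p : Rf → Prop} (H : ∀ l, allY (E.wth (lkp [])) l = true → (lkp l).All p) :
    b26.All p := ⟨⟨⟨⟨⟨⟨⟨⟨⟨H _ t14568.1, H _ t14568.2.1⟩, ⟨H _ t14568.2.2.1, H _ t14568.2.2.2.1⟩⟩, ⟨⟨H _ t14568.2.2.2.2.1, H _ t14568.2.2.2.2.2.1⟩, ⟨H _ t14568.2.2.2.2.2.2.1, H _ t14568.2.2.2.2.2.2.2⟩⟩⟩, ⟨⟨⟨H _ t14576.1, H _ t14576.2.1⟩, ⟨H _ t14576.2.2.1, H _ t14576.2.2.2.1⟩⟩, ⟨⟨H _ t14576.2.2.2.2.1, H _ t14576.2.2.2.2.2.1⟩, ⟨H _ t14576.2.2.2.2.2.2.1, ⟨H _ t14576.2.2.2.2.2.2.2, H _ t14584.1⟩⟩⟩⟩⟩, ⟨⟨⟨⟨H _ t14584.2.1, H _ t14584.2.2.1⟩, ⟨H _ t14584.2.2.2.1, H _ t14584.2.2.2.2.1⟩⟩, ⟨⟨H _ t14584.2.2.2.2.2.1, H _ t14584.2.2.2.2.2.2.1⟩, ⟨H _ t14584.2.2.2.2.2.2.2, ⟨H _ t14592.1, H _ t14592.2.1⟩⟩⟩⟩, ⟨⟨⟨H _ t14592.2.2.1,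 H _ t14592.2.2.2.1⟩, ⟨H _ t14592.2.2.2.2.1, H _ t14592.2.2.2.2.2.1⟩⟩, ⟨⟨H _ t14592.2.2.2.2.2.2.1, H _ t14592.2.2.2.2.2.2.2⟩, ⟨H _ t14600.1, ⟨H _ t14600.2.1, H _ t14600.2.2.1⟩⟩⟩⟩⟩⟩, ⟨⟨⟨⟨⟨H _ t14600.2.2.2.1, H _ t14600.2.2.2.2.1⟩, ⟨H _ t14600.2.2.2.2.2.1, H _ t14600.2.2.2.2.2.2.1⟩⟩, ⟨⟨H _ t14600.2.2.2.2.2.2.2, H _ t14608.1⟩, ⟨H _ t14608.2.1, H _ t14608.2.2.1⟩⟩⟩, ⟨⟨⟨H _ t14608.2.2.2.1, H _ t14608.2.2.2.2.1⟩, ⟨H _ t14608.2.2.2.2.2.1, H _ t14608.2.2.2.2.2.2.1⟩⟩, ⟨⟨H _ t14608.2.2.2.2.2.2.2, H _ t14616.1⟩, ⟨H _ t14616.2.1, ⟨H _ t14616.2.2.1, H _ t14616.2.2.2.1⟩⟩⟩⟩⟩, ⟨⟨⟨⟨H _ t14616.2.2.2.2.1, H _ t14616.2.2.2.2.2.1⟩, ⟨H _ t14616.2.2.2.2.2.2.1, H _ t14616.2.2.2.2.2.2.2⟩⟩, ⟨⟨H _ t14624.1, H _ t14624.2.1⟩, ⟨H _ t14624.2.2.1, ⟨H _ t14624.2.2.2.1, H _ t14624.2.2.2.2.1⟩⟩⟩⟩, ⟨⟨⟨H _ t14624.2.2.2.2.2.1, H _ t14624.2.2.2.2.2.2.1⟩, ⟨H _ t14624.2.2.2.2.2.2.2, H _ t14632.1⟩⟩, ⟨⟨H _ t14632.2.1, H _ t14632.2.2.1⟩,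 ⟨H _ t14632.2.2.2.1, ⟨H _ t14632.2.2.2.2.1, H _ t14632.2.2.2.2.2.1⟩⟩⟩⟩⟩⟩⟩, ⟨⟨⟨⟨⟨⟨H _ t14632.2.2.2.2.2.2.1, H _ t14632.2.2.2.2.2.2.2⟩, ⟨H _ t14640.1, H _ t14640.2.1⟩⟩, ⟨⟨H _ t14640.2.2.1, H _ t14640.2.2.2.1⟩, ⟨H _ t14640.2.2.2.2.1, H _ t14640.2.2.2.2.2.1⟩⟩⟩, ⟨⟨⟨H _ t14640.2.2.2.2.2.2.1, H _ t14640.2.2.2.2.2.2.2⟩, ⟨H _ t14648.1, H _ t14648.2.1⟩⟩, ⟨⟨H _ t14648.2.2.1, H _ t14648.2.2.2.1⟩, ⟨H _ t14648.2.2.2.2.1, ⟨H _ t14648.2.2.2.2.2.1, H _ t14648.2.2.2.2.2.2.1⟩⟩⟩⟩⟩, ⟨⟨⟨⟨H _ t14648.2.2.2.2.2.2.2, H _ t14656.1⟩, ⟨H _ t14656.2.1, H _ t14656.2.2.1⟩⟩, ⟨⟨H _ t14656.2.2.2.1, H _ t14656.2.2.2.2.1⟩, ⟨H _ t14656.2.2.2.2.2.1, ⟨H _ t14656.2.2.2.2.2.2.1, H _ t14656.2.2.2.2.2.2.2⟩⟩⟩⟩, ⟨⟨⟨H _ t14664.1, H _ t14664.2.1⟩, ⟨H _ t14664.2.2.1, H _ t14664.2.2.2.1⟩⟩, ⟨⟨H _ t14664.2.2.2.2.1, H _ t14664.2.2.2.2.2.1⟩, ⟨H _ t14664.2.2.2.2.2.2.1, ⟨H _ t14664.2.2.2.2.2.2.2, H _ t14672.1⟩⟩⟩⟩⟩⟩, ⟨⟨⟨⟨⟨H _ t14672.2.1, H _ t14672.2.2.1⟩,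 ⟨H _ t14672.2.2.2.1, H _ t14672.2.2.2.2.1⟩⟩, ⟨⟨H _ t14672.2.2.2.2.2.1, H _ t14672.2.2.2.2.2.2.1⟩, ⟨H _ t14672.2.2.2.2.2.2.2, ⟨H _ t14680.1, H _ t14680.2.1⟩⟩⟩⟩, ⟨⟨⟨H _ t14680.2.2.1, H _ t14680.2.2.2.1⟩, ⟨H _ t14680.2.2.2.2.1, H _ t14680.2.2.2.2.2.1⟩⟩, ⟨⟨H _ t14680.2.2.2.2.2.2.1, H _ t14680.2.2.2.2.2.2.2⟩, ⟨H _ t14688.1, ⟨H _ t14688.2.1, H _ t14688.2.2.1⟩⟩⟩⟩⟩, ⟨⟨⟨⟨H _ t14688.2.2.2.1, H _ t14688.2.2.2.2.1⟩, ⟨H _ t14688.2.2.2.2.2.1, H _ t14688.2.2.2.2.2.2.1⟩⟩, ⟨⟨H _ t14688.2.2.2.2.2.2.2, H _ t14696.1⟩, ⟨H _ t14696.2.1, ⟨H _ t14696.2.2.1, H _ t14696.2.2.2.1⟩⟩⟩⟩, ⟨⟨⟨H _ t14696.2.2.2.2.1, H _ t14696.2.2.2.2.2.1⟩, ⟨H _ t14696.2.2.2.2.2.2.1, H _ t14696.2.2.2.2.2.2.2⟩⟩, ⟨⟨H _ t14704.1, H _ t14704.2.1⟩, ⟨H _ t14704.2.2.1, ⟨H _ t14704.2.2.2.1, H _ t14704.2.2.2.2.1⟩⟩⟩⟩⟩⟩⟩⟩, ⟨⟨⟨⟨⟨⟨⟨H _ t14704.2.2.2.2.2.1, H _ t14704.2.2.2.2.2.2.1⟩, ⟨H _ t14704.2.2.2.2.2.2.2, H _ t14712.1⟩⟩, ⟨⟨H _ t14712.2.1, H _ t14712.2.2.1⟩,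 ⟨H _ t14712.2.2.2.1, H _ t14712.2.2.2.2.1⟩⟩⟩, ⟨⟨⟨H _ t14712.2.2.2.2.2.1, H _ t14712.2.2.2.2.2.2.1⟩, ⟨H _ t14712.2.2.2.2.2.2.2, H _ t14720.1⟩⟩, ⟨⟨H _ t14720.2.1, H _ t14720.2.2.1⟩, ⟨H _ t14720.2.2.2.1, ⟨H _ t14720.2.2.2.2.1, H _ t14720.2.2.2.2.2.1⟩⟩⟩⟩⟩, ⟨⟨⟨⟨H _ t14720.2.2.2.2.2.2.1, H _ t14720.2.2.2.2.2.2.2⟩, ⟨H _ t14728.1, H _ t14728.2.1⟩⟩, ⟨⟨H _ t14728.2.2.1, H _ t14728.2.2.2.1⟩, ⟨H _ t14728.2.2.2.2.1, ⟨H _ t14728.2.2.2.2.2.1, H _ t14728.2.2.2.2.2.2.1⟩⟩⟩⟩, ⟨⟨⟨H _ t14728.2.2.2.2.2.2.2, H _ t14736.1⟩, ⟨H _ t14736.2.1, H _ t14736.2.2.1⟩⟩, ⟨⟨H _ t14736.2.2.2.1, H _ t14736.2.2.2.2.1⟩, ⟨H _ t14736.2.2.2.2.2.1, ⟨H _ t14736.2.2.2.2.2.2.1, H _ t14736.2.2.2.2.2.2.2⟩⟩⟩⟩⟩⟩, ⟨⟨⟨⟨⟨H _ t14744.1, H _ t14744.2.1⟩, ⟨H _ t14744.2.2.1, H _ t14744.2.2.2.1⟩⟩, ⟨⟨H _ t14744.2.2.2.2.1, H _ t14744.2.2.2.2.2.1⟩, ⟨H _ t14744.2.2.2.2.2.2.1, H _ t14744.2.2.2.2.2.2.2⟩⟩⟩, ⟨⟨⟨H _ t14752.1, H _ t14752.2.1⟩, ⟨H _ t14752.2.2.1,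 H _ t14752.2.2.2.1⟩⟩, ⟨⟨H _ t14752.2.2.2.2.1, H _ t14752.2.2.2.2.2.1⟩, ⟨H _ t14752.2.2.2.2.2.2.1, ⟨H _ t14752.2.2.2.2.2.2.2, H _ t14760.1⟩⟩⟩⟩⟩, ⟨⟨⟨⟨H _ t14760.2.1, H _ t14760.2.2.1⟩, ⟨H _ t14760.2.2.2.1, H _ t14760.2.2.2.2.1⟩⟩, ⟨⟨H _ t14760.2.2.2.2.2.1, H _ t14760.2.2.2.2.2.2.1⟩, ⟨H _ t14760.2.2.2.2.2.2.2, ⟨H _ t14768.1, H _ t14768.2.1⟩⟩⟩⟩, ⟨⟨⟨H _ t14768.2.2.1, H _ t14768.2.2.2.1⟩, ⟨H _ t14768.2.2.2.2.1, H _ t14768.2.2.2.2.2.1⟩⟩, ⟨⟨H _ t14768.2.2.2.2.2.2.1, H _ t14768.2.2.2.2.2.2.2⟩, ⟨H _ t14776.1, ⟨H _ t14776.2.1, H _ t14776.2.2.1⟩⟩⟩⟩⟩⟩⟩, ⟨⟨⟨⟨⟨⟨H _ t14776.2.2.2.1, H _ t14776.2.2.2.2.1⟩, ⟨H _ t14776.2.2.2.2.2.1, H _ t14776.2.2.2.2.2.2.1⟩⟩, ⟨⟨H _ t14776.2.2.2.2.2.2.2, H _ t14784.1⟩, ⟨H _ t14784.2.1, H _ t14784.2.2.1⟩⟩⟩, ⟨⟨⟨H _ t14784.2.2.2.1, H _ t14784.2.2.2.2.1⟩, ⟨H _ t14784.2.2.2.2.2.1, H _ t14784.2.2.2.2.2.2.1⟩⟩, ⟨⟨H _ t14784.2.2.2.2.2.2.2, H _ t14792.1⟩, ⟨H _ t14792.2.1, ⟨H _ t14792.2.2.1,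 H _ t14792.2.2.2.1⟩⟩⟩⟩⟩, ⟨⟨⟨⟨H _ t14792.2.2.2.2.1, H _ t14792.2.2.2.2.2.1⟩, ⟨H _ t14792.2.2.2.2.2.2.1, H _ t14792.2.2.2.2.2.2.2⟩⟩, ⟨⟨H _ t14800.1, H _ t14800.2.1⟩, ⟨H _ t14800.2.2.1, ⟨H _ t14800.2.2.2.1, H _ t14800.2.2.2.2.1⟩⟩⟩⟩, ⟨⟨⟨H _ t14800.2.2.2.2.2.1, H _ t14800.2.2.2.2.2.2.1⟩, ⟨H _ t14800.2.2.2.2.2.2.2, H _ t14808.1⟩⟩, ⟨⟨H _ t14808.2.1, H _ t14808.2.2.1⟩, ⟨H _ t14808.2.2.2.1, ⟨H _ t14808.2.2.2.2.1, H _ t14808.2.2.2.2.2.1⟩⟩⟩⟩⟩⟩, ⟨⟨⟨⟨⟨H _ t14808.2.2.2.2.2.2.1, H _ t14808.2.2.2.2.2.2.2⟩, ⟨H _ t14816.1, H _ t14816.2.1⟩⟩, ⟨⟨H _ t14816.2.2.1, H _ t14816.2.2.2.1⟩, ⟨H _ t14816.2.2.2.2.1, ⟨H _ t14816.2.2.2.2.2.1, H _ t14816.2.2.2.2.2.2.1⟩⟩⟩⟩, ⟨⟨⟨H _ t14816.2.2.2.2.2.2.2, H _ t14824.1⟩, ⟨H _ t14824.2.1, H _ t14824.2.2.1⟩⟩, ⟨⟨H _ t14824.2.2.2.1, H _ t14824.2.2.2.2.1⟩, ⟨H _ t14824.2.2.2.2.2.1, ⟨H _ t14824.2.2.2.2.2.2.1, H _ t14824.2.2.2.2.2.2.2⟩⟩⟩⟩⟩, ⟨⟨⟨⟨H _ t14832.1, H _ t14832.2.1⟩, ⟨H _ t14832.2.2.1,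 H _ t14832.2.2.2.1⟩⟩, ⟨⟨H _ t14832.2.2.2.2.1, H _ t14832.2.2.2.2.2.1⟩, ⟨H _ t14832.2.2.2.2.2.2.1, ⟨H _ t14832.2.2.2.2.2.2.2, H _ t14840.1⟩⟩⟩⟩, ⟨⟨⟨H _ t14840.2.1, H _ t14840.2.2.1⟩, ⟨H _ t14840.2.2.2.1, H _ t14840.2.2.2.2.1⟩⟩, ⟨⟨H _ t14840.2.2.2.2.2.1, H _ t14840.2.2.2.2.2.2.1⟩, ⟨H _ t14840.2.2.2.2.2.2.2, ⟨H _ t14848.1, H _ t14848.2.1⟩⟩⟩⟩⟩⟩⟩⟩⟩, ⟨⟨⟨⟨⟨⟨⟨⟨H _ t14848.2.2.1, H _ t14848.2.2.2.1⟩, ⟨H _ t14848.2.2.2.2.1, H _ t14848.2.2.2.2.2.1⟩⟩, ⟨⟨H _ t14848.2.2.2.2.2.2.1, H _ t14848.2.2.2.2.2.2.2⟩, ⟨H _ t14856.1, H _ t14856.2.1⟩⟩⟩, ⟨⟨⟨H _ t14856.2.2.1, H _ t14856.2.2.2.1⟩, ⟨H _ t14856.2.2.2.2.1, H _ t14856.2.2.2.2.2.1⟩⟩, ⟨⟨H _ t14856.2.2.2.2.2.2.1, H _ t14856.2.2.2.2.2.2.2⟩, ⟨H _ t14864.1, ⟨H _ t14864.2.1, H _ t14864.2.2.1⟩⟩⟩⟩⟩, ⟨⟨⟨⟨H _ t14864.2.2.2.1, H _ t14864.2.2.2.2.1⟩, ⟨H _ t14864.2.2.2.2.2.1, H _ t14864.2.2.2.2.2.2.1⟩⟩, ⟨⟨H _ t14864.2.2.2.2.2.2.2, H _ t14872.1⟩, ⟨H _ t14872.2.1, ⟨H _ t14872.2.2.1,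 H _ t14872.2.2.2.1⟩⟩⟩⟩, ⟨⟨⟨H _ t14872.2.2.2.2.1, H _ t14872.2.2.2.2.2.1⟩, ⟨H _ t14872.2.2.2.2.2.2.1, H _ t14872.2.2.2.2.2.2.2⟩⟩, ⟨⟨H _ t14880.1, H _ t14880.2.1⟩, ⟨H _ t14880.2.2.1, ⟨H _ t14880.2.2.2.1, H _ t14880.2.2.2.2.1⟩⟩⟩⟩⟩⟩, ⟨⟨⟨⟨⟨H _ t14880.2.2.2.2.2.1, H _ t14880.2.2.2.2.2.2.1⟩, ⟨H _ t14880.2.2.2.2.2.2.2, H _ t14888.1⟩⟩, ⟨⟨H _ t14888.2.1, H _ t14888.2.2.1⟩, ⟨H _ t14888.2.2.2.1, H _ t14888.2.2.2.2.1⟩⟩⟩, ⟨⟨⟨H _ t14888.2.2.2.2.2.1, H _ t14888.2.2.2.2.2.2.1⟩, ⟨H _ t14888.2.2.2.2.2.2.2, H _ t14896.1⟩⟩, ⟨⟨H _ t14896.2.1, H _ t14896.2.2.1⟩, ⟨H _ t14896.2.2.2.1, ⟨H _ t14896.2.2.2.2.1, H _ t14896.2.2.2.2.2.1⟩⟩⟩⟩⟩, ⟨⟨⟨⟨H _ t14896.2.2.2.2.2.2.1, H _ t14896.2.2.2.2.2.2.2⟩, ⟨H _ t14904.1, H _ t14904.2.1⟩⟩, ⟨⟨H _ t14904.2.2.1, H _ t14904.2.2.2.1⟩, ⟨H _ t14904.2.2.2.2.1, ⟨H _ t14904.2.2.2.2.2.1, H _ t14904.2.2.2.2.2.2.1⟩⟩⟩⟩, ⟨⟨⟨H _ t14904.2.2.2.2.2.2.2, H _ t14912.1⟩, ⟨H _ t14912.2.1, H _ t14912.2.2.1⟩⟩,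 ⟨⟨H _ t14912.2.2.2.1, H _ t14912.2.2.2.2.1⟩, ⟨H _ t14912.2.2.2.2.2.1, ⟨H _ t14912.2.2.2.2.2.2.1, H _ t14912.2.2.2.2.2.2.2⟩⟩⟩⟩⟩⟩⟩, ⟨⟨⟨⟨⟨⟨H _ t14920.1, H _ t14920.2.1⟩, ⟨H _ t14920.2.2.1, H _ t14920.2.2.2.1⟩⟩, ⟨⟨H _ t14920.2.2.2.2.1, H _ t14920.2.2.2.2.2.1⟩, ⟨H _ t14920.2.2.2.2.2.2.1, H _ t14920.2.2.2.2.2.2.2⟩⟩⟩, ⟨⟨⟨H _ t14928.1, H _ t14928.2.1⟩, ⟨H _ t14928.2.2.1, H _ t14928.2.2.2.1⟩⟩, ⟨⟨H _ t14928.2.2.2.2.1, H _ t14928.2.2.2.2.2.1⟩, ⟨H _ t14928.2.2.2.2.2.2.1, ⟨H _ t14928.2.2.2.2.2.2.2, H _ t14936.1⟩⟩⟩⟩⟩, ⟨⟨⟨⟨H _ t14936.2.1, H _ t14936.2.2.1⟩, ⟨H _ t14936.2.2.2.1, H _ t14936.2.2.2.2.1⟩⟩, ⟨⟨H _ t14936.2.2.2.2.2.1, H _ t14936.2.2.2.2.2.2.1⟩, ⟨H _ t14936.2.2.2.2.2.2.2, ⟨H _ t14944.1, H _ t14944.2.1⟩⟩⟩⟩, ⟨⟨⟨H _ t14944.2.2.1, H _ t14944.2.2.2.1⟩, ⟨H _ t14944.2.2.2.2.1, H _ t14944.2.2.2.2.2.1⟩⟩, ⟨⟨H _ t14944.2.2.2.2.2.2.1, H _ t14944.2.2.2.2.2.2.2⟩, ⟨H _ t14952.1, ⟨H _ t14952.2.1, H _ t14952.2.2.1⟩⟩⟩⟩⟩⟩,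 ⟨⟨⟨⟨⟨H _ t14952.2.2.2.1, H _ t14952.2.2.2.2.1⟩, ⟨H _ t14952.2.2.2.2.2.1, H _ t14952.2.2.2.2.2.2.1⟩⟩, ⟨⟨H _ t14952.2.2.2.2.2.2.2, H _ t14960.1⟩, ⟨H _ t14960.2.1, ⟨H _ t14960.2.2.1, H _ t14960.2.2.2.1⟩⟩⟩⟩, ⟨⟨⟨H _ t14960.2.2.2.2.1, H _ t14960.2.2.2.2.2.1⟩, ⟨H _ t14960.2.2.2.2.2.2.1, H _ t14960.2.2.2.2.2.2.2⟩⟩, ⟨⟨H _ t14968.1, H _ t14968.2.1⟩, ⟨H _ t14968.2.2.1, ⟨H _ t14968.2.2.2.1, H _ t14968.2.2.2.2.1⟩⟩⟩⟩⟩, ⟨⟨⟨⟨H _ t14968.2.2.2.2.2.1, H _ t14968.2.2.2.2.2.2.1⟩, ⟨H _ t14968.2.2.2.2.2.2.2, H _ t14976.1⟩⟩, ⟨⟨H _ t14976.2.1, H _ t14976.2.2.1⟩, ⟨H _ t14976.2.2.2.1, ⟨H _ t14976.2.2.2.2.1, H _ t14976.2.2.2.2.2.1⟩⟩⟩⟩, ⟨⟨⟨H _ t14976.2.2.2.2.2.2.1, H _ t14976.2.2.2.2.2.2.2⟩, ⟨H _ t14984.1, H _ t14984.2.1⟩⟩, ⟨⟨H _ t14984.2.2.1, H _ t14984.2.2.2.1⟩, ⟨H _ t14984.2.2.2.2.1, ⟨H _ t14984.2.2.2.2.2.1, H _ t14984.2.2.2.2.2.2.1⟩⟩⟩⟩⟩⟩⟩⟩, ⟨⟨⟨⟨⟨⟨⟨H _ t14984.2.2.2.2.2.2.2, H _ t14992.1⟩, ⟨H _ t14992.2.1, H _ t14992.2.2.1⟩⟩,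 ⟨⟨H _ t14992.2.2.2.1, H _ t14992.2.2.2.2.1⟩, ⟨H _ t14992.2.2.2.2.2.1, H _ t14992.2.2.2.2.2.2.1⟩⟩⟩, ⟨⟨⟨H _ t14992.2.2.2.2.2.2.2, H _ t15000.1⟩, ⟨H _ t15000.2.1, H _ t15000.2.2.1⟩⟩, ⟨⟨H _ t15000.2.2.2.1, H _ t15000.2.2.2.2.1⟩, ⟨H _ t15000.2.2.2.2.2.1, ⟨H _ t15000.2.2.2.2.2.2.1, H _ t15000.2.2.2.2.2.2.2⟩⟩⟩⟩⟩, ⟨⟨⟨⟨H _ t15008.1, H _ t15008.2.1⟩, ⟨H _ t15008.2.2.1, H _ t15008.2.2.2.1⟩⟩, ⟨⟨H _ t15008.2.2.2.2.1, H _ t15008.2.2.2.2.2.1⟩, ⟨H _ t15008.2.2.2.2.2.2.1, ⟨H _ t15008.2.2.2.2.2.2.2, H _ t15016.1⟩⟩⟩⟩, ⟨⟨⟨H _ t15016.2.1, H _ t15016.2.2.1⟩, ⟨H _ t15016.2.2.2.1, H _ t15016.2.2.2.2.1⟩⟩, ⟨⟨H _ t15016.2.2.2.2.2.1, H _ t15016.2.2.2.2.2.2.1⟩, ⟨H _ t15016.2.2.2.2.2.2.2, ⟨H _ t15024.1, H _ t15024.2.1⟩⟩⟩⟩⟩⟩, ⟨⟨⟨⟨⟨H _ t15024.2.2.1, H _ t15024.2.2.2.1⟩, ⟨H _ t15024.2.2.2.2.1, H _ t15024.2.2.2.2.2.1⟩⟩, ⟨⟨H _ t15024.2.2.2.2.2.2.1, H _ t15024.2.2.2.2.2.2.2⟩, ⟨H _ t15032.1, H _ t15032.2.1⟩⟩⟩, ⟨⟨⟨H _ t15032.2.2.1,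 H _ t15032.2.2.2.1⟩, ⟨H _ t15032.2.2.2.2.1, H _ t15032.2.2.2.2.2.1⟩⟩, ⟨⟨H _ t15032.2.2.2.2.2.2.1, H _ t15032.2.2.2.2.2.2.2⟩, ⟨H _ t15040.1, ⟨H _ t15040.2.1, H _ t15040.2.2.1⟩⟩⟩⟩⟩, ⟨⟨⟨⟨H _ t15040.2.2.2.1, H _ t15040.2.2.2.2.1⟩, ⟨H _ t15040.2.2.2.2.2.1, H _ t15040.2.2.2.2.2.2.1⟩⟩, ⟨⟨H _ t15040.2.2.2.2.2.2.2, H _ t15048.1⟩, ⟨H _ t15048.2.1, ⟨H _ t15048.2.2.1, H _ t15048.2.2.2.1⟩⟩⟩⟩, ⟨⟨⟨H _ t15048.2.2.2.2.1, H _ t15048.2.2.2.2.2.1⟩, ⟨H _ t15048.2.2.2.2.2.2.1, H _ t15048.2.2.2.2.2.2.2⟩⟩, ⟨⟨H _ t15056.1, H _ t15056.2.1⟩, ⟨H _ t15056.2.2.1, ⟨H _ t15056.2.2.2.1, H _ t15056.2.2.2.2.1⟩⟩⟩⟩⟩⟩⟩, ⟨⟨⟨⟨⟨⟨H _ t15056.2.2.2.2.2.1, H _ t15056.2.2.2.2.2.2.1⟩, ⟨H _ t15056.2.2.2.2.2.2.2, H _ t15064.1⟩⟩, ⟨⟨H _ t15064.2.1, H _ t15064.2.2.1⟩, ⟨H _ t15064.2.2.2.1, H _ t15064.2.2.2.2.1⟩⟩⟩, ⟨⟨⟨H _ t15064.2.2.2.2.2.1, H _ t15064.2.2.2.2.2.2.1⟩, ⟨H _ t15064.2.2.2.2.2.2.2, H _ t15072.1⟩⟩, ⟨⟨H _ t15072.2.1, H _ t15072.2.2.1⟩,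 ⟨H _ t15072.2.2.2.1, ⟨H _ t15072.2.2.2.2.1, H _ t15072.2.2.2.2.2.1⟩⟩⟩⟩⟩, ⟨⟨⟨⟨H _ t15072.2.2.2.2.2.2.1, H _ t15072.2.2.2.2.2.2.2⟩, ⟨H _ t15080.1, H _ t15080.2.1⟩⟩, ⟨⟨H _ t15080.2.2.1, H _ t15080.2.2.2.1⟩, ⟨H _ t15080.2.2.2.2.1, ⟨H _ t15080.2.2.2.2.2.1, H _ t15080.2.2.2.2.2.2.1⟩⟩⟩⟩, ⟨⟨⟨H _ t15080.2.2.2.2.2.2.2, H _ t15088.1⟩, ⟨H _ t15088.2.1, H _ t15088.2.2.1⟩⟩, ⟨⟨H _ t15088.2.2.2.1, H _ t15088.2.2.2.2.1⟩, ⟨H _ t15088.2.2.2.2.2.1, ⟨H _ t15088.2.2.2.2.2.2.1, H _ t15088.2.2.2.2.2.2.2⟩⟩⟩⟩⟩⟩, ⟨⟨⟨⟨⟨H _ t15096.1, H _ t15096.2.1⟩, ⟨H _ t15096.2.2.1, H _ t15096.2.2.2.1⟩⟩, ⟨⟨H _ t15096.2.2.2.2.1, H _ t15096.2.2.2.2.2.1⟩, ⟨H _ t15096.2.2.2.2.2.2.1, ⟨H _ t15096.2.2.2.2.2.2.2, H _ t15104.1⟩⟩⟩⟩, ⟨⟨⟨H _ t15104.2.1, H _ t15104.2.2.1⟩, ⟨H _ t15104.2.2.2.1, H _ t15104.2.2.2.2.1⟩⟩, ⟨⟨H _ t15104.2.2.2.2.2.1, H _ t15104.2.2.2.2.2.2.1⟩, ⟨H _ t15104.2.2.2.2.2.2.2, ⟨H _ t15112.1, H _ t15112.2.1⟩⟩⟩⟩⟩, ⟨⟨⟨⟨H _ t15112.2.2.1,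 H _ t15112.2.2.2.1⟩, ⟨H _ t15112.2.2.2.2.1, H _ t15112.2.2.2.2.2.1⟩⟩, ⟨⟨H _ t15112.2.2.2.2.2.2.1, H _ t15112.2.2.2.2.2.2.2⟩, ⟨H _ t15120.1, ⟨H _ t15120.2.1, H _ t15120.2.2.1⟩⟩⟩⟩, ⟨⟨⟨H _ t15120.2.2.2.1, H _ t15120.2.2.2.2.1⟩, ⟨H _ t15120.2.2.2.2.2.1, H _ t15120.2.2.2.2.2.2.1⟩⟩, ⟨⟨H _ t15120.2.2.2.2.2.2.2, H _ t15128.1⟩, ⟨H _ t15128.2.1, ⟨H _ t15128.2.2.1, H _ t15128.2.2.2⟩⟩⟩⟩⟩⟩⟩⟩⟩⟩

end Pool.Agent.MP_c853c5_nt.X.C4950
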