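import Pool.Agent.MP_c853c5_nt.X.C4950.Env
import Pool.Agent.MP_c853c5_nt.X.C4950.D5

set_option autoImplicit false
set_option maxRecDepth 8192
set_option linter.all false

namespace Pool.Agent.MP_c853c5_nt.X.C4950

open Pool.Agent.MP_c853c5_nt.X

def t15132 : allY (E.wth (lkp [])) l15132 = true ∧
    allY (E.wth (lkp [])) l15133 = true ∧
    allY (E.wth (lkp [])) l15134 = true ∧
    allY (E.wth (lkp [])) l15135 = true ∧
    allY (E.wth (lkp [])) l15136 = true ∧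
    allY (E.wth (lkp [])) l15137 = true ∧
    allY (E.wth (lkp [])) l15138 = true ∧
    allY (E.wth (lkp [])) l15139 = true :=
  ⟨by decide +kernel, by decide +kernel, by decide +kernel, by decide +kernel, by decide +kernel, by decide +kernel, by decide +kernel, by decide +kernel⟩

def t15140 : allY (E.wth (lkp [])) l15140 = true ∧
    allY (E.wth (lkp [])) l15141 = true ∧
    allY (E.wth (lkp [])) l15142 = true ∧
    allY (E.wth (lkp [])) l15143 = true ∧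
    allY (E.wth (lkp [])) l15144 = true ∧
    allY (E.wth (lkp [])) l15145 = true ∧
    allY (E.wth (lkp [])) l15146 = true ∧
    allY (E.wth (lkp [])) l15147 = true :=
  ⟨by decide +kernel, by decide +kernel, by decide +kernel, by decide +kernel, by decide +kernel, by decide +kernel, by decide +kernel, by decide +kernel⟩

def t15148 : allY (E.wth (lkp [])) l15148 = true ∧
    allY (E.wth (lkp [])) l15149 = true ∧
    allY (E.wth (lkp [])) l15150 = true ∧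
    allY (E.wth (lkp [])) l15151 = true ∧
    allY (E.wth (lkp [])) l15152 = true ∧
    allY (E.wth (lkp [])) l15153 = true ∧
    allY (E.wth (lkp [])) l15154 = true ∧
    allY (E.wth (lkp [])) l15155 = true :=
  ⟨by decide +kernel, by decide +kernel, by decide +kernel, by decide +kernel, by decide +kernel, by decide +kernel, by decide +kernel, by decide +kernel⟩

def t15156 : allY (E.wth (lkp [])) l15156 = true ∧
    allY (E.wth (lkp [])) l15157 = true ∧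
    allY (E.wth (lkp [])) l15158 = true ∧
    allY (E.wth (lkp [])) l15159 = true ∧
    allY (E.wth (lkp [])) l15160 = true ∧
    allY (E.wth (lkp [])) l15161 = true ∧
    allY (E.wth (lkp [])) l15162 = true ∧
    allY (E.wth (lkp [])) l15163 = true :=
  ⟨by decide +kernel, by decide +kernel, by decide +kernel, by decide +kernel, by decide +kernel, by decide +kernel, by decide +kernel, by decide +kernel⟩

def t15164 : allY (E.wth (lkp [])) l15164 = true ∧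
    allY (E.wth (lkp [])) l15165 = true ∧
    allY (E.wth (lkp [])) l15166 = true ∧
    allY (E.wth (lkp [])) l15167 = true ∧
    allY (E.wth (lkp [])) l15168 = true ∧
    allY (E.wth (lkp [])) l15169 = true ∧
    allY (E.wth (lkp [])) l15170 = true ∧
    allY (E.wth (lkp [])) l15171 = true :=
  ⟨by decide +kernel, by decide +kernel, by decide +kernel, by decide +kernel, by decide +kernel, by decide +kernel, by decide +kernel, by decide +kernel⟩

def t15172 : allY (E.wth (lkp [])) l15172 = true ∧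
    allY (E.wth (lkp [])) l15173 = true ∧
    allY (E.wth (lkp [])) l15174 = true ∧
    allY (E.wth (lkp [])) l15175 = true ∧
    allY (E.wth (lkp [])) l15176 = true ∧
    allY (E.wth (lkp [])) l15177 = true ∧
    allY (E.wth (lkp [])) l15178 = true ∧
    allY (E.wth (lkp [])) l15179 = true :=
  ⟨by decide +kernel, by decide +kernel, by decide +kernel, by decide +kernel, by decide +kernel, by decide +kernel, by decide +kernel, by decide +kernel⟩

def t15180 : allY (E.wth (lkp [])) l15180 = true ∧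
    allY (E.wth (lkp [])) l15181 = true ∧
    allY (E.wth (lkp [])) l15182 = true ∧
    allY (E.wth (lkp [])) l15183 = true ∧
    allY (E.wth (lkp [])) l15184 = true ∧
    allY (E.wth (lkp [])) l15185 = true ∧
    allY (E.wth (lkp [])) l15186 = true ∧
    allY (E.wth (lkp [])) l15187 = true :=
  ⟨by decide +kernel, by decide +kernel, by decide +kernel, by decide +kernel, by decide +kernel, by decide +kernel, by decide +kernel, by decide +kernel⟩

def t15188 : allY (E.wth (lkp [])) l15188 = true ∧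
    allY (E.wth (lkp [])) l15189 = true ∧
    allY (E.wth (lkp [])) l15190 = true ∧
    allY (E.wth (lkp [])) l15191 = true ∧
    allY (E.wth (lkp [])) l15192 = true ∧
    allY (E.wth (lkp [])) l15193 = true ∧
    allY (E.wth (lkp [])) l15194 = true ∧
    allY (E.wth (lkp [])) l15195 = true :=
  ⟨by decide +kernel, by decide +kernel, by decide +kernel, by decide +kernel, by decide +kernel, by decide +kernel, by decide +kernel, by decide +kernel⟩

def t15196 : allY (E.wth (lkp [])) l15196 = true ∧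
    allY (E.wth (lkp [])) l15197 = true ∧
    allY (E.wth (lkp [])) l15198 = true ∧
    allY (E.wth (lkp [])) l15199 = true ∧
    allY (E.wth (lkp [])) l15200 = true ∧
    allY (E.wth (lkp [])) l15201 = true ∧
    allY (E.wth (lkp [])) l15202 = true ∧
    allY (E.wth (lkp [])) l15203 = true :=
  ⟨by decide +kernel, by decide +kernel, by decide +kernel, by decide +kernel, by decide +kernel, by decide +kernel, by decide +kernel, by decide +kernel⟩

def t15204 : allY (E.wth (lkp [])) l15204 = true ∧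
    allY (E.wth (lkp [])) l15205 = true ∧
    allY (E.wth (lkp [])) l15206 = true ∧
    allY (E.wth (lkp [])) l15207 = true ∧
    allY (E.wth (lkp [])) l15208 = true ∧
    allY (E.wth (lkp [])) l15209 = true ∧
    allY (E.wth (lkp [])) l15210 = true ∧
    allY (E.wth (lkp [])) l15211 = true :=
  ⟨by decide +kernel, by decide +kernel, by decide +kernel, by decide +kernel, by decide +kernel, by decide +kernel, by decide +kernel, by decide +kernel⟩

def t15212 : allY (E.wth (lkp [])) l15212 = true ∧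
    allY (E.wth (lkp [])) l15213 = true ∧
    allY (E.wth (lkp [])) l15214 = true ∧
    allY (E.wth (lkp [])) l15215 = true ∧
    allY (E.wth (lkp [])) l15216 = true ∧
    allY (E.wth (lkp [])) l15217 = true ∧
    allY (E.wth (lkp [])) l15218 = true ∧
    allY (E.wth (lkp [])) l15219 = true :=
  ⟨by decide +kernel, by decide +kernel, by decide +kernel, by decide +kernel, by decide +kernel, by decide +kernel, by decide +kernel, by decide +kernel⟩

def t15220 : allY (E.wth (lkp [])) l15220 = true ∧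
    allY (E.wth (lkp [])) l15221 = true ∧
    allY (E.wth (lkp [])) l15222 = true ∧
    allY (E.wth (lkp [])) l15223 = true ∧
    allY (E.wth (lkp [])) l15224 = true ∧
    allY (E.wth (lkp [])) l15225 = true ∧
    allY (E.wth (lkp [])) l15226 = true ∧
    allY (E.wth (lkp [])) l15227 = true :=
  ⟨by decide +kernel, by decide +kernel, by decide +kernel, by decide +kernel, by decide +kernel, by decide +kernel, by decide +kernel, by decide +kernel⟩

def t15228 : allY (E.wth (lkp [])) l15228 = true ∧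
    allY (E.wth (lkp [])) l15229 = true ∧
    allY (E.wth (lkp [])) l15230 = true ∧
    allY (E.wth (lkp [])) l15231 = true ∧
    allY (E.wth (lkp [])) l15232 = true ∧
    allY (E.wth (lkp [])) l15233 = true ∧
    allY (E.wth (lkp [])) l15234 = true ∧
    allY (E.wth (lkp [])) l15235 = true :=
  ⟨by decide +kernel, by decide +kernel, by decide +kernel, by decide +kernel, by decide +kernel, by decide +kernel, by decide +kernel, by decide +kernel⟩

def t15236 : allY (E.wth (lkp [])) l15236 = true ∧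
    allY (E.wth (lkp [])) l15237 = true ∧
    allY (E.wth (lkp [])) l15238 = true ∧
    allY (E.wth (lkp [])) l15239 = true ∧
    allY (E.wth (lkp [])) l15240 = true ∧
    allY (E.wth (lkp [])) l15241 = true ∧
    allY (E.wth (lkp [])) l15242 = true ∧
    allY (E.wth (lkp [])) l15243 = true :=
  ⟨by decide +kernel, by decide +kernel, by decide +kernel, by decide +kernel, by decide +kernel, by decide +kernel, by decide +kernel, by decide +kernel⟩

def t15244 : allY (E.wth (lkp [])) l15244 = true ∧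
    allY (E.wth (lkp [])) l15245 = true ∧
    allY (E.wth (lkp [])) l15246 = true ∧
    allY (E.wth (lkp [])) l15247 = true ∧
    allY (E.wth (lkp [])) l15248 = true ∧
    allY (E.wth (lkp [])) l15249 = true ∧
    allY (E.wth (lkp [])) l15250 = true ∧
    allY (E.wth (lkp [])) l15251 = true :=
  ⟨by decide +kernel, by decide +kernel, by decide +kernel, by decide +kernel, by decide +kernel, by decide +kernel, by decide +kernel, by decide +kernel⟩

def t15252 : allY (E.wth (lkp [])) l15252 = true ∧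
    allY (E.wth (lkp [])) l15253 = true ∧
    allY (E.wth (lkp [])) l15254 = true ∧
    allY (E.wth (lkp [])) l15255 = true ∧
    allY (E.wth (lkp [])) l15256 = true ∧
    allY (E.wth (lkp [])) l15257 = true ∧
    allY (E.wth (lkp [])) l15258 = true ∧
    allY (E.wth (lkp [])) l15259 = true :=
  ⟨by decide +kernel, by decide +kernel, by decide +kernel, by decide +kernel, by decide +kernel, by decide +kernel, by decide +kernel, by decide +kernel⟩

def t15260 : allY (E.wth (lkp [])) l15260 = true ∧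
    allY (E.wth (lkp [])) l15261 = true ∧
    allY (E.wth (lkp [])) l15262 = true ∧
    allY (E.wth (lkp [])) l15263 = true ∧
    allY (E.wth (lkp [])) l15264 = true ∧
    allY (E.wth (lkp [])) l15265 = true ∧
    allY (E.wth (lkp [])) l15266 = true ∧
    allY (E.wth (lkp [])) l15267 = true :=
  ⟨by decide +kernel, by decide +kernel, by decide +kernel, by decide +kernel, by decide +kernel, by decide +kernel, by decide +kernel, by decide +kernel⟩

def t15268 : allY (E.wth (lkp [])) l15268 = true ∧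
    allY (E.wth (lkp [])) l15269 = true ∧
    allY (E.wth (lkp [])) l15270 = true ∧
    allY (E.wth (lkp [])) l15271 = true ∧
    allY (E.wth (lkp [])) l15272 = true ∧
    allY (E.wth (lkp [])) l15273 = true ∧
    allY (E.wth (lkp [])) l15274 = true ∧
    allY (E.wth (lkp [])) l15275 = true :=
  ⟨by decide +kernel, by decide +kernel, by decide +kernel, by decide +kernel, by decide +kernel, by decide +kernel, by decide +kernel, by decide +kernel⟩

def t15276 : allY (E.wth (lkp [])) l15276 = true ∧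
    allY (E.wth (lkp [])) l15277 = true ∧
    allY (E.wth (lkp [])) l15278 = true ∧
    allY (E.wth (lkp [])) l15279 = true ∧
    allY (E.wth (lkp [])) l15280 = true ∧
    allY (E.wth (lkp [])) l15281 = true ∧
    allY (E.wth (lkp [])) l15282 = true ∧
    allY (E.wth (lkp [])) l15283 = true :=
  ⟨by decide +kernel, by decide +kernel, by decide +kernel, by decide +kernel, by decide +kernel, by decide +kernel, by decide +kernel, by decide +kernel⟩

def t15284 : allY (E.wth (lkp [])) l15284 = true ∧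
    allY (E.wth (lkp [])) l15285 = true ∧
    allY (E.wth (lkp [])) l15286 = true ∧
    allY (E.wth (lkp [])) l15287 = true ∧
    allY (E.wth (lkp [])) l15288 = true ∧
    allY (E.wth (lkp [])) l15289 = true ∧
    allY (E.wth (lkp [])) l15290 = true ∧
    allY (E.wth (lkp [])) l15291 = true :=
  ⟨by decide +kernel, by decide +kernel, by decide +kernel, by decide +kernel, by decide +kernel, by decide +kernel, by decide +kernel, by decide +kernel⟩

def t15292 : allY (E.wth (lkp [])) l15292 = true ∧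
    allY (E.wth (lkp [])) l15293 = true ∧
    allY (E.wth (lkp [])) l15294 = true ∧
    allY (E.wth (lkp [])) l15295 = true ∧
    allY (E.wth (lkp [])) l15296 = true ∧
    allY (E.wth (lkp [])) l15297 = true ∧
    allY (E.wth (lkp [])) l15298 = true ∧
    allY (E.wth (lkp [])) l15299 = true :=
  ⟨by decide +kernel, by decide +kernel, by decide +kernel, by decide +kernel, by decide +kernel, by decide +kernel, by decide +kernel, by decide +kernel⟩

def t15300 : allY (E.wth (lkp [])) l15300 = true ∧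
    allY (E.wth (lkp [])) l15301 = true ∧
    allY (E.wth (lkp [])) l15302 = true ∧
    allY (E.wth (lkp [])) l15303 = true ∧
    allY (E.wth (lkp [])) l15304 = true ∧
    allY (E.wth (lkp [])) l15305 = true ∧
    allY (E.wth (lkp [])) l15306 = true ∧
    allY (E.wth (lkp [])) l15307 = true :=
  ⟨by decide +kernel, by decide +kernel, by decide +kernel, by decide +kernel, by decide +kernel, by decide +kernel, by decide +kernel, by decide +kernel⟩

def t15308 : allY (E.wth (lkp [])) l15308 = true ∧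
    allY (E.wth (lkp [])) l15309 = true ∧
    allY (E.wth (lkp [])) l15310 = true ∧
    allY (E.wth (lkp [])) l15311 = true ∧
    allY (E.wth (lkp [])) l15312 = true ∧
    allY (E.wth (lkp [])) l15313 = true ∧
    allY (E.wth (lkp [])) l15314 = true ∧
    allY (E.wth (lkp [])) l15315 = true :=
  ⟨by decide +kernel, by decide +kernel, by decide +kernel, by decide +kernel, by decide +kernel, by decide +kernel, by decide +kernel, by decide +kernel⟩

def t15316 : allY (E.wth (lkp [])) l15316 = true ∧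
    allY (E.wth (lkp [])) l15317 = true ∧
    allY (E.wth (lkp [])) l15318 = true ∧
    allY (E.wth (lkp [])) l15319 = true ∧
    allY (E.wth (lkp [])) l15320 = true ∧
    allY (E.wth (lkp [])) l15321 = true ∧
    allY (E.wth (lkp [])) l15322 = true ∧
    allY (E.wth (lkp [])) l15323 = true :=
  ⟨by decide +kernel, by decide +kernel, by decide +kernel, by decide +kernel, by decide +kernel, by decide +kernel, by decide +kernel, by decide +kernel⟩

def t15324 : allY (E.wth (lkp [])) l15324 = true ∧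
    allY (E.wth (lkp [])) l15325 = true ∧
    allY (E.wth (lkp [])) l15326 = true ∧
    allY (E.wth (lkp [])) l15327 = true ∧
    allY (E.wth (lkp [])) l15328 = true ∧
    allY (E.wth (lkp [])) l15329 = true ∧
    allY (E.wth (lkp [])) l15330 = true ∧
    allY (E.wth (lkp [])) l15331 = true :=
  ⟨by decide +kernel, by decide +kernel, by decide +kernel, by decide +kernel, by decide +kernel, by decide +kernel, by decide +kernel, by decide +kernel⟩

def t15332 : allY (E.wth (lkp [])) l15332 = true ∧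
    allY (E.wth (lkp [])) l15333 = true ∧
    allY (E.wth (lkp [])) l15334 = true ∧
    allY (E.wth (lkp [])) l15335 = true ∧
    allY (E.wth (lkp [])) l15336 = true ∧
    allY (E.wth (lkp [])) l15337 = true ∧
    allY (E.wth (lkp [])) l15338 = true ∧
    allY (E.wth (lkp [])) l15339 = true :=
  ⟨by decide +kernel, by decide +kernel, by decide +kernel, by decide +kernel, by decide +kernel, by decide +kernel, by decide +kernel, by decide +kernel⟩

def t15340 : allY (E.wth (lkp [])) l15340 = true ∧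
    allY (E.wth (lkp [])) l15341 = true ∧
    allY (E.wth (lkp [])) l15342 = true ∧
    allY (E.wth (lkp [])) l15343 = true ∧
    allY (E.wth (lkp [])) l15344 = true ∧
    allY (E.wth (lkp [])) l15345 = true ∧
    allY (E.wth (lkp [])) l15346 = true ∧
    allY (E.wth (lkp [])) l15347 = true :=
  ⟨by decide +kernel, by decide +kernel, by decide +kernel, by decide +kernel, by decide +kernel, by decide +kernel, by decide +kernel, by decide +kernel⟩

def t15348 : allY (E.wth (lkp [])) l15348 = true ∧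
    allY (E.wth (lkp [])) l15349 = true ∧
    allY (E.wth (lkp [])) l15350 = true ∧
    allY (E.wth (lkp [])) l15351 = true ∧
    allY (E.wth (lkp [])) l15352 = true ∧
    allY (E.wth (lkp [])) l15353 = true ∧
    allY (E.wth (lkp [])) l15354 = true ∧
    allY (E.wth (lkp [])) l15355 = true :=
  ⟨by decide +kernel, by decide +kernel, by decide +kernel, by decide +kernel, by decide +kernel, by decide +kernel, by decide +kernel, by decide +kernel⟩

def t15356 : allY (E.wth (lkp [])) l15356 = true ∧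
    allY (E.wth (lkp [])) l15357 = true ∧
    allY (E.wth (lkp [])) l15358 = true ∧
    allY (E.wth (lkp [])) l15359 = true ∧
    allY (E.wth (lkp [])) l15360 = true ∧
    allY (E.wth (lkp [])) l15361 = true ∧
    allY (E.wth (lkp [])) l15362 = true ∧
    allY (E.wth (lkp [])) l15363 = true :=
  ⟨by decide +kernel, by decide +kernel, by decide +kernel, by decide +kernel, by decide +kernel, by decide +kernel, by decide +kernel, by decide +kernel⟩

def t15364 : allY (E.wth (lkp [])) l15364 = true ∧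
    allY (E.wth (lkp [])) l15365 = true ∧
    allY (E.wth (lkp [])) l15366 = true ∧
    allY (E.wth (lkp [])) l15367 = true ∧
    allY (E.wth (lkp [])) l15368 = true ∧
    allY (E.wth (lkp [])) l15369 = true ∧
    allY (E.wth (lkp [])) l15370 = true ∧
    allY (E.wth (lkp [])) l15371 = true :=
  ⟨by decide +kernel, by decide +kernel, by decide +kernel, by decide +kernel, by decide +kernel, by decide +kernel, by decide +kernel, by decide +kernel⟩

def t15372 : allY (E.wth (lkp [])) l15372 = true ∧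
    allY (E.wth (lkp [])) l15373 = true ∧
    allY (E.wth (lkp [])) l15374 = true ∧
    allY (E.wth (lkp [])) l15375 = true ∧
    allY (E.wth (lkp [])) l15376 = true ∧
    allY (E.wth (lkp [])) l15377 = true ∧
    allY (E.wth (lkp [])) l15378 = true ∧
    allY (E.wth (lkp [])) l15379 = true :=
  ⟨by decide +kernel, by decide +kernel, by decide +kernel, by decide +kernel, by decide +kernel, by decide +kernel, by decide +kernel, by decide +kernel⟩

def t15380 : allY (E.wth (lkp [])) l15380 = true ∧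
    allY (E.wth (lkp [])) l15381 = true ∧
    allY (E.wth (lkp [])) l15382 = true ∧
    allY (E.wth (lkp [])) l15383 = true ∧
    allY (E.wth (lkp [])) l15384 = true ∧
    allY (E.wth (lkp [])) l15385 = true ∧
    allY (E.wth (lkp [])) l15386 = true ∧
    allY (E.wth (lkp [])) l15387 = true :=
  ⟨by decide +kernel, by decide +kernel, by decide +kernel, by decide +kernel, by decide +kernel, by decide +kernel, by decide +kernel, by decide +kernel⟩

def t15388 : allY (E.wth (lkp [])) l15388 = true ∧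
    allY (E.wth (lkp [])) l15389 = true ∧
    allY (E.wth (lkp [])) l15390 = true ∧
    allY (E.wth (lkp [])) l15391 = true ∧
    allY (E.wth (lkp [])) l15392 = true ∧
    allY (E.wth (lkp [])) l15393 = true ∧
    allY (E.wth (lkp [])) l15394 = true ∧
    allY (E.wth (lkp [])) l15395 = true :=
  ⟨by decide +kernel, by decide +kernel, by decide +kernel, by decide +kernel, by decide +kernel, by decide +kernel, by decide +kernel, by decide +kernel⟩

def t15396 : allY (E.wth (lkp [])) l15396 = true ∧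
    allY (E.wth (lkp [])) l15397 = true ∧
    allY (E.wth (lkp [])) l15398 = true ∧
    allY (E.wth (lkp [])) l15399 = true ∧
    allY (E.wth (lkp [])) l15400 = true ∧
    allY (E.wth (lkp [])) l15401 = true ∧
    allY (E.wth (lkp [])) l15402 = true ∧
    allY (E.wth (lkp [])) l15403 = true :=
  ⟨by decide +kernel, by decide +kernel, by decide +kernel, by decide +kernel, by decide +kernel, by decide +kernel, by decide +kernel, by decide +kernel⟩

def t15404 : allY (E.wth (lkp [])) l15404 = true ∧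
    allY (E.wth (lkp [])) l15405 = true ∧
    allY (E.wth (lkp [])) l15406 = true ∧
    allY (E.wth (lkp [])) l15407 = true ∧
    allY (E.wth (lkp [])) l15408 = true ∧
    allY (E.wth (lkp [])) l15409 = true ∧
    allY (E.wth (lkp [])) l15410 = true ∧
    allY (E.wth (lkp [])) l15411 = true :=
  ⟨by decide +kernel, by decide +kernel, by decide +kernel, by decide +kernel, by decide +kernel, by decide +kernel, by decide +kernel, by decide +kernel⟩

def t15412 : allY (E.wth (lkp [])) l15412 = true ∧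
    allY (E.wth (lkp [])) l15413 = true ∧
    allY (E.wth (lkp [])) l15414 = true ∧
    allY (E.wth (lkp [])) l15415 = true ∧
    allY (E.wth (lkp [])) l15416 = true ∧
    allY (E.wth (lkp [])) l15417 = true ∧
    allY (E.wth (lkp [])) l15418 = true ∧
    allY (E.wth (lkp [])) l15419 = true :=
  ⟨by decide +kernel, by decide +kernel, by decide +kernel, by decide +kernel, by decide +kernel, by decide +kernel, by decide +kernel, by decide +kernel⟩

def t15420 : allY (E.wth (lkp [])) l15420 = true ∧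
    allY (E.wth (lkp [])) l15421 = true ∧
    allY (E.wth (lkp [])) l15422 = true ∧
    allY (E.wth (lkp [])) l15423 = true ∧
    allY (E.wth (lkp [])) l15424 = true ∧
    allY (E.wth (lkp [])) l15425 = true ∧
    allY (E.wth (lkp [])) l15426 = true ∧
    allY (E.wth (lkp [])) l15427 = true :=
  ⟨by decide +kernel, by decide +kernel, by decide +kernel, by decide +kernel, by decide +kernel, by decide +kernel, by decide +kernel, by decide +kernel⟩

def t15428 : allY (E.wth (lkp [])) l15428 = true ∧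
    allY (E.wth (lkp [])) l15429 = true ∧
    allY (E.wth (lkp [])) l15430 = true ∧
    allY (E.wth (lkp [])) l15431 = true ∧
    allY (E.wth (lkp [])) l15432 = true ∧
    allY (E.wth (lkp [])) l15433 = true ∧
    allY (E.wth (lkp [])) l15434 = true ∧
    allY (E.wth (lkp [])) l15435 = true :=
  ⟨by decide +kernel, by decide +kernel, by decide +kernel, by decide +kernel, by decide +kernel, by decide +kernel, by decide +kernel, by decide +kernel⟩

def t15436 : allY (E.wth (lkp [])) l15436 = true ∧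
    allY (E.wth (lkp [])) l15437 = true ∧
    allY (E.wth (lkp [])) l15438 = true ∧
    allY (E.wth (lkp [])) l15439 = true ∧
    allY (E.wth (lkp [])) l15440 = true ∧
    allY (E.wth (lkp [])) l15441 = true ∧
    allY (E.wth (lkp [])) l15442 = true ∧
    allY (E.wth (lkp [])) l15443 = true :=
  ⟨by decide +kernel, by decide +kernel, by decide +kernel, by decide +kernel, by decide +kernel, by decide +kernel, by decide +kernel, by decide +kernel⟩

def t15444 : allY (E.wth (lkp [])) l15444 = true ∧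
    allY (E.wth (lkp [])) l15445 = true ∧
    allY (E.wth (lkp [])) l15446 = true ∧
    allY (E.wth (lkp [])) l15447 = true ∧
    allY (E.wth (lkp [])) l15448 = true ∧
    allY (E.wth (lkp [])) l15449 = true ∧
    allY (E.wth (lkp [])) l15450 = true ∧
    allY (E.wth (lkp [])) l15451 = true :=
  ⟨by decide +kernel, by decide +kernel, by decide +kernel, by decide +kernel, by decide +kernel, by decide +kernel, by decide +kernel, by decide +kernel⟩

def t15452 : allY (E.wth (lkp [])) l15452 = true ∧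
    allY (E.wth (lkp [])) l15453 = true ∧
    allY (E.wth (lkp [])) l15454 = true ∧
    allY (E.wth (lkp [])) l15455 = true ∧
    allY (E.wth (lkp [])) l15456 = true ∧
    allY (E.wth (lkp [])) l15457 = true ∧
    allY (E.wth (lkp [])) l15458 = true ∧
    allY (E.wth (lkp [])) l15459 = true :=
  ⟨by decide +kernel, by decide +kernel, by decide +kernel, by decide +kernel, by decide +kernel, by decide +kernel, by decide +kernel, by decide +kernel⟩

def t15460 : allY (E.wth (lkp [])) l15460 = true ∧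
    allY (E.wth (lkp [])) l15461 = true ∧
    allY (E.wth (lkp [])) l15462 = true ∧
    allY (E.wth (lkp [])) l15463 = true ∧
    allY (E.wth (lkp [])) l15464 = true ∧
    allY (E.wth (lkp [])) l15465 = true ∧
    allY (E.wth (lkp [])) l15466 = true ∧
    allY (E.wth (lkp [])) l15467 = true :=
  ⟨by decide +kernel, by decide +kernel, by decide +kernel, by decide +kernel, by decide +kernel, by decide +kernel, by decide +kernel, by decide +kernel⟩

def t15468 : allY (E.wth (lkp [])) l15468 = true ∧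
    allY (E.wth (lkp [])) l15469 = true ∧
    allY (E.wth (lkp [])) l15470 = true ∧
    allY (E.wth (lkp [])) l15471 = true ∧
    allY (E.wth (lkp [])) l15472 = true ∧
    allY (E.wth (lkp [])) l15473 = true ∧
    allY (E.wth (lkp [])) l15474 = true ∧
    allY (E.wth (lkp [])) l15475 = true :=
  ⟨by decide +kernel, by decide +kernel, by decide +kernel, by decide +kernel, by decide +kernel, by decide +kernel, by decide +kernel, by decide +kernel⟩

def t15476 : allY (E.wth (lkp [])) l15476 = true ∧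
    allY (E.wth (lkp [])) l15477 = true ∧
    allY (E.wth (lkp [])) l15478 = true ∧
    allY (E.wth (lkp [])) l15479 = true ∧
    allY (E.wth (lkp [])) l15480 = true ∧
    allY (E.wth (lkp [])) l15481 = true ∧
    allY (E.wth (lkp [])) l15482 = true ∧
    allY (E.wth (lkp [])) l15483 = true :=
  ⟨by decide +kernel, by decide +kernel, by decide +kernel, by decide +kernel, by decide +kernel, by decide +kernel, by decide +kernel, by decide +kernel⟩

def t15484 : allY (E.wth (lkp [])) l15484 = true ∧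
    allY (E.wth (lkp [])) l15485 = true ∧
    allY (E.wth (lkp [])) l15486 = true ∧
    allY (E.wth (lkp [])) l15487 = true ∧
    allY (E.wth (lkp [])) l15488 = true ∧
    allY (E.wth (lkp [])) l15489 = true ∧
    allY (E.wth (lkp [])) l15490 = true ∧
    allY (E.wth (lkp [])) l15491 = true :=
  ⟨by decide +kernel, by decide +kernel, by decide +kernel, by decide +kernel, by decide +kernel, by decide +kernel, by decide +kernel, by decide +kernel⟩

def t15492 : allY (E.wth (lkp [])) l15492 = true ∧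
    allY (E.wth (lkp [])) l15493 = true ∧
    allY (E.wth (lkp [])) l15494 = true ∧
    allY (E.wth (lkp [])) l15495 = true ∧
    allY (E.wth (lkp [])) l15496 = true ∧
    allY (E.wth (lkp [])) l15497 = true ∧
    allY (E.wth (lkp [])) l15498 = true ∧
    allY (E.wth (lkp [])) l15499 = true :=
  ⟨by decide +kernel, by decide +kernel, by decide +kernel, by decide +kernel, by decide +kernel, by decide +kernel, by decide +kernel, by decide +kernel⟩

def t15500 : allY (E.wth (lkp [])) l15500 = true ∧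
    allY (E.wth (lkp [])) l15501 = true ∧
    allY (E.wth (lkp [])) l15502 = true ∧
    allY (E.wth (lkp [])) l15503 = true ∧
    allY (E.wth (lkp [])) l15504 = true ∧
    allY (E.wth (lkp [])) l15505 = true ∧
    allY (E.wth (lkp [])) l15506 = true ∧
    allY (E.wth (lkp [])) l15507 = true :=
  ⟨by decide +kernel, by decide +kernel, by decide +kernel, by decide +kernel, by decide +kernel, by decide +kernel, by decide +kernel, by decide +kernel⟩

def t15508 : allY (E.wth (lkp [])) l15508 = true ∧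
    allY (E.wth (lkp [])) l15509 = true ∧
    allY (E.wth (lkp [])) l15510 = true ∧
    allY (E.wth (lkp [])) l15511 = true ∧
    allY (E.wth (lkp [])) l15512 = true ∧
    allY (E.wth (lkp [])) l15513 = true ∧
    allY (E.wth (lkp [])) l15514 = true ∧
    allY (E.wth (lkp [])) l15515 = true :=
  ⟨by decide +kernel, by decide +kernel, by decide +kernel, by decide +kernel, by decide +kernel, by decide +kernel, by decide +kernel, by decide +kernel⟩

def t15516 : allY (E.wth (lkp [])) l15516 = true ∧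
    allY (E.wth (lkp [])) l15517 = true ∧
    allY (E.wth (lkp [])) l15518 = true ∧
    allY (E.wth (lkp [])) l15519 = true ∧
    allY (E.wth (lkp [])) l15520 = true ∧
    allY (E.wth (lkp [])) l15521 = true ∧
    allY (E.wth (lkp [])) l15522 = true ∧
    allY (E.wth (lkp [])) l15523 = true :=
  ⟨by decide +kernel, by decide +kernel, by decide +kernel, by decide +kernel, by decide +kernel, by decide +kernel, by decide +kernel, by decide +kernel⟩

def t15524 : allY (E.wth (lkp [])) l15524 = true ∧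
    allY (E.wth (lkp [])) l15525 = true ∧
    allY (E.wth (lkp [])) l15526 = true ∧
    allY (E.wth (lkp [])) l15527 = true ∧
    allY (E.wth (lkp [])) l15528 = true ∧
    allY (E.wth (lkp [])) l15529 = true ∧
    allY (E.wth (lkp [])) l15530 = true ∧
    allY (E.wth (lkp [])) l15531 = true :=
  ⟨by decide +kernel, by decide +kernel, by decide +kernel, by decide +kernel, by decide +kernel, by decide +kernel, by decide +kernel, by decide +kernel⟩

def t15532 : allY (E.wth (lkp [])) l15532 = true ∧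
    allY (E.wth (lkp [])) l15533 = true ∧
    allY (E.wth (lkp [])) l15534 = true ∧
    allY (E.wth (lkp [])) l15535 = true ∧
    allY (E.wth (lkp [])) l15536 = true ∧
    allY (E.wth (lkp [])) l15537 = true ∧
    allY (E.wth (lkp [])) l15538 = true ∧
    allY (E.wth (lkp [])) l15539 = true :=
  ⟨by decide +kernel, by decide +kernel, by decide +kernel, by decide +kernel, by decide +kernel, by decide +kernel, by decide +kernel, by decide +kernel⟩

def t15540 : allY (E.wth (lkp [])) l15540 = true ∧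
    allY (E.wth (lkp [])) l15541 = true ∧
    allY (E.wth (lkp [])) l15542 = true ∧
    allY (E.wth (lkp [])) l15543 = true ∧
    allY (E.wth (lkp [])) l15544 = true ∧
    allY (E.wth (lkp [])) l15545 = true ∧
    allY (E.wth (lkp [])) l15546 = true ∧
    allY (E.wth (lkp [])) l15547 = true :=
  ⟨by decide +kernel, by decide +kernel, by decide +kernel, by decide +kernel, by decide +kernel, by decide +kernel, by decide +kernel, by decide +kernel⟩

def t15548 : allY (E.wth (lkp [])) l15548 = true ∧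
    allY (E.wth (lkp [])) l15549 = true ∧
    allY (E.wth (lkp [])) l15550 = true ∧
    allY (E.wth (lkp [])) l15551 = true ∧
    allY (E.wth (lkp [])) l15552 = true ∧
    allY (E.wth (lkp [])) l15553 = true ∧
    allY (E.wth (lkp [])) l15554 = true ∧
    allY (E.wth (lkp [])) l15555 = true :=
  ⟨by decide +kernel, by decide +kernel, by decide +kernel, by decide +kernel, by decide +kernel, by decide +kernel, by decide +kernel, by decide +kernel⟩

def t15556 : allY (E.wth (lkp [])) l15556 = true ∧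
    allY (E.wth (lkp [])) l15557 = true ∧
    allY (E.wth (lkp [])) l15558 = true ∧
    allY (E.wth (lkp [])) l15559 = true ∧
    allY (E.wth (lkp [])) l15560 = true ∧
    allY (E.wth (lkp [])) l15561 = true ∧
    allY (E.wth (lkp [])) l15562 = true ∧
    allY (E.wth (lkp [])) l15563 = true :=
  ⟨by decide +kernel, by decide +kernel, by decide +kernel, by decide +kernel, by decide +kernel, by decide +kernel, by decide +kernel, by decide +kernel⟩

def t15564 : allY (E.wth (lkp [])) l15564 = true ∧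
    allY (E.wth (lkp [])) l15565 = true ∧
    allY (E.wth (lkp [])) l15566 = true ∧
    allY (E.wth (lkp [])) l15567 = true ∧
    allY (E.wth (lkp [])) l15568 = true ∧
    allY (E.wth (lkp [])) l15569 = true ∧
    allY (E.wth (lkp [])) l15570 = true ∧
    allY (E.wth (lkp [])) l15571 = true :=
  ⟨by decide +kernel, by decide +kernel, by decide +kernel, by decide +kernel, by decide +kernel, by decide +kernel, by decide +kernel, by decide +kernel⟩

def t15572 : allY (E.wth (lkp [])) l15572 = true ∧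
    allY (E.wth (lkp [])) l15573 = true ∧
    allY (E.wth (lkp [])) l15574 = true ∧
    allY (E.wth (lkp [])) l15575 = true ∧
    allY (E.wth (lkp [])) l15576 = true ∧
    allY (E.wth (lkp [])) l15577 = true ∧
    allY (E.wth (lkp [])) l15578 = true ∧
    allY (E.wth (lkp [])) l15579 = true :=
  ⟨by decide +kernel, by decide +kernel, by decide +kernel, by decide +kernel, by decide +kernel, by decide +kernel, by decide +kernel, by decide +kernel⟩

def t15580 : allY (E.wth (lkp [])) l15580 = true ∧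
    allY (E.wth (lkp [])) l15581 = true ∧
    allY (E.wth (lkp [])) l15582 = true ∧
    allY (E.wth (lkp [])) l15583 = true ∧
    allY (E.wth (lkp [])) l15584 = true ∧
    allY (E.wth (lkp [])) l15585 = true ∧
    allY (E.wth (lkp [])) l15586 = true ∧
    allY (E.wth (lkp [])) l15587 = true :=
  ⟨by decide +kernel, by decide +kernel, by decide +kernel, by decide +kernel, by decide +kernel, by decide +kernel, by decide +kernel, by decide +kernel⟩

def t15588 : allY (E.wth (lkp [])) l15588 = true ∧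
    allY (E.wth (lkp [])) l15589 = true ∧
    allY (E.wth (lkp [])) l15590 = true ∧
    allY (E.wth (lkp [])) l15591 = true ∧
    allY (E.wth (lkp [])) l15592 = true ∧
    allY (E.wth (lkp [])) l15593 = true ∧
    allY (E.wth (lkp [])) l15594 = true ∧
    allY (E.wth (lkp [])) l15595 = true :=
  ⟨by decide +kernel, by decide +kernel, by decide +kernel, by decide +kernel, by decide +kernel, by decide +kernel, by decide +kernel, by decide +kernel⟩

def t15596 : allY (E.wth (lkp [])) l15596 = true ∧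
    allY (E.wth (lkp [])) l15597 = true ∧
    allY (E.wth (lkp [])) l15598 = true ∧
    allY (E.wth (lkp [])) l15599 = true ∧
    allY (E.wth (lkp [])) l15600 = true ∧
    allY (E.wth (lkp [])) l15601 = true ∧
    allY (E.wth (lkp [])) l15602 = true ∧
    allY (E.wth (lkp [])) l15603 = true :=
  ⟨by decide +kernel, by decide +kernel, by decide +kernel, by decide +kernel, by decide +kernel, by decide +kernel, by decide +kernel, by decide +kernel⟩

def t15604 : allY (E.wth (lkp [])) l15604 = true ∧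
    allY (E.wth (lkp [])) l15605 = true ∧
    allY (E.wth (lkp [])) l15606 = true ∧
    allY (E.wth (lkp [])) l15607 = true ∧
    allY (E.wth (lkp [])) l15608 = true ∧
    allY (E.wth (lkp [])) l15609 = true ∧
    allY (E.wth (lkp [])) l15610 = true ∧
    allY (E.wth (lkp [])) l15611 = true :=
  ⟨by decide +kernel, by decide +kernel, by decide +kernel, by decide +kernel, by decide +kernel, by decide +kernel, by decide +kernel, by decide +kernel⟩

def t15612 : allY (E.wth (lkp [])) l15612 = true ∧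
    allY (E.wth (lkp [])) l15613 = true ∧
    allY (E.wth (lkp [])) l15614 = true ∧
    allY (E.wth (lkp [])) l15615 = true ∧
    allY (E.wth (lkp [])) l15616 = true ∧
    allY (E.wth (lkp [])) l15617 = true ∧
    allY (E.wth (lkp [])) l15618 = true ∧
    allY (E.wth (lkp [])) l15619 = true :=
  ⟨by decide +kernel, by decide +kernel, by decide +kernel, by decide +kernel, by decide +kernel, by decide +kernel, by decide +kernel, by decide +kernel⟩

def t15620 : allY (E.wth (lkp [])) l15620 = true ∧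
    allY (E.wth (lkp [])) l15621 = true ∧
    allY (E.wth (lkp [])) l15622 = true ∧
    allY (E.wth (lkp [])) l15623 = true ∧
    allY (E.wth (lkp [])) l15624 = true ∧
    allY (E.wth (lkp [])) l15625 = true ∧
    allY (E.wth (lkp [])) l15626 = true ∧
    allY (E.wth (lkp [])) l15627 = true :=
  ⟨by decide +kernel, by decide +kernel, by decide +kernel, by decide +kernel, by decide +kernel, by decide +kernel, by decide +kernel, by decide +kernel⟩

def t15628 : allY (E.wth (lkp [])) l15628 = true ∧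
    allY (E.wth (lkp [])) l15629 = true ∧
    allY (E.wth (lkp [])) l15630 = true ∧
    allY (E.wth (lkp [])) l15631 = true ∧
    allY (E.wth (lkp [])) l15632 = true ∧
    allY (E.wth (lkp [])) l15633 = true ∧
    allY (E.wth (lkp [])) l15634 = true ∧
    allY (E.wth (lkp [])) l15635 = true :=
  ⟨by decide +kernel, by decide +kernel, by decide +kernel, by decide +kernel, by decide +kernel, by decide +kernel, by decide +kernel, by decide +kernel⟩

def t15636 : allY (E.wth (lkp [])) l15636 = true ∧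
    allY (E.wth (lkp [])) l15637 = true ∧
    allY (E.wth (lkp [])) l15638 = true ∧
    allY (E.wth (lkp [])) l15639 = true ∧
    allY (E.wth (lkp [])) l15640 = true ∧
    allY (E.wth (lkp [])) l15641 = true ∧
    allY (E.wth (lkp [])) l15642 = true ∧
    allY (E.wth (lkp [])) l15643 = true :=
  ⟨by decide +kernel, by decide +kernel, by decide +kernel, by decide +kernel, by decide +kernel, by decide +kernel, by decide +kernel, by decide +kernel⟩

def t15644 : allY (E.wth (lkp [])) l15644 = true ∧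
    allY (E.wth (lkp [])) l15645 = true ∧
    allY (E.wth (lkp [])) l15646 = true ∧
    allY (E.wth (lkp [])) l15647 = true ∧
    allY (E.wth (lkp [])) l15648 = true ∧
    allY (E.wth (lkp [])) l15649 = true ∧
    allY (E.wth (lkp [])) l15650 = true ∧
    allY (E.wth (lkp [])) l15651 = true :=
  ⟨by decide +kernel, by decide +kernel, by decide +kernel, by decide +kernel, by decide +kernel, by decide +kernel, by decide +kernel, by decide +kernel⟩

def t15652 : allY (E.wth (lkp [])) l15652 = true ∧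
    allY (E.wth (lkp [])) l15653 = true ∧
    allY (E.wth (lkp [])) l15654 = true ∧
    allY (E.wth (lkp [])) l15655 = true ∧
    allY (E.wth (lkp [])) l15656 = true ∧
    allY (E.wth (lkp [])) l15657 = true ∧
    allY (E.wth (lkp [])) l15658 = true ∧
    allY (E.wth (lkp [])) l15659 = true :=
  ⟨by decide +kernel, by decide +kernel, by decide +kernel, by decide +kernel, by decide +kernel, by decide +kernel, by decide +kernel, by decide +kernel⟩

def t15660 : allY (E.wth (lkp [])) l15660 = true ∧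
    allY (E.wth (lkp [])) l15661 = true ∧
    allY (E.wth (lkp [])) l15662 = true ∧
    allY (E.wth (lkp [])) l15663 = true ∧
    allY (E.wth (lkp [])) l15664 = true ∧
    allY (E.wth (lkp [])) l15665 = true ∧
    allY (E.wth (lkp [])) l15666 = true ∧
    allY (E.wth (lkp [])) l15667 = true :=
  ⟨by decide +kernel, by decide +kernel, by decide +kernel, by decide +kernel, by decide +kernel, by decide +kernel, by decide +kernel, by decide +kernel⟩

def t15668 : allY (E.wth (lkp [])) l15668 = true ∧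
    allY (E.wth (lkp [])) l15669 = true ∧
    allY (E.wth (lkp [])) l15670 = true ∧
    allY (E.wth (lkp [])) l15671 = true ∧
    allY (E.wth (lkp [])) l15672 = true ∧
    allY (E.wth (lkp [])) l15673 = true ∧
    allY (E.wth (lkp [])) l15674 = true ∧
    allY (E.wth (lkp [])) l15675 = true :=
  ⟨by decide +kernel, by decide +kernel, by decide +kernel, by decide +kernel, by decide +kernel, by decide +kernel, by decide +kernel, by decide +kernel⟩

def t15676 : allY (E.wth (lkp [])) l15676 = true ∧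
    allY (E.wth (lkp [])) l15677 = true ∧
    allY (E.wth (lkp [])) l15678 = true ∧
    allY (E.wth (lkp [])) l15679 = true ∧
    allY (E.wth (lkp [])) l15680 = true ∧
    allY (E.wth (lkp [])) l15681 = true ∧
    allY (E.wth (lkp [])) l15682 = true ∧
    allY (E.wth (lkp [])) l15683 = true :=
  ⟨by decide +kernel, by decide +kernel, by decide +kernel, by decide +kernel, by decide +kernel, by decide +kernel, by decide +kernel, by decide +kernel⟩

def t15684 : allY (E.wth (lkp [])) l15684 = true ∧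
    allY (E.wth (lkp [])) l15685 = true ∧
    allY (E.wth (lkp [])) l15686 = true ∧
    allY (E.wth (lkp [])) l15687 = true ∧
    allY (E.wth (lkp [])) l15688 = true ∧
    allY (E.wth (lkp [])) l15689 = true ∧
    allY (E.wth (lkp [])) l15690 = true ∧
    allY (E.wth (lkp [])) l15691 = true :=
  ⟨by decide +kernel, by decide +kernel, by decide +kernel, by decide +kernel, by decide +kernel, by decide +kernel, by decide +kernel, by decide +kernel⟩

def t15692 : allY (E.wth (lkp [])) l15692 = true ∧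
    allY (E.wth (lkp [])) l15693 = true ∧
    allY (E.wth (lkp [])) l15694 = true ∧
    allY (E.wth (lkp [])) l15695 = true ∧
    allY (E.wth (lkp [])) l15696 = true ∧
    allY (E.wth (lkp [])) l15697 = true :=
  ⟨by decide +kernel, by decide +kernel, by decide +kernel, by decide +kernel, by decide +kernel, by decide +kernel⟩

theorem a27 {p : Rf → Prop} (H : ∀ l, allY (E.wth (lkp [])) l = true → (lkp l).All p) :
    b27.All p := ⟨⟨⟨⟨⟨⟨⟨⟨⟨H _ t15132.1, H _ t15132.2.1⟩, ⟨H _ t15132.2.2.1, H _ t15132.2.2.2.1⟩⟩, ⟨⟨H _ t15132.2.2.2.2.1, H _ t15132.2.2.2.2.2.1⟩, ⟨H _ t15132.2.2.2.2.2.2.1, H _ t15132.2.2.2.2.2.2.2⟩⟩⟩, ⟨⟨⟨H _ t15140.1, H _ t15140.2.1⟩, ⟨H _ t15140.2.2.1, H _ t15140.2.2.2.1⟩⟩, ⟨⟨H _ t15140.2.2.2.2.1, H _ t15140.2.2.2.2.2.1⟩, ⟨H _ t15140.2.2.2.2.2.2.1, ⟨H _ t15140.2.2.2.2.2.2.2, H _ t15148.1⟩⟩⟩⟩⟩, ⟨⟨⟨⟨H _ t15148.2.1, H _ t15148.2.2.1⟩, ⟨H _ t15148.2.2.2.1, H _ t15148.2.2.2.2.1⟩⟩, ⟨⟨H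 _ t15148.2.2.2.2.2.1, H _ t15148.2.2.2.2.2.2.1⟩, ⟨H _ t15148.2.2.2.2.2.2.2, ⟨H _ t15156.1, H _ t15156.2.1⟩⟩⟩⟩, ⟨⟨⟨H _ t15156.2.2.1, H _ t15156.2.2.2.1⟩, ⟨H _ t15156.2.2.2.2.1, H _ t15156.2.2.2.2.2.1⟩⟩, ⟨⟨H _ t15156.2.2.2.2.2.2.1, H _ t15156.2.2.2.2.2.2.2⟩, ⟨H _ t15164.1, ⟨H _ t15164.2.1, H _ t15164.2.2.1⟩⟩⟩⟩⟩⟩, ⟨⟨⟨⟨⟨H _ t15164.2.2.2.1, H _ t15164.2.2.2.2.1⟩, ⟨H _ t15164.2.2.2.2.2.1, H _ t15164.2.2.2.2.2.2.1⟩⟩, ⟨⟨H _ t15164.2.2.2.2.2.2.2, H _ t15172.1⟩, ⟨H _ t15172.2.1, H _ t15172.2.2.1⟩⟩⟩, ⟨⟨⟨H _ t15172.2.2.2.1, H _ t15172.2.2.2.2.1⟩, ⟨H _ t15172.2.2.2.2.2.1, H _ t15172.2.2.2.2.2.2.1⟩⟩, ⟨⟨H _ t15172.2.2.2.2.2.2.2, H _ t15180.1⟩, ⟨H _ t15180.2.1, ⟨H _ t15180.2.2.1, H _ t15180.2.2.2.1⟩⟩⟩⟩⟩, ⟨⟨⟨⟨H _ t15180.2.2.2.2.1, H _ t15180.2.2.2.2.2.1⟩, ⟨H _ t15180.2.2.2.2.2.2.1, H _ t15180.2.2.2.2.2.2.2⟩⟩, ⟨⟨H _ t15188.1, H _ t15188.2.1⟩, ⟨H _ t15188.2.2.1, ⟨H _ t15188.2.2.2.1, H _ t15188.2.2.2.2.1⟩⟩⟩⟩, ⟨⟨⟨H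 _ t15188.2.2.2.2.2.1, H _ t15188.2.2.2.2.2.2.1⟩, ⟨H _ t15188.2.2.2.2.2.2.2, H _ t15196.1⟩⟩, ⟨⟨H _ t15196.2.1, H _ t15196.2.2.1⟩, ⟨H _ t15196.2.2.2.1, ⟨H _ t15196.2.2.2.2.1, H _ t15196.2.2.2.2.2.1⟩⟩⟩⟩⟩⟩⟩, ⟨⟨⟨⟨⟨⟨H _ t15196.2.2.2.2.2.2.1, H _ t15196.2.2.2.2.2.2.2⟩, ⟨H _ t15204.1, H _ t15204.2.1⟩⟩, ⟨⟨H _ t15204.2.2.1, H _ t15204.2.2.2.1⟩, ⟨H _ t15204.2.2.2.2.1, H _ t15204.2.2.2.2.2.1⟩⟩⟩, ⟨⟨⟨H _ t15204.2.2.2.2.2.2.1, H _ t15204.2.2.2.2.2.2.2⟩, ⟨H _ t15212.1, H _ t15212.2.1⟩⟩, ⟨⟨H _ t15212.2.2.1, H _ t15212.2.2.2.1⟩, ⟨H _ t15212.2.2.2.2.1, ⟨H _ t15212.2.2.2.2.2.1, H _ t15212.2.2.2.2.2.2.1⟩⟩⟩⟩⟩, ⟨⟨⟨⟨H _ t15212.2.2.2.2.2.2.2, H _ t15220.1⟩, ⟨H _ t15220.2.1, H _ t15220.2.2.1⟩⟩, ⟨⟨H _ t15220.2.2.2.1, H _ t15220.2.2.2.2.1⟩, ⟨H _ t15220.2.2.2.2.2.1, ⟨H _ t15220.2.2.2.2.2.2.1, H _ t15220.2.2.2.2.2.2.2⟩⟩⟩⟩, ⟨⟨⟨H _ t15228.1, H _ t15228.2.1⟩, ⟨H _ t15228.2.2.1, H _ t15228.2.2.2.1⟩⟩, ⟨⟨H _ t15228.2.2.2.2.1, H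 _ t15228.2.2.2.2.2.1⟩, ⟨H _ t15228.2.2.2.2.2.2.1, ⟨H _ t15228.2.2.2.2.2.2.2, H _ t15236.1⟩⟩⟩⟩⟩⟩, ⟨⟨⟨⟨⟨H _ t15236.2.1, H _ t15236.2.2.1⟩, ⟨H _ t15236.2.2.2.1, H _ t15236.2.2.2.2.1⟩⟩, ⟨⟨H _ t15236.2.2.2.2.2.1, H _ t15236.2.2.2.2.2.2.1⟩, ⟨H _ t15236.2.2.2.2.2.2.2, ⟨H _ t15244.1, H _ t15244.2.1⟩⟩⟩⟩, ⟨⟨⟨H _ t15244.2.2.1, H _ t15244.2.2.2.1⟩, ⟨H _ t15244.2.2.2.2.1, H _ t15244.2.2.2.2.2.1⟩⟩, ⟨⟨H _ t15244.2.2.2.2.2.2.1, H _ t15244.2.2.2.2.2.2.2⟩, ⟨H _ t15252.1, ⟨H _ t15252.2.1, H _ t15252.2.2.1⟩⟩⟩⟩⟩, ⟨⟨⟨⟨H _ t15252.2.2.2.1, H _ t15252.2.2.2.2.1⟩, ⟨H _ t15252.2.2.2.2.2.1, H _ t15252.2.2.2.2.2.2.1⟩⟩, ⟨⟨H _ t15252.2.2.2.2.2.2.2, H _ t15260.1⟩, ⟨H _ t15260.2.1, ⟨H _ t15260.2.2.1, H _ t15260.2.2.2.1⟩⟩⟩⟩, ⟨⟨⟨H _ t15260.2.2.2.2.1, H _ t15260.2.2.2.2.2.1⟩, ⟨H _ t15260.2.2.2.2.2.2.1, H _ t15260.2.2.2.2.2.2.2⟩⟩, ⟨⟨H _ t15268.1, H _ t15268.2.1⟩, ⟨H _ t15268.2.2.1, ⟨H _ t15268.2.2.2.1, H _ t15268.2.2.2.2.1⟩⟩⟩⟩⟩⟩⟩⟩,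 ⟨⟨⟨⟨⟨⟨⟨H _ t15268.2.2.2.2.2.1, H _ t15268.2.2.2.2.2.2.1⟩, ⟨H _ t15268.2.2.2.2.2.2.2, H _ t15276.1⟩⟩, ⟨⟨H _ t15276.2.1, H _ t15276.2.2.1⟩, ⟨H _ t15276.2.2.2.1, H _ t15276.2.2.2.2.1⟩⟩⟩, ⟨⟨⟨H _ t15276.2.2.2.2.2.1, H _ t15276.2.2.2.2.2.2.1⟩, ⟨H _ t15276.2.2.2.2.2.2.2, H _ t15284.1⟩⟩, ⟨⟨H _ t15284.2.1, H _ t15284.2.2.1⟩, ⟨H _ t15284.2.2.2.1, ⟨H _ t15284.2.2.2.2.1, H _ t15284.2.2.2.2.2.1⟩⟩⟩⟩⟩, ⟨⟨⟨⟨H _ t15284.2.2.2.2.2.2.1, H _ t15284.2.2.2.2.2.2.2⟩, ⟨H _ t15292.1, H _ t15292.2.1⟩⟩, ⟨⟨H _ t15292.2.2.1, H _ t15292.2.2.2.1⟩, ⟨H _ t15292.2.2.2.2.1, ⟨H _ t15292.2.2.2.2.2.1, H _ t15292.2.2.2.2.2.2.1⟩⟩⟩⟩, ⟨⟨⟨H _ t15292.2.2.2.2.2.2.2, H _ t15300.1⟩, ⟨H _ t15300.2.1, H _ t15300.2.2.1⟩⟩, ⟨⟨H _ t15300.2.2.2.1, H _ t15300.2.2.2.2.1⟩, ⟨H _ t15300.2.2.2.2.2.1, ⟨H _ t15300.2.2.2.2.2.2.1, H _ t15300.2.2.2.2.2.2.2⟩⟩⟩⟩⟩⟩, ⟨⟨⟨⟨⟨H _ t15308.1, H _ t15308.2.1⟩, ⟨H _ t15308.2.2.1, H _ t15308.2.2.2.1⟩⟩, ⟨⟨H _ t15308.2.2.2.2.1,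 H _ t15308.2.2.2.2.2.1⟩, ⟨H _ t15308.2.2.2.2.2.2.1, ⟨H _ t15308.2.2.2.2.2.2.2, H _ t15316.1⟩⟩⟩⟩, ⟨⟨⟨H _ t15316.2.1, H _ t15316.2.2.1⟩, ⟨H _ t15316.2.2.2.1, H _ t15316.2.2.2.2.1⟩⟩, ⟨⟨H _ t15316.2.2.2.2.2.1, H _ t15316.2.2.2.2.2.2.1⟩, ⟨H _ t15316.2.2.2.2.2.2.2, ⟨H _ t15324.1, H _ t15324.2.1⟩⟩⟩⟩⟩, ⟨⟨⟨⟨H _ t15324.2.2.1, H _ t15324.2.2.2.1⟩, ⟨H _ t15324.2.2.2.2.1, H _ t15324.2.2.2.2.2.1⟩⟩, ⟨⟨H _ t15324.2.2.2.2.2.2.1, H _ t15324.2.2.2.2.2.2.2⟩, ⟨H _ t15332.1, ⟨H _ t15332.2.1, H _ t15332.2.2.1⟩⟩⟩⟩, ⟨⟨⟨H _ t15332.2.2.2.1, H _ t15332.2.2.2.2.1⟩, ⟨H _ t15332.2.2.2.2.2.1, H _ t15332.2.2.2.2.2.2.1⟩⟩, ⟨⟨H _ t15332.2.2.2.2.2.2.2, H _ t15340.1⟩, ⟨H _ t15340.2.1, ⟨H _ t15340.2.2.1, H _ t15340.2.2.2.1⟩⟩⟩⟩⟩⟩⟩, ⟨⟨⟨⟨⟨⟨H _ t15340.2.2.2.2.1, H _ t15340.2.2.2.2.2.1⟩, ⟨H _ t15340.2.2.2.2.2.2.1, H _ t15340.2.2.2.2.2.2.2⟩⟩, ⟨⟨H _ t15348.1, H _ t15348.2.1⟩, ⟨H _ t15348.2.2.1, H _ t15348.2.2.2.1⟩⟩⟩, ⟨⟨⟨H _ t15348.2.2.2.2.1,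 H _ t15348.2.2.2.2.2.1⟩, ⟨H _ t15348.2.2.2.2.2.2.1, H _ t15348.2.2.2.2.2.2.2⟩⟩, ⟨⟨H _ t15356.1, H _ t15356.2.1⟩, ⟨H _ t15356.2.2.1, ⟨H _ t15356.2.2.2.1, H _ t15356.2.2.2.2.1⟩⟩⟩⟩⟩, ⟨⟨⟨⟨H _ t15356.2.2.2.2.2.1, H _ t15356.2.2.2.2.2.2.1⟩, ⟨H _ t15356.2.2.2.2.2.2.2, H _ t15364.1⟩⟩, ⟨⟨H _ t15364.2.1, H _ t15364.2.2.1⟩, ⟨H _ t15364.2.2.2.1, ⟨H _ t15364.2.2.2.2.1, H _ t15364.2.2.2.2.2.1⟩⟩⟩⟩, ⟨⟨⟨H _ t15364.2.2.2.2.2.2.1, H _ t15364.2.2.2.2.2.2.2⟩, ⟨H _ t15372.1, H _ t15372.2.1⟩⟩, ⟨⟨H _ t15372.2.2.1, H _ t15372.2.2.2.1⟩, ⟨H _ t15372.2.2.2.2.1, ⟨H _ t15372.2.2.2.2.2.1, H _ t15372.2.2.2.2.2.2.1⟩⟩⟩⟩⟩⟩, ⟨⟨⟨⟨⟨H _ t15372.2.2.2.2.2.2.2, H _ t15380.1⟩, ⟨H _ t15380.2.1, H _ t15380.2.2.1⟩⟩, ⟨⟨H _ t15380.2.2.2.1, H _ t15380.2.2.2.2.1⟩, ⟨H _ t15380.2.2.2.2.2.1, ⟨H _ t15380.2.2.2.2.2.2.1, H _ t15380.2.2.2.2.2.2.2⟩⟩⟩⟩, ⟨⟨⟨H _ t15388.1, H _ t15388.2.1⟩, ⟨H _ t15388.2.2.1, H _ t15388.2.2.2.1⟩⟩, ⟨⟨H _ t15388.2.2.2.2.1,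 H _ t15388.2.2.2.2.2.1⟩, ⟨H _ t15388.2.2.2.2.2.2.1, ⟨H _ t15388.2.2.2.2.2.2.2, H _ t15396.1⟩⟩⟩⟩⟩, ⟨⟨⟨⟨H _ t15396.2.1, H _ t15396.2.2.1⟩, ⟨H _ t15396.2.2.2.1, H _ t15396.2.2.2.2.1⟩⟩, ⟨⟨H _ t15396.2.2.2.2.2.1, H _ t15396.2.2.2.2.2.2.1⟩, ⟨H _ t15396.2.2.2.2.2.2.2, ⟨H _ t15404.1, H _ t15404.2.1⟩⟩⟩⟩, ⟨⟨⟨H _ t15404.2.2.1, H _ t15404.2.2.2.1⟩, ⟨H _ t15404.2.2.2.2.1, H _ t15404.2.2.2.2.2.1⟩⟩, ⟨⟨H _ t15404.2.2.2.2.2.2.1, H _ t15404.2.2.2.2.2.2.2⟩, ⟨H _ t15412.1, ⟨H _ t15412.2.1, H _ t15412.2.2.1⟩⟩⟩⟩⟩⟩⟩⟩⟩, ⟨⟨⟨⟨⟨⟨⟨⟨H _ t15412.2.2.2.1, H _ t15412.2.2.2.2.1⟩, ⟨H _ t15412.2.2.2.2.2.1, H _ t15412.2.2.2.2.2.2.1⟩⟩, ⟨⟨H _ t15412.2.2.2.2.2.2.2, H _ t15420.1⟩, ⟨H _ t15420.2.1, H _ t15420.2.2.1⟩⟩⟩, ⟨⟨⟨H _ t15420.2.2.2.1, H _ t15420.2.2.2.2.1⟩, ⟨H _ t15420.2.2.2.2.2.1, H _ t15420.2.2.2.2.2.2.1⟩⟩, ⟨⟨H _ t15420.2.2.2.2.2.2.2, H _ t15428.1⟩, ⟨H _ t15428.2.1, ⟨H _ t15428.2.2.1, H _ t15428.2.2.2.1⟩⟩⟩⟩⟩, ⟨⟨⟨⟨H _ t15428.2.2.2.2.1,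 H _ t15428.2.2.2.2.2.1⟩, ⟨H _ t15428.2.2.2.2.2.2.1, H _ t15428.2.2.2.2.2.2.2⟩⟩, ⟨⟨H _ t15436.1, H _ t15436.2.1⟩, ⟨H _ t15436.2.2.1, ⟨H _ t15436.2.2.2.1, H _ t15436.2.2.2.2.1⟩⟩⟩⟩, ⟨⟨⟨H _ t15436.2.2.2.2.2.1, H _ t15436.2.2.2.2.2.2.1⟩, ⟨H _ t15436.2.2.2.2.2.2.2, H _ t15444.1⟩⟩, ⟨⟨H _ t15444.2.1, H _ t15444.2.2.1⟩, ⟨H _ t15444.2.2.2.1, ⟨H _ t15444.2.2.2.2.1, H _ t15444.2.2.2.2.2.1⟩⟩⟩⟩⟩⟩, ⟨⟨⟨⟨⟨H _ t15444.2.2.2.2.2.2.1, H _ t15444.2.2.2.2.2.2.2⟩, ⟨H _ t15452.1, H _ t15452.2.1⟩⟩, ⟨⟨H _ t15452.2.2.1, H _ t15452.2.2.2.1⟩, ⟨H _ t15452.2.2.2.2.1, H _ t15452.2.2.2.2.2.1⟩⟩⟩, ⟨⟨⟨H _ t15452.2.2.2.2.2.2.1, H _ t15452.2.2.2.2.2.2.2⟩, ⟨H _ t15460.1, H _ t15460.2.1⟩⟩, ⟨⟨H _ t15460.2.2.1, H _ t15460.2.2.2.1⟩, ⟨H _ t15460.2.2.2.2.1, ⟨H _ t15460.2.2.2.2.2.1, H _ t15460.2.2.2.2.2.2.1⟩⟩⟩⟩⟩, ⟨⟨⟨⟨H _ t15460.2.2.2.2.2.2.2, H _ t15468.1⟩, ⟨H _ t15468.2.1, H _ t15468.2.2.1⟩⟩, ⟨⟨H _ t15468.2.2.2.1, H _ t15468.2.2.2.2.1⟩,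 ⟨H _ t15468.2.2.2.2.2.1, ⟨H _ t15468.2.2.2.2.2.2.1, H _ t15468.2.2.2.2.2.2.2⟩⟩⟩⟩, ⟨⟨⟨H _ t15476.1, H _ t15476.2.1⟩, ⟨H _ t15476.2.2.1, H _ t15476.2.2.2.1⟩⟩, ⟨⟨H _ t15476.2.2.2.2.1, H _ t15476.2.2.2.2.2.1⟩, ⟨H _ t15476.2.2.2.2.2.2.1, ⟨H _ t15476.2.2.2.2.2.2.2, H _ t15484.1⟩⟩⟩⟩⟩⟩⟩, ⟨⟨⟨⟨⟨⟨H _ t15484.2.1, H _ t15484.2.2.1⟩, ⟨H _ t15484.2.2.2.1, H _ t15484.2.2.2.2.1⟩⟩, ⟨⟨H _ t15484.2.2.2.2.2.1, H _ t15484.2.2.2.2.2.2.1⟩, ⟨H _ t15484.2.2.2.2.2.2.2, H _ t15492.1⟩⟩⟩, ⟨⟨⟨H _ t15492.2.1, H _ t15492.2.2.1⟩, ⟨H _ t15492.2.2.2.1, H _ t15492.2.2.2.2.1⟩⟩, ⟨⟨H _ t15492.2.2.2.2.2.1, H _ t15492.2.2.2.2.2.2.1⟩, ⟨H _ t15492.2.2.2.2.2.2.2, ⟨H _ t15500.1, H _ t15500.2.1⟩⟩⟩⟩⟩, ⟨⟨⟨⟨H _ t15500.2.2.1, H _ t15500.2.2.2.1⟩, ⟨H _ t15500.2.2.2.2.1, H _ t15500.2.2.2.2.2.1⟩⟩, ⟨⟨H _ t15500.2.2.2.2.2.2.1, H _ t15500.2.2.2.2.2.2.2⟩, ⟨H _ t15508.1, ⟨H _ t15508.2.1, H _ t15508.2.2.1⟩⟩⟩⟩, ⟨⟨⟨H _ t15508.2.2.2.1, H _ t15508.2.2.2.2.1⟩,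 ⟨H _ t15508.2.2.2.2.2.1, H _ t15508.2.2.2.2.2.2.1⟩⟩, ⟨⟨H _ t15508.2.2.2.2.2.2.2, H _ t15516.1⟩, ⟨H _ t15516.2.1, ⟨H _ t15516.2.2.1, H _ t15516.2.2.2.1⟩⟩⟩⟩⟩⟩, ⟨⟨⟨⟨⟨H _ t15516.2.2.2.2.1, H _ t15516.2.2.2.2.2.1⟩, ⟨H _ t15516.2.2.2.2.2.2.1, H _ t15516.2.2.2.2.2.2.2⟩⟩, ⟨⟨H _ t15524.1, H _ t15524.2.1⟩, ⟨H _ t15524.2.2.1, ⟨H _ t15524.2.2.2.1, H _ t15524.2.2.2.2.1⟩⟩⟩⟩, ⟨⟨⟨H _ t15524.2.2.2.2.2.1, H _ t15524.2.2.2.2.2.2.1⟩, ⟨H _ t15524.2.2.2.2.2.2.2, H _ t15532.1⟩⟩, ⟨⟨H _ t15532.2.1, H _ t15532.2.2.1⟩, ⟨H _ t15532.2.2.2.1, ⟨H _ t15532.2.2.2.2.1, H _ t15532.2.2.2.2.2.1⟩⟩⟩⟩⟩, ⟨⟨⟨⟨H _ t15532.2.2.2.2.2.2.1, H _ t15532.2.2.2.2.2.2.2⟩, ⟨H _ t15540.1, H _ t15540.2.1⟩⟩, ⟨⟨H _ t15540.2.2.1, H _ t15540.2.2.2.1⟩, ⟨H _ t15540.2.2.2.2.1, ⟨H _ t15540.2.2.2.2.2.1, H _ t15540.2.2.2.2.2.2.1⟩⟩⟩⟩, ⟨⟨⟨H _ t15540.2.2.2.2.2.2.2, H _ t15548.1⟩, ⟨H _ t15548.2.1, H _ t15548.2.2.1⟩⟩, ⟨⟨H _ t15548.2.2.2.1, H _ t15548.2.2.2.2.1⟩,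 ⟨H _ t15548.2.2.2.2.2.1, ⟨H _ t15548.2.2.2.2.2.2.1, H _ t15548.2.2.2.2.2.2.2⟩⟩⟩⟩⟩⟩⟩⟩, ⟨⟨⟨⟨⟨⟨⟨H _ t15556.1, H _ t15556.2.1⟩, ⟨H _ t15556.2.2.1, H _ t15556.2.2.2.1⟩⟩, ⟨⟨H _ t15556.2.2.2.2.1, H _ t15556.2.2.2.2.2.1⟩, ⟨H _ t15556.2.2.2.2.2.2.1, H _ t15556.2.2.2.2.2.2.2⟩⟩⟩, ⟨⟨⟨H _ t15564.1, H _ t15564.2.1⟩, ⟨H _ t15564.2.2.1, H _ t15564.2.2.2.1⟩⟩, ⟨⟨H _ t15564.2.2.2.2.1, H _ t15564.2.2.2.2.2.1⟩, ⟨H _ t15564.2.2.2.2.2.2.1, ⟨H _ t15564.2.2.2.2.2.2.2, H _ t15572.1⟩⟩⟩⟩⟩, ⟨⟨⟨⟨H _ t15572.2.1, H _ t15572.2.2.1⟩, ⟨H _ t15572.2.2.2.1, H _ t15572.2.2.2.2.1⟩⟩, ⟨⟨H _ t15572.2.2.2.2.2.1, H _ t15572.2.2.2.2.2.2.1⟩, ⟨H _ t15572.2.2.2.2.2.2.2, ⟨H _ t15580.1, H _ t15580.2.1⟩⟩⟩⟩, ⟨⟨⟨H _ t15580.2.2.1, H _ t15580.2.2.2.1⟩, ⟨H _ t15580.2.2.2.2.1, H _ t15580.2.2.2.2.2.1⟩⟩, ⟨⟨H _ t15580.2.2.2.2.2.2.1, H _ t15580.2.2.2.2.2.2.2⟩, ⟨H _ t15588.1, ⟨H _ t15588.2.1, H _ t15588.2.2.1⟩⟩⟩⟩⟩⟩, ⟨⟨⟨⟨⟨H _ t15588.2.2.2.1, H _ t15588.2.2.2.2.1⟩,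 ⟨H _ t15588.2.2.2.2.2.1, H _ t15588.2.2.2.2.2.2.1⟩⟩, ⟨⟨H _ t15588.2.2.2.2.2.2.2, H _ t15596.1⟩, ⟨H _ t15596.2.1, ⟨H _ t15596.2.2.1, H _ t15596.2.2.2.1⟩⟩⟩⟩, ⟨⟨⟨H _ t15596.2.2.2.2.1, H _ t15596.2.2.2.2.2.1⟩, ⟨H _ t15596.2.2.2.2.2.2.1, H _ t15596.2.2.2.2.2.2.2⟩⟩, ⟨⟨H _ t15604.1, H _ t15604.2.1⟩, ⟨H _ t15604.2.2.1, ⟨H _ t15604.2.2.2.1, H _ t15604.2.2.2.2.1⟩⟩⟩⟩⟩, ⟨⟨⟨⟨H _ t15604.2.2.2.2.2.1, H _ t15604.2.2.2.2.2.2.1⟩, ⟨H _ t15604.2.2.2.2.2.2.2, H _ t15612.1⟩⟩, ⟨⟨H _ t15612.2.1, H _ t15612.2.2.1⟩, ⟨H _ t15612.2.2.2.1, ⟨H _ t15612.2.2.2.2.1, H _ t15612.2.2.2.2.2.1⟩⟩⟩⟩, ⟨⟨⟨H _ t15612.2.2.2.2.2.2.1, H _ t15612.2.2.2.2.2.2.2⟩, ⟨H _ t15620.1, H _ t15620.2.1⟩⟩, ⟨⟨H _ t15620.2.2.1, H _ t15620.2.2.2.1⟩, ⟨H _ t15620.2.2.2.2.1, ⟨H _ t15620.2.2.2.2.2.1, H _ t15620.2.2.2.2.2.2.1⟩⟩⟩⟩⟩⟩⟩, ⟨⟨⟨⟨⟨⟨H _ t15620.2.2.2.2.2.2.2, H _ t15628.1⟩, ⟨H _ t15628.2.1, H _ t15628.2.2.1⟩⟩, ⟨⟨H _ t15628.2.2.2.1, H _ t15628.2.2.2.2.1⟩,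 ⟨H _ t15628.2.2.2.2.2.1, H _ t15628.2.2.2.2.2.2.1⟩⟩⟩, ⟨⟨⟨H _ t15628.2.2.2.2.2.2.2, H _ t15636.1⟩, ⟨H _ t15636.2.1, H _ t15636.2.2.1⟩⟩, ⟨⟨H _ t15636.2.2.2.1, H _ t15636.2.2.2.2.1⟩, ⟨H _ t15636.2.2.2.2.2.1, ⟨H _ t15636.2.2.2.2.2.2.1, H _ t15636.2.2.2.2.2.2.2⟩⟩⟩⟩⟩, ⟨⟨⟨⟨H _ t15644.1, H _ t15644.2.1⟩, ⟨H _ t15644.2.2.1, H _ t15644.2.2.2.1⟩⟩, ⟨⟨H _ t15644.2.2.2.2.1, H _ t15644.2.2.2.2.2.1⟩, ⟨H _ t15644.2.2.2.2.2.2.1, ⟨H _ t15644.2.2.2.2.2.2.2, H _ t15652.1⟩⟩⟩⟩, ⟨⟨⟨H _ t15652.2.1, H _ t15652.2.2.1⟩, ⟨H _ t15652.2.2.2.1, H _ t15652.2.2.2.2.1⟩⟩, ⟨⟨H _ t15652.2.2.2.2.2.1, H _ t15652.2.2.2.2.2.2.1⟩, ⟨H _ t15652.2.2.2.2.2.2.2, ⟨H _ t15660.1, H _ t15660.2.1⟩⟩⟩⟩⟩⟩, ⟨⟨⟨⟨⟨H _ t15660.2.2.1, H _ t15660.2.2.2.1⟩, ⟨H _ t15660.2.2.2.2.1, H _ t15660.2.2.2.2.2.1⟩⟩, ⟨⟨H _ t15660.2.2.2.2.2.2.1, H _ t15660.2.2.2.2.2.2.2⟩, ⟨H _ t15668.1, ⟨H _ t15668.2.1, H _ t15668.2.2.1⟩⟩⟩⟩, ⟨⟨⟨H _ t15668.2.2.2.1, H _ t15668.2.2.2.2.1⟩,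 ⟨H _ t15668.2.2.2.2.2.1, H _ t15668.2.2.2.2.2.2.1⟩⟩, ⟨⟨H _ t15668.2.2.2.2.2.2.2, H _ t15676.1⟩, ⟨H _ t15676.2.1, ⟨H _ t15676.2.2.1, H _ t15676.2.2.2.1⟩⟩⟩⟩⟩, ⟨⟨⟨⟨H _ t15676.2.2.2.2.1, H _ t15676.2.2.2.2.2.1⟩, ⟨H _ t15676.2.2.2.2.2.2.1, H _ t15676.2.2.2.2.2.2.2⟩⟩, ⟨⟨H _ t15684.1, H _ t15684.2.1⟩, ⟨H _ t15684.2.2.1, ⟨H _ t15684.2.2.2.1, H _ t15684.2.2.2.2.1⟩⟩⟩⟩, ⟨⟨⟨H _ t15684.2.2.2.2.2.1, H _ t15684.2.2.2.2.2.2.1⟩, ⟨H _ t15684.2.2.2.2.2.2.2, H _ t15692.1⟩⟩, ⟨⟨H _ t15692.2.1, H _ t15692.2.2.1⟩, ⟨H _ t15692.2.2.2.1, ⟨H _ t15692.2.2.2.2.1, H _ t15692.2.2.2.2.2⟩⟩⟩⟩⟩⟩⟩⟩⟩⟩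

end Pool.Agent.MP_c853c5_nt.X.C4950
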