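import Pool.Agent.MP_c853c5_nt.X.C4950.Env
import Pool.Agent.MP_c853c5_nt.X.C4950.D5

set_option autoImplicit false
set_option maxRecDepth 8192
set_option linter.all false

namespace Pool.Agent.MP_c853c5_nt.X.C4950

open Pool.Agent.MP_c853c5_nt.X

def t15698 : allY (E.wth (lkp [])) l15698 = true ∧
    allY (E.wth (lkp [])) l15699 = true ∧
    allY (E.wth (lkp [])) l15700 = true ∧
    allY (E.wth (lkp [])) l15701 = true ∧
    allY (E.wth (lkp [])) l15702 = true ∧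
    allY (E.wth (lkp [])) l15703 = true ∧
    allY (E.wth (lkp [])) l15704 = true ∧
    allY (E.wth (lkp [])) l15705 = true :=
  ⟨by decide +kernel, by decide +kernel, by decide +kernel, by decide +kernel, by decide +kernel, by decide +kernel, by decide +kernel, by decide +kernel⟩

def t15706 : allY (E.wth (lkp [])) l15706 = true ∧
    allY (E.wth (lkp [])) l15707 = true ∧
    allY (E.wth (lkp [])) l15708 = true ∧
    allY (E.wth (lkp [])) l15709 = true ∧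
    allY (E.wth (lkp [])) l15710 = true ∧
    allY (E.wth (lkp [])) l15711 = true ∧
    allY (E.wth (lkp [])) l15712 = true ∧
    allY (E.wth (lkp [])) l15713 = true :=
  ⟨by decide +kernel, by decide +kernel, by decide +kernel, by decide +kernel, by decide +kernel, by decide +kernel, by decide +kernel, by decide +kernel⟩

def t15714 : allY (E.wth (lkp [])) l15714 = true ∧
    allY (E.wth (lkp [])) l15715 = true ∧
    allY (E.wth (lkp [])) l15716 = true ∧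
    allY (E.wth (lkp [])) l15717 = true ∧
    allY (E.wth (lkp [])) l15718 = true ∧
    allY (E.wth (lkp [])) l15719 = true ∧
    allY (E.wth (lkp [])) l15720 = true ∧
    allY (E.wth (lkp [])) l15721 = true :=
  ⟨by decide +kernel, by decide +kernel, by decide +kernel, by decide +kernel, by decide +kernel, by decide +kernel, by decide +kernel, by decide +kernel⟩

def t15722 : allY (E.wth (lkp [])) l15722 = true ∧
    allY (E.wth (lkp [])) l15723 = true ∧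
    allY (E.wth (lkp [])) l15724 = true ∧
    allY (E.wth (lkp [])) l15725 = true ∧
    allY (E.wth (lkp [])) l15726 = true ∧
    allY (E.wth (lkp [])) l15727 = true ∧
    allY (E.wth (lkp [])) l15728 = true ∧
    allY (E.wth (lkp [])) l15729 = true :=
  ⟨by decide +kernel, by decide +kernel, by decide +kernel, by decide +kernel, by decide +kernel, by decide +kernel, by decide +kernel, by decide +kernel⟩

def t15730 : allY (E.wth (lkp [])) l15730 = true ∧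
    allY (E.wth (lkp [])) l15731 = true ∧
    allY (E.wth (lkp [])) l15732 = true ∧
    allY (E.wth (lkp [])) l15733 = true ∧
    allY (E.wth (lkp [])) l15734 = true ∧
    allY (E.wth (lkp [])) l15735 = true ∧
    allY (E.wth (lkp [])) l15736 = true ∧
    allY (E.wth (lkp [])) l15737 = true :=
  ⟨by decide +kernel, by decide +kernel, by decide +kernel, by decide +kernel, by decide +kernel, by decide +kernel, by decide +kernel, by decide +kernel⟩

def t15738 : allY (E.wth (lkp [])) l15738 = true ∧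
    allY (E.wth (lkp [])) l15739 = true ∧
    allY (E.wth (lkp [])) l15740 = true ∧
    allY (E.wth (lkp [])) l15741 = true ∧
    allY (E.wth (lkp [])) l15742 = true ∧
    allY (E.wth (lkp [])) l15743 = true ∧
    allY (E.wth (lkp [])) l15744 = true ∧
    allY (E.wth (lkp [])) l15745 = true :=
  ⟨by decide +kernel, by decide +kernel, by decide +kernel, by decide +kernel, by decide +kernel, by decide +kernel, by decide +kernel, by decide +kernel⟩

def t15746 : allY (E.wth (lkp [])) l15746 = true ∧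
    allY (E.wth (lkp [])) l15747 = true ∧
    allY (E.wth (lkp [])) l15748 = true ∧
    allY (E.wth (lkp [])) l15749 = true ∧
    allY (E.wth (lkp [])) l15750 = true ∧
    allY (E.wth (lkp [])) l15751 = true ∧
    allY (E.wth (lkp [])) l15752 = true ∧
    allY (E.wth (lkp [])) l15753 = true :=
  ⟨by decide +kernel, by decide +kernel, by decide +kernel, by decide +kernel, by decide +kernel, by decide +kernel, by decide +kernel, by decide +kernel⟩

def t15754 : allY (E.wth (lkp [])) l15754 = true ∧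
    allY (E.wth (lkp [])) l15755 = true ∧
    allY (E.wth (lkp [])) l15756 = true ∧
    allY (E.wth (lkp [])) l15757 = true ∧
    allY (E.wth (lkp [])) l15758 = true ∧
    allY (E.wth (lkp [])) l15759 = true ∧
    allY (E.wth (lkp [])) l15760 = true ∧
    allY (E.wth (lkp [])) l15761 = true :=
  ⟨by decide +kernel, by decide +kernel, by decide +kernel, by decide +kernel, by decide +kernel, by decide +kernel, by decide +kernel, by decide +kernel⟩

def t15762 : allY (E.wth (lkp [])) l15762 = true ∧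
    allY (E.wth (lkp [])) l15763 = true ∧
    allY (E.wth (lkp [])) l15764 = true ∧
    allY (E.wth (lkp [])) l15765 = true ∧
    allY (E.wth (lkp [])) l15766 = true ∧
    allY (E.wth (lkp [])) l15767 = true ∧
    allY (E.wth (lkp [])) l15768 = true ∧
    allY (E.wth (lkp [])) l15769 = true :=
  ⟨by decide +kernel, by decide +kernel, by decide +kernel, by decide +kernel, by decide +kernel, by decide +kernel, by decide +kernel, by decide +kernel⟩

def t15770 : allY (E.wth (lkp [])) l15770 = true ∧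
    allY (E.wth (lkp [])) l15771 = true ∧
    allY (E.wth (lkp [])) l15772 = true ∧
    allY (E.wth (lkp [])) l15773 = true ∧
    allY (E.wth (lkp [])) l15774 = true ∧
    allY (E.wth (lkp [])) l15775 = true ∧
    allY (E.wth (lkp [])) l15776 = true ∧
    allY (E.wth (lkp [])) l15777 = true :=
  ⟨by decide +kernel, by decide +kernel, by decide +kernel, by decide +kernel, by decide +kernel, by decide +kernel, by decide +kernel, by decide +kernel⟩

def t15778 : allY (E.wth (lkp [])) l15778 = true ∧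
    allY (E.wth (lkp [])) l15779 = true ∧
    allY (E.wth (lkp [])) l15780 = true ∧
    allY (E.wth (lkp [])) l15781 = true ∧
    allY (E.wth (lkp [])) l15782 = true ∧
    allY (E.wth (lkp [])) l15783 = true ∧
    allY (E.wth (lkp [])) l15784 = true ∧
    allY (E.wth (lkp [])) l15785 = true :=
  ⟨by decide +kernel, by decide +kernel, by decide +kernel, by decide +kernel, by decide +kernel, by decide +kernel, by decide +kernel, by decide +kernel⟩

def t15786 : allY (E.wth (lkp [])) l15786 = true ∧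
    allY (E.wth (lkp [])) l15787 = true ∧
    allY (E.wth (lkp [])) l15788 = true ∧
    allY (E.wth (lkp [])) l15789 = true ∧
    allY (E.wth (lkp [])) l15790 = true ∧
    allY (E.wth (lkp [])) l15791 = true ∧
    allY (E.wth (lkp [])) l15792 = true ∧
    allY (E.wth (lkp [])) l15793 = true :=
  ⟨by decide +kernel, by decide +kernel, by decide +kernel, by decide +kernel, by decide +kernel, by decide +kernel, by decide +kernel, by decide +kernel⟩

def t15794 : allY (E.wth (lkp [])) l15794 = true ∧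
    allY (E.wth (lkp [])) l15795 = true ∧
    allY (E.wth (lkp [])) l15796 = true ∧
    allY (E.wth (lkp [])) l15797 = true ∧
    allY (E.wth (lkp [])) l15798 = true ∧
    allY (E.wth (lkp [])) l15799 = true ∧
    allY (E.wth (lkp [])) l15800 = true ∧
    allY (E.wth (lkp [])) l15801 = true :=
  ⟨by decide +kernel, by decide +kernel, by decide +kernel, by decide +kernel, by decide +kernel, by decide +kernel, by decide +kernel, by decide +kernel⟩

def t15802 : allY (E.wth (lkp [])) l15802 = true ∧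
    allY (E.wth (lkp [])) l15803 = true ∧
    allY (E.wth (lkp [])) l15804 = true ∧
    allY (E.wth (lkp [])) l15805 = true ∧
    allY (E.wth (lkp [])) l15806 = true ∧
    allY (E.wth (lkp [])) l15807 = true ∧
    allY (E.wth (lkp [])) l15808 = true ∧
    allY (E.wth (lkp [])) l15809 = true :=
  ⟨by decide +kernel, by decide +kernel, by decide +kernel, by decide +kernel, by decide +kernel, by decide +kernel, by decide +kernel, by decide +kernel⟩

def t15810 : allY (E.wth (lkp [])) l15810 = true ∧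
    allY (E.wth (lkp [])) l15811 = true ∧
    allY (E.wth (lkp [])) l15812 = true ∧
    allY (E.wth (lkp [])) l15813 = true ∧
    allY (E.wth (lkp [])) l15814 = true ∧
    allY (E.wth (lkp [])) l15815 = true ∧
    allY (E.wth (lkp [])) l15816 = true ∧
    allY (E.wth (lkp [])) l15817 = true :=
  ⟨by decide +kernel, by decide +kernel, by decide +kernel, by decide +kernel, by decide +kernel, by decide +kernel, by decide +kernel, by decide +kernel⟩

def t15818 : allY (E.wth (lkp [])) l15818 = true ∧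
    allY (E.wth (lkp [])) l15819 = true ∧
    allY (E.wth (lkp [])) l15820 = true ∧
    allY (E.wth (lkp [])) l15821 = true ∧
    allY (E.wth (lkp [])) l15822 = true ∧
    allY (E.wth (lkp [])) l15823 = true ∧
    allY (E.wth (lkp [])) l15824 = true ∧
    allY (E.wth (lkp [])) l15825 = true :=
  ⟨by decide +kernel, by decide +kernel, by decide +kernel, by decide +kernel, by decide +kernel, by decide +kernel, by decide +kernel, by decide +kernel⟩

def t15826 : allY (E.wth (lkp [])) l15826 = true ∧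
    allY (E.wth (lkp [])) l15827 = true ∧
    allY (E.wth (lkp [])) l15828 = true ∧
    allY (E.wth (lkp [])) l15829 = true ∧
    allY (E.wth (lkp [])) l15830 = true ∧
    allY (E.wth (lkp [])) l15831 = true ∧
    allY (E.wth (lkp [])) l15832 = true ∧
    allY (E.wth (lkp [])) l15833 = true :=
  ⟨by decide +kernel, by decide +kernel, by decide +kernel, by decide +kernel, by decide +kernel, by decide +kernel, by decide +kernel, by decide +kernel⟩

def t15834 : allY (E.wth (lkp [])) l15834 = true ∧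
    allY (E.wth (lkp [])) l15835 = true ∧
    allY (E.wth (lkp [])) l15836 = true ∧
    allY (E.wth (lkp [])) l15837 = true ∧
    allY (E.wth (lkp [])) l15838 = true ∧
    allY (E.wth (lkp [])) l15839 = true ∧
    allY (E.wth (lkp [])) l15840 = true ∧
    allY (E.wth (lkp [])) l15841 = true :=
  ⟨by decide +kernel, by decide +kernel, by decide +kernel, by decide +kernel, by decide +kernel, by decide +kernel, by decide +kernel, by decide +kernel⟩

def t15842 : allY (E.wth (lkp [])) l15842 = true ∧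
    allY (E.wth (lkp [])) l15843 = true ∧
    allY (E.wth (lkp [])) l15844 = true ∧
    allY (E.wth (lkp [])) l15845 = true ∧
    allY (E.wth (lkp [])) l15846 = true ∧
    allY (E.wth (lkp [])) l15847 = true ∧
    allY (E.wth (lkp [])) l15848 = true ∧
    allY (E.wth (lkp [])) l15849 = true :=
  ⟨by decide +kernel, by decide +kernel, by decide +kernel, by decide +kernel, by decide +kernel, by decide +kernel, by decide +kernel, by decide +kernel⟩

def t15850 : allY (E.wth (lkp [])) l15850 = true ∧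
    allY (E.wth (lkp [])) l15851 = true ∧
    allY (E.wth (lkp [])) l15852 = true ∧
    allY (E.wth (lkp [])) l15853 = true ∧
    allY (E.wth (lkp [])) l15854 = true ∧
    allY (E.wth (lkp [])) l15855 = true ∧
    allY (E.wth (lkp [])) l15856 = true ∧
    allY (E.wth (lkp [])) l15857 = true :=
  ⟨by decide +kernel, by decide +kernel, by decide +kernel, by decide +kernel, by decide +kernel, by decide +kernel, by decide +kernel, by decide +kernel⟩

def t15858 : allY (E.wth (lkp [])) l15858 = true ∧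
    allY (E.wth (lkp [])) l15859 = true ∧
    allY (E.wth (lkp [])) l15860 = true ∧
    allY (E.wth (lkp [])) l15861 = true ∧
    allY (E.wth (lkp [])) l15862 = true ∧
    allY (E.wth (lkp [])) l15863 = true ∧
    allY (E.wth (lkp [])) l15864 = true ∧
    allY (E.wth (lkp [])) l15865 = true :=
  ⟨by decide +kernel, by decide +kernel, by decide +kernel, by decide +kernel, by decide +kernel, by decide +kernel, by decide +kernel, by decide +kernel⟩

def t15866 : allY (E.wth (lkp [])) l15866 = true ∧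
    allY (E.wth (lkp [])) l15867 = true ∧
    allY (E.wth (lkp [])) l15868 = true ∧
    allY (E.wth (lkp [])) l15869 = true ∧
    allY (E.wth (lkp [])) l15870 = true ∧
    allY (E.wth (lkp [])) l15871 = true ∧
    allY (E.wth (lkp [])) l15872 = true ∧
    allY (E.wth (lkp [])) l15873 = true :=
  ⟨by decide +kernel, by decide +kernel, by decide +kernel, by decide +kernel, by decide +kernel, by decide +kernel, by decide +kernel, by decide +kernel⟩

def t15874 : allY (E.wth (lkp [])) l15874 = true ∧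
    allY (E.wth (lkp [])) l15875 = true ∧
    allY (E.wth (lkp [])) l15876 = true ∧
    allY (E.wth (lkp [])) l15877 = true ∧
    allY (E.wth (lkp [])) l15878 = true ∧
    allY (E.wth (lkp [])) l15879 = true ∧
    allY (E.wth (lkp [])) l15880 = true ∧
    allY (E.wth (lkp [])) l15881 = true :=
  ⟨by decide +kernel, by decide +kernel, by decide +kernel, by decide +kernel, by decide +kernel, by decide +kernel, by decide +kernel, by decide +kernel⟩

def t15882 : allY (E.wth (lkp [])) l15882 = true ∧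
    allY (E.wth (lkp [])) l15883 = true ∧
    allY (E.wth (lkp [])) l15884 = true ∧
    allY (E.wth (lkp [])) l15885 = true ∧
    allY (E.wth (lkp [])) l15886 = true ∧
    allY (E.wth (lkp [])) l15887 = true ∧
    allY (E.wth (lkp [])) l15888 = true ∧
    allY (E.wth (lkp [])) l15889 = true :=
  ⟨by decide +kernel, by decide +kernel, by decide +kernel, by decide +kernel, by decide +kernel, by decide +kernel, by decide +kernel, by decide +kernel⟩

def t15890 : allY (E.wth (lkp [])) l15890 = true ∧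
    allY (E.wth (lkp [])) l15891 = true ∧
    allY (E.wth (lkp [])) l15892 = true ∧
    allY (E.wth (lkp [])) l15893 = true ∧
    allY (E.wth (lkp [])) l15894 = true ∧
    allY (E.wth (lkp [])) l15895 = true ∧
    allY (E.wth (lkp [])) l15896 = true ∧
    allY (E.wth (lkp [])) l15897 = true :=
  ⟨by decide +kernel, by decide +kernel, by decide +kernel, by decide +kernel, by decide +kernel, by decide +kernel, by decide +kernel, by decide +kernel⟩

def t15898 : allY (E.wth (lkp [])) l15898 = true ∧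
    allY (E.wth (lkp [])) l15899 = true ∧
    allY (E.wth (lkp [])) l15900 = true ∧
    allY (E.wth (lkp [])) l15901 = true ∧
    allY (E.wth (lkp [])) l15902 = true ∧
    allY (E.wth (lkp [])) l15903 = true ∧
    allY (E.wth (lkp [])) l15904 = true ∧
    allY (E.wth (lkp [])) l15905 = true :=
  ⟨by decide +kernel, by decide +kernel, by decide +kernel, by decide +kernel, by decide +kernel, by decide +kernel, by decide +kernel, by decide +kernel⟩

def t15906 : allY (E.wth (lkp [])) l15906 = true ∧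
    allY (E.wth (lkp [])) l15907 = true ∧
    allY (E.wth (lkp [])) l15908 = true ∧
    allY (E.wth (lkp [])) l15909 = true ∧
    allY (E.wth (lkp [])) l15910 = true ∧
    allY (E.wth (lkp [])) l15911 = true ∧
    allY (E.wth (lkp [])) l15912 = true ∧
    allY (E.wth (lkp [])) l15913 = true :=
  ⟨by decide +kernel, by decide +kernel, by decide +kernel, by decide +kernel, by decide +kernel, by decide +kernel, by decide +kernel, by decide +kernel⟩

def t15914 : allY (E.wth (lkp [])) l15914 = true ∧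
    allY (E.wth (lkp [])) l15915 = true ∧
    allY (E.wth (lkp [])) l15916 = true ∧
    allY (E.wth (lkp [])) l15917 = true ∧
    allY (E.wth (lkp [])) l15918 = true ∧
    allY (E.wth (lkp [])) l15919 = true ∧
    allY (E.wth (lkp [])) l15920 = true ∧
    allY (E.wth (lkp [])) l15921 = true :=
  ⟨by decide +kernel, by decide +kernel, by decide +kernel, by decide +kernel, by decide +kernel, by decide +kernel, by decide +kernel, by decide +kernel⟩

def t15922 : allY (E.wth (lkp [])) l15922 = true ∧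
    allY (E.wth (lkp [])) l15923 = true ∧
    allY (E.wth (lkp [])) l15924 = true ∧
    allY (E.wth (lkp [])) l15925 = true ∧
    allY (E.wth (lkp [])) l15926 = true ∧
    allY (E.wth (lkp [])) l15927 = true ∧
    allY (E.wth (lkp [])) l15928 = true ∧
    allY (E.wth (lkp [])) l15929 = true :=
  ⟨by decide +kernel, by decide +kernel, by decide +kernel, by decide +kernel, by decide +kernel, by decide +kernel, by decide +kernel, by decide +kernel⟩

def t15930 : allY (E.wth (lkp [])) l15930 = true ∧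
    allY (E.wth (lkp [])) l15931 = true ∧
    allY (E.wth (lkp [])) l15932 = true ∧
    allY (E.wth (lkp [])) l15933 = true ∧
    allY (E.wth (lkp [])) l15934 = true ∧
    allY (E.wth (lkp [])) l15935 = true ∧
    allY (E.wth (lkp [])) l15936 = true ∧
    allY (E.wth (lkp [])) l15937 = true :=
  ⟨by decide +kernel, by decide +kernel, by decide +kernel, by decide +kernel, by decide +kernel, by decide +kernel, by decide +kernel, by decide +kernel⟩

def t15938 : allY (E.wth (lkp [])) l15938 = true ∧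
    allY (E.wth (lkp [])) l15939 = true ∧
    allY (E.wth (lkp [])) l15940 = true ∧
    allY (E.wth (lkp [])) l15941 = true ∧
    allY (E.wth (lkp [])) l15942 = true ∧
    allY (E.wth (lkp [])) l15943 = true ∧
    allY (E.wth (lkp [])) l15944 = true ∧
    allY (E.wth (lkp [])) l15945 = true :=
  ⟨by decide +kernel, by decide +kernel, by decide +kernel, by decide +kernel, by decide +kernel, by decide +kernel, by decide +kernel, by decide +kernel⟩

def t15946 : allY (E.wth (lkp [])) l15946 = true ∧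
    allY (E.wth (lkp [])) l15947 = true ∧
    allY (E.wth (lkp [])) l15948 = true ∧
    allY (E.wth (lkp [])) l15949 = true ∧
    allY (E.wth (lkp [])) l15950 = true ∧
    allY (E.wth (lkp [])) l15951 = true ∧
    allY (E.wth (lkp [])) l15952 = true ∧
    allY (E.wth (lkp [])) l15953 = true :=
  ⟨by decide +kernel, by decide +kernel, by decide +kernel, by decide +kernel, by decide +kernel, by decide +kernel, by decide +kernel, by decide +kernel⟩

def t15954 : allY (E.wth (lkp [])) l15954 = true ∧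
    allY (E.wth (lkp [])) l15955 = true ∧
    allY (E.wth (lkp [])) l15956 = true ∧
    allY (E.wth (lkp [])) l15957 = true ∧
    allY (E.wth (lkp [])) l15958 = true ∧
    allY (E.wth (lkp [])) l15959 = true ∧
    allY (E.wth (lkp [])) l15960 = true ∧
    allY (E.wth (lkp [])) l15961 = true :=
  ⟨by decide +kernel, by decide +kernel, by decide +kernel, by decide +kernel, by decide +kernel, by decide +kernel, by decide +kernel, by decide +kernel⟩

def t15962 : allY (E.wth (lkp [])) l15962 = true ∧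
    allY (E.wth (lkp [])) l15963 = true ∧
    allY (E.wth (lkp [])) l15964 = true ∧
    allY (E.wth (lkp [])) l15965 = true ∧
    allY (E.wth (lkp [])) l15966 = true ∧
    allY (E.wth (lkp [])) l15967 = true ∧
    allY (E.wth (lkp [])) l15968 = true ∧
    allY (E.wth (lkp [])) l15969 = true :=
  ⟨by decide +kernel, by decide +kernel, by decide +kernel, by decide +kernel, by decide +kernel, by decide +kernel, by decide +kernel, by decide +kernel⟩

def t15970 : allY (E.wth (lkp [])) l15970 = true ∧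
    allY (E.wth (lkp [])) l15971 = true ∧
    allY (E.wth (lkp [])) l15972 = true ∧
    allY (E.wth (lkp [])) l15973 = true ∧
    allY (E.wth (lkp [])) l15974 = true ∧
    allY (E.wth (lkp [])) l15975 = true ∧
    allY (E.wth (lkp [])) l15976 = true ∧
    allY (E.wth (lkp [])) l15977 = true :=
  ⟨by decide +kernel, by decide +kernel, by decide +kernel, by decide +kernel, by decide +kernel, by decide +kernel, by decide +kernel, by decide +kernel⟩

def t15978 : allY (E.wth (lkp [])) l15978 = true ∧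
    allY (E.wth (lkp [])) l15979 = true ∧
    allY (E.wth (lkp [])) l15980 = true ∧
    allY (E.wth (lkp [])) l15981 = true ∧
    allY (E.wth (lkp [])) l15982 = true ∧
    allY (E.wth (lkp [])) l15983 = true ∧
    allY (E.wth (lkp [])) l15984 = true ∧
    allY (E.wth (lkp [])) l15985 = true :=
  ⟨by decide +kernel, by decide +kernel, by decide +kernel, by decide +kernel, by decide +kernel, by decide +kernel, by decide +kernel, by decide +kernel⟩

def t15986 : allY (E.wth (lkp [])) l15986 = true ∧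
    allY (E.wth (lkp [])) l15987 = true ∧
    allY (E.wth (lkp [])) l15988 = true ∧
    allY (E.wth (lkp [])) l15989 = true ∧
    allY (E.wth (lkp [])) l15990 = true ∧
    allY (E.wth (lkp [])) l15991 = true ∧
    allY (E.wth (lkp [])) l15992 = true ∧
    allY (E.wth (lkp [])) l15993 = true :=
  ⟨by decide +kernel, by decide +kernel, by decide +kernel, by decide +kernel, by decide +kernel, by decide +kernel, by decide +kernel, by decide +kernel⟩

def t15994 : allY (E.wth (lkp [])) l15994 = true ∧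
    allY (E.wth (lkp [])) l15995 = true ∧
    allY (E.wth (lkp [])) l15996 = true ∧
    allY (E.wth (lkp [])) l15997 = true ∧
    allY (E.wth (lkp [])) l15998 = true ∧
    allY (E.wth (lkp [])) l15999 = true ∧
    allY (E.wth (lkp [])) l16000 = true ∧
    allY (E.wth (lkp [])) l16001 = true :=
  ⟨by decide +kernel, by decide +kernel, by decide +kernel, by decide +kernel, by decide +kernel, by decide +kernel, by decide +kernel, by decide +kernel⟩

def t16002 : allY (E.wth (lkp [])) l16002 = true ∧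
    allY (E.wth (lkp [])) l16003 = true ∧
    allY (E.wth (lkp [])) l16004 = true ∧
    allY (E.wth (lkp [])) l16005 = true ∧
    allY (E.wth (lkp [])) l16006 = true ∧
    allY (E.wth (lkp [])) l16007 = true ∧
    allY (E.wth (lkp [])) l16008 = true ∧
    allY (E.wth (lkp [])) l16009 = true :=
  ⟨by decide +kernel, by decide +kernel, by decide +kernel, by decide +kernel, by decide +kernel, by decide +kernel, by decide +kernel, by decide +kernel⟩

def t16010 : allY (E.wth (lkp [])) l16010 = true ∧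
    allY (E.wth (lkp [])) l16011 = true ∧
    allY (E.wth (lkp [])) l16012 = true ∧
    allY (E.wth (lkp [])) l16013 = true ∧
    allY (E.wth (lkp [])) l16014 = true ∧
    allY (E.wth (lkp [])) l16015 = true ∧
    allY (E.wth (lkp [])) l16016 = true ∧
    allY (E.wth (lkp [])) l16017 = true :=
  ⟨by decide +kernel, by decide +kernel, by decide +kernel, by decide +kernel, by decide +kernel, by decide +kernel, by decide +kernel, by decide +kernel⟩

def t16018 : allY (E.wth (lkp [])) l16018 = true ∧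
    allY (E.wth (lkp [])) l16019 = true ∧
    allY (E.wth (lkp [])) l16020 = true ∧
    allY (E.wth (lkp [])) l16021 = true ∧
    allY (E.wth (lkp [])) l16022 = true ∧
    allY (E.wth (lkp [])) l16023 = true ∧
    allY (E.wth (lkp [])) l16024 = true ∧
    allY (E.wth (lkp [])) l16025 = true :=
  ⟨by decide +kernel, by decide +kernel, by decide +kernel, by decide +kernel, by decide +kernel, by decide +kernel, by decide +kernel, by decide +kernel⟩

def t16026 : allY (E.wth (lkp [])) l16026 = true ∧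
    allY (E.wth (lkp [])) l16027 = true ∧
    allY (E.wth (lkp [])) l16028 = true ∧
    allY (E.wth (lkp [])) l16029 = true ∧
    allY (E.wth (lkp [])) l16030 = true ∧
    allY (E.wth (lkp [])) l16031 = true ∧
    allY (E.wth (lkp [])) l16032 = true ∧
    allY (E.wth (lkp [])) l16033 = true :=
  ⟨by decide +kernel, by decide +kernel, by decide +kernel, by decide +kernel, by decide +kernel, by decide +kernel, by decide +kernel, by decide +kernel⟩

def t16034 : allY (E.wth (lkp [])) l16034 = true ∧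
    allY (E.wth (lkp [])) l16035 = true ∧
    allY (E.wth (lkp [])) l16036 = true ∧
    allY (E.wth (lkp [])) l16037 = true ∧
    allY (E.wth (lkp [])) l16038 = true ∧
    allY (E.wth (lkp [])) l16039 = true ∧
    allY (E.wth (lkp [])) l16040 = true ∧
    allY (E.wth (lkp [])) l16041 = true :=
  ⟨by decide +kernel, by decide +kernel, by decide +kernel, by decide +kernel, by decide +kernel, by decide +kernel, by decide +kernel, by decide +kernel⟩

def t16042 : allY (E.wth (lkp [])) l16042 = true ∧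
    allY (E.wth (lkp [])) l16043 = true ∧
    allY (E.wth (lkp [])) l16044 = true ∧
    allY (E.wth (lkp [])) l16045 = true ∧
    allY (E.wth (lkp [])) l16046 = true ∧
    allY (E.wth (lkp [])) l16047 = true ∧
    allY (E.wth (lkp [])) l16048 = true ∧
    allY (E.wth (lkp [])) l16049 = true :=
  ⟨by decide +kernel, by decide +kernel, by decide +kernel, by decide +kernel, by decide +kernel, by decide +kernel, by decide +kernel, by decide +kernel⟩

def t16050 : allY (E.wth (lkp [])) l16050 = true ∧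
    allY (E.wth (lkp [])) l16051 = true ∧
    allY (E.wth (lkp [])) l16052 = true ∧
    allY (E.wth (lkp [])) l16053 = true ∧
    allY (E.wth (lkp [])) l16054 = true ∧
    allY (E.wth (lkp [])) l16055 = true ∧
    allY (E.wth (lkp [])) l16056 = true ∧
    allY (E.wth (lkp [])) l16057 = true :=
  ⟨by decide +kernel, by decide +kernel, by decide +kernel, by decide +kernel, by decide +kernel, by decide +kernel, by decide +kernel, by decide +kernel⟩

def t16058 : allY (E.wth (lkp [])) l16058 = true ∧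
    allY (E.wth (lkp [])) l16059 = true ∧
    allY (E.wth (lkp [])) l16060 = true ∧
    allY (E.wth (lkp [])) l16061 = true ∧
    allY (E.wth (lkp [])) l16062 = true ∧
    allY (E.wth (lkp [])) l16063 = true ∧
    allY (E.wth (lkp [])) l16064 = true ∧
    allY (E.wth (lkp [])) l16065 = true :=
  ⟨by decide +kernel, by decide +kernel, by decide +kernel, by decide +kernel, by decide +kernel, by decide +kernel, by decide +kernel, by decide +kernel⟩

def t16066 : allY (E.wth (lkp [])) l16066 = true ∧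
    allY (E.wth (lkp [])) l16067 = true ∧
    allY (E.wth (lkp [])) l16068 = true ∧
    allY (E.wth (lkp [])) l16069 = true ∧
    allY (E.wth (lkp [])) l16070 = true ∧
    allY (E.wth (lkp [])) l16071 = true ∧
    allY (E.wth (lkp [])) l16072 = true ∧
    allY (E.wth (lkp [])) l16073 = true :=
  ⟨by decide +kernel, by decide +kernel, by decide +kernel, by decide +kernel, by decide +kernel, by decide +kernel, by decide +kernel, by decide +kernel⟩

def t16074 : allY (E.wth (lkp [])) l16074 = true ∧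
    allY (E.wth (lkp [])) l16075 = true ∧
    allY (E.wth (lkp [])) l16076 = true ∧
    allY (E.wth (lkp [])) l16077 = true ∧
    allY (E.wth (lkp [])) l16078 = true ∧
    allY (E.wth (lkp [])) l16079 = true ∧
    allY (E.wth (lkp [])) l16080 = true ∧
    allY (E.wth (lkp [])) l16081 = true :=
  ⟨by decide +kernel, by decide +kernel, by decide +kernel, by decide +kernel, by decide +kernel, by decide +kernel, by decide +kernel, by decide +kernel⟩

def t16082 : allY (E.wth (lkp [])) l16082 = true ∧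
    allY (E.wth (lkp [])) l16083 = true ∧
    allY (E.wth (lkp [])) l16084 = true ∧
    allY (E.wth (lkp [])) l16085 = true ∧
    allY (E.wth (lkp [])) l16086 = true ∧
    allY (E.wth (lkp [])) l16087 = true ∧
    allY (E.wth (lkp [])) l16088 = true ∧
    allY (E.wth (lkp [])) l16089 = true :=
  ⟨by decide +kernel, by decide +kernel, by decide +kernel, by decide +kernel, by decide +kernel, by decide +kernel, by decide +kernel, by decide +kernel⟩

def t16090 : allY (E.wth (lkp [])) l16090 = true ∧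
    allY (E.wth (lkp [])) l16091 = true ∧
    allY (E.wth (lkp [])) l16092 = true ∧
    allY (E.wth (lkp [])) l16093 = true ∧
    allY (E.wth (lkp [])) l16094 = true ∧
    allY (E.wth (lkp [])) l16095 = true ∧
    allY (E.wth (lkp [])) l16096 = true ∧
    allY (E.wth (lkp [])) l16097 = true :=
  ⟨by decide +kernel, by decide +kernel, by decide +kernel, by decide +kernel, by decide +kernel, by decide +kernel, by decide +kernel, by decide +kernel⟩

def t16098 : allY (E.wth (lkp [])) l16098 = true ∧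
    allY (E.wth (lkp [])) l16099 = true ∧
    allY (E.wth (lkp [])) l16100 = true ∧
    allY (E.wth (lkp [])) l16101 = true ∧
    allY (E.wth (lkp [])) l16102 = true ∧
    allY (E.wth (lkp [])) l16103 = true ∧
    allY (E.wth (lkp [])) l16104 = true ∧
    allY (E.wth (lkp [])) l16105 = true :=
  ⟨by decide +kernel, by decide +kernel, by decide +kernel, by decide +kernel, by decide +kernel, by decide +kernel, by decide +kernel, by decide +kernel⟩

def t16106 : allY (E.wth (lkp [])) l16106 = true ∧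
    allY (E.wth (lkp [])) l16107 = true ∧
    allY (E.wth (lkp [])) l16108 = true ∧
    allY (E.wth (lkp [])) l16109 = true ∧
    allY (E.wth (lkp [])) l16110 = true ∧
    allY (E.wth (lkp [])) l16111 = true ∧
    allY (E.wth (lkp [])) l16112 = true ∧
    allY (E.wth (lkp [])) l16113 = true :=
  ⟨by decide +kernel, by decide +kernel, by decide +kernel, by decide +kernel, by decide +kernel, by decide +kernel, by decide +kernel, by decide +kernel⟩

def t16114 : allY (E.wth (lkp [])) l16114 = true ∧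
    allY (E.wth (lkp [])) l16115 = true ∧
    allY (E.wth (lkp [])) l16116 = true ∧
    allY (E.wth (lkp [])) l16117 = true ∧
    allY (E.wth (lkp [])) l16118 = true ∧
    allY (E.wth (lkp [])) l16119 = true ∧
    allY (E.wth (lkp [])) l16120 = true ∧
    allY (E.wth (lkp [])) l16121 = true :=
  ⟨by decide +kernel, by decide +kernel, by decide +kernel, by decide +kernel, by decide +kernel, by decide +kernel, by decide +kernel, by decide +kernel⟩

def t16122 : allY (E.wth (lkp [])) l16122 = true ∧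
    allY (E.wth (lkp [])) l16123 = true ∧
    allY (E.wth (lkp [])) l16124 = true ∧
    allY (E.wth (lkp [])) l16125 = true ∧
    allY (E.wth (lkp [])) l16126 = true ∧
    allY (E.wth (lkp [])) l16127 = true ∧
    allY (E.wth (lkp [])) l16128 = true ∧
    allY (E.wth (lkp [])) l16129 = true :=
  ⟨by decide +kernel, by decide +kernel, by decide +kernel, by decide +kernel, by decide +kernel, by decide +kernel, by decide +kernel, by decide +kernel⟩

def t16130 : allY (E.wth (lkp [])) l16130 = true ∧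
    allY (E.wth (lkp [])) l16131 = true ∧
    allY (E.wth (lkp [])) l16132 = true ∧
    allY (E.wth (lkp [])) l16133 = true ∧
    allY (E.wth (lkp [])) l16134 = true ∧
    allY (E.wth (lkp [])) l16135 = true ∧
    allY (E.wth (lkp [])) l16136 = true ∧
    allY (E.wth (lkp [])) l16137 = true :=
  ⟨by decide +kernel, by decide +kernel, by decide +kernel, by decide +kernel, by decide +kernel, by decide +kernel, by decide +kernel, by decide +kernel⟩

def t16138 : allY (E.wth (lkp [])) l16138 = true ∧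
    allY (E.wth (lkp [])) l16139 = true ∧
    allY (E.wth (lkp [])) l16140 = true ∧
    allY (E.wth (lkp [])) l16141 = true ∧
    allY (E.wth (lkp [])) l16142 = true ∧
    allY (E.wth (lkp [])) l16143 = true ∧
    allY (E.wth (lkp [])) l16144 = true ∧
    allY (E.wth (lkp [])) l16145 = true :=
  ⟨by decide +kernel, by decide +kernel, by decide +kernel, by decide +kernel, by decide +kernel, by decide +kernel, by decide +kernel, by decide +kernel⟩

def t16146 : allY (E.wth (lkp [])) l16146 = true ∧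
    allY (E.wth (lkp [])) l16147 = true ∧
    allY (E.wth (lkp [])) l16148 = true ∧
    allY (E.wth (lkp [])) l16149 = true ∧
    allY (E.wth (lkp [])) l16150 = true ∧
    allY (E.wth (lkp [])) l16151 = true ∧
    allY (E.wth (lkp [])) l16152 = true ∧
    allY (E.wth (lkp [])) l16153 = true :=
  ⟨by decide +kernel, by decide +kernel, by decide +kernel, by decide +kernel, by decide +kernel, by decide +kernel, by decide +kernel, by decide +kernel⟩

def t16154 : allY (E.wth (lkp [])) l16154 = true ∧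
    allY (E.wth (lkp [])) l16155 = true ∧
    allY (E.wth (lkp [])) l16156 = true ∧
    allY (E.wth (lkp [])) l16157 = true ∧
    allY (E.wth (lkp [])) l16158 = true ∧
    allY (E.wth (lkp [])) l16159 = true ∧
    allY (E.wth (lkp [])) l16160 = true ∧
    allY (E.wth (lkp [])) l16161 = true :=
  ⟨by decide +kernel, by decide +kernel, by decide +kernel, by decide +kernel, by decide +kernel, by decide +kernel, by decide +kernel, by decide +kernel⟩

def t16162 : allY (E.wth (lkp [])) l16162 = true ∧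
    allY (E.wth (lkp [])) l16163 = true ∧
    allY (E.wth (lkp [])) l16164 = true ∧
    allY (E.wth (lkp [])) l16165 = true ∧
    allY (E.wth (lkp [])) l16166 = true ∧
    allY (E.wth (lkp [])) l16167 = true ∧
    allY (E.wth (lkp [])) l16168 = true ∧
    allY (E.wth (lkp [])) l16169 = true :=
  ⟨by decide +kernel, by decide +kernel, by decide +kernel, by decide +kernel, by decide +kernel, by decide +kernel, by decide +kernel, by decide +kernel⟩

def t16170 : allY (E.wth (lkp [])) l16170 = true ∧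
    allY (E.wth (lkp [])) l16171 = true ∧
    allY (E.wth (lkp [])) l16172 = true ∧
    allY (E.wth (lkp [])) l16173 = true ∧
    allY (E.wth (lkp [])) l16174 = true ∧
    allY (E.wth (lkp [])) l16175 = true ∧
    allY (E.wth (lkp [])) l16176 = true ∧
    allY (E.wth (lkp [])) l16177 = true :=
  ⟨by decide +kernel, by decide +kernel, by decide +kernel, by decide +kernel, by decide +kernel, by decide +kernel, by decide +kernel, by decide +kernel⟩

def t16178 : allY (E.wth (lkp [])) l16178 = true ∧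
    allY (E.wth (lkp [])) l16179 = true ∧
    allY (E.wth (lkp [])) l16180 = true ∧
    allY (E.wth (lkp [])) l16181 = true ∧
    allY (E.wth (lkp [])) l16182 = true ∧
    allY (E.wth (lkp [])) l16183 = true ∧
    allY (E.wth (lkp [])) l16184 = true ∧
    allY (E.wth (lkp [])) l16185 = true :=
  ⟨by decide +kernel, by decide +kernel, by decide +kernel, by decide +kernel, by decide +kernel, by decide +kernel, by decide +kernel, by decide +kernel⟩

def t16186 : allY (E.wth (lkp [])) l16186 = true ∧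
    allY (E.wth (lkp [])) l16187 = true ∧
    allY (E.wth (lkp [])) l16188 = true ∧
    allY (E.wth (lkp [])) l16189 = true ∧
    allY (E.wth (lkp [])) l16190 = true ∧
    allY (E.wth (lkp [])) l16191 = true ∧
    allY (E.wth (lkp [])) l16192 = true ∧
    allY (E.wth (lkp [])) l16193 = true :=
  ⟨by decide +kernel, by decide +kernel, by decide +kernel, by decide +kernel, by decide +kernel, by decide +kernel, by decide +kernel, by decide +kernel⟩

def t16194 : allY (E.wth (lkp [])) l16194 = true ∧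
    allY (E.wth (lkp [])) l16195 = true ∧
    allY (E.wth (lkp [])) l16196 = true ∧
    allY (E.wth (lkp [])) l16197 = true ∧
    allY (E.wth (lkp [])) l16198 = true ∧
    allY (E.wth (lkp [])) l16199 = true ∧
    allY (E.wth (lkp [])) l16200 = true ∧
    allY (E.wth (lkp [])) l16201 = true :=
  ⟨by decide +kernel, by decide +kernel, by decide +kernel, by decide +kernel, by decide +kernel, by decide +kernel, by decide +kernel, by decide +kernel⟩

def t16202 : allY (E.wth (lkp [])) l16202 = true ∧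
    allY (E.wth (lkp [])) l16203 = true ∧
    allY (E.wth (lkp [])) l16204 = true ∧
    allY (E.wth (lkp [])) l16205 = true ∧
    allY (E.wth (lkp [])) l16206 = true ∧
    allY (E.wth (lkp [])) l16207 = true ∧
    allY (E.wth (lkp [])) l16208 = true ∧
    allY (E.wth (lkp [])) l16209 = true :=
  ⟨by decide +kernel, by decide +kernel, by decide +kernel, by decide +kernel, by decide +kernel, by decide +kernel, by decide +kernel, by decide +kernel⟩

def t16210 : allY (E.wth (lkp [])) l16210 = true ∧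
    allY (E.wth (lkp [])) l16211 = true ∧
    allY (E.wth (lkp [])) l16212 = true ∧
    allY (E.wth (lkp [])) l16213 = true ∧
    allY (E.wth (lkp [])) l16214 = true ∧
    allY (E.wth (lkp [])) l16215 = true ∧
    allY (E.wth (lkp [])) l16216 = true ∧
    allY (E.wth (lkp [])) l16217 = true :=
  ⟨by decide +kernel, by decide +kernel, by decide +kernel, by decide +kernel, by decide +kernel, by decide +kernel, by decide +kernel, by decide +kernel⟩

def t16218 : allY (E.wth (lkp [])) l16218 = true ∧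
    allY (E.wth (lkp [])) l16219 = true ∧
    allY (E.wth (lkp [])) l16220 = true ∧
    allY (E.wth (lkp [])) l16221 = true ∧
    allY (E.wth (lkp [])) l16222 = true ∧
    allY (E.wth (lkp [])) l16223 = true ∧
    allY (E.wth (lkp [])) l16224 = true ∧
    allY (E.wth (lkp [])) l16225 = true :=
  ⟨by decide +kernel, by decide +kernel, by decide +kernel, by decide +kernel, by decide +kernel, by decide +kernel, by decide +kernel, by decide +kernel⟩

def t16226 : allY (E.wth (lkp [])) l16226 = true ∧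
    allY (E.wth (lkp [])) l16227 = true ∧
    allY (E.wth (lkp [])) l16228 = true ∧
    allY (E.wth (lkp [])) l16229 = true ∧
    allY (E.wth (lkp [])) l16230 = true ∧
    allY (E.wth (lkp [])) l16231 = true ∧
    allY (E.wth (lkp [])) l16232 = true ∧
    allY (E.wth (lkp [])) l16233 = true :=
  ⟨by decide +kernel, by decide +kernel, by decide +kernel, by decide +kernel, by decide +kernel, by decide +kernel, by decide +kernel, by decide +kernel⟩

def t16234 : allY (E.wth (lkp [])) l16234 = true ∧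
    allY (E.wth (lkp [])) l16235 = true ∧
    allY (E.wth (lkp [])) l16236 = true ∧
    allY (E.wth (lkp [])) l16237 = true ∧
    allY (E.wth (lkp [])) l16238 = true ∧
    allY (E.wth (lkp [])) l16239 = true ∧
    allY (E.wth (lkp [])) l16240 = true ∧
    allY (E.wth (lkp [])) l16241 = true :=
  ⟨by decide +kernel, by decide +kernel, by decide +kernel, by decide +kernel, by decide +kernel, by decide +kernel, by decide +kernel, by decide +kernel⟩

def t16242 : allY (E.wth (lkp [])) l16242 = true ∧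
    allY (E.wth (lkp [])) l16243 = true ∧
    allY (E.wth (lkp [])) l16244 = true ∧
    allY (E.wth (lkp [])) l16245 = true ∧
    allY (E.wth (lkp [])) l16246 = true ∧
    allY (E.wth (lkp [])) l16247 = true ∧
    allY (E.wth (lkp [])) l16248 = true ∧
    allY (E.wth (lkp [])) l16249 = true :=
  ⟨by decide +kernel, by decide +kernel, by decide +kernel, by decide +kernel, by decide +kernel, by decide +kernel, by decide +kernel, by decide +kernel⟩

def t16250 : allY (E.wth (lkp [])) l16250 = true ∧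
    allY (E.wth (lkp [])) l16251 = true ∧
    allY (E.wth (lkp [])) l16252 = true ∧
    allY (E.wth (lkp [])) l16253 = true ∧
    allY (E.wth (lkp [])) l16254 = true ∧
    allY (E.wth (lkp [])) l16255 = true ∧
    allY (E.wth (lkp [])) l16256 = true ∧
    allY (E.wth (lkp [])) l16257 = true :=
  ⟨by decide +kernel, by decide +kernel, by decide +kernel, by decide +kernel, by decide +kernel, by decide +kernel, by decide +kernel, by decide +kernel⟩

theorem a28 {p : Rf → Prop} (H : ∀ l, allY (E.wth (lkp [])) l = true → (lkp l).All p) :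
    b28.All p := ⟨⟨⟨⟨⟨⟨⟨⟨⟨H _ t15698.1, H _ t15698.2.1⟩, ⟨H _ t15698.2.2.1, H _ t15698.2.2.2.1⟩⟩, ⟨⟨H _ t15698.2.2.2.2.1, H _ t15698.2.2.2.2.2.1⟩, ⟨H _ t15698.2.2.2.2.2.2.1, H _ t15698.2.2.2.2.2.2.2⟩⟩⟩, ⟨⟨⟨H _ t15706.1, H _ t15706.2.1⟩, ⟨H _ t15706.2.2.1, H _ t15706.2.2.2.1⟩⟩, ⟨⟨H _ t15706.2.2.2.2.1, H _ t15706.2.2.2.2.2.1⟩, ⟨H _ t15706.2.2.2.2.2.2.1, ⟨H _ t15706.2.2.2.2.2.2.2, H _ t15714.1⟩⟩⟩⟩⟩, ⟨⟨⟨⟨H _ t15714.2.1, H _ t15714.2.2.1⟩, ⟨H _ t15714.2.2.2.1, H _ t15714.2.2.2.2.1⟩⟩, ⟨⟨H _ t15714.2.2.2.2.2.1, H _ t15714.2.2.2.2.2.2.1⟩, ⟨H _ t15714.2.2.2.2.2.2.2, ⟨H _ t15722.1, H _ t15722.2.1⟩⟩⟩⟩, ⟨⟨⟨H _ t15722.2.2.1, H _ t15722.2.2.2.1⟩, ⟨H _ t15722.2.2.2.2.1, H _ t15722.2.2.2.2.2.1⟩⟩, ⟨⟨H _ t15722.2.2.2.2.2.2.1, H _ t15722.2.2.2.2.2.2.2⟩, ⟨H _ t15730.1, ⟨H _ t15730.2.1, H _ t15730.2.2.1⟩⟩⟩⟩⟩⟩, ⟨⟨⟨⟨⟨H _ t15730.2.2.2.1, H _ t15730.2.2.2.2.1⟩, ⟨H _ t15730.2.2.2.2.2.1, H _ t15730.2.2.2.2.2.2.1⟩⟩, ⟨⟨H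 _ t15730.2.2.2.2.2.2.2, H _ t15738.1⟩, ⟨H _ t15738.2.1, H _ t15738.2.2.1⟩⟩⟩, ⟨⟨⟨H _ t15738.2.2.2.1, H _ t15738.2.2.2.2.1⟩, ⟨H _ t15738.2.2.2.2.2.1, H _ t15738.2.2.2.2.2.2.1⟩⟩, ⟨⟨H _ t15738.2.2.2.2.2.2.2, H _ t15746.1⟩, ⟨H _ t15746.2.1, ⟨H _ t15746.2.2.1, H _ t15746.2.2.2.1⟩⟩⟩⟩⟩, ⟨⟨⟨⟨H _ t15746.2.2.2.2.1, H _ t15746.2.2.2.2.2.1⟩, ⟨H _ t15746.2.2.2.2.2.2.1, H _ t15746.2.2.2.2.2.2.2⟩⟩, ⟨⟨H _ t15754.1, H _ t15754.2.1⟩, ⟨H _ t15754.2.2.1, ⟨H _ t15754.2.2.2.1, H _ t15754.2.2.2.2.1⟩⟩⟩⟩, ⟨⟨⟨H _ t15754.2.2.2.2.2.1, H _ t15754.2.2.2.2.2.2.1⟩, ⟨H _ t15754.2.2.2.2.2.2.2, H _ t15762.1⟩⟩, ⟨⟨H _ t15762.2.1, H _ t15762.2.2.1⟩, ⟨H _ t15762.2.2.2.1, ⟨H _ t15762.2.2.2.2.1, H _ t15762.2.2.2.2.2.1⟩⟩⟩⟩⟩⟩⟩, ⟨⟨⟨⟨⟨⟨H _ t15762.2.2.2.2.2.2.1, H _ t15762.2.2.2.2.2.2.2⟩, ⟨H _ t15770.1, H _ t15770.2.1⟩⟩, ⟨⟨H _ t15770.2.2.1, H _ t15770.2.2.2.1⟩, ⟨H _ t15770.2.2.2.2.1, H _ t15770.2.2.2.2.2.1⟩⟩⟩, ⟨⟨⟨H _ t15770.2.2.2.2.2.2.1,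 H _ t15770.2.2.2.2.2.2.2⟩, ⟨H _ t15778.1, H _ t15778.2.1⟩⟩, ⟨⟨H _ t15778.2.2.1, H _ t15778.2.2.2.1⟩, ⟨H _ t15778.2.2.2.2.1, ⟨H _ t15778.2.2.2.2.2.1, H _ t15778.2.2.2.2.2.2.1⟩⟩⟩⟩⟩, ⟨⟨⟨⟨H _ t15778.2.2.2.2.2.2.2, H _ t15786.1⟩, ⟨H _ t15786.2.1, H _ t15786.2.2.1⟩⟩, ⟨⟨H _ t15786.2.2.2.1, H _ t15786.2.2.2.2.1⟩, ⟨H _ t15786.2.2.2.2.2.1, ⟨H _ t15786.2.2.2.2.2.2.1, H _ t15786.2.2.2.2.2.2.2⟩⟩⟩⟩, ⟨⟨⟨H _ t15794.1, H _ t15794.2.1⟩, ⟨H _ t15794.2.2.1, H _ t15794.2.2.2.1⟩⟩, ⟨⟨H _ t15794.2.2.2.2.1, H _ t15794.2.2.2.2.2.1⟩, ⟨H _ t15794.2.2.2.2.2.2.1, ⟨H _ t15794.2.2.2.2.2.2.2, H _ t15802.1⟩⟩⟩⟩⟩⟩, ⟨⟨⟨⟨⟨H _ t15802.2.1, H _ t15802.2.2.1⟩, ⟨H _ t15802.2.2.2.1, H _ t15802.2.2.2.2.1⟩⟩, ⟨⟨H _ t15802.2.2.2.2.2.1, H _ t15802.2.2.2.2.2.2.1⟩, ⟨H _ t15802.2.2.2.2.2.2.2, H _ t15810.1⟩⟩⟩, ⟨⟨⟨H _ t15810.2.1, H _ t15810.2.2.1⟩, ⟨H _ t15810.2.2.2.1, H _ t15810.2.2.2.2.1⟩⟩, ⟨⟨H _ t15810.2.2.2.2.2.1, H _ t15810.2.2.2.2.2.2.1⟩,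 ⟨H _ t15810.2.2.2.2.2.2.2, ⟨H _ t15818.1, H _ t15818.2.1⟩⟩⟩⟩⟩, ⟨⟨⟨⟨H _ t15818.2.2.1, H _ t15818.2.2.2.1⟩, ⟨H _ t15818.2.2.2.2.1, H _ t15818.2.2.2.2.2.1⟩⟩, ⟨⟨H _ t15818.2.2.2.2.2.2.1, H _ t15818.2.2.2.2.2.2.2⟩, ⟨H _ t15826.1, ⟨H _ t15826.2.1, H _ t15826.2.2.1⟩⟩⟩⟩, ⟨⟨⟨H _ t15826.2.2.2.1, H _ t15826.2.2.2.2.1⟩, ⟨H _ t15826.2.2.2.2.2.1, H _ t15826.2.2.2.2.2.2.1⟩⟩, ⟨⟨H _ t15826.2.2.2.2.2.2.2, H _ t15834.1⟩, ⟨H _ t15834.2.1, ⟨H _ t15834.2.2.1, H _ t15834.2.2.2.1⟩⟩⟩⟩⟩⟩⟩⟩, ⟨⟨⟨⟨⟨⟨⟨H _ t15834.2.2.2.2.1, H _ t15834.2.2.2.2.2.1⟩, ⟨H _ t15834.2.2.2.2.2.2.1, H _ t15834.2.2.2.2.2.2.2⟩⟩, ⟨⟨H _ t15842.1, H _ t15842.2.1⟩, ⟨H _ t15842.2.2.1, H _ t15842.2.2.2.1⟩⟩⟩, ⟨⟨⟨H _ t15842.2.2.2.2.1, H _ t15842.2.2.2.2.2.1⟩, ⟨H _ t15842.2.2.2.2.2.2.1, H _ t15842.2.2.2.2.2.2.2⟩⟩, ⟨⟨H _ t15850.1, H _ t15850.2.1⟩, ⟨H _ t15850.2.2.1, ⟨H _ t15850.2.2.2.1, H _ t15850.2.2.2.2.1⟩⟩⟩⟩⟩, ⟨⟨⟨⟨H _ t15850.2.2.2.2.2.1, H _ t15850.2.2.2.2.2.2.1⟩,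 ⟨H _ t15850.2.2.2.2.2.2.2, H _ t15858.1⟩⟩, ⟨⟨H _ t15858.2.1, H _ t15858.2.2.1⟩, ⟨H _ t15858.2.2.2.1, ⟨H _ t15858.2.2.2.2.1, H _ t15858.2.2.2.2.2.1⟩⟩⟩⟩, ⟨⟨⟨H _ t15858.2.2.2.2.2.2.1, H _ t15858.2.2.2.2.2.2.2⟩, ⟨H _ t15866.1, H _ t15866.2.1⟩⟩, ⟨⟨H _ t15866.2.2.1, H _ t15866.2.2.2.1⟩, ⟨H _ t15866.2.2.2.2.1, ⟨H _ t15866.2.2.2.2.2.1, H _ t15866.2.2.2.2.2.2.1⟩⟩⟩⟩⟩⟩, ⟨⟨⟨⟨⟨H _ t15866.2.2.2.2.2.2.2, H _ t15874.1⟩, ⟨H _ t15874.2.1, H _ t15874.2.2.1⟩⟩, ⟨⟨H _ t15874.2.2.2.1, H _ t15874.2.2.2.2.1⟩, ⟨H _ t15874.2.2.2.2.2.1, H _ t15874.2.2.2.2.2.2.1⟩⟩⟩, ⟨⟨⟨H _ t15874.2.2.2.2.2.2.2, H _ t15882.1⟩, ⟨H _ t15882.2.1, H _ t15882.2.2.1⟩⟩, ⟨⟨H _ t15882.2.2.2.1, H _ t15882.2.2.2.2.1⟩, ⟨H _ t15882.2.2.2.2.2.1, ⟨H _ t15882.2.2.2.2.2.2.1, H _ t15882.2.2.2.2.2.2.2⟩⟩⟩⟩⟩, ⟨⟨⟨⟨H _ t15890.1, H _ t15890.2.1⟩, ⟨H _ t15890.2.2.1, H _ t15890.2.2.2.1⟩⟩, ⟨⟨H _ t15890.2.2.2.2.1, H _ t15890.2.2.2.2.2.1⟩, ⟨H _ t15890.2.2.2.2.2.2.1,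 ⟨H _ t15890.2.2.2.2.2.2.2, H _ t15898.1⟩⟩⟩⟩, ⟨⟨⟨H _ t15898.2.1, H _ t15898.2.2.1⟩, ⟨H _ t15898.2.2.2.1, H _ t15898.2.2.2.2.1⟩⟩, ⟨⟨H _ t15898.2.2.2.2.2.1, H _ t15898.2.2.2.2.2.2.1⟩, ⟨H _ t15898.2.2.2.2.2.2.2, ⟨H _ t15906.1, H _ t15906.2.1⟩⟩⟩⟩⟩⟩⟩, ⟨⟨⟨⟨⟨⟨H _ t15906.2.2.1, H _ t15906.2.2.2.1⟩, ⟨H _ t15906.2.2.2.2.1, H _ t15906.2.2.2.2.2.1⟩⟩, ⟨⟨H _ t15906.2.2.2.2.2.2.1, H _ t15906.2.2.2.2.2.2.2⟩, ⟨H _ t15914.1, H _ t15914.2.1⟩⟩⟩, ⟨⟨⟨H _ t15914.2.2.1, H _ t15914.2.2.2.1⟩, ⟨H _ t15914.2.2.2.2.1, H _ t15914.2.2.2.2.2.1⟩⟩, ⟨⟨H _ t15914.2.2.2.2.2.2.1, H _ t15914.2.2.2.2.2.2.2⟩, ⟨H _ t15922.1, ⟨H _ t15922.2.1, H _ t15922.2.2.1⟩⟩⟩⟩⟩, ⟨⟨⟨⟨H _ t15922.2.2.2.1, H _ t15922.2.2.2.2.1⟩, ⟨H _ t15922.2.2.2.2.2.1, H _ t15922.2.2.2.2.2.2.1⟩⟩, ⟨⟨H _ t15922.2.2.2.2.2.2.2, H _ t15930.1⟩, ⟨H _ t15930.2.1, ⟨H _ t15930.2.2.1, H _ t15930.2.2.2.1⟩⟩⟩⟩, ⟨⟨⟨H _ t15930.2.2.2.2.1, H _ t15930.2.2.2.2.2.1⟩, ⟨H _ t15930.2.2.2.2.2.2.1,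 H _ t15930.2.2.2.2.2.2.2⟩⟩, ⟨⟨H _ t15938.1, H _ t15938.2.1⟩, ⟨H _ t15938.2.2.1, ⟨H _ t15938.2.2.2.1, H _ t15938.2.2.2.2.1⟩⟩⟩⟩⟩⟩, ⟨⟨⟨⟨⟨H _ t15938.2.2.2.2.2.1, H _ t15938.2.2.2.2.2.2.1⟩, ⟨H _ t15938.2.2.2.2.2.2.2, H _ t15946.1⟩⟩, ⟨⟨H _ t15946.2.1, H _ t15946.2.2.1⟩, ⟨H _ t15946.2.2.2.1, H _ t15946.2.2.2.2.1⟩⟩⟩, ⟨⟨⟨H _ t15946.2.2.2.2.2.1, H _ t15946.2.2.2.2.2.2.1⟩, ⟨H _ t15946.2.2.2.2.2.2.2, H _ t15954.1⟩⟩, ⟨⟨H _ t15954.2.1, H _ t15954.2.2.1⟩, ⟨H _ t15954.2.2.2.1, ⟨H _ t15954.2.2.2.2.1, H _ t15954.2.2.2.2.2.1⟩⟩⟩⟩⟩, ⟨⟨⟨⟨H _ t15954.2.2.2.2.2.2.1, H _ t15954.2.2.2.2.2.2.2⟩, ⟨H _ t15962.1, H _ t15962.2.1⟩⟩, ⟨⟨H _ t15962.2.2.1, H _ t15962.2.2.2.1⟩, ⟨H _ t15962.2.2.2.2.1, ⟨H _ t15962.2.2.2.2.2.1, H _ t15962.2.2.2.2.2.2.1⟩⟩⟩⟩, ⟨⟨⟨H _ t15962.2.2.2.2.2.2.2, H _ t15970.1⟩, ⟨H _ t15970.2.1, H _ t15970.2.2.1⟩⟩, ⟨⟨H _ t15970.2.2.2.1, H _ t15970.2.2.2.2.1⟩, ⟨H _ t15970.2.2.2.2.2.1, ⟨H _ t15970.2.2.2.2.2.2.1,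 H _ t15970.2.2.2.2.2.2.2⟩⟩⟩⟩⟩⟩⟩⟩⟩, ⟨⟨⟨⟨⟨⟨⟨⟨H _ t15978.1, H _ t15978.2.1⟩, ⟨H _ t15978.2.2.1, H _ t15978.2.2.2.1⟩⟩, ⟨⟨H _ t15978.2.2.2.2.1, H _ t15978.2.2.2.2.2.1⟩, ⟨H _ t15978.2.2.2.2.2.2.1, H _ t15978.2.2.2.2.2.2.2⟩⟩⟩, ⟨⟨⟨H _ t15986.1, H _ t15986.2.1⟩, ⟨H _ t15986.2.2.1, H _ t15986.2.2.2.1⟩⟩, ⟨⟨H _ t15986.2.2.2.2.1, H _ t15986.2.2.2.2.2.1⟩, ⟨H _ t15986.2.2.2.2.2.2.1, ⟨H _ t15986.2.2.2.2.2.2.2, H _ t15994.1⟩⟩⟩⟩⟩, ⟨⟨⟨⟨H _ t15994.2.1, H _ t15994.2.2.1⟩, ⟨H _ t15994.2.2.2.1, H _ t15994.2.2.2.2.1⟩⟩, ⟨⟨H _ t15994.2.2.2.2.2.1, H _ t15994.2.2.2.2.2.2.1⟩, ⟨H _ t15994.2.2.2.2.2.2.2, ⟨H _ t16002.1, H _ t16002.2.1⟩⟩⟩⟩, ⟨⟨⟨H _ t16002.2.2.1, H _ t16002.2.2.2.1⟩, ⟨H _ t16002.2.2.2.2.1, H _ t16002.2.2.2.2.2.1⟩⟩, ⟨⟨H _ t16002.2.2.2.2.2.2.1, H _ t16002.2.2.2.2.2.2.2⟩, ⟨H _ t16010.1, ⟨H _ t16010.2.1, H _ t16010.2.2.1⟩⟩⟩⟩⟩⟩, ⟨⟨⟨⟨⟨H _ t16010.2.2.2.1, H _ t16010.2.2.2.2.1⟩, ⟨H _ t16010.2.2.2.2.2.1, H _ t16010.2.2.2.2.2.2.1⟩⟩,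 ⟨⟨H _ t16010.2.2.2.2.2.2.2, H _ t16018.1⟩, ⟨H _ t16018.2.1, H _ t16018.2.2.1⟩⟩⟩, ⟨⟨⟨H _ t16018.2.2.2.1, H _ t16018.2.2.2.2.1⟩, ⟨H _ t16018.2.2.2.2.2.1, H _ t16018.2.2.2.2.2.2.1⟩⟩, ⟨⟨H _ t16018.2.2.2.2.2.2.2, H _ t16026.1⟩, ⟨H _ t16026.2.1, ⟨H _ t16026.2.2.1, H _ t16026.2.2.2.1⟩⟩⟩⟩⟩, ⟨⟨⟨⟨H _ t16026.2.2.2.2.1, H _ t16026.2.2.2.2.2.1⟩, ⟨H _ t16026.2.2.2.2.2.2.1, H _ t16026.2.2.2.2.2.2.2⟩⟩, ⟨⟨H _ t16034.1, H _ t16034.2.1⟩, ⟨H _ t16034.2.2.1, ⟨H _ t16034.2.2.2.1, H _ t16034.2.2.2.2.1⟩⟩⟩⟩, ⟨⟨⟨H _ t16034.2.2.2.2.2.1, H _ t16034.2.2.2.2.2.2.1⟩, ⟨H _ t16034.2.2.2.2.2.2.2, H _ t16042.1⟩⟩, ⟨⟨H _ t16042.2.1, H _ t16042.2.2.1⟩, ⟨H _ t16042.2.2.2.1, ⟨H _ t16042.2.2.2.2.1, H _ t16042.2.2.2.2.2.1⟩⟩⟩⟩⟩⟩⟩, ⟨⟨⟨⟨⟨⟨H _ t16042.2.2.2.2.2.2.1, H _ t16042.2.2.2.2.2.2.2⟩, ⟨H _ t16050.1, H _ t16050.2.1⟩⟩, ⟨⟨H _ t16050.2.2.1, H _ t16050.2.2.2.1⟩, ⟨H _ t16050.2.2.2.2.1, H _ t16050.2.2.2.2.2.1⟩⟩⟩, ⟨⟨⟨H _ t16050.2.2.2.2.2.2.1,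 H _ t16050.2.2.2.2.2.2.2⟩, ⟨H _ t16058.1, H _ t16058.2.1⟩⟩, ⟨⟨H _ t16058.2.2.1, H _ t16058.2.2.2.1⟩, ⟨H _ t16058.2.2.2.2.1, ⟨H _ t16058.2.2.2.2.2.1, H _ t16058.2.2.2.2.2.2.1⟩⟩⟩⟩⟩, ⟨⟨⟨⟨H _ t16058.2.2.2.2.2.2.2, H _ t16066.1⟩, ⟨H _ t16066.2.1, H _ t16066.2.2.1⟩⟩, ⟨⟨H _ t16066.2.2.2.1, H _ t16066.2.2.2.2.1⟩, ⟨H _ t16066.2.2.2.2.2.1, ⟨H _ t16066.2.2.2.2.2.2.1, H _ t16066.2.2.2.2.2.2.2⟩⟩⟩⟩, ⟨⟨⟨H _ t16074.1, H _ t16074.2.1⟩, ⟨H _ t16074.2.2.1, H _ t16074.2.2.2.1⟩⟩, ⟨⟨H _ t16074.2.2.2.2.1, H _ t16074.2.2.2.2.2.1⟩, ⟨H _ t16074.2.2.2.2.2.2.1, ⟨H _ t16074.2.2.2.2.2.2.2, H _ t16082.1⟩⟩⟩⟩⟩⟩, ⟨⟨⟨⟨⟨H _ t16082.2.1, H _ t16082.2.2.1⟩, ⟨H _ t16082.2.2.2.1, H _ t16082.2.2.2.2.1⟩⟩, ⟨⟨H _ t16082.2.2.2.2.2.1, H _ t16082.2.2.2.2.2.2.1⟩, ⟨H _ t16082.2.2.2.2.2.2.2, H _ t16090.1⟩⟩⟩, ⟨⟨⟨H _ t16090.2.1, H _ t16090.2.2.1⟩, ⟨H _ t16090.2.2.2.1, H _ t16090.2.2.2.2.1⟩⟩, ⟨⟨H _ t16090.2.2.2.2.2.1, H _ t16090.2.2.2.2.2.2.1⟩,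 ⟨H _ t16090.2.2.2.2.2.2.2, ⟨H _ t16098.1, H _ t16098.2.1⟩⟩⟩⟩⟩, ⟨⟨⟨⟨H _ t16098.2.2.1, H _ t16098.2.2.2.1⟩, ⟨H _ t16098.2.2.2.2.1, H _ t16098.2.2.2.2.2.1⟩⟩, ⟨⟨H _ t16098.2.2.2.2.2.2.1, H _ t16098.2.2.2.2.2.2.2⟩, ⟨H _ t16106.1, ⟨H _ t16106.2.1, H _ t16106.2.2.1⟩⟩⟩⟩, ⟨⟨⟨H _ t16106.2.2.2.1, H _ t16106.2.2.2.2.1⟩, ⟨H _ t16106.2.2.2.2.2.1, H _ t16106.2.2.2.2.2.2.1⟩⟩, ⟨⟨H _ t16106.2.2.2.2.2.2.2, H _ t16114.1⟩, ⟨H _ t16114.2.1, ⟨H _ t16114.2.2.1, H _ t16114.2.2.2.1⟩⟩⟩⟩⟩⟩⟩⟩, ⟨⟨⟨⟨⟨⟨⟨H _ t16114.2.2.2.2.1, H _ t16114.2.2.2.2.2.1⟩, ⟨H _ t16114.2.2.2.2.2.2.1, H _ t16114.2.2.2.2.2.2.2⟩⟩, ⟨⟨H _ t16122.1, H _ t16122.2.1⟩, ⟨H _ t16122.2.2.1, H _ t16122.2.2.2.1⟩⟩⟩, ⟨⟨⟨H _ t16122.2.2.2.2.1, H _ t16122.2.2.2.2.2.1⟩, ⟨H _ t16122.2.2.2.2.2.2.1, H _ t16122.2.2.2.2.2.2.2⟩⟩, ⟨⟨H _ t16130.1, H _ t16130.2.1⟩, ⟨H _ t16130.2.2.1, ⟨H _ t16130.2.2.2.1, H _ t16130.2.2.2.2.1⟩⟩⟩⟩⟩, ⟨⟨⟨⟨H _ t16130.2.2.2.2.2.1, H _ t16130.2.2.2.2.2.2.1⟩,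 ⟨H _ t16130.2.2.2.2.2.2.2, H _ t16138.1⟩⟩, ⟨⟨H _ t16138.2.1, H _ t16138.2.2.1⟩, ⟨H _ t16138.2.2.2.1, ⟨H _ t16138.2.2.2.2.1, H _ t16138.2.2.2.2.2.1⟩⟩⟩⟩, ⟨⟨⟨H _ t16138.2.2.2.2.2.2.1, H _ t16138.2.2.2.2.2.2.2⟩, ⟨H _ t16146.1, H _ t16146.2.1⟩⟩, ⟨⟨H _ t16146.2.2.1, H _ t16146.2.2.2.1⟩, ⟨H _ t16146.2.2.2.2.1, ⟨H _ t16146.2.2.2.2.2.1, H _ t16146.2.2.2.2.2.2.1⟩⟩⟩⟩⟩⟩, ⟨⟨⟨⟨⟨H _ t16146.2.2.2.2.2.2.2, H _ t16154.1⟩, ⟨H _ t16154.2.1, H _ t16154.2.2.1⟩⟩, ⟨⟨H _ t16154.2.2.2.1, H _ t16154.2.2.2.2.1⟩, ⟨H _ t16154.2.2.2.2.2.1, H _ t16154.2.2.2.2.2.2.1⟩⟩⟩, ⟨⟨⟨H _ t16154.2.2.2.2.2.2.2, H _ t16162.1⟩, ⟨H _ t16162.2.1, H _ t16162.2.2.1⟩⟩, ⟨⟨H _ t16162.2.2.2.1, H _ t16162.2.2.2.2.1⟩, ⟨H _ t16162.2.2.2.2.2.1, ⟨H _ t16162.2.2.2.2.2.2.1, H _ t16162.2.2.2.2.2.2.2⟩⟩⟩⟩⟩, ⟨⟨⟨⟨H _ t16170.1, H _ t16170.2.1⟩, ⟨H _ t16170.2.2.1, H _ t16170.2.2.2.1⟩⟩, ⟨⟨H _ t16170.2.2.2.2.1, H _ t16170.2.2.2.2.2.1⟩, ⟨H _ t16170.2.2.2.2.2.2.1,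 ⟨H _ t16170.2.2.2.2.2.2.2, H _ t16178.1⟩⟩⟩⟩, ⟨⟨⟨H _ t16178.2.1, H _ t16178.2.2.1⟩, ⟨H _ t16178.2.2.2.1, H _ t16178.2.2.2.2.1⟩⟩, ⟨⟨H _ t16178.2.2.2.2.2.1, H _ t16178.2.2.2.2.2.2.1⟩, ⟨H _ t16178.2.2.2.2.2.2.2, ⟨H _ t16186.1, H _ t16186.2.1⟩⟩⟩⟩⟩⟩⟩, ⟨⟨⟨⟨⟨⟨H _ t16186.2.2.1, H _ t16186.2.2.2.1⟩, ⟨H _ t16186.2.2.2.2.1, H _ t16186.2.2.2.2.2.1⟩⟩, ⟨⟨H _ t16186.2.2.2.2.2.2.1, H _ t16186.2.2.2.2.2.2.2⟩, ⟨H _ t16194.1, H _ t16194.2.1⟩⟩⟩, ⟨⟨⟨H _ t16194.2.2.1, H _ t16194.2.2.2.1⟩, ⟨H _ t16194.2.2.2.2.1, H _ t16194.2.2.2.2.2.1⟩⟩, ⟨⟨H _ t16194.2.2.2.2.2.2.1, H _ t16194.2.2.2.2.2.2.2⟩, ⟨H _ t16202.1, ⟨H _ t16202.2.1, H _ t16202.2.2.1⟩⟩⟩⟩⟩, ⟨⟨⟨⟨H _ t16202.2.2.2.1, H _ t16202.2.2.2.2.1⟩, ⟨H _ t16202.2.2.2.2.2.1, H _ t16202.2.2.2.2.2.2.1⟩⟩, ⟨⟨H _ t16202.2.2.2.2.2.2.2, H _ t16210.1⟩, ⟨H _ t16210.2.1, ⟨H _ t16210.2.2.1, H _ t16210.2.2.2.1⟩⟩⟩⟩, ⟨⟨⟨H _ t16210.2.2.2.2.1, H _ t16210.2.2.2.2.2.1⟩, ⟨H _ t16210.2.2.2.2.2.2.1,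 H _ t16210.2.2.2.2.2.2.2⟩⟩, ⟨⟨H _ t16218.1, H _ t16218.2.1⟩, ⟨H _ t16218.2.2.1, ⟨H _ t16218.2.2.2.1, H _ t16218.2.2.2.2.1⟩⟩⟩⟩⟩⟩, ⟨⟨⟨⟨⟨H _ t16218.2.2.2.2.2.1, H _ t16218.2.2.2.2.2.2.1⟩, ⟨H _ t16218.2.2.2.2.2.2.2, H _ t16226.1⟩⟩, ⟨⟨H _ t16226.2.1, H _ t16226.2.2.1⟩, ⟨H _ t16226.2.2.2.1, H _ t16226.2.2.2.2.1⟩⟩⟩, ⟨⟨⟨H _ t16226.2.2.2.2.2.1, H _ t16226.2.2.2.2.2.2.1⟩, ⟨H _ t16226.2.2.2.2.2.2.2, H _ t16234.1⟩⟩, ⟨⟨H _ t16234.2.1, H _ t16234.2.2.1⟩, ⟨H _ t16234.2.2.2.1, ⟨H _ t16234.2.2.2.2.1, H _ t16234.2.2.2.2.2.1⟩⟩⟩⟩⟩, ⟨⟨⟨⟨H _ t16234.2.2.2.2.2.2.1, H _ t16234.2.2.2.2.2.2.2⟩, ⟨H _ t16242.1, H _ t16242.2.1⟩⟩, ⟨⟨H _ t16242.2.2.1, H _ t16242.2.2.2.1⟩, ⟨H _ t16242.2.2.2.2.1, ⟨H _ t16242.2.2.2.2.2.1, H _ t16242.2.2.2.2.2.2.1⟩⟩⟩⟩, ⟨⟨⟨H _ t16242.2.2.2.2.2.2.2, H _ t16250.1⟩, ⟨H _ t16250.2.1, H _ t16250.2.2.1⟩⟩, ⟨⟨H _ t16250.2.2.2.1, H _ t16250.2.2.2.2.1⟩, ⟨H _ t16250.2.2.2.2.2.1, ⟨H _ t16250.2.2.2.2.2.2.1,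 H _ t16250.2.2.2.2.2.2.2⟩⟩⟩⟩⟩⟩⟩⟩⟩⟩

end Pool.Agent.MP_c853c5_nt.X.C4950
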