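import Pool.Agent.MP_c853c5_nt.X.C4950.Env
import Pool.Agent.MP_c853c5_nt.X.C4950.D5

set_option autoImplicit false
set_option maxRecDepth 8192
set_option linter.all false

namespace Pool.Agent.MP_c853c5_nt.X.C4950

open Pool.Agent.MP_c853c5_nt.X

def t16258 : allY (E.wth (lkp [])) l16258 = true ∧
    allY (E.wth (lkp [])) l16259 = true ∧
    allY (E.wth (lkp [])) l16260 = true ∧
    allY (E.wth (lkp [])) l16261 = true ∧
    allY (E.wth (lkp [])) l16262 = true ∧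
    allY (E.wth (lkp [])) l16263 = true ∧
    allY (E.wth (lkp [])) l16264 = true ∧
    allY (E.wth (lkp [])) l16265 = true :=
  ⟨by decide +kernel, by decide +kernel, by decide +kernel, by decide +kernel, by decide +kernel, by decide +kernel, by decide +kernel, by decide +kernel⟩

def t16266 : allY (E.wth (lkp [])) l16266 = true ∧
    allY (E.wth (lkp [])) l16267 = true ∧
    allY (E.wth (lkp [])) l16268 = true ∧
    allY (E.wth (lkp [])) l16269 = true ∧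
    allY (E.wth (lkp [])) l16270 = true ∧
    allY (E.wth (lkp [])) l16271 = true ∧
    allY (E.wth (lkp [])) l16272 = true ∧
    allY (E.wth (lkp [])) l16273 = true :=
  ⟨by decide +kernel, by decide +kernel, by decide +kernel, by decide +kernel, by decide +kernel, by decide +kernel, by decide +kernel, by decide +kernel⟩

def t16274 : allY (E.wth (lkp [])) l16274 = true ∧
    allY (E.wth (lkp [])) l16275 = true ∧
    allY (E.wth (lkp [])) l16276 = true ∧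
    allY (E.wth (lkp [])) l16277 = true ∧
    allY (E.wth (lkp [])) l16278 = true ∧
    allY (E.wth (lkp [])) l16279 = true ∧
    allY (E.wth (lkp [])) l16280 = true ∧
    allY (E.wth (lkp [])) l16281 = true :=
  ⟨by decide +kernel, by decide +kernel, by decide +kernel, by decide +kernel, by decide +kernel, by decide +kernel, by decide +kernel, by decide +kernel⟩

def t16282 : allY (E.wth (lkp [])) l16282 = true ∧
    allY (E.wth (lkp [])) l16283 = true ∧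
    allY (E.wth (lkp [])) l16284 = true ∧
    allY (E.wth (lkp [])) l16285 = true ∧
    allY (E.wth (lkp [])) l16286 = true ∧
    allY (E.wth (lkp [])) l16287 = true ∧
    allY (E.wth (lkp [])) l16288 = true ∧
    allY (E.wth (lkp [])) l16289 = true :=
  ⟨by decide +kernel, by decide +kernel, by decide +kernel, by decide +kernel, by decide +kernel, by decide +kernel, by decide +kernel, by decide +kernel⟩

def t16290 : allY (E.wth (lkp [])) l16290 = true ∧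
    allY (E.wth (lkp [])) l16291 = true ∧
    allY (E.wth (lkp [])) l16292 = true ∧
    allY (E.wth (lkp [])) l16293 = true ∧
    allY (E.wth (lkp [])) l16294 = true ∧
    allY (E.wth (lkp [])) l16295 = true ∧
    allY (E.wth (lkp [])) l16296 = true ∧
    allY (E.wth (lkp [])) l16297 = true :=
  ⟨by decide +kernel, by decide +kernel, by decide +kernel, by decide +kernel, by decide +kernel, by decide +kernel, by decide +kernel, by decide +kernel⟩

def t16298 : allY (E.wth (lkp [])) l16298 = true ∧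
    allY (E.wth (lkp [])) l16299 = true ∧
    allY (E.wth (lkp [])) l16300 = true ∧
    allY (E.wth (lkp [])) l16301 = true ∧
    allY (E.wth (lkp [])) l16302 = true ∧
    allY (E.wth (lkp [])) l16303 = true ∧
    allY (E.wth (lkp [])) l16304 = true ∧
    allY (E.wth (lkp [])) l16305 = true :=
  ⟨by decide +kernel, by decide +kernel, by decide +kernel, by decide +kernel, by decide +kernel, by decide +kernel, by decide +kernel, by decide +kernel⟩

def t16306 : allY (E.wth (lkp [])) l16306 = true ∧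
    allY (E.wth (lkp [])) l16307 = true ∧
    allY (E.wth (lkp [])) l16308 = true ∧
    allY (E.wth (lkp [])) l16309 = true ∧
    allY (E.wth (lkp [])) l16310 = true ∧
    allY (E.wth (lkp [])) l16311 = true ∧
    allY (E.wth (lkp [])) l16312 = true ∧
    allY (E.wth (lkp [])) l16313 = true :=
  ⟨by decide +kernel, by decide +kernel, by decide +kernel, by decide +kernel, by decide +kernel, by decide +kernel, by decide +kernel, by decide +kernel⟩

def t16314 : allY (E.wth (lkp [])) l16314 = true ∧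
    allY (E.wth (lkp [])) l16315 = true ∧
    allY (E.wth (lkp [])) l16316 = true ∧
    allY (E.wth (lkp [])) l16317 = true ∧
    allY (E.wth (lkp [])) l16318 = true ∧
    allY (E.wth (lkp [])) l16319 = true ∧
    allY (E.wth (lkp [])) l16320 = true ∧
    allY (E.wth (lkp [])) l16321 = true :=
  ⟨by decide +kernel, by decide +kernel, by decide +kernel, by decide +kernel, by decide +kernel, by decide +kernel, by decide +kernel, by decide +kernel⟩

def t16322 : allY (E.wth (lkp [])) l16322 = true ∧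
    allY (E.wth (lkp [])) l16323 = true ∧
    allY (E.wth (lkp [])) l16324 = true ∧
    allY (E.wth (lkp [])) l16325 = true ∧
    allY (E.wth (lkp [])) l16326 = true ∧
    allY (E.wth (lkp [])) l16327 = true ∧
    allY (E.wth (lkp [])) l16328 = true ∧
    allY (E.wth (lkp [])) l16329 = true :=
  ⟨by decide +kernel, by decide +kernel, by decide +kernel, by decide +kernel, by decide +kernel, by decide +kernel, by decide +kernel, by decide +kernel⟩

def t16330 : allY (E.wth (lkp [])) l16330 = true ∧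
    allY (E.wth (lkp [])) l16331 = true ∧
    allY (E.wth (lkp [])) l16332 = true ∧
    allY (E.wth (lkp [])) l16333 = true ∧
    allY (E.wth (lkp [])) l16334 = true ∧
    allY (E.wth (lkp [])) l16335 = true ∧
    allY (E.wth (lkp [])) l16336 = true ∧
    allY (E.wth (lkp [])) l16337 = true :=
  ⟨by decide +kernel, by decide +kernel, by decide +kernel, by decide +kernel, by decide +kernel, by decide +kernel, by decide +kernel, by decide +kernel⟩

def t16338 : allY (E.wth (lkp [])) l16338 = true ∧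
    allY (E.wth (lkp [])) l16339 = true ∧
    allY (E.wth (lkp [])) l16340 = true ∧
    allY (E.wth (lkp [])) l16341 = true ∧
    allY (E.wth (lkp [])) l16342 = true ∧
    allY (E.wth (lkp [])) l16343 = true ∧
    allY (E.wth (lkp [])) l16344 = true ∧
    allY (E.wth (lkp [])) l16345 = true :=
  ⟨by decide +kernel, by decide +kernel, by decide +kernel, by decide +kernel, by decide +kernel, by decide +kernel, by decide +kernel, by decide +kernel⟩

def t16346 : allY (E.wth (lkp [])) l16346 = true ∧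
    allY (E.wth (lkp [])) l16347 = true ∧
    allY (E.wth (lkp [])) l16348 = true ∧
    allY (E.wth (lkp [])) l16349 = true ∧
    allY (E.wth (lkp [])) l16350 = true ∧
    allY (E.wth (lkp [])) l16351 = true ∧
    allY (E.wth (lkp [])) l16352 = true ∧
    allY (E.wth (lkp [])) l16353 = true :=
  ⟨by decide +kernel, by decide +kernel, by decide +kernel, by decide +kernel, by decide +kernel, by decide +kernel, by decide +kernel, by decide +kernel⟩

def t16354 : allY (E.wth (lkp [])) l16354 = true ∧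
    allY (E.wth (lkp [])) l16355 = true ∧
    allY (E.wth (lkp [])) l16356 = true ∧
    allY (E.wth (lkp [])) l16357 = true ∧
    allY (E.wth (lkp [])) l16358 = true ∧
    allY (E.wth (lkp [])) l16359 = true ∧
    allY (E.wth (lkp [])) l16360 = true ∧
    allY (E.wth (lkp [])) l16361 = true :=
  ⟨by decide +kernel, by decide +kernel, by decide +kernel, by decide +kernel, by decide +kernel, by decide +kernel, by decide +kernel, by decide +kernel⟩

def t16362 : allY (E.wth (lkp [])) l16362 = true ∧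
    allY (E.wth (lkp [])) l16363 = true ∧
    allY (E.wth (lkp [])) l16364 = true ∧
    allY (E.wth (lkp [])) l16365 = true ∧
    allY (E.wth (lkp [])) l16366 = true ∧
    allY (E.wth (lkp [])) l16367 = true ∧
    allY (E.wth (lkp [])) l16368 = true ∧
    allY (E.wth (lkp [])) l16369 = true :=
  ⟨by decide +kernel, by decide +kernel, by decide +kernel, by decide +kernel, by decide +kernel, by decide +kernel, by decide +kernel, by decide +kernel⟩

def t16370 : allY (E.wth (lkp [])) l16370 = true ∧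
    allY (E.wth (lkp [])) l16371 = true ∧
    allY (E.wth (lkp [])) l16372 = true ∧
    allY (E.wth (lkp [])) l16373 = true ∧
    allY (E.wth (lkp [])) l16374 = true ∧
    allY (E.wth (lkp [])) l16375 = true ∧
    allY (E.wth (lkp [])) l16376 = true ∧
    allY (E.wth (lkp [])) l16377 = true :=
  ⟨by decide +kernel, by decide +kernel, by decide +kernel, by decide +kernel, by decide +kernel, by decide +kernel, by decide +kernel, by decide +kernel⟩

def t16378 : allY (E.wth (lkp [])) l16378 = true ∧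
    allY (E.wth (lkp [])) l16379 = true ∧
    allY (E.wth (lkp [])) l16380 = true ∧
    allY (E.wth (lkp [])) l16381 = true ∧
    allY (E.wth (lkp [])) l16382 = true ∧
    allY (E.wth (lkp [])) l16383 = true ∧
    allY (E.wth (lkp [])) l16384 = true ∧
    allY (E.wth (lkp [])) l16385 = true :=
  ⟨by decide +kernel, by decide +kernel, by decide +kernel, by decide +kernel, by decide +kernel, by decide +kernel, by decide +kernel, by decide +kernel⟩

def t16386 : allY (E.wth (lkp [])) l16386 = true ∧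
    allY (E.wth (lkp [])) l16387 = true ∧
    allY (E.wth (lkp [])) l16388 = true ∧
    allY (E.wth (lkp [])) l16389 = true ∧
    allY (E.wth (lkp [])) l16390 = true ∧
    allY (E.wth (lkp [])) l16391 = true ∧
    allY (E.wth (lkp [])) l16392 = true ∧
    allY (E.wth (lkp [])) l16393 = true :=
  ⟨by decide +kernel, by decide +kernel, by decide +kernel, by decide +kernel, by decide +kernel, by decide +kernel, by decide +kernel, by decide +kernel⟩

def t16394 : allY (E.wth (lkp [])) l16394 = true ∧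
    allY (E.wth (lkp [])) l16395 = true ∧
    allY (E.wth (lkp [])) l16396 = true ∧
    allY (E.wth (lkp [])) l16397 = true ∧
    allY (E.wth (lkp [])) l16398 = true ∧
    allY (E.wth (lkp [])) l16399 = true ∧
    allY (E.wth (lkp [])) l16400 = true ∧
    allY (E.wth (lkp [])) l16401 = true :=
  ⟨by decide +kernel, by decide +kernel, by decide +kernel, by decide +kernel, by decide +kernel, by decide +kernel, by decide +kernel, by decide +kernel⟩

def t16402 : allY (E.wth (lkp [])) l16402 = true ∧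
    allY (E.wth (lkp [])) l16403 = true ∧
    allY (E.wth (lkp [])) l16404 = true ∧
    allY (E.wth (lkp [])) l16405 = true ∧
    allY (E.wth (lkp [])) l16406 = true ∧
    allY (E.wth (lkp [])) l16407 = true ∧
    allY (E.wth (lkp [])) l16408 = true ∧
    allY (E.wth (lkp [])) l16409 = true :=
  ⟨by decide +kernel, by decide +kernel, by decide +kernel, by decide +kernel, by decide +kernel, by decide +kernel, by decide +kernel, by decide +kernel⟩

def t16410 : allY (E.wth (lkp [])) l16410 = true ∧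
    allY (E.wth (lkp [])) l16411 = true ∧
    allY (E.wth (lkp [])) l16412 = true ∧
    allY (E.wth (lkp [])) l16413 = true ∧
    allY (E.wth (lkp [])) l16414 = true ∧
    allY (E.wth (lkp [])) l16415 = true ∧
    allY (E.wth (lkp [])) l16416 = true ∧
    allY (E.wth (lkp [])) l16417 = true :=
  ⟨by decide +kernel, by decide +kernel, by decide +kernel, by decide +kernel, by decide +kernel, by decide +kernel, by decide +kernel, by decide +kernel⟩

def t16418 : allY (E.wth (lkp [])) l16418 = true ∧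
    allY (E.wth (lkp [])) l16419 = true ∧
    allY (E.wth (lkp [])) l16420 = true ∧
    allY (E.wth (lkp [])) l16421 = true ∧
    allY (E.wth (lkp [])) l16422 = true ∧
    allY (E.wth (lkp [])) l16423 = true ∧
    allY (E.wth (lkp [])) l16424 = true ∧
    allY (E.wth (lkp [])) l16425 = true :=
  ⟨by decide +kernel, by decide +kernel, by decide +kernel, by decide +kernel, by decide +kernel, by decide +kernel, by decide +kernel, by decide +kernel⟩

def t16426 : allY (E.wth (lkp [])) l16426 = true ∧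
    allY (E.wth (lkp [])) l16427 = true ∧
    allY (E.wth (lkp [])) l16428 = true ∧
    allY (E.wth (lkp [])) l16429 = true ∧
    allY (E.wth (lkp [])) l16430 = true ∧
    allY (E.wth (lkp [])) l16431 = true ∧
    allY (E.wth (lkp [])) l16432 = true ∧
    allY (E.wth (lkp [])) l16433 = true :=
  ⟨by decide +kernel, by decide +kernel, by decide +kernel, by decide +kernel, by decide +kernel, by decide +kernel, by decide +kernel, by decide +kernel⟩

def t16434 : allY (E.wth (lkp [])) l16434 = true ∧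
    allY (E.wth (lkp [])) l16435 = true ∧
    allY (E.wth (lkp [])) l16436 = true ∧
    allY (E.wth (lkp [])) l16437 = true ∧
    allY (E.wth (lkp [])) l16438 = true ∧
    allY (E.wth (lkp [])) l16439 = true ∧
    allY (E.wth (lkp [])) l16440 = true ∧
    allY (E.wth (lkp [])) l16441 = true :=
  ⟨by decide +kernel, by decide +kernel, by decide +kernel, by decide +kernel, by decide +kernel, by decide +kernel, by decide +kernel, by decide +kernel⟩

def t16442 : allY (E.wth (lkp [])) l16442 = true ∧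
    allY (E.wth (lkp [])) l16443 = true ∧
    allY (E.wth (lkp [])) l16444 = true ∧
    allY (E.wth (lkp [])) l16445 = true ∧
    allY (E.wth (lkp [])) l16446 = true ∧
    allY (E.wth (lkp [])) l16447 = true ∧
    allY (E.wth (lkp [])) l16448 = true ∧
    allY (E.wth (lkp [])) l16449 = true :=
  ⟨by decide +kernel, by decide +kernel, by decide +kernel, by decide +kernel, by decide +kernel, by decide +kernel, by decide +kernel, by decide +kernel⟩

def t16450 : allY (E.wth (lkp [])) l16450 = true ∧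
    allY (E.wth (lkp [])) l16451 = true ∧
    allY (E.wth (lkp [])) l16452 = true ∧
    allY (E.wth (lkp [])) l16453 = true ∧
    allY (E.wth (lkp [])) l16454 = true ∧
    allY (E.wth (lkp [])) l16455 = true ∧
    allY (E.wth (lkp [])) l16456 = true ∧
    allY (E.wth (lkp [])) l16457 = true :=
  ⟨by decide +kernel, by decide +kernel, by decide +kernel, by decide +kernel, by decide +kernel, by decide +kernel, by decide +kernel, by decide +kernel⟩

def t16458 : allY (E.wth (lkp [])) l16458 = true ∧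
    allY (E.wth (lkp [])) l16459 = true ∧
    allY (E.wth (lkp [])) l16460 = true ∧
    allY (E.wth (lkp [])) l16461 = true ∧
    allY (E.wth (lkp [])) l16462 = true ∧
    allY (E.wth (lkp [])) l16463 = true ∧
    allY (E.wth (lkp [])) l16464 = true ∧
    allY (E.wth (lkp [])) l16465 = true :=
  ⟨by decide +kernel, by decide +kernel, by decide +kernel, by decide +kernel, by decide +kernel, by decide +kernel, by decide +kernel, by decide +kernel⟩

def t16466 : allY (E.wth (lkp [])) l16466 = true ∧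
    allY (E.wth (lkp [])) l16467 = true ∧
    allY (E.wth (lkp [])) l16468 = true ∧
    allY (E.wth (lkp [])) l16469 = true ∧
    allY (E.wth (lkp [])) l16470 = true ∧
    allY (E.wth (lkp [])) l16471 = true ∧
    allY (E.wth (lkp [])) l16472 = true ∧
    allY (E.wth (lkp [])) l16473 = true :=
  ⟨by decide +kernel, by decide +kernel, by decide +kernel, by decide +kernel, by decide +kernel, by decide +kernel, by decide +kernel, by decide +kernel⟩

def t16474 : allY (E.wth (lkp [])) l16474 = true ∧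
    allY (E.wth (lkp [])) l16475 = true ∧
    allY (E.wth (lkp [])) l16476 = true ∧
    allY (E.wth (lkp [])) l16477 = true ∧
    allY (E.wth (lkp [])) l16478 = true ∧
    allY (E.wth (lkp [])) l16479 = true ∧
    allY (E.wth (lkp [])) l16480 = true ∧
    allY (E.wth (lkp [])) l16481 = true :=
  ⟨by decide +kernel, by decide +kernel, by decide +kernel, by decide +kernel, by decide +kernel, by decide +kernel, by decide +kernel, by decide +kernel⟩

def t16482 : allY (E.wth (lkp [])) l16482 = true ∧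
    allY (E.wth (lkp [])) l16483 = true ∧
    allY (E.wth (lkp [])) l16484 = true ∧
    allY (E.wth (lkp [])) l16485 = true ∧
    allY (E.wth (lkp [])) l16486 = true ∧
    allY (E.wth (lkp [])) l16487 = true ∧
    allY (E.wth (lkp [])) l16488 = true ∧
    allY (E.wth (lkp [])) l16489 = true :=
  ⟨by decide +kernel, by decide +kernel, by decide +kernel, by decide +kernel, by decide +kernel, by decide +kernel, by decide +kernel, by decide +kernel⟩

def t16490 : allY (E.wth (lkp [])) l16490 = true ∧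
    allY (E.wth (lkp [])) l16491 = true ∧
    allY (E.wth (lkp [])) l16492 = true ∧
    allY (E.wth (lkp [])) l16493 = true ∧
    allY (E.wth (lkp [])) l16494 = true ∧
    allY (E.wth (lkp [])) l16495 = true ∧
    allY (E.wth (lkp [])) l16496 = true ∧
    allY (E.wth (lkp [])) l16497 = true :=
  ⟨by decide +kernel, by decide +kernel, by decide +kernel, by decide +kernel, by decide +kernel, by decide +kernel, by decide +kernel, by decide +kernel⟩

def t16498 : allY (E.wth (lkp [])) l16498 = true ∧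
    allY (E.wth (lkp [])) l16499 = true ∧
    allY (E.wth (lkp [])) l16500 = true ∧
    allY (E.wth (lkp [])) l16501 = true ∧
    allY (E.wth (lkp [])) l16502 = true ∧
    allY (E.wth (lkp [])) l16503 = true ∧
    allY (E.wth (lkp [])) l16504 = true ∧
    allY (E.wth (lkp [])) l16505 = true :=
  ⟨by decide +kernel, by decide +kernel, by decide +kernel, by decide +kernel, by decide +kernel, by decide +kernel, by decide +kernel, by decide +kernel⟩

def t16506 : allY (E.wth (lkp [])) l16506 = true ∧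
    allY (E.wth (lkp [])) l16507 = true ∧
    allY (E.wth (lkp [])) l16508 = true ∧
    allY (E.wth (lkp [])) l16509 = true ∧
    allY (E.wth (lkp [])) l16510 = true ∧
    allY (E.wth (lkp [])) l16511 = true ∧
    allY (E.wth (lkp [])) l16512 = true ∧
    allY (E.wth (lkp [])) l16513 = true :=
  ⟨by decide +kernel, by decide +kernel, by decide +kernel, by decide +kernel, by decide +kernel, by decide +kernel, by decide +kernel, by decide +kernel⟩

def t16514 : allY (E.wth (lkp [])) l16514 = true ∧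
    allY (E.wth (lkp [])) l16515 = true ∧
    allY (E.wth (lkp [])) l16516 = true ∧
    allY (E.wth (lkp [])) l16517 = true ∧
    allY (E.wth (lkp [])) l16518 = true ∧
    allY (E.wth (lkp [])) l16519 = true ∧
    allY (E.wth (lkp [])) l16520 = true ∧
    allY (E.wth (lkp [])) l16521 = true :=
  ⟨by decide +kernel, by decide +kernel, by decide +kernel, by decide +kernel, by decide +kernel, by decide +kernel, by decide +kernel, by decide +kernel⟩

def t16522 : allY (E.wth (lkp [])) l16522 = true ∧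
    allY (E.wth (lkp [])) l16523 = true ∧
    allY (E.wth (lkp [])) l16524 = true ∧
    allY (E.wth (lkp [])) l16525 = true ∧
    allY (E.wth (lkp [])) l16526 = true ∧
    allY (E.wth (lkp [])) l16527 = true ∧
    allY (E.wth (lkp [])) l16528 = true ∧
    allY (E.wth (lkp [])) l16529 = true :=
  ⟨by decide +kernel, by decide +kernel, by decide +kernel, by decide +kernel, by decide +kernel, by decide +kernel, by decide +kernel, by decide +kernel⟩

def t16530 : allY (E.wth (lkp [])) l16530 = true ∧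
    allY (E.wth (lkp [])) l16531 = true ∧
    allY (E.wth (lkp [])) l16532 = true ∧
    allY (E.wth (lkp [])) l16533 = true ∧
    allY (E.wth (lkp [])) l16534 = true ∧
    allY (E.wth (lkp [])) l16535 = true ∧
    allY (E.wth (lkp [])) l16536 = true ∧
    allY (E.wth (lkp [])) l16537 = true :=
  ⟨by decide +kernel, by decide +kernel, by decide +kernel, by decide +kernel, by decide +kernel, by decide +kernel, by decide +kernel, by decide +kernel⟩

def t16538 : allY (E.wth (lkp [])) l16538 = true ∧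
    allY (E.wth (lkp [])) l16539 = true ∧
    allY (E.wth (lkp [])) l16540 = true ∧
    allY (E.wth (lkp [])) l16541 = true ∧
    allY (E.wth (lkp [])) l16542 = true ∧
    allY (E.wth (lkp [])) l16543 = true ∧
    allY (E.wth (lkp [])) l16544 = true ∧
    allY (E.wth (lkp [])) l16545 = true :=
  ⟨by decide +kernel, by decide +kernel, by decide +kernel, by decide +kernel, by decide +kernel, by decide +kernel, by decide +kernel, by decide +kernel⟩

def t16546 : allY (E.wth (lkp [])) l16546 = true ∧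
    allY (E.wth (lkp [])) l16547 = true ∧
    allY (E.wth (lkp [])) l16548 = true ∧
    allY (E.wth (lkp [])) l16549 = true ∧
    allY (E.wth (lkp [])) l16550 = true ∧
    allY (E.wth (lkp [])) l16551 = true ∧
    allY (E.wth (lkp [])) l16552 = true ∧
    allY (E.wth (lkp [])) l16553 = true :=
  ⟨by decide +kernel, by decide +kernel, by decide +kernel, by decide +kernel, by decide +kernel, by decide +kernel, by decide +kernel, by decide +kernel⟩

def t16554 : allY (E.wth (lkp [])) l16554 = true ∧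
    allY (E.wth (lkp [])) l16555 = true ∧
    allY (E.wth (lkp [])) l16556 = true ∧
    allY (E.wth (lkp [])) l16557 = true ∧
    allY (E.wth (lkp [])) l16558 = true ∧
    allY (E.wth (lkp [])) l16559 = true ∧
    allY (E.wth (lkp [])) l16560 = true ∧
    allY (E.wth (lkp [])) l16561 = true :=
  ⟨by decide +kernel, by decide +kernel, by decide +kernel, by decide +kernel, by decide +kernel, by decide +kernel, by decide +kernel, by decide +kernel⟩

def t16562 : allY (E.wth (lkp [])) l16562 = true ∧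
    allY (E.wth (lkp [])) l16563 = true ∧
    allY (E.wth (lkp [])) l16564 = true ∧
    allY (E.wth (lkp [])) l16565 = true ∧
    allY (E.wth (lkp [])) l16566 = true ∧
    allY (E.wth (lkp [])) l16567 = true ∧
    allY (E.wth (lkp [])) l16568 = true ∧
    allY (E.wth (lkp [])) l16569 = true :=
  ⟨by decide +kernel, by decide +kernel, by decide +kernel, by decide +kernel, by decide +kernel, by decide +kernel, by decide +kernel, by decide +kernel⟩

def t16570 : allY (E.wth (lkp [])) l16570 = true ∧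
    allY (E.wth (lkp [])) l16571 = true ∧
    allY (E.wth (lkp [])) l16572 = true ∧
    allY (E.wth (lkp [])) l16573 = true ∧
    allY (E.wth (lkp [])) l16574 = true ∧
    allY (E.wth (lkp [])) l16575 = true ∧
    allY (E.wth (lkp [])) l16576 = true ∧
    allY (E.wth (lkp [])) l16577 = true :=
  ⟨by decide +kernel, by decide +kernel, by decide +kernel, by decide +kernel, by decide +kernel, by decide +kernel, by decide +kernel, by decide +kernel⟩

def t16578 : allY (E.wth (lkp [])) l16578 = true ∧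
    allY (E.wth (lkp [])) l16579 = true ∧
    allY (E.wth (lkp [])) l16580 = true ∧
    allY (E.wth (lkp [])) l16581 = true ∧
    allY (E.wth (lkp [])) l16582 = true ∧
    allY (E.wth (lkp [])) l16583 = true ∧
    allY (E.wth (lkp [])) l16584 = true ∧
    allY (E.wth (lkp [])) l16585 = true :=
  ⟨by decide +kernel, by decide +kernel, by decide +kernel, by decide +kernel, by decide +kernel, by decide +kernel, by decide +kernel, by decide +kernel⟩

def t16586 : allY (E.wth (lkp [])) l16586 = true ∧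
    allY (E.wth (lkp [])) l16587 = true ∧
    allY (E.wth (lkp [])) l16588 = true ∧
    allY (E.wth (lkp [])) l16589 = true ∧
    allY (E.wth (lkp [])) l16590 = true ∧
    allY (E.wth (lkp [])) l16591 = true ∧
    allY (E.wth (lkp [])) l16592 = true ∧
    allY (E.wth (lkp [])) l16593 = true :=
  ⟨by decide +kernel, by decide +kernel, by decide +kernel, by decide +kernel, by decide +kernel, by decide +kernel, by decide +kernel, by decide +kernel⟩

def t16594 : allY (E.wth (lkp [])) l16594 = true ∧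
    allY (E.wth (lkp [])) l16595 = true ∧
    allY (E.wth (lkp [])) l16596 = true ∧
    allY (E.wth (lkp [])) l16597 = true ∧
    allY (E.wth (lkp [])) l16598 = true ∧
    allY (E.wth (lkp [])) l16599 = true ∧
    allY (E.wth (lkp [])) l16600 = true ∧
    allY (E.wth (lkp [])) l16601 = true :=
  ⟨by decide +kernel, by decide +kernel, by decide +kernel, by decide +kernel, by decide +kernel, by decide +kernel, by decide +kernel, by decide +kernel⟩

def t16602 : allY (E.wth (lkp [])) l16602 = true ∧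
    allY (E.wth (lkp [])) l16603 = true ∧
    allY (E.wth (lkp [])) l16604 = true ∧
    allY (E.wth (lkp [])) l16605 = true ∧
    allY (E.wth (lkp [])) l16606 = true ∧
    allY (E.wth (lkp [])) l16607 = true ∧
    allY (E.wth (lkp [])) l16608 = true ∧
    allY (E.wth (lkp [])) l16609 = true :=
  ⟨by decide +kernel, by decide +kernel, by decide +kernel, by decide +kernel, by decide +kernel, by decide +kernel, by decide +kernel, by decide +kernel⟩

def t16610 : allY (E.wth (lkp [])) l16610 = true ∧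
    allY (E.wth (lkp [])) l16611 = true ∧
    allY (E.wth (lkp [])) l16612 = true ∧
    allY (E.wth (lkp [])) l16613 = true ∧
    allY (E.wth (lkp [])) l16614 = true ∧
    allY (E.wth (lkp [])) l16615 = true ∧
    allY (E.wth (lkp [])) l16616 = true ∧
    allY (E.wth (lkp [])) l16617 = true :=
  ⟨by decide +kernel, by decide +kernel, by decide +kernel, by decide +kernel, by decide +kernel, by decide +kernel, by decide +kernel, by decide +kernel⟩

def t16618 : allY (E.wth (lkp [])) l16618 = true ∧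
    allY (E.wth (lkp [])) l16619 = true ∧
    allY (E.wth (lkp [])) l16620 = true ∧
    allY (E.wth (lkp [])) l16621 = true ∧
    allY (E.wth (lkp [])) l16622 = true ∧
    allY (E.wth (lkp [])) l16623 = true ∧
    allY (E.wth (lkp [])) l16624 = true ∧
    allY (E.wth (lkp [])) l16625 = true :=
  ⟨by decide +kernel, by decide +kernel, by decide +kernel, by decide +kernel, by decide +kernel, by decide +kernel, by decide +kernel, by decide +kernel⟩

def t16626 : allY (E.wth (lkp [])) l16626 = true ∧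
    allY (E.wth (lkp [])) l16627 = true ∧
    allY (E.wth (lkp [])) l16628 = true ∧
    allY (E.wth (lkp [])) l16629 = true ∧
    allY (E.wth (lkp [])) l16630 = true ∧
    allY (E.wth (lkp [])) l16631 = true ∧
    allY (E.wth (lkp [])) l16632 = true ∧
    allY (E.wth (lkp [])) l16633 = true :=
  ⟨by decide +kernel, by decide +kernel, by decide +kernel, by decide +kernel, by decide +kernel, by decide +kernel, by decide +kernel, by decide +kernel⟩

def t16634 : allY (E.wth (lkp [])) l16634 = true ∧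
    allY (E.wth (lkp [])) l16635 = true ∧
    allY (E.wth (lkp [])) l16636 = true ∧
    allY (E.wth (lkp [])) l16637 = true ∧
    allY (E.wth (lkp [])) l16638 = true ∧
    allY (E.wth (lkp [])) l16639 = true ∧
    allY (E.wth (lkp [])) l16640 = true ∧
    allY (E.wth (lkp [])) l16641 = true :=
  ⟨by decide +kernel, by decide +kernel, by decide +kernel, by decide +kernel, by decide +kernel, by decide +kernel, by decide +kernel, by decide +kernel⟩

def t16642 : allY (E.wth (lkp [])) l16642 = true ∧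
    allY (E.wth (lkp [])) l16643 = true ∧
    allY (E.wth (lkp [])) l16644 = true ∧
    allY (E.wth (lkp [])) l16645 = true ∧
    allY (E.wth (lkp [])) l16646 = true ∧
    allY (E.wth (lkp [])) l16647 = true ∧
    allY (E.wth (lkp [])) l16648 = true ∧
    allY (E.wth (lkp [])) l16649 = true :=
  ⟨by decide +kernel, by decide +kernel, by decide +kernel, by decide +kernel, by decide +kernel, by decide +kernel, by decide +kernel, by decide +kernel⟩

def t16650 : allY (E.wth (lkp [])) l16650 = true ∧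
    allY (E.wth (lkp [])) l16651 = true ∧
    allY (E.wth (lkp [])) l16652 = true ∧
    allY (E.wth (lkp [])) l16653 = true ∧
    allY (E.wth (lkp [])) l16654 = true ∧
    allY (E.wth (lkp [])) l16655 = true ∧
    allY (E.wth (lkp [])) l16656 = true ∧
    allY (E.wth (lkp [])) l16657 = true :=
  ⟨by decide +kernel, by decide +kernel, by decide +kernel, by decide +kernel, by decide +kernel, by decide +kernel, by decide +kernel, by decide +kernel⟩

def t16658 : allY (E.wth (lkp [])) l16658 = true ∧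
    allY (E.wth (lkp [])) l16659 = true ∧
    allY (E.wth (lkp [])) l16660 = true ∧
    allY (E.wth (lkp [])) l16661 = true ∧
    allY (E.wth (lkp [])) l16662 = true ∧
    allY (E.wth (lkp [])) l16663 = true ∧
    allY (E.wth (lkp [])) l16664 = true ∧
    allY (E.wth (lkp [])) l16665 = true :=
  ⟨by decide +kernel, by decide +kernel, by decide +kernel, by decide +kernel, by decide +kernel, by decide +kernel, by decide +kernel, by decide +kernel⟩

def t16666 : allY (E.wth (lkp [])) l16666 = true ∧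
    allY (E.wth (lkp [])) l16667 = true ∧
    allY (E.wth (lkp [])) l16668 = true ∧
    allY (E.wth (lkp [])) l16669 = true ∧
    allY (E.wth (lkp [])) l16670 = true ∧
    allY (E.wth (lkp [])) l16671 = true ∧
    allY (E.wth (lkp [])) l16672 = true ∧
    allY (E.wth (lkp [])) l16673 = true :=
  ⟨by decide +kernel, by decide +kernel, by decide +kernel, by decide +kernel, by decide +kernel, by decide +kernel, by decide +kernel, by decide +kernel⟩

def t16674 : allY (E.wth (lkp [])) l16674 = true ∧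
    allY (E.wth (lkp [])) l16675 = true ∧
    allY (E.wth (lkp [])) l16676 = true ∧
    allY (E.wth (lkp [])) l16677 = true ∧
    allY (E.wth (lkp [])) l16678 = true ∧
    allY (E.wth (lkp [])) l16679 = true ∧
    allY (E.wth (lkp [])) l16680 = true ∧
    allY (E.wth (lkp [])) l16681 = true :=
  ⟨by decide +kernel, by decide +kernel, by decide +kernel, by decide +kernel, by decide +kernel, by decide +kernel, by decide +kernel, by decide +kernel⟩

def t16682 : allY (E.wth (lkp [])) l16682 = true ∧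
    allY (E.wth (lkp [])) l16683 = true ∧
    allY (E.wth (lkp [])) l16684 = true ∧
    allY (E.wth (lkp [])) l16685 = true ∧
    allY (E.wth (lkp [])) l16686 = true ∧
    allY (E.wth (lkp [])) l16687 = true ∧
    allY (E.wth (lkp [])) l16688 = true ∧
    allY (E.wth (lkp [])) l16689 = true :=
  ⟨by decide +kernel, by decide +kernel, by decide +kernel, by decide +kernel, by decide +kernel, by decide +kernel, by decide +kernel, by decide +kernel⟩

def t16690 : allY (E.wth (lkp [])) l16690 = true ∧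
    allY (E.wth (lkp [])) l16691 = true ∧
    allY (E.wth (lkp [])) l16692 = true ∧
    allY (E.wth (lkp [])) l16693 = true ∧
    allY (E.wth (lkp [])) l16694 = true ∧
    allY (E.wth (lkp [])) l16695 = true ∧
    allY (E.wth (lkp [])) l16696 = true ∧
    allY (E.wth (lkp [])) l16697 = true :=
  ⟨by decide +kernel, by decide +kernel, by decide +kernel, by decide +kernel, by decide +kernel, by decide +kernel, by decide +kernel, by decide +kernel⟩

def t16698 : allY (E.wth (lkp [])) l16698 = true ∧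
    allY (E.wth (lkp [])) l16699 = true ∧
    allY (E.wth (lkp [])) l16700 = true ∧
    allY (E.wth (lkp [])) l16701 = true ∧
    allY (E.wth (lkp [])) l16702 = true ∧
    allY (E.wth (lkp [])) l16703 = true ∧
    allY (E.wth (lkp [])) l16704 = true ∧
    allY (E.wth (lkp [])) l16705 = true :=
  ⟨by decide +kernel, by decide +kernel, by decide +kernel, by decide +kernel, by decide +kernel, by decide +kernel, by decide +kernel, by decide +kernel⟩

def t16706 : allY (E.wth (lkp [])) l16706 = true ∧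
    allY (E.wth (lkp [])) l16707 = true ∧
    allY (E.wth (lkp [])) l16708 = true ∧
    allY (E.wth (lkp [])) l16709 = true ∧
    allY (E.wth (lkp [])) l16710 = true ∧
    allY (E.wth (lkp [])) l16711 = true ∧
    allY (E.wth (lkp [])) l16712 = true ∧
    allY (E.wth (lkp [])) l16713 = true :=
  ⟨by decide +kernel, by decide +kernel, by decide +kernel, by decide +kernel, by decide +kernel, by decide +kernel, by decide +kernel, by decide +kernel⟩

def t16714 : allY (E.wth (lkp [])) l16714 = true ∧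
    allY (E.wth (lkp [])) l16715 = true ∧
    allY (E.wth (lkp [])) l16716 = true ∧
    allY (E.wth (lkp [])) l16717 = true ∧
    allY (E.wth (lkp [])) l16718 = true ∧
    allY (E.wth (lkp [])) l16719 = true ∧
    allY (E.wth (lkp [])) l16720 = true ∧
    allY (E.wth (lkp [])) l16721 = true :=
  ⟨by decide +kernel, by decide +kernel, by decide +kernel, by decide +kernel, by decide +kernel, by decide +kernel, by decide +kernel, by decide +kernel⟩

def t16722 : allY (E.wth (lkp [])) l16722 = true ∧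
    allY (E.wth (lkp [])) l16723 = true ∧
    allY (E.wth (lkp [])) l16724 = true ∧
    allY (E.wth (lkp [])) l16725 = true ∧
    allY (E.wth (lkp [])) l16726 = true ∧
    allY (E.wth (lkp [])) l16727 = true ∧
    allY (E.wth (lkp [])) l16728 = true ∧
    allY (E.wth (lkp [])) l16729 = true :=
  ⟨by decide +kernel, by decide +kernel, by decide +kernel, by decide +kernel, by decide +kernel, by decide +kernel, by decide +kernel, by decide +kernel⟩

def t16730 : allY (E.wth (lkp [])) l16730 = true ∧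
    allY (E.wth (lkp [])) l16731 = true ∧
    allY (E.wth (lkp [])) l16732 = true ∧
    allY (E.wth (lkp [])) l16733 = true ∧
    allY (E.wth (lkp [])) l16734 = true ∧
    allY (E.wth (lkp [])) l16735 = true ∧
    allY (E.wth (lkp [])) l16736 = true ∧
    allY (E.wth (lkp [])) l16737 = true :=
  ⟨by decide +kernel, by decide +kernel, by decide +kernel, by decide +kernel, by decide +kernel, by decide +kernel, by decide +kernel, by decide +kernel⟩

def t16738 : allY (E.wth (lkp [])) l16738 = true ∧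
    allY (E.wth (lkp [])) l16739 = true ∧
    allY (E.wth (lkp [])) l16740 = true ∧
    allY (E.wth (lkp [])) l16741 = true ∧
    allY (E.wth (lkp [])) l16742 = true ∧
    allY (E.wth (lkp [])) l16743 = true ∧
    allY (E.wth (lkp [])) l16744 = true ∧
    allY (E.wth (lkp [])) l16745 = true :=
  ⟨by decide +kernel, by decide +kernel, by decide +kernel, by decide +kernel, by decide +kernel, by decide +kernel, by decide +kernel, by decide +kernel⟩

def t16746 : allY (E.wth (lkp [])) l16746 = true ∧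
    allY (E.wth (lkp [])) l16747 = true ∧
    allY (E.wth (lkp [])) l16748 = true ∧
    allY (E.wth (lkp [])) l16749 = true ∧
    allY (E.wth (lkp [])) l16750 = true ∧
    allY (E.wth (lkp [])) l16751 = true ∧
    allY (E.wth (lkp [])) l16752 = true ∧
    allY (E.wth (lkp [])) l16753 = true :=
  ⟨by decide +kernel, by decide +kernel, by decide +kernel, by decide +kernel, by decide +kernel, by decide +kernel, by decide +kernel, by decide +kernel⟩

def t16754 : allY (E.wth (lkp [])) l16754 = true ∧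
    allY (E.wth (lkp [])) l16755 = true ∧
    allY (E.wth (lkp [])) l16756 = true ∧
    allY (E.wth (lkp [])) l16757 = true ∧
    allY (E.wth (lkp [])) l16758 = true ∧
    allY (E.wth (lkp [])) l16759 = true ∧
    allY (E.wth (lkp [])) l16760 = true ∧
    allY (E.wth (lkp [])) l16761 = true :=
  ⟨by decide +kernel, by decide +kernel, by decide +kernel, by decide +kernel, by decide +kernel, by decide +kernel, by decide +kernel, by decide +kernel⟩

def t16762 : allY (E.wth (lkp [])) l16762 = true ∧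
    allY (E.wth (lkp [])) l16763 = true ∧
    allY (E.wth (lkp [])) l16764 = true ∧
    allY (E.wth (lkp [])) l16765 = true ∧
    allY (E.wth (lkp [])) l16766 = true ∧
    allY (E.wth (lkp [])) l16767 = true ∧
    allY (E.wth (lkp [])) l16768 = true ∧
    allY (E.wth (lkp [])) l16769 = true :=
  ⟨by decide +kernel, by decide +kernel, by decide +kernel, by decide +kernel, by decide +kernel, by decide +kernel, by decide +kernel, by decide +kernel⟩

def t16770 : allY (E.wth (lkp [])) l16770 = true ∧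
    allY (E.wth (lkp [])) l16771 = true ∧
    allY (E.wth (lkp [])) l16772 = true ∧
    allY (E.wth (lkp [])) l16773 = true ∧
    allY (E.wth (lkp [])) l16774 = true ∧
    allY (E.wth (lkp [])) l16775 = true ∧
    allY (E.wth (lkp [])) l16776 = true ∧
    allY (E.wth (lkp [])) l16777 = true :=
  ⟨by decide +kernel, by decide +kernel, by decide +kernel, by decide +kernel, by decide +kernel, by decide +kernel, by decide +kernel, by decide +kernel⟩

def t16778 : allY (E.wth (lkp [])) l16778 = true ∧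
    allY (E.wth (lkp [])) l16779 = true ∧
    allY (E.wth (lkp [])) l16780 = true ∧
    allY (E.wth (lkp [])) l16781 = true ∧
    allY (E.wth (lkp [])) l16782 = true ∧
    allY (E.wth (lkp [])) l16783 = true ∧
    allY (E.wth (lkp [])) l16784 = true ∧
    allY (E.wth (lkp [])) l16785 = true :=
  ⟨by decide +kernel, by decide +kernel, by decide +kernel, by decide +kernel, by decide +kernel, by decide +kernel, by decide +kernel, by decide +kernel⟩

def t16786 : allY (E.wth (lkp [])) l16786 = true ∧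
    allY (E.wth (lkp [])) l16787 = true ∧
    allY (E.wth (lkp [])) l16788 = true ∧
    allY (E.wth (lkp [])) l16789 = true ∧
    allY (E.wth (lkp [])) l16790 = true ∧
    allY (E.wth (lkp [])) l16791 = true ∧
    allY (E.wth (lkp [])) l16792 = true ∧
    allY (E.wth (lkp [])) l16793 = true :=
  ⟨by decide +kernel, by decide +kernel, by decide +kernel, by decide +kernel, by decide +kernel, by decide +kernel, by decide +kernel, by decide +kernel⟩

def t16794 : allY (E.wth (lkp [])) l16794 = true ∧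
    allY (E.wth (lkp [])) l16795 = true ∧
    allY (E.wth (lkp [])) l16796 = true ∧
    allY (E.wth (lkp [])) l16797 = true ∧
    allY (E.wth (lkp [])) l16798 = true ∧
    allY (E.wth (lkp [])) l16799 = true ∧
    allY (E.wth (lkp [])) l16800 = true ∧
    allY (E.wth (lkp [])) l16801 = true :=
  ⟨by decide +kernel, by decide +kernel, by decide +kernel, by decide +kernel, by decide +kernel, by decide +kernel, by decide +kernel, by decide +kernel⟩

def t16802 : allY (E.wth (lkp [])) l16802 = true ∧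
    allY (E.wth (lkp [])) l16803 = true ∧
    allY (E.wth (lkp [])) l16804 = true ∧
    allY (E.wth (lkp [])) l16805 = true ∧
    allY (E.wth (lkp [])) l16806 = true ∧
    allY (E.wth (lkp [])) l16807 = true ∧
    allY (E.wth (lkp [])) l16808 = true ∧
    allY (E.wth (lkp [])) l16809 = true :=
  ⟨by decide +kernel, by decide +kernel, by decide +kernel, by decide +kernel, by decide +kernel, by decide +kernel, by decide +kernel, by decide +kernel⟩

def t16810 : allY (E.wth (lkp [])) l16810 = true ∧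
    allY (E.wth (lkp [])) l16811 = true ∧
    allY (E.wth (lkp [])) l16812 = true :=
  ⟨by decide +kernel, by decide +kernel, by decide +kernel⟩

theorem a29 {p : Rf → Prop} (H : ∀ l, allY (E.wth (lkp [])) l = true → (lkp l).All p) :
    b29.All p := ⟨⟨⟨⟨⟨⟨⟨⟨⟨H _ t16258.1, H _ t16258.2.1⟩, ⟨H _ t16258.2.2.1, H _ t16258.2.2.2.1⟩⟩, ⟨⟨H _ t16258.2.2.2.2.1, H _ t16258.2.2.2.2.2.1⟩, ⟨H _ t16258.2.2.2.2.2.2.1, H _ t16258.2.2.2.2.2.2.2⟩⟩⟩, ⟨⟨⟨H _ t16266.1, H _ t16266.2.1⟩, ⟨H _ t16266.2.2.1, H _ t16266.2.2.2.1⟩⟩, ⟨⟨H _ t16266.2.2.2.2.1, H _ t16266.2.2.2.2.2.1⟩, ⟨H _ t16266.2.2.2.2.2.2.1, ⟨H _ t16266.2.2.2.2.2.2.2, H _ t16274.1⟩⟩⟩⟩⟩, ⟨⟨⟨⟨H _ t16274.2.1, H _ t16274.2.2.1⟩, ⟨H _ t16274.2.2.2.1, H _ t16274.2.2.2.2.1⟩⟩, ⟨⟨H _ t16274.2.2.2.2.2.1, H _ t16274.2.2.2.2.2.2.1⟩, ⟨H _ t16274.2.2.2.2.2.2.2, H _ t16282.1⟩⟩⟩, ⟨⟨⟨H _ t16282.2.1, H _ t16282.2.2.1⟩, ⟨H _ t16282.2.2.2.1, H _ t16282.2.2.2.2.1⟩⟩, ⟨⟨H _ t16282.2.2.2.2.2.1,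 H _ t16282.2.2.2.2.2.2.1⟩, ⟨H _ t16282.2.2.2.2.2.2.2, ⟨H _ t16290.1, H _ t16290.2.1⟩⟩⟩⟩⟩⟩, ⟨⟨⟨⟨⟨H _ t16290.2.2.1, H _ t16290.2.2.2.1⟩, ⟨H _ t16290.2.2.2.2.1, H _ t16290.2.2.2.2.2.1⟩⟩, ⟨⟨H _ t16290.2.2.2.2.2.2.1, H _ t16290.2.2.2.2.2.2.2⟩, ⟨H _ t16298.1, H _ t16298.2.1⟩⟩⟩, ⟨⟨⟨H _ t16298.2.2.1, H _ t16298.2.2.2.1⟩, ⟨H _ t16298.2.2.2.2.1, H _ t16298.2.2.2.2.2.1⟩⟩, ⟨⟨H _ t16298.2.2.2.2.2.2.1, H _ t16298.2.2.2.2.2.2.2⟩, ⟨H _ t16306.1, ⟨H _ t16306.2.1, H _ t16306.2.2.1⟩⟩⟩⟩⟩, ⟨⟨⟨⟨H _ t16306.2.2.2.1, H _ t16306.2.2.2.2.1⟩, ⟨H _ t16306.2.2.2.2.2.1, H _ t16306.2.2.2.2.2.2.1⟩⟩, ⟨⟨H _ t16306.2.2.2.2.2.2.2, H _ t16314.1⟩, ⟨H _ t16314.2.1, ⟨H _ t16314.2.2.1, H _ t16314.2.2.2.1⟩⟩⟩⟩, ⟨⟨⟨H _ t16314.2.2.2.2.1, H _ t16314.2.2.2.2.2.1⟩, ⟨H _ t16314.2.2.2.2.2.2.1, H _ t16314.2.2.2.2.2.2.2⟩⟩, ⟨⟨H _ t16322.1, H _ t16322.2.1⟩, ⟨H _ t16322.2.2.1, ⟨H _ t16322.2.2.2.1, H _ t16322.2.2.2.2.1⟩⟩⟩⟩⟩⟩⟩, ⟨⟨⟨⟨⟨⟨H _ t16322.2.2.2.2.2.1,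 H _ t16322.2.2.2.2.2.2.1⟩, ⟨H _ t16322.2.2.2.2.2.2.2, H _ t16330.1⟩⟩, ⟨⟨H _ t16330.2.1, H _ t16330.2.2.1⟩, ⟨H _ t16330.2.2.2.1, H _ t16330.2.2.2.2.1⟩⟩⟩, ⟨⟨⟨H _ t16330.2.2.2.2.2.1, H _ t16330.2.2.2.2.2.2.1⟩, ⟨H _ t16330.2.2.2.2.2.2.2, H _ t16338.1⟩⟩, ⟨⟨H _ t16338.2.1, H _ t16338.2.2.1⟩, ⟨H _ t16338.2.2.2.1, ⟨H _ t16338.2.2.2.2.1, H _ t16338.2.2.2.2.2.1⟩⟩⟩⟩⟩, ⟨⟨⟨⟨H _ t16338.2.2.2.2.2.2.1, H _ t16338.2.2.2.2.2.2.2⟩, ⟨H _ t16346.1, H _ t16346.2.1⟩⟩, ⟨⟨H _ t16346.2.2.1, H _ t16346.2.2.2.1⟩, ⟨H _ t16346.2.2.2.2.1, H _ t16346.2.2.2.2.2.1⟩⟩⟩, ⟨⟨⟨H _ t16346.2.2.2.2.2.2.1, H _ t16346.2.2.2.2.2.2.2⟩, ⟨H _ t16354.1, H _ t16354.2.1⟩⟩, ⟨⟨H _ t16354.2.2.1, H _ t16354.2.2.2.1⟩, ⟨H _ t16354.2.2.2.2.1, ⟨H _ t16354.2.2.2.2.2.1, H _ t16354.2.2.2.2.2.2.1⟩⟩⟩⟩⟩⟩, ⟨⟨⟨⟨⟨H _ t16354.2.2.2.2.2.2.2, H _ t16362.1⟩, ⟨H _ t16362.2.1, H _ t16362.2.2.1⟩⟩, ⟨⟨H _ t16362.2.2.2.1, H _ t16362.2.2.2.2.1⟩, ⟨H _ t16362.2.2.2.2.2.1, H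 _ t16362.2.2.2.2.2.2.1⟩⟩⟩, ⟨⟨⟨H _ t16362.2.2.2.2.2.2.2, H _ t16370.1⟩, ⟨H _ t16370.2.1, H _ t16370.2.2.1⟩⟩, ⟨⟨H _ t16370.2.2.2.1, H _ t16370.2.2.2.2.1⟩, ⟨H _ t16370.2.2.2.2.2.1, ⟨H _ t16370.2.2.2.2.2.2.1, H _ t16370.2.2.2.2.2.2.2⟩⟩⟩⟩⟩, ⟨⟨⟨⟨H _ t16378.1, H _ t16378.2.1⟩, ⟨H _ t16378.2.2.1, H _ t16378.2.2.2.1⟩⟩, ⟨⟨H _ t16378.2.2.2.2.1, H _ t16378.2.2.2.2.2.1⟩, ⟨H _ t16378.2.2.2.2.2.2.1, ⟨H _ t16378.2.2.2.2.2.2.2, H _ t16386.1⟩⟩⟩⟩, ⟨⟨⟨H _ t16386.2.1, H _ t16386.2.2.1⟩, ⟨H _ t16386.2.2.2.1, H _ t16386.2.2.2.2.1⟩⟩, ⟨⟨H _ t16386.2.2.2.2.2.1, H _ t16386.2.2.2.2.2.2.1⟩, ⟨H _ t16386.2.2.2.2.2.2.2, ⟨H _ t16394.1, H _ t16394.2.1⟩⟩⟩⟩⟩⟩⟩⟩, ⟨⟨⟨⟨⟨⟨⟨H _ t16394.2.2.1, H _ t16394.2.2.2.1⟩, ⟨H _ t16394.2.2.2.2.1, H _ t16394.2.2.2.2.2.1⟩⟩, ⟨⟨H _ t16394.2.2.2.2.2.2.1, H _ t16394.2.2.2.2.2.2.2⟩, ⟨H _ t16402.1, H _ t16402.2.1⟩⟩⟩, ⟨⟨⟨H _ t16402.2.2.1, H _ t16402.2.2.2.1⟩, ⟨H _ t16402.2.2.2.2.1, H _ t16402.2.2.2.2.2.1⟩⟩,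 ⟨⟨H _ t16402.2.2.2.2.2.2.1, H _ t16402.2.2.2.2.2.2.2⟩, ⟨H _ t16410.1, ⟨H _ t16410.2.1, H _ t16410.2.2.1⟩⟩⟩⟩⟩, ⟨⟨⟨⟨H _ t16410.2.2.2.1, H _ t16410.2.2.2.2.1⟩, ⟨H _ t16410.2.2.2.2.2.1, H _ t16410.2.2.2.2.2.2.1⟩⟩, ⟨⟨H _ t16410.2.2.2.2.2.2.2, H _ t16418.1⟩, ⟨H _ t16418.2.1, H _ t16418.2.2.1⟩⟩⟩, ⟨⟨⟨H _ t16418.2.2.2.1, H _ t16418.2.2.2.2.1⟩, ⟨H _ t16418.2.2.2.2.2.1, H _ t16418.2.2.2.2.2.2.1⟩⟩, ⟨⟨H _ t16418.2.2.2.2.2.2.2, H _ t16426.1⟩, ⟨H _ t16426.2.1, ⟨H _ t16426.2.2.1, H _ t16426.2.2.2.1⟩⟩⟩⟩⟩⟩, ⟨⟨⟨⟨⟨H _ t16426.2.2.2.2.1, H _ t16426.2.2.2.2.2.1⟩, ⟨H _ t16426.2.2.2.2.2.2.1, H _ t16426.2.2.2.2.2.2.2⟩⟩, ⟨⟨H _ t16434.1, H _ t16434.2.1⟩, ⟨H _ t16434.2.2.1, H _ t16434.2.2.2.1⟩⟩⟩, ⟨⟨⟨H _ t16434.2.2.2.2.1, H _ t16434.2.2.2.2.2.1⟩, ⟨H _ t16434.2.2.2.2.2.2.1, H _ t16434.2.2.2.2.2.2.2⟩⟩, ⟨⟨H _ t16442.1, H _ t16442.2.1⟩, ⟨H _ t16442.2.2.1, ⟨H _ t16442.2.2.2.1, H _ t16442.2.2.2.2.1⟩⟩⟩⟩⟩, ⟨⟨⟨⟨H _ t16442.2.2.2.2.2.1,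 H _ t16442.2.2.2.2.2.2.1⟩, ⟨H _ t16442.2.2.2.2.2.2.2, H _ t16450.1⟩⟩, ⟨⟨H _ t16450.2.1, H _ t16450.2.2.1⟩, ⟨H _ t16450.2.2.2.1, ⟨H _ t16450.2.2.2.2.1, H _ t16450.2.2.2.2.2.1⟩⟩⟩⟩, ⟨⟨⟨H _ t16450.2.2.2.2.2.2.1, H _ t16450.2.2.2.2.2.2.2⟩, ⟨H _ t16458.1, H _ t16458.2.1⟩⟩, ⟨⟨H _ t16458.2.2.1, H _ t16458.2.2.2.1⟩, ⟨H _ t16458.2.2.2.2.1, ⟨H _ t16458.2.2.2.2.2.1, H _ t16458.2.2.2.2.2.2.1⟩⟩⟩⟩⟩⟩⟩, ⟨⟨⟨⟨⟨⟨H _ t16458.2.2.2.2.2.2.2, H _ t16466.1⟩, ⟨H _ t16466.2.1, H _ t16466.2.2.1⟩⟩, ⟨⟨H _ t16466.2.2.2.1, H _ t16466.2.2.2.2.1⟩, ⟨H _ t16466.2.2.2.2.2.1, H _ t16466.2.2.2.2.2.2.1⟩⟩⟩, ⟨⟨⟨H _ t16466.2.2.2.2.2.2.2, H _ t16474.1⟩, ⟨H _ t16474.2.1, H _ t16474.2.2.1⟩⟩, ⟨⟨H _ t16474.2.2.2.1, H _ t16474.2.2.2.2.1⟩, ⟨H _ t16474.2.2.2.2.2.1, ⟨H _ t16474.2.2.2.2.2.2.1, H _ t16474.2.2.2.2.2.2.2⟩⟩⟩⟩⟩, ⟨⟨⟨⟨H _ t16482.1, H _ t16482.2.1⟩, ⟨H _ t16482.2.2.1, H _ t16482.2.2.2.1⟩⟩, ⟨⟨H _ t16482.2.2.2.2.1, H _ t16482.2.2.2.2.2.1⟩,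 ⟨H _ t16482.2.2.2.2.2.2.1, ⟨H _ t16482.2.2.2.2.2.2.2, H _ t16490.1⟩⟩⟩⟩, ⟨⟨⟨H _ t16490.2.1, H _ t16490.2.2.1⟩, ⟨H _ t16490.2.2.2.1, H _ t16490.2.2.2.2.1⟩⟩, ⟨⟨H _ t16490.2.2.2.2.2.1, H _ t16490.2.2.2.2.2.2.1⟩, ⟨H _ t16490.2.2.2.2.2.2.2, ⟨H _ t16498.1, H _ t16498.2.1⟩⟩⟩⟩⟩⟩, ⟨⟨⟨⟨⟨H _ t16498.2.2.1, H _ t16498.2.2.2.1⟩, ⟨H _ t16498.2.2.2.2.1, H _ t16498.2.2.2.2.2.1⟩⟩, ⟨⟨H _ t16498.2.2.2.2.2.2.1, H _ t16498.2.2.2.2.2.2.2⟩, ⟨H _ t16506.1, H _ t16506.2.1⟩⟩⟩, ⟨⟨⟨H _ t16506.2.2.1, H _ t16506.2.2.2.1⟩, ⟨H _ t16506.2.2.2.2.1, H _ t16506.2.2.2.2.2.1⟩⟩, ⟨⟨H _ t16506.2.2.2.2.2.2.1, H _ t16506.2.2.2.2.2.2.2⟩, ⟨H _ t16514.1, ⟨H _ t16514.2.1, H _ t16514.2.2.1⟩⟩⟩⟩⟩, ⟨⟨⟨⟨H _ t16514.2.2.2.1, H _ t16514.2.2.2.2.1⟩, ⟨H _ t16514.2.2.2.2.2.1, H _ t16514.2.2.2.2.2.2.1⟩⟩, ⟨⟨H _ t16514.2.2.2.2.2.2.2, H _ t16522.1⟩, ⟨H _ t16522.2.1, ⟨H _ t16522.2.2.1, H _ t16522.2.2.2.1⟩⟩⟩⟩, ⟨⟨⟨H _ t16522.2.2.2.2.1, H _ t16522.2.2.2.2.2.1⟩,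 ⟨H _ t16522.2.2.2.2.2.2.1, H _ t16522.2.2.2.2.2.2.2⟩⟩, ⟨⟨H _ t16530.1, H _ t16530.2.1⟩, ⟨H _ t16530.2.2.1, ⟨H _ t16530.2.2.2.1, H _ t16530.2.2.2.2.1⟩⟩⟩⟩⟩⟩⟩⟩⟩, ⟨⟨⟨⟨⟨⟨⟨⟨H _ t16530.2.2.2.2.2.1, H _ t16530.2.2.2.2.2.2.1⟩, ⟨H _ t16530.2.2.2.2.2.2.2, H _ t16538.1⟩⟩, ⟨⟨H _ t16538.2.1, H _ t16538.2.2.1⟩, ⟨H _ t16538.2.2.2.1, H _ t16538.2.2.2.2.1⟩⟩⟩, ⟨⟨⟨H _ t16538.2.2.2.2.2.1, H _ t16538.2.2.2.2.2.2.1⟩, ⟨H _ t16538.2.2.2.2.2.2.2, H _ t16546.1⟩⟩, ⟨⟨H _ t16546.2.1, H _ t16546.2.2.1⟩, ⟨H _ t16546.2.2.2.1, ⟨H _ t16546.2.2.2.2.1, H _ t16546.2.2.2.2.2.1⟩⟩⟩⟩⟩, ⟨⟨⟨⟨H _ t16546.2.2.2.2.2.2.1, H _ t16546.2.2.2.2.2.2.2⟩, ⟨H _ t16554.1, H _ t16554.2.1⟩⟩, ⟨⟨H _ t16554.2.2.1, H _ t16554.2.2.2.1⟩, ⟨H _ t16554.2.2.2.2.1, H _ t16554.2.2.2.2.2.1⟩⟩⟩, ⟨⟨⟨H _ t16554.2.2.2.2.2.2.1, H _ t16554.2.2.2.2.2.2.2⟩, ⟨H _ t16562.1, H _ t16562.2.1⟩⟩, ⟨⟨H _ t16562.2.2.1, H _ t16562.2.2.2.1⟩, ⟨H _ t16562.2.2.2.2.1, ⟨H _ t16562.2.2.2.2.2.1,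 H _ t16562.2.2.2.2.2.2.1⟩⟩⟩⟩⟩⟩, ⟨⟨⟨⟨⟨H _ t16562.2.2.2.2.2.2.2, H _ t16570.1⟩, ⟨H _ t16570.2.1, H _ t16570.2.2.1⟩⟩, ⟨⟨H _ t16570.2.2.2.1, H _ t16570.2.2.2.2.1⟩, ⟨H _ t16570.2.2.2.2.2.1, H _ t16570.2.2.2.2.2.2.1⟩⟩⟩, ⟨⟨⟨H _ t16570.2.2.2.2.2.2.2, H _ t16578.1⟩, ⟨H _ t16578.2.1, H _ t16578.2.2.1⟩⟩, ⟨⟨H _ t16578.2.2.2.1, H _ t16578.2.2.2.2.1⟩, ⟨H _ t16578.2.2.2.2.2.1, ⟨H _ t16578.2.2.2.2.2.2.1, H _ t16578.2.2.2.2.2.2.2⟩⟩⟩⟩⟩, ⟨⟨⟨⟨H _ t16586.1, H _ t16586.2.1⟩, ⟨H _ t16586.2.2.1, H _ t16586.2.2.2.1⟩⟩, ⟨⟨H _ t16586.2.2.2.2.1, H _ t16586.2.2.2.2.2.1⟩, ⟨H _ t16586.2.2.2.2.2.2.1, ⟨H _ t16586.2.2.2.2.2.2.2, H _ t16594.1⟩⟩⟩⟩, ⟨⟨⟨H _ t16594.2.1, H _ t16594.2.2.1⟩, ⟨H _ t16594.2.2.2.1, H _ t16594.2.2.2.2.1⟩⟩, ⟨⟨H _ t16594.2.2.2.2.2.1, H _ t16594.2.2.2.2.2.2.1⟩, ⟨H _ t16594.2.2.2.2.2.2.2, ⟨H _ t16602.1, H _ t16602.2.1⟩⟩⟩⟩⟩⟩⟩, ⟨⟨⟨⟨⟨⟨H _ t16602.2.2.1, H _ t16602.2.2.2.1⟩, ⟨H _ t16602.2.2.2.2.1, H _ t16602.2.2.2.2.2.1⟩⟩,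 ⟨⟨H _ t16602.2.2.2.2.2.2.1, H _ t16602.2.2.2.2.2.2.2⟩, ⟨H _ t16610.1, H _ t16610.2.1⟩⟩⟩, ⟨⟨⟨H _ t16610.2.2.1, H _ t16610.2.2.2.1⟩, ⟨H _ t16610.2.2.2.2.1, H _ t16610.2.2.2.2.2.1⟩⟩, ⟨⟨H _ t16610.2.2.2.2.2.2.1, H _ t16610.2.2.2.2.2.2.2⟩, ⟨H _ t16618.1, ⟨H _ t16618.2.1, H _ t16618.2.2.1⟩⟩⟩⟩⟩, ⟨⟨⟨⟨H _ t16618.2.2.2.1, H _ t16618.2.2.2.2.1⟩, ⟨H _ t16618.2.2.2.2.2.1, H _ t16618.2.2.2.2.2.2.1⟩⟩, ⟨⟨H _ t16618.2.2.2.2.2.2.2, H _ t16626.1⟩, ⟨H _ t16626.2.1, ⟨H _ t16626.2.2.1, H _ t16626.2.2.2.1⟩⟩⟩⟩, ⟨⟨⟨H _ t16626.2.2.2.2.1, H _ t16626.2.2.2.2.2.1⟩, ⟨H _ t16626.2.2.2.2.2.2.1, H _ t16626.2.2.2.2.2.2.2⟩⟩, ⟨⟨H _ t16634.1, H _ t16634.2.1⟩, ⟨H _ t16634.2.2.1, ⟨H _ t16634.2.2.2.1, H _ t16634.2.2.2.2.1⟩⟩⟩⟩⟩⟩, ⟨⟨⟨⟨⟨H _ t16634.2.2.2.2.2.1, H _ t16634.2.2.2.2.2.2.1⟩, ⟨H _ t16634.2.2.2.2.2.2.2, H _ t16642.1⟩⟩, ⟨⟨H _ t16642.2.1, H _ t16642.2.2.1⟩, ⟨H _ t16642.2.2.2.1, H _ t16642.2.2.2.2.1⟩⟩⟩, ⟨⟨⟨H _ t16642.2.2.2.2.2.1,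 H _ t16642.2.2.2.2.2.2.1⟩, ⟨H _ t16642.2.2.2.2.2.2.2, H _ t16650.1⟩⟩, ⟨⟨H _ t16650.2.1, H _ t16650.2.2.1⟩, ⟨H _ t16650.2.2.2.1, ⟨H _ t16650.2.2.2.2.1, H _ t16650.2.2.2.2.2.1⟩⟩⟩⟩⟩, ⟨⟨⟨⟨H _ t16650.2.2.2.2.2.2.1, H _ t16650.2.2.2.2.2.2.2⟩, ⟨H _ t16658.1, H _ t16658.2.1⟩⟩, ⟨⟨H _ t16658.2.2.1, H _ t16658.2.2.2.1⟩, ⟨H _ t16658.2.2.2.2.1, ⟨H _ t16658.2.2.2.2.2.1, H _ t16658.2.2.2.2.2.2.1⟩⟩⟩⟩, ⟨⟨⟨H _ t16658.2.2.2.2.2.2.2, H _ t16666.1⟩, ⟨H _ t16666.2.1, H _ t16666.2.2.1⟩⟩, ⟨⟨H _ t16666.2.2.2.1, H _ t16666.2.2.2.2.1⟩, ⟨H _ t16666.2.2.2.2.2.1, ⟨H _ t16666.2.2.2.2.2.2.1, H _ t16666.2.2.2.2.2.2.2⟩⟩⟩⟩⟩⟩⟩⟩, ⟨⟨⟨⟨⟨⟨⟨H _ t16674.1, H _ t16674.2.1⟩, ⟨H _ t16674.2.2.1, H _ t16674.2.2.2.1⟩⟩, ⟨⟨H _ t16674.2.2.2.2.1, H _ t16674.2.2.2.2.2.1⟩, ⟨H _ t16674.2.2.2.2.2.2.1, H _ t16674.2.2.2.2.2.2.2⟩⟩⟩, ⟨⟨⟨H _ t16682.1, H _ t16682.2.1⟩, ⟨H _ t16682.2.2.1, H _ t16682.2.2.2.1⟩⟩, ⟨⟨H _ t16682.2.2.2.2.1, H _ t16682.2.2.2.2.2.1⟩,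 ⟨H _ t16682.2.2.2.2.2.2.1, ⟨H _ t16682.2.2.2.2.2.2.2, H _ t16690.1⟩⟩⟩⟩⟩, ⟨⟨⟨⟨H _ t16690.2.1, H _ t16690.2.2.1⟩, ⟨H _ t16690.2.2.2.1, H _ t16690.2.2.2.2.1⟩⟩, ⟨⟨H _ t16690.2.2.2.2.2.1, H _ t16690.2.2.2.2.2.2.1⟩, ⟨H _ t16690.2.2.2.2.2.2.2, H _ t16698.1⟩⟩⟩, ⟨⟨⟨H _ t16698.2.1, H _ t16698.2.2.1⟩, ⟨H _ t16698.2.2.2.1, H _ t16698.2.2.2.2.1⟩⟩, ⟨⟨H _ t16698.2.2.2.2.2.1, H _ t16698.2.2.2.2.2.2.1⟩, ⟨H _ t16698.2.2.2.2.2.2.2, ⟨H _ t16706.1, H _ t16706.2.1⟩⟩⟩⟩⟩⟩, ⟨⟨⟨⟨⟨H _ t16706.2.2.1, H _ t16706.2.2.2.1⟩, ⟨H _ t16706.2.2.2.2.1, H _ t16706.2.2.2.2.2.1⟩⟩, ⟨⟨H _ t16706.2.2.2.2.2.2.1, H _ t16706.2.2.2.2.2.2.2⟩, ⟨H _ t16714.1, H _ t16714.2.1⟩⟩⟩, ⟨⟨⟨H _ t16714.2.2.1, H _ t16714.2.2.2.1⟩, ⟨H _ t16714.2.2.2.2.1, H _ t16714.2.2.2.2.2.1⟩⟩, ⟨⟨H _ t16714.2.2.2.2.2.2.1, H _ t16714.2.2.2.2.2.2.2⟩, ⟨H _ t16722.1, ⟨H _ t16722.2.1, H _ t16722.2.2.1⟩⟩⟩⟩⟩, ⟨⟨⟨⟨H _ t16722.2.2.2.1, H _ t16722.2.2.2.2.1⟩, ⟨H _ t16722.2.2.2.2.2.1,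 H _ t16722.2.2.2.2.2.2.1⟩⟩, ⟨⟨H _ t16722.2.2.2.2.2.2.2, H _ t16730.1⟩, ⟨H _ t16730.2.1, ⟨H _ t16730.2.2.1, H _ t16730.2.2.2.1⟩⟩⟩⟩, ⟨⟨⟨H _ t16730.2.2.2.2.1, H _ t16730.2.2.2.2.2.1⟩, ⟨H _ t16730.2.2.2.2.2.2.1, H _ t16730.2.2.2.2.2.2.2⟩⟩, ⟨⟨H _ t16738.1, H _ t16738.2.1⟩, ⟨H _ t16738.2.2.1, ⟨H _ t16738.2.2.2.1, H _ t16738.2.2.2.2.1⟩⟩⟩⟩⟩⟩⟩, ⟨⟨⟨⟨⟨⟨H _ t16738.2.2.2.2.2.1, H _ t16738.2.2.2.2.2.2.1⟩, ⟨H _ t16738.2.2.2.2.2.2.2, H _ t16746.1⟩⟩, ⟨⟨H _ t16746.2.1, H _ t16746.2.2.1⟩, ⟨H _ t16746.2.2.2.1, H _ t16746.2.2.2.2.1⟩⟩⟩, ⟨⟨⟨H _ t16746.2.2.2.2.2.1, H _ t16746.2.2.2.2.2.2.1⟩, ⟨H _ t16746.2.2.2.2.2.2.2, H _ t16754.1⟩⟩, ⟨⟨H _ t16754.2.1, H _ t16754.2.2.1⟩, ⟨H _ t16754.2.2.2.1, ⟨H _ t16754.2.2.2.2.1, H _ t16754.2.2.2.2.2.1⟩⟩⟩⟩⟩, ⟨⟨⟨⟨H _ t16754.2.2.2.2.2.2.1, H _ t16754.2.2.2.2.2.2.2⟩, ⟨H _ t16762.1, H _ t16762.2.1⟩⟩, ⟨⟨H _ t16762.2.2.1, H _ t16762.2.2.2.1⟩, ⟨H _ t16762.2.2.2.2.1, ⟨H _ t16762.2.2.2.2.2.1,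 H _ t16762.2.2.2.2.2.2.1⟩⟩⟩⟩, ⟨⟨⟨H _ t16762.2.2.2.2.2.2.2, H _ t16770.1⟩, ⟨H _ t16770.2.1, H _ t16770.2.2.1⟩⟩, ⟨⟨H _ t16770.2.2.2.1, H _ t16770.2.2.2.2.1⟩, ⟨H _ t16770.2.2.2.2.2.1, ⟨H _ t16770.2.2.2.2.2.2.1, H _ t16770.2.2.2.2.2.2.2⟩⟩⟩⟩⟩⟩, ⟨⟨⟨⟨⟨H _ t16778.1, H _ t16778.2.1⟩, ⟨H _ t16778.2.2.1, H _ t16778.2.2.2.1⟩⟩, ⟨⟨H _ t16778.2.2.2.2.1, H _ t16778.2.2.2.2.2.1⟩, ⟨H _ t16778.2.2.2.2.2.2.1, H _ t16778.2.2.2.2.2.2.2⟩⟩⟩, ⟨⟨⟨H _ t16786.1, H _ t16786.2.1⟩, ⟨H _ t16786.2.2.1, H _ t16786.2.2.2.1⟩⟩, ⟨⟨H _ t16786.2.2.2.2.1, H _ t16786.2.2.2.2.2.1⟩, ⟨H _ t16786.2.2.2.2.2.2.1, ⟨H _ t16786.2.2.2.2.2.2.2, H _ t16794.1⟩⟩⟩⟩⟩, ⟨⟨⟨⟨H _ t16794.2.1, H _ t16794.2.2.1⟩, ⟨H _ t16794.2.2.2.1, H _ t16794.2.2.2.2.1⟩⟩, ⟨⟨H _ t16794.2.2.2.2.2.1, H _ t16794.2.2.2.2.2.2.1⟩, ⟨H _ t16794.2.2.2.2.2.2.2, ⟨H _ t16802.1, H _ t16802.2.1⟩⟩⟩⟩, ⟨⟨⟨H _ t16802.2.2.1, H _ t16802.2.2.2.1⟩, ⟨H _ t16802.2.2.2.2.1, H _ t16802.2.2.2.2.2.1⟩⟩,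 ⟨⟨H _ t16802.2.2.2.2.2.2.1, H _ t16802.2.2.2.2.2.2.2⟩, ⟨H _ t16810.1, ⟨H _ t16810.2.1, H _ t16810.2.2⟩⟩⟩⟩⟩⟩⟩⟩⟩⟩

end Pool.Agent.MP_c853c5_nt.X.C4950
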