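import Pool.Agent.MP_c853c5_nt.X.C4950.Env
import Pool.Agent.MP_c853c5_nt.X.C4950.D0

set_option autoImplicit false
set_option maxRecDepth 8192
set_option linter.all false

namespace Pool.Agent.MP_c853c5_nt.X.C4950

open Pool.Agent.MP_c853c5_nt.X

def t1615 : allY (E.wth (lkp [])) l1615 = true ∧
    allY (E.wth (lkp [])) l1616 = true ∧
    allY (E.wth (lkp [])) l1617 = true ∧
    allY (E.wth (lkp [])) l1618 = true ∧
    allY (E.wth (lkp [])) l1619 = true ∧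
    allY (E.wth (lkp [])) l1620 = true ∧
    allY (E.wth (lkp [])) l1621 = true ∧
    allY (E.wth (lkp [])) l1622 = true :=
  ⟨by decide +kernel, by decide +kernel, by decide +kernel, by decide +kernel, by decide +kernel, by decide +kernel, by decide +kernel, by decide +kernel⟩

def t1623 : allY (E.wth (lkp [])) l1623 = true ∧
    allY (E.wth (lkp [])) l1624 = true ∧
    allY (E.wth (lkp [])) l1625 = true ∧
    allY (E.wth (lkp [])) l1626 = true ∧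
    allY (E.wth (lkp [])) l1627 = true ∧
    allY (E.wth (lkp [])) l1628 = true ∧
    allY (E.wth (lkp [])) l1629 = true ∧
    allY (E.wth (lkp [])) l1630 = true :=
  ⟨by decide +kernel, by decide +kernel, by decide +kernel, by decide +kernel, by decide +kernel, by decide +kernel, by decide +kernel, by decide +kernel⟩

def t1631 : allY (E.wth (lkp [])) l1631 = true ∧
    allY (E.wth (lkp [])) l1632 = true ∧
    allY (E.wth (lkp [])) l1633 = true ∧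
    allY (E.wth (lkp [])) l1634 = true ∧
    allY (E.wth (lkp [])) l1635 = true ∧
    allY (E.wth (lkp [])) l1636 = true ∧
    allY (E.wth (lkp [])) l1637 = true ∧
    allY (E.wth (lkp [])) l1638 = true :=
  ⟨by decide +kernel, by decide +kernel, by decide +kernel, by decide +kernel, by decide +kernel, by decide +kernel, by decide +kernel, by decide +kernel⟩

def t1639 : allY (E.wth (lkp [])) l1639 = true ∧
    allY (E.wth (lkp [])) l1640 = true ∧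
    allY (E.wth (lkp [])) l1641 = true ∧
    allY (E.wth (lkp [])) l1642 = true ∧
    allY (E.wth (lkp [])) l1643 = true ∧
    allY (E.wth (lkp [])) l1644 = true ∧
    allY (E.wth (lkp [])) l1645 = true ∧
    allY (E.wth (lkp [])) l1646 = true :=
  ⟨by decide +kernel, by decide +kernel, by decide +kernel, by decide +kernel, by decide +kernel, by decide +kernel, by decide +kernel, by decide +kernel⟩

def t1647 : allY (E.wth (lkp [])) l1647 = true ∧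
    allY (E.wth (lkp [])) l1648 = true ∧
    allY (E.wth (lkp [])) l1649 = true ∧
    allY (E.wth (lkp [])) l1650 = true ∧
    allY (E.wth (lkp [])) l1651 = true ∧
    allY (E.wth (lkp [])) l1652 = true ∧
    allY (E.wth (lkp [])) l1653 = true ∧
    allY (E.wth (lkp [])) l1654 = true :=
  ⟨by decide +kernel, by decide +kernel, by decide +kernel, by decide +kernel, by decide +kernel, by decide +kernel, by decide +kernel, by decide +kernel⟩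

def t1655 : allY (E.wth (lkp [])) l1655 = true ∧
    allY (E.wth (lkp [])) l1656 = true ∧
    allY (E.wth (lkp [])) l1657 = true ∧
    allY (E.wth (lkp [])) l1658 = true ∧
    allY (E.wth (lkp [])) l1659 = true ∧
    allY (E.wth (lkp [])) l1660 = true ∧
    allY (E.wth (lkp [])) l1661 = true ∧
    allY (E.wth (lkp [])) l1662 = true :=
  ⟨by decide +kernel, by decide +kernel, by decide +kernel, by decide +kernel, by decide +kernel, by decide +kernel, by decide +kernel, by decide +kernel⟩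

def t1663 : allY (E.wth (lkp [])) l1663 = true ∧
    allY (E.wth (lkp [])) l1664 = true ∧
    allY (E.wth (lkp [])) l1665 = true ∧
    allY (E.wth (lkp [])) l1666 = true ∧
    allY (E.wth (lkp [])) l1667 = true ∧
    allY (E.wth (lkp [])) l1668 = true ∧
    allY (E.wth (lkp [])) l1669 = true ∧
    allY (E.wth (lkp [])) l1670 = true :=
  ⟨by decide +kernel, by decide +kernel, by decide +kernel, by decide +kernel, by decide +kernel, by decide +kernel, by decide +kernel, by decide +kernel⟩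

def t1671 : allY (E.wth (lkp [])) l1671 = true ∧
    allY (E.wth (lkp [])) l1672 = true ∧
    allY (E.wth (lkp [])) l1673 = true ∧
    allY (E.wth (lkp [])) l1674 = true ∧
    allY (E.wth (lkp [])) l1675 = true ∧
    allY (E.wth (lkp [])) l1676 = true ∧
    allY (E.wth (lkp [])) l1677 = true ∧
    allY (E.wth (lkp [])) l1678 = true :=
  ⟨by decide +kernel, by decide +kernel, by decide +kernel, by decide +kernel, by decide +kernel, by decide +kernel, by decide +kernel, by decide +kernel⟩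

def t1679 : allY (E.wth (lkp [])) l1679 = true ∧
    allY (E.wth (lkp [])) l1680 = true ∧
    allY (E.wth (lkp [])) l1681 = true ∧
    allY (E.wth (lkp [])) l1682 = true ∧
    allY (E.wth (lkp [])) l1683 = true ∧
    allY (E.wth (lkp [])) l1684 = true ∧
    allY (E.wth (lkp [])) l1685 = true ∧
    allY (E.wth (lkp [])) l1686 = true :=
  ⟨by decide +kernel, by decide +kernel, by decide +kernel, by decide +kernel, by decide +kernel, by decide +kernel, by decide +kernel, by decide +kernel⟩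

def t1687 : allY (E.wth (lkp [])) l1687 = true ∧
    allY (E.wth (lkp [])) l1688 = true ∧
    allY (E.wth (lkp [])) l1689 = true ∧
    allY (E.wth (lkp [])) l1690 = true ∧
    allY (E.wth (lkp [])) l1691 = true ∧
    allY (E.wth (lkp [])) l1692 = true ∧
    allY (E.wth (lkp [])) l1693 = true ∧
    allY (E.wth (lkp [])) l1694 = true :=
  ⟨by decide +kernel, by decide +kernel, by decide +kernel, by decide +kernel, by decide +kernel, by decide +kernel, by decide +kernel, by decide +kernel⟩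

def t1695 : allY (E.wth (lkp [])) l1695 = true ∧
    allY (E.wth (lkp [])) l1696 = true ∧
    allY (E.wth (lkp [])) l1697 = true ∧
    allY (E.wth (lkp [])) l1698 = true ∧
    allY (E.wth (lkp [])) l1699 = true ∧
    allY (E.wth (lkp [])) l1700 = true ∧
    allY (E.wth (lkp [])) l1701 = true ∧
    allY (E.wth (lkp [])) l1702 = true :=
  ⟨by decide +kernel, by decide +kernel, by decide +kernel, by decide +kernel, by decide +kernel, by decide +kernel, by decide +kernel, by decide +kernel⟩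

def t1703 : allY (E.wth (lkp [])) l1703 = true ∧
    allY (E.wth (lkp [])) l1704 = true ∧
    allY (E.wth (lkp [])) l1705 = true ∧
    allY (E.wth (lkp [])) l1706 = true ∧
    allY (E.wth (lkp [])) l1707 = true ∧
    allY (E.wth (lkp [])) l1708 = true ∧
    allY (E.wth (lkp [])) l1709 = true ∧
    allY (E.wth (lkp [])) l1710 = true :=
  ⟨by decide +kernel, by decide +kernel, by decide +kernel, by decide +kernel, by decide +kernel, by decide +kernel, by decide +kernel, by decide +kernel⟩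

def t1711 : allY (E.wth (lkp [])) l1711 = true ∧
    allY (E.wth (lkp [])) l1712 = true ∧
    allY (E.wth (lkp [])) l1713 = true ∧
    allY (E.wth (lkp [])) l1714 = true ∧
    allY (E.wth (lkp [])) l1715 = true ∧
    allY (E.wth (lkp [])) l1716 = true ∧
    allY (E.wth (lkp [])) l1717 = true ∧
    allY (E.wth (lkp [])) l1718 = true :=
  ⟨by decide +kernel, by decide +kernel, by decide +kernel, by decide +kernel, by decide +kernel, by decide +kernel, by decide +kernel, by decide +kernel⟩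

def t1719 : allY (E.wth (lkp [])) l1719 = true ∧
    allY (E.wth (lkp [])) l1720 = true ∧
    allY (E.wth (lkp [])) l1721 = true ∧
    allY (E.wth (lkp [])) l1722 = true ∧
    allY (E.wth (lkp [])) l1723 = true ∧
    allY (E.wth (lkp [])) l1724 = true ∧
    allY (E.wth (lkp [])) l1725 = true ∧
    allY (E.wth (lkp [])) l1726 = true :=
  ⟨by decide +kernel, by decide +kernel, by decide +kernel, by decide +kernel, by decide +kernel, by decide +kernel, by decide +kernel, by decide +kernel⟩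

def t1727 : allY (E.wth (lkp [])) l1727 = true ∧
    allY (E.wth (lkp [])) l1728 = true ∧
    allY (E.wth (lkp [])) l1729 = true ∧
    allY (E.wth (lkp [])) l1730 = true ∧
    allY (E.wth (lkp [])) l1731 = true ∧
    allY (E.wth (lkp [])) l1732 = true ∧
    allY (E.wth (lkp [])) l1733 = true ∧
    allY (E.wth (lkp [])) l1734 = true :=
  ⟨by decide +kernel, by decide +kernel, by decide +kernel, by decide +kernel, by decide +kernel, by decide +kernel, by decide +kernel, by decide +kernel⟩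

def t1735 : allY (E.wth (lkp [])) l1735 = true ∧
    allY (E.wth (lkp [])) l1736 = true ∧
    allY (E.wth (lkp [])) l1737 = true ∧
    allY (E.wth (lkp [])) l1738 = true ∧
    allY (E.wth (lkp [])) l1739 = true ∧
    allY (E.wth (lkp [])) l1740 = true ∧
    allY (E.wth (lkp [])) l1741 = true ∧
    allY (E.wth (lkp [])) l1742 = true :=
  ⟨by decide +kernel, by decide +kernel, by decide +kernel, by decide +kernel, by decide +kernel, by decide +kernel, by decide +kernel, by decide +kernel⟩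

def t1743 : allY (E.wth (lkp [])) l1743 = true ∧
    allY (E.wth (lkp [])) l1744 = true ∧
    allY (E.wth (lkp [])) l1745 = true ∧
    allY (E.wth (lkp [])) l1746 = true ∧
    allY (E.wth (lkp [])) l1747 = true ∧
    allY (E.wth (lkp [])) l1748 = true ∧
    allY (E.wth (lkp [])) l1749 = true ∧
    allY (E.wth (lkp [])) l1750 = true :=
  ⟨by decide +kernel, by decide +kernel, by decide +kernel, by decide +kernel, by decide +kernel, by decide +kernel, by decide +kernel, by decide +kernel⟩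

def t1751 : allY (E.wth (lkp [])) l1751 = true ∧
    allY (E.wth (lkp [])) l1752 = true ∧
    allY (E.wth (lkp [])) l1753 = true ∧
    allY (E.wth (lkp [])) l1754 = true ∧
    allY (E.wth (lkp [])) l1755 = true ∧
    allY (E.wth (lkp [])) l1756 = true ∧
    allY (E.wth (lkp [])) l1757 = true ∧
    allY (E.wth (lkp [])) l1758 = true :=
  ⟨by decide +kernel, by decide +kernel, by decide +kernel, by decide +kernel, by decide +kernel, by decide +kernel, by decide +kernel, by decide +kernel⟩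

def t1759 : allY (E.wth (lkp [])) l1759 = true ∧
    allY (E.wth (lkp [])) l1760 = true ∧
    allY (E.wth (lkp [])) l1761 = true ∧
    allY (E.wth (lkp [])) l1762 = true ∧
    allY (E.wth (lkp [])) l1763 = true ∧
    allY (E.wth (lkp [])) l1764 = true ∧
    allY (E.wth (lkp [])) l1765 = true ∧
    allY (E.wth (lkp [])) l1766 = true :=
  ⟨by decide +kernel, by decide +kernel, by decide +kernel, by decide +kernel, by decide +kernel, by decide +kernel, by decide +kernel, by decide +kernel⟩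

def t1767 : allY (E.wth (lkp [])) l1767 = true ∧
    allY (E.wth (lkp [])) l1768 = true ∧
    allY (E.wth (lkp [])) l1769 = true ∧
    allY (E.wth (lkp [])) l1770 = true ∧
    allY (E.wth (lkp [])) l1771 = true ∧
    allY (E.wth (lkp [])) l1772 = true ∧
    allY (E.wth (lkp [])) l1773 = true ∧
    allY (E.wth (lkp [])) l1774 = true :=
  ⟨by decide +kernel, by decide +kernel, by decide +kernel, by decide +kernel, by decide +kernel, by decide +kernel, by decide +kernel, by decide +kernel⟩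

def t1775 : allY (E.wth (lkp [])) l1775 = true ∧
    allY (E.wth (lkp [])) l1776 = true ∧
    allY (E.wth (lkp [])) l1777 = true ∧
    allY (E.wth (lkp [])) l1778 = true ∧
    allY (E.wth (lkp [])) l1779 = true ∧
    allY (E.wth (lkp [])) l1780 = true ∧
    allY (E.wth (lkp [])) l1781 = true ∧
    allY (E.wth (lkp [])) l1782 = true :=
  ⟨by decide +kernel, by decide +kernel, by decide +kernel, by decide +kernel, by decide +kernel, by decide +kernel, by decide +kernel, by decide +kernel⟩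

def t1783 : allY (E.wth (lkp [])) l1783 = true ∧
    allY (E.wth (lkp [])) l1784 = true ∧
    allY (E.wth (lkp [])) l1785 = true ∧
    allY (E.wth (lkp [])) l1786 = true ∧
    allY (E.wth (lkp [])) l1787 = true ∧
    allY (E.wth (lkp [])) l1788 = true ∧
    allY (E.wth (lkp [])) l1789 = true ∧
    allY (E.wth (lkp [])) l1790 = true :=
  ⟨by decide +kernel, by decide +kernel, by decide +kernel, by decide +kernel, by decide +kernel, by decide +kernel, by decide +kernel, by decide +kernel⟩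

def t1791 : allY (E.wth (lkp [])) l1791 = true ∧
    allY (E.wth (lkp [])) l1792 = true ∧
    allY (E.wth (lkp [])) l1793 = true ∧
    allY (E.wth (lkp [])) l1794 = true ∧
    allY (E.wth (lkp [])) l1795 = true ∧
    allY (E.wth (lkp [])) l1796 = true ∧
    allY (E.wth (lkp [])) l1797 = true ∧
    allY (E.wth (lkp [])) l1798 = true :=
  ⟨by decide +kernel, by decide +kernel, by decide +kernel, by decide +kernel, by decide +kernel, by decide +kernel, by decide +kernel, by decide +kernel⟩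

def t1799 : allY (E.wth (lkp [])) l1799 = true ∧
    allY (E.wth (lkp [])) l1800 = true ∧
    allY (E.wth (lkp [])) l1801 = true ∧
    allY (E.wth (lkp [])) l1802 = true ∧
    allY (E.wth (lkp [])) l1803 = true ∧
    allY (E.wth (lkp [])) l1804 = true ∧
    allY (E.wth (lkp [])) l1805 = true ∧
    allY (E.wth (lkp [])) l1806 = true :=
  ⟨by decide +kernel, by decide +kernel, by decide +kernel, by decide +kernel, by decide +kernel, by decide +kernel, by decide +kernel, by decide +kernel⟩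

def t1807 : allY (E.wth (lkp [])) l1807 = true ∧
    allY (E.wth (lkp [])) l1808 = true ∧
    allY (E.wth (lkp [])) l1809 = true ∧
    allY (E.wth (lkp [])) l1810 = true ∧
    allY (E.wth (lkp [])) l1811 = true ∧
    allY (E.wth (lkp [])) l1812 = true ∧
    allY (E.wth (lkp [])) l1813 = true ∧
    allY (E.wth (lkp [])) l1814 = true :=
  ⟨by decide +kernel, by decide +kernel, by decide +kernel, by decide +kernel, by decide +kernel, by decide +kernel, by decide +kernel, by decide +kernel⟩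

def t1815 : allY (E.wth (lkp [])) l1815 = true ∧
    allY (E.wth (lkp [])) l1816 = true ∧
    allY (E.wth (lkp [])) l1817 = true ∧
    allY (E.wth (lkp [])) l1818 = true ∧
    allY (E.wth (lkp [])) l1819 = true ∧
    allY (E.wth (lkp [])) l1820 = true ∧
    allY (E.wth (lkp [])) l1821 = true ∧
    allY (E.wth (lkp [])) l1822 = true :=
  ⟨by decide +kernel, by decide +kernel, by decide +kernel, by decide +kernel, by decide +kernel, by decide +kernel, by decide +kernel, by decide +kernel⟩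

def t1823 : allY (E.wth (lkp [])) l1823 = true ∧
    allY (E.wth (lkp [])) l1824 = true ∧
    allY (E.wth (lkp [])) l1825 = true ∧
    allY (E.wth (lkp [])) l1826 = true ∧
    allY (E.wth (lkp [])) l1827 = true ∧
    allY (E.wth (lkp [])) l1828 = true ∧
    allY (E.wth (lkp [])) l1829 = true ∧
    allY (E.wth (lkp [])) l1830 = true :=
  ⟨by decide +kernel, by decide +kernel, by decide +kernel, by decide +kernel, by decide +kernel, by decide +kernel, by decide +kernel, by decide +kernel⟩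

def t1831 : allY (E.wth (lkp [])) l1831 = true ∧
    allY (E.wth (lkp [])) l1832 = true ∧
    allY (E.wth (lkp [])) l1833 = true ∧
    allY (E.wth (lkp [])) l1834 = true ∧
    allY (E.wth (lkp [])) l1835 = true ∧
    allY (E.wth (lkp [])) l1836 = true ∧
    allY (E.wth (lkp [])) l1837 = true ∧
    allY (E.wth (lkp [])) l1838 = true :=
  ⟨by decide +kernel, by decide +kernel, by decide +kernel, by decide +kernel, by decide +kernel, by decide +kernel, by decide +kernel, by decide +kernel⟩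

def t1839 : allY (E.wth (lkp [])) l1839 = true ∧
    allY (E.wth (lkp [])) l1840 = true ∧
    allY (E.wth (lkp [])) l1841 = true ∧
    allY (E.wth (lkp [])) l1842 = true ∧
    allY (E.wth (lkp [])) l1843 = true ∧
    allY (E.wth (lkp [])) l1844 = true ∧
    allY (E.wth (lkp [])) l1845 = true ∧
    allY (E.wth (lkp [])) l1846 = true :=
  ⟨by decide +kernel, by decide +kernel, by decide +kernel, by decide +kernel, by decide +kernel, by decide +kernel, by decide +kernel, by decide +kernel⟩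

def t1847 : allY (E.wth (lkp [])) l1847 = true ∧
    allY (E.wth (lkp [])) l1848 = true ∧
    allY (E.wth (lkp [])) l1849 = true ∧
    allY (E.wth (lkp [])) l1850 = true ∧
    allY (E.wth (lkp [])) l1851 = true ∧
    allY (E.wth (lkp [])) l1852 = true ∧
    allY (E.wth (lkp [])) l1853 = true ∧
    allY (E.wth (lkp [])) l1854 = true :=
  ⟨by decide +kernel, by decide +kernel, by decide +kernel, by decide +kernel, by decide +kernel, by decide +kernel, by decide +kernel, by decide +kernel⟩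

def t1855 : allY (E.wth (lkp [])) l1855 = true ∧
    allY (E.wth (lkp [])) l1856 = true ∧
    allY (E.wth (lkp [])) l1857 = true ∧
    allY (E.wth (lkp [])) l1858 = true ∧
    allY (E.wth (lkp [])) l1859 = true ∧
    allY (E.wth (lkp [])) l1860 = true ∧
    allY (E.wth (lkp [])) l1861 = true ∧
    allY (E.wth (lkp [])) l1862 = true :=
  ⟨by decide +kernel, by decide +kernel, by decide +kernel, by decide +kernel, by decide +kernel, by decide +kernel, by decide +kernel, by decide +kernel⟩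

def t1863 : allY (E.wth (lkp [])) l1863 = true ∧
    allY (E.wth (lkp [])) l1864 = true ∧
    allY (E.wth (lkp [])) l1865 = true ∧
    allY (E.wth (lkp [])) l1866 = true ∧
    allY (E.wth (lkp [])) l1867 = true ∧
    allY (E.wth (lkp [])) l1868 = true ∧
    allY (E.wth (lkp [])) l1869 = true ∧
    allY (E.wth (lkp [])) l1870 = true :=
  ⟨by decide +kernel, by decide +kernel, by decide +kernel, by decide +kernel, by decide +kernel, by decide +kernel, by decide +kernel, by decide +kernel⟩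

def t1871 : allY (E.wth (lkp [])) l1871 = true ∧
    allY (E.wth (lkp [])) l1872 = true ∧
    allY (E.wth (lkp [])) l1873 = true ∧
    allY (E.wth (lkp [])) l1874 = true ∧
    allY (E.wth (lkp [])) l1875 = true ∧
    allY (E.wth (lkp [])) l1876 = true ∧
    allY (E.wth (lkp [])) l1877 = true ∧
    allY (E.wth (lkp [])) l1878 = true :=
  ⟨by decide +kernel, by decide +kernel, by decide +kernel, by decide +kernel, by decide +kernel, by decide +kernel, by decide +kernel, by decide +kernel⟩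

def t1879 : allY (E.wth (lkp [])) l1879 = true ∧
    allY (E.wth (lkp [])) l1880 = true ∧
    allY (E.wth (lkp [])) l1881 = true ∧
    allY (E.wth (lkp [])) l1882 = true ∧
    allY (E.wth (lkp [])) l1883 = true ∧
    allY (E.wth (lkp [])) l1884 = true ∧
    allY (E.wth (lkp [])) l1885 = true ∧
    allY (E.wth (lkp [])) l1886 = true :=
  ⟨by decide +kernel, by decide +kernel, by decide +kernel, by decide +kernel, by decide +kernel, by decide +kernel, by decide +kernel, by decide +kernel⟩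

def t1887 : allY (E.wth (lkp [])) l1887 = true ∧
    allY (E.wth (lkp [])) l1888 = true ∧
    allY (E.wth (lkp [])) l1889 = true ∧
    allY (E.wth (lkp [])) l1890 = true ∧
    allY (E.wth (lkp [])) l1891 = true ∧
    allY (E.wth (lkp [])) l1892 = true ∧
    allY (E.wth (lkp [])) l1893 = true ∧
    allY (E.wth (lkp [])) l1894 = true :=
  ⟨by decide +kernel, by decide +kernel, by decide +kernel, by decide +kernel, by decide +kernel, by decide +kernel, by decide +kernel, by decide +kernel⟩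

def t1895 : allY (E.wth (lkp [])) l1895 = true ∧
    allY (E.wth (lkp [])) l1896 = true ∧
    allY (E.wth (lkp [])) l1897 = true ∧
    allY (E.wth (lkp [])) l1898 = true ∧
    allY (E.wth (lkp [])) l1899 = true ∧
    allY (E.wth (lkp [])) l1900 = true ∧
    allY (E.wth (lkp [])) l1901 = true ∧
    allY (E.wth (lkp [])) l1902 = true :=
  ⟨by decide +kernel, by decide +kernel, by decide +kernel, by decide +kernel, by decide +kernel, by decide +kernel, by decide +kernel, by decide +kernel⟩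

def t1903 : allY (E.wth (lkp [])) l1903 = true ∧
    allY (E.wth (lkp [])) l1904 = true ∧
    allY (E.wth (lkp [])) l1905 = true ∧
    allY (E.wth (lkp [])) l1906 = true ∧
    allY (E.wth (lkp [])) l1907 = true ∧
    allY (E.wth (lkp [])) l1908 = true ∧
    allY (E.wth (lkp [])) l1909 = true ∧
    allY (E.wth (lkp [])) l1910 = true :=
  ⟨by decide +kernel, by decide +kernel, by decide +kernel, by decide +kernel, by decide +kernel, by decide +kernel, by decide +kernel, by decide +kernel⟩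

def t1911 : allY (E.wth (lkp [])) l1911 = true ∧
    allY (E.wth (lkp [])) l1912 = true ∧
    allY (E.wth (lkp [])) l1913 = true ∧
    allY (E.wth (lkp [])) l1914 = true ∧
    allY (E.wth (lkp [])) l1915 = true ∧
    allY (E.wth (lkp [])) l1916 = true ∧
    allY (E.wth (lkp [])) l1917 = true ∧
    allY (E.wth (lkp [])) l1918 = true :=
  ⟨by decide +kernel, by decide +kernel, by decide +kernel, by decide +kernel, by decide +kernel, by decide +kernel, by decide +kernel, by decide +kernel⟩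

def t1919 : allY (E.wth (lkp [])) l1919 = true ∧
    allY (E.wth (lkp [])) l1920 = true ∧
    allY (E.wth (lkp [])) l1921 = true ∧
    allY (E.wth (lkp [])) l1922 = true ∧
    allY (E.wth (lkp [])) l1923 = true ∧
    allY (E.wth (lkp [])) l1924 = true ∧
    allY (E.wth (lkp [])) l1925 = true ∧
    allY (E.wth (lkp [])) l1926 = true :=
  ⟨by decide +kernel, by decide +kernel, by decide +kernel, by decide +kernel, by decide +kernel, by decide +kernel, by decide +kernel, by decide +kernel⟩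

def t1927 : allY (E.wth (lkp [])) l1927 = true ∧
    allY (E.wth (lkp [])) l1928 = true ∧
    allY (E.wth (lkp [])) l1929 = true ∧
    allY (E.wth (lkp [])) l1930 = true ∧
    allY (E.wth (lkp [])) l1931 = true ∧
    allY (E.wth (lkp [])) l1932 = true ∧
    allY (E.wth (lkp [])) l1933 = true ∧
    allY (E.wth (lkp [])) l1934 = true :=
  ⟨by decide +kernel, by decide +kernel, by decide +kernel, by decide +kernel, by decide +kernel, by decide +kernel, by decide +kernel, by decide +kernel⟩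

def t1935 : allY (E.wth (lkp [])) l1935 = true ∧
    allY (E.wth (lkp [])) l1936 = true ∧
    allY (E.wth (lkp [])) l1937 = true ∧
    allY (E.wth (lkp [])) l1938 = true ∧
    allY (E.wth (lkp [])) l1939 = true ∧
    allY (E.wth (lkp [])) l1940 = true ∧
    allY (E.wth (lkp [])) l1941 = true ∧
    allY (E.wth (lkp [])) l1942 = true :=
  ⟨by decide +kernel, by decide +kernel, by decide +kernel, by decide +kernel, by decide +kernel, by decide +kernel, by decide +kernel, by decide +kernel⟩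

def t1943 : allY (E.wth (lkp [])) l1943 = true ∧
    allY (E.wth (lkp [])) l1944 = true ∧
    allY (E.wth (lkp [])) l1945 = true ∧
    allY (E.wth (lkp [])) l1946 = true ∧
    allY (E.wth (lkp [])) l1947 = true ∧
    allY (E.wth (lkp [])) l1948 = true ∧
    allY (E.wth (lkp [])) l1949 = true ∧
    allY (E.wth (lkp [])) l1950 = true :=
  ⟨by decide +kernel, by decide +kernel, by decide +kernel, by decide +kernel, by decide +kernel, by decide +kernel, by decide +kernel, by decide +kernel⟩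

def t1951 : allY (E.wth (lkp [])) l1951 = true ∧
    allY (E.wth (lkp [])) l1952 = true ∧
    allY (E.wth (lkp [])) l1953 = true ∧
    allY (E.wth (lkp [])) l1954 = true ∧
    allY (E.wth (lkp [])) l1955 = true ∧
    allY (E.wth (lkp [])) l1956 = true ∧
    allY (E.wth (lkp [])) l1957 = true ∧
    allY (E.wth (lkp [])) l1958 = true :=
  ⟨by decide +kernel, by decide +kernel, by decide +kernel, by decide +kernel, by decide +kernel, by decide +kernel, by decide +kernel, by decide +kernel⟩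

def t1959 : allY (E.wth (lkp [])) l1959 = true ∧
    allY (E.wth (lkp [])) l1960 = true ∧
    allY (E.wth (lkp [])) l1961 = true ∧
    allY (E.wth (lkp [])) l1962 = true ∧
    allY (E.wth (lkp [])) l1963 = true ∧
    allY (E.wth (lkp [])) l1964 = true ∧
    allY (E.wth (lkp [])) l1965 = true ∧
    allY (E.wth (lkp [])) l1966 = true :=
  ⟨by decide +kernel, by decide +kernel, by decide +kernel, by decide +kernel, by decide +kernel, by decide +kernel, by decide +kernel, by decide +kernel⟩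

def t1967 : allY (E.wth (lkp [])) l1967 = true ∧
    allY (E.wth (lkp [])) l1968 = true ∧
    allY (E.wth (lkp [])) l1969 = true ∧
    allY (E.wth (lkp [])) l1970 = true ∧
    allY (E.wth (lkp [])) l1971 = true ∧
    allY (E.wth (lkp [])) l1972 = true ∧
    allY (E.wth (lkp [])) l1973 = true ∧
    allY (E.wth (lkp [])) l1974 = true :=
  ⟨by decide +kernel, by decide +kernel, by decide +kernel, by decide +kernel, by decide +kernel, by decide +kernel, by decide +kernel, by decide +kernel⟩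

def t1975 : allY (E.wth (lkp [])) l1975 = true ∧
    allY (E.wth (lkp [])) l1976 = true ∧
    allY (E.wth (lkp [])) l1977 = true ∧
    allY (E.wth (lkp [])) l1978 = true ∧
    allY (E.wth (lkp [])) l1979 = true ∧
    allY (E.wth (lkp [])) l1980 = true ∧
    allY (E.wth (lkp [])) l1981 = true ∧
    allY (E.wth (lkp [])) l1982 = true :=
  ⟨by decide +kernel, by decide +kernel, by decide +kernel, by decide +kernel, by decide +kernel, by decide +kernel, by decide +kernel, by decide +kernel⟩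

def t1983 : allY (E.wth (lkp [])) l1983 = true ∧
    allY (E.wth (lkp [])) l1984 = true ∧
    allY (E.wth (lkp [])) l1985 = true ∧
    allY (E.wth (lkp [])) l1986 = true ∧
    allY (E.wth (lkp [])) l1987 = true ∧
    allY (E.wth (lkp [])) l1988 = true ∧
    allY (E.wth (lkp [])) l1989 = true ∧
    allY (E.wth (lkp [])) l1990 = true :=
  ⟨by decide +kernel, by decide +kernel, by decide +kernel, by decide +kernel, by decide +kernel, by decide +kernel, by decide +kernel, by decide +kernel⟩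

def t1991 : allY (E.wth (lkp [])) l1991 = true ∧
    allY (E.wth (lkp [])) l1992 = true ∧
    allY (E.wth (lkp [])) l1993 = true ∧
    allY (E.wth (lkp [])) l1994 = true ∧
    allY (E.wth (lkp [])) l1995 = true ∧
    allY (E.wth (lkp [])) l1996 = true ∧
    allY (E.wth (lkp [])) l1997 = true ∧
    allY (E.wth (lkp [])) l1998 = true :=
  ⟨by decide +kernel, by decide +kernel, by decide +kernel, by decide +kernel, by decide +kernel, by decide +kernel, by decide +kernel, by decide +kernel⟩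

def t1999 : allY (E.wth (lkp [])) l1999 = true ∧
    allY (E.wth (lkp [])) l2000 = true ∧
    allY (E.wth (lkp [])) l2001 = true ∧
    allY (E.wth (lkp [])) l2002 = true ∧
    allY (E.wth (lkp [])) l2003 = true ∧
    allY (E.wth (lkp [])) l2004 = true ∧
    allY (E.wth (lkp [])) l2005 = true ∧
    allY (E.wth (lkp [])) l2006 = true :=
  ⟨by decide +kernel, by decide +kernel, by decide +kernel, by decide +kernel, by decide +kernel, by decide +kernel, by decide +kernel, by decide +kernel⟩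

def t2007 : allY (E.wth (lkp [])) l2007 = true ∧
    allY (E.wth (lkp [])) l2008 = true ∧
    allY (E.wth (lkp [])) l2009 = true ∧
    allY (E.wth (lkp [])) l2010 = true ∧
    allY (E.wth (lkp [])) l2011 = true ∧
    allY (E.wth (lkp [])) l2012 = true ∧
    allY (E.wth (lkp [])) l2013 = true ∧
    allY (E.wth (lkp [])) l2014 = true :=
  ⟨by decide +kernel, by decide +kernel, by decide +kernel, by decide +kernel, by decide +kernel, by decide +kernel, by decide +kernel, by decide +kernel⟩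

def t2015 : allY (E.wth (lkp [])) l2015 = true ∧
    allY (E.wth (lkp [])) l2016 = true ∧
    allY (E.wth (lkp [])) l2017 = true ∧
    allY (E.wth (lkp [])) l2018 = true ∧
    allY (E.wth (lkp [])) l2019 = true ∧
    allY (E.wth (lkp [])) l2020 = true ∧
    allY (E.wth (lkp [])) l2021 = true ∧
    allY (E.wth (lkp [])) l2022 = true :=
  ⟨by decide +kernel, by decide +kernel, by decide +kernel, by decide +kernel, by decide +kernel, by decide +kernel, by decide +kernel, by decide +kernel⟩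

def t2023 : allY (E.wth (lkp [])) l2023 = true ∧
    allY (E.wth (lkp [])) l2024 = true ∧
    allY (E.wth (lkp [])) l2025 = true ∧
    allY (E.wth (lkp [])) l2026 = true ∧
    allY (E.wth (lkp [])) l2027 = true ∧
    allY (E.wth (lkp [])) l2028 = true ∧
    allY (E.wth (lkp [])) l2029 = true ∧
    allY (E.wth (lkp [])) l2030 = true :=
  ⟨by decide +kernel, by decide +kernel, by decide +kernel, by decide +kernel, by decide +kernel, by decide +kernel, by decide +kernel, by decide +kernel⟩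

def t2031 : allY (E.wth (lkp [])) l2031 = true ∧
    allY (E.wth (lkp [])) l2032 = true ∧
    allY (E.wth (lkp [])) l2033 = true ∧
    allY (E.wth (lkp [])) l2034 = true ∧
    allY (E.wth (lkp [])) l2035 = true ∧
    allY (E.wth (lkp [])) l2036 = true ∧
    allY (E.wth (lkp [])) l2037 = true ∧
    allY (E.wth (lkp [])) l2038 = true :=
  ⟨by decide +kernel, by decide +kernel, by decide +kernel, by decide +kernel, by decide +kernel, by decide +kernel, by decide +kernel, by decide +kernel⟩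

def t2039 : allY (E.wth (lkp [])) l2039 = true ∧
    allY (E.wth (lkp [])) l2040 = true ∧
    allY (E.wth (lkp [])) l2041 = true ∧
    allY (E.wth (lkp [])) l2042 = true ∧
    allY (E.wth (lkp [])) l2043 = true ∧
    allY (E.wth (lkp [])) l2044 = true ∧
    allY (E.wth (lkp [])) l2045 = true ∧
    allY (E.wth (lkp [])) l2046 = true :=
  ⟨by decide +kernel, by decide +kernel, by decide +kernel, by decide +kernel, by decide +kernel, by decide +kernel, by decide +kernel, by decide +kernel⟩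

def t2047 : allY (E.wth (lkp [])) l2047 = true ∧
    allY (E.wth (lkp [])) l2048 = true ∧
    allY (E.wth (lkp [])) l2049 = true ∧
    allY (E.wth (lkp [])) l2050 = true ∧
    allY (E.wth (lkp [])) l2051 = true ∧
    allY (E.wth (lkp [])) l2052 = true ∧
    allY (E.wth (lkp [])) l2053 = true ∧
    allY (E.wth (lkp [])) l2054 = true :=
  ⟨by decide +kernel, by decide +kernel, by decide +kernel, by decide +kernel, by decide +kernel, by decide +kernel, by decide +kernel, by decide +kernel⟩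

def t2055 : allY (E.wth (lkp [])) l2055 = true ∧
    allY (E.wth (lkp [])) l2056 = true ∧
    allY (E.wth (lkp [])) l2057 = true ∧
    allY (E.wth (lkp [])) l2058 = true ∧
    allY (E.wth (lkp [])) l2059 = true ∧
    allY (E.wth (lkp [])) l2060 = true ∧
    allY (E.wth (lkp [])) l2061 = true ∧
    allY (E.wth (lkp [])) l2062 = true :=
  ⟨by decide +kernel, by decide +kernel, by decide +kernel, by decide +kernel, by decide +kernel, by decide +kernel, by decide +kernel, by decide +kernel⟩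

def t2063 : allY (E.wth (lkp [])) l2063 = true ∧
    allY (E.wth (lkp [])) l2064 = true ∧
    allY (E.wth (lkp [])) l2065 = true ∧
    allY (E.wth (lkp [])) l2066 = true ∧
    allY (E.wth (lkp [])) l2067 = true ∧
    allY (E.wth (lkp [])) l2068 = true ∧
    allY (E.wth (lkp [])) l2069 = true ∧
    allY (E.wth (lkp [])) l2070 = true :=
  ⟨by decide +kernel, by decide +kernel, by decide +kernel, by decide +kernel, by decide +kernel, by decide +kernel, by decide +kernel, by decide +kernel⟩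

def t2071 : allY (E.wth (lkp [])) l2071 = true ∧
    allY (E.wth (lkp [])) l2072 = true ∧
    allY (E.wth (lkp [])) l2073 = true ∧
    allY (E.wth (lkp [])) l2074 = true ∧
    allY (E.wth (lkp [])) l2075 = true ∧
    allY (E.wth (lkp [])) l2076 = true ∧
    allY (E.wth (lkp [])) l2077 = true ∧
    allY (E.wth (lkp [])) l2078 = true :=
  ⟨by decide +kernel, by decide +kernel, by decide +kernel, by decide +kernel, by decide +kernel, by decide +kernel, by decide +kernel, by decide +kernel⟩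

def t2079 : allY (E.wth (lkp [])) l2079 = true ∧
    allY (E.wth (lkp [])) l2080 = true ∧
    allY (E.wth (lkp [])) l2081 = true ∧
    allY (E.wth (lkp [])) l2082 = true ∧
    allY (E.wth (lkp [])) l2083 = true ∧
    allY (E.wth (lkp [])) l2084 = true ∧
    allY (E.wth (lkp [])) l2085 = true ∧
    allY (E.wth (lkp [])) l2086 = true :=
  ⟨by decide +kernel, by decide +kernel, by decide +kernel, by decide +kernel, by decide +kernel, by decide +kernel, by decide +kernel, by decide +kernel⟩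

def t2087 : allY (E.wth (lkp [])) l2087 = true ∧
    allY (E.wth (lkp [])) l2088 = true ∧
    allY (E.wth (lkp [])) l2089 = true ∧
    allY (E.wth (lkp [])) l2090 = true ∧
    allY (E.wth (lkp [])) l2091 = true ∧
    allY (E.wth (lkp [])) l2092 = true ∧
    allY (E.wth (lkp [])) l2093 = true ∧
    allY (E.wth (lkp [])) l2094 = true :=
  ⟨by decide +kernel, by decide +kernel, by decide +kernel, by decide +kernel, by decide +kernel, by decide +kernel, by decide +kernel, by decide +kernel⟩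

def t2095 : allY (E.wth (lkp [])) l2095 = true ∧
    allY (E.wth (lkp [])) l2096 = true ∧
    allY (E.wth (lkp [])) l2097 = true ∧
    allY (E.wth (lkp [])) l2098 = true ∧
    allY (E.wth (lkp [])) l2099 = true ∧
    allY (E.wth (lkp [])) l2100 = true ∧
    allY (E.wth (lkp [])) l2101 = true ∧
    allY (E.wth (lkp [])) l2102 = true :=
  ⟨by decide +kernel, by decide +kernel, by decide +kernel, by decide +kernel, by decide +kernel, by decide +kernel, by decide +kernel, by decide +kernel⟩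

def t2103 : allY (E.wth (lkp [])) l2103 = true ∧
    allY (E.wth (lkp [])) l2104 = true ∧
    allY (E.wth (lkp [])) l2105 = true ∧
    allY (E.wth (lkp [])) l2106 = true ∧
    allY (E.wth (lkp [])) l2107 = true ∧
    allY (E.wth (lkp [])) l2108 = true ∧
    allY (E.wth (lkp [])) l2109 = true ∧
    allY (E.wth (lkp [])) l2110 = true :=
  ⟨by decide +kernel, by decide +kernel, by decide +kernel, by decide +kernel, by decide +kernel, by decide +kernel, by decide +kernel, by decide +kernel⟩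

def t2111 : allY (E.wth (lkp [])) l2111 = true ∧
    allY (E.wth (lkp [])) l2112 = true ∧
    allY (E.wth (lkp [])) l2113 = true ∧
    allY (E.wth (lkp [])) l2114 = true ∧
    allY (E.wth (lkp [])) l2115 = true ∧
    allY (E.wth (lkp [])) l2116 = true ∧
    allY (E.wth (lkp [])) l2117 = true ∧
    allY (E.wth (lkp [])) l2118 = true :=
  ⟨by decide +kernel, by decide +kernel, by decide +kernel, by decide +kernel, by decide +kernel, by decide +kernel, by decide +kernel, by decide +kernel⟩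

def t2119 : allY (E.wth (lkp [])) l2119 = true ∧
    allY (E.wth (lkp [])) l2120 = true ∧
    allY (E.wth (lkp [])) l2121 = true ∧
    allY (E.wth (lkp [])) l2122 = true ∧
    allY (E.wth (lkp [])) l2123 = true ∧
    allY (E.wth (lkp [])) l2124 = true ∧
    allY (E.wth (lkp [])) l2125 = true ∧
    allY (E.wth (lkp [])) l2126 = true :=
  ⟨by decide +kernel, by decide +kernel, by decide +kernel, by decide +kernel, by decide +kernel, by decide +kernel, by decide +kernel, by decide +kernel⟩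

def t2127 : allY (E.wth (lkp [])) l2127 = true ∧
    allY (E.wth (lkp [])) l2128 = true ∧
    allY (E.wth (lkp [])) l2129 = true ∧
    allY (E.wth (lkp [])) l2130 = true ∧
    allY (E.wth (lkp [])) l2131 = true ∧
    allY (E.wth (lkp [])) l2132 = true ∧
    allY (E.wth (lkp [])) l2133 = true ∧
    allY (E.wth (lkp [])) l2134 = true :=
  ⟨by decide +kernel, by decide +kernel, by decide +kernel, by decide +kernel, by decide +kernel, by decide +kernel, by decide +kernel, by decide +kernel⟩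

def t2135 : allY (E.wth (lkp [])) l2135 = true ∧
    allY (E.wth (lkp [])) l2136 = true ∧
    allY (E.wth (lkp [])) l2137 = true ∧
    allY (E.wth (lkp [])) l2138 = true ∧
    allY (E.wth (lkp [])) l2139 = true ∧
    allY (E.wth (lkp [])) l2140 = true ∧
    allY (E.wth (lkp [])) l2141 = true ∧
    allY (E.wth (lkp [])) l2142 = true :=
  ⟨by decide +kernel, by decide +kernel, by decide +kernel, by decide +kernel, by decide +kernel, by decide +kernel, by decide +kernel, by decide +kernel⟩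

def t2143 : allY (E.wth (lkp [])) l2143 = true ∧
    allY (E.wth (lkp [])) l2144 = true ∧
    allY (E.wth (lkp [])) l2145 = true ∧
    allY (E.wth (lkp [])) l2146 = true ∧
    allY (E.wth (lkp [])) l2147 = true ∧
    allY (E.wth (lkp [])) l2148 = true ∧
    allY (E.wth (lkp [])) l2149 = true ∧
    allY (E.wth (lkp [])) l2150 = true :=
  ⟨by decide +kernel, by decide +kernel, by decide +kernel, by decide +kernel, by decide +kernel, by decide +kernel, by decide +kernel, by decide +kernel⟩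

def t2151 : allY (E.wth (lkp [])) l2151 = true ∧
    allY (E.wth (lkp [])) l2152 = true ∧
    allY (E.wth (lkp [])) l2153 = true ∧
    allY (E.wth (lkp [])) l2154 = true ∧
    allY (E.wth (lkp [])) l2155 = true ∧
    allY (E.wth (lkp [])) l2156 = true ∧
    allY (E.wth (lkp [])) l2157 = true ∧
    allY (E.wth (lkp [])) l2158 = true :=
  ⟨by decide +kernel, by decide +kernel, by decide +kernel, by decide +kernel, by decide +kernel, by decide +kernel, by decide +kernel, by decide +kernel⟩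

def t2159 : allY (E.wth (lkp [])) l2159 = true ∧
    allY (E.wth (lkp [])) l2160 = true ∧
    allY (E.wth (lkp [])) l2161 = true ∧
    allY (E.wth (lkp [])) l2162 = true ∧
    allY (E.wth (lkp [])) l2163 = true ∧
    allY (E.wth (lkp [])) l2164 = true ∧
    allY (E.wth (lkp [])) l2165 = true ∧
    allY (E.wth (lkp [])) l2166 = true :=
  ⟨by decide +kernel, by decide +kernel, by decide +kernel, by decide +kernel, by decide +kernel, by decide +kernel, by decide +kernel, by decide +kernel⟩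

def t2167 : allY (E.wth (lkp [])) l2167 = true :=
  by decide +kernel

theorem a3 {p : Rf → Prop} (H : ∀ l, allY (E.wth (lkp [])) l = true → (lkp l).All p) :
    b3.All p := ⟨⟨⟨⟨⟨⟨⟨⟨⟨H _ t1615.1, H _ t1615.2.1⟩, ⟨H _ t1615.2.2.1, H _ t1615.2.2.2.1⟩⟩, ⟨⟨H _ t1615.2.2.2.2.1, H _ t1615.2.2.2.2.2.1⟩, ⟨H _ t1615.2.2.2.2.2.2.1, H _ t1615.2.2.2.2.2.2.2⟩⟩⟩, ⟨⟨⟨H _ t1623.1, H _ t1623.2.1⟩, ⟨H _ t1623.2.2.1, H _ t1623.2.2.2.1⟩⟩, ⟨⟨H _ t1623.2.2.2.2.1, H _ t1623.2.2.2.2.2.1⟩, ⟨H _ t1623.2.2.2.2.2.2.1, ⟨H _ t1623.2.2.2.2.2.2.2, H _ t1631.1⟩⟩⟩⟩⟩, ⟨⟨⟨⟨H _ t1631.2.1, H _ t1631.2.2.1⟩, ⟨H _ t1631.2.2.2.1, H _ t1631.2.2.2.2.1⟩⟩, ⟨⟨H _ t1631.2.2.2.2.2.1, H _ t1631.2.2.2.2.2.2.1⟩, ⟨H _ t1631.2.2.2.2.2.2.2, H _ t1639.1⟩⟩⟩, ⟨⟨⟨H _ t1639.2.1, H _ t1639.2.2.1⟩, ⟨H _ t1639.2.2.2.1, H _ t1639.2.2.2.2.1⟩⟩, ⟨⟨H _ t1639.2.2.2.2.2.1, H _ t1639.2.2.2.2.2.2.1⟩, ⟨H _ t1639.2.2.2.2.2.2.2, ⟨H _ t1647.1,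 H _ t1647.2.1⟩⟩⟩⟩⟩⟩, ⟨⟨⟨⟨⟨H _ t1647.2.2.1, H _ t1647.2.2.2.1⟩, ⟨H _ t1647.2.2.2.2.1, H _ t1647.2.2.2.2.2.1⟩⟩, ⟨⟨H _ t1647.2.2.2.2.2.2.1, H _ t1647.2.2.2.2.2.2.2⟩, ⟨H _ t1655.1, H _ t1655.2.1⟩⟩⟩, ⟨⟨⟨H _ t1655.2.2.1, H _ t1655.2.2.2.1⟩, ⟨H _ t1655.2.2.2.2.1, H _ t1655.2.2.2.2.2.1⟩⟩, ⟨⟨H _ t1655.2.2.2.2.2.2.1, H _ t1655.2.2.2.2.2.2.2⟩, ⟨H _ t1663.1, ⟨H _ t1663.2.1, H _ t1663.2.2.1⟩⟩⟩⟩⟩, ⟨⟨⟨⟨H _ t1663.2.2.2.1, H _ t1663.2.2.2.2.1⟩, ⟨H _ t1663.2.2.2.2.2.1, H _ t1663.2.2.2.2.2.2.1⟩⟩, ⟨⟨H _ t1663.2.2.2.2.2.2.2, H _ t1671.1⟩, ⟨H _ t1671.2.1, ⟨H _ t1671.2.2.1, H _ t1671.2.2.2.1⟩⟩⟩⟩, ⟨⟨⟨H _ t1671.2.2.2.2.1, H _ t1671.2.2.2.2.2.1⟩, ⟨H _ t1671.2.2.2.2.2.2.1, H _ t1671.2.2.2.2.2.2.2⟩⟩, ⟨⟨H _ t1679.1, H _ t1679.2.1⟩, ⟨H _ t1679.2.2.1, ⟨H _ t1679.2.2.2.1, H _ t1679.2.2.2.2.1⟩⟩⟩⟩⟩⟩⟩, ⟨⟨⟨⟨⟨⟨H _ t1679.2.2.2.2.2.1, H _ t1679.2.2.2.2.2.2.1⟩, ⟨H _ t1679.2.2.2.2.2.2.2, H _ t1687.1⟩⟩, ⟨⟨H _ t1687.2.1,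 H _ t1687.2.2.1⟩, ⟨H _ t1687.2.2.2.1, H _ t1687.2.2.2.2.1⟩⟩⟩, ⟨⟨⟨H _ t1687.2.2.2.2.2.1, H _ t1687.2.2.2.2.2.2.1⟩, ⟨H _ t1687.2.2.2.2.2.2.2, H _ t1695.1⟩⟩, ⟨⟨H _ t1695.2.1, H _ t1695.2.2.1⟩, ⟨H _ t1695.2.2.2.1, ⟨H _ t1695.2.2.2.2.1, H _ t1695.2.2.2.2.2.1⟩⟩⟩⟩⟩, ⟨⟨⟨⟨H _ t1695.2.2.2.2.2.2.1, H _ t1695.2.2.2.2.2.2.2⟩, ⟨H _ t1703.1, H _ t1703.2.1⟩⟩, ⟨⟨H _ t1703.2.2.1, H _ t1703.2.2.2.1⟩, ⟨H _ t1703.2.2.2.2.1, H _ t1703.2.2.2.2.2.1⟩⟩⟩, ⟨⟨⟨H _ t1703.2.2.2.2.2.2.1, H _ t1703.2.2.2.2.2.2.2⟩, ⟨H _ t1711.1, H _ t1711.2.1⟩⟩, ⟨⟨H _ t1711.2.2.1, H _ t1711.2.2.2.1⟩, ⟨H _ t1711.2.2.2.2.1, ⟨H _ t1711.2.2.2.2.2.1, H _ t1711.2.2.2.2.2.2.1⟩⟩⟩⟩⟩⟩, ⟨⟨⟨⟨⟨H _ t1711.2.2.2.2.2.2.2, H _ t1719.1⟩, ⟨H _ t1719.2.1, H _ t1719.2.2.1⟩⟩, ⟨⟨H _ t1719.2.2.2.1, H _ t1719.2.2.2.2.1⟩, ⟨H _ t1719.2.2.2.2.2.1, H _ t1719.2.2.2.2.2.2.1⟩⟩⟩, ⟨⟨⟨H _ t1719.2.2.2.2.2.2.2, H _ t1727.1⟩, ⟨H _ t1727.2.1, H _ t1727.2.2.1⟩⟩,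 ⟨⟨H _ t1727.2.2.2.1, H _ t1727.2.2.2.2.1⟩, ⟨H _ t1727.2.2.2.2.2.1, ⟨H _ t1727.2.2.2.2.2.2.1, H _ t1727.2.2.2.2.2.2.2⟩⟩⟩⟩⟩, ⟨⟨⟨⟨H _ t1735.1, H _ t1735.2.1⟩, ⟨H _ t1735.2.2.1, H _ t1735.2.2.2.1⟩⟩, ⟨⟨H _ t1735.2.2.2.2.1, H _ t1735.2.2.2.2.2.1⟩, ⟨H _ t1735.2.2.2.2.2.2.1, ⟨H _ t1735.2.2.2.2.2.2.2, H _ t1743.1⟩⟩⟩⟩, ⟨⟨⟨H _ t1743.2.1, H _ t1743.2.2.1⟩, ⟨H _ t1743.2.2.2.1, H _ t1743.2.2.2.2.1⟩⟩, ⟨⟨H _ t1743.2.2.2.2.2.1, H _ t1743.2.2.2.2.2.2.1⟩, ⟨H _ t1743.2.2.2.2.2.2.2, ⟨H _ t1751.1, H _ t1751.2.1⟩⟩⟩⟩⟩⟩⟩⟩, ⟨⟨⟨⟨⟨⟨⟨H _ t1751.2.2.1, H _ t1751.2.2.2.1⟩, ⟨H _ t1751.2.2.2.2.1, H _ t1751.2.2.2.2.2.1⟩⟩, ⟨⟨H _ t1751.2.2.2.2.2.2.1, H _ t1751.2.2.2.2.2.2.2⟩, ⟨H _ t1759.1, H _ t1759.2.1⟩⟩⟩, ⟨⟨⟨H _ t1759.2.2.1, H _ t1759.2.2.2.1⟩, ⟨H _ t1759.2.2.2.2.1, H _ t1759.2.2.2.2.2.1⟩⟩, ⟨⟨H _ t1759.2.2.2.2.2.2.1, H _ t1759.2.2.2.2.2.2.2⟩, ⟨H _ t1767.1, ⟨H _ t1767.2.1, H _ t1767.2.2.1⟩⟩⟩⟩⟩, ⟨⟨⟨⟨H _ t1767.2.2.2.1,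 H _ t1767.2.2.2.2.1⟩, ⟨H _ t1767.2.2.2.2.2.1, H _ t1767.2.2.2.2.2.2.1⟩⟩, ⟨⟨H _ t1767.2.2.2.2.2.2.2, H _ t1775.1⟩, ⟨H _ t1775.2.1, H _ t1775.2.2.1⟩⟩⟩, ⟨⟨⟨H _ t1775.2.2.2.1, H _ t1775.2.2.2.2.1⟩, ⟨H _ t1775.2.2.2.2.2.1, H _ t1775.2.2.2.2.2.2.1⟩⟩, ⟨⟨H _ t1775.2.2.2.2.2.2.2, H _ t1783.1⟩, ⟨H _ t1783.2.1, ⟨H _ t1783.2.2.1, H _ t1783.2.2.2.1⟩⟩⟩⟩⟩⟩, ⟨⟨⟨⟨⟨H _ t1783.2.2.2.2.1, H _ t1783.2.2.2.2.2.1⟩, ⟨H _ t1783.2.2.2.2.2.2.1, H _ t1783.2.2.2.2.2.2.2⟩⟩, ⟨⟨H _ t1791.1, H _ t1791.2.1⟩, ⟨H _ t1791.2.2.1, H _ t1791.2.2.2.1⟩⟩⟩, ⟨⟨⟨H _ t1791.2.2.2.2.1, H _ t1791.2.2.2.2.2.1⟩, ⟨H _ t1791.2.2.2.2.2.2.1, H _ t1791.2.2.2.2.2.2.2⟩⟩, ⟨⟨H _ t1799.1, H _ t1799.2.1⟩, ⟨H _ t1799.2.2.1, ⟨H _ t1799.2.2.2.1, H _ t1799.2.2.2.2.1⟩⟩⟩⟩⟩, ⟨⟨⟨⟨H _ t1799.2.2.2.2.2.1, H _ t1799.2.2.2.2.2.2.1⟩, ⟨H _ t1799.2.2.2.2.2.2.2, H _ t1807.1⟩⟩, ⟨⟨H _ t1807.2.1, H _ t1807.2.2.1⟩, ⟨H _ t1807.2.2.2.1, ⟨H _ t1807.2.2.2.2.1,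 H _ t1807.2.2.2.2.2.1⟩⟩⟩⟩, ⟨⟨⟨H _ t1807.2.2.2.2.2.2.1, H _ t1807.2.2.2.2.2.2.2⟩, ⟨H _ t1815.1, H _ t1815.2.1⟩⟩, ⟨⟨H _ t1815.2.2.1, H _ t1815.2.2.2.1⟩, ⟨H _ t1815.2.2.2.2.1, ⟨H _ t1815.2.2.2.2.2.1, H _ t1815.2.2.2.2.2.2.1⟩⟩⟩⟩⟩⟩⟩, ⟨⟨⟨⟨⟨⟨H _ t1815.2.2.2.2.2.2.2, H _ t1823.1⟩, ⟨H _ t1823.2.1, H _ t1823.2.2.1⟩⟩, ⟨⟨H _ t1823.2.2.2.1, H _ t1823.2.2.2.2.1⟩, ⟨H _ t1823.2.2.2.2.2.1, H _ t1823.2.2.2.2.2.2.1⟩⟩⟩, ⟨⟨⟨H _ t1823.2.2.2.2.2.2.2, H _ t1831.1⟩, ⟨H _ t1831.2.1, H _ t1831.2.2.1⟩⟩, ⟨⟨H _ t1831.2.2.2.1, H _ t1831.2.2.2.2.1⟩, ⟨H _ t1831.2.2.2.2.2.1, ⟨H _ t1831.2.2.2.2.2.2.1, H _ t1831.2.2.2.2.2.2.2⟩⟩⟩⟩⟩, ⟨⟨⟨⟨H _ t1839.1, H _ t1839.2.1⟩, ⟨H _ t1839.2.2.1, H _ t1839.2.2.2.1⟩⟩, ⟨⟨H _ t1839.2.2.2.2.1, H _ t1839.2.2.2.2.2.1⟩, ⟨H _ t1839.2.2.2.2.2.2.1, H _ t1839.2.2.2.2.2.2.2⟩⟩⟩, ⟨⟨⟨H _ t1847.1, H _ t1847.2.1⟩, ⟨H _ t1847.2.2.1, H _ t1847.2.2.2.1⟩⟩, ⟨⟨H _ t1847.2.2.2.2.1, H _ t1847.2.2.2.2.2.1⟩,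 ⟨H _ t1847.2.2.2.2.2.2.1, ⟨H _ t1847.2.2.2.2.2.2.2, H _ t1855.1⟩⟩⟩⟩⟩⟩, ⟨⟨⟨⟨⟨H _ t1855.2.1, H _ t1855.2.2.1⟩, ⟨H _ t1855.2.2.2.1, H _ t1855.2.2.2.2.1⟩⟩, ⟨⟨H _ t1855.2.2.2.2.2.1, H _ t1855.2.2.2.2.2.2.1⟩, ⟨H _ t1855.2.2.2.2.2.2.2, H _ t1863.1⟩⟩⟩, ⟨⟨⟨H _ t1863.2.1, H _ t1863.2.2.1⟩, ⟨H _ t1863.2.2.2.1, H _ t1863.2.2.2.2.1⟩⟩, ⟨⟨H _ t1863.2.2.2.2.2.1, H _ t1863.2.2.2.2.2.2.1⟩, ⟨H _ t1863.2.2.2.2.2.2.2, ⟨H _ t1871.1, H _ t1871.2.1⟩⟩⟩⟩⟩, ⟨⟨⟨⟨H _ t1871.2.2.1, H _ t1871.2.2.2.1⟩, ⟨H _ t1871.2.2.2.2.1, H _ t1871.2.2.2.2.2.1⟩⟩, ⟨⟨H _ t1871.2.2.2.2.2.2.1, H _ t1871.2.2.2.2.2.2.2⟩, ⟨H _ t1879.1, ⟨H _ t1879.2.1, H _ t1879.2.2.1⟩⟩⟩⟩, ⟨⟨⟨H _ t1879.2.2.2.1, H _ t1879.2.2.2.2.1⟩, ⟨H _ t1879.2.2.2.2.2.1, H _ t1879.2.2.2.2.2.2.1⟩⟩, ⟨⟨H _ t1879.2.2.2.2.2.2.2, H _ t1887.1⟩, ⟨H _ t1887.2.1, ⟨H _ t1887.2.2.1, H _ t1887.2.2.2.1⟩⟩⟩⟩⟩⟩⟩⟩⟩, ⟨⟨⟨⟨⟨⟨⟨⟨H _ t1887.2.2.2.2.1, H _ t1887.2.2.2.2.2.1⟩, ⟨H _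 t1887.2.2.2.2.2.2.1, H _ t1887.2.2.2.2.2.2.2⟩⟩, ⟨⟨H _ t1895.1, H _ t1895.2.1⟩, ⟨H _ t1895.2.2.1, H _ t1895.2.2.2.1⟩⟩⟩, ⟨⟨⟨H _ t1895.2.2.2.2.1, H _ t1895.2.2.2.2.2.1⟩, ⟨H _ t1895.2.2.2.2.2.2.1, H _ t1895.2.2.2.2.2.2.2⟩⟩, ⟨⟨H _ t1903.1, H _ t1903.2.1⟩, ⟨H _ t1903.2.2.1, ⟨H _ t1903.2.2.2.1, H _ t1903.2.2.2.2.1⟩⟩⟩⟩⟩, ⟨⟨⟨⟨H _ t1903.2.2.2.2.2.1, H _ t1903.2.2.2.2.2.2.1⟩, ⟨H _ t1903.2.2.2.2.2.2.2, H _ t1911.1⟩⟩, ⟨⟨H _ t1911.2.1, H _ t1911.2.2.1⟩, ⟨H _ t1911.2.2.2.1, H _ t1911.2.2.2.2.1⟩⟩⟩, ⟨⟨⟨H _ t1911.2.2.2.2.2.1, H _ t1911.2.2.2.2.2.2.1⟩, ⟨H _ t1911.2.2.2.2.2.2.2, H _ t1919.1⟩⟩, ⟨⟨H _ t1919.2.1, H _ t1919.2.2.1⟩, ⟨H _ t1919.2.2.2.1, ⟨H _ t1919.2.2.2.2.1, H _ t1919.2.2.2.2.2.1⟩⟩⟩⟩⟩⟩, ⟨⟨⟨⟨⟨H _ t1919.2.2.2.2.2.2.1, H _ t1919.2.2.2.2.2.2.2⟩, ⟨H _ t1927.1, H _ t1927.2.1⟩⟩, ⟨⟨H _ t1927.2.2.1, H _ t1927.2.2.2.1⟩, ⟨H _ t1927.2.2.2.2.1, H _ t1927.2.2.2.2.2.1⟩⟩⟩, ⟨⟨⟨H _ t1927.2.2.2.2.2.2.1,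 H _ t1927.2.2.2.2.2.2.2⟩, ⟨H _ t1935.1, H _ t1935.2.1⟩⟩, ⟨⟨H _ t1935.2.2.1, H _ t1935.2.2.2.1⟩, ⟨H _ t1935.2.2.2.2.1, ⟨H _ t1935.2.2.2.2.2.1, H _ t1935.2.2.2.2.2.2.1⟩⟩⟩⟩⟩, ⟨⟨⟨⟨H _ t1935.2.2.2.2.2.2.2, H _ t1943.1⟩, ⟨H _ t1943.2.1, H _ t1943.2.2.1⟩⟩, ⟨⟨H _ t1943.2.2.2.1, H _ t1943.2.2.2.2.1⟩, ⟨H _ t1943.2.2.2.2.2.1, ⟨H _ t1943.2.2.2.2.2.2.1, H _ t1943.2.2.2.2.2.2.2⟩⟩⟩⟩, ⟨⟨⟨H _ t1951.1, H _ t1951.2.1⟩, ⟨H _ t1951.2.2.1, H _ t1951.2.2.2.1⟩⟩, ⟨⟨H _ t1951.2.2.2.2.1, H _ t1951.2.2.2.2.2.1⟩, ⟨H _ t1951.2.2.2.2.2.2.1, ⟨H _ t1951.2.2.2.2.2.2.2, H _ t1959.1⟩⟩⟩⟩⟩⟩⟩, ⟨⟨⟨⟨⟨⟨H _ t1959.2.1, H _ t1959.2.2.1⟩, ⟨H _ t1959.2.2.2.1, H _ t1959.2.2.2.2.1⟩⟩, ⟨⟨H _ t1959.2.2.2.2.2.1, H _ t1959.2.2.2.2.2.2.1⟩, ⟨H _ t1959.2.2.2.2.2.2.2, H _ t1967.1⟩⟩⟩, ⟨⟨⟨H _ t1967.2.1, H _ t1967.2.2.1⟩, ⟨H _ t1967.2.2.2.1, H _ t1967.2.2.2.2.1⟩⟩, ⟨⟨H _ t1967.2.2.2.2.2.1, H _ t1967.2.2.2.2.2.2.1⟩, ⟨H _ t1967.2.2.2.2.2.2.2,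 ⟨H _ t1975.1, H _ t1975.2.1⟩⟩⟩⟩⟩, ⟨⟨⟨⟨H _ t1975.2.2.1, H _ t1975.2.2.2.1⟩, ⟨H _ t1975.2.2.2.2.1, H _ t1975.2.2.2.2.2.1⟩⟩, ⟨⟨H _ t1975.2.2.2.2.2.2.1, H _ t1975.2.2.2.2.2.2.2⟩, ⟨H _ t1983.1, H _ t1983.2.1⟩⟩⟩, ⟨⟨⟨H _ t1983.2.2.1, H _ t1983.2.2.2.1⟩, ⟨H _ t1983.2.2.2.2.1, H _ t1983.2.2.2.2.2.1⟩⟩, ⟨⟨H _ t1983.2.2.2.2.2.2.1, H _ t1983.2.2.2.2.2.2.2⟩, ⟨H _ t1991.1, ⟨H _ t1991.2.1, H _ t1991.2.2.1⟩⟩⟩⟩⟩⟩, ⟨⟨⟨⟨⟨H _ t1991.2.2.2.1, H _ t1991.2.2.2.2.1⟩, ⟨H _ t1991.2.2.2.2.2.1, H _ t1991.2.2.2.2.2.2.1⟩⟩, ⟨⟨H _ t1991.2.2.2.2.2.2.2, H _ t1999.1⟩, ⟨H _ t1999.2.1, H _ t1999.2.2.1⟩⟩⟩, ⟨⟨⟨H _ t1999.2.2.2.1, H _ t1999.2.2.2.2.1⟩, ⟨H _ t1999.2.2.2.2.2.1, H _ t1999.2.2.2.2.2.2.1⟩⟩, ⟨⟨H _ t1999.2.2.2.2.2.2.2, H _ t2007.1⟩, ⟨H _ t2007.2.1, ⟨H _ t2007.2.2.1, H _ t2007.2.2.2.1⟩⟩⟩⟩⟩, ⟨⟨⟨⟨H _ t2007.2.2.2.2.1, H _ t2007.2.2.2.2.2.1⟩, ⟨H _ t2007.2.2.2.2.2.2.1, H _ t2007.2.2.2.2.2.2.2⟩⟩, ⟨⟨H _ t2015.1,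 H _ t2015.2.1⟩, ⟨H _ t2015.2.2.1, ⟨H _ t2015.2.2.2.1, H _ t2015.2.2.2.2.1⟩⟩⟩⟩, ⟨⟨⟨H _ t2015.2.2.2.2.2.1, H _ t2015.2.2.2.2.2.2.1⟩, ⟨H _ t2015.2.2.2.2.2.2.2, H _ t2023.1⟩⟩, ⟨⟨H _ t2023.2.1, H _ t2023.2.2.1⟩, ⟨H _ t2023.2.2.2.1, ⟨H _ t2023.2.2.2.2.1, H _ t2023.2.2.2.2.2.1⟩⟩⟩⟩⟩⟩⟩⟩, ⟨⟨⟨⟨⟨⟨⟨H _ t2023.2.2.2.2.2.2.1, H _ t2023.2.2.2.2.2.2.2⟩, ⟨H _ t2031.1, H _ t2031.2.1⟩⟩, ⟨⟨H _ t2031.2.2.1, H _ t2031.2.2.2.1⟩, ⟨H _ t2031.2.2.2.2.1, H _ t2031.2.2.2.2.2.1⟩⟩⟩, ⟨⟨⟨H _ t2031.2.2.2.2.2.2.1, H _ t2031.2.2.2.2.2.2.2⟩, ⟨H _ t2039.1, H _ t2039.2.1⟩⟩, ⟨⟨H _ t2039.2.2.1, H _ t2039.2.2.2.1⟩, ⟨H _ t2039.2.2.2.2.1, ⟨H _ t2039.2.2.2.2.2.1, H _ t2039.2.2.2.2.2.2.1⟩⟩⟩⟩⟩, ⟨⟨⟨⟨H _ t2039.2.2.2.2.2.2.2, H _ t2047.1⟩, ⟨H _ t2047.2.1, H _ t2047.2.2.1⟩⟩, ⟨⟨H _ t2047.2.2.2.1, H _ t2047.2.2.2.2.1⟩, ⟨H _ t2047.2.2.2.2.2.1, H _ t2047.2.2.2.2.2.2.1⟩⟩⟩, ⟨⟨⟨H _ t2047.2.2.2.2.2.2.2, H _ t2055.1⟩, ⟨H _ t2055.2.1,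 H _ t2055.2.2.1⟩⟩, ⟨⟨H _ t2055.2.2.2.1, H _ t2055.2.2.2.2.1⟩, ⟨H _ t2055.2.2.2.2.2.1, ⟨H _ t2055.2.2.2.2.2.2.1, H _ t2055.2.2.2.2.2.2.2⟩⟩⟩⟩⟩⟩, ⟨⟨⟨⟨⟨H _ t2063.1, H _ t2063.2.1⟩, ⟨H _ t2063.2.2.1, H _ t2063.2.2.2.1⟩⟩, ⟨⟨H _ t2063.2.2.2.2.1, H _ t2063.2.2.2.2.2.1⟩, ⟨H _ t2063.2.2.2.2.2.2.1, H _ t2063.2.2.2.2.2.2.2⟩⟩⟩, ⟨⟨⟨H _ t2071.1, H _ t2071.2.1⟩, ⟨H _ t2071.2.2.1, H _ t2071.2.2.2.1⟩⟩, ⟨⟨H _ t2071.2.2.2.2.1, H _ t2071.2.2.2.2.2.1⟩, ⟨H _ t2071.2.2.2.2.2.2.1, ⟨H _ t2071.2.2.2.2.2.2.2, H _ t2079.1⟩⟩⟩⟩⟩, ⟨⟨⟨⟨H _ t2079.2.1, H _ t2079.2.2.1⟩, ⟨H _ t2079.2.2.2.1, H _ t2079.2.2.2.2.1⟩⟩, ⟨⟨H _ t2079.2.2.2.2.2.1, H _ t2079.2.2.2.2.2.2.1⟩, ⟨H _ t2079.2.2.2.2.2.2.2, ⟨H _ t2087.1, H _ t2087.2.1⟩⟩⟩⟩, ⟨⟨⟨H _ t2087.2.2.1, H _ t2087.2.2.2.1⟩, ⟨H _ t2087.2.2.2.2.1, H _ t2087.2.2.2.2.2.1⟩⟩, ⟨⟨H _ t2087.2.2.2.2.2.2.1, H _ t2087.2.2.2.2.2.2.2⟩, ⟨H _ t2095.1, ⟨H _ t2095.2.1, H _ t2095.2.2.1⟩⟩⟩⟩⟩⟩⟩,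 ⟨⟨⟨⟨⟨⟨H _ t2095.2.2.2.1, H _ t2095.2.2.2.2.1⟩, ⟨H _ t2095.2.2.2.2.2.1, H _ t2095.2.2.2.2.2.2.1⟩⟩, ⟨⟨H _ t2095.2.2.2.2.2.2.2, H _ t2103.1⟩, ⟨H _ t2103.2.1, H _ t2103.2.2.1⟩⟩⟩, ⟨⟨⟨H _ t2103.2.2.2.1, H _ t2103.2.2.2.2.1⟩, ⟨H _ t2103.2.2.2.2.2.1, H _ t2103.2.2.2.2.2.2.1⟩⟩, ⟨⟨H _ t2103.2.2.2.2.2.2.2, H _ t2111.1⟩, ⟨H _ t2111.2.1, ⟨H _ t2111.2.2.1, H _ t2111.2.2.2.1⟩⟩⟩⟩⟩, ⟨⟨⟨⟨H _ t2111.2.2.2.2.1, H _ t2111.2.2.2.2.2.1⟩, ⟨H _ t2111.2.2.2.2.2.2.1, H _ t2111.2.2.2.2.2.2.2⟩⟩, ⟨⟨H _ t2119.1, H _ t2119.2.1⟩, ⟨H _ t2119.2.2.1, ⟨H _ t2119.2.2.2.1, H _ t2119.2.2.2.2.1⟩⟩⟩⟩, ⟨⟨⟨H _ t2119.2.2.2.2.2.1, H _ t2119.2.2.2.2.2.2.1⟩, ⟨H _ t2119.2.2.2.2.2.2.2, H _ t2127.1⟩⟩, ⟨⟨H _ t2127.2.1, H _ t2127.2.2.1⟩, ⟨H _ t2127.2.2.2.1, ⟨H _ t2127.2.2.2.2.1, H _ t2127.2.2.2.2.2.1⟩⟩⟩⟩⟩⟩, ⟨⟨⟨⟨⟨H _ t2127.2.2.2.2.2.2.1, H _ t2127.2.2.2.2.2.2.2⟩, ⟨H _ t2135.1, H _ t2135.2.1⟩⟩, ⟨⟨H _ t2135.2.2.1, H _ t2135.2.2.2.1⟩,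 ⟨H _ t2135.2.2.2.2.1, H _ t2135.2.2.2.2.2.1⟩⟩⟩, ⟨⟨⟨H _ t2135.2.2.2.2.2.2.1, H _ t2135.2.2.2.2.2.2.2⟩, ⟨H _ t2143.1, H _ t2143.2.1⟩⟩, ⟨⟨H _ t2143.2.2.1, H _ t2143.2.2.2.1⟩, ⟨H _ t2143.2.2.2.2.1, ⟨H _ t2143.2.2.2.2.2.1, H _ t2143.2.2.2.2.2.2.1⟩⟩⟩⟩⟩, ⟨⟨⟨⟨H _ t2143.2.2.2.2.2.2.2, H _ t2151.1⟩, ⟨H _ t2151.2.1, H _ t2151.2.2.1⟩⟩, ⟨⟨H _ t2151.2.2.2.1, H _ t2151.2.2.2.2.1⟩, ⟨H _ t2151.2.2.2.2.2.1, ⟨H _ t2151.2.2.2.2.2.2.1, H _ t2151.2.2.2.2.2.2.2⟩⟩⟩⟩, ⟨⟨⟨H _ t2159.1, H _ t2159.2.1⟩, ⟨H _ t2159.2.2.1, H _ t2159.2.2.2.1⟩⟩, ⟨⟨H _ t2159.2.2.2.2.1, H _ t2159.2.2.2.2.2.1⟩, ⟨H _ t2159.2.2.2.2.2.2.1, ⟨H _ t2159.2.2.2.2.2.2.2, H _ t2167⟩⟩⟩⟩⟩⟩⟩⟩⟩⟩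

end Pool.Agent.MP_c853c5_nt.X.C4950
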