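import Pool.Agent.MP_c853c5_nt.X.C4950.Env
import Pool.Agent.MP_c853c5_nt.X.C4950.D6

set_option autoImplicit false
set_option maxRecDepth 8192
set_option linter.all false

namespace Pool.Agent.MP_c853c5_nt.X.C4950

open Pool.Agent.MP_c853c5_nt.X

def t16813 : allY (E.wth (lkp [])) l16813 = true ∧
    allY (E.wth (lkp [])) l16814 = true ∧
    allY (E.wth (lkp [])) l16815 = true ∧
    allY (E.wth (lkp [])) l16816 = true ∧
    allY (E.wth (lkp [])) l16817 = true ∧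
    allY (E.wth (lkp [])) l16818 = true ∧
    allY (E.wth (lkp [])) l16819 = true ∧
    allY (E.wth (lkp [])) l16820 = true :=
  ⟨by decide +kernel, by decide +kernel, by decide +kernel, by decide +kernel, by decide +kernel, by decide +kernel, by decide +kernel, by decide +kernel⟩

def t16821 : allY (E.wth (lkp [])) l16821 = true ∧
    allY (E.wth (lkp [])) l16822 = true ∧
    allY (E.wth (lkp [])) l16823 = true ∧
    allY (E.wth (lkp [])) l16824 = true ∧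
    allY (E.wth (lkp [])) l16825 = true ∧
    allY (E.wth (lkp [])) l16826 = true ∧
    allY (E.wth (lkp [])) l16827 = true ∧
    allY (E.wth (lkp [])) l16828 = true :=
  ⟨by decide +kernel, by decide +kernel, by decide +kernel, by decide +kernel, by decide +kernel, by decide +kernel, by decide +kernel, by decide +kernel⟩

def t16829 : allY (E.wth (lkp [])) l16829 = true ∧
    allY (E.wth (lkp [])) l16830 = true ∧
    allY (E.wth (lkp [])) l16831 = true ∧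
    allY (E.wth (lkp [])) l16832 = true ∧
    allY (E.wth (lkp [])) l16833 = true ∧
    allY (E.wth (lkp [])) l16834 = true ∧
    allY (E.wth (lkp [])) l16835 = true ∧
    allY (E.wth (lkp [])) l16836 = true :=
  ⟨by decide +kernel, by decide +kernel, by decide +kernel, by decide +kernel, by decide +kernel, by decide +kernel, by decide +kernel, by decide +kernel⟩

def t16837 : allY (E.wth (lkp [])) l16837 = true ∧
    allY (E.wth (lkp [])) l16838 = true ∧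
    allY (E.wth (lkp [])) l16839 = true ∧
    allY (E.wth (lkp [])) l16840 = true ∧
    allY (E.wth (lkp [])) l16841 = true ∧
    allY (E.wth (lkp [])) l16842 = true ∧
    allY (E.wth (lkp [])) l16843 = true ∧
    allY (E.wth (lkp [])) l16844 = true :=
  ⟨by decide +kernel, by decide +kernel, by decide +kernel, by decide +kernel, by decide +kernel, by decide +kernel, by decide +kernel, by decide +kernel⟩

def t16845 : allY (E.wth (lkp [])) l16845 = true ∧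
    allY (E.wth (lkp [])) l16846 = true ∧
    allY (E.wth (lkp [])) l16847 = true ∧
    allY (E.wth (lkp [])) l16848 = true ∧
    allY (E.wth (lkp [])) l16849 = true ∧
    allY (E.wth (lkp [])) l16850 = true ∧
    allY (E.wth (lkp [])) l16851 = true ∧
    allY (E.wth (lkp [])) l16852 = true :=
  ⟨by decide +kernel, by decide +kernel, by decide +kernel, by decide +kernel, by decide +kernel, by decide +kernel, by decide +kernel, by decide +kernel⟩

def t16853 : allY (E.wth (lkp [])) l16853 = true ∧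
    allY (E.wth (lkp [])) l16854 = true ∧
    allY (E.wth (lkp [])) l16855 = true ∧
    allY (E.wth (lkp [])) l16856 = true ∧
    allY (E.wth (lkp [])) l16857 = true ∧
    allY (E.wth (lkp [])) l16858 = true ∧
    allY (E.wth (lkp [])) l16859 = true ∧
    allY (E.wth (lkp [])) l16860 = true :=
  ⟨by decide +kernel, by decide +kernel, by decide +kernel, by decide +kernel, by decide +kernel, by decide +kernel, by decide +kernel, by decide +kernel⟩

def t16861 : allY (E.wth (lkp [])) l16861 = true ∧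
    allY (E.wth (lkp [])) l16862 = true ∧
    allY (E.wth (lkp [])) l16863 = true ∧
    allY (E.wth (lkp [])) l16864 = true ∧
    allY (E.wth (lkp [])) l16865 = true ∧
    allY (E.wth (lkp [])) l16866 = true ∧
    allY (E.wth (lkp [])) l16867 = true ∧
    allY (E.wth (lkp [])) l16868 = true :=
  ⟨by decide +kernel, by decide +kernel, by decide +kernel, by decide +kernel, by decide +kernel, by decide +kernel, by decide +kernel, by decide +kernel⟩

def t16869 : allY (E.wth (lkp [])) l16869 = true ∧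
    allY (E.wth (lkp [])) l16870 = true ∧
    allY (E.wth (lkp [])) l16871 = true ∧
    allY (E.wth (lkp [])) l16872 = true ∧
    allY (E.wth (lkp [])) l16873 = true ∧
    allY (E.wth (lkp [])) l16874 = true ∧
    allY (E.wth (lkp [])) l16875 = true ∧
    allY (E.wth (lkp [])) l16876 = true :=
  ⟨by decide +kernel, by decide +kernel, by decide +kernel, by decide +kernel, by decide +kernel, by decide +kernel, by decide +kernel, by decide +kernel⟩

def t16877 : allY (E.wth (lkp [])) l16877 = true ∧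
    allY (E.wth (lkp [])) l16878 = true ∧
    allY (E.wth (lkp [])) l16879 = true ∧
    allY (E.wth (lkp [])) l16880 = true ∧
    allY (E.wth (lkp [])) l16881 = true ∧
    allY (E.wth (lkp [])) l16882 = true ∧
    allY (E.wth (lkp [])) l16883 = true ∧
    allY (E.wth (lkp [])) l16884 = true :=
  ⟨by decide +kernel, by decide +kernel, by decide +kernel, by decide +kernel, by decide +kernel, by decide +kernel, by decide +kernel, by decide +kernel⟩

def t16885 : allY (E.wth (lkp [])) l16885 = true ∧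
    allY (E.wth (lkp [])) l16886 = true ∧
    allY (E.wth (lkp [])) l16887 = true ∧
    allY (E.wth (lkp [])) l16888 = true ∧
    allY (E.wth (lkp [])) l16889 = true ∧
    allY (E.wth (lkp [])) l16890 = true ∧
    allY (E.wth (lkp [])) l16891 = true ∧
    allY (E.wth (lkp [])) l16892 = true :=
  ⟨by decide +kernel, by decide +kernel, by decide +kernel, by decide +kernel, by decide +kernel, by decide +kernel, by decide +kernel, by decide +kernel⟩

def t16893 : allY (E.wth (lkp [])) l16893 = true ∧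
    allY (E.wth (lkp [])) l16894 = true ∧
    allY (E.wth (lkp [])) l16895 = true ∧
    allY (E.wth (lkp [])) l16896 = true ∧
    allY (E.wth (lkp [])) l16897 = true ∧
    allY (E.wth (lkp [])) l16898 = true ∧
    allY (E.wth (lkp [])) l16899 = true ∧
    allY (E.wth (lkp [])) l16900 = true :=
  ⟨by decide +kernel, by decide +kernel, by decide +kernel, by decide +kernel, by decide +kernel, by decide +kernel, by decide +kernel, by decide +kernel⟩

def t16901 : allY (E.wth (lkp [])) l16901 = true ∧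
    allY (E.wth (lkp [])) l16902 = true ∧
    allY (E.wth (lkp [])) l16903 = true ∧
    allY (E.wth (lkp [])) l16904 = true ∧
    allY (E.wth (lkp [])) l16905 = true ∧
    allY (E.wth (lkp [])) l16906 = true ∧
    allY (E.wth (lkp [])) l16907 = true ∧
    allY (E.wth (lkp [])) l16908 = true :=
  ⟨by decide +kernel, by decide +kernel, by decide +kernel, by decide +kernel, by decide +kernel, by decide +kernel, by decide +kernel, by decide +kernel⟩

def t16909 : allY (E.wth (lkp [])) l16909 = true ∧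
    allY (E.wth (lkp [])) l16910 = true ∧
    allY (E.wth (lkp [])) l16911 = true ∧
    allY (E.wth (lkp [])) l16912 = true ∧
    allY (E.wth (lkp [])) l16913 = true ∧
    allY (E.wth (lkp [])) l16914 = true ∧
    allY (E.wth (lkp [])) l16915 = true ∧
    allY (E.wth (lkp [])) l16916 = true :=
  ⟨by decide +kernel, by decide +kernel, by decide +kernel, by decide +kernel, by decide +kernel, by decide +kernel, by decide +kernel, by decide +kernel⟩

def t16917 : allY (E.wth (lkp [])) l16917 = true ∧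
    allY (E.wth (lkp [])) l16918 = true ∧
    allY (E.wth (lkp [])) l16919 = true ∧
    allY (E.wth (lkp [])) l16920 = true ∧
    allY (E.wth (lkp [])) l16921 = true ∧
    allY (E.wth (lkp [])) l16922 = true ∧
    allY (E.wth (lkp [])) l16923 = true ∧
    allY (E.wth (lkp [])) l16924 = true :=
  ⟨by decide +kernel, by decide +kernel, by decide +kernel, by decide +kernel, by decide +kernel, by decide +kernel, by decide +kernel, by decide +kernel⟩

def t16925 : allY (E.wth (lkp [])) l16925 = true ∧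
    allY (E.wth (lkp [])) l16926 = true ∧
    allY (E.wth (lkp [])) l16927 = true ∧
    allY (E.wth (lkp [])) l16928 = true ∧
    allY (E.wth (lkp [])) l16929 = true ∧
    allY (E.wth (lkp [])) l16930 = true ∧
    allY (E.wth (lkp [])) l16931 = true ∧
    allY (E.wth (lkp [])) l16932 = true :=
  ⟨by decide +kernel, by decide +kernel, by decide +kernel, by decide +kernel, by decide +kernel, by decide +kernel, by decide +kernel, by decide +kernel⟩

def t16933 : allY (E.wth (lkp [])) l16933 = true ∧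
    allY (E.wth (lkp [])) l16934 = true ∧
    allY (E.wth (lkp [])) l16935 = true ∧
    allY (E.wth (lkp [])) l16936 = true ∧
    allY (E.wth (lkp [])) l16937 = true ∧
    allY (E.wth (lkp [])) l16938 = true ∧
    allY (E.wth (lkp [])) l16939 = true ∧
    allY (E.wth (lkp [])) l16940 = true :=
  ⟨by decide +kernel, by decide +kernel, by decide +kernel, by decide +kernel, by decide +kernel, by decide +kernel, by decide +kernel, by decide +kernel⟩

def t16941 : allY (E.wth (lkp [])) l16941 = true ∧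
    allY (E.wth (lkp [])) l16942 = true ∧
    allY (E.wth (lkp [])) l16943 = true ∧
    allY (E.wth (lkp [])) l16944 = true ∧
    allY (E.wth (lkp [])) l16945 = true ∧
    allY (E.wth (lkp [])) l16946 = true ∧
    allY (E.wth (lkp [])) l16947 = true ∧
    allY (E.wth (lkp [])) l16948 = true :=
  ⟨by decide +kernel, by decide +kernel, by decide +kernel, by decide +kernel, by decide +kernel, by decide +kernel, by decide +kernel, by decide +kernel⟩

def t16949 : allY (E.wth (lkp [])) l16949 = true ∧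
    allY (E.wth (lkp [])) l16950 = true ∧
    allY (E.wth (lkp [])) l16951 = true ∧
    allY (E.wth (lkp [])) l16952 = true ∧
    allY (E.wth (lkp [])) l16953 = true ∧
    allY (E.wth (lkp [])) l16954 = true ∧
    allY (E.wth (lkp [])) l16955 = true ∧
    allY (E.wth (lkp [])) l16956 = true :=
  ⟨by decide +kernel, by decide +kernel, by decide +kernel, by decide +kernel, by decide +kernel, by decide +kernel, by decide +kernel, by decide +kernel⟩

def t16957 : allY (E.wth (lkp [])) l16957 = true ∧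
    allY (E.wth (lkp [])) l16958 = true ∧
    allY (E.wth (lkp [])) l16959 = true ∧
    allY (E.wth (lkp [])) l16960 = true ∧
    allY (E.wth (lkp [])) l16961 = true ∧
    allY (E.wth (lkp [])) l16962 = true ∧
    allY (E.wth (lkp [])) l16963 = true ∧
    allY (E.wth (lkp [])) l16964 = true :=
  ⟨by decide +kernel, by decide +kernel, by decide +kernel, by decide +kernel, by decide +kernel, by decide +kernel, by decide +kernel, by decide +kernel⟩

def t16965 : allY (E.wth (lkp [])) l16965 = true ∧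
    allY (E.wth (lkp [])) l16966 = true ∧
    allY (E.wth (lkp [])) l16967 = true ∧
    allY (E.wth (lkp [])) l16968 = true ∧
    allY (E.wth (lkp [])) l16969 = true ∧
    allY (E.wth (lkp [])) l16970 = true ∧
    allY (E.wth (lkp [])) l16971 = true ∧
    allY (E.wth (lkp [])) l16972 = true :=
  ⟨by decide +kernel, by decide +kernel, by decide +kernel, by decide +kernel, by decide +kernel, by decide +kernel, by decide +kernel, by decide +kernel⟩

def t16973 : allY (E.wth (lkp [])) l16973 = true ∧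
    allY (E.wth (lkp [])) l16974 = true ∧
    allY (E.wth (lkp [])) l16975 = true ∧
    allY (E.wth (lkp [])) l16976 = true ∧
    allY (E.wth (lkp [])) l16977 = true ∧
    allY (E.wth (lkp [])) l16978 = true ∧
    allY (E.wth (lkp [])) l16979 = true ∧
    allY (E.wth (lkp [])) l16980 = true :=
  ⟨by decide +kernel, by decide +kernel, by decide +kernel, by decide +kernel, by decide +kernel, by decide +kernel, by decide +kernel, by decide +kernel⟩

def t16981 : allY (E.wth (lkp [])) l16981 = true ∧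
    allY (E.wth (lkp [])) l16982 = true ∧
    allY (E.wth (lkp [])) l16983 = true ∧
    allY (E.wth (lkp [])) l16984 = true ∧
    allY (E.wth (lkp [])) l16985 = true ∧
    allY (E.wth (lkp [])) l16986 = true ∧
    allY (E.wth (lkp [])) l16987 = true ∧
    allY (E.wth (lkp [])) l16988 = true :=
  ⟨by decide +kernel, by decide +kernel, by decide +kernel, by decide +kernel, by decide +kernel, by decide +kernel, by decide +kernel, by decide +kernel⟩

def t16989 : allY (E.wth (lkp [])) l16989 = true ∧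
    allY (E.wth (lkp [])) l16990 = true ∧
    allY (E.wth (lkp [])) l16991 = true ∧
    allY (E.wth (lkp [])) l16992 = true ∧
    allY (E.wth (lkp [])) l16993 = true ∧
    allY (E.wth (lkp [])) l16994 = true ∧
    allY (E.wth (lkp [])) l16995 = true ∧
    allY (E.wth (lkp [])) l16996 = true :=
  ⟨by decide +kernel, by decide +kernel, by decide +kernel, by decide +kernel, by decide +kernel, by decide +kernel, by decide +kernel, by decide +kernel⟩

def t16997 : allY (E.wth (lkp [])) l16997 = true ∧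
    allY (E.wth (lkp [])) l16998 = true ∧
    allY (E.wth (lkp [])) l16999 = true ∧
    allY (E.wth (lkp [])) l17000 = true ∧
    allY (E.wth (lkp [])) l17001 = true ∧
    allY (E.wth (lkp [])) l17002 = true ∧
    allY (E.wth (lkp [])) l17003 = true ∧
    allY (E.wth (lkp [])) l17004 = true :=
  ⟨by decide +kernel, by decide +kernel, by decide +kernel, by decide +kernel, by decide +kernel, by decide +kernel, by decide +kernel, by decide +kernel⟩

def t17005 : allY (E.wth (lkp [])) l17005 = true ∧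
    allY (E.wth (lkp [])) l17006 = true ∧
    allY (E.wth (lkp [])) l17007 = true ∧
    allY (E.wth (lkp [])) l17008 = true ∧
    allY (E.wth (lkp [])) l17009 = true ∧
    allY (E.wth (lkp [])) l17010 = true ∧
    allY (E.wth (lkp [])) l17011 = true ∧
    allY (E.wth (lkp [])) l17012 = true :=
  ⟨by decide +kernel, by decide +kernel, by decide +kernel, by decide +kernel, by decide +kernel, by decide +kernel, by decide +kernel, by decide +kernel⟩

def t17013 : allY (E.wth (lkp [])) l17013 = true ∧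
    allY (E.wth (lkp [])) l17014 = true ∧
    allY (E.wth (lkp [])) l17015 = true ∧
    allY (E.wth (lkp [])) l17016 = true ∧
    allY (E.wth (lkp [])) l17017 = true ∧
    allY (E.wth (lkp [])) l17018 = true ∧
    allY (E.wth (lkp [])) l17019 = true ∧
    allY (E.wth (lkp [])) l17020 = true :=
  ⟨by decide +kernel, by decide +kernel, by decide +kernel, by decide +kernel, by decide +kernel, by decide +kernel, by decide +kernel, by decide +kernel⟩

def t17021 : allY (E.wth (lkp [])) l17021 = true ∧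
    allY (E.wth (lkp [])) l17022 = true ∧
    allY (E.wth (lkp [])) l17023 = true ∧
    allY (E.wth (lkp [])) l17024 = true ∧
    allY (E.wth (lkp [])) l17025 = true ∧
    allY (E.wth (lkp [])) l17026 = true ∧
    allY (E.wth (lkp [])) l17027 = true ∧
    allY (E.wth (lkp [])) l17028 = true :=
  ⟨by decide +kernel, by decide +kernel, by decide +kernel, by decide +kernel, by decide +kernel, by decide +kernel, by decide +kernel, by decide +kernel⟩

def t17029 : allY (E.wth (lkp [])) l17029 = true ∧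
    allY (E.wth (lkp [])) l17030 = true ∧
    allY (E.wth (lkp [])) l17031 = true ∧
    allY (E.wth (lkp [])) l17032 = true ∧
    allY (E.wth (lkp [])) l17033 = true ∧
    allY (E.wth (lkp [])) l17034 = true ∧
    allY (E.wth (lkp [])) l17035 = true ∧
    allY (E.wth (lkp [])) l17036 = true :=
  ⟨by decide +kernel, by decide +kernel, by decide +kernel, by decide +kernel, by decide +kernel, by decide +kernel, by decide +kernel, by decide +kernel⟩

def t17037 : allY (E.wth (lkp [])) l17037 = true ∧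
    allY (E.wth (lkp [])) l17038 = true ∧
    allY (E.wth (lkp [])) l17039 = true ∧
    allY (E.wth (lkp [])) l17040 = true ∧
    allY (E.wth (lkp [])) l17041 = true ∧
    allY (E.wth (lkp [])) l17042 = true ∧
    allY (E.wth (lkp [])) l17043 = true ∧
    allY (E.wth (lkp [])) l17044 = true :=
  ⟨by decide +kernel, by decide +kernel, by decide +kernel, by decide +kernel, by decide +kernel, by decide +kernel, by decide +kernel, by decide +kernel⟩

def t17045 : allY (E.wth (lkp [])) l17045 = true ∧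
    allY (E.wth (lkp [])) l17046 = true ∧
    allY (E.wth (lkp [])) l17047 = true ∧
    allY (E.wth (lkp [])) l17048 = true ∧
    allY (E.wth (lkp [])) l17049 = true ∧
    allY (E.wth (lkp [])) l17050 = true ∧
    allY (E.wth (lkp [])) l17051 = true ∧
    allY (E.wth (lkp [])) l17052 = true :=
  ⟨by decide +kernel, by decide +kernel, by decide +kernel, by decide +kernel, by decide +kernel, by decide +kernel, by decide +kernel, by decide +kernel⟩

def t17053 : allY (E.wth (lkp [])) l17053 = true ∧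
    allY (E.wth (lkp [])) l17054 = true ∧
    allY (E.wth (lkp [])) l17055 = true ∧
    allY (E.wth (lkp [])) l17056 = true ∧
    allY (E.wth (lkp [])) l17057 = true ∧
    allY (E.wth (lkp [])) l17058 = true ∧
    allY (E.wth (lkp [])) l17059 = true ∧
    allY (E.wth (lkp [])) l17060 = true :=
  ⟨by decide +kernel, by decide +kernel, by decide +kernel, by decide +kernel, by decide +kernel, by decide +kernel, by decide +kernel, by decide +kernel⟩

def t17061 : allY (E.wth (lkp [])) l17061 = true ∧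
    allY (E.wth (lkp [])) l17062 = true ∧
    allY (E.wth (lkp [])) l17063 = true ∧
    allY (E.wth (lkp [])) l17064 = true ∧
    allY (E.wth (lkp [])) l17065 = true ∧
    allY (E.wth (lkp [])) l17066 = true ∧
    allY (E.wth (lkp [])) l17067 = true ∧
    allY (E.wth (lkp [])) l17068 = true :=
  ⟨by decide +kernel, by decide +kernel, by decide +kernel, by decide +kernel, by decide +kernel, by decide +kernel, by decide +kernel, by decide +kernel⟩

def t17069 : allY (E.wth (lkp [])) l17069 = true ∧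
    allY (E.wth (lkp [])) l17070 = true ∧
    allY (E.wth (lkp [])) l17071 = true ∧
    allY (E.wth (lkp [])) l17072 = true ∧
    allY (E.wth (lkp [])) l17073 = true ∧
    allY (E.wth (lkp [])) l17074 = true ∧
    allY (E.wth (lkp [])) l17075 = true ∧
    allY (E.wth (lkp [])) l17076 = true :=
  ⟨by decide +kernel, by decide +kernel, by decide +kernel, by decide +kernel, by decide +kernel, by decide +kernel, by decide +kernel, by decide +kernel⟩

def t17077 : allY (E.wth (lkp [])) l17077 = true ∧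
    allY (E.wth (lkp [])) l17078 = true ∧
    allY (E.wth (lkp [])) l17079 = true ∧
    allY (E.wth (lkp [])) l17080 = true ∧
    allY (E.wth (lkp [])) l17081 = true ∧
    allY (E.wth (lkp [])) l17082 = true ∧
    allY (E.wth (lkp [])) l17083 = true ∧
    allY (E.wth (lkp [])) l17084 = true :=
  ⟨by decide +kernel, by decide +kernel, by decide +kernel, by decide +kernel, by decide +kernel, by decide +kernel, by decide +kernel, by decide +kernel⟩

def t17085 : allY (E.wth (lkp [])) l17085 = true ∧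
    allY (E.wth (lkp [])) l17086 = true ∧
    allY (E.wth (lkp [])) l17087 = true ∧
    allY (E.wth (lkp [])) l17088 = true ∧
    allY (E.wth (lkp [])) l17089 = true ∧
    allY (E.wth (lkp [])) l17090 = true ∧
    allY (E.wth (lkp [])) l17091 = true ∧
    allY (E.wth (lkp [])) l17092 = true :=
  ⟨by decide +kernel, by decide +kernel, by decide +kernel, by decide +kernel, by decide +kernel, by decide +kernel, by decide +kernel, by decide +kernel⟩

def t17093 : allY (E.wth (lkp [])) l17093 = true ∧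
    allY (E.wth (lkp [])) l17094 = true ∧
    allY (E.wth (lkp [])) l17095 = true ∧
    allY (E.wth (lkp [])) l17096 = true ∧
    allY (E.wth (lkp [])) l17097 = true ∧
    allY (E.wth (lkp [])) l17098 = true ∧
    allY (E.wth (lkp [])) l17099 = true ∧
    allY (E.wth (lkp [])) l17100 = true :=
  ⟨by decide +kernel, by decide +kernel, by decide +kernel, by decide +kernel, by decide +kernel, by decide +kernel, by decide +kernel, by decide +kernel⟩

def t17101 : allY (E.wth (lkp [])) l17101 = true ∧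
    allY (E.wth (lkp [])) l17102 = true ∧
    allY (E.wth (lkp [])) l17103 = true ∧
    allY (E.wth (lkp [])) l17104 = true ∧
    allY (E.wth (lkp [])) l17105 = true ∧
    allY (E.wth (lkp [])) l17106 = true ∧
    allY (E.wth (lkp [])) l17107 = true ∧
    allY (E.wth (lkp [])) l17108 = true :=
  ⟨by decide +kernel, by decide +kernel, by decide +kernel, by decide +kernel, by decide +kernel, by decide +kernel, by decide +kernel, by decide +kernel⟩

def t17109 : allY (E.wth (lkp [])) l17109 = true ∧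
    allY (E.wth (lkp [])) l17110 = true ∧
    allY (E.wth (lkp [])) l17111 = true ∧
    allY (E.wth (lkp [])) l17112 = true ∧
    allY (E.wth (lkp [])) l17113 = true ∧
    allY (E.wth (lkp [])) l17114 = true ∧
    allY (E.wth (lkp [])) l17115 = true ∧
    allY (E.wth (lkp [])) l17116 = true :=
  ⟨by decide +kernel, by decide +kernel, by decide +kernel, by decide +kernel, by decide +kernel, by decide +kernel, by decide +kernel, by decide +kernel⟩

def t17117 : allY (E.wth (lkp [])) l17117 = true ∧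
    allY (E.wth (lkp [])) l17118 = true ∧
    allY (E.wth (lkp [])) l17119 = true ∧
    allY (E.wth (lkp [])) l17120 = true ∧
    allY (E.wth (lkp [])) l17121 = true ∧
    allY (E.wth (lkp [])) l17122 = true ∧
    allY (E.wth (lkp [])) l17123 = true ∧
    allY (E.wth (lkp [])) l17124 = true :=
  ⟨by decide +kernel, by decide +kernel, by decide +kernel, by decide +kernel, by decide +kernel, by decide +kernel, by decide +kernel, by decide +kernel⟩

def t17125 : allY (E.wth (lkp [])) l17125 = true ∧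
    allY (E.wth (lkp [])) l17126 = true ∧
    allY (E.wth (lkp [])) l17127 = true ∧
    allY (E.wth (lkp [])) l17128 = true ∧
    allY (E.wth (lkp [])) l17129 = true ∧
    allY (E.wth (lkp [])) l17130 = true ∧
    allY (E.wth (lkp [])) l17131 = true ∧
    allY (E.wth (lkp [])) l17132 = true :=
  ⟨by decide +kernel, by decide +kernel, by decide +kernel, by decide +kernel, by decide +kernel, by decide +kernel, by decide +kernel, by decide +kernel⟩

def t17133 : allY (E.wth (lkp [])) l17133 = true ∧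
    allY (E.wth (lkp [])) l17134 = true ∧
    allY (E.wth (lkp [])) l17135 = true ∧
    allY (E.wth (lkp [])) l17136 = true ∧
    allY (E.wth (lkp [])) l17137 = true ∧
    allY (E.wth (lkp [])) l17138 = true ∧
    allY (E.wth (lkp [])) l17139 = true ∧
    allY (E.wth (lkp [])) l17140 = true :=
  ⟨by decide +kernel, by decide +kernel, by decide +kernel, by decide +kernel, by decide +kernel, by decide +kernel, by decide +kernel, by decide +kernel⟩

def t17141 : allY (E.wth (lkp [])) l17141 = true ∧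
    allY (E.wth (lkp [])) l17142 = true ∧
    allY (E.wth (lkp [])) l17143 = true ∧
    allY (E.wth (lkp [])) l17144 = true ∧
    allY (E.wth (lkp [])) l17145 = true ∧
    allY (E.wth (lkp [])) l17146 = true ∧
    allY (E.wth (lkp [])) l17147 = true ∧
    allY (E.wth (lkp [])) l17148 = true :=
  ⟨by decide +kernel, by decide +kernel, by decide +kernel, by decide +kernel, by decide +kernel, by decide +kernel, by decide +kernel, by decide +kernel⟩

def t17149 : allY (E.wth (lkp [])) l17149 = true ∧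
    allY (E.wth (lkp [])) l17150 = true ∧
    allY (E.wth (lkp [])) l17151 = true ∧
    allY (E.wth (lkp [])) l17152 = true ∧
    allY (E.wth (lkp [])) l17153 = true ∧
    allY (E.wth (lkp [])) l17154 = true ∧
    allY (E.wth (lkp [])) l17155 = true ∧
    allY (E.wth (lkp [])) l17156 = true :=
  ⟨by decide +kernel, by decide +kernel, by decide +kernel, by decide +kernel, by decide +kernel, by decide +kernel, by decide +kernel, by decide +kernel⟩

def t17157 : allY (E.wth (lkp [])) l17157 = true ∧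
    allY (E.wth (lkp [])) l17158 = true ∧
    allY (E.wth (lkp [])) l17159 = true ∧
    allY (E.wth (lkp [])) l17160 = true ∧
    allY (E.wth (lkp [])) l17161 = true ∧
    allY (E.wth (lkp [])) l17162 = true ∧
    allY (E.wth (lkp [])) l17163 = true ∧
    allY (E.wth (lkp [])) l17164 = true :=
  ⟨by decide +kernel, by decide +kernel, by decide +kernel, by decide +kernel, by decide +kernel, by decide +kernel, by decide +kernel, by decide +kernel⟩

def t17165 : allY (E.wth (lkp [])) l17165 = true ∧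
    allY (E.wth (lkp [])) l17166 = true ∧
    allY (E.wth (lkp [])) l17167 = true ∧
    allY (E.wth (lkp [])) l17168 = true ∧
    allY (E.wth (lkp [])) l17169 = true ∧
    allY (E.wth (lkp [])) l17170 = true ∧
    allY (E.wth (lkp [])) l17171 = true ∧
    allY (E.wth (lkp [])) l17172 = true :=
  ⟨by decide +kernel, by decide +kernel, by decide +kernel, by decide +kernel, by decide +kernel, by decide +kernel, by decide +kernel, by decide +kernel⟩

def t17173 : allY (E.wth (lkp [])) l17173 = true ∧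
    allY (E.wth (lkp [])) l17174 = true ∧
    allY (E.wth (lkp [])) l17175 = true ∧
    allY (E.wth (lkp [])) l17176 = true ∧
    allY (E.wth (lkp [])) l17177 = true ∧
    allY (E.wth (lkp [])) l17178 = true ∧
    allY (E.wth (lkp [])) l17179 = true ∧
    allY (E.wth (lkp [])) l17180 = true :=
  ⟨by decide +kernel, by decide +kernel, by decide +kernel, by decide +kernel, by decide +kernel, by decide +kernel, by decide +kernel, by decide +kernel⟩

def t17181 : allY (E.wth (lkp [])) l17181 = true ∧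
    allY (E.wth (lkp [])) l17182 = true ∧
    allY (E.wth (lkp [])) l17183 = true ∧
    allY (E.wth (lkp [])) l17184 = true ∧
    allY (E.wth (lkp [])) l17185 = true ∧
    allY (E.wth (lkp [])) l17186 = true ∧
    allY (E.wth (lkp [])) l17187 = true ∧
    allY (E.wth (lkp [])) l17188 = true :=
  ⟨by decide +kernel, by decide +kernel, by decide +kernel, by decide +kernel, by decide +kernel, by decide +kernel, by decide +kernel, by decide +kernel⟩

def t17189 : allY (E.wth (lkp [])) l17189 = true ∧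
    allY (E.wth (lkp [])) l17190 = true ∧
    allY (E.wth (lkp [])) l17191 = true ∧
    allY (E.wth (lkp [])) l17192 = true ∧
    allY (E.wth (lkp [])) l17193 = true ∧
    allY (E.wth (lkp [])) l17194 = true ∧
    allY (E.wth (lkp [])) l17195 = true ∧
    allY (E.wth (lkp [])) l17196 = true :=
  ⟨by decide +kernel, by decide +kernel, by decide +kernel, by decide +kernel, by decide +kernel, by decide +kernel, by decide +kernel, by decide +kernel⟩

def t17197 : allY (E.wth (lkp [])) l17197 = true ∧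
    allY (E.wth (lkp [])) l17198 = true ∧
    allY (E.wth (lkp [])) l17199 = true ∧
    allY (E.wth (lkp [])) l17200 = true ∧
    allY (E.wth (lkp [])) l17201 = true ∧
    allY (E.wth (lkp [])) l17202 = true ∧
    allY (E.wth (lkp [])) l17203 = true ∧
    allY (E.wth (lkp [])) l17204 = true :=
  ⟨by decide +kernel, by decide +kernel, by decide +kernel, by decide +kernel, by decide +kernel, by decide +kernel, by decide +kernel, by decide +kernel⟩

def t17205 : allY (E.wth (lkp [])) l17205 = true ∧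
    allY (E.wth (lkp [])) l17206 = true ∧
    allY (E.wth (lkp [])) l17207 = true ∧
    allY (E.wth (lkp [])) l17208 = true ∧
    allY (E.wth (lkp [])) l17209 = true ∧
    allY (E.wth (lkp [])) l17210 = true ∧
    allY (E.wth (lkp [])) l17211 = true ∧
    allY (E.wth (lkp [])) l17212 = true :=
  ⟨by decide +kernel, by decide +kernel, by decide +kernel, by decide +kernel, by decide +kernel, by decide +kernel, by decide +kernel, by decide +kernel⟩

def t17213 : allY (E.wth (lkp [])) l17213 = true ∧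
    allY (E.wth (lkp [])) l17214 = true ∧
    allY (E.wth (lkp [])) l17215 = true ∧
    allY (E.wth (lkp [])) l17216 = true ∧
    allY (E.wth (lkp [])) l17217 = true ∧
    allY (E.wth (lkp [])) l17218 = true ∧
    allY (E.wth (lkp [])) l17219 = true ∧
    allY (E.wth (lkp [])) l17220 = true :=
  ⟨by decide +kernel, by decide +kernel, by decide +kernel, by decide +kernel, by decide +kernel, by decide +kernel, by decide +kernel, by decide +kernel⟩

def t17221 : allY (E.wth (lkp [])) l17221 = true ∧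
    allY (E.wth (lkp [])) l17222 = true ∧
    allY (E.wth (lkp [])) l17223 = true ∧
    allY (E.wth (lkp [])) l17224 = true ∧
    allY (E.wth (lkp [])) l17225 = true ∧
    allY (E.wth (lkp [])) l17226 = true ∧
    allY (E.wth (lkp [])) l17227 = true ∧
    allY (E.wth (lkp [])) l17228 = true :=
  ⟨by decide +kernel, by decide +kernel, by decide +kernel, by decide +kernel, by decide +kernel, by decide +kernel, by decide +kernel, by decide +kernel⟩

def t17229 : allY (E.wth (lkp [])) l17229 = true ∧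
    allY (E.wth (lkp [])) l17230 = true ∧
    allY (E.wth (lkp [])) l17231 = true ∧
    allY (E.wth (lkp [])) l17232 = true ∧
    allY (E.wth (lkp [])) l17233 = true ∧
    allY (E.wth (lkp [])) l17234 = true ∧
    allY (E.wth (lkp [])) l17235 = true ∧
    allY (E.wth (lkp [])) l17236 = true :=
  ⟨by decide +kernel, by decide +kernel, by decide +kernel, by decide +kernel, by decide +kernel, by decide +kernel, by decide +kernel, by decide +kernel⟩

def t17237 : allY (E.wth (lkp [])) l17237 = true ∧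
    allY (E.wth (lkp [])) l17238 = true ∧
    allY (E.wth (lkp [])) l17239 = true ∧
    allY (E.wth (lkp [])) l17240 = true ∧
    allY (E.wth (lkp [])) l17241 = true ∧
    allY (E.wth (lkp [])) l17242 = true ∧
    allY (E.wth (lkp [])) l17243 = true ∧
    allY (E.wth (lkp [])) l17244 = true :=
  ⟨by decide +kernel, by decide +kernel, by decide +kernel, by decide +kernel, by decide +kernel, by decide +kernel, by decide +kernel, by decide +kernel⟩

def t17245 : allY (E.wth (lkp [])) l17245 = true ∧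
    allY (E.wth (lkp [])) l17246 = true ∧
    allY (E.wth (lkp [])) l17247 = true ∧
    allY (E.wth (lkp [])) l17248 = true ∧
    allY (E.wth (lkp [])) l17249 = true ∧
    allY (E.wth (lkp [])) l17250 = true ∧
    allY (E.wth (lkp [])) l17251 = true ∧
    allY (E.wth (lkp [])) l17252 = true :=
  ⟨by decide +kernel, by decide +kernel, by decide +kernel, by decide +kernel, by decide +kernel, by decide +kernel, by decide +kernel, by decide +kernel⟩

def t17253 : allY (E.wth (lkp [])) l17253 = true ∧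
    allY (E.wth (lkp [])) l17254 = true ∧
    allY (E.wth (lkp [])) l17255 = true ∧
    allY (E.wth (lkp [])) l17256 = true ∧
    allY (E.wth (lkp [])) l17257 = true ∧
    allY (E.wth (lkp [])) l17258 = true ∧
    allY (E.wth (lkp [])) l17259 = true ∧
    allY (E.wth (lkp [])) l17260 = true :=
  ⟨by decide +kernel, by decide +kernel, by decide +kernel, by decide +kernel, by decide +kernel, by decide +kernel, by decide +kernel, by decide +kernel⟩

def t17261 : allY (E.wth (lkp [])) l17261 = true ∧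
    allY (E.wth (lkp [])) l17262 = true ∧
    allY (E.wth (lkp [])) l17263 = true ∧
    allY (E.wth (lkp [])) l17264 = true ∧
    allY (E.wth (lkp [])) l17265 = true ∧
    allY (E.wth (lkp [])) l17266 = true ∧
    allY (E.wth (lkp [])) l17267 = true ∧
    allY (E.wth (lkp [])) l17268 = true :=
  ⟨by decide +kernel, by decide +kernel, by decide +kernel, by decide +kernel, by decide +kernel, by decide +kernel, by decide +kernel, by decide +kernel⟩

def t17269 : allY (E.wth (lkp [])) l17269 = true ∧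
    allY (E.wth (lkp [])) l17270 = true ∧
    allY (E.wth (lkp [])) l17271 = true ∧
    allY (E.wth (lkp [])) l17272 = true ∧
    allY (E.wth (lkp [])) l17273 = true ∧
    allY (E.wth (lkp [])) l17274 = true ∧
    allY (E.wth (lkp [])) l17275 = true ∧
    allY (E.wth (lkp [])) l17276 = true :=
  ⟨by decide +kernel, by decide +kernel, by decide +kernel, by decide +kernel, by decide +kernel, by decide +kernel, by decide +kernel, by decide +kernel⟩

def t17277 : allY (E.wth (lkp [])) l17277 = true ∧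
    allY (E.wth (lkp [])) l17278 = true ∧
    allY (E.wth (lkp [])) l17279 = true ∧
    allY (E.wth (lkp [])) l17280 = true ∧
    allY (E.wth (lkp [])) l17281 = true ∧
    allY (E.wth (lkp [])) l17282 = true ∧
    allY (E.wth (lkp [])) l17283 = true ∧
    allY (E.wth (lkp [])) l17284 = true :=
  ⟨by decide +kernel, by decide +kernel, by decide +kernel, by decide +kernel, by decide +kernel, by decide +kernel, by decide +kernel, by decide +kernel⟩

def t17285 : allY (E.wth (lkp [])) l17285 = true ∧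
    allY (E.wth (lkp [])) l17286 = true ∧
    allY (E.wth (lkp [])) l17287 = true ∧
    allY (E.wth (lkp [])) l17288 = true ∧
    allY (E.wth (lkp [])) l17289 = true ∧
    allY (E.wth (lkp [])) l17290 = true ∧
    allY (E.wth (lkp [])) l17291 = true ∧
    allY (E.wth (lkp [])) l17292 = true :=
  ⟨by decide +kernel, by decide +kernel, by decide +kernel, by decide +kernel, by decide +kernel, by decide +kernel, by decide +kernel, by decide +kernel⟩

def t17293 : allY (E.wth (lkp [])) l17293 = true ∧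
    allY (E.wth (lkp [])) l17294 = true ∧
    allY (E.wth (lkp [])) l17295 = true ∧
    allY (E.wth (lkp [])) l17296 = true ∧
    allY (E.wth (lkp [])) l17297 = true ∧
    allY (E.wth (lkp [])) l17298 = true ∧
    allY (E.wth (lkp [])) l17299 = true ∧
    allY (E.wth (lkp [])) l17300 = true :=
  ⟨by decide +kernel, by decide +kernel, by decide +kernel, by decide +kernel, by decide +kernel, by decide +kernel, by decide +kernel, by decide +kernel⟩

def t17301 : allY (E.wth (lkp [])) l17301 = true ∧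
    allY (E.wth (lkp [])) l17302 = true ∧
    allY (E.wth (lkp [])) l17303 = true ∧
    allY (E.wth (lkp [])) l17304 = true ∧
    allY (E.wth (lkp [])) l17305 = true ∧
    allY (E.wth (lkp [])) l17306 = true ∧
    allY (E.wth (lkp [])) l17307 = true ∧
    allY (E.wth (lkp [])) l17308 = true :=
  ⟨by decide +kernel, by decide +kernel, by decide +kernel, by decide +kernel, by decide +kernel, by decide +kernel, by decide +kernel, by decide +kernel⟩

def t17309 : allY (E.wth (lkp [])) l17309 = true ∧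
    allY (E.wth (lkp [])) l17310 = true ∧
    allY (E.wth (lkp [])) l17311 = true ∧
    allY (E.wth (lkp [])) l17312 = true ∧
    allY (E.wth (lkp [])) l17313 = true ∧
    allY (E.wth (lkp [])) l17314 = true ∧
    allY (E.wth (lkp [])) l17315 = true ∧
    allY (E.wth (lkp [])) l17316 = true :=
  ⟨by decide +kernel, by decide +kernel, by decide +kernel, by decide +kernel, by decide +kernel, by decide +kernel, by decide +kernel, by decide +kernel⟩

def t17317 : allY (E.wth (lkp [])) l17317 = true ∧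
    allY (E.wth (lkp [])) l17318 = true ∧
    allY (E.wth (lkp [])) l17319 = true ∧
    allY (E.wth (lkp [])) l17320 = true ∧
    allY (E.wth (lkp [])) l17321 = true ∧
    allY (E.wth (lkp [])) l17322 = true ∧
    allY (E.wth (lkp [])) l17323 = true ∧
    allY (E.wth (lkp [])) l17324 = true :=
  ⟨by decide +kernel, by decide +kernel, by decide +kernel, by decide +kernel, by decide +kernel, by decide +kernel, by decide +kernel, by decide +kernel⟩

def t17325 : allY (E.wth (lkp [])) l17325 = true ∧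
    allY (E.wth (lkp [])) l17326 = true ∧
    allY (E.wth (lkp [])) l17327 = true ∧
    allY (E.wth (lkp [])) l17328 = true ∧
    allY (E.wth (lkp [])) l17329 = true ∧
    allY (E.wth (lkp [])) l17330 = true ∧
    allY (E.wth (lkp [])) l17331 = true ∧
    allY (E.wth (lkp [])) l17332 = true :=
  ⟨by decide +kernel, by decide +kernel, by decide +kernel, by decide +kernel, by decide +kernel, by decide +kernel, by decide +kernel, by decide +kernel⟩

def t17333 : allY (E.wth (lkp [])) l17333 = true ∧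
    allY (E.wth (lkp [])) l17334 = true ∧
    allY (E.wth (lkp [])) l17335 = true ∧
    allY (E.wth (lkp [])) l17336 = true ∧
    allY (E.wth (lkp [])) l17337 = true ∧
    allY (E.wth (lkp [])) l17338 = true ∧
    allY (E.wth (lkp [])) l17339 = true ∧
    allY (E.wth (lkp [])) l17340 = true :=
  ⟨by decide +kernel, by decide +kernel, by decide +kernel, by decide +kernel, by decide +kernel, by decide +kernel, by decide +kernel, by decide +kernel⟩

def t17341 : allY (E.wth (lkp [])) l17341 = true ∧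
    allY (E.wth (lkp [])) l17342 = true ∧
    allY (E.wth (lkp [])) l17343 = true ∧
    allY (E.wth (lkp [])) l17344 = true ∧
    allY (E.wth (lkp [])) l17345 = true ∧
    allY (E.wth (lkp [])) l17346 = true ∧
    allY (E.wth (lkp [])) l17347 = true ∧
    allY (E.wth (lkp [])) l17348 = true :=
  ⟨by decide +kernel, by decide +kernel, by decide +kernel, by decide +kernel, by decide +kernel, by decide +kernel, by decide +kernel, by decide +kernel⟩

def t17349 : allY (E.wth (lkp [])) l17349 = true ∧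
    allY (E.wth (lkp [])) l17350 = true ∧
    allY (E.wth (lkp [])) l17351 = true ∧
    allY (E.wth (lkp [])) l17352 = true ∧
    allY (E.wth (lkp [])) l17353 = true ∧
    allY (E.wth (lkp [])) l17354 = true ∧
    allY (E.wth (lkp [])) l17355 = true ∧
    allY (E.wth (lkp [])) l17356 = true :=
  ⟨by decide +kernel, by decide +kernel, by decide +kernel, by decide +kernel, by decide +kernel, by decide +kernel, by decide +kernel, by decide +kernel⟩

def t17357 : allY (E.wth (lkp [])) l17357 = true ∧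
    allY (E.wth (lkp [])) l17358 = true ∧
    allY (E.wth (lkp [])) l17359 = true ∧
    allY (E.wth (lkp [])) l17360 = true ∧
    allY (E.wth (lkp [])) l17361 = true ∧
    allY (E.wth (lkp [])) l17362 = true ∧
    allY (E.wth (lkp [])) l17363 = true ∧
    allY (E.wth (lkp [])) l17364 = true :=
  ⟨by decide +kernel, by decide +kernel, by decide +kernel, by decide +kernel, by decide +kernel, by decide +kernel, by decide +kernel, by decide +kernel⟩

def t17365 : allY (E.wth (lkp [])) l17365 = true ∧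
    allY (E.wth (lkp [])) l17366 = true ∧
    allY (E.wth (lkp [])) l17367 = true ∧
    allY (E.wth (lkp [])) l17368 = true ∧
    allY (E.wth (lkp [])) l17369 = true ∧
    allY (E.wth (lkp [])) l17370 = true ∧
    allY (E.wth (lkp [])) l17371 = true ∧
    allY (E.wth (lkp [])) l17372 = true :=
  ⟨by decide +kernel, by decide +kernel, by decide +kernel, by decide +kernel, by decide +kernel, by decide +kernel, by decide +kernel, by decide +kernel⟩

def t17373 : allY (E.wth (lkp [])) l17373 = true ∧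
    allY (E.wth (lkp [])) l17374 = true ∧
    allY (E.wth (lkp [])) l17375 = true ∧
    allY (E.wth (lkp [])) l17376 = true ∧
    allY (E.wth (lkp [])) l17377 = true ∧
    allY (E.wth (lkp [])) l17378 = true ∧
    allY (E.wth (lkp [])) l17379 = true ∧
    allY (E.wth (lkp [])) l17380 = true :=
  ⟨by decide +kernel, by decide +kernel, by decide +kernel, by decide +kernel, by decide +kernel, by decide +kernel, by decide +kernel, by decide +kernel⟩

theorem a30 {p : Rf → Prop} (H : ∀ l, allY (E.wth (lkp [])) l = true → (lkp l).All p) :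
    b30.All p := ⟨⟨⟨⟨⟨⟨⟨⟨⟨H _ t16813.1, H _ t16813.2.1⟩, ⟨H _ t16813.2.2.1, H _ t16813.2.2.2.1⟩⟩, ⟨⟨H _ t16813.2.2.2.2.1, H _ t16813.2.2.2.2.2.1⟩, ⟨H _ t16813.2.2.2.2.2.2.1, H _ t16813.2.2.2.2.2.2.2⟩⟩⟩, ⟨⟨⟨H _ t16821.1, H _ t16821.2.1⟩, ⟨H _ t16821.2.2.1, H _ t16821.2.2.2.1⟩⟩, ⟨⟨H _ t16821.2.2.2.2.1, H _ t16821.2.2.2.2.2.1⟩, ⟨H _ t16821.2.2.2.2.2.2.1, ⟨H _ t16821.2.2.2.2.2.2.2, H _ t16829.1⟩⟩⟩⟩⟩, ⟨⟨⟨⟨H _ t16829.2.1, H _ t16829.2.2.1⟩, ⟨H _ t16829.2.2.2.1, H _ t16829.2.2.2.2.1⟩⟩, ⟨⟨H _ t16829.2.2.2.2.2.1, H _ t16829.2.2.2.2.2.2.1⟩, ⟨H _ t16829.2.2.2.2.2.2.2, ⟨H _ t16837.1, H _ t16837.2.1⟩⟩⟩⟩, ⟨⟨⟨H _ t16837.2.2.1, H _ t16837.2.2.2.1⟩, ⟨H _ t16837.2.2.2.2.1, H _ t16837.2.2.2.2.2.1⟩⟩, ⟨⟨H _ t16837.2.2.2.2.2.2.1, H _ t16837.2.2.2.2.2.2.2⟩, ⟨H _ t16845.1, ⟨H _ t16845.2.1, H _ t16845.2.2.1⟩⟩⟩⟩⟩⟩, ⟨⟨⟨⟨⟨H _ t16845.2.2.2.1, H _ t16845.2.2.2.2.1⟩, ⟨H _ t16845.2.2.2.2.2.1, H _ t16845.2.2.2.2.2.2.1⟩⟩, ⟨⟨H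 _ t16845.2.2.2.2.2.2.2, H _ t16853.1⟩, ⟨H _ t16853.2.1, ⟨H _ t16853.2.2.1, H _ t16853.2.2.2.1⟩⟩⟩⟩, ⟨⟨⟨H _ t16853.2.2.2.2.1, H _ t16853.2.2.2.2.2.1⟩, ⟨H _ t16853.2.2.2.2.2.2.1, H _ t16853.2.2.2.2.2.2.2⟩⟩, ⟨⟨H _ t16861.1, H _ t16861.2.1⟩, ⟨H _ t16861.2.2.1, ⟨H _ t16861.2.2.2.1, H _ t16861.2.2.2.2.1⟩⟩⟩⟩⟩, ⟨⟨⟨⟨H _ t16861.2.2.2.2.2.1, H _ t16861.2.2.2.2.2.2.1⟩, ⟨H _ t16861.2.2.2.2.2.2.2, H _ t16869.1⟩⟩, ⟨⟨H _ t16869.2.1, H _ t16869.2.2.1⟩, ⟨H _ t16869.2.2.2.1, ⟨H _ t16869.2.2.2.2.1, H _ t16869.2.2.2.2.2.1⟩⟩⟩⟩, ⟨⟨⟨H _ t16869.2.2.2.2.2.2.1, H _ t16869.2.2.2.2.2.2.2⟩, ⟨H _ t16877.1, H _ t16877.2.1⟩⟩, ⟨⟨H _ t16877.2.2.1, H _ t16877.2.2.2.1⟩, ⟨H _ t16877.2.2.2.2.1, ⟨H _ t16877.2.2.2.2.2.1, H _ t16877.2.2.2.2.2.2.1⟩⟩⟩⟩⟩⟩⟩, ⟨⟨⟨⟨⟨⟨H _ t16877.2.2.2.2.2.2.2, H _ t16885.1⟩, ⟨H _ t16885.2.1, H _ t16885.2.2.1⟩⟩, ⟨⟨H _ t16885.2.2.2.1, H _ t16885.2.2.2.2.1⟩, ⟨H _ t16885.2.2.2.2.2.1, H _ t16885.2.2.2.2.2.2.1⟩⟩⟩,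 ⟨⟨⟨H _ t16885.2.2.2.2.2.2.2, H _ t16893.1⟩, ⟨H _ t16893.2.1, H _ t16893.2.2.1⟩⟩, ⟨⟨H _ t16893.2.2.2.1, H _ t16893.2.2.2.2.1⟩, ⟨H _ t16893.2.2.2.2.2.1, ⟨H _ t16893.2.2.2.2.2.2.1, H _ t16893.2.2.2.2.2.2.2⟩⟩⟩⟩⟩, ⟨⟨⟨⟨H _ t16901.1, H _ t16901.2.1⟩, ⟨H _ t16901.2.2.1, H _ t16901.2.2.2.1⟩⟩, ⟨⟨H _ t16901.2.2.2.2.1, H _ t16901.2.2.2.2.2.1⟩, ⟨H _ t16901.2.2.2.2.2.2.1, ⟨H _ t16901.2.2.2.2.2.2.2, H _ t16909.1⟩⟩⟩⟩, ⟨⟨⟨H _ t16909.2.1, H _ t16909.2.2.1⟩, ⟨H _ t16909.2.2.2.1, H _ t16909.2.2.2.2.1⟩⟩, ⟨⟨H _ t16909.2.2.2.2.2.1, H _ t16909.2.2.2.2.2.2.1⟩, ⟨H _ t16909.2.2.2.2.2.2.2, ⟨H _ t16917.1, H _ t16917.2.1⟩⟩⟩⟩⟩⟩, ⟨⟨⟨⟨⟨H _ t16917.2.2.1, H _ t16917.2.2.2.1⟩, ⟨H _ t16917.2.2.2.2.1, H _ t16917.2.2.2.2.2.1⟩⟩, ⟨⟨H _ t16917.2.2.2.2.2.2.1, H _ t16917.2.2.2.2.2.2.2⟩, ⟨H _ t16925.1, ⟨H _ t16925.2.1, H _ t16925.2.2.1⟩⟩⟩⟩, ⟨⟨⟨H _ t16925.2.2.2.1, H _ t16925.2.2.2.2.1⟩, ⟨H _ t16925.2.2.2.2.2.1, H _ t16925.2.2.2.2.2.2.1⟩⟩,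 ⟨⟨H _ t16925.2.2.2.2.2.2.2, H _ t16933.1⟩, ⟨H _ t16933.2.1, ⟨H _ t16933.2.2.1, H _ t16933.2.2.2.1⟩⟩⟩⟩⟩, ⟨⟨⟨⟨H _ t16933.2.2.2.2.1, H _ t16933.2.2.2.2.2.1⟩, ⟨H _ t16933.2.2.2.2.2.2.1, H _ t16933.2.2.2.2.2.2.2⟩⟩, ⟨⟨H _ t16941.1, H _ t16941.2.1⟩, ⟨H _ t16941.2.2.1, ⟨H _ t16941.2.2.2.1, H _ t16941.2.2.2.2.1⟩⟩⟩⟩, ⟨⟨⟨H _ t16941.2.2.2.2.2.1, H _ t16941.2.2.2.2.2.2.1⟩, ⟨H _ t16941.2.2.2.2.2.2.2, H _ t16949.1⟩⟩, ⟨⟨H _ t16949.2.1, H _ t16949.2.2.1⟩, ⟨H _ t16949.2.2.2.1, ⟨H _ t16949.2.2.2.2.1, H _ t16949.2.2.2.2.2.1⟩⟩⟩⟩⟩⟩⟩⟩, ⟨⟨⟨⟨⟨⟨⟨H _ t16949.2.2.2.2.2.2.1, H _ t16949.2.2.2.2.2.2.2⟩, ⟨H _ t16957.1, H _ t16957.2.1⟩⟩, ⟨⟨H _ t16957.2.2.1, H _ t16957.2.2.2.1⟩, ⟨H _ t16957.2.2.2.2.1, H _ t16957.2.2.2.2.2.1⟩⟩⟩, ⟨⟨⟨H _ t16957.2.2.2.2.2.2.1, H _ t16957.2.2.2.2.2.2.2⟩, ⟨H _ t16965.1, H _ t16965.2.1⟩⟩, ⟨⟨H _ t16965.2.2.1, H _ t16965.2.2.2.1⟩, ⟨H _ t16965.2.2.2.2.1, ⟨H _ t16965.2.2.2.2.2.1, H _ t16965.2.2.2.2.2.2.1⟩⟩⟩⟩⟩,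 ⟨⟨⟨⟨H _ t16965.2.2.2.2.2.2.2, H _ t16973.1⟩, ⟨H _ t16973.2.1, H _ t16973.2.2.1⟩⟩, ⟨⟨H _ t16973.2.2.2.1, H _ t16973.2.2.2.2.1⟩, ⟨H _ t16973.2.2.2.2.2.1, ⟨H _ t16973.2.2.2.2.2.2.1, H _ t16973.2.2.2.2.2.2.2⟩⟩⟩⟩, ⟨⟨⟨H _ t16981.1, H _ t16981.2.1⟩, ⟨H _ t16981.2.2.1, H _ t16981.2.2.2.1⟩⟩, ⟨⟨H _ t16981.2.2.2.2.1, H _ t16981.2.2.2.2.2.1⟩, ⟨H _ t16981.2.2.2.2.2.2.1, ⟨H _ t16981.2.2.2.2.2.2.2, H _ t16989.1⟩⟩⟩⟩⟩⟩, ⟨⟨⟨⟨⟨H _ t16989.2.1, H _ t16989.2.2.1⟩, ⟨H _ t16989.2.2.2.1, H _ t16989.2.2.2.2.1⟩⟩, ⟨⟨H _ t16989.2.2.2.2.2.1, H _ t16989.2.2.2.2.2.2.1⟩, ⟨H _ t16989.2.2.2.2.2.2.2, ⟨H _ t16997.1, H _ t16997.2.1⟩⟩⟩⟩, ⟨⟨⟨H _ t16997.2.2.1, H _ t16997.2.2.2.1⟩, ⟨H _ t16997.2.2.2.2.1, H _ t16997.2.2.2.2.2.1⟩⟩, ⟨⟨H _ t16997.2.2.2.2.2.2.1, H _ t16997.2.2.2.2.2.2.2⟩, ⟨H _ t17005.1, ⟨H _ t17005.2.1, H _ t17005.2.2.1⟩⟩⟩⟩⟩, ⟨⟨⟨⟨H _ t17005.2.2.2.1, H _ t17005.2.2.2.2.1⟩, ⟨H _ t17005.2.2.2.2.2.1, H _ t17005.2.2.2.2.2.2.1⟩⟩,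 ⟨⟨H _ t17005.2.2.2.2.2.2.2, H _ t17013.1⟩, ⟨H _ t17013.2.1, ⟨H _ t17013.2.2.1, H _ t17013.2.2.2.1⟩⟩⟩⟩, ⟨⟨⟨H _ t17013.2.2.2.2.1, H _ t17013.2.2.2.2.2.1⟩, ⟨H _ t17013.2.2.2.2.2.2.1, H _ t17013.2.2.2.2.2.2.2⟩⟩, ⟨⟨H _ t17021.1, H _ t17021.2.1⟩, ⟨H _ t17021.2.2.1, ⟨H _ t17021.2.2.2.1, H _ t17021.2.2.2.2.1⟩⟩⟩⟩⟩⟩⟩, ⟨⟨⟨⟨⟨⟨H _ t17021.2.2.2.2.2.1, H _ t17021.2.2.2.2.2.2.1⟩, ⟨H _ t17021.2.2.2.2.2.2.2, H _ t17029.1⟩⟩, ⟨⟨H _ t17029.2.1, H _ t17029.2.2.1⟩, ⟨H _ t17029.2.2.2.1, H _ t17029.2.2.2.2.1⟩⟩⟩, ⟨⟨⟨H _ t17029.2.2.2.2.2.1, H _ t17029.2.2.2.2.2.2.1⟩, ⟨H _ t17029.2.2.2.2.2.2.2, H _ t17037.1⟩⟩, ⟨⟨H _ t17037.2.1, H _ t17037.2.2.1⟩, ⟨H _ t17037.2.2.2.1, ⟨H _ t17037.2.2.2.2.1, H _ t17037.2.2.2.2.2.1⟩⟩⟩⟩⟩, ⟨⟨⟨⟨H _ t17037.2.2.2.2.2.2.1, H _ t17037.2.2.2.2.2.2.2⟩, ⟨H _ t17045.1, H _ t17045.2.1⟩⟩, ⟨⟨H _ t17045.2.2.1, H _ t17045.2.2.2.1⟩, ⟨H _ t17045.2.2.2.2.1, ⟨H _ t17045.2.2.2.2.2.1, H _ t17045.2.2.2.2.2.2.1⟩⟩⟩⟩,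 ⟨⟨⟨H _ t17045.2.2.2.2.2.2.2, H _ t17053.1⟩, ⟨H _ t17053.2.1, H _ t17053.2.2.1⟩⟩, ⟨⟨H _ t17053.2.2.2.1, H _ t17053.2.2.2.2.1⟩, ⟨H _ t17053.2.2.2.2.2.1, ⟨H _ t17053.2.2.2.2.2.2.1, H _ t17053.2.2.2.2.2.2.2⟩⟩⟩⟩⟩⟩, ⟨⟨⟨⟨⟨H _ t17061.1, H _ t17061.2.1⟩, ⟨H _ t17061.2.2.1, H _ t17061.2.2.2.1⟩⟩, ⟨⟨H _ t17061.2.2.2.2.1, H _ t17061.2.2.2.2.2.1⟩, ⟨H _ t17061.2.2.2.2.2.2.1, ⟨H _ t17061.2.2.2.2.2.2.2, H _ t17069.1⟩⟩⟩⟩, ⟨⟨⟨H _ t17069.2.1, H _ t17069.2.2.1⟩, ⟨H _ t17069.2.2.2.1, H _ t17069.2.2.2.2.1⟩⟩, ⟨⟨H _ t17069.2.2.2.2.2.1, H _ t17069.2.2.2.2.2.2.1⟩, ⟨H _ t17069.2.2.2.2.2.2.2, ⟨H _ t17077.1, H _ t17077.2.1⟩⟩⟩⟩⟩, ⟨⟨⟨⟨H _ t17077.2.2.1, H _ t17077.2.2.2.1⟩, ⟨H _ t17077.2.2.2.2.1, H _ t17077.2.2.2.2.2.1⟩⟩, ⟨⟨H _ t17077.2.2.2.2.2.2.1, H _ t17077.2.2.2.2.2.2.2⟩, ⟨H _ t17085.1, ⟨H _ t17085.2.1, H _ t17085.2.2.1⟩⟩⟩⟩, ⟨⟨⟨H _ t17085.2.2.2.1, H _ t17085.2.2.2.2.1⟩, ⟨H _ t17085.2.2.2.2.2.1, H _ t17085.2.2.2.2.2.2.1⟩⟩,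 ⟨⟨H _ t17085.2.2.2.2.2.2.2, H _ t17093.1⟩, ⟨H _ t17093.2.1, ⟨H _ t17093.2.2.1, H _ t17093.2.2.2.1⟩⟩⟩⟩⟩⟩⟩⟩⟩, ⟨⟨⟨⟨⟨⟨⟨⟨H _ t17093.2.2.2.2.1, H _ t17093.2.2.2.2.2.1⟩, ⟨H _ t17093.2.2.2.2.2.2.1, H _ t17093.2.2.2.2.2.2.2⟩⟩, ⟨⟨H _ t17101.1, H _ t17101.2.1⟩, ⟨H _ t17101.2.2.1, H _ t17101.2.2.2.1⟩⟩⟩, ⟨⟨⟨H _ t17101.2.2.2.2.1, H _ t17101.2.2.2.2.2.1⟩, ⟨H _ t17101.2.2.2.2.2.2.1, H _ t17101.2.2.2.2.2.2.2⟩⟩, ⟨⟨H _ t17109.1, H _ t17109.2.1⟩, ⟨H _ t17109.2.2.1, ⟨H _ t17109.2.2.2.1, H _ t17109.2.2.2.2.1⟩⟩⟩⟩⟩, ⟨⟨⟨⟨H _ t17109.2.2.2.2.2.1, H _ t17109.2.2.2.2.2.2.1⟩, ⟨H _ t17109.2.2.2.2.2.2.2, H _ t17117.1⟩⟩, ⟨⟨H _ t17117.2.1, H _ t17117.2.2.1⟩, ⟨H _ t17117.2.2.2.1, ⟨H _ t17117.2.2.2.2.1, H _ t17117.2.2.2.2.2.1⟩⟩⟩⟩, ⟨⟨⟨H _ t17117.2.2.2.2.2.2.1, H _ t17117.2.2.2.2.2.2.2⟩, ⟨H _ t17125.1, H _ t17125.2.1⟩⟩, ⟨⟨H _ t17125.2.2.1, H _ t17125.2.2.2.1⟩, ⟨H _ t17125.2.2.2.2.1, ⟨H _ t17125.2.2.2.2.2.1, H _ t17125.2.2.2.2.2.2.1⟩⟩⟩⟩⟩⟩,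 ⟨⟨⟨⟨⟨H _ t17125.2.2.2.2.2.2.2, H _ t17133.1⟩, ⟨H _ t17133.2.1, H _ t17133.2.2.1⟩⟩, ⟨⟨H _ t17133.2.2.2.1, H _ t17133.2.2.2.2.1⟩, ⟨H _ t17133.2.2.2.2.2.1, ⟨H _ t17133.2.2.2.2.2.2.1, H _ t17133.2.2.2.2.2.2.2⟩⟩⟩⟩, ⟨⟨⟨H _ t17141.1, H _ t17141.2.1⟩, ⟨H _ t17141.2.2.1, H _ t17141.2.2.2.1⟩⟩, ⟨⟨H _ t17141.2.2.2.2.1, H _ t17141.2.2.2.2.2.1⟩, ⟨H _ t17141.2.2.2.2.2.2.1, ⟨H _ t17141.2.2.2.2.2.2.2, H _ t17149.1⟩⟩⟩⟩⟩, ⟨⟨⟨⟨H _ t17149.2.1, H _ t17149.2.2.1⟩, ⟨H _ t17149.2.2.2.1, H _ t17149.2.2.2.2.1⟩⟩, ⟨⟨H _ t17149.2.2.2.2.2.1, H _ t17149.2.2.2.2.2.2.1⟩, ⟨H _ t17149.2.2.2.2.2.2.2, ⟨H _ t17157.1, H _ t17157.2.1⟩⟩⟩⟩, ⟨⟨⟨H _ t17157.2.2.1, H _ t17157.2.2.2.1⟩, ⟨H _ t17157.2.2.2.2.1, H _ t17157.2.2.2.2.2.1⟩⟩, ⟨⟨H _ t17157.2.2.2.2.2.2.1, H _ t17157.2.2.2.2.2.2.2⟩, ⟨H _ t17165.1, ⟨H _ t17165.2.1, H _ t17165.2.2.1⟩⟩⟩⟩⟩⟩⟩, ⟨⟨⟨⟨⟨⟨H _ t17165.2.2.2.1, H _ t17165.2.2.2.2.1⟩, ⟨H _ t17165.2.2.2.2.2.1, H _ t17165.2.2.2.2.2.2.1⟩⟩,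 ⟨⟨H _ t17165.2.2.2.2.2.2.2, H _ t17173.1⟩, ⟨H _ t17173.2.1, H _ t17173.2.2.1⟩⟩⟩, ⟨⟨⟨H _ t17173.2.2.2.1, H _ t17173.2.2.2.2.1⟩, ⟨H _ t17173.2.2.2.2.2.1, H _ t17173.2.2.2.2.2.2.1⟩⟩, ⟨⟨H _ t17173.2.2.2.2.2.2.2, H _ t17181.1⟩, ⟨H _ t17181.2.1, ⟨H _ t17181.2.2.1, H _ t17181.2.2.2.1⟩⟩⟩⟩⟩, ⟨⟨⟨⟨H _ t17181.2.2.2.2.1, H _ t17181.2.2.2.2.2.1⟩, ⟨H _ t17181.2.2.2.2.2.2.1, H _ t17181.2.2.2.2.2.2.2⟩⟩, ⟨⟨H _ t17189.1, H _ t17189.2.1⟩, ⟨H _ t17189.2.2.1, ⟨H _ t17189.2.2.2.1, H _ t17189.2.2.2.2.1⟩⟩⟩⟩, ⟨⟨⟨H _ t17189.2.2.2.2.2.1, H _ t17189.2.2.2.2.2.2.1⟩, ⟨H _ t17189.2.2.2.2.2.2.2, H _ t17197.1⟩⟩, ⟨⟨H _ t17197.2.1, H _ t17197.2.2.1⟩, ⟨H _ t17197.2.2.2.1, ⟨H _ t17197.2.2.2.2.1, H _ t17197.2.2.2.2.2.1⟩⟩⟩⟩⟩⟩, ⟨⟨⟨⟨⟨H _ t17197.2.2.2.2.2.2.1, H _ t17197.2.2.2.2.2.2.2⟩, ⟨H _ t17205.1, H _ t17205.2.1⟩⟩, ⟨⟨H _ t17205.2.2.1, H _ t17205.2.2.2.1⟩, ⟨H _ t17205.2.2.2.2.1, ⟨H _ t17205.2.2.2.2.2.1, H _ t17205.2.2.2.2.2.2.1⟩⟩⟩⟩,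 ⟨⟨⟨H _ t17205.2.2.2.2.2.2.2, H _ t17213.1⟩, ⟨H _ t17213.2.1, H _ t17213.2.2.1⟩⟩, ⟨⟨H _ t17213.2.2.2.1, H _ t17213.2.2.2.2.1⟩, ⟨H _ t17213.2.2.2.2.2.1, ⟨H _ t17213.2.2.2.2.2.2.1, H _ t17213.2.2.2.2.2.2.2⟩⟩⟩⟩⟩, ⟨⟨⟨⟨H _ t17221.1, H _ t17221.2.1⟩, ⟨H _ t17221.2.2.1, H _ t17221.2.2.2.1⟩⟩, ⟨⟨H _ t17221.2.2.2.2.1, H _ t17221.2.2.2.2.2.1⟩, ⟨H _ t17221.2.2.2.2.2.2.1, ⟨H _ t17221.2.2.2.2.2.2.2, H _ t17229.1⟩⟩⟩⟩, ⟨⟨⟨H _ t17229.2.1, H _ t17229.2.2.1⟩, ⟨H _ t17229.2.2.2.1, H _ t17229.2.2.2.2.1⟩⟩, ⟨⟨H _ t17229.2.2.2.2.2.1, H _ t17229.2.2.2.2.2.2.1⟩, ⟨H _ t17229.2.2.2.2.2.2.2, ⟨H _ t17237.1, H _ t17237.2.1⟩⟩⟩⟩⟩⟩⟩⟩, ⟨⟨⟨⟨⟨⟨⟨H _ t17237.2.2.1, H _ t17237.2.2.2.1⟩, ⟨H _ t17237.2.2.2.2.1, H _ t17237.2.2.2.2.2.1⟩⟩, ⟨⟨H _ t17237.2.2.2.2.2.2.1, H _ t17237.2.2.2.2.2.2.2⟩, ⟨H _ t17245.1, H _ t17245.2.1⟩⟩⟩, ⟨⟨⟨H _ t17245.2.2.1, H _ t17245.2.2.2.1⟩, ⟨H _ t17245.2.2.2.2.1, H _ t17245.2.2.2.2.2.1⟩⟩, ⟨⟨H _ t17245.2.2.2.2.2.2.1,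 H _ t17245.2.2.2.2.2.2.2⟩, ⟨H _ t17253.1, ⟨H _ t17253.2.1, H _ t17253.2.2.1⟩⟩⟩⟩⟩, ⟨⟨⟨⟨H _ t17253.2.2.2.1, H _ t17253.2.2.2.2.1⟩, ⟨H _ t17253.2.2.2.2.2.1, H _ t17253.2.2.2.2.2.2.1⟩⟩, ⟨⟨H _ t17253.2.2.2.2.2.2.2, H _ t17261.1⟩, ⟨H _ t17261.2.1, ⟨H _ t17261.2.2.1, H _ t17261.2.2.2.1⟩⟩⟩⟩, ⟨⟨⟨H _ t17261.2.2.2.2.1, H _ t17261.2.2.2.2.2.1⟩, ⟨H _ t17261.2.2.2.2.2.2.1, H _ t17261.2.2.2.2.2.2.2⟩⟩, ⟨⟨H _ t17269.1, H _ t17269.2.1⟩, ⟨H _ t17269.2.2.1, ⟨H _ t17269.2.2.2.1, H _ t17269.2.2.2.2.1⟩⟩⟩⟩⟩⟩, ⟨⟨⟨⟨⟨H _ t17269.2.2.2.2.2.1, H _ t17269.2.2.2.2.2.2.1⟩, ⟨H _ t17269.2.2.2.2.2.2.2, H _ t17277.1⟩⟩, ⟨⟨H _ t17277.2.1, H _ t17277.2.2.1⟩, ⟨H _ t17277.2.2.2.1, ⟨H _ t17277.2.2.2.2.1, H _ t17277.2.2.2.2.2.1⟩⟩⟩⟩, ⟨⟨⟨H _ t17277.2.2.2.2.2.2.1, H _ t17277.2.2.2.2.2.2.2⟩, ⟨H _ t17285.1, H _ t17285.2.1⟩⟩, ⟨⟨H _ t17285.2.2.1, H _ t17285.2.2.2.1⟩, ⟨H _ t17285.2.2.2.2.1, ⟨H _ t17285.2.2.2.2.2.1, H _ t17285.2.2.2.2.2.2.1⟩⟩⟩⟩⟩,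 ⟨⟨⟨⟨H _ t17285.2.2.2.2.2.2.2, H _ t17293.1⟩, ⟨H _ t17293.2.1, H _ t17293.2.2.1⟩⟩, ⟨⟨H _ t17293.2.2.2.1, H _ t17293.2.2.2.2.1⟩, ⟨H _ t17293.2.2.2.2.2.1, ⟨H _ t17293.2.2.2.2.2.2.1, H _ t17293.2.2.2.2.2.2.2⟩⟩⟩⟩, ⟨⟨⟨H _ t17301.1, H _ t17301.2.1⟩, ⟨H _ t17301.2.2.1, H _ t17301.2.2.2.1⟩⟩, ⟨⟨H _ t17301.2.2.2.2.1, H _ t17301.2.2.2.2.2.1⟩, ⟨H _ t17301.2.2.2.2.2.2.1, ⟨H _ t17301.2.2.2.2.2.2.2, H _ t17309.1⟩⟩⟩⟩⟩⟩⟩, ⟨⟨⟨⟨⟨⟨H _ t17309.2.1, H _ t17309.2.2.1⟩, ⟨H _ t17309.2.2.2.1, H _ t17309.2.2.2.2.1⟩⟩, ⟨⟨H _ t17309.2.2.2.2.2.1, H _ t17309.2.2.2.2.2.2.1⟩, ⟨H _ t17309.2.2.2.2.2.2.2, H _ t17317.1⟩⟩⟩, ⟨⟨⟨H _ t17317.2.1, H _ t17317.2.2.1⟩, ⟨H _ t17317.2.2.2.1, H _ t17317.2.2.2.2.1⟩⟩, ⟨⟨H _ t17317.2.2.2.2.2.1, H _ t17317.2.2.2.2.2.2.1⟩, ⟨H _ t17317.2.2.2.2.2.2.2, ⟨H _ t17325.1, H _ t17325.2.1⟩⟩⟩⟩⟩, ⟨⟨⟨⟨H _ t17325.2.2.1, H _ t17325.2.2.2.1⟩, ⟨H _ t17325.2.2.2.2.1, H _ t17325.2.2.2.2.2.1⟩⟩, ⟨⟨H _ t17325.2.2.2.2.2.2.1,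 H _ t17325.2.2.2.2.2.2.2⟩, ⟨H _ t17333.1, ⟨H _ t17333.2.1, H _ t17333.2.2.1⟩⟩⟩⟩, ⟨⟨⟨H _ t17333.2.2.2.1, H _ t17333.2.2.2.2.1⟩, ⟨H _ t17333.2.2.2.2.2.1, H _ t17333.2.2.2.2.2.2.1⟩⟩, ⟨⟨H _ t17333.2.2.2.2.2.2.2, H _ t17341.1⟩, ⟨H _ t17341.2.1, ⟨H _ t17341.2.2.1, H _ t17341.2.2.2.1⟩⟩⟩⟩⟩⟩, ⟨⟨⟨⟨⟨H _ t17341.2.2.2.2.1, H _ t17341.2.2.2.2.2.1⟩, ⟨H _ t17341.2.2.2.2.2.2.1, H _ t17341.2.2.2.2.2.2.2⟩⟩, ⟨⟨H _ t17349.1, H _ t17349.2.1⟩, ⟨H _ t17349.2.2.1, ⟨H _ t17349.2.2.2.1, H _ t17349.2.2.2.2.1⟩⟩⟩⟩, ⟨⟨⟨H _ t17349.2.2.2.2.2.1, H _ t17349.2.2.2.2.2.2.1⟩, ⟨H _ t17349.2.2.2.2.2.2.2, H _ t17357.1⟩⟩, ⟨⟨H _ t17357.2.1, H _ t17357.2.2.1⟩, ⟨H _ t17357.2.2.2.1, ⟨H _ t17357.2.2.2.2.1, H _ t17357.2.2.2.2.2.1⟩⟩⟩⟩⟩, ⟨⟨⟨⟨H _ t17357.2.2.2.2.2.2.1, H _ t17357.2.2.2.2.2.2.2⟩, ⟨H _ t17365.1, H _ t17365.2.1⟩⟩, ⟨⟨H _ t17365.2.2.1, H _ t17365.2.2.2.1⟩, ⟨H _ t17365.2.2.2.2.1, ⟨H _ t17365.2.2.2.2.2.1, H _ t17365.2.2.2.2.2.2.1⟩⟩⟩⟩,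 ⟨⟨⟨H _ t17365.2.2.2.2.2.2.2, H _ t17373.1⟩, ⟨H _ t17373.2.1, H _ t17373.2.2.1⟩⟩, ⟨⟨H _ t17373.2.2.2.1, H _ t17373.2.2.2.2.1⟩, ⟨H _ t17373.2.2.2.2.2.1, ⟨H _ t17373.2.2.2.2.2.2.1, H _ t17373.2.2.2.2.2.2.2⟩⟩⟩⟩⟩⟩⟩⟩⟩⟩

end Pool.Agent.MP_c853c5_nt.X.C4950
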