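import Pool.Agent.MP_c853c5_nt.X.C4950.Env
import Pool.Agent.MP_c853c5_nt.X.C4950.D6

set_option autoImplicit false
set_option maxRecDepth 8192
set_option linter.all false

namespace Pool.Agent.MP_c853c5_nt.X.C4950

open Pool.Agent.MP_c853c5_nt.X

def t17381 : allY (E.wth (lkp [])) l17381 = true ∧
    allY (E.wth (lkp [])) l17382 = true ∧
    allY (E.wth (lkp [])) l17383 = true ∧
    allY (E.wth (lkp [])) l17384 = true ∧
    allY (E.wth (lkp [])) l17385 = true ∧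
    allY (E.wth (lkp [])) l17386 = true ∧
    allY (E.wth (lkp [])) l17387 = true ∧
    allY (E.wth (lkp [])) l17388 = true :=
  ⟨by decide +kernel, by decide +kernel, by decide +kernel, by decide +kernel, by decide +kernel, by decide +kernel, by decide +kernel, by decide +kernel⟩

def t17389 : allY (E.wth (lkp [])) l17389 = true ∧
    allY (E.wth (lkp [])) l17390 = true ∧
    allY (E.wth (lkp [])) l17391 = true ∧
    allY (E.wth (lkp [])) l17392 = true ∧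
    allY (E.wth (lkp [])) l17393 = true ∧
    allY (E.wth (lkp [])) l17394 = true ∧
    allY (E.wth (lkp [])) l17395 = true ∧
    allY (E.wth (lkp [])) l17396 = true :=
  ⟨by decide +kernel, by decide +kernel, by decide +kernel, by decide +kernel, by decide +kernel, by decide +kernel, by decide +kernel, by decide +kernel⟩

def t17397 : allY (E.wth (lkp [])) l17397 = true ∧
    allY (E.wth (lkp [])) l17398 = true ∧
    allY (E.wth (lkp [])) l17399 = true ∧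
    allY (E.wth (lkp [])) l17400 = true ∧
    allY (E.wth (lkp [])) l17401 = true ∧
    allY (E.wth (lkp [])) l17402 = true ∧
    allY (E.wth (lkp [])) l17403 = true ∧
    allY (E.wth (lkp [])) l17404 = true :=
  ⟨by decide +kernel, by decide +kernel, by decide +kernel, by decide +kernel, by decide +kernel, by decide +kernel, by decide +kernel, by decide +kernel⟩

def t17405 : allY (E.wth (lkp [])) l17405 = true ∧
    allY (E.wth (lkp [])) l17406 = true ∧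
    allY (E.wth (lkp [])) l17407 = true ∧
    allY (E.wth (lkp [])) l17408 = true ∧
    allY (E.wth (lkp [])) l17409 = true ∧
    allY (E.wth (lkp [])) l17410 = true ∧
    allY (E.wth (lkp [])) l17411 = true ∧
    allY (E.wth (lkp [])) l17412 = true :=
  ⟨by decide +kernel, by decide +kernel, by decide +kernel, by decide +kernel, by decide +kernel, by decide +kernel, by decide +kernel, by decide +kernel⟩

def t17413 : allY (E.wth (lkp [])) l17413 = true ∧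
    allY (E.wth (lkp [])) l17414 = true ∧
    allY (E.wth (lkp [])) l17415 = true ∧
    allY (E.wth (lkp [])) l17416 = true ∧
    allY (E.wth (lkp [])) l17417 = true ∧
    allY (E.wth (lkp [])) l17418 = true ∧
    allY (E.wth (lkp [])) l17419 = true ∧
    allY (E.wth (lkp [])) l17420 = true :=
  ⟨by decide +kernel, by decide +kernel, by decide +kernel, by decide +kernel, by decide +kernel, by decide +kernel, by decide +kernel, by decide +kernel⟩

def t17421 : allY (E.wth (lkp [])) l17421 = true ∧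
    allY (E.wth (lkp [])) l17422 = true ∧
    allY (E.wth (lkp [])) l17423 = true ∧
    allY (E.wth (lkp [])) l17424 = true ∧
    allY (E.wth (lkp [])) l17425 = true ∧
    allY (E.wth (lkp [])) l17426 = true ∧
    allY (E.wth (lkp [])) l17427 = true ∧
    allY (E.wth (lkp [])) l17428 = true :=
  ⟨by decide +kernel, by decide +kernel, by decide +kernel, by decide +kernel, by decide +kernel, by decide +kernel, by decide +kernel, by decide +kernel⟩

def t17429 : allY (E.wth (lkp [])) l17429 = true ∧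
    allY (E.wth (lkp [])) l17430 = true ∧
    allY (E.wth (lkp [])) l17431 = true ∧
    allY (E.wth (lkp [])) l17432 = true ∧
    allY (E.wth (lkp [])) l17433 = true ∧
    allY (E.wth (lkp [])) l17434 = true ∧
    allY (E.wth (lkp [])) l17435 = true ∧
    allY (E.wth (lkp [])) l17436 = true :=
  ⟨by decide +kernel, by decide +kernel, by decide +kernel, by decide +kernel, by decide +kernel, by decide +kernel, by decide +kernel, by decide +kernel⟩

def t17437 : allY (E.wth (lkp [])) l17437 = true ∧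
    allY (E.wth (lkp [])) l17438 = true ∧
    allY (E.wth (lkp [])) l17439 = true ∧
    allY (E.wth (lkp [])) l17440 = true ∧
    allY (E.wth (lkp [])) l17441 = true ∧
    allY (E.wth (lkp [])) l17442 = true ∧
    allY (E.wth (lkp [])) l17443 = true ∧
    allY (E.wth (lkp [])) l17444 = true :=
  ⟨by decide +kernel, by decide +kernel, by decide +kernel, by decide +kernel, by decide +kernel, by decide +kernel, by decide +kernel, by decide +kernel⟩

def t17445 : allY (E.wth (lkp [])) l17445 = true ∧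
    allY (E.wth (lkp [])) l17446 = true ∧
    allY (E.wth (lkp [])) l17447 = true ∧
    allY (E.wth (lkp [])) l17448 = true ∧
    allY (E.wth (lkp [])) l17449 = true ∧
    allY (E.wth (lkp [])) l17450 = true ∧
    allY (E.wth (lkp [])) l17451 = true ∧
    allY (E.wth (lkp [])) l17452 = true :=
  ⟨by decide +kernel, by decide +kernel, by decide +kernel, by decide +kernel, by decide +kernel, by decide +kernel, by decide +kernel, by decide +kernel⟩

def t17453 : allY (E.wth (lkp [])) l17453 = true ∧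
    allY (E.wth (lkp [])) l17454 = true ∧
    allY (E.wth (lkp [])) l17455 = true ∧
    allY (E.wth (lkp [])) l17456 = true ∧
    allY (E.wth (lkp [])) l17457 = true ∧
    allY (E.wth (lkp [])) l17458 = true ∧
    allY (E.wth (lkp [])) l17459 = true ∧
    allY (E.wth (lkp [])) l17460 = true :=
  ⟨by decide +kernel, by decide +kernel, by decide +kernel, by decide +kernel, by decide +kernel, by decide +kernel, by decide +kernel, by decide +kernel⟩

def t17461 : allY (E.wth (lkp [])) l17461 = true ∧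
    allY (E.wth (lkp [])) l17462 = true ∧
    allY (E.wth (lkp [])) l17463 = true ∧
    allY (E.wth (lkp [])) l17464 = true ∧
    allY (E.wth (lkp [])) l17465 = true ∧
    allY (E.wth (lkp [])) l17466 = true ∧
    allY (E.wth (lkp [])) l17467 = true ∧
    allY (E.wth (lkp [])) l17468 = true :=
  ⟨by decide +kernel, by decide +kernel, by decide +kernel, by decide +kernel, by decide +kernel, by decide +kernel, by decide +kernel, by decide +kernel⟩

def t17469 : allY (E.wth (lkp [])) l17469 = true ∧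
    allY (E.wth (lkp [])) l17470 = true ∧
    allY (E.wth (lkp [])) l17471 = true ∧
    allY (E.wth (lkp [])) l17472 = true ∧
    allY (E.wth (lkp [])) l17473 = true ∧
    allY (E.wth (lkp [])) l17474 = true ∧
    allY (E.wth (lkp [])) l17475 = true ∧
    allY (E.wth (lkp [])) l17476 = true :=
  ⟨by decide +kernel, by decide +kernel, by decide +kernel, by decide +kernel, by decide +kernel, by decide +kernel, by decide +kernel, by decide +kernel⟩

def t17477 : allY (E.wth (lkp [])) l17477 = true ∧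
    allY (E.wth (lkp [])) l17478 = true ∧
    allY (E.wth (lkp [])) l17479 = true ∧
    allY (E.wth (lkp [])) l17480 = true ∧
    allY (E.wth (lkp [])) l17481 = true ∧
    allY (E.wth (lkp [])) l17482 = true ∧
    allY (E.wth (lkp [])) l17483 = true ∧
    allY (E.wth (lkp [])) l17484 = true :=
  ⟨by decide +kernel, by decide +kernel, by decide +kernel, by decide +kernel, by decide +kernel, by decide +kernel, by decide +kernel, by decide +kernel⟩

def t17485 : allY (E.wth (lkp [])) l17485 = true ∧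
    allY (E.wth (lkp [])) l17486 = true ∧
    allY (E.wth (lkp [])) l17487 = true ∧
    allY (E.wth (lkp [])) l17488 = true ∧
    allY (E.wth (lkp [])) l17489 = true ∧
    allY (E.wth (lkp [])) l17490 = true ∧
    allY (E.wth (lkp [])) l17491 = true ∧
    allY (E.wth (lkp [])) l17492 = true :=
  ⟨by decide +kernel, by decide +kernel, by decide +kernel, by decide +kernel, by decide +kernel, by decide +kernel, by decide +kernel, by decide +kernel⟩

def t17493 : allY (E.wth (lkp [])) l17493 = true ∧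
    allY (E.wth (lkp [])) l17494 = true ∧
    allY (E.wth (lkp [])) l17495 = true ∧
    allY (E.wth (lkp [])) l17496 = true ∧
    allY (E.wth (lkp [])) l17497 = true ∧
    allY (E.wth (lkp [])) l17498 = true ∧
    allY (E.wth (lkp [])) l17499 = true ∧
    allY (E.wth (lkp [])) l17500 = true :=
  ⟨by decide +kernel, by decide +kernel, by decide +kernel, by decide +kernel, by decide +kernel, by decide +kernel, by decide +kernel, by decide +kernel⟩

def t17501 : allY (E.wth (lkp [])) l17501 = true ∧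
    allY (E.wth (lkp [])) l17502 = true ∧
    allY (E.wth (lkp [])) l17503 = true ∧
    allY (E.wth (lkp [])) l17504 = true ∧
    allY (E.wth (lkp [])) l17505 = true ∧
    allY (E.wth (lkp [])) l17506 = true ∧
    allY (E.wth (lkp [])) l17507 = true ∧
    allY (E.wth (lkp [])) l17508 = true :=
  ⟨by decide +kernel, by decide +kernel, by decide +kernel, by decide +kernel, by decide +kernel, by decide +kernel, by decide +kernel, by decide +kernel⟩

def t17509 : allY (E.wth (lkp [])) l17509 = true ∧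
    allY (E.wth (lkp [])) l17510 = true ∧
    allY (E.wth (lkp [])) l17511 = true ∧
    allY (E.wth (lkp [])) l17512 = true ∧
    allY (E.wth (lkp [])) l17513 = true ∧
    allY (E.wth (lkp [])) l17514 = true ∧
    allY (E.wth (lkp [])) l17515 = true ∧
    allY (E.wth (lkp [])) l17516 = true :=
  ⟨by decide +kernel, by decide +kernel, by decide +kernel, by decide +kernel, by decide +kernel, by decide +kernel, by decide +kernel, by decide +kernel⟩

def t17517 : allY (E.wth (lkp [])) l17517 = true ∧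
    allY (E.wth (lkp [])) l17518 = true ∧
    allY (E.wth (lkp [])) l17519 = true ∧
    allY (E.wth (lkp [])) l17520 = true ∧
    allY (E.wth (lkp [])) l17521 = true ∧
    allY (E.wth (lkp [])) l17522 = true ∧
    allY (E.wth (lkp [])) l17523 = true ∧
    allY (E.wth (lkp [])) l17524 = true :=
  ⟨by decide +kernel, by decide +kernel, by decide +kernel, by decide +kernel, by decide +kernel, by decide +kernel, by decide +kernel, by decide +kernel⟩

def t17525 : allY (E.wth (lkp [])) l17525 = true ∧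
    allY (E.wth (lkp [])) l17526 = true ∧
    allY (E.wth (lkp [])) l17527 = true ∧
    allY (E.wth (lkp [])) l17528 = true ∧
    allY (E.wth (lkp [])) l17529 = true ∧
    allY (E.wth (lkp [])) l17530 = true ∧
    allY (E.wth (lkp [])) l17531 = true ∧
    allY (E.wth (lkp [])) l17532 = true :=
  ⟨by decide +kernel, by decide +kernel, by decide +kernel, by decide +kernel, by decide +kernel, by decide +kernel, by decide +kernel, by decide +kernel⟩

def t17533 : allY (E.wth (lkp [])) l17533 = true ∧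
    allY (E.wth (lkp [])) l17534 = true ∧
    allY (E.wth (lkp [])) l17535 = true ∧
    allY (E.wth (lkp [])) l17536 = true ∧
    allY (E.wth (lkp [])) l17537 = true ∧
    allY (E.wth (lkp [])) l17538 = true ∧
    allY (E.wth (lkp [])) l17539 = true ∧
    allY (E.wth (lkp [])) l17540 = true :=
  ⟨by decide +kernel, by decide +kernel, by decide +kernel, by decide +kernel, by decide +kernel, by decide +kernel, by decide +kernel, by decide +kernel⟩

def t17541 : allY (E.wth (lkp [])) l17541 = true ∧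
    allY (E.wth (lkp [])) l17542 = true ∧
    allY (E.wth (lkp [])) l17543 = true ∧
    allY (E.wth (lkp [])) l17544 = true ∧
    allY (E.wth (lkp [])) l17545 = true ∧
    allY (E.wth (lkp [])) l17546 = true ∧
    allY (E.wth (lkp [])) l17547 = true ∧
    allY (E.wth (lkp [])) l17548 = true :=
  ⟨by decide +kernel, by decide +kernel, by decide +kernel, by decide +kernel, by decide +kernel, by decide +kernel, by decide +kernel, by decide +kernel⟩

def t17549 : allY (E.wth (lkp [])) l17549 = true ∧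
    allY (E.wth (lkp [])) l17550 = true ∧
    allY (E.wth (lkp [])) l17551 = true ∧
    allY (E.wth (lkp [])) l17552 = true ∧
    allY (E.wth (lkp [])) l17553 = true ∧
    allY (E.wth (lkp [])) l17554 = true ∧
    allY (E.wth (lkp [])) l17555 = true ∧
    allY (E.wth (lkp [])) l17556 = true :=
  ⟨by decide +kernel, by decide +kernel, by decide +kernel, by decide +kernel, by decide +kernel, by decide +kernel, by decide +kernel, by decide +kernel⟩

def t17557 : allY (E.wth (lkp [])) l17557 = true ∧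
    allY (E.wth (lkp [])) l17558 = true ∧
    allY (E.wth (lkp [])) l17559 = true ∧
    allY (E.wth (lkp [])) l17560 = true ∧
    allY (E.wth (lkp [])) l17561 = true ∧
    allY (E.wth (lkp [])) l17562 = true ∧
    allY (E.wth (lkp [])) l17563 = true ∧
    allY (E.wth (lkp [])) l17564 = true :=
  ⟨by decide +kernel, by decide +kernel, by decide +kernel, by decide +kernel, by decide +kernel, by decide +kernel, by decide +kernel, by decide +kernel⟩

def t17565 : allY (E.wth (lkp [])) l17565 = true ∧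
    allY (E.wth (lkp [])) l17566 = true ∧
    allY (E.wth (lkp [])) l17567 = true ∧
    allY (E.wth (lkp [])) l17568 = true ∧
    allY (E.wth (lkp [])) l17569 = true ∧
    allY (E.wth (lkp [])) l17570 = true ∧
    allY (E.wth (lkp [])) l17571 = true ∧
    allY (E.wth (lkp [])) l17572 = true :=
  ⟨by decide +kernel, by decide +kernel, by decide +kernel, by decide +kernel, by decide +kernel, by decide +kernel, by decide +kernel, by decide +kernel⟩

def t17573 : allY (E.wth (lkp [])) l17573 = true ∧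
    allY (E.wth (lkp [])) l17574 = true ∧
    allY (E.wth (lkp [])) l17575 = true ∧
    allY (E.wth (lkp [])) l17576 = true ∧
    allY (E.wth (lkp [])) l17577 = true ∧
    allY (E.wth (lkp [])) l17578 = true ∧
    allY (E.wth (lkp [])) l17579 = true ∧
    allY (E.wth (lkp [])) l17580 = true :=
  ⟨by decide +kernel, by decide +kernel, by decide +kernel, by decide +kernel, by decide +kernel, by decide +kernel, by decide +kernel, by decide +kernel⟩

def t17581 : allY (E.wth (lkp [])) l17581 = true ∧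
    allY (E.wth (lkp [])) l17582 = true ∧
    allY (E.wth (lkp [])) l17583 = true ∧
    allY (E.wth (lkp [])) l17584 = true ∧
    allY (E.wth (lkp [])) l17585 = true ∧
    allY (E.wth (lkp [])) l17586 = true ∧
    allY (E.wth (lkp [])) l17587 = true ∧
    allY (E.wth (lkp [])) l17588 = true :=
  ⟨by decide +kernel, by decide +kernel, by decide +kernel, by decide +kernel, by decide +kernel, by decide +kernel, by decide +kernel, by decide +kernel⟩

def t17589 : allY (E.wth (lkp [])) l17589 = true ∧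
    allY (E.wth (lkp [])) l17590 = true ∧
    allY (E.wth (lkp [])) l17591 = true ∧
    allY (E.wth (lkp [])) l17592 = true ∧
    allY (E.wth (lkp [])) l17593 = true ∧
    allY (E.wth (lkp [])) l17594 = true ∧
    allY (E.wth (lkp [])) l17595 = true ∧
    allY (E.wth (lkp [])) l17596 = true :=
  ⟨by decide +kernel, by decide +kernel, by decide +kernel, by decide +kernel, by decide +kernel, by decide +kernel, by decide +kernel, by decide +kernel⟩

def t17597 : allY (E.wth (lkp [])) l17597 = true ∧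
    allY (E.wth (lkp [])) l17598 = true ∧
    allY (E.wth (lkp [])) l17599 = true ∧
    allY (E.wth (lkp [])) l17600 = true ∧
    allY (E.wth (lkp [])) l17601 = true ∧
    allY (E.wth (lkp [])) l17602 = true ∧
    allY (E.wth (lkp [])) l17603 = true ∧
    allY (E.wth (lkp [])) l17604 = true :=
  ⟨by decide +kernel, by decide +kernel, by decide +kernel, by decide +kernel, by decide +kernel, by decide +kernel, by decide +kernel, by decide +kernel⟩

def t17605 : allY (E.wth (lkp [])) l17605 = true ∧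
    allY (E.wth (lkp [])) l17606 = true ∧
    allY (E.wth (lkp [])) l17607 = true ∧
    allY (E.wth (lkp [])) l17608 = true ∧
    allY (E.wth (lkp [])) l17609 = true ∧
    allY (E.wth (lkp [])) l17610 = true ∧
    allY (E.wth (lkp [])) l17611 = true ∧
    allY (E.wth (lkp [])) l17612 = true :=
  ⟨by decide +kernel, by decide +kernel, by decide +kernel, by decide +kernel, by decide +kernel, by decide +kernel, by decide +kernel, by decide +kernel⟩

def t17613 : allY (E.wth (lkp [])) l17613 = true ∧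
    allY (E.wth (lkp [])) l17614 = true ∧
    allY (E.wth (lkp [])) l17615 = true ∧
    allY (E.wth (lkp [])) l17616 = true ∧
    allY (E.wth (lkp [])) l17617 = true ∧
    allY (E.wth (lkp [])) l17618 = true ∧
    allY (E.wth (lkp [])) l17619 = true ∧
    allY (E.wth (lkp [])) l17620 = true :=
  ⟨by decide +kernel, by decide +kernel, by decide +kernel, by decide +kernel, by decide +kernel, by decide +kernel, by decide +kernel, by decide +kernel⟩

def t17621 : allY (E.wth (lkp [])) l17621 = true ∧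
    allY (E.wth (lkp [])) l17622 = true ∧
    allY (E.wth (lkp [])) l17623 = true ∧
    allY (E.wth (lkp [])) l17624 = true ∧
    allY (E.wth (lkp [])) l17625 = true ∧
    allY (E.wth (lkp [])) l17626 = true ∧
    allY (E.wth (lkp [])) l17627 = true ∧
    allY (E.wth (lkp [])) l17628 = true :=
  ⟨by decide +kernel, by decide +kernel, by decide +kernel, by decide +kernel, by decide +kernel, by decide +kernel, by decide +kernel, by decide +kernel⟩

def t17629 : allY (E.wth (lkp [])) l17629 = true ∧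
    allY (E.wth (lkp [])) l17630 = true ∧
    allY (E.wth (lkp [])) l17631 = true ∧
    allY (E.wth (lkp [])) l17632 = true ∧
    allY (E.wth (lkp [])) l17633 = true ∧
    allY (E.wth (lkp [])) l17634 = true ∧
    allY (E.wth (lkp [])) l17635 = true ∧
    allY (E.wth (lkp [])) l17636 = true :=
  ⟨by decide +kernel, by decide +kernel, by decide +kernel, by decide +kernel, by decide +kernel, by decide +kernel, by decide +kernel, by decide +kernel⟩

def t17637 : allY (E.wth (lkp [])) l17637 = true ∧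
    allY (E.wth (lkp [])) l17638 = true ∧
    allY (E.wth (lkp [])) l17639 = true ∧
    allY (E.wth (lkp [])) l17640 = true ∧
    allY (E.wth (lkp [])) l17641 = true ∧
    allY (E.wth (lkp [])) l17642 = true ∧
    allY (E.wth (lkp [])) l17643 = true ∧
    allY (E.wth (lkp [])) l17644 = true :=
  ⟨by decide +kernel, by decide +kernel, by decide +kernel, by decide +kernel, by decide +kernel, by decide +kernel, by decide +kernel, by decide +kernel⟩

def t17645 : allY (E.wth (lkp [])) l17645 = true ∧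
    allY (E.wth (lkp [])) l17646 = true ∧
    allY (E.wth (lkp [])) l17647 = true ∧
    allY (E.wth (lkp [])) l17648 = true ∧
    allY (E.wth (lkp [])) l17649 = true ∧
    allY (E.wth (lkp [])) l17650 = true ∧
    allY (E.wth (lkp [])) l17651 = true ∧
    allY (E.wth (lkp [])) l17652 = true :=
  ⟨by decide +kernel, by decide +kernel, by decide +kernel, by decide +kernel, by decide +kernel, by decide +kernel, by decide +kernel, by decide +kernel⟩

def t17653 : allY (E.wth (lkp [])) l17653 = true ∧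
    allY (E.wth (lkp [])) l17654 = true ∧
    allY (E.wth (lkp [])) l17655 = true ∧
    allY (E.wth (lkp [])) l17656 = true ∧
    allY (E.wth (lkp [])) l17657 = true ∧
    allY (E.wth (lkp [])) l17658 = true ∧
    allY (E.wth (lkp [])) l17659 = true ∧
    allY (E.wth (lkp [])) l17660 = true :=
  ⟨by decide +kernel, by decide +kernel, by decide +kernel, by decide +kernel, by decide +kernel, by decide +kernel, by decide +kernel, by decide +kernel⟩

def t17661 : allY (E.wth (lkp [])) l17661 = true ∧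
    allY (E.wth (lkp [])) l17662 = true ∧
    allY (E.wth (lkp [])) l17663 = true ∧
    allY (E.wth (lkp [])) l17664 = true ∧
    allY (E.wth (lkp [])) l17665 = true ∧
    allY (E.wth (lkp [])) l17666 = true ∧
    allY (E.wth (lkp [])) l17667 = true ∧
    allY (E.wth (lkp [])) l17668 = true :=
  ⟨by decide +kernel, by decide +kernel, by decide +kernel, by decide +kernel, by decide +kernel, by decide +kernel, by decide +kernel, by decide +kernel⟩

def t17669 : allY (E.wth (lkp [])) l17669 = true ∧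
    allY (E.wth (lkp [])) l17670 = true ∧
    allY (E.wth (lkp [])) l17671 = true ∧
    allY (E.wth (lkp [])) l17672 = true ∧
    allY (E.wth (lkp [])) l17673 = true ∧
    allY (E.wth (lkp [])) l17674 = true ∧
    allY (E.wth (lkp [])) l17675 = true ∧
    allY (E.wth (lkp [])) l17676 = true :=
  ⟨by decide +kernel, by decide +kernel, by decide +kernel, by decide +kernel, by decide +kernel, by decide +kernel, by decide +kernel, by decide +kernel⟩

def t17677 : allY (E.wth (lkp [])) l17677 = true ∧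
    allY (E.wth (lkp [])) l17678 = true ∧
    allY (E.wth (lkp [])) l17679 = true ∧
    allY (E.wth (lkp [])) l17680 = true ∧
    allY (E.wth (lkp [])) l17681 = true ∧
    allY (E.wth (lkp [])) l17682 = true ∧
    allY (E.wth (lkp [])) l17683 = true ∧
    allY (E.wth (lkp [])) l17684 = true :=
  ⟨by decide +kernel, by decide +kernel, by decide +kernel, by decide +kernel, by decide +kernel, by decide +kernel, by decide +kernel, by decide +kernel⟩

def t17685 : allY (E.wth (lkp [])) l17685 = true ∧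
    allY (E.wth (lkp [])) l17686 = true ∧
    allY (E.wth (lkp [])) l17687 = true ∧
    allY (E.wth (lkp [])) l17688 = true ∧
    allY (E.wth (lkp [])) l17689 = true ∧
    allY (E.wth (lkp [])) l17690 = true ∧
    allY (E.wth (lkp [])) l17691 = true ∧
    allY (E.wth (lkp [])) l17692 = true :=
  ⟨by decide +kernel, by decide +kernel, by decide +kernel, by decide +kernel, by decide +kernel, by decide +kernel, by decide +kernel, by decide +kernel⟩

def t17693 : allY (E.wth (lkp [])) l17693 = true ∧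
    allY (E.wth (lkp [])) l17694 = true ∧
    allY (E.wth (lkp [])) l17695 = true ∧
    allY (E.wth (lkp [])) l17696 = true ∧
    allY (E.wth (lkp [])) l17697 = true ∧
    allY (E.wth (lkp [])) l17698 = true ∧
    allY (E.wth (lkp [])) l17699 = true ∧
    allY (E.wth (lkp [])) l17700 = true :=
  ⟨by decide +kernel, by decide +kernel, by decide +kernel, by decide +kernel, by decide +kernel, by decide +kernel, by decide +kernel, by decide +kernel⟩

def t17701 : allY (E.wth (lkp [])) l17701 = true ∧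
    allY (E.wth (lkp [])) l17702 = true ∧
    allY (E.wth (lkp [])) l17703 = true ∧
    allY (E.wth (lkp [])) l17704 = true ∧
    allY (E.wth (lkp [])) l17705 = true ∧
    allY (E.wth (lkp [])) l17706 = true ∧
    allY (E.wth (lkp [])) l17707 = true ∧
    allY (E.wth (lkp [])) l17708 = true :=
  ⟨by decide +kernel, by decide +kernel, by decide +kernel, by decide +kernel, by decide +kernel, by decide +kernel, by decide +kernel, by decide +kernel⟩

def t17709 : allY (E.wth (lkp [])) l17709 = true ∧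
    allY (E.wth (lkp [])) l17710 = true ∧
    allY (E.wth (lkp [])) l17711 = true ∧
    allY (E.wth (lkp [])) l17712 = true ∧
    allY (E.wth (lkp [])) l17713 = true ∧
    allY (E.wth (lkp [])) l17714 = true ∧
    allY (E.wth (lkp [])) l17715 = true ∧
    allY (E.wth (lkp [])) l17716 = true :=
  ⟨by decide +kernel, by decide +kernel, by decide +kernel, by decide +kernel, by decide +kernel, by decide +kernel, by decide +kernel, by decide +kernel⟩

def t17717 : allY (E.wth (lkp [])) l17717 = true ∧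
    allY (E.wth (lkp [])) l17718 = true ∧
    allY (E.wth (lkp [])) l17719 = true ∧
    allY (E.wth (lkp [])) l17720 = true ∧
    allY (E.wth (lkp [])) l17721 = true ∧
    allY (E.wth (lkp [])) l17722 = true ∧
    allY (E.wth (lkp [])) l17723 = true ∧
    allY (E.wth (lkp [])) l17724 = true :=
  ⟨by decide +kernel, by decide +kernel, by decide +kernel, by decide +kernel, by decide +kernel, by decide +kernel, by decide +kernel, by decide +kernel⟩

def t17725 : allY (E.wth (lkp [])) l17725 = true ∧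
    allY (E.wth (lkp [])) l17726 = true ∧
    allY (E.wth (lkp [])) l17727 = true ∧
    allY (E.wth (lkp [])) l17728 = true ∧
    allY (E.wth (lkp [])) l17729 = true ∧
    allY (E.wth (lkp [])) l17730 = true ∧
    allY (E.wth (lkp [])) l17731 = true ∧
    allY (E.wth (lkp [])) l17732 = true :=
  ⟨by decide +kernel, by decide +kernel, by decide +kernel, by decide +kernel, by decide +kernel, by decide +kernel, by decide +kernel, by decide +kernel⟩

def t17733 : allY (E.wth (lkp [])) l17733 = true ∧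
    allY (E.wth (lkp [])) l17734 = true ∧
    allY (E.wth (lkp [])) l17735 = true ∧
    allY (E.wth (lkp [])) l17736 = true ∧
    allY (E.wth (lkp [])) l17737 = true ∧
    allY (E.wth (lkp [])) l17738 = true ∧
    allY (E.wth (lkp [])) l17739 = true ∧
    allY (E.wth (lkp [])) l17740 = true :=
  ⟨by decide +kernel, by decide +kernel, by decide +kernel, by decide +kernel, by decide +kernel, by decide +kernel, by decide +kernel, by decide +kernel⟩

def t17741 : allY (E.wth (lkp [])) l17741 = true ∧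
    allY (E.wth (lkp [])) l17742 = true ∧
    allY (E.wth (lkp [])) l17743 = true ∧
    allY (E.wth (lkp [])) l17744 = true ∧
    allY (E.wth (lkp [])) l17745 = true ∧
    allY (E.wth (lkp [])) l17746 = true ∧
    allY (E.wth (lkp [])) l17747 = true ∧
    allY (E.wth (lkp [])) l17748 = true :=
  ⟨by decide +kernel, by decide +kernel, by decide +kernel, by decide +kernel, by decide +kernel, by decide +kernel, by decide +kernel, by decide +kernel⟩

def t17749 : allY (E.wth (lkp [])) l17749 = true ∧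
    allY (E.wth (lkp [])) l17750 = true ∧
    allY (E.wth (lkp [])) l17751 = true ∧
    allY (E.wth (lkp [])) l17752 = true ∧
    allY (E.wth (lkp [])) l17753 = true ∧
    allY (E.wth (lkp [])) l17754 = true ∧
    allY (E.wth (lkp [])) l17755 = true ∧
    allY (E.wth (lkp [])) l17756 = true :=
  ⟨by decide +kernel, by decide +kernel, by decide +kernel, by decide +kernel, by decide +kernel, by decide +kernel, by decide +kernel, by decide +kernel⟩

def t17757 : allY (E.wth (lkp [])) l17757 = true ∧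
    allY (E.wth (lkp [])) l17758 = true ∧
    allY (E.wth (lkp [])) l17759 = true ∧
    allY (E.wth (lkp [])) l17760 = true ∧
    allY (E.wth (lkp [])) l17761 = true ∧
    allY (E.wth (lkp [])) l17762 = true ∧
    allY (E.wth (lkp [])) l17763 = true ∧
    allY (E.wth (lkp [])) l17764 = true :=
  ⟨by decide +kernel, by decide +kernel, by decide +kernel, by decide +kernel, by decide +kernel, by decide +kernel, by decide +kernel, by decide +kernel⟩

def t17765 : allY (E.wth (lkp [])) l17765 = true ∧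
    allY (E.wth (lkp [])) l17766 = true ∧
    allY (E.wth (lkp [])) l17767 = true ∧
    allY (E.wth (lkp [])) l17768 = true ∧
    allY (E.wth (lkp [])) l17769 = true ∧
    allY (E.wth (lkp [])) l17770 = true ∧
    allY (E.wth (lkp [])) l17771 = true ∧
    allY (E.wth (lkp [])) l17772 = true :=
  ⟨by decide +kernel, by decide +kernel, by decide +kernel, by decide +kernel, by decide +kernel, by decide +kernel, by decide +kernel, by decide +kernel⟩

def t17773 : allY (E.wth (lkp [])) l17773 = true ∧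
    allY (E.wth (lkp [])) l17774 = true ∧
    allY (E.wth (lkp [])) l17775 = true ∧
    allY (E.wth (lkp [])) l17776 = true ∧
    allY (E.wth (lkp [])) l17777 = true ∧
    allY (E.wth (lkp [])) l17778 = true ∧
    allY (E.wth (lkp [])) l17779 = true ∧
    allY (E.wth (lkp [])) l17780 = true :=
  ⟨by decide +kernel, by decide +kernel, by decide +kernel, by decide +kernel, by decide +kernel, by decide +kernel, by decide +kernel, by decide +kernel⟩

def t17781 : allY (E.wth (lkp [])) l17781 = true ∧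
    allY (E.wth (lkp [])) l17782 = true ∧
    allY (E.wth (lkp [])) l17783 = true ∧
    allY (E.wth (lkp [])) l17784 = true ∧
    allY (E.wth (lkp [])) l17785 = true ∧
    allY (E.wth (lkp [])) l17786 = true ∧
    allY (E.wth (lkp [])) l17787 = true ∧
    allY (E.wth (lkp [])) l17788 = true :=
  ⟨by decide +kernel, by decide +kernel, by decide +kernel, by decide +kernel, by decide +kernel, by decide +kernel, by decide +kernel, by decide +kernel⟩

def t17789 : allY (E.wth (lkp [])) l17789 = true ∧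
    allY (E.wth (lkp [])) l17790 = true ∧
    allY (E.wth (lkp [])) l17791 = true ∧
    allY (E.wth (lkp [])) l17792 = true ∧
    allY (E.wth (lkp [])) l17793 = true ∧
    allY (E.wth (lkp [])) l17794 = true ∧
    allY (E.wth (lkp [])) l17795 = true ∧
    allY (E.wth (lkp [])) l17796 = true :=
  ⟨by decide +kernel, by decide +kernel, by decide +kernel, by decide +kernel, by decide +kernel, by decide +kernel, by decide +kernel, by decide +kernel⟩

def t17797 : allY (E.wth (lkp [])) l17797 = true ∧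
    allY (E.wth (lkp [])) l17798 = true ∧
    allY (E.wth (lkp [])) l17799 = true ∧
    allY (E.wth (lkp [])) l17800 = true ∧
    allY (E.wth (lkp [])) l17801 = true ∧
    allY (E.wth (lkp [])) l17802 = true ∧
    allY (E.wth (lkp [])) l17803 = true ∧
    allY (E.wth (lkp [])) l17804 = true :=
  ⟨by decide +kernel, by decide +kernel, by decide +kernel, by decide +kernel, by decide +kernel, by decide +kernel, by decide +kernel, by decide +kernel⟩

def t17805 : allY (E.wth (lkp [])) l17805 = true ∧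
    allY (E.wth (lkp [])) l17806 = true ∧
    allY (E.wth (lkp [])) l17807 = true ∧
    allY (E.wth (lkp [])) l17808 = true ∧
    allY (E.wth (lkp [])) l17809 = true ∧
    allY (E.wth (lkp [])) l17810 = true ∧
    allY (E.wth (lkp [])) l17811 = true ∧
    allY (E.wth (lkp [])) l17812 = true :=
  ⟨by decide +kernel, by decide +kernel, by decide +kernel, by decide +kernel, by decide +kernel, by decide +kernel, by decide +kernel, by decide +kernel⟩

def t17813 : allY (E.wth (lkp [])) l17813 = true ∧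
    allY (E.wth (lkp [])) l17814 = true ∧
    allY (E.wth (lkp [])) l17815 = true ∧
    allY (E.wth (lkp [])) l17816 = true ∧
    allY (E.wth (lkp [])) l17817 = true ∧
    allY (E.wth (lkp [])) l17818 = true ∧
    allY (E.wth (lkp [])) l17819 = true ∧
    allY (E.wth (lkp [])) l17820 = true :=
  ⟨by decide +kernel, by decide +kernel, by decide +kernel, by decide +kernel, by decide +kernel, by decide +kernel, by decide +kernel, by decide +kernel⟩

def t17821 : allY (E.wth (lkp [])) l17821 = true ∧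
    allY (E.wth (lkp [])) l17822 = true ∧
    allY (E.wth (lkp [])) l17823 = true ∧
    allY (E.wth (lkp [])) l17824 = true ∧
    allY (E.wth (lkp [])) l17825 = true ∧
    allY (E.wth (lkp [])) l17826 = true ∧
    allY (E.wth (lkp [])) l17827 = true ∧
    allY (E.wth (lkp [])) l17828 = true :=
  ⟨by decide +kernel, by decide +kernel, by decide +kernel, by decide +kernel, by decide +kernel, by decide +kernel, by decide +kernel, by decide +kernel⟩

def t17829 : allY (E.wth (lkp [])) l17829 = true ∧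
    allY (E.wth (lkp [])) l17830 = true ∧
    allY (E.wth (lkp [])) l17831 = true ∧
    allY (E.wth (lkp [])) l17832 = true ∧
    allY (E.wth (lkp [])) l17833 = true ∧
    allY (E.wth (lkp [])) l17834 = true ∧
    allY (E.wth (lkp [])) l17835 = true ∧
    allY (E.wth (lkp [])) l17836 = true :=
  ⟨by decide +kernel, by decide +kernel, by decide +kernel, by decide +kernel, by decide +kernel, by decide +kernel, by decide +kernel, by decide +kernel⟩

def t17837 : allY (E.wth (lkp [])) l17837 = true ∧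
    allY (E.wth (lkp [])) l17838 = true ∧
    allY (E.wth (lkp [])) l17839 = true ∧
    allY (E.wth (lkp [])) l17840 = true ∧
    allY (E.wth (lkp [])) l17841 = true ∧
    allY (E.wth (lkp [])) l17842 = true ∧
    allY (E.wth (lkp [])) l17843 = true ∧
    allY (E.wth (lkp [])) l17844 = true :=
  ⟨by decide +kernel, by decide +kernel, by decide +kernel, by decide +kernel, by decide +kernel, by decide +kernel, by decide +kernel, by decide +kernel⟩

def t17845 : allY (E.wth (lkp [])) l17845 = true ∧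
    allY (E.wth (lkp [])) l17846 = true ∧
    allY (E.wth (lkp [])) l17847 = true ∧
    allY (E.wth (lkp [])) l17848 = true ∧
    allY (E.wth (lkp [])) l17849 = true ∧
    allY (E.wth (lkp [])) l17850 = true ∧
    allY (E.wth (lkp [])) l17851 = true ∧
    allY (E.wth (lkp [])) l17852 = true :=
  ⟨by decide +kernel, by decide +kernel, by decide +kernel, by decide +kernel, by decide +kernel, by decide +kernel, by decide +kernel, by decide +kernel⟩

def t17853 : allY (E.wth (lkp [])) l17853 = true ∧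
    allY (E.wth (lkp [])) l17854 = true ∧
    allY (E.wth (lkp [])) l17855 = true ∧
    allY (E.wth (lkp [])) l17856 = true ∧
    allY (E.wth (lkp [])) l17857 = true ∧
    allY (E.wth (lkp [])) l17858 = true ∧
    allY (E.wth (lkp [])) l17859 = true ∧
    allY (E.wth (lkp [])) l17860 = true :=
  ⟨by decide +kernel, by decide +kernel, by decide +kernel, by decide +kernel, by decide +kernel, by decide +kernel, by decide +kernel, by decide +kernel⟩

def t17861 : allY (E.wth (lkp [])) l17861 = true ∧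
    allY (E.wth (lkp [])) l17862 = true ∧
    allY (E.wth (lkp [])) l17863 = true ∧
    allY (E.wth (lkp [])) l17864 = true ∧
    allY (E.wth (lkp [])) l17865 = true ∧
    allY (E.wth (lkp [])) l17866 = true ∧
    allY (E.wth (lkp [])) l17867 = true ∧
    allY (E.wth (lkp [])) l17868 = true :=
  ⟨by decide +kernel, by decide +kernel, by decide +kernel, by decide +kernel, by decide +kernel, by decide +kernel, by decide +kernel, by decide +kernel⟩

def t17869 : allY (E.wth (lkp [])) l17869 = true ∧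
    allY (E.wth (lkp [])) l17870 = true ∧
    allY (E.wth (lkp [])) l17871 = true ∧
    allY (E.wth (lkp [])) l17872 = true ∧
    allY (E.wth (lkp [])) l17873 = true ∧
    allY (E.wth (lkp [])) l17874 = true ∧
    allY (E.wth (lkp [])) l17875 = true ∧
    allY (E.wth (lkp [])) l17876 = true :=
  ⟨by decide +kernel, by decide +kernel, by decide +kernel, by decide +kernel, by decide +kernel, by decide +kernel, by decide +kernel, by decide +kernel⟩

def t17877 : allY (E.wth (lkp [])) l17877 = true ∧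
    allY (E.wth (lkp [])) l17878 = true ∧
    allY (E.wth (lkp [])) l17879 = true ∧
    allY (E.wth (lkp [])) l17880 = true ∧
    allY (E.wth (lkp [])) l17881 = true ∧
    allY (E.wth (lkp [])) l17882 = true ∧
    allY (E.wth (lkp [])) l17883 = true ∧
    allY (E.wth (lkp [])) l17884 = true :=
  ⟨by decide +kernel, by decide +kernel, by decide +kernel, by decide +kernel, by decide +kernel, by decide +kernel, by decide +kernel, by decide +kernel⟩

def t17885 : allY (E.wth (lkp [])) l17885 = true ∧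
    allY (E.wth (lkp [])) l17886 = true ∧
    allY (E.wth (lkp [])) l17887 = true ∧
    allY (E.wth (lkp [])) l17888 = true ∧
    allY (E.wth (lkp [])) l17889 = true ∧
    allY (E.wth (lkp [])) l17890 = true ∧
    allY (E.wth (lkp [])) l17891 = true ∧
    allY (E.wth (lkp [])) l17892 = true :=
  ⟨by decide +kernel, by decide +kernel, by decide +kernel, by decide +kernel, by decide +kernel, by decide +kernel, by decide +kernel, by decide +kernel⟩

def t17893 : allY (E.wth (lkp [])) l17893 = true ∧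
    allY (E.wth (lkp [])) l17894 = true ∧
    allY (E.wth (lkp [])) l17895 = true ∧
    allY (E.wth (lkp [])) l17896 = true ∧
    allY (E.wth (lkp [])) l17897 = true ∧
    allY (E.wth (lkp [])) l17898 = true ∧
    allY (E.wth (lkp [])) l17899 = true ∧
    allY (E.wth (lkp [])) l17900 = true :=
  ⟨by decide +kernel, by decide +kernel, by decide +kernel, by decide +kernel, by decide +kernel, by decide +kernel, by decide +kernel, by decide +kernel⟩

def t17901 : allY (E.wth (lkp [])) l17901 = true ∧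
    allY (E.wth (lkp [])) l17902 = true ∧
    allY (E.wth (lkp [])) l17903 = true ∧
    allY (E.wth (lkp [])) l17904 = true ∧
    allY (E.wth (lkp [])) l17905 = true ∧
    allY (E.wth (lkp [])) l17906 = true ∧
    allY (E.wth (lkp [])) l17907 = true ∧
    allY (E.wth (lkp [])) l17908 = true :=
  ⟨by decide +kernel, by decide +kernel, by decide +kernel, by decide +kernel, by decide +kernel, by decide +kernel, by decide +kernel, by decide +kernel⟩

def t17909 : allY (E.wth (lkp [])) l17909 = true ∧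
    allY (E.wth (lkp [])) l17910 = true ∧
    allY (E.wth (lkp [])) l17911 = true ∧
    allY (E.wth (lkp [])) l17912 = true ∧
    allY (E.wth (lkp [])) l17913 = true ∧
    allY (E.wth (lkp [])) l17914 = true ∧
    allY (E.wth (lkp [])) l17915 = true ∧
    allY (E.wth (lkp [])) l17916 = true :=
  ⟨by decide +kernel, by decide +kernel, by decide +kernel, by decide +kernel, by decide +kernel, by decide +kernel, by decide +kernel, by decide +kernel⟩

def t17917 : allY (E.wth (lkp [])) l17917 = true ∧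
    allY (E.wth (lkp [])) l17918 = true ∧
    allY (E.wth (lkp [])) l17919 = true ∧
    allY (E.wth (lkp [])) l17920 = true ∧
    allY (E.wth (lkp [])) l17921 = true ∧
    allY (E.wth (lkp [])) l17922 = true ∧
    allY (E.wth (lkp [])) l17923 = true ∧
    allY (E.wth (lkp [])) l17924 = true :=
  ⟨by decide +kernel, by decide +kernel, by decide +kernel, by decide +kernel, by decide +kernel, by decide +kernel, by decide +kernel, by decide +kernel⟩

def t17925 : allY (E.wth (lkp [])) l17925 = true ∧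
    allY (E.wth (lkp [])) l17926 = true ∧
    allY (E.wth (lkp [])) l17927 = true ∧
    allY (E.wth (lkp [])) l17928 = true ∧
    allY (E.wth (lkp [])) l17929 = true ∧
    allY (E.wth (lkp [])) l17930 = true ∧
    allY (E.wth (lkp [])) l17931 = true ∧
    allY (E.wth (lkp [])) l17932 = true :=
  ⟨by decide +kernel, by decide +kernel, by decide +kernel, by decide +kernel, by decide +kernel, by decide +kernel, by decide +kernel, by decide +kernel⟩

theorem a31 {p : Rf → Prop} (H : ∀ l, allY (E.wth (lkp [])) l = true → (lkp l).All p) :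
    b31.All p := ⟨⟨⟨⟨⟨⟨⟨⟨⟨H _ t17381.1, H _ t17381.2.1⟩, ⟨H _ t17381.2.2.1, H _ t17381.2.2.2.1⟩⟩, ⟨⟨H _ t17381.2.2.2.2.1, H _ t17381.2.2.2.2.2.1⟩, ⟨H _ t17381.2.2.2.2.2.2.1, H _ t17381.2.2.2.2.2.2.2⟩⟩⟩, ⟨⟨⟨H _ t17389.1, H _ t17389.2.1⟩, ⟨H _ t17389.2.2.1, H _ t17389.2.2.2.1⟩⟩, ⟨⟨H _ t17389.2.2.2.2.1, H _ t17389.2.2.2.2.2.1⟩, ⟨H _ t17389.2.2.2.2.2.2.1, ⟨H _ t17389.2.2.2.2.2.2.2, H _ t17397.1⟩⟩⟩⟩⟩, ⟨⟨⟨⟨H _ t17397.2.1, H _ t17397.2.2.1⟩, ⟨H _ t17397.2.2.2.1, H _ t17397.2.2.2.2.1⟩⟩, ⟨⟨H _ t17397.2.2.2.2.2.1, H _ t17397.2.2.2.2.2.2.1⟩, ⟨H _ t17397.2.2.2.2.2.2.2, H _ t17405.1⟩⟩⟩, ⟨⟨⟨H _ t17405.2.1, H _ t17405.2.2.1⟩, ⟨H _ t17405.2.2.2.1, H _ t17405.2.2.2.2.1⟩⟩, ⟨⟨H _ t17405.2.2.2.2.2.1, H _ t17405.2.2.2.2.2.2.1⟩, ⟨H _ t17405.2.2.2.2.2.2.2, ⟨H _ t17413.1, H _ t17413.2.1⟩⟩⟩⟩⟩⟩, ⟨⟨⟨⟨⟨H _ t17413.2.2.1, H _ t17413.2.2.2.1⟩, ⟨H _ t17413.2.2.2.2.1, H _ t17413.2.2.2.2.2.1⟩⟩, ⟨⟨H _ t17413.2.2.2.2.2.2.1, H _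 t17413.2.2.2.2.2.2.2⟩, ⟨H _ t17421.1, H _ t17421.2.1⟩⟩⟩, ⟨⟨⟨H _ t17421.2.2.1, H _ t17421.2.2.2.1⟩, ⟨H _ t17421.2.2.2.2.1, H _ t17421.2.2.2.2.2.1⟩⟩, ⟨⟨H _ t17421.2.2.2.2.2.2.1, H _ t17421.2.2.2.2.2.2.2⟩, ⟨H _ t17429.1, ⟨H _ t17429.2.1, H _ t17429.2.2.1⟩⟩⟩⟩⟩, ⟨⟨⟨⟨H _ t17429.2.2.2.1, H _ t17429.2.2.2.2.1⟩, ⟨H _ t17429.2.2.2.2.2.1, H _ t17429.2.2.2.2.2.2.1⟩⟩, ⟨⟨H _ t17429.2.2.2.2.2.2.2, H _ t17437.1⟩, ⟨H _ t17437.2.1, ⟨H _ t17437.2.2.1, H _ t17437.2.2.2.1⟩⟩⟩⟩, ⟨⟨⟨H _ t17437.2.2.2.2.1, H _ t17437.2.2.2.2.2.1⟩, ⟨H _ t17437.2.2.2.2.2.2.1, H _ t17437.2.2.2.2.2.2.2⟩⟩, ⟨⟨H _ t17445.1, H _ t17445.2.1⟩, ⟨H _ t17445.2.2.1, ⟨H _ t17445.2.2.2.1, H _ t17445.2.2.2.2.1⟩⟩⟩⟩⟩⟩⟩, ⟨⟨⟨⟨⟨⟨H _ t17445.2.2.2.2.2.1, H _ t17445.2.2.2.2.2.2.1⟩, ⟨H _ t17445.2.2.2.2.2.2.2, H _ t17453.1⟩⟩, ⟨⟨H _ t17453.2.1, H _ t17453.2.2.1⟩, ⟨H _ t17453.2.2.2.1, H _ t17453.2.2.2.2.1⟩⟩⟩, ⟨⟨⟨H _ t17453.2.2.2.2.2.1, H _ t17453.2.2.2.2.2.2.1⟩,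 ⟨H _ t17453.2.2.2.2.2.2.2, H _ t17461.1⟩⟩, ⟨⟨H _ t17461.2.1, H _ t17461.2.2.1⟩, ⟨H _ t17461.2.2.2.1, ⟨H _ t17461.2.2.2.2.1, H _ t17461.2.2.2.2.2.1⟩⟩⟩⟩⟩, ⟨⟨⟨⟨H _ t17461.2.2.2.2.2.2.1, H _ t17461.2.2.2.2.2.2.2⟩, ⟨H _ t17469.1, H _ t17469.2.1⟩⟩, ⟨⟨H _ t17469.2.2.1, H _ t17469.2.2.2.1⟩, ⟨H _ t17469.2.2.2.2.1, H _ t17469.2.2.2.2.2.1⟩⟩⟩, ⟨⟨⟨H _ t17469.2.2.2.2.2.2.1, H _ t17469.2.2.2.2.2.2.2⟩, ⟨H _ t17477.1, H _ t17477.2.1⟩⟩, ⟨⟨H _ t17477.2.2.1, H _ t17477.2.2.2.1⟩, ⟨H _ t17477.2.2.2.2.1, ⟨H _ t17477.2.2.2.2.2.1, H _ t17477.2.2.2.2.2.2.1⟩⟩⟩⟩⟩⟩, ⟨⟨⟨⟨⟨H _ t17477.2.2.2.2.2.2.2, H _ t17485.1⟩, ⟨H _ t17485.2.1, H _ t17485.2.2.1⟩⟩, ⟨⟨H _ t17485.2.2.2.1, H _ t17485.2.2.2.2.1⟩, ⟨H _ t17485.2.2.2.2.2.1, H _ t17485.2.2.2.2.2.2.1⟩⟩⟩, ⟨⟨⟨H _ t17485.2.2.2.2.2.2.2, H _ t17493.1⟩, ⟨H _ t17493.2.1, H _ t17493.2.2.1⟩⟩, ⟨⟨H _ t17493.2.2.2.1, H _ t17493.2.2.2.2.1⟩, ⟨H _ t17493.2.2.2.2.2.1, ⟨H _ t17493.2.2.2.2.2.2.1, H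 _ t17493.2.2.2.2.2.2.2⟩⟩⟩⟩⟩, ⟨⟨⟨⟨H _ t17501.1, H _ t17501.2.1⟩, ⟨H _ t17501.2.2.1, H _ t17501.2.2.2.1⟩⟩, ⟨⟨H _ t17501.2.2.2.2.1, H _ t17501.2.2.2.2.2.1⟩, ⟨H _ t17501.2.2.2.2.2.2.1, ⟨H _ t17501.2.2.2.2.2.2.2, H _ t17509.1⟩⟩⟩⟩, ⟨⟨⟨H _ t17509.2.1, H _ t17509.2.2.1⟩, ⟨H _ t17509.2.2.2.1, H _ t17509.2.2.2.2.1⟩⟩, ⟨⟨H _ t17509.2.2.2.2.2.1, H _ t17509.2.2.2.2.2.2.1⟩, ⟨H _ t17509.2.2.2.2.2.2.2, ⟨H _ t17517.1, H _ t17517.2.1⟩⟩⟩⟩⟩⟩⟩⟩, ⟨⟨⟨⟨⟨⟨⟨H _ t17517.2.2.1, H _ t17517.2.2.2.1⟩, ⟨H _ t17517.2.2.2.2.1, H _ t17517.2.2.2.2.2.1⟩⟩, ⟨⟨H _ t17517.2.2.2.2.2.2.1, H _ t17517.2.2.2.2.2.2.2⟩, ⟨H _ t17525.1, H _ t17525.2.1⟩⟩⟩, ⟨⟨⟨H _ t17525.2.2.1, H _ t17525.2.2.2.1⟩, ⟨H _ t17525.2.2.2.2.1, H _ t17525.2.2.2.2.2.1⟩⟩, ⟨⟨H _ t17525.2.2.2.2.2.2.1, H _ t17525.2.2.2.2.2.2.2⟩, ⟨H _ t17533.1, ⟨H _ t17533.2.1, H _ t17533.2.2.1⟩⟩⟩⟩⟩, ⟨⟨⟨⟨H _ t17533.2.2.2.1, H _ t17533.2.2.2.2.1⟩, ⟨H _ t17533.2.2.2.2.2.1, H _ t17533.2.2.2.2.2.2.1⟩⟩,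 ⟨⟨H _ t17533.2.2.2.2.2.2.2, H _ t17541.1⟩, ⟨H _ t17541.2.1, H _ t17541.2.2.1⟩⟩⟩, ⟨⟨⟨H _ t17541.2.2.2.1, H _ t17541.2.2.2.2.1⟩, ⟨H _ t17541.2.2.2.2.2.1, H _ t17541.2.2.2.2.2.2.1⟩⟩, ⟨⟨H _ t17541.2.2.2.2.2.2.2, H _ t17549.1⟩, ⟨H _ t17549.2.1, ⟨H _ t17549.2.2.1, H _ t17549.2.2.2.1⟩⟩⟩⟩⟩⟩, ⟨⟨⟨⟨⟨H _ t17549.2.2.2.2.1, H _ t17549.2.2.2.2.2.1⟩, ⟨H _ t17549.2.2.2.2.2.2.1, H _ t17549.2.2.2.2.2.2.2⟩⟩, ⟨⟨H _ t17557.1, H _ t17557.2.1⟩, ⟨H _ t17557.2.2.1, H _ t17557.2.2.2.1⟩⟩⟩, ⟨⟨⟨H _ t17557.2.2.2.2.1, H _ t17557.2.2.2.2.2.1⟩, ⟨H _ t17557.2.2.2.2.2.2.1, H _ t17557.2.2.2.2.2.2.2⟩⟩, ⟨⟨H _ t17565.1, H _ t17565.2.1⟩, ⟨H _ t17565.2.2.1, ⟨H _ t17565.2.2.2.1, H _ t17565.2.2.2.2.1⟩⟩⟩⟩⟩, ⟨⟨⟨⟨H _ t17565.2.2.2.2.2.1, H _ t17565.2.2.2.2.2.2.1⟩, ⟨H _ t17565.2.2.2.2.2.2.2, H _ t17573.1⟩⟩, ⟨⟨H _ t17573.2.1, H _ t17573.2.2.1⟩, ⟨H _ t17573.2.2.2.1, ⟨H _ t17573.2.2.2.2.1, H _ t17573.2.2.2.2.2.1⟩⟩⟩⟩, ⟨⟨⟨H _ t17573.2.2.2.2.2.2.1,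 H _ t17573.2.2.2.2.2.2.2⟩, ⟨H _ t17581.1, H _ t17581.2.1⟩⟩, ⟨⟨H _ t17581.2.2.1, H _ t17581.2.2.2.1⟩, ⟨H _ t17581.2.2.2.2.1, ⟨H _ t17581.2.2.2.2.2.1, H _ t17581.2.2.2.2.2.2.1⟩⟩⟩⟩⟩⟩⟩, ⟨⟨⟨⟨⟨⟨H _ t17581.2.2.2.2.2.2.2, H _ t17589.1⟩, ⟨H _ t17589.2.1, H _ t17589.2.2.1⟩⟩, ⟨⟨H _ t17589.2.2.2.1, H _ t17589.2.2.2.2.1⟩, ⟨H _ t17589.2.2.2.2.2.1, H _ t17589.2.2.2.2.2.2.1⟩⟩⟩, ⟨⟨⟨H _ t17589.2.2.2.2.2.2.2, H _ t17597.1⟩, ⟨H _ t17597.2.1, H _ t17597.2.2.1⟩⟩, ⟨⟨H _ t17597.2.2.2.1, H _ t17597.2.2.2.2.1⟩, ⟨H _ t17597.2.2.2.2.2.1, ⟨H _ t17597.2.2.2.2.2.2.1, H _ t17597.2.2.2.2.2.2.2⟩⟩⟩⟩⟩, ⟨⟨⟨⟨H _ t17605.1, H _ t17605.2.1⟩, ⟨H _ t17605.2.2.1, H _ t17605.2.2.2.1⟩⟩, ⟨⟨H _ t17605.2.2.2.2.1, H _ t17605.2.2.2.2.2.1⟩, ⟨H _ t17605.2.2.2.2.2.2.1, H _ t17605.2.2.2.2.2.2.2⟩⟩⟩, ⟨⟨⟨H _ t17613.1, H _ t17613.2.1⟩, ⟨H _ t17613.2.2.1, H _ t17613.2.2.2.1⟩⟩, ⟨⟨H _ t17613.2.2.2.2.1, H _ t17613.2.2.2.2.2.1⟩, ⟨H _ t17613.2.2.2.2.2.2.1,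 ⟨H _ t17613.2.2.2.2.2.2.2, H _ t17621.1⟩⟩⟩⟩⟩⟩, ⟨⟨⟨⟨⟨H _ t17621.2.1, H _ t17621.2.2.1⟩, ⟨H _ t17621.2.2.2.1, H _ t17621.2.2.2.2.1⟩⟩, ⟨⟨H _ t17621.2.2.2.2.2.1, H _ t17621.2.2.2.2.2.2.1⟩, ⟨H _ t17621.2.2.2.2.2.2.2, H _ t17629.1⟩⟩⟩, ⟨⟨⟨H _ t17629.2.1, H _ t17629.2.2.1⟩, ⟨H _ t17629.2.2.2.1, H _ t17629.2.2.2.2.1⟩⟩, ⟨⟨H _ t17629.2.2.2.2.2.1, H _ t17629.2.2.2.2.2.2.1⟩, ⟨H _ t17629.2.2.2.2.2.2.2, ⟨H _ t17637.1, H _ t17637.2.1⟩⟩⟩⟩⟩, ⟨⟨⟨⟨H _ t17637.2.2.1, H _ t17637.2.2.2.1⟩, ⟨H _ t17637.2.2.2.2.1, H _ t17637.2.2.2.2.2.1⟩⟩, ⟨⟨H _ t17637.2.2.2.2.2.2.1, H _ t17637.2.2.2.2.2.2.2⟩, ⟨H _ t17645.1, ⟨H _ t17645.2.1, H _ t17645.2.2.1⟩⟩⟩⟩, ⟨⟨⟨H _ t17645.2.2.2.1, H _ t17645.2.2.2.2.1⟩, ⟨H _ t17645.2.2.2.2.2.1, H _ t17645.2.2.2.2.2.2.1⟩⟩, ⟨⟨H _ t17645.2.2.2.2.2.2.2, H _ t17653.1⟩, ⟨H _ t17653.2.1, ⟨H _ t17653.2.2.1, H _ t17653.2.2.2.1⟩⟩⟩⟩⟩⟩⟩⟩⟩, ⟨⟨⟨⟨⟨⟨⟨⟨H _ t17653.2.2.2.2.1, H _ t17653.2.2.2.2.2.1⟩, ⟨H _ t17653.2.2.2.2.2.2.1,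 H _ t17653.2.2.2.2.2.2.2⟩⟩, ⟨⟨H _ t17661.1, H _ t17661.2.1⟩, ⟨H _ t17661.2.2.1, H _ t17661.2.2.2.1⟩⟩⟩, ⟨⟨⟨H _ t17661.2.2.2.2.1, H _ t17661.2.2.2.2.2.1⟩, ⟨H _ t17661.2.2.2.2.2.2.1, H _ t17661.2.2.2.2.2.2.2⟩⟩, ⟨⟨H _ t17669.1, H _ t17669.2.1⟩, ⟨H _ t17669.2.2.1, ⟨H _ t17669.2.2.2.1, H _ t17669.2.2.2.2.1⟩⟩⟩⟩⟩, ⟨⟨⟨⟨H _ t17669.2.2.2.2.2.1, H _ t17669.2.2.2.2.2.2.1⟩, ⟨H _ t17669.2.2.2.2.2.2.2, H _ t17677.1⟩⟩, ⟨⟨H _ t17677.2.1, H _ t17677.2.2.1⟩, ⟨H _ t17677.2.2.2.1, H _ t17677.2.2.2.2.1⟩⟩⟩, ⟨⟨⟨H _ t17677.2.2.2.2.2.1, H _ t17677.2.2.2.2.2.2.1⟩, ⟨H _ t17677.2.2.2.2.2.2.2, H _ t17685.1⟩⟩, ⟨⟨H _ t17685.2.1, H _ t17685.2.2.1⟩, ⟨H _ t17685.2.2.2.1, ⟨H _ t17685.2.2.2.2.1, H _ t17685.2.2.2.2.2.1⟩⟩⟩⟩⟩⟩, ⟨⟨⟨⟨⟨H _ t17685.2.2.2.2.2.2.1, H _ t17685.2.2.2.2.2.2.2⟩, ⟨H _ t17693.1, H _ t17693.2.1⟩⟩, ⟨⟨H _ t17693.2.2.1, H _ t17693.2.2.2.1⟩, ⟨H _ t17693.2.2.2.2.1, H _ t17693.2.2.2.2.2.1⟩⟩⟩, ⟨⟨⟨H _ t17693.2.2.2.2.2.2.1,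 H _ t17693.2.2.2.2.2.2.2⟩, ⟨H _ t17701.1, H _ t17701.2.1⟩⟩, ⟨⟨H _ t17701.2.2.1, H _ t17701.2.2.2.1⟩, ⟨H _ t17701.2.2.2.2.1, ⟨H _ t17701.2.2.2.2.2.1, H _ t17701.2.2.2.2.2.2.1⟩⟩⟩⟩⟩, ⟨⟨⟨⟨H _ t17701.2.2.2.2.2.2.2, H _ t17709.1⟩, ⟨H _ t17709.2.1, H _ t17709.2.2.1⟩⟩, ⟨⟨H _ t17709.2.2.2.1, H _ t17709.2.2.2.2.1⟩, ⟨H _ t17709.2.2.2.2.2.1, ⟨H _ t17709.2.2.2.2.2.2.1, H _ t17709.2.2.2.2.2.2.2⟩⟩⟩⟩, ⟨⟨⟨H _ t17717.1, H _ t17717.2.1⟩, ⟨H _ t17717.2.2.1, H _ t17717.2.2.2.1⟩⟩, ⟨⟨H _ t17717.2.2.2.2.1, H _ t17717.2.2.2.2.2.1⟩, ⟨H _ t17717.2.2.2.2.2.2.1, ⟨H _ t17717.2.2.2.2.2.2.2, H _ t17725.1⟩⟩⟩⟩⟩⟩⟩, ⟨⟨⟨⟨⟨⟨H _ t17725.2.1, H _ t17725.2.2.1⟩, ⟨H _ t17725.2.2.2.1, H _ t17725.2.2.2.2.1⟩⟩, ⟨⟨H _ t17725.2.2.2.2.2.1, H _ t17725.2.2.2.2.2.2.1⟩, ⟨H _ t17725.2.2.2.2.2.2.2, H _ t17733.1⟩⟩⟩, ⟨⟨⟨H _ t17733.2.1, H _ t17733.2.2.1⟩, ⟨H _ t17733.2.2.2.1, H _ t17733.2.2.2.2.1⟩⟩, ⟨⟨H _ t17733.2.2.2.2.2.1, H _ t17733.2.2.2.2.2.2.1⟩,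 ⟨H _ t17733.2.2.2.2.2.2.2, ⟨H _ t17741.1, H _ t17741.2.1⟩⟩⟩⟩⟩, ⟨⟨⟨⟨H _ t17741.2.2.1, H _ t17741.2.2.2.1⟩, ⟨H _ t17741.2.2.2.2.1, H _ t17741.2.2.2.2.2.1⟩⟩, ⟨⟨H _ t17741.2.2.2.2.2.2.1, H _ t17741.2.2.2.2.2.2.2⟩, ⟨H _ t17749.1, H _ t17749.2.1⟩⟩⟩, ⟨⟨⟨H _ t17749.2.2.1, H _ t17749.2.2.2.1⟩, ⟨H _ t17749.2.2.2.2.1, H _ t17749.2.2.2.2.2.1⟩⟩, ⟨⟨H _ t17749.2.2.2.2.2.2.1, H _ t17749.2.2.2.2.2.2.2⟩, ⟨H _ t17757.1, ⟨H _ t17757.2.1, H _ t17757.2.2.1⟩⟩⟩⟩⟩⟩, ⟨⟨⟨⟨⟨H _ t17757.2.2.2.1, H _ t17757.2.2.2.2.1⟩, ⟨H _ t17757.2.2.2.2.2.1, H _ t17757.2.2.2.2.2.2.1⟩⟩, ⟨⟨H _ t17757.2.2.2.2.2.2.2, H _ t17765.1⟩, ⟨H _ t17765.2.1, H _ t17765.2.2.1⟩⟩⟩, ⟨⟨⟨H _ t17765.2.2.2.1, H _ t17765.2.2.2.2.1⟩, ⟨H _ t17765.2.2.2.2.2.1, H _ t17765.2.2.2.2.2.2.1⟩⟩, ⟨⟨H _ t17765.2.2.2.2.2.2.2, H _ t17773.1⟩, ⟨H _ t17773.2.1, ⟨H _ t17773.2.2.1, H _ t17773.2.2.2.1⟩⟩⟩⟩⟩, ⟨⟨⟨⟨H _ t17773.2.2.2.2.1, H _ t17773.2.2.2.2.2.1⟩, ⟨H _ t17773.2.2.2.2.2.2.1,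 H _ t17773.2.2.2.2.2.2.2⟩⟩, ⟨⟨H _ t17781.1, H _ t17781.2.1⟩, ⟨H _ t17781.2.2.1, ⟨H _ t17781.2.2.2.1, H _ t17781.2.2.2.2.1⟩⟩⟩⟩, ⟨⟨⟨H _ t17781.2.2.2.2.2.1, H _ t17781.2.2.2.2.2.2.1⟩, ⟨H _ t17781.2.2.2.2.2.2.2, H _ t17789.1⟩⟩, ⟨⟨H _ t17789.2.1, H _ t17789.2.2.1⟩, ⟨H _ t17789.2.2.2.1, ⟨H _ t17789.2.2.2.2.1, H _ t17789.2.2.2.2.2.1⟩⟩⟩⟩⟩⟩⟩⟩, ⟨⟨⟨⟨⟨⟨⟨H _ t17789.2.2.2.2.2.2.1, H _ t17789.2.2.2.2.2.2.2⟩, ⟨H _ t17797.1, H _ t17797.2.1⟩⟩, ⟨⟨H _ t17797.2.2.1, H _ t17797.2.2.2.1⟩, ⟨H _ t17797.2.2.2.2.1, H _ t17797.2.2.2.2.2.1⟩⟩⟩, ⟨⟨⟨H _ t17797.2.2.2.2.2.2.1, H _ t17797.2.2.2.2.2.2.2⟩, ⟨H _ t17805.1, H _ t17805.2.1⟩⟩, ⟨⟨H _ t17805.2.2.1, H _ t17805.2.2.2.1⟩, ⟨H _ t17805.2.2.2.2.1, ⟨H _ t17805.2.2.2.2.2.1, H _ t17805.2.2.2.2.2.2.1⟩⟩⟩⟩⟩, ⟨⟨⟨⟨H _ t17805.2.2.2.2.2.2.2, H _ t17813.1⟩, ⟨H _ t17813.2.1, H _ t17813.2.2.1⟩⟩, ⟨⟨H _ t17813.2.2.2.1, H _ t17813.2.2.2.2.1⟩, ⟨H _ t17813.2.2.2.2.2.1, H _ t17813.2.2.2.2.2.2.1⟩⟩⟩,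 ⟨⟨⟨H _ t17813.2.2.2.2.2.2.2, H _ t17821.1⟩, ⟨H _ t17821.2.1, H _ t17821.2.2.1⟩⟩, ⟨⟨H _ t17821.2.2.2.1, H _ t17821.2.2.2.2.1⟩, ⟨H _ t17821.2.2.2.2.2.1, ⟨H _ t17821.2.2.2.2.2.2.1, H _ t17821.2.2.2.2.2.2.2⟩⟩⟩⟩⟩⟩, ⟨⟨⟨⟨⟨H _ t17829.1, H _ t17829.2.1⟩, ⟨H _ t17829.2.2.1, H _ t17829.2.2.2.1⟩⟩, ⟨⟨H _ t17829.2.2.2.2.1, H _ t17829.2.2.2.2.2.1⟩, ⟨H _ t17829.2.2.2.2.2.2.1, H _ t17829.2.2.2.2.2.2.2⟩⟩⟩, ⟨⟨⟨H _ t17837.1, H _ t17837.2.1⟩, ⟨H _ t17837.2.2.1, H _ t17837.2.2.2.1⟩⟩, ⟨⟨H _ t17837.2.2.2.2.1, H _ t17837.2.2.2.2.2.1⟩, ⟨H _ t17837.2.2.2.2.2.2.1, ⟨H _ t17837.2.2.2.2.2.2.2, H _ t17845.1⟩⟩⟩⟩⟩, ⟨⟨⟨⟨H _ t17845.2.1, H _ t17845.2.2.1⟩, ⟨H _ t17845.2.2.2.1, H _ t17845.2.2.2.2.1⟩⟩, ⟨⟨H _ t17845.2.2.2.2.2.1, H _ t17845.2.2.2.2.2.2.1⟩, ⟨H _ t17845.2.2.2.2.2.2.2, ⟨H _ t17853.1, H _ t17853.2.1⟩⟩⟩⟩, ⟨⟨⟨H _ t17853.2.2.1, H _ t17853.2.2.2.1⟩, ⟨H _ t17853.2.2.2.2.1, H _ t17853.2.2.2.2.2.1⟩⟩, ⟨⟨H _ t17853.2.2.2.2.2.2.1,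 H _ t17853.2.2.2.2.2.2.2⟩, ⟨H _ t17861.1, ⟨H _ t17861.2.1, H _ t17861.2.2.1⟩⟩⟩⟩⟩⟩⟩, ⟨⟨⟨⟨⟨⟨H _ t17861.2.2.2.1, H _ t17861.2.2.2.2.1⟩, ⟨H _ t17861.2.2.2.2.2.1, H _ t17861.2.2.2.2.2.2.1⟩⟩, ⟨⟨H _ t17861.2.2.2.2.2.2.2, H _ t17869.1⟩, ⟨H _ t17869.2.1, H _ t17869.2.2.1⟩⟩⟩, ⟨⟨⟨H _ t17869.2.2.2.1, H _ t17869.2.2.2.2.1⟩, ⟨H _ t17869.2.2.2.2.2.1, H _ t17869.2.2.2.2.2.2.1⟩⟩, ⟨⟨H _ t17869.2.2.2.2.2.2.2, H _ t17877.1⟩, ⟨H _ t17877.2.1, ⟨H _ t17877.2.2.1, H _ t17877.2.2.2.1⟩⟩⟩⟩⟩, ⟨⟨⟨⟨H _ t17877.2.2.2.2.1, H _ t17877.2.2.2.2.2.1⟩, ⟨H _ t17877.2.2.2.2.2.2.1, H _ t17877.2.2.2.2.2.2.2⟩⟩, ⟨⟨H _ t17885.1, H _ t17885.2.1⟩, ⟨H _ t17885.2.2.1, H _ t17885.2.2.2.1⟩⟩⟩, ⟨⟨⟨H _ t17885.2.2.2.2.1, H _ t17885.2.2.2.2.2.1⟩, ⟨H _ t17885.2.2.2.2.2.2.1, H _ t17885.2.2.2.2.2.2.2⟩⟩, ⟨⟨H _ t17893.1, H _ t17893.2.1⟩, ⟨H _ t17893.2.2.1, ⟨H _ t17893.2.2.2.1, H _ t17893.2.2.2.2.1⟩⟩⟩⟩⟩⟩, ⟨⟨⟨⟨⟨H _ t17893.2.2.2.2.2.1, H _ t17893.2.2.2.2.2.2.1⟩,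 ⟨H _ t17893.2.2.2.2.2.2.2, H _ t17901.1⟩⟩, ⟨⟨H _ t17901.2.1, H _ t17901.2.2.1⟩, ⟨H _ t17901.2.2.2.1, H _ t17901.2.2.2.2.1⟩⟩⟩, ⟨⟨⟨H _ t17901.2.2.2.2.2.1, H _ t17901.2.2.2.2.2.2.1⟩, ⟨H _ t17901.2.2.2.2.2.2.2, H _ t17909.1⟩⟩, ⟨⟨H _ t17909.2.1, H _ t17909.2.2.1⟩, ⟨H _ t17909.2.2.2.1, ⟨H _ t17909.2.2.2.2.1, H _ t17909.2.2.2.2.2.1⟩⟩⟩⟩⟩, ⟨⟨⟨⟨H _ t17909.2.2.2.2.2.2.1, H _ t17909.2.2.2.2.2.2.2⟩, ⟨H _ t17917.1, H _ t17917.2.1⟩⟩, ⟨⟨H _ t17917.2.2.1, H _ t17917.2.2.2.1⟩, ⟨H _ t17917.2.2.2.2.1, ⟨H _ t17917.2.2.2.2.2.1, H _ t17917.2.2.2.2.2.2.1⟩⟩⟩⟩, ⟨⟨⟨H _ t17917.2.2.2.2.2.2.2, H _ t17925.1⟩, ⟨H _ t17925.2.1, H _ t17925.2.2.1⟩⟩, ⟨⟨H _ t17925.2.2.2.1, H _ t17925.2.2.2.2.1⟩, ⟨H _ t17925.2.2.2.2.2.1, ⟨H _ t17925.2.2.2.2.2.2.1, H _ t17925.2.2.2.2.2.2.2⟩⟩⟩⟩⟩⟩⟩⟩⟩⟩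

end Pool.Agent.MP_c853c5_nt.X.C4950
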