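import Pool.Agent.MP_c853c5_nt.X.C4950.Env
import Pool.Agent.MP_c853c5_nt.X.C4950.D6

set_option autoImplicit false
set_option maxRecDepth 8192
set_option linter.all false

namespace Pool.Agent.MP_c853c5_nt.X.C4950

open Pool.Agent.MP_c853c5_nt.X

def t17933 : allY (E.wth (lkp [])) l17933 = true ∧
    allY (E.wth (lkp [])) l17934 = true ∧
    allY (E.wth (lkp [])) l17935 = true ∧
    allY (E.wth (lkp [])) l17936 = true ∧
    allY (E.wth (lkp [])) l17937 = true ∧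
    allY (E.wth (lkp [])) l17938 = true ∧
    allY (E.wth (lkp [])) l17939 = true ∧
    allY (E.wth (lkp [])) l17940 = true :=
  ⟨by decide +kernel, by decide +kernel, by decide +kernel, by decide +kernel, by decide +kernel, by decide +kernel, by decide +kernel, by decide +kernel⟩

def t17941 : allY (E.wth (lkp [])) l17941 = true ∧
    allY (E.wth (lkp [])) l17942 = true ∧
    allY (E.wth (lkp [])) l17943 = true ∧
    allY (E.wth (lkp [])) l17944 = true ∧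
    allY (E.wth (lkp [])) l17945 = true ∧
    allY (E.wth (lkp [])) l17946 = true ∧
    allY (E.wth (lkp [])) l17947 = true ∧
    allY (E.wth (lkp [])) l17948 = true :=
  ⟨by decide +kernel, by decide +kernel, by decide +kernel, by decide +kernel, by decide +kernel, by decide +kernel, by decide +kernel, by decide +kernel⟩

def t17949 : allY (E.wth (lkp [])) l17949 = true ∧
    allY (E.wth (lkp [])) l17950 = true ∧
    allY (E.wth (lkp [])) l17951 = true ∧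
    allY (E.wth (lkp [])) l17952 = true ∧
    allY (E.wth (lkp [])) l17953 = true ∧
    allY (E.wth (lkp [])) l17954 = true ∧
    allY (E.wth (lkp [])) l17955 = true ∧
    allY (E.wth (lkp [])) l17956 = true :=
  ⟨by decide +kernel, by decide +kernel, by decide +kernel, by decide +kernel, by decide +kernel, by decide +kernel, by decide +kernel, by decide +kernel⟩

def t17957 : allY (E.wth (lkp [])) l17957 = true ∧
    allY (E.wth (lkp [])) l17958 = true ∧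
    allY (E.wth (lkp [])) l17959 = true ∧
    allY (E.wth (lkp [])) l17960 = true ∧
    allY (E.wth (lkp [])) l17961 = true ∧
    allY (E.wth (lkp [])) l17962 = true ∧
    allY (E.wth (lkp [])) l17963 = true ∧
    allY (E.wth (lkp [])) l17964 = true :=
  ⟨by decide +kernel, by decide +kernel, by decide +kernel, by decide +kernel, by decide +kernel, by decide +kernel, by decide +kernel, by decide +kernel⟩

def t17965 : allY (E.wth (lkp [])) l17965 = true ∧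
    allY (E.wth (lkp [])) l17966 = true ∧
    allY (E.wth (lkp [])) l17967 = true ∧
    allY (E.wth (lkp [])) l17968 = true ∧
    allY (E.wth (lkp [])) l17969 = true ∧
    allY (E.wth (lkp [])) l17970 = true ∧
    allY (E.wth (lkp [])) l17971 = true ∧
    allY (E.wth (lkp [])) l17972 = true :=
  ⟨by decide +kernel, by decide +kernel, by decide +kernel, by decide +kernel, by decide +kernel, by decide +kernel, by decide +kernel, by decide +kernel⟩

def t17973 : allY (E.wth (lkp [])) l17973 = true ∧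
    allY (E.wth (lkp [])) l17974 = true ∧
    allY (E.wth (lkp [])) l17975 = true ∧
    allY (E.wth (lkp [])) l17976 = true ∧
    allY (E.wth (lkp [])) l17977 = true ∧
    allY (E.wth (lkp [])) l17978 = true ∧
    allY (E.wth (lkp [])) l17979 = true ∧
    allY (E.wth (lkp [])) l17980 = true :=
  ⟨by decide +kernel, by decide +kernel, by decide +kernel, by decide +kernel, by decide +kernel, by decide +kernel, by decide +kernel, by decide +kernel⟩

def t17981 : allY (E.wth (lkp [])) l17981 = true ∧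
    allY (E.wth (lkp [])) l17982 = true ∧
    allY (E.wth (lkp [])) l17983 = true ∧
    allY (E.wth (lkp [])) l17984 = true ∧
    allY (E.wth (lkp [])) l17985 = true ∧
    allY (E.wth (lkp [])) l17986 = true ∧
    allY (E.wth (lkp [])) l17987 = true ∧
    allY (E.wth (lkp [])) l17988 = true :=
  ⟨by decide +kernel, by decide +kernel, by decide +kernel, by decide +kernel, by decide +kernel, by decide +kernel, by decide +kernel, by decide +kernel⟩

def t17989 : allY (E.wth (lkp [])) l17989 = true ∧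
    allY (E.wth (lkp [])) l17990 = true ∧
    allY (E.wth (lkp [])) l17991 = true ∧
    allY (E.wth (lkp [])) l17992 = true ∧
    allY (E.wth (lkp [])) l17993 = true ∧
    allY (E.wth (lkp [])) l17994 = true ∧
    allY (E.wth (lkp [])) l17995 = true ∧
    allY (E.wth (lkp [])) l17996 = true :=
  ⟨by decide +kernel, by decide +kernel, by decide +kernel, by decide +kernel, by decide +kernel, by decide +kernel, by decide +kernel, by decide +kernel⟩

def t17997 : allY (E.wth (lkp [])) l17997 = true ∧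
    allY (E.wth (lkp [])) l17998 = true ∧
    allY (E.wth (lkp [])) l17999 = true ∧
    allY (E.wth (lkp [])) l18000 = true ∧
    allY (E.wth (lkp [])) l18001 = true ∧
    allY (E.wth (lkp [])) l18002 = true ∧
    allY (E.wth (lkp [])) l18003 = true ∧
    allY (E.wth (lkp [])) l18004 = true :=
  ⟨by decide +kernel, by decide +kernel, by decide +kernel, by decide +kernel, by decide +kernel, by decide +kernel, by decide +kernel, by decide +kernel⟩

def t18005 : allY (E.wth (lkp [])) l18005 = true ∧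
    allY (E.wth (lkp [])) l18006 = true ∧
    allY (E.wth (lkp [])) l18007 = true ∧
    allY (E.wth (lkp [])) l18008 = true ∧
    allY (E.wth (lkp [])) l18009 = true ∧
    allY (E.wth (lkp [])) l18010 = true ∧
    allY (E.wth (lkp [])) l18011 = true ∧
    allY (E.wth (lkp [])) l18012 = true :=
  ⟨by decide +kernel, by decide +kernel, by decide +kernel, by decide +kernel, by decide +kernel, by decide +kernel, by decide +kernel, by decide +kernel⟩

def t18013 : allY (E.wth (lkp [])) l18013 = true ∧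
    allY (E.wth (lkp [])) l18014 = true ∧
    allY (E.wth (lkp [])) l18015 = true ∧
    allY (E.wth (lkp [])) l18016 = true ∧
    allY (E.wth (lkp [])) l18017 = true ∧
    allY (E.wth (lkp [])) l18018 = true ∧
    allY (E.wth (lkp [])) l18019 = true ∧
    allY (E.wth (lkp [])) l18020 = true :=
  ⟨by decide +kernel, by decide +kernel, by decide +kernel, by decide +kernel, by decide +kernel, by decide +kernel, by decide +kernel, by decide +kernel⟩

def t18021 : allY (E.wth (lkp [])) l18021 = true ∧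
    allY (E.wth (lkp [])) l18022 = true ∧
    allY (E.wth (lkp [])) l18023 = true ∧
    allY (E.wth (lkp [])) l18024 = true ∧
    allY (E.wth (lkp [])) l18025 = true ∧
    allY (E.wth (lkp [])) l18026 = true ∧
    allY (E.wth (lkp [])) l18027 = true ∧
    allY (E.wth (lkp [])) l18028 = true :=
  ⟨by decide +kernel, by decide +kernel, by decide +kernel, by decide +kernel, by decide +kernel, by decide +kernel, by decide +kernel, by decide +kernel⟩

def t18029 : allY (E.wth (lkp [])) l18029 = true ∧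
    allY (E.wth (lkp [])) l18030 = true ∧
    allY (E.wth (lkp [])) l18031 = true ∧
    allY (E.wth (lkp [])) l18032 = true ∧
    allY (E.wth (lkp [])) l18033 = true ∧
    allY (E.wth (lkp [])) l18034 = true ∧
    allY (E.wth (lkp [])) l18035 = true ∧
    allY (E.wth (lkp [])) l18036 = true :=
  ⟨by decide +kernel, by decide +kernel, by decide +kernel, by decide +kernel, by decide +kernel, by decide +kernel, by decide +kernel, by decide +kernel⟩

def t18037 : allY (E.wth (lkp [])) l18037 = true ∧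
    allY (E.wth (lkp [])) l18038 = true ∧
    allY (E.wth (lkp [])) l18039 = true ∧
    allY (E.wth (lkp [])) l18040 = true ∧
    allY (E.wth (lkp [])) l18041 = true ∧
    allY (E.wth (lkp [])) l18042 = true ∧
    allY (E.wth (lkp [])) l18043 = true ∧
    allY (E.wth (lkp [])) l18044 = true :=
  ⟨by decide +kernel, by decide +kernel, by decide +kernel, by decide +kernel, by decide +kernel, by decide +kernel, by decide +kernel, by decide +kernel⟩

def t18045 : allY (E.wth (lkp [])) l18045 = true ∧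
    allY (E.wth (lkp [])) l18046 = true ∧
    allY (E.wth (lkp [])) l18047 = true ∧
    allY (E.wth (lkp [])) l18048 = true ∧
    allY (E.wth (lkp [])) l18049 = true ∧
    allY (E.wth (lkp [])) l18050 = true ∧
    allY (E.wth (lkp [])) l18051 = true ∧
    allY (E.wth (lkp [])) l18052 = true :=
  ⟨by decide +kernel, by decide +kernel, by decide +kernel, by decide +kernel, by decide +kernel, by decide +kernel, by decide +kernel, by decide +kernel⟩

def t18053 : allY (E.wth (lkp [])) l18053 = true ∧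
    allY (E.wth (lkp [])) l18054 = true ∧
    allY (E.wth (lkp [])) l18055 = true ∧
    allY (E.wth (lkp [])) l18056 = true ∧
    allY (E.wth (lkp [])) l18057 = true ∧
    allY (E.wth (lkp [])) l18058 = true ∧
    allY (E.wth (lkp [])) l18059 = true ∧
    allY (E.wth (lkp [])) l18060 = true :=
  ⟨by decide +kernel, by decide +kernel, by decide +kernel, by decide +kernel, by decide +kernel, by decide +kernel, by decide +kernel, by decide +kernel⟩

def t18061 : allY (E.wth (lkp [])) l18061 = true ∧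
    allY (E.wth (lkp [])) l18062 = true ∧
    allY (E.wth (lkp [])) l18063 = true ∧
    allY (E.wth (lkp [])) l18064 = true ∧
    allY (E.wth (lkp [])) l18065 = true ∧
    allY (E.wth (lkp [])) l18066 = true ∧
    allY (E.wth (lkp [])) l18067 = true ∧
    allY (E.wth (lkp [])) l18068 = true :=
  ⟨by decide +kernel, by decide +kernel, by decide +kernel, by decide +kernel, by decide +kernel, by decide +kernel, by decide +kernel, by decide +kernel⟩

def t18069 : allY (E.wth (lkp [])) l18069 = true ∧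
    allY (E.wth (lkp [])) l18070 = true ∧
    allY (E.wth (lkp [])) l18071 = true ∧
    allY (E.wth (lkp [])) l18072 = true ∧
    allY (E.wth (lkp [])) l18073 = true ∧
    allY (E.wth (lkp [])) l18074 = true ∧
    allY (E.wth (lkp [])) l18075 = true ∧
    allY (E.wth (lkp [])) l18076 = true :=
  ⟨by decide +kernel, by decide +kernel, by decide +kernel, by decide +kernel, by decide +kernel, by decide +kernel, by decide +kernel, by decide +kernel⟩

def t18077 : allY (E.wth (lkp [])) l18077 = true ∧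
    allY (E.wth (lkp [])) l18078 = true ∧
    allY (E.wth (lkp [])) l18079 = true ∧
    allY (E.wth (lkp [])) l18080 = true ∧
    allY (E.wth (lkp [])) l18081 = true ∧
    allY (E.wth (lkp [])) l18082 = true ∧
    allY (E.wth (lkp [])) l18083 = true ∧
    allY (E.wth (lkp [])) l18084 = true :=
  ⟨by decide +kernel, by decide +kernel, by decide +kernel, by decide +kernel, by decide +kernel, by decide +kernel, by decide +kernel, by decide +kernel⟩

def t18085 : allY (E.wth (lkp [])) l18085 = true ∧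
    allY (E.wth (lkp [])) l18086 = true ∧
    allY (E.wth (lkp [])) l18087 = true ∧
    allY (E.wth (lkp [])) l18088 = true ∧
    allY (E.wth (lkp [])) l18089 = true ∧
    allY (E.wth (lkp [])) l18090 = true ∧
    allY (E.wth (lkp [])) l18091 = true ∧
    allY (E.wth (lkp [])) l18092 = true :=
  ⟨by decide +kernel, by decide +kernel, by decide +kernel, by decide +kernel, by decide +kernel, by decide +kernel, by decide +kernel, by decide +kernel⟩

def t18093 : allY (E.wth (lkp [])) l18093 = true ∧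
    allY (E.wth (lkp [])) l18094 = true ∧
    allY (E.wth (lkp [])) l18095 = true ∧
    allY (E.wth (lkp [])) l18096 = true ∧
    allY (E.wth (lkp [])) l18097 = true ∧
    allY (E.wth (lkp [])) l18098 = true ∧
    allY (E.wth (lkp [])) l18099 = true ∧
    allY (E.wth (lkp [])) l18100 = true :=
  ⟨by decide +kernel, by decide +kernel, by decide +kernel, by decide +kernel, by decide +kernel, by decide +kernel, by decide +kernel, by decide +kernel⟩

def t18101 : allY (E.wth (lkp [])) l18101 = true ∧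
    allY (E.wth (lkp [])) l18102 = true ∧
    allY (E.wth (lkp [])) l18103 = true ∧
    allY (E.wth (lkp [])) l18104 = true ∧
    allY (E.wth (lkp [])) l18105 = true ∧
    allY (E.wth (lkp [])) l18106 = true ∧
    allY (E.wth (lkp [])) l18107 = true ∧
    allY (E.wth (lkp [])) l18108 = true :=
  ⟨by decide +kernel, by decide +kernel, by decide +kernel, by decide +kernel, by decide +kernel, by decide +kernel, by decide +kernel, by decide +kernel⟩

def t18109 : allY (E.wth (lkp [])) l18109 = true ∧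
    allY (E.wth (lkp [])) l18110 = true ∧
    allY (E.wth (lkp [])) l18111 = true ∧
    allY (E.wth (lkp [])) l18112 = true ∧
    allY (E.wth (lkp [])) l18113 = true ∧
    allY (E.wth (lkp [])) l18114 = true ∧
    allY (E.wth (lkp [])) l18115 = true ∧
    allY (E.wth (lkp [])) l18116 = true :=
  ⟨by decide +kernel, by decide +kernel, by decide +kernel, by decide +kernel, by decide +kernel, by decide +kernel, by decide +kernel, by decide +kernel⟩

def t18117 : allY (E.wth (lkp [])) l18117 = true ∧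
    allY (E.wth (lkp [])) l18118 = true ∧
    allY (E.wth (lkp [])) l18119 = true ∧
    allY (E.wth (lkp [])) l18120 = true ∧
    allY (E.wth (lkp [])) l18121 = true ∧
    allY (E.wth (lkp [])) l18122 = true ∧
    allY (E.wth (lkp [])) l18123 = true ∧
    allY (E.wth (lkp [])) l18124 = true :=
  ⟨by decide +kernel, by decide +kernel, by decide +kernel, by decide +kernel, by decide +kernel, by decide +kernel, by decide +kernel, by decide +kernel⟩

def t18125 : allY (E.wth (lkp [])) l18125 = true ∧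
    allY (E.wth (lkp [])) l18126 = true ∧
    allY (E.wth (lkp [])) l18127 = true ∧
    allY (E.wth (lkp [])) l18128 = true ∧
    allY (E.wth (lkp [])) l18129 = true ∧
    allY (E.wth (lkp [])) l18130 = true ∧
    allY (E.wth (lkp [])) l18131 = true ∧
    allY (E.wth (lkp [])) l18132 = true :=
  ⟨by decide +kernel, by decide +kernel, by decide +kernel, by decide +kernel, by decide +kernel, by decide +kernel, by decide +kernel, by decide +kernel⟩

def t18133 : allY (E.wth (lkp [])) l18133 = true ∧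
    allY (E.wth (lkp [])) l18134 = true ∧
    allY (E.wth (lkp [])) l18135 = true ∧
    allY (E.wth (lkp [])) l18136 = true ∧
    allY (E.wth (lkp [])) l18137 = true ∧
    allY (E.wth (lkp [])) l18138 = true ∧
    allY (E.wth (lkp [])) l18139 = true ∧
    allY (E.wth (lkp [])) l18140 = true :=
  ⟨by decide +kernel, by decide +kernel, by decide +kernel, by decide +kernel, by decide +kernel, by decide +kernel, by decide +kernel, by decide +kernel⟩

def t18141 : allY (E.wth (lkp [])) l18141 = true ∧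
    allY (E.wth (lkp [])) l18142 = true ∧
    allY (E.wth (lkp [])) l18143 = true ∧
    allY (E.wth (lkp [])) l18144 = true ∧
    allY (E.wth (lkp [])) l18145 = true ∧
    allY (E.wth (lkp [])) l18146 = true ∧
    allY (E.wth (lkp [])) l18147 = true ∧
    allY (E.wth (lkp [])) l18148 = true :=
  ⟨by decide +kernel, by decide +kernel, by decide +kernel, by decide +kernel, by decide +kernel, by decide +kernel, by decide +kernel, by decide +kernel⟩

def t18149 : allY (E.wth (lkp [])) l18149 = true ∧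
    allY (E.wth (lkp [])) l18150 = true ∧
    allY (E.wth (lkp [])) l18151 = true ∧
    allY (E.wth (lkp [])) l18152 = true ∧
    allY (E.wth (lkp [])) l18153 = true ∧
    allY (E.wth (lkp [])) l18154 = true ∧
    allY (E.wth (lkp [])) l18155 = true ∧
    allY (E.wth (lkp [])) l18156 = true :=
  ⟨by decide +kernel, by decide +kernel, by decide +kernel, by decide +kernel, by decide +kernel, by decide +kernel, by decide +kernel, by decide +kernel⟩

def t18157 : allY (E.wth (lkp [])) l18157 = true ∧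
    allY (E.wth (lkp [])) l18158 = true ∧
    allY (E.wth (lkp [])) l18159 = true ∧
    allY (E.wth (lkp [])) l18160 = true ∧
    allY (E.wth (lkp [])) l18161 = true ∧
    allY (E.wth (lkp [])) l18162 = true ∧
    allY (E.wth (lkp [])) l18163 = true ∧
    allY (E.wth (lkp [])) l18164 = true :=
  ⟨by decide +kernel, by decide +kernel, by decide +kernel, by decide +kernel, by decide +kernel, by decide +kernel, by decide +kernel, by decide +kernel⟩

def t18165 : allY (E.wth (lkp [])) l18165 = true ∧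
    allY (E.wth (lkp [])) l18166 = true ∧
    allY (E.wth (lkp [])) l18167 = true ∧
    allY (E.wth (lkp [])) l18168 = true ∧
    allY (E.wth (lkp [])) l18169 = true ∧
    allY (E.wth (lkp [])) l18170 = true ∧
    allY (E.wth (lkp [])) l18171 = true ∧
    allY (E.wth (lkp [])) l18172 = true :=
  ⟨by decide +kernel, by decide +kernel, by decide +kernel, by decide +kernel, by decide +kernel, by decide +kernel, by decide +kernel, by decide +kernel⟩

def t18173 : allY (E.wth (lkp [])) l18173 = true ∧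
    allY (E.wth (lkp [])) l18174 = true ∧
    allY (E.wth (lkp [])) l18175 = true ∧
    allY (E.wth (lkp [])) l18176 = true ∧
    allY (E.wth (lkp [])) l18177 = true ∧
    allY (E.wth (lkp [])) l18178 = true ∧
    allY (E.wth (lkp [])) l18179 = true ∧
    allY (E.wth (lkp [])) l18180 = true :=
  ⟨by decide +kernel, by decide +kernel, by decide +kernel, by decide +kernel, by decide +kernel, by decide +kernel, by decide +kernel, by decide +kernel⟩

def t18181 : allY (E.wth (lkp [])) l18181 = true ∧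
    allY (E.wth (lkp [])) l18182 = true ∧
    allY (E.wth (lkp [])) l18183 = true ∧
    allY (E.wth (lkp [])) l18184 = true ∧
    allY (E.wth (lkp [])) l18185 = true ∧
    allY (E.wth (lkp [])) l18186 = true ∧
    allY (E.wth (lkp [])) l18187 = true ∧
    allY (E.wth (lkp [])) l18188 = true :=
  ⟨by decide +kernel, by decide +kernel, by decide +kernel, by decide +kernel, by decide +kernel, by decide +kernel, by decide +kernel, by decide +kernel⟩

def t18189 : allY (E.wth (lkp [])) l18189 = true ∧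
    allY (E.wth (lkp [])) l18190 = true ∧
    allY (E.wth (lkp [])) l18191 = true ∧
    allY (E.wth (lkp [])) l18192 = true ∧
    allY (E.wth (lkp [])) l18193 = true ∧
    allY (E.wth (lkp [])) l18194 = true ∧
    allY (E.wth (lkp [])) l18195 = true ∧
    allY (E.wth (lkp [])) l18196 = true :=
  ⟨by decide +kernel, by decide +kernel, by decide +kernel, by decide +kernel, by decide +kernel, by decide +kernel, by decide +kernel, by decide +kernel⟩

def t18197 : allY (E.wth (lkp [])) l18197 = true ∧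
    allY (E.wth (lkp [])) l18198 = true ∧
    allY (E.wth (lkp [])) l18199 = true ∧
    allY (E.wth (lkp [])) l18200 = true ∧
    allY (E.wth (lkp [])) l18201 = true ∧
    allY (E.wth (lkp [])) l18202 = true ∧
    allY (E.wth (lkp [])) l18203 = true ∧
    allY (E.wth (lkp [])) l18204 = true :=
  ⟨by decide +kernel, by decide +kernel, by decide +kernel, by decide +kernel, by decide +kernel, by decide +kernel, by decide +kernel, by decide +kernel⟩

def t18205 : allY (E.wth (lkp [])) l18205 = true ∧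
    allY (E.wth (lkp [])) l18206 = true ∧
    allY (E.wth (lkp [])) l18207 = true ∧
    allY (E.wth (lkp [])) l18208 = true ∧
    allY (E.wth (lkp [])) l18209 = true ∧
    allY (E.wth (lkp [])) l18210 = true ∧
    allY (E.wth (lkp [])) l18211 = true ∧
    allY (E.wth (lkp [])) l18212 = true :=
  ⟨by decide +kernel, by decide +kernel, by decide +kernel, by decide +kernel, by decide +kernel, by decide +kernel, by decide +kernel, by decide +kernel⟩

def t18213 : allY (E.wth (lkp [])) l18213 = true ∧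
    allY (E.wth (lkp [])) l18214 = true ∧
    allY (E.wth (lkp [])) l18215 = true ∧
    allY (E.wth (lkp [])) l18216 = true ∧
    allY (E.wth (lkp [])) l18217 = true ∧
    allY (E.wth (lkp [])) l18218 = true ∧
    allY (E.wth (lkp [])) l18219 = true ∧
    allY (E.wth (lkp [])) l18220 = true :=
  ⟨by decide +kernel, by decide +kernel, by decide +kernel, by decide +kernel, by decide +kernel, by decide +kernel, by decide +kernel, by decide +kernel⟩

def t18221 : allY (E.wth (lkp [])) l18221 = true ∧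
    allY (E.wth (lkp [])) l18222 = true ∧
    allY (E.wth (lkp [])) l18223 = true ∧
    allY (E.wth (lkp [])) l18224 = true ∧
    allY (E.wth (lkp [])) l18225 = true ∧
    allY (E.wth (lkp [])) l18226 = true ∧
    allY (E.wth (lkp [])) l18227 = true ∧
    allY (E.wth (lkp [])) l18228 = true :=
  ⟨by decide +kernel, by decide +kernel, by decide +kernel, by decide +kernel, by decide +kernel, by decide +kernel, by decide +kernel, by decide +kernel⟩

def t18229 : allY (E.wth (lkp [])) l18229 = true ∧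
    allY (E.wth (lkp [])) l18230 = true ∧
    allY (E.wth (lkp [])) l18231 = true ∧
    allY (E.wth (lkp [])) l18232 = true ∧
    allY (E.wth (lkp [])) l18233 = true ∧
    allY (E.wth (lkp [])) l18234 = true ∧
    allY (E.wth (lkp [])) l18235 = true ∧
    allY (E.wth (lkp [])) l18236 = true :=
  ⟨by decide +kernel, by decide +kernel, by decide +kernel, by decide +kernel, by decide +kernel, by decide +kernel, by decide +kernel, by decide +kernel⟩

def t18237 : allY (E.wth (lkp [])) l18237 = true ∧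
    allY (E.wth (lkp [])) l18238 = true ∧
    allY (E.wth (lkp [])) l18239 = true ∧
    allY (E.wth (lkp [])) l18240 = true ∧
    allY (E.wth (lkp [])) l18241 = true ∧
    allY (E.wth (lkp [])) l18242 = true ∧
    allY (E.wth (lkp [])) l18243 = true ∧
    allY (E.wth (lkp [])) l18244 = true :=
  ⟨by decide +kernel, by decide +kernel, by decide +kernel, by decide +kernel, by decide +kernel, by decide +kernel, by decide +kernel, by decide +kernel⟩

def t18245 : allY (E.wth (lkp [])) l18245 = true ∧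
    allY (E.wth (lkp [])) l18246 = true ∧
    allY (E.wth (lkp [])) l18247 = true ∧
    allY (E.wth (lkp [])) l18248 = true ∧
    allY (E.wth (lkp [])) l18249 = true ∧
    allY (E.wth (lkp [])) l18250 = true ∧
    allY (E.wth (lkp [])) l18251 = true ∧
    allY (E.wth (lkp [])) l18252 = true :=
  ⟨by decide +kernel, by decide +kernel, by decide +kernel, by decide +kernel, by decide +kernel, by decide +kernel, by decide +kernel, by decide +kernel⟩

def t18253 : allY (E.wth (lkp [])) l18253 = true ∧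
    allY (E.wth (lkp [])) l18254 = true ∧
    allY (E.wth (lkp [])) l18255 = true ∧
    allY (E.wth (lkp [])) l18256 = true ∧
    allY (E.wth (lkp [])) l18257 = true ∧
    allY (E.wth (lkp [])) l18258 = true ∧
    allY (E.wth (lkp [])) l18259 = true ∧
    allY (E.wth (lkp [])) l18260 = true :=
  ⟨by decide +kernel, by decide +kernel, by decide +kernel, by decide +kernel, by decide +kernel, by decide +kernel, by decide +kernel, by decide +kernel⟩

def t18261 : allY (E.wth (lkp [])) l18261 = true ∧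
    allY (E.wth (lkp [])) l18262 = true ∧
    allY (E.wth (lkp [])) l18263 = true ∧
    allY (E.wth (lkp [])) l18264 = true ∧
    allY (E.wth (lkp [])) l18265 = true ∧
    allY (E.wth (lkp [])) l18266 = true ∧
    allY (E.wth (lkp [])) l18267 = true ∧
    allY (E.wth (lkp [])) l18268 = true :=
  ⟨by decide +kernel, by decide +kernel, by decide +kernel, by decide +kernel, by decide +kernel, by decide +kernel, by decide +kernel, by decide +kernel⟩

def t18269 : allY (E.wth (lkp [])) l18269 = true ∧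
    allY (E.wth (lkp [])) l18270 = true ∧
    allY (E.wth (lkp [])) l18271 = true ∧
    allY (E.wth (lkp [])) l18272 = true ∧
    allY (E.wth (lkp [])) l18273 = true ∧
    allY (E.wth (lkp [])) l18274 = true ∧
    allY (E.wth (lkp [])) l18275 = true ∧
    allY (E.wth (lkp [])) l18276 = true :=
  ⟨by decide +kernel, by decide +kernel, by decide +kernel, by decide +kernel, by decide +kernel, by decide +kernel, by decide +kernel, by decide +kernel⟩

def t18277 : allY (E.wth (lkp [])) l18277 = true ∧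
    allY (E.wth (lkp [])) l18278 = true ∧
    allY (E.wth (lkp [])) l18279 = true ∧
    allY (E.wth (lkp [])) l18280 = true ∧
    allY (E.wth (lkp [])) l18281 = true ∧
    allY (E.wth (lkp [])) l18282 = true ∧
    allY (E.wth (lkp [])) l18283 = true ∧
    allY (E.wth (lkp [])) l18284 = true :=
  ⟨by decide +kernel, by decide +kernel, by decide +kernel, by decide +kernel, by decide +kernel, by decide +kernel, by decide +kernel, by decide +kernel⟩

def t18285 : allY (E.wth (lkp [])) l18285 = true ∧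
    allY (E.wth (lkp [])) l18286 = true ∧
    allY (E.wth (lkp [])) l18287 = true ∧
    allY (E.wth (lkp [])) l18288 = true ∧
    allY (E.wth (lkp [])) l18289 = true ∧
    allY (E.wth (lkp [])) l18290 = true ∧
    allY (E.wth (lkp [])) l18291 = true ∧
    allY (E.wth (lkp [])) l18292 = true :=
  ⟨by decide +kernel, by decide +kernel, by decide +kernel, by decide +kernel, by decide +kernel, by decide +kernel, by decide +kernel, by decide +kernel⟩

def t18293 : allY (E.wth (lkp [])) l18293 = true ∧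
    allY (E.wth (lkp [])) l18294 = true ∧
    allY (E.wth (lkp [])) l18295 = true ∧
    allY (E.wth (lkp [])) l18296 = true ∧
    allY (E.wth (lkp [])) l18297 = true ∧
    allY (E.wth (lkp [])) l18298 = true ∧
    allY (E.wth (lkp [])) l18299 = true ∧
    allY (E.wth (lkp [])) l18300 = true :=
  ⟨by decide +kernel, by decide +kernel, by decide +kernel, by decide +kernel, by decide +kernel, by decide +kernel, by decide +kernel, by decide +kernel⟩

def t18301 : allY (E.wth (lkp [])) l18301 = true ∧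
    allY (E.wth (lkp [])) l18302 = true ∧
    allY (E.wth (lkp [])) l18303 = true ∧
    allY (E.wth (lkp [])) l18304 = true ∧
    allY (E.wth (lkp [])) l18305 = true ∧
    allY (E.wth (lkp [])) l18306 = true ∧
    allY (E.wth (lkp [])) l18307 = true ∧
    allY (E.wth (lkp [])) l18308 = true :=
  ⟨by decide +kernel, by decide +kernel, by decide +kernel, by decide +kernel, by decide +kernel, by decide +kernel, by decide +kernel, by decide +kernel⟩

def t18309 : allY (E.wth (lkp [])) l18309 = true ∧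
    allY (E.wth (lkp [])) l18310 = true ∧
    allY (E.wth (lkp [])) l18311 = true ∧
    allY (E.wth (lkp [])) l18312 = true ∧
    allY (E.wth (lkp [])) l18313 = true ∧
    allY (E.wth (lkp [])) l18314 = true ∧
    allY (E.wth (lkp [])) l18315 = true ∧
    allY (E.wth (lkp [])) l18316 = true :=
  ⟨by decide +kernel, by decide +kernel, by decide +kernel, by decide +kernel, by decide +kernel, by decide +kernel, by decide +kernel, by decide +kernel⟩

def t18317 : allY (E.wth (lkp [])) l18317 = true ∧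
    allY (E.wth (lkp [])) l18318 = true ∧
    allY (E.wth (lkp [])) l18319 = true ∧
    allY (E.wth (lkp [])) l18320 = true ∧
    allY (E.wth (lkp [])) l18321 = true ∧
    allY (E.wth (lkp [])) l18322 = true ∧
    allY (E.wth (lkp [])) l18323 = true ∧
    allY (E.wth (lkp [])) l18324 = true :=
  ⟨by decide +kernel, by decide +kernel, by decide +kernel, by decide +kernel, by decide +kernel, by decide +kernel, by decide +kernel, by decide +kernel⟩

def t18325 : allY (E.wth (lkp [])) l18325 = true ∧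
    allY (E.wth (lkp [])) l18326 = true ∧
    allY (E.wth (lkp [])) l18327 = true ∧
    allY (E.wth (lkp [])) l18328 = true ∧
    allY (E.wth (lkp [])) l18329 = true ∧
    allY (E.wth (lkp [])) l18330 = true ∧
    allY (E.wth (lkp [])) l18331 = true ∧
    allY (E.wth (lkp [])) l18332 = true :=
  ⟨by decide +kernel, by decide +kernel, by decide +kernel, by decide +kernel, by decide +kernel, by decide +kernel, by decide +kernel, by decide +kernel⟩

def t18333 : allY (E.wth (lkp [])) l18333 = true ∧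
    allY (E.wth (lkp [])) l18334 = true ∧
    allY (E.wth (lkp [])) l18335 = true ∧
    allY (E.wth (lkp [])) l18336 = true ∧
    allY (E.wth (lkp [])) l18337 = true ∧
    allY (E.wth (lkp [])) l18338 = true ∧
    allY (E.wth (lkp [])) l18339 = true ∧
    allY (E.wth (lkp [])) l18340 = true :=
  ⟨by decide +kernel, by decide +kernel, by decide +kernel, by decide +kernel, by decide +kernel, by decide +kernel, by decide +kernel, by decide +kernel⟩

def t18341 : allY (E.wth (lkp [])) l18341 = true ∧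
    allY (E.wth (lkp [])) l18342 = true ∧
    allY (E.wth (lkp [])) l18343 = true ∧
    allY (E.wth (lkp [])) l18344 = true ∧
    allY (E.wth (lkp [])) l18345 = true ∧
    allY (E.wth (lkp [])) l18346 = true ∧
    allY (E.wth (lkp [])) l18347 = true ∧
    allY (E.wth (lkp [])) l18348 = true :=
  ⟨by decide +kernel, by decide +kernel, by decide +kernel, by decide +kernel, by decide +kernel, by decide +kernel, by decide +kernel, by decide +kernel⟩

def t18349 : allY (E.wth (lkp [])) l18349 = true ∧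
    allY (E.wth (lkp [])) l18350 = true ∧
    allY (E.wth (lkp [])) l18351 = true ∧
    allY (E.wth (lkp [])) l18352 = true ∧
    allY (E.wth (lkp [])) l18353 = true ∧
    allY (E.wth (lkp [])) l18354 = true ∧
    allY (E.wth (lkp [])) l18355 = true ∧
    allY (E.wth (lkp [])) l18356 = true :=
  ⟨by decide +kernel, by decide +kernel, by decide +kernel, by decide +kernel, by decide +kernel, by decide +kernel, by decide +kernel, by decide +kernel⟩

def t18357 : allY (E.wth (lkp [])) l18357 = true ∧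
    allY (E.wth (lkp [])) l18358 = true ∧
    allY (E.wth (lkp [])) l18359 = true ∧
    allY (E.wth (lkp [])) l18360 = true ∧
    allY (E.wth (lkp [])) l18361 = true ∧
    allY (E.wth (lkp [])) l18362 = true ∧
    allY (E.wth (lkp [])) l18363 = true ∧
    allY (E.wth (lkp [])) l18364 = true :=
  ⟨by decide +kernel, by decide +kernel, by decide +kernel, by decide +kernel, by decide +kernel, by decide +kernel, by decide +kernel, by decide +kernel⟩

def t18365 : allY (E.wth (lkp [])) l18365 = true ∧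
    allY (E.wth (lkp [])) l18366 = true ∧
    allY (E.wth (lkp [])) l18367 = true ∧
    allY (E.wth (lkp [])) l18368 = true ∧
    allY (E.wth (lkp [])) l18369 = true ∧
    allY (E.wth (lkp [])) l18370 = true ∧
    allY (E.wth (lkp [])) l18371 = true ∧
    allY (E.wth (lkp [])) l18372 = true :=
  ⟨by decide +kernel, by decide +kernel, by decide +kernel, by decide +kernel, by decide +kernel, by decide +kernel, by decide +kernel, by decide +kernel⟩

def t18373 : allY (E.wth (lkp [])) l18373 = true ∧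
    allY (E.wth (lkp [])) l18374 = true ∧
    allY (E.wth (lkp [])) l18375 = true ∧
    allY (E.wth (lkp [])) l18376 = true ∧
    allY (E.wth (lkp [])) l18377 = true ∧
    allY (E.wth (lkp [])) l18378 = true ∧
    allY (E.wth (lkp [])) l18379 = true ∧
    allY (E.wth (lkp [])) l18380 = true :=
  ⟨by decide +kernel, by decide +kernel, by decide +kernel, by decide +kernel, by decide +kernel, by decide +kernel, by decide +kernel, by decide +kernel⟩

def t18381 : allY (E.wth (lkp [])) l18381 = true ∧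
    allY (E.wth (lkp [])) l18382 = true ∧
    allY (E.wth (lkp [])) l18383 = true ∧
    allY (E.wth (lkp [])) l18384 = true ∧
    allY (E.wth (lkp [])) l18385 = true ∧
    allY (E.wth (lkp [])) l18386 = true ∧
    allY (E.wth (lkp [])) l18387 = true ∧
    allY (E.wth (lkp [])) l18388 = true :=
  ⟨by decide +kernel, by decide +kernel, by decide +kernel, by decide +kernel, by decide +kernel, by decide +kernel, by decide +kernel, by decide +kernel⟩

def t18389 : allY (E.wth (lkp [])) l18389 = true ∧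
    allY (E.wth (lkp [])) l18390 = true ∧
    allY (E.wth (lkp [])) l18391 = true ∧
    allY (E.wth (lkp [])) l18392 = true ∧
    allY (E.wth (lkp [])) l18393 = true ∧
    allY (E.wth (lkp [])) l18394 = true ∧
    allY (E.wth (lkp [])) l18395 = true ∧
    allY (E.wth (lkp [])) l18396 = true :=
  ⟨by decide +kernel, by decide +kernel, by decide +kernel, by decide +kernel, by decide +kernel, by decide +kernel, by decide +kernel, by decide +kernel⟩

def t18397 : allY (E.wth (lkp [])) l18397 = true ∧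
    allY (E.wth (lkp [])) l18398 = true ∧
    allY (E.wth (lkp [])) l18399 = true ∧
    allY (E.wth (lkp [])) l18400 = true ∧
    allY (E.wth (lkp [])) l18401 = true ∧
    allY (E.wth (lkp [])) l18402 = true ∧
    allY (E.wth (lkp [])) l18403 = true ∧
    allY (E.wth (lkp [])) l18404 = true :=
  ⟨by decide +kernel, by decide +kernel, by decide +kernel, by decide +kernel, by decide +kernel, by decide +kernel, by decide +kernel, by decide +kernel⟩

def t18405 : allY (E.wth (lkp [])) l18405 = true ∧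
    allY (E.wth (lkp [])) l18406 = true ∧
    allY (E.wth (lkp [])) l18407 = true ∧
    allY (E.wth (lkp [])) l18408 = true ∧
    allY (E.wth (lkp [])) l18409 = true ∧
    allY (E.wth (lkp [])) l18410 = true ∧
    allY (E.wth (lkp [])) l18411 = true ∧
    allY (E.wth (lkp [])) l18412 = true :=
  ⟨by decide +kernel, by decide +kernel, by decide +kernel, by decide +kernel, by decide +kernel, by decide +kernel, by decide +kernel, by decide +kernel⟩

def t18413 : allY (E.wth (lkp [])) l18413 = true ∧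
    allY (E.wth (lkp [])) l18414 = true ∧
    allY (E.wth (lkp [])) l18415 = true ∧
    allY (E.wth (lkp [])) l18416 = true ∧
    allY (E.wth (lkp [])) l18417 = true ∧
    allY (E.wth (lkp [])) l18418 = true ∧
    allY (E.wth (lkp [])) l18419 = true ∧
    allY (E.wth (lkp [])) l18420 = true :=
  ⟨by decide +kernel, by decide +kernel, by decide +kernel, by decide +kernel, by decide +kernel, by decide +kernel, by decide +kernel, by decide +kernel⟩

def t18421 : allY (E.wth (lkp [])) l18421 = true ∧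
    allY (E.wth (lkp [])) l18422 = true ∧
    allY (E.wth (lkp [])) l18423 = true ∧
    allY (E.wth (lkp [])) l18424 = true ∧
    allY (E.wth (lkp [])) l18425 = true ∧
    allY (E.wth (lkp [])) l18426 = true ∧
    allY (E.wth (lkp [])) l18427 = true ∧
    allY (E.wth (lkp [])) l18428 = true :=
  ⟨by decide +kernel, by decide +kernel, by decide +kernel, by decide +kernel, by decide +kernel, by decide +kernel, by decide +kernel, by decide +kernel⟩

def t18429 : allY (E.wth (lkp [])) l18429 = true ∧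
    allY (E.wth (lkp [])) l18430 = true ∧
    allY (E.wth (lkp [])) l18431 = true ∧
    allY (E.wth (lkp [])) l18432 = true ∧
    allY (E.wth (lkp [])) l18433 = true ∧
    allY (E.wth (lkp [])) l18434 = true ∧
    allY (E.wth (lkp [])) l18435 = true ∧
    allY (E.wth (lkp [])) l18436 = true :=
  ⟨by decide +kernel, by decide +kernel, by decide +kernel, by decide +kernel, by decide +kernel, by decide +kernel, by decide +kernel, by decide +kernel⟩

def t18437 : allY (E.wth (lkp [])) l18437 = true ∧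
    allY (E.wth (lkp [])) l18438 = true ∧
    allY (E.wth (lkp [])) l18439 = true ∧
    allY (E.wth (lkp [])) l18440 = true ∧
    allY (E.wth (lkp [])) l18441 = true ∧
    allY (E.wth (lkp [])) l18442 = true ∧
    allY (E.wth (lkp [])) l18443 = true ∧
    allY (E.wth (lkp [])) l18444 = true :=
  ⟨by decide +kernel, by decide +kernel, by decide +kernel, by decide +kernel, by decide +kernel, by decide +kernel, by decide +kernel, by decide +kernel⟩

def t18445 : allY (E.wth (lkp [])) l18445 = true ∧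
    allY (E.wth (lkp [])) l18446 = true ∧
    allY (E.wth (lkp [])) l18447 = true ∧
    allY (E.wth (lkp [])) l18448 = true ∧
    allY (E.wth (lkp [])) l18449 = true ∧
    allY (E.wth (lkp [])) l18450 = true ∧
    allY (E.wth (lkp [])) l18451 = true ∧
    allY (E.wth (lkp [])) l18452 = true :=
  ⟨by decide +kernel, by decide +kernel, by decide +kernel, by decide +kernel, by decide +kernel, by decide +kernel, by decide +kernel, by decide +kernel⟩

def t18453 : allY (E.wth (lkp [])) l18453 = true ∧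
    allY (E.wth (lkp [])) l18454 = true ∧
    allY (E.wth (lkp [])) l18455 = true ∧
    allY (E.wth (lkp [])) l18456 = true ∧
    allY (E.wth (lkp [])) l18457 = true ∧
    allY (E.wth (lkp [])) l18458 = true ∧
    allY (E.wth (lkp [])) l18459 = true ∧
    allY (E.wth (lkp [])) l18460 = true :=
  ⟨by decide +kernel, by decide +kernel, by decide +kernel, by decide +kernel, by decide +kernel, by decide +kernel, by decide +kernel, by decide +kernel⟩

def t18461 : allY (E.wth (lkp [])) l18461 = true ∧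
    allY (E.wth (lkp [])) l18462 = true ∧
    allY (E.wth (lkp [])) l18463 = true ∧
    allY (E.wth (lkp [])) l18464 = true ∧
    allY (E.wth (lkp [])) l18465 = true ∧
    allY (E.wth (lkp [])) l18466 = true ∧
    allY (E.wth (lkp [])) l18467 = true ∧
    allY (E.wth (lkp [])) l18468 = true :=
  ⟨by decide +kernel, by decide +kernel, by decide +kernel, by decide +kernel, by decide +kernel, by decide +kernel, by decide +kernel, by decide +kernel⟩

def t18469 : allY (E.wth (lkp [])) l18469 = true ∧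
    allY (E.wth (lkp [])) l18470 = true ∧
    allY (E.wth (lkp [])) l18471 = true ∧
    allY (E.wth (lkp [])) l18472 = true ∧
    allY (E.wth (lkp [])) l18473 = true ∧
    allY (E.wth (lkp [])) l18474 = true ∧
    allY (E.wth (lkp [])) l18475 = true ∧
    allY (E.wth (lkp [])) l18476 = true :=
  ⟨by decide +kernel, by decide +kernel, by decide +kernel, by decide +kernel, by decide +kernel, by decide +kernel, by decide +kernel, by decide +kernel⟩

def t18477 : allY (E.wth (lkp [])) l18477 = true ∧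
    allY (E.wth (lkp [])) l18478 = true ∧
    allY (E.wth (lkp [])) l18479 = true ∧
    allY (E.wth (lkp [])) l18480 = true ∧
    allY (E.wth (lkp [])) l18481 = true ∧
    allY (E.wth (lkp [])) l18482 = true ∧
    allY (E.wth (lkp [])) l18483 = true ∧
    allY (E.wth (lkp [])) l18484 = true :=
  ⟨by decide +kernel, by decide +kernel, by decide +kernel, by decide +kernel, by decide +kernel, by decide +kernel, by decide +kernel, by decide +kernel⟩

def t18485 : allY (E.wth (lkp [])) l18485 = true ∧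
    allY (E.wth (lkp [])) l18486 = true ∧
    allY (E.wth (lkp [])) l18487 = true ∧
    allY (E.wth (lkp [])) l18488 = true :=
  ⟨by decide +kernel, by decide +kernel, by decide +kernel, by decide +kernel⟩

theorem a32 {p : Rf → Prop} (H : ∀ l, allY (E.wth (lkp [])) l = true → (lkp l).All p) :
    b32.All p := ⟨⟨⟨⟨⟨⟨⟨⟨⟨H _ t17933.1, H _ t17933.2.1⟩, ⟨H _ t17933.2.2.1, H _ t17933.2.2.2.1⟩⟩, ⟨⟨H _ t17933.2.2.2.2.1, H _ t17933.2.2.2.2.2.1⟩, ⟨H _ t17933.2.2.2.2.2.2.1, H _ t17933.2.2.2.2.2.2.2⟩⟩⟩, ⟨⟨⟨H _ t17941.1, H _ t17941.2.1⟩, ⟨H _ t17941.2.2.1, H _ t17941.2.2.2.1⟩⟩, ⟨⟨H _ t17941.2.2.2.2.1, H _ t17941.2.2.2.2.2.1⟩, ⟨H _ t17941.2.2.2.2.2.2.1, ⟨H _ t17941.2.2.2.2.2.2.2, H _ t17949.1⟩⟩⟩⟩⟩, ⟨⟨⟨⟨H _ t17949.2.1, H _ t17949.2.2.1⟩, ⟨H _ t17949.2.2.2.1, H _ t17949.2.2.2.2.1⟩⟩, ⟨⟨H _ t17949.2.2.2.2.2.1, H _ t17949.2.2.2.2.2.2.1⟩, ⟨H _ t17949.2.2.2.2.2.2.2, H _ t17957.1⟩⟩⟩, ⟨⟨⟨H _ t17957.2.1, H _ t17957.2.2.1⟩,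 ⟨H _ t17957.2.2.2.1, H _ t17957.2.2.2.2.1⟩⟩, ⟨⟨H _ t17957.2.2.2.2.2.1, H _ t17957.2.2.2.2.2.2.1⟩, ⟨H _ t17957.2.2.2.2.2.2.2, ⟨H _ t17965.1, H _ t17965.2.1⟩⟩⟩⟩⟩⟩, ⟨⟨⟨⟨⟨H _ t17965.2.2.1, H _ t17965.2.2.2.1⟩, ⟨H _ t17965.2.2.2.2.1, H _ t17965.2.2.2.2.2.1⟩⟩, ⟨⟨H _ t17965.2.2.2.2.2.2.1, H _ t17965.2.2.2.2.2.2.2⟩, ⟨H _ t17973.1, H _ t17973.2.1⟩⟩⟩, ⟨⟨⟨H _ t17973.2.2.1, H _ t17973.2.2.2.1⟩, ⟨H _ t17973.2.2.2.2.1, H _ t17973.2.2.2.2.2.1⟩⟩, ⟨⟨H _ t17973.2.2.2.2.2.2.1, H _ t17973.2.2.2.2.2.2.2⟩, ⟨H _ t17981.1, ⟨H _ t17981.2.1, H _ t17981.2.2.1⟩⟩⟩⟩⟩, ⟨⟨⟨⟨H _ t17981.2.2.2.1, H _ t17981.2.2.2.2.1⟩, ⟨H _ t17981.2.2.2.2.2.1, H _ t17981.2.2.2.2.2.2.1⟩⟩, ⟨⟨H _ t17981.2.2.2.2.2.2.2, H _ t17989.1⟩, ⟨H _ t17989.2.1, ⟨H _ t17989.2.2.1, H _ t17989.2.2.2.1⟩⟩⟩⟩, ⟨⟨⟨H _ t17989.2.2.2.2.1, H _ t17989.2.2.2.2.2.1⟩, ⟨H _ t17989.2.2.2.2.2.2.1, H _ t17989.2.2.2.2.2.2.2⟩⟩, ⟨⟨H _ t17997.1, H _ t17997.2.1⟩, ⟨H _ t17997.2.2.1,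 ⟨H _ t17997.2.2.2.1, H _ t17997.2.2.2.2.1⟩⟩⟩⟩⟩⟩⟩, ⟨⟨⟨⟨⟨⟨H _ t17997.2.2.2.2.2.1, H _ t17997.2.2.2.2.2.2.1⟩, ⟨H _ t17997.2.2.2.2.2.2.2, H _ t18005.1⟩⟩, ⟨⟨H _ t18005.2.1, H _ t18005.2.2.1⟩, ⟨H _ t18005.2.2.2.1, H _ t18005.2.2.2.2.1⟩⟩⟩, ⟨⟨⟨H _ t18005.2.2.2.2.2.1, H _ t18005.2.2.2.2.2.2.1⟩, ⟨H _ t18005.2.2.2.2.2.2.2, H _ t18013.1⟩⟩, ⟨⟨H _ t18013.2.1, H _ t18013.2.2.1⟩, ⟨H _ t18013.2.2.2.1, ⟨H _ t18013.2.2.2.2.1, H _ t18013.2.2.2.2.2.1⟩⟩⟩⟩⟩, ⟨⟨⟨⟨H _ t18013.2.2.2.2.2.2.1, H _ t18013.2.2.2.2.2.2.2⟩, ⟨H _ t18021.1, H _ t18021.2.1⟩⟩, ⟨⟨H _ t18021.2.2.1, H _ t18021.2.2.2.1⟩, ⟨H _ t18021.2.2.2.2.1, ⟨H _ t18021.2.2.2.2.2.1, H _ t18021.2.2.2.2.2.2.1⟩⟩⟩⟩, ⟨⟨⟨H _ t18021.2.2.2.2.2.2.2, H _ t18029.1⟩, ⟨H _ t18029.2.1, H _ t18029.2.2.1⟩⟩, ⟨⟨H _ t18029.2.2.2.1, H _ t18029.2.2.2.2.1⟩, ⟨H _ t18029.2.2.2.2.2.1, ⟨H _ t18029.2.2.2.2.2.2.1, H _ t18029.2.2.2.2.2.2.2⟩⟩⟩⟩⟩⟩, ⟨⟨⟨⟨⟨H _ t18037.1, H _ t18037.2.1⟩, ⟨H _ t18037.2.2.1,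 H _ t18037.2.2.2.1⟩⟩, ⟨⟨H _ t18037.2.2.2.2.1, H _ t18037.2.2.2.2.2.1⟩, ⟨H _ t18037.2.2.2.2.2.2.1, H _ t18037.2.2.2.2.2.2.2⟩⟩⟩, ⟨⟨⟨H _ t18045.1, H _ t18045.2.1⟩, ⟨H _ t18045.2.2.1, H _ t18045.2.2.2.1⟩⟩, ⟨⟨H _ t18045.2.2.2.2.1, H _ t18045.2.2.2.2.2.1⟩, ⟨H _ t18045.2.2.2.2.2.2.1, ⟨H _ t18045.2.2.2.2.2.2.2, H _ t18053.1⟩⟩⟩⟩⟩, ⟨⟨⟨⟨H _ t18053.2.1, H _ t18053.2.2.1⟩, ⟨H _ t18053.2.2.2.1, H _ t18053.2.2.2.2.1⟩⟩, ⟨⟨H _ t18053.2.2.2.2.2.1, H _ t18053.2.2.2.2.2.2.1⟩, ⟨H _ t18053.2.2.2.2.2.2.2, ⟨H _ t18061.1, H _ t18061.2.1⟩⟩⟩⟩, ⟨⟨⟨H _ t18061.2.2.1, H _ t18061.2.2.2.1⟩, ⟨H _ t18061.2.2.2.2.1, H _ t18061.2.2.2.2.2.1⟩⟩, ⟨⟨H _ t18061.2.2.2.2.2.2.1, H _ t18061.2.2.2.2.2.2.2⟩, ⟨H _ t18069.1, ⟨H _ t18069.2.1, H _ t18069.2.2.1⟩⟩⟩⟩⟩⟩⟩⟩, ⟨⟨⟨⟨⟨⟨⟨H _ t18069.2.2.2.1, H _ t18069.2.2.2.2.1⟩, ⟨H _ t18069.2.2.2.2.2.1, H _ t18069.2.2.2.2.2.2.1⟩⟩, ⟨⟨H _ t18069.2.2.2.2.2.2.2, H _ t18077.1⟩, ⟨H _ t18077.2.1, H _ t18077.2.2.1⟩⟩⟩,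 ⟨⟨⟨H _ t18077.2.2.2.1, H _ t18077.2.2.2.2.1⟩, ⟨H _ t18077.2.2.2.2.2.1, H _ t18077.2.2.2.2.2.2.1⟩⟩, ⟨⟨H _ t18077.2.2.2.2.2.2.2, H _ t18085.1⟩, ⟨H _ t18085.2.1, ⟨H _ t18085.2.2.1, H _ t18085.2.2.2.1⟩⟩⟩⟩⟩, ⟨⟨⟨⟨H _ t18085.2.2.2.2.1, H _ t18085.2.2.2.2.2.1⟩, ⟨H _ t18085.2.2.2.2.2.2.1, H _ t18085.2.2.2.2.2.2.2⟩⟩, ⟨⟨H _ t18093.1, H _ t18093.2.1⟩, ⟨H _ t18093.2.2.1, H _ t18093.2.2.2.1⟩⟩⟩, ⟨⟨⟨H _ t18093.2.2.2.2.1, H _ t18093.2.2.2.2.2.1⟩, ⟨H _ t18093.2.2.2.2.2.2.1, H _ t18093.2.2.2.2.2.2.2⟩⟩, ⟨⟨H _ t18101.1, H _ t18101.2.1⟩, ⟨H _ t18101.2.2.1, ⟨H _ t18101.2.2.2.1, H _ t18101.2.2.2.2.1⟩⟩⟩⟩⟩⟩, ⟨⟨⟨⟨⟨H _ t18101.2.2.2.2.2.1, H _ t18101.2.2.2.2.2.2.1⟩, ⟨H _ t18101.2.2.2.2.2.2.2, H _ t18109.1⟩⟩, ⟨⟨H _ t18109.2.1, H _ t18109.2.2.1⟩, ⟨H _ t18109.2.2.2.1, H _ t18109.2.2.2.2.1⟩⟩⟩, ⟨⟨⟨H _ t18109.2.2.2.2.2.1, H _ t18109.2.2.2.2.2.2.1⟩, ⟨H _ t18109.2.2.2.2.2.2.2, H _ t18117.1⟩⟩, ⟨⟨H _ t18117.2.1, H _ t18117.2.2.1⟩,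 ⟨H _ t18117.2.2.2.1, ⟨H _ t18117.2.2.2.2.1, H _ t18117.2.2.2.2.2.1⟩⟩⟩⟩⟩, ⟨⟨⟨⟨H _ t18117.2.2.2.2.2.2.1, H _ t18117.2.2.2.2.2.2.2⟩, ⟨H _ t18125.1, H _ t18125.2.1⟩⟩, ⟨⟨H _ t18125.2.2.1, H _ t18125.2.2.2.1⟩, ⟨H _ t18125.2.2.2.2.1, ⟨H _ t18125.2.2.2.2.2.1, H _ t18125.2.2.2.2.2.2.1⟩⟩⟩⟩, ⟨⟨⟨H _ t18125.2.2.2.2.2.2.2, H _ t18133.1⟩, ⟨H _ t18133.2.1, H _ t18133.2.2.1⟩⟩, ⟨⟨H _ t18133.2.2.2.1, H _ t18133.2.2.2.2.1⟩, ⟨H _ t18133.2.2.2.2.2.1, ⟨H _ t18133.2.2.2.2.2.2.1, H _ t18133.2.2.2.2.2.2.2⟩⟩⟩⟩⟩⟩⟩, ⟨⟨⟨⟨⟨⟨H _ t18141.1, H _ t18141.2.1⟩, ⟨H _ t18141.2.2.1, H _ t18141.2.2.2.1⟩⟩, ⟨⟨H _ t18141.2.2.2.2.1, H _ t18141.2.2.2.2.2.1⟩, ⟨H _ t18141.2.2.2.2.2.2.1, H _ t18141.2.2.2.2.2.2.2⟩⟩⟩, ⟨⟨⟨H _ t18149.1, H _ t18149.2.1⟩, ⟨H _ t18149.2.2.1, H _ t18149.2.2.2.1⟩⟩, ⟨⟨H _ t18149.2.2.2.2.1, H _ t18149.2.2.2.2.2.1⟩, ⟨H _ t18149.2.2.2.2.2.2.1, ⟨H _ t18149.2.2.2.2.2.2.2, H _ t18157.1⟩⟩⟩⟩⟩, ⟨⟨⟨⟨H _ t18157.2.1, H _ t18157.2.2.1⟩,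 ⟨H _ t18157.2.2.2.1, H _ t18157.2.2.2.2.1⟩⟩, ⟨⟨H _ t18157.2.2.2.2.2.1, H _ t18157.2.2.2.2.2.2.1⟩, ⟨H _ t18157.2.2.2.2.2.2.2, ⟨H _ t18165.1, H _ t18165.2.1⟩⟩⟩⟩, ⟨⟨⟨H _ t18165.2.2.1, H _ t18165.2.2.2.1⟩, ⟨H _ t18165.2.2.2.2.1, H _ t18165.2.2.2.2.2.1⟩⟩, ⟨⟨H _ t18165.2.2.2.2.2.2.1, H _ t18165.2.2.2.2.2.2.2⟩, ⟨H _ t18173.1, ⟨H _ t18173.2.1, H _ t18173.2.2.1⟩⟩⟩⟩⟩⟩, ⟨⟨⟨⟨⟨H _ t18173.2.2.2.1, H _ t18173.2.2.2.2.1⟩, ⟨H _ t18173.2.2.2.2.2.1, H _ t18173.2.2.2.2.2.2.1⟩⟩, ⟨⟨H _ t18173.2.2.2.2.2.2.2, H _ t18181.1⟩, ⟨H _ t18181.2.1, H _ t18181.2.2.1⟩⟩⟩, ⟨⟨⟨H _ t18181.2.2.2.1, H _ t18181.2.2.2.2.1⟩, ⟨H _ t18181.2.2.2.2.2.1, H _ t18181.2.2.2.2.2.2.1⟩⟩, ⟨⟨H _ t18181.2.2.2.2.2.2.2, H _ t18189.1⟩, ⟨H _ t18189.2.1, ⟨H _ t18189.2.2.1, H _ t18189.2.2.2.1⟩⟩⟩⟩⟩, ⟨⟨⟨⟨H _ t18189.2.2.2.2.1, H _ t18189.2.2.2.2.2.1⟩, ⟨H _ t18189.2.2.2.2.2.2.1, H _ t18189.2.2.2.2.2.2.2⟩⟩, ⟨⟨H _ t18197.1, H _ t18197.2.1⟩, ⟨H _ t18197.2.2.1,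 ⟨H _ t18197.2.2.2.1, H _ t18197.2.2.2.2.1⟩⟩⟩⟩, ⟨⟨⟨H _ t18197.2.2.2.2.2.1, H _ t18197.2.2.2.2.2.2.1⟩, ⟨H _ t18197.2.2.2.2.2.2.2, H _ t18205.1⟩⟩, ⟨⟨H _ t18205.2.1, H _ t18205.2.2.1⟩, ⟨H _ t18205.2.2.2.1, ⟨H _ t18205.2.2.2.2.1, H _ t18205.2.2.2.2.2.1⟩⟩⟩⟩⟩⟩⟩⟩⟩, ⟨⟨⟨⟨⟨⟨⟨⟨H _ t18205.2.2.2.2.2.2.1, H _ t18205.2.2.2.2.2.2.2⟩, ⟨H _ t18213.1, H _ t18213.2.1⟩⟩, ⟨⟨H _ t18213.2.2.1, H _ t18213.2.2.2.1⟩, ⟨H _ t18213.2.2.2.2.1, H _ t18213.2.2.2.2.2.1⟩⟩⟩, ⟨⟨⟨H _ t18213.2.2.2.2.2.2.1, H _ t18213.2.2.2.2.2.2.2⟩, ⟨H _ t18221.1, H _ t18221.2.1⟩⟩, ⟨⟨H _ t18221.2.2.1, H _ t18221.2.2.2.1⟩, ⟨H _ t18221.2.2.2.2.1, ⟨H _ t18221.2.2.2.2.2.1, H _ t18221.2.2.2.2.2.2.1⟩⟩⟩⟩⟩, ⟨⟨⟨⟨H _ t18221.2.2.2.2.2.2.2, H _ t18229.1⟩, ⟨H _ t18229.2.1, H _ t18229.2.2.1⟩⟩, ⟨⟨H _ t18229.2.2.2.1, H _ t18229.2.2.2.2.1⟩, ⟨H _ t18229.2.2.2.2.2.1, H _ t18229.2.2.2.2.2.2.1⟩⟩⟩, ⟨⟨⟨H _ t18229.2.2.2.2.2.2.2, H _ t18237.1⟩, ⟨H _ t18237.2.1, H _ t18237.2.2.1⟩⟩,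 ⟨⟨H _ t18237.2.2.2.1, H _ t18237.2.2.2.2.1⟩, ⟨H _ t18237.2.2.2.2.2.1, ⟨H _ t18237.2.2.2.2.2.2.1, H _ t18237.2.2.2.2.2.2.2⟩⟩⟩⟩⟩⟩, ⟨⟨⟨⟨⟨H _ t18245.1, H _ t18245.2.1⟩, ⟨H _ t18245.2.2.1, H _ t18245.2.2.2.1⟩⟩, ⟨⟨H _ t18245.2.2.2.2.1, H _ t18245.2.2.2.2.2.1⟩, ⟨H _ t18245.2.2.2.2.2.2.1, H _ t18245.2.2.2.2.2.2.2⟩⟩⟩, ⟨⟨⟨H _ t18253.1, H _ t18253.2.1⟩, ⟨H _ t18253.2.2.1, H _ t18253.2.2.2.1⟩⟩, ⟨⟨H _ t18253.2.2.2.2.1, H _ t18253.2.2.2.2.2.1⟩, ⟨H _ t18253.2.2.2.2.2.2.1, ⟨H _ t18253.2.2.2.2.2.2.2, H _ t18261.1⟩⟩⟩⟩⟩, ⟨⟨⟨⟨H _ t18261.2.1, H _ t18261.2.2.1⟩, ⟨H _ t18261.2.2.2.1, H _ t18261.2.2.2.2.1⟩⟩, ⟨⟨H _ t18261.2.2.2.2.2.1, H _ t18261.2.2.2.2.2.2.1⟩, ⟨H _ t18261.2.2.2.2.2.2.2, ⟨H _ t18269.1, H _ t18269.2.1⟩⟩⟩⟩, ⟨⟨⟨H _ t18269.2.2.1, H _ t18269.2.2.2.1⟩, ⟨H _ t18269.2.2.2.2.1, H _ t18269.2.2.2.2.2.1⟩⟩, ⟨⟨H _ t18269.2.2.2.2.2.2.1, H _ t18269.2.2.2.2.2.2.2⟩, ⟨H _ t18277.1, ⟨H _ t18277.2.1, H _ t18277.2.2.1⟩⟩⟩⟩⟩⟩⟩,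 ⟨⟨⟨⟨⟨⟨H _ t18277.2.2.2.1, H _ t18277.2.2.2.2.1⟩, ⟨H _ t18277.2.2.2.2.2.1, H _ t18277.2.2.2.2.2.2.1⟩⟩, ⟨⟨H _ t18277.2.2.2.2.2.2.2, H _ t18285.1⟩, ⟨H _ t18285.2.1, H _ t18285.2.2.1⟩⟩⟩, ⟨⟨⟨H _ t18285.2.2.2.1, H _ t18285.2.2.2.2.1⟩, ⟨H _ t18285.2.2.2.2.2.1, H _ t18285.2.2.2.2.2.2.1⟩⟩, ⟨⟨H _ t18285.2.2.2.2.2.2.2, H _ t18293.1⟩, ⟨H _ t18293.2.1, ⟨H _ t18293.2.2.1, H _ t18293.2.2.2.1⟩⟩⟩⟩⟩, ⟨⟨⟨⟨H _ t18293.2.2.2.2.1, H _ t18293.2.2.2.2.2.1⟩, ⟨H _ t18293.2.2.2.2.2.2.1, H _ t18293.2.2.2.2.2.2.2⟩⟩, ⟨⟨H _ t18301.1, H _ t18301.2.1⟩, ⟨H _ t18301.2.2.1, ⟨H _ t18301.2.2.2.1, H _ t18301.2.2.2.2.1⟩⟩⟩⟩, ⟨⟨⟨H _ t18301.2.2.2.2.2.1, H _ t18301.2.2.2.2.2.2.1⟩, ⟨H _ t18301.2.2.2.2.2.2.2, H _ t18309.1⟩⟩, ⟨⟨H _ t18309.2.1, H _ t18309.2.2.1⟩, ⟨H _ t18309.2.2.2.1, ⟨H _ t18309.2.2.2.2.1, H _ t18309.2.2.2.2.2.1⟩⟩⟩⟩⟩⟩, ⟨⟨⟨⟨⟨H _ t18309.2.2.2.2.2.2.1, H _ t18309.2.2.2.2.2.2.2⟩, ⟨H _ t18317.1, H _ t18317.2.1⟩⟩, ⟨⟨H _ t18317.2.2.1,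 H _ t18317.2.2.2.1⟩, ⟨H _ t18317.2.2.2.2.1, H _ t18317.2.2.2.2.2.1⟩⟩⟩, ⟨⟨⟨H _ t18317.2.2.2.2.2.2.1, H _ t18317.2.2.2.2.2.2.2⟩, ⟨H _ t18325.1, H _ t18325.2.1⟩⟩, ⟨⟨H _ t18325.2.2.1, H _ t18325.2.2.2.1⟩, ⟨H _ t18325.2.2.2.2.1, ⟨H _ t18325.2.2.2.2.2.1, H _ t18325.2.2.2.2.2.2.1⟩⟩⟩⟩⟩, ⟨⟨⟨⟨H _ t18325.2.2.2.2.2.2.2, H _ t18333.1⟩, ⟨H _ t18333.2.1, H _ t18333.2.2.1⟩⟩, ⟨⟨H _ t18333.2.2.2.1, H _ t18333.2.2.2.2.1⟩, ⟨H _ t18333.2.2.2.2.2.1, ⟨H _ t18333.2.2.2.2.2.2.1, H _ t18333.2.2.2.2.2.2.2⟩⟩⟩⟩, ⟨⟨⟨H _ t18341.1, H _ t18341.2.1⟩, ⟨H _ t18341.2.2.1, H _ t18341.2.2.2.1⟩⟩, ⟨⟨H _ t18341.2.2.2.2.1, H _ t18341.2.2.2.2.2.1⟩, ⟨H _ t18341.2.2.2.2.2.2.1, ⟨H _ t18341.2.2.2.2.2.2.2, H _ t18349.1⟩⟩⟩⟩⟩⟩⟩⟩, ⟨⟨⟨⟨⟨⟨⟨H _ t18349.2.1, H _ t18349.2.2.1⟩, ⟨H _ t18349.2.2.2.1, H _ t18349.2.2.2.2.1⟩⟩, ⟨⟨H _ t18349.2.2.2.2.2.1, H _ t18349.2.2.2.2.2.2.1⟩, ⟨H _ t18349.2.2.2.2.2.2.2, H _ t18357.1⟩⟩⟩, ⟨⟨⟨H _ t18357.2.1, H _ t18357.2.2.1⟩,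 ⟨H _ t18357.2.2.2.1, H _ t18357.2.2.2.2.1⟩⟩, ⟨⟨H _ t18357.2.2.2.2.2.1, H _ t18357.2.2.2.2.2.2.1⟩, ⟨H _ t18357.2.2.2.2.2.2.2, ⟨H _ t18365.1, H _ t18365.2.1⟩⟩⟩⟩⟩, ⟨⟨⟨⟨H _ t18365.2.2.1, H _ t18365.2.2.2.1⟩, ⟨H _ t18365.2.2.2.2.1, H _ t18365.2.2.2.2.2.1⟩⟩, ⟨⟨H _ t18365.2.2.2.2.2.2.1, H _ t18365.2.2.2.2.2.2.2⟩, ⟨H _ t18373.1, H _ t18373.2.1⟩⟩⟩, ⟨⟨⟨H _ t18373.2.2.1, H _ t18373.2.2.2.1⟩, ⟨H _ t18373.2.2.2.2.1, H _ t18373.2.2.2.2.2.1⟩⟩, ⟨⟨H _ t18373.2.2.2.2.2.2.1, H _ t18373.2.2.2.2.2.2.2⟩, ⟨H _ t18381.1, ⟨H _ t18381.2.1, H _ t18381.2.2.1⟩⟩⟩⟩⟩⟩, ⟨⟨⟨⟨⟨H _ t18381.2.2.2.1, H _ t18381.2.2.2.2.1⟩, ⟨H _ t18381.2.2.2.2.2.1, H _ t18381.2.2.2.2.2.2.1⟩⟩, ⟨⟨H _ t18381.2.2.2.2.2.2.2, H _ t18389.1⟩, ⟨H _ t18389.2.1, H _ t18389.2.2.1⟩⟩⟩, ⟨⟨⟨H _ t18389.2.2.2.1, H _ t18389.2.2.2.2.1⟩, ⟨H _ t18389.2.2.2.2.2.1, H _ t18389.2.2.2.2.2.2.1⟩⟩, ⟨⟨H _ t18389.2.2.2.2.2.2.2, H _ t18397.1⟩, ⟨H _ t18397.2.1, ⟨H _ t18397.2.2.1, H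 _ t18397.2.2.2.1⟩⟩⟩⟩⟩, ⟨⟨⟨⟨H _ t18397.2.2.2.2.1, H _ t18397.2.2.2.2.2.1⟩, ⟨H _ t18397.2.2.2.2.2.2.1, H _ t18397.2.2.2.2.2.2.2⟩⟩, ⟨⟨H _ t18405.1, H _ t18405.2.1⟩, ⟨H _ t18405.2.2.1, ⟨H _ t18405.2.2.2.1, H _ t18405.2.2.2.2.1⟩⟩⟩⟩, ⟨⟨⟨H _ t18405.2.2.2.2.2.1, H _ t18405.2.2.2.2.2.2.1⟩, ⟨H _ t18405.2.2.2.2.2.2.2, H _ t18413.1⟩⟩, ⟨⟨H _ t18413.2.1, H _ t18413.2.2.1⟩, ⟨H _ t18413.2.2.2.1, ⟨H _ t18413.2.2.2.2.1, H _ t18413.2.2.2.2.2.1⟩⟩⟩⟩⟩⟩⟩, ⟨⟨⟨⟨⟨⟨H _ t18413.2.2.2.2.2.2.1, H _ t18413.2.2.2.2.2.2.2⟩, ⟨H _ t18421.1, H _ t18421.2.1⟩⟩, ⟨⟨H _ t18421.2.2.1, H _ t18421.2.2.2.1⟩, ⟨H _ t18421.2.2.2.2.1, H _ t18421.2.2.2.2.2.1⟩⟩⟩, ⟨⟨⟨H _ t18421.2.2.2.2.2.2.1, H _ t18421.2.2.2.2.2.2.2⟩, ⟨H _ t18429.1, H _ t18429.2.1⟩⟩, ⟨⟨H _ t18429.2.2.1, H _ t18429.2.2.2.1⟩, ⟨H _ t18429.2.2.2.2.1, ⟨H _ t18429.2.2.2.2.2.1, H _ t18429.2.2.2.2.2.2.1⟩⟩⟩⟩⟩, ⟨⟨⟨⟨H _ t18429.2.2.2.2.2.2.2, H _ t18437.1⟩, ⟨H _ t18437.2.1, H _ t18437.2.2.1⟩⟩,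 ⟨⟨H _ t18437.2.2.2.1, H _ t18437.2.2.2.2.1⟩, ⟨H _ t18437.2.2.2.2.2.1, ⟨H _ t18437.2.2.2.2.2.2.1, H _ t18437.2.2.2.2.2.2.2⟩⟩⟩⟩, ⟨⟨⟨H _ t18445.1, H _ t18445.2.1⟩, ⟨H _ t18445.2.2.1, H _ t18445.2.2.2.1⟩⟩, ⟨⟨H _ t18445.2.2.2.2.1, H _ t18445.2.2.2.2.2.1⟩, ⟨H _ t18445.2.2.2.2.2.2.1, ⟨H _ t18445.2.2.2.2.2.2.2, H _ t18453.1⟩⟩⟩⟩⟩⟩, ⟨⟨⟨⟨⟨H _ t18453.2.1, H _ t18453.2.2.1⟩, ⟨H _ t18453.2.2.2.1, H _ t18453.2.2.2.2.1⟩⟩, ⟨⟨H _ t18453.2.2.2.2.2.1, H _ t18453.2.2.2.2.2.2.1⟩, ⟨H _ t18453.2.2.2.2.2.2.2, H _ t18461.1⟩⟩⟩, ⟨⟨⟨H _ t18461.2.1, H _ t18461.2.2.1⟩, ⟨H _ t18461.2.2.2.1, H _ t18461.2.2.2.2.1⟩⟩, ⟨⟨H _ t18461.2.2.2.2.2.1, H _ t18461.2.2.2.2.2.2.1⟩, ⟨H _ t18461.2.2.2.2.2.2.2, ⟨H _ t18469.1, H _ t18469.2.1⟩⟩⟩⟩⟩, ⟨⟨⟨⟨H _ t18469.2.2.1, H _ t18469.2.2.2.1⟩, ⟨H _ t18469.2.2.2.2.1, H _ t18469.2.2.2.2.2.1⟩⟩, ⟨⟨H _ t18469.2.2.2.2.2.2.1, H _ t18469.2.2.2.2.2.2.2⟩, ⟨H _ t18477.1, ⟨H _ t18477.2.1, H _ t18477.2.2.1⟩⟩⟩⟩,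 ⟨⟨⟨H _ t18477.2.2.2.1, H _ t18477.2.2.2.2.1⟩, ⟨H _ t18477.2.2.2.2.2.1, H _ t18477.2.2.2.2.2.2.1⟩⟩, ⟨⟨H _ t18477.2.2.2.2.2.2.2, H _ t18485.1⟩, ⟨H _ t18485.2.1, ⟨H _ t18485.2.2.1, H _ t18485.2.2.2⟩⟩⟩⟩⟩⟩⟩⟩⟩⟩

end Pool.Agent.MP_c853c5_nt.X.C4950
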