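import Pool.Agent.MP_c853c5_nt.X.C4950.Env
import Pool.Agent.MP_c853c5_nt.X.C4950.D6

set_option autoImplicit false
set_option maxRecDepth 8192
set_option linter.all false

namespace Pool.Agent.MP_c853c5_nt.X.C4950

open Pool.Agent.MP_c853c5_nt.X

def t18489 : allY (E.wth (lkp [])) l18489 = true ∧
    allY (E.wth (lkp [])) l18490 = true ∧
    allY (E.wth (lkp [])) l18491 = true ∧
    allY (E.wth (lkp [])) l18492 = true ∧
    allY (E.wth (lkp [])) l18493 = true ∧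
    allY (E.wth (lkp [])) l18494 = true ∧
    allY (E.wth (lkp [])) l18495 = true ∧
    allY (E.wth (lkp [])) l18496 = true :=
  ⟨by decide +kernel, by decide +kernel, by decide +kernel, by decide +kernel, by decide +kernel, by decide +kernel, by decide +kernel, by decide +kernel⟩

def t18497 : allY (E.wth (lkp [])) l18497 = true ∧
    allY (E.wth (lkp [])) l18498 = true ∧
    allY (E.wth (lkp [])) l18499 = true ∧
    allY (E.wth (lkp [])) l18500 = true ∧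
    allY (E.wth (lkp [])) l18501 = true ∧
    allY (E.wth (lkp [])) l18502 = true ∧
    allY (E.wth (lkp [])) l18503 = true ∧
    allY (E.wth (lkp [])) l18504 = true :=
  ⟨by decide +kernel, by decide +kernel, by decide +kernel, by decide +kernel, by decide +kernel, by decide +kernel, by decide +kernel, by decide +kernel⟩

def t18505 : allY (E.wth (lkp [])) l18505 = true ∧
    allY (E.wth (lkp [])) l18506 = true ∧
    allY (E.wth (lkp [])) l18507 = true ∧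
    allY (E.wth (lkp [])) l18508 = true ∧
    allY (E.wth (lkp [])) l18509 = true ∧
    allY (E.wth (lkp [])) l18510 = true ∧
    allY (E.wth (lkp [])) l18511 = true ∧
    allY (E.wth (lkp [])) l18512 = true :=
  ⟨by decide +kernel, by decide +kernel, by decide +kernel, by decide +kernel, by decide +kernel, by decide +kernel, by decide +kernel, by decide +kernel⟩

def t18513 : allY (E.wth (lkp [])) l18513 = true ∧
    allY (E.wth (lkp [])) l18514 = true ∧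
    allY (E.wth (lkp [])) l18515 = true ∧
    allY (E.wth (lkp [])) l18516 = true ∧
    allY (E.wth (lkp [])) l18517 = true ∧
    allY (E.wth (lkp [])) l18518 = true ∧
    allY (E.wth (lkp [])) l18519 = true ∧
    allY (E.wth (lkp [])) l18520 = true :=
  ⟨by decide +kernel, by decide +kernel, by decide +kernel, by decide +kernel, by decide +kernel, by decide +kernel, by decide +kernel, by decide +kernel⟩

def t18521 : allY (E.wth (lkp [])) l18521 = true ∧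
    allY (E.wth (lkp [])) l18522 = true ∧
    allY (E.wth (lkp [])) l18523 = true ∧
    allY (E.wth (lkp [])) l18524 = true ∧
    allY (E.wth (lkp [])) l18525 = true ∧
    allY (E.wth (lkp [])) l18526 = true ∧
    allY (E.wth (lkp [])) l18527 = true ∧
    allY (E.wth (lkp [])) l18528 = true :=
  ⟨by decide +kernel, by decide +kernel, by decide +kernel, by decide +kernel, by decide +kernel, by decide +kernel, by decide +kernel, by decide +kernel⟩

def t18529 : allY (E.wth (lkp [])) l18529 = true ∧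
    allY (E.wth (lkp [])) l18530 = true ∧
    allY (E.wth (lkp [])) l18531 = true ∧
    allY (E.wth (lkp [])) l18532 = true ∧
    allY (E.wth (lkp [])) l18533 = true ∧
    allY (E.wth (lkp [])) l18534 = true ∧
    allY (E.wth (lkp [])) l18535 = true ∧
    allY (E.wth (lkp [])) l18536 = true :=
  ⟨by decide +kernel, by decide +kernel, by decide +kernel, by decide +kernel, by decide +kernel, by decide +kernel, by decide +kernel, by decide +kernel⟩

def t18537 : allY (E.wth (lkp [])) l18537 = true ∧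
    allY (E.wth (lkp [])) l18538 = true ∧
    allY (E.wth (lkp [])) l18539 = true ∧
    allY (E.wth (lkp [])) l18540 = true ∧
    allY (E.wth (lkp [])) l18541 = true ∧
    allY (E.wth (lkp [])) l18542 = true ∧
    allY (E.wth (lkp [])) l18543 = true ∧
    allY (E.wth (lkp [])) l18544 = true :=
  ⟨by decide +kernel, by decide +kernel, by decide +kernel, by decide +kernel, by decide +kernel, by decide +kernel, by decide +kernel, by decide +kernel⟩

def t18545 : allY (E.wth (lkp [])) l18545 = true ∧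
    allY (E.wth (lkp [])) l18546 = true ∧
    allY (E.wth (lkp [])) l18547 = true ∧
    allY (E.wth (lkp [])) l18548 = true ∧
    allY (E.wth (lkp [])) l18549 = true ∧
    allY (E.wth (lkp [])) l18550 = true ∧
    allY (E.wth (lkp [])) l18551 = true ∧
    allY (E.wth (lkp [])) l18552 = true :=
  ⟨by decide +kernel, by decide +kernel, by decide +kernel, by decide +kernel, by decide +kernel, by decide +kernel, by decide +kernel, by decide +kernel⟩

def t18553 : allY (E.wth (lkp [])) l18553 = true ∧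
    allY (E.wth (lkp [])) l18554 = true ∧
    allY (E.wth (lkp [])) l18555 = true ∧
    allY (E.wth (lkp [])) l18556 = true ∧
    allY (E.wth (lkp [])) l18557 = true ∧
    allY (E.wth (lkp [])) l18558 = true ∧
    allY (E.wth (lkp [])) l18559 = true ∧
    allY (E.wth (lkp [])) l18560 = true :=
  ⟨by decide +kernel, by decide +kernel, by decide +kernel, by decide +kernel, by decide +kernel, by decide +kernel, by decide +kernel, by decide +kernel⟩

def t18561 : allY (E.wth (lkp [])) l18561 = true ∧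
    allY (E.wth (lkp [])) l18562 = true ∧
    allY (E.wth (lkp [])) l18563 = true ∧
    allY (E.wth (lkp [])) l18564 = true ∧
    allY (E.wth (lkp [])) l18565 = true ∧
    allY (E.wth (lkp [])) l18566 = true ∧
    allY (E.wth (lkp [])) l18567 = true ∧
    allY (E.wth (lkp [])) l18568 = true :=
  ⟨by decide +kernel, by decide +kernel, by decide +kernel, by decide +kernel, by decide +kernel, by decide +kernel, by decide +kernel, by decide +kernel⟩

def t18569 : allY (E.wth (lkp [])) l18569 = true ∧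
    allY (E.wth (lkp [])) l18570 = true ∧
    allY (E.wth (lkp [])) l18571 = true ∧
    allY (E.wth (lkp [])) l18572 = true ∧
    allY (E.wth (lkp [])) l18573 = true ∧
    allY (E.wth (lkp [])) l18574 = true ∧
    allY (E.wth (lkp [])) l18575 = true ∧
    allY (E.wth (lkp [])) l18576 = true :=
  ⟨by decide +kernel, by decide +kernel, by decide +kernel, by decide +kernel, by decide +kernel, by decide +kernel, by decide +kernel, by decide +kernel⟩

def t18577 : allY (E.wth (lkp [])) l18577 = true ∧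
    allY (E.wth (lkp [])) l18578 = true ∧
    allY (E.wth (lkp [])) l18579 = true ∧
    allY (E.wth (lkp [])) l18580 = true ∧
    allY (E.wth (lkp [])) l18581 = true ∧
    allY (E.wth (lkp [])) l18582 = true ∧
    allY (E.wth (lkp [])) l18583 = true ∧
    allY (E.wth (lkp [])) l18584 = true :=
  ⟨by decide +kernel, by decide +kernel, by decide +kernel, by decide +kernel, by decide +kernel, by decide +kernel, by decide +kernel, by decide +kernel⟩

def t18585 : allY (E.wth (lkp [])) l18585 = true ∧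
    allY (E.wth (lkp [])) l18586 = true ∧
    allY (E.wth (lkp [])) l18587 = true ∧
    allY (E.wth (lkp [])) l18588 = true ∧
    allY (E.wth (lkp [])) l18589 = true ∧
    allY (E.wth (lkp [])) l18590 = true ∧
    allY (E.wth (lkp [])) l18591 = true ∧
    allY (E.wth (lkp [])) l18592 = true :=
  ⟨by decide +kernel, by decide +kernel, by decide +kernel, by decide +kernel, by decide +kernel, by decide +kernel, by decide +kernel, by decide +kernel⟩

def t18593 : allY (E.wth (lkp [])) l18593 = true ∧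
    allY (E.wth (lkp [])) l18594 = true ∧
    allY (E.wth (lkp [])) l18595 = true ∧
    allY (E.wth (lkp [])) l18596 = true ∧
    allY (E.wth (lkp [])) l18597 = true ∧
    allY (E.wth (lkp [])) l18598 = true ∧
    allY (E.wth (lkp [])) l18599 = true ∧
    allY (E.wth (lkp [])) l18600 = true :=
  ⟨by decide +kernel, by decide +kernel, by decide +kernel, by decide +kernel, by decide +kernel, by decide +kernel, by decide +kernel, by decide +kernel⟩

def t18601 : allY (E.wth (lkp [])) l18601 = true ∧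
    allY (E.wth (lkp [])) l18602 = true ∧
    allY (E.wth (lkp [])) l18603 = true ∧
    allY (E.wth (lkp [])) l18604 = true ∧
    allY (E.wth (lkp [])) l18605 = true ∧
    allY (E.wth (lkp [])) l18606 = true ∧
    allY (E.wth (lkp [])) l18607 = true ∧
    allY (E.wth (lkp [])) l18608 = true :=
  ⟨by decide +kernel, by decide +kernel, by decide +kernel, by decide +kernel, by decide +kernel, by decide +kernel, by decide +kernel, by decide +kernel⟩

def t18609 : allY (E.wth (lkp [])) l18609 = true ∧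
    allY (E.wth (lkp [])) l18610 = true ∧
    allY (E.wth (lkp [])) l18611 = true ∧
    allY (E.wth (lkp [])) l18612 = true ∧
    allY (E.wth (lkp [])) l18613 = true ∧
    allY (E.wth (lkp [])) l18614 = true ∧
    allY (E.wth (lkp [])) l18615 = true ∧
    allY (E.wth (lkp [])) l18616 = true :=
  ⟨by decide +kernel, by decide +kernel, by decide +kernel, by decide +kernel, by decide +kernel, by decide +kernel, by decide +kernel, by decide +kernel⟩

def t18617 : allY (E.wth (lkp [])) l18617 = true ∧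
    allY (E.wth (lkp [])) l18618 = true ∧
    allY (E.wth (lkp [])) l18619 = true ∧
    allY (E.wth (lkp [])) l18620 = true ∧
    allY (E.wth (lkp [])) l18621 = true ∧
    allY (E.wth (lkp [])) l18622 = true ∧
    allY (E.wth (lkp [])) l18623 = true ∧
    allY (E.wth (lkp [])) l18624 = true :=
  ⟨by decide +kernel, by decide +kernel, by decide +kernel, by decide +kernel, by decide +kernel, by decide +kernel, by decide +kernel, by decide +kernel⟩

def t18625 : allY (E.wth (lkp [])) l18625 = true ∧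
    allY (E.wth (lkp [])) l18626 = true ∧
    allY (E.wth (lkp [])) l18627 = true ∧
    allY (E.wth (lkp [])) l18628 = true ∧
    allY (E.wth (lkp [])) l18629 = true ∧
    allY (E.wth (lkp [])) l18630 = true ∧
    allY (E.wth (lkp [])) l18631 = true ∧
    allY (E.wth (lkp [])) l18632 = true :=
  ⟨by decide +kernel, by decide +kernel, by decide +kernel, by decide +kernel, by decide +kernel, by decide +kernel, by decide +kernel, by decide +kernel⟩

def t18633 : allY (E.wth (lkp [])) l18633 = true ∧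
    allY (E.wth (lkp [])) l18634 = true ∧
    allY (E.wth (lkp [])) l18635 = true ∧
    allY (E.wth (lkp [])) l18636 = true ∧
    allY (E.wth (lkp [])) l18637 = true ∧
    allY (E.wth (lkp [])) l18638 = true ∧
    allY (E.wth (lkp [])) l18639 = true ∧
    allY (E.wth (lkp [])) l18640 = true :=
  ⟨by decide +kernel, by decide +kernel, by decide +kernel, by decide +kernel, by decide +kernel, by decide +kernel, by decide +kernel, by decide +kernel⟩

def t18641 : allY (E.wth (lkp [])) l18641 = true ∧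
    allY (E.wth (lkp [])) l18642 = true ∧
    allY (E.wth (lkp [])) l18643 = true ∧
    allY (E.wth (lkp [])) l18644 = true ∧
    allY (E.wth (lkp [])) l18645 = true ∧
    allY (E.wth (lkp [])) l18646 = true ∧
    allY (E.wth (lkp [])) l18647 = true ∧
    allY (E.wth (lkp [])) l18648 = true :=
  ⟨by decide +kernel, by decide +kernel, by decide +kernel, by decide +kernel, by decide +kernel, by decide +kernel, by decide +kernel, by decide +kernel⟩

def t18649 : allY (E.wth (lkp [])) l18649 = true ∧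
    allY (E.wth (lkp [])) l18650 = true ∧
    allY (E.wth (lkp [])) l18651 = true ∧
    allY (E.wth (lkp [])) l18652 = true ∧
    allY (E.wth (lkp [])) l18653 = true ∧
    allY (E.wth (lkp [])) l18654 = true ∧
    allY (E.wth (lkp [])) l18655 = true ∧
    allY (E.wth (lkp [])) l18656 = true :=
  ⟨by decide +kernel, by decide +kernel, by decide +kernel, by decide +kernel, by decide +kernel, by decide +kernel, by decide +kernel, by decide +kernel⟩

def t18657 : allY (E.wth (lkp [])) l18657 = true ∧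
    allY (E.wth (lkp [])) l18658 = true ∧
    allY (E.wth (lkp [])) l18659 = true ∧
    allY (E.wth (lkp [])) l18660 = true ∧
    allY (E.wth (lkp [])) l18661 = true ∧
    allY (E.wth (lkp [])) l18662 = true ∧
    allY (E.wth (lkp [])) l18663 = true ∧
    allY (E.wth (lkp [])) l18664 = true :=
  ⟨by decide +kernel, by decide +kernel, by decide +kernel, by decide +kernel, by decide +kernel, by decide +kernel, by decide +kernel, by decide +kernel⟩

def t18665 : allY (E.wth (lkp [])) l18665 = true ∧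
    allY (E.wth (lkp [])) l18666 = true ∧
    allY (E.wth (lkp [])) l18667 = true ∧
    allY (E.wth (lkp [])) l18668 = true ∧
    allY (E.wth (lkp [])) l18669 = true ∧
    allY (E.wth (lkp [])) l18670 = true ∧
    allY (E.wth (lkp [])) l18671 = true ∧
    allY (E.wth (lkp [])) l18672 = true :=
  ⟨by decide +kernel, by decide +kernel, by decide +kernel, by decide +kernel, by decide +kernel, by decide +kernel, by decide +kernel, by decide +kernel⟩

def t18673 : allY (E.wth (lkp [])) l18673 = true ∧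
    allY (E.wth (lkp [])) l18674 = true ∧
    allY (E.wth (lkp [])) l18675 = true ∧
    allY (E.wth (lkp [])) l18676 = true ∧
    allY (E.wth (lkp [])) l18677 = true ∧
    allY (E.wth (lkp [])) l18678 = true ∧
    allY (E.wth (lkp [])) l18679 = true ∧
    allY (E.wth (lkp [])) l18680 = true :=
  ⟨by decide +kernel, by decide +kernel, by decide +kernel, by decide +kernel, by decide +kernel, by decide +kernel, by decide +kernel, by decide +kernel⟩

def t18681 : allY (E.wth (lkp [])) l18681 = true ∧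
    allY (E.wth (lkp [])) l18682 = true ∧
    allY (E.wth (lkp [])) l18683 = true ∧
    allY (E.wth (lkp [])) l18684 = true ∧
    allY (E.wth (lkp [])) l18685 = true ∧
    allY (E.wth (lkp [])) l18686 = true ∧
    allY (E.wth (lkp [])) l18687 = true ∧
    allY (E.wth (lkp [])) l18688 = true :=
  ⟨by decide +kernel, by decide +kernel, by decide +kernel, by decide +kernel, by decide +kernel, by decide +kernel, by decide +kernel, by decide +kernel⟩

def t18689 : allY (E.wth (lkp [])) l18689 = true ∧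
    allY (E.wth (lkp [])) l18690 = true ∧
    allY (E.wth (lkp [])) l18691 = true ∧
    allY (E.wth (lkp [])) l18692 = true ∧
    allY (E.wth (lkp [])) l18693 = true ∧
    allY (E.wth (lkp [])) l18694 = true ∧
    allY (E.wth (lkp [])) l18695 = true ∧
    allY (E.wth (lkp [])) l18696 = true :=
  ⟨by decide +kernel, by decide +kernel, by decide +kernel, by decide +kernel, by decide +kernel, by decide +kernel, by decide +kernel, by decide +kernel⟩

def t18697 : allY (E.wth (lkp [])) l18697 = true ∧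
    allY (E.wth (lkp [])) l18698 = true ∧
    allY (E.wth (lkp [])) l18699 = true ∧
    allY (E.wth (lkp [])) l18700 = true ∧
    allY (E.wth (lkp [])) l18701 = true ∧
    allY (E.wth (lkp [])) l18702 = true ∧
    allY (E.wth (lkp [])) l18703 = true ∧
    allY (E.wth (lkp [])) l18704 = true :=
  ⟨by decide +kernel, by decide +kernel, by decide +kernel, by decide +kernel, by decide +kernel, by decide +kernel, by decide +kernel, by decide +kernel⟩

def t18705 : allY (E.wth (lkp [])) l18705 = true ∧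
    allY (E.wth (lkp [])) l18706 = true ∧
    allY (E.wth (lkp [])) l18707 = true ∧
    allY (E.wth (lkp [])) l18708 = true ∧
    allY (E.wth (lkp [])) l18709 = true ∧
    allY (E.wth (lkp [])) l18710 = true ∧
    allY (E.wth (lkp [])) l18711 = true ∧
    allY (E.wth (lkp [])) l18712 = true :=
  ⟨by decide +kernel, by decide +kernel, by decide +kernel, by decide +kernel, by decide +kernel, by decide +kernel, by decide +kernel, by decide +kernel⟩

def t18713 : allY (E.wth (lkp [])) l18713 = true ∧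
    allY (E.wth (lkp [])) l18714 = true ∧
    allY (E.wth (lkp [])) l18715 = true ∧
    allY (E.wth (lkp [])) l18716 = true ∧
    allY (E.wth (lkp [])) l18717 = true ∧
    allY (E.wth (lkp [])) l18718 = true ∧
    allY (E.wth (lkp [])) l18719 = true ∧
    allY (E.wth (lkp [])) l18720 = true :=
  ⟨by decide +kernel, by decide +kernel, by decide +kernel, by decide +kernel, by decide +kernel, by decide +kernel, by decide +kernel, by decide +kernel⟩

def t18721 : allY (E.wth (lkp [])) l18721 = true ∧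
    allY (E.wth (lkp [])) l18722 = true ∧
    allY (E.wth (lkp [])) l18723 = true ∧
    allY (E.wth (lkp [])) l18724 = true ∧
    allY (E.wth (lkp [])) l18725 = true ∧
    allY (E.wth (lkp [])) l18726 = true ∧
    allY (E.wth (lkp [])) l18727 = true ∧
    allY (E.wth (lkp [])) l18728 = true :=
  ⟨by decide +kernel, by decide +kernel, by decide +kernel, by decide +kernel, by decide +kernel, by decide +kernel, by decide +kernel, by decide +kernel⟩

def t18729 : allY (E.wth (lkp [])) l18729 = true ∧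
    allY (E.wth (lkp [])) l18730 = true ∧
    allY (E.wth (lkp [])) l18731 = true ∧
    allY (E.wth (lkp [])) l18732 = true ∧
    allY (E.wth (lkp [])) l18733 = true ∧
    allY (E.wth (lkp [])) l18734 = true ∧
    allY (E.wth (lkp [])) l18735 = true ∧
    allY (E.wth (lkp [])) l18736 = true :=
  ⟨by decide +kernel, by decide +kernel, by decide +kernel, by decide +kernel, by decide +kernel, by decide +kernel, by decide +kernel, by decide +kernel⟩

def t18737 : allY (E.wth (lkp [])) l18737 = true ∧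
    allY (E.wth (lkp [])) l18738 = true ∧
    allY (E.wth (lkp [])) l18739 = true ∧
    allY (E.wth (lkp [])) l18740 = true ∧
    allY (E.wth (lkp [])) l18741 = true ∧
    allY (E.wth (lkp [])) l18742 = true ∧
    allY (E.wth (lkp [])) l18743 = true ∧
    allY (E.wth (lkp [])) l18744 = true :=
  ⟨by decide +kernel, by decide +kernel, by decide +kernel, by decide +kernel, by decide +kernel, by decide +kernel, by decide +kernel, by decide +kernel⟩

def t18745 : allY (E.wth (lkp [])) l18745 = true ∧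
    allY (E.wth (lkp [])) l18746 = true ∧
    allY (E.wth (lkp [])) l18747 = true ∧
    allY (E.wth (lkp [])) l18748 = true ∧
    allY (E.wth (lkp [])) l18749 = true ∧
    allY (E.wth (lkp [])) l18750 = true ∧
    allY (E.wth (lkp [])) l18751 = true ∧
    allY (E.wth (lkp [])) l18752 = true :=
  ⟨by decide +kernel, by decide +kernel, by decide +kernel, by decide +kernel, by decide +kernel, by decide +kernel, by decide +kernel, by decide +kernel⟩

def t18753 : allY (E.wth (lkp [])) l18753 = true ∧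
    allY (E.wth (lkp [])) l18754 = true ∧
    allY (E.wth (lkp [])) l18755 = true ∧
    allY (E.wth (lkp [])) l18756 = true ∧
    allY (E.wth (lkp [])) l18757 = true ∧
    allY (E.wth (lkp [])) l18758 = true ∧
    allY (E.wth (lkp [])) l18759 = true ∧
    allY (E.wth (lkp [])) l18760 = true :=
  ⟨by decide +kernel, by decide +kernel, by decide +kernel, by decide +kernel, by decide +kernel, by decide +kernel, by decide +kernel, by decide +kernel⟩

def t18761 : allY (E.wth (lkp [])) l18761 = true ∧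
    allY (E.wth (lkp [])) l18762 = true ∧
    allY (E.wth (lkp [])) l18763 = true ∧
    allY (E.wth (lkp [])) l18764 = true ∧
    allY (E.wth (lkp [])) l18765 = true ∧
    allY (E.wth (lkp [])) l18766 = true ∧
    allY (E.wth (lkp [])) l18767 = true ∧
    allY (E.wth (lkp [])) l18768 = true :=
  ⟨by decide +kernel, by decide +kernel, by decide +kernel, by decide +kernel, by decide +kernel, by decide +kernel, by decide +kernel, by decide +kernel⟩

def t18769 : allY (E.wth (lkp [])) l18769 = true ∧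
    allY (E.wth (lkp [])) l18770 = true ∧
    allY (E.wth (lkp [])) l18771 = true ∧
    allY (E.wth (lkp [])) l18772 = true ∧
    allY (E.wth (lkp [])) l18773 = true ∧
    allY (E.wth (lkp [])) l18774 = true ∧
    allY (E.wth (lkp [])) l18775 = true ∧
    allY (E.wth (lkp [])) l18776 = true :=
  ⟨by decide +kernel, by decide +kernel, by decide +kernel, by decide +kernel, by decide +kernel, by decide +kernel, by decide +kernel, by decide +kernel⟩

def t18777 : allY (E.wth (lkp [])) l18777 = true ∧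
    allY (E.wth (lkp [])) l18778 = true ∧
    allY (E.wth (lkp [])) l18779 = true ∧
    allY (E.wth (lkp [])) l18780 = true ∧
    allY (E.wth (lkp [])) l18781 = true ∧
    allY (E.wth (lkp [])) l18782 = true ∧
    allY (E.wth (lkp [])) l18783 = true ∧
    allY (E.wth (lkp [])) l18784 = true :=
  ⟨by decide +kernel, by decide +kernel, by decide +kernel, by decide +kernel, by decide +kernel, by decide +kernel, by decide +kernel, by decide +kernel⟩

def t18785 : allY (E.wth (lkp [])) l18785 = true ∧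
    allY (E.wth (lkp [])) l18786 = true ∧
    allY (E.wth (lkp [])) l18787 = true ∧
    allY (E.wth (lkp [])) l18788 = true ∧
    allY (E.wth (lkp [])) l18789 = true ∧
    allY (E.wth (lkp [])) l18790 = true ∧
    allY (E.wth (lkp [])) l18791 = true ∧
    allY (E.wth (lkp [])) l18792 = true :=
  ⟨by decide +kernel, by decide +kernel, by decide +kernel, by decide +kernel, by decide +kernel, by decide +kernel, by decide +kernel, by decide +kernel⟩

def t18793 : allY (E.wth (lkp [])) l18793 = true ∧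
    allY (E.wth (lkp [])) l18794 = true ∧
    allY (E.wth (lkp [])) l18795 = true ∧
    allY (E.wth (lkp [])) l18796 = true ∧
    allY (E.wth (lkp [])) l18797 = true ∧
    allY (E.wth (lkp [])) l18798 = true ∧
    allY (E.wth (lkp [])) l18799 = true ∧
    allY (E.wth (lkp [])) l18800 = true :=
  ⟨by decide +kernel, by decide +kernel, by decide +kernel, by decide +kernel, by decide +kernel, by decide +kernel, by decide +kernel, by decide +kernel⟩

def t18801 : allY (E.wth (lkp [])) l18801 = true ∧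
    allY (E.wth (lkp [])) l18802 = true ∧
    allY (E.wth (lkp [])) l18803 = true ∧
    allY (E.wth (lkp [])) l18804 = true ∧
    allY (E.wth (lkp [])) l18805 = true ∧
    allY (E.wth (lkp [])) l18806 = true ∧
    allY (E.wth (lkp [])) l18807 = true ∧
    allY (E.wth (lkp [])) l18808 = true :=
  ⟨by decide +kernel, by decide +kernel, by decide +kernel, by decide +kernel, by decide +kernel, by decide +kernel, by decide +kernel, by decide +kernel⟩

def t18809 : allY (E.wth (lkp [])) l18809 = true ∧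
    allY (E.wth (lkp [])) l18810 = true ∧
    allY (E.wth (lkp [])) l18811 = true ∧
    allY (E.wth (lkp [])) l18812 = true ∧
    allY (E.wth (lkp [])) l18813 = true ∧
    allY (E.wth (lkp [])) l18814 = true ∧
    allY (E.wth (lkp [])) l18815 = true ∧
    allY (E.wth (lkp [])) l18816 = true :=
  ⟨by decide +kernel, by decide +kernel, by decide +kernel, by decide +kernel, by decide +kernel, by decide +kernel, by decide +kernel, by decide +kernel⟩

def t18817 : allY (E.wth (lkp [])) l18817 = true ∧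
    allY (E.wth (lkp [])) l18818 = true ∧
    allY (E.wth (lkp [])) l18819 = true ∧
    allY (E.wth (lkp [])) l18820 = true ∧
    allY (E.wth (lkp [])) l18821 = true ∧
    allY (E.wth (lkp [])) l18822 = true ∧
    allY (E.wth (lkp [])) l18823 = true ∧
    allY (E.wth (lkp [])) l18824 = true :=
  ⟨by decide +kernel, by decide +kernel, by decide +kernel, by decide +kernel, by decide +kernel, by decide +kernel, by decide +kernel, by decide +kernel⟩

def t18825 : allY (E.wth (lkp [])) l18825 = true ∧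
    allY (E.wth (lkp [])) l18826 = true ∧
    allY (E.wth (lkp [])) l18827 = true ∧
    allY (E.wth (lkp [])) l18828 = true ∧
    allY (E.wth (lkp [])) l18829 = true ∧
    allY (E.wth (lkp [])) l18830 = true ∧
    allY (E.wth (lkp [])) l18831 = true ∧
    allY (E.wth (lkp [])) l18832 = true :=
  ⟨by decide +kernel, by decide +kernel, by decide +kernel, by decide +kernel, by decide +kernel, by decide +kernel, by decide +kernel, by decide +kernel⟩

def t18833 : allY (E.wth (lkp [])) l18833 = true ∧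
    allY (E.wth (lkp [])) l18834 = true ∧
    allY (E.wth (lkp [])) l18835 = true ∧
    allY (E.wth (lkp [])) l18836 = true ∧
    allY (E.wth (lkp [])) l18837 = true ∧
    allY (E.wth (lkp [])) l18838 = true ∧
    allY (E.wth (lkp [])) l18839 = true ∧
    allY (E.wth (lkp [])) l18840 = true :=
  ⟨by decide +kernel, by decide +kernel, by decide +kernel, by decide +kernel, by decide +kernel, by decide +kernel, by decide +kernel, by decide +kernel⟩

def t18841 : allY (E.wth (lkp [])) l18841 = true ∧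
    allY (E.wth (lkp [])) l18842 = true ∧
    allY (E.wth (lkp [])) l18843 = true ∧
    allY (E.wth (lkp [])) l18844 = true ∧
    allY (E.wth (lkp [])) l18845 = true ∧
    allY (E.wth (lkp [])) l18846 = true ∧
    allY (E.wth (lkp [])) l18847 = true ∧
    allY (E.wth (lkp [])) l18848 = true :=
  ⟨by decide +kernel, by decide +kernel, by decide +kernel, by decide +kernel, by decide +kernel, by decide +kernel, by decide +kernel, by decide +kernel⟩

def t18849 : allY (E.wth (lkp [])) l18849 = true ∧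
    allY (E.wth (lkp [])) l18850 = true ∧
    allY (E.wth (lkp [])) l18851 = true ∧
    allY (E.wth (lkp [])) l18852 = true ∧
    allY (E.wth (lkp [])) l18853 = true ∧
    allY (E.wth (lkp [])) l18854 = true ∧
    allY (E.wth (lkp [])) l18855 = true ∧
    allY (E.wth (lkp [])) l18856 = true :=
  ⟨by decide +kernel, by decide +kernel, by decide +kernel, by decide +kernel, by decide +kernel, by decide +kernel, by decide +kernel, by decide +kernel⟩

def t18857 : allY (E.wth (lkp [])) l18857 = true ∧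
    allY (E.wth (lkp [])) l18858 = true ∧
    allY (E.wth (lkp [])) l18859 = true ∧
    allY (E.wth (lkp [])) l18860 = true ∧
    allY (E.wth (lkp [])) l18861 = true ∧
    allY (E.wth (lkp [])) l18862 = true ∧
    allY (E.wth (lkp [])) l18863 = true ∧
    allY (E.wth (lkp [])) l18864 = true :=
  ⟨by decide +kernel, by decide +kernel, by decide +kernel, by decide +kernel, by decide +kernel, by decide +kernel, by decide +kernel, by decide +kernel⟩

def t18865 : allY (E.wth (lkp [])) l18865 = true ∧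
    allY (E.wth (lkp [])) l18866 = true ∧
    allY (E.wth (lkp [])) l18867 = true ∧
    allY (E.wth (lkp [])) l18868 = true ∧
    allY (E.wth (lkp [])) l18869 = true ∧
    allY (E.wth (lkp [])) l18870 = true ∧
    allY (E.wth (lkp [])) l18871 = true ∧
    allY (E.wth (lkp [])) l18872 = true :=
  ⟨by decide +kernel, by decide +kernel, by decide +kernel, by decide +kernel, by decide +kernel, by decide +kernel, by decide +kernel, by decide +kernel⟩

def t18873 : allY (E.wth (lkp [])) l18873 = true ∧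
    allY (E.wth (lkp [])) l18874 = true ∧
    allY (E.wth (lkp [])) l18875 = true ∧
    allY (E.wth (lkp [])) l18876 = true ∧
    allY (E.wth (lkp [])) l18877 = true ∧
    allY (E.wth (lkp [])) l18878 = true ∧
    allY (E.wth (lkp [])) l18879 = true ∧
    allY (E.wth (lkp [])) l18880 = true :=
  ⟨by decide +kernel, by decide +kernel, by decide +kernel, by decide +kernel, by decide +kernel, by decide +kernel, by decide +kernel, by decide +kernel⟩

def t18881 : allY (E.wth (lkp [])) l18881 = true ∧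
    allY (E.wth (lkp [])) l18882 = true ∧
    allY (E.wth (lkp [])) l18883 = true ∧
    allY (E.wth (lkp [])) l18884 = true ∧
    allY (E.wth (lkp [])) l18885 = true ∧
    allY (E.wth (lkp [])) l18886 = true ∧
    allY (E.wth (lkp [])) l18887 = true ∧
    allY (E.wth (lkp [])) l18888 = true :=
  ⟨by decide +kernel, by decide +kernel, by decide +kernel, by decide +kernel, by decide +kernel, by decide +kernel, by decide +kernel, by decide +kernel⟩

def t18889 : allY (E.wth (lkp [])) l18889 = true ∧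
    allY (E.wth (lkp [])) l18890 = true ∧
    allY (E.wth (lkp [])) l18891 = true ∧
    allY (E.wth (lkp [])) l18892 = true ∧
    allY (E.wth (lkp [])) l18893 = true ∧
    allY (E.wth (lkp [])) l18894 = true ∧
    allY (E.wth (lkp [])) l18895 = true ∧
    allY (E.wth (lkp [])) l18896 = true :=
  ⟨by decide +kernel, by decide +kernel, by decide +kernel, by decide +kernel, by decide +kernel, by decide +kernel, by decide +kernel, by decide +kernel⟩

def t18897 : allY (E.wth (lkp [])) l18897 = true ∧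
    allY (E.wth (lkp [])) l18898 = true ∧
    allY (E.wth (lkp [])) l18899 = true ∧
    allY (E.wth (lkp [])) l18900 = true ∧
    allY (E.wth (lkp [])) l18901 = true ∧
    allY (E.wth (lkp [])) l18902 = true ∧
    allY (E.wth (lkp [])) l18903 = true ∧
    allY (E.wth (lkp [])) l18904 = true :=
  ⟨by decide +kernel, by decide +kernel, by decide +kernel, by decide +kernel, by decide +kernel, by decide +kernel, by decide +kernel, by decide +kernel⟩

def t18905 : allY (E.wth (lkp [])) l18905 = true ∧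
    allY (E.wth (lkp [])) l18906 = true ∧
    allY (E.wth (lkp [])) l18907 = true ∧
    allY (E.wth (lkp [])) l18908 = true ∧
    allY (E.wth (lkp [])) l18909 = true ∧
    allY (E.wth (lkp [])) l18910 = true ∧
    allY (E.wth (lkp [])) l18911 = true ∧
    allY (E.wth (lkp [])) l18912 = true :=
  ⟨by decide +kernel, by decide +kernel, by decide +kernel, by decide +kernel, by decide +kernel, by decide +kernel, by decide +kernel, by decide +kernel⟩

def t18913 : allY (E.wth (lkp [])) l18913 = true ∧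
    allY (E.wth (lkp [])) l18914 = true ∧
    allY (E.wth (lkp [])) l18915 = true ∧
    allY (E.wth (lkp [])) l18916 = true ∧
    allY (E.wth (lkp [])) l18917 = true ∧
    allY (E.wth (lkp [])) l18918 = true ∧
    allY (E.wth (lkp [])) l18919 = true ∧
    allY (E.wth (lkp [])) l18920 = true :=
  ⟨by decide +kernel, by decide +kernel, by decide +kernel, by decide +kernel, by decide +kernel, by decide +kernel, by decide +kernel, by decide +kernel⟩

def t18921 : allY (E.wth (lkp [])) l18921 = true ∧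
    allY (E.wth (lkp [])) l18922 = true ∧
    allY (E.wth (lkp [])) l18923 = true ∧
    allY (E.wth (lkp [])) l18924 = true ∧
    allY (E.wth (lkp [])) l18925 = true ∧
    allY (E.wth (lkp [])) l18926 = true ∧
    allY (E.wth (lkp [])) l18927 = true ∧
    allY (E.wth (lkp [])) l18928 = true :=
  ⟨by decide +kernel, by decide +kernel, by decide +kernel, by decide +kernel, by decide +kernel, by decide +kernel, by decide +kernel, by decide +kernel⟩

def t18929 : allY (E.wth (lkp [])) l18929 = true ∧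
    allY (E.wth (lkp [])) l18930 = true ∧
    allY (E.wth (lkp [])) l18931 = true ∧
    allY (E.wth (lkp [])) l18932 = true ∧
    allY (E.wth (lkp [])) l18933 = true ∧
    allY (E.wth (lkp [])) l18934 = true ∧
    allY (E.wth (lkp [])) l18935 = true ∧
    allY (E.wth (lkp [])) l18936 = true :=
  ⟨by decide +kernel, by decide +kernel, by decide +kernel, by decide +kernel, by decide +kernel, by decide +kernel, by decide +kernel, by decide +kernel⟩

def t18937 : allY (E.wth (lkp [])) l18937 = true ∧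
    allY (E.wth (lkp [])) l18938 = true ∧
    allY (E.wth (lkp [])) l18939 = true ∧
    allY (E.wth (lkp [])) l18940 = true ∧
    allY (E.wth (lkp [])) l18941 = true ∧
    allY (E.wth (lkp [])) l18942 = true ∧
    allY (E.wth (lkp [])) l18943 = true ∧
    allY (E.wth (lkp [])) l18944 = true :=
  ⟨by decide +kernel, by decide +kernel, by decide +kernel, by decide +kernel, by decide +kernel, by decide +kernel, by decide +kernel, by decide +kernel⟩

def t18945 : allY (E.wth (lkp [])) l18945 = true ∧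
    allY (E.wth (lkp [])) l18946 = true ∧
    allY (E.wth (lkp [])) l18947 = true ∧
    allY (E.wth (lkp [])) l18948 = true ∧
    allY (E.wth (lkp [])) l18949 = true ∧
    allY (E.wth (lkp [])) l18950 = true ∧
    allY (E.wth (lkp [])) l18951 = true ∧
    allY (E.wth (lkp [])) l18952 = true :=
  ⟨by decide +kernel, by decide +kernel, by decide +kernel, by decide +kernel, by decide +kernel, by decide +kernel, by decide +kernel, by decide +kernel⟩

def t18953 : allY (E.wth (lkp [])) l18953 = true ∧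
    allY (E.wth (lkp [])) l18954 = true ∧
    allY (E.wth (lkp [])) l18955 = true ∧
    allY (E.wth (lkp [])) l18956 = true ∧
    allY (E.wth (lkp [])) l18957 = true ∧
    allY (E.wth (lkp [])) l18958 = true ∧
    allY (E.wth (lkp [])) l18959 = true ∧
    allY (E.wth (lkp [])) l18960 = true :=
  ⟨by decide +kernel, by decide +kernel, by decide +kernel, by decide +kernel, by decide +kernel, by decide +kernel, by decide +kernel, by decide +kernel⟩

def t18961 : allY (E.wth (lkp [])) l18961 = true ∧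
    allY (E.wth (lkp [])) l18962 = true ∧
    allY (E.wth (lkp [])) l18963 = true ∧
    allY (E.wth (lkp [])) l18964 = true ∧
    allY (E.wth (lkp [])) l18965 = true ∧
    allY (E.wth (lkp [])) l18966 = true ∧
    allY (E.wth (lkp [])) l18967 = true ∧
    allY (E.wth (lkp [])) l18968 = true :=
  ⟨by decide +kernel, by decide +kernel, by decide +kernel, by decide +kernel, by decide +kernel, by decide +kernel, by decide +kernel, by decide +kernel⟩

def t18969 : allY (E.wth (lkp [])) l18969 = true ∧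
    allY (E.wth (lkp [])) l18970 = true ∧
    allY (E.wth (lkp [])) l18971 = true ∧
    allY (E.wth (lkp [])) l18972 = true ∧
    allY (E.wth (lkp [])) l18973 = true ∧
    allY (E.wth (lkp [])) l18974 = true ∧
    allY (E.wth (lkp [])) l18975 = true ∧
    allY (E.wth (lkp [])) l18976 = true :=
  ⟨by decide +kernel, by decide +kernel, by decide +kernel, by decide +kernel, by decide +kernel, by decide +kernel, by decide +kernel, by decide +kernel⟩

def t18977 : allY (E.wth (lkp [])) l18977 = true ∧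
    allY (E.wth (lkp [])) l18978 = true ∧
    allY (E.wth (lkp [])) l18979 = true ∧
    allY (E.wth (lkp [])) l18980 = true ∧
    allY (E.wth (lkp [])) l18981 = true ∧
    allY (E.wth (lkp [])) l18982 = true ∧
    allY (E.wth (lkp [])) l18983 = true ∧
    allY (E.wth (lkp [])) l18984 = true :=
  ⟨by decide +kernel, by decide +kernel, by decide +kernel, by decide +kernel, by decide +kernel, by decide +kernel, by decide +kernel, by decide +kernel⟩

def t18985 : allY (E.wth (lkp [])) l18985 = true ∧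
    allY (E.wth (lkp [])) l18986 = true ∧
    allY (E.wth (lkp [])) l18987 = true ∧
    allY (E.wth (lkp [])) l18988 = true ∧
    allY (E.wth (lkp [])) l18989 = true ∧
    allY (E.wth (lkp [])) l18990 = true ∧
    allY (E.wth (lkp [])) l18991 = true ∧
    allY (E.wth (lkp [])) l18992 = true :=
  ⟨by decide +kernel, by decide +kernel, by decide +kernel, by decide +kernel, by decide +kernel, by decide +kernel, by decide +kernel, by decide +kernel⟩

def t18993 : allY (E.wth (lkp [])) l18993 = true ∧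
    allY (E.wth (lkp [])) l18994 = true ∧
    allY (E.wth (lkp [])) l18995 = true ∧
    allY (E.wth (lkp [])) l18996 = true ∧
    allY (E.wth (lkp [])) l18997 = true ∧
    allY (E.wth (lkp [])) l18998 = true ∧
    allY (E.wth (lkp [])) l18999 = true ∧
    allY (E.wth (lkp [])) l19000 = true :=
  ⟨by decide +kernel, by decide +kernel, by decide +kernel, by decide +kernel, by decide +kernel, by decide +kernel, by decide +kernel, by decide +kernel⟩

def t19001 : allY (E.wth (lkp [])) l19001 = true ∧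
    allY (E.wth (lkp [])) l19002 = true ∧
    allY (E.wth (lkp [])) l19003 = true ∧
    allY (E.wth (lkp [])) l19004 = true ∧
    allY (E.wth (lkp [])) l19005 = true ∧
    allY (E.wth (lkp [])) l19006 = true ∧
    allY (E.wth (lkp [])) l19007 = true ∧
    allY (E.wth (lkp [])) l19008 = true :=
  ⟨by decide +kernel, by decide +kernel, by decide +kernel, by decide +kernel, by decide +kernel, by decide +kernel, by decide +kernel, by decide +kernel⟩

def t19009 : allY (E.wth (lkp [])) l19009 = true ∧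
    allY (E.wth (lkp [])) l19010 = true ∧
    allY (E.wth (lkp [])) l19011 = true ∧
    allY (E.wth (lkp [])) l19012 = true ∧
    allY (E.wth (lkp [])) l19013 = true ∧
    allY (E.wth (lkp [])) l19014 = true ∧
    allY (E.wth (lkp [])) l19015 = true ∧
    allY (E.wth (lkp [])) l19016 = true :=
  ⟨by decide +kernel, by decide +kernel, by decide +kernel, by decide +kernel, by decide +kernel, by decide +kernel, by decide +kernel, by decide +kernel⟩

def t19017 : allY (E.wth (lkp [])) l19017 = true ∧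
    allY (E.wth (lkp [])) l19018 = true ∧
    allY (E.wth (lkp [])) l19019 = true ∧
    allY (E.wth (lkp [])) l19020 = true ∧
    allY (E.wth (lkp [])) l19021 = true ∧
    allY (E.wth (lkp [])) l19022 = true ∧
    allY (E.wth (lkp [])) l19023 = true ∧
    allY (E.wth (lkp [])) l19024 = true :=
  ⟨by decide +kernel, by decide +kernel, by decide +kernel, by decide +kernel, by decide +kernel, by decide +kernel, by decide +kernel, by decide +kernel⟩

def t19025 : allY (E.wth (lkp [])) l19025 = true ∧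
    allY (E.wth (lkp [])) l19026 = true ∧
    allY (E.wth (lkp [])) l19027 = true ∧
    allY (E.wth (lkp [])) l19028 = true ∧
    allY (E.wth (lkp [])) l19029 = true ∧
    allY (E.wth (lkp [])) l19030 = true ∧
    allY (E.wth (lkp [])) l19031 = true ∧
    allY (E.wth (lkp [])) l19032 = true :=
  ⟨by decide +kernel, by decide +kernel, by decide +kernel, by decide +kernel, by decide +kernel, by decide +kernel, by decide +kernel, by decide +kernel⟩

def t19033 : allY (E.wth (lkp [])) l19033 = true ∧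
    allY (E.wth (lkp [])) l19034 = true ∧
    allY (E.wth (lkp [])) l19035 = true ∧
    allY (E.wth (lkp [])) l19036 = true ∧
    allY (E.wth (lkp [])) l19037 = true ∧
    allY (E.wth (lkp [])) l19038 = true ∧
    allY (E.wth (lkp [])) l19039 = true ∧
    allY (E.wth (lkp [])) l19040 = true :=
  ⟨by decide +kernel, by decide +kernel, by decide +kernel, by decide +kernel, by decide +kernel, by decide +kernel, by decide +kernel, by decide +kernel⟩

def t19041 : allY (E.wth (lkp [])) l19041 = true ∧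
    allY (E.wth (lkp [])) l19042 = true :=
  ⟨by decide +kernel, by decide +kernel⟩

theorem a33 {p : Rf → Prop} (H : ∀ l, allY (E.wth (lkp [])) l = true → (lkp l).All p) :
    b33.All p := ⟨⟨⟨⟨⟨⟨⟨⟨⟨H _ t18489.1, H _ t18489.2.1⟩, ⟨H _ t18489.2.2.1, H _ t18489.2.2.2.1⟩⟩, ⟨⟨H _ t18489.2.2.2.2.1, H _ t18489.2.2.2.2.2.1⟩, ⟨H _ t18489.2.2.2.2.2.2.1, H _ t18489.2.2.2.2.2.2.2⟩⟩⟩, ⟨⟨⟨H _ t18497.1, H _ t18497.2.1⟩, ⟨H _ t18497.2.2.1, H _ t18497.2.2.2.1⟩⟩, ⟨⟨H _ t18497.2.2.2.2.1, H _ t18497.2.2.2.2.2.1⟩, ⟨H _ t18497.2.2.2.2.2.2.1, ⟨H _ t18497.2.2.2.2.2.2.2, H _ t18505.1⟩⟩⟩⟩⟩, ⟨⟨⟨⟨H _ t18505.2.1, H _ t18505.2.2.1⟩, ⟨H _ t18505.2.2.2.1, H _ t18505.2.2.2.2.1⟩⟩, ⟨⟨H _ t18505.2.2.2.2.2.1, H _ t18505.2.2.2.2.2.2.1⟩, ⟨H _ t18505.2.2.2.2.2.2.2, H _ t18513.1⟩⟩⟩, ⟨⟨⟨H _ t18513.2.1, H _ t18513.2.2.1⟩, ⟨H _ t18513.2.2.2.1, H _ t18513.2.2.2.2.1⟩⟩, ⟨⟨H _ t18513.2.2.2.2.2.1, H _ t18513.2.2.2.2.2.2.1⟩, ⟨H _ t18513.2.2.2.2.2.2.2,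 ⟨H _ t18521.1, H _ t18521.2.1⟩⟩⟩⟩⟩⟩, ⟨⟨⟨⟨⟨H _ t18521.2.2.1, H _ t18521.2.2.2.1⟩, ⟨H _ t18521.2.2.2.2.1, H _ t18521.2.2.2.2.2.1⟩⟩, ⟨⟨H _ t18521.2.2.2.2.2.2.1, H _ t18521.2.2.2.2.2.2.2⟩, ⟨H _ t18529.1, H _ t18529.2.1⟩⟩⟩, ⟨⟨⟨H _ t18529.2.2.1, H _ t18529.2.2.2.1⟩, ⟨H _ t18529.2.2.2.2.1, H _ t18529.2.2.2.2.2.1⟩⟩, ⟨⟨H _ t18529.2.2.2.2.2.2.1, H _ t18529.2.2.2.2.2.2.2⟩, ⟨H _ t18537.1, ⟨H _ t18537.2.1, H _ t18537.2.2.1⟩⟩⟩⟩⟩, ⟨⟨⟨⟨H _ t18537.2.2.2.1, H _ t18537.2.2.2.2.1⟩, ⟨H _ t18537.2.2.2.2.2.1, H _ t18537.2.2.2.2.2.2.1⟩⟩, ⟨⟨H _ t18537.2.2.2.2.2.2.2, H _ t18545.1⟩, ⟨H _ t18545.2.1, ⟨H _ t18545.2.2.1, H _ t18545.2.2.2.1⟩⟩⟩⟩, ⟨⟨⟨H _ t18545.2.2.2.2.1, H _ t18545.2.2.2.2.2.1⟩, ⟨H _ t18545.2.2.2.2.2.2.1, H _ t18545.2.2.2.2.2.2.2⟩⟩, ⟨⟨H _ t18553.1, H _ t18553.2.1⟩, ⟨H _ t18553.2.2.1, ⟨H _ t18553.2.2.2.1, H _ t18553.2.2.2.2.1⟩⟩⟩⟩⟩⟩⟩, ⟨⟨⟨⟨⟨⟨H _ t18553.2.2.2.2.2.1, H _ t18553.2.2.2.2.2.2.1⟩, ⟨H _ t18553.2.2.2.2.2.2.2,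 H _ t18561.1⟩⟩, ⟨⟨H _ t18561.2.1, H _ t18561.2.2.1⟩, ⟨H _ t18561.2.2.2.1, H _ t18561.2.2.2.2.1⟩⟩⟩, ⟨⟨⟨H _ t18561.2.2.2.2.2.1, H _ t18561.2.2.2.2.2.2.1⟩, ⟨H _ t18561.2.2.2.2.2.2.2, H _ t18569.1⟩⟩, ⟨⟨H _ t18569.2.1, H _ t18569.2.2.1⟩, ⟨H _ t18569.2.2.2.1, ⟨H _ t18569.2.2.2.2.1, H _ t18569.2.2.2.2.2.1⟩⟩⟩⟩⟩, ⟨⟨⟨⟨H _ t18569.2.2.2.2.2.2.1, H _ t18569.2.2.2.2.2.2.2⟩, ⟨H _ t18577.1, H _ t18577.2.1⟩⟩, ⟨⟨H _ t18577.2.2.1, H _ t18577.2.2.2.1⟩, ⟨H _ t18577.2.2.2.2.1, H _ t18577.2.2.2.2.2.1⟩⟩⟩, ⟨⟨⟨H _ t18577.2.2.2.2.2.2.1, H _ t18577.2.2.2.2.2.2.2⟩, ⟨H _ t18585.1, H _ t18585.2.1⟩⟩, ⟨⟨H _ t18585.2.2.1, H _ t18585.2.2.2.1⟩, ⟨H _ t18585.2.2.2.2.1, ⟨H _ t18585.2.2.2.2.2.1, H _ t18585.2.2.2.2.2.2.1⟩⟩⟩⟩⟩⟩, ⟨⟨⟨⟨⟨H _ t18585.2.2.2.2.2.2.2, H _ t18593.1⟩, ⟨H _ t18593.2.1, H _ t18593.2.2.1⟩⟩, ⟨⟨H _ t18593.2.2.2.1, H _ t18593.2.2.2.2.1⟩, ⟨H _ t18593.2.2.2.2.2.1, H _ t18593.2.2.2.2.2.2.1⟩⟩⟩, ⟨⟨⟨H _ t18593.2.2.2.2.2.2.2,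 H _ t18601.1⟩, ⟨H _ t18601.2.1, H _ t18601.2.2.1⟩⟩, ⟨⟨H _ t18601.2.2.2.1, H _ t18601.2.2.2.2.1⟩, ⟨H _ t18601.2.2.2.2.2.1, ⟨H _ t18601.2.2.2.2.2.2.1, H _ t18601.2.2.2.2.2.2.2⟩⟩⟩⟩⟩, ⟨⟨⟨⟨H _ t18609.1, H _ t18609.2.1⟩, ⟨H _ t18609.2.2.1, H _ t18609.2.2.2.1⟩⟩, ⟨⟨H _ t18609.2.2.2.2.1, H _ t18609.2.2.2.2.2.1⟩, ⟨H _ t18609.2.2.2.2.2.2.1, ⟨H _ t18609.2.2.2.2.2.2.2, H _ t18617.1⟩⟩⟩⟩, ⟨⟨⟨H _ t18617.2.1, H _ t18617.2.2.1⟩, ⟨H _ t18617.2.2.2.1, H _ t18617.2.2.2.2.1⟩⟩, ⟨⟨H _ t18617.2.2.2.2.2.1, H _ t18617.2.2.2.2.2.2.1⟩, ⟨H _ t18617.2.2.2.2.2.2.2, ⟨H _ t18625.1, H _ t18625.2.1⟩⟩⟩⟩⟩⟩⟩⟩, ⟨⟨⟨⟨⟨⟨⟨H _ t18625.2.2.1, H _ t18625.2.2.2.1⟩, ⟨H _ t18625.2.2.2.2.1, H _ t18625.2.2.2.2.2.1⟩⟩, ⟨⟨H _ t18625.2.2.2.2.2.2.1, H _ t18625.2.2.2.2.2.2.2⟩, ⟨H _ t18633.1, H _ t18633.2.1⟩⟩⟩, ⟨⟨⟨H _ t18633.2.2.1, H _ t18633.2.2.2.1⟩, ⟨H _ t18633.2.2.2.2.1, H _ t18633.2.2.2.2.2.1⟩⟩, ⟨⟨H _ t18633.2.2.2.2.2.2.1, H _ t18633.2.2.2.2.2.2.2⟩,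 ⟨H _ t18641.1, ⟨H _ t18641.2.1, H _ t18641.2.2.1⟩⟩⟩⟩⟩, ⟨⟨⟨⟨H _ t18641.2.2.2.1, H _ t18641.2.2.2.2.1⟩, ⟨H _ t18641.2.2.2.2.2.1, H _ t18641.2.2.2.2.2.2.1⟩⟩, ⟨⟨H _ t18641.2.2.2.2.2.2.2, H _ t18649.1⟩, ⟨H _ t18649.2.1, H _ t18649.2.2.1⟩⟩⟩, ⟨⟨⟨H _ t18649.2.2.2.1, H _ t18649.2.2.2.2.1⟩, ⟨H _ t18649.2.2.2.2.2.1, H _ t18649.2.2.2.2.2.2.1⟩⟩, ⟨⟨H _ t18649.2.2.2.2.2.2.2, H _ t18657.1⟩, ⟨H _ t18657.2.1, ⟨H _ t18657.2.2.1, H _ t18657.2.2.2.1⟩⟩⟩⟩⟩⟩, ⟨⟨⟨⟨⟨H _ t18657.2.2.2.2.1, H _ t18657.2.2.2.2.2.1⟩, ⟨H _ t18657.2.2.2.2.2.2.1, H _ t18657.2.2.2.2.2.2.2⟩⟩, ⟨⟨H _ t18665.1, H _ t18665.2.1⟩, ⟨H _ t18665.2.2.1, H _ t18665.2.2.2.1⟩⟩⟩, ⟨⟨⟨H _ t18665.2.2.2.2.1, H _ t18665.2.2.2.2.2.1⟩, ⟨H _ t18665.2.2.2.2.2.2.1, H _ t18665.2.2.2.2.2.2.2⟩⟩, ⟨⟨H _ t18673.1, H _ t18673.2.1⟩, ⟨H _ t18673.2.2.1, ⟨H _ t18673.2.2.2.1, H _ t18673.2.2.2.2.1⟩⟩⟩⟩⟩, ⟨⟨⟨⟨H _ t18673.2.2.2.2.2.1, H _ t18673.2.2.2.2.2.2.1⟩, ⟨H _ t18673.2.2.2.2.2.2.2,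 H _ t18681.1⟩⟩, ⟨⟨H _ t18681.2.1, H _ t18681.2.2.1⟩, ⟨H _ t18681.2.2.2.1, ⟨H _ t18681.2.2.2.2.1, H _ t18681.2.2.2.2.2.1⟩⟩⟩⟩, ⟨⟨⟨H _ t18681.2.2.2.2.2.2.1, H _ t18681.2.2.2.2.2.2.2⟩, ⟨H _ t18689.1, H _ t18689.2.1⟩⟩, ⟨⟨H _ t18689.2.2.1, H _ t18689.2.2.2.1⟩, ⟨H _ t18689.2.2.2.2.1, ⟨H _ t18689.2.2.2.2.2.1, H _ t18689.2.2.2.2.2.2.1⟩⟩⟩⟩⟩⟩⟩, ⟨⟨⟨⟨⟨⟨H _ t18689.2.2.2.2.2.2.2, H _ t18697.1⟩, ⟨H _ t18697.2.1, H _ t18697.2.2.1⟩⟩, ⟨⟨H _ t18697.2.2.2.1, H _ t18697.2.2.2.2.1⟩, ⟨H _ t18697.2.2.2.2.2.1, H _ t18697.2.2.2.2.2.2.1⟩⟩⟩, ⟨⟨⟨H _ t18697.2.2.2.2.2.2.2, H _ t18705.1⟩, ⟨H _ t18705.2.1, H _ t18705.2.2.1⟩⟩, ⟨⟨H _ t18705.2.2.2.1, H _ t18705.2.2.2.2.1⟩, ⟨H _ t18705.2.2.2.2.2.1, ⟨H _ t18705.2.2.2.2.2.2.1, H _ t18705.2.2.2.2.2.2.2⟩⟩⟩⟩⟩, ⟨⟨⟨⟨H _ t18713.1, H _ t18713.2.1⟩, ⟨H _ t18713.2.2.1, H _ t18713.2.2.2.1⟩⟩, ⟨⟨H _ t18713.2.2.2.2.1, H _ t18713.2.2.2.2.2.1⟩, ⟨H _ t18713.2.2.2.2.2.2.1, ⟨H _ t18713.2.2.2.2.2.2.2,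 H _ t18721.1⟩⟩⟩⟩, ⟨⟨⟨H _ t18721.2.1, H _ t18721.2.2.1⟩, ⟨H _ t18721.2.2.2.1, H _ t18721.2.2.2.2.1⟩⟩, ⟨⟨H _ t18721.2.2.2.2.2.1, H _ t18721.2.2.2.2.2.2.1⟩, ⟨H _ t18721.2.2.2.2.2.2.2, ⟨H _ t18729.1, H _ t18729.2.1⟩⟩⟩⟩⟩⟩, ⟨⟨⟨⟨⟨H _ t18729.2.2.1, H _ t18729.2.2.2.1⟩, ⟨H _ t18729.2.2.2.2.1, H _ t18729.2.2.2.2.2.1⟩⟩, ⟨⟨H _ t18729.2.2.2.2.2.2.1, H _ t18729.2.2.2.2.2.2.2⟩, ⟨H _ t18737.1, H _ t18737.2.1⟩⟩⟩, ⟨⟨⟨H _ t18737.2.2.1, H _ t18737.2.2.2.1⟩, ⟨H _ t18737.2.2.2.2.1, H _ t18737.2.2.2.2.2.1⟩⟩, ⟨⟨H _ t18737.2.2.2.2.2.2.1, H _ t18737.2.2.2.2.2.2.2⟩, ⟨H _ t18745.1, ⟨H _ t18745.2.1, H _ t18745.2.2.1⟩⟩⟩⟩⟩, ⟨⟨⟨⟨H _ t18745.2.2.2.1, H _ t18745.2.2.2.2.1⟩, ⟨H _ t18745.2.2.2.2.2.1, H _ t18745.2.2.2.2.2.2.1⟩⟩, ⟨⟨H _ t18745.2.2.2.2.2.2.2, H _ t18753.1⟩, ⟨H _ t18753.2.1, ⟨H _ t18753.2.2.1, H _ t18753.2.2.2.1⟩⟩⟩⟩, ⟨⟨⟨H _ t18753.2.2.2.2.1, H _ t18753.2.2.2.2.2.1⟩, ⟨H _ t18753.2.2.2.2.2.2.1, H _ t18753.2.2.2.2.2.2.2⟩⟩,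 ⟨⟨H _ t18761.1, H _ t18761.2.1⟩, ⟨H _ t18761.2.2.1, ⟨H _ t18761.2.2.2.1, H _ t18761.2.2.2.2.1⟩⟩⟩⟩⟩⟩⟩⟩⟩, ⟨⟨⟨⟨⟨⟨⟨⟨H _ t18761.2.2.2.2.2.1, H _ t18761.2.2.2.2.2.2.1⟩, ⟨H _ t18761.2.2.2.2.2.2.2, H _ t18769.1⟩⟩, ⟨⟨H _ t18769.2.1, H _ t18769.2.2.1⟩, ⟨H _ t18769.2.2.2.1, H _ t18769.2.2.2.2.1⟩⟩⟩, ⟨⟨⟨H _ t18769.2.2.2.2.2.1, H _ t18769.2.2.2.2.2.2.1⟩, ⟨H _ t18769.2.2.2.2.2.2.2, H _ t18777.1⟩⟩, ⟨⟨H _ t18777.2.1, H _ t18777.2.2.1⟩, ⟨H _ t18777.2.2.2.1, ⟨H _ t18777.2.2.2.2.1, H _ t18777.2.2.2.2.2.1⟩⟩⟩⟩⟩, ⟨⟨⟨⟨H _ t18777.2.2.2.2.2.2.1, H _ t18777.2.2.2.2.2.2.2⟩, ⟨H _ t18785.1, H _ t18785.2.1⟩⟩, ⟨⟨H _ t18785.2.2.1, H _ t18785.2.2.2.1⟩, ⟨H _ t18785.2.2.2.2.1, H _ t18785.2.2.2.2.2.1⟩⟩⟩, ⟨⟨⟨H _ t18785.2.2.2.2.2.2.1, H _ t18785.2.2.2.2.2.2.2⟩, ⟨H _ t18793.1, H _ t18793.2.1⟩⟩, ⟨⟨H _ t18793.2.2.1, H _ t18793.2.2.2.1⟩, ⟨H _ t18793.2.2.2.2.1, ⟨H _ t18793.2.2.2.2.2.1, H _ t18793.2.2.2.2.2.2.1⟩⟩⟩⟩⟩⟩, ⟨⟨⟨⟨⟨H _ t18793.2.2.2.2.2.2.2,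 H _ t18801.1⟩, ⟨H _ t18801.2.1, H _ t18801.2.2.1⟩⟩, ⟨⟨H _ t18801.2.2.2.1, H _ t18801.2.2.2.2.1⟩, ⟨H _ t18801.2.2.2.2.2.1, H _ t18801.2.2.2.2.2.2.1⟩⟩⟩, ⟨⟨⟨H _ t18801.2.2.2.2.2.2.2, H _ t18809.1⟩, ⟨H _ t18809.2.1, H _ t18809.2.2.1⟩⟩, ⟨⟨H _ t18809.2.2.2.1, H _ t18809.2.2.2.2.1⟩, ⟨H _ t18809.2.2.2.2.2.1, ⟨H _ t18809.2.2.2.2.2.2.1, H _ t18809.2.2.2.2.2.2.2⟩⟩⟩⟩⟩, ⟨⟨⟨⟨H _ t18817.1, H _ t18817.2.1⟩, ⟨H _ t18817.2.2.1, H _ t18817.2.2.2.1⟩⟩, ⟨⟨H _ t18817.2.2.2.2.1, H _ t18817.2.2.2.2.2.1⟩, ⟨H _ t18817.2.2.2.2.2.2.1, ⟨H _ t18817.2.2.2.2.2.2.2, H _ t18825.1⟩⟩⟩⟩, ⟨⟨⟨H _ t18825.2.1, H _ t18825.2.2.1⟩, ⟨H _ t18825.2.2.2.1, H _ t18825.2.2.2.2.1⟩⟩, ⟨⟨H _ t18825.2.2.2.2.2.1, H _ t18825.2.2.2.2.2.2.1⟩, ⟨H _ t18825.2.2.2.2.2.2.2, ⟨H _ t18833.1, H _ t18833.2.1⟩⟩⟩⟩⟩⟩⟩, ⟨⟨⟨⟨⟨⟨H _ t18833.2.2.1, H _ t18833.2.2.2.1⟩, ⟨H _ t18833.2.2.2.2.1, H _ t18833.2.2.2.2.2.1⟩⟩, ⟨⟨H _ t18833.2.2.2.2.2.2.1, H _ t18833.2.2.2.2.2.2.2⟩,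 ⟨H _ t18841.1, H _ t18841.2.1⟩⟩⟩, ⟨⟨⟨H _ t18841.2.2.1, H _ t18841.2.2.2.1⟩, ⟨H _ t18841.2.2.2.2.1, H _ t18841.2.2.2.2.2.1⟩⟩, ⟨⟨H _ t18841.2.2.2.2.2.2.1, H _ t18841.2.2.2.2.2.2.2⟩, ⟨H _ t18849.1, ⟨H _ t18849.2.1, H _ t18849.2.2.1⟩⟩⟩⟩⟩, ⟨⟨⟨⟨H _ t18849.2.2.2.1, H _ t18849.2.2.2.2.1⟩, ⟨H _ t18849.2.2.2.2.2.1, H _ t18849.2.2.2.2.2.2.1⟩⟩, ⟨⟨H _ t18849.2.2.2.2.2.2.2, H _ t18857.1⟩, ⟨H _ t18857.2.1, H _ t18857.2.2.1⟩⟩⟩, ⟨⟨⟨H _ t18857.2.2.2.1, H _ t18857.2.2.2.2.1⟩, ⟨H _ t18857.2.2.2.2.2.1, H _ t18857.2.2.2.2.2.2.1⟩⟩, ⟨⟨H _ t18857.2.2.2.2.2.2.2, H _ t18865.1⟩, ⟨H _ t18865.2.1, ⟨H _ t18865.2.2.1, H _ t18865.2.2.2.1⟩⟩⟩⟩⟩⟩, ⟨⟨⟨⟨⟨H _ t18865.2.2.2.2.1, H _ t18865.2.2.2.2.2.1⟩, ⟨H _ t18865.2.2.2.2.2.2.1, H _ t18865.2.2.2.2.2.2.2⟩⟩, ⟨⟨H _ t18873.1, H _ t18873.2.1⟩, ⟨H _ t18873.2.2.1, H _ t18873.2.2.2.1⟩⟩⟩, ⟨⟨⟨H _ t18873.2.2.2.2.1, H _ t18873.2.2.2.2.2.1⟩, ⟨H _ t18873.2.2.2.2.2.2.1, H _ t18873.2.2.2.2.2.2.2⟩⟩,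 ⟨⟨H _ t18881.1, H _ t18881.2.1⟩, ⟨H _ t18881.2.2.1, ⟨H _ t18881.2.2.2.1, H _ t18881.2.2.2.2.1⟩⟩⟩⟩⟩, ⟨⟨⟨⟨H _ t18881.2.2.2.2.2.1, H _ t18881.2.2.2.2.2.2.1⟩, ⟨H _ t18881.2.2.2.2.2.2.2, H _ t18889.1⟩⟩, ⟨⟨H _ t18889.2.1, H _ t18889.2.2.1⟩, ⟨H _ t18889.2.2.2.1, ⟨H _ t18889.2.2.2.2.1, H _ t18889.2.2.2.2.2.1⟩⟩⟩⟩, ⟨⟨⟨H _ t18889.2.2.2.2.2.2.1, H _ t18889.2.2.2.2.2.2.2⟩, ⟨H _ t18897.1, H _ t18897.2.1⟩⟩, ⟨⟨H _ t18897.2.2.1, H _ t18897.2.2.2.1⟩, ⟨H _ t18897.2.2.2.2.1, ⟨H _ t18897.2.2.2.2.2.1, H _ t18897.2.2.2.2.2.2.1⟩⟩⟩⟩⟩⟩⟩⟩, ⟨⟨⟨⟨⟨⟨⟨H _ t18897.2.2.2.2.2.2.2, H _ t18905.1⟩, ⟨H _ t18905.2.1, H _ t18905.2.2.1⟩⟩, ⟨⟨H _ t18905.2.2.2.1, H _ t18905.2.2.2.2.1⟩, ⟨H _ t18905.2.2.2.2.2.1, H _ t18905.2.2.2.2.2.2.1⟩⟩⟩, ⟨⟨⟨H _ t18905.2.2.2.2.2.2.2, H _ t18913.1⟩, ⟨H _ t18913.2.1, H _ t18913.2.2.1⟩⟩, ⟨⟨H _ t18913.2.2.2.1, H _ t18913.2.2.2.2.1⟩, ⟨H _ t18913.2.2.2.2.2.1, ⟨H _ t18913.2.2.2.2.2.2.1, H _ t18913.2.2.2.2.2.2.2⟩⟩⟩⟩⟩,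 ⟨⟨⟨⟨H _ t18921.1, H _ t18921.2.1⟩, ⟨H _ t18921.2.2.1, H _ t18921.2.2.2.1⟩⟩, ⟨⟨H _ t18921.2.2.2.2.1, H _ t18921.2.2.2.2.2.1⟩, ⟨H _ t18921.2.2.2.2.2.2.1, H _ t18921.2.2.2.2.2.2.2⟩⟩⟩, ⟨⟨⟨H _ t18929.1, H _ t18929.2.1⟩, ⟨H _ t18929.2.2.1, H _ t18929.2.2.2.1⟩⟩, ⟨⟨H _ t18929.2.2.2.2.1, H _ t18929.2.2.2.2.2.1⟩, ⟨H _ t18929.2.2.2.2.2.2.1, ⟨H _ t18929.2.2.2.2.2.2.2, H _ t18937.1⟩⟩⟩⟩⟩⟩, ⟨⟨⟨⟨⟨H _ t18937.2.1, H _ t18937.2.2.1⟩, ⟨H _ t18937.2.2.2.1, H _ t18937.2.2.2.2.1⟩⟩, ⟨⟨H _ t18937.2.2.2.2.2.1, H _ t18937.2.2.2.2.2.2.1⟩, ⟨H _ t18937.2.2.2.2.2.2.2, H _ t18945.1⟩⟩⟩, ⟨⟨⟨H _ t18945.2.1, H _ t18945.2.2.1⟩, ⟨H _ t18945.2.2.2.1, H _ t18945.2.2.2.2.1⟩⟩, ⟨⟨H _ t18945.2.2.2.2.2.1, H _ t18945.2.2.2.2.2.2.1⟩, ⟨H _ t18945.2.2.2.2.2.2.2, ⟨H _ t18953.1, H _ t18953.2.1⟩⟩⟩⟩⟩, ⟨⟨⟨⟨H _ t18953.2.2.1, H _ t18953.2.2.2.1⟩, ⟨H _ t18953.2.2.2.2.1, H _ t18953.2.2.2.2.2.1⟩⟩, ⟨⟨H _ t18953.2.2.2.2.2.2.1, H _ t18953.2.2.2.2.2.2.2⟩,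 ⟨H _ t18961.1, ⟨H _ t18961.2.1, H _ t18961.2.2.1⟩⟩⟩⟩, ⟨⟨⟨H _ t18961.2.2.2.1, H _ t18961.2.2.2.2.1⟩, ⟨H _ t18961.2.2.2.2.2.1, H _ t18961.2.2.2.2.2.2.1⟩⟩, ⟨⟨H _ t18961.2.2.2.2.2.2.2, H _ t18969.1⟩, ⟨H _ t18969.2.1, ⟨H _ t18969.2.2.1, H _ t18969.2.2.2.1⟩⟩⟩⟩⟩⟩⟩, ⟨⟨⟨⟨⟨⟨H _ t18969.2.2.2.2.1, H _ t18969.2.2.2.2.2.1⟩, ⟨H _ t18969.2.2.2.2.2.2.1, H _ t18969.2.2.2.2.2.2.2⟩⟩, ⟨⟨H _ t18977.1, H _ t18977.2.1⟩, ⟨H _ t18977.2.2.1, H _ t18977.2.2.2.1⟩⟩⟩, ⟨⟨⟨H _ t18977.2.2.2.2.1, H _ t18977.2.2.2.2.2.1⟩, ⟨H _ t18977.2.2.2.2.2.2.1, H _ t18977.2.2.2.2.2.2.2⟩⟩, ⟨⟨H _ t18985.1, H _ t18985.2.1⟩, ⟨H _ t18985.2.2.1, ⟨H _ t18985.2.2.2.1, H _ t18985.2.2.2.2.1⟩⟩⟩⟩⟩, ⟨⟨⟨⟨H _ t18985.2.2.2.2.2.1, H _ t18985.2.2.2.2.2.2.1⟩, ⟨H _ t18985.2.2.2.2.2.2.2, H _ t18993.1⟩⟩, ⟨⟨H _ t18993.2.1, H _ t18993.2.2.1⟩, ⟨H _ t18993.2.2.2.1, ⟨H _ t18993.2.2.2.2.1, H _ t18993.2.2.2.2.2.1⟩⟩⟩⟩, ⟨⟨⟨H _ t18993.2.2.2.2.2.2.1, H _ t18993.2.2.2.2.2.2.2⟩,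 ⟨H _ t19001.1, H _ t19001.2.1⟩⟩, ⟨⟨H _ t19001.2.2.1, H _ t19001.2.2.2.1⟩, ⟨H _ t19001.2.2.2.2.1, ⟨H _ t19001.2.2.2.2.2.1, H _ t19001.2.2.2.2.2.2.1⟩⟩⟩⟩⟩⟩, ⟨⟨⟨⟨⟨H _ t19001.2.2.2.2.2.2.2, H _ t19009.1⟩, ⟨H _ t19009.2.1, H _ t19009.2.2.1⟩⟩, ⟨⟨H _ t19009.2.2.2.1, H _ t19009.2.2.2.2.1⟩, ⟨H _ t19009.2.2.2.2.2.1, H _ t19009.2.2.2.2.2.2.1⟩⟩⟩, ⟨⟨⟨H _ t19009.2.2.2.2.2.2.2, H _ t19017.1⟩, ⟨H _ t19017.2.1, H _ t19017.2.2.1⟩⟩, ⟨⟨H _ t19017.2.2.2.1, H _ t19017.2.2.2.2.1⟩, ⟨H _ t19017.2.2.2.2.2.1, ⟨H _ t19017.2.2.2.2.2.2.1, H _ t19017.2.2.2.2.2.2.2⟩⟩⟩⟩⟩, ⟨⟨⟨⟨H _ t19025.1, H _ t19025.2.1⟩, ⟨H _ t19025.2.2.1, H _ t19025.2.2.2.1⟩⟩, ⟨⟨H _ t19025.2.2.2.2.1, H _ t19025.2.2.2.2.2.1⟩, ⟨H _ t19025.2.2.2.2.2.2.1, ⟨H _ t19025.2.2.2.2.2.2.2, H _ t19033.1⟩⟩⟩⟩, ⟨⟨⟨H _ t19033.2.1, H _ t19033.2.2.1⟩, ⟨H _ t19033.2.2.2.1, H _ t19033.2.2.2.2.1⟩⟩, ⟨⟨H _ t19033.2.2.2.2.2.1, H _ t19033.2.2.2.2.2.2.1⟩, ⟨H _ t19033.2.2.2.2.2.2.2,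 ⟨H _ t19041.1, H _ t19041.2⟩⟩⟩⟩⟩⟩⟩⟩⟩⟩

end Pool.Agent.MP_c853c5_nt.X.C4950
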