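import Pool.Agent.MP_c853c5_nt.X.C4950.Env
import Pool.Agent.MP_c853c5_nt.X.C4950.D6

set_option autoImplicit false
set_option maxRecDepth 8192
set_option linter.all false

namespace Pool.Agent.MP_c853c5_nt.X.C4950

open Pool.Agent.MP_c853c5_nt.X

def t19043 : allY (E.wth (lkp [])) l19043 = true ∧
    allY (E.wth (lkp [])) l19044 = true ∧
    allY (E.wth (lkp [])) l19045 = true ∧
    allY (E.wth (lkp [])) l19046 = true ∧
    allY (E.wth (lkp [])) l19047 = true ∧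
    allY (E.wth (lkp [])) l19048 = true ∧
    allY (E.wth (lkp [])) l19049 = true ∧
    allY (E.wth (lkp [])) l19050 = true :=
  ⟨by decide +kernel, by decide +kernel, by decide +kernel, by decide +kernel, by decide +kernel, by decide +kernel, by decide +kernel, by decide +kernel⟩

def t19051 : allY (E.wth (lkp [])) l19051 = true ∧
    allY (E.wth (lkp [])) l19052 = true ∧
    allY (E.wth (lkp [])) l19053 = true ∧
    allY (E.wth (lkp [])) l19054 = true ∧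
    allY (E.wth (lkp [])) l19055 = true ∧
    allY (E.wth (lkp [])) l19056 = true ∧
    allY (E.wth (lkp [])) l19057 = true ∧
    allY (E.wth (lkp [])) l19058 = true :=
  ⟨by decide +kernel, by decide +kernel, by decide +kernel, by decide +kernel, by decide +kernel, by decide +kernel, by decide +kernel, by decide +kernel⟩

def t19059 : allY (E.wth (lkp [])) l19059 = true ∧
    allY (E.wth (lkp [])) l19060 = true ∧
    allY (E.wth (lkp [])) l19061 = true ∧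
    allY (E.wth (lkp [])) l19062 = true ∧
    allY (E.wth (lkp [])) l19063 = true ∧
    allY (E.wth (lkp [])) l19064 = true ∧
    allY (E.wth (lkp [])) l19065 = true ∧
    allY (E.wth (lkp [])) l19066 = true :=
  ⟨by decide +kernel, by decide +kernel, by decide +kernel, by decide +kernel, by decide +kernel, by decide +kernel, by decide +kernel, by decide +kernel⟩

def t19067 : allY (E.wth (lkp [])) l19067 = true ∧
    allY (E.wth (lkp [])) l19068 = true ∧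
    allY (E.wth (lkp [])) l19069 = true ∧
    allY (E.wth (lkp [])) l19070 = true ∧
    allY (E.wth (lkp [])) l19071 = true ∧
    allY (E.wth (lkp [])) l19072 = true ∧
    allY (E.wth (lkp [])) l19073 = true ∧
    allY (E.wth (lkp [])) l19074 = true :=
  ⟨by decide +kernel, by decide +kernel, by decide +kernel, by decide +kernel, by decide +kernel, by decide +kernel, by decide +kernel, by decide +kernel⟩

def t19075 : allY (E.wth (lkp [])) l19075 = true ∧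
    allY (E.wth (lkp [])) l19076 = true ∧
    allY (E.wth (lkp [])) l19077 = true ∧
    allY (E.wth (lkp [])) l19078 = true ∧
    allY (E.wth (lkp [])) l19079 = true ∧
    allY (E.wth (lkp [])) l19080 = true ∧
    allY (E.wth (lkp [])) l19081 = true ∧
    allY (E.wth (lkp [])) l19082 = true :=
  ⟨by decide +kernel, by decide +kernel, by decide +kernel, by decide +kernel, by decide +kernel, by decide +kernel, by decide +kernel, by decide +kernel⟩

def t19083 : allY (E.wth (lkp [])) l19083 = true ∧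
    allY (E.wth (lkp [])) l19084 = true ∧
    allY (E.wth (lkp [])) l19085 = true ∧
    allY (E.wth (lkp [])) l19086 = true ∧
    allY (E.wth (lkp [])) l19087 = true ∧
    allY (E.wth (lkp [])) l19088 = true ∧
    allY (E.wth (lkp [])) l19089 = true ∧
    allY (E.wth (lkp [])) l19090 = true :=
  ⟨by decide +kernel, by decide +kernel, by decide +kernel, by decide +kernel, by decide +kernel, by decide +kernel, by decide +kernel, by decide +kernel⟩

def t19091 : allY (E.wth (lkp [])) l19091 = true ∧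
    allY (E.wth (lkp [])) l19092 = true ∧
    allY (E.wth (lkp [])) l19093 = true ∧
    allY (E.wth (lkp [])) l19094 = true ∧
    allY (E.wth (lkp [])) l19095 = true ∧
    allY (E.wth (lkp [])) l19096 = true ∧
    allY (E.wth (lkp [])) l19097 = true ∧
    allY (E.wth (lkp [])) l19098 = true :=
  ⟨by decide +kernel, by decide +kernel, by decide +kernel, by decide +kernel, by decide +kernel, by decide +kernel, by decide +kernel, by decide +kernel⟩

def t19099 : allY (E.wth (lkp [])) l19099 = true ∧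
    allY (E.wth (lkp [])) l19100 = true ∧
    allY (E.wth (lkp [])) l19101 = true ∧
    allY (E.wth (lkp [])) l19102 = true ∧
    allY (E.wth (lkp [])) l19103 = true ∧
    allY (E.wth (lkp [])) l19104 = true ∧
    allY (E.wth (lkp [])) l19105 = true ∧
    allY (E.wth (lkp [])) l19106 = true :=
  ⟨by decide +kernel, by decide +kernel, by decide +kernel, by decide +kernel, by decide +kernel, by decide +kernel, by decide +kernel, by decide +kernel⟩

def t19107 : allY (E.wth (lkp [])) l19107 = true ∧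
    allY (E.wth (lkp [])) l19108 = true ∧
    allY (E.wth (lkp [])) l19109 = true ∧
    allY (E.wth (lkp [])) l19110 = true ∧
    allY (E.wth (lkp [])) l19111 = true ∧
    allY (E.wth (lkp [])) l19112 = true ∧
    allY (E.wth (lkp [])) l19113 = true ∧
    allY (E.wth (lkp [])) l19114 = true :=
  ⟨by decide +kernel, by decide +kernel, by decide +kernel, by decide +kernel, by decide +kernel, by decide +kernel, by decide +kernel, by decide +kernel⟩

def t19115 : allY (E.wth (lkp [])) l19115 = true ∧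
    allY (E.wth (lkp [])) l19116 = true ∧
    allY (E.wth (lkp [])) l19117 = true ∧
    allY (E.wth (lkp [])) l19118 = true ∧
    allY (E.wth (lkp [])) l19119 = true ∧
    allY (E.wth (lkp [])) l19120 = true ∧
    allY (E.wth (lkp [])) l19121 = true ∧
    allY (E.wth (lkp [])) l19122 = true :=
  ⟨by decide +kernel, by decide +kernel, by decide +kernel, by decide +kernel, by decide +kernel, by decide +kernel, by decide +kernel, by decide +kernel⟩

def t19123 : allY (E.wth (lkp [])) l19123 = true ∧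
    allY (E.wth (lkp [])) l19124 = true ∧
    allY (E.wth (lkp [])) l19125 = true ∧
    allY (E.wth (lkp [])) l19126 = true ∧
    allY (E.wth (lkp [])) l19127 = true ∧
    allY (E.wth (lkp [])) l19128 = true ∧
    allY (E.wth (lkp [])) l19129 = true ∧
    allY (E.wth (lkp [])) l19130 = true :=
  ⟨by decide +kernel, by decide +kernel, by decide +kernel, by decide +kernel, by decide +kernel, by decide +kernel, by decide +kernel, by decide +kernel⟩

def t19131 : allY (E.wth (lkp [])) l19131 = true ∧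
    allY (E.wth (lkp [])) l19132 = true ∧
    allY (E.wth (lkp [])) l19133 = true ∧
    allY (E.wth (lkp [])) l19134 = true ∧
    allY (E.wth (lkp [])) l19135 = true ∧
    allY (E.wth (lkp [])) l19136 = true ∧
    allY (E.wth (lkp [])) l19137 = true ∧
    allY (E.wth (lkp [])) l19138 = true :=
  ⟨by decide +kernel, by decide +kernel, by decide +kernel, by decide +kernel, by decide +kernel, by decide +kernel, by decide +kernel, by decide +kernel⟩

def t19139 : allY (E.wth (lkp [])) l19139 = true ∧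
    allY (E.wth (lkp [])) l19140 = true ∧
    allY (E.wth (lkp [])) l19141 = true ∧
    allY (E.wth (lkp [])) l19142 = true ∧
    allY (E.wth (lkp [])) l19143 = true ∧
    allY (E.wth (lkp [])) l19144 = true ∧
    allY (E.wth (lkp [])) l19145 = true ∧
    allY (E.wth (lkp [])) l19146 = true :=
  ⟨by decide +kernel, by decide +kernel, by decide +kernel, by decide +kernel, by decide +kernel, by decide +kernel, by decide +kernel, by decide +kernel⟩

def t19147 : allY (E.wth (lkp [])) l19147 = true ∧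
    allY (E.wth (lkp [])) l19148 = true ∧
    allY (E.wth (lkp [])) l19149 = true ∧
    allY (E.wth (lkp [])) l19150 = true ∧
    allY (E.wth (lkp [])) l19151 = true ∧
    allY (E.wth (lkp [])) l19152 = true ∧
    allY (E.wth (lkp [])) l19153 = true ∧
    allY (E.wth (lkp [])) l19154 = true :=
  ⟨by decide +kernel, by decide +kernel, by decide +kernel, by decide +kernel, by decide +kernel, by decide +kernel, by decide +kernel, by decide +kernel⟩

def t19155 : allY (E.wth (lkp [])) l19155 = true ∧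
    allY (E.wth (lkp [])) l19156 = true ∧
    allY (E.wth (lkp [])) l19157 = true ∧
    allY (E.wth (lkp [])) l19158 = true ∧
    allY (E.wth (lkp [])) l19159 = true ∧
    allY (E.wth (lkp [])) l19160 = true ∧
    allY (E.wth (lkp [])) l19161 = true ∧
    allY (E.wth (lkp [])) l19162 = true :=
  ⟨by decide +kernel, by decide +kernel, by decide +kernel, by decide +kernel, by decide +kernel, by decide +kernel, by decide +kernel, by decide +kernel⟩

def t19163 : allY (E.wth (lkp [])) l19163 = true ∧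
    allY (E.wth (lkp [])) l19164 = true ∧
    allY (E.wth (lkp [])) l19165 = true ∧
    allY (E.wth (lkp [])) l19166 = true ∧
    allY (E.wth (lkp [])) l19167 = true ∧
    allY (E.wth (lkp [])) l19168 = true ∧
    allY (E.wth (lkp [])) l19169 = true ∧
    allY (E.wth (lkp [])) l19170 = true :=
  ⟨by decide +kernel, by decide +kernel, by decide +kernel, by decide +kernel, by decide +kernel, by decide +kernel, by decide +kernel, by decide +kernel⟩

def t19171 : allY (E.wth (lkp [])) l19171 = true ∧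
    allY (E.wth (lkp [])) l19172 = true ∧
    allY (E.wth (lkp [])) l19173 = true ∧
    allY (E.wth (lkp [])) l19174 = true ∧
    allY (E.wth (lkp [])) l19175 = true ∧
    allY (E.wth (lkp [])) l19176 = true ∧
    allY (E.wth (lkp [])) l19177 = true ∧
    allY (E.wth (lkp [])) l19178 = true :=
  ⟨by decide +kernel, by decide +kernel, by decide +kernel, by decide +kernel, by decide +kernel, by decide +kernel, by decide +kernel, by decide +kernel⟩

def t19179 : allY (E.wth (lkp [])) l19179 = true ∧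
    allY (E.wth (lkp [])) l19180 = true ∧
    allY (E.wth (lkp [])) l19181 = true ∧
    allY (E.wth (lkp [])) l19182 = true ∧
    allY (E.wth (lkp [])) l19183 = true ∧
    allY (E.wth (lkp [])) l19184 = true ∧
    allY (E.wth (lkp [])) l19185 = true ∧
    allY (E.wth (lkp [])) l19186 = true :=
  ⟨by decide +kernel, by decide +kernel, by decide +kernel, by decide +kernel, by decide +kernel, by decide +kernel, by decide +kernel, by decide +kernel⟩

def t19187 : allY (E.wth (lkp [])) l19187 = true ∧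
    allY (E.wth (lkp [])) l19188 = true ∧
    allY (E.wth (lkp [])) l19189 = true ∧
    allY (E.wth (lkp [])) l19190 = true ∧
    allY (E.wth (lkp [])) l19191 = true ∧
    allY (E.wth (lkp [])) l19192 = true ∧
    allY (E.wth (lkp [])) l19193 = true ∧
    allY (E.wth (lkp [])) l19194 = true :=
  ⟨by decide +kernel, by decide +kernel, by decide +kernel, by decide +kernel, by decide +kernel, by decide +kernel, by decide +kernel, by decide +kernel⟩

def t19195 : allY (E.wth (lkp [])) l19195 = true ∧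
    allY (E.wth (lkp [])) l19196 = true ∧
    allY (E.wth (lkp [])) l19197 = true ∧
    allY (E.wth (lkp [])) l19198 = true ∧
    allY (E.wth (lkp [])) l19199 = true ∧
    allY (E.wth (lkp [])) l19200 = true ∧
    allY (E.wth (lkp [])) l19201 = true ∧
    allY (E.wth (lkp [])) l19202 = true :=
  ⟨by decide +kernel, by decide +kernel, by decide +kernel, by decide +kernel, by decide +kernel, by decide +kernel, by decide +kernel, by decide +kernel⟩

def t19203 : allY (E.wth (lkp [])) l19203 = true ∧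
    allY (E.wth (lkp [])) l19204 = true ∧
    allY (E.wth (lkp [])) l19205 = true ∧
    allY (E.wth (lkp [])) l19206 = true ∧
    allY (E.wth (lkp [])) l19207 = true ∧
    allY (E.wth (lkp [])) l19208 = true ∧
    allY (E.wth (lkp [])) l19209 = true ∧
    allY (E.wth (lkp [])) l19210 = true :=
  ⟨by decide +kernel, by decide +kernel, by decide +kernel, by decide +kernel, by decide +kernel, by decide +kernel, by decide +kernel, by decide +kernel⟩

def t19211 : allY (E.wth (lkp [])) l19211 = true ∧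
    allY (E.wth (lkp [])) l19212 = true ∧
    allY (E.wth (lkp [])) l19213 = true ∧
    allY (E.wth (lkp [])) l19214 = true ∧
    allY (E.wth (lkp [])) l19215 = true ∧
    allY (E.wth (lkp [])) l19216 = true ∧
    allY (E.wth (lkp [])) l19217 = true ∧
    allY (E.wth (lkp [])) l19218 = true :=
  ⟨by decide +kernel, by decide +kernel, by decide +kernel, by decide +kernel, by decide +kernel, by decide +kernel, by decide +kernel, by decide +kernel⟩

def t19219 : allY (E.wth (lkp [])) l19219 = true ∧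
    allY (E.wth (lkp [])) l19220 = true ∧
    allY (E.wth (lkp [])) l19221 = true ∧
    allY (E.wth (lkp [])) l19222 = true ∧
    allY (E.wth (lkp [])) l19223 = true ∧
    allY (E.wth (lkp [])) l19224 = true ∧
    allY (E.wth (lkp [])) l19225 = true ∧
    allY (E.wth (lkp [])) l19226 = true :=
  ⟨by decide +kernel, by decide +kernel, by decide +kernel, by decide +kernel, by decide +kernel, by decide +kernel, by decide +kernel, by decide +kernel⟩

def t19227 : allY (E.wth (lkp [])) l19227 = true ∧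
    allY (E.wth (lkp [])) l19228 = true ∧
    allY (E.wth (lkp [])) l19229 = true ∧
    allY (E.wth (lkp [])) l19230 = true ∧
    allY (E.wth (lkp [])) l19231 = true ∧
    allY (E.wth (lkp [])) l19232 = true ∧
    allY (E.wth (lkp [])) l19233 = true ∧
    allY (E.wth (lkp [])) l19234 = true :=
  ⟨by decide +kernel, by decide +kernel, by decide +kernel, by decide +kernel, by decide +kernel, by decide +kernel, by decide +kernel, by decide +kernel⟩

def t19235 : allY (E.wth (lkp [])) l19235 = true ∧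
    allY (E.wth (lkp [])) l19236 = true ∧
    allY (E.wth (lkp [])) l19237 = true ∧
    allY (E.wth (lkp [])) l19238 = true ∧
    allY (E.wth (lkp [])) l19239 = true ∧
    allY (E.wth (lkp [])) l19240 = true ∧
    allY (E.wth (lkp [])) l19241 = true ∧
    allY (E.wth (lkp [])) l19242 = true :=
  ⟨by decide +kernel, by decide +kernel, by decide +kernel, by decide +kernel, by decide +kernel, by decide +kernel, by decide +kernel, by decide +kernel⟩

def t19243 : allY (E.wth (lkp [])) l19243 = true ∧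
    allY (E.wth (lkp [])) l19244 = true ∧
    allY (E.wth (lkp [])) l19245 = true ∧
    allY (E.wth (lkp [])) l19246 = true ∧
    allY (E.wth (lkp [])) l19247 = true ∧
    allY (E.wth (lkp [])) l19248 = true ∧
    allY (E.wth (lkp [])) l19249 = true ∧
    allY (E.wth (lkp [])) l19250 = true :=
  ⟨by decide +kernel, by decide +kernel, by decide +kernel, by decide +kernel, by decide +kernel, by decide +kernel, by decide +kernel, by decide +kernel⟩

def t19251 : allY (E.wth (lkp [])) l19251 = true ∧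
    allY (E.wth (lkp [])) l19252 = true ∧
    allY (E.wth (lkp [])) l19253 = true ∧
    allY (E.wth (lkp [])) l19254 = true ∧
    allY (E.wth (lkp [])) l19255 = true ∧
    allY (E.wth (lkp [])) l19256 = true ∧
    allY (E.wth (lkp [])) l19257 = true ∧
    allY (E.wth (lkp [])) l19258 = true :=
  ⟨by decide +kernel, by decide +kernel, by decide +kernel, by decide +kernel, by decide +kernel, by decide +kernel, by decide +kernel, by decide +kernel⟩

def t19259 : allY (E.wth (lkp [])) l19259 = true ∧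
    allY (E.wth (lkp [])) l19260 = true ∧
    allY (E.wth (lkp [])) l19261 = true ∧
    allY (E.wth (lkp [])) l19262 = true ∧
    allY (E.wth (lkp [])) l19263 = true ∧
    allY (E.wth (lkp [])) l19264 = true ∧
    allY (E.wth (lkp [])) l19265 = true ∧
    allY (E.wth (lkp [])) l19266 = true :=
  ⟨by decide +kernel, by decide +kernel, by decide +kernel, by decide +kernel, by decide +kernel, by decide +kernel, by decide +kernel, by decide +kernel⟩

def t19267 : allY (E.wth (lkp [])) l19267 = true ∧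
    allY (E.wth (lkp [])) l19268 = true ∧
    allY (E.wth (lkp [])) l19269 = true ∧
    allY (E.wth (lkp [])) l19270 = true ∧
    allY (E.wth (lkp [])) l19271 = true ∧
    allY (E.wth (lkp [])) l19272 = true ∧
    allY (E.wth (lkp [])) l19273 = true ∧
    allY (E.wth (lkp [])) l19274 = true :=
  ⟨by decide +kernel, by decide +kernel, by decide +kernel, by decide +kernel, by decide +kernel, by decide +kernel, by decide +kernel, by decide +kernel⟩

def t19275 : allY (E.wth (lkp [])) l19275 = true ∧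
    allY (E.wth (lkp [])) l19276 = true ∧
    allY (E.wth (lkp [])) l19277 = true ∧
    allY (E.wth (lkp [])) l19278 = true ∧
    allY (E.wth (lkp [])) l19279 = true ∧
    allY (E.wth (lkp [])) l19280 = true ∧
    allY (E.wth (lkp [])) l19281 = true ∧
    allY (E.wth (lkp [])) l19282 = true :=
  ⟨by decide +kernel, by decide +kernel, by decide +kernel, by decide +kernel, by decide +kernel, by decide +kernel, by decide +kernel, by decide +kernel⟩

def t19283 : allY (E.wth (lkp [])) l19283 = true ∧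
    allY (E.wth (lkp [])) l19284 = true ∧
    allY (E.wth (lkp [])) l19285 = true ∧
    allY (E.wth (lkp [])) l19286 = true ∧
    allY (E.wth (lkp [])) l19287 = true ∧
    allY (E.wth (lkp [])) l19288 = true ∧
    allY (E.wth (lkp [])) l19289 = true ∧
    allY (E.wth (lkp [])) l19290 = true :=
  ⟨by decide +kernel, by decide +kernel, by decide +kernel, by decide +kernel, by decide +kernel, by decide +kernel, by decide +kernel, by decide +kernel⟩

def t19291 : allY (E.wth (lkp [])) l19291 = true ∧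
    allY (E.wth (lkp [])) l19292 = true ∧
    allY (E.wth (lkp [])) l19293 = true ∧
    allY (E.wth (lkp [])) l19294 = true ∧
    allY (E.wth (lkp [])) l19295 = true ∧
    allY (E.wth (lkp [])) l19296 = true ∧
    allY (E.wth (lkp [])) l19297 = true ∧
    allY (E.wth (lkp [])) l19298 = true :=
  ⟨by decide +kernel, by decide +kernel, by decide +kernel, by decide +kernel, by decide +kernel, by decide +kernel, by decide +kernel, by decide +kernel⟩

def t19299 : allY (E.wth (lkp [])) l19299 = true ∧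
    allY (E.wth (lkp [])) l19300 = true ∧
    allY (E.wth (lkp [])) l19301 = true ∧
    allY (E.wth (lkp [])) l19302 = true ∧
    allY (E.wth (lkp [])) l19303 = true ∧
    allY (E.wth (lkp [])) l19304 = true ∧
    allY (E.wth (lkp [])) l19305 = true ∧
    allY (E.wth (lkp [])) l19306 = true :=
  ⟨by decide +kernel, by decide +kernel, by decide +kernel, by decide +kernel, by decide +kernel, by decide +kernel, by decide +kernel, by decide +kernel⟩

def t19307 : allY (E.wth (lkp [])) l19307 = true ∧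
    allY (E.wth (lkp [])) l19308 = true ∧
    allY (E.wth (lkp [])) l19309 = true ∧
    allY (E.wth (lkp [])) l19310 = true ∧
    allY (E.wth (lkp [])) l19311 = true ∧
    allY (E.wth (lkp [])) l19312 = true ∧
    allY (E.wth (lkp [])) l19313 = true ∧
    allY (E.wth (lkp [])) l19314 = true :=
  ⟨by decide +kernel, by decide +kernel, by decide +kernel, by decide +kernel, by decide +kernel, by decide +kernel, by decide +kernel, by decide +kernel⟩

def t19315 : allY (E.wth (lkp [])) l19315 = true ∧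
    allY (E.wth (lkp [])) l19316 = true ∧
    allY (E.wth (lkp [])) l19317 = true ∧
    allY (E.wth (lkp [])) l19318 = true ∧
    allY (E.wth (lkp [])) l19319 = true ∧
    allY (E.wth (lkp [])) l19320 = true ∧
    allY (E.wth (lkp [])) l19321 = true ∧
    allY (E.wth (lkp [])) l19322 = true :=
  ⟨by decide +kernel, by decide +kernel, by decide +kernel, by decide +kernel, by decide +kernel, by decide +kernel, by decide +kernel, by decide +kernel⟩

def t19323 : allY (E.wth (lkp [])) l19323 = true ∧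
    allY (E.wth (lkp [])) l19324 = true ∧
    allY (E.wth (lkp [])) l19325 = true ∧
    allY (E.wth (lkp [])) l19326 = true ∧
    allY (E.wth (lkp [])) l19327 = true ∧
    allY (E.wth (lkp [])) l19328 = true ∧
    allY (E.wth (lkp [])) l19329 = true ∧
    allY (E.wth (lkp [])) l19330 = true :=
  ⟨by decide +kernel, by decide +kernel, by decide +kernel, by decide +kernel, by decide +kernel, by decide +kernel, by decide +kernel, by decide +kernel⟩

def t19331 : allY (E.wth (lkp [])) l19331 = true ∧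
    allY (E.wth (lkp [])) l19332 = true ∧
    allY (E.wth (lkp [])) l19333 = true ∧
    allY (E.wth (lkp [])) l19334 = true ∧
    allY (E.wth (lkp [])) l19335 = true ∧
    allY (E.wth (lkp [])) l19336 = true ∧
    allY (E.wth (lkp [])) l19337 = true ∧
    allY (E.wth (lkp [])) l19338 = true :=
  ⟨by decide +kernel, by decide +kernel, by decide +kernel, by decide +kernel, by decide +kernel, by decide +kernel, by decide +kernel, by decide +kernel⟩

def t19339 : allY (E.wth (lkp [])) l19339 = true ∧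
    allY (E.wth (lkp [])) l19340 = true ∧
    allY (E.wth (lkp [])) l19341 = true ∧
    allY (E.wth (lkp [])) l19342 = true ∧
    allY (E.wth (lkp [])) l19343 = true ∧
    allY (E.wth (lkp [])) l19344 = true ∧
    allY (E.wth (lkp [])) l19345 = true ∧
    allY (E.wth (lkp [])) l19346 = true :=
  ⟨by decide +kernel, by decide +kernel, by decide +kernel, by decide +kernel, by decide +kernel, by decide +kernel, by decide +kernel, by decide +kernel⟩

def t19347 : allY (E.wth (lkp [])) l19347 = true ∧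
    allY (E.wth (lkp [])) l19348 = true ∧
    allY (E.wth (lkp [])) l19349 = true ∧
    allY (E.wth (lkp [])) l19350 = true ∧
    allY (E.wth (lkp [])) l19351 = true ∧
    allY (E.wth (lkp [])) l19352 = true ∧
    allY (E.wth (lkp [])) l19353 = true ∧
    allY (E.wth (lkp [])) l19354 = true :=
  ⟨by decide +kernel, by decide +kernel, by decide +kernel, by decide +kernel, by decide +kernel, by decide +kernel, by decide +kernel, by decide +kernel⟩

def t19355 : allY (E.wth (lkp [])) l19355 = true ∧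
    allY (E.wth (lkp [])) l19356 = true ∧
    allY (E.wth (lkp [])) l19357 = true ∧
    allY (E.wth (lkp [])) l19358 = true ∧
    allY (E.wth (lkp [])) l19359 = true ∧
    allY (E.wth (lkp [])) l19360 = true ∧
    allY (E.wth (lkp [])) l19361 = true ∧
    allY (E.wth (lkp [])) l19362 = true :=
  ⟨by decide +kernel, by decide +kernel, by decide +kernel, by decide +kernel, by decide +kernel, by decide +kernel, by decide +kernel, by decide +kernel⟩

def t19363 : allY (E.wth (lkp [])) l19363 = true ∧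
    allY (E.wth (lkp [])) l19364 = true ∧
    allY (E.wth (lkp [])) l19365 = true ∧
    allY (E.wth (lkp [])) l19366 = true ∧
    allY (E.wth (lkp [])) l19367 = true ∧
    allY (E.wth (lkp [])) l19368 = true ∧
    allY (E.wth (lkp [])) l19369 = true ∧
    allY (E.wth (lkp [])) l19370 = true :=
  ⟨by decide +kernel, by decide +kernel, by decide +kernel, by decide +kernel, by decide +kernel, by decide +kernel, by decide +kernel, by decide +kernel⟩

def t19371 : allY (E.wth (lkp [])) l19371 = true ∧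
    allY (E.wth (lkp [])) l19372 = true ∧
    allY (E.wth (lkp [])) l19373 = true ∧
    allY (E.wth (lkp [])) l19374 = true ∧
    allY (E.wth (lkp [])) l19375 = true ∧
    allY (E.wth (lkp [])) l19376 = true ∧
    allY (E.wth (lkp [])) l19377 = true ∧
    allY (E.wth (lkp [])) l19378 = true :=
  ⟨by decide +kernel, by decide +kernel, by decide +kernel, by decide +kernel, by decide +kernel, by decide +kernel, by decide +kernel, by decide +kernel⟩

def t19379 : allY (E.wth (lkp [])) l19379 = true ∧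
    allY (E.wth (lkp [])) l19380 = true ∧
    allY (E.wth (lkp [])) l19381 = true ∧
    allY (E.wth (lkp [])) l19382 = true ∧
    allY (E.wth (lkp [])) l19383 = true ∧
    allY (E.wth (lkp [])) l19384 = true ∧
    allY (E.wth (lkp [])) l19385 = true ∧
    allY (E.wth (lkp [])) l19386 = true :=
  ⟨by decide +kernel, by decide +kernel, by decide +kernel, by decide +kernel, by decide +kernel, by decide +kernel, by decide +kernel, by decide +kernel⟩

def t19387 : allY (E.wth (lkp [])) l19387 = true ∧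
    allY (E.wth (lkp [])) l19388 = true ∧
    allY (E.wth (lkp [])) l19389 = true ∧
    allY (E.wth (lkp [])) l19390 = true ∧
    allY (E.wth (lkp [])) l19391 = true ∧
    allY (E.wth (lkp [])) l19392 = true ∧
    allY (E.wth (lkp [])) l19393 = true ∧
    allY (E.wth (lkp [])) l19394 = true :=
  ⟨by decide +kernel, by decide +kernel, by decide +kernel, by decide +kernel, by decide +kernel, by decide +kernel, by decide +kernel, by decide +kernel⟩

def t19395 : allY (E.wth (lkp [])) l19395 = true ∧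
    allY (E.wth (lkp [])) l19396 = true ∧
    allY (E.wth (lkp [])) l19397 = true ∧
    allY (E.wth (lkp [])) l19398 = true ∧
    allY (E.wth (lkp [])) l19399 = true ∧
    allY (E.wth (lkp [])) l19400 = true ∧
    allY (E.wth (lkp [])) l19401 = true ∧
    allY (E.wth (lkp [])) l19402 = true :=
  ⟨by decide +kernel, by decide +kernel, by decide +kernel, by decide +kernel, by decide +kernel, by decide +kernel, by decide +kernel, by decide +kernel⟩

def t19403 : allY (E.wth (lkp [])) l19403 = true ∧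
    allY (E.wth (lkp [])) l19404 = true ∧
    allY (E.wth (lkp [])) l19405 = true ∧
    allY (E.wth (lkp [])) l19406 = true ∧
    allY (E.wth (lkp [])) l19407 = true ∧
    allY (E.wth (lkp [])) l19408 = true ∧
    allY (E.wth (lkp [])) l19409 = true ∧
    allY (E.wth (lkp [])) l19410 = true :=
  ⟨by decide +kernel, by decide +kernel, by decide +kernel, by decide +kernel, by decide +kernel, by decide +kernel, by decide +kernel, by decide +kernel⟩

def t19411 : allY (E.wth (lkp [])) l19411 = true ∧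
    allY (E.wth (lkp [])) l19412 = true ∧
    allY (E.wth (lkp [])) l19413 = true ∧
    allY (E.wth (lkp [])) l19414 = true ∧
    allY (E.wth (lkp [])) l19415 = true ∧
    allY (E.wth (lkp [])) l19416 = true ∧
    allY (E.wth (lkp [])) l19417 = true ∧
    allY (E.wth (lkp [])) l19418 = true :=
  ⟨by decide +kernel, by decide +kernel, by decide +kernel, by decide +kernel, by decide +kernel, by decide +kernel, by decide +kernel, by decide +kernel⟩

def t19419 : allY (E.wth (lkp [])) l19419 = true ∧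
    allY (E.wth (lkp [])) l19420 = true ∧
    allY (E.wth (lkp [])) l19421 = true ∧
    allY (E.wth (lkp [])) l19422 = true ∧
    allY (E.wth (lkp [])) l19423 = true ∧
    allY (E.wth (lkp [])) l19424 = true ∧
    allY (E.wth (lkp [])) l19425 = true ∧
    allY (E.wth (lkp [])) l19426 = true :=
  ⟨by decide +kernel, by decide +kernel, by decide +kernel, by decide +kernel, by decide +kernel, by decide +kernel, by decide +kernel, by decide +kernel⟩

def t19427 : allY (E.wth (lkp [])) l19427 = true ∧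
    allY (E.wth (lkp [])) l19428 = true ∧
    allY (E.wth (lkp [])) l19429 = true ∧
    allY (E.wth (lkp [])) l19430 = true ∧
    allY (E.wth (lkp [])) l19431 = true ∧
    allY (E.wth (lkp [])) l19432 = true ∧
    allY (E.wth (lkp [])) l19433 = true ∧
    allY (E.wth (lkp [])) l19434 = true :=
  ⟨by decide +kernel, by decide +kernel, by decide +kernel, by decide +kernel, by decide +kernel, by decide +kernel, by decide +kernel, by decide +kernel⟩

def t19435 : allY (E.wth (lkp [])) l19435 = true ∧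
    allY (E.wth (lkp [])) l19436 = true ∧
    allY (E.wth (lkp [])) l19437 = true ∧
    allY (E.wth (lkp [])) l19438 = true ∧
    allY (E.wth (lkp [])) l19439 = true ∧
    allY (E.wth (lkp [])) l19440 = true ∧
    allY (E.wth (lkp [])) l19441 = true ∧
    allY (E.wth (lkp [])) l19442 = true :=
  ⟨by decide +kernel, by decide +kernel, by decide +kernel, by decide +kernel, by decide +kernel, by decide +kernel, by decide +kernel, by decide +kernel⟩

def t19443 : allY (E.wth (lkp [])) l19443 = true ∧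
    allY (E.wth (lkp [])) l19444 = true ∧
    allY (E.wth (lkp [])) l19445 = true ∧
    allY (E.wth (lkp [])) l19446 = true ∧
    allY (E.wth (lkp [])) l19447 = true ∧
    allY (E.wth (lkp [])) l19448 = true ∧
    allY (E.wth (lkp [])) l19449 = true ∧
    allY (E.wth (lkp [])) l19450 = true :=
  ⟨by decide +kernel, by decide +kernel, by decide +kernel, by decide +kernel, by decide +kernel, by decide +kernel, by decide +kernel, by decide +kernel⟩

def t19451 : allY (E.wth (lkp [])) l19451 = true ∧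
    allY (E.wth (lkp [])) l19452 = true ∧
    allY (E.wth (lkp [])) l19453 = true ∧
    allY (E.wth (lkp [])) l19454 = true ∧
    allY (E.wth (lkp [])) l19455 = true ∧
    allY (E.wth (lkp [])) l19456 = true ∧
    allY (E.wth (lkp [])) l19457 = true ∧
    allY (E.wth (lkp [])) l19458 = true :=
  ⟨by decide +kernel, by decide +kernel, by decide +kernel, by decide +kernel, by decide +kernel, by decide +kernel, by decide +kernel, by decide +kernel⟩

def t19459 : allY (E.wth (lkp [])) l19459 = true ∧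
    allY (E.wth (lkp [])) l19460 = true ∧
    allY (E.wth (lkp [])) l19461 = true ∧
    allY (E.wth (lkp [])) l19462 = true ∧
    allY (E.wth (lkp [])) l19463 = true ∧
    allY (E.wth (lkp [])) l19464 = true ∧
    allY (E.wth (lkp [])) l19465 = true ∧
    allY (E.wth (lkp [])) l19466 = true :=
  ⟨by decide +kernel, by decide +kernel, by decide +kernel, by decide +kernel, by decide +kernel, by decide +kernel, by decide +kernel, by decide +kernel⟩

def t19467 : allY (E.wth (lkp [])) l19467 = true ∧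
    allY (E.wth (lkp [])) l19468 = true ∧
    allY (E.wth (lkp [])) l19469 = true ∧
    allY (E.wth (lkp [])) l19470 = true ∧
    allY (E.wth (lkp [])) l19471 = true ∧
    allY (E.wth (lkp [])) l19472 = true ∧
    allY (E.wth (lkp [])) l19473 = true ∧
    allY (E.wth (lkp [])) l19474 = true :=
  ⟨by decide +kernel, by decide +kernel, by decide +kernel, by decide +kernel, by decide +kernel, by decide +kernel, by decide +kernel, by decide +kernel⟩

def t19475 : allY (E.wth (lkp [])) l19475 = true ∧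
    allY (E.wth (lkp [])) l19476 = true ∧
    allY (E.wth (lkp [])) l19477 = true ∧
    allY (E.wth (lkp [])) l19478 = true ∧
    allY (E.wth (lkp [])) l19479 = true ∧
    allY (E.wth (lkp [])) l19480 = true ∧
    allY (E.wth (lkp [])) l19481 = true ∧
    allY (E.wth (lkp [])) l19482 = true :=
  ⟨by decide +kernel, by decide +kernel, by decide +kernel, by decide +kernel, by decide +kernel, by decide +kernel, by decide +kernel, by decide +kernel⟩

def t19483 : allY (E.wth (lkp [])) l19483 = true ∧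
    allY (E.wth (lkp [])) l19484 = true ∧
    allY (E.wth (lkp [])) l19485 = true ∧
    allY (E.wth (lkp [])) l19486 = true ∧
    allY (E.wth (lkp [])) l19487 = true ∧
    allY (E.wth (lkp [])) l19488 = true ∧
    allY (E.wth (lkp [])) l19489 = true ∧
    allY (E.wth (lkp [])) l19490 = true :=
  ⟨by decide +kernel, by decide +kernel, by decide +kernel, by decide +kernel, by decide +kernel, by decide +kernel, by decide +kernel, by decide +kernel⟩

def t19491 : allY (E.wth (lkp [])) l19491 = true ∧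
    allY (E.wth (lkp [])) l19492 = true ∧
    allY (E.wth (lkp [])) l19493 = true ∧
    allY (E.wth (lkp [])) l19494 = true ∧
    allY (E.wth (lkp [])) l19495 = true ∧
    allY (E.wth (lkp [])) l19496 = true ∧
    allY (E.wth (lkp [])) l19497 = true ∧
    allY (E.wth (lkp [])) l19498 = true :=
  ⟨by decide +kernel, by decide +kernel, by decide +kernel, by decide +kernel, by decide +kernel, by decide +kernel, by decide +kernel, by decide +kernel⟩

def t19499 : allY (E.wth (lkp [])) l19499 = true ∧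
    allY (E.wth (lkp [])) l19500 = true ∧
    allY (E.wth (lkp [])) l19501 = true ∧
    allY (E.wth (lkp [])) l19502 = true ∧
    allY (E.wth (lkp [])) l19503 = true ∧
    allY (E.wth (lkp [])) l19504 = true ∧
    allY (E.wth (lkp [])) l19505 = true ∧
    allY (E.wth (lkp [])) l19506 = true :=
  ⟨by decide +kernel, by decide +kernel, by decide +kernel, by decide +kernel, by decide +kernel, by decide +kernel, by decide +kernel, by decide +kernel⟩

def t19507 : allY (E.wth (lkp [])) l19507 = true ∧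
    allY (E.wth (lkp [])) l19508 = true ∧
    allY (E.wth (lkp [])) l19509 = true ∧
    allY (E.wth (lkp [])) l19510 = true ∧
    allY (E.wth (lkp [])) l19511 = true ∧
    allY (E.wth (lkp [])) l19512 = true ∧
    allY (E.wth (lkp [])) l19513 = true ∧
    allY (E.wth (lkp [])) l19514 = true :=
  ⟨by decide +kernel, by decide +kernel, by decide +kernel, by decide +kernel, by decide +kernel, by decide +kernel, by decide +kernel, by decide +kernel⟩

def t19515 : allY (E.wth (lkp [])) l19515 = true ∧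
    allY (E.wth (lkp [])) l19516 = true ∧
    allY (E.wth (lkp [])) l19517 = true ∧
    allY (E.wth (lkp [])) l19518 = true ∧
    allY (E.wth (lkp [])) l19519 = true ∧
    allY (E.wth (lkp [])) l19520 = true ∧
    allY (E.wth (lkp [])) l19521 = true ∧
    allY (E.wth (lkp [])) l19522 = true :=
  ⟨by decide +kernel, by decide +kernel, by decide +kernel, by decide +kernel, by decide +kernel, by decide +kernel, by decide +kernel, by decide +kernel⟩

def t19523 : allY (E.wth (lkp [])) l19523 = true ∧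
    allY (E.wth (lkp [])) l19524 = true ∧
    allY (E.wth (lkp [])) l19525 = true ∧
    allY (E.wth (lkp [])) l19526 = true ∧
    allY (E.wth (lkp [])) l19527 = true ∧
    allY (E.wth (lkp [])) l19528 = true ∧
    allY (E.wth (lkp [])) l19529 = true ∧
    allY (E.wth (lkp [])) l19530 = true :=
  ⟨by decide +kernel, by decide +kernel, by decide +kernel, by decide +kernel, by decide +kernel, by decide +kernel, by decide +kernel, by decide +kernel⟩

def t19531 : allY (E.wth (lkp [])) l19531 = true ∧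
    allY (E.wth (lkp [])) l19532 = true ∧
    allY (E.wth (lkp [])) l19533 = true ∧
    allY (E.wth (lkp [])) l19534 = true ∧
    allY (E.wth (lkp [])) l19535 = true ∧
    allY (E.wth (lkp [])) l19536 = true ∧
    allY (E.wth (lkp [])) l19537 = true ∧
    allY (E.wth (lkp [])) l19538 = true :=
  ⟨by decide +kernel, by decide +kernel, by decide +kernel, by decide +kernel, by decide +kernel, by decide +kernel, by decide +kernel, by decide +kernel⟩

def t19539 : allY (E.wth (lkp [])) l19539 = true ∧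
    allY (E.wth (lkp [])) l19540 = true ∧
    allY (E.wth (lkp [])) l19541 = true ∧
    allY (E.wth (lkp [])) l19542 = true ∧
    allY (E.wth (lkp [])) l19543 = true ∧
    allY (E.wth (lkp [])) l19544 = true ∧
    allY (E.wth (lkp [])) l19545 = true ∧
    allY (E.wth (lkp [])) l19546 = true :=
  ⟨by decide +kernel, by decide +kernel, by decide +kernel, by decide +kernel, by decide +kernel, by decide +kernel, by decide +kernel, by decide +kernel⟩

def t19547 : allY (E.wth (lkp [])) l19547 = true ∧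
    allY (E.wth (lkp [])) l19548 = true ∧
    allY (E.wth (lkp [])) l19549 = true ∧
    allY (E.wth (lkp [])) l19550 = true ∧
    allY (E.wth (lkp [])) l19551 = true ∧
    allY (E.wth (lkp [])) l19552 = true ∧
    allY (E.wth (lkp [])) l19553 = true ∧
    allY (E.wth (lkp [])) l19554 = true :=
  ⟨by decide +kernel, by decide +kernel, by decide +kernel, by decide +kernel, by decide +kernel, by decide +kernel, by decide +kernel, by decide +kernel⟩

def t19555 : allY (E.wth (lkp [])) l19555 = true ∧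
    allY (E.wth (lkp [])) l19556 = true ∧
    allY (E.wth (lkp [])) l19557 = true ∧
    allY (E.wth (lkp [])) l19558 = true ∧
    allY (E.wth (lkp [])) l19559 = true ∧
    allY (E.wth (lkp [])) l19560 = true ∧
    allY (E.wth (lkp [])) l19561 = true ∧
    allY (E.wth (lkp [])) l19562 = true :=
  ⟨by decide +kernel, by decide +kernel, by decide +kernel, by decide +kernel, by decide +kernel, by decide +kernel, by decide +kernel, by decide +kernel⟩

def t19563 : allY (E.wth (lkp [])) l19563 = true ∧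
    allY (E.wth (lkp [])) l19564 = true ∧
    allY (E.wth (lkp [])) l19565 = true ∧
    allY (E.wth (lkp [])) l19566 = true ∧
    allY (E.wth (lkp [])) l19567 = true ∧
    allY (E.wth (lkp [])) l19568 = true ∧
    allY (E.wth (lkp [])) l19569 = true ∧
    allY (E.wth (lkp [])) l19570 = true :=
  ⟨by decide +kernel, by decide +kernel, by decide +kernel, by decide +kernel, by decide +kernel, by decide +kernel, by decide +kernel, by decide +kernel⟩

def t19571 : allY (E.wth (lkp [])) l19571 = true ∧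
    allY (E.wth (lkp [])) l19572 = true ∧
    allY (E.wth (lkp [])) l19573 = true ∧
    allY (E.wth (lkp [])) l19574 = true ∧
    allY (E.wth (lkp [])) l19575 = true ∧
    allY (E.wth (lkp [])) l19576 = true ∧
    allY (E.wth (lkp [])) l19577 = true ∧
    allY (E.wth (lkp [])) l19578 = true :=
  ⟨by decide +kernel, by decide +kernel, by decide +kernel, by decide +kernel, by decide +kernel, by decide +kernel, by decide +kernel, by decide +kernel⟩

def t19579 : allY (E.wth (lkp [])) l19579 = true ∧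
    allY (E.wth (lkp [])) l19580 = true ∧
    allY (E.wth (lkp [])) l19581 = true ∧
    allY (E.wth (lkp [])) l19582 = true ∧
    allY (E.wth (lkp [])) l19583 = true ∧
    allY (E.wth (lkp [])) l19584 = true ∧
    allY (E.wth (lkp [])) l19585 = true ∧
    allY (E.wth (lkp [])) l19586 = true :=
  ⟨by decide +kernel, by decide +kernel, by decide +kernel, by decide +kernel, by decide +kernel, by decide +kernel, by decide +kernel, by decide +kernel⟩

def t19587 : allY (E.wth (lkp [])) l19587 = true ∧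
    allY (E.wth (lkp [])) l19588 = true ∧
    allY (E.wth (lkp [])) l19589 = true ∧
    allY (E.wth (lkp [])) l19590 = true ∧
    allY (E.wth (lkp [])) l19591 = true ∧
    allY (E.wth (lkp [])) l19592 = true ∧
    allY (E.wth (lkp [])) l19593 = true ∧
    allY (E.wth (lkp [])) l19594 = true :=
  ⟨by decide +kernel, by decide +kernel, by decide +kernel, by decide +kernel, by decide +kernel, by decide +kernel, by decide +kernel, by decide +kernel⟩

def t19595 : allY (E.wth (lkp [])) l19595 = true ∧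
    allY (E.wth (lkp [])) l19596 = true ∧
    allY (E.wth (lkp [])) l19597 = true ∧
    allY (E.wth (lkp [])) l19598 = true ∧
    allY (E.wth (lkp [])) l19599 = true ∧
    allY (E.wth (lkp [])) l19600 = true ∧
    allY (E.wth (lkp [])) l19601 = true ∧
    allY (E.wth (lkp [])) l19602 = true :=
  ⟨by decide +kernel, by decide +kernel, by decide +kernel, by decide +kernel, by decide +kernel, by decide +kernel, by decide +kernel, by decide +kernel⟩

def t19603 : allY (E.wth (lkp [])) l19603 = true ∧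
    allY (E.wth (lkp [])) l19604 = true ∧
    allY (E.wth (lkp [])) l19605 = true :=
  ⟨by decide +kernel, by decide +kernel, by decide +kernel⟩

theorem a34 {p : Rf → Prop} (H : ∀ l, allY (E.wth (lkp [])) l = true → (lkp l).All p) :
    b34.All p := ⟨⟨⟨⟨⟨⟨⟨⟨⟨H _ t19043.1, H _ t19043.2.1⟩, ⟨H _ t19043.2.2.1, H _ t19043.2.2.2.1⟩⟩, ⟨⟨H _ t19043.2.2.2.2.1, H _ t19043.2.2.2.2.2.1⟩, ⟨H _ t19043.2.2.2.2.2.2.1, H _ t19043.2.2.2.2.2.2.2⟩⟩⟩, ⟨⟨⟨H _ t19051.1, H _ t19051.2.1⟩, ⟨H _ t19051.2.2.1, H _ t19051.2.2.2.1⟩⟩, ⟨⟨H _ t19051.2.2.2.2.1, H _ t19051.2.2.2.2.2.1⟩, ⟨H _ t19051.2.2.2.2.2.2.1, ⟨H _ t19051.2.2.2.2.2.2.2, H _ t19059.1⟩⟩⟩⟩⟩, ⟨⟨⟨⟨H _ t19059.2.1, H _ t19059.2.2.1⟩, ⟨H _ t19059.2.2.2.1, H _ t19059.2.2.2.2.1⟩⟩, ⟨⟨H _ t19059.2.2.2.2.2.1, H _ t19059.2.2.2.2.2.2.1⟩, ⟨H _ t19059.2.2.2.2.2.2.2, ⟨H _ t19067.1, H _ t19067.2.1⟩⟩⟩⟩, ⟨⟨⟨H _ t19067.2.2.1, H _ t19067.2.2.2.1⟩, ⟨H _ t19067.2.2.2.2.1, H _ t19067.2.2.2.2.2.1⟩⟩,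 ⟨⟨H _ t19067.2.2.2.2.2.2.1, H _ t19067.2.2.2.2.2.2.2⟩, ⟨H _ t19075.1, ⟨H _ t19075.2.1, H _ t19075.2.2.1⟩⟩⟩⟩⟩⟩, ⟨⟨⟨⟨⟨H _ t19075.2.2.2.1, H _ t19075.2.2.2.2.1⟩, ⟨H _ t19075.2.2.2.2.2.1, H _ t19075.2.2.2.2.2.2.1⟩⟩, ⟨⟨H _ t19075.2.2.2.2.2.2.2, H _ t19083.1⟩, ⟨H _ t19083.2.1, H _ t19083.2.2.1⟩⟩⟩, ⟨⟨⟨H _ t19083.2.2.2.1, H _ t19083.2.2.2.2.1⟩, ⟨H _ t19083.2.2.2.2.2.1, H _ t19083.2.2.2.2.2.2.1⟩⟩, ⟨⟨H _ t19083.2.2.2.2.2.2.2, H _ t19091.1⟩, ⟨H _ t19091.2.1, ⟨H _ t19091.2.2.1, H _ t19091.2.2.2.1⟩⟩⟩⟩⟩, ⟨⟨⟨⟨H _ t19091.2.2.2.2.1, H _ t19091.2.2.2.2.2.1⟩, ⟨H _ t19091.2.2.2.2.2.2.1, H _ t19091.2.2.2.2.2.2.2⟩⟩, ⟨⟨H _ t19099.1, H _ t19099.2.1⟩, ⟨H _ t19099.2.2.1, ⟨H _ t19099.2.2.2.1, H _ t19099.2.2.2.2.1⟩⟩⟩⟩, ⟨⟨⟨H _ t19099.2.2.2.2.2.1, H _ t19099.2.2.2.2.2.2.1⟩, ⟨H _ t19099.2.2.2.2.2.2.2, H _ t19107.1⟩⟩, ⟨⟨H _ t19107.2.1, H _ t19107.2.2.1⟩, ⟨H _ t19107.2.2.2.1, ⟨H _ t19107.2.2.2.2.1, H _ t19107.2.2.2.2.2.1⟩⟩⟩⟩⟩⟩⟩,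 ⟨⟨⟨⟨⟨⟨H _ t19107.2.2.2.2.2.2.1, H _ t19107.2.2.2.2.2.2.2⟩, ⟨H _ t19115.1, H _ t19115.2.1⟩⟩, ⟨⟨H _ t19115.2.2.1, H _ t19115.2.2.2.1⟩, ⟨H _ t19115.2.2.2.2.1, H _ t19115.2.2.2.2.2.1⟩⟩⟩, ⟨⟨⟨H _ t19115.2.2.2.2.2.2.1, H _ t19115.2.2.2.2.2.2.2⟩, ⟨H _ t19123.1, H _ t19123.2.1⟩⟩, ⟨⟨H _ t19123.2.2.1, H _ t19123.2.2.2.1⟩, ⟨H _ t19123.2.2.2.2.1, ⟨H _ t19123.2.2.2.2.2.1, H _ t19123.2.2.2.2.2.2.1⟩⟩⟩⟩⟩, ⟨⟨⟨⟨H _ t19123.2.2.2.2.2.2.2, H _ t19131.1⟩, ⟨H _ t19131.2.1, H _ t19131.2.2.1⟩⟩, ⟨⟨H _ t19131.2.2.2.1, H _ t19131.2.2.2.2.1⟩, ⟨H _ t19131.2.2.2.2.2.1, ⟨H _ t19131.2.2.2.2.2.2.1, H _ t19131.2.2.2.2.2.2.2⟩⟩⟩⟩, ⟨⟨⟨H _ t19139.1, H _ t19139.2.1⟩, ⟨H _ t19139.2.2.1, H _ t19139.2.2.2.1⟩⟩, ⟨⟨H _ t19139.2.2.2.2.1, H _ t19139.2.2.2.2.2.1⟩, ⟨H _ t19139.2.2.2.2.2.2.1, ⟨H _ t19139.2.2.2.2.2.2.2, H _ t19147.1⟩⟩⟩⟩⟩⟩, ⟨⟨⟨⟨⟨H _ t19147.2.1, H _ t19147.2.2.1⟩, ⟨H _ t19147.2.2.2.1, H _ t19147.2.2.2.2.1⟩⟩, ⟨⟨H _ t19147.2.2.2.2.2.1,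 H _ t19147.2.2.2.2.2.2.1⟩, ⟨H _ t19147.2.2.2.2.2.2.2, H _ t19155.1⟩⟩⟩, ⟨⟨⟨H _ t19155.2.1, H _ t19155.2.2.1⟩, ⟨H _ t19155.2.2.2.1, H _ t19155.2.2.2.2.1⟩⟩, ⟨⟨H _ t19155.2.2.2.2.2.1, H _ t19155.2.2.2.2.2.2.1⟩, ⟨H _ t19155.2.2.2.2.2.2.2, ⟨H _ t19163.1, H _ t19163.2.1⟩⟩⟩⟩⟩, ⟨⟨⟨⟨H _ t19163.2.2.1, H _ t19163.2.2.2.1⟩, ⟨H _ t19163.2.2.2.2.1, H _ t19163.2.2.2.2.2.1⟩⟩, ⟨⟨H _ t19163.2.2.2.2.2.2.1, H _ t19163.2.2.2.2.2.2.2⟩, ⟨H _ t19171.1, ⟨H _ t19171.2.1, H _ t19171.2.2.1⟩⟩⟩⟩, ⟨⟨⟨H _ t19171.2.2.2.1, H _ t19171.2.2.2.2.1⟩, ⟨H _ t19171.2.2.2.2.2.1, H _ t19171.2.2.2.2.2.2.1⟩⟩, ⟨⟨H _ t19171.2.2.2.2.2.2.2, H _ t19179.1⟩, ⟨H _ t19179.2.1, ⟨H _ t19179.2.2.1, H _ t19179.2.2.2.1⟩⟩⟩⟩⟩⟩⟩⟩, ⟨⟨⟨⟨⟨⟨⟨H _ t19179.2.2.2.2.1, H _ t19179.2.2.2.2.2.1⟩, ⟨H _ t19179.2.2.2.2.2.2.1, H _ t19179.2.2.2.2.2.2.2⟩⟩, ⟨⟨H _ t19187.1, H _ t19187.2.1⟩, ⟨H _ t19187.2.2.1, H _ t19187.2.2.2.1⟩⟩⟩, ⟨⟨⟨H _ t19187.2.2.2.2.1, H _ t19187.2.2.2.2.2.1⟩,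 ⟨H _ t19187.2.2.2.2.2.2.1, H _ t19187.2.2.2.2.2.2.2⟩⟩, ⟨⟨H _ t19195.1, H _ t19195.2.1⟩, ⟨H _ t19195.2.2.1, ⟨H _ t19195.2.2.2.1, H _ t19195.2.2.2.2.1⟩⟩⟩⟩⟩, ⟨⟨⟨⟨H _ t19195.2.2.2.2.2.1, H _ t19195.2.2.2.2.2.2.1⟩, ⟨H _ t19195.2.2.2.2.2.2.2, H _ t19203.1⟩⟩, ⟨⟨H _ t19203.2.1, H _ t19203.2.2.1⟩, ⟨H _ t19203.2.2.2.1, ⟨H _ t19203.2.2.2.2.1, H _ t19203.2.2.2.2.2.1⟩⟩⟩⟩, ⟨⟨⟨H _ t19203.2.2.2.2.2.2.1, H _ t19203.2.2.2.2.2.2.2⟩, ⟨H _ t19211.1, H _ t19211.2.1⟩⟩, ⟨⟨H _ t19211.2.2.1, H _ t19211.2.2.2.1⟩, ⟨H _ t19211.2.2.2.2.1, ⟨H _ t19211.2.2.2.2.2.1, H _ t19211.2.2.2.2.2.2.1⟩⟩⟩⟩⟩⟩, ⟨⟨⟨⟨⟨H _ t19211.2.2.2.2.2.2.2, H _ t19219.1⟩, ⟨H _ t19219.2.1, H _ t19219.2.2.1⟩⟩, ⟨⟨H _ t19219.2.2.2.1, H _ t19219.2.2.2.2.1⟩, ⟨H _ t19219.2.2.2.2.2.1, H _ t19219.2.2.2.2.2.2.1⟩⟩⟩, ⟨⟨⟨H _ t19219.2.2.2.2.2.2.2, H _ t19227.1⟩, ⟨H _ t19227.2.1, H _ t19227.2.2.1⟩⟩, ⟨⟨H _ t19227.2.2.2.1, H _ t19227.2.2.2.2.1⟩, ⟨H _ t19227.2.2.2.2.2.1,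 ⟨H _ t19227.2.2.2.2.2.2.1, H _ t19227.2.2.2.2.2.2.2⟩⟩⟩⟩⟩, ⟨⟨⟨⟨H _ t19235.1, H _ t19235.2.1⟩, ⟨H _ t19235.2.2.1, H _ t19235.2.2.2.1⟩⟩, ⟨⟨H _ t19235.2.2.2.2.1, H _ t19235.2.2.2.2.2.1⟩, ⟨H _ t19235.2.2.2.2.2.2.1, ⟨H _ t19235.2.2.2.2.2.2.2, H _ t19243.1⟩⟩⟩⟩, ⟨⟨⟨H _ t19243.2.1, H _ t19243.2.2.1⟩, ⟨H _ t19243.2.2.2.1, H _ t19243.2.2.2.2.1⟩⟩, ⟨⟨H _ t19243.2.2.2.2.2.1, H _ t19243.2.2.2.2.2.2.1⟩, ⟨H _ t19243.2.2.2.2.2.2.2, ⟨H _ t19251.1, H _ t19251.2.1⟩⟩⟩⟩⟩⟩⟩, ⟨⟨⟨⟨⟨⟨H _ t19251.2.2.1, H _ t19251.2.2.2.1⟩, ⟨H _ t19251.2.2.2.2.1, H _ t19251.2.2.2.2.2.1⟩⟩, ⟨⟨H _ t19251.2.2.2.2.2.2.1, H _ t19251.2.2.2.2.2.2.2⟩, ⟨H _ t19259.1, H _ t19259.2.1⟩⟩⟩, ⟨⟨⟨H _ t19259.2.2.1, H _ t19259.2.2.2.1⟩, ⟨H _ t19259.2.2.2.2.1, H _ t19259.2.2.2.2.2.1⟩⟩, ⟨⟨H _ t19259.2.2.2.2.2.2.1, H _ t19259.2.2.2.2.2.2.2⟩, ⟨H _ t19267.1, ⟨H _ t19267.2.1, H _ t19267.2.2.1⟩⟩⟩⟩⟩, ⟨⟨⟨⟨H _ t19267.2.2.2.1, H _ t19267.2.2.2.2.1⟩, ⟨H _ t19267.2.2.2.2.2.1,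 H _ t19267.2.2.2.2.2.2.1⟩⟩, ⟨⟨H _ t19267.2.2.2.2.2.2.2, H _ t19275.1⟩, ⟨H _ t19275.2.1, ⟨H _ t19275.2.2.1, H _ t19275.2.2.2.1⟩⟩⟩⟩, ⟨⟨⟨H _ t19275.2.2.2.2.1, H _ t19275.2.2.2.2.2.1⟩, ⟨H _ t19275.2.2.2.2.2.2.1, H _ t19275.2.2.2.2.2.2.2⟩⟩, ⟨⟨H _ t19283.1, H _ t19283.2.1⟩, ⟨H _ t19283.2.2.1, ⟨H _ t19283.2.2.2.1, H _ t19283.2.2.2.2.1⟩⟩⟩⟩⟩⟩, ⟨⟨⟨⟨⟨H _ t19283.2.2.2.2.2.1, H _ t19283.2.2.2.2.2.2.1⟩, ⟨H _ t19283.2.2.2.2.2.2.2, H _ t19291.1⟩⟩, ⟨⟨H _ t19291.2.1, H _ t19291.2.2.1⟩, ⟨H _ t19291.2.2.2.1, ⟨H _ t19291.2.2.2.2.1, H _ t19291.2.2.2.2.2.1⟩⟩⟩⟩, ⟨⟨⟨H _ t19291.2.2.2.2.2.2.1, H _ t19291.2.2.2.2.2.2.2⟩, ⟨H _ t19299.1, H _ t19299.2.1⟩⟩, ⟨⟨H _ t19299.2.2.1, H _ t19299.2.2.2.1⟩, ⟨H _ t19299.2.2.2.2.1, ⟨H _ t19299.2.2.2.2.2.1, H _ t19299.2.2.2.2.2.2.1⟩⟩⟩⟩⟩, ⟨⟨⟨⟨H _ t19299.2.2.2.2.2.2.2, H _ t19307.1⟩, ⟨H _ t19307.2.1, H _ t19307.2.2.1⟩⟩, ⟨⟨H _ t19307.2.2.2.1, H _ t19307.2.2.2.2.1⟩, ⟨H _ t19307.2.2.2.2.2.1,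 ⟨H _ t19307.2.2.2.2.2.2.1, H _ t19307.2.2.2.2.2.2.2⟩⟩⟩⟩, ⟨⟨⟨H _ t19315.1, H _ t19315.2.1⟩, ⟨H _ t19315.2.2.1, H _ t19315.2.2.2.1⟩⟩, ⟨⟨H _ t19315.2.2.2.2.1, H _ t19315.2.2.2.2.2.1⟩, ⟨H _ t19315.2.2.2.2.2.2.1, ⟨H _ t19315.2.2.2.2.2.2.2, H _ t19323.1⟩⟩⟩⟩⟩⟩⟩⟩⟩, ⟨⟨⟨⟨⟨⟨⟨⟨H _ t19323.2.1, H _ t19323.2.2.1⟩, ⟨H _ t19323.2.2.2.1, H _ t19323.2.2.2.2.1⟩⟩, ⟨⟨H _ t19323.2.2.2.2.2.1, H _ t19323.2.2.2.2.2.2.1⟩, ⟨H _ t19323.2.2.2.2.2.2.2, H _ t19331.1⟩⟩⟩, ⟨⟨⟨H _ t19331.2.1, H _ t19331.2.2.1⟩, ⟨H _ t19331.2.2.2.1, H _ t19331.2.2.2.2.1⟩⟩, ⟨⟨H _ t19331.2.2.2.2.2.1, H _ t19331.2.2.2.2.2.2.1⟩, ⟨H _ t19331.2.2.2.2.2.2.2, ⟨H _ t19339.1, H _ t19339.2.1⟩⟩⟩⟩⟩, ⟨⟨⟨⟨H _ t19339.2.2.1, H _ t19339.2.2.2.1⟩, ⟨H _ t19339.2.2.2.2.1, H _ t19339.2.2.2.2.2.1⟩⟩, ⟨⟨H _ t19339.2.2.2.2.2.2.1, H _ t19339.2.2.2.2.2.2.2⟩, ⟨H _ t19347.1, ⟨H _ t19347.2.1, H _ t19347.2.2.1⟩⟩⟩⟩, ⟨⟨⟨H _ t19347.2.2.2.1, H _ t19347.2.2.2.2.1⟩, ⟨H _ t19347.2.2.2.2.2.1,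 H _ t19347.2.2.2.2.2.2.1⟩⟩, ⟨⟨H _ t19347.2.2.2.2.2.2.2, H _ t19355.1⟩, ⟨H _ t19355.2.1, ⟨H _ t19355.2.2.1, H _ t19355.2.2.2.1⟩⟩⟩⟩⟩⟩, ⟨⟨⟨⟨⟨H _ t19355.2.2.2.2.1, H _ t19355.2.2.2.2.2.1⟩, ⟨H _ t19355.2.2.2.2.2.2.1, H _ t19355.2.2.2.2.2.2.2⟩⟩, ⟨⟨H _ t19363.1, H _ t19363.2.1⟩, ⟨H _ t19363.2.2.1, H _ t19363.2.2.2.1⟩⟩⟩, ⟨⟨⟨H _ t19363.2.2.2.2.1, H _ t19363.2.2.2.2.2.1⟩, ⟨H _ t19363.2.2.2.2.2.2.1, H _ t19363.2.2.2.2.2.2.2⟩⟩, ⟨⟨H _ t19371.1, H _ t19371.2.1⟩, ⟨H _ t19371.2.2.1, ⟨H _ t19371.2.2.2.1, H _ t19371.2.2.2.2.1⟩⟩⟩⟩⟩, ⟨⟨⟨⟨H _ t19371.2.2.2.2.2.1, H _ t19371.2.2.2.2.2.2.1⟩, ⟨H _ t19371.2.2.2.2.2.2.2, H _ t19379.1⟩⟩, ⟨⟨H _ t19379.2.1, H _ t19379.2.2.1⟩, ⟨H _ t19379.2.2.2.1, ⟨H _ t19379.2.2.2.2.1, H _ t19379.2.2.2.2.2.1⟩⟩⟩⟩, ⟨⟨⟨H _ t19379.2.2.2.2.2.2.1, H _ t19379.2.2.2.2.2.2.2⟩, ⟨H _ t19387.1, H _ t19387.2.1⟩⟩, ⟨⟨H _ t19387.2.2.1, H _ t19387.2.2.2.1⟩, ⟨H _ t19387.2.2.2.2.1, ⟨H _ t19387.2.2.2.2.2.1,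 H _ t19387.2.2.2.2.2.2.1⟩⟩⟩⟩⟩⟩⟩, ⟨⟨⟨⟨⟨⟨H _ t19387.2.2.2.2.2.2.2, H _ t19395.1⟩, ⟨H _ t19395.2.1, H _ t19395.2.2.1⟩⟩, ⟨⟨H _ t19395.2.2.2.1, H _ t19395.2.2.2.2.1⟩, ⟨H _ t19395.2.2.2.2.2.1, H _ t19395.2.2.2.2.2.2.1⟩⟩⟩, ⟨⟨⟨H _ t19395.2.2.2.2.2.2.2, H _ t19403.1⟩, ⟨H _ t19403.2.1, H _ t19403.2.2.1⟩⟩, ⟨⟨H _ t19403.2.2.2.1, H _ t19403.2.2.2.2.1⟩, ⟨H _ t19403.2.2.2.2.2.1, ⟨H _ t19403.2.2.2.2.2.2.1, H _ t19403.2.2.2.2.2.2.2⟩⟩⟩⟩⟩, ⟨⟨⟨⟨H _ t19411.1, H _ t19411.2.1⟩, ⟨H _ t19411.2.2.1, H _ t19411.2.2.2.1⟩⟩, ⟨⟨H _ t19411.2.2.2.2.1, H _ t19411.2.2.2.2.2.1⟩, ⟨H _ t19411.2.2.2.2.2.2.1, ⟨H _ t19411.2.2.2.2.2.2.2, H _ t19419.1⟩⟩⟩⟩, ⟨⟨⟨H _ t19419.2.1, H _ t19419.2.2.1⟩, ⟨H _ t19419.2.2.2.1, H _ t19419.2.2.2.2.1⟩⟩, ⟨⟨H _ t19419.2.2.2.2.2.1, H _ t19419.2.2.2.2.2.2.1⟩, ⟨H _ t19419.2.2.2.2.2.2.2, ⟨H _ t19427.1, H _ t19427.2.1⟩⟩⟩⟩⟩⟩, ⟨⟨⟨⟨⟨H _ t19427.2.2.1, H _ t19427.2.2.2.1⟩, ⟨H _ t19427.2.2.2.2.1, H _ t19427.2.2.2.2.2.1⟩⟩,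 ⟨⟨H _ t19427.2.2.2.2.2.2.1, H _ t19427.2.2.2.2.2.2.2⟩, ⟨H _ t19435.1, ⟨H _ t19435.2.1, H _ t19435.2.2.1⟩⟩⟩⟩, ⟨⟨⟨H _ t19435.2.2.2.1, H _ t19435.2.2.2.2.1⟩, ⟨H _ t19435.2.2.2.2.2.1, H _ t19435.2.2.2.2.2.2.1⟩⟩, ⟨⟨H _ t19435.2.2.2.2.2.2.2, H _ t19443.1⟩, ⟨H _ t19443.2.1, ⟨H _ t19443.2.2.1, H _ t19443.2.2.2.1⟩⟩⟩⟩⟩, ⟨⟨⟨⟨H _ t19443.2.2.2.2.1, H _ t19443.2.2.2.2.2.1⟩, ⟨H _ t19443.2.2.2.2.2.2.1, H _ t19443.2.2.2.2.2.2.2⟩⟩, ⟨⟨H _ t19451.1, H _ t19451.2.1⟩, ⟨H _ t19451.2.2.1, ⟨H _ t19451.2.2.2.1, H _ t19451.2.2.2.2.1⟩⟩⟩⟩, ⟨⟨⟨H _ t19451.2.2.2.2.2.1, H _ t19451.2.2.2.2.2.2.1⟩, ⟨H _ t19451.2.2.2.2.2.2.2, H _ t19459.1⟩⟩, ⟨⟨H _ t19459.2.1, H _ t19459.2.2.1⟩, ⟨H _ t19459.2.2.2.1, ⟨H _ t19459.2.2.2.2.1, H _ t19459.2.2.2.2.2.1⟩⟩⟩⟩⟩⟩⟩⟩, ⟨⟨⟨⟨⟨⟨⟨H _ t19459.2.2.2.2.2.2.1, H _ t19459.2.2.2.2.2.2.2⟩, ⟨H _ t19467.1, H _ t19467.2.1⟩⟩, ⟨⟨H _ t19467.2.2.1, H _ t19467.2.2.2.1⟩, ⟨H _ t19467.2.2.2.2.1, H _ t19467.2.2.2.2.2.1⟩⟩⟩,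 ⟨⟨⟨H _ t19467.2.2.2.2.2.2.1, H _ t19467.2.2.2.2.2.2.2⟩, ⟨H _ t19475.1, H _ t19475.2.1⟩⟩, ⟨⟨H _ t19475.2.2.1, H _ t19475.2.2.2.1⟩, ⟨H _ t19475.2.2.2.2.1, ⟨H _ t19475.2.2.2.2.2.1, H _ t19475.2.2.2.2.2.2.1⟩⟩⟩⟩⟩, ⟨⟨⟨⟨H _ t19475.2.2.2.2.2.2.2, H _ t19483.1⟩, ⟨H _ t19483.2.1, H _ t19483.2.2.1⟩⟩, ⟨⟨H _ t19483.2.2.2.1, H _ t19483.2.2.2.2.1⟩, ⟨H _ t19483.2.2.2.2.2.1, ⟨H _ t19483.2.2.2.2.2.2.1, H _ t19483.2.2.2.2.2.2.2⟩⟩⟩⟩, ⟨⟨⟨H _ t19491.1, H _ t19491.2.1⟩, ⟨H _ t19491.2.2.1, H _ t19491.2.2.2.1⟩⟩, ⟨⟨H _ t19491.2.2.2.2.1, H _ t19491.2.2.2.2.2.1⟩, ⟨H _ t19491.2.2.2.2.2.2.1, ⟨H _ t19491.2.2.2.2.2.2.2, H _ t19499.1⟩⟩⟩⟩⟩⟩, ⟨⟨⟨⟨⟨H _ t19499.2.1, H _ t19499.2.2.1⟩, ⟨H _ t19499.2.2.2.1, H _ t19499.2.2.2.2.1⟩⟩, ⟨⟨H _ t19499.2.2.2.2.2.1, H _ t19499.2.2.2.2.2.2.1⟩, ⟨H _ t19499.2.2.2.2.2.2.2, H _ t19507.1⟩⟩⟩, ⟨⟨⟨H _ t19507.2.1, H _ t19507.2.2.1⟩, ⟨H _ t19507.2.2.2.1, H _ t19507.2.2.2.2.1⟩⟩, ⟨⟨H _ t19507.2.2.2.2.2.1,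 H _ t19507.2.2.2.2.2.2.1⟩, ⟨H _ t19507.2.2.2.2.2.2.2, ⟨H _ t19515.1, H _ t19515.2.1⟩⟩⟩⟩⟩, ⟨⟨⟨⟨H _ t19515.2.2.1, H _ t19515.2.2.2.1⟩, ⟨H _ t19515.2.2.2.2.1, H _ t19515.2.2.2.2.2.1⟩⟩, ⟨⟨H _ t19515.2.2.2.2.2.2.1, H _ t19515.2.2.2.2.2.2.2⟩, ⟨H _ t19523.1, ⟨H _ t19523.2.1, H _ t19523.2.2.1⟩⟩⟩⟩, ⟨⟨⟨H _ t19523.2.2.2.1, H _ t19523.2.2.2.2.1⟩, ⟨H _ t19523.2.2.2.2.2.1, H _ t19523.2.2.2.2.2.2.1⟩⟩, ⟨⟨H _ t19523.2.2.2.2.2.2.2, H _ t19531.1⟩, ⟨H _ t19531.2.1, ⟨H _ t19531.2.2.1, H _ t19531.2.2.2.1⟩⟩⟩⟩⟩⟩⟩, ⟨⟨⟨⟨⟨⟨H _ t19531.2.2.2.2.1, H _ t19531.2.2.2.2.2.1⟩, ⟨H _ t19531.2.2.2.2.2.2.1, H _ t19531.2.2.2.2.2.2.2⟩⟩, ⟨⟨H _ t19539.1, H _ t19539.2.1⟩, ⟨H _ t19539.2.2.1, H _ t19539.2.2.2.1⟩⟩⟩, ⟨⟨⟨H _ t19539.2.2.2.2.1, H _ t19539.2.2.2.2.2.1⟩, ⟨H _ t19539.2.2.2.2.2.2.1, H _ t19539.2.2.2.2.2.2.2⟩⟩, ⟨⟨H _ t19547.1, H _ t19547.2.1⟩, ⟨H _ t19547.2.2.1, ⟨H _ t19547.2.2.2.1, H _ t19547.2.2.2.2.1⟩⟩⟩⟩⟩, ⟨⟨⟨⟨H _ t19547.2.2.2.2.2.1,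 H _ t19547.2.2.2.2.2.2.1⟩, ⟨H _ t19547.2.2.2.2.2.2.2, H _ t19555.1⟩⟩, ⟨⟨H _ t19555.2.1, H _ t19555.2.2.1⟩, ⟨H _ t19555.2.2.2.1, ⟨H _ t19555.2.2.2.2.1, H _ t19555.2.2.2.2.2.1⟩⟩⟩⟩, ⟨⟨⟨H _ t19555.2.2.2.2.2.2.1, H _ t19555.2.2.2.2.2.2.2⟩, ⟨H _ t19563.1, H _ t19563.2.1⟩⟩, ⟨⟨H _ t19563.2.2.1, H _ t19563.2.2.2.1⟩, ⟨H _ t19563.2.2.2.2.1, ⟨H _ t19563.2.2.2.2.2.1, H _ t19563.2.2.2.2.2.2.1⟩⟩⟩⟩⟩⟩, ⟨⟨⟨⟨⟨H _ t19563.2.2.2.2.2.2.2, H _ t19571.1⟩, ⟨H _ t19571.2.1, H _ t19571.2.2.1⟩⟩, ⟨⟨H _ t19571.2.2.2.1, H _ t19571.2.2.2.2.1⟩, ⟨H _ t19571.2.2.2.2.2.1, ⟨H _ t19571.2.2.2.2.2.2.1, H _ t19571.2.2.2.2.2.2.2⟩⟩⟩⟩, ⟨⟨⟨H _ t19579.1, H _ t19579.2.1⟩, ⟨H _ t19579.2.2.1, H _ t19579.2.2.2.1⟩⟩, ⟨⟨H _ t19579.2.2.2.2.1, H _ t19579.2.2.2.2.2.1⟩, ⟨H _ t19579.2.2.2.2.2.2.1, ⟨H _ t19579.2.2.2.2.2.2.2, H _ t19587.1⟩⟩⟩⟩⟩, ⟨⟨⟨⟨H _ t19587.2.1, H _ t19587.2.2.1⟩, ⟨H _ t19587.2.2.2.1, H _ t19587.2.2.2.2.1⟩⟩, ⟨⟨H _ t19587.2.2.2.2.2.1,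 H _ t19587.2.2.2.2.2.2.1⟩, ⟨H _ t19587.2.2.2.2.2.2.2, ⟨H _ t19595.1, H _ t19595.2.1⟩⟩⟩⟩, ⟨⟨⟨H _ t19595.2.2.1, H _ t19595.2.2.2.1⟩, ⟨H _ t19595.2.2.2.2.1, H _ t19595.2.2.2.2.2.1⟩⟩, ⟨⟨H _ t19595.2.2.2.2.2.2.1, H _ t19595.2.2.2.2.2.2.2⟩, ⟨H _ t19603.1, ⟨H _ t19603.2.1, H _ t19603.2.2⟩⟩⟩⟩⟩⟩⟩⟩⟩⟩

end Pool.Agent.MP_c853c5_nt.X.C4950
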