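import Pool.Agent.MP_c853c5_nt.X.C4950.Env
import Pool.Agent.MP_c853c5_nt.X.C4950.D7

set_option autoImplicit false
set_option maxRecDepth 8192
set_option linter.all false

namespace Pool.Agent.MP_c853c5_nt.X.C4950

open Pool.Agent.MP_c853c5_nt.X

def t19606 : allY (E.wth (lkp [])) l19606 = true ∧
    allY (E.wth (lkp [])) l19607 = true ∧
    allY (E.wth (lkp [])) l19608 = true ∧
    allY (E.wth (lkp [])) l19609 = true ∧
    allY (E.wth (lkp [])) l19610 = true ∧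
    allY (E.wth (lkp [])) l19611 = true ∧
    allY (E.wth (lkp [])) l19612 = true ∧
    allY (E.wth (lkp [])) l19613 = true :=
  ⟨by decide +kernel, by decide +kernel, by decide +kernel, by decide +kernel, by decide +kernel, by decide +kernel, by decide +kernel, by decide +kernel⟩

def t19614 : allY (E.wth (lkp [])) l19614 = true ∧
    allY (E.wth (lkp [])) l19615 = true ∧
    allY (E.wth (lkp [])) l19616 = true ∧
    allY (E.wth (lkp [])) l19617 = true ∧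
    allY (E.wth (lkp [])) l19618 = true ∧
    allY (E.wth (lkp [])) l19619 = true ∧
    allY (E.wth (lkp [])) l19620 = true ∧
    allY (E.wth (lkp [])) l19621 = true :=
  ⟨by decide +kernel, by decide +kernel, by decide +kernel, by decide +kernel, by decide +kernel, by decide +kernel, by decide +kernel, by decide +kernel⟩

def t19622 : allY (E.wth (lkp [])) l19622 = true ∧
    allY (E.wth (lkp [])) l19623 = true ∧
    allY (E.wth (lkp [])) l19624 = true ∧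
    allY (E.wth (lkp [])) l19625 = true ∧
    allY (E.wth (lkp [])) l19626 = true ∧
    allY (E.wth (lkp [])) l19627 = true ∧
    allY (E.wth (lkp [])) l19628 = true ∧
    allY (E.wth (lkp [])) l19629 = true :=
  ⟨by decide +kernel, by decide +kernel, by decide +kernel, by decide +kernel, by decide +kernel, by decide +kernel, by decide +kernel, by decide +kernel⟩

def t19630 : allY (E.wth (lkp [])) l19630 = true ∧
    allY (E.wth (lkp [])) l19631 = true ∧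
    allY (E.wth (lkp [])) l19632 = true ∧
    allY (E.wth (lkp [])) l19633 = true ∧
    allY (E.wth (lkp [])) l19634 = true ∧
    allY (E.wth (lkp [])) l19635 = true ∧
    allY (E.wth (lkp [])) l19636 = true ∧
    allY (E.wth (lkp [])) l19637 = true :=
  ⟨by decide +kernel, by decide +kernel, by decide +kernel, by decide +kernel, by decide +kernel, by decide +kernel, by decide +kernel, by decide +kernel⟩

def t19638 : allY (E.wth (lkp [])) l19638 = true ∧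
    allY (E.wth (lkp [])) l19639 = true ∧
    allY (E.wth (lkp [])) l19640 = true ∧
    allY (E.wth (lkp [])) l19641 = true ∧
    allY (E.wth (lkp [])) l19642 = true ∧
    allY (E.wth (lkp [])) l19643 = true ∧
    allY (E.wth (lkp [])) l19644 = true ∧
    allY (E.wth (lkp [])) l19645 = true :=
  ⟨by decide +kernel, by decide +kernel, by decide +kernel, by decide +kernel, by decide +kernel, by decide +kernel, by decide +kernel, by decide +kernel⟩

def t19646 : allY (E.wth (lkp [])) l19646 = true ∧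
    allY (E.wth (lkp [])) l19647 = true ∧
    allY (E.wth (lkp [])) l19648 = true ∧
    allY (E.wth (lkp [])) l19649 = true ∧
    allY (E.wth (lkp [])) l19650 = true ∧
    allY (E.wth (lkp [])) l19651 = true ∧
    allY (E.wth (lkp [])) l19652 = true ∧
    allY (E.wth (lkp [])) l19653 = true :=
  ⟨by decide +kernel, by decide +kernel, by decide +kernel, by decide +kernel, by decide +kernel, by decide +kernel, by decide +kernel, by decide +kernel⟩

def t19654 : allY (E.wth (lkp [])) l19654 = true ∧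
    allY (E.wth (lkp [])) l19655 = true ∧
    allY (E.wth (lkp [])) l19656 = true ∧
    allY (E.wth (lkp [])) l19657 = true ∧
    allY (E.wth (lkp [])) l19658 = true ∧
    allY (E.wth (lkp [])) l19659 = true ∧
    allY (E.wth (lkp [])) l19660 = true ∧
    allY (E.wth (lkp [])) l19661 = true :=
  ⟨by decide +kernel, by decide +kernel, by decide +kernel, by decide +kernel, by decide +kernel, by decide +kernel, by decide +kernel, by decide +kernel⟩

def t19662 : allY (E.wth (lkp [])) l19662 = true ∧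
    allY (E.wth (lkp [])) l19663 = true ∧
    allY (E.wth (lkp [])) l19664 = true ∧
    allY (E.wth (lkp [])) l19665 = true ∧
    allY (E.wth (lkp [])) l19666 = true ∧
    allY (E.wth (lkp [])) l19667 = true ∧
    allY (E.wth (lkp [])) l19668 = true ∧
    allY (E.wth (lkp [])) l19669 = true :=
  ⟨by decide +kernel, by decide +kernel, by decide +kernel, by decide +kernel, by decide +kernel, by decide +kernel, by decide +kernel, by decide +kernel⟩

def t19670 : allY (E.wth (lkp [])) l19670 = true ∧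
    allY (E.wth (lkp [])) l19671 = true ∧
    allY (E.wth (lkp [])) l19672 = true ∧
    allY (E.wth (lkp [])) l19673 = true ∧
    allY (E.wth (lkp [])) l19674 = true ∧
    allY (E.wth (lkp [])) l19675 = true ∧
    allY (E.wth (lkp [])) l19676 = true ∧
    allY (E.wth (lkp [])) l19677 = true :=
  ⟨by decide +kernel, by decide +kernel, by decide +kernel, by decide +kernel, by decide +kernel, by decide +kernel, by decide +kernel, by decide +kernel⟩

def t19678 : allY (E.wth (lkp [])) l19678 = true ∧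
    allY (E.wth (lkp [])) l19679 = true ∧
    allY (E.wth (lkp [])) l19680 = true ∧
    allY (E.wth (lkp [])) l19681 = true ∧
    allY (E.wth (lkp [])) l19682 = true ∧
    allY (E.wth (lkp [])) l19683 = true ∧
    allY (E.wth (lkp [])) l19684 = true ∧
    allY (E.wth (lkp [])) l19685 = true :=
  ⟨by decide +kernel, by decide +kernel, by decide +kernel, by decide +kernel, by decide +kernel, by decide +kernel, by decide +kernel, by decide +kernel⟩

def t19686 : allY (E.wth (lkp [])) l19686 = true ∧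
    allY (E.wth (lkp [])) l19687 = true ∧
    allY (E.wth (lkp [])) l19688 = true ∧
    allY (E.wth (lkp [])) l19689 = true ∧
    allY (E.wth (lkp [])) l19690 = true ∧
    allY (E.wth (lkp [])) l19691 = true ∧
    allY (E.wth (lkp [])) l19692 = true ∧
    allY (E.wth (lkp [])) l19693 = true :=
  ⟨by decide +kernel, by decide +kernel, by decide +kernel, by decide +kernel, by decide +kernel, by decide +kernel, by decide +kernel, by decide +kernel⟩

def t19694 : allY (E.wth (lkp [])) l19694 = true ∧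
    allY (E.wth (lkp [])) l19695 = true ∧
    allY (E.wth (lkp [])) l19696 = true ∧
    allY (E.wth (lkp [])) l19697 = true ∧
    allY (E.wth (lkp [])) l19698 = true ∧
    allY (E.wth (lkp [])) l19699 = true ∧
    allY (E.wth (lkp [])) l19700 = true ∧
    allY (E.wth (lkp [])) l19701 = true :=
  ⟨by decide +kernel, by decide +kernel, by decide +kernel, by decide +kernel, by decide +kernel, by decide +kernel, by decide +kernel, by decide +kernel⟩

def t19702 : allY (E.wth (lkp [])) l19702 = true ∧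
    allY (E.wth (lkp [])) l19703 = true ∧
    allY (E.wth (lkp [])) l19704 = true ∧
    allY (E.wth (lkp [])) l19705 = true ∧
    allY (E.wth (lkp [])) l19706 = true ∧
    allY (E.wth (lkp [])) l19707 = true ∧
    allY (E.wth (lkp [])) l19708 = true ∧
    allY (E.wth (lkp [])) l19709 = true :=
  ⟨by decide +kernel, by decide +kernel, by decide +kernel, by decide +kernel, by decide +kernel, by decide +kernel, by decide +kernel, by decide +kernel⟩

def t19710 : allY (E.wth (lkp [])) l19710 = true ∧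
    allY (E.wth (lkp [])) l19711 = true ∧
    allY (E.wth (lkp [])) l19712 = true ∧
    allY (E.wth (lkp [])) l19713 = true ∧
    allY (E.wth (lkp [])) l19714 = true ∧
    allY (E.wth (lkp [])) l19715 = true ∧
    allY (E.wth (lkp [])) l19716 = true ∧
    allY (E.wth (lkp [])) l19717 = true :=
  ⟨by decide +kernel, by decide +kernel, by decide +kernel, by decide +kernel, by decide +kernel, by decide +kernel, by decide +kernel, by decide +kernel⟩

def t19718 : allY (E.wth (lkp [])) l19718 = true ∧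
    allY (E.wth (lkp [])) l19719 = true ∧
    allY (E.wth (lkp [])) l19720 = true ∧
    allY (E.wth (lkp [])) l19721 = true ∧
    allY (E.wth (lkp [])) l19722 = true ∧
    allY (E.wth (lkp [])) l19723 = true ∧
    allY (E.wth (lkp [])) l19724 = true ∧
    allY (E.wth (lkp [])) l19725 = true :=
  ⟨by decide +kernel, by decide +kernel, by decide +kernel, by decide +kernel, by decide +kernel, by decide +kernel, by decide +kernel, by decide +kernel⟩

def t19726 : allY (E.wth (lkp [])) l19726 = true ∧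
    allY (E.wth (lkp [])) l19727 = true ∧
    allY (E.wth (lkp [])) l19728 = true ∧
    allY (E.wth (lkp [])) l19729 = true ∧
    allY (E.wth (lkp [])) l19730 = true ∧
    allY (E.wth (lkp [])) l19731 = true ∧
    allY (E.wth (lkp [])) l19732 = true ∧
    allY (E.wth (lkp [])) l19733 = true :=
  ⟨by decide +kernel, by decide +kernel, by decide +kernel, by decide +kernel, by decide +kernel, by decide +kernel, by decide +kernel, by decide +kernel⟩

def t19734 : allY (E.wth (lkp [])) l19734 = true ∧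
    allY (E.wth (lkp [])) l19735 = true ∧
    allY (E.wth (lkp [])) l19736 = true ∧
    allY (E.wth (lkp [])) l19737 = true ∧
    allY (E.wth (lkp [])) l19738 = true ∧
    allY (E.wth (lkp [])) l19739 = true ∧
    allY (E.wth (lkp [])) l19740 = true ∧
    allY (E.wth (lkp [])) l19741 = true :=
  ⟨by decide +kernel, by decide +kernel, by decide +kernel, by decide +kernel, by decide +kernel, by decide +kernel, by decide +kernel, by decide +kernel⟩

def t19742 : allY (E.wth (lkp [])) l19742 = true ∧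
    allY (E.wth (lkp [])) l19743 = true ∧
    allY (E.wth (lkp [])) l19744 = true ∧
    allY (E.wth (lkp [])) l19745 = true ∧
    allY (E.wth (lkp [])) l19746 = true ∧
    allY (E.wth (lkp [])) l19747 = true ∧
    allY (E.wth (lkp [])) l19748 = true ∧
    allY (E.wth (lkp [])) l19749 = true :=
  ⟨by decide +kernel, by decide +kernel, by decide +kernel, by decide +kernel, by decide +kernel, by decide +kernel, by decide +kernel, by decide +kernel⟩

def t19750 : allY (E.wth (lkp [])) l19750 = true ∧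
    allY (E.wth (lkp [])) l19751 = true ∧
    allY (E.wth (lkp [])) l19752 = true ∧
    allY (E.wth (lkp [])) l19753 = true ∧
    allY (E.wth (lkp [])) l19754 = true ∧
    allY (E.wth (lkp [])) l19755 = true ∧
    allY (E.wth (lkp [])) l19756 = true ∧
    allY (E.wth (lkp [])) l19757 = true :=
  ⟨by decide +kernel, by decide +kernel, by decide +kernel, by decide +kernel, by decide +kernel, by decide +kernel, by decide +kernel, by decide +kernel⟩

def t19758 : allY (E.wth (lkp [])) l19758 = true ∧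
    allY (E.wth (lkp [])) l19759 = true ∧
    allY (E.wth (lkp [])) l19760 = true ∧
    allY (E.wth (lkp [])) l19761 = true ∧
    allY (E.wth (lkp [])) l19762 = true ∧
    allY (E.wth (lkp [])) l19763 = true ∧
    allY (E.wth (lkp [])) l19764 = true ∧
    allY (E.wth (lkp [])) l19765 = true :=
  ⟨by decide +kernel, by decide +kernel, by decide +kernel, by decide +kernel, by decide +kernel, by decide +kernel, by decide +kernel, by decide +kernel⟩

def t19766 : allY (E.wth (lkp [])) l19766 = true ∧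
    allY (E.wth (lkp [])) l19767 = true ∧
    allY (E.wth (lkp [])) l19768 = true ∧
    allY (E.wth (lkp [])) l19769 = true ∧
    allY (E.wth (lkp [])) l19770 = true ∧
    allY (E.wth (lkp [])) l19771 = true ∧
    allY (E.wth (lkp [])) l19772 = true ∧
    allY (E.wth (lkp [])) l19773 = true :=
  ⟨by decide +kernel, by decide +kernel, by decide +kernel, by decide +kernel, by decide +kernel, by decide +kernel, by decide +kernel, by decide +kernel⟩

def t19774 : allY (E.wth (lkp [])) l19774 = true ∧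
    allY (E.wth (lkp [])) l19775 = true ∧
    allY (E.wth (lkp [])) l19776 = true ∧
    allY (E.wth (lkp [])) l19777 = true ∧
    allY (E.wth (lkp [])) l19778 = true ∧
    allY (E.wth (lkp [])) l19779 = true ∧
    allY (E.wth (lkp [])) l19780 = true ∧
    allY (E.wth (lkp [])) l19781 = true :=
  ⟨by decide +kernel, by decide +kernel, by decide +kernel, by decide +kernel, by decide +kernel, by decide +kernel, by decide +kernel, by decide +kernel⟩

def t19782 : allY (E.wth (lkp [])) l19782 = true ∧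
    allY (E.wth (lkp [])) l19783 = true ∧
    allY (E.wth (lkp [])) l19784 = true ∧
    allY (E.wth (lkp [])) l19785 = true ∧
    allY (E.wth (lkp [])) l19786 = true ∧
    allY (E.wth (lkp [])) l19787 = true ∧
    allY (E.wth (lkp [])) l19788 = true ∧
    allY (E.wth (lkp [])) l19789 = true :=
  ⟨by decide +kernel, by decide +kernel, by decide +kernel, by decide +kernel, by decide +kernel, by decide +kernel, by decide +kernel, by decide +kernel⟩

def t19790 : allY (E.wth (lkp [])) l19790 = true ∧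
    allY (E.wth (lkp [])) l19791 = true ∧
    allY (E.wth (lkp [])) l19792 = true ∧
    allY (E.wth (lkp [])) l19793 = true ∧
    allY (E.wth (lkp [])) l19794 = true ∧
    allY (E.wth (lkp [])) l19795 = true ∧
    allY (E.wth (lkp [])) l19796 = true ∧
    allY (E.wth (lkp [])) l19797 = true :=
  ⟨by decide +kernel, by decide +kernel, by decide +kernel, by decide +kernel, by decide +kernel, by decide +kernel, by decide +kernel, by decide +kernel⟩

def t19798 : allY (E.wth (lkp [])) l19798 = true ∧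
    allY (E.wth (lkp [])) l19799 = true ∧
    allY (E.wth (lkp [])) l19800 = true ∧
    allY (E.wth (lkp [])) l19801 = true ∧
    allY (E.wth (lkp [])) l19802 = true ∧
    allY (E.wth (lkp [])) l19803 = true ∧
    allY (E.wth (lkp [])) l19804 = true ∧
    allY (E.wth (lkp [])) l19805 = true :=
  ⟨by decide +kernel, by decide +kernel, by decide +kernel, by decide +kernel, by decide +kernel, by decide +kernel, by decide +kernel, by decide +kernel⟩

def t19806 : allY (E.wth (lkp [])) l19806 = true ∧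
    allY (E.wth (lkp [])) l19807 = true ∧
    allY (E.wth (lkp [])) l19808 = true ∧
    allY (E.wth (lkp [])) l19809 = true ∧
    allY (E.wth (lkp [])) l19810 = true ∧
    allY (E.wth (lkp [])) l19811 = true ∧
    allY (E.wth (lkp [])) l19812 = true ∧
    allY (E.wth (lkp [])) l19813 = true :=
  ⟨by decide +kernel, by decide +kernel, by decide +kernel, by decide +kernel, by decide +kernel, by decide +kernel, by decide +kernel, by decide +kernel⟩

def t19814 : allY (E.wth (lkp [])) l19814 = true ∧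
    allY (E.wth (lkp [])) l19815 = true ∧
    allY (E.wth (lkp [])) l19816 = true ∧
    allY (E.wth (lkp [])) l19817 = true ∧
    allY (E.wth (lkp [])) l19818 = true ∧
    allY (E.wth (lkp [])) l19819 = true ∧
    allY (E.wth (lkp [])) l19820 = true ∧
    allY (E.wth (lkp [])) l19821 = true :=
  ⟨by decide +kernel, by decide +kernel, by decide +kernel, by decide +kernel, by decide +kernel, by decide +kernel, by decide +kernel, by decide +kernel⟩

def t19822 : allY (E.wth (lkp [])) l19822 = true ∧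
    allY (E.wth (lkp [])) l19823 = true ∧
    allY (E.wth (lkp [])) l19824 = true ∧
    allY (E.wth (lkp [])) l19825 = true ∧
    allY (E.wth (lkp [])) l19826 = true ∧
    allY (E.wth (lkp [])) l19827 = true ∧
    allY (E.wth (lkp [])) l19828 = true ∧
    allY (E.wth (lkp [])) l19829 = true :=
  ⟨by decide +kernel, by decide +kernel, by decide +kernel, by decide +kernel, by decide +kernel, by decide +kernel, by decide +kernel, by decide +kernel⟩

def t19830 : allY (E.wth (lkp [])) l19830 = true ∧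
    allY (E.wth (lkp [])) l19831 = true ∧
    allY (E.wth (lkp [])) l19832 = true ∧
    allY (E.wth (lkp [])) l19833 = true ∧
    allY (E.wth (lkp [])) l19834 = true ∧
    allY (E.wth (lkp [])) l19835 = true ∧
    allY (E.wth (lkp [])) l19836 = true ∧
    allY (E.wth (lkp [])) l19837 = true :=
  ⟨by decide +kernel, by decide +kernel, by decide +kernel, by decide +kernel, by decide +kernel, by decide +kernel, by decide +kernel, by decide +kernel⟩

def t19838 : allY (E.wth (lkp [])) l19838 = true ∧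
    allY (E.wth (lkp [])) l19839 = true ∧
    allY (E.wth (lkp [])) l19840 = true ∧
    allY (E.wth (lkp [])) l19841 = true ∧
    allY (E.wth (lkp [])) l19842 = true ∧
    allY (E.wth (lkp [])) l19843 = true ∧
    allY (E.wth (lkp [])) l19844 = true ∧
    allY (E.wth (lkp [])) l19845 = true :=
  ⟨by decide +kernel, by decide +kernel, by decide +kernel, by decide +kernel, by decide +kernel, by decide +kernel, by decide +kernel, by decide +kernel⟩

def t19846 : allY (E.wth (lkp [])) l19846 = true ∧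
    allY (E.wth (lkp [])) l19847 = true ∧
    allY (E.wth (lkp [])) l19848 = true ∧
    allY (E.wth (lkp [])) l19849 = true ∧
    allY (E.wth (lkp [])) l19850 = true ∧
    allY (E.wth (lkp [])) l19851 = true ∧
    allY (E.wth (lkp [])) l19852 = true ∧
    allY (E.wth (lkp [])) l19853 = true :=
  ⟨by decide +kernel, by decide +kernel, by decide +kernel, by decide +kernel, by decide +kernel, by decide +kernel, by decide +kernel, by decide +kernel⟩

def t19854 : allY (E.wth (lkp [])) l19854 = true ∧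
    allY (E.wth (lkp [])) l19855 = true ∧
    allY (E.wth (lkp [])) l19856 = true ∧
    allY (E.wth (lkp [])) l19857 = true ∧
    allY (E.wth (lkp [])) l19858 = true ∧
    allY (E.wth (lkp [])) l19859 = true ∧
    allY (E.wth (lkp [])) l19860 = true ∧
    allY (E.wth (lkp [])) l19861 = true :=
  ⟨by decide +kernel, by decide +kernel, by decide +kernel, by decide +kernel, by decide +kernel, by decide +kernel, by decide +kernel, by decide +kernel⟩

def t19862 : allY (E.wth (lkp [])) l19862 = true ∧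
    allY (E.wth (lkp [])) l19863 = true ∧
    allY (E.wth (lkp [])) l19864 = true ∧
    allY (E.wth (lkp [])) l19865 = true ∧
    allY (E.wth (lkp [])) l19866 = true ∧
    allY (E.wth (lkp [])) l19867 = true ∧
    allY (E.wth (lkp [])) l19868 = true ∧
    allY (E.wth (lkp [])) l19869 = true :=
  ⟨by decide +kernel, by decide +kernel, by decide +kernel, by decide +kernel, by decide +kernel, by decide +kernel, by decide +kernel, by decide +kernel⟩

def t19870 : allY (E.wth (lkp [])) l19870 = true ∧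
    allY (E.wth (lkp [])) l19871 = true ∧
    allY (E.wth (lkp [])) l19872 = true ∧
    allY (E.wth (lkp [])) l19873 = true ∧
    allY (E.wth (lkp [])) l19874 = true ∧
    allY (E.wth (lkp [])) l19875 = true ∧
    allY (E.wth (lkp [])) l19876 = true ∧
    allY (E.wth (lkp [])) l19877 = true :=
  ⟨by decide +kernel, by decide +kernel, by decide +kernel, by decide +kernel, by decide +kernel, by decide +kernel, by decide +kernel, by decide +kernel⟩

def t19878 : allY (E.wth (lkp [])) l19878 = true ∧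
    allY (E.wth (lkp [])) l19879 = true ∧
    allY (E.wth (lkp [])) l19880 = true ∧
    allY (E.wth (lkp [])) l19881 = true ∧
    allY (E.wth (lkp [])) l19882 = true ∧
    allY (E.wth (lkp [])) l19883 = true ∧
    allY (E.wth (lkp [])) l19884 = true ∧
    allY (E.wth (lkp [])) l19885 = true :=
  ⟨by decide +kernel, by decide +kernel, by decide +kernel, by decide +kernel, by decide +kernel, by decide +kernel, by decide +kernel, by decide +kernel⟩

def t19886 : allY (E.wth (lkp [])) l19886 = true ∧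
    allY (E.wth (lkp [])) l19887 = true ∧
    allY (E.wth (lkp [])) l19888 = true ∧
    allY (E.wth (lkp [])) l19889 = true ∧
    allY (E.wth (lkp [])) l19890 = true ∧
    allY (E.wth (lkp [])) l19891 = true ∧
    allY (E.wth (lkp [])) l19892 = true ∧
    allY (E.wth (lkp [])) l19893 = true :=
  ⟨by decide +kernel, by decide +kernel, by decide +kernel, by decide +kernel, by decide +kernel, by decide +kernel, by decide +kernel, by decide +kernel⟩

def t19894 : allY (E.wth (lkp [])) l19894 = true ∧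
    allY (E.wth (lkp [])) l19895 = true ∧
    allY (E.wth (lkp [])) l19896 = true ∧
    allY (E.wth (lkp [])) l19897 = true ∧
    allY (E.wth (lkp [])) l19898 = true ∧
    allY (E.wth (lkp [])) l19899 = true ∧
    allY (E.wth (lkp [])) l19900 = true ∧
    allY (E.wth (lkp [])) l19901 = true :=
  ⟨by decide +kernel, by decide +kernel, by decide +kernel, by decide +kernel, by decide +kernel, by decide +kernel, by decide +kernel, by decide +kernel⟩

def t19902 : allY (E.wth (lkp [])) l19902 = true ∧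
    allY (E.wth (lkp [])) l19903 = true ∧
    allY (E.wth (lkp [])) l19904 = true ∧
    allY (E.wth (lkp [])) l19905 = true ∧
    allY (E.wth (lkp [])) l19906 = true ∧
    allY (E.wth (lkp [])) l19907 = true ∧
    allY (E.wth (lkp [])) l19908 = true ∧
    allY (E.wth (lkp [])) l19909 = true :=
  ⟨by decide +kernel, by decide +kernel, by decide +kernel, by decide +kernel, by decide +kernel, by decide +kernel, by decide +kernel, by decide +kernel⟩

def t19910 : allY (E.wth (lkp [])) l19910 = true ∧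
    allY (E.wth (lkp [])) l19911 = true ∧
    allY (E.wth (lkp [])) l19912 = true ∧
    allY (E.wth (lkp [])) l19913 = true ∧
    allY (E.wth (lkp [])) l19914 = true ∧
    allY (E.wth (lkp [])) l19915 = true ∧
    allY (E.wth (lkp [])) l19916 = true ∧
    allY (E.wth (lkp [])) l19917 = true :=
  ⟨by decide +kernel, by decide +kernel, by decide +kernel, by decide +kernel, by decide +kernel, by decide +kernel, by decide +kernel, by decide +kernel⟩

def t19918 : allY (E.wth (lkp [])) l19918 = true ∧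
    allY (E.wth (lkp [])) l19919 = true ∧
    allY (E.wth (lkp [])) l19920 = true ∧
    allY (E.wth (lkp [])) l19921 = true ∧
    allY (E.wth (lkp [])) l19922 = true ∧
    allY (E.wth (lkp [])) l19923 = true ∧
    allY (E.wth (lkp [])) l19924 = true ∧
    allY (E.wth (lkp [])) l19925 = true :=
  ⟨by decide +kernel, by decide +kernel, by decide +kernel, by decide +kernel, by decide +kernel, by decide +kernel, by decide +kernel, by decide +kernel⟩

def t19926 : allY (E.wth (lkp [])) l19926 = true ∧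
    allY (E.wth (lkp [])) l19927 = true ∧
    allY (E.wth (lkp [])) l19928 = true ∧
    allY (E.wth (lkp [])) l19929 = true ∧
    allY (E.wth (lkp [])) l19930 = true ∧
    allY (E.wth (lkp [])) l19931 = true ∧
    allY (E.wth (lkp [])) l19932 = true ∧
    allY (E.wth (lkp [])) l19933 = true :=
  ⟨by decide +kernel, by decide +kernel, by decide +kernel, by decide +kernel, by decide +kernel, by decide +kernel, by decide +kernel, by decide +kernel⟩

def t19934 : allY (E.wth (lkp [])) l19934 = true ∧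
    allY (E.wth (lkp [])) l19935 = true ∧
    allY (E.wth (lkp [])) l19936 = true ∧
    allY (E.wth (lkp [])) l19937 = true ∧
    allY (E.wth (lkp [])) l19938 = true ∧
    allY (E.wth (lkp [])) l19939 = true ∧
    allY (E.wth (lkp [])) l19940 = true ∧
    allY (E.wth (lkp [])) l19941 = true :=
  ⟨by decide +kernel, by decide +kernel, by decide +kernel, by decide +kernel, by decide +kernel, by decide +kernel, by decide +kernel, by decide +kernel⟩

def t19942 : allY (E.wth (lkp [])) l19942 = true ∧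
    allY (E.wth (lkp [])) l19943 = true ∧
    allY (E.wth (lkp [])) l19944 = true ∧
    allY (E.wth (lkp [])) l19945 = true ∧
    allY (E.wth (lkp [])) l19946 = true ∧
    allY (E.wth (lkp [])) l19947 = true ∧
    allY (E.wth (lkp [])) l19948 = true ∧
    allY (E.wth (lkp [])) l19949 = true :=
  ⟨by decide +kernel, by decide +kernel, by decide +kernel, by decide +kernel, by decide +kernel, by decide +kernel, by decide +kernel, by decide +kernel⟩

def t19950 : allY (E.wth (lkp [])) l19950 = true ∧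
    allY (E.wth (lkp [])) l19951 = true ∧
    allY (E.wth (lkp [])) l19952 = true ∧
    allY (E.wth (lkp [])) l19953 = true ∧
    allY (E.wth (lkp [])) l19954 = true ∧
    allY (E.wth (lkp [])) l19955 = true ∧
    allY (E.wth (lkp [])) l19956 = true ∧
    allY (E.wth (lkp [])) l19957 = true :=
  ⟨by decide +kernel, by decide +kernel, by decide +kernel, by decide +kernel, by decide +kernel, by decide +kernel, by decide +kernel, by decide +kernel⟩

def t19958 : allY (E.wth (lkp [])) l19958 = true ∧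
    allY (E.wth (lkp [])) l19959 = true ∧
    allY (E.wth (lkp [])) l19960 = true ∧
    allY (E.wth (lkp [])) l19961 = true ∧
    allY (E.wth (lkp [])) l19962 = true ∧
    allY (E.wth (lkp [])) l19963 = true ∧
    allY (E.wth (lkp [])) l19964 = true ∧
    allY (E.wth (lkp [])) l19965 = true :=
  ⟨by decide +kernel, by decide +kernel, by decide +kernel, by decide +kernel, by decide +kernel, by decide +kernel, by decide +kernel, by decide +kernel⟩

def t19966 : allY (E.wth (lkp [])) l19966 = true ∧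
    allY (E.wth (lkp [])) l19967 = true ∧
    allY (E.wth (lkp [])) l19968 = true ∧
    allY (E.wth (lkp [])) l19969 = true ∧
    allY (E.wth (lkp [])) l19970 = true ∧
    allY (E.wth (lkp [])) l19971 = true ∧
    allY (E.wth (lkp [])) l19972 = true ∧
    allY (E.wth (lkp [])) l19973 = true :=
  ⟨by decide +kernel, by decide +kernel, by decide +kernel, by decide +kernel, by decide +kernel, by decide +kernel, by decide +kernel, by decide +kernel⟩

def t19974 : allY (E.wth (lkp [])) l19974 = true ∧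
    allY (E.wth (lkp [])) l19975 = true ∧
    allY (E.wth (lkp [])) l19976 = true ∧
    allY (E.wth (lkp [])) l19977 = true ∧
    allY (E.wth (lkp [])) l19978 = true ∧
    allY (E.wth (lkp [])) l19979 = true ∧
    allY (E.wth (lkp [])) l19980 = true ∧
    allY (E.wth (lkp [])) l19981 = true :=
  ⟨by decide +kernel, by decide +kernel, by decide +kernel, by decide +kernel, by decide +kernel, by decide +kernel, by decide +kernel, by decide +kernel⟩

def t19982 : allY (E.wth (lkp [])) l19982 = true ∧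
    allY (E.wth (lkp [])) l19983 = true ∧
    allY (E.wth (lkp [])) l19984 = true ∧
    allY (E.wth (lkp [])) l19985 = true ∧
    allY (E.wth (lkp [])) l19986 = true ∧
    allY (E.wth (lkp [])) l19987 = true ∧
    allY (E.wth (lkp [])) l19988 = true ∧
    allY (E.wth (lkp [])) l19989 = true :=
  ⟨by decide +kernel, by decide +kernel, by decide +kernel, by decide +kernel, by decide +kernel, by decide +kernel, by decide +kernel, by decide +kernel⟩

def t19990 : allY (E.wth (lkp [])) l19990 = true ∧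
    allY (E.wth (lkp [])) l19991 = true ∧
    allY (E.wth (lkp [])) l19992 = true ∧
    allY (E.wth (lkp [])) l19993 = true ∧
    allY (E.wth (lkp [])) l19994 = true ∧
    allY (E.wth (lkp [])) l19995 = true ∧
    allY (E.wth (lkp [])) l19996 = true ∧
    allY (E.wth (lkp [])) l19997 = true :=
  ⟨by decide +kernel, by decide +kernel, by decide +kernel, by decide +kernel, by decide +kernel, by decide +kernel, by decide +kernel, by decide +kernel⟩

def t19998 : allY (E.wth (lkp [])) l19998 = true ∧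
    allY (E.wth (lkp [])) l19999 = true ∧
    allY (E.wth (lkp [])) l20000 = true ∧
    allY (E.wth (lkp [])) l20001 = true ∧
    allY (E.wth (lkp [])) l20002 = true ∧
    allY (E.wth (lkp [])) l20003 = true ∧
    allY (E.wth (lkp [])) l20004 = true ∧
    allY (E.wth (lkp [])) l20005 = true :=
  ⟨by decide +kernel, by decide +kernel, by decide +kernel, by decide +kernel, by decide +kernel, by decide +kernel, by decide +kernel, by decide +kernel⟩

def t20006 : allY (E.wth (lkp [])) l20006 = true ∧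
    allY (E.wth (lkp [])) l20007 = true ∧
    allY (E.wth (lkp [])) l20008 = true ∧
    allY (E.wth (lkp [])) l20009 = true ∧
    allY (E.wth (lkp [])) l20010 = true ∧
    allY (E.wth (lkp [])) l20011 = true ∧
    allY (E.wth (lkp [])) l20012 = true ∧
    allY (E.wth (lkp [])) l20013 = true :=
  ⟨by decide +kernel, by decide +kernel, by decide +kernel, by decide +kernel, by decide +kernel, by decide +kernel, by decide +kernel, by decide +kernel⟩

def t20014 : allY (E.wth (lkp [])) l20014 = true ∧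
    allY (E.wth (lkp [])) l20015 = true ∧
    allY (E.wth (lkp [])) l20016 = true ∧
    allY (E.wth (lkp [])) l20017 = true ∧
    allY (E.wth (lkp [])) l20018 = true ∧
    allY (E.wth (lkp [])) l20019 = true ∧
    allY (E.wth (lkp [])) l20020 = true ∧
    allY (E.wth (lkp [])) l20021 = true :=
  ⟨by decide +kernel, by decide +kernel, by decide +kernel, by decide +kernel, by decide +kernel, by decide +kernel, by decide +kernel, by decide +kernel⟩

def t20022 : allY (E.wth (lkp [])) l20022 = true ∧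
    allY (E.wth (lkp [])) l20023 = true ∧
    allY (E.wth (lkp [])) l20024 = true ∧
    allY (E.wth (lkp [])) l20025 = true ∧
    allY (E.wth (lkp [])) l20026 = true ∧
    allY (E.wth (lkp [])) l20027 = true ∧
    allY (E.wth (lkp [])) l20028 = true ∧
    allY (E.wth (lkp [])) l20029 = true :=
  ⟨by decide +kernel, by decide +kernel, by decide +kernel, by decide +kernel, by decide +kernel, by decide +kernel, by decide +kernel, by decide +kernel⟩

def t20030 : allY (E.wth (lkp [])) l20030 = true ∧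
    allY (E.wth (lkp [])) l20031 = true ∧
    allY (E.wth (lkp [])) l20032 = true ∧
    allY (E.wth (lkp [])) l20033 = true ∧
    allY (E.wth (lkp [])) l20034 = true ∧
    allY (E.wth (lkp [])) l20035 = true ∧
    allY (E.wth (lkp [])) l20036 = true ∧
    allY (E.wth (lkp [])) l20037 = true :=
  ⟨by decide +kernel, by decide +kernel, by decide +kernel, by decide +kernel, by decide +kernel, by decide +kernel, by decide +kernel, by decide +kernel⟩

def t20038 : allY (E.wth (lkp [])) l20038 = true ∧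
    allY (E.wth (lkp [])) l20039 = true ∧
    allY (E.wth (lkp [])) l20040 = true ∧
    allY (E.wth (lkp [])) l20041 = true ∧
    allY (E.wth (lkp [])) l20042 = true ∧
    allY (E.wth (lkp [])) l20043 = true ∧
    allY (E.wth (lkp [])) l20044 = true ∧
    allY (E.wth (lkp [])) l20045 = true :=
  ⟨by decide +kernel, by decide +kernel, by decide +kernel, by decide +kernel, by decide +kernel, by decide +kernel, by decide +kernel, by decide +kernel⟩

def t20046 : allY (E.wth (lkp [])) l20046 = true ∧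
    allY (E.wth (lkp [])) l20047 = true ∧
    allY (E.wth (lkp [])) l20048 = true ∧
    allY (E.wth (lkp [])) l20049 = true ∧
    allY (E.wth (lkp [])) l20050 = true ∧
    allY (E.wth (lkp [])) l20051 = true ∧
    allY (E.wth (lkp [])) l20052 = true ∧
    allY (E.wth (lkp [])) l20053 = true :=
  ⟨by decide +kernel, by decide +kernel, by decide +kernel, by decide +kernel, by decide +kernel, by decide +kernel, by decide +kernel, by decide +kernel⟩

def t20054 : allY (E.wth (lkp [])) l20054 = true ∧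
    allY (E.wth (lkp [])) l20055 = true ∧
    allY (E.wth (lkp [])) l20056 = true ∧
    allY (E.wth (lkp [])) l20057 = true ∧
    allY (E.wth (lkp [])) l20058 = true ∧
    allY (E.wth (lkp [])) l20059 = true ∧
    allY (E.wth (lkp [])) l20060 = true ∧
    allY (E.wth (lkp [])) l20061 = true :=
  ⟨by decide +kernel, by decide +kernel, by decide +kernel, by decide +kernel, by decide +kernel, by decide +kernel, by decide +kernel, by decide +kernel⟩

def t20062 : allY (E.wth (lkp [])) l20062 = true ∧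
    allY (E.wth (lkp [])) l20063 = true ∧
    allY (E.wth (lkp [])) l20064 = true ∧
    allY (E.wth (lkp [])) l20065 = true ∧
    allY (E.wth (lkp [])) l20066 = true ∧
    allY (E.wth (lkp [])) l20067 = true ∧
    allY (E.wth (lkp [])) l20068 = true ∧
    allY (E.wth (lkp [])) l20069 = true :=
  ⟨by decide +kernel, by decide +kernel, by decide +kernel, by decide +kernel, by decide +kernel, by decide +kernel, by decide +kernel, by decide +kernel⟩

def t20070 : allY (E.wth (lkp [])) l20070 = true ∧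
    allY (E.wth (lkp [])) l20071 = true ∧
    allY (E.wth (lkp [])) l20072 = true ∧
    allY (E.wth (lkp [])) l20073 = true ∧
    allY (E.wth (lkp [])) l20074 = true ∧
    allY (E.wth (lkp [])) l20075 = true ∧
    allY (E.wth (lkp [])) l20076 = true ∧
    allY (E.wth (lkp [])) l20077 = true :=
  ⟨by decide +kernel, by decide +kernel, by decide +kernel, by decide +kernel, by decide +kernel, by decide +kernel, by decide +kernel, by decide +kernel⟩

def t20078 : allY (E.wth (lkp [])) l20078 = true ∧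
    allY (E.wth (lkp [])) l20079 = true ∧
    allY (E.wth (lkp [])) l20080 = true ∧
    allY (E.wth (lkp [])) l20081 = true ∧
    allY (E.wth (lkp [])) l20082 = true ∧
    allY (E.wth (lkp [])) l20083 = true ∧
    allY (E.wth (lkp [])) l20084 = true ∧
    allY (E.wth (lkp [])) l20085 = true :=
  ⟨by decide +kernel, by decide +kernel, by decide +kernel, by decide +kernel, by decide +kernel, by decide +kernel, by decide +kernel, by decide +kernel⟩

def t20086 : allY (E.wth (lkp [])) l20086 = true ∧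
    allY (E.wth (lkp [])) l20087 = true ∧
    allY (E.wth (lkp [])) l20088 = true ∧
    allY (E.wth (lkp [])) l20089 = true ∧
    allY (E.wth (lkp [])) l20090 = true ∧
    allY (E.wth (lkp [])) l20091 = true ∧
    allY (E.wth (lkp [])) l20092 = true ∧
    allY (E.wth (lkp [])) l20093 = true :=
  ⟨by decide +kernel, by decide +kernel, by decide +kernel, by decide +kernel, by decide +kernel, by decide +kernel, by decide +kernel, by decide +kernel⟩

def t20094 : allY (E.wth (lkp [])) l20094 = true ∧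
    allY (E.wth (lkp [])) l20095 = true ∧
    allY (E.wth (lkp [])) l20096 = true ∧
    allY (E.wth (lkp [])) l20097 = true ∧
    allY (E.wth (lkp [])) l20098 = true ∧
    allY (E.wth (lkp [])) l20099 = true ∧
    allY (E.wth (lkp [])) l20100 = true ∧
    allY (E.wth (lkp [])) l20101 = true :=
  ⟨by decide +kernel, by decide +kernel, by decide +kernel, by decide +kernel, by decide +kernel, by decide +kernel, by decide +kernel, by decide +kernel⟩

def t20102 : allY (E.wth (lkp [])) l20102 = true ∧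
    allY (E.wth (lkp [])) l20103 = true ∧
    allY (E.wth (lkp [])) l20104 = true ∧
    allY (E.wth (lkp [])) l20105 = true ∧
    allY (E.wth (lkp [])) l20106 = true ∧
    allY (E.wth (lkp [])) l20107 = true ∧
    allY (E.wth (lkp [])) l20108 = true ∧
    allY (E.wth (lkp [])) l20109 = true :=
  ⟨by decide +kernel, by decide +kernel, by decide +kernel, by decide +kernel, by decide +kernel, by decide +kernel, by decide +kernel, by decide +kernel⟩

def t20110 : allY (E.wth (lkp [])) l20110 = true ∧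
    allY (E.wth (lkp [])) l20111 = true ∧
    allY (E.wth (lkp [])) l20112 = true ∧
    allY (E.wth (lkp [])) l20113 = true ∧
    allY (E.wth (lkp [])) l20114 = true ∧
    allY (E.wth (lkp [])) l20115 = true ∧
    allY (E.wth (lkp [])) l20116 = true ∧
    allY (E.wth (lkp [])) l20117 = true :=
  ⟨by decide +kernel, by decide +kernel, by decide +kernel, by decide +kernel, by decide +kernel, by decide +kernel, by decide +kernel, by decide +kernel⟩

def t20118 : allY (E.wth (lkp [])) l20118 = true ∧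
    allY (E.wth (lkp [])) l20119 = true ∧
    allY (E.wth (lkp [])) l20120 = true ∧
    allY (E.wth (lkp [])) l20121 = true ∧
    allY (E.wth (lkp [])) l20122 = true ∧
    allY (E.wth (lkp [])) l20123 = true ∧
    allY (E.wth (lkp [])) l20124 = true ∧
    allY (E.wth (lkp [])) l20125 = true :=
  ⟨by decide +kernel, by decide +kernel, by decide +kernel, by decide +kernel, by decide +kernel, by decide +kernel, by decide +kernel, by decide +kernel⟩

def t20126 : allY (E.wth (lkp [])) l20126 = true ∧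
    allY (E.wth (lkp [])) l20127 = true ∧
    allY (E.wth (lkp [])) l20128 = true ∧
    allY (E.wth (lkp [])) l20129 = true ∧
    allY (E.wth (lkp [])) l20130 = true ∧
    allY (E.wth (lkp [])) l20131 = true ∧
    allY (E.wth (lkp [])) l20132 = true ∧
    allY (E.wth (lkp [])) l20133 = true :=
  ⟨by decide +kernel, by decide +kernel, by decide +kernel, by decide +kernel, by decide +kernel, by decide +kernel, by decide +kernel, by decide +kernel⟩

def t20134 : allY (E.wth (lkp [])) l20134 = true ∧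
    allY (E.wth (lkp [])) l20135 = true ∧
    allY (E.wth (lkp [])) l20136 = true ∧
    allY (E.wth (lkp [])) l20137 = true ∧
    allY (E.wth (lkp [])) l20138 = true ∧
    allY (E.wth (lkp [])) l20139 = true ∧
    allY (E.wth (lkp [])) l20140 = true ∧
    allY (E.wth (lkp [])) l20141 = true :=
  ⟨by decide +kernel, by decide +kernel, by decide +kernel, by decide +kernel, by decide +kernel, by decide +kernel, by decide +kernel, by decide +kernel⟩

def t20142 : allY (E.wth (lkp [])) l20142 = true ∧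
    allY (E.wth (lkp [])) l20143 = true ∧
    allY (E.wth (lkp [])) l20144 = true ∧
    allY (E.wth (lkp [])) l20145 = true ∧
    allY (E.wth (lkp [])) l20146 = true ∧
    allY (E.wth (lkp [])) l20147 = true ∧
    allY (E.wth (lkp [])) l20148 = true ∧
    allY (E.wth (lkp [])) l20149 = true :=
  ⟨by decide +kernel, by decide +kernel, by decide +kernel, by decide +kernel, by decide +kernel, by decide +kernel, by decide +kernel, by decide +kernel⟩

def t20150 : allY (E.wth (lkp [])) l20150 = true ∧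
    allY (E.wth (lkp [])) l20151 = true ∧
    allY (E.wth (lkp [])) l20152 = true ∧
    allY (E.wth (lkp [])) l20153 = true ∧
    allY (E.wth (lkp [])) l20154 = true ∧
    allY (E.wth (lkp [])) l20155 = true :=
  ⟨by decide +kernel, by decide +kernel, by decide +kernel, by decide +kernel, by decide +kernel, by decide +kernel⟩

theorem a35 {p : Rf → Prop} (H : ∀ l, allY (E.wth (lkp [])) l = true → (lkp l).All p) :
    b35.All p := ⟨⟨⟨⟨⟨⟨⟨⟨⟨H _ t19606.1, H _ t19606.2.1⟩, ⟨H _ t19606.2.2.1, H _ t19606.2.2.2.1⟩⟩, ⟨⟨H _ t19606.2.2.2.2.1, H _ t19606.2.2.2.2.2.1⟩, ⟨H _ t19606.2.2.2.2.2.2.1, H _ t19606.2.2.2.2.2.2.2⟩⟩⟩, ⟨⟨⟨H _ t19614.1, H _ t19614.2.1⟩, ⟨H _ t19614.2.2.1, H _ t19614.2.2.2.1⟩⟩, ⟨⟨H _ t19614.2.2.2.2.1, H _ t19614.2.2.2.2.2.1⟩, ⟨H _ t19614.2.2.2.2.2.2.1, ⟨H _ t19614.2.2.2.2.2.2.2, H _ t19622.1⟩⟩⟩⟩⟩, ⟨⟨⟨⟨H _ t19622.2.1, H _ t19622.2.2.1⟩, ⟨H _ t19622.2.2.2.1, H _ t19622.2.2.2.2.1⟩⟩, ⟨⟨H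 _ t19622.2.2.2.2.2.1, H _ t19622.2.2.2.2.2.2.1⟩, ⟨H _ t19622.2.2.2.2.2.2.2, H _ t19630.1⟩⟩⟩, ⟨⟨⟨H _ t19630.2.1, H _ t19630.2.2.1⟩, ⟨H _ t19630.2.2.2.1, H _ t19630.2.2.2.2.1⟩⟩, ⟨⟨H _ t19630.2.2.2.2.2.1, H _ t19630.2.2.2.2.2.2.1⟩, ⟨H _ t19630.2.2.2.2.2.2.2, ⟨H _ t19638.1, H _ t19638.2.1⟩⟩⟩⟩⟩⟩, ⟨⟨⟨⟨⟨H _ t19638.2.2.1, H _ t19638.2.2.2.1⟩, ⟨H _ t19638.2.2.2.2.1, H _ t19638.2.2.2.2.2.1⟩⟩, ⟨⟨H _ t19638.2.2.2.2.2.2.1, H _ t19638.2.2.2.2.2.2.2⟩, ⟨H _ t19646.1, H _ t19646.2.1⟩⟩⟩, ⟨⟨⟨H _ t19646.2.2.1, H _ t19646.2.2.2.1⟩, ⟨H _ t19646.2.2.2.2.1, H _ t19646.2.2.2.2.2.1⟩⟩, ⟨⟨H _ t19646.2.2.2.2.2.2.1, H _ t19646.2.2.2.2.2.2.2⟩, ⟨H _ t19654.1, ⟨H _ t19654.2.1, H _ t19654.2.2.1⟩⟩⟩⟩⟩, ⟨⟨⟨⟨H _ t19654.2.2.2.1, H _ t19654.2.2.2.2.1⟩, ⟨H _ t19654.2.2.2.2.2.1, H _ t19654.2.2.2.2.2.2.1⟩⟩, ⟨⟨H _ t19654.2.2.2.2.2.2.2, H _ t19662.1⟩, ⟨H _ t19662.2.1, H _ t19662.2.2.1⟩⟩⟩, ⟨⟨⟨H _ t19662.2.2.2.1, H _ t19662.2.2.2.2.1⟩, ⟨H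 _ t19662.2.2.2.2.2.1, H _ t19662.2.2.2.2.2.2.1⟩⟩, ⟨⟨H _ t19662.2.2.2.2.2.2.2, H _ t19670.1⟩, ⟨H _ t19670.2.1, ⟨H _ t19670.2.2.1, H _ t19670.2.2.2.1⟩⟩⟩⟩⟩⟩⟩, ⟨⟨⟨⟨⟨⟨H _ t19670.2.2.2.2.1, H _ t19670.2.2.2.2.2.1⟩, ⟨H _ t19670.2.2.2.2.2.2.1, H _ t19670.2.2.2.2.2.2.2⟩⟩, ⟨⟨H _ t19678.1, H _ t19678.2.1⟩, ⟨H _ t19678.2.2.1, H _ t19678.2.2.2.1⟩⟩⟩, ⟨⟨⟨H _ t19678.2.2.2.2.1, H _ t19678.2.2.2.2.2.1⟩, ⟨H _ t19678.2.2.2.2.2.2.1, H _ t19678.2.2.2.2.2.2.2⟩⟩, ⟨⟨H _ t19686.1, H _ t19686.2.1⟩, ⟨H _ t19686.2.2.1, ⟨H _ t19686.2.2.2.1, H _ t19686.2.2.2.2.1⟩⟩⟩⟩⟩, ⟨⟨⟨⟨H _ t19686.2.2.2.2.2.1, H _ t19686.2.2.2.2.2.2.1⟩, ⟨H _ t19686.2.2.2.2.2.2.2, H _ t19694.1⟩⟩, ⟨⟨H _ t19694.2.1, H _ t19694.2.2.1⟩, ⟨H _ t19694.2.2.2.1, H _ t19694.2.2.2.2.1⟩⟩⟩, ⟨⟨⟨H _ t19694.2.2.2.2.2.1, H _ t19694.2.2.2.2.2.2.1⟩, ⟨H _ t19694.2.2.2.2.2.2.2, H _ t19702.1⟩⟩, ⟨⟨H _ t19702.2.1, H _ t19702.2.2.1⟩, ⟨H _ t19702.2.2.2.1, ⟨H _ t19702.2.2.2.2.1, H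 _ t19702.2.2.2.2.2.1⟩⟩⟩⟩⟩⟩, ⟨⟨⟨⟨⟨H _ t19702.2.2.2.2.2.2.1, H _ t19702.2.2.2.2.2.2.2⟩, ⟨H _ t19710.1, H _ t19710.2.1⟩⟩, ⟨⟨H _ t19710.2.2.1, H _ t19710.2.2.2.1⟩, ⟨H _ t19710.2.2.2.2.1, H _ t19710.2.2.2.2.2.1⟩⟩⟩, ⟨⟨⟨H _ t19710.2.2.2.2.2.2.1, H _ t19710.2.2.2.2.2.2.2⟩, ⟨H _ t19718.1, H _ t19718.2.1⟩⟩, ⟨⟨H _ t19718.2.2.1, H _ t19718.2.2.2.1⟩, ⟨H _ t19718.2.2.2.2.1, ⟨H _ t19718.2.2.2.2.2.1, H _ t19718.2.2.2.2.2.2.1⟩⟩⟩⟩⟩, ⟨⟨⟨⟨H _ t19718.2.2.2.2.2.2.2, H _ t19726.1⟩, ⟨H _ t19726.2.1, H _ t19726.2.2.1⟩⟩, ⟨⟨H _ t19726.2.2.2.1, H _ t19726.2.2.2.2.1⟩, ⟨H _ t19726.2.2.2.2.2.1, ⟨H _ t19726.2.2.2.2.2.2.1, H _ t19726.2.2.2.2.2.2.2⟩⟩⟩⟩, ⟨⟨⟨H _ t19734.1, H _ t19734.2.1⟩, ⟨H _ t19734.2.2.1, H _ t19734.2.2.2.1⟩⟩, ⟨⟨H _ t19734.2.2.2.2.1, H _ t19734.2.2.2.2.2.1⟩, ⟨H _ t19734.2.2.2.2.2.2.1, ⟨H _ t19734.2.2.2.2.2.2.2, H _ t19742.1⟩⟩⟩⟩⟩⟩⟩⟩, ⟨⟨⟨⟨⟨⟨⟨H _ t19742.2.1, H _ t19742.2.2.1⟩, ⟨H _ t19742.2.2.2.1, H _ t19742.2.2.2.2.1⟩⟩,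 ⟨⟨H _ t19742.2.2.2.2.2.1, H _ t19742.2.2.2.2.2.2.1⟩, ⟨H _ t19742.2.2.2.2.2.2.2, H _ t19750.1⟩⟩⟩, ⟨⟨⟨H _ t19750.2.1, H _ t19750.2.2.1⟩, ⟨H _ t19750.2.2.2.1, H _ t19750.2.2.2.2.1⟩⟩, ⟨⟨H _ t19750.2.2.2.2.2.1, H _ t19750.2.2.2.2.2.2.1⟩, ⟨H _ t19750.2.2.2.2.2.2.2, ⟨H _ t19758.1, H _ t19758.2.1⟩⟩⟩⟩⟩, ⟨⟨⟨⟨H _ t19758.2.2.1, H _ t19758.2.2.2.1⟩, ⟨H _ t19758.2.2.2.2.1, H _ t19758.2.2.2.2.2.1⟩⟩, ⟨⟨H _ t19758.2.2.2.2.2.2.1, H _ t19758.2.2.2.2.2.2.2⟩, ⟨H _ t19766.1, H _ t19766.2.1⟩⟩⟩, ⟨⟨⟨H _ t19766.2.2.1, H _ t19766.2.2.2.1⟩, ⟨H _ t19766.2.2.2.2.1, H _ t19766.2.2.2.2.2.1⟩⟩, ⟨⟨H _ t19766.2.2.2.2.2.2.1, H _ t19766.2.2.2.2.2.2.2⟩, ⟨H _ t19774.1, ⟨H _ t19774.2.1, H _ t19774.2.2.1⟩⟩⟩⟩⟩⟩, ⟨⟨⟨⟨⟨H _ t19774.2.2.2.1, H _ t19774.2.2.2.2.1⟩, ⟨H _ t19774.2.2.2.2.2.1, H _ t19774.2.2.2.2.2.2.1⟩⟩, ⟨⟨H _ t19774.2.2.2.2.2.2.2, H _ t19782.1⟩, ⟨H _ t19782.2.1, H _ t19782.2.2.1⟩⟩⟩, ⟨⟨⟨H _ t19782.2.2.2.1, H _ t19782.2.2.2.2.1⟩,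 ⟨H _ t19782.2.2.2.2.2.1, H _ t19782.2.2.2.2.2.2.1⟩⟩, ⟨⟨H _ t19782.2.2.2.2.2.2.2, H _ t19790.1⟩, ⟨H _ t19790.2.1, ⟨H _ t19790.2.2.1, H _ t19790.2.2.2.1⟩⟩⟩⟩⟩, ⟨⟨⟨⟨H _ t19790.2.2.2.2.1, H _ t19790.2.2.2.2.2.1⟩, ⟨H _ t19790.2.2.2.2.2.2.1, H _ t19790.2.2.2.2.2.2.2⟩⟩, ⟨⟨H _ t19798.1, H _ t19798.2.1⟩, ⟨H _ t19798.2.2.1, ⟨H _ t19798.2.2.2.1, H _ t19798.2.2.2.2.1⟩⟩⟩⟩, ⟨⟨⟨H _ t19798.2.2.2.2.2.1, H _ t19798.2.2.2.2.2.2.1⟩, ⟨H _ t19798.2.2.2.2.2.2.2, H _ t19806.1⟩⟩, ⟨⟨H _ t19806.2.1, H _ t19806.2.2.1⟩, ⟨H _ t19806.2.2.2.1, ⟨H _ t19806.2.2.2.2.1, H _ t19806.2.2.2.2.2.1⟩⟩⟩⟩⟩⟩⟩, ⟨⟨⟨⟨⟨⟨H _ t19806.2.2.2.2.2.2.1, H _ t19806.2.2.2.2.2.2.2⟩, ⟨H _ t19814.1, H _ t19814.2.1⟩⟩, ⟨⟨H _ t19814.2.2.1, H _ t19814.2.2.2.1⟩, ⟨H _ t19814.2.2.2.2.1, H _ t19814.2.2.2.2.2.1⟩⟩⟩, ⟨⟨⟨H _ t19814.2.2.2.2.2.2.1, H _ t19814.2.2.2.2.2.2.2⟩, ⟨H _ t19822.1, H _ t19822.2.1⟩⟩, ⟨⟨H _ t19822.2.2.1, H _ t19822.2.2.2.1⟩, ⟨H _ t19822.2.2.2.2.1,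 ⟨H _ t19822.2.2.2.2.2.1, H _ t19822.2.2.2.2.2.2.1⟩⟩⟩⟩⟩, ⟨⟨⟨⟨H _ t19822.2.2.2.2.2.2.2, H _ t19830.1⟩, ⟨H _ t19830.2.1, H _ t19830.2.2.1⟩⟩, ⟨⟨H _ t19830.2.2.2.1, H _ t19830.2.2.2.2.1⟩, ⟨H _ t19830.2.2.2.2.2.1, H _ t19830.2.2.2.2.2.2.1⟩⟩⟩, ⟨⟨⟨H _ t19830.2.2.2.2.2.2.2, H _ t19838.1⟩, ⟨H _ t19838.2.1, H _ t19838.2.2.1⟩⟩, ⟨⟨H _ t19838.2.2.2.1, H _ t19838.2.2.2.2.1⟩, ⟨H _ t19838.2.2.2.2.2.1, ⟨H _ t19838.2.2.2.2.2.2.1, H _ t19838.2.2.2.2.2.2.2⟩⟩⟩⟩⟩⟩, ⟨⟨⟨⟨⟨H _ t19846.1, H _ t19846.2.1⟩, ⟨H _ t19846.2.2.1, H _ t19846.2.2.2.1⟩⟩, ⟨⟨H _ t19846.2.2.2.2.1, H _ t19846.2.2.2.2.2.1⟩, ⟨H _ t19846.2.2.2.2.2.2.1, H _ t19846.2.2.2.2.2.2.2⟩⟩⟩, ⟨⟨⟨H _ t19854.1, H _ t19854.2.1⟩, ⟨H _ t19854.2.2.1, H _ t19854.2.2.2.1⟩⟩, ⟨⟨H _ t19854.2.2.2.2.1, H _ t19854.2.2.2.2.2.1⟩, ⟨H _ t19854.2.2.2.2.2.2.1, ⟨H _ t19854.2.2.2.2.2.2.2, H _ t19862.1⟩⟩⟩⟩⟩, ⟨⟨⟨⟨H _ t19862.2.1, H _ t19862.2.2.1⟩, ⟨H _ t19862.2.2.2.1, H _ t19862.2.2.2.2.1⟩⟩,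 ⟨⟨H _ t19862.2.2.2.2.2.1, H _ t19862.2.2.2.2.2.2.1⟩, ⟨H _ t19862.2.2.2.2.2.2.2, ⟨H _ t19870.1, H _ t19870.2.1⟩⟩⟩⟩, ⟨⟨⟨H _ t19870.2.2.1, H _ t19870.2.2.2.1⟩, ⟨H _ t19870.2.2.2.2.1, H _ t19870.2.2.2.2.2.1⟩⟩, ⟨⟨H _ t19870.2.2.2.2.2.2.1, H _ t19870.2.2.2.2.2.2.2⟩, ⟨H _ t19878.1, ⟨H _ t19878.2.1, H _ t19878.2.2.1⟩⟩⟩⟩⟩⟩⟩⟩⟩, ⟨⟨⟨⟨⟨⟨⟨⟨H _ t19878.2.2.2.1, H _ t19878.2.2.2.2.1⟩, ⟨H _ t19878.2.2.2.2.2.1, H _ t19878.2.2.2.2.2.2.1⟩⟩, ⟨⟨H _ t19878.2.2.2.2.2.2.2, H _ t19886.1⟩, ⟨H _ t19886.2.1, H _ t19886.2.2.1⟩⟩⟩, ⟨⟨⟨H _ t19886.2.2.2.1, H _ t19886.2.2.2.2.1⟩, ⟨H _ t19886.2.2.2.2.2.1, H _ t19886.2.2.2.2.2.2.1⟩⟩, ⟨⟨H _ t19886.2.2.2.2.2.2.2, H _ t19894.1⟩, ⟨H _ t19894.2.1, ⟨H _ t19894.2.2.1, H _ t19894.2.2.2.1⟩⟩⟩⟩⟩, ⟨⟨⟨⟨H _ t19894.2.2.2.2.1, H _ t19894.2.2.2.2.2.1⟩, ⟨H _ t19894.2.2.2.2.2.2.1, H _ t19894.2.2.2.2.2.2.2⟩⟩, ⟨⟨H _ t19902.1, H _ t19902.2.1⟩, ⟨H _ t19902.2.2.1, H _ t19902.2.2.2.1⟩⟩⟩, ⟨⟨⟨H _ t19902.2.2.2.2.1,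 H _ t19902.2.2.2.2.2.1⟩, ⟨H _ t19902.2.2.2.2.2.2.1, H _ t19902.2.2.2.2.2.2.2⟩⟩, ⟨⟨H _ t19910.1, H _ t19910.2.1⟩, ⟨H _ t19910.2.2.1, ⟨H _ t19910.2.2.2.1, H _ t19910.2.2.2.2.1⟩⟩⟩⟩⟩⟩, ⟨⟨⟨⟨⟨H _ t19910.2.2.2.2.2.1, H _ t19910.2.2.2.2.2.2.1⟩, ⟨H _ t19910.2.2.2.2.2.2.2, H _ t19918.1⟩⟩, ⟨⟨H _ t19918.2.1, H _ t19918.2.2.1⟩, ⟨H _ t19918.2.2.2.1, H _ t19918.2.2.2.2.1⟩⟩⟩, ⟨⟨⟨H _ t19918.2.2.2.2.2.1, H _ t19918.2.2.2.2.2.2.1⟩, ⟨H _ t19918.2.2.2.2.2.2.2, H _ t19926.1⟩⟩, ⟨⟨H _ t19926.2.1, H _ t19926.2.2.1⟩, ⟨H _ t19926.2.2.2.1, ⟨H _ t19926.2.2.2.2.1, H _ t19926.2.2.2.2.2.1⟩⟩⟩⟩⟩, ⟨⟨⟨⟨H _ t19926.2.2.2.2.2.2.1, H _ t19926.2.2.2.2.2.2.2⟩, ⟨H _ t19934.1, H _ t19934.2.1⟩⟩, ⟨⟨H _ t19934.2.2.1, H _ t19934.2.2.2.1⟩, ⟨H _ t19934.2.2.2.2.1, H _ t19934.2.2.2.2.2.1⟩⟩⟩, ⟨⟨⟨H _ t19934.2.2.2.2.2.2.1, H _ t19934.2.2.2.2.2.2.2⟩, ⟨H _ t19942.1, H _ t19942.2.1⟩⟩, ⟨⟨H _ t19942.2.2.1, H _ t19942.2.2.2.1⟩, ⟨H _ t19942.2.2.2.2.1, ⟨H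 _ t19942.2.2.2.2.2.1, H _ t19942.2.2.2.2.2.2.1⟩⟩⟩⟩⟩⟩⟩, ⟨⟨⟨⟨⟨⟨H _ t19942.2.2.2.2.2.2.2, H _ t19950.1⟩, ⟨H _ t19950.2.1, H _ t19950.2.2.1⟩⟩, ⟨⟨H _ t19950.2.2.2.1, H _ t19950.2.2.2.2.1⟩, ⟨H _ t19950.2.2.2.2.2.1, H _ t19950.2.2.2.2.2.2.1⟩⟩⟩, ⟨⟨⟨H _ t19950.2.2.2.2.2.2.2, H _ t19958.1⟩, ⟨H _ t19958.2.1, H _ t19958.2.2.1⟩⟩, ⟨⟨H _ t19958.2.2.2.1, H _ t19958.2.2.2.2.1⟩, ⟨H _ t19958.2.2.2.2.2.1, ⟨H _ t19958.2.2.2.2.2.2.1, H _ t19958.2.2.2.2.2.2.2⟩⟩⟩⟩⟩, ⟨⟨⟨⟨H _ t19966.1, H _ t19966.2.1⟩, ⟨H _ t19966.2.2.1, H _ t19966.2.2.2.1⟩⟩, ⟨⟨H _ t19966.2.2.2.2.1, H _ t19966.2.2.2.2.2.1⟩, ⟨H _ t19966.2.2.2.2.2.2.1, H _ t19966.2.2.2.2.2.2.2⟩⟩⟩, ⟨⟨⟨H _ t19974.1, H _ t19974.2.1⟩, ⟨H _ t19974.2.2.1, H _ t19974.2.2.2.1⟩⟩, ⟨⟨H _ t19974.2.2.2.2.1, H _ t19974.2.2.2.2.2.1⟩, ⟨H _ t19974.2.2.2.2.2.2.1, ⟨H _ t19974.2.2.2.2.2.2.2, H _ t19982.1⟩⟩⟩⟩⟩⟩, ⟨⟨⟨⟨⟨H _ t19982.2.1, H _ t19982.2.2.1⟩, ⟨H _ t19982.2.2.2.1, H _ t19982.2.2.2.2.1⟩⟩,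 ⟨⟨H _ t19982.2.2.2.2.2.1, H _ t19982.2.2.2.2.2.2.1⟩, ⟨H _ t19982.2.2.2.2.2.2.2, H _ t19990.1⟩⟩⟩, ⟨⟨⟨H _ t19990.2.1, H _ t19990.2.2.1⟩, ⟨H _ t19990.2.2.2.1, H _ t19990.2.2.2.2.1⟩⟩, ⟨⟨H _ t19990.2.2.2.2.2.1, H _ t19990.2.2.2.2.2.2.1⟩, ⟨H _ t19990.2.2.2.2.2.2.2, ⟨H _ t19998.1, H _ t19998.2.1⟩⟩⟩⟩⟩, ⟨⟨⟨⟨H _ t19998.2.2.1, H _ t19998.2.2.2.1⟩, ⟨H _ t19998.2.2.2.2.1, H _ t19998.2.2.2.2.2.1⟩⟩, ⟨⟨H _ t19998.2.2.2.2.2.2.1, H _ t19998.2.2.2.2.2.2.2⟩, ⟨H _ t20006.1, ⟨H _ t20006.2.1, H _ t20006.2.2.1⟩⟩⟩⟩, ⟨⟨⟨H _ t20006.2.2.2.1, H _ t20006.2.2.2.2.1⟩, ⟨H _ t20006.2.2.2.2.2.1, H _ t20006.2.2.2.2.2.2.1⟩⟩, ⟨⟨H _ t20006.2.2.2.2.2.2.2, H _ t20014.1⟩, ⟨H _ t20014.2.1, ⟨H _ t20014.2.2.1, H _ t20014.2.2.2.1⟩⟩⟩⟩⟩⟩⟩⟩, ⟨⟨⟨⟨⟨⟨⟨H _ t20014.2.2.2.2.1, H _ t20014.2.2.2.2.2.1⟩, ⟨H _ t20014.2.2.2.2.2.2.1, H _ t20014.2.2.2.2.2.2.2⟩⟩, ⟨⟨H _ t20022.1, H _ t20022.2.1⟩, ⟨H _ t20022.2.2.1, H _ t20022.2.2.2.1⟩⟩⟩, ⟨⟨⟨H _ t20022.2.2.2.2.1,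 H _ t20022.2.2.2.2.2.1⟩, ⟨H _ t20022.2.2.2.2.2.2.1, H _ t20022.2.2.2.2.2.2.2⟩⟩, ⟨⟨H _ t20030.1, H _ t20030.2.1⟩, ⟨H _ t20030.2.2.1, ⟨H _ t20030.2.2.2.1, H _ t20030.2.2.2.2.1⟩⟩⟩⟩⟩, ⟨⟨⟨⟨H _ t20030.2.2.2.2.2.1, H _ t20030.2.2.2.2.2.2.1⟩, ⟨H _ t20030.2.2.2.2.2.2.2, H _ t20038.1⟩⟩, ⟨⟨H _ t20038.2.1, H _ t20038.2.2.1⟩, ⟨H _ t20038.2.2.2.1, H _ t20038.2.2.2.2.1⟩⟩⟩, ⟨⟨⟨H _ t20038.2.2.2.2.2.1, H _ t20038.2.2.2.2.2.2.1⟩, ⟨H _ t20038.2.2.2.2.2.2.2, H _ t20046.1⟩⟩, ⟨⟨H _ t20046.2.1, H _ t20046.2.2.1⟩, ⟨H _ t20046.2.2.2.1, ⟨H _ t20046.2.2.2.2.1, H _ t20046.2.2.2.2.2.1⟩⟩⟩⟩⟩⟩, ⟨⟨⟨⟨⟨H _ t20046.2.2.2.2.2.2.1, H _ t20046.2.2.2.2.2.2.2⟩, ⟨H _ t20054.1, H _ t20054.2.1⟩⟩, ⟨⟨H _ t20054.2.2.1, H _ t20054.2.2.2.1⟩, ⟨H _ t20054.2.2.2.2.1, H _ t20054.2.2.2.2.2.1⟩⟩⟩, ⟨⟨⟨H _ t20054.2.2.2.2.2.2.1, H _ t20054.2.2.2.2.2.2.2⟩, ⟨H _ t20062.1, H _ t20062.2.1⟩⟩, ⟨⟨H _ t20062.2.2.1, H _ t20062.2.2.2.1⟩, ⟨H _ t20062.2.2.2.2.1, ⟨H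 _ t20062.2.2.2.2.2.1, H _ t20062.2.2.2.2.2.2.1⟩⟩⟩⟩⟩, ⟨⟨⟨⟨H _ t20062.2.2.2.2.2.2.2, H _ t20070.1⟩, ⟨H _ t20070.2.1, H _ t20070.2.2.1⟩⟩, ⟨⟨H _ t20070.2.2.2.1, H _ t20070.2.2.2.2.1⟩, ⟨H _ t20070.2.2.2.2.2.1, ⟨H _ t20070.2.2.2.2.2.2.1, H _ t20070.2.2.2.2.2.2.2⟩⟩⟩⟩, ⟨⟨⟨H _ t20078.1, H _ t20078.2.1⟩, ⟨H _ t20078.2.2.1, H _ t20078.2.2.2.1⟩⟩, ⟨⟨H _ t20078.2.2.2.2.1, H _ t20078.2.2.2.2.2.1⟩, ⟨H _ t20078.2.2.2.2.2.2.1, ⟨H _ t20078.2.2.2.2.2.2.2, H _ t20086.1⟩⟩⟩⟩⟩⟩⟩, ⟨⟨⟨⟨⟨⟨H _ t20086.2.1, H _ t20086.2.2.1⟩, ⟨H _ t20086.2.2.2.1, H _ t20086.2.2.2.2.1⟩⟩, ⟨⟨H _ t20086.2.2.2.2.2.1, H _ t20086.2.2.2.2.2.2.1⟩, ⟨H _ t20086.2.2.2.2.2.2.2, H _ t20094.1⟩⟩⟩, ⟨⟨⟨H _ t20094.2.1, H _ t20094.2.2.1⟩, ⟨H _ t20094.2.2.2.1, H _ t20094.2.2.2.2.1⟩⟩, ⟨⟨H _ t20094.2.2.2.2.2.1, H _ t20094.2.2.2.2.2.2.1⟩, ⟨H _ t20094.2.2.2.2.2.2.2, ⟨H _ t20102.1, H _ t20102.2.1⟩⟩⟩⟩⟩, ⟨⟨⟨⟨H _ t20102.2.2.1, H _ t20102.2.2.2.1⟩, ⟨H _ t20102.2.2.2.2.1,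 H _ t20102.2.2.2.2.2.1⟩⟩, ⟨⟨H _ t20102.2.2.2.2.2.2.1, H _ t20102.2.2.2.2.2.2.2⟩, ⟨H _ t20110.1, H _ t20110.2.1⟩⟩⟩, ⟨⟨⟨H _ t20110.2.2.1, H _ t20110.2.2.2.1⟩, ⟨H _ t20110.2.2.2.2.1, H _ t20110.2.2.2.2.2.1⟩⟩, ⟨⟨H _ t20110.2.2.2.2.2.2.1, H _ t20110.2.2.2.2.2.2.2⟩, ⟨H _ t20118.1, ⟨H _ t20118.2.1, H _ t20118.2.2.1⟩⟩⟩⟩⟩⟩, ⟨⟨⟨⟨⟨H _ t20118.2.2.2.1, H _ t20118.2.2.2.2.1⟩, ⟨H _ t20118.2.2.2.2.2.1, H _ t20118.2.2.2.2.2.2.1⟩⟩, ⟨⟨H _ t20118.2.2.2.2.2.2.2, H _ t20126.1⟩, ⟨H _ t20126.2.1, H _ t20126.2.2.1⟩⟩⟩, ⟨⟨⟨H _ t20126.2.2.2.1, H _ t20126.2.2.2.2.1⟩, ⟨H _ t20126.2.2.2.2.2.1, H _ t20126.2.2.2.2.2.2.1⟩⟩, ⟨⟨H _ t20126.2.2.2.2.2.2.2, H _ t20134.1⟩, ⟨H _ t20134.2.1, ⟨H _ t20134.2.2.1, H _ t20134.2.2.2.1⟩⟩⟩⟩⟩, ⟨⟨⟨⟨H _ t20134.2.2.2.2.1, H _ t20134.2.2.2.2.2.1⟩, ⟨H _ t20134.2.2.2.2.2.2.1, H _ t20134.2.2.2.2.2.2.2⟩⟩, ⟨⟨H _ t20142.1, H _ t20142.2.1⟩, ⟨H _ t20142.2.2.1, ⟨H _ t20142.2.2.2.1, H _ t20142.2.2.2.2.1⟩⟩⟩⟩,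 ⟨⟨⟨H _ t20142.2.2.2.2.2.1, H _ t20142.2.2.2.2.2.2.1⟩, ⟨H _ t20142.2.2.2.2.2.2.2, H _ t20150.1⟩⟩, ⟨⟨H _ t20150.2.1, H _ t20150.2.2.1⟩, ⟨H _ t20150.2.2.2.1, ⟨H _ t20150.2.2.2.2.1, H _ t20150.2.2.2.2.2⟩⟩⟩⟩⟩⟩⟩⟩⟩⟩

end Pool.Agent.MP_c853c5_nt.X.C4950
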