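import Pool.Agent.MP_c853c5_nt.X.C4950.Env
import Pool.Agent.MP_c853c5_nt.X.C4950.D7

set_option autoImplicit false
set_option maxRecDepth 8192
set_option linter.all false

namespace Pool.Agent.MP_c853c5_nt.X.C4950

open Pool.Agent.MP_c853c5_nt.X

def t20156 : allY (E.wth (lkp [])) l20156 = true ∧
    allY (E.wth (lkp [])) l20157 = true ∧
    allY (E.wth (lkp [])) l20158 = true ∧
    allY (E.wth (lkp [])) l20159 = true ∧
    allY (E.wth (lkp [])) l20160 = true ∧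
    allY (E.wth (lkp [])) l20161 = true ∧
    allY (E.wth (lkp [])) l20162 = true ∧
    allY (E.wth (lkp [])) l20163 = true :=
  ⟨by decide +kernel, by decide +kernel, by decide +kernel, by decide +kernel, by decide +kernel, by decide +kernel, by decide +kernel, by decide +kernel⟩

def t20164 : allY (E.wth (lkp [])) l20164 = true ∧
    allY (E.wth (lkp [])) l20165 = true ∧
    allY (E.wth (lkp [])) l20166 = true ∧
    allY (E.wth (lkp [])) l20167 = true ∧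
    allY (E.wth (lkp [])) l20168 = true ∧
    allY (E.wth (lkp [])) l20169 = true ∧
    allY (E.wth (lkp [])) l20170 = true ∧
    allY (E.wth (lkp [])) l20171 = true :=
  ⟨by decide +kernel, by decide +kernel, by decide +kernel, by decide +kernel, by decide +kernel, by decide +kernel, by decide +kernel, by decide +kernel⟩

def t20172 : allY (E.wth (lkp [])) l20172 = true ∧
    allY (E.wth (lkp [])) l20173 = true ∧
    allY (E.wth (lkp [])) l20174 = true ∧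
    allY (E.wth (lkp [])) l20175 = true ∧
    allY (E.wth (lkp [])) l20176 = true ∧
    allY (E.wth (lkp [])) l20177 = true ∧
    allY (E.wth (lkp [])) l20178 = true ∧
    allY (E.wth (lkp [])) l20179 = true :=
  ⟨by decide +kernel, by decide +kernel, by decide +kernel, by decide +kernel, by decide +kernel, by decide +kernel, by decide +kernel, by decide +kernel⟩

def t20180 : allY (E.wth (lkp [])) l20180 = true ∧
    allY (E.wth (lkp [])) l20181 = true ∧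
    allY (E.wth (lkp [])) l20182 = true ∧
    allY (E.wth (lkp [])) l20183 = true ∧
    allY (E.wth (lkp [])) l20184 = true ∧
    allY (E.wth (lkp [])) l20185 = true ∧
    allY (E.wth (lkp [])) l20186 = true ∧
    allY (E.wth (lkp [])) l20187 = true :=
  ⟨by decide +kernel, by decide +kernel, by decide +kernel, by decide +kernel, by decide +kernel, by decide +kernel, by decide +kernel, by decide +kernel⟩

def t20188 : allY (E.wth (lkp [])) l20188 = true ∧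
    allY (E.wth (lkp [])) l20189 = true ∧
    allY (E.wth (lkp [])) l20190 = true ∧
    allY (E.wth (lkp [])) l20191 = true ∧
    allY (E.wth (lkp [])) l20192 = true ∧
    allY (E.wth (lkp [])) l20193 = true ∧
    allY (E.wth (lkp [])) l20194 = true ∧
    allY (E.wth (lkp [])) l20195 = true :=
  ⟨by decide +kernel, by decide +kernel, by decide +kernel, by decide +kernel, by decide +kernel, by decide +kernel, by decide +kernel, by decide +kernel⟩

def t20196 : allY (E.wth (lkp [])) l20196 = true ∧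
    allY (E.wth (lkp [])) l20197 = true ∧
    allY (E.wth (lkp [])) l20198 = true ∧
    allY (E.wth (lkp [])) l20199 = true ∧
    allY (E.wth (lkp [])) l20200 = true ∧
    allY (E.wth (lkp [])) l20201 = true ∧
    allY (E.wth (lkp [])) l20202 = true ∧
    allY (E.wth (lkp [])) l20203 = true :=
  ⟨by decide +kernel, by decide +kernel, by decide +kernel, by decide +kernel, by decide +kernel, by decide +kernel, by decide +kernel, by decide +kernel⟩

def t20204 : allY (E.wth (lkp [])) l20204 = true ∧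
    allY (E.wth (lkp [])) l20205 = true ∧
    allY (E.wth (lkp [])) l20206 = true ∧
    allY (E.wth (lkp [])) l20207 = true ∧
    allY (E.wth (lkp [])) l20208 = true ∧
    allY (E.wth (lkp [])) l20209 = true ∧
    allY (E.wth (lkp [])) l20210 = true ∧
    allY (E.wth (lkp [])) l20211 = true :=
  ⟨by decide +kernel, by decide +kernel, by decide +kernel, by decide +kernel, by decide +kernel, by decide +kernel, by decide +kernel, by decide +kernel⟩

def t20212 : allY (E.wth (lkp [])) l20212 = true ∧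
    allY (E.wth (lkp [])) l20213 = true ∧
    allY (E.wth (lkp [])) l20214 = true ∧
    allY (E.wth (lkp [])) l20215 = true ∧
    allY (E.wth (lkp [])) l20216 = true ∧
    allY (E.wth (lkp [])) l20217 = true ∧
    allY (E.wth (lkp [])) l20218 = true ∧
    allY (E.wth (lkp [])) l20219 = true :=
  ⟨by decide +kernel, by decide +kernel, by decide +kernel, by decide +kernel, by decide +kernel, by decide +kernel, by decide +kernel, by decide +kernel⟩

def t20220 : allY (E.wth (lkp [])) l20220 = true ∧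
    allY (E.wth (lkp [])) l20221 = true ∧
    allY (E.wth (lkp [])) l20222 = true ∧
    allY (E.wth (lkp [])) l20223 = true ∧
    allY (E.wth (lkp [])) l20224 = true ∧
    allY (E.wth (lkp [])) l20225 = true ∧
    allY (E.wth (lkp [])) l20226 = true ∧
    allY (E.wth (lkp [])) l20227 = true :=
  ⟨by decide +kernel, by decide +kernel, by decide +kernel, by decide +kernel, by decide +kernel, by decide +kernel, by decide +kernel, by decide +kernel⟩

def t20228 : allY (E.wth (lkp [])) l20228 = true ∧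
    allY (E.wth (lkp [])) l20229 = true ∧
    allY (E.wth (lkp [])) l20230 = true ∧
    allY (E.wth (lkp [])) l20231 = true ∧
    allY (E.wth (lkp [])) l20232 = true ∧
    allY (E.wth (lkp [])) l20233 = true ∧
    allY (E.wth (lkp [])) l20234 = true ∧
    allY (E.wth (lkp [])) l20235 = true :=
  ⟨by decide +kernel, by decide +kernel, by decide +kernel, by decide +kernel, by decide +kernel, by decide +kernel, by decide +kernel, by decide +kernel⟩

def t20236 : allY (E.wth (lkp [])) l20236 = true ∧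
    allY (E.wth (lkp [])) l20237 = true ∧
    allY (E.wth (lkp [])) l20238 = true ∧
    allY (E.wth (lkp [])) l20239 = true ∧
    allY (E.wth (lkp [])) l20240 = true ∧
    allY (E.wth (lkp [])) l20241 = true ∧
    allY (E.wth (lkp [])) l20242 = true ∧
    allY (E.wth (lkp [])) l20243 = true :=
  ⟨by decide +kernel, by decide +kernel, by decide +kernel, by decide +kernel, by decide +kernel, by decide +kernel, by decide +kernel, by decide +kernel⟩

def t20244 : allY (E.wth (lkp [])) l20244 = true ∧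
    allY (E.wth (lkp [])) l20245 = true ∧
    allY (E.wth (lkp [])) l20246 = true ∧
    allY (E.wth (lkp [])) l20247 = true ∧
    allY (E.wth (lkp [])) l20248 = true ∧
    allY (E.wth (lkp [])) l20249 = true ∧
    allY (E.wth (lkp [])) l20250 = true ∧
    allY (E.wth (lkp [])) l20251 = true :=
  ⟨by decide +kernel, by decide +kernel, by decide +kernel, by decide +kernel, by decide +kernel, by decide +kernel, by decide +kernel, by decide +kernel⟩

def t20252 : allY (E.wth (lkp [])) l20252 = true ∧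
    allY (E.wth (lkp [])) l20253 = true ∧
    allY (E.wth (lkp [])) l20254 = true ∧
    allY (E.wth (lkp [])) l20255 = true ∧
    allY (E.wth (lkp [])) l20256 = true ∧
    allY (E.wth (lkp [])) l20257 = true ∧
    allY (E.wth (lkp [])) l20258 = true ∧
    allY (E.wth (lkp [])) l20259 = true :=
  ⟨by decide +kernel, by decide +kernel, by decide +kernel, by decide +kernel, by decide +kernel, by decide +kernel, by decide +kernel, by decide +kernel⟩

def t20260 : allY (E.wth (lkp [])) l20260 = true ∧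
    allY (E.wth (lkp [])) l20261 = true ∧
    allY (E.wth (lkp [])) l20262 = true ∧
    allY (E.wth (lkp [])) l20263 = true ∧
    allY (E.wth (lkp [])) l20264 = true ∧
    allY (E.wth (lkp [])) l20265 = true ∧
    allY (E.wth (lkp [])) l20266 = true ∧
    allY (E.wth (lkp [])) l20267 = true :=
  ⟨by decide +kernel, by decide +kernel, by decide +kernel, by decide +kernel, by decide +kernel, by decide +kernel, by decide +kernel, by decide +kernel⟩

def t20268 : allY (E.wth (lkp [])) l20268 = true ∧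
    allY (E.wth (lkp [])) l20269 = true ∧
    allY (E.wth (lkp [])) l20270 = true ∧
    allY (E.wth (lkp [])) l20271 = true ∧
    allY (E.wth (lkp [])) l20272 = true ∧
    allY (E.wth (lkp [])) l20273 = true ∧
    allY (E.wth (lkp [])) l20274 = true ∧
    allY (E.wth (lkp [])) l20275 = true :=
  ⟨by decide +kernel, by decide +kernel, by decide +kernel, by decide +kernel, by decide +kernel, by decide +kernel, by decide +kernel, by decide +kernel⟩

def t20276 : allY (E.wth (lkp [])) l20276 = true ∧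
    allY (E.wth (lkp [])) l20277 = true ∧
    allY (E.wth (lkp [])) l20278 = true ∧
    allY (E.wth (lkp [])) l20279 = true ∧
    allY (E.wth (lkp [])) l20280 = true ∧
    allY (E.wth (lkp [])) l20281 = true ∧
    allY (E.wth (lkp [])) l20282 = true ∧
    allY (E.wth (lkp [])) l20283 = true :=
  ⟨by decide +kernel, by decide +kernel, by decide +kernel, by decide +kernel, by decide +kernel, by decide +kernel, by decide +kernel, by decide +kernel⟩

def t20284 : allY (E.wth (lkp [])) l20284 = true ∧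
    allY (E.wth (lkp [])) l20285 = true ∧
    allY (E.wth (lkp [])) l20286 = true ∧
    allY (E.wth (lkp [])) l20287 = true ∧
    allY (E.wth (lkp [])) l20288 = true ∧
    allY (E.wth (lkp [])) l20289 = true ∧
    allY (E.wth (lkp [])) l20290 = true ∧
    allY (E.wth (lkp [])) l20291 = true :=
  ⟨by decide +kernel, by decide +kernel, by decide +kernel, by decide +kernel, by decide +kernel, by decide +kernel, by decide +kernel, by decide +kernel⟩

def t20292 : allY (E.wth (lkp [])) l20292 = true ∧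
    allY (E.wth (lkp [])) l20293 = true ∧
    allY (E.wth (lkp [])) l20294 = true ∧
    allY (E.wth (lkp [])) l20295 = true ∧
    allY (E.wth (lkp [])) l20296 = true ∧
    allY (E.wth (lkp [])) l20297 = true ∧
    allY (E.wth (lkp [])) l20298 = true ∧
    allY (E.wth (lkp [])) l20299 = true :=
  ⟨by decide +kernel, by decide +kernel, by decide +kernel, by decide +kernel, by decide +kernel, by decide +kernel, by decide +kernel, by decide +kernel⟩

def t20300 : allY (E.wth (lkp [])) l20300 = true ∧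
    allY (E.wth (lkp [])) l20301 = true ∧
    allY (E.wth (lkp [])) l20302 = true ∧
    allY (E.wth (lkp [])) l20303 = true ∧
    allY (E.wth (lkp [])) l20304 = true ∧
    allY (E.wth (lkp [])) l20305 = true ∧
    allY (E.wth (lkp [])) l20306 = true ∧
    allY (E.wth (lkp [])) l20307 = true :=
  ⟨by decide +kernel, by decide +kernel, by decide +kernel, by decide +kernel, by decide +kernel, by decide +kernel, by decide +kernel, by decide +kernel⟩

def t20308 : allY (E.wth (lkp [])) l20308 = true ∧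
    allY (E.wth (lkp [])) l20309 = true ∧
    allY (E.wth (lkp [])) l20310 = true ∧
    allY (E.wth (lkp [])) l20311 = true ∧
    allY (E.wth (lkp [])) l20312 = true ∧
    allY (E.wth (lkp [])) l20313 = true ∧
    allY (E.wth (lkp [])) l20314 = true ∧
    allY (E.wth (lkp [])) l20315 = true :=
  ⟨by decide +kernel, by decide +kernel, by decide +kernel, by decide +kernel, by decide +kernel, by decide +kernel, by decide +kernel, by decide +kernel⟩

def t20316 : allY (E.wth (lkp [])) l20316 = true ∧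
    allY (E.wth (lkp [])) l20317 = true ∧
    allY (E.wth (lkp [])) l20318 = true ∧
    allY (E.wth (lkp [])) l20319 = true ∧
    allY (E.wth (lkp [])) l20320 = true ∧
    allY (E.wth (lkp [])) l20321 = true ∧
    allY (E.wth (lkp [])) l20322 = true ∧
    allY (E.wth (lkp [])) l20323 = true :=
  ⟨by decide +kernel, by decide +kernel, by decide +kernel, by decide +kernel, by decide +kernel, by decide +kernel, by decide +kernel, by decide +kernel⟩

def t20324 : allY (E.wth (lkp [])) l20324 = true ∧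
    allY (E.wth (lkp [])) l20325 = true ∧
    allY (E.wth (lkp [])) l20326 = true ∧
    allY (E.wth (lkp [])) l20327 = true ∧
    allY (E.wth (lkp [])) l20328 = true ∧
    allY (E.wth (lkp [])) l20329 = true ∧
    allY (E.wth (lkp [])) l20330 = true ∧
    allY (E.wth (lkp [])) l20331 = true :=
  ⟨by decide +kernel, by decide +kernel, by decide +kernel, by decide +kernel, by decide +kernel, by decide +kernel, by decide +kernel, by decide +kernel⟩

def t20332 : allY (E.wth (lkp [])) l20332 = true ∧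
    allY (E.wth (lkp [])) l20333 = true ∧
    allY (E.wth (lkp [])) l20334 = true ∧
    allY (E.wth (lkp [])) l20335 = true ∧
    allY (E.wth (lkp [])) l20336 = true ∧
    allY (E.wth (lkp [])) l20337 = true ∧
    allY (E.wth (lkp [])) l20338 = true ∧
    allY (E.wth (lkp [])) l20339 = true :=
  ⟨by decide +kernel, by decide +kernel, by decide +kernel, by decide +kernel, by decide +kernel, by decide +kernel, by decide +kernel, by decide +kernel⟩

def t20340 : allY (E.wth (lkp [])) l20340 = true ∧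
    allY (E.wth (lkp [])) l20341 = true ∧
    allY (E.wth (lkp [])) l20342 = true ∧
    allY (E.wth (lkp [])) l20343 = true ∧
    allY (E.wth (lkp [])) l20344 = true ∧
    allY (E.wth (lkp [])) l20345 = true ∧
    allY (E.wth (lkp [])) l20346 = true ∧
    allY (E.wth (lkp [])) l20347 = true :=
  ⟨by decide +kernel, by decide +kernel, by decide +kernel, by decide +kernel, by decide +kernel, by decide +kernel, by decide +kernel, by decide +kernel⟩

def t20348 : allY (E.wth (lkp [])) l20348 = true ∧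
    allY (E.wth (lkp [])) l20349 = true ∧
    allY (E.wth (lkp [])) l20350 = true ∧
    allY (E.wth (lkp [])) l20351 = true ∧
    allY (E.wth (lkp [])) l20352 = true ∧
    allY (E.wth (lkp [])) l20353 = true ∧
    allY (E.wth (lkp [])) l20354 = true ∧
    allY (E.wth (lkp [])) l20355 = true :=
  ⟨by decide +kernel, by decide +kernel, by decide +kernel, by decide +kernel, by decide +kernel, by decide +kernel, by decide +kernel, by decide +kernel⟩

def t20356 : allY (E.wth (lkp [])) l20356 = true ∧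
    allY (E.wth (lkp [])) l20357 = true ∧
    allY (E.wth (lkp [])) l20358 = true ∧
    allY (E.wth (lkp [])) l20359 = true ∧
    allY (E.wth (lkp [])) l20360 = true ∧
    allY (E.wth (lkp [])) l20361 = true ∧
    allY (E.wth (lkp [])) l20362 = true ∧
    allY (E.wth (lkp [])) l20363 = true :=
  ⟨by decide +kernel, by decide +kernel, by decide +kernel, by decide +kernel, by decide +kernel, by decide +kernel, by decide +kernel, by decide +kernel⟩

def t20364 : allY (E.wth (lkp [])) l20364 = true ∧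
    allY (E.wth (lkp [])) l20365 = true ∧
    allY (E.wth (lkp [])) l20366 = true ∧
    allY (E.wth (lkp [])) l20367 = true ∧
    allY (E.wth (lkp [])) l20368 = true ∧
    allY (E.wth (lkp [])) l20369 = true ∧
    allY (E.wth (lkp [])) l20370 = true ∧
    allY (E.wth (lkp [])) l20371 = true :=
  ⟨by decide +kernel, by decide +kernel, by decide +kernel, by decide +kernel, by decide +kernel, by decide +kernel, by decide +kernel, by decide +kernel⟩

def t20372 : allY (E.wth (lkp [])) l20372 = true ∧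
    allY (E.wth (lkp [])) l20373 = true ∧
    allY (E.wth (lkp [])) l20374 = true ∧
    allY (E.wth (lkp [])) l20375 = true ∧
    allY (E.wth (lkp [])) l20376 = true ∧
    allY (E.wth (lkp [])) l20377 = true ∧
    allY (E.wth (lkp [])) l20378 = true ∧
    allY (E.wth (lkp [])) l20379 = true :=
  ⟨by decide +kernel, by decide +kernel, by decide +kernel, by decide +kernel, by decide +kernel, by decide +kernel, by decide +kernel, by decide +kernel⟩

def t20380 : allY (E.wth (lkp [])) l20380 = true ∧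
    allY (E.wth (lkp [])) l20381 = true ∧
    allY (E.wth (lkp [])) l20382 = true ∧
    allY (E.wth (lkp [])) l20383 = true ∧
    allY (E.wth (lkp [])) l20384 = true ∧
    allY (E.wth (lkp [])) l20385 = true ∧
    allY (E.wth (lkp [])) l20386 = true ∧
    allY (E.wth (lkp [])) l20387 = true :=
  ⟨by decide +kernel, by decide +kernel, by decide +kernel, by decide +kernel, by decide +kernel, by decide +kernel, by decide +kernel, by decide +kernel⟩

def t20388 : allY (E.wth (lkp [])) l20388 = true ∧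
    allY (E.wth (lkp [])) l20389 = true ∧
    allY (E.wth (lkp [])) l20390 = true ∧
    allY (E.wth (lkp [])) l20391 = true ∧
    allY (E.wth (lkp [])) l20392 = true ∧
    allY (E.wth (lkp [])) l20393 = true ∧
    allY (E.wth (lkp [])) l20394 = true ∧
    allY (E.wth (lkp [])) l20395 = true :=
  ⟨by decide +kernel, by decide +kernel, by decide +kernel, by decide +kernel, by decide +kernel, by decide +kernel, by decide +kernel, by decide +kernel⟩

def t20396 : allY (E.wth (lkp [])) l20396 = true ∧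
    allY (E.wth (lkp [])) l20397 = true ∧
    allY (E.wth (lkp [])) l20398 = true ∧
    allY (E.wth (lkp [])) l20399 = true ∧
    allY (E.wth (lkp [])) l20400 = true ∧
    allY (E.wth (lkp [])) l20401 = true ∧
    allY (E.wth (lkp [])) l20402 = true ∧
    allY (E.wth (lkp [])) l20403 = true :=
  ⟨by decide +kernel, by decide +kernel, by decide +kernel, by decide +kernel, by decide +kernel, by decide +kernel, by decide +kernel, by decide +kernel⟩

def t20404 : allY (E.wth (lkp [])) l20404 = true ∧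
    allY (E.wth (lkp [])) l20405 = true ∧
    allY (E.wth (lkp [])) l20406 = true ∧
    allY (E.wth (lkp [])) l20407 = true ∧
    allY (E.wth (lkp [])) l20408 = true ∧
    allY (E.wth (lkp [])) l20409 = true ∧
    allY (E.wth (lkp [])) l20410 = true ∧
    allY (E.wth (lkp [])) l20411 = true :=
  ⟨by decide +kernel, by decide +kernel, by decide +kernel, by decide +kernel, by decide +kernel, by decide +kernel, by decide +kernel, by decide +kernel⟩

def t20412 : allY (E.wth (lkp [])) l20412 = true ∧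
    allY (E.wth (lkp [])) l20413 = true ∧
    allY (E.wth (lkp [])) l20414 = true ∧
    allY (E.wth (lkp [])) l20415 = true ∧
    allY (E.wth (lkp [])) l20416 = true ∧
    allY (E.wth (lkp [])) l20417 = true ∧
    allY (E.wth (lkp [])) l20418 = true ∧
    allY (E.wth (lkp [])) l20419 = true :=
  ⟨by decide +kernel, by decide +kernel, by decide +kernel, by decide +kernel, by decide +kernel, by decide +kernel, by decide +kernel, by decide +kernel⟩

def t20420 : allY (E.wth (lkp [])) l20420 = true ∧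
    allY (E.wth (lkp [])) l20421 = true ∧
    allY (E.wth (lkp [])) l20422 = true ∧
    allY (E.wth (lkp [])) l20423 = true ∧
    allY (E.wth (lkp [])) l20424 = true ∧
    allY (E.wth (lkp [])) l20425 = true ∧
    allY (E.wth (lkp [])) l20426 = true ∧
    allY (E.wth (lkp [])) l20427 = true :=
  ⟨by decide +kernel, by decide +kernel, by decide +kernel, by decide +kernel, by decide +kernel, by decide +kernel, by decide +kernel, by decide +kernel⟩

def t20428 : allY (E.wth (lkp [])) l20428 = true ∧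
    allY (E.wth (lkp [])) l20429 = true ∧
    allY (E.wth (lkp [])) l20430 = true ∧
    allY (E.wth (lkp [])) l20431 = true ∧
    allY (E.wth (lkp [])) l20432 = true ∧
    allY (E.wth (lkp [])) l20433 = true ∧
    allY (E.wth (lkp [])) l20434 = true ∧
    allY (E.wth (lkp [])) l20435 = true :=
  ⟨by decide +kernel, by decide +kernel, by decide +kernel, by decide +kernel, by decide +kernel, by decide +kernel, by decide +kernel, by decide +kernel⟩

def t20436 : allY (E.wth (lkp [])) l20436 = true ∧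
    allY (E.wth (lkp [])) l20437 = true ∧
    allY (E.wth (lkp [])) l20438 = true ∧
    allY (E.wth (lkp [])) l20439 = true ∧
    allY (E.wth (lkp [])) l20440 = true ∧
    allY (E.wth (lkp [])) l20441 = true ∧
    allY (E.wth (lkp [])) l20442 = true ∧
    allY (E.wth (lkp [])) l20443 = true :=
  ⟨by decide +kernel, by decide +kernel, by decide +kernel, by decide +kernel, by decide +kernel, by decide +kernel, by decide +kernel, by decide +kernel⟩

def t20444 : allY (E.wth (lkp [])) l20444 = true ∧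
    allY (E.wth (lkp [])) l20445 = true ∧
    allY (E.wth (lkp [])) l20446 = true ∧
    allY (E.wth (lkp [])) l20447 = true ∧
    allY (E.wth (lkp [])) l20448 = true ∧
    allY (E.wth (lkp [])) l20449 = true ∧
    allY (E.wth (lkp [])) l20450 = true ∧
    allY (E.wth (lkp [])) l20451 = true :=
  ⟨by decide +kernel, by decide +kernel, by decide +kernel, by decide +kernel, by decide +kernel, by decide +kernel, by decide +kernel, by decide +kernel⟩

def t20452 : allY (E.wth (lkp [])) l20452 = true ∧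
    allY (E.wth (lkp [])) l20453 = true ∧
    allY (E.wth (lkp [])) l20454 = true ∧
    allY (E.wth (lkp [])) l20455 = true ∧
    allY (E.wth (lkp [])) l20456 = true ∧
    allY (E.wth (lkp [])) l20457 = true ∧
    allY (E.wth (lkp [])) l20458 = true ∧
    allY (E.wth (lkp [])) l20459 = true :=
  ⟨by decide +kernel, by decide +kernel, by decide +kernel, by decide +kernel, by decide +kernel, by decide +kernel, by decide +kernel, by decide +kernel⟩

def t20460 : allY (E.wth (lkp [])) l20460 = true ∧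
    allY (E.wth (lkp [])) l20461 = true ∧
    allY (E.wth (lkp [])) l20462 = true ∧
    allY (E.wth (lkp [])) l20463 = true ∧
    allY (E.wth (lkp [])) l20464 = true ∧
    allY (E.wth (lkp [])) l20465 = true ∧
    allY (E.wth (lkp [])) l20466 = true ∧
    allY (E.wth (lkp [])) l20467 = true :=
  ⟨by decide +kernel, by decide +kernel, by decide +kernel, by decide +kernel, by decide +kernel, by decide +kernel, by decide +kernel, by decide +kernel⟩

def t20468 : allY (E.wth (lkp [])) l20468 = true ∧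
    allY (E.wth (lkp [])) l20469 = true ∧
    allY (E.wth (lkp [])) l20470 = true ∧
    allY (E.wth (lkp [])) l20471 = true ∧
    allY (E.wth (lkp [])) l20472 = true ∧
    allY (E.wth (lkp [])) l20473 = true ∧
    allY (E.wth (lkp [])) l20474 = true ∧
    allY (E.wth (lkp [])) l20475 = true :=
  ⟨by decide +kernel, by decide +kernel, by decide +kernel, by decide +kernel, by decide +kernel, by decide +kernel, by decide +kernel, by decide +kernel⟩

def t20476 : allY (E.wth (lkp [])) l20476 = true ∧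
    allY (E.wth (lkp [])) l20477 = true ∧
    allY (E.wth (lkp [])) l20478 = true ∧
    allY (E.wth (lkp [])) l20479 = true ∧
    allY (E.wth (lkp [])) l20480 = true ∧
    allY (E.wth (lkp [])) l20481 = true ∧
    allY (E.wth (lkp [])) l20482 = true ∧
    allY (E.wth (lkp [])) l20483 = true :=
  ⟨by decide +kernel, by decide +kernel, by decide +kernel, by decide +kernel, by decide +kernel, by decide +kernel, by decide +kernel, by decide +kernel⟩

def t20484 : allY (E.wth (lkp [])) l20484 = true ∧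
    allY (E.wth (lkp [])) l20485 = true ∧
    allY (E.wth (lkp [])) l20486 = true ∧
    allY (E.wth (lkp [])) l20487 = true ∧
    allY (E.wth (lkp [])) l20488 = true ∧
    allY (E.wth (lkp [])) l20489 = true ∧
    allY (E.wth (lkp [])) l20490 = true ∧
    allY (E.wth (lkp [])) l20491 = true :=
  ⟨by decide +kernel, by decide +kernel, by decide +kernel, by decide +kernel, by decide +kernel, by decide +kernel, by decide +kernel, by decide +kernel⟩

def t20492 : allY (E.wth (lkp [])) l20492 = true ∧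
    allY (E.wth (lkp [])) l20493 = true ∧
    allY (E.wth (lkp [])) l20494 = true ∧
    allY (E.wth (lkp [])) l20495 = true ∧
    allY (E.wth (lkp [])) l20496 = true ∧
    allY (E.wth (lkp [])) l20497 = true ∧
    allY (E.wth (lkp [])) l20498 = true ∧
    allY (E.wth (lkp [])) l20499 = true :=
  ⟨by decide +kernel, by decide +kernel, by decide +kernel, by decide +kernel, by decide +kernel, by decide +kernel, by decide +kernel, by decide +kernel⟩

def t20500 : allY (E.wth (lkp [])) l20500 = true ∧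
    allY (E.wth (lkp [])) l20501 = true ∧
    allY (E.wth (lkp [])) l20502 = true ∧
    allY (E.wth (lkp [])) l20503 = true ∧
    allY (E.wth (lkp [])) l20504 = true ∧
    allY (E.wth (lkp [])) l20505 = true ∧
    allY (E.wth (lkp [])) l20506 = true ∧
    allY (E.wth (lkp [])) l20507 = true :=
  ⟨by decide +kernel, by decide +kernel, by decide +kernel, by decide +kernel, by decide +kernel, by decide +kernel, by decide +kernel, by decide +kernel⟩

def t20508 : allY (E.wth (lkp [])) l20508 = true ∧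
    allY (E.wth (lkp [])) l20509 = true ∧
    allY (E.wth (lkp [])) l20510 = true ∧
    allY (E.wth (lkp [])) l20511 = true ∧
    allY (E.wth (lkp [])) l20512 = true ∧
    allY (E.wth (lkp [])) l20513 = true ∧
    allY (E.wth (lkp [])) l20514 = true ∧
    allY (E.wth (lkp [])) l20515 = true :=
  ⟨by decide +kernel, by decide +kernel, by decide +kernel, by decide +kernel, by decide +kernel, by decide +kernel, by decide +kernel, by decide +kernel⟩

def t20516 : allY (E.wth (lkp [])) l20516 = true ∧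
    allY (E.wth (lkp [])) l20517 = true ∧
    allY (E.wth (lkp [])) l20518 = true ∧
    allY (E.wth (lkp [])) l20519 = true ∧
    allY (E.wth (lkp [])) l20520 = true ∧
    allY (E.wth (lkp [])) l20521 = true ∧
    allY (E.wth (lkp [])) l20522 = true ∧
    allY (E.wth (lkp [])) l20523 = true :=
  ⟨by decide +kernel, by decide +kernel, by decide +kernel, by decide +kernel, by decide +kernel, by decide +kernel, by decide +kernel, by decide +kernel⟩

def t20524 : allY (E.wth (lkp [])) l20524 = true ∧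
    allY (E.wth (lkp [])) l20525 = true ∧
    allY (E.wth (lkp [])) l20526 = true ∧
    allY (E.wth (lkp [])) l20527 = true ∧
    allY (E.wth (lkp [])) l20528 = true ∧
    allY (E.wth (lkp [])) l20529 = true ∧
    allY (E.wth (lkp [])) l20530 = true ∧
    allY (E.wth (lkp [])) l20531 = true :=
  ⟨by decide +kernel, by decide +kernel, by decide +kernel, by decide +kernel, by decide +kernel, by decide +kernel, by decide +kernel, by decide +kernel⟩

def t20532 : allY (E.wth (lkp [])) l20532 = true ∧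
    allY (E.wth (lkp [])) l20533 = true ∧
    allY (E.wth (lkp [])) l20534 = true ∧
    allY (E.wth (lkp [])) l20535 = true ∧
    allY (E.wth (lkp [])) l20536 = true ∧
    allY (E.wth (lkp [])) l20537 = true ∧
    allY (E.wth (lkp [])) l20538 = true ∧
    allY (E.wth (lkp [])) l20539 = true :=
  ⟨by decide +kernel, by decide +kernel, by decide +kernel, by decide +kernel, by decide +kernel, by decide +kernel, by decide +kernel, by decide +kernel⟩

def t20540 : allY (E.wth (lkp [])) l20540 = true ∧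
    allY (E.wth (lkp [])) l20541 = true ∧
    allY (E.wth (lkp [])) l20542 = true ∧
    allY (E.wth (lkp [])) l20543 = true ∧
    allY (E.wth (lkp [])) l20544 = true ∧
    allY (E.wth (lkp [])) l20545 = true ∧
    allY (E.wth (lkp [])) l20546 = true ∧
    allY (E.wth (lkp [])) l20547 = true :=
  ⟨by decide +kernel, by decide +kernel, by decide +kernel, by decide +kernel, by decide +kernel, by decide +kernel, by decide +kernel, by decide +kernel⟩

def t20548 : allY (E.wth (lkp [])) l20548 = true ∧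
    allY (E.wth (lkp [])) l20549 = true ∧
    allY (E.wth (lkp [])) l20550 = true ∧
    allY (E.wth (lkp [])) l20551 = true ∧
    allY (E.wth (lkp [])) l20552 = true ∧
    allY (E.wth (lkp [])) l20553 = true ∧
    allY (E.wth (lkp [])) l20554 = true ∧
    allY (E.wth (lkp [])) l20555 = true :=
  ⟨by decide +kernel, by decide +kernel, by decide +kernel, by decide +kernel, by decide +kernel, by decide +kernel, by decide +kernel, by decide +kernel⟩

def t20556 : allY (E.wth (lkp [])) l20556 = true ∧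
    allY (E.wth (lkp [])) l20557 = true ∧
    allY (E.wth (lkp [])) l20558 = true ∧
    allY (E.wth (lkp [])) l20559 = true ∧
    allY (E.wth (lkp [])) l20560 = true ∧
    allY (E.wth (lkp [])) l20561 = true ∧
    allY (E.wth (lkp [])) l20562 = true ∧
    allY (E.wth (lkp [])) l20563 = true :=
  ⟨by decide +kernel, by decide +kernel, by decide +kernel, by decide +kernel, by decide +kernel, by decide +kernel, by decide +kernel, by decide +kernel⟩

def t20564 : allY (E.wth (lkp [])) l20564 = true ∧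
    allY (E.wth (lkp [])) l20565 = true ∧
    allY (E.wth (lkp [])) l20566 = true ∧
    allY (E.wth (lkp [])) l20567 = true ∧
    allY (E.wth (lkp [])) l20568 = true ∧
    allY (E.wth (lkp [])) l20569 = true ∧
    allY (E.wth (lkp [])) l20570 = true ∧
    allY (E.wth (lkp [])) l20571 = true :=
  ⟨by decide +kernel, by decide +kernel, by decide +kernel, by decide +kernel, by decide +kernel, by decide +kernel, by decide +kernel, by decide +kernel⟩

def t20572 : allY (E.wth (lkp [])) l20572 = true ∧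
    allY (E.wth (lkp [])) l20573 = true ∧
    allY (E.wth (lkp [])) l20574 = true ∧
    allY (E.wth (lkp [])) l20575 = true ∧
    allY (E.wth (lkp [])) l20576 = true ∧
    allY (E.wth (lkp [])) l20577 = true ∧
    allY (E.wth (lkp [])) l20578 = true ∧
    allY (E.wth (lkp [])) l20579 = true :=
  ⟨by decide +kernel, by decide +kernel, by decide +kernel, by decide +kernel, by decide +kernel, by decide +kernel, by decide +kernel, by decide +kernel⟩

def t20580 : allY (E.wth (lkp [])) l20580 = true ∧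
    allY (E.wth (lkp [])) l20581 = true ∧
    allY (E.wth (lkp [])) l20582 = true ∧
    allY (E.wth (lkp [])) l20583 = true ∧
    allY (E.wth (lkp [])) l20584 = true ∧
    allY (E.wth (lkp [])) l20585 = true ∧
    allY (E.wth (lkp [])) l20586 = true ∧
    allY (E.wth (lkp [])) l20587 = true :=
  ⟨by decide +kernel, by decide +kernel, by decide +kernel, by decide +kernel, by decide +kernel, by decide +kernel, by decide +kernel, by decide +kernel⟩

def t20588 : allY (E.wth (lkp [])) l20588 = true ∧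
    allY (E.wth (lkp [])) l20589 = true ∧
    allY (E.wth (lkp [])) l20590 = true ∧
    allY (E.wth (lkp [])) l20591 = true ∧
    allY (E.wth (lkp [])) l20592 = true ∧
    allY (E.wth (lkp [])) l20593 = true ∧
    allY (E.wth (lkp [])) l20594 = true ∧
    allY (E.wth (lkp [])) l20595 = true :=
  ⟨by decide +kernel, by decide +kernel, by decide +kernel, by decide +kernel, by decide +kernel, by decide +kernel, by decide +kernel, by decide +kernel⟩

def t20596 : allY (E.wth (lkp [])) l20596 = true ∧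
    allY (E.wth (lkp [])) l20597 = true ∧
    allY (E.wth (lkp [])) l20598 = true ∧
    allY (E.wth (lkp [])) l20599 = true ∧
    allY (E.wth (lkp [])) l20600 = true ∧
    allY (E.wth (lkp [])) l20601 = true ∧
    allY (E.wth (lkp [])) l20602 = true ∧
    allY (E.wth (lkp [])) l20603 = true :=
  ⟨by decide +kernel, by decide +kernel, by decide +kernel, by decide +kernel, by decide +kernel, by decide +kernel, by decide +kernel, by decide +kernel⟩

def t20604 : allY (E.wth (lkp [])) l20604 = true ∧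
    allY (E.wth (lkp [])) l20605 = true ∧
    allY (E.wth (lkp [])) l20606 = true ∧
    allY (E.wth (lkp [])) l20607 = true ∧
    allY (E.wth (lkp [])) l20608 = true ∧
    allY (E.wth (lkp [])) l20609 = true ∧
    allY (E.wth (lkp [])) l20610 = true ∧
    allY (E.wth (lkp [])) l20611 = true :=
  ⟨by decide +kernel, by decide +kernel, by decide +kernel, by decide +kernel, by decide +kernel, by decide +kernel, by decide +kernel, by decide +kernel⟩

def t20612 : allY (E.wth (lkp [])) l20612 = true ∧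
    allY (E.wth (lkp [])) l20613 = true ∧
    allY (E.wth (lkp [])) l20614 = true ∧
    allY (E.wth (lkp [])) l20615 = true ∧
    allY (E.wth (lkp [])) l20616 = true ∧
    allY (E.wth (lkp [])) l20617 = true ∧
    allY (E.wth (lkp [])) l20618 = true ∧
    allY (E.wth (lkp [])) l20619 = true :=
  ⟨by decide +kernel, by decide +kernel, by decide +kernel, by decide +kernel, by decide +kernel, by decide +kernel, by decide +kernel, by decide +kernel⟩

def t20620 : allY (E.wth (lkp [])) l20620 = true ∧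
    allY (E.wth (lkp [])) l20621 = true ∧
    allY (E.wth (lkp [])) l20622 = true ∧
    allY (E.wth (lkp [])) l20623 = true ∧
    allY (E.wth (lkp [])) l20624 = true ∧
    allY (E.wth (lkp [])) l20625 = true ∧
    allY (E.wth (lkp [])) l20626 = true ∧
    allY (E.wth (lkp [])) l20627 = true :=
  ⟨by decide +kernel, by decide +kernel, by decide +kernel, by decide +kernel, by decide +kernel, by decide +kernel, by decide +kernel, by decide +kernel⟩

def t20628 : allY (E.wth (lkp [])) l20628 = true ∧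
    allY (E.wth (lkp [])) l20629 = true ∧
    allY (E.wth (lkp [])) l20630 = true ∧
    allY (E.wth (lkp [])) l20631 = true ∧
    allY (E.wth (lkp [])) l20632 = true ∧
    allY (E.wth (lkp [])) l20633 = true ∧
    allY (E.wth (lkp [])) l20634 = true ∧
    allY (E.wth (lkp [])) l20635 = true :=
  ⟨by decide +kernel, by decide +kernel, by decide +kernel, by decide +kernel, by decide +kernel, by decide +kernel, by decide +kernel, by decide +kernel⟩

def t20636 : allY (E.wth (lkp [])) l20636 = true ∧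
    allY (E.wth (lkp [])) l20637 = true ∧
    allY (E.wth (lkp [])) l20638 = true ∧
    allY (E.wth (lkp [])) l20639 = true ∧
    allY (E.wth (lkp [])) l20640 = true ∧
    allY (E.wth (lkp [])) l20641 = true ∧
    allY (E.wth (lkp [])) l20642 = true ∧
    allY (E.wth (lkp [])) l20643 = true :=
  ⟨by decide +kernel, by decide +kernel, by decide +kernel, by decide +kernel, by decide +kernel, by decide +kernel, by decide +kernel, by decide +kernel⟩

def t20644 : allY (E.wth (lkp [])) l20644 = true ∧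
    allY (E.wth (lkp [])) l20645 = true ∧
    allY (E.wth (lkp [])) l20646 = true ∧
    allY (E.wth (lkp [])) l20647 = true ∧
    allY (E.wth (lkp [])) l20648 = true ∧
    allY (E.wth (lkp [])) l20649 = true ∧
    allY (E.wth (lkp [])) l20650 = true ∧
    allY (E.wth (lkp [])) l20651 = true :=
  ⟨by decide +kernel, by decide +kernel, by decide +kernel, by decide +kernel, by decide +kernel, by decide +kernel, by decide +kernel, by decide +kernel⟩

def t20652 : allY (E.wth (lkp [])) l20652 = true ∧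
    allY (E.wth (lkp [])) l20653 = true ∧
    allY (E.wth (lkp [])) l20654 = true ∧
    allY (E.wth (lkp [])) l20655 = true ∧
    allY (E.wth (lkp [])) l20656 = true ∧
    allY (E.wth (lkp [])) l20657 = true ∧
    allY (E.wth (lkp [])) l20658 = true ∧
    allY (E.wth (lkp [])) l20659 = true :=
  ⟨by decide +kernel, by decide +kernel, by decide +kernel, by decide +kernel, by decide +kernel, by decide +kernel, by decide +kernel, by decide +kernel⟩

def t20660 : allY (E.wth (lkp [])) l20660 = true ∧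
    allY (E.wth (lkp [])) l20661 = true ∧
    allY (E.wth (lkp [])) l20662 = true ∧
    allY (E.wth (lkp [])) l20663 = true ∧
    allY (E.wth (lkp [])) l20664 = true ∧
    allY (E.wth (lkp [])) l20665 = true ∧
    allY (E.wth (lkp [])) l20666 = true ∧
    allY (E.wth (lkp [])) l20667 = true :=
  ⟨by decide +kernel, by decide +kernel, by decide +kernel, by decide +kernel, by decide +kernel, by decide +kernel, by decide +kernel, by decide +kernel⟩

def t20668 : allY (E.wth (lkp [])) l20668 = true ∧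
    allY (E.wth (lkp [])) l20669 = true ∧
    allY (E.wth (lkp [])) l20670 = true ∧
    allY (E.wth (lkp [])) l20671 = true ∧
    allY (E.wth (lkp [])) l20672 = true ∧
    allY (E.wth (lkp [])) l20673 = true ∧
    allY (E.wth (lkp [])) l20674 = true ∧
    allY (E.wth (lkp [])) l20675 = true :=
  ⟨by decide +kernel, by decide +kernel, by decide +kernel, by decide +kernel, by decide +kernel, by decide +kernel, by decide +kernel, by decide +kernel⟩

def t20676 : allY (E.wth (lkp [])) l20676 = true ∧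
    allY (E.wth (lkp [])) l20677 = true ∧
    allY (E.wth (lkp [])) l20678 = true ∧
    allY (E.wth (lkp [])) l20679 = true ∧
    allY (E.wth (lkp [])) l20680 = true ∧
    allY (E.wth (lkp [])) l20681 = true ∧
    allY (E.wth (lkp [])) l20682 = true ∧
    allY (E.wth (lkp [])) l20683 = true :=
  ⟨by decide +kernel, by decide +kernel, by decide +kernel, by decide +kernel, by decide +kernel, by decide +kernel, by decide +kernel, by decide +kernel⟩

def t20684 : allY (E.wth (lkp [])) l20684 = true ∧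
    allY (E.wth (lkp [])) l20685 = true ∧
    allY (E.wth (lkp [])) l20686 = true ∧
    allY (E.wth (lkp [])) l20687 = true ∧
    allY (E.wth (lkp [])) l20688 = true ∧
    allY (E.wth (lkp [])) l20689 = true ∧
    allY (E.wth (lkp [])) l20690 = true ∧
    allY (E.wth (lkp [])) l20691 = true :=
  ⟨by decide +kernel, by decide +kernel, by decide +kernel, by decide +kernel, by decide +kernel, by decide +kernel, by decide +kernel, by decide +kernel⟩

def t20692 : allY (E.wth (lkp [])) l20692 = true ∧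
    allY (E.wth (lkp [])) l20693 = true ∧
    allY (E.wth (lkp [])) l20694 = true ∧
    allY (E.wth (lkp [])) l20695 = true ∧
    allY (E.wth (lkp [])) l20696 = true ∧
    allY (E.wth (lkp [])) l20697 = true ∧
    allY (E.wth (lkp [])) l20698 = true ∧
    allY (E.wth (lkp [])) l20699 = true :=
  ⟨by decide +kernel, by decide +kernel, by decide +kernel, by decide +kernel, by decide +kernel, by decide +kernel, by decide +kernel, by decide +kernel⟩

def t20700 : allY (E.wth (lkp [])) l20700 = true ∧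
    allY (E.wth (lkp [])) l20701 = true ∧
    allY (E.wth (lkp [])) l20702 = true ∧
    allY (E.wth (lkp [])) l20703 = true ∧
    allY (E.wth (lkp [])) l20704 = true ∧
    allY (E.wth (lkp [])) l20705 = true :=
  ⟨by decide +kernel, by decide +kernel, by decide +kernel, by decide +kernel, by decide +kernel, by decide +kernel⟩

theorem a36 {p : Rf → Prop} (H : ∀ l, allY (E.wth (lkp [])) l = true → (lkp l).All p) :
    b36.All p := ⟨⟨⟨⟨⟨⟨⟨⟨⟨H _ t20156.1, H _ t20156.2.1⟩, ⟨H _ t20156.2.2.1, H _ t20156.2.2.2.1⟩⟩, ⟨⟨H _ t20156.2.2.2.2.1, H _ t20156.2.2.2.2.2.1⟩, ⟨H _ t20156.2.2.2.2.2.2.1, H _ t20156.2.2.2.2.2.2.2⟩⟩⟩, ⟨⟨⟨H _ t20164.1, H _ t20164.2.1⟩, ⟨H _ t20164.2.2.1, H _ t20164.2.2.2.1⟩⟩, ⟨⟨H _ t20164.2.2.2.2.1, H _ t20164.2.2.2.2.2.1⟩, ⟨H _ t20164.2.2.2.2.2.2.1, ⟨H _ t20164.2.2.2.2.2.2.2, H _ t20172.1⟩⟩⟩⟩⟩, ⟨⟨⟨⟨H _ t20172.2.1, H _ t20172.2.2.1⟩, ⟨H _ t20172.2.2.2.1, H _ t20172.2.2.2.2.1⟩⟩, ⟨⟨H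 _ t20172.2.2.2.2.2.1, H _ t20172.2.2.2.2.2.2.1⟩, ⟨H _ t20172.2.2.2.2.2.2.2, H _ t20180.1⟩⟩⟩, ⟨⟨⟨H _ t20180.2.1, H _ t20180.2.2.1⟩, ⟨H _ t20180.2.2.2.1, H _ t20180.2.2.2.2.1⟩⟩, ⟨⟨H _ t20180.2.2.2.2.2.1, H _ t20180.2.2.2.2.2.2.1⟩, ⟨H _ t20180.2.2.2.2.2.2.2, ⟨H _ t20188.1, H _ t20188.2.1⟩⟩⟩⟩⟩⟩, ⟨⟨⟨⟨⟨H _ t20188.2.2.1, H _ t20188.2.2.2.1⟩, ⟨H _ t20188.2.2.2.2.1, H _ t20188.2.2.2.2.2.1⟩⟩, ⟨⟨H _ t20188.2.2.2.2.2.2.1, H _ t20188.2.2.2.2.2.2.2⟩, ⟨H _ t20196.1, H _ t20196.2.1⟩⟩⟩, ⟨⟨⟨H _ t20196.2.2.1, H _ t20196.2.2.2.1⟩, ⟨H _ t20196.2.2.2.2.1, H _ t20196.2.2.2.2.2.1⟩⟩, ⟨⟨H _ t20196.2.2.2.2.2.2.1, H _ t20196.2.2.2.2.2.2.2⟩, ⟨H _ t20204.1, ⟨H _ t20204.2.1, H _ t20204.2.2.1⟩⟩⟩⟩⟩, ⟨⟨⟨⟨H _ t20204.2.2.2.1, H _ t20204.2.2.2.2.1⟩, ⟨H _ t20204.2.2.2.2.2.1, H _ t20204.2.2.2.2.2.2.1⟩⟩, ⟨⟨H _ t20204.2.2.2.2.2.2.2, H _ t20212.1⟩, ⟨H _ t20212.2.1, H _ t20212.2.2.1⟩⟩⟩, ⟨⟨⟨H _ t20212.2.2.2.1, H _ t20212.2.2.2.2.1⟩, ⟨H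 _ t20212.2.2.2.2.2.1, H _ t20212.2.2.2.2.2.2.1⟩⟩, ⟨⟨H _ t20212.2.2.2.2.2.2.2, H _ t20220.1⟩, ⟨H _ t20220.2.1, ⟨H _ t20220.2.2.1, H _ t20220.2.2.2.1⟩⟩⟩⟩⟩⟩⟩, ⟨⟨⟨⟨⟨⟨H _ t20220.2.2.2.2.1, H _ t20220.2.2.2.2.2.1⟩, ⟨H _ t20220.2.2.2.2.2.2.1, H _ t20220.2.2.2.2.2.2.2⟩⟩, ⟨⟨H _ t20228.1, H _ t20228.2.1⟩, ⟨H _ t20228.2.2.1, H _ t20228.2.2.2.1⟩⟩⟩, ⟨⟨⟨H _ t20228.2.2.2.2.1, H _ t20228.2.2.2.2.2.1⟩, ⟨H _ t20228.2.2.2.2.2.2.1, H _ t20228.2.2.2.2.2.2.2⟩⟩, ⟨⟨H _ t20236.1, H _ t20236.2.1⟩, ⟨H _ t20236.2.2.1, ⟨H _ t20236.2.2.2.1, H _ t20236.2.2.2.2.1⟩⟩⟩⟩⟩, ⟨⟨⟨⟨H _ t20236.2.2.2.2.2.1, H _ t20236.2.2.2.2.2.2.1⟩, ⟨H _ t20236.2.2.2.2.2.2.2, H _ t20244.1⟩⟩, ⟨⟨H _ t20244.2.1, H _ t20244.2.2.1⟩, ⟨H _ t20244.2.2.2.1, H _ t20244.2.2.2.2.1⟩⟩⟩, ⟨⟨⟨H _ t20244.2.2.2.2.2.1, H _ t20244.2.2.2.2.2.2.1⟩, ⟨H _ t20244.2.2.2.2.2.2.2, H _ t20252.1⟩⟩, ⟨⟨H _ t20252.2.1, H _ t20252.2.2.1⟩, ⟨H _ t20252.2.2.2.1, ⟨H _ t20252.2.2.2.2.1, H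 _ t20252.2.2.2.2.2.1⟩⟩⟩⟩⟩⟩, ⟨⟨⟨⟨⟨H _ t20252.2.2.2.2.2.2.1, H _ t20252.2.2.2.2.2.2.2⟩, ⟨H _ t20260.1, H _ t20260.2.1⟩⟩, ⟨⟨H _ t20260.2.2.1, H _ t20260.2.2.2.1⟩, ⟨H _ t20260.2.2.2.2.1, H _ t20260.2.2.2.2.2.1⟩⟩⟩, ⟨⟨⟨H _ t20260.2.2.2.2.2.2.1, H _ t20260.2.2.2.2.2.2.2⟩, ⟨H _ t20268.1, H _ t20268.2.1⟩⟩, ⟨⟨H _ t20268.2.2.1, H _ t20268.2.2.2.1⟩, ⟨H _ t20268.2.2.2.2.1, ⟨H _ t20268.2.2.2.2.2.1, H _ t20268.2.2.2.2.2.2.1⟩⟩⟩⟩⟩, ⟨⟨⟨⟨H _ t20268.2.2.2.2.2.2.2, H _ t20276.1⟩, ⟨H _ t20276.2.1, H _ t20276.2.2.1⟩⟩, ⟨⟨H _ t20276.2.2.2.1, H _ t20276.2.2.2.2.1⟩, ⟨H _ t20276.2.2.2.2.2.1, ⟨H _ t20276.2.2.2.2.2.2.1, H _ t20276.2.2.2.2.2.2.2⟩⟩⟩⟩, ⟨⟨⟨H _ t20284.1, H _ t20284.2.1⟩, ⟨H _ t20284.2.2.1, H _ t20284.2.2.2.1⟩⟩, ⟨⟨H _ t20284.2.2.2.2.1, H _ t20284.2.2.2.2.2.1⟩, ⟨H _ t20284.2.2.2.2.2.2.1, ⟨H _ t20284.2.2.2.2.2.2.2, H _ t20292.1⟩⟩⟩⟩⟩⟩⟩⟩, ⟨⟨⟨⟨⟨⟨⟨H _ t20292.2.1, H _ t20292.2.2.1⟩, ⟨H _ t20292.2.2.2.1, H _ t20292.2.2.2.2.1⟩⟩,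 ⟨⟨H _ t20292.2.2.2.2.2.1, H _ t20292.2.2.2.2.2.2.1⟩, ⟨H _ t20292.2.2.2.2.2.2.2, H _ t20300.1⟩⟩⟩, ⟨⟨⟨H _ t20300.2.1, H _ t20300.2.2.1⟩, ⟨H _ t20300.2.2.2.1, H _ t20300.2.2.2.2.1⟩⟩, ⟨⟨H _ t20300.2.2.2.2.2.1, H _ t20300.2.2.2.2.2.2.1⟩, ⟨H _ t20300.2.2.2.2.2.2.2, ⟨H _ t20308.1, H _ t20308.2.1⟩⟩⟩⟩⟩, ⟨⟨⟨⟨H _ t20308.2.2.1, H _ t20308.2.2.2.1⟩, ⟨H _ t20308.2.2.2.2.1, H _ t20308.2.2.2.2.2.1⟩⟩, ⟨⟨H _ t20308.2.2.2.2.2.2.1, H _ t20308.2.2.2.2.2.2.2⟩, ⟨H _ t20316.1, H _ t20316.2.1⟩⟩⟩, ⟨⟨⟨H _ t20316.2.2.1, H _ t20316.2.2.2.1⟩, ⟨H _ t20316.2.2.2.2.1, H _ t20316.2.2.2.2.2.1⟩⟩, ⟨⟨H _ t20316.2.2.2.2.2.2.1, H _ t20316.2.2.2.2.2.2.2⟩, ⟨H _ t20324.1, ⟨H _ t20324.2.1, H _ t20324.2.2.1⟩⟩⟩⟩⟩⟩, ⟨⟨⟨⟨⟨H _ t20324.2.2.2.1, H _ t20324.2.2.2.2.1⟩, ⟨H _ t20324.2.2.2.2.2.1, H _ t20324.2.2.2.2.2.2.1⟩⟩, ⟨⟨H _ t20324.2.2.2.2.2.2.2, H _ t20332.1⟩, ⟨H _ t20332.2.1, H _ t20332.2.2.1⟩⟩⟩, ⟨⟨⟨H _ t20332.2.2.2.1, H _ t20332.2.2.2.2.1⟩,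 ⟨H _ t20332.2.2.2.2.2.1, H _ t20332.2.2.2.2.2.2.1⟩⟩, ⟨⟨H _ t20332.2.2.2.2.2.2.2, H _ t20340.1⟩, ⟨H _ t20340.2.1, ⟨H _ t20340.2.2.1, H _ t20340.2.2.2.1⟩⟩⟩⟩⟩, ⟨⟨⟨⟨H _ t20340.2.2.2.2.1, H _ t20340.2.2.2.2.2.1⟩, ⟨H _ t20340.2.2.2.2.2.2.1, H _ t20340.2.2.2.2.2.2.2⟩⟩, ⟨⟨H _ t20348.1, H _ t20348.2.1⟩, ⟨H _ t20348.2.2.1, ⟨H _ t20348.2.2.2.1, H _ t20348.2.2.2.2.1⟩⟩⟩⟩, ⟨⟨⟨H _ t20348.2.2.2.2.2.1, H _ t20348.2.2.2.2.2.2.1⟩, ⟨H _ t20348.2.2.2.2.2.2.2, H _ t20356.1⟩⟩, ⟨⟨H _ t20356.2.1, H _ t20356.2.2.1⟩, ⟨H _ t20356.2.2.2.1, ⟨H _ t20356.2.2.2.2.1, H _ t20356.2.2.2.2.2.1⟩⟩⟩⟩⟩⟩⟩, ⟨⟨⟨⟨⟨⟨H _ t20356.2.2.2.2.2.2.1, H _ t20356.2.2.2.2.2.2.2⟩, ⟨H _ t20364.1, H _ t20364.2.1⟩⟩, ⟨⟨H _ t20364.2.2.1, H _ t20364.2.2.2.1⟩, ⟨H _ t20364.2.2.2.2.1, H _ t20364.2.2.2.2.2.1⟩⟩⟩, ⟨⟨⟨H _ t20364.2.2.2.2.2.2.1, H _ t20364.2.2.2.2.2.2.2⟩, ⟨H _ t20372.1, H _ t20372.2.1⟩⟩, ⟨⟨H _ t20372.2.2.1, H _ t20372.2.2.2.1⟩, ⟨H _ t20372.2.2.2.2.1,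 ⟨H _ t20372.2.2.2.2.2.1, H _ t20372.2.2.2.2.2.2.1⟩⟩⟩⟩⟩, ⟨⟨⟨⟨H _ t20372.2.2.2.2.2.2.2, H _ t20380.1⟩, ⟨H _ t20380.2.1, H _ t20380.2.2.1⟩⟩, ⟨⟨H _ t20380.2.2.2.1, H _ t20380.2.2.2.2.1⟩, ⟨H _ t20380.2.2.2.2.2.1, H _ t20380.2.2.2.2.2.2.1⟩⟩⟩, ⟨⟨⟨H _ t20380.2.2.2.2.2.2.2, H _ t20388.1⟩, ⟨H _ t20388.2.1, H _ t20388.2.2.1⟩⟩, ⟨⟨H _ t20388.2.2.2.1, H _ t20388.2.2.2.2.1⟩, ⟨H _ t20388.2.2.2.2.2.1, ⟨H _ t20388.2.2.2.2.2.2.1, H _ t20388.2.2.2.2.2.2.2⟩⟩⟩⟩⟩⟩, ⟨⟨⟨⟨⟨H _ t20396.1, H _ t20396.2.1⟩, ⟨H _ t20396.2.2.1, H _ t20396.2.2.2.1⟩⟩, ⟨⟨H _ t20396.2.2.2.2.1, H _ t20396.2.2.2.2.2.1⟩, ⟨H _ t20396.2.2.2.2.2.2.1, H _ t20396.2.2.2.2.2.2.2⟩⟩⟩, ⟨⟨⟨H _ t20404.1, H _ t20404.2.1⟩, ⟨H _ t20404.2.2.1, H _ t20404.2.2.2.1⟩⟩, ⟨⟨H _ t20404.2.2.2.2.1, H _ t20404.2.2.2.2.2.1⟩, ⟨H _ t20404.2.2.2.2.2.2.1, ⟨H _ t20404.2.2.2.2.2.2.2, H _ t20412.1⟩⟩⟩⟩⟩, ⟨⟨⟨⟨H _ t20412.2.1, H _ t20412.2.2.1⟩, ⟨H _ t20412.2.2.2.1, H _ t20412.2.2.2.2.1⟩⟩,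 ⟨⟨H _ t20412.2.2.2.2.2.1, H _ t20412.2.2.2.2.2.2.1⟩, ⟨H _ t20412.2.2.2.2.2.2.2, ⟨H _ t20420.1, H _ t20420.2.1⟩⟩⟩⟩, ⟨⟨⟨H _ t20420.2.2.1, H _ t20420.2.2.2.1⟩, ⟨H _ t20420.2.2.2.2.1, H _ t20420.2.2.2.2.2.1⟩⟩, ⟨⟨H _ t20420.2.2.2.2.2.2.1, H _ t20420.2.2.2.2.2.2.2⟩, ⟨H _ t20428.1, ⟨H _ t20428.2.1, H _ t20428.2.2.1⟩⟩⟩⟩⟩⟩⟩⟩⟩, ⟨⟨⟨⟨⟨⟨⟨⟨H _ t20428.2.2.2.1, H _ t20428.2.2.2.2.1⟩, ⟨H _ t20428.2.2.2.2.2.1, H _ t20428.2.2.2.2.2.2.1⟩⟩, ⟨⟨H _ t20428.2.2.2.2.2.2.2, H _ t20436.1⟩, ⟨H _ t20436.2.1, H _ t20436.2.2.1⟩⟩⟩, ⟨⟨⟨H _ t20436.2.2.2.1, H _ t20436.2.2.2.2.1⟩, ⟨H _ t20436.2.2.2.2.2.1, H _ t20436.2.2.2.2.2.2.1⟩⟩, ⟨⟨H _ t20436.2.2.2.2.2.2.2, H _ t20444.1⟩, ⟨H _ t20444.2.1, ⟨H _ t20444.2.2.1, H _ t20444.2.2.2.1⟩⟩⟩⟩⟩, ⟨⟨⟨⟨H _ t20444.2.2.2.2.1, H _ t20444.2.2.2.2.2.1⟩, ⟨H _ t20444.2.2.2.2.2.2.1, H _ t20444.2.2.2.2.2.2.2⟩⟩, ⟨⟨H _ t20452.1, H _ t20452.2.1⟩, ⟨H _ t20452.2.2.1, H _ t20452.2.2.2.1⟩⟩⟩, ⟨⟨⟨H _ t20452.2.2.2.2.1,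 H _ t20452.2.2.2.2.2.1⟩, ⟨H _ t20452.2.2.2.2.2.2.1, H _ t20452.2.2.2.2.2.2.2⟩⟩, ⟨⟨H _ t20460.1, H _ t20460.2.1⟩, ⟨H _ t20460.2.2.1, ⟨H _ t20460.2.2.2.1, H _ t20460.2.2.2.2.1⟩⟩⟩⟩⟩⟩, ⟨⟨⟨⟨⟨H _ t20460.2.2.2.2.2.1, H _ t20460.2.2.2.2.2.2.1⟩, ⟨H _ t20460.2.2.2.2.2.2.2, H _ t20468.1⟩⟩, ⟨⟨H _ t20468.2.1, H _ t20468.2.2.1⟩, ⟨H _ t20468.2.2.2.1, H _ t20468.2.2.2.2.1⟩⟩⟩, ⟨⟨⟨H _ t20468.2.2.2.2.2.1, H _ t20468.2.2.2.2.2.2.1⟩, ⟨H _ t20468.2.2.2.2.2.2.2, H _ t20476.1⟩⟩, ⟨⟨H _ t20476.2.1, H _ t20476.2.2.1⟩, ⟨H _ t20476.2.2.2.1, ⟨H _ t20476.2.2.2.2.1, H _ t20476.2.2.2.2.2.1⟩⟩⟩⟩⟩, ⟨⟨⟨⟨H _ t20476.2.2.2.2.2.2.1, H _ t20476.2.2.2.2.2.2.2⟩, ⟨H _ t20484.1, H _ t20484.2.1⟩⟩, ⟨⟨H _ t20484.2.2.1, H _ t20484.2.2.2.1⟩, ⟨H _ t20484.2.2.2.2.1, H _ t20484.2.2.2.2.2.1⟩⟩⟩, ⟨⟨⟨H _ t20484.2.2.2.2.2.2.1, H _ t20484.2.2.2.2.2.2.2⟩, ⟨H _ t20492.1, H _ t20492.2.1⟩⟩, ⟨⟨H _ t20492.2.2.1, H _ t20492.2.2.2.1⟩, ⟨H _ t20492.2.2.2.2.1, ⟨H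 _ t20492.2.2.2.2.2.1, H _ t20492.2.2.2.2.2.2.1⟩⟩⟩⟩⟩⟩⟩, ⟨⟨⟨⟨⟨⟨H _ t20492.2.2.2.2.2.2.2, H _ t20500.1⟩, ⟨H _ t20500.2.1, H _ t20500.2.2.1⟩⟩, ⟨⟨H _ t20500.2.2.2.1, H _ t20500.2.2.2.2.1⟩, ⟨H _ t20500.2.2.2.2.2.1, H _ t20500.2.2.2.2.2.2.1⟩⟩⟩, ⟨⟨⟨H _ t20500.2.2.2.2.2.2.2, H _ t20508.1⟩, ⟨H _ t20508.2.1, H _ t20508.2.2.1⟩⟩, ⟨⟨H _ t20508.2.2.2.1, H _ t20508.2.2.2.2.1⟩, ⟨H _ t20508.2.2.2.2.2.1, ⟨H _ t20508.2.2.2.2.2.2.1, H _ t20508.2.2.2.2.2.2.2⟩⟩⟩⟩⟩, ⟨⟨⟨⟨H _ t20516.1, H _ t20516.2.1⟩, ⟨H _ t20516.2.2.1, H _ t20516.2.2.2.1⟩⟩, ⟨⟨H _ t20516.2.2.2.2.1, H _ t20516.2.2.2.2.2.1⟩, ⟨H _ t20516.2.2.2.2.2.2.1, H _ t20516.2.2.2.2.2.2.2⟩⟩⟩, ⟨⟨⟨H _ t20524.1, H _ t20524.2.1⟩, ⟨H _ t20524.2.2.1, H _ t20524.2.2.2.1⟩⟩, ⟨⟨H _ t20524.2.2.2.2.1, H _ t20524.2.2.2.2.2.1⟩, ⟨H _ t20524.2.2.2.2.2.2.1, ⟨H _ t20524.2.2.2.2.2.2.2, H _ t20532.1⟩⟩⟩⟩⟩⟩, ⟨⟨⟨⟨⟨H _ t20532.2.1, H _ t20532.2.2.1⟩, ⟨H _ t20532.2.2.2.1, H _ t20532.2.2.2.2.1⟩⟩,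 ⟨⟨H _ t20532.2.2.2.2.2.1, H _ t20532.2.2.2.2.2.2.1⟩, ⟨H _ t20532.2.2.2.2.2.2.2, H _ t20540.1⟩⟩⟩, ⟨⟨⟨H _ t20540.2.1, H _ t20540.2.2.1⟩, ⟨H _ t20540.2.2.2.1, H _ t20540.2.2.2.2.1⟩⟩, ⟨⟨H _ t20540.2.2.2.2.2.1, H _ t20540.2.2.2.2.2.2.1⟩, ⟨H _ t20540.2.2.2.2.2.2.2, ⟨H _ t20548.1, H _ t20548.2.1⟩⟩⟩⟩⟩, ⟨⟨⟨⟨H _ t20548.2.2.1, H _ t20548.2.2.2.1⟩, ⟨H _ t20548.2.2.2.2.1, H _ t20548.2.2.2.2.2.1⟩⟩, ⟨⟨H _ t20548.2.2.2.2.2.2.1, H _ t20548.2.2.2.2.2.2.2⟩, ⟨H _ t20556.1, ⟨H _ t20556.2.1, H _ t20556.2.2.1⟩⟩⟩⟩, ⟨⟨⟨H _ t20556.2.2.2.1, H _ t20556.2.2.2.2.1⟩, ⟨H _ t20556.2.2.2.2.2.1, H _ t20556.2.2.2.2.2.2.1⟩⟩, ⟨⟨H _ t20556.2.2.2.2.2.2.2, H _ t20564.1⟩, ⟨H _ t20564.2.1, ⟨H _ t20564.2.2.1, H _ t20564.2.2.2.1⟩⟩⟩⟩⟩⟩⟩⟩, ⟨⟨⟨⟨⟨⟨⟨H _ t20564.2.2.2.2.1, H _ t20564.2.2.2.2.2.1⟩, ⟨H _ t20564.2.2.2.2.2.2.1, H _ t20564.2.2.2.2.2.2.2⟩⟩, ⟨⟨H _ t20572.1, H _ t20572.2.1⟩, ⟨H _ t20572.2.2.1, H _ t20572.2.2.2.1⟩⟩⟩, ⟨⟨⟨H _ t20572.2.2.2.2.1,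 H _ t20572.2.2.2.2.2.1⟩, ⟨H _ t20572.2.2.2.2.2.2.1, H _ t20572.2.2.2.2.2.2.2⟩⟩, ⟨⟨H _ t20580.1, H _ t20580.2.1⟩, ⟨H _ t20580.2.2.1, ⟨H _ t20580.2.2.2.1, H _ t20580.2.2.2.2.1⟩⟩⟩⟩⟩, ⟨⟨⟨⟨H _ t20580.2.2.2.2.2.1, H _ t20580.2.2.2.2.2.2.1⟩, ⟨H _ t20580.2.2.2.2.2.2.2, H _ t20588.1⟩⟩, ⟨⟨H _ t20588.2.1, H _ t20588.2.2.1⟩, ⟨H _ t20588.2.2.2.1, H _ t20588.2.2.2.2.1⟩⟩⟩, ⟨⟨⟨H _ t20588.2.2.2.2.2.1, H _ t20588.2.2.2.2.2.2.1⟩, ⟨H _ t20588.2.2.2.2.2.2.2, H _ t20596.1⟩⟩, ⟨⟨H _ t20596.2.1, H _ t20596.2.2.1⟩, ⟨H _ t20596.2.2.2.1, ⟨H _ t20596.2.2.2.2.1, H _ t20596.2.2.2.2.2.1⟩⟩⟩⟩⟩⟩, ⟨⟨⟨⟨⟨H _ t20596.2.2.2.2.2.2.1, H _ t20596.2.2.2.2.2.2.2⟩, ⟨H _ t20604.1, H _ t20604.2.1⟩⟩, ⟨⟨H _ t20604.2.2.1, H _ t20604.2.2.2.1⟩, ⟨H _ t20604.2.2.2.2.1, H _ t20604.2.2.2.2.2.1⟩⟩⟩, ⟨⟨⟨H _ t20604.2.2.2.2.2.2.1, H _ t20604.2.2.2.2.2.2.2⟩, ⟨H _ t20612.1, H _ t20612.2.1⟩⟩, ⟨⟨H _ t20612.2.2.1, H _ t20612.2.2.2.1⟩, ⟨H _ t20612.2.2.2.2.1, ⟨H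 _ t20612.2.2.2.2.2.1, H _ t20612.2.2.2.2.2.2.1⟩⟩⟩⟩⟩, ⟨⟨⟨⟨H _ t20612.2.2.2.2.2.2.2, H _ t20620.1⟩, ⟨H _ t20620.2.1, H _ t20620.2.2.1⟩⟩, ⟨⟨H _ t20620.2.2.2.1, H _ t20620.2.2.2.2.1⟩, ⟨H _ t20620.2.2.2.2.2.1, ⟨H _ t20620.2.2.2.2.2.2.1, H _ t20620.2.2.2.2.2.2.2⟩⟩⟩⟩, ⟨⟨⟨H _ t20628.1, H _ t20628.2.1⟩, ⟨H _ t20628.2.2.1, H _ t20628.2.2.2.1⟩⟩, ⟨⟨H _ t20628.2.2.2.2.1, H _ t20628.2.2.2.2.2.1⟩, ⟨H _ t20628.2.2.2.2.2.2.1, ⟨H _ t20628.2.2.2.2.2.2.2, H _ t20636.1⟩⟩⟩⟩⟩⟩⟩, ⟨⟨⟨⟨⟨⟨H _ t20636.2.1, H _ t20636.2.2.1⟩, ⟨H _ t20636.2.2.2.1, H _ t20636.2.2.2.2.1⟩⟩, ⟨⟨H _ t20636.2.2.2.2.2.1, H _ t20636.2.2.2.2.2.2.1⟩, ⟨H _ t20636.2.2.2.2.2.2.2, H _ t20644.1⟩⟩⟩, ⟨⟨⟨H _ t20644.2.1, H _ t20644.2.2.1⟩, ⟨H _ t20644.2.2.2.1, H _ t20644.2.2.2.2.1⟩⟩, ⟨⟨H _ t20644.2.2.2.2.2.1, H _ t20644.2.2.2.2.2.2.1⟩, ⟨H _ t20644.2.2.2.2.2.2.2, ⟨H _ t20652.1, H _ t20652.2.1⟩⟩⟩⟩⟩, ⟨⟨⟨⟨H _ t20652.2.2.1, H _ t20652.2.2.2.1⟩, ⟨H _ t20652.2.2.2.2.1,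 H _ t20652.2.2.2.2.2.1⟩⟩, ⟨⟨H _ t20652.2.2.2.2.2.2.1, H _ t20652.2.2.2.2.2.2.2⟩, ⟨H _ t20660.1, H _ t20660.2.1⟩⟩⟩, ⟨⟨⟨H _ t20660.2.2.1, H _ t20660.2.2.2.1⟩, ⟨H _ t20660.2.2.2.2.1, H _ t20660.2.2.2.2.2.1⟩⟩, ⟨⟨H _ t20660.2.2.2.2.2.2.1, H _ t20660.2.2.2.2.2.2.2⟩, ⟨H _ t20668.1, ⟨H _ t20668.2.1, H _ t20668.2.2.1⟩⟩⟩⟩⟩⟩, ⟨⟨⟨⟨⟨H _ t20668.2.2.2.1, H _ t20668.2.2.2.2.1⟩, ⟨H _ t20668.2.2.2.2.2.1, H _ t20668.2.2.2.2.2.2.1⟩⟩, ⟨⟨H _ t20668.2.2.2.2.2.2.2, H _ t20676.1⟩, ⟨H _ t20676.2.1, H _ t20676.2.2.1⟩⟩⟩, ⟨⟨⟨H _ t20676.2.2.2.1, H _ t20676.2.2.2.2.1⟩, ⟨H _ t20676.2.2.2.2.2.1, H _ t20676.2.2.2.2.2.2.1⟩⟩, ⟨⟨H _ t20676.2.2.2.2.2.2.2, H _ t20684.1⟩, ⟨H _ t20684.2.1, ⟨H _ t20684.2.2.1, H _ t20684.2.2.2.1⟩⟩⟩⟩⟩, ⟨⟨⟨⟨H _ t20684.2.2.2.2.1, H _ t20684.2.2.2.2.2.1⟩, ⟨H _ t20684.2.2.2.2.2.2.1, H _ t20684.2.2.2.2.2.2.2⟩⟩, ⟨⟨H _ t20692.1, H _ t20692.2.1⟩, ⟨H _ t20692.2.2.1, ⟨H _ t20692.2.2.2.1, H _ t20692.2.2.2.2.1⟩⟩⟩⟩,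 ⟨⟨⟨H _ t20692.2.2.2.2.2.1, H _ t20692.2.2.2.2.2.2.1⟩, ⟨H _ t20692.2.2.2.2.2.2.2, H _ t20700.1⟩⟩, ⟨⟨H _ t20700.2.1, H _ t20700.2.2.1⟩, ⟨H _ t20700.2.2.2.1, ⟨H _ t20700.2.2.2.2.1, H _ t20700.2.2.2.2.2⟩⟩⟩⟩⟩⟩⟩⟩⟩⟩

end Pool.Agent.MP_c853c5_nt.X.C4950
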