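import Pool.Agent.MP_c853c5_nt.X.C4950.Env
import Pool.Agent.MP_c853c5_nt.X.C4950.D7

set_option autoImplicit false
set_option maxRecDepth 8192
set_option linter.all false

namespace Pool.Agent.MP_c853c5_nt.X.C4950

open Pool.Agent.MP_c853c5_nt.X

def t20706 : allY (E.wth (lkp [])) l20706 = true ∧
    allY (E.wth (lkp [])) l20707 = true ∧
    allY (E.wth (lkp [])) l20708 = true ∧
    allY (E.wth (lkp [])) l20709 = true ∧
    allY (E.wth (lkp [])) l20710 = true ∧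
    allY (E.wth (lkp [])) l20711 = true ∧
    allY (E.wth (lkp [])) l20712 = true ∧
    allY (E.wth (lkp [])) l20713 = true :=
  ⟨by decide +kernel, by decide +kernel, by decide +kernel, by decide +kernel, by decide +kernel, by decide +kernel, by decide +kernel, by decide +kernel⟩

def t20714 : allY (E.wth (lkp [])) l20714 = true ∧
    allY (E.wth (lkp [])) l20715 = true ∧
    allY (E.wth (lkp [])) l20716 = true ∧
    allY (E.wth (lkp [])) l20717 = true ∧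
    allY (E.wth (lkp [])) l20718 = true ∧
    allY (E.wth (lkp [])) l20719 = true ∧
    allY (E.wth (lkp [])) l20720 = true ∧
    allY (E.wth (lkp [])) l20721 = true :=
  ⟨by decide +kernel, by decide +kernel, by decide +kernel, by decide +kernel, by decide +kernel, by decide +kernel, by decide +kernel, by decide +kernel⟩

def t20722 : allY (E.wth (lkp [])) l20722 = true ∧
    allY (E.wth (lkp [])) l20723 = true ∧
    allY (E.wth (lkp [])) l20724 = true ∧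
    allY (E.wth (lkp [])) l20725 = true ∧
    allY (E.wth (lkp [])) l20726 = true ∧
    allY (E.wth (lkp [])) l20727 = true ∧
    allY (E.wth (lkp [])) l20728 = true ∧
    allY (E.wth (lkp [])) l20729 = true :=
  ⟨by decide +kernel, by decide +kernel, by decide +kernel, by decide +kernel, by decide +kernel, by decide +kernel, by decide +kernel, by decide +kernel⟩

def t20730 : allY (E.wth (lkp [])) l20730 = true ∧
    allY (E.wth (lkp [])) l20731 = true ∧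
    allY (E.wth (lkp [])) l20732 = true ∧
    allY (E.wth (lkp [])) l20733 = true ∧
    allY (E.wth (lkp [])) l20734 = true ∧
    allY (E.wth (lkp [])) l20735 = true ∧
    allY (E.wth (lkp [])) l20736 = true ∧
    allY (E.wth (lkp [])) l20737 = true :=
  ⟨by decide +kernel, by decide +kernel, by decide +kernel, by decide +kernel, by decide +kernel, by decide +kernel, by decide +kernel, by decide +kernel⟩

def t20738 : allY (E.wth (lkp [])) l20738 = true ∧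
    allY (E.wth (lkp [])) l20739 = true ∧
    allY (E.wth (lkp [])) l20740 = true ∧
    allY (E.wth (lkp [])) l20741 = true ∧
    allY (E.wth (lkp [])) l20742 = true ∧
    allY (E.wth (lkp [])) l20743 = true ∧
    allY (E.wth (lkp [])) l20744 = true ∧
    allY (E.wth (lkp [])) l20745 = true :=
  ⟨by decide +kernel, by decide +kernel, by decide +kernel, by decide +kernel, by decide +kernel, by decide +kernel, by decide +kernel, by decide +kernel⟩

def t20746 : allY (E.wth (lkp [])) l20746 = true ∧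
    allY (E.wth (lkp [])) l20747 = true ∧
    allY (E.wth (lkp [])) l20748 = true ∧
    allY (E.wth (lkp [])) l20749 = true ∧
    allY (E.wth (lkp [])) l20750 = true ∧
    allY (E.wth (lkp [])) l20751 = true ∧
    allY (E.wth (lkp [])) l20752 = true ∧
    allY (E.wth (lkp [])) l20753 = true :=
  ⟨by decide +kernel, by decide +kernel, by decide +kernel, by decide +kernel, by decide +kernel, by decide +kernel, by decide +kernel, by decide +kernel⟩

def t20754 : allY (E.wth (lkp [])) l20754 = true ∧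
    allY (E.wth (lkp [])) l20755 = true ∧
    allY (E.wth (lkp [])) l20756 = true ∧
    allY (E.wth (lkp [])) l20757 = true ∧
    allY (E.wth (lkp [])) l20758 = true ∧
    allY (E.wth (lkp [])) l20759 = true ∧
    allY (E.wth (lkp [])) l20760 = true ∧
    allY (E.wth (lkp [])) l20761 = true :=
  ⟨by decide +kernel, by decide +kernel, by decide +kernel, by decide +kernel, by decide +kernel, by decide +kernel, by decide +kernel, by decide +kernel⟩

def t20762 : allY (E.wth (lkp [])) l20762 = true ∧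
    allY (E.wth (lkp [])) l20763 = true ∧
    allY (E.wth (lkp [])) l20764 = true ∧
    allY (E.wth (lkp [])) l20765 = true ∧
    allY (E.wth (lkp [])) l20766 = true ∧
    allY (E.wth (lkp [])) l20767 = true ∧
    allY (E.wth (lkp [])) l20768 = true ∧
    allY (E.wth (lkp [])) l20769 = true :=
  ⟨by decide +kernel, by decide +kernel, by decide +kernel, by decide +kernel, by decide +kernel, by decide +kernel, by decide +kernel, by decide +kernel⟩

def t20770 : allY (E.wth (lkp [])) l20770 = true ∧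
    allY (E.wth (lkp [])) l20771 = true ∧
    allY (E.wth (lkp [])) l20772 = true ∧
    allY (E.wth (lkp [])) l20773 = true ∧
    allY (E.wth (lkp [])) l20774 = true ∧
    allY (E.wth (lkp [])) l20775 = true ∧
    allY (E.wth (lkp [])) l20776 = true ∧
    allY (E.wth (lkp [])) l20777 = true :=
  ⟨by decide +kernel, by decide +kernel, by decide +kernel, by decide +kernel, by decide +kernel, by decide +kernel, by decide +kernel, by decide +kernel⟩

def t20778 : allY (E.wth (lkp [])) l20778 = true ∧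
    allY (E.wth (lkp [])) l20779 = true ∧
    allY (E.wth (lkp [])) l20780 = true ∧
    allY (E.wth (lkp [])) l20781 = true ∧
    allY (E.wth (lkp [])) l20782 = true ∧
    allY (E.wth (lkp [])) l20783 = true ∧
    allY (E.wth (lkp [])) l20784 = true ∧
    allY (E.wth (lkp [])) l20785 = true :=
  ⟨by decide +kernel, by decide +kernel, by decide +kernel, by decide +kernel, by decide +kernel, by decide +kernel, by decide +kernel, by decide +kernel⟩

def t20786 : allY (E.wth (lkp [])) l20786 = true ∧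
    allY (E.wth (lkp [])) l20787 = true ∧
    allY (E.wth (lkp [])) l20788 = true ∧
    allY (E.wth (lkp [])) l20789 = true ∧
    allY (E.wth (lkp [])) l20790 = true ∧
    allY (E.wth (lkp [])) l20791 = true ∧
    allY (E.wth (lkp [])) l20792 = true ∧
    allY (E.wth (lkp [])) l20793 = true :=
  ⟨by decide +kernel, by decide +kernel, by decide +kernel, by decide +kernel, by decide +kernel, by decide +kernel, by decide +kernel, by decide +kernel⟩

def t20794 : allY (E.wth (lkp [])) l20794 = true ∧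
    allY (E.wth (lkp [])) l20795 = true ∧
    allY (E.wth (lkp [])) l20796 = true ∧
    allY (E.wth (lkp [])) l20797 = true ∧
    allY (E.wth (lkp [])) l20798 = true ∧
    allY (E.wth (lkp [])) l20799 = true ∧
    allY (E.wth (lkp [])) l20800 = true ∧
    allY (E.wth (lkp [])) l20801 = true :=
  ⟨by decide +kernel, by decide +kernel, by decide +kernel, by decide +kernel, by decide +kernel, by decide +kernel, by decide +kernel, by decide +kernel⟩

def t20802 : allY (E.wth (lkp [])) l20802 = true ∧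
    allY (E.wth (lkp [])) l20803 = true ∧
    allY (E.wth (lkp [])) l20804 = true ∧
    allY (E.wth (lkp [])) l20805 = true ∧
    allY (E.wth (lkp [])) l20806 = true ∧
    allY (E.wth (lkp [])) l20807 = true ∧
    allY (E.wth (lkp [])) l20808 = true ∧
    allY (E.wth (lkp [])) l20809 = true :=
  ⟨by decide +kernel, by decide +kernel, by decide +kernel, by decide +kernel, by decide +kernel, by decide +kernel, by decide +kernel, by decide +kernel⟩

def t20810 : allY (E.wth (lkp [])) l20810 = true ∧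
    allY (E.wth (lkp [])) l20811 = true ∧
    allY (E.wth (lkp [])) l20812 = true ∧
    allY (E.wth (lkp [])) l20813 = true ∧
    allY (E.wth (lkp [])) l20814 = true ∧
    allY (E.wth (lkp [])) l20815 = true ∧
    allY (E.wth (lkp [])) l20816 = true ∧
    allY (E.wth (lkp [])) l20817 = true :=
  ⟨by decide +kernel, by decide +kernel, by decide +kernel, by decide +kernel, by decide +kernel, by decide +kernel, by decide +kernel, by decide +kernel⟩

def t20818 : allY (E.wth (lkp [])) l20818 = true ∧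
    allY (E.wth (lkp [])) l20819 = true ∧
    allY (E.wth (lkp [])) l20820 = true ∧
    allY (E.wth (lkp [])) l20821 = true ∧
    allY (E.wth (lkp [])) l20822 = true ∧
    allY (E.wth (lkp [])) l20823 = true ∧
    allY (E.wth (lkp [])) l20824 = true ∧
    allY (E.wth (lkp [])) l20825 = true :=
  ⟨by decide +kernel, by decide +kernel, by decide +kernel, by decide +kernel, by decide +kernel, by decide +kernel, by decide +kernel, by decide +kernel⟩

def t20826 : allY (E.wth (lkp [])) l20826 = true ∧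
    allY (E.wth (lkp [])) l20827 = true ∧
    allY (E.wth (lkp [])) l20828 = true ∧
    allY (E.wth (lkp [])) l20829 = true ∧
    allY (E.wth (lkp [])) l20830 = true ∧
    allY (E.wth (lkp [])) l20831 = true ∧
    allY (E.wth (lkp [])) l20832 = true ∧
    allY (E.wth (lkp [])) l20833 = true :=
  ⟨by decide +kernel, by decide +kernel, by decide +kernel, by decide +kernel, by decide +kernel, by decide +kernel, by decide +kernel, by decide +kernel⟩

def t20834 : allY (E.wth (lkp [])) l20834 = true ∧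
    allY (E.wth (lkp [])) l20835 = true ∧
    allY (E.wth (lkp [])) l20836 = true ∧
    allY (E.wth (lkp [])) l20837 = true ∧
    allY (E.wth (lkp [])) l20838 = true ∧
    allY (E.wth (lkp [])) l20839 = true ∧
    allY (E.wth (lkp [])) l20840 = true ∧
    allY (E.wth (lkp [])) l20841 = true :=
  ⟨by decide +kernel, by decide +kernel, by decide +kernel, by decide +kernel, by decide +kernel, by decide +kernel, by decide +kernel, by decide +kernel⟩

def t20842 : allY (E.wth (lkp [])) l20842 = true ∧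
    allY (E.wth (lkp [])) l20843 = true ∧
    allY (E.wth (lkp [])) l20844 = true ∧
    allY (E.wth (lkp [])) l20845 = true ∧
    allY (E.wth (lkp [])) l20846 = true ∧
    allY (E.wth (lkp [])) l20847 = true ∧
    allY (E.wth (lkp [])) l20848 = true ∧
    allY (E.wth (lkp [])) l20849 = true :=
  ⟨by decide +kernel, by decide +kernel, by decide +kernel, by decide +kernel, by decide +kernel, by decide +kernel, by decide +kernel, by decide +kernel⟩

def t20850 : allY (E.wth (lkp [])) l20850 = true ∧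
    allY (E.wth (lkp [])) l20851 = true ∧
    allY (E.wth (lkp [])) l20852 = true ∧
    allY (E.wth (lkp [])) l20853 = true ∧
    allY (E.wth (lkp [])) l20854 = true ∧
    allY (E.wth (lkp [])) l20855 = true ∧
    allY (E.wth (lkp [])) l20856 = true ∧
    allY (E.wth (lkp [])) l20857 = true :=
  ⟨by decide +kernel, by decide +kernel, by decide +kernel, by decide +kernel, by decide +kernel, by decide +kernel, by decide +kernel, by decide +kernel⟩

def t20858 : allY (E.wth (lkp [])) l20858 = true ∧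
    allY (E.wth (lkp [])) l20859 = true ∧
    allY (E.wth (lkp [])) l20860 = true ∧
    allY (E.wth (lkp [])) l20861 = true ∧
    allY (E.wth (lkp [])) l20862 = true ∧
    allY (E.wth (lkp [])) l20863 = true ∧
    allY (E.wth (lkp [])) l20864 = true ∧
    allY (E.wth (lkp [])) l20865 = true :=
  ⟨by decide +kernel, by decide +kernel, by decide +kernel, by decide +kernel, by decide +kernel, by decide +kernel, by decide +kernel, by decide +kernel⟩

def t20866 : allY (E.wth (lkp [])) l20866 = true ∧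
    allY (E.wth (lkp [])) l20867 = true ∧
    allY (E.wth (lkp [])) l20868 = true ∧
    allY (E.wth (lkp [])) l20869 = true ∧
    allY (E.wth (lkp [])) l20870 = true ∧
    allY (E.wth (lkp [])) l20871 = true ∧
    allY (E.wth (lkp [])) l20872 = true ∧
    allY (E.wth (lkp [])) l20873 = true :=
  ⟨by decide +kernel, by decide +kernel, by decide +kernel, by decide +kernel, by decide +kernel, by decide +kernel, by decide +kernel, by decide +kernel⟩

def t20874 : allY (E.wth (lkp [])) l20874 = true ∧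
    allY (E.wth (lkp [])) l20875 = true ∧
    allY (E.wth (lkp [])) l20876 = true ∧
    allY (E.wth (lkp [])) l20877 = true ∧
    allY (E.wth (lkp [])) l20878 = true ∧
    allY (E.wth (lkp [])) l20879 = true ∧
    allY (E.wth (lkp [])) l20880 = true ∧
    allY (E.wth (lkp [])) l20881 = true :=
  ⟨by decide +kernel, by decide +kernel, by decide +kernel, by decide +kernel, by decide +kernel, by decide +kernel, by decide +kernel, by decide +kernel⟩

def t20882 : allY (E.wth (lkp [])) l20882 = true ∧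
    allY (E.wth (lkp [])) l20883 = true ∧
    allY (E.wth (lkp [])) l20884 = true ∧
    allY (E.wth (lkp [])) l20885 = true ∧
    allY (E.wth (lkp [])) l20886 = true ∧
    allY (E.wth (lkp [])) l20887 = true ∧
    allY (E.wth (lkp [])) l20888 = true ∧
    allY (E.wth (lkp [])) l20889 = true :=
  ⟨by decide +kernel, by decide +kernel, by decide +kernel, by decide +kernel, by decide +kernel, by decide +kernel, by decide +kernel, by decide +kernel⟩

def t20890 : allY (E.wth (lkp [])) l20890 = true ∧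
    allY (E.wth (lkp [])) l20891 = true ∧
    allY (E.wth (lkp [])) l20892 = true ∧
    allY (E.wth (lkp [])) l20893 = true ∧
    allY (E.wth (lkp [])) l20894 = true ∧
    allY (E.wth (lkp [])) l20895 = true ∧
    allY (E.wth (lkp [])) l20896 = true ∧
    allY (E.wth (lkp [])) l20897 = true :=
  ⟨by decide +kernel, by decide +kernel, by decide +kernel, by decide +kernel, by decide +kernel, by decide +kernel, by decide +kernel, by decide +kernel⟩

def t20898 : allY (E.wth (lkp [])) l20898 = true ∧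
    allY (E.wth (lkp [])) l20899 = true ∧
    allY (E.wth (lkp [])) l20900 = true ∧
    allY (E.wth (lkp [])) l20901 = true ∧
    allY (E.wth (lkp [])) l20902 = true ∧
    allY (E.wth (lkp [])) l20903 = true ∧
    allY (E.wth (lkp [])) l20904 = true ∧
    allY (E.wth (lkp [])) l20905 = true :=
  ⟨by decide +kernel, by decide +kernel, by decide +kernel, by decide +kernel, by decide +kernel, by decide +kernel, by decide +kernel, by decide +kernel⟩

def t20906 : allY (E.wth (lkp [])) l20906 = true ∧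
    allY (E.wth (lkp [])) l20907 = true ∧
    allY (E.wth (lkp [])) l20908 = true ∧
    allY (E.wth (lkp [])) l20909 = true ∧
    allY (E.wth (lkp [])) l20910 = true ∧
    allY (E.wth (lkp [])) l20911 = true ∧
    allY (E.wth (lkp [])) l20912 = true ∧
    allY (E.wth (lkp [])) l20913 = true :=
  ⟨by decide +kernel, by decide +kernel, by decide +kernel, by decide +kernel, by decide +kernel, by decide +kernel, by decide +kernel, by decide +kernel⟩

def t20914 : allY (E.wth (lkp [])) l20914 = true ∧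
    allY (E.wth (lkp [])) l20915 = true ∧
    allY (E.wth (lkp [])) l20916 = true ∧
    allY (E.wth (lkp [])) l20917 = true ∧
    allY (E.wth (lkp [])) l20918 = true ∧
    allY (E.wth (lkp [])) l20919 = true ∧
    allY (E.wth (lkp [])) l20920 = true ∧
    allY (E.wth (lkp [])) l20921 = true :=
  ⟨by decide +kernel, by decide +kernel, by decide +kernel, by decide +kernel, by decide +kernel, by decide +kernel, by decide +kernel, by decide +kernel⟩

def t20922 : allY (E.wth (lkp [])) l20922 = true ∧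
    allY (E.wth (lkp [])) l20923 = true ∧
    allY (E.wth (lkp [])) l20924 = true ∧
    allY (E.wth (lkp [])) l20925 = true ∧
    allY (E.wth (lkp [])) l20926 = true ∧
    allY (E.wth (lkp [])) l20927 = true ∧
    allY (E.wth (lkp [])) l20928 = true ∧
    allY (E.wth (lkp [])) l20929 = true :=
  ⟨by decide +kernel, by decide +kernel, by decide +kernel, by decide +kernel, by decide +kernel, by decide +kernel, by decide +kernel, by decide +kernel⟩

def t20930 : allY (E.wth (lkp [])) l20930 = true ∧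
    allY (E.wth (lkp [])) l20931 = true ∧
    allY (E.wth (lkp [])) l20932 = true ∧
    allY (E.wth (lkp [])) l20933 = true ∧
    allY (E.wth (lkp [])) l20934 = true ∧
    allY (E.wth (lkp [])) l20935 = true ∧
    allY (E.wth (lkp [])) l20936 = true ∧
    allY (E.wth (lkp [])) l20937 = true :=
  ⟨by decide +kernel, by decide +kernel, by decide +kernel, by decide +kernel, by decide +kernel, by decide +kernel, by decide +kernel, by decide +kernel⟩

def t20938 : allY (E.wth (lkp [])) l20938 = true ∧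
    allY (E.wth (lkp [])) l20939 = true ∧
    allY (E.wth (lkp [])) l20940 = true ∧
    allY (E.wth (lkp [])) l20941 = true ∧
    allY (E.wth (lkp [])) l20942 = true ∧
    allY (E.wth (lkp [])) l20943 = true ∧
    allY (E.wth (lkp [])) l20944 = true ∧
    allY (E.wth (lkp [])) l20945 = true :=
  ⟨by decide +kernel, by decide +kernel, by decide +kernel, by decide +kernel, by decide +kernel, by decide +kernel, by decide +kernel, by decide +kernel⟩

def t20946 : allY (E.wth (lkp [])) l20946 = true ∧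
    allY (E.wth (lkp [])) l20947 = true ∧
    allY (E.wth (lkp [])) l20948 = true ∧
    allY (E.wth (lkp [])) l20949 = true ∧
    allY (E.wth (lkp [])) l20950 = true ∧
    allY (E.wth (lkp [])) l20951 = true ∧
    allY (E.wth (lkp [])) l20952 = true ∧
    allY (E.wth (lkp [])) l20953 = true :=
  ⟨by decide +kernel, by decide +kernel, by decide +kernel, by decide +kernel, by decide +kernel, by decide +kernel, by decide +kernel, by decide +kernel⟩

def t20954 : allY (E.wth (lkp [])) l20954 = true ∧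
    allY (E.wth (lkp [])) l20955 = true ∧
    allY (E.wth (lkp [])) l20956 = true ∧
    allY (E.wth (lkp [])) l20957 = true ∧
    allY (E.wth (lkp [])) l20958 = true ∧
    allY (E.wth (lkp [])) l20959 = true ∧
    allY (E.wth (lkp [])) l20960 = true ∧
    allY (E.wth (lkp [])) l20961 = true :=
  ⟨by decide +kernel, by decide +kernel, by decide +kernel, by decide +kernel, by decide +kernel, by decide +kernel, by decide +kernel, by decide +kernel⟩

def t20962 : allY (E.wth (lkp [])) l20962 = true ∧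
    allY (E.wth (lkp [])) l20963 = true ∧
    allY (E.wth (lkp [])) l20964 = true ∧
    allY (E.wth (lkp [])) l20965 = true ∧
    allY (E.wth (lkp [])) l20966 = true ∧
    allY (E.wth (lkp [])) l20967 = true ∧
    allY (E.wth (lkp [])) l20968 = true ∧
    allY (E.wth (lkp [])) l20969 = true :=
  ⟨by decide +kernel, by decide +kernel, by decide +kernel, by decide +kernel, by decide +kernel, by decide +kernel, by decide +kernel, by decide +kernel⟩

def t20970 : allY (E.wth (lkp [])) l20970 = true ∧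
    allY (E.wth (lkp [])) l20971 = true ∧
    allY (E.wth (lkp [])) l20972 = true ∧
    allY (E.wth (lkp [])) l20973 = true ∧
    allY (E.wth (lkp [])) l20974 = true ∧
    allY (E.wth (lkp [])) l20975 = true ∧
    allY (E.wth (lkp [])) l20976 = true ∧
    allY (E.wth (lkp [])) l20977 = true :=
  ⟨by decide +kernel, by decide +kernel, by decide +kernel, by decide +kernel, by decide +kernel, by decide +kernel, by decide +kernel, by decide +kernel⟩

def t20978 : allY (E.wth (lkp [])) l20978 = true ∧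
    allY (E.wth (lkp [])) l20979 = true ∧
    allY (E.wth (lkp [])) l20980 = true ∧
    allY (E.wth (lkp [])) l20981 = true ∧
    allY (E.wth (lkp [])) l20982 = true ∧
    allY (E.wth (lkp [])) l20983 = true ∧
    allY (E.wth (lkp [])) l20984 = true ∧
    allY (E.wth (lkp [])) l20985 = true :=
  ⟨by decide +kernel, by decide +kernel, by decide +kernel, by decide +kernel, by decide +kernel, by decide +kernel, by decide +kernel, by decide +kernel⟩

def t20986 : allY (E.wth (lkp [])) l20986 = true ∧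
    allY (E.wth (lkp [])) l20987 = true ∧
    allY (E.wth (lkp [])) l20988 = true ∧
    allY (E.wth (lkp [])) l20989 = true ∧
    allY (E.wth (lkp [])) l20990 = true ∧
    allY (E.wth (lkp [])) l20991 = true ∧
    allY (E.wth (lkp [])) l20992 = true ∧
    allY (E.wth (lkp [])) l20993 = true :=
  ⟨by decide +kernel, by decide +kernel, by decide +kernel, by decide +kernel, by decide +kernel, by decide +kernel, by decide +kernel, by decide +kernel⟩

def t20994 : allY (E.wth (lkp [])) l20994 = true ∧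
    allY (E.wth (lkp [])) l20995 = true ∧
    allY (E.wth (lkp [])) l20996 = true ∧
    allY (E.wth (lkp [])) l20997 = true ∧
    allY (E.wth (lkp [])) l20998 = true ∧
    allY (E.wth (lkp [])) l20999 = true ∧
    allY (E.wth (lkp [])) l21000 = true ∧
    allY (E.wth (lkp [])) l21001 = true :=
  ⟨by decide +kernel, by decide +kernel, by decide +kernel, by decide +kernel, by decide +kernel, by decide +kernel, by decide +kernel, by decide +kernel⟩

def t21002 : allY (E.wth (lkp [])) l21002 = true ∧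
    allY (E.wth (lkp [])) l21003 = true ∧
    allY (E.wth (lkp [])) l21004 = true ∧
    allY (E.wth (lkp [])) l21005 = true ∧
    allY (E.wth (lkp [])) l21006 = true ∧
    allY (E.wth (lkp [])) l21007 = true ∧
    allY (E.wth (lkp [])) l21008 = true ∧
    allY (E.wth (lkp [])) l21009 = true :=
  ⟨by decide +kernel, by decide +kernel, by decide +kernel, by decide +kernel, by decide +kernel, by decide +kernel, by decide +kernel, by decide +kernel⟩

def t21010 : allY (E.wth (lkp [])) l21010 = true ∧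
    allY (E.wth (lkp [])) l21011 = true ∧
    allY (E.wth (lkp [])) l21012 = true ∧
    allY (E.wth (lkp [])) l21013 = true ∧
    allY (E.wth (lkp [])) l21014 = true ∧
    allY (E.wth (lkp [])) l21015 = true ∧
    allY (E.wth (lkp [])) l21016 = true ∧
    allY (E.wth (lkp [])) l21017 = true :=
  ⟨by decide +kernel, by decide +kernel, by decide +kernel, by decide +kernel, by decide +kernel, by decide +kernel, by decide +kernel, by decide +kernel⟩

def t21018 : allY (E.wth (lkp [])) l21018 = true ∧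
    allY (E.wth (lkp [])) l21019 = true ∧
    allY (E.wth (lkp [])) l21020 = true ∧
    allY (E.wth (lkp [])) l21021 = true ∧
    allY (E.wth (lkp [])) l21022 = true ∧
    allY (E.wth (lkp [])) l21023 = true ∧
    allY (E.wth (lkp [])) l21024 = true ∧
    allY (E.wth (lkp [])) l21025 = true :=
  ⟨by decide +kernel, by decide +kernel, by decide +kernel, by decide +kernel, by decide +kernel, by decide +kernel, by decide +kernel, by decide +kernel⟩

def t21026 : allY (E.wth (lkp [])) l21026 = true ∧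
    allY (E.wth (lkp [])) l21027 = true ∧
    allY (E.wth (lkp [])) l21028 = true ∧
    allY (E.wth (lkp [])) l21029 = true ∧
    allY (E.wth (lkp [])) l21030 = true ∧
    allY (E.wth (lkp [])) l21031 = true ∧
    allY (E.wth (lkp [])) l21032 = true ∧
    allY (E.wth (lkp [])) l21033 = true :=
  ⟨by decide +kernel, by decide +kernel, by decide +kernel, by decide +kernel, by decide +kernel, by decide +kernel, by decide +kernel, by decide +kernel⟩

def t21034 : allY (E.wth (lkp [])) l21034 = true ∧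
    allY (E.wth (lkp [])) l21035 = true ∧
    allY (E.wth (lkp [])) l21036 = true ∧
    allY (E.wth (lkp [])) l21037 = true ∧
    allY (E.wth (lkp [])) l21038 = true ∧
    allY (E.wth (lkp [])) l21039 = true ∧
    allY (E.wth (lkp [])) l21040 = true ∧
    allY (E.wth (lkp [])) l21041 = true :=
  ⟨by decide +kernel, by decide +kernel, by decide +kernel, by decide +kernel, by decide +kernel, by decide +kernel, by decide +kernel, by decide +kernel⟩

def t21042 : allY (E.wth (lkp [])) l21042 = true ∧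
    allY (E.wth (lkp [])) l21043 = true ∧
    allY (E.wth (lkp [])) l21044 = true ∧
    allY (E.wth (lkp [])) l21045 = true ∧
    allY (E.wth (lkp [])) l21046 = true ∧
    allY (E.wth (lkp [])) l21047 = true ∧
    allY (E.wth (lkp [])) l21048 = true ∧
    allY (E.wth (lkp [])) l21049 = true :=
  ⟨by decide +kernel, by decide +kernel, by decide +kernel, by decide +kernel, by decide +kernel, by decide +kernel, by decide +kernel, by decide +kernel⟩

def t21050 : allY (E.wth (lkp [])) l21050 = true ∧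
    allY (E.wth (lkp [])) l21051 = true ∧
    allY (E.wth (lkp [])) l21052 = true ∧
    allY (E.wth (lkp [])) l21053 = true ∧
    allY (E.wth (lkp [])) l21054 = true ∧
    allY (E.wth (lkp [])) l21055 = true ∧
    allY (E.wth (lkp [])) l21056 = true ∧
    allY (E.wth (lkp [])) l21057 = true :=
  ⟨by decide +kernel, by decide +kernel, by decide +kernel, by decide +kernel, by decide +kernel, by decide +kernel, by decide +kernel, by decide +kernel⟩

def t21058 : allY (E.wth (lkp [])) l21058 = true ∧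
    allY (E.wth (lkp [])) l21059 = true ∧
    allY (E.wth (lkp [])) l21060 = true ∧
    allY (E.wth (lkp [])) l21061 = true ∧
    allY (E.wth (lkp [])) l21062 = true ∧
    allY (E.wth (lkp [])) l21063 = true ∧
    allY (E.wth (lkp [])) l21064 = true ∧
    allY (E.wth (lkp [])) l21065 = true :=
  ⟨by decide +kernel, by decide +kernel, by decide +kernel, by decide +kernel, by decide +kernel, by decide +kernel, by decide +kernel, by decide +kernel⟩

def t21066 : allY (E.wth (lkp [])) l21066 = true ∧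
    allY (E.wth (lkp [])) l21067 = true ∧
    allY (E.wth (lkp [])) l21068 = true ∧
    allY (E.wth (lkp [])) l21069 = true ∧
    allY (E.wth (lkp [])) l21070 = true ∧
    allY (E.wth (lkp [])) l21071 = true ∧
    allY (E.wth (lkp [])) l21072 = true ∧
    allY (E.wth (lkp [])) l21073 = true :=
  ⟨by decide +kernel, by decide +kernel, by decide +kernel, by decide +kernel, by decide +kernel, by decide +kernel, by decide +kernel, by decide +kernel⟩

def t21074 : allY (E.wth (lkp [])) l21074 = true ∧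
    allY (E.wth (lkp [])) l21075 = true ∧
    allY (E.wth (lkp [])) l21076 = true ∧
    allY (E.wth (lkp [])) l21077 = true ∧
    allY (E.wth (lkp [])) l21078 = true ∧
    allY (E.wth (lkp [])) l21079 = true ∧
    allY (E.wth (lkp [])) l21080 = true ∧
    allY (E.wth (lkp [])) l21081 = true :=
  ⟨by decide +kernel, by decide +kernel, by decide +kernel, by decide +kernel, by decide +kernel, by decide +kernel, by decide +kernel, by decide +kernel⟩

def t21082 : allY (E.wth (lkp [])) l21082 = true ∧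
    allY (E.wth (lkp [])) l21083 = true ∧
    allY (E.wth (lkp [])) l21084 = true ∧
    allY (E.wth (lkp [])) l21085 = true ∧
    allY (E.wth (lkp [])) l21086 = true ∧
    allY (E.wth (lkp [])) l21087 = true ∧
    allY (E.wth (lkp [])) l21088 = true ∧
    allY (E.wth (lkp [])) l21089 = true :=
  ⟨by decide +kernel, by decide +kernel, by decide +kernel, by decide +kernel, by decide +kernel, by decide +kernel, by decide +kernel, by decide +kernel⟩

def t21090 : allY (E.wth (lkp [])) l21090 = true ∧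
    allY (E.wth (lkp [])) l21091 = true ∧
    allY (E.wth (lkp [])) l21092 = true ∧
    allY (E.wth (lkp [])) l21093 = true ∧
    allY (E.wth (lkp [])) l21094 = true ∧
    allY (E.wth (lkp [])) l21095 = true ∧
    allY (E.wth (lkp [])) l21096 = true ∧
    allY (E.wth (lkp [])) l21097 = true :=
  ⟨by decide +kernel, by decide +kernel, by decide +kernel, by decide +kernel, by decide +kernel, by decide +kernel, by decide +kernel, by decide +kernel⟩

def t21098 : allY (E.wth (lkp [])) l21098 = true ∧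
    allY (E.wth (lkp [])) l21099 = true ∧
    allY (E.wth (lkp [])) l21100 = true ∧
    allY (E.wth (lkp [])) l21101 = true ∧
    allY (E.wth (lkp [])) l21102 = true ∧
    allY (E.wth (lkp [])) l21103 = true ∧
    allY (E.wth (lkp [])) l21104 = true ∧
    allY (E.wth (lkp [])) l21105 = true :=
  ⟨by decide +kernel, by decide +kernel, by decide +kernel, by decide +kernel, by decide +kernel, by decide +kernel, by decide +kernel, by decide +kernel⟩

def t21106 : allY (E.wth (lkp [])) l21106 = true ∧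
    allY (E.wth (lkp [])) l21107 = true ∧
    allY (E.wth (lkp [])) l21108 = true ∧
    allY (E.wth (lkp [])) l21109 = true ∧
    allY (E.wth (lkp [])) l21110 = true ∧
    allY (E.wth (lkp [])) l21111 = true ∧
    allY (E.wth (lkp [])) l21112 = true ∧
    allY (E.wth (lkp [])) l21113 = true :=
  ⟨by decide +kernel, by decide +kernel, by decide +kernel, by decide +kernel, by decide +kernel, by decide +kernel, by decide +kernel, by decide +kernel⟩

def t21114 : allY (E.wth (lkp [])) l21114 = true ∧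
    allY (E.wth (lkp [])) l21115 = true ∧
    allY (E.wth (lkp [])) l21116 = true ∧
    allY (E.wth (lkp [])) l21117 = true ∧
    allY (E.wth (lkp [])) l21118 = true ∧
    allY (E.wth (lkp [])) l21119 = true ∧
    allY (E.wth (lkp [])) l21120 = true ∧
    allY (E.wth (lkp [])) l21121 = true :=
  ⟨by decide +kernel, by decide +kernel, by decide +kernel, by decide +kernel, by decide +kernel, by decide +kernel, by decide +kernel, by decide +kernel⟩

def t21122 : allY (E.wth (lkp [])) l21122 = true ∧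
    allY (E.wth (lkp [])) l21123 = true ∧
    allY (E.wth (lkp [])) l21124 = true ∧
    allY (E.wth (lkp [])) l21125 = true ∧
    allY (E.wth (lkp [])) l21126 = true ∧
    allY (E.wth (lkp [])) l21127 = true ∧
    allY (E.wth (lkp [])) l21128 = true ∧
    allY (E.wth (lkp [])) l21129 = true :=
  ⟨by decide +kernel, by decide +kernel, by decide +kernel, by decide +kernel, by decide +kernel, by decide +kernel, by decide +kernel, by decide +kernel⟩

def t21130 : allY (E.wth (lkp [])) l21130 = true ∧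
    allY (E.wth (lkp [])) l21131 = true ∧
    allY (E.wth (lkp [])) l21132 = true ∧
    allY (E.wth (lkp [])) l21133 = true ∧
    allY (E.wth (lkp [])) l21134 = true ∧
    allY (E.wth (lkp [])) l21135 = true ∧
    allY (E.wth (lkp [])) l21136 = true ∧
    allY (E.wth (lkp [])) l21137 = true :=
  ⟨by decide +kernel, by decide +kernel, by decide +kernel, by decide +kernel, by decide +kernel, by decide +kernel, by decide +kernel, by decide +kernel⟩

def t21138 : allY (E.wth (lkp [])) l21138 = true ∧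
    allY (E.wth (lkp [])) l21139 = true ∧
    allY (E.wth (lkp [])) l21140 = true ∧
    allY (E.wth (lkp [])) l21141 = true ∧
    allY (E.wth (lkp [])) l21142 = true ∧
    allY (E.wth (lkp [])) l21143 = true ∧
    allY (E.wth (lkp [])) l21144 = true ∧
    allY (E.wth (lkp [])) l21145 = true :=
  ⟨by decide +kernel, by decide +kernel, by decide +kernel, by decide +kernel, by decide +kernel, by decide +kernel, by decide +kernel, by decide +kernel⟩

def t21146 : allY (E.wth (lkp [])) l21146 = true ∧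
    allY (E.wth (lkp [])) l21147 = true ∧
    allY (E.wth (lkp [])) l21148 = true ∧
    allY (E.wth (lkp [])) l21149 = true ∧
    allY (E.wth (lkp [])) l21150 = true ∧
    allY (E.wth (lkp [])) l21151 = true ∧
    allY (E.wth (lkp [])) l21152 = true ∧
    allY (E.wth (lkp [])) l21153 = true :=
  ⟨by decide +kernel, by decide +kernel, by decide +kernel, by decide +kernel, by decide +kernel, by decide +kernel, by decide +kernel, by decide +kernel⟩

def t21154 : allY (E.wth (lkp [])) l21154 = true ∧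
    allY (E.wth (lkp [])) l21155 = true ∧
    allY (E.wth (lkp [])) l21156 = true ∧
    allY (E.wth (lkp [])) l21157 = true ∧
    allY (E.wth (lkp [])) l21158 = true ∧
    allY (E.wth (lkp [])) l21159 = true ∧
    allY (E.wth (lkp [])) l21160 = true ∧
    allY (E.wth (lkp [])) l21161 = true :=
  ⟨by decide +kernel, by decide +kernel, by decide +kernel, by decide +kernel, by decide +kernel, by decide +kernel, by decide +kernel, by decide +kernel⟩

def t21162 : allY (E.wth (lkp [])) l21162 = true ∧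
    allY (E.wth (lkp [])) l21163 = true ∧
    allY (E.wth (lkp [])) l21164 = true ∧
    allY (E.wth (lkp [])) l21165 = true ∧
    allY (E.wth (lkp [])) l21166 = true ∧
    allY (E.wth (lkp [])) l21167 = true ∧
    allY (E.wth (lkp [])) l21168 = true ∧
    allY (E.wth (lkp [])) l21169 = true :=
  ⟨by decide +kernel, by decide +kernel, by decide +kernel, by decide +kernel, by decide +kernel, by decide +kernel, by decide +kernel, by decide +kernel⟩

def t21170 : allY (E.wth (lkp [])) l21170 = true ∧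
    allY (E.wth (lkp [])) l21171 = true ∧
    allY (E.wth (lkp [])) l21172 = true ∧
    allY (E.wth (lkp [])) l21173 = true ∧
    allY (E.wth (lkp [])) l21174 = true ∧
    allY (E.wth (lkp [])) l21175 = true ∧
    allY (E.wth (lkp [])) l21176 = true ∧
    allY (E.wth (lkp [])) l21177 = true :=
  ⟨by decide +kernel, by decide +kernel, by decide +kernel, by decide +kernel, by decide +kernel, by decide +kernel, by decide +kernel, by decide +kernel⟩

def t21178 : allY (E.wth (lkp [])) l21178 = true ∧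
    allY (E.wth (lkp [])) l21179 = true ∧
    allY (E.wth (lkp [])) l21180 = true ∧
    allY (E.wth (lkp [])) l21181 = true ∧
    allY (E.wth (lkp [])) l21182 = true ∧
    allY (E.wth (lkp [])) l21183 = true ∧
    allY (E.wth (lkp [])) l21184 = true ∧
    allY (E.wth (lkp [])) l21185 = true :=
  ⟨by decide +kernel, by decide +kernel, by decide +kernel, by decide +kernel, by decide +kernel, by decide +kernel, by decide +kernel, by decide +kernel⟩

def t21186 : allY (E.wth (lkp [])) l21186 = true ∧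
    allY (E.wth (lkp [])) l21187 = true ∧
    allY (E.wth (lkp [])) l21188 = true ∧
    allY (E.wth (lkp [])) l21189 = true ∧
    allY (E.wth (lkp [])) l21190 = true ∧
    allY (E.wth (lkp [])) l21191 = true ∧
    allY (E.wth (lkp [])) l21192 = true ∧
    allY (E.wth (lkp [])) l21193 = true :=
  ⟨by decide +kernel, by decide +kernel, by decide +kernel, by decide +kernel, by decide +kernel, by decide +kernel, by decide +kernel, by decide +kernel⟩

def t21194 : allY (E.wth (lkp [])) l21194 = true ∧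
    allY (E.wth (lkp [])) l21195 = true ∧
    allY (E.wth (lkp [])) l21196 = true ∧
    allY (E.wth (lkp [])) l21197 = true ∧
    allY (E.wth (lkp [])) l21198 = true ∧
    allY (E.wth (lkp [])) l21199 = true ∧
    allY (E.wth (lkp [])) l21200 = true ∧
    allY (E.wth (lkp [])) l21201 = true :=
  ⟨by decide +kernel, by decide +kernel, by decide +kernel, by decide +kernel, by decide +kernel, by decide +kernel, by decide +kernel, by decide +kernel⟩

def t21202 : allY (E.wth (lkp [])) l21202 = true ∧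
    allY (E.wth (lkp [])) l21203 = true ∧
    allY (E.wth (lkp [])) l21204 = true ∧
    allY (E.wth (lkp [])) l21205 = true ∧
    allY (E.wth (lkp [])) l21206 = true ∧
    allY (E.wth (lkp [])) l21207 = true ∧
    allY (E.wth (lkp [])) l21208 = true ∧
    allY (E.wth (lkp [])) l21209 = true :=
  ⟨by decide +kernel, by decide +kernel, by decide +kernel, by decide +kernel, by decide +kernel, by decide +kernel, by decide +kernel, by decide +kernel⟩

def t21210 : allY (E.wth (lkp [])) l21210 = true ∧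
    allY (E.wth (lkp [])) l21211 = true ∧
    allY (E.wth (lkp [])) l21212 = true ∧
    allY (E.wth (lkp [])) l21213 = true ∧
    allY (E.wth (lkp [])) l21214 = true ∧
    allY (E.wth (lkp [])) l21215 = true ∧
    allY (E.wth (lkp [])) l21216 = true ∧
    allY (E.wth (lkp [])) l21217 = true :=
  ⟨by decide +kernel, by decide +kernel, by decide +kernel, by decide +kernel, by decide +kernel, by decide +kernel, by decide +kernel, by decide +kernel⟩

def t21218 : allY (E.wth (lkp [])) l21218 = true ∧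
    allY (E.wth (lkp [])) l21219 = true ∧
    allY (E.wth (lkp [])) l21220 = true ∧
    allY (E.wth (lkp [])) l21221 = true ∧
    allY (E.wth (lkp [])) l21222 = true ∧
    allY (E.wth (lkp [])) l21223 = true ∧
    allY (E.wth (lkp [])) l21224 = true ∧
    allY (E.wth (lkp [])) l21225 = true :=
  ⟨by decide +kernel, by decide +kernel, by decide +kernel, by decide +kernel, by decide +kernel, by decide +kernel, by decide +kernel, by decide +kernel⟩

def t21226 : allY (E.wth (lkp [])) l21226 = true ∧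
    allY (E.wth (lkp [])) l21227 = true ∧
    allY (E.wth (lkp [])) l21228 = true ∧
    allY (E.wth (lkp [])) l21229 = true ∧
    allY (E.wth (lkp [])) l21230 = true ∧
    allY (E.wth (lkp [])) l21231 = true ∧
    allY (E.wth (lkp [])) l21232 = true ∧
    allY (E.wth (lkp [])) l21233 = true :=
  ⟨by decide +kernel, by decide +kernel, by decide +kernel, by decide +kernel, by decide +kernel, by decide +kernel, by decide +kernel, by decide +kernel⟩

def t21234 : allY (E.wth (lkp [])) l21234 = true ∧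
    allY (E.wth (lkp [])) l21235 = true ∧
    allY (E.wth (lkp [])) l21236 = true ∧
    allY (E.wth (lkp [])) l21237 = true ∧
    allY (E.wth (lkp [])) l21238 = true ∧
    allY (E.wth (lkp [])) l21239 = true ∧
    allY (E.wth (lkp [])) l21240 = true ∧
    allY (E.wth (lkp [])) l21241 = true :=
  ⟨by decide +kernel, by decide +kernel, by decide +kernel, by decide +kernel, by decide +kernel, by decide +kernel, by decide +kernel, by decide +kernel⟩

def t21242 : allY (E.wth (lkp [])) l21242 = true ∧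
    allY (E.wth (lkp [])) l21243 = true ∧
    allY (E.wth (lkp [])) l21244 = true ∧
    allY (E.wth (lkp [])) l21245 = true ∧
    allY (E.wth (lkp [])) l21246 = true ∧
    allY (E.wth (lkp [])) l21247 = true ∧
    allY (E.wth (lkp [])) l21248 = true ∧
    allY (E.wth (lkp [])) l21249 = true :=
  ⟨by decide +kernel, by decide +kernel, by decide +kernel, by decide +kernel, by decide +kernel, by decide +kernel, by decide +kernel, by decide +kernel⟩

def t21250 : allY (E.wth (lkp [])) l21250 = true ∧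
    allY (E.wth (lkp [])) l21251 = true ∧
    allY (E.wth (lkp [])) l21252 = true ∧
    allY (E.wth (lkp [])) l21253 = true ∧
    allY (E.wth (lkp [])) l21254 = true ∧
    allY (E.wth (lkp [])) l21255 = true ∧
    allY (E.wth (lkp [])) l21256 = true ∧
    allY (E.wth (lkp [])) l21257 = true :=
  ⟨by decide +kernel, by decide +kernel, by decide +kernel, by decide +kernel, by decide +kernel, by decide +kernel, by decide +kernel, by decide +kernel⟩

def t21258 : allY (E.wth (lkp [])) l21258 = true ∧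
    allY (E.wth (lkp [])) l21259 = true ∧
    allY (E.wth (lkp [])) l21260 = true :=
  ⟨by decide +kernel, by decide +kernel, by decide +kernel⟩

theorem a37 {p : Rf → Prop} (H : ∀ l, allY (E.wth (lkp [])) l = true → (lkp l).All p) :
    b37.All p := ⟨⟨⟨⟨⟨⟨⟨⟨⟨H _ t20706.1, H _ t20706.2.1⟩, ⟨H _ t20706.2.2.1, H _ t20706.2.2.2.1⟩⟩, ⟨⟨H _ t20706.2.2.2.2.1, H _ t20706.2.2.2.2.2.1⟩, ⟨H _ t20706.2.2.2.2.2.2.1, H _ t20706.2.2.2.2.2.2.2⟩⟩⟩, ⟨⟨⟨H _ t20714.1, H _ t20714.2.1⟩, ⟨H _ t20714.2.2.1, H _ t20714.2.2.2.1⟩⟩, ⟨⟨H _ t20714.2.2.2.2.1, H _ t20714.2.2.2.2.2.1⟩, ⟨H _ t20714.2.2.2.2.2.2.1, ⟨H _ t20714.2.2.2.2.2.2.2, H _ t20722.1⟩⟩⟩⟩⟩, ⟨⟨⟨⟨H _ t20722.2.1, H _ t20722.2.2.1⟩, ⟨H _ t20722.2.2.2.1, H _ t20722.2.2.2.2.1⟩⟩, ⟨⟨H _ t20722.2.2.2.2.2.1, H _ t20722.2.2.2.2.2.2.1⟩, ⟨H _ t20722.2.2.2.2.2.2.2, H _ t20730.1⟩⟩⟩, ⟨⟨⟨H _ t20730.2.1, H _ t20730.2.2.1⟩, ⟨H _ t20730.2.2.2.1, H _ t20730.2.2.2.2.1⟩⟩, ⟨⟨H _ t20730.2.2.2.2.2.1,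 H _ t20730.2.2.2.2.2.2.1⟩, ⟨H _ t20730.2.2.2.2.2.2.2, ⟨H _ t20738.1, H _ t20738.2.1⟩⟩⟩⟩⟩⟩, ⟨⟨⟨⟨⟨H _ t20738.2.2.1, H _ t20738.2.2.2.1⟩, ⟨H _ t20738.2.2.2.2.1, H _ t20738.2.2.2.2.2.1⟩⟩, ⟨⟨H _ t20738.2.2.2.2.2.2.1, H _ t20738.2.2.2.2.2.2.2⟩, ⟨H _ t20746.1, H _ t20746.2.1⟩⟩⟩, ⟨⟨⟨H _ t20746.2.2.1, H _ t20746.2.2.2.1⟩, ⟨H _ t20746.2.2.2.2.1, H _ t20746.2.2.2.2.2.1⟩⟩, ⟨⟨H _ t20746.2.2.2.2.2.2.1, H _ t20746.2.2.2.2.2.2.2⟩, ⟨H _ t20754.1, ⟨H _ t20754.2.1, H _ t20754.2.2.1⟩⟩⟩⟩⟩, ⟨⟨⟨⟨H _ t20754.2.2.2.1, H _ t20754.2.2.2.2.1⟩, ⟨H _ t20754.2.2.2.2.2.1, H _ t20754.2.2.2.2.2.2.1⟩⟩, ⟨⟨H _ t20754.2.2.2.2.2.2.2, H _ t20762.1⟩, ⟨H _ t20762.2.1, ⟨H _ t20762.2.2.1, H _ t20762.2.2.2.1⟩⟩⟩⟩, ⟨⟨⟨H _ t20762.2.2.2.2.1, H _ t20762.2.2.2.2.2.1⟩, ⟨H _ t20762.2.2.2.2.2.2.1, H _ t20762.2.2.2.2.2.2.2⟩⟩, ⟨⟨H _ t20770.1, H _ t20770.2.1⟩, ⟨H _ t20770.2.2.1, ⟨H _ t20770.2.2.2.1, H _ t20770.2.2.2.2.1⟩⟩⟩⟩⟩⟩⟩, ⟨⟨⟨⟨⟨⟨H _ t20770.2.2.2.2.2.1,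 H _ t20770.2.2.2.2.2.2.1⟩, ⟨H _ t20770.2.2.2.2.2.2.2, H _ t20778.1⟩⟩, ⟨⟨H _ t20778.2.1, H _ t20778.2.2.1⟩, ⟨H _ t20778.2.2.2.1, H _ t20778.2.2.2.2.1⟩⟩⟩, ⟨⟨⟨H _ t20778.2.2.2.2.2.1, H _ t20778.2.2.2.2.2.2.1⟩, ⟨H _ t20778.2.2.2.2.2.2.2, H _ t20786.1⟩⟩, ⟨⟨H _ t20786.2.1, H _ t20786.2.2.1⟩, ⟨H _ t20786.2.2.2.1, ⟨H _ t20786.2.2.2.2.1, H _ t20786.2.2.2.2.2.1⟩⟩⟩⟩⟩, ⟨⟨⟨⟨H _ t20786.2.2.2.2.2.2.1, H _ t20786.2.2.2.2.2.2.2⟩, ⟨H _ t20794.1, H _ t20794.2.1⟩⟩, ⟨⟨H _ t20794.2.2.1, H _ t20794.2.2.2.1⟩, ⟨H _ t20794.2.2.2.2.1, H _ t20794.2.2.2.2.2.1⟩⟩⟩, ⟨⟨⟨H _ t20794.2.2.2.2.2.2.1, H _ t20794.2.2.2.2.2.2.2⟩, ⟨H _ t20802.1, H _ t20802.2.1⟩⟩, ⟨⟨H _ t20802.2.2.1, H _ t20802.2.2.2.1⟩, ⟨H _ t20802.2.2.2.2.1, ⟨H _ t20802.2.2.2.2.2.1, H _ t20802.2.2.2.2.2.2.1⟩⟩⟩⟩⟩⟩, ⟨⟨⟨⟨⟨H _ t20802.2.2.2.2.2.2.2, H _ t20810.1⟩, ⟨H _ t20810.2.1, H _ t20810.2.2.1⟩⟩, ⟨⟨H _ t20810.2.2.2.1, H _ t20810.2.2.2.2.1⟩, ⟨H _ t20810.2.2.2.2.2.1, H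 _ t20810.2.2.2.2.2.2.1⟩⟩⟩, ⟨⟨⟨H _ t20810.2.2.2.2.2.2.2, H _ t20818.1⟩, ⟨H _ t20818.2.1, H _ t20818.2.2.1⟩⟩, ⟨⟨H _ t20818.2.2.2.1, H _ t20818.2.2.2.2.1⟩, ⟨H _ t20818.2.2.2.2.2.1, ⟨H _ t20818.2.2.2.2.2.2.1, H _ t20818.2.2.2.2.2.2.2⟩⟩⟩⟩⟩, ⟨⟨⟨⟨H _ t20826.1, H _ t20826.2.1⟩, ⟨H _ t20826.2.2.1, H _ t20826.2.2.2.1⟩⟩, ⟨⟨H _ t20826.2.2.2.2.1, H _ t20826.2.2.2.2.2.1⟩, ⟨H _ t20826.2.2.2.2.2.2.1, ⟨H _ t20826.2.2.2.2.2.2.2, H _ t20834.1⟩⟩⟩⟩, ⟨⟨⟨H _ t20834.2.1, H _ t20834.2.2.1⟩, ⟨H _ t20834.2.2.2.1, H _ t20834.2.2.2.2.1⟩⟩, ⟨⟨H _ t20834.2.2.2.2.2.1, H _ t20834.2.2.2.2.2.2.1⟩, ⟨H _ t20834.2.2.2.2.2.2.2, ⟨H _ t20842.1, H _ t20842.2.1⟩⟩⟩⟩⟩⟩⟩⟩, ⟨⟨⟨⟨⟨⟨⟨H _ t20842.2.2.1, H _ t20842.2.2.2.1⟩, ⟨H _ t20842.2.2.2.2.1, H _ t20842.2.2.2.2.2.1⟩⟩, ⟨⟨H _ t20842.2.2.2.2.2.2.1, H _ t20842.2.2.2.2.2.2.2⟩, ⟨H _ t20850.1, H _ t20850.2.1⟩⟩⟩, ⟨⟨⟨H _ t20850.2.2.1, H _ t20850.2.2.2.1⟩, ⟨H _ t20850.2.2.2.2.1, H _ t20850.2.2.2.2.2.1⟩⟩,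 ⟨⟨H _ t20850.2.2.2.2.2.2.1, H _ t20850.2.2.2.2.2.2.2⟩, ⟨H _ t20858.1, ⟨H _ t20858.2.1, H _ t20858.2.2.1⟩⟩⟩⟩⟩, ⟨⟨⟨⟨H _ t20858.2.2.2.1, H _ t20858.2.2.2.2.1⟩, ⟨H _ t20858.2.2.2.2.2.1, H _ t20858.2.2.2.2.2.2.1⟩⟩, ⟨⟨H _ t20858.2.2.2.2.2.2.2, H _ t20866.1⟩, ⟨H _ t20866.2.1, H _ t20866.2.2.1⟩⟩⟩, ⟨⟨⟨H _ t20866.2.2.2.1, H _ t20866.2.2.2.2.1⟩, ⟨H _ t20866.2.2.2.2.2.1, H _ t20866.2.2.2.2.2.2.1⟩⟩, ⟨⟨H _ t20866.2.2.2.2.2.2.2, H _ t20874.1⟩, ⟨H _ t20874.2.1, ⟨H _ t20874.2.2.1, H _ t20874.2.2.2.1⟩⟩⟩⟩⟩⟩, ⟨⟨⟨⟨⟨H _ t20874.2.2.2.2.1, H _ t20874.2.2.2.2.2.1⟩, ⟨H _ t20874.2.2.2.2.2.2.1, H _ t20874.2.2.2.2.2.2.2⟩⟩, ⟨⟨H _ t20882.1, H _ t20882.2.1⟩, ⟨H _ t20882.2.2.1, H _ t20882.2.2.2.1⟩⟩⟩, ⟨⟨⟨H _ t20882.2.2.2.2.1, H _ t20882.2.2.2.2.2.1⟩, ⟨H _ t20882.2.2.2.2.2.2.1, H _ t20882.2.2.2.2.2.2.2⟩⟩, ⟨⟨H _ t20890.1, H _ t20890.2.1⟩, ⟨H _ t20890.2.2.1, ⟨H _ t20890.2.2.2.1, H _ t20890.2.2.2.2.1⟩⟩⟩⟩⟩, ⟨⟨⟨⟨H _ t20890.2.2.2.2.2.1,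 H _ t20890.2.2.2.2.2.2.1⟩, ⟨H _ t20890.2.2.2.2.2.2.2, H _ t20898.1⟩⟩, ⟨⟨H _ t20898.2.1, H _ t20898.2.2.1⟩, ⟨H _ t20898.2.2.2.1, ⟨H _ t20898.2.2.2.2.1, H _ t20898.2.2.2.2.2.1⟩⟩⟩⟩, ⟨⟨⟨H _ t20898.2.2.2.2.2.2.1, H _ t20898.2.2.2.2.2.2.2⟩, ⟨H _ t20906.1, H _ t20906.2.1⟩⟩, ⟨⟨H _ t20906.2.2.1, H _ t20906.2.2.2.1⟩, ⟨H _ t20906.2.2.2.2.1, ⟨H _ t20906.2.2.2.2.2.1, H _ t20906.2.2.2.2.2.2.1⟩⟩⟩⟩⟩⟩⟩, ⟨⟨⟨⟨⟨⟨H _ t20906.2.2.2.2.2.2.2, H _ t20914.1⟩, ⟨H _ t20914.2.1, H _ t20914.2.2.1⟩⟩, ⟨⟨H _ t20914.2.2.2.1, H _ t20914.2.2.2.2.1⟩, ⟨H _ t20914.2.2.2.2.2.1, H _ t20914.2.2.2.2.2.2.1⟩⟩⟩, ⟨⟨⟨H _ t20914.2.2.2.2.2.2.2, H _ t20922.1⟩, ⟨H _ t20922.2.1, H _ t20922.2.2.1⟩⟩, ⟨⟨H _ t20922.2.2.2.1, H _ t20922.2.2.2.2.1⟩, ⟨H _ t20922.2.2.2.2.2.1, ⟨H _ t20922.2.2.2.2.2.2.1, H _ t20922.2.2.2.2.2.2.2⟩⟩⟩⟩⟩, ⟨⟨⟨⟨H _ t20930.1, H _ t20930.2.1⟩, ⟨H _ t20930.2.2.1, H _ t20930.2.2.2.1⟩⟩, ⟨⟨H _ t20930.2.2.2.2.1, H _ t20930.2.2.2.2.2.1⟩,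 ⟨H _ t20930.2.2.2.2.2.2.1, ⟨H _ t20930.2.2.2.2.2.2.2, H _ t20938.1⟩⟩⟩⟩, ⟨⟨⟨H _ t20938.2.1, H _ t20938.2.2.1⟩, ⟨H _ t20938.2.2.2.1, H _ t20938.2.2.2.2.1⟩⟩, ⟨⟨H _ t20938.2.2.2.2.2.1, H _ t20938.2.2.2.2.2.2.1⟩, ⟨H _ t20938.2.2.2.2.2.2.2, ⟨H _ t20946.1, H _ t20946.2.1⟩⟩⟩⟩⟩⟩, ⟨⟨⟨⟨⟨H _ t20946.2.2.1, H _ t20946.2.2.2.1⟩, ⟨H _ t20946.2.2.2.2.1, H _ t20946.2.2.2.2.2.1⟩⟩, ⟨⟨H _ t20946.2.2.2.2.2.2.1, H _ t20946.2.2.2.2.2.2.2⟩, ⟨H _ t20954.1, H _ t20954.2.1⟩⟩⟩, ⟨⟨⟨H _ t20954.2.2.1, H _ t20954.2.2.2.1⟩, ⟨H _ t20954.2.2.2.2.1, H _ t20954.2.2.2.2.2.1⟩⟩, ⟨⟨H _ t20954.2.2.2.2.2.2.1, H _ t20954.2.2.2.2.2.2.2⟩, ⟨H _ t20962.1, ⟨H _ t20962.2.1, H _ t20962.2.2.1⟩⟩⟩⟩⟩, ⟨⟨⟨⟨H _ t20962.2.2.2.1, H _ t20962.2.2.2.2.1⟩, ⟨H _ t20962.2.2.2.2.2.1, H _ t20962.2.2.2.2.2.2.1⟩⟩, ⟨⟨H _ t20962.2.2.2.2.2.2.2, H _ t20970.1⟩, ⟨H _ t20970.2.1, ⟨H _ t20970.2.2.1, H _ t20970.2.2.2.1⟩⟩⟩⟩, ⟨⟨⟨H _ t20970.2.2.2.2.1, H _ t20970.2.2.2.2.2.1⟩,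 ⟨H _ t20970.2.2.2.2.2.2.1, H _ t20970.2.2.2.2.2.2.2⟩⟩, ⟨⟨H _ t20978.1, H _ t20978.2.1⟩, ⟨H _ t20978.2.2.1, ⟨H _ t20978.2.2.2.1, H _ t20978.2.2.2.2.1⟩⟩⟩⟩⟩⟩⟩⟩⟩, ⟨⟨⟨⟨⟨⟨⟨⟨H _ t20978.2.2.2.2.2.1, H _ t20978.2.2.2.2.2.2.1⟩, ⟨H _ t20978.2.2.2.2.2.2.2, H _ t20986.1⟩⟩, ⟨⟨H _ t20986.2.1, H _ t20986.2.2.1⟩, ⟨H _ t20986.2.2.2.1, H _ t20986.2.2.2.2.1⟩⟩⟩, ⟨⟨⟨H _ t20986.2.2.2.2.2.1, H _ t20986.2.2.2.2.2.2.1⟩, ⟨H _ t20986.2.2.2.2.2.2.2, H _ t20994.1⟩⟩, ⟨⟨H _ t20994.2.1, H _ t20994.2.2.1⟩, ⟨H _ t20994.2.2.2.1, ⟨H _ t20994.2.2.2.2.1, H _ t20994.2.2.2.2.2.1⟩⟩⟩⟩⟩, ⟨⟨⟨⟨H _ t20994.2.2.2.2.2.2.1, H _ t20994.2.2.2.2.2.2.2⟩, ⟨H _ t21002.1, H _ t21002.2.1⟩⟩, ⟨⟨H _ t21002.2.2.1, H _ t21002.2.2.2.1⟩, ⟨H _ t21002.2.2.2.2.1, H _ t21002.2.2.2.2.2.1⟩⟩⟩, ⟨⟨⟨H _ t21002.2.2.2.2.2.2.1, H _ t21002.2.2.2.2.2.2.2⟩, ⟨H _ t21010.1, H _ t21010.2.1⟩⟩, ⟨⟨H _ t21010.2.2.1, H _ t21010.2.2.2.1⟩, ⟨H _ t21010.2.2.2.2.1, ⟨H _ t21010.2.2.2.2.2.1,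 H _ t21010.2.2.2.2.2.2.1⟩⟩⟩⟩⟩⟩, ⟨⟨⟨⟨⟨H _ t21010.2.2.2.2.2.2.2, H _ t21018.1⟩, ⟨H _ t21018.2.1, H _ t21018.2.2.1⟩⟩, ⟨⟨H _ t21018.2.2.2.1, H _ t21018.2.2.2.2.1⟩, ⟨H _ t21018.2.2.2.2.2.1, H _ t21018.2.2.2.2.2.2.1⟩⟩⟩, ⟨⟨⟨H _ t21018.2.2.2.2.2.2.2, H _ t21026.1⟩, ⟨H _ t21026.2.1, H _ t21026.2.2.1⟩⟩, ⟨⟨H _ t21026.2.2.2.1, H _ t21026.2.2.2.2.1⟩, ⟨H _ t21026.2.2.2.2.2.1, ⟨H _ t21026.2.2.2.2.2.2.1, H _ t21026.2.2.2.2.2.2.2⟩⟩⟩⟩⟩, ⟨⟨⟨⟨H _ t21034.1, H _ t21034.2.1⟩, ⟨H _ t21034.2.2.1, H _ t21034.2.2.2.1⟩⟩, ⟨⟨H _ t21034.2.2.2.2.1, H _ t21034.2.2.2.2.2.1⟩, ⟨H _ t21034.2.2.2.2.2.2.1, ⟨H _ t21034.2.2.2.2.2.2.2, H _ t21042.1⟩⟩⟩⟩, ⟨⟨⟨H _ t21042.2.1, H _ t21042.2.2.1⟩, ⟨H _ t21042.2.2.2.1, H _ t21042.2.2.2.2.1⟩⟩, ⟨⟨H _ t21042.2.2.2.2.2.1, H _ t21042.2.2.2.2.2.2.1⟩, ⟨H _ t21042.2.2.2.2.2.2.2, ⟨H _ t21050.1, H _ t21050.2.1⟩⟩⟩⟩⟩⟩⟩, ⟨⟨⟨⟨⟨⟨H _ t21050.2.2.1, H _ t21050.2.2.2.1⟩, ⟨H _ t21050.2.2.2.2.1, H _ t21050.2.2.2.2.2.1⟩⟩,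 ⟨⟨H _ t21050.2.2.2.2.2.2.1, H _ t21050.2.2.2.2.2.2.2⟩, ⟨H _ t21058.1, H _ t21058.2.1⟩⟩⟩, ⟨⟨⟨H _ t21058.2.2.1, H _ t21058.2.2.2.1⟩, ⟨H _ t21058.2.2.2.2.1, H _ t21058.2.2.2.2.2.1⟩⟩, ⟨⟨H _ t21058.2.2.2.2.2.2.1, H _ t21058.2.2.2.2.2.2.2⟩, ⟨H _ t21066.1, ⟨H _ t21066.2.1, H _ t21066.2.2.1⟩⟩⟩⟩⟩, ⟨⟨⟨⟨H _ t21066.2.2.2.1, H _ t21066.2.2.2.2.1⟩, ⟨H _ t21066.2.2.2.2.2.1, H _ t21066.2.2.2.2.2.2.1⟩⟩, ⟨⟨H _ t21066.2.2.2.2.2.2.2, H _ t21074.1⟩, ⟨H _ t21074.2.1, ⟨H _ t21074.2.2.1, H _ t21074.2.2.2.1⟩⟩⟩⟩, ⟨⟨⟨H _ t21074.2.2.2.2.1, H _ t21074.2.2.2.2.2.1⟩, ⟨H _ t21074.2.2.2.2.2.2.1, H _ t21074.2.2.2.2.2.2.2⟩⟩, ⟨⟨H _ t21082.1, H _ t21082.2.1⟩, ⟨H _ t21082.2.2.1, ⟨H _ t21082.2.2.2.1, H _ t21082.2.2.2.2.1⟩⟩⟩⟩⟩⟩, ⟨⟨⟨⟨⟨H _ t21082.2.2.2.2.2.1, H _ t21082.2.2.2.2.2.2.1⟩, ⟨H _ t21082.2.2.2.2.2.2.2, H _ t21090.1⟩⟩, ⟨⟨H _ t21090.2.1, H _ t21090.2.2.1⟩, ⟨H _ t21090.2.2.2.1, H _ t21090.2.2.2.2.1⟩⟩⟩, ⟨⟨⟨H _ t21090.2.2.2.2.2.1,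 H _ t21090.2.2.2.2.2.2.1⟩, ⟨H _ t21090.2.2.2.2.2.2.2, H _ t21098.1⟩⟩, ⟨⟨H _ t21098.2.1, H _ t21098.2.2.1⟩, ⟨H _ t21098.2.2.2.1, ⟨H _ t21098.2.2.2.2.1, H _ t21098.2.2.2.2.2.1⟩⟩⟩⟩⟩, ⟨⟨⟨⟨H _ t21098.2.2.2.2.2.2.1, H _ t21098.2.2.2.2.2.2.2⟩, ⟨H _ t21106.1, H _ t21106.2.1⟩⟩, ⟨⟨H _ t21106.2.2.1, H _ t21106.2.2.2.1⟩, ⟨H _ t21106.2.2.2.2.1, ⟨H _ t21106.2.2.2.2.2.1, H _ t21106.2.2.2.2.2.2.1⟩⟩⟩⟩, ⟨⟨⟨H _ t21106.2.2.2.2.2.2.2, H _ t21114.1⟩, ⟨H _ t21114.2.1, H _ t21114.2.2.1⟩⟩, ⟨⟨H _ t21114.2.2.2.1, H _ t21114.2.2.2.2.1⟩, ⟨H _ t21114.2.2.2.2.2.1, ⟨H _ t21114.2.2.2.2.2.2.1, H _ t21114.2.2.2.2.2.2.2⟩⟩⟩⟩⟩⟩⟩⟩, ⟨⟨⟨⟨⟨⟨⟨H _ t21122.1, H _ t21122.2.1⟩, ⟨H _ t21122.2.2.1, H _ t21122.2.2.2.1⟩⟩, ⟨⟨H _ t21122.2.2.2.2.1, H _ t21122.2.2.2.2.2.1⟩, ⟨H _ t21122.2.2.2.2.2.2.1, H _ t21122.2.2.2.2.2.2.2⟩⟩⟩, ⟨⟨⟨H _ t21130.1, H _ t21130.2.1⟩, ⟨H _ t21130.2.2.1, H _ t21130.2.2.2.1⟩⟩, ⟨⟨H _ t21130.2.2.2.2.1, H _ t21130.2.2.2.2.2.1⟩,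 ⟨H _ t21130.2.2.2.2.2.2.1, ⟨H _ t21130.2.2.2.2.2.2.2, H _ t21138.1⟩⟩⟩⟩⟩, ⟨⟨⟨⟨H _ t21138.2.1, H _ t21138.2.2.1⟩, ⟨H _ t21138.2.2.2.1, H _ t21138.2.2.2.2.1⟩⟩, ⟨⟨H _ t21138.2.2.2.2.2.1, H _ t21138.2.2.2.2.2.2.1⟩, ⟨H _ t21138.2.2.2.2.2.2.2, H _ t21146.1⟩⟩⟩, ⟨⟨⟨H _ t21146.2.1, H _ t21146.2.2.1⟩, ⟨H _ t21146.2.2.2.1, H _ t21146.2.2.2.2.1⟩⟩, ⟨⟨H _ t21146.2.2.2.2.2.1, H _ t21146.2.2.2.2.2.2.1⟩, ⟨H _ t21146.2.2.2.2.2.2.2, ⟨H _ t21154.1, H _ t21154.2.1⟩⟩⟩⟩⟩⟩, ⟨⟨⟨⟨⟨H _ t21154.2.2.1, H _ t21154.2.2.2.1⟩, ⟨H _ t21154.2.2.2.2.1, H _ t21154.2.2.2.2.2.1⟩⟩, ⟨⟨H _ t21154.2.2.2.2.2.2.1, H _ t21154.2.2.2.2.2.2.2⟩, ⟨H _ t21162.1, H _ t21162.2.1⟩⟩⟩, ⟨⟨⟨H _ t21162.2.2.1, H _ t21162.2.2.2.1⟩, ⟨H _ t21162.2.2.2.2.1, H _ t21162.2.2.2.2.2.1⟩⟩, ⟨⟨H _ t21162.2.2.2.2.2.2.1, H _ t21162.2.2.2.2.2.2.2⟩, ⟨H _ t21170.1, ⟨H _ t21170.2.1, H _ t21170.2.2.1⟩⟩⟩⟩⟩, ⟨⟨⟨⟨H _ t21170.2.2.2.1, H _ t21170.2.2.2.2.1⟩, ⟨H _ t21170.2.2.2.2.2.1,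 H _ t21170.2.2.2.2.2.2.1⟩⟩, ⟨⟨H _ t21170.2.2.2.2.2.2.2, H _ t21178.1⟩, ⟨H _ t21178.2.1, ⟨H _ t21178.2.2.1, H _ t21178.2.2.2.1⟩⟩⟩⟩, ⟨⟨⟨H _ t21178.2.2.2.2.1, H _ t21178.2.2.2.2.2.1⟩, ⟨H _ t21178.2.2.2.2.2.2.1, H _ t21178.2.2.2.2.2.2.2⟩⟩, ⟨⟨H _ t21186.1, H _ t21186.2.1⟩, ⟨H _ t21186.2.2.1, ⟨H _ t21186.2.2.2.1, H _ t21186.2.2.2.2.1⟩⟩⟩⟩⟩⟩⟩, ⟨⟨⟨⟨⟨⟨H _ t21186.2.2.2.2.2.1, H _ t21186.2.2.2.2.2.2.1⟩, ⟨H _ t21186.2.2.2.2.2.2.2, H _ t21194.1⟩⟩, ⟨⟨H _ t21194.2.1, H _ t21194.2.2.1⟩, ⟨H _ t21194.2.2.2.1, H _ t21194.2.2.2.2.1⟩⟩⟩, ⟨⟨⟨H _ t21194.2.2.2.2.2.1, H _ t21194.2.2.2.2.2.2.1⟩, ⟨H _ t21194.2.2.2.2.2.2.2, H _ t21202.1⟩⟩, ⟨⟨H _ t21202.2.1, H _ t21202.2.2.1⟩, ⟨H _ t21202.2.2.2.1, ⟨H _ t21202.2.2.2.2.1, H _ t21202.2.2.2.2.2.1⟩⟩⟩⟩⟩, ⟨⟨⟨⟨H _ t21202.2.2.2.2.2.2.1, H _ t21202.2.2.2.2.2.2.2⟩, ⟨H _ t21210.1, H _ t21210.2.1⟩⟩, ⟨⟨H _ t21210.2.2.1, H _ t21210.2.2.2.1⟩, ⟨H _ t21210.2.2.2.2.1, ⟨H _ t21210.2.2.2.2.2.1,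 H _ t21210.2.2.2.2.2.2.1⟩⟩⟩⟩, ⟨⟨⟨H _ t21210.2.2.2.2.2.2.2, H _ t21218.1⟩, ⟨H _ t21218.2.1, H _ t21218.2.2.1⟩⟩, ⟨⟨H _ t21218.2.2.2.1, H _ t21218.2.2.2.2.1⟩, ⟨H _ t21218.2.2.2.2.2.1, ⟨H _ t21218.2.2.2.2.2.2.1, H _ t21218.2.2.2.2.2.2.2⟩⟩⟩⟩⟩⟩, ⟨⟨⟨⟨⟨H _ t21226.1, H _ t21226.2.1⟩, ⟨H _ t21226.2.2.1, H _ t21226.2.2.2.1⟩⟩, ⟨⟨H _ t21226.2.2.2.2.1, H _ t21226.2.2.2.2.2.1⟩, ⟨H _ t21226.2.2.2.2.2.2.1, H _ t21226.2.2.2.2.2.2.2⟩⟩⟩, ⟨⟨⟨H _ t21234.1, H _ t21234.2.1⟩, ⟨H _ t21234.2.2.1, H _ t21234.2.2.2.1⟩⟩, ⟨⟨H _ t21234.2.2.2.2.1, H _ t21234.2.2.2.2.2.1⟩, ⟨H _ t21234.2.2.2.2.2.2.1, ⟨H _ t21234.2.2.2.2.2.2.2, H _ t21242.1⟩⟩⟩⟩⟩, ⟨⟨⟨⟨H _ t21242.2.1, H _ t21242.2.2.1⟩, ⟨H _ t21242.2.2.2.1, H _ t21242.2.2.2.2.1⟩⟩, ⟨⟨H _ t21242.2.2.2.2.2.1, H _ t21242.2.2.2.2.2.2.1⟩, ⟨H _ t21242.2.2.2.2.2.2.2, ⟨H _ t21250.1, H _ t21250.2.1⟩⟩⟩⟩, ⟨⟨⟨H _ t21250.2.2.1, H _ t21250.2.2.2.1⟩, ⟨H _ t21250.2.2.2.2.1, H _ t21250.2.2.2.2.2.1⟩⟩,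 ⟨⟨H _ t21250.2.2.2.2.2.2.1, H _ t21250.2.2.2.2.2.2.2⟩, ⟨H _ t21258.1, ⟨H _ t21258.2.1, H _ t21258.2.2⟩⟩⟩⟩⟩⟩⟩⟩⟩⟩

end Pool.Agent.MP_c853c5_nt.X.C4950
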