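import Pool.Agent.MP_c853c5_nt.X.C4950.Env
import Pool.Agent.MP_c853c5_nt.X.C4950.D7

set_option autoImplicit false
set_option maxRecDepth 8192
set_option linter.all false

namespace Pool.Agent.MP_c853c5_nt.X.C4950

open Pool.Agent.MP_c853c5_nt.X

def t21261 : allY (E.wth (lkp [])) l21261 = true ∧
    allY (E.wth (lkp [])) l21262 = true ∧
    allY (E.wth (lkp [])) l21263 = true ∧
    allY (E.wth (lkp [])) l21264 = true ∧
    allY (E.wth (lkp [])) l21265 = true ∧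
    allY (E.wth (lkp [])) l21266 = true ∧
    allY (E.wth (lkp [])) l21267 = true ∧
    allY (E.wth (lkp [])) l21268 = true :=
  ⟨by decide +kernel, by decide +kernel, by decide +kernel, by decide +kernel, by decide +kernel, by decide +kernel, by decide +kernel, by decide +kernel⟩

def t21269 : allY (E.wth (lkp [])) l21269 = true ∧
    allY (E.wth (lkp [])) l21270 = true ∧
    allY (E.wth (lkp [])) l21271 = true ∧
    allY (E.wth (lkp [])) l21272 = true ∧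
    allY (E.wth (lkp [])) l21273 = true ∧
    allY (E.wth (lkp [])) l21274 = true ∧
    allY (E.wth (lkp [])) l21275 = true ∧
    allY (E.wth (lkp [])) l21276 = true :=
  ⟨by decide +kernel, by decide +kernel, by decide +kernel, by decide +kernel, by decide +kernel, by decide +kernel, by decide +kernel, by decide +kernel⟩

def t21277 : allY (E.wth (lkp [])) l21277 = true ∧
    allY (E.wth (lkp [])) l21278 = true ∧
    allY (E.wth (lkp [])) l21279 = true ∧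
    allY (E.wth (lkp [])) l21280 = true ∧
    allY (E.wth (lkp [])) l21281 = true ∧
    allY (E.wth (lkp [])) l21282 = true ∧
    allY (E.wth (lkp [])) l21283 = true ∧
    allY (E.wth (lkp [])) l21284 = true :=
  ⟨by decide +kernel, by decide +kernel, by decide +kernel, by decide +kernel, by decide +kernel, by decide +kernel, by decide +kernel, by decide +kernel⟩

def t21285 : allY (E.wth (lkp [])) l21285 = true ∧
    allY (E.wth (lkp [])) l21286 = true ∧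
    allY (E.wth (lkp [])) l21287 = true ∧
    allY (E.wth (lkp [])) l21288 = true ∧
    allY (E.wth (lkp [])) l21289 = true ∧
    allY (E.wth (lkp [])) l21290 = true ∧
    allY (E.wth (lkp [])) l21291 = true ∧
    allY (E.wth (lkp [])) l21292 = true :=
  ⟨by decide +kernel, by decide +kernel, by decide +kernel, by decide +kernel, by decide +kernel, by decide +kernel, by decide +kernel, by decide +kernel⟩

def t21293 : allY (E.wth (lkp [])) l21293 = true ∧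
    allY (E.wth (lkp [])) l21294 = true ∧
    allY (E.wth (lkp [])) l21295 = true ∧
    allY (E.wth (lkp [])) l21296 = true ∧
    allY (E.wth (lkp [])) l21297 = true ∧
    allY (E.wth (lkp [])) l21298 = true ∧
    allY (E.wth (lkp [])) l21299 = true ∧
    allY (E.wth (lkp [])) l21300 = true :=
  ⟨by decide +kernel, by decide +kernel, by decide +kernel, by decide +kernel, by decide +kernel, by decide +kernel, by decide +kernel, by decide +kernel⟩

def t21301 : allY (E.wth (lkp [])) l21301 = true ∧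
    allY (E.wth (lkp [])) l21302 = true ∧
    allY (E.wth (lkp [])) l21303 = true ∧
    allY (E.wth (lkp [])) l21304 = true ∧
    allY (E.wth (lkp [])) l21305 = true ∧
    allY (E.wth (lkp [])) l21306 = true ∧
    allY (E.wth (lkp [])) l21307 = true ∧
    allY (E.wth (lkp [])) l21308 = true :=
  ⟨by decide +kernel, by decide +kernel, by decide +kernel, by decide +kernel, by decide +kernel, by decide +kernel, by decide +kernel, by decide +kernel⟩

def t21309 : allY (E.wth (lkp [])) l21309 = true ∧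
    allY (E.wth (lkp [])) l21310 = true ∧
    allY (E.wth (lkp [])) l21311 = true ∧
    allY (E.wth (lkp [])) l21312 = true ∧
    allY (E.wth (lkp [])) l21313 = true ∧
    allY (E.wth (lkp [])) l21314 = true ∧
    allY (E.wth (lkp [])) l21315 = true ∧
    allY (E.wth (lkp [])) l21316 = true :=
  ⟨by decide +kernel, by decide +kernel, by decide +kernel, by decide +kernel, by decide +kernel, by decide +kernel, by decide +kernel, by decide +kernel⟩

def t21317 : allY (E.wth (lkp [])) l21317 = true ∧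
    allY (E.wth (lkp [])) l21318 = true ∧
    allY (E.wth (lkp [])) l21319 = true ∧
    allY (E.wth (lkp [])) l21320 = true ∧
    allY (E.wth (lkp [])) l21321 = true ∧
    allY (E.wth (lkp [])) l21322 = true ∧
    allY (E.wth (lkp [])) l21323 = true ∧
    allY (E.wth (lkp [])) l21324 = true :=
  ⟨by decide +kernel, by decide +kernel, by decide +kernel, by decide +kernel, by decide +kernel, by decide +kernel, by decide +kernel, by decide +kernel⟩

def t21325 : allY (E.wth (lkp [])) l21325 = true ∧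
    allY (E.wth (lkp [])) l21326 = true ∧
    allY (E.wth (lkp [])) l21327 = true ∧
    allY (E.wth (lkp [])) l21328 = true ∧
    allY (E.wth (lkp [])) l21329 = true ∧
    allY (E.wth (lkp [])) l21330 = true ∧
    allY (E.wth (lkp [])) l21331 = true ∧
    allY (E.wth (lkp [])) l21332 = true :=
  ⟨by decide +kernel, by decide +kernel, by decide +kernel, by decide +kernel, by decide +kernel, by decide +kernel, by decide +kernel, by decide +kernel⟩

def t21333 : allY (E.wth (lkp [])) l21333 = true ∧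
    allY (E.wth (lkp [])) l21334 = true ∧
    allY (E.wth (lkp [])) l21335 = true ∧
    allY (E.wth (lkp [])) l21336 = true ∧
    allY (E.wth (lkp [])) l21337 = true ∧
    allY (E.wth (lkp [])) l21338 = true ∧
    allY (E.wth (lkp [])) l21339 = true ∧
    allY (E.wth (lkp [])) l21340 = true :=
  ⟨by decide +kernel, by decide +kernel, by decide +kernel, by decide +kernel, by decide +kernel, by decide +kernel, by decide +kernel, by decide +kernel⟩

def t21341 : allY (E.wth (lkp [])) l21341 = true ∧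
    allY (E.wth (lkp [])) l21342 = true ∧
    allY (E.wth (lkp [])) l21343 = true ∧
    allY (E.wth (lkp [])) l21344 = true ∧
    allY (E.wth (lkp [])) l21345 = true ∧
    allY (E.wth (lkp [])) l21346 = true ∧
    allY (E.wth (lkp [])) l21347 = true ∧
    allY (E.wth (lkp [])) l21348 = true :=
  ⟨by decide +kernel, by decide +kernel, by decide +kernel, by decide +kernel, by decide +kernel, by decide +kernel, by decide +kernel, by decide +kernel⟩

def t21349 : allY (E.wth (lkp [])) l21349 = true ∧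
    allY (E.wth (lkp [])) l21350 = true ∧
    allY (E.wth (lkp [])) l21351 = true ∧
    allY (E.wth (lkp [])) l21352 = true ∧
    allY (E.wth (lkp [])) l21353 = true ∧
    allY (E.wth (lkp [])) l21354 = true ∧
    allY (E.wth (lkp [])) l21355 = true ∧
    allY (E.wth (lkp [])) l21356 = true :=
  ⟨by decide +kernel, by decide +kernel, by decide +kernel, by decide +kernel, by decide +kernel, by decide +kernel, by decide +kernel, by decide +kernel⟩

def t21357 : allY (E.wth (lkp [])) l21357 = true ∧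
    allY (E.wth (lkp [])) l21358 = true ∧
    allY (E.wth (lkp [])) l21359 = true ∧
    allY (E.wth (lkp [])) l21360 = true ∧
    allY (E.wth (lkp [])) l21361 = true ∧
    allY (E.wth (lkp [])) l21362 = true ∧
    allY (E.wth (lkp [])) l21363 = true ∧
    allY (E.wth (lkp [])) l21364 = true :=
  ⟨by decide +kernel, by decide +kernel, by decide +kernel, by decide +kernel, by decide +kernel, by decide +kernel, by decide +kernel, by decide +kernel⟩

def t21365 : allY (E.wth (lkp [])) l21365 = true ∧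
    allY (E.wth (lkp [])) l21366 = true ∧
    allY (E.wth (lkp [])) l21367 = true ∧
    allY (E.wth (lkp [])) l21368 = true ∧
    allY (E.wth (lkp [])) l21369 = true ∧
    allY (E.wth (lkp [])) l21370 = true ∧
    allY (E.wth (lkp [])) l21371 = true ∧
    allY (E.wth (lkp [])) l21372 = true :=
  ⟨by decide +kernel, by decide +kernel, by decide +kernel, by decide +kernel, by decide +kernel, by decide +kernel, by decide +kernel, by decide +kernel⟩

def t21373 : allY (E.wth (lkp [])) l21373 = true ∧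
    allY (E.wth (lkp [])) l21374 = true ∧
    allY (E.wth (lkp [])) l21375 = true ∧
    allY (E.wth (lkp [])) l21376 = true ∧
    allY (E.wth (lkp [])) l21377 = true ∧
    allY (E.wth (lkp [])) l21378 = true ∧
    allY (E.wth (lkp [])) l21379 = true ∧
    allY (E.wth (lkp [])) l21380 = true :=
  ⟨by decide +kernel, by decide +kernel, by decide +kernel, by decide +kernel, by decide +kernel, by decide +kernel, by decide +kernel, by decide +kernel⟩

def t21381 : allY (E.wth (lkp [])) l21381 = true ∧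
    allY (E.wth (lkp [])) l21382 = true ∧
    allY (E.wth (lkp [])) l21383 = true ∧
    allY (E.wth (lkp [])) l21384 = true ∧
    allY (E.wth (lkp [])) l21385 = true ∧
    allY (E.wth (lkp [])) l21386 = true ∧
    allY (E.wth (lkp [])) l21387 = true ∧
    allY (E.wth (lkp [])) l21388 = true :=
  ⟨by decide +kernel, by decide +kernel, by decide +kernel, by decide +kernel, by decide +kernel, by decide +kernel, by decide +kernel, by decide +kernel⟩

def t21389 : allY (E.wth (lkp [])) l21389 = true ∧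
    allY (E.wth (lkp [])) l21390 = true ∧
    allY (E.wth (lkp [])) l21391 = true ∧
    allY (E.wth (lkp [])) l21392 = true ∧
    allY (E.wth (lkp [])) l21393 = true ∧
    allY (E.wth (lkp [])) l21394 = true ∧
    allY (E.wth (lkp [])) l21395 = true ∧
    allY (E.wth (lkp [])) l21396 = true :=
  ⟨by decide +kernel, by decide +kernel, by decide +kernel, by decide +kernel, by decide +kernel, by decide +kernel, by decide +kernel, by decide +kernel⟩

def t21397 : allY (E.wth (lkp [])) l21397 = true ∧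
    allY (E.wth (lkp [])) l21398 = true ∧
    allY (E.wth (lkp [])) l21399 = true ∧
    allY (E.wth (lkp [])) l21400 = true ∧
    allY (E.wth (lkp [])) l21401 = true ∧
    allY (E.wth (lkp [])) l21402 = true ∧
    allY (E.wth (lkp [])) l21403 = true ∧
    allY (E.wth (lkp [])) l21404 = true :=
  ⟨by decide +kernel, by decide +kernel, by decide +kernel, by decide +kernel, by decide +kernel, by decide +kernel, by decide +kernel, by decide +kernel⟩

def t21405 : allY (E.wth (lkp [])) l21405 = true ∧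
    allY (E.wth (lkp [])) l21406 = true ∧
    allY (E.wth (lkp [])) l21407 = true ∧
    allY (E.wth (lkp [])) l21408 = true ∧
    allY (E.wth (lkp [])) l21409 = true ∧
    allY (E.wth (lkp [])) l21410 = true ∧
    allY (E.wth (lkp [])) l21411 = true ∧
    allY (E.wth (lkp [])) l21412 = true :=
  ⟨by decide +kernel, by decide +kernel, by decide +kernel, by decide +kernel, by decide +kernel, by decide +kernel, by decide +kernel, by decide +kernel⟩

def t21413 : allY (E.wth (lkp [])) l21413 = true ∧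
    allY (E.wth (lkp [])) l21414 = true ∧
    allY (E.wth (lkp [])) l21415 = true ∧
    allY (E.wth (lkp [])) l21416 = true ∧
    allY (E.wth (lkp [])) l21417 = true ∧
    allY (E.wth (lkp [])) l21418 = true ∧
    allY (E.wth (lkp [])) l21419 = true ∧
    allY (E.wth (lkp [])) l21420 = true :=
  ⟨by decide +kernel, by decide +kernel, by decide +kernel, by decide +kernel, by decide +kernel, by decide +kernel, by decide +kernel, by decide +kernel⟩

def t21421 : allY (E.wth (lkp [])) l21421 = true ∧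
    allY (E.wth (lkp [])) l21422 = true ∧
    allY (E.wth (lkp [])) l21423 = true ∧
    allY (E.wth (lkp [])) l21424 = true ∧
    allY (E.wth (lkp [])) l21425 = true ∧
    allY (E.wth (lkp [])) l21426 = true ∧
    allY (E.wth (lkp [])) l21427 = true ∧
    allY (E.wth (lkp [])) l21428 = true :=
  ⟨by decide +kernel, by decide +kernel, by decide +kernel, by decide +kernel, by decide +kernel, by decide +kernel, by decide +kernel, by decide +kernel⟩

def t21429 : allY (E.wth (lkp [])) l21429 = true ∧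
    allY (E.wth (lkp [])) l21430 = true ∧
    allY (E.wth (lkp [])) l21431 = true ∧
    allY (E.wth (lkp [])) l21432 = true ∧
    allY (E.wth (lkp [])) l21433 = true ∧
    allY (E.wth (lkp [])) l21434 = true ∧
    allY (E.wth (lkp [])) l21435 = true ∧
    allY (E.wth (lkp [])) l21436 = true :=
  ⟨by decide +kernel, by decide +kernel, by decide +kernel, by decide +kernel, by decide +kernel, by decide +kernel, by decide +kernel, by decide +kernel⟩

def t21437 : allY (E.wth (lkp [])) l21437 = true ∧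
    allY (E.wth (lkp [])) l21438 = true ∧
    allY (E.wth (lkp [])) l21439 = true ∧
    allY (E.wth (lkp [])) l21440 = true ∧
    allY (E.wth (lkp [])) l21441 = true ∧
    allY (E.wth (lkp [])) l21442 = true ∧
    allY (E.wth (lkp [])) l21443 = true ∧
    allY (E.wth (lkp [])) l21444 = true :=
  ⟨by decide +kernel, by decide +kernel, by decide +kernel, by decide +kernel, by decide +kernel, by decide +kernel, by decide +kernel, by decide +kernel⟩

def t21445 : allY (E.wth (lkp [])) l21445 = true ∧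
    allY (E.wth (lkp [])) l21446 = true ∧
    allY (E.wth (lkp [])) l21447 = true ∧
    allY (E.wth (lkp [])) l21448 = true ∧
    allY (E.wth (lkp [])) l21449 = true ∧
    allY (E.wth (lkp [])) l21450 = true ∧
    allY (E.wth (lkp [])) l21451 = true ∧
    allY (E.wth (lkp [])) l21452 = true :=
  ⟨by decide +kernel, by decide +kernel, by decide +kernel, by decide +kernel, by decide +kernel, by decide +kernel, by decide +kernel, by decide +kernel⟩

def t21453 : allY (E.wth (lkp [])) l21453 = true ∧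
    allY (E.wth (lkp [])) l21454 = true ∧
    allY (E.wth (lkp [])) l21455 = true ∧
    allY (E.wth (lkp [])) l21456 = true ∧
    allY (E.wth (lkp [])) l21457 = true ∧
    allY (E.wth (lkp [])) l21458 = true ∧
    allY (E.wth (lkp [])) l21459 = true ∧
    allY (E.wth (lkp [])) l21460 = true :=
  ⟨by decide +kernel, by decide +kernel, by decide +kernel, by decide +kernel, by decide +kernel, by decide +kernel, by decide +kernel, by decide +kernel⟩

def t21461 : allY (E.wth (lkp [])) l21461 = true ∧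
    allY (E.wth (lkp [])) l21462 = true ∧
    allY (E.wth (lkp [])) l21463 = true ∧
    allY (E.wth (lkp [])) l21464 = true ∧
    allY (E.wth (lkp [])) l21465 = true ∧
    allY (E.wth (lkp [])) l21466 = true ∧
    allY (E.wth (lkp [])) l21467 = true ∧
    allY (E.wth (lkp [])) l21468 = true :=
  ⟨by decide +kernel, by decide +kernel, by decide +kernel, by decide +kernel, by decide +kernel, by decide +kernel, by decide +kernel, by decide +kernel⟩

def t21469 : allY (E.wth (lkp [])) l21469 = true ∧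
    allY (E.wth (lkp [])) l21470 = true ∧
    allY (E.wth (lkp [])) l21471 = true ∧
    allY (E.wth (lkp [])) l21472 = true ∧
    allY (E.wth (lkp [])) l21473 = true ∧
    allY (E.wth (lkp [])) l21474 = true ∧
    allY (E.wth (lkp [])) l21475 = true ∧
    allY (E.wth (lkp [])) l21476 = true :=
  ⟨by decide +kernel, by decide +kernel, by decide +kernel, by decide +kernel, by decide +kernel, by decide +kernel, by decide +kernel, by decide +kernel⟩

def t21477 : allY (E.wth (lkp [])) l21477 = true ∧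
    allY (E.wth (lkp [])) l21478 = true ∧
    allY (E.wth (lkp [])) l21479 = true ∧
    allY (E.wth (lkp [])) l21480 = true ∧
    allY (E.wth (lkp [])) l21481 = true ∧
    allY (E.wth (lkp [])) l21482 = true ∧
    allY (E.wth (lkp [])) l21483 = true ∧
    allY (E.wth (lkp [])) l21484 = true :=
  ⟨by decide +kernel, by decide +kernel, by decide +kernel, by decide +kernel, by decide +kernel, by decide +kernel, by decide +kernel, by decide +kernel⟩

def t21485 : allY (E.wth (lkp [])) l21485 = true ∧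
    allY (E.wth (lkp [])) l21486 = true ∧
    allY (E.wth (lkp [])) l21487 = true ∧
    allY (E.wth (lkp [])) l21488 = true ∧
    allY (E.wth (lkp [])) l21489 = true ∧
    allY (E.wth (lkp [])) l21490 = true ∧
    allY (E.wth (lkp [])) l21491 = true ∧
    allY (E.wth (lkp [])) l21492 = true :=
  ⟨by decide +kernel, by decide +kernel, by decide +kernel, by decide +kernel, by decide +kernel, by decide +kernel, by decide +kernel, by decide +kernel⟩

def t21493 : allY (E.wth (lkp [])) l21493 = true ∧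
    allY (E.wth (lkp [])) l21494 = true ∧
    allY (E.wth (lkp [])) l21495 = true ∧
    allY (E.wth (lkp [])) l21496 = true ∧
    allY (E.wth (lkp [])) l21497 = true ∧
    allY (E.wth (lkp [])) l21498 = true ∧
    allY (E.wth (lkp [])) l21499 = true ∧
    allY (E.wth (lkp [])) l21500 = true :=
  ⟨by decide +kernel, by decide +kernel, by decide +kernel, by decide +kernel, by decide +kernel, by decide +kernel, by decide +kernel, by decide +kernel⟩

def t21501 : allY (E.wth (lkp [])) l21501 = true ∧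
    allY (E.wth (lkp [])) l21502 = true ∧
    allY (E.wth (lkp [])) l21503 = true ∧
    allY (E.wth (lkp [])) l21504 = true ∧
    allY (E.wth (lkp [])) l21505 = true ∧
    allY (E.wth (lkp [])) l21506 = true ∧
    allY (E.wth (lkp [])) l21507 = true ∧
    allY (E.wth (lkp [])) l21508 = true :=
  ⟨by decide +kernel, by decide +kernel, by decide +kernel, by decide +kernel, by decide +kernel, by decide +kernel, by decide +kernel, by decide +kernel⟩

def t21509 : allY (E.wth (lkp [])) l21509 = true ∧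
    allY (E.wth (lkp [])) l21510 = true ∧
    allY (E.wth (lkp [])) l21511 = true ∧
    allY (E.wth (lkp [])) l21512 = true ∧
    allY (E.wth (lkp [])) l21513 = true ∧
    allY (E.wth (lkp [])) l21514 = true ∧
    allY (E.wth (lkp [])) l21515 = true ∧
    allY (E.wth (lkp [])) l21516 = true :=
  ⟨by decide +kernel, by decide +kernel, by decide +kernel, by decide +kernel, by decide +kernel, by decide +kernel, by decide +kernel, by decide +kernel⟩

def t21517 : allY (E.wth (lkp [])) l21517 = true ∧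
    allY (E.wth (lkp [])) l21518 = true ∧
    allY (E.wth (lkp [])) l21519 = true ∧
    allY (E.wth (lkp [])) l21520 = true ∧
    allY (E.wth (lkp [])) l21521 = true ∧
    allY (E.wth (lkp [])) l21522 = true ∧
    allY (E.wth (lkp [])) l21523 = true ∧
    allY (E.wth (lkp [])) l21524 = true :=
  ⟨by decide +kernel, by decide +kernel, by decide +kernel, by decide +kernel, by decide +kernel, by decide +kernel, by decide +kernel, by decide +kernel⟩

def t21525 : allY (E.wth (lkp [])) l21525 = true ∧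
    allY (E.wth (lkp [])) l21526 = true ∧
    allY (E.wth (lkp [])) l21527 = true ∧
    allY (E.wth (lkp [])) l21528 = true ∧
    allY (E.wth (lkp [])) l21529 = true ∧
    allY (E.wth (lkp [])) l21530 = true ∧
    allY (E.wth (lkp [])) l21531 = true ∧
    allY (E.wth (lkp [])) l21532 = true :=
  ⟨by decide +kernel, by decide +kernel, by decide +kernel, by decide +kernel, by decide +kernel, by decide +kernel, by decide +kernel, by decide +kernel⟩

def t21533 : allY (E.wth (lkp [])) l21533 = true ∧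
    allY (E.wth (lkp [])) l21534 = true ∧
    allY (E.wth (lkp [])) l21535 = true ∧
    allY (E.wth (lkp [])) l21536 = true ∧
    allY (E.wth (lkp [])) l21537 = true ∧
    allY (E.wth (lkp [])) l21538 = true ∧
    allY (E.wth (lkp [])) l21539 = true ∧
    allY (E.wth (lkp [])) l21540 = true :=
  ⟨by decide +kernel, by decide +kernel, by decide +kernel, by decide +kernel, by decide +kernel, by decide +kernel, by decide +kernel, by decide +kernel⟩

def t21541 : allY (E.wth (lkp [])) l21541 = true ∧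
    allY (E.wth (lkp [])) l21542 = true ∧
    allY (E.wth (lkp [])) l21543 = true ∧
    allY (E.wth (lkp [])) l21544 = true ∧
    allY (E.wth (lkp [])) l21545 = true ∧
    allY (E.wth (lkp [])) l21546 = true ∧
    allY (E.wth (lkp [])) l21547 = true ∧
    allY (E.wth (lkp [])) l21548 = true :=
  ⟨by decide +kernel, by decide +kernel, by decide +kernel, by decide +kernel, by decide +kernel, by decide +kernel, by decide +kernel, by decide +kernel⟩

def t21549 : allY (E.wth (lkp [])) l21549 = true ∧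
    allY (E.wth (lkp [])) l21550 = true ∧
    allY (E.wth (lkp [])) l21551 = true ∧
    allY (E.wth (lkp [])) l21552 = true ∧
    allY (E.wth (lkp [])) l21553 = true ∧
    allY (E.wth (lkp [])) l21554 = true ∧
    allY (E.wth (lkp [])) l21555 = true ∧
    allY (E.wth (lkp [])) l21556 = true :=
  ⟨by decide +kernel, by decide +kernel, by decide +kernel, by decide +kernel, by decide +kernel, by decide +kernel, by decide +kernel, by decide +kernel⟩

def t21557 : allY (E.wth (lkp [])) l21557 = true ∧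
    allY (E.wth (lkp [])) l21558 = true ∧
    allY (E.wth (lkp [])) l21559 = true ∧
    allY (E.wth (lkp [])) l21560 = true ∧
    allY (E.wth (lkp [])) l21561 = true ∧
    allY (E.wth (lkp [])) l21562 = true ∧
    allY (E.wth (lkp [])) l21563 = true ∧
    allY (E.wth (lkp [])) l21564 = true :=
  ⟨by decide +kernel, by decide +kernel, by decide +kernel, by decide +kernel, by decide +kernel, by decide +kernel, by decide +kernel, by decide +kernel⟩

def t21565 : allY (E.wth (lkp [])) l21565 = true ∧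
    allY (E.wth (lkp [])) l21566 = true ∧
    allY (E.wth (lkp [])) l21567 = true ∧
    allY (E.wth (lkp [])) l21568 = true ∧
    allY (E.wth (lkp [])) l21569 = true ∧
    allY (E.wth (lkp [])) l21570 = true ∧
    allY (E.wth (lkp [])) l21571 = true ∧
    allY (E.wth (lkp [])) l21572 = true :=
  ⟨by decide +kernel, by decide +kernel, by decide +kernel, by decide +kernel, by decide +kernel, by decide +kernel, by decide +kernel, by decide +kernel⟩

def t21573 : allY (E.wth (lkp [])) l21573 = true ∧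
    allY (E.wth (lkp [])) l21574 = true ∧
    allY (E.wth (lkp [])) l21575 = true ∧
    allY (E.wth (lkp [])) l21576 = true ∧
    allY (E.wth (lkp [])) l21577 = true ∧
    allY (E.wth (lkp [])) l21578 = true ∧
    allY (E.wth (lkp [])) l21579 = true ∧
    allY (E.wth (lkp [])) l21580 = true :=
  ⟨by decide +kernel, by decide +kernel, by decide +kernel, by decide +kernel, by decide +kernel, by decide +kernel, by decide +kernel, by decide +kernel⟩

def t21581 : allY (E.wth (lkp [])) l21581 = true ∧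
    allY (E.wth (lkp [])) l21582 = true ∧
    allY (E.wth (lkp [])) l21583 = true ∧
    allY (E.wth (lkp [])) l21584 = true ∧
    allY (E.wth (lkp [])) l21585 = true ∧
    allY (E.wth (lkp [])) l21586 = true ∧
    allY (E.wth (lkp [])) l21587 = true ∧
    allY (E.wth (lkp [])) l21588 = true :=
  ⟨by decide +kernel, by decide +kernel, by decide +kernel, by decide +kernel, by decide +kernel, by decide +kernel, by decide +kernel, by decide +kernel⟩

def t21589 : allY (E.wth (lkp [])) l21589 = true ∧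
    allY (E.wth (lkp [])) l21590 = true ∧
    allY (E.wth (lkp [])) l21591 = true ∧
    allY (E.wth (lkp [])) l21592 = true ∧
    allY (E.wth (lkp [])) l21593 = true ∧
    allY (E.wth (lkp [])) l21594 = true ∧
    allY (E.wth (lkp [])) l21595 = true ∧
    allY (E.wth (lkp [])) l21596 = true :=
  ⟨by decide +kernel, by decide +kernel, by decide +kernel, by decide +kernel, by decide +kernel, by decide +kernel, by decide +kernel, by decide +kernel⟩

def t21597 : allY (E.wth (lkp [])) l21597 = true ∧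
    allY (E.wth (lkp [])) l21598 = true ∧
    allY (E.wth (lkp [])) l21599 = true ∧
    allY (E.wth (lkp [])) l21600 = true ∧
    allY (E.wth (lkp [])) l21601 = true ∧
    allY (E.wth (lkp [])) l21602 = true ∧
    allY (E.wth (lkp [])) l21603 = true ∧
    allY (E.wth (lkp [])) l21604 = true :=
  ⟨by decide +kernel, by decide +kernel, by decide +kernel, by decide +kernel, by decide +kernel, by decide +kernel, by decide +kernel, by decide +kernel⟩

def t21605 : allY (E.wth (lkp [])) l21605 = true ∧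
    allY (E.wth (lkp [])) l21606 = true ∧
    allY (E.wth (lkp [])) l21607 = true ∧
    allY (E.wth (lkp [])) l21608 = true ∧
    allY (E.wth (lkp [])) l21609 = true ∧
    allY (E.wth (lkp [])) l21610 = true ∧
    allY (E.wth (lkp [])) l21611 = true ∧
    allY (E.wth (lkp [])) l21612 = true :=
  ⟨by decide +kernel, by decide +kernel, by decide +kernel, by decide +kernel, by decide +kernel, by decide +kernel, by decide +kernel, by decide +kernel⟩

def t21613 : allY (E.wth (lkp [])) l21613 = true ∧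
    allY (E.wth (lkp [])) l21614 = true ∧
    allY (E.wth (lkp [])) l21615 = true ∧
    allY (E.wth (lkp [])) l21616 = true ∧
    allY (E.wth (lkp [])) l21617 = true ∧
    allY (E.wth (lkp [])) l21618 = true ∧
    allY (E.wth (lkp [])) l21619 = true ∧
    allY (E.wth (lkp [])) l21620 = true :=
  ⟨by decide +kernel, by decide +kernel, by decide +kernel, by decide +kernel, by decide +kernel, by decide +kernel, by decide +kernel, by decide +kernel⟩

def t21621 : allY (E.wth (lkp [])) l21621 = true ∧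
    allY (E.wth (lkp [])) l21622 = true ∧
    allY (E.wth (lkp [])) l21623 = true ∧
    allY (E.wth (lkp [])) l21624 = true ∧
    allY (E.wth (lkp [])) l21625 = true ∧
    allY (E.wth (lkp [])) l21626 = true ∧
    allY (E.wth (lkp [])) l21627 = true ∧
    allY (E.wth (lkp [])) l21628 = true :=
  ⟨by decide +kernel, by decide +kernel, by decide +kernel, by decide +kernel, by decide +kernel, by decide +kernel, by decide +kernel, by decide +kernel⟩

def t21629 : allY (E.wth (lkp [])) l21629 = true ∧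
    allY (E.wth (lkp [])) l21630 = true ∧
    allY (E.wth (lkp [])) l21631 = true ∧
    allY (E.wth (lkp [])) l21632 = true ∧
    allY (E.wth (lkp [])) l21633 = true ∧
    allY (E.wth (lkp [])) l21634 = true ∧
    allY (E.wth (lkp [])) l21635 = true ∧
    allY (E.wth (lkp [])) l21636 = true :=
  ⟨by decide +kernel, by decide +kernel, by decide +kernel, by decide +kernel, by decide +kernel, by decide +kernel, by decide +kernel, by decide +kernel⟩

def t21637 : allY (E.wth (lkp [])) l21637 = true ∧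
    allY (E.wth (lkp [])) l21638 = true ∧
    allY (E.wth (lkp [])) l21639 = true ∧
    allY (E.wth (lkp [])) l21640 = true ∧
    allY (E.wth (lkp [])) l21641 = true ∧
    allY (E.wth (lkp [])) l21642 = true ∧
    allY (E.wth (lkp [])) l21643 = true ∧
    allY (E.wth (lkp [])) l21644 = true :=
  ⟨by decide +kernel, by decide +kernel, by decide +kernel, by decide +kernel, by decide +kernel, by decide +kernel, by decide +kernel, by decide +kernel⟩

def t21645 : allY (E.wth (lkp [])) l21645 = true ∧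
    allY (E.wth (lkp [])) l21646 = true ∧
    allY (E.wth (lkp [])) l21647 = true ∧
    allY (E.wth (lkp [])) l21648 = true ∧
    allY (E.wth (lkp [])) l21649 = true ∧
    allY (E.wth (lkp [])) l21650 = true ∧
    allY (E.wth (lkp [])) l21651 = true ∧
    allY (E.wth (lkp [])) l21652 = true :=
  ⟨by decide +kernel, by decide +kernel, by decide +kernel, by decide +kernel, by decide +kernel, by decide +kernel, by decide +kernel, by decide +kernel⟩

def t21653 : allY (E.wth (lkp [])) l21653 = true ∧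
    allY (E.wth (lkp [])) l21654 = true ∧
    allY (E.wth (lkp [])) l21655 = true ∧
    allY (E.wth (lkp [])) l21656 = true ∧
    allY (E.wth (lkp [])) l21657 = true ∧
    allY (E.wth (lkp [])) l21658 = true ∧
    allY (E.wth (lkp [])) l21659 = true ∧
    allY (E.wth (lkp [])) l21660 = true :=
  ⟨by decide +kernel, by decide +kernel, by decide +kernel, by decide +kernel, by decide +kernel, by decide +kernel, by decide +kernel, by decide +kernel⟩

def t21661 : allY (E.wth (lkp [])) l21661 = true ∧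
    allY (E.wth (lkp [])) l21662 = true ∧
    allY (E.wth (lkp [])) l21663 = true ∧
    allY (E.wth (lkp [])) l21664 = true ∧
    allY (E.wth (lkp [])) l21665 = true ∧
    allY (E.wth (lkp [])) l21666 = true ∧
    allY (E.wth (lkp [])) l21667 = true ∧
    allY (E.wth (lkp [])) l21668 = true :=
  ⟨by decide +kernel, by decide +kernel, by decide +kernel, by decide +kernel, by decide +kernel, by decide +kernel, by decide +kernel, by decide +kernel⟩

def t21669 : allY (E.wth (lkp [])) l21669 = true ∧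
    allY (E.wth (lkp [])) l21670 = true ∧
    allY (E.wth (lkp [])) l21671 = true ∧
    allY (E.wth (lkp [])) l21672 = true ∧
    allY (E.wth (lkp [])) l21673 = true ∧
    allY (E.wth (lkp [])) l21674 = true ∧
    allY (E.wth (lkp [])) l21675 = true ∧
    allY (E.wth (lkp [])) l21676 = true :=
  ⟨by decide +kernel, by decide +kernel, by decide +kernel, by decide +kernel, by decide +kernel, by decide +kernel, by decide +kernel, by decide +kernel⟩

def t21677 : allY (E.wth (lkp [])) l21677 = true ∧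
    allY (E.wth (lkp [])) l21678 = true ∧
    allY (E.wth (lkp [])) l21679 = true ∧
    allY (E.wth (lkp [])) l21680 = true ∧
    allY (E.wth (lkp [])) l21681 = true ∧
    allY (E.wth (lkp [])) l21682 = true ∧
    allY (E.wth (lkp [])) l21683 = true ∧
    allY (E.wth (lkp [])) l21684 = true :=
  ⟨by decide +kernel, by decide +kernel, by decide +kernel, by decide +kernel, by decide +kernel, by decide +kernel, by decide +kernel, by decide +kernel⟩

def t21685 : allY (E.wth (lkp [])) l21685 = true ∧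
    allY (E.wth (lkp [])) l21686 = true ∧
    allY (E.wth (lkp [])) l21687 = true ∧
    allY (E.wth (lkp [])) l21688 = true ∧
    allY (E.wth (lkp [])) l21689 = true ∧
    allY (E.wth (lkp [])) l21690 = true ∧
    allY (E.wth (lkp [])) l21691 = true ∧
    allY (E.wth (lkp [])) l21692 = true :=
  ⟨by decide +kernel, by decide +kernel, by decide +kernel, by decide +kernel, by decide +kernel, by decide +kernel, by decide +kernel, by decide +kernel⟩

def t21693 : allY (E.wth (lkp [])) l21693 = true ∧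
    allY (E.wth (lkp [])) l21694 = true ∧
    allY (E.wth (lkp [])) l21695 = true ∧
    allY (E.wth (lkp [])) l21696 = true ∧
    allY (E.wth (lkp [])) l21697 = true ∧
    allY (E.wth (lkp [])) l21698 = true ∧
    allY (E.wth (lkp [])) l21699 = true ∧
    allY (E.wth (lkp [])) l21700 = true :=
  ⟨by decide +kernel, by decide +kernel, by decide +kernel, by decide +kernel, by decide +kernel, by decide +kernel, by decide +kernel, by decide +kernel⟩

def t21701 : allY (E.wth (lkp [])) l21701 = true ∧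
    allY (E.wth (lkp [])) l21702 = true ∧
    allY (E.wth (lkp [])) l21703 = true ∧
    allY (E.wth (lkp [])) l21704 = true ∧
    allY (E.wth (lkp [])) l21705 = true ∧
    allY (E.wth (lkp [])) l21706 = true ∧
    allY (E.wth (lkp [])) l21707 = true ∧
    allY (E.wth (lkp [])) l21708 = true :=
  ⟨by decide +kernel, by decide +kernel, by decide +kernel, by decide +kernel, by decide +kernel, by decide +kernel, by decide +kernel, by decide +kernel⟩

def t21709 : allY (E.wth (lkp [])) l21709 = true ∧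
    allY (E.wth (lkp [])) l21710 = true ∧
    allY (E.wth (lkp [])) l21711 = true ∧
    allY (E.wth (lkp [])) l21712 = true ∧
    allY (E.wth (lkp [])) l21713 = true ∧
    allY (E.wth (lkp [])) l21714 = true ∧
    allY (E.wth (lkp [])) l21715 = true ∧
    allY (E.wth (lkp [])) l21716 = true :=
  ⟨by decide +kernel, by decide +kernel, by decide +kernel, by decide +kernel, by decide +kernel, by decide +kernel, by decide +kernel, by decide +kernel⟩

def t21717 : allY (E.wth (lkp [])) l21717 = true ∧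
    allY (E.wth (lkp [])) l21718 = true ∧
    allY (E.wth (lkp [])) l21719 = true ∧
    allY (E.wth (lkp [])) l21720 = true ∧
    allY (E.wth (lkp [])) l21721 = true ∧
    allY (E.wth (lkp [])) l21722 = true ∧
    allY (E.wth (lkp [])) l21723 = true ∧
    allY (E.wth (lkp [])) l21724 = true :=
  ⟨by decide +kernel, by decide +kernel, by decide +kernel, by decide +kernel, by decide +kernel, by decide +kernel, by decide +kernel, by decide +kernel⟩

def t21725 : allY (E.wth (lkp [])) l21725 = true ∧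
    allY (E.wth (lkp [])) l21726 = true ∧
    allY (E.wth (lkp [])) l21727 = true ∧
    allY (E.wth (lkp [])) l21728 = true ∧
    allY (E.wth (lkp [])) l21729 = true ∧
    allY (E.wth (lkp [])) l21730 = true ∧
    allY (E.wth (lkp [])) l21731 = true ∧
    allY (E.wth (lkp [])) l21732 = true :=
  ⟨by decide +kernel, by decide +kernel, by decide +kernel, by decide +kernel, by decide +kernel, by decide +kernel, by decide +kernel, by decide +kernel⟩

def t21733 : allY (E.wth (lkp [])) l21733 = true ∧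
    allY (E.wth (lkp [])) l21734 = true ∧
    allY (E.wth (lkp [])) l21735 = true ∧
    allY (E.wth (lkp [])) l21736 = true ∧
    allY (E.wth (lkp [])) l21737 = true ∧
    allY (E.wth (lkp [])) l21738 = true ∧
    allY (E.wth (lkp [])) l21739 = true ∧
    allY (E.wth (lkp [])) l21740 = true :=
  ⟨by decide +kernel, by decide +kernel, by decide +kernel, by decide +kernel, by decide +kernel, by decide +kernel, by decide +kernel, by decide +kernel⟩

def t21741 : allY (E.wth (lkp [])) l21741 = true ∧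
    allY (E.wth (lkp [])) l21742 = true ∧
    allY (E.wth (lkp [])) l21743 = true ∧
    allY (E.wth (lkp [])) l21744 = true ∧
    allY (E.wth (lkp [])) l21745 = true ∧
    allY (E.wth (lkp [])) l21746 = true ∧
    allY (E.wth (lkp [])) l21747 = true ∧
    allY (E.wth (lkp [])) l21748 = true :=
  ⟨by decide +kernel, by decide +kernel, by decide +kernel, by decide +kernel, by decide +kernel, by decide +kernel, by decide +kernel, by decide +kernel⟩

def t21749 : allY (E.wth (lkp [])) l21749 = true ∧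
    allY (E.wth (lkp [])) l21750 = true ∧
    allY (E.wth (lkp [])) l21751 = true ∧
    allY (E.wth (lkp [])) l21752 = true ∧
    allY (E.wth (lkp [])) l21753 = true ∧
    allY (E.wth (lkp [])) l21754 = true ∧
    allY (E.wth (lkp [])) l21755 = true ∧
    allY (E.wth (lkp [])) l21756 = true :=
  ⟨by decide +kernel, by decide +kernel, by decide +kernel, by decide +kernel, by decide +kernel, by decide +kernel, by decide +kernel, by decide +kernel⟩

def t21757 : allY (E.wth (lkp [])) l21757 = true ∧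
    allY (E.wth (lkp [])) l21758 = true ∧
    allY (E.wth (lkp [])) l21759 = true ∧
    allY (E.wth (lkp [])) l21760 = true ∧
    allY (E.wth (lkp [])) l21761 = true ∧
    allY (E.wth (lkp [])) l21762 = true ∧
    allY (E.wth (lkp [])) l21763 = true ∧
    allY (E.wth (lkp [])) l21764 = true :=
  ⟨by decide +kernel, by decide +kernel, by decide +kernel, by decide +kernel, by decide +kernel, by decide +kernel, by decide +kernel, by decide +kernel⟩

def t21765 : allY (E.wth (lkp [])) l21765 = true ∧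
    allY (E.wth (lkp [])) l21766 = true ∧
    allY (E.wth (lkp [])) l21767 = true ∧
    allY (E.wth (lkp [])) l21768 = true ∧
    allY (E.wth (lkp [])) l21769 = true ∧
    allY (E.wth (lkp [])) l21770 = true ∧
    allY (E.wth (lkp [])) l21771 = true ∧
    allY (E.wth (lkp [])) l21772 = true :=
  ⟨by decide +kernel, by decide +kernel, by decide +kernel, by decide +kernel, by decide +kernel, by decide +kernel, by decide +kernel, by decide +kernel⟩

def t21773 : allY (E.wth (lkp [])) l21773 = true ∧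
    allY (E.wth (lkp [])) l21774 = true ∧
    allY (E.wth (lkp [])) l21775 = true ∧
    allY (E.wth (lkp [])) l21776 = true ∧
    allY (E.wth (lkp [])) l21777 = true ∧
    allY (E.wth (lkp [])) l21778 = true ∧
    allY (E.wth (lkp [])) l21779 = true ∧
    allY (E.wth (lkp [])) l21780 = true :=
  ⟨by decide +kernel, by decide +kernel, by decide +kernel, by decide +kernel, by decide +kernel, by decide +kernel, by decide +kernel, by decide +kernel⟩

def t21781 : allY (E.wth (lkp [])) l21781 = true ∧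
    allY (E.wth (lkp [])) l21782 = true ∧
    allY (E.wth (lkp [])) l21783 = true ∧
    allY (E.wth (lkp [])) l21784 = true ∧
    allY (E.wth (lkp [])) l21785 = true ∧
    allY (E.wth (lkp [])) l21786 = true ∧
    allY (E.wth (lkp [])) l21787 = true ∧
    allY (E.wth (lkp [])) l21788 = true :=
  ⟨by decide +kernel, by decide +kernel, by decide +kernel, by decide +kernel, by decide +kernel, by decide +kernel, by decide +kernel, by decide +kernel⟩

def t21789 : allY (E.wth (lkp [])) l21789 = true ∧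
    allY (E.wth (lkp [])) l21790 = true ∧
    allY (E.wth (lkp [])) l21791 = true ∧
    allY (E.wth (lkp [])) l21792 = true ∧
    allY (E.wth (lkp [])) l21793 = true ∧
    allY (E.wth (lkp [])) l21794 = true ∧
    allY (E.wth (lkp [])) l21795 = true ∧
    allY (E.wth (lkp [])) l21796 = true :=
  ⟨by decide +kernel, by decide +kernel, by decide +kernel, by decide +kernel, by decide +kernel, by decide +kernel, by decide +kernel, by decide +kernel⟩

def t21797 : allY (E.wth (lkp [])) l21797 = true ∧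
    allY (E.wth (lkp [])) l21798 = true ∧
    allY (E.wth (lkp [])) l21799 = true ∧
    allY (E.wth (lkp [])) l21800 = true ∧
    allY (E.wth (lkp [])) l21801 = true ∧
    allY (E.wth (lkp [])) l21802 = true ∧
    allY (E.wth (lkp [])) l21803 = true ∧
    allY (E.wth (lkp [])) l21804 = true :=
  ⟨by decide +kernel, by decide +kernel, by decide +kernel, by decide +kernel, by decide +kernel, by decide +kernel, by decide +kernel, by decide +kernel⟩

def t21805 : allY (E.wth (lkp [])) l21805 = true ∧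
    allY (E.wth (lkp [])) l21806 = true ∧
    allY (E.wth (lkp [])) l21807 = true ∧
    allY (E.wth (lkp [])) l21808 = true ∧
    allY (E.wth (lkp [])) l21809 = true ∧
    allY (E.wth (lkp [])) l21810 = true :=
  ⟨by decide +kernel, by decide +kernel, by decide +kernel, by decide +kernel, by decide +kernel, by decide +kernel⟩

theorem a38 {p : Rf → Prop} (H : ∀ l, allY (E.wth (lkp [])) l = true → (lkp l).All p) :
    b38.All p := ⟨⟨⟨⟨⟨⟨⟨⟨⟨H _ t21261.1, H _ t21261.2.1⟩, ⟨H _ t21261.2.2.1, H _ t21261.2.2.2.1⟩⟩, ⟨⟨H _ t21261.2.2.2.2.1, H _ t21261.2.2.2.2.2.1⟩, ⟨H _ t21261.2.2.2.2.2.2.1, H _ t21261.2.2.2.2.2.2.2⟩⟩⟩, ⟨⟨⟨H _ t21269.1, H _ t21269.2.1⟩, ⟨H _ t21269.2.2.1, H _ t21269.2.2.2.1⟩⟩, ⟨⟨H _ t21269.2.2.2.2.1, H _ t21269.2.2.2.2.2.1⟩, ⟨H _ t21269.2.2.2.2.2.2.1, ⟨H _ t21269.2.2.2.2.2.2.2, H _ t21277.1⟩⟩⟩⟩⟩, ⟨⟨⟨⟨H _ t21277.2.1, H _ t21277.2.2.1⟩, ⟨H _ t21277.2.2.2.1, H _ t21277.2.2.2.2.1⟩⟩, ⟨⟨H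 _ t21277.2.2.2.2.2.1, H _ t21277.2.2.2.2.2.2.1⟩, ⟨H _ t21277.2.2.2.2.2.2.2, H _ t21285.1⟩⟩⟩, ⟨⟨⟨H _ t21285.2.1, H _ t21285.2.2.1⟩, ⟨H _ t21285.2.2.2.1, H _ t21285.2.2.2.2.1⟩⟩, ⟨⟨H _ t21285.2.2.2.2.2.1, H _ t21285.2.2.2.2.2.2.1⟩, ⟨H _ t21285.2.2.2.2.2.2.2, ⟨H _ t21293.1, H _ t21293.2.1⟩⟩⟩⟩⟩⟩, ⟨⟨⟨⟨⟨H _ t21293.2.2.1, H _ t21293.2.2.2.1⟩, ⟨H _ t21293.2.2.2.2.1, H _ t21293.2.2.2.2.2.1⟩⟩, ⟨⟨H _ t21293.2.2.2.2.2.2.1, H _ t21293.2.2.2.2.2.2.2⟩, ⟨H _ t21301.1, H _ t21301.2.1⟩⟩⟩, ⟨⟨⟨H _ t21301.2.2.1, H _ t21301.2.2.2.1⟩, ⟨H _ t21301.2.2.2.2.1, H _ t21301.2.2.2.2.2.1⟩⟩, ⟨⟨H _ t21301.2.2.2.2.2.2.1, H _ t21301.2.2.2.2.2.2.2⟩, ⟨H _ t21309.1, ⟨H _ t21309.2.1, H _ t21309.2.2.1⟩⟩⟩⟩⟩, ⟨⟨⟨⟨H _ t21309.2.2.2.1, H _ t21309.2.2.2.2.1⟩, ⟨H _ t21309.2.2.2.2.2.1, H _ t21309.2.2.2.2.2.2.1⟩⟩, ⟨⟨H _ t21309.2.2.2.2.2.2.2, H _ t21317.1⟩, ⟨H _ t21317.2.1, H _ t21317.2.2.1⟩⟩⟩, ⟨⟨⟨H _ t21317.2.2.2.1, H _ t21317.2.2.2.2.1⟩, ⟨H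 _ t21317.2.2.2.2.2.1, H _ t21317.2.2.2.2.2.2.1⟩⟩, ⟨⟨H _ t21317.2.2.2.2.2.2.2, H _ t21325.1⟩, ⟨H _ t21325.2.1, ⟨H _ t21325.2.2.1, H _ t21325.2.2.2.1⟩⟩⟩⟩⟩⟩⟩, ⟨⟨⟨⟨⟨⟨H _ t21325.2.2.2.2.1, H _ t21325.2.2.2.2.2.1⟩, ⟨H _ t21325.2.2.2.2.2.2.1, H _ t21325.2.2.2.2.2.2.2⟩⟩, ⟨⟨H _ t21333.1, H _ t21333.2.1⟩, ⟨H _ t21333.2.2.1, H _ t21333.2.2.2.1⟩⟩⟩, ⟨⟨⟨H _ t21333.2.2.2.2.1, H _ t21333.2.2.2.2.2.1⟩, ⟨H _ t21333.2.2.2.2.2.2.1, H _ t21333.2.2.2.2.2.2.2⟩⟩, ⟨⟨H _ t21341.1, H _ t21341.2.1⟩, ⟨H _ t21341.2.2.1, ⟨H _ t21341.2.2.2.1, H _ t21341.2.2.2.2.1⟩⟩⟩⟩⟩, ⟨⟨⟨⟨H _ t21341.2.2.2.2.2.1, H _ t21341.2.2.2.2.2.2.1⟩, ⟨H _ t21341.2.2.2.2.2.2.2, H _ t21349.1⟩⟩, ⟨⟨H _ t21349.2.1, H _ t21349.2.2.1⟩, ⟨H _ t21349.2.2.2.1, H _ t21349.2.2.2.2.1⟩⟩⟩, ⟨⟨⟨H _ t21349.2.2.2.2.2.1, H _ t21349.2.2.2.2.2.2.1⟩, ⟨H _ t21349.2.2.2.2.2.2.2, H _ t21357.1⟩⟩, ⟨⟨H _ t21357.2.1, H _ t21357.2.2.1⟩, ⟨H _ t21357.2.2.2.1, ⟨H _ t21357.2.2.2.2.1, H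 _ t21357.2.2.2.2.2.1⟩⟩⟩⟩⟩⟩, ⟨⟨⟨⟨⟨H _ t21357.2.2.2.2.2.2.1, H _ t21357.2.2.2.2.2.2.2⟩, ⟨H _ t21365.1, H _ t21365.2.1⟩⟩, ⟨⟨H _ t21365.2.2.1, H _ t21365.2.2.2.1⟩, ⟨H _ t21365.2.2.2.2.1, H _ t21365.2.2.2.2.2.1⟩⟩⟩, ⟨⟨⟨H _ t21365.2.2.2.2.2.2.1, H _ t21365.2.2.2.2.2.2.2⟩, ⟨H _ t21373.1, H _ t21373.2.1⟩⟩, ⟨⟨H _ t21373.2.2.1, H _ t21373.2.2.2.1⟩, ⟨H _ t21373.2.2.2.2.1, ⟨H _ t21373.2.2.2.2.2.1, H _ t21373.2.2.2.2.2.2.1⟩⟩⟩⟩⟩, ⟨⟨⟨⟨H _ t21373.2.2.2.2.2.2.2, H _ t21381.1⟩, ⟨H _ t21381.2.1, H _ t21381.2.2.1⟩⟩, ⟨⟨H _ t21381.2.2.2.1, H _ t21381.2.2.2.2.1⟩, ⟨H _ t21381.2.2.2.2.2.1, ⟨H _ t21381.2.2.2.2.2.2.1, H _ t21381.2.2.2.2.2.2.2⟩⟩⟩⟩, ⟨⟨⟨H _ t21389.1, H _ t21389.2.1⟩, ⟨H _ t21389.2.2.1, H _ t21389.2.2.2.1⟩⟩, ⟨⟨H _ t21389.2.2.2.2.1, H _ t21389.2.2.2.2.2.1⟩, ⟨H _ t21389.2.2.2.2.2.2.1, ⟨H _ t21389.2.2.2.2.2.2.2, H _ t21397.1⟩⟩⟩⟩⟩⟩⟩⟩, ⟨⟨⟨⟨⟨⟨⟨H _ t21397.2.1, H _ t21397.2.2.1⟩, ⟨H _ t21397.2.2.2.1, H _ t21397.2.2.2.2.1⟩⟩,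 ⟨⟨H _ t21397.2.2.2.2.2.1, H _ t21397.2.2.2.2.2.2.1⟩, ⟨H _ t21397.2.2.2.2.2.2.2, H _ t21405.1⟩⟩⟩, ⟨⟨⟨H _ t21405.2.1, H _ t21405.2.2.1⟩, ⟨H _ t21405.2.2.2.1, H _ t21405.2.2.2.2.1⟩⟩, ⟨⟨H _ t21405.2.2.2.2.2.1, H _ t21405.2.2.2.2.2.2.1⟩, ⟨H _ t21405.2.2.2.2.2.2.2, ⟨H _ t21413.1, H _ t21413.2.1⟩⟩⟩⟩⟩, ⟨⟨⟨⟨H _ t21413.2.2.1, H _ t21413.2.2.2.1⟩, ⟨H _ t21413.2.2.2.2.1, H _ t21413.2.2.2.2.2.1⟩⟩, ⟨⟨H _ t21413.2.2.2.2.2.2.1, H _ t21413.2.2.2.2.2.2.2⟩, ⟨H _ t21421.1, H _ t21421.2.1⟩⟩⟩, ⟨⟨⟨H _ t21421.2.2.1, H _ t21421.2.2.2.1⟩, ⟨H _ t21421.2.2.2.2.1, H _ t21421.2.2.2.2.2.1⟩⟩, ⟨⟨H _ t21421.2.2.2.2.2.2.1, H _ t21421.2.2.2.2.2.2.2⟩, ⟨H _ t21429.1, ⟨H _ t21429.2.1, H _ t21429.2.2.1⟩⟩⟩⟩⟩⟩, ⟨⟨⟨⟨⟨H _ t21429.2.2.2.1, H _ t21429.2.2.2.2.1⟩, ⟨H _ t21429.2.2.2.2.2.1, H _ t21429.2.2.2.2.2.2.1⟩⟩, ⟨⟨H _ t21429.2.2.2.2.2.2.2, H _ t21437.1⟩, ⟨H _ t21437.2.1, H _ t21437.2.2.1⟩⟩⟩, ⟨⟨⟨H _ t21437.2.2.2.1, H _ t21437.2.2.2.2.1⟩,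 ⟨H _ t21437.2.2.2.2.2.1, H _ t21437.2.2.2.2.2.2.1⟩⟩, ⟨⟨H _ t21437.2.2.2.2.2.2.2, H _ t21445.1⟩, ⟨H _ t21445.2.1, ⟨H _ t21445.2.2.1, H _ t21445.2.2.2.1⟩⟩⟩⟩⟩, ⟨⟨⟨⟨H _ t21445.2.2.2.2.1, H _ t21445.2.2.2.2.2.1⟩, ⟨H _ t21445.2.2.2.2.2.2.1, H _ t21445.2.2.2.2.2.2.2⟩⟩, ⟨⟨H _ t21453.1, H _ t21453.2.1⟩, ⟨H _ t21453.2.2.1, ⟨H _ t21453.2.2.2.1, H _ t21453.2.2.2.2.1⟩⟩⟩⟩, ⟨⟨⟨H _ t21453.2.2.2.2.2.1, H _ t21453.2.2.2.2.2.2.1⟩, ⟨H _ t21453.2.2.2.2.2.2.2, H _ t21461.1⟩⟩, ⟨⟨H _ t21461.2.1, H _ t21461.2.2.1⟩, ⟨H _ t21461.2.2.2.1, ⟨H _ t21461.2.2.2.2.1, H _ t21461.2.2.2.2.2.1⟩⟩⟩⟩⟩⟩⟩, ⟨⟨⟨⟨⟨⟨H _ t21461.2.2.2.2.2.2.1, H _ t21461.2.2.2.2.2.2.2⟩, ⟨H _ t21469.1, H _ t21469.2.1⟩⟩, ⟨⟨H _ t21469.2.2.1, H _ t21469.2.2.2.1⟩, ⟨H _ t21469.2.2.2.2.1, H _ t21469.2.2.2.2.2.1⟩⟩⟩, ⟨⟨⟨H _ t21469.2.2.2.2.2.2.1, H _ t21469.2.2.2.2.2.2.2⟩, ⟨H _ t21477.1, H _ t21477.2.1⟩⟩, ⟨⟨H _ t21477.2.2.1, H _ t21477.2.2.2.1⟩, ⟨H _ t21477.2.2.2.2.1,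 ⟨H _ t21477.2.2.2.2.2.1, H _ t21477.2.2.2.2.2.2.1⟩⟩⟩⟩⟩, ⟨⟨⟨⟨H _ t21477.2.2.2.2.2.2.2, H _ t21485.1⟩, ⟨H _ t21485.2.1, H _ t21485.2.2.1⟩⟩, ⟨⟨H _ t21485.2.2.2.1, H _ t21485.2.2.2.2.1⟩, ⟨H _ t21485.2.2.2.2.2.1, H _ t21485.2.2.2.2.2.2.1⟩⟩⟩, ⟨⟨⟨H _ t21485.2.2.2.2.2.2.2, H _ t21493.1⟩, ⟨H _ t21493.2.1, H _ t21493.2.2.1⟩⟩, ⟨⟨H _ t21493.2.2.2.1, H _ t21493.2.2.2.2.1⟩, ⟨H _ t21493.2.2.2.2.2.1, ⟨H _ t21493.2.2.2.2.2.2.1, H _ t21493.2.2.2.2.2.2.2⟩⟩⟩⟩⟩⟩, ⟨⟨⟨⟨⟨H _ t21501.1, H _ t21501.2.1⟩, ⟨H _ t21501.2.2.1, H _ t21501.2.2.2.1⟩⟩, ⟨⟨H _ t21501.2.2.2.2.1, H _ t21501.2.2.2.2.2.1⟩, ⟨H _ t21501.2.2.2.2.2.2.1, H _ t21501.2.2.2.2.2.2.2⟩⟩⟩, ⟨⟨⟨H _ t21509.1, H _ t21509.2.1⟩, ⟨H _ t21509.2.2.1, H _ t21509.2.2.2.1⟩⟩, ⟨⟨H _ t21509.2.2.2.2.1, H _ t21509.2.2.2.2.2.1⟩, ⟨H _ t21509.2.2.2.2.2.2.1, ⟨H _ t21509.2.2.2.2.2.2.2, H _ t21517.1⟩⟩⟩⟩⟩, ⟨⟨⟨⟨H _ t21517.2.1, H _ t21517.2.2.1⟩, ⟨H _ t21517.2.2.2.1, H _ t21517.2.2.2.2.1⟩⟩,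 ⟨⟨H _ t21517.2.2.2.2.2.1, H _ t21517.2.2.2.2.2.2.1⟩, ⟨H _ t21517.2.2.2.2.2.2.2, ⟨H _ t21525.1, H _ t21525.2.1⟩⟩⟩⟩, ⟨⟨⟨H _ t21525.2.2.1, H _ t21525.2.2.2.1⟩, ⟨H _ t21525.2.2.2.2.1, H _ t21525.2.2.2.2.2.1⟩⟩, ⟨⟨H _ t21525.2.2.2.2.2.2.1, H _ t21525.2.2.2.2.2.2.2⟩, ⟨H _ t21533.1, ⟨H _ t21533.2.1, H _ t21533.2.2.1⟩⟩⟩⟩⟩⟩⟩⟩⟩, ⟨⟨⟨⟨⟨⟨⟨⟨H _ t21533.2.2.2.1, H _ t21533.2.2.2.2.1⟩, ⟨H _ t21533.2.2.2.2.2.1, H _ t21533.2.2.2.2.2.2.1⟩⟩, ⟨⟨H _ t21533.2.2.2.2.2.2.2, H _ t21541.1⟩, ⟨H _ t21541.2.1, H _ t21541.2.2.1⟩⟩⟩, ⟨⟨⟨H _ t21541.2.2.2.1, H _ t21541.2.2.2.2.1⟩, ⟨H _ t21541.2.2.2.2.2.1, H _ t21541.2.2.2.2.2.2.1⟩⟩, ⟨⟨H _ t21541.2.2.2.2.2.2.2, H _ t21549.1⟩, ⟨H _ t21549.2.1, ⟨H _ t21549.2.2.1, H _ t21549.2.2.2.1⟩⟩⟩⟩⟩, ⟨⟨⟨⟨H _ t21549.2.2.2.2.1, H _ t21549.2.2.2.2.2.1⟩, ⟨H _ t21549.2.2.2.2.2.2.1, H _ t21549.2.2.2.2.2.2.2⟩⟩, ⟨⟨H _ t21557.1, H _ t21557.2.1⟩, ⟨H _ t21557.2.2.1, H _ t21557.2.2.2.1⟩⟩⟩, ⟨⟨⟨H _ t21557.2.2.2.2.1,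 H _ t21557.2.2.2.2.2.1⟩, ⟨H _ t21557.2.2.2.2.2.2.1, H _ t21557.2.2.2.2.2.2.2⟩⟩, ⟨⟨H _ t21565.1, H _ t21565.2.1⟩, ⟨H _ t21565.2.2.1, ⟨H _ t21565.2.2.2.1, H _ t21565.2.2.2.2.1⟩⟩⟩⟩⟩⟩, ⟨⟨⟨⟨⟨H _ t21565.2.2.2.2.2.1, H _ t21565.2.2.2.2.2.2.1⟩, ⟨H _ t21565.2.2.2.2.2.2.2, H _ t21573.1⟩⟩, ⟨⟨H _ t21573.2.1, H _ t21573.2.2.1⟩, ⟨H _ t21573.2.2.2.1, H _ t21573.2.2.2.2.1⟩⟩⟩, ⟨⟨⟨H _ t21573.2.2.2.2.2.1, H _ t21573.2.2.2.2.2.2.1⟩, ⟨H _ t21573.2.2.2.2.2.2.2, H _ t21581.1⟩⟩, ⟨⟨H _ t21581.2.1, H _ t21581.2.2.1⟩, ⟨H _ t21581.2.2.2.1, ⟨H _ t21581.2.2.2.2.1, H _ t21581.2.2.2.2.2.1⟩⟩⟩⟩⟩, ⟨⟨⟨⟨H _ t21581.2.2.2.2.2.2.1, H _ t21581.2.2.2.2.2.2.2⟩, ⟨H _ t21589.1, H _ t21589.2.1⟩⟩, ⟨⟨H _ t21589.2.2.1, H _ t21589.2.2.2.1⟩, ⟨H _ t21589.2.2.2.2.1, H _ t21589.2.2.2.2.2.1⟩⟩⟩, ⟨⟨⟨H _ t21589.2.2.2.2.2.2.1, H _ t21589.2.2.2.2.2.2.2⟩, ⟨H _ t21597.1, H _ t21597.2.1⟩⟩, ⟨⟨H _ t21597.2.2.1, H _ t21597.2.2.2.1⟩, ⟨H _ t21597.2.2.2.2.1, ⟨H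 _ t21597.2.2.2.2.2.1, H _ t21597.2.2.2.2.2.2.1⟩⟩⟩⟩⟩⟩⟩, ⟨⟨⟨⟨⟨⟨H _ t21597.2.2.2.2.2.2.2, H _ t21605.1⟩, ⟨H _ t21605.2.1, H _ t21605.2.2.1⟩⟩, ⟨⟨H _ t21605.2.2.2.1, H _ t21605.2.2.2.2.1⟩, ⟨H _ t21605.2.2.2.2.2.1, H _ t21605.2.2.2.2.2.2.1⟩⟩⟩, ⟨⟨⟨H _ t21605.2.2.2.2.2.2.2, H _ t21613.1⟩, ⟨H _ t21613.2.1, H _ t21613.2.2.1⟩⟩, ⟨⟨H _ t21613.2.2.2.1, H _ t21613.2.2.2.2.1⟩, ⟨H _ t21613.2.2.2.2.2.1, ⟨H _ t21613.2.2.2.2.2.2.1, H _ t21613.2.2.2.2.2.2.2⟩⟩⟩⟩⟩, ⟨⟨⟨⟨H _ t21621.1, H _ t21621.2.1⟩, ⟨H _ t21621.2.2.1, H _ t21621.2.2.2.1⟩⟩, ⟨⟨H _ t21621.2.2.2.2.1, H _ t21621.2.2.2.2.2.1⟩, ⟨H _ t21621.2.2.2.2.2.2.1, H _ t21621.2.2.2.2.2.2.2⟩⟩⟩, ⟨⟨⟨H _ t21629.1, H _ t21629.2.1⟩, ⟨H _ t21629.2.2.1, H _ t21629.2.2.2.1⟩⟩, ⟨⟨H _ t21629.2.2.2.2.1, H _ t21629.2.2.2.2.2.1⟩, ⟨H _ t21629.2.2.2.2.2.2.1, ⟨H _ t21629.2.2.2.2.2.2.2, H _ t21637.1⟩⟩⟩⟩⟩⟩, ⟨⟨⟨⟨⟨H _ t21637.2.1, H _ t21637.2.2.1⟩, ⟨H _ t21637.2.2.2.1, H _ t21637.2.2.2.2.1⟩⟩,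 ⟨⟨H _ t21637.2.2.2.2.2.1, H _ t21637.2.2.2.2.2.2.1⟩, ⟨H _ t21637.2.2.2.2.2.2.2, H _ t21645.1⟩⟩⟩, ⟨⟨⟨H _ t21645.2.1, H _ t21645.2.2.1⟩, ⟨H _ t21645.2.2.2.1, H _ t21645.2.2.2.2.1⟩⟩, ⟨⟨H _ t21645.2.2.2.2.2.1, H _ t21645.2.2.2.2.2.2.1⟩, ⟨H _ t21645.2.2.2.2.2.2.2, ⟨H _ t21653.1, H _ t21653.2.1⟩⟩⟩⟩⟩, ⟨⟨⟨⟨H _ t21653.2.2.1, H _ t21653.2.2.2.1⟩, ⟨H _ t21653.2.2.2.2.1, H _ t21653.2.2.2.2.2.1⟩⟩, ⟨⟨H _ t21653.2.2.2.2.2.2.1, H _ t21653.2.2.2.2.2.2.2⟩, ⟨H _ t21661.1, ⟨H _ t21661.2.1, H _ t21661.2.2.1⟩⟩⟩⟩, ⟨⟨⟨H _ t21661.2.2.2.1, H _ t21661.2.2.2.2.1⟩, ⟨H _ t21661.2.2.2.2.2.1, H _ t21661.2.2.2.2.2.2.1⟩⟩, ⟨⟨H _ t21661.2.2.2.2.2.2.2, H _ t21669.1⟩, ⟨H _ t21669.2.1, ⟨H _ t21669.2.2.1, H _ t21669.2.2.2.1⟩⟩⟩⟩⟩⟩⟩⟩, ⟨⟨⟨⟨⟨⟨⟨H _ t21669.2.2.2.2.1, H _ t21669.2.2.2.2.2.1⟩, ⟨H _ t21669.2.2.2.2.2.2.1, H _ t21669.2.2.2.2.2.2.2⟩⟩, ⟨⟨H _ t21677.1, H _ t21677.2.1⟩, ⟨H _ t21677.2.2.1, H _ t21677.2.2.2.1⟩⟩⟩, ⟨⟨⟨H _ t21677.2.2.2.2.1,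 H _ t21677.2.2.2.2.2.1⟩, ⟨H _ t21677.2.2.2.2.2.2.1, H _ t21677.2.2.2.2.2.2.2⟩⟩, ⟨⟨H _ t21685.1, H _ t21685.2.1⟩, ⟨H _ t21685.2.2.1, ⟨H _ t21685.2.2.2.1, H _ t21685.2.2.2.2.1⟩⟩⟩⟩⟩, ⟨⟨⟨⟨H _ t21685.2.2.2.2.2.1, H _ t21685.2.2.2.2.2.2.1⟩, ⟨H _ t21685.2.2.2.2.2.2.2, H _ t21693.1⟩⟩, ⟨⟨H _ t21693.2.1, H _ t21693.2.2.1⟩, ⟨H _ t21693.2.2.2.1, H _ t21693.2.2.2.2.1⟩⟩⟩, ⟨⟨⟨H _ t21693.2.2.2.2.2.1, H _ t21693.2.2.2.2.2.2.1⟩, ⟨H _ t21693.2.2.2.2.2.2.2, H _ t21701.1⟩⟩, ⟨⟨H _ t21701.2.1, H _ t21701.2.2.1⟩, ⟨H _ t21701.2.2.2.1, ⟨H _ t21701.2.2.2.2.1, H _ t21701.2.2.2.2.2.1⟩⟩⟩⟩⟩⟩, ⟨⟨⟨⟨⟨H _ t21701.2.2.2.2.2.2.1, H _ t21701.2.2.2.2.2.2.2⟩, ⟨H _ t21709.1, H _ t21709.2.1⟩⟩, ⟨⟨H _ t21709.2.2.1, H _ t21709.2.2.2.1⟩, ⟨H _ t21709.2.2.2.2.1, H _ t21709.2.2.2.2.2.1⟩⟩⟩, ⟨⟨⟨H _ t21709.2.2.2.2.2.2.1, H _ t21709.2.2.2.2.2.2.2⟩, ⟨H _ t21717.1, H _ t21717.2.1⟩⟩, ⟨⟨H _ t21717.2.2.1, H _ t21717.2.2.2.1⟩, ⟨H _ t21717.2.2.2.2.1, ⟨H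 _ t21717.2.2.2.2.2.1, H _ t21717.2.2.2.2.2.2.1⟩⟩⟩⟩⟩, ⟨⟨⟨⟨H _ t21717.2.2.2.2.2.2.2, H _ t21725.1⟩, ⟨H _ t21725.2.1, H _ t21725.2.2.1⟩⟩, ⟨⟨H _ t21725.2.2.2.1, H _ t21725.2.2.2.2.1⟩, ⟨H _ t21725.2.2.2.2.2.1, ⟨H _ t21725.2.2.2.2.2.2.1, H _ t21725.2.2.2.2.2.2.2⟩⟩⟩⟩, ⟨⟨⟨H _ t21733.1, H _ t21733.2.1⟩, ⟨H _ t21733.2.2.1, H _ t21733.2.2.2.1⟩⟩, ⟨⟨H _ t21733.2.2.2.2.1, H _ t21733.2.2.2.2.2.1⟩, ⟨H _ t21733.2.2.2.2.2.2.1, ⟨H _ t21733.2.2.2.2.2.2.2, H _ t21741.1⟩⟩⟩⟩⟩⟩⟩, ⟨⟨⟨⟨⟨⟨H _ t21741.2.1, H _ t21741.2.2.1⟩, ⟨H _ t21741.2.2.2.1, H _ t21741.2.2.2.2.1⟩⟩, ⟨⟨H _ t21741.2.2.2.2.2.1, H _ t21741.2.2.2.2.2.2.1⟩, ⟨H _ t21741.2.2.2.2.2.2.2, H _ t21749.1⟩⟩⟩, ⟨⟨⟨H _ t21749.2.1, H _ t21749.2.2.1⟩, ⟨H _ t21749.2.2.2.1, H _ t21749.2.2.2.2.1⟩⟩, ⟨⟨H _ t21749.2.2.2.2.2.1, H _ t21749.2.2.2.2.2.2.1⟩, ⟨H _ t21749.2.2.2.2.2.2.2, ⟨H _ t21757.1, H _ t21757.2.1⟩⟩⟩⟩⟩, ⟨⟨⟨⟨H _ t21757.2.2.1, H _ t21757.2.2.2.1⟩, ⟨H _ t21757.2.2.2.2.1,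 H _ t21757.2.2.2.2.2.1⟩⟩, ⟨⟨H _ t21757.2.2.2.2.2.2.1, H _ t21757.2.2.2.2.2.2.2⟩, ⟨H _ t21765.1, H _ t21765.2.1⟩⟩⟩, ⟨⟨⟨H _ t21765.2.2.1, H _ t21765.2.2.2.1⟩, ⟨H _ t21765.2.2.2.2.1, H _ t21765.2.2.2.2.2.1⟩⟩, ⟨⟨H _ t21765.2.2.2.2.2.2.1, H _ t21765.2.2.2.2.2.2.2⟩, ⟨H _ t21773.1, ⟨H _ t21773.2.1, H _ t21773.2.2.1⟩⟩⟩⟩⟩⟩, ⟨⟨⟨⟨⟨H _ t21773.2.2.2.1, H _ t21773.2.2.2.2.1⟩, ⟨H _ t21773.2.2.2.2.2.1, H _ t21773.2.2.2.2.2.2.1⟩⟩, ⟨⟨H _ t21773.2.2.2.2.2.2.2, H _ t21781.1⟩, ⟨H _ t21781.2.1, H _ t21781.2.2.1⟩⟩⟩, ⟨⟨⟨H _ t21781.2.2.2.1, H _ t21781.2.2.2.2.1⟩, ⟨H _ t21781.2.2.2.2.2.1, H _ t21781.2.2.2.2.2.2.1⟩⟩, ⟨⟨H _ t21781.2.2.2.2.2.2.2, H _ t21789.1⟩, ⟨H _ t21789.2.1, ⟨H _ t21789.2.2.1, H _ t21789.2.2.2.1⟩⟩⟩⟩⟩, ⟨⟨⟨⟨H _ t21789.2.2.2.2.1, H _ t21789.2.2.2.2.2.1⟩, ⟨H _ t21789.2.2.2.2.2.2.1, H _ t21789.2.2.2.2.2.2.2⟩⟩, ⟨⟨H _ t21797.1, H _ t21797.2.1⟩, ⟨H _ t21797.2.2.1, ⟨H _ t21797.2.2.2.1, H _ t21797.2.2.2.2.1⟩⟩⟩⟩,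 ⟨⟨⟨H _ t21797.2.2.2.2.2.1, H _ t21797.2.2.2.2.2.2.1⟩, ⟨H _ t21797.2.2.2.2.2.2.2, H _ t21805.1⟩⟩, ⟨⟨H _ t21805.2.1, H _ t21805.2.2.1⟩, ⟨H _ t21805.2.2.2.1, ⟨H _ t21805.2.2.2.2.1, H _ t21805.2.2.2.2.2⟩⟩⟩⟩⟩⟩⟩⟩⟩⟩

end Pool.Agent.MP_c853c5_nt.X.C4950
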