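import Pool.Agent.MP_c853c5_nt.X.C4950.Env
import Pool.Agent.MP_c853c5_nt.X.C4950.D7

set_option autoImplicit false
set_option maxRecDepth 8192
set_option linter.all false

namespace Pool.Agent.MP_c853c5_nt.X.C4950

open Pool.Agent.MP_c853c5_nt.X

def t21811 : allY (E.wth (lkp [])) l21811 = true ∧
    allY (E.wth (lkp [])) l21812 = true ∧
    allY (E.wth (lkp [])) l21813 = true ∧
    allY (E.wth (lkp [])) l21814 = true ∧
    allY (E.wth (lkp [])) l21815 = true ∧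
    allY (E.wth (lkp [])) l21816 = true ∧
    allY (E.wth (lkp [])) l21817 = true ∧
    allY (E.wth (lkp [])) l21818 = true :=
  ⟨by decide +kernel, by decide +kernel, by decide +kernel, by decide +kernel, by decide +kernel, by decide +kernel, by decide +kernel, by decide +kernel⟩

def t21819 : allY (E.wth (lkp [])) l21819 = true ∧
    allY (E.wth (lkp [])) l21820 = true ∧
    allY (E.wth (lkp [])) l21821 = true ∧
    allY (E.wth (lkp [])) l21822 = true ∧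
    allY (E.wth (lkp [])) l21823 = true ∧
    allY (E.wth (lkp [])) l21824 = true ∧
    allY (E.wth (lkp [])) l21825 = true ∧
    allY (E.wth (lkp [])) l21826 = true :=
  ⟨by decide +kernel, by decide +kernel, by decide +kernel, by decide +kernel, by decide +kernel, by decide +kernel, by decide +kernel, by decide +kernel⟩

def t21827 : allY (E.wth (lkp [])) l21827 = true ∧
    allY (E.wth (lkp [])) l21828 = true ∧
    allY (E.wth (lkp [])) l21829 = true ∧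
    allY (E.wth (lkp [])) l21830 = true ∧
    allY (E.wth (lkp [])) l21831 = true ∧
    allY (E.wth (lkp [])) l21832 = true ∧
    allY (E.wth (lkp [])) l21833 = true ∧
    allY (E.wth (lkp [])) l21834 = true :=
  ⟨by decide +kernel, by decide +kernel, by decide +kernel, by decide +kernel, by decide +kernel, by decide +kernel, by decide +kernel, by decide +kernel⟩

def t21835 : allY (E.wth (lkp [])) l21835 = true ∧
    allY (E.wth (lkp [])) l21836 = true ∧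
    allY (E.wth (lkp [])) l21837 = true ∧
    allY (E.wth (lkp [])) l21838 = true ∧
    allY (E.wth (lkp [])) l21839 = true ∧
    allY (E.wth (lkp [])) l21840 = true ∧
    allY (E.wth (lkp [])) l21841 = true ∧
    allY (E.wth (lkp [])) l21842 = true :=
  ⟨by decide +kernel, by decide +kernel, by decide +kernel, by decide +kernel, by decide +kernel, by decide +kernel, by decide +kernel, by decide +kernel⟩

def t21843 : allY (E.wth (lkp [])) l21843 = true ∧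
    allY (E.wth (lkp [])) l21844 = true ∧
    allY (E.wth (lkp [])) l21845 = true ∧
    allY (E.wth (lkp [])) l21846 = true ∧
    allY (E.wth (lkp [])) l21847 = true ∧
    allY (E.wth (lkp [])) l21848 = true ∧
    allY (E.wth (lkp [])) l21849 = true ∧
    allY (E.wth (lkp [])) l21850 = true :=
  ⟨by decide +kernel, by decide +kernel, by decide +kernel, by decide +kernel, by decide +kernel, by decide +kernel, by decide +kernel, by decide +kernel⟩

def t21851 : allY (E.wth (lkp [])) l21851 = true ∧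
    allY (E.wth (lkp [])) l21852 = true ∧
    allY (E.wth (lkp [])) l21853 = true ∧
    allY (E.wth (lkp [])) l21854 = true ∧
    allY (E.wth (lkp [])) l21855 = true ∧
    allY (E.wth (lkp [])) l21856 = true ∧
    allY (E.wth (lkp [])) l21857 = true ∧
    allY (E.wth (lkp [])) l21858 = true :=
  ⟨by decide +kernel, by decide +kernel, by decide +kernel, by decide +kernel, by decide +kernel, by decide +kernel, by decide +kernel, by decide +kernel⟩

def t21859 : allY (E.wth (lkp [])) l21859 = true ∧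
    allY (E.wth (lkp [])) l21860 = true ∧
    allY (E.wth (lkp [])) l21861 = true ∧
    allY (E.wth (lkp [])) l21862 = true ∧
    allY (E.wth (lkp [])) l21863 = true ∧
    allY (E.wth (lkp [])) l21864 = true ∧
    allY (E.wth (lkp [])) l21865 = true ∧
    allY (E.wth (lkp [])) l21866 = true :=
  ⟨by decide +kernel, by decide +kernel, by decide +kernel, by decide +kernel, by decide +kernel, by decide +kernel, by decide +kernel, by decide +kernel⟩

def t21867 : allY (E.wth (lkp [])) l21867 = true ∧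
    allY (E.wth (lkp [])) l21868 = true ∧
    allY (E.wth (lkp [])) l21869 = true ∧
    allY (E.wth (lkp [])) l21870 = true ∧
    allY (E.wth (lkp [])) l21871 = true ∧
    allY (E.wth (lkp [])) l21872 = true ∧
    allY (E.wth (lkp [])) l21873 = true ∧
    allY (E.wth (lkp [])) l21874 = true :=
  ⟨by decide +kernel, by decide +kernel, by decide +kernel, by decide +kernel, by decide +kernel, by decide +kernel, by decide +kernel, by decide +kernel⟩

def t21875 : allY (E.wth (lkp [])) l21875 = true ∧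
    allY (E.wth (lkp [])) l21876 = true ∧
    allY (E.wth (lkp [])) l21877 = true ∧
    allY (E.wth (lkp [])) l21878 = true ∧
    allY (E.wth (lkp [])) l21879 = true ∧
    allY (E.wth (lkp [])) l21880 = true ∧
    allY (E.wth (lkp [])) l21881 = true ∧
    allY (E.wth (lkp [])) l21882 = true :=
  ⟨by decide +kernel, by decide +kernel, by decide +kernel, by decide +kernel, by decide +kernel, by decide +kernel, by decide +kernel, by decide +kernel⟩

def t21883 : allY (E.wth (lkp [])) l21883 = true ∧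
    allY (E.wth (lkp [])) l21884 = true ∧
    allY (E.wth (lkp [])) l21885 = true ∧
    allY (E.wth (lkp [])) l21886 = true ∧
    allY (E.wth (lkp [])) l21887 = true ∧
    allY (E.wth (lkp [])) l21888 = true ∧
    allY (E.wth (lkp [])) l21889 = true ∧
    allY (E.wth (lkp [])) l21890 = true :=
  ⟨by decide +kernel, by decide +kernel, by decide +kernel, by decide +kernel, by decide +kernel, by decide +kernel, by decide +kernel, by decide +kernel⟩

def t21891 : allY (E.wth (lkp [])) l21891 = true ∧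
    allY (E.wth (lkp [])) l21892 = true ∧
    allY (E.wth (lkp [])) l21893 = true ∧
    allY (E.wth (lkp [])) l21894 = true ∧
    allY (E.wth (lkp [])) l21895 = true ∧
    allY (E.wth (lkp [])) l21896 = true ∧
    allY (E.wth (lkp [])) l21897 = true ∧
    allY (E.wth (lkp [])) l21898 = true :=
  ⟨by decide +kernel, by decide +kernel, by decide +kernel, by decide +kernel, by decide +kernel, by decide +kernel, by decide +kernel, by decide +kernel⟩

def t21899 : allY (E.wth (lkp [])) l21899 = true ∧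
    allY (E.wth (lkp [])) l21900 = true ∧
    allY (E.wth (lkp [])) l21901 = true ∧
    allY (E.wth (lkp [])) l21902 = true ∧
    allY (E.wth (lkp [])) l21903 = true ∧
    allY (E.wth (lkp [])) l21904 = true ∧
    allY (E.wth (lkp [])) l21905 = true ∧
    allY (E.wth (lkp [])) l21906 = true :=
  ⟨by decide +kernel, by decide +kernel, by decide +kernel, by decide +kernel, by decide +kernel, by decide +kernel, by decide +kernel, by decide +kernel⟩

def t21907 : allY (E.wth (lkp [])) l21907 = true ∧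
    allY (E.wth (lkp [])) l21908 = true ∧
    allY (E.wth (lkp [])) l21909 = true ∧
    allY (E.wth (lkp [])) l21910 = true ∧
    allY (E.wth (lkp [])) l21911 = true ∧
    allY (E.wth (lkp [])) l21912 = true ∧
    allY (E.wth (lkp [])) l21913 = true ∧
    allY (E.wth (lkp [])) l21914 = true :=
  ⟨by decide +kernel, by decide +kernel, by decide +kernel, by decide +kernel, by decide +kernel, by decide +kernel, by decide +kernel, by decide +kernel⟩

def t21915 : allY (E.wth (lkp [])) l21915 = true ∧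
    allY (E.wth (lkp [])) l21916 = true ∧
    allY (E.wth (lkp [])) l21917 = true ∧
    allY (E.wth (lkp [])) l21918 = true ∧
    allY (E.wth (lkp [])) l21919 = true ∧
    allY (E.wth (lkp [])) l21920 = true ∧
    allY (E.wth (lkp [])) l21921 = true ∧
    allY (E.wth (lkp [])) l21922 = true :=
  ⟨by decide +kernel, by decide +kernel, by decide +kernel, by decide +kernel, by decide +kernel, by decide +kernel, by decide +kernel, by decide +kernel⟩

def t21923 : allY (E.wth (lkp [])) l21923 = true ∧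
    allY (E.wth (lkp [])) l21924 = true ∧
    allY (E.wth (lkp [])) l21925 = true ∧
    allY (E.wth (lkp [])) l21926 = true ∧
    allY (E.wth (lkp [])) l21927 = true ∧
    allY (E.wth (lkp [])) l21928 = true ∧
    allY (E.wth (lkp [])) l21929 = true ∧
    allY (E.wth (lkp [])) l21930 = true :=
  ⟨by decide +kernel, by decide +kernel, by decide +kernel, by decide +kernel, by decide +kernel, by decide +kernel, by decide +kernel, by decide +kernel⟩

def t21931 : allY (E.wth (lkp [])) l21931 = true ∧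
    allY (E.wth (lkp [])) l21932 = true ∧
    allY (E.wth (lkp [])) l21933 = true ∧
    allY (E.wth (lkp [])) l21934 = true ∧
    allY (E.wth (lkp [])) l21935 = true ∧
    allY (E.wth (lkp [])) l21936 = true ∧
    allY (E.wth (lkp [])) l21937 = true ∧
    allY (E.wth (lkp [])) l21938 = true :=
  ⟨by decide +kernel, by decide +kernel, by decide +kernel, by decide +kernel, by decide +kernel, by decide +kernel, by decide +kernel, by decide +kernel⟩

def t21939 : allY (E.wth (lkp [])) l21939 = true ∧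
    allY (E.wth (lkp [])) l21940 = true ∧
    allY (E.wth (lkp [])) l21941 = true ∧
    allY (E.wth (lkp [])) l21942 = true ∧
    allY (E.wth (lkp [])) l21943 = true ∧
    allY (E.wth (lkp [])) l21944 = true ∧
    allY (E.wth (lkp [])) l21945 = true ∧
    allY (E.wth (lkp [])) l21946 = true :=
  ⟨by decide +kernel, by decide +kernel, by decide +kernel, by decide +kernel, by decide +kernel, by decide +kernel, by decide +kernel, by decide +kernel⟩

def t21947 : allY (E.wth (lkp [])) l21947 = true ∧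
    allY (E.wth (lkp [])) l21948 = true ∧
    allY (E.wth (lkp [])) l21949 = true ∧
    allY (E.wth (lkp [])) l21950 = true ∧
    allY (E.wth (lkp [])) l21951 = true ∧
    allY (E.wth (lkp [])) l21952 = true ∧
    allY (E.wth (lkp [])) l21953 = true ∧
    allY (E.wth (lkp [])) l21954 = true :=
  ⟨by decide +kernel, by decide +kernel, by decide +kernel, by decide +kernel, by decide +kernel, by decide +kernel, by decide +kernel, by decide +kernel⟩

def t21955 : allY (E.wth (lkp [])) l21955 = true ∧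
    allY (E.wth (lkp [])) l21956 = true ∧
    allY (E.wth (lkp [])) l21957 = true ∧
    allY (E.wth (lkp [])) l21958 = true ∧
    allY (E.wth (lkp [])) l21959 = true ∧
    allY (E.wth (lkp [])) l21960 = true ∧
    allY (E.wth (lkp [])) l21961 = true ∧
    allY (E.wth (lkp [])) l21962 = true :=
  ⟨by decide +kernel, by decide +kernel, by decide +kernel, by decide +kernel, by decide +kernel, by decide +kernel, by decide +kernel, by decide +kernel⟩

def t21963 : allY (E.wth (lkp [])) l21963 = true ∧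
    allY (E.wth (lkp [])) l21964 = true ∧
    allY (E.wth (lkp [])) l21965 = true ∧
    allY (E.wth (lkp [])) l21966 = true ∧
    allY (E.wth (lkp [])) l21967 = true ∧
    allY (E.wth (lkp [])) l21968 = true ∧
    allY (E.wth (lkp [])) l21969 = true ∧
    allY (E.wth (lkp [])) l21970 = true :=
  ⟨by decide +kernel, by decide +kernel, by decide +kernel, by decide +kernel, by decide +kernel, by decide +kernel, by decide +kernel, by decide +kernel⟩

def t21971 : allY (E.wth (lkp [])) l21971 = true ∧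
    allY (E.wth (lkp [])) l21972 = true ∧
    allY (E.wth (lkp [])) l21973 = true ∧
    allY (E.wth (lkp [])) l21974 = true ∧
    allY (E.wth (lkp [])) l21975 = true ∧
    allY (E.wth (lkp [])) l21976 = true ∧
    allY (E.wth (lkp [])) l21977 = true ∧
    allY (E.wth (lkp [])) l21978 = true :=
  ⟨by decide +kernel, by decide +kernel, by decide +kernel, by decide +kernel, by decide +kernel, by decide +kernel, by decide +kernel, by decide +kernel⟩

def t21979 : allY (E.wth (lkp [])) l21979 = true ∧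
    allY (E.wth (lkp [])) l21980 = true ∧
    allY (E.wth (lkp [])) l21981 = true ∧
    allY (E.wth (lkp [])) l21982 = true ∧
    allY (E.wth (lkp [])) l21983 = true ∧
    allY (E.wth (lkp [])) l21984 = true ∧
    allY (E.wth (lkp [])) l21985 = true ∧
    allY (E.wth (lkp [])) l21986 = true :=
  ⟨by decide +kernel, by decide +kernel, by decide +kernel, by decide +kernel, by decide +kernel, by decide +kernel, by decide +kernel, by decide +kernel⟩

def t21987 : allY (E.wth (lkp [])) l21987 = true ∧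
    allY (E.wth (lkp [])) l21988 = true ∧
    allY (E.wth (lkp [])) l21989 = true ∧
    allY (E.wth (lkp [])) l21990 = true ∧
    allY (E.wth (lkp [])) l21991 = true ∧
    allY (E.wth (lkp [])) l21992 = true ∧
    allY (E.wth (lkp [])) l21993 = true ∧
    allY (E.wth (lkp [])) l21994 = true :=
  ⟨by decide +kernel, by decide +kernel, by decide +kernel, by decide +kernel, by decide +kernel, by decide +kernel, by decide +kernel, by decide +kernel⟩

def t21995 : allY (E.wth (lkp [])) l21995 = true ∧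
    allY (E.wth (lkp [])) l21996 = true ∧
    allY (E.wth (lkp [])) l21997 = true ∧
    allY (E.wth (lkp [])) l21998 = true ∧
    allY (E.wth (lkp [])) l21999 = true ∧
    allY (E.wth (lkp [])) l22000 = true ∧
    allY (E.wth (lkp [])) l22001 = true ∧
    allY (E.wth (lkp [])) l22002 = true :=
  ⟨by decide +kernel, by decide +kernel, by decide +kernel, by decide +kernel, by decide +kernel, by decide +kernel, by decide +kernel, by decide +kernel⟩

def t22003 : allY (E.wth (lkp [])) l22003 = true ∧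
    allY (E.wth (lkp [])) l22004 = true ∧
    allY (E.wth (lkp [])) l22005 = true ∧
    allY (E.wth (lkp [])) l22006 = true ∧
    allY (E.wth (lkp [])) l22007 = true ∧
    allY (E.wth (lkp [])) l22008 = true ∧
    allY (E.wth (lkp [])) l22009 = true ∧
    allY (E.wth (lkp [])) l22010 = true :=
  ⟨by decide +kernel, by decide +kernel, by decide +kernel, by decide +kernel, by decide +kernel, by decide +kernel, by decide +kernel, by decide +kernel⟩

def t22011 : allY (E.wth (lkp [])) l22011 = true ∧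
    allY (E.wth (lkp [])) l22012 = true ∧
    allY (E.wth (lkp [])) l22013 = true ∧
    allY (E.wth (lkp [])) l22014 = true ∧
    allY (E.wth (lkp [])) l22015 = true ∧
    allY (E.wth (lkp [])) l22016 = true ∧
    allY (E.wth (lkp [])) l22017 = true ∧
    allY (E.wth (lkp [])) l22018 = true :=
  ⟨by decide +kernel, by decide +kernel, by decide +kernel, by decide +kernel, by decide +kernel, by decide +kernel, by decide +kernel, by decide +kernel⟩

def t22019 : allY (E.wth (lkp [])) l22019 = true ∧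
    allY (E.wth (lkp [])) l22020 = true ∧
    allY (E.wth (lkp [])) l22021 = true ∧
    allY (E.wth (lkp [])) l22022 = true ∧
    allY (E.wth (lkp [])) l22023 = true ∧
    allY (E.wth (lkp [])) l22024 = true ∧
    allY (E.wth (lkp [])) l22025 = true ∧
    allY (E.wth (lkp [])) l22026 = true :=
  ⟨by decide +kernel, by decide +kernel, by decide +kernel, by decide +kernel, by decide +kernel, by decide +kernel, by decide +kernel, by decide +kernel⟩

def t22027 : allY (E.wth (lkp [])) l22027 = true ∧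
    allY (E.wth (lkp [])) l22028 = true ∧
    allY (E.wth (lkp [])) l22029 = true ∧
    allY (E.wth (lkp [])) l22030 = true ∧
    allY (E.wth (lkp [])) l22031 = true ∧
    allY (E.wth (lkp [])) l22032 = true ∧
    allY (E.wth (lkp [])) l22033 = true ∧
    allY (E.wth (lkp [])) l22034 = true :=
  ⟨by decide +kernel, by decide +kernel, by decide +kernel, by decide +kernel, by decide +kernel, by decide +kernel, by decide +kernel, by decide +kernel⟩

def t22035 : allY (E.wth (lkp [])) l22035 = true ∧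
    allY (E.wth (lkp [])) l22036 = true ∧
    allY (E.wth (lkp [])) l22037 = true ∧
    allY (E.wth (lkp [])) l22038 = true ∧
    allY (E.wth (lkp [])) l22039 = true ∧
    allY (E.wth (lkp [])) l22040 = true ∧
    allY (E.wth (lkp [])) l22041 = true ∧
    allY (E.wth (lkp [])) l22042 = true :=
  ⟨by decide +kernel, by decide +kernel, by decide +kernel, by decide +kernel, by decide +kernel, by decide +kernel, by decide +kernel, by decide +kernel⟩

def t22043 : allY (E.wth (lkp [])) l22043 = true ∧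
    allY (E.wth (lkp [])) l22044 = true ∧
    allY (E.wth (lkp [])) l22045 = true ∧
    allY (E.wth (lkp [])) l22046 = true ∧
    allY (E.wth (lkp [])) l22047 = true ∧
    allY (E.wth (lkp [])) l22048 = true ∧
    allY (E.wth (lkp [])) l22049 = true ∧
    allY (E.wth (lkp [])) l22050 = true :=
  ⟨by decide +kernel, by decide +kernel, by decide +kernel, by decide +kernel, by decide +kernel, by decide +kernel, by decide +kernel, by decide +kernel⟩

def t22051 : allY (E.wth (lkp [])) l22051 = true ∧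
    allY (E.wth (lkp [])) l22052 = true ∧
    allY (E.wth (lkp [])) l22053 = true ∧
    allY (E.wth (lkp [])) l22054 = true ∧
    allY (E.wth (lkp [])) l22055 = true ∧
    allY (E.wth (lkp [])) l22056 = true ∧
    allY (E.wth (lkp [])) l22057 = true ∧
    allY (E.wth (lkp [])) l22058 = true :=
  ⟨by decide +kernel, by decide +kernel, by decide +kernel, by decide +kernel, by decide +kernel, by decide +kernel, by decide +kernel, by decide +kernel⟩

def t22059 : allY (E.wth (lkp [])) l22059 = true ∧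
    allY (E.wth (lkp [])) l22060 = true ∧
    allY (E.wth (lkp [])) l22061 = true ∧
    allY (E.wth (lkp [])) l22062 = true ∧
    allY (E.wth (lkp [])) l22063 = true ∧
    allY (E.wth (lkp [])) l22064 = true ∧
    allY (E.wth (lkp [])) l22065 = true ∧
    allY (E.wth (lkp [])) l22066 = true :=
  ⟨by decide +kernel, by decide +kernel, by decide +kernel, by decide +kernel, by decide +kernel, by decide +kernel, by decide +kernel, by decide +kernel⟩

def t22067 : allY (E.wth (lkp [])) l22067 = true ∧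
    allY (E.wth (lkp [])) l22068 = true ∧
    allY (E.wth (lkp [])) l22069 = true ∧
    allY (E.wth (lkp [])) l22070 = true ∧
    allY (E.wth (lkp [])) l22071 = true ∧
    allY (E.wth (lkp [])) l22072 = true ∧
    allY (E.wth (lkp [])) l22073 = true ∧
    allY (E.wth (lkp [])) l22074 = true :=
  ⟨by decide +kernel, by decide +kernel, by decide +kernel, by decide +kernel, by decide +kernel, by decide +kernel, by decide +kernel, by decide +kernel⟩

def t22075 : allY (E.wth (lkp [])) l22075 = true ∧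
    allY (E.wth (lkp [])) l22076 = true ∧
    allY (E.wth (lkp [])) l22077 = true ∧
    allY (E.wth (lkp [])) l22078 = true ∧
    allY (E.wth (lkp [])) l22079 = true ∧
    allY (E.wth (lkp [])) l22080 = true ∧
    allY (E.wth (lkp [])) l22081 = true ∧
    allY (E.wth (lkp [])) l22082 = true :=
  ⟨by decide +kernel, by decide +kernel, by decide +kernel, by decide +kernel, by decide +kernel, by decide +kernel, by decide +kernel, by decide +kernel⟩

def t22083 : allY (E.wth (lkp [])) l22083 = true ∧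
    allY (E.wth (lkp [])) l22084 = true ∧
    allY (E.wth (lkp [])) l22085 = true ∧
    allY (E.wth (lkp [])) l22086 = true ∧
    allY (E.wth (lkp [])) l22087 = true ∧
    allY (E.wth (lkp [])) l22088 = true ∧
    allY (E.wth (lkp [])) l22089 = true ∧
    allY (E.wth (lkp [])) l22090 = true :=
  ⟨by decide +kernel, by decide +kernel, by decide +kernel, by decide +kernel, by decide +kernel, by decide +kernel, by decide +kernel, by decide +kernel⟩

def t22091 : allY (E.wth (lkp [])) l22091 = true ∧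
    allY (E.wth (lkp [])) l22092 = true ∧
    allY (E.wth (lkp [])) l22093 = true ∧
    allY (E.wth (lkp [])) l22094 = true ∧
    allY (E.wth (lkp [])) l22095 = true ∧
    allY (E.wth (lkp [])) l22096 = true ∧
    allY (E.wth (lkp [])) l22097 = true ∧
    allY (E.wth (lkp [])) l22098 = true :=
  ⟨by decide +kernel, by decide +kernel, by decide +kernel, by decide +kernel, by decide +kernel, by decide +kernel, by decide +kernel, by decide +kernel⟩

def t22099 : allY (E.wth (lkp [])) l22099 = true ∧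
    allY (E.wth (lkp [])) l22100 = true ∧
    allY (E.wth (lkp [])) l22101 = true ∧
    allY (E.wth (lkp [])) l22102 = true ∧
    allY (E.wth (lkp [])) l22103 = true ∧
    allY (E.wth (lkp [])) l22104 = true ∧
    allY (E.wth (lkp [])) l22105 = true ∧
    allY (E.wth (lkp [])) l22106 = true :=
  ⟨by decide +kernel, by decide +kernel, by decide +kernel, by decide +kernel, by decide +kernel, by decide +kernel, by decide +kernel, by decide +kernel⟩

def t22107 : allY (E.wth (lkp [])) l22107 = true ∧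
    allY (E.wth (lkp [])) l22108 = true ∧
    allY (E.wth (lkp [])) l22109 = true ∧
    allY (E.wth (lkp [])) l22110 = true ∧
    allY (E.wth (lkp [])) l22111 = true ∧
    allY (E.wth (lkp [])) l22112 = true ∧
    allY (E.wth (lkp [])) l22113 = true ∧
    allY (E.wth (lkp [])) l22114 = true :=
  ⟨by decide +kernel, by decide +kernel, by decide +kernel, by decide +kernel, by decide +kernel, by decide +kernel, by decide +kernel, by decide +kernel⟩

def t22115 : allY (E.wth (lkp [])) l22115 = true ∧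
    allY (E.wth (lkp [])) l22116 = true ∧
    allY (E.wth (lkp [])) l22117 = true ∧
    allY (E.wth (lkp [])) l22118 = true ∧
    allY (E.wth (lkp [])) l22119 = true ∧
    allY (E.wth (lkp [])) l22120 = true ∧
    allY (E.wth (lkp [])) l22121 = true ∧
    allY (E.wth (lkp [])) l22122 = true :=
  ⟨by decide +kernel, by decide +kernel, by decide +kernel, by decide +kernel, by decide +kernel, by decide +kernel, by decide +kernel, by decide +kernel⟩

def t22123 : allY (E.wth (lkp [])) l22123 = true ∧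
    allY (E.wth (lkp [])) l22124 = true ∧
    allY (E.wth (lkp [])) l22125 = true ∧
    allY (E.wth (lkp [])) l22126 = true ∧
    allY (E.wth (lkp [])) l22127 = true ∧
    allY (E.wth (lkp [])) l22128 = true ∧
    allY (E.wth (lkp [])) l22129 = true ∧
    allY (E.wth (lkp [])) l22130 = true :=
  ⟨by decide +kernel, by decide +kernel, by decide +kernel, by decide +kernel, by decide +kernel, by decide +kernel, by decide +kernel, by decide +kernel⟩

def t22131 : allY (E.wth (lkp [])) l22131 = true ∧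
    allY (E.wth (lkp [])) l22132 = true ∧
    allY (E.wth (lkp [])) l22133 = true ∧
    allY (E.wth (lkp [])) l22134 = true ∧
    allY (E.wth (lkp [])) l22135 = true ∧
    allY (E.wth (lkp [])) l22136 = true ∧
    allY (E.wth (lkp [])) l22137 = true ∧
    allY (E.wth (lkp [])) l22138 = true :=
  ⟨by decide +kernel, by decide +kernel, by decide +kernel, by decide +kernel, by decide +kernel, by decide +kernel, by decide +kernel, by decide +kernel⟩

def t22139 : allY (E.wth (lkp [])) l22139 = true ∧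
    allY (E.wth (lkp [])) l22140 = true ∧
    allY (E.wth (lkp [])) l22141 = true ∧
    allY (E.wth (lkp [])) l22142 = true ∧
    allY (E.wth (lkp [])) l22143 = true ∧
    allY (E.wth (lkp [])) l22144 = true ∧
    allY (E.wth (lkp [])) l22145 = true ∧
    allY (E.wth (lkp [])) l22146 = true :=
  ⟨by decide +kernel, by decide +kernel, by decide +kernel, by decide +kernel, by decide +kernel, by decide +kernel, by decide +kernel, by decide +kernel⟩

def t22147 : allY (E.wth (lkp [])) l22147 = true ∧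
    allY (E.wth (lkp [])) l22148 = true ∧
    allY (E.wth (lkp [])) l22149 = true ∧
    allY (E.wth (lkp [])) l22150 = true ∧
    allY (E.wth (lkp [])) l22151 = true ∧
    allY (E.wth (lkp [])) l22152 = true ∧
    allY (E.wth (lkp [])) l22153 = true ∧
    allY (E.wth (lkp [])) l22154 = true :=
  ⟨by decide +kernel, by decide +kernel, by decide +kernel, by decide +kernel, by decide +kernel, by decide +kernel, by decide +kernel, by decide +kernel⟩

def t22155 : allY (E.wth (lkp [])) l22155 = true ∧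
    allY (E.wth (lkp [])) l22156 = true ∧
    allY (E.wth (lkp [])) l22157 = true ∧
    allY (E.wth (lkp [])) l22158 = true ∧
    allY (E.wth (lkp [])) l22159 = true ∧
    allY (E.wth (lkp [])) l22160 = true ∧
    allY (E.wth (lkp [])) l22161 = true ∧
    allY (E.wth (lkp [])) l22162 = true :=
  ⟨by decide +kernel, by decide +kernel, by decide +kernel, by decide +kernel, by decide +kernel, by decide +kernel, by decide +kernel, by decide +kernel⟩

def t22163 : allY (E.wth (lkp [])) l22163 = true ∧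
    allY (E.wth (lkp [])) l22164 = true ∧
    allY (E.wth (lkp [])) l22165 = true ∧
    allY (E.wth (lkp [])) l22166 = true ∧
    allY (E.wth (lkp [])) l22167 = true ∧
    allY (E.wth (lkp [])) l22168 = true ∧
    allY (E.wth (lkp [])) l22169 = true ∧
    allY (E.wth (lkp [])) l22170 = true :=
  ⟨by decide +kernel, by decide +kernel, by decide +kernel, by decide +kernel, by decide +kernel, by decide +kernel, by decide +kernel, by decide +kernel⟩

def t22171 : allY (E.wth (lkp [])) l22171 = true ∧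
    allY (E.wth (lkp [])) l22172 = true ∧
    allY (E.wth (lkp [])) l22173 = true ∧
    allY (E.wth (lkp [])) l22174 = true ∧
    allY (E.wth (lkp [])) l22175 = true ∧
    allY (E.wth (lkp [])) l22176 = true ∧
    allY (E.wth (lkp [])) l22177 = true ∧
    allY (E.wth (lkp [])) l22178 = true :=
  ⟨by decide +kernel, by decide +kernel, by decide +kernel, by decide +kernel, by decide +kernel, by decide +kernel, by decide +kernel, by decide +kernel⟩

def t22179 : allY (E.wth (lkp [])) l22179 = true ∧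
    allY (E.wth (lkp [])) l22180 = true ∧
    allY (E.wth (lkp [])) l22181 = true ∧
    allY (E.wth (lkp [])) l22182 = true ∧
    allY (E.wth (lkp [])) l22183 = true ∧
    allY (E.wth (lkp [])) l22184 = true ∧
    allY (E.wth (lkp [])) l22185 = true ∧
    allY (E.wth (lkp [])) l22186 = true :=
  ⟨by decide +kernel, by decide +kernel, by decide +kernel, by decide +kernel, by decide +kernel, by decide +kernel, by decide +kernel, by decide +kernel⟩

def t22187 : allY (E.wth (lkp [])) l22187 = true ∧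
    allY (E.wth (lkp [])) l22188 = true ∧
    allY (E.wth (lkp [])) l22189 = true ∧
    allY (E.wth (lkp [])) l22190 = true ∧
    allY (E.wth (lkp [])) l22191 = true ∧
    allY (E.wth (lkp [])) l22192 = true ∧
    allY (E.wth (lkp [])) l22193 = true ∧
    allY (E.wth (lkp [])) l22194 = true :=
  ⟨by decide +kernel, by decide +kernel, by decide +kernel, by decide +kernel, by decide +kernel, by decide +kernel, by decide +kernel, by decide +kernel⟩

def t22195 : allY (E.wth (lkp [])) l22195 = true ∧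
    allY (E.wth (lkp [])) l22196 = true ∧
    allY (E.wth (lkp [])) l22197 = true ∧
    allY (E.wth (lkp [])) l22198 = true ∧
    allY (E.wth (lkp [])) l22199 = true ∧
    allY (E.wth (lkp [])) l22200 = true ∧
    allY (E.wth (lkp [])) l22201 = true ∧
    allY (E.wth (lkp [])) l22202 = true :=
  ⟨by decide +kernel, by decide +kernel, by decide +kernel, by decide +kernel, by decide +kernel, by decide +kernel, by decide +kernel, by decide +kernel⟩

def t22203 : allY (E.wth (lkp [])) l22203 = true ∧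
    allY (E.wth (lkp [])) l22204 = true ∧
    allY (E.wth (lkp [])) l22205 = true ∧
    allY (E.wth (lkp [])) l22206 = true ∧
    allY (E.wth (lkp [])) l22207 = true ∧
    allY (E.wth (lkp [])) l22208 = true ∧
    allY (E.wth (lkp [])) l22209 = true ∧
    allY (E.wth (lkp [])) l22210 = true :=
  ⟨by decide +kernel, by decide +kernel, by decide +kernel, by decide +kernel, by decide +kernel, by decide +kernel, by decide +kernel, by decide +kernel⟩

def t22211 : allY (E.wth (lkp [])) l22211 = true ∧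
    allY (E.wth (lkp [])) l22212 = true ∧
    allY (E.wth (lkp [])) l22213 = true ∧
    allY (E.wth (lkp [])) l22214 = true ∧
    allY (E.wth (lkp [])) l22215 = true ∧
    allY (E.wth (lkp [])) l22216 = true ∧
    allY (E.wth (lkp [])) l22217 = true ∧
    allY (E.wth (lkp [])) l22218 = true :=
  ⟨by decide +kernel, by decide +kernel, by decide +kernel, by decide +kernel, by decide +kernel, by decide +kernel, by decide +kernel, by decide +kernel⟩

def t22219 : allY (E.wth (lkp [])) l22219 = true ∧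
    allY (E.wth (lkp [])) l22220 = true ∧
    allY (E.wth (lkp [])) l22221 = true ∧
    allY (E.wth (lkp [])) l22222 = true ∧
    allY (E.wth (lkp [])) l22223 = true ∧
    allY (E.wth (lkp [])) l22224 = true ∧
    allY (E.wth (lkp [])) l22225 = true ∧
    allY (E.wth (lkp [])) l22226 = true :=
  ⟨by decide +kernel, by decide +kernel, by decide +kernel, by decide +kernel, by decide +kernel, by decide +kernel, by decide +kernel, by decide +kernel⟩

def t22227 : allY (E.wth (lkp [])) l22227 = true ∧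
    allY (E.wth (lkp [])) l22228 = true ∧
    allY (E.wth (lkp [])) l22229 = true ∧
    allY (E.wth (lkp [])) l22230 = true ∧
    allY (E.wth (lkp [])) l22231 = true ∧
    allY (E.wth (lkp [])) l22232 = true ∧
    allY (E.wth (lkp [])) l22233 = true ∧
    allY (E.wth (lkp [])) l22234 = true :=
  ⟨by decide +kernel, by decide +kernel, by decide +kernel, by decide +kernel, by decide +kernel, by decide +kernel, by decide +kernel, by decide +kernel⟩

def t22235 : allY (E.wth (lkp [])) l22235 = true ∧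
    allY (E.wth (lkp [])) l22236 = true ∧
    allY (E.wth (lkp [])) l22237 = true ∧
    allY (E.wth (lkp [])) l22238 = true ∧
    allY (E.wth (lkp [])) l22239 = true ∧
    allY (E.wth (lkp [])) l22240 = true ∧
    allY (E.wth (lkp [])) l22241 = true ∧
    allY (E.wth (lkp [])) l22242 = true :=
  ⟨by decide +kernel, by decide +kernel, by decide +kernel, by decide +kernel, by decide +kernel, by decide +kernel, by decide +kernel, by decide +kernel⟩

def t22243 : allY (E.wth (lkp [])) l22243 = true ∧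
    allY (E.wth (lkp [])) l22244 = true ∧
    allY (E.wth (lkp [])) l22245 = true ∧
    allY (E.wth (lkp [])) l22246 = true ∧
    allY (E.wth (lkp [])) l22247 = true ∧
    allY (E.wth (lkp [])) l22248 = true ∧
    allY (E.wth (lkp [])) l22249 = true ∧
    allY (E.wth (lkp [])) l22250 = true :=
  ⟨by decide +kernel, by decide +kernel, by decide +kernel, by decide +kernel, by decide +kernel, by decide +kernel, by decide +kernel, by decide +kernel⟩

def t22251 : allY (E.wth (lkp [])) l22251 = true ∧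
    allY (E.wth (lkp [])) l22252 = true ∧
    allY (E.wth (lkp [])) l22253 = true ∧
    allY (E.wth (lkp [])) l22254 = true ∧
    allY (E.wth (lkp [])) l22255 = true ∧
    allY (E.wth (lkp [])) l22256 = true ∧
    allY (E.wth (lkp [])) l22257 = true ∧
    allY (E.wth (lkp [])) l22258 = true :=
  ⟨by decide +kernel, by decide +kernel, by decide +kernel, by decide +kernel, by decide +kernel, by decide +kernel, by decide +kernel, by decide +kernel⟩

def t22259 : allY (E.wth (lkp [])) l22259 = true ∧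
    allY (E.wth (lkp [])) l22260 = true ∧
    allY (E.wth (lkp [])) l22261 = true ∧
    allY (E.wth (lkp [])) l22262 = true ∧
    allY (E.wth (lkp [])) l22263 = true ∧
    allY (E.wth (lkp [])) l22264 = true ∧
    allY (E.wth (lkp [])) l22265 = true ∧
    allY (E.wth (lkp [])) l22266 = true :=
  ⟨by decide +kernel, by decide +kernel, by decide +kernel, by decide +kernel, by decide +kernel, by decide +kernel, by decide +kernel, by decide +kernel⟩

def t22267 : allY (E.wth (lkp [])) l22267 = true ∧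
    allY (E.wth (lkp [])) l22268 = true ∧
    allY (E.wth (lkp [])) l22269 = true ∧
    allY (E.wth (lkp [])) l22270 = true ∧
    allY (E.wth (lkp [])) l22271 = true ∧
    allY (E.wth (lkp [])) l22272 = true ∧
    allY (E.wth (lkp [])) l22273 = true ∧
    allY (E.wth (lkp [])) l22274 = true :=
  ⟨by decide +kernel, by decide +kernel, by decide +kernel, by decide +kernel, by decide +kernel, by decide +kernel, by decide +kernel, by decide +kernel⟩

def t22275 : allY (E.wth (lkp [])) l22275 = true ∧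
    allY (E.wth (lkp [])) l22276 = true ∧
    allY (E.wth (lkp [])) l22277 = true ∧
    allY (E.wth (lkp [])) l22278 = true ∧
    allY (E.wth (lkp [])) l22279 = true ∧
    allY (E.wth (lkp [])) l22280 = true ∧
    allY (E.wth (lkp [])) l22281 = true ∧
    allY (E.wth (lkp [])) l22282 = true :=
  ⟨by decide +kernel, by decide +kernel, by decide +kernel, by decide +kernel, by decide +kernel, by decide +kernel, by decide +kernel, by decide +kernel⟩

def t22283 : allY (E.wth (lkp [])) l22283 = true ∧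
    allY (E.wth (lkp [])) l22284 = true ∧
    allY (E.wth (lkp [])) l22285 = true ∧
    allY (E.wth (lkp [])) l22286 = true ∧
    allY (E.wth (lkp [])) l22287 = true ∧
    allY (E.wth (lkp [])) l22288 = true ∧
    allY (E.wth (lkp [])) l22289 = true ∧
    allY (E.wth (lkp [])) l22290 = true :=
  ⟨by decide +kernel, by decide +kernel, by decide +kernel, by decide +kernel, by decide +kernel, by decide +kernel, by decide +kernel, by decide +kernel⟩

def t22291 : allY (E.wth (lkp [])) l22291 = true ∧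
    allY (E.wth (lkp [])) l22292 = true ∧
    allY (E.wth (lkp [])) l22293 = true ∧
    allY (E.wth (lkp [])) l22294 = true ∧
    allY (E.wth (lkp [])) l22295 = true ∧
    allY (E.wth (lkp [])) l22296 = true ∧
    allY (E.wth (lkp [])) l22297 = true ∧
    allY (E.wth (lkp [])) l22298 = true :=
  ⟨by decide +kernel, by decide +kernel, by decide +kernel, by decide +kernel, by decide +kernel, by decide +kernel, by decide +kernel, by decide +kernel⟩

def t22299 : allY (E.wth (lkp [])) l22299 = true ∧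
    allY (E.wth (lkp [])) l22300 = true ∧
    allY (E.wth (lkp [])) l22301 = true ∧
    allY (E.wth (lkp [])) l22302 = true ∧
    allY (E.wth (lkp [])) l22303 = true ∧
    allY (E.wth (lkp [])) l22304 = true ∧
    allY (E.wth (lkp [])) l22305 = true ∧
    allY (E.wth (lkp [])) l22306 = true :=
  ⟨by decide +kernel, by decide +kernel, by decide +kernel, by decide +kernel, by decide +kernel, by decide +kernel, by decide +kernel, by decide +kernel⟩

def t22307 : allY (E.wth (lkp [])) l22307 = true ∧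
    allY (E.wth (lkp [])) l22308 = true ∧
    allY (E.wth (lkp [])) l22309 = true ∧
    allY (E.wth (lkp [])) l22310 = true ∧
    allY (E.wth (lkp [])) l22311 = true ∧
    allY (E.wth (lkp [])) l22312 = true ∧
    allY (E.wth (lkp [])) l22313 = true ∧
    allY (E.wth (lkp [])) l22314 = true :=
  ⟨by decide +kernel, by decide +kernel, by decide +kernel, by decide +kernel, by decide +kernel, by decide +kernel, by decide +kernel, by decide +kernel⟩

def t22315 : allY (E.wth (lkp [])) l22315 = true ∧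
    allY (E.wth (lkp [])) l22316 = true ∧
    allY (E.wth (lkp [])) l22317 = true ∧
    allY (E.wth (lkp [])) l22318 = true ∧
    allY (E.wth (lkp [])) l22319 = true ∧
    allY (E.wth (lkp [])) l22320 = true ∧
    allY (E.wth (lkp [])) l22321 = true ∧
    allY (E.wth (lkp [])) l22322 = true :=
  ⟨by decide +kernel, by decide +kernel, by decide +kernel, by decide +kernel, by decide +kernel, by decide +kernel, by decide +kernel, by decide +kernel⟩

def t22323 : allY (E.wth (lkp [])) l22323 = true ∧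
    allY (E.wth (lkp [])) l22324 = true ∧
    allY (E.wth (lkp [])) l22325 = true ∧
    allY (E.wth (lkp [])) l22326 = true ∧
    allY (E.wth (lkp [])) l22327 = true ∧
    allY (E.wth (lkp [])) l22328 = true ∧
    allY (E.wth (lkp [])) l22329 = true ∧
    allY (E.wth (lkp [])) l22330 = true :=
  ⟨by decide +kernel, by decide +kernel, by decide +kernel, by decide +kernel, by decide +kernel, by decide +kernel, by decide +kernel, by decide +kernel⟩

def t22331 : allY (E.wth (lkp [])) l22331 = true ∧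
    allY (E.wth (lkp [])) l22332 = true ∧
    allY (E.wth (lkp [])) l22333 = true ∧
    allY (E.wth (lkp [])) l22334 = true ∧
    allY (E.wth (lkp [])) l22335 = true ∧
    allY (E.wth (lkp [])) l22336 = true ∧
    allY (E.wth (lkp [])) l22337 = true ∧
    allY (E.wth (lkp [])) l22338 = true :=
  ⟨by decide +kernel, by decide +kernel, by decide +kernel, by decide +kernel, by decide +kernel, by decide +kernel, by decide +kernel, by decide +kernel⟩

def t22339 : allY (E.wth (lkp [])) l22339 = true ∧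
    allY (E.wth (lkp [])) l22340 = true ∧
    allY (E.wth (lkp [])) l22341 = true ∧
    allY (E.wth (lkp [])) l22342 = true ∧
    allY (E.wth (lkp [])) l22343 = true ∧
    allY (E.wth (lkp [])) l22344 = true ∧
    allY (E.wth (lkp [])) l22345 = true ∧
    allY (E.wth (lkp [])) l22346 = true :=
  ⟨by decide +kernel, by decide +kernel, by decide +kernel, by decide +kernel, by decide +kernel, by decide +kernel, by decide +kernel, by decide +kernel⟩

def t22347 : allY (E.wth (lkp [])) l22347 = true ∧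
    allY (E.wth (lkp [])) l22348 = true ∧
    allY (E.wth (lkp [])) l22349 = true ∧
    allY (E.wth (lkp [])) l22350 = true ∧
    allY (E.wth (lkp [])) l22351 = true ∧
    allY (E.wth (lkp [])) l22352 = true ∧
    allY (E.wth (lkp [])) l22353 = true ∧
    allY (E.wth (lkp [])) l22354 = true :=
  ⟨by decide +kernel, by decide +kernel, by decide +kernel, by decide +kernel, by decide +kernel, by decide +kernel, by decide +kernel, by decide +kernel⟩

def t22355 : allY (E.wth (lkp [])) l22355 = true ∧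
    allY (E.wth (lkp [])) l22356 = true ∧
    allY (E.wth (lkp [])) l22357 = true ∧
    allY (E.wth (lkp [])) l22358 = true ∧
    allY (E.wth (lkp [])) l22359 = true ∧
    allY (E.wth (lkp [])) l22360 = true ∧
    allY (E.wth (lkp [])) l22361 = true ∧
    allY (E.wth (lkp [])) l22362 = true :=
  ⟨by decide +kernel, by decide +kernel, by decide +kernel, by decide +kernel, by decide +kernel, by decide +kernel, by decide +kernel, by decide +kernel⟩

def t22363 : allY (E.wth (lkp [])) l22363 = true ∧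
    allY (E.wth (lkp [])) l22364 = true ∧
    allY (E.wth (lkp [])) l22365 = true ∧
    allY (E.wth (lkp [])) l22366 = true ∧
    allY (E.wth (lkp [])) l22367 = true ∧
    allY (E.wth (lkp [])) l22368 = true ∧
    allY (E.wth (lkp [])) l22369 = true ∧
    allY (E.wth (lkp [])) l22370 = true :=
  ⟨by decide +kernel, by decide +kernel, by decide +kernel, by decide +kernel, by decide +kernel, by decide +kernel, by decide +kernel, by decide +kernel⟩

def t22371 : allY (E.wth (lkp [])) l22371 = true ∧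
    allY (E.wth (lkp [])) l22372 = true ∧
    allY (E.wth (lkp [])) l22373 = true ∧
    allY (E.wth (lkp [])) l22374 = true ∧
    allY (E.wth (lkp [])) l22375 = true ∧
    allY (E.wth (lkp [])) l22376 = true ∧
    allY (E.wth (lkp [])) l22377 = true ∧
    allY (E.wth (lkp [])) l22378 = true :=
  ⟨by decide +kernel, by decide +kernel, by decide +kernel, by decide +kernel, by decide +kernel, by decide +kernel, by decide +kernel, by decide +kernel⟩

def t22379 : allY (E.wth (lkp [])) l22379 = true :=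
  by decide +kernel

theorem a39 {p : Rf → Prop} (H : ∀ l, allY (E.wth (lkp [])) l = true → (lkp l).All p) :
    b39.All p := ⟨⟨⟨⟨⟨⟨⟨⟨⟨H _ t21811.1, H _ t21811.2.1⟩, ⟨H _ t21811.2.2.1, H _ t21811.2.2.2.1⟩⟩, ⟨⟨H _ t21811.2.2.2.2.1, H _ t21811.2.2.2.2.2.1⟩, ⟨H _ t21811.2.2.2.2.2.2.1, H _ t21811.2.2.2.2.2.2.2⟩⟩⟩, ⟨⟨⟨H _ t21819.1, H _ t21819.2.1⟩, ⟨H _ t21819.2.2.1, H _ t21819.2.2.2.1⟩⟩, ⟨⟨H _ t21819.2.2.2.2.1, H _ t21819.2.2.2.2.2.1⟩, ⟨H _ t21819.2.2.2.2.2.2.1, ⟨H _ t21819.2.2.2.2.2.2.2, H _ t21827.1⟩⟩⟩⟩⟩, ⟨⟨⟨⟨H _ t21827.2.1, H _ t21827.2.2.1⟩, ⟨H _ t21827.2.2.2.1, H _ t21827.2.2.2.2.1⟩⟩, ⟨⟨H _ t21827.2.2.2.2.2.1, H _ t21827.2.2.2.2.2.2.1⟩, ⟨H _ t21827.2.2.2.2.2.2.2, ⟨H _ t21835.1, H _ t21835.2.1⟩⟩⟩⟩, ⟨⟨⟨H _ t21835.2.2.1, H _ t21835.2.2.2.1⟩, ⟨H _ t21835.2.2.2.2.1, H _ t21835.2.2.2.2.2.1⟩⟩, ⟨⟨H _ t21835.2.2.2.2.2.2.1, H _ t21835.2.2.2.2.2.2.2⟩, ⟨H _ t21843.1, ⟨H _ t21843.2.1, H _ t21843.2.2.1⟩⟩⟩⟩⟩⟩,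 ⟨⟨⟨⟨⟨H _ t21843.2.2.2.1, H _ t21843.2.2.2.2.1⟩, ⟨H _ t21843.2.2.2.2.2.1, H _ t21843.2.2.2.2.2.2.1⟩⟩, ⟨⟨H _ t21843.2.2.2.2.2.2.2, H _ t21851.1⟩, ⟨H _ t21851.2.1, ⟨H _ t21851.2.2.1, H _ t21851.2.2.2.1⟩⟩⟩⟩, ⟨⟨⟨H _ t21851.2.2.2.2.1, H _ t21851.2.2.2.2.2.1⟩, ⟨H _ t21851.2.2.2.2.2.2.1, H _ t21851.2.2.2.2.2.2.2⟩⟩, ⟨⟨H _ t21859.1, H _ t21859.2.1⟩, ⟨H _ t21859.2.2.1, ⟨H _ t21859.2.2.2.1, H _ t21859.2.2.2.2.1⟩⟩⟩⟩⟩, ⟨⟨⟨⟨H _ t21859.2.2.2.2.2.1, H _ t21859.2.2.2.2.2.2.1⟩, ⟨H _ t21859.2.2.2.2.2.2.2, H _ t21867.1⟩⟩, ⟨⟨H _ t21867.2.1, H _ t21867.2.2.1⟩, ⟨H _ t21867.2.2.2.1, ⟨H _ t21867.2.2.2.2.1, H _ t21867.2.2.2.2.2.1⟩⟩⟩⟩, ⟨⟨⟨H _ t21867.2.2.2.2.2.2.1, H _ t21867.2.2.2.2.2.2.2⟩, ⟨H _ t21875.1, H _ t21875.2.1⟩⟩, ⟨⟨H _ t21875.2.2.1, H _ t21875.2.2.2.1⟩, ⟨H _ t21875.2.2.2.2.1, ⟨H _ t21875.2.2.2.2.2.1, H _ t21875.2.2.2.2.2.2.1⟩⟩⟩⟩⟩⟩⟩, ⟨⟨⟨⟨⟨⟨H _ t21875.2.2.2.2.2.2.2, H _ t21883.1⟩, ⟨H _ t21883.2.1, H _ t21883.2.2.1⟩⟩,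 ⟨⟨H _ t21883.2.2.2.1, H _ t21883.2.2.2.2.1⟩, ⟨H _ t21883.2.2.2.2.2.1, H _ t21883.2.2.2.2.2.2.1⟩⟩⟩, ⟨⟨⟨H _ t21883.2.2.2.2.2.2.2, H _ t21891.1⟩, ⟨H _ t21891.2.1, H _ t21891.2.2.1⟩⟩, ⟨⟨H _ t21891.2.2.2.1, H _ t21891.2.2.2.2.1⟩, ⟨H _ t21891.2.2.2.2.2.1, ⟨H _ t21891.2.2.2.2.2.2.1, H _ t21891.2.2.2.2.2.2.2⟩⟩⟩⟩⟩, ⟨⟨⟨⟨H _ t21899.1, H _ t21899.2.1⟩, ⟨H _ t21899.2.2.1, H _ t21899.2.2.2.1⟩⟩, ⟨⟨H _ t21899.2.2.2.2.1, H _ t21899.2.2.2.2.2.1⟩, ⟨H _ t21899.2.2.2.2.2.2.1, ⟨H _ t21899.2.2.2.2.2.2.2, H _ t21907.1⟩⟩⟩⟩, ⟨⟨⟨H _ t21907.2.1, H _ t21907.2.2.1⟩, ⟨H _ t21907.2.2.2.1, H _ t21907.2.2.2.2.1⟩⟩, ⟨⟨H _ t21907.2.2.2.2.2.1, H _ t21907.2.2.2.2.2.2.1⟩, ⟨H _ t21907.2.2.2.2.2.2.2, ⟨H _ t21915.1, H _ t21915.2.1⟩⟩⟩⟩⟩⟩, ⟨⟨⟨⟨⟨H _ t21915.2.2.1, H _ t21915.2.2.2.1⟩, ⟨H _ t21915.2.2.2.2.1, H _ t21915.2.2.2.2.2.1⟩⟩, ⟨⟨H _ t21915.2.2.2.2.2.2.1, H _ t21915.2.2.2.2.2.2.2⟩, ⟨H _ t21923.1, ⟨H _ t21923.2.1, H _ t21923.2.2.1⟩⟩⟩⟩,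 ⟨⟨⟨H _ t21923.2.2.2.1, H _ t21923.2.2.2.2.1⟩, ⟨H _ t21923.2.2.2.2.2.1, H _ t21923.2.2.2.2.2.2.1⟩⟩, ⟨⟨H _ t21923.2.2.2.2.2.2.2, H _ t21931.1⟩, ⟨H _ t21931.2.1, ⟨H _ t21931.2.2.1, H _ t21931.2.2.2.1⟩⟩⟩⟩⟩, ⟨⟨⟨⟨H _ t21931.2.2.2.2.1, H _ t21931.2.2.2.2.2.1⟩, ⟨H _ t21931.2.2.2.2.2.2.1, H _ t21931.2.2.2.2.2.2.2⟩⟩, ⟨⟨H _ t21939.1, H _ t21939.2.1⟩, ⟨H _ t21939.2.2.1, ⟨H _ t21939.2.2.2.1, H _ t21939.2.2.2.2.1⟩⟩⟩⟩, ⟨⟨⟨H _ t21939.2.2.2.2.2.1, H _ t21939.2.2.2.2.2.2.1⟩, ⟨H _ t21939.2.2.2.2.2.2.2, H _ t21947.1⟩⟩, ⟨⟨H _ t21947.2.1, H _ t21947.2.2.1⟩, ⟨H _ t21947.2.2.2.1, ⟨H _ t21947.2.2.2.2.1, H _ t21947.2.2.2.2.2.1⟩⟩⟩⟩⟩⟩⟩⟩, ⟨⟨⟨⟨⟨⟨⟨H _ t21947.2.2.2.2.2.2.1, H _ t21947.2.2.2.2.2.2.2⟩, ⟨H _ t21955.1, H _ t21955.2.1⟩⟩, ⟨⟨H _ t21955.2.2.1, H _ t21955.2.2.2.1⟩, ⟨H _ t21955.2.2.2.2.1, H _ t21955.2.2.2.2.2.1⟩⟩⟩, ⟨⟨⟨H _ t21955.2.2.2.2.2.2.1, H _ t21955.2.2.2.2.2.2.2⟩, ⟨H _ t21963.1, H _ t21963.2.1⟩⟩, ⟨⟨H _ t21963.2.2.1,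 H _ t21963.2.2.2.1⟩, ⟨H _ t21963.2.2.2.2.1, ⟨H _ t21963.2.2.2.2.2.1, H _ t21963.2.2.2.2.2.2.1⟩⟩⟩⟩⟩, ⟨⟨⟨⟨H _ t21963.2.2.2.2.2.2.2, H _ t21971.1⟩, ⟨H _ t21971.2.1, H _ t21971.2.2.1⟩⟩, ⟨⟨H _ t21971.2.2.2.1, H _ t21971.2.2.2.2.1⟩, ⟨H _ t21971.2.2.2.2.2.1, ⟨H _ t21971.2.2.2.2.2.2.1, H _ t21971.2.2.2.2.2.2.2⟩⟩⟩⟩, ⟨⟨⟨H _ t21979.1, H _ t21979.2.1⟩, ⟨H _ t21979.2.2.1, H _ t21979.2.2.2.1⟩⟩, ⟨⟨H _ t21979.2.2.2.2.1, H _ t21979.2.2.2.2.2.1⟩, ⟨H _ t21979.2.2.2.2.2.2.1, ⟨H _ t21979.2.2.2.2.2.2.2, H _ t21987.1⟩⟩⟩⟩⟩⟩, ⟨⟨⟨⟨⟨H _ t21987.2.1, H _ t21987.2.2.1⟩, ⟨H _ t21987.2.2.2.1, H _ t21987.2.2.2.2.1⟩⟩, ⟨⟨H _ t21987.2.2.2.2.2.1, H _ t21987.2.2.2.2.2.2.1⟩, ⟨H _ t21987.2.2.2.2.2.2.2, ⟨H _ t21995.1, H _ t21995.2.1⟩⟩⟩⟩, ⟨⟨⟨H _ t21995.2.2.1, H _ t21995.2.2.2.1⟩, ⟨H _ t21995.2.2.2.2.1, H _ t21995.2.2.2.2.2.1⟩⟩, ⟨⟨H _ t21995.2.2.2.2.2.2.1, H _ t21995.2.2.2.2.2.2.2⟩, ⟨H _ t22003.1, ⟨H _ t22003.2.1, H _ t22003.2.2.1⟩⟩⟩⟩⟩,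 ⟨⟨⟨⟨H _ t22003.2.2.2.1, H _ t22003.2.2.2.2.1⟩, ⟨H _ t22003.2.2.2.2.2.1, H _ t22003.2.2.2.2.2.2.1⟩⟩, ⟨⟨H _ t22003.2.2.2.2.2.2.2, H _ t22011.1⟩, ⟨H _ t22011.2.1, ⟨H _ t22011.2.2.1, H _ t22011.2.2.2.1⟩⟩⟩⟩, ⟨⟨⟨H _ t22011.2.2.2.2.1, H _ t22011.2.2.2.2.2.1⟩, ⟨H _ t22011.2.2.2.2.2.2.1, H _ t22011.2.2.2.2.2.2.2⟩⟩, ⟨⟨H _ t22019.1, H _ t22019.2.1⟩, ⟨H _ t22019.2.2.1, ⟨H _ t22019.2.2.2.1, H _ t22019.2.2.2.2.1⟩⟩⟩⟩⟩⟩⟩, ⟨⟨⟨⟨⟨⟨H _ t22019.2.2.2.2.2.1, H _ t22019.2.2.2.2.2.2.1⟩, ⟨H _ t22019.2.2.2.2.2.2.2, H _ t22027.1⟩⟩, ⟨⟨H _ t22027.2.1, H _ t22027.2.2.1⟩, ⟨H _ t22027.2.2.2.1, H _ t22027.2.2.2.2.1⟩⟩⟩, ⟨⟨⟨H _ t22027.2.2.2.2.2.1, H _ t22027.2.2.2.2.2.2.1⟩, ⟨H _ t22027.2.2.2.2.2.2.2, H _ t22035.1⟩⟩, ⟨⟨H _ t22035.2.1, H _ t22035.2.2.1⟩, ⟨H _ t22035.2.2.2.1, ⟨H _ t22035.2.2.2.2.1, H _ t22035.2.2.2.2.2.1⟩⟩⟩⟩⟩, ⟨⟨⟨⟨H _ t22035.2.2.2.2.2.2.1, H _ t22035.2.2.2.2.2.2.2⟩, ⟨H _ t22043.1, H _ t22043.2.1⟩⟩, ⟨⟨H _ t22043.2.2.1,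 H _ t22043.2.2.2.1⟩, ⟨H _ t22043.2.2.2.2.1, ⟨H _ t22043.2.2.2.2.2.1, H _ t22043.2.2.2.2.2.2.1⟩⟩⟩⟩, ⟨⟨⟨H _ t22043.2.2.2.2.2.2.2, H _ t22051.1⟩, ⟨H _ t22051.2.1, H _ t22051.2.2.1⟩⟩, ⟨⟨H _ t22051.2.2.2.1, H _ t22051.2.2.2.2.1⟩, ⟨H _ t22051.2.2.2.2.2.1, ⟨H _ t22051.2.2.2.2.2.2.1, H _ t22051.2.2.2.2.2.2.2⟩⟩⟩⟩⟩⟩, ⟨⟨⟨⟨⟨H _ t22059.1, H _ t22059.2.1⟩, ⟨H _ t22059.2.2.1, H _ t22059.2.2.2.1⟩⟩, ⟨⟨H _ t22059.2.2.2.2.1, H _ t22059.2.2.2.2.2.1⟩, ⟨H _ t22059.2.2.2.2.2.2.1, ⟨H _ t22059.2.2.2.2.2.2.2, H _ t22067.1⟩⟩⟩⟩, ⟨⟨⟨H _ t22067.2.1, H _ t22067.2.2.1⟩, ⟨H _ t22067.2.2.2.1, H _ t22067.2.2.2.2.1⟩⟩, ⟨⟨H _ t22067.2.2.2.2.2.1, H _ t22067.2.2.2.2.2.2.1⟩, ⟨H _ t22067.2.2.2.2.2.2.2, ⟨H _ t22075.1, H _ t22075.2.1⟩⟩⟩⟩⟩, ⟨⟨⟨⟨H _ t22075.2.2.1, H _ t22075.2.2.2.1⟩, ⟨H _ t22075.2.2.2.2.1, H _ t22075.2.2.2.2.2.1⟩⟩, ⟨⟨H _ t22075.2.2.2.2.2.2.1, H _ t22075.2.2.2.2.2.2.2⟩, ⟨H _ t22083.1, ⟨H _ t22083.2.1, H _ t22083.2.2.1⟩⟩⟩⟩,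 ⟨⟨⟨H _ t22083.2.2.2.1, H _ t22083.2.2.2.2.1⟩, ⟨H _ t22083.2.2.2.2.2.1, H _ t22083.2.2.2.2.2.2.1⟩⟩, ⟨⟨H _ t22083.2.2.2.2.2.2.2, H _ t22091.1⟩, ⟨H _ t22091.2.1, ⟨H _ t22091.2.2.1, H _ t22091.2.2.2.1⟩⟩⟩⟩⟩⟩⟩⟩⟩, ⟨⟨⟨⟨⟨⟨⟨⟨H _ t22091.2.2.2.2.1, H _ t22091.2.2.2.2.2.1⟩, ⟨H _ t22091.2.2.2.2.2.2.1, H _ t22091.2.2.2.2.2.2.2⟩⟩, ⟨⟨H _ t22099.1, H _ t22099.2.1⟩, ⟨H _ t22099.2.2.1, H _ t22099.2.2.2.1⟩⟩⟩, ⟨⟨⟨H _ t22099.2.2.2.2.1, H _ t22099.2.2.2.2.2.1⟩, ⟨H _ t22099.2.2.2.2.2.2.1, H _ t22099.2.2.2.2.2.2.2⟩⟩, ⟨⟨H _ t22107.1, H _ t22107.2.1⟩, ⟨H _ t22107.2.2.1, ⟨H _ t22107.2.2.2.1, H _ t22107.2.2.2.2.1⟩⟩⟩⟩⟩, ⟨⟨⟨⟨H _ t22107.2.2.2.2.2.1, H _ t22107.2.2.2.2.2.2.1⟩, ⟨H _ t22107.2.2.2.2.2.2.2, H _ t22115.1⟩⟩, ⟨⟨H _ t22115.2.1, H _ t22115.2.2.1⟩, ⟨H _ t22115.2.2.2.1, ⟨H _ t22115.2.2.2.2.1, H _ t22115.2.2.2.2.2.1⟩⟩⟩⟩, ⟨⟨⟨H _ t22115.2.2.2.2.2.2.1, H _ t22115.2.2.2.2.2.2.2⟩, ⟨H _ t22123.1, H _ t22123.2.1⟩⟩, ⟨⟨H _ t22123.2.2.1,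 H _ t22123.2.2.2.1⟩, ⟨H _ t22123.2.2.2.2.1, ⟨H _ t22123.2.2.2.2.2.1, H _ t22123.2.2.2.2.2.2.1⟩⟩⟩⟩⟩⟩, ⟨⟨⟨⟨⟨H _ t22123.2.2.2.2.2.2.2, H _ t22131.1⟩, ⟨H _ t22131.2.1, H _ t22131.2.2.1⟩⟩, ⟨⟨H _ t22131.2.2.2.1, H _ t22131.2.2.2.2.1⟩, ⟨H _ t22131.2.2.2.2.2.1, ⟨H _ t22131.2.2.2.2.2.2.1, H _ t22131.2.2.2.2.2.2.2⟩⟩⟩⟩, ⟨⟨⟨H _ t22139.1, H _ t22139.2.1⟩, ⟨H _ t22139.2.2.1, H _ t22139.2.2.2.1⟩⟩, ⟨⟨H _ t22139.2.2.2.2.1, H _ t22139.2.2.2.2.2.1⟩, ⟨H _ t22139.2.2.2.2.2.2.1, ⟨H _ t22139.2.2.2.2.2.2.2, H _ t22147.1⟩⟩⟩⟩⟩, ⟨⟨⟨⟨H _ t22147.2.1, H _ t22147.2.2.1⟩, ⟨H _ t22147.2.2.2.1, H _ t22147.2.2.2.2.1⟩⟩, ⟨⟨H _ t22147.2.2.2.2.2.1, H _ t22147.2.2.2.2.2.2.1⟩, ⟨H _ t22147.2.2.2.2.2.2.2, ⟨H _ t22155.1, H _ t22155.2.1⟩⟩⟩⟩, ⟨⟨⟨H _ t22155.2.2.1, H _ t22155.2.2.2.1⟩, ⟨H _ t22155.2.2.2.2.1, H _ t22155.2.2.2.2.2.1⟩⟩, ⟨⟨H _ t22155.2.2.2.2.2.2.1, H _ t22155.2.2.2.2.2.2.2⟩, ⟨H _ t22163.1, ⟨H _ t22163.2.1, H _ t22163.2.2.1⟩⟩⟩⟩⟩⟩⟩,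 ⟨⟨⟨⟨⟨⟨H _ t22163.2.2.2.1, H _ t22163.2.2.2.2.1⟩, ⟨H _ t22163.2.2.2.2.2.1, H _ t22163.2.2.2.2.2.2.1⟩⟩, ⟨⟨H _ t22163.2.2.2.2.2.2.2, H _ t22171.1⟩, ⟨H _ t22171.2.1, H _ t22171.2.2.1⟩⟩⟩, ⟨⟨⟨H _ t22171.2.2.2.1, H _ t22171.2.2.2.2.1⟩, ⟨H _ t22171.2.2.2.2.2.1, H _ t22171.2.2.2.2.2.2.1⟩⟩, ⟨⟨H _ t22171.2.2.2.2.2.2.2, H _ t22179.1⟩, ⟨H _ t22179.2.1, ⟨H _ t22179.2.2.1, H _ t22179.2.2.2.1⟩⟩⟩⟩⟩, ⟨⟨⟨⟨H _ t22179.2.2.2.2.1, H _ t22179.2.2.2.2.2.1⟩, ⟨H _ t22179.2.2.2.2.2.2.1, H _ t22179.2.2.2.2.2.2.2⟩⟩, ⟨⟨H _ t22187.1, H _ t22187.2.1⟩, ⟨H _ t22187.2.2.1, ⟨H _ t22187.2.2.2.1, H _ t22187.2.2.2.2.1⟩⟩⟩⟩, ⟨⟨⟨H _ t22187.2.2.2.2.2.1, H _ t22187.2.2.2.2.2.2.1⟩, ⟨H _ t22187.2.2.2.2.2.2.2, H _ t22195.1⟩⟩, ⟨⟨H _ t22195.2.1, H _ t22195.2.2.1⟩, ⟨H _ t22195.2.2.2.1, ⟨H _ t22195.2.2.2.2.1, H _ t22195.2.2.2.2.2.1⟩⟩⟩⟩⟩⟩, ⟨⟨⟨⟨⟨H _ t22195.2.2.2.2.2.2.1, H _ t22195.2.2.2.2.2.2.2⟩, ⟨H _ t22203.1, H _ t22203.2.1⟩⟩, ⟨⟨H _ t22203.2.2.1,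 H _ t22203.2.2.2.1⟩, ⟨H _ t22203.2.2.2.2.1, ⟨H _ t22203.2.2.2.2.2.1, H _ t22203.2.2.2.2.2.2.1⟩⟩⟩⟩, ⟨⟨⟨H _ t22203.2.2.2.2.2.2.2, H _ t22211.1⟩, ⟨H _ t22211.2.1, H _ t22211.2.2.1⟩⟩, ⟨⟨H _ t22211.2.2.2.1, H _ t22211.2.2.2.2.1⟩, ⟨H _ t22211.2.2.2.2.2.1, ⟨H _ t22211.2.2.2.2.2.2.1, H _ t22211.2.2.2.2.2.2.2⟩⟩⟩⟩⟩, ⟨⟨⟨⟨H _ t22219.1, H _ t22219.2.1⟩, ⟨H _ t22219.2.2.1, H _ t22219.2.2.2.1⟩⟩, ⟨⟨H _ t22219.2.2.2.2.1, H _ t22219.2.2.2.2.2.1⟩, ⟨H _ t22219.2.2.2.2.2.2.1, ⟨H _ t22219.2.2.2.2.2.2.2, H _ t22227.1⟩⟩⟩⟩, ⟨⟨⟨H _ t22227.2.1, H _ t22227.2.2.1⟩, ⟨H _ t22227.2.2.2.1, H _ t22227.2.2.2.2.1⟩⟩, ⟨⟨H _ t22227.2.2.2.2.2.1, H _ t22227.2.2.2.2.2.2.1⟩, ⟨H _ t22227.2.2.2.2.2.2.2, ⟨H _ t22235.1, H _ t22235.2.1⟩⟩⟩⟩⟩⟩⟩⟩, ⟨⟨⟨⟨⟨⟨⟨H _ t22235.2.2.1, H _ t22235.2.2.2.1⟩, ⟨H _ t22235.2.2.2.2.1, H _ t22235.2.2.2.2.2.1⟩⟩, ⟨⟨H _ t22235.2.2.2.2.2.2.1, H _ t22235.2.2.2.2.2.2.2⟩, ⟨H _ t22243.1, H _ t22243.2.1⟩⟩⟩, ⟨⟨⟨H _ t22243.2.2.1,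 H _ t22243.2.2.2.1⟩, ⟨H _ t22243.2.2.2.2.1, H _ t22243.2.2.2.2.2.1⟩⟩, ⟨⟨H _ t22243.2.2.2.2.2.2.1, H _ t22243.2.2.2.2.2.2.2⟩, ⟨H _ t22251.1, ⟨H _ t22251.2.1, H _ t22251.2.2.1⟩⟩⟩⟩⟩, ⟨⟨⟨⟨H _ t22251.2.2.2.1, H _ t22251.2.2.2.2.1⟩, ⟨H _ t22251.2.2.2.2.2.1, H _ t22251.2.2.2.2.2.2.1⟩⟩, ⟨⟨H _ t22251.2.2.2.2.2.2.2, H _ t22259.1⟩, ⟨H _ t22259.2.1, ⟨H _ t22259.2.2.1, H _ t22259.2.2.2.1⟩⟩⟩⟩, ⟨⟨⟨H _ t22259.2.2.2.2.1, H _ t22259.2.2.2.2.2.1⟩, ⟨H _ t22259.2.2.2.2.2.2.1, H _ t22259.2.2.2.2.2.2.2⟩⟩, ⟨⟨H _ t22267.1, H _ t22267.2.1⟩, ⟨H _ t22267.2.2.1, ⟨H _ t22267.2.2.2.1, H _ t22267.2.2.2.2.1⟩⟩⟩⟩⟩⟩, ⟨⟨⟨⟨⟨H _ t22267.2.2.2.2.2.1, H _ t22267.2.2.2.2.2.2.1⟩, ⟨H _ t22267.2.2.2.2.2.2.2, H _ t22275.1⟩⟩, ⟨⟨H _ t22275.2.1, H _ t22275.2.2.1⟩, ⟨H _ t22275.2.2.2.1, ⟨H _ t22275.2.2.2.2.1, H _ t22275.2.2.2.2.2.1⟩⟩⟩⟩, ⟨⟨⟨H _ t22275.2.2.2.2.2.2.1, H _ t22275.2.2.2.2.2.2.2⟩, ⟨H _ t22283.1, H _ t22283.2.1⟩⟩, ⟨⟨H _ t22283.2.2.1,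 H _ t22283.2.2.2.1⟩, ⟨H _ t22283.2.2.2.2.1, ⟨H _ t22283.2.2.2.2.2.1, H _ t22283.2.2.2.2.2.2.1⟩⟩⟩⟩⟩, ⟨⟨⟨⟨H _ t22283.2.2.2.2.2.2.2, H _ t22291.1⟩, ⟨H _ t22291.2.1, H _ t22291.2.2.1⟩⟩, ⟨⟨H _ t22291.2.2.2.1, H _ t22291.2.2.2.2.1⟩, ⟨H _ t22291.2.2.2.2.2.1, ⟨H _ t22291.2.2.2.2.2.2.1, H _ t22291.2.2.2.2.2.2.2⟩⟩⟩⟩, ⟨⟨⟨H _ t22299.1, H _ t22299.2.1⟩, ⟨H _ t22299.2.2.1, H _ t22299.2.2.2.1⟩⟩, ⟨⟨H _ t22299.2.2.2.2.1, H _ t22299.2.2.2.2.2.1⟩, ⟨H _ t22299.2.2.2.2.2.2.1, ⟨H _ t22299.2.2.2.2.2.2.2, H _ t22307.1⟩⟩⟩⟩⟩⟩⟩, ⟨⟨⟨⟨⟨⟨H _ t22307.2.1, H _ t22307.2.2.1⟩, ⟨H _ t22307.2.2.2.1, H _ t22307.2.2.2.2.1⟩⟩, ⟨⟨H _ t22307.2.2.2.2.2.1, H _ t22307.2.2.2.2.2.2.1⟩, ⟨H _ t22307.2.2.2.2.2.2.2, ⟨H _ t22315.1, H _ t22315.2.1⟩⟩⟩⟩, ⟨⟨⟨H _ t22315.2.2.1, H _ t22315.2.2.2.1⟩, ⟨H _ t22315.2.2.2.2.1, H _ t22315.2.2.2.2.2.1⟩⟩, ⟨⟨H _ t22315.2.2.2.2.2.2.1, H _ t22315.2.2.2.2.2.2.2⟩, ⟨H _ t22323.1, ⟨H _ t22323.2.1, H _ t22323.2.2.1⟩⟩⟩⟩⟩,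 ⟨⟨⟨⟨H _ t22323.2.2.2.1, H _ t22323.2.2.2.2.1⟩, ⟨H _ t22323.2.2.2.2.2.1, H _ t22323.2.2.2.2.2.2.1⟩⟩, ⟨⟨H _ t22323.2.2.2.2.2.2.2, H _ t22331.1⟩, ⟨H _ t22331.2.1, ⟨H _ t22331.2.2.1, H _ t22331.2.2.2.1⟩⟩⟩⟩, ⟨⟨⟨H _ t22331.2.2.2.2.1, H _ t22331.2.2.2.2.2.1⟩, ⟨H _ t22331.2.2.2.2.2.2.1, H _ t22331.2.2.2.2.2.2.2⟩⟩, ⟨⟨H _ t22339.1, H _ t22339.2.1⟩, ⟨H _ t22339.2.2.1, ⟨H _ t22339.2.2.2.1, H _ t22339.2.2.2.2.1⟩⟩⟩⟩⟩⟩, ⟨⟨⟨⟨⟨H _ t22339.2.2.2.2.2.1, H _ t22339.2.2.2.2.2.2.1⟩, ⟨H _ t22339.2.2.2.2.2.2.2, H _ t22347.1⟩⟩, ⟨⟨H _ t22347.2.1, H _ t22347.2.2.1⟩, ⟨H _ t22347.2.2.2.1, ⟨H _ t22347.2.2.2.2.1, H _ t22347.2.2.2.2.2.1⟩⟩⟩⟩, ⟨⟨⟨H _ t22347.2.2.2.2.2.2.1, H _ t22347.2.2.2.2.2.2.2⟩, ⟨H _ t22355.1, H _ t22355.2.1⟩⟩, ⟨⟨H _ t22355.2.2.1, H _ t22355.2.2.2.1⟩, ⟨H _ t22355.2.2.2.2.1, ⟨H _ t22355.2.2.2.2.2.1, H _ t22355.2.2.2.2.2.2.1⟩⟩⟩⟩⟩, ⟨⟨⟨⟨H _ t22355.2.2.2.2.2.2.2, H _ t22363.1⟩, ⟨H _ t22363.2.1, H _ t22363.2.2.1⟩⟩,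 ⟨⟨H _ t22363.2.2.2.1, H _ t22363.2.2.2.2.1⟩, ⟨H _ t22363.2.2.2.2.2.1, ⟨H _ t22363.2.2.2.2.2.2.1, H _ t22363.2.2.2.2.2.2.2⟩⟩⟩⟩, ⟨⟨⟨H _ t22371.1, H _ t22371.2.1⟩, ⟨H _ t22371.2.2.1, H _ t22371.2.2.2.1⟩⟩, ⟨⟨H _ t22371.2.2.2.2.1, H _ t22371.2.2.2.2.2.1⟩, ⟨H _ t22371.2.2.2.2.2.2.1, ⟨H _ t22371.2.2.2.2.2.2.2, H _ t22379⟩⟩⟩⟩⟩⟩⟩⟩⟩⟩

end Pool.Agent.MP_c853c5_nt.X.C4950
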