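import Pool.Agent.MP_c853c5_nt.X.C4950.Env
import Pool.Agent.MP_c853c5_nt.X.C4950.D0

set_option autoImplicit false
set_option maxRecDepth 8192
set_option linter.all false

namespace Pool.Agent.MP_c853c5_nt.X.C4950

open Pool.Agent.MP_c853c5_nt.X

def t2168 : allY (E.wth (lkp [])) l2168 = true ∧
    allY (E.wth (lkp [])) l2169 = true ∧
    allY (E.wth (lkp [])) l2170 = true ∧
    allY (E.wth (lkp [])) l2171 = true ∧
    allY (E.wth (lkp [])) l2172 = true ∧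
    allY (E.wth (lkp [])) l2173 = true ∧
    allY (E.wth (lkp [])) l2174 = true ∧
    allY (E.wth (lkp [])) l2175 = true :=
  ⟨by decide +kernel, by decide +kernel, by decide +kernel, by decide +kernel, by decide +kernel, by decide +kernel, by decide +kernel, by decide +kernel⟩

def t2176 : allY (E.wth (lkp [])) l2176 = true ∧
    allY (E.wth (lkp [])) l2177 = true ∧
    allY (E.wth (lkp [])) l2178 = true ∧
    allY (E.wth (lkp [])) l2179 = true ∧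
    allY (E.wth (lkp [])) l2180 = true ∧
    allY (E.wth (lkp [])) l2181 = true ∧
    allY (E.wth (lkp [])) l2182 = true ∧
    allY (E.wth (lkp [])) l2183 = true :=
  ⟨by decide +kernel, by decide +kernel, by decide +kernel, by decide +kernel, by decide +kernel, by decide +kernel, by decide +kernel, by decide +kernel⟩

def t2184 : allY (E.wth (lkp [])) l2184 = true ∧
    allY (E.wth (lkp [])) l2185 = true ∧
    allY (E.wth (lkp [])) l2186 = true ∧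
    allY (E.wth (lkp [])) l2187 = true ∧
    allY (E.wth (lkp [])) l2188 = true ∧
    allY (E.wth (lkp [])) l2189 = true ∧
    allY (E.wth (lkp [])) l2190 = true ∧
    allY (E.wth (lkp [])) l2191 = true :=
  ⟨by decide +kernel, by decide +kernel, by decide +kernel, by decide +kernel, by decide +kernel, by decide +kernel, by decide +kernel, by decide +kernel⟩

def t2192 : allY (E.wth (lkp [])) l2192 = true ∧
    allY (E.wth (lkp [])) l2193 = true ∧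
    allY (E.wth (lkp [])) l2194 = true ∧
    allY (E.wth (lkp [])) l2195 = true ∧
    allY (E.wth (lkp [])) l2196 = true ∧
    allY (E.wth (lkp [])) l2197 = true ∧
    allY (E.wth (lkp [])) l2198 = true ∧
    allY (E.wth (lkp [])) l2199 = true :=
  ⟨by decide +kernel, by decide +kernel, by decide +kernel, by decide +kernel, by decide +kernel, by decide +kernel, by decide +kernel, by decide +kernel⟩

def t2200 : allY (E.wth (lkp [])) l2200 = true ∧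
    allY (E.wth (lkp [])) l2201 = true ∧
    allY (E.wth (lkp [])) l2202 = true ∧
    allY (E.wth (lkp [])) l2203 = true ∧
    allY (E.wth (lkp [])) l2204 = true ∧
    allY (E.wth (lkp [])) l2205 = true ∧
    allY (E.wth (lkp [])) l2206 = true ∧
    allY (E.wth (lkp [])) l2207 = true :=
  ⟨by decide +kernel, by decide +kernel, by decide +kernel, by decide +kernel, by decide +kernel, by decide +kernel, by decide +kernel, by decide +kernel⟩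

def t2208 : allY (E.wth (lkp [])) l2208 = true ∧
    allY (E.wth (lkp [])) l2209 = true ∧
    allY (E.wth (lkp [])) l2210 = true ∧
    allY (E.wth (lkp [])) l2211 = true ∧
    allY (E.wth (lkp [])) l2212 = true ∧
    allY (E.wth (lkp [])) l2213 = true ∧
    allY (E.wth (lkp [])) l2214 = true ∧
    allY (E.wth (lkp [])) l2215 = true :=
  ⟨by decide +kernel, by decide +kernel, by decide +kernel, by decide +kernel, by decide +kernel, by decide +kernel, by decide +kernel, by decide +kernel⟩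

def t2216 : allY (E.wth (lkp [])) l2216 = true ∧
    allY (E.wth (lkp [])) l2217 = true ∧
    allY (E.wth (lkp [])) l2218 = true ∧
    allY (E.wth (lkp [])) l2219 = true ∧
    allY (E.wth (lkp [])) l2220 = true ∧
    allY (E.wth (lkp [])) l2221 = true ∧
    allY (E.wth (lkp [])) l2222 = true ∧
    allY (E.wth (lkp [])) l2223 = true :=
  ⟨by decide +kernel, by decide +kernel, by decide +kernel, by decide +kernel, by decide +kernel, by decide +kernel, by decide +kernel, by decide +kernel⟩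

def t2224 : allY (E.wth (lkp [])) l2224 = true ∧
    allY (E.wth (lkp [])) l2225 = true ∧
    allY (E.wth (lkp [])) l2226 = true ∧
    allY (E.wth (lkp [])) l2227 = true ∧
    allY (E.wth (lkp [])) l2228 = true ∧
    allY (E.wth (lkp [])) l2229 = true ∧
    allY (E.wth (lkp [])) l2230 = true ∧
    allY (E.wth (lkp [])) l2231 = true :=
  ⟨by decide +kernel, by decide +kernel, by decide +kernel, by decide +kernel, by decide +kernel, by decide +kernel, by decide +kernel, by decide +kernel⟩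

def t2232 : allY (E.wth (lkp [])) l2232 = true ∧
    allY (E.wth (lkp [])) l2233 = true ∧
    allY (E.wth (lkp [])) l2234 = true ∧
    allY (E.wth (lkp [])) l2235 = true ∧
    allY (E.wth (lkp [])) l2236 = true ∧
    allY (E.wth (lkp [])) l2237 = true ∧
    allY (E.wth (lkp [])) l2238 = true ∧
    allY (E.wth (lkp [])) l2239 = true :=
  ⟨by decide +kernel, by decide +kernel, by decide +kernel, by decide +kernel, by decide +kernel, by decide +kernel, by decide +kernel, by decide +kernel⟩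

def t2240 : allY (E.wth (lkp [])) l2240 = true ∧
    allY (E.wth (lkp [])) l2241 = true ∧
    allY (E.wth (lkp [])) l2242 = true ∧
    allY (E.wth (lkp [])) l2243 = true ∧
    allY (E.wth (lkp [])) l2244 = true ∧
    allY (E.wth (lkp [])) l2245 = true ∧
    allY (E.wth (lkp [])) l2246 = true ∧
    allY (E.wth (lkp [])) l2247 = true :=
  ⟨by decide +kernel, by decide +kernel, by decide +kernel, by decide +kernel, by decide +kernel, by decide +kernel, by decide +kernel, by decide +kernel⟩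

def t2248 : allY (E.wth (lkp [])) l2248 = true ∧
    allY (E.wth (lkp [])) l2249 = true ∧
    allY (E.wth (lkp [])) l2250 = true ∧
    allY (E.wth (lkp [])) l2251 = true ∧
    allY (E.wth (lkp [])) l2252 = true ∧
    allY (E.wth (lkp [])) l2253 = true ∧
    allY (E.wth (lkp [])) l2254 = true ∧
    allY (E.wth (lkp [])) l2255 = true :=
  ⟨by decide +kernel, by decide +kernel, by decide +kernel, by decide +kernel, by decide +kernel, by decide +kernel, by decide +kernel, by decide +kernel⟩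

def t2256 : allY (E.wth (lkp [])) l2256 = true ∧
    allY (E.wth (lkp [])) l2257 = true ∧
    allY (E.wth (lkp [])) l2258 = true ∧
    allY (E.wth (lkp [])) l2259 = true ∧
    allY (E.wth (lkp [])) l2260 = true ∧
    allY (E.wth (lkp [])) l2261 = true ∧
    allY (E.wth (lkp [])) l2262 = true ∧
    allY (E.wth (lkp [])) l2263 = true :=
  ⟨by decide +kernel, by decide +kernel, by decide +kernel, by decide +kernel, by decide +kernel, by decide +kernel, by decide +kernel, by decide +kernel⟩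

def t2264 : allY (E.wth (lkp [])) l2264 = true ∧
    allY (E.wth (lkp [])) l2265 = true ∧
    allY (E.wth (lkp [])) l2266 = true ∧
    allY (E.wth (lkp [])) l2267 = true ∧
    allY (E.wth (lkp [])) l2268 = true ∧
    allY (E.wth (lkp [])) l2269 = true ∧
    allY (E.wth (lkp [])) l2270 = true ∧
    allY (E.wth (lkp [])) l2271 = true :=
  ⟨by decide +kernel, by decide +kernel, by decide +kernel, by decide +kernel, by decide +kernel, by decide +kernel, by decide +kernel, by decide +kernel⟩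

def t2272 : allY (E.wth (lkp [])) l2272 = true ∧
    allY (E.wth (lkp [])) l2273 = true ∧
    allY (E.wth (lkp [])) l2274 = true ∧
    allY (E.wth (lkp [])) l2275 = true ∧
    allY (E.wth (lkp [])) l2276 = true ∧
    allY (E.wth (lkp [])) l2277 = true ∧
    allY (E.wth (lkp [])) l2278 = true ∧
    allY (E.wth (lkp [])) l2279 = true :=
  ⟨by decide +kernel, by decide +kernel, by decide +kernel, by decide +kernel, by decide +kernel, by decide +kernel, by decide +kernel, by decide +kernel⟩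

def t2280 : allY (E.wth (lkp [])) l2280 = true ∧
    allY (E.wth (lkp [])) l2281 = true ∧
    allY (E.wth (lkp [])) l2282 = true ∧
    allY (E.wth (lkp [])) l2283 = true ∧
    allY (E.wth (lkp [])) l2284 = true ∧
    allY (E.wth (lkp [])) l2285 = true ∧
    allY (E.wth (lkp [])) l2286 = true ∧
    allY (E.wth (lkp [])) l2287 = true :=
  ⟨by decide +kernel, by decide +kernel, by decide +kernel, by decide +kernel, by decide +kernel, by decide +kernel, by decide +kernel, by decide +kernel⟩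

def t2288 : allY (E.wth (lkp [])) l2288 = true ∧
    allY (E.wth (lkp [])) l2289 = true ∧
    allY (E.wth (lkp [])) l2290 = true ∧
    allY (E.wth (lkp [])) l2291 = true ∧
    allY (E.wth (lkp [])) l2292 = true ∧
    allY (E.wth (lkp [])) l2293 = true ∧
    allY (E.wth (lkp [])) l2294 = true ∧
    allY (E.wth (lkp [])) l2295 = true :=
  ⟨by decide +kernel, by decide +kernel, by decide +kernel, by decide +kernel, by decide +kernel, by decide +kernel, by decide +kernel, by decide +kernel⟩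

def t2296 : allY (E.wth (lkp [])) l2296 = true ∧
    allY (E.wth (lkp [])) l2297 = true ∧
    allY (E.wth (lkp [])) l2298 = true ∧
    allY (E.wth (lkp [])) l2299 = true ∧
    allY (E.wth (lkp [])) l2300 = true ∧
    allY (E.wth (lkp [])) l2301 = true ∧
    allY (E.wth (lkp [])) l2302 = true ∧
    allY (E.wth (lkp [])) l2303 = true :=
  ⟨by decide +kernel, by decide +kernel, by decide +kernel, by decide +kernel, by decide +kernel, by decide +kernel, by decide +kernel, by decide +kernel⟩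

def t2304 : allY (E.wth (lkp [])) l2304 = true ∧
    allY (E.wth (lkp [])) l2305 = true ∧
    allY (E.wth (lkp [])) l2306 = true ∧
    allY (E.wth (lkp [])) l2307 = true ∧
    allY (E.wth (lkp [])) l2308 = true ∧
    allY (E.wth (lkp [])) l2309 = true ∧
    allY (E.wth (lkp [])) l2310 = true ∧
    allY (E.wth (lkp [])) l2311 = true :=
  ⟨by decide +kernel, by decide +kernel, by decide +kernel, by decide +kernel, by decide +kernel, by decide +kernel, by decide +kernel, by decide +kernel⟩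

def t2312 : allY (E.wth (lkp [])) l2312 = true ∧
    allY (E.wth (lkp [])) l2313 = true ∧
    allY (E.wth (lkp [])) l2314 = true ∧
    allY (E.wth (lkp [])) l2315 = true ∧
    allY (E.wth (lkp [])) l2316 = true ∧
    allY (E.wth (lkp [])) l2317 = true ∧
    allY (E.wth (lkp [])) l2318 = true ∧
    allY (E.wth (lkp [])) l2319 = true :=
  ⟨by decide +kernel, by decide +kernel, by decide +kernel, by decide +kernel, by decide +kernel, by decide +kernel, by decide +kernel, by decide +kernel⟩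

def t2320 : allY (E.wth (lkp [])) l2320 = true ∧
    allY (E.wth (lkp [])) l2321 = true ∧
    allY (E.wth (lkp [])) l2322 = true ∧
    allY (E.wth (lkp [])) l2323 = true ∧
    allY (E.wth (lkp [])) l2324 = true ∧
    allY (E.wth (lkp [])) l2325 = true ∧
    allY (E.wth (lkp [])) l2326 = true ∧
    allY (E.wth (lkp [])) l2327 = true :=
  ⟨by decide +kernel, by decide +kernel, by decide +kernel, by decide +kernel, by decide +kernel, by decide +kernel, by decide +kernel, by decide +kernel⟩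

def t2328 : allY (E.wth (lkp [])) l2328 = true ∧
    allY (E.wth (lkp [])) l2329 = true ∧
    allY (E.wth (lkp [])) l2330 = true ∧
    allY (E.wth (lkp [])) l2331 = true ∧
    allY (E.wth (lkp [])) l2332 = true ∧
    allY (E.wth (lkp [])) l2333 = true ∧
    allY (E.wth (lkp [])) l2334 = true ∧
    allY (E.wth (lkp [])) l2335 = true :=
  ⟨by decide +kernel, by decide +kernel, by decide +kernel, by decide +kernel, by decide +kernel, by decide +kernel, by decide +kernel, by decide +kernel⟩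

def t2336 : allY (E.wth (lkp [])) l2336 = true ∧
    allY (E.wth (lkp [])) l2337 = true ∧
    allY (E.wth (lkp [])) l2338 = true ∧
    allY (E.wth (lkp [])) l2339 = true ∧
    allY (E.wth (lkp [])) l2340 = true ∧
    allY (E.wth (lkp [])) l2341 = true ∧
    allY (E.wth (lkp [])) l2342 = true ∧
    allY (E.wth (lkp [])) l2343 = true :=
  ⟨by decide +kernel, by decide +kernel, by decide +kernel, by decide +kernel, by decide +kernel, by decide +kernel, by decide +kernel, by decide +kernel⟩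

def t2344 : allY (E.wth (lkp [])) l2344 = true ∧
    allY (E.wth (lkp [])) l2345 = true ∧
    allY (E.wth (lkp [])) l2346 = true ∧
    allY (E.wth (lkp [])) l2347 = true ∧
    allY (E.wth (lkp [])) l2348 = true ∧
    allY (E.wth (lkp [])) l2349 = true ∧
    allY (E.wth (lkp [])) l2350 = true ∧
    allY (E.wth (lkp [])) l2351 = true :=
  ⟨by decide +kernel, by decide +kernel, by decide +kernel, by decide +kernel, by decide +kernel, by decide +kernel, by decide +kernel, by decide +kernel⟩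

def t2352 : allY (E.wth (lkp [])) l2352 = true ∧
    allY (E.wth (lkp [])) l2353 = true ∧
    allY (E.wth (lkp [])) l2354 = true ∧
    allY (E.wth (lkp [])) l2355 = true ∧
    allY (E.wth (lkp [])) l2356 = true ∧
    allY (E.wth (lkp [])) l2357 = true ∧
    allY (E.wth (lkp [])) l2358 = true ∧
    allY (E.wth (lkp [])) l2359 = true :=
  ⟨by decide +kernel, by decide +kernel, by decide +kernel, by decide +kernel, by decide +kernel, by decide +kernel, by decide +kernel, by decide +kernel⟩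

def t2360 : allY (E.wth (lkp [])) l2360 = true ∧
    allY (E.wth (lkp [])) l2361 = true ∧
    allY (E.wth (lkp [])) l2362 = true ∧
    allY (E.wth (lkp [])) l2363 = true ∧
    allY (E.wth (lkp [])) l2364 = true ∧
    allY (E.wth (lkp [])) l2365 = true ∧
    allY (E.wth (lkp [])) l2366 = true ∧
    allY (E.wth (lkp [])) l2367 = true :=
  ⟨by decide +kernel, by decide +kernel, by decide +kernel, by decide +kernel, by decide +kernel, by decide +kernel, by decide +kernel, by decide +kernel⟩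

def t2368 : allY (E.wth (lkp [])) l2368 = true ∧
    allY (E.wth (lkp [])) l2369 = true ∧
    allY (E.wth (lkp [])) l2370 = true ∧
    allY (E.wth (lkp [])) l2371 = true ∧
    allY (E.wth (lkp [])) l2372 = true ∧
    allY (E.wth (lkp [])) l2373 = true ∧
    allY (E.wth (lkp [])) l2374 = true ∧
    allY (E.wth (lkp [])) l2375 = true :=
  ⟨by decide +kernel, by decide +kernel, by decide +kernel, by decide +kernel, by decide +kernel, by decide +kernel, by decide +kernel, by decide +kernel⟩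

def t2376 : allY (E.wth (lkp [])) l2376 = true ∧
    allY (E.wth (lkp [])) l2377 = true ∧
    allY (E.wth (lkp [])) l2378 = true ∧
    allY (E.wth (lkp [])) l2379 = true ∧
    allY (E.wth (lkp [])) l2380 = true ∧
    allY (E.wth (lkp [])) l2381 = true ∧
    allY (E.wth (lkp [])) l2382 = true ∧
    allY (E.wth (lkp [])) l2383 = true :=
  ⟨by decide +kernel, by decide +kernel, by decide +kernel, by decide +kernel, by decide +kernel, by decide +kernel, by decide +kernel, by decide +kernel⟩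

def t2384 : allY (E.wth (lkp [])) l2384 = true ∧
    allY (E.wth (lkp [])) l2385 = true ∧
    allY (E.wth (lkp [])) l2386 = true ∧
    allY (E.wth (lkp [])) l2387 = true ∧
    allY (E.wth (lkp [])) l2388 = true ∧
    allY (E.wth (lkp [])) l2389 = true ∧
    allY (E.wth (lkp [])) l2390 = true ∧
    allY (E.wth (lkp [])) l2391 = true :=
  ⟨by decide +kernel, by decide +kernel, by decide +kernel, by decide +kernel, by decide +kernel, by decide +kernel, by decide +kernel, by decide +kernel⟩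

def t2392 : allY (E.wth (lkp [])) l2392 = true ∧
    allY (E.wth (lkp [])) l2393 = true ∧
    allY (E.wth (lkp [])) l2394 = true ∧
    allY (E.wth (lkp [])) l2395 = true ∧
    allY (E.wth (lkp [])) l2396 = true ∧
    allY (E.wth (lkp [])) l2397 = true ∧
    allY (E.wth (lkp [])) l2398 = true ∧
    allY (E.wth (lkp [])) l2399 = true :=
  ⟨by decide +kernel, by decide +kernel, by decide +kernel, by decide +kernel, by decide +kernel, by decide +kernel, by decide +kernel, by decide +kernel⟩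

def t2400 : allY (E.wth (lkp [])) l2400 = true ∧
    allY (E.wth (lkp [])) l2401 = true ∧
    allY (E.wth (lkp [])) l2402 = true ∧
    allY (E.wth (lkp [])) l2403 = true ∧
    allY (E.wth (lkp [])) l2404 = true ∧
    allY (E.wth (lkp [])) l2405 = true ∧
    allY (E.wth (lkp [])) l2406 = true ∧
    allY (E.wth (lkp [])) l2407 = true :=
  ⟨by decide +kernel, by decide +kernel, by decide +kernel, by decide +kernel, by decide +kernel, by decide +kernel, by decide +kernel, by decide +kernel⟩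

def t2408 : allY (E.wth (lkp [])) l2408 = true ∧
    allY (E.wth (lkp [])) l2409 = true ∧
    allY (E.wth (lkp [])) l2410 = true ∧
    allY (E.wth (lkp [])) l2411 = true ∧
    allY (E.wth (lkp [])) l2412 = true ∧
    allY (E.wth (lkp [])) l2413 = true ∧
    allY (E.wth (lkp [])) l2414 = true ∧
    allY (E.wth (lkp [])) l2415 = true :=
  ⟨by decide +kernel, by decide +kernel, by decide +kernel, by decide +kernel, by decide +kernel, by decide +kernel, by decide +kernel, by decide +kernel⟩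

def t2416 : allY (E.wth (lkp [])) l2416 = true ∧
    allY (E.wth (lkp [])) l2417 = true ∧
    allY (E.wth (lkp [])) l2418 = true ∧
    allY (E.wth (lkp [])) l2419 = true ∧
    allY (E.wth (lkp [])) l2420 = true ∧
    allY (E.wth (lkp [])) l2421 = true ∧
    allY (E.wth (lkp [])) l2422 = true ∧
    allY (E.wth (lkp [])) l2423 = true :=
  ⟨by decide +kernel, by decide +kernel, by decide +kernel, by decide +kernel, by decide +kernel, by decide +kernel, by decide +kernel, by decide +kernel⟩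

def t2424 : allY (E.wth (lkp [])) l2424 = true ∧
    allY (E.wth (lkp [])) l2425 = true ∧
    allY (E.wth (lkp [])) l2426 = true ∧
    allY (E.wth (lkp [])) l2427 = true ∧
    allY (E.wth (lkp [])) l2428 = true ∧
    allY (E.wth (lkp [])) l2429 = true ∧
    allY (E.wth (lkp [])) l2430 = true ∧
    allY (E.wth (lkp [])) l2431 = true :=
  ⟨by decide +kernel, by decide +kernel, by decide +kernel, by decide +kernel, by decide +kernel, by decide +kernel, by decide +kernel, by decide +kernel⟩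

def t2432 : allY (E.wth (lkp [])) l2432 = true ∧
    allY (E.wth (lkp [])) l2433 = true ∧
    allY (E.wth (lkp [])) l2434 = true ∧
    allY (E.wth (lkp [])) l2435 = true ∧
    allY (E.wth (lkp [])) l2436 = true ∧
    allY (E.wth (lkp [])) l2437 = true ∧
    allY (E.wth (lkp [])) l2438 = true ∧
    allY (E.wth (lkp [])) l2439 = true :=
  ⟨by decide +kernel, by decide +kernel, by decide +kernel, by decide +kernel, by decide +kernel, by decide +kernel, by decide +kernel, by decide +kernel⟩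

def t2440 : allY (E.wth (lkp [])) l2440 = true ∧
    allY (E.wth (lkp [])) l2441 = true ∧
    allY (E.wth (lkp [])) l2442 = true ∧
    allY (E.wth (lkp [])) l2443 = true ∧
    allY (E.wth (lkp [])) l2444 = true ∧
    allY (E.wth (lkp [])) l2445 = true ∧
    allY (E.wth (lkp [])) l2446 = true ∧
    allY (E.wth (lkp [])) l2447 = true :=
  ⟨by decide +kernel, by decide +kernel, by decide +kernel, by decide +kernel, by decide +kernel, by decide +kernel, by decide +kernel, by decide +kernel⟩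

def t2448 : allY (E.wth (lkp [])) l2448 = true ∧
    allY (E.wth (lkp [])) l2449 = true ∧
    allY (E.wth (lkp [])) l2450 = true ∧
    allY (E.wth (lkp [])) l2451 = true ∧
    allY (E.wth (lkp [])) l2452 = true ∧
    allY (E.wth (lkp [])) l2453 = true ∧
    allY (E.wth (lkp [])) l2454 = true ∧
    allY (E.wth (lkp [])) l2455 = true :=
  ⟨by decide +kernel, by decide +kernel, by decide +kernel, by decide +kernel, by decide +kernel, by decide +kernel, by decide +kernel, by decide +kernel⟩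

def t2456 : allY (E.wth (lkp [])) l2456 = true ∧
    allY (E.wth (lkp [])) l2457 = true ∧
    allY (E.wth (lkp [])) l2458 = true ∧
    allY (E.wth (lkp [])) l2459 = true ∧
    allY (E.wth (lkp [])) l2460 = true ∧
    allY (E.wth (lkp [])) l2461 = true ∧
    allY (E.wth (lkp [])) l2462 = true ∧
    allY (E.wth (lkp [])) l2463 = true :=
  ⟨by decide +kernel, by decide +kernel, by decide +kernel, by decide +kernel, by decide +kernel, by decide +kernel, by decide +kernel, by decide +kernel⟩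

def t2464 : allY (E.wth (lkp [])) l2464 = true ∧
    allY (E.wth (lkp [])) l2465 = true ∧
    allY (E.wth (lkp [])) l2466 = true ∧
    allY (E.wth (lkp [])) l2467 = true ∧
    allY (E.wth (lkp [])) l2468 = true ∧
    allY (E.wth (lkp [])) l2469 = true ∧
    allY (E.wth (lkp [])) l2470 = true ∧
    allY (E.wth (lkp [])) l2471 = true :=
  ⟨by decide +kernel, by decide +kernel, by decide +kernel, by decide +kernel, by decide +kernel, by decide +kernel, by decide +kernel, by decide +kernel⟩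

def t2472 : allY (E.wth (lkp [])) l2472 = true ∧
    allY (E.wth (lkp [])) l2473 = true ∧
    allY (E.wth (lkp [])) l2474 = true ∧
    allY (E.wth (lkp [])) l2475 = true ∧
    allY (E.wth (lkp [])) l2476 = true ∧
    allY (E.wth (lkp [])) l2477 = true ∧
    allY (E.wth (lkp [])) l2478 = true ∧
    allY (E.wth (lkp [])) l2479 = true :=
  ⟨by decide +kernel, by decide +kernel, by decide +kernel, by decide +kernel, by decide +kernel, by decide +kernel, by decide +kernel, by decide +kernel⟩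

def t2480 : allY (E.wth (lkp [])) l2480 = true ∧
    allY (E.wth (lkp [])) l2481 = true ∧
    allY (E.wth (lkp [])) l2482 = true ∧
    allY (E.wth (lkp [])) l2483 = true ∧
    allY (E.wth (lkp [])) l2484 = true ∧
    allY (E.wth (lkp [])) l2485 = true ∧
    allY (E.wth (lkp [])) l2486 = true ∧
    allY (E.wth (lkp [])) l2487 = true :=
  ⟨by decide +kernel, by decide +kernel, by decide +kernel, by decide +kernel, by decide +kernel, by decide +kernel, by decide +kernel, by decide +kernel⟩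

def t2488 : allY (E.wth (lkp [])) l2488 = true ∧
    allY (E.wth (lkp [])) l2489 = true ∧
    allY (E.wth (lkp [])) l2490 = true ∧
    allY (E.wth (lkp [])) l2491 = true ∧
    allY (E.wth (lkp [])) l2492 = true ∧
    allY (E.wth (lkp [])) l2493 = true ∧
    allY (E.wth (lkp [])) l2494 = true ∧
    allY (E.wth (lkp [])) l2495 = true :=
  ⟨by decide +kernel, by decide +kernel, by decide +kernel, by decide +kernel, by decide +kernel, by decide +kernel, by decide +kernel, by decide +kernel⟩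

def t2496 : allY (E.wth (lkp [])) l2496 = true ∧
    allY (E.wth (lkp [])) l2497 = true ∧
    allY (E.wth (lkp [])) l2498 = true ∧
    allY (E.wth (lkp [])) l2499 = true ∧
    allY (E.wth (lkp [])) l2500 = true ∧
    allY (E.wth (lkp [])) l2501 = true ∧
    allY (E.wth (lkp [])) l2502 = true ∧
    allY (E.wth (lkp [])) l2503 = true :=
  ⟨by decide +kernel, by decide +kernel, by decide +kernel, by decide +kernel, by decide +kernel, by decide +kernel, by decide +kernel, by decide +kernel⟩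

def t2504 : allY (E.wth (lkp [])) l2504 = true ∧
    allY (E.wth (lkp [])) l2505 = true ∧
    allY (E.wth (lkp [])) l2506 = true ∧
    allY (E.wth (lkp [])) l2507 = true ∧
    allY (E.wth (lkp [])) l2508 = true ∧
    allY (E.wth (lkp [])) l2509 = true ∧
    allY (E.wth (lkp [])) l2510 = true ∧
    allY (E.wth (lkp [])) l2511 = true :=
  ⟨by decide +kernel, by decide +kernel, by decide +kernel, by decide +kernel, by decide +kernel, by decide +kernel, by decide +kernel, by decide +kernel⟩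

def t2512 : allY (E.wth (lkp [])) l2512 = true ∧
    allY (E.wth (lkp [])) l2513 = true ∧
    allY (E.wth (lkp [])) l2514 = true ∧
    allY (E.wth (lkp [])) l2515 = true ∧
    allY (E.wth (lkp [])) l2516 = true ∧
    allY (E.wth (lkp [])) l2517 = true ∧
    allY (E.wth (lkp [])) l2518 = true ∧
    allY (E.wth (lkp [])) l2519 = true :=
  ⟨by decide +kernel, by decide +kernel, by decide +kernel, by decide +kernel, by decide +kernel, by decide +kernel, by decide +kernel, by decide +kernel⟩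

def t2520 : allY (E.wth (lkp [])) l2520 = true ∧
    allY (E.wth (lkp [])) l2521 = true ∧
    allY (E.wth (lkp [])) l2522 = true ∧
    allY (E.wth (lkp [])) l2523 = true ∧
    allY (E.wth (lkp [])) l2524 = true ∧
    allY (E.wth (lkp [])) l2525 = true ∧
    allY (E.wth (lkp [])) l2526 = true ∧
    allY (E.wth (lkp [])) l2527 = true :=
  ⟨by decide +kernel, by decide +kernel, by decide +kernel, by decide +kernel, by decide +kernel, by decide +kernel, by decide +kernel, by decide +kernel⟩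

def t2528 : allY (E.wth (lkp [])) l2528 = true ∧
    allY (E.wth (lkp [])) l2529 = true ∧
    allY (E.wth (lkp [])) l2530 = true ∧
    allY (E.wth (lkp [])) l2531 = true ∧
    allY (E.wth (lkp [])) l2532 = true ∧
    allY (E.wth (lkp [])) l2533 = true ∧
    allY (E.wth (lkp [])) l2534 = true ∧
    allY (E.wth (lkp [])) l2535 = true :=
  ⟨by decide +kernel, by decide +kernel, by decide +kernel, by decide +kernel, by decide +kernel, by decide +kernel, by decide +kernel, by decide +kernel⟩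

def t2536 : allY (E.wth (lkp [])) l2536 = true ∧
    allY (E.wth (lkp [])) l2537 = true ∧
    allY (E.wth (lkp [])) l2538 = true ∧
    allY (E.wth (lkp [])) l2539 = true ∧
    allY (E.wth (lkp [])) l2540 = true ∧
    allY (E.wth (lkp [])) l2541 = true ∧
    allY (E.wth (lkp [])) l2542 = true ∧
    allY (E.wth (lkp [])) l2543 = true :=
  ⟨by decide +kernel, by decide +kernel, by decide +kernel, by decide +kernel, by decide +kernel, by decide +kernel, by decide +kernel, by decide +kernel⟩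

def t2544 : allY (E.wth (lkp [])) l2544 = true ∧
    allY (E.wth (lkp [])) l2545 = true ∧
    allY (E.wth (lkp [])) l2546 = true ∧
    allY (E.wth (lkp [])) l2547 = true ∧
    allY (E.wth (lkp [])) l2548 = true ∧
    allY (E.wth (lkp [])) l2549 = true ∧
    allY (E.wth (lkp [])) l2550 = true ∧
    allY (E.wth (lkp [])) l2551 = true :=
  ⟨by decide +kernel, by decide +kernel, by decide +kernel, by decide +kernel, by decide +kernel, by decide +kernel, by decide +kernel, by decide +kernel⟩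

def t2552 : allY (E.wth (lkp [])) l2552 = true ∧
    allY (E.wth (lkp [])) l2553 = true ∧
    allY (E.wth (lkp [])) l2554 = true ∧
    allY (E.wth (lkp [])) l2555 = true ∧
    allY (E.wth (lkp [])) l2556 = true ∧
    allY (E.wth (lkp [])) l2557 = true ∧
    allY (E.wth (lkp [])) l2558 = true ∧
    allY (E.wth (lkp [])) l2559 = true :=
  ⟨by decide +kernel, by decide +kernel, by decide +kernel, by decide +kernel, by decide +kernel, by decide +kernel, by decide +kernel, by decide +kernel⟩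

def t2560 : allY (E.wth (lkp [])) l2560 = true ∧
    allY (E.wth (lkp [])) l2561 = true ∧
    allY (E.wth (lkp [])) l2562 = true ∧
    allY (E.wth (lkp [])) l2563 = true ∧
    allY (E.wth (lkp [])) l2564 = true ∧
    allY (E.wth (lkp [])) l2565 = true ∧
    allY (E.wth (lkp [])) l2566 = true ∧
    allY (E.wth (lkp [])) l2567 = true :=
  ⟨by decide +kernel, by decide +kernel, by decide +kernel, by decide +kernel, by decide +kernel, by decide +kernel, by decide +kernel, by decide +kernel⟩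

def t2568 : allY (E.wth (lkp [])) l2568 = true ∧
    allY (E.wth (lkp [])) l2569 = true ∧
    allY (E.wth (lkp [])) l2570 = true ∧
    allY (E.wth (lkp [])) l2571 = true ∧
    allY (E.wth (lkp [])) l2572 = true ∧
    allY (E.wth (lkp [])) l2573 = true ∧
    allY (E.wth (lkp [])) l2574 = true ∧
    allY (E.wth (lkp [])) l2575 = true :=
  ⟨by decide +kernel, by decide +kernel, by decide +kernel, by decide +kernel, by decide +kernel, by decide +kernel, by decide +kernel, by decide +kernel⟩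

def t2576 : allY (E.wth (lkp [])) l2576 = true ∧
    allY (E.wth (lkp [])) l2577 = true ∧
    allY (E.wth (lkp [])) l2578 = true ∧
    allY (E.wth (lkp [])) l2579 = true ∧
    allY (E.wth (lkp [])) l2580 = true ∧
    allY (E.wth (lkp [])) l2581 = true ∧
    allY (E.wth (lkp [])) l2582 = true ∧
    allY (E.wth (lkp [])) l2583 = true :=
  ⟨by decide +kernel, by decide +kernel, by decide +kernel, by decide +kernel, by decide +kernel, by decide +kernel, by decide +kernel, by decide +kernel⟩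

def t2584 : allY (E.wth (lkp [])) l2584 = true ∧
    allY (E.wth (lkp [])) l2585 = true ∧
    allY (E.wth (lkp [])) l2586 = true ∧
    allY (E.wth (lkp [])) l2587 = true ∧
    allY (E.wth (lkp [])) l2588 = true ∧
    allY (E.wth (lkp [])) l2589 = true ∧
    allY (E.wth (lkp [])) l2590 = true ∧
    allY (E.wth (lkp [])) l2591 = true :=
  ⟨by decide +kernel, by decide +kernel, by decide +kernel, by decide +kernel, by decide +kernel, by decide +kernel, by decide +kernel, by decide +kernel⟩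

def t2592 : allY (E.wth (lkp [])) l2592 = true ∧
    allY (E.wth (lkp [])) l2593 = true ∧
    allY (E.wth (lkp [])) l2594 = true ∧
    allY (E.wth (lkp [])) l2595 = true ∧
    allY (E.wth (lkp [])) l2596 = true ∧
    allY (E.wth (lkp [])) l2597 = true ∧
    allY (E.wth (lkp [])) l2598 = true ∧
    allY (E.wth (lkp [])) l2599 = true :=
  ⟨by decide +kernel, by decide +kernel, by decide +kernel, by decide +kernel, by decide +kernel, by decide +kernel, by decide +kernel, by decide +kernel⟩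

def t2600 : allY (E.wth (lkp [])) l2600 = true ∧
    allY (E.wth (lkp [])) l2601 = true ∧
    allY (E.wth (lkp [])) l2602 = true ∧
    allY (E.wth (lkp [])) l2603 = true ∧
    allY (E.wth (lkp [])) l2604 = true ∧
    allY (E.wth (lkp [])) l2605 = true ∧
    allY (E.wth (lkp [])) l2606 = true ∧
    allY (E.wth (lkp [])) l2607 = true :=
  ⟨by decide +kernel, by decide +kernel, by decide +kernel, by decide +kernel, by decide +kernel, by decide +kernel, by decide +kernel, by decide +kernel⟩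

def t2608 : allY (E.wth (lkp [])) l2608 = true ∧
    allY (E.wth (lkp [])) l2609 = true ∧
    allY (E.wth (lkp [])) l2610 = true ∧
    allY (E.wth (lkp [])) l2611 = true ∧
    allY (E.wth (lkp [])) l2612 = true ∧
    allY (E.wth (lkp [])) l2613 = true ∧
    allY (E.wth (lkp [])) l2614 = true ∧
    allY (E.wth (lkp [])) l2615 = true :=
  ⟨by decide +kernel, by decide +kernel, by decide +kernel, by decide +kernel, by decide +kernel, by decide +kernel, by decide +kernel, by decide +kernel⟩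

def t2616 : allY (E.wth (lkp [])) l2616 = true ∧
    allY (E.wth (lkp [])) l2617 = true ∧
    allY (E.wth (lkp [])) l2618 = true ∧
    allY (E.wth (lkp [])) l2619 = true ∧
    allY (E.wth (lkp [])) l2620 = true ∧
    allY (E.wth (lkp [])) l2621 = true ∧
    allY (E.wth (lkp [])) l2622 = true ∧
    allY (E.wth (lkp [])) l2623 = true :=
  ⟨by decide +kernel, by decide +kernel, by decide +kernel, by decide +kernel, by decide +kernel, by decide +kernel, by decide +kernel, by decide +kernel⟩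

def t2624 : allY (E.wth (lkp [])) l2624 = true ∧
    allY (E.wth (lkp [])) l2625 = true ∧
    allY (E.wth (lkp [])) l2626 = true ∧
    allY (E.wth (lkp [])) l2627 = true ∧
    allY (E.wth (lkp [])) l2628 = true ∧
    allY (E.wth (lkp [])) l2629 = true ∧
    allY (E.wth (lkp [])) l2630 = true ∧
    allY (E.wth (lkp [])) l2631 = true :=
  ⟨by decide +kernel, by decide +kernel, by decide +kernel, by decide +kernel, by decide +kernel, by decide +kernel, by decide +kernel, by decide +kernel⟩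

def t2632 : allY (E.wth (lkp [])) l2632 = true ∧
    allY (E.wth (lkp [])) l2633 = true ∧
    allY (E.wth (lkp [])) l2634 = true ∧
    allY (E.wth (lkp [])) l2635 = true ∧
    allY (E.wth (lkp [])) l2636 = true ∧
    allY (E.wth (lkp [])) l2637 = true ∧
    allY (E.wth (lkp [])) l2638 = true ∧
    allY (E.wth (lkp [])) l2639 = true :=
  ⟨by decide +kernel, by decide +kernel, by decide +kernel, by decide +kernel, by decide +kernel, by decide +kernel, by decide +kernel, by decide +kernel⟩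

def t2640 : allY (E.wth (lkp [])) l2640 = true ∧
    allY (E.wth (lkp [])) l2641 = true ∧
    allY (E.wth (lkp [])) l2642 = true ∧
    allY (E.wth (lkp [])) l2643 = true ∧
    allY (E.wth (lkp [])) l2644 = true ∧
    allY (E.wth (lkp [])) l2645 = true ∧
    allY (E.wth (lkp [])) l2646 = true ∧
    allY (E.wth (lkp [])) l2647 = true :=
  ⟨by decide +kernel, by decide +kernel, by decide +kernel, by decide +kernel, by decide +kernel, by decide +kernel, by decide +kernel, by decide +kernel⟩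

def t2648 : allY (E.wth (lkp [])) l2648 = true ∧
    allY (E.wth (lkp [])) l2649 = true ∧
    allY (E.wth (lkp [])) l2650 = true ∧
    allY (E.wth (lkp [])) l2651 = true ∧
    allY (E.wth (lkp [])) l2652 = true ∧
    allY (E.wth (lkp [])) l2653 = true ∧
    allY (E.wth (lkp [])) l2654 = true ∧
    allY (E.wth (lkp [])) l2655 = true :=
  ⟨by decide +kernel, by decide +kernel, by decide +kernel, by decide +kernel, by decide +kernel, by decide +kernel, by decide +kernel, by decide +kernel⟩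

def t2656 : allY (E.wth (lkp [])) l2656 = true ∧
    allY (E.wth (lkp [])) l2657 = true ∧
    allY (E.wth (lkp [])) l2658 = true ∧
    allY (E.wth (lkp [])) l2659 = true ∧
    allY (E.wth (lkp [])) l2660 = true ∧
    allY (E.wth (lkp [])) l2661 = true ∧
    allY (E.wth (lkp [])) l2662 = true ∧
    allY (E.wth (lkp [])) l2663 = true :=
  ⟨by decide +kernel, by decide +kernel, by decide +kernel, by decide +kernel, by decide +kernel, by decide +kernel, by decide +kernel, by decide +kernel⟩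

def t2664 : allY (E.wth (lkp [])) l2664 = true ∧
    allY (E.wth (lkp [])) l2665 = true ∧
    allY (E.wth (lkp [])) l2666 = true ∧
    allY (E.wth (lkp [])) l2667 = true ∧
    allY (E.wth (lkp [])) l2668 = true ∧
    allY (E.wth (lkp [])) l2669 = true ∧
    allY (E.wth (lkp [])) l2670 = true ∧
    allY (E.wth (lkp [])) l2671 = true :=
  ⟨by decide +kernel, by decide +kernel, by decide +kernel, by decide +kernel, by decide +kernel, by decide +kernel, by decide +kernel, by decide +kernel⟩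

def t2672 : allY (E.wth (lkp [])) l2672 = true ∧
    allY (E.wth (lkp [])) l2673 = true ∧
    allY (E.wth (lkp [])) l2674 = true ∧
    allY (E.wth (lkp [])) l2675 = true ∧
    allY (E.wth (lkp [])) l2676 = true ∧
    allY (E.wth (lkp [])) l2677 = true ∧
    allY (E.wth (lkp [])) l2678 = true ∧
    allY (E.wth (lkp [])) l2679 = true :=
  ⟨by decide +kernel, by decide +kernel, by decide +kernel, by decide +kernel, by decide +kernel, by decide +kernel, by decide +kernel, by decide +kernel⟩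

def t2680 : allY (E.wth (lkp [])) l2680 = true ∧
    allY (E.wth (lkp [])) l2681 = true ∧
    allY (E.wth (lkp [])) l2682 = true ∧
    allY (E.wth (lkp [])) l2683 = true ∧
    allY (E.wth (lkp [])) l2684 = true ∧
    allY (E.wth (lkp [])) l2685 = true ∧
    allY (E.wth (lkp [])) l2686 = true ∧
    allY (E.wth (lkp [])) l2687 = true :=
  ⟨by decide +kernel, by decide +kernel, by decide +kernel, by decide +kernel, by decide +kernel, by decide +kernel, by decide +kernel, by decide +kernel⟩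

def t2688 : allY (E.wth (lkp [])) l2688 = true ∧
    allY (E.wth (lkp [])) l2689 = true ∧
    allY (E.wth (lkp [])) l2690 = true ∧
    allY (E.wth (lkp [])) l2691 = true ∧
    allY (E.wth (lkp [])) l2692 = true ∧
    allY (E.wth (lkp [])) l2693 = true ∧
    allY (E.wth (lkp [])) l2694 = true ∧
    allY (E.wth (lkp [])) l2695 = true :=
  ⟨by decide +kernel, by decide +kernel, by decide +kernel, by decide +kernel, by decide +kernel, by decide +kernel, by decide +kernel, by decide +kernel⟩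

def t2696 : allY (E.wth (lkp [])) l2696 = true ∧
    allY (E.wth (lkp [])) l2697 = true ∧
    allY (E.wth (lkp [])) l2698 = true ∧
    allY (E.wth (lkp [])) l2699 = true ∧
    allY (E.wth (lkp [])) l2700 = true ∧
    allY (E.wth (lkp [])) l2701 = true ∧
    allY (E.wth (lkp [])) l2702 = true ∧
    allY (E.wth (lkp [])) l2703 = true :=
  ⟨by decide +kernel, by decide +kernel, by decide +kernel, by decide +kernel, by decide +kernel, by decide +kernel, by decide +kernel, by decide +kernel⟩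

def t2704 : allY (E.wth (lkp [])) l2704 = true ∧
    allY (E.wth (lkp [])) l2705 = true ∧
    allY (E.wth (lkp [])) l2706 = true ∧
    allY (E.wth (lkp [])) l2707 = true ∧
    allY (E.wth (lkp [])) l2708 = true ∧
    allY (E.wth (lkp [])) l2709 = true ∧
    allY (E.wth (lkp [])) l2710 = true ∧
    allY (E.wth (lkp [])) l2711 = true :=
  ⟨by decide +kernel, by decide +kernel, by decide +kernel, by decide +kernel, by decide +kernel, by decide +kernel, by decide +kernel, by decide +kernel⟩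

def t2712 : allY (E.wth (lkp [])) l2712 = true ∧
    allY (E.wth (lkp [])) l2713 = true ∧
    allY (E.wth (lkp [])) l2714 = true ∧
    allY (E.wth (lkp [])) l2715 = true ∧
    allY (E.wth (lkp [])) l2716 = true ∧
    allY (E.wth (lkp [])) l2717 = true ∧
    allY (E.wth (lkp [])) l2718 = true ∧
    allY (E.wth (lkp [])) l2719 = true :=
  ⟨by decide +kernel, by decide +kernel, by decide +kernel, by decide +kernel, by decide +kernel, by decide +kernel, by decide +kernel, by decide +kernel⟩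

def t2720 : allY (E.wth (lkp [])) l2720 = true ∧
    allY (E.wth (lkp [])) l2721 = true ∧
    allY (E.wth (lkp [])) l2722 = true ∧
    allY (E.wth (lkp [])) l2723 = true ∧
    allY (E.wth (lkp [])) l2724 = true ∧
    allY (E.wth (lkp [])) l2725 = true ∧
    allY (E.wth (lkp [])) l2726 = true ∧
    allY (E.wth (lkp [])) l2727 = true :=
  ⟨by decide +kernel, by decide +kernel, by decide +kernel, by decide +kernel, by decide +kernel, by decide +kernel, by decide +kernel, by decide +kernel⟩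

def t2728 : allY (E.wth (lkp [])) l2728 = true ∧
    allY (E.wth (lkp [])) l2729 = true ∧
    allY (E.wth (lkp [])) l2730 = true ∧
    allY (E.wth (lkp [])) l2731 = true ∧
    allY (E.wth (lkp [])) l2732 = true ∧
    allY (E.wth (lkp [])) l2733 = true :=
  ⟨by decide +kernel, by decide +kernel, by decide +kernel, by decide +kernel, by decide +kernel, by decide +kernel⟩

theorem a4 {p : Rf → Prop} (H : ∀ l, allY (E.wth (lkp [])) l = true → (lkp l).All p) :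
    b4.All p := ⟨⟨⟨⟨⟨⟨⟨⟨⟨H _ t2168.1, H _ t2168.2.1⟩, ⟨H _ t2168.2.2.1, H _ t2168.2.2.2.1⟩⟩, ⟨⟨H _ t2168.2.2.2.2.1, H _ t2168.2.2.2.2.2.1⟩, ⟨H _ t2168.2.2.2.2.2.2.1, H _ t2168.2.2.2.2.2.2.2⟩⟩⟩, ⟨⟨⟨H _ t2176.1, H _ t2176.2.1⟩, ⟨H _ t2176.2.2.1, H _ t2176.2.2.2.1⟩⟩, ⟨⟨H _ t2176.2.2.2.2.1, H _ t2176.2.2.2.2.2.1⟩, ⟨H _ t2176.2.2.2.2.2.2.1, ⟨H _ t2176.2.2.2.2.2.2.2, H _ t2184.1⟩⟩⟩⟩⟩, ⟨⟨⟨⟨H _ t2184.2.1, H _ t2184.2.2.1⟩, ⟨H _ t2184.2.2.2.1, H _ t2184.2.2.2.2.1⟩⟩, ⟨⟨H _ t2184.2.2.2.2.2.1, H _ t2184.2.2.2.2.2.2.1⟩, ⟨H _ t2184.2.2.2.2.2.2.2, ⟨H _ t2192.1, H _ t2192.2.1⟩⟩⟩⟩, ⟨⟨⟨H _ t2192.2.2.1, H _ t2192.2.2.2.1⟩, ⟨H _ t2192.2.2.2.2.1, H _ t2192.2.2.2.2.2.1⟩⟩, ⟨⟨H _ t2192.2.2.2.2.2.2.1, H _ t2192.2.2.2.2.2.2.2⟩, ⟨H _ t2200.1, ⟨H _ t2200.2.1, H _ t2200.2.2.1⟩⟩⟩⟩⟩⟩, ⟨⟨⟨⟨⟨H _ t2200.2.2.2.1, H _ t2200.2.2.2.2.1⟩, ⟨H _ t2200.2.2.2.2.2.1, H _ t2200.2.2.2.2.2.2.1⟩⟩, ⟨⟨H _ t2200.2.2.2.2.2.2.2,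 H _ t2208.1⟩, ⟨H _ t2208.2.1, H _ t2208.2.2.1⟩⟩⟩, ⟨⟨⟨H _ t2208.2.2.2.1, H _ t2208.2.2.2.2.1⟩, ⟨H _ t2208.2.2.2.2.2.1, H _ t2208.2.2.2.2.2.2.1⟩⟩, ⟨⟨H _ t2208.2.2.2.2.2.2.2, H _ t2216.1⟩, ⟨H _ t2216.2.1, ⟨H _ t2216.2.2.1, H _ t2216.2.2.2.1⟩⟩⟩⟩⟩, ⟨⟨⟨⟨H _ t2216.2.2.2.2.1, H _ t2216.2.2.2.2.2.1⟩, ⟨H _ t2216.2.2.2.2.2.2.1, H _ t2216.2.2.2.2.2.2.2⟩⟩, ⟨⟨H _ t2224.1, H _ t2224.2.1⟩, ⟨H _ t2224.2.2.1, ⟨H _ t2224.2.2.2.1, H _ t2224.2.2.2.2.1⟩⟩⟩⟩, ⟨⟨⟨H _ t2224.2.2.2.2.2.1, H _ t2224.2.2.2.2.2.2.1⟩, ⟨H _ t2224.2.2.2.2.2.2.2, H _ t2232.1⟩⟩, ⟨⟨H _ t2232.2.1, H _ t2232.2.2.1⟩, ⟨H _ t2232.2.2.2.1, ⟨H _ t2232.2.2.2.2.1, H _ t2232.2.2.2.2.2.1⟩⟩⟩⟩⟩⟩⟩, ⟨⟨⟨⟨⟨⟨H _ t2232.2.2.2.2.2.2.1, H _ t2232.2.2.2.2.2.2.2⟩, ⟨H _ t2240.1, H _ t2240.2.1⟩⟩, ⟨⟨H _ t2240.2.2.1, H _ t2240.2.2.2.1⟩, ⟨H _ t2240.2.2.2.2.1, H _ t2240.2.2.2.2.2.1⟩⟩⟩, ⟨⟨⟨H _ t2240.2.2.2.2.2.2.1, H _ t2240.2.2.2.2.2.2.2⟩, ⟨H _ t2248.1,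 H _ t2248.2.1⟩⟩, ⟨⟨H _ t2248.2.2.1, H _ t2248.2.2.2.1⟩, ⟨H _ t2248.2.2.2.2.1, ⟨H _ t2248.2.2.2.2.2.1, H _ t2248.2.2.2.2.2.2.1⟩⟩⟩⟩⟩, ⟨⟨⟨⟨H _ t2248.2.2.2.2.2.2.2, H _ t2256.1⟩, ⟨H _ t2256.2.1, H _ t2256.2.2.1⟩⟩, ⟨⟨H _ t2256.2.2.2.1, H _ t2256.2.2.2.2.1⟩, ⟨H _ t2256.2.2.2.2.2.1, ⟨H _ t2256.2.2.2.2.2.2.1, H _ t2256.2.2.2.2.2.2.2⟩⟩⟩⟩, ⟨⟨⟨H _ t2264.1, H _ t2264.2.1⟩, ⟨H _ t2264.2.2.1, H _ t2264.2.2.2.1⟩⟩, ⟨⟨H _ t2264.2.2.2.2.1, H _ t2264.2.2.2.2.2.1⟩, ⟨H _ t2264.2.2.2.2.2.2.1, ⟨H _ t2264.2.2.2.2.2.2.2, H _ t2272.1⟩⟩⟩⟩⟩⟩, ⟨⟨⟨⟨⟨H _ t2272.2.1, H _ t2272.2.2.1⟩, ⟨H _ t2272.2.2.2.1, H _ t2272.2.2.2.2.1⟩⟩, ⟨⟨H _ t2272.2.2.2.2.2.1, H _ t2272.2.2.2.2.2.2.1⟩, ⟨H _ t2272.2.2.2.2.2.2.2, ⟨H _ t2280.1, H _ t2280.2.1⟩⟩⟩⟩, ⟨⟨⟨H _ t2280.2.2.1, H _ t2280.2.2.2.1⟩, ⟨H _ t2280.2.2.2.2.1, H _ t2280.2.2.2.2.2.1⟩⟩, ⟨⟨H _ t2280.2.2.2.2.2.2.1, H _ t2280.2.2.2.2.2.2.2⟩, ⟨H _ t2288.1, ⟨H _ t2288.2.1,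 H _ t2288.2.2.1⟩⟩⟩⟩⟩, ⟨⟨⟨⟨H _ t2288.2.2.2.1, H _ t2288.2.2.2.2.1⟩, ⟨H _ t2288.2.2.2.2.2.1, H _ t2288.2.2.2.2.2.2.1⟩⟩, ⟨⟨H _ t2288.2.2.2.2.2.2.2, H _ t2296.1⟩, ⟨H _ t2296.2.1, ⟨H _ t2296.2.2.1, H _ t2296.2.2.2.1⟩⟩⟩⟩, ⟨⟨⟨H _ t2296.2.2.2.2.1, H _ t2296.2.2.2.2.2.1⟩, ⟨H _ t2296.2.2.2.2.2.2.1, H _ t2296.2.2.2.2.2.2.2⟩⟩, ⟨⟨H _ t2304.1, H _ t2304.2.1⟩, ⟨H _ t2304.2.2.1, ⟨H _ t2304.2.2.2.1, H _ t2304.2.2.2.2.1⟩⟩⟩⟩⟩⟩⟩⟩, ⟨⟨⟨⟨⟨⟨⟨H _ t2304.2.2.2.2.2.1, H _ t2304.2.2.2.2.2.2.1⟩, ⟨H _ t2304.2.2.2.2.2.2.2, H _ t2312.1⟩⟩, ⟨⟨H _ t2312.2.1, H _ t2312.2.2.1⟩, ⟨H _ t2312.2.2.2.1, H _ t2312.2.2.2.2.1⟩⟩⟩, ⟨⟨⟨H _ t2312.2.2.2.2.2.1, H _ t2312.2.2.2.2.2.2.1⟩, ⟨H _ t2312.2.2.2.2.2.2.2, H _ t2320.1⟩⟩, ⟨⟨H _ t2320.2.1, H _ t2320.2.2.1⟩, ⟨H _ t2320.2.2.2.1, ⟨H _ t2320.2.2.2.2.1, H _ t2320.2.2.2.2.2.1⟩⟩⟩⟩⟩, ⟨⟨⟨⟨H _ t2320.2.2.2.2.2.2.1, H _ t2320.2.2.2.2.2.2.2⟩, ⟨H _ t2328.1, H _ t2328.2.1⟩⟩, ⟨⟨H _ t2328.2.2.1,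 H _ t2328.2.2.2.1⟩, ⟨H _ t2328.2.2.2.2.1, ⟨H _ t2328.2.2.2.2.2.1, H _ t2328.2.2.2.2.2.2.1⟩⟩⟩⟩, ⟨⟨⟨H _ t2328.2.2.2.2.2.2.2, H _ t2336.1⟩, ⟨H _ t2336.2.1, H _ t2336.2.2.1⟩⟩, ⟨⟨H _ t2336.2.2.2.1, H _ t2336.2.2.2.2.1⟩, ⟨H _ t2336.2.2.2.2.2.1, ⟨H _ t2336.2.2.2.2.2.2.1, H _ t2336.2.2.2.2.2.2.2⟩⟩⟩⟩⟩⟩, ⟨⟨⟨⟨⟨H _ t2344.1, H _ t2344.2.1⟩, ⟨H _ t2344.2.2.1, H _ t2344.2.2.2.1⟩⟩, ⟨⟨H _ t2344.2.2.2.2.1, H _ t2344.2.2.2.2.2.1⟩, ⟨H _ t2344.2.2.2.2.2.2.1, ⟨H _ t2344.2.2.2.2.2.2.2, H _ t2352.1⟩⟩⟩⟩, ⟨⟨⟨H _ t2352.2.1, H _ t2352.2.2.1⟩, ⟨H _ t2352.2.2.2.1, H _ t2352.2.2.2.2.1⟩⟩, ⟨⟨H _ t2352.2.2.2.2.2.1, H _ t2352.2.2.2.2.2.2.1⟩, ⟨H _ t2352.2.2.2.2.2.2.2, ⟨H _ t2360.1, H _ t2360.2.1⟩⟩⟩⟩⟩, ⟨⟨⟨⟨H _ t2360.2.2.1, H _ t2360.2.2.2.1⟩, ⟨H _ t2360.2.2.2.2.1, H _ t2360.2.2.2.2.2.1⟩⟩, ⟨⟨H _ t2360.2.2.2.2.2.2.1, H _ t2360.2.2.2.2.2.2.2⟩, ⟨H _ t2368.1, ⟨H _ t2368.2.1, H _ t2368.2.2.1⟩⟩⟩⟩, ⟨⟨⟨H _ t2368.2.2.2.1,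 H _ t2368.2.2.2.2.1⟩, ⟨H _ t2368.2.2.2.2.2.1, H _ t2368.2.2.2.2.2.2.1⟩⟩, ⟨⟨H _ t2368.2.2.2.2.2.2.2, H _ t2376.1⟩, ⟨H _ t2376.2.1, ⟨H _ t2376.2.2.1, H _ t2376.2.2.2.1⟩⟩⟩⟩⟩⟩⟩, ⟨⟨⟨⟨⟨⟨H _ t2376.2.2.2.2.1, H _ t2376.2.2.2.2.2.1⟩, ⟨H _ t2376.2.2.2.2.2.2.1, H _ t2376.2.2.2.2.2.2.2⟩⟩, ⟨⟨H _ t2384.1, H _ t2384.2.1⟩, ⟨H _ t2384.2.2.1, H _ t2384.2.2.2.1⟩⟩⟩, ⟨⟨⟨H _ t2384.2.2.2.2.1, H _ t2384.2.2.2.2.2.1⟩, ⟨H _ t2384.2.2.2.2.2.2.1, H _ t2384.2.2.2.2.2.2.2⟩⟩, ⟨⟨H _ t2392.1, H _ t2392.2.1⟩, ⟨H _ t2392.2.2.1, ⟨H _ t2392.2.2.2.1, H _ t2392.2.2.2.2.1⟩⟩⟩⟩⟩, ⟨⟨⟨⟨H _ t2392.2.2.2.2.2.1, H _ t2392.2.2.2.2.2.2.1⟩, ⟨H _ t2392.2.2.2.2.2.2.2, H _ t2400.1⟩⟩, ⟨⟨H _ t2400.2.1, H _ t2400.2.2.1⟩, ⟨H _ t2400.2.2.2.1, ⟨H _ t2400.2.2.2.2.1, H _ t2400.2.2.2.2.2.1⟩⟩⟩⟩, ⟨⟨⟨H _ t2400.2.2.2.2.2.2.1, H _ t2400.2.2.2.2.2.2.2⟩, ⟨H _ t2408.1, H _ t2408.2.1⟩⟩, ⟨⟨H _ t2408.2.2.1, H _ t2408.2.2.2.1⟩, ⟨H _ t2408.2.2.2.2.1,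 ⟨H _ t2408.2.2.2.2.2.1, H _ t2408.2.2.2.2.2.2.1⟩⟩⟩⟩⟩⟩, ⟨⟨⟨⟨⟨H _ t2408.2.2.2.2.2.2.2, H _ t2416.1⟩, ⟨H _ t2416.2.1, H _ t2416.2.2.1⟩⟩, ⟨⟨H _ t2416.2.2.2.1, H _ t2416.2.2.2.2.1⟩, ⟨H _ t2416.2.2.2.2.2.1, ⟨H _ t2416.2.2.2.2.2.2.1, H _ t2416.2.2.2.2.2.2.2⟩⟩⟩⟩, ⟨⟨⟨H _ t2424.1, H _ t2424.2.1⟩, ⟨H _ t2424.2.2.1, H _ t2424.2.2.2.1⟩⟩, ⟨⟨H _ t2424.2.2.2.2.1, H _ t2424.2.2.2.2.2.1⟩, ⟨H _ t2424.2.2.2.2.2.2.1, ⟨H _ t2424.2.2.2.2.2.2.2, H _ t2432.1⟩⟩⟩⟩⟩, ⟨⟨⟨⟨H _ t2432.2.1, H _ t2432.2.2.1⟩, ⟨H _ t2432.2.2.2.1, H _ t2432.2.2.2.2.1⟩⟩, ⟨⟨H _ t2432.2.2.2.2.2.1, H _ t2432.2.2.2.2.2.2.1⟩, ⟨H _ t2432.2.2.2.2.2.2.2, ⟨H _ t2440.1, H _ t2440.2.1⟩⟩⟩⟩, ⟨⟨⟨H _ t2440.2.2.1, H _ t2440.2.2.2.1⟩, ⟨H _ t2440.2.2.2.2.1, H _ t2440.2.2.2.2.2.1⟩⟩, ⟨⟨H _ t2440.2.2.2.2.2.2.1, H _ t2440.2.2.2.2.2.2.2⟩, ⟨H _ t2448.1, ⟨H _ t2448.2.1, H _ t2448.2.2.1⟩⟩⟩⟩⟩⟩⟩⟩⟩, ⟨⟨⟨⟨⟨⟨⟨⟨H _ t2448.2.2.2.1, H _ t2448.2.2.2.2.1⟩, ⟨H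 _ t2448.2.2.2.2.2.1, H _ t2448.2.2.2.2.2.2.1⟩⟩, ⟨⟨H _ t2448.2.2.2.2.2.2.2, H _ t2456.1⟩, ⟨H _ t2456.2.1, H _ t2456.2.2.1⟩⟩⟩, ⟨⟨⟨H _ t2456.2.2.2.1, H _ t2456.2.2.2.2.1⟩, ⟨H _ t2456.2.2.2.2.2.1, H _ t2456.2.2.2.2.2.2.1⟩⟩, ⟨⟨H _ t2456.2.2.2.2.2.2.2, H _ t2464.1⟩, ⟨H _ t2464.2.1, ⟨H _ t2464.2.2.1, H _ t2464.2.2.2.1⟩⟩⟩⟩⟩, ⟨⟨⟨⟨H _ t2464.2.2.2.2.1, H _ t2464.2.2.2.2.2.1⟩, ⟨H _ t2464.2.2.2.2.2.2.1, H _ t2464.2.2.2.2.2.2.2⟩⟩, ⟨⟨H _ t2472.1, H _ t2472.2.1⟩, ⟨H _ t2472.2.2.1, ⟨H _ t2472.2.2.2.1, H _ t2472.2.2.2.2.1⟩⟩⟩⟩, ⟨⟨⟨H _ t2472.2.2.2.2.2.1, H _ t2472.2.2.2.2.2.2.1⟩, ⟨H _ t2472.2.2.2.2.2.2.2, H _ t2480.1⟩⟩, ⟨⟨H _ t2480.2.1, H _ t2480.2.2.1⟩, ⟨H _ t2480.2.2.2.1, ⟨H _ t2480.2.2.2.2.1, H _ t2480.2.2.2.2.2.1⟩⟩⟩⟩⟩⟩, ⟨⟨⟨⟨⟨H _ t2480.2.2.2.2.2.2.1, H _ t2480.2.2.2.2.2.2.2⟩, ⟨H _ t2488.1, H _ t2488.2.1⟩⟩, ⟨⟨H _ t2488.2.2.1, H _ t2488.2.2.2.1⟩, ⟨H _ t2488.2.2.2.2.1, H _ t2488.2.2.2.2.2.1⟩⟩⟩,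 ⟨⟨⟨H _ t2488.2.2.2.2.2.2.1, H _ t2488.2.2.2.2.2.2.2⟩, ⟨H _ t2496.1, H _ t2496.2.1⟩⟩, ⟨⟨H _ t2496.2.2.1, H _ t2496.2.2.2.1⟩, ⟨H _ t2496.2.2.2.2.1, ⟨H _ t2496.2.2.2.2.2.1, H _ t2496.2.2.2.2.2.2.1⟩⟩⟩⟩⟩, ⟨⟨⟨⟨H _ t2496.2.2.2.2.2.2.2, H _ t2504.1⟩, ⟨H _ t2504.2.1, H _ t2504.2.2.1⟩⟩, ⟨⟨H _ t2504.2.2.2.1, H _ t2504.2.2.2.2.1⟩, ⟨H _ t2504.2.2.2.2.2.1, ⟨H _ t2504.2.2.2.2.2.2.1, H _ t2504.2.2.2.2.2.2.2⟩⟩⟩⟩, ⟨⟨⟨H _ t2512.1, H _ t2512.2.1⟩, ⟨H _ t2512.2.2.1, H _ t2512.2.2.2.1⟩⟩, ⟨⟨H _ t2512.2.2.2.2.1, H _ t2512.2.2.2.2.2.1⟩, ⟨H _ t2512.2.2.2.2.2.2.1, ⟨H _ t2512.2.2.2.2.2.2.2, H _ t2520.1⟩⟩⟩⟩⟩⟩⟩, ⟨⟨⟨⟨⟨⟨H _ t2520.2.1, H _ t2520.2.2.1⟩, ⟨H _ t2520.2.2.2.1, H _ t2520.2.2.2.2.1⟩⟩, ⟨⟨H _ t2520.2.2.2.2.2.1, H _ t2520.2.2.2.2.2.2.1⟩, ⟨H _ t2520.2.2.2.2.2.2.2, H _ t2528.1⟩⟩⟩, ⟨⟨⟨H _ t2528.2.1, H _ t2528.2.2.1⟩, ⟨H _ t2528.2.2.2.1, H _ t2528.2.2.2.2.1⟩⟩, ⟨⟨H _ t2528.2.2.2.2.2.1, H _ t2528.2.2.2.2.2.2.1⟩,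 ⟨H _ t2528.2.2.2.2.2.2.2, ⟨H _ t2536.1, H _ t2536.2.1⟩⟩⟩⟩⟩, ⟨⟨⟨⟨H _ t2536.2.2.1, H _ t2536.2.2.2.1⟩, ⟨H _ t2536.2.2.2.2.1, H _ t2536.2.2.2.2.2.1⟩⟩, ⟨⟨H _ t2536.2.2.2.2.2.2.1, H _ t2536.2.2.2.2.2.2.2⟩, ⟨H _ t2544.1, ⟨H _ t2544.2.1, H _ t2544.2.2.1⟩⟩⟩⟩, ⟨⟨⟨H _ t2544.2.2.2.1, H _ t2544.2.2.2.2.1⟩, ⟨H _ t2544.2.2.2.2.2.1, H _ t2544.2.2.2.2.2.2.1⟩⟩, ⟨⟨H _ t2544.2.2.2.2.2.2.2, H _ t2552.1⟩, ⟨H _ t2552.2.1, ⟨H _ t2552.2.2.1, H _ t2552.2.2.2.1⟩⟩⟩⟩⟩⟩, ⟨⟨⟨⟨⟨H _ t2552.2.2.2.2.1, H _ t2552.2.2.2.2.2.1⟩, ⟨H _ t2552.2.2.2.2.2.2.1, H _ t2552.2.2.2.2.2.2.2⟩⟩, ⟨⟨H _ t2560.1, H _ t2560.2.1⟩, ⟨H _ t2560.2.2.1, ⟨H _ t2560.2.2.2.1, H _ t2560.2.2.2.2.1⟩⟩⟩⟩, ⟨⟨⟨H _ t2560.2.2.2.2.2.1, H _ t2560.2.2.2.2.2.2.1⟩, ⟨H _ t2560.2.2.2.2.2.2.2, H _ t2568.1⟩⟩, ⟨⟨H _ t2568.2.1, H _ t2568.2.2.1⟩, ⟨H _ t2568.2.2.2.1, ⟨H _ t2568.2.2.2.2.1, H _ t2568.2.2.2.2.2.1⟩⟩⟩⟩⟩, ⟨⟨⟨⟨H _ t2568.2.2.2.2.2.2.1, H _ t2568.2.2.2.2.2.2.2⟩,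 ⟨H _ t2576.1, H _ t2576.2.1⟩⟩, ⟨⟨H _ t2576.2.2.1, H _ t2576.2.2.2.1⟩, ⟨H _ t2576.2.2.2.2.1, ⟨H _ t2576.2.2.2.2.2.1, H _ t2576.2.2.2.2.2.2.1⟩⟩⟩⟩, ⟨⟨⟨H _ t2576.2.2.2.2.2.2.2, H _ t2584.1⟩, ⟨H _ t2584.2.1, H _ t2584.2.2.1⟩⟩, ⟨⟨H _ t2584.2.2.2.1, H _ t2584.2.2.2.2.1⟩, ⟨H _ t2584.2.2.2.2.2.1, ⟨H _ t2584.2.2.2.2.2.2.1, H _ t2584.2.2.2.2.2.2.2⟩⟩⟩⟩⟩⟩⟩⟩, ⟨⟨⟨⟨⟨⟨⟨H _ t2592.1, H _ t2592.2.1⟩, ⟨H _ t2592.2.2.1, H _ t2592.2.2.2.1⟩⟩, ⟨⟨H _ t2592.2.2.2.2.1, H _ t2592.2.2.2.2.2.1⟩, ⟨H _ t2592.2.2.2.2.2.2.1, H _ t2592.2.2.2.2.2.2.2⟩⟩⟩, ⟨⟨⟨H _ t2600.1, H _ t2600.2.1⟩, ⟨H _ t2600.2.2.1, H _ t2600.2.2.2.1⟩⟩, ⟨⟨H _ t2600.2.2.2.2.1, H _ t2600.2.2.2.2.2.1⟩, ⟨H _ t2600.2.2.2.2.2.2.1, ⟨H _ t2600.2.2.2.2.2.2.2, H _ t2608.1⟩⟩⟩⟩⟩, ⟨⟨⟨⟨H _ t2608.2.1, H _ t2608.2.2.1⟩, ⟨H _ t2608.2.2.2.1, H _ t2608.2.2.2.2.1⟩⟩, ⟨⟨H _ t2608.2.2.2.2.2.1, H _ t2608.2.2.2.2.2.2.1⟩, ⟨H _ t2608.2.2.2.2.2.2.2, ⟨H _ t2616.1,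 H _ t2616.2.1⟩⟩⟩⟩, ⟨⟨⟨H _ t2616.2.2.1, H _ t2616.2.2.2.1⟩, ⟨H _ t2616.2.2.2.2.1, H _ t2616.2.2.2.2.2.1⟩⟩, ⟨⟨H _ t2616.2.2.2.2.2.2.1, H _ t2616.2.2.2.2.2.2.2⟩, ⟨H _ t2624.1, ⟨H _ t2624.2.1, H _ t2624.2.2.1⟩⟩⟩⟩⟩⟩, ⟨⟨⟨⟨⟨H _ t2624.2.2.2.1, H _ t2624.2.2.2.2.1⟩, ⟨H _ t2624.2.2.2.2.2.1, H _ t2624.2.2.2.2.2.2.1⟩⟩, ⟨⟨H _ t2624.2.2.2.2.2.2.2, H _ t2632.1⟩, ⟨H _ t2632.2.1, ⟨H _ t2632.2.2.1, H _ t2632.2.2.2.1⟩⟩⟩⟩, ⟨⟨⟨H _ t2632.2.2.2.2.1, H _ t2632.2.2.2.2.2.1⟩, ⟨H _ t2632.2.2.2.2.2.2.1, H _ t2632.2.2.2.2.2.2.2⟩⟩, ⟨⟨H _ t2640.1, H _ t2640.2.1⟩, ⟨H _ t2640.2.2.1, ⟨H _ t2640.2.2.2.1, H _ t2640.2.2.2.2.1⟩⟩⟩⟩⟩, ⟨⟨⟨⟨H _ t2640.2.2.2.2.2.1, H _ t2640.2.2.2.2.2.2.1⟩, ⟨H _ t2640.2.2.2.2.2.2.2, H _ t2648.1⟩⟩, ⟨⟨H _ t2648.2.1, H _ t2648.2.2.1⟩, ⟨H _ t2648.2.2.2.1, ⟨H _ t2648.2.2.2.2.1, H _ t2648.2.2.2.2.2.1⟩⟩⟩⟩, ⟨⟨⟨H _ t2648.2.2.2.2.2.2.1, H _ t2648.2.2.2.2.2.2.2⟩, ⟨H _ t2656.1, H _ t2656.2.1⟩⟩,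 ⟨⟨H _ t2656.2.2.1, H _ t2656.2.2.2.1⟩, ⟨H _ t2656.2.2.2.2.1, ⟨H _ t2656.2.2.2.2.2.1, H _ t2656.2.2.2.2.2.2.1⟩⟩⟩⟩⟩⟩⟩, ⟨⟨⟨⟨⟨⟨H _ t2656.2.2.2.2.2.2.2, H _ t2664.1⟩, ⟨H _ t2664.2.1, H _ t2664.2.2.1⟩⟩, ⟨⟨H _ t2664.2.2.2.1, H _ t2664.2.2.2.2.1⟩, ⟨H _ t2664.2.2.2.2.2.1, H _ t2664.2.2.2.2.2.2.1⟩⟩⟩, ⟨⟨⟨H _ t2664.2.2.2.2.2.2.2, H _ t2672.1⟩, ⟨H _ t2672.2.1, H _ t2672.2.2.1⟩⟩, ⟨⟨H _ t2672.2.2.2.1, H _ t2672.2.2.2.2.1⟩, ⟨H _ t2672.2.2.2.2.2.1, ⟨H _ t2672.2.2.2.2.2.2.1, H _ t2672.2.2.2.2.2.2.2⟩⟩⟩⟩⟩, ⟨⟨⟨⟨H _ t2680.1, H _ t2680.2.1⟩, ⟨H _ t2680.2.2.1, H _ t2680.2.2.2.1⟩⟩, ⟨⟨H _ t2680.2.2.2.2.1, H _ t2680.2.2.2.2.2.1⟩, ⟨H _ t2680.2.2.2.2.2.2.1, ⟨H _ t2680.2.2.2.2.2.2.2, H _ t2688.1⟩⟩⟩⟩, ⟨⟨⟨H _ t2688.2.1, H _ t2688.2.2.1⟩, ⟨H _ t2688.2.2.2.1, H _ t2688.2.2.2.2.1⟩⟩, ⟨⟨H _ t2688.2.2.2.2.2.1, H _ t2688.2.2.2.2.2.2.1⟩, ⟨H _ t2688.2.2.2.2.2.2.2, ⟨H _ t2696.1, H _ t2696.2.1⟩⟩⟩⟩⟩⟩, ⟨⟨⟨⟨⟨H _ t2696.2.2.1,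 H _ t2696.2.2.2.1⟩, ⟨H _ t2696.2.2.2.2.1, H _ t2696.2.2.2.2.2.1⟩⟩, ⟨⟨H _ t2696.2.2.2.2.2.2.1, H _ t2696.2.2.2.2.2.2.2⟩, ⟨H _ t2704.1, ⟨H _ t2704.2.1, H _ t2704.2.2.1⟩⟩⟩⟩, ⟨⟨⟨H _ t2704.2.2.2.1, H _ t2704.2.2.2.2.1⟩, ⟨H _ t2704.2.2.2.2.2.1, H _ t2704.2.2.2.2.2.2.1⟩⟩, ⟨⟨H _ t2704.2.2.2.2.2.2.2, H _ t2712.1⟩, ⟨H _ t2712.2.1, ⟨H _ t2712.2.2.1, H _ t2712.2.2.2.1⟩⟩⟩⟩⟩, ⟨⟨⟨⟨H _ t2712.2.2.2.2.1, H _ t2712.2.2.2.2.2.1⟩, ⟨H _ t2712.2.2.2.2.2.2.1, H _ t2712.2.2.2.2.2.2.2⟩⟩, ⟨⟨H _ t2720.1, H _ t2720.2.1⟩, ⟨H _ t2720.2.2.1, ⟨H _ t2720.2.2.2.1, H _ t2720.2.2.2.2.1⟩⟩⟩⟩, ⟨⟨⟨H _ t2720.2.2.2.2.2.1, H _ t2720.2.2.2.2.2.2.1⟩, ⟨H _ t2720.2.2.2.2.2.2.2, H _ t2728.1⟩⟩, ⟨⟨H _ t2728.2.1, H _ t2728.2.2.1⟩, ⟨H _ t2728.2.2.2.1, ⟨H _ t2728.2.2.2.2.1, H _ t2728.2.2.2.2.2⟩⟩⟩⟩⟩⟩⟩⟩⟩⟩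

end Pool.Agent.MP_c853c5_nt.X.C4950
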