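import Pool.Agent.MP_c853c5_nt.X.C4950.Env
import Pool.Agent.MP_c853c5_nt.X.C4950.D8

set_option autoImplicit false
set_option maxRecDepth 8192
set_option linter.all false

namespace Pool.Agent.MP_c853c5_nt.X.C4950

open Pool.Agent.MP_c853c5_nt.X

def t22380 : allY (E.wth (lkp [])) l22380 = true ∧
    allY (E.wth (lkp [])) l22381 = true ∧
    allY (E.wth (lkp [])) l22382 = true ∧
    allY (E.wth (lkp [])) l22383 = true ∧
    allY (E.wth (lkp [])) l22384 = true ∧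
    allY (E.wth (lkp [])) l22385 = true ∧
    allY (E.wth (lkp [])) l22386 = true ∧
    allY (E.wth (lkp [])) l22387 = true :=
  ⟨by decide +kernel, by decide +kernel, by decide +kernel, by decide +kernel, by decide +kernel, by decide +kernel, by decide +kernel, by decide +kernel⟩

def t22388 : allY (E.wth (lkp [])) l22388 = true ∧
    allY (E.wth (lkp [])) l22389 = true ∧
    allY (E.wth (lkp [])) l22390 = true ∧
    allY (E.wth (lkp [])) l22391 = true ∧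
    allY (E.wth (lkp [])) l22392 = true ∧
    allY (E.wth (lkp [])) l22393 = true ∧
    allY (E.wth (lkp [])) l22394 = true ∧
    allY (E.wth (lkp [])) l22395 = true :=
  ⟨by decide +kernel, by decide +kernel, by decide +kernel, by decide +kernel, by decide +kernel, by decide +kernel, by decide +kernel, by decide +kernel⟩

def t22396 : allY (E.wth (lkp [])) l22396 = true ∧
    allY (E.wth (lkp [])) l22397 = true ∧
    allY (E.wth (lkp [])) l22398 = true ∧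
    allY (E.wth (lkp [])) l22399 = true ∧
    allY (E.wth (lkp [])) l22400 = true ∧
    allY (E.wth (lkp [])) l22401 = true ∧
    allY (E.wth (lkp [])) l22402 = true ∧
    allY (E.wth (lkp [])) l22403 = true :=
  ⟨by decide +kernel, by decide +kernel, by decide +kernel, by decide +kernel, by decide +kernel, by decide +kernel, by decide +kernel, by decide +kernel⟩

def t22404 : allY (E.wth (lkp [])) l22404 = true ∧
    allY (E.wth (lkp [])) l22405 = true ∧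
    allY (E.wth (lkp [])) l22406 = true ∧
    allY (E.wth (lkp [])) l22407 = true ∧
    allY (E.wth (lkp [])) l22408 = true ∧
    allY (E.wth (lkp [])) l22409 = true ∧
    allY (E.wth (lkp [])) l22410 = true ∧
    allY (E.wth (lkp [])) l22411 = true :=
  ⟨by decide +kernel, by decide +kernel, by decide +kernel, by decide +kernel, by decide +kernel, by decide +kernel, by decide +kernel, by decide +kernel⟩

def t22412 : allY (E.wth (lkp [])) l22412 = true ∧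
    allY (E.wth (lkp [])) l22413 = true ∧
    allY (E.wth (lkp [])) l22414 = true ∧
    allY (E.wth (lkp [])) l22415 = true ∧
    allY (E.wth (lkp [])) l22416 = true ∧
    allY (E.wth (lkp [])) l22417 = true ∧
    allY (E.wth (lkp [])) l22418 = true ∧
    allY (E.wth (lkp [])) l22419 = true :=
  ⟨by decide +kernel, by decide +kernel, by decide +kernel, by decide +kernel, by decide +kernel, by decide +kernel, by decide +kernel, by decide +kernel⟩

def t22420 : allY (E.wth (lkp [])) l22420 = true ∧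
    allY (E.wth (lkp [])) l22421 = true ∧
    allY (E.wth (lkp [])) l22422 = true ∧
    allY (E.wth (lkp [])) l22423 = true ∧
    allY (E.wth (lkp [])) l22424 = true ∧
    allY (E.wth (lkp [])) l22425 = true ∧
    allY (E.wth (lkp [])) l22426 = true ∧
    allY (E.wth (lkp [])) l22427 = true :=
  ⟨by decide +kernel, by decide +kernel, by decide +kernel, by decide +kernel, by decide +kernel, by decide +kernel, by decide +kernel, by decide +kernel⟩

def t22428 : allY (E.wth (lkp [])) l22428 = true ∧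
    allY (E.wth (lkp [])) l22429 = true ∧
    allY (E.wth (lkp [])) l22430 = true ∧
    allY (E.wth (lkp [])) l22431 = true ∧
    allY (E.wth (lkp [])) l22432 = true ∧
    allY (E.wth (lkp [])) l22433 = true ∧
    allY (E.wth (lkp [])) l22434 = true ∧
    allY (E.wth (lkp [])) l22435 = true :=
  ⟨by decide +kernel, by decide +kernel, by decide +kernel, by decide +kernel, by decide +kernel, by decide +kernel, by decide +kernel, by decide +kernel⟩

def t22436 : allY (E.wth (lkp [])) l22436 = true ∧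
    allY (E.wth (lkp [])) l22437 = true ∧
    allY (E.wth (lkp [])) l22438 = true ∧
    allY (E.wth (lkp [])) l22439 = true ∧
    allY (E.wth (lkp [])) l22440 = true ∧
    allY (E.wth (lkp [])) l22441 = true ∧
    allY (E.wth (lkp [])) l22442 = true ∧
    allY (E.wth (lkp [])) l22443 = true :=
  ⟨by decide +kernel, by decide +kernel, by decide +kernel, by decide +kernel, by decide +kernel, by decide +kernel, by decide +kernel, by decide +kernel⟩

def t22444 : allY (E.wth (lkp [])) l22444 = true ∧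
    allY (E.wth (lkp [])) l22445 = true ∧
    allY (E.wth (lkp [])) l22446 = true ∧
    allY (E.wth (lkp [])) l22447 = true ∧
    allY (E.wth (lkp [])) l22448 = true ∧
    allY (E.wth (lkp [])) l22449 = true ∧
    allY (E.wth (lkp [])) l22450 = true ∧
    allY (E.wth (lkp [])) l22451 = true :=
  ⟨by decide +kernel, by decide +kernel, by decide +kernel, by decide +kernel, by decide +kernel, by decide +kernel, by decide +kernel, by decide +kernel⟩

def t22452 : allY (E.wth (lkp [])) l22452 = true ∧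
    allY (E.wth (lkp [])) l22453 = true ∧
    allY (E.wth (lkp [])) l22454 = true ∧
    allY (E.wth (lkp [])) l22455 = true ∧
    allY (E.wth (lkp [])) l22456 = true ∧
    allY (E.wth (lkp [])) l22457 = true ∧
    allY (E.wth (lkp [])) l22458 = true ∧
    allY (E.wth (lkp [])) l22459 = true :=
  ⟨by decide +kernel, by decide +kernel, by decide +kernel, by decide +kernel, by decide +kernel, by decide +kernel, by decide +kernel, by decide +kernel⟩

def t22460 : allY (E.wth (lkp [])) l22460 = true ∧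
    allY (E.wth (lkp [])) l22461 = true ∧
    allY (E.wth (lkp [])) l22462 = true ∧
    allY (E.wth (lkp [])) l22463 = true ∧
    allY (E.wth (lkp [])) l22464 = true ∧
    allY (E.wth (lkp [])) l22465 = true ∧
    allY (E.wth (lkp [])) l22466 = true ∧
    allY (E.wth (lkp [])) l22467 = true :=
  ⟨by decide +kernel, by decide +kernel, by decide +kernel, by decide +kernel, by decide +kernel, by decide +kernel, by decide +kernel, by decide +kernel⟩

def t22468 : allY (E.wth (lkp [])) l22468 = true ∧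
    allY (E.wth (lkp [])) l22469 = true ∧
    allY (E.wth (lkp [])) l22470 = true ∧
    allY (E.wth (lkp [])) l22471 = true ∧
    allY (E.wth (lkp [])) l22472 = true ∧
    allY (E.wth (lkp [])) l22473 = true ∧
    allY (E.wth (lkp [])) l22474 = true ∧
    allY (E.wth (lkp [])) l22475 = true :=
  ⟨by decide +kernel, by decide +kernel, by decide +kernel, by decide +kernel, by decide +kernel, by decide +kernel, by decide +kernel, by decide +kernel⟩

def t22476 : allY (E.wth (lkp [])) l22476 = true ∧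
    allY (E.wth (lkp [])) l22477 = true ∧
    allY (E.wth (lkp [])) l22478 = true ∧
    allY (E.wth (lkp [])) l22479 = true ∧
    allY (E.wth (lkp [])) l22480 = true ∧
    allY (E.wth (lkp [])) l22481 = true ∧
    allY (E.wth (lkp [])) l22482 = true ∧
    allY (E.wth (lkp [])) l22483 = true :=
  ⟨by decide +kernel, by decide +kernel, by decide +kernel, by decide +kernel, by decide +kernel, by decide +kernel, by decide +kernel, by decide +kernel⟩

def t22484 : allY (E.wth (lkp [])) l22484 = true ∧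
    allY (E.wth (lkp [])) l22485 = true ∧
    allY (E.wth (lkp [])) l22486 = true ∧
    allY (E.wth (lkp [])) l22487 = true ∧
    allY (E.wth (lkp [])) l22488 = true ∧
    allY (E.wth (lkp [])) l22489 = true ∧
    allY (E.wth (lkp [])) l22490 = true ∧
    allY (E.wth (lkp [])) l22491 = true :=
  ⟨by decide +kernel, by decide +kernel, by decide +kernel, by decide +kernel, by decide +kernel, by decide +kernel, by decide +kernel, by decide +kernel⟩

def t22492 : allY (E.wth (lkp [])) l22492 = true ∧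
    allY (E.wth (lkp [])) l22493 = true ∧
    allY (E.wth (lkp [])) l22494 = true ∧
    allY (E.wth (lkp [])) l22495 = true ∧
    allY (E.wth (lkp [])) l22496 = true ∧
    allY (E.wth (lkp [])) l22497 = true ∧
    allY (E.wth (lkp [])) l22498 = true ∧
    allY (E.wth (lkp [])) l22499 = true :=
  ⟨by decide +kernel, by decide +kernel, by decide +kernel, by decide +kernel, by decide +kernel, by decide +kernel, by decide +kernel, by decide +kernel⟩

def t22500 : allY (E.wth (lkp [])) l22500 = true ∧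
    allY (E.wth (lkp [])) l22501 = true ∧
    allY (E.wth (lkp [])) l22502 = true ∧
    allY (E.wth (lkp [])) l22503 = true ∧
    allY (E.wth (lkp [])) l22504 = true ∧
    allY (E.wth (lkp [])) l22505 = true ∧
    allY (E.wth (lkp [])) l22506 = true ∧
    allY (E.wth (lkp [])) l22507 = true :=
  ⟨by decide +kernel, by decide +kernel, by decide +kernel, by decide +kernel, by decide +kernel, by decide +kernel, by decide +kernel, by decide +kernel⟩

def t22508 : allY (E.wth (lkp [])) l22508 = true ∧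
    allY (E.wth (lkp [])) l22509 = true ∧
    allY (E.wth (lkp [])) l22510 = true ∧
    allY (E.wth (lkp [])) l22511 = true ∧
    allY (E.wth (lkp [])) l22512 = true ∧
    allY (E.wth (lkp [])) l22513 = true ∧
    allY (E.wth (lkp [])) l22514 = true ∧
    allY (E.wth (lkp [])) l22515 = true :=
  ⟨by decide +kernel, by decide +kernel, by decide +kernel, by decide +kernel, by decide +kernel, by decide +kernel, by decide +kernel, by decide +kernel⟩

def t22516 : allY (E.wth (lkp [])) l22516 = true ∧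
    allY (E.wth (lkp [])) l22517 = true ∧
    allY (E.wth (lkp [])) l22518 = true ∧
    allY (E.wth (lkp [])) l22519 = true ∧
    allY (E.wth (lkp [])) l22520 = true ∧
    allY (E.wth (lkp [])) l22521 = true ∧
    allY (E.wth (lkp [])) l22522 = true ∧
    allY (E.wth (lkp [])) l22523 = true :=
  ⟨by decide +kernel, by decide +kernel, by decide +kernel, by decide +kernel, by decide +kernel, by decide +kernel, by decide +kernel, by decide +kernel⟩

def t22524 : allY (E.wth (lkp [])) l22524 = true ∧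
    allY (E.wth (lkp [])) l22525 = true ∧
    allY (E.wth (lkp [])) l22526 = true ∧
    allY (E.wth (lkp [])) l22527 = true ∧
    allY (E.wth (lkp [])) l22528 = true ∧
    allY (E.wth (lkp [])) l22529 = true ∧
    allY (E.wth (lkp [])) l22530 = true ∧
    allY (E.wth (lkp [])) l22531 = true :=
  ⟨by decide +kernel, by decide +kernel, by decide +kernel, by decide +kernel, by decide +kernel, by decide +kernel, by decide +kernel, by decide +kernel⟩

def t22532 : allY (E.wth (lkp [])) l22532 = true ∧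
    allY (E.wth (lkp [])) l22533 = true ∧
    allY (E.wth (lkp [])) l22534 = true ∧
    allY (E.wth (lkp [])) l22535 = true ∧
    allY (E.wth (lkp [])) l22536 = true ∧
    allY (E.wth (lkp [])) l22537 = true ∧
    allY (E.wth (lkp [])) l22538 = true ∧
    allY (E.wth (lkp [])) l22539 = true :=
  ⟨by decide +kernel, by decide +kernel, by decide +kernel, by decide +kernel, by decide +kernel, by decide +kernel, by decide +kernel, by decide +kernel⟩

def t22540 : allY (E.wth (lkp [])) l22540 = true ∧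
    allY (E.wth (lkp [])) l22541 = true ∧
    allY (E.wth (lkp [])) l22542 = true ∧
    allY (E.wth (lkp [])) l22543 = true ∧
    allY (E.wth (lkp [])) l22544 = true ∧
    allY (E.wth (lkp [])) l22545 = true ∧
    allY (E.wth (lkp [])) l22546 = true ∧
    allY (E.wth (lkp [])) l22547 = true :=
  ⟨by decide +kernel, by decide +kernel, by decide +kernel, by decide +kernel, by decide +kernel, by decide +kernel, by decide +kernel, by decide +kernel⟩

def t22548 : allY (E.wth (lkp [])) l22548 = true ∧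
    allY (E.wth (lkp [])) l22549 = true ∧
    allY (E.wth (lkp [])) l22550 = true ∧
    allY (E.wth (lkp [])) l22551 = true ∧
    allY (E.wth (lkp [])) l22552 = true ∧
    allY (E.wth (lkp [])) l22553 = true ∧
    allY (E.wth (lkp [])) l22554 = true ∧
    allY (E.wth (lkp [])) l22555 = true :=
  ⟨by decide +kernel, by decide +kernel, by decide +kernel, by decide +kernel, by decide +kernel, by decide +kernel, by decide +kernel, by decide +kernel⟩

def t22556 : allY (E.wth (lkp [])) l22556 = true ∧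
    allY (E.wth (lkp [])) l22557 = true ∧
    allY (E.wth (lkp [])) l22558 = true ∧
    allY (E.wth (lkp [])) l22559 = true ∧
    allY (E.wth (lkp [])) l22560 = true ∧
    allY (E.wth (lkp [])) l22561 = true ∧
    allY (E.wth (lkp [])) l22562 = true ∧
    allY (E.wth (lkp [])) l22563 = true :=
  ⟨by decide +kernel, by decide +kernel, by decide +kernel, by decide +kernel, by decide +kernel, by decide +kernel, by decide +kernel, by decide +kernel⟩

def t22564 : allY (E.wth (lkp [])) l22564 = true ∧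
    allY (E.wth (lkp [])) l22565 = true ∧
    allY (E.wth (lkp [])) l22566 = true ∧
    allY (E.wth (lkp [])) l22567 = true ∧
    allY (E.wth (lkp [])) l22568 = true ∧
    allY (E.wth (lkp [])) l22569 = true ∧
    allY (E.wth (lkp [])) l22570 = true ∧
    allY (E.wth (lkp [])) l22571 = true :=
  ⟨by decide +kernel, by decide +kernel, by decide +kernel, by decide +kernel, by decide +kernel, by decide +kernel, by decide +kernel, by decide +kernel⟩

def t22572 : allY (E.wth (lkp [])) l22572 = true ∧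
    allY (E.wth (lkp [])) l22573 = true ∧
    allY (E.wth (lkp [])) l22574 = true ∧
    allY (E.wth (lkp [])) l22575 = true ∧
    allY (E.wth (lkp [])) l22576 = true ∧
    allY (E.wth (lkp [])) l22577 = true ∧
    allY (E.wth (lkp [])) l22578 = true ∧
    allY (E.wth (lkp [])) l22579 = true :=
  ⟨by decide +kernel, by decide +kernel, by decide +kernel, by decide +kernel, by decide +kernel, by decide +kernel, by decide +kernel, by decide +kernel⟩

def t22580 : allY (E.wth (lkp [])) l22580 = true ∧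
    allY (E.wth (lkp [])) l22581 = true ∧
    allY (E.wth (lkp [])) l22582 = true ∧
    allY (E.wth (lkp [])) l22583 = true ∧
    allY (E.wth (lkp [])) l22584 = true ∧
    allY (E.wth (lkp [])) l22585 = true ∧
    allY (E.wth (lkp [])) l22586 = true ∧
    allY (E.wth (lkp [])) l22587 = true :=
  ⟨by decide +kernel, by decide +kernel, by decide +kernel, by decide +kernel, by decide +kernel, by decide +kernel, by decide +kernel, by decide +kernel⟩

def t22588 : allY (E.wth (lkp [])) l22588 = true ∧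
    allY (E.wth (lkp [])) l22589 = true ∧
    allY (E.wth (lkp [])) l22590 = true ∧
    allY (E.wth (lkp [])) l22591 = true ∧
    allY (E.wth (lkp [])) l22592 = true ∧
    allY (E.wth (lkp [])) l22593 = true ∧
    allY (E.wth (lkp [])) l22594 = true ∧
    allY (E.wth (lkp [])) l22595 = true :=
  ⟨by decide +kernel, by decide +kernel, by decide +kernel, by decide +kernel, by decide +kernel, by decide +kernel, by decide +kernel, by decide +kernel⟩

def t22596 : allY (E.wth (lkp [])) l22596 = true ∧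
    allY (E.wth (lkp [])) l22597 = true ∧
    allY (E.wth (lkp [])) l22598 = true ∧
    allY (E.wth (lkp [])) l22599 = true ∧
    allY (E.wth (lkp [])) l22600 = true ∧
    allY (E.wth (lkp [])) l22601 = true ∧
    allY (E.wth (lkp [])) l22602 = true ∧
    allY (E.wth (lkp [])) l22603 = true :=
  ⟨by decide +kernel, by decide +kernel, by decide +kernel, by decide +kernel, by decide +kernel, by decide +kernel, by decide +kernel, by decide +kernel⟩

def t22604 : allY (E.wth (lkp [])) l22604 = true ∧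
    allY (E.wth (lkp [])) l22605 = true ∧
    allY (E.wth (lkp [])) l22606 = true ∧
    allY (E.wth (lkp [])) l22607 = true ∧
    allY (E.wth (lkp [])) l22608 = true ∧
    allY (E.wth (lkp [])) l22609 = true ∧
    allY (E.wth (lkp [])) l22610 = true ∧
    allY (E.wth (lkp [])) l22611 = true :=
  ⟨by decide +kernel, by decide +kernel, by decide +kernel, by decide +kernel, by decide +kernel, by decide +kernel, by decide +kernel, by decide +kernel⟩

def t22612 : allY (E.wth (lkp [])) l22612 = true ∧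
    allY (E.wth (lkp [])) l22613 = true ∧
    allY (E.wth (lkp [])) l22614 = true ∧
    allY (E.wth (lkp [])) l22615 = true ∧
    allY (E.wth (lkp [])) l22616 = true ∧
    allY (E.wth (lkp [])) l22617 = true ∧
    allY (E.wth (lkp [])) l22618 = true ∧
    allY (E.wth (lkp [])) l22619 = true :=
  ⟨by decide +kernel, by decide +kernel, by decide +kernel, by decide +kernel, by decide +kernel, by decide +kernel, by decide +kernel, by decide +kernel⟩

def t22620 : allY (E.wth (lkp [])) l22620 = true ∧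
    allY (E.wth (lkp [])) l22621 = true ∧
    allY (E.wth (lkp [])) l22622 = true ∧
    allY (E.wth (lkp [])) l22623 = true ∧
    allY (E.wth (lkp [])) l22624 = true ∧
    allY (E.wth (lkp [])) l22625 = true ∧
    allY (E.wth (lkp [])) l22626 = true ∧
    allY (E.wth (lkp [])) l22627 = true :=
  ⟨by decide +kernel, by decide +kernel, by decide +kernel, by decide +kernel, by decide +kernel, by decide +kernel, by decide +kernel, by decide +kernel⟩

def t22628 : allY (E.wth (lkp [])) l22628 = true ∧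
    allY (E.wth (lkp [])) l22629 = true ∧
    allY (E.wth (lkp [])) l22630 = true ∧
    allY (E.wth (lkp [])) l22631 = true ∧
    allY (E.wth (lkp [])) l22632 = true ∧
    allY (E.wth (lkp [])) l22633 = true ∧
    allY (E.wth (lkp [])) l22634 = true ∧
    allY (E.wth (lkp [])) l22635 = true :=
  ⟨by decide +kernel, by decide +kernel, by decide +kernel, by decide +kernel, by decide +kernel, by decide +kernel, by decide +kernel, by decide +kernel⟩

def t22636 : allY (E.wth (lkp [])) l22636 = true ∧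
    allY (E.wth (lkp [])) l22637 = true ∧
    allY (E.wth (lkp [])) l22638 = true ∧
    allY (E.wth (lkp [])) l22639 = true ∧
    allY (E.wth (lkp [])) l22640 = true ∧
    allY (E.wth (lkp [])) l22641 = true ∧
    allY (E.wth (lkp [])) l22642 = true ∧
    allY (E.wth (lkp [])) l22643 = true :=
  ⟨by decide +kernel, by decide +kernel, by decide +kernel, by decide +kernel, by decide +kernel, by decide +kernel, by decide +kernel, by decide +kernel⟩

def t22644 : allY (E.wth (lkp [])) l22644 = true ∧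
    allY (E.wth (lkp [])) l22645 = true ∧
    allY (E.wth (lkp [])) l22646 = true ∧
    allY (E.wth (lkp [])) l22647 = true ∧
    allY (E.wth (lkp [])) l22648 = true ∧
    allY (E.wth (lkp [])) l22649 = true ∧
    allY (E.wth (lkp [])) l22650 = true ∧
    allY (E.wth (lkp [])) l22651 = true :=
  ⟨by decide +kernel, by decide +kernel, by decide +kernel, by decide +kernel, by decide +kernel, by decide +kernel, by decide +kernel, by decide +kernel⟩

def t22652 : allY (E.wth (lkp [])) l22652 = true ∧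
    allY (E.wth (lkp [])) l22653 = true ∧
    allY (E.wth (lkp [])) l22654 = true ∧
    allY (E.wth (lkp [])) l22655 = true ∧
    allY (E.wth (lkp [])) l22656 = true ∧
    allY (E.wth (lkp [])) l22657 = true ∧
    allY (E.wth (lkp [])) l22658 = true ∧
    allY (E.wth (lkp [])) l22659 = true :=
  ⟨by decide +kernel, by decide +kernel, by decide +kernel, by decide +kernel, by decide +kernel, by decide +kernel, by decide +kernel, by decide +kernel⟩

def t22660 : allY (E.wth (lkp [])) l22660 = true ∧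
    allY (E.wth (lkp [])) l22661 = true ∧
    allY (E.wth (lkp [])) l22662 = true ∧
    allY (E.wth (lkp [])) l22663 = true ∧
    allY (E.wth (lkp [])) l22664 = true ∧
    allY (E.wth (lkp [])) l22665 = true ∧
    allY (E.wth (lkp [])) l22666 = true ∧
    allY (E.wth (lkp [])) l22667 = true :=
  ⟨by decide +kernel, by decide +kernel, by decide +kernel, by decide +kernel, by decide +kernel, by decide +kernel, by decide +kernel, by decide +kernel⟩

def t22668 : allY (E.wth (lkp [])) l22668 = true ∧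
    allY (E.wth (lkp [])) l22669 = true ∧
    allY (E.wth (lkp [])) l22670 = true ∧
    allY (E.wth (lkp [])) l22671 = true ∧
    allY (E.wth (lkp [])) l22672 = true ∧
    allY (E.wth (lkp [])) l22673 = true ∧
    allY (E.wth (lkp [])) l22674 = true ∧
    allY (E.wth (lkp [])) l22675 = true :=
  ⟨by decide +kernel, by decide +kernel, by decide +kernel, by decide +kernel, by decide +kernel, by decide +kernel, by decide +kernel, by decide +kernel⟩

def t22676 : allY (E.wth (lkp [])) l22676 = true ∧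
    allY (E.wth (lkp [])) l22677 = true ∧
    allY (E.wth (lkp [])) l22678 = true ∧
    allY (E.wth (lkp [])) l22679 = true ∧
    allY (E.wth (lkp [])) l22680 = true ∧
    allY (E.wth (lkp [])) l22681 = true ∧
    allY (E.wth (lkp [])) l22682 = true ∧
    allY (E.wth (lkp [])) l22683 = true :=
  ⟨by decide +kernel, by decide +kernel, by decide +kernel, by decide +kernel, by decide +kernel, by decide +kernel, by decide +kernel, by decide +kernel⟩

def t22684 : allY (E.wth (lkp [])) l22684 = true ∧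
    allY (E.wth (lkp [])) l22685 = true ∧
    allY (E.wth (lkp [])) l22686 = true ∧
    allY (E.wth (lkp [])) l22687 = true ∧
    allY (E.wth (lkp [])) l22688 = true ∧
    allY (E.wth (lkp [])) l22689 = true ∧
    allY (E.wth (lkp [])) l22690 = true ∧
    allY (E.wth (lkp [])) l22691 = true :=
  ⟨by decide +kernel, by decide +kernel, by decide +kernel, by decide +kernel, by decide +kernel, by decide +kernel, by decide +kernel, by decide +kernel⟩

def t22692 : allY (E.wth (lkp [])) l22692 = true ∧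
    allY (E.wth (lkp [])) l22693 = true ∧
    allY (E.wth (lkp [])) l22694 = true ∧
    allY (E.wth (lkp [])) l22695 = true ∧
    allY (E.wth (lkp [])) l22696 = true ∧
    allY (E.wth (lkp [])) l22697 = true ∧
    allY (E.wth (lkp [])) l22698 = true ∧
    allY (E.wth (lkp [])) l22699 = true :=
  ⟨by decide +kernel, by decide +kernel, by decide +kernel, by decide +kernel, by decide +kernel, by decide +kernel, by decide +kernel, by decide +kernel⟩

def t22700 : allY (E.wth (lkp [])) l22700 = true ∧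
    allY (E.wth (lkp [])) l22701 = true ∧
    allY (E.wth (lkp [])) l22702 = true ∧
    allY (E.wth (lkp [])) l22703 = true ∧
    allY (E.wth (lkp [])) l22704 = true ∧
    allY (E.wth (lkp [])) l22705 = true ∧
    allY (E.wth (lkp [])) l22706 = true ∧
    allY (E.wth (lkp [])) l22707 = true :=
  ⟨by decide +kernel, by decide +kernel, by decide +kernel, by decide +kernel, by decide +kernel, by decide +kernel, by decide +kernel, by decide +kernel⟩

def t22708 : allY (E.wth (lkp [])) l22708 = true ∧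
    allY (E.wth (lkp [])) l22709 = true ∧
    allY (E.wth (lkp [])) l22710 = true ∧
    allY (E.wth (lkp [])) l22711 = true ∧
    allY (E.wth (lkp [])) l22712 = true ∧
    allY (E.wth (lkp [])) l22713 = true ∧
    allY (E.wth (lkp [])) l22714 = true ∧
    allY (E.wth (lkp [])) l22715 = true :=
  ⟨by decide +kernel, by decide +kernel, by decide +kernel, by decide +kernel, by decide +kernel, by decide +kernel, by decide +kernel, by decide +kernel⟩

def t22716 : allY (E.wth (lkp [])) l22716 = true ∧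
    allY (E.wth (lkp [])) l22717 = true ∧
    allY (E.wth (lkp [])) l22718 = true ∧
    allY (E.wth (lkp [])) l22719 = true ∧
    allY (E.wth (lkp [])) l22720 = true ∧
    allY (E.wth (lkp [])) l22721 = true ∧
    allY (E.wth (lkp [])) l22722 = true ∧
    allY (E.wth (lkp [])) l22723 = true :=
  ⟨by decide +kernel, by decide +kernel, by decide +kernel, by decide +kernel, by decide +kernel, by decide +kernel, by decide +kernel, by decide +kernel⟩

def t22724 : allY (E.wth (lkp [])) l22724 = true ∧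
    allY (E.wth (lkp [])) l22725 = true ∧
    allY (E.wth (lkp [])) l22726 = true ∧
    allY (E.wth (lkp [])) l22727 = true ∧
    allY (E.wth (lkp [])) l22728 = true ∧
    allY (E.wth (lkp [])) l22729 = true ∧
    allY (E.wth (lkp [])) l22730 = true ∧
    allY (E.wth (lkp [])) l22731 = true :=
  ⟨by decide +kernel, by decide +kernel, by decide +kernel, by decide +kernel, by decide +kernel, by decide +kernel, by decide +kernel, by decide +kernel⟩

def t22732 : allY (E.wth (lkp [])) l22732 = true ∧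
    allY (E.wth (lkp [])) l22733 = true ∧
    allY (E.wth (lkp [])) l22734 = true ∧
    allY (E.wth (lkp [])) l22735 = true ∧
    allY (E.wth (lkp [])) l22736 = true ∧
    allY (E.wth (lkp [])) l22737 = true ∧
    allY (E.wth (lkp [])) l22738 = true ∧
    allY (E.wth (lkp [])) l22739 = true :=
  ⟨by decide +kernel, by decide +kernel, by decide +kernel, by decide +kernel, by decide +kernel, by decide +kernel, by decide +kernel, by decide +kernel⟩

def t22740 : allY (E.wth (lkp [])) l22740 = true ∧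
    allY (E.wth (lkp [])) l22741 = true ∧
    allY (E.wth (lkp [])) l22742 = true ∧
    allY (E.wth (lkp [])) l22743 = true ∧
    allY (E.wth (lkp [])) l22744 = true ∧
    allY (E.wth (lkp [])) l22745 = true ∧
    allY (E.wth (lkp [])) l22746 = true ∧
    allY (E.wth (lkp [])) l22747 = true :=
  ⟨by decide +kernel, by decide +kernel, by decide +kernel, by decide +kernel, by decide +kernel, by decide +kernel, by decide +kernel, by decide +kernel⟩

def t22748 : allY (E.wth (lkp [])) l22748 = true ∧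
    allY (E.wth (lkp [])) l22749 = true ∧
    allY (E.wth (lkp [])) l22750 = true ∧
    allY (E.wth (lkp [])) l22751 = true ∧
    allY (E.wth (lkp [])) l22752 = true ∧
    allY (E.wth (lkp [])) l22753 = true ∧
    allY (E.wth (lkp [])) l22754 = true ∧
    allY (E.wth (lkp [])) l22755 = true :=
  ⟨by decide +kernel, by decide +kernel, by decide +kernel, by decide +kernel, by decide +kernel, by decide +kernel, by decide +kernel, by decide +kernel⟩

def t22756 : allY (E.wth (lkp [])) l22756 = true ∧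
    allY (E.wth (lkp [])) l22757 = true ∧
    allY (E.wth (lkp [])) l22758 = true ∧
    allY (E.wth (lkp [])) l22759 = true ∧
    allY (E.wth (lkp [])) l22760 = true ∧
    allY (E.wth (lkp [])) l22761 = true ∧
    allY (E.wth (lkp [])) l22762 = true ∧
    allY (E.wth (lkp [])) l22763 = true :=
  ⟨by decide +kernel, by decide +kernel, by decide +kernel, by decide +kernel, by decide +kernel, by decide +kernel, by decide +kernel, by decide +kernel⟩

def t22764 : allY (E.wth (lkp [])) l22764 = true ∧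
    allY (E.wth (lkp [])) l22765 = true ∧
    allY (E.wth (lkp [])) l22766 = true ∧
    allY (E.wth (lkp [])) l22767 = true ∧
    allY (E.wth (lkp [])) l22768 = true ∧
    allY (E.wth (lkp [])) l22769 = true ∧
    allY (E.wth (lkp [])) l22770 = true ∧
    allY (E.wth (lkp [])) l22771 = true :=
  ⟨by decide +kernel, by decide +kernel, by decide +kernel, by decide +kernel, by decide +kernel, by decide +kernel, by decide +kernel, by decide +kernel⟩

def t22772 : allY (E.wth (lkp [])) l22772 = true ∧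
    allY (E.wth (lkp [])) l22773 = true ∧
    allY (E.wth (lkp [])) l22774 = true ∧
    allY (E.wth (lkp [])) l22775 = true ∧
    allY (E.wth (lkp [])) l22776 = true ∧
    allY (E.wth (lkp [])) l22777 = true ∧
    allY (E.wth (lkp [])) l22778 = true ∧
    allY (E.wth (lkp [])) l22779 = true :=
  ⟨by decide +kernel, by decide +kernel, by decide +kernel, by decide +kernel, by decide +kernel, by decide +kernel, by decide +kernel, by decide +kernel⟩

def t22780 : allY (E.wth (lkp [])) l22780 = true ∧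
    allY (E.wth (lkp [])) l22781 = true ∧
    allY (E.wth (lkp [])) l22782 = true ∧
    allY (E.wth (lkp [])) l22783 = true ∧
    allY (E.wth (lkp [])) l22784 = true ∧
    allY (E.wth (lkp [])) l22785 = true ∧
    allY (E.wth (lkp [])) l22786 = true ∧
    allY (E.wth (lkp [])) l22787 = true :=
  ⟨by decide +kernel, by decide +kernel, by decide +kernel, by decide +kernel, by decide +kernel, by decide +kernel, by decide +kernel, by decide +kernel⟩

def t22788 : allY (E.wth (lkp [])) l22788 = true ∧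
    allY (E.wth (lkp [])) l22789 = true ∧
    allY (E.wth (lkp [])) l22790 = true ∧
    allY (E.wth (lkp [])) l22791 = true ∧
    allY (E.wth (lkp [])) l22792 = true ∧
    allY (E.wth (lkp [])) l22793 = true ∧
    allY (E.wth (lkp [])) l22794 = true ∧
    allY (E.wth (lkp [])) l22795 = true :=
  ⟨by decide +kernel, by decide +kernel, by decide +kernel, by decide +kernel, by decide +kernel, by decide +kernel, by decide +kernel, by decide +kernel⟩

def t22796 : allY (E.wth (lkp [])) l22796 = true ∧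
    allY (E.wth (lkp [])) l22797 = true ∧
    allY (E.wth (lkp [])) l22798 = true ∧
    allY (E.wth (lkp [])) l22799 = true ∧
    allY (E.wth (lkp [])) l22800 = true ∧
    allY (E.wth (lkp [])) l22801 = true ∧
    allY (E.wth (lkp [])) l22802 = true ∧
    allY (E.wth (lkp [])) l22803 = true :=
  ⟨by decide +kernel, by decide +kernel, by decide +kernel, by decide +kernel, by decide +kernel, by decide +kernel, by decide +kernel, by decide +kernel⟩

def t22804 : allY (E.wth (lkp [])) l22804 = true ∧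
    allY (E.wth (lkp [])) l22805 = true ∧
    allY (E.wth (lkp [])) l22806 = true ∧
    allY (E.wth (lkp [])) l22807 = true ∧
    allY (E.wth (lkp [])) l22808 = true ∧
    allY (E.wth (lkp [])) l22809 = true ∧
    allY (E.wth (lkp [])) l22810 = true ∧
    allY (E.wth (lkp [])) l22811 = true :=
  ⟨by decide +kernel, by decide +kernel, by decide +kernel, by decide +kernel, by decide +kernel, by decide +kernel, by decide +kernel, by decide +kernel⟩

def t22812 : allY (E.wth (lkp [])) l22812 = true ∧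
    allY (E.wth (lkp [])) l22813 = true ∧
    allY (E.wth (lkp [])) l22814 = true ∧
    allY (E.wth (lkp [])) l22815 = true ∧
    allY (E.wth (lkp [])) l22816 = true ∧
    allY (E.wth (lkp [])) l22817 = true ∧
    allY (E.wth (lkp [])) l22818 = true ∧
    allY (E.wth (lkp [])) l22819 = true :=
  ⟨by decide +kernel, by decide +kernel, by decide +kernel, by decide +kernel, by decide +kernel, by decide +kernel, by decide +kernel, by decide +kernel⟩

def t22820 : allY (E.wth (lkp [])) l22820 = true ∧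
    allY (E.wth (lkp [])) l22821 = true ∧
    allY (E.wth (lkp [])) l22822 = true ∧
    allY (E.wth (lkp [])) l22823 = true ∧
    allY (E.wth (lkp [])) l22824 = true ∧
    allY (E.wth (lkp [])) l22825 = true ∧
    allY (E.wth (lkp [])) l22826 = true ∧
    allY (E.wth (lkp [])) l22827 = true :=
  ⟨by decide +kernel, by decide +kernel, by decide +kernel, by decide +kernel, by decide +kernel, by decide +kernel, by decide +kernel, by decide +kernel⟩

def t22828 : allY (E.wth (lkp [])) l22828 = true ∧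
    allY (E.wth (lkp [])) l22829 = true ∧
    allY (E.wth (lkp [])) l22830 = true ∧
    allY (E.wth (lkp [])) l22831 = true ∧
    allY (E.wth (lkp [])) l22832 = true ∧
    allY (E.wth (lkp [])) l22833 = true ∧
    allY (E.wth (lkp [])) l22834 = true ∧
    allY (E.wth (lkp [])) l22835 = true :=
  ⟨by decide +kernel, by decide +kernel, by decide +kernel, by decide +kernel, by decide +kernel, by decide +kernel, by decide +kernel, by decide +kernel⟩

def t22836 : allY (E.wth (lkp [])) l22836 = true ∧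
    allY (E.wth (lkp [])) l22837 = true ∧
    allY (E.wth (lkp [])) l22838 = true ∧
    allY (E.wth (lkp [])) l22839 = true ∧
    allY (E.wth (lkp [])) l22840 = true ∧
    allY (E.wth (lkp [])) l22841 = true ∧
    allY (E.wth (lkp [])) l22842 = true ∧
    allY (E.wth (lkp [])) l22843 = true :=
  ⟨by decide +kernel, by decide +kernel, by decide +kernel, by decide +kernel, by decide +kernel, by decide +kernel, by decide +kernel, by decide +kernel⟩

def t22844 : allY (E.wth (lkp [])) l22844 = true ∧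
    allY (E.wth (lkp [])) l22845 = true ∧
    allY (E.wth (lkp [])) l22846 = true ∧
    allY (E.wth (lkp [])) l22847 = true ∧
    allY (E.wth (lkp [])) l22848 = true ∧
    allY (E.wth (lkp [])) l22849 = true ∧
    allY (E.wth (lkp [])) l22850 = true ∧
    allY (E.wth (lkp [])) l22851 = true :=
  ⟨by decide +kernel, by decide +kernel, by decide +kernel, by decide +kernel, by decide +kernel, by decide +kernel, by decide +kernel, by decide +kernel⟩

def t22852 : allY (E.wth (lkp [])) l22852 = true ∧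
    allY (E.wth (lkp [])) l22853 = true ∧
    allY (E.wth (lkp [])) l22854 = true ∧
    allY (E.wth (lkp [])) l22855 = true ∧
    allY (E.wth (lkp [])) l22856 = true ∧
    allY (E.wth (lkp [])) l22857 = true ∧
    allY (E.wth (lkp [])) l22858 = true ∧
    allY (E.wth (lkp [])) l22859 = true :=
  ⟨by decide +kernel, by decide +kernel, by decide +kernel, by decide +kernel, by decide +kernel, by decide +kernel, by decide +kernel, by decide +kernel⟩

def t22860 : allY (E.wth (lkp [])) l22860 = true ∧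
    allY (E.wth (lkp [])) l22861 = true ∧
    allY (E.wth (lkp [])) l22862 = true ∧
    allY (E.wth (lkp [])) l22863 = true ∧
    allY (E.wth (lkp [])) l22864 = true ∧
    allY (E.wth (lkp [])) l22865 = true ∧
    allY (E.wth (lkp [])) l22866 = true ∧
    allY (E.wth (lkp [])) l22867 = true :=
  ⟨by decide +kernel, by decide +kernel, by decide +kernel, by decide +kernel, by decide +kernel, by decide +kernel, by decide +kernel, by decide +kernel⟩

def t22868 : allY (E.wth (lkp [])) l22868 = true ∧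
    allY (E.wth (lkp [])) l22869 = true ∧
    allY (E.wth (lkp [])) l22870 = true ∧
    allY (E.wth (lkp [])) l22871 = true ∧
    allY (E.wth (lkp [])) l22872 = true ∧
    allY (E.wth (lkp [])) l22873 = true ∧
    allY (E.wth (lkp [])) l22874 = true ∧
    allY (E.wth (lkp [])) l22875 = true :=
  ⟨by decide +kernel, by decide +kernel, by decide +kernel, by decide +kernel, by decide +kernel, by decide +kernel, by decide +kernel, by decide +kernel⟩

def t22876 : allY (E.wth (lkp [])) l22876 = true ∧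
    allY (E.wth (lkp [])) l22877 = true ∧
    allY (E.wth (lkp [])) l22878 = true ∧
    allY (E.wth (lkp [])) l22879 = true ∧
    allY (E.wth (lkp [])) l22880 = true ∧
    allY (E.wth (lkp [])) l22881 = true ∧
    allY (E.wth (lkp [])) l22882 = true ∧
    allY (E.wth (lkp [])) l22883 = true :=
  ⟨by decide +kernel, by decide +kernel, by decide +kernel, by decide +kernel, by decide +kernel, by decide +kernel, by decide +kernel, by decide +kernel⟩

def t22884 : allY (E.wth (lkp [])) l22884 = true ∧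
    allY (E.wth (lkp [])) l22885 = true ∧
    allY (E.wth (lkp [])) l22886 = true ∧
    allY (E.wth (lkp [])) l22887 = true ∧
    allY (E.wth (lkp [])) l22888 = true ∧
    allY (E.wth (lkp [])) l22889 = true ∧
    allY (E.wth (lkp [])) l22890 = true ∧
    allY (E.wth (lkp [])) l22891 = true :=
  ⟨by decide +kernel, by decide +kernel, by decide +kernel, by decide +kernel, by decide +kernel, by decide +kernel, by decide +kernel, by decide +kernel⟩

def t22892 : allY (E.wth (lkp [])) l22892 = true ∧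
    allY (E.wth (lkp [])) l22893 = true ∧
    allY (E.wth (lkp [])) l22894 = true ∧
    allY (E.wth (lkp [])) l22895 = true ∧
    allY (E.wth (lkp [])) l22896 = true ∧
    allY (E.wth (lkp [])) l22897 = true ∧
    allY (E.wth (lkp [])) l22898 = true ∧
    allY (E.wth (lkp [])) l22899 = true :=
  ⟨by decide +kernel, by decide +kernel, by decide +kernel, by decide +kernel, by decide +kernel, by decide +kernel, by decide +kernel, by decide +kernel⟩

def t22900 : allY (E.wth (lkp [])) l22900 = true ∧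
    allY (E.wth (lkp [])) l22901 = true ∧
    allY (E.wth (lkp [])) l22902 = true ∧
    allY (E.wth (lkp [])) l22903 = true ∧
    allY (E.wth (lkp [])) l22904 = true ∧
    allY (E.wth (lkp [])) l22905 = true ∧
    allY (E.wth (lkp [])) l22906 = true ∧
    allY (E.wth (lkp [])) l22907 = true :=
  ⟨by decide +kernel, by decide +kernel, by decide +kernel, by decide +kernel, by decide +kernel, by decide +kernel, by decide +kernel, by decide +kernel⟩

def t22908 : allY (E.wth (lkp [])) l22908 = true ∧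
    allY (E.wth (lkp [])) l22909 = true ∧
    allY (E.wth (lkp [])) l22910 = true ∧
    allY (E.wth (lkp [])) l22911 = true ∧
    allY (E.wth (lkp [])) l22912 = true ∧
    allY (E.wth (lkp [])) l22913 = true ∧
    allY (E.wth (lkp [])) l22914 = true ∧
    allY (E.wth (lkp [])) l22915 = true :=
  ⟨by decide +kernel, by decide +kernel, by decide +kernel, by decide +kernel, by decide +kernel, by decide +kernel, by decide +kernel, by decide +kernel⟩

def t22916 : allY (E.wth (lkp [])) l22916 = true ∧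
    allY (E.wth (lkp [])) l22917 = true ∧
    allY (E.wth (lkp [])) l22918 = true ∧
    allY (E.wth (lkp [])) l22919 = true ∧
    allY (E.wth (lkp [])) l22920 = true ∧
    allY (E.wth (lkp [])) l22921 = true ∧
    allY (E.wth (lkp [])) l22922 = true ∧
    allY (E.wth (lkp [])) l22923 = true :=
  ⟨by decide +kernel, by decide +kernel, by decide +kernel, by decide +kernel, by decide +kernel, by decide +kernel, by decide +kernel, by decide +kernel⟩

def t22924 : allY (E.wth (lkp [])) l22924 = true ∧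
    allY (E.wth (lkp [])) l22925 = true ∧
    allY (E.wth (lkp [])) l22926 = true ∧
    allY (E.wth (lkp [])) l22927 = true ∧
    allY (E.wth (lkp [])) l22928 = true ∧
    allY (E.wth (lkp [])) l22929 = true ∧
    allY (E.wth (lkp [])) l22930 = true ∧
    allY (E.wth (lkp [])) l22931 = true :=
  ⟨by decide +kernel, by decide +kernel, by decide +kernel, by decide +kernel, by decide +kernel, by decide +kernel, by decide +kernel, by decide +kernel⟩

def t22932 : allY (E.wth (lkp [])) l22932 = true ∧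
    allY (E.wth (lkp [])) l22933 = true ∧
    allY (E.wth (lkp [])) l22934 = true ∧
    allY (E.wth (lkp [])) l22935 = true ∧
    allY (E.wth (lkp [])) l22936 = true ∧
    allY (E.wth (lkp [])) l22937 = true ∧
    allY (E.wth (lkp [])) l22938 = true ∧
    allY (E.wth (lkp [])) l22939 = true :=
  ⟨by decide +kernel, by decide +kernel, by decide +kernel, by decide +kernel, by decide +kernel, by decide +kernel, by decide +kernel, by decide +kernel⟩

def t22940 : allY (E.wth (lkp [])) l22940 = true ∧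
    allY (E.wth (lkp [])) l22941 = true ∧
    allY (E.wth (lkp [])) l22942 = true ∧
    allY (E.wth (lkp [])) l22943 = true :=
  ⟨by decide +kernel, by decide +kernel, by decide +kernel, by decide +kernel⟩

theorem a40 {p : Rf → Prop} (H : ∀ l, allY (E.wth (lkp [])) l = true → (lkp l).All p) :
    b40.All p := ⟨⟨⟨⟨⟨⟨⟨⟨⟨H _ t22380.1, H _ t22380.2.1⟩, ⟨H _ t22380.2.2.1, H _ t22380.2.2.2.1⟩⟩, ⟨⟨H _ t22380.2.2.2.2.1, H _ t22380.2.2.2.2.2.1⟩, ⟨H _ t22380.2.2.2.2.2.2.1, H _ t22380.2.2.2.2.2.2.2⟩⟩⟩, ⟨⟨⟨H _ t22388.1, H _ t22388.2.1⟩, ⟨H _ t22388.2.2.1, H _ t22388.2.2.2.1⟩⟩, ⟨⟨H _ t22388.2.2.2.2.1, H _ t22388.2.2.2.2.2.1⟩, ⟨H _ t22388.2.2.2.2.2.2.1, ⟨H _ t22388.2.2.2.2.2.2.2, H _ t22396.1⟩⟩⟩⟩⟩, ⟨⟨⟨⟨H _ t22396.2.1, H _ t22396.2.2.1⟩, ⟨H _ t22396.2.2.2.1, H _ t22396.2.2.2.2.1⟩⟩, ⟨⟨H _ t22396.2.2.2.2.2.1, H _ t22396.2.2.2.2.2.2.1⟩, ⟨H _ t22396.2.2.2.2.2.2.2, ⟨H _ t22404.1, H _ t22404.2.1⟩⟩⟩⟩, ⟨⟨⟨H _ t22404.2.2.1,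 H _ t22404.2.2.2.1⟩, ⟨H _ t22404.2.2.2.2.1, H _ t22404.2.2.2.2.2.1⟩⟩, ⟨⟨H _ t22404.2.2.2.2.2.2.1, H _ t22404.2.2.2.2.2.2.2⟩, ⟨H _ t22412.1, ⟨H _ t22412.2.1, H _ t22412.2.2.1⟩⟩⟩⟩⟩⟩, ⟨⟨⟨⟨⟨H _ t22412.2.2.2.1, H _ t22412.2.2.2.2.1⟩, ⟨H _ t22412.2.2.2.2.2.1, H _ t22412.2.2.2.2.2.2.1⟩⟩, ⟨⟨H _ t22412.2.2.2.2.2.2.2, H _ t22420.1⟩, ⟨H _ t22420.2.1, H _ t22420.2.2.1⟩⟩⟩, ⟨⟨⟨H _ t22420.2.2.2.1, H _ t22420.2.2.2.2.1⟩, ⟨H _ t22420.2.2.2.2.2.1, H _ t22420.2.2.2.2.2.2.1⟩⟩, ⟨⟨H _ t22420.2.2.2.2.2.2.2, H _ t22428.1⟩, ⟨H _ t22428.2.1, ⟨H _ t22428.2.2.1, H _ t22428.2.2.2.1⟩⟩⟩⟩⟩, ⟨⟨⟨⟨H _ t22428.2.2.2.2.1, H _ t22428.2.2.2.2.2.1⟩, ⟨H _ t22428.2.2.2.2.2.2.1, H _ t22428.2.2.2.2.2.2.2⟩⟩, ⟨⟨H _ t22436.1, H _ t22436.2.1⟩, ⟨H _ t22436.2.2.1, ⟨H _ t22436.2.2.2.1, H _ t22436.2.2.2.2.1⟩⟩⟩⟩, ⟨⟨⟨H _ t22436.2.2.2.2.2.1, H _ t22436.2.2.2.2.2.2.1⟩, ⟨H _ t22436.2.2.2.2.2.2.2, H _ t22444.1⟩⟩, ⟨⟨H _ t22444.2.1, H _ t22444.2.2.1⟩,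 ⟨H _ t22444.2.2.2.1, ⟨H _ t22444.2.2.2.2.1, H _ t22444.2.2.2.2.2.1⟩⟩⟩⟩⟩⟩⟩, ⟨⟨⟨⟨⟨⟨H _ t22444.2.2.2.2.2.2.1, H _ t22444.2.2.2.2.2.2.2⟩, ⟨H _ t22452.1, H _ t22452.2.1⟩⟩, ⟨⟨H _ t22452.2.2.1, H _ t22452.2.2.2.1⟩, ⟨H _ t22452.2.2.2.2.1, H _ t22452.2.2.2.2.2.1⟩⟩⟩, ⟨⟨⟨H _ t22452.2.2.2.2.2.2.1, H _ t22452.2.2.2.2.2.2.2⟩, ⟨H _ t22460.1, H _ t22460.2.1⟩⟩, ⟨⟨H _ t22460.2.2.1, H _ t22460.2.2.2.1⟩, ⟨H _ t22460.2.2.2.2.1, ⟨H _ t22460.2.2.2.2.2.1, H _ t22460.2.2.2.2.2.2.1⟩⟩⟩⟩⟩, ⟨⟨⟨⟨H _ t22460.2.2.2.2.2.2.2, H _ t22468.1⟩, ⟨H _ t22468.2.1, H _ t22468.2.2.1⟩⟩, ⟨⟨H _ t22468.2.2.2.1, H _ t22468.2.2.2.2.1⟩, ⟨H _ t22468.2.2.2.2.2.1, ⟨H _ t22468.2.2.2.2.2.2.1, H _ t22468.2.2.2.2.2.2.2⟩⟩⟩⟩, ⟨⟨⟨H _ t22476.1, H _ t22476.2.1⟩, ⟨H _ t22476.2.2.1, H _ t22476.2.2.2.1⟩⟩, ⟨⟨H _ t22476.2.2.2.2.1, H _ t22476.2.2.2.2.2.1⟩, ⟨H _ t22476.2.2.2.2.2.2.1, ⟨H _ t22476.2.2.2.2.2.2.2, H _ t22484.1⟩⟩⟩⟩⟩⟩, ⟨⟨⟨⟨⟨H _ t22484.2.1, H _ t22484.2.2.1⟩,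 ⟨H _ t22484.2.2.2.1, H _ t22484.2.2.2.2.1⟩⟩, ⟨⟨H _ t22484.2.2.2.2.2.1, H _ t22484.2.2.2.2.2.2.1⟩, ⟨H _ t22484.2.2.2.2.2.2.2, ⟨H _ t22492.1, H _ t22492.2.1⟩⟩⟩⟩, ⟨⟨⟨H _ t22492.2.2.1, H _ t22492.2.2.2.1⟩, ⟨H _ t22492.2.2.2.2.1, H _ t22492.2.2.2.2.2.1⟩⟩, ⟨⟨H _ t22492.2.2.2.2.2.2.1, H _ t22492.2.2.2.2.2.2.2⟩, ⟨H _ t22500.1, ⟨H _ t22500.2.1, H _ t22500.2.2.1⟩⟩⟩⟩⟩, ⟨⟨⟨⟨H _ t22500.2.2.2.1, H _ t22500.2.2.2.2.1⟩, ⟨H _ t22500.2.2.2.2.2.1, H _ t22500.2.2.2.2.2.2.1⟩⟩, ⟨⟨H _ t22500.2.2.2.2.2.2.2, H _ t22508.1⟩, ⟨H _ t22508.2.1, ⟨H _ t22508.2.2.1, H _ t22508.2.2.2.1⟩⟩⟩⟩, ⟨⟨⟨H _ t22508.2.2.2.2.1, H _ t22508.2.2.2.2.2.1⟩, ⟨H _ t22508.2.2.2.2.2.2.1, H _ t22508.2.2.2.2.2.2.2⟩⟩, ⟨⟨H _ t22516.1, H _ t22516.2.1⟩, ⟨H _ t22516.2.2.1, ⟨H _ t22516.2.2.2.1, H _ t22516.2.2.2.2.1⟩⟩⟩⟩⟩⟩⟩⟩, ⟨⟨⟨⟨⟨⟨⟨H _ t22516.2.2.2.2.2.1, H _ t22516.2.2.2.2.2.2.1⟩, ⟨H _ t22516.2.2.2.2.2.2.2, H _ t22524.1⟩⟩, ⟨⟨H _ t22524.2.1, H _ t22524.2.2.1⟩,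 ⟨H _ t22524.2.2.2.1, H _ t22524.2.2.2.2.1⟩⟩⟩, ⟨⟨⟨H _ t22524.2.2.2.2.2.1, H _ t22524.2.2.2.2.2.2.1⟩, ⟨H _ t22524.2.2.2.2.2.2.2, H _ t22532.1⟩⟩, ⟨⟨H _ t22532.2.1, H _ t22532.2.2.1⟩, ⟨H _ t22532.2.2.2.1, ⟨H _ t22532.2.2.2.2.1, H _ t22532.2.2.2.2.2.1⟩⟩⟩⟩⟩, ⟨⟨⟨⟨H _ t22532.2.2.2.2.2.2.1, H _ t22532.2.2.2.2.2.2.2⟩, ⟨H _ t22540.1, H _ t22540.2.1⟩⟩, ⟨⟨H _ t22540.2.2.1, H _ t22540.2.2.2.1⟩, ⟨H _ t22540.2.2.2.2.1, ⟨H _ t22540.2.2.2.2.2.1, H _ t22540.2.2.2.2.2.2.1⟩⟩⟩⟩, ⟨⟨⟨H _ t22540.2.2.2.2.2.2.2, H _ t22548.1⟩, ⟨H _ t22548.2.1, H _ t22548.2.2.1⟩⟩, ⟨⟨H _ t22548.2.2.2.1, H _ t22548.2.2.2.2.1⟩, ⟨H _ t22548.2.2.2.2.2.1, ⟨H _ t22548.2.2.2.2.2.2.1, H _ t22548.2.2.2.2.2.2.2⟩⟩⟩⟩⟩⟩, ⟨⟨⟨⟨⟨H _ t22556.1, H _ t22556.2.1⟩, ⟨H _ t22556.2.2.1, H _ t22556.2.2.2.1⟩⟩, ⟨⟨H _ t22556.2.2.2.2.1, H _ t22556.2.2.2.2.2.1⟩, ⟨H _ t22556.2.2.2.2.2.2.1, H _ t22556.2.2.2.2.2.2.2⟩⟩⟩, ⟨⟨⟨H _ t22564.1, H _ t22564.2.1⟩, ⟨H _ t22564.2.2.1,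 H _ t22564.2.2.2.1⟩⟩, ⟨⟨H _ t22564.2.2.2.2.1, H _ t22564.2.2.2.2.2.1⟩, ⟨H _ t22564.2.2.2.2.2.2.1, ⟨H _ t22564.2.2.2.2.2.2.2, H _ t22572.1⟩⟩⟩⟩⟩, ⟨⟨⟨⟨H _ t22572.2.1, H _ t22572.2.2.1⟩, ⟨H _ t22572.2.2.2.1, H _ t22572.2.2.2.2.1⟩⟩, ⟨⟨H _ t22572.2.2.2.2.2.1, H _ t22572.2.2.2.2.2.2.1⟩, ⟨H _ t22572.2.2.2.2.2.2.2, ⟨H _ t22580.1, H _ t22580.2.1⟩⟩⟩⟩, ⟨⟨⟨H _ t22580.2.2.1, H _ t22580.2.2.2.1⟩, ⟨H _ t22580.2.2.2.2.1, H _ t22580.2.2.2.2.2.1⟩⟩, ⟨⟨H _ t22580.2.2.2.2.2.2.1, H _ t22580.2.2.2.2.2.2.2⟩, ⟨H _ t22588.1, ⟨H _ t22588.2.1, H _ t22588.2.2.1⟩⟩⟩⟩⟩⟩⟩, ⟨⟨⟨⟨⟨⟨H _ t22588.2.2.2.1, H _ t22588.2.2.2.2.1⟩, ⟨H _ t22588.2.2.2.2.2.1, H _ t22588.2.2.2.2.2.2.1⟩⟩, ⟨⟨H _ t22588.2.2.2.2.2.2.2, H _ t22596.1⟩, ⟨H _ t22596.2.1, H _ t22596.2.2.1⟩⟩⟩, ⟨⟨⟨H _ t22596.2.2.2.1, H _ t22596.2.2.2.2.1⟩, ⟨H _ t22596.2.2.2.2.2.1, H _ t22596.2.2.2.2.2.2.1⟩⟩, ⟨⟨H _ t22596.2.2.2.2.2.2.2, H _ t22604.1⟩, ⟨H _ t22604.2.1, ⟨H _ t22604.2.2.1,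 H _ t22604.2.2.2.1⟩⟩⟩⟩⟩, ⟨⟨⟨⟨H _ t22604.2.2.2.2.1, H _ t22604.2.2.2.2.2.1⟩, ⟨H _ t22604.2.2.2.2.2.2.1, H _ t22604.2.2.2.2.2.2.2⟩⟩, ⟨⟨H _ t22612.1, H _ t22612.2.1⟩, ⟨H _ t22612.2.2.1, ⟨H _ t22612.2.2.2.1, H _ t22612.2.2.2.2.1⟩⟩⟩⟩, ⟨⟨⟨H _ t22612.2.2.2.2.2.1, H _ t22612.2.2.2.2.2.2.1⟩, ⟨H _ t22612.2.2.2.2.2.2.2, H _ t22620.1⟩⟩, ⟨⟨H _ t22620.2.1, H _ t22620.2.2.1⟩, ⟨H _ t22620.2.2.2.1, ⟨H _ t22620.2.2.2.2.1, H _ t22620.2.2.2.2.2.1⟩⟩⟩⟩⟩⟩, ⟨⟨⟨⟨⟨H _ t22620.2.2.2.2.2.2.1, H _ t22620.2.2.2.2.2.2.2⟩, ⟨H _ t22628.1, H _ t22628.2.1⟩⟩, ⟨⟨H _ t22628.2.2.1, H _ t22628.2.2.2.1⟩, ⟨H _ t22628.2.2.2.2.1, ⟨H _ t22628.2.2.2.2.2.1, H _ t22628.2.2.2.2.2.2.1⟩⟩⟩⟩, ⟨⟨⟨H _ t22628.2.2.2.2.2.2.2, H _ t22636.1⟩, ⟨H _ t22636.2.1, H _ t22636.2.2.1⟩⟩, ⟨⟨H _ t22636.2.2.2.1, H _ t22636.2.2.2.2.1⟩, ⟨H _ t22636.2.2.2.2.2.1, ⟨H _ t22636.2.2.2.2.2.2.1, H _ t22636.2.2.2.2.2.2.2⟩⟩⟩⟩⟩, ⟨⟨⟨⟨H _ t22644.1, H _ t22644.2.1⟩, ⟨H _ t22644.2.2.1,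 H _ t22644.2.2.2.1⟩⟩, ⟨⟨H _ t22644.2.2.2.2.1, H _ t22644.2.2.2.2.2.1⟩, ⟨H _ t22644.2.2.2.2.2.2.1, ⟨H _ t22644.2.2.2.2.2.2.2, H _ t22652.1⟩⟩⟩⟩, ⟨⟨⟨H _ t22652.2.1, H _ t22652.2.2.1⟩, ⟨H _ t22652.2.2.2.1, H _ t22652.2.2.2.2.1⟩⟩, ⟨⟨H _ t22652.2.2.2.2.2.1, H _ t22652.2.2.2.2.2.2.1⟩, ⟨H _ t22652.2.2.2.2.2.2.2, ⟨H _ t22660.1, H _ t22660.2.1⟩⟩⟩⟩⟩⟩⟩⟩⟩, ⟨⟨⟨⟨⟨⟨⟨⟨H _ t22660.2.2.1, H _ t22660.2.2.2.1⟩, ⟨H _ t22660.2.2.2.2.1, H _ t22660.2.2.2.2.2.1⟩⟩, ⟨⟨H _ t22660.2.2.2.2.2.2.1, H _ t22660.2.2.2.2.2.2.2⟩, ⟨H _ t22668.1, H _ t22668.2.1⟩⟩⟩, ⟨⟨⟨H _ t22668.2.2.1, H _ t22668.2.2.2.1⟩, ⟨H _ t22668.2.2.2.2.1, H _ t22668.2.2.2.2.2.1⟩⟩, ⟨⟨H _ t22668.2.2.2.2.2.2.1, H _ t22668.2.2.2.2.2.2.2⟩, ⟨H _ t22676.1, ⟨H _ t22676.2.1, H _ t22676.2.2.1⟩⟩⟩⟩⟩, ⟨⟨⟨⟨H _ t22676.2.2.2.1, H _ t22676.2.2.2.2.1⟩, ⟨H _ t22676.2.2.2.2.2.1, H _ t22676.2.2.2.2.2.2.1⟩⟩, ⟨⟨H _ t22676.2.2.2.2.2.2.2, H _ t22684.1⟩, ⟨H _ t22684.2.1, ⟨H _ t22684.2.2.1,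 H _ t22684.2.2.2.1⟩⟩⟩⟩, ⟨⟨⟨H _ t22684.2.2.2.2.1, H _ t22684.2.2.2.2.2.1⟩, ⟨H _ t22684.2.2.2.2.2.2.1, H _ t22684.2.2.2.2.2.2.2⟩⟩, ⟨⟨H _ t22692.1, H _ t22692.2.1⟩, ⟨H _ t22692.2.2.1, ⟨H _ t22692.2.2.2.1, H _ t22692.2.2.2.2.1⟩⟩⟩⟩⟩⟩, ⟨⟨⟨⟨⟨H _ t22692.2.2.2.2.2.1, H _ t22692.2.2.2.2.2.2.1⟩, ⟨H _ t22692.2.2.2.2.2.2.2, H _ t22700.1⟩⟩, ⟨⟨H _ t22700.2.1, H _ t22700.2.2.1⟩, ⟨H _ t22700.2.2.2.1, H _ t22700.2.2.2.2.1⟩⟩⟩, ⟨⟨⟨H _ t22700.2.2.2.2.2.1, H _ t22700.2.2.2.2.2.2.1⟩, ⟨H _ t22700.2.2.2.2.2.2.2, H _ t22708.1⟩⟩, ⟨⟨H _ t22708.2.1, H _ t22708.2.2.1⟩, ⟨H _ t22708.2.2.2.1, ⟨H _ t22708.2.2.2.2.1, H _ t22708.2.2.2.2.2.1⟩⟩⟩⟩⟩, ⟨⟨⟨⟨H _ t22708.2.2.2.2.2.2.1, H _ t22708.2.2.2.2.2.2.2⟩, ⟨H _ t22716.1, H _ t22716.2.1⟩⟩, ⟨⟨H _ t22716.2.2.1, H _ t22716.2.2.2.1⟩, ⟨H _ t22716.2.2.2.2.1, ⟨H _ t22716.2.2.2.2.2.1, H _ t22716.2.2.2.2.2.2.1⟩⟩⟩⟩, ⟨⟨⟨H _ t22716.2.2.2.2.2.2.2, H _ t22724.1⟩, ⟨H _ t22724.2.1, H _ t22724.2.2.1⟩⟩,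 ⟨⟨H _ t22724.2.2.2.1, H _ t22724.2.2.2.2.1⟩, ⟨H _ t22724.2.2.2.2.2.1, ⟨H _ t22724.2.2.2.2.2.2.1, H _ t22724.2.2.2.2.2.2.2⟩⟩⟩⟩⟩⟩⟩, ⟨⟨⟨⟨⟨⟨H _ t22732.1, H _ t22732.2.1⟩, ⟨H _ t22732.2.2.1, H _ t22732.2.2.2.1⟩⟩, ⟨⟨H _ t22732.2.2.2.2.1, H _ t22732.2.2.2.2.2.1⟩, ⟨H _ t22732.2.2.2.2.2.2.1, H _ t22732.2.2.2.2.2.2.2⟩⟩⟩, ⟨⟨⟨H _ t22740.1, H _ t22740.2.1⟩, ⟨H _ t22740.2.2.1, H _ t22740.2.2.2.1⟩⟩, ⟨⟨H _ t22740.2.2.2.2.1, H _ t22740.2.2.2.2.2.1⟩, ⟨H _ t22740.2.2.2.2.2.2.1, ⟨H _ t22740.2.2.2.2.2.2.2, H _ t22748.1⟩⟩⟩⟩⟩, ⟨⟨⟨⟨H _ t22748.2.1, H _ t22748.2.2.1⟩, ⟨H _ t22748.2.2.2.1, H _ t22748.2.2.2.2.1⟩⟩, ⟨⟨H _ t22748.2.2.2.2.2.1, H _ t22748.2.2.2.2.2.2.1⟩, ⟨H _ t22748.2.2.2.2.2.2.2, ⟨H _ t22756.1, H _ t22756.2.1⟩⟩⟩⟩, ⟨⟨⟨H _ t22756.2.2.1, H _ t22756.2.2.2.1⟩, ⟨H _ t22756.2.2.2.2.1, H _ t22756.2.2.2.2.2.1⟩⟩, ⟨⟨H _ t22756.2.2.2.2.2.2.1, H _ t22756.2.2.2.2.2.2.2⟩, ⟨H _ t22764.1, ⟨H _ t22764.2.1, H _ t22764.2.2.1⟩⟩⟩⟩⟩⟩,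 ⟨⟨⟨⟨⟨H _ t22764.2.2.2.1, H _ t22764.2.2.2.2.1⟩, ⟨H _ t22764.2.2.2.2.2.1, H _ t22764.2.2.2.2.2.2.1⟩⟩, ⟨⟨H _ t22764.2.2.2.2.2.2.2, H _ t22772.1⟩, ⟨H _ t22772.2.1, ⟨H _ t22772.2.2.1, H _ t22772.2.2.2.1⟩⟩⟩⟩, ⟨⟨⟨H _ t22772.2.2.2.2.1, H _ t22772.2.2.2.2.2.1⟩, ⟨H _ t22772.2.2.2.2.2.2.1, H _ t22772.2.2.2.2.2.2.2⟩⟩, ⟨⟨H _ t22780.1, H _ t22780.2.1⟩, ⟨H _ t22780.2.2.1, ⟨H _ t22780.2.2.2.1, H _ t22780.2.2.2.2.1⟩⟩⟩⟩⟩, ⟨⟨⟨⟨H _ t22780.2.2.2.2.2.1, H _ t22780.2.2.2.2.2.2.1⟩, ⟨H _ t22780.2.2.2.2.2.2.2, H _ t22788.1⟩⟩, ⟨⟨H _ t22788.2.1, H _ t22788.2.2.1⟩, ⟨H _ t22788.2.2.2.1, ⟨H _ t22788.2.2.2.2.1, H _ t22788.2.2.2.2.2.1⟩⟩⟩⟩, ⟨⟨⟨H _ t22788.2.2.2.2.2.2.1, H _ t22788.2.2.2.2.2.2.2⟩, ⟨H _ t22796.1, H _ t22796.2.1⟩⟩, ⟨⟨H _ t22796.2.2.1, H _ t22796.2.2.2.1⟩, ⟨H _ t22796.2.2.2.2.1, ⟨H _ t22796.2.2.2.2.2.1, H _ t22796.2.2.2.2.2.2.1⟩⟩⟩⟩⟩⟩⟩⟩, ⟨⟨⟨⟨⟨⟨⟨H _ t22796.2.2.2.2.2.2.2, H _ t22804.1⟩, ⟨H _ t22804.2.1, H _ t22804.2.2.1⟩⟩,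 ⟨⟨H _ t22804.2.2.2.1, H _ t22804.2.2.2.2.1⟩, ⟨H _ t22804.2.2.2.2.2.1, H _ t22804.2.2.2.2.2.2.1⟩⟩⟩, ⟨⟨⟨H _ t22804.2.2.2.2.2.2.2, H _ t22812.1⟩, ⟨H _ t22812.2.1, H _ t22812.2.2.1⟩⟩, ⟨⟨H _ t22812.2.2.2.1, H _ t22812.2.2.2.2.1⟩, ⟨H _ t22812.2.2.2.2.2.1, ⟨H _ t22812.2.2.2.2.2.2.1, H _ t22812.2.2.2.2.2.2.2⟩⟩⟩⟩⟩, ⟨⟨⟨⟨H _ t22820.1, H _ t22820.2.1⟩, ⟨H _ t22820.2.2.1, H _ t22820.2.2.2.1⟩⟩, ⟨⟨H _ t22820.2.2.2.2.1, H _ t22820.2.2.2.2.2.1⟩, ⟨H _ t22820.2.2.2.2.2.2.1, ⟨H _ t22820.2.2.2.2.2.2.2, H _ t22828.1⟩⟩⟩⟩, ⟨⟨⟨H _ t22828.2.1, H _ t22828.2.2.1⟩, ⟨H _ t22828.2.2.2.1, H _ t22828.2.2.2.2.1⟩⟩, ⟨⟨H _ t22828.2.2.2.2.2.1, H _ t22828.2.2.2.2.2.2.1⟩, ⟨H _ t22828.2.2.2.2.2.2.2, ⟨H _ t22836.1, H _ t22836.2.1⟩⟩⟩⟩⟩⟩, ⟨⟨⟨⟨⟨H _ t22836.2.2.1, H _ t22836.2.2.2.1⟩, ⟨H _ t22836.2.2.2.2.1, H _ t22836.2.2.2.2.2.1⟩⟩, ⟨⟨H _ t22836.2.2.2.2.2.2.1, H _ t22836.2.2.2.2.2.2.2⟩, ⟨H _ t22844.1, H _ t22844.2.1⟩⟩⟩, ⟨⟨⟨H _ t22844.2.2.1,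 H _ t22844.2.2.2.1⟩, ⟨H _ t22844.2.2.2.2.1, H _ t22844.2.2.2.2.2.1⟩⟩, ⟨⟨H _ t22844.2.2.2.2.2.2.1, H _ t22844.2.2.2.2.2.2.2⟩, ⟨H _ t22852.1, ⟨H _ t22852.2.1, H _ t22852.2.2.1⟩⟩⟩⟩⟩, ⟨⟨⟨⟨H _ t22852.2.2.2.1, H _ t22852.2.2.2.2.1⟩, ⟨H _ t22852.2.2.2.2.2.1, H _ t22852.2.2.2.2.2.2.1⟩⟩, ⟨⟨H _ t22852.2.2.2.2.2.2.2, H _ t22860.1⟩, ⟨H _ t22860.2.1, ⟨H _ t22860.2.2.1, H _ t22860.2.2.2.1⟩⟩⟩⟩, ⟨⟨⟨H _ t22860.2.2.2.2.1, H _ t22860.2.2.2.2.2.1⟩, ⟨H _ t22860.2.2.2.2.2.2.1, H _ t22860.2.2.2.2.2.2.2⟩⟩, ⟨⟨H _ t22868.1, H _ t22868.2.1⟩, ⟨H _ t22868.2.2.1, ⟨H _ t22868.2.2.2.1, H _ t22868.2.2.2.2.1⟩⟩⟩⟩⟩⟩⟩, ⟨⟨⟨⟨⟨⟨H _ t22868.2.2.2.2.2.1, H _ t22868.2.2.2.2.2.2.1⟩, ⟨H _ t22868.2.2.2.2.2.2.2, H _ t22876.1⟩⟩, ⟨⟨H _ t22876.2.1, H _ t22876.2.2.1⟩, ⟨H _ t22876.2.2.2.1, H _ t22876.2.2.2.2.1⟩⟩⟩, ⟨⟨⟨H _ t22876.2.2.2.2.2.1, H _ t22876.2.2.2.2.2.2.1⟩, ⟨H _ t22876.2.2.2.2.2.2.2, H _ t22884.1⟩⟩, ⟨⟨H _ t22884.2.1, H _ t22884.2.2.1⟩,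 ⟨H _ t22884.2.2.2.1, ⟨H _ t22884.2.2.2.2.1, H _ t22884.2.2.2.2.2.1⟩⟩⟩⟩⟩, ⟨⟨⟨⟨H _ t22884.2.2.2.2.2.2.1, H _ t22884.2.2.2.2.2.2.2⟩, ⟨H _ t22892.1, H _ t22892.2.1⟩⟩, ⟨⟨H _ t22892.2.2.1, H _ t22892.2.2.2.1⟩, ⟨H _ t22892.2.2.2.2.1, ⟨H _ t22892.2.2.2.2.2.1, H _ t22892.2.2.2.2.2.2.1⟩⟩⟩⟩, ⟨⟨⟨H _ t22892.2.2.2.2.2.2.2, H _ t22900.1⟩, ⟨H _ t22900.2.1, H _ t22900.2.2.1⟩⟩, ⟨⟨H _ t22900.2.2.2.1, H _ t22900.2.2.2.2.1⟩, ⟨H _ t22900.2.2.2.2.2.1, ⟨H _ t22900.2.2.2.2.2.2.1, H _ t22900.2.2.2.2.2.2.2⟩⟩⟩⟩⟩⟩, ⟨⟨⟨⟨⟨H _ t22908.1, H _ t22908.2.1⟩, ⟨H _ t22908.2.2.1, H _ t22908.2.2.2.1⟩⟩, ⟨⟨H _ t22908.2.2.2.2.1, H _ t22908.2.2.2.2.2.1⟩, ⟨H _ t22908.2.2.2.2.2.2.1, ⟨H _ t22908.2.2.2.2.2.2.2, H _ t22916.1⟩⟩⟩⟩, ⟨⟨⟨H _ t22916.2.1, H _ t22916.2.2.1⟩, ⟨H _ t22916.2.2.2.1, H _ t22916.2.2.2.2.1⟩⟩, ⟨⟨H _ t22916.2.2.2.2.2.1, H _ t22916.2.2.2.2.2.2.1⟩, ⟨H _ t22916.2.2.2.2.2.2.2, ⟨H _ t22924.1, H _ t22924.2.1⟩⟩⟩⟩⟩, ⟨⟨⟨⟨H _ t22924.2.2.1,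 H _ t22924.2.2.2.1⟩, ⟨H _ t22924.2.2.2.2.1, H _ t22924.2.2.2.2.2.1⟩⟩, ⟨⟨H _ t22924.2.2.2.2.2.2.1, H _ t22924.2.2.2.2.2.2.2⟩, ⟨H _ t22932.1, ⟨H _ t22932.2.1, H _ t22932.2.2.1⟩⟩⟩⟩, ⟨⟨⟨H _ t22932.2.2.2.1, H _ t22932.2.2.2.2.1⟩, ⟨H _ t22932.2.2.2.2.2.1, H _ t22932.2.2.2.2.2.2.1⟩⟩, ⟨⟨H _ t22932.2.2.2.2.2.2.2, H _ t22940.1⟩, ⟨H _ t22940.2.1, ⟨H _ t22940.2.2.1, H _ t22940.2.2.2⟩⟩⟩⟩⟩⟩⟩⟩⟩⟩

end Pool.Agent.MP_c853c5_nt.X.C4950
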