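import Pool.Agent.MP_c853c5_nt.X.C4950.Env
import Pool.Agent.MP_c853c5_nt.X.C4950.D8

set_option autoImplicit false
set_option maxRecDepth 8192
set_option linter.all false

namespace Pool.Agent.MP_c853c5_nt.X.C4950

open Pool.Agent.MP_c853c5_nt.X

def t22944 : allY (E.wth (lkp [])) l22944 = true ∧
    allY (E.wth (lkp [])) l22945 = true ∧
    allY (E.wth (lkp [])) l22946 = true ∧
    allY (E.wth (lkp [])) l22947 = true ∧
    allY (E.wth (lkp [])) l22948 = true ∧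
    allY (E.wth (lkp [])) l22949 = true ∧
    allY (E.wth (lkp [])) l22950 = true ∧
    allY (E.wth (lkp [])) l22951 = true :=
  ⟨by decide +kernel, by decide +kernel, by decide +kernel, by decide +kernel, by decide +kernel, by decide +kernel, by decide +kernel, by decide +kernel⟩

def t22952 : allY (E.wth (lkp [])) l22952 = true ∧
    allY (E.wth (lkp [])) l22953 = true ∧
    allY (E.wth (lkp [])) l22954 = true ∧
    allY (E.wth (lkp [])) l22955 = true ∧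
    allY (E.wth (lkp [])) l22956 = true ∧
    allY (E.wth (lkp [])) l22957 = true ∧
    allY (E.wth (lkp [])) l22958 = true ∧
    allY (E.wth (lkp [])) l22959 = true :=
  ⟨by decide +kernel, by decide +kernel, by decide +kernel, by decide +kernel, by decide +kernel, by decide +kernel, by decide +kernel, by decide +kernel⟩

def t22960 : allY (E.wth (lkp [])) l22960 = true ∧
    allY (E.wth (lkp [])) l22961 = true ∧
    allY (E.wth (lkp [])) l22962 = true ∧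
    allY (E.wth (lkp [])) l22963 = true ∧
    allY (E.wth (lkp [])) l22964 = true ∧
    allY (E.wth (lkp [])) l22965 = true ∧
    allY (E.wth (lkp [])) l22966 = true ∧
    allY (E.wth (lkp [])) l22967 = true :=
  ⟨by decide +kernel, by decide +kernel, by decide +kernel, by decide +kernel, by decide +kernel, by decide +kernel, by decide +kernel, by decide +kernel⟩

def t22968 : allY (E.wth (lkp [])) l22968 = true ∧
    allY (E.wth (lkp [])) l22969 = true ∧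
    allY (E.wth (lkp [])) l22970 = true ∧
    allY (E.wth (lkp [])) l22971 = true ∧
    allY (E.wth (lkp [])) l22972 = true ∧
    allY (E.wth (lkp [])) l22973 = true ∧
    allY (E.wth (lkp [])) l22974 = true ∧
    allY (E.wth (lkp [])) l22975 = true :=
  ⟨by decide +kernel, by decide +kernel, by decide +kernel, by decide +kernel, by decide +kernel, by decide +kernel, by decide +kernel, by decide +kernel⟩

def t22976 : allY (E.wth (lkp [])) l22976 = true ∧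
    allY (E.wth (lkp [])) l22977 = true ∧
    allY (E.wth (lkp [])) l22978 = true ∧
    allY (E.wth (lkp [])) l22979 = true ∧
    allY (E.wth (lkp [])) l22980 = true ∧
    allY (E.wth (lkp [])) l22981 = true ∧
    allY (E.wth (lkp [])) l22982 = true ∧
    allY (E.wth (lkp [])) l22983 = true :=
  ⟨by decide +kernel, by decide +kernel, by decide +kernel, by decide +kernel, by decide +kernel, by decide +kernel, by decide +kernel, by decide +kernel⟩

def t22984 : allY (E.wth (lkp [])) l22984 = true ∧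
    allY (E.wth (lkp [])) l22985 = true ∧
    allY (E.wth (lkp [])) l22986 = true ∧
    allY (E.wth (lkp [])) l22987 = true ∧
    allY (E.wth (lkp [])) l22988 = true ∧
    allY (E.wth (lkp [])) l22989 = true ∧
    allY (E.wth (lkp [])) l22990 = true ∧
    allY (E.wth (lkp [])) l22991 = true :=
  ⟨by decide +kernel, by decide +kernel, by decide +kernel, by decide +kernel, by decide +kernel, by decide +kernel, by decide +kernel, by decide +kernel⟩

def t22992 : allY (E.wth (lkp [])) l22992 = true ∧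
    allY (E.wth (lkp [])) l22993 = true ∧
    allY (E.wth (lkp [])) l22994 = true ∧
    allY (E.wth (lkp [])) l22995 = true ∧
    allY (E.wth (lkp [])) l22996 = true ∧
    allY (E.wth (lkp [])) l22997 = true ∧
    allY (E.wth (lkp [])) l22998 = true ∧
    allY (E.wth (lkp [])) l22999 = true :=
  ⟨by decide +kernel, by decide +kernel, by decide +kernel, by decide +kernel, by decide +kernel, by decide +kernel, by decide +kernel, by decide +kernel⟩

def t23000 : allY (E.wth (lkp [])) l23000 = true ∧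
    allY (E.wth (lkp [])) l23001 = true ∧
    allY (E.wth (lkp [])) l23002 = true ∧
    allY (E.wth (lkp [])) l23003 = true ∧
    allY (E.wth (lkp [])) l23004 = true ∧
    allY (E.wth (lkp [])) l23005 = true ∧
    allY (E.wth (lkp [])) l23006 = true ∧
    allY (E.wth (lkp [])) l23007 = true :=
  ⟨by decide +kernel, by decide +kernel, by decide +kernel, by decide +kernel, by decide +kernel, by decide +kernel, by decide +kernel, by decide +kernel⟩

def t23008 : allY (E.wth (lkp [])) l23008 = true ∧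
    allY (E.wth (lkp [])) l23009 = true ∧
    allY (E.wth (lkp [])) l23010 = true ∧
    allY (E.wth (lkp [])) l23011 = true ∧
    allY (E.wth (lkp [])) l23012 = true ∧
    allY (E.wth (lkp [])) l23013 = true ∧
    allY (E.wth (lkp [])) l23014 = true ∧
    allY (E.wth (lkp [])) l23015 = true :=
  ⟨by decide +kernel, by decide +kernel, by decide +kernel, by decide +kernel, by decide +kernel, by decide +kernel, by decide +kernel, by decide +kernel⟩

def t23016 : allY (E.wth (lkp [])) l23016 = true ∧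
    allY (E.wth (lkp [])) l23017 = true ∧
    allY (E.wth (lkp [])) l23018 = true ∧
    allY (E.wth (lkp [])) l23019 = true ∧
    allY (E.wth (lkp [])) l23020 = true ∧
    allY (E.wth (lkp [])) l23021 = true ∧
    allY (E.wth (lkp [])) l23022 = true ∧
    allY (E.wth (lkp [])) l23023 = true :=
  ⟨by decide +kernel, by decide +kernel, by decide +kernel, by decide +kernel, by decide +kernel, by decide +kernel, by decide +kernel, by decide +kernel⟩

def t23024 : allY (E.wth (lkp [])) l23024 = true ∧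
    allY (E.wth (lkp [])) l23025 = true ∧
    allY (E.wth (lkp [])) l23026 = true ∧
    allY (E.wth (lkp [])) l23027 = true ∧
    allY (E.wth (lkp [])) l23028 = true ∧
    allY (E.wth (lkp [])) l23029 = true ∧
    allY (E.wth (lkp [])) l23030 = true ∧
    allY (E.wth (lkp [])) l23031 = true :=
  ⟨by decide +kernel, by decide +kernel, by decide +kernel, by decide +kernel, by decide +kernel, by decide +kernel, by decide +kernel, by decide +kernel⟩

def t23032 : allY (E.wth (lkp [])) l23032 = true ∧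
    allY (E.wth (lkp [])) l23033 = true ∧
    allY (E.wth (lkp [])) l23034 = true ∧
    allY (E.wth (lkp [])) l23035 = true ∧
    allY (E.wth (lkp [])) l23036 = true ∧
    allY (E.wth (lkp [])) l23037 = true ∧
    allY (E.wth (lkp [])) l23038 = true ∧
    allY (E.wth (lkp [])) l23039 = true :=
  ⟨by decide +kernel, by decide +kernel, by decide +kernel, by decide +kernel, by decide +kernel, by decide +kernel, by decide +kernel, by decide +kernel⟩

def t23040 : allY (E.wth (lkp [])) l23040 = true ∧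
    allY (E.wth (lkp [])) l23041 = true ∧
    allY (E.wth (lkp [])) l23042 = true ∧
    allY (E.wth (lkp [])) l23043 = true ∧
    allY (E.wth (lkp [])) l23044 = true ∧
    allY (E.wth (lkp [])) l23045 = true ∧
    allY (E.wth (lkp [])) l23046 = true ∧
    allY (E.wth (lkp [])) l23047 = true :=
  ⟨by decide +kernel, by decide +kernel, by decide +kernel, by decide +kernel, by decide +kernel, by decide +kernel, by decide +kernel, by decide +kernel⟩

def t23048 : allY (E.wth (lkp [])) l23048 = true ∧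
    allY (E.wth (lkp [])) l23049 = true ∧
    allY (E.wth (lkp [])) l23050 = true ∧
    allY (E.wth (lkp [])) l23051 = true ∧
    allY (E.wth (lkp [])) l23052 = true ∧
    allY (E.wth (lkp [])) l23053 = true ∧
    allY (E.wth (lkp [])) l23054 = true ∧
    allY (E.wth (lkp [])) l23055 = true :=
  ⟨by decide +kernel, by decide +kernel, by decide +kernel, by decide +kernel, by decide +kernel, by decide +kernel, by decide +kernel, by decide +kernel⟩

def t23056 : allY (E.wth (lkp [])) l23056 = true ∧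
    allY (E.wth (lkp [])) l23057 = true ∧
    allY (E.wth (lkp [])) l23058 = true ∧
    allY (E.wth (lkp [])) l23059 = true ∧
    allY (E.wth (lkp [])) l23060 = true ∧
    allY (E.wth (lkp [])) l23061 = true ∧
    allY (E.wth (lkp [])) l23062 = true ∧
    allY (E.wth (lkp [])) l23063 = true :=
  ⟨by decide +kernel, by decide +kernel, by decide +kernel, by decide +kernel, by decide +kernel, by decide +kernel, by decide +kernel, by decide +kernel⟩

def t23064 : allY (E.wth (lkp [])) l23064 = true ∧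
    allY (E.wth (lkp [])) l23065 = true ∧
    allY (E.wth (lkp [])) l23066 = true ∧
    allY (E.wth (lkp [])) l23067 = true ∧
    allY (E.wth (lkp [])) l23068 = true ∧
    allY (E.wth (lkp [])) l23069 = true ∧
    allY (E.wth (lkp [])) l23070 = true ∧
    allY (E.wth (lkp [])) l23071 = true :=
  ⟨by decide +kernel, by decide +kernel, by decide +kernel, by decide +kernel, by decide +kernel, by decide +kernel, by decide +kernel, by decide +kernel⟩

def t23072 : allY (E.wth (lkp [])) l23072 = true ∧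
    allY (E.wth (lkp [])) l23073 = true ∧
    allY (E.wth (lkp [])) l23074 = true ∧
    allY (E.wth (lkp [])) l23075 = true ∧
    allY (E.wth (lkp [])) l23076 = true ∧
    allY (E.wth (lkp [])) l23077 = true ∧
    allY (E.wth (lkp [])) l23078 = true ∧
    allY (E.wth (lkp [])) l23079 = true :=
  ⟨by decide +kernel, by decide +kernel, by decide +kernel, by decide +kernel, by decide +kernel, by decide +kernel, by decide +kernel, by decide +kernel⟩

def t23080 : allY (E.wth (lkp [])) l23080 = true ∧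
    allY (E.wth (lkp [])) l23081 = true ∧
    allY (E.wth (lkp [])) l23082 = true ∧
    allY (E.wth (lkp [])) l23083 = true ∧
    allY (E.wth (lkp [])) l23084 = true ∧
    allY (E.wth (lkp [])) l23085 = true ∧
    allY (E.wth (lkp [])) l23086 = true ∧
    allY (E.wth (lkp [])) l23087 = true :=
  ⟨by decide +kernel, by decide +kernel, by decide +kernel, by decide +kernel, by decide +kernel, by decide +kernel, by decide +kernel, by decide +kernel⟩

def t23088 : allY (E.wth (lkp [])) l23088 = true ∧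
    allY (E.wth (lkp [])) l23089 = true ∧
    allY (E.wth (lkp [])) l23090 = true ∧
    allY (E.wth (lkp [])) l23091 = true ∧
    allY (E.wth (lkp [])) l23092 = true ∧
    allY (E.wth (lkp [])) l23093 = true ∧
    allY (E.wth (lkp [])) l23094 = true ∧
    allY (E.wth (lkp [])) l23095 = true :=
  ⟨by decide +kernel, by decide +kernel, by decide +kernel, by decide +kernel, by decide +kernel, by decide +kernel, by decide +kernel, by decide +kernel⟩

def t23096 : allY (E.wth (lkp [])) l23096 = true ∧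
    allY (E.wth (lkp [])) l23097 = true ∧
    allY (E.wth (lkp [])) l23098 = true ∧
    allY (E.wth (lkp [])) l23099 = true ∧
    allY (E.wth (lkp [])) l23100 = true ∧
    allY (E.wth (lkp [])) l23101 = true ∧
    allY (E.wth (lkp [])) l23102 = true ∧
    allY (E.wth (lkp [])) l23103 = true :=
  ⟨by decide +kernel, by decide +kernel, by decide +kernel, by decide +kernel, by decide +kernel, by decide +kernel, by decide +kernel, by decide +kernel⟩

def t23104 : allY (E.wth (lkp [])) l23104 = true ∧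
    allY (E.wth (lkp [])) l23105 = true ∧
    allY (E.wth (lkp [])) l23106 = true ∧
    allY (E.wth (lkp [])) l23107 = true ∧
    allY (E.wth (lkp [])) l23108 = true ∧
    allY (E.wth (lkp [])) l23109 = true ∧
    allY (E.wth (lkp [])) l23110 = true ∧
    allY (E.wth (lkp [])) l23111 = true :=
  ⟨by decide +kernel, by decide +kernel, by decide +kernel, by decide +kernel, by decide +kernel, by decide +kernel, by decide +kernel, by decide +kernel⟩

def t23112 : allY (E.wth (lkp [])) l23112 = true ∧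
    allY (E.wth (lkp [])) l23113 = true ∧
    allY (E.wth (lkp [])) l23114 = true ∧
    allY (E.wth (lkp [])) l23115 = true ∧
    allY (E.wth (lkp [])) l23116 = true ∧
    allY (E.wth (lkp [])) l23117 = true ∧
    allY (E.wth (lkp [])) l23118 = true ∧
    allY (E.wth (lkp [])) l23119 = true :=
  ⟨by decide +kernel, by decide +kernel, by decide +kernel, by decide +kernel, by decide +kernel, by decide +kernel, by decide +kernel, by decide +kernel⟩

def t23120 : allY (E.wth (lkp [])) l23120 = true ∧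
    allY (E.wth (lkp [])) l23121 = true ∧
    allY (E.wth (lkp [])) l23122 = true ∧
    allY (E.wth (lkp [])) l23123 = true ∧
    allY (E.wth (lkp [])) l23124 = true ∧
    allY (E.wth (lkp [])) l23125 = true ∧
    allY (E.wth (lkp [])) l23126 = true ∧
    allY (E.wth (lkp [])) l23127 = true :=
  ⟨by decide +kernel, by decide +kernel, by decide +kernel, by decide +kernel, by decide +kernel, by decide +kernel, by decide +kernel, by decide +kernel⟩

def t23128 : allY (E.wth (lkp [])) l23128 = true ∧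
    allY (E.wth (lkp [])) l23129 = true ∧
    allY (E.wth (lkp [])) l23130 = true ∧
    allY (E.wth (lkp [])) l23131 = true ∧
    allY (E.wth (lkp [])) l23132 = true ∧
    allY (E.wth (lkp [])) l23133 = true ∧
    allY (E.wth (lkp [])) l23134 = true ∧
    allY (E.wth (lkp [])) l23135 = true :=
  ⟨by decide +kernel, by decide +kernel, by decide +kernel, by decide +kernel, by decide +kernel, by decide +kernel, by decide +kernel, by decide +kernel⟩

def t23136 : allY (E.wth (lkp [])) l23136 = true ∧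
    allY (E.wth (lkp [])) l23137 = true ∧
    allY (E.wth (lkp [])) l23138 = true ∧
    allY (E.wth (lkp [])) l23139 = true ∧
    allY (E.wth (lkp [])) l23140 = true ∧
    allY (E.wth (lkp [])) l23141 = true ∧
    allY (E.wth (lkp [])) l23142 = true ∧
    allY (E.wth (lkp [])) l23143 = true :=
  ⟨by decide +kernel, by decide +kernel, by decide +kernel, by decide +kernel, by decide +kernel, by decide +kernel, by decide +kernel, by decide +kernel⟩

def t23144 : allY (E.wth (lkp [])) l23144 = true ∧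
    allY (E.wth (lkp [])) l23145 = true ∧
    allY (E.wth (lkp [])) l23146 = true ∧
    allY (E.wth (lkp [])) l23147 = true ∧
    allY (E.wth (lkp [])) l23148 = true ∧
    allY (E.wth (lkp [])) l23149 = true ∧
    allY (E.wth (lkp [])) l23150 = true ∧
    allY (E.wth (lkp [])) l23151 = true :=
  ⟨by decide +kernel, by decide +kernel, by decide +kernel, by decide +kernel, by decide +kernel, by decide +kernel, by decide +kernel, by decide +kernel⟩

def t23152 : allY (E.wth (lkp [])) l23152 = true ∧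
    allY (E.wth (lkp [])) l23153 = true ∧
    allY (E.wth (lkp [])) l23154 = true ∧
    allY (E.wth (lkp [])) l23155 = true ∧
    allY (E.wth (lkp [])) l23156 = true ∧
    allY (E.wth (lkp [])) l23157 = true ∧
    allY (E.wth (lkp [])) l23158 = true ∧
    allY (E.wth (lkp [])) l23159 = true :=
  ⟨by decide +kernel, by decide +kernel, by decide +kernel, by decide +kernel, by decide +kernel, by decide +kernel, by decide +kernel, by decide +kernel⟩

def t23160 : allY (E.wth (lkp [])) l23160 = true ∧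
    allY (E.wth (lkp [])) l23161 = true ∧
    allY (E.wth (lkp [])) l23162 = true ∧
    allY (E.wth (lkp [])) l23163 = true ∧
    allY (E.wth (lkp [])) l23164 = true ∧
    allY (E.wth (lkp [])) l23165 = true ∧
    allY (E.wth (lkp [])) l23166 = true ∧
    allY (E.wth (lkp [])) l23167 = true :=
  ⟨by decide +kernel, by decide +kernel, by decide +kernel, by decide +kernel, by decide +kernel, by decide +kernel, by decide +kernel, by decide +kernel⟩

def t23168 : allY (E.wth (lkp [])) l23168 = true ∧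
    allY (E.wth (lkp [])) l23169 = true ∧
    allY (E.wth (lkp [])) l23170 = true ∧
    allY (E.wth (lkp [])) l23171 = true ∧
    allY (E.wth (lkp [])) l23172 = true ∧
    allY (E.wth (lkp [])) l23173 = true ∧
    allY (E.wth (lkp [])) l23174 = true ∧
    allY (E.wth (lkp [])) l23175 = true :=
  ⟨by decide +kernel, by decide +kernel, by decide +kernel, by decide +kernel, by decide +kernel, by decide +kernel, by decide +kernel, by decide +kernel⟩

def t23176 : allY (E.wth (lkp [])) l23176 = true ∧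
    allY (E.wth (lkp [])) l23177 = true ∧
    allY (E.wth (lkp [])) l23178 = true ∧
    allY (E.wth (lkp [])) l23179 = true ∧
    allY (E.wth (lkp [])) l23180 = true ∧
    allY (E.wth (lkp [])) l23181 = true ∧
    allY (E.wth (lkp [])) l23182 = true ∧
    allY (E.wth (lkp [])) l23183 = true :=
  ⟨by decide +kernel, by decide +kernel, by decide +kernel, by decide +kernel, by decide +kernel, by decide +kernel, by decide +kernel, by decide +kernel⟩

def t23184 : allY (E.wth (lkp [])) l23184 = true ∧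
    allY (E.wth (lkp [])) l23185 = true ∧
    allY (E.wth (lkp [])) l23186 = true ∧
    allY (E.wth (lkp [])) l23187 = true ∧
    allY (E.wth (lkp [])) l23188 = true ∧
    allY (E.wth (lkp [])) l23189 = true ∧
    allY (E.wth (lkp [])) l23190 = true ∧
    allY (E.wth (lkp [])) l23191 = true :=
  ⟨by decide +kernel, by decide +kernel, by decide +kernel, by decide +kernel, by decide +kernel, by decide +kernel, by decide +kernel, by decide +kernel⟩

def t23192 : allY (E.wth (lkp [])) l23192 = true ∧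
    allY (E.wth (lkp [])) l23193 = true ∧
    allY (E.wth (lkp [])) l23194 = true ∧
    allY (E.wth (lkp [])) l23195 = true ∧
    allY (E.wth (lkp [])) l23196 = true ∧
    allY (E.wth (lkp [])) l23197 = true ∧
    allY (E.wth (lkp [])) l23198 = true ∧
    allY (E.wth (lkp [])) l23199 = true :=
  ⟨by decide +kernel, by decide +kernel, by decide +kernel, by decide +kernel, by decide +kernel, by decide +kernel, by decide +kernel, by decide +kernel⟩

def t23200 : allY (E.wth (lkp [])) l23200 = true ∧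
    allY (E.wth (lkp [])) l23201 = true ∧
    allY (E.wth (lkp [])) l23202 = true ∧
    allY (E.wth (lkp [])) l23203 = true ∧
    allY (E.wth (lkp [])) l23204 = true ∧
    allY (E.wth (lkp [])) l23205 = true ∧
    allY (E.wth (lkp [])) l23206 = true ∧
    allY (E.wth (lkp [])) l23207 = true :=
  ⟨by decide +kernel, by decide +kernel, by decide +kernel, by decide +kernel, by decide +kernel, by decide +kernel, by decide +kernel, by decide +kernel⟩

def t23208 : allY (E.wth (lkp [])) l23208 = true ∧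
    allY (E.wth (lkp [])) l23209 = true ∧
    allY (E.wth (lkp [])) l23210 = true ∧
    allY (E.wth (lkp [])) l23211 = true ∧
    allY (E.wth (lkp [])) l23212 = true ∧
    allY (E.wth (lkp [])) l23213 = true ∧
    allY (E.wth (lkp [])) l23214 = true ∧
    allY (E.wth (lkp [])) l23215 = true :=
  ⟨by decide +kernel, by decide +kernel, by decide +kernel, by decide +kernel, by decide +kernel, by decide +kernel, by decide +kernel, by decide +kernel⟩

def t23216 : allY (E.wth (lkp [])) l23216 = true ∧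
    allY (E.wth (lkp [])) l23217 = true ∧
    allY (E.wth (lkp [])) l23218 = true ∧
    allY (E.wth (lkp [])) l23219 = true ∧
    allY (E.wth (lkp [])) l23220 = true ∧
    allY (E.wth (lkp [])) l23221 = true ∧
    allY (E.wth (lkp [])) l23222 = true ∧
    allY (E.wth (lkp [])) l23223 = true :=
  ⟨by decide +kernel, by decide +kernel, by decide +kernel, by decide +kernel, by decide +kernel, by decide +kernel, by decide +kernel, by decide +kernel⟩

def t23224 : allY (E.wth (lkp [])) l23224 = true ∧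
    allY (E.wth (lkp [])) l23225 = true ∧
    allY (E.wth (lkp [])) l23226 = true ∧
    allY (E.wth (lkp [])) l23227 = true ∧
    allY (E.wth (lkp [])) l23228 = true ∧
    allY (E.wth (lkp [])) l23229 = true ∧
    allY (E.wth (lkp [])) l23230 = true ∧
    allY (E.wth (lkp [])) l23231 = true :=
  ⟨by decide +kernel, by decide +kernel, by decide +kernel, by decide +kernel, by decide +kernel, by decide +kernel, by decide +kernel, by decide +kernel⟩

def t23232 : allY (E.wth (lkp [])) l23232 = true ∧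
    allY (E.wth (lkp [])) l23233 = true ∧
    allY (E.wth (lkp [])) l23234 = true ∧
    allY (E.wth (lkp [])) l23235 = true ∧
    allY (E.wth (lkp [])) l23236 = true ∧
    allY (E.wth (lkp [])) l23237 = true ∧
    allY (E.wth (lkp [])) l23238 = true ∧
    allY (E.wth (lkp [])) l23239 = true :=
  ⟨by decide +kernel, by decide +kernel, by decide +kernel, by decide +kernel, by decide +kernel, by decide +kernel, by decide +kernel, by decide +kernel⟩

def t23240 : allY (E.wth (lkp [])) l23240 = true ∧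
    allY (E.wth (lkp [])) l23241 = true ∧
    allY (E.wth (lkp [])) l23242 = true ∧
    allY (E.wth (lkp [])) l23243 = true ∧
    allY (E.wth (lkp [])) l23244 = true ∧
    allY (E.wth (lkp [])) l23245 = true ∧
    allY (E.wth (lkp [])) l23246 = true ∧
    allY (E.wth (lkp [])) l23247 = true :=
  ⟨by decide +kernel, by decide +kernel, by decide +kernel, by decide +kernel, by decide +kernel, by decide +kernel, by decide +kernel, by decide +kernel⟩

def t23248 : allY (E.wth (lkp [])) l23248 = true ∧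
    allY (E.wth (lkp [])) l23249 = true ∧
    allY (E.wth (lkp [])) l23250 = true ∧
    allY (E.wth (lkp [])) l23251 = true ∧
    allY (E.wth (lkp [])) l23252 = true ∧
    allY (E.wth (lkp [])) l23253 = true ∧
    allY (E.wth (lkp [])) l23254 = true ∧
    allY (E.wth (lkp [])) l23255 = true :=
  ⟨by decide +kernel, by decide +kernel, by decide +kernel, by decide +kernel, by decide +kernel, by decide +kernel, by decide +kernel, by decide +kernel⟩

def t23256 : allY (E.wth (lkp [])) l23256 = true ∧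
    allY (E.wth (lkp [])) l23257 = true ∧
    allY (E.wth (lkp [])) l23258 = true ∧
    allY (E.wth (lkp [])) l23259 = true ∧
    allY (E.wth (lkp [])) l23260 = true ∧
    allY (E.wth (lkp [])) l23261 = true ∧
    allY (E.wth (lkp [])) l23262 = true ∧
    allY (E.wth (lkp [])) l23263 = true :=
  ⟨by decide +kernel, by decide +kernel, by decide +kernel, by decide +kernel, by decide +kernel, by decide +kernel, by decide +kernel, by decide +kernel⟩

def t23264 : allY (E.wth (lkp [])) l23264 = true ∧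
    allY (E.wth (lkp [])) l23265 = true ∧
    allY (E.wth (lkp [])) l23266 = true ∧
    allY (E.wth (lkp [])) l23267 = true ∧
    allY (E.wth (lkp [])) l23268 = true ∧
    allY (E.wth (lkp [])) l23269 = true ∧
    allY (E.wth (lkp [])) l23270 = true ∧
    allY (E.wth (lkp [])) l23271 = true :=
  ⟨by decide +kernel, by decide +kernel, by decide +kernel, by decide +kernel, by decide +kernel, by decide +kernel, by decide +kernel, by decide +kernel⟩

def t23272 : allY (E.wth (lkp [])) l23272 = true ∧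
    allY (E.wth (lkp [])) l23273 = true ∧
    allY (E.wth (lkp [])) l23274 = true ∧
    allY (E.wth (lkp [])) l23275 = true ∧
    allY (E.wth (lkp [])) l23276 = true ∧
    allY (E.wth (lkp [])) l23277 = true ∧
    allY (E.wth (lkp [])) l23278 = true ∧
    allY (E.wth (lkp [])) l23279 = true :=
  ⟨by decide +kernel, by decide +kernel, by decide +kernel, by decide +kernel, by decide +kernel, by decide +kernel, by decide +kernel, by decide +kernel⟩

def t23280 : allY (E.wth (lkp [])) l23280 = true ∧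
    allY (E.wth (lkp [])) l23281 = true ∧
    allY (E.wth (lkp [])) l23282 = true ∧
    allY (E.wth (lkp [])) l23283 = true ∧
    allY (E.wth (lkp [])) l23284 = true ∧
    allY (E.wth (lkp [])) l23285 = true ∧
    allY (E.wth (lkp [])) l23286 = true ∧
    allY (E.wth (lkp [])) l23287 = true :=
  ⟨by decide +kernel, by decide +kernel, by decide +kernel, by decide +kernel, by decide +kernel, by decide +kernel, by decide +kernel, by decide +kernel⟩

def t23288 : allY (E.wth (lkp [])) l23288 = true ∧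
    allY (E.wth (lkp [])) l23289 = true ∧
    allY (E.wth (lkp [])) l23290 = true ∧
    allY (E.wth (lkp [])) l23291 = true ∧
    allY (E.wth (lkp [])) l23292 = true ∧
    allY (E.wth (lkp [])) l23293 = true ∧
    allY (E.wth (lkp [])) l23294 = true ∧
    allY (E.wth (lkp [])) l23295 = true :=
  ⟨by decide +kernel, by decide +kernel, by decide +kernel, by decide +kernel, by decide +kernel, by decide +kernel, by decide +kernel, by decide +kernel⟩

def t23296 : allY (E.wth (lkp [])) l23296 = true ∧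
    allY (E.wth (lkp [])) l23297 = true ∧
    allY (E.wth (lkp [])) l23298 = true ∧
    allY (E.wth (lkp [])) l23299 = true ∧
    allY (E.wth (lkp [])) l23300 = true ∧
    allY (E.wth (lkp [])) l23301 = true ∧
    allY (E.wth (lkp [])) l23302 = true ∧
    allY (E.wth (lkp [])) l23303 = true :=
  ⟨by decide +kernel, by decide +kernel, by decide +kernel, by decide +kernel, by decide +kernel, by decide +kernel, by decide +kernel, by decide +kernel⟩

def t23304 : allY (E.wth (lkp [])) l23304 = true ∧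
    allY (E.wth (lkp [])) l23305 = true ∧
    allY (E.wth (lkp [])) l23306 = true ∧
    allY (E.wth (lkp [])) l23307 = true ∧
    allY (E.wth (lkp [])) l23308 = true ∧
    allY (E.wth (lkp [])) l23309 = true ∧
    allY (E.wth (lkp [])) l23310 = true ∧
    allY (E.wth (lkp [])) l23311 = true :=
  ⟨by decide +kernel, by decide +kernel, by decide +kernel, by decide +kernel, by decide +kernel, by decide +kernel, by decide +kernel, by decide +kernel⟩

def t23312 : allY (E.wth (lkp [])) l23312 = true ∧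
    allY (E.wth (lkp [])) l23313 = true ∧
    allY (E.wth (lkp [])) l23314 = true ∧
    allY (E.wth (lkp [])) l23315 = true ∧
    allY (E.wth (lkp [])) l23316 = true ∧
    allY (E.wth (lkp [])) l23317 = true ∧
    allY (E.wth (lkp [])) l23318 = true ∧
    allY (E.wth (lkp [])) l23319 = true :=
  ⟨by decide +kernel, by decide +kernel, by decide +kernel, by decide +kernel, by decide +kernel, by decide +kernel, by decide +kernel, by decide +kernel⟩

def t23320 : allY (E.wth (lkp [])) l23320 = true ∧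
    allY (E.wth (lkp [])) l23321 = true ∧
    allY (E.wth (lkp [])) l23322 = true ∧
    allY (E.wth (lkp [])) l23323 = true ∧
    allY (E.wth (lkp [])) l23324 = true ∧
    allY (E.wth (lkp [])) l23325 = true ∧
    allY (E.wth (lkp [])) l23326 = true ∧
    allY (E.wth (lkp [])) l23327 = true :=
  ⟨by decide +kernel, by decide +kernel, by decide +kernel, by decide +kernel, by decide +kernel, by decide +kernel, by decide +kernel, by decide +kernel⟩

def t23328 : allY (E.wth (lkp [])) l23328 = true ∧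
    allY (E.wth (lkp [])) l23329 = true ∧
    allY (E.wth (lkp [])) l23330 = true ∧
    allY (E.wth (lkp [])) l23331 = true ∧
    allY (E.wth (lkp [])) l23332 = true ∧
    allY (E.wth (lkp [])) l23333 = true ∧
    allY (E.wth (lkp [])) l23334 = true ∧
    allY (E.wth (lkp [])) l23335 = true :=
  ⟨by decide +kernel, by decide +kernel, by decide +kernel, by decide +kernel, by decide +kernel, by decide +kernel, by decide +kernel, by decide +kernel⟩

def t23336 : allY (E.wth (lkp [])) l23336 = true ∧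
    allY (E.wth (lkp [])) l23337 = true ∧
    allY (E.wth (lkp [])) l23338 = true ∧
    allY (E.wth (lkp [])) l23339 = true ∧
    allY (E.wth (lkp [])) l23340 = true ∧
    allY (E.wth (lkp [])) l23341 = true ∧
    allY (E.wth (lkp [])) l23342 = true ∧
    allY (E.wth (lkp [])) l23343 = true :=
  ⟨by decide +kernel, by decide +kernel, by decide +kernel, by decide +kernel, by decide +kernel, by decide +kernel, by decide +kernel, by decide +kernel⟩

def t23344 : allY (E.wth (lkp [])) l23344 = true ∧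
    allY (E.wth (lkp [])) l23345 = true ∧
    allY (E.wth (lkp [])) l23346 = true ∧
    allY (E.wth (lkp [])) l23347 = true ∧
    allY (E.wth (lkp [])) l23348 = true ∧
    allY (E.wth (lkp [])) l23349 = true ∧
    allY (E.wth (lkp [])) l23350 = true ∧
    allY (E.wth (lkp [])) l23351 = true :=
  ⟨by decide +kernel, by decide +kernel, by decide +kernel, by decide +kernel, by decide +kernel, by decide +kernel, by decide +kernel, by decide +kernel⟩

def t23352 : allY (E.wth (lkp [])) l23352 = true ∧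
    allY (E.wth (lkp [])) l23353 = true ∧
    allY (E.wth (lkp [])) l23354 = true ∧
    allY (E.wth (lkp [])) l23355 = true ∧
    allY (E.wth (lkp [])) l23356 = true ∧
    allY (E.wth (lkp [])) l23357 = true ∧
    allY (E.wth (lkp [])) l23358 = true ∧
    allY (E.wth (lkp [])) l23359 = true :=
  ⟨by decide +kernel, by decide +kernel, by decide +kernel, by decide +kernel, by decide +kernel, by decide +kernel, by decide +kernel, by decide +kernel⟩

def t23360 : allY (E.wth (lkp [])) l23360 = true ∧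
    allY (E.wth (lkp [])) l23361 = true ∧
    allY (E.wth (lkp [])) l23362 = true ∧
    allY (E.wth (lkp [])) l23363 = true ∧
    allY (E.wth (lkp [])) l23364 = true ∧
    allY (E.wth (lkp [])) l23365 = true ∧
    allY (E.wth (lkp [])) l23366 = true ∧
    allY (E.wth (lkp [])) l23367 = true :=
  ⟨by decide +kernel, by decide +kernel, by decide +kernel, by decide +kernel, by decide +kernel, by decide +kernel, by decide +kernel, by decide +kernel⟩

def t23368 : allY (E.wth (lkp [])) l23368 = true ∧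
    allY (E.wth (lkp [])) l23369 = true ∧
    allY (E.wth (lkp [])) l23370 = true ∧
    allY (E.wth (lkp [])) l23371 = true ∧
    allY (E.wth (lkp [])) l23372 = true ∧
    allY (E.wth (lkp [])) l23373 = true ∧
    allY (E.wth (lkp [])) l23374 = true ∧
    allY (E.wth (lkp [])) l23375 = true :=
  ⟨by decide +kernel, by decide +kernel, by decide +kernel, by decide +kernel, by decide +kernel, by decide +kernel, by decide +kernel, by decide +kernel⟩

def t23376 : allY (E.wth (lkp [])) l23376 = true ∧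
    allY (E.wth (lkp [])) l23377 = true ∧
    allY (E.wth (lkp [])) l23378 = true ∧
    allY (E.wth (lkp [])) l23379 = true ∧
    allY (E.wth (lkp [])) l23380 = true ∧
    allY (E.wth (lkp [])) l23381 = true ∧
    allY (E.wth (lkp [])) l23382 = true ∧
    allY (E.wth (lkp [])) l23383 = true :=
  ⟨by decide +kernel, by decide +kernel, by decide +kernel, by decide +kernel, by decide +kernel, by decide +kernel, by decide +kernel, by decide +kernel⟩

def t23384 : allY (E.wth (lkp [])) l23384 = true ∧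
    allY (E.wth (lkp [])) l23385 = true ∧
    allY (E.wth (lkp [])) l23386 = true ∧
    allY (E.wth (lkp [])) l23387 = true ∧
    allY (E.wth (lkp [])) l23388 = true ∧
    allY (E.wth (lkp [])) l23389 = true ∧
    allY (E.wth (lkp [])) l23390 = true ∧
    allY (E.wth (lkp [])) l23391 = true :=
  ⟨by decide +kernel, by decide +kernel, by decide +kernel, by decide +kernel, by decide +kernel, by decide +kernel, by decide +kernel, by decide +kernel⟩

def t23392 : allY (E.wth (lkp [])) l23392 = true ∧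
    allY (E.wth (lkp [])) l23393 = true ∧
    allY (E.wth (lkp [])) l23394 = true ∧
    allY (E.wth (lkp [])) l23395 = true ∧
    allY (E.wth (lkp [])) l23396 = true ∧
    allY (E.wth (lkp [])) l23397 = true ∧
    allY (E.wth (lkp [])) l23398 = true ∧
    allY (E.wth (lkp [])) l23399 = true :=
  ⟨by decide +kernel, by decide +kernel, by decide +kernel, by decide +kernel, by decide +kernel, by decide +kernel, by decide +kernel, by decide +kernel⟩

def t23400 : allY (E.wth (lkp [])) l23400 = true ∧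
    allY (E.wth (lkp [])) l23401 = true ∧
    allY (E.wth (lkp [])) l23402 = true ∧
    allY (E.wth (lkp [])) l23403 = true ∧
    allY (E.wth (lkp [])) l23404 = true ∧
    allY (E.wth (lkp [])) l23405 = true ∧
    allY (E.wth (lkp [])) l23406 = true ∧
    allY (E.wth (lkp [])) l23407 = true :=
  ⟨by decide +kernel, by decide +kernel, by decide +kernel, by decide +kernel, by decide +kernel, by decide +kernel, by decide +kernel, by decide +kernel⟩

def t23408 : allY (E.wth (lkp [])) l23408 = true ∧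
    allY (E.wth (lkp [])) l23409 = true ∧
    allY (E.wth (lkp [])) l23410 = true ∧
    allY (E.wth (lkp [])) l23411 = true ∧
    allY (E.wth (lkp [])) l23412 = true ∧
    allY (E.wth (lkp [])) l23413 = true ∧
    allY (E.wth (lkp [])) l23414 = true ∧
    allY (E.wth (lkp [])) l23415 = true :=
  ⟨by decide +kernel, by decide +kernel, by decide +kernel, by decide +kernel, by decide +kernel, by decide +kernel, by decide +kernel, by decide +kernel⟩

def t23416 : allY (E.wth (lkp [])) l23416 = true ∧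
    allY (E.wth (lkp [])) l23417 = true ∧
    allY (E.wth (lkp [])) l23418 = true ∧
    allY (E.wth (lkp [])) l23419 = true ∧
    allY (E.wth (lkp [])) l23420 = true ∧
    allY (E.wth (lkp [])) l23421 = true ∧
    allY (E.wth (lkp [])) l23422 = true ∧
    allY (E.wth (lkp [])) l23423 = true :=
  ⟨by decide +kernel, by decide +kernel, by decide +kernel, by decide +kernel, by decide +kernel, by decide +kernel, by decide +kernel, by decide +kernel⟩

def t23424 : allY (E.wth (lkp [])) l23424 = true ∧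
    allY (E.wth (lkp [])) l23425 = true ∧
    allY (E.wth (lkp [])) l23426 = true ∧
    allY (E.wth (lkp [])) l23427 = true ∧
    allY (E.wth (lkp [])) l23428 = true ∧
    allY (E.wth (lkp [])) l23429 = true ∧
    allY (E.wth (lkp [])) l23430 = true ∧
    allY (E.wth (lkp [])) l23431 = true :=
  ⟨by decide +kernel, by decide +kernel, by decide +kernel, by decide +kernel, by decide +kernel, by decide +kernel, by decide +kernel, by decide +kernel⟩

def t23432 : allY (E.wth (lkp [])) l23432 = true ∧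
    allY (E.wth (lkp [])) l23433 = true ∧
    allY (E.wth (lkp [])) l23434 = true ∧
    allY (E.wth (lkp [])) l23435 = true ∧
    allY (E.wth (lkp [])) l23436 = true ∧
    allY (E.wth (lkp [])) l23437 = true ∧
    allY (E.wth (lkp [])) l23438 = true ∧
    allY (E.wth (lkp [])) l23439 = true :=
  ⟨by decide +kernel, by decide +kernel, by decide +kernel, by decide +kernel, by decide +kernel, by decide +kernel, by decide +kernel, by decide +kernel⟩

def t23440 : allY (E.wth (lkp [])) l23440 = true ∧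
    allY (E.wth (lkp [])) l23441 = true ∧
    allY (E.wth (lkp [])) l23442 = true ∧
    allY (E.wth (lkp [])) l23443 = true ∧
    allY (E.wth (lkp [])) l23444 = true ∧
    allY (E.wth (lkp [])) l23445 = true ∧
    allY (E.wth (lkp [])) l23446 = true ∧
    allY (E.wth (lkp [])) l23447 = true :=
  ⟨by decide +kernel, by decide +kernel, by decide +kernel, by decide +kernel, by decide +kernel, by decide +kernel, by decide +kernel, by decide +kernel⟩

def t23448 : allY (E.wth (lkp [])) l23448 = true ∧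
    allY (E.wth (lkp [])) l23449 = true ∧
    allY (E.wth (lkp [])) l23450 = true ∧
    allY (E.wth (lkp [])) l23451 = true ∧
    allY (E.wth (lkp [])) l23452 = true ∧
    allY (E.wth (lkp [])) l23453 = true ∧
    allY (E.wth (lkp [])) l23454 = true ∧
    allY (E.wth (lkp [])) l23455 = true :=
  ⟨by decide +kernel, by decide +kernel, by decide +kernel, by decide +kernel, by decide +kernel, by decide +kernel, by decide +kernel, by decide +kernel⟩

def t23456 : allY (E.wth (lkp [])) l23456 = true ∧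
    allY (E.wth (lkp [])) l23457 = true ∧
    allY (E.wth (lkp [])) l23458 = true ∧
    allY (E.wth (lkp [])) l23459 = true ∧
    allY (E.wth (lkp [])) l23460 = true ∧
    allY (E.wth (lkp [])) l23461 = true ∧
    allY (E.wth (lkp [])) l23462 = true ∧
    allY (E.wth (lkp [])) l23463 = true :=
  ⟨by decide +kernel, by decide +kernel, by decide +kernel, by decide +kernel, by decide +kernel, by decide +kernel, by decide +kernel, by decide +kernel⟩

def t23464 : allY (E.wth (lkp [])) l23464 = true ∧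
    allY (E.wth (lkp [])) l23465 = true ∧
    allY (E.wth (lkp [])) l23466 = true ∧
    allY (E.wth (lkp [])) l23467 = true ∧
    allY (E.wth (lkp [])) l23468 = true ∧
    allY (E.wth (lkp [])) l23469 = true ∧
    allY (E.wth (lkp [])) l23470 = true ∧
    allY (E.wth (lkp [])) l23471 = true :=
  ⟨by decide +kernel, by decide +kernel, by decide +kernel, by decide +kernel, by decide +kernel, by decide +kernel, by decide +kernel, by decide +kernel⟩

def t23472 : allY (E.wth (lkp [])) l23472 = true ∧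
    allY (E.wth (lkp [])) l23473 = true ∧
    allY (E.wth (lkp [])) l23474 = true ∧
    allY (E.wth (lkp [])) l23475 = true ∧
    allY (E.wth (lkp [])) l23476 = true ∧
    allY (E.wth (lkp [])) l23477 = true ∧
    allY (E.wth (lkp [])) l23478 = true ∧
    allY (E.wth (lkp [])) l23479 = true :=
  ⟨by decide +kernel, by decide +kernel, by decide +kernel, by decide +kernel, by decide +kernel, by decide +kernel, by decide +kernel, by decide +kernel⟩

def t23480 : allY (E.wth (lkp [])) l23480 = true ∧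
    allY (E.wth (lkp [])) l23481 = true ∧
    allY (E.wth (lkp [])) l23482 = true ∧
    allY (E.wth (lkp [])) l23483 = true ∧
    allY (E.wth (lkp [])) l23484 = true ∧
    allY (E.wth (lkp [])) l23485 = true ∧
    allY (E.wth (lkp [])) l23486 = true ∧
    allY (E.wth (lkp [])) l23487 = true :=
  ⟨by decide +kernel, by decide +kernel, by decide +kernel, by decide +kernel, by decide +kernel, by decide +kernel, by decide +kernel, by decide +kernel⟩

def t23488 : allY (E.wth (lkp [])) l23488 = true ∧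
    allY (E.wth (lkp [])) l23489 = true ∧
    allY (E.wth (lkp [])) l23490 = true ∧
    allY (E.wth (lkp [])) l23491 = true ∧
    allY (E.wth (lkp [])) l23492 = true ∧
    allY (E.wth (lkp [])) l23493 = true ∧
    allY (E.wth (lkp [])) l23494 = true ∧
    allY (E.wth (lkp [])) l23495 = true :=
  ⟨by decide +kernel, by decide +kernel, by decide +kernel, by decide +kernel, by decide +kernel, by decide +kernel, by decide +kernel, by decide +kernel⟩

def t23496 : allY (E.wth (lkp [])) l23496 = true ∧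
    allY (E.wth (lkp [])) l23497 = true ∧
    allY (E.wth (lkp [])) l23498 = true ∧
    allY (E.wth (lkp [])) l23499 = true ∧
    allY (E.wth (lkp [])) l23500 = true ∧
    allY (E.wth (lkp [])) l23501 = true ∧
    allY (E.wth (lkp [])) l23502 = true ∧
    allY (E.wth (lkp [])) l23503 = true :=
  ⟨by decide +kernel, by decide +kernel, by decide +kernel, by decide +kernel, by decide +kernel, by decide +kernel, by decide +kernel, by decide +kernel⟩

def t23504 : allY (E.wth (lkp [])) l23504 = true ∧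
    allY (E.wth (lkp [])) l23505 = true ∧
    allY (E.wth (lkp [])) l23506 = true ∧
    allY (E.wth (lkp [])) l23507 = true :=
  ⟨by decide +kernel, by decide +kernel, by decide +kernel, by decide +kernel⟩

theorem a41 {p : Rf → Prop} (H : ∀ l, allY (E.wth (lkp [])) l = true → (lkp l).All p) :
    b41.All p := ⟨⟨⟨⟨⟨⟨⟨⟨⟨H _ t22944.1, H _ t22944.2.1⟩, ⟨H _ t22944.2.2.1, H _ t22944.2.2.2.1⟩⟩, ⟨⟨H _ t22944.2.2.2.2.1, H _ t22944.2.2.2.2.2.1⟩, ⟨H _ t22944.2.2.2.2.2.2.1, H _ t22944.2.2.2.2.2.2.2⟩⟩⟩, ⟨⟨⟨H _ t22952.1, H _ t22952.2.1⟩, ⟨H _ t22952.2.2.1, H _ t22952.2.2.2.1⟩⟩, ⟨⟨H _ t22952.2.2.2.2.1, H _ t22952.2.2.2.2.2.1⟩, ⟨H _ t22952.2.2.2.2.2.2.1, ⟨H _ t22952.2.2.2.2.2.2.2, H _ t22960.1⟩⟩⟩⟩⟩, ⟨⟨⟨⟨H _ t22960.2.1, H _ t22960.2.2.1⟩, ⟨H _ t22960.2.2.2.1, H _ t22960.2.2.2.2.1⟩⟩, ⟨⟨H _ t22960.2.2.2.2.2.1, H _ t22960.2.2.2.2.2.2.1⟩, ⟨H _ t22960.2.2.2.2.2.2.2, ⟨H _ t22968.1, H _ t22968.2.1⟩⟩⟩⟩, ⟨⟨⟨H _ t22968.2.2.1,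 H _ t22968.2.2.2.1⟩, ⟨H _ t22968.2.2.2.2.1, H _ t22968.2.2.2.2.2.1⟩⟩, ⟨⟨H _ t22968.2.2.2.2.2.2.1, H _ t22968.2.2.2.2.2.2.2⟩, ⟨H _ t22976.1, ⟨H _ t22976.2.1, H _ t22976.2.2.1⟩⟩⟩⟩⟩⟩, ⟨⟨⟨⟨⟨H _ t22976.2.2.2.1, H _ t22976.2.2.2.2.1⟩, ⟨H _ t22976.2.2.2.2.2.1, H _ t22976.2.2.2.2.2.2.1⟩⟩, ⟨⟨H _ t22976.2.2.2.2.2.2.2, H _ t22984.1⟩, ⟨H _ t22984.2.1, H _ t22984.2.2.1⟩⟩⟩, ⟨⟨⟨H _ t22984.2.2.2.1, H _ t22984.2.2.2.2.1⟩, ⟨H _ t22984.2.2.2.2.2.1, H _ t22984.2.2.2.2.2.2.1⟩⟩, ⟨⟨H _ t22984.2.2.2.2.2.2.2, H _ t22992.1⟩, ⟨H _ t22992.2.1, ⟨H _ t22992.2.2.1, H _ t22992.2.2.2.1⟩⟩⟩⟩⟩, ⟨⟨⟨⟨H _ t22992.2.2.2.2.1, H _ t22992.2.2.2.2.2.1⟩, ⟨H _ t22992.2.2.2.2.2.2.1, H _ t22992.2.2.2.2.2.2.2⟩⟩, ⟨⟨H _ t23000.1, H _ t23000.2.1⟩, ⟨H _ t23000.2.2.1, ⟨H _ t23000.2.2.2.1, H _ t23000.2.2.2.2.1⟩⟩⟩⟩, ⟨⟨⟨H _ t23000.2.2.2.2.2.1, H _ t23000.2.2.2.2.2.2.1⟩, ⟨H _ t23000.2.2.2.2.2.2.2, H _ t23008.1⟩⟩, ⟨⟨H _ t23008.2.1, H _ t23008.2.2.1⟩,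 ⟨H _ t23008.2.2.2.1, ⟨H _ t23008.2.2.2.2.1, H _ t23008.2.2.2.2.2.1⟩⟩⟩⟩⟩⟩⟩, ⟨⟨⟨⟨⟨⟨H _ t23008.2.2.2.2.2.2.1, H _ t23008.2.2.2.2.2.2.2⟩, ⟨H _ t23016.1, H _ t23016.2.1⟩⟩, ⟨⟨H _ t23016.2.2.1, H _ t23016.2.2.2.1⟩, ⟨H _ t23016.2.2.2.2.1, H _ t23016.2.2.2.2.2.1⟩⟩⟩, ⟨⟨⟨H _ t23016.2.2.2.2.2.2.1, H _ t23016.2.2.2.2.2.2.2⟩, ⟨H _ t23024.1, H _ t23024.2.1⟩⟩, ⟨⟨H _ t23024.2.2.1, H _ t23024.2.2.2.1⟩, ⟨H _ t23024.2.2.2.2.1, ⟨H _ t23024.2.2.2.2.2.1, H _ t23024.2.2.2.2.2.2.1⟩⟩⟩⟩⟩, ⟨⟨⟨⟨H _ t23024.2.2.2.2.2.2.2, H _ t23032.1⟩, ⟨H _ t23032.2.1, H _ t23032.2.2.1⟩⟩, ⟨⟨H _ t23032.2.2.2.1, H _ t23032.2.2.2.2.1⟩, ⟨H _ t23032.2.2.2.2.2.1, ⟨H _ t23032.2.2.2.2.2.2.1, H _ t23032.2.2.2.2.2.2.2⟩⟩⟩⟩, ⟨⟨⟨H _ t23040.1, H _ t23040.2.1⟩, ⟨H _ t23040.2.2.1, H _ t23040.2.2.2.1⟩⟩, ⟨⟨H _ t23040.2.2.2.2.1, H _ t23040.2.2.2.2.2.1⟩, ⟨H _ t23040.2.2.2.2.2.2.1, ⟨H _ t23040.2.2.2.2.2.2.2, H _ t23048.1⟩⟩⟩⟩⟩⟩, ⟨⟨⟨⟨⟨H _ t23048.2.1, H _ t23048.2.2.1⟩,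 ⟨H _ t23048.2.2.2.1, H _ t23048.2.2.2.2.1⟩⟩, ⟨⟨H _ t23048.2.2.2.2.2.1, H _ t23048.2.2.2.2.2.2.1⟩, ⟨H _ t23048.2.2.2.2.2.2.2, ⟨H _ t23056.1, H _ t23056.2.1⟩⟩⟩⟩, ⟨⟨⟨H _ t23056.2.2.1, H _ t23056.2.2.2.1⟩, ⟨H _ t23056.2.2.2.2.1, H _ t23056.2.2.2.2.2.1⟩⟩, ⟨⟨H _ t23056.2.2.2.2.2.2.1, H _ t23056.2.2.2.2.2.2.2⟩, ⟨H _ t23064.1, ⟨H _ t23064.2.1, H _ t23064.2.2.1⟩⟩⟩⟩⟩, ⟨⟨⟨⟨H _ t23064.2.2.2.1, H _ t23064.2.2.2.2.1⟩, ⟨H _ t23064.2.2.2.2.2.1, H _ t23064.2.2.2.2.2.2.1⟩⟩, ⟨⟨H _ t23064.2.2.2.2.2.2.2, H _ t23072.1⟩, ⟨H _ t23072.2.1, ⟨H _ t23072.2.2.1, H _ t23072.2.2.2.1⟩⟩⟩⟩, ⟨⟨⟨H _ t23072.2.2.2.2.1, H _ t23072.2.2.2.2.2.1⟩, ⟨H _ t23072.2.2.2.2.2.2.1, H _ t23072.2.2.2.2.2.2.2⟩⟩, ⟨⟨H _ t23080.1, H _ t23080.2.1⟩, ⟨H _ t23080.2.2.1, ⟨H _ t23080.2.2.2.1, H _ t23080.2.2.2.2.1⟩⟩⟩⟩⟩⟩⟩⟩, ⟨⟨⟨⟨⟨⟨⟨H _ t23080.2.2.2.2.2.1, H _ t23080.2.2.2.2.2.2.1⟩, ⟨H _ t23080.2.2.2.2.2.2.2, H _ t23088.1⟩⟩, ⟨⟨H _ t23088.2.1, H _ t23088.2.2.1⟩,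 ⟨H _ t23088.2.2.2.1, H _ t23088.2.2.2.2.1⟩⟩⟩, ⟨⟨⟨H _ t23088.2.2.2.2.2.1, H _ t23088.2.2.2.2.2.2.1⟩, ⟨H _ t23088.2.2.2.2.2.2.2, H _ t23096.1⟩⟩, ⟨⟨H _ t23096.2.1, H _ t23096.2.2.1⟩, ⟨H _ t23096.2.2.2.1, ⟨H _ t23096.2.2.2.2.1, H _ t23096.2.2.2.2.2.1⟩⟩⟩⟩⟩, ⟨⟨⟨⟨H _ t23096.2.2.2.2.2.2.1, H _ t23096.2.2.2.2.2.2.2⟩, ⟨H _ t23104.1, H _ t23104.2.1⟩⟩, ⟨⟨H _ t23104.2.2.1, H _ t23104.2.2.2.1⟩, ⟨H _ t23104.2.2.2.2.1, ⟨H _ t23104.2.2.2.2.2.1, H _ t23104.2.2.2.2.2.2.1⟩⟩⟩⟩, ⟨⟨⟨H _ t23104.2.2.2.2.2.2.2, H _ t23112.1⟩, ⟨H _ t23112.2.1, H _ t23112.2.2.1⟩⟩, ⟨⟨H _ t23112.2.2.2.1, H _ t23112.2.2.2.2.1⟩, ⟨H _ t23112.2.2.2.2.2.1, ⟨H _ t23112.2.2.2.2.2.2.1, H _ t23112.2.2.2.2.2.2.2⟩⟩⟩⟩⟩⟩, ⟨⟨⟨⟨⟨H _ t23120.1, H _ t23120.2.1⟩, ⟨H _ t23120.2.2.1, H _ t23120.2.2.2.1⟩⟩, ⟨⟨H _ t23120.2.2.2.2.1, H _ t23120.2.2.2.2.2.1⟩, ⟨H _ t23120.2.2.2.2.2.2.1, H _ t23120.2.2.2.2.2.2.2⟩⟩⟩, ⟨⟨⟨H _ t23128.1, H _ t23128.2.1⟩, ⟨H _ t23128.2.2.1,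 H _ t23128.2.2.2.1⟩⟩, ⟨⟨H _ t23128.2.2.2.2.1, H _ t23128.2.2.2.2.2.1⟩, ⟨H _ t23128.2.2.2.2.2.2.1, ⟨H _ t23128.2.2.2.2.2.2.2, H _ t23136.1⟩⟩⟩⟩⟩, ⟨⟨⟨⟨H _ t23136.2.1, H _ t23136.2.2.1⟩, ⟨H _ t23136.2.2.2.1, H _ t23136.2.2.2.2.1⟩⟩, ⟨⟨H _ t23136.2.2.2.2.2.1, H _ t23136.2.2.2.2.2.2.1⟩, ⟨H _ t23136.2.2.2.2.2.2.2, ⟨H _ t23144.1, H _ t23144.2.1⟩⟩⟩⟩, ⟨⟨⟨H _ t23144.2.2.1, H _ t23144.2.2.2.1⟩, ⟨H _ t23144.2.2.2.2.1, H _ t23144.2.2.2.2.2.1⟩⟩, ⟨⟨H _ t23144.2.2.2.2.2.2.1, H _ t23144.2.2.2.2.2.2.2⟩, ⟨H _ t23152.1, ⟨H _ t23152.2.1, H _ t23152.2.2.1⟩⟩⟩⟩⟩⟩⟩, ⟨⟨⟨⟨⟨⟨H _ t23152.2.2.2.1, H _ t23152.2.2.2.2.1⟩, ⟨H _ t23152.2.2.2.2.2.1, H _ t23152.2.2.2.2.2.2.1⟩⟩, ⟨⟨H _ t23152.2.2.2.2.2.2.2, H _ t23160.1⟩, ⟨H _ t23160.2.1, H _ t23160.2.2.1⟩⟩⟩, ⟨⟨⟨H _ t23160.2.2.2.1, H _ t23160.2.2.2.2.1⟩, ⟨H _ t23160.2.2.2.2.2.1, H _ t23160.2.2.2.2.2.2.1⟩⟩, ⟨⟨H _ t23160.2.2.2.2.2.2.2, H _ t23168.1⟩, ⟨H _ t23168.2.1, ⟨H _ t23168.2.2.1,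 H _ t23168.2.2.2.1⟩⟩⟩⟩⟩, ⟨⟨⟨⟨H _ t23168.2.2.2.2.1, H _ t23168.2.2.2.2.2.1⟩, ⟨H _ t23168.2.2.2.2.2.2.1, H _ t23168.2.2.2.2.2.2.2⟩⟩, ⟨⟨H _ t23176.1, H _ t23176.2.1⟩, ⟨H _ t23176.2.2.1, ⟨H _ t23176.2.2.2.1, H _ t23176.2.2.2.2.1⟩⟩⟩⟩, ⟨⟨⟨H _ t23176.2.2.2.2.2.1, H _ t23176.2.2.2.2.2.2.1⟩, ⟨H _ t23176.2.2.2.2.2.2.2, H _ t23184.1⟩⟩, ⟨⟨H _ t23184.2.1, H _ t23184.2.2.1⟩, ⟨H _ t23184.2.2.2.1, ⟨H _ t23184.2.2.2.2.1, H _ t23184.2.2.2.2.2.1⟩⟩⟩⟩⟩⟩, ⟨⟨⟨⟨⟨H _ t23184.2.2.2.2.2.2.1, H _ t23184.2.2.2.2.2.2.2⟩, ⟨H _ t23192.1, H _ t23192.2.1⟩⟩, ⟨⟨H _ t23192.2.2.1, H _ t23192.2.2.2.1⟩, ⟨H _ t23192.2.2.2.2.1, ⟨H _ t23192.2.2.2.2.2.1, H _ t23192.2.2.2.2.2.2.1⟩⟩⟩⟩, ⟨⟨⟨H _ t23192.2.2.2.2.2.2.2, H _ t23200.1⟩, ⟨H _ t23200.2.1, H _ t23200.2.2.1⟩⟩, ⟨⟨H _ t23200.2.2.2.1, H _ t23200.2.2.2.2.1⟩, ⟨H _ t23200.2.2.2.2.2.1, ⟨H _ t23200.2.2.2.2.2.2.1, H _ t23200.2.2.2.2.2.2.2⟩⟩⟩⟩⟩, ⟨⟨⟨⟨H _ t23208.1, H _ t23208.2.1⟩, ⟨H _ t23208.2.2.1,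 H _ t23208.2.2.2.1⟩⟩, ⟨⟨H _ t23208.2.2.2.2.1, H _ t23208.2.2.2.2.2.1⟩, ⟨H _ t23208.2.2.2.2.2.2.1, ⟨H _ t23208.2.2.2.2.2.2.2, H _ t23216.1⟩⟩⟩⟩, ⟨⟨⟨H _ t23216.2.1, H _ t23216.2.2.1⟩, ⟨H _ t23216.2.2.2.1, H _ t23216.2.2.2.2.1⟩⟩, ⟨⟨H _ t23216.2.2.2.2.2.1, H _ t23216.2.2.2.2.2.2.1⟩, ⟨H _ t23216.2.2.2.2.2.2.2, ⟨H _ t23224.1, H _ t23224.2.1⟩⟩⟩⟩⟩⟩⟩⟩⟩, ⟨⟨⟨⟨⟨⟨⟨⟨H _ t23224.2.2.1, H _ t23224.2.2.2.1⟩, ⟨H _ t23224.2.2.2.2.1, H _ t23224.2.2.2.2.2.1⟩⟩, ⟨⟨H _ t23224.2.2.2.2.2.2.1, H _ t23224.2.2.2.2.2.2.2⟩, ⟨H _ t23232.1, H _ t23232.2.1⟩⟩⟩, ⟨⟨⟨H _ t23232.2.2.1, H _ t23232.2.2.2.1⟩, ⟨H _ t23232.2.2.2.2.1, H _ t23232.2.2.2.2.2.1⟩⟩, ⟨⟨H _ t23232.2.2.2.2.2.2.1, H _ t23232.2.2.2.2.2.2.2⟩, ⟨H _ t23240.1, ⟨H _ t23240.2.1, H _ t23240.2.2.1⟩⟩⟩⟩⟩, ⟨⟨⟨⟨H _ t23240.2.2.2.1, H _ t23240.2.2.2.2.1⟩, ⟨H _ t23240.2.2.2.2.2.1, H _ t23240.2.2.2.2.2.2.1⟩⟩, ⟨⟨H _ t23240.2.2.2.2.2.2.2, H _ t23248.1⟩, ⟨H _ t23248.2.1, ⟨H _ t23248.2.2.1,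 H _ t23248.2.2.2.1⟩⟩⟩⟩, ⟨⟨⟨H _ t23248.2.2.2.2.1, H _ t23248.2.2.2.2.2.1⟩, ⟨H _ t23248.2.2.2.2.2.2.1, H _ t23248.2.2.2.2.2.2.2⟩⟩, ⟨⟨H _ t23256.1, H _ t23256.2.1⟩, ⟨H _ t23256.2.2.1, ⟨H _ t23256.2.2.2.1, H _ t23256.2.2.2.2.1⟩⟩⟩⟩⟩⟩, ⟨⟨⟨⟨⟨H _ t23256.2.2.2.2.2.1, H _ t23256.2.2.2.2.2.2.1⟩, ⟨H _ t23256.2.2.2.2.2.2.2, H _ t23264.1⟩⟩, ⟨⟨H _ t23264.2.1, H _ t23264.2.2.1⟩, ⟨H _ t23264.2.2.2.1, H _ t23264.2.2.2.2.1⟩⟩⟩, ⟨⟨⟨H _ t23264.2.2.2.2.2.1, H _ t23264.2.2.2.2.2.2.1⟩, ⟨H _ t23264.2.2.2.2.2.2.2, H _ t23272.1⟩⟩, ⟨⟨H _ t23272.2.1, H _ t23272.2.2.1⟩, ⟨H _ t23272.2.2.2.1, ⟨H _ t23272.2.2.2.2.1, H _ t23272.2.2.2.2.2.1⟩⟩⟩⟩⟩, ⟨⟨⟨⟨H _ t23272.2.2.2.2.2.2.1, H _ t23272.2.2.2.2.2.2.2⟩, ⟨H _ t23280.1, H _ t23280.2.1⟩⟩, ⟨⟨H _ t23280.2.2.1, H _ t23280.2.2.2.1⟩, ⟨H _ t23280.2.2.2.2.1, ⟨H _ t23280.2.2.2.2.2.1, H _ t23280.2.2.2.2.2.2.1⟩⟩⟩⟩, ⟨⟨⟨H _ t23280.2.2.2.2.2.2.2, H _ t23288.1⟩, ⟨H _ t23288.2.1, H _ t23288.2.2.1⟩⟩,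 ⟨⟨H _ t23288.2.2.2.1, H _ t23288.2.2.2.2.1⟩, ⟨H _ t23288.2.2.2.2.2.1, ⟨H _ t23288.2.2.2.2.2.2.1, H _ t23288.2.2.2.2.2.2.2⟩⟩⟩⟩⟩⟩⟩, ⟨⟨⟨⟨⟨⟨H _ t23296.1, H _ t23296.2.1⟩, ⟨H _ t23296.2.2.1, H _ t23296.2.2.2.1⟩⟩, ⟨⟨H _ t23296.2.2.2.2.1, H _ t23296.2.2.2.2.2.1⟩, ⟨H _ t23296.2.2.2.2.2.2.1, H _ t23296.2.2.2.2.2.2.2⟩⟩⟩, ⟨⟨⟨H _ t23304.1, H _ t23304.2.1⟩, ⟨H _ t23304.2.2.1, H _ t23304.2.2.2.1⟩⟩, ⟨⟨H _ t23304.2.2.2.2.1, H _ t23304.2.2.2.2.2.1⟩, ⟨H _ t23304.2.2.2.2.2.2.1, ⟨H _ t23304.2.2.2.2.2.2.2, H _ t23312.1⟩⟩⟩⟩⟩, ⟨⟨⟨⟨H _ t23312.2.1, H _ t23312.2.2.1⟩, ⟨H _ t23312.2.2.2.1, H _ t23312.2.2.2.2.1⟩⟩, ⟨⟨H _ t23312.2.2.2.2.2.1, H _ t23312.2.2.2.2.2.2.1⟩, ⟨H _ t23312.2.2.2.2.2.2.2, ⟨H _ t23320.1, H _ t23320.2.1⟩⟩⟩⟩, ⟨⟨⟨H _ t23320.2.2.1, H _ t23320.2.2.2.1⟩, ⟨H _ t23320.2.2.2.2.1, H _ t23320.2.2.2.2.2.1⟩⟩, ⟨⟨H _ t23320.2.2.2.2.2.2.1, H _ t23320.2.2.2.2.2.2.2⟩, ⟨H _ t23328.1, ⟨H _ t23328.2.1, H _ t23328.2.2.1⟩⟩⟩⟩⟩⟩,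 ⟨⟨⟨⟨⟨H _ t23328.2.2.2.1, H _ t23328.2.2.2.2.1⟩, ⟨H _ t23328.2.2.2.2.2.1, H _ t23328.2.2.2.2.2.2.1⟩⟩, ⟨⟨H _ t23328.2.2.2.2.2.2.2, H _ t23336.1⟩, ⟨H _ t23336.2.1, ⟨H _ t23336.2.2.1, H _ t23336.2.2.2.1⟩⟩⟩⟩, ⟨⟨⟨H _ t23336.2.2.2.2.1, H _ t23336.2.2.2.2.2.1⟩, ⟨H _ t23336.2.2.2.2.2.2.1, H _ t23336.2.2.2.2.2.2.2⟩⟩, ⟨⟨H _ t23344.1, H _ t23344.2.1⟩, ⟨H _ t23344.2.2.1, ⟨H _ t23344.2.2.2.1, H _ t23344.2.2.2.2.1⟩⟩⟩⟩⟩, ⟨⟨⟨⟨H _ t23344.2.2.2.2.2.1, H _ t23344.2.2.2.2.2.2.1⟩, ⟨H _ t23344.2.2.2.2.2.2.2, H _ t23352.1⟩⟩, ⟨⟨H _ t23352.2.1, H _ t23352.2.2.1⟩, ⟨H _ t23352.2.2.2.1, ⟨H _ t23352.2.2.2.2.1, H _ t23352.2.2.2.2.2.1⟩⟩⟩⟩, ⟨⟨⟨H _ t23352.2.2.2.2.2.2.1, H _ t23352.2.2.2.2.2.2.2⟩, ⟨H _ t23360.1, H _ t23360.2.1⟩⟩, ⟨⟨H _ t23360.2.2.1, H _ t23360.2.2.2.1⟩, ⟨H _ t23360.2.2.2.2.1, ⟨H _ t23360.2.2.2.2.2.1, H _ t23360.2.2.2.2.2.2.1⟩⟩⟩⟩⟩⟩⟩⟩, ⟨⟨⟨⟨⟨⟨⟨H _ t23360.2.2.2.2.2.2.2, H _ t23368.1⟩, ⟨H _ t23368.2.1, H _ t23368.2.2.1⟩⟩,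 ⟨⟨H _ t23368.2.2.2.1, H _ t23368.2.2.2.2.1⟩, ⟨H _ t23368.2.2.2.2.2.1, H _ t23368.2.2.2.2.2.2.1⟩⟩⟩, ⟨⟨⟨H _ t23368.2.2.2.2.2.2.2, H _ t23376.1⟩, ⟨H _ t23376.2.1, H _ t23376.2.2.1⟩⟩, ⟨⟨H _ t23376.2.2.2.1, H _ t23376.2.2.2.2.1⟩, ⟨H _ t23376.2.2.2.2.2.1, ⟨H _ t23376.2.2.2.2.2.2.1, H _ t23376.2.2.2.2.2.2.2⟩⟩⟩⟩⟩, ⟨⟨⟨⟨H _ t23384.1, H _ t23384.2.1⟩, ⟨H _ t23384.2.2.1, H _ t23384.2.2.2.1⟩⟩, ⟨⟨H _ t23384.2.2.2.2.1, H _ t23384.2.2.2.2.2.1⟩, ⟨H _ t23384.2.2.2.2.2.2.1, ⟨H _ t23384.2.2.2.2.2.2.2, H _ t23392.1⟩⟩⟩⟩, ⟨⟨⟨H _ t23392.2.1, H _ t23392.2.2.1⟩, ⟨H _ t23392.2.2.2.1, H _ t23392.2.2.2.2.1⟩⟩, ⟨⟨H _ t23392.2.2.2.2.2.1, H _ t23392.2.2.2.2.2.2.1⟩, ⟨H _ t23392.2.2.2.2.2.2.2, ⟨H _ t23400.1, H _ t23400.2.1⟩⟩⟩⟩⟩⟩, ⟨⟨⟨⟨⟨H _ t23400.2.2.1, H _ t23400.2.2.2.1⟩, ⟨H _ t23400.2.2.2.2.1, H _ t23400.2.2.2.2.2.1⟩⟩, ⟨⟨H _ t23400.2.2.2.2.2.2.1, H _ t23400.2.2.2.2.2.2.2⟩, ⟨H _ t23408.1, H _ t23408.2.1⟩⟩⟩, ⟨⟨⟨H _ t23408.2.2.1,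 H _ t23408.2.2.2.1⟩, ⟨H _ t23408.2.2.2.2.1, H _ t23408.2.2.2.2.2.1⟩⟩, ⟨⟨H _ t23408.2.2.2.2.2.2.1, H _ t23408.2.2.2.2.2.2.2⟩, ⟨H _ t23416.1, ⟨H _ t23416.2.1, H _ t23416.2.2.1⟩⟩⟩⟩⟩, ⟨⟨⟨⟨H _ t23416.2.2.2.1, H _ t23416.2.2.2.2.1⟩, ⟨H _ t23416.2.2.2.2.2.1, H _ t23416.2.2.2.2.2.2.1⟩⟩, ⟨⟨H _ t23416.2.2.2.2.2.2.2, H _ t23424.1⟩, ⟨H _ t23424.2.1, ⟨H _ t23424.2.2.1, H _ t23424.2.2.2.1⟩⟩⟩⟩, ⟨⟨⟨H _ t23424.2.2.2.2.1, H _ t23424.2.2.2.2.2.1⟩, ⟨H _ t23424.2.2.2.2.2.2.1, H _ t23424.2.2.2.2.2.2.2⟩⟩, ⟨⟨H _ t23432.1, H _ t23432.2.1⟩, ⟨H _ t23432.2.2.1, ⟨H _ t23432.2.2.2.1, H _ t23432.2.2.2.2.1⟩⟩⟩⟩⟩⟩⟩, ⟨⟨⟨⟨⟨⟨H _ t23432.2.2.2.2.2.1, H _ t23432.2.2.2.2.2.2.1⟩, ⟨H _ t23432.2.2.2.2.2.2.2, H _ t23440.1⟩⟩, ⟨⟨H _ t23440.2.1, H _ t23440.2.2.1⟩, ⟨H _ t23440.2.2.2.1, H _ t23440.2.2.2.2.1⟩⟩⟩, ⟨⟨⟨H _ t23440.2.2.2.2.2.1, H _ t23440.2.2.2.2.2.2.1⟩, ⟨H _ t23440.2.2.2.2.2.2.2, H _ t23448.1⟩⟩, ⟨⟨H _ t23448.2.1, H _ t23448.2.2.1⟩,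 ⟨H _ t23448.2.2.2.1, ⟨H _ t23448.2.2.2.2.1, H _ t23448.2.2.2.2.2.1⟩⟩⟩⟩⟩, ⟨⟨⟨⟨H _ t23448.2.2.2.2.2.2.1, H _ t23448.2.2.2.2.2.2.2⟩, ⟨H _ t23456.1, H _ t23456.2.1⟩⟩, ⟨⟨H _ t23456.2.2.1, H _ t23456.2.2.2.1⟩, ⟨H _ t23456.2.2.2.2.1, ⟨H _ t23456.2.2.2.2.2.1, H _ t23456.2.2.2.2.2.2.1⟩⟩⟩⟩, ⟨⟨⟨H _ t23456.2.2.2.2.2.2.2, H _ t23464.1⟩, ⟨H _ t23464.2.1, H _ t23464.2.2.1⟩⟩, ⟨⟨H _ t23464.2.2.2.1, H _ t23464.2.2.2.2.1⟩, ⟨H _ t23464.2.2.2.2.2.1, ⟨H _ t23464.2.2.2.2.2.2.1, H _ t23464.2.2.2.2.2.2.2⟩⟩⟩⟩⟩⟩, ⟨⟨⟨⟨⟨H _ t23472.1, H _ t23472.2.1⟩, ⟨H _ t23472.2.2.1, H _ t23472.2.2.2.1⟩⟩, ⟨⟨H _ t23472.2.2.2.2.1, H _ t23472.2.2.2.2.2.1⟩, ⟨H _ t23472.2.2.2.2.2.2.1, ⟨H _ t23472.2.2.2.2.2.2.2, H _ t23480.1⟩⟩⟩⟩, ⟨⟨⟨H _ t23480.2.1, H _ t23480.2.2.1⟩, ⟨H _ t23480.2.2.2.1, H _ t23480.2.2.2.2.1⟩⟩, ⟨⟨H _ t23480.2.2.2.2.2.1, H _ t23480.2.2.2.2.2.2.1⟩, ⟨H _ t23480.2.2.2.2.2.2.2, ⟨H _ t23488.1, H _ t23488.2.1⟩⟩⟩⟩⟩, ⟨⟨⟨⟨H _ t23488.2.2.1,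 H _ t23488.2.2.2.1⟩, ⟨H _ t23488.2.2.2.2.1, H _ t23488.2.2.2.2.2.1⟩⟩, ⟨⟨H _ t23488.2.2.2.2.2.2.1, H _ t23488.2.2.2.2.2.2.2⟩, ⟨H _ t23496.1, ⟨H _ t23496.2.1, H _ t23496.2.2.1⟩⟩⟩⟩, ⟨⟨⟨H _ t23496.2.2.2.1, H _ t23496.2.2.2.2.1⟩, ⟨H _ t23496.2.2.2.2.2.1, H _ t23496.2.2.2.2.2.2.1⟩⟩, ⟨⟨H _ t23496.2.2.2.2.2.2.2, H _ t23504.1⟩, ⟨H _ t23504.2.1, ⟨H _ t23504.2.2.1, H _ t23504.2.2.2⟩⟩⟩⟩⟩⟩⟩⟩⟩⟩

end Pool.Agent.MP_c853c5_nt.X.C4950
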