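import Pool.Agent.MP_c853c5_nt.X.C4950.Env
import Pool.Agent.MP_c853c5_nt.X.C4950.D8

set_option autoImplicit false
set_option maxRecDepth 8192
set_option linter.all false

namespace Pool.Agent.MP_c853c5_nt.X.C4950

open Pool.Agent.MP_c853c5_nt.X

def t23508 : allY (E.wth (lkp [])) l23508 = true ∧
    allY (E.wth (lkp [])) l23509 = true ∧
    allY (E.wth (lkp [])) l23510 = true ∧
    allY (E.wth (lkp [])) l23511 = true ∧
    allY (E.wth (lkp [])) l23512 = true ∧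
    allY (E.wth (lkp [])) l23513 = true ∧
    allY (E.wth (lkp [])) l23514 = true ∧
    allY (E.wth (lkp [])) l23515 = true :=
  ⟨by decide +kernel, by decide +kernel, by decide +kernel, by decide +kernel, by decide +kernel, by decide +kernel, by decide +kernel, by decide +kernel⟩

def t23516 : allY (E.wth (lkp [])) l23516 = true ∧
    allY (E.wth (lkp [])) l23517 = true ∧
    allY (E.wth (lkp [])) l23518 = true ∧
    allY (E.wth (lkp [])) l23519 = true ∧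
    allY (E.wth (lkp [])) l23520 = true ∧
    allY (E.wth (lkp [])) l23521 = true ∧
    allY (E.wth (lkp [])) l23522 = true ∧
    allY (E.wth (lkp [])) l23523 = true :=
  ⟨by decide +kernel, by decide +kernel, by decide +kernel, by decide +kernel, by decide +kernel, by decide +kernel, by decide +kernel, by decide +kernel⟩

def t23524 : allY (E.wth (lkp [])) l23524 = true ∧
    allY (E.wth (lkp [])) l23525 = true ∧
    allY (E.wth (lkp [])) l23526 = true ∧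
    allY (E.wth (lkp [])) l23527 = true ∧
    allY (E.wth (lkp [])) l23528 = true ∧
    allY (E.wth (lkp [])) l23529 = true ∧
    allY (E.wth (lkp [])) l23530 = true ∧
    allY (E.wth (lkp [])) l23531 = true :=
  ⟨by decide +kernel, by decide +kernel, by decide +kernel, by decide +kernel, by decide +kernel, by decide +kernel, by decide +kernel, by decide +kernel⟩

def t23532 : allY (E.wth (lkp [])) l23532 = true ∧
    allY (E.wth (lkp [])) l23533 = true ∧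
    allY (E.wth (lkp [])) l23534 = true ∧
    allY (E.wth (lkp [])) l23535 = true ∧
    allY (E.wth (lkp [])) l23536 = true ∧
    allY (E.wth (lkp [])) l23537 = true ∧
    allY (E.wth (lkp [])) l23538 = true ∧
    allY (E.wth (lkp [])) l23539 = true :=
  ⟨by decide +kernel, by decide +kernel, by decide +kernel, by decide +kernel, by decide +kernel, by decide +kernel, by decide +kernel, by decide +kernel⟩

def t23540 : allY (E.wth (lkp [])) l23540 = true ∧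
    allY (E.wth (lkp [])) l23541 = true ∧
    allY (E.wth (lkp [])) l23542 = true ∧
    allY (E.wth (lkp [])) l23543 = true ∧
    allY (E.wth (lkp [])) l23544 = true ∧
    allY (E.wth (lkp [])) l23545 = true ∧
    allY (E.wth (lkp [])) l23546 = true ∧
    allY (E.wth (lkp [])) l23547 = true :=
  ⟨by decide +kernel, by decide +kernel, by decide +kernel, by decide +kernel, by decide +kernel, by decide +kernel, by decide +kernel, by decide +kernel⟩

def t23548 : allY (E.wth (lkp [])) l23548 = true ∧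
    allY (E.wth (lkp [])) l23549 = true ∧
    allY (E.wth (lkp [])) l23550 = true ∧
    allY (E.wth (lkp [])) l23551 = true ∧
    allY (E.wth (lkp [])) l23552 = true ∧
    allY (E.wth (lkp [])) l23553 = true ∧
    allY (E.wth (lkp [])) l23554 = true ∧
    allY (E.wth (lkp [])) l23555 = true :=
  ⟨by decide +kernel, by decide +kernel, by decide +kernel, by decide +kernel, by decide +kernel, by decide +kernel, by decide +kernel, by decide +kernel⟩

def t23556 : allY (E.wth (lkp [])) l23556 = true ∧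
    allY (E.wth (lkp [])) l23557 = true ∧
    allY (E.wth (lkp [])) l23558 = true ∧
    allY (E.wth (lkp [])) l23559 = true ∧
    allY (E.wth (lkp [])) l23560 = true ∧
    allY (E.wth (lkp [])) l23561 = true ∧
    allY (E.wth (lkp [])) l23562 = true ∧
    allY (E.wth (lkp [])) l23563 = true :=
  ⟨by decide +kernel, by decide +kernel, by decide +kernel, by decide +kernel, by decide +kernel, by decide +kernel, by decide +kernel, by decide +kernel⟩

def t23564 : allY (E.wth (lkp [])) l23564 = true ∧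
    allY (E.wth (lkp [])) l23565 = true ∧
    allY (E.wth (lkp [])) l23566 = true ∧
    allY (E.wth (lkp [])) l23567 = true ∧
    allY (E.wth (lkp [])) l23568 = true ∧
    allY (E.wth (lkp [])) l23569 = true ∧
    allY (E.wth (lkp [])) l23570 = true ∧
    allY (E.wth (lkp [])) l23571 = true :=
  ⟨by decide +kernel, by decide +kernel, by decide +kernel, by decide +kernel, by decide +kernel, by decide +kernel, by decide +kernel, by decide +kernel⟩

def t23572 : allY (E.wth (lkp [])) l23572 = true ∧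
    allY (E.wth (lkp [])) l23573 = true ∧
    allY (E.wth (lkp [])) l23574 = true ∧
    allY (E.wth (lkp [])) l23575 = true ∧
    allY (E.wth (lkp [])) l23576 = true ∧
    allY (E.wth (lkp [])) l23577 = true ∧
    allY (E.wth (lkp [])) l23578 = true ∧
    allY (E.wth (lkp [])) l23579 = true :=
  ⟨by decide +kernel, by decide +kernel, by decide +kernel, by decide +kernel, by decide +kernel, by decide +kernel, by decide +kernel, by decide +kernel⟩

def t23580 : allY (E.wth (lkp [])) l23580 = true ∧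
    allY (E.wth (lkp [])) l23581 = true ∧
    allY (E.wth (lkp [])) l23582 = true ∧
    allY (E.wth (lkp [])) l23583 = true ∧
    allY (E.wth (lkp [])) l23584 = true ∧
    allY (E.wth (lkp [])) l23585 = true ∧
    allY (E.wth (lkp [])) l23586 = true ∧
    allY (E.wth (lkp [])) l23587 = true :=
  ⟨by decide +kernel, by decide +kernel, by decide +kernel, by decide +kernel, by decide +kernel, by decide +kernel, by decide +kernel, by decide +kernel⟩

def t23588 : allY (E.wth (lkp [])) l23588 = true ∧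
    allY (E.wth (lkp [])) l23589 = true ∧
    allY (E.wth (lkp [])) l23590 = true ∧
    allY (E.wth (lkp [])) l23591 = true ∧
    allY (E.wth (lkp [])) l23592 = true ∧
    allY (E.wth (lkp [])) l23593 = true ∧
    allY (E.wth (lkp [])) l23594 = true ∧
    allY (E.wth (lkp [])) l23595 = true :=
  ⟨by decide +kernel, by decide +kernel, by decide +kernel, by decide +kernel, by decide +kernel, by decide +kernel, by decide +kernel, by decide +kernel⟩

def t23596 : allY (E.wth (lkp [])) l23596 = true ∧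
    allY (E.wth (lkp [])) l23597 = true ∧
    allY (E.wth (lkp [])) l23598 = true ∧
    allY (E.wth (lkp [])) l23599 = true ∧
    allY (E.wth (lkp [])) l23600 = true ∧
    allY (E.wth (lkp [])) l23601 = true ∧
    allY (E.wth (lkp [])) l23602 = true ∧
    allY (E.wth (lkp [])) l23603 = true :=
  ⟨by decide +kernel, by decide +kernel, by decide +kernel, by decide +kernel, by decide +kernel, by decide +kernel, by decide +kernel, by decide +kernel⟩

def t23604 : allY (E.wth (lkp [])) l23604 = true ∧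
    allY (E.wth (lkp [])) l23605 = true ∧
    allY (E.wth (lkp [])) l23606 = true ∧
    allY (E.wth (lkp [])) l23607 = true ∧
    allY (E.wth (lkp [])) l23608 = true ∧
    allY (E.wth (lkp [])) l23609 = true ∧
    allY (E.wth (lkp [])) l23610 = true ∧
    allY (E.wth (lkp [])) l23611 = true :=
  ⟨by decide +kernel, by decide +kernel, by decide +kernel, by decide +kernel, by decide +kernel, by decide +kernel, by decide +kernel, by decide +kernel⟩

def t23612 : allY (E.wth (lkp [])) l23612 = true ∧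
    allY (E.wth (lkp [])) l23613 = true ∧
    allY (E.wth (lkp [])) l23614 = true ∧
    allY (E.wth (lkp [])) l23615 = true ∧
    allY (E.wth (lkp [])) l23616 = true ∧
    allY (E.wth (lkp [])) l23617 = true ∧
    allY (E.wth (lkp [])) l23618 = true ∧
    allY (E.wth (lkp [])) l23619 = true :=
  ⟨by decide +kernel, by decide +kernel, by decide +kernel, by decide +kernel, by decide +kernel, by decide +kernel, by decide +kernel, by decide +kernel⟩

def t23620 : allY (E.wth (lkp [])) l23620 = true ∧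
    allY (E.wth (lkp [])) l23621 = true ∧
    allY (E.wth (lkp [])) l23622 = true ∧
    allY (E.wth (lkp [])) l23623 = true ∧
    allY (E.wth (lkp [])) l23624 = true ∧
    allY (E.wth (lkp [])) l23625 = true ∧
    allY (E.wth (lkp [])) l23626 = true ∧
    allY (E.wth (lkp [])) l23627 = true :=
  ⟨by decide +kernel, by decide +kernel, by decide +kernel, by decide +kernel, by decide +kernel, by decide +kernel, by decide +kernel, by decide +kernel⟩

def t23628 : allY (E.wth (lkp [])) l23628 = true ∧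
    allY (E.wth (lkp [])) l23629 = true ∧
    allY (E.wth (lkp [])) l23630 = true ∧
    allY (E.wth (lkp [])) l23631 = true ∧
    allY (E.wth (lkp [])) l23632 = true ∧
    allY (E.wth (lkp [])) l23633 = true ∧
    allY (E.wth (lkp [])) l23634 = true ∧
    allY (E.wth (lkp [])) l23635 = true :=
  ⟨by decide +kernel, by decide +kernel, by decide +kernel, by decide +kernel, by decide +kernel, by decide +kernel, by decide +kernel, by decide +kernel⟩

def t23636 : allY (E.wth (lkp [])) l23636 = true ∧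
    allY (E.wth (lkp [])) l23637 = true ∧
    allY (E.wth (lkp [])) l23638 = true ∧
    allY (E.wth (lkp [])) l23639 = true ∧
    allY (E.wth (lkp [])) l23640 = true ∧
    allY (E.wth (lkp [])) l23641 = true ∧
    allY (E.wth (lkp [])) l23642 = true ∧
    allY (E.wth (lkp [])) l23643 = true :=
  ⟨by decide +kernel, by decide +kernel, by decide +kernel, by decide +kernel, by decide +kernel, by decide +kernel, by decide +kernel, by decide +kernel⟩

def t23644 : allY (E.wth (lkp [])) l23644 = true ∧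
    allY (E.wth (lkp [])) l23645 = true ∧
    allY (E.wth (lkp [])) l23646 = true ∧
    allY (E.wth (lkp [])) l23647 = true ∧
    allY (E.wth (lkp [])) l23648 = true ∧
    allY (E.wth (lkp [])) l23649 = true ∧
    allY (E.wth (lkp [])) l23650 = true ∧
    allY (E.wth (lkp [])) l23651 = true :=
  ⟨by decide +kernel, by decide +kernel, by decide +kernel, by decide +kernel, by decide +kernel, by decide +kernel, by decide +kernel, by decide +kernel⟩

def t23652 : allY (E.wth (lkp [])) l23652 = true ∧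
    allY (E.wth (lkp [])) l23653 = true ∧
    allY (E.wth (lkp [])) l23654 = true ∧
    allY (E.wth (lkp [])) l23655 = true ∧
    allY (E.wth (lkp [])) l23656 = true ∧
    allY (E.wth (lkp [])) l23657 = true ∧
    allY (E.wth (lkp [])) l23658 = true ∧
    allY (E.wth (lkp [])) l23659 = true :=
  ⟨by decide +kernel, by decide +kernel, by decide +kernel, by decide +kernel, by decide +kernel, by decide +kernel, by decide +kernel, by decide +kernel⟩

def t23660 : allY (E.wth (lkp [])) l23660 = true ∧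
    allY (E.wth (lkp [])) l23661 = true ∧
    allY (E.wth (lkp [])) l23662 = true ∧
    allY (E.wth (lkp [])) l23663 = true ∧
    allY (E.wth (lkp [])) l23664 = true ∧
    allY (E.wth (lkp [])) l23665 = true ∧
    allY (E.wth (lkp [])) l23666 = true ∧
    allY (E.wth (lkp [])) l23667 = true :=
  ⟨by decide +kernel, by decide +kernel, by decide +kernel, by decide +kernel, by decide +kernel, by decide +kernel, by decide +kernel, by decide +kernel⟩

def t23668 : allY (E.wth (lkp [])) l23668 = true ∧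
    allY (E.wth (lkp [])) l23669 = true ∧
    allY (E.wth (lkp [])) l23670 = true ∧
    allY (E.wth (lkp [])) l23671 = true ∧
    allY (E.wth (lkp [])) l23672 = true ∧
    allY (E.wth (lkp [])) l23673 = true ∧
    allY (E.wth (lkp [])) l23674 = true ∧
    allY (E.wth (lkp [])) l23675 = true :=
  ⟨by decide +kernel, by decide +kernel, by decide +kernel, by decide +kernel, by decide +kernel, by decide +kernel, by decide +kernel, by decide +kernel⟩

def t23676 : allY (E.wth (lkp [])) l23676 = true ∧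
    allY (E.wth (lkp [])) l23677 = true ∧
    allY (E.wth (lkp [])) l23678 = true ∧
    allY (E.wth (lkp [])) l23679 = true ∧
    allY (E.wth (lkp [])) l23680 = true ∧
    allY (E.wth (lkp [])) l23681 = true ∧
    allY (E.wth (lkp [])) l23682 = true ∧
    allY (E.wth (lkp [])) l23683 = true :=
  ⟨by decide +kernel, by decide +kernel, by decide +kernel, by decide +kernel, by decide +kernel, by decide +kernel, by decide +kernel, by decide +kernel⟩

def t23684 : allY (E.wth (lkp [])) l23684 = true ∧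
    allY (E.wth (lkp [])) l23685 = true ∧
    allY (E.wth (lkp [])) l23686 = true ∧
    allY (E.wth (lkp [])) l23687 = true ∧
    allY (E.wth (lkp [])) l23688 = true ∧
    allY (E.wth (lkp [])) l23689 = true ∧
    allY (E.wth (lkp [])) l23690 = true ∧
    allY (E.wth (lkp [])) l23691 = true :=
  ⟨by decide +kernel, by decide +kernel, by decide +kernel, by decide +kernel, by decide +kernel, by decide +kernel, by decide +kernel, by decide +kernel⟩

def t23692 : allY (E.wth (lkp [])) l23692 = true ∧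
    allY (E.wth (lkp [])) l23693 = true ∧
    allY (E.wth (lkp [])) l23694 = true ∧
    allY (E.wth (lkp [])) l23695 = true ∧
    allY (E.wth (lkp [])) l23696 = true ∧
    allY (E.wth (lkp [])) l23697 = true ∧
    allY (E.wth (lkp [])) l23698 = true ∧
    allY (E.wth (lkp [])) l23699 = true :=
  ⟨by decide +kernel, by decide +kernel, by decide +kernel, by decide +kernel, by decide +kernel, by decide +kernel, by decide +kernel, by decide +kernel⟩

def t23700 : allY (E.wth (lkp [])) l23700 = true ∧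
    allY (E.wth (lkp [])) l23701 = true ∧
    allY (E.wth (lkp [])) l23702 = true ∧
    allY (E.wth (lkp [])) l23703 = true ∧
    allY (E.wth (lkp [])) l23704 = true ∧
    allY (E.wth (lkp [])) l23705 = true ∧
    allY (E.wth (lkp [])) l23706 = true ∧
    allY (E.wth (lkp [])) l23707 = true :=
  ⟨by decide +kernel, by decide +kernel, by decide +kernel, by decide +kernel, by decide +kernel, by decide +kernel, by decide +kernel, by decide +kernel⟩

def t23708 : allY (E.wth (lkp [])) l23708 = true ∧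
    allY (E.wth (lkp [])) l23709 = true ∧
    allY (E.wth (lkp [])) l23710 = true ∧
    allY (E.wth (lkp [])) l23711 = true ∧
    allY (E.wth (lkp [])) l23712 = true ∧
    allY (E.wth (lkp [])) l23713 = true ∧
    allY (E.wth (lkp [])) l23714 = true ∧
    allY (E.wth (lkp [])) l23715 = true :=
  ⟨by decide +kernel, by decide +kernel, by decide +kernel, by decide +kernel, by decide +kernel, by decide +kernel, by decide +kernel, by decide +kernel⟩

def t23716 : allY (E.wth (lkp [])) l23716 = true ∧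
    allY (E.wth (lkp [])) l23717 = true ∧
    allY (E.wth (lkp [])) l23718 = true ∧
    allY (E.wth (lkp [])) l23719 = true ∧
    allY (E.wth (lkp [])) l23720 = true ∧
    allY (E.wth (lkp [])) l23721 = true ∧
    allY (E.wth (lkp [])) l23722 = true ∧
    allY (E.wth (lkp [])) l23723 = true :=
  ⟨by decide +kernel, by decide +kernel, by decide +kernel, by decide +kernel, by decide +kernel, by decide +kernel, by decide +kernel, by decide +kernel⟩

def t23724 : allY (E.wth (lkp [])) l23724 = true ∧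
    allY (E.wth (lkp [])) l23725 = true ∧
    allY (E.wth (lkp [])) l23726 = true ∧
    allY (E.wth (lkp [])) l23727 = true ∧
    allY (E.wth (lkp [])) l23728 = true ∧
    allY (E.wth (lkp [])) l23729 = true ∧
    allY (E.wth (lkp [])) l23730 = true ∧
    allY (E.wth (lkp [])) l23731 = true :=
  ⟨by decide +kernel, by decide +kernel, by decide +kernel, by decide +kernel, by decide +kernel, by decide +kernel, by decide +kernel, by decide +kernel⟩

def t23732 : allY (E.wth (lkp [])) l23732 = true ∧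
    allY (E.wth (lkp [])) l23733 = true ∧
    allY (E.wth (lkp [])) l23734 = true ∧
    allY (E.wth (lkp [])) l23735 = true ∧
    allY (E.wth (lkp [])) l23736 = true ∧
    allY (E.wth (lkp [])) l23737 = true ∧
    allY (E.wth (lkp [])) l23738 = true ∧
    allY (E.wth (lkp [])) l23739 = true :=
  ⟨by decide +kernel, by decide +kernel, by decide +kernel, by decide +kernel, by decide +kernel, by decide +kernel, by decide +kernel, by decide +kernel⟩

def t23740 : allY (E.wth (lkp [])) l23740 = true ∧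
    allY (E.wth (lkp [])) l23741 = true ∧
    allY (E.wth (lkp [])) l23742 = true ∧
    allY (E.wth (lkp [])) l23743 = true ∧
    allY (E.wth (lkp [])) l23744 = true ∧
    allY (E.wth (lkp [])) l23745 = true ∧
    allY (E.wth (lkp [])) l23746 = true ∧
    allY (E.wth (lkp [])) l23747 = true :=
  ⟨by decide +kernel, by decide +kernel, by decide +kernel, by decide +kernel, by decide +kernel, by decide +kernel, by decide +kernel, by decide +kernel⟩

def t23748 : allY (E.wth (lkp [])) l23748 = true ∧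
    allY (E.wth (lkp [])) l23749 = true ∧
    allY (E.wth (lkp [])) l23750 = true ∧
    allY (E.wth (lkp [])) l23751 = true ∧
    allY (E.wth (lkp [])) l23752 = true ∧
    allY (E.wth (lkp [])) l23753 = true ∧
    allY (E.wth (lkp [])) l23754 = true ∧
    allY (E.wth (lkp [])) l23755 = true :=
  ⟨by decide +kernel, by decide +kernel, by decide +kernel, by decide +kernel, by decide +kernel, by decide +kernel, by decide +kernel, by decide +kernel⟩

def t23756 : allY (E.wth (lkp [])) l23756 = true ∧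
    allY (E.wth (lkp [])) l23757 = true ∧
    allY (E.wth (lkp [])) l23758 = true ∧
    allY (E.wth (lkp [])) l23759 = true ∧
    allY (E.wth (lkp [])) l23760 = true ∧
    allY (E.wth (lkp [])) l23761 = true ∧
    allY (E.wth (lkp [])) l23762 = true ∧
    allY (E.wth (lkp [])) l23763 = true :=
  ⟨by decide +kernel, by decide +kernel, by decide +kernel, by decide +kernel, by decide +kernel, by decide +kernel, by decide +kernel, by decide +kernel⟩

def t23764 : allY (E.wth (lkp [])) l23764 = true ∧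
    allY (E.wth (lkp [])) l23765 = true ∧
    allY (E.wth (lkp [])) l23766 = true ∧
    allY (E.wth (lkp [])) l23767 = true ∧
    allY (E.wth (lkp [])) l23768 = true ∧
    allY (E.wth (lkp [])) l23769 = true ∧
    allY (E.wth (lkp [])) l23770 = true ∧
    allY (E.wth (lkp [])) l23771 = true :=
  ⟨by decide +kernel, by decide +kernel, by decide +kernel, by decide +kernel, by decide +kernel, by decide +kernel, by decide +kernel, by decide +kernel⟩

def t23772 : allY (E.wth (lkp [])) l23772 = true ∧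
    allY (E.wth (lkp [])) l23773 = true ∧
    allY (E.wth (lkp [])) l23774 = true ∧
    allY (E.wth (lkp [])) l23775 = true ∧
    allY (E.wth (lkp [])) l23776 = true ∧
    allY (E.wth (lkp [])) l23777 = true ∧
    allY (E.wth (lkp [])) l23778 = true ∧
    allY (E.wth (lkp [])) l23779 = true :=
  ⟨by decide +kernel, by decide +kernel, by decide +kernel, by decide +kernel, by decide +kernel, by decide +kernel, by decide +kernel, by decide +kernel⟩

def t23780 : allY (E.wth (lkp [])) l23780 = true ∧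
    allY (E.wth (lkp [])) l23781 = true ∧
    allY (E.wth (lkp [])) l23782 = true ∧
    allY (E.wth (lkp [])) l23783 = true ∧
    allY (E.wth (lkp [])) l23784 = true ∧
    allY (E.wth (lkp [])) l23785 = true ∧
    allY (E.wth (lkp [])) l23786 = true ∧
    allY (E.wth (lkp [])) l23787 = true :=
  ⟨by decide +kernel, by decide +kernel, by decide +kernel, by decide +kernel, by decide +kernel, by decide +kernel, by decide +kernel, by decide +kernel⟩

def t23788 : allY (E.wth (lkp [])) l23788 = true ∧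
    allY (E.wth (lkp [])) l23789 = true ∧
    allY (E.wth (lkp [])) l23790 = true ∧
    allY (E.wth (lkp [])) l23791 = true ∧
    allY (E.wth (lkp [])) l23792 = true ∧
    allY (E.wth (lkp [])) l23793 = true ∧
    allY (E.wth (lkp [])) l23794 = true ∧
    allY (E.wth (lkp [])) l23795 = true :=
  ⟨by decide +kernel, by decide +kernel, by decide +kernel, by decide +kernel, by decide +kernel, by decide +kernel, by decide +kernel, by decide +kernel⟩

def t23796 : allY (E.wth (lkp [])) l23796 = true ∧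
    allY (E.wth (lkp [])) l23797 = true ∧
    allY (E.wth (lkp [])) l23798 = true ∧
    allY (E.wth (lkp [])) l23799 = true ∧
    allY (E.wth (lkp [])) l23800 = true ∧
    allY (E.wth (lkp [])) l23801 = true ∧
    allY (E.wth (lkp [])) l23802 = true ∧
    allY (E.wth (lkp [])) l23803 = true :=
  ⟨by decide +kernel, by decide +kernel, by decide +kernel, by decide +kernel, by decide +kernel, by decide +kernel, by decide +kernel, by decide +kernel⟩

def t23804 : allY (E.wth (lkp [])) l23804 = true ∧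
    allY (E.wth (lkp [])) l23805 = true ∧
    allY (E.wth (lkp [])) l23806 = true ∧
    allY (E.wth (lkp [])) l23807 = true ∧
    allY (E.wth (lkp [])) l23808 = true ∧
    allY (E.wth (lkp [])) l23809 = true ∧
    allY (E.wth (lkp [])) l23810 = true ∧
    allY (E.wth (lkp [])) l23811 = true :=
  ⟨by decide +kernel, by decide +kernel, by decide +kernel, by decide +kernel, by decide +kernel, by decide +kernel, by decide +kernel, by decide +kernel⟩

def t23812 : allY (E.wth (lkp [])) l23812 = true ∧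
    allY (E.wth (lkp [])) l23813 = true ∧
    allY (E.wth (lkp [])) l23814 = true ∧
    allY (E.wth (lkp [])) l23815 = true ∧
    allY (E.wth (lkp [])) l23816 = true ∧
    allY (E.wth (lkp [])) l23817 = true ∧
    allY (E.wth (lkp [])) l23818 = true ∧
    allY (E.wth (lkp [])) l23819 = true :=
  ⟨by decide +kernel, by decide +kernel, by decide +kernel, by decide +kernel, by decide +kernel, by decide +kernel, by decide +kernel, by decide +kernel⟩

def t23820 : allY (E.wth (lkp [])) l23820 = true ∧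
    allY (E.wth (lkp [])) l23821 = true ∧
    allY (E.wth (lkp [])) l23822 = true ∧
    allY (E.wth (lkp [])) l23823 = true ∧
    allY (E.wth (lkp [])) l23824 = true ∧
    allY (E.wth (lkp [])) l23825 = true ∧
    allY (E.wth (lkp [])) l23826 = true ∧
    allY (E.wth (lkp [])) l23827 = true :=
  ⟨by decide +kernel, by decide +kernel, by decide +kernel, by decide +kernel, by decide +kernel, by decide +kernel, by decide +kernel, by decide +kernel⟩

def t23828 : allY (E.wth (lkp [])) l23828 = true ∧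
    allY (E.wth (lkp [])) l23829 = true ∧
    allY (E.wth (lkp [])) l23830 = true ∧
    allY (E.wth (lkp [])) l23831 = true ∧
    allY (E.wth (lkp [])) l23832 = true ∧
    allY (E.wth (lkp [])) l23833 = true ∧
    allY (E.wth (lkp [])) l23834 = true ∧
    allY (E.wth (lkp [])) l23835 = true :=
  ⟨by decide +kernel, by decide +kernel, by decide +kernel, by decide +kernel, by decide +kernel, by decide +kernel, by decide +kernel, by decide +kernel⟩

def t23836 : allY (E.wth (lkp [])) l23836 = true ∧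
    allY (E.wth (lkp [])) l23837 = true ∧
    allY (E.wth (lkp [])) l23838 = true ∧
    allY (E.wth (lkp [])) l23839 = true ∧
    allY (E.wth (lkp [])) l23840 = true ∧
    allY (E.wth (lkp [])) l23841 = true ∧
    allY (E.wth (lkp [])) l23842 = true ∧
    allY (E.wth (lkp [])) l23843 = true :=
  ⟨by decide +kernel, by decide +kernel, by decide +kernel, by decide +kernel, by decide +kernel, by decide +kernel, by decide +kernel, by decide +kernel⟩

def t23844 : allY (E.wth (lkp [])) l23844 = true ∧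
    allY (E.wth (lkp [])) l23845 = true ∧
    allY (E.wth (lkp [])) l23846 = true ∧
    allY (E.wth (lkp [])) l23847 = true ∧
    allY (E.wth (lkp [])) l23848 = true ∧
    allY (E.wth (lkp [])) l23849 = true ∧
    allY (E.wth (lkp [])) l23850 = true ∧
    allY (E.wth (lkp [])) l23851 = true :=
  ⟨by decide +kernel, by decide +kernel, by decide +kernel, by decide +kernel, by decide +kernel, by decide +kernel, by decide +kernel, by decide +kernel⟩

def t23852 : allY (E.wth (lkp [])) l23852 = true ∧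
    allY (E.wth (lkp [])) l23853 = true ∧
    allY (E.wth (lkp [])) l23854 = true ∧
    allY (E.wth (lkp [])) l23855 = true ∧
    allY (E.wth (lkp [])) l23856 = true ∧
    allY (E.wth (lkp [])) l23857 = true ∧
    allY (E.wth (lkp [])) l23858 = true ∧
    allY (E.wth (lkp [])) l23859 = true :=
  ⟨by decide +kernel, by decide +kernel, by decide +kernel, by decide +kernel, by decide +kernel, by decide +kernel, by decide +kernel, by decide +kernel⟩

def t23860 : allY (E.wth (lkp [])) l23860 = true ∧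
    allY (E.wth (lkp [])) l23861 = true ∧
    allY (E.wth (lkp [])) l23862 = true ∧
    allY (E.wth (lkp [])) l23863 = true ∧
    allY (E.wth (lkp [])) l23864 = true ∧
    allY (E.wth (lkp [])) l23865 = true ∧
    allY (E.wth (lkp [])) l23866 = true ∧
    allY (E.wth (lkp [])) l23867 = true :=
  ⟨by decide +kernel, by decide +kernel, by decide +kernel, by decide +kernel, by decide +kernel, by decide +kernel, by decide +kernel, by decide +kernel⟩

def t23868 : allY (E.wth (lkp [])) l23868 = true ∧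
    allY (E.wth (lkp [])) l23869 = true ∧
    allY (E.wth (lkp [])) l23870 = true ∧
    allY (E.wth (lkp [])) l23871 = true ∧
    allY (E.wth (lkp [])) l23872 = true ∧
    allY (E.wth (lkp [])) l23873 = true ∧
    allY (E.wth (lkp [])) l23874 = true ∧
    allY (E.wth (lkp [])) l23875 = true :=
  ⟨by decide +kernel, by decide +kernel, by decide +kernel, by decide +kernel, by decide +kernel, by decide +kernel, by decide +kernel, by decide +kernel⟩

def t23876 : allY (E.wth (lkp [])) l23876 = true ∧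
    allY (E.wth (lkp [])) l23877 = true ∧
    allY (E.wth (lkp [])) l23878 = true ∧
    allY (E.wth (lkp [])) l23879 = true ∧
    allY (E.wth (lkp [])) l23880 = true ∧
    allY (E.wth (lkp [])) l23881 = true ∧
    allY (E.wth (lkp [])) l23882 = true ∧
    allY (E.wth (lkp [])) l23883 = true :=
  ⟨by decide +kernel, by decide +kernel, by decide +kernel, by decide +kernel, by decide +kernel, by decide +kernel, by decide +kernel, by decide +kernel⟩

def t23884 : allY (E.wth (lkp [])) l23884 = true ∧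
    allY (E.wth (lkp [])) l23885 = true ∧
    allY (E.wth (lkp [])) l23886 = true ∧
    allY (E.wth (lkp [])) l23887 = true ∧
    allY (E.wth (lkp [])) l23888 = true ∧
    allY (E.wth (lkp [])) l23889 = true ∧
    allY (E.wth (lkp [])) l23890 = true ∧
    allY (E.wth (lkp [])) l23891 = true :=
  ⟨by decide +kernel, by decide +kernel, by decide +kernel, by decide +kernel, by decide +kernel, by decide +kernel, by decide +kernel, by decide +kernel⟩

def t23892 : allY (E.wth (lkp [])) l23892 = true ∧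
    allY (E.wth (lkp [])) l23893 = true ∧
    allY (E.wth (lkp [])) l23894 = true ∧
    allY (E.wth (lkp [])) l23895 = true ∧
    allY (E.wth (lkp [])) l23896 = true ∧
    allY (E.wth (lkp [])) l23897 = true ∧
    allY (E.wth (lkp [])) l23898 = true ∧
    allY (E.wth (lkp [])) l23899 = true :=
  ⟨by decide +kernel, by decide +kernel, by decide +kernel, by decide +kernel, by decide +kernel, by decide +kernel, by decide +kernel, by decide +kernel⟩

def t23900 : allY (E.wth (lkp [])) l23900 = true ∧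
    allY (E.wth (lkp [])) l23901 = true ∧
    allY (E.wth (lkp [])) l23902 = true ∧
    allY (E.wth (lkp [])) l23903 = true ∧
    allY (E.wth (lkp [])) l23904 = true ∧
    allY (E.wth (lkp [])) l23905 = true ∧
    allY (E.wth (lkp [])) l23906 = true ∧
    allY (E.wth (lkp [])) l23907 = true :=
  ⟨by decide +kernel, by decide +kernel, by decide +kernel, by decide +kernel, by decide +kernel, by decide +kernel, by decide +kernel, by decide +kernel⟩

def t23908 : allY (E.wth (lkp [])) l23908 = true ∧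
    allY (E.wth (lkp [])) l23909 = true ∧
    allY (E.wth (lkp [])) l23910 = true ∧
    allY (E.wth (lkp [])) l23911 = true ∧
    allY (E.wth (lkp [])) l23912 = true ∧
    allY (E.wth (lkp [])) l23913 = true ∧
    allY (E.wth (lkp [])) l23914 = true ∧
    allY (E.wth (lkp [])) l23915 = true :=
  ⟨by decide +kernel, by decide +kernel, by decide +kernel, by decide +kernel, by decide +kernel, by decide +kernel, by decide +kernel, by decide +kernel⟩

def t23916 : allY (E.wth (lkp [])) l23916 = true ∧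
    allY (E.wth (lkp [])) l23917 = true ∧
    allY (E.wth (lkp [])) l23918 = true ∧
    allY (E.wth (lkp [])) l23919 = true ∧
    allY (E.wth (lkp [])) l23920 = true ∧
    allY (E.wth (lkp [])) l23921 = true ∧
    allY (E.wth (lkp [])) l23922 = true ∧
    allY (E.wth (lkp [])) l23923 = true :=
  ⟨by decide +kernel, by decide +kernel, by decide +kernel, by decide +kernel, by decide +kernel, by decide +kernel, by decide +kernel, by decide +kernel⟩

def t23924 : allY (E.wth (lkp [])) l23924 = true ∧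
    allY (E.wth (lkp [])) l23925 = true ∧
    allY (E.wth (lkp [])) l23926 = true ∧
    allY (E.wth (lkp [])) l23927 = true ∧
    allY (E.wth (lkp [])) l23928 = true ∧
    allY (E.wth (lkp [])) l23929 = true ∧
    allY (E.wth (lkp [])) l23930 = true ∧
    allY (E.wth (lkp [])) l23931 = true :=
  ⟨by decide +kernel, by decide +kernel, by decide +kernel, by decide +kernel, by decide +kernel, by decide +kernel, by decide +kernel, by decide +kernel⟩

def t23932 : allY (E.wth (lkp [])) l23932 = true ∧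
    allY (E.wth (lkp [])) l23933 = true ∧
    allY (E.wth (lkp [])) l23934 = true ∧
    allY (E.wth (lkp [])) l23935 = true ∧
    allY (E.wth (lkp [])) l23936 = true ∧
    allY (E.wth (lkp [])) l23937 = true ∧
    allY (E.wth (lkp [])) l23938 = true ∧
    allY (E.wth (lkp [])) l23939 = true :=
  ⟨by decide +kernel, by decide +kernel, by decide +kernel, by decide +kernel, by decide +kernel, by decide +kernel, by decide +kernel, by decide +kernel⟩

def t23940 : allY (E.wth (lkp [])) l23940 = true ∧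
    allY (E.wth (lkp [])) l23941 = true ∧
    allY (E.wth (lkp [])) l23942 = true ∧
    allY (E.wth (lkp [])) l23943 = true ∧
    allY (E.wth (lkp [])) l23944 = true ∧
    allY (E.wth (lkp [])) l23945 = true ∧
    allY (E.wth (lkp [])) l23946 = true ∧
    allY (E.wth (lkp [])) l23947 = true :=
  ⟨by decide +kernel, by decide +kernel, by decide +kernel, by decide +kernel, by decide +kernel, by decide +kernel, by decide +kernel, by decide +kernel⟩

def t23948 : allY (E.wth (lkp [])) l23948 = true ∧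
    allY (E.wth (lkp [])) l23949 = true ∧
    allY (E.wth (lkp [])) l23950 = true ∧
    allY (E.wth (lkp [])) l23951 = true ∧
    allY (E.wth (lkp [])) l23952 = true ∧
    allY (E.wth (lkp [])) l23953 = true ∧
    allY (E.wth (lkp [])) l23954 = true ∧
    allY (E.wth (lkp [])) l23955 = true :=
  ⟨by decide +kernel, by decide +kernel, by decide +kernel, by decide +kernel, by decide +kernel, by decide +kernel, by decide +kernel, by decide +kernel⟩

def t23956 : allY (E.wth (lkp [])) l23956 = true ∧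
    allY (E.wth (lkp [])) l23957 = true ∧
    allY (E.wth (lkp [])) l23958 = true ∧
    allY (E.wth (lkp [])) l23959 = true ∧
    allY (E.wth (lkp [])) l23960 = true ∧
    allY (E.wth (lkp [])) l23961 = true ∧
    allY (E.wth (lkp [])) l23962 = true ∧
    allY (E.wth (lkp [])) l23963 = true :=
  ⟨by decide +kernel, by decide +kernel, by decide +kernel, by decide +kernel, by decide +kernel, by decide +kernel, by decide +kernel, by decide +kernel⟩

def t23964 : allY (E.wth (lkp [])) l23964 = true ∧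
    allY (E.wth (lkp [])) l23965 = true ∧
    allY (E.wth (lkp [])) l23966 = true ∧
    allY (E.wth (lkp [])) l23967 = true ∧
    allY (E.wth (lkp [])) l23968 = true ∧
    allY (E.wth (lkp [])) l23969 = true ∧
    allY (E.wth (lkp [])) l23970 = true ∧
    allY (E.wth (lkp [])) l23971 = true :=
  ⟨by decide +kernel, by decide +kernel, by decide +kernel, by decide +kernel, by decide +kernel, by decide +kernel, by decide +kernel, by decide +kernel⟩

def t23972 : allY (E.wth (lkp [])) l23972 = true ∧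
    allY (E.wth (lkp [])) l23973 = true ∧
    allY (E.wth (lkp [])) l23974 = true ∧
    allY (E.wth (lkp [])) l23975 = true ∧
    allY (E.wth (lkp [])) l23976 = true ∧
    allY (E.wth (lkp [])) l23977 = true ∧
    allY (E.wth (lkp [])) l23978 = true ∧
    allY (E.wth (lkp [])) l23979 = true :=
  ⟨by decide +kernel, by decide +kernel, by decide +kernel, by decide +kernel, by decide +kernel, by decide +kernel, by decide +kernel, by decide +kernel⟩

def t23980 : allY (E.wth (lkp [])) l23980 = true ∧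
    allY (E.wth (lkp [])) l23981 = true ∧
    allY (E.wth (lkp [])) l23982 = true ∧
    allY (E.wth (lkp [])) l23983 = true ∧
    allY (E.wth (lkp [])) l23984 = true ∧
    allY (E.wth (lkp [])) l23985 = true ∧
    allY (E.wth (lkp [])) l23986 = true ∧
    allY (E.wth (lkp [])) l23987 = true :=
  ⟨by decide +kernel, by decide +kernel, by decide +kernel, by decide +kernel, by decide +kernel, by decide +kernel, by decide +kernel, by decide +kernel⟩

def t23988 : allY (E.wth (lkp [])) l23988 = true ∧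
    allY (E.wth (lkp [])) l23989 = true ∧
    allY (E.wth (lkp [])) l23990 = true ∧
    allY (E.wth (lkp [])) l23991 = true ∧
    allY (E.wth (lkp [])) l23992 = true ∧
    allY (E.wth (lkp [])) l23993 = true ∧
    allY (E.wth (lkp [])) l23994 = true ∧
    allY (E.wth (lkp [])) l23995 = true :=
  ⟨by decide +kernel, by decide +kernel, by decide +kernel, by decide +kernel, by decide +kernel, by decide +kernel, by decide +kernel, by decide +kernel⟩

def t23996 : allY (E.wth (lkp [])) l23996 = true ∧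
    allY (E.wth (lkp [])) l23997 = true ∧
    allY (E.wth (lkp [])) l23998 = true ∧
    allY (E.wth (lkp [])) l23999 = true ∧
    allY (E.wth (lkp [])) l24000 = true ∧
    allY (E.wth (lkp [])) l24001 = true ∧
    allY (E.wth (lkp [])) l24002 = true ∧
    allY (E.wth (lkp [])) l24003 = true :=
  ⟨by decide +kernel, by decide +kernel, by decide +kernel, by decide +kernel, by decide +kernel, by decide +kernel, by decide +kernel, by decide +kernel⟩

def t24004 : allY (E.wth (lkp [])) l24004 = true ∧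
    allY (E.wth (lkp [])) l24005 = true ∧
    allY (E.wth (lkp [])) l24006 = true ∧
    allY (E.wth (lkp [])) l24007 = true ∧
    allY (E.wth (lkp [])) l24008 = true ∧
    allY (E.wth (lkp [])) l24009 = true ∧
    allY (E.wth (lkp [])) l24010 = true ∧
    allY (E.wth (lkp [])) l24011 = true :=
  ⟨by decide +kernel, by decide +kernel, by decide +kernel, by decide +kernel, by decide +kernel, by decide +kernel, by decide +kernel, by decide +kernel⟩

def t24012 : allY (E.wth (lkp [])) l24012 = true ∧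
    allY (E.wth (lkp [])) l24013 = true ∧
    allY (E.wth (lkp [])) l24014 = true ∧
    allY (E.wth (lkp [])) l24015 = true ∧
    allY (E.wth (lkp [])) l24016 = true ∧
    allY (E.wth (lkp [])) l24017 = true ∧
    allY (E.wth (lkp [])) l24018 = true ∧
    allY (E.wth (lkp [])) l24019 = true :=
  ⟨by decide +kernel, by decide +kernel, by decide +kernel, by decide +kernel, by decide +kernel, by decide +kernel, by decide +kernel, by decide +kernel⟩

def t24020 : allY (E.wth (lkp [])) l24020 = true ∧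
    allY (E.wth (lkp [])) l24021 = true ∧
    allY (E.wth (lkp [])) l24022 = true ∧
    allY (E.wth (lkp [])) l24023 = true ∧
    allY (E.wth (lkp [])) l24024 = true ∧
    allY (E.wth (lkp [])) l24025 = true ∧
    allY (E.wth (lkp [])) l24026 = true ∧
    allY (E.wth (lkp [])) l24027 = true :=
  ⟨by decide +kernel, by decide +kernel, by decide +kernel, by decide +kernel, by decide +kernel, by decide +kernel, by decide +kernel, by decide +kernel⟩

def t24028 : allY (E.wth (lkp [])) l24028 = true ∧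
    allY (E.wth (lkp [])) l24029 = true ∧
    allY (E.wth (lkp [])) l24030 = true ∧
    allY (E.wth (lkp [])) l24031 = true ∧
    allY (E.wth (lkp [])) l24032 = true ∧
    allY (E.wth (lkp [])) l24033 = true ∧
    allY (E.wth (lkp [])) l24034 = true ∧
    allY (E.wth (lkp [])) l24035 = true :=
  ⟨by decide +kernel, by decide +kernel, by decide +kernel, by decide +kernel, by decide +kernel, by decide +kernel, by decide +kernel, by decide +kernel⟩

def t24036 : allY (E.wth (lkp [])) l24036 = true ∧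
    allY (E.wth (lkp [])) l24037 = true ∧
    allY (E.wth (lkp [])) l24038 = true ∧
    allY (E.wth (lkp [])) l24039 = true ∧
    allY (E.wth (lkp [])) l24040 = true ∧
    allY (E.wth (lkp [])) l24041 = true ∧
    allY (E.wth (lkp [])) l24042 = true ∧
    allY (E.wth (lkp [])) l24043 = true :=
  ⟨by decide +kernel, by decide +kernel, by decide +kernel, by decide +kernel, by decide +kernel, by decide +kernel, by decide +kernel, by decide +kernel⟩

def t24044 : allY (E.wth (lkp [])) l24044 = true ∧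
    allY (E.wth (lkp [])) l24045 = true ∧
    allY (E.wth (lkp [])) l24046 = true ∧
    allY (E.wth (lkp [])) l24047 = true ∧
    allY (E.wth (lkp [])) l24048 = true ∧
    allY (E.wth (lkp [])) l24049 = true ∧
    allY (E.wth (lkp [])) l24050 = true ∧
    allY (E.wth (lkp [])) l24051 = true :=
  ⟨by decide +kernel, by decide +kernel, by decide +kernel, by decide +kernel, by decide +kernel, by decide +kernel, by decide +kernel, by decide +kernel⟩

def t24052 : allY (E.wth (lkp [])) l24052 = true ∧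
    allY (E.wth (lkp [])) l24053 = true ∧
    allY (E.wth (lkp [])) l24054 = true ∧
    allY (E.wth (lkp [])) l24055 = true ∧
    allY (E.wth (lkp [])) l24056 = true ∧
    allY (E.wth (lkp [])) l24057 = true ∧
    allY (E.wth (lkp [])) l24058 = true ∧
    allY (E.wth (lkp [])) l24059 = true :=
  ⟨by decide +kernel, by decide +kernel, by decide +kernel, by decide +kernel, by decide +kernel, by decide +kernel, by decide +kernel, by decide +kernel⟩

def t24060 : allY (E.wth (lkp [])) l24060 = true ∧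
    allY (E.wth (lkp [])) l24061 = true ∧
    allY (E.wth (lkp [])) l24062 = true ∧
    allY (E.wth (lkp [])) l24063 = true ∧
    allY (E.wth (lkp [])) l24064 = true ∧
    allY (E.wth (lkp [])) l24065 = true ∧
    allY (E.wth (lkp [])) l24066 = true ∧
    allY (E.wth (lkp [])) l24067 = true :=
  ⟨by decide +kernel, by decide +kernel, by decide +kernel, by decide +kernel, by decide +kernel, by decide +kernel, by decide +kernel, by decide +kernel⟩

def t24068 : allY (E.wth (lkp [])) l24068 = true ∧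
    allY (E.wth (lkp [])) l24069 = true ∧
    allY (E.wth (lkp [])) l24070 = true ∧
    allY (E.wth (lkp [])) l24071 = true ∧
    allY (E.wth (lkp [])) l24072 = true ∧
    allY (E.wth (lkp [])) l24073 = true ∧
    allY (E.wth (lkp [])) l24074 = true ∧
    allY (E.wth (lkp [])) l24075 = true :=
  ⟨by decide +kernel, by decide +kernel, by decide +kernel, by decide +kernel, by decide +kernel, by decide +kernel, by decide +kernel, by decide +kernel⟩

def t24076 : allY (E.wth (lkp [])) l24076 = true ∧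
    allY (E.wth (lkp [])) l24077 = true ∧
    allY (E.wth (lkp [])) l24078 = true :=
  ⟨by decide +kernel, by decide +kernel, by decide +kernel⟩

theorem a42 {p : Rf → Prop} (H : ∀ l, allY (E.wth (lkp [])) l = true → (lkp l).All p) :
    b42.All p := ⟨⟨⟨⟨⟨⟨⟨⟨⟨H _ t23508.1, H _ t23508.2.1⟩, ⟨H _ t23508.2.2.1, H _ t23508.2.2.2.1⟩⟩, ⟨⟨H _ t23508.2.2.2.2.1, H _ t23508.2.2.2.2.2.1⟩, ⟨H _ t23508.2.2.2.2.2.2.1, H _ t23508.2.2.2.2.2.2.2⟩⟩⟩, ⟨⟨⟨H _ t23516.1, H _ t23516.2.1⟩, ⟨H _ t23516.2.2.1, H _ t23516.2.2.2.1⟩⟩, ⟨⟨H _ t23516.2.2.2.2.1, H _ t23516.2.2.2.2.2.1⟩, ⟨H _ t23516.2.2.2.2.2.2.1, ⟨H _ t23516.2.2.2.2.2.2.2, H _ t23524.1⟩⟩⟩⟩⟩, ⟨⟨⟨⟨H _ t23524.2.1, H _ t23524.2.2.1⟩, ⟨H _ t23524.2.2.2.1, H _ t23524.2.2.2.2.1⟩⟩, ⟨⟨H _ t23524.2.2.2.2.2.1, H _ t23524.2.2.2.2.2.2.1⟩, ⟨H _ t23524.2.2.2.2.2.2.2, ⟨H _ t23532.1, H _ t23532.2.1⟩⟩⟩⟩, ⟨⟨⟨H _ t23532.2.2.1, H _ t23532.2.2.2.1⟩, ⟨H _ t23532.2.2.2.2.1, H _ t23532.2.2.2.2.2.1⟩⟩,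 ⟨⟨H _ t23532.2.2.2.2.2.2.1, H _ t23532.2.2.2.2.2.2.2⟩, ⟨H _ t23540.1, ⟨H _ t23540.2.1, H _ t23540.2.2.1⟩⟩⟩⟩⟩⟩, ⟨⟨⟨⟨⟨H _ t23540.2.2.2.1, H _ t23540.2.2.2.2.1⟩, ⟨H _ t23540.2.2.2.2.2.1, H _ t23540.2.2.2.2.2.2.1⟩⟩, ⟨⟨H _ t23540.2.2.2.2.2.2.2, H _ t23548.1⟩, ⟨H _ t23548.2.1, ⟨H _ t23548.2.2.1, H _ t23548.2.2.2.1⟩⟩⟩⟩, ⟨⟨⟨H _ t23548.2.2.2.2.1, H _ t23548.2.2.2.2.2.1⟩, ⟨H _ t23548.2.2.2.2.2.2.1, H _ t23548.2.2.2.2.2.2.2⟩⟩, ⟨⟨H _ t23556.1, H _ t23556.2.1⟩, ⟨H _ t23556.2.2.1, ⟨H _ t23556.2.2.2.1, H _ t23556.2.2.2.2.1⟩⟩⟩⟩⟩, ⟨⟨⟨⟨H _ t23556.2.2.2.2.2.1, H _ t23556.2.2.2.2.2.2.1⟩, ⟨H _ t23556.2.2.2.2.2.2.2, H _ t23564.1⟩⟩, ⟨⟨H _ t23564.2.1, H _ t23564.2.2.1⟩, ⟨H _ t23564.2.2.2.1, ⟨H _ t23564.2.2.2.2.1, H _ t23564.2.2.2.2.2.1⟩⟩⟩⟩, ⟨⟨⟨H _ t23564.2.2.2.2.2.2.1, H _ t23564.2.2.2.2.2.2.2⟩, ⟨H _ t23572.1, H _ t23572.2.1⟩⟩, ⟨⟨H _ t23572.2.2.1, H _ t23572.2.2.2.1⟩, ⟨H _ t23572.2.2.2.2.1, ⟨H _ t23572.2.2.2.2.2.1,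 H _ t23572.2.2.2.2.2.2.1⟩⟩⟩⟩⟩⟩⟩, ⟨⟨⟨⟨⟨⟨H _ t23572.2.2.2.2.2.2.2, H _ t23580.1⟩, ⟨H _ t23580.2.1, H _ t23580.2.2.1⟩⟩, ⟨⟨H _ t23580.2.2.2.1, H _ t23580.2.2.2.2.1⟩, ⟨H _ t23580.2.2.2.2.2.1, H _ t23580.2.2.2.2.2.2.1⟩⟩⟩, ⟨⟨⟨H _ t23580.2.2.2.2.2.2.2, H _ t23588.1⟩, ⟨H _ t23588.2.1, H _ t23588.2.2.1⟩⟩, ⟨⟨H _ t23588.2.2.2.1, H _ t23588.2.2.2.2.1⟩, ⟨H _ t23588.2.2.2.2.2.1, ⟨H _ t23588.2.2.2.2.2.2.1, H _ t23588.2.2.2.2.2.2.2⟩⟩⟩⟩⟩, ⟨⟨⟨⟨H _ t23596.1, H _ t23596.2.1⟩, ⟨H _ t23596.2.2.1, H _ t23596.2.2.2.1⟩⟩, ⟨⟨H _ t23596.2.2.2.2.1, H _ t23596.2.2.2.2.2.1⟩, ⟨H _ t23596.2.2.2.2.2.2.1, ⟨H _ t23596.2.2.2.2.2.2.2, H _ t23604.1⟩⟩⟩⟩, ⟨⟨⟨H _ t23604.2.1, H _ t23604.2.2.1⟩, ⟨H _ t23604.2.2.2.1, H _ t23604.2.2.2.2.1⟩⟩, ⟨⟨H _ t23604.2.2.2.2.2.1, H _ t23604.2.2.2.2.2.2.1⟩, ⟨H _ t23604.2.2.2.2.2.2.2, ⟨H _ t23612.1, H _ t23612.2.1⟩⟩⟩⟩⟩⟩, ⟨⟨⟨⟨⟨H _ t23612.2.2.1, H _ t23612.2.2.2.1⟩, ⟨H _ t23612.2.2.2.2.1, H _ t23612.2.2.2.2.2.1⟩⟩,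 ⟨⟨H _ t23612.2.2.2.2.2.2.1, H _ t23612.2.2.2.2.2.2.2⟩, ⟨H _ t23620.1, ⟨H _ t23620.2.1, H _ t23620.2.2.1⟩⟩⟩⟩, ⟨⟨⟨H _ t23620.2.2.2.1, H _ t23620.2.2.2.2.1⟩, ⟨H _ t23620.2.2.2.2.2.1, H _ t23620.2.2.2.2.2.2.1⟩⟩, ⟨⟨H _ t23620.2.2.2.2.2.2.2, H _ t23628.1⟩, ⟨H _ t23628.2.1, ⟨H _ t23628.2.2.1, H _ t23628.2.2.2.1⟩⟩⟩⟩⟩, ⟨⟨⟨⟨H _ t23628.2.2.2.2.1, H _ t23628.2.2.2.2.2.1⟩, ⟨H _ t23628.2.2.2.2.2.2.1, H _ t23628.2.2.2.2.2.2.2⟩⟩, ⟨⟨H _ t23636.1, H _ t23636.2.1⟩, ⟨H _ t23636.2.2.1, ⟨H _ t23636.2.2.2.1, H _ t23636.2.2.2.2.1⟩⟩⟩⟩, ⟨⟨⟨H _ t23636.2.2.2.2.2.1, H _ t23636.2.2.2.2.2.2.1⟩, ⟨H _ t23636.2.2.2.2.2.2.2, H _ t23644.1⟩⟩, ⟨⟨H _ t23644.2.1, H _ t23644.2.2.1⟩, ⟨H _ t23644.2.2.2.1, ⟨H _ t23644.2.2.2.2.1, H _ t23644.2.2.2.2.2.1⟩⟩⟩⟩⟩⟩⟩⟩, ⟨⟨⟨⟨⟨⟨⟨H _ t23644.2.2.2.2.2.2.1, H _ t23644.2.2.2.2.2.2.2⟩, ⟨H _ t23652.1, H _ t23652.2.1⟩⟩, ⟨⟨H _ t23652.2.2.1, H _ t23652.2.2.2.1⟩, ⟨H _ t23652.2.2.2.2.1, H _ t23652.2.2.2.2.2.1⟩⟩⟩,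 ⟨⟨⟨H _ t23652.2.2.2.2.2.2.1, H _ t23652.2.2.2.2.2.2.2⟩, ⟨H _ t23660.1, H _ t23660.2.1⟩⟩, ⟨⟨H _ t23660.2.2.1, H _ t23660.2.2.2.1⟩, ⟨H _ t23660.2.2.2.2.1, ⟨H _ t23660.2.2.2.2.2.1, H _ t23660.2.2.2.2.2.2.1⟩⟩⟩⟩⟩, ⟨⟨⟨⟨H _ t23660.2.2.2.2.2.2.2, H _ t23668.1⟩, ⟨H _ t23668.2.1, H _ t23668.2.2.1⟩⟩, ⟨⟨H _ t23668.2.2.2.1, H _ t23668.2.2.2.2.1⟩, ⟨H _ t23668.2.2.2.2.2.1, ⟨H _ t23668.2.2.2.2.2.2.1, H _ t23668.2.2.2.2.2.2.2⟩⟩⟩⟩, ⟨⟨⟨H _ t23676.1, H _ t23676.2.1⟩, ⟨H _ t23676.2.2.1, H _ t23676.2.2.2.1⟩⟩, ⟨⟨H _ t23676.2.2.2.2.1, H _ t23676.2.2.2.2.2.1⟩, ⟨H _ t23676.2.2.2.2.2.2.1, ⟨H _ t23676.2.2.2.2.2.2.2, H _ t23684.1⟩⟩⟩⟩⟩⟩, ⟨⟨⟨⟨⟨H _ t23684.2.1, H _ t23684.2.2.1⟩, ⟨H _ t23684.2.2.2.1, H _ t23684.2.2.2.2.1⟩⟩, ⟨⟨H _ t23684.2.2.2.2.2.1, H _ t23684.2.2.2.2.2.2.1⟩, ⟨H _ t23684.2.2.2.2.2.2.2, ⟨H _ t23692.1, H _ t23692.2.1⟩⟩⟩⟩, ⟨⟨⟨H _ t23692.2.2.1, H _ t23692.2.2.2.1⟩, ⟨H _ t23692.2.2.2.2.1, H _ t23692.2.2.2.2.2.1⟩⟩,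 ⟨⟨H _ t23692.2.2.2.2.2.2.1, H _ t23692.2.2.2.2.2.2.2⟩, ⟨H _ t23700.1, ⟨H _ t23700.2.1, H _ t23700.2.2.1⟩⟩⟩⟩⟩, ⟨⟨⟨⟨H _ t23700.2.2.2.1, H _ t23700.2.2.2.2.1⟩, ⟨H _ t23700.2.2.2.2.2.1, H _ t23700.2.2.2.2.2.2.1⟩⟩, ⟨⟨H _ t23700.2.2.2.2.2.2.2, H _ t23708.1⟩, ⟨H _ t23708.2.1, ⟨H _ t23708.2.2.1, H _ t23708.2.2.2.1⟩⟩⟩⟩, ⟨⟨⟨H _ t23708.2.2.2.2.1, H _ t23708.2.2.2.2.2.1⟩, ⟨H _ t23708.2.2.2.2.2.2.1, H _ t23708.2.2.2.2.2.2.2⟩⟩, ⟨⟨H _ t23716.1, H _ t23716.2.1⟩, ⟨H _ t23716.2.2.1, ⟨H _ t23716.2.2.2.1, H _ t23716.2.2.2.2.1⟩⟩⟩⟩⟩⟩⟩, ⟨⟨⟨⟨⟨⟨H _ t23716.2.2.2.2.2.1, H _ t23716.2.2.2.2.2.2.1⟩, ⟨H _ t23716.2.2.2.2.2.2.2, H _ t23724.1⟩⟩, ⟨⟨H _ t23724.2.1, H _ t23724.2.2.1⟩, ⟨H _ t23724.2.2.2.1, ⟨H _ t23724.2.2.2.2.1, H _ t23724.2.2.2.2.2.1⟩⟩⟩⟩, ⟨⟨⟨H _ t23724.2.2.2.2.2.2.1, H _ t23724.2.2.2.2.2.2.2⟩, ⟨H _ t23732.1, H _ t23732.2.1⟩⟩, ⟨⟨H _ t23732.2.2.1, H _ t23732.2.2.2.1⟩, ⟨H _ t23732.2.2.2.2.1, ⟨H _ t23732.2.2.2.2.2.1,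 H _ t23732.2.2.2.2.2.2.1⟩⟩⟩⟩⟩, ⟨⟨⟨⟨H _ t23732.2.2.2.2.2.2.2, H _ t23740.1⟩, ⟨H _ t23740.2.1, H _ t23740.2.2.1⟩⟩, ⟨⟨H _ t23740.2.2.2.1, H _ t23740.2.2.2.2.1⟩, ⟨H _ t23740.2.2.2.2.2.1, ⟨H _ t23740.2.2.2.2.2.2.1, H _ t23740.2.2.2.2.2.2.2⟩⟩⟩⟩, ⟨⟨⟨H _ t23748.1, H _ t23748.2.1⟩, ⟨H _ t23748.2.2.1, H _ t23748.2.2.2.1⟩⟩, ⟨⟨H _ t23748.2.2.2.2.1, H _ t23748.2.2.2.2.2.1⟩, ⟨H _ t23748.2.2.2.2.2.2.1, ⟨H _ t23748.2.2.2.2.2.2.2, H _ t23756.1⟩⟩⟩⟩⟩⟩, ⟨⟨⟨⟨⟨H _ t23756.2.1, H _ t23756.2.2.1⟩, ⟨H _ t23756.2.2.2.1, H _ t23756.2.2.2.2.1⟩⟩, ⟨⟨H _ t23756.2.2.2.2.2.1, H _ t23756.2.2.2.2.2.2.1⟩, ⟨H _ t23756.2.2.2.2.2.2.2, ⟨H _ t23764.1, H _ t23764.2.1⟩⟩⟩⟩, ⟨⟨⟨H _ t23764.2.2.1, H _ t23764.2.2.2.1⟩, ⟨H _ t23764.2.2.2.2.1, H _ t23764.2.2.2.2.2.1⟩⟩, ⟨⟨H _ t23764.2.2.2.2.2.2.1, H _ t23764.2.2.2.2.2.2.2⟩, ⟨H _ t23772.1, ⟨H _ t23772.2.1, H _ t23772.2.2.1⟩⟩⟩⟩⟩, ⟨⟨⟨⟨H _ t23772.2.2.2.1, H _ t23772.2.2.2.2.1⟩, ⟨H _ t23772.2.2.2.2.2.1,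 H _ t23772.2.2.2.2.2.2.1⟩⟩, ⟨⟨H _ t23772.2.2.2.2.2.2.2, H _ t23780.1⟩, ⟨H _ t23780.2.1, ⟨H _ t23780.2.2.1, H _ t23780.2.2.2.1⟩⟩⟩⟩, ⟨⟨⟨H _ t23780.2.2.2.2.1, H _ t23780.2.2.2.2.2.1⟩, ⟨H _ t23780.2.2.2.2.2.2.1, H _ t23780.2.2.2.2.2.2.2⟩⟩, ⟨⟨H _ t23788.1, H _ t23788.2.1⟩, ⟨H _ t23788.2.2.1, ⟨H _ t23788.2.2.2.1, H _ t23788.2.2.2.2.1⟩⟩⟩⟩⟩⟩⟩⟩⟩, ⟨⟨⟨⟨⟨⟨⟨⟨H _ t23788.2.2.2.2.2.1, H _ t23788.2.2.2.2.2.2.1⟩, ⟨H _ t23788.2.2.2.2.2.2.2, H _ t23796.1⟩⟩, ⟨⟨H _ t23796.2.1, H _ t23796.2.2.1⟩, ⟨H _ t23796.2.2.2.1, H _ t23796.2.2.2.2.1⟩⟩⟩, ⟨⟨⟨H _ t23796.2.2.2.2.2.1, H _ t23796.2.2.2.2.2.2.1⟩, ⟨H _ t23796.2.2.2.2.2.2.2, H _ t23804.1⟩⟩, ⟨⟨H _ t23804.2.1, H _ t23804.2.2.1⟩, ⟨H _ t23804.2.2.2.1, ⟨H _ t23804.2.2.2.2.1, H _ t23804.2.2.2.2.2.1⟩⟩⟩⟩⟩, ⟨⟨⟨⟨H _ t23804.2.2.2.2.2.2.1, H _ t23804.2.2.2.2.2.2.2⟩, ⟨H _ t23812.1, H _ t23812.2.1⟩⟩, ⟨⟨H _ t23812.2.2.1, H _ t23812.2.2.2.1⟩, ⟨H _ t23812.2.2.2.2.1, ⟨H _ t23812.2.2.2.2.2.1,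 H _ t23812.2.2.2.2.2.2.1⟩⟩⟩⟩, ⟨⟨⟨H _ t23812.2.2.2.2.2.2.2, H _ t23820.1⟩, ⟨H _ t23820.2.1, H _ t23820.2.2.1⟩⟩, ⟨⟨H _ t23820.2.2.2.1, H _ t23820.2.2.2.2.1⟩, ⟨H _ t23820.2.2.2.2.2.1, ⟨H _ t23820.2.2.2.2.2.2.1, H _ t23820.2.2.2.2.2.2.2⟩⟩⟩⟩⟩⟩, ⟨⟨⟨⟨⟨H _ t23828.1, H _ t23828.2.1⟩, ⟨H _ t23828.2.2.1, H _ t23828.2.2.2.1⟩⟩, ⟨⟨H _ t23828.2.2.2.2.1, H _ t23828.2.2.2.2.2.1⟩, ⟨H _ t23828.2.2.2.2.2.2.1, ⟨H _ t23828.2.2.2.2.2.2.2, H _ t23836.1⟩⟩⟩⟩, ⟨⟨⟨H _ t23836.2.1, H _ t23836.2.2.1⟩, ⟨H _ t23836.2.2.2.1, H _ t23836.2.2.2.2.1⟩⟩, ⟨⟨H _ t23836.2.2.2.2.2.1, H _ t23836.2.2.2.2.2.2.1⟩, ⟨H _ t23836.2.2.2.2.2.2.2, ⟨H _ t23844.1, H _ t23844.2.1⟩⟩⟩⟩⟩, ⟨⟨⟨⟨H _ t23844.2.2.1, H _ t23844.2.2.2.1⟩, ⟨H _ t23844.2.2.2.2.1, H _ t23844.2.2.2.2.2.1⟩⟩, ⟨⟨H _ t23844.2.2.2.2.2.2.1, H _ t23844.2.2.2.2.2.2.2⟩, ⟨H _ t23852.1, ⟨H _ t23852.2.1, H _ t23852.2.2.1⟩⟩⟩⟩, ⟨⟨⟨H _ t23852.2.2.2.1, H _ t23852.2.2.2.2.1⟩, ⟨H _ t23852.2.2.2.2.2.1,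 H _ t23852.2.2.2.2.2.2.1⟩⟩, ⟨⟨H _ t23852.2.2.2.2.2.2.2, H _ t23860.1⟩, ⟨H _ t23860.2.1, ⟨H _ t23860.2.2.1, H _ t23860.2.2.2.1⟩⟩⟩⟩⟩⟩⟩, ⟨⟨⟨⟨⟨⟨H _ t23860.2.2.2.2.1, H _ t23860.2.2.2.2.2.1⟩, ⟨H _ t23860.2.2.2.2.2.2.1, H _ t23860.2.2.2.2.2.2.2⟩⟩, ⟨⟨H _ t23868.1, H _ t23868.2.1⟩, ⟨H _ t23868.2.2.1, ⟨H _ t23868.2.2.2.1, H _ t23868.2.2.2.2.1⟩⟩⟩⟩, ⟨⟨⟨H _ t23868.2.2.2.2.2.1, H _ t23868.2.2.2.2.2.2.1⟩, ⟨H _ t23868.2.2.2.2.2.2.2, H _ t23876.1⟩⟩, ⟨⟨H _ t23876.2.1, H _ t23876.2.2.1⟩, ⟨H _ t23876.2.2.2.1, ⟨H _ t23876.2.2.2.2.1, H _ t23876.2.2.2.2.2.1⟩⟩⟩⟩⟩, ⟨⟨⟨⟨H _ t23876.2.2.2.2.2.2.1, H _ t23876.2.2.2.2.2.2.2⟩, ⟨H _ t23884.1, H _ t23884.2.1⟩⟩, ⟨⟨H _ t23884.2.2.1, H _ t23884.2.2.2.1⟩, ⟨H _ t23884.2.2.2.2.1, ⟨H _ t23884.2.2.2.2.2.1, H _ t23884.2.2.2.2.2.2.1⟩⟩⟩⟩, ⟨⟨⟨H _ t23884.2.2.2.2.2.2.2, H _ t23892.1⟩, ⟨H _ t23892.2.1, H _ t23892.2.2.1⟩⟩, ⟨⟨H _ t23892.2.2.2.1, H _ t23892.2.2.2.2.1⟩, ⟨H _ t23892.2.2.2.2.2.1,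 ⟨H _ t23892.2.2.2.2.2.2.1, H _ t23892.2.2.2.2.2.2.2⟩⟩⟩⟩⟩⟩, ⟨⟨⟨⟨⟨H _ t23900.1, H _ t23900.2.1⟩, ⟨H _ t23900.2.2.1, H _ t23900.2.2.2.1⟩⟩, ⟨⟨H _ t23900.2.2.2.2.1, H _ t23900.2.2.2.2.2.1⟩, ⟨H _ t23900.2.2.2.2.2.2.1, ⟨H _ t23900.2.2.2.2.2.2.2, H _ t23908.1⟩⟩⟩⟩, ⟨⟨⟨H _ t23908.2.1, H _ t23908.2.2.1⟩, ⟨H _ t23908.2.2.2.1, H _ t23908.2.2.2.2.1⟩⟩, ⟨⟨H _ t23908.2.2.2.2.2.1, H _ t23908.2.2.2.2.2.2.1⟩, ⟨H _ t23908.2.2.2.2.2.2.2, ⟨H _ t23916.1, H _ t23916.2.1⟩⟩⟩⟩⟩, ⟨⟨⟨⟨H _ t23916.2.2.1, H _ t23916.2.2.2.1⟩, ⟨H _ t23916.2.2.2.2.1, H _ t23916.2.2.2.2.2.1⟩⟩, ⟨⟨H _ t23916.2.2.2.2.2.2.1, H _ t23916.2.2.2.2.2.2.2⟩, ⟨H _ t23924.1, ⟨H _ t23924.2.1, H _ t23924.2.2.1⟩⟩⟩⟩, ⟨⟨⟨H _ t23924.2.2.2.1, H _ t23924.2.2.2.2.1⟩, ⟨H _ t23924.2.2.2.2.2.1, H _ t23924.2.2.2.2.2.2.1⟩⟩, ⟨⟨H _ t23924.2.2.2.2.2.2.2, H _ t23932.1⟩, ⟨H _ t23932.2.1, ⟨H _ t23932.2.2.1, H _ t23932.2.2.2.1⟩⟩⟩⟩⟩⟩⟩⟩, ⟨⟨⟨⟨⟨⟨⟨H _ t23932.2.2.2.2.1, H _ t23932.2.2.2.2.2.1⟩,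 ⟨H _ t23932.2.2.2.2.2.2.1, H _ t23932.2.2.2.2.2.2.2⟩⟩, ⟨⟨H _ t23940.1, H _ t23940.2.1⟩, ⟨H _ t23940.2.2.1, H _ t23940.2.2.2.1⟩⟩⟩, ⟨⟨⟨H _ t23940.2.2.2.2.1, H _ t23940.2.2.2.2.2.1⟩, ⟨H _ t23940.2.2.2.2.2.2.1, H _ t23940.2.2.2.2.2.2.2⟩⟩, ⟨⟨H _ t23948.1, H _ t23948.2.1⟩, ⟨H _ t23948.2.2.1, ⟨H _ t23948.2.2.2.1, H _ t23948.2.2.2.2.1⟩⟩⟩⟩⟩, ⟨⟨⟨⟨H _ t23948.2.2.2.2.2.1, H _ t23948.2.2.2.2.2.2.1⟩, ⟨H _ t23948.2.2.2.2.2.2.2, H _ t23956.1⟩⟩, ⟨⟨H _ t23956.2.1, H _ t23956.2.2.1⟩, ⟨H _ t23956.2.2.2.1, ⟨H _ t23956.2.2.2.2.1, H _ t23956.2.2.2.2.2.1⟩⟩⟩⟩, ⟨⟨⟨H _ t23956.2.2.2.2.2.2.1, H _ t23956.2.2.2.2.2.2.2⟩, ⟨H _ t23964.1, H _ t23964.2.1⟩⟩, ⟨⟨H _ t23964.2.2.1, H _ t23964.2.2.2.1⟩, ⟨H _ t23964.2.2.2.2.1, ⟨H _ t23964.2.2.2.2.2.1, H _ t23964.2.2.2.2.2.2.1⟩⟩⟩⟩⟩⟩, ⟨⟨⟨⟨⟨H _ t23964.2.2.2.2.2.2.2, H _ t23972.1⟩, ⟨H _ t23972.2.1, H _ t23972.2.2.1⟩⟩, ⟨⟨H _ t23972.2.2.2.1, H _ t23972.2.2.2.2.1⟩, ⟨H _ t23972.2.2.2.2.2.1,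 ⟨H _ t23972.2.2.2.2.2.2.1, H _ t23972.2.2.2.2.2.2.2⟩⟩⟩⟩, ⟨⟨⟨H _ t23980.1, H _ t23980.2.1⟩, ⟨H _ t23980.2.2.1, H _ t23980.2.2.2.1⟩⟩, ⟨⟨H _ t23980.2.2.2.2.1, H _ t23980.2.2.2.2.2.1⟩, ⟨H _ t23980.2.2.2.2.2.2.1, ⟨H _ t23980.2.2.2.2.2.2.2, H _ t23988.1⟩⟩⟩⟩⟩, ⟨⟨⟨⟨H _ t23988.2.1, H _ t23988.2.2.1⟩, ⟨H _ t23988.2.2.2.1, H _ t23988.2.2.2.2.1⟩⟩, ⟨⟨H _ t23988.2.2.2.2.2.1, H _ t23988.2.2.2.2.2.2.1⟩, ⟨H _ t23988.2.2.2.2.2.2.2, ⟨H _ t23996.1, H _ t23996.2.1⟩⟩⟩⟩, ⟨⟨⟨H _ t23996.2.2.1, H _ t23996.2.2.2.1⟩, ⟨H _ t23996.2.2.2.2.1, H _ t23996.2.2.2.2.2.1⟩⟩, ⟨⟨H _ t23996.2.2.2.2.2.2.1, H _ t23996.2.2.2.2.2.2.2⟩, ⟨H _ t24004.1, ⟨H _ t24004.2.1, H _ t24004.2.2.1⟩⟩⟩⟩⟩⟩⟩, ⟨⟨⟨⟨⟨⟨H _ t24004.2.2.2.1, H _ t24004.2.2.2.2.1⟩, ⟨H _ t24004.2.2.2.2.2.1, H _ t24004.2.2.2.2.2.2.1⟩⟩, ⟨⟨H _ t24004.2.2.2.2.2.2.2, H _ t24012.1⟩, ⟨H _ t24012.2.1, ⟨H _ t24012.2.2.1, H _ t24012.2.2.2.1⟩⟩⟩⟩, ⟨⟨⟨H _ t24012.2.2.2.2.1, H _ t24012.2.2.2.2.2.1⟩,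 ⟨H _ t24012.2.2.2.2.2.2.1, H _ t24012.2.2.2.2.2.2.2⟩⟩, ⟨⟨H _ t24020.1, H _ t24020.2.1⟩, ⟨H _ t24020.2.2.1, ⟨H _ t24020.2.2.2.1, H _ t24020.2.2.2.2.1⟩⟩⟩⟩⟩, ⟨⟨⟨⟨H _ t24020.2.2.2.2.2.1, H _ t24020.2.2.2.2.2.2.1⟩, ⟨H _ t24020.2.2.2.2.2.2.2, H _ t24028.1⟩⟩, ⟨⟨H _ t24028.2.1, H _ t24028.2.2.1⟩, ⟨H _ t24028.2.2.2.1, ⟨H _ t24028.2.2.2.2.1, H _ t24028.2.2.2.2.2.1⟩⟩⟩⟩, ⟨⟨⟨H _ t24028.2.2.2.2.2.2.1, H _ t24028.2.2.2.2.2.2.2⟩, ⟨H _ t24036.1, H _ t24036.2.1⟩⟩, ⟨⟨H _ t24036.2.2.1, H _ t24036.2.2.2.1⟩, ⟨H _ t24036.2.2.2.2.1, ⟨H _ t24036.2.2.2.2.2.1, H _ t24036.2.2.2.2.2.2.1⟩⟩⟩⟩⟩⟩, ⟨⟨⟨⟨⟨H _ t24036.2.2.2.2.2.2.2, H _ t24044.1⟩, ⟨H _ t24044.2.1, H _ t24044.2.2.1⟩⟩, ⟨⟨H _ t24044.2.2.2.1, H _ t24044.2.2.2.2.1⟩, ⟨H _ t24044.2.2.2.2.2.1, ⟨H _ t24044.2.2.2.2.2.2.1, H _ t24044.2.2.2.2.2.2.2⟩⟩⟩⟩, ⟨⟨⟨H _ t24052.1, H _ t24052.2.1⟩, ⟨H _ t24052.2.2.1, H _ t24052.2.2.2.1⟩⟩, ⟨⟨H _ t24052.2.2.2.2.1, H _ t24052.2.2.2.2.2.1⟩,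 ⟨H _ t24052.2.2.2.2.2.2.1, ⟨H _ t24052.2.2.2.2.2.2.2, H _ t24060.1⟩⟩⟩⟩⟩, ⟨⟨⟨⟨H _ t24060.2.1, H _ t24060.2.2.1⟩, ⟨H _ t24060.2.2.2.1, H _ t24060.2.2.2.2.1⟩⟩, ⟨⟨H _ t24060.2.2.2.2.2.1, H _ t24060.2.2.2.2.2.2.1⟩, ⟨H _ t24060.2.2.2.2.2.2.2, ⟨H _ t24068.1, H _ t24068.2.1⟩⟩⟩⟩, ⟨⟨⟨H _ t24068.2.2.1, H _ t24068.2.2.2.1⟩, ⟨H _ t24068.2.2.2.2.1, H _ t24068.2.2.2.2.2.1⟩⟩, ⟨⟨H _ t24068.2.2.2.2.2.2.1, H _ t24068.2.2.2.2.2.2.2⟩, ⟨H _ t24076.1, ⟨H _ t24076.2.1, H _ t24076.2.2⟩⟩⟩⟩⟩⟩⟩⟩⟩⟩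

end Pool.Agent.MP_c853c5_nt.X.C4950
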