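import Pool.Agent.MP_c853c5_nt.X.C4950.Env
import Pool.Agent.MP_c853c5_nt.X.C4950.D8

set_option autoImplicit false
set_option maxRecDepth 8192
set_option linter.all false

namespace Pool.Agent.MP_c853c5_nt.X.C4950

open Pool.Agent.MP_c853c5_nt.X

def t24079 : allY (E.wth (lkp [])) l24079 = true ∧
    allY (E.wth (lkp [])) l24080 = true ∧
    allY (E.wth (lkp [])) l24081 = true ∧
    allY (E.wth (lkp [])) l24082 = true ∧
    allY (E.wth (lkp [])) l24083 = true ∧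
    allY (E.wth (lkp [])) l24084 = true ∧
    allY (E.wth (lkp [])) l24085 = true ∧
    allY (E.wth (lkp [])) l24086 = true :=
  ⟨by decide +kernel, by decide +kernel, by decide +kernel, by decide +kernel, by decide +kernel, by decide +kernel, by decide +kernel, by decide +kernel⟩

def t24087 : allY (E.wth (lkp [])) l24087 = true ∧
    allY (E.wth (lkp [])) l24088 = true ∧
    allY (E.wth (lkp [])) l24089 = true ∧
    allY (E.wth (lkp [])) l24090 = true ∧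
    allY (E.wth (lkp [])) l24091 = true ∧
    allY (E.wth (lkp [])) l24092 = true ∧
    allY (E.wth (lkp [])) l24093 = true ∧
    allY (E.wth (lkp [])) l24094 = true :=
  ⟨by decide +kernel, by decide +kernel, by decide +kernel, by decide +kernel, by decide +kernel, by decide +kernel, by decide +kernel, by decide +kernel⟩

def t24095 : allY (E.wth (lkp [])) l24095 = true ∧
    allY (E.wth (lkp [])) l24096 = true ∧
    allY (E.wth (lkp [])) l24097 = true ∧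
    allY (E.wth (lkp [])) l24098 = true ∧
    allY (E.wth (lkp [])) l24099 = true ∧
    allY (E.wth (lkp [])) l24100 = true ∧
    allY (E.wth (lkp [])) l24101 = true ∧
    allY (E.wth (lkp [])) l24102 = true :=
  ⟨by decide +kernel, by decide +kernel, by decide +kernel, by decide +kernel, by decide +kernel, by decide +kernel, by decide +kernel, by decide +kernel⟩

def t24103 : allY (E.wth (lkp [])) l24103 = true ∧
    allY (E.wth (lkp [])) l24104 = true ∧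
    allY (E.wth (lkp [])) l24105 = true ∧
    allY (E.wth (lkp [])) l24106 = true ∧
    allY (E.wth (lkp [])) l24107 = true ∧
    allY (E.wth (lkp [])) l24108 = true ∧
    allY (E.wth (lkp [])) l24109 = true ∧
    allY (E.wth (lkp [])) l24110 = true :=
  ⟨by decide +kernel, by decide +kernel, by decide +kernel, by decide +kernel, by decide +kernel, by decide +kernel, by decide +kernel, by decide +kernel⟩

def t24111 : allY (E.wth (lkp [])) l24111 = true ∧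
    allY (E.wth (lkp [])) l24112 = true ∧
    allY (E.wth (lkp [])) l24113 = true ∧
    allY (E.wth (lkp [])) l24114 = true ∧
    allY (E.wth (lkp [])) l24115 = true ∧
    allY (E.wth (lkp [])) l24116 = true ∧
    allY (E.wth (lkp [])) l24117 = true ∧
    allY (E.wth (lkp [])) l24118 = true :=
  ⟨by decide +kernel, by decide +kernel, by decide +kernel, by decide +kernel, by decide +kernel, by decide +kernel, by decide +kernel, by decide +kernel⟩

def t24119 : allY (E.wth (lkp [])) l24119 = true ∧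
    allY (E.wth (lkp [])) l24120 = true ∧
    allY (E.wth (lkp [])) l24121 = true ∧
    allY (E.wth (lkp [])) l24122 = true ∧
    allY (E.wth (lkp [])) l24123 = true ∧
    allY (E.wth (lkp [])) l24124 = true ∧
    allY (E.wth (lkp [])) l24125 = true ∧
    allY (E.wth (lkp [])) l24126 = true :=
  ⟨by decide +kernel, by decide +kernel, by decide +kernel, by decide +kernel, by decide +kernel, by decide +kernel, by decide +kernel, by decide +kernel⟩

def t24127 : allY (E.wth (lkp [])) l24127 = true ∧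
    allY (E.wth (lkp [])) l24128 = true ∧
    allY (E.wth (lkp [])) l24129 = true ∧
    allY (E.wth (lkp [])) l24130 = true ∧
    allY (E.wth (lkp [])) l24131 = true ∧
    allY (E.wth (lkp [])) l24132 = true ∧
    allY (E.wth (lkp [])) l24133 = true ∧
    allY (E.wth (lkp [])) l24134 = true :=
  ⟨by decide +kernel, by decide +kernel, by decide +kernel, by decide +kernel, by decide +kernel, by decide +kernel, by decide +kernel, by decide +kernel⟩

def t24135 : allY (E.wth (lkp [])) l24135 = true ∧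
    allY (E.wth (lkp [])) l24136 = true ∧
    allY (E.wth (lkp [])) l24137 = true ∧
    allY (E.wth (lkp [])) l24138 = true ∧
    allY (E.wth (lkp [])) l24139 = true ∧
    allY (E.wth (lkp [])) l24140 = true ∧
    allY (E.wth (lkp [])) l24141 = true ∧
    allY (E.wth (lkp [])) l24142 = true :=
  ⟨by decide +kernel, by decide +kernel, by decide +kernel, by decide +kernel, by decide +kernel, by decide +kernel, by decide +kernel, by decide +kernel⟩

def t24143 : allY (E.wth (lkp [])) l24143 = true ∧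
    allY (E.wth (lkp [])) l24144 = true ∧
    allY (E.wth (lkp [])) l24145 = true ∧
    allY (E.wth (lkp [])) l24146 = true ∧
    allY (E.wth (lkp [])) l24147 = true ∧
    allY (E.wth (lkp [])) l24148 = true ∧
    allY (E.wth (lkp [])) l24149 = true ∧
    allY (E.wth (lkp [])) l24150 = true :=
  ⟨by decide +kernel, by decide +kernel, by decide +kernel, by decide +kernel, by decide +kernel, by decide +kernel, by decide +kernel, by decide +kernel⟩

def t24151 : allY (E.wth (lkp [])) l24151 = true ∧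
    allY (E.wth (lkp [])) l24152 = true ∧
    allY (E.wth (lkp [])) l24153 = true ∧
    allY (E.wth (lkp [])) l24154 = true ∧
    allY (E.wth (lkp [])) l24155 = true ∧
    allY (E.wth (lkp [])) l24156 = true ∧
    allY (E.wth (lkp [])) l24157 = true ∧
    allY (E.wth (lkp [])) l24158 = true :=
  ⟨by decide +kernel, by decide +kernel, by decide +kernel, by decide +kernel, by decide +kernel, by decide +kernel, by decide +kernel, by decide +kernel⟩

def t24159 : allY (E.wth (lkp [])) l24159 = true ∧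
    allY (E.wth (lkp [])) l24160 = true ∧
    allY (E.wth (lkp [])) l24161 = true ∧
    allY (E.wth (lkp [])) l24162 = true ∧
    allY (E.wth (lkp [])) l24163 = true ∧
    allY (E.wth (lkp [])) l24164 = true ∧
    allY (E.wth (lkp [])) l24165 = true ∧
    allY (E.wth (lkp [])) l24166 = true :=
  ⟨by decide +kernel, by decide +kernel, by decide +kernel, by decide +kernel, by decide +kernel, by decide +kernel, by decide +kernel, by decide +kernel⟩

def t24167 : allY (E.wth (lkp [])) l24167 = true ∧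
    allY (E.wth (lkp [])) l24168 = true ∧
    allY (E.wth (lkp [])) l24169 = true ∧
    allY (E.wth (lkp [])) l24170 = true ∧
    allY (E.wth (lkp [])) l24171 = true ∧
    allY (E.wth (lkp [])) l24172 = true ∧
    allY (E.wth (lkp [])) l24173 = true ∧
    allY (E.wth (lkp [])) l24174 = true :=
  ⟨by decide +kernel, by decide +kernel, by decide +kernel, by decide +kernel, by decide +kernel, by decide +kernel, by decide +kernel, by decide +kernel⟩

def t24175 : allY (E.wth (lkp [])) l24175 = true ∧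
    allY (E.wth (lkp [])) l24176 = true ∧
    allY (E.wth (lkp [])) l24177 = true ∧
    allY (E.wth (lkp [])) l24178 = true ∧
    allY (E.wth (lkp [])) l24179 = true ∧
    allY (E.wth (lkp [])) l24180 = true ∧
    allY (E.wth (lkp [])) l24181 = true ∧
    allY (E.wth (lkp [])) l24182 = true :=
  ⟨by decide +kernel, by decide +kernel, by decide +kernel, by decide +kernel, by decide +kernel, by decide +kernel, by decide +kernel, by decide +kernel⟩

def t24183 : allY (E.wth (lkp [])) l24183 = true ∧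
    allY (E.wth (lkp [])) l24184 = true ∧
    allY (E.wth (lkp [])) l24185 = true ∧
    allY (E.wth (lkp [])) l24186 = true ∧
    allY (E.wth (lkp [])) l24187 = true ∧
    allY (E.wth (lkp [])) l24188 = true ∧
    allY (E.wth (lkp [])) l24189 = true ∧
    allY (E.wth (lkp [])) l24190 = true :=
  ⟨by decide +kernel, by decide +kernel, by decide +kernel, by decide +kernel, by decide +kernel, by decide +kernel, by decide +kernel, by decide +kernel⟩

def t24191 : allY (E.wth (lkp [])) l24191 = true ∧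
    allY (E.wth (lkp [])) l24192 = true ∧
    allY (E.wth (lkp [])) l24193 = true ∧
    allY (E.wth (lkp [])) l24194 = true ∧
    allY (E.wth (lkp [])) l24195 = true ∧
    allY (E.wth (lkp [])) l24196 = true ∧
    allY (E.wth (lkp [])) l24197 = true ∧
    allY (E.wth (lkp [])) l24198 = true :=
  ⟨by decide +kernel, by decide +kernel, by decide +kernel, by decide +kernel, by decide +kernel, by decide +kernel, by decide +kernel, by decide +kernel⟩

def t24199 : allY (E.wth (lkp [])) l24199 = true ∧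
    allY (E.wth (lkp [])) l24200 = true ∧
    allY (E.wth (lkp [])) l24201 = true ∧
    allY (E.wth (lkp [])) l24202 = true ∧
    allY (E.wth (lkp [])) l24203 = true ∧
    allY (E.wth (lkp [])) l24204 = true ∧
    allY (E.wth (lkp [])) l24205 = true ∧
    allY (E.wth (lkp [])) l24206 = true :=
  ⟨by decide +kernel, by decide +kernel, by decide +kernel, by decide +kernel, by decide +kernel, by decide +kernel, by decide +kernel, by decide +kernel⟩

def t24207 : allY (E.wth (lkp [])) l24207 = true ∧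
    allY (E.wth (lkp [])) l24208 = true ∧
    allY (E.wth (lkp [])) l24209 = true ∧
    allY (E.wth (lkp [])) l24210 = true ∧
    allY (E.wth (lkp [])) l24211 = true ∧
    allY (E.wth (lkp [])) l24212 = true ∧
    allY (E.wth (lkp [])) l24213 = true ∧
    allY (E.wth (lkp [])) l24214 = true :=
  ⟨by decide +kernel, by decide +kernel, by decide +kernel, by decide +kernel, by decide +kernel, by decide +kernel, by decide +kernel, by decide +kernel⟩

def t24215 : allY (E.wth (lkp [])) l24215 = true ∧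
    allY (E.wth (lkp [])) l24216 = true ∧
    allY (E.wth (lkp [])) l24217 = true ∧
    allY (E.wth (lkp [])) l24218 = true ∧
    allY (E.wth (lkp [])) l24219 = true ∧
    allY (E.wth (lkp [])) l24220 = true ∧
    allY (E.wth (lkp [])) l24221 = true ∧
    allY (E.wth (lkp [])) l24222 = true :=
  ⟨by decide +kernel, by decide +kernel, by decide +kernel, by decide +kernel, by decide +kernel, by decide +kernel, by decide +kernel, by decide +kernel⟩

def t24223 : allY (E.wth (lkp [])) l24223 = true ∧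
    allY (E.wth (lkp [])) l24224 = true ∧
    allY (E.wth (lkp [])) l24225 = true ∧
    allY (E.wth (lkp [])) l24226 = true ∧
    allY (E.wth (lkp [])) l24227 = true ∧
    allY (E.wth (lkp [])) l24228 = true ∧
    allY (E.wth (lkp [])) l24229 = true ∧
    allY (E.wth (lkp [])) l24230 = true :=
  ⟨by decide +kernel, by decide +kernel, by decide +kernel, by decide +kernel, by decide +kernel, by decide +kernel, by decide +kernel, by decide +kernel⟩

def t24231 : allY (E.wth (lkp [])) l24231 = true ∧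
    allY (E.wth (lkp [])) l24232 = true ∧
    allY (E.wth (lkp [])) l24233 = true ∧
    allY (E.wth (lkp [])) l24234 = true ∧
    allY (E.wth (lkp [])) l24235 = true ∧
    allY (E.wth (lkp [])) l24236 = true ∧
    allY (E.wth (lkp [])) l24237 = true ∧
    allY (E.wth (lkp [])) l24238 = true :=
  ⟨by decide +kernel, by decide +kernel, by decide +kernel, by decide +kernel, by decide +kernel, by decide +kernel, by decide +kernel, by decide +kernel⟩

def t24239 : allY (E.wth (lkp [])) l24239 = true ∧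
    allY (E.wth (lkp [])) l24240 = true ∧
    allY (E.wth (lkp [])) l24241 = true ∧
    allY (E.wth (lkp [])) l24242 = true ∧
    allY (E.wth (lkp [])) l24243 = true ∧
    allY (E.wth (lkp [])) l24244 = true ∧
    allY (E.wth (lkp [])) l24245 = true ∧
    allY (E.wth (lkp [])) l24246 = true :=
  ⟨by decide +kernel, by decide +kernel, by decide +kernel, by decide +kernel, by decide +kernel, by decide +kernel, by decide +kernel, by decide +kernel⟩

def t24247 : allY (E.wth (lkp [])) l24247 = true ∧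
    allY (E.wth (lkp [])) l24248 = true ∧
    allY (E.wth (lkp [])) l24249 = true ∧
    allY (E.wth (lkp [])) l24250 = true ∧
    allY (E.wth (lkp [])) l24251 = true ∧
    allY (E.wth (lkp [])) l24252 = true ∧
    allY (E.wth (lkp [])) l24253 = true ∧
    allY (E.wth (lkp [])) l24254 = true :=
  ⟨by decide +kernel, by decide +kernel, by decide +kernel, by decide +kernel, by decide +kernel, by decide +kernel, by decide +kernel, by decide +kernel⟩

def t24255 : allY (E.wth (lkp [])) l24255 = true ∧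
    allY (E.wth (lkp [])) l24256 = true ∧
    allY (E.wth (lkp [])) l24257 = true ∧
    allY (E.wth (lkp [])) l24258 = true ∧
    allY (E.wth (lkp [])) l24259 = true ∧
    allY (E.wth (lkp [])) l24260 = true ∧
    allY (E.wth (lkp [])) l24261 = true ∧
    allY (E.wth (lkp [])) l24262 = true :=
  ⟨by decide +kernel, by decide +kernel, by decide +kernel, by decide +kernel, by decide +kernel, by decide +kernel, by decide +kernel, by decide +kernel⟩

def t24263 : allY (E.wth (lkp [])) l24263 = true ∧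
    allY (E.wth (lkp [])) l24264 = true ∧
    allY (E.wth (lkp [])) l24265 = true ∧
    allY (E.wth (lkp [])) l24266 = true ∧
    allY (E.wth (lkp [])) l24267 = true ∧
    allY (E.wth (lkp [])) l24268 = true ∧
    allY (E.wth (lkp [])) l24269 = true ∧
    allY (E.wth (lkp [])) l24270 = true :=
  ⟨by decide +kernel, by decide +kernel, by decide +kernel, by decide +kernel, by decide +kernel, by decide +kernel, by decide +kernel, by decide +kernel⟩

def t24271 : allY (E.wth (lkp [])) l24271 = true ∧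
    allY (E.wth (lkp [])) l24272 = true ∧
    allY (E.wth (lkp [])) l24273 = true ∧
    allY (E.wth (lkp [])) l24274 = true ∧
    allY (E.wth (lkp [])) l24275 = true ∧
    allY (E.wth (lkp [])) l24276 = true ∧
    allY (E.wth (lkp [])) l24277 = true ∧
    allY (E.wth (lkp [])) l24278 = true :=
  ⟨by decide +kernel, by decide +kernel, by decide +kernel, by decide +kernel, by decide +kernel, by decide +kernel, by decide +kernel, by decide +kernel⟩

def t24279 : allY (E.wth (lkp [])) l24279 = true ∧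
    allY (E.wth (lkp [])) l24280 = true ∧
    allY (E.wth (lkp [])) l24281 = true ∧
    allY (E.wth (lkp [])) l24282 = true ∧
    allY (E.wth (lkp [])) l24283 = true ∧
    allY (E.wth (lkp [])) l24284 = true ∧
    allY (E.wth (lkp [])) l24285 = true ∧
    allY (E.wth (lkp [])) l24286 = true :=
  ⟨by decide +kernel, by decide +kernel, by decide +kernel, by decide +kernel, by decide +kernel, by decide +kernel, by decide +kernel, by decide +kernel⟩

def t24287 : allY (E.wth (lkp [])) l24287 = true ∧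
    allY (E.wth (lkp [])) l24288 = true ∧
    allY (E.wth (lkp [])) l24289 = true ∧
    allY (E.wth (lkp [])) l24290 = true ∧
    allY (E.wth (lkp [])) l24291 = true ∧
    allY (E.wth (lkp [])) l24292 = true ∧
    allY (E.wth (lkp [])) l24293 = true ∧
    allY (E.wth (lkp [])) l24294 = true :=
  ⟨by decide +kernel, by decide +kernel, by decide +kernel, by decide +kernel, by decide +kernel, by decide +kernel, by decide +kernel, by decide +kernel⟩

def t24295 : allY (E.wth (lkp [])) l24295 = true ∧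
    allY (E.wth (lkp [])) l24296 = true ∧
    allY (E.wth (lkp [])) l24297 = true ∧
    allY (E.wth (lkp [])) l24298 = true ∧
    allY (E.wth (lkp [])) l24299 = true ∧
    allY (E.wth (lkp [])) l24300 = true ∧
    allY (E.wth (lkp [])) l24301 = true ∧
    allY (E.wth (lkp [])) l24302 = true :=
  ⟨by decide +kernel, by decide +kernel, by decide +kernel, by decide +kernel, by decide +kernel, by decide +kernel, by decide +kernel, by decide +kernel⟩

def t24303 : allY (E.wth (lkp [])) l24303 = true ∧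
    allY (E.wth (lkp [])) l24304 = true ∧
    allY (E.wth (lkp [])) l24305 = true ∧
    allY (E.wth (lkp [])) l24306 = true ∧
    allY (E.wth (lkp [])) l24307 = true ∧
    allY (E.wth (lkp [])) l24308 = true ∧
    allY (E.wth (lkp [])) l24309 = true ∧
    allY (E.wth (lkp [])) l24310 = true :=
  ⟨by decide +kernel, by decide +kernel, by decide +kernel, by decide +kernel, by decide +kernel, by decide +kernel, by decide +kernel, by decide +kernel⟩

def t24311 : allY (E.wth (lkp [])) l24311 = true ∧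
    allY (E.wth (lkp [])) l24312 = true ∧
    allY (E.wth (lkp [])) l24313 = true ∧
    allY (E.wth (lkp [])) l24314 = true ∧
    allY (E.wth (lkp [])) l24315 = true ∧
    allY (E.wth (lkp [])) l24316 = true ∧
    allY (E.wth (lkp [])) l24317 = true ∧
    allY (E.wth (lkp [])) l24318 = true :=
  ⟨by decide +kernel, by decide +kernel, by decide +kernel, by decide +kernel, by decide +kernel, by decide +kernel, by decide +kernel, by decide +kernel⟩

def t24319 : allY (E.wth (lkp [])) l24319 = true ∧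
    allY (E.wth (lkp [])) l24320 = true ∧
    allY (E.wth (lkp [])) l24321 = true ∧
    allY (E.wth (lkp [])) l24322 = true ∧
    allY (E.wth (lkp [])) l24323 = true ∧
    allY (E.wth (lkp [])) l24324 = true ∧
    allY (E.wth (lkp [])) l24325 = true ∧
    allY (E.wth (lkp [])) l24326 = true :=
  ⟨by decide +kernel, by decide +kernel, by decide +kernel, by decide +kernel, by decide +kernel, by decide +kernel, by decide +kernel, by decide +kernel⟩

def t24327 : allY (E.wth (lkp [])) l24327 = true ∧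
    allY (E.wth (lkp [])) l24328 = true ∧
    allY (E.wth (lkp [])) l24329 = true ∧
    allY (E.wth (lkp [])) l24330 = true ∧
    allY (E.wth (lkp [])) l24331 = true ∧
    allY (E.wth (lkp [])) l24332 = true ∧
    allY (E.wth (lkp [])) l24333 = true ∧
    allY (E.wth (lkp [])) l24334 = true :=
  ⟨by decide +kernel, by decide +kernel, by decide +kernel, by decide +kernel, by decide +kernel, by decide +kernel, by decide +kernel, by decide +kernel⟩

def t24335 : allY (E.wth (lkp [])) l24335 = true ∧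
    allY (E.wth (lkp [])) l24336 = true ∧
    allY (E.wth (lkp [])) l24337 = true ∧
    allY (E.wth (lkp [])) l24338 = true ∧
    allY (E.wth (lkp [])) l24339 = true ∧
    allY (E.wth (lkp [])) l24340 = true ∧
    allY (E.wth (lkp [])) l24341 = true ∧
    allY (E.wth (lkp [])) l24342 = true :=
  ⟨by decide +kernel, by decide +kernel, by decide +kernel, by decide +kernel, by decide +kernel, by decide +kernel, by decide +kernel, by decide +kernel⟩

def t24343 : allY (E.wth (lkp [])) l24343 = true ∧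
    allY (E.wth (lkp [])) l24344 = true ∧
    allY (E.wth (lkp [])) l24345 = true ∧
    allY (E.wth (lkp [])) l24346 = true ∧
    allY (E.wth (lkp [])) l24347 = true ∧
    allY (E.wth (lkp [])) l24348 = true ∧
    allY (E.wth (lkp [])) l24349 = true ∧
    allY (E.wth (lkp [])) l24350 = true :=
  ⟨by decide +kernel, by decide +kernel, by decide +kernel, by decide +kernel, by decide +kernel, by decide +kernel, by decide +kernel, by decide +kernel⟩

def t24351 : allY (E.wth (lkp [])) l24351 = true ∧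
    allY (E.wth (lkp [])) l24352 = true ∧
    allY (E.wth (lkp [])) l24353 = true ∧
    allY (E.wth (lkp [])) l24354 = true ∧
    allY (E.wth (lkp [])) l24355 = true ∧
    allY (E.wth (lkp [])) l24356 = true ∧
    allY (E.wth (lkp [])) l24357 = true ∧
    allY (E.wth (lkp [])) l24358 = true :=
  ⟨by decide +kernel, by decide +kernel, by decide +kernel, by decide +kernel, by decide +kernel, by decide +kernel, by decide +kernel, by decide +kernel⟩

def t24359 : allY (E.wth (lkp [])) l24359 = true ∧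
    allY (E.wth (lkp [])) l24360 = true ∧
    allY (E.wth (lkp [])) l24361 = true ∧
    allY (E.wth (lkp [])) l24362 = true ∧
    allY (E.wth (lkp [])) l24363 = true ∧
    allY (E.wth (lkp [])) l24364 = true ∧
    allY (E.wth (lkp [])) l24365 = true ∧
    allY (E.wth (lkp [])) l24366 = true :=
  ⟨by decide +kernel, by decide +kernel, by decide +kernel, by decide +kernel, by decide +kernel, by decide +kernel, by decide +kernel, by decide +kernel⟩

def t24367 : allY (E.wth (lkp [])) l24367 = true ∧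
    allY (E.wth (lkp [])) l24368 = true ∧
    allY (E.wth (lkp [])) l24369 = true ∧
    allY (E.wth (lkp [])) l24370 = true ∧
    allY (E.wth (lkp [])) l24371 = true ∧
    allY (E.wth (lkp [])) l24372 = true ∧
    allY (E.wth (lkp [])) l24373 = true ∧
    allY (E.wth (lkp [])) l24374 = true :=
  ⟨by decide +kernel, by decide +kernel, by decide +kernel, by decide +kernel, by decide +kernel, by decide +kernel, by decide +kernel, by decide +kernel⟩

def t24375 : allY (E.wth (lkp [])) l24375 = true ∧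
    allY (E.wth (lkp [])) l24376 = true ∧
    allY (E.wth (lkp [])) l24377 = true ∧
    allY (E.wth (lkp [])) l24378 = true ∧
    allY (E.wth (lkp [])) l24379 = true ∧
    allY (E.wth (lkp [])) l24380 = true ∧
    allY (E.wth (lkp [])) l24381 = true ∧
    allY (E.wth (lkp [])) l24382 = true :=
  ⟨by decide +kernel, by decide +kernel, by decide +kernel, by decide +kernel, by decide +kernel, by decide +kernel, by decide +kernel, by decide +kernel⟩

def t24383 : allY (E.wth (lkp [])) l24383 = true ∧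
    allY (E.wth (lkp [])) l24384 = true ∧
    allY (E.wth (lkp [])) l24385 = true ∧
    allY (E.wth (lkp [])) l24386 = true ∧
    allY (E.wth (lkp [])) l24387 = true ∧
    allY (E.wth (lkp [])) l24388 = true ∧
    allY (E.wth (lkp [])) l24389 = true ∧
    allY (E.wth (lkp [])) l24390 = true :=
  ⟨by decide +kernel, by decide +kernel, by decide +kernel, by decide +kernel, by decide +kernel, by decide +kernel, by decide +kernel, by decide +kernel⟩

def t24391 : allY (E.wth (lkp [])) l24391 = true ∧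
    allY (E.wth (lkp [])) l24392 = true ∧
    allY (E.wth (lkp [])) l24393 = true ∧
    allY (E.wth (lkp [])) l24394 = true ∧
    allY (E.wth (lkp [])) l24395 = true ∧
    allY (E.wth (lkp [])) l24396 = true ∧
    allY (E.wth (lkp [])) l24397 = true ∧
    allY (E.wth (lkp [])) l24398 = true :=
  ⟨by decide +kernel, by decide +kernel, by decide +kernel, by decide +kernel, by decide +kernel, by decide +kernel, by decide +kernel, by decide +kernel⟩

def t24399 : allY (E.wth (lkp [])) l24399 = true ∧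
    allY (E.wth (lkp [])) l24400 = true ∧
    allY (E.wth (lkp [])) l24401 = true ∧
    allY (E.wth (lkp [])) l24402 = true ∧
    allY (E.wth (lkp [])) l24403 = true ∧
    allY (E.wth (lkp [])) l24404 = true ∧
    allY (E.wth (lkp [])) l24405 = true ∧
    allY (E.wth (lkp [])) l24406 = true :=
  ⟨by decide +kernel, by decide +kernel, by decide +kernel, by decide +kernel, by decide +kernel, by decide +kernel, by decide +kernel, by decide +kernel⟩

def t24407 : allY (E.wth (lkp [])) l24407 = true ∧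
    allY (E.wth (lkp [])) l24408 = true ∧
    allY (E.wth (lkp [])) l24409 = true ∧
    allY (E.wth (lkp [])) l24410 = true ∧
    allY (E.wth (lkp [])) l24411 = true ∧
    allY (E.wth (lkp [])) l24412 = true ∧
    allY (E.wth (lkp [])) l24413 = true ∧
    allY (E.wth (lkp [])) l24414 = true :=
  ⟨by decide +kernel, by decide +kernel, by decide +kernel, by decide +kernel, by decide +kernel, by decide +kernel, by decide +kernel, by decide +kernel⟩

def t24415 : allY (E.wth (lkp [])) l24415 = true ∧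
    allY (E.wth (lkp [])) l24416 = true ∧
    allY (E.wth (lkp [])) l24417 = true ∧
    allY (E.wth (lkp [])) l24418 = true ∧
    allY (E.wth (lkp [])) l24419 = true ∧
    allY (E.wth (lkp [])) l24420 = true ∧
    allY (E.wth (lkp [])) l24421 = true ∧
    allY (E.wth (lkp [])) l24422 = true :=
  ⟨by decide +kernel, by decide +kernel, by decide +kernel, by decide +kernel, by decide +kernel, by decide +kernel, by decide +kernel, by decide +kernel⟩

def t24423 : allY (E.wth (lkp [])) l24423 = true ∧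
    allY (E.wth (lkp [])) l24424 = true ∧
    allY (E.wth (lkp [])) l24425 = true ∧
    allY (E.wth (lkp [])) l24426 = true ∧
    allY (E.wth (lkp [])) l24427 = true ∧
    allY (E.wth (lkp [])) l24428 = true ∧
    allY (E.wth (lkp [])) l24429 = true ∧
    allY (E.wth (lkp [])) l24430 = true :=
  ⟨by decide +kernel, by decide +kernel, by decide +kernel, by decide +kernel, by decide +kernel, by decide +kernel, by decide +kernel, by decide +kernel⟩

def t24431 : allY (E.wth (lkp [])) l24431 = true ∧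
    allY (E.wth (lkp [])) l24432 = true ∧
    allY (E.wth (lkp [])) l24433 = true ∧
    allY (E.wth (lkp [])) l24434 = true ∧
    allY (E.wth (lkp [])) l24435 = true ∧
    allY (E.wth (lkp [])) l24436 = true ∧
    allY (E.wth (lkp [])) l24437 = true ∧
    allY (E.wth (lkp [])) l24438 = true :=
  ⟨by decide +kernel, by decide +kernel, by decide +kernel, by decide +kernel, by decide +kernel, by decide +kernel, by decide +kernel, by decide +kernel⟩

def t24439 : allY (E.wth (lkp [])) l24439 = true ∧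
    allY (E.wth (lkp [])) l24440 = true ∧
    allY (E.wth (lkp [])) l24441 = true ∧
    allY (E.wth (lkp [])) l24442 = true ∧
    allY (E.wth (lkp [])) l24443 = true ∧
    allY (E.wth (lkp [])) l24444 = true ∧
    allY (E.wth (lkp [])) l24445 = true ∧
    allY (E.wth (lkp [])) l24446 = true :=
  ⟨by decide +kernel, by decide +kernel, by decide +kernel, by decide +kernel, by decide +kernel, by decide +kernel, by decide +kernel, by decide +kernel⟩

def t24447 : allY (E.wth (lkp [])) l24447 = true ∧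
    allY (E.wth (lkp [])) l24448 = true ∧
    allY (E.wth (lkp [])) l24449 = true ∧
    allY (E.wth (lkp [])) l24450 = true ∧
    allY (E.wth (lkp [])) l24451 = true ∧
    allY (E.wth (lkp [])) l24452 = true ∧
    allY (E.wth (lkp [])) l24453 = true ∧
    allY (E.wth (lkp [])) l24454 = true :=
  ⟨by decide +kernel, by decide +kernel, by decide +kernel, by decide +kernel, by decide +kernel, by decide +kernel, by decide +kernel, by decide +kernel⟩

def t24455 : allY (E.wth (lkp [])) l24455 = true ∧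
    allY (E.wth (lkp [])) l24456 = true ∧
    allY (E.wth (lkp [])) l24457 = true ∧
    allY (E.wth (lkp [])) l24458 = true ∧
    allY (E.wth (lkp [])) l24459 = true ∧
    allY (E.wth (lkp [])) l24460 = true ∧
    allY (E.wth (lkp [])) l24461 = true ∧
    allY (E.wth (lkp [])) l24462 = true :=
  ⟨by decide +kernel, by decide +kernel, by decide +kernel, by decide +kernel, by decide +kernel, by decide +kernel, by decide +kernel, by decide +kernel⟩

def t24463 : allY (E.wth (lkp [])) l24463 = true ∧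
    allY (E.wth (lkp [])) l24464 = true ∧
    allY (E.wth (lkp [])) l24465 = true ∧
    allY (E.wth (lkp [])) l24466 = true ∧
    allY (E.wth (lkp [])) l24467 = true ∧
    allY (E.wth (lkp [])) l24468 = true ∧
    allY (E.wth (lkp [])) l24469 = true ∧
    allY (E.wth (lkp [])) l24470 = true :=
  ⟨by decide +kernel, by decide +kernel, by decide +kernel, by decide +kernel, by decide +kernel, by decide +kernel, by decide +kernel, by decide +kernel⟩

def t24471 : allY (E.wth (lkp [])) l24471 = true ∧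
    allY (E.wth (lkp [])) l24472 = true ∧
    allY (E.wth (lkp [])) l24473 = true ∧
    allY (E.wth (lkp [])) l24474 = true ∧
    allY (E.wth (lkp [])) l24475 = true ∧
    allY (E.wth (lkp [])) l24476 = true ∧
    allY (E.wth (lkp [])) l24477 = true ∧
    allY (E.wth (lkp [])) l24478 = true :=
  ⟨by decide +kernel, by decide +kernel, by decide +kernel, by decide +kernel, by decide +kernel, by decide +kernel, by decide +kernel, by decide +kernel⟩

def t24479 : allY (E.wth (lkp [])) l24479 = true ∧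
    allY (E.wth (lkp [])) l24480 = true ∧
    allY (E.wth (lkp [])) l24481 = true ∧
    allY (E.wth (lkp [])) l24482 = true ∧
    allY (E.wth (lkp [])) l24483 = true ∧
    allY (E.wth (lkp [])) l24484 = true ∧
    allY (E.wth (lkp [])) l24485 = true ∧
    allY (E.wth (lkp [])) l24486 = true :=
  ⟨by decide +kernel, by decide +kernel, by decide +kernel, by decide +kernel, by decide +kernel, by decide +kernel, by decide +kernel, by decide +kernel⟩

def t24487 : allY (E.wth (lkp [])) l24487 = true ∧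
    allY (E.wth (lkp [])) l24488 = true ∧
    allY (E.wth (lkp [])) l24489 = true ∧
    allY (E.wth (lkp [])) l24490 = true ∧
    allY (E.wth (lkp [])) l24491 = true ∧
    allY (E.wth (lkp [])) l24492 = true ∧
    allY (E.wth (lkp [])) l24493 = true ∧
    allY (E.wth (lkp [])) l24494 = true :=
  ⟨by decide +kernel, by decide +kernel, by decide +kernel, by decide +kernel, by decide +kernel, by decide +kernel, by decide +kernel, by decide +kernel⟩

def t24495 : allY (E.wth (lkp [])) l24495 = true ∧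
    allY (E.wth (lkp [])) l24496 = true ∧
    allY (E.wth (lkp [])) l24497 = true ∧
    allY (E.wth (lkp [])) l24498 = true ∧
    allY (E.wth (lkp [])) l24499 = true ∧
    allY (E.wth (lkp [])) l24500 = true ∧
    allY (E.wth (lkp [])) l24501 = true ∧
    allY (E.wth (lkp [])) l24502 = true :=
  ⟨by decide +kernel, by decide +kernel, by decide +kernel, by decide +kernel, by decide +kernel, by decide +kernel, by decide +kernel, by decide +kernel⟩

def t24503 : allY (E.wth (lkp [])) l24503 = true ∧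
    allY (E.wth (lkp [])) l24504 = true ∧
    allY (E.wth (lkp [])) l24505 = true ∧
    allY (E.wth (lkp [])) l24506 = true ∧
    allY (E.wth (lkp [])) l24507 = true ∧
    allY (E.wth (lkp [])) l24508 = true ∧
    allY (E.wth (lkp [])) l24509 = true ∧
    allY (E.wth (lkp [])) l24510 = true :=
  ⟨by decide +kernel, by decide +kernel, by decide +kernel, by decide +kernel, by decide +kernel, by decide +kernel, by decide +kernel, by decide +kernel⟩

def t24511 : allY (E.wth (lkp [])) l24511 = true ∧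
    allY (E.wth (lkp [])) l24512 = true ∧
    allY (E.wth (lkp [])) l24513 = true ∧
    allY (E.wth (lkp [])) l24514 = true ∧
    allY (E.wth (lkp [])) l24515 = true ∧
    allY (E.wth (lkp [])) l24516 = true ∧
    allY (E.wth (lkp [])) l24517 = true ∧
    allY (E.wth (lkp [])) l24518 = true :=
  ⟨by decide +kernel, by decide +kernel, by decide +kernel, by decide +kernel, by decide +kernel, by decide +kernel, by decide +kernel, by decide +kernel⟩

def t24519 : allY (E.wth (lkp [])) l24519 = true ∧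
    allY (E.wth (lkp [])) l24520 = true ∧
    allY (E.wth (lkp [])) l24521 = true ∧
    allY (E.wth (lkp [])) l24522 = true ∧
    allY (E.wth (lkp [])) l24523 = true ∧
    allY (E.wth (lkp [])) l24524 = true ∧
    allY (E.wth (lkp [])) l24525 = true ∧
    allY (E.wth (lkp [])) l24526 = true :=
  ⟨by decide +kernel, by decide +kernel, by decide +kernel, by decide +kernel, by decide +kernel, by decide +kernel, by decide +kernel, by decide +kernel⟩

def t24527 : allY (E.wth (lkp [])) l24527 = true ∧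
    allY (E.wth (lkp [])) l24528 = true ∧
    allY (E.wth (lkp [])) l24529 = true ∧
    allY (E.wth (lkp [])) l24530 = true ∧
    allY (E.wth (lkp [])) l24531 = true ∧
    allY (E.wth (lkp [])) l24532 = true ∧
    allY (E.wth (lkp [])) l24533 = true ∧
    allY (E.wth (lkp [])) l24534 = true :=
  ⟨by decide +kernel, by decide +kernel, by decide +kernel, by decide +kernel, by decide +kernel, by decide +kernel, by decide +kernel, by decide +kernel⟩

def t24535 : allY (E.wth (lkp [])) l24535 = true ∧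
    allY (E.wth (lkp [])) l24536 = true ∧
    allY (E.wth (lkp [])) l24537 = true ∧
    allY (E.wth (lkp [])) l24538 = true ∧
    allY (E.wth (lkp [])) l24539 = true ∧
    allY (E.wth (lkp [])) l24540 = true ∧
    allY (E.wth (lkp [])) l24541 = true ∧
    allY (E.wth (lkp [])) l24542 = true :=
  ⟨by decide +kernel, by decide +kernel, by decide +kernel, by decide +kernel, by decide +kernel, by decide +kernel, by decide +kernel, by decide +kernel⟩

def t24543 : allY (E.wth (lkp [])) l24543 = true ∧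
    allY (E.wth (lkp [])) l24544 = true ∧
    allY (E.wth (lkp [])) l24545 = true ∧
    allY (E.wth (lkp [])) l24546 = true ∧
    allY (E.wth (lkp [])) l24547 = true ∧
    allY (E.wth (lkp [])) l24548 = true ∧
    allY (E.wth (lkp [])) l24549 = true ∧
    allY (E.wth (lkp [])) l24550 = true :=
  ⟨by decide +kernel, by decide +kernel, by decide +kernel, by decide +kernel, by decide +kernel, by decide +kernel, by decide +kernel, by decide +kernel⟩

def t24551 : allY (E.wth (lkp [])) l24551 = true ∧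
    allY (E.wth (lkp [])) l24552 = true ∧
    allY (E.wth (lkp [])) l24553 = true ∧
    allY (E.wth (lkp [])) l24554 = true ∧
    allY (E.wth (lkp [])) l24555 = true ∧
    allY (E.wth (lkp [])) l24556 = true ∧
    allY (E.wth (lkp [])) l24557 = true ∧
    allY (E.wth (lkp [])) l24558 = true :=
  ⟨by decide +kernel, by decide +kernel, by decide +kernel, by decide +kernel, by decide +kernel, by decide +kernel, by decide +kernel, by decide +kernel⟩

def t24559 : allY (E.wth (lkp [])) l24559 = true ∧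
    allY (E.wth (lkp [])) l24560 = true ∧
    allY (E.wth (lkp [])) l24561 = true ∧
    allY (E.wth (lkp [])) l24562 = true ∧
    allY (E.wth (lkp [])) l24563 = true ∧
    allY (E.wth (lkp [])) l24564 = true ∧
    allY (E.wth (lkp [])) l24565 = true ∧
    allY (E.wth (lkp [])) l24566 = true :=
  ⟨by decide +kernel, by decide +kernel, by decide +kernel, by decide +kernel, by decide +kernel, by decide +kernel, by decide +kernel, by decide +kernel⟩

def t24567 : allY (E.wth (lkp [])) l24567 = true ∧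
    allY (E.wth (lkp [])) l24568 = true ∧
    allY (E.wth (lkp [])) l24569 = true ∧
    allY (E.wth (lkp [])) l24570 = true ∧
    allY (E.wth (lkp [])) l24571 = true ∧
    allY (E.wth (lkp [])) l24572 = true ∧
    allY (E.wth (lkp [])) l24573 = true ∧
    allY (E.wth (lkp [])) l24574 = true :=
  ⟨by decide +kernel, by decide +kernel, by decide +kernel, by decide +kernel, by decide +kernel, by decide +kernel, by decide +kernel, by decide +kernel⟩

def t24575 : allY (E.wth (lkp [])) l24575 = true ∧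
    allY (E.wth (lkp [])) l24576 = true ∧
    allY (E.wth (lkp [])) l24577 = true ∧
    allY (E.wth (lkp [])) l24578 = true ∧
    allY (E.wth (lkp [])) l24579 = true ∧
    allY (E.wth (lkp [])) l24580 = true ∧
    allY (E.wth (lkp [])) l24581 = true ∧
    allY (E.wth (lkp [])) l24582 = true :=
  ⟨by decide +kernel, by decide +kernel, by decide +kernel, by decide +kernel, by decide +kernel, by decide +kernel, by decide +kernel, by decide +kernel⟩

def t24583 : allY (E.wth (lkp [])) l24583 = true ∧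
    allY (E.wth (lkp [])) l24584 = true ∧
    allY (E.wth (lkp [])) l24585 = true ∧
    allY (E.wth (lkp [])) l24586 = true ∧
    allY (E.wth (lkp [])) l24587 = true ∧
    allY (E.wth (lkp [])) l24588 = true ∧
    allY (E.wth (lkp [])) l24589 = true ∧
    allY (E.wth (lkp [])) l24590 = true :=
  ⟨by decide +kernel, by decide +kernel, by decide +kernel, by decide +kernel, by decide +kernel, by decide +kernel, by decide +kernel, by decide +kernel⟩

def t24591 : allY (E.wth (lkp [])) l24591 = true ∧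
    allY (E.wth (lkp [])) l24592 = true ∧
    allY (E.wth (lkp [])) l24593 = true ∧
    allY (E.wth (lkp [])) l24594 = true ∧
    allY (E.wth (lkp [])) l24595 = true ∧
    allY (E.wth (lkp [])) l24596 = true ∧
    allY (E.wth (lkp [])) l24597 = true ∧
    allY (E.wth (lkp [])) l24598 = true :=
  ⟨by decide +kernel, by decide +kernel, by decide +kernel, by decide +kernel, by decide +kernel, by decide +kernel, by decide +kernel, by decide +kernel⟩

def t24599 : allY (E.wth (lkp [])) l24599 = true ∧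
    allY (E.wth (lkp [])) l24600 = true ∧
    allY (E.wth (lkp [])) l24601 = true ∧
    allY (E.wth (lkp [])) l24602 = true ∧
    allY (E.wth (lkp [])) l24603 = true ∧
    allY (E.wth (lkp [])) l24604 = true ∧
    allY (E.wth (lkp [])) l24605 = true ∧
    allY (E.wth (lkp [])) l24606 = true :=
  ⟨by decide +kernel, by decide +kernel, by decide +kernel, by decide +kernel, by decide +kernel, by decide +kernel, by decide +kernel, by decide +kernel⟩

def t24607 : allY (E.wth (lkp [])) l24607 = true ∧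
    allY (E.wth (lkp [])) l24608 = true ∧
    allY (E.wth (lkp [])) l24609 = true ∧
    allY (E.wth (lkp [])) l24610 = true ∧
    allY (E.wth (lkp [])) l24611 = true ∧
    allY (E.wth (lkp [])) l24612 = true ∧
    allY (E.wth (lkp [])) l24613 = true ∧
    allY (E.wth (lkp [])) l24614 = true :=
  ⟨by decide +kernel, by decide +kernel, by decide +kernel, by decide +kernel, by decide +kernel, by decide +kernel, by decide +kernel, by decide +kernel⟩

def t24615 : allY (E.wth (lkp [])) l24615 = true ∧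
    allY (E.wth (lkp [])) l24616 = true ∧
    allY (E.wth (lkp [])) l24617 = true ∧
    allY (E.wth (lkp [])) l24618 = true ∧
    allY (E.wth (lkp [])) l24619 = true ∧
    allY (E.wth (lkp [])) l24620 = true ∧
    allY (E.wth (lkp [])) l24621 = true ∧
    allY (E.wth (lkp [])) l24622 = true :=
  ⟨by decide +kernel, by decide +kernel, by decide +kernel, by decide +kernel, by decide +kernel, by decide +kernel, by decide +kernel, by decide +kernel⟩

def t24623 : allY (E.wth (lkp [])) l24623 = true ∧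
    allY (E.wth (lkp [])) l24624 = true ∧
    allY (E.wth (lkp [])) l24625 = true ∧
    allY (E.wth (lkp [])) l24626 = true ∧
    allY (E.wth (lkp [])) l24627 = true ∧
    allY (E.wth (lkp [])) l24628 = true ∧
    allY (E.wth (lkp [])) l24629 = true ∧
    allY (E.wth (lkp [])) l24630 = true :=
  ⟨by decide +kernel, by decide +kernel, by decide +kernel, by decide +kernel, by decide +kernel, by decide +kernel, by decide +kernel, by decide +kernel⟩

def t24631 : allY (E.wth (lkp [])) l24631 = true ∧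
    allY (E.wth (lkp [])) l24632 = true ∧
    allY (E.wth (lkp [])) l24633 = true ∧
    allY (E.wth (lkp [])) l24634 = true ∧
    allY (E.wth (lkp [])) l24635 = true ∧
    allY (E.wth (lkp [])) l24636 = true ∧
    allY (E.wth (lkp [])) l24637 = true ∧
    allY (E.wth (lkp [])) l24638 = true :=
  ⟨by decide +kernel, by decide +kernel, by decide +kernel, by decide +kernel, by decide +kernel, by decide +kernel, by decide +kernel, by decide +kernel⟩

def t24639 : allY (E.wth (lkp [])) l24639 = true ∧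
    allY (E.wth (lkp [])) l24640 = true ∧
    allY (E.wth (lkp [])) l24641 = true ∧
    allY (E.wth (lkp [])) l24642 = true :=
  ⟨by decide +kernel, by decide +kernel, by decide +kernel, by decide +kernel⟩

theorem a43 {p : Rf → Prop} (H : ∀ l, allY (E.wth (lkp [])) l = true → (lkp l).All p) :
    b43.All p := ⟨⟨⟨⟨⟨⟨⟨⟨⟨H _ t24079.1, H _ t24079.2.1⟩, ⟨H _ t24079.2.2.1, H _ t24079.2.2.2.1⟩⟩, ⟨⟨H _ t24079.2.2.2.2.1, H _ t24079.2.2.2.2.2.1⟩, ⟨H _ t24079.2.2.2.2.2.2.1, H _ t24079.2.2.2.2.2.2.2⟩⟩⟩, ⟨⟨⟨H _ t24087.1, H _ t24087.2.1⟩, ⟨H _ t24087.2.2.1, H _ t24087.2.2.2.1⟩⟩, ⟨⟨H _ t24087.2.2.2.2.1, H _ t24087.2.2.2.2.2.1⟩, ⟨H _ t24087.2.2.2.2.2.2.1, ⟨H _ t24087.2.2.2.2.2.2.2, H _ t24095.1⟩⟩⟩⟩⟩, ⟨⟨⟨⟨H _ t24095.2.1, H _ t24095.2.2.1⟩, ⟨H _ t24095.2.2.2.1, H _ t24095.2.2.2.2.1⟩⟩, ⟨⟨H _ t24095.2.2.2.2.2.1, H _ t24095.2.2.2.2.2.2.1⟩, ⟨H _ t24095.2.2.2.2.2.2.2, ⟨H _ t24103.1, H _ t24103.2.1⟩⟩⟩⟩, ⟨⟨⟨H _ t24103.2.2.1,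 H _ t24103.2.2.2.1⟩, ⟨H _ t24103.2.2.2.2.1, H _ t24103.2.2.2.2.2.1⟩⟩, ⟨⟨H _ t24103.2.2.2.2.2.2.1, H _ t24103.2.2.2.2.2.2.2⟩, ⟨H _ t24111.1, ⟨H _ t24111.2.1, H _ t24111.2.2.1⟩⟩⟩⟩⟩⟩, ⟨⟨⟨⟨⟨H _ t24111.2.2.2.1, H _ t24111.2.2.2.2.1⟩, ⟨H _ t24111.2.2.2.2.2.1, H _ t24111.2.2.2.2.2.2.1⟩⟩, ⟨⟨H _ t24111.2.2.2.2.2.2.2, H _ t24119.1⟩, ⟨H _ t24119.2.1, H _ t24119.2.2.1⟩⟩⟩, ⟨⟨⟨H _ t24119.2.2.2.1, H _ t24119.2.2.2.2.1⟩, ⟨H _ t24119.2.2.2.2.2.1, H _ t24119.2.2.2.2.2.2.1⟩⟩, ⟨⟨H _ t24119.2.2.2.2.2.2.2, H _ t24127.1⟩, ⟨H _ t24127.2.1, ⟨H _ t24127.2.2.1, H _ t24127.2.2.2.1⟩⟩⟩⟩⟩, ⟨⟨⟨⟨H _ t24127.2.2.2.2.1, H _ t24127.2.2.2.2.2.1⟩, ⟨H _ t24127.2.2.2.2.2.2.1, H _ t24127.2.2.2.2.2.2.2⟩⟩, ⟨⟨H _ t24135.1, H _ t24135.2.1⟩, ⟨H _ t24135.2.2.1, ⟨H _ t24135.2.2.2.1, H _ t24135.2.2.2.2.1⟩⟩⟩⟩, ⟨⟨⟨H _ t24135.2.2.2.2.2.1, H _ t24135.2.2.2.2.2.2.1⟩, ⟨H _ t24135.2.2.2.2.2.2.2, H _ t24143.1⟩⟩, ⟨⟨H _ t24143.2.1, H _ t24143.2.2.1⟩,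 ⟨H _ t24143.2.2.2.1, ⟨H _ t24143.2.2.2.2.1, H _ t24143.2.2.2.2.2.1⟩⟩⟩⟩⟩⟩⟩, ⟨⟨⟨⟨⟨⟨H _ t24143.2.2.2.2.2.2.1, H _ t24143.2.2.2.2.2.2.2⟩, ⟨H _ t24151.1, H _ t24151.2.1⟩⟩, ⟨⟨H _ t24151.2.2.1, H _ t24151.2.2.2.1⟩, ⟨H _ t24151.2.2.2.2.1, H _ t24151.2.2.2.2.2.1⟩⟩⟩, ⟨⟨⟨H _ t24151.2.2.2.2.2.2.1, H _ t24151.2.2.2.2.2.2.2⟩, ⟨H _ t24159.1, H _ t24159.2.1⟩⟩, ⟨⟨H _ t24159.2.2.1, H _ t24159.2.2.2.1⟩, ⟨H _ t24159.2.2.2.2.1, ⟨H _ t24159.2.2.2.2.2.1, H _ t24159.2.2.2.2.2.2.1⟩⟩⟩⟩⟩, ⟨⟨⟨⟨H _ t24159.2.2.2.2.2.2.2, H _ t24167.1⟩, ⟨H _ t24167.2.1, H _ t24167.2.2.1⟩⟩, ⟨⟨H _ t24167.2.2.2.1, H _ t24167.2.2.2.2.1⟩, ⟨H _ t24167.2.2.2.2.2.1, ⟨H _ t24167.2.2.2.2.2.2.1, H _ t24167.2.2.2.2.2.2.2⟩⟩⟩⟩, ⟨⟨⟨H _ t24175.1, H _ t24175.2.1⟩, ⟨H _ t24175.2.2.1, H _ t24175.2.2.2.1⟩⟩, ⟨⟨H _ t24175.2.2.2.2.1, H _ t24175.2.2.2.2.2.1⟩, ⟨H _ t24175.2.2.2.2.2.2.1, ⟨H _ t24175.2.2.2.2.2.2.2, H _ t24183.1⟩⟩⟩⟩⟩⟩, ⟨⟨⟨⟨⟨H _ t24183.2.1, H _ t24183.2.2.1⟩,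 ⟨H _ t24183.2.2.2.1, H _ t24183.2.2.2.2.1⟩⟩, ⟨⟨H _ t24183.2.2.2.2.2.1, H _ t24183.2.2.2.2.2.2.1⟩, ⟨H _ t24183.2.2.2.2.2.2.2, ⟨H _ t24191.1, H _ t24191.2.1⟩⟩⟩⟩, ⟨⟨⟨H _ t24191.2.2.1, H _ t24191.2.2.2.1⟩, ⟨H _ t24191.2.2.2.2.1, H _ t24191.2.2.2.2.2.1⟩⟩, ⟨⟨H _ t24191.2.2.2.2.2.2.1, H _ t24191.2.2.2.2.2.2.2⟩, ⟨H _ t24199.1, ⟨H _ t24199.2.1, H _ t24199.2.2.1⟩⟩⟩⟩⟩, ⟨⟨⟨⟨H _ t24199.2.2.2.1, H _ t24199.2.2.2.2.1⟩, ⟨H _ t24199.2.2.2.2.2.1, H _ t24199.2.2.2.2.2.2.1⟩⟩, ⟨⟨H _ t24199.2.2.2.2.2.2.2, H _ t24207.1⟩, ⟨H _ t24207.2.1, ⟨H _ t24207.2.2.1, H _ t24207.2.2.2.1⟩⟩⟩⟩, ⟨⟨⟨H _ t24207.2.2.2.2.1, H _ t24207.2.2.2.2.2.1⟩, ⟨H _ t24207.2.2.2.2.2.2.1, H _ t24207.2.2.2.2.2.2.2⟩⟩, ⟨⟨H _ t24215.1, H _ t24215.2.1⟩, ⟨H _ t24215.2.2.1, ⟨H _ t24215.2.2.2.1, H _ t24215.2.2.2.2.1⟩⟩⟩⟩⟩⟩⟩⟩, ⟨⟨⟨⟨⟨⟨⟨H _ t24215.2.2.2.2.2.1, H _ t24215.2.2.2.2.2.2.1⟩, ⟨H _ t24215.2.2.2.2.2.2.2, H _ t24223.1⟩⟩, ⟨⟨H _ t24223.2.1, H _ t24223.2.2.1⟩,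 ⟨H _ t24223.2.2.2.1, H _ t24223.2.2.2.2.1⟩⟩⟩, ⟨⟨⟨H _ t24223.2.2.2.2.2.1, H _ t24223.2.2.2.2.2.2.1⟩, ⟨H _ t24223.2.2.2.2.2.2.2, H _ t24231.1⟩⟩, ⟨⟨H _ t24231.2.1, H _ t24231.2.2.1⟩, ⟨H _ t24231.2.2.2.1, ⟨H _ t24231.2.2.2.2.1, H _ t24231.2.2.2.2.2.1⟩⟩⟩⟩⟩, ⟨⟨⟨⟨H _ t24231.2.2.2.2.2.2.1, H _ t24231.2.2.2.2.2.2.2⟩, ⟨H _ t24239.1, H _ t24239.2.1⟩⟩, ⟨⟨H _ t24239.2.2.1, H _ t24239.2.2.2.1⟩, ⟨H _ t24239.2.2.2.2.1, ⟨H _ t24239.2.2.2.2.2.1, H _ t24239.2.2.2.2.2.2.1⟩⟩⟩⟩, ⟨⟨⟨H _ t24239.2.2.2.2.2.2.2, H _ t24247.1⟩, ⟨H _ t24247.2.1, H _ t24247.2.2.1⟩⟩, ⟨⟨H _ t24247.2.2.2.1, H _ t24247.2.2.2.2.1⟩, ⟨H _ t24247.2.2.2.2.2.1, ⟨H _ t24247.2.2.2.2.2.2.1, H _ t24247.2.2.2.2.2.2.2⟩⟩⟩⟩⟩⟩, ⟨⟨⟨⟨⟨H _ t24255.1, H _ t24255.2.1⟩, ⟨H _ t24255.2.2.1, H _ t24255.2.2.2.1⟩⟩, ⟨⟨H _ t24255.2.2.2.2.1, H _ t24255.2.2.2.2.2.1⟩, ⟨H _ t24255.2.2.2.2.2.2.1, H _ t24255.2.2.2.2.2.2.2⟩⟩⟩, ⟨⟨⟨H _ t24263.1, H _ t24263.2.1⟩, ⟨H _ t24263.2.2.1,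 H _ t24263.2.2.2.1⟩⟩, ⟨⟨H _ t24263.2.2.2.2.1, H _ t24263.2.2.2.2.2.1⟩, ⟨H _ t24263.2.2.2.2.2.2.1, ⟨H _ t24263.2.2.2.2.2.2.2, H _ t24271.1⟩⟩⟩⟩⟩, ⟨⟨⟨⟨H _ t24271.2.1, H _ t24271.2.2.1⟩, ⟨H _ t24271.2.2.2.1, H _ t24271.2.2.2.2.1⟩⟩, ⟨⟨H _ t24271.2.2.2.2.2.1, H _ t24271.2.2.2.2.2.2.1⟩, ⟨H _ t24271.2.2.2.2.2.2.2, ⟨H _ t24279.1, H _ t24279.2.1⟩⟩⟩⟩, ⟨⟨⟨H _ t24279.2.2.1, H _ t24279.2.2.2.1⟩, ⟨H _ t24279.2.2.2.2.1, H _ t24279.2.2.2.2.2.1⟩⟩, ⟨⟨H _ t24279.2.2.2.2.2.2.1, H _ t24279.2.2.2.2.2.2.2⟩, ⟨H _ t24287.1, ⟨H _ t24287.2.1, H _ t24287.2.2.1⟩⟩⟩⟩⟩⟩⟩, ⟨⟨⟨⟨⟨⟨H _ t24287.2.2.2.1, H _ t24287.2.2.2.2.1⟩, ⟨H _ t24287.2.2.2.2.2.1, H _ t24287.2.2.2.2.2.2.1⟩⟩, ⟨⟨H _ t24287.2.2.2.2.2.2.2, H _ t24295.1⟩, ⟨H _ t24295.2.1, H _ t24295.2.2.1⟩⟩⟩, ⟨⟨⟨H _ t24295.2.2.2.1, H _ t24295.2.2.2.2.1⟩, ⟨H _ t24295.2.2.2.2.2.1, H _ t24295.2.2.2.2.2.2.1⟩⟩, ⟨⟨H _ t24295.2.2.2.2.2.2.2, H _ t24303.1⟩, ⟨H _ t24303.2.1, ⟨H _ t24303.2.2.1,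 H _ t24303.2.2.2.1⟩⟩⟩⟩⟩, ⟨⟨⟨⟨H _ t24303.2.2.2.2.1, H _ t24303.2.2.2.2.2.1⟩, ⟨H _ t24303.2.2.2.2.2.2.1, H _ t24303.2.2.2.2.2.2.2⟩⟩, ⟨⟨H _ t24311.1, H _ t24311.2.1⟩, ⟨H _ t24311.2.2.1, ⟨H _ t24311.2.2.2.1, H _ t24311.2.2.2.2.1⟩⟩⟩⟩, ⟨⟨⟨H _ t24311.2.2.2.2.2.1, H _ t24311.2.2.2.2.2.2.1⟩, ⟨H _ t24311.2.2.2.2.2.2.2, H _ t24319.1⟩⟩, ⟨⟨H _ t24319.2.1, H _ t24319.2.2.1⟩, ⟨H _ t24319.2.2.2.1, ⟨H _ t24319.2.2.2.2.1, H _ t24319.2.2.2.2.2.1⟩⟩⟩⟩⟩⟩, ⟨⟨⟨⟨⟨H _ t24319.2.2.2.2.2.2.1, H _ t24319.2.2.2.2.2.2.2⟩, ⟨H _ t24327.1, H _ t24327.2.1⟩⟩, ⟨⟨H _ t24327.2.2.1, H _ t24327.2.2.2.1⟩, ⟨H _ t24327.2.2.2.2.1, ⟨H _ t24327.2.2.2.2.2.1, H _ t24327.2.2.2.2.2.2.1⟩⟩⟩⟩, ⟨⟨⟨H _ t24327.2.2.2.2.2.2.2, H _ t24335.1⟩, ⟨H _ t24335.2.1, H _ t24335.2.2.1⟩⟩, ⟨⟨H _ t24335.2.2.2.1, H _ t24335.2.2.2.2.1⟩, ⟨H _ t24335.2.2.2.2.2.1, ⟨H _ t24335.2.2.2.2.2.2.1, H _ t24335.2.2.2.2.2.2.2⟩⟩⟩⟩⟩, ⟨⟨⟨⟨H _ t24343.1, H _ t24343.2.1⟩, ⟨H _ t24343.2.2.1,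 H _ t24343.2.2.2.1⟩⟩, ⟨⟨H _ t24343.2.2.2.2.1, H _ t24343.2.2.2.2.2.1⟩, ⟨H _ t24343.2.2.2.2.2.2.1, ⟨H _ t24343.2.2.2.2.2.2.2, H _ t24351.1⟩⟩⟩⟩, ⟨⟨⟨H _ t24351.2.1, H _ t24351.2.2.1⟩, ⟨H _ t24351.2.2.2.1, H _ t24351.2.2.2.2.1⟩⟩, ⟨⟨H _ t24351.2.2.2.2.2.1, H _ t24351.2.2.2.2.2.2.1⟩, ⟨H _ t24351.2.2.2.2.2.2.2, ⟨H _ t24359.1, H _ t24359.2.1⟩⟩⟩⟩⟩⟩⟩⟩⟩, ⟨⟨⟨⟨⟨⟨⟨⟨H _ t24359.2.2.1, H _ t24359.2.2.2.1⟩, ⟨H _ t24359.2.2.2.2.1, H _ t24359.2.2.2.2.2.1⟩⟩, ⟨⟨H _ t24359.2.2.2.2.2.2.1, H _ t24359.2.2.2.2.2.2.2⟩, ⟨H _ t24367.1, H _ t24367.2.1⟩⟩⟩, ⟨⟨⟨H _ t24367.2.2.1, H _ t24367.2.2.2.1⟩, ⟨H _ t24367.2.2.2.2.1, H _ t24367.2.2.2.2.2.1⟩⟩, ⟨⟨H _ t24367.2.2.2.2.2.2.1, H _ t24367.2.2.2.2.2.2.2⟩, ⟨H _ t24375.1, ⟨H _ t24375.2.1, H _ t24375.2.2.1⟩⟩⟩⟩⟩, ⟨⟨⟨⟨H _ t24375.2.2.2.1, H _ t24375.2.2.2.2.1⟩, ⟨H _ t24375.2.2.2.2.2.1, H _ t24375.2.2.2.2.2.2.1⟩⟩, ⟨⟨H _ t24375.2.2.2.2.2.2.2, H _ t24383.1⟩, ⟨H _ t24383.2.1, ⟨H _ t24383.2.2.1,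 H _ t24383.2.2.2.1⟩⟩⟩⟩, ⟨⟨⟨H _ t24383.2.2.2.2.1, H _ t24383.2.2.2.2.2.1⟩, ⟨H _ t24383.2.2.2.2.2.2.1, H _ t24383.2.2.2.2.2.2.2⟩⟩, ⟨⟨H _ t24391.1, H _ t24391.2.1⟩, ⟨H _ t24391.2.2.1, ⟨H _ t24391.2.2.2.1, H _ t24391.2.2.2.2.1⟩⟩⟩⟩⟩⟩, ⟨⟨⟨⟨⟨H _ t24391.2.2.2.2.2.1, H _ t24391.2.2.2.2.2.2.1⟩, ⟨H _ t24391.2.2.2.2.2.2.2, H _ t24399.1⟩⟩, ⟨⟨H _ t24399.2.1, H _ t24399.2.2.1⟩, ⟨H _ t24399.2.2.2.1, H _ t24399.2.2.2.2.1⟩⟩⟩, ⟨⟨⟨H _ t24399.2.2.2.2.2.1, H _ t24399.2.2.2.2.2.2.1⟩, ⟨H _ t24399.2.2.2.2.2.2.2, H _ t24407.1⟩⟩, ⟨⟨H _ t24407.2.1, H _ t24407.2.2.1⟩, ⟨H _ t24407.2.2.2.1, ⟨H _ t24407.2.2.2.2.1, H _ t24407.2.2.2.2.2.1⟩⟩⟩⟩⟩, ⟨⟨⟨⟨H _ t24407.2.2.2.2.2.2.1, H _ t24407.2.2.2.2.2.2.2⟩, ⟨H _ t24415.1, H _ t24415.2.1⟩⟩, ⟨⟨H _ t24415.2.2.1, H _ t24415.2.2.2.1⟩, ⟨H _ t24415.2.2.2.2.1, ⟨H _ t24415.2.2.2.2.2.1, H _ t24415.2.2.2.2.2.2.1⟩⟩⟩⟩, ⟨⟨⟨H _ t24415.2.2.2.2.2.2.2, H _ t24423.1⟩, ⟨H _ t24423.2.1, H _ t24423.2.2.1⟩⟩,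 ⟨⟨H _ t24423.2.2.2.1, H _ t24423.2.2.2.2.1⟩, ⟨H _ t24423.2.2.2.2.2.1, ⟨H _ t24423.2.2.2.2.2.2.1, H _ t24423.2.2.2.2.2.2.2⟩⟩⟩⟩⟩⟩⟩, ⟨⟨⟨⟨⟨⟨H _ t24431.1, H _ t24431.2.1⟩, ⟨H _ t24431.2.2.1, H _ t24431.2.2.2.1⟩⟩, ⟨⟨H _ t24431.2.2.2.2.1, H _ t24431.2.2.2.2.2.1⟩, ⟨H _ t24431.2.2.2.2.2.2.1, H _ t24431.2.2.2.2.2.2.2⟩⟩⟩, ⟨⟨⟨H _ t24439.1, H _ t24439.2.1⟩, ⟨H _ t24439.2.2.1, H _ t24439.2.2.2.1⟩⟩, ⟨⟨H _ t24439.2.2.2.2.1, H _ t24439.2.2.2.2.2.1⟩, ⟨H _ t24439.2.2.2.2.2.2.1, ⟨H _ t24439.2.2.2.2.2.2.2, H _ t24447.1⟩⟩⟩⟩⟩, ⟨⟨⟨⟨H _ t24447.2.1, H _ t24447.2.2.1⟩, ⟨H _ t24447.2.2.2.1, H _ t24447.2.2.2.2.1⟩⟩, ⟨⟨H _ t24447.2.2.2.2.2.1, H _ t24447.2.2.2.2.2.2.1⟩, ⟨H _ t24447.2.2.2.2.2.2.2, ⟨H _ t24455.1, H _ t24455.2.1⟩⟩⟩⟩, ⟨⟨⟨H _ t24455.2.2.1, H _ t24455.2.2.2.1⟩, ⟨H _ t24455.2.2.2.2.1, H _ t24455.2.2.2.2.2.1⟩⟩, ⟨⟨H _ t24455.2.2.2.2.2.2.1, H _ t24455.2.2.2.2.2.2.2⟩, ⟨H _ t24463.1, ⟨H _ t24463.2.1, H _ t24463.2.2.1⟩⟩⟩⟩⟩⟩,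 ⟨⟨⟨⟨⟨H _ t24463.2.2.2.1, H _ t24463.2.2.2.2.1⟩, ⟨H _ t24463.2.2.2.2.2.1, H _ t24463.2.2.2.2.2.2.1⟩⟩, ⟨⟨H _ t24463.2.2.2.2.2.2.2, H _ t24471.1⟩, ⟨H _ t24471.2.1, ⟨H _ t24471.2.2.1, H _ t24471.2.2.2.1⟩⟩⟩⟩, ⟨⟨⟨H _ t24471.2.2.2.2.1, H _ t24471.2.2.2.2.2.1⟩, ⟨H _ t24471.2.2.2.2.2.2.1, H _ t24471.2.2.2.2.2.2.2⟩⟩, ⟨⟨H _ t24479.1, H _ t24479.2.1⟩, ⟨H _ t24479.2.2.1, ⟨H _ t24479.2.2.2.1, H _ t24479.2.2.2.2.1⟩⟩⟩⟩⟩, ⟨⟨⟨⟨H _ t24479.2.2.2.2.2.1, H _ t24479.2.2.2.2.2.2.1⟩, ⟨H _ t24479.2.2.2.2.2.2.2, H _ t24487.1⟩⟩, ⟨⟨H _ t24487.2.1, H _ t24487.2.2.1⟩, ⟨H _ t24487.2.2.2.1, ⟨H _ t24487.2.2.2.2.1, H _ t24487.2.2.2.2.2.1⟩⟩⟩⟩, ⟨⟨⟨H _ t24487.2.2.2.2.2.2.1, H _ t24487.2.2.2.2.2.2.2⟩, ⟨H _ t24495.1, H _ t24495.2.1⟩⟩, ⟨⟨H _ t24495.2.2.1, H _ t24495.2.2.2.1⟩, ⟨H _ t24495.2.2.2.2.1, ⟨H _ t24495.2.2.2.2.2.1, H _ t24495.2.2.2.2.2.2.1⟩⟩⟩⟩⟩⟩⟩⟩, ⟨⟨⟨⟨⟨⟨⟨H _ t24495.2.2.2.2.2.2.2, H _ t24503.1⟩, ⟨H _ t24503.2.1, H _ t24503.2.2.1⟩⟩,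 ⟨⟨H _ t24503.2.2.2.1, H _ t24503.2.2.2.2.1⟩, ⟨H _ t24503.2.2.2.2.2.1, H _ t24503.2.2.2.2.2.2.1⟩⟩⟩, ⟨⟨⟨H _ t24503.2.2.2.2.2.2.2, H _ t24511.1⟩, ⟨H _ t24511.2.1, H _ t24511.2.2.1⟩⟩, ⟨⟨H _ t24511.2.2.2.1, H _ t24511.2.2.2.2.1⟩, ⟨H _ t24511.2.2.2.2.2.1, ⟨H _ t24511.2.2.2.2.2.2.1, H _ t24511.2.2.2.2.2.2.2⟩⟩⟩⟩⟩, ⟨⟨⟨⟨H _ t24519.1, H _ t24519.2.1⟩, ⟨H _ t24519.2.2.1, H _ t24519.2.2.2.1⟩⟩, ⟨⟨H _ t24519.2.2.2.2.1, H _ t24519.2.2.2.2.2.1⟩, ⟨H _ t24519.2.2.2.2.2.2.1, ⟨H _ t24519.2.2.2.2.2.2.2, H _ t24527.1⟩⟩⟩⟩, ⟨⟨⟨H _ t24527.2.1, H _ t24527.2.2.1⟩, ⟨H _ t24527.2.2.2.1, H _ t24527.2.2.2.2.1⟩⟩, ⟨⟨H _ t24527.2.2.2.2.2.1, H _ t24527.2.2.2.2.2.2.1⟩, ⟨H _ t24527.2.2.2.2.2.2.2, ⟨H _ t24535.1, H _ t24535.2.1⟩⟩⟩⟩⟩⟩, ⟨⟨⟨⟨⟨H _ t24535.2.2.1, H _ t24535.2.2.2.1⟩, ⟨H _ t24535.2.2.2.2.1, H _ t24535.2.2.2.2.2.1⟩⟩, ⟨⟨H _ t24535.2.2.2.2.2.2.1, H _ t24535.2.2.2.2.2.2.2⟩, ⟨H _ t24543.1, H _ t24543.2.1⟩⟩⟩, ⟨⟨⟨H _ t24543.2.2.1,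 H _ t24543.2.2.2.1⟩, ⟨H _ t24543.2.2.2.2.1, H _ t24543.2.2.2.2.2.1⟩⟩, ⟨⟨H _ t24543.2.2.2.2.2.2.1, H _ t24543.2.2.2.2.2.2.2⟩, ⟨H _ t24551.1, ⟨H _ t24551.2.1, H _ t24551.2.2.1⟩⟩⟩⟩⟩, ⟨⟨⟨⟨H _ t24551.2.2.2.1, H _ t24551.2.2.2.2.1⟩, ⟨H _ t24551.2.2.2.2.2.1, H _ t24551.2.2.2.2.2.2.1⟩⟩, ⟨⟨H _ t24551.2.2.2.2.2.2.2, H _ t24559.1⟩, ⟨H _ t24559.2.1, ⟨H _ t24559.2.2.1, H _ t24559.2.2.2.1⟩⟩⟩⟩, ⟨⟨⟨H _ t24559.2.2.2.2.1, H _ t24559.2.2.2.2.2.1⟩, ⟨H _ t24559.2.2.2.2.2.2.1, H _ t24559.2.2.2.2.2.2.2⟩⟩, ⟨⟨H _ t24567.1, H _ t24567.2.1⟩, ⟨H _ t24567.2.2.1, ⟨H _ t24567.2.2.2.1, H _ t24567.2.2.2.2.1⟩⟩⟩⟩⟩⟩⟩, ⟨⟨⟨⟨⟨⟨H _ t24567.2.2.2.2.2.1, H _ t24567.2.2.2.2.2.2.1⟩, ⟨H _ t24567.2.2.2.2.2.2.2, H _ t24575.1⟩⟩, ⟨⟨H _ t24575.2.1, H _ t24575.2.2.1⟩, ⟨H _ t24575.2.2.2.1, H _ t24575.2.2.2.2.1⟩⟩⟩, ⟨⟨⟨H _ t24575.2.2.2.2.2.1, H _ t24575.2.2.2.2.2.2.1⟩, ⟨H _ t24575.2.2.2.2.2.2.2, H _ t24583.1⟩⟩, ⟨⟨H _ t24583.2.1, H _ t24583.2.2.1⟩,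 ⟨H _ t24583.2.2.2.1, ⟨H _ t24583.2.2.2.2.1, H _ t24583.2.2.2.2.2.1⟩⟩⟩⟩⟩, ⟨⟨⟨⟨H _ t24583.2.2.2.2.2.2.1, H _ t24583.2.2.2.2.2.2.2⟩, ⟨H _ t24591.1, H _ t24591.2.1⟩⟩, ⟨⟨H _ t24591.2.2.1, H _ t24591.2.2.2.1⟩, ⟨H _ t24591.2.2.2.2.1, ⟨H _ t24591.2.2.2.2.2.1, H _ t24591.2.2.2.2.2.2.1⟩⟩⟩⟩, ⟨⟨⟨H _ t24591.2.2.2.2.2.2.2, H _ t24599.1⟩, ⟨H _ t24599.2.1, H _ t24599.2.2.1⟩⟩, ⟨⟨H _ t24599.2.2.2.1, H _ t24599.2.2.2.2.1⟩, ⟨H _ t24599.2.2.2.2.2.1, ⟨H _ t24599.2.2.2.2.2.2.1, H _ t24599.2.2.2.2.2.2.2⟩⟩⟩⟩⟩⟩, ⟨⟨⟨⟨⟨H _ t24607.1, H _ t24607.2.1⟩, ⟨H _ t24607.2.2.1, H _ t24607.2.2.2.1⟩⟩, ⟨⟨H _ t24607.2.2.2.2.1, H _ t24607.2.2.2.2.2.1⟩, ⟨H _ t24607.2.2.2.2.2.2.1, ⟨H _ t24607.2.2.2.2.2.2.2, H _ t24615.1⟩⟩⟩⟩, ⟨⟨⟨H _ t24615.2.1, H _ t24615.2.2.1⟩, ⟨H _ t24615.2.2.2.1, H _ t24615.2.2.2.2.1⟩⟩, ⟨⟨H _ t24615.2.2.2.2.2.1, H _ t24615.2.2.2.2.2.2.1⟩, ⟨H _ t24615.2.2.2.2.2.2.2, ⟨H _ t24623.1, H _ t24623.2.1⟩⟩⟩⟩⟩, ⟨⟨⟨⟨H _ t24623.2.2.1,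 H _ t24623.2.2.2.1⟩, ⟨H _ t24623.2.2.2.2.1, H _ t24623.2.2.2.2.2.1⟩⟩, ⟨⟨H _ t24623.2.2.2.2.2.2.1, H _ t24623.2.2.2.2.2.2.2⟩, ⟨H _ t24631.1, ⟨H _ t24631.2.1, H _ t24631.2.2.1⟩⟩⟩⟩, ⟨⟨⟨H _ t24631.2.2.2.1, H _ t24631.2.2.2.2.1⟩, ⟨H _ t24631.2.2.2.2.2.1, H _ t24631.2.2.2.2.2.2.1⟩⟩, ⟨⟨H _ t24631.2.2.2.2.2.2.2, H _ t24639.1⟩, ⟨H _ t24639.2.1, ⟨H _ t24639.2.2.1, H _ t24639.2.2.2⟩⟩⟩⟩⟩⟩⟩⟩⟩⟩

end Pool.Agent.MP_c853c5_nt.X.C4950
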