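import Pool.Agent.MP_c853c5_nt.X.C4950.Env
import Pool.Agent.MP_c853c5_nt.X.C4950.D8

set_option autoImplicit false
set_option maxRecDepth 8192
set_option linter.all false

namespace Pool.Agent.MP_c853c5_nt.X.C4950

open Pool.Agent.MP_c853c5_nt.X

def t24643 : allY (E.wth (lkp [])) l24643 = true ∧
    allY (E.wth (lkp [])) l24644 = true ∧
    allY (E.wth (lkp [])) l24645 = true ∧
    allY (E.wth (lkp [])) l24646 = true ∧
    allY (E.wth (lkp [])) l24647 = true ∧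
    allY (E.wth (lkp [])) l24648 = true ∧
    allY (E.wth (lkp [])) l24649 = true ∧
    allY (E.wth (lkp [])) l24650 = true :=
  ⟨by decide +kernel, by decide +kernel, by decide +kernel, by decide +kernel, by decide +kernel, by decide +kernel, by decide +kernel, by decide +kernel⟩

def t24651 : allY (E.wth (lkp [])) l24651 = true ∧
    allY (E.wth (lkp [])) l24652 = true ∧
    allY (E.wth (lkp [])) l24653 = true ∧
    allY (E.wth (lkp [])) l24654 = true ∧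
    allY (E.wth (lkp [])) l24655 = true ∧
    allY (E.wth (lkp [])) l24656 = true ∧
    allY (E.wth (lkp [])) l24657 = true ∧
    allY (E.wth (lkp [])) l24658 = true :=
  ⟨by decide +kernel, by decide +kernel, by decide +kernel, by decide +kernel, by decide +kernel, by decide +kernel, by decide +kernel, by decide +kernel⟩

def t24659 : allY (E.wth (lkp [])) l24659 = true ∧
    allY (E.wth (lkp [])) l24660 = true ∧
    allY (E.wth (lkp [])) l24661 = true ∧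
    allY (E.wth (lkp [])) l24662 = true ∧
    allY (E.wth (lkp [])) l24663 = true ∧
    allY (E.wth (lkp [])) l24664 = true ∧
    allY (E.wth (lkp [])) l24665 = true ∧
    allY (E.wth (lkp [])) l24666 = true :=
  ⟨by decide +kernel, by decide +kernel, by decide +kernel, by decide +kernel, by decide +kernel, by decide +kernel, by decide +kernel, by decide +kernel⟩

def t24667 : allY (E.wth (lkp [])) l24667 = true ∧
    allY (E.wth (lkp [])) l24668 = true ∧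
    allY (E.wth (lkp [])) l24669 = true ∧
    allY (E.wth (lkp [])) l24670 = true ∧
    allY (E.wth (lkp [])) l24671 = true ∧
    allY (E.wth (lkp [])) l24672 = true ∧
    allY (E.wth (lkp [])) l24673 = true ∧
    allY (E.wth (lkp [])) l24674 = true :=
  ⟨by decide +kernel, by decide +kernel, by decide +kernel, by decide +kernel, by decide +kernel, by decide +kernel, by decide +kernel, by decide +kernel⟩

def t24675 : allY (E.wth (lkp [])) l24675 = true ∧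
    allY (E.wth (lkp [])) l24676 = true ∧
    allY (E.wth (lkp [])) l24677 = true ∧
    allY (E.wth (lkp [])) l24678 = true ∧
    allY (E.wth (lkp [])) l24679 = true ∧
    allY (E.wth (lkp [])) l24680 = true ∧
    allY (E.wth (lkp [])) l24681 = true ∧
    allY (E.wth (lkp [])) l24682 = true :=
  ⟨by decide +kernel, by decide +kernel, by decide +kernel, by decide +kernel, by decide +kernel, by decide +kernel, by decide +kernel, by decide +kernel⟩

def t24683 : allY (E.wth (lkp [])) l24683 = true ∧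
    allY (E.wth (lkp [])) l24684 = true ∧
    allY (E.wth (lkp [])) l24685 = true ∧
    allY (E.wth (lkp [])) l24686 = true ∧
    allY (E.wth (lkp [])) l24687 = true ∧
    allY (E.wth (lkp [])) l24688 = true ∧
    allY (E.wth (lkp [])) l24689 = true ∧
    allY (E.wth (lkp [])) l24690 = true :=
  ⟨by decide +kernel, by decide +kernel, by decide +kernel, by decide +kernel, by decide +kernel, by decide +kernel, by decide +kernel, by decide +kernel⟩

def t24691 : allY (E.wth (lkp [])) l24691 = true ∧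
    allY (E.wth (lkp [])) l24692 = true ∧
    allY (E.wth (lkp [])) l24693 = true ∧
    allY (E.wth (lkp [])) l24694 = true ∧
    allY (E.wth (lkp [])) l24695 = true ∧
    allY (E.wth (lkp [])) l24696 = true ∧
    allY (E.wth (lkp [])) l24697 = true ∧
    allY (E.wth (lkp [])) l24698 = true :=
  ⟨by decide +kernel, by decide +kernel, by decide +kernel, by decide +kernel, by decide +kernel, by decide +kernel, by decide +kernel, by decide +kernel⟩

def t24699 : allY (E.wth (lkp [])) l24699 = true ∧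
    allY (E.wth (lkp [])) l24700 = true ∧
    allY (E.wth (lkp [])) l24701 = true ∧
    allY (E.wth (lkp [])) l24702 = true ∧
    allY (E.wth (lkp [])) l24703 = true ∧
    allY (E.wth (lkp [])) l24704 = true ∧
    allY (E.wth (lkp [])) l24705 = true ∧
    allY (E.wth (lkp [])) l24706 = true :=
  ⟨by decide +kernel, by decide +kernel, by decide +kernel, by decide +kernel, by decide +kernel, by decide +kernel, by decide +kernel, by decide +kernel⟩

def t24707 : allY (E.wth (lkp [])) l24707 = true ∧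
    allY (E.wth (lkp [])) l24708 = true ∧
    allY (E.wth (lkp [])) l24709 = true ∧
    allY (E.wth (lkp [])) l24710 = true ∧
    allY (E.wth (lkp [])) l24711 = true ∧
    allY (E.wth (lkp [])) l24712 = true ∧
    allY (E.wth (lkp [])) l24713 = true ∧
    allY (E.wth (lkp [])) l24714 = true :=
  ⟨by decide +kernel, by decide +kernel, by decide +kernel, by decide +kernel, by decide +kernel, by decide +kernel, by decide +kernel, by decide +kernel⟩

def t24715 : allY (E.wth (lkp [])) l24715 = true ∧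
    allY (E.wth (lkp [])) l24716 = true ∧
    allY (E.wth (lkp [])) l24717 = true ∧
    allY (E.wth (lkp [])) l24718 = true ∧
    allY (E.wth (lkp [])) l24719 = true ∧
    allY (E.wth (lkp [])) l24720 = true ∧
    allY (E.wth (lkp [])) l24721 = true ∧
    allY (E.wth (lkp [])) l24722 = true :=
  ⟨by decide +kernel, by decide +kernel, by decide +kernel, by decide +kernel, by decide +kernel, by decide +kernel, by decide +kernel, by decide +kernel⟩

def t24723 : allY (E.wth (lkp [])) l24723 = true ∧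
    allY (E.wth (lkp [])) l24724 = true ∧
    allY (E.wth (lkp [])) l24725 = true ∧
    allY (E.wth (lkp [])) l24726 = true ∧
    allY (E.wth (lkp [])) l24727 = true ∧
    allY (E.wth (lkp [])) l24728 = true ∧
    allY (E.wth (lkp [])) l24729 = true ∧
    allY (E.wth (lkp [])) l24730 = true :=
  ⟨by decide +kernel, by decide +kernel, by decide +kernel, by decide +kernel, by decide +kernel, by decide +kernel, by decide +kernel, by decide +kernel⟩

def t24731 : allY (E.wth (lkp [])) l24731 = true ∧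
    allY (E.wth (lkp [])) l24732 = true ∧
    allY (E.wth (lkp [])) l24733 = true ∧
    allY (E.wth (lkp [])) l24734 = true ∧
    allY (E.wth (lkp [])) l24735 = true ∧
    allY (E.wth (lkp [])) l24736 = true ∧
    allY (E.wth (lkp [])) l24737 = true ∧
    allY (E.wth (lkp [])) l24738 = true :=
  ⟨by decide +kernel, by decide +kernel, by decide +kernel, by decide +kernel, by decide +kernel, by decide +kernel, by decide +kernel, by decide +kernel⟩

def t24739 : allY (E.wth (lkp [])) l24739 = true ∧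
    allY (E.wth (lkp [])) l24740 = true ∧
    allY (E.wth (lkp [])) l24741 = true ∧
    allY (E.wth (lkp [])) l24742 = true ∧
    allY (E.wth (lkp [])) l24743 = true ∧
    allY (E.wth (lkp [])) l24744 = true ∧
    allY (E.wth (lkp [])) l24745 = true ∧
    allY (E.wth (lkp [])) l24746 = true :=
  ⟨by decide +kernel, by decide +kernel, by decide +kernel, by decide +kernel, by decide +kernel, by decide +kernel, by decide +kernel, by decide +kernel⟩

def t24747 : allY (E.wth (lkp [])) l24747 = true ∧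
    allY (E.wth (lkp [])) l24748 = true ∧
    allY (E.wth (lkp [])) l24749 = true ∧
    allY (E.wth (lkp [])) l24750 = true ∧
    allY (E.wth (lkp [])) l24751 = true ∧
    allY (E.wth (lkp [])) l24752 = true ∧
    allY (E.wth (lkp [])) l24753 = true ∧
    allY (E.wth (lkp [])) l24754 = true :=
  ⟨by decide +kernel, by decide +kernel, by decide +kernel, by decide +kernel, by decide +kernel, by decide +kernel, by decide +kernel, by decide +kernel⟩

def t24755 : allY (E.wth (lkp [])) l24755 = true ∧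
    allY (E.wth (lkp [])) l24756 = true ∧
    allY (E.wth (lkp [])) l24757 = true ∧
    allY (E.wth (lkp [])) l24758 = true ∧
    allY (E.wth (lkp [])) l24759 = true ∧
    allY (E.wth (lkp [])) l24760 = true ∧
    allY (E.wth (lkp [])) l24761 = true ∧
    allY (E.wth (lkp [])) l24762 = true :=
  ⟨by decide +kernel, by decide +kernel, by decide +kernel, by decide +kernel, by decide +kernel, by decide +kernel, by decide +kernel, by decide +kernel⟩

def t24763 : allY (E.wth (lkp [])) l24763 = true ∧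
    allY (E.wth (lkp [])) l24764 = true ∧
    allY (E.wth (lkp [])) l24765 = true ∧
    allY (E.wth (lkp [])) l24766 = true ∧
    allY (E.wth (lkp [])) l24767 = true ∧
    allY (E.wth (lkp [])) l24768 = true ∧
    allY (E.wth (lkp [])) l24769 = true ∧
    allY (E.wth (lkp [])) l24770 = true :=
  ⟨by decide +kernel, by decide +kernel, by decide +kernel, by decide +kernel, by decide +kernel, by decide +kernel, by decide +kernel, by decide +kernel⟩

def t24771 : allY (E.wth (lkp [])) l24771 = true ∧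
    allY (E.wth (lkp [])) l24772 = true ∧
    allY (E.wth (lkp [])) l24773 = true ∧
    allY (E.wth (lkp [])) l24774 = true ∧
    allY (E.wth (lkp [])) l24775 = true ∧
    allY (E.wth (lkp [])) l24776 = true ∧
    allY (E.wth (lkp [])) l24777 = true ∧
    allY (E.wth (lkp [])) l24778 = true :=
  ⟨by decide +kernel, by decide +kernel, by decide +kernel, by decide +kernel, by decide +kernel, by decide +kernel, by decide +kernel, by decide +kernel⟩

def t24779 : allY (E.wth (lkp [])) l24779 = true ∧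
    allY (E.wth (lkp [])) l24780 = true ∧
    allY (E.wth (lkp [])) l24781 = true ∧
    allY (E.wth (lkp [])) l24782 = true ∧
    allY (E.wth (lkp [])) l24783 = true ∧
    allY (E.wth (lkp [])) l24784 = true ∧
    allY (E.wth (lkp [])) l24785 = true ∧
    allY (E.wth (lkp [])) l24786 = true :=
  ⟨by decide +kernel, by decide +kernel, by decide +kernel, by decide +kernel, by decide +kernel, by decide +kernel, by decide +kernel, by decide +kernel⟩

def t24787 : allY (E.wth (lkp [])) l24787 = true ∧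
    allY (E.wth (lkp [])) l24788 = true ∧
    allY (E.wth (lkp [])) l24789 = true ∧
    allY (E.wth (lkp [])) l24790 = true ∧
    allY (E.wth (lkp [])) l24791 = true ∧
    allY (E.wth (lkp [])) l24792 = true ∧
    allY (E.wth (lkp [])) l24793 = true ∧
    allY (E.wth (lkp [])) l24794 = true :=
  ⟨by decide +kernel, by decide +kernel, by decide +kernel, by decide +kernel, by decide +kernel, by decide +kernel, by decide +kernel, by decide +kernel⟩

def t24795 : allY (E.wth (lkp [])) l24795 = true ∧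
    allY (E.wth (lkp [])) l24796 = true ∧
    allY (E.wth (lkp [])) l24797 = true ∧
    allY (E.wth (lkp [])) l24798 = true ∧
    allY (E.wth (lkp [])) l24799 = true ∧
    allY (E.wth (lkp [])) l24800 = true ∧
    allY (E.wth (lkp [])) l24801 = true ∧
    allY (E.wth (lkp [])) l24802 = true :=
  ⟨by decide +kernel, by decide +kernel, by decide +kernel, by decide +kernel, by decide +kernel, by decide +kernel, by decide +kernel, by decide +kernel⟩

def t24803 : allY (E.wth (lkp [])) l24803 = true ∧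
    allY (E.wth (lkp [])) l24804 = true ∧
    allY (E.wth (lkp [])) l24805 = true ∧
    allY (E.wth (lkp [])) l24806 = true ∧
    allY (E.wth (lkp [])) l24807 = true ∧
    allY (E.wth (lkp [])) l24808 = true ∧
    allY (E.wth (lkp [])) l24809 = true ∧
    allY (E.wth (lkp [])) l24810 = true :=
  ⟨by decide +kernel, by decide +kernel, by decide +kernel, by decide +kernel, by decide +kernel, by decide +kernel, by decide +kernel, by decide +kernel⟩

def t24811 : allY (E.wth (lkp [])) l24811 = true ∧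
    allY (E.wth (lkp [])) l24812 = true ∧
    allY (E.wth (lkp [])) l24813 = true ∧
    allY (E.wth (lkp [])) l24814 = true ∧
    allY (E.wth (lkp [])) l24815 = true ∧
    allY (E.wth (lkp [])) l24816 = true ∧
    allY (E.wth (lkp [])) l24817 = true ∧
    allY (E.wth (lkp [])) l24818 = true :=
  ⟨by decide +kernel, by decide +kernel, by decide +kernel, by decide +kernel, by decide +kernel, by decide +kernel, by decide +kernel, by decide +kernel⟩

def t24819 : allY (E.wth (lkp [])) l24819 = true ∧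
    allY (E.wth (lkp [])) l24820 = true ∧
    allY (E.wth (lkp [])) l24821 = true ∧
    allY (E.wth (lkp [])) l24822 = true ∧
    allY (E.wth (lkp [])) l24823 = true ∧
    allY (E.wth (lkp [])) l24824 = true ∧
    allY (E.wth (lkp [])) l24825 = true ∧
    allY (E.wth (lkp [])) l24826 = true :=
  ⟨by decide +kernel, by decide +kernel, by decide +kernel, by decide +kernel, by decide +kernel, by decide +kernel, by decide +kernel, by decide +kernel⟩

def t24827 : allY (E.wth (lkp [])) l24827 = true ∧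
    allY (E.wth (lkp [])) l24828 = true ∧
    allY (E.wth (lkp [])) l24829 = true ∧
    allY (E.wth (lkp [])) l24830 = true ∧
    allY (E.wth (lkp [])) l24831 = true ∧
    allY (E.wth (lkp [])) l24832 = true ∧
    allY (E.wth (lkp [])) l24833 = true ∧
    allY (E.wth (lkp [])) l24834 = true :=
  ⟨by decide +kernel, by decide +kernel, by decide +kernel, by decide +kernel, by decide +kernel, by decide +kernel, by decide +kernel, by decide +kernel⟩

def t24835 : allY (E.wth (lkp [])) l24835 = true ∧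
    allY (E.wth (lkp [])) l24836 = true ∧
    allY (E.wth (lkp [])) l24837 = true ∧
    allY (E.wth (lkp [])) l24838 = true ∧
    allY (E.wth (lkp [])) l24839 = true ∧
    allY (E.wth (lkp [])) l24840 = true ∧
    allY (E.wth (lkp [])) l24841 = true ∧
    allY (E.wth (lkp [])) l24842 = true :=
  ⟨by decide +kernel, by decide +kernel, by decide +kernel, by decide +kernel, by decide +kernel, by decide +kernel, by decide +kernel, by decide +kernel⟩

def t24843 : allY (E.wth (lkp [])) l24843 = true ∧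
    allY (E.wth (lkp [])) l24844 = true ∧
    allY (E.wth (lkp [])) l24845 = true ∧
    allY (E.wth (lkp [])) l24846 = true ∧
    allY (E.wth (lkp [])) l24847 = true ∧
    allY (E.wth (lkp [])) l24848 = true ∧
    allY (E.wth (lkp [])) l24849 = true ∧
    allY (E.wth (lkp [])) l24850 = true :=
  ⟨by decide +kernel, by decide +kernel, by decide +kernel, by decide +kernel, by decide +kernel, by decide +kernel, by decide +kernel, by decide +kernel⟩

def t24851 : allY (E.wth (lkp [])) l24851 = true ∧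
    allY (E.wth (lkp [])) l24852 = true ∧
    allY (E.wth (lkp [])) l24853 = true ∧
    allY (E.wth (lkp [])) l24854 = true ∧
    allY (E.wth (lkp [])) l24855 = true ∧
    allY (E.wth (lkp [])) l24856 = true ∧
    allY (E.wth (lkp [])) l24857 = true ∧
    allY (E.wth (lkp [])) l24858 = true :=
  ⟨by decide +kernel, by decide +kernel, by decide +kernel, by decide +kernel, by decide +kernel, by decide +kernel, by decide +kernel, by decide +kernel⟩

def t24859 : allY (E.wth (lkp [])) l24859 = true ∧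
    allY (E.wth (lkp [])) l24860 = true ∧
    allY (E.wth (lkp [])) l24861 = true ∧
    allY (E.wth (lkp [])) l24862 = true ∧
    allY (E.wth (lkp [])) l24863 = true ∧
    allY (E.wth (lkp [])) l24864 = true ∧
    allY (E.wth (lkp [])) l24865 = true ∧
    allY (E.wth (lkp [])) l24866 = true :=
  ⟨by decide +kernel, by decide +kernel, by decide +kernel, by decide +kernel, by decide +kernel, by decide +kernel, by decide +kernel, by decide +kernel⟩

def t24867 : allY (E.wth (lkp [])) l24867 = true ∧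
    allY (E.wth (lkp [])) l24868 = true ∧
    allY (E.wth (lkp [])) l24869 = true ∧
    allY (E.wth (lkp [])) l24870 = true ∧
    allY (E.wth (lkp [])) l24871 = true ∧
    allY (E.wth (lkp [])) l24872 = true ∧
    allY (E.wth (lkp [])) l24873 = true ∧
    allY (E.wth (lkp [])) l24874 = true :=
  ⟨by decide +kernel, by decide +kernel, by decide +kernel, by decide +kernel, by decide +kernel, by decide +kernel, by decide +kernel, by decide +kernel⟩

def t24875 : allY (E.wth (lkp [])) l24875 = true ∧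
    allY (E.wth (lkp [])) l24876 = true ∧
    allY (E.wth (lkp [])) l24877 = true ∧
    allY (E.wth (lkp [])) l24878 = true ∧
    allY (E.wth (lkp [])) l24879 = true ∧
    allY (E.wth (lkp [])) l24880 = true ∧
    allY (E.wth (lkp [])) l24881 = true ∧
    allY (E.wth (lkp [])) l24882 = true :=
  ⟨by decide +kernel, by decide +kernel, by decide +kernel, by decide +kernel, by decide +kernel, by decide +kernel, by decide +kernel, by decide +kernel⟩

def t24883 : allY (E.wth (lkp [])) l24883 = true ∧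
    allY (E.wth (lkp [])) l24884 = true ∧
    allY (E.wth (lkp [])) l24885 = true ∧
    allY (E.wth (lkp [])) l24886 = true ∧
    allY (E.wth (lkp [])) l24887 = true ∧
    allY (E.wth (lkp [])) l24888 = true ∧
    allY (E.wth (lkp [])) l24889 = true ∧
    allY (E.wth (lkp [])) l24890 = true :=
  ⟨by decide +kernel, by decide +kernel, by decide +kernel, by decide +kernel, by decide +kernel, by decide +kernel, by decide +kernel, by decide +kernel⟩

def t24891 : allY (E.wth (lkp [])) l24891 = true ∧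
    allY (E.wth (lkp [])) l24892 = true ∧
    allY (E.wth (lkp [])) l24893 = true ∧
    allY (E.wth (lkp [])) l24894 = true ∧
    allY (E.wth (lkp [])) l24895 = true ∧
    allY (E.wth (lkp [])) l24896 = true ∧
    allY (E.wth (lkp [])) l24897 = true ∧
    allY (E.wth (lkp [])) l24898 = true :=
  ⟨by decide +kernel, by decide +kernel, by decide +kernel, by decide +kernel, by decide +kernel, by decide +kernel, by decide +kernel, by decide +kernel⟩

def t24899 : allY (E.wth (lkp [])) l24899 = true ∧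
    allY (E.wth (lkp [])) l24900 = true ∧
    allY (E.wth (lkp [])) l24901 = true ∧
    allY (E.wth (lkp [])) l24902 = true ∧
    allY (E.wth (lkp [])) l24903 = true ∧
    allY (E.wth (lkp [])) l24904 = true ∧
    allY (E.wth (lkp [])) l24905 = true ∧
    allY (E.wth (lkp [])) l24906 = true :=
  ⟨by decide +kernel, by decide +kernel, by decide +kernel, by decide +kernel, by decide +kernel, by decide +kernel, by decide +kernel, by decide +kernel⟩

def t24907 : allY (E.wth (lkp [])) l24907 = true ∧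
    allY (E.wth (lkp [])) l24908 = true ∧
    allY (E.wth (lkp [])) l24909 = true ∧
    allY (E.wth (lkp [])) l24910 = true ∧
    allY (E.wth (lkp [])) l24911 = true ∧
    allY (E.wth (lkp [])) l24912 = true ∧
    allY (E.wth (lkp [])) l24913 = true ∧
    allY (E.wth (lkp [])) l24914 = true :=
  ⟨by decide +kernel, by decide +kernel, by decide +kernel, by decide +kernel, by decide +kernel, by decide +kernel, by decide +kernel, by decide +kernel⟩

def t24915 : allY (E.wth (lkp [])) l24915 = true ∧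
    allY (E.wth (lkp [])) l24916 = true ∧
    allY (E.wth (lkp [])) l24917 = true ∧
    allY (E.wth (lkp [])) l24918 = true ∧
    allY (E.wth (lkp [])) l24919 = true ∧
    allY (E.wth (lkp [])) l24920 = true ∧
    allY (E.wth (lkp [])) l24921 = true ∧
    allY (E.wth (lkp [])) l24922 = true :=
  ⟨by decide +kernel, by decide +kernel, by decide +kernel, by decide +kernel, by decide +kernel, by decide +kernel, by decide +kernel, by decide +kernel⟩

def t24923 : allY (E.wth (lkp [])) l24923 = true ∧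
    allY (E.wth (lkp [])) l24924 = true ∧
    allY (E.wth (lkp [])) l24925 = true ∧
    allY (E.wth (lkp [])) l24926 = true ∧
    allY (E.wth (lkp [])) l24927 = true ∧
    allY (E.wth (lkp [])) l24928 = true ∧
    allY (E.wth (lkp [])) l24929 = true ∧
    allY (E.wth (lkp [])) l24930 = true :=
  ⟨by decide +kernel, by decide +kernel, by decide +kernel, by decide +kernel, by decide +kernel, by decide +kernel, by decide +kernel, by decide +kernel⟩

def t24931 : allY (E.wth (lkp [])) l24931 = true ∧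
    allY (E.wth (lkp [])) l24932 = true ∧
    allY (E.wth (lkp [])) l24933 = true ∧
    allY (E.wth (lkp [])) l24934 = true ∧
    allY (E.wth (lkp [])) l24935 = true ∧
    allY (E.wth (lkp [])) l24936 = true ∧
    allY (E.wth (lkp [])) l24937 = true ∧
    allY (E.wth (lkp [])) l24938 = true :=
  ⟨by decide +kernel, by decide +kernel, by decide +kernel, by decide +kernel, by decide +kernel, by decide +kernel, by decide +kernel, by decide +kernel⟩

def t24939 : allY (E.wth (lkp [])) l24939 = true ∧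
    allY (E.wth (lkp [])) l24940 = true ∧
    allY (E.wth (lkp [])) l24941 = true ∧
    allY (E.wth (lkp [])) l24942 = true ∧
    allY (E.wth (lkp [])) l24943 = true ∧
    allY (E.wth (lkp [])) l24944 = true ∧
    allY (E.wth (lkp [])) l24945 = true ∧
    allY (E.wth (lkp [])) l24946 = true :=
  ⟨by decide +kernel, by decide +kernel, by decide +kernel, by decide +kernel, by decide +kernel, by decide +kernel, by decide +kernel, by decide +kernel⟩

def t24947 : allY (E.wth (lkp [])) l24947 = true ∧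
    allY (E.wth (lkp [])) l24948 = true ∧
    allY (E.wth (lkp [])) l24949 = true ∧
    allY (E.wth (lkp [])) l24950 = true ∧
    allY (E.wth (lkp [])) l24951 = true ∧
    allY (E.wth (lkp [])) l24952 = true ∧
    allY (E.wth (lkp [])) l24953 = true ∧
    allY (E.wth (lkp [])) l24954 = true :=
  ⟨by decide +kernel, by decide +kernel, by decide +kernel, by decide +kernel, by decide +kernel, by decide +kernel, by decide +kernel, by decide +kernel⟩

def t24955 : allY (E.wth (lkp [])) l24955 = true ∧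
    allY (E.wth (lkp [])) l24956 = true ∧
    allY (E.wth (lkp [])) l24957 = true ∧
    allY (E.wth (lkp [])) l24958 = true ∧
    allY (E.wth (lkp [])) l24959 = true ∧
    allY (E.wth (lkp [])) l24960 = true ∧
    allY (E.wth (lkp [])) l24961 = true ∧
    allY (E.wth (lkp [])) l24962 = true :=
  ⟨by decide +kernel, by decide +kernel, by decide +kernel, by decide +kernel, by decide +kernel, by decide +kernel, by decide +kernel, by decide +kernel⟩

def t24963 : allY (E.wth (lkp [])) l24963 = true ∧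
    allY (E.wth (lkp [])) l24964 = true ∧
    allY (E.wth (lkp [])) l24965 = true ∧
    allY (E.wth (lkp [])) l24966 = true ∧
    allY (E.wth (lkp [])) l24967 = true ∧
    allY (E.wth (lkp [])) l24968 = true ∧
    allY (E.wth (lkp [])) l24969 = true ∧
    allY (E.wth (lkp [])) l24970 = true :=
  ⟨by decide +kernel, by decide +kernel, by decide +kernel, by decide +kernel, by decide +kernel, by decide +kernel, by decide +kernel, by decide +kernel⟩

def t24971 : allY (E.wth (lkp [])) l24971 = true ∧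
    allY (E.wth (lkp [])) l24972 = true ∧
    allY (E.wth (lkp [])) l24973 = true ∧
    allY (E.wth (lkp [])) l24974 = true ∧
    allY (E.wth (lkp [])) l24975 = true ∧
    allY (E.wth (lkp [])) l24976 = true ∧
    allY (E.wth (lkp [])) l24977 = true ∧
    allY (E.wth (lkp [])) l24978 = true :=
  ⟨by decide +kernel, by decide +kernel, by decide +kernel, by decide +kernel, by decide +kernel, by decide +kernel, by decide +kernel, by decide +kernel⟩

def t24979 : allY (E.wth (lkp [])) l24979 = true ∧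
    allY (E.wth (lkp [])) l24980 = true ∧
    allY (E.wth (lkp [])) l24981 = true ∧
    allY (E.wth (lkp [])) l24982 = true ∧
    allY (E.wth (lkp [])) l24983 = true ∧
    allY (E.wth (lkp [])) l24984 = true ∧
    allY (E.wth (lkp [])) l24985 = true ∧
    allY (E.wth (lkp [])) l24986 = true :=
  ⟨by decide +kernel, by decide +kernel, by decide +kernel, by decide +kernel, by decide +kernel, by decide +kernel, by decide +kernel, by decide +kernel⟩

def t24987 : allY (E.wth (lkp [])) l24987 = true ∧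
    allY (E.wth (lkp [])) l24988 = true ∧
    allY (E.wth (lkp [])) l24989 = true ∧
    allY (E.wth (lkp [])) l24990 = true ∧
    allY (E.wth (lkp [])) l24991 = true ∧
    allY (E.wth (lkp [])) l24992 = true ∧
    allY (E.wth (lkp [])) l24993 = true ∧
    allY (E.wth (lkp [])) l24994 = true :=
  ⟨by decide +kernel, by decide +kernel, by decide +kernel, by decide +kernel, by decide +kernel, by decide +kernel, by decide +kernel, by decide +kernel⟩

def t24995 : allY (E.wth (lkp [])) l24995 = true ∧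
    allY (E.wth (lkp [])) l24996 = true ∧
    allY (E.wth (lkp [])) l24997 = true ∧
    allY (E.wth (lkp [])) l24998 = true ∧
    allY (E.wth (lkp [])) l24999 = true ∧
    allY (E.wth (lkp [])) l25000 = true ∧
    allY (E.wth (lkp [])) l25001 = true ∧
    allY (E.wth (lkp [])) l25002 = true :=
  ⟨by decide +kernel, by decide +kernel, by decide +kernel, by decide +kernel, by decide +kernel, by decide +kernel, by decide +kernel, by decide +kernel⟩

def t25003 : allY (E.wth (lkp [])) l25003 = true ∧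
    allY (E.wth (lkp [])) l25004 = true ∧
    allY (E.wth (lkp [])) l25005 = true ∧
    allY (E.wth (lkp [])) l25006 = true ∧
    allY (E.wth (lkp [])) l25007 = true ∧
    allY (E.wth (lkp [])) l25008 = true ∧
    allY (E.wth (lkp [])) l25009 = true ∧
    allY (E.wth (lkp [])) l25010 = true :=
  ⟨by decide +kernel, by decide +kernel, by decide +kernel, by decide +kernel, by decide +kernel, by decide +kernel, by decide +kernel, by decide +kernel⟩

def t25011 : allY (E.wth (lkp [])) l25011 = true ∧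
    allY (E.wth (lkp [])) l25012 = true ∧
    allY (E.wth (lkp [])) l25013 = true ∧
    allY (E.wth (lkp [])) l25014 = true ∧
    allY (E.wth (lkp [])) l25015 = true ∧
    allY (E.wth (lkp [])) l25016 = true ∧
    allY (E.wth (lkp [])) l25017 = true ∧
    allY (E.wth (lkp [])) l25018 = true :=
  ⟨by decide +kernel, by decide +kernel, by decide +kernel, by decide +kernel, by decide +kernel, by decide +kernel, by decide +kernel, by decide +kernel⟩

def t25019 : allY (E.wth (lkp [])) l25019 = true ∧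
    allY (E.wth (lkp [])) l25020 = true ∧
    allY (E.wth (lkp [])) l25021 = true ∧
    allY (E.wth (lkp [])) l25022 = true ∧
    allY (E.wth (lkp [])) l25023 = true ∧
    allY (E.wth (lkp [])) l25024 = true ∧
    allY (E.wth (lkp [])) l25025 = true ∧
    allY (E.wth (lkp [])) l25026 = true :=
  ⟨by decide +kernel, by decide +kernel, by decide +kernel, by decide +kernel, by decide +kernel, by decide +kernel, by decide +kernel, by decide +kernel⟩

def t25027 : allY (E.wth (lkp [])) l25027 = true ∧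
    allY (E.wth (lkp [])) l25028 = true ∧
    allY (E.wth (lkp [])) l25029 = true ∧
    allY (E.wth (lkp [])) l25030 = true ∧
    allY (E.wth (lkp [])) l25031 = true ∧
    allY (E.wth (lkp [])) l25032 = true ∧
    allY (E.wth (lkp [])) l25033 = true ∧
    allY (E.wth (lkp [])) l25034 = true :=
  ⟨by decide +kernel, by decide +kernel, by decide +kernel, by decide +kernel, by decide +kernel, by decide +kernel, by decide +kernel, by decide +kernel⟩

def t25035 : allY (E.wth (lkp [])) l25035 = true ∧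
    allY (E.wth (lkp [])) l25036 = true ∧
    allY (E.wth (lkp [])) l25037 = true ∧
    allY (E.wth (lkp [])) l25038 = true ∧
    allY (E.wth (lkp [])) l25039 = true ∧
    allY (E.wth (lkp [])) l25040 = true ∧
    allY (E.wth (lkp [])) l25041 = true ∧
    allY (E.wth (lkp [])) l25042 = true :=
  ⟨by decide +kernel, by decide +kernel, by decide +kernel, by decide +kernel, by decide +kernel, by decide +kernel, by decide +kernel, by decide +kernel⟩

def t25043 : allY (E.wth (lkp [])) l25043 = true ∧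
    allY (E.wth (lkp [])) l25044 = true ∧
    allY (E.wth (lkp [])) l25045 = true ∧
    allY (E.wth (lkp [])) l25046 = true ∧
    allY (E.wth (lkp [])) l25047 = true ∧
    allY (E.wth (lkp [])) l25048 = true ∧
    allY (E.wth (lkp [])) l25049 = true ∧
    allY (E.wth (lkp [])) l25050 = true :=
  ⟨by decide +kernel, by decide +kernel, by decide +kernel, by decide +kernel, by decide +kernel, by decide +kernel, by decide +kernel, by decide +kernel⟩

def t25051 : allY (E.wth (lkp [])) l25051 = true ∧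
    allY (E.wth (lkp [])) l25052 = true ∧
    allY (E.wth (lkp [])) l25053 = true ∧
    allY (E.wth (lkp [])) l25054 = true ∧
    allY (E.wth (lkp [])) l25055 = true ∧
    allY (E.wth (lkp [])) l25056 = true ∧
    allY (E.wth (lkp [])) l25057 = true ∧
    allY (E.wth (lkp [])) l25058 = true :=
  ⟨by decide +kernel, by decide +kernel, by decide +kernel, by decide +kernel, by decide +kernel, by decide +kernel, by decide +kernel, by decide +kernel⟩

def t25059 : allY (E.wth (lkp [])) l25059 = true ∧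
    allY (E.wth (lkp [])) l25060 = true ∧
    allY (E.wth (lkp [])) l25061 = true ∧
    allY (E.wth (lkp [])) l25062 = true ∧
    allY (E.wth (lkp [])) l25063 = true ∧
    allY (E.wth (lkp [])) l25064 = true ∧
    allY (E.wth (lkp [])) l25065 = true ∧
    allY (E.wth (lkp [])) l25066 = true :=
  ⟨by decide +kernel, by decide +kernel, by decide +kernel, by decide +kernel, by decide +kernel, by decide +kernel, by decide +kernel, by decide +kernel⟩

def t25067 : allY (E.wth (lkp [])) l25067 = true ∧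
    allY (E.wth (lkp [])) l25068 = true ∧
    allY (E.wth (lkp [])) l25069 = true ∧
    allY (E.wth (lkp [])) l25070 = true ∧
    allY (E.wth (lkp [])) l25071 = true ∧
    allY (E.wth (lkp [])) l25072 = true ∧
    allY (E.wth (lkp [])) l25073 = true ∧
    allY (E.wth (lkp [])) l25074 = true :=
  ⟨by decide +kernel, by decide +kernel, by decide +kernel, by decide +kernel, by decide +kernel, by decide +kernel, by decide +kernel, by decide +kernel⟩

def t25075 : allY (E.wth (lkp [])) l25075 = true ∧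
    allY (E.wth (lkp [])) l25076 = true ∧
    allY (E.wth (lkp [])) l25077 = true ∧
    allY (E.wth (lkp [])) l25078 = true ∧
    allY (E.wth (lkp [])) l25079 = true ∧
    allY (E.wth (lkp [])) l25080 = true ∧
    allY (E.wth (lkp [])) l25081 = true ∧
    allY (E.wth (lkp [])) l25082 = true :=
  ⟨by decide +kernel, by decide +kernel, by decide +kernel, by decide +kernel, by decide +kernel, by decide +kernel, by decide +kernel, by decide +kernel⟩

def t25083 : allY (E.wth (lkp [])) l25083 = true ∧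
    allY (E.wth (lkp [])) l25084 = true ∧
    allY (E.wth (lkp [])) l25085 = true ∧
    allY (E.wth (lkp [])) l25086 = true ∧
    allY (E.wth (lkp [])) l25087 = true ∧
    allY (E.wth (lkp [])) l25088 = true ∧
    allY (E.wth (lkp [])) l25089 = true ∧
    allY (E.wth (lkp [])) l25090 = true :=
  ⟨by decide +kernel, by decide +kernel, by decide +kernel, by decide +kernel, by decide +kernel, by decide +kernel, by decide +kernel, by decide +kernel⟩

def t25091 : allY (E.wth (lkp [])) l25091 = true ∧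
    allY (E.wth (lkp [])) l25092 = true ∧
    allY (E.wth (lkp [])) l25093 = true ∧
    allY (E.wth (lkp [])) l25094 = true ∧
    allY (E.wth (lkp [])) l25095 = true ∧
    allY (E.wth (lkp [])) l25096 = true ∧
    allY (E.wth (lkp [])) l25097 = true ∧
    allY (E.wth (lkp [])) l25098 = true :=
  ⟨by decide +kernel, by decide +kernel, by decide +kernel, by decide +kernel, by decide +kernel, by decide +kernel, by decide +kernel, by decide +kernel⟩

def t25099 : allY (E.wth (lkp [])) l25099 = true ∧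
    allY (E.wth (lkp [])) l25100 = true ∧
    allY (E.wth (lkp [])) l25101 = true ∧
    allY (E.wth (lkp [])) l25102 = true ∧
    allY (E.wth (lkp [])) l25103 = true ∧
    allY (E.wth (lkp [])) l25104 = true ∧
    allY (E.wth (lkp [])) l25105 = true ∧
    allY (E.wth (lkp [])) l25106 = true :=
  ⟨by decide +kernel, by decide +kernel, by decide +kernel, by decide +kernel, by decide +kernel, by decide +kernel, by decide +kernel, by decide +kernel⟩

def t25107 : allY (E.wth (lkp [])) l25107 = true ∧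
    allY (E.wth (lkp [])) l25108 = true ∧
    allY (E.wth (lkp [])) l25109 = true ∧
    allY (E.wth (lkp [])) l25110 = true ∧
    allY (E.wth (lkp [])) l25111 = true ∧
    allY (E.wth (lkp [])) l25112 = true ∧
    allY (E.wth (lkp [])) l25113 = true ∧
    allY (E.wth (lkp [])) l25114 = true :=
  ⟨by decide +kernel, by decide +kernel, by decide +kernel, by decide +kernel, by decide +kernel, by decide +kernel, by decide +kernel, by decide +kernel⟩

def t25115 : allY (E.wth (lkp [])) l25115 = true ∧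
    allY (E.wth (lkp [])) l25116 = true ∧
    allY (E.wth (lkp [])) l25117 = true ∧
    allY (E.wth (lkp [])) l25118 = true ∧
    allY (E.wth (lkp [])) l25119 = true ∧
    allY (E.wth (lkp [])) l25120 = true ∧
    allY (E.wth (lkp [])) l25121 = true ∧
    allY (E.wth (lkp [])) l25122 = true :=
  ⟨by decide +kernel, by decide +kernel, by decide +kernel, by decide +kernel, by decide +kernel, by decide +kernel, by decide +kernel, by decide +kernel⟩

def t25123 : allY (E.wth (lkp [])) l25123 = true ∧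
    allY (E.wth (lkp [])) l25124 = true ∧
    allY (E.wth (lkp [])) l25125 = true ∧
    allY (E.wth (lkp [])) l25126 = true ∧
    allY (E.wth (lkp [])) l25127 = true ∧
    allY (E.wth (lkp [])) l25128 = true ∧
    allY (E.wth (lkp [])) l25129 = true ∧
    allY (E.wth (lkp [])) l25130 = true :=
  ⟨by decide +kernel, by decide +kernel, by decide +kernel, by decide +kernel, by decide +kernel, by decide +kernel, by decide +kernel, by decide +kernel⟩

def t25131 : allY (E.wth (lkp [])) l25131 = true ∧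
    allY (E.wth (lkp [])) l25132 = true ∧
    allY (E.wth (lkp [])) l25133 = true ∧
    allY (E.wth (lkp [])) l25134 = true ∧
    allY (E.wth (lkp [])) l25135 = true ∧
    allY (E.wth (lkp [])) l25136 = true ∧
    allY (E.wth (lkp [])) l25137 = true ∧
    allY (E.wth (lkp [])) l25138 = true :=
  ⟨by decide +kernel, by decide +kernel, by decide +kernel, by decide +kernel, by decide +kernel, by decide +kernel, by decide +kernel, by decide +kernel⟩

def t25139 : allY (E.wth (lkp [])) l25139 = true ∧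
    allY (E.wth (lkp [])) l25140 = true ∧
    allY (E.wth (lkp [])) l25141 = true ∧
    allY (E.wth (lkp [])) l25142 = true ∧
    allY (E.wth (lkp [])) l25143 = true ∧
    allY (E.wth (lkp [])) l25144 = true ∧
    allY (E.wth (lkp [])) l25145 = true ∧
    allY (E.wth (lkp [])) l25146 = true :=
  ⟨by decide +kernel, by decide +kernel, by decide +kernel, by decide +kernel, by decide +kernel, by decide +kernel, by decide +kernel, by decide +kernel⟩

def t25147 : allY (E.wth (lkp [])) l25147 = true ∧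
    allY (E.wth (lkp [])) l25148 = true ∧
    allY (E.wth (lkp [])) l25149 = true ∧
    allY (E.wth (lkp [])) l25150 = true ∧
    allY (E.wth (lkp [])) l25151 = true ∧
    allY (E.wth (lkp [])) l25152 = true ∧
    allY (E.wth (lkp [])) l25153 = true ∧
    allY (E.wth (lkp [])) l25154 = true :=
  ⟨by decide +kernel, by decide +kernel, by decide +kernel, by decide +kernel, by decide +kernel, by decide +kernel, by decide +kernel, by decide +kernel⟩

def t25155 : allY (E.wth (lkp [])) l25155 = true ∧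
    allY (E.wth (lkp [])) l25156 = true ∧
    allY (E.wth (lkp [])) l25157 = true ∧
    allY (E.wth (lkp [])) l25158 = true ∧
    allY (E.wth (lkp [])) l25159 = true ∧
    allY (E.wth (lkp [])) l25160 = true ∧
    allY (E.wth (lkp [])) l25161 = true ∧
    allY (E.wth (lkp [])) l25162 = true :=
  ⟨by decide +kernel, by decide +kernel, by decide +kernel, by decide +kernel, by decide +kernel, by decide +kernel, by decide +kernel, by decide +kernel⟩

def t25163 : allY (E.wth (lkp [])) l25163 = true ∧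
    allY (E.wth (lkp [])) l25164 = true ∧
    allY (E.wth (lkp [])) l25165 = true ∧
    allY (E.wth (lkp [])) l25166 = true ∧
    allY (E.wth (lkp [])) l25167 = true ∧
    allY (E.wth (lkp [])) l25168 = true ∧
    allY (E.wth (lkp [])) l25169 = true ∧
    allY (E.wth (lkp [])) l25170 = true :=
  ⟨by decide +kernel, by decide +kernel, by decide +kernel, by decide +kernel, by decide +kernel, by decide +kernel, by decide +kernel, by decide +kernel⟩

def t25171 : allY (E.wth (lkp [])) l25171 = true ∧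
    allY (E.wth (lkp [])) l25172 = true ∧
    allY (E.wth (lkp [])) l25173 = true ∧
    allY (E.wth (lkp [])) l25174 = true ∧
    allY (E.wth (lkp [])) l25175 = true ∧
    allY (E.wth (lkp [])) l25176 = true ∧
    allY (E.wth (lkp [])) l25177 = true ∧
    allY (E.wth (lkp [])) l25178 = true :=
  ⟨by decide +kernel, by decide +kernel, by decide +kernel, by decide +kernel, by decide +kernel, by decide +kernel, by decide +kernel, by decide +kernel⟩

def t25179 : allY (E.wth (lkp [])) l25179 = true ∧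
    allY (E.wth (lkp [])) l25180 = true ∧
    allY (E.wth (lkp [])) l25181 = true ∧
    allY (E.wth (lkp [])) l25182 = true ∧
    allY (E.wth (lkp [])) l25183 = true ∧
    allY (E.wth (lkp [])) l25184 = true ∧
    allY (E.wth (lkp [])) l25185 = true ∧
    allY (E.wth (lkp [])) l25186 = true :=
  ⟨by decide +kernel, by decide +kernel, by decide +kernel, by decide +kernel, by decide +kernel, by decide +kernel, by decide +kernel, by decide +kernel⟩

def t25187 : allY (E.wth (lkp [])) l25187 = true ∧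
    allY (E.wth (lkp [])) l25188 = true ∧
    allY (E.wth (lkp [])) l25189 = true ∧
    allY (E.wth (lkp [])) l25190 = true ∧
    allY (E.wth (lkp [])) l25191 = true ∧
    allY (E.wth (lkp [])) l25192 = true ∧
    allY (E.wth (lkp [])) l25193 = true ∧
    allY (E.wth (lkp [])) l25194 = true :=
  ⟨by decide +kernel, by decide +kernel, by decide +kernel, by decide +kernel, by decide +kernel, by decide +kernel, by decide +kernel, by decide +kernel⟩

def t25195 : allY (E.wth (lkp [])) l25195 = true ∧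
    allY (E.wth (lkp [])) l25196 = true ∧
    allY (E.wth (lkp [])) l25197 = true :=
  ⟨by decide +kernel, by decide +kernel, by decide +kernel⟩

theorem a44 {p : Rf → Prop} (H : ∀ l, allY (E.wth (lkp [])) l = true → (lkp l).All p) :
    b44.All p := ⟨⟨⟨⟨⟨⟨⟨⟨⟨H _ t24643.1, H _ t24643.2.1⟩, ⟨H _ t24643.2.2.1, H _ t24643.2.2.2.1⟩⟩, ⟨⟨H _ t24643.2.2.2.2.1, H _ t24643.2.2.2.2.2.1⟩, ⟨H _ t24643.2.2.2.2.2.2.1, H _ t24643.2.2.2.2.2.2.2⟩⟩⟩, ⟨⟨⟨H _ t24651.1, H _ t24651.2.1⟩, ⟨H _ t24651.2.2.1, H _ t24651.2.2.2.1⟩⟩, ⟨⟨H _ t24651.2.2.2.2.1, H _ t24651.2.2.2.2.2.1⟩, ⟨H _ t24651.2.2.2.2.2.2.1, ⟨H _ t24651.2.2.2.2.2.2.2, H _ t24659.1⟩⟩⟩⟩⟩, ⟨⟨⟨⟨H _ t24659.2.1, H _ t24659.2.2.1⟩, ⟨H _ t24659.2.2.2.1, H _ t24659.2.2.2.2.1⟩⟩, ⟨⟨H _ t24659.2.2.2.2.2.1, H _ t24659.2.2.2.2.2.2.1⟩, ⟨H _ t24659.2.2.2.2.2.2.2, H _ t24667.1⟩⟩⟩, ⟨⟨⟨H _ t24667.2.1, H _ t24667.2.2.1⟩, ⟨H _ t24667.2.2.2.1, H _ t24667.2.2.2.2.1⟩⟩, ⟨⟨H _ t24667.2.2.2.2.2.1,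 H _ t24667.2.2.2.2.2.2.1⟩, ⟨H _ t24667.2.2.2.2.2.2.2, ⟨H _ t24675.1, H _ t24675.2.1⟩⟩⟩⟩⟩⟩, ⟨⟨⟨⟨⟨H _ t24675.2.2.1, H _ t24675.2.2.2.1⟩, ⟨H _ t24675.2.2.2.2.1, H _ t24675.2.2.2.2.2.1⟩⟩, ⟨⟨H _ t24675.2.2.2.2.2.2.1, H _ t24675.2.2.2.2.2.2.2⟩, ⟨H _ t24683.1, H _ t24683.2.1⟩⟩⟩, ⟨⟨⟨H _ t24683.2.2.1, H _ t24683.2.2.2.1⟩, ⟨H _ t24683.2.2.2.2.1, H _ t24683.2.2.2.2.2.1⟩⟩, ⟨⟨H _ t24683.2.2.2.2.2.2.1, H _ t24683.2.2.2.2.2.2.2⟩, ⟨H _ t24691.1, ⟨H _ t24691.2.1, H _ t24691.2.2.1⟩⟩⟩⟩⟩, ⟨⟨⟨⟨H _ t24691.2.2.2.1, H _ t24691.2.2.2.2.1⟩, ⟨H _ t24691.2.2.2.2.2.1, H _ t24691.2.2.2.2.2.2.1⟩⟩, ⟨⟨H _ t24691.2.2.2.2.2.2.2, H _ t24699.1⟩, ⟨H _ t24699.2.1, ⟨H _ t24699.2.2.1, H _ t24699.2.2.2.1⟩⟩⟩⟩, ⟨⟨⟨H _ t24699.2.2.2.2.1, H _ t24699.2.2.2.2.2.1⟩, ⟨H _ t24699.2.2.2.2.2.2.1, H _ t24699.2.2.2.2.2.2.2⟩⟩, ⟨⟨H _ t24707.1, H _ t24707.2.1⟩, ⟨H _ t24707.2.2.1, ⟨H _ t24707.2.2.2.1, H _ t24707.2.2.2.2.1⟩⟩⟩⟩⟩⟩⟩, ⟨⟨⟨⟨⟨⟨H _ t24707.2.2.2.2.2.1,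 H _ t24707.2.2.2.2.2.2.1⟩, ⟨H _ t24707.2.2.2.2.2.2.2, H _ t24715.1⟩⟩, ⟨⟨H _ t24715.2.1, H _ t24715.2.2.1⟩, ⟨H _ t24715.2.2.2.1, H _ t24715.2.2.2.2.1⟩⟩⟩, ⟨⟨⟨H _ t24715.2.2.2.2.2.1, H _ t24715.2.2.2.2.2.2.1⟩, ⟨H _ t24715.2.2.2.2.2.2.2, H _ t24723.1⟩⟩, ⟨⟨H _ t24723.2.1, H _ t24723.2.2.1⟩, ⟨H _ t24723.2.2.2.1, ⟨H _ t24723.2.2.2.2.1, H _ t24723.2.2.2.2.2.1⟩⟩⟩⟩⟩, ⟨⟨⟨⟨H _ t24723.2.2.2.2.2.2.1, H _ t24723.2.2.2.2.2.2.2⟩, ⟨H _ t24731.1, H _ t24731.2.1⟩⟩, ⟨⟨H _ t24731.2.2.1, H _ t24731.2.2.2.1⟩, ⟨H _ t24731.2.2.2.2.1, H _ t24731.2.2.2.2.2.1⟩⟩⟩, ⟨⟨⟨H _ t24731.2.2.2.2.2.2.1, H _ t24731.2.2.2.2.2.2.2⟩, ⟨H _ t24739.1, H _ t24739.2.1⟩⟩, ⟨⟨H _ t24739.2.2.1, H _ t24739.2.2.2.1⟩, ⟨H _ t24739.2.2.2.2.1, ⟨H _ t24739.2.2.2.2.2.1, H _ t24739.2.2.2.2.2.2.1⟩⟩⟩⟩⟩⟩, ⟨⟨⟨⟨⟨H _ t24739.2.2.2.2.2.2.2, H _ t24747.1⟩, ⟨H _ t24747.2.1, H _ t24747.2.2.1⟩⟩, ⟨⟨H _ t24747.2.2.2.1, H _ t24747.2.2.2.2.1⟩, ⟨H _ t24747.2.2.2.2.2.1, H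 _ t24747.2.2.2.2.2.2.1⟩⟩⟩, ⟨⟨⟨H _ t24747.2.2.2.2.2.2.2, H _ t24755.1⟩, ⟨H _ t24755.2.1, H _ t24755.2.2.1⟩⟩, ⟨⟨H _ t24755.2.2.2.1, H _ t24755.2.2.2.2.1⟩, ⟨H _ t24755.2.2.2.2.2.1, ⟨H _ t24755.2.2.2.2.2.2.1, H _ t24755.2.2.2.2.2.2.2⟩⟩⟩⟩⟩, ⟨⟨⟨⟨H _ t24763.1, H _ t24763.2.1⟩, ⟨H _ t24763.2.2.1, H _ t24763.2.2.2.1⟩⟩, ⟨⟨H _ t24763.2.2.2.2.1, H _ t24763.2.2.2.2.2.1⟩, ⟨H _ t24763.2.2.2.2.2.2.1, ⟨H _ t24763.2.2.2.2.2.2.2, H _ t24771.1⟩⟩⟩⟩, ⟨⟨⟨H _ t24771.2.1, H _ t24771.2.2.1⟩, ⟨H _ t24771.2.2.2.1, H _ t24771.2.2.2.2.1⟩⟩, ⟨⟨H _ t24771.2.2.2.2.2.1, H _ t24771.2.2.2.2.2.2.1⟩, ⟨H _ t24771.2.2.2.2.2.2.2, ⟨H _ t24779.1, H _ t24779.2.1⟩⟩⟩⟩⟩⟩⟩⟩, ⟨⟨⟨⟨⟨⟨⟨H _ t24779.2.2.1, H _ t24779.2.2.2.1⟩, ⟨H _ t24779.2.2.2.2.1, H _ t24779.2.2.2.2.2.1⟩⟩, ⟨⟨H _ t24779.2.2.2.2.2.2.1, H _ t24779.2.2.2.2.2.2.2⟩, ⟨H _ t24787.1, H _ t24787.2.1⟩⟩⟩, ⟨⟨⟨H _ t24787.2.2.1, H _ t24787.2.2.2.1⟩, ⟨H _ t24787.2.2.2.2.1, H _ t24787.2.2.2.2.2.1⟩⟩,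 ⟨⟨H _ t24787.2.2.2.2.2.2.1, H _ t24787.2.2.2.2.2.2.2⟩, ⟨H _ t24795.1, ⟨H _ t24795.2.1, H _ t24795.2.2.1⟩⟩⟩⟩⟩, ⟨⟨⟨⟨H _ t24795.2.2.2.1, H _ t24795.2.2.2.2.1⟩, ⟨H _ t24795.2.2.2.2.2.1, H _ t24795.2.2.2.2.2.2.1⟩⟩, ⟨⟨H _ t24795.2.2.2.2.2.2.2, H _ t24803.1⟩, ⟨H _ t24803.2.1, H _ t24803.2.2.1⟩⟩⟩, ⟨⟨⟨H _ t24803.2.2.2.1, H _ t24803.2.2.2.2.1⟩, ⟨H _ t24803.2.2.2.2.2.1, H _ t24803.2.2.2.2.2.2.1⟩⟩, ⟨⟨H _ t24803.2.2.2.2.2.2.2, H _ t24811.1⟩, ⟨H _ t24811.2.1, ⟨H _ t24811.2.2.1, H _ t24811.2.2.2.1⟩⟩⟩⟩⟩⟩, ⟨⟨⟨⟨⟨H _ t24811.2.2.2.2.1, H _ t24811.2.2.2.2.2.1⟩, ⟨H _ t24811.2.2.2.2.2.2.1, H _ t24811.2.2.2.2.2.2.2⟩⟩, ⟨⟨H _ t24819.1, H _ t24819.2.1⟩, ⟨H _ t24819.2.2.1, H _ t24819.2.2.2.1⟩⟩⟩, ⟨⟨⟨H _ t24819.2.2.2.2.1, H _ t24819.2.2.2.2.2.1⟩, ⟨H _ t24819.2.2.2.2.2.2.1, H _ t24819.2.2.2.2.2.2.2⟩⟩, ⟨⟨H _ t24827.1, H _ t24827.2.1⟩, ⟨H _ t24827.2.2.1, ⟨H _ t24827.2.2.2.1, H _ t24827.2.2.2.2.1⟩⟩⟩⟩⟩, ⟨⟨⟨⟨H _ t24827.2.2.2.2.2.1,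 H _ t24827.2.2.2.2.2.2.1⟩, ⟨H _ t24827.2.2.2.2.2.2.2, H _ t24835.1⟩⟩, ⟨⟨H _ t24835.2.1, H _ t24835.2.2.1⟩, ⟨H _ t24835.2.2.2.1, ⟨H _ t24835.2.2.2.2.1, H _ t24835.2.2.2.2.2.1⟩⟩⟩⟩, ⟨⟨⟨H _ t24835.2.2.2.2.2.2.1, H _ t24835.2.2.2.2.2.2.2⟩, ⟨H _ t24843.1, H _ t24843.2.1⟩⟩, ⟨⟨H _ t24843.2.2.1, H _ t24843.2.2.2.1⟩, ⟨H _ t24843.2.2.2.2.1, ⟨H _ t24843.2.2.2.2.2.1, H _ t24843.2.2.2.2.2.2.1⟩⟩⟩⟩⟩⟩⟩, ⟨⟨⟨⟨⟨⟨H _ t24843.2.2.2.2.2.2.2, H _ t24851.1⟩, ⟨H _ t24851.2.1, H _ t24851.2.2.1⟩⟩, ⟨⟨H _ t24851.2.2.2.1, H _ t24851.2.2.2.2.1⟩, ⟨H _ t24851.2.2.2.2.2.1, H _ t24851.2.2.2.2.2.2.1⟩⟩⟩, ⟨⟨⟨H _ t24851.2.2.2.2.2.2.2, H _ t24859.1⟩, ⟨H _ t24859.2.1, H _ t24859.2.2.1⟩⟩, ⟨⟨H _ t24859.2.2.2.1, H _ t24859.2.2.2.2.1⟩, ⟨H _ t24859.2.2.2.2.2.1, ⟨H _ t24859.2.2.2.2.2.2.1, H _ t24859.2.2.2.2.2.2.2⟩⟩⟩⟩⟩, ⟨⟨⟨⟨H _ t24867.1, H _ t24867.2.1⟩, ⟨H _ t24867.2.2.1, H _ t24867.2.2.2.1⟩⟩, ⟨⟨H _ t24867.2.2.2.2.1, H _ t24867.2.2.2.2.2.1⟩,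 ⟨H _ t24867.2.2.2.2.2.2.1, ⟨H _ t24867.2.2.2.2.2.2.2, H _ t24875.1⟩⟩⟩⟩, ⟨⟨⟨H _ t24875.2.1, H _ t24875.2.2.1⟩, ⟨H _ t24875.2.2.2.1, H _ t24875.2.2.2.2.1⟩⟩, ⟨⟨H _ t24875.2.2.2.2.2.1, H _ t24875.2.2.2.2.2.2.1⟩, ⟨H _ t24875.2.2.2.2.2.2.2, ⟨H _ t24883.1, H _ t24883.2.1⟩⟩⟩⟩⟩⟩, ⟨⟨⟨⟨⟨H _ t24883.2.2.1, H _ t24883.2.2.2.1⟩, ⟨H _ t24883.2.2.2.2.1, H _ t24883.2.2.2.2.2.1⟩⟩, ⟨⟨H _ t24883.2.2.2.2.2.2.1, H _ t24883.2.2.2.2.2.2.2⟩, ⟨H _ t24891.1, H _ t24891.2.1⟩⟩⟩, ⟨⟨⟨H _ t24891.2.2.1, H _ t24891.2.2.2.1⟩, ⟨H _ t24891.2.2.2.2.1, H _ t24891.2.2.2.2.2.1⟩⟩, ⟨⟨H _ t24891.2.2.2.2.2.2.1, H _ t24891.2.2.2.2.2.2.2⟩, ⟨H _ t24899.1, ⟨H _ t24899.2.1, H _ t24899.2.2.1⟩⟩⟩⟩⟩, ⟨⟨⟨⟨H _ t24899.2.2.2.1, H _ t24899.2.2.2.2.1⟩, ⟨H _ t24899.2.2.2.2.2.1, H _ t24899.2.2.2.2.2.2.1⟩⟩, ⟨⟨H _ t24899.2.2.2.2.2.2.2, H _ t24907.1⟩, ⟨H _ t24907.2.1, ⟨H _ t24907.2.2.1, H _ t24907.2.2.2.1⟩⟩⟩⟩, ⟨⟨⟨H _ t24907.2.2.2.2.1, H _ t24907.2.2.2.2.2.1⟩,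 ⟨H _ t24907.2.2.2.2.2.2.1, H _ t24907.2.2.2.2.2.2.2⟩⟩, ⟨⟨H _ t24915.1, H _ t24915.2.1⟩, ⟨H _ t24915.2.2.1, ⟨H _ t24915.2.2.2.1, H _ t24915.2.2.2.2.1⟩⟩⟩⟩⟩⟩⟩⟩⟩, ⟨⟨⟨⟨⟨⟨⟨⟨H _ t24915.2.2.2.2.2.1, H _ t24915.2.2.2.2.2.2.1⟩, ⟨H _ t24915.2.2.2.2.2.2.2, H _ t24923.1⟩⟩, ⟨⟨H _ t24923.2.1, H _ t24923.2.2.1⟩, ⟨H _ t24923.2.2.2.1, H _ t24923.2.2.2.2.1⟩⟩⟩, ⟨⟨⟨H _ t24923.2.2.2.2.2.1, H _ t24923.2.2.2.2.2.2.1⟩, ⟨H _ t24923.2.2.2.2.2.2.2, H _ t24931.1⟩⟩, ⟨⟨H _ t24931.2.1, H _ t24931.2.2.1⟩, ⟨H _ t24931.2.2.2.1, ⟨H _ t24931.2.2.2.2.1, H _ t24931.2.2.2.2.2.1⟩⟩⟩⟩⟩, ⟨⟨⟨⟨H _ t24931.2.2.2.2.2.2.1, H _ t24931.2.2.2.2.2.2.2⟩, ⟨H _ t24939.1, H _ t24939.2.1⟩⟩, ⟨⟨H _ t24939.2.2.1, H _ t24939.2.2.2.1⟩, ⟨H _ t24939.2.2.2.2.1, H _ t24939.2.2.2.2.2.1⟩⟩⟩, ⟨⟨⟨H _ t24939.2.2.2.2.2.2.1, H _ t24939.2.2.2.2.2.2.2⟩, ⟨H _ t24947.1, H _ t24947.2.1⟩⟩, ⟨⟨H _ t24947.2.2.1, H _ t24947.2.2.2.1⟩, ⟨H _ t24947.2.2.2.2.1, ⟨H _ t24947.2.2.2.2.2.1,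 H _ t24947.2.2.2.2.2.2.1⟩⟩⟩⟩⟩⟩, ⟨⟨⟨⟨⟨H _ t24947.2.2.2.2.2.2.2, H _ t24955.1⟩, ⟨H _ t24955.2.1, H _ t24955.2.2.1⟩⟩, ⟨⟨H _ t24955.2.2.2.1, H _ t24955.2.2.2.2.1⟩, ⟨H _ t24955.2.2.2.2.2.1, H _ t24955.2.2.2.2.2.2.1⟩⟩⟩, ⟨⟨⟨H _ t24955.2.2.2.2.2.2.2, H _ t24963.1⟩, ⟨H _ t24963.2.1, H _ t24963.2.2.1⟩⟩, ⟨⟨H _ t24963.2.2.2.1, H _ t24963.2.2.2.2.1⟩, ⟨H _ t24963.2.2.2.2.2.1, ⟨H _ t24963.2.2.2.2.2.2.1, H _ t24963.2.2.2.2.2.2.2⟩⟩⟩⟩⟩, ⟨⟨⟨⟨H _ t24971.1, H _ t24971.2.1⟩, ⟨H _ t24971.2.2.1, H _ t24971.2.2.2.1⟩⟩, ⟨⟨H _ t24971.2.2.2.2.1, H _ t24971.2.2.2.2.2.1⟩, ⟨H _ t24971.2.2.2.2.2.2.1, ⟨H _ t24971.2.2.2.2.2.2.2, H _ t24979.1⟩⟩⟩⟩, ⟨⟨⟨H _ t24979.2.1, H _ t24979.2.2.1⟩, ⟨H _ t24979.2.2.2.1, H _ t24979.2.2.2.2.1⟩⟩, ⟨⟨H _ t24979.2.2.2.2.2.1, H _ t24979.2.2.2.2.2.2.1⟩, ⟨H _ t24979.2.2.2.2.2.2.2, ⟨H _ t24987.1, H _ t24987.2.1⟩⟩⟩⟩⟩⟩⟩, ⟨⟨⟨⟨⟨⟨H _ t24987.2.2.1, H _ t24987.2.2.2.1⟩, ⟨H _ t24987.2.2.2.2.1, H _ t24987.2.2.2.2.2.1⟩⟩,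 ⟨⟨H _ t24987.2.2.2.2.2.2.1, H _ t24987.2.2.2.2.2.2.2⟩, ⟨H _ t24995.1, H _ t24995.2.1⟩⟩⟩, ⟨⟨⟨H _ t24995.2.2.1, H _ t24995.2.2.2.1⟩, ⟨H _ t24995.2.2.2.2.1, H _ t24995.2.2.2.2.2.1⟩⟩, ⟨⟨H _ t24995.2.2.2.2.2.2.1, H _ t24995.2.2.2.2.2.2.2⟩, ⟨H _ t25003.1, ⟨H _ t25003.2.1, H _ t25003.2.2.1⟩⟩⟩⟩⟩, ⟨⟨⟨⟨H _ t25003.2.2.2.1, H _ t25003.2.2.2.2.1⟩, ⟨H _ t25003.2.2.2.2.2.1, H _ t25003.2.2.2.2.2.2.1⟩⟩, ⟨⟨H _ t25003.2.2.2.2.2.2.2, H _ t25011.1⟩, ⟨H _ t25011.2.1, ⟨H _ t25011.2.2.1, H _ t25011.2.2.2.1⟩⟩⟩⟩, ⟨⟨⟨H _ t25011.2.2.2.2.1, H _ t25011.2.2.2.2.2.1⟩, ⟨H _ t25011.2.2.2.2.2.2.1, H _ t25011.2.2.2.2.2.2.2⟩⟩, ⟨⟨H _ t25019.1, H _ t25019.2.1⟩, ⟨H _ t25019.2.2.1, ⟨H _ t25019.2.2.2.1, H _ t25019.2.2.2.2.1⟩⟩⟩⟩⟩⟩, ⟨⟨⟨⟨⟨H _ t25019.2.2.2.2.2.1, H _ t25019.2.2.2.2.2.2.1⟩, ⟨H _ t25019.2.2.2.2.2.2.2, H _ t25027.1⟩⟩, ⟨⟨H _ t25027.2.1, H _ t25027.2.2.1⟩, ⟨H _ t25027.2.2.2.1, H _ t25027.2.2.2.2.1⟩⟩⟩, ⟨⟨⟨H _ t25027.2.2.2.2.2.1,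 H _ t25027.2.2.2.2.2.2.1⟩, ⟨H _ t25027.2.2.2.2.2.2.2, H _ t25035.1⟩⟩, ⟨⟨H _ t25035.2.1, H _ t25035.2.2.1⟩, ⟨H _ t25035.2.2.2.1, ⟨H _ t25035.2.2.2.2.1, H _ t25035.2.2.2.2.2.1⟩⟩⟩⟩⟩, ⟨⟨⟨⟨H _ t25035.2.2.2.2.2.2.1, H _ t25035.2.2.2.2.2.2.2⟩, ⟨H _ t25043.1, H _ t25043.2.1⟩⟩, ⟨⟨H _ t25043.2.2.1, H _ t25043.2.2.2.1⟩, ⟨H _ t25043.2.2.2.2.1, ⟨H _ t25043.2.2.2.2.2.1, H _ t25043.2.2.2.2.2.2.1⟩⟩⟩⟩, ⟨⟨⟨H _ t25043.2.2.2.2.2.2.2, H _ t25051.1⟩, ⟨H _ t25051.2.1, H _ t25051.2.2.1⟩⟩, ⟨⟨H _ t25051.2.2.2.1, H _ t25051.2.2.2.2.1⟩, ⟨H _ t25051.2.2.2.2.2.1, ⟨H _ t25051.2.2.2.2.2.2.1, H _ t25051.2.2.2.2.2.2.2⟩⟩⟩⟩⟩⟩⟩⟩, ⟨⟨⟨⟨⟨⟨⟨H _ t25059.1, H _ t25059.2.1⟩, ⟨H _ t25059.2.2.1, H _ t25059.2.2.2.1⟩⟩, ⟨⟨H _ t25059.2.2.2.2.1, H _ t25059.2.2.2.2.2.1⟩, ⟨H _ t25059.2.2.2.2.2.2.1, H _ t25059.2.2.2.2.2.2.2⟩⟩⟩, ⟨⟨⟨H _ t25067.1, H _ t25067.2.1⟩, ⟨H _ t25067.2.2.1, H _ t25067.2.2.2.1⟩⟩, ⟨⟨H _ t25067.2.2.2.2.1, H _ t25067.2.2.2.2.2.1⟩,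 ⟨H _ t25067.2.2.2.2.2.2.1, ⟨H _ t25067.2.2.2.2.2.2.2, H _ t25075.1⟩⟩⟩⟩⟩, ⟨⟨⟨⟨H _ t25075.2.1, H _ t25075.2.2.1⟩, ⟨H _ t25075.2.2.2.1, H _ t25075.2.2.2.2.1⟩⟩, ⟨⟨H _ t25075.2.2.2.2.2.1, H _ t25075.2.2.2.2.2.2.1⟩, ⟨H _ t25075.2.2.2.2.2.2.2, H _ t25083.1⟩⟩⟩, ⟨⟨⟨H _ t25083.2.1, H _ t25083.2.2.1⟩, ⟨H _ t25083.2.2.2.1, H _ t25083.2.2.2.2.1⟩⟩, ⟨⟨H _ t25083.2.2.2.2.2.1, H _ t25083.2.2.2.2.2.2.1⟩, ⟨H _ t25083.2.2.2.2.2.2.2, ⟨H _ t25091.1, H _ t25091.2.1⟩⟩⟩⟩⟩⟩, ⟨⟨⟨⟨⟨H _ t25091.2.2.1, H _ t25091.2.2.2.1⟩, ⟨H _ t25091.2.2.2.2.1, H _ t25091.2.2.2.2.2.1⟩⟩, ⟨⟨H _ t25091.2.2.2.2.2.2.1, H _ t25091.2.2.2.2.2.2.2⟩, ⟨H _ t25099.1, H _ t25099.2.1⟩⟩⟩, ⟨⟨⟨H _ t25099.2.2.1, H _ t25099.2.2.2.1⟩, ⟨H _ t25099.2.2.2.2.1, H _ t25099.2.2.2.2.2.1⟩⟩, ⟨⟨H _ t25099.2.2.2.2.2.2.1, H _ t25099.2.2.2.2.2.2.2⟩, ⟨H _ t25107.1, ⟨H _ t25107.2.1, H _ t25107.2.2.1⟩⟩⟩⟩⟩, ⟨⟨⟨⟨H _ t25107.2.2.2.1, H _ t25107.2.2.2.2.1⟩, ⟨H _ t25107.2.2.2.2.2.1,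 H _ t25107.2.2.2.2.2.2.1⟩⟩, ⟨⟨H _ t25107.2.2.2.2.2.2.2, H _ t25115.1⟩, ⟨H _ t25115.2.1, ⟨H _ t25115.2.2.1, H _ t25115.2.2.2.1⟩⟩⟩⟩, ⟨⟨⟨H _ t25115.2.2.2.2.1, H _ t25115.2.2.2.2.2.1⟩, ⟨H _ t25115.2.2.2.2.2.2.1, H _ t25115.2.2.2.2.2.2.2⟩⟩, ⟨⟨H _ t25123.1, H _ t25123.2.1⟩, ⟨H _ t25123.2.2.1, ⟨H _ t25123.2.2.2.1, H _ t25123.2.2.2.2.1⟩⟩⟩⟩⟩⟩⟩, ⟨⟨⟨⟨⟨⟨H _ t25123.2.2.2.2.2.1, H _ t25123.2.2.2.2.2.2.1⟩, ⟨H _ t25123.2.2.2.2.2.2.2, H _ t25131.1⟩⟩, ⟨⟨H _ t25131.2.1, H _ t25131.2.2.1⟩, ⟨H _ t25131.2.2.2.1, H _ t25131.2.2.2.2.1⟩⟩⟩, ⟨⟨⟨H _ t25131.2.2.2.2.2.1, H _ t25131.2.2.2.2.2.2.1⟩, ⟨H _ t25131.2.2.2.2.2.2.2, H _ t25139.1⟩⟩, ⟨⟨H _ t25139.2.1, H _ t25139.2.2.1⟩, ⟨H _ t25139.2.2.2.1, ⟨H _ t25139.2.2.2.2.1, H _ t25139.2.2.2.2.2.1⟩⟩⟩⟩⟩, ⟨⟨⟨⟨H _ t25139.2.2.2.2.2.2.1, H _ t25139.2.2.2.2.2.2.2⟩, ⟨H _ t25147.1, H _ t25147.2.1⟩⟩, ⟨⟨H _ t25147.2.2.1, H _ t25147.2.2.2.1⟩, ⟨H _ t25147.2.2.2.2.1, ⟨H _ t25147.2.2.2.2.2.1,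 H _ t25147.2.2.2.2.2.2.1⟩⟩⟩⟩, ⟨⟨⟨H _ t25147.2.2.2.2.2.2.2, H _ t25155.1⟩, ⟨H _ t25155.2.1, H _ t25155.2.2.1⟩⟩, ⟨⟨H _ t25155.2.2.2.1, H _ t25155.2.2.2.2.1⟩, ⟨H _ t25155.2.2.2.2.2.1, ⟨H _ t25155.2.2.2.2.2.2.1, H _ t25155.2.2.2.2.2.2.2⟩⟩⟩⟩⟩⟩, ⟨⟨⟨⟨⟨H _ t25163.1, H _ t25163.2.1⟩, ⟨H _ t25163.2.2.1, H _ t25163.2.2.2.1⟩⟩, ⟨⟨H _ t25163.2.2.2.2.1, H _ t25163.2.2.2.2.2.1⟩, ⟨H _ t25163.2.2.2.2.2.2.1, H _ t25163.2.2.2.2.2.2.2⟩⟩⟩, ⟨⟨⟨H _ t25171.1, H _ t25171.2.1⟩, ⟨H _ t25171.2.2.1, H _ t25171.2.2.2.1⟩⟩, ⟨⟨H _ t25171.2.2.2.2.1, H _ t25171.2.2.2.2.2.1⟩, ⟨H _ t25171.2.2.2.2.2.2.1, ⟨H _ t25171.2.2.2.2.2.2.2, H _ t25179.1⟩⟩⟩⟩⟩, ⟨⟨⟨⟨H _ t25179.2.1, H _ t25179.2.2.1⟩, ⟨H _ t25179.2.2.2.1, H _ t25179.2.2.2.2.1⟩⟩, ⟨⟨H _ t25179.2.2.2.2.2.1, H _ t25179.2.2.2.2.2.2.1⟩, ⟨H _ t25179.2.2.2.2.2.2.2, ⟨H _ t25187.1, H _ t25187.2.1⟩⟩⟩⟩, ⟨⟨⟨H _ t25187.2.2.1, H _ t25187.2.2.2.1⟩, ⟨H _ t25187.2.2.2.2.1, H _ t25187.2.2.2.2.2.1⟩⟩,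 ⟨⟨H _ t25187.2.2.2.2.2.2.1, H _ t25187.2.2.2.2.2.2.2⟩, ⟨H _ t25195.1, ⟨H _ t25195.2.1, H _ t25195.2.2⟩⟩⟩⟩⟩⟩⟩⟩⟩⟩

end Pool.Agent.MP_c853c5_nt.X.C4950
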