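import Pool.Agent.MP_c853c5_nt.X.C4950.Env
import Pool.Agent.MP_c853c5_nt.X.C4950.D9

set_option autoImplicit false
set_option maxRecDepth 8192
set_option linter.all false

namespace Pool.Agent.MP_c853c5_nt.X.C4950

open Pool.Agent.MP_c853c5_nt.X

def t25198 : allY (E.wth (lkp [])) l25198 = true ∧
    allY (E.wth (lkp [])) l25199 = true ∧
    allY (E.wth (lkp [])) l25200 = true ∧
    allY (E.wth (lkp [])) l25201 = true ∧
    allY (E.wth (lkp [])) l25202 = true ∧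
    allY (E.wth (lkp [])) l25203 = true ∧
    allY (E.wth (lkp [])) l25204 = true ∧
    allY (E.wth (lkp [])) l25205 = true :=
  ⟨by decide +kernel, by decide +kernel, by decide +kernel, by decide +kernel, by decide +kernel, by decide +kernel, by decide +kernel, by decide +kernel⟩

def t25206 : allY (E.wth (lkp [])) l25206 = true ∧
    allY (E.wth (lkp [])) l25207 = true ∧
    allY (E.wth (lkp [])) l25208 = true ∧
    allY (E.wth (lkp [])) l25209 = true ∧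
    allY (E.wth (lkp [])) l25210 = true ∧
    allY (E.wth (lkp [])) l25211 = true ∧
    allY (E.wth (lkp [])) l25212 = true ∧
    allY (E.wth (lkp [])) l25213 = true :=
  ⟨by decide +kernel, by decide +kernel, by decide +kernel, by decide +kernel, by decide +kernel, by decide +kernel, by decide +kernel, by decide +kernel⟩

def t25214 : allY (E.wth (lkp [])) l25214 = true ∧
    allY (E.wth (lkp [])) l25215 = true ∧
    allY (E.wth (lkp [])) l25216 = true ∧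
    allY (E.wth (lkp [])) l25217 = true ∧
    allY (E.wth (lkp [])) l25218 = true ∧
    allY (E.wth (lkp [])) l25219 = true ∧
    allY (E.wth (lkp [])) l25220 = true ∧
    allY (E.wth (lkp [])) l25221 = true :=
  ⟨by decide +kernel, by decide +kernel, by decide +kernel, by decide +kernel, by decide +kernel, by decide +kernel, by decide +kernel, by decide +kernel⟩

def t25222 : allY (E.wth (lkp [])) l25222 = true ∧
    allY (E.wth (lkp [])) l25223 = true ∧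
    allY (E.wth (lkp [])) l25224 = true ∧
    allY (E.wth (lkp [])) l25225 = true ∧
    allY (E.wth (lkp [])) l25226 = true ∧
    allY (E.wth (lkp [])) l25227 = true ∧
    allY (E.wth (lkp [])) l25228 = true ∧
    allY (E.wth (lkp [])) l25229 = true :=
  ⟨by decide +kernel, by decide +kernel, by decide +kernel, by decide +kernel, by decide +kernel, by decide +kernel, by decide +kernel, by decide +kernel⟩

def t25230 : allY (E.wth (lkp [])) l25230 = true ∧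
    allY (E.wth (lkp [])) l25231 = true ∧
    allY (E.wth (lkp [])) l25232 = true ∧
    allY (E.wth (lkp [])) l25233 = true ∧
    allY (E.wth (lkp [])) l25234 = true ∧
    allY (E.wth (lkp [])) l25235 = true ∧
    allY (E.wth (lkp [])) l25236 = true ∧
    allY (E.wth (lkp [])) l25237 = true :=
  ⟨by decide +kernel, by decide +kernel, by decide +kernel, by decide +kernel, by decide +kernel, by decide +kernel, by decide +kernel, by decide +kernel⟩

def t25238 : allY (E.wth (lkp [])) l25238 = true ∧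
    allY (E.wth (lkp [])) l25239 = true ∧
    allY (E.wth (lkp [])) l25240 = true ∧
    allY (E.wth (lkp [])) l25241 = true ∧
    allY (E.wth (lkp [])) l25242 = true ∧
    allY (E.wth (lkp [])) l25243 = true ∧
    allY (E.wth (lkp [])) l25244 = true ∧
    allY (E.wth (lkp [])) l25245 = true :=
  ⟨by decide +kernel, by decide +kernel, by decide +kernel, by decide +kernel, by decide +kernel, by decide +kernel, by decide +kernel, by decide +kernel⟩

def t25246 : allY (E.wth (lkp [])) l25246 = true ∧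
    allY (E.wth (lkp [])) l25247 = true ∧
    allY (E.wth (lkp [])) l25248 = true ∧
    allY (E.wth (lkp [])) l25249 = true ∧
    allY (E.wth (lkp [])) l25250 = true ∧
    allY (E.wth (lkp [])) l25251 = true ∧
    allY (E.wth (lkp [])) l25252 = true ∧
    allY (E.wth (lkp [])) l25253 = true :=
  ⟨by decide +kernel, by decide +kernel, by decide +kernel, by decide +kernel, by decide +kernel, by decide +kernel, by decide +kernel, by decide +kernel⟩

def t25254 : allY (E.wth (lkp [])) l25254 = true ∧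
    allY (E.wth (lkp [])) l25255 = true ∧
    allY (E.wth (lkp [])) l25256 = true ∧
    allY (E.wth (lkp [])) l25257 = true ∧
    allY (E.wth (lkp [])) l25258 = true ∧
    allY (E.wth (lkp [])) l25259 = true ∧
    allY (E.wth (lkp [])) l25260 = true ∧
    allY (E.wth (lkp [])) l25261 = true :=
  ⟨by decide +kernel, by decide +kernel, by decide +kernel, by decide +kernel, by decide +kernel, by decide +kernel, by decide +kernel, by decide +kernel⟩

def t25262 : allY (E.wth (lkp [])) l25262 = true ∧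
    allY (E.wth (lkp [])) l25263 = true ∧
    allY (E.wth (lkp [])) l25264 = true ∧
    allY (E.wth (lkp [])) l25265 = true ∧
    allY (E.wth (lkp [])) l25266 = true ∧
    allY (E.wth (lkp [])) l25267 = true ∧
    allY (E.wth (lkp [])) l25268 = true ∧
    allY (E.wth (lkp [])) l25269 = true :=
  ⟨by decide +kernel, by decide +kernel, by decide +kernel, by decide +kernel, by decide +kernel, by decide +kernel, by decide +kernel, by decide +kernel⟩

def t25270 : allY (E.wth (lkp [])) l25270 = true ∧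
    allY (E.wth (lkp [])) l25271 = true ∧
    allY (E.wth (lkp [])) l25272 = true ∧
    allY (E.wth (lkp [])) l25273 = true ∧
    allY (E.wth (lkp [])) l25274 = true ∧
    allY (E.wth (lkp [])) l25275 = true ∧
    allY (E.wth (lkp [])) l25276 = true ∧
    allY (E.wth (lkp [])) l25277 = true :=
  ⟨by decide +kernel, by decide +kernel, by decide +kernel, by decide +kernel, by decide +kernel, by decide +kernel, by decide +kernel, by decide +kernel⟩

def t25278 : allY (E.wth (lkp [])) l25278 = true ∧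
    allY (E.wth (lkp [])) l25279 = true ∧
    allY (E.wth (lkp [])) l25280 = true ∧
    allY (E.wth (lkp [])) l25281 = true ∧
    allY (E.wth (lkp [])) l25282 = true ∧
    allY (E.wth (lkp [])) l25283 = true ∧
    allY (E.wth (lkp [])) l25284 = true ∧
    allY (E.wth (lkp [])) l25285 = true :=
  ⟨by decide +kernel, by decide +kernel, by decide +kernel, by decide +kernel, by decide +kernel, by decide +kernel, by decide +kernel, by decide +kernel⟩

def t25286 : allY (E.wth (lkp [])) l25286 = true ∧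
    allY (E.wth (lkp [])) l25287 = true ∧
    allY (E.wth (lkp [])) l25288 = true ∧
    allY (E.wth (lkp [])) l25289 = true ∧
    allY (E.wth (lkp [])) l25290 = true ∧
    allY (E.wth (lkp [])) l25291 = true ∧
    allY (E.wth (lkp [])) l25292 = true ∧
    allY (E.wth (lkp [])) l25293 = true :=
  ⟨by decide +kernel, by decide +kernel, by decide +kernel, by decide +kernel, by decide +kernel, by decide +kernel, by decide +kernel, by decide +kernel⟩

def t25294 : allY (E.wth (lkp [])) l25294 = true ∧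
    allY (E.wth (lkp [])) l25295 = true ∧
    allY (E.wth (lkp [])) l25296 = true ∧
    allY (E.wth (lkp [])) l25297 = true ∧
    allY (E.wth (lkp [])) l25298 = true ∧
    allY (E.wth (lkp [])) l25299 = true ∧
    allY (E.wth (lkp [])) l25300 = true ∧
    allY (E.wth (lkp [])) l25301 = true :=
  ⟨by decide +kernel, by decide +kernel, by decide +kernel, by decide +kernel, by decide +kernel, by decide +kernel, by decide +kernel, by decide +kernel⟩

def t25302 : allY (E.wth (lkp [])) l25302 = true ∧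
    allY (E.wth (lkp [])) l25303 = true ∧
    allY (E.wth (lkp [])) l25304 = true ∧
    allY (E.wth (lkp [])) l25305 = true ∧
    allY (E.wth (lkp [])) l25306 = true ∧
    allY (E.wth (lkp [])) l25307 = true ∧
    allY (E.wth (lkp [])) l25308 = true ∧
    allY (E.wth (lkp [])) l25309 = true :=
  ⟨by decide +kernel, by decide +kernel, by decide +kernel, by decide +kernel, by decide +kernel, by decide +kernel, by decide +kernel, by decide +kernel⟩

def t25310 : allY (E.wth (lkp [])) l25310 = true ∧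
    allY (E.wth (lkp [])) l25311 = true ∧
    allY (E.wth (lkp [])) l25312 = true ∧
    allY (E.wth (lkp [])) l25313 = true ∧
    allY (E.wth (lkp [])) l25314 = true ∧
    allY (E.wth (lkp [])) l25315 = true ∧
    allY (E.wth (lkp [])) l25316 = true ∧
    allY (E.wth (lkp [])) l25317 = true :=
  ⟨by decide +kernel, by decide +kernel, by decide +kernel, by decide +kernel, by decide +kernel, by decide +kernel, by decide +kernel, by decide +kernel⟩

def t25318 : allY (E.wth (lkp [])) l25318 = true ∧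
    allY (E.wth (lkp [])) l25319 = true ∧
    allY (E.wth (lkp [])) l25320 = true ∧
    allY (E.wth (lkp [])) l25321 = true ∧
    allY (E.wth (lkp [])) l25322 = true ∧
    allY (E.wth (lkp [])) l25323 = true ∧
    allY (E.wth (lkp [])) l25324 = true ∧
    allY (E.wth (lkp [])) l25325 = true :=
  ⟨by decide +kernel, by decide +kernel, by decide +kernel, by decide +kernel, by decide +kernel, by decide +kernel, by decide +kernel, by decide +kernel⟩

def t25326 : allY (E.wth (lkp [])) l25326 = true ∧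
    allY (E.wth (lkp [])) l25327 = true ∧
    allY (E.wth (lkp [])) l25328 = true ∧
    allY (E.wth (lkp [])) l25329 = true ∧
    allY (E.wth (lkp [])) l25330 = true ∧
    allY (E.wth (lkp [])) l25331 = true ∧
    allY (E.wth (lkp [])) l25332 = true ∧
    allY (E.wth (lkp [])) l25333 = true :=
  ⟨by decide +kernel, by decide +kernel, by decide +kernel, by decide +kernel, by decide +kernel, by decide +kernel, by decide +kernel, by decide +kernel⟩

def t25334 : allY (E.wth (lkp [])) l25334 = true ∧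
    allY (E.wth (lkp [])) l25335 = true ∧
    allY (E.wth (lkp [])) l25336 = true ∧
    allY (E.wth (lkp [])) l25337 = true ∧
    allY (E.wth (lkp [])) l25338 = true ∧
    allY (E.wth (lkp [])) l25339 = true ∧
    allY (E.wth (lkp [])) l25340 = true ∧
    allY (E.wth (lkp [])) l25341 = true :=
  ⟨by decide +kernel, by decide +kernel, by decide +kernel, by decide +kernel, by decide +kernel, by decide +kernel, by decide +kernel, by decide +kernel⟩

def t25342 : allY (E.wth (lkp [])) l25342 = true ∧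
    allY (E.wth (lkp [])) l25343 = true ∧
    allY (E.wth (lkp [])) l25344 = true ∧
    allY (E.wth (lkp [])) l25345 = true ∧
    allY (E.wth (lkp [])) l25346 = true ∧
    allY (E.wth (lkp [])) l25347 = true ∧
    allY (E.wth (lkp [])) l25348 = true ∧
    allY (E.wth (lkp [])) l25349 = true :=
  ⟨by decide +kernel, by decide +kernel, by decide +kernel, by decide +kernel, by decide +kernel, by decide +kernel, by decide +kernel, by decide +kernel⟩

def t25350 : allY (E.wth (lkp [])) l25350 = true ∧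
    allY (E.wth (lkp [])) l25351 = true ∧
    allY (E.wth (lkp [])) l25352 = true ∧
    allY (E.wth (lkp [])) l25353 = true ∧
    allY (E.wth (lkp [])) l25354 = true ∧
    allY (E.wth (lkp [])) l25355 = true ∧
    allY (E.wth (lkp [])) l25356 = true ∧
    allY (E.wth (lkp [])) l25357 = true :=
  ⟨by decide +kernel, by decide +kernel, by decide +kernel, by decide +kernel, by decide +kernel, by decide +kernel, by decide +kernel, by decide +kernel⟩

def t25358 : allY (E.wth (lkp [])) l25358 = true ∧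
    allY (E.wth (lkp [])) l25359 = true ∧
    allY (E.wth (lkp [])) l25360 = true ∧
    allY (E.wth (lkp [])) l25361 = true ∧
    allY (E.wth (lkp [])) l25362 = true ∧
    allY (E.wth (lkp [])) l25363 = true ∧
    allY (E.wth (lkp [])) l25364 = true ∧
    allY (E.wth (lkp [])) l25365 = true :=
  ⟨by decide +kernel, by decide +kernel, by decide +kernel, by decide +kernel, by decide +kernel, by decide +kernel, by decide +kernel, by decide +kernel⟩

def t25366 : allY (E.wth (lkp [])) l25366 = true ∧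
    allY (E.wth (lkp [])) l25367 = true ∧
    allY (E.wth (lkp [])) l25368 = true ∧
    allY (E.wth (lkp [])) l25369 = true ∧
    allY (E.wth (lkp [])) l25370 = true ∧
    allY (E.wth (lkp [])) l25371 = true ∧
    allY (E.wth (lkp [])) l25372 = true ∧
    allY (E.wth (lkp [])) l25373 = true :=
  ⟨by decide +kernel, by decide +kernel, by decide +kernel, by decide +kernel, by decide +kernel, by decide +kernel, by decide +kernel, by decide +kernel⟩

def t25374 : allY (E.wth (lkp [])) l25374 = true ∧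
    allY (E.wth (lkp [])) l25375 = true ∧
    allY (E.wth (lkp [])) l25376 = true ∧
    allY (E.wth (lkp [])) l25377 = true ∧
    allY (E.wth (lkp [])) l25378 = true ∧
    allY (E.wth (lkp [])) l25379 = true ∧
    allY (E.wth (lkp [])) l25380 = true ∧
    allY (E.wth (lkp [])) l25381 = true :=
  ⟨by decide +kernel, by decide +kernel, by decide +kernel, by decide +kernel, by decide +kernel, by decide +kernel, by decide +kernel, by decide +kernel⟩

def t25382 : allY (E.wth (lkp [])) l25382 = true ∧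
    allY (E.wth (lkp [])) l25383 = true ∧
    allY (E.wth (lkp [])) l25384 = true ∧
    allY (E.wth (lkp [])) l25385 = true ∧
    allY (E.wth (lkp [])) l25386 = true ∧
    allY (E.wth (lkp [])) l25387 = true ∧
    allY (E.wth (lkp [])) l25388 = true ∧
    allY (E.wth (lkp [])) l25389 = true :=
  ⟨by decide +kernel, by decide +kernel, by decide +kernel, by decide +kernel, by decide +kernel, by decide +kernel, by decide +kernel, by decide +kernel⟩

def t25390 : allY (E.wth (lkp [])) l25390 = true ∧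
    allY (E.wth (lkp [])) l25391 = true ∧
    allY (E.wth (lkp [])) l25392 = true ∧
    allY (E.wth (lkp [])) l25393 = true ∧
    allY (E.wth (lkp [])) l25394 = true ∧
    allY (E.wth (lkp [])) l25395 = true ∧
    allY (E.wth (lkp [])) l25396 = true ∧
    allY (E.wth (lkp [])) l25397 = true :=
  ⟨by decide +kernel, by decide +kernel, by decide +kernel, by decide +kernel, by decide +kernel, by decide +kernel, by decide +kernel, by decide +kernel⟩

def t25398 : allY (E.wth (lkp [])) l25398 = true ∧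
    allY (E.wth (lkp [])) l25399 = true ∧
    allY (E.wth (lkp [])) l25400 = true ∧
    allY (E.wth (lkp [])) l25401 = true ∧
    allY (E.wth (lkp [])) l25402 = true ∧
    allY (E.wth (lkp [])) l25403 = true ∧
    allY (E.wth (lkp [])) l25404 = true ∧
    allY (E.wth (lkp [])) l25405 = true :=
  ⟨by decide +kernel, by decide +kernel, by decide +kernel, by decide +kernel, by decide +kernel, by decide +kernel, by decide +kernel, by decide +kernel⟩

def t25406 : allY (E.wth (lkp [])) l25406 = true ∧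
    allY (E.wth (lkp [])) l25407 = true ∧
    allY (E.wth (lkp [])) l25408 = true ∧
    allY (E.wth (lkp [])) l25409 = true ∧
    allY (E.wth (lkp [])) l25410 = true ∧
    allY (E.wth (lkp [])) l25411 = true ∧
    allY (E.wth (lkp [])) l25412 = true ∧
    allY (E.wth (lkp [])) l25413 = true :=
  ⟨by decide +kernel, by decide +kernel, by decide +kernel, by decide +kernel, by decide +kernel, by decide +kernel, by decide +kernel, by decide +kernel⟩

def t25414 : allY (E.wth (lkp [])) l25414 = true ∧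
    allY (E.wth (lkp [])) l25415 = true ∧
    allY (E.wth (lkp [])) l25416 = true ∧
    allY (E.wth (lkp [])) l25417 = true ∧
    allY (E.wth (lkp [])) l25418 = true ∧
    allY (E.wth (lkp [])) l25419 = true ∧
    allY (E.wth (lkp [])) l25420 = true ∧
    allY (E.wth (lkp [])) l25421 = true :=
  ⟨by decide +kernel, by decide +kernel, by decide +kernel, by decide +kernel, by decide +kernel, by decide +kernel, by decide +kernel, by decide +kernel⟩

def t25422 : allY (E.wth (lkp [])) l25422 = true ∧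
    allY (E.wth (lkp [])) l25423 = true ∧
    allY (E.wth (lkp [])) l25424 = true ∧
    allY (E.wth (lkp [])) l25425 = true ∧
    allY (E.wth (lkp [])) l25426 = true ∧
    allY (E.wth (lkp [])) l25427 = true ∧
    allY (E.wth (lkp [])) l25428 = true ∧
    allY (E.wth (lkp [])) l25429 = true :=
  ⟨by decide +kernel, by decide +kernel, by decide +kernel, by decide +kernel, by decide +kernel, by decide +kernel, by decide +kernel, by decide +kernel⟩

def t25430 : allY (E.wth (lkp [])) l25430 = true ∧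
    allY (E.wth (lkp [])) l25431 = true ∧
    allY (E.wth (lkp [])) l25432 = true ∧
    allY (E.wth (lkp [])) l25433 = true ∧
    allY (E.wth (lkp [])) l25434 = true ∧
    allY (E.wth (lkp [])) l25435 = true ∧
    allY (E.wth (lkp [])) l25436 = true ∧
    allY (E.wth (lkp [])) l25437 = true :=
  ⟨by decide +kernel, by decide +kernel, by decide +kernel, by decide +kernel, by decide +kernel, by decide +kernel, by decide +kernel, by decide +kernel⟩

def t25438 : allY (E.wth (lkp [])) l25438 = true ∧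
    allY (E.wth (lkp [])) l25439 = true ∧
    allY (E.wth (lkp [])) l25440 = true ∧
    allY (E.wth (lkp [])) l25441 = true ∧
    allY (E.wth (lkp [])) l25442 = true ∧
    allY (E.wth (lkp [])) l25443 = true ∧
    allY (E.wth (lkp [])) l25444 = true ∧
    allY (E.wth (lkp [])) l25445 = true :=
  ⟨by decide +kernel, by decide +kernel, by decide +kernel, by decide +kernel, by decide +kernel, by decide +kernel, by decide +kernel, by decide +kernel⟩

def t25446 : allY (E.wth (lkp [])) l25446 = true ∧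
    allY (E.wth (lkp [])) l25447 = true ∧
    allY (E.wth (lkp [])) l25448 = true ∧
    allY (E.wth (lkp [])) l25449 = true ∧
    allY (E.wth (lkp [])) l25450 = true ∧
    allY (E.wth (lkp [])) l25451 = true ∧
    allY (E.wth (lkp [])) l25452 = true ∧
    allY (E.wth (lkp [])) l25453 = true :=
  ⟨by decide +kernel, by decide +kernel, by decide +kernel, by decide +kernel, by decide +kernel, by decide +kernel, by decide +kernel, by decide +kernel⟩

def t25454 : allY (E.wth (lkp [])) l25454 = true ∧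
    allY (E.wth (lkp [])) l25455 = true ∧
    allY (E.wth (lkp [])) l25456 = true ∧
    allY (E.wth (lkp [])) l25457 = true ∧
    allY (E.wth (lkp [])) l25458 = true ∧
    allY (E.wth (lkp [])) l25459 = true ∧
    allY (E.wth (lkp [])) l25460 = true ∧
    allY (E.wth (lkp [])) l25461 = true :=
  ⟨by decide +kernel, by decide +kernel, by decide +kernel, by decide +kernel, by decide +kernel, by decide +kernel, by decide +kernel, by decide +kernel⟩

def t25462 : allY (E.wth (lkp [])) l25462 = true ∧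
    allY (E.wth (lkp [])) l25463 = true ∧
    allY (E.wth (lkp [])) l25464 = true ∧
    allY (E.wth (lkp [])) l25465 = true ∧
    allY (E.wth (lkp [])) l25466 = true ∧
    allY (E.wth (lkp [])) l25467 = true ∧
    allY (E.wth (lkp [])) l25468 = true ∧
    allY (E.wth (lkp [])) l25469 = true :=
  ⟨by decide +kernel, by decide +kernel, by decide +kernel, by decide +kernel, by decide +kernel, by decide +kernel, by decide +kernel, by decide +kernel⟩

def t25470 : allY (E.wth (lkp [])) l25470 = true ∧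
    allY (E.wth (lkp [])) l25471 = true ∧
    allY (E.wth (lkp [])) l25472 = true ∧
    allY (E.wth (lkp [])) l25473 = true ∧
    allY (E.wth (lkp [])) l25474 = true ∧
    allY (E.wth (lkp [])) l25475 = true ∧
    allY (E.wth (lkp [])) l25476 = true ∧
    allY (E.wth (lkp [])) l25477 = true :=
  ⟨by decide +kernel, by decide +kernel, by decide +kernel, by decide +kernel, by decide +kernel, by decide +kernel, by decide +kernel, by decide +kernel⟩

def t25478 : allY (E.wth (lkp [])) l25478 = true ∧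
    allY (E.wth (lkp [])) l25479 = true ∧
    allY (E.wth (lkp [])) l25480 = true ∧
    allY (E.wth (lkp [])) l25481 = true ∧
    allY (E.wth (lkp [])) l25482 = true ∧
    allY (E.wth (lkp [])) l25483 = true ∧
    allY (E.wth (lkp [])) l25484 = true ∧
    allY (E.wth (lkp [])) l25485 = true :=
  ⟨by decide +kernel, by decide +kernel, by decide +kernel, by decide +kernel, by decide +kernel, by decide +kernel, by decide +kernel, by decide +kernel⟩

def t25486 : allY (E.wth (lkp [])) l25486 = true ∧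
    allY (E.wth (lkp [])) l25487 = true ∧
    allY (E.wth (lkp [])) l25488 = true ∧
    allY (E.wth (lkp [])) l25489 = true ∧
    allY (E.wth (lkp [])) l25490 = true ∧
    allY (E.wth (lkp [])) l25491 = true ∧
    allY (E.wth (lkp [])) l25492 = true ∧
    allY (E.wth (lkp [])) l25493 = true :=
  ⟨by decide +kernel, by decide +kernel, by decide +kernel, by decide +kernel, by decide +kernel, by decide +kernel, by decide +kernel, by decide +kernel⟩

def t25494 : allY (E.wth (lkp [])) l25494 = true ∧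
    allY (E.wth (lkp [])) l25495 = true ∧
    allY (E.wth (lkp [])) l25496 = true ∧
    allY (E.wth (lkp [])) l25497 = true ∧
    allY (E.wth (lkp [])) l25498 = true ∧
    allY (E.wth (lkp [])) l25499 = true ∧
    allY (E.wth (lkp [])) l25500 = true ∧
    allY (E.wth (lkp [])) l25501 = true :=
  ⟨by decide +kernel, by decide +kernel, by decide +kernel, by decide +kernel, by decide +kernel, by decide +kernel, by decide +kernel, by decide +kernel⟩

def t25502 : allY (E.wth (lkp [])) l25502 = true ∧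
    allY (E.wth (lkp [])) l25503 = true ∧
    allY (E.wth (lkp [])) l25504 = true ∧
    allY (E.wth (lkp [])) l25505 = true ∧
    allY (E.wth (lkp [])) l25506 = true ∧
    allY (E.wth (lkp [])) l25507 = true ∧
    allY (E.wth (lkp [])) l25508 = true ∧
    allY (E.wth (lkp [])) l25509 = true :=
  ⟨by decide +kernel, by decide +kernel, by decide +kernel, by decide +kernel, by decide +kernel, by decide +kernel, by decide +kernel, by decide +kernel⟩

def t25510 : allY (E.wth (lkp [])) l25510 = true ∧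
    allY (E.wth (lkp [])) l25511 = true ∧
    allY (E.wth (lkp [])) l25512 = true ∧
    allY (E.wth (lkp [])) l25513 = true ∧
    allY (E.wth (lkp [])) l25514 = true ∧
    allY (E.wth (lkp [])) l25515 = true ∧
    allY (E.wth (lkp [])) l25516 = true ∧
    allY (E.wth (lkp [])) l25517 = true :=
  ⟨by decide +kernel, by decide +kernel, by decide +kernel, by decide +kernel, by decide +kernel, by decide +kernel, by decide +kernel, by decide +kernel⟩

def t25518 : allY (E.wth (lkp [])) l25518 = true ∧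
    allY (E.wth (lkp [])) l25519 = true ∧
    allY (E.wth (lkp [])) l25520 = true ∧
    allY (E.wth (lkp [])) l25521 = true ∧
    allY (E.wth (lkp [])) l25522 = true ∧
    allY (E.wth (lkp [])) l25523 = true ∧
    allY (E.wth (lkp [])) l25524 = true ∧
    allY (E.wth (lkp [])) l25525 = true :=
  ⟨by decide +kernel, by decide +kernel, by decide +kernel, by decide +kernel, by decide +kernel, by decide +kernel, by decide +kernel, by decide +kernel⟩

def t25526 : allY (E.wth (lkp [])) l25526 = true ∧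
    allY (E.wth (lkp [])) l25527 = true ∧
    allY (E.wth (lkp [])) l25528 = true ∧
    allY (E.wth (lkp [])) l25529 = true ∧
    allY (E.wth (lkp [])) l25530 = true ∧
    allY (E.wth (lkp [])) l25531 = true ∧
    allY (E.wth (lkp [])) l25532 = true ∧
    allY (E.wth (lkp [])) l25533 = true :=
  ⟨by decide +kernel, by decide +kernel, by decide +kernel, by decide +kernel, by decide +kernel, by decide +kernel, by decide +kernel, by decide +kernel⟩

def t25534 : allY (E.wth (lkp [])) l25534 = true ∧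
    allY (E.wth (lkp [])) l25535 = true ∧
    allY (E.wth (lkp [])) l25536 = true ∧
    allY (E.wth (lkp [])) l25537 = true ∧
    allY (E.wth (lkp [])) l25538 = true ∧
    allY (E.wth (lkp [])) l25539 = true ∧
    allY (E.wth (lkp [])) l25540 = true ∧
    allY (E.wth (lkp [])) l25541 = true :=
  ⟨by decide +kernel, by decide +kernel, by decide +kernel, by decide +kernel, by decide +kernel, by decide +kernel, by decide +kernel, by decide +kernel⟩

def t25542 : allY (E.wth (lkp [])) l25542 = true ∧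
    allY (E.wth (lkp [])) l25543 = true ∧
    allY (E.wth (lkp [])) l25544 = true ∧
    allY (E.wth (lkp [])) l25545 = true ∧
    allY (E.wth (lkp [])) l25546 = true ∧
    allY (E.wth (lkp [])) l25547 = true ∧
    allY (E.wth (lkp [])) l25548 = true ∧
    allY (E.wth (lkp [])) l25549 = true :=
  ⟨by decide +kernel, by decide +kernel, by decide +kernel, by decide +kernel, by decide +kernel, by decide +kernel, by decide +kernel, by decide +kernel⟩

def t25550 : allY (E.wth (lkp [])) l25550 = true ∧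
    allY (E.wth (lkp [])) l25551 = true ∧
    allY (E.wth (lkp [])) l25552 = true ∧
    allY (E.wth (lkp [])) l25553 = true ∧
    allY (E.wth (lkp [])) l25554 = true ∧
    allY (E.wth (lkp [])) l25555 = true ∧
    allY (E.wth (lkp [])) l25556 = true ∧
    allY (E.wth (lkp [])) l25557 = true :=
  ⟨by decide +kernel, by decide +kernel, by decide +kernel, by decide +kernel, by decide +kernel, by decide +kernel, by decide +kernel, by decide +kernel⟩

def t25558 : allY (E.wth (lkp [])) l25558 = true ∧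
    allY (E.wth (lkp [])) l25559 = true ∧
    allY (E.wth (lkp [])) l25560 = true ∧
    allY (E.wth (lkp [])) l25561 = true ∧
    allY (E.wth (lkp [])) l25562 = true ∧
    allY (E.wth (lkp [])) l25563 = true ∧
    allY (E.wth (lkp [])) l25564 = true ∧
    allY (E.wth (lkp [])) l25565 = true :=
  ⟨by decide +kernel, by decide +kernel, by decide +kernel, by decide +kernel, by decide +kernel, by decide +kernel, by decide +kernel, by decide +kernel⟩

def t25566 : allY (E.wth (lkp [])) l25566 = true ∧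
    allY (E.wth (lkp [])) l25567 = true ∧
    allY (E.wth (lkp [])) l25568 = true ∧
    allY (E.wth (lkp [])) l25569 = true ∧
    allY (E.wth (lkp [])) l25570 = true ∧
    allY (E.wth (lkp [])) l25571 = true ∧
    allY (E.wth (lkp [])) l25572 = true ∧
    allY (E.wth (lkp [])) l25573 = true :=
  ⟨by decide +kernel, by decide +kernel, by decide +kernel, by decide +kernel, by decide +kernel, by decide +kernel, by decide +kernel, by decide +kernel⟩

def t25574 : allY (E.wth (lkp [])) l25574 = true ∧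
    allY (E.wth (lkp [])) l25575 = true ∧
    allY (E.wth (lkp [])) l25576 = true ∧
    allY (E.wth (lkp [])) l25577 = true ∧
    allY (E.wth (lkp [])) l25578 = true ∧
    allY (E.wth (lkp [])) l25579 = true ∧
    allY (E.wth (lkp [])) l25580 = true ∧
    allY (E.wth (lkp [])) l25581 = true :=
  ⟨by decide +kernel, by decide +kernel, by decide +kernel, by decide +kernel, by decide +kernel, by decide +kernel, by decide +kernel, by decide +kernel⟩

def t25582 : allY (E.wth (lkp [])) l25582 = true ∧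
    allY (E.wth (lkp [])) l25583 = true ∧
    allY (E.wth (lkp [])) l25584 = true ∧
    allY (E.wth (lkp [])) l25585 = true ∧
    allY (E.wth (lkp [])) l25586 = true ∧
    allY (E.wth (lkp [])) l25587 = true ∧
    allY (E.wth (lkp [])) l25588 = true ∧
    allY (E.wth (lkp [])) l25589 = true :=
  ⟨by decide +kernel, by decide +kernel, by decide +kernel, by decide +kernel, by decide +kernel, by decide +kernel, by decide +kernel, by decide +kernel⟩

def t25590 : allY (E.wth (lkp [])) l25590 = true ∧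
    allY (E.wth (lkp [])) l25591 = true ∧
    allY (E.wth (lkp [])) l25592 = true ∧
    allY (E.wth (lkp [])) l25593 = true ∧
    allY (E.wth (lkp [])) l25594 = true ∧
    allY (E.wth (lkp [])) l25595 = true ∧
    allY (E.wth (lkp [])) l25596 = true ∧
    allY (E.wth (lkp [])) l25597 = true :=
  ⟨by decide +kernel, by decide +kernel, by decide +kernel, by decide +kernel, by decide +kernel, by decide +kernel, by decide +kernel, by decide +kernel⟩

def t25598 : allY (E.wth (lkp [])) l25598 = true ∧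
    allY (E.wth (lkp [])) l25599 = true ∧
    allY (E.wth (lkp [])) l25600 = true ∧
    allY (E.wth (lkp [])) l25601 = true ∧
    allY (E.wth (lkp [])) l25602 = true ∧
    allY (E.wth (lkp [])) l25603 = true ∧
    allY (E.wth (lkp [])) l25604 = true ∧
    allY (E.wth (lkp [])) l25605 = true :=
  ⟨by decide +kernel, by decide +kernel, by decide +kernel, by decide +kernel, by decide +kernel, by decide +kernel, by decide +kernel, by decide +kernel⟩

def t25606 : allY (E.wth (lkp [])) l25606 = true ∧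
    allY (E.wth (lkp [])) l25607 = true ∧
    allY (E.wth (lkp [])) l25608 = true ∧
    allY (E.wth (lkp [])) l25609 = true ∧
    allY (E.wth (lkp [])) l25610 = true ∧
    allY (E.wth (lkp [])) l25611 = true ∧
    allY (E.wth (lkp [])) l25612 = true ∧
    allY (E.wth (lkp [])) l25613 = true :=
  ⟨by decide +kernel, by decide +kernel, by decide +kernel, by decide +kernel, by decide +kernel, by decide +kernel, by decide +kernel, by decide +kernel⟩

def t25614 : allY (E.wth (lkp [])) l25614 = true ∧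
    allY (E.wth (lkp [])) l25615 = true ∧
    allY (E.wth (lkp [])) l25616 = true ∧
    allY (E.wth (lkp [])) l25617 = true ∧
    allY (E.wth (lkp [])) l25618 = true ∧
    allY (E.wth (lkp [])) l25619 = true ∧
    allY (E.wth (lkp [])) l25620 = true ∧
    allY (E.wth (lkp [])) l25621 = true :=
  ⟨by decide +kernel, by decide +kernel, by decide +kernel, by decide +kernel, by decide +kernel, by decide +kernel, by decide +kernel, by decide +kernel⟩

def t25622 : allY (E.wth (lkp [])) l25622 = true ∧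
    allY (E.wth (lkp [])) l25623 = true ∧
    allY (E.wth (lkp [])) l25624 = true ∧
    allY (E.wth (lkp [])) l25625 = true ∧
    allY (E.wth (lkp [])) l25626 = true ∧
    allY (E.wth (lkp [])) l25627 = true ∧
    allY (E.wth (lkp [])) l25628 = true ∧
    allY (E.wth (lkp [])) l25629 = true :=
  ⟨by decide +kernel, by decide +kernel, by decide +kernel, by decide +kernel, by decide +kernel, by decide +kernel, by decide +kernel, by decide +kernel⟩

def t25630 : allY (E.wth (lkp [])) l25630 = true ∧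
    allY (E.wth (lkp [])) l25631 = true ∧
    allY (E.wth (lkp [])) l25632 = true ∧
    allY (E.wth (lkp [])) l25633 = true ∧
    allY (E.wth (lkp [])) l25634 = true ∧
    allY (E.wth (lkp [])) l25635 = true ∧
    allY (E.wth (lkp [])) l25636 = true ∧
    allY (E.wth (lkp [])) l25637 = true :=
  ⟨by decide +kernel, by decide +kernel, by decide +kernel, by decide +kernel, by decide +kernel, by decide +kernel, by decide +kernel, by decide +kernel⟩

def t25638 : allY (E.wth (lkp [])) l25638 = true ∧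
    allY (E.wth (lkp [])) l25639 = true ∧
    allY (E.wth (lkp [])) l25640 = true ∧
    allY (E.wth (lkp [])) l25641 = true ∧
    allY (E.wth (lkp [])) l25642 = true ∧
    allY (E.wth (lkp [])) l25643 = true ∧
    allY (E.wth (lkp [])) l25644 = true ∧
    allY (E.wth (lkp [])) l25645 = true :=
  ⟨by decide +kernel, by decide +kernel, by decide +kernel, by decide +kernel, by decide +kernel, by decide +kernel, by decide +kernel, by decide +kernel⟩

def t25646 : allY (E.wth (lkp [])) l25646 = true ∧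
    allY (E.wth (lkp [])) l25647 = true ∧
    allY (E.wth (lkp [])) l25648 = true ∧
    allY (E.wth (lkp [])) l25649 = true ∧
    allY (E.wth (lkp [])) l25650 = true ∧
    allY (E.wth (lkp [])) l25651 = true ∧
    allY (E.wth (lkp [])) l25652 = true ∧
    allY (E.wth (lkp [])) l25653 = true :=
  ⟨by decide +kernel, by decide +kernel, by decide +kernel, by decide +kernel, by decide +kernel, by decide +kernel, by decide +kernel, by decide +kernel⟩

def t25654 : allY (E.wth (lkp [])) l25654 = true ∧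
    allY (E.wth (lkp [])) l25655 = true ∧
    allY (E.wth (lkp [])) l25656 = true ∧
    allY (E.wth (lkp [])) l25657 = true ∧
    allY (E.wth (lkp [])) l25658 = true ∧
    allY (E.wth (lkp [])) l25659 = true ∧
    allY (E.wth (lkp [])) l25660 = true ∧
    allY (E.wth (lkp [])) l25661 = true :=
  ⟨by decide +kernel, by decide +kernel, by decide +kernel, by decide +kernel, by decide +kernel, by decide +kernel, by decide +kernel, by decide +kernel⟩

def t25662 : allY (E.wth (lkp [])) l25662 = true ∧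
    allY (E.wth (lkp [])) l25663 = true ∧
    allY (E.wth (lkp [])) l25664 = true ∧
    allY (E.wth (lkp [])) l25665 = true ∧
    allY (E.wth (lkp [])) l25666 = true ∧
    allY (E.wth (lkp [])) l25667 = true ∧
    allY (E.wth (lkp [])) l25668 = true ∧
    allY (E.wth (lkp [])) l25669 = true :=
  ⟨by decide +kernel, by decide +kernel, by decide +kernel, by decide +kernel, by decide +kernel, by decide +kernel, by decide +kernel, by decide +kernel⟩

def t25670 : allY (E.wth (lkp [])) l25670 = true ∧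
    allY (E.wth (lkp [])) l25671 = true ∧
    allY (E.wth (lkp [])) l25672 = true ∧
    allY (E.wth (lkp [])) l25673 = true ∧
    allY (E.wth (lkp [])) l25674 = true ∧
    allY (E.wth (lkp [])) l25675 = true ∧
    allY (E.wth (lkp [])) l25676 = true ∧
    allY (E.wth (lkp [])) l25677 = true :=
  ⟨by decide +kernel, by decide +kernel, by decide +kernel, by decide +kernel, by decide +kernel, by decide +kernel, by decide +kernel, by decide +kernel⟩

def t25678 : allY (E.wth (lkp [])) l25678 = true ∧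
    allY (E.wth (lkp [])) l25679 = true ∧
    allY (E.wth (lkp [])) l25680 = true ∧
    allY (E.wth (lkp [])) l25681 = true ∧
    allY (E.wth (lkp [])) l25682 = true ∧
    allY (E.wth (lkp [])) l25683 = true ∧
    allY (E.wth (lkp [])) l25684 = true ∧
    allY (E.wth (lkp [])) l25685 = true :=
  ⟨by decide +kernel, by decide +kernel, by decide +kernel, by decide +kernel, by decide +kernel, by decide +kernel, by decide +kernel, by decide +kernel⟩

def t25686 : allY (E.wth (lkp [])) l25686 = true ∧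
    allY (E.wth (lkp [])) l25687 = true ∧
    allY (E.wth (lkp [])) l25688 = true ∧
    allY (E.wth (lkp [])) l25689 = true ∧
    allY (E.wth (lkp [])) l25690 = true ∧
    allY (E.wth (lkp [])) l25691 = true ∧
    allY (E.wth (lkp [])) l25692 = true ∧
    allY (E.wth (lkp [])) l25693 = true :=
  ⟨by decide +kernel, by decide +kernel, by decide +kernel, by decide +kernel, by decide +kernel, by decide +kernel, by decide +kernel, by decide +kernel⟩

def t25694 : allY (E.wth (lkp [])) l25694 = true ∧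
    allY (E.wth (lkp [])) l25695 = true ∧
    allY (E.wth (lkp [])) l25696 = true ∧
    allY (E.wth (lkp [])) l25697 = true ∧
    allY (E.wth (lkp [])) l25698 = true ∧
    allY (E.wth (lkp [])) l25699 = true ∧
    allY (E.wth (lkp [])) l25700 = true ∧
    allY (E.wth (lkp [])) l25701 = true :=
  ⟨by decide +kernel, by decide +kernel, by decide +kernel, by decide +kernel, by decide +kernel, by decide +kernel, by decide +kernel, by decide +kernel⟩

def t25702 : allY (E.wth (lkp [])) l25702 = true ∧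
    allY (E.wth (lkp [])) l25703 = true ∧
    allY (E.wth (lkp [])) l25704 = true ∧
    allY (E.wth (lkp [])) l25705 = true ∧
    allY (E.wth (lkp [])) l25706 = true ∧
    allY (E.wth (lkp [])) l25707 = true ∧
    allY (E.wth (lkp [])) l25708 = true ∧
    allY (E.wth (lkp [])) l25709 = true :=
  ⟨by decide +kernel, by decide +kernel, by decide +kernel, by decide +kernel, by decide +kernel, by decide +kernel, by decide +kernel, by decide +kernel⟩

def t25710 : allY (E.wth (lkp [])) l25710 = true ∧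
    allY (E.wth (lkp [])) l25711 = true ∧
    allY (E.wth (lkp [])) l25712 = true ∧
    allY (E.wth (lkp [])) l25713 = true ∧
    allY (E.wth (lkp [])) l25714 = true ∧
    allY (E.wth (lkp [])) l25715 = true ∧
    allY (E.wth (lkp [])) l25716 = true ∧
    allY (E.wth (lkp [])) l25717 = true :=
  ⟨by decide +kernel, by decide +kernel, by decide +kernel, by decide +kernel, by decide +kernel, by decide +kernel, by decide +kernel, by decide +kernel⟩

def t25718 : allY (E.wth (lkp [])) l25718 = true ∧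
    allY (E.wth (lkp [])) l25719 = true ∧
    allY (E.wth (lkp [])) l25720 = true ∧
    allY (E.wth (lkp [])) l25721 = true ∧
    allY (E.wth (lkp [])) l25722 = true ∧
    allY (E.wth (lkp [])) l25723 = true ∧
    allY (E.wth (lkp [])) l25724 = true ∧
    allY (E.wth (lkp [])) l25725 = true :=
  ⟨by decide +kernel, by decide +kernel, by decide +kernel, by decide +kernel, by decide +kernel, by decide +kernel, by decide +kernel, by decide +kernel⟩

def t25726 : allY (E.wth (lkp [])) l25726 = true ∧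
    allY (E.wth (lkp [])) l25727 = true ∧
    allY (E.wth (lkp [])) l25728 = true ∧
    allY (E.wth (lkp [])) l25729 = true ∧
    allY (E.wth (lkp [])) l25730 = true ∧
    allY (E.wth (lkp [])) l25731 = true ∧
    allY (E.wth (lkp [])) l25732 = true ∧
    allY (E.wth (lkp [])) l25733 = true :=
  ⟨by decide +kernel, by decide +kernel, by decide +kernel, by decide +kernel, by decide +kernel, by decide +kernel, by decide +kernel, by decide +kernel⟩

def t25734 : allY (E.wth (lkp [])) l25734 = true ∧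
    allY (E.wth (lkp [])) l25735 = true ∧
    allY (E.wth (lkp [])) l25736 = true ∧
    allY (E.wth (lkp [])) l25737 = true ∧
    allY (E.wth (lkp [])) l25738 = true ∧
    allY (E.wth (lkp [])) l25739 = true ∧
    allY (E.wth (lkp [])) l25740 = true ∧
    allY (E.wth (lkp [])) l25741 = true :=
  ⟨by decide +kernel, by decide +kernel, by decide +kernel, by decide +kernel, by decide +kernel, by decide +kernel, by decide +kernel, by decide +kernel⟩

def t25742 : allY (E.wth (lkp [])) l25742 = true ∧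
    allY (E.wth (lkp [])) l25743 = true ∧
    allY (E.wth (lkp [])) l25744 = true ∧
    allY (E.wth (lkp [])) l25745 = true ∧
    allY (E.wth (lkp [])) l25746 = true ∧
    allY (E.wth (lkp [])) l25747 = true ∧
    allY (E.wth (lkp [])) l25748 = true ∧
    allY (E.wth (lkp [])) l25749 = true :=
  ⟨by decide +kernel, by decide +kernel, by decide +kernel, by decide +kernel, by decide +kernel, by decide +kernel, by decide +kernel, by decide +kernel⟩

def t25750 : allY (E.wth (lkp [])) l25750 = true :=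
  by decide +kernel

theorem a45 {p : Rf → Prop} (H : ∀ l, allY (E.wth (lkp [])) l = true → (lkp l).All p) :
    b45.All p := ⟨⟨⟨⟨⟨⟨⟨⟨⟨H _ t25198.1, H _ t25198.2.1⟩, ⟨H _ t25198.2.2.1, H _ t25198.2.2.2.1⟩⟩, ⟨⟨H _ t25198.2.2.2.2.1, H _ t25198.2.2.2.2.2.1⟩, ⟨H _ t25198.2.2.2.2.2.2.1, H _ t25198.2.2.2.2.2.2.2⟩⟩⟩, ⟨⟨⟨H _ t25206.1, H _ t25206.2.1⟩, ⟨H _ t25206.2.2.1, H _ t25206.2.2.2.1⟩⟩, ⟨⟨H _ t25206.2.2.2.2.1, H _ t25206.2.2.2.2.2.1⟩, ⟨H _ t25206.2.2.2.2.2.2.1, ⟨H _ t25206.2.2.2.2.2.2.2, H _ t25214.1⟩⟩⟩⟩⟩, ⟨⟨⟨⟨H _ t25214.2.1, H _ t25214.2.2.1⟩, ⟨H _ t25214.2.2.2.1, H _ t25214.2.2.2.2.1⟩⟩, ⟨⟨H _ t25214.2.2.2.2.2.1, H _ t25214.2.2.2.2.2.2.1⟩, ⟨H _ t25214.2.2.2.2.2.2.2, H _ t25222.1⟩⟩⟩, ⟨⟨⟨H _ t25222.2.1, H _ t25222.2.2.1⟩, ⟨H _ t25222.2.2.2.1, H _ t25222.2.2.2.2.1⟩⟩, ⟨⟨H _ t25222.2.2.2.2.2.1, H _ t25222.2.2.2.2.2.2.1⟩, ⟨H _ t25222.2.2.2.2.2.2.2, ⟨H _ t25230.1, H _ t25230.2.1⟩⟩⟩⟩⟩⟩, ⟨⟨⟨⟨⟨H _ t25230.2.2.1,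 H _ t25230.2.2.2.1⟩, ⟨H _ t25230.2.2.2.2.1, H _ t25230.2.2.2.2.2.1⟩⟩, ⟨⟨H _ t25230.2.2.2.2.2.2.1, H _ t25230.2.2.2.2.2.2.2⟩, ⟨H _ t25238.1, H _ t25238.2.1⟩⟩⟩, ⟨⟨⟨H _ t25238.2.2.1, H _ t25238.2.2.2.1⟩, ⟨H _ t25238.2.2.2.2.1, H _ t25238.2.2.2.2.2.1⟩⟩, ⟨⟨H _ t25238.2.2.2.2.2.2.1, H _ t25238.2.2.2.2.2.2.2⟩, ⟨H _ t25246.1, ⟨H _ t25246.2.1, H _ t25246.2.2.1⟩⟩⟩⟩⟩, ⟨⟨⟨⟨H _ t25246.2.2.2.1, H _ t25246.2.2.2.2.1⟩, ⟨H _ t25246.2.2.2.2.2.1, H _ t25246.2.2.2.2.2.2.1⟩⟩, ⟨⟨H _ t25246.2.2.2.2.2.2.2, H _ t25254.1⟩, ⟨H _ t25254.2.1, ⟨H _ t25254.2.2.1, H _ t25254.2.2.2.1⟩⟩⟩⟩, ⟨⟨⟨H _ t25254.2.2.2.2.1, H _ t25254.2.2.2.2.2.1⟩, ⟨H _ t25254.2.2.2.2.2.2.1, H _ t25254.2.2.2.2.2.2.2⟩⟩, ⟨⟨H _ t25262.1, H _ t25262.2.1⟩, ⟨H _ t25262.2.2.1, ⟨H _ t25262.2.2.2.1, H _ t25262.2.2.2.2.1⟩⟩⟩⟩⟩⟩⟩, ⟨⟨⟨⟨⟨⟨H _ t25262.2.2.2.2.2.1, H _ t25262.2.2.2.2.2.2.1⟩, ⟨H _ t25262.2.2.2.2.2.2.2, H _ t25270.1⟩⟩, ⟨⟨H _ t25270.2.1, H _ t25270.2.2.1⟩,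 ⟨H _ t25270.2.2.2.1, H _ t25270.2.2.2.2.1⟩⟩⟩, ⟨⟨⟨H _ t25270.2.2.2.2.2.1, H _ t25270.2.2.2.2.2.2.1⟩, ⟨H _ t25270.2.2.2.2.2.2.2, H _ t25278.1⟩⟩, ⟨⟨H _ t25278.2.1, H _ t25278.2.2.1⟩, ⟨H _ t25278.2.2.2.1, ⟨H _ t25278.2.2.2.2.1, H _ t25278.2.2.2.2.2.1⟩⟩⟩⟩⟩, ⟨⟨⟨⟨H _ t25278.2.2.2.2.2.2.1, H _ t25278.2.2.2.2.2.2.2⟩, ⟨H _ t25286.1, H _ t25286.2.1⟩⟩, ⟨⟨H _ t25286.2.2.1, H _ t25286.2.2.2.1⟩, ⟨H _ t25286.2.2.2.2.1, H _ t25286.2.2.2.2.2.1⟩⟩⟩, ⟨⟨⟨H _ t25286.2.2.2.2.2.2.1, H _ t25286.2.2.2.2.2.2.2⟩, ⟨H _ t25294.1, H _ t25294.2.1⟩⟩, ⟨⟨H _ t25294.2.2.1, H _ t25294.2.2.2.1⟩, ⟨H _ t25294.2.2.2.2.1, ⟨H _ t25294.2.2.2.2.2.1, H _ t25294.2.2.2.2.2.2.1⟩⟩⟩⟩⟩⟩, ⟨⟨⟨⟨⟨H _ t25294.2.2.2.2.2.2.2, H _ t25302.1⟩, ⟨H _ t25302.2.1, H _ t25302.2.2.1⟩⟩, ⟨⟨H _ t25302.2.2.2.1, H _ t25302.2.2.2.2.1⟩, ⟨H _ t25302.2.2.2.2.2.1, H _ t25302.2.2.2.2.2.2.1⟩⟩⟩, ⟨⟨⟨H _ t25302.2.2.2.2.2.2.2, H _ t25310.1⟩, ⟨H _ t25310.2.1, H _ t25310.2.2.1⟩⟩,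 ⟨⟨H _ t25310.2.2.2.1, H _ t25310.2.2.2.2.1⟩, ⟨H _ t25310.2.2.2.2.2.1, ⟨H _ t25310.2.2.2.2.2.2.1, H _ t25310.2.2.2.2.2.2.2⟩⟩⟩⟩⟩, ⟨⟨⟨⟨H _ t25318.1, H _ t25318.2.1⟩, ⟨H _ t25318.2.2.1, H _ t25318.2.2.2.1⟩⟩, ⟨⟨H _ t25318.2.2.2.2.1, H _ t25318.2.2.2.2.2.1⟩, ⟨H _ t25318.2.2.2.2.2.2.1, ⟨H _ t25318.2.2.2.2.2.2.2, H _ t25326.1⟩⟩⟩⟩, ⟨⟨⟨H _ t25326.2.1, H _ t25326.2.2.1⟩, ⟨H _ t25326.2.2.2.1, H _ t25326.2.2.2.2.1⟩⟩, ⟨⟨H _ t25326.2.2.2.2.2.1, H _ t25326.2.2.2.2.2.2.1⟩, ⟨H _ t25326.2.2.2.2.2.2.2, ⟨H _ t25334.1, H _ t25334.2.1⟩⟩⟩⟩⟩⟩⟩⟩, ⟨⟨⟨⟨⟨⟨⟨H _ t25334.2.2.1, H _ t25334.2.2.2.1⟩, ⟨H _ t25334.2.2.2.2.1, H _ t25334.2.2.2.2.2.1⟩⟩, ⟨⟨H _ t25334.2.2.2.2.2.2.1, H _ t25334.2.2.2.2.2.2.2⟩, ⟨H _ t25342.1, H _ t25342.2.1⟩⟩⟩, ⟨⟨⟨H _ t25342.2.2.1, H _ t25342.2.2.2.1⟩, ⟨H _ t25342.2.2.2.2.1, H _ t25342.2.2.2.2.2.1⟩⟩, ⟨⟨H _ t25342.2.2.2.2.2.2.1, H _ t25342.2.2.2.2.2.2.2⟩, ⟨H _ t25350.1, ⟨H _ t25350.2.1, H _ t25350.2.2.1⟩⟩⟩⟩⟩,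 ⟨⟨⟨⟨H _ t25350.2.2.2.1, H _ t25350.2.2.2.2.1⟩, ⟨H _ t25350.2.2.2.2.2.1, H _ t25350.2.2.2.2.2.2.1⟩⟩, ⟨⟨H _ t25350.2.2.2.2.2.2.2, H _ t25358.1⟩, ⟨H _ t25358.2.1, H _ t25358.2.2.1⟩⟩⟩, ⟨⟨⟨H _ t25358.2.2.2.1, H _ t25358.2.2.2.2.1⟩, ⟨H _ t25358.2.2.2.2.2.1, H _ t25358.2.2.2.2.2.2.1⟩⟩, ⟨⟨H _ t25358.2.2.2.2.2.2.2, H _ t25366.1⟩, ⟨H _ t25366.2.1, ⟨H _ t25366.2.2.1, H _ t25366.2.2.2.1⟩⟩⟩⟩⟩⟩, ⟨⟨⟨⟨⟨H _ t25366.2.2.2.2.1, H _ t25366.2.2.2.2.2.1⟩, ⟨H _ t25366.2.2.2.2.2.2.1, H _ t25366.2.2.2.2.2.2.2⟩⟩, ⟨⟨H _ t25374.1, H _ t25374.2.1⟩, ⟨H _ t25374.2.2.1, H _ t25374.2.2.2.1⟩⟩⟩, ⟨⟨⟨H _ t25374.2.2.2.2.1, H _ t25374.2.2.2.2.2.1⟩, ⟨H _ t25374.2.2.2.2.2.2.1, H _ t25374.2.2.2.2.2.2.2⟩⟩, ⟨⟨H _ t25382.1, H _ t25382.2.1⟩, ⟨H _ t25382.2.2.1, ⟨H _ t25382.2.2.2.1, H _ t25382.2.2.2.2.1⟩⟩⟩⟩⟩, ⟨⟨⟨⟨H _ t25382.2.2.2.2.2.1, H _ t25382.2.2.2.2.2.2.1⟩, ⟨H _ t25382.2.2.2.2.2.2.2, H _ t25390.1⟩⟩, ⟨⟨H _ t25390.2.1, H _ t25390.2.2.1⟩,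 ⟨H _ t25390.2.2.2.1, ⟨H _ t25390.2.2.2.2.1, H _ t25390.2.2.2.2.2.1⟩⟩⟩⟩, ⟨⟨⟨H _ t25390.2.2.2.2.2.2.1, H _ t25390.2.2.2.2.2.2.2⟩, ⟨H _ t25398.1, H _ t25398.2.1⟩⟩, ⟨⟨H _ t25398.2.2.1, H _ t25398.2.2.2.1⟩, ⟨H _ t25398.2.2.2.2.1, ⟨H _ t25398.2.2.2.2.2.1, H _ t25398.2.2.2.2.2.2.1⟩⟩⟩⟩⟩⟩⟩, ⟨⟨⟨⟨⟨⟨H _ t25398.2.2.2.2.2.2.2, H _ t25406.1⟩, ⟨H _ t25406.2.1, H _ t25406.2.2.1⟩⟩, ⟨⟨H _ t25406.2.2.2.1, H _ t25406.2.2.2.2.1⟩, ⟨H _ t25406.2.2.2.2.2.1, H _ t25406.2.2.2.2.2.2.1⟩⟩⟩, ⟨⟨⟨H _ t25406.2.2.2.2.2.2.2, H _ t25414.1⟩, ⟨H _ t25414.2.1, H _ t25414.2.2.1⟩⟩, ⟨⟨H _ t25414.2.2.2.1, H _ t25414.2.2.2.2.1⟩, ⟨H _ t25414.2.2.2.2.2.1, ⟨H _ t25414.2.2.2.2.2.2.1, H _ t25414.2.2.2.2.2.2.2⟩⟩⟩⟩⟩, ⟨⟨⟨⟨H _ t25422.1, H _ t25422.2.1⟩, ⟨H _ t25422.2.2.1, H _ t25422.2.2.2.1⟩⟩, ⟨⟨H _ t25422.2.2.2.2.1, H _ t25422.2.2.2.2.2.1⟩, ⟨H _ t25422.2.2.2.2.2.2.1, H _ t25422.2.2.2.2.2.2.2⟩⟩⟩, ⟨⟨⟨H _ t25430.1, H _ t25430.2.1⟩, ⟨H _ t25430.2.2.1,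 H _ t25430.2.2.2.1⟩⟩, ⟨⟨H _ t25430.2.2.2.2.1, H _ t25430.2.2.2.2.2.1⟩, ⟨H _ t25430.2.2.2.2.2.2.1, ⟨H _ t25430.2.2.2.2.2.2.2, H _ t25438.1⟩⟩⟩⟩⟩⟩, ⟨⟨⟨⟨⟨H _ t25438.2.1, H _ t25438.2.2.1⟩, ⟨H _ t25438.2.2.2.1, H _ t25438.2.2.2.2.1⟩⟩, ⟨⟨H _ t25438.2.2.2.2.2.1, H _ t25438.2.2.2.2.2.2.1⟩, ⟨H _ t25438.2.2.2.2.2.2.2, H _ t25446.1⟩⟩⟩, ⟨⟨⟨H _ t25446.2.1, H _ t25446.2.2.1⟩, ⟨H _ t25446.2.2.2.1, H _ t25446.2.2.2.2.1⟩⟩, ⟨⟨H _ t25446.2.2.2.2.2.1, H _ t25446.2.2.2.2.2.2.1⟩, ⟨H _ t25446.2.2.2.2.2.2.2, ⟨H _ t25454.1, H _ t25454.2.1⟩⟩⟩⟩⟩, ⟨⟨⟨⟨H _ t25454.2.2.1, H _ t25454.2.2.2.1⟩, ⟨H _ t25454.2.2.2.2.1, H _ t25454.2.2.2.2.2.1⟩⟩, ⟨⟨H _ t25454.2.2.2.2.2.2.1, H _ t25454.2.2.2.2.2.2.2⟩, ⟨H _ t25462.1, ⟨H _ t25462.2.1, H _ t25462.2.2.1⟩⟩⟩⟩, ⟨⟨⟨H _ t25462.2.2.2.1, H _ t25462.2.2.2.2.1⟩, ⟨H _ t25462.2.2.2.2.2.1, H _ t25462.2.2.2.2.2.2.1⟩⟩, ⟨⟨H _ t25462.2.2.2.2.2.2.2, H _ t25470.1⟩, ⟨H _ t25470.2.1, ⟨H _ t25470.2.2.1,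 H _ t25470.2.2.2.1⟩⟩⟩⟩⟩⟩⟩⟩⟩, ⟨⟨⟨⟨⟨⟨⟨⟨H _ t25470.2.2.2.2.1, H _ t25470.2.2.2.2.2.1⟩, ⟨H _ t25470.2.2.2.2.2.2.1, H _ t25470.2.2.2.2.2.2.2⟩⟩, ⟨⟨H _ t25478.1, H _ t25478.2.1⟩, ⟨H _ t25478.2.2.1, H _ t25478.2.2.2.1⟩⟩⟩, ⟨⟨⟨H _ t25478.2.2.2.2.1, H _ t25478.2.2.2.2.2.1⟩, ⟨H _ t25478.2.2.2.2.2.2.1, H _ t25478.2.2.2.2.2.2.2⟩⟩, ⟨⟨H _ t25486.1, H _ t25486.2.1⟩, ⟨H _ t25486.2.2.1, ⟨H _ t25486.2.2.2.1, H _ t25486.2.2.2.2.1⟩⟩⟩⟩⟩, ⟨⟨⟨⟨H _ t25486.2.2.2.2.2.1, H _ t25486.2.2.2.2.2.2.1⟩, ⟨H _ t25486.2.2.2.2.2.2.2, H _ t25494.1⟩⟩, ⟨⟨H _ t25494.2.1, H _ t25494.2.2.1⟩, ⟨H _ t25494.2.2.2.1, H _ t25494.2.2.2.2.1⟩⟩⟩, ⟨⟨⟨H _ t25494.2.2.2.2.2.1, H _ t25494.2.2.2.2.2.2.1⟩, ⟨H _ t25494.2.2.2.2.2.2.2, H _ t25502.1⟩⟩, ⟨⟨H _ t25502.2.1, H _ t25502.2.2.1⟩, ⟨H _ t25502.2.2.2.1, ⟨H _ t25502.2.2.2.2.1, H _ t25502.2.2.2.2.2.1⟩⟩⟩⟩⟩⟩, ⟨⟨⟨⟨⟨H _ t25502.2.2.2.2.2.2.1, H _ t25502.2.2.2.2.2.2.2⟩, ⟨H _ t25510.1, H _ t25510.2.1⟩⟩, ⟨⟨H _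 t25510.2.2.1, H _ t25510.2.2.2.1⟩, ⟨H _ t25510.2.2.2.2.1, H _ t25510.2.2.2.2.2.1⟩⟩⟩, ⟨⟨⟨H _ t25510.2.2.2.2.2.2.1, H _ t25510.2.2.2.2.2.2.2⟩, ⟨H _ t25518.1, H _ t25518.2.1⟩⟩, ⟨⟨H _ t25518.2.2.1, H _ t25518.2.2.2.1⟩, ⟨H _ t25518.2.2.2.2.1, ⟨H _ t25518.2.2.2.2.2.1, H _ t25518.2.2.2.2.2.2.1⟩⟩⟩⟩⟩, ⟨⟨⟨⟨H _ t25518.2.2.2.2.2.2.2, H _ t25526.1⟩, ⟨H _ t25526.2.1, H _ t25526.2.2.1⟩⟩, ⟨⟨H _ t25526.2.2.2.1, H _ t25526.2.2.2.2.1⟩, ⟨H _ t25526.2.2.2.2.2.1, ⟨H _ t25526.2.2.2.2.2.2.1, H _ t25526.2.2.2.2.2.2.2⟩⟩⟩⟩, ⟨⟨⟨H _ t25534.1, H _ t25534.2.1⟩, ⟨H _ t25534.2.2.1, H _ t25534.2.2.2.1⟩⟩, ⟨⟨H _ t25534.2.2.2.2.1, H _ t25534.2.2.2.2.2.1⟩, ⟨H _ t25534.2.2.2.2.2.2.1, ⟨H _ t25534.2.2.2.2.2.2.2, H _ t25542.1⟩⟩⟩⟩⟩⟩⟩, ⟨⟨⟨⟨⟨⟨H _ t25542.2.1, H _ t25542.2.2.1⟩, ⟨H _ t25542.2.2.2.1, H _ t25542.2.2.2.2.1⟩⟩, ⟨⟨H _ t25542.2.2.2.2.2.1, H _ t25542.2.2.2.2.2.2.1⟩, ⟨H _ t25542.2.2.2.2.2.2.2, H _ t25550.1⟩⟩⟩, ⟨⟨⟨H _ t25550.2.1, H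 _ t25550.2.2.1⟩, ⟨H _ t25550.2.2.2.1, H _ t25550.2.2.2.2.1⟩⟩, ⟨⟨H _ t25550.2.2.2.2.2.1, H _ t25550.2.2.2.2.2.2.1⟩, ⟨H _ t25550.2.2.2.2.2.2.2, ⟨H _ t25558.1, H _ t25558.2.1⟩⟩⟩⟩⟩, ⟨⟨⟨⟨H _ t25558.2.2.1, H _ t25558.2.2.2.1⟩, ⟨H _ t25558.2.2.2.2.1, H _ t25558.2.2.2.2.2.1⟩⟩, ⟨⟨H _ t25558.2.2.2.2.2.2.1, H _ t25558.2.2.2.2.2.2.2⟩, ⟨H _ t25566.1, H _ t25566.2.1⟩⟩⟩, ⟨⟨⟨H _ t25566.2.2.1, H _ t25566.2.2.2.1⟩, ⟨H _ t25566.2.2.2.2.1, H _ t25566.2.2.2.2.2.1⟩⟩, ⟨⟨H _ t25566.2.2.2.2.2.2.1, H _ t25566.2.2.2.2.2.2.2⟩, ⟨H _ t25574.1, ⟨H _ t25574.2.1, H _ t25574.2.2.1⟩⟩⟩⟩⟩⟩, ⟨⟨⟨⟨⟨H _ t25574.2.2.2.1, H _ t25574.2.2.2.2.1⟩, ⟨H _ t25574.2.2.2.2.2.1, H _ t25574.2.2.2.2.2.2.1⟩⟩, ⟨⟨H _ t25574.2.2.2.2.2.2.2, H _ t25582.1⟩, ⟨H _ t25582.2.1, H _ t25582.2.2.1⟩⟩⟩, ⟨⟨⟨H _ t25582.2.2.2.1, H _ t25582.2.2.2.2.1⟩, ⟨H _ t25582.2.2.2.2.2.1, H _ t25582.2.2.2.2.2.2.1⟩⟩, ⟨⟨H _ t25582.2.2.2.2.2.2.2, H _ t25590.1⟩, ⟨H _ t25590.2.1, ⟨H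 _ t25590.2.2.1, H _ t25590.2.2.2.1⟩⟩⟩⟩⟩, ⟨⟨⟨⟨H _ t25590.2.2.2.2.1, H _ t25590.2.2.2.2.2.1⟩, ⟨H _ t25590.2.2.2.2.2.2.1, H _ t25590.2.2.2.2.2.2.2⟩⟩, ⟨⟨H _ t25598.1, H _ t25598.2.1⟩, ⟨H _ t25598.2.2.1, ⟨H _ t25598.2.2.2.1, H _ t25598.2.2.2.2.1⟩⟩⟩⟩, ⟨⟨⟨H _ t25598.2.2.2.2.2.1, H _ t25598.2.2.2.2.2.2.1⟩, ⟨H _ t25598.2.2.2.2.2.2.2, H _ t25606.1⟩⟩, ⟨⟨H _ t25606.2.1, H _ t25606.2.2.1⟩, ⟨H _ t25606.2.2.2.1, ⟨H _ t25606.2.2.2.2.1, H _ t25606.2.2.2.2.2.1⟩⟩⟩⟩⟩⟩⟩⟩, ⟨⟨⟨⟨⟨⟨⟨H _ t25606.2.2.2.2.2.2.1, H _ t25606.2.2.2.2.2.2.2⟩, ⟨H _ t25614.1, H _ t25614.2.1⟩⟩, ⟨⟨H _ t25614.2.2.1, H _ t25614.2.2.2.1⟩, ⟨H _ t25614.2.2.2.2.1, H _ t25614.2.2.2.2.2.1⟩⟩⟩, ⟨⟨⟨H _ t25614.2.2.2.2.2.2.1, H _ t25614.2.2.2.2.2.2.2⟩, ⟨H _ t25622.1, H _ t25622.2.1⟩⟩, ⟨⟨H _ t25622.2.2.1, H _ t25622.2.2.2.1⟩, ⟨H _ t25622.2.2.2.2.1, ⟨H _ t25622.2.2.2.2.2.1, H _ t25622.2.2.2.2.2.2.1⟩⟩⟩⟩⟩, ⟨⟨⟨⟨H _ t25622.2.2.2.2.2.2.2, H _ t25630.1⟩, ⟨H _ t25630.2.1,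 H _ t25630.2.2.1⟩⟩, ⟨⟨H _ t25630.2.2.2.1, H _ t25630.2.2.2.2.1⟩, ⟨H _ t25630.2.2.2.2.2.1, H _ t25630.2.2.2.2.2.2.1⟩⟩⟩, ⟨⟨⟨H _ t25630.2.2.2.2.2.2.2, H _ t25638.1⟩, ⟨H _ t25638.2.1, H _ t25638.2.2.1⟩⟩, ⟨⟨H _ t25638.2.2.2.1, H _ t25638.2.2.2.2.1⟩, ⟨H _ t25638.2.2.2.2.2.1, ⟨H _ t25638.2.2.2.2.2.2.1, H _ t25638.2.2.2.2.2.2.2⟩⟩⟩⟩⟩⟩, ⟨⟨⟨⟨⟨H _ t25646.1, H _ t25646.2.1⟩, ⟨H _ t25646.2.2.1, H _ t25646.2.2.2.1⟩⟩, ⟨⟨H _ t25646.2.2.2.2.1, H _ t25646.2.2.2.2.2.1⟩, ⟨H _ t25646.2.2.2.2.2.2.1, H _ t25646.2.2.2.2.2.2.2⟩⟩⟩, ⟨⟨⟨H _ t25654.1, H _ t25654.2.1⟩, ⟨H _ t25654.2.2.1, H _ t25654.2.2.2.1⟩⟩, ⟨⟨H _ t25654.2.2.2.2.1, H _ t25654.2.2.2.2.2.1⟩, ⟨H _ t25654.2.2.2.2.2.2.1, ⟨H _ t25654.2.2.2.2.2.2.2, H _ t25662.1⟩⟩⟩⟩⟩, ⟨⟨⟨⟨H _ t25662.2.1, H _ t25662.2.2.1⟩, ⟨H _ t25662.2.2.2.1, H _ t25662.2.2.2.2.1⟩⟩, ⟨⟨H _ t25662.2.2.2.2.2.1, H _ t25662.2.2.2.2.2.2.1⟩, ⟨H _ t25662.2.2.2.2.2.2.2, ⟨H _ t25670.1, H _ t25670.2.1⟩⟩⟩⟩,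 ⟨⟨⟨H _ t25670.2.2.1, H _ t25670.2.2.2.1⟩, ⟨H _ t25670.2.2.2.2.1, H _ t25670.2.2.2.2.2.1⟩⟩, ⟨⟨H _ t25670.2.2.2.2.2.2.1, H _ t25670.2.2.2.2.2.2.2⟩, ⟨H _ t25678.1, ⟨H _ t25678.2.1, H _ t25678.2.2.1⟩⟩⟩⟩⟩⟩⟩, ⟨⟨⟨⟨⟨⟨H _ t25678.2.2.2.1, H _ t25678.2.2.2.2.1⟩, ⟨H _ t25678.2.2.2.2.2.1, H _ t25678.2.2.2.2.2.2.1⟩⟩, ⟨⟨H _ t25678.2.2.2.2.2.2.2, H _ t25686.1⟩, ⟨H _ t25686.2.1, H _ t25686.2.2.1⟩⟩⟩, ⟨⟨⟨H _ t25686.2.2.2.1, H _ t25686.2.2.2.2.1⟩, ⟨H _ t25686.2.2.2.2.2.1, H _ t25686.2.2.2.2.2.2.1⟩⟩, ⟨⟨H _ t25686.2.2.2.2.2.2.2, H _ t25694.1⟩, ⟨H _ t25694.2.1, ⟨H _ t25694.2.2.1, H _ t25694.2.2.2.1⟩⟩⟩⟩⟩, ⟨⟨⟨⟨H _ t25694.2.2.2.2.1, H _ t25694.2.2.2.2.2.1⟩, ⟨H _ t25694.2.2.2.2.2.2.1, H _ t25694.2.2.2.2.2.2.2⟩⟩, ⟨⟨H _ t25702.1, H _ t25702.2.1⟩, ⟨H _ t25702.2.2.1, ⟨H _ t25702.2.2.2.1, H _ t25702.2.2.2.2.1⟩⟩⟩⟩, ⟨⟨⟨H _ t25702.2.2.2.2.2.1, H _ t25702.2.2.2.2.2.2.1⟩, ⟨H _ t25702.2.2.2.2.2.2.2, H _ t25710.1⟩⟩, ⟨⟨H _ t25710.2.1,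 H _ t25710.2.2.1⟩, ⟨H _ t25710.2.2.2.1, ⟨H _ t25710.2.2.2.2.1, H _ t25710.2.2.2.2.2.1⟩⟩⟩⟩⟩⟩, ⟨⟨⟨⟨⟨H _ t25710.2.2.2.2.2.2.1, H _ t25710.2.2.2.2.2.2.2⟩, ⟨H _ t25718.1, H _ t25718.2.1⟩⟩, ⟨⟨H _ t25718.2.2.1, H _ t25718.2.2.2.1⟩, ⟨H _ t25718.2.2.2.2.1, H _ t25718.2.2.2.2.2.1⟩⟩⟩, ⟨⟨⟨H _ t25718.2.2.2.2.2.2.1, H _ t25718.2.2.2.2.2.2.2⟩, ⟨H _ t25726.1, H _ t25726.2.1⟩⟩, ⟨⟨H _ t25726.2.2.1, H _ t25726.2.2.2.1⟩, ⟨H _ t25726.2.2.2.2.1, ⟨H _ t25726.2.2.2.2.2.1, H _ t25726.2.2.2.2.2.2.1⟩⟩⟩⟩⟩, ⟨⟨⟨⟨H _ t25726.2.2.2.2.2.2.2, H _ t25734.1⟩, ⟨H _ t25734.2.1, H _ t25734.2.2.1⟩⟩, ⟨⟨H _ t25734.2.2.2.1, H _ t25734.2.2.2.2.1⟩, ⟨H _ t25734.2.2.2.2.2.1, ⟨H _ t25734.2.2.2.2.2.2.1, H _ t25734.2.2.2.2.2.2.2⟩⟩⟩⟩, ⟨⟨⟨H _ t25742.1, H _ t25742.2.1⟩, ⟨H _ t25742.2.2.1, H _ t25742.2.2.2.1⟩⟩, ⟨⟨H _ t25742.2.2.2.2.1, H _ t25742.2.2.2.2.2.1⟩, ⟨H _ t25742.2.2.2.2.2.2.1, ⟨H _ t25742.2.2.2.2.2.2.2, H _ t25750⟩⟩⟩⟩⟩⟩⟩⟩⟩⟩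

end Pool.Agent.MP_c853c5_nt.X.C4950
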