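import Pool.Agent.MP_c853c5_nt.X.C4950.Env
import Pool.Agent.MP_c853c5_nt.X.C4950.D9

set_option autoImplicit false
set_option maxRecDepth 8192
set_option linter.all false

namespace Pool.Agent.MP_c853c5_nt.X.C4950

open Pool.Agent.MP_c853c5_nt.X

def t25751 : allY (E.wth (lkp [])) l25751 = true ∧
    allY (E.wth (lkp [])) l25752 = true ∧
    allY (E.wth (lkp [])) l25753 = true ∧
    allY (E.wth (lkp [])) l25754 = true ∧
    allY (E.wth (lkp [])) l25755 = true ∧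
    allY (E.wth (lkp [])) l25756 = true ∧
    allY (E.wth (lkp [])) l25757 = true ∧
    allY (E.wth (lkp [])) l25758 = true :=
  ⟨by decide +kernel, by decide +kernel, by decide +kernel, by decide +kernel, by decide +kernel, by decide +kernel, by decide +kernel, by decide +kernel⟩

def t25759 : allY (E.wth (lkp [])) l25759 = true ∧
    allY (E.wth (lkp [])) l25760 = true ∧
    allY (E.wth (lkp [])) l25761 = true ∧
    allY (E.wth (lkp [])) l25762 = true ∧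
    allY (E.wth (lkp [])) l25763 = true ∧
    allY (E.wth (lkp [])) l25764 = true ∧
    allY (E.wth (lkp [])) l25765 = true ∧
    allY (E.wth (lkp [])) l25766 = true :=
  ⟨by decide +kernel, by decide +kernel, by decide +kernel, by decide +kernel, by decide +kernel, by decide +kernel, by decide +kernel, by decide +kernel⟩

def t25767 : allY (E.wth (lkp [])) l25767 = true ∧
    allY (E.wth (lkp [])) l25768 = true ∧
    allY (E.wth (lkp [])) l25769 = true ∧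
    allY (E.wth (lkp [])) l25770 = true ∧
    allY (E.wth (lkp [])) l25771 = true ∧
    allY (E.wth (lkp [])) l25772 = true ∧
    allY (E.wth (lkp [])) l25773 = true ∧
    allY (E.wth (lkp [])) l25774 = true :=
  ⟨by decide +kernel, by decide +kernel, by decide +kernel, by decide +kernel, by decide +kernel, by decide +kernel, by decide +kernel, by decide +kernel⟩

def t25775 : allY (E.wth (lkp [])) l25775 = true ∧
    allY (E.wth (lkp [])) l25776 = true ∧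
    allY (E.wth (lkp [])) l25777 = true ∧
    allY (E.wth (lkp [])) l25778 = true ∧
    allY (E.wth (lkp [])) l25779 = true ∧
    allY (E.wth (lkp [])) l25780 = true ∧
    allY (E.wth (lkp [])) l25781 = true ∧
    allY (E.wth (lkp [])) l25782 = true :=
  ⟨by decide +kernel, by decide +kernel, by decide +kernel, by decide +kernel, by decide +kernel, by decide +kernel, by decide +kernel, by decide +kernel⟩

def t25783 : allY (E.wth (lkp [])) l25783 = true ∧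
    allY (E.wth (lkp [])) l25784 = true ∧
    allY (E.wth (lkp [])) l25785 = true ∧
    allY (E.wth (lkp [])) l25786 = true ∧
    allY (E.wth (lkp [])) l25787 = true ∧
    allY (E.wth (lkp [])) l25788 = true ∧
    allY (E.wth (lkp [])) l25789 = true ∧
    allY (E.wth (lkp [])) l25790 = true :=
  ⟨by decide +kernel, by decide +kernel, by decide +kernel, by decide +kernel, by decide +kernel, by decide +kernel, by decide +kernel, by decide +kernel⟩

def t25791 : allY (E.wth (lkp [])) l25791 = true ∧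
    allY (E.wth (lkp [])) l25792 = true ∧
    allY (E.wth (lkp [])) l25793 = true ∧
    allY (E.wth (lkp [])) l25794 = true ∧
    allY (E.wth (lkp [])) l25795 = true ∧
    allY (E.wth (lkp [])) l25796 = true ∧
    allY (E.wth (lkp [])) l25797 = true ∧
    allY (E.wth (lkp [])) l25798 = true :=
  ⟨by decide +kernel, by decide +kernel, by decide +kernel, by decide +kernel, by decide +kernel, by decide +kernel, by decide +kernel, by decide +kernel⟩

def t25799 : allY (E.wth (lkp [])) l25799 = true ∧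
    allY (E.wth (lkp [])) l25800 = true ∧
    allY (E.wth (lkp [])) l25801 = true ∧
    allY (E.wth (lkp [])) l25802 = true ∧
    allY (E.wth (lkp [])) l25803 = true ∧
    allY (E.wth (lkp [])) l25804 = true ∧
    allY (E.wth (lkp [])) l25805 = true ∧
    allY (E.wth (lkp [])) l25806 = true :=
  ⟨by decide +kernel, by decide +kernel, by decide +kernel, by decide +kernel, by decide +kernel, by decide +kernel, by decide +kernel, by decide +kernel⟩

def t25807 : allY (E.wth (lkp [])) l25807 = true ∧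
    allY (E.wth (lkp [])) l25808 = true ∧
    allY (E.wth (lkp [])) l25809 = true ∧
    allY (E.wth (lkp [])) l25810 = true ∧
    allY (E.wth (lkp [])) l25811 = true ∧
    allY (E.wth (lkp [])) l25812 = true ∧
    allY (E.wth (lkp [])) l25813 = true ∧
    allY (E.wth (lkp [])) l25814 = true :=
  ⟨by decide +kernel, by decide +kernel, by decide +kernel, by decide +kernel, by decide +kernel, by decide +kernel, by decide +kernel, by decide +kernel⟩

def t25815 : allY (E.wth (lkp [])) l25815 = true ∧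
    allY (E.wth (lkp [])) l25816 = true ∧
    allY (E.wth (lkp [])) l25817 = true ∧
    allY (E.wth (lkp [])) l25818 = true ∧
    allY (E.wth (lkp [])) l25819 = true ∧
    allY (E.wth (lkp [])) l25820 = true ∧
    allY (E.wth (lkp [])) l25821 = true ∧
    allY (E.wth (lkp [])) l25822 = true :=
  ⟨by decide +kernel, by decide +kernel, by decide +kernel, by decide +kernel, by decide +kernel, by decide +kernel, by decide +kernel, by decide +kernel⟩

def t25823 : allY (E.wth (lkp [])) l25823 = true ∧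
    allY (E.wth (lkp [])) l25824 = true ∧
    allY (E.wth (lkp [])) l25825 = true ∧
    allY (E.wth (lkp [])) l25826 = true ∧
    allY (E.wth (lkp [])) l25827 = true ∧
    allY (E.wth (lkp [])) l25828 = true ∧
    allY (E.wth (lkp [])) l25829 = true ∧
    allY (E.wth (lkp [])) l25830 = true :=
  ⟨by decide +kernel, by decide +kernel, by decide +kernel, by decide +kernel, by decide +kernel, by decide +kernel, by decide +kernel, by decide +kernel⟩

def t25831 : allY (E.wth (lkp [])) l25831 = true ∧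
    allY (E.wth (lkp [])) l25832 = true ∧
    allY (E.wth (lkp [])) l25833 = true ∧
    allY (E.wth (lkp [])) l25834 = true ∧
    allY (E.wth (lkp [])) l25835 = true ∧
    allY (E.wth (lkp [])) l25836 = true ∧
    allY (E.wth (lkp [])) l25837 = true ∧
    allY (E.wth (lkp [])) l25838 = true :=
  ⟨by decide +kernel, by decide +kernel, by decide +kernel, by decide +kernel, by decide +kernel, by decide +kernel, by decide +kernel, by decide +kernel⟩

def t25839 : allY (E.wth (lkp [])) l25839 = true ∧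
    allY (E.wth (lkp [])) l25840 = true ∧
    allY (E.wth (lkp [])) l25841 = true ∧
    allY (E.wth (lkp [])) l25842 = true ∧
    allY (E.wth (lkp [])) l25843 = true ∧
    allY (E.wth (lkp [])) l25844 = true ∧
    allY (E.wth (lkp [])) l25845 = true ∧
    allY (E.wth (lkp [])) l25846 = true :=
  ⟨by decide +kernel, by decide +kernel, by decide +kernel, by decide +kernel, by decide +kernel, by decide +kernel, by decide +kernel, by decide +kernel⟩

def t25847 : allY (E.wth (lkp [])) l25847 = true ∧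
    allY (E.wth (lkp [])) l25848 = true ∧
    allY (E.wth (lkp [])) l25849 = true ∧
    allY (E.wth (lkp [])) l25850 = true ∧
    allY (E.wth (lkp [])) l25851 = true ∧
    allY (E.wth (lkp [])) l25852 = true ∧
    allY (E.wth (lkp [])) l25853 = true ∧
    allY (E.wth (lkp [])) l25854 = true :=
  ⟨by decide +kernel, by decide +kernel, by decide +kernel, by decide +kernel, by decide +kernel, by decide +kernel, by decide +kernel, by decide +kernel⟩

def t25855 : allY (E.wth (lkp [])) l25855 = true ∧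
    allY (E.wth (lkp [])) l25856 = true ∧
    allY (E.wth (lkp [])) l25857 = true ∧
    allY (E.wth (lkp [])) l25858 = true ∧
    allY (E.wth (lkp [])) l25859 = true ∧
    allY (E.wth (lkp [])) l25860 = true ∧
    allY (E.wth (lkp [])) l25861 = true ∧
    allY (E.wth (lkp [])) l25862 = true :=
  ⟨by decide +kernel, by decide +kernel, by decide +kernel, by decide +kernel, by decide +kernel, by decide +kernel, by decide +kernel, by decide +kernel⟩

def t25863 : allY (E.wth (lkp [])) l25863 = true ∧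
    allY (E.wth (lkp [])) l25864 = true ∧
    allY (E.wth (lkp [])) l25865 = true ∧
    allY (E.wth (lkp [])) l25866 = true ∧
    allY (E.wth (lkp [])) l25867 = true ∧
    allY (E.wth (lkp [])) l25868 = true ∧
    allY (E.wth (lkp [])) l25869 = true ∧
    allY (E.wth (lkp [])) l25870 = true :=
  ⟨by decide +kernel, by decide +kernel, by decide +kernel, by decide +kernel, by decide +kernel, by decide +kernel, by decide +kernel, by decide +kernel⟩

def t25871 : allY (E.wth (lkp [])) l25871 = true ∧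
    allY (E.wth (lkp [])) l25872 = true ∧
    allY (E.wth (lkp [])) l25873 = true ∧
    allY (E.wth (lkp [])) l25874 = true ∧
    allY (E.wth (lkp [])) l25875 = true ∧
    allY (E.wth (lkp [])) l25876 = true ∧
    allY (E.wth (lkp [])) l25877 = true ∧
    allY (E.wth (lkp [])) l25878 = true :=
  ⟨by decide +kernel, by decide +kernel, by decide +kernel, by decide +kernel, by decide +kernel, by decide +kernel, by decide +kernel, by decide +kernel⟩

def t25879 : allY (E.wth (lkp [])) l25879 = true ∧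
    allY (E.wth (lkp [])) l25880 = true ∧
    allY (E.wth (lkp [])) l25881 = true ∧
    allY (E.wth (lkp [])) l25882 = true ∧
    allY (E.wth (lkp [])) l25883 = true ∧
    allY (E.wth (lkp [])) l25884 = true ∧
    allY (E.wth (lkp [])) l25885 = true ∧
    allY (E.wth (lkp [])) l25886 = true :=
  ⟨by decide +kernel, by decide +kernel, by decide +kernel, by decide +kernel, by decide +kernel, by decide +kernel, by decide +kernel, by decide +kernel⟩

def t25887 : allY (E.wth (lkp [])) l25887 = true ∧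
    allY (E.wth (lkp [])) l25888 = true ∧
    allY (E.wth (lkp [])) l25889 = true ∧
    allY (E.wth (lkp [])) l25890 = true ∧
    allY (E.wth (lkp [])) l25891 = true ∧
    allY (E.wth (lkp [])) l25892 = true ∧
    allY (E.wth (lkp [])) l25893 = true ∧
    allY (E.wth (lkp [])) l25894 = true :=
  ⟨by decide +kernel, by decide +kernel, by decide +kernel, by decide +kernel, by decide +kernel, by decide +kernel, by decide +kernel, by decide +kernel⟩

def t25895 : allY (E.wth (lkp [])) l25895 = true ∧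
    allY (E.wth (lkp [])) l25896 = true ∧
    allY (E.wth (lkp [])) l25897 = true ∧
    allY (E.wth (lkp [])) l25898 = true ∧
    allY (E.wth (lkp [])) l25899 = true ∧
    allY (E.wth (lkp [])) l25900 = true ∧
    allY (E.wth (lkp [])) l25901 = true ∧
    allY (E.wth (lkp [])) l25902 = true :=
  ⟨by decide +kernel, by decide +kernel, by decide +kernel, by decide +kernel, by decide +kernel, by decide +kernel, by decide +kernel, by decide +kernel⟩

def t25903 : allY (E.wth (lkp [])) l25903 = true ∧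
    allY (E.wth (lkp [])) l25904 = true ∧
    allY (E.wth (lkp [])) l25905 = true ∧
    allY (E.wth (lkp [])) l25906 = true ∧
    allY (E.wth (lkp [])) l25907 = true ∧
    allY (E.wth (lkp [])) l25908 = true ∧
    allY (E.wth (lkp [])) l25909 = true ∧
    allY (E.wth (lkp [])) l25910 = true :=
  ⟨by decide +kernel, by decide +kernel, by decide +kernel, by decide +kernel, by decide +kernel, by decide +kernel, by decide +kernel, by decide +kernel⟩

def t25911 : allY (E.wth (lkp [])) l25911 = true ∧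
    allY (E.wth (lkp [])) l25912 = true ∧
    allY (E.wth (lkp [])) l25913 = true ∧
    allY (E.wth (lkp [])) l25914 = true ∧
    allY (E.wth (lkp [])) l25915 = true ∧
    allY (E.wth (lkp [])) l25916 = true ∧
    allY (E.wth (lkp [])) l25917 = true ∧
    allY (E.wth (lkp [])) l25918 = true :=
  ⟨by decide +kernel, by decide +kernel, by decide +kernel, by decide +kernel, by decide +kernel, by decide +kernel, by decide +kernel, by decide +kernel⟩

def t25919 : allY (E.wth (lkp [])) l25919 = true ∧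
    allY (E.wth (lkp [])) l25920 = true ∧
    allY (E.wth (lkp [])) l25921 = true ∧
    allY (E.wth (lkp [])) l25922 = true ∧
    allY (E.wth (lkp [])) l25923 = true ∧
    allY (E.wth (lkp [])) l25924 = true ∧
    allY (E.wth (lkp [])) l25925 = true ∧
    allY (E.wth (lkp [])) l25926 = true :=
  ⟨by decide +kernel, by decide +kernel, by decide +kernel, by decide +kernel, by decide +kernel, by decide +kernel, by decide +kernel, by decide +kernel⟩

def t25927 : allY (E.wth (lkp [])) l25927 = true ∧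
    allY (E.wth (lkp [])) l25928 = true ∧
    allY (E.wth (lkp [])) l25929 = true ∧
    allY (E.wth (lkp [])) l25930 = true ∧
    allY (E.wth (lkp [])) l25931 = true ∧
    allY (E.wth (lkp [])) l25932 = true ∧
    allY (E.wth (lkp [])) l25933 = true ∧
    allY (E.wth (lkp [])) l25934 = true :=
  ⟨by decide +kernel, by decide +kernel, by decide +kernel, by decide +kernel, by decide +kernel, by decide +kernel, by decide +kernel, by decide +kernel⟩

def t25935 : allY (E.wth (lkp [])) l25935 = true ∧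
    allY (E.wth (lkp [])) l25936 = true ∧
    allY (E.wth (lkp [])) l25937 = true ∧
    allY (E.wth (lkp [])) l25938 = true ∧
    allY (E.wth (lkp [])) l25939 = true ∧
    allY (E.wth (lkp [])) l25940 = true ∧
    allY (E.wth (lkp [])) l25941 = true ∧
    allY (E.wth (lkp [])) l25942 = true :=
  ⟨by decide +kernel, by decide +kernel, by decide +kernel, by decide +kernel, by decide +kernel, by decide +kernel, by decide +kernel, by decide +kernel⟩

def t25943 : allY (E.wth (lkp [])) l25943 = true ∧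
    allY (E.wth (lkp [])) l25944 = true ∧
    allY (E.wth (lkp [])) l25945 = true ∧
    allY (E.wth (lkp [])) l25946 = true ∧
    allY (E.wth (lkp [])) l25947 = true ∧
    allY (E.wth (lkp [])) l25948 = true ∧
    allY (E.wth (lkp [])) l25949 = true ∧
    allY (E.wth (lkp [])) l25950 = true :=
  ⟨by decide +kernel, by decide +kernel, by decide +kernel, by decide +kernel, by decide +kernel, by decide +kernel, by decide +kernel, by decide +kernel⟩

def t25951 : allY (E.wth (lkp [])) l25951 = true ∧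
    allY (E.wth (lkp [])) l25952 = true ∧
    allY (E.wth (lkp [])) l25953 = true ∧
    allY (E.wth (lkp [])) l25954 = true ∧
    allY (E.wth (lkp [])) l25955 = true ∧
    allY (E.wth (lkp [])) l25956 = true ∧
    allY (E.wth (lkp [])) l25957 = true ∧
    allY (E.wth (lkp [])) l25958 = true :=
  ⟨by decide +kernel, by decide +kernel, by decide +kernel, by decide +kernel, by decide +kernel, by decide +kernel, by decide +kernel, by decide +kernel⟩

def t25959 : allY (E.wth (lkp [])) l25959 = true ∧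
    allY (E.wth (lkp [])) l25960 = true ∧
    allY (E.wth (lkp [])) l25961 = true ∧
    allY (E.wth (lkp [])) l25962 = true ∧
    allY (E.wth (lkp [])) l25963 = true ∧
    allY (E.wth (lkp [])) l25964 = true ∧
    allY (E.wth (lkp [])) l25965 = true ∧
    allY (E.wth (lkp [])) l25966 = true :=
  ⟨by decide +kernel, by decide +kernel, by decide +kernel, by decide +kernel, by decide +kernel, by decide +kernel, by decide +kernel, by decide +kernel⟩

def t25967 : allY (E.wth (lkp [])) l25967 = true ∧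
    allY (E.wth (lkp [])) l25968 = true ∧
    allY (E.wth (lkp [])) l25969 = true ∧
    allY (E.wth (lkp [])) l25970 = true ∧
    allY (E.wth (lkp [])) l25971 = true ∧
    allY (E.wth (lkp [])) l25972 = true ∧
    allY (E.wth (lkp [])) l25973 = true ∧
    allY (E.wth (lkp [])) l25974 = true :=
  ⟨by decide +kernel, by decide +kernel, by decide +kernel, by decide +kernel, by decide +kernel, by decide +kernel, by decide +kernel, by decide +kernel⟩

def t25975 : allY (E.wth (lkp [])) l25975 = true ∧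
    allY (E.wth (lkp [])) l25976 = true ∧
    allY (E.wth (lkp [])) l25977 = true ∧
    allY (E.wth (lkp [])) l25978 = true ∧
    allY (E.wth (lkp [])) l25979 = true ∧
    allY (E.wth (lkp [])) l25980 = true ∧
    allY (E.wth (lkp [])) l25981 = true ∧
    allY (E.wth (lkp [])) l25982 = true :=
  ⟨by decide +kernel, by decide +kernel, by decide +kernel, by decide +kernel, by decide +kernel, by decide +kernel, by decide +kernel, by decide +kernel⟩

def t25983 : allY (E.wth (lkp [])) l25983 = true ∧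
    allY (E.wth (lkp [])) l25984 = true ∧
    allY (E.wth (lkp [])) l25985 = true ∧
    allY (E.wth (lkp [])) l25986 = true ∧
    allY (E.wth (lkp [])) l25987 = true ∧
    allY (E.wth (lkp [])) l25988 = true ∧
    allY (E.wth (lkp [])) l25989 = true ∧
    allY (E.wth (lkp [])) l25990 = true :=
  ⟨by decide +kernel, by decide +kernel, by decide +kernel, by decide +kernel, by decide +kernel, by decide +kernel, by decide +kernel, by decide +kernel⟩

def t25991 : allY (E.wth (lkp [])) l25991 = true ∧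
    allY (E.wth (lkp [])) l25992 = true ∧
    allY (E.wth (lkp [])) l25993 = true ∧
    allY (E.wth (lkp [])) l25994 = true ∧
    allY (E.wth (lkp [])) l25995 = true ∧
    allY (E.wth (lkp [])) l25996 = true ∧
    allY (E.wth (lkp [])) l25997 = true ∧
    allY (E.wth (lkp [])) l25998 = true :=
  ⟨by decide +kernel, by decide +kernel, by decide +kernel, by decide +kernel, by decide +kernel, by decide +kernel, by decide +kernel, by decide +kernel⟩

def t25999 : allY (E.wth (lkp [])) l25999 = true ∧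
    allY (E.wth (lkp [])) l26000 = true ∧
    allY (E.wth (lkp [])) l26001 = true ∧
    allY (E.wth (lkp [])) l26002 = true ∧
    allY (E.wth (lkp [])) l26003 = true ∧
    allY (E.wth (lkp [])) l26004 = true ∧
    allY (E.wth (lkp [])) l26005 = true ∧
    allY (E.wth (lkp [])) l26006 = true :=
  ⟨by decide +kernel, by decide +kernel, by decide +kernel, by decide +kernel, by decide +kernel, by decide +kernel, by decide +kernel, by decide +kernel⟩

def t26007 : allY (E.wth (lkp [])) l26007 = true ∧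
    allY (E.wth (lkp [])) l26008 = true ∧
    allY (E.wth (lkp [])) l26009 = true ∧
    allY (E.wth (lkp [])) l26010 = true ∧
    allY (E.wth (lkp [])) l26011 = true ∧
    allY (E.wth (lkp [])) l26012 = true ∧
    allY (E.wth (lkp [])) l26013 = true ∧
    allY (E.wth (lkp [])) l26014 = true :=
  ⟨by decide +kernel, by decide +kernel, by decide +kernel, by decide +kernel, by decide +kernel, by decide +kernel, by decide +kernel, by decide +kernel⟩

def t26015 : allY (E.wth (lkp [])) l26015 = true ∧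
    allY (E.wth (lkp [])) l26016 = true ∧
    allY (E.wth (lkp [])) l26017 = true ∧
    allY (E.wth (lkp [])) l26018 = true ∧
    allY (E.wth (lkp [])) l26019 = true ∧
    allY (E.wth (lkp [])) l26020 = true ∧
    allY (E.wth (lkp [])) l26021 = true ∧
    allY (E.wth (lkp [])) l26022 = true :=
  ⟨by decide +kernel, by decide +kernel, by decide +kernel, by decide +kernel, by decide +kernel, by decide +kernel, by decide +kernel, by decide +kernel⟩

def t26023 : allY (E.wth (lkp [])) l26023 = true ∧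
    allY (E.wth (lkp [])) l26024 = true ∧
    allY (E.wth (lkp [])) l26025 = true ∧
    allY (E.wth (lkp [])) l26026 = true ∧
    allY (E.wth (lkp [])) l26027 = true ∧
    allY (E.wth (lkp [])) l26028 = true ∧
    allY (E.wth (lkp [])) l26029 = true ∧
    allY (E.wth (lkp [])) l26030 = true :=
  ⟨by decide +kernel, by decide +kernel, by decide +kernel, by decide +kernel, by decide +kernel, by decide +kernel, by decide +kernel, by decide +kernel⟩

def t26031 : allY (E.wth (lkp [])) l26031 = true ∧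
    allY (E.wth (lkp [])) l26032 = true ∧
    allY (E.wth (lkp [])) l26033 = true ∧
    allY (E.wth (lkp [])) l26034 = true ∧
    allY (E.wth (lkp [])) l26035 = true ∧
    allY (E.wth (lkp [])) l26036 = true ∧
    allY (E.wth (lkp [])) l26037 = true ∧
    allY (E.wth (lkp [])) l26038 = true :=
  ⟨by decide +kernel, by decide +kernel, by decide +kernel, by decide +kernel, by decide +kernel, by decide +kernel, by decide +kernel, by decide +kernel⟩

def t26039 : allY (E.wth (lkp [])) l26039 = true ∧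
    allY (E.wth (lkp [])) l26040 = true ∧
    allY (E.wth (lkp [])) l26041 = true ∧
    allY (E.wth (lkp [])) l26042 = true ∧
    allY (E.wth (lkp [])) l26043 = true ∧
    allY (E.wth (lkp [])) l26044 = true ∧
    allY (E.wth (lkp [])) l26045 = true ∧
    allY (E.wth (lkp [])) l26046 = true :=
  ⟨by decide +kernel, by decide +kernel, by decide +kernel, by decide +kernel, by decide +kernel, by decide +kernel, by decide +kernel, by decide +kernel⟩

def t26047 : allY (E.wth (lkp [])) l26047 = true ∧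
    allY (E.wth (lkp [])) l26048 = true ∧
    allY (E.wth (lkp [])) l26049 = true ∧
    allY (E.wth (lkp [])) l26050 = true ∧
    allY (E.wth (lkp [])) l26051 = true ∧
    allY (E.wth (lkp [])) l26052 = true ∧
    allY (E.wth (lkp [])) l26053 = true ∧
    allY (E.wth (lkp [])) l26054 = true :=
  ⟨by decide +kernel, by decide +kernel, by decide +kernel, by decide +kernel, by decide +kernel, by decide +kernel, by decide +kernel, by decide +kernel⟩

def t26055 : allY (E.wth (lkp [])) l26055 = true ∧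
    allY (E.wth (lkp [])) l26056 = true ∧
    allY (E.wth (lkp [])) l26057 = true ∧
    allY (E.wth (lkp [])) l26058 = true ∧
    allY (E.wth (lkp [])) l26059 = true ∧
    allY (E.wth (lkp [])) l26060 = true ∧
    allY (E.wth (lkp [])) l26061 = true ∧
    allY (E.wth (lkp [])) l26062 = true :=
  ⟨by decide +kernel, by decide +kernel, by decide +kernel, by decide +kernel, by decide +kernel, by decide +kernel, by decide +kernel, by decide +kernel⟩

def t26063 : allY (E.wth (lkp [])) l26063 = true ∧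
    allY (E.wth (lkp [])) l26064 = true ∧
    allY (E.wth (lkp [])) l26065 = true ∧
    allY (E.wth (lkp [])) l26066 = true ∧
    allY (E.wth (lkp [])) l26067 = true ∧
    allY (E.wth (lkp [])) l26068 = true ∧
    allY (E.wth (lkp [])) l26069 = true ∧
    allY (E.wth (lkp [])) l26070 = true :=
  ⟨by decide +kernel, by decide +kernel, by decide +kernel, by decide +kernel, by decide +kernel, by decide +kernel, by decide +kernel, by decide +kernel⟩

def t26071 : allY (E.wth (lkp [])) l26071 = true ∧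
    allY (E.wth (lkp [])) l26072 = true ∧
    allY (E.wth (lkp [])) l26073 = true ∧
    allY (E.wth (lkp [])) l26074 = true ∧
    allY (E.wth (lkp [])) l26075 = true ∧
    allY (E.wth (lkp [])) l26076 = true ∧
    allY (E.wth (lkp [])) l26077 = true ∧
    allY (E.wth (lkp [])) l26078 = true :=
  ⟨by decide +kernel, by decide +kernel, by decide +kernel, by decide +kernel, by decide +kernel, by decide +kernel, by decide +kernel, by decide +kernel⟩

def t26079 : allY (E.wth (lkp [])) l26079 = true ∧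
    allY (E.wth (lkp [])) l26080 = true ∧
    allY (E.wth (lkp [])) l26081 = true ∧
    allY (E.wth (lkp [])) l26082 = true ∧
    allY (E.wth (lkp [])) l26083 = true ∧
    allY (E.wth (lkp [])) l26084 = true ∧
    allY (E.wth (lkp [])) l26085 = true ∧
    allY (E.wth (lkp [])) l26086 = true :=
  ⟨by decide +kernel, by decide +kernel, by decide +kernel, by decide +kernel, by decide +kernel, by decide +kernel, by decide +kernel, by decide +kernel⟩

def t26087 : allY (E.wth (lkp [])) l26087 = true ∧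
    allY (E.wth (lkp [])) l26088 = true ∧
    allY (E.wth (lkp [])) l26089 = true ∧
    allY (E.wth (lkp [])) l26090 = true ∧
    allY (E.wth (lkp [])) l26091 = true ∧
    allY (E.wth (lkp [])) l26092 = true ∧
    allY (E.wth (lkp [])) l26093 = true ∧
    allY (E.wth (lkp [])) l26094 = true :=
  ⟨by decide +kernel, by decide +kernel, by decide +kernel, by decide +kernel, by decide +kernel, by decide +kernel, by decide +kernel, by decide +kernel⟩

def t26095 : allY (E.wth (lkp [])) l26095 = true ∧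
    allY (E.wth (lkp [])) l26096 = true ∧
    allY (E.wth (lkp [])) l26097 = true ∧
    allY (E.wth (lkp [])) l26098 = true ∧
    allY (E.wth (lkp [])) l26099 = true ∧
    allY (E.wth (lkp [])) l26100 = true ∧
    allY (E.wth (lkp [])) l26101 = true ∧
    allY (E.wth (lkp [])) l26102 = true :=
  ⟨by decide +kernel, by decide +kernel, by decide +kernel, by decide +kernel, by decide +kernel, by decide +kernel, by decide +kernel, by decide +kernel⟩

def t26103 : allY (E.wth (lkp [])) l26103 = true ∧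
    allY (E.wth (lkp [])) l26104 = true ∧
    allY (E.wth (lkp [])) l26105 = true ∧
    allY (E.wth (lkp [])) l26106 = true ∧
    allY (E.wth (lkp [])) l26107 = true ∧
    allY (E.wth (lkp [])) l26108 = true ∧
    allY (E.wth (lkp [])) l26109 = true ∧
    allY (E.wth (lkp [])) l26110 = true :=
  ⟨by decide +kernel, by decide +kernel, by decide +kernel, by decide +kernel, by decide +kernel, by decide +kernel, by decide +kernel, by decide +kernel⟩

def t26111 : allY (E.wth (lkp [])) l26111 = true ∧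
    allY (E.wth (lkp [])) l26112 = true ∧
    allY (E.wth (lkp [])) l26113 = true ∧
    allY (E.wth (lkp [])) l26114 = true ∧
    allY (E.wth (lkp [])) l26115 = true ∧
    allY (E.wth (lkp [])) l26116 = true ∧
    allY (E.wth (lkp [])) l26117 = true ∧
    allY (E.wth (lkp [])) l26118 = true :=
  ⟨by decide +kernel, by decide +kernel, by decide +kernel, by decide +kernel, by decide +kernel, by decide +kernel, by decide +kernel, by decide +kernel⟩

def t26119 : allY (E.wth (lkp [])) l26119 = true ∧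
    allY (E.wth (lkp [])) l26120 = true ∧
    allY (E.wth (lkp [])) l26121 = true ∧
    allY (E.wth (lkp [])) l26122 = true ∧
    allY (E.wth (lkp [])) l26123 = true ∧
    allY (E.wth (lkp [])) l26124 = true ∧
    allY (E.wth (lkp [])) l26125 = true ∧
    allY (E.wth (lkp [])) l26126 = true :=
  ⟨by decide +kernel, by decide +kernel, by decide +kernel, by decide +kernel, by decide +kernel, by decide +kernel, by decide +kernel, by decide +kernel⟩

def t26127 : allY (E.wth (lkp [])) l26127 = true ∧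
    allY (E.wth (lkp [])) l26128 = true ∧
    allY (E.wth (lkp [])) l26129 = true ∧
    allY (E.wth (lkp [])) l26130 = true ∧
    allY (E.wth (lkp [])) l26131 = true ∧
    allY (E.wth (lkp [])) l26132 = true ∧
    allY (E.wth (lkp [])) l26133 = true ∧
    allY (E.wth (lkp [])) l26134 = true :=
  ⟨by decide +kernel, by decide +kernel, by decide +kernel, by decide +kernel, by decide +kernel, by decide +kernel, by decide +kernel, by decide +kernel⟩

def t26135 : allY (E.wth (lkp [])) l26135 = true ∧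
    allY (E.wth (lkp [])) l26136 = true ∧
    allY (E.wth (lkp [])) l26137 = true ∧
    allY (E.wth (lkp [])) l26138 = true ∧
    allY (E.wth (lkp [])) l26139 = true ∧
    allY (E.wth (lkp [])) l26140 = true ∧
    allY (E.wth (lkp [])) l26141 = true ∧
    allY (E.wth (lkp [])) l26142 = true :=
  ⟨by decide +kernel, by decide +kernel, by decide +kernel, by decide +kernel, by decide +kernel, by decide +kernel, by decide +kernel, by decide +kernel⟩

def t26143 : allY (E.wth (lkp [])) l26143 = true ∧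
    allY (E.wth (lkp [])) l26144 = true ∧
    allY (E.wth (lkp [])) l26145 = true ∧
    allY (E.wth (lkp [])) l26146 = true ∧
    allY (E.wth (lkp [])) l26147 = true ∧
    allY (E.wth (lkp [])) l26148 = true ∧
    allY (E.wth (lkp [])) l26149 = true ∧
    allY (E.wth (lkp [])) l26150 = true :=
  ⟨by decide +kernel, by decide +kernel, by decide +kernel, by decide +kernel, by decide +kernel, by decide +kernel, by decide +kernel, by decide +kernel⟩

def t26151 : allY (E.wth (lkp [])) l26151 = true ∧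
    allY (E.wth (lkp [])) l26152 = true ∧
    allY (E.wth (lkp [])) l26153 = true ∧
    allY (E.wth (lkp [])) l26154 = true ∧
    allY (E.wth (lkp [])) l26155 = true ∧
    allY (E.wth (lkp [])) l26156 = true ∧
    allY (E.wth (lkp [])) l26157 = true ∧
    allY (E.wth (lkp [])) l26158 = true :=
  ⟨by decide +kernel, by decide +kernel, by decide +kernel, by decide +kernel, by decide +kernel, by decide +kernel, by decide +kernel, by decide +kernel⟩

def t26159 : allY (E.wth (lkp [])) l26159 = true ∧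
    allY (E.wth (lkp [])) l26160 = true ∧
    allY (E.wth (lkp [])) l26161 = true ∧
    allY (E.wth (lkp [])) l26162 = true ∧
    allY (E.wth (lkp [])) l26163 = true ∧
    allY (E.wth (lkp [])) l26164 = true ∧
    allY (E.wth (lkp [])) l26165 = true ∧
    allY (E.wth (lkp [])) l26166 = true :=
  ⟨by decide +kernel, by decide +kernel, by decide +kernel, by decide +kernel, by decide +kernel, by decide +kernel, by decide +kernel, by decide +kernel⟩

def t26167 : allY (E.wth (lkp [])) l26167 = true ∧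
    allY (E.wth (lkp [])) l26168 = true ∧
    allY (E.wth (lkp [])) l26169 = true ∧
    allY (E.wth (lkp [])) l26170 = true ∧
    allY (E.wth (lkp [])) l26171 = true ∧
    allY (E.wth (lkp [])) l26172 = true ∧
    allY (E.wth (lkp [])) l26173 = true ∧
    allY (E.wth (lkp [])) l26174 = true :=
  ⟨by decide +kernel, by decide +kernel, by decide +kernel, by decide +kernel, by decide +kernel, by decide +kernel, by decide +kernel, by decide +kernel⟩

def t26175 : allY (E.wth (lkp [])) l26175 = true ∧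
    allY (E.wth (lkp [])) l26176 = true ∧
    allY (E.wth (lkp [])) l26177 = true ∧
    allY (E.wth (lkp [])) l26178 = true ∧
    allY (E.wth (lkp [])) l26179 = true ∧
    allY (E.wth (lkp [])) l26180 = true ∧
    allY (E.wth (lkp [])) l26181 = true ∧
    allY (E.wth (lkp [])) l26182 = true :=
  ⟨by decide +kernel, by decide +kernel, by decide +kernel, by decide +kernel, by decide +kernel, by decide +kernel, by decide +kernel, by decide +kernel⟩

def t26183 : allY (E.wth (lkp [])) l26183 = true ∧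
    allY (E.wth (lkp [])) l26184 = true ∧
    allY (E.wth (lkp [])) l26185 = true ∧
    allY (E.wth (lkp [])) l26186 = true ∧
    allY (E.wth (lkp [])) l26187 = true ∧
    allY (E.wth (lkp [])) l26188 = true ∧
    allY (E.wth (lkp [])) l26189 = true ∧
    allY (E.wth (lkp [])) l26190 = true :=
  ⟨by decide +kernel, by decide +kernel, by decide +kernel, by decide +kernel, by decide +kernel, by decide +kernel, by decide +kernel, by decide +kernel⟩

def t26191 : allY (E.wth (lkp [])) l26191 = true ∧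
    allY (E.wth (lkp [])) l26192 = true ∧
    allY (E.wth (lkp [])) l26193 = true ∧
    allY (E.wth (lkp [])) l26194 = true ∧
    allY (E.wth (lkp [])) l26195 = true ∧
    allY (E.wth (lkp [])) l26196 = true ∧
    allY (E.wth (lkp [])) l26197 = true ∧
    allY (E.wth (lkp [])) l26198 = true :=
  ⟨by decide +kernel, by decide +kernel, by decide +kernel, by decide +kernel, by decide +kernel, by decide +kernel, by decide +kernel, by decide +kernel⟩

def t26199 : allY (E.wth (lkp [])) l26199 = true ∧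
    allY (E.wth (lkp [])) l26200 = true ∧
    allY (E.wth (lkp [])) l26201 = true ∧
    allY (E.wth (lkp [])) l26202 = true ∧
    allY (E.wth (lkp [])) l26203 = true ∧
    allY (E.wth (lkp [])) l26204 = true ∧
    allY (E.wth (lkp [])) l26205 = true ∧
    allY (E.wth (lkp [])) l26206 = true :=
  ⟨by decide +kernel, by decide +kernel, by decide +kernel, by decide +kernel, by decide +kernel, by decide +kernel, by decide +kernel, by decide +kernel⟩

def t26207 : allY (E.wth (lkp [])) l26207 = true ∧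
    allY (E.wth (lkp [])) l26208 = true ∧
    allY (E.wth (lkp [])) l26209 = true ∧
    allY (E.wth (lkp [])) l26210 = true ∧
    allY (E.wth (lkp [])) l26211 = true ∧
    allY (E.wth (lkp [])) l26212 = true ∧
    allY (E.wth (lkp [])) l26213 = true ∧
    allY (E.wth (lkp [])) l26214 = true :=
  ⟨by decide +kernel, by decide +kernel, by decide +kernel, by decide +kernel, by decide +kernel, by decide +kernel, by decide +kernel, by decide +kernel⟩

def t26215 : allY (E.wth (lkp [])) l26215 = true ∧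
    allY (E.wth (lkp [])) l26216 = true ∧
    allY (E.wth (lkp [])) l26217 = true ∧
    allY (E.wth (lkp [])) l26218 = true ∧
    allY (E.wth (lkp [])) l26219 = true ∧
    allY (E.wth (lkp [])) l26220 = true ∧
    allY (E.wth (lkp [])) l26221 = true ∧
    allY (E.wth (lkp [])) l26222 = true :=
  ⟨by decide +kernel, by decide +kernel, by decide +kernel, by decide +kernel, by decide +kernel, by decide +kernel, by decide +kernel, by decide +kernel⟩

def t26223 : allY (E.wth (lkp [])) l26223 = true ∧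
    allY (E.wth (lkp [])) l26224 = true ∧
    allY (E.wth (lkp [])) l26225 = true ∧
    allY (E.wth (lkp [])) l26226 = true ∧
    allY (E.wth (lkp [])) l26227 = true ∧
    allY (E.wth (lkp [])) l26228 = true ∧
    allY (E.wth (lkp [])) l26229 = true ∧
    allY (E.wth (lkp [])) l26230 = true :=
  ⟨by decide +kernel, by decide +kernel, by decide +kernel, by decide +kernel, by decide +kernel, by decide +kernel, by decide +kernel, by decide +kernel⟩

def t26231 : allY (E.wth (lkp [])) l26231 = true ∧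
    allY (E.wth (lkp [])) l26232 = true ∧
    allY (E.wth (lkp [])) l26233 = true ∧
    allY (E.wth (lkp [])) l26234 = true ∧
    allY (E.wth (lkp [])) l26235 = true ∧
    allY (E.wth (lkp [])) l26236 = true ∧
    allY (E.wth (lkp [])) l26237 = true ∧
    allY (E.wth (lkp [])) l26238 = true :=
  ⟨by decide +kernel, by decide +kernel, by decide +kernel, by decide +kernel, by decide +kernel, by decide +kernel, by decide +kernel, by decide +kernel⟩

def t26239 : allY (E.wth (lkp [])) l26239 = true ∧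
    allY (E.wth (lkp [])) l26240 = true ∧
    allY (E.wth (lkp [])) l26241 = true ∧
    allY (E.wth (lkp [])) l26242 = true ∧
    allY (E.wth (lkp [])) l26243 = true ∧
    allY (E.wth (lkp [])) l26244 = true ∧
    allY (E.wth (lkp [])) l26245 = true ∧
    allY (E.wth (lkp [])) l26246 = true :=
  ⟨by decide +kernel, by decide +kernel, by decide +kernel, by decide +kernel, by decide +kernel, by decide +kernel, by decide +kernel, by decide +kernel⟩

def t26247 : allY (E.wth (lkp [])) l26247 = true ∧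
    allY (E.wth (lkp [])) l26248 = true ∧
    allY (E.wth (lkp [])) l26249 = true ∧
    allY (E.wth (lkp [])) l26250 = true ∧
    allY (E.wth (lkp [])) l26251 = true ∧
    allY (E.wth (lkp [])) l26252 = true ∧
    allY (E.wth (lkp [])) l26253 = true ∧
    allY (E.wth (lkp [])) l26254 = true :=
  ⟨by decide +kernel, by decide +kernel, by decide +kernel, by decide +kernel, by decide +kernel, by decide +kernel, by decide +kernel, by decide +kernel⟩

def t26255 : allY (E.wth (lkp [])) l26255 = true ∧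
    allY (E.wth (lkp [])) l26256 = true ∧
    allY (E.wth (lkp [])) l26257 = true ∧
    allY (E.wth (lkp [])) l26258 = true ∧
    allY (E.wth (lkp [])) l26259 = true ∧
    allY (E.wth (lkp [])) l26260 = true ∧
    allY (E.wth (lkp [])) l26261 = true ∧
    allY (E.wth (lkp [])) l26262 = true :=
  ⟨by decide +kernel, by decide +kernel, by decide +kernel, by decide +kernel, by decide +kernel, by decide +kernel, by decide +kernel, by decide +kernel⟩

def t26263 : allY (E.wth (lkp [])) l26263 = true ∧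
    allY (E.wth (lkp [])) l26264 = true ∧
    allY (E.wth (lkp [])) l26265 = true ∧
    allY (E.wth (lkp [])) l26266 = true ∧
    allY (E.wth (lkp [])) l26267 = true ∧
    allY (E.wth (lkp [])) l26268 = true ∧
    allY (E.wth (lkp [])) l26269 = true ∧
    allY (E.wth (lkp [])) l26270 = true :=
  ⟨by decide +kernel, by decide +kernel, by decide +kernel, by decide +kernel, by decide +kernel, by decide +kernel, by decide +kernel, by decide +kernel⟩

def t26271 : allY (E.wth (lkp [])) l26271 = true ∧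
    allY (E.wth (lkp [])) l26272 = true ∧
    allY (E.wth (lkp [])) l26273 = true ∧
    allY (E.wth (lkp [])) l26274 = true ∧
    allY (E.wth (lkp [])) l26275 = true ∧
    allY (E.wth (lkp [])) l26276 = true ∧
    allY (E.wth (lkp [])) l26277 = true ∧
    allY (E.wth (lkp [])) l26278 = true :=
  ⟨by decide +kernel, by decide +kernel, by decide +kernel, by decide +kernel, by decide +kernel, by decide +kernel, by decide +kernel, by decide +kernel⟩

def t26279 : allY (E.wth (lkp [])) l26279 = true ∧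
    allY (E.wth (lkp [])) l26280 = true ∧
    allY (E.wth (lkp [])) l26281 = true ∧
    allY (E.wth (lkp [])) l26282 = true ∧
    allY (E.wth (lkp [])) l26283 = true ∧
    allY (E.wth (lkp [])) l26284 = true ∧
    allY (E.wth (lkp [])) l26285 = true ∧
    allY (E.wth (lkp [])) l26286 = true :=
  ⟨by decide +kernel, by decide +kernel, by decide +kernel, by decide +kernel, by decide +kernel, by decide +kernel, by decide +kernel, by decide +kernel⟩

def t26287 : allY (E.wth (lkp [])) l26287 = true ∧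
    allY (E.wth (lkp [])) l26288 = true ∧
    allY (E.wth (lkp [])) l26289 = true ∧
    allY (E.wth (lkp [])) l26290 = true ∧
    allY (E.wth (lkp [])) l26291 = true ∧
    allY (E.wth (lkp [])) l26292 = true ∧
    allY (E.wth (lkp [])) l26293 = true ∧
    allY (E.wth (lkp [])) l26294 = true :=
  ⟨by decide +kernel, by decide +kernel, by decide +kernel, by decide +kernel, by decide +kernel, by decide +kernel, by decide +kernel, by decide +kernel⟩

def t26295 : allY (E.wth (lkp [])) l26295 = true ∧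
    allY (E.wth (lkp [])) l26296 = true ∧
    allY (E.wth (lkp [])) l26297 = true ∧
    allY (E.wth (lkp [])) l26298 = true ∧
    allY (E.wth (lkp [])) l26299 = true ∧
    allY (E.wth (lkp [])) l26300 = true ∧
    allY (E.wth (lkp [])) l26301 = true ∧
    allY (E.wth (lkp [])) l26302 = true :=
  ⟨by decide +kernel, by decide +kernel, by decide +kernel, by decide +kernel, by decide +kernel, by decide +kernel, by decide +kernel, by decide +kernel⟩

def t26303 : allY (E.wth (lkp [])) l26303 = true ∧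
    allY (E.wth (lkp [])) l26304 = true ∧
    allY (E.wth (lkp [])) l26305 = true ∧
    allY (E.wth (lkp [])) l26306 = true ∧
    allY (E.wth (lkp [])) l26307 = true ∧
    allY (E.wth (lkp [])) l26308 = true :=
  ⟨by decide +kernel, by decide +kernel, by decide +kernel, by decide +kernel, by decide +kernel, by decide +kernel⟩

theorem a46 {p : Rf → Prop} (H : ∀ l, allY (E.wth (lkp [])) l = true → (lkp l).All p) :
    b46.All p := ⟨⟨⟨⟨⟨⟨⟨⟨⟨H _ t25751.1, H _ t25751.2.1⟩, ⟨H _ t25751.2.2.1, H _ t25751.2.2.2.1⟩⟩, ⟨⟨H _ t25751.2.2.2.2.1, H _ t25751.2.2.2.2.2.1⟩, ⟨H _ t25751.2.2.2.2.2.2.1, H _ t25751.2.2.2.2.2.2.2⟩⟩⟩, ⟨⟨⟨H _ t25759.1, H _ t25759.2.1⟩, ⟨H _ t25759.2.2.1, H _ t25759.2.2.2.1⟩⟩, ⟨⟨H _ t25759.2.2.2.2.1, H _ t25759.2.2.2.2.2.1⟩, ⟨H _ t25759.2.2.2.2.2.2.1, ⟨H _ t25759.2.2.2.2.2.2.2, H _ t25767.1⟩⟩⟩⟩⟩, ⟨⟨⟨⟨H _ t25767.2.1, H _ t25767.2.2.1⟩, ⟨H _ t25767.2.2.2.1, H _ t25767.2.2.2.2.1⟩⟩, ⟨⟨H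 _ t25767.2.2.2.2.2.1, H _ t25767.2.2.2.2.2.2.1⟩, ⟨H _ t25767.2.2.2.2.2.2.2, H _ t25775.1⟩⟩⟩, ⟨⟨⟨H _ t25775.2.1, H _ t25775.2.2.1⟩, ⟨H _ t25775.2.2.2.1, H _ t25775.2.2.2.2.1⟩⟩, ⟨⟨H _ t25775.2.2.2.2.2.1, H _ t25775.2.2.2.2.2.2.1⟩, ⟨H _ t25775.2.2.2.2.2.2.2, ⟨H _ t25783.1, H _ t25783.2.1⟩⟩⟩⟩⟩⟩, ⟨⟨⟨⟨⟨H _ t25783.2.2.1, H _ t25783.2.2.2.1⟩, ⟨H _ t25783.2.2.2.2.1, H _ t25783.2.2.2.2.2.1⟩⟩, ⟨⟨H _ t25783.2.2.2.2.2.2.1, H _ t25783.2.2.2.2.2.2.2⟩, ⟨H _ t25791.1, H _ t25791.2.1⟩⟩⟩, ⟨⟨⟨H _ t25791.2.2.1, H _ t25791.2.2.2.1⟩, ⟨H _ t25791.2.2.2.2.1, H _ t25791.2.2.2.2.2.1⟩⟩, ⟨⟨H _ t25791.2.2.2.2.2.2.1, H _ t25791.2.2.2.2.2.2.2⟩, ⟨H _ t25799.1, ⟨H _ t25799.2.1, H _ t25799.2.2.1⟩⟩⟩⟩⟩, ⟨⟨⟨⟨H _ t25799.2.2.2.1, H _ t25799.2.2.2.2.1⟩, ⟨H _ t25799.2.2.2.2.2.1, H _ t25799.2.2.2.2.2.2.1⟩⟩, ⟨⟨H _ t25799.2.2.2.2.2.2.2, H _ t25807.1⟩, ⟨H _ t25807.2.1, ⟨H _ t25807.2.2.1, H _ t25807.2.2.2.1⟩⟩⟩⟩, ⟨⟨⟨H _ t25807.2.2.2.2.1, H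 _ t25807.2.2.2.2.2.1⟩, ⟨H _ t25807.2.2.2.2.2.2.1, H _ t25807.2.2.2.2.2.2.2⟩⟩, ⟨⟨H _ t25815.1, H _ t25815.2.1⟩, ⟨H _ t25815.2.2.1, ⟨H _ t25815.2.2.2.1, H _ t25815.2.2.2.2.1⟩⟩⟩⟩⟩⟩⟩, ⟨⟨⟨⟨⟨⟨H _ t25815.2.2.2.2.2.1, H _ t25815.2.2.2.2.2.2.1⟩, ⟨H _ t25815.2.2.2.2.2.2.2, H _ t25823.1⟩⟩, ⟨⟨H _ t25823.2.1, H _ t25823.2.2.1⟩, ⟨H _ t25823.2.2.2.1, H _ t25823.2.2.2.2.1⟩⟩⟩, ⟨⟨⟨H _ t25823.2.2.2.2.2.1, H _ t25823.2.2.2.2.2.2.1⟩, ⟨H _ t25823.2.2.2.2.2.2.2, H _ t25831.1⟩⟩, ⟨⟨H _ t25831.2.1, H _ t25831.2.2.1⟩, ⟨H _ t25831.2.2.2.1, ⟨H _ t25831.2.2.2.2.1, H _ t25831.2.2.2.2.2.1⟩⟩⟩⟩⟩, ⟨⟨⟨⟨H _ t25831.2.2.2.2.2.2.1, H _ t25831.2.2.2.2.2.2.2⟩, ⟨H _ t25839.1, H _ t25839.2.1⟩⟩, ⟨⟨H _ t25839.2.2.1, H _ t25839.2.2.2.1⟩, ⟨H _ t25839.2.2.2.2.1, ⟨H _ t25839.2.2.2.2.2.1, H _ t25839.2.2.2.2.2.2.1⟩⟩⟩⟩, ⟨⟨⟨H _ t25839.2.2.2.2.2.2.2, H _ t25847.1⟩, ⟨H _ t25847.2.1, H _ t25847.2.2.1⟩⟩, ⟨⟨H _ t25847.2.2.2.1, H _ t25847.2.2.2.2.1⟩,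 ⟨H _ t25847.2.2.2.2.2.1, ⟨H _ t25847.2.2.2.2.2.2.1, H _ t25847.2.2.2.2.2.2.2⟩⟩⟩⟩⟩⟩, ⟨⟨⟨⟨⟨H _ t25855.1, H _ t25855.2.1⟩, ⟨H _ t25855.2.2.1, H _ t25855.2.2.2.1⟩⟩, ⟨⟨H _ t25855.2.2.2.2.1, H _ t25855.2.2.2.2.2.1⟩, ⟨H _ t25855.2.2.2.2.2.2.1, H _ t25855.2.2.2.2.2.2.2⟩⟩⟩, ⟨⟨⟨H _ t25863.1, H _ t25863.2.1⟩, ⟨H _ t25863.2.2.1, H _ t25863.2.2.2.1⟩⟩, ⟨⟨H _ t25863.2.2.2.2.1, H _ t25863.2.2.2.2.2.1⟩, ⟨H _ t25863.2.2.2.2.2.2.1, ⟨H _ t25863.2.2.2.2.2.2.2, H _ t25871.1⟩⟩⟩⟩⟩, ⟨⟨⟨⟨H _ t25871.2.1, H _ t25871.2.2.1⟩, ⟨H _ t25871.2.2.2.1, H _ t25871.2.2.2.2.1⟩⟩, ⟨⟨H _ t25871.2.2.2.2.2.1, H _ t25871.2.2.2.2.2.2.1⟩, ⟨H _ t25871.2.2.2.2.2.2.2, ⟨H _ t25879.1, H _ t25879.2.1⟩⟩⟩⟩, ⟨⟨⟨H _ t25879.2.2.1, H _ t25879.2.2.2.1⟩, ⟨H _ t25879.2.2.2.2.1, H _ t25879.2.2.2.2.2.1⟩⟩, ⟨⟨H _ t25879.2.2.2.2.2.2.1, H _ t25879.2.2.2.2.2.2.2⟩, ⟨H _ t25887.1, ⟨H _ t25887.2.1, H _ t25887.2.2.1⟩⟩⟩⟩⟩⟩⟩⟩, ⟨⟨⟨⟨⟨⟨⟨H _ t25887.2.2.2.1, H _ t25887.2.2.2.2.1⟩,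 ⟨H _ t25887.2.2.2.2.2.1, H _ t25887.2.2.2.2.2.2.1⟩⟩, ⟨⟨H _ t25887.2.2.2.2.2.2.2, H _ t25895.1⟩, ⟨H _ t25895.2.1, H _ t25895.2.2.1⟩⟩⟩, ⟨⟨⟨H _ t25895.2.2.2.1, H _ t25895.2.2.2.2.1⟩, ⟨H _ t25895.2.2.2.2.2.1, H _ t25895.2.2.2.2.2.2.1⟩⟩, ⟨⟨H _ t25895.2.2.2.2.2.2.2, H _ t25903.1⟩, ⟨H _ t25903.2.1, ⟨H _ t25903.2.2.1, H _ t25903.2.2.2.1⟩⟩⟩⟩⟩, ⟨⟨⟨⟨H _ t25903.2.2.2.2.1, H _ t25903.2.2.2.2.2.1⟩, ⟨H _ t25903.2.2.2.2.2.2.1, H _ t25903.2.2.2.2.2.2.2⟩⟩, ⟨⟨H _ t25911.1, H _ t25911.2.1⟩, ⟨H _ t25911.2.2.1, ⟨H _ t25911.2.2.2.1, H _ t25911.2.2.2.2.1⟩⟩⟩⟩, ⟨⟨⟨H _ t25911.2.2.2.2.2.1, H _ t25911.2.2.2.2.2.2.1⟩, ⟨H _ t25911.2.2.2.2.2.2.2, H _ t25919.1⟩⟩, ⟨⟨H _ t25919.2.1, H _ t25919.2.2.1⟩, ⟨H _ t25919.2.2.2.1, ⟨H _ t25919.2.2.2.2.1, H _ t25919.2.2.2.2.2.1⟩⟩⟩⟩⟩⟩, ⟨⟨⟨⟨⟨H _ t25919.2.2.2.2.2.2.1, H _ t25919.2.2.2.2.2.2.2⟩, ⟨H _ t25927.1, H _ t25927.2.1⟩⟩, ⟨⟨H _ t25927.2.2.1, H _ t25927.2.2.2.1⟩, ⟨H _ t25927.2.2.2.2.1,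 H _ t25927.2.2.2.2.2.1⟩⟩⟩, ⟨⟨⟨H _ t25927.2.2.2.2.2.2.1, H _ t25927.2.2.2.2.2.2.2⟩, ⟨H _ t25935.1, H _ t25935.2.1⟩⟩, ⟨⟨H _ t25935.2.2.1, H _ t25935.2.2.2.1⟩, ⟨H _ t25935.2.2.2.2.1, ⟨H _ t25935.2.2.2.2.2.1, H _ t25935.2.2.2.2.2.2.1⟩⟩⟩⟩⟩, ⟨⟨⟨⟨H _ t25935.2.2.2.2.2.2.2, H _ t25943.1⟩, ⟨H _ t25943.2.1, H _ t25943.2.2.1⟩⟩, ⟨⟨H _ t25943.2.2.2.1, H _ t25943.2.2.2.2.1⟩, ⟨H _ t25943.2.2.2.2.2.1, ⟨H _ t25943.2.2.2.2.2.2.1, H _ t25943.2.2.2.2.2.2.2⟩⟩⟩⟩, ⟨⟨⟨H _ t25951.1, H _ t25951.2.1⟩, ⟨H _ t25951.2.2.1, H _ t25951.2.2.2.1⟩⟩, ⟨⟨H _ t25951.2.2.2.2.1, H _ t25951.2.2.2.2.2.1⟩, ⟨H _ t25951.2.2.2.2.2.2.1, ⟨H _ t25951.2.2.2.2.2.2.2, H _ t25959.1⟩⟩⟩⟩⟩⟩⟩, ⟨⟨⟨⟨⟨⟨H _ t25959.2.1, H _ t25959.2.2.1⟩, ⟨H _ t25959.2.2.2.1, H _ t25959.2.2.2.2.1⟩⟩, ⟨⟨H _ t25959.2.2.2.2.2.1, H _ t25959.2.2.2.2.2.2.1⟩, ⟨H _ t25959.2.2.2.2.2.2.2, H _ t25967.1⟩⟩⟩, ⟨⟨⟨H _ t25967.2.1, H _ t25967.2.2.1⟩, ⟨H _ t25967.2.2.2.1, H _ t25967.2.2.2.2.1⟩⟩,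 ⟨⟨H _ t25967.2.2.2.2.2.1, H _ t25967.2.2.2.2.2.2.1⟩, ⟨H _ t25967.2.2.2.2.2.2.2, ⟨H _ t25975.1, H _ t25975.2.1⟩⟩⟩⟩⟩, ⟨⟨⟨⟨H _ t25975.2.2.1, H _ t25975.2.2.2.1⟩, ⟨H _ t25975.2.2.2.2.1, H _ t25975.2.2.2.2.2.1⟩⟩, ⟨⟨H _ t25975.2.2.2.2.2.2.1, H _ t25975.2.2.2.2.2.2.2⟩, ⟨H _ t25983.1, ⟨H _ t25983.2.1, H _ t25983.2.2.1⟩⟩⟩⟩, ⟨⟨⟨H _ t25983.2.2.2.1, H _ t25983.2.2.2.2.1⟩, ⟨H _ t25983.2.2.2.2.2.1, H _ t25983.2.2.2.2.2.2.1⟩⟩, ⟨⟨H _ t25983.2.2.2.2.2.2.2, H _ t25991.1⟩, ⟨H _ t25991.2.1, ⟨H _ t25991.2.2.1, H _ t25991.2.2.2.1⟩⟩⟩⟩⟩⟩, ⟨⟨⟨⟨⟨H _ t25991.2.2.2.2.1, H _ t25991.2.2.2.2.2.1⟩, ⟨H _ t25991.2.2.2.2.2.2.1, H _ t25991.2.2.2.2.2.2.2⟩⟩, ⟨⟨H _ t25999.1, H _ t25999.2.1⟩, ⟨H _ t25999.2.2.1, H _ t25999.2.2.2.1⟩⟩⟩, ⟨⟨⟨H _ t25999.2.2.2.2.1, H _ t25999.2.2.2.2.2.1⟩, ⟨H _ t25999.2.2.2.2.2.2.1, H _ t25999.2.2.2.2.2.2.2⟩⟩, ⟨⟨H _ t26007.1, H _ t26007.2.1⟩, ⟨H _ t26007.2.2.1, ⟨H _ t26007.2.2.2.1, H _ t26007.2.2.2.2.1⟩⟩⟩⟩⟩,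 ⟨⟨⟨⟨H _ t26007.2.2.2.2.2.1, H _ t26007.2.2.2.2.2.2.1⟩, ⟨H _ t26007.2.2.2.2.2.2.2, H _ t26015.1⟩⟩, ⟨⟨H _ t26015.2.1, H _ t26015.2.2.1⟩, ⟨H _ t26015.2.2.2.1, ⟨H _ t26015.2.2.2.2.1, H _ t26015.2.2.2.2.2.1⟩⟩⟩⟩, ⟨⟨⟨H _ t26015.2.2.2.2.2.2.1, H _ t26015.2.2.2.2.2.2.2⟩, ⟨H _ t26023.1, H _ t26023.2.1⟩⟩, ⟨⟨H _ t26023.2.2.1, H _ t26023.2.2.2.1⟩, ⟨H _ t26023.2.2.2.2.1, ⟨H _ t26023.2.2.2.2.2.1, H _ t26023.2.2.2.2.2.2.1⟩⟩⟩⟩⟩⟩⟩⟩⟩, ⟨⟨⟨⟨⟨⟨⟨⟨H _ t26023.2.2.2.2.2.2.2, H _ t26031.1⟩, ⟨H _ t26031.2.1, H _ t26031.2.2.1⟩⟩, ⟨⟨H _ t26031.2.2.2.1, H _ t26031.2.2.2.2.1⟩, ⟨H _ t26031.2.2.2.2.2.1, H _ t26031.2.2.2.2.2.2.1⟩⟩⟩, ⟨⟨⟨H _ t26031.2.2.2.2.2.2.2, H _ t26039.1⟩, ⟨H _ t26039.2.1, H _ t26039.2.2.1⟩⟩, ⟨⟨H _ t26039.2.2.2.1, H _ t26039.2.2.2.2.1⟩, ⟨H _ t26039.2.2.2.2.2.1, ⟨H _ t26039.2.2.2.2.2.2.1, H _ t26039.2.2.2.2.2.2.2⟩⟩⟩⟩⟩, ⟨⟨⟨⟨H _ t26047.1, H _ t26047.2.1⟩, ⟨H _ t26047.2.2.1, H _ t26047.2.2.2.1⟩⟩, ⟨⟨H _ t26047.2.2.2.2.1,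 H _ t26047.2.2.2.2.2.1⟩, ⟨H _ t26047.2.2.2.2.2.2.1, H _ t26047.2.2.2.2.2.2.2⟩⟩⟩, ⟨⟨⟨H _ t26055.1, H _ t26055.2.1⟩, ⟨H _ t26055.2.2.1, H _ t26055.2.2.2.1⟩⟩, ⟨⟨H _ t26055.2.2.2.2.1, H _ t26055.2.2.2.2.2.1⟩, ⟨H _ t26055.2.2.2.2.2.2.1, ⟨H _ t26055.2.2.2.2.2.2.2, H _ t26063.1⟩⟩⟩⟩⟩⟩, ⟨⟨⟨⟨⟨H _ t26063.2.1, H _ t26063.2.2.1⟩, ⟨H _ t26063.2.2.2.1, H _ t26063.2.2.2.2.1⟩⟩, ⟨⟨H _ t26063.2.2.2.2.2.1, H _ t26063.2.2.2.2.2.2.1⟩, ⟨H _ t26063.2.2.2.2.2.2.2, H _ t26071.1⟩⟩⟩, ⟨⟨⟨H _ t26071.2.1, H _ t26071.2.2.1⟩, ⟨H _ t26071.2.2.2.1, H _ t26071.2.2.2.2.1⟩⟩, ⟨⟨H _ t26071.2.2.2.2.2.1, H _ t26071.2.2.2.2.2.2.1⟩, ⟨H _ t26071.2.2.2.2.2.2.2, ⟨H _ t26079.1, H _ t26079.2.1⟩⟩⟩⟩⟩, ⟨⟨⟨⟨H _ t26079.2.2.1, H _ t26079.2.2.2.1⟩, ⟨H _ t26079.2.2.2.2.1, H _ t26079.2.2.2.2.2.1⟩⟩, ⟨⟨H _ t26079.2.2.2.2.2.2.1, H _ t26079.2.2.2.2.2.2.2⟩, ⟨H _ t26087.1, ⟨H _ t26087.2.1, H _ t26087.2.2.1⟩⟩⟩⟩, ⟨⟨⟨H _ t26087.2.2.2.1, H _ t26087.2.2.2.2.1⟩,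 ⟨H _ t26087.2.2.2.2.2.1, H _ t26087.2.2.2.2.2.2.1⟩⟩, ⟨⟨H _ t26087.2.2.2.2.2.2.2, H _ t26095.1⟩, ⟨H _ t26095.2.1, ⟨H _ t26095.2.2.1, H _ t26095.2.2.2.1⟩⟩⟩⟩⟩⟩⟩, ⟨⟨⟨⟨⟨⟨H _ t26095.2.2.2.2.1, H _ t26095.2.2.2.2.2.1⟩, ⟨H _ t26095.2.2.2.2.2.2.1, H _ t26095.2.2.2.2.2.2.2⟩⟩, ⟨⟨H _ t26103.1, H _ t26103.2.1⟩, ⟨H _ t26103.2.2.1, H _ t26103.2.2.2.1⟩⟩⟩, ⟨⟨⟨H _ t26103.2.2.2.2.1, H _ t26103.2.2.2.2.2.1⟩, ⟨H _ t26103.2.2.2.2.2.2.1, H _ t26103.2.2.2.2.2.2.2⟩⟩, ⟨⟨H _ t26111.1, H _ t26111.2.1⟩, ⟨H _ t26111.2.2.1, ⟨H _ t26111.2.2.2.1, H _ t26111.2.2.2.2.1⟩⟩⟩⟩⟩, ⟨⟨⟨⟨H _ t26111.2.2.2.2.2.1, H _ t26111.2.2.2.2.2.2.1⟩, ⟨H _ t26111.2.2.2.2.2.2.2, H _ t26119.1⟩⟩, ⟨⟨H _ t26119.2.1, H _ t26119.2.2.1⟩, ⟨H _ t26119.2.2.2.1, ⟨H _ t26119.2.2.2.2.1, H _ t26119.2.2.2.2.2.1⟩⟩⟩⟩, ⟨⟨⟨H _ t26119.2.2.2.2.2.2.1, H _ t26119.2.2.2.2.2.2.2⟩, ⟨H _ t26127.1, H _ t26127.2.1⟩⟩, ⟨⟨H _ t26127.2.2.1, H _ t26127.2.2.2.1⟩, ⟨H _ t26127.2.2.2.2.1,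 ⟨H _ t26127.2.2.2.2.2.1, H _ t26127.2.2.2.2.2.2.1⟩⟩⟩⟩⟩⟩, ⟨⟨⟨⟨⟨H _ t26127.2.2.2.2.2.2.2, H _ t26135.1⟩, ⟨H _ t26135.2.1, H _ t26135.2.2.1⟩⟩, ⟨⟨H _ t26135.2.2.2.1, H _ t26135.2.2.2.2.1⟩, ⟨H _ t26135.2.2.2.2.2.1, H _ t26135.2.2.2.2.2.2.1⟩⟩⟩, ⟨⟨⟨H _ t26135.2.2.2.2.2.2.2, H _ t26143.1⟩, ⟨H _ t26143.2.1, H _ t26143.2.2.1⟩⟩, ⟨⟨H _ t26143.2.2.2.1, H _ t26143.2.2.2.2.1⟩, ⟨H _ t26143.2.2.2.2.2.1, ⟨H _ t26143.2.2.2.2.2.2.1, H _ t26143.2.2.2.2.2.2.2⟩⟩⟩⟩⟩, ⟨⟨⟨⟨H _ t26151.1, H _ t26151.2.1⟩, ⟨H _ t26151.2.2.1, H _ t26151.2.2.2.1⟩⟩, ⟨⟨H _ t26151.2.2.2.2.1, H _ t26151.2.2.2.2.2.1⟩, ⟨H _ t26151.2.2.2.2.2.2.1, ⟨H _ t26151.2.2.2.2.2.2.2, H _ t26159.1⟩⟩⟩⟩, ⟨⟨⟨H _ t26159.2.1, H _ t26159.2.2.1⟩, ⟨H _ t26159.2.2.2.1, H _ t26159.2.2.2.2.1⟩⟩, ⟨⟨H _ t26159.2.2.2.2.2.1, H _ t26159.2.2.2.2.2.2.1⟩, ⟨H _ t26159.2.2.2.2.2.2.2, ⟨H _ t26167.1, H _ t26167.2.1⟩⟩⟩⟩⟩⟩⟩⟩, ⟨⟨⟨⟨⟨⟨⟨H _ t26167.2.2.1, H _ t26167.2.2.2.1⟩, ⟨H _ t26167.2.2.2.2.1,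 H _ t26167.2.2.2.2.2.1⟩⟩, ⟨⟨H _ t26167.2.2.2.2.2.2.1, H _ t26167.2.2.2.2.2.2.2⟩, ⟨H _ t26175.1, H _ t26175.2.1⟩⟩⟩, ⟨⟨⟨H _ t26175.2.2.1, H _ t26175.2.2.2.1⟩, ⟨H _ t26175.2.2.2.2.1, H _ t26175.2.2.2.2.2.1⟩⟩, ⟨⟨H _ t26175.2.2.2.2.2.2.1, H _ t26175.2.2.2.2.2.2.2⟩, ⟨H _ t26183.1, ⟨H _ t26183.2.1, H _ t26183.2.2.1⟩⟩⟩⟩⟩, ⟨⟨⟨⟨H _ t26183.2.2.2.1, H _ t26183.2.2.2.2.1⟩, ⟨H _ t26183.2.2.2.2.2.1, H _ t26183.2.2.2.2.2.2.1⟩⟩, ⟨⟨H _ t26183.2.2.2.2.2.2.2, H _ t26191.1⟩, ⟨H _ t26191.2.1, ⟨H _ t26191.2.2.1, H _ t26191.2.2.2.1⟩⟩⟩⟩, ⟨⟨⟨H _ t26191.2.2.2.2.1, H _ t26191.2.2.2.2.2.1⟩, ⟨H _ t26191.2.2.2.2.2.2.1, H _ t26191.2.2.2.2.2.2.2⟩⟩, ⟨⟨H _ t26199.1, H _ t26199.2.1⟩, ⟨H _ t26199.2.2.1, ⟨H _ t26199.2.2.2.1, H _ t26199.2.2.2.2.1⟩⟩⟩⟩⟩⟩, ⟨⟨⟨⟨⟨H _ t26199.2.2.2.2.2.1, H _ t26199.2.2.2.2.2.2.1⟩, ⟨H _ t26199.2.2.2.2.2.2.2, H _ t26207.1⟩⟩, ⟨⟨H _ t26207.2.1, H _ t26207.2.2.1⟩, ⟨H _ t26207.2.2.2.1, H _ t26207.2.2.2.2.1⟩⟩⟩,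 ⟨⟨⟨H _ t26207.2.2.2.2.2.1, H _ t26207.2.2.2.2.2.2.1⟩, ⟨H _ t26207.2.2.2.2.2.2.2, H _ t26215.1⟩⟩, ⟨⟨H _ t26215.2.1, H _ t26215.2.2.1⟩, ⟨H _ t26215.2.2.2.1, ⟨H _ t26215.2.2.2.2.1, H _ t26215.2.2.2.2.2.1⟩⟩⟩⟩⟩, ⟨⟨⟨⟨H _ t26215.2.2.2.2.2.2.1, H _ t26215.2.2.2.2.2.2.2⟩, ⟨H _ t26223.1, H _ t26223.2.1⟩⟩, ⟨⟨H _ t26223.2.2.1, H _ t26223.2.2.2.1⟩, ⟨H _ t26223.2.2.2.2.1, ⟨H _ t26223.2.2.2.2.2.1, H _ t26223.2.2.2.2.2.2.1⟩⟩⟩⟩, ⟨⟨⟨H _ t26223.2.2.2.2.2.2.2, H _ t26231.1⟩, ⟨H _ t26231.2.1, H _ t26231.2.2.1⟩⟩, ⟨⟨H _ t26231.2.2.2.1, H _ t26231.2.2.2.2.1⟩, ⟨H _ t26231.2.2.2.2.2.1, ⟨H _ t26231.2.2.2.2.2.2.1, H _ t26231.2.2.2.2.2.2.2⟩⟩⟩⟩⟩⟩⟩, ⟨⟨⟨⟨⟨⟨H _ t26239.1, H _ t26239.2.1⟩, ⟨H _ t26239.2.2.1, H _ t26239.2.2.2.1⟩⟩, ⟨⟨H _ t26239.2.2.2.2.1, H _ t26239.2.2.2.2.2.1⟩, ⟨H _ t26239.2.2.2.2.2.2.1, H _ t26239.2.2.2.2.2.2.2⟩⟩⟩, ⟨⟨⟨H _ t26247.1, H _ t26247.2.1⟩, ⟨H _ t26247.2.2.1, H _ t26247.2.2.2.1⟩⟩, ⟨⟨H _ t26247.2.2.2.2.1,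 H _ t26247.2.2.2.2.2.1⟩, ⟨H _ t26247.2.2.2.2.2.2.1, ⟨H _ t26247.2.2.2.2.2.2.2, H _ t26255.1⟩⟩⟩⟩⟩, ⟨⟨⟨⟨H _ t26255.2.1, H _ t26255.2.2.1⟩, ⟨H _ t26255.2.2.2.1, H _ t26255.2.2.2.2.1⟩⟩, ⟨⟨H _ t26255.2.2.2.2.2.1, H _ t26255.2.2.2.2.2.2.1⟩, ⟨H _ t26255.2.2.2.2.2.2.2, ⟨H _ t26263.1, H _ t26263.2.1⟩⟩⟩⟩, ⟨⟨⟨H _ t26263.2.2.1, H _ t26263.2.2.2.1⟩, ⟨H _ t26263.2.2.2.2.1, H _ t26263.2.2.2.2.2.1⟩⟩, ⟨⟨H _ t26263.2.2.2.2.2.2.1, H _ t26263.2.2.2.2.2.2.2⟩, ⟨H _ t26271.1, ⟨H _ t26271.2.1, H _ t26271.2.2.1⟩⟩⟩⟩⟩⟩, ⟨⟨⟨⟨⟨H _ t26271.2.2.2.1, H _ t26271.2.2.2.2.1⟩, ⟨H _ t26271.2.2.2.2.2.1, H _ t26271.2.2.2.2.2.2.1⟩⟩, ⟨⟨H _ t26271.2.2.2.2.2.2.2, H _ t26279.1⟩, ⟨H _ t26279.2.1, H _ t26279.2.2.1⟩⟩⟩, ⟨⟨⟨H _ t26279.2.2.2.1, H _ t26279.2.2.2.2.1⟩, ⟨H _ t26279.2.2.2.2.2.1, H _ t26279.2.2.2.2.2.2.1⟩⟩, ⟨⟨H _ t26279.2.2.2.2.2.2.2, H _ t26287.1⟩, ⟨H _ t26287.2.1, ⟨H _ t26287.2.2.1, H _ t26287.2.2.2.1⟩⟩⟩⟩⟩, ⟨⟨⟨⟨H _ t26287.2.2.2.2.1,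 H _ t26287.2.2.2.2.2.1⟩, ⟨H _ t26287.2.2.2.2.2.2.1, H _ t26287.2.2.2.2.2.2.2⟩⟩, ⟨⟨H _ t26295.1, H _ t26295.2.1⟩, ⟨H _ t26295.2.2.1, ⟨H _ t26295.2.2.2.1, H _ t26295.2.2.2.2.1⟩⟩⟩⟩, ⟨⟨⟨H _ t26295.2.2.2.2.2.1, H _ t26295.2.2.2.2.2.2.1⟩, ⟨H _ t26295.2.2.2.2.2.2.2, H _ t26303.1⟩⟩, ⟨⟨H _ t26303.2.1, H _ t26303.2.2.1⟩, ⟨H _ t26303.2.2.2.1, ⟨H _ t26303.2.2.2.2.1, H _ t26303.2.2.2.2.2⟩⟩⟩⟩⟩⟩⟩⟩⟩⟩

end Pool.Agent.MP_c853c5_nt.X.C4950
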