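import Pool.Agent.MP_c853c5_nt.X.C4950.Env
import Pool.Agent.MP_c853c5_nt.X.C4950.D9

set_option autoImplicit false
set_option maxRecDepth 8192
set_option linter.all false

namespace Pool.Agent.MP_c853c5_nt.X.C4950

open Pool.Agent.MP_c853c5_nt.X

def t26309 : allY (E.wth (lkp [])) l26309 = true ∧
    allY (E.wth (lkp [])) l26310 = true ∧
    allY (E.wth (lkp [])) l26311 = true ∧
    allY (E.wth (lkp [])) l26312 = true ∧
    allY (E.wth (lkp [])) l26313 = true ∧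
    allY (E.wth (lkp [])) l26314 = true ∧
    allY (E.wth (lkp [])) l26315 = true ∧
    allY (E.wth (lkp [])) l26316 = true :=
  ⟨by decide +kernel, by decide +kernel, by decide +kernel, by decide +kernel, by decide +kernel, by decide +kernel, by decide +kernel, by decide +kernel⟩

def t26317 : allY (E.wth (lkp [])) l26317 = true ∧
    allY (E.wth (lkp [])) l26318 = true ∧
    allY (E.wth (lkp [])) l26319 = true ∧
    allY (E.wth (lkp [])) l26320 = true ∧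
    allY (E.wth (lkp [])) l26321 = true ∧
    allY (E.wth (lkp [])) l26322 = true ∧
    allY (E.wth (lkp [])) l26323 = true ∧
    allY (E.wth (lkp [])) l26324 = true :=
  ⟨by decide +kernel, by decide +kernel, by decide +kernel, by decide +kernel, by decide +kernel, by decide +kernel, by decide +kernel, by decide +kernel⟩

def t26325 : allY (E.wth (lkp [])) l26325 = true ∧
    allY (E.wth (lkp [])) l26326 = true ∧
    allY (E.wth (lkp [])) l26327 = true ∧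
    allY (E.wth (lkp [])) l26328 = true ∧
    allY (E.wth (lkp [])) l26329 = true ∧
    allY (E.wth (lkp [])) l26330 = true ∧
    allY (E.wth (lkp [])) l26331 = true ∧
    allY (E.wth (lkp [])) l26332 = true :=
  ⟨by decide +kernel, by decide +kernel, by decide +kernel, by decide +kernel, by decide +kernel, by decide +kernel, by decide +kernel, by decide +kernel⟩

def t26333 : allY (E.wth (lkp [])) l26333 = true ∧
    allY (E.wth (lkp [])) l26334 = true ∧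
    allY (E.wth (lkp [])) l26335 = true ∧
    allY (E.wth (lkp [])) l26336 = true ∧
    allY (E.wth (lkp [])) l26337 = true ∧
    allY (E.wth (lkp [])) l26338 = true ∧
    allY (E.wth (lkp [])) l26339 = true ∧
    allY (E.wth (lkp [])) l26340 = true :=
  ⟨by decide +kernel, by decide +kernel, by decide +kernel, by decide +kernel, by decide +kernel, by decide +kernel, by decide +kernel, by decide +kernel⟩

def t26341 : allY (E.wth (lkp [])) l26341 = true ∧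
    allY (E.wth (lkp [])) l26342 = true ∧
    allY (E.wth (lkp [])) l26343 = true ∧
    allY (E.wth (lkp [])) l26344 = true ∧
    allY (E.wth (lkp [])) l26345 = true ∧
    allY (E.wth (lkp [])) l26346 = true ∧
    allY (E.wth (lkp [])) l26347 = true ∧
    allY (E.wth (lkp [])) l26348 = true :=
  ⟨by decide +kernel, by decide +kernel, by decide +kernel, by decide +kernel, by decide +kernel, by decide +kernel, by decide +kernel, by decide +kernel⟩

def t26349 : allY (E.wth (lkp [])) l26349 = true ∧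
    allY (E.wth (lkp [])) l26350 = true ∧
    allY (E.wth (lkp [])) l26351 = true ∧
    allY (E.wth (lkp [])) l26352 = true ∧
    allY (E.wth (lkp [])) l26353 = true ∧
    allY (E.wth (lkp [])) l26354 = true ∧
    allY (E.wth (lkp [])) l26355 = true ∧
    allY (E.wth (lkp [])) l26356 = true :=
  ⟨by decide +kernel, by decide +kernel, by decide +kernel, by decide +kernel, by decide +kernel, by decide +kernel, by decide +kernel, by decide +kernel⟩

def t26357 : allY (E.wth (lkp [])) l26357 = true ∧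
    allY (E.wth (lkp [])) l26358 = true ∧
    allY (E.wth (lkp [])) l26359 = true ∧
    allY (E.wth (lkp [])) l26360 = true ∧
    allY (E.wth (lkp [])) l26361 = true ∧
    allY (E.wth (lkp [])) l26362 = true ∧
    allY (E.wth (lkp [])) l26363 = true ∧
    allY (E.wth (lkp [])) l26364 = true :=
  ⟨by decide +kernel, by decide +kernel, by decide +kernel, by decide +kernel, by decide +kernel, by decide +kernel, by decide +kernel, by decide +kernel⟩

def t26365 : allY (E.wth (lkp [])) l26365 = true ∧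
    allY (E.wth (lkp [])) l26366 = true ∧
    allY (E.wth (lkp [])) l26367 = true ∧
    allY (E.wth (lkp [])) l26368 = true ∧
    allY (E.wth (lkp [])) l26369 = true ∧
    allY (E.wth (lkp [])) l26370 = true ∧
    allY (E.wth (lkp [])) l26371 = true ∧
    allY (E.wth (lkp [])) l26372 = true :=
  ⟨by decide +kernel, by decide +kernel, by decide +kernel, by decide +kernel, by decide +kernel, by decide +kernel, by decide +kernel, by decide +kernel⟩

def t26373 : allY (E.wth (lkp [])) l26373 = true ∧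
    allY (E.wth (lkp [])) l26374 = true ∧
    allY (E.wth (lkp [])) l26375 = true ∧
    allY (E.wth (lkp [])) l26376 = true ∧
    allY (E.wth (lkp [])) l26377 = true ∧
    allY (E.wth (lkp [])) l26378 = true ∧
    allY (E.wth (lkp [])) l26379 = true ∧
    allY (E.wth (lkp [])) l26380 = true :=
  ⟨by decide +kernel, by decide +kernel, by decide +kernel, by decide +kernel, by decide +kernel, by decide +kernel, by decide +kernel, by decide +kernel⟩

def t26381 : allY (E.wth (lkp [])) l26381 = true ∧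
    allY (E.wth (lkp [])) l26382 = true ∧
    allY (E.wth (lkp [])) l26383 = true ∧
    allY (E.wth (lkp [])) l26384 = true ∧
    allY (E.wth (lkp [])) l26385 = true ∧
    allY (E.wth (lkp [])) l26386 = true ∧
    allY (E.wth (lkp [])) l26387 = true ∧
    allY (E.wth (lkp [])) l26388 = true :=
  ⟨by decide +kernel, by decide +kernel, by decide +kernel, by decide +kernel, by decide +kernel, by decide +kernel, by decide +kernel, by decide +kernel⟩

def t26389 : allY (E.wth (lkp [])) l26389 = true ∧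
    allY (E.wth (lkp [])) l26390 = true ∧
    allY (E.wth (lkp [])) l26391 = true ∧
    allY (E.wth (lkp [])) l26392 = true ∧
    allY (E.wth (lkp [])) l26393 = true ∧
    allY (E.wth (lkp [])) l26394 = true ∧
    allY (E.wth (lkp [])) l26395 = true ∧
    allY (E.wth (lkp [])) l26396 = true :=
  ⟨by decide +kernel, by decide +kernel, by decide +kernel, by decide +kernel, by decide +kernel, by decide +kernel, by decide +kernel, by decide +kernel⟩

def t26397 : allY (E.wth (lkp [])) l26397 = true ∧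
    allY (E.wth (lkp [])) l26398 = true ∧
    allY (E.wth (lkp [])) l26399 = true ∧
    allY (E.wth (lkp [])) l26400 = true ∧
    allY (E.wth (lkp [])) l26401 = true ∧
    allY (E.wth (lkp [])) l26402 = true ∧
    allY (E.wth (lkp [])) l26403 = true ∧
    allY (E.wth (lkp [])) l26404 = true :=
  ⟨by decide +kernel, by decide +kernel, by decide +kernel, by decide +kernel, by decide +kernel, by decide +kernel, by decide +kernel, by decide +kernel⟩

def t26405 : allY (E.wth (lkp [])) l26405 = true ∧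
    allY (E.wth (lkp [])) l26406 = true ∧
    allY (E.wth (lkp [])) l26407 = true ∧
    allY (E.wth (lkp [])) l26408 = true ∧
    allY (E.wth (lkp [])) l26409 = true ∧
    allY (E.wth (lkp [])) l26410 = true ∧
    allY (E.wth (lkp [])) l26411 = true ∧
    allY (E.wth (lkp [])) l26412 = true :=
  ⟨by decide +kernel, by decide +kernel, by decide +kernel, by decide +kernel, by decide +kernel, by decide +kernel, by decide +kernel, by decide +kernel⟩

def t26413 : allY (E.wth (lkp [])) l26413 = true ∧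
    allY (E.wth (lkp [])) l26414 = true ∧
    allY (E.wth (lkp [])) l26415 = true ∧
    allY (E.wth (lkp [])) l26416 = true ∧
    allY (E.wth (lkp [])) l26417 = true ∧
    allY (E.wth (lkp [])) l26418 = true ∧
    allY (E.wth (lkp [])) l26419 = true ∧
    allY (E.wth (lkp [])) l26420 = true :=
  ⟨by decide +kernel, by decide +kernel, by decide +kernel, by decide +kernel, by decide +kernel, by decide +kernel, by decide +kernel, by decide +kernel⟩

def t26421 : allY (E.wth (lkp [])) l26421 = true ∧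
    allY (E.wth (lkp [])) l26422 = true ∧
    allY (E.wth (lkp [])) l26423 = true ∧
    allY (E.wth (lkp [])) l26424 = true ∧
    allY (E.wth (lkp [])) l26425 = true ∧
    allY (E.wth (lkp [])) l26426 = true ∧
    allY (E.wth (lkp [])) l26427 = true ∧
    allY (E.wth (lkp [])) l26428 = true :=
  ⟨by decide +kernel, by decide +kernel, by decide +kernel, by decide +kernel, by decide +kernel, by decide +kernel, by decide +kernel, by decide +kernel⟩

def t26429 : allY (E.wth (lkp [])) l26429 = true ∧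
    allY (E.wth (lkp [])) l26430 = true ∧
    allY (E.wth (lkp [])) l26431 = true ∧
    allY (E.wth (lkp [])) l26432 = true ∧
    allY (E.wth (lkp [])) l26433 = true ∧
    allY (E.wth (lkp [])) l26434 = true ∧
    allY (E.wth (lkp [])) l26435 = true ∧
    allY (E.wth (lkp [])) l26436 = true :=
  ⟨by decide +kernel, by decide +kernel, by decide +kernel, by decide +kernel, by decide +kernel, by decide +kernel, by decide +kernel, by decide +kernel⟩

def t26437 : allY (E.wth (lkp [])) l26437 = true ∧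
    allY (E.wth (lkp [])) l26438 = true ∧
    allY (E.wth (lkp [])) l26439 = true ∧
    allY (E.wth (lkp [])) l26440 = true ∧
    allY (E.wth (lkp [])) l26441 = true ∧
    allY (E.wth (lkp [])) l26442 = true ∧
    allY (E.wth (lkp [])) l26443 = true ∧
    allY (E.wth (lkp [])) l26444 = true :=
  ⟨by decide +kernel, by decide +kernel, by decide +kernel, by decide +kernel, by decide +kernel, by decide +kernel, by decide +kernel, by decide +kernel⟩

def t26445 : allY (E.wth (lkp [])) l26445 = true ∧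
    allY (E.wth (lkp [])) l26446 = true ∧
    allY (E.wth (lkp [])) l26447 = true ∧
    allY (E.wth (lkp [])) l26448 = true ∧
    allY (E.wth (lkp [])) l26449 = true ∧
    allY (E.wth (lkp [])) l26450 = true ∧
    allY (E.wth (lkp [])) l26451 = true ∧
    allY (E.wth (lkp [])) l26452 = true :=
  ⟨by decide +kernel, by decide +kernel, by decide +kernel, by decide +kernel, by decide +kernel, by decide +kernel, by decide +kernel, by decide +kernel⟩

def t26453 : allY (E.wth (lkp [])) l26453 = true ∧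
    allY (E.wth (lkp [])) l26454 = true ∧
    allY (E.wth (lkp [])) l26455 = true ∧
    allY (E.wth (lkp [])) l26456 = true ∧
    allY (E.wth (lkp [])) l26457 = true ∧
    allY (E.wth (lkp [])) l26458 = true ∧
    allY (E.wth (lkp [])) l26459 = true ∧
    allY (E.wth (lkp [])) l26460 = true :=
  ⟨by decide +kernel, by decide +kernel, by decide +kernel, by decide +kernel, by decide +kernel, by decide +kernel, by decide +kernel, by decide +kernel⟩

def t26461 : allY (E.wth (lkp [])) l26461 = true ∧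
    allY (E.wth (lkp [])) l26462 = true ∧
    allY (E.wth (lkp [])) l26463 = true ∧
    allY (E.wth (lkp [])) l26464 = true ∧
    allY (E.wth (lkp [])) l26465 = true ∧
    allY (E.wth (lkp [])) l26466 = true ∧
    allY (E.wth (lkp [])) l26467 = true ∧
    allY (E.wth (lkp [])) l26468 = true :=
  ⟨by decide +kernel, by decide +kernel, by decide +kernel, by decide +kernel, by decide +kernel, by decide +kernel, by decide +kernel, by decide +kernel⟩

def t26469 : allY (E.wth (lkp [])) l26469 = true ∧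
    allY (E.wth (lkp [])) l26470 = true ∧
    allY (E.wth (lkp [])) l26471 = true ∧
    allY (E.wth (lkp [])) l26472 = true ∧
    allY (E.wth (lkp [])) l26473 = true ∧
    allY (E.wth (lkp [])) l26474 = true ∧
    allY (E.wth (lkp [])) l26475 = true ∧
    allY (E.wth (lkp [])) l26476 = true :=
  ⟨by decide +kernel, by decide +kernel, by decide +kernel, by decide +kernel, by decide +kernel, by decide +kernel, by decide +kernel, by decide +kernel⟩

def t26477 : allY (E.wth (lkp [])) l26477 = true ∧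
    allY (E.wth (lkp [])) l26478 = true ∧
    allY (E.wth (lkp [])) l26479 = true ∧
    allY (E.wth (lkp [])) l26480 = true ∧
    allY (E.wth (lkp [])) l26481 = true ∧
    allY (E.wth (lkp [])) l26482 = true ∧
    allY (E.wth (lkp [])) l26483 = true ∧
    allY (E.wth (lkp [])) l26484 = true :=
  ⟨by decide +kernel, by decide +kernel, by decide +kernel, by decide +kernel, by decide +kernel, by decide +kernel, by decide +kernel, by decide +kernel⟩

def t26485 : allY (E.wth (lkp [])) l26485 = true ∧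
    allY (E.wth (lkp [])) l26486 = true ∧
    allY (E.wth (lkp [])) l26487 = true ∧
    allY (E.wth (lkp [])) l26488 = true ∧
    allY (E.wth (lkp [])) l26489 = true ∧
    allY (E.wth (lkp [])) l26490 = true ∧
    allY (E.wth (lkp [])) l26491 = true ∧
    allY (E.wth (lkp [])) l26492 = true :=
  ⟨by decide +kernel, by decide +kernel, by decide +kernel, by decide +kernel, by decide +kernel, by decide +kernel, by decide +kernel, by decide +kernel⟩

def t26493 : allY (E.wth (lkp [])) l26493 = true ∧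
    allY (E.wth (lkp [])) l26494 = true ∧
    allY (E.wth (lkp [])) l26495 = true ∧
    allY (E.wth (lkp [])) l26496 = true ∧
    allY (E.wth (lkp [])) l26497 = true ∧
    allY (E.wth (lkp [])) l26498 = true ∧
    allY (E.wth (lkp [])) l26499 = true ∧
    allY (E.wth (lkp [])) l26500 = true :=
  ⟨by decide +kernel, by decide +kernel, by decide +kernel, by decide +kernel, by decide +kernel, by decide +kernel, by decide +kernel, by decide +kernel⟩

def t26501 : allY (E.wth (lkp [])) l26501 = true ∧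
    allY (E.wth (lkp [])) l26502 = true ∧
    allY (E.wth (lkp [])) l26503 = true ∧
    allY (E.wth (lkp [])) l26504 = true ∧
    allY (E.wth (lkp [])) l26505 = true ∧
    allY (E.wth (lkp [])) l26506 = true ∧
    allY (E.wth (lkp [])) l26507 = true ∧
    allY (E.wth (lkp [])) l26508 = true :=
  ⟨by decide +kernel, by decide +kernel, by decide +kernel, by decide +kernel, by decide +kernel, by decide +kernel, by decide +kernel, by decide +kernel⟩

def t26509 : allY (E.wth (lkp [])) l26509 = true ∧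
    allY (E.wth (lkp [])) l26510 = true ∧
    allY (E.wth (lkp [])) l26511 = true ∧
    allY (E.wth (lkp [])) l26512 = true ∧
    allY (E.wth (lkp [])) l26513 = true ∧
    allY (E.wth (lkp [])) l26514 = true ∧
    allY (E.wth (lkp [])) l26515 = true ∧
    allY (E.wth (lkp [])) l26516 = true :=
  ⟨by decide +kernel, by decide +kernel, by decide +kernel, by decide +kernel, by decide +kernel, by decide +kernel, by decide +kernel, by decide +kernel⟩

def t26517 : allY (E.wth (lkp [])) l26517 = true ∧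
    allY (E.wth (lkp [])) l26518 = true ∧
    allY (E.wth (lkp [])) l26519 = true ∧
    allY (E.wth (lkp [])) l26520 = true ∧
    allY (E.wth (lkp [])) l26521 = true ∧
    allY (E.wth (lkp [])) l26522 = true ∧
    allY (E.wth (lkp [])) l26523 = true ∧
    allY (E.wth (lkp [])) l26524 = true :=
  ⟨by decide +kernel, by decide +kernel, by decide +kernel, by decide +kernel, by decide +kernel, by decide +kernel, by decide +kernel, by decide +kernel⟩

def t26525 : allY (E.wth (lkp [])) l26525 = true ∧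
    allY (E.wth (lkp [])) l26526 = true ∧
    allY (E.wth (lkp [])) l26527 = true ∧
    allY (E.wth (lkp [])) l26528 = true ∧
    allY (E.wth (lkp [])) l26529 = true ∧
    allY (E.wth (lkp [])) l26530 = true ∧
    allY (E.wth (lkp [])) l26531 = true ∧
    allY (E.wth (lkp [])) l26532 = true :=
  ⟨by decide +kernel, by decide +kernel, by decide +kernel, by decide +kernel, by decide +kernel, by decide +kernel, by decide +kernel, by decide +kernel⟩

def t26533 : allY (E.wth (lkp [])) l26533 = true ∧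
    allY (E.wth (lkp [])) l26534 = true ∧
    allY (E.wth (lkp [])) l26535 = true ∧
    allY (E.wth (lkp [])) l26536 = true ∧
    allY (E.wth (lkp [])) l26537 = true ∧
    allY (E.wth (lkp [])) l26538 = true ∧
    allY (E.wth (lkp [])) l26539 = true ∧
    allY (E.wth (lkp [])) l26540 = true :=
  ⟨by decide +kernel, by decide +kernel, by decide +kernel, by decide +kernel, by decide +kernel, by decide +kernel, by decide +kernel, by decide +kernel⟩

def t26541 : allY (E.wth (lkp [])) l26541 = true ∧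
    allY (E.wth (lkp [])) l26542 = true ∧
    allY (E.wth (lkp [])) l26543 = true ∧
    allY (E.wth (lkp [])) l26544 = true ∧
    allY (E.wth (lkp [])) l26545 = true ∧
    allY (E.wth (lkp [])) l26546 = true ∧
    allY (E.wth (lkp [])) l26547 = true ∧
    allY (E.wth (lkp [])) l26548 = true :=
  ⟨by decide +kernel, by decide +kernel, by decide +kernel, by decide +kernel, by decide +kernel, by decide +kernel, by decide +kernel, by decide +kernel⟩

def t26549 : allY (E.wth (lkp [])) l26549 = true ∧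
    allY (E.wth (lkp [])) l26550 = true ∧
    allY (E.wth (lkp [])) l26551 = true ∧
    allY (E.wth (lkp [])) l26552 = true ∧
    allY (E.wth (lkp [])) l26553 = true ∧
    allY (E.wth (lkp [])) l26554 = true ∧
    allY (E.wth (lkp [])) l26555 = true ∧
    allY (E.wth (lkp [])) l26556 = true :=
  ⟨by decide +kernel, by decide +kernel, by decide +kernel, by decide +kernel, by decide +kernel, by decide +kernel, by decide +kernel, by decide +kernel⟩

def t26557 : allY (E.wth (lkp [])) l26557 = true ∧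
    allY (E.wth (lkp [])) l26558 = true ∧
    allY (E.wth (lkp [])) l26559 = true ∧
    allY (E.wth (lkp [])) l26560 = true ∧
    allY (E.wth (lkp [])) l26561 = true ∧
    allY (E.wth (lkp [])) l26562 = true ∧
    allY (E.wth (lkp [])) l26563 = true ∧
    allY (E.wth (lkp [])) l26564 = true :=
  ⟨by decide +kernel, by decide +kernel, by decide +kernel, by decide +kernel, by decide +kernel, by decide +kernel, by decide +kernel, by decide +kernel⟩

def t26565 : allY (E.wth (lkp [])) l26565 = true ∧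
    allY (E.wth (lkp [])) l26566 = true ∧
    allY (E.wth (lkp [])) l26567 = true ∧
    allY (E.wth (lkp [])) l26568 = true ∧
    allY (E.wth (lkp [])) l26569 = true ∧
    allY (E.wth (lkp [])) l26570 = true ∧
    allY (E.wth (lkp [])) l26571 = true ∧
    allY (E.wth (lkp [])) l26572 = true :=
  ⟨by decide +kernel, by decide +kernel, by decide +kernel, by decide +kernel, by decide +kernel, by decide +kernel, by decide +kernel, by decide +kernel⟩

def t26573 : allY (E.wth (lkp [])) l26573 = true ∧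
    allY (E.wth (lkp [])) l26574 = true ∧
    allY (E.wth (lkp [])) l26575 = true ∧
    allY (E.wth (lkp [])) l26576 = true ∧
    allY (E.wth (lkp [])) l26577 = true ∧
    allY (E.wth (lkp [])) l26578 = true ∧
    allY (E.wth (lkp [])) l26579 = true ∧
    allY (E.wth (lkp [])) l26580 = true :=
  ⟨by decide +kernel, by decide +kernel, by decide +kernel, by decide +kernel, by decide +kernel, by decide +kernel, by decide +kernel, by decide +kernel⟩

def t26581 : allY (E.wth (lkp [])) l26581 = true ∧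
    allY (E.wth (lkp [])) l26582 = true ∧
    allY (E.wth (lkp [])) l26583 = true ∧
    allY (E.wth (lkp [])) l26584 = true ∧
    allY (E.wth (lkp [])) l26585 = true ∧
    allY (E.wth (lkp [])) l26586 = true ∧
    allY (E.wth (lkp [])) l26587 = true ∧
    allY (E.wth (lkp [])) l26588 = true :=
  ⟨by decide +kernel, by decide +kernel, by decide +kernel, by decide +kernel, by decide +kernel, by decide +kernel, by decide +kernel, by decide +kernel⟩

def t26589 : allY (E.wth (lkp [])) l26589 = true ∧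
    allY (E.wth (lkp [])) l26590 = true ∧
    allY (E.wth (lkp [])) l26591 = true ∧
    allY (E.wth (lkp [])) l26592 = true ∧
    allY (E.wth (lkp [])) l26593 = true ∧
    allY (E.wth (lkp [])) l26594 = true ∧
    allY (E.wth (lkp [])) l26595 = true ∧
    allY (E.wth (lkp [])) l26596 = true :=
  ⟨by decide +kernel, by decide +kernel, by decide +kernel, by decide +kernel, by decide +kernel, by decide +kernel, by decide +kernel, by decide +kernel⟩

def t26597 : allY (E.wth (lkp [])) l26597 = true ∧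
    allY (E.wth (lkp [])) l26598 = true ∧
    allY (E.wth (lkp [])) l26599 = true ∧
    allY (E.wth (lkp [])) l26600 = true ∧
    allY (E.wth (lkp [])) l26601 = true ∧
    allY (E.wth (lkp [])) l26602 = true ∧
    allY (E.wth (lkp [])) l26603 = true ∧
    allY (E.wth (lkp [])) l26604 = true :=
  ⟨by decide +kernel, by decide +kernel, by decide +kernel, by decide +kernel, by decide +kernel, by decide +kernel, by decide +kernel, by decide +kernel⟩

def t26605 : allY (E.wth (lkp [])) l26605 = true ∧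
    allY (E.wth (lkp [])) l26606 = true ∧
    allY (E.wth (lkp [])) l26607 = true ∧
    allY (E.wth (lkp [])) l26608 = true ∧
    allY (E.wth (lkp [])) l26609 = true ∧
    allY (E.wth (lkp [])) l26610 = true ∧
    allY (E.wth (lkp [])) l26611 = true ∧
    allY (E.wth (lkp [])) l26612 = true :=
  ⟨by decide +kernel, by decide +kernel, by decide +kernel, by decide +kernel, by decide +kernel, by decide +kernel, by decide +kernel, by decide +kernel⟩

def t26613 : allY (E.wth (lkp [])) l26613 = true ∧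
    allY (E.wth (lkp [])) l26614 = true ∧
    allY (E.wth (lkp [])) l26615 = true ∧
    allY (E.wth (lkp [])) l26616 = true ∧
    allY (E.wth (lkp [])) l26617 = true ∧
    allY (E.wth (lkp [])) l26618 = true ∧
    allY (E.wth (lkp [])) l26619 = true ∧
    allY (E.wth (lkp [])) l26620 = true :=
  ⟨by decide +kernel, by decide +kernel, by decide +kernel, by decide +kernel, by decide +kernel, by decide +kernel, by decide +kernel, by decide +kernel⟩

def t26621 : allY (E.wth (lkp [])) l26621 = true ∧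
    allY (E.wth (lkp [])) l26622 = true ∧
    allY (E.wth (lkp [])) l26623 = true ∧
    allY (E.wth (lkp [])) l26624 = true ∧
    allY (E.wth (lkp [])) l26625 = true ∧
    allY (E.wth (lkp [])) l26626 = true ∧
    allY (E.wth (lkp [])) l26627 = true ∧
    allY (E.wth (lkp [])) l26628 = true :=
  ⟨by decide +kernel, by decide +kernel, by decide +kernel, by decide +kernel, by decide +kernel, by decide +kernel, by decide +kernel, by decide +kernel⟩

def t26629 : allY (E.wth (lkp [])) l26629 = true ∧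
    allY (E.wth (lkp [])) l26630 = true ∧
    allY (E.wth (lkp [])) l26631 = true ∧
    allY (E.wth (lkp [])) l26632 = true ∧
    allY (E.wth (lkp [])) l26633 = true ∧
    allY (E.wth (lkp [])) l26634 = true ∧
    allY (E.wth (lkp [])) l26635 = true ∧
    allY (E.wth (lkp [])) l26636 = true :=
  ⟨by decide +kernel, by decide +kernel, by decide +kernel, by decide +kernel, by decide +kernel, by decide +kernel, by decide +kernel, by decide +kernel⟩

def t26637 : allY (E.wth (lkp [])) l26637 = true ∧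
    allY (E.wth (lkp [])) l26638 = true ∧
    allY (E.wth (lkp [])) l26639 = true ∧
    allY (E.wth (lkp [])) l26640 = true ∧
    allY (E.wth (lkp [])) l26641 = true ∧
    allY (E.wth (lkp [])) l26642 = true ∧
    allY (E.wth (lkp [])) l26643 = true ∧
    allY (E.wth (lkp [])) l26644 = true :=
  ⟨by decide +kernel, by decide +kernel, by decide +kernel, by decide +kernel, by decide +kernel, by decide +kernel, by decide +kernel, by decide +kernel⟩

def t26645 : allY (E.wth (lkp [])) l26645 = true ∧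
    allY (E.wth (lkp [])) l26646 = true ∧
    allY (E.wth (lkp [])) l26647 = true ∧
    allY (E.wth (lkp [])) l26648 = true ∧
    allY (E.wth (lkp [])) l26649 = true ∧
    allY (E.wth (lkp [])) l26650 = true ∧
    allY (E.wth (lkp [])) l26651 = true ∧
    allY (E.wth (lkp [])) l26652 = true :=
  ⟨by decide +kernel, by decide +kernel, by decide +kernel, by decide +kernel, by decide +kernel, by decide +kernel, by decide +kernel, by decide +kernel⟩

def t26653 : allY (E.wth (lkp [])) l26653 = true ∧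
    allY (E.wth (lkp [])) l26654 = true ∧
    allY (E.wth (lkp [])) l26655 = true ∧
    allY (E.wth (lkp [])) l26656 = true ∧
    allY (E.wth (lkp [])) l26657 = true ∧
    allY (E.wth (lkp [])) l26658 = true ∧
    allY (E.wth (lkp [])) l26659 = true ∧
    allY (E.wth (lkp [])) l26660 = true :=
  ⟨by decide +kernel, by decide +kernel, by decide +kernel, by decide +kernel, by decide +kernel, by decide +kernel, by decide +kernel, by decide +kernel⟩

def t26661 : allY (E.wth (lkp [])) l26661 = true ∧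
    allY (E.wth (lkp [])) l26662 = true ∧
    allY (E.wth (lkp [])) l26663 = true ∧
    allY (E.wth (lkp [])) l26664 = true ∧
    allY (E.wth (lkp [])) l26665 = true ∧
    allY (E.wth (lkp [])) l26666 = true ∧
    allY (E.wth (lkp [])) l26667 = true ∧
    allY (E.wth (lkp [])) l26668 = true :=
  ⟨by decide +kernel, by decide +kernel, by decide +kernel, by decide +kernel, by decide +kernel, by decide +kernel, by decide +kernel, by decide +kernel⟩

def t26669 : allY (E.wth (lkp [])) l26669 = true ∧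
    allY (E.wth (lkp [])) l26670 = true ∧
    allY (E.wth (lkp [])) l26671 = true ∧
    allY (E.wth (lkp [])) l26672 = true ∧
    allY (E.wth (lkp [])) l26673 = true ∧
    allY (E.wth (lkp [])) l26674 = true ∧
    allY (E.wth (lkp [])) l26675 = true ∧
    allY (E.wth (lkp [])) l26676 = true :=
  ⟨by decide +kernel, by decide +kernel, by decide +kernel, by decide +kernel, by decide +kernel, by decide +kernel, by decide +kernel, by decide +kernel⟩

def t26677 : allY (E.wth (lkp [])) l26677 = true ∧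
    allY (E.wth (lkp [])) l26678 = true ∧
    allY (E.wth (lkp [])) l26679 = true ∧
    allY (E.wth (lkp [])) l26680 = true ∧
    allY (E.wth (lkp [])) l26681 = true ∧
    allY (E.wth (lkp [])) l26682 = true ∧
    allY (E.wth (lkp [])) l26683 = true ∧
    allY (E.wth (lkp [])) l26684 = true :=
  ⟨by decide +kernel, by decide +kernel, by decide +kernel, by decide +kernel, by decide +kernel, by decide +kernel, by decide +kernel, by decide +kernel⟩

def t26685 : allY (E.wth (lkp [])) l26685 = true ∧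
    allY (E.wth (lkp [])) l26686 = true ∧
    allY (E.wth (lkp [])) l26687 = true ∧
    allY (E.wth (lkp [])) l26688 = true ∧
    allY (E.wth (lkp [])) l26689 = true ∧
    allY (E.wth (lkp [])) l26690 = true ∧
    allY (E.wth (lkp [])) l26691 = true ∧
    allY (E.wth (lkp [])) l26692 = true :=
  ⟨by decide +kernel, by decide +kernel, by decide +kernel, by decide +kernel, by decide +kernel, by decide +kernel, by decide +kernel, by decide +kernel⟩

def t26693 : allY (E.wth (lkp [])) l26693 = true ∧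
    allY (E.wth (lkp [])) l26694 = true ∧
    allY (E.wth (lkp [])) l26695 = true ∧
    allY (E.wth (lkp [])) l26696 = true ∧
    allY (E.wth (lkp [])) l26697 = true ∧
    allY (E.wth (lkp [])) l26698 = true ∧
    allY (E.wth (lkp [])) l26699 = true ∧
    allY (E.wth (lkp [])) l26700 = true :=
  ⟨by decide +kernel, by decide +kernel, by decide +kernel, by decide +kernel, by decide +kernel, by decide +kernel, by decide +kernel, by decide +kernel⟩

def t26701 : allY (E.wth (lkp [])) l26701 = true ∧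
    allY (E.wth (lkp [])) l26702 = true ∧
    allY (E.wth (lkp [])) l26703 = true ∧
    allY (E.wth (lkp [])) l26704 = true ∧
    allY (E.wth (lkp [])) l26705 = true ∧
    allY (E.wth (lkp [])) l26706 = true ∧
    allY (E.wth (lkp [])) l26707 = true ∧
    allY (E.wth (lkp [])) l26708 = true :=
  ⟨by decide +kernel, by decide +kernel, by decide +kernel, by decide +kernel, by decide +kernel, by decide +kernel, by decide +kernel, by decide +kernel⟩

def t26709 : allY (E.wth (lkp [])) l26709 = true ∧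
    allY (E.wth (lkp [])) l26710 = true ∧
    allY (E.wth (lkp [])) l26711 = true ∧
    allY (E.wth (lkp [])) l26712 = true ∧
    allY (E.wth (lkp [])) l26713 = true ∧
    allY (E.wth (lkp [])) l26714 = true ∧
    allY (E.wth (lkp [])) l26715 = true ∧
    allY (E.wth (lkp [])) l26716 = true :=
  ⟨by decide +kernel, by decide +kernel, by decide +kernel, by decide +kernel, by decide +kernel, by decide +kernel, by decide +kernel, by decide +kernel⟩

def t26717 : allY (E.wth (lkp [])) l26717 = true ∧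
    allY (E.wth (lkp [])) l26718 = true ∧
    allY (E.wth (lkp [])) l26719 = true ∧
    allY (E.wth (lkp [])) l26720 = true ∧
    allY (E.wth (lkp [])) l26721 = true ∧
    allY (E.wth (lkp [])) l26722 = true ∧
    allY (E.wth (lkp [])) l26723 = true ∧
    allY (E.wth (lkp [])) l26724 = true :=
  ⟨by decide +kernel, by decide +kernel, by decide +kernel, by decide +kernel, by decide +kernel, by decide +kernel, by decide +kernel, by decide +kernel⟩

def t26725 : allY (E.wth (lkp [])) l26725 = true ∧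
    allY (E.wth (lkp [])) l26726 = true ∧
    allY (E.wth (lkp [])) l26727 = true ∧
    allY (E.wth (lkp [])) l26728 = true ∧
    allY (E.wth (lkp [])) l26729 = true ∧
    allY (E.wth (lkp [])) l26730 = true ∧
    allY (E.wth (lkp [])) l26731 = true ∧
    allY (E.wth (lkp [])) l26732 = true :=
  ⟨by decide +kernel, by decide +kernel, by decide +kernel, by decide +kernel, by decide +kernel, by decide +kernel, by decide +kernel, by decide +kernel⟩

def t26733 : allY (E.wth (lkp [])) l26733 = true ∧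
    allY (E.wth (lkp [])) l26734 = true ∧
    allY (E.wth (lkp [])) l26735 = true ∧
    allY (E.wth (lkp [])) l26736 = true ∧
    allY (E.wth (lkp [])) l26737 = true ∧
    allY (E.wth (lkp [])) l26738 = true ∧
    allY (E.wth (lkp [])) l26739 = true ∧
    allY (E.wth (lkp [])) l26740 = true :=
  ⟨by decide +kernel, by decide +kernel, by decide +kernel, by decide +kernel, by decide +kernel, by decide +kernel, by decide +kernel, by decide +kernel⟩

def t26741 : allY (E.wth (lkp [])) l26741 = true ∧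
    allY (E.wth (lkp [])) l26742 = true ∧
    allY (E.wth (lkp [])) l26743 = true ∧
    allY (E.wth (lkp [])) l26744 = true ∧
    allY (E.wth (lkp [])) l26745 = true ∧
    allY (E.wth (lkp [])) l26746 = true ∧
    allY (E.wth (lkp [])) l26747 = true ∧
    allY (E.wth (lkp [])) l26748 = true :=
  ⟨by decide +kernel, by decide +kernel, by decide +kernel, by decide +kernel, by decide +kernel, by decide +kernel, by decide +kernel, by decide +kernel⟩

def t26749 : allY (E.wth (lkp [])) l26749 = true ∧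
    allY (E.wth (lkp [])) l26750 = true ∧
    allY (E.wth (lkp [])) l26751 = true ∧
    allY (E.wth (lkp [])) l26752 = true ∧
    allY (E.wth (lkp [])) l26753 = true ∧
    allY (E.wth (lkp [])) l26754 = true ∧
    allY (E.wth (lkp [])) l26755 = true ∧
    allY (E.wth (lkp [])) l26756 = true :=
  ⟨by decide +kernel, by decide +kernel, by decide +kernel, by decide +kernel, by decide +kernel, by decide +kernel, by decide +kernel, by decide +kernel⟩

def t26757 : allY (E.wth (lkp [])) l26757 = true ∧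
    allY (E.wth (lkp [])) l26758 = true ∧
    allY (E.wth (lkp [])) l26759 = true ∧
    allY (E.wth (lkp [])) l26760 = true ∧
    allY (E.wth (lkp [])) l26761 = true ∧
    allY (E.wth (lkp [])) l26762 = true ∧
    allY (E.wth (lkp [])) l26763 = true ∧
    allY (E.wth (lkp [])) l26764 = true :=
  ⟨by decide +kernel, by decide +kernel, by decide +kernel, by decide +kernel, by decide +kernel, by decide +kernel, by decide +kernel, by decide +kernel⟩

def t26765 : allY (E.wth (lkp [])) l26765 = true ∧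
    allY (E.wth (lkp [])) l26766 = true ∧
    allY (E.wth (lkp [])) l26767 = true ∧
    allY (E.wth (lkp [])) l26768 = true ∧
    allY (E.wth (lkp [])) l26769 = true ∧
    allY (E.wth (lkp [])) l26770 = true ∧
    allY (E.wth (lkp [])) l26771 = true ∧
    allY (E.wth (lkp [])) l26772 = true :=
  ⟨by decide +kernel, by decide +kernel, by decide +kernel, by decide +kernel, by decide +kernel, by decide +kernel, by decide +kernel, by decide +kernel⟩

def t26773 : allY (E.wth (lkp [])) l26773 = true ∧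
    allY (E.wth (lkp [])) l26774 = true ∧
    allY (E.wth (lkp [])) l26775 = true ∧
    allY (E.wth (lkp [])) l26776 = true ∧
    allY (E.wth (lkp [])) l26777 = true ∧
    allY (E.wth (lkp [])) l26778 = true ∧
    allY (E.wth (lkp [])) l26779 = true ∧
    allY (E.wth (lkp [])) l26780 = true :=
  ⟨by decide +kernel, by decide +kernel, by decide +kernel, by decide +kernel, by decide +kernel, by decide +kernel, by decide +kernel, by decide +kernel⟩

def t26781 : allY (E.wth (lkp [])) l26781 = true ∧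
    allY (E.wth (lkp [])) l26782 = true ∧
    allY (E.wth (lkp [])) l26783 = true ∧
    allY (E.wth (lkp [])) l26784 = true ∧
    allY (E.wth (lkp [])) l26785 = true ∧
    allY (E.wth (lkp [])) l26786 = true ∧
    allY (E.wth (lkp [])) l26787 = true ∧
    allY (E.wth (lkp [])) l26788 = true :=
  ⟨by decide +kernel, by decide +kernel, by decide +kernel, by decide +kernel, by decide +kernel, by decide +kernel, by decide +kernel, by decide +kernel⟩

def t26789 : allY (E.wth (lkp [])) l26789 = true ∧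
    allY (E.wth (lkp [])) l26790 = true ∧
    allY (E.wth (lkp [])) l26791 = true ∧
    allY (E.wth (lkp [])) l26792 = true ∧
    allY (E.wth (lkp [])) l26793 = true ∧
    allY (E.wth (lkp [])) l26794 = true ∧
    allY (E.wth (lkp [])) l26795 = true ∧
    allY (E.wth (lkp [])) l26796 = true :=
  ⟨by decide +kernel, by decide +kernel, by decide +kernel, by decide +kernel, by decide +kernel, by decide +kernel, by decide +kernel, by decide +kernel⟩

def t26797 : allY (E.wth (lkp [])) l26797 = true ∧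
    allY (E.wth (lkp [])) l26798 = true ∧
    allY (E.wth (lkp [])) l26799 = true ∧
    allY (E.wth (lkp [])) l26800 = true ∧
    allY (E.wth (lkp [])) l26801 = true ∧
    allY (E.wth (lkp [])) l26802 = true ∧
    allY (E.wth (lkp [])) l26803 = true ∧
    allY (E.wth (lkp [])) l26804 = true :=
  ⟨by decide +kernel, by decide +kernel, by decide +kernel, by decide +kernel, by decide +kernel, by decide +kernel, by decide +kernel, by decide +kernel⟩

def t26805 : allY (E.wth (lkp [])) l26805 = true ∧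
    allY (E.wth (lkp [])) l26806 = true ∧
    allY (E.wth (lkp [])) l26807 = true ∧
    allY (E.wth (lkp [])) l26808 = true ∧
    allY (E.wth (lkp [])) l26809 = true ∧
    allY (E.wth (lkp [])) l26810 = true ∧
    allY (E.wth (lkp [])) l26811 = true ∧
    allY (E.wth (lkp [])) l26812 = true :=
  ⟨by decide +kernel, by decide +kernel, by decide +kernel, by decide +kernel, by decide +kernel, by decide +kernel, by decide +kernel, by decide +kernel⟩

def t26813 : allY (E.wth (lkp [])) l26813 = true ∧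
    allY (E.wth (lkp [])) l26814 = true ∧
    allY (E.wth (lkp [])) l26815 = true ∧
    allY (E.wth (lkp [])) l26816 = true ∧
    allY (E.wth (lkp [])) l26817 = true ∧
    allY (E.wth (lkp [])) l26818 = true ∧
    allY (E.wth (lkp [])) l26819 = true ∧
    allY (E.wth (lkp [])) l26820 = true :=
  ⟨by decide +kernel, by decide +kernel, by decide +kernel, by decide +kernel, by decide +kernel, by decide +kernel, by decide +kernel, by decide +kernel⟩

def t26821 : allY (E.wth (lkp [])) l26821 = true ∧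
    allY (E.wth (lkp [])) l26822 = true ∧
    allY (E.wth (lkp [])) l26823 = true ∧
    allY (E.wth (lkp [])) l26824 = true ∧
    allY (E.wth (lkp [])) l26825 = true ∧
    allY (E.wth (lkp [])) l26826 = true ∧
    allY (E.wth (lkp [])) l26827 = true ∧
    allY (E.wth (lkp [])) l26828 = true :=
  ⟨by decide +kernel, by decide +kernel, by decide +kernel, by decide +kernel, by decide +kernel, by decide +kernel, by decide +kernel, by decide +kernel⟩

def t26829 : allY (E.wth (lkp [])) l26829 = true ∧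
    allY (E.wth (lkp [])) l26830 = true ∧
    allY (E.wth (lkp [])) l26831 = true ∧
    allY (E.wth (lkp [])) l26832 = true ∧
    allY (E.wth (lkp [])) l26833 = true ∧
    allY (E.wth (lkp [])) l26834 = true ∧
    allY (E.wth (lkp [])) l26835 = true ∧
    allY (E.wth (lkp [])) l26836 = true :=
  ⟨by decide +kernel, by decide +kernel, by decide +kernel, by decide +kernel, by decide +kernel, by decide +kernel, by decide +kernel, by decide +kernel⟩

def t26837 : allY (E.wth (lkp [])) l26837 = true ∧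
    allY (E.wth (lkp [])) l26838 = true ∧
    allY (E.wth (lkp [])) l26839 = true ∧
    allY (E.wth (lkp [])) l26840 = true ∧
    allY (E.wth (lkp [])) l26841 = true ∧
    allY (E.wth (lkp [])) l26842 = true ∧
    allY (E.wth (lkp [])) l26843 = true ∧
    allY (E.wth (lkp [])) l26844 = true :=
  ⟨by decide +kernel, by decide +kernel, by decide +kernel, by decide +kernel, by decide +kernel, by decide +kernel, by decide +kernel, by decide +kernel⟩

def t26845 : allY (E.wth (lkp [])) l26845 = true ∧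
    allY (E.wth (lkp [])) l26846 = true ∧
    allY (E.wth (lkp [])) l26847 = true ∧
    allY (E.wth (lkp [])) l26848 = true ∧
    allY (E.wth (lkp [])) l26849 = true ∧
    allY (E.wth (lkp [])) l26850 = true ∧
    allY (E.wth (lkp [])) l26851 = true ∧
    allY (E.wth (lkp [])) l26852 = true :=
  ⟨by decide +kernel, by decide +kernel, by decide +kernel, by decide +kernel, by decide +kernel, by decide +kernel, by decide +kernel, by decide +kernel⟩

def t26853 : allY (E.wth (lkp [])) l26853 = true ∧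
    allY (E.wth (lkp [])) l26854 = true ∧
    allY (E.wth (lkp [])) l26855 = true ∧
    allY (E.wth (lkp [])) l26856 = true ∧
    allY (E.wth (lkp [])) l26857 = true ∧
    allY (E.wth (lkp [])) l26858 = true ∧
    allY (E.wth (lkp [])) l26859 = true ∧
    allY (E.wth (lkp [])) l26860 = true :=
  ⟨by decide +kernel, by decide +kernel, by decide +kernel, by decide +kernel, by decide +kernel, by decide +kernel, by decide +kernel, by decide +kernel⟩

def t26861 : allY (E.wth (lkp [])) l26861 = true ∧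
    allY (E.wth (lkp [])) l26862 = true ∧
    allY (E.wth (lkp [])) l26863 = true ∧
    allY (E.wth (lkp [])) l26864 = true ∧
    allY (E.wth (lkp [])) l26865 = true ∧
    allY (E.wth (lkp [])) l26866 = true ∧
    allY (E.wth (lkp [])) l26867 = true ∧
    allY (E.wth (lkp [])) l26868 = true :=
  ⟨by decide +kernel, by decide +kernel, by decide +kernel, by decide +kernel, by decide +kernel, by decide +kernel, by decide +kernel, by decide +kernel⟩

def t26869 : allY (E.wth (lkp [])) l26869 = true ∧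
    allY (E.wth (lkp [])) l26870 = true ∧
    allY (E.wth (lkp [])) l26871 = true ∧
    allY (E.wth (lkp [])) l26872 = true :=
  ⟨by decide +kernel, by decide +kernel, by decide +kernel, by decide +kernel⟩

theorem a47 {p : Rf → Prop} (H : ∀ l, allY (E.wth (lkp [])) l = true → (lkp l).All p) :
    b47.All p := ⟨⟨⟨⟨⟨⟨⟨⟨⟨H _ t26309.1, H _ t26309.2.1⟩, ⟨H _ t26309.2.2.1, H _ t26309.2.2.2.1⟩⟩, ⟨⟨H _ t26309.2.2.2.2.1, H _ t26309.2.2.2.2.2.1⟩, ⟨H _ t26309.2.2.2.2.2.2.1, H _ t26309.2.2.2.2.2.2.2⟩⟩⟩, ⟨⟨⟨H _ t26317.1, H _ t26317.2.1⟩, ⟨H _ t26317.2.2.1, H _ t26317.2.2.2.1⟩⟩, ⟨⟨H _ t26317.2.2.2.2.1, H _ t26317.2.2.2.2.2.1⟩, ⟨H _ t26317.2.2.2.2.2.2.1, ⟨H _ t26317.2.2.2.2.2.2.2, H _ t26325.1⟩⟩⟩⟩⟩, ⟨⟨⟨⟨H _ t26325.2.1, H _ t26325.2.2.1⟩, ⟨H _ t26325.2.2.2.1, H _ t26325.2.2.2.2.1⟩⟩, ⟨⟨H _ t26325.2.2.2.2.2.1, H _ t26325.2.2.2.2.2.2.1⟩, ⟨H _ t26325.2.2.2.2.2.2.2, ⟨H _ t26333.1, H _ t26333.2.1⟩⟩⟩⟩, ⟨⟨⟨H _ t26333.2.2.1,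 H _ t26333.2.2.2.1⟩, ⟨H _ t26333.2.2.2.2.1, H _ t26333.2.2.2.2.2.1⟩⟩, ⟨⟨H _ t26333.2.2.2.2.2.2.1, H _ t26333.2.2.2.2.2.2.2⟩, ⟨H _ t26341.1, ⟨H _ t26341.2.1, H _ t26341.2.2.1⟩⟩⟩⟩⟩⟩, ⟨⟨⟨⟨⟨H _ t26341.2.2.2.1, H _ t26341.2.2.2.2.1⟩, ⟨H _ t26341.2.2.2.2.2.1, H _ t26341.2.2.2.2.2.2.1⟩⟩, ⟨⟨H _ t26341.2.2.2.2.2.2.2, H _ t26349.1⟩, ⟨H _ t26349.2.1, H _ t26349.2.2.1⟩⟩⟩, ⟨⟨⟨H _ t26349.2.2.2.1, H _ t26349.2.2.2.2.1⟩, ⟨H _ t26349.2.2.2.2.2.1, H _ t26349.2.2.2.2.2.2.1⟩⟩, ⟨⟨H _ t26349.2.2.2.2.2.2.2, H _ t26357.1⟩, ⟨H _ t26357.2.1, ⟨H _ t26357.2.2.1, H _ t26357.2.2.2.1⟩⟩⟩⟩⟩, ⟨⟨⟨⟨H _ t26357.2.2.2.2.1, H _ t26357.2.2.2.2.2.1⟩, ⟨H _ t26357.2.2.2.2.2.2.1, H _ t26357.2.2.2.2.2.2.2⟩⟩, ⟨⟨H _ t26365.1, H _ t26365.2.1⟩, ⟨H _ t26365.2.2.1, ⟨H _ t26365.2.2.2.1, H _ t26365.2.2.2.2.1⟩⟩⟩⟩, ⟨⟨⟨H _ t26365.2.2.2.2.2.1, H _ t26365.2.2.2.2.2.2.1⟩, ⟨H _ t26365.2.2.2.2.2.2.2, H _ t26373.1⟩⟩, ⟨⟨H _ t26373.2.1, H _ t26373.2.2.1⟩,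 ⟨H _ t26373.2.2.2.1, ⟨H _ t26373.2.2.2.2.1, H _ t26373.2.2.2.2.2.1⟩⟩⟩⟩⟩⟩⟩, ⟨⟨⟨⟨⟨⟨H _ t26373.2.2.2.2.2.2.1, H _ t26373.2.2.2.2.2.2.2⟩, ⟨H _ t26381.1, H _ t26381.2.1⟩⟩, ⟨⟨H _ t26381.2.2.1, H _ t26381.2.2.2.1⟩, ⟨H _ t26381.2.2.2.2.1, H _ t26381.2.2.2.2.2.1⟩⟩⟩, ⟨⟨⟨H _ t26381.2.2.2.2.2.2.1, H _ t26381.2.2.2.2.2.2.2⟩, ⟨H _ t26389.1, H _ t26389.2.1⟩⟩, ⟨⟨H _ t26389.2.2.1, H _ t26389.2.2.2.1⟩, ⟨H _ t26389.2.2.2.2.1, ⟨H _ t26389.2.2.2.2.2.1, H _ t26389.2.2.2.2.2.2.1⟩⟩⟩⟩⟩, ⟨⟨⟨⟨H _ t26389.2.2.2.2.2.2.2, H _ t26397.1⟩, ⟨H _ t26397.2.1, H _ t26397.2.2.1⟩⟩, ⟨⟨H _ t26397.2.2.2.1, H _ t26397.2.2.2.2.1⟩, ⟨H _ t26397.2.2.2.2.2.1, ⟨H _ t26397.2.2.2.2.2.2.1, H _ t26397.2.2.2.2.2.2.2⟩⟩⟩⟩, ⟨⟨⟨H _ t26405.1, H _ t26405.2.1⟩, ⟨H _ t26405.2.2.1, H _ t26405.2.2.2.1⟩⟩, ⟨⟨H _ t26405.2.2.2.2.1, H _ t26405.2.2.2.2.2.1⟩, ⟨H _ t26405.2.2.2.2.2.2.1, ⟨H _ t26405.2.2.2.2.2.2.2, H _ t26413.1⟩⟩⟩⟩⟩⟩, ⟨⟨⟨⟨⟨H _ t26413.2.1, H _ t26413.2.2.1⟩,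 ⟨H _ t26413.2.2.2.1, H _ t26413.2.2.2.2.1⟩⟩, ⟨⟨H _ t26413.2.2.2.2.2.1, H _ t26413.2.2.2.2.2.2.1⟩, ⟨H _ t26413.2.2.2.2.2.2.2, ⟨H _ t26421.1, H _ t26421.2.1⟩⟩⟩⟩, ⟨⟨⟨H _ t26421.2.2.1, H _ t26421.2.2.2.1⟩, ⟨H _ t26421.2.2.2.2.1, H _ t26421.2.2.2.2.2.1⟩⟩, ⟨⟨H _ t26421.2.2.2.2.2.2.1, H _ t26421.2.2.2.2.2.2.2⟩, ⟨H _ t26429.1, ⟨H _ t26429.2.1, H _ t26429.2.2.1⟩⟩⟩⟩⟩, ⟨⟨⟨⟨H _ t26429.2.2.2.1, H _ t26429.2.2.2.2.1⟩, ⟨H _ t26429.2.2.2.2.2.1, H _ t26429.2.2.2.2.2.2.1⟩⟩, ⟨⟨H _ t26429.2.2.2.2.2.2.2, H _ t26437.1⟩, ⟨H _ t26437.2.1, ⟨H _ t26437.2.2.1, H _ t26437.2.2.2.1⟩⟩⟩⟩, ⟨⟨⟨H _ t26437.2.2.2.2.1, H _ t26437.2.2.2.2.2.1⟩, ⟨H _ t26437.2.2.2.2.2.2.1, H _ t26437.2.2.2.2.2.2.2⟩⟩, ⟨⟨H _ t26445.1, H _ t26445.2.1⟩, ⟨H _ t26445.2.2.1, ⟨H _ t26445.2.2.2.1, H _ t26445.2.2.2.2.1⟩⟩⟩⟩⟩⟩⟩⟩, ⟨⟨⟨⟨⟨⟨⟨H _ t26445.2.2.2.2.2.1, H _ t26445.2.2.2.2.2.2.1⟩, ⟨H _ t26445.2.2.2.2.2.2.2, H _ t26453.1⟩⟩, ⟨⟨H _ t26453.2.1, H _ t26453.2.2.1⟩,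 ⟨H _ t26453.2.2.2.1, H _ t26453.2.2.2.2.1⟩⟩⟩, ⟨⟨⟨H _ t26453.2.2.2.2.2.1, H _ t26453.2.2.2.2.2.2.1⟩, ⟨H _ t26453.2.2.2.2.2.2.2, H _ t26461.1⟩⟩, ⟨⟨H _ t26461.2.1, H _ t26461.2.2.1⟩, ⟨H _ t26461.2.2.2.1, ⟨H _ t26461.2.2.2.2.1, H _ t26461.2.2.2.2.2.1⟩⟩⟩⟩⟩, ⟨⟨⟨⟨H _ t26461.2.2.2.2.2.2.1, H _ t26461.2.2.2.2.2.2.2⟩, ⟨H _ t26469.1, H _ t26469.2.1⟩⟩, ⟨⟨H _ t26469.2.2.1, H _ t26469.2.2.2.1⟩, ⟨H _ t26469.2.2.2.2.1, ⟨H _ t26469.2.2.2.2.2.1, H _ t26469.2.2.2.2.2.2.1⟩⟩⟩⟩, ⟨⟨⟨H _ t26469.2.2.2.2.2.2.2, H _ t26477.1⟩, ⟨H _ t26477.2.1, H _ t26477.2.2.1⟩⟩, ⟨⟨H _ t26477.2.2.2.1, H _ t26477.2.2.2.2.1⟩, ⟨H _ t26477.2.2.2.2.2.1, ⟨H _ t26477.2.2.2.2.2.2.1, H _ t26477.2.2.2.2.2.2.2⟩⟩⟩⟩⟩⟩, ⟨⟨⟨⟨⟨H _ t26485.1, H _ t26485.2.1⟩, ⟨H _ t26485.2.2.1, H _ t26485.2.2.2.1⟩⟩, ⟨⟨H _ t26485.2.2.2.2.1, H _ t26485.2.2.2.2.2.1⟩, ⟨H _ t26485.2.2.2.2.2.2.1, H _ t26485.2.2.2.2.2.2.2⟩⟩⟩, ⟨⟨⟨H _ t26493.1, H _ t26493.2.1⟩, ⟨H _ t26493.2.2.1,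 H _ t26493.2.2.2.1⟩⟩, ⟨⟨H _ t26493.2.2.2.2.1, H _ t26493.2.2.2.2.2.1⟩, ⟨H _ t26493.2.2.2.2.2.2.1, ⟨H _ t26493.2.2.2.2.2.2.2, H _ t26501.1⟩⟩⟩⟩⟩, ⟨⟨⟨⟨H _ t26501.2.1, H _ t26501.2.2.1⟩, ⟨H _ t26501.2.2.2.1, H _ t26501.2.2.2.2.1⟩⟩, ⟨⟨H _ t26501.2.2.2.2.2.1, H _ t26501.2.2.2.2.2.2.1⟩, ⟨H _ t26501.2.2.2.2.2.2.2, ⟨H _ t26509.1, H _ t26509.2.1⟩⟩⟩⟩, ⟨⟨⟨H _ t26509.2.2.1, H _ t26509.2.2.2.1⟩, ⟨H _ t26509.2.2.2.2.1, H _ t26509.2.2.2.2.2.1⟩⟩, ⟨⟨H _ t26509.2.2.2.2.2.2.1, H _ t26509.2.2.2.2.2.2.2⟩, ⟨H _ t26517.1, ⟨H _ t26517.2.1, H _ t26517.2.2.1⟩⟩⟩⟩⟩⟩⟩, ⟨⟨⟨⟨⟨⟨H _ t26517.2.2.2.1, H _ t26517.2.2.2.2.1⟩, ⟨H _ t26517.2.2.2.2.2.1, H _ t26517.2.2.2.2.2.2.1⟩⟩, ⟨⟨H _ t26517.2.2.2.2.2.2.2, H _ t26525.1⟩, ⟨H _ t26525.2.1, H _ t26525.2.2.1⟩⟩⟩, ⟨⟨⟨H _ t26525.2.2.2.1, H _ t26525.2.2.2.2.1⟩, ⟨H _ t26525.2.2.2.2.2.1, H _ t26525.2.2.2.2.2.2.1⟩⟩, ⟨⟨H _ t26525.2.2.2.2.2.2.2, H _ t26533.1⟩, ⟨H _ t26533.2.1, ⟨H _ t26533.2.2.1,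 H _ t26533.2.2.2.1⟩⟩⟩⟩⟩, ⟨⟨⟨⟨H _ t26533.2.2.2.2.1, H _ t26533.2.2.2.2.2.1⟩, ⟨H _ t26533.2.2.2.2.2.2.1, H _ t26533.2.2.2.2.2.2.2⟩⟩, ⟨⟨H _ t26541.1, H _ t26541.2.1⟩, ⟨H _ t26541.2.2.1, ⟨H _ t26541.2.2.2.1, H _ t26541.2.2.2.2.1⟩⟩⟩⟩, ⟨⟨⟨H _ t26541.2.2.2.2.2.1, H _ t26541.2.2.2.2.2.2.1⟩, ⟨H _ t26541.2.2.2.2.2.2.2, H _ t26549.1⟩⟩, ⟨⟨H _ t26549.2.1, H _ t26549.2.2.1⟩, ⟨H _ t26549.2.2.2.1, ⟨H _ t26549.2.2.2.2.1, H _ t26549.2.2.2.2.2.1⟩⟩⟩⟩⟩⟩, ⟨⟨⟨⟨⟨H _ t26549.2.2.2.2.2.2.1, H _ t26549.2.2.2.2.2.2.2⟩, ⟨H _ t26557.1, H _ t26557.2.1⟩⟩, ⟨⟨H _ t26557.2.2.1, H _ t26557.2.2.2.1⟩, ⟨H _ t26557.2.2.2.2.1, ⟨H _ t26557.2.2.2.2.2.1, H _ t26557.2.2.2.2.2.2.1⟩⟩⟩⟩, ⟨⟨⟨H _ t26557.2.2.2.2.2.2.2, H _ t26565.1⟩, ⟨H _ t26565.2.1, H _ t26565.2.2.1⟩⟩, ⟨⟨H _ t26565.2.2.2.1, H _ t26565.2.2.2.2.1⟩, ⟨H _ t26565.2.2.2.2.2.1, ⟨H _ t26565.2.2.2.2.2.2.1, H _ t26565.2.2.2.2.2.2.2⟩⟩⟩⟩⟩, ⟨⟨⟨⟨H _ t26573.1, H _ t26573.2.1⟩, ⟨H _ t26573.2.2.1,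 H _ t26573.2.2.2.1⟩⟩, ⟨⟨H _ t26573.2.2.2.2.1, H _ t26573.2.2.2.2.2.1⟩, ⟨H _ t26573.2.2.2.2.2.2.1, ⟨H _ t26573.2.2.2.2.2.2.2, H _ t26581.1⟩⟩⟩⟩, ⟨⟨⟨H _ t26581.2.1, H _ t26581.2.2.1⟩, ⟨H _ t26581.2.2.2.1, H _ t26581.2.2.2.2.1⟩⟩, ⟨⟨H _ t26581.2.2.2.2.2.1, H _ t26581.2.2.2.2.2.2.1⟩, ⟨H _ t26581.2.2.2.2.2.2.2, ⟨H _ t26589.1, H _ t26589.2.1⟩⟩⟩⟩⟩⟩⟩⟩⟩, ⟨⟨⟨⟨⟨⟨⟨⟨H _ t26589.2.2.1, H _ t26589.2.2.2.1⟩, ⟨H _ t26589.2.2.2.2.1, H _ t26589.2.2.2.2.2.1⟩⟩, ⟨⟨H _ t26589.2.2.2.2.2.2.1, H _ t26589.2.2.2.2.2.2.2⟩, ⟨H _ t26597.1, H _ t26597.2.1⟩⟩⟩, ⟨⟨⟨H _ t26597.2.2.1, H _ t26597.2.2.2.1⟩, ⟨H _ t26597.2.2.2.2.1, H _ t26597.2.2.2.2.2.1⟩⟩, ⟨⟨H _ t26597.2.2.2.2.2.2.1, H _ t26597.2.2.2.2.2.2.2⟩, ⟨H _ t26605.1, ⟨H _ t26605.2.1, H _ t26605.2.2.1⟩⟩⟩⟩⟩, ⟨⟨⟨⟨H _ t26605.2.2.2.1, H _ t26605.2.2.2.2.1⟩, ⟨H _ t26605.2.2.2.2.2.1, H _ t26605.2.2.2.2.2.2.1⟩⟩, ⟨⟨H _ t26605.2.2.2.2.2.2.2, H _ t26613.1⟩, ⟨H _ t26613.2.1, ⟨H _ t26613.2.2.1,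 H _ t26613.2.2.2.1⟩⟩⟩⟩, ⟨⟨⟨H _ t26613.2.2.2.2.1, H _ t26613.2.2.2.2.2.1⟩, ⟨H _ t26613.2.2.2.2.2.2.1, H _ t26613.2.2.2.2.2.2.2⟩⟩, ⟨⟨H _ t26621.1, H _ t26621.2.1⟩, ⟨H _ t26621.2.2.1, ⟨H _ t26621.2.2.2.1, H _ t26621.2.2.2.2.1⟩⟩⟩⟩⟩⟩, ⟨⟨⟨⟨⟨H _ t26621.2.2.2.2.2.1, H _ t26621.2.2.2.2.2.2.1⟩, ⟨H _ t26621.2.2.2.2.2.2.2, H _ t26629.1⟩⟩, ⟨⟨H _ t26629.2.1, H _ t26629.2.2.1⟩, ⟨H _ t26629.2.2.2.1, H _ t26629.2.2.2.2.1⟩⟩⟩, ⟨⟨⟨H _ t26629.2.2.2.2.2.1, H _ t26629.2.2.2.2.2.2.1⟩, ⟨H _ t26629.2.2.2.2.2.2.2, H _ t26637.1⟩⟩, ⟨⟨H _ t26637.2.1, H _ t26637.2.2.1⟩, ⟨H _ t26637.2.2.2.1, ⟨H _ t26637.2.2.2.2.1, H _ t26637.2.2.2.2.2.1⟩⟩⟩⟩⟩, ⟨⟨⟨⟨H _ t26637.2.2.2.2.2.2.1, H _ t26637.2.2.2.2.2.2.2⟩, ⟨H _ t26645.1, H _ t26645.2.1⟩⟩, ⟨⟨H _ t26645.2.2.1, H _ t26645.2.2.2.1⟩, ⟨H _ t26645.2.2.2.2.1, ⟨H _ t26645.2.2.2.2.2.1, H _ t26645.2.2.2.2.2.2.1⟩⟩⟩⟩, ⟨⟨⟨H _ t26645.2.2.2.2.2.2.2, H _ t26653.1⟩, ⟨H _ t26653.2.1, H _ t26653.2.2.1⟩⟩,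 ⟨⟨H _ t26653.2.2.2.1, H _ t26653.2.2.2.2.1⟩, ⟨H _ t26653.2.2.2.2.2.1, ⟨H _ t26653.2.2.2.2.2.2.1, H _ t26653.2.2.2.2.2.2.2⟩⟩⟩⟩⟩⟩⟩, ⟨⟨⟨⟨⟨⟨H _ t26661.1, H _ t26661.2.1⟩, ⟨H _ t26661.2.2.1, H _ t26661.2.2.2.1⟩⟩, ⟨⟨H _ t26661.2.2.2.2.1, H _ t26661.2.2.2.2.2.1⟩, ⟨H _ t26661.2.2.2.2.2.2.1, H _ t26661.2.2.2.2.2.2.2⟩⟩⟩, ⟨⟨⟨H _ t26669.1, H _ t26669.2.1⟩, ⟨H _ t26669.2.2.1, H _ t26669.2.2.2.1⟩⟩, ⟨⟨H _ t26669.2.2.2.2.1, H _ t26669.2.2.2.2.2.1⟩, ⟨H _ t26669.2.2.2.2.2.2.1, ⟨H _ t26669.2.2.2.2.2.2.2, H _ t26677.1⟩⟩⟩⟩⟩, ⟨⟨⟨⟨H _ t26677.2.1, H _ t26677.2.2.1⟩, ⟨H _ t26677.2.2.2.1, H _ t26677.2.2.2.2.1⟩⟩, ⟨⟨H _ t26677.2.2.2.2.2.1, H _ t26677.2.2.2.2.2.2.1⟩, ⟨H _ t26677.2.2.2.2.2.2.2, ⟨H _ t26685.1, H _ t26685.2.1⟩⟩⟩⟩, ⟨⟨⟨H _ t26685.2.2.1, H _ t26685.2.2.2.1⟩, ⟨H _ t26685.2.2.2.2.1, H _ t26685.2.2.2.2.2.1⟩⟩, ⟨⟨H _ t26685.2.2.2.2.2.2.1, H _ t26685.2.2.2.2.2.2.2⟩, ⟨H _ t26693.1, ⟨H _ t26693.2.1, H _ t26693.2.2.1⟩⟩⟩⟩⟩⟩,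 ⟨⟨⟨⟨⟨H _ t26693.2.2.2.1, H _ t26693.2.2.2.2.1⟩, ⟨H _ t26693.2.2.2.2.2.1, H _ t26693.2.2.2.2.2.2.1⟩⟩, ⟨⟨H _ t26693.2.2.2.2.2.2.2, H _ t26701.1⟩, ⟨H _ t26701.2.1, ⟨H _ t26701.2.2.1, H _ t26701.2.2.2.1⟩⟩⟩⟩, ⟨⟨⟨H _ t26701.2.2.2.2.1, H _ t26701.2.2.2.2.2.1⟩, ⟨H _ t26701.2.2.2.2.2.2.1, H _ t26701.2.2.2.2.2.2.2⟩⟩, ⟨⟨H _ t26709.1, H _ t26709.2.1⟩, ⟨H _ t26709.2.2.1, ⟨H _ t26709.2.2.2.1, H _ t26709.2.2.2.2.1⟩⟩⟩⟩⟩, ⟨⟨⟨⟨H _ t26709.2.2.2.2.2.1, H _ t26709.2.2.2.2.2.2.1⟩, ⟨H _ t26709.2.2.2.2.2.2.2, H _ t26717.1⟩⟩, ⟨⟨H _ t26717.2.1, H _ t26717.2.2.1⟩, ⟨H _ t26717.2.2.2.1, ⟨H _ t26717.2.2.2.2.1, H _ t26717.2.2.2.2.2.1⟩⟩⟩⟩, ⟨⟨⟨H _ t26717.2.2.2.2.2.2.1, H _ t26717.2.2.2.2.2.2.2⟩, ⟨H _ t26725.1, H _ t26725.2.1⟩⟩, ⟨⟨H _ t26725.2.2.1, H _ t26725.2.2.2.1⟩, ⟨H _ t26725.2.2.2.2.1, ⟨H _ t26725.2.2.2.2.2.1, H _ t26725.2.2.2.2.2.2.1⟩⟩⟩⟩⟩⟩⟩⟩, ⟨⟨⟨⟨⟨⟨⟨H _ t26725.2.2.2.2.2.2.2, H _ t26733.1⟩, ⟨H _ t26733.2.1, H _ t26733.2.2.1⟩⟩,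 ⟨⟨H _ t26733.2.2.2.1, H _ t26733.2.2.2.2.1⟩, ⟨H _ t26733.2.2.2.2.2.1, H _ t26733.2.2.2.2.2.2.1⟩⟩⟩, ⟨⟨⟨H _ t26733.2.2.2.2.2.2.2, H _ t26741.1⟩, ⟨H _ t26741.2.1, H _ t26741.2.2.1⟩⟩, ⟨⟨H _ t26741.2.2.2.1, H _ t26741.2.2.2.2.1⟩, ⟨H _ t26741.2.2.2.2.2.1, ⟨H _ t26741.2.2.2.2.2.2.1, H _ t26741.2.2.2.2.2.2.2⟩⟩⟩⟩⟩, ⟨⟨⟨⟨H _ t26749.1, H _ t26749.2.1⟩, ⟨H _ t26749.2.2.1, H _ t26749.2.2.2.1⟩⟩, ⟨⟨H _ t26749.2.2.2.2.1, H _ t26749.2.2.2.2.2.1⟩, ⟨H _ t26749.2.2.2.2.2.2.1, ⟨H _ t26749.2.2.2.2.2.2.2, H _ t26757.1⟩⟩⟩⟩, ⟨⟨⟨H _ t26757.2.1, H _ t26757.2.2.1⟩, ⟨H _ t26757.2.2.2.1, H _ t26757.2.2.2.2.1⟩⟩, ⟨⟨H _ t26757.2.2.2.2.2.1, H _ t26757.2.2.2.2.2.2.1⟩, ⟨H _ t26757.2.2.2.2.2.2.2, ⟨H _ t26765.1, H _ t26765.2.1⟩⟩⟩⟩⟩⟩, ⟨⟨⟨⟨⟨H _ t26765.2.2.1, H _ t26765.2.2.2.1⟩, ⟨H _ t26765.2.2.2.2.1, H _ t26765.2.2.2.2.2.1⟩⟩, ⟨⟨H _ t26765.2.2.2.2.2.2.1, H _ t26765.2.2.2.2.2.2.2⟩, ⟨H _ t26773.1, H _ t26773.2.1⟩⟩⟩, ⟨⟨⟨H _ t26773.2.2.1,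 H _ t26773.2.2.2.1⟩, ⟨H _ t26773.2.2.2.2.1, H _ t26773.2.2.2.2.2.1⟩⟩, ⟨⟨H _ t26773.2.2.2.2.2.2.1, H _ t26773.2.2.2.2.2.2.2⟩, ⟨H _ t26781.1, ⟨H _ t26781.2.1, H _ t26781.2.2.1⟩⟩⟩⟩⟩, ⟨⟨⟨⟨H _ t26781.2.2.2.1, H _ t26781.2.2.2.2.1⟩, ⟨H _ t26781.2.2.2.2.2.1, H _ t26781.2.2.2.2.2.2.1⟩⟩, ⟨⟨H _ t26781.2.2.2.2.2.2.2, H _ t26789.1⟩, ⟨H _ t26789.2.1, ⟨H _ t26789.2.2.1, H _ t26789.2.2.2.1⟩⟩⟩⟩, ⟨⟨⟨H _ t26789.2.2.2.2.1, H _ t26789.2.2.2.2.2.1⟩, ⟨H _ t26789.2.2.2.2.2.2.1, H _ t26789.2.2.2.2.2.2.2⟩⟩, ⟨⟨H _ t26797.1, H _ t26797.2.1⟩, ⟨H _ t26797.2.2.1, ⟨H _ t26797.2.2.2.1, H _ t26797.2.2.2.2.1⟩⟩⟩⟩⟩⟩⟩, ⟨⟨⟨⟨⟨⟨H _ t26797.2.2.2.2.2.1, H _ t26797.2.2.2.2.2.2.1⟩, ⟨H _ t26797.2.2.2.2.2.2.2, H _ t26805.1⟩⟩, ⟨⟨H _ t26805.2.1, H _ t26805.2.2.1⟩, ⟨H _ t26805.2.2.2.1, H _ t26805.2.2.2.2.1⟩⟩⟩, ⟨⟨⟨H _ t26805.2.2.2.2.2.1, H _ t26805.2.2.2.2.2.2.1⟩, ⟨H _ t26805.2.2.2.2.2.2.2, H _ t26813.1⟩⟩, ⟨⟨H _ t26813.2.1, H _ t26813.2.2.1⟩,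 ⟨H _ t26813.2.2.2.1, ⟨H _ t26813.2.2.2.2.1, H _ t26813.2.2.2.2.2.1⟩⟩⟩⟩⟩, ⟨⟨⟨⟨H _ t26813.2.2.2.2.2.2.1, H _ t26813.2.2.2.2.2.2.2⟩, ⟨H _ t26821.1, H _ t26821.2.1⟩⟩, ⟨⟨H _ t26821.2.2.1, H _ t26821.2.2.2.1⟩, ⟨H _ t26821.2.2.2.2.1, ⟨H _ t26821.2.2.2.2.2.1, H _ t26821.2.2.2.2.2.2.1⟩⟩⟩⟩, ⟨⟨⟨H _ t26821.2.2.2.2.2.2.2, H _ t26829.1⟩, ⟨H _ t26829.2.1, H _ t26829.2.2.1⟩⟩, ⟨⟨H _ t26829.2.2.2.1, H _ t26829.2.2.2.2.1⟩, ⟨H _ t26829.2.2.2.2.2.1, ⟨H _ t26829.2.2.2.2.2.2.1, H _ t26829.2.2.2.2.2.2.2⟩⟩⟩⟩⟩⟩, ⟨⟨⟨⟨⟨H _ t26837.1, H _ t26837.2.1⟩, ⟨H _ t26837.2.2.1, H _ t26837.2.2.2.1⟩⟩, ⟨⟨H _ t26837.2.2.2.2.1, H _ t26837.2.2.2.2.2.1⟩, ⟨H _ t26837.2.2.2.2.2.2.1, ⟨H _ t26837.2.2.2.2.2.2.2, H _ t26845.1⟩⟩⟩⟩, ⟨⟨⟨H _ t26845.2.1, H _ t26845.2.2.1⟩, ⟨H _ t26845.2.2.2.1, H _ t26845.2.2.2.2.1⟩⟩, ⟨⟨H _ t26845.2.2.2.2.2.1, H _ t26845.2.2.2.2.2.2.1⟩, ⟨H _ t26845.2.2.2.2.2.2.2, ⟨H _ t26853.1, H _ t26853.2.1⟩⟩⟩⟩⟩, ⟨⟨⟨⟨H _ t26853.2.2.1,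 H _ t26853.2.2.2.1⟩, ⟨H _ t26853.2.2.2.2.1, H _ t26853.2.2.2.2.2.1⟩⟩, ⟨⟨H _ t26853.2.2.2.2.2.2.1, H _ t26853.2.2.2.2.2.2.2⟩, ⟨H _ t26861.1, ⟨H _ t26861.2.1, H _ t26861.2.2.1⟩⟩⟩⟩, ⟨⟨⟨H _ t26861.2.2.2.1, H _ t26861.2.2.2.2.1⟩, ⟨H _ t26861.2.2.2.2.2.1, H _ t26861.2.2.2.2.2.2.1⟩⟩, ⟨⟨H _ t26861.2.2.2.2.2.2.2, H _ t26869.1⟩, ⟨H _ t26869.2.1, ⟨H _ t26869.2.2.1, H _ t26869.2.2.2⟩⟩⟩⟩⟩⟩⟩⟩⟩⟩

end Pool.Agent.MP_c853c5_nt.X.C4950
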