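import Pool.Agent.MP_c853c5_nt.X.C4950.Env
import Pool.Agent.MP_c853c5_nt.X.C4950.D9

set_option autoImplicit false
set_option maxRecDepth 8192
set_option linter.all false

namespace Pool.Agent.MP_c853c5_nt.X.C4950

open Pool.Agent.MP_c853c5_nt.X

def t26873 : allY (E.wth (lkp [])) l26873 = true ∧
    allY (E.wth (lkp [])) l26874 = true ∧
    allY (E.wth (lkp [])) l26875 = true ∧
    allY (E.wth (lkp [])) l26876 = true ∧
    allY (E.wth (lkp [])) l26877 = true ∧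
    allY (E.wth (lkp [])) l26878 = true ∧
    allY (E.wth (lkp [])) l26879 = true ∧
    allY (E.wth (lkp [])) l26880 = true :=
  ⟨by decide +kernel, by decide +kernel, by decide +kernel, by decide +kernel, by decide +kernel, by decide +kernel, by decide +kernel, by decide +kernel⟩

def t26881 : allY (E.wth (lkp [])) l26881 = true ∧
    allY (E.wth (lkp [])) l26882 = true ∧
    allY (E.wth (lkp [])) l26883 = true ∧
    allY (E.wth (lkp [])) l26884 = true ∧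
    allY (E.wth (lkp [])) l26885 = true ∧
    allY (E.wth (lkp [])) l26886 = true ∧
    allY (E.wth (lkp [])) l26887 = true ∧
    allY (E.wth (lkp [])) l26888 = true :=
  ⟨by decide +kernel, by decide +kernel, by decide +kernel, by decide +kernel, by decide +kernel, by decide +kernel, by decide +kernel, by decide +kernel⟩

def t26889 : allY (E.wth (lkp [])) l26889 = true ∧
    allY (E.wth (lkp [])) l26890 = true ∧
    allY (E.wth (lkp [])) l26891 = true ∧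
    allY (E.wth (lkp [])) l26892 = true ∧
    allY (E.wth (lkp [])) l26893 = true ∧
    allY (E.wth (lkp [])) l26894 = true ∧
    allY (E.wth (lkp [])) l26895 = true ∧
    allY (E.wth (lkp [])) l26896 = true :=
  ⟨by decide +kernel, by decide +kernel, by decide +kernel, by decide +kernel, by decide +kernel, by decide +kernel, by decide +kernel, by decide +kernel⟩

def t26897 : allY (E.wth (lkp [])) l26897 = true ∧
    allY (E.wth (lkp [])) l26898 = true ∧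
    allY (E.wth (lkp [])) l26899 = true ∧
    allY (E.wth (lkp [])) l26900 = true ∧
    allY (E.wth (lkp [])) l26901 = true ∧
    allY (E.wth (lkp [])) l26902 = true ∧
    allY (E.wth (lkp [])) l26903 = true ∧
    allY (E.wth (lkp [])) l26904 = true :=
  ⟨by decide +kernel, by decide +kernel, by decide +kernel, by decide +kernel, by decide +kernel, by decide +kernel, by decide +kernel, by decide +kernel⟩

def t26905 : allY (E.wth (lkp [])) l26905 = true ∧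
    allY (E.wth (lkp [])) l26906 = true ∧
    allY (E.wth (lkp [])) l26907 = true ∧
    allY (E.wth (lkp [])) l26908 = true ∧
    allY (E.wth (lkp [])) l26909 = true ∧
    allY (E.wth (lkp [])) l26910 = true ∧
    allY (E.wth (lkp [])) l26911 = true ∧
    allY (E.wth (lkp [])) l26912 = true :=
  ⟨by decide +kernel, by decide +kernel, by decide +kernel, by decide +kernel, by decide +kernel, by decide +kernel, by decide +kernel, by decide +kernel⟩

def t26913 : allY (E.wth (lkp [])) l26913 = true ∧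
    allY (E.wth (lkp [])) l26914 = true ∧
    allY (E.wth (lkp [])) l26915 = true ∧
    allY (E.wth (lkp [])) l26916 = true ∧
    allY (E.wth (lkp [])) l26917 = true ∧
    allY (E.wth (lkp [])) l26918 = true ∧
    allY (E.wth (lkp [])) l26919 = true ∧
    allY (E.wth (lkp [])) l26920 = true :=
  ⟨by decide +kernel, by decide +kernel, by decide +kernel, by decide +kernel, by decide +kernel, by decide +kernel, by decide +kernel, by decide +kernel⟩

def t26921 : allY (E.wth (lkp [])) l26921 = true ∧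
    allY (E.wth (lkp [])) l26922 = true ∧
    allY (E.wth (lkp [])) l26923 = true ∧
    allY (E.wth (lkp [])) l26924 = true ∧
    allY (E.wth (lkp [])) l26925 = true ∧
    allY (E.wth (lkp [])) l26926 = true ∧
    allY (E.wth (lkp [])) l26927 = true ∧
    allY (E.wth (lkp [])) l26928 = true :=
  ⟨by decide +kernel, by decide +kernel, by decide +kernel, by decide +kernel, by decide +kernel, by decide +kernel, by decide +kernel, by decide +kernel⟩

def t26929 : allY (E.wth (lkp [])) l26929 = true ∧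
    allY (E.wth (lkp [])) l26930 = true ∧
    allY (E.wth (lkp [])) l26931 = true ∧
    allY (E.wth (lkp [])) l26932 = true ∧
    allY (E.wth (lkp [])) l26933 = true ∧
    allY (E.wth (lkp [])) l26934 = true ∧
    allY (E.wth (lkp [])) l26935 = true ∧
    allY (E.wth (lkp [])) l26936 = true :=
  ⟨by decide +kernel, by decide +kernel, by decide +kernel, by decide +kernel, by decide +kernel, by decide +kernel, by decide +kernel, by decide +kernel⟩

def t26937 : allY (E.wth (lkp [])) l26937 = true ∧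
    allY (E.wth (lkp [])) l26938 = true ∧
    allY (E.wth (lkp [])) l26939 = true ∧
    allY (E.wth (lkp [])) l26940 = true ∧
    allY (E.wth (lkp [])) l26941 = true ∧
    allY (E.wth (lkp [])) l26942 = true ∧
    allY (E.wth (lkp [])) l26943 = true ∧
    allY (E.wth (lkp [])) l26944 = true :=
  ⟨by decide +kernel, by decide +kernel, by decide +kernel, by decide +kernel, by decide +kernel, by decide +kernel, by decide +kernel, by decide +kernel⟩

def t26945 : allY (E.wth (lkp [])) l26945 = true ∧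
    allY (E.wth (lkp [])) l26946 = true ∧
    allY (E.wth (lkp [])) l26947 = true ∧
    allY (E.wth (lkp [])) l26948 = true ∧
    allY (E.wth (lkp [])) l26949 = true ∧
    allY (E.wth (lkp [])) l26950 = true ∧
    allY (E.wth (lkp [])) l26951 = true ∧
    allY (E.wth (lkp [])) l26952 = true :=
  ⟨by decide +kernel, by decide +kernel, by decide +kernel, by decide +kernel, by decide +kernel, by decide +kernel, by decide +kernel, by decide +kernel⟩

def t26953 : allY (E.wth (lkp [])) l26953 = true ∧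
    allY (E.wth (lkp [])) l26954 = true ∧
    allY (E.wth (lkp [])) l26955 = true ∧
    allY (E.wth (lkp [])) l26956 = true ∧
    allY (E.wth (lkp [])) l26957 = true ∧
    allY (E.wth (lkp [])) l26958 = true ∧
    allY (E.wth (lkp [])) l26959 = true ∧
    allY (E.wth (lkp [])) l26960 = true :=
  ⟨by decide +kernel, by decide +kernel, by decide +kernel, by decide +kernel, by decide +kernel, by decide +kernel, by decide +kernel, by decide +kernel⟩

def t26961 : allY (E.wth (lkp [])) l26961 = true ∧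
    allY (E.wth (lkp [])) l26962 = true ∧
    allY (E.wth (lkp [])) l26963 = true ∧
    allY (E.wth (lkp [])) l26964 = true ∧
    allY (E.wth (lkp [])) l26965 = true ∧
    allY (E.wth (lkp [])) l26966 = true ∧
    allY (E.wth (lkp [])) l26967 = true ∧
    allY (E.wth (lkp [])) l26968 = true :=
  ⟨by decide +kernel, by decide +kernel, by decide +kernel, by decide +kernel, by decide +kernel, by decide +kernel, by decide +kernel, by decide +kernel⟩

def t26969 : allY (E.wth (lkp [])) l26969 = true ∧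
    allY (E.wth (lkp [])) l26970 = true ∧
    allY (E.wth (lkp [])) l26971 = true ∧
    allY (E.wth (lkp [])) l26972 = true ∧
    allY (E.wth (lkp [])) l26973 = true ∧
    allY (E.wth (lkp [])) l26974 = true ∧
    allY (E.wth (lkp [])) l26975 = true ∧
    allY (E.wth (lkp [])) l26976 = true :=
  ⟨by decide +kernel, by decide +kernel, by decide +kernel, by decide +kernel, by decide +kernel, by decide +kernel, by decide +kernel, by decide +kernel⟩

def t26977 : allY (E.wth (lkp [])) l26977 = true ∧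
    allY (E.wth (lkp [])) l26978 = true ∧
    allY (E.wth (lkp [])) l26979 = true ∧
    allY (E.wth (lkp [])) l26980 = true ∧
    allY (E.wth (lkp [])) l26981 = true ∧
    allY (E.wth (lkp [])) l26982 = true ∧
    allY (E.wth (lkp [])) l26983 = true ∧
    allY (E.wth (lkp [])) l26984 = true :=
  ⟨by decide +kernel, by decide +kernel, by decide +kernel, by decide +kernel, by decide +kernel, by decide +kernel, by decide +kernel, by decide +kernel⟩

def t26985 : allY (E.wth (lkp [])) l26985 = true ∧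
    allY (E.wth (lkp [])) l26986 = true ∧
    allY (E.wth (lkp [])) l26987 = true ∧
    allY (E.wth (lkp [])) l26988 = true ∧
    allY (E.wth (lkp [])) l26989 = true ∧
    allY (E.wth (lkp [])) l26990 = true ∧
    allY (E.wth (lkp [])) l26991 = true ∧
    allY (E.wth (lkp [])) l26992 = true :=
  ⟨by decide +kernel, by decide +kernel, by decide +kernel, by decide +kernel, by decide +kernel, by decide +kernel, by decide +kernel, by decide +kernel⟩

def t26993 : allY (E.wth (lkp [])) l26993 = true ∧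
    allY (E.wth (lkp [])) l26994 = true ∧
    allY (E.wth (lkp [])) l26995 = true ∧
    allY (E.wth (lkp [])) l26996 = true ∧
    allY (E.wth (lkp [])) l26997 = true ∧
    allY (E.wth (lkp [])) l26998 = true ∧
    allY (E.wth (lkp [])) l26999 = true ∧
    allY (E.wth (lkp [])) l27000 = true :=
  ⟨by decide +kernel, by decide +kernel, by decide +kernel, by decide +kernel, by decide +kernel, by decide +kernel, by decide +kernel, by decide +kernel⟩

def t27001 : allY (E.wth (lkp [])) l27001 = true ∧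
    allY (E.wth (lkp [])) l27002 = true ∧
    allY (E.wth (lkp [])) l27003 = true ∧
    allY (E.wth (lkp [])) l27004 = true ∧
    allY (E.wth (lkp [])) l27005 = true ∧
    allY (E.wth (lkp [])) l27006 = true ∧
    allY (E.wth (lkp [])) l27007 = true ∧
    allY (E.wth (lkp [])) l27008 = true :=
  ⟨by decide +kernel, by decide +kernel, by decide +kernel, by decide +kernel, by decide +kernel, by decide +kernel, by decide +kernel, by decide +kernel⟩

def t27009 : allY (E.wth (lkp [])) l27009 = true ∧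
    allY (E.wth (lkp [])) l27010 = true ∧
    allY (E.wth (lkp [])) l27011 = true ∧
    allY (E.wth (lkp [])) l27012 = true ∧
    allY (E.wth (lkp [])) l27013 = true ∧
    allY (E.wth (lkp [])) l27014 = true ∧
    allY (E.wth (lkp [])) l27015 = true ∧
    allY (E.wth (lkp [])) l27016 = true :=
  ⟨by decide +kernel, by decide +kernel, by decide +kernel, by decide +kernel, by decide +kernel, by decide +kernel, by decide +kernel, by decide +kernel⟩

def t27017 : allY (E.wth (lkp [])) l27017 = true ∧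
    allY (E.wth (lkp [])) l27018 = true ∧
    allY (E.wth (lkp [])) l27019 = true ∧
    allY (E.wth (lkp [])) l27020 = true ∧
    allY (E.wth (lkp [])) l27021 = true ∧
    allY (E.wth (lkp [])) l27022 = true ∧
    allY (E.wth (lkp [])) l27023 = true ∧
    allY (E.wth (lkp [])) l27024 = true :=
  ⟨by decide +kernel, by decide +kernel, by decide +kernel, by decide +kernel, by decide +kernel, by decide +kernel, by decide +kernel, by decide +kernel⟩

def t27025 : allY (E.wth (lkp [])) l27025 = true ∧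
    allY (E.wth (lkp [])) l27026 = true ∧
    allY (E.wth (lkp [])) l27027 = true ∧
    allY (E.wth (lkp [])) l27028 = true ∧
    allY (E.wth (lkp [])) l27029 = true ∧
    allY (E.wth (lkp [])) l27030 = true ∧
    allY (E.wth (lkp [])) l27031 = true ∧
    allY (E.wth (lkp [])) l27032 = true :=
  ⟨by decide +kernel, by decide +kernel, by decide +kernel, by decide +kernel, by decide +kernel, by decide +kernel, by decide +kernel, by decide +kernel⟩

def t27033 : allY (E.wth (lkp [])) l27033 = true ∧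
    allY (E.wth (lkp [])) l27034 = true ∧
    allY (E.wth (lkp [])) l27035 = true ∧
    allY (E.wth (lkp [])) l27036 = true ∧
    allY (E.wth (lkp [])) l27037 = true ∧
    allY (E.wth (lkp [])) l27038 = true ∧
    allY (E.wth (lkp [])) l27039 = true ∧
    allY (E.wth (lkp [])) l27040 = true :=
  ⟨by decide +kernel, by decide +kernel, by decide +kernel, by decide +kernel, by decide +kernel, by decide +kernel, by decide +kernel, by decide +kernel⟩

def t27041 : allY (E.wth (lkp [])) l27041 = true ∧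
    allY (E.wth (lkp [])) l27042 = true ∧
    allY (E.wth (lkp [])) l27043 = true ∧
    allY (E.wth (lkp [])) l27044 = true ∧
    allY (E.wth (lkp [])) l27045 = true ∧
    allY (E.wth (lkp [])) l27046 = true ∧
    allY (E.wth (lkp [])) l27047 = true ∧
    allY (E.wth (lkp [])) l27048 = true :=
  ⟨by decide +kernel, by decide +kernel, by decide +kernel, by decide +kernel, by decide +kernel, by decide +kernel, by decide +kernel, by decide +kernel⟩

def t27049 : allY (E.wth (lkp [])) l27049 = true ∧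
    allY (E.wth (lkp [])) l27050 = true ∧
    allY (E.wth (lkp [])) l27051 = true ∧
    allY (E.wth (lkp [])) l27052 = true ∧
    allY (E.wth (lkp [])) l27053 = true ∧
    allY (E.wth (lkp [])) l27054 = true ∧
    allY (E.wth (lkp [])) l27055 = true ∧
    allY (E.wth (lkp [])) l27056 = true :=
  ⟨by decide +kernel, by decide +kernel, by decide +kernel, by decide +kernel, by decide +kernel, by decide +kernel, by decide +kernel, by decide +kernel⟩

def t27057 : allY (E.wth (lkp [])) l27057 = true ∧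
    allY (E.wth (lkp [])) l27058 = true ∧
    allY (E.wth (lkp [])) l27059 = true ∧
    allY (E.wth (lkp [])) l27060 = true ∧
    allY (E.wth (lkp [])) l27061 = true ∧
    allY (E.wth (lkp [])) l27062 = true ∧
    allY (E.wth (lkp [])) l27063 = true ∧
    allY (E.wth (lkp [])) l27064 = true :=
  ⟨by decide +kernel, by decide +kernel, by decide +kernel, by decide +kernel, by decide +kernel, by decide +kernel, by decide +kernel, by decide +kernel⟩

def t27065 : allY (E.wth (lkp [])) l27065 = true ∧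
    allY (E.wth (lkp [])) l27066 = true ∧
    allY (E.wth (lkp [])) l27067 = true ∧
    allY (E.wth (lkp [])) l27068 = true ∧
    allY (E.wth (lkp [])) l27069 = true ∧
    allY (E.wth (lkp [])) l27070 = true ∧
    allY (E.wth (lkp [])) l27071 = true ∧
    allY (E.wth (lkp [])) l27072 = true :=
  ⟨by decide +kernel, by decide +kernel, by decide +kernel, by decide +kernel, by decide +kernel, by decide +kernel, by decide +kernel, by decide +kernel⟩

def t27073 : allY (E.wth (lkp [])) l27073 = true ∧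
    allY (E.wth (lkp [])) l27074 = true ∧
    allY (E.wth (lkp [])) l27075 = true ∧
    allY (E.wth (lkp [])) l27076 = true ∧
    allY (E.wth (lkp [])) l27077 = true ∧
    allY (E.wth (lkp [])) l27078 = true ∧
    allY (E.wth (lkp [])) l27079 = true ∧
    allY (E.wth (lkp [])) l27080 = true :=
  ⟨by decide +kernel, by decide +kernel, by decide +kernel, by decide +kernel, by decide +kernel, by decide +kernel, by decide +kernel, by decide +kernel⟩

def t27081 : allY (E.wth (lkp [])) l27081 = true ∧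
    allY (E.wth (lkp [])) l27082 = true ∧
    allY (E.wth (lkp [])) l27083 = true ∧
    allY (E.wth (lkp [])) l27084 = true ∧
    allY (E.wth (lkp [])) l27085 = true ∧
    allY (E.wth (lkp [])) l27086 = true ∧
    allY (E.wth (lkp [])) l27087 = true ∧
    allY (E.wth (lkp [])) l27088 = true :=
  ⟨by decide +kernel, by decide +kernel, by decide +kernel, by decide +kernel, by decide +kernel, by decide +kernel, by decide +kernel, by decide +kernel⟩

def t27089 : allY (E.wth (lkp [])) l27089 = true ∧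
    allY (E.wth (lkp [])) l27090 = true ∧
    allY (E.wth (lkp [])) l27091 = true ∧
    allY (E.wth (lkp [])) l27092 = true ∧
    allY (E.wth (lkp [])) l27093 = true ∧
    allY (E.wth (lkp [])) l27094 = true ∧
    allY (E.wth (lkp [])) l27095 = true ∧
    allY (E.wth (lkp [])) l27096 = true :=
  ⟨by decide +kernel, by decide +kernel, by decide +kernel, by decide +kernel, by decide +kernel, by decide +kernel, by decide +kernel, by decide +kernel⟩

def t27097 : allY (E.wth (lkp [])) l27097 = true ∧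
    allY (E.wth (lkp [])) l27098 = true ∧
    allY (E.wth (lkp [])) l27099 = true ∧
    allY (E.wth (lkp [])) l27100 = true ∧
    allY (E.wth (lkp [])) l27101 = true ∧
    allY (E.wth (lkp [])) l27102 = true ∧
    allY (E.wth (lkp [])) l27103 = true ∧
    allY (E.wth (lkp [])) l27104 = true :=
  ⟨by decide +kernel, by decide +kernel, by decide +kernel, by decide +kernel, by decide +kernel, by decide +kernel, by decide +kernel, by decide +kernel⟩

def t27105 : allY (E.wth (lkp [])) l27105 = true ∧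
    allY (E.wth (lkp [])) l27106 = true ∧
    allY (E.wth (lkp [])) l27107 = true ∧
    allY (E.wth (lkp [])) l27108 = true ∧
    allY (E.wth (lkp [])) l27109 = true ∧
    allY (E.wth (lkp [])) l27110 = true ∧
    allY (E.wth (lkp [])) l27111 = true ∧
    allY (E.wth (lkp [])) l27112 = true :=
  ⟨by decide +kernel, by decide +kernel, by decide +kernel, by decide +kernel, by decide +kernel, by decide +kernel, by decide +kernel, by decide +kernel⟩

def t27113 : allY (E.wth (lkp [])) l27113 = true ∧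
    allY (E.wth (lkp [])) l27114 = true ∧
    allY (E.wth (lkp [])) l27115 = true ∧
    allY (E.wth (lkp [])) l27116 = true ∧
    allY (E.wth (lkp [])) l27117 = true ∧
    allY (E.wth (lkp [])) l27118 = true ∧
    allY (E.wth (lkp [])) l27119 = true ∧
    allY (E.wth (lkp [])) l27120 = true :=
  ⟨by decide +kernel, by decide +kernel, by decide +kernel, by decide +kernel, by decide +kernel, by decide +kernel, by decide +kernel, by decide +kernel⟩

def t27121 : allY (E.wth (lkp [])) l27121 = true ∧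
    allY (E.wth (lkp [])) l27122 = true ∧
    allY (E.wth (lkp [])) l27123 = true ∧
    allY (E.wth (lkp [])) l27124 = true ∧
    allY (E.wth (lkp [])) l27125 = true ∧
    allY (E.wth (lkp [])) l27126 = true ∧
    allY (E.wth (lkp [])) l27127 = true ∧
    allY (E.wth (lkp [])) l27128 = true :=
  ⟨by decide +kernel, by decide +kernel, by decide +kernel, by decide +kernel, by decide +kernel, by decide +kernel, by decide +kernel, by decide +kernel⟩

def t27129 : allY (E.wth (lkp [])) l27129 = true ∧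
    allY (E.wth (lkp [])) l27130 = true ∧
    allY (E.wth (lkp [])) l27131 = true ∧
    allY (E.wth (lkp [])) l27132 = true ∧
    allY (E.wth (lkp [])) l27133 = true ∧
    allY (E.wth (lkp [])) l27134 = true ∧
    allY (E.wth (lkp [])) l27135 = true ∧
    allY (E.wth (lkp [])) l27136 = true :=
  ⟨by decide +kernel, by decide +kernel, by decide +kernel, by decide +kernel, by decide +kernel, by decide +kernel, by decide +kernel, by decide +kernel⟩

def t27137 : allY (E.wth (lkp [])) l27137 = true ∧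
    allY (E.wth (lkp [])) l27138 = true ∧
    allY (E.wth (lkp [])) l27139 = true ∧
    allY (E.wth (lkp [])) l27140 = true ∧
    allY (E.wth (lkp [])) l27141 = true ∧
    allY (E.wth (lkp [])) l27142 = true ∧
    allY (E.wth (lkp [])) l27143 = true ∧
    allY (E.wth (lkp [])) l27144 = true :=
  ⟨by decide +kernel, by decide +kernel, by decide +kernel, by decide +kernel, by decide +kernel, by decide +kernel, by decide +kernel, by decide +kernel⟩

def t27145 : allY (E.wth (lkp [])) l27145 = true ∧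
    allY (E.wth (lkp [])) l27146 = true ∧
    allY (E.wth (lkp [])) l27147 = true ∧
    allY (E.wth (lkp [])) l27148 = true ∧
    allY (E.wth (lkp [])) l27149 = true ∧
    allY (E.wth (lkp [])) l27150 = true ∧
    allY (E.wth (lkp [])) l27151 = true ∧
    allY (E.wth (lkp [])) l27152 = true :=
  ⟨by decide +kernel, by decide +kernel, by decide +kernel, by decide +kernel, by decide +kernel, by decide +kernel, by decide +kernel, by decide +kernel⟩

def t27153 : allY (E.wth (lkp [])) l27153 = true ∧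
    allY (E.wth (lkp [])) l27154 = true ∧
    allY (E.wth (lkp [])) l27155 = true ∧
    allY (E.wth (lkp [])) l27156 = true ∧
    allY (E.wth (lkp [])) l27157 = true ∧
    allY (E.wth (lkp [])) l27158 = true ∧
    allY (E.wth (lkp [])) l27159 = true ∧
    allY (E.wth (lkp [])) l27160 = true :=
  ⟨by decide +kernel, by decide +kernel, by decide +kernel, by decide +kernel, by decide +kernel, by decide +kernel, by decide +kernel, by decide +kernel⟩

def t27161 : allY (E.wth (lkp [])) l27161 = true ∧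
    allY (E.wth (lkp [])) l27162 = true ∧
    allY (E.wth (lkp [])) l27163 = true ∧
    allY (E.wth (lkp [])) l27164 = true ∧
    allY (E.wth (lkp [])) l27165 = true ∧
    allY (E.wth (lkp [])) l27166 = true ∧
    allY (E.wth (lkp [])) l27167 = true ∧
    allY (E.wth (lkp [])) l27168 = true :=
  ⟨by decide +kernel, by decide +kernel, by decide +kernel, by decide +kernel, by decide +kernel, by decide +kernel, by decide +kernel, by decide +kernel⟩

def t27169 : allY (E.wth (lkp [])) l27169 = true ∧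
    allY (E.wth (lkp [])) l27170 = true ∧
    allY (E.wth (lkp [])) l27171 = true ∧
    allY (E.wth (lkp [])) l27172 = true ∧
    allY (E.wth (lkp [])) l27173 = true ∧
    allY (E.wth (lkp [])) l27174 = true ∧
    allY (E.wth (lkp [])) l27175 = true ∧
    allY (E.wth (lkp [])) l27176 = true :=
  ⟨by decide +kernel, by decide +kernel, by decide +kernel, by decide +kernel, by decide +kernel, by decide +kernel, by decide +kernel, by decide +kernel⟩

def t27177 : allY (E.wth (lkp [])) l27177 = true ∧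
    allY (E.wth (lkp [])) l27178 = true ∧
    allY (E.wth (lkp [])) l27179 = true ∧
    allY (E.wth (lkp [])) l27180 = true ∧
    allY (E.wth (lkp [])) l27181 = true ∧
    allY (E.wth (lkp [])) l27182 = true ∧
    allY (E.wth (lkp [])) l27183 = true ∧
    allY (E.wth (lkp [])) l27184 = true :=
  ⟨by decide +kernel, by decide +kernel, by decide +kernel, by decide +kernel, by decide +kernel, by decide +kernel, by decide +kernel, by decide +kernel⟩

def t27185 : allY (E.wth (lkp [])) l27185 = true ∧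
    allY (E.wth (lkp [])) l27186 = true ∧
    allY (E.wth (lkp [])) l27187 = true ∧
    allY (E.wth (lkp [])) l27188 = true ∧
    allY (E.wth (lkp [])) l27189 = true ∧
    allY (E.wth (lkp [])) l27190 = true ∧
    allY (E.wth (lkp [])) l27191 = true ∧
    allY (E.wth (lkp [])) l27192 = true :=
  ⟨by decide +kernel, by decide +kernel, by decide +kernel, by decide +kernel, by decide +kernel, by decide +kernel, by decide +kernel, by decide +kernel⟩

def t27193 : allY (E.wth (lkp [])) l27193 = true ∧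
    allY (E.wth (lkp [])) l27194 = true ∧
    allY (E.wth (lkp [])) l27195 = true ∧
    allY (E.wth (lkp [])) l27196 = true ∧
    allY (E.wth (lkp [])) l27197 = true ∧
    allY (E.wth (lkp [])) l27198 = true ∧
    allY (E.wth (lkp [])) l27199 = true ∧
    allY (E.wth (lkp [])) l27200 = true :=
  ⟨by decide +kernel, by decide +kernel, by decide +kernel, by decide +kernel, by decide +kernel, by decide +kernel, by decide +kernel, by decide +kernel⟩

def t27201 : allY (E.wth (lkp [])) l27201 = true ∧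
    allY (E.wth (lkp [])) l27202 = true ∧
    allY (E.wth (lkp [])) l27203 = true ∧
    allY (E.wth (lkp [])) l27204 = true ∧
    allY (E.wth (lkp [])) l27205 = true ∧
    allY (E.wth (lkp [])) l27206 = true ∧
    allY (E.wth (lkp [])) l27207 = true ∧
    allY (E.wth (lkp [])) l27208 = true :=
  ⟨by decide +kernel, by decide +kernel, by decide +kernel, by decide +kernel, by decide +kernel, by decide +kernel, by decide +kernel, by decide +kernel⟩

def t27209 : allY (E.wth (lkp [])) l27209 = true ∧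
    allY (E.wth (lkp [])) l27210 = true ∧
    allY (E.wth (lkp [])) l27211 = true ∧
    allY (E.wth (lkp [])) l27212 = true ∧
    allY (E.wth (lkp [])) l27213 = true ∧
    allY (E.wth (lkp [])) l27214 = true ∧
    allY (E.wth (lkp [])) l27215 = true ∧
    allY (E.wth (lkp [])) l27216 = true :=
  ⟨by decide +kernel, by decide +kernel, by decide +kernel, by decide +kernel, by decide +kernel, by decide +kernel, by decide +kernel, by decide +kernel⟩

def t27217 : allY (E.wth (lkp [])) l27217 = true ∧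
    allY (E.wth (lkp [])) l27218 = true ∧
    allY (E.wth (lkp [])) l27219 = true ∧
    allY (E.wth (lkp [])) l27220 = true ∧
    allY (E.wth (lkp [])) l27221 = true ∧
    allY (E.wth (lkp [])) l27222 = true ∧
    allY (E.wth (lkp [])) l27223 = true ∧
    allY (E.wth (lkp [])) l27224 = true :=
  ⟨by decide +kernel, by decide +kernel, by decide +kernel, by decide +kernel, by decide +kernel, by decide +kernel, by decide +kernel, by decide +kernel⟩

def t27225 : allY (E.wth (lkp [])) l27225 = true ∧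
    allY (E.wth (lkp [])) l27226 = true ∧
    allY (E.wth (lkp [])) l27227 = true ∧
    allY (E.wth (lkp [])) l27228 = true ∧
    allY (E.wth (lkp [])) l27229 = true ∧
    allY (E.wth (lkp [])) l27230 = true ∧
    allY (E.wth (lkp [])) l27231 = true ∧
    allY (E.wth (lkp [])) l27232 = true :=
  ⟨by decide +kernel, by decide +kernel, by decide +kernel, by decide +kernel, by decide +kernel, by decide +kernel, by decide +kernel, by decide +kernel⟩

def t27233 : allY (E.wth (lkp [])) l27233 = true ∧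
    allY (E.wth (lkp [])) l27234 = true ∧
    allY (E.wth (lkp [])) l27235 = true ∧
    allY (E.wth (lkp [])) l27236 = true ∧
    allY (E.wth (lkp [])) l27237 = true ∧
    allY (E.wth (lkp [])) l27238 = true ∧
    allY (E.wth (lkp [])) l27239 = true ∧
    allY (E.wth (lkp [])) l27240 = true :=
  ⟨by decide +kernel, by decide +kernel, by decide +kernel, by decide +kernel, by decide +kernel, by decide +kernel, by decide +kernel, by decide +kernel⟩

def t27241 : allY (E.wth (lkp [])) l27241 = true ∧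
    allY (E.wth (lkp [])) l27242 = true ∧
    allY (E.wth (lkp [])) l27243 = true ∧
    allY (E.wth (lkp [])) l27244 = true ∧
    allY (E.wth (lkp [])) l27245 = true ∧
    allY (E.wth (lkp [])) l27246 = true ∧
    allY (E.wth (lkp [])) l27247 = true ∧
    allY (E.wth (lkp [])) l27248 = true :=
  ⟨by decide +kernel, by decide +kernel, by decide +kernel, by decide +kernel, by decide +kernel, by decide +kernel, by decide +kernel, by decide +kernel⟩

def t27249 : allY (E.wth (lkp [])) l27249 = true ∧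
    allY (E.wth (lkp [])) l27250 = true ∧
    allY (E.wth (lkp [])) l27251 = true ∧
    allY (E.wth (lkp [])) l27252 = true ∧
    allY (E.wth (lkp [])) l27253 = true ∧
    allY (E.wth (lkp [])) l27254 = true ∧
    allY (E.wth (lkp [])) l27255 = true ∧
    allY (E.wth (lkp [])) l27256 = true :=
  ⟨by decide +kernel, by decide +kernel, by decide +kernel, by decide +kernel, by decide +kernel, by decide +kernel, by decide +kernel, by decide +kernel⟩

def t27257 : allY (E.wth (lkp [])) l27257 = true ∧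
    allY (E.wth (lkp [])) l27258 = true ∧
    allY (E.wth (lkp [])) l27259 = true ∧
    allY (E.wth (lkp [])) l27260 = true ∧
    allY (E.wth (lkp [])) l27261 = true ∧
    allY (E.wth (lkp [])) l27262 = true ∧
    allY (E.wth (lkp [])) l27263 = true ∧
    allY (E.wth (lkp [])) l27264 = true :=
  ⟨by decide +kernel, by decide +kernel, by decide +kernel, by decide +kernel, by decide +kernel, by decide +kernel, by decide +kernel, by decide +kernel⟩

def t27265 : allY (E.wth (lkp [])) l27265 = true ∧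
    allY (E.wth (lkp [])) l27266 = true ∧
    allY (E.wth (lkp [])) l27267 = true ∧
    allY (E.wth (lkp [])) l27268 = true ∧
    allY (E.wth (lkp [])) l27269 = true ∧
    allY (E.wth (lkp [])) l27270 = true ∧
    allY (E.wth (lkp [])) l27271 = true ∧
    allY (E.wth (lkp [])) l27272 = true :=
  ⟨by decide +kernel, by decide +kernel, by decide +kernel, by decide +kernel, by decide +kernel, by decide +kernel, by decide +kernel, by decide +kernel⟩

def t27273 : allY (E.wth (lkp [])) l27273 = true ∧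
    allY (E.wth (lkp [])) l27274 = true ∧
    allY (E.wth (lkp [])) l27275 = true ∧
    allY (E.wth (lkp [])) l27276 = true ∧
    allY (E.wth (lkp [])) l27277 = true ∧
    allY (E.wth (lkp [])) l27278 = true ∧
    allY (E.wth (lkp [])) l27279 = true ∧
    allY (E.wth (lkp [])) l27280 = true :=
  ⟨by decide +kernel, by decide +kernel, by decide +kernel, by decide +kernel, by decide +kernel, by decide +kernel, by decide +kernel, by decide +kernel⟩

def t27281 : allY (E.wth (lkp [])) l27281 = true ∧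
    allY (E.wth (lkp [])) l27282 = true ∧
    allY (E.wth (lkp [])) l27283 = true ∧
    allY (E.wth (lkp [])) l27284 = true ∧
    allY (E.wth (lkp [])) l27285 = true ∧
    allY (E.wth (lkp [])) l27286 = true ∧
    allY (E.wth (lkp [])) l27287 = true ∧
    allY (E.wth (lkp [])) l27288 = true :=
  ⟨by decide +kernel, by decide +kernel, by decide +kernel, by decide +kernel, by decide +kernel, by decide +kernel, by decide +kernel, by decide +kernel⟩

def t27289 : allY (E.wth (lkp [])) l27289 = true ∧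
    allY (E.wth (lkp [])) l27290 = true ∧
    allY (E.wth (lkp [])) l27291 = true ∧
    allY (E.wth (lkp [])) l27292 = true ∧
    allY (E.wth (lkp [])) l27293 = true ∧
    allY (E.wth (lkp [])) l27294 = true ∧
    allY (E.wth (lkp [])) l27295 = true ∧
    allY (E.wth (lkp [])) l27296 = true :=
  ⟨by decide +kernel, by decide +kernel, by decide +kernel, by decide +kernel, by decide +kernel, by decide +kernel, by decide +kernel, by decide +kernel⟩

def t27297 : allY (E.wth (lkp [])) l27297 = true ∧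
    allY (E.wth (lkp [])) l27298 = true ∧
    allY (E.wth (lkp [])) l27299 = true ∧
    allY (E.wth (lkp [])) l27300 = true ∧
    allY (E.wth (lkp [])) l27301 = true ∧
    allY (E.wth (lkp [])) l27302 = true ∧
    allY (E.wth (lkp [])) l27303 = true ∧
    allY (E.wth (lkp [])) l27304 = true :=
  ⟨by decide +kernel, by decide +kernel, by decide +kernel, by decide +kernel, by decide +kernel, by decide +kernel, by decide +kernel, by decide +kernel⟩

def t27305 : allY (E.wth (lkp [])) l27305 = true ∧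
    allY (E.wth (lkp [])) l27306 = true ∧
    allY (E.wth (lkp [])) l27307 = true ∧
    allY (E.wth (lkp [])) l27308 = true ∧
    allY (E.wth (lkp [])) l27309 = true ∧
    allY (E.wth (lkp [])) l27310 = true ∧
    allY (E.wth (lkp [])) l27311 = true ∧
    allY (E.wth (lkp [])) l27312 = true :=
  ⟨by decide +kernel, by decide +kernel, by decide +kernel, by decide +kernel, by decide +kernel, by decide +kernel, by decide +kernel, by decide +kernel⟩

def t27313 : allY (E.wth (lkp [])) l27313 = true ∧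
    allY (E.wth (lkp [])) l27314 = true ∧
    allY (E.wth (lkp [])) l27315 = true ∧
    allY (E.wth (lkp [])) l27316 = true ∧
    allY (E.wth (lkp [])) l27317 = true ∧
    allY (E.wth (lkp [])) l27318 = true ∧
    allY (E.wth (lkp [])) l27319 = true ∧
    allY (E.wth (lkp [])) l27320 = true :=
  ⟨by decide +kernel, by decide +kernel, by decide +kernel, by decide +kernel, by decide +kernel, by decide +kernel, by decide +kernel, by decide +kernel⟩

def t27321 : allY (E.wth (lkp [])) l27321 = true ∧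
    allY (E.wth (lkp [])) l27322 = true ∧
    allY (E.wth (lkp [])) l27323 = true ∧
    allY (E.wth (lkp [])) l27324 = true ∧
    allY (E.wth (lkp [])) l27325 = true ∧
    allY (E.wth (lkp [])) l27326 = true ∧
    allY (E.wth (lkp [])) l27327 = true ∧
    allY (E.wth (lkp [])) l27328 = true :=
  ⟨by decide +kernel, by decide +kernel, by decide +kernel, by decide +kernel, by decide +kernel, by decide +kernel, by decide +kernel, by decide +kernel⟩

def t27329 : allY (E.wth (lkp [])) l27329 = true ∧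
    allY (E.wth (lkp [])) l27330 = true ∧
    allY (E.wth (lkp [])) l27331 = true ∧
    allY (E.wth (lkp [])) l27332 = true ∧
    allY (E.wth (lkp [])) l27333 = true ∧
    allY (E.wth (lkp [])) l27334 = true ∧
    allY (E.wth (lkp [])) l27335 = true ∧
    allY (E.wth (lkp [])) l27336 = true :=
  ⟨by decide +kernel, by decide +kernel, by decide +kernel, by decide +kernel, by decide +kernel, by decide +kernel, by decide +kernel, by decide +kernel⟩

def t27337 : allY (E.wth (lkp [])) l27337 = true ∧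
    allY (E.wth (lkp [])) l27338 = true ∧
    allY (E.wth (lkp [])) l27339 = true ∧
    allY (E.wth (lkp [])) l27340 = true ∧
    allY (E.wth (lkp [])) l27341 = true ∧
    allY (E.wth (lkp [])) l27342 = true ∧
    allY (E.wth (lkp [])) l27343 = true ∧
    allY (E.wth (lkp [])) l27344 = true :=
  ⟨by decide +kernel, by decide +kernel, by decide +kernel, by decide +kernel, by decide +kernel, by decide +kernel, by decide +kernel, by decide +kernel⟩

def t27345 : allY (E.wth (lkp [])) l27345 = true ∧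
    allY (E.wth (lkp [])) l27346 = true ∧
    allY (E.wth (lkp [])) l27347 = true ∧
    allY (E.wth (lkp [])) l27348 = true ∧
    allY (E.wth (lkp [])) l27349 = true ∧
    allY (E.wth (lkp [])) l27350 = true ∧
    allY (E.wth (lkp [])) l27351 = true ∧
    allY (E.wth (lkp [])) l27352 = true :=
  ⟨by decide +kernel, by decide +kernel, by decide +kernel, by decide +kernel, by decide +kernel, by decide +kernel, by decide +kernel, by decide +kernel⟩

def t27353 : allY (E.wth (lkp [])) l27353 = true ∧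
    allY (E.wth (lkp [])) l27354 = true ∧
    allY (E.wth (lkp [])) l27355 = true ∧
    allY (E.wth (lkp [])) l27356 = true ∧
    allY (E.wth (lkp [])) l27357 = true ∧
    allY (E.wth (lkp [])) l27358 = true ∧
    allY (E.wth (lkp [])) l27359 = true ∧
    allY (E.wth (lkp [])) l27360 = true :=
  ⟨by decide +kernel, by decide +kernel, by decide +kernel, by decide +kernel, by decide +kernel, by decide +kernel, by decide +kernel, by decide +kernel⟩

def t27361 : allY (E.wth (lkp [])) l27361 = true ∧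
    allY (E.wth (lkp [])) l27362 = true ∧
    allY (E.wth (lkp [])) l27363 = true ∧
    allY (E.wth (lkp [])) l27364 = true ∧
    allY (E.wth (lkp [])) l27365 = true ∧
    allY (E.wth (lkp [])) l27366 = true ∧
    allY (E.wth (lkp [])) l27367 = true ∧
    allY (E.wth (lkp [])) l27368 = true :=
  ⟨by decide +kernel, by decide +kernel, by decide +kernel, by decide +kernel, by decide +kernel, by decide +kernel, by decide +kernel, by decide +kernel⟩

def t27369 : allY (E.wth (lkp [])) l27369 = true ∧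
    allY (E.wth (lkp [])) l27370 = true ∧
    allY (E.wth (lkp [])) l27371 = true ∧
    allY (E.wth (lkp [])) l27372 = true ∧
    allY (E.wth (lkp [])) l27373 = true ∧
    allY (E.wth (lkp [])) l27374 = true ∧
    allY (E.wth (lkp [])) l27375 = true ∧
    allY (E.wth (lkp [])) l27376 = true :=
  ⟨by decide +kernel, by decide +kernel, by decide +kernel, by decide +kernel, by decide +kernel, by decide +kernel, by decide +kernel, by decide +kernel⟩

def t27377 : allY (E.wth (lkp [])) l27377 = true ∧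
    allY (E.wth (lkp [])) l27378 = true ∧
    allY (E.wth (lkp [])) l27379 = true ∧
    allY (E.wth (lkp [])) l27380 = true ∧
    allY (E.wth (lkp [])) l27381 = true ∧
    allY (E.wth (lkp [])) l27382 = true ∧
    allY (E.wth (lkp [])) l27383 = true ∧
    allY (E.wth (lkp [])) l27384 = true :=
  ⟨by decide +kernel, by decide +kernel, by decide +kernel, by decide +kernel, by decide +kernel, by decide +kernel, by decide +kernel, by decide +kernel⟩

def t27385 : allY (E.wth (lkp [])) l27385 = true ∧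
    allY (E.wth (lkp [])) l27386 = true ∧
    allY (E.wth (lkp [])) l27387 = true ∧
    allY (E.wth (lkp [])) l27388 = true ∧
    allY (E.wth (lkp [])) l27389 = true ∧
    allY (E.wth (lkp [])) l27390 = true ∧
    allY (E.wth (lkp [])) l27391 = true ∧
    allY (E.wth (lkp [])) l27392 = true :=
  ⟨by decide +kernel, by decide +kernel, by decide +kernel, by decide +kernel, by decide +kernel, by decide +kernel, by decide +kernel, by decide +kernel⟩

def t27393 : allY (E.wth (lkp [])) l27393 = true ∧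
    allY (E.wth (lkp [])) l27394 = true ∧
    allY (E.wth (lkp [])) l27395 = true ∧
    allY (E.wth (lkp [])) l27396 = true ∧
    allY (E.wth (lkp [])) l27397 = true ∧
    allY (E.wth (lkp [])) l27398 = true ∧
    allY (E.wth (lkp [])) l27399 = true ∧
    allY (E.wth (lkp [])) l27400 = true :=
  ⟨by decide +kernel, by decide +kernel, by decide +kernel, by decide +kernel, by decide +kernel, by decide +kernel, by decide +kernel, by decide +kernel⟩

def t27401 : allY (E.wth (lkp [])) l27401 = true ∧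
    allY (E.wth (lkp [])) l27402 = true ∧
    allY (E.wth (lkp [])) l27403 = true ∧
    allY (E.wth (lkp [])) l27404 = true ∧
    allY (E.wth (lkp [])) l27405 = true ∧
    allY (E.wth (lkp [])) l27406 = true ∧
    allY (E.wth (lkp [])) l27407 = true ∧
    allY (E.wth (lkp [])) l27408 = true :=
  ⟨by decide +kernel, by decide +kernel, by decide +kernel, by decide +kernel, by decide +kernel, by decide +kernel, by decide +kernel, by decide +kernel⟩

def t27409 : allY (E.wth (lkp [])) l27409 = true ∧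
    allY (E.wth (lkp [])) l27410 = true ∧
    allY (E.wth (lkp [])) l27411 = true ∧
    allY (E.wth (lkp [])) l27412 = true ∧
    allY (E.wth (lkp [])) l27413 = true ∧
    allY (E.wth (lkp [])) l27414 = true ∧
    allY (E.wth (lkp [])) l27415 = true ∧
    allY (E.wth (lkp [])) l27416 = true :=
  ⟨by decide +kernel, by decide +kernel, by decide +kernel, by decide +kernel, by decide +kernel, by decide +kernel, by decide +kernel, by decide +kernel⟩

def t27417 : allY (E.wth (lkp [])) l27417 = true ∧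
    allY (E.wth (lkp [])) l27418 = true ∧
    allY (E.wth (lkp [])) l27419 = true ∧
    allY (E.wth (lkp [])) l27420 = true ∧
    allY (E.wth (lkp [])) l27421 = true ∧
    allY (E.wth (lkp [])) l27422 = true ∧
    allY (E.wth (lkp [])) l27423 = true ∧
    allY (E.wth (lkp [])) l27424 = true :=
  ⟨by decide +kernel, by decide +kernel, by decide +kernel, by decide +kernel, by decide +kernel, by decide +kernel, by decide +kernel, by decide +kernel⟩

def t27425 : allY (E.wth (lkp [])) l27425 = true ∧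
    allY (E.wth (lkp [])) l27426 = true ∧
    allY (E.wth (lkp [])) l27427 = true ∧
    allY (E.wth (lkp [])) l27428 = true ∧
    allY (E.wth (lkp [])) l27429 = true ∧
    allY (E.wth (lkp [])) l27430 = true ∧
    allY (E.wth (lkp [])) l27431 = true ∧
    allY (E.wth (lkp [])) l27432 = true :=
  ⟨by decide +kernel, by decide +kernel, by decide +kernel, by decide +kernel, by decide +kernel, by decide +kernel, by decide +kernel, by decide +kernel⟩

def t27433 : allY (E.wth (lkp [])) l27433 = true ∧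
    allY (E.wth (lkp [])) l27434 = true ∧
    allY (E.wth (lkp [])) l27435 = true ∧
    allY (E.wth (lkp [])) l27436 = true ∧
    allY (E.wth (lkp [])) l27437 = true ∧
    allY (E.wth (lkp [])) l27438 = true ∧
    allY (E.wth (lkp [])) l27439 = true :=
  ⟨by decide +kernel, by decide +kernel, by decide +kernel, by decide +kernel, by decide +kernel, by decide +kernel, by decide +kernel⟩

theorem a48 {p : Rf → Prop} (H : ∀ l, allY (E.wth (lkp [])) l = true → (lkp l).All p) :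
    b48.All p := ⟨⟨⟨⟨⟨⟨⟨⟨⟨H _ t26873.1, H _ t26873.2.1⟩, ⟨H _ t26873.2.2.1, H _ t26873.2.2.2.1⟩⟩, ⟨⟨H _ t26873.2.2.2.2.1, H _ t26873.2.2.2.2.2.1⟩, ⟨H _ t26873.2.2.2.2.2.2.1, H _ t26873.2.2.2.2.2.2.2⟩⟩⟩, ⟨⟨⟨H _ t26881.1, H _ t26881.2.1⟩, ⟨H _ t26881.2.2.1, H _ t26881.2.2.2.1⟩⟩, ⟨⟨H _ t26881.2.2.2.2.1, H _ t26881.2.2.2.2.2.1⟩, ⟨H _ t26881.2.2.2.2.2.2.1, ⟨H _ t26881.2.2.2.2.2.2.2, H _ t26889.1⟩⟩⟩⟩⟩, ⟨⟨⟨⟨H _ t26889.2.1, H _ t26889.2.2.1⟩, ⟨H _ t26889.2.2.2.1, H _ t26889.2.2.2.2.1⟩⟩, ⟨⟨H _ t26889.2.2.2.2.2.1, H _ t26889.2.2.2.2.2.2.1⟩, ⟨H _ t26889.2.2.2.2.2.2.2, ⟨H _ t26897.1, H _ t26897.2.1⟩⟩⟩⟩, ⟨⟨⟨H _ t26897.2.2.1, H _ t26897.2.2.2.1⟩, ⟨H _ t26897.2.2.2.2.1, H _ t26897.2.2.2.2.2.1⟩⟩, ⟨⟨H _ t26897.2.2.2.2.2.2.1, H _ t26897.2.2.2.2.2.2.2⟩, ⟨H _ t26905.1, ⟨H _ t26905.2.1, H _ t26905.2.2.1⟩⟩⟩⟩⟩⟩, ⟨⟨⟨⟨⟨H _ t26905.2.2.2.1, H _ t26905.2.2.2.2.1⟩, ⟨H _ t26905.2.2.2.2.2.1, H _ t26905.2.2.2.2.2.2.1⟩⟩, ⟨⟨H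 _ t26905.2.2.2.2.2.2.2, H _ t26913.1⟩, ⟨H _ t26913.2.1, H _ t26913.2.2.1⟩⟩⟩, ⟨⟨⟨H _ t26913.2.2.2.1, H _ t26913.2.2.2.2.1⟩, ⟨H _ t26913.2.2.2.2.2.1, H _ t26913.2.2.2.2.2.2.1⟩⟩, ⟨⟨H _ t26913.2.2.2.2.2.2.2, H _ t26921.1⟩, ⟨H _ t26921.2.1, ⟨H _ t26921.2.2.1, H _ t26921.2.2.2.1⟩⟩⟩⟩⟩, ⟨⟨⟨⟨H _ t26921.2.2.2.2.1, H _ t26921.2.2.2.2.2.1⟩, ⟨H _ t26921.2.2.2.2.2.2.1, H _ t26921.2.2.2.2.2.2.2⟩⟩, ⟨⟨H _ t26929.1, H _ t26929.2.1⟩, ⟨H _ t26929.2.2.1, ⟨H _ t26929.2.2.2.1, H _ t26929.2.2.2.2.1⟩⟩⟩⟩, ⟨⟨⟨H _ t26929.2.2.2.2.2.1, H _ t26929.2.2.2.2.2.2.1⟩, ⟨H _ t26929.2.2.2.2.2.2.2, H _ t26937.1⟩⟩, ⟨⟨H _ t26937.2.1, H _ t26937.2.2.1⟩, ⟨H _ t26937.2.2.2.1, ⟨H _ t26937.2.2.2.2.1, H _ t26937.2.2.2.2.2.1⟩⟩⟩⟩⟩⟩⟩, ⟨⟨⟨⟨⟨⟨H _ t26937.2.2.2.2.2.2.1, H _ t26937.2.2.2.2.2.2.2⟩, ⟨H _ t26945.1, H _ t26945.2.1⟩⟩, ⟨⟨H _ t26945.2.2.1, H _ t26945.2.2.2.1⟩, ⟨H _ t26945.2.2.2.2.1, H _ t26945.2.2.2.2.2.1⟩⟩⟩, ⟨⟨⟨H _ t26945.2.2.2.2.2.2.1,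 H _ t26945.2.2.2.2.2.2.2⟩, ⟨H _ t26953.1, H _ t26953.2.1⟩⟩, ⟨⟨H _ t26953.2.2.1, H _ t26953.2.2.2.1⟩, ⟨H _ t26953.2.2.2.2.1, ⟨H _ t26953.2.2.2.2.2.1, H _ t26953.2.2.2.2.2.2.1⟩⟩⟩⟩⟩, ⟨⟨⟨⟨H _ t26953.2.2.2.2.2.2.2, H _ t26961.1⟩, ⟨H _ t26961.2.1, H _ t26961.2.2.1⟩⟩, ⟨⟨H _ t26961.2.2.2.1, H _ t26961.2.2.2.2.1⟩, ⟨H _ t26961.2.2.2.2.2.1, ⟨H _ t26961.2.2.2.2.2.2.1, H _ t26961.2.2.2.2.2.2.2⟩⟩⟩⟩, ⟨⟨⟨H _ t26969.1, H _ t26969.2.1⟩, ⟨H _ t26969.2.2.1, H _ t26969.2.2.2.1⟩⟩, ⟨⟨H _ t26969.2.2.2.2.1, H _ t26969.2.2.2.2.2.1⟩, ⟨H _ t26969.2.2.2.2.2.2.1, ⟨H _ t26969.2.2.2.2.2.2.2, H _ t26977.1⟩⟩⟩⟩⟩⟩, ⟨⟨⟨⟨⟨H _ t26977.2.1, H _ t26977.2.2.1⟩, ⟨H _ t26977.2.2.2.1, H _ t26977.2.2.2.2.1⟩⟩, ⟨⟨H _ t26977.2.2.2.2.2.1, H _ t26977.2.2.2.2.2.2.1⟩, ⟨H _ t26977.2.2.2.2.2.2.2, ⟨H _ t26985.1, H _ t26985.2.1⟩⟩⟩⟩, ⟨⟨⟨H _ t26985.2.2.1, H _ t26985.2.2.2.1⟩, ⟨H _ t26985.2.2.2.2.1, H _ t26985.2.2.2.2.2.1⟩⟩, ⟨⟨H _ t26985.2.2.2.2.2.2.1,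 H _ t26985.2.2.2.2.2.2.2⟩, ⟨H _ t26993.1, ⟨H _ t26993.2.1, H _ t26993.2.2.1⟩⟩⟩⟩⟩, ⟨⟨⟨⟨H _ t26993.2.2.2.1, H _ t26993.2.2.2.2.1⟩, ⟨H _ t26993.2.2.2.2.2.1, H _ t26993.2.2.2.2.2.2.1⟩⟩, ⟨⟨H _ t26993.2.2.2.2.2.2.2, H _ t27001.1⟩, ⟨H _ t27001.2.1, ⟨H _ t27001.2.2.1, H _ t27001.2.2.2.1⟩⟩⟩⟩, ⟨⟨⟨H _ t27001.2.2.2.2.1, H _ t27001.2.2.2.2.2.1⟩, ⟨H _ t27001.2.2.2.2.2.2.1, H _ t27001.2.2.2.2.2.2.2⟩⟩, ⟨⟨H _ t27009.1, H _ t27009.2.1⟩, ⟨H _ t27009.2.2.1, ⟨H _ t27009.2.2.2.1, H _ t27009.2.2.2.2.1⟩⟩⟩⟩⟩⟩⟩⟩, ⟨⟨⟨⟨⟨⟨⟨H _ t27009.2.2.2.2.2.1, H _ t27009.2.2.2.2.2.2.1⟩, ⟨H _ t27009.2.2.2.2.2.2.2, H _ t27017.1⟩⟩, ⟨⟨H _ t27017.2.1, H _ t27017.2.2.1⟩, ⟨H _ t27017.2.2.2.1, H _ t27017.2.2.2.2.1⟩⟩⟩, ⟨⟨⟨H _ t27017.2.2.2.2.2.1, H _ t27017.2.2.2.2.2.2.1⟩, ⟨H _ t27017.2.2.2.2.2.2.2, H _ t27025.1⟩⟩, ⟨⟨H _ t27025.2.1, H _ t27025.2.2.1⟩, ⟨H _ t27025.2.2.2.1, ⟨H _ t27025.2.2.2.2.1, H _ t27025.2.2.2.2.2.1⟩⟩⟩⟩⟩, ⟨⟨⟨⟨H _ t27025.2.2.2.2.2.2.1,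 H _ t27025.2.2.2.2.2.2.2⟩, ⟨H _ t27033.1, H _ t27033.2.1⟩⟩, ⟨⟨H _ t27033.2.2.1, H _ t27033.2.2.2.1⟩, ⟨H _ t27033.2.2.2.2.1, ⟨H _ t27033.2.2.2.2.2.1, H _ t27033.2.2.2.2.2.2.1⟩⟩⟩⟩, ⟨⟨⟨H _ t27033.2.2.2.2.2.2.2, H _ t27041.1⟩, ⟨H _ t27041.2.1, H _ t27041.2.2.1⟩⟩, ⟨⟨H _ t27041.2.2.2.1, H _ t27041.2.2.2.2.1⟩, ⟨H _ t27041.2.2.2.2.2.1, ⟨H _ t27041.2.2.2.2.2.2.1, H _ t27041.2.2.2.2.2.2.2⟩⟩⟩⟩⟩⟩, ⟨⟨⟨⟨⟨H _ t27049.1, H _ t27049.2.1⟩, ⟨H _ t27049.2.2.1, H _ t27049.2.2.2.1⟩⟩, ⟨⟨H _ t27049.2.2.2.2.1, H _ t27049.2.2.2.2.2.1⟩, ⟨H _ t27049.2.2.2.2.2.2.1, ⟨H _ t27049.2.2.2.2.2.2.2, H _ t27057.1⟩⟩⟩⟩, ⟨⟨⟨H _ t27057.2.1, H _ t27057.2.2.1⟩, ⟨H _ t27057.2.2.2.1, H _ t27057.2.2.2.2.1⟩⟩, ⟨⟨H _ t27057.2.2.2.2.2.1, H _ t27057.2.2.2.2.2.2.1⟩, ⟨H _ t27057.2.2.2.2.2.2.2, ⟨H _ t27065.1, H _ t27065.2.1⟩⟩⟩⟩⟩, ⟨⟨⟨⟨H _ t27065.2.2.1, H _ t27065.2.2.2.1⟩, ⟨H _ t27065.2.2.2.2.1, H _ t27065.2.2.2.2.2.1⟩⟩, ⟨⟨H _ t27065.2.2.2.2.2.2.1,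 H _ t27065.2.2.2.2.2.2.2⟩, ⟨H _ t27073.1, ⟨H _ t27073.2.1, H _ t27073.2.2.1⟩⟩⟩⟩, ⟨⟨⟨H _ t27073.2.2.2.1, H _ t27073.2.2.2.2.1⟩, ⟨H _ t27073.2.2.2.2.2.1, H _ t27073.2.2.2.2.2.2.1⟩⟩, ⟨⟨H _ t27073.2.2.2.2.2.2.2, H _ t27081.1⟩, ⟨H _ t27081.2.1, ⟨H _ t27081.2.2.1, H _ t27081.2.2.2.1⟩⟩⟩⟩⟩⟩⟩, ⟨⟨⟨⟨⟨⟨H _ t27081.2.2.2.2.1, H _ t27081.2.2.2.2.2.1⟩, ⟨H _ t27081.2.2.2.2.2.2.1, H _ t27081.2.2.2.2.2.2.2⟩⟩, ⟨⟨H _ t27089.1, H _ t27089.2.1⟩, ⟨H _ t27089.2.2.1, H _ t27089.2.2.2.1⟩⟩⟩, ⟨⟨⟨H _ t27089.2.2.2.2.1, H _ t27089.2.2.2.2.2.1⟩, ⟨H _ t27089.2.2.2.2.2.2.1, H _ t27089.2.2.2.2.2.2.2⟩⟩, ⟨⟨H _ t27097.1, H _ t27097.2.1⟩, ⟨H _ t27097.2.2.1, ⟨H _ t27097.2.2.2.1, H _ t27097.2.2.2.2.1⟩⟩⟩⟩⟩, ⟨⟨⟨⟨H _ t27097.2.2.2.2.2.1, H _ t27097.2.2.2.2.2.2.1⟩, ⟨H _ t27097.2.2.2.2.2.2.2, H _ t27105.1⟩⟩, ⟨⟨H _ t27105.2.1, H _ t27105.2.2.1⟩, ⟨H _ t27105.2.2.2.1, ⟨H _ t27105.2.2.2.2.1, H _ t27105.2.2.2.2.2.1⟩⟩⟩⟩, ⟨⟨⟨H _ t27105.2.2.2.2.2.2.1,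 H _ t27105.2.2.2.2.2.2.2⟩, ⟨H _ t27113.1, H _ t27113.2.1⟩⟩, ⟨⟨H _ t27113.2.2.1, H _ t27113.2.2.2.1⟩, ⟨H _ t27113.2.2.2.2.1, ⟨H _ t27113.2.2.2.2.2.1, H _ t27113.2.2.2.2.2.2.1⟩⟩⟩⟩⟩⟩, ⟨⟨⟨⟨⟨H _ t27113.2.2.2.2.2.2.2, H _ t27121.1⟩, ⟨H _ t27121.2.1, H _ t27121.2.2.1⟩⟩, ⟨⟨H _ t27121.2.2.2.1, H _ t27121.2.2.2.2.1⟩, ⟨H _ t27121.2.2.2.2.2.1, ⟨H _ t27121.2.2.2.2.2.2.1, H _ t27121.2.2.2.2.2.2.2⟩⟩⟩⟩, ⟨⟨⟨H _ t27129.1, H _ t27129.2.1⟩, ⟨H _ t27129.2.2.1, H _ t27129.2.2.2.1⟩⟩, ⟨⟨H _ t27129.2.2.2.2.1, H _ t27129.2.2.2.2.2.1⟩, ⟨H _ t27129.2.2.2.2.2.2.1, ⟨H _ t27129.2.2.2.2.2.2.2, H _ t27137.1⟩⟩⟩⟩⟩, ⟨⟨⟨⟨H _ t27137.2.1, H _ t27137.2.2.1⟩, ⟨H _ t27137.2.2.2.1, H _ t27137.2.2.2.2.1⟩⟩, ⟨⟨H _ t27137.2.2.2.2.2.1, H _ t27137.2.2.2.2.2.2.1⟩, ⟨H _ t27137.2.2.2.2.2.2.2, ⟨H _ t27145.1, H _ t27145.2.1⟩⟩⟩⟩, ⟨⟨⟨H _ t27145.2.2.1, H _ t27145.2.2.2.1⟩, ⟨H _ t27145.2.2.2.2.1, H _ t27145.2.2.2.2.2.1⟩⟩, ⟨⟨H _ t27145.2.2.2.2.2.2.1,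 H _ t27145.2.2.2.2.2.2.2⟩, ⟨H _ t27153.1, ⟨H _ t27153.2.1, H _ t27153.2.2.1⟩⟩⟩⟩⟩⟩⟩⟩⟩, ⟨⟨⟨⟨⟨⟨⟨⟨H _ t27153.2.2.2.1, H _ t27153.2.2.2.2.1⟩, ⟨H _ t27153.2.2.2.2.2.1, H _ t27153.2.2.2.2.2.2.1⟩⟩, ⟨⟨H _ t27153.2.2.2.2.2.2.2, H _ t27161.1⟩, ⟨H _ t27161.2.1, H _ t27161.2.2.1⟩⟩⟩, ⟨⟨⟨H _ t27161.2.2.2.1, H _ t27161.2.2.2.2.1⟩, ⟨H _ t27161.2.2.2.2.2.1, H _ t27161.2.2.2.2.2.2.1⟩⟩, ⟨⟨H _ t27161.2.2.2.2.2.2.2, H _ t27169.1⟩, ⟨H _ t27169.2.1, ⟨H _ t27169.2.2.1, H _ t27169.2.2.2.1⟩⟩⟩⟩⟩, ⟨⟨⟨⟨H _ t27169.2.2.2.2.1, H _ t27169.2.2.2.2.2.1⟩, ⟨H _ t27169.2.2.2.2.2.2.1, H _ t27169.2.2.2.2.2.2.2⟩⟩, ⟨⟨H _ t27177.1, H _ t27177.2.1⟩, ⟨H _ t27177.2.2.1, ⟨H _ t27177.2.2.2.1, H _ t27177.2.2.2.2.1⟩⟩⟩⟩, ⟨⟨⟨H _ t27177.2.2.2.2.2.1, H _ t27177.2.2.2.2.2.2.1⟩, ⟨H _ t27177.2.2.2.2.2.2.2, H _ t27185.1⟩⟩, ⟨⟨H _ t27185.2.1, H _ t27185.2.2.1⟩, ⟨H _ t27185.2.2.2.1, ⟨H _ t27185.2.2.2.2.1, H _ t27185.2.2.2.2.2.1⟩⟩⟩⟩⟩⟩, ⟨⟨⟨⟨⟨H _ t27185.2.2.2.2.2.2.1,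 H _ t27185.2.2.2.2.2.2.2⟩, ⟨H _ t27193.1, H _ t27193.2.1⟩⟩, ⟨⟨H _ t27193.2.2.1, H _ t27193.2.2.2.1⟩, ⟨H _ t27193.2.2.2.2.1, ⟨H _ t27193.2.2.2.2.2.1, H _ t27193.2.2.2.2.2.2.1⟩⟩⟩⟩, ⟨⟨⟨H _ t27193.2.2.2.2.2.2.2, H _ t27201.1⟩, ⟨H _ t27201.2.1, H _ t27201.2.2.1⟩⟩, ⟨⟨H _ t27201.2.2.2.1, H _ t27201.2.2.2.2.1⟩, ⟨H _ t27201.2.2.2.2.2.1, ⟨H _ t27201.2.2.2.2.2.2.1, H _ t27201.2.2.2.2.2.2.2⟩⟩⟩⟩⟩, ⟨⟨⟨⟨H _ t27209.1, H _ t27209.2.1⟩, ⟨H _ t27209.2.2.1, H _ t27209.2.2.2.1⟩⟩, ⟨⟨H _ t27209.2.2.2.2.1, H _ t27209.2.2.2.2.2.1⟩, ⟨H _ t27209.2.2.2.2.2.2.1, ⟨H _ t27209.2.2.2.2.2.2.2, H _ t27217.1⟩⟩⟩⟩, ⟨⟨⟨H _ t27217.2.1, H _ t27217.2.2.1⟩, ⟨H _ t27217.2.2.2.1, H _ t27217.2.2.2.2.1⟩⟩, ⟨⟨H _ t27217.2.2.2.2.2.1, H _ t27217.2.2.2.2.2.2.1⟩, ⟨H _ t27217.2.2.2.2.2.2.2, ⟨H _ t27225.1, H _ t27225.2.1⟩⟩⟩⟩⟩⟩⟩, ⟨⟨⟨⟨⟨⟨H _ t27225.2.2.1, H _ t27225.2.2.2.1⟩, ⟨H _ t27225.2.2.2.2.1, H _ t27225.2.2.2.2.2.1⟩⟩, ⟨⟨H _ t27225.2.2.2.2.2.2.1,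 H _ t27225.2.2.2.2.2.2.2⟩, ⟨H _ t27233.1, H _ t27233.2.1⟩⟩⟩, ⟨⟨⟨H _ t27233.2.2.1, H _ t27233.2.2.2.1⟩, ⟨H _ t27233.2.2.2.2.1, H _ t27233.2.2.2.2.2.1⟩⟩, ⟨⟨H _ t27233.2.2.2.2.2.2.1, H _ t27233.2.2.2.2.2.2.2⟩, ⟨H _ t27241.1, ⟨H _ t27241.2.1, H _ t27241.2.2.1⟩⟩⟩⟩⟩, ⟨⟨⟨⟨H _ t27241.2.2.2.1, H _ t27241.2.2.2.2.1⟩, ⟨H _ t27241.2.2.2.2.2.1, H _ t27241.2.2.2.2.2.2.1⟩⟩, ⟨⟨H _ t27241.2.2.2.2.2.2.2, H _ t27249.1⟩, ⟨H _ t27249.2.1, ⟨H _ t27249.2.2.1, H _ t27249.2.2.2.1⟩⟩⟩⟩, ⟨⟨⟨H _ t27249.2.2.2.2.1, H _ t27249.2.2.2.2.2.1⟩, ⟨H _ t27249.2.2.2.2.2.2.1, H _ t27249.2.2.2.2.2.2.2⟩⟩, ⟨⟨H _ t27257.1, H _ t27257.2.1⟩, ⟨H _ t27257.2.2.1, ⟨H _ t27257.2.2.2.1, H _ t27257.2.2.2.2.1⟩⟩⟩⟩⟩⟩, ⟨⟨⟨⟨⟨H _ t27257.2.2.2.2.2.1, H _ t27257.2.2.2.2.2.2.1⟩, ⟨H _ t27257.2.2.2.2.2.2.2, H _ t27265.1⟩⟩, ⟨⟨H _ t27265.2.1, H _ t27265.2.2.1⟩, ⟨H _ t27265.2.2.2.1, ⟨H _ t27265.2.2.2.2.1, H _ t27265.2.2.2.2.2.1⟩⟩⟩⟩, ⟨⟨⟨H _ t27265.2.2.2.2.2.2.1,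 H _ t27265.2.2.2.2.2.2.2⟩, ⟨H _ t27273.1, H _ t27273.2.1⟩⟩, ⟨⟨H _ t27273.2.2.1, H _ t27273.2.2.2.1⟩, ⟨H _ t27273.2.2.2.2.1, ⟨H _ t27273.2.2.2.2.2.1, H _ t27273.2.2.2.2.2.2.1⟩⟩⟩⟩⟩, ⟨⟨⟨⟨H _ t27273.2.2.2.2.2.2.2, H _ t27281.1⟩, ⟨H _ t27281.2.1, H _ t27281.2.2.1⟩⟩, ⟨⟨H _ t27281.2.2.2.1, H _ t27281.2.2.2.2.1⟩, ⟨H _ t27281.2.2.2.2.2.1, ⟨H _ t27281.2.2.2.2.2.2.1, H _ t27281.2.2.2.2.2.2.2⟩⟩⟩⟩, ⟨⟨⟨H _ t27289.1, H _ t27289.2.1⟩, ⟨H _ t27289.2.2.1, H _ t27289.2.2.2.1⟩⟩, ⟨⟨H _ t27289.2.2.2.2.1, H _ t27289.2.2.2.2.2.1⟩, ⟨H _ t27289.2.2.2.2.2.2.1, ⟨H _ t27289.2.2.2.2.2.2.2, H _ t27297.1⟩⟩⟩⟩⟩⟩⟩⟩, ⟨⟨⟨⟨⟨⟨⟨H _ t27297.2.1, H _ t27297.2.2.1⟩, ⟨H _ t27297.2.2.2.1, H _ t27297.2.2.2.2.1⟩⟩, ⟨⟨H _ t27297.2.2.2.2.2.1, H _ t27297.2.2.2.2.2.2.1⟩, ⟨H _ t27297.2.2.2.2.2.2.2, H _ t27305.1⟩⟩⟩, ⟨⟨⟨H _ t27305.2.1, H _ t27305.2.2.1⟩, ⟨H _ t27305.2.2.2.1, H _ t27305.2.2.2.2.1⟩⟩, ⟨⟨H _ t27305.2.2.2.2.2.1, H _ t27305.2.2.2.2.2.2.1⟩,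 ⟨H _ t27305.2.2.2.2.2.2.2, ⟨H _ t27313.1, H _ t27313.2.1⟩⟩⟩⟩⟩, ⟨⟨⟨⟨H _ t27313.2.2.1, H _ t27313.2.2.2.1⟩, ⟨H _ t27313.2.2.2.2.1, H _ t27313.2.2.2.2.2.1⟩⟩, ⟨⟨H _ t27313.2.2.2.2.2.2.1, H _ t27313.2.2.2.2.2.2.2⟩, ⟨H _ t27321.1, ⟨H _ t27321.2.1, H _ t27321.2.2.1⟩⟩⟩⟩, ⟨⟨⟨H _ t27321.2.2.2.1, H _ t27321.2.2.2.2.1⟩, ⟨H _ t27321.2.2.2.2.2.1, H _ t27321.2.2.2.2.2.2.1⟩⟩, ⟨⟨H _ t27321.2.2.2.2.2.2.2, H _ t27329.1⟩, ⟨H _ t27329.2.1, ⟨H _ t27329.2.2.1, H _ t27329.2.2.2.1⟩⟩⟩⟩⟩⟩, ⟨⟨⟨⟨⟨H _ t27329.2.2.2.2.1, H _ t27329.2.2.2.2.2.1⟩, ⟨H _ t27329.2.2.2.2.2.2.1, H _ t27329.2.2.2.2.2.2.2⟩⟩, ⟨⟨H _ t27337.1, H _ t27337.2.1⟩, ⟨H _ t27337.2.2.1, ⟨H _ t27337.2.2.2.1, H _ t27337.2.2.2.2.1⟩⟩⟩⟩, ⟨⟨⟨H _ t27337.2.2.2.2.2.1, H _ t27337.2.2.2.2.2.2.1⟩, ⟨H _ t27337.2.2.2.2.2.2.2, H _ t27345.1⟩⟩, ⟨⟨H _ t27345.2.1, H _ t27345.2.2.1⟩, ⟨H _ t27345.2.2.2.1, ⟨H _ t27345.2.2.2.2.1, H _ t27345.2.2.2.2.2.1⟩⟩⟩⟩⟩, ⟨⟨⟨⟨H _ t27345.2.2.2.2.2.2.1,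 H _ t27345.2.2.2.2.2.2.2⟩, ⟨H _ t27353.1, H _ t27353.2.1⟩⟩, ⟨⟨H _ t27353.2.2.1, H _ t27353.2.2.2.1⟩, ⟨H _ t27353.2.2.2.2.1, ⟨H _ t27353.2.2.2.2.2.1, H _ t27353.2.2.2.2.2.2.1⟩⟩⟩⟩, ⟨⟨⟨H _ t27353.2.2.2.2.2.2.2, H _ t27361.1⟩, ⟨H _ t27361.2.1, H _ t27361.2.2.1⟩⟩, ⟨⟨H _ t27361.2.2.2.1, H _ t27361.2.2.2.2.1⟩, ⟨H _ t27361.2.2.2.2.2.1, ⟨H _ t27361.2.2.2.2.2.2.1, H _ t27361.2.2.2.2.2.2.2⟩⟩⟩⟩⟩⟩⟩, ⟨⟨⟨⟨⟨⟨H _ t27369.1, H _ t27369.2.1⟩, ⟨H _ t27369.2.2.1, H _ t27369.2.2.2.1⟩⟩, ⟨⟨H _ t27369.2.2.2.2.1, H _ t27369.2.2.2.2.2.1⟩, ⟨H _ t27369.2.2.2.2.2.2.1, H _ t27369.2.2.2.2.2.2.2⟩⟩⟩, ⟨⟨⟨H _ t27377.1, H _ t27377.2.1⟩, ⟨H _ t27377.2.2.1, H _ t27377.2.2.2.1⟩⟩, ⟨⟨H _ t27377.2.2.2.2.1, H _ t27377.2.2.2.2.2.1⟩, ⟨H _ t27377.2.2.2.2.2.2.1, ⟨H _ t27377.2.2.2.2.2.2.2, H _ t27385.1⟩⟩⟩⟩⟩, ⟨⟨⟨⟨H _ t27385.2.1, H _ t27385.2.2.1⟩, ⟨H _ t27385.2.2.2.1, H _ t27385.2.2.2.2.1⟩⟩, ⟨⟨H _ t27385.2.2.2.2.2.1, H _ t27385.2.2.2.2.2.2.1⟩,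 ⟨H _ t27385.2.2.2.2.2.2.2, ⟨H _ t27393.1, H _ t27393.2.1⟩⟩⟩⟩, ⟨⟨⟨H _ t27393.2.2.1, H _ t27393.2.2.2.1⟩, ⟨H _ t27393.2.2.2.2.1, H _ t27393.2.2.2.2.2.1⟩⟩, ⟨⟨H _ t27393.2.2.2.2.2.2.1, H _ t27393.2.2.2.2.2.2.2⟩, ⟨H _ t27401.1, ⟨H _ t27401.2.1, H _ t27401.2.2.1⟩⟩⟩⟩⟩⟩, ⟨⟨⟨⟨⟨H _ t27401.2.2.2.1, H _ t27401.2.2.2.2.1⟩, ⟨H _ t27401.2.2.2.2.2.1, H _ t27401.2.2.2.2.2.2.1⟩⟩, ⟨⟨H _ t27401.2.2.2.2.2.2.2, H _ t27409.1⟩, ⟨H _ t27409.2.1, ⟨H _ t27409.2.2.1, H _ t27409.2.2.2.1⟩⟩⟩⟩, ⟨⟨⟨H _ t27409.2.2.2.2.1, H _ t27409.2.2.2.2.2.1⟩, ⟨H _ t27409.2.2.2.2.2.2.1, H _ t27409.2.2.2.2.2.2.2⟩⟩, ⟨⟨H _ t27417.1, H _ t27417.2.1⟩, ⟨H _ t27417.2.2.1, ⟨H _ t27417.2.2.2.1, H _ t27417.2.2.2.2.1⟩⟩⟩⟩⟩, ⟨⟨⟨⟨H _ t27417.2.2.2.2.2.1, H _ t27417.2.2.2.2.2.2.1⟩, ⟨H _ t27417.2.2.2.2.2.2.2, H _ t27425.1⟩⟩, ⟨⟨H _ t27425.2.1, H _ t27425.2.2.1⟩, ⟨H _ t27425.2.2.2.1, ⟨H _ t27425.2.2.2.2.1, H _ t27425.2.2.2.2.2.1⟩⟩⟩⟩, ⟨⟨⟨H _ t27425.2.2.2.2.2.2.1,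 H _ t27425.2.2.2.2.2.2.2⟩, ⟨H _ t27433.1, H _ t27433.2.1⟩⟩, ⟨⟨H _ t27433.2.2.1, H _ t27433.2.2.2.1⟩, ⟨H _ t27433.2.2.2.2.1, ⟨H _ t27433.2.2.2.2.2.1, H _ t27433.2.2.2.2.2.2⟩⟩⟩⟩⟩⟩⟩⟩⟩⟩

end Pool.Agent.MP_c853c5_nt.X.C4950
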