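import Pool.Agent.MP_c853c5_nt.X.C4950.Env
import Pool.Agent.MP_c853c5_nt.X.C4950.D9

set_option autoImplicit false
set_option maxRecDepth 8192
set_option linter.all false

namespace Pool.Agent.MP_c853c5_nt.X.C4950

open Pool.Agent.MP_c853c5_nt.X

def t27440 : allY (E.wth (lkp [])) l27440 = true ∧
    allY (E.wth (lkp [])) l27441 = true ∧
    allY (E.wth (lkp [])) l27442 = true ∧
    allY (E.wth (lkp [])) l27443 = true ∧
    allY (E.wth (lkp [])) l27444 = true ∧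
    allY (E.wth (lkp [])) l27445 = true ∧
    allY (E.wth (lkp [])) l27446 = true ∧
    allY (E.wth (lkp [])) l27447 = true :=
  ⟨by decide +kernel, by decide +kernel, by decide +kernel, by decide +kernel, by decide +kernel, by decide +kernel, by decide +kernel, by decide +kernel⟩

def t27448 : allY (E.wth (lkp [])) l27448 = true ∧
    allY (E.wth (lkp [])) l27449 = true ∧
    allY (E.wth (lkp [])) l27450 = true ∧
    allY (E.wth (lkp [])) l27451 = true ∧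
    allY (E.wth (lkp [])) l27452 = true ∧
    allY (E.wth (lkp [])) l27453 = true ∧
    allY (E.wth (lkp [])) l27454 = true ∧
    allY (E.wth (lkp [])) l27455 = true :=
  ⟨by decide +kernel, by decide +kernel, by decide +kernel, by decide +kernel, by decide +kernel, by decide +kernel, by decide +kernel, by decide +kernel⟩

def t27456 : allY (E.wth (lkp [])) l27456 = true ∧
    allY (E.wth (lkp [])) l27457 = true ∧
    allY (E.wth (lkp [])) l27458 = true ∧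
    allY (E.wth (lkp [])) l27459 = true ∧
    allY (E.wth (lkp [])) l27460 = true ∧
    allY (E.wth (lkp [])) l27461 = true ∧
    allY (E.wth (lkp [])) l27462 = true ∧
    allY (E.wth (lkp [])) l27463 = true :=
  ⟨by decide +kernel, by decide +kernel, by decide +kernel, by decide +kernel, by decide +kernel, by decide +kernel, by decide +kernel, by decide +kernel⟩

def t27464 : allY (E.wth (lkp [])) l27464 = true ∧
    allY (E.wth (lkp [])) l27465 = true ∧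
    allY (E.wth (lkp [])) l27466 = true ∧
    allY (E.wth (lkp [])) l27467 = true ∧
    allY (E.wth (lkp [])) l27468 = true ∧
    allY (E.wth (lkp [])) l27469 = true ∧
    allY (E.wth (lkp [])) l27470 = true ∧
    allY (E.wth (lkp [])) l27471 = true :=
  ⟨by decide +kernel, by decide +kernel, by decide +kernel, by decide +kernel, by decide +kernel, by decide +kernel, by decide +kernel, by decide +kernel⟩

def t27472 : allY (E.wth (lkp [])) l27472 = true ∧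
    allY (E.wth (lkp [])) l27473 = true ∧
    allY (E.wth (lkp [])) l27474 = true ∧
    allY (E.wth (lkp [])) l27475 = true ∧
    allY (E.wth (lkp [])) l27476 = true ∧
    allY (E.wth (lkp [])) l27477 = true ∧
    allY (E.wth (lkp [])) l27478 = true ∧
    allY (E.wth (lkp [])) l27479 = true :=
  ⟨by decide +kernel, by decide +kernel, by decide +kernel, by decide +kernel, by decide +kernel, by decide +kernel, by decide +kernel, by decide +kernel⟩

def t27480 : allY (E.wth (lkp [])) l27480 = true ∧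
    allY (E.wth (lkp [])) l27481 = true ∧
    allY (E.wth (lkp [])) l27482 = true ∧
    allY (E.wth (lkp [])) l27483 = true ∧
    allY (E.wth (lkp [])) l27484 = true ∧
    allY (E.wth (lkp [])) l27485 = true ∧
    allY (E.wth (lkp [])) l27486 = true ∧
    allY (E.wth (lkp [])) l27487 = true :=
  ⟨by decide +kernel, by decide +kernel, by decide +kernel, by decide +kernel, by decide +kernel, by decide +kernel, by decide +kernel, by decide +kernel⟩

def t27488 : allY (E.wth (lkp [])) l27488 = true ∧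
    allY (E.wth (lkp [])) l27489 = true ∧
    allY (E.wth (lkp [])) l27490 = true ∧
    allY (E.wth (lkp [])) l27491 = true ∧
    allY (E.wth (lkp [])) l27492 = true ∧
    allY (E.wth (lkp [])) l27493 = true ∧
    allY (E.wth (lkp [])) l27494 = true ∧
    allY (E.wth (lkp [])) l27495 = true :=
  ⟨by decide +kernel, by decide +kernel, by decide +kernel, by decide +kernel, by decide +kernel, by decide +kernel, by decide +kernel, by decide +kernel⟩

def t27496 : allY (E.wth (lkp [])) l27496 = true ∧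
    allY (E.wth (lkp [])) l27497 = true ∧
    allY (E.wth (lkp [])) l27498 = true ∧
    allY (E.wth (lkp [])) l27499 = true ∧
    allY (E.wth (lkp [])) l27500 = true ∧
    allY (E.wth (lkp [])) l27501 = true ∧
    allY (E.wth (lkp [])) l27502 = true ∧
    allY (E.wth (lkp [])) l27503 = true :=
  ⟨by decide +kernel, by decide +kernel, by decide +kernel, by decide +kernel, by decide +kernel, by decide +kernel, by decide +kernel, by decide +kernel⟩

def t27504 : allY (E.wth (lkp [])) l27504 = true ∧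
    allY (E.wth (lkp [])) l27505 = true ∧
    allY (E.wth (lkp [])) l27506 = true ∧
    allY (E.wth (lkp [])) l27507 = true ∧
    allY (E.wth (lkp [])) l27508 = true ∧
    allY (E.wth (lkp [])) l27509 = true ∧
    allY (E.wth (lkp [])) l27510 = true ∧
    allY (E.wth (lkp [])) l27511 = true :=
  ⟨by decide +kernel, by decide +kernel, by decide +kernel, by decide +kernel, by decide +kernel, by decide +kernel, by decide +kernel, by decide +kernel⟩

def t27512 : allY (E.wth (lkp [])) l27512 = true ∧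
    allY (E.wth (lkp [])) l27513 = true ∧
    allY (E.wth (lkp [])) l27514 = true ∧
    allY (E.wth (lkp [])) l27515 = true ∧
    allY (E.wth (lkp [])) l27516 = true ∧
    allY (E.wth (lkp [])) l27517 = true ∧
    allY (E.wth (lkp [])) l27518 = true ∧
    allY (E.wth (lkp [])) l27519 = true :=
  ⟨by decide +kernel, by decide +kernel, by decide +kernel, by decide +kernel, by decide +kernel, by decide +kernel, by decide +kernel, by decide +kernel⟩

def t27520 : allY (E.wth (lkp [])) l27520 = true ∧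
    allY (E.wth (lkp [])) l27521 = true ∧
    allY (E.wth (lkp [])) l27522 = true ∧
    allY (E.wth (lkp [])) l27523 = true ∧
    allY (E.wth (lkp [])) l27524 = true ∧
    allY (E.wth (lkp [])) l27525 = true ∧
    allY (E.wth (lkp [])) l27526 = true ∧
    allY (E.wth (lkp [])) l27527 = true :=
  ⟨by decide +kernel, by decide +kernel, by decide +kernel, by decide +kernel, by decide +kernel, by decide +kernel, by decide +kernel, by decide +kernel⟩

def t27528 : allY (E.wth (lkp [])) l27528 = true ∧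
    allY (E.wth (lkp [])) l27529 = true ∧
    allY (E.wth (lkp [])) l27530 = true ∧
    allY (E.wth (lkp [])) l27531 = true ∧
    allY (E.wth (lkp [])) l27532 = true ∧
    allY (E.wth (lkp [])) l27533 = true ∧
    allY (E.wth (lkp [])) l27534 = true ∧
    allY (E.wth (lkp [])) l27535 = true :=
  ⟨by decide +kernel, by decide +kernel, by decide +kernel, by decide +kernel, by decide +kernel, by decide +kernel, by decide +kernel, by decide +kernel⟩

def t27536 : allY (E.wth (lkp [])) l27536 = true ∧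
    allY (E.wth (lkp [])) l27537 = true ∧
    allY (E.wth (lkp [])) l27538 = true ∧
    allY (E.wth (lkp [])) l27539 = true ∧
    allY (E.wth (lkp [])) l27540 = true ∧
    allY (E.wth (lkp [])) l27541 = true ∧
    allY (E.wth (lkp [])) l27542 = true ∧
    allY (E.wth (lkp [])) l27543 = true :=
  ⟨by decide +kernel, by decide +kernel, by decide +kernel, by decide +kernel, by decide +kernel, by decide +kernel, by decide +kernel, by decide +kernel⟩

def t27544 : allY (E.wth (lkp [])) l27544 = true ∧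
    allY (E.wth (lkp [])) l27545 = true ∧
    allY (E.wth (lkp [])) l27546 = true ∧
    allY (E.wth (lkp [])) l27547 = true ∧
    allY (E.wth (lkp [])) l27548 = true ∧
    allY (E.wth (lkp [])) l27549 = true ∧
    allY (E.wth (lkp [])) l27550 = true ∧
    allY (E.wth (lkp [])) l27551 = true :=
  ⟨by decide +kernel, by decide +kernel, by decide +kernel, by decide +kernel, by decide +kernel, by decide +kernel, by decide +kernel, by decide +kernel⟩

def t27552 : allY (E.wth (lkp [])) l27552 = true ∧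
    allY (E.wth (lkp [])) l27553 = true ∧
    allY (E.wth (lkp [])) l27554 = true ∧
    allY (E.wth (lkp [])) l27555 = true ∧
    allY (E.wth (lkp [])) l27556 = true ∧
    allY (E.wth (lkp [])) l27557 = true ∧
    allY (E.wth (lkp [])) l27558 = true ∧
    allY (E.wth (lkp [])) l27559 = true :=
  ⟨by decide +kernel, by decide +kernel, by decide +kernel, by decide +kernel, by decide +kernel, by decide +kernel, by decide +kernel, by decide +kernel⟩

def t27560 : allY (E.wth (lkp [])) l27560 = true ∧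
    allY (E.wth (lkp [])) l27561 = true ∧
    allY (E.wth (lkp [])) l27562 = true ∧
    allY (E.wth (lkp [])) l27563 = true ∧
    allY (E.wth (lkp [])) l27564 = true ∧
    allY (E.wth (lkp [])) l27565 = true ∧
    allY (E.wth (lkp [])) l27566 = true ∧
    allY (E.wth (lkp [])) l27567 = true :=
  ⟨by decide +kernel, by decide +kernel, by decide +kernel, by decide +kernel, by decide +kernel, by decide +kernel, by decide +kernel, by decide +kernel⟩

def t27568 : allY (E.wth (lkp [])) l27568 = true ∧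
    allY (E.wth (lkp [])) l27569 = true ∧
    allY (E.wth (lkp [])) l27570 = true ∧
    allY (E.wth (lkp [])) l27571 = true ∧
    allY (E.wth (lkp [])) l27572 = true ∧
    allY (E.wth (lkp [])) l27573 = true ∧
    allY (E.wth (lkp [])) l27574 = true ∧
    allY (E.wth (lkp [])) l27575 = true :=
  ⟨by decide +kernel, by decide +kernel, by decide +kernel, by decide +kernel, by decide +kernel, by decide +kernel, by decide +kernel, by decide +kernel⟩

def t27576 : allY (E.wth (lkp [])) l27576 = true ∧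
    allY (E.wth (lkp [])) l27577 = true ∧
    allY (E.wth (lkp [])) l27578 = true ∧
    allY (E.wth (lkp [])) l27579 = true ∧
    allY (E.wth (lkp [])) l27580 = true ∧
    allY (E.wth (lkp [])) l27581 = true ∧
    allY (E.wth (lkp [])) l27582 = true ∧
    allY (E.wth (lkp [])) l27583 = true :=
  ⟨by decide +kernel, by decide +kernel, by decide +kernel, by decide +kernel, by decide +kernel, by decide +kernel, by decide +kernel, by decide +kernel⟩

def t27584 : allY (E.wth (lkp [])) l27584 = true ∧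
    allY (E.wth (lkp [])) l27585 = true ∧
    allY (E.wth (lkp [])) l27586 = true ∧
    allY (E.wth (lkp [])) l27587 = true ∧
    allY (E.wth (lkp [])) l27588 = true ∧
    allY (E.wth (lkp [])) l27589 = true ∧
    allY (E.wth (lkp [])) l27590 = true ∧
    allY (E.wth (lkp [])) l27591 = true :=
  ⟨by decide +kernel, by decide +kernel, by decide +kernel, by decide +kernel, by decide +kernel, by decide +kernel, by decide +kernel, by decide +kernel⟩

def t27592 : allY (E.wth (lkp [])) l27592 = true ∧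
    allY (E.wth (lkp [])) l27593 = true ∧
    allY (E.wth (lkp [])) l27594 = true ∧
    allY (E.wth (lkp [])) l27595 = true ∧
    allY (E.wth (lkp [])) l27596 = true ∧
    allY (E.wth (lkp [])) l27597 = true ∧
    allY (E.wth (lkp [])) l27598 = true ∧
    allY (E.wth (lkp [])) l27599 = true :=
  ⟨by decide +kernel, by decide +kernel, by decide +kernel, by decide +kernel, by decide +kernel, by decide +kernel, by decide +kernel, by decide +kernel⟩

def t27600 : allY (E.wth (lkp [])) l27600 = true ∧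
    allY (E.wth (lkp [])) l27601 = true ∧
    allY (E.wth (lkp [])) l27602 = true ∧
    allY (E.wth (lkp [])) l27603 = true ∧
    allY (E.wth (lkp [])) l27604 = true ∧
    allY (E.wth (lkp [])) l27605 = true ∧
    allY (E.wth (lkp [])) l27606 = true ∧
    allY (E.wth (lkp [])) l27607 = true :=
  ⟨by decide +kernel, by decide +kernel, by decide +kernel, by decide +kernel, by decide +kernel, by decide +kernel, by decide +kernel, by decide +kernel⟩

def t27608 : allY (E.wth (lkp [])) l27608 = true ∧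
    allY (E.wth (lkp [])) l27609 = true ∧
    allY (E.wth (lkp [])) l27610 = true ∧
    allY (E.wth (lkp [])) l27611 = true ∧
    allY (E.wth (lkp [])) l27612 = true ∧
    allY (E.wth (lkp [])) l27613 = true ∧
    allY (E.wth (lkp [])) l27614 = true ∧
    allY (E.wth (lkp [])) l27615 = true :=
  ⟨by decide +kernel, by decide +kernel, by decide +kernel, by decide +kernel, by decide +kernel, by decide +kernel, by decide +kernel, by decide +kernel⟩

def t27616 : allY (E.wth (lkp [])) l27616 = true ∧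
    allY (E.wth (lkp [])) l27617 = true ∧
    allY (E.wth (lkp [])) l27618 = true ∧
    allY (E.wth (lkp [])) l27619 = true ∧
    allY (E.wth (lkp [])) l27620 = true ∧
    allY (E.wth (lkp [])) l27621 = true ∧
    allY (E.wth (lkp [])) l27622 = true ∧
    allY (E.wth (lkp [])) l27623 = true :=
  ⟨by decide +kernel, by decide +kernel, by decide +kernel, by decide +kernel, by decide +kernel, by decide +kernel, by decide +kernel, by decide +kernel⟩

def t27624 : allY (E.wth (lkp [])) l27624 = true ∧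
    allY (E.wth (lkp [])) l27625 = true ∧
    allY (E.wth (lkp [])) l27626 = true ∧
    allY (E.wth (lkp [])) l27627 = true ∧
    allY (E.wth (lkp [])) l27628 = true ∧
    allY (E.wth (lkp [])) l27629 = true ∧
    allY (E.wth (lkp [])) l27630 = true ∧
    allY (E.wth (lkp [])) l27631 = true :=
  ⟨by decide +kernel, by decide +kernel, by decide +kernel, by decide +kernel, by decide +kernel, by decide +kernel, by decide +kernel, by decide +kernel⟩

def t27632 : allY (E.wth (lkp [])) l27632 = true ∧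
    allY (E.wth (lkp [])) l27633 = true ∧
    allY (E.wth (lkp [])) l27634 = true ∧
    allY (E.wth (lkp [])) l27635 = true ∧
    allY (E.wth (lkp [])) l27636 = true ∧
    allY (E.wth (lkp [])) l27637 = true ∧
    allY (E.wth (lkp [])) l27638 = true ∧
    allY (E.wth (lkp [])) l27639 = true :=
  ⟨by decide +kernel, by decide +kernel, by decide +kernel, by decide +kernel, by decide +kernel, by decide +kernel, by decide +kernel, by decide +kernel⟩

def t27640 : allY (E.wth (lkp [])) l27640 = true ∧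
    allY (E.wth (lkp [])) l27641 = true ∧
    allY (E.wth (lkp [])) l27642 = true ∧
    allY (E.wth (lkp [])) l27643 = true ∧
    allY (E.wth (lkp [])) l27644 = true ∧
    allY (E.wth (lkp [])) l27645 = true ∧
    allY (E.wth (lkp [])) l27646 = true ∧
    allY (E.wth (lkp [])) l27647 = true :=
  ⟨by decide +kernel, by decide +kernel, by decide +kernel, by decide +kernel, by decide +kernel, by decide +kernel, by decide +kernel, by decide +kernel⟩

def t27648 : allY (E.wth (lkp [])) l27648 = true ∧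
    allY (E.wth (lkp [])) l27649 = true ∧
    allY (E.wth (lkp [])) l27650 = true ∧
    allY (E.wth (lkp [])) l27651 = true ∧
    allY (E.wth (lkp [])) l27652 = true ∧
    allY (E.wth (lkp [])) l27653 = true ∧
    allY (E.wth (lkp [])) l27654 = true ∧
    allY (E.wth (lkp [])) l27655 = true :=
  ⟨by decide +kernel, by decide +kernel, by decide +kernel, by decide +kernel, by decide +kernel, by decide +kernel, by decide +kernel, by decide +kernel⟩

def t27656 : allY (E.wth (lkp [])) l27656 = true ∧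
    allY (E.wth (lkp [])) l27657 = true ∧
    allY (E.wth (lkp [])) l27658 = true ∧
    allY (E.wth (lkp [])) l27659 = true ∧
    allY (E.wth (lkp [])) l27660 = true ∧
    allY (E.wth (lkp [])) l27661 = true ∧
    allY (E.wth (lkp [])) l27662 = true ∧
    allY (E.wth (lkp [])) l27663 = true :=
  ⟨by decide +kernel, by decide +kernel, by decide +kernel, by decide +kernel, by decide +kernel, by decide +kernel, by decide +kernel, by decide +kernel⟩

def t27664 : allY (E.wth (lkp [])) l27664 = true ∧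
    allY (E.wth (lkp [])) l27665 = true ∧
    allY (E.wth (lkp [])) l27666 = true ∧
    allY (E.wth (lkp [])) l27667 = true ∧
    allY (E.wth (lkp [])) l27668 = true ∧
    allY (E.wth (lkp [])) l27669 = true ∧
    allY (E.wth (lkp [])) l27670 = true ∧
    allY (E.wth (lkp [])) l27671 = true :=
  ⟨by decide +kernel, by decide +kernel, by decide +kernel, by decide +kernel, by decide +kernel, by decide +kernel, by decide +kernel, by decide +kernel⟩

def t27672 : allY (E.wth (lkp [])) l27672 = true ∧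
    allY (E.wth (lkp [])) l27673 = true ∧
    allY (E.wth (lkp [])) l27674 = true ∧
    allY (E.wth (lkp [])) l27675 = true ∧
    allY (E.wth (lkp [])) l27676 = true ∧
    allY (E.wth (lkp [])) l27677 = true ∧
    allY (E.wth (lkp [])) l27678 = true ∧
    allY (E.wth (lkp [])) l27679 = true :=
  ⟨by decide +kernel, by decide +kernel, by decide +kernel, by decide +kernel, by decide +kernel, by decide +kernel, by decide +kernel, by decide +kernel⟩

def t27680 : allY (E.wth (lkp [])) l27680 = true ∧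
    allY (E.wth (lkp [])) l27681 = true ∧
    allY (E.wth (lkp [])) l27682 = true ∧
    allY (E.wth (lkp [])) l27683 = true ∧
    allY (E.wth (lkp [])) l27684 = true ∧
    allY (E.wth (lkp [])) l27685 = true ∧
    allY (E.wth (lkp [])) l27686 = true ∧
    allY (E.wth (lkp [])) l27687 = true :=
  ⟨by decide +kernel, by decide +kernel, by decide +kernel, by decide +kernel, by decide +kernel, by decide +kernel, by decide +kernel, by decide +kernel⟩

def t27688 : allY (E.wth (lkp [])) l27688 = true ∧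
    allY (E.wth (lkp [])) l27689 = true ∧
    allY (E.wth (lkp [])) l27690 = true ∧
    allY (E.wth (lkp [])) l27691 = true ∧
    allY (E.wth (lkp [])) l27692 = true ∧
    allY (E.wth (lkp [])) l27693 = true ∧
    allY (E.wth (lkp [])) l27694 = true ∧
    allY (E.wth (lkp [])) l27695 = true :=
  ⟨by decide +kernel, by decide +kernel, by decide +kernel, by decide +kernel, by decide +kernel, by decide +kernel, by decide +kernel, by decide +kernel⟩

def t27696 : allY (E.wth (lkp [])) l27696 = true ∧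
    allY (E.wth (lkp [])) l27697 = true ∧
    allY (E.wth (lkp [])) l27698 = true ∧
    allY (E.wth (lkp [])) l27699 = true ∧
    allY (E.wth (lkp [])) l27700 = true ∧
    allY (E.wth (lkp [])) l27701 = true ∧
    allY (E.wth (lkp [])) l27702 = true ∧
    allY (E.wth (lkp [])) l27703 = true :=
  ⟨by decide +kernel, by decide +kernel, by decide +kernel, by decide +kernel, by decide +kernel, by decide +kernel, by decide +kernel, by decide +kernel⟩

def t27704 : allY (E.wth (lkp [])) l27704 = true ∧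
    allY (E.wth (lkp [])) l27705 = true ∧
    allY (E.wth (lkp [])) l27706 = true ∧
    allY (E.wth (lkp [])) l27707 = true ∧
    allY (E.wth (lkp [])) l27708 = true ∧
    allY (E.wth (lkp [])) l27709 = true ∧
    allY (E.wth (lkp [])) l27710 = true ∧
    allY (E.wth (lkp [])) l27711 = true :=
  ⟨by decide +kernel, by decide +kernel, by decide +kernel, by decide +kernel, by decide +kernel, by decide +kernel, by decide +kernel, by decide +kernel⟩

def t27712 : allY (E.wth (lkp [])) l27712 = true ∧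
    allY (E.wth (lkp [])) l27713 = true ∧
    allY (E.wth (lkp [])) l27714 = true ∧
    allY (E.wth (lkp [])) l27715 = true ∧
    allY (E.wth (lkp [])) l27716 = true ∧
    allY (E.wth (lkp [])) l27717 = true ∧
    allY (E.wth (lkp [])) l27718 = true ∧
    allY (E.wth (lkp [])) l27719 = true :=
  ⟨by decide +kernel, by decide +kernel, by decide +kernel, by decide +kernel, by decide +kernel, by decide +kernel, by decide +kernel, by decide +kernel⟩

def t27720 : allY (E.wth (lkp [])) l27720 = true ∧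
    allY (E.wth (lkp [])) l27721 = true ∧
    allY (E.wth (lkp [])) l27722 = true ∧
    allY (E.wth (lkp [])) l27723 = true ∧
    allY (E.wth (lkp [])) l27724 = true ∧
    allY (E.wth (lkp [])) l27725 = true ∧
    allY (E.wth (lkp [])) l27726 = true ∧
    allY (E.wth (lkp [])) l27727 = true :=
  ⟨by decide +kernel, by decide +kernel, by decide +kernel, by decide +kernel, by decide +kernel, by decide +kernel, by decide +kernel, by decide +kernel⟩

def t27728 : allY (E.wth (lkp [])) l27728 = true ∧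
    allY (E.wth (lkp [])) l27729 = true ∧
    allY (E.wth (lkp [])) l27730 = true ∧
    allY (E.wth (lkp [])) l27731 = true ∧
    allY (E.wth (lkp [])) l27732 = true ∧
    allY (E.wth (lkp [])) l27733 = true ∧
    allY (E.wth (lkp [])) l27734 = true ∧
    allY (E.wth (lkp [])) l27735 = true :=
  ⟨by decide +kernel, by decide +kernel, by decide +kernel, by decide +kernel, by decide +kernel, by decide +kernel, by decide +kernel, by decide +kernel⟩

def t27736 : allY (E.wth (lkp [])) l27736 = true ∧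
    allY (E.wth (lkp [])) l27737 = true ∧
    allY (E.wth (lkp [])) l27738 = true ∧
    allY (E.wth (lkp [])) l27739 = true ∧
    allY (E.wth (lkp [])) l27740 = true ∧
    allY (E.wth (lkp [])) l27741 = true ∧
    allY (E.wth (lkp [])) l27742 = true ∧
    allY (E.wth (lkp [])) l27743 = true :=
  ⟨by decide +kernel, by decide +kernel, by decide +kernel, by decide +kernel, by decide +kernel, by decide +kernel, by decide +kernel, by decide +kernel⟩

def t27744 : allY (E.wth (lkp [])) l27744 = true ∧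
    allY (E.wth (lkp [])) l27745 = true ∧
    allY (E.wth (lkp [])) l27746 = true ∧
    allY (E.wth (lkp [])) l27747 = true ∧
    allY (E.wth (lkp [])) l27748 = true ∧
    allY (E.wth (lkp [])) l27749 = true ∧
    allY (E.wth (lkp [])) l27750 = true ∧
    allY (E.wth (lkp [])) l27751 = true :=
  ⟨by decide +kernel, by decide +kernel, by decide +kernel, by decide +kernel, by decide +kernel, by decide +kernel, by decide +kernel, by decide +kernel⟩

def t27752 : allY (E.wth (lkp [])) l27752 = true :=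
  by decide +kernel

theorem a49 {p : Rf → Prop} (H : ∀ l, allY (E.wth (lkp [])) l = true → (lkp l).All p) :
    b49.All p := ⟨⟨⟨⟨⟨⟨⟨⟨H _ t27440.1, H _ t27440.2.1⟩, ⟨H _ t27440.2.2.1, H _ t27440.2.2.2.1⟩⟩, ⟨⟨H _ t27440.2.2.2.2.1, H _ t27440.2.2.2.2.2.1⟩, ⟨H _ t27440.2.2.2.2.2.2.1, ⟨H _ t27440.2.2.2.2.2.2.2, H _ t27448.1⟩⟩⟩⟩, ⟨⟨⟨H _ t27448.2.1, H _ t27448.2.2.1⟩, ⟨H _ t27448.2.2.2.1, ⟨H _ t27448.2.2.2.2.1, H _ t27448.2.2.2.2.2.1⟩⟩⟩, ⟨⟨H _ t27448.2.2.2.2.2.2.1, H _ t27448.2.2.2.2.2.2.2⟩, ⟨H _ t27456.1, ⟨H _ t27456.2.1, H _ t27456.2.2.1⟩⟩⟩⟩⟩, ⟨⟨⟨⟨H _ t27456.2.2.2.1, H _ t27456.2.2.2.2.1⟩, ⟨H _ t27456.2.2.2.2.2.1, ⟨H _ t27456.2.2.2.2.2.2.1, H _ t27456.2.2.2.2.2.2.2⟩⟩⟩, ⟨⟨H _ t27464.1, H _ t27464.2.1⟩, ⟨H _ t27464.2.2.1, ⟨H _ t27464.2.2.2.1, H _ t27464.2.2.2.2.1⟩⟩⟩⟩, ⟨⟨⟨H _ t27464.2.2.2.2.2.1, H _ t27464.2.2.2.2.2.2.1⟩, ⟨H _ t27464.2.2.2.2.2.2.2, ⟨H _ t27472.1, H _ t27472.2.1⟩⟩⟩, ⟨⟨H _ t27472.2.2.1,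 H _ t27472.2.2.2.1⟩, ⟨H _ t27472.2.2.2.2.1, ⟨H _ t27472.2.2.2.2.2.1, H _ t27472.2.2.2.2.2.2.1⟩⟩⟩⟩⟩⟩, ⟨⟨⟨⟨⟨H _ t27472.2.2.2.2.2.2.2, H _ t27480.1⟩, ⟨H _ t27480.2.1, H _ t27480.2.2.1⟩⟩, ⟨⟨H _ t27480.2.2.2.1, H _ t27480.2.2.2.2.1⟩, ⟨H _ t27480.2.2.2.2.2.1, ⟨H _ t27480.2.2.2.2.2.2.1, H _ t27480.2.2.2.2.2.2.2⟩⟩⟩⟩, ⟨⟨⟨H _ t27488.1, H _ t27488.2.1⟩, ⟨H _ t27488.2.2.1, ⟨H _ t27488.2.2.2.1, H _ t27488.2.2.2.2.1⟩⟩⟩, ⟨⟨H _ t27488.2.2.2.2.2.1, H _ t27488.2.2.2.2.2.2.1⟩, ⟨H _ t27488.2.2.2.2.2.2.2, ⟨H _ t27496.1, H _ t27496.2.1⟩⟩⟩⟩⟩, ⟨⟨⟨⟨H _ t27496.2.2.1, H _ t27496.2.2.2.1⟩, ⟨H _ t27496.2.2.2.2.1, ⟨H _ t27496.2.2.2.2.2.1, H _ t27496.2.2.2.2.2.2.1⟩⟩⟩, ⟨⟨H _ t27496.2.2.2.2.2.2.2, H _ t27504.1⟩, ⟨H _ t27504.2.1, ⟨H _ t27504.2.2.1, H _ t27504.2.2.2.1⟩⟩⟩⟩, ⟨⟨⟨H _ t27504.2.2.2.2.1, H _ t27504.2.2.2.2.2.1⟩, ⟨H _ t27504.2.2.2.2.2.2.1, ⟨H _ t27504.2.2.2.2.2.2.2, H _ t27512.1⟩⟩⟩, ⟨⟨H _ t27512.2.1, H _ t27512.2.2.1⟩,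 ⟨H _ t27512.2.2.2.1, ⟨H _ t27512.2.2.2.2.1, H _ t27512.2.2.2.2.2.1⟩⟩⟩⟩⟩⟩⟩, ⟨⟨⟨⟨⟨⟨H _ t27512.2.2.2.2.2.2.1, H _ t27512.2.2.2.2.2.2.2⟩, ⟨H _ t27520.1, H _ t27520.2.1⟩⟩, ⟨⟨H _ t27520.2.2.1, H _ t27520.2.2.2.1⟩, ⟨H _ t27520.2.2.2.2.1, ⟨H _ t27520.2.2.2.2.2.1, H _ t27520.2.2.2.2.2.2.1⟩⟩⟩⟩, ⟨⟨⟨H _ t27520.2.2.2.2.2.2.2, H _ t27528.1⟩, ⟨H _ t27528.2.1, ⟨H _ t27528.2.2.1, H _ t27528.2.2.2.1⟩⟩⟩, ⟨⟨H _ t27528.2.2.2.2.1, H _ t27528.2.2.2.2.2.1⟩, ⟨H _ t27528.2.2.2.2.2.2.1, ⟨H _ t27528.2.2.2.2.2.2.2, H _ t27536.1⟩⟩⟩⟩⟩, ⟨⟨⟨⟨H _ t27536.2.1, H _ t27536.2.2.1⟩, ⟨H _ t27536.2.2.2.1, ⟨H _ t27536.2.2.2.2.1, H _ t27536.2.2.2.2.2.1⟩⟩⟩, ⟨⟨H _ t27536.2.2.2.2.2.2.1, H _ t27536.2.2.2.2.2.2.2⟩, ⟨H _ t27544.1, ⟨H _ t27544.2.1, H _ t27544.2.2.1⟩⟩⟩⟩, ⟨⟨⟨H _ t27544.2.2.2.1, H _ t27544.2.2.2.2.1⟩, ⟨H _ t27544.2.2.2.2.2.1, ⟨H _ t27544.2.2.2.2.2.2.1, H _ t27544.2.2.2.2.2.2.2⟩⟩⟩, ⟨⟨H _ t27552.1, H _ t27552.2.1⟩, ⟨H _ t27552.2.2.1,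 ⟨H _ t27552.2.2.2.1, H _ t27552.2.2.2.2.1⟩⟩⟩⟩⟩⟩, ⟨⟨⟨⟨⟨H _ t27552.2.2.2.2.2.1, H _ t27552.2.2.2.2.2.2.1⟩, ⟨H _ t27552.2.2.2.2.2.2.2, H _ t27560.1⟩⟩, ⟨⟨H _ t27560.2.1, H _ t27560.2.2.1⟩, ⟨H _ t27560.2.2.2.1, ⟨H _ t27560.2.2.2.2.1, H _ t27560.2.2.2.2.2.1⟩⟩⟩⟩, ⟨⟨⟨H _ t27560.2.2.2.2.2.2.1, H _ t27560.2.2.2.2.2.2.2⟩, ⟨H _ t27568.1, ⟨H _ t27568.2.1, H _ t27568.2.2.1⟩⟩⟩, ⟨⟨H _ t27568.2.2.2.1, H _ t27568.2.2.2.2.1⟩, ⟨H _ t27568.2.2.2.2.2.1, ⟨H _ t27568.2.2.2.2.2.2.1, H _ t27568.2.2.2.2.2.2.2⟩⟩⟩⟩⟩, ⟨⟨⟨⟨H _ t27576.1, H _ t27576.2.1⟩, ⟨H _ t27576.2.2.1, ⟨H _ t27576.2.2.2.1, H _ t27576.2.2.2.2.1⟩⟩⟩, ⟨⟨H _ t27576.2.2.2.2.2.1, H _ t27576.2.2.2.2.2.2.1⟩, ⟨H _ t27576.2.2.2.2.2.2.2, ⟨H _ t27584.1, H _ t27584.2.1⟩⟩⟩⟩, ⟨⟨⟨H _ t27584.2.2.1, H _ t27584.2.2.2.1⟩, ⟨H _ t27584.2.2.2.2.1, ⟨H _ t27584.2.2.2.2.2.1, H _ t27584.2.2.2.2.2.2.1⟩⟩⟩, ⟨⟨H _ t27584.2.2.2.2.2.2.2, H _ t27592.1⟩, ⟨H _ t27592.2.1, ⟨H _ t27592.2.2.1,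 H _ t27592.2.2.2.1⟩⟩⟩⟩⟩⟩⟩⟩, ⟨⟨⟨⟨⟨⟨⟨H _ t27592.2.2.2.2.1, H _ t27592.2.2.2.2.2.1⟩, ⟨H _ t27592.2.2.2.2.2.2.1, H _ t27592.2.2.2.2.2.2.2⟩⟩, ⟨⟨H _ t27600.1, H _ t27600.2.1⟩, ⟨H _ t27600.2.2.1, ⟨H _ t27600.2.2.2.1, H _ t27600.2.2.2.2.1⟩⟩⟩⟩, ⟨⟨⟨H _ t27600.2.2.2.2.2.1, H _ t27600.2.2.2.2.2.2.1⟩, ⟨H _ t27600.2.2.2.2.2.2.2, ⟨H _ t27608.1, H _ t27608.2.1⟩⟩⟩, ⟨⟨H _ t27608.2.2.1, H _ t27608.2.2.2.1⟩, ⟨H _ t27608.2.2.2.2.1, ⟨H _ t27608.2.2.2.2.2.1, H _ t27608.2.2.2.2.2.2.1⟩⟩⟩⟩⟩, ⟨⟨⟨⟨H _ t27608.2.2.2.2.2.2.2, H _ t27616.1⟩, ⟨H _ t27616.2.1, ⟨H _ t27616.2.2.1, H _ t27616.2.2.2.1⟩⟩⟩, ⟨⟨H _ t27616.2.2.2.2.1, H _ t27616.2.2.2.2.2.1⟩, ⟨H _ t27616.2.2.2.2.2.2.1, ⟨H _ t27616.2.2.2.2.2.2.2, H _ t27624.1⟩⟩⟩⟩, ⟨⟨⟨H _ t27624.2.1, H _ t27624.2.2.1⟩, ⟨H _ t27624.2.2.2.1, ⟨H _ t27624.2.2.2.2.1, H _ t27624.2.2.2.2.2.1⟩⟩⟩, ⟨⟨H _ t27624.2.2.2.2.2.2.1, H _ t27624.2.2.2.2.2.2.2⟩, ⟨H _ t27632.1, ⟨H _ t27632.2.1, H _ t27632.2.2.1⟩⟩⟩⟩⟩⟩,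 ⟨⟨⟨⟨⟨H _ t27632.2.2.2.1, H _ t27632.2.2.2.2.1⟩, ⟨H _ t27632.2.2.2.2.2.1, H _ t27632.2.2.2.2.2.2.1⟩⟩, ⟨⟨H _ t27632.2.2.2.2.2.2.2, H _ t27640.1⟩, ⟨H _ t27640.2.1, ⟨H _ t27640.2.2.1, H _ t27640.2.2.2.1⟩⟩⟩⟩, ⟨⟨⟨H _ t27640.2.2.2.2.1, H _ t27640.2.2.2.2.2.1⟩, ⟨H _ t27640.2.2.2.2.2.2.1, ⟨H _ t27640.2.2.2.2.2.2.2, H _ t27648.1⟩⟩⟩, ⟨⟨H _ t27648.2.1, H _ t27648.2.2.1⟩, ⟨H _ t27648.2.2.2.1, ⟨H _ t27648.2.2.2.2.1, H _ t27648.2.2.2.2.2.1⟩⟩⟩⟩⟩, ⟨⟨⟨⟨H _ t27648.2.2.2.2.2.2.1, H _ t27648.2.2.2.2.2.2.2⟩, ⟨H _ t27656.1, ⟨H _ t27656.2.1, H _ t27656.2.2.1⟩⟩⟩, ⟨⟨H _ t27656.2.2.2.1, H _ t27656.2.2.2.2.1⟩, ⟨H _ t27656.2.2.2.2.2.1, ⟨H _ t27656.2.2.2.2.2.2.1, H _ t27656.2.2.2.2.2.2.2⟩⟩⟩⟩, ⟨⟨⟨H _ t27664.1, H _ t27664.2.1⟩, ⟨H _ t27664.2.2.1, ⟨H _ t27664.2.2.2.1, H _ t27664.2.2.2.2.1⟩⟩⟩, ⟨⟨H _ t27664.2.2.2.2.2.1, H _ t27664.2.2.2.2.2.2.1⟩, ⟨H _ t27664.2.2.2.2.2.2.2, ⟨H _ t27672.1, H _ t27672.2.1⟩⟩⟩⟩⟩⟩⟩, ⟨⟨⟨⟨⟨⟨H _ t27672.2.2.1,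 H _ t27672.2.2.2.1⟩, ⟨H _ t27672.2.2.2.2.1, H _ t27672.2.2.2.2.2.1⟩⟩, ⟨⟨H _ t27672.2.2.2.2.2.2.1, H _ t27672.2.2.2.2.2.2.2⟩, ⟨H _ t27680.1, ⟨H _ t27680.2.1, H _ t27680.2.2.1⟩⟩⟩⟩, ⟨⟨⟨H _ t27680.2.2.2.1, H _ t27680.2.2.2.2.1⟩, ⟨H _ t27680.2.2.2.2.2.1, ⟨H _ t27680.2.2.2.2.2.2.1, H _ t27680.2.2.2.2.2.2.2⟩⟩⟩, ⟨⟨H _ t27688.1, H _ t27688.2.1⟩, ⟨H _ t27688.2.2.1, ⟨H _ t27688.2.2.2.1, H _ t27688.2.2.2.2.1⟩⟩⟩⟩⟩, ⟨⟨⟨⟨H _ t27688.2.2.2.2.2.1, H _ t27688.2.2.2.2.2.2.1⟩, ⟨H _ t27688.2.2.2.2.2.2.2, ⟨H _ t27696.1, H _ t27696.2.1⟩⟩⟩, ⟨⟨H _ t27696.2.2.1, H _ t27696.2.2.2.1⟩, ⟨H _ t27696.2.2.2.2.1, ⟨H _ t27696.2.2.2.2.2.1, H _ t27696.2.2.2.2.2.2.1⟩⟩⟩⟩, ⟨⟨⟨H _ t27696.2.2.2.2.2.2.2, H _ t27704.1⟩, ⟨H _ t27704.2.1, ⟨H _ t27704.2.2.1, H _ t27704.2.2.2.1⟩⟩⟩, ⟨⟨H _ t27704.2.2.2.2.1, H _ t27704.2.2.2.2.2.1⟩, ⟨H _ t27704.2.2.2.2.2.2.1, ⟨H _ t27704.2.2.2.2.2.2.2, H _ t27712.1⟩⟩⟩⟩⟩⟩, ⟨⟨⟨⟨⟨H _ t27712.2.1, H _ t27712.2.2.1⟩,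 ⟨H _ t27712.2.2.2.1, ⟨H _ t27712.2.2.2.2.1, H _ t27712.2.2.2.2.2.1⟩⟩⟩, ⟨⟨H _ t27712.2.2.2.2.2.2.1, H _ t27712.2.2.2.2.2.2.2⟩, ⟨H _ t27720.1, ⟨H _ t27720.2.1, H _ t27720.2.2.1⟩⟩⟩⟩, ⟨⟨⟨H _ t27720.2.2.2.1, H _ t27720.2.2.2.2.1⟩, ⟨H _ t27720.2.2.2.2.2.1, ⟨H _ t27720.2.2.2.2.2.2.1, H _ t27720.2.2.2.2.2.2.2⟩⟩⟩, ⟨⟨H _ t27728.1, H _ t27728.2.1⟩, ⟨H _ t27728.2.2.1, ⟨H _ t27728.2.2.2.1, H _ t27728.2.2.2.2.1⟩⟩⟩⟩⟩, ⟨⟨⟨⟨H _ t27728.2.2.2.2.2.1, H _ t27728.2.2.2.2.2.2.1⟩, ⟨H _ t27728.2.2.2.2.2.2.2, ⟨H _ t27736.1, H _ t27736.2.1⟩⟩⟩, ⟨⟨H _ t27736.2.2.1, H _ t27736.2.2.2.1⟩, ⟨H _ t27736.2.2.2.2.1, ⟨H _ t27736.2.2.2.2.2.1, H _ t27736.2.2.2.2.2.2.1⟩⟩⟩⟩, ⟨⟨⟨H _ t27736.2.2.2.2.2.2.2, H _ t27744.1⟩, ⟨H _ t27744.2.1, ⟨H _ t27744.2.2.1, H _ t27744.2.2.2.1⟩⟩⟩, ⟨⟨H _ t27744.2.2.2.2.1, H _ t27744.2.2.2.2.2.1⟩, ⟨H _ t27744.2.2.2.2.2.2.1, ⟨H _ t27744.2.2.2.2.2.2.2, H _ t27752⟩⟩⟩⟩⟩⟩⟩⟩⟩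

end Pool.Agent.MP_c853c5_nt.X.C4950
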