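import Pool.Agent.MP_c853c5_nt.X.C4950.Env
import Pool.Agent.MP_c853c5_nt.X.C4950.D1

set_option autoImplicit false
set_option maxRecDepth 8192
set_option linter.all false

namespace Pool.Agent.MP_c853c5_nt.X.C4950

open Pool.Agent.MP_c853c5_nt.X

def t2734 : allY (E.wth (lkp [])) l2734 = true ∧
    allY (E.wth (lkp [])) l2735 = true ∧
    allY (E.wth (lkp [])) l2736 = true ∧
    allY (E.wth (lkp [])) l2737 = true ∧
    allY (E.wth (lkp [])) l2738 = true ∧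
    allY (E.wth (lkp [])) l2739 = true ∧
    allY (E.wth (lkp [])) l2740 = true ∧
    allY (E.wth (lkp [])) l2741 = true :=
  ⟨by decide +kernel, by decide +kernel, by decide +kernel, by decide +kernel, by decide +kernel, by decide +kernel, by decide +kernel, by decide +kernel⟩

def t2742 : allY (E.wth (lkp [])) l2742 = true ∧
    allY (E.wth (lkp [])) l2743 = true ∧
    allY (E.wth (lkp [])) l2744 = true ∧
    allY (E.wth (lkp [])) l2745 = true ∧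
    allY (E.wth (lkp [])) l2746 = true ∧
    allY (E.wth (lkp [])) l2747 = true ∧
    allY (E.wth (lkp [])) l2748 = true ∧
    allY (E.wth (lkp [])) l2749 = true :=
  ⟨by decide +kernel, by decide +kernel, by decide +kernel, by decide +kernel, by decide +kernel, by decide +kernel, by decide +kernel, by decide +kernel⟩

def t2750 : allY (E.wth (lkp [])) l2750 = true ∧
    allY (E.wth (lkp [])) l2751 = true ∧
    allY (E.wth (lkp [])) l2752 = true ∧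
    allY (E.wth (lkp [])) l2753 = true ∧
    allY (E.wth (lkp [])) l2754 = true ∧
    allY (E.wth (lkp [])) l2755 = true ∧
    allY (E.wth (lkp [])) l2756 = true ∧
    allY (E.wth (lkp [])) l2757 = true :=
  ⟨by decide +kernel, by decide +kernel, by decide +kernel, by decide +kernel, by decide +kernel, by decide +kernel, by decide +kernel, by decide +kernel⟩

def t2758 : allY (E.wth (lkp [])) l2758 = true ∧
    allY (E.wth (lkp [])) l2759 = true ∧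
    allY (E.wth (lkp [])) l2760 = true ∧
    allY (E.wth (lkp [])) l2761 = true ∧
    allY (E.wth (lkp [])) l2762 = true ∧
    allY (E.wth (lkp [])) l2763 = true ∧
    allY (E.wth (lkp [])) l2764 = true ∧
    allY (E.wth (lkp [])) l2765 = true :=
  ⟨by decide +kernel, by decide +kernel, by decide +kernel, by decide +kernel, by decide +kernel, by decide +kernel, by decide +kernel, by decide +kernel⟩

def t2766 : allY (E.wth (lkp [])) l2766 = true ∧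
    allY (E.wth (lkp [])) l2767 = true ∧
    allY (E.wth (lkp [])) l2768 = true ∧
    allY (E.wth (lkp [])) l2769 = true ∧
    allY (E.wth (lkp [])) l2770 = true ∧
    allY (E.wth (lkp [])) l2771 = true ∧
    allY (E.wth (lkp [])) l2772 = true ∧
    allY (E.wth (lkp [])) l2773 = true :=
  ⟨by decide +kernel, by decide +kernel, by decide +kernel, by decide +kernel, by decide +kernel, by decide +kernel, by decide +kernel, by decide +kernel⟩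

def t2774 : allY (E.wth (lkp [])) l2774 = true ∧
    allY (E.wth (lkp [])) l2775 = true ∧
    allY (E.wth (lkp [])) l2776 = true ∧
    allY (E.wth (lkp [])) l2777 = true ∧
    allY (E.wth (lkp [])) l2778 = true ∧
    allY (E.wth (lkp [])) l2779 = true ∧
    allY (E.wth (lkp [])) l2780 = true ∧
    allY (E.wth (lkp [])) l2781 = true :=
  ⟨by decide +kernel, by decide +kernel, by decide +kernel, by decide +kernel, by decide +kernel, by decide +kernel, by decide +kernel, by decide +kernel⟩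

def t2782 : allY (E.wth (lkp [])) l2782 = true ∧
    allY (E.wth (lkp [])) l2783 = true ∧
    allY (E.wth (lkp [])) l2784 = true ∧
    allY (E.wth (lkp [])) l2785 = true ∧
    allY (E.wth (lkp [])) l2786 = true ∧
    allY (E.wth (lkp [])) l2787 = true ∧
    allY (E.wth (lkp [])) l2788 = true ∧
    allY (E.wth (lkp [])) l2789 = true :=
  ⟨by decide +kernel, by decide +kernel, by decide +kernel, by decide +kernel, by decide +kernel, by decide +kernel, by decide +kernel, by decide +kernel⟩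

def t2790 : allY (E.wth (lkp [])) l2790 = true ∧
    allY (E.wth (lkp [])) l2791 = true ∧
    allY (E.wth (lkp [])) l2792 = true ∧
    allY (E.wth (lkp [])) l2793 = true ∧
    allY (E.wth (lkp [])) l2794 = true ∧
    allY (E.wth (lkp [])) l2795 = true ∧
    allY (E.wth (lkp [])) l2796 = true ∧
    allY (E.wth (lkp [])) l2797 = true :=
  ⟨by decide +kernel, by decide +kernel, by decide +kernel, by decide +kernel, by decide +kernel, by decide +kernel, by decide +kernel, by decide +kernel⟩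

def t2798 : allY (E.wth (lkp [])) l2798 = true ∧
    allY (E.wth (lkp [])) l2799 = true ∧
    allY (E.wth (lkp [])) l2800 = true ∧
    allY (E.wth (lkp [])) l2801 = true ∧
    allY (E.wth (lkp [])) l2802 = true ∧
    allY (E.wth (lkp [])) l2803 = true ∧
    allY (E.wth (lkp [])) l2804 = true ∧
    allY (E.wth (lkp [])) l2805 = true :=
  ⟨by decide +kernel, by decide +kernel, by decide +kernel, by decide +kernel, by decide +kernel, by decide +kernel, by decide +kernel, by decide +kernel⟩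

def t2806 : allY (E.wth (lkp [])) l2806 = true ∧
    allY (E.wth (lkp [])) l2807 = true ∧
    allY (E.wth (lkp [])) l2808 = true ∧
    allY (E.wth (lkp [])) l2809 = true ∧
    allY (E.wth (lkp [])) l2810 = true ∧
    allY (E.wth (lkp [])) l2811 = true ∧
    allY (E.wth (lkp [])) l2812 = true ∧
    allY (E.wth (lkp [])) l2813 = true :=
  ⟨by decide +kernel, by decide +kernel, by decide +kernel, by decide +kernel, by decide +kernel, by decide +kernel, by decide +kernel, by decide +kernel⟩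

def t2814 : allY (E.wth (lkp [])) l2814 = true ∧
    allY (E.wth (lkp [])) l2815 = true ∧
    allY (E.wth (lkp [])) l2816 = true ∧
    allY (E.wth (lkp [])) l2817 = true ∧
    allY (E.wth (lkp [])) l2818 = true ∧
    allY (E.wth (lkp [])) l2819 = true ∧
    allY (E.wth (lkp [])) l2820 = true ∧
    allY (E.wth (lkp [])) l2821 = true :=
  ⟨by decide +kernel, by decide +kernel, by decide +kernel, by decide +kernel, by decide +kernel, by decide +kernel, by decide +kernel, by decide +kernel⟩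

def t2822 : allY (E.wth (lkp [])) l2822 = true ∧
    allY (E.wth (lkp [])) l2823 = true ∧
    allY (E.wth (lkp [])) l2824 = true ∧
    allY (E.wth (lkp [])) l2825 = true ∧
    allY (E.wth (lkp [])) l2826 = true ∧
    allY (E.wth (lkp [])) l2827 = true ∧
    allY (E.wth (lkp [])) l2828 = true ∧
    allY (E.wth (lkp [])) l2829 = true :=
  ⟨by decide +kernel, by decide +kernel, by decide +kernel, by decide +kernel, by decide +kernel, by decide +kernel, by decide +kernel, by decide +kernel⟩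

def t2830 : allY (E.wth (lkp [])) l2830 = true ∧
    allY (E.wth (lkp [])) l2831 = true ∧
    allY (E.wth (lkp [])) l2832 = true ∧
    allY (E.wth (lkp [])) l2833 = true ∧
    allY (E.wth (lkp [])) l2834 = true ∧
    allY (E.wth (lkp [])) l2835 = true ∧
    allY (E.wth (lkp [])) l2836 = true ∧
    allY (E.wth (lkp [])) l2837 = true :=
  ⟨by decide +kernel, by decide +kernel, by decide +kernel, by decide +kernel, by decide +kernel, by decide +kernel, by decide +kernel, by decide +kernel⟩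

def t2838 : allY (E.wth (lkp [])) l2838 = true ∧
    allY (E.wth (lkp [])) l2839 = true ∧
    allY (E.wth (lkp [])) l2840 = true ∧
    allY (E.wth (lkp [])) l2841 = true ∧
    allY (E.wth (lkp [])) l2842 = true ∧
    allY (E.wth (lkp [])) l2843 = true ∧
    allY (E.wth (lkp [])) l2844 = true ∧
    allY (E.wth (lkp [])) l2845 = true :=
  ⟨by decide +kernel, by decide +kernel, by decide +kernel, by decide +kernel, by decide +kernel, by decide +kernel, by decide +kernel, by decide +kernel⟩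

def t2846 : allY (E.wth (lkp [])) l2846 = true ∧
    allY (E.wth (lkp [])) l2847 = true ∧
    allY (E.wth (lkp [])) l2848 = true ∧
    allY (E.wth (lkp [])) l2849 = true ∧
    allY (E.wth (lkp [])) l2850 = true ∧
    allY (E.wth (lkp [])) l2851 = true ∧
    allY (E.wth (lkp [])) l2852 = true ∧
    allY (E.wth (lkp [])) l2853 = true :=
  ⟨by decide +kernel, by decide +kernel, by decide +kernel, by decide +kernel, by decide +kernel, by decide +kernel, by decide +kernel, by decide +kernel⟩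

def t2854 : allY (E.wth (lkp [])) l2854 = true ∧
    allY (E.wth (lkp [])) l2855 = true ∧
    allY (E.wth (lkp [])) l2856 = true ∧
    allY (E.wth (lkp [])) l2857 = true ∧
    allY (E.wth (lkp [])) l2858 = true ∧
    allY (E.wth (lkp [])) l2859 = true ∧
    allY (E.wth (lkp [])) l2860 = true ∧
    allY (E.wth (lkp [])) l2861 = true :=
  ⟨by decide +kernel, by decide +kernel, by decide +kernel, by decide +kernel, by decide +kernel, by decide +kernel, by decide +kernel, by decide +kernel⟩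

def t2862 : allY (E.wth (lkp [])) l2862 = true ∧
    allY (E.wth (lkp [])) l2863 = true ∧
    allY (E.wth (lkp [])) l2864 = true ∧
    allY (E.wth (lkp [])) l2865 = true ∧
    allY (E.wth (lkp [])) l2866 = true ∧
    allY (E.wth (lkp [])) l2867 = true ∧
    allY (E.wth (lkp [])) l2868 = true ∧
    allY (E.wth (lkp [])) l2869 = true :=
  ⟨by decide +kernel, by decide +kernel, by decide +kernel, by decide +kernel, by decide +kernel, by decide +kernel, by decide +kernel, by decide +kernel⟩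

def t2870 : allY (E.wth (lkp [])) l2870 = true ∧
    allY (E.wth (lkp [])) l2871 = true ∧
    allY (E.wth (lkp [])) l2872 = true ∧
    allY (E.wth (lkp [])) l2873 = true ∧
    allY (E.wth (lkp [])) l2874 = true ∧
    allY (E.wth (lkp [])) l2875 = true ∧
    allY (E.wth (lkp [])) l2876 = true ∧
    allY (E.wth (lkp [])) l2877 = true :=
  ⟨by decide +kernel, by decide +kernel, by decide +kernel, by decide +kernel, by decide +kernel, by decide +kernel, by decide +kernel, by decide +kernel⟩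

def t2878 : allY (E.wth (lkp [])) l2878 = true ∧
    allY (E.wth (lkp [])) l2879 = true ∧
    allY (E.wth (lkp [])) l2880 = true ∧
    allY (E.wth (lkp [])) l2881 = true ∧
    allY (E.wth (lkp [])) l2882 = true ∧
    allY (E.wth (lkp [])) l2883 = true ∧
    allY (E.wth (lkp [])) l2884 = true ∧
    allY (E.wth (lkp [])) l2885 = true :=
  ⟨by decide +kernel, by decide +kernel, by decide +kernel, by decide +kernel, by decide +kernel, by decide +kernel, by decide +kernel, by decide +kernel⟩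

def t2886 : allY (E.wth (lkp [])) l2886 = true ∧
    allY (E.wth (lkp [])) l2887 = true ∧
    allY (E.wth (lkp [])) l2888 = true ∧
    allY (E.wth (lkp [])) l2889 = true ∧
    allY (E.wth (lkp [])) l2890 = true ∧
    allY (E.wth (lkp [])) l2891 = true ∧
    allY (E.wth (lkp [])) l2892 = true ∧
    allY (E.wth (lkp [])) l2893 = true :=
  ⟨by decide +kernel, by decide +kernel, by decide +kernel, by decide +kernel, by decide +kernel, by decide +kernel, by decide +kernel, by decide +kernel⟩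

def t2894 : allY (E.wth (lkp [])) l2894 = true ∧
    allY (E.wth (lkp [])) l2895 = true ∧
    allY (E.wth (lkp [])) l2896 = true ∧
    allY (E.wth (lkp [])) l2897 = true ∧
    allY (E.wth (lkp [])) l2898 = true ∧
    allY (E.wth (lkp [])) l2899 = true ∧
    allY (E.wth (lkp [])) l2900 = true ∧
    allY (E.wth (lkp [])) l2901 = true :=
  ⟨by decide +kernel, by decide +kernel, by decide +kernel, by decide +kernel, by decide +kernel, by decide +kernel, by decide +kernel, by decide +kernel⟩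

def t2902 : allY (E.wth (lkp [])) l2902 = true ∧
    allY (E.wth (lkp [])) l2903 = true ∧
    allY (E.wth (lkp [])) l2904 = true ∧
    allY (E.wth (lkp [])) l2905 = true ∧
    allY (E.wth (lkp [])) l2906 = true ∧
    allY (E.wth (lkp [])) l2907 = true ∧
    allY (E.wth (lkp [])) l2908 = true ∧
    allY (E.wth (lkp [])) l2909 = true :=
  ⟨by decide +kernel, by decide +kernel, by decide +kernel, by decide +kernel, by decide +kernel, by decide +kernel, by decide +kernel, by decide +kernel⟩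

def t2910 : allY (E.wth (lkp [])) l2910 = true ∧
    allY (E.wth (lkp [])) l2911 = true ∧
    allY (E.wth (lkp [])) l2912 = true ∧
    allY (E.wth (lkp [])) l2913 = true ∧
    allY (E.wth (lkp [])) l2914 = true ∧
    allY (E.wth (lkp [])) l2915 = true ∧
    allY (E.wth (lkp [])) l2916 = true ∧
    allY (E.wth (lkp [])) l2917 = true :=
  ⟨by decide +kernel, by decide +kernel, by decide +kernel, by decide +kernel, by decide +kernel, by decide +kernel, by decide +kernel, by decide +kernel⟩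

def t2918 : allY (E.wth (lkp [])) l2918 = true ∧
    allY (E.wth (lkp [])) l2919 = true ∧
    allY (E.wth (lkp [])) l2920 = true ∧
    allY (E.wth (lkp [])) l2921 = true ∧
    allY (E.wth (lkp [])) l2922 = true ∧
    allY (E.wth (lkp [])) l2923 = true ∧
    allY (E.wth (lkp [])) l2924 = true ∧
    allY (E.wth (lkp [])) l2925 = true :=
  ⟨by decide +kernel, by decide +kernel, by decide +kernel, by decide +kernel, by decide +kernel, by decide +kernel, by decide +kernel, by decide +kernel⟩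

def t2926 : allY (E.wth (lkp [])) l2926 = true ∧
    allY (E.wth (lkp [])) l2927 = true ∧
    allY (E.wth (lkp [])) l2928 = true ∧
    allY (E.wth (lkp [])) l2929 = true ∧
    allY (E.wth (lkp [])) l2930 = true ∧
    allY (E.wth (lkp [])) l2931 = true ∧
    allY (E.wth (lkp [])) l2932 = true ∧
    allY (E.wth (lkp [])) l2933 = true :=
  ⟨by decide +kernel, by decide +kernel, by decide +kernel, by decide +kernel, by decide +kernel, by decide +kernel, by decide +kernel, by decide +kernel⟩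

def t2934 : allY (E.wth (lkp [])) l2934 = true ∧
    allY (E.wth (lkp [])) l2935 = true ∧
    allY (E.wth (lkp [])) l2936 = true ∧
    allY (E.wth (lkp [])) l2937 = true ∧
    allY (E.wth (lkp [])) l2938 = true ∧
    allY (E.wth (lkp [])) l2939 = true ∧
    allY (E.wth (lkp [])) l2940 = true ∧
    allY (E.wth (lkp [])) l2941 = true :=
  ⟨by decide +kernel, by decide +kernel, by decide +kernel, by decide +kernel, by decide +kernel, by decide +kernel, by decide +kernel, by decide +kernel⟩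

def t2942 : allY (E.wth (lkp [])) l2942 = true ∧
    allY (E.wth (lkp [])) l2943 = true ∧
    allY (E.wth (lkp [])) l2944 = true ∧
    allY (E.wth (lkp [])) l2945 = true ∧
    allY (E.wth (lkp [])) l2946 = true ∧
    allY (E.wth (lkp [])) l2947 = true ∧
    allY (E.wth (lkp [])) l2948 = true ∧
    allY (E.wth (lkp [])) l2949 = true :=
  ⟨by decide +kernel, by decide +kernel, by decide +kernel, by decide +kernel, by decide +kernel, by decide +kernel, by decide +kernel, by decide +kernel⟩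

def t2950 : allY (E.wth (lkp [])) l2950 = true ∧
    allY (E.wth (lkp [])) l2951 = true ∧
    allY (E.wth (lkp [])) l2952 = true ∧
    allY (E.wth (lkp [])) l2953 = true ∧
    allY (E.wth (lkp [])) l2954 = true ∧
    allY (E.wth (lkp [])) l2955 = true ∧
    allY (E.wth (lkp [])) l2956 = true ∧
    allY (E.wth (lkp [])) l2957 = true :=
  ⟨by decide +kernel, by decide +kernel, by decide +kernel, by decide +kernel, by decide +kernel, by decide +kernel, by decide +kernel, by decide +kernel⟩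

def t2958 : allY (E.wth (lkp [])) l2958 = true ∧
    allY (E.wth (lkp [])) l2959 = true ∧
    allY (E.wth (lkp [])) l2960 = true ∧
    allY (E.wth (lkp [])) l2961 = true ∧
    allY (E.wth (lkp [])) l2962 = true ∧
    allY (E.wth (lkp [])) l2963 = true ∧
    allY (E.wth (lkp [])) l2964 = true ∧
    allY (E.wth (lkp [])) l2965 = true :=
  ⟨by decide +kernel, by decide +kernel, by decide +kernel, by decide +kernel, by decide +kernel, by decide +kernel, by decide +kernel, by decide +kernel⟩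

def t2966 : allY (E.wth (lkp [])) l2966 = true ∧
    allY (E.wth (lkp [])) l2967 = true ∧
    allY (E.wth (lkp [])) l2968 = true ∧
    allY (E.wth (lkp [])) l2969 = true ∧
    allY (E.wth (lkp [])) l2970 = true ∧
    allY (E.wth (lkp [])) l2971 = true ∧
    allY (E.wth (lkp [])) l2972 = true ∧
    allY (E.wth (lkp [])) l2973 = true :=
  ⟨by decide +kernel, by decide +kernel, by decide +kernel, by decide +kernel, by decide +kernel, by decide +kernel, by decide +kernel, by decide +kernel⟩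

def t2974 : allY (E.wth (lkp [])) l2974 = true ∧
    allY (E.wth (lkp [])) l2975 = true ∧
    allY (E.wth (lkp [])) l2976 = true ∧
    allY (E.wth (lkp [])) l2977 = true ∧
    allY (E.wth (lkp [])) l2978 = true ∧
    allY (E.wth (lkp [])) l2979 = true ∧
    allY (E.wth (lkp [])) l2980 = true ∧
    allY (E.wth (lkp [])) l2981 = true :=
  ⟨by decide +kernel, by decide +kernel, by decide +kernel, by decide +kernel, by decide +kernel, by decide +kernel, by decide +kernel, by decide +kernel⟩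

def t2982 : allY (E.wth (lkp [])) l2982 = true ∧
    allY (E.wth (lkp [])) l2983 = true ∧
    allY (E.wth (lkp [])) l2984 = true ∧
    allY (E.wth (lkp [])) l2985 = true ∧
    allY (E.wth (lkp [])) l2986 = true ∧
    allY (E.wth (lkp [])) l2987 = true ∧
    allY (E.wth (lkp [])) l2988 = true ∧
    allY (E.wth (lkp [])) l2989 = true :=
  ⟨by decide +kernel, by decide +kernel, by decide +kernel, by decide +kernel, by decide +kernel, by decide +kernel, by decide +kernel, by decide +kernel⟩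

def t2990 : allY (E.wth (lkp [])) l2990 = true ∧
    allY (E.wth (lkp [])) l2991 = true ∧
    allY (E.wth (lkp [])) l2992 = true ∧
    allY (E.wth (lkp [])) l2993 = true ∧
    allY (E.wth (lkp [])) l2994 = true ∧
    allY (E.wth (lkp [])) l2995 = true ∧
    allY (E.wth (lkp [])) l2996 = true ∧
    allY (E.wth (lkp [])) l2997 = true :=
  ⟨by decide +kernel, by decide +kernel, by decide +kernel, by decide +kernel, by decide +kernel, by decide +kernel, by decide +kernel, by decide +kernel⟩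

def t2998 : allY (E.wth (lkp [])) l2998 = true ∧
    allY (E.wth (lkp [])) l2999 = true ∧
    allY (E.wth (lkp [])) l3000 = true ∧
    allY (E.wth (lkp [])) l3001 = true ∧
    allY (E.wth (lkp [])) l3002 = true ∧
    allY (E.wth (lkp [])) l3003 = true ∧
    allY (E.wth (lkp [])) l3004 = true ∧
    allY (E.wth (lkp [])) l3005 = true :=
  ⟨by decide +kernel, by decide +kernel, by decide +kernel, by decide +kernel, by decide +kernel, by decide +kernel, by decide +kernel, by decide +kernel⟩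

def t3006 : allY (E.wth (lkp [])) l3006 = true ∧
    allY (E.wth (lkp [])) l3007 = true ∧
    allY (E.wth (lkp [])) l3008 = true ∧
    allY (E.wth (lkp [])) l3009 = true ∧
    allY (E.wth (lkp [])) l3010 = true ∧
    allY (E.wth (lkp [])) l3011 = true ∧
    allY (E.wth (lkp [])) l3012 = true ∧
    allY (E.wth (lkp [])) l3013 = true :=
  ⟨by decide +kernel, by decide +kernel, by decide +kernel, by decide +kernel, by decide +kernel, by decide +kernel, by decide +kernel, by decide +kernel⟩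

def t3014 : allY (E.wth (lkp [])) l3014 = true ∧
    allY (E.wth (lkp [])) l3015 = true ∧
    allY (E.wth (lkp [])) l3016 = true ∧
    allY (E.wth (lkp [])) l3017 = true ∧
    allY (E.wth (lkp [])) l3018 = true ∧
    allY (E.wth (lkp [])) l3019 = true ∧
    allY (E.wth (lkp [])) l3020 = true ∧
    allY (E.wth (lkp [])) l3021 = true :=
  ⟨by decide +kernel, by decide +kernel, by decide +kernel, by decide +kernel, by decide +kernel, by decide +kernel, by decide +kernel, by decide +kernel⟩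

def t3022 : allY (E.wth (lkp [])) l3022 = true ∧
    allY (E.wth (lkp [])) l3023 = true ∧
    allY (E.wth (lkp [])) l3024 = true ∧
    allY (E.wth (lkp [])) l3025 = true ∧
    allY (E.wth (lkp [])) l3026 = true ∧
    allY (E.wth (lkp [])) l3027 = true ∧
    allY (E.wth (lkp [])) l3028 = true ∧
    allY (E.wth (lkp [])) l3029 = true :=
  ⟨by decide +kernel, by decide +kernel, by decide +kernel, by decide +kernel, by decide +kernel, by decide +kernel, by decide +kernel, by decide +kernel⟩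

def t3030 : allY (E.wth (lkp [])) l3030 = true ∧
    allY (E.wth (lkp [])) l3031 = true ∧
    allY (E.wth (lkp [])) l3032 = true ∧
    allY (E.wth (lkp [])) l3033 = true ∧
    allY (E.wth (lkp [])) l3034 = true ∧
    allY (E.wth (lkp [])) l3035 = true ∧
    allY (E.wth (lkp [])) l3036 = true ∧
    allY (E.wth (lkp [])) l3037 = true :=
  ⟨by decide +kernel, by decide +kernel, by decide +kernel, by decide +kernel, by decide +kernel, by decide +kernel, by decide +kernel, by decide +kernel⟩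

def t3038 : allY (E.wth (lkp [])) l3038 = true ∧
    allY (E.wth (lkp [])) l3039 = true ∧
    allY (E.wth (lkp [])) l3040 = true ∧
    allY (E.wth (lkp [])) l3041 = true ∧
    allY (E.wth (lkp [])) l3042 = true ∧
    allY (E.wth (lkp [])) l3043 = true ∧
    allY (E.wth (lkp [])) l3044 = true ∧
    allY (E.wth (lkp [])) l3045 = true :=
  ⟨by decide +kernel, by decide +kernel, by decide +kernel, by decide +kernel, by decide +kernel, by decide +kernel, by decide +kernel, by decide +kernel⟩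

def t3046 : allY (E.wth (lkp [])) l3046 = true ∧
    allY (E.wth (lkp [])) l3047 = true ∧
    allY (E.wth (lkp [])) l3048 = true ∧
    allY (E.wth (lkp [])) l3049 = true ∧
    allY (E.wth (lkp [])) l3050 = true ∧
    allY (E.wth (lkp [])) l3051 = true ∧
    allY (E.wth (lkp [])) l3052 = true ∧
    allY (E.wth (lkp [])) l3053 = true :=
  ⟨by decide +kernel, by decide +kernel, by decide +kernel, by decide +kernel, by decide +kernel, by decide +kernel, by decide +kernel, by decide +kernel⟩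

def t3054 : allY (E.wth (lkp [])) l3054 = true ∧
    allY (E.wth (lkp [])) l3055 = true ∧
    allY (E.wth (lkp [])) l3056 = true ∧
    allY (E.wth (lkp [])) l3057 = true ∧
    allY (E.wth (lkp [])) l3058 = true ∧
    allY (E.wth (lkp [])) l3059 = true ∧
    allY (E.wth (lkp [])) l3060 = true ∧
    allY (E.wth (lkp [])) l3061 = true :=
  ⟨by decide +kernel, by decide +kernel, by decide +kernel, by decide +kernel, by decide +kernel, by decide +kernel, by decide +kernel, by decide +kernel⟩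

def t3062 : allY (E.wth (lkp [])) l3062 = true ∧
    allY (E.wth (lkp [])) l3063 = true ∧
    allY (E.wth (lkp [])) l3064 = true ∧
    allY (E.wth (lkp [])) l3065 = true ∧
    allY (E.wth (lkp [])) l3066 = true ∧
    allY (E.wth (lkp [])) l3067 = true ∧
    allY (E.wth (lkp [])) l3068 = true ∧
    allY (E.wth (lkp [])) l3069 = true :=
  ⟨by decide +kernel, by decide +kernel, by decide +kernel, by decide +kernel, by decide +kernel, by decide +kernel, by decide +kernel, by decide +kernel⟩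

def t3070 : allY (E.wth (lkp [])) l3070 = true ∧
    allY (E.wth (lkp [])) l3071 = true ∧
    allY (E.wth (lkp [])) l3072 = true ∧
    allY (E.wth (lkp [])) l3073 = true ∧
    allY (E.wth (lkp [])) l3074 = true ∧
    allY (E.wth (lkp [])) l3075 = true ∧
    allY (E.wth (lkp [])) l3076 = true ∧
    allY (E.wth (lkp [])) l3077 = true :=
  ⟨by decide +kernel, by decide +kernel, by decide +kernel, by decide +kernel, by decide +kernel, by decide +kernel, by decide +kernel, by decide +kernel⟩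

def t3078 : allY (E.wth (lkp [])) l3078 = true ∧
    allY (E.wth (lkp [])) l3079 = true ∧
    allY (E.wth (lkp [])) l3080 = true ∧
    allY (E.wth (lkp [])) l3081 = true ∧
    allY (E.wth (lkp [])) l3082 = true ∧
    allY (E.wth (lkp [])) l3083 = true ∧
    allY (E.wth (lkp [])) l3084 = true ∧
    allY (E.wth (lkp [])) l3085 = true :=
  ⟨by decide +kernel, by decide +kernel, by decide +kernel, by decide +kernel, by decide +kernel, by decide +kernel, by decide +kernel, by decide +kernel⟩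

def t3086 : allY (E.wth (lkp [])) l3086 = true ∧
    allY (E.wth (lkp [])) l3087 = true ∧
    allY (E.wth (lkp [])) l3088 = true ∧
    allY (E.wth (lkp [])) l3089 = true ∧
    allY (E.wth (lkp [])) l3090 = true ∧
    allY (E.wth (lkp [])) l3091 = true ∧
    allY (E.wth (lkp [])) l3092 = true ∧
    allY (E.wth (lkp [])) l3093 = true :=
  ⟨by decide +kernel, by decide +kernel, by decide +kernel, by decide +kernel, by decide +kernel, by decide +kernel, by decide +kernel, by decide +kernel⟩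

def t3094 : allY (E.wth (lkp [])) l3094 = true ∧
    allY (E.wth (lkp [])) l3095 = true ∧
    allY (E.wth (lkp [])) l3096 = true ∧
    allY (E.wth (lkp [])) l3097 = true ∧
    allY (E.wth (lkp [])) l3098 = true ∧
    allY (E.wth (lkp [])) l3099 = true ∧
    allY (E.wth (lkp [])) l3100 = true ∧
    allY (E.wth (lkp [])) l3101 = true :=
  ⟨by decide +kernel, by decide +kernel, by decide +kernel, by decide +kernel, by decide +kernel, by decide +kernel, by decide +kernel, by decide +kernel⟩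

def t3102 : allY (E.wth (lkp [])) l3102 = true ∧
    allY (E.wth (lkp [])) l3103 = true ∧
    allY (E.wth (lkp [])) l3104 = true ∧
    allY (E.wth (lkp [])) l3105 = true ∧
    allY (E.wth (lkp [])) l3106 = true ∧
    allY (E.wth (lkp [])) l3107 = true ∧
    allY (E.wth (lkp [])) l3108 = true ∧
    allY (E.wth (lkp [])) l3109 = true :=
  ⟨by decide +kernel, by decide +kernel, by decide +kernel, by decide +kernel, by decide +kernel, by decide +kernel, by decide +kernel, by decide +kernel⟩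

def t3110 : allY (E.wth (lkp [])) l3110 = true ∧
    allY (E.wth (lkp [])) l3111 = true ∧
    allY (E.wth (lkp [])) l3112 = true ∧
    allY (E.wth (lkp [])) l3113 = true ∧
    allY (E.wth (lkp [])) l3114 = true ∧
    allY (E.wth (lkp [])) l3115 = true ∧
    allY (E.wth (lkp [])) l3116 = true ∧
    allY (E.wth (lkp [])) l3117 = true :=
  ⟨by decide +kernel, by decide +kernel, by decide +kernel, by decide +kernel, by decide +kernel, by decide +kernel, by decide +kernel, by decide +kernel⟩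

def t3118 : allY (E.wth (lkp [])) l3118 = true ∧
    allY (E.wth (lkp [])) l3119 = true ∧
    allY (E.wth (lkp [])) l3120 = true ∧
    allY (E.wth (lkp [])) l3121 = true ∧
    allY (E.wth (lkp [])) l3122 = true ∧
    allY (E.wth (lkp [])) l3123 = true ∧
    allY (E.wth (lkp [])) l3124 = true ∧
    allY (E.wth (lkp [])) l3125 = true :=
  ⟨by decide +kernel, by decide +kernel, by decide +kernel, by decide +kernel, by decide +kernel, by decide +kernel, by decide +kernel, by decide +kernel⟩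

def t3126 : allY (E.wth (lkp [])) l3126 = true ∧
    allY (E.wth (lkp [])) l3127 = true ∧
    allY (E.wth (lkp [])) l3128 = true ∧
    allY (E.wth (lkp [])) l3129 = true ∧
    allY (E.wth (lkp [])) l3130 = true ∧
    allY (E.wth (lkp [])) l3131 = true ∧
    allY (E.wth (lkp [])) l3132 = true ∧
    allY (E.wth (lkp [])) l3133 = true :=
  ⟨by decide +kernel, by decide +kernel, by decide +kernel, by decide +kernel, by decide +kernel, by decide +kernel, by decide +kernel, by decide +kernel⟩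

def t3134 : allY (E.wth (lkp [])) l3134 = true ∧
    allY (E.wth (lkp [])) l3135 = true ∧
    allY (E.wth (lkp [])) l3136 = true ∧
    allY (E.wth (lkp [])) l3137 = true ∧
    allY (E.wth (lkp [])) l3138 = true ∧
    allY (E.wth (lkp [])) l3139 = true ∧
    allY (E.wth (lkp [])) l3140 = true ∧
    allY (E.wth (lkp [])) l3141 = true :=
  ⟨by decide +kernel, by decide +kernel, by decide +kernel, by decide +kernel, by decide +kernel, by decide +kernel, by decide +kernel, by decide +kernel⟩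

def t3142 : allY (E.wth (lkp [])) l3142 = true ∧
    allY (E.wth (lkp [])) l3143 = true ∧
    allY (E.wth (lkp [])) l3144 = true ∧
    allY (E.wth (lkp [])) l3145 = true ∧
    allY (E.wth (lkp [])) l3146 = true ∧
    allY (E.wth (lkp [])) l3147 = true ∧
    allY (E.wth (lkp [])) l3148 = true ∧
    allY (E.wth (lkp [])) l3149 = true :=
  ⟨by decide +kernel, by decide +kernel, by decide +kernel, by decide +kernel, by decide +kernel, by decide +kernel, by decide +kernel, by decide +kernel⟩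

def t3150 : allY (E.wth (lkp [])) l3150 = true ∧
    allY (E.wth (lkp [])) l3151 = true ∧
    allY (E.wth (lkp [])) l3152 = true ∧
    allY (E.wth (lkp [])) l3153 = true ∧
    allY (E.wth (lkp [])) l3154 = true ∧
    allY (E.wth (lkp [])) l3155 = true ∧
    allY (E.wth (lkp [])) l3156 = true ∧
    allY (E.wth (lkp [])) l3157 = true :=
  ⟨by decide +kernel, by decide +kernel, by decide +kernel, by decide +kernel, by decide +kernel, by decide +kernel, by decide +kernel, by decide +kernel⟩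

def t3158 : allY (E.wth (lkp [])) l3158 = true ∧
    allY (E.wth (lkp [])) l3159 = true ∧
    allY (E.wth (lkp [])) l3160 = true ∧
    allY (E.wth (lkp [])) l3161 = true ∧
    allY (E.wth (lkp [])) l3162 = true ∧
    allY (E.wth (lkp [])) l3163 = true ∧
    allY (E.wth (lkp [])) l3164 = true ∧
    allY (E.wth (lkp [])) l3165 = true :=
  ⟨by decide +kernel, by decide +kernel, by decide +kernel, by decide +kernel, by decide +kernel, by decide +kernel, by decide +kernel, by decide +kernel⟩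

def t3166 : allY (E.wth (lkp [])) l3166 = true ∧
    allY (E.wth (lkp [])) l3167 = true ∧
    allY (E.wth (lkp [])) l3168 = true ∧
    allY (E.wth (lkp [])) l3169 = true ∧
    allY (E.wth (lkp [])) l3170 = true ∧
    allY (E.wth (lkp [])) l3171 = true ∧
    allY (E.wth (lkp [])) l3172 = true ∧
    allY (E.wth (lkp [])) l3173 = true :=
  ⟨by decide +kernel, by decide +kernel, by decide +kernel, by decide +kernel, by decide +kernel, by decide +kernel, by decide +kernel, by decide +kernel⟩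

def t3174 : allY (E.wth (lkp [])) l3174 = true ∧
    allY (E.wth (lkp [])) l3175 = true ∧
    allY (E.wth (lkp [])) l3176 = true ∧
    allY (E.wth (lkp [])) l3177 = true ∧
    allY (E.wth (lkp [])) l3178 = true ∧
    allY (E.wth (lkp [])) l3179 = true ∧
    allY (E.wth (lkp [])) l3180 = true ∧
    allY (E.wth (lkp [])) l3181 = true :=
  ⟨by decide +kernel, by decide +kernel, by decide +kernel, by decide +kernel, by decide +kernel, by decide +kernel, by decide +kernel, by decide +kernel⟩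

def t3182 : allY (E.wth (lkp [])) l3182 = true ∧
    allY (E.wth (lkp [])) l3183 = true ∧
    allY (E.wth (lkp [])) l3184 = true ∧
    allY (E.wth (lkp [])) l3185 = true ∧
    allY (E.wth (lkp [])) l3186 = true ∧
    allY (E.wth (lkp [])) l3187 = true ∧
    allY (E.wth (lkp [])) l3188 = true ∧
    allY (E.wth (lkp [])) l3189 = true :=
  ⟨by decide +kernel, by decide +kernel, by decide +kernel, by decide +kernel, by decide +kernel, by decide +kernel, by decide +kernel, by decide +kernel⟩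

def t3190 : allY (E.wth (lkp [])) l3190 = true ∧
    allY (E.wth (lkp [])) l3191 = true ∧
    allY (E.wth (lkp [])) l3192 = true ∧
    allY (E.wth (lkp [])) l3193 = true ∧
    allY (E.wth (lkp [])) l3194 = true ∧
    allY (E.wth (lkp [])) l3195 = true ∧
    allY (E.wth (lkp [])) l3196 = true ∧
    allY (E.wth (lkp [])) l3197 = true :=
  ⟨by decide +kernel, by decide +kernel, by decide +kernel, by decide +kernel, by decide +kernel, by decide +kernel, by decide +kernel, by decide +kernel⟩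

def t3198 : allY (E.wth (lkp [])) l3198 = true ∧
    allY (E.wth (lkp [])) l3199 = true ∧
    allY (E.wth (lkp [])) l3200 = true ∧
    allY (E.wth (lkp [])) l3201 = true ∧
    allY (E.wth (lkp [])) l3202 = true ∧
    allY (E.wth (lkp [])) l3203 = true ∧
    allY (E.wth (lkp [])) l3204 = true ∧
    allY (E.wth (lkp [])) l3205 = true :=
  ⟨by decide +kernel, by decide +kernel, by decide +kernel, by decide +kernel, by decide +kernel, by decide +kernel, by decide +kernel, by decide +kernel⟩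

def t3206 : allY (E.wth (lkp [])) l3206 = true ∧
    allY (E.wth (lkp [])) l3207 = true ∧
    allY (E.wth (lkp [])) l3208 = true ∧
    allY (E.wth (lkp [])) l3209 = true ∧
    allY (E.wth (lkp [])) l3210 = true ∧
    allY (E.wth (lkp [])) l3211 = true ∧
    allY (E.wth (lkp [])) l3212 = true ∧
    allY (E.wth (lkp [])) l3213 = true :=
  ⟨by decide +kernel, by decide +kernel, by decide +kernel, by decide +kernel, by decide +kernel, by decide +kernel, by decide +kernel, by decide +kernel⟩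

def t3214 : allY (E.wth (lkp [])) l3214 = true ∧
    allY (E.wth (lkp [])) l3215 = true ∧
    allY (E.wth (lkp [])) l3216 = true ∧
    allY (E.wth (lkp [])) l3217 = true ∧
    allY (E.wth (lkp [])) l3218 = true ∧
    allY (E.wth (lkp [])) l3219 = true ∧
    allY (E.wth (lkp [])) l3220 = true ∧
    allY (E.wth (lkp [])) l3221 = true :=
  ⟨by decide +kernel, by decide +kernel, by decide +kernel, by decide +kernel, by decide +kernel, by decide +kernel, by decide +kernel, by decide +kernel⟩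

def t3222 : allY (E.wth (lkp [])) l3222 = true ∧
    allY (E.wth (lkp [])) l3223 = true ∧
    allY (E.wth (lkp [])) l3224 = true ∧
    allY (E.wth (lkp [])) l3225 = true ∧
    allY (E.wth (lkp [])) l3226 = true ∧
    allY (E.wth (lkp [])) l3227 = true ∧
    allY (E.wth (lkp [])) l3228 = true ∧
    allY (E.wth (lkp [])) l3229 = true :=
  ⟨by decide +kernel, by decide +kernel, by decide +kernel, by decide +kernel, by decide +kernel, by decide +kernel, by decide +kernel, by decide +kernel⟩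

def t3230 : allY (E.wth (lkp [])) l3230 = true ∧
    allY (E.wth (lkp [])) l3231 = true ∧
    allY (E.wth (lkp [])) l3232 = true ∧
    allY (E.wth (lkp [])) l3233 = true ∧
    allY (E.wth (lkp [])) l3234 = true ∧
    allY (E.wth (lkp [])) l3235 = true ∧
    allY (E.wth (lkp [])) l3236 = true ∧
    allY (E.wth (lkp [])) l3237 = true :=
  ⟨by decide +kernel, by decide +kernel, by decide +kernel, by decide +kernel, by decide +kernel, by decide +kernel, by decide +kernel, by decide +kernel⟩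

def t3238 : allY (E.wth (lkp [])) l3238 = true ∧
    allY (E.wth (lkp [])) l3239 = true ∧
    allY (E.wth (lkp [])) l3240 = true ∧
    allY (E.wth (lkp [])) l3241 = true ∧
    allY (E.wth (lkp [])) l3242 = true ∧
    allY (E.wth (lkp [])) l3243 = true ∧
    allY (E.wth (lkp [])) l3244 = true ∧
    allY (E.wth (lkp [])) l3245 = true :=
  ⟨by decide +kernel, by decide +kernel, by decide +kernel, by decide +kernel, by decide +kernel, by decide +kernel, by decide +kernel, by decide +kernel⟩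

def t3246 : allY (E.wth (lkp [])) l3246 = true ∧
    allY (E.wth (lkp [])) l3247 = true ∧
    allY (E.wth (lkp [])) l3248 = true ∧
    allY (E.wth (lkp [])) l3249 = true ∧
    allY (E.wth (lkp [])) l3250 = true ∧
    allY (E.wth (lkp [])) l3251 = true ∧
    allY (E.wth (lkp [])) l3252 = true ∧
    allY (E.wth (lkp [])) l3253 = true :=
  ⟨by decide +kernel, by decide +kernel, by decide +kernel, by decide +kernel, by decide +kernel, by decide +kernel, by decide +kernel, by decide +kernel⟩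

def t3254 : allY (E.wth (lkp [])) l3254 = true ∧
    allY (E.wth (lkp [])) l3255 = true ∧
    allY (E.wth (lkp [])) l3256 = true ∧
    allY (E.wth (lkp [])) l3257 = true ∧
    allY (E.wth (lkp [])) l3258 = true ∧
    allY (E.wth (lkp [])) l3259 = true ∧
    allY (E.wth (lkp [])) l3260 = true ∧
    allY (E.wth (lkp [])) l3261 = true :=
  ⟨by decide +kernel, by decide +kernel, by decide +kernel, by decide +kernel, by decide +kernel, by decide +kernel, by decide +kernel, by decide +kernel⟩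

def t3262 : allY (E.wth (lkp [])) l3262 = true ∧
    allY (E.wth (lkp [])) l3263 = true ∧
    allY (E.wth (lkp [])) l3264 = true ∧
    allY (E.wth (lkp [])) l3265 = true ∧
    allY (E.wth (lkp [])) l3266 = true ∧
    allY (E.wth (lkp [])) l3267 = true ∧
    allY (E.wth (lkp [])) l3268 = true ∧
    allY (E.wth (lkp [])) l3269 = true :=
  ⟨by decide +kernel, by decide +kernel, by decide +kernel, by decide +kernel, by decide +kernel, by decide +kernel, by decide +kernel, by decide +kernel⟩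

def t3270 : allY (E.wth (lkp [])) l3270 = true ∧
    allY (E.wth (lkp [])) l3271 = true ∧
    allY (E.wth (lkp [])) l3272 = true ∧
    allY (E.wth (lkp [])) l3273 = true ∧
    allY (E.wth (lkp [])) l3274 = true ∧
    allY (E.wth (lkp [])) l3275 = true ∧
    allY (E.wth (lkp [])) l3276 = true ∧
    allY (E.wth (lkp [])) l3277 = true :=
  ⟨by decide +kernel, by decide +kernel, by decide +kernel, by decide +kernel, by decide +kernel, by decide +kernel, by decide +kernel, by decide +kernel⟩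

def t3278 : allY (E.wth (lkp [])) l3278 = true ∧
    allY (E.wth (lkp [])) l3279 = true ∧
    allY (E.wth (lkp [])) l3280 = true ∧
    allY (E.wth (lkp [])) l3281 = true ∧
    allY (E.wth (lkp [])) l3282 = true ∧
    allY (E.wth (lkp [])) l3283 = true ∧
    allY (E.wth (lkp [])) l3284 = true ∧
    allY (E.wth (lkp [])) l3285 = true :=
  ⟨by decide +kernel, by decide +kernel, by decide +kernel, by decide +kernel, by decide +kernel, by decide +kernel, by decide +kernel, by decide +kernel⟩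

def t3286 : allY (E.wth (lkp [])) l3286 = true ∧
    allY (E.wth (lkp [])) l3287 = true ∧
    allY (E.wth (lkp [])) l3288 = true ∧
    allY (E.wth (lkp [])) l3289 = true ∧
    allY (E.wth (lkp [])) l3290 = true ∧
    allY (E.wth (lkp [])) l3291 = true :=
  ⟨by decide +kernel, by decide +kernel, by decide +kernel, by decide +kernel, by decide +kernel, by decide +kernel⟩

theorem a5 {p : Rf → Prop} (H : ∀ l, allY (E.wth (lkp [])) l = true → (lkp l).All p) :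
    b5.All p := ⟨⟨⟨⟨⟨⟨⟨⟨⟨H _ t2734.1, H _ t2734.2.1⟩, ⟨H _ t2734.2.2.1, H _ t2734.2.2.2.1⟩⟩, ⟨⟨H _ t2734.2.2.2.2.1, H _ t2734.2.2.2.2.2.1⟩, ⟨H _ t2734.2.2.2.2.2.2.1, H _ t2734.2.2.2.2.2.2.2⟩⟩⟩, ⟨⟨⟨H _ t2742.1, H _ t2742.2.1⟩, ⟨H _ t2742.2.2.1, H _ t2742.2.2.2.1⟩⟩, ⟨⟨H _ t2742.2.2.2.2.1, H _ t2742.2.2.2.2.2.1⟩, ⟨H _ t2742.2.2.2.2.2.2.1, ⟨H _ t2742.2.2.2.2.2.2.2, H _ t2750.1⟩⟩⟩⟩⟩, ⟨⟨⟨⟨H _ t2750.2.1, H _ t2750.2.2.1⟩, ⟨H _ t2750.2.2.2.1, H _ t2750.2.2.2.2.1⟩⟩, ⟨⟨H _ t2750.2.2.2.2.2.1, H _ t2750.2.2.2.2.2.2.1⟩, ⟨H _ t2750.2.2.2.2.2.2.2, H _ t2758.1⟩⟩⟩, ⟨⟨⟨H _ t2758.2.1, H _ t2758.2.2.1⟩, ⟨H _ t2758.2.2.2.1, H _ t2758.2.2.2.2.1⟩⟩, ⟨⟨H _ t2758.2.2.2.2.2.1, H _ t2758.2.2.2.2.2.2.1⟩, ⟨H _ t2758.2.2.2.2.2.2.2, ⟨H _ t2766.1, H _ t2766.2.1⟩⟩⟩⟩⟩⟩, ⟨⟨⟨⟨⟨H _ t2766.2.2.1, H _ t2766.2.2.2.1⟩, ⟨H _ t2766.2.2.2.2.1, H _ t2766.2.2.2.2.2.1⟩⟩, ⟨⟨H _ t2766.2.2.2.2.2.2.1, H _ t2766.2.2.2.2.2.2.2⟩,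 ⟨H _ t2774.1, H _ t2774.2.1⟩⟩⟩, ⟨⟨⟨H _ t2774.2.2.1, H _ t2774.2.2.2.1⟩, ⟨H _ t2774.2.2.2.2.1, H _ t2774.2.2.2.2.2.1⟩⟩, ⟨⟨H _ t2774.2.2.2.2.2.2.1, H _ t2774.2.2.2.2.2.2.2⟩, ⟨H _ t2782.1, ⟨H _ t2782.2.1, H _ t2782.2.2.1⟩⟩⟩⟩⟩, ⟨⟨⟨⟨H _ t2782.2.2.2.1, H _ t2782.2.2.2.2.1⟩, ⟨H _ t2782.2.2.2.2.2.1, H _ t2782.2.2.2.2.2.2.1⟩⟩, ⟨⟨H _ t2782.2.2.2.2.2.2.2, H _ t2790.1⟩, ⟨H _ t2790.2.1, ⟨H _ t2790.2.2.1, H _ t2790.2.2.2.1⟩⟩⟩⟩, ⟨⟨⟨H _ t2790.2.2.2.2.1, H _ t2790.2.2.2.2.2.1⟩, ⟨H _ t2790.2.2.2.2.2.2.1, H _ t2790.2.2.2.2.2.2.2⟩⟩, ⟨⟨H _ t2798.1, H _ t2798.2.1⟩, ⟨H _ t2798.2.2.1, ⟨H _ t2798.2.2.2.1, H _ t2798.2.2.2.2.1⟩⟩⟩⟩⟩⟩⟩, ⟨⟨⟨⟨⟨⟨H _ t2798.2.2.2.2.2.1, H _ t2798.2.2.2.2.2.2.1⟩, ⟨H _ t2798.2.2.2.2.2.2.2, H _ t2806.1⟩⟩, ⟨⟨H _ t2806.2.1, H _ t2806.2.2.1⟩, ⟨H _ t2806.2.2.2.1, H _ t2806.2.2.2.2.1⟩⟩⟩, ⟨⟨⟨H _ t2806.2.2.2.2.2.1, H _ t2806.2.2.2.2.2.2.1⟩, ⟨H _ t2806.2.2.2.2.2.2.2, H _ t2814.1⟩⟩,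 ⟨⟨H _ t2814.2.1, H _ t2814.2.2.1⟩, ⟨H _ t2814.2.2.2.1, ⟨H _ t2814.2.2.2.2.1, H _ t2814.2.2.2.2.2.1⟩⟩⟩⟩⟩, ⟨⟨⟨⟨H _ t2814.2.2.2.2.2.2.1, H _ t2814.2.2.2.2.2.2.2⟩, ⟨H _ t2822.1, H _ t2822.2.1⟩⟩, ⟨⟨H _ t2822.2.2.1, H _ t2822.2.2.2.1⟩, ⟨H _ t2822.2.2.2.2.1, ⟨H _ t2822.2.2.2.2.2.1, H _ t2822.2.2.2.2.2.2.1⟩⟩⟩⟩, ⟨⟨⟨H _ t2822.2.2.2.2.2.2.2, H _ t2830.1⟩, ⟨H _ t2830.2.1, H _ t2830.2.2.1⟩⟩, ⟨⟨H _ t2830.2.2.2.1, H _ t2830.2.2.2.2.1⟩, ⟨H _ t2830.2.2.2.2.2.1, ⟨H _ t2830.2.2.2.2.2.2.1, H _ t2830.2.2.2.2.2.2.2⟩⟩⟩⟩⟩⟩, ⟨⟨⟨⟨⟨H _ t2838.1, H _ t2838.2.1⟩, ⟨H _ t2838.2.2.1, H _ t2838.2.2.2.1⟩⟩, ⟨⟨H _ t2838.2.2.2.2.1, H _ t2838.2.2.2.2.2.1⟩, ⟨H _ t2838.2.2.2.2.2.2.1, H _ t2838.2.2.2.2.2.2.2⟩⟩⟩, ⟨⟨⟨H _ t2846.1, H _ t2846.2.1⟩, ⟨H _ t2846.2.2.1, H _ t2846.2.2.2.1⟩⟩, ⟨⟨H _ t2846.2.2.2.2.1, H _ t2846.2.2.2.2.2.1⟩, ⟨H _ t2846.2.2.2.2.2.2.1, ⟨H _ t2846.2.2.2.2.2.2.2, H _ t2854.1⟩⟩⟩⟩⟩, ⟨⟨⟨⟨H _ t2854.2.1,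 H _ t2854.2.2.1⟩, ⟨H _ t2854.2.2.2.1, H _ t2854.2.2.2.2.1⟩⟩, ⟨⟨H _ t2854.2.2.2.2.2.1, H _ t2854.2.2.2.2.2.2.1⟩, ⟨H _ t2854.2.2.2.2.2.2.2, ⟨H _ t2862.1, H _ t2862.2.1⟩⟩⟩⟩, ⟨⟨⟨H _ t2862.2.2.1, H _ t2862.2.2.2.1⟩, ⟨H _ t2862.2.2.2.2.1, H _ t2862.2.2.2.2.2.1⟩⟩, ⟨⟨H _ t2862.2.2.2.2.2.2.1, H _ t2862.2.2.2.2.2.2.2⟩, ⟨H _ t2870.1, ⟨H _ t2870.2.1, H _ t2870.2.2.1⟩⟩⟩⟩⟩⟩⟩⟩, ⟨⟨⟨⟨⟨⟨⟨H _ t2870.2.2.2.1, H _ t2870.2.2.2.2.1⟩, ⟨H _ t2870.2.2.2.2.2.1, H _ t2870.2.2.2.2.2.2.1⟩⟩, ⟨⟨H _ t2870.2.2.2.2.2.2.2, H _ t2878.1⟩, ⟨H _ t2878.2.1, H _ t2878.2.2.1⟩⟩⟩, ⟨⟨⟨H _ t2878.2.2.2.1, H _ t2878.2.2.2.2.1⟩, ⟨H _ t2878.2.2.2.2.2.1, H _ t2878.2.2.2.2.2.2.1⟩⟩, ⟨⟨H _ t2878.2.2.2.2.2.2.2, H _ t2886.1⟩, ⟨H _ t2886.2.1, ⟨H _ t2886.2.2.1, H _ t2886.2.2.2.1⟩⟩⟩⟩⟩, ⟨⟨⟨⟨H _ t2886.2.2.2.2.1, H _ t2886.2.2.2.2.2.1⟩, ⟨H _ t2886.2.2.2.2.2.2.1, H _ t2886.2.2.2.2.2.2.2⟩⟩, ⟨⟨H _ t2894.1, H _ t2894.2.1⟩, ⟨H _ t2894.2.2.1,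 ⟨H _ t2894.2.2.2.1, H _ t2894.2.2.2.2.1⟩⟩⟩⟩, ⟨⟨⟨H _ t2894.2.2.2.2.2.1, H _ t2894.2.2.2.2.2.2.1⟩, ⟨H _ t2894.2.2.2.2.2.2.2, H _ t2902.1⟩⟩, ⟨⟨H _ t2902.2.1, H _ t2902.2.2.1⟩, ⟨H _ t2902.2.2.2.1, ⟨H _ t2902.2.2.2.2.1, H _ t2902.2.2.2.2.2.1⟩⟩⟩⟩⟩⟩, ⟨⟨⟨⟨⟨H _ t2902.2.2.2.2.2.2.1, H _ t2902.2.2.2.2.2.2.2⟩, ⟨H _ t2910.1, H _ t2910.2.1⟩⟩, ⟨⟨H _ t2910.2.2.1, H _ t2910.2.2.2.1⟩, ⟨H _ t2910.2.2.2.2.1, H _ t2910.2.2.2.2.2.1⟩⟩⟩, ⟨⟨⟨H _ t2910.2.2.2.2.2.2.1, H _ t2910.2.2.2.2.2.2.2⟩, ⟨H _ t2918.1, H _ t2918.2.1⟩⟩, ⟨⟨H _ t2918.2.2.1, H _ t2918.2.2.2.1⟩, ⟨H _ t2918.2.2.2.2.1, ⟨H _ t2918.2.2.2.2.2.1, H _ t2918.2.2.2.2.2.2.1⟩⟩⟩⟩⟩, ⟨⟨⟨⟨H _ t2918.2.2.2.2.2.2.2, H _ t2926.1⟩, ⟨H _ t2926.2.1, H _ t2926.2.2.1⟩⟩, ⟨⟨H _ t2926.2.2.2.1, H _ t2926.2.2.2.2.1⟩, ⟨H _ t2926.2.2.2.2.2.1, ⟨H _ t2926.2.2.2.2.2.2.1, H _ t2926.2.2.2.2.2.2.2⟩⟩⟩⟩, ⟨⟨⟨H _ t2934.1, H _ t2934.2.1⟩, ⟨H _ t2934.2.2.1, H _ t2934.2.2.2.1⟩⟩,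 ⟨⟨H _ t2934.2.2.2.2.1, H _ t2934.2.2.2.2.2.1⟩, ⟨H _ t2934.2.2.2.2.2.2.1, ⟨H _ t2934.2.2.2.2.2.2.2, H _ t2942.1⟩⟩⟩⟩⟩⟩⟩, ⟨⟨⟨⟨⟨⟨H _ t2942.2.1, H _ t2942.2.2.1⟩, ⟨H _ t2942.2.2.2.1, H _ t2942.2.2.2.2.1⟩⟩, ⟨⟨H _ t2942.2.2.2.2.2.1, H _ t2942.2.2.2.2.2.2.1⟩, ⟨H _ t2942.2.2.2.2.2.2.2, H _ t2950.1⟩⟩⟩, ⟨⟨⟨H _ t2950.2.1, H _ t2950.2.2.1⟩, ⟨H _ t2950.2.2.2.1, H _ t2950.2.2.2.2.1⟩⟩, ⟨⟨H _ t2950.2.2.2.2.2.1, H _ t2950.2.2.2.2.2.2.1⟩, ⟨H _ t2950.2.2.2.2.2.2.2, ⟨H _ t2958.1, H _ t2958.2.1⟩⟩⟩⟩⟩, ⟨⟨⟨⟨H _ t2958.2.2.1, H _ t2958.2.2.2.1⟩, ⟨H _ t2958.2.2.2.2.1, H _ t2958.2.2.2.2.2.1⟩⟩, ⟨⟨H _ t2958.2.2.2.2.2.2.1, H _ t2958.2.2.2.2.2.2.2⟩, ⟨H _ t2966.1, ⟨H _ t2966.2.1, H _ t2966.2.2.1⟩⟩⟩⟩, ⟨⟨⟨H _ t2966.2.2.2.1, H _ t2966.2.2.2.2.1⟩, ⟨H _ t2966.2.2.2.2.2.1, H _ t2966.2.2.2.2.2.2.1⟩⟩, ⟨⟨H _ t2966.2.2.2.2.2.2.2, H _ t2974.1⟩, ⟨H _ t2974.2.1, ⟨H _ t2974.2.2.1, H _ t2974.2.2.2.1⟩⟩⟩⟩⟩⟩, ⟨⟨⟨⟨⟨H _ t2974.2.2.2.2.1,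 H _ t2974.2.2.2.2.2.1⟩, ⟨H _ t2974.2.2.2.2.2.2.1, H _ t2974.2.2.2.2.2.2.2⟩⟩, ⟨⟨H _ t2982.1, H _ t2982.2.1⟩, ⟨H _ t2982.2.2.1, H _ t2982.2.2.2.1⟩⟩⟩, ⟨⟨⟨H _ t2982.2.2.2.2.1, H _ t2982.2.2.2.2.2.1⟩, ⟨H _ t2982.2.2.2.2.2.2.1, H _ t2982.2.2.2.2.2.2.2⟩⟩, ⟨⟨H _ t2990.1, H _ t2990.2.1⟩, ⟨H _ t2990.2.2.1, ⟨H _ t2990.2.2.2.1, H _ t2990.2.2.2.2.1⟩⟩⟩⟩⟩, ⟨⟨⟨⟨H _ t2990.2.2.2.2.2.1, H _ t2990.2.2.2.2.2.2.1⟩, ⟨H _ t2990.2.2.2.2.2.2.2, H _ t2998.1⟩⟩, ⟨⟨H _ t2998.2.1, H _ t2998.2.2.1⟩, ⟨H _ t2998.2.2.2.1, ⟨H _ t2998.2.2.2.2.1, H _ t2998.2.2.2.2.2.1⟩⟩⟩⟩, ⟨⟨⟨H _ t2998.2.2.2.2.2.2.1, H _ t2998.2.2.2.2.2.2.2⟩, ⟨H _ t3006.1, H _ t3006.2.1⟩⟩, ⟨⟨H _ t3006.2.2.1, H _ t3006.2.2.2.1⟩, ⟨H _ t3006.2.2.2.2.1, ⟨H _ t3006.2.2.2.2.2.1, H _ t3006.2.2.2.2.2.2.1⟩⟩⟩⟩⟩⟩⟩⟩⟩, ⟨⟨⟨⟨⟨⟨⟨⟨H _ t3006.2.2.2.2.2.2.2, H _ t3014.1⟩, ⟨H _ t3014.2.1, H _ t3014.2.2.1⟩⟩, ⟨⟨H _ t3014.2.2.2.1, H _ t3014.2.2.2.2.1⟩, ⟨H _ t3014.2.2.2.2.2.1,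 H _ t3014.2.2.2.2.2.2.1⟩⟩⟩, ⟨⟨⟨H _ t3014.2.2.2.2.2.2.2, H _ t3022.1⟩, ⟨H _ t3022.2.1, H _ t3022.2.2.1⟩⟩, ⟨⟨H _ t3022.2.2.2.1, H _ t3022.2.2.2.2.1⟩, ⟨H _ t3022.2.2.2.2.2.1, ⟨H _ t3022.2.2.2.2.2.2.1, H _ t3022.2.2.2.2.2.2.2⟩⟩⟩⟩⟩, ⟨⟨⟨⟨H _ t3030.1, H _ t3030.2.1⟩, ⟨H _ t3030.2.2.1, H _ t3030.2.2.2.1⟩⟩, ⟨⟨H _ t3030.2.2.2.2.1, H _ t3030.2.2.2.2.2.1⟩, ⟨H _ t3030.2.2.2.2.2.2.1, H _ t3030.2.2.2.2.2.2.2⟩⟩⟩, ⟨⟨⟨H _ t3038.1, H _ t3038.2.1⟩, ⟨H _ t3038.2.2.1, H _ t3038.2.2.2.1⟩⟩, ⟨⟨H _ t3038.2.2.2.2.1, H _ t3038.2.2.2.2.2.1⟩, ⟨H _ t3038.2.2.2.2.2.2.1, ⟨H _ t3038.2.2.2.2.2.2.2, H _ t3046.1⟩⟩⟩⟩⟩⟩, ⟨⟨⟨⟨⟨H _ t3046.2.1, H _ t3046.2.2.1⟩, ⟨H _ t3046.2.2.2.1, H _ t3046.2.2.2.2.1⟩⟩, ⟨⟨H _ t3046.2.2.2.2.2.1, H _ t3046.2.2.2.2.2.2.1⟩, ⟨H _ t3046.2.2.2.2.2.2.2, H _ t3054.1⟩⟩⟩, ⟨⟨⟨H _ t3054.2.1, H _ t3054.2.2.1⟩, ⟨H _ t3054.2.2.2.1, H _ t3054.2.2.2.2.1⟩⟩, ⟨⟨H _ t3054.2.2.2.2.2.1, H _ t3054.2.2.2.2.2.2.1⟩,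 ⟨H _ t3054.2.2.2.2.2.2.2, ⟨H _ t3062.1, H _ t3062.2.1⟩⟩⟩⟩⟩, ⟨⟨⟨⟨H _ t3062.2.2.1, H _ t3062.2.2.2.1⟩, ⟨H _ t3062.2.2.2.2.1, H _ t3062.2.2.2.2.2.1⟩⟩, ⟨⟨H _ t3062.2.2.2.2.2.2.1, H _ t3062.2.2.2.2.2.2.2⟩, ⟨H _ t3070.1, ⟨H _ t3070.2.1, H _ t3070.2.2.1⟩⟩⟩⟩, ⟨⟨⟨H _ t3070.2.2.2.1, H _ t3070.2.2.2.2.1⟩, ⟨H _ t3070.2.2.2.2.2.1, H _ t3070.2.2.2.2.2.2.1⟩⟩, ⟨⟨H _ t3070.2.2.2.2.2.2.2, H _ t3078.1⟩, ⟨H _ t3078.2.1, ⟨H _ t3078.2.2.1, H _ t3078.2.2.2.1⟩⟩⟩⟩⟩⟩⟩, ⟨⟨⟨⟨⟨⟨H _ t3078.2.2.2.2.1, H _ t3078.2.2.2.2.2.1⟩, ⟨H _ t3078.2.2.2.2.2.2.1, H _ t3078.2.2.2.2.2.2.2⟩⟩, ⟨⟨H _ t3086.1, H _ t3086.2.1⟩, ⟨H _ t3086.2.2.1, H _ t3086.2.2.2.1⟩⟩⟩, ⟨⟨⟨H _ t3086.2.2.2.2.1, H _ t3086.2.2.2.2.2.1⟩, ⟨H _ t3086.2.2.2.2.2.2.1, H _ t3086.2.2.2.2.2.2.2⟩⟩, ⟨⟨H _ t3094.1, H _ t3094.2.1⟩, ⟨H _ t3094.2.2.1, ⟨H _ t3094.2.2.2.1, H _ t3094.2.2.2.2.1⟩⟩⟩⟩⟩, ⟨⟨⟨⟨H _ t3094.2.2.2.2.2.1, H _ t3094.2.2.2.2.2.2.1⟩, ⟨H _ t3094.2.2.2.2.2.2.2,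 H _ t3102.1⟩⟩, ⟨⟨H _ t3102.2.1, H _ t3102.2.2.1⟩, ⟨H _ t3102.2.2.2.1, ⟨H _ t3102.2.2.2.2.1, H _ t3102.2.2.2.2.2.1⟩⟩⟩⟩, ⟨⟨⟨H _ t3102.2.2.2.2.2.2.1, H _ t3102.2.2.2.2.2.2.2⟩, ⟨H _ t3110.1, H _ t3110.2.1⟩⟩, ⟨⟨H _ t3110.2.2.1, H _ t3110.2.2.2.1⟩, ⟨H _ t3110.2.2.2.2.1, ⟨H _ t3110.2.2.2.2.2.1, H _ t3110.2.2.2.2.2.2.1⟩⟩⟩⟩⟩⟩, ⟨⟨⟨⟨⟨H _ t3110.2.2.2.2.2.2.2, H _ t3118.1⟩, ⟨H _ t3118.2.1, H _ t3118.2.2.1⟩⟩, ⟨⟨H _ t3118.2.2.2.1, H _ t3118.2.2.2.2.1⟩, ⟨H _ t3118.2.2.2.2.2.1, H _ t3118.2.2.2.2.2.2.1⟩⟩⟩, ⟨⟨⟨H _ t3118.2.2.2.2.2.2.2, H _ t3126.1⟩, ⟨H _ t3126.2.1, H _ t3126.2.2.1⟩⟩, ⟨⟨H _ t3126.2.2.2.1, H _ t3126.2.2.2.2.1⟩, ⟨H _ t3126.2.2.2.2.2.1, ⟨H _ t3126.2.2.2.2.2.2.1, H _ t3126.2.2.2.2.2.2.2⟩⟩⟩⟩⟩, ⟨⟨⟨⟨H _ t3134.1, H _ t3134.2.1⟩, ⟨H _ t3134.2.2.1, H _ t3134.2.2.2.1⟩⟩, ⟨⟨H _ t3134.2.2.2.2.1, H _ t3134.2.2.2.2.2.1⟩, ⟨H _ t3134.2.2.2.2.2.2.1, ⟨H _ t3134.2.2.2.2.2.2.2, H _ t3142.1⟩⟩⟩⟩, ⟨⟨⟨H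 _ t3142.2.1, H _ t3142.2.2.1⟩, ⟨H _ t3142.2.2.2.1, H _ t3142.2.2.2.2.1⟩⟩, ⟨⟨H _ t3142.2.2.2.2.2.1, H _ t3142.2.2.2.2.2.2.1⟩, ⟨H _ t3142.2.2.2.2.2.2.2, ⟨H _ t3150.1, H _ t3150.2.1⟩⟩⟩⟩⟩⟩⟩⟩, ⟨⟨⟨⟨⟨⟨⟨H _ t3150.2.2.1, H _ t3150.2.2.2.1⟩, ⟨H _ t3150.2.2.2.2.1, H _ t3150.2.2.2.2.2.1⟩⟩, ⟨⟨H _ t3150.2.2.2.2.2.2.1, H _ t3150.2.2.2.2.2.2.2⟩, ⟨H _ t3158.1, H _ t3158.2.1⟩⟩⟩, ⟨⟨⟨H _ t3158.2.2.1, H _ t3158.2.2.2.1⟩, ⟨H _ t3158.2.2.2.2.1, H _ t3158.2.2.2.2.2.1⟩⟩, ⟨⟨H _ t3158.2.2.2.2.2.2.1, H _ t3158.2.2.2.2.2.2.2⟩, ⟨H _ t3166.1, ⟨H _ t3166.2.1, H _ t3166.2.2.1⟩⟩⟩⟩⟩, ⟨⟨⟨⟨H _ t3166.2.2.2.1, H _ t3166.2.2.2.2.1⟩, ⟨H _ t3166.2.2.2.2.2.1, H _ t3166.2.2.2.2.2.2.1⟩⟩, ⟨⟨H _ t3166.2.2.2.2.2.2.2, H _ t3174.1⟩, ⟨H _ t3174.2.1, ⟨H _ t3174.2.2.1, H _ t3174.2.2.2.1⟩⟩⟩⟩, ⟨⟨⟨H _ t3174.2.2.2.2.1, H _ t3174.2.2.2.2.2.1⟩, ⟨H _ t3174.2.2.2.2.2.2.1, H _ t3174.2.2.2.2.2.2.2⟩⟩, ⟨⟨H _ t3182.1, H _ t3182.2.1⟩, ⟨H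 _ t3182.2.2.1, ⟨H _ t3182.2.2.2.1, H _ t3182.2.2.2.2.1⟩⟩⟩⟩⟩⟩, ⟨⟨⟨⟨⟨H _ t3182.2.2.2.2.2.1, H _ t3182.2.2.2.2.2.2.1⟩, ⟨H _ t3182.2.2.2.2.2.2.2, H _ t3190.1⟩⟩, ⟨⟨H _ t3190.2.1, H _ t3190.2.2.1⟩, ⟨H _ t3190.2.2.2.1, H _ t3190.2.2.2.2.1⟩⟩⟩, ⟨⟨⟨H _ t3190.2.2.2.2.2.1, H _ t3190.2.2.2.2.2.2.1⟩, ⟨H _ t3190.2.2.2.2.2.2.2, H _ t3198.1⟩⟩, ⟨⟨H _ t3198.2.1, H _ t3198.2.2.1⟩, ⟨H _ t3198.2.2.2.1, ⟨H _ t3198.2.2.2.2.1, H _ t3198.2.2.2.2.2.1⟩⟩⟩⟩⟩, ⟨⟨⟨⟨H _ t3198.2.2.2.2.2.2.1, H _ t3198.2.2.2.2.2.2.2⟩, ⟨H _ t3206.1, H _ t3206.2.1⟩⟩, ⟨⟨H _ t3206.2.2.1, H _ t3206.2.2.2.1⟩, ⟨H _ t3206.2.2.2.2.1, ⟨H _ t3206.2.2.2.2.2.1, H _ t3206.2.2.2.2.2.2.1⟩⟩⟩⟩, ⟨⟨⟨H _ t3206.2.2.2.2.2.2.2, H _ t3214.1⟩, ⟨H _ t3214.2.1, H _ t3214.2.2.1⟩⟩, ⟨⟨H _ t3214.2.2.2.1, H _ t3214.2.2.2.2.1⟩, ⟨H _ t3214.2.2.2.2.2.1, ⟨H _ t3214.2.2.2.2.2.2.1, H _ t3214.2.2.2.2.2.2.2⟩⟩⟩⟩⟩⟩⟩, ⟨⟨⟨⟨⟨⟨H _ t3222.1, H _ t3222.2.1⟩, ⟨H _ t3222.2.2.1,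 H _ t3222.2.2.2.1⟩⟩, ⟨⟨H _ t3222.2.2.2.2.1, H _ t3222.2.2.2.2.2.1⟩, ⟨H _ t3222.2.2.2.2.2.2.1, H _ t3222.2.2.2.2.2.2.2⟩⟩⟩, ⟨⟨⟨H _ t3230.1, H _ t3230.2.1⟩, ⟨H _ t3230.2.2.1, H _ t3230.2.2.2.1⟩⟩, ⟨⟨H _ t3230.2.2.2.2.1, H _ t3230.2.2.2.2.2.1⟩, ⟨H _ t3230.2.2.2.2.2.2.1, ⟨H _ t3230.2.2.2.2.2.2.2, H _ t3238.1⟩⟩⟩⟩⟩, ⟨⟨⟨⟨H _ t3238.2.1, H _ t3238.2.2.1⟩, ⟨H _ t3238.2.2.2.1, H _ t3238.2.2.2.2.1⟩⟩, ⟨⟨H _ t3238.2.2.2.2.2.1, H _ t3238.2.2.2.2.2.2.1⟩, ⟨H _ t3238.2.2.2.2.2.2.2, ⟨H _ t3246.1, H _ t3246.2.1⟩⟩⟩⟩, ⟨⟨⟨H _ t3246.2.2.1, H _ t3246.2.2.2.1⟩, ⟨H _ t3246.2.2.2.2.1, H _ t3246.2.2.2.2.2.1⟩⟩, ⟨⟨H _ t3246.2.2.2.2.2.2.1, H _ t3246.2.2.2.2.2.2.2⟩, ⟨H _ t3254.1, ⟨H _ t3254.2.1, H _ t3254.2.2.1⟩⟩⟩⟩⟩⟩, ⟨⟨⟨⟨⟨H _ t3254.2.2.2.1, H _ t3254.2.2.2.2.1⟩, ⟨H _ t3254.2.2.2.2.2.1, H _ t3254.2.2.2.2.2.2.1⟩⟩, ⟨⟨H _ t3254.2.2.2.2.2.2.2, H _ t3262.1⟩, ⟨H _ t3262.2.1, H _ t3262.2.2.1⟩⟩⟩, ⟨⟨⟨H _ t3262.2.2.2.1,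 H _ t3262.2.2.2.2.1⟩, ⟨H _ t3262.2.2.2.2.2.1, H _ t3262.2.2.2.2.2.2.1⟩⟩, ⟨⟨H _ t3262.2.2.2.2.2.2.2, H _ t3270.1⟩, ⟨H _ t3270.2.1, ⟨H _ t3270.2.2.1, H _ t3270.2.2.2.1⟩⟩⟩⟩⟩, ⟨⟨⟨⟨H _ t3270.2.2.2.2.1, H _ t3270.2.2.2.2.2.1⟩, ⟨H _ t3270.2.2.2.2.2.2.1, H _ t3270.2.2.2.2.2.2.2⟩⟩, ⟨⟨H _ t3278.1, H _ t3278.2.1⟩, ⟨H _ t3278.2.2.1, ⟨H _ t3278.2.2.2.1, H _ t3278.2.2.2.2.1⟩⟩⟩⟩, ⟨⟨⟨H _ t3278.2.2.2.2.2.1, H _ t3278.2.2.2.2.2.2.1⟩, ⟨H _ t3278.2.2.2.2.2.2.2, H _ t3286.1⟩⟩, ⟨⟨H _ t3286.2.1, H _ t3286.2.2.1⟩, ⟨H _ t3286.2.2.2.1, ⟨H _ t3286.2.2.2.2.1, H _ t3286.2.2.2.2.2⟩⟩⟩⟩⟩⟩⟩⟩⟩⟩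

end Pool.Agent.MP_c853c5_nt.X.C4950
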