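import Pool.Agent.MP_c853c5_nt.X.C4950.D0
import Pool.Agent.MP_c853c5_nt.X.C4950.D1
import Pool.Agent.MP_c853c5_nt.X.C4950.D2
import Pool.Agent.MP_c853c5_nt.X.C4950.D3
import Pool.Agent.MP_c853c5_nt.X.C4950.D4
import Pool.Agent.MP_c853c5_nt.X.C4950.D5
import Pool.Agent.MP_c853c5_nt.X.C4950.D6
import Pool.Agent.MP_c853c5_nt.X.C4950.D7
import Pool.Agent.MP_c853c5_nt.X.C4950.D8
import Pool.Agent.MP_c853c5_nt.X.C4950.D9
import Pool.Agent.MP_c853c5_nt.X.C4950.D10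
import Pool.Agent.MP_c853c5_nt.X.C4950.D11
import Pool.Agent.MP_c853c5_nt.X.C4950.D12
import Pool.Agent.MP_c853c5_nt.X.C4950.D13
import Pool.Agent.MP_c853c5_nt.X.C4950.D14
import Pool.Agent.MP_c853c5_nt.X.C4950.D15
import Pool.Agent.MP_c853c5_nt.X.C4950.D16
import Pool.Agent.MP_c853c5_nt.X.C4950.D17

set_option autoImplicit false
set_option maxRecDepth 8192
set_option linter.all false

namespace Pool.Agent.MP_c853c5_nt.X.C4950

open Pool.Agent.MP_c853c5_nt.X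

noncomputable def T1 : BT Rf := (.nd 14345 (.nd 6868 (.nd 3321 (.nd 1617 (.nd 535 b0 (.nd 538 b1 b2)) (.nd 558 b3 (.nd 582 b4 b5))) (.nd 1766 (.nd 570 b6 (.nd 604 b7 b8)) (.nd 595 b9 (.nd 589 b10 b11)))) (.nd 3412 (.nd 1722 (.nd 574 b12 (.nd 569 b13 b14)) (.nd 551 b15 (.nd 577 b16 b17))) (.nd 1737 (.nd 572 b18 (.nd 585 b19 b20)) (.nd 1159 (.nd 574 b21 b22) (.nd 584 b23 b24))))) (.nd 6894 (.nd 3495 (.nd 1752 (.nd 593 b25 (.nd 573 b26 b27)) (.nd 574 b28 (.nd 565 b29 b30))) (.nd 1690 (.nd 556 b31 (.nd 571 b32 b33)) (.nd 587 b34 (.nd 559 b35 b36)))) (.nd 3445 (.nd 1702 (.nd 558 b37 (.nd 557 b38 b39)) (.nd 575 b40 (.nd 581 b41 b42))) (.nd 1693 (.nd 577 b43 (.nd 560 b44 b45)) (.nd 1135 (.nd 564 b46 b47) (.nd 577 b48 b49))))))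

noncomputable def T2 : BT Rf := (.nd 28404 T1 (.nd 5450 (.nd 2727 (.nd 1090 (.nd 541 b50 b51) (.nd 547 b52 (.nd 542 b53 b54))) (.nd 1090 (.nd 540 b55 b56) (.nd 549 b57 (.nd 534 b58 b59)))) (.nd 2723 (.nd 1098 (.nd 548 b60 b61) (.nd 537 b62 (.nd 539 b63 b64))) (.nd 1668 (.nd 548 b65 (.nd 566 b66 b67)) (.nd 556 b68 (.nd 547 b69 b70))))))

noncomputable def T3 : BT Rf := (.nd 39430 T2 (.nd 2148 (.nd 1030 (.nd 469 b71 b72) (.nd 558 b73 b74)) (.nd 1117 (.nd 563 b75 b76) (.nd 573 b77 (.nd 572 b78 b79)))))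

noncomputable def T4 : BT Rf := (.nd 44166 T3 (.nd 825 (.nd 247 b80 b81) (.nd 577 b82 (.nd 582 b83 b84))))

noncomputable def T5 : BT Rf := (.nd 46299 T4 (.nd 438 b85 b86))

noncomputable def T6 : BT Rf := (.nd 47292 T5 (.nd 24 b87 b88))

noncomputable def T7 : BT Rf := (.nd 47761 T6 (.nd 168 b89 b90))

noncomputable def T8 : BT Rf := (.nd 48014 T7 b91)

noncomputable def T9 : BT Rf := (.nd 48140 T8 b92)

noncomputable def T10 : BT Rf := (.nd 48197 T9 b93)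

noncomputable def T11 : BT Rf := (.nd 48225 T10 b94)

noncomputable def T12 : BT Rf := (.nd 48241 T11 b95)

noncomputable def T13 : BT Rf := (.nd 48248 T12 b96)

noncomputable def T14 : BT Rf := (.nd 48251 T13 b97)

noncomputable def T15 : BT Rf := (.nd 48253 T14 b98)

end Pool.Agent.MP_c853c5_nt.X.C4950
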