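import Pool.Agent.MP_c853c5_nt.X.C4950.Env
import Pool.Agent.MP_c853c5_nt.X.C4950.Tab

set_option autoImplicit false
set_option maxRecDepth 8192
set_option linter.all false

namespace Pool.Agent.MP_c853c5_nt.X.C4950

open Pool.Agent.MP_c853c5_nt.X

def t27753 : allY (E.wth T1) l27753 = true ∧
    allY (E.wth T1) l27754 = true ∧
    allY (E.wth T1) l27755 = true ∧
    allY (E.wth T1) l27756 = true ∧
    allY (E.wth T1) l27757 = true ∧
    allY (E.wth T1) l27758 = true ∧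
    allY (E.wth T1) l27759 = true ∧
    allY (E.wth T1) l27760 = true :=
  ⟨by decide +kernel, by decide +kernel, by decide +kernel, by decide +kernel, by decide +kernel, by decide +kernel, by decide +kernel, by decide +kernel⟩

def t27761 : allY (E.wth T1) l27761 = true ∧
    allY (E.wth T1) l27762 = true ∧
    allY (E.wth T1) l27763 = true ∧
    allY (E.wth T1) l27764 = true ∧
    allY (E.wth T1) l27765 = true ∧
    allY (E.wth T1) l27766 = true ∧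
    allY (E.wth T1) l27767 = true ∧
    allY (E.wth T1) l27768 = true :=
  ⟨by decide +kernel, by decide +kernel, by decide +kernel, by decide +kernel, by decide +kernel, by decide +kernel, by decide +kernel, by decide +kernel⟩

def t27769 : allY (E.wth T1) l27769 = true ∧
    allY (E.wth T1) l27770 = true ∧
    allY (E.wth T1) l27771 = true ∧
    allY (E.wth T1) l27772 = true ∧
    allY (E.wth T1) l27773 = true ∧
    allY (E.wth T1) l27774 = true ∧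
    allY (E.wth T1) l27775 = true ∧
    allY (E.wth T1) l27776 = true :=
  ⟨by decide +kernel, by decide +kernel, by decide +kernel, by decide +kernel, by decide +kernel, by decide +kernel, by decide +kernel, by decide +kernel⟩

def t27777 : allY (E.wth T1) l27777 = true ∧
    allY (E.wth T1) l27778 = true ∧
    allY (E.wth T1) l27779 = true ∧
    allY (E.wth T1) l27780 = true ∧
    allY (E.wth T1) l27781 = true ∧
    allY (E.wth T1) l27782 = true ∧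
    allY (E.wth T1) l27783 = true ∧
    allY (E.wth T1) l27784 = true :=
  ⟨by decide +kernel, by decide +kernel, by decide +kernel, by decide +kernel, by decide +kernel, by decide +kernel, by decide +kernel, by decide +kernel⟩

def t27785 : allY (E.wth T1) l27785 = true ∧
    allY (E.wth T1) l27786 = true ∧
    allY (E.wth T1) l27787 = true ∧
    allY (E.wth T1) l27788 = true ∧
    allY (E.wth T1) l27789 = true ∧
    allY (E.wth T1) l27790 = true ∧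
    allY (E.wth T1) l27791 = true ∧
    allY (E.wth T1) l27792 = true :=
  ⟨by decide +kernel, by decide +kernel, by decide +kernel, by decide +kernel, by decide +kernel, by decide +kernel, by decide +kernel, by decide +kernel⟩

def t27793 : allY (E.wth T1) l27793 = true ∧
    allY (E.wth T1) l27794 = true ∧
    allY (E.wth T1) l27795 = true ∧
    allY (E.wth T1) l27796 = true ∧
    allY (E.wth T1) l27797 = true ∧
    allY (E.wth T1) l27798 = true ∧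
    allY (E.wth T1) l27799 = true ∧
    allY (E.wth T1) l27800 = true :=
  ⟨by decide +kernel, by decide +kernel, by decide +kernel, by decide +kernel, by decide +kernel, by decide +kernel, by decide +kernel, by decide +kernel⟩

def t27801 : allY (E.wth T1) l27801 = true ∧
    allY (E.wth T1) l27802 = true ∧
    allY (E.wth T1) l27803 = true ∧
    allY (E.wth T1) l27804 = true ∧
    allY (E.wth T1) l27805 = true ∧
    allY (E.wth T1) l27806 = true ∧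
    allY (E.wth T1) l27807 = true ∧
    allY (E.wth T1) l27808 = true :=
  ⟨by decide +kernel, by decide +kernel, by decide +kernel, by decide +kernel, by decide +kernel, by decide +kernel, by decide +kernel, by decide +kernel⟩

def t27809 : allY (E.wth T1) l27809 = true ∧
    allY (E.wth T1) l27810 = true ∧
    allY (E.wth T1) l27811 = true ∧
    allY (E.wth T1) l27812 = true ∧
    allY (E.wth T1) l27813 = true ∧
    allY (E.wth T1) l27814 = true ∧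
    allY (E.wth T1) l27815 = true ∧
    allY (E.wth T1) l27816 = true :=
  ⟨by decide +kernel, by decide +kernel, by decide +kernel, by decide +kernel, by decide +kernel, by decide +kernel, by decide +kernel, by decide +kernel⟩

def t27817 : allY (E.wth T1) l27817 = true ∧
    allY (E.wth T1) l27818 = true ∧
    allY (E.wth T1) l27819 = true ∧
    allY (E.wth T1) l27820 = true ∧
    allY (E.wth T1) l27821 = true ∧
    allY (E.wth T1) l27822 = true ∧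
    allY (E.wth T1) l27823 = true ∧
    allY (E.wth T1) l27824 = true :=
  ⟨by decide +kernel, by decide +kernel, by decide +kernel, by decide +kernel, by decide +kernel, by decide +kernel, by decide +kernel, by decide +kernel⟩

def t27825 : allY (E.wth T1) l27825 = true ∧
    allY (E.wth T1) l27826 = true ∧
    allY (E.wth T1) l27827 = true ∧
    allY (E.wth T1) l27828 = true ∧
    allY (E.wth T1) l27829 = true ∧
    allY (E.wth T1) l27830 = true ∧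
    allY (E.wth T1) l27831 = true ∧
    allY (E.wth T1) l27832 = true :=
  ⟨by decide +kernel, by decide +kernel, by decide +kernel, by decide +kernel, by decide +kernel, by decide +kernel, by decide +kernel, by decide +kernel⟩

def t27833 : allY (E.wth T1) l27833 = true ∧
    allY (E.wth T1) l27834 = true ∧
    allY (E.wth T1) l27835 = true ∧
    allY (E.wth T1) l27836 = true ∧
    allY (E.wth T1) l27837 = true ∧
    allY (E.wth T1) l27838 = true ∧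
    allY (E.wth T1) l27839 = true ∧
    allY (E.wth T1) l27840 = true :=
  ⟨by decide +kernel, by decide +kernel, by decide +kernel, by decide +kernel, by decide +kernel, by decide +kernel, by decide +kernel, by decide +kernel⟩

def t27841 : allY (E.wth T1) l27841 = true ∧
    allY (E.wth T1) l27842 = true ∧
    allY (E.wth T1) l27843 = true ∧
    allY (E.wth T1) l27844 = true ∧
    allY (E.wth T1) l27845 = true ∧
    allY (E.wth T1) l27846 = true ∧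
    allY (E.wth T1) l27847 = true ∧
    allY (E.wth T1) l27848 = true :=
  ⟨by decide +kernel, by decide +kernel, by decide +kernel, by decide +kernel, by decide +kernel, by decide +kernel, by decide +kernel, by decide +kernel⟩

def t27849 : allY (E.wth T1) l27849 = true ∧
    allY (E.wth T1) l27850 = true ∧
    allY (E.wth T1) l27851 = true ∧
    allY (E.wth T1) l27852 = true ∧
    allY (E.wth T1) l27853 = true ∧
    allY (E.wth T1) l27854 = true ∧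
    allY (E.wth T1) l27855 = true ∧
    allY (E.wth T1) l27856 = true :=
  ⟨by decide +kernel, by decide +kernel, by decide +kernel, by decide +kernel, by decide +kernel, by decide +kernel, by decide +kernel, by decide +kernel⟩

def t27857 : allY (E.wth T1) l27857 = true ∧
    allY (E.wth T1) l27858 = true ∧
    allY (E.wth T1) l27859 = true ∧
    allY (E.wth T1) l27860 = true ∧
    allY (E.wth T1) l27861 = true ∧
    allY (E.wth T1) l27862 = true ∧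
    allY (E.wth T1) l27863 = true ∧
    allY (E.wth T1) l27864 = true :=
  ⟨by decide +kernel, by decide +kernel, by decide +kernel, by decide +kernel, by decide +kernel, by decide +kernel, by decide +kernel, by decide +kernel⟩

def t27865 : allY (E.wth T1) l27865 = true ∧
    allY (E.wth T1) l27866 = true ∧
    allY (E.wth T1) l27867 = true ∧
    allY (E.wth T1) l27868 = true ∧
    allY (E.wth T1) l27869 = true ∧
    allY (E.wth T1) l27870 = true ∧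
    allY (E.wth T1) l27871 = true ∧
    allY (E.wth T1) l27872 = true :=
  ⟨by decide +kernel, by decide +kernel, by decide +kernel, by decide +kernel, by decide +kernel, by decide +kernel, by decide +kernel, by decide +kernel⟩

def t27873 : allY (E.wth T1) l27873 = true ∧
    allY (E.wth T1) l27874 = true ∧
    allY (E.wth T1) l27875 = true ∧
    allY (E.wth T1) l27876 = true ∧
    allY (E.wth T1) l27877 = true ∧
    allY (E.wth T1) l27878 = true ∧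
    allY (E.wth T1) l27879 = true ∧
    allY (E.wth T1) l27880 = true :=
  ⟨by decide +kernel, by decide +kernel, by decide +kernel, by decide +kernel, by decide +kernel, by decide +kernel, by decide +kernel, by decide +kernel⟩

def t27881 : allY (E.wth T1) l27881 = true ∧
    allY (E.wth T1) l27882 = true ∧
    allY (E.wth T1) l27883 = true ∧
    allY (E.wth T1) l27884 = true ∧
    allY (E.wth T1) l27885 = true ∧
    allY (E.wth T1) l27886 = true ∧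
    allY (E.wth T1) l27887 = true ∧
    allY (E.wth T1) l27888 = true :=
  ⟨by decide +kernel, by decide +kernel, by decide +kernel, by decide +kernel, by decide +kernel, by decide +kernel, by decide +kernel, by decide +kernel⟩

def t27889 : allY (E.wth T1) l27889 = true ∧
    allY (E.wth T1) l27890 = true ∧
    allY (E.wth T1) l27891 = true ∧
    allY (E.wth T1) l27892 = true ∧
    allY (E.wth T1) l27893 = true ∧
    allY (E.wth T1) l27894 = true ∧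
    allY (E.wth T1) l27895 = true ∧
    allY (E.wth T1) l27896 = true :=
  ⟨by decide +kernel, by decide +kernel, by decide +kernel, by decide +kernel, by decide +kernel, by decide +kernel, by decide +kernel, by decide +kernel⟩

def t27897 : allY (E.wth T1) l27897 = true ∧
    allY (E.wth T1) l27898 = true ∧
    allY (E.wth T1) l27899 = true ∧
    allY (E.wth T1) l27900 = true ∧
    allY (E.wth T1) l27901 = true ∧
    allY (E.wth T1) l27902 = true ∧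
    allY (E.wth T1) l27903 = true ∧
    allY (E.wth T1) l27904 = true :=
  ⟨by decide +kernel, by decide +kernel, by decide +kernel, by decide +kernel, by decide +kernel, by decide +kernel, by decide +kernel, by decide +kernel⟩

def t27905 : allY (E.wth T1) l27905 = true ∧
    allY (E.wth T1) l27906 = true ∧
    allY (E.wth T1) l27907 = true ∧
    allY (E.wth T1) l27908 = true ∧
    allY (E.wth T1) l27909 = true ∧
    allY (E.wth T1) l27910 = true ∧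
    allY (E.wth T1) l27911 = true ∧
    allY (E.wth T1) l27912 = true :=
  ⟨by decide +kernel, by decide +kernel, by decide +kernel, by decide +kernel, by decide +kernel, by decide +kernel, by decide +kernel, by decide +kernel⟩

def t27913 : allY (E.wth T1) l27913 = true ∧
    allY (E.wth T1) l27914 = true ∧
    allY (E.wth T1) l27915 = true ∧
    allY (E.wth T1) l27916 = true ∧
    allY (E.wth T1) l27917 = true ∧
    allY (E.wth T1) l27918 = true ∧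
    allY (E.wth T1) l27919 = true ∧
    allY (E.wth T1) l27920 = true :=
  ⟨by decide +kernel, by decide +kernel, by decide +kernel, by decide +kernel, by decide +kernel, by decide +kernel, by decide +kernel, by decide +kernel⟩

def t27921 : allY (E.wth T1) l27921 = true ∧
    allY (E.wth T1) l27922 = true ∧
    allY (E.wth T1) l27923 = true ∧
    allY (E.wth T1) l27924 = true ∧
    allY (E.wth T1) l27925 = true ∧
    allY (E.wth T1) l27926 = true ∧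
    allY (E.wth T1) l27927 = true ∧
    allY (E.wth T1) l27928 = true :=
  ⟨by decide +kernel, by decide +kernel, by decide +kernel, by decide +kernel, by decide +kernel, by decide +kernel, by decide +kernel, by decide +kernel⟩

def t27929 : allY (E.wth T1) l27929 = true ∧
    allY (E.wth T1) l27930 = true ∧
    allY (E.wth T1) l27931 = true ∧
    allY (E.wth T1) l27932 = true ∧
    allY (E.wth T1) l27933 = true ∧
    allY (E.wth T1) l27934 = true ∧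
    allY (E.wth T1) l27935 = true ∧
    allY (E.wth T1) l27936 = true :=
  ⟨by decide +kernel, by decide +kernel, by decide +kernel, by decide +kernel, by decide +kernel, by decide +kernel, by decide +kernel, by decide +kernel⟩

def t27937 : allY (E.wth T1) l27937 = true ∧
    allY (E.wth T1) l27938 = true ∧
    allY (E.wth T1) l27939 = true ∧
    allY (E.wth T1) l27940 = true ∧
    allY (E.wth T1) l27941 = true ∧
    allY (E.wth T1) l27942 = true ∧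
    allY (E.wth T1) l27943 = true ∧
    allY (E.wth T1) l27944 = true :=
  ⟨by decide +kernel, by decide +kernel, by decide +kernel, by decide +kernel, by decide +kernel, by decide +kernel, by decide +kernel, by decide +kernel⟩

def t27945 : allY (E.wth T1) l27945 = true ∧
    allY (E.wth T1) l27946 = true ∧
    allY (E.wth T1) l27947 = true ∧
    allY (E.wth T1) l27948 = true ∧
    allY (E.wth T1) l27949 = true ∧
    allY (E.wth T1) l27950 = true ∧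
    allY (E.wth T1) l27951 = true ∧
    allY (E.wth T1) l27952 = true :=
  ⟨by decide +kernel, by decide +kernel, by decide +kernel, by decide +kernel, by decide +kernel, by decide +kernel, by decide +kernel, by decide +kernel⟩

def t27953 : allY (E.wth T1) l27953 = true ∧
    allY (E.wth T1) l27954 = true ∧
    allY (E.wth T1) l27955 = true ∧
    allY (E.wth T1) l27956 = true ∧
    allY (E.wth T1) l27957 = true ∧
    allY (E.wth T1) l27958 = true ∧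
    allY (E.wth T1) l27959 = true ∧
    allY (E.wth T1) l27960 = true :=
  ⟨by decide +kernel, by decide +kernel, by decide +kernel, by decide +kernel, by decide +kernel, by decide +kernel, by decide +kernel, by decide +kernel⟩

def t27961 : allY (E.wth T1) l27961 = true ∧
    allY (E.wth T1) l27962 = true ∧
    allY (E.wth T1) l27963 = true ∧
    allY (E.wth T1) l27964 = true ∧
    allY (E.wth T1) l27965 = true ∧
    allY (E.wth T1) l27966 = true ∧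
    allY (E.wth T1) l27967 = true ∧
    allY (E.wth T1) l27968 = true :=
  ⟨by decide +kernel, by decide +kernel, by decide +kernel, by decide +kernel, by decide +kernel, by decide +kernel, by decide +kernel, by decide +kernel⟩

def t27969 : allY (E.wth T1) l27969 = true ∧
    allY (E.wth T1) l27970 = true ∧
    allY (E.wth T1) l27971 = true ∧
    allY (E.wth T1) l27972 = true ∧
    allY (E.wth T1) l27973 = true ∧
    allY (E.wth T1) l27974 = true ∧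
    allY (E.wth T1) l27975 = true ∧
    allY (E.wth T1) l27976 = true :=
  ⟨by decide +kernel, by decide +kernel, by decide +kernel, by decide +kernel, by decide +kernel, by decide +kernel, by decide +kernel, by decide +kernel⟩

def t27977 : allY (E.wth T1) l27977 = true ∧
    allY (E.wth T1) l27978 = true ∧
    allY (E.wth T1) l27979 = true ∧
    allY (E.wth T1) l27980 = true ∧
    allY (E.wth T1) l27981 = true ∧
    allY (E.wth T1) l27982 = true ∧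
    allY (E.wth T1) l27983 = true ∧
    allY (E.wth T1) l27984 = true :=
  ⟨by decide +kernel, by decide +kernel, by decide +kernel, by decide +kernel, by decide +kernel, by decide +kernel, by decide +kernel, by decide +kernel⟩

def t27985 : allY (E.wth T1) l27985 = true ∧
    allY (E.wth T1) l27986 = true ∧
    allY (E.wth T1) l27987 = true ∧
    allY (E.wth T1) l27988 = true ∧
    allY (E.wth T1) l27989 = true ∧
    allY (E.wth T1) l27990 = true ∧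
    allY (E.wth T1) l27991 = true ∧
    allY (E.wth T1) l27992 = true :=
  ⟨by decide +kernel, by decide +kernel, by decide +kernel, by decide +kernel, by decide +kernel, by decide +kernel, by decide +kernel, by decide +kernel⟩

def t27993 : allY (E.wth T1) l27993 = true ∧
    allY (E.wth T1) l27994 = true ∧
    allY (E.wth T1) l27995 = true ∧
    allY (E.wth T1) l27996 = true ∧
    allY (E.wth T1) l27997 = true ∧
    allY (E.wth T1) l27998 = true ∧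
    allY (E.wth T1) l27999 = true ∧
    allY (E.wth T1) l28000 = true :=
  ⟨by decide +kernel, by decide +kernel, by decide +kernel, by decide +kernel, by decide +kernel, by decide +kernel, by decide +kernel, by decide +kernel⟩

def t28001 : allY (E.wth T1) l28001 = true ∧
    allY (E.wth T1) l28002 = true ∧
    allY (E.wth T1) l28003 = true ∧
    allY (E.wth T1) l28004 = true ∧
    allY (E.wth T1) l28005 = true ∧
    allY (E.wth T1) l28006 = true ∧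
    allY (E.wth T1) l28007 = true ∧
    allY (E.wth T1) l28008 = true :=
  ⟨by decide +kernel, by decide +kernel, by decide +kernel, by decide +kernel, by decide +kernel, by decide +kernel, by decide +kernel, by decide +kernel⟩

def t28009 : allY (E.wth T1) l28009 = true ∧
    allY (E.wth T1) l28010 = true ∧
    allY (E.wth T1) l28011 = true ∧
    allY (E.wth T1) l28012 = true ∧
    allY (E.wth T1) l28013 = true ∧
    allY (E.wth T1) l28014 = true ∧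
    allY (E.wth T1) l28015 = true ∧
    allY (E.wth T1) l28016 = true :=
  ⟨by decide +kernel, by decide +kernel, by decide +kernel, by decide +kernel, by decide +kernel, by decide +kernel, by decide +kernel, by decide +kernel⟩

def t28017 : allY (E.wth T1) l28017 = true ∧
    allY (E.wth T1) l28018 = true ∧
    allY (E.wth T1) l28019 = true ∧
    allY (E.wth T1) l28020 = true ∧
    allY (E.wth T1) l28021 = true ∧
    allY (E.wth T1) l28022 = true ∧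
    allY (E.wth T1) l28023 = true ∧
    allY (E.wth T1) l28024 = true :=
  ⟨by decide +kernel, by decide +kernel, by decide +kernel, by decide +kernel, by decide +kernel, by decide +kernel, by decide +kernel, by decide +kernel⟩

def t28025 : allY (E.wth T1) l28025 = true ∧
    allY (E.wth T1) l28026 = true ∧
    allY (E.wth T1) l28027 = true ∧
    allY (E.wth T1) l28028 = true ∧
    allY (E.wth T1) l28029 = true ∧
    allY (E.wth T1) l28030 = true ∧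
    allY (E.wth T1) l28031 = true ∧
    allY (E.wth T1) l28032 = true :=
  ⟨by decide +kernel, by decide +kernel, by decide +kernel, by decide +kernel, by decide +kernel, by decide +kernel, by decide +kernel, by decide +kernel⟩

def t28033 : allY (E.wth T1) l28033 = true ∧
    allY (E.wth T1) l28034 = true ∧
    allY (E.wth T1) l28035 = true ∧
    allY (E.wth T1) l28036 = true ∧
    allY (E.wth T1) l28037 = true ∧
    allY (E.wth T1) l28038 = true ∧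
    allY (E.wth T1) l28039 = true ∧
    allY (E.wth T1) l28040 = true :=
  ⟨by decide +kernel, by decide +kernel, by decide +kernel, by decide +kernel, by decide +kernel, by decide +kernel, by decide +kernel, by decide +kernel⟩

def t28041 : allY (E.wth T1) l28041 = true ∧
    allY (E.wth T1) l28042 = true ∧
    allY (E.wth T1) l28043 = true ∧
    allY (E.wth T1) l28044 = true ∧
    allY (E.wth T1) l28045 = true ∧
    allY (E.wth T1) l28046 = true ∧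
    allY (E.wth T1) l28047 = true ∧
    allY (E.wth T1) l28048 = true :=
  ⟨by decide +kernel, by decide +kernel, by decide +kernel, by decide +kernel, by decide +kernel, by decide +kernel, by decide +kernel, by decide +kernel⟩

def t28049 : allY (E.wth T1) l28049 = true ∧
    allY (E.wth T1) l28050 = true ∧
    allY (E.wth T1) l28051 = true ∧
    allY (E.wth T1) l28052 = true ∧
    allY (E.wth T1) l28053 = true ∧
    allY (E.wth T1) l28054 = true ∧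
    allY (E.wth T1) l28055 = true ∧
    allY (E.wth T1) l28056 = true :=
  ⟨by decide +kernel, by decide +kernel, by decide +kernel, by decide +kernel, by decide +kernel, by decide +kernel, by decide +kernel, by decide +kernel⟩

def t28057 : allY (E.wth T1) l28057 = true ∧
    allY (E.wth T1) l28058 = true ∧
    allY (E.wth T1) l28059 = true ∧
    allY (E.wth T1) l28060 = true ∧
    allY (E.wth T1) l28061 = true ∧
    allY (E.wth T1) l28062 = true ∧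
    allY (E.wth T1) l28063 = true ∧
    allY (E.wth T1) l28064 = true :=
  ⟨by decide +kernel, by decide +kernel, by decide +kernel, by decide +kernel, by decide +kernel, by decide +kernel, by decide +kernel, by decide +kernel⟩

def t28065 : allY (E.wth T1) l28065 = true ∧
    allY (E.wth T1) l28066 = true ∧
    allY (E.wth T1) l28067 = true ∧
    allY (E.wth T1) l28068 = true ∧
    allY (E.wth T1) l28069 = true ∧
    allY (E.wth T1) l28070 = true ∧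
    allY (E.wth T1) l28071 = true ∧
    allY (E.wth T1) l28072 = true :=
  ⟨by decide +kernel, by decide +kernel, by decide +kernel, by decide +kernel, by decide +kernel, by decide +kernel, by decide +kernel, by decide +kernel⟩

def t28073 : allY (E.wth T1) l28073 = true ∧
    allY (E.wth T1) l28074 = true ∧
    allY (E.wth T1) l28075 = true ∧
    allY (E.wth T1) l28076 = true ∧
    allY (E.wth T1) l28077 = true ∧
    allY (E.wth T1) l28078 = true ∧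
    allY (E.wth T1) l28079 = true ∧
    allY (E.wth T1) l28080 = true :=
  ⟨by decide +kernel, by decide +kernel, by decide +kernel, by decide +kernel, by decide +kernel, by decide +kernel, by decide +kernel, by decide +kernel⟩

def t28081 : allY (E.wth T1) l28081 = true ∧
    allY (E.wth T1) l28082 = true ∧
    allY (E.wth T1) l28083 = true ∧
    allY (E.wth T1) l28084 = true ∧
    allY (E.wth T1) l28085 = true ∧
    allY (E.wth T1) l28086 = true ∧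
    allY (E.wth T1) l28087 = true ∧
    allY (E.wth T1) l28088 = true :=
  ⟨by decide +kernel, by decide +kernel, by decide +kernel, by decide +kernel, by decide +kernel, by decide +kernel, by decide +kernel, by decide +kernel⟩

def t28089 : allY (E.wth T1) l28089 = true ∧
    allY (E.wth T1) l28090 = true ∧
    allY (E.wth T1) l28091 = true ∧
    allY (E.wth T1) l28092 = true ∧
    allY (E.wth T1) l28093 = true ∧
    allY (E.wth T1) l28094 = true ∧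
    allY (E.wth T1) l28095 = true ∧
    allY (E.wth T1) l28096 = true :=
  ⟨by decide +kernel, by decide +kernel, by decide +kernel, by decide +kernel, by decide +kernel, by decide +kernel, by decide +kernel, by decide +kernel⟩

def t28097 : allY (E.wth T1) l28097 = true ∧
    allY (E.wth T1) l28098 = true ∧
    allY (E.wth T1) l28099 = true ∧
    allY (E.wth T1) l28100 = true ∧
    allY (E.wth T1) l28101 = true ∧
    allY (E.wth T1) l28102 = true ∧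
    allY (E.wth T1) l28103 = true ∧
    allY (E.wth T1) l28104 = true :=
  ⟨by decide +kernel, by decide +kernel, by decide +kernel, by decide +kernel, by decide +kernel, by decide +kernel, by decide +kernel, by decide +kernel⟩

def t28105 : allY (E.wth T1) l28105 = true ∧
    allY (E.wth T1) l28106 = true ∧
    allY (E.wth T1) l28107 = true ∧
    allY (E.wth T1) l28108 = true ∧
    allY (E.wth T1) l28109 = true ∧
    allY (E.wth T1) l28110 = true ∧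
    allY (E.wth T1) l28111 = true ∧
    allY (E.wth T1) l28112 = true :=
  ⟨by decide +kernel, by decide +kernel, by decide +kernel, by decide +kernel, by decide +kernel, by decide +kernel, by decide +kernel, by decide +kernel⟩

def t28113 : allY (E.wth T1) l28113 = true ∧
    allY (E.wth T1) l28114 = true ∧
    allY (E.wth T1) l28115 = true ∧
    allY (E.wth T1) l28116 = true ∧
    allY (E.wth T1) l28117 = true ∧
    allY (E.wth T1) l28118 = true ∧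
    allY (E.wth T1) l28119 = true ∧
    allY (E.wth T1) l28120 = true :=
  ⟨by decide +kernel, by decide +kernel, by decide +kernel, by decide +kernel, by decide +kernel, by decide +kernel, by decide +kernel, by decide +kernel⟩

def t28121 : allY (E.wth T1) l28121 = true ∧
    allY (E.wth T1) l28122 = true ∧
    allY (E.wth T1) l28123 = true ∧
    allY (E.wth T1) l28124 = true ∧
    allY (E.wth T1) l28125 = true ∧
    allY (E.wth T1) l28126 = true ∧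
    allY (E.wth T1) l28127 = true ∧
    allY (E.wth T1) l28128 = true :=
  ⟨by decide +kernel, by decide +kernel, by decide +kernel, by decide +kernel, by decide +kernel, by decide +kernel, by decide +kernel, by decide +kernel⟩

def t28129 : allY (E.wth T1) l28129 = true ∧
    allY (E.wth T1) l28130 = true ∧
    allY (E.wth T1) l28131 = true ∧
    allY (E.wth T1) l28132 = true ∧
    allY (E.wth T1) l28133 = true ∧
    allY (E.wth T1) l28134 = true ∧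
    allY (E.wth T1) l28135 = true ∧
    allY (E.wth T1) l28136 = true :=
  ⟨by decide +kernel, by decide +kernel, by decide +kernel, by decide +kernel, by decide +kernel, by decide +kernel, by decide +kernel, by decide +kernel⟩

def t28137 : allY (E.wth T1) l28137 = true ∧
    allY (E.wth T1) l28138 = true ∧
    allY (E.wth T1) l28139 = true ∧
    allY (E.wth T1) l28140 = true ∧
    allY (E.wth T1) l28141 = true ∧
    allY (E.wth T1) l28142 = true ∧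
    allY (E.wth T1) l28143 = true ∧
    allY (E.wth T1) l28144 = true :=
  ⟨by decide +kernel, by decide +kernel, by decide +kernel, by decide +kernel, by decide +kernel, by decide +kernel, by decide +kernel, by decide +kernel⟩

def t28145 : allY (E.wth T1) l28145 = true ∧
    allY (E.wth T1) l28146 = true ∧
    allY (E.wth T1) l28147 = true ∧
    allY (E.wth T1) l28148 = true ∧
    allY (E.wth T1) l28149 = true ∧
    allY (E.wth T1) l28150 = true ∧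
    allY (E.wth T1) l28151 = true ∧
    allY (E.wth T1) l28152 = true :=
  ⟨by decide +kernel, by decide +kernel, by decide +kernel, by decide +kernel, by decide +kernel, by decide +kernel, by decide +kernel, by decide +kernel⟩

def t28153 : allY (E.wth T1) l28153 = true ∧
    allY (E.wth T1) l28154 = true ∧
    allY (E.wth T1) l28155 = true ∧
    allY (E.wth T1) l28156 = true ∧
    allY (E.wth T1) l28157 = true ∧
    allY (E.wth T1) l28158 = true ∧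
    allY (E.wth T1) l28159 = true ∧
    allY (E.wth T1) l28160 = true :=
  ⟨by decide +kernel, by decide +kernel, by decide +kernel, by decide +kernel, by decide +kernel, by decide +kernel, by decide +kernel, by decide +kernel⟩

def t28161 : allY (E.wth T1) l28161 = true ∧
    allY (E.wth T1) l28162 = true ∧
    allY (E.wth T1) l28163 = true ∧
    allY (E.wth T1) l28164 = true ∧
    allY (E.wth T1) l28165 = true ∧
    allY (E.wth T1) l28166 = true ∧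
    allY (E.wth T1) l28167 = true ∧
    allY (E.wth T1) l28168 = true :=
  ⟨by decide +kernel, by decide +kernel, by decide +kernel, by decide +kernel, by decide +kernel, by decide +kernel, by decide +kernel, by decide +kernel⟩

def t28169 : allY (E.wth T1) l28169 = true ∧
    allY (E.wth T1) l28170 = true ∧
    allY (E.wth T1) l28171 = true ∧
    allY (E.wth T1) l28172 = true ∧
    allY (E.wth T1) l28173 = true ∧
    allY (E.wth T1) l28174 = true ∧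
    allY (E.wth T1) l28175 = true ∧
    allY (E.wth T1) l28176 = true :=
  ⟨by decide +kernel, by decide +kernel, by decide +kernel, by decide +kernel, by decide +kernel, by decide +kernel, by decide +kernel, by decide +kernel⟩

def t28177 : allY (E.wth T1) l28177 = true ∧
    allY (E.wth T1) l28178 = true ∧
    allY (E.wth T1) l28179 = true ∧
    allY (E.wth T1) l28180 = true ∧
    allY (E.wth T1) l28181 = true ∧
    allY (E.wth T1) l28182 = true ∧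
    allY (E.wth T1) l28183 = true ∧
    allY (E.wth T1) l28184 = true :=
  ⟨by decide +kernel, by decide +kernel, by decide +kernel, by decide +kernel, by decide +kernel, by decide +kernel, by decide +kernel, by decide +kernel⟩

def t28185 : allY (E.wth T1) l28185 = true ∧
    allY (E.wth T1) l28186 = true ∧
    allY (E.wth T1) l28187 = true ∧
    allY (E.wth T1) l28188 = true ∧
    allY (E.wth T1) l28189 = true ∧
    allY (E.wth T1) l28190 = true ∧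
    allY (E.wth T1) l28191 = true ∧
    allY (E.wth T1) l28192 = true :=
  ⟨by decide +kernel, by decide +kernel, by decide +kernel, by decide +kernel, by decide +kernel, by decide +kernel, by decide +kernel, by decide +kernel⟩

def t28193 : allY (E.wth T1) l28193 = true ∧
    allY (E.wth T1) l28194 = true ∧
    allY (E.wth T1) l28195 = true ∧
    allY (E.wth T1) l28196 = true ∧
    allY (E.wth T1) l28197 = true ∧
    allY (E.wth T1) l28198 = true ∧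
    allY (E.wth T1) l28199 = true ∧
    allY (E.wth T1) l28200 = true :=
  ⟨by decide +kernel, by decide +kernel, by decide +kernel, by decide +kernel, by decide +kernel, by decide +kernel, by decide +kernel, by decide +kernel⟩

def t28201 : allY (E.wth T1) l28201 = true ∧
    allY (E.wth T1) l28202 = true ∧
    allY (E.wth T1) l28203 = true ∧
    allY (E.wth T1) l28204 = true ∧
    allY (E.wth T1) l28205 = true ∧
    allY (E.wth T1) l28206 = true ∧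
    allY (E.wth T1) l28207 = true ∧
    allY (E.wth T1) l28208 = true :=
  ⟨by decide +kernel, by decide +kernel, by decide +kernel, by decide +kernel, by decide +kernel, by decide +kernel, by decide +kernel, by decide +kernel⟩

def t28209 : allY (E.wth T1) l28209 = true ∧
    allY (E.wth T1) l28210 = true ∧
    allY (E.wth T1) l28211 = true ∧
    allY (E.wth T1) l28212 = true ∧
    allY (E.wth T1) l28213 = true ∧
    allY (E.wth T1) l28214 = true ∧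
    allY (E.wth T1) l28215 = true ∧
    allY (E.wth T1) l28216 = true :=
  ⟨by decide +kernel, by decide +kernel, by decide +kernel, by decide +kernel, by decide +kernel, by decide +kernel, by decide +kernel, by decide +kernel⟩

def t28217 : allY (E.wth T1) l28217 = true ∧
    allY (E.wth T1) l28218 = true ∧
    allY (E.wth T1) l28219 = true ∧
    allY (E.wth T1) l28220 = true ∧
    allY (E.wth T1) l28221 = true ∧
    allY (E.wth T1) l28222 = true ∧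
    allY (E.wth T1) l28223 = true ∧
    allY (E.wth T1) l28224 = true :=
  ⟨by decide +kernel, by decide +kernel, by decide +kernel, by decide +kernel, by decide +kernel, by decide +kernel, by decide +kernel, by decide +kernel⟩

def t28225 : allY (E.wth T1) l28225 = true ∧
    allY (E.wth T1) l28226 = true ∧
    allY (E.wth T1) l28227 = true ∧
    allY (E.wth T1) l28228 = true ∧
    allY (E.wth T1) l28229 = true ∧
    allY (E.wth T1) l28230 = true ∧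
    allY (E.wth T1) l28231 = true ∧
    allY (E.wth T1) l28232 = true :=
  ⟨by decide +kernel, by decide +kernel, by decide +kernel, by decide +kernel, by decide +kernel, by decide +kernel, by decide +kernel, by decide +kernel⟩

def t28233 : allY (E.wth T1) l28233 = true ∧
    allY (E.wth T1) l28234 = true ∧
    allY (E.wth T1) l28235 = true ∧
    allY (E.wth T1) l28236 = true ∧
    allY (E.wth T1) l28237 = true ∧
    allY (E.wth T1) l28238 = true ∧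
    allY (E.wth T1) l28239 = true ∧
    allY (E.wth T1) l28240 = true :=
  ⟨by decide +kernel, by decide +kernel, by decide +kernel, by decide +kernel, by decide +kernel, by decide +kernel, by decide +kernel, by decide +kernel⟩

def t28241 : allY (E.wth T1) l28241 = true ∧
    allY (E.wth T1) l28242 = true ∧
    allY (E.wth T1) l28243 = true ∧
    allY (E.wth T1) l28244 = true ∧
    allY (E.wth T1) l28245 = true ∧
    allY (E.wth T1) l28246 = true ∧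
    allY (E.wth T1) l28247 = true ∧
    allY (E.wth T1) l28248 = true :=
  ⟨by decide +kernel, by decide +kernel, by decide +kernel, by decide +kernel, by decide +kernel, by decide +kernel, by decide +kernel, by decide +kernel⟩

def t28249 : allY (E.wth T1) l28249 = true ∧
    allY (E.wth T1) l28250 = true ∧
    allY (E.wth T1) l28251 = true ∧
    allY (E.wth T1) l28252 = true ∧
    allY (E.wth T1) l28253 = true ∧
    allY (E.wth T1) l28254 = true ∧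
    allY (E.wth T1) l28255 = true ∧
    allY (E.wth T1) l28256 = true :=
  ⟨by decide +kernel, by decide +kernel, by decide +kernel, by decide +kernel, by decide +kernel, by decide +kernel, by decide +kernel, by decide +kernel⟩

def t28257 : allY (E.wth T1) l28257 = true ∧
    allY (E.wth T1) l28258 = true ∧
    allY (E.wth T1) l28259 = true ∧
    allY (E.wth T1) l28260 = true ∧
    allY (E.wth T1) l28261 = true ∧
    allY (E.wth T1) l28262 = true ∧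
    allY (E.wth T1) l28263 = true ∧
    allY (E.wth T1) l28264 = true :=
  ⟨by decide +kernel, by decide +kernel, by decide +kernel, by decide +kernel, by decide +kernel, by decide +kernel, by decide +kernel, by decide +kernel⟩

def t28265 : allY (E.wth T1) l28265 = true ∧
    allY (E.wth T1) l28266 = true ∧
    allY (E.wth T1) l28267 = true ∧
    allY (E.wth T1) l28268 = true ∧
    allY (E.wth T1) l28269 = true ∧
    allY (E.wth T1) l28270 = true ∧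
    allY (E.wth T1) l28271 = true ∧
    allY (E.wth T1) l28272 = true :=
  ⟨by decide +kernel, by decide +kernel, by decide +kernel, by decide +kernel, by decide +kernel, by decide +kernel, by decide +kernel, by decide +kernel⟩

def t28273 : allY (E.wth T1) l28273 = true ∧
    allY (E.wth T1) l28274 = true ∧
    allY (E.wth T1) l28275 = true ∧
    allY (E.wth T1) l28276 = true ∧
    allY (E.wth T1) l28277 = true ∧
    allY (E.wth T1) l28278 = true ∧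
    allY (E.wth T1) l28279 = true ∧
    allY (E.wth T1) l28280 = true :=
  ⟨by decide +kernel, by decide +kernel, by decide +kernel, by decide +kernel, by decide +kernel, by decide +kernel, by decide +kernel, by decide +kernel⟩

def t28281 : allY (E.wth T1) l28281 = true ∧
    allY (E.wth T1) l28282 = true ∧
    allY (E.wth T1) l28283 = true ∧
    allY (E.wth T1) l28284 = true ∧
    allY (E.wth T1) l28285 = true ∧
    allY (E.wth T1) l28286 = true ∧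
    allY (E.wth T1) l28287 = true ∧
    allY (E.wth T1) l28288 = true :=
  ⟨by decide +kernel, by decide +kernel, by decide +kernel, by decide +kernel, by decide +kernel, by decide +kernel, by decide +kernel, by decide +kernel⟩

def t28289 : allY (E.wth T1) l28289 = true ∧
    allY (E.wth T1) l28290 = true ∧
    allY (E.wth T1) l28291 = true ∧
    allY (E.wth T1) l28292 = true ∧
    allY (E.wth T1) l28293 = true :=
  ⟨by decide +kernel, by decide +kernel, by decide +kernel, by decide +kernel, by decide +kernel⟩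

theorem a50 {p : Rf → Prop} (H : ∀ l, allY (E.wth T1) l = true → (lkp l).All p) :
    b50.All p := ⟨⟨⟨⟨⟨⟨⟨⟨⟨H _ t27753.1, H _ t27753.2.1⟩, ⟨H _ t27753.2.2.1, H _ t27753.2.2.2.1⟩⟩, ⟨⟨H _ t27753.2.2.2.2.1, H _ t27753.2.2.2.2.2.1⟩, ⟨H _ t27753.2.2.2.2.2.2.1, H _ t27753.2.2.2.2.2.2.2⟩⟩⟩, ⟨⟨⟨H _ t27761.1, H _ t27761.2.1⟩, ⟨H _ t27761.2.2.1, H _ t27761.2.2.2.1⟩⟩, ⟨⟨H _ t27761.2.2.2.2.1, H _ t27761.2.2.2.2.2.1⟩, ⟨H _ t27761.2.2.2.2.2.2.1, H _ t27761.2.2.2.2.2.2.2⟩⟩⟩⟩, ⟨⟨⟨⟨H _ t27769.1, H _ t27769.2.1⟩, ⟨H _ t27769.2.2.1, H _ t27769.2.2.2.1⟩⟩, ⟨⟨H _ t27769.2.2.2.2.1, H _ t27769.2.2.2.2.2.1⟩, ⟨H _ t27769.2.2.2.2.2.2.1, H _ t27769.2.2.2.2.2.2.2⟩⟩⟩, ⟨⟨⟨H _ t27777.1, H _ t27777.2.1⟩, ⟨H _ t27777.2.2.1, H _ t27777.2.2.2.1⟩⟩, ⟨⟨H _ t27777.2.2.2.2.1, H _ t27777.2.2.2.2.2.1⟩, ⟨H _ t27777.2.2.2.2.2.2.1, ⟨H _ t27777.2.2.2.2.2.2.2, H _ t27785.1⟩⟩⟩⟩⟩⟩, ⟨⟨⟨⟨⟨H _ t27785.2.1, H _ t27785.2.2.1⟩, ⟨H _ t27785.2.2.2.1,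 H _ t27785.2.2.2.2.1⟩⟩, ⟨⟨H _ t27785.2.2.2.2.2.1, H _ t27785.2.2.2.2.2.2.1⟩, ⟨H _ t27785.2.2.2.2.2.2.2, H _ t27793.1⟩⟩⟩, ⟨⟨⟨H _ t27793.2.1, H _ t27793.2.2.1⟩, ⟨H _ t27793.2.2.2.1, H _ t27793.2.2.2.2.1⟩⟩, ⟨⟨H _ t27793.2.2.2.2.2.1, H _ t27793.2.2.2.2.2.2.1⟩, ⟨H _ t27793.2.2.2.2.2.2.2, ⟨H _ t27801.1, H _ t27801.2.1⟩⟩⟩⟩⟩, ⟨⟨⟨⟨H _ t27801.2.2.1, H _ t27801.2.2.2.1⟩, ⟨H _ t27801.2.2.2.2.1, H _ t27801.2.2.2.2.2.1⟩⟩, ⟨⟨H _ t27801.2.2.2.2.2.2.1, H _ t27801.2.2.2.2.2.2.2⟩, ⟨H _ t27809.1, H _ t27809.2.1⟩⟩⟩, ⟨⟨⟨H _ t27809.2.2.1, H _ t27809.2.2.2.1⟩, ⟨H _ t27809.2.2.2.2.1, H _ t27809.2.2.2.2.2.1⟩⟩, ⟨⟨H _ t27809.2.2.2.2.2.2.1, H _ t27809.2.2.2.2.2.2.2⟩, ⟨H _ t27817.1, ⟨H _ t27817.2.1, H _ t27817.2.2.1⟩⟩⟩⟩⟩⟩⟩, ⟨⟨⟨⟨⟨⟨H _ t27817.2.2.2.1, H _ t27817.2.2.2.2.1⟩, ⟨H _ t27817.2.2.2.2.2.1, H _ t27817.2.2.2.2.2.2.1⟩⟩, ⟨⟨H _ t27817.2.2.2.2.2.2.2, H _ t27825.1⟩, ⟨H _ t27825.2.1, H _ t27825.2.2.1⟩⟩⟩, ⟨⟨⟨H _ t27825.2.2.2.1,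 H _ t27825.2.2.2.2.1⟩, ⟨H _ t27825.2.2.2.2.2.1, H _ t27825.2.2.2.2.2.2.1⟩⟩, ⟨⟨H _ t27825.2.2.2.2.2.2.2, H _ t27833.1⟩, ⟨H _ t27833.2.1, ⟨H _ t27833.2.2.1, H _ t27833.2.2.2.1⟩⟩⟩⟩⟩, ⟨⟨⟨⟨H _ t27833.2.2.2.2.1, H _ t27833.2.2.2.2.2.1⟩, ⟨H _ t27833.2.2.2.2.2.2.1, H _ t27833.2.2.2.2.2.2.2⟩⟩, ⟨⟨H _ t27841.1, H _ t27841.2.1⟩, ⟨H _ t27841.2.2.1, H _ t27841.2.2.2.1⟩⟩⟩, ⟨⟨⟨H _ t27841.2.2.2.2.1, H _ t27841.2.2.2.2.2.1⟩, ⟨H _ t27841.2.2.2.2.2.2.1, H _ t27841.2.2.2.2.2.2.2⟩⟩, ⟨⟨H _ t27849.1, H _ t27849.2.1⟩, ⟨H _ t27849.2.2.1, ⟨H _ t27849.2.2.2.1, H _ t27849.2.2.2.2.1⟩⟩⟩⟩⟩⟩, ⟨⟨⟨⟨⟨H _ t27849.2.2.2.2.2.1, H _ t27849.2.2.2.2.2.2.1⟩, ⟨H _ t27849.2.2.2.2.2.2.2, H _ t27857.1⟩⟩, ⟨⟨H _ t27857.2.1, H _ t27857.2.2.1⟩, ⟨H _ t27857.2.2.2.1, H _ t27857.2.2.2.2.1⟩⟩⟩, ⟨⟨⟨H _ t27857.2.2.2.2.2.1, H _ t27857.2.2.2.2.2.2.1⟩, ⟨H _ t27857.2.2.2.2.2.2.2, H _ t27865.1⟩⟩, ⟨⟨H _ t27865.2.1, H _ t27865.2.2.1⟩, ⟨H _ t27865.2.2.2.1, ⟨H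 _ t27865.2.2.2.2.1, H _ t27865.2.2.2.2.2.1⟩⟩⟩⟩⟩, ⟨⟨⟨⟨H _ t27865.2.2.2.2.2.2.1, H _ t27865.2.2.2.2.2.2.2⟩, ⟨H _ t27873.1, H _ t27873.2.1⟩⟩, ⟨⟨H _ t27873.2.2.1, H _ t27873.2.2.2.1⟩, ⟨H _ t27873.2.2.2.2.1, H _ t27873.2.2.2.2.2.1⟩⟩⟩, ⟨⟨⟨H _ t27873.2.2.2.2.2.2.1, H _ t27873.2.2.2.2.2.2.2⟩, ⟨H _ t27881.1, H _ t27881.2.1⟩⟩, ⟨⟨H _ t27881.2.2.1, H _ t27881.2.2.2.1⟩, ⟨H _ t27881.2.2.2.2.1, ⟨H _ t27881.2.2.2.2.2.1, H _ t27881.2.2.2.2.2.2.1⟩⟩⟩⟩⟩⟩⟩⟩, ⟨⟨⟨⟨⟨⟨⟨H _ t27881.2.2.2.2.2.2.2, H _ t27889.1⟩, ⟨H _ t27889.2.1, H _ t27889.2.2.1⟩⟩, ⟨⟨H _ t27889.2.2.2.1, H _ t27889.2.2.2.2.1⟩, ⟨H _ t27889.2.2.2.2.2.1, H _ t27889.2.2.2.2.2.2.1⟩⟩⟩, ⟨⟨⟨H _ t27889.2.2.2.2.2.2.2, H _ t27897.1⟩, ⟨H _ t27897.2.1, H _ t27897.2.2.1⟩⟩, ⟨⟨H _ t27897.2.2.2.1, H _ t27897.2.2.2.2.1⟩, ⟨H _ t27897.2.2.2.2.2.1, H _ t27897.2.2.2.2.2.2.1⟩⟩⟩⟩, ⟨⟨⟨⟨H _ t27897.2.2.2.2.2.2.2, H _ t27905.1⟩, ⟨H _ t27905.2.1, H _ t27905.2.2.1⟩⟩, ⟨⟨H _ t27905.2.2.2.1,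 H _ t27905.2.2.2.2.1⟩, ⟨H _ t27905.2.2.2.2.2.1, H _ t27905.2.2.2.2.2.2.1⟩⟩⟩, ⟨⟨⟨H _ t27905.2.2.2.2.2.2.2, H _ t27913.1⟩, ⟨H _ t27913.2.1, H _ t27913.2.2.1⟩⟩, ⟨⟨H _ t27913.2.2.2.1, H _ t27913.2.2.2.2.1⟩, ⟨H _ t27913.2.2.2.2.2.1, ⟨H _ t27913.2.2.2.2.2.2.1, H _ t27913.2.2.2.2.2.2.2⟩⟩⟩⟩⟩⟩, ⟨⟨⟨⟨⟨H _ t27921.1, H _ t27921.2.1⟩, ⟨H _ t27921.2.2.1, H _ t27921.2.2.2.1⟩⟩, ⟨⟨H _ t27921.2.2.2.2.1, H _ t27921.2.2.2.2.2.1⟩, ⟨H _ t27921.2.2.2.2.2.2.1, H _ t27921.2.2.2.2.2.2.2⟩⟩⟩, ⟨⟨⟨H _ t27929.1, H _ t27929.2.1⟩, ⟨H _ t27929.2.2.1, H _ t27929.2.2.2.1⟩⟩, ⟨⟨H _ t27929.2.2.2.2.1, H _ t27929.2.2.2.2.2.1⟩, ⟨H _ t27929.2.2.2.2.2.2.1, ⟨H _ t27929.2.2.2.2.2.2.2, H _ t27937.1⟩⟩⟩⟩⟩, ⟨⟨⟨⟨H _ t27937.2.1, H _ t27937.2.2.1⟩, ⟨H _ t27937.2.2.2.1, H _ t27937.2.2.2.2.1⟩⟩, ⟨⟨H _ t27937.2.2.2.2.2.1, H _ t27937.2.2.2.2.2.2.1⟩, ⟨H _ t27937.2.2.2.2.2.2.2, H _ t27945.1⟩⟩⟩, ⟨⟨⟨H _ t27945.2.1, H _ t27945.2.2.1⟩, ⟨H _ t27945.2.2.2.1,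 H _ t27945.2.2.2.2.1⟩⟩, ⟨⟨H _ t27945.2.2.2.2.2.1, H _ t27945.2.2.2.2.2.2.1⟩, ⟨H _ t27945.2.2.2.2.2.2.2, ⟨H _ t27953.1, H _ t27953.2.1⟩⟩⟩⟩⟩⟩⟩, ⟨⟨⟨⟨⟨⟨H _ t27953.2.2.1, H _ t27953.2.2.2.1⟩, ⟨H _ t27953.2.2.2.2.1, H _ t27953.2.2.2.2.2.1⟩⟩, ⟨⟨H _ t27953.2.2.2.2.2.2.1, H _ t27953.2.2.2.2.2.2.2⟩, ⟨H _ t27961.1, H _ t27961.2.1⟩⟩⟩, ⟨⟨⟨H _ t27961.2.2.1, H _ t27961.2.2.2.1⟩, ⟨H _ t27961.2.2.2.2.1, H _ t27961.2.2.2.2.2.1⟩⟩, ⟨⟨H _ t27961.2.2.2.2.2.2.1, H _ t27961.2.2.2.2.2.2.2⟩, ⟨H _ t27969.1, ⟨H _ t27969.2.1, H _ t27969.2.2.1⟩⟩⟩⟩⟩, ⟨⟨⟨⟨H _ t27969.2.2.2.1, H _ t27969.2.2.2.2.1⟩, ⟨H _ t27969.2.2.2.2.2.1, H _ t27969.2.2.2.2.2.2.1⟩⟩, ⟨⟨H _ t27969.2.2.2.2.2.2.2, H _ t27977.1⟩, ⟨H _ t27977.2.1, H _ t27977.2.2.1⟩⟩⟩, ⟨⟨⟨H _ t27977.2.2.2.1, H _ t27977.2.2.2.2.1⟩, ⟨H _ t27977.2.2.2.2.2.1, H _ t27977.2.2.2.2.2.2.1⟩⟩, ⟨⟨H _ t27977.2.2.2.2.2.2.2, H _ t27985.1⟩, ⟨H _ t27985.2.1, ⟨H _ t27985.2.2.1, H _ t27985.2.2.2.1⟩⟩⟩⟩⟩⟩,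 ⟨⟨⟨⟨⟨H _ t27985.2.2.2.2.1, H _ t27985.2.2.2.2.2.1⟩, ⟨H _ t27985.2.2.2.2.2.2.1, H _ t27985.2.2.2.2.2.2.2⟩⟩, ⟨⟨H _ t27993.1, H _ t27993.2.1⟩, ⟨H _ t27993.2.2.1, H _ t27993.2.2.2.1⟩⟩⟩, ⟨⟨⟨H _ t27993.2.2.2.2.1, H _ t27993.2.2.2.2.2.1⟩, ⟨H _ t27993.2.2.2.2.2.2.1, H _ t27993.2.2.2.2.2.2.2⟩⟩, ⟨⟨H _ t28001.1, H _ t28001.2.1⟩, ⟨H _ t28001.2.2.1, ⟨H _ t28001.2.2.2.1, H _ t28001.2.2.2.2.1⟩⟩⟩⟩⟩, ⟨⟨⟨⟨H _ t28001.2.2.2.2.2.1, H _ t28001.2.2.2.2.2.2.1⟩, ⟨H _ t28001.2.2.2.2.2.2.2, H _ t28009.1⟩⟩, ⟨⟨H _ t28009.2.1, H _ t28009.2.2.1⟩, ⟨H _ t28009.2.2.2.1, H _ t28009.2.2.2.2.1⟩⟩⟩, ⟨⟨⟨H _ t28009.2.2.2.2.2.1, H _ t28009.2.2.2.2.2.2.1⟩, ⟨H _ t28009.2.2.2.2.2.2.2, H _ t28017.1⟩⟩, ⟨⟨H _ t28017.2.1, H _ t28017.2.2.1⟩, ⟨H _ t28017.2.2.2.1, ⟨H _ t28017.2.2.2.2.1, H _ t28017.2.2.2.2.2.1⟩⟩⟩⟩⟩⟩⟩⟩⟩, ⟨⟨⟨⟨⟨⟨⟨⟨H _ t28017.2.2.2.2.2.2.1, H _ t28017.2.2.2.2.2.2.2⟩, ⟨H _ t28025.1, H _ t28025.2.1⟩⟩, ⟨⟨H _ t28025.2.2.1, H _ t28025.2.2.2.1⟩,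 ⟨H _ t28025.2.2.2.2.1, H _ t28025.2.2.2.2.2.1⟩⟩⟩, ⟨⟨⟨H _ t28025.2.2.2.2.2.2.1, H _ t28025.2.2.2.2.2.2.2⟩, ⟨H _ t28033.1, H _ t28033.2.1⟩⟩, ⟨⟨H _ t28033.2.2.1, H _ t28033.2.2.2.1⟩, ⟨H _ t28033.2.2.2.2.1, H _ t28033.2.2.2.2.2.1⟩⟩⟩⟩, ⟨⟨⟨⟨H _ t28033.2.2.2.2.2.2.1, H _ t28033.2.2.2.2.2.2.2⟩, ⟨H _ t28041.1, H _ t28041.2.1⟩⟩, ⟨⟨H _ t28041.2.2.1, H _ t28041.2.2.2.1⟩, ⟨H _ t28041.2.2.2.2.1, H _ t28041.2.2.2.2.2.1⟩⟩⟩, ⟨⟨⟨H _ t28041.2.2.2.2.2.2.1, H _ t28041.2.2.2.2.2.2.2⟩, ⟨H _ t28049.1, H _ t28049.2.1⟩⟩, ⟨⟨H _ t28049.2.2.1, H _ t28049.2.2.2.1⟩, ⟨H _ t28049.2.2.2.2.1, ⟨H _ t28049.2.2.2.2.2.1, H _ t28049.2.2.2.2.2.2.1⟩⟩⟩⟩⟩⟩, ⟨⟨⟨⟨⟨H _ t28049.2.2.2.2.2.2.2, H _ t28057.1⟩, ⟨H _ t28057.2.1, H _ t28057.2.2.1⟩⟩, ⟨⟨H _ t28057.2.2.2.1, H _ t28057.2.2.2.2.1⟩, ⟨H _ t28057.2.2.2.2.2.1, H _ t28057.2.2.2.2.2.2.1⟩⟩⟩, ⟨⟨⟨H _ t28057.2.2.2.2.2.2.2, H _ t28065.1⟩, ⟨H _ t28065.2.1, H _ t28065.2.2.1⟩⟩, ⟨⟨H _ t28065.2.2.2.1,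 H _ t28065.2.2.2.2.1⟩, ⟨H _ t28065.2.2.2.2.2.1, ⟨H _ t28065.2.2.2.2.2.2.1, H _ t28065.2.2.2.2.2.2.2⟩⟩⟩⟩⟩, ⟨⟨⟨⟨H _ t28073.1, H _ t28073.2.1⟩, ⟨H _ t28073.2.2.1, H _ t28073.2.2.2.1⟩⟩, ⟨⟨H _ t28073.2.2.2.2.1, H _ t28073.2.2.2.2.2.1⟩, ⟨H _ t28073.2.2.2.2.2.2.1, H _ t28073.2.2.2.2.2.2.2⟩⟩⟩, ⟨⟨⟨H _ t28081.1, H _ t28081.2.1⟩, ⟨H _ t28081.2.2.1, H _ t28081.2.2.2.1⟩⟩, ⟨⟨H _ t28081.2.2.2.2.1, H _ t28081.2.2.2.2.2.1⟩, ⟨H _ t28081.2.2.2.2.2.2.1, ⟨H _ t28081.2.2.2.2.2.2.2, H _ t28089.1⟩⟩⟩⟩⟩⟩⟩, ⟨⟨⟨⟨⟨⟨H _ t28089.2.1, H _ t28089.2.2.1⟩, ⟨H _ t28089.2.2.2.1, H _ t28089.2.2.2.2.1⟩⟩, ⟨⟨H _ t28089.2.2.2.2.2.1, H _ t28089.2.2.2.2.2.2.1⟩, ⟨H _ t28089.2.2.2.2.2.2.2, H _ t28097.1⟩⟩⟩, ⟨⟨⟨H _ t28097.2.1, H _ t28097.2.2.1⟩, ⟨H _ t28097.2.2.2.1, H _ t28097.2.2.2.2.1⟩⟩, ⟨⟨H _ t28097.2.2.2.2.2.1, H _ t28097.2.2.2.2.2.2.1⟩, ⟨H _ t28097.2.2.2.2.2.2.2, ⟨H _ t28105.1, H _ t28105.2.1⟩⟩⟩⟩⟩, ⟨⟨⟨⟨H _ t28105.2.2.1, H _ t28105.2.2.2.1⟩,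 ⟨H _ t28105.2.2.2.2.1, H _ t28105.2.2.2.2.2.1⟩⟩, ⟨⟨H _ t28105.2.2.2.2.2.2.1, H _ t28105.2.2.2.2.2.2.2⟩, ⟨H _ t28113.1, H _ t28113.2.1⟩⟩⟩, ⟨⟨⟨H _ t28113.2.2.1, H _ t28113.2.2.2.1⟩, ⟨H _ t28113.2.2.2.2.1, H _ t28113.2.2.2.2.2.1⟩⟩, ⟨⟨H _ t28113.2.2.2.2.2.2.1, H _ t28113.2.2.2.2.2.2.2⟩, ⟨H _ t28121.1, ⟨H _ t28121.2.1, H _ t28121.2.2.1⟩⟩⟩⟩⟩⟩, ⟨⟨⟨⟨⟨H _ t28121.2.2.2.1, H _ t28121.2.2.2.2.1⟩, ⟨H _ t28121.2.2.2.2.2.1, H _ t28121.2.2.2.2.2.2.1⟩⟩, ⟨⟨H _ t28121.2.2.2.2.2.2.2, H _ t28129.1⟩, ⟨H _ t28129.2.1, H _ t28129.2.2.1⟩⟩⟩, ⟨⟨⟨H _ t28129.2.2.2.1, H _ t28129.2.2.2.2.1⟩, ⟨H _ t28129.2.2.2.2.2.1, H _ t28129.2.2.2.2.2.2.1⟩⟩, ⟨⟨H _ t28129.2.2.2.2.2.2.2, H _ t28137.1⟩, ⟨H _ t28137.2.1, ⟨H _ t28137.2.2.1, H _ t28137.2.2.2.1⟩⟩⟩⟩⟩, ⟨⟨⟨⟨H _ t28137.2.2.2.2.1, H _ t28137.2.2.2.2.2.1⟩, ⟨H _ t28137.2.2.2.2.2.2.1, H _ t28137.2.2.2.2.2.2.2⟩⟩, ⟨⟨H _ t28145.1, H _ t28145.2.1⟩, ⟨H _ t28145.2.2.1, H _ t28145.2.2.2.1⟩⟩⟩,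 ⟨⟨⟨H _ t28145.2.2.2.2.1, H _ t28145.2.2.2.2.2.1⟩, ⟨H _ t28145.2.2.2.2.2.2.1, H _ t28145.2.2.2.2.2.2.2⟩⟩, ⟨⟨H _ t28153.1, H _ t28153.2.1⟩, ⟨H _ t28153.2.2.1, ⟨H _ t28153.2.2.2.1, H _ t28153.2.2.2.2.1⟩⟩⟩⟩⟩⟩⟩⟩, ⟨⟨⟨⟨⟨⟨⟨H _ t28153.2.2.2.2.2.1, H _ t28153.2.2.2.2.2.2.1⟩, ⟨H _ t28153.2.2.2.2.2.2.2, H _ t28161.1⟩⟩, ⟨⟨H _ t28161.2.1, H _ t28161.2.2.1⟩, ⟨H _ t28161.2.2.2.1, H _ t28161.2.2.2.2.1⟩⟩⟩, ⟨⟨⟨H _ t28161.2.2.2.2.2.1, H _ t28161.2.2.2.2.2.2.1⟩, ⟨H _ t28161.2.2.2.2.2.2.2, H _ t28169.1⟩⟩, ⟨⟨H _ t28169.2.1, H _ t28169.2.2.1⟩, ⟨H _ t28169.2.2.2.1, ⟨H _ t28169.2.2.2.2.1, H _ t28169.2.2.2.2.2.1⟩⟩⟩⟩⟩, ⟨⟨⟨⟨H _ t28169.2.2.2.2.2.2.1, H _ t28169.2.2.2.2.2.2.2⟩, ⟨H _ t28177.1, H _ t28177.2.1⟩⟩, ⟨⟨H _ t28177.2.2.1, H _ t28177.2.2.2.1⟩, ⟨H _ t28177.2.2.2.2.1, H _ t28177.2.2.2.2.2.1⟩⟩⟩, ⟨⟨⟨H _ t28177.2.2.2.2.2.2.1, H _ t28177.2.2.2.2.2.2.2⟩, ⟨H _ t28185.1, H _ t28185.2.1⟩⟩, ⟨⟨H _ t28185.2.2.1, H _ t28185.2.2.2.1⟩,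 ⟨H _ t28185.2.2.2.2.1, ⟨H _ t28185.2.2.2.2.2.1, H _ t28185.2.2.2.2.2.2.1⟩⟩⟩⟩⟩⟩, ⟨⟨⟨⟨⟨H _ t28185.2.2.2.2.2.2.2, H _ t28193.1⟩, ⟨H _ t28193.2.1, H _ t28193.2.2.1⟩⟩, ⟨⟨H _ t28193.2.2.2.1, H _ t28193.2.2.2.2.1⟩, ⟨H _ t28193.2.2.2.2.2.1, H _ t28193.2.2.2.2.2.2.1⟩⟩⟩, ⟨⟨⟨H _ t28193.2.2.2.2.2.2.2, H _ t28201.1⟩, ⟨H _ t28201.2.1, H _ t28201.2.2.1⟩⟩, ⟨⟨H _ t28201.2.2.2.1, H _ t28201.2.2.2.2.1⟩, ⟨H _ t28201.2.2.2.2.2.1, ⟨H _ t28201.2.2.2.2.2.2.1, H _ t28201.2.2.2.2.2.2.2⟩⟩⟩⟩⟩, ⟨⟨⟨⟨H _ t28209.1, H _ t28209.2.1⟩, ⟨H _ t28209.2.2.1, H _ t28209.2.2.2.1⟩⟩, ⟨⟨H _ t28209.2.2.2.2.1, H _ t28209.2.2.2.2.2.1⟩, ⟨H _ t28209.2.2.2.2.2.2.1, H _ t28209.2.2.2.2.2.2.2⟩⟩⟩, ⟨⟨⟨H _ t28217.1, H _ t28217.2.1⟩, ⟨H _ t28217.2.2.1, H _ t28217.2.2.2.1⟩⟩, ⟨⟨H _ t28217.2.2.2.2.1, H _ t28217.2.2.2.2.2.1⟩, ⟨H _ t28217.2.2.2.2.2.2.1, ⟨H _ t28217.2.2.2.2.2.2.2, H _ t28225.1⟩⟩⟩⟩⟩⟩⟩, ⟨⟨⟨⟨⟨⟨H _ t28225.2.1, H _ t28225.2.2.1⟩, ⟨H _ t28225.2.2.2.1,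 H _ t28225.2.2.2.2.1⟩⟩, ⟨⟨H _ t28225.2.2.2.2.2.1, H _ t28225.2.2.2.2.2.2.1⟩, ⟨H _ t28225.2.2.2.2.2.2.2, H _ t28233.1⟩⟩⟩, ⟨⟨⟨H _ t28233.2.1, H _ t28233.2.2.1⟩, ⟨H _ t28233.2.2.2.1, H _ t28233.2.2.2.2.1⟩⟩, ⟨⟨H _ t28233.2.2.2.2.2.1, H _ t28233.2.2.2.2.2.2.1⟩, ⟨H _ t28233.2.2.2.2.2.2.2, ⟨H _ t28241.1, H _ t28241.2.1⟩⟩⟩⟩⟩, ⟨⟨⟨⟨H _ t28241.2.2.1, H _ t28241.2.2.2.1⟩, ⟨H _ t28241.2.2.2.2.1, H _ t28241.2.2.2.2.2.1⟩⟩, ⟨⟨H _ t28241.2.2.2.2.2.2.1, H _ t28241.2.2.2.2.2.2.2⟩, ⟨H _ t28249.1, H _ t28249.2.1⟩⟩⟩, ⟨⟨⟨H _ t28249.2.2.1, H _ t28249.2.2.2.1⟩, ⟨H _ t28249.2.2.2.2.1, H _ t28249.2.2.2.2.2.1⟩⟩, ⟨⟨H _ t28249.2.2.2.2.2.2.1, H _ t28249.2.2.2.2.2.2.2⟩, ⟨H _ t28257.1, ⟨H _ t28257.2.1, H _ t28257.2.2.1⟩⟩⟩⟩⟩⟩, ⟨⟨⟨⟨⟨H _ t28257.2.2.2.1, H _ t28257.2.2.2.2.1⟩, ⟨H _ t28257.2.2.2.2.2.1, H _ t28257.2.2.2.2.2.2.1⟩⟩, ⟨⟨H _ t28257.2.2.2.2.2.2.2, H _ t28265.1⟩, ⟨H _ t28265.2.1, H _ t28265.2.2.1⟩⟩⟩, ⟨⟨⟨H _ t28265.2.2.2.1,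 H _ t28265.2.2.2.2.1⟩, ⟨H _ t28265.2.2.2.2.2.1, H _ t28265.2.2.2.2.2.2.1⟩⟩, ⟨⟨H _ t28265.2.2.2.2.2.2.2, H _ t28273.1⟩, ⟨H _ t28273.2.1, ⟨H _ t28273.2.2.1, H _ t28273.2.2.2.1⟩⟩⟩⟩⟩, ⟨⟨⟨⟨H _ t28273.2.2.2.2.1, H _ t28273.2.2.2.2.2.1⟩, ⟨H _ t28273.2.2.2.2.2.2.1, H _ t28273.2.2.2.2.2.2.2⟩⟩, ⟨⟨H _ t28281.1, H _ t28281.2.1⟩, ⟨H _ t28281.2.2.1, H _ t28281.2.2.2.1⟩⟩⟩, ⟨⟨⟨H _ t28281.2.2.2.2.1, H _ t28281.2.2.2.2.2.1⟩, ⟨H _ t28281.2.2.2.2.2.2.1, H _ t28281.2.2.2.2.2.2.2⟩⟩, ⟨⟨H _ t28289.1, H _ t28289.2.1⟩, ⟨H _ t28289.2.2.1, ⟨H _ t28289.2.2.2.1, H _ t28289.2.2.2.2⟩⟩⟩⟩⟩⟩⟩⟩⟩⟩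

end Pool.Agent.MP_c853c5_nt.X.C4950
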