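import Pool.Agent.MP_c853c5_nt.X.C4950.Env
import Pool.Agent.MP_c853c5_nt.X.C4950.Tab

set_option autoImplicit false
set_option maxRecDepth 8192
set_option linter.all false

namespace Pool.Agent.MP_c853c5_nt.X.C4950

open Pool.Agent.MP_c853c5_nt.X

def t28294 : allY (E.wth T1) l28294 = true ∧
    allY (E.wth T1) l28295 = true ∧
    allY (E.wth T1) l28296 = true ∧
    allY (E.wth T1) l28297 = true ∧
    allY (E.wth T1) l28298 = true ∧
    allY (E.wth T1) l28299 = true ∧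
    allY (E.wth T1) l28300 = true ∧
    allY (E.wth T1) l28301 = true :=
  ⟨by decide +kernel, by decide +kernel, by decide +kernel, by decide +kernel, by decide +kernel, by decide +kernel, by decide +kernel, by decide +kernel⟩

def t28302 : allY (E.wth T1) l28302 = true ∧
    allY (E.wth T1) l28303 = true ∧
    allY (E.wth T1) l28304 = true ∧
    allY (E.wth T1) l28305 = true ∧
    allY (E.wth T1) l28306 = true ∧
    allY (E.wth T1) l28307 = true ∧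
    allY (E.wth T1) l28308 = true ∧
    allY (E.wth T1) l28309 = true :=
  ⟨by decide +kernel, by decide +kernel, by decide +kernel, by decide +kernel, by decide +kernel, by decide +kernel, by decide +kernel, by decide +kernel⟩

def t28310 : allY (E.wth T1) l28310 = true ∧
    allY (E.wth T1) l28311 = true ∧
    allY (E.wth T1) l28312 = true ∧
    allY (E.wth T1) l28313 = true ∧
    allY (E.wth T1) l28314 = true ∧
    allY (E.wth T1) l28315 = true ∧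
    allY (E.wth T1) l28316 = true ∧
    allY (E.wth T1) l28317 = true :=
  ⟨by decide +kernel, by decide +kernel, by decide +kernel, by decide +kernel, by decide +kernel, by decide +kernel, by decide +kernel, by decide +kernel⟩

def t28318 : allY (E.wth T1) l28318 = true ∧
    allY (E.wth T1) l28319 = true ∧
    allY (E.wth T1) l28320 = true ∧
    allY (E.wth T1) l28321 = true ∧
    allY (E.wth T1) l28322 = true ∧
    allY (E.wth T1) l28323 = true ∧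
    allY (E.wth T1) l28324 = true ∧
    allY (E.wth T1) l28325 = true :=
  ⟨by decide +kernel, by decide +kernel, by decide +kernel, by decide +kernel, by decide +kernel, by decide +kernel, by decide +kernel, by decide +kernel⟩

def t28326 : allY (E.wth T1) l28326 = true ∧
    allY (E.wth T1) l28327 = true ∧
    allY (E.wth T1) l28328 = true ∧
    allY (E.wth T1) l28329 = true ∧
    allY (E.wth T1) l28330 = true ∧
    allY (E.wth T1) l28331 = true ∧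
    allY (E.wth T1) l28332 = true ∧
    allY (E.wth T1) l28333 = true :=
  ⟨by decide +kernel, by decide +kernel, by decide +kernel, by decide +kernel, by decide +kernel, by decide +kernel, by decide +kernel, by decide +kernel⟩

def t28334 : allY (E.wth T1) l28334 = true ∧
    allY (E.wth T1) l28335 = true ∧
    allY (E.wth T1) l28336 = true ∧
    allY (E.wth T1) l28337 = true ∧
    allY (E.wth T1) l28338 = true ∧
    allY (E.wth T1) l28339 = true ∧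
    allY (E.wth T1) l28340 = true ∧
    allY (E.wth T1) l28341 = true :=
  ⟨by decide +kernel, by decide +kernel, by decide +kernel, by decide +kernel, by decide +kernel, by decide +kernel, by decide +kernel, by decide +kernel⟩

def t28342 : allY (E.wth T1) l28342 = true ∧
    allY (E.wth T1) l28343 = true ∧
    allY (E.wth T1) l28344 = true ∧
    allY (E.wth T1) l28345 = true ∧
    allY (E.wth T1) l28346 = true ∧
    allY (E.wth T1) l28347 = true ∧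
    allY (E.wth T1) l28348 = true ∧
    allY (E.wth T1) l28349 = true :=
  ⟨by decide +kernel, by decide +kernel, by decide +kernel, by decide +kernel, by decide +kernel, by decide +kernel, by decide +kernel, by decide +kernel⟩

def t28350 : allY (E.wth T1) l28350 = true ∧
    allY (E.wth T1) l28351 = true ∧
    allY (E.wth T1) l28352 = true ∧
    allY (E.wth T1) l28353 = true ∧
    allY (E.wth T1) l28354 = true ∧
    allY (E.wth T1) l28355 = true ∧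
    allY (E.wth T1) l28356 = true ∧
    allY (E.wth T1) l28357 = true :=
  ⟨by decide +kernel, by decide +kernel, by decide +kernel, by decide +kernel, by decide +kernel, by decide +kernel, by decide +kernel, by decide +kernel⟩

def t28358 : allY (E.wth T1) l28358 = true ∧
    allY (E.wth T1) l28359 = true ∧
    allY (E.wth T1) l28360 = true ∧
    allY (E.wth T1) l28361 = true ∧
    allY (E.wth T1) l28362 = true ∧
    allY (E.wth T1) l28363 = true ∧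
    allY (E.wth T1) l28364 = true ∧
    allY (E.wth T1) l28365 = true :=
  ⟨by decide +kernel, by decide +kernel, by decide +kernel, by decide +kernel, by decide +kernel, by decide +kernel, by decide +kernel, by decide +kernel⟩

def t28366 : allY (E.wth T1) l28366 = true ∧
    allY (E.wth T1) l28367 = true ∧
    allY (E.wth T1) l28368 = true ∧
    allY (E.wth T1) l28369 = true ∧
    allY (E.wth T1) l28370 = true ∧
    allY (E.wth T1) l28371 = true ∧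
    allY (E.wth T1) l28372 = true ∧
    allY (E.wth T1) l28373 = true :=
  ⟨by decide +kernel, by decide +kernel, by decide +kernel, by decide +kernel, by decide +kernel, by decide +kernel, by decide +kernel, by decide +kernel⟩

def t28374 : allY (E.wth T1) l28374 = true ∧
    allY (E.wth T1) l28375 = true ∧
    allY (E.wth T1) l28376 = true ∧
    allY (E.wth T1) l28377 = true ∧
    allY (E.wth T1) l28378 = true ∧
    allY (E.wth T1) l28379 = true ∧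
    allY (E.wth T1) l28380 = true ∧
    allY (E.wth T1) l28381 = true :=
  ⟨by decide +kernel, by decide +kernel, by decide +kernel, by decide +kernel, by decide +kernel, by decide +kernel, by decide +kernel, by decide +kernel⟩

def t28382 : allY (E.wth T1) l28382 = true ∧
    allY (E.wth T1) l28383 = true ∧
    allY (E.wth T1) l28384 = true ∧
    allY (E.wth T1) l28385 = true ∧
    allY (E.wth T1) l28386 = true ∧
    allY (E.wth T1) l28387 = true ∧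
    allY (E.wth T1) l28388 = true ∧
    allY (E.wth T1) l28389 = true :=
  ⟨by decide +kernel, by decide +kernel, by decide +kernel, by decide +kernel, by decide +kernel, by decide +kernel, by decide +kernel, by decide +kernel⟩

def t28390 : allY (E.wth T1) l28390 = true ∧
    allY (E.wth T1) l28391 = true ∧
    allY (E.wth T1) l28392 = true ∧
    allY (E.wth T1) l28393 = true ∧
    allY (E.wth T1) l28394 = true ∧
    allY (E.wth T1) l28395 = true ∧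
    allY (E.wth T1) l28396 = true ∧
    allY (E.wth T1) l28397 = true :=
  ⟨by decide +kernel, by decide +kernel, by decide +kernel, by decide +kernel, by decide +kernel, by decide +kernel, by decide +kernel, by decide +kernel⟩

def t28398 : allY (E.wth T1) l28398 = true ∧
    allY (E.wth T1) l28399 = true ∧
    allY (E.wth T1) l28400 = true ∧
    allY (E.wth T1) l28401 = true ∧
    allY (E.wth T1) l28402 = true ∧
    allY (E.wth T1) l28403 = true ∧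
    allY (E.wth T1) l28404 = true ∧
    allY (E.wth T1) l28405 = true :=
  ⟨by decide +kernel, by decide +kernel, by decide +kernel, by decide +kernel, by decide +kernel, by decide +kernel, by decide +kernel, by decide +kernel⟩

def t28406 : allY (E.wth T1) l28406 = true ∧
    allY (E.wth T1) l28407 = true ∧
    allY (E.wth T1) l28408 = true ∧
    allY (E.wth T1) l28409 = true ∧
    allY (E.wth T1) l28410 = true ∧
    allY (E.wth T1) l28411 = true ∧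
    allY (E.wth T1) l28412 = true ∧
    allY (E.wth T1) l28413 = true :=
  ⟨by decide +kernel, by decide +kernel, by decide +kernel, by decide +kernel, by decide +kernel, by decide +kernel, by decide +kernel, by decide +kernel⟩

def t28414 : allY (E.wth T1) l28414 = true ∧
    allY (E.wth T1) l28415 = true ∧
    allY (E.wth T1) l28416 = true ∧
    allY (E.wth T1) l28417 = true ∧
    allY (E.wth T1) l28418 = true ∧
    allY (E.wth T1) l28419 = true ∧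
    allY (E.wth T1) l28420 = true ∧
    allY (E.wth T1) l28421 = true :=
  ⟨by decide +kernel, by decide +kernel, by decide +kernel, by decide +kernel, by decide +kernel, by decide +kernel, by decide +kernel, by decide +kernel⟩

def t28422 : allY (E.wth T1) l28422 = true ∧
    allY (E.wth T1) l28423 = true ∧
    allY (E.wth T1) l28424 = true ∧
    allY (E.wth T1) l28425 = true ∧
    allY (E.wth T1) l28426 = true ∧
    allY (E.wth T1) l28427 = true ∧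
    allY (E.wth T1) l28428 = true ∧
    allY (E.wth T1) l28429 = true :=
  ⟨by decide +kernel, by decide +kernel, by decide +kernel, by decide +kernel, by decide +kernel, by decide +kernel, by decide +kernel, by decide +kernel⟩

def t28430 : allY (E.wth T1) l28430 = true ∧
    allY (E.wth T1) l28431 = true ∧
    allY (E.wth T1) l28432 = true ∧
    allY (E.wth T1) l28433 = true ∧
    allY (E.wth T1) l28434 = true ∧
    allY (E.wth T1) l28435 = true ∧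
    allY (E.wth T1) l28436 = true ∧
    allY (E.wth T1) l28437 = true :=
  ⟨by decide +kernel, by decide +kernel, by decide +kernel, by decide +kernel, by decide +kernel, by decide +kernel, by decide +kernel, by decide +kernel⟩

def t28438 : allY (E.wth T1) l28438 = true ∧
    allY (E.wth T1) l28439 = true ∧
    allY (E.wth T1) l28440 = true ∧
    allY (E.wth T1) l28441 = true ∧
    allY (E.wth T1) l28442 = true ∧
    allY (E.wth T1) l28443 = true ∧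
    allY (E.wth T1) l28444 = true ∧
    allY (E.wth T1) l28445 = true :=
  ⟨by decide +kernel, by decide +kernel, by decide +kernel, by decide +kernel, by decide +kernel, by decide +kernel, by decide +kernel, by decide +kernel⟩

def t28446 : allY (E.wth T1) l28446 = true ∧
    allY (E.wth T1) l28447 = true ∧
    allY (E.wth T1) l28448 = true ∧
    allY (E.wth T1) l28449 = true ∧
    allY (E.wth T1) l28450 = true ∧
    allY (E.wth T1) l28451 = true ∧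
    allY (E.wth T1) l28452 = true ∧
    allY (E.wth T1) l28453 = true :=
  ⟨by decide +kernel, by decide +kernel, by decide +kernel, by decide +kernel, by decide +kernel, by decide +kernel, by decide +kernel, by decide +kernel⟩

def t28454 : allY (E.wth T1) l28454 = true ∧
    allY (E.wth T1) l28455 = true ∧
    allY (E.wth T1) l28456 = true ∧
    allY (E.wth T1) l28457 = true ∧
    allY (E.wth T1) l28458 = true ∧
    allY (E.wth T1) l28459 = true ∧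
    allY (E.wth T1) l28460 = true ∧
    allY (E.wth T1) l28461 = true :=
  ⟨by decide +kernel, by decide +kernel, by decide +kernel, by decide +kernel, by decide +kernel, by decide +kernel, by decide +kernel, by decide +kernel⟩

def t28462 : allY (E.wth T1) l28462 = true ∧
    allY (E.wth T1) l28463 = true ∧
    allY (E.wth T1) l28464 = true ∧
    allY (E.wth T1) l28465 = true ∧
    allY (E.wth T1) l28466 = true ∧
    allY (E.wth T1) l28467 = true ∧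
    allY (E.wth T1) l28468 = true ∧
    allY (E.wth T1) l28469 = true :=
  ⟨by decide +kernel, by decide +kernel, by decide +kernel, by decide +kernel, by decide +kernel, by decide +kernel, by decide +kernel, by decide +kernel⟩

def t28470 : allY (E.wth T1) l28470 = true ∧
    allY (E.wth T1) l28471 = true ∧
    allY (E.wth T1) l28472 = true ∧
    allY (E.wth T1) l28473 = true ∧
    allY (E.wth T1) l28474 = true ∧
    allY (E.wth T1) l28475 = true ∧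
    allY (E.wth T1) l28476 = true ∧
    allY (E.wth T1) l28477 = true :=
  ⟨by decide +kernel, by decide +kernel, by decide +kernel, by decide +kernel, by decide +kernel, by decide +kernel, by decide +kernel, by decide +kernel⟩

def t28478 : allY (E.wth T1) l28478 = true ∧
    allY (E.wth T1) l28479 = true ∧
    allY (E.wth T1) l28480 = true ∧
    allY (E.wth T1) l28481 = true ∧
    allY (E.wth T1) l28482 = true ∧
    allY (E.wth T1) l28483 = true ∧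
    allY (E.wth T1) l28484 = true ∧
    allY (E.wth T1) l28485 = true :=
  ⟨by decide +kernel, by decide +kernel, by decide +kernel, by decide +kernel, by decide +kernel, by decide +kernel, by decide +kernel, by decide +kernel⟩

def t28486 : allY (E.wth T1) l28486 = true ∧
    allY (E.wth T1) l28487 = true ∧
    allY (E.wth T1) l28488 = true ∧
    allY (E.wth T1) l28489 = true ∧
    allY (E.wth T1) l28490 = true ∧
    allY (E.wth T1) l28491 = true ∧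
    allY (E.wth T1) l28492 = true ∧
    allY (E.wth T1) l28493 = true :=
  ⟨by decide +kernel, by decide +kernel, by decide +kernel, by decide +kernel, by decide +kernel, by decide +kernel, by decide +kernel, by decide +kernel⟩

def t28494 : allY (E.wth T1) l28494 = true ∧
    allY (E.wth T1) l28495 = true ∧
    allY (E.wth T1) l28496 = true ∧
    allY (E.wth T1) l28497 = true ∧
    allY (E.wth T1) l28498 = true ∧
    allY (E.wth T1) l28499 = true ∧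
    allY (E.wth T1) l28500 = true ∧
    allY (E.wth T1) l28501 = true :=
  ⟨by decide +kernel, by decide +kernel, by decide +kernel, by decide +kernel, by decide +kernel, by decide +kernel, by decide +kernel, by decide +kernel⟩

def t28502 : allY (E.wth T1) l28502 = true ∧
    allY (E.wth T1) l28503 = true ∧
    allY (E.wth T1) l28504 = true ∧
    allY (E.wth T1) l28505 = true ∧
    allY (E.wth T1) l28506 = true ∧
    allY (E.wth T1) l28507 = true ∧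
    allY (E.wth T1) l28508 = true ∧
    allY (E.wth T1) l28509 = true :=
  ⟨by decide +kernel, by decide +kernel, by decide +kernel, by decide +kernel, by decide +kernel, by decide +kernel, by decide +kernel, by decide +kernel⟩

def t28510 : allY (E.wth T1) l28510 = true ∧
    allY (E.wth T1) l28511 = true ∧
    allY (E.wth T1) l28512 = true ∧
    allY (E.wth T1) l28513 = true ∧
    allY (E.wth T1) l28514 = true ∧
    allY (E.wth T1) l28515 = true ∧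
    allY (E.wth T1) l28516 = true ∧
    allY (E.wth T1) l28517 = true :=
  ⟨by decide +kernel, by decide +kernel, by decide +kernel, by decide +kernel, by decide +kernel, by decide +kernel, by decide +kernel, by decide +kernel⟩

def t28518 : allY (E.wth T1) l28518 = true ∧
    allY (E.wth T1) l28519 = true ∧
    allY (E.wth T1) l28520 = true ∧
    allY (E.wth T1) l28521 = true ∧
    allY (E.wth T1) l28522 = true ∧
    allY (E.wth T1) l28523 = true ∧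
    allY (E.wth T1) l28524 = true ∧
    allY (E.wth T1) l28525 = true :=
  ⟨by decide +kernel, by decide +kernel, by decide +kernel, by decide +kernel, by decide +kernel, by decide +kernel, by decide +kernel, by decide +kernel⟩

def t28526 : allY (E.wth T1) l28526 = true ∧
    allY (E.wth T1) l28527 = true ∧
    allY (E.wth T1) l28528 = true ∧
    allY (E.wth T1) l28529 = true ∧
    allY (E.wth T1) l28530 = true ∧
    allY (E.wth T1) l28531 = true ∧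
    allY (E.wth T1) l28532 = true ∧
    allY (E.wth T1) l28533 = true :=
  ⟨by decide +kernel, by decide +kernel, by decide +kernel, by decide +kernel, by decide +kernel, by decide +kernel, by decide +kernel, by decide +kernel⟩

def t28534 : allY (E.wth T1) l28534 = true ∧
    allY (E.wth T1) l28535 = true ∧
    allY (E.wth T1) l28536 = true ∧
    allY (E.wth T1) l28537 = true ∧
    allY (E.wth T1) l28538 = true ∧
    allY (E.wth T1) l28539 = true ∧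
    allY (E.wth T1) l28540 = true ∧
    allY (E.wth T1) l28541 = true :=
  ⟨by decide +kernel, by decide +kernel, by decide +kernel, by decide +kernel, by decide +kernel, by decide +kernel, by decide +kernel, by decide +kernel⟩

def t28542 : allY (E.wth T1) l28542 = true ∧
    allY (E.wth T1) l28543 = true ∧
    allY (E.wth T1) l28544 = true ∧
    allY (E.wth T1) l28545 = true ∧
    allY (E.wth T1) l28546 = true ∧
    allY (E.wth T1) l28547 = true ∧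
    allY (E.wth T1) l28548 = true ∧
    allY (E.wth T1) l28549 = true :=
  ⟨by decide +kernel, by decide +kernel, by decide +kernel, by decide +kernel, by decide +kernel, by decide +kernel, by decide +kernel, by decide +kernel⟩

def t28550 : allY (E.wth T1) l28550 = true ∧
    allY (E.wth T1) l28551 = true ∧
    allY (E.wth T1) l28552 = true ∧
    allY (E.wth T1) l28553 = true ∧
    allY (E.wth T1) l28554 = true ∧
    allY (E.wth T1) l28555 = true ∧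
    allY (E.wth T1) l28556 = true ∧
    allY (E.wth T1) l28557 = true :=
  ⟨by decide +kernel, by decide +kernel, by decide +kernel, by decide +kernel, by decide +kernel, by decide +kernel, by decide +kernel, by decide +kernel⟩

def t28558 : allY (E.wth T1) l28558 = true ∧
    allY (E.wth T1) l28559 = true ∧
    allY (E.wth T1) l28560 = true ∧
    allY (E.wth T1) l28561 = true ∧
    allY (E.wth T1) l28562 = true ∧
    allY (E.wth T1) l28563 = true ∧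
    allY (E.wth T1) l28564 = true ∧
    allY (E.wth T1) l28565 = true :=
  ⟨by decide +kernel, by decide +kernel, by decide +kernel, by decide +kernel, by decide +kernel, by decide +kernel, by decide +kernel, by decide +kernel⟩

def t28566 : allY (E.wth T1) l28566 = true ∧
    allY (E.wth T1) l28567 = true ∧
    allY (E.wth T1) l28568 = true ∧
    allY (E.wth T1) l28569 = true ∧
    allY (E.wth T1) l28570 = true ∧
    allY (E.wth T1) l28571 = true ∧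
    allY (E.wth T1) l28572 = true ∧
    allY (E.wth T1) l28573 = true :=
  ⟨by decide +kernel, by decide +kernel, by decide +kernel, by decide +kernel, by decide +kernel, by decide +kernel, by decide +kernel, by decide +kernel⟩

def t28574 : allY (E.wth T1) l28574 = true ∧
    allY (E.wth T1) l28575 = true ∧
    allY (E.wth T1) l28576 = true ∧
    allY (E.wth T1) l28577 = true ∧
    allY (E.wth T1) l28578 = true ∧
    allY (E.wth T1) l28579 = true ∧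
    allY (E.wth T1) l28580 = true ∧
    allY (E.wth T1) l28581 = true :=
  ⟨by decide +kernel, by decide +kernel, by decide +kernel, by decide +kernel, by decide +kernel, by decide +kernel, by decide +kernel, by decide +kernel⟩

def t28582 : allY (E.wth T1) l28582 = true ∧
    allY (E.wth T1) l28583 = true ∧
    allY (E.wth T1) l28584 = true ∧
    allY (E.wth T1) l28585 = true ∧
    allY (E.wth T1) l28586 = true ∧
    allY (E.wth T1) l28587 = true ∧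
    allY (E.wth T1) l28588 = true ∧
    allY (E.wth T1) l28589 = true :=
  ⟨by decide +kernel, by decide +kernel, by decide +kernel, by decide +kernel, by decide +kernel, by decide +kernel, by decide +kernel, by decide +kernel⟩

def t28590 : allY (E.wth T1) l28590 = true ∧
    allY (E.wth T1) l28591 = true ∧
    allY (E.wth T1) l28592 = true ∧
    allY (E.wth T1) l28593 = true ∧
    allY (E.wth T1) l28594 = true ∧
    allY (E.wth T1) l28595 = true ∧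
    allY (E.wth T1) l28596 = true ∧
    allY (E.wth T1) l28597 = true :=
  ⟨by decide +kernel, by decide +kernel, by decide +kernel, by decide +kernel, by decide +kernel, by decide +kernel, by decide +kernel, by decide +kernel⟩

def t28598 : allY (E.wth T1) l28598 = true ∧
    allY (E.wth T1) l28599 = true ∧
    allY (E.wth T1) l28600 = true ∧
    allY (E.wth T1) l28601 = true ∧
    allY (E.wth T1) l28602 = true ∧
    allY (E.wth T1) l28603 = true ∧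
    allY (E.wth T1) l28604 = true ∧
    allY (E.wth T1) l28605 = true :=
  ⟨by decide +kernel, by decide +kernel, by decide +kernel, by decide +kernel, by decide +kernel, by decide +kernel, by decide +kernel, by decide +kernel⟩

def t28606 : allY (E.wth T1) l28606 = true ∧
    allY (E.wth T1) l28607 = true ∧
    allY (E.wth T1) l28608 = true ∧
    allY (E.wth T1) l28609 = true ∧
    allY (E.wth T1) l28610 = true ∧
    allY (E.wth T1) l28611 = true ∧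
    allY (E.wth T1) l28612 = true ∧
    allY (E.wth T1) l28613 = true :=
  ⟨by decide +kernel, by decide +kernel, by decide +kernel, by decide +kernel, by decide +kernel, by decide +kernel, by decide +kernel, by decide +kernel⟩

def t28614 : allY (E.wth T1) l28614 = true ∧
    allY (E.wth T1) l28615 = true ∧
    allY (E.wth T1) l28616 = true ∧
    allY (E.wth T1) l28617 = true ∧
    allY (E.wth T1) l28618 = true ∧
    allY (E.wth T1) l28619 = true ∧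
    allY (E.wth T1) l28620 = true ∧
    allY (E.wth T1) l28621 = true :=
  ⟨by decide +kernel, by decide +kernel, by decide +kernel, by decide +kernel, by decide +kernel, by decide +kernel, by decide +kernel, by decide +kernel⟩

def t28622 : allY (E.wth T1) l28622 = true ∧
    allY (E.wth T1) l28623 = true ∧
    allY (E.wth T1) l28624 = true ∧
    allY (E.wth T1) l28625 = true ∧
    allY (E.wth T1) l28626 = true ∧
    allY (E.wth T1) l28627 = true ∧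
    allY (E.wth T1) l28628 = true ∧
    allY (E.wth T1) l28629 = true :=
  ⟨by decide +kernel, by decide +kernel, by decide +kernel, by decide +kernel, by decide +kernel, by decide +kernel, by decide +kernel, by decide +kernel⟩

def t28630 : allY (E.wth T1) l28630 = true ∧
    allY (E.wth T1) l28631 = true ∧
    allY (E.wth T1) l28632 = true ∧
    allY (E.wth T1) l28633 = true ∧
    allY (E.wth T1) l28634 = true ∧
    allY (E.wth T1) l28635 = true ∧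
    allY (E.wth T1) l28636 = true ∧
    allY (E.wth T1) l28637 = true :=
  ⟨by decide +kernel, by decide +kernel, by decide +kernel, by decide +kernel, by decide +kernel, by decide +kernel, by decide +kernel, by decide +kernel⟩

def t28638 : allY (E.wth T1) l28638 = true ∧
    allY (E.wth T1) l28639 = true ∧
    allY (E.wth T1) l28640 = true ∧
    allY (E.wth T1) l28641 = true ∧
    allY (E.wth T1) l28642 = true ∧
    allY (E.wth T1) l28643 = true ∧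
    allY (E.wth T1) l28644 = true ∧
    allY (E.wth T1) l28645 = true :=
  ⟨by decide +kernel, by decide +kernel, by decide +kernel, by decide +kernel, by decide +kernel, by decide +kernel, by decide +kernel, by decide +kernel⟩

def t28646 : allY (E.wth T1) l28646 = true ∧
    allY (E.wth T1) l28647 = true ∧
    allY (E.wth T1) l28648 = true ∧
    allY (E.wth T1) l28649 = true ∧
    allY (E.wth T1) l28650 = true ∧
    allY (E.wth T1) l28651 = true ∧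
    allY (E.wth T1) l28652 = true ∧
    allY (E.wth T1) l28653 = true :=
  ⟨by decide +kernel, by decide +kernel, by decide +kernel, by decide +kernel, by decide +kernel, by decide +kernel, by decide +kernel, by decide +kernel⟩

def t28654 : allY (E.wth T1) l28654 = true ∧
    allY (E.wth T1) l28655 = true ∧
    allY (E.wth T1) l28656 = true ∧
    allY (E.wth T1) l28657 = true ∧
    allY (E.wth T1) l28658 = true ∧
    allY (E.wth T1) l28659 = true ∧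
    allY (E.wth T1) l28660 = true ∧
    allY (E.wth T1) l28661 = true :=
  ⟨by decide +kernel, by decide +kernel, by decide +kernel, by decide +kernel, by decide +kernel, by decide +kernel, by decide +kernel, by decide +kernel⟩

def t28662 : allY (E.wth T1) l28662 = true ∧
    allY (E.wth T1) l28663 = true ∧
    allY (E.wth T1) l28664 = true ∧
    allY (E.wth T1) l28665 = true ∧
    allY (E.wth T1) l28666 = true ∧
    allY (E.wth T1) l28667 = true ∧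
    allY (E.wth T1) l28668 = true ∧
    allY (E.wth T1) l28669 = true :=
  ⟨by decide +kernel, by decide +kernel, by decide +kernel, by decide +kernel, by decide +kernel, by decide +kernel, by decide +kernel, by decide +kernel⟩

def t28670 : allY (E.wth T1) l28670 = true ∧
    allY (E.wth T1) l28671 = true ∧
    allY (E.wth T1) l28672 = true ∧
    allY (E.wth T1) l28673 = true ∧
    allY (E.wth T1) l28674 = true ∧
    allY (E.wth T1) l28675 = true ∧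
    allY (E.wth T1) l28676 = true ∧
    allY (E.wth T1) l28677 = true :=
  ⟨by decide +kernel, by decide +kernel, by decide +kernel, by decide +kernel, by decide +kernel, by decide +kernel, by decide +kernel, by decide +kernel⟩

def t28678 : allY (E.wth T1) l28678 = true ∧
    allY (E.wth T1) l28679 = true ∧
    allY (E.wth T1) l28680 = true ∧
    allY (E.wth T1) l28681 = true ∧
    allY (E.wth T1) l28682 = true ∧
    allY (E.wth T1) l28683 = true ∧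
    allY (E.wth T1) l28684 = true ∧
    allY (E.wth T1) l28685 = true :=
  ⟨by decide +kernel, by decide +kernel, by decide +kernel, by decide +kernel, by decide +kernel, by decide +kernel, by decide +kernel, by decide +kernel⟩

def t28686 : allY (E.wth T1) l28686 = true ∧
    allY (E.wth T1) l28687 = true ∧
    allY (E.wth T1) l28688 = true ∧
    allY (E.wth T1) l28689 = true ∧
    allY (E.wth T1) l28690 = true ∧
    allY (E.wth T1) l28691 = true ∧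
    allY (E.wth T1) l28692 = true ∧
    allY (E.wth T1) l28693 = true :=
  ⟨by decide +kernel, by decide +kernel, by decide +kernel, by decide +kernel, by decide +kernel, by decide +kernel, by decide +kernel, by decide +kernel⟩

def t28694 : allY (E.wth T1) l28694 = true ∧
    allY (E.wth T1) l28695 = true ∧
    allY (E.wth T1) l28696 = true ∧
    allY (E.wth T1) l28697 = true ∧
    allY (E.wth T1) l28698 = true ∧
    allY (E.wth T1) l28699 = true ∧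
    allY (E.wth T1) l28700 = true ∧
    allY (E.wth T1) l28701 = true :=
  ⟨by decide +kernel, by decide +kernel, by decide +kernel, by decide +kernel, by decide +kernel, by decide +kernel, by decide +kernel, by decide +kernel⟩

def t28702 : allY (E.wth T1) l28702 = true ∧
    allY (E.wth T1) l28703 = true ∧
    allY (E.wth T1) l28704 = true ∧
    allY (E.wth T1) l28705 = true ∧
    allY (E.wth T1) l28706 = true ∧
    allY (E.wth T1) l28707 = true ∧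
    allY (E.wth T1) l28708 = true ∧
    allY (E.wth T1) l28709 = true :=
  ⟨by decide +kernel, by decide +kernel, by decide +kernel, by decide +kernel, by decide +kernel, by decide +kernel, by decide +kernel, by decide +kernel⟩

def t28710 : allY (E.wth T1) l28710 = true ∧
    allY (E.wth T1) l28711 = true ∧
    allY (E.wth T1) l28712 = true ∧
    allY (E.wth T1) l28713 = true ∧
    allY (E.wth T1) l28714 = true ∧
    allY (E.wth T1) l28715 = true ∧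
    allY (E.wth T1) l28716 = true ∧
    allY (E.wth T1) l28717 = true :=
  ⟨by decide +kernel, by decide +kernel, by decide +kernel, by decide +kernel, by decide +kernel, by decide +kernel, by decide +kernel, by decide +kernel⟩

def t28718 : allY (E.wth T1) l28718 = true ∧
    allY (E.wth T1) l28719 = true ∧
    allY (E.wth T1) l28720 = true ∧
    allY (E.wth T1) l28721 = true ∧
    allY (E.wth T1) l28722 = true ∧
    allY (E.wth T1) l28723 = true ∧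
    allY (E.wth T1) l28724 = true ∧
    allY (E.wth T1) l28725 = true :=
  ⟨by decide +kernel, by decide +kernel, by decide +kernel, by decide +kernel, by decide +kernel, by decide +kernel, by decide +kernel, by decide +kernel⟩

def t28726 : allY (E.wth T1) l28726 = true ∧
    allY (E.wth T1) l28727 = true ∧
    allY (E.wth T1) l28728 = true ∧
    allY (E.wth T1) l28729 = true ∧
    allY (E.wth T1) l28730 = true ∧
    allY (E.wth T1) l28731 = true ∧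
    allY (E.wth T1) l28732 = true ∧
    allY (E.wth T1) l28733 = true :=
  ⟨by decide +kernel, by decide +kernel, by decide +kernel, by decide +kernel, by decide +kernel, by decide +kernel, by decide +kernel, by decide +kernel⟩

def t28734 : allY (E.wth T1) l28734 = true ∧
    allY (E.wth T1) l28735 = true ∧
    allY (E.wth T1) l28736 = true ∧
    allY (E.wth T1) l28737 = true ∧
    allY (E.wth T1) l28738 = true ∧
    allY (E.wth T1) l28739 = true ∧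
    allY (E.wth T1) l28740 = true ∧
    allY (E.wth T1) l28741 = true :=
  ⟨by decide +kernel, by decide +kernel, by decide +kernel, by decide +kernel, by decide +kernel, by decide +kernel, by decide +kernel, by decide +kernel⟩

def t28742 : allY (E.wth T1) l28742 = true ∧
    allY (E.wth T1) l28743 = true ∧
    allY (E.wth T1) l28744 = true ∧
    allY (E.wth T1) l28745 = true ∧
    allY (E.wth T1) l28746 = true ∧
    allY (E.wth T1) l28747 = true ∧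
    allY (E.wth T1) l28748 = true ∧
    allY (E.wth T1) l28749 = true :=
  ⟨by decide +kernel, by decide +kernel, by decide +kernel, by decide +kernel, by decide +kernel, by decide +kernel, by decide +kernel, by decide +kernel⟩

def t28750 : allY (E.wth T1) l28750 = true ∧
    allY (E.wth T1) l28751 = true ∧
    allY (E.wth T1) l28752 = true ∧
    allY (E.wth T1) l28753 = true ∧
    allY (E.wth T1) l28754 = true ∧
    allY (E.wth T1) l28755 = true ∧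
    allY (E.wth T1) l28756 = true ∧
    allY (E.wth T1) l28757 = true :=
  ⟨by decide +kernel, by decide +kernel, by decide +kernel, by decide +kernel, by decide +kernel, by decide +kernel, by decide +kernel, by decide +kernel⟩

def t28758 : allY (E.wth T1) l28758 = true ∧
    allY (E.wth T1) l28759 = true ∧
    allY (E.wth T1) l28760 = true ∧
    allY (E.wth T1) l28761 = true ∧
    allY (E.wth T1) l28762 = true ∧
    allY (E.wth T1) l28763 = true ∧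
    allY (E.wth T1) l28764 = true ∧
    allY (E.wth T1) l28765 = true :=
  ⟨by decide +kernel, by decide +kernel, by decide +kernel, by decide +kernel, by decide +kernel, by decide +kernel, by decide +kernel, by decide +kernel⟩

def t28766 : allY (E.wth T1) l28766 = true ∧
    allY (E.wth T1) l28767 = true ∧
    allY (E.wth T1) l28768 = true ∧
    allY (E.wth T1) l28769 = true ∧
    allY (E.wth T1) l28770 = true ∧
    allY (E.wth T1) l28771 = true ∧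
    allY (E.wth T1) l28772 = true ∧
    allY (E.wth T1) l28773 = true :=
  ⟨by decide +kernel, by decide +kernel, by decide +kernel, by decide +kernel, by decide +kernel, by decide +kernel, by decide +kernel, by decide +kernel⟩

def t28774 : allY (E.wth T1) l28774 = true ∧
    allY (E.wth T1) l28775 = true ∧
    allY (E.wth T1) l28776 = true ∧
    allY (E.wth T1) l28777 = true ∧
    allY (E.wth T1) l28778 = true ∧
    allY (E.wth T1) l28779 = true ∧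
    allY (E.wth T1) l28780 = true ∧
    allY (E.wth T1) l28781 = true :=
  ⟨by decide +kernel, by decide +kernel, by decide +kernel, by decide +kernel, by decide +kernel, by decide +kernel, by decide +kernel, by decide +kernel⟩

def t28782 : allY (E.wth T1) l28782 = true ∧
    allY (E.wth T1) l28783 = true ∧
    allY (E.wth T1) l28784 = true ∧
    allY (E.wth T1) l28785 = true ∧
    allY (E.wth T1) l28786 = true ∧
    allY (E.wth T1) l28787 = true ∧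
    allY (E.wth T1) l28788 = true ∧
    allY (E.wth T1) l28789 = true :=
  ⟨by decide +kernel, by decide +kernel, by decide +kernel, by decide +kernel, by decide +kernel, by decide +kernel, by decide +kernel, by decide +kernel⟩

def t28790 : allY (E.wth T1) l28790 = true ∧
    allY (E.wth T1) l28791 = true ∧
    allY (E.wth T1) l28792 = true ∧
    allY (E.wth T1) l28793 = true ∧
    allY (E.wth T1) l28794 = true ∧
    allY (E.wth T1) l28795 = true ∧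
    allY (E.wth T1) l28796 = true ∧
    allY (E.wth T1) l28797 = true :=
  ⟨by decide +kernel, by decide +kernel, by decide +kernel, by decide +kernel, by decide +kernel, by decide +kernel, by decide +kernel, by decide +kernel⟩

def t28798 : allY (E.wth T1) l28798 = true ∧
    allY (E.wth T1) l28799 = true ∧
    allY (E.wth T1) l28800 = true ∧
    allY (E.wth T1) l28801 = true ∧
    allY (E.wth T1) l28802 = true ∧
    allY (E.wth T1) l28803 = true ∧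
    allY (E.wth T1) l28804 = true ∧
    allY (E.wth T1) l28805 = true :=
  ⟨by decide +kernel, by decide +kernel, by decide +kernel, by decide +kernel, by decide +kernel, by decide +kernel, by decide +kernel, by decide +kernel⟩

def t28806 : allY (E.wth T1) l28806 = true ∧
    allY (E.wth T1) l28807 = true ∧
    allY (E.wth T1) l28808 = true ∧
    allY (E.wth T1) l28809 = true ∧
    allY (E.wth T1) l28810 = true ∧
    allY (E.wth T1) l28811 = true ∧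
    allY (E.wth T1) l28812 = true ∧
    allY (E.wth T1) l28813 = true :=
  ⟨by decide +kernel, by decide +kernel, by decide +kernel, by decide +kernel, by decide +kernel, by decide +kernel, by decide +kernel, by decide +kernel⟩

def t28814 : allY (E.wth T1) l28814 = true ∧
    allY (E.wth T1) l28815 = true ∧
    allY (E.wth T1) l28816 = true ∧
    allY (E.wth T1) l28817 = true ∧
    allY (E.wth T1) l28818 = true ∧
    allY (E.wth T1) l28819 = true ∧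
    allY (E.wth T1) l28820 = true ∧
    allY (E.wth T1) l28821 = true :=
  ⟨by decide +kernel, by decide +kernel, by decide +kernel, by decide +kernel, by decide +kernel, by decide +kernel, by decide +kernel, by decide +kernel⟩

def t28822 : allY (E.wth T1) l28822 = true ∧
    allY (E.wth T1) l28823 = true ∧
    allY (E.wth T1) l28824 = true ∧
    allY (E.wth T1) l28825 = true ∧
    allY (E.wth T1) l28826 = true ∧
    allY (E.wth T1) l28827 = true ∧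
    allY (E.wth T1) l28828 = true ∧
    allY (E.wth T1) l28829 = true :=
  ⟨by decide +kernel, by decide +kernel, by decide +kernel, by decide +kernel, by decide +kernel, by decide +kernel, by decide +kernel, by decide +kernel⟩

def t28830 : allY (E.wth T1) l28830 = true ∧
    allY (E.wth T1) l28831 = true ∧
    allY (E.wth T1) l28832 = true ∧
    allY (E.wth T1) l28833 = true ∧
    allY (E.wth T1) l28834 = true ∧
    allY (E.wth T1) l28835 = true ∧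
    allY (E.wth T1) l28836 = true ∧
    allY (E.wth T1) l28837 = true :=
  ⟨by decide +kernel, by decide +kernel, by decide +kernel, by decide +kernel, by decide +kernel, by decide +kernel, by decide +kernel, by decide +kernel⟩

def t28838 : allY (E.wth T1) l28838 = true ∧
    allY (E.wth T1) l28839 = true ∧
    allY (E.wth T1) l28840 = true ∧
    allY (E.wth T1) l28841 = true ∧
    allY (E.wth T1) l28842 = true :=
  ⟨by decide +kernel, by decide +kernel, by decide +kernel, by decide +kernel, by decide +kernel⟩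

theorem a51 {p : Rf → Prop} (H : ∀ l, allY (E.wth T1) l = true → (lkp l).All p) :
    b51.All p := ⟨⟨⟨⟨⟨⟨⟨⟨⟨H _ t28294.1, H _ t28294.2.1⟩, ⟨H _ t28294.2.2.1, H _ t28294.2.2.2.1⟩⟩, ⟨⟨H _ t28294.2.2.2.2.1, H _ t28294.2.2.2.2.2.1⟩, ⟨H _ t28294.2.2.2.2.2.2.1, H _ t28294.2.2.2.2.2.2.2⟩⟩⟩, ⟨⟨⟨H _ t28302.1, H _ t28302.2.1⟩, ⟨H _ t28302.2.2.1, H _ t28302.2.2.2.1⟩⟩, ⟨⟨H _ t28302.2.2.2.2.1, H _ t28302.2.2.2.2.2.1⟩, ⟨H _ t28302.2.2.2.2.2.2.1, ⟨H _ t28302.2.2.2.2.2.2.2, H _ t28310.1⟩⟩⟩⟩⟩, ⟨⟨⟨⟨H _ t28310.2.1, H _ t28310.2.2.1⟩, ⟨H _ t28310.2.2.2.1, H _ t28310.2.2.2.2.1⟩⟩, ⟨⟨H _ t28310.2.2.2.2.2.1, H _ t28310.2.2.2.2.2.2.1⟩, ⟨H _ t28310.2.2.2.2.2.2.2, H _ t28318.1⟩⟩⟩, ⟨⟨⟨H _ t28318.2.1, H _ t28318.2.2.1⟩, ⟨H _ t28318.2.2.2.1, H _ t28318.2.2.2.2.1⟩⟩, ⟨⟨H _ t28318.2.2.2.2.2.1, H _ t28318.2.2.2.2.2.2.1⟩, ⟨H _ t28318.2.2.2.2.2.2.2, ⟨H _ t28326.1, H _ t28326.2.1⟩⟩⟩⟩⟩⟩, ⟨⟨⟨⟨⟨H _ t28326.2.2.1, H _ t28326.2.2.2.1⟩,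 ⟨H _ t28326.2.2.2.2.1, H _ t28326.2.2.2.2.2.1⟩⟩, ⟨⟨H _ t28326.2.2.2.2.2.2.1, H _ t28326.2.2.2.2.2.2.2⟩, ⟨H _ t28334.1, H _ t28334.2.1⟩⟩⟩, ⟨⟨⟨H _ t28334.2.2.1, H _ t28334.2.2.2.1⟩, ⟨H _ t28334.2.2.2.2.1, H _ t28334.2.2.2.2.2.1⟩⟩, ⟨⟨H _ t28334.2.2.2.2.2.2.1, H _ t28334.2.2.2.2.2.2.2⟩, ⟨H _ t28342.1, ⟨H _ t28342.2.1, H _ t28342.2.2.1⟩⟩⟩⟩⟩, ⟨⟨⟨⟨H _ t28342.2.2.2.1, H _ t28342.2.2.2.2.1⟩, ⟨H _ t28342.2.2.2.2.2.1, H _ t28342.2.2.2.2.2.2.1⟩⟩, ⟨⟨H _ t28342.2.2.2.2.2.2.2, H _ t28350.1⟩, ⟨H _ t28350.2.1, H _ t28350.2.2.1⟩⟩⟩, ⟨⟨⟨H _ t28350.2.2.2.1, H _ t28350.2.2.2.2.1⟩, ⟨H _ t28350.2.2.2.2.2.1, H _ t28350.2.2.2.2.2.2.1⟩⟩, ⟨⟨H _ t28350.2.2.2.2.2.2.2, H _ t28358.1⟩, ⟨H _ t28358.2.1, ⟨H _ t28358.2.2.1, H _ t28358.2.2.2.1⟩⟩⟩⟩⟩⟩⟩, ⟨⟨⟨⟨⟨⟨H _ t28358.2.2.2.2.1, H _ t28358.2.2.2.2.2.1⟩, ⟨H _ t28358.2.2.2.2.2.2.1, H _ t28358.2.2.2.2.2.2.2⟩⟩, ⟨⟨H _ t28366.1, H _ t28366.2.1⟩, ⟨H _ t28366.2.2.1, H _ t28366.2.2.2.1⟩⟩⟩,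 ⟨⟨⟨H _ t28366.2.2.2.2.1, H _ t28366.2.2.2.2.2.1⟩, ⟨H _ t28366.2.2.2.2.2.2.1, H _ t28366.2.2.2.2.2.2.2⟩⟩, ⟨⟨H _ t28374.1, H _ t28374.2.1⟩, ⟨H _ t28374.2.2.1, ⟨H _ t28374.2.2.2.1, H _ t28374.2.2.2.2.1⟩⟩⟩⟩⟩, ⟨⟨⟨⟨H _ t28374.2.2.2.2.2.1, H _ t28374.2.2.2.2.2.2.1⟩, ⟨H _ t28374.2.2.2.2.2.2.2, H _ t28382.1⟩⟩, ⟨⟨H _ t28382.2.1, H _ t28382.2.2.1⟩, ⟨H _ t28382.2.2.2.1, H _ t28382.2.2.2.2.1⟩⟩⟩, ⟨⟨⟨H _ t28382.2.2.2.2.2.1, H _ t28382.2.2.2.2.2.2.1⟩, ⟨H _ t28382.2.2.2.2.2.2.2, H _ t28390.1⟩⟩, ⟨⟨H _ t28390.2.1, H _ t28390.2.2.1⟩, ⟨H _ t28390.2.2.2.1, ⟨H _ t28390.2.2.2.2.1, H _ t28390.2.2.2.2.2.1⟩⟩⟩⟩⟩⟩, ⟨⟨⟨⟨⟨H _ t28390.2.2.2.2.2.2.1, H _ t28390.2.2.2.2.2.2.2⟩, ⟨H _ t28398.1, H _ t28398.2.1⟩⟩, ⟨⟨H _ t28398.2.2.1, H _ t28398.2.2.2.1⟩, ⟨H _ t28398.2.2.2.2.1, H _ t28398.2.2.2.2.2.1⟩⟩⟩, ⟨⟨⟨H _ t28398.2.2.2.2.2.2.1, H _ t28398.2.2.2.2.2.2.2⟩, ⟨H _ t28406.1, H _ t28406.2.1⟩⟩, ⟨⟨H _ t28406.2.2.1, H _ t28406.2.2.2.1⟩,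 ⟨H _ t28406.2.2.2.2.1, ⟨H _ t28406.2.2.2.2.2.1, H _ t28406.2.2.2.2.2.2.1⟩⟩⟩⟩⟩, ⟨⟨⟨⟨H _ t28406.2.2.2.2.2.2.2, H _ t28414.1⟩, ⟨H _ t28414.2.1, H _ t28414.2.2.1⟩⟩, ⟨⟨H _ t28414.2.2.2.1, H _ t28414.2.2.2.2.1⟩, ⟨H _ t28414.2.2.2.2.2.1, ⟨H _ t28414.2.2.2.2.2.2.1, H _ t28414.2.2.2.2.2.2.2⟩⟩⟩⟩, ⟨⟨⟨H _ t28422.1, H _ t28422.2.1⟩, ⟨H _ t28422.2.2.1, H _ t28422.2.2.2.1⟩⟩, ⟨⟨H _ t28422.2.2.2.2.1, H _ t28422.2.2.2.2.2.1⟩, ⟨H _ t28422.2.2.2.2.2.2.1, ⟨H _ t28422.2.2.2.2.2.2.2, H _ t28430.1⟩⟩⟩⟩⟩⟩⟩⟩, ⟨⟨⟨⟨⟨⟨⟨H _ t28430.2.1, H _ t28430.2.2.1⟩, ⟨H _ t28430.2.2.2.1, H _ t28430.2.2.2.2.1⟩⟩, ⟨⟨H _ t28430.2.2.2.2.2.1, H _ t28430.2.2.2.2.2.2.1⟩, ⟨H _ t28430.2.2.2.2.2.2.2, H _ t28438.1⟩⟩⟩, ⟨⟨⟨H _ t28438.2.1, H _ t28438.2.2.1⟩, ⟨H _ t28438.2.2.2.1, H _ t28438.2.2.2.2.1⟩⟩, ⟨⟨H _ t28438.2.2.2.2.2.1, H _ t28438.2.2.2.2.2.2.1⟩, ⟨H _ t28438.2.2.2.2.2.2.2, ⟨H _ t28446.1, H _ t28446.2.1⟩⟩⟩⟩⟩, ⟨⟨⟨⟨H _ t28446.2.2.1, H _ t28446.2.2.2.1⟩,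 ⟨H _ t28446.2.2.2.2.1, H _ t28446.2.2.2.2.2.1⟩⟩, ⟨⟨H _ t28446.2.2.2.2.2.2.1, H _ t28446.2.2.2.2.2.2.2⟩, ⟨H _ t28454.1, H _ t28454.2.1⟩⟩⟩, ⟨⟨⟨H _ t28454.2.2.1, H _ t28454.2.2.2.1⟩, ⟨H _ t28454.2.2.2.2.1, H _ t28454.2.2.2.2.2.1⟩⟩, ⟨⟨H _ t28454.2.2.2.2.2.2.1, H _ t28454.2.2.2.2.2.2.2⟩, ⟨H _ t28462.1, ⟨H _ t28462.2.1, H _ t28462.2.2.1⟩⟩⟩⟩⟩⟩, ⟨⟨⟨⟨⟨H _ t28462.2.2.2.1, H _ t28462.2.2.2.2.1⟩, ⟨H _ t28462.2.2.2.2.2.1, H _ t28462.2.2.2.2.2.2.1⟩⟩, ⟨⟨H _ t28462.2.2.2.2.2.2.2, H _ t28470.1⟩, ⟨H _ t28470.2.1, H _ t28470.2.2.1⟩⟩⟩, ⟨⟨⟨H _ t28470.2.2.2.1, H _ t28470.2.2.2.2.1⟩, ⟨H _ t28470.2.2.2.2.2.1, H _ t28470.2.2.2.2.2.2.1⟩⟩, ⟨⟨H _ t28470.2.2.2.2.2.2.2, H _ t28478.1⟩, ⟨H _ t28478.2.1, ⟨H _ t28478.2.2.1, H _ t28478.2.2.2.1⟩⟩⟩⟩⟩, ⟨⟨⟨⟨H _ t28478.2.2.2.2.1, H _ t28478.2.2.2.2.2.1⟩, ⟨H _ t28478.2.2.2.2.2.2.1, H _ t28478.2.2.2.2.2.2.2⟩⟩, ⟨⟨H _ t28486.1, H _ t28486.2.1⟩, ⟨H _ t28486.2.2.1, H _ t28486.2.2.2.1⟩⟩⟩,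 ⟨⟨⟨H _ t28486.2.2.2.2.1, H _ t28486.2.2.2.2.2.1⟩, ⟨H _ t28486.2.2.2.2.2.2.1, H _ t28486.2.2.2.2.2.2.2⟩⟩, ⟨⟨H _ t28494.1, H _ t28494.2.1⟩, ⟨H _ t28494.2.2.1, ⟨H _ t28494.2.2.2.1, H _ t28494.2.2.2.2.1⟩⟩⟩⟩⟩⟩⟩, ⟨⟨⟨⟨⟨⟨H _ t28494.2.2.2.2.2.1, H _ t28494.2.2.2.2.2.2.1⟩, ⟨H _ t28494.2.2.2.2.2.2.2, H _ t28502.1⟩⟩, ⟨⟨H _ t28502.2.1, H _ t28502.2.2.1⟩, ⟨H _ t28502.2.2.2.1, H _ t28502.2.2.2.2.1⟩⟩⟩, ⟨⟨⟨H _ t28502.2.2.2.2.2.1, H _ t28502.2.2.2.2.2.2.1⟩, ⟨H _ t28502.2.2.2.2.2.2.2, H _ t28510.1⟩⟩, ⟨⟨H _ t28510.2.1, H _ t28510.2.2.1⟩, ⟨H _ t28510.2.2.2.1, ⟨H _ t28510.2.2.2.2.1, H _ t28510.2.2.2.2.2.1⟩⟩⟩⟩⟩, ⟨⟨⟨⟨H _ t28510.2.2.2.2.2.2.1, H _ t28510.2.2.2.2.2.2.2⟩, ⟨H _ t28518.1, H _ t28518.2.1⟩⟩, ⟨⟨H _ t28518.2.2.1, H _ t28518.2.2.2.1⟩, ⟨H _ t28518.2.2.2.2.1, H _ t28518.2.2.2.2.2.1⟩⟩⟩, ⟨⟨⟨H _ t28518.2.2.2.2.2.2.1, H _ t28518.2.2.2.2.2.2.2⟩, ⟨H _ t28526.1, H _ t28526.2.1⟩⟩, ⟨⟨H _ t28526.2.2.1, H _ t28526.2.2.2.1⟩,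 ⟨H _ t28526.2.2.2.2.1, ⟨H _ t28526.2.2.2.2.2.1, H _ t28526.2.2.2.2.2.2.1⟩⟩⟩⟩⟩⟩, ⟨⟨⟨⟨⟨H _ t28526.2.2.2.2.2.2.2, H _ t28534.1⟩, ⟨H _ t28534.2.1, H _ t28534.2.2.1⟩⟩, ⟨⟨H _ t28534.2.2.2.1, H _ t28534.2.2.2.2.1⟩, ⟨H _ t28534.2.2.2.2.2.1, H _ t28534.2.2.2.2.2.2.1⟩⟩⟩, ⟨⟨⟨H _ t28534.2.2.2.2.2.2.2, H _ t28542.1⟩, ⟨H _ t28542.2.1, H _ t28542.2.2.1⟩⟩, ⟨⟨H _ t28542.2.2.2.1, H _ t28542.2.2.2.2.1⟩, ⟨H _ t28542.2.2.2.2.2.1, ⟨H _ t28542.2.2.2.2.2.2.1, H _ t28542.2.2.2.2.2.2.2⟩⟩⟩⟩⟩, ⟨⟨⟨⟨H _ t28550.1, H _ t28550.2.1⟩, ⟨H _ t28550.2.2.1, H _ t28550.2.2.2.1⟩⟩, ⟨⟨H _ t28550.2.2.2.2.1, H _ t28550.2.2.2.2.2.1⟩, ⟨H _ t28550.2.2.2.2.2.2.1, ⟨H _ t28550.2.2.2.2.2.2.2, H _ t28558.1⟩⟩⟩⟩, ⟨⟨⟨H _ t28558.2.1, H _ t28558.2.2.1⟩, ⟨H _ t28558.2.2.2.1, H _ t28558.2.2.2.2.1⟩⟩, ⟨⟨H _ t28558.2.2.2.2.2.1, H _ t28558.2.2.2.2.2.2.1⟩, ⟨H _ t28558.2.2.2.2.2.2.2, ⟨H _ t28566.1, H _ t28566.2.1⟩⟩⟩⟩⟩⟩⟩⟩⟩, ⟨⟨⟨⟨⟨⟨⟨⟨H _ t28566.2.2.1, H _ t28566.2.2.2.1⟩,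 ⟨H _ t28566.2.2.2.2.1, H _ t28566.2.2.2.2.2.1⟩⟩, ⟨⟨H _ t28566.2.2.2.2.2.2.1, H _ t28566.2.2.2.2.2.2.2⟩, ⟨H _ t28574.1, H _ t28574.2.1⟩⟩⟩, ⟨⟨⟨H _ t28574.2.2.1, H _ t28574.2.2.2.1⟩, ⟨H _ t28574.2.2.2.2.1, H _ t28574.2.2.2.2.2.1⟩⟩, ⟨⟨H _ t28574.2.2.2.2.2.2.1, H _ t28574.2.2.2.2.2.2.2⟩, ⟨H _ t28582.1, ⟨H _ t28582.2.1, H _ t28582.2.2.1⟩⟩⟩⟩⟩, ⟨⟨⟨⟨H _ t28582.2.2.2.1, H _ t28582.2.2.2.2.1⟩, ⟨H _ t28582.2.2.2.2.2.1, H _ t28582.2.2.2.2.2.2.1⟩⟩, ⟨⟨H _ t28582.2.2.2.2.2.2.2, H _ t28590.1⟩, ⟨H _ t28590.2.1, H _ t28590.2.2.1⟩⟩⟩, ⟨⟨⟨H _ t28590.2.2.2.1, H _ t28590.2.2.2.2.1⟩, ⟨H _ t28590.2.2.2.2.2.1, H _ t28590.2.2.2.2.2.2.1⟩⟩, ⟨⟨H _ t28590.2.2.2.2.2.2.2, H _ t28598.1⟩, ⟨H _ t28598.2.1, ⟨H _ t28598.2.2.1, H _ t28598.2.2.2.1⟩⟩⟩⟩⟩⟩, ⟨⟨⟨⟨⟨H _ t28598.2.2.2.2.1, H _ t28598.2.2.2.2.2.1⟩, ⟨H _ t28598.2.2.2.2.2.2.1, H _ t28598.2.2.2.2.2.2.2⟩⟩, ⟨⟨H _ t28606.1, H _ t28606.2.1⟩, ⟨H _ t28606.2.2.1, H _ t28606.2.2.2.1⟩⟩⟩,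 ⟨⟨⟨H _ t28606.2.2.2.2.1, H _ t28606.2.2.2.2.2.1⟩, ⟨H _ t28606.2.2.2.2.2.2.1, H _ t28606.2.2.2.2.2.2.2⟩⟩, ⟨⟨H _ t28614.1, H _ t28614.2.1⟩, ⟨H _ t28614.2.2.1, ⟨H _ t28614.2.2.2.1, H _ t28614.2.2.2.2.1⟩⟩⟩⟩⟩, ⟨⟨⟨⟨H _ t28614.2.2.2.2.2.1, H _ t28614.2.2.2.2.2.2.1⟩, ⟨H _ t28614.2.2.2.2.2.2.2, H _ t28622.1⟩⟩, ⟨⟨H _ t28622.2.1, H _ t28622.2.2.1⟩, ⟨H _ t28622.2.2.2.1, H _ t28622.2.2.2.2.1⟩⟩⟩, ⟨⟨⟨H _ t28622.2.2.2.2.2.1, H _ t28622.2.2.2.2.2.2.1⟩, ⟨H _ t28622.2.2.2.2.2.2.2, H _ t28630.1⟩⟩, ⟨⟨H _ t28630.2.1, H _ t28630.2.2.1⟩, ⟨H _ t28630.2.2.2.1, ⟨H _ t28630.2.2.2.2.1, H _ t28630.2.2.2.2.2.1⟩⟩⟩⟩⟩⟩⟩, ⟨⟨⟨⟨⟨⟨H _ t28630.2.2.2.2.2.2.1, H _ t28630.2.2.2.2.2.2.2⟩, ⟨H _ t28638.1, H _ t28638.2.1⟩⟩, ⟨⟨H _ t28638.2.2.1, H _ t28638.2.2.2.1⟩, ⟨H _ t28638.2.2.2.2.1, H _ t28638.2.2.2.2.2.1⟩⟩⟩, ⟨⟨⟨H _ t28638.2.2.2.2.2.2.1, H _ t28638.2.2.2.2.2.2.2⟩, ⟨H _ t28646.1, H _ t28646.2.1⟩⟩, ⟨⟨H _ t28646.2.2.1, H _ t28646.2.2.2.1⟩,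 ⟨H _ t28646.2.2.2.2.1, ⟨H _ t28646.2.2.2.2.2.1, H _ t28646.2.2.2.2.2.2.1⟩⟩⟩⟩⟩, ⟨⟨⟨⟨H _ t28646.2.2.2.2.2.2.2, H _ t28654.1⟩, ⟨H _ t28654.2.1, H _ t28654.2.2.1⟩⟩, ⟨⟨H _ t28654.2.2.2.1, H _ t28654.2.2.2.2.1⟩, ⟨H _ t28654.2.2.2.2.2.1, H _ t28654.2.2.2.2.2.2.1⟩⟩⟩, ⟨⟨⟨H _ t28654.2.2.2.2.2.2.2, H _ t28662.1⟩, ⟨H _ t28662.2.1, H _ t28662.2.2.1⟩⟩, ⟨⟨H _ t28662.2.2.2.1, H _ t28662.2.2.2.2.1⟩, ⟨H _ t28662.2.2.2.2.2.1, ⟨H _ t28662.2.2.2.2.2.2.1, H _ t28662.2.2.2.2.2.2.2⟩⟩⟩⟩⟩⟩, ⟨⟨⟨⟨⟨H _ t28670.1, H _ t28670.2.1⟩, ⟨H _ t28670.2.2.1, H _ t28670.2.2.2.1⟩⟩, ⟨⟨H _ t28670.2.2.2.2.1, H _ t28670.2.2.2.2.2.1⟩, ⟨H _ t28670.2.2.2.2.2.2.1, H _ t28670.2.2.2.2.2.2.2⟩⟩⟩, ⟨⟨⟨H _ t28678.1, H _ t28678.2.1⟩, ⟨H _ t28678.2.2.1, H _ t28678.2.2.2.1⟩⟩, ⟨⟨H _ t28678.2.2.2.2.1, H _ t28678.2.2.2.2.2.1⟩, ⟨H _ t28678.2.2.2.2.2.2.1, ⟨H _ t28678.2.2.2.2.2.2.2, H _ t28686.1⟩⟩⟩⟩⟩, ⟨⟨⟨⟨H _ t28686.2.1, H _ t28686.2.2.1⟩, ⟨H _ t28686.2.2.2.1,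 H _ t28686.2.2.2.2.1⟩⟩, ⟨⟨H _ t28686.2.2.2.2.2.1, H _ t28686.2.2.2.2.2.2.1⟩, ⟨H _ t28686.2.2.2.2.2.2.2, ⟨H _ t28694.1, H _ t28694.2.1⟩⟩⟩⟩, ⟨⟨⟨H _ t28694.2.2.1, H _ t28694.2.2.2.1⟩, ⟨H _ t28694.2.2.2.2.1, H _ t28694.2.2.2.2.2.1⟩⟩, ⟨⟨H _ t28694.2.2.2.2.2.2.1, H _ t28694.2.2.2.2.2.2.2⟩, ⟨H _ t28702.1, ⟨H _ t28702.2.1, H _ t28702.2.2.1⟩⟩⟩⟩⟩⟩⟩⟩, ⟨⟨⟨⟨⟨⟨⟨H _ t28702.2.2.2.1, H _ t28702.2.2.2.2.1⟩, ⟨H _ t28702.2.2.2.2.2.1, H _ t28702.2.2.2.2.2.2.1⟩⟩, ⟨⟨H _ t28702.2.2.2.2.2.2.2, H _ t28710.1⟩, ⟨H _ t28710.2.1, H _ t28710.2.2.1⟩⟩⟩, ⟨⟨⟨H _ t28710.2.2.2.1, H _ t28710.2.2.2.2.1⟩, ⟨H _ t28710.2.2.2.2.2.1, H _ t28710.2.2.2.2.2.2.1⟩⟩, ⟨⟨H _ t28710.2.2.2.2.2.2.2, H _ t28718.1⟩, ⟨H _ t28718.2.1, ⟨H _ t28718.2.2.1, H _ t28718.2.2.2.1⟩⟩⟩⟩⟩, ⟨⟨⟨⟨H _ t28718.2.2.2.2.1, H _ t28718.2.2.2.2.2.1⟩, ⟨H _ t28718.2.2.2.2.2.2.1, H _ t28718.2.2.2.2.2.2.2⟩⟩, ⟨⟨H _ t28726.1, H _ t28726.2.1⟩, ⟨H _ t28726.2.2.1, H _ t28726.2.2.2.1⟩⟩⟩,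 ⟨⟨⟨H _ t28726.2.2.2.2.1, H _ t28726.2.2.2.2.2.1⟩, ⟨H _ t28726.2.2.2.2.2.2.1, H _ t28726.2.2.2.2.2.2.2⟩⟩, ⟨⟨H _ t28734.1, H _ t28734.2.1⟩, ⟨H _ t28734.2.2.1, ⟨H _ t28734.2.2.2.1, H _ t28734.2.2.2.2.1⟩⟩⟩⟩⟩⟩, ⟨⟨⟨⟨⟨H _ t28734.2.2.2.2.2.1, H _ t28734.2.2.2.2.2.2.1⟩, ⟨H _ t28734.2.2.2.2.2.2.2, H _ t28742.1⟩⟩, ⟨⟨H _ t28742.2.1, H _ t28742.2.2.1⟩, ⟨H _ t28742.2.2.2.1, H _ t28742.2.2.2.2.1⟩⟩⟩, ⟨⟨⟨H _ t28742.2.2.2.2.2.1, H _ t28742.2.2.2.2.2.2.1⟩, ⟨H _ t28742.2.2.2.2.2.2.2, H _ t28750.1⟩⟩, ⟨⟨H _ t28750.2.1, H _ t28750.2.2.1⟩, ⟨H _ t28750.2.2.2.1, ⟨H _ t28750.2.2.2.2.1, H _ t28750.2.2.2.2.2.1⟩⟩⟩⟩⟩, ⟨⟨⟨⟨H _ t28750.2.2.2.2.2.2.1, H _ t28750.2.2.2.2.2.2.2⟩, ⟨H _ t28758.1, H _ t28758.2.1⟩⟩, ⟨⟨H _ t28758.2.2.1, H _ t28758.2.2.2.1⟩, ⟨H _ t28758.2.2.2.2.1, ⟨H _ t28758.2.2.2.2.2.1, H _ t28758.2.2.2.2.2.2.1⟩⟩⟩⟩, ⟨⟨⟨H _ t28758.2.2.2.2.2.2.2, H _ t28766.1⟩, ⟨H _ t28766.2.1, H _ t28766.2.2.1⟩⟩, ⟨⟨H _ t28766.2.2.2.1,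 H _ t28766.2.2.2.2.1⟩, ⟨H _ t28766.2.2.2.2.2.1, ⟨H _ t28766.2.2.2.2.2.2.1, H _ t28766.2.2.2.2.2.2.2⟩⟩⟩⟩⟩⟩⟩, ⟨⟨⟨⟨⟨⟨H _ t28774.1, H _ t28774.2.1⟩, ⟨H _ t28774.2.2.1, H _ t28774.2.2.2.1⟩⟩, ⟨⟨H _ t28774.2.2.2.2.1, H _ t28774.2.2.2.2.2.1⟩, ⟨H _ t28774.2.2.2.2.2.2.1, H _ t28774.2.2.2.2.2.2.2⟩⟩⟩, ⟨⟨⟨H _ t28782.1, H _ t28782.2.1⟩, ⟨H _ t28782.2.2.1, H _ t28782.2.2.2.1⟩⟩, ⟨⟨H _ t28782.2.2.2.2.1, H _ t28782.2.2.2.2.2.1⟩, ⟨H _ t28782.2.2.2.2.2.2.1, ⟨H _ t28782.2.2.2.2.2.2.2, H _ t28790.1⟩⟩⟩⟩⟩, ⟨⟨⟨⟨H _ t28790.2.1, H _ t28790.2.2.1⟩, ⟨H _ t28790.2.2.2.1, H _ t28790.2.2.2.2.1⟩⟩, ⟨⟨H _ t28790.2.2.2.2.2.1, H _ t28790.2.2.2.2.2.2.1⟩, ⟨H _ t28790.2.2.2.2.2.2.2, H _ t28798.1⟩⟩⟩, ⟨⟨⟨H _ t28798.2.1, H _ t28798.2.2.1⟩, ⟨H _ t28798.2.2.2.1, H _ t28798.2.2.2.2.1⟩⟩, ⟨⟨H _ t28798.2.2.2.2.2.1, H _ t28798.2.2.2.2.2.2.1⟩, ⟨H _ t28798.2.2.2.2.2.2.2, ⟨H _ t28806.1, H _ t28806.2.1⟩⟩⟩⟩⟩⟩, ⟨⟨⟨⟨⟨H _ t28806.2.2.1, H _ t28806.2.2.2.1⟩,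 ⟨H _ t28806.2.2.2.2.1, H _ t28806.2.2.2.2.2.1⟩⟩, ⟨⟨H _ t28806.2.2.2.2.2.2.1, H _ t28806.2.2.2.2.2.2.2⟩, ⟨H _ t28814.1, H _ t28814.2.1⟩⟩⟩, ⟨⟨⟨H _ t28814.2.2.1, H _ t28814.2.2.2.1⟩, ⟨H _ t28814.2.2.2.2.1, H _ t28814.2.2.2.2.2.1⟩⟩, ⟨⟨H _ t28814.2.2.2.2.2.2.1, H _ t28814.2.2.2.2.2.2.2⟩, ⟨H _ t28822.1, ⟨H _ t28822.2.1, H _ t28822.2.2.1⟩⟩⟩⟩⟩, ⟨⟨⟨⟨H _ t28822.2.2.2.1, H _ t28822.2.2.2.2.1⟩, ⟨H _ t28822.2.2.2.2.2.1, H _ t28822.2.2.2.2.2.2.1⟩⟩, ⟨⟨H _ t28822.2.2.2.2.2.2.2, H _ t28830.1⟩, ⟨H _ t28830.2.1, ⟨H _ t28830.2.2.1, H _ t28830.2.2.2.1⟩⟩⟩⟩, ⟨⟨⟨H _ t28830.2.2.2.2.1, H _ t28830.2.2.2.2.2.1⟩, ⟨H _ t28830.2.2.2.2.2.2.1, H _ t28830.2.2.2.2.2.2.2⟩⟩, ⟨⟨H _ t28838.1, H _ t28838.2.1⟩, ⟨H _ t28838.2.2.1, ⟨H _ t28838.2.2.2.1, H _ t28838.2.2.2.2⟩⟩⟩⟩⟩⟩⟩⟩⟩⟩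

end Pool.Agent.MP_c853c5_nt.X.C4950
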