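import Pool.Agent.MP_c853c5_nt.X.C4950.Env
import Pool.Agent.MP_c853c5_nt.X.C4950.Tab

set_option autoImplicit false
set_option maxRecDepth 8192
set_option linter.all false

namespace Pool.Agent.MP_c853c5_nt.X.C4950

open Pool.Agent.MP_c853c5_nt.X

def t28843 : allY (E.wth T1) l28843 = true ∧
    allY (E.wth T1) l28844 = true ∧
    allY (E.wth T1) l28845 = true ∧
    allY (E.wth T1) l28846 = true ∧
    allY (E.wth T1) l28847 = true ∧
    allY (E.wth T1) l28848 = true ∧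
    allY (E.wth T1) l28849 = true ∧
    allY (E.wth T1) l28850 = true :=
  ⟨by decide +kernel, by decide +kernel, by decide +kernel, by decide +kernel, by decide +kernel, by decide +kernel, by decide +kernel, by decide +kernel⟩

def t28851 : allY (E.wth T1) l28851 = true ∧
    allY (E.wth T1) l28852 = true ∧
    allY (E.wth T1) l28853 = true ∧
    allY (E.wth T1) l28854 = true ∧
    allY (E.wth T1) l28855 = true ∧
    allY (E.wth T1) l28856 = true ∧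
    allY (E.wth T1) l28857 = true ∧
    allY (E.wth T1) l28858 = true :=
  ⟨by decide +kernel, by decide +kernel, by decide +kernel, by decide +kernel, by decide +kernel, by decide +kernel, by decide +kernel, by decide +kernel⟩

def t28859 : allY (E.wth T1) l28859 = true ∧
    allY (E.wth T1) l28860 = true ∧
    allY (E.wth T1) l28861 = true ∧
    allY (E.wth T1) l28862 = true ∧
    allY (E.wth T1) l28863 = true ∧
    allY (E.wth T1) l28864 = true ∧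
    allY (E.wth T1) l28865 = true ∧
    allY (E.wth T1) l28866 = true :=
  ⟨by decide +kernel, by decide +kernel, by decide +kernel, by decide +kernel, by decide +kernel, by decide +kernel, by decide +kernel, by decide +kernel⟩

def t28867 : allY (E.wth T1) l28867 = true ∧
    allY (E.wth T1) l28868 = true ∧
    allY (E.wth T1) l28869 = true ∧
    allY (E.wth T1) l28870 = true ∧
    allY (E.wth T1) l28871 = true ∧
    allY (E.wth T1) l28872 = true ∧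
    allY (E.wth T1) l28873 = true ∧
    allY (E.wth T1) l28874 = true :=
  ⟨by decide +kernel, by decide +kernel, by decide +kernel, by decide +kernel, by decide +kernel, by decide +kernel, by decide +kernel, by decide +kernel⟩

def t28875 : allY (E.wth T1) l28875 = true ∧
    allY (E.wth T1) l28876 = true ∧
    allY (E.wth T1) l28877 = true ∧
    allY (E.wth T1) l28878 = true ∧
    allY (E.wth T1) l28879 = true ∧
    allY (E.wth T1) l28880 = true ∧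
    allY (E.wth T1) l28881 = true ∧
    allY (E.wth T1) l28882 = true :=
  ⟨by decide +kernel, by decide +kernel, by decide +kernel, by decide +kernel, by decide +kernel, by decide +kernel, by decide +kernel, by decide +kernel⟩

def t28883 : allY (E.wth T1) l28883 = true ∧
    allY (E.wth T1) l28884 = true ∧
    allY (E.wth T1) l28885 = true ∧
    allY (E.wth T1) l28886 = true ∧
    allY (E.wth T1) l28887 = true ∧
    allY (E.wth T1) l28888 = true ∧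
    allY (E.wth T1) l28889 = true ∧
    allY (E.wth T1) l28890 = true :=
  ⟨by decide +kernel, by decide +kernel, by decide +kernel, by decide +kernel, by decide +kernel, by decide +kernel, by decide +kernel, by decide +kernel⟩

def t28891 : allY (E.wth T1) l28891 = true ∧
    allY (E.wth T1) l28892 = true ∧
    allY (E.wth T1) l28893 = true ∧
    allY (E.wth T1) l28894 = true ∧
    allY (E.wth T1) l28895 = true ∧
    allY (E.wth T1) l28896 = true ∧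
    allY (E.wth T1) l28897 = true ∧
    allY (E.wth T1) l28898 = true :=
  ⟨by decide +kernel, by decide +kernel, by decide +kernel, by decide +kernel, by decide +kernel, by decide +kernel, by decide +kernel, by decide +kernel⟩

def t28899 : allY (E.wth T1) l28899 = true ∧
    allY (E.wth T1) l28900 = true ∧
    allY (E.wth T1) l28901 = true ∧
    allY (E.wth T1) l28902 = true ∧
    allY (E.wth T1) l28903 = true ∧
    allY (E.wth T1) l28904 = true ∧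
    allY (E.wth T1) l28905 = true ∧
    allY (E.wth T1) l28906 = true :=
  ⟨by decide +kernel, by decide +kernel, by decide +kernel, by decide +kernel, by decide +kernel, by decide +kernel, by decide +kernel, by decide +kernel⟩

def t28907 : allY (E.wth T1) l28907 = true ∧
    allY (E.wth T1) l28908 = true ∧
    allY (E.wth T1) l28909 = true ∧
    allY (E.wth T1) l28910 = true ∧
    allY (E.wth T1) l28911 = true ∧
    allY (E.wth T1) l28912 = true ∧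
    allY (E.wth T1) l28913 = true ∧
    allY (E.wth T1) l28914 = true :=
  ⟨by decide +kernel, by decide +kernel, by decide +kernel, by decide +kernel, by decide +kernel, by decide +kernel, by decide +kernel, by decide +kernel⟩

def t28915 : allY (E.wth T1) l28915 = true ∧
    allY (E.wth T1) l28916 = true ∧
    allY (E.wth T1) l28917 = true ∧
    allY (E.wth T1) l28918 = true ∧
    allY (E.wth T1) l28919 = true ∧
    allY (E.wth T1) l28920 = true ∧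
    allY (E.wth T1) l28921 = true ∧
    allY (E.wth T1) l28922 = true :=
  ⟨by decide +kernel, by decide +kernel, by decide +kernel, by decide +kernel, by decide +kernel, by decide +kernel, by decide +kernel, by decide +kernel⟩

def t28923 : allY (E.wth T1) l28923 = true ∧
    allY (E.wth T1) l28924 = true ∧
    allY (E.wth T1) l28925 = true ∧
    allY (E.wth T1) l28926 = true ∧
    allY (E.wth T1) l28927 = true ∧
    allY (E.wth T1) l28928 = true ∧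
    allY (E.wth T1) l28929 = true ∧
    allY (E.wth T1) l28930 = true :=
  ⟨by decide +kernel, by decide +kernel, by decide +kernel, by decide +kernel, by decide +kernel, by decide +kernel, by decide +kernel, by decide +kernel⟩

def t28931 : allY (E.wth T1) l28931 = true ∧
    allY (E.wth T1) l28932 = true ∧
    allY (E.wth T1) l28933 = true ∧
    allY (E.wth T1) l28934 = true ∧
    allY (E.wth T1) l28935 = true ∧
    allY (E.wth T1) l28936 = true ∧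
    allY (E.wth T1) l28937 = true ∧
    allY (E.wth T1) l28938 = true :=
  ⟨by decide +kernel, by decide +kernel, by decide +kernel, by decide +kernel, by decide +kernel, by decide +kernel, by decide +kernel, by decide +kernel⟩

def t28939 : allY (E.wth T1) l28939 = true ∧
    allY (E.wth T1) l28940 = true ∧
    allY (E.wth T1) l28941 = true ∧
    allY (E.wth T1) l28942 = true ∧
    allY (E.wth T1) l28943 = true ∧
    allY (E.wth T1) l28944 = true ∧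
    allY (E.wth T1) l28945 = true ∧
    allY (E.wth T1) l28946 = true :=
  ⟨by decide +kernel, by decide +kernel, by decide +kernel, by decide +kernel, by decide +kernel, by decide +kernel, by decide +kernel, by decide +kernel⟩

def t28947 : allY (E.wth T1) l28947 = true ∧
    allY (E.wth T1) l28948 = true ∧
    allY (E.wth T1) l28949 = true ∧
    allY (E.wth T1) l28950 = true ∧
    allY (E.wth T1) l28951 = true ∧
    allY (E.wth T1) l28952 = true ∧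
    allY (E.wth T1) l28953 = true ∧
    allY (E.wth T1) l28954 = true :=
  ⟨by decide +kernel, by decide +kernel, by decide +kernel, by decide +kernel, by decide +kernel, by decide +kernel, by decide +kernel, by decide +kernel⟩

def t28955 : allY (E.wth T1) l28955 = true ∧
    allY (E.wth T1) l28956 = true ∧
    allY (E.wth T1) l28957 = true ∧
    allY (E.wth T1) l28958 = true ∧
    allY (E.wth T1) l28959 = true ∧
    allY (E.wth T1) l28960 = true ∧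
    allY (E.wth T1) l28961 = true ∧
    allY (E.wth T1) l28962 = true :=
  ⟨by decide +kernel, by decide +kernel, by decide +kernel, by decide +kernel, by decide +kernel, by decide +kernel, by decide +kernel, by decide +kernel⟩

def t28963 : allY (E.wth T1) l28963 = true ∧
    allY (E.wth T1) l28964 = true ∧
    allY (E.wth T1) l28965 = true ∧
    allY (E.wth T1) l28966 = true ∧
    allY (E.wth T1) l28967 = true ∧
    allY (E.wth T1) l28968 = true ∧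
    allY (E.wth T1) l28969 = true ∧
    allY (E.wth T1) l28970 = true :=
  ⟨by decide +kernel, by decide +kernel, by decide +kernel, by decide +kernel, by decide +kernel, by decide +kernel, by decide +kernel, by decide +kernel⟩

def t28971 : allY (E.wth T1) l28971 = true ∧
    allY (E.wth T1) l28972 = true ∧
    allY (E.wth T1) l28973 = true ∧
    allY (E.wth T1) l28974 = true ∧
    allY (E.wth T1) l28975 = true ∧
    allY (E.wth T1) l28976 = true ∧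
    allY (E.wth T1) l28977 = true ∧
    allY (E.wth T1) l28978 = true :=
  ⟨by decide +kernel, by decide +kernel, by decide +kernel, by decide +kernel, by decide +kernel, by decide +kernel, by decide +kernel, by decide +kernel⟩

def t28979 : allY (E.wth T1) l28979 = true ∧
    allY (E.wth T1) l28980 = true ∧
    allY (E.wth T1) l28981 = true ∧
    allY (E.wth T1) l28982 = true ∧
    allY (E.wth T1) l28983 = true ∧
    allY (E.wth T1) l28984 = true ∧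
    allY (E.wth T1) l28985 = true ∧
    allY (E.wth T1) l28986 = true :=
  ⟨by decide +kernel, by decide +kernel, by decide +kernel, by decide +kernel, by decide +kernel, by decide +kernel, by decide +kernel, by decide +kernel⟩

def t28987 : allY (E.wth T1) l28987 = true ∧
    allY (E.wth T1) l28988 = true ∧
    allY (E.wth T1) l28989 = true ∧
    allY (E.wth T1) l28990 = true ∧
    allY (E.wth T1) l28991 = true ∧
    allY (E.wth T1) l28992 = true ∧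
    allY (E.wth T1) l28993 = true ∧
    allY (E.wth T1) l28994 = true :=
  ⟨by decide +kernel, by decide +kernel, by decide +kernel, by decide +kernel, by decide +kernel, by decide +kernel, by decide +kernel, by decide +kernel⟩

def t28995 : allY (E.wth T1) l28995 = true ∧
    allY (E.wth T1) l28996 = true ∧
    allY (E.wth T1) l28997 = true ∧
    allY (E.wth T1) l28998 = true ∧
    allY (E.wth T1) l28999 = true ∧
    allY (E.wth T1) l29000 = true ∧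
    allY (E.wth T1) l29001 = true ∧
    allY (E.wth T1) l29002 = true :=
  ⟨by decide +kernel, by decide +kernel, by decide +kernel, by decide +kernel, by decide +kernel, by decide +kernel, by decide +kernel, by decide +kernel⟩

def t29003 : allY (E.wth T1) l29003 = true ∧
    allY (E.wth T1) l29004 = true ∧
    allY (E.wth T1) l29005 = true ∧
    allY (E.wth T1) l29006 = true ∧
    allY (E.wth T1) l29007 = true ∧
    allY (E.wth T1) l29008 = true ∧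
    allY (E.wth T1) l29009 = true ∧
    allY (E.wth T1) l29010 = true :=
  ⟨by decide +kernel, by decide +kernel, by decide +kernel, by decide +kernel, by decide +kernel, by decide +kernel, by decide +kernel, by decide +kernel⟩

def t29011 : allY (E.wth T1) l29011 = true ∧
    allY (E.wth T1) l29012 = true ∧
    allY (E.wth T1) l29013 = true ∧
    allY (E.wth T1) l29014 = true ∧
    allY (E.wth T1) l29015 = true ∧
    allY (E.wth T1) l29016 = true ∧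
    allY (E.wth T1) l29017 = true ∧
    allY (E.wth T1) l29018 = true :=
  ⟨by decide +kernel, by decide +kernel, by decide +kernel, by decide +kernel, by decide +kernel, by decide +kernel, by decide +kernel, by decide +kernel⟩

def t29019 : allY (E.wth T1) l29019 = true ∧
    allY (E.wth T1) l29020 = true ∧
    allY (E.wth T1) l29021 = true ∧
    allY (E.wth T1) l29022 = true ∧
    allY (E.wth T1) l29023 = true ∧
    allY (E.wth T1) l29024 = true ∧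
    allY (E.wth T1) l29025 = true ∧
    allY (E.wth T1) l29026 = true :=
  ⟨by decide +kernel, by decide +kernel, by decide +kernel, by decide +kernel, by decide +kernel, by decide +kernel, by decide +kernel, by decide +kernel⟩

def t29027 : allY (E.wth T1) l29027 = true ∧
    allY (E.wth T1) l29028 = true ∧
    allY (E.wth T1) l29029 = true ∧
    allY (E.wth T1) l29030 = true ∧
    allY (E.wth T1) l29031 = true ∧
    allY (E.wth T1) l29032 = true ∧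
    allY (E.wth T1) l29033 = true ∧
    allY (E.wth T1) l29034 = true :=
  ⟨by decide +kernel, by decide +kernel, by decide +kernel, by decide +kernel, by decide +kernel, by decide +kernel, by decide +kernel, by decide +kernel⟩

def t29035 : allY (E.wth T1) l29035 = true ∧
    allY (E.wth T1) l29036 = true ∧
    allY (E.wth T1) l29037 = true ∧
    allY (E.wth T1) l29038 = true ∧
    allY (E.wth T1) l29039 = true ∧
    allY (E.wth T1) l29040 = true ∧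
    allY (E.wth T1) l29041 = true ∧
    allY (E.wth T1) l29042 = true :=
  ⟨by decide +kernel, by decide +kernel, by decide +kernel, by decide +kernel, by decide +kernel, by decide +kernel, by decide +kernel, by decide +kernel⟩

def t29043 : allY (E.wth T1) l29043 = true ∧
    allY (E.wth T1) l29044 = true ∧
    allY (E.wth T1) l29045 = true ∧
    allY (E.wth T1) l29046 = true ∧
    allY (E.wth T1) l29047 = true ∧
    allY (E.wth T1) l29048 = true ∧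
    allY (E.wth T1) l29049 = true ∧
    allY (E.wth T1) l29050 = true :=
  ⟨by decide +kernel, by decide +kernel, by decide +kernel, by decide +kernel, by decide +kernel, by decide +kernel, by decide +kernel, by decide +kernel⟩

def t29051 : allY (E.wth T1) l29051 = true ∧
    allY (E.wth T1) l29052 = true ∧
    allY (E.wth T1) l29053 = true ∧
    allY (E.wth T1) l29054 = true ∧
    allY (E.wth T1) l29055 = true ∧
    allY (E.wth T1) l29056 = true ∧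
    allY (E.wth T1) l29057 = true ∧
    allY (E.wth T1) l29058 = true :=
  ⟨by decide +kernel, by decide +kernel, by decide +kernel, by decide +kernel, by decide +kernel, by decide +kernel, by decide +kernel, by decide +kernel⟩

def t29059 : allY (E.wth T1) l29059 = true ∧
    allY (E.wth T1) l29060 = true ∧
    allY (E.wth T1) l29061 = true ∧
    allY (E.wth T1) l29062 = true ∧
    allY (E.wth T1) l29063 = true ∧
    allY (E.wth T1) l29064 = true ∧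
    allY (E.wth T1) l29065 = true ∧
    allY (E.wth T1) l29066 = true :=
  ⟨by decide +kernel, by decide +kernel, by decide +kernel, by decide +kernel, by decide +kernel, by decide +kernel, by decide +kernel, by decide +kernel⟩

def t29067 : allY (E.wth T1) l29067 = true ∧
    allY (E.wth T1) l29068 = true ∧
    allY (E.wth T1) l29069 = true ∧
    allY (E.wth T1) l29070 = true ∧
    allY (E.wth T1) l29071 = true ∧
    allY (E.wth T1) l29072 = true ∧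
    allY (E.wth T1) l29073 = true ∧
    allY (E.wth T1) l29074 = true :=
  ⟨by decide +kernel, by decide +kernel, by decide +kernel, by decide +kernel, by decide +kernel, by decide +kernel, by decide +kernel, by decide +kernel⟩

def t29075 : allY (E.wth T1) l29075 = true ∧
    allY (E.wth T1) l29076 = true ∧
    allY (E.wth T1) l29077 = true ∧
    allY (E.wth T1) l29078 = true ∧
    allY (E.wth T1) l29079 = true ∧
    allY (E.wth T1) l29080 = true ∧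
    allY (E.wth T1) l29081 = true ∧
    allY (E.wth T1) l29082 = true :=
  ⟨by decide +kernel, by decide +kernel, by decide +kernel, by decide +kernel, by decide +kernel, by decide +kernel, by decide +kernel, by decide +kernel⟩

def t29083 : allY (E.wth T1) l29083 = true ∧
    allY (E.wth T1) l29084 = true ∧
    allY (E.wth T1) l29085 = true ∧
    allY (E.wth T1) l29086 = true ∧
    allY (E.wth T1) l29087 = true ∧
    allY (E.wth T1) l29088 = true ∧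
    allY (E.wth T1) l29089 = true ∧
    allY (E.wth T1) l29090 = true :=
  ⟨by decide +kernel, by decide +kernel, by decide +kernel, by decide +kernel, by decide +kernel, by decide +kernel, by decide +kernel, by decide +kernel⟩

def t29091 : allY (E.wth T1) l29091 = true ∧
    allY (E.wth T1) l29092 = true ∧
    allY (E.wth T1) l29093 = true ∧
    allY (E.wth T1) l29094 = true ∧
    allY (E.wth T1) l29095 = true ∧
    allY (E.wth T1) l29096 = true ∧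
    allY (E.wth T1) l29097 = true ∧
    allY (E.wth T1) l29098 = true :=
  ⟨by decide +kernel, by decide +kernel, by decide +kernel, by decide +kernel, by decide +kernel, by decide +kernel, by decide +kernel, by decide +kernel⟩

def t29099 : allY (E.wth T1) l29099 = true ∧
    allY (E.wth T1) l29100 = true ∧
    allY (E.wth T1) l29101 = true ∧
    allY (E.wth T1) l29102 = true ∧
    allY (E.wth T1) l29103 = true ∧
    allY (E.wth T1) l29104 = true ∧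
    allY (E.wth T1) l29105 = true ∧
    allY (E.wth T1) l29106 = true :=
  ⟨by decide +kernel, by decide +kernel, by decide +kernel, by decide +kernel, by decide +kernel, by decide +kernel, by decide +kernel, by decide +kernel⟩

def t29107 : allY (E.wth T1) l29107 = true ∧
    allY (E.wth T1) l29108 = true ∧
    allY (E.wth T1) l29109 = true ∧
    allY (E.wth T1) l29110 = true ∧
    allY (E.wth T1) l29111 = true ∧
    allY (E.wth T1) l29112 = true ∧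
    allY (E.wth T1) l29113 = true ∧
    allY (E.wth T1) l29114 = true :=
  ⟨by decide +kernel, by decide +kernel, by decide +kernel, by decide +kernel, by decide +kernel, by decide +kernel, by decide +kernel, by decide +kernel⟩

def t29115 : allY (E.wth T1) l29115 = true ∧
    allY (E.wth T1) l29116 = true ∧
    allY (E.wth T1) l29117 = true ∧
    allY (E.wth T1) l29118 = true ∧
    allY (E.wth T1) l29119 = true ∧
    allY (E.wth T1) l29120 = true ∧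
    allY (E.wth T1) l29121 = true ∧
    allY (E.wth T1) l29122 = true :=
  ⟨by decide +kernel, by decide +kernel, by decide +kernel, by decide +kernel, by decide +kernel, by decide +kernel, by decide +kernel, by decide +kernel⟩

def t29123 : allY (E.wth T1) l29123 = true ∧
    allY (E.wth T1) l29124 = true ∧
    allY (E.wth T1) l29125 = true ∧
    allY (E.wth T1) l29126 = true ∧
    allY (E.wth T1) l29127 = true ∧
    allY (E.wth T1) l29128 = true ∧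
    allY (E.wth T1) l29129 = true ∧
    allY (E.wth T1) l29130 = true :=
  ⟨by decide +kernel, by decide +kernel, by decide +kernel, by decide +kernel, by decide +kernel, by decide +kernel, by decide +kernel, by decide +kernel⟩

def t29131 : allY (E.wth T1) l29131 = true ∧
    allY (E.wth T1) l29132 = true ∧
    allY (E.wth T1) l29133 = true ∧
    allY (E.wth T1) l29134 = true ∧
    allY (E.wth T1) l29135 = true ∧
    allY (E.wth T1) l29136 = true ∧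
    allY (E.wth T1) l29137 = true ∧
    allY (E.wth T1) l29138 = true :=
  ⟨by decide +kernel, by decide +kernel, by decide +kernel, by decide +kernel, by decide +kernel, by decide +kernel, by decide +kernel, by decide +kernel⟩

def t29139 : allY (E.wth T1) l29139 = true ∧
    allY (E.wth T1) l29140 = true ∧
    allY (E.wth T1) l29141 = true ∧
    allY (E.wth T1) l29142 = true ∧
    allY (E.wth T1) l29143 = true ∧
    allY (E.wth T1) l29144 = true ∧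
    allY (E.wth T1) l29145 = true ∧
    allY (E.wth T1) l29146 = true :=
  ⟨by decide +kernel, by decide +kernel, by decide +kernel, by decide +kernel, by decide +kernel, by decide +kernel, by decide +kernel, by decide +kernel⟩

def t29147 : allY (E.wth T1) l29147 = true ∧
    allY (E.wth T1) l29148 = true ∧
    allY (E.wth T1) l29149 = true ∧
    allY (E.wth T1) l29150 = true ∧
    allY (E.wth T1) l29151 = true ∧
    allY (E.wth T1) l29152 = true ∧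
    allY (E.wth T1) l29153 = true ∧
    allY (E.wth T1) l29154 = true :=
  ⟨by decide +kernel, by decide +kernel, by decide +kernel, by decide +kernel, by decide +kernel, by decide +kernel, by decide +kernel, by decide +kernel⟩

def t29155 : allY (E.wth T1) l29155 = true ∧
    allY (E.wth T1) l29156 = true ∧
    allY (E.wth T1) l29157 = true ∧
    allY (E.wth T1) l29158 = true ∧
    allY (E.wth T1) l29159 = true ∧
    allY (E.wth T1) l29160 = true ∧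
    allY (E.wth T1) l29161 = true ∧
    allY (E.wth T1) l29162 = true :=
  ⟨by decide +kernel, by decide +kernel, by decide +kernel, by decide +kernel, by decide +kernel, by decide +kernel, by decide +kernel, by decide +kernel⟩

def t29163 : allY (E.wth T1) l29163 = true ∧
    allY (E.wth T1) l29164 = true ∧
    allY (E.wth T1) l29165 = true ∧
    allY (E.wth T1) l29166 = true ∧
    allY (E.wth T1) l29167 = true ∧
    allY (E.wth T1) l29168 = true ∧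
    allY (E.wth T1) l29169 = true ∧
    allY (E.wth T1) l29170 = true :=
  ⟨by decide +kernel, by decide +kernel, by decide +kernel, by decide +kernel, by decide +kernel, by decide +kernel, by decide +kernel, by decide +kernel⟩

def t29171 : allY (E.wth T1) l29171 = true ∧
    allY (E.wth T1) l29172 = true ∧
    allY (E.wth T1) l29173 = true ∧
    allY (E.wth T1) l29174 = true ∧
    allY (E.wth T1) l29175 = true ∧
    allY (E.wth T1) l29176 = true ∧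
    allY (E.wth T1) l29177 = true ∧
    allY (E.wth T1) l29178 = true :=
  ⟨by decide +kernel, by decide +kernel, by decide +kernel, by decide +kernel, by decide +kernel, by decide +kernel, by decide +kernel, by decide +kernel⟩

def t29179 : allY (E.wth T1) l29179 = true ∧
    allY (E.wth T1) l29180 = true ∧
    allY (E.wth T1) l29181 = true ∧
    allY (E.wth T1) l29182 = true ∧
    allY (E.wth T1) l29183 = true ∧
    allY (E.wth T1) l29184 = true ∧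
    allY (E.wth T1) l29185 = true ∧
    allY (E.wth T1) l29186 = true :=
  ⟨by decide +kernel, by decide +kernel, by decide +kernel, by decide +kernel, by decide +kernel, by decide +kernel, by decide +kernel, by decide +kernel⟩

def t29187 : allY (E.wth T1) l29187 = true ∧
    allY (E.wth T1) l29188 = true ∧
    allY (E.wth T1) l29189 = true ∧
    allY (E.wth T1) l29190 = true ∧
    allY (E.wth T1) l29191 = true ∧
    allY (E.wth T1) l29192 = true ∧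
    allY (E.wth T1) l29193 = true ∧
    allY (E.wth T1) l29194 = true :=
  ⟨by decide +kernel, by decide +kernel, by decide +kernel, by decide +kernel, by decide +kernel, by decide +kernel, by decide +kernel, by decide +kernel⟩

def t29195 : allY (E.wth T1) l29195 = true ∧
    allY (E.wth T1) l29196 = true ∧
    allY (E.wth T1) l29197 = true ∧
    allY (E.wth T1) l29198 = true ∧
    allY (E.wth T1) l29199 = true ∧
    allY (E.wth T1) l29200 = true ∧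
    allY (E.wth T1) l29201 = true ∧
    allY (E.wth T1) l29202 = true :=
  ⟨by decide +kernel, by decide +kernel, by decide +kernel, by decide +kernel, by decide +kernel, by decide +kernel, by decide +kernel, by decide +kernel⟩

def t29203 : allY (E.wth T1) l29203 = true ∧
    allY (E.wth T1) l29204 = true ∧
    allY (E.wth T1) l29205 = true ∧
    allY (E.wth T1) l29206 = true ∧
    allY (E.wth T1) l29207 = true ∧
    allY (E.wth T1) l29208 = true ∧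
    allY (E.wth T1) l29209 = true ∧
    allY (E.wth T1) l29210 = true :=
  ⟨by decide +kernel, by decide +kernel, by decide +kernel, by decide +kernel, by decide +kernel, by decide +kernel, by decide +kernel, by decide +kernel⟩

def t29211 : allY (E.wth T1) l29211 = true ∧
    allY (E.wth T1) l29212 = true ∧
    allY (E.wth T1) l29213 = true ∧
    allY (E.wth T1) l29214 = true ∧
    allY (E.wth T1) l29215 = true ∧
    allY (E.wth T1) l29216 = true ∧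
    allY (E.wth T1) l29217 = true ∧
    allY (E.wth T1) l29218 = true :=
  ⟨by decide +kernel, by decide +kernel, by decide +kernel, by decide +kernel, by decide +kernel, by decide +kernel, by decide +kernel, by decide +kernel⟩

def t29219 : allY (E.wth T1) l29219 = true ∧
    allY (E.wth T1) l29220 = true ∧
    allY (E.wth T1) l29221 = true ∧
    allY (E.wth T1) l29222 = true ∧
    allY (E.wth T1) l29223 = true ∧
    allY (E.wth T1) l29224 = true ∧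
    allY (E.wth T1) l29225 = true ∧
    allY (E.wth T1) l29226 = true :=
  ⟨by decide +kernel, by decide +kernel, by decide +kernel, by decide +kernel, by decide +kernel, by decide +kernel, by decide +kernel, by decide +kernel⟩

def t29227 : allY (E.wth T1) l29227 = true ∧
    allY (E.wth T1) l29228 = true ∧
    allY (E.wth T1) l29229 = true ∧
    allY (E.wth T1) l29230 = true ∧
    allY (E.wth T1) l29231 = true ∧
    allY (E.wth T1) l29232 = true ∧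
    allY (E.wth T1) l29233 = true ∧
    allY (E.wth T1) l29234 = true :=
  ⟨by decide +kernel, by decide +kernel, by decide +kernel, by decide +kernel, by decide +kernel, by decide +kernel, by decide +kernel, by decide +kernel⟩

def t29235 : allY (E.wth T1) l29235 = true ∧
    allY (E.wth T1) l29236 = true ∧
    allY (E.wth T1) l29237 = true ∧
    allY (E.wth T1) l29238 = true ∧
    allY (E.wth T1) l29239 = true ∧
    allY (E.wth T1) l29240 = true ∧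
    allY (E.wth T1) l29241 = true ∧
    allY (E.wth T1) l29242 = true :=
  ⟨by decide +kernel, by decide +kernel, by decide +kernel, by decide +kernel, by decide +kernel, by decide +kernel, by decide +kernel, by decide +kernel⟩

def t29243 : allY (E.wth T1) l29243 = true ∧
    allY (E.wth T1) l29244 = true ∧
    allY (E.wth T1) l29245 = true ∧
    allY (E.wth T1) l29246 = true ∧
    allY (E.wth T1) l29247 = true ∧
    allY (E.wth T1) l29248 = true ∧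
    allY (E.wth T1) l29249 = true ∧
    allY (E.wth T1) l29250 = true :=
  ⟨by decide +kernel, by decide +kernel, by decide +kernel, by decide +kernel, by decide +kernel, by decide +kernel, by decide +kernel, by decide +kernel⟩

def t29251 : allY (E.wth T1) l29251 = true ∧
    allY (E.wth T1) l29252 = true ∧
    allY (E.wth T1) l29253 = true ∧
    allY (E.wth T1) l29254 = true ∧
    allY (E.wth T1) l29255 = true ∧
    allY (E.wth T1) l29256 = true ∧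
    allY (E.wth T1) l29257 = true ∧
    allY (E.wth T1) l29258 = true :=
  ⟨by decide +kernel, by decide +kernel, by decide +kernel, by decide +kernel, by decide +kernel, by decide +kernel, by decide +kernel, by decide +kernel⟩

def t29259 : allY (E.wth T1) l29259 = true ∧
    allY (E.wth T1) l29260 = true ∧
    allY (E.wth T1) l29261 = true ∧
    allY (E.wth T1) l29262 = true ∧
    allY (E.wth T1) l29263 = true ∧
    allY (E.wth T1) l29264 = true ∧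
    allY (E.wth T1) l29265 = true ∧
    allY (E.wth T1) l29266 = true :=
  ⟨by decide +kernel, by decide +kernel, by decide +kernel, by decide +kernel, by decide +kernel, by decide +kernel, by decide +kernel, by decide +kernel⟩

def t29267 : allY (E.wth T1) l29267 = true ∧
    allY (E.wth T1) l29268 = true ∧
    allY (E.wth T1) l29269 = true ∧
    allY (E.wth T1) l29270 = true ∧
    allY (E.wth T1) l29271 = true ∧
    allY (E.wth T1) l29272 = true ∧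
    allY (E.wth T1) l29273 = true ∧
    allY (E.wth T1) l29274 = true :=
  ⟨by decide +kernel, by decide +kernel, by decide +kernel, by decide +kernel, by decide +kernel, by decide +kernel, by decide +kernel, by decide +kernel⟩

def t29275 : allY (E.wth T1) l29275 = true ∧
    allY (E.wth T1) l29276 = true ∧
    allY (E.wth T1) l29277 = true ∧
    allY (E.wth T1) l29278 = true ∧
    allY (E.wth T1) l29279 = true ∧
    allY (E.wth T1) l29280 = true ∧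
    allY (E.wth T1) l29281 = true ∧
    allY (E.wth T1) l29282 = true :=
  ⟨by decide +kernel, by decide +kernel, by decide +kernel, by decide +kernel, by decide +kernel, by decide +kernel, by decide +kernel, by decide +kernel⟩

def t29283 : allY (E.wth T1) l29283 = true ∧
    allY (E.wth T1) l29284 = true ∧
    allY (E.wth T1) l29285 = true ∧
    allY (E.wth T1) l29286 = true ∧
    allY (E.wth T1) l29287 = true ∧
    allY (E.wth T1) l29288 = true ∧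
    allY (E.wth T1) l29289 = true ∧
    allY (E.wth T1) l29290 = true :=
  ⟨by decide +kernel, by decide +kernel, by decide +kernel, by decide +kernel, by decide +kernel, by decide +kernel, by decide +kernel, by decide +kernel⟩

def t29291 : allY (E.wth T1) l29291 = true ∧
    allY (E.wth T1) l29292 = true ∧
    allY (E.wth T1) l29293 = true ∧
    allY (E.wth T1) l29294 = true ∧
    allY (E.wth T1) l29295 = true ∧
    allY (E.wth T1) l29296 = true ∧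
    allY (E.wth T1) l29297 = true ∧
    allY (E.wth T1) l29298 = true :=
  ⟨by decide +kernel, by decide +kernel, by decide +kernel, by decide +kernel, by decide +kernel, by decide +kernel, by decide +kernel, by decide +kernel⟩

def t29299 : allY (E.wth T1) l29299 = true ∧
    allY (E.wth T1) l29300 = true ∧
    allY (E.wth T1) l29301 = true ∧
    allY (E.wth T1) l29302 = true ∧
    allY (E.wth T1) l29303 = true ∧
    allY (E.wth T1) l29304 = true ∧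
    allY (E.wth T1) l29305 = true ∧
    allY (E.wth T1) l29306 = true :=
  ⟨by decide +kernel, by decide +kernel, by decide +kernel, by decide +kernel, by decide +kernel, by decide +kernel, by decide +kernel, by decide +kernel⟩

def t29307 : allY (E.wth T1) l29307 = true ∧
    allY (E.wth T1) l29308 = true ∧
    allY (E.wth T1) l29309 = true ∧
    allY (E.wth T1) l29310 = true ∧
    allY (E.wth T1) l29311 = true ∧
    allY (E.wth T1) l29312 = true ∧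
    allY (E.wth T1) l29313 = true ∧
    allY (E.wth T1) l29314 = true :=
  ⟨by decide +kernel, by decide +kernel, by decide +kernel, by decide +kernel, by decide +kernel, by decide +kernel, by decide +kernel, by decide +kernel⟩

def t29315 : allY (E.wth T1) l29315 = true ∧
    allY (E.wth T1) l29316 = true ∧
    allY (E.wth T1) l29317 = true ∧
    allY (E.wth T1) l29318 = true ∧
    allY (E.wth T1) l29319 = true ∧
    allY (E.wth T1) l29320 = true ∧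
    allY (E.wth T1) l29321 = true ∧
    allY (E.wth T1) l29322 = true :=
  ⟨by decide +kernel, by decide +kernel, by decide +kernel, by decide +kernel, by decide +kernel, by decide +kernel, by decide +kernel, by decide +kernel⟩

def t29323 : allY (E.wth T1) l29323 = true ∧
    allY (E.wth T1) l29324 = true ∧
    allY (E.wth T1) l29325 = true ∧
    allY (E.wth T1) l29326 = true ∧
    allY (E.wth T1) l29327 = true ∧
    allY (E.wth T1) l29328 = true ∧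
    allY (E.wth T1) l29329 = true ∧
    allY (E.wth T1) l29330 = true :=
  ⟨by decide +kernel, by decide +kernel, by decide +kernel, by decide +kernel, by decide +kernel, by decide +kernel, by decide +kernel, by decide +kernel⟩

def t29331 : allY (E.wth T1) l29331 = true ∧
    allY (E.wth T1) l29332 = true ∧
    allY (E.wth T1) l29333 = true ∧
    allY (E.wth T1) l29334 = true ∧
    allY (E.wth T1) l29335 = true ∧
    allY (E.wth T1) l29336 = true ∧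
    allY (E.wth T1) l29337 = true ∧
    allY (E.wth T1) l29338 = true :=
  ⟨by decide +kernel, by decide +kernel, by decide +kernel, by decide +kernel, by decide +kernel, by decide +kernel, by decide +kernel, by decide +kernel⟩

def t29339 : allY (E.wth T1) l29339 = true ∧
    allY (E.wth T1) l29340 = true ∧
    allY (E.wth T1) l29341 = true ∧
    allY (E.wth T1) l29342 = true ∧
    allY (E.wth T1) l29343 = true ∧
    allY (E.wth T1) l29344 = true ∧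
    allY (E.wth T1) l29345 = true ∧
    allY (E.wth T1) l29346 = true :=
  ⟨by decide +kernel, by decide +kernel, by decide +kernel, by decide +kernel, by decide +kernel, by decide +kernel, by decide +kernel, by decide +kernel⟩

def t29347 : allY (E.wth T1) l29347 = true ∧
    allY (E.wth T1) l29348 = true ∧
    allY (E.wth T1) l29349 = true ∧
    allY (E.wth T1) l29350 = true ∧
    allY (E.wth T1) l29351 = true ∧
    allY (E.wth T1) l29352 = true ∧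
    allY (E.wth T1) l29353 = true ∧
    allY (E.wth T1) l29354 = true :=
  ⟨by decide +kernel, by decide +kernel, by decide +kernel, by decide +kernel, by decide +kernel, by decide +kernel, by decide +kernel, by decide +kernel⟩

def t29355 : allY (E.wth T1) l29355 = true ∧
    allY (E.wth T1) l29356 = true ∧
    allY (E.wth T1) l29357 = true ∧
    allY (E.wth T1) l29358 = true ∧
    allY (E.wth T1) l29359 = true ∧
    allY (E.wth T1) l29360 = true ∧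
    allY (E.wth T1) l29361 = true ∧
    allY (E.wth T1) l29362 = true :=
  ⟨by decide +kernel, by decide +kernel, by decide +kernel, by decide +kernel, by decide +kernel, by decide +kernel, by decide +kernel, by decide +kernel⟩

def t29363 : allY (E.wth T1) l29363 = true ∧
    allY (E.wth T1) l29364 = true ∧
    allY (E.wth T1) l29365 = true ∧
    allY (E.wth T1) l29366 = true ∧
    allY (E.wth T1) l29367 = true ∧
    allY (E.wth T1) l29368 = true ∧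
    allY (E.wth T1) l29369 = true ∧
    allY (E.wth T1) l29370 = true :=
  ⟨by decide +kernel, by decide +kernel, by decide +kernel, by decide +kernel, by decide +kernel, by decide +kernel, by decide +kernel, by decide +kernel⟩

def t29371 : allY (E.wth T1) l29371 = true ∧
    allY (E.wth T1) l29372 = true ∧
    allY (E.wth T1) l29373 = true ∧
    allY (E.wth T1) l29374 = true ∧
    allY (E.wth T1) l29375 = true ∧
    allY (E.wth T1) l29376 = true ∧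
    allY (E.wth T1) l29377 = true ∧
    allY (E.wth T1) l29378 = true :=
  ⟨by decide +kernel, by decide +kernel, by decide +kernel, by decide +kernel, by decide +kernel, by decide +kernel, by decide +kernel, by decide +kernel⟩

def t29379 : allY (E.wth T1) l29379 = true ∧
    allY (E.wth T1) l29380 = true ∧
    allY (E.wth T1) l29381 = true ∧
    allY (E.wth T1) l29382 = true ∧
    allY (E.wth T1) l29383 = true ∧
    allY (E.wth T1) l29384 = true ∧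
    allY (E.wth T1) l29385 = true ∧
    allY (E.wth T1) l29386 = true :=
  ⟨by decide +kernel, by decide +kernel, by decide +kernel, by decide +kernel, by decide +kernel, by decide +kernel, by decide +kernel, by decide +kernel⟩

def t29387 : allY (E.wth T1) l29387 = true ∧
    allY (E.wth T1) l29388 = true ∧
    allY (E.wth T1) l29389 = true :=
  ⟨by decide +kernel, by decide +kernel, by decide +kernel⟩

theorem a52 {p : Rf → Prop} (H : ∀ l, allY (E.wth T1) l = true → (lkp l).All p) :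
    b52.All p := ⟨⟨⟨⟨⟨⟨⟨⟨⟨H _ t28843.1, H _ t28843.2.1⟩, ⟨H _ t28843.2.2.1, H _ t28843.2.2.2.1⟩⟩, ⟨⟨H _ t28843.2.2.2.2.1, H _ t28843.2.2.2.2.2.1⟩, ⟨H _ t28843.2.2.2.2.2.2.1, H _ t28843.2.2.2.2.2.2.2⟩⟩⟩, ⟨⟨⟨H _ t28851.1, H _ t28851.2.1⟩, ⟨H _ t28851.2.2.1, H _ t28851.2.2.2.1⟩⟩, ⟨⟨H _ t28851.2.2.2.2.1, H _ t28851.2.2.2.2.2.1⟩, ⟨H _ t28851.2.2.2.2.2.2.1, ⟨H _ t28851.2.2.2.2.2.2.2, H _ t28859.1⟩⟩⟩⟩⟩, ⟨⟨⟨⟨H _ t28859.2.1, H _ t28859.2.2.1⟩, ⟨H _ t28859.2.2.2.1, H _ t28859.2.2.2.2.1⟩⟩, ⟨⟨H _ t28859.2.2.2.2.2.1, H _ t28859.2.2.2.2.2.2.1⟩, ⟨H _ t28859.2.2.2.2.2.2.2, H _ t28867.1⟩⟩⟩, ⟨⟨⟨H _ t28867.2.1, H _ t28867.2.2.1⟩, ⟨H _ t28867.2.2.2.1, H _ t28867.2.2.2.2.1⟩⟩, ⟨⟨H _ t28867.2.2.2.2.2.1, H _ t28867.2.2.2.2.2.2.1⟩, ⟨H _ t28867.2.2.2.2.2.2.2, ⟨H _ t28875.1, H _ t28875.2.1⟩⟩⟩⟩⟩⟩, ⟨⟨⟨⟨⟨H _ t28875.2.2.1, H _ t28875.2.2.2.1⟩, ⟨H _ t28875.2.2.2.2.1, H _ t28875.2.2.2.2.2.1⟩⟩, ⟨⟨H _ t28875.2.2.2.2.2.2.1, H _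 t28875.2.2.2.2.2.2.2⟩, ⟨H _ t28883.1, H _ t28883.2.1⟩⟩⟩, ⟨⟨⟨H _ t28883.2.2.1, H _ t28883.2.2.2.1⟩, ⟨H _ t28883.2.2.2.2.1, H _ t28883.2.2.2.2.2.1⟩⟩, ⟨⟨H _ t28883.2.2.2.2.2.2.1, H _ t28883.2.2.2.2.2.2.2⟩, ⟨H _ t28891.1, ⟨H _ t28891.2.1, H _ t28891.2.2.1⟩⟩⟩⟩⟩, ⟨⟨⟨⟨H _ t28891.2.2.2.1, H _ t28891.2.2.2.2.1⟩, ⟨H _ t28891.2.2.2.2.2.1, H _ t28891.2.2.2.2.2.2.1⟩⟩, ⟨⟨H _ t28891.2.2.2.2.2.2.2, H _ t28899.1⟩, ⟨H _ t28899.2.1, H _ t28899.2.2.1⟩⟩⟩, ⟨⟨⟨H _ t28899.2.2.2.1, H _ t28899.2.2.2.2.1⟩, ⟨H _ t28899.2.2.2.2.2.1, H _ t28899.2.2.2.2.2.2.1⟩⟩, ⟨⟨H _ t28899.2.2.2.2.2.2.2, H _ t28907.1⟩, ⟨H _ t28907.2.1, ⟨H _ t28907.2.2.1, H _ t28907.2.2.2.1⟩⟩⟩⟩⟩⟩⟩, ⟨⟨⟨⟨⟨⟨H _ t28907.2.2.2.2.1, H _ t28907.2.2.2.2.2.1⟩, ⟨H _ t28907.2.2.2.2.2.2.1, H _ t28907.2.2.2.2.2.2.2⟩⟩, ⟨⟨H _ t28915.1, H _ t28915.2.1⟩, ⟨H _ t28915.2.2.1, H _ t28915.2.2.2.1⟩⟩⟩, ⟨⟨⟨H _ t28915.2.2.2.2.1, H _ t28915.2.2.2.2.2.1⟩, ⟨H _ t28915.2.2.2.2.2.2.1, H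 _ t28915.2.2.2.2.2.2.2⟩⟩, ⟨⟨H _ t28923.1, H _ t28923.2.1⟩, ⟨H _ t28923.2.2.1, ⟨H _ t28923.2.2.2.1, H _ t28923.2.2.2.2.1⟩⟩⟩⟩⟩, ⟨⟨⟨⟨H _ t28923.2.2.2.2.2.1, H _ t28923.2.2.2.2.2.2.1⟩, ⟨H _ t28923.2.2.2.2.2.2.2, H _ t28931.1⟩⟩, ⟨⟨H _ t28931.2.1, H _ t28931.2.2.1⟩, ⟨H _ t28931.2.2.2.1, H _ t28931.2.2.2.2.1⟩⟩⟩, ⟨⟨⟨H _ t28931.2.2.2.2.2.1, H _ t28931.2.2.2.2.2.2.1⟩, ⟨H _ t28931.2.2.2.2.2.2.2, H _ t28939.1⟩⟩, ⟨⟨H _ t28939.2.1, H _ t28939.2.2.1⟩, ⟨H _ t28939.2.2.2.1, ⟨H _ t28939.2.2.2.2.1, H _ t28939.2.2.2.2.2.1⟩⟩⟩⟩⟩⟩, ⟨⟨⟨⟨⟨H _ t28939.2.2.2.2.2.2.1, H _ t28939.2.2.2.2.2.2.2⟩, ⟨H _ t28947.1, H _ t28947.2.1⟩⟩, ⟨⟨H _ t28947.2.2.1, H _ t28947.2.2.2.1⟩, ⟨H _ t28947.2.2.2.2.1, H _ t28947.2.2.2.2.2.1⟩⟩⟩, ⟨⟨⟨H _ t28947.2.2.2.2.2.2.1, H _ t28947.2.2.2.2.2.2.2⟩, ⟨H _ t28955.1, H _ t28955.2.1⟩⟩, ⟨⟨H _ t28955.2.2.1, H _ t28955.2.2.2.1⟩, ⟨H _ t28955.2.2.2.2.1, ⟨H _ t28955.2.2.2.2.2.1, H _ t28955.2.2.2.2.2.2.1⟩⟩⟩⟩⟩,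 ⟨⟨⟨⟨H _ t28955.2.2.2.2.2.2.2, H _ t28963.1⟩, ⟨H _ t28963.2.1, H _ t28963.2.2.1⟩⟩, ⟨⟨H _ t28963.2.2.2.1, H _ t28963.2.2.2.2.1⟩, ⟨H _ t28963.2.2.2.2.2.1, H _ t28963.2.2.2.2.2.2.1⟩⟩⟩, ⟨⟨⟨H _ t28963.2.2.2.2.2.2.2, H _ t28971.1⟩, ⟨H _ t28971.2.1, H _ t28971.2.2.1⟩⟩, ⟨⟨H _ t28971.2.2.2.1, H _ t28971.2.2.2.2.1⟩, ⟨H _ t28971.2.2.2.2.2.1, ⟨H _ t28971.2.2.2.2.2.2.1, H _ t28971.2.2.2.2.2.2.2⟩⟩⟩⟩⟩⟩⟩⟩, ⟨⟨⟨⟨⟨⟨⟨H _ t28979.1, H _ t28979.2.1⟩, ⟨H _ t28979.2.2.1, H _ t28979.2.2.2.1⟩⟩, ⟨⟨H _ t28979.2.2.2.2.1, H _ t28979.2.2.2.2.2.1⟩, ⟨H _ t28979.2.2.2.2.2.2.1, H _ t28979.2.2.2.2.2.2.2⟩⟩⟩, ⟨⟨⟨H _ t28987.1, H _ t28987.2.1⟩, ⟨H _ t28987.2.2.1, H _ t28987.2.2.2.1⟩⟩, ⟨⟨H _ t28987.2.2.2.2.1, H _ t28987.2.2.2.2.2.1⟩, ⟨H _ t28987.2.2.2.2.2.2.1, ⟨H _ t28987.2.2.2.2.2.2.2, H _ t28995.1⟩⟩⟩⟩⟩, ⟨⟨⟨⟨H _ t28995.2.1, H _ t28995.2.2.1⟩, ⟨H _ t28995.2.2.2.1, H _ t28995.2.2.2.2.1⟩⟩, ⟨⟨H _ t28995.2.2.2.2.2.1, H _ t28995.2.2.2.2.2.2.1⟩,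 ⟨H _ t28995.2.2.2.2.2.2.2, H _ t29003.1⟩⟩⟩, ⟨⟨⟨H _ t29003.2.1, H _ t29003.2.2.1⟩, ⟨H _ t29003.2.2.2.1, H _ t29003.2.2.2.2.1⟩⟩, ⟨⟨H _ t29003.2.2.2.2.2.1, H _ t29003.2.2.2.2.2.2.1⟩, ⟨H _ t29003.2.2.2.2.2.2.2, ⟨H _ t29011.1, H _ t29011.2.1⟩⟩⟩⟩⟩⟩, ⟨⟨⟨⟨⟨H _ t29011.2.2.1, H _ t29011.2.2.2.1⟩, ⟨H _ t29011.2.2.2.2.1, H _ t29011.2.2.2.2.2.1⟩⟩, ⟨⟨H _ t29011.2.2.2.2.2.2.1, H _ t29011.2.2.2.2.2.2.2⟩, ⟨H _ t29019.1, H _ t29019.2.1⟩⟩⟩, ⟨⟨⟨H _ t29019.2.2.1, H _ t29019.2.2.2.1⟩, ⟨H _ t29019.2.2.2.2.1, H _ t29019.2.2.2.2.2.1⟩⟩, ⟨⟨H _ t29019.2.2.2.2.2.2.1, H _ t29019.2.2.2.2.2.2.2⟩, ⟨H _ t29027.1, ⟨H _ t29027.2.1, H _ t29027.2.2.1⟩⟩⟩⟩⟩, ⟨⟨⟨⟨H _ t29027.2.2.2.1, H _ t29027.2.2.2.2.1⟩, ⟨H _ t29027.2.2.2.2.2.1, H _ t29027.2.2.2.2.2.2.1⟩⟩, ⟨⟨H _ t29027.2.2.2.2.2.2.2, H _ t29035.1⟩, ⟨H _ t29035.2.1, H _ t29035.2.2.1⟩⟩⟩, ⟨⟨⟨H _ t29035.2.2.2.1, H _ t29035.2.2.2.2.1⟩, ⟨H _ t29035.2.2.2.2.2.1, H _ t29035.2.2.2.2.2.2.1⟩⟩,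 ⟨⟨H _ t29035.2.2.2.2.2.2.2, H _ t29043.1⟩, ⟨H _ t29043.2.1, ⟨H _ t29043.2.2.1, H _ t29043.2.2.2.1⟩⟩⟩⟩⟩⟩⟩, ⟨⟨⟨⟨⟨⟨H _ t29043.2.2.2.2.1, H _ t29043.2.2.2.2.2.1⟩, ⟨H _ t29043.2.2.2.2.2.2.1, H _ t29043.2.2.2.2.2.2.2⟩⟩, ⟨⟨H _ t29051.1, H _ t29051.2.1⟩, ⟨H _ t29051.2.2.1, H _ t29051.2.2.2.1⟩⟩⟩, ⟨⟨⟨H _ t29051.2.2.2.2.1, H _ t29051.2.2.2.2.2.1⟩, ⟨H _ t29051.2.2.2.2.2.2.1, H _ t29051.2.2.2.2.2.2.2⟩⟩, ⟨⟨H _ t29059.1, H _ t29059.2.1⟩, ⟨H _ t29059.2.2.1, ⟨H _ t29059.2.2.2.1, H _ t29059.2.2.2.2.1⟩⟩⟩⟩⟩, ⟨⟨⟨⟨H _ t29059.2.2.2.2.2.1, H _ t29059.2.2.2.2.2.2.1⟩, ⟨H _ t29059.2.2.2.2.2.2.2, H _ t29067.1⟩⟩, ⟨⟨H _ t29067.2.1, H _ t29067.2.2.1⟩, ⟨H _ t29067.2.2.2.1, H _ t29067.2.2.2.2.1⟩⟩⟩, ⟨⟨⟨H _ t29067.2.2.2.2.2.1, H _ t29067.2.2.2.2.2.2.1⟩, ⟨H _ t29067.2.2.2.2.2.2.2, H _ t29075.1⟩⟩, ⟨⟨H _ t29075.2.1, H _ t29075.2.2.1⟩, ⟨H _ t29075.2.2.2.1, ⟨H _ t29075.2.2.2.2.1, H _ t29075.2.2.2.2.2.1⟩⟩⟩⟩⟩⟩, ⟨⟨⟨⟨⟨H _ t29075.2.2.2.2.2.2.1,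 H _ t29075.2.2.2.2.2.2.2⟩, ⟨H _ t29083.1, H _ t29083.2.1⟩⟩, ⟨⟨H _ t29083.2.2.1, H _ t29083.2.2.2.1⟩, ⟨H _ t29083.2.2.2.2.1, H _ t29083.2.2.2.2.2.1⟩⟩⟩, ⟨⟨⟨H _ t29083.2.2.2.2.2.2.1, H _ t29083.2.2.2.2.2.2.2⟩, ⟨H _ t29091.1, H _ t29091.2.1⟩⟩, ⟨⟨H _ t29091.2.2.1, H _ t29091.2.2.2.1⟩, ⟨H _ t29091.2.2.2.2.1, ⟨H _ t29091.2.2.2.2.2.1, H _ t29091.2.2.2.2.2.2.1⟩⟩⟩⟩⟩, ⟨⟨⟨⟨H _ t29091.2.2.2.2.2.2.2, H _ t29099.1⟩, ⟨H _ t29099.2.1, H _ t29099.2.2.1⟩⟩, ⟨⟨H _ t29099.2.2.2.1, H _ t29099.2.2.2.2.1⟩, ⟨H _ t29099.2.2.2.2.2.1, ⟨H _ t29099.2.2.2.2.2.2.1, H _ t29099.2.2.2.2.2.2.2⟩⟩⟩⟩, ⟨⟨⟨H _ t29107.1, H _ t29107.2.1⟩, ⟨H _ t29107.2.2.1, H _ t29107.2.2.2.1⟩⟩, ⟨⟨H _ t29107.2.2.2.2.1, H _ t29107.2.2.2.2.2.1⟩, ⟨H _ t29107.2.2.2.2.2.2.1, ⟨H _ t29107.2.2.2.2.2.2.2, H _ t29115.1⟩⟩⟩⟩⟩⟩⟩⟩⟩, ⟨⟨⟨⟨⟨⟨⟨⟨H _ t29115.2.1, H _ t29115.2.2.1⟩, ⟨H _ t29115.2.2.2.1, H _ t29115.2.2.2.2.1⟩⟩, ⟨⟨H _ t29115.2.2.2.2.2.1, H _ t29115.2.2.2.2.2.2.1⟩,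 ⟨H _ t29115.2.2.2.2.2.2.2, H _ t29123.1⟩⟩⟩, ⟨⟨⟨H _ t29123.2.1, H _ t29123.2.2.1⟩, ⟨H _ t29123.2.2.2.1, H _ t29123.2.2.2.2.1⟩⟩, ⟨⟨H _ t29123.2.2.2.2.2.1, H _ t29123.2.2.2.2.2.2.1⟩, ⟨H _ t29123.2.2.2.2.2.2.2, ⟨H _ t29131.1, H _ t29131.2.1⟩⟩⟩⟩⟩, ⟨⟨⟨⟨H _ t29131.2.2.1, H _ t29131.2.2.2.1⟩, ⟨H _ t29131.2.2.2.2.1, H _ t29131.2.2.2.2.2.1⟩⟩, ⟨⟨H _ t29131.2.2.2.2.2.2.1, H _ t29131.2.2.2.2.2.2.2⟩, ⟨H _ t29139.1, H _ t29139.2.1⟩⟩⟩, ⟨⟨⟨H _ t29139.2.2.1, H _ t29139.2.2.2.1⟩, ⟨H _ t29139.2.2.2.2.1, H _ t29139.2.2.2.2.2.1⟩⟩, ⟨⟨H _ t29139.2.2.2.2.2.2.1, H _ t29139.2.2.2.2.2.2.2⟩, ⟨H _ t29147.1, ⟨H _ t29147.2.1, H _ t29147.2.2.1⟩⟩⟩⟩⟩⟩, ⟨⟨⟨⟨⟨H _ t29147.2.2.2.1, H _ t29147.2.2.2.2.1⟩, ⟨H _ t29147.2.2.2.2.2.1, H _ t29147.2.2.2.2.2.2.1⟩⟩, ⟨⟨H _ t29147.2.2.2.2.2.2.2, H _ t29155.1⟩, ⟨H _ t29155.2.1, H _ t29155.2.2.1⟩⟩⟩, ⟨⟨⟨H _ t29155.2.2.2.1, H _ t29155.2.2.2.2.1⟩, ⟨H _ t29155.2.2.2.2.2.1, H _ t29155.2.2.2.2.2.2.1⟩⟩,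 ⟨⟨H _ t29155.2.2.2.2.2.2.2, H _ t29163.1⟩, ⟨H _ t29163.2.1, ⟨H _ t29163.2.2.1, H _ t29163.2.2.2.1⟩⟩⟩⟩⟩, ⟨⟨⟨⟨H _ t29163.2.2.2.2.1, H _ t29163.2.2.2.2.2.1⟩, ⟨H _ t29163.2.2.2.2.2.2.1, H _ t29163.2.2.2.2.2.2.2⟩⟩, ⟨⟨H _ t29171.1, H _ t29171.2.1⟩, ⟨H _ t29171.2.2.1, H _ t29171.2.2.2.1⟩⟩⟩, ⟨⟨⟨H _ t29171.2.2.2.2.1, H _ t29171.2.2.2.2.2.1⟩, ⟨H _ t29171.2.2.2.2.2.2.1, H _ t29171.2.2.2.2.2.2.2⟩⟩, ⟨⟨H _ t29179.1, H _ t29179.2.1⟩, ⟨H _ t29179.2.2.1, ⟨H _ t29179.2.2.2.1, H _ t29179.2.2.2.2.1⟩⟩⟩⟩⟩⟩⟩, ⟨⟨⟨⟨⟨⟨H _ t29179.2.2.2.2.2.1, H _ t29179.2.2.2.2.2.2.1⟩, ⟨H _ t29179.2.2.2.2.2.2.2, H _ t29187.1⟩⟩, ⟨⟨H _ t29187.2.1, H _ t29187.2.2.1⟩, ⟨H _ t29187.2.2.2.1, H _ t29187.2.2.2.2.1⟩⟩⟩, ⟨⟨⟨H _ t29187.2.2.2.2.2.1, H _ t29187.2.2.2.2.2.2.1⟩, ⟨H _ t29187.2.2.2.2.2.2.2, H _ t29195.1⟩⟩, ⟨⟨H _ t29195.2.1, H _ t29195.2.2.1⟩, ⟨H _ t29195.2.2.2.1, ⟨H _ t29195.2.2.2.2.1, H _ t29195.2.2.2.2.2.1⟩⟩⟩⟩⟩, ⟨⟨⟨⟨H _ t29195.2.2.2.2.2.2.1,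 H _ t29195.2.2.2.2.2.2.2⟩, ⟨H _ t29203.1, H _ t29203.2.1⟩⟩, ⟨⟨H _ t29203.2.2.1, H _ t29203.2.2.2.1⟩, ⟨H _ t29203.2.2.2.2.1, H _ t29203.2.2.2.2.2.1⟩⟩⟩, ⟨⟨⟨H _ t29203.2.2.2.2.2.2.1, H _ t29203.2.2.2.2.2.2.2⟩, ⟨H _ t29211.1, H _ t29211.2.1⟩⟩, ⟨⟨H _ t29211.2.2.1, H _ t29211.2.2.2.1⟩, ⟨H _ t29211.2.2.2.2.1, ⟨H _ t29211.2.2.2.2.2.1, H _ t29211.2.2.2.2.2.2.1⟩⟩⟩⟩⟩⟩, ⟨⟨⟨⟨⟨H _ t29211.2.2.2.2.2.2.2, H _ t29219.1⟩, ⟨H _ t29219.2.1, H _ t29219.2.2.1⟩⟩, ⟨⟨H _ t29219.2.2.2.1, H _ t29219.2.2.2.2.1⟩, ⟨H _ t29219.2.2.2.2.2.1, H _ t29219.2.2.2.2.2.2.1⟩⟩⟩, ⟨⟨⟨H _ t29219.2.2.2.2.2.2.2, H _ t29227.1⟩, ⟨H _ t29227.2.1, H _ t29227.2.2.1⟩⟩, ⟨⟨H _ t29227.2.2.2.1, H _ t29227.2.2.2.2.1⟩, ⟨H _ t29227.2.2.2.2.2.1, ⟨H _ t29227.2.2.2.2.2.2.1, H _ t29227.2.2.2.2.2.2.2⟩⟩⟩⟩⟩, ⟨⟨⟨⟨H _ t29235.1, H _ t29235.2.1⟩, ⟨H _ t29235.2.2.1, H _ t29235.2.2.2.1⟩⟩, ⟨⟨H _ t29235.2.2.2.2.1, H _ t29235.2.2.2.2.2.1⟩, ⟨H _ t29235.2.2.2.2.2.2.1, ⟨H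 _ t29235.2.2.2.2.2.2.2, H _ t29243.1⟩⟩⟩⟩, ⟨⟨⟨H _ t29243.2.1, H _ t29243.2.2.1⟩, ⟨H _ t29243.2.2.2.1, H _ t29243.2.2.2.2.1⟩⟩, ⟨⟨H _ t29243.2.2.2.2.2.1, H _ t29243.2.2.2.2.2.2.1⟩, ⟨H _ t29243.2.2.2.2.2.2.2, ⟨H _ t29251.1, H _ t29251.2.1⟩⟩⟩⟩⟩⟩⟩⟩, ⟨⟨⟨⟨⟨⟨⟨H _ t29251.2.2.1, H _ t29251.2.2.2.1⟩, ⟨H _ t29251.2.2.2.2.1, H _ t29251.2.2.2.2.2.1⟩⟩, ⟨⟨H _ t29251.2.2.2.2.2.2.1, H _ t29251.2.2.2.2.2.2.2⟩, ⟨H _ t29259.1, H _ t29259.2.1⟩⟩⟩, ⟨⟨⟨H _ t29259.2.2.1, H _ t29259.2.2.2.1⟩, ⟨H _ t29259.2.2.2.2.1, H _ t29259.2.2.2.2.2.1⟩⟩, ⟨⟨H _ t29259.2.2.2.2.2.2.1, H _ t29259.2.2.2.2.2.2.2⟩, ⟨H _ t29267.1, ⟨H _ t29267.2.1, H _ t29267.2.2.1⟩⟩⟩⟩⟩, ⟨⟨⟨⟨H _ t29267.2.2.2.1, H _ t29267.2.2.2.2.1⟩, ⟨H _ t29267.2.2.2.2.2.1, H _ t29267.2.2.2.2.2.2.1⟩⟩, ⟨⟨H _ t29267.2.2.2.2.2.2.2, H _ t29275.1⟩, ⟨H _ t29275.2.1, H _ t29275.2.2.1⟩⟩⟩, ⟨⟨⟨H _ t29275.2.2.2.1, H _ t29275.2.2.2.2.1⟩, ⟨H _ t29275.2.2.2.2.2.1, H _ t29275.2.2.2.2.2.2.1⟩⟩,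 ⟨⟨H _ t29275.2.2.2.2.2.2.2, H _ t29283.1⟩, ⟨H _ t29283.2.1, ⟨H _ t29283.2.2.1, H _ t29283.2.2.2.1⟩⟩⟩⟩⟩⟩, ⟨⟨⟨⟨⟨H _ t29283.2.2.2.2.1, H _ t29283.2.2.2.2.2.1⟩, ⟨H _ t29283.2.2.2.2.2.2.1, H _ t29283.2.2.2.2.2.2.2⟩⟩, ⟨⟨H _ t29291.1, H _ t29291.2.1⟩, ⟨H _ t29291.2.2.1, H _ t29291.2.2.2.1⟩⟩⟩, ⟨⟨⟨H _ t29291.2.2.2.2.1, H _ t29291.2.2.2.2.2.1⟩, ⟨H _ t29291.2.2.2.2.2.2.1, H _ t29291.2.2.2.2.2.2.2⟩⟩, ⟨⟨H _ t29299.1, H _ t29299.2.1⟩, ⟨H _ t29299.2.2.1, ⟨H _ t29299.2.2.2.1, H _ t29299.2.2.2.2.1⟩⟩⟩⟩⟩, ⟨⟨⟨⟨H _ t29299.2.2.2.2.2.1, H _ t29299.2.2.2.2.2.2.1⟩, ⟨H _ t29299.2.2.2.2.2.2.2, H _ t29307.1⟩⟩, ⟨⟨H _ t29307.2.1, H _ t29307.2.2.1⟩, ⟨H _ t29307.2.2.2.1, H _ t29307.2.2.2.2.1⟩⟩⟩, ⟨⟨⟨H _ t29307.2.2.2.2.2.1, H _ t29307.2.2.2.2.2.2.1⟩, ⟨H _ t29307.2.2.2.2.2.2.2, H _ t29315.1⟩⟩, ⟨⟨H _ t29315.2.1, H _ t29315.2.2.1⟩, ⟨H _ t29315.2.2.2.1, ⟨H _ t29315.2.2.2.2.1, H _ t29315.2.2.2.2.2.1⟩⟩⟩⟩⟩⟩⟩, ⟨⟨⟨⟨⟨⟨H _ t29315.2.2.2.2.2.2.1,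 H _ t29315.2.2.2.2.2.2.2⟩, ⟨H _ t29323.1, H _ t29323.2.1⟩⟩, ⟨⟨H _ t29323.2.2.1, H _ t29323.2.2.2.1⟩, ⟨H _ t29323.2.2.2.2.1, H _ t29323.2.2.2.2.2.1⟩⟩⟩, ⟨⟨⟨H _ t29323.2.2.2.2.2.2.1, H _ t29323.2.2.2.2.2.2.2⟩, ⟨H _ t29331.1, H _ t29331.2.1⟩⟩, ⟨⟨H _ t29331.2.2.1, H _ t29331.2.2.2.1⟩, ⟨H _ t29331.2.2.2.2.1, ⟨H _ t29331.2.2.2.2.2.1, H _ t29331.2.2.2.2.2.2.1⟩⟩⟩⟩⟩, ⟨⟨⟨⟨H _ t29331.2.2.2.2.2.2.2, H _ t29339.1⟩, ⟨H _ t29339.2.1, H _ t29339.2.2.1⟩⟩, ⟨⟨H _ t29339.2.2.2.1, H _ t29339.2.2.2.2.1⟩, ⟨H _ t29339.2.2.2.2.2.1, H _ t29339.2.2.2.2.2.2.1⟩⟩⟩, ⟨⟨⟨H _ t29339.2.2.2.2.2.2.2, H _ t29347.1⟩, ⟨H _ t29347.2.1, H _ t29347.2.2.1⟩⟩, ⟨⟨H _ t29347.2.2.2.1, H _ t29347.2.2.2.2.1⟩, ⟨H _ t29347.2.2.2.2.2.1, ⟨H _ t29347.2.2.2.2.2.2.1, H _ t29347.2.2.2.2.2.2.2⟩⟩⟩⟩⟩⟩, ⟨⟨⟨⟨⟨H _ t29355.1, H _ t29355.2.1⟩, ⟨H _ t29355.2.2.1, H _ t29355.2.2.2.1⟩⟩, ⟨⟨H _ t29355.2.2.2.2.1, H _ t29355.2.2.2.2.2.1⟩, ⟨H _ t29355.2.2.2.2.2.2.1, H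 _ t29355.2.2.2.2.2.2.2⟩⟩⟩, ⟨⟨⟨H _ t29363.1, H _ t29363.2.1⟩, ⟨H _ t29363.2.2.1, H _ t29363.2.2.2.1⟩⟩, ⟨⟨H _ t29363.2.2.2.2.1, H _ t29363.2.2.2.2.2.1⟩, ⟨H _ t29363.2.2.2.2.2.2.1, ⟨H _ t29363.2.2.2.2.2.2.2, H _ t29371.1⟩⟩⟩⟩⟩, ⟨⟨⟨⟨H _ t29371.2.1, H _ t29371.2.2.1⟩, ⟨H _ t29371.2.2.2.1, H _ t29371.2.2.2.2.1⟩⟩, ⟨⟨H _ t29371.2.2.2.2.2.1, H _ t29371.2.2.2.2.2.2.1⟩, ⟨H _ t29371.2.2.2.2.2.2.2, ⟨H _ t29379.1, H _ t29379.2.1⟩⟩⟩⟩, ⟨⟨⟨H _ t29379.2.2.1, H _ t29379.2.2.2.1⟩, ⟨H _ t29379.2.2.2.2.1, H _ t29379.2.2.2.2.2.1⟩⟩, ⟨⟨H _ t29379.2.2.2.2.2.2.1, H _ t29379.2.2.2.2.2.2.2⟩, ⟨H _ t29387.1, ⟨H _ t29387.2.1, H _ t29387.2.2⟩⟩⟩⟩⟩⟩⟩⟩⟩⟩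

end Pool.Agent.MP_c853c5_nt.X.C4950
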