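import Pool.Agent.MP_c853c5_nt.X.C4950.Env
import Pool.Agent.MP_c853c5_nt.X.C4950.Tab

set_option autoImplicit false
set_option maxRecDepth 8192
set_option linter.all false

namespace Pool.Agent.MP_c853c5_nt.X.C4950

open Pool.Agent.MP_c853c5_nt.X

def t29390 : allY (E.wth T1) l29390 = true ∧
    allY (E.wth T1) l29391 = true ∧
    allY (E.wth T1) l29392 = true ∧
    allY (E.wth T1) l29393 = true ∧
    allY (E.wth T1) l29394 = true ∧
    allY (E.wth T1) l29395 = true ∧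
    allY (E.wth T1) l29396 = true ∧
    allY (E.wth T1) l29397 = true :=
  ⟨by decide +kernel, by decide +kernel, by decide +kernel, by decide +kernel, by decide +kernel, by decide +kernel, by decide +kernel, by decide +kernel⟩

def t29398 : allY (E.wth T1) l29398 = true ∧
    allY (E.wth T1) l29399 = true ∧
    allY (E.wth T1) l29400 = true ∧
    allY (E.wth T1) l29401 = true ∧
    allY (E.wth T1) l29402 = true ∧
    allY (E.wth T1) l29403 = true ∧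
    allY (E.wth T1) l29404 = true ∧
    allY (E.wth T1) l29405 = true :=
  ⟨by decide +kernel, by decide +kernel, by decide +kernel, by decide +kernel, by decide +kernel, by decide +kernel, by decide +kernel, by decide +kernel⟩

def t29406 : allY (E.wth T1) l29406 = true ∧
    allY (E.wth T1) l29407 = true ∧
    allY (E.wth T1) l29408 = true ∧
    allY (E.wth T1) l29409 = true ∧
    allY (E.wth T1) l29410 = true ∧
    allY (E.wth T1) l29411 = true ∧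
    allY (E.wth T1) l29412 = true ∧
    allY (E.wth T1) l29413 = true :=
  ⟨by decide +kernel, by decide +kernel, by decide +kernel, by decide +kernel, by decide +kernel, by decide +kernel, by decide +kernel, by decide +kernel⟩

def t29414 : allY (E.wth T1) l29414 = true ∧
    allY (E.wth T1) l29415 = true ∧
    allY (E.wth T1) l29416 = true ∧
    allY (E.wth T1) l29417 = true ∧
    allY (E.wth T1) l29418 = true ∧
    allY (E.wth T1) l29419 = true ∧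
    allY (E.wth T1) l29420 = true ∧
    allY (E.wth T1) l29421 = true :=
  ⟨by decide +kernel, by decide +kernel, by decide +kernel, by decide +kernel, by decide +kernel, by decide +kernel, by decide +kernel, by decide +kernel⟩

def t29422 : allY (E.wth T1) l29422 = true ∧
    allY (E.wth T1) l29423 = true ∧
    allY (E.wth T1) l29424 = true ∧
    allY (E.wth T1) l29425 = true ∧
    allY (E.wth T1) l29426 = true ∧
    allY (E.wth T1) l29427 = true ∧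
    allY (E.wth T1) l29428 = true ∧
    allY (E.wth T1) l29429 = true :=
  ⟨by decide +kernel, by decide +kernel, by decide +kernel, by decide +kernel, by decide +kernel, by decide +kernel, by decide +kernel, by decide +kernel⟩

def t29430 : allY (E.wth T1) l29430 = true ∧
    allY (E.wth T1) l29431 = true ∧
    allY (E.wth T1) l29432 = true ∧
    allY (E.wth T1) l29433 = true ∧
    allY (E.wth T1) l29434 = true ∧
    allY (E.wth T1) l29435 = true ∧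
    allY (E.wth T1) l29436 = true ∧
    allY (E.wth T1) l29437 = true :=
  ⟨by decide +kernel, by decide +kernel, by decide +kernel, by decide +kernel, by decide +kernel, by decide +kernel, by decide +kernel, by decide +kernel⟩

def t29438 : allY (E.wth T1) l29438 = true ∧
    allY (E.wth T1) l29439 = true ∧
    allY (E.wth T1) l29440 = true ∧
    allY (E.wth T1) l29441 = true ∧
    allY (E.wth T1) l29442 = true ∧
    allY (E.wth T1) l29443 = true ∧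
    allY (E.wth T1) l29444 = true ∧
    allY (E.wth T1) l29445 = true :=
  ⟨by decide +kernel, by decide +kernel, by decide +kernel, by decide +kernel, by decide +kernel, by decide +kernel, by decide +kernel, by decide +kernel⟩

def t29446 : allY (E.wth T1) l29446 = true ∧
    allY (E.wth T1) l29447 = true ∧
    allY (E.wth T1) l29448 = true ∧
    allY (E.wth T1) l29449 = true ∧
    allY (E.wth T1) l29450 = true ∧
    allY (E.wth T1) l29451 = true ∧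
    allY (E.wth T1) l29452 = true ∧
    allY (E.wth T1) l29453 = true :=
  ⟨by decide +kernel, by decide +kernel, by decide +kernel, by decide +kernel, by decide +kernel, by decide +kernel, by decide +kernel, by decide +kernel⟩

def t29454 : allY (E.wth T1) l29454 = true ∧
    allY (E.wth T1) l29455 = true ∧
    allY (E.wth T1) l29456 = true ∧
    allY (E.wth T1) l29457 = true ∧
    allY (E.wth T1) l29458 = true ∧
    allY (E.wth T1) l29459 = true ∧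
    allY (E.wth T1) l29460 = true ∧
    allY (E.wth T1) l29461 = true :=
  ⟨by decide +kernel, by decide +kernel, by decide +kernel, by decide +kernel, by decide +kernel, by decide +kernel, by decide +kernel, by decide +kernel⟩

def t29462 : allY (E.wth T1) l29462 = true ∧
    allY (E.wth T1) l29463 = true ∧
    allY (E.wth T1) l29464 = true ∧
    allY (E.wth T1) l29465 = true ∧
    allY (E.wth T1) l29466 = true ∧
    allY (E.wth T1) l29467 = true ∧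
    allY (E.wth T1) l29468 = true ∧
    allY (E.wth T1) l29469 = true :=
  ⟨by decide +kernel, by decide +kernel, by decide +kernel, by decide +kernel, by decide +kernel, by decide +kernel, by decide +kernel, by decide +kernel⟩

def t29470 : allY (E.wth T1) l29470 = true ∧
    allY (E.wth T1) l29471 = true ∧
    allY (E.wth T1) l29472 = true ∧
    allY (E.wth T1) l29473 = true ∧
    allY (E.wth T1) l29474 = true ∧
    allY (E.wth T1) l29475 = true ∧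
    allY (E.wth T1) l29476 = true ∧
    allY (E.wth T1) l29477 = true :=
  ⟨by decide +kernel, by decide +kernel, by decide +kernel, by decide +kernel, by decide +kernel, by decide +kernel, by decide +kernel, by decide +kernel⟩

def t29478 : allY (E.wth T1) l29478 = true ∧
    allY (E.wth T1) l29479 = true ∧
    allY (E.wth T1) l29480 = true ∧
    allY (E.wth T1) l29481 = true ∧
    allY (E.wth T1) l29482 = true ∧
    allY (E.wth T1) l29483 = true ∧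
    allY (E.wth T1) l29484 = true ∧
    allY (E.wth T1) l29485 = true :=
  ⟨by decide +kernel, by decide +kernel, by decide +kernel, by decide +kernel, by decide +kernel, by decide +kernel, by decide +kernel, by decide +kernel⟩

def t29486 : allY (E.wth T1) l29486 = true ∧
    allY (E.wth T1) l29487 = true ∧
    allY (E.wth T1) l29488 = true ∧
    allY (E.wth T1) l29489 = true ∧
    allY (E.wth T1) l29490 = true ∧
    allY (E.wth T1) l29491 = true ∧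
    allY (E.wth T1) l29492 = true ∧
    allY (E.wth T1) l29493 = true :=
  ⟨by decide +kernel, by decide +kernel, by decide +kernel, by decide +kernel, by decide +kernel, by decide +kernel, by decide +kernel, by decide +kernel⟩

def t29494 : allY (E.wth T1) l29494 = true ∧
    allY (E.wth T1) l29495 = true ∧
    allY (E.wth T1) l29496 = true ∧
    allY (E.wth T1) l29497 = true ∧
    allY (E.wth T1) l29498 = true ∧
    allY (E.wth T1) l29499 = true ∧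
    allY (E.wth T1) l29500 = true ∧
    allY (E.wth T1) l29501 = true :=
  ⟨by decide +kernel, by decide +kernel, by decide +kernel, by decide +kernel, by decide +kernel, by decide +kernel, by decide +kernel, by decide +kernel⟩

def t29502 : allY (E.wth T1) l29502 = true ∧
    allY (E.wth T1) l29503 = true ∧
    allY (E.wth T1) l29504 = true ∧
    allY (E.wth T1) l29505 = true ∧
    allY (E.wth T1) l29506 = true ∧
    allY (E.wth T1) l29507 = true ∧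
    allY (E.wth T1) l29508 = true ∧
    allY (E.wth T1) l29509 = true :=
  ⟨by decide +kernel, by decide +kernel, by decide +kernel, by decide +kernel, by decide +kernel, by decide +kernel, by decide +kernel, by decide +kernel⟩

def t29510 : allY (E.wth T1) l29510 = true ∧
    allY (E.wth T1) l29511 = true ∧
    allY (E.wth T1) l29512 = true ∧
    allY (E.wth T1) l29513 = true ∧
    allY (E.wth T1) l29514 = true ∧
    allY (E.wth T1) l29515 = true ∧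
    allY (E.wth T1) l29516 = true ∧
    allY (E.wth T1) l29517 = true :=
  ⟨by decide +kernel, by decide +kernel, by decide +kernel, by decide +kernel, by decide +kernel, by decide +kernel, by decide +kernel, by decide +kernel⟩

def t29518 : allY (E.wth T1) l29518 = true ∧
    allY (E.wth T1) l29519 = true ∧
    allY (E.wth T1) l29520 = true ∧
    allY (E.wth T1) l29521 = true ∧
    allY (E.wth T1) l29522 = true ∧
    allY (E.wth T1) l29523 = true ∧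
    allY (E.wth T1) l29524 = true ∧
    allY (E.wth T1) l29525 = true :=
  ⟨by decide +kernel, by decide +kernel, by decide +kernel, by decide +kernel, by decide +kernel, by decide +kernel, by decide +kernel, by decide +kernel⟩

def t29526 : allY (E.wth T1) l29526 = true ∧
    allY (E.wth T1) l29527 = true ∧
    allY (E.wth T1) l29528 = true ∧
    allY (E.wth T1) l29529 = true ∧
    allY (E.wth T1) l29530 = true ∧
    allY (E.wth T1) l29531 = true ∧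
    allY (E.wth T1) l29532 = true ∧
    allY (E.wth T1) l29533 = true :=
  ⟨by decide +kernel, by decide +kernel, by decide +kernel, by decide +kernel, by decide +kernel, by decide +kernel, by decide +kernel, by decide +kernel⟩

def t29534 : allY (E.wth T1) l29534 = true ∧
    allY (E.wth T1) l29535 = true ∧
    allY (E.wth T1) l29536 = true ∧
    allY (E.wth T1) l29537 = true ∧
    allY (E.wth T1) l29538 = true ∧
    allY (E.wth T1) l29539 = true ∧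
    allY (E.wth T1) l29540 = true ∧
    allY (E.wth T1) l29541 = true :=
  ⟨by decide +kernel, by decide +kernel, by decide +kernel, by decide +kernel, by decide +kernel, by decide +kernel, by decide +kernel, by decide +kernel⟩

def t29542 : allY (E.wth T1) l29542 = true ∧
    allY (E.wth T1) l29543 = true ∧
    allY (E.wth T1) l29544 = true ∧
    allY (E.wth T1) l29545 = true ∧
    allY (E.wth T1) l29546 = true ∧
    allY (E.wth T1) l29547 = true ∧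
    allY (E.wth T1) l29548 = true ∧
    allY (E.wth T1) l29549 = true :=
  ⟨by decide +kernel, by decide +kernel, by decide +kernel, by decide +kernel, by decide +kernel, by decide +kernel, by decide +kernel, by decide +kernel⟩

def t29550 : allY (E.wth T1) l29550 = true ∧
    allY (E.wth T1) l29551 = true ∧
    allY (E.wth T1) l29552 = true ∧
    allY (E.wth T1) l29553 = true ∧
    allY (E.wth T1) l29554 = true ∧
    allY (E.wth T1) l29555 = true ∧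
    allY (E.wth T1) l29556 = true ∧
    allY (E.wth T1) l29557 = true :=
  ⟨by decide +kernel, by decide +kernel, by decide +kernel, by decide +kernel, by decide +kernel, by decide +kernel, by decide +kernel, by decide +kernel⟩

def t29558 : allY (E.wth T1) l29558 = true ∧
    allY (E.wth T1) l29559 = true ∧
    allY (E.wth T1) l29560 = true ∧
    allY (E.wth T1) l29561 = true ∧
    allY (E.wth T1) l29562 = true ∧
    allY (E.wth T1) l29563 = true ∧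
    allY (E.wth T1) l29564 = true ∧
    allY (E.wth T1) l29565 = true :=
  ⟨by decide +kernel, by decide +kernel, by decide +kernel, by decide +kernel, by decide +kernel, by decide +kernel, by decide +kernel, by decide +kernel⟩

def t29566 : allY (E.wth T1) l29566 = true ∧
    allY (E.wth T1) l29567 = true ∧
    allY (E.wth T1) l29568 = true ∧
    allY (E.wth T1) l29569 = true ∧
    allY (E.wth T1) l29570 = true ∧
    allY (E.wth T1) l29571 = true ∧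
    allY (E.wth T1) l29572 = true ∧
    allY (E.wth T1) l29573 = true :=
  ⟨by decide +kernel, by decide +kernel, by decide +kernel, by decide +kernel, by decide +kernel, by decide +kernel, by decide +kernel, by decide +kernel⟩

def t29574 : allY (E.wth T1) l29574 = true ∧
    allY (E.wth T1) l29575 = true ∧
    allY (E.wth T1) l29576 = true ∧
    allY (E.wth T1) l29577 = true ∧
    allY (E.wth T1) l29578 = true ∧
    allY (E.wth T1) l29579 = true ∧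
    allY (E.wth T1) l29580 = true ∧
    allY (E.wth T1) l29581 = true :=
  ⟨by decide +kernel, by decide +kernel, by decide +kernel, by decide +kernel, by decide +kernel, by decide +kernel, by decide +kernel, by decide +kernel⟩

def t29582 : allY (E.wth T1) l29582 = true ∧
    allY (E.wth T1) l29583 = true ∧
    allY (E.wth T1) l29584 = true ∧
    allY (E.wth T1) l29585 = true ∧
    allY (E.wth T1) l29586 = true ∧
    allY (E.wth T1) l29587 = true ∧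
    allY (E.wth T1) l29588 = true ∧
    allY (E.wth T1) l29589 = true :=
  ⟨by decide +kernel, by decide +kernel, by decide +kernel, by decide +kernel, by decide +kernel, by decide +kernel, by decide +kernel, by decide +kernel⟩

def t29590 : allY (E.wth T1) l29590 = true ∧
    allY (E.wth T1) l29591 = true ∧
    allY (E.wth T1) l29592 = true ∧
    allY (E.wth T1) l29593 = true ∧
    allY (E.wth T1) l29594 = true ∧
    allY (E.wth T1) l29595 = true ∧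
    allY (E.wth T1) l29596 = true ∧
    allY (E.wth T1) l29597 = true :=
  ⟨by decide +kernel, by decide +kernel, by decide +kernel, by decide +kernel, by decide +kernel, by decide +kernel, by decide +kernel, by decide +kernel⟩

def t29598 : allY (E.wth T1) l29598 = true ∧
    allY (E.wth T1) l29599 = true ∧
    allY (E.wth T1) l29600 = true ∧
    allY (E.wth T1) l29601 = true ∧
    allY (E.wth T1) l29602 = true ∧
    allY (E.wth T1) l29603 = true ∧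
    allY (E.wth T1) l29604 = true ∧
    allY (E.wth T1) l29605 = true :=
  ⟨by decide +kernel, by decide +kernel, by decide +kernel, by decide +kernel, by decide +kernel, by decide +kernel, by decide +kernel, by decide +kernel⟩

def t29606 : allY (E.wth T1) l29606 = true ∧
    allY (E.wth T1) l29607 = true ∧
    allY (E.wth T1) l29608 = true ∧
    allY (E.wth T1) l29609 = true ∧
    allY (E.wth T1) l29610 = true ∧
    allY (E.wth T1) l29611 = true ∧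
    allY (E.wth T1) l29612 = true ∧
    allY (E.wth T1) l29613 = true :=
  ⟨by decide +kernel, by decide +kernel, by decide +kernel, by decide +kernel, by decide +kernel, by decide +kernel, by decide +kernel, by decide +kernel⟩

def t29614 : allY (E.wth T1) l29614 = true ∧
    allY (E.wth T1) l29615 = true ∧
    allY (E.wth T1) l29616 = true ∧
    allY (E.wth T1) l29617 = true ∧
    allY (E.wth T1) l29618 = true ∧
    allY (E.wth T1) l29619 = true ∧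
    allY (E.wth T1) l29620 = true ∧
    allY (E.wth T1) l29621 = true :=
  ⟨by decide +kernel, by decide +kernel, by decide +kernel, by decide +kernel, by decide +kernel, by decide +kernel, by decide +kernel, by decide +kernel⟩

def t29622 : allY (E.wth T1) l29622 = true ∧
    allY (E.wth T1) l29623 = true ∧
    allY (E.wth T1) l29624 = true ∧
    allY (E.wth T1) l29625 = true ∧
    allY (E.wth T1) l29626 = true ∧
    allY (E.wth T1) l29627 = true ∧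
    allY (E.wth T1) l29628 = true ∧
    allY (E.wth T1) l29629 = true :=
  ⟨by decide +kernel, by decide +kernel, by decide +kernel, by decide +kernel, by decide +kernel, by decide +kernel, by decide +kernel, by decide +kernel⟩

def t29630 : allY (E.wth T1) l29630 = true ∧
    allY (E.wth T1) l29631 = true ∧
    allY (E.wth T1) l29632 = true ∧
    allY (E.wth T1) l29633 = true ∧
    allY (E.wth T1) l29634 = true ∧
    allY (E.wth T1) l29635 = true ∧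
    allY (E.wth T1) l29636 = true ∧
    allY (E.wth T1) l29637 = true :=
  ⟨by decide +kernel, by decide +kernel, by decide +kernel, by decide +kernel, by decide +kernel, by decide +kernel, by decide +kernel, by decide +kernel⟩

def t29638 : allY (E.wth T1) l29638 = true ∧
    allY (E.wth T1) l29639 = true ∧
    allY (E.wth T1) l29640 = true ∧
    allY (E.wth T1) l29641 = true ∧
    allY (E.wth T1) l29642 = true ∧
    allY (E.wth T1) l29643 = true ∧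
    allY (E.wth T1) l29644 = true ∧
    allY (E.wth T1) l29645 = true :=
  ⟨by decide +kernel, by decide +kernel, by decide +kernel, by decide +kernel, by decide +kernel, by decide +kernel, by decide +kernel, by decide +kernel⟩

def t29646 : allY (E.wth T1) l29646 = true ∧
    allY (E.wth T1) l29647 = true ∧
    allY (E.wth T1) l29648 = true ∧
    allY (E.wth T1) l29649 = true ∧
    allY (E.wth T1) l29650 = true ∧
    allY (E.wth T1) l29651 = true ∧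
    allY (E.wth T1) l29652 = true ∧
    allY (E.wth T1) l29653 = true :=
  ⟨by decide +kernel, by decide +kernel, by decide +kernel, by decide +kernel, by decide +kernel, by decide +kernel, by decide +kernel, by decide +kernel⟩

def t29654 : allY (E.wth T1) l29654 = true ∧
    allY (E.wth T1) l29655 = true ∧
    allY (E.wth T1) l29656 = true ∧
    allY (E.wth T1) l29657 = true ∧
    allY (E.wth T1) l29658 = true ∧
    allY (E.wth T1) l29659 = true ∧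
    allY (E.wth T1) l29660 = true ∧
    allY (E.wth T1) l29661 = true :=
  ⟨by decide +kernel, by decide +kernel, by decide +kernel, by decide +kernel, by decide +kernel, by decide +kernel, by decide +kernel, by decide +kernel⟩

def t29662 : allY (E.wth T1) l29662 = true ∧
    allY (E.wth T1) l29663 = true ∧
    allY (E.wth T1) l29664 = true ∧
    allY (E.wth T1) l29665 = true ∧
    allY (E.wth T1) l29666 = true ∧
    allY (E.wth T1) l29667 = true ∧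
    allY (E.wth T1) l29668 = true ∧
    allY (E.wth T1) l29669 = true :=
  ⟨by decide +kernel, by decide +kernel, by decide +kernel, by decide +kernel, by decide +kernel, by decide +kernel, by decide +kernel, by decide +kernel⟩

def t29670 : allY (E.wth T1) l29670 = true ∧
    allY (E.wth T1) l29671 = true ∧
    allY (E.wth T1) l29672 = true ∧
    allY (E.wth T1) l29673 = true ∧
    allY (E.wth T1) l29674 = true ∧
    allY (E.wth T1) l29675 = true ∧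
    allY (E.wth T1) l29676 = true ∧
    allY (E.wth T1) l29677 = true :=
  ⟨by decide +kernel, by decide +kernel, by decide +kernel, by decide +kernel, by decide +kernel, by decide +kernel, by decide +kernel, by decide +kernel⟩

def t29678 : allY (E.wth T1) l29678 = true ∧
    allY (E.wth T1) l29679 = true ∧
    allY (E.wth T1) l29680 = true ∧
    allY (E.wth T1) l29681 = true ∧
    allY (E.wth T1) l29682 = true ∧
    allY (E.wth T1) l29683 = true ∧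
    allY (E.wth T1) l29684 = true ∧
    allY (E.wth T1) l29685 = true :=
  ⟨by decide +kernel, by decide +kernel, by decide +kernel, by decide +kernel, by decide +kernel, by decide +kernel, by decide +kernel, by decide +kernel⟩

def t29686 : allY (E.wth T1) l29686 = true ∧
    allY (E.wth T1) l29687 = true ∧
    allY (E.wth T1) l29688 = true ∧
    allY (E.wth T1) l29689 = true ∧
    allY (E.wth T1) l29690 = true ∧
    allY (E.wth T1) l29691 = true ∧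
    allY (E.wth T1) l29692 = true ∧
    allY (E.wth T1) l29693 = true :=
  ⟨by decide +kernel, by decide +kernel, by decide +kernel, by decide +kernel, by decide +kernel, by decide +kernel, by decide +kernel, by decide +kernel⟩

def t29694 : allY (E.wth T1) l29694 = true ∧
    allY (E.wth T1) l29695 = true ∧
    allY (E.wth T1) l29696 = true ∧
    allY (E.wth T1) l29697 = true ∧
    allY (E.wth T1) l29698 = true ∧
    allY (E.wth T1) l29699 = true ∧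
    allY (E.wth T1) l29700 = true ∧
    allY (E.wth T1) l29701 = true :=
  ⟨by decide +kernel, by decide +kernel, by decide +kernel, by decide +kernel, by decide +kernel, by decide +kernel, by decide +kernel, by decide +kernel⟩

def t29702 : allY (E.wth T1) l29702 = true ∧
    allY (E.wth T1) l29703 = true ∧
    allY (E.wth T1) l29704 = true ∧
    allY (E.wth T1) l29705 = true ∧
    allY (E.wth T1) l29706 = true ∧
    allY (E.wth T1) l29707 = true ∧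
    allY (E.wth T1) l29708 = true ∧
    allY (E.wth T1) l29709 = true :=
  ⟨by decide +kernel, by decide +kernel, by decide +kernel, by decide +kernel, by decide +kernel, by decide +kernel, by decide +kernel, by decide +kernel⟩

def t29710 : allY (E.wth T1) l29710 = true ∧
    allY (E.wth T1) l29711 = true ∧
    allY (E.wth T1) l29712 = true ∧
    allY (E.wth T1) l29713 = true ∧
    allY (E.wth T1) l29714 = true ∧
    allY (E.wth T1) l29715 = true ∧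
    allY (E.wth T1) l29716 = true ∧
    allY (E.wth T1) l29717 = true :=
  ⟨by decide +kernel, by decide +kernel, by decide +kernel, by decide +kernel, by decide +kernel, by decide +kernel, by decide +kernel, by decide +kernel⟩

def t29718 : allY (E.wth T1) l29718 = true ∧
    allY (E.wth T1) l29719 = true ∧
    allY (E.wth T1) l29720 = true ∧
    allY (E.wth T1) l29721 = true ∧
    allY (E.wth T1) l29722 = true ∧
    allY (E.wth T1) l29723 = true ∧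
    allY (E.wth T1) l29724 = true ∧
    allY (E.wth T1) l29725 = true :=
  ⟨by decide +kernel, by decide +kernel, by decide +kernel, by decide +kernel, by decide +kernel, by decide +kernel, by decide +kernel, by decide +kernel⟩

def t29726 : allY (E.wth T1) l29726 = true ∧
    allY (E.wth T1) l29727 = true ∧
    allY (E.wth T1) l29728 = true ∧
    allY (E.wth T1) l29729 = true ∧
    allY (E.wth T1) l29730 = true ∧
    allY (E.wth T1) l29731 = true ∧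
    allY (E.wth T1) l29732 = true ∧
    allY (E.wth T1) l29733 = true :=
  ⟨by decide +kernel, by decide +kernel, by decide +kernel, by decide +kernel, by decide +kernel, by decide +kernel, by decide +kernel, by decide +kernel⟩

def t29734 : allY (E.wth T1) l29734 = true ∧
    allY (E.wth T1) l29735 = true ∧
    allY (E.wth T1) l29736 = true ∧
    allY (E.wth T1) l29737 = true ∧
    allY (E.wth T1) l29738 = true ∧
    allY (E.wth T1) l29739 = true ∧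
    allY (E.wth T1) l29740 = true ∧
    allY (E.wth T1) l29741 = true :=
  ⟨by decide +kernel, by decide +kernel, by decide +kernel, by decide +kernel, by decide +kernel, by decide +kernel, by decide +kernel, by decide +kernel⟩

def t29742 : allY (E.wth T1) l29742 = true ∧
    allY (E.wth T1) l29743 = true ∧
    allY (E.wth T1) l29744 = true ∧
    allY (E.wth T1) l29745 = true ∧
    allY (E.wth T1) l29746 = true ∧
    allY (E.wth T1) l29747 = true ∧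
    allY (E.wth T1) l29748 = true ∧
    allY (E.wth T1) l29749 = true :=
  ⟨by decide +kernel, by decide +kernel, by decide +kernel, by decide +kernel, by decide +kernel, by decide +kernel, by decide +kernel, by decide +kernel⟩

def t29750 : allY (E.wth T1) l29750 = true ∧
    allY (E.wth T1) l29751 = true ∧
    allY (E.wth T1) l29752 = true ∧
    allY (E.wth T1) l29753 = true ∧
    allY (E.wth T1) l29754 = true ∧
    allY (E.wth T1) l29755 = true ∧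
    allY (E.wth T1) l29756 = true ∧
    allY (E.wth T1) l29757 = true :=
  ⟨by decide +kernel, by decide +kernel, by decide +kernel, by decide +kernel, by decide +kernel, by decide +kernel, by decide +kernel, by decide +kernel⟩

def t29758 : allY (E.wth T1) l29758 = true ∧
    allY (E.wth T1) l29759 = true ∧
    allY (E.wth T1) l29760 = true ∧
    allY (E.wth T1) l29761 = true ∧
    allY (E.wth T1) l29762 = true ∧
    allY (E.wth T1) l29763 = true ∧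
    allY (E.wth T1) l29764 = true ∧
    allY (E.wth T1) l29765 = true :=
  ⟨by decide +kernel, by decide +kernel, by decide +kernel, by decide +kernel, by decide +kernel, by decide +kernel, by decide +kernel, by decide +kernel⟩

def t29766 : allY (E.wth T1) l29766 = true ∧
    allY (E.wth T1) l29767 = true ∧
    allY (E.wth T1) l29768 = true ∧
    allY (E.wth T1) l29769 = true ∧
    allY (E.wth T1) l29770 = true ∧
    allY (E.wth T1) l29771 = true ∧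
    allY (E.wth T1) l29772 = true ∧
    allY (E.wth T1) l29773 = true :=
  ⟨by decide +kernel, by decide +kernel, by decide +kernel, by decide +kernel, by decide +kernel, by decide +kernel, by decide +kernel, by decide +kernel⟩

def t29774 : allY (E.wth T1) l29774 = true ∧
    allY (E.wth T1) l29775 = true ∧
    allY (E.wth T1) l29776 = true ∧
    allY (E.wth T1) l29777 = true ∧
    allY (E.wth T1) l29778 = true ∧
    allY (E.wth T1) l29779 = true ∧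
    allY (E.wth T1) l29780 = true ∧
    allY (E.wth T1) l29781 = true :=
  ⟨by decide +kernel, by decide +kernel, by decide +kernel, by decide +kernel, by decide +kernel, by decide +kernel, by decide +kernel, by decide +kernel⟩

def t29782 : allY (E.wth T1) l29782 = true ∧
    allY (E.wth T1) l29783 = true ∧
    allY (E.wth T1) l29784 = true ∧
    allY (E.wth T1) l29785 = true ∧
    allY (E.wth T1) l29786 = true ∧
    allY (E.wth T1) l29787 = true ∧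
    allY (E.wth T1) l29788 = true ∧
    allY (E.wth T1) l29789 = true :=
  ⟨by decide +kernel, by decide +kernel, by decide +kernel, by decide +kernel, by decide +kernel, by decide +kernel, by decide +kernel, by decide +kernel⟩

def t29790 : allY (E.wth T1) l29790 = true ∧
    allY (E.wth T1) l29791 = true ∧
    allY (E.wth T1) l29792 = true ∧
    allY (E.wth T1) l29793 = true ∧
    allY (E.wth T1) l29794 = true ∧
    allY (E.wth T1) l29795 = true ∧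
    allY (E.wth T1) l29796 = true ∧
    allY (E.wth T1) l29797 = true :=
  ⟨by decide +kernel, by decide +kernel, by decide +kernel, by decide +kernel, by decide +kernel, by decide +kernel, by decide +kernel, by decide +kernel⟩

def t29798 : allY (E.wth T1) l29798 = true ∧
    allY (E.wth T1) l29799 = true ∧
    allY (E.wth T1) l29800 = true ∧
    allY (E.wth T1) l29801 = true ∧
    allY (E.wth T1) l29802 = true ∧
    allY (E.wth T1) l29803 = true ∧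
    allY (E.wth T1) l29804 = true ∧
    allY (E.wth T1) l29805 = true :=
  ⟨by decide +kernel, by decide +kernel, by decide +kernel, by decide +kernel, by decide +kernel, by decide +kernel, by decide +kernel, by decide +kernel⟩

def t29806 : allY (E.wth T1) l29806 = true ∧
    allY (E.wth T1) l29807 = true ∧
    allY (E.wth T1) l29808 = true ∧
    allY (E.wth T1) l29809 = true ∧
    allY (E.wth T1) l29810 = true ∧
    allY (E.wth T1) l29811 = true ∧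
    allY (E.wth T1) l29812 = true ∧
    allY (E.wth T1) l29813 = true :=
  ⟨by decide +kernel, by decide +kernel, by decide +kernel, by decide +kernel, by decide +kernel, by decide +kernel, by decide +kernel, by decide +kernel⟩

def t29814 : allY (E.wth T1) l29814 = true ∧
    allY (E.wth T1) l29815 = true ∧
    allY (E.wth T1) l29816 = true ∧
    allY (E.wth T1) l29817 = true ∧
    allY (E.wth T1) l29818 = true ∧
    allY (E.wth T1) l29819 = true ∧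
    allY (E.wth T1) l29820 = true ∧
    allY (E.wth T1) l29821 = true :=
  ⟨by decide +kernel, by decide +kernel, by decide +kernel, by decide +kernel, by decide +kernel, by decide +kernel, by decide +kernel, by decide +kernel⟩

def t29822 : allY (E.wth T1) l29822 = true ∧
    allY (E.wth T1) l29823 = true ∧
    allY (E.wth T1) l29824 = true ∧
    allY (E.wth T1) l29825 = true ∧
    allY (E.wth T1) l29826 = true ∧
    allY (E.wth T1) l29827 = true ∧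
    allY (E.wth T1) l29828 = true ∧
    allY (E.wth T1) l29829 = true :=
  ⟨by decide +kernel, by decide +kernel, by decide +kernel, by decide +kernel, by decide +kernel, by decide +kernel, by decide +kernel, by decide +kernel⟩

def t29830 : allY (E.wth T1) l29830 = true ∧
    allY (E.wth T1) l29831 = true ∧
    allY (E.wth T1) l29832 = true ∧
    allY (E.wth T1) l29833 = true ∧
    allY (E.wth T1) l29834 = true ∧
    allY (E.wth T1) l29835 = true ∧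
    allY (E.wth T1) l29836 = true ∧
    allY (E.wth T1) l29837 = true :=
  ⟨by decide +kernel, by decide +kernel, by decide +kernel, by decide +kernel, by decide +kernel, by decide +kernel, by decide +kernel, by decide +kernel⟩

def t29838 : allY (E.wth T1) l29838 = true ∧
    allY (E.wth T1) l29839 = true ∧
    allY (E.wth T1) l29840 = true ∧
    allY (E.wth T1) l29841 = true ∧
    allY (E.wth T1) l29842 = true ∧
    allY (E.wth T1) l29843 = true ∧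
    allY (E.wth T1) l29844 = true ∧
    allY (E.wth T1) l29845 = true :=
  ⟨by decide +kernel, by decide +kernel, by decide +kernel, by decide +kernel, by decide +kernel, by decide +kernel, by decide +kernel, by decide +kernel⟩

def t29846 : allY (E.wth T1) l29846 = true ∧
    allY (E.wth T1) l29847 = true ∧
    allY (E.wth T1) l29848 = true ∧
    allY (E.wth T1) l29849 = true ∧
    allY (E.wth T1) l29850 = true ∧
    allY (E.wth T1) l29851 = true ∧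
    allY (E.wth T1) l29852 = true ∧
    allY (E.wth T1) l29853 = true :=
  ⟨by decide +kernel, by decide +kernel, by decide +kernel, by decide +kernel, by decide +kernel, by decide +kernel, by decide +kernel, by decide +kernel⟩

def t29854 : allY (E.wth T1) l29854 = true ∧
    allY (E.wth T1) l29855 = true ∧
    allY (E.wth T1) l29856 = true ∧
    allY (E.wth T1) l29857 = true ∧
    allY (E.wth T1) l29858 = true ∧
    allY (E.wth T1) l29859 = true ∧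
    allY (E.wth T1) l29860 = true ∧
    allY (E.wth T1) l29861 = true :=
  ⟨by decide +kernel, by decide +kernel, by decide +kernel, by decide +kernel, by decide +kernel, by decide +kernel, by decide +kernel, by decide +kernel⟩

def t29862 : allY (E.wth T1) l29862 = true ∧
    allY (E.wth T1) l29863 = true ∧
    allY (E.wth T1) l29864 = true ∧
    allY (E.wth T1) l29865 = true ∧
    allY (E.wth T1) l29866 = true ∧
    allY (E.wth T1) l29867 = true ∧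
    allY (E.wth T1) l29868 = true ∧
    allY (E.wth T1) l29869 = true :=
  ⟨by decide +kernel, by decide +kernel, by decide +kernel, by decide +kernel, by decide +kernel, by decide +kernel, by decide +kernel, by decide +kernel⟩

def t29870 : allY (E.wth T1) l29870 = true ∧
    allY (E.wth T1) l29871 = true ∧
    allY (E.wth T1) l29872 = true ∧
    allY (E.wth T1) l29873 = true ∧
    allY (E.wth T1) l29874 = true ∧
    allY (E.wth T1) l29875 = true ∧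
    allY (E.wth T1) l29876 = true ∧
    allY (E.wth T1) l29877 = true :=
  ⟨by decide +kernel, by decide +kernel, by decide +kernel, by decide +kernel, by decide +kernel, by decide +kernel, by decide +kernel, by decide +kernel⟩

def t29878 : allY (E.wth T1) l29878 = true ∧
    allY (E.wth T1) l29879 = true ∧
    allY (E.wth T1) l29880 = true ∧
    allY (E.wth T1) l29881 = true ∧
    allY (E.wth T1) l29882 = true ∧
    allY (E.wth T1) l29883 = true ∧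
    allY (E.wth T1) l29884 = true ∧
    allY (E.wth T1) l29885 = true :=
  ⟨by decide +kernel, by decide +kernel, by decide +kernel, by decide +kernel, by decide +kernel, by decide +kernel, by decide +kernel, by decide +kernel⟩

def t29886 : allY (E.wth T1) l29886 = true ∧
    allY (E.wth T1) l29887 = true ∧
    allY (E.wth T1) l29888 = true ∧
    allY (E.wth T1) l29889 = true ∧
    allY (E.wth T1) l29890 = true ∧
    allY (E.wth T1) l29891 = true ∧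
    allY (E.wth T1) l29892 = true ∧
    allY (E.wth T1) l29893 = true :=
  ⟨by decide +kernel, by decide +kernel, by decide +kernel, by decide +kernel, by decide +kernel, by decide +kernel, by decide +kernel, by decide +kernel⟩

def t29894 : allY (E.wth T1) l29894 = true ∧
    allY (E.wth T1) l29895 = true ∧
    allY (E.wth T1) l29896 = true ∧
    allY (E.wth T1) l29897 = true ∧
    allY (E.wth T1) l29898 = true ∧
    allY (E.wth T1) l29899 = true ∧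
    allY (E.wth T1) l29900 = true ∧
    allY (E.wth T1) l29901 = true :=
  ⟨by decide +kernel, by decide +kernel, by decide +kernel, by decide +kernel, by decide +kernel, by decide +kernel, by decide +kernel, by decide +kernel⟩

def t29902 : allY (E.wth T1) l29902 = true ∧
    allY (E.wth T1) l29903 = true ∧
    allY (E.wth T1) l29904 = true ∧
    allY (E.wth T1) l29905 = true ∧
    allY (E.wth T1) l29906 = true ∧
    allY (E.wth T1) l29907 = true ∧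
    allY (E.wth T1) l29908 = true ∧
    allY (E.wth T1) l29909 = true :=
  ⟨by decide +kernel, by decide +kernel, by decide +kernel, by decide +kernel, by decide +kernel, by decide +kernel, by decide +kernel, by decide +kernel⟩

def t29910 : allY (E.wth T1) l29910 = true ∧
    allY (E.wth T1) l29911 = true ∧
    allY (E.wth T1) l29912 = true ∧
    allY (E.wth T1) l29913 = true ∧
    allY (E.wth T1) l29914 = true ∧
    allY (E.wth T1) l29915 = true ∧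
    allY (E.wth T1) l29916 = true ∧
    allY (E.wth T1) l29917 = true :=
  ⟨by decide +kernel, by decide +kernel, by decide +kernel, by decide +kernel, by decide +kernel, by decide +kernel, by decide +kernel, by decide +kernel⟩

def t29918 : allY (E.wth T1) l29918 = true ∧
    allY (E.wth T1) l29919 = true ∧
    allY (E.wth T1) l29920 = true ∧
    allY (E.wth T1) l29921 = true ∧
    allY (E.wth T1) l29922 = true ∧
    allY (E.wth T1) l29923 = true ∧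
    allY (E.wth T1) l29924 = true ∧
    allY (E.wth T1) l29925 = true :=
  ⟨by decide +kernel, by decide +kernel, by decide +kernel, by decide +kernel, by decide +kernel, by decide +kernel, by decide +kernel, by decide +kernel⟩

def t29926 : allY (E.wth T1) l29926 = true ∧
    allY (E.wth T1) l29927 = true ∧
    allY (E.wth T1) l29928 = true ∧
    allY (E.wth T1) l29929 = true ∧
    allY (E.wth T1) l29930 = true ∧
    allY (E.wth T1) l29931 = true :=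
  ⟨by decide +kernel, by decide +kernel, by decide +kernel, by decide +kernel, by decide +kernel, by decide +kernel⟩

theorem a53 {p : Rf → Prop} (H : ∀ l, allY (E.wth T1) l = true → (lkp l).All p) :
    b53.All p := ⟨⟨⟨⟨⟨⟨⟨⟨⟨H _ t29390.1, H _ t29390.2.1⟩, ⟨H _ t29390.2.2.1, H _ t29390.2.2.2.1⟩⟩, ⟨⟨H _ t29390.2.2.2.2.1, H _ t29390.2.2.2.2.2.1⟩, ⟨H _ t29390.2.2.2.2.2.2.1, H _ t29390.2.2.2.2.2.2.2⟩⟩⟩, ⟨⟨⟨H _ t29398.1, H _ t29398.2.1⟩, ⟨H _ t29398.2.2.1, H _ t29398.2.2.2.1⟩⟩, ⟨⟨H _ t29398.2.2.2.2.1, H _ t29398.2.2.2.2.2.1⟩, ⟨H _ t29398.2.2.2.2.2.2.1, H _ t29398.2.2.2.2.2.2.2⟩⟩⟩⟩, ⟨⟨⟨⟨H _ t29406.1, H _ t29406.2.1⟩, ⟨H _ t29406.2.2.1, H _ t29406.2.2.2.1⟩⟩, ⟨⟨H _ t29406.2.2.2.2.1, H _ t29406.2.2.2.2.2.1⟩, ⟨H _ t29406.2.2.2.2.2.2.1, H _ t29406.2.2.2.2.2.2.2⟩⟩⟩, ⟨⟨⟨H _ t29414.1, H _ t29414.2.1⟩, ⟨H _ t29414.2.2.1, H _ t29414.2.2.2.1⟩⟩, ⟨⟨H _ t29414.2.2.2.2.1, H _ t29414.2.2.2.2.2.1⟩, ⟨H _ t29414.2.2.2.2.2.2.1,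 ⟨H _ t29414.2.2.2.2.2.2.2, H _ t29422.1⟩⟩⟩⟩⟩⟩, ⟨⟨⟨⟨⟨H _ t29422.2.1, H _ t29422.2.2.1⟩, ⟨H _ t29422.2.2.2.1, H _ t29422.2.2.2.2.1⟩⟩, ⟨⟨H _ t29422.2.2.2.2.2.1, H _ t29422.2.2.2.2.2.2.1⟩, ⟨H _ t29422.2.2.2.2.2.2.2, H _ t29430.1⟩⟩⟩, ⟨⟨⟨H _ t29430.2.1, H _ t29430.2.2.1⟩, ⟨H _ t29430.2.2.2.1, H _ t29430.2.2.2.2.1⟩⟩, ⟨⟨H _ t29430.2.2.2.2.2.1, H _ t29430.2.2.2.2.2.2.1⟩, ⟨H _ t29430.2.2.2.2.2.2.2, ⟨H _ t29438.1, H _ t29438.2.1⟩⟩⟩⟩⟩, ⟨⟨⟨⟨H _ t29438.2.2.1, H _ t29438.2.2.2.1⟩, ⟨H _ t29438.2.2.2.2.1, H _ t29438.2.2.2.2.2.1⟩⟩, ⟨⟨H _ t29438.2.2.2.2.2.2.1, H _ t29438.2.2.2.2.2.2.2⟩, ⟨H _ t29446.1, H _ t29446.2.1⟩⟩⟩, ⟨⟨⟨H _ t29446.2.2.1, H _ t29446.2.2.2.1⟩, ⟨H _ t29446.2.2.2.2.1, H _ t29446.2.2.2.2.2.1⟩⟩, ⟨⟨H _ t29446.2.2.2.2.2.2.1, H _ t29446.2.2.2.2.2.2.2⟩, ⟨H _ t29454.1, ⟨H _ t29454.2.1, H _ t29454.2.2.1⟩⟩⟩⟩⟩⟩⟩, ⟨⟨⟨⟨⟨⟨H _ t29454.2.2.2.1, H _ t29454.2.2.2.2.1⟩, ⟨H _ t29454.2.2.2.2.2.1, H _ t29454.2.2.2.2.2.2.1⟩⟩,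 ⟨⟨H _ t29454.2.2.2.2.2.2.2, H _ t29462.1⟩, ⟨H _ t29462.2.1, H _ t29462.2.2.1⟩⟩⟩, ⟨⟨⟨H _ t29462.2.2.2.1, H _ t29462.2.2.2.2.1⟩, ⟨H _ t29462.2.2.2.2.2.1, H _ t29462.2.2.2.2.2.2.1⟩⟩, ⟨⟨H _ t29462.2.2.2.2.2.2.2, H _ t29470.1⟩, ⟨H _ t29470.2.1, ⟨H _ t29470.2.2.1, H _ t29470.2.2.2.1⟩⟩⟩⟩⟩, ⟨⟨⟨⟨H _ t29470.2.2.2.2.1, H _ t29470.2.2.2.2.2.1⟩, ⟨H _ t29470.2.2.2.2.2.2.1, H _ t29470.2.2.2.2.2.2.2⟩⟩, ⟨⟨H _ t29478.1, H _ t29478.2.1⟩, ⟨H _ t29478.2.2.1, H _ t29478.2.2.2.1⟩⟩⟩, ⟨⟨⟨H _ t29478.2.2.2.2.1, H _ t29478.2.2.2.2.2.1⟩, ⟨H _ t29478.2.2.2.2.2.2.1, H _ t29478.2.2.2.2.2.2.2⟩⟩, ⟨⟨H _ t29486.1, H _ t29486.2.1⟩, ⟨H _ t29486.2.2.1, ⟨H _ t29486.2.2.2.1, H _ t29486.2.2.2.2.1⟩⟩⟩⟩⟩⟩, ⟨⟨⟨⟨⟨H _ t29486.2.2.2.2.2.1, H _ t29486.2.2.2.2.2.2.1⟩, ⟨H _ t29486.2.2.2.2.2.2.2, H _ t29494.1⟩⟩, ⟨⟨H _ t29494.2.1, H _ t29494.2.2.1⟩, ⟨H _ t29494.2.2.2.1, H _ t29494.2.2.2.2.1⟩⟩⟩, ⟨⟨⟨H _ t29494.2.2.2.2.2.1, H _ t29494.2.2.2.2.2.2.1⟩,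 ⟨H _ t29494.2.2.2.2.2.2.2, H _ t29502.1⟩⟩, ⟨⟨H _ t29502.2.1, H _ t29502.2.2.1⟩, ⟨H _ t29502.2.2.2.1, ⟨H _ t29502.2.2.2.2.1, H _ t29502.2.2.2.2.2.1⟩⟩⟩⟩⟩, ⟨⟨⟨⟨H _ t29502.2.2.2.2.2.2.1, H _ t29502.2.2.2.2.2.2.2⟩, ⟨H _ t29510.1, H _ t29510.2.1⟩⟩, ⟨⟨H _ t29510.2.2.1, H _ t29510.2.2.2.1⟩, ⟨H _ t29510.2.2.2.2.1, H _ t29510.2.2.2.2.2.1⟩⟩⟩, ⟨⟨⟨H _ t29510.2.2.2.2.2.2.1, H _ t29510.2.2.2.2.2.2.2⟩, ⟨H _ t29518.1, H _ t29518.2.1⟩⟩, ⟨⟨H _ t29518.2.2.1, H _ t29518.2.2.2.1⟩, ⟨H _ t29518.2.2.2.2.1, ⟨H _ t29518.2.2.2.2.2.1, H _ t29518.2.2.2.2.2.2.1⟩⟩⟩⟩⟩⟩⟩⟩, ⟨⟨⟨⟨⟨⟨⟨H _ t29518.2.2.2.2.2.2.2, H _ t29526.1⟩, ⟨H _ t29526.2.1, H _ t29526.2.2.1⟩⟩, ⟨⟨H _ t29526.2.2.2.1, H _ t29526.2.2.2.2.1⟩, ⟨H _ t29526.2.2.2.2.2.1, H _ t29526.2.2.2.2.2.2.1⟩⟩⟩, ⟨⟨⟨H _ t29526.2.2.2.2.2.2.2, H _ t29534.1⟩, ⟨H _ t29534.2.1, H _ t29534.2.2.1⟩⟩, ⟨⟨H _ t29534.2.2.2.1, H _ t29534.2.2.2.2.1⟩, ⟨H _ t29534.2.2.2.2.2.1, ⟨H _ t29534.2.2.2.2.2.2.1,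 H _ t29534.2.2.2.2.2.2.2⟩⟩⟩⟩⟩, ⟨⟨⟨⟨H _ t29542.1, H _ t29542.2.1⟩, ⟨H _ t29542.2.2.1, H _ t29542.2.2.2.1⟩⟩, ⟨⟨H _ t29542.2.2.2.2.1, H _ t29542.2.2.2.2.2.1⟩, ⟨H _ t29542.2.2.2.2.2.2.1, H _ t29542.2.2.2.2.2.2.2⟩⟩⟩, ⟨⟨⟨H _ t29550.1, H _ t29550.2.1⟩, ⟨H _ t29550.2.2.1, H _ t29550.2.2.2.1⟩⟩, ⟨⟨H _ t29550.2.2.2.2.1, H _ t29550.2.2.2.2.2.1⟩, ⟨H _ t29550.2.2.2.2.2.2.1, ⟨H _ t29550.2.2.2.2.2.2.2, H _ t29558.1⟩⟩⟩⟩⟩⟩, ⟨⟨⟨⟨⟨H _ t29558.2.1, H _ t29558.2.2.1⟩, ⟨H _ t29558.2.2.2.1, H _ t29558.2.2.2.2.1⟩⟩, ⟨⟨H _ t29558.2.2.2.2.2.1, H _ t29558.2.2.2.2.2.2.1⟩, ⟨H _ t29558.2.2.2.2.2.2.2, H _ t29566.1⟩⟩⟩, ⟨⟨⟨H _ t29566.2.1, H _ t29566.2.2.1⟩, ⟨H _ t29566.2.2.2.1, H _ t29566.2.2.2.2.1⟩⟩, ⟨⟨H _ t29566.2.2.2.2.2.1, H _ t29566.2.2.2.2.2.2.1⟩, ⟨H _ t29566.2.2.2.2.2.2.2, ⟨H _ t29574.1, H _ t29574.2.1⟩⟩⟩⟩⟩, ⟨⟨⟨⟨H _ t29574.2.2.1, H _ t29574.2.2.2.1⟩, ⟨H _ t29574.2.2.2.2.1, H _ t29574.2.2.2.2.2.1⟩⟩, ⟨⟨H _ t29574.2.2.2.2.2.2.1,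 H _ t29574.2.2.2.2.2.2.2⟩, ⟨H _ t29582.1, H _ t29582.2.1⟩⟩⟩, ⟨⟨⟨H _ t29582.2.2.1, H _ t29582.2.2.2.1⟩, ⟨H _ t29582.2.2.2.2.1, H _ t29582.2.2.2.2.2.1⟩⟩, ⟨⟨H _ t29582.2.2.2.2.2.2.1, H _ t29582.2.2.2.2.2.2.2⟩, ⟨H _ t29590.1, ⟨H _ t29590.2.1, H _ t29590.2.2.1⟩⟩⟩⟩⟩⟩⟩, ⟨⟨⟨⟨⟨⟨H _ t29590.2.2.2.1, H _ t29590.2.2.2.2.1⟩, ⟨H _ t29590.2.2.2.2.2.1, H _ t29590.2.2.2.2.2.2.1⟩⟩, ⟨⟨H _ t29590.2.2.2.2.2.2.2, H _ t29598.1⟩, ⟨H _ t29598.2.1, H _ t29598.2.2.1⟩⟩⟩, ⟨⟨⟨H _ t29598.2.2.2.1, H _ t29598.2.2.2.2.1⟩, ⟨H _ t29598.2.2.2.2.2.1, H _ t29598.2.2.2.2.2.2.1⟩⟩, ⟨⟨H _ t29598.2.2.2.2.2.2.2, H _ t29606.1⟩, ⟨H _ t29606.2.1, ⟨H _ t29606.2.2.1, H _ t29606.2.2.2.1⟩⟩⟩⟩⟩, ⟨⟨⟨⟨H _ t29606.2.2.2.2.1, H _ t29606.2.2.2.2.2.1⟩, ⟨H _ t29606.2.2.2.2.2.2.1, H _ t29606.2.2.2.2.2.2.2⟩⟩, ⟨⟨H _ t29614.1, H _ t29614.2.1⟩, ⟨H _ t29614.2.2.1, H _ t29614.2.2.2.1⟩⟩⟩, ⟨⟨⟨H _ t29614.2.2.2.2.1, H _ t29614.2.2.2.2.2.1⟩, ⟨H _ t29614.2.2.2.2.2.2.1,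 H _ t29614.2.2.2.2.2.2.2⟩⟩, ⟨⟨H _ t29622.1, H _ t29622.2.1⟩, ⟨H _ t29622.2.2.1, ⟨H _ t29622.2.2.2.1, H _ t29622.2.2.2.2.1⟩⟩⟩⟩⟩⟩, ⟨⟨⟨⟨⟨H _ t29622.2.2.2.2.2.1, H _ t29622.2.2.2.2.2.2.1⟩, ⟨H _ t29622.2.2.2.2.2.2.2, H _ t29630.1⟩⟩, ⟨⟨H _ t29630.2.1, H _ t29630.2.2.1⟩, ⟨H _ t29630.2.2.2.1, H _ t29630.2.2.2.2.1⟩⟩⟩, ⟨⟨⟨H _ t29630.2.2.2.2.2.1, H _ t29630.2.2.2.2.2.2.1⟩, ⟨H _ t29630.2.2.2.2.2.2.2, H _ t29638.1⟩⟩, ⟨⟨H _ t29638.2.1, H _ t29638.2.2.1⟩, ⟨H _ t29638.2.2.2.1, ⟨H _ t29638.2.2.2.2.1, H _ t29638.2.2.2.2.2.1⟩⟩⟩⟩⟩, ⟨⟨⟨⟨H _ t29638.2.2.2.2.2.2.1, H _ t29638.2.2.2.2.2.2.2⟩, ⟨H _ t29646.1, H _ t29646.2.1⟩⟩, ⟨⟨H _ t29646.2.2.1, H _ t29646.2.2.2.1⟩, ⟨H _ t29646.2.2.2.2.1, H _ t29646.2.2.2.2.2.1⟩⟩⟩, ⟨⟨⟨H _ t29646.2.2.2.2.2.2.1, H _ t29646.2.2.2.2.2.2.2⟩, ⟨H _ t29654.1, H _ t29654.2.1⟩⟩, ⟨⟨H _ t29654.2.2.1, H _ t29654.2.2.2.1⟩, ⟨H _ t29654.2.2.2.2.1, ⟨H _ t29654.2.2.2.2.2.1, H _ t29654.2.2.2.2.2.2.1⟩⟩⟩⟩⟩⟩⟩⟩⟩,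 ⟨⟨⟨⟨⟨⟨⟨⟨H _ t29654.2.2.2.2.2.2.2, H _ t29662.1⟩, ⟨H _ t29662.2.1, H _ t29662.2.2.1⟩⟩, ⟨⟨H _ t29662.2.2.2.1, H _ t29662.2.2.2.2.1⟩, ⟨H _ t29662.2.2.2.2.2.1, H _ t29662.2.2.2.2.2.2.1⟩⟩⟩, ⟨⟨⟨H _ t29662.2.2.2.2.2.2.2, H _ t29670.1⟩, ⟨H _ t29670.2.1, H _ t29670.2.2.1⟩⟩, ⟨⟨H _ t29670.2.2.2.1, H _ t29670.2.2.2.2.1⟩, ⟨H _ t29670.2.2.2.2.2.1, H _ t29670.2.2.2.2.2.2.1⟩⟩⟩⟩, ⟨⟨⟨⟨H _ t29670.2.2.2.2.2.2.2, H _ t29678.1⟩, ⟨H _ t29678.2.1, H _ t29678.2.2.1⟩⟩, ⟨⟨H _ t29678.2.2.2.1, H _ t29678.2.2.2.2.1⟩, ⟨H _ t29678.2.2.2.2.2.1, H _ t29678.2.2.2.2.2.2.1⟩⟩⟩, ⟨⟨⟨H _ t29678.2.2.2.2.2.2.2, H _ t29686.1⟩, ⟨H _ t29686.2.1, H _ t29686.2.2.1⟩⟩, ⟨⟨H _ t29686.2.2.2.1, H _ t29686.2.2.2.2.1⟩, ⟨H _ t29686.2.2.2.2.2.1, ⟨H _ t29686.2.2.2.2.2.2.1, H _ t29686.2.2.2.2.2.2.2⟩⟩⟩⟩⟩⟩, ⟨⟨⟨⟨⟨H _ t29694.1, H _ t29694.2.1⟩, ⟨H _ t29694.2.2.1, H _ t29694.2.2.2.1⟩⟩, ⟨⟨H _ t29694.2.2.2.2.1, H _ t29694.2.2.2.2.2.1⟩, ⟨H _ t29694.2.2.2.2.2.2.1,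 H _ t29694.2.2.2.2.2.2.2⟩⟩⟩, ⟨⟨⟨H _ t29702.1, H _ t29702.2.1⟩, ⟨H _ t29702.2.2.1, H _ t29702.2.2.2.1⟩⟩, ⟨⟨H _ t29702.2.2.2.2.1, H _ t29702.2.2.2.2.2.1⟩, ⟨H _ t29702.2.2.2.2.2.2.1, ⟨H _ t29702.2.2.2.2.2.2.2, H _ t29710.1⟩⟩⟩⟩⟩, ⟨⟨⟨⟨H _ t29710.2.1, H _ t29710.2.2.1⟩, ⟨H _ t29710.2.2.2.1, H _ t29710.2.2.2.2.1⟩⟩, ⟨⟨H _ t29710.2.2.2.2.2.1, H _ t29710.2.2.2.2.2.2.1⟩, ⟨H _ t29710.2.2.2.2.2.2.2, H _ t29718.1⟩⟩⟩, ⟨⟨⟨H _ t29718.2.1, H _ t29718.2.2.1⟩, ⟨H _ t29718.2.2.2.1, H _ t29718.2.2.2.2.1⟩⟩, ⟨⟨H _ t29718.2.2.2.2.2.1, H _ t29718.2.2.2.2.2.2.1⟩, ⟨H _ t29718.2.2.2.2.2.2.2, ⟨H _ t29726.1, H _ t29726.2.1⟩⟩⟩⟩⟩⟩⟩, ⟨⟨⟨⟨⟨⟨H _ t29726.2.2.1, H _ t29726.2.2.2.1⟩, ⟨H _ t29726.2.2.2.2.1, H _ t29726.2.2.2.2.2.1⟩⟩, ⟨⟨H _ t29726.2.2.2.2.2.2.1, H _ t29726.2.2.2.2.2.2.2⟩, ⟨H _ t29734.1, H _ t29734.2.1⟩⟩⟩, ⟨⟨⟨H _ t29734.2.2.1, H _ t29734.2.2.2.1⟩, ⟨H _ t29734.2.2.2.2.1, H _ t29734.2.2.2.2.2.1⟩⟩, ⟨⟨H _ t29734.2.2.2.2.2.2.1,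 H _ t29734.2.2.2.2.2.2.2⟩, ⟨H _ t29742.1, ⟨H _ t29742.2.1, H _ t29742.2.2.1⟩⟩⟩⟩⟩, ⟨⟨⟨⟨H _ t29742.2.2.2.1, H _ t29742.2.2.2.2.1⟩, ⟨H _ t29742.2.2.2.2.2.1, H _ t29742.2.2.2.2.2.2.1⟩⟩, ⟨⟨H _ t29742.2.2.2.2.2.2.2, H _ t29750.1⟩, ⟨H _ t29750.2.1, H _ t29750.2.2.1⟩⟩⟩, ⟨⟨⟨H _ t29750.2.2.2.1, H _ t29750.2.2.2.2.1⟩, ⟨H _ t29750.2.2.2.2.2.1, H _ t29750.2.2.2.2.2.2.1⟩⟩, ⟨⟨H _ t29750.2.2.2.2.2.2.2, H _ t29758.1⟩, ⟨H _ t29758.2.1, ⟨H _ t29758.2.2.1, H _ t29758.2.2.2.1⟩⟩⟩⟩⟩⟩, ⟨⟨⟨⟨⟨H _ t29758.2.2.2.2.1, H _ t29758.2.2.2.2.2.1⟩, ⟨H _ t29758.2.2.2.2.2.2.1, H _ t29758.2.2.2.2.2.2.2⟩⟩, ⟨⟨H _ t29766.1, H _ t29766.2.1⟩, ⟨H _ t29766.2.2.1, H _ t29766.2.2.2.1⟩⟩⟩, ⟨⟨⟨H _ t29766.2.2.2.2.1, H _ t29766.2.2.2.2.2.1⟩, ⟨H _ t29766.2.2.2.2.2.2.1, H _ t29766.2.2.2.2.2.2.2⟩⟩, ⟨⟨H _ t29774.1, H _ t29774.2.1⟩, ⟨H _ t29774.2.2.1, ⟨H _ t29774.2.2.2.1, H _ t29774.2.2.2.2.1⟩⟩⟩⟩⟩, ⟨⟨⟨⟨H _ t29774.2.2.2.2.2.1, H _ t29774.2.2.2.2.2.2.1⟩,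 ⟨H _ t29774.2.2.2.2.2.2.2, H _ t29782.1⟩⟩, ⟨⟨H _ t29782.2.1, H _ t29782.2.2.1⟩, ⟨H _ t29782.2.2.2.1, H _ t29782.2.2.2.2.1⟩⟩⟩, ⟨⟨⟨H _ t29782.2.2.2.2.2.1, H _ t29782.2.2.2.2.2.2.1⟩, ⟨H _ t29782.2.2.2.2.2.2.2, H _ t29790.1⟩⟩, ⟨⟨H _ t29790.2.1, H _ t29790.2.2.1⟩, ⟨H _ t29790.2.2.2.1, ⟨H _ t29790.2.2.2.2.1, H _ t29790.2.2.2.2.2.1⟩⟩⟩⟩⟩⟩⟩⟩, ⟨⟨⟨⟨⟨⟨⟨H _ t29790.2.2.2.2.2.2.1, H _ t29790.2.2.2.2.2.2.2⟩, ⟨H _ t29798.1, H _ t29798.2.1⟩⟩, ⟨⟨H _ t29798.2.2.1, H _ t29798.2.2.2.1⟩, ⟨H _ t29798.2.2.2.2.1, H _ t29798.2.2.2.2.2.1⟩⟩⟩, ⟨⟨⟨H _ t29798.2.2.2.2.2.2.1, H _ t29798.2.2.2.2.2.2.2⟩, ⟨H _ t29806.1, H _ t29806.2.1⟩⟩, ⟨⟨H _ t29806.2.2.1, H _ t29806.2.2.2.1⟩, ⟨H _ t29806.2.2.2.2.1, ⟨H _ t29806.2.2.2.2.2.1, H _ t29806.2.2.2.2.2.2.1⟩⟩⟩⟩⟩, ⟨⟨⟨⟨H _ t29806.2.2.2.2.2.2.2, H _ t29814.1⟩, ⟨H _ t29814.2.1, H _ t29814.2.2.1⟩⟩, ⟨⟨H _ t29814.2.2.2.1, H _ t29814.2.2.2.2.1⟩, ⟨H _ t29814.2.2.2.2.2.1, H _ t29814.2.2.2.2.2.2.1⟩⟩⟩,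 ⟨⟨⟨H _ t29814.2.2.2.2.2.2.2, H _ t29822.1⟩, ⟨H _ t29822.2.1, H _ t29822.2.2.1⟩⟩, ⟨⟨H _ t29822.2.2.2.1, H _ t29822.2.2.2.2.1⟩, ⟨H _ t29822.2.2.2.2.2.1, ⟨H _ t29822.2.2.2.2.2.2.1, H _ t29822.2.2.2.2.2.2.2⟩⟩⟩⟩⟩⟩, ⟨⟨⟨⟨⟨H _ t29830.1, H _ t29830.2.1⟩, ⟨H _ t29830.2.2.1, H _ t29830.2.2.2.1⟩⟩, ⟨⟨H _ t29830.2.2.2.2.1, H _ t29830.2.2.2.2.2.1⟩, ⟨H _ t29830.2.2.2.2.2.2.1, H _ t29830.2.2.2.2.2.2.2⟩⟩⟩, ⟨⟨⟨H _ t29838.1, H _ t29838.2.1⟩, ⟨H _ t29838.2.2.1, H _ t29838.2.2.2.1⟩⟩, ⟨⟨H _ t29838.2.2.2.2.1, H _ t29838.2.2.2.2.2.1⟩, ⟨H _ t29838.2.2.2.2.2.2.1, ⟨H _ t29838.2.2.2.2.2.2.2, H _ t29846.1⟩⟩⟩⟩⟩, ⟨⟨⟨⟨H _ t29846.2.1, H _ t29846.2.2.1⟩, ⟨H _ t29846.2.2.2.1, H _ t29846.2.2.2.2.1⟩⟩, ⟨⟨H _ t29846.2.2.2.2.2.1, H _ t29846.2.2.2.2.2.2.1⟩, ⟨H _ t29846.2.2.2.2.2.2.2, H _ t29854.1⟩⟩⟩, ⟨⟨⟨H _ t29854.2.1, H _ t29854.2.2.1⟩, ⟨H _ t29854.2.2.2.1, H _ t29854.2.2.2.2.1⟩⟩, ⟨⟨H _ t29854.2.2.2.2.2.1, H _ t29854.2.2.2.2.2.2.1⟩,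 ⟨H _ t29854.2.2.2.2.2.2.2, ⟨H _ t29862.1, H _ t29862.2.1⟩⟩⟩⟩⟩⟩⟩, ⟨⟨⟨⟨⟨⟨H _ t29862.2.2.1, H _ t29862.2.2.2.1⟩, ⟨H _ t29862.2.2.2.2.1, H _ t29862.2.2.2.2.2.1⟩⟩, ⟨⟨H _ t29862.2.2.2.2.2.2.1, H _ t29862.2.2.2.2.2.2.2⟩, ⟨H _ t29870.1, H _ t29870.2.1⟩⟩⟩, ⟨⟨⟨H _ t29870.2.2.1, H _ t29870.2.2.2.1⟩, ⟨H _ t29870.2.2.2.2.1, H _ t29870.2.2.2.2.2.1⟩⟩, ⟨⟨H _ t29870.2.2.2.2.2.2.1, H _ t29870.2.2.2.2.2.2.2⟩, ⟨H _ t29878.1, ⟨H _ t29878.2.1, H _ t29878.2.2.1⟩⟩⟩⟩⟩, ⟨⟨⟨⟨H _ t29878.2.2.2.1, H _ t29878.2.2.2.2.1⟩, ⟨H _ t29878.2.2.2.2.2.1, H _ t29878.2.2.2.2.2.2.1⟩⟩, ⟨⟨H _ t29878.2.2.2.2.2.2.2, H _ t29886.1⟩, ⟨H _ t29886.2.1, H _ t29886.2.2.1⟩⟩⟩, ⟨⟨⟨H _ t29886.2.2.2.1, H _ t29886.2.2.2.2.1⟩, ⟨H _ t29886.2.2.2.2.2.1, H _ t29886.2.2.2.2.2.2.1⟩⟩, ⟨⟨H _ t29886.2.2.2.2.2.2.2, H _ t29894.1⟩, ⟨H _ t29894.2.1, ⟨H _ t29894.2.2.1, H _ t29894.2.2.2.1⟩⟩⟩⟩⟩⟩, ⟨⟨⟨⟨⟨H _ t29894.2.2.2.2.1, H _ t29894.2.2.2.2.2.1⟩, ⟨H _ t29894.2.2.2.2.2.2.1,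 H _ t29894.2.2.2.2.2.2.2⟩⟩, ⟨⟨H _ t29902.1, H _ t29902.2.1⟩, ⟨H _ t29902.2.2.1, H _ t29902.2.2.2.1⟩⟩⟩, ⟨⟨⟨H _ t29902.2.2.2.2.1, H _ t29902.2.2.2.2.2.1⟩, ⟨H _ t29902.2.2.2.2.2.2.1, H _ t29902.2.2.2.2.2.2.2⟩⟩, ⟨⟨H _ t29910.1, H _ t29910.2.1⟩, ⟨H _ t29910.2.2.1, ⟨H _ t29910.2.2.2.1, H _ t29910.2.2.2.2.1⟩⟩⟩⟩⟩, ⟨⟨⟨⟨H _ t29910.2.2.2.2.2.1, H _ t29910.2.2.2.2.2.2.1⟩, ⟨H _ t29910.2.2.2.2.2.2.2, H _ t29918.1⟩⟩, ⟨⟨H _ t29918.2.1, H _ t29918.2.2.1⟩, ⟨H _ t29918.2.2.2.1, H _ t29918.2.2.2.2.1⟩⟩⟩, ⟨⟨⟨H _ t29918.2.2.2.2.2.1, H _ t29918.2.2.2.2.2.2.1⟩, ⟨H _ t29918.2.2.2.2.2.2.2, H _ t29926.1⟩⟩, ⟨⟨H _ t29926.2.1, H _ t29926.2.2.1⟩, ⟨H _ t29926.2.2.2.1, ⟨H _ t29926.2.2.2.2.1, H _ t29926.2.2.2.2.2⟩⟩⟩⟩⟩⟩⟩⟩⟩⟩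

end Pool.Agent.MP_c853c5_nt.X.C4950
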