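import Pool.Agent.MP_c853c5_nt.X.C4950.Env
import Pool.Agent.MP_c853c5_nt.X.C4950.Tab

set_option autoImplicit false
set_option maxRecDepth 8192
set_option linter.all false

namespace Pool.Agent.MP_c853c5_nt.X.C4950

open Pool.Agent.MP_c853c5_nt.X

def t29932 : allY (E.wth T1) l29932 = true ∧
    allY (E.wth T1) l29933 = true ∧
    allY (E.wth T1) l29934 = true ∧
    allY (E.wth T1) l29935 = true ∧
    allY (E.wth T1) l29936 = true ∧
    allY (E.wth T1) l29937 = true ∧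
    allY (E.wth T1) l29938 = true ∧
    allY (E.wth T1) l29939 = true :=
  ⟨by decide +kernel, by decide +kernel, by decide +kernel, by decide +kernel, by decide +kernel, by decide +kernel, by decide +kernel, by decide +kernel⟩

def t29940 : allY (E.wth T1) l29940 = true ∧
    allY (E.wth T1) l29941 = true ∧
    allY (E.wth T1) l29942 = true ∧
    allY (E.wth T1) l29943 = true ∧
    allY (E.wth T1) l29944 = true ∧
    allY (E.wth T1) l29945 = true ∧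
    allY (E.wth T1) l29946 = true ∧
    allY (E.wth T1) l29947 = true :=
  ⟨by decide +kernel, by decide +kernel, by decide +kernel, by decide +kernel, by decide +kernel, by decide +kernel, by decide +kernel, by decide +kernel⟩

def t29948 : allY (E.wth T1) l29948 = true ∧
    allY (E.wth T1) l29949 = true ∧
    allY (E.wth T1) l29950 = true ∧
    allY (E.wth T1) l29951 = true ∧
    allY (E.wth T1) l29952 = true ∧
    allY (E.wth T1) l29953 = true ∧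
    allY (E.wth T1) l29954 = true ∧
    allY (E.wth T1) l29955 = true :=
  ⟨by decide +kernel, by decide +kernel, by decide +kernel, by decide +kernel, by decide +kernel, by decide +kernel, by decide +kernel, by decide +kernel⟩

def t29956 : allY (E.wth T1) l29956 = true ∧
    allY (E.wth T1) l29957 = true ∧
    allY (E.wth T1) l29958 = true ∧
    allY (E.wth T1) l29959 = true ∧
    allY (E.wth T1) l29960 = true ∧
    allY (E.wth T1) l29961 = true ∧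
    allY (E.wth T1) l29962 = true ∧
    allY (E.wth T1) l29963 = true :=
  ⟨by decide +kernel, by decide +kernel, by decide +kernel, by decide +kernel, by decide +kernel, by decide +kernel, by decide +kernel, by decide +kernel⟩

def t29964 : allY (E.wth T1) l29964 = true ∧
    allY (E.wth T1) l29965 = true ∧
    allY (E.wth T1) l29966 = true ∧
    allY (E.wth T1) l29967 = true ∧
    allY (E.wth T1) l29968 = true ∧
    allY (E.wth T1) l29969 = true ∧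
    allY (E.wth T1) l29970 = true ∧
    allY (E.wth T1) l29971 = true :=
  ⟨by decide +kernel, by decide +kernel, by decide +kernel, by decide +kernel, by decide +kernel, by decide +kernel, by decide +kernel, by decide +kernel⟩

def t29972 : allY (E.wth T1) l29972 = true ∧
    allY (E.wth T1) l29973 = true ∧
    allY (E.wth T1) l29974 = true ∧
    allY (E.wth T1) l29975 = true ∧
    allY (E.wth T1) l29976 = true ∧
    allY (E.wth T1) l29977 = true ∧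
    allY (E.wth T1) l29978 = true ∧
    allY (E.wth T1) l29979 = true :=
  ⟨by decide +kernel, by decide +kernel, by decide +kernel, by decide +kernel, by decide +kernel, by decide +kernel, by decide +kernel, by decide +kernel⟩

def t29980 : allY (E.wth T1) l29980 = true ∧
    allY (E.wth T1) l29981 = true ∧
    allY (E.wth T1) l29982 = true ∧
    allY (E.wth T1) l29983 = true ∧
    allY (E.wth T1) l29984 = true ∧
    allY (E.wth T1) l29985 = true ∧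
    allY (E.wth T1) l29986 = true ∧
    allY (E.wth T1) l29987 = true :=
  ⟨by decide +kernel, by decide +kernel, by decide +kernel, by decide +kernel, by decide +kernel, by decide +kernel, by decide +kernel, by decide +kernel⟩

def t29988 : allY (E.wth T1) l29988 = true ∧
    allY (E.wth T1) l29989 = true ∧
    allY (E.wth T1) l29990 = true ∧
    allY (E.wth T1) l29991 = true ∧
    allY (E.wth T1) l29992 = true ∧
    allY (E.wth T1) l29993 = true ∧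
    allY (E.wth T1) l29994 = true ∧
    allY (E.wth T1) l29995 = true :=
  ⟨by decide +kernel, by decide +kernel, by decide +kernel, by decide +kernel, by decide +kernel, by decide +kernel, by decide +kernel, by decide +kernel⟩

def t29996 : allY (E.wth T1) l29996 = true ∧
    allY (E.wth T1) l29997 = true ∧
    allY (E.wth T1) l29998 = true ∧
    allY (E.wth T1) l29999 = true ∧
    allY (E.wth T1) l30000 = true ∧
    allY (E.wth T1) l30001 = true ∧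
    allY (E.wth T1) l30002 = true ∧
    allY (E.wth T1) l30003 = true :=
  ⟨by decide +kernel, by decide +kernel, by decide +kernel, by decide +kernel, by decide +kernel, by decide +kernel, by decide +kernel, by decide +kernel⟩

def t30004 : allY (E.wth T1) l30004 = true ∧
    allY (E.wth T1) l30005 = true ∧
    allY (E.wth T1) l30006 = true ∧
    allY (E.wth T1) l30007 = true ∧
    allY (E.wth T1) l30008 = true ∧
    allY (E.wth T1) l30009 = true ∧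
    allY (E.wth T1) l30010 = true ∧
    allY (E.wth T1) l30011 = true :=
  ⟨by decide +kernel, by decide +kernel, by decide +kernel, by decide +kernel, by decide +kernel, by decide +kernel, by decide +kernel, by decide +kernel⟩

def t30012 : allY (E.wth T1) l30012 = true ∧
    allY (E.wth T1) l30013 = true ∧
    allY (E.wth T1) l30014 = true ∧
    allY (E.wth T1) l30015 = true ∧
    allY (E.wth T1) l30016 = true ∧
    allY (E.wth T1) l30017 = true ∧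
    allY (E.wth T1) l30018 = true ∧
    allY (E.wth T1) l30019 = true :=
  ⟨by decide +kernel, by decide +kernel, by decide +kernel, by decide +kernel, by decide +kernel, by decide +kernel, by decide +kernel, by decide +kernel⟩

def t30020 : allY (E.wth T1) l30020 = true ∧
    allY (E.wth T1) l30021 = true ∧
    allY (E.wth T1) l30022 = true ∧
    allY (E.wth T1) l30023 = true ∧
    allY (E.wth T1) l30024 = true ∧
    allY (E.wth T1) l30025 = true ∧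
    allY (E.wth T1) l30026 = true ∧
    allY (E.wth T1) l30027 = true :=
  ⟨by decide +kernel, by decide +kernel, by decide +kernel, by decide +kernel, by decide +kernel, by decide +kernel, by decide +kernel, by decide +kernel⟩

def t30028 : allY (E.wth T1) l30028 = true ∧
    allY (E.wth T1) l30029 = true ∧
    allY (E.wth T1) l30030 = true ∧
    allY (E.wth T1) l30031 = true ∧
    allY (E.wth T1) l30032 = true ∧
    allY (E.wth T1) l30033 = true ∧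
    allY (E.wth T1) l30034 = true ∧
    allY (E.wth T1) l30035 = true :=
  ⟨by decide +kernel, by decide +kernel, by decide +kernel, by decide +kernel, by decide +kernel, by decide +kernel, by decide +kernel, by decide +kernel⟩

def t30036 : allY (E.wth T1) l30036 = true ∧
    allY (E.wth T1) l30037 = true ∧
    allY (E.wth T1) l30038 = true ∧
    allY (E.wth T1) l30039 = true ∧
    allY (E.wth T1) l30040 = true ∧
    allY (E.wth T1) l30041 = true ∧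
    allY (E.wth T1) l30042 = true ∧
    allY (E.wth T1) l30043 = true :=
  ⟨by decide +kernel, by decide +kernel, by decide +kernel, by decide +kernel, by decide +kernel, by decide +kernel, by decide +kernel, by decide +kernel⟩

def t30044 : allY (E.wth T1) l30044 = true ∧
    allY (E.wth T1) l30045 = true ∧
    allY (E.wth T1) l30046 = true ∧
    allY (E.wth T1) l30047 = true ∧
    allY (E.wth T1) l30048 = true ∧
    allY (E.wth T1) l30049 = true ∧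
    allY (E.wth T1) l30050 = true ∧
    allY (E.wth T1) l30051 = true :=
  ⟨by decide +kernel, by decide +kernel, by decide +kernel, by decide +kernel, by decide +kernel, by decide +kernel, by decide +kernel, by decide +kernel⟩

def t30052 : allY (E.wth T1) l30052 = true ∧
    allY (E.wth T1) l30053 = true ∧
    allY (E.wth T1) l30054 = true ∧
    allY (E.wth T1) l30055 = true ∧
    allY (E.wth T1) l30056 = true ∧
    allY (E.wth T1) l30057 = true ∧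
    allY (E.wth T1) l30058 = true ∧
    allY (E.wth T1) l30059 = true :=
  ⟨by decide +kernel, by decide +kernel, by decide +kernel, by decide +kernel, by decide +kernel, by decide +kernel, by decide +kernel, by decide +kernel⟩

def t30060 : allY (E.wth T1) l30060 = true ∧
    allY (E.wth T1) l30061 = true ∧
    allY (E.wth T1) l30062 = true ∧
    allY (E.wth T1) l30063 = true ∧
    allY (E.wth T1) l30064 = true ∧
    allY (E.wth T1) l30065 = true ∧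
    allY (E.wth T1) l30066 = true ∧
    allY (E.wth T1) l30067 = true :=
  ⟨by decide +kernel, by decide +kernel, by decide +kernel, by decide +kernel, by decide +kernel, by decide +kernel, by decide +kernel, by decide +kernel⟩

def t30068 : allY (E.wth T1) l30068 = true ∧
    allY (E.wth T1) l30069 = true ∧
    allY (E.wth T1) l30070 = true ∧
    allY (E.wth T1) l30071 = true ∧
    allY (E.wth T1) l30072 = true ∧
    allY (E.wth T1) l30073 = true ∧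
    allY (E.wth T1) l30074 = true ∧
    allY (E.wth T1) l30075 = true :=
  ⟨by decide +kernel, by decide +kernel, by decide +kernel, by decide +kernel, by decide +kernel, by decide +kernel, by decide +kernel, by decide +kernel⟩

def t30076 : allY (E.wth T1) l30076 = true ∧
    allY (E.wth T1) l30077 = true ∧
    allY (E.wth T1) l30078 = true ∧
    allY (E.wth T1) l30079 = true ∧
    allY (E.wth T1) l30080 = true ∧
    allY (E.wth T1) l30081 = true ∧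
    allY (E.wth T1) l30082 = true ∧
    allY (E.wth T1) l30083 = true :=
  ⟨by decide +kernel, by decide +kernel, by decide +kernel, by decide +kernel, by decide +kernel, by decide +kernel, by decide +kernel, by decide +kernel⟩

def t30084 : allY (E.wth T1) l30084 = true ∧
    allY (E.wth T1) l30085 = true ∧
    allY (E.wth T1) l30086 = true ∧
    allY (E.wth T1) l30087 = true ∧
    allY (E.wth T1) l30088 = true ∧
    allY (E.wth T1) l30089 = true ∧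
    allY (E.wth T1) l30090 = true ∧
    allY (E.wth T1) l30091 = true :=
  ⟨by decide +kernel, by decide +kernel, by decide +kernel, by decide +kernel, by decide +kernel, by decide +kernel, by decide +kernel, by decide +kernel⟩

def t30092 : allY (E.wth T1) l30092 = true ∧
    allY (E.wth T1) l30093 = true ∧
    allY (E.wth T1) l30094 = true ∧
    allY (E.wth T1) l30095 = true ∧
    allY (E.wth T1) l30096 = true ∧
    allY (E.wth T1) l30097 = true ∧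
    allY (E.wth T1) l30098 = true ∧
    allY (E.wth T1) l30099 = true :=
  ⟨by decide +kernel, by decide +kernel, by decide +kernel, by decide +kernel, by decide +kernel, by decide +kernel, by decide +kernel, by decide +kernel⟩

def t30100 : allY (E.wth T1) l30100 = true ∧
    allY (E.wth T1) l30101 = true ∧
    allY (E.wth T1) l30102 = true ∧
    allY (E.wth T1) l30103 = true ∧
    allY (E.wth T1) l30104 = true ∧
    allY (E.wth T1) l30105 = true ∧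
    allY (E.wth T1) l30106 = true ∧
    allY (E.wth T1) l30107 = true :=
  ⟨by decide +kernel, by decide +kernel, by decide +kernel, by decide +kernel, by decide +kernel, by decide +kernel, by decide +kernel, by decide +kernel⟩

def t30108 : allY (E.wth T1) l30108 = true ∧
    allY (E.wth T1) l30109 = true ∧
    allY (E.wth T1) l30110 = true ∧
    allY (E.wth T1) l30111 = true ∧
    allY (E.wth T1) l30112 = true ∧
    allY (E.wth T1) l30113 = true ∧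
    allY (E.wth T1) l30114 = true ∧
    allY (E.wth T1) l30115 = true :=
  ⟨by decide +kernel, by decide +kernel, by decide +kernel, by decide +kernel, by decide +kernel, by decide +kernel, by decide +kernel, by decide +kernel⟩

def t30116 : allY (E.wth T1) l30116 = true ∧
    allY (E.wth T1) l30117 = true ∧
    allY (E.wth T1) l30118 = true ∧
    allY (E.wth T1) l30119 = true ∧
    allY (E.wth T1) l30120 = true ∧
    allY (E.wth T1) l30121 = true ∧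
    allY (E.wth T1) l30122 = true ∧
    allY (E.wth T1) l30123 = true :=
  ⟨by decide +kernel, by decide +kernel, by decide +kernel, by decide +kernel, by decide +kernel, by decide +kernel, by decide +kernel, by decide +kernel⟩

def t30124 : allY (E.wth T1) l30124 = true ∧
    allY (E.wth T1) l30125 = true ∧
    allY (E.wth T1) l30126 = true ∧
    allY (E.wth T1) l30127 = true ∧
    allY (E.wth T1) l30128 = true ∧
    allY (E.wth T1) l30129 = true ∧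
    allY (E.wth T1) l30130 = true ∧
    allY (E.wth T1) l30131 = true :=
  ⟨by decide +kernel, by decide +kernel, by decide +kernel, by decide +kernel, by decide +kernel, by decide +kernel, by decide +kernel, by decide +kernel⟩

def t30132 : allY (E.wth T1) l30132 = true ∧
    allY (E.wth T1) l30133 = true ∧
    allY (E.wth T1) l30134 = true ∧
    allY (E.wth T1) l30135 = true ∧
    allY (E.wth T1) l30136 = true ∧
    allY (E.wth T1) l30137 = true ∧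
    allY (E.wth T1) l30138 = true ∧
    allY (E.wth T1) l30139 = true :=
  ⟨by decide +kernel, by decide +kernel, by decide +kernel, by decide +kernel, by decide +kernel, by decide +kernel, by decide +kernel, by decide +kernel⟩

def t30140 : allY (E.wth T1) l30140 = true ∧
    allY (E.wth T1) l30141 = true ∧
    allY (E.wth T1) l30142 = true ∧
    allY (E.wth T1) l30143 = true ∧
    allY (E.wth T1) l30144 = true ∧
    allY (E.wth T1) l30145 = true ∧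
    allY (E.wth T1) l30146 = true ∧
    allY (E.wth T1) l30147 = true :=
  ⟨by decide +kernel, by decide +kernel, by decide +kernel, by decide +kernel, by decide +kernel, by decide +kernel, by decide +kernel, by decide +kernel⟩

def t30148 : allY (E.wth T1) l30148 = true ∧
    allY (E.wth T1) l30149 = true ∧
    allY (E.wth T1) l30150 = true ∧
    allY (E.wth T1) l30151 = true ∧
    allY (E.wth T1) l30152 = true ∧
    allY (E.wth T1) l30153 = true ∧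
    allY (E.wth T1) l30154 = true ∧
    allY (E.wth T1) l30155 = true :=
  ⟨by decide +kernel, by decide +kernel, by decide +kernel, by decide +kernel, by decide +kernel, by decide +kernel, by decide +kernel, by decide +kernel⟩

def t30156 : allY (E.wth T1) l30156 = true ∧
    allY (E.wth T1) l30157 = true ∧
    allY (E.wth T1) l30158 = true ∧
    allY (E.wth T1) l30159 = true ∧
    allY (E.wth T1) l30160 = true ∧
    allY (E.wth T1) l30161 = true ∧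
    allY (E.wth T1) l30162 = true ∧
    allY (E.wth T1) l30163 = true :=
  ⟨by decide +kernel, by decide +kernel, by decide +kernel, by decide +kernel, by decide +kernel, by decide +kernel, by decide +kernel, by decide +kernel⟩

def t30164 : allY (E.wth T1) l30164 = true ∧
    allY (E.wth T1) l30165 = true ∧
    allY (E.wth T1) l30166 = true ∧
    allY (E.wth T1) l30167 = true ∧
    allY (E.wth T1) l30168 = true ∧
    allY (E.wth T1) l30169 = true ∧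
    allY (E.wth T1) l30170 = true ∧
    allY (E.wth T1) l30171 = true :=
  ⟨by decide +kernel, by decide +kernel, by decide +kernel, by decide +kernel, by decide +kernel, by decide +kernel, by decide +kernel, by decide +kernel⟩

def t30172 : allY (E.wth T1) l30172 = true ∧
    allY (E.wth T1) l30173 = true ∧
    allY (E.wth T1) l30174 = true ∧
    allY (E.wth T1) l30175 = true ∧
    allY (E.wth T1) l30176 = true ∧
    allY (E.wth T1) l30177 = true ∧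
    allY (E.wth T1) l30178 = true ∧
    allY (E.wth T1) l30179 = true :=
  ⟨by decide +kernel, by decide +kernel, by decide +kernel, by decide +kernel, by decide +kernel, by decide +kernel, by decide +kernel, by decide +kernel⟩

def t30180 : allY (E.wth T1) l30180 = true ∧
    allY (E.wth T1) l30181 = true ∧
    allY (E.wth T1) l30182 = true ∧
    allY (E.wth T1) l30183 = true ∧
    allY (E.wth T1) l30184 = true ∧
    allY (E.wth T1) l30185 = true ∧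
    allY (E.wth T1) l30186 = true ∧
    allY (E.wth T1) l30187 = true :=
  ⟨by decide +kernel, by decide +kernel, by decide +kernel, by decide +kernel, by decide +kernel, by decide +kernel, by decide +kernel, by decide +kernel⟩

def t30188 : allY (E.wth T1) l30188 = true ∧
    allY (E.wth T1) l30189 = true ∧
    allY (E.wth T1) l30190 = true ∧
    allY (E.wth T1) l30191 = true ∧
    allY (E.wth T1) l30192 = true ∧
    allY (E.wth T1) l30193 = true ∧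
    allY (E.wth T1) l30194 = true ∧
    allY (E.wth T1) l30195 = true :=
  ⟨by decide +kernel, by decide +kernel, by decide +kernel, by decide +kernel, by decide +kernel, by decide +kernel, by decide +kernel, by decide +kernel⟩

def t30196 : allY (E.wth T1) l30196 = true ∧
    allY (E.wth T1) l30197 = true ∧
    allY (E.wth T1) l30198 = true ∧
    allY (E.wth T1) l30199 = true ∧
    allY (E.wth T1) l30200 = true ∧
    allY (E.wth T1) l30201 = true ∧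
    allY (E.wth T1) l30202 = true ∧
    allY (E.wth T1) l30203 = true :=
  ⟨by decide +kernel, by decide +kernel, by decide +kernel, by decide +kernel, by decide +kernel, by decide +kernel, by decide +kernel, by decide +kernel⟩

def t30204 : allY (E.wth T1) l30204 = true ∧
    allY (E.wth T1) l30205 = true ∧
    allY (E.wth T1) l30206 = true ∧
    allY (E.wth T1) l30207 = true ∧
    allY (E.wth T1) l30208 = true ∧
    allY (E.wth T1) l30209 = true ∧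
    allY (E.wth T1) l30210 = true ∧
    allY (E.wth T1) l30211 = true :=
  ⟨by decide +kernel, by decide +kernel, by decide +kernel, by decide +kernel, by decide +kernel, by decide +kernel, by decide +kernel, by decide +kernel⟩

def t30212 : allY (E.wth T1) l30212 = true ∧
    allY (E.wth T1) l30213 = true ∧
    allY (E.wth T1) l30214 = true ∧
    allY (E.wth T1) l30215 = true ∧
    allY (E.wth T1) l30216 = true ∧
    allY (E.wth T1) l30217 = true ∧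
    allY (E.wth T1) l30218 = true ∧
    allY (E.wth T1) l30219 = true :=
  ⟨by decide +kernel, by decide +kernel, by decide +kernel, by decide +kernel, by decide +kernel, by decide +kernel, by decide +kernel, by decide +kernel⟩

def t30220 : allY (E.wth T1) l30220 = true ∧
    allY (E.wth T1) l30221 = true ∧
    allY (E.wth T1) l30222 = true ∧
    allY (E.wth T1) l30223 = true ∧
    allY (E.wth T1) l30224 = true ∧
    allY (E.wth T1) l30225 = true ∧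
    allY (E.wth T1) l30226 = true ∧
    allY (E.wth T1) l30227 = true :=
  ⟨by decide +kernel, by decide +kernel, by decide +kernel, by decide +kernel, by decide +kernel, by decide +kernel, by decide +kernel, by decide +kernel⟩

def t30228 : allY (E.wth T1) l30228 = true ∧
    allY (E.wth T1) l30229 = true ∧
    allY (E.wth T1) l30230 = true ∧
    allY (E.wth T1) l30231 = true ∧
    allY (E.wth T1) l30232 = true ∧
    allY (E.wth T1) l30233 = true ∧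
    allY (E.wth T1) l30234 = true ∧
    allY (E.wth T1) l30235 = true :=
  ⟨by decide +kernel, by decide +kernel, by decide +kernel, by decide +kernel, by decide +kernel, by decide +kernel, by decide +kernel, by decide +kernel⟩

def t30236 : allY (E.wth T1) l30236 = true ∧
    allY (E.wth T1) l30237 = true ∧
    allY (E.wth T1) l30238 = true ∧
    allY (E.wth T1) l30239 = true ∧
    allY (E.wth T1) l30240 = true ∧
    allY (E.wth T1) l30241 = true ∧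
    allY (E.wth T1) l30242 = true ∧
    allY (E.wth T1) l30243 = true :=
  ⟨by decide +kernel, by decide +kernel, by decide +kernel, by decide +kernel, by decide +kernel, by decide +kernel, by decide +kernel, by decide +kernel⟩

def t30244 : allY (E.wth T1) l30244 = true ∧
    allY (E.wth T1) l30245 = true ∧
    allY (E.wth T1) l30246 = true ∧
    allY (E.wth T1) l30247 = true ∧
    allY (E.wth T1) l30248 = true ∧
    allY (E.wth T1) l30249 = true ∧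
    allY (E.wth T1) l30250 = true ∧
    allY (E.wth T1) l30251 = true :=
  ⟨by decide +kernel, by decide +kernel, by decide +kernel, by decide +kernel, by decide +kernel, by decide +kernel, by decide +kernel, by decide +kernel⟩

def t30252 : allY (E.wth T1) l30252 = true ∧
    allY (E.wth T1) l30253 = true ∧
    allY (E.wth T1) l30254 = true ∧
    allY (E.wth T1) l30255 = true ∧
    allY (E.wth T1) l30256 = true ∧
    allY (E.wth T1) l30257 = true ∧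
    allY (E.wth T1) l30258 = true ∧
    allY (E.wth T1) l30259 = true :=
  ⟨by decide +kernel, by decide +kernel, by decide +kernel, by decide +kernel, by decide +kernel, by decide +kernel, by decide +kernel, by decide +kernel⟩

def t30260 : allY (E.wth T1) l30260 = true ∧
    allY (E.wth T1) l30261 = true ∧
    allY (E.wth T1) l30262 = true ∧
    allY (E.wth T1) l30263 = true ∧
    allY (E.wth T1) l30264 = true ∧
    allY (E.wth T1) l30265 = true ∧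
    allY (E.wth T1) l30266 = true ∧
    allY (E.wth T1) l30267 = true :=
  ⟨by decide +kernel, by decide +kernel, by decide +kernel, by decide +kernel, by decide +kernel, by decide +kernel, by decide +kernel, by decide +kernel⟩

def t30268 : allY (E.wth T1) l30268 = true ∧
    allY (E.wth T1) l30269 = true ∧
    allY (E.wth T1) l30270 = true ∧
    allY (E.wth T1) l30271 = true ∧
    allY (E.wth T1) l30272 = true ∧
    allY (E.wth T1) l30273 = true ∧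
    allY (E.wth T1) l30274 = true ∧
    allY (E.wth T1) l30275 = true :=
  ⟨by decide +kernel, by decide +kernel, by decide +kernel, by decide +kernel, by decide +kernel, by decide +kernel, by decide +kernel, by decide +kernel⟩

def t30276 : allY (E.wth T1) l30276 = true ∧
    allY (E.wth T1) l30277 = true ∧
    allY (E.wth T1) l30278 = true ∧
    allY (E.wth T1) l30279 = true ∧
    allY (E.wth T1) l30280 = true ∧
    allY (E.wth T1) l30281 = true ∧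
    allY (E.wth T1) l30282 = true ∧
    allY (E.wth T1) l30283 = true :=
  ⟨by decide +kernel, by decide +kernel, by decide +kernel, by decide +kernel, by decide +kernel, by decide +kernel, by decide +kernel, by decide +kernel⟩

def t30284 : allY (E.wth T1) l30284 = true ∧
    allY (E.wth T1) l30285 = true ∧
    allY (E.wth T1) l30286 = true ∧
    allY (E.wth T1) l30287 = true ∧
    allY (E.wth T1) l30288 = true ∧
    allY (E.wth T1) l30289 = true ∧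
    allY (E.wth T1) l30290 = true ∧
    allY (E.wth T1) l30291 = true :=
  ⟨by decide +kernel, by decide +kernel, by decide +kernel, by decide +kernel, by decide +kernel, by decide +kernel, by decide +kernel, by decide +kernel⟩

def t30292 : allY (E.wth T1) l30292 = true ∧
    allY (E.wth T1) l30293 = true ∧
    allY (E.wth T1) l30294 = true ∧
    allY (E.wth T1) l30295 = true ∧
    allY (E.wth T1) l30296 = true ∧
    allY (E.wth T1) l30297 = true ∧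
    allY (E.wth T1) l30298 = true ∧
    allY (E.wth T1) l30299 = true :=
  ⟨by decide +kernel, by decide +kernel, by decide +kernel, by decide +kernel, by decide +kernel, by decide +kernel, by decide +kernel, by decide +kernel⟩

def t30300 : allY (E.wth T1) l30300 = true ∧
    allY (E.wth T1) l30301 = true ∧
    allY (E.wth T1) l30302 = true ∧
    allY (E.wth T1) l30303 = true ∧
    allY (E.wth T1) l30304 = true ∧
    allY (E.wth T1) l30305 = true ∧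
    allY (E.wth T1) l30306 = true ∧
    allY (E.wth T1) l30307 = true :=
  ⟨by decide +kernel, by decide +kernel, by decide +kernel, by decide +kernel, by decide +kernel, by decide +kernel, by decide +kernel, by decide +kernel⟩

def t30308 : allY (E.wth T1) l30308 = true ∧
    allY (E.wth T1) l30309 = true ∧
    allY (E.wth T1) l30310 = true ∧
    allY (E.wth T1) l30311 = true ∧
    allY (E.wth T1) l30312 = true ∧
    allY (E.wth T1) l30313 = true ∧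
    allY (E.wth T1) l30314 = true ∧
    allY (E.wth T1) l30315 = true :=
  ⟨by decide +kernel, by decide +kernel, by decide +kernel, by decide +kernel, by decide +kernel, by decide +kernel, by decide +kernel, by decide +kernel⟩

def t30316 : allY (E.wth T1) l30316 = true ∧
    allY (E.wth T1) l30317 = true ∧
    allY (E.wth T1) l30318 = true ∧
    allY (E.wth T1) l30319 = true ∧
    allY (E.wth T1) l30320 = true ∧
    allY (E.wth T1) l30321 = true ∧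
    allY (E.wth T1) l30322 = true ∧
    allY (E.wth T1) l30323 = true :=
  ⟨by decide +kernel, by decide +kernel, by decide +kernel, by decide +kernel, by decide +kernel, by decide +kernel, by decide +kernel, by decide +kernel⟩

def t30324 : allY (E.wth T1) l30324 = true ∧
    allY (E.wth T1) l30325 = true ∧
    allY (E.wth T1) l30326 = true ∧
    allY (E.wth T1) l30327 = true ∧
    allY (E.wth T1) l30328 = true ∧
    allY (E.wth T1) l30329 = true ∧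
    allY (E.wth T1) l30330 = true ∧
    allY (E.wth T1) l30331 = true :=
  ⟨by decide +kernel, by decide +kernel, by decide +kernel, by decide +kernel, by decide +kernel, by decide +kernel, by decide +kernel, by decide +kernel⟩

def t30332 : allY (E.wth T1) l30332 = true ∧
    allY (E.wth T1) l30333 = true ∧
    allY (E.wth T1) l30334 = true ∧
    allY (E.wth T1) l30335 = true ∧
    allY (E.wth T1) l30336 = true ∧
    allY (E.wth T1) l30337 = true ∧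
    allY (E.wth T1) l30338 = true ∧
    allY (E.wth T1) l30339 = true :=
  ⟨by decide +kernel, by decide +kernel, by decide +kernel, by decide +kernel, by decide +kernel, by decide +kernel, by decide +kernel, by decide +kernel⟩

def t30340 : allY (E.wth T1) l30340 = true ∧
    allY (E.wth T1) l30341 = true ∧
    allY (E.wth T1) l30342 = true ∧
    allY (E.wth T1) l30343 = true ∧
    allY (E.wth T1) l30344 = true ∧
    allY (E.wth T1) l30345 = true ∧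
    allY (E.wth T1) l30346 = true ∧
    allY (E.wth T1) l30347 = true :=
  ⟨by decide +kernel, by decide +kernel, by decide +kernel, by decide +kernel, by decide +kernel, by decide +kernel, by decide +kernel, by decide +kernel⟩

def t30348 : allY (E.wth T1) l30348 = true ∧
    allY (E.wth T1) l30349 = true ∧
    allY (E.wth T1) l30350 = true ∧
    allY (E.wth T1) l30351 = true ∧
    allY (E.wth T1) l30352 = true ∧
    allY (E.wth T1) l30353 = true ∧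
    allY (E.wth T1) l30354 = true ∧
    allY (E.wth T1) l30355 = true :=
  ⟨by decide +kernel, by decide +kernel, by decide +kernel, by decide +kernel, by decide +kernel, by decide +kernel, by decide +kernel, by decide +kernel⟩

def t30356 : allY (E.wth T1) l30356 = true ∧
    allY (E.wth T1) l30357 = true ∧
    allY (E.wth T1) l30358 = true ∧
    allY (E.wth T1) l30359 = true ∧
    allY (E.wth T1) l30360 = true ∧
    allY (E.wth T1) l30361 = true ∧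
    allY (E.wth T1) l30362 = true ∧
    allY (E.wth T1) l30363 = true :=
  ⟨by decide +kernel, by decide +kernel, by decide +kernel, by decide +kernel, by decide +kernel, by decide +kernel, by decide +kernel, by decide +kernel⟩

def t30364 : allY (E.wth T1) l30364 = true ∧
    allY (E.wth T1) l30365 = true ∧
    allY (E.wth T1) l30366 = true ∧
    allY (E.wth T1) l30367 = true ∧
    allY (E.wth T1) l30368 = true ∧
    allY (E.wth T1) l30369 = true ∧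
    allY (E.wth T1) l30370 = true ∧
    allY (E.wth T1) l30371 = true :=
  ⟨by decide +kernel, by decide +kernel, by decide +kernel, by decide +kernel, by decide +kernel, by decide +kernel, by decide +kernel, by decide +kernel⟩

def t30372 : allY (E.wth T1) l30372 = true ∧
    allY (E.wth T1) l30373 = true ∧
    allY (E.wth T1) l30374 = true ∧
    allY (E.wth T1) l30375 = true ∧
    allY (E.wth T1) l30376 = true ∧
    allY (E.wth T1) l30377 = true ∧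
    allY (E.wth T1) l30378 = true ∧
    allY (E.wth T1) l30379 = true :=
  ⟨by decide +kernel, by decide +kernel, by decide +kernel, by decide +kernel, by decide +kernel, by decide +kernel, by decide +kernel, by decide +kernel⟩

def t30380 : allY (E.wth T1) l30380 = true ∧
    allY (E.wth T1) l30381 = true ∧
    allY (E.wth T1) l30382 = true ∧
    allY (E.wth T1) l30383 = true ∧
    allY (E.wth T1) l30384 = true ∧
    allY (E.wth T1) l30385 = true ∧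
    allY (E.wth T1) l30386 = true ∧
    allY (E.wth T1) l30387 = true :=
  ⟨by decide +kernel, by decide +kernel, by decide +kernel, by decide +kernel, by decide +kernel, by decide +kernel, by decide +kernel, by decide +kernel⟩

def t30388 : allY (E.wth T1) l30388 = true ∧
    allY (E.wth T1) l30389 = true ∧
    allY (E.wth T1) l30390 = true ∧
    allY (E.wth T1) l30391 = true ∧
    allY (E.wth T1) l30392 = true ∧
    allY (E.wth T1) l30393 = true ∧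
    allY (E.wth T1) l30394 = true ∧
    allY (E.wth T1) l30395 = true :=
  ⟨by decide +kernel, by decide +kernel, by decide +kernel, by decide +kernel, by decide +kernel, by decide +kernel, by decide +kernel, by decide +kernel⟩

def t30396 : allY (E.wth T1) l30396 = true ∧
    allY (E.wth T1) l30397 = true ∧
    allY (E.wth T1) l30398 = true ∧
    allY (E.wth T1) l30399 = true ∧
    allY (E.wth T1) l30400 = true ∧
    allY (E.wth T1) l30401 = true ∧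
    allY (E.wth T1) l30402 = true ∧
    allY (E.wth T1) l30403 = true :=
  ⟨by decide +kernel, by decide +kernel, by decide +kernel, by decide +kernel, by decide +kernel, by decide +kernel, by decide +kernel, by decide +kernel⟩

def t30404 : allY (E.wth T1) l30404 = true ∧
    allY (E.wth T1) l30405 = true ∧
    allY (E.wth T1) l30406 = true ∧
    allY (E.wth T1) l30407 = true ∧
    allY (E.wth T1) l30408 = true ∧
    allY (E.wth T1) l30409 = true ∧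
    allY (E.wth T1) l30410 = true ∧
    allY (E.wth T1) l30411 = true :=
  ⟨by decide +kernel, by decide +kernel, by decide +kernel, by decide +kernel, by decide +kernel, by decide +kernel, by decide +kernel, by decide +kernel⟩

def t30412 : allY (E.wth T1) l30412 = true ∧
    allY (E.wth T1) l30413 = true ∧
    allY (E.wth T1) l30414 = true ∧
    allY (E.wth T1) l30415 = true ∧
    allY (E.wth T1) l30416 = true ∧
    allY (E.wth T1) l30417 = true ∧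
    allY (E.wth T1) l30418 = true ∧
    allY (E.wth T1) l30419 = true :=
  ⟨by decide +kernel, by decide +kernel, by decide +kernel, by decide +kernel, by decide +kernel, by decide +kernel, by decide +kernel, by decide +kernel⟩

def t30420 : allY (E.wth T1) l30420 = true ∧
    allY (E.wth T1) l30421 = true ∧
    allY (E.wth T1) l30422 = true ∧
    allY (E.wth T1) l30423 = true ∧
    allY (E.wth T1) l30424 = true ∧
    allY (E.wth T1) l30425 = true ∧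
    allY (E.wth T1) l30426 = true ∧
    allY (E.wth T1) l30427 = true :=
  ⟨by decide +kernel, by decide +kernel, by decide +kernel, by decide +kernel, by decide +kernel, by decide +kernel, by decide +kernel, by decide +kernel⟩

def t30428 : allY (E.wth T1) l30428 = true ∧
    allY (E.wth T1) l30429 = true ∧
    allY (E.wth T1) l30430 = true ∧
    allY (E.wth T1) l30431 = true ∧
    allY (E.wth T1) l30432 = true ∧
    allY (E.wth T1) l30433 = true ∧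
    allY (E.wth T1) l30434 = true ∧
    allY (E.wth T1) l30435 = true :=
  ⟨by decide +kernel, by decide +kernel, by decide +kernel, by decide +kernel, by decide +kernel, by decide +kernel, by decide +kernel, by decide +kernel⟩

def t30436 : allY (E.wth T1) l30436 = true ∧
    allY (E.wth T1) l30437 = true ∧
    allY (E.wth T1) l30438 = true ∧
    allY (E.wth T1) l30439 = true ∧
    allY (E.wth T1) l30440 = true ∧
    allY (E.wth T1) l30441 = true ∧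
    allY (E.wth T1) l30442 = true ∧
    allY (E.wth T1) l30443 = true :=
  ⟨by decide +kernel, by decide +kernel, by decide +kernel, by decide +kernel, by decide +kernel, by decide +kernel, by decide +kernel, by decide +kernel⟩

def t30444 : allY (E.wth T1) l30444 = true ∧
    allY (E.wth T1) l30445 = true ∧
    allY (E.wth T1) l30446 = true ∧
    allY (E.wth T1) l30447 = true ∧
    allY (E.wth T1) l30448 = true ∧
    allY (E.wth T1) l30449 = true ∧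
    allY (E.wth T1) l30450 = true ∧
    allY (E.wth T1) l30451 = true :=
  ⟨by decide +kernel, by decide +kernel, by decide +kernel, by decide +kernel, by decide +kernel, by decide +kernel, by decide +kernel, by decide +kernel⟩

def t30452 : allY (E.wth T1) l30452 = true ∧
    allY (E.wth T1) l30453 = true ∧
    allY (E.wth T1) l30454 = true ∧
    allY (E.wth T1) l30455 = true ∧
    allY (E.wth T1) l30456 = true ∧
    allY (E.wth T1) l30457 = true ∧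
    allY (E.wth T1) l30458 = true ∧
    allY (E.wth T1) l30459 = true :=
  ⟨by decide +kernel, by decide +kernel, by decide +kernel, by decide +kernel, by decide +kernel, by decide +kernel, by decide +kernel, by decide +kernel⟩

def t30460 : allY (E.wth T1) l30460 = true ∧
    allY (E.wth T1) l30461 = true ∧
    allY (E.wth T1) l30462 = true ∧
    allY (E.wth T1) l30463 = true ∧
    allY (E.wth T1) l30464 = true ∧
    allY (E.wth T1) l30465 = true ∧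
    allY (E.wth T1) l30466 = true ∧
    allY (E.wth T1) l30467 = true :=
  ⟨by decide +kernel, by decide +kernel, by decide +kernel, by decide +kernel, by decide +kernel, by decide +kernel, by decide +kernel, by decide +kernel⟩

def t30468 : allY (E.wth T1) l30468 = true ∧
    allY (E.wth T1) l30469 = true ∧
    allY (E.wth T1) l30470 = true ∧
    allY (E.wth T1) l30471 = true ∧
    allY (E.wth T1) l30472 = true ∧
    allY (E.wth T1) l30473 = true ∧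
    allY (E.wth T1) l30474 = true ∧
    allY (E.wth T1) l30475 = true :=
  ⟨by decide +kernel, by decide +kernel, by decide +kernel, by decide +kernel, by decide +kernel, by decide +kernel, by decide +kernel, by decide +kernel⟩

def t30476 : allY (E.wth T1) l30476 = true ∧
    allY (E.wth T1) l30477 = true ∧
    allY (E.wth T1) l30478 = true ∧
    allY (E.wth T1) l30479 = true :=
  ⟨by decide +kernel, by decide +kernel, by decide +kernel, by decide +kernel⟩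

theorem a54 {p : Rf → Prop} (H : ∀ l, allY (E.wth T1) l = true → (lkp l).All p) :
    b54.All p := ⟨⟨⟨⟨⟨⟨⟨⟨⟨H _ t29932.1, H _ t29932.2.1⟩, ⟨H _ t29932.2.2.1, H _ t29932.2.2.2.1⟩⟩, ⟨⟨H _ t29932.2.2.2.2.1, H _ t29932.2.2.2.2.2.1⟩, ⟨H _ t29932.2.2.2.2.2.2.1, H _ t29932.2.2.2.2.2.2.2⟩⟩⟩, ⟨⟨⟨H _ t29940.1, H _ t29940.2.1⟩, ⟨H _ t29940.2.2.1, H _ t29940.2.2.2.1⟩⟩, ⟨⟨H _ t29940.2.2.2.2.1, H _ t29940.2.2.2.2.2.1⟩, ⟨H _ t29940.2.2.2.2.2.2.1, ⟨H _ t29940.2.2.2.2.2.2.2, H _ t29948.1⟩⟩⟩⟩⟩, ⟨⟨⟨⟨H _ t29948.2.1, H _ t29948.2.2.1⟩, ⟨H _ t29948.2.2.2.1, H _ t29948.2.2.2.2.1⟩⟩, ⟨⟨H _ t29948.2.2.2.2.2.1, H _ t29948.2.2.2.2.2.2.1⟩, ⟨H _ t29948.2.2.2.2.2.2.2, H _ t29956.1⟩⟩⟩, ⟨⟨⟨H _ t29956.2.1, H _ t29956.2.2.1⟩, ⟨H _ t29956.2.2.2.1, H _ t29956.2.2.2.2.1⟩⟩, ⟨⟨H _ t29956.2.2.2.2.2.1, H _ t29956.2.2.2.2.2.2.1⟩, ⟨H _ t29956.2.2.2.2.2.2.2, ⟨H _ t29964.1, H _ t29964.2.1⟩⟩⟩⟩⟩⟩, ⟨⟨⟨⟨⟨H _ t29964.2.2.1, H _ t29964.2.2.2.1⟩,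 ⟨H _ t29964.2.2.2.2.1, H _ t29964.2.2.2.2.2.1⟩⟩, ⟨⟨H _ t29964.2.2.2.2.2.2.1, H _ t29964.2.2.2.2.2.2.2⟩, ⟨H _ t29972.1, H _ t29972.2.1⟩⟩⟩, ⟨⟨⟨H _ t29972.2.2.1, H _ t29972.2.2.2.1⟩, ⟨H _ t29972.2.2.2.2.1, H _ t29972.2.2.2.2.2.1⟩⟩, ⟨⟨H _ t29972.2.2.2.2.2.2.1, H _ t29972.2.2.2.2.2.2.2⟩, ⟨H _ t29980.1, ⟨H _ t29980.2.1, H _ t29980.2.2.1⟩⟩⟩⟩⟩, ⟨⟨⟨⟨H _ t29980.2.2.2.1, H _ t29980.2.2.2.2.1⟩, ⟨H _ t29980.2.2.2.2.2.1, H _ t29980.2.2.2.2.2.2.1⟩⟩, ⟨⟨H _ t29980.2.2.2.2.2.2.2, H _ t29988.1⟩, ⟨H _ t29988.2.1, H _ t29988.2.2.1⟩⟩⟩, ⟨⟨⟨H _ t29988.2.2.2.1, H _ t29988.2.2.2.2.1⟩, ⟨H _ t29988.2.2.2.2.2.1, H _ t29988.2.2.2.2.2.2.1⟩⟩, ⟨⟨H _ t29988.2.2.2.2.2.2.2, H _ t29996.1⟩, ⟨H _ t29996.2.1, ⟨H _ t29996.2.2.1, H _ t29996.2.2.2.1⟩⟩⟩⟩⟩⟩⟩, ⟨⟨⟨⟨⟨⟨H _ t29996.2.2.2.2.1, H _ t29996.2.2.2.2.2.1⟩, ⟨H _ t29996.2.2.2.2.2.2.1, H _ t29996.2.2.2.2.2.2.2⟩⟩, ⟨⟨H _ t30004.1, H _ t30004.2.1⟩, ⟨H _ t30004.2.2.1, H _ t30004.2.2.2.1⟩⟩⟩,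 ⟨⟨⟨H _ t30004.2.2.2.2.1, H _ t30004.2.2.2.2.2.1⟩, ⟨H _ t30004.2.2.2.2.2.2.1, H _ t30004.2.2.2.2.2.2.2⟩⟩, ⟨⟨H _ t30012.1, H _ t30012.2.1⟩, ⟨H _ t30012.2.2.1, ⟨H _ t30012.2.2.2.1, H _ t30012.2.2.2.2.1⟩⟩⟩⟩⟩, ⟨⟨⟨⟨H _ t30012.2.2.2.2.2.1, H _ t30012.2.2.2.2.2.2.1⟩, ⟨H _ t30012.2.2.2.2.2.2.2, H _ t30020.1⟩⟩, ⟨⟨H _ t30020.2.1, H _ t30020.2.2.1⟩, ⟨H _ t30020.2.2.2.1, H _ t30020.2.2.2.2.1⟩⟩⟩, ⟨⟨⟨H _ t30020.2.2.2.2.2.1, H _ t30020.2.2.2.2.2.2.1⟩, ⟨H _ t30020.2.2.2.2.2.2.2, H _ t30028.1⟩⟩, ⟨⟨H _ t30028.2.1, H _ t30028.2.2.1⟩, ⟨H _ t30028.2.2.2.1, ⟨H _ t30028.2.2.2.2.1, H _ t30028.2.2.2.2.2.1⟩⟩⟩⟩⟩⟩, ⟨⟨⟨⟨⟨H _ t30028.2.2.2.2.2.2.1, H _ t30028.2.2.2.2.2.2.2⟩, ⟨H _ t30036.1, H _ t30036.2.1⟩⟩, ⟨⟨H _ t30036.2.2.1, H _ t30036.2.2.2.1⟩, ⟨H _ t30036.2.2.2.2.1, H _ t30036.2.2.2.2.2.1⟩⟩⟩, ⟨⟨⟨H _ t30036.2.2.2.2.2.2.1, H _ t30036.2.2.2.2.2.2.2⟩, ⟨H _ t30044.1, H _ t30044.2.1⟩⟩, ⟨⟨H _ t30044.2.2.1, H _ t30044.2.2.2.1⟩,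 ⟨H _ t30044.2.2.2.2.1, ⟨H _ t30044.2.2.2.2.2.1, H _ t30044.2.2.2.2.2.2.1⟩⟩⟩⟩⟩, ⟨⟨⟨⟨H _ t30044.2.2.2.2.2.2.2, H _ t30052.1⟩, ⟨H _ t30052.2.1, H _ t30052.2.2.1⟩⟩, ⟨⟨H _ t30052.2.2.2.1, H _ t30052.2.2.2.2.1⟩, ⟨H _ t30052.2.2.2.2.2.1, ⟨H _ t30052.2.2.2.2.2.2.1, H _ t30052.2.2.2.2.2.2.2⟩⟩⟩⟩, ⟨⟨⟨H _ t30060.1, H _ t30060.2.1⟩, ⟨H _ t30060.2.2.1, H _ t30060.2.2.2.1⟩⟩, ⟨⟨H _ t30060.2.2.2.2.1, H _ t30060.2.2.2.2.2.1⟩, ⟨H _ t30060.2.2.2.2.2.2.1, ⟨H _ t30060.2.2.2.2.2.2.2, H _ t30068.1⟩⟩⟩⟩⟩⟩⟩⟩, ⟨⟨⟨⟨⟨⟨⟨H _ t30068.2.1, H _ t30068.2.2.1⟩, ⟨H _ t30068.2.2.2.1, H _ t30068.2.2.2.2.1⟩⟩, ⟨⟨H _ t30068.2.2.2.2.2.1, H _ t30068.2.2.2.2.2.2.1⟩, ⟨H _ t30068.2.2.2.2.2.2.2, H _ t30076.1⟩⟩⟩, ⟨⟨⟨H _ t30076.2.1, H _ t30076.2.2.1⟩, ⟨H _ t30076.2.2.2.1, H _ t30076.2.2.2.2.1⟩⟩, ⟨⟨H _ t30076.2.2.2.2.2.1, H _ t30076.2.2.2.2.2.2.1⟩, ⟨H _ t30076.2.2.2.2.2.2.2, ⟨H _ t30084.1, H _ t30084.2.1⟩⟩⟩⟩⟩, ⟨⟨⟨⟨H _ t30084.2.2.1, H _ t30084.2.2.2.1⟩,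 ⟨H _ t30084.2.2.2.2.1, H _ t30084.2.2.2.2.2.1⟩⟩, ⟨⟨H _ t30084.2.2.2.2.2.2.1, H _ t30084.2.2.2.2.2.2.2⟩, ⟨H _ t30092.1, H _ t30092.2.1⟩⟩⟩, ⟨⟨⟨H _ t30092.2.2.1, H _ t30092.2.2.2.1⟩, ⟨H _ t30092.2.2.2.2.1, H _ t30092.2.2.2.2.2.1⟩⟩, ⟨⟨H _ t30092.2.2.2.2.2.2.1, H _ t30092.2.2.2.2.2.2.2⟩, ⟨H _ t30100.1, ⟨H _ t30100.2.1, H _ t30100.2.2.1⟩⟩⟩⟩⟩⟩, ⟨⟨⟨⟨⟨H _ t30100.2.2.2.1, H _ t30100.2.2.2.2.1⟩, ⟨H _ t30100.2.2.2.2.2.1, H _ t30100.2.2.2.2.2.2.1⟩⟩, ⟨⟨H _ t30100.2.2.2.2.2.2.2, H _ t30108.1⟩, ⟨H _ t30108.2.1, H _ t30108.2.2.1⟩⟩⟩, ⟨⟨⟨H _ t30108.2.2.2.1, H _ t30108.2.2.2.2.1⟩, ⟨H _ t30108.2.2.2.2.2.1, H _ t30108.2.2.2.2.2.2.1⟩⟩, ⟨⟨H _ t30108.2.2.2.2.2.2.2, H _ t30116.1⟩, ⟨H _ t30116.2.1, ⟨H _ t30116.2.2.1, H _ t30116.2.2.2.1⟩⟩⟩⟩⟩, ⟨⟨⟨⟨H _ t30116.2.2.2.2.1, H _ t30116.2.2.2.2.2.1⟩, ⟨H _ t30116.2.2.2.2.2.2.1, H _ t30116.2.2.2.2.2.2.2⟩⟩, ⟨⟨H _ t30124.1, H _ t30124.2.1⟩, ⟨H _ t30124.2.2.1, H _ t30124.2.2.2.1⟩⟩⟩,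 ⟨⟨⟨H _ t30124.2.2.2.2.1, H _ t30124.2.2.2.2.2.1⟩, ⟨H _ t30124.2.2.2.2.2.2.1, H _ t30124.2.2.2.2.2.2.2⟩⟩, ⟨⟨H _ t30132.1, H _ t30132.2.1⟩, ⟨H _ t30132.2.2.1, ⟨H _ t30132.2.2.2.1, H _ t30132.2.2.2.2.1⟩⟩⟩⟩⟩⟩⟩, ⟨⟨⟨⟨⟨⟨H _ t30132.2.2.2.2.2.1, H _ t30132.2.2.2.2.2.2.1⟩, ⟨H _ t30132.2.2.2.2.2.2.2, H _ t30140.1⟩⟩, ⟨⟨H _ t30140.2.1, H _ t30140.2.2.1⟩, ⟨H _ t30140.2.2.2.1, H _ t30140.2.2.2.2.1⟩⟩⟩, ⟨⟨⟨H _ t30140.2.2.2.2.2.1, H _ t30140.2.2.2.2.2.2.1⟩, ⟨H _ t30140.2.2.2.2.2.2.2, H _ t30148.1⟩⟩, ⟨⟨H _ t30148.2.1, H _ t30148.2.2.1⟩, ⟨H _ t30148.2.2.2.1, ⟨H _ t30148.2.2.2.2.1, H _ t30148.2.2.2.2.2.1⟩⟩⟩⟩⟩, ⟨⟨⟨⟨H _ t30148.2.2.2.2.2.2.1, H _ t30148.2.2.2.2.2.2.2⟩, ⟨H _ t30156.1, H _ t30156.2.1⟩⟩, ⟨⟨H _ t30156.2.2.1, H _ t30156.2.2.2.1⟩, ⟨H _ t30156.2.2.2.2.1, H _ t30156.2.2.2.2.2.1⟩⟩⟩, ⟨⟨⟨H _ t30156.2.2.2.2.2.2.1, H _ t30156.2.2.2.2.2.2.2⟩, ⟨H _ t30164.1, H _ t30164.2.1⟩⟩, ⟨⟨H _ t30164.2.2.1, H _ t30164.2.2.2.1⟩,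 ⟨H _ t30164.2.2.2.2.1, ⟨H _ t30164.2.2.2.2.2.1, H _ t30164.2.2.2.2.2.2.1⟩⟩⟩⟩⟩⟩, ⟨⟨⟨⟨⟨H _ t30164.2.2.2.2.2.2.2, H _ t30172.1⟩, ⟨H _ t30172.2.1, H _ t30172.2.2.1⟩⟩, ⟨⟨H _ t30172.2.2.2.1, H _ t30172.2.2.2.2.1⟩, ⟨H _ t30172.2.2.2.2.2.1, H _ t30172.2.2.2.2.2.2.1⟩⟩⟩, ⟨⟨⟨H _ t30172.2.2.2.2.2.2.2, H _ t30180.1⟩, ⟨H _ t30180.2.1, H _ t30180.2.2.1⟩⟩, ⟨⟨H _ t30180.2.2.2.1, H _ t30180.2.2.2.2.1⟩, ⟨H _ t30180.2.2.2.2.2.1, ⟨H _ t30180.2.2.2.2.2.2.1, H _ t30180.2.2.2.2.2.2.2⟩⟩⟩⟩⟩, ⟨⟨⟨⟨H _ t30188.1, H _ t30188.2.1⟩, ⟨H _ t30188.2.2.1, H _ t30188.2.2.2.1⟩⟩, ⟨⟨H _ t30188.2.2.2.2.1, H _ t30188.2.2.2.2.2.1⟩, ⟨H _ t30188.2.2.2.2.2.2.1, ⟨H _ t30188.2.2.2.2.2.2.2, H _ t30196.1⟩⟩⟩⟩, ⟨⟨⟨H _ t30196.2.1, H _ t30196.2.2.1⟩, ⟨H _ t30196.2.2.2.1, H _ t30196.2.2.2.2.1⟩⟩, ⟨⟨H _ t30196.2.2.2.2.2.1, H _ t30196.2.2.2.2.2.2.1⟩, ⟨H _ t30196.2.2.2.2.2.2.2, ⟨H _ t30204.1, H _ t30204.2.1⟩⟩⟩⟩⟩⟩⟩⟩⟩, ⟨⟨⟨⟨⟨⟨⟨⟨H _ t30204.2.2.1, H _ t30204.2.2.2.1⟩,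 ⟨H _ t30204.2.2.2.2.1, H _ t30204.2.2.2.2.2.1⟩⟩, ⟨⟨H _ t30204.2.2.2.2.2.2.1, H _ t30204.2.2.2.2.2.2.2⟩, ⟨H _ t30212.1, H _ t30212.2.1⟩⟩⟩, ⟨⟨⟨H _ t30212.2.2.1, H _ t30212.2.2.2.1⟩, ⟨H _ t30212.2.2.2.2.1, H _ t30212.2.2.2.2.2.1⟩⟩, ⟨⟨H _ t30212.2.2.2.2.2.2.1, H _ t30212.2.2.2.2.2.2.2⟩, ⟨H _ t30220.1, ⟨H _ t30220.2.1, H _ t30220.2.2.1⟩⟩⟩⟩⟩, ⟨⟨⟨⟨H _ t30220.2.2.2.1, H _ t30220.2.2.2.2.1⟩, ⟨H _ t30220.2.2.2.2.2.1, H _ t30220.2.2.2.2.2.2.1⟩⟩, ⟨⟨H _ t30220.2.2.2.2.2.2.2, H _ t30228.1⟩, ⟨H _ t30228.2.1, H _ t30228.2.2.1⟩⟩⟩, ⟨⟨⟨H _ t30228.2.2.2.1, H _ t30228.2.2.2.2.1⟩, ⟨H _ t30228.2.2.2.2.2.1, H _ t30228.2.2.2.2.2.2.1⟩⟩, ⟨⟨H _ t30228.2.2.2.2.2.2.2, H _ t30236.1⟩, ⟨H _ t30236.2.1, ⟨H _ t30236.2.2.1, H _ t30236.2.2.2.1⟩⟩⟩⟩⟩⟩, ⟨⟨⟨⟨⟨H _ t30236.2.2.2.2.1, H _ t30236.2.2.2.2.2.1⟩, ⟨H _ t30236.2.2.2.2.2.2.1, H _ t30236.2.2.2.2.2.2.2⟩⟩, ⟨⟨H _ t30244.1, H _ t30244.2.1⟩, ⟨H _ t30244.2.2.1, H _ t30244.2.2.2.1⟩⟩⟩,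 ⟨⟨⟨H _ t30244.2.2.2.2.1, H _ t30244.2.2.2.2.2.1⟩, ⟨H _ t30244.2.2.2.2.2.2.1, H _ t30244.2.2.2.2.2.2.2⟩⟩, ⟨⟨H _ t30252.1, H _ t30252.2.1⟩, ⟨H _ t30252.2.2.1, ⟨H _ t30252.2.2.2.1, H _ t30252.2.2.2.2.1⟩⟩⟩⟩⟩, ⟨⟨⟨⟨H _ t30252.2.2.2.2.2.1, H _ t30252.2.2.2.2.2.2.1⟩, ⟨H _ t30252.2.2.2.2.2.2.2, H _ t30260.1⟩⟩, ⟨⟨H _ t30260.2.1, H _ t30260.2.2.1⟩, ⟨H _ t30260.2.2.2.1, H _ t30260.2.2.2.2.1⟩⟩⟩, ⟨⟨⟨H _ t30260.2.2.2.2.2.1, H _ t30260.2.2.2.2.2.2.1⟩, ⟨H _ t30260.2.2.2.2.2.2.2, H _ t30268.1⟩⟩, ⟨⟨H _ t30268.2.1, H _ t30268.2.2.1⟩, ⟨H _ t30268.2.2.2.1, ⟨H _ t30268.2.2.2.2.1, H _ t30268.2.2.2.2.2.1⟩⟩⟩⟩⟩⟩⟩, ⟨⟨⟨⟨⟨⟨H _ t30268.2.2.2.2.2.2.1, H _ t30268.2.2.2.2.2.2.2⟩, ⟨H _ t30276.1, H _ t30276.2.1⟩⟩, ⟨⟨H _ t30276.2.2.1, H _ t30276.2.2.2.1⟩, ⟨H _ t30276.2.2.2.2.1, H _ t30276.2.2.2.2.2.1⟩⟩⟩, ⟨⟨⟨H _ t30276.2.2.2.2.2.2.1, H _ t30276.2.2.2.2.2.2.2⟩, ⟨H _ t30284.1, H _ t30284.2.1⟩⟩, ⟨⟨H _ t30284.2.2.1, H _ t30284.2.2.2.1⟩,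 ⟨H _ t30284.2.2.2.2.1, ⟨H _ t30284.2.2.2.2.2.1, H _ t30284.2.2.2.2.2.2.1⟩⟩⟩⟩⟩, ⟨⟨⟨⟨H _ t30284.2.2.2.2.2.2.2, H _ t30292.1⟩, ⟨H _ t30292.2.1, H _ t30292.2.2.1⟩⟩, ⟨⟨H _ t30292.2.2.2.1, H _ t30292.2.2.2.2.1⟩, ⟨H _ t30292.2.2.2.2.2.1, H _ t30292.2.2.2.2.2.2.1⟩⟩⟩, ⟨⟨⟨H _ t30292.2.2.2.2.2.2.2, H _ t30300.1⟩, ⟨H _ t30300.2.1, H _ t30300.2.2.1⟩⟩, ⟨⟨H _ t30300.2.2.2.1, H _ t30300.2.2.2.2.1⟩, ⟨H _ t30300.2.2.2.2.2.1, ⟨H _ t30300.2.2.2.2.2.2.1, H _ t30300.2.2.2.2.2.2.2⟩⟩⟩⟩⟩⟩, ⟨⟨⟨⟨⟨H _ t30308.1, H _ t30308.2.1⟩, ⟨H _ t30308.2.2.1, H _ t30308.2.2.2.1⟩⟩, ⟨⟨H _ t30308.2.2.2.2.1, H _ t30308.2.2.2.2.2.1⟩, ⟨H _ t30308.2.2.2.2.2.2.1, H _ t30308.2.2.2.2.2.2.2⟩⟩⟩, ⟨⟨⟨H _ t30316.1, H _ t30316.2.1⟩, ⟨H _ t30316.2.2.1, H _ t30316.2.2.2.1⟩⟩, ⟨⟨H _ t30316.2.2.2.2.1, H _ t30316.2.2.2.2.2.1⟩, ⟨H _ t30316.2.2.2.2.2.2.1, ⟨H _ t30316.2.2.2.2.2.2.2, H _ t30324.1⟩⟩⟩⟩⟩, ⟨⟨⟨⟨H _ t30324.2.1, H _ t30324.2.2.1⟩, ⟨H _ t30324.2.2.2.1,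 H _ t30324.2.2.2.2.1⟩⟩, ⟨⟨H _ t30324.2.2.2.2.2.1, H _ t30324.2.2.2.2.2.2.1⟩, ⟨H _ t30324.2.2.2.2.2.2.2, ⟨H _ t30332.1, H _ t30332.2.1⟩⟩⟩⟩, ⟨⟨⟨H _ t30332.2.2.1, H _ t30332.2.2.2.1⟩, ⟨H _ t30332.2.2.2.2.1, H _ t30332.2.2.2.2.2.1⟩⟩, ⟨⟨H _ t30332.2.2.2.2.2.2.1, H _ t30332.2.2.2.2.2.2.2⟩, ⟨H _ t30340.1, ⟨H _ t30340.2.1, H _ t30340.2.2.1⟩⟩⟩⟩⟩⟩⟩⟩, ⟨⟨⟨⟨⟨⟨⟨H _ t30340.2.2.2.1, H _ t30340.2.2.2.2.1⟩, ⟨H _ t30340.2.2.2.2.2.1, H _ t30340.2.2.2.2.2.2.1⟩⟩, ⟨⟨H _ t30340.2.2.2.2.2.2.2, H _ t30348.1⟩, ⟨H _ t30348.2.1, H _ t30348.2.2.1⟩⟩⟩, ⟨⟨⟨H _ t30348.2.2.2.1, H _ t30348.2.2.2.2.1⟩, ⟨H _ t30348.2.2.2.2.2.1, H _ t30348.2.2.2.2.2.2.1⟩⟩, ⟨⟨H _ t30348.2.2.2.2.2.2.2, H _ t30356.1⟩, ⟨H _ t30356.2.1, ⟨H _ t30356.2.2.1, H _ t30356.2.2.2.1⟩⟩⟩⟩⟩, ⟨⟨⟨⟨H _ t30356.2.2.2.2.1, H _ t30356.2.2.2.2.2.1⟩, ⟨H _ t30356.2.2.2.2.2.2.1, H _ t30356.2.2.2.2.2.2.2⟩⟩, ⟨⟨H _ t30364.1, H _ t30364.2.1⟩, ⟨H _ t30364.2.2.1, H _ t30364.2.2.2.1⟩⟩⟩,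 ⟨⟨⟨H _ t30364.2.2.2.2.1, H _ t30364.2.2.2.2.2.1⟩, ⟨H _ t30364.2.2.2.2.2.2.1, H _ t30364.2.2.2.2.2.2.2⟩⟩, ⟨⟨H _ t30372.1, H _ t30372.2.1⟩, ⟨H _ t30372.2.2.1, ⟨H _ t30372.2.2.2.1, H _ t30372.2.2.2.2.1⟩⟩⟩⟩⟩⟩, ⟨⟨⟨⟨⟨H _ t30372.2.2.2.2.2.1, H _ t30372.2.2.2.2.2.2.1⟩, ⟨H _ t30372.2.2.2.2.2.2.2, H _ t30380.1⟩⟩, ⟨⟨H _ t30380.2.1, H _ t30380.2.2.1⟩, ⟨H _ t30380.2.2.2.1, H _ t30380.2.2.2.2.1⟩⟩⟩, ⟨⟨⟨H _ t30380.2.2.2.2.2.1, H _ t30380.2.2.2.2.2.2.1⟩, ⟨H _ t30380.2.2.2.2.2.2.2, H _ t30388.1⟩⟩, ⟨⟨H _ t30388.2.1, H _ t30388.2.2.1⟩, ⟨H _ t30388.2.2.2.1, ⟨H _ t30388.2.2.2.2.1, H _ t30388.2.2.2.2.2.1⟩⟩⟩⟩⟩, ⟨⟨⟨⟨H _ t30388.2.2.2.2.2.2.1, H _ t30388.2.2.2.2.2.2.2⟩, ⟨H _ t30396.1, H _ t30396.2.1⟩⟩, ⟨⟨H _ t30396.2.2.1, H _ t30396.2.2.2.1⟩, ⟨H _ t30396.2.2.2.2.1, H _ t30396.2.2.2.2.2.1⟩⟩⟩, ⟨⟨⟨H _ t30396.2.2.2.2.2.2.1, H _ t30396.2.2.2.2.2.2.2⟩, ⟨H _ t30404.1, H _ t30404.2.1⟩⟩, ⟨⟨H _ t30404.2.2.1, H _ t30404.2.2.2.1⟩,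 ⟨H _ t30404.2.2.2.2.1, ⟨H _ t30404.2.2.2.2.2.1, H _ t30404.2.2.2.2.2.2.1⟩⟩⟩⟩⟩⟩⟩, ⟨⟨⟨⟨⟨⟨H _ t30404.2.2.2.2.2.2.2, H _ t30412.1⟩, ⟨H _ t30412.2.1, H _ t30412.2.2.1⟩⟩, ⟨⟨H _ t30412.2.2.2.1, H _ t30412.2.2.2.2.1⟩, ⟨H _ t30412.2.2.2.2.2.1, H _ t30412.2.2.2.2.2.2.1⟩⟩⟩, ⟨⟨⟨H _ t30412.2.2.2.2.2.2.2, H _ t30420.1⟩, ⟨H _ t30420.2.1, H _ t30420.2.2.1⟩⟩, ⟨⟨H _ t30420.2.2.2.1, H _ t30420.2.2.2.2.1⟩, ⟨H _ t30420.2.2.2.2.2.1, ⟨H _ t30420.2.2.2.2.2.2.1, H _ t30420.2.2.2.2.2.2.2⟩⟩⟩⟩⟩, ⟨⟨⟨⟨H _ t30428.1, H _ t30428.2.1⟩, ⟨H _ t30428.2.2.1, H _ t30428.2.2.2.1⟩⟩, ⟨⟨H _ t30428.2.2.2.2.1, H _ t30428.2.2.2.2.2.1⟩, ⟨H _ t30428.2.2.2.2.2.2.1, H _ t30428.2.2.2.2.2.2.2⟩⟩⟩, ⟨⟨⟨H _ t30436.1, H _ t30436.2.1⟩, ⟨H _ t30436.2.2.1, H _ t30436.2.2.2.1⟩⟩, ⟨⟨H _ t30436.2.2.2.2.1, H _ t30436.2.2.2.2.2.1⟩, ⟨H _ t30436.2.2.2.2.2.2.1, ⟨H _ t30436.2.2.2.2.2.2.2, H _ t30444.1⟩⟩⟩⟩⟩⟩, ⟨⟨⟨⟨⟨H _ t30444.2.1, H _ t30444.2.2.1⟩, ⟨H _ t30444.2.2.2.1,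 H _ t30444.2.2.2.2.1⟩⟩, ⟨⟨H _ t30444.2.2.2.2.2.1, H _ t30444.2.2.2.2.2.2.1⟩, ⟨H _ t30444.2.2.2.2.2.2.2, H _ t30452.1⟩⟩⟩, ⟨⟨⟨H _ t30452.2.1, H _ t30452.2.2.1⟩, ⟨H _ t30452.2.2.2.1, H _ t30452.2.2.2.2.1⟩⟩, ⟨⟨H _ t30452.2.2.2.2.2.1, H _ t30452.2.2.2.2.2.2.1⟩, ⟨H _ t30452.2.2.2.2.2.2.2, ⟨H _ t30460.1, H _ t30460.2.1⟩⟩⟩⟩⟩, ⟨⟨⟨⟨H _ t30460.2.2.1, H _ t30460.2.2.2.1⟩, ⟨H _ t30460.2.2.2.2.1, H _ t30460.2.2.2.2.2.1⟩⟩, ⟨⟨H _ t30460.2.2.2.2.2.2.1, H _ t30460.2.2.2.2.2.2.2⟩, ⟨H _ t30468.1, ⟨H _ t30468.2.1, H _ t30468.2.2.1⟩⟩⟩⟩, ⟨⟨⟨H _ t30468.2.2.2.1, H _ t30468.2.2.2.2.1⟩, ⟨H _ t30468.2.2.2.2.2.1, H _ t30468.2.2.2.2.2.2.1⟩⟩, ⟨⟨H _ t30468.2.2.2.2.2.2.2, H _ t30476.1⟩, ⟨H _ t30476.2.1, ⟨H _ t30476.2.2.1, H _ t30476.2.2.2⟩⟩⟩⟩⟩⟩⟩⟩⟩⟩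

end Pool.Agent.MP_c853c5_nt.X.C4950
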