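import Pool.Agent.MP_c853c5_nt.X.C4950.Env
import Pool.Agent.MP_c853c5_nt.X.C4950.Tab

set_option autoImplicit false
set_option maxRecDepth 8192
set_option linter.all false

namespace Pool.Agent.MP_c853c5_nt.X.C4950

open Pool.Agent.MP_c853c5_nt.X

def t30480 : allY (E.wth T1) l30480 = true ∧
    allY (E.wth T1) l30481 = true ∧
    allY (E.wth T1) l30482 = true ∧
    allY (E.wth T1) l30483 = true ∧
    allY (E.wth T1) l30484 = true ∧
    allY (E.wth T1) l30485 = true ∧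
    allY (E.wth T1) l30486 = true ∧
    allY (E.wth T1) l30487 = true :=
  ⟨by decide +kernel, by decide +kernel, by decide +kernel, by decide +kernel, by decide +kernel, by decide +kernel, by decide +kernel, by decide +kernel⟩

def t30488 : allY (E.wth T1) l30488 = true ∧
    allY (E.wth T1) l30489 = true ∧
    allY (E.wth T1) l30490 = true ∧
    allY (E.wth T1) l30491 = true ∧
    allY (E.wth T1) l30492 = true ∧
    allY (E.wth T1) l30493 = true ∧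
    allY (E.wth T1) l30494 = true ∧
    allY (E.wth T1) l30495 = true :=
  ⟨by decide +kernel, by decide +kernel, by decide +kernel, by decide +kernel, by decide +kernel, by decide +kernel, by decide +kernel, by decide +kernel⟩

def t30496 : allY (E.wth T1) l30496 = true ∧
    allY (E.wth T1) l30497 = true ∧
    allY (E.wth T1) l30498 = true ∧
    allY (E.wth T1) l30499 = true ∧
    allY (E.wth T1) l30500 = true ∧
    allY (E.wth T1) l30501 = true ∧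
    allY (E.wth T1) l30502 = true ∧
    allY (E.wth T1) l30503 = true :=
  ⟨by decide +kernel, by decide +kernel, by decide +kernel, by decide +kernel, by decide +kernel, by decide +kernel, by decide +kernel, by decide +kernel⟩

def t30504 : allY (E.wth T1) l30504 = true ∧
    allY (E.wth T1) l30505 = true ∧
    allY (E.wth T1) l30506 = true ∧
    allY (E.wth T1) l30507 = true ∧
    allY (E.wth T1) l30508 = true ∧
    allY (E.wth T1) l30509 = true ∧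
    allY (E.wth T1) l30510 = true ∧
    allY (E.wth T1) l30511 = true :=
  ⟨by decide +kernel, by decide +kernel, by decide +kernel, by decide +kernel, by decide +kernel, by decide +kernel, by decide +kernel, by decide +kernel⟩

def t30512 : allY (E.wth T1) l30512 = true ∧
    allY (E.wth T1) l30513 = true ∧
    allY (E.wth T1) l30514 = true ∧
    allY (E.wth T1) l30515 = true ∧
    allY (E.wth T1) l30516 = true ∧
    allY (E.wth T1) l30517 = true ∧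
    allY (E.wth T1) l30518 = true ∧
    allY (E.wth T1) l30519 = true :=
  ⟨by decide +kernel, by decide +kernel, by decide +kernel, by decide +kernel, by decide +kernel, by decide +kernel, by decide +kernel, by decide +kernel⟩

def t30520 : allY (E.wth T1) l30520 = true ∧
    allY (E.wth T1) l30521 = true ∧
    allY (E.wth T1) l30522 = true ∧
    allY (E.wth T1) l30523 = true ∧
    allY (E.wth T1) l30524 = true ∧
    allY (E.wth T1) l30525 = true ∧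
    allY (E.wth T1) l30526 = true ∧
    allY (E.wth T1) l30527 = true :=
  ⟨by decide +kernel, by decide +kernel, by decide +kernel, by decide +kernel, by decide +kernel, by decide +kernel, by decide +kernel, by decide +kernel⟩

def t30528 : allY (E.wth T1) l30528 = true ∧
    allY (E.wth T1) l30529 = true ∧
    allY (E.wth T1) l30530 = true ∧
    allY (E.wth T1) l30531 = true ∧
    allY (E.wth T1) l30532 = true ∧
    allY (E.wth T1) l30533 = true ∧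
    allY (E.wth T1) l30534 = true ∧
    allY (E.wth T1) l30535 = true :=
  ⟨by decide +kernel, by decide +kernel, by decide +kernel, by decide +kernel, by decide +kernel, by decide +kernel, by decide +kernel, by decide +kernel⟩

def t30536 : allY (E.wth T1) l30536 = true ∧
    allY (E.wth T1) l30537 = true ∧
    allY (E.wth T1) l30538 = true ∧
    allY (E.wth T1) l30539 = true ∧
    allY (E.wth T1) l30540 = true ∧
    allY (E.wth T1) l30541 = true ∧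
    allY (E.wth T1) l30542 = true ∧
    allY (E.wth T1) l30543 = true :=
  ⟨by decide +kernel, by decide +kernel, by decide +kernel, by decide +kernel, by decide +kernel, by decide +kernel, by decide +kernel, by decide +kernel⟩

def t30544 : allY (E.wth T1) l30544 = true ∧
    allY (E.wth T1) l30545 = true ∧
    allY (E.wth T1) l30546 = true ∧
    allY (E.wth T1) l30547 = true ∧
    allY (E.wth T1) l30548 = true ∧
    allY (E.wth T1) l30549 = true ∧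
    allY (E.wth T1) l30550 = true ∧
    allY (E.wth T1) l30551 = true :=
  ⟨by decide +kernel, by decide +kernel, by decide +kernel, by decide +kernel, by decide +kernel, by decide +kernel, by decide +kernel, by decide +kernel⟩

def t30552 : allY (E.wth T1) l30552 = true ∧
    allY (E.wth T1) l30553 = true ∧
    allY (E.wth T1) l30554 = true ∧
    allY (E.wth T1) l30555 = true ∧
    allY (E.wth T1) l30556 = true ∧
    allY (E.wth T1) l30557 = true ∧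
    allY (E.wth T1) l30558 = true ∧
    allY (E.wth T1) l30559 = true :=
  ⟨by decide +kernel, by decide +kernel, by decide +kernel, by decide +kernel, by decide +kernel, by decide +kernel, by decide +kernel, by decide +kernel⟩

def t30560 : allY (E.wth T1) l30560 = true ∧
    allY (E.wth T1) l30561 = true ∧
    allY (E.wth T1) l30562 = true ∧
    allY (E.wth T1) l30563 = true ∧
    allY (E.wth T1) l30564 = true ∧
    allY (E.wth T1) l30565 = true ∧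
    allY (E.wth T1) l30566 = true ∧
    allY (E.wth T1) l30567 = true :=
  ⟨by decide +kernel, by decide +kernel, by decide +kernel, by decide +kernel, by decide +kernel, by decide +kernel, by decide +kernel, by decide +kernel⟩

def t30568 : allY (E.wth T1) l30568 = true ∧
    allY (E.wth T1) l30569 = true ∧
    allY (E.wth T1) l30570 = true ∧
    allY (E.wth T1) l30571 = true ∧
    allY (E.wth T1) l30572 = true ∧
    allY (E.wth T1) l30573 = true ∧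
    allY (E.wth T1) l30574 = true ∧
    allY (E.wth T1) l30575 = true :=
  ⟨by decide +kernel, by decide +kernel, by decide +kernel, by decide +kernel, by decide +kernel, by decide +kernel, by decide +kernel, by decide +kernel⟩

def t30576 : allY (E.wth T1) l30576 = true ∧
    allY (E.wth T1) l30577 = true ∧
    allY (E.wth T1) l30578 = true ∧
    allY (E.wth T1) l30579 = true ∧
    allY (E.wth T1) l30580 = true ∧
    allY (E.wth T1) l30581 = true ∧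
    allY (E.wth T1) l30582 = true ∧
    allY (E.wth T1) l30583 = true :=
  ⟨by decide +kernel, by decide +kernel, by decide +kernel, by decide +kernel, by decide +kernel, by decide +kernel, by decide +kernel, by decide +kernel⟩

def t30584 : allY (E.wth T1) l30584 = true ∧
    allY (E.wth T1) l30585 = true ∧
    allY (E.wth T1) l30586 = true ∧
    allY (E.wth T1) l30587 = true ∧
    allY (E.wth T1) l30588 = true ∧
    allY (E.wth T1) l30589 = true ∧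
    allY (E.wth T1) l30590 = true ∧
    allY (E.wth T1) l30591 = true :=
  ⟨by decide +kernel, by decide +kernel, by decide +kernel, by decide +kernel, by decide +kernel, by decide +kernel, by decide +kernel, by decide +kernel⟩

def t30592 : allY (E.wth T1) l30592 = true ∧
    allY (E.wth T1) l30593 = true ∧
    allY (E.wth T1) l30594 = true ∧
    allY (E.wth T1) l30595 = true ∧
    allY (E.wth T1) l30596 = true ∧
    allY (E.wth T1) l30597 = true ∧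
    allY (E.wth T1) l30598 = true ∧
    allY (E.wth T1) l30599 = true :=
  ⟨by decide +kernel, by decide +kernel, by decide +kernel, by decide +kernel, by decide +kernel, by decide +kernel, by decide +kernel, by decide +kernel⟩

def t30600 : allY (E.wth T1) l30600 = true ∧
    allY (E.wth T1) l30601 = true ∧
    allY (E.wth T1) l30602 = true ∧
    allY (E.wth T1) l30603 = true ∧
    allY (E.wth T1) l30604 = true ∧
    allY (E.wth T1) l30605 = true ∧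
    allY (E.wth T1) l30606 = true ∧
    allY (E.wth T1) l30607 = true :=
  ⟨by decide +kernel, by decide +kernel, by decide +kernel, by decide +kernel, by decide +kernel, by decide +kernel, by decide +kernel, by decide +kernel⟩

def t30608 : allY (E.wth T1) l30608 = true ∧
    allY (E.wth T1) l30609 = true ∧
    allY (E.wth T1) l30610 = true ∧
    allY (E.wth T1) l30611 = true ∧
    allY (E.wth T1) l30612 = true ∧
    allY (E.wth T1) l30613 = true ∧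
    allY (E.wth T1) l30614 = true ∧
    allY (E.wth T1) l30615 = true :=
  ⟨by decide +kernel, by decide +kernel, by decide +kernel, by decide +kernel, by decide +kernel, by decide +kernel, by decide +kernel, by decide +kernel⟩

def t30616 : allY (E.wth T1) l30616 = true ∧
    allY (E.wth T1) l30617 = true ∧
    allY (E.wth T1) l30618 = true ∧
    allY (E.wth T1) l30619 = true ∧
    allY (E.wth T1) l30620 = true ∧
    allY (E.wth T1) l30621 = true ∧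
    allY (E.wth T1) l30622 = true ∧
    allY (E.wth T1) l30623 = true :=
  ⟨by decide +kernel, by decide +kernel, by decide +kernel, by decide +kernel, by decide +kernel, by decide +kernel, by decide +kernel, by decide +kernel⟩

def t30624 : allY (E.wth T1) l30624 = true ∧
    allY (E.wth T1) l30625 = true ∧
    allY (E.wth T1) l30626 = true ∧
    allY (E.wth T1) l30627 = true ∧
    allY (E.wth T1) l30628 = true ∧
    allY (E.wth T1) l30629 = true ∧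
    allY (E.wth T1) l30630 = true ∧
    allY (E.wth T1) l30631 = true :=
  ⟨by decide +kernel, by decide +kernel, by decide +kernel, by decide +kernel, by decide +kernel, by decide +kernel, by decide +kernel, by decide +kernel⟩

def t30632 : allY (E.wth T1) l30632 = true ∧
    allY (E.wth T1) l30633 = true ∧
    allY (E.wth T1) l30634 = true ∧
    allY (E.wth T1) l30635 = true ∧
    allY (E.wth T1) l30636 = true ∧
    allY (E.wth T1) l30637 = true ∧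
    allY (E.wth T1) l30638 = true ∧
    allY (E.wth T1) l30639 = true :=
  ⟨by decide +kernel, by decide +kernel, by decide +kernel, by decide +kernel, by decide +kernel, by decide +kernel, by decide +kernel, by decide +kernel⟩

def t30640 : allY (E.wth T1) l30640 = true ∧
    allY (E.wth T1) l30641 = true ∧
    allY (E.wth T1) l30642 = true ∧
    allY (E.wth T1) l30643 = true ∧
    allY (E.wth T1) l30644 = true ∧
    allY (E.wth T1) l30645 = true ∧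
    allY (E.wth T1) l30646 = true ∧
    allY (E.wth T1) l30647 = true :=
  ⟨by decide +kernel, by decide +kernel, by decide +kernel, by decide +kernel, by decide +kernel, by decide +kernel, by decide +kernel, by decide +kernel⟩

def t30648 : allY (E.wth T1) l30648 = true ∧
    allY (E.wth T1) l30649 = true ∧
    allY (E.wth T1) l30650 = true ∧
    allY (E.wth T1) l30651 = true ∧
    allY (E.wth T1) l30652 = true ∧
    allY (E.wth T1) l30653 = true ∧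
    allY (E.wth T1) l30654 = true ∧
    allY (E.wth T1) l30655 = true :=
  ⟨by decide +kernel, by decide +kernel, by decide +kernel, by decide +kernel, by decide +kernel, by decide +kernel, by decide +kernel, by decide +kernel⟩

def t30656 : allY (E.wth T1) l30656 = true ∧
    allY (E.wth T1) l30657 = true ∧
    allY (E.wth T1) l30658 = true ∧
    allY (E.wth T1) l30659 = true ∧
    allY (E.wth T1) l30660 = true ∧
    allY (E.wth T1) l30661 = true ∧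
    allY (E.wth T1) l30662 = true ∧
    allY (E.wth T1) l30663 = true :=
  ⟨by decide +kernel, by decide +kernel, by decide +kernel, by decide +kernel, by decide +kernel, by decide +kernel, by decide +kernel, by decide +kernel⟩

def t30664 : allY (E.wth T1) l30664 = true ∧
    allY (E.wth T1) l30665 = true ∧
    allY (E.wth T1) l30666 = true ∧
    allY (E.wth T1) l30667 = true ∧
    allY (E.wth T1) l30668 = true ∧
    allY (E.wth T1) l30669 = true ∧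
    allY (E.wth T1) l30670 = true ∧
    allY (E.wth T1) l30671 = true :=
  ⟨by decide +kernel, by decide +kernel, by decide +kernel, by decide +kernel, by decide +kernel, by decide +kernel, by decide +kernel, by decide +kernel⟩

def t30672 : allY (E.wth T1) l30672 = true ∧
    allY (E.wth T1) l30673 = true ∧
    allY (E.wth T1) l30674 = true ∧
    allY (E.wth T1) l30675 = true ∧
    allY (E.wth T1) l30676 = true ∧
    allY (E.wth T1) l30677 = true ∧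
    allY (E.wth T1) l30678 = true ∧
    allY (E.wth T1) l30679 = true :=
  ⟨by decide +kernel, by decide +kernel, by decide +kernel, by decide +kernel, by decide +kernel, by decide +kernel, by decide +kernel, by decide +kernel⟩

def t30680 : allY (E.wth T1) l30680 = true ∧
    allY (E.wth T1) l30681 = true ∧
    allY (E.wth T1) l30682 = true ∧
    allY (E.wth T1) l30683 = true ∧
    allY (E.wth T1) l30684 = true ∧
    allY (E.wth T1) l30685 = true ∧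
    allY (E.wth T1) l30686 = true ∧
    allY (E.wth T1) l30687 = true :=
  ⟨by decide +kernel, by decide +kernel, by decide +kernel, by decide +kernel, by decide +kernel, by decide +kernel, by decide +kernel, by decide +kernel⟩

def t30688 : allY (E.wth T1) l30688 = true ∧
    allY (E.wth T1) l30689 = true ∧
    allY (E.wth T1) l30690 = true ∧
    allY (E.wth T1) l30691 = true ∧
    allY (E.wth T1) l30692 = true ∧
    allY (E.wth T1) l30693 = true ∧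
    allY (E.wth T1) l30694 = true ∧
    allY (E.wth T1) l30695 = true :=
  ⟨by decide +kernel, by decide +kernel, by decide +kernel, by decide +kernel, by decide +kernel, by decide +kernel, by decide +kernel, by decide +kernel⟩

def t30696 : allY (E.wth T1) l30696 = true ∧
    allY (E.wth T1) l30697 = true ∧
    allY (E.wth T1) l30698 = true ∧
    allY (E.wth T1) l30699 = true ∧
    allY (E.wth T1) l30700 = true ∧
    allY (E.wth T1) l30701 = true ∧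
    allY (E.wth T1) l30702 = true ∧
    allY (E.wth T1) l30703 = true :=
  ⟨by decide +kernel, by decide +kernel, by decide +kernel, by decide +kernel, by decide +kernel, by decide +kernel, by decide +kernel, by decide +kernel⟩

def t30704 : allY (E.wth T1) l30704 = true ∧
    allY (E.wth T1) l30705 = true ∧
    allY (E.wth T1) l30706 = true ∧
    allY (E.wth T1) l30707 = true ∧
    allY (E.wth T1) l30708 = true ∧
    allY (E.wth T1) l30709 = true ∧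
    allY (E.wth T1) l30710 = true ∧
    allY (E.wth T1) l30711 = true :=
  ⟨by decide +kernel, by decide +kernel, by decide +kernel, by decide +kernel, by decide +kernel, by decide +kernel, by decide +kernel, by decide +kernel⟩

def t30712 : allY (E.wth T1) l30712 = true ∧
    allY (E.wth T1) l30713 = true ∧
    allY (E.wth T1) l30714 = true ∧
    allY (E.wth T1) l30715 = true ∧
    allY (E.wth T1) l30716 = true ∧
    allY (E.wth T1) l30717 = true ∧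
    allY (E.wth T1) l30718 = true ∧
    allY (E.wth T1) l30719 = true :=
  ⟨by decide +kernel, by decide +kernel, by decide +kernel, by decide +kernel, by decide +kernel, by decide +kernel, by decide +kernel, by decide +kernel⟩

def t30720 : allY (E.wth T1) l30720 = true ∧
    allY (E.wth T1) l30721 = true ∧
    allY (E.wth T1) l30722 = true ∧
    allY (E.wth T1) l30723 = true ∧
    allY (E.wth T1) l30724 = true ∧
    allY (E.wth T1) l30725 = true ∧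
    allY (E.wth T1) l30726 = true ∧
    allY (E.wth T1) l30727 = true :=
  ⟨by decide +kernel, by decide +kernel, by decide +kernel, by decide +kernel, by decide +kernel, by decide +kernel, by decide +kernel, by decide +kernel⟩

def t30728 : allY (E.wth T1) l30728 = true ∧
    allY (E.wth T1) l30729 = true ∧
    allY (E.wth T1) l30730 = true ∧
    allY (E.wth T1) l30731 = true ∧
    allY (E.wth T1) l30732 = true ∧
    allY (E.wth T1) l30733 = true ∧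
    allY (E.wth T1) l30734 = true ∧
    allY (E.wth T1) l30735 = true :=
  ⟨by decide +kernel, by decide +kernel, by decide +kernel, by decide +kernel, by decide +kernel, by decide +kernel, by decide +kernel, by decide +kernel⟩

def t30736 : allY (E.wth T1) l30736 = true ∧
    allY (E.wth T1) l30737 = true ∧
    allY (E.wth T1) l30738 = true ∧
    allY (E.wth T1) l30739 = true ∧
    allY (E.wth T1) l30740 = true ∧
    allY (E.wth T1) l30741 = true ∧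
    allY (E.wth T1) l30742 = true ∧
    allY (E.wth T1) l30743 = true :=
  ⟨by decide +kernel, by decide +kernel, by decide +kernel, by decide +kernel, by decide +kernel, by decide +kernel, by decide +kernel, by decide +kernel⟩

def t30744 : allY (E.wth T1) l30744 = true ∧
    allY (E.wth T1) l30745 = true ∧
    allY (E.wth T1) l30746 = true ∧
    allY (E.wth T1) l30747 = true ∧
    allY (E.wth T1) l30748 = true ∧
    allY (E.wth T1) l30749 = true ∧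
    allY (E.wth T1) l30750 = true ∧
    allY (E.wth T1) l30751 = true :=
  ⟨by decide +kernel, by decide +kernel, by decide +kernel, by decide +kernel, by decide +kernel, by decide +kernel, by decide +kernel, by decide +kernel⟩

def t30752 : allY (E.wth T1) l30752 = true ∧
    allY (E.wth T1) l30753 = true ∧
    allY (E.wth T1) l30754 = true ∧
    allY (E.wth T1) l30755 = true ∧
    allY (E.wth T1) l30756 = true ∧
    allY (E.wth T1) l30757 = true ∧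
    allY (E.wth T1) l30758 = true ∧
    allY (E.wth T1) l30759 = true :=
  ⟨by decide +kernel, by decide +kernel, by decide +kernel, by decide +kernel, by decide +kernel, by decide +kernel, by decide +kernel, by decide +kernel⟩

def t30760 : allY (E.wth T1) l30760 = true ∧
    allY (E.wth T1) l30761 = true ∧
    allY (E.wth T1) l30762 = true ∧
    allY (E.wth T1) l30763 = true ∧
    allY (E.wth T1) l30764 = true ∧
    allY (E.wth T1) l30765 = true ∧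
    allY (E.wth T1) l30766 = true ∧
    allY (E.wth T1) l30767 = true :=
  ⟨by decide +kernel, by decide +kernel, by decide +kernel, by decide +kernel, by decide +kernel, by decide +kernel, by decide +kernel, by decide +kernel⟩

def t30768 : allY (E.wth T1) l30768 = true ∧
    allY (E.wth T1) l30769 = true ∧
    allY (E.wth T1) l30770 = true ∧
    allY (E.wth T1) l30771 = true ∧
    allY (E.wth T1) l30772 = true ∧
    allY (E.wth T1) l30773 = true ∧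
    allY (E.wth T1) l30774 = true ∧
    allY (E.wth T1) l30775 = true :=
  ⟨by decide +kernel, by decide +kernel, by decide +kernel, by decide +kernel, by decide +kernel, by decide +kernel, by decide +kernel, by decide +kernel⟩

def t30776 : allY (E.wth T1) l30776 = true ∧
    allY (E.wth T1) l30777 = true ∧
    allY (E.wth T1) l30778 = true ∧
    allY (E.wth T1) l30779 = true ∧
    allY (E.wth T1) l30780 = true ∧
    allY (E.wth T1) l30781 = true ∧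
    allY (E.wth T1) l30782 = true ∧
    allY (E.wth T1) l30783 = true :=
  ⟨by decide +kernel, by decide +kernel, by decide +kernel, by decide +kernel, by decide +kernel, by decide +kernel, by decide +kernel, by decide +kernel⟩

def t30784 : allY (E.wth T1) l30784 = true ∧
    allY (E.wth T1) l30785 = true ∧
    allY (E.wth T1) l30786 = true ∧
    allY (E.wth T1) l30787 = true ∧
    allY (E.wth T1) l30788 = true ∧
    allY (E.wth T1) l30789 = true ∧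
    allY (E.wth T1) l30790 = true ∧
    allY (E.wth T1) l30791 = true :=
  ⟨by decide +kernel, by decide +kernel, by decide +kernel, by decide +kernel, by decide +kernel, by decide +kernel, by decide +kernel, by decide +kernel⟩

def t30792 : allY (E.wth T1) l30792 = true ∧
    allY (E.wth T1) l30793 = true ∧
    allY (E.wth T1) l30794 = true ∧
    allY (E.wth T1) l30795 = true ∧
    allY (E.wth T1) l30796 = true ∧
    allY (E.wth T1) l30797 = true ∧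
    allY (E.wth T1) l30798 = true ∧
    allY (E.wth T1) l30799 = true :=
  ⟨by decide +kernel, by decide +kernel, by decide +kernel, by decide +kernel, by decide +kernel, by decide +kernel, by decide +kernel, by decide +kernel⟩

def t30800 : allY (E.wth T1) l30800 = true ∧
    allY (E.wth T1) l30801 = true ∧
    allY (E.wth T1) l30802 = true ∧
    allY (E.wth T1) l30803 = true ∧
    allY (E.wth T1) l30804 = true ∧
    allY (E.wth T1) l30805 = true ∧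
    allY (E.wth T1) l30806 = true ∧
    allY (E.wth T1) l30807 = true :=
  ⟨by decide +kernel, by decide +kernel, by decide +kernel, by decide +kernel, by decide +kernel, by decide +kernel, by decide +kernel, by decide +kernel⟩

def t30808 : allY (E.wth T1) l30808 = true ∧
    allY (E.wth T1) l30809 = true ∧
    allY (E.wth T1) l30810 = true ∧
    allY (E.wth T1) l30811 = true ∧
    allY (E.wth T1) l30812 = true ∧
    allY (E.wth T1) l30813 = true ∧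
    allY (E.wth T1) l30814 = true ∧
    allY (E.wth T1) l30815 = true :=
  ⟨by decide +kernel, by decide +kernel, by decide +kernel, by decide +kernel, by decide +kernel, by decide +kernel, by decide +kernel, by decide +kernel⟩

def t30816 : allY (E.wth T1) l30816 = true ∧
    allY (E.wth T1) l30817 = true ∧
    allY (E.wth T1) l30818 = true ∧
    allY (E.wth T1) l30819 = true ∧
    allY (E.wth T1) l30820 = true ∧
    allY (E.wth T1) l30821 = true ∧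
    allY (E.wth T1) l30822 = true ∧
    allY (E.wth T1) l30823 = true :=
  ⟨by decide +kernel, by decide +kernel, by decide +kernel, by decide +kernel, by decide +kernel, by decide +kernel, by decide +kernel, by decide +kernel⟩

def t30824 : allY (E.wth T1) l30824 = true ∧
    allY (E.wth T1) l30825 = true ∧
    allY (E.wth T1) l30826 = true ∧
    allY (E.wth T1) l30827 = true ∧
    allY (E.wth T1) l30828 = true ∧
    allY (E.wth T1) l30829 = true ∧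
    allY (E.wth T1) l30830 = true ∧
    allY (E.wth T1) l30831 = true :=
  ⟨by decide +kernel, by decide +kernel, by decide +kernel, by decide +kernel, by decide +kernel, by decide +kernel, by decide +kernel, by decide +kernel⟩

def t30832 : allY (E.wth T1) l30832 = true ∧
    allY (E.wth T1) l30833 = true ∧
    allY (E.wth T1) l30834 = true ∧
    allY (E.wth T1) l30835 = true ∧
    allY (E.wth T1) l30836 = true ∧
    allY (E.wth T1) l30837 = true ∧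
    allY (E.wth T1) l30838 = true ∧
    allY (E.wth T1) l30839 = true :=
  ⟨by decide +kernel, by decide +kernel, by decide +kernel, by decide +kernel, by decide +kernel, by decide +kernel, by decide +kernel, by decide +kernel⟩

def t30840 : allY (E.wth T1) l30840 = true ∧
    allY (E.wth T1) l30841 = true ∧
    allY (E.wth T1) l30842 = true ∧
    allY (E.wth T1) l30843 = true ∧
    allY (E.wth T1) l30844 = true ∧
    allY (E.wth T1) l30845 = true ∧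
    allY (E.wth T1) l30846 = true ∧
    allY (E.wth T1) l30847 = true :=
  ⟨by decide +kernel, by decide +kernel, by decide +kernel, by decide +kernel, by decide +kernel, by decide +kernel, by decide +kernel, by decide +kernel⟩

def t30848 : allY (E.wth T1) l30848 = true ∧
    allY (E.wth T1) l30849 = true ∧
    allY (E.wth T1) l30850 = true ∧
    allY (E.wth T1) l30851 = true ∧
    allY (E.wth T1) l30852 = true ∧
    allY (E.wth T1) l30853 = true ∧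
    allY (E.wth T1) l30854 = true ∧
    allY (E.wth T1) l30855 = true :=
  ⟨by decide +kernel, by decide +kernel, by decide +kernel, by decide +kernel, by decide +kernel, by decide +kernel, by decide +kernel, by decide +kernel⟩

def t30856 : allY (E.wth T1) l30856 = true ∧
    allY (E.wth T1) l30857 = true ∧
    allY (E.wth T1) l30858 = true ∧
    allY (E.wth T1) l30859 = true ∧
    allY (E.wth T1) l30860 = true ∧
    allY (E.wth T1) l30861 = true ∧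
    allY (E.wth T1) l30862 = true ∧
    allY (E.wth T1) l30863 = true :=
  ⟨by decide +kernel, by decide +kernel, by decide +kernel, by decide +kernel, by decide +kernel, by decide +kernel, by decide +kernel, by decide +kernel⟩

def t30864 : allY (E.wth T1) l30864 = true ∧
    allY (E.wth T1) l30865 = true ∧
    allY (E.wth T1) l30866 = true ∧
    allY (E.wth T1) l30867 = true ∧
    allY (E.wth T1) l30868 = true ∧
    allY (E.wth T1) l30869 = true ∧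
    allY (E.wth T1) l30870 = true ∧
    allY (E.wth T1) l30871 = true :=
  ⟨by decide +kernel, by decide +kernel, by decide +kernel, by decide +kernel, by decide +kernel, by decide +kernel, by decide +kernel, by decide +kernel⟩

def t30872 : allY (E.wth T1) l30872 = true ∧
    allY (E.wth T1) l30873 = true ∧
    allY (E.wth T1) l30874 = true ∧
    allY (E.wth T1) l30875 = true ∧
    allY (E.wth T1) l30876 = true ∧
    allY (E.wth T1) l30877 = true ∧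
    allY (E.wth T1) l30878 = true ∧
    allY (E.wth T1) l30879 = true :=
  ⟨by decide +kernel, by decide +kernel, by decide +kernel, by decide +kernel, by decide +kernel, by decide +kernel, by decide +kernel, by decide +kernel⟩

def t30880 : allY (E.wth T1) l30880 = true ∧
    allY (E.wth T1) l30881 = true ∧
    allY (E.wth T1) l30882 = true ∧
    allY (E.wth T1) l30883 = true ∧
    allY (E.wth T1) l30884 = true ∧
    allY (E.wth T1) l30885 = true ∧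
    allY (E.wth T1) l30886 = true ∧
    allY (E.wth T1) l30887 = true :=
  ⟨by decide +kernel, by decide +kernel, by decide +kernel, by decide +kernel, by decide +kernel, by decide +kernel, by decide +kernel, by decide +kernel⟩

def t30888 : allY (E.wth T1) l30888 = true ∧
    allY (E.wth T1) l30889 = true ∧
    allY (E.wth T1) l30890 = true ∧
    allY (E.wth T1) l30891 = true ∧
    allY (E.wth T1) l30892 = true ∧
    allY (E.wth T1) l30893 = true ∧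
    allY (E.wth T1) l30894 = true ∧
    allY (E.wth T1) l30895 = true :=
  ⟨by decide +kernel, by decide +kernel, by decide +kernel, by decide +kernel, by decide +kernel, by decide +kernel, by decide +kernel, by decide +kernel⟩

def t30896 : allY (E.wth T1) l30896 = true ∧
    allY (E.wth T1) l30897 = true ∧
    allY (E.wth T1) l30898 = true ∧
    allY (E.wth T1) l30899 = true ∧
    allY (E.wth T1) l30900 = true ∧
    allY (E.wth T1) l30901 = true ∧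
    allY (E.wth T1) l30902 = true ∧
    allY (E.wth T1) l30903 = true :=
  ⟨by decide +kernel, by decide +kernel, by decide +kernel, by decide +kernel, by decide +kernel, by decide +kernel, by decide +kernel, by decide +kernel⟩

def t30904 : allY (E.wth T1) l30904 = true ∧
    allY (E.wth T1) l30905 = true ∧
    allY (E.wth T1) l30906 = true ∧
    allY (E.wth T1) l30907 = true ∧
    allY (E.wth T1) l30908 = true ∧
    allY (E.wth T1) l30909 = true ∧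
    allY (E.wth T1) l30910 = true ∧
    allY (E.wth T1) l30911 = true :=
  ⟨by decide +kernel, by decide +kernel, by decide +kernel, by decide +kernel, by decide +kernel, by decide +kernel, by decide +kernel, by decide +kernel⟩

def t30912 : allY (E.wth T1) l30912 = true ∧
    allY (E.wth T1) l30913 = true ∧
    allY (E.wth T1) l30914 = true ∧
    allY (E.wth T1) l30915 = true ∧
    allY (E.wth T1) l30916 = true ∧
    allY (E.wth T1) l30917 = true ∧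
    allY (E.wth T1) l30918 = true ∧
    allY (E.wth T1) l30919 = true :=
  ⟨by decide +kernel, by decide +kernel, by decide +kernel, by decide +kernel, by decide +kernel, by decide +kernel, by decide +kernel, by decide +kernel⟩

def t30920 : allY (E.wth T1) l30920 = true ∧
    allY (E.wth T1) l30921 = true ∧
    allY (E.wth T1) l30922 = true ∧
    allY (E.wth T1) l30923 = true ∧
    allY (E.wth T1) l30924 = true ∧
    allY (E.wth T1) l30925 = true ∧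
    allY (E.wth T1) l30926 = true ∧
    allY (E.wth T1) l30927 = true :=
  ⟨by decide +kernel, by decide +kernel, by decide +kernel, by decide +kernel, by decide +kernel, by decide +kernel, by decide +kernel, by decide +kernel⟩

def t30928 : allY (E.wth T1) l30928 = true ∧
    allY (E.wth T1) l30929 = true ∧
    allY (E.wth T1) l30930 = true ∧
    allY (E.wth T1) l30931 = true ∧
    allY (E.wth T1) l30932 = true ∧
    allY (E.wth T1) l30933 = true ∧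
    allY (E.wth T1) l30934 = true ∧
    allY (E.wth T1) l30935 = true :=
  ⟨by decide +kernel, by decide +kernel, by decide +kernel, by decide +kernel, by decide +kernel, by decide +kernel, by decide +kernel, by decide +kernel⟩

def t30936 : allY (E.wth T1) l30936 = true ∧
    allY (E.wth T1) l30937 = true ∧
    allY (E.wth T1) l30938 = true ∧
    allY (E.wth T1) l30939 = true ∧
    allY (E.wth T1) l30940 = true ∧
    allY (E.wth T1) l30941 = true ∧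
    allY (E.wth T1) l30942 = true ∧
    allY (E.wth T1) l30943 = true :=
  ⟨by decide +kernel, by decide +kernel, by decide +kernel, by decide +kernel, by decide +kernel, by decide +kernel, by decide +kernel, by decide +kernel⟩

def t30944 : allY (E.wth T1) l30944 = true ∧
    allY (E.wth T1) l30945 = true ∧
    allY (E.wth T1) l30946 = true ∧
    allY (E.wth T1) l30947 = true ∧
    allY (E.wth T1) l30948 = true ∧
    allY (E.wth T1) l30949 = true ∧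
    allY (E.wth T1) l30950 = true ∧
    allY (E.wth T1) l30951 = true :=
  ⟨by decide +kernel, by decide +kernel, by decide +kernel, by decide +kernel, by decide +kernel, by decide +kernel, by decide +kernel, by decide +kernel⟩

def t30952 : allY (E.wth T1) l30952 = true ∧
    allY (E.wth T1) l30953 = true ∧
    allY (E.wth T1) l30954 = true ∧
    allY (E.wth T1) l30955 = true ∧
    allY (E.wth T1) l30956 = true ∧
    allY (E.wth T1) l30957 = true ∧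
    allY (E.wth T1) l30958 = true ∧
    allY (E.wth T1) l30959 = true :=
  ⟨by decide +kernel, by decide +kernel, by decide +kernel, by decide +kernel, by decide +kernel, by decide +kernel, by decide +kernel, by decide +kernel⟩

def t30960 : allY (E.wth T1) l30960 = true ∧
    allY (E.wth T1) l30961 = true ∧
    allY (E.wth T1) l30962 = true ∧
    allY (E.wth T1) l30963 = true ∧
    allY (E.wth T1) l30964 = true ∧
    allY (E.wth T1) l30965 = true ∧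
    allY (E.wth T1) l30966 = true ∧
    allY (E.wth T1) l30967 = true :=
  ⟨by decide +kernel, by decide +kernel, by decide +kernel, by decide +kernel, by decide +kernel, by decide +kernel, by decide +kernel, by decide +kernel⟩

def t30968 : allY (E.wth T1) l30968 = true ∧
    allY (E.wth T1) l30969 = true ∧
    allY (E.wth T1) l30970 = true ∧
    allY (E.wth T1) l30971 = true ∧
    allY (E.wth T1) l30972 = true ∧
    allY (E.wth T1) l30973 = true ∧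
    allY (E.wth T1) l30974 = true ∧
    allY (E.wth T1) l30975 = true :=
  ⟨by decide +kernel, by decide +kernel, by decide +kernel, by decide +kernel, by decide +kernel, by decide +kernel, by decide +kernel, by decide +kernel⟩

def t30976 : allY (E.wth T1) l30976 = true ∧
    allY (E.wth T1) l30977 = true ∧
    allY (E.wth T1) l30978 = true ∧
    allY (E.wth T1) l30979 = true ∧
    allY (E.wth T1) l30980 = true ∧
    allY (E.wth T1) l30981 = true ∧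
    allY (E.wth T1) l30982 = true ∧
    allY (E.wth T1) l30983 = true :=
  ⟨by decide +kernel, by decide +kernel, by decide +kernel, by decide +kernel, by decide +kernel, by decide +kernel, by decide +kernel, by decide +kernel⟩

def t30984 : allY (E.wth T1) l30984 = true ∧
    allY (E.wth T1) l30985 = true ∧
    allY (E.wth T1) l30986 = true ∧
    allY (E.wth T1) l30987 = true ∧
    allY (E.wth T1) l30988 = true ∧
    allY (E.wth T1) l30989 = true ∧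
    allY (E.wth T1) l30990 = true ∧
    allY (E.wth T1) l30991 = true :=
  ⟨by decide +kernel, by decide +kernel, by decide +kernel, by decide +kernel, by decide +kernel, by decide +kernel, by decide +kernel, by decide +kernel⟩

def t30992 : allY (E.wth T1) l30992 = true ∧
    allY (E.wth T1) l30993 = true ∧
    allY (E.wth T1) l30994 = true ∧
    allY (E.wth T1) l30995 = true ∧
    allY (E.wth T1) l30996 = true ∧
    allY (E.wth T1) l30997 = true ∧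
    allY (E.wth T1) l30998 = true ∧
    allY (E.wth T1) l30999 = true :=
  ⟨by decide +kernel, by decide +kernel, by decide +kernel, by decide +kernel, by decide +kernel, by decide +kernel, by decide +kernel, by decide +kernel⟩

def t31000 : allY (E.wth T1) l31000 = true ∧
    allY (E.wth T1) l31001 = true ∧
    allY (E.wth T1) l31002 = true ∧
    allY (E.wth T1) l31003 = true ∧
    allY (E.wth T1) l31004 = true ∧
    allY (E.wth T1) l31005 = true ∧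
    allY (E.wth T1) l31006 = true ∧
    allY (E.wth T1) l31007 = true :=
  ⟨by decide +kernel, by decide +kernel, by decide +kernel, by decide +kernel, by decide +kernel, by decide +kernel, by decide +kernel, by decide +kernel⟩

def t31008 : allY (E.wth T1) l31008 = true ∧
    allY (E.wth T1) l31009 = true ∧
    allY (E.wth T1) l31010 = true ∧
    allY (E.wth T1) l31011 = true ∧
    allY (E.wth T1) l31012 = true ∧
    allY (E.wth T1) l31013 = true ∧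
    allY (E.wth T1) l31014 = true ∧
    allY (E.wth T1) l31015 = true :=
  ⟨by decide +kernel, by decide +kernel, by decide +kernel, by decide +kernel, by decide +kernel, by decide +kernel, by decide +kernel, by decide +kernel⟩

def t31016 : allY (E.wth T1) l31016 = true ∧
    allY (E.wth T1) l31017 = true ∧
    allY (E.wth T1) l31018 = true ∧
    allY (E.wth T1) l31019 = true :=
  ⟨by decide +kernel, by decide +kernel, by decide +kernel, by decide +kernel⟩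

theorem a55 {p : Rf → Prop} (H : ∀ l, allY (E.wth T1) l = true → (lkp l).All p) :
    b55.All p := ⟨⟨⟨⟨⟨⟨⟨⟨⟨H _ t30480.1, H _ t30480.2.1⟩, ⟨H _ t30480.2.2.1, H _ t30480.2.2.2.1⟩⟩, ⟨⟨H _ t30480.2.2.2.2.1, H _ t30480.2.2.2.2.2.1⟩, ⟨H _ t30480.2.2.2.2.2.2.1, H _ t30480.2.2.2.2.2.2.2⟩⟩⟩, ⟨⟨⟨H _ t30488.1, H _ t30488.2.1⟩, ⟨H _ t30488.2.2.1, H _ t30488.2.2.2.1⟩⟩, ⟨⟨H _ t30488.2.2.2.2.1, H _ t30488.2.2.2.2.2.1⟩, ⟨H _ t30488.2.2.2.2.2.2.1, H _ t30488.2.2.2.2.2.2.2⟩⟩⟩⟩, ⟨⟨⟨⟨H _ t30496.1, H _ t30496.2.1⟩, ⟨H _ t30496.2.2.1, H _ t30496.2.2.2.1⟩⟩, ⟨⟨H _ t30496.2.2.2.2.1, H _ t30496.2.2.2.2.2.1⟩, ⟨H _ t30496.2.2.2.2.2.2.1, H _ t30496.2.2.2.2.2.2.2⟩⟩⟩, ⟨⟨⟨H _ t30504.1, H _ t30504.2.1⟩, ⟨H _ t30504.2.2.1, H _ t30504.2.2.2.1⟩⟩, ⟨⟨H _ t30504.2.2.2.2.1, H _ t30504.2.2.2.2.2.1⟩, ⟨H _ t30504.2.2.2.2.2.2.1, ⟨H _ t30504.2.2.2.2.2.2.2, H _ t30512.1⟩⟩⟩⟩⟩⟩, ⟨⟨⟨⟨⟨H _ t30512.2.1, H _ t30512.2.2.1⟩, ⟨H _ t30512.2.2.2.1,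 H _ t30512.2.2.2.2.1⟩⟩, ⟨⟨H _ t30512.2.2.2.2.2.1, H _ t30512.2.2.2.2.2.2.1⟩, ⟨H _ t30512.2.2.2.2.2.2.2, H _ t30520.1⟩⟩⟩, ⟨⟨⟨H _ t30520.2.1, H _ t30520.2.2.1⟩, ⟨H _ t30520.2.2.2.1, H _ t30520.2.2.2.2.1⟩⟩, ⟨⟨H _ t30520.2.2.2.2.2.1, H _ t30520.2.2.2.2.2.2.1⟩, ⟨H _ t30520.2.2.2.2.2.2.2, ⟨H _ t30528.1, H _ t30528.2.1⟩⟩⟩⟩⟩, ⟨⟨⟨⟨H _ t30528.2.2.1, H _ t30528.2.2.2.1⟩, ⟨H _ t30528.2.2.2.2.1, H _ t30528.2.2.2.2.2.1⟩⟩, ⟨⟨H _ t30528.2.2.2.2.2.2.1, H _ t30528.2.2.2.2.2.2.2⟩, ⟨H _ t30536.1, H _ t30536.2.1⟩⟩⟩, ⟨⟨⟨H _ t30536.2.2.1, H _ t30536.2.2.2.1⟩, ⟨H _ t30536.2.2.2.2.1, H _ t30536.2.2.2.2.2.1⟩⟩, ⟨⟨H _ t30536.2.2.2.2.2.2.1, H _ t30536.2.2.2.2.2.2.2⟩, ⟨H _ t30544.1, ⟨H _ t30544.2.1, H _ t30544.2.2.1⟩⟩⟩⟩⟩⟩⟩, ⟨⟨⟨⟨⟨⟨H _ t30544.2.2.2.1, H _ t30544.2.2.2.2.1⟩, ⟨H _ t30544.2.2.2.2.2.1, H _ t30544.2.2.2.2.2.2.1⟩⟩, ⟨⟨H _ t30544.2.2.2.2.2.2.2, H _ t30552.1⟩, ⟨H _ t30552.2.1, H _ t30552.2.2.1⟩⟩⟩, ⟨⟨⟨H _ t30552.2.2.2.1,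 H _ t30552.2.2.2.2.1⟩, ⟨H _ t30552.2.2.2.2.2.1, H _ t30552.2.2.2.2.2.2.1⟩⟩, ⟨⟨H _ t30552.2.2.2.2.2.2.2, H _ t30560.1⟩, ⟨H _ t30560.2.1, ⟨H _ t30560.2.2.1, H _ t30560.2.2.2.1⟩⟩⟩⟩⟩, ⟨⟨⟨⟨H _ t30560.2.2.2.2.1, H _ t30560.2.2.2.2.2.1⟩, ⟨H _ t30560.2.2.2.2.2.2.1, H _ t30560.2.2.2.2.2.2.2⟩⟩, ⟨⟨H _ t30568.1, H _ t30568.2.1⟩, ⟨H _ t30568.2.2.1, H _ t30568.2.2.2.1⟩⟩⟩, ⟨⟨⟨H _ t30568.2.2.2.2.1, H _ t30568.2.2.2.2.2.1⟩, ⟨H _ t30568.2.2.2.2.2.2.1, H _ t30568.2.2.2.2.2.2.2⟩⟩, ⟨⟨H _ t30576.1, H _ t30576.2.1⟩, ⟨H _ t30576.2.2.1, ⟨H _ t30576.2.2.2.1, H _ t30576.2.2.2.2.1⟩⟩⟩⟩⟩⟩, ⟨⟨⟨⟨⟨H _ t30576.2.2.2.2.2.1, H _ t30576.2.2.2.2.2.2.1⟩, ⟨H _ t30576.2.2.2.2.2.2.2, H _ t30584.1⟩⟩, ⟨⟨H _ t30584.2.1, H _ t30584.2.2.1⟩, ⟨H _ t30584.2.2.2.1, H _ t30584.2.2.2.2.1⟩⟩⟩, ⟨⟨⟨H _ t30584.2.2.2.2.2.1, H _ t30584.2.2.2.2.2.2.1⟩, ⟨H _ t30584.2.2.2.2.2.2.2, H _ t30592.1⟩⟩, ⟨⟨H _ t30592.2.1, H _ t30592.2.2.1⟩, ⟨H _ t30592.2.2.2.1, ⟨H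 _ t30592.2.2.2.2.1, H _ t30592.2.2.2.2.2.1⟩⟩⟩⟩⟩, ⟨⟨⟨⟨H _ t30592.2.2.2.2.2.2.1, H _ t30592.2.2.2.2.2.2.2⟩, ⟨H _ t30600.1, H _ t30600.2.1⟩⟩, ⟨⟨H _ t30600.2.2.1, H _ t30600.2.2.2.1⟩, ⟨H _ t30600.2.2.2.2.1, H _ t30600.2.2.2.2.2.1⟩⟩⟩, ⟨⟨⟨H _ t30600.2.2.2.2.2.2.1, H _ t30600.2.2.2.2.2.2.2⟩, ⟨H _ t30608.1, H _ t30608.2.1⟩⟩, ⟨⟨H _ t30608.2.2.1, H _ t30608.2.2.2.1⟩, ⟨H _ t30608.2.2.2.2.1, ⟨H _ t30608.2.2.2.2.2.1, H _ t30608.2.2.2.2.2.2.1⟩⟩⟩⟩⟩⟩⟩⟩, ⟨⟨⟨⟨⟨⟨⟨H _ t30608.2.2.2.2.2.2.2, H _ t30616.1⟩, ⟨H _ t30616.2.1, H _ t30616.2.2.1⟩⟩, ⟨⟨H _ t30616.2.2.2.1, H _ t30616.2.2.2.2.1⟩, ⟨H _ t30616.2.2.2.2.2.1, H _ t30616.2.2.2.2.2.2.1⟩⟩⟩, ⟨⟨⟨H _ t30616.2.2.2.2.2.2.2, H _ t30624.1⟩, ⟨H _ t30624.2.1, H _ t30624.2.2.1⟩⟩, ⟨⟨H _ t30624.2.2.2.1, H _ t30624.2.2.2.2.1⟩, ⟨H _ t30624.2.2.2.2.2.1, H _ t30624.2.2.2.2.2.2.1⟩⟩⟩⟩, ⟨⟨⟨⟨H _ t30624.2.2.2.2.2.2.2, H _ t30632.1⟩, ⟨H _ t30632.2.1, H _ t30632.2.2.1⟩⟩, ⟨⟨H _ t30632.2.2.2.1,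 H _ t30632.2.2.2.2.1⟩, ⟨H _ t30632.2.2.2.2.2.1, H _ t30632.2.2.2.2.2.2.1⟩⟩⟩, ⟨⟨⟨H _ t30632.2.2.2.2.2.2.2, H _ t30640.1⟩, ⟨H _ t30640.2.1, H _ t30640.2.2.1⟩⟩, ⟨⟨H _ t30640.2.2.2.1, H _ t30640.2.2.2.2.1⟩, ⟨H _ t30640.2.2.2.2.2.1, ⟨H _ t30640.2.2.2.2.2.2.1, H _ t30640.2.2.2.2.2.2.2⟩⟩⟩⟩⟩⟩, ⟨⟨⟨⟨⟨H _ t30648.1, H _ t30648.2.1⟩, ⟨H _ t30648.2.2.1, H _ t30648.2.2.2.1⟩⟩, ⟨⟨H _ t30648.2.2.2.2.1, H _ t30648.2.2.2.2.2.1⟩, ⟨H _ t30648.2.2.2.2.2.2.1, H _ t30648.2.2.2.2.2.2.2⟩⟩⟩, ⟨⟨⟨H _ t30656.1, H _ t30656.2.1⟩, ⟨H _ t30656.2.2.1, H _ t30656.2.2.2.1⟩⟩, ⟨⟨H _ t30656.2.2.2.2.1, H _ t30656.2.2.2.2.2.1⟩, ⟨H _ t30656.2.2.2.2.2.2.1, ⟨H _ t30656.2.2.2.2.2.2.2, H _ t30664.1⟩⟩⟩⟩⟩, ⟨⟨⟨⟨H _ t30664.2.1, H _ t30664.2.2.1⟩, ⟨H _ t30664.2.2.2.1, H _ t30664.2.2.2.2.1⟩⟩, ⟨⟨H _ t30664.2.2.2.2.2.1, H _ t30664.2.2.2.2.2.2.1⟩, ⟨H _ t30664.2.2.2.2.2.2.2, H _ t30672.1⟩⟩⟩, ⟨⟨⟨H _ t30672.2.1, H _ t30672.2.2.1⟩, ⟨H _ t30672.2.2.2.1,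 H _ t30672.2.2.2.2.1⟩⟩, ⟨⟨H _ t30672.2.2.2.2.2.1, H _ t30672.2.2.2.2.2.2.1⟩, ⟨H _ t30672.2.2.2.2.2.2.2, ⟨H _ t30680.1, H _ t30680.2.1⟩⟩⟩⟩⟩⟩⟩, ⟨⟨⟨⟨⟨⟨H _ t30680.2.2.1, H _ t30680.2.2.2.1⟩, ⟨H _ t30680.2.2.2.2.1, H _ t30680.2.2.2.2.2.1⟩⟩, ⟨⟨H _ t30680.2.2.2.2.2.2.1, H _ t30680.2.2.2.2.2.2.2⟩, ⟨H _ t30688.1, H _ t30688.2.1⟩⟩⟩, ⟨⟨⟨H _ t30688.2.2.1, H _ t30688.2.2.2.1⟩, ⟨H _ t30688.2.2.2.2.1, H _ t30688.2.2.2.2.2.1⟩⟩, ⟨⟨H _ t30688.2.2.2.2.2.2.1, H _ t30688.2.2.2.2.2.2.2⟩, ⟨H _ t30696.1, ⟨H _ t30696.2.1, H _ t30696.2.2.1⟩⟩⟩⟩⟩, ⟨⟨⟨⟨H _ t30696.2.2.2.1, H _ t30696.2.2.2.2.1⟩, ⟨H _ t30696.2.2.2.2.2.1, H _ t30696.2.2.2.2.2.2.1⟩⟩, ⟨⟨H _ t30696.2.2.2.2.2.2.2, H _ t30704.1⟩, ⟨H _ t30704.2.1, H _ t30704.2.2.1⟩⟩⟩, ⟨⟨⟨H _ t30704.2.2.2.1, H _ t30704.2.2.2.2.1⟩, ⟨H _ t30704.2.2.2.2.2.1, H _ t30704.2.2.2.2.2.2.1⟩⟩, ⟨⟨H _ t30704.2.2.2.2.2.2.2, H _ t30712.1⟩, ⟨H _ t30712.2.1, ⟨H _ t30712.2.2.1, H _ t30712.2.2.2.1⟩⟩⟩⟩⟩⟩,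 ⟨⟨⟨⟨⟨H _ t30712.2.2.2.2.1, H _ t30712.2.2.2.2.2.1⟩, ⟨H _ t30712.2.2.2.2.2.2.1, H _ t30712.2.2.2.2.2.2.2⟩⟩, ⟨⟨H _ t30720.1, H _ t30720.2.1⟩, ⟨H _ t30720.2.2.1, H _ t30720.2.2.2.1⟩⟩⟩, ⟨⟨⟨H _ t30720.2.2.2.2.1, H _ t30720.2.2.2.2.2.1⟩, ⟨H _ t30720.2.2.2.2.2.2.1, H _ t30720.2.2.2.2.2.2.2⟩⟩, ⟨⟨H _ t30728.1, H _ t30728.2.1⟩, ⟨H _ t30728.2.2.1, ⟨H _ t30728.2.2.2.1, H _ t30728.2.2.2.2.1⟩⟩⟩⟩⟩, ⟨⟨⟨⟨H _ t30728.2.2.2.2.2.1, H _ t30728.2.2.2.2.2.2.1⟩, ⟨H _ t30728.2.2.2.2.2.2.2, H _ t30736.1⟩⟩, ⟨⟨H _ t30736.2.1, H _ t30736.2.2.1⟩, ⟨H _ t30736.2.2.2.1, H _ t30736.2.2.2.2.1⟩⟩⟩, ⟨⟨⟨H _ t30736.2.2.2.2.2.1, H _ t30736.2.2.2.2.2.2.1⟩, ⟨H _ t30736.2.2.2.2.2.2.2, H _ t30744.1⟩⟩, ⟨⟨H _ t30744.2.1, H _ t30744.2.2.1⟩, ⟨H _ t30744.2.2.2.1, ⟨H _ t30744.2.2.2.2.1, H _ t30744.2.2.2.2.2.1⟩⟩⟩⟩⟩⟩⟩⟩⟩, ⟨⟨⟨⟨⟨⟨⟨⟨H _ t30744.2.2.2.2.2.2.1, H _ t30744.2.2.2.2.2.2.2⟩, ⟨H _ t30752.1, H _ t30752.2.1⟩⟩, ⟨⟨H _ t30752.2.2.1, H _ t30752.2.2.2.1⟩,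 ⟨H _ t30752.2.2.2.2.1, H _ t30752.2.2.2.2.2.1⟩⟩⟩, ⟨⟨⟨H _ t30752.2.2.2.2.2.2.1, H _ t30752.2.2.2.2.2.2.2⟩, ⟨H _ t30760.1, H _ t30760.2.1⟩⟩, ⟨⟨H _ t30760.2.2.1, H _ t30760.2.2.2.1⟩, ⟨H _ t30760.2.2.2.2.1, H _ t30760.2.2.2.2.2.1⟩⟩⟩⟩, ⟨⟨⟨⟨H _ t30760.2.2.2.2.2.2.1, H _ t30760.2.2.2.2.2.2.2⟩, ⟨H _ t30768.1, H _ t30768.2.1⟩⟩, ⟨⟨H _ t30768.2.2.1, H _ t30768.2.2.2.1⟩, ⟨H _ t30768.2.2.2.2.1, H _ t30768.2.2.2.2.2.1⟩⟩⟩, ⟨⟨⟨H _ t30768.2.2.2.2.2.2.1, H _ t30768.2.2.2.2.2.2.2⟩, ⟨H _ t30776.1, H _ t30776.2.1⟩⟩, ⟨⟨H _ t30776.2.2.1, H _ t30776.2.2.2.1⟩, ⟨H _ t30776.2.2.2.2.1, ⟨H _ t30776.2.2.2.2.2.1, H _ t30776.2.2.2.2.2.2.1⟩⟩⟩⟩⟩⟩, ⟨⟨⟨⟨⟨H _ t30776.2.2.2.2.2.2.2, H _ t30784.1⟩, ⟨H _ t30784.2.1, H _ t30784.2.2.1⟩⟩, ⟨⟨H _ t30784.2.2.2.1, H _ t30784.2.2.2.2.1⟩, ⟨H _ t30784.2.2.2.2.2.1, H _ t30784.2.2.2.2.2.2.1⟩⟩⟩, ⟨⟨⟨H _ t30784.2.2.2.2.2.2.2, H _ t30792.1⟩, ⟨H _ t30792.2.1, H _ t30792.2.2.1⟩⟩, ⟨⟨H _ t30792.2.2.2.1,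 H _ t30792.2.2.2.2.1⟩, ⟨H _ t30792.2.2.2.2.2.1, ⟨H _ t30792.2.2.2.2.2.2.1, H _ t30792.2.2.2.2.2.2.2⟩⟩⟩⟩⟩, ⟨⟨⟨⟨H _ t30800.1, H _ t30800.2.1⟩, ⟨H _ t30800.2.2.1, H _ t30800.2.2.2.1⟩⟩, ⟨⟨H _ t30800.2.2.2.2.1, H _ t30800.2.2.2.2.2.1⟩, ⟨H _ t30800.2.2.2.2.2.2.1, H _ t30800.2.2.2.2.2.2.2⟩⟩⟩, ⟨⟨⟨H _ t30808.1, H _ t30808.2.1⟩, ⟨H _ t30808.2.2.1, H _ t30808.2.2.2.1⟩⟩, ⟨⟨H _ t30808.2.2.2.2.1, H _ t30808.2.2.2.2.2.1⟩, ⟨H _ t30808.2.2.2.2.2.2.1, ⟨H _ t30808.2.2.2.2.2.2.2, H _ t30816.1⟩⟩⟩⟩⟩⟩⟩, ⟨⟨⟨⟨⟨⟨H _ t30816.2.1, H _ t30816.2.2.1⟩, ⟨H _ t30816.2.2.2.1, H _ t30816.2.2.2.2.1⟩⟩, ⟨⟨H _ t30816.2.2.2.2.2.1, H _ t30816.2.2.2.2.2.2.1⟩, ⟨H _ t30816.2.2.2.2.2.2.2, H _ t30824.1⟩⟩⟩, ⟨⟨⟨H _ t30824.2.1, H _ t30824.2.2.1⟩, ⟨H _ t30824.2.2.2.1, H _ t30824.2.2.2.2.1⟩⟩, ⟨⟨H _ t30824.2.2.2.2.2.1, H _ t30824.2.2.2.2.2.2.1⟩, ⟨H _ t30824.2.2.2.2.2.2.2, ⟨H _ t30832.1, H _ t30832.2.1⟩⟩⟩⟩⟩, ⟨⟨⟨⟨H _ t30832.2.2.1, H _ t30832.2.2.2.1⟩,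 ⟨H _ t30832.2.2.2.2.1, H _ t30832.2.2.2.2.2.1⟩⟩, ⟨⟨H _ t30832.2.2.2.2.2.2.1, H _ t30832.2.2.2.2.2.2.2⟩, ⟨H _ t30840.1, H _ t30840.2.1⟩⟩⟩, ⟨⟨⟨H _ t30840.2.2.1, H _ t30840.2.2.2.1⟩, ⟨H _ t30840.2.2.2.2.1, H _ t30840.2.2.2.2.2.1⟩⟩, ⟨⟨H _ t30840.2.2.2.2.2.2.1, H _ t30840.2.2.2.2.2.2.2⟩, ⟨H _ t30848.1, ⟨H _ t30848.2.1, H _ t30848.2.2.1⟩⟩⟩⟩⟩⟩, ⟨⟨⟨⟨⟨H _ t30848.2.2.2.1, H _ t30848.2.2.2.2.1⟩, ⟨H _ t30848.2.2.2.2.2.1, H _ t30848.2.2.2.2.2.2.1⟩⟩, ⟨⟨H _ t30848.2.2.2.2.2.2.2, H _ t30856.1⟩, ⟨H _ t30856.2.1, H _ t30856.2.2.1⟩⟩⟩, ⟨⟨⟨H _ t30856.2.2.2.1, H _ t30856.2.2.2.2.1⟩, ⟨H _ t30856.2.2.2.2.2.1, H _ t30856.2.2.2.2.2.2.1⟩⟩, ⟨⟨H _ t30856.2.2.2.2.2.2.2, H _ t30864.1⟩, ⟨H _ t30864.2.1, ⟨H _ t30864.2.2.1, H _ t30864.2.2.2.1⟩⟩⟩⟩⟩, ⟨⟨⟨⟨H _ t30864.2.2.2.2.1, H _ t30864.2.2.2.2.2.1⟩, ⟨H _ t30864.2.2.2.2.2.2.1, H _ t30864.2.2.2.2.2.2.2⟩⟩, ⟨⟨H _ t30872.1, H _ t30872.2.1⟩, ⟨H _ t30872.2.2.1, H _ t30872.2.2.2.1⟩⟩⟩,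 ⟨⟨⟨H _ t30872.2.2.2.2.1, H _ t30872.2.2.2.2.2.1⟩, ⟨H _ t30872.2.2.2.2.2.2.1, H _ t30872.2.2.2.2.2.2.2⟩⟩, ⟨⟨H _ t30880.1, H _ t30880.2.1⟩, ⟨H _ t30880.2.2.1, ⟨H _ t30880.2.2.2.1, H _ t30880.2.2.2.2.1⟩⟩⟩⟩⟩⟩⟩⟩, ⟨⟨⟨⟨⟨⟨⟨H _ t30880.2.2.2.2.2.1, H _ t30880.2.2.2.2.2.2.1⟩, ⟨H _ t30880.2.2.2.2.2.2.2, H _ t30888.1⟩⟩, ⟨⟨H _ t30888.2.1, H _ t30888.2.2.1⟩, ⟨H _ t30888.2.2.2.1, H _ t30888.2.2.2.2.1⟩⟩⟩, ⟨⟨⟨H _ t30888.2.2.2.2.2.1, H _ t30888.2.2.2.2.2.2.1⟩, ⟨H _ t30888.2.2.2.2.2.2.2, H _ t30896.1⟩⟩, ⟨⟨H _ t30896.2.1, H _ t30896.2.2.1⟩, ⟨H _ t30896.2.2.2.1, H _ t30896.2.2.2.2.1⟩⟩⟩⟩, ⟨⟨⟨⟨H _ t30896.2.2.2.2.2.1, H _ t30896.2.2.2.2.2.2.1⟩, ⟨H _ t30896.2.2.2.2.2.2.2, H _ t30904.1⟩⟩, ⟨⟨H _ t30904.2.1, H _ t30904.2.2.1⟩, ⟨H _ t30904.2.2.2.1, H _ t30904.2.2.2.2.1⟩⟩⟩, ⟨⟨⟨H _ t30904.2.2.2.2.2.1, H _ t30904.2.2.2.2.2.2.1⟩, ⟨H _ t30904.2.2.2.2.2.2.2, H _ t30912.1⟩⟩, ⟨⟨H _ t30912.2.1, H _ t30912.2.2.1⟩, ⟨H _ t30912.2.2.2.1,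 ⟨H _ t30912.2.2.2.2.1, H _ t30912.2.2.2.2.2.1⟩⟩⟩⟩⟩⟩, ⟨⟨⟨⟨⟨H _ t30912.2.2.2.2.2.2.1, H _ t30912.2.2.2.2.2.2.2⟩, ⟨H _ t30920.1, H _ t30920.2.1⟩⟩, ⟨⟨H _ t30920.2.2.1, H _ t30920.2.2.2.1⟩, ⟨H _ t30920.2.2.2.2.1, H _ t30920.2.2.2.2.2.1⟩⟩⟩, ⟨⟨⟨H _ t30920.2.2.2.2.2.2.1, H _ t30920.2.2.2.2.2.2.2⟩, ⟨H _ t30928.1, H _ t30928.2.1⟩⟩, ⟨⟨H _ t30928.2.2.1, H _ t30928.2.2.2.1⟩, ⟨H _ t30928.2.2.2.2.1, ⟨H _ t30928.2.2.2.2.2.1, H _ t30928.2.2.2.2.2.2.1⟩⟩⟩⟩⟩, ⟨⟨⟨⟨H _ t30928.2.2.2.2.2.2.2, H _ t30936.1⟩, ⟨H _ t30936.2.1, H _ t30936.2.2.1⟩⟩, ⟨⟨H _ t30936.2.2.2.1, H _ t30936.2.2.2.2.1⟩, ⟨H _ t30936.2.2.2.2.2.1, H _ t30936.2.2.2.2.2.2.1⟩⟩⟩, ⟨⟨⟨H _ t30936.2.2.2.2.2.2.2, H _ t30944.1⟩, ⟨H _ t30944.2.1, H _ t30944.2.2.1⟩⟩, ⟨⟨H _ t30944.2.2.2.1, H _ t30944.2.2.2.2.1⟩, ⟨H _ t30944.2.2.2.2.2.1, ⟨H _ t30944.2.2.2.2.2.2.1, H _ t30944.2.2.2.2.2.2.2⟩⟩⟩⟩⟩⟩⟩, ⟨⟨⟨⟨⟨⟨H _ t30952.1, H _ t30952.2.1⟩, ⟨H _ t30952.2.2.1, H _ t30952.2.2.2.1⟩⟩,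 ⟨⟨H _ t30952.2.2.2.2.1, H _ t30952.2.2.2.2.2.1⟩, ⟨H _ t30952.2.2.2.2.2.2.1, H _ t30952.2.2.2.2.2.2.2⟩⟩⟩, ⟨⟨⟨H _ t30960.1, H _ t30960.2.1⟩, ⟨H _ t30960.2.2.1, H _ t30960.2.2.2.1⟩⟩, ⟨⟨H _ t30960.2.2.2.2.1, H _ t30960.2.2.2.2.2.1⟩, ⟨H _ t30960.2.2.2.2.2.2.1, ⟨H _ t30960.2.2.2.2.2.2.2, H _ t30968.1⟩⟩⟩⟩⟩, ⟨⟨⟨⟨H _ t30968.2.1, H _ t30968.2.2.1⟩, ⟨H _ t30968.2.2.2.1, H _ t30968.2.2.2.2.1⟩⟩, ⟨⟨H _ t30968.2.2.2.2.2.1, H _ t30968.2.2.2.2.2.2.1⟩, ⟨H _ t30968.2.2.2.2.2.2.2, H _ t30976.1⟩⟩⟩, ⟨⟨⟨H _ t30976.2.1, H _ t30976.2.2.1⟩, ⟨H _ t30976.2.2.2.1, H _ t30976.2.2.2.2.1⟩⟩, ⟨⟨H _ t30976.2.2.2.2.2.1, H _ t30976.2.2.2.2.2.2.1⟩, ⟨H _ t30976.2.2.2.2.2.2.2, ⟨H _ t30984.1, H _ t30984.2.1⟩⟩⟩⟩⟩⟩, ⟨⟨⟨⟨⟨H _ t30984.2.2.1, H _ t30984.2.2.2.1⟩, ⟨H _ t30984.2.2.2.2.1, H _ t30984.2.2.2.2.2.1⟩⟩, ⟨⟨H _ t30984.2.2.2.2.2.2.1, H _ t30984.2.2.2.2.2.2.2⟩, ⟨H _ t30992.1, H _ t30992.2.1⟩⟩⟩, ⟨⟨⟨H _ t30992.2.2.1, H _ t30992.2.2.2.1⟩,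 ⟨H _ t30992.2.2.2.2.1, H _ t30992.2.2.2.2.2.1⟩⟩, ⟨⟨H _ t30992.2.2.2.2.2.2.1, H _ t30992.2.2.2.2.2.2.2⟩, ⟨H _ t31000.1, ⟨H _ t31000.2.1, H _ t31000.2.2.1⟩⟩⟩⟩⟩, ⟨⟨⟨⟨H _ t31000.2.2.2.1, H _ t31000.2.2.2.2.1⟩, ⟨H _ t31000.2.2.2.2.2.1, H _ t31000.2.2.2.2.2.2.1⟩⟩, ⟨⟨H _ t31000.2.2.2.2.2.2.2, H _ t31008.1⟩, ⟨H _ t31008.2.1, H _ t31008.2.2.1⟩⟩⟩, ⟨⟨⟨H _ t31008.2.2.2.1, H _ t31008.2.2.2.2.1⟩, ⟨H _ t31008.2.2.2.2.2.1, H _ t31008.2.2.2.2.2.2.1⟩⟩, ⟨⟨H _ t31008.2.2.2.2.2.2.2, H _ t31016.1⟩, ⟨H _ t31016.2.1, ⟨H _ t31016.2.2.1, H _ t31016.2.2.2⟩⟩⟩⟩⟩⟩⟩⟩⟩⟩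

end Pool.Agent.MP_c853c5_nt.X.C4950
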