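import Pool.Agent.MP_c853c5_nt.X.C4950.Env
import Pool.Agent.MP_c853c5_nt.X.C4950.Tab

set_option autoImplicit false
set_option maxRecDepth 8192
set_option linter.all false

namespace Pool.Agent.MP_c853c5_nt.X.C4950

open Pool.Agent.MP_c853c5_nt.X

def t31020 : allY (E.wth T1) l31020 = true ∧
    allY (E.wth T1) l31021 = true ∧
    allY (E.wth T1) l31022 = true ∧
    allY (E.wth T1) l31023 = true ∧
    allY (E.wth T1) l31024 = true ∧
    allY (E.wth T1) l31025 = true ∧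
    allY (E.wth T1) l31026 = true ∧
    allY (E.wth T1) l31027 = true :=
  ⟨by decide +kernel, by decide +kernel, by decide +kernel, by decide +kernel, by decide +kernel, by decide +kernel, by decide +kernel, by decide +kernel⟩

def t31028 : allY (E.wth T1) l31028 = true ∧
    allY (E.wth T1) l31029 = true ∧
    allY (E.wth T1) l31030 = true ∧
    allY (E.wth T1) l31031 = true ∧
    allY (E.wth T1) l31032 = true ∧
    allY (E.wth T1) l31033 = true ∧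
    allY (E.wth T1) l31034 = true ∧
    allY (E.wth T1) l31035 = true :=
  ⟨by decide +kernel, by decide +kernel, by decide +kernel, by decide +kernel, by decide +kernel, by decide +kernel, by decide +kernel, by decide +kernel⟩

def t31036 : allY (E.wth T1) l31036 = true ∧
    allY (E.wth T1) l31037 = true ∧
    allY (E.wth T1) l31038 = true ∧
    allY (E.wth T1) l31039 = true ∧
    allY (E.wth T1) l31040 = true ∧
    allY (E.wth T1) l31041 = true ∧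
    allY (E.wth T1) l31042 = true ∧
    allY (E.wth T1) l31043 = true :=
  ⟨by decide +kernel, by decide +kernel, by decide +kernel, by decide +kernel, by decide +kernel, by decide +kernel, by decide +kernel, by decide +kernel⟩

def t31044 : allY (E.wth T1) l31044 = true ∧
    allY (E.wth T1) l31045 = true ∧
    allY (E.wth T1) l31046 = true ∧
    allY (E.wth T1) l31047 = true ∧
    allY (E.wth T1) l31048 = true ∧
    allY (E.wth T1) l31049 = true ∧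
    allY (E.wth T1) l31050 = true ∧
    allY (E.wth T1) l31051 = true :=
  ⟨by decide +kernel, by decide +kernel, by decide +kernel, by decide +kernel, by decide +kernel, by decide +kernel, by decide +kernel, by decide +kernel⟩

def t31052 : allY (E.wth T1) l31052 = true ∧
    allY (E.wth T1) l31053 = true ∧
    allY (E.wth T1) l31054 = true ∧
    allY (E.wth T1) l31055 = true ∧
    allY (E.wth T1) l31056 = true ∧
    allY (E.wth T1) l31057 = true ∧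
    allY (E.wth T1) l31058 = true ∧
    allY (E.wth T1) l31059 = true :=
  ⟨by decide +kernel, by decide +kernel, by decide +kernel, by decide +kernel, by decide +kernel, by decide +kernel, by decide +kernel, by decide +kernel⟩

def t31060 : allY (E.wth T1) l31060 = true ∧
    allY (E.wth T1) l31061 = true ∧
    allY (E.wth T1) l31062 = true ∧
    allY (E.wth T1) l31063 = true ∧
    allY (E.wth T1) l31064 = true ∧
    allY (E.wth T1) l31065 = true ∧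
    allY (E.wth T1) l31066 = true ∧
    allY (E.wth T1) l31067 = true :=
  ⟨by decide +kernel, by decide +kernel, by decide +kernel, by decide +kernel, by decide +kernel, by decide +kernel, by decide +kernel, by decide +kernel⟩

def t31068 : allY (E.wth T1) l31068 = true ∧
    allY (E.wth T1) l31069 = true ∧
    allY (E.wth T1) l31070 = true ∧
    allY (E.wth T1) l31071 = true ∧
    allY (E.wth T1) l31072 = true ∧
    allY (E.wth T1) l31073 = true ∧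
    allY (E.wth T1) l31074 = true ∧
    allY (E.wth T1) l31075 = true :=
  ⟨by decide +kernel, by decide +kernel, by decide +kernel, by decide +kernel, by decide +kernel, by decide +kernel, by decide +kernel, by decide +kernel⟩

def t31076 : allY (E.wth T1) l31076 = true ∧
    allY (E.wth T1) l31077 = true ∧
    allY (E.wth T1) l31078 = true ∧
    allY (E.wth T1) l31079 = true ∧
    allY (E.wth T1) l31080 = true ∧
    allY (E.wth T1) l31081 = true ∧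
    allY (E.wth T1) l31082 = true ∧
    allY (E.wth T1) l31083 = true :=
  ⟨by decide +kernel, by decide +kernel, by decide +kernel, by decide +kernel, by decide +kernel, by decide +kernel, by decide +kernel, by decide +kernel⟩

def t31084 : allY (E.wth T1) l31084 = true ∧
    allY (E.wth T1) l31085 = true ∧
    allY (E.wth T1) l31086 = true ∧
    allY (E.wth T1) l31087 = true ∧
    allY (E.wth T1) l31088 = true ∧
    allY (E.wth T1) l31089 = true ∧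
    allY (E.wth T1) l31090 = true ∧
    allY (E.wth T1) l31091 = true :=
  ⟨by decide +kernel, by decide +kernel, by decide +kernel, by decide +kernel, by decide +kernel, by decide +kernel, by decide +kernel, by decide +kernel⟩

def t31092 : allY (E.wth T1) l31092 = true ∧
    allY (E.wth T1) l31093 = true ∧
    allY (E.wth T1) l31094 = true ∧
    allY (E.wth T1) l31095 = true ∧
    allY (E.wth T1) l31096 = true ∧
    allY (E.wth T1) l31097 = true ∧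
    allY (E.wth T1) l31098 = true ∧
    allY (E.wth T1) l31099 = true :=
  ⟨by decide +kernel, by decide +kernel, by decide +kernel, by decide +kernel, by decide +kernel, by decide +kernel, by decide +kernel, by decide +kernel⟩

def t31100 : allY (E.wth T1) l31100 = true ∧
    allY (E.wth T1) l31101 = true ∧
    allY (E.wth T1) l31102 = true ∧
    allY (E.wth T1) l31103 = true ∧
    allY (E.wth T1) l31104 = true ∧
    allY (E.wth T1) l31105 = true ∧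
    allY (E.wth T1) l31106 = true ∧
    allY (E.wth T1) l31107 = true :=
  ⟨by decide +kernel, by decide +kernel, by decide +kernel, by decide +kernel, by decide +kernel, by decide +kernel, by decide +kernel, by decide +kernel⟩

def t31108 : allY (E.wth T1) l31108 = true ∧
    allY (E.wth T1) l31109 = true ∧
    allY (E.wth T1) l31110 = true ∧
    allY (E.wth T1) l31111 = true ∧
    allY (E.wth T1) l31112 = true ∧
    allY (E.wth T1) l31113 = true ∧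
    allY (E.wth T1) l31114 = true ∧
    allY (E.wth T1) l31115 = true :=
  ⟨by decide +kernel, by decide +kernel, by decide +kernel, by decide +kernel, by decide +kernel, by decide +kernel, by decide +kernel, by decide +kernel⟩

def t31116 : allY (E.wth T1) l31116 = true ∧
    allY (E.wth T1) l31117 = true ∧
    allY (E.wth T1) l31118 = true ∧
    allY (E.wth T1) l31119 = true ∧
    allY (E.wth T1) l31120 = true ∧
    allY (E.wth T1) l31121 = true ∧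
    allY (E.wth T1) l31122 = true ∧
    allY (E.wth T1) l31123 = true :=
  ⟨by decide +kernel, by decide +kernel, by decide +kernel, by decide +kernel, by decide +kernel, by decide +kernel, by decide +kernel, by decide +kernel⟩

def t31124 : allY (E.wth T1) l31124 = true ∧
    allY (E.wth T1) l31125 = true ∧
    allY (E.wth T1) l31126 = true ∧
    allY (E.wth T1) l31127 = true ∧
    allY (E.wth T1) l31128 = true ∧
    allY (E.wth T1) l31129 = true ∧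
    allY (E.wth T1) l31130 = true ∧
    allY (E.wth T1) l31131 = true :=
  ⟨by decide +kernel, by decide +kernel, by decide +kernel, by decide +kernel, by decide +kernel, by decide +kernel, by decide +kernel, by decide +kernel⟩

def t31132 : allY (E.wth T1) l31132 = true ∧
    allY (E.wth T1) l31133 = true ∧
    allY (E.wth T1) l31134 = true ∧
    allY (E.wth T1) l31135 = true ∧
    allY (E.wth T1) l31136 = true ∧
    allY (E.wth T1) l31137 = true ∧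
    allY (E.wth T1) l31138 = true ∧
    allY (E.wth T1) l31139 = true :=
  ⟨by decide +kernel, by decide +kernel, by decide +kernel, by decide +kernel, by decide +kernel, by decide +kernel, by decide +kernel, by decide +kernel⟩

def t31140 : allY (E.wth T1) l31140 = true ∧
    allY (E.wth T1) l31141 = true ∧
    allY (E.wth T1) l31142 = true ∧
    allY (E.wth T1) l31143 = true ∧
    allY (E.wth T1) l31144 = true ∧
    allY (E.wth T1) l31145 = true ∧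
    allY (E.wth T1) l31146 = true ∧
    allY (E.wth T1) l31147 = true :=
  ⟨by decide +kernel, by decide +kernel, by decide +kernel, by decide +kernel, by decide +kernel, by decide +kernel, by decide +kernel, by decide +kernel⟩

def t31148 : allY (E.wth T1) l31148 = true ∧
    allY (E.wth T1) l31149 = true ∧
    allY (E.wth T1) l31150 = true ∧
    allY (E.wth T1) l31151 = true ∧
    allY (E.wth T1) l31152 = true ∧
    allY (E.wth T1) l31153 = true ∧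
    allY (E.wth T1) l31154 = true ∧
    allY (E.wth T1) l31155 = true :=
  ⟨by decide +kernel, by decide +kernel, by decide +kernel, by decide +kernel, by decide +kernel, by decide +kernel, by decide +kernel, by decide +kernel⟩

def t31156 : allY (E.wth T1) l31156 = true ∧
    allY (E.wth T1) l31157 = true ∧
    allY (E.wth T1) l31158 = true ∧
    allY (E.wth T1) l31159 = true ∧
    allY (E.wth T1) l31160 = true ∧
    allY (E.wth T1) l31161 = true ∧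
    allY (E.wth T1) l31162 = true ∧
    allY (E.wth T1) l31163 = true :=
  ⟨by decide +kernel, by decide +kernel, by decide +kernel, by decide +kernel, by decide +kernel, by decide +kernel, by decide +kernel, by decide +kernel⟩

def t31164 : allY (E.wth T1) l31164 = true ∧
    allY (E.wth T1) l31165 = true ∧
    allY (E.wth T1) l31166 = true ∧
    allY (E.wth T1) l31167 = true ∧
    allY (E.wth T1) l31168 = true ∧
    allY (E.wth T1) l31169 = true ∧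
    allY (E.wth T1) l31170 = true ∧
    allY (E.wth T1) l31171 = true :=
  ⟨by decide +kernel, by decide +kernel, by decide +kernel, by decide +kernel, by decide +kernel, by decide +kernel, by decide +kernel, by decide +kernel⟩

def t31172 : allY (E.wth T1) l31172 = true ∧
    allY (E.wth T1) l31173 = true ∧
    allY (E.wth T1) l31174 = true ∧
    allY (E.wth T1) l31175 = true ∧
    allY (E.wth T1) l31176 = true ∧
    allY (E.wth T1) l31177 = true ∧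
    allY (E.wth T1) l31178 = true ∧
    allY (E.wth T1) l31179 = true :=
  ⟨by decide +kernel, by decide +kernel, by decide +kernel, by decide +kernel, by decide +kernel, by decide +kernel, by decide +kernel, by decide +kernel⟩

def t31180 : allY (E.wth T1) l31180 = true ∧
    allY (E.wth T1) l31181 = true ∧
    allY (E.wth T1) l31182 = true ∧
    allY (E.wth T1) l31183 = true ∧
    allY (E.wth T1) l31184 = true ∧
    allY (E.wth T1) l31185 = true ∧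
    allY (E.wth T1) l31186 = true ∧
    allY (E.wth T1) l31187 = true :=
  ⟨by decide +kernel, by decide +kernel, by decide +kernel, by decide +kernel, by decide +kernel, by decide +kernel, by decide +kernel, by decide +kernel⟩

def t31188 : allY (E.wth T1) l31188 = true ∧
    allY (E.wth T1) l31189 = true ∧
    allY (E.wth T1) l31190 = true ∧
    allY (E.wth T1) l31191 = true ∧
    allY (E.wth T1) l31192 = true ∧
    allY (E.wth T1) l31193 = true ∧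
    allY (E.wth T1) l31194 = true ∧
    allY (E.wth T1) l31195 = true :=
  ⟨by decide +kernel, by decide +kernel, by decide +kernel, by decide +kernel, by decide +kernel, by decide +kernel, by decide +kernel, by decide +kernel⟩

def t31196 : allY (E.wth T1) l31196 = true ∧
    allY (E.wth T1) l31197 = true ∧
    allY (E.wth T1) l31198 = true ∧
    allY (E.wth T1) l31199 = true ∧
    allY (E.wth T1) l31200 = true ∧
    allY (E.wth T1) l31201 = true ∧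
    allY (E.wth T1) l31202 = true ∧
    allY (E.wth T1) l31203 = true :=
  ⟨by decide +kernel, by decide +kernel, by decide +kernel, by decide +kernel, by decide +kernel, by decide +kernel, by decide +kernel, by decide +kernel⟩

def t31204 : allY (E.wth T1) l31204 = true ∧
    allY (E.wth T1) l31205 = true ∧
    allY (E.wth T1) l31206 = true ∧
    allY (E.wth T1) l31207 = true ∧
    allY (E.wth T1) l31208 = true ∧
    allY (E.wth T1) l31209 = true ∧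
    allY (E.wth T1) l31210 = true ∧
    allY (E.wth T1) l31211 = true :=
  ⟨by decide +kernel, by decide +kernel, by decide +kernel, by decide +kernel, by decide +kernel, by decide +kernel, by decide +kernel, by decide +kernel⟩

def t31212 : allY (E.wth T1) l31212 = true ∧
    allY (E.wth T1) l31213 = true ∧
    allY (E.wth T1) l31214 = true ∧
    allY (E.wth T1) l31215 = true ∧
    allY (E.wth T1) l31216 = true ∧
    allY (E.wth T1) l31217 = true ∧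
    allY (E.wth T1) l31218 = true ∧
    allY (E.wth T1) l31219 = true :=
  ⟨by decide +kernel, by decide +kernel, by decide +kernel, by decide +kernel, by decide +kernel, by decide +kernel, by decide +kernel, by decide +kernel⟩

def t31220 : allY (E.wth T1) l31220 = true ∧
    allY (E.wth T1) l31221 = true ∧
    allY (E.wth T1) l31222 = true ∧
    allY (E.wth T1) l31223 = true ∧
    allY (E.wth T1) l31224 = true ∧
    allY (E.wth T1) l31225 = true ∧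
    allY (E.wth T1) l31226 = true ∧
    allY (E.wth T1) l31227 = true :=
  ⟨by decide +kernel, by decide +kernel, by decide +kernel, by decide +kernel, by decide +kernel, by decide +kernel, by decide +kernel, by decide +kernel⟩

def t31228 : allY (E.wth T1) l31228 = true ∧
    allY (E.wth T1) l31229 = true ∧
    allY (E.wth T1) l31230 = true ∧
    allY (E.wth T1) l31231 = true ∧
    allY (E.wth T1) l31232 = true ∧
    allY (E.wth T1) l31233 = true ∧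
    allY (E.wth T1) l31234 = true ∧
    allY (E.wth T1) l31235 = true :=
  ⟨by decide +kernel, by decide +kernel, by decide +kernel, by decide +kernel, by decide +kernel, by decide +kernel, by decide +kernel, by decide +kernel⟩

def t31236 : allY (E.wth T1) l31236 = true ∧
    allY (E.wth T1) l31237 = true ∧
    allY (E.wth T1) l31238 = true ∧
    allY (E.wth T1) l31239 = true ∧
    allY (E.wth T1) l31240 = true ∧
    allY (E.wth T1) l31241 = true ∧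
    allY (E.wth T1) l31242 = true ∧
    allY (E.wth T1) l31243 = true :=
  ⟨by decide +kernel, by decide +kernel, by decide +kernel, by decide +kernel, by decide +kernel, by decide +kernel, by decide +kernel, by decide +kernel⟩

def t31244 : allY (E.wth T1) l31244 = true ∧
    allY (E.wth T1) l31245 = true ∧
    allY (E.wth T1) l31246 = true ∧
    allY (E.wth T1) l31247 = true ∧
    allY (E.wth T1) l31248 = true ∧
    allY (E.wth T1) l31249 = true ∧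
    allY (E.wth T1) l31250 = true ∧
    allY (E.wth T1) l31251 = true :=
  ⟨by decide +kernel, by decide +kernel, by decide +kernel, by decide +kernel, by decide +kernel, by decide +kernel, by decide +kernel, by decide +kernel⟩

def t31252 : allY (E.wth T1) l31252 = true ∧
    allY (E.wth T1) l31253 = true ∧
    allY (E.wth T1) l31254 = true ∧
    allY (E.wth T1) l31255 = true ∧
    allY (E.wth T1) l31256 = true ∧
    allY (E.wth T1) l31257 = true ∧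
    allY (E.wth T1) l31258 = true ∧
    allY (E.wth T1) l31259 = true :=
  ⟨by decide +kernel, by decide +kernel, by decide +kernel, by decide +kernel, by decide +kernel, by decide +kernel, by decide +kernel, by decide +kernel⟩

def t31260 : allY (E.wth T1) l31260 = true ∧
    allY (E.wth T1) l31261 = true ∧
    allY (E.wth T1) l31262 = true ∧
    allY (E.wth T1) l31263 = true ∧
    allY (E.wth T1) l31264 = true ∧
    allY (E.wth T1) l31265 = true ∧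
    allY (E.wth T1) l31266 = true ∧
    allY (E.wth T1) l31267 = true :=
  ⟨by decide +kernel, by decide +kernel, by decide +kernel, by decide +kernel, by decide +kernel, by decide +kernel, by decide +kernel, by decide +kernel⟩

def t31268 : allY (E.wth T1) l31268 = true ∧
    allY (E.wth T1) l31269 = true ∧
    allY (E.wth T1) l31270 = true ∧
    allY (E.wth T1) l31271 = true ∧
    allY (E.wth T1) l31272 = true ∧
    allY (E.wth T1) l31273 = true ∧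
    allY (E.wth T1) l31274 = true ∧
    allY (E.wth T1) l31275 = true :=
  ⟨by decide +kernel, by decide +kernel, by decide +kernel, by decide +kernel, by decide +kernel, by decide +kernel, by decide +kernel, by decide +kernel⟩

def t31276 : allY (E.wth T1) l31276 = true ∧
    allY (E.wth T1) l31277 = true ∧
    allY (E.wth T1) l31278 = true ∧
    allY (E.wth T1) l31279 = true ∧
    allY (E.wth T1) l31280 = true ∧
    allY (E.wth T1) l31281 = true ∧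
    allY (E.wth T1) l31282 = true ∧
    allY (E.wth T1) l31283 = true :=
  ⟨by decide +kernel, by decide +kernel, by decide +kernel, by decide +kernel, by decide +kernel, by decide +kernel, by decide +kernel, by decide +kernel⟩

def t31284 : allY (E.wth T1) l31284 = true ∧
    allY (E.wth T1) l31285 = true ∧
    allY (E.wth T1) l31286 = true ∧
    allY (E.wth T1) l31287 = true ∧
    allY (E.wth T1) l31288 = true ∧
    allY (E.wth T1) l31289 = true ∧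
    allY (E.wth T1) l31290 = true ∧
    allY (E.wth T1) l31291 = true :=
  ⟨by decide +kernel, by decide +kernel, by decide +kernel, by decide +kernel, by decide +kernel, by decide +kernel, by decide +kernel, by decide +kernel⟩

def t31292 : allY (E.wth T1) l31292 = true ∧
    allY (E.wth T1) l31293 = true ∧
    allY (E.wth T1) l31294 = true ∧
    allY (E.wth T1) l31295 = true ∧
    allY (E.wth T1) l31296 = true ∧
    allY (E.wth T1) l31297 = true ∧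
    allY (E.wth T1) l31298 = true ∧
    allY (E.wth T1) l31299 = true :=
  ⟨by decide +kernel, by decide +kernel, by decide +kernel, by decide +kernel, by decide +kernel, by decide +kernel, by decide +kernel, by decide +kernel⟩

def t31300 : allY (E.wth T1) l31300 = true ∧
    allY (E.wth T1) l31301 = true ∧
    allY (E.wth T1) l31302 = true ∧
    allY (E.wth T1) l31303 = true ∧
    allY (E.wth T1) l31304 = true ∧
    allY (E.wth T1) l31305 = true ∧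
    allY (E.wth T1) l31306 = true ∧
    allY (E.wth T1) l31307 = true :=
  ⟨by decide +kernel, by decide +kernel, by decide +kernel, by decide +kernel, by decide +kernel, by decide +kernel, by decide +kernel, by decide +kernel⟩

def t31308 : allY (E.wth T1) l31308 = true ∧
    allY (E.wth T1) l31309 = true ∧
    allY (E.wth T1) l31310 = true ∧
    allY (E.wth T1) l31311 = true ∧
    allY (E.wth T1) l31312 = true ∧
    allY (E.wth T1) l31313 = true ∧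
    allY (E.wth T1) l31314 = true ∧
    allY (E.wth T1) l31315 = true :=
  ⟨by decide +kernel, by decide +kernel, by decide +kernel, by decide +kernel, by decide +kernel, by decide +kernel, by decide +kernel, by decide +kernel⟩

def t31316 : allY (E.wth T1) l31316 = true ∧
    allY (E.wth T1) l31317 = true ∧
    allY (E.wth T1) l31318 = true ∧
    allY (E.wth T1) l31319 = true ∧
    allY (E.wth T1) l31320 = true ∧
    allY (E.wth T1) l31321 = true ∧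
    allY (E.wth T1) l31322 = true ∧
    allY (E.wth T1) l31323 = true :=
  ⟨by decide +kernel, by decide +kernel, by decide +kernel, by decide +kernel, by decide +kernel, by decide +kernel, by decide +kernel, by decide +kernel⟩

def t31324 : allY (E.wth T1) l31324 = true ∧
    allY (E.wth T1) l31325 = true ∧
    allY (E.wth T1) l31326 = true ∧
    allY (E.wth T1) l31327 = true ∧
    allY (E.wth T1) l31328 = true ∧
    allY (E.wth T1) l31329 = true ∧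
    allY (E.wth T1) l31330 = true ∧
    allY (E.wth T1) l31331 = true :=
  ⟨by decide +kernel, by decide +kernel, by decide +kernel, by decide +kernel, by decide +kernel, by decide +kernel, by decide +kernel, by decide +kernel⟩

def t31332 : allY (E.wth T1) l31332 = true ∧
    allY (E.wth T1) l31333 = true ∧
    allY (E.wth T1) l31334 = true ∧
    allY (E.wth T1) l31335 = true ∧
    allY (E.wth T1) l31336 = true ∧
    allY (E.wth T1) l31337 = true ∧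
    allY (E.wth T1) l31338 = true ∧
    allY (E.wth T1) l31339 = true :=
  ⟨by decide +kernel, by decide +kernel, by decide +kernel, by decide +kernel, by decide +kernel, by decide +kernel, by decide +kernel, by decide +kernel⟩

def t31340 : allY (E.wth T1) l31340 = true ∧
    allY (E.wth T1) l31341 = true ∧
    allY (E.wth T1) l31342 = true ∧
    allY (E.wth T1) l31343 = true ∧
    allY (E.wth T1) l31344 = true ∧
    allY (E.wth T1) l31345 = true ∧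
    allY (E.wth T1) l31346 = true ∧
    allY (E.wth T1) l31347 = true :=
  ⟨by decide +kernel, by decide +kernel, by decide +kernel, by decide +kernel, by decide +kernel, by decide +kernel, by decide +kernel, by decide +kernel⟩

def t31348 : allY (E.wth T1) l31348 = true ∧
    allY (E.wth T1) l31349 = true ∧
    allY (E.wth T1) l31350 = true ∧
    allY (E.wth T1) l31351 = true ∧
    allY (E.wth T1) l31352 = true ∧
    allY (E.wth T1) l31353 = true ∧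
    allY (E.wth T1) l31354 = true ∧
    allY (E.wth T1) l31355 = true :=
  ⟨by decide +kernel, by decide +kernel, by decide +kernel, by decide +kernel, by decide +kernel, by decide +kernel, by decide +kernel, by decide +kernel⟩

def t31356 : allY (E.wth T1) l31356 = true ∧
    allY (E.wth T1) l31357 = true ∧
    allY (E.wth T1) l31358 = true ∧
    allY (E.wth T1) l31359 = true ∧
    allY (E.wth T1) l31360 = true ∧
    allY (E.wth T1) l31361 = true ∧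
    allY (E.wth T1) l31362 = true ∧
    allY (E.wth T1) l31363 = true :=
  ⟨by decide +kernel, by decide +kernel, by decide +kernel, by decide +kernel, by decide +kernel, by decide +kernel, by decide +kernel, by decide +kernel⟩

def t31364 : allY (E.wth T1) l31364 = true ∧
    allY (E.wth T1) l31365 = true ∧
    allY (E.wth T1) l31366 = true ∧
    allY (E.wth T1) l31367 = true ∧
    allY (E.wth T1) l31368 = true ∧
    allY (E.wth T1) l31369 = true ∧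
    allY (E.wth T1) l31370 = true ∧
    allY (E.wth T1) l31371 = true :=
  ⟨by decide +kernel, by decide +kernel, by decide +kernel, by decide +kernel, by decide +kernel, by decide +kernel, by decide +kernel, by decide +kernel⟩

def t31372 : allY (E.wth T1) l31372 = true ∧
    allY (E.wth T1) l31373 = true ∧
    allY (E.wth T1) l31374 = true ∧
    allY (E.wth T1) l31375 = true ∧
    allY (E.wth T1) l31376 = true ∧
    allY (E.wth T1) l31377 = true ∧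
    allY (E.wth T1) l31378 = true ∧
    allY (E.wth T1) l31379 = true :=
  ⟨by decide +kernel, by decide +kernel, by decide +kernel, by decide +kernel, by decide +kernel, by decide +kernel, by decide +kernel, by decide +kernel⟩

def t31380 : allY (E.wth T1) l31380 = true ∧
    allY (E.wth T1) l31381 = true ∧
    allY (E.wth T1) l31382 = true ∧
    allY (E.wth T1) l31383 = true ∧
    allY (E.wth T1) l31384 = true ∧
    allY (E.wth T1) l31385 = true ∧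
    allY (E.wth T1) l31386 = true ∧
    allY (E.wth T1) l31387 = true :=
  ⟨by decide +kernel, by decide +kernel, by decide +kernel, by decide +kernel, by decide +kernel, by decide +kernel, by decide +kernel, by decide +kernel⟩

def t31388 : allY (E.wth T1) l31388 = true ∧
    allY (E.wth T1) l31389 = true ∧
    allY (E.wth T1) l31390 = true ∧
    allY (E.wth T1) l31391 = true ∧
    allY (E.wth T1) l31392 = true ∧
    allY (E.wth T1) l31393 = true ∧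
    allY (E.wth T1) l31394 = true ∧
    allY (E.wth T1) l31395 = true :=
  ⟨by decide +kernel, by decide +kernel, by decide +kernel, by decide +kernel, by decide +kernel, by decide +kernel, by decide +kernel, by decide +kernel⟩

def t31396 : allY (E.wth T1) l31396 = true ∧
    allY (E.wth T1) l31397 = true ∧
    allY (E.wth T1) l31398 = true ∧
    allY (E.wth T1) l31399 = true ∧
    allY (E.wth T1) l31400 = true ∧
    allY (E.wth T1) l31401 = true ∧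
    allY (E.wth T1) l31402 = true ∧
    allY (E.wth T1) l31403 = true :=
  ⟨by decide +kernel, by decide +kernel, by decide +kernel, by decide +kernel, by decide +kernel, by decide +kernel, by decide +kernel, by decide +kernel⟩

def t31404 : allY (E.wth T1) l31404 = true ∧
    allY (E.wth T1) l31405 = true ∧
    allY (E.wth T1) l31406 = true ∧
    allY (E.wth T1) l31407 = true ∧
    allY (E.wth T1) l31408 = true ∧
    allY (E.wth T1) l31409 = true ∧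
    allY (E.wth T1) l31410 = true ∧
    allY (E.wth T1) l31411 = true :=
  ⟨by decide +kernel, by decide +kernel, by decide +kernel, by decide +kernel, by decide +kernel, by decide +kernel, by decide +kernel, by decide +kernel⟩

def t31412 : allY (E.wth T1) l31412 = true ∧
    allY (E.wth T1) l31413 = true ∧
    allY (E.wth T1) l31414 = true ∧
    allY (E.wth T1) l31415 = true ∧
    allY (E.wth T1) l31416 = true ∧
    allY (E.wth T1) l31417 = true ∧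
    allY (E.wth T1) l31418 = true ∧
    allY (E.wth T1) l31419 = true :=
  ⟨by decide +kernel, by decide +kernel, by decide +kernel, by decide +kernel, by decide +kernel, by decide +kernel, by decide +kernel, by decide +kernel⟩

def t31420 : allY (E.wth T1) l31420 = true ∧
    allY (E.wth T1) l31421 = true ∧
    allY (E.wth T1) l31422 = true ∧
    allY (E.wth T1) l31423 = true ∧
    allY (E.wth T1) l31424 = true ∧
    allY (E.wth T1) l31425 = true ∧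
    allY (E.wth T1) l31426 = true ∧
    allY (E.wth T1) l31427 = true :=
  ⟨by decide +kernel, by decide +kernel, by decide +kernel, by decide +kernel, by decide +kernel, by decide +kernel, by decide +kernel, by decide +kernel⟩

def t31428 : allY (E.wth T1) l31428 = true ∧
    allY (E.wth T1) l31429 = true ∧
    allY (E.wth T1) l31430 = true ∧
    allY (E.wth T1) l31431 = true ∧
    allY (E.wth T1) l31432 = true ∧
    allY (E.wth T1) l31433 = true ∧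
    allY (E.wth T1) l31434 = true ∧
    allY (E.wth T1) l31435 = true :=
  ⟨by decide +kernel, by decide +kernel, by decide +kernel, by decide +kernel, by decide +kernel, by decide +kernel, by decide +kernel, by decide +kernel⟩

def t31436 : allY (E.wth T1) l31436 = true ∧
    allY (E.wth T1) l31437 = true ∧
    allY (E.wth T1) l31438 = true ∧
    allY (E.wth T1) l31439 = true ∧
    allY (E.wth T1) l31440 = true ∧
    allY (E.wth T1) l31441 = true ∧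
    allY (E.wth T1) l31442 = true ∧
    allY (E.wth T1) l31443 = true :=
  ⟨by decide +kernel, by decide +kernel, by decide +kernel, by decide +kernel, by decide +kernel, by decide +kernel, by decide +kernel, by decide +kernel⟩

def t31444 : allY (E.wth T1) l31444 = true ∧
    allY (E.wth T1) l31445 = true ∧
    allY (E.wth T1) l31446 = true ∧
    allY (E.wth T1) l31447 = true ∧
    allY (E.wth T1) l31448 = true ∧
    allY (E.wth T1) l31449 = true ∧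
    allY (E.wth T1) l31450 = true ∧
    allY (E.wth T1) l31451 = true :=
  ⟨by decide +kernel, by decide +kernel, by decide +kernel, by decide +kernel, by decide +kernel, by decide +kernel, by decide +kernel, by decide +kernel⟩

def t31452 : allY (E.wth T1) l31452 = true ∧
    allY (E.wth T1) l31453 = true ∧
    allY (E.wth T1) l31454 = true ∧
    allY (E.wth T1) l31455 = true ∧
    allY (E.wth T1) l31456 = true ∧
    allY (E.wth T1) l31457 = true ∧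
    allY (E.wth T1) l31458 = true ∧
    allY (E.wth T1) l31459 = true :=
  ⟨by decide +kernel, by decide +kernel, by decide +kernel, by decide +kernel, by decide +kernel, by decide +kernel, by decide +kernel, by decide +kernel⟩

def t31460 : allY (E.wth T1) l31460 = true ∧
    allY (E.wth T1) l31461 = true ∧
    allY (E.wth T1) l31462 = true ∧
    allY (E.wth T1) l31463 = true ∧
    allY (E.wth T1) l31464 = true ∧
    allY (E.wth T1) l31465 = true ∧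
    allY (E.wth T1) l31466 = true ∧
    allY (E.wth T1) l31467 = true :=
  ⟨by decide +kernel, by decide +kernel, by decide +kernel, by decide +kernel, by decide +kernel, by decide +kernel, by decide +kernel, by decide +kernel⟩

def t31468 : allY (E.wth T1) l31468 = true ∧
    allY (E.wth T1) l31469 = true ∧
    allY (E.wth T1) l31470 = true ∧
    allY (E.wth T1) l31471 = true ∧
    allY (E.wth T1) l31472 = true ∧
    allY (E.wth T1) l31473 = true ∧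
    allY (E.wth T1) l31474 = true ∧
    allY (E.wth T1) l31475 = true :=
  ⟨by decide +kernel, by decide +kernel, by decide +kernel, by decide +kernel, by decide +kernel, by decide +kernel, by decide +kernel, by decide +kernel⟩

def t31476 : allY (E.wth T1) l31476 = true ∧
    allY (E.wth T1) l31477 = true ∧
    allY (E.wth T1) l31478 = true ∧
    allY (E.wth T1) l31479 = true ∧
    allY (E.wth T1) l31480 = true ∧
    allY (E.wth T1) l31481 = true ∧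
    allY (E.wth T1) l31482 = true ∧
    allY (E.wth T1) l31483 = true :=
  ⟨by decide +kernel, by decide +kernel, by decide +kernel, by decide +kernel, by decide +kernel, by decide +kernel, by decide +kernel, by decide +kernel⟩

def t31484 : allY (E.wth T1) l31484 = true ∧
    allY (E.wth T1) l31485 = true ∧
    allY (E.wth T1) l31486 = true ∧
    allY (E.wth T1) l31487 = true ∧
    allY (E.wth T1) l31488 = true ∧
    allY (E.wth T1) l31489 = true ∧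
    allY (E.wth T1) l31490 = true ∧
    allY (E.wth T1) l31491 = true :=
  ⟨by decide +kernel, by decide +kernel, by decide +kernel, by decide +kernel, by decide +kernel, by decide +kernel, by decide +kernel, by decide +kernel⟩

def t31492 : allY (E.wth T1) l31492 = true ∧
    allY (E.wth T1) l31493 = true ∧
    allY (E.wth T1) l31494 = true ∧
    allY (E.wth T1) l31495 = true ∧
    allY (E.wth T1) l31496 = true ∧
    allY (E.wth T1) l31497 = true ∧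
    allY (E.wth T1) l31498 = true ∧
    allY (E.wth T1) l31499 = true :=
  ⟨by decide +kernel, by decide +kernel, by decide +kernel, by decide +kernel, by decide +kernel, by decide +kernel, by decide +kernel, by decide +kernel⟩

def t31500 : allY (E.wth T1) l31500 = true ∧
    allY (E.wth T1) l31501 = true ∧
    allY (E.wth T1) l31502 = true ∧
    allY (E.wth T1) l31503 = true ∧
    allY (E.wth T1) l31504 = true ∧
    allY (E.wth T1) l31505 = true ∧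
    allY (E.wth T1) l31506 = true ∧
    allY (E.wth T1) l31507 = true :=
  ⟨by decide +kernel, by decide +kernel, by decide +kernel, by decide +kernel, by decide +kernel, by decide +kernel, by decide +kernel, by decide +kernel⟩

def t31508 : allY (E.wth T1) l31508 = true ∧
    allY (E.wth T1) l31509 = true ∧
    allY (E.wth T1) l31510 = true ∧
    allY (E.wth T1) l31511 = true ∧
    allY (E.wth T1) l31512 = true ∧
    allY (E.wth T1) l31513 = true ∧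
    allY (E.wth T1) l31514 = true ∧
    allY (E.wth T1) l31515 = true :=
  ⟨by decide +kernel, by decide +kernel, by decide +kernel, by decide +kernel, by decide +kernel, by decide +kernel, by decide +kernel, by decide +kernel⟩

def t31516 : allY (E.wth T1) l31516 = true ∧
    allY (E.wth T1) l31517 = true ∧
    allY (E.wth T1) l31518 = true ∧
    allY (E.wth T1) l31519 = true ∧
    allY (E.wth T1) l31520 = true ∧
    allY (E.wth T1) l31521 = true ∧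
    allY (E.wth T1) l31522 = true ∧
    allY (E.wth T1) l31523 = true :=
  ⟨by decide +kernel, by decide +kernel, by decide +kernel, by decide +kernel, by decide +kernel, by decide +kernel, by decide +kernel, by decide +kernel⟩

def t31524 : allY (E.wth T1) l31524 = true ∧
    allY (E.wth T1) l31525 = true ∧
    allY (E.wth T1) l31526 = true ∧
    allY (E.wth T1) l31527 = true ∧
    allY (E.wth T1) l31528 = true ∧
    allY (E.wth T1) l31529 = true ∧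
    allY (E.wth T1) l31530 = true ∧
    allY (E.wth T1) l31531 = true :=
  ⟨by decide +kernel, by decide +kernel, by decide +kernel, by decide +kernel, by decide +kernel, by decide +kernel, by decide +kernel, by decide +kernel⟩

def t31532 : allY (E.wth T1) l31532 = true ∧
    allY (E.wth T1) l31533 = true ∧
    allY (E.wth T1) l31534 = true ∧
    allY (E.wth T1) l31535 = true ∧
    allY (E.wth T1) l31536 = true ∧
    allY (E.wth T1) l31537 = true ∧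
    allY (E.wth T1) l31538 = true ∧
    allY (E.wth T1) l31539 = true :=
  ⟨by decide +kernel, by decide +kernel, by decide +kernel, by decide +kernel, by decide +kernel, by decide +kernel, by decide +kernel, by decide +kernel⟩

def t31540 : allY (E.wth T1) l31540 = true ∧
    allY (E.wth T1) l31541 = true ∧
    allY (E.wth T1) l31542 = true ∧
    allY (E.wth T1) l31543 = true ∧
    allY (E.wth T1) l31544 = true ∧
    allY (E.wth T1) l31545 = true ∧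
    allY (E.wth T1) l31546 = true ∧
    allY (E.wth T1) l31547 = true :=
  ⟨by decide +kernel, by decide +kernel, by decide +kernel, by decide +kernel, by decide +kernel, by decide +kernel, by decide +kernel, by decide +kernel⟩

def t31548 : allY (E.wth T1) l31548 = true ∧
    allY (E.wth T1) l31549 = true ∧
    allY (E.wth T1) l31550 = true ∧
    allY (E.wth T1) l31551 = true ∧
    allY (E.wth T1) l31552 = true ∧
    allY (E.wth T1) l31553 = true ∧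
    allY (E.wth T1) l31554 = true ∧
    allY (E.wth T1) l31555 = true :=
  ⟨by decide +kernel, by decide +kernel, by decide +kernel, by decide +kernel, by decide +kernel, by decide +kernel, by decide +kernel, by decide +kernel⟩

def t31556 : allY (E.wth T1) l31556 = true ∧
    allY (E.wth T1) l31557 = true ∧
    allY (E.wth T1) l31558 = true ∧
    allY (E.wth T1) l31559 = true ∧
    allY (E.wth T1) l31560 = true ∧
    allY (E.wth T1) l31561 = true ∧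
    allY (E.wth T1) l31562 = true ∧
    allY (E.wth T1) l31563 = true :=
  ⟨by decide +kernel, by decide +kernel, by decide +kernel, by decide +kernel, by decide +kernel, by decide +kernel, by decide +kernel, by decide +kernel⟩

def t31564 : allY (E.wth T1) l31564 = true ∧
    allY (E.wth T1) l31565 = true ∧
    allY (E.wth T1) l31566 = true ∧
    allY (E.wth T1) l31567 = true ∧
    allY (E.wth T1) l31568 = true ∧
    allY (E.wth T1) l31569 = true :=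
  ⟨by decide +kernel, by decide +kernel, by decide +kernel, by decide +kernel, by decide +kernel, by decide +kernel⟩

theorem a56 {p : Rf → Prop} (H : ∀ l, allY (E.wth T1) l = true → (lkp l).All p) :
    b56.All p := ⟨⟨⟨⟨⟨⟨⟨⟨⟨H _ t31020.1, H _ t31020.2.1⟩, ⟨H _ t31020.2.2.1, H _ t31020.2.2.2.1⟩⟩, ⟨⟨H _ t31020.2.2.2.2.1, H _ t31020.2.2.2.2.2.1⟩, ⟨H _ t31020.2.2.2.2.2.2.1, H _ t31020.2.2.2.2.2.2.2⟩⟩⟩, ⟨⟨⟨H _ t31028.1, H _ t31028.2.1⟩, ⟨H _ t31028.2.2.1, H _ t31028.2.2.2.1⟩⟩, ⟨⟨H _ t31028.2.2.2.2.1, H _ t31028.2.2.2.2.2.1⟩, ⟨H _ t31028.2.2.2.2.2.2.1, ⟨H _ t31028.2.2.2.2.2.2.2, H _ t31036.1⟩⟩⟩⟩⟩, ⟨⟨⟨⟨H _ t31036.2.1, H _ t31036.2.2.1⟩, ⟨H _ t31036.2.2.2.1, H _ t31036.2.2.2.2.1⟩⟩, ⟨⟨H _ t31036.2.2.2.2.2.1, H _ t31036.2.2.2.2.2.2.1⟩, ⟨H _ t31036.2.2.2.2.2.2.2, H _ t31044.1⟩⟩⟩, ⟨⟨⟨H _ t31044.2.1, H _ t31044.2.2.1⟩, ⟨H _ t31044.2.2.2.1, H _ t31044.2.2.2.2.1⟩⟩, ⟨⟨H _ t31044.2.2.2.2.2.1, H _ t31044.2.2.2.2.2.2.1⟩,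 ⟨H _ t31044.2.2.2.2.2.2.2, ⟨H _ t31052.1, H _ t31052.2.1⟩⟩⟩⟩⟩⟩, ⟨⟨⟨⟨⟨H _ t31052.2.2.1, H _ t31052.2.2.2.1⟩, ⟨H _ t31052.2.2.2.2.1, H _ t31052.2.2.2.2.2.1⟩⟩, ⟨⟨H _ t31052.2.2.2.2.2.2.1, H _ t31052.2.2.2.2.2.2.2⟩, ⟨H _ t31060.1, H _ t31060.2.1⟩⟩⟩, ⟨⟨⟨H _ t31060.2.2.1, H _ t31060.2.2.2.1⟩, ⟨H _ t31060.2.2.2.2.1, H _ t31060.2.2.2.2.2.1⟩⟩, ⟨⟨H _ t31060.2.2.2.2.2.2.1, H _ t31060.2.2.2.2.2.2.2⟩, ⟨H _ t31068.1, ⟨H _ t31068.2.1, H _ t31068.2.2.1⟩⟩⟩⟩⟩, ⟨⟨⟨⟨H _ t31068.2.2.2.1, H _ t31068.2.2.2.2.1⟩, ⟨H _ t31068.2.2.2.2.2.1, H _ t31068.2.2.2.2.2.2.1⟩⟩, ⟨⟨H _ t31068.2.2.2.2.2.2.2, H _ t31076.1⟩, ⟨H _ t31076.2.1, H _ t31076.2.2.1⟩⟩⟩, ⟨⟨⟨H _ t31076.2.2.2.1, H _ t31076.2.2.2.2.1⟩, ⟨H _ t31076.2.2.2.2.2.1, H _ t31076.2.2.2.2.2.2.1⟩⟩, ⟨⟨H _ t31076.2.2.2.2.2.2.2, H _ t31084.1⟩, ⟨H _ t31084.2.1, ⟨H _ t31084.2.2.1, H _ t31084.2.2.2.1⟩⟩⟩⟩⟩⟩⟩, ⟨⟨⟨⟨⟨⟨H _ t31084.2.2.2.2.1, H _ t31084.2.2.2.2.2.1⟩, ⟨H _ t31084.2.2.2.2.2.2.1,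 H _ t31084.2.2.2.2.2.2.2⟩⟩, ⟨⟨H _ t31092.1, H _ t31092.2.1⟩, ⟨H _ t31092.2.2.1, H _ t31092.2.2.2.1⟩⟩⟩, ⟨⟨⟨H _ t31092.2.2.2.2.1, H _ t31092.2.2.2.2.2.1⟩, ⟨H _ t31092.2.2.2.2.2.2.1, H _ t31092.2.2.2.2.2.2.2⟩⟩, ⟨⟨H _ t31100.1, H _ t31100.2.1⟩, ⟨H _ t31100.2.2.1, ⟨H _ t31100.2.2.2.1, H _ t31100.2.2.2.2.1⟩⟩⟩⟩⟩, ⟨⟨⟨⟨H _ t31100.2.2.2.2.2.1, H _ t31100.2.2.2.2.2.2.1⟩, ⟨H _ t31100.2.2.2.2.2.2.2, H _ t31108.1⟩⟩, ⟨⟨H _ t31108.2.1, H _ t31108.2.2.1⟩, ⟨H _ t31108.2.2.2.1, H _ t31108.2.2.2.2.1⟩⟩⟩, ⟨⟨⟨H _ t31108.2.2.2.2.2.1, H _ t31108.2.2.2.2.2.2.1⟩, ⟨H _ t31108.2.2.2.2.2.2.2, H _ t31116.1⟩⟩, ⟨⟨H _ t31116.2.1, H _ t31116.2.2.1⟩, ⟨H _ t31116.2.2.2.1, ⟨H _ t31116.2.2.2.2.1, H _ t31116.2.2.2.2.2.1⟩⟩⟩⟩⟩⟩, ⟨⟨⟨⟨⟨H _ t31116.2.2.2.2.2.2.1, H _ t31116.2.2.2.2.2.2.2⟩, ⟨H _ t31124.1, H _ t31124.2.1⟩⟩, ⟨⟨H _ t31124.2.2.1, H _ t31124.2.2.2.1⟩, ⟨H _ t31124.2.2.2.2.1, H _ t31124.2.2.2.2.2.1⟩⟩⟩, ⟨⟨⟨H _ t31124.2.2.2.2.2.2.1,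 H _ t31124.2.2.2.2.2.2.2⟩, ⟨H _ t31132.1, H _ t31132.2.1⟩⟩, ⟨⟨H _ t31132.2.2.1, H _ t31132.2.2.2.1⟩, ⟨H _ t31132.2.2.2.2.1, ⟨H _ t31132.2.2.2.2.2.1, H _ t31132.2.2.2.2.2.2.1⟩⟩⟩⟩⟩, ⟨⟨⟨⟨H _ t31132.2.2.2.2.2.2.2, H _ t31140.1⟩, ⟨H _ t31140.2.1, H _ t31140.2.2.1⟩⟩, ⟨⟨H _ t31140.2.2.2.1, H _ t31140.2.2.2.2.1⟩, ⟨H _ t31140.2.2.2.2.2.1, ⟨H _ t31140.2.2.2.2.2.2.1, H _ t31140.2.2.2.2.2.2.2⟩⟩⟩⟩, ⟨⟨⟨H _ t31148.1, H _ t31148.2.1⟩, ⟨H _ t31148.2.2.1, H _ t31148.2.2.2.1⟩⟩, ⟨⟨H _ t31148.2.2.2.2.1, H _ t31148.2.2.2.2.2.1⟩, ⟨H _ t31148.2.2.2.2.2.2.1, ⟨H _ t31148.2.2.2.2.2.2.2, H _ t31156.1⟩⟩⟩⟩⟩⟩⟩⟩, ⟨⟨⟨⟨⟨⟨⟨H _ t31156.2.1, H _ t31156.2.2.1⟩, ⟨H _ t31156.2.2.2.1, H _ t31156.2.2.2.2.1⟩⟩, ⟨⟨H _ t31156.2.2.2.2.2.1, H _ t31156.2.2.2.2.2.2.1⟩, ⟨H _ t31156.2.2.2.2.2.2.2, H _ t31164.1⟩⟩⟩, ⟨⟨⟨H _ t31164.2.1, H _ t31164.2.2.1⟩, ⟨H _ t31164.2.2.2.1, H _ t31164.2.2.2.2.1⟩⟩, ⟨⟨H _ t31164.2.2.2.2.2.1, H _ t31164.2.2.2.2.2.2.1⟩,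 ⟨H _ t31164.2.2.2.2.2.2.2, ⟨H _ t31172.1, H _ t31172.2.1⟩⟩⟩⟩⟩, ⟨⟨⟨⟨H _ t31172.2.2.1, H _ t31172.2.2.2.1⟩, ⟨H _ t31172.2.2.2.2.1, H _ t31172.2.2.2.2.2.1⟩⟩, ⟨⟨H _ t31172.2.2.2.2.2.2.1, H _ t31172.2.2.2.2.2.2.2⟩, ⟨H _ t31180.1, H _ t31180.2.1⟩⟩⟩, ⟨⟨⟨H _ t31180.2.2.1, H _ t31180.2.2.2.1⟩, ⟨H _ t31180.2.2.2.2.1, H _ t31180.2.2.2.2.2.1⟩⟩, ⟨⟨H _ t31180.2.2.2.2.2.2.1, H _ t31180.2.2.2.2.2.2.2⟩, ⟨H _ t31188.1, ⟨H _ t31188.2.1, H _ t31188.2.2.1⟩⟩⟩⟩⟩⟩, ⟨⟨⟨⟨⟨H _ t31188.2.2.2.1, H _ t31188.2.2.2.2.1⟩, ⟨H _ t31188.2.2.2.2.2.1, H _ t31188.2.2.2.2.2.2.1⟩⟩, ⟨⟨H _ t31188.2.2.2.2.2.2.2, H _ t31196.1⟩, ⟨H _ t31196.2.1, H _ t31196.2.2.1⟩⟩⟩, ⟨⟨⟨H _ t31196.2.2.2.1, H _ t31196.2.2.2.2.1⟩, ⟨H _ t31196.2.2.2.2.2.1, H _ t31196.2.2.2.2.2.2.1⟩⟩, ⟨⟨H _ t31196.2.2.2.2.2.2.2, H _ t31204.1⟩, ⟨H _ t31204.2.1, ⟨H _ t31204.2.2.1, H _ t31204.2.2.2.1⟩⟩⟩⟩⟩, ⟨⟨⟨⟨H _ t31204.2.2.2.2.1, H _ t31204.2.2.2.2.2.1⟩, ⟨H _ t31204.2.2.2.2.2.2.1,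 H _ t31204.2.2.2.2.2.2.2⟩⟩, ⟨⟨H _ t31212.1, H _ t31212.2.1⟩, ⟨H _ t31212.2.2.1, ⟨H _ t31212.2.2.2.1, H _ t31212.2.2.2.2.1⟩⟩⟩⟩, ⟨⟨⟨H _ t31212.2.2.2.2.2.1, H _ t31212.2.2.2.2.2.2.1⟩, ⟨H _ t31212.2.2.2.2.2.2.2, H _ t31220.1⟩⟩, ⟨⟨H _ t31220.2.1, H _ t31220.2.2.1⟩, ⟨H _ t31220.2.2.2.1, ⟨H _ t31220.2.2.2.2.1, H _ t31220.2.2.2.2.2.1⟩⟩⟩⟩⟩⟩⟩, ⟨⟨⟨⟨⟨⟨H _ t31220.2.2.2.2.2.2.1, H _ t31220.2.2.2.2.2.2.2⟩, ⟨H _ t31228.1, H _ t31228.2.1⟩⟩, ⟨⟨H _ t31228.2.2.1, H _ t31228.2.2.2.1⟩, ⟨H _ t31228.2.2.2.2.1, H _ t31228.2.2.2.2.2.1⟩⟩⟩, ⟨⟨⟨H _ t31228.2.2.2.2.2.2.1, H _ t31228.2.2.2.2.2.2.2⟩, ⟨H _ t31236.1, H _ t31236.2.1⟩⟩, ⟨⟨H _ t31236.2.2.1, H _ t31236.2.2.2.1⟩, ⟨H _ t31236.2.2.2.2.1, ⟨H _ t31236.2.2.2.2.2.1, H _ t31236.2.2.2.2.2.2.1⟩⟩⟩⟩⟩, ⟨⟨⟨⟨H _ t31236.2.2.2.2.2.2.2, H _ t31244.1⟩, ⟨H _ t31244.2.1, H _ t31244.2.2.1⟩⟩, ⟨⟨H _ t31244.2.2.2.1, H _ t31244.2.2.2.2.1⟩, ⟨H _ t31244.2.2.2.2.2.1, H _ t31244.2.2.2.2.2.2.1⟩⟩⟩,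 ⟨⟨⟨H _ t31244.2.2.2.2.2.2.2, H _ t31252.1⟩, ⟨H _ t31252.2.1, H _ t31252.2.2.1⟩⟩, ⟨⟨H _ t31252.2.2.2.1, H _ t31252.2.2.2.2.1⟩, ⟨H _ t31252.2.2.2.2.2.1, ⟨H _ t31252.2.2.2.2.2.2.1, H _ t31252.2.2.2.2.2.2.2⟩⟩⟩⟩⟩⟩, ⟨⟨⟨⟨⟨H _ t31260.1, H _ t31260.2.1⟩, ⟨H _ t31260.2.2.1, H _ t31260.2.2.2.1⟩⟩, ⟨⟨H _ t31260.2.2.2.2.1, H _ t31260.2.2.2.2.2.1⟩, ⟨H _ t31260.2.2.2.2.2.2.1, H _ t31260.2.2.2.2.2.2.2⟩⟩⟩, ⟨⟨⟨H _ t31268.1, H _ t31268.2.1⟩, ⟨H _ t31268.2.2.1, H _ t31268.2.2.2.1⟩⟩, ⟨⟨H _ t31268.2.2.2.2.1, H _ t31268.2.2.2.2.2.1⟩, ⟨H _ t31268.2.2.2.2.2.2.1, ⟨H _ t31268.2.2.2.2.2.2.2, H _ t31276.1⟩⟩⟩⟩⟩, ⟨⟨⟨⟨H _ t31276.2.1, H _ t31276.2.2.1⟩, ⟨H _ t31276.2.2.2.1, H _ t31276.2.2.2.2.1⟩⟩, ⟨⟨H _ t31276.2.2.2.2.2.1, H _ t31276.2.2.2.2.2.2.1⟩, ⟨H _ t31276.2.2.2.2.2.2.2, ⟨H _ t31284.1, H _ t31284.2.1⟩⟩⟩⟩, ⟨⟨⟨H _ t31284.2.2.1, H _ t31284.2.2.2.1⟩, ⟨H _ t31284.2.2.2.2.1, H _ t31284.2.2.2.2.2.1⟩⟩, ⟨⟨H _ t31284.2.2.2.2.2.2.1,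 H _ t31284.2.2.2.2.2.2.2⟩, ⟨H _ t31292.1, ⟨H _ t31292.2.1, H _ t31292.2.2.1⟩⟩⟩⟩⟩⟩⟩⟩⟩, ⟨⟨⟨⟨⟨⟨⟨⟨H _ t31292.2.2.2.1, H _ t31292.2.2.2.2.1⟩, ⟨H _ t31292.2.2.2.2.2.1, H _ t31292.2.2.2.2.2.2.1⟩⟩, ⟨⟨H _ t31292.2.2.2.2.2.2.2, H _ t31300.1⟩, ⟨H _ t31300.2.1, H _ t31300.2.2.1⟩⟩⟩, ⟨⟨⟨H _ t31300.2.2.2.1, H _ t31300.2.2.2.2.1⟩, ⟨H _ t31300.2.2.2.2.2.1, H _ t31300.2.2.2.2.2.2.1⟩⟩, ⟨⟨H _ t31300.2.2.2.2.2.2.2, H _ t31308.1⟩, ⟨H _ t31308.2.1, ⟨H _ t31308.2.2.1, H _ t31308.2.2.2.1⟩⟩⟩⟩⟩, ⟨⟨⟨⟨H _ t31308.2.2.2.2.1, H _ t31308.2.2.2.2.2.1⟩, ⟨H _ t31308.2.2.2.2.2.2.1, H _ t31308.2.2.2.2.2.2.2⟩⟩, ⟨⟨H _ t31316.1, H _ t31316.2.1⟩, ⟨H _ t31316.2.2.1, H _ t31316.2.2.2.1⟩⟩⟩, ⟨⟨⟨H _ t31316.2.2.2.2.1, H _ t31316.2.2.2.2.2.1⟩, ⟨H _ t31316.2.2.2.2.2.2.1, H _ t31316.2.2.2.2.2.2.2⟩⟩, ⟨⟨H _ t31324.1, H _ t31324.2.1⟩, ⟨H _ t31324.2.2.1, ⟨H _ t31324.2.2.2.1, H _ t31324.2.2.2.2.1⟩⟩⟩⟩⟩⟩, ⟨⟨⟨⟨⟨H _ t31324.2.2.2.2.2.1, H _ t31324.2.2.2.2.2.2.1⟩,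 ⟨H _ t31324.2.2.2.2.2.2.2, H _ t31332.1⟩⟩, ⟨⟨H _ t31332.2.1, H _ t31332.2.2.1⟩, ⟨H _ t31332.2.2.2.1, H _ t31332.2.2.2.2.1⟩⟩⟩, ⟨⟨⟨H _ t31332.2.2.2.2.2.1, H _ t31332.2.2.2.2.2.2.1⟩, ⟨H _ t31332.2.2.2.2.2.2.2, H _ t31340.1⟩⟩, ⟨⟨H _ t31340.2.1, H _ t31340.2.2.1⟩, ⟨H _ t31340.2.2.2.1, ⟨H _ t31340.2.2.2.2.1, H _ t31340.2.2.2.2.2.1⟩⟩⟩⟩⟩, ⟨⟨⟨⟨H _ t31340.2.2.2.2.2.2.1, H _ t31340.2.2.2.2.2.2.2⟩, ⟨H _ t31348.1, H _ t31348.2.1⟩⟩, ⟨⟨H _ t31348.2.2.1, H _ t31348.2.2.2.1⟩, ⟨H _ t31348.2.2.2.2.1, H _ t31348.2.2.2.2.2.1⟩⟩⟩, ⟨⟨⟨H _ t31348.2.2.2.2.2.2.1, H _ t31348.2.2.2.2.2.2.2⟩, ⟨H _ t31356.1, H _ t31356.2.1⟩⟩, ⟨⟨H _ t31356.2.2.1, H _ t31356.2.2.2.1⟩, ⟨H _ t31356.2.2.2.2.1, ⟨H _ t31356.2.2.2.2.2.1, H _ t31356.2.2.2.2.2.2.1⟩⟩⟩⟩⟩⟩⟩, ⟨⟨⟨⟨⟨⟨H _ t31356.2.2.2.2.2.2.2, H _ t31364.1⟩, ⟨H _ t31364.2.1, H _ t31364.2.2.1⟩⟩, ⟨⟨H _ t31364.2.2.2.1, H _ t31364.2.2.2.2.1⟩, ⟨H _ t31364.2.2.2.2.2.1, H _ t31364.2.2.2.2.2.2.1⟩⟩⟩,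 ⟨⟨⟨H _ t31364.2.2.2.2.2.2.2, H _ t31372.1⟩, ⟨H _ t31372.2.1, H _ t31372.2.2.1⟩⟩, ⟨⟨H _ t31372.2.2.2.1, H _ t31372.2.2.2.2.1⟩, ⟨H _ t31372.2.2.2.2.2.1, ⟨H _ t31372.2.2.2.2.2.2.1, H _ t31372.2.2.2.2.2.2.2⟩⟩⟩⟩⟩, ⟨⟨⟨⟨H _ t31380.1, H _ t31380.2.1⟩, ⟨H _ t31380.2.2.1, H _ t31380.2.2.2.1⟩⟩, ⟨⟨H _ t31380.2.2.2.2.1, H _ t31380.2.2.2.2.2.1⟩, ⟨H _ t31380.2.2.2.2.2.2.1, H _ t31380.2.2.2.2.2.2.2⟩⟩⟩, ⟨⟨⟨H _ t31388.1, H _ t31388.2.1⟩, ⟨H _ t31388.2.2.1, H _ t31388.2.2.2.1⟩⟩, ⟨⟨H _ t31388.2.2.2.2.1, H _ t31388.2.2.2.2.2.1⟩, ⟨H _ t31388.2.2.2.2.2.2.1, ⟨H _ t31388.2.2.2.2.2.2.2, H _ t31396.1⟩⟩⟩⟩⟩⟩, ⟨⟨⟨⟨⟨H _ t31396.2.1, H _ t31396.2.2.1⟩, ⟨H _ t31396.2.2.2.1, H _ t31396.2.2.2.2.1⟩⟩, ⟨⟨H _ t31396.2.2.2.2.2.1, H _ t31396.2.2.2.2.2.2.1⟩, ⟨H _ t31396.2.2.2.2.2.2.2, H _ t31404.1⟩⟩⟩, ⟨⟨⟨H _ t31404.2.1, H _ t31404.2.2.1⟩, ⟨H _ t31404.2.2.2.1, H _ t31404.2.2.2.2.1⟩⟩, ⟨⟨H _ t31404.2.2.2.2.2.1, H _ t31404.2.2.2.2.2.2.1⟩,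 ⟨H _ t31404.2.2.2.2.2.2.2, ⟨H _ t31412.1, H _ t31412.2.1⟩⟩⟩⟩⟩, ⟨⟨⟨⟨H _ t31412.2.2.1, H _ t31412.2.2.2.1⟩, ⟨H _ t31412.2.2.2.2.1, H _ t31412.2.2.2.2.2.1⟩⟩, ⟨⟨H _ t31412.2.2.2.2.2.2.1, H _ t31412.2.2.2.2.2.2.2⟩, ⟨H _ t31420.1, ⟨H _ t31420.2.1, H _ t31420.2.2.1⟩⟩⟩⟩, ⟨⟨⟨H _ t31420.2.2.2.1, H _ t31420.2.2.2.2.1⟩, ⟨H _ t31420.2.2.2.2.2.1, H _ t31420.2.2.2.2.2.2.1⟩⟩, ⟨⟨H _ t31420.2.2.2.2.2.2.2, H _ t31428.1⟩, ⟨H _ t31428.2.1, ⟨H _ t31428.2.2.1, H _ t31428.2.2.2.1⟩⟩⟩⟩⟩⟩⟩⟩, ⟨⟨⟨⟨⟨⟨⟨H _ t31428.2.2.2.2.1, H _ t31428.2.2.2.2.2.1⟩, ⟨H _ t31428.2.2.2.2.2.2.1, H _ t31428.2.2.2.2.2.2.2⟩⟩, ⟨⟨H _ t31436.1, H _ t31436.2.1⟩, ⟨H _ t31436.2.2.1, H _ t31436.2.2.2.1⟩⟩⟩, ⟨⟨⟨H _ t31436.2.2.2.2.1, H _ t31436.2.2.2.2.2.1⟩, ⟨H _ t31436.2.2.2.2.2.2.1, H _ t31436.2.2.2.2.2.2.2⟩⟩, ⟨⟨H _ t31444.1, H _ t31444.2.1⟩, ⟨H _ t31444.2.2.1, ⟨H _ t31444.2.2.2.1, H _ t31444.2.2.2.2.1⟩⟩⟩⟩⟩, ⟨⟨⟨⟨H _ t31444.2.2.2.2.2.1, H _ t31444.2.2.2.2.2.2.1⟩,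 ⟨H _ t31444.2.2.2.2.2.2.2, H _ t31452.1⟩⟩, ⟨⟨H _ t31452.2.1, H _ t31452.2.2.1⟩, ⟨H _ t31452.2.2.2.1, H _ t31452.2.2.2.2.1⟩⟩⟩, ⟨⟨⟨H _ t31452.2.2.2.2.2.1, H _ t31452.2.2.2.2.2.2.1⟩, ⟨H _ t31452.2.2.2.2.2.2.2, H _ t31460.1⟩⟩, ⟨⟨H _ t31460.2.1, H _ t31460.2.2.1⟩, ⟨H _ t31460.2.2.2.1, ⟨H _ t31460.2.2.2.2.1, H _ t31460.2.2.2.2.2.1⟩⟩⟩⟩⟩⟩, ⟨⟨⟨⟨⟨H _ t31460.2.2.2.2.2.2.1, H _ t31460.2.2.2.2.2.2.2⟩, ⟨H _ t31468.1, H _ t31468.2.1⟩⟩, ⟨⟨H _ t31468.2.2.1, H _ t31468.2.2.2.1⟩, ⟨H _ t31468.2.2.2.2.1, H _ t31468.2.2.2.2.2.1⟩⟩⟩, ⟨⟨⟨H _ t31468.2.2.2.2.2.2.1, H _ t31468.2.2.2.2.2.2.2⟩, ⟨H _ t31476.1, H _ t31476.2.1⟩⟩, ⟨⟨H _ t31476.2.2.1, H _ t31476.2.2.2.1⟩, ⟨H _ t31476.2.2.2.2.1, ⟨H _ t31476.2.2.2.2.2.1, H _ t31476.2.2.2.2.2.2.1⟩⟩⟩⟩⟩, ⟨⟨⟨⟨H _ t31476.2.2.2.2.2.2.2, H _ t31484.1⟩, ⟨H _ t31484.2.1, H _ t31484.2.2.1⟩⟩, ⟨⟨H _ t31484.2.2.2.1, H _ t31484.2.2.2.2.1⟩, ⟨H _ t31484.2.2.2.2.2.1, ⟨H _ t31484.2.2.2.2.2.2.1, H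 _ t31484.2.2.2.2.2.2.2⟩⟩⟩⟩, ⟨⟨⟨H _ t31492.1, H _ t31492.2.1⟩, ⟨H _ t31492.2.2.1, H _ t31492.2.2.2.1⟩⟩, ⟨⟨H _ t31492.2.2.2.2.1, H _ t31492.2.2.2.2.2.1⟩, ⟨H _ t31492.2.2.2.2.2.2.1, ⟨H _ t31492.2.2.2.2.2.2.2, H _ t31500.1⟩⟩⟩⟩⟩⟩⟩, ⟨⟨⟨⟨⟨⟨H _ t31500.2.1, H _ t31500.2.2.1⟩, ⟨H _ t31500.2.2.2.1, H _ t31500.2.2.2.2.1⟩⟩, ⟨⟨H _ t31500.2.2.2.2.2.1, H _ t31500.2.2.2.2.2.2.1⟩, ⟨H _ t31500.2.2.2.2.2.2.2, H _ t31508.1⟩⟩⟩, ⟨⟨⟨H _ t31508.2.1, H _ t31508.2.2.1⟩, ⟨H _ t31508.2.2.2.1, H _ t31508.2.2.2.2.1⟩⟩, ⟨⟨H _ t31508.2.2.2.2.2.1, H _ t31508.2.2.2.2.2.2.1⟩, ⟨H _ t31508.2.2.2.2.2.2.2, ⟨H _ t31516.1, H _ t31516.2.1⟩⟩⟩⟩⟩, ⟨⟨⟨⟨H _ t31516.2.2.1, H _ t31516.2.2.2.1⟩, ⟨H _ t31516.2.2.2.2.1, H _ t31516.2.2.2.2.2.1⟩⟩, ⟨⟨H _ t31516.2.2.2.2.2.2.1, H _ t31516.2.2.2.2.2.2.2⟩, ⟨H _ t31524.1, H _ t31524.2.1⟩⟩⟩, ⟨⟨⟨H _ t31524.2.2.1, H _ t31524.2.2.2.1⟩, ⟨H _ t31524.2.2.2.2.1, H _ t31524.2.2.2.2.2.1⟩⟩, ⟨⟨H _ t31524.2.2.2.2.2.2.1,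 H _ t31524.2.2.2.2.2.2.2⟩, ⟨H _ t31532.1, ⟨H _ t31532.2.1, H _ t31532.2.2.1⟩⟩⟩⟩⟩⟩, ⟨⟨⟨⟨⟨H _ t31532.2.2.2.1, H _ t31532.2.2.2.2.1⟩, ⟨H _ t31532.2.2.2.2.2.1, H _ t31532.2.2.2.2.2.2.1⟩⟩, ⟨⟨H _ t31532.2.2.2.2.2.2.2, H _ t31540.1⟩, ⟨H _ t31540.2.1, H _ t31540.2.2.1⟩⟩⟩, ⟨⟨⟨H _ t31540.2.2.2.1, H _ t31540.2.2.2.2.1⟩, ⟨H _ t31540.2.2.2.2.2.1, H _ t31540.2.2.2.2.2.2.1⟩⟩, ⟨⟨H _ t31540.2.2.2.2.2.2.2, H _ t31548.1⟩, ⟨H _ t31548.2.1, ⟨H _ t31548.2.2.1, H _ t31548.2.2.2.1⟩⟩⟩⟩⟩, ⟨⟨⟨⟨H _ t31548.2.2.2.2.1, H _ t31548.2.2.2.2.2.1⟩, ⟨H _ t31548.2.2.2.2.2.2.1, H _ t31548.2.2.2.2.2.2.2⟩⟩, ⟨⟨H _ t31556.1, H _ t31556.2.1⟩, ⟨H _ t31556.2.2.1, ⟨H _ t31556.2.2.2.1, H _ t31556.2.2.2.2.1⟩⟩⟩⟩, ⟨⟨⟨H _ t31556.2.2.2.2.2.1, H _ t31556.2.2.2.2.2.2.1⟩, ⟨H _ t31556.2.2.2.2.2.2.2, H _ t31564.1⟩⟩, ⟨⟨H _ t31564.2.1, H _ t31564.2.2.1⟩, ⟨H _ t31564.2.2.2.1, ⟨H _ t31564.2.2.2.2.1, H _ t31564.2.2.2.2.2⟩⟩⟩⟩⟩⟩⟩⟩⟩⟩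

end Pool.Agent.MP_c853c5_nt.X.C4950
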