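import Pool.Agent.MP_c853c5_nt.X.C4950.Env
import Pool.Agent.MP_c853c5_nt.X.C4950.Tab

set_option autoImplicit false
set_option maxRecDepth 8192
set_option linter.all false

namespace Pool.Agent.MP_c853c5_nt.X.C4950

open Pool.Agent.MP_c853c5_nt.X

def t31570 : allY (E.wth T1) l31570 = true ∧
    allY (E.wth T1) l31571 = true ∧
    allY (E.wth T1) l31572 = true ∧
    allY (E.wth T1) l31573 = true ∧
    allY (E.wth T1) l31574 = true ∧
    allY (E.wth T1) l31575 = true ∧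
    allY (E.wth T1) l31576 = true ∧
    allY (E.wth T1) l31577 = true :=
  ⟨by decide +kernel, by decide +kernel, by decide +kernel, by decide +kernel, by decide +kernel, by decide +kernel, by decide +kernel, by decide +kernel⟩

def t31578 : allY (E.wth T1) l31578 = true ∧
    allY (E.wth T1) l31579 = true ∧
    allY (E.wth T1) l31580 = true ∧
    allY (E.wth T1) l31581 = true ∧
    allY (E.wth T1) l31582 = true ∧
    allY (E.wth T1) l31583 = true ∧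
    allY (E.wth T1) l31584 = true ∧
    allY (E.wth T1) l31585 = true :=
  ⟨by decide +kernel, by decide +kernel, by decide +kernel, by decide +kernel, by decide +kernel, by decide +kernel, by decide +kernel, by decide +kernel⟩

def t31586 : allY (E.wth T1) l31586 = true ∧
    allY (E.wth T1) l31587 = true ∧
    allY (E.wth T1) l31588 = true ∧
    allY (E.wth T1) l31589 = true ∧
    allY (E.wth T1) l31590 = true ∧
    allY (E.wth T1) l31591 = true ∧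
    allY (E.wth T1) l31592 = true ∧
    allY (E.wth T1) l31593 = true :=
  ⟨by decide +kernel, by decide +kernel, by decide +kernel, by decide +kernel, by decide +kernel, by decide +kernel, by decide +kernel, by decide +kernel⟩

def t31594 : allY (E.wth T1) l31594 = true ∧
    allY (E.wth T1) l31595 = true ∧
    allY (E.wth T1) l31596 = true ∧
    allY (E.wth T1) l31597 = true ∧
    allY (E.wth T1) l31598 = true ∧
    allY (E.wth T1) l31599 = true ∧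
    allY (E.wth T1) l31600 = true ∧
    allY (E.wth T1) l31601 = true :=
  ⟨by decide +kernel, by decide +kernel, by decide +kernel, by decide +kernel, by decide +kernel, by decide +kernel, by decide +kernel, by decide +kernel⟩

def t31602 : allY (E.wth T1) l31602 = true ∧
    allY (E.wth T1) l31603 = true ∧
    allY (E.wth T1) l31604 = true ∧
    allY (E.wth T1) l31605 = true ∧
    allY (E.wth T1) l31606 = true ∧
    allY (E.wth T1) l31607 = true ∧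
    allY (E.wth T1) l31608 = true ∧
    allY (E.wth T1) l31609 = true :=
  ⟨by decide +kernel, by decide +kernel, by decide +kernel, by decide +kernel, by decide +kernel, by decide +kernel, by decide +kernel, by decide +kernel⟩

def t31610 : allY (E.wth T1) l31610 = true ∧
    allY (E.wth T1) l31611 = true ∧
    allY (E.wth T1) l31612 = true ∧
    allY (E.wth T1) l31613 = true ∧
    allY (E.wth T1) l31614 = true ∧
    allY (E.wth T1) l31615 = true ∧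
    allY (E.wth T1) l31616 = true ∧
    allY (E.wth T1) l31617 = true :=
  ⟨by decide +kernel, by decide +kernel, by decide +kernel, by decide +kernel, by decide +kernel, by decide +kernel, by decide +kernel, by decide +kernel⟩

def t31618 : allY (E.wth T1) l31618 = true ∧
    allY (E.wth T1) l31619 = true ∧
    allY (E.wth T1) l31620 = true ∧
    allY (E.wth T1) l31621 = true ∧
    allY (E.wth T1) l31622 = true ∧
    allY (E.wth T1) l31623 = true ∧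
    allY (E.wth T1) l31624 = true ∧
    allY (E.wth T1) l31625 = true :=
  ⟨by decide +kernel, by decide +kernel, by decide +kernel, by decide +kernel, by decide +kernel, by decide +kernel, by decide +kernel, by decide +kernel⟩

def t31626 : allY (E.wth T1) l31626 = true ∧
    allY (E.wth T1) l31627 = true ∧
    allY (E.wth T1) l31628 = true ∧
    allY (E.wth T1) l31629 = true ∧
    allY (E.wth T1) l31630 = true ∧
    allY (E.wth T1) l31631 = true ∧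
    allY (E.wth T1) l31632 = true ∧
    allY (E.wth T1) l31633 = true :=
  ⟨by decide +kernel, by decide +kernel, by decide +kernel, by decide +kernel, by decide +kernel, by decide +kernel, by decide +kernel, by decide +kernel⟩

def t31634 : allY (E.wth T1) l31634 = true ∧
    allY (E.wth T1) l31635 = true ∧
    allY (E.wth T1) l31636 = true ∧
    allY (E.wth T1) l31637 = true ∧
    allY (E.wth T1) l31638 = true ∧
    allY (E.wth T1) l31639 = true ∧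
    allY (E.wth T1) l31640 = true ∧
    allY (E.wth T1) l31641 = true :=
  ⟨by decide +kernel, by decide +kernel, by decide +kernel, by decide +kernel, by decide +kernel, by decide +kernel, by decide +kernel, by decide +kernel⟩

def t31642 : allY (E.wth T1) l31642 = true ∧
    allY (E.wth T1) l31643 = true ∧
    allY (E.wth T1) l31644 = true ∧
    allY (E.wth T1) l31645 = true ∧
    allY (E.wth T1) l31646 = true ∧
    allY (E.wth T1) l31647 = true ∧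
    allY (E.wth T1) l31648 = true ∧
    allY (E.wth T1) l31649 = true :=
  ⟨by decide +kernel, by decide +kernel, by decide +kernel, by decide +kernel, by decide +kernel, by decide +kernel, by decide +kernel, by decide +kernel⟩

def t31650 : allY (E.wth T1) l31650 = true ∧
    allY (E.wth T1) l31651 = true ∧
    allY (E.wth T1) l31652 = true ∧
    allY (E.wth T1) l31653 = true ∧
    allY (E.wth T1) l31654 = true ∧
    allY (E.wth T1) l31655 = true ∧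
    allY (E.wth T1) l31656 = true ∧
    allY (E.wth T1) l31657 = true :=
  ⟨by decide +kernel, by decide +kernel, by decide +kernel, by decide +kernel, by decide +kernel, by decide +kernel, by decide +kernel, by decide +kernel⟩

def t31658 : allY (E.wth T1) l31658 = true ∧
    allY (E.wth T1) l31659 = true ∧
    allY (E.wth T1) l31660 = true ∧
    allY (E.wth T1) l31661 = true ∧
    allY (E.wth T1) l31662 = true ∧
    allY (E.wth T1) l31663 = true ∧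
    allY (E.wth T1) l31664 = true ∧
    allY (E.wth T1) l31665 = true :=
  ⟨by decide +kernel, by decide +kernel, by decide +kernel, by decide +kernel, by decide +kernel, by decide +kernel, by decide +kernel, by decide +kernel⟩

def t31666 : allY (E.wth T1) l31666 = true ∧
    allY (E.wth T1) l31667 = true ∧
    allY (E.wth T1) l31668 = true ∧
    allY (E.wth T1) l31669 = true ∧
    allY (E.wth T1) l31670 = true ∧
    allY (E.wth T1) l31671 = true ∧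
    allY (E.wth T1) l31672 = true ∧
    allY (E.wth T1) l31673 = true :=
  ⟨by decide +kernel, by decide +kernel, by decide +kernel, by decide +kernel, by decide +kernel, by decide +kernel, by decide +kernel, by decide +kernel⟩

def t31674 : allY (E.wth T1) l31674 = true ∧
    allY (E.wth T1) l31675 = true ∧
    allY (E.wth T1) l31676 = true ∧
    allY (E.wth T1) l31677 = true ∧
    allY (E.wth T1) l31678 = true ∧
    allY (E.wth T1) l31679 = true ∧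
    allY (E.wth T1) l31680 = true ∧
    allY (E.wth T1) l31681 = true :=
  ⟨by decide +kernel, by decide +kernel, by decide +kernel, by decide +kernel, by decide +kernel, by decide +kernel, by decide +kernel, by decide +kernel⟩

def t31682 : allY (E.wth T1) l31682 = true ∧
    allY (E.wth T1) l31683 = true ∧
    allY (E.wth T1) l31684 = true ∧
    allY (E.wth T1) l31685 = true ∧
    allY (E.wth T1) l31686 = true ∧
    allY (E.wth T1) l31687 = true ∧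
    allY (E.wth T1) l31688 = true ∧
    allY (E.wth T1) l31689 = true :=
  ⟨by decide +kernel, by decide +kernel, by decide +kernel, by decide +kernel, by decide +kernel, by decide +kernel, by decide +kernel, by decide +kernel⟩

def t31690 : allY (E.wth T1) l31690 = true ∧
    allY (E.wth T1) l31691 = true ∧
    allY (E.wth T1) l31692 = true ∧
    allY (E.wth T1) l31693 = true ∧
    allY (E.wth T1) l31694 = true ∧
    allY (E.wth T1) l31695 = true ∧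
    allY (E.wth T1) l31696 = true ∧
    allY (E.wth T1) l31697 = true :=
  ⟨by decide +kernel, by decide +kernel, by decide +kernel, by decide +kernel, by decide +kernel, by decide +kernel, by decide +kernel, by decide +kernel⟩

def t31698 : allY (E.wth T1) l31698 = true ∧
    allY (E.wth T1) l31699 = true ∧
    allY (E.wth T1) l31700 = true ∧
    allY (E.wth T1) l31701 = true ∧
    allY (E.wth T1) l31702 = true ∧
    allY (E.wth T1) l31703 = true ∧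
    allY (E.wth T1) l31704 = true ∧
    allY (E.wth T1) l31705 = true :=
  ⟨by decide +kernel, by decide +kernel, by decide +kernel, by decide +kernel, by decide +kernel, by decide +kernel, by decide +kernel, by decide +kernel⟩

def t31706 : allY (E.wth T1) l31706 = true ∧
    allY (E.wth T1) l31707 = true ∧
    allY (E.wth T1) l31708 = true ∧
    allY (E.wth T1) l31709 = true ∧
    allY (E.wth T1) l31710 = true ∧
    allY (E.wth T1) l31711 = true ∧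
    allY (E.wth T1) l31712 = true ∧
    allY (E.wth T1) l31713 = true :=
  ⟨by decide +kernel, by decide +kernel, by decide +kernel, by decide +kernel, by decide +kernel, by decide +kernel, by decide +kernel, by decide +kernel⟩

def t31714 : allY (E.wth T1) l31714 = true ∧
    allY (E.wth T1) l31715 = true ∧
    allY (E.wth T1) l31716 = true ∧
    allY (E.wth T1) l31717 = true ∧
    allY (E.wth T1) l31718 = true ∧
    allY (E.wth T1) l31719 = true ∧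
    allY (E.wth T1) l31720 = true ∧
    allY (E.wth T1) l31721 = true :=
  ⟨by decide +kernel, by decide +kernel, by decide +kernel, by decide +kernel, by decide +kernel, by decide +kernel, by decide +kernel, by decide +kernel⟩

def t31722 : allY (E.wth T1) l31722 = true ∧
    allY (E.wth T1) l31723 = true ∧
    allY (E.wth T1) l31724 = true ∧
    allY (E.wth T1) l31725 = true ∧
    allY (E.wth T1) l31726 = true ∧
    allY (E.wth T1) l31727 = true ∧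
    allY (E.wth T1) l31728 = true ∧
    allY (E.wth T1) l31729 = true :=
  ⟨by decide +kernel, by decide +kernel, by decide +kernel, by decide +kernel, by decide +kernel, by decide +kernel, by decide +kernel, by decide +kernel⟩

def t31730 : allY (E.wth T1) l31730 = true ∧
    allY (E.wth T1) l31731 = true ∧
    allY (E.wth T1) l31732 = true ∧
    allY (E.wth T1) l31733 = true ∧
    allY (E.wth T1) l31734 = true ∧
    allY (E.wth T1) l31735 = true ∧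
    allY (E.wth T1) l31736 = true ∧
    allY (E.wth T1) l31737 = true :=
  ⟨by decide +kernel, by decide +kernel, by decide +kernel, by decide +kernel, by decide +kernel, by decide +kernel, by decide +kernel, by decide +kernel⟩

def t31738 : allY (E.wth T1) l31738 = true ∧
    allY (E.wth T1) l31739 = true ∧
    allY (E.wth T1) l31740 = true ∧
    allY (E.wth T1) l31741 = true ∧
    allY (E.wth T1) l31742 = true ∧
    allY (E.wth T1) l31743 = true ∧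
    allY (E.wth T1) l31744 = true ∧
    allY (E.wth T1) l31745 = true :=
  ⟨by decide +kernel, by decide +kernel, by decide +kernel, by decide +kernel, by decide +kernel, by decide +kernel, by decide +kernel, by decide +kernel⟩

def t31746 : allY (E.wth T1) l31746 = true ∧
    allY (E.wth T1) l31747 = true ∧
    allY (E.wth T1) l31748 = true ∧
    allY (E.wth T1) l31749 = true ∧
    allY (E.wth T1) l31750 = true ∧
    allY (E.wth T1) l31751 = true ∧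
    allY (E.wth T1) l31752 = true ∧
    allY (E.wth T1) l31753 = true :=
  ⟨by decide +kernel, by decide +kernel, by decide +kernel, by decide +kernel, by decide +kernel, by decide +kernel, by decide +kernel, by decide +kernel⟩

def t31754 : allY (E.wth T1) l31754 = true ∧
    allY (E.wth T1) l31755 = true ∧
    allY (E.wth T1) l31756 = true ∧
    allY (E.wth T1) l31757 = true ∧
    allY (E.wth T1) l31758 = true ∧
    allY (E.wth T1) l31759 = true ∧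
    allY (E.wth T1) l31760 = true ∧
    allY (E.wth T1) l31761 = true :=
  ⟨by decide +kernel, by decide +kernel, by decide +kernel, by decide +kernel, by decide +kernel, by decide +kernel, by decide +kernel, by decide +kernel⟩

def t31762 : allY (E.wth T1) l31762 = true ∧
    allY (E.wth T1) l31763 = true ∧
    allY (E.wth T1) l31764 = true ∧
    allY (E.wth T1) l31765 = true ∧
    allY (E.wth T1) l31766 = true ∧
    allY (E.wth T1) l31767 = true ∧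
    allY (E.wth T1) l31768 = true ∧
    allY (E.wth T1) l31769 = true :=
  ⟨by decide +kernel, by decide +kernel, by decide +kernel, by decide +kernel, by decide +kernel, by decide +kernel, by decide +kernel, by decide +kernel⟩

def t31770 : allY (E.wth T1) l31770 = true ∧
    allY (E.wth T1) l31771 = true ∧
    allY (E.wth T1) l31772 = true ∧
    allY (E.wth T1) l31773 = true ∧
    allY (E.wth T1) l31774 = true ∧
    allY (E.wth T1) l31775 = true ∧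
    allY (E.wth T1) l31776 = true ∧
    allY (E.wth T1) l31777 = true :=
  ⟨by decide +kernel, by decide +kernel, by decide +kernel, by decide +kernel, by decide +kernel, by decide +kernel, by decide +kernel, by decide +kernel⟩

def t31778 : allY (E.wth T1) l31778 = true ∧
    allY (E.wth T1) l31779 = true ∧
    allY (E.wth T1) l31780 = true ∧
    allY (E.wth T1) l31781 = true ∧
    allY (E.wth T1) l31782 = true ∧
    allY (E.wth T1) l31783 = true ∧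
    allY (E.wth T1) l31784 = true ∧
    allY (E.wth T1) l31785 = true :=
  ⟨by decide +kernel, by decide +kernel, by decide +kernel, by decide +kernel, by decide +kernel, by decide +kernel, by decide +kernel, by decide +kernel⟩

def t31786 : allY (E.wth T1) l31786 = true ∧
    allY (E.wth T1) l31787 = true ∧
    allY (E.wth T1) l31788 = true ∧
    allY (E.wth T1) l31789 = true ∧
    allY (E.wth T1) l31790 = true ∧
    allY (E.wth T1) l31791 = true ∧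
    allY (E.wth T1) l31792 = true ∧
    allY (E.wth T1) l31793 = true :=
  ⟨by decide +kernel, by decide +kernel, by decide +kernel, by decide +kernel, by decide +kernel, by decide +kernel, by decide +kernel, by decide +kernel⟩

def t31794 : allY (E.wth T1) l31794 = true ∧
    allY (E.wth T1) l31795 = true ∧
    allY (E.wth T1) l31796 = true ∧
    allY (E.wth T1) l31797 = true ∧
    allY (E.wth T1) l31798 = true ∧
    allY (E.wth T1) l31799 = true ∧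
    allY (E.wth T1) l31800 = true ∧
    allY (E.wth T1) l31801 = true :=
  ⟨by decide +kernel, by decide +kernel, by decide +kernel, by decide +kernel, by decide +kernel, by decide +kernel, by decide +kernel, by decide +kernel⟩

def t31802 : allY (E.wth T1) l31802 = true ∧
    allY (E.wth T1) l31803 = true ∧
    allY (E.wth T1) l31804 = true ∧
    allY (E.wth T1) l31805 = true ∧
    allY (E.wth T1) l31806 = true ∧
    allY (E.wth T1) l31807 = true ∧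
    allY (E.wth T1) l31808 = true ∧
    allY (E.wth T1) l31809 = true :=
  ⟨by decide +kernel, by decide +kernel, by decide +kernel, by decide +kernel, by decide +kernel, by decide +kernel, by decide +kernel, by decide +kernel⟩

def t31810 : allY (E.wth T1) l31810 = true ∧
    allY (E.wth T1) l31811 = true ∧
    allY (E.wth T1) l31812 = true ∧
    allY (E.wth T1) l31813 = true ∧
    allY (E.wth T1) l31814 = true ∧
    allY (E.wth T1) l31815 = true ∧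
    allY (E.wth T1) l31816 = true ∧
    allY (E.wth T1) l31817 = true :=
  ⟨by decide +kernel, by decide +kernel, by decide +kernel, by decide +kernel, by decide +kernel, by decide +kernel, by decide +kernel, by decide +kernel⟩

def t31818 : allY (E.wth T1) l31818 = true ∧
    allY (E.wth T1) l31819 = true ∧
    allY (E.wth T1) l31820 = true ∧
    allY (E.wth T1) l31821 = true ∧
    allY (E.wth T1) l31822 = true ∧
    allY (E.wth T1) l31823 = true ∧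
    allY (E.wth T1) l31824 = true ∧
    allY (E.wth T1) l31825 = true :=
  ⟨by decide +kernel, by decide +kernel, by decide +kernel, by decide +kernel, by decide +kernel, by decide +kernel, by decide +kernel, by decide +kernel⟩

def t31826 : allY (E.wth T1) l31826 = true ∧
    allY (E.wth T1) l31827 = true ∧
    allY (E.wth T1) l31828 = true ∧
    allY (E.wth T1) l31829 = true ∧
    allY (E.wth T1) l31830 = true ∧
    allY (E.wth T1) l31831 = true ∧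
    allY (E.wth T1) l31832 = true ∧
    allY (E.wth T1) l31833 = true :=
  ⟨by decide +kernel, by decide +kernel, by decide +kernel, by decide +kernel, by decide +kernel, by decide +kernel, by decide +kernel, by decide +kernel⟩

def t31834 : allY (E.wth T1) l31834 = true ∧
    allY (E.wth T1) l31835 = true ∧
    allY (E.wth T1) l31836 = true ∧
    allY (E.wth T1) l31837 = true ∧
    allY (E.wth T1) l31838 = true ∧
    allY (E.wth T1) l31839 = true ∧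
    allY (E.wth T1) l31840 = true ∧
    allY (E.wth T1) l31841 = true :=
  ⟨by decide +kernel, by decide +kernel, by decide +kernel, by decide +kernel, by decide +kernel, by decide +kernel, by decide +kernel, by decide +kernel⟩

def t31842 : allY (E.wth T1) l31842 = true ∧
    allY (E.wth T1) l31843 = true ∧
    allY (E.wth T1) l31844 = true ∧
    allY (E.wth T1) l31845 = true ∧
    allY (E.wth T1) l31846 = true ∧
    allY (E.wth T1) l31847 = true ∧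
    allY (E.wth T1) l31848 = true ∧
    allY (E.wth T1) l31849 = true :=
  ⟨by decide +kernel, by decide +kernel, by decide +kernel, by decide +kernel, by decide +kernel, by decide +kernel, by decide +kernel, by decide +kernel⟩

def t31850 : allY (E.wth T1) l31850 = true ∧
    allY (E.wth T1) l31851 = true ∧
    allY (E.wth T1) l31852 = true ∧
    allY (E.wth T1) l31853 = true ∧
    allY (E.wth T1) l31854 = true ∧
    allY (E.wth T1) l31855 = true ∧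
    allY (E.wth T1) l31856 = true ∧
    allY (E.wth T1) l31857 = true :=
  ⟨by decide +kernel, by decide +kernel, by decide +kernel, by decide +kernel, by decide +kernel, by decide +kernel, by decide +kernel, by decide +kernel⟩

def t31858 : allY (E.wth T1) l31858 = true ∧
    allY (E.wth T1) l31859 = true ∧
    allY (E.wth T1) l31860 = true ∧
    allY (E.wth T1) l31861 = true ∧
    allY (E.wth T1) l31862 = true ∧
    allY (E.wth T1) l31863 = true ∧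
    allY (E.wth T1) l31864 = true ∧
    allY (E.wth T1) l31865 = true :=
  ⟨by decide +kernel, by decide +kernel, by decide +kernel, by decide +kernel, by decide +kernel, by decide +kernel, by decide +kernel, by decide +kernel⟩

def t31866 : allY (E.wth T1) l31866 = true ∧
    allY (E.wth T1) l31867 = true ∧
    allY (E.wth T1) l31868 = true ∧
    allY (E.wth T1) l31869 = true ∧
    allY (E.wth T1) l31870 = true ∧
    allY (E.wth T1) l31871 = true ∧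
    allY (E.wth T1) l31872 = true ∧
    allY (E.wth T1) l31873 = true :=
  ⟨by decide +kernel, by decide +kernel, by decide +kernel, by decide +kernel, by decide +kernel, by decide +kernel, by decide +kernel, by decide +kernel⟩

def t31874 : allY (E.wth T1) l31874 = true ∧
    allY (E.wth T1) l31875 = true ∧
    allY (E.wth T1) l31876 = true ∧
    allY (E.wth T1) l31877 = true ∧
    allY (E.wth T1) l31878 = true ∧
    allY (E.wth T1) l31879 = true ∧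
    allY (E.wth T1) l31880 = true ∧
    allY (E.wth T1) l31881 = true :=
  ⟨by decide +kernel, by decide +kernel, by decide +kernel, by decide +kernel, by decide +kernel, by decide +kernel, by decide +kernel, by decide +kernel⟩

def t31882 : allY (E.wth T1) l31882 = true ∧
    allY (E.wth T1) l31883 = true ∧
    allY (E.wth T1) l31884 = true ∧
    allY (E.wth T1) l31885 = true ∧
    allY (E.wth T1) l31886 = true ∧
    allY (E.wth T1) l31887 = true ∧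
    allY (E.wth T1) l31888 = true ∧
    allY (E.wth T1) l31889 = true :=
  ⟨by decide +kernel, by decide +kernel, by decide +kernel, by decide +kernel, by decide +kernel, by decide +kernel, by decide +kernel, by decide +kernel⟩

def t31890 : allY (E.wth T1) l31890 = true ∧
    allY (E.wth T1) l31891 = true ∧
    allY (E.wth T1) l31892 = true ∧
    allY (E.wth T1) l31893 = true ∧
    allY (E.wth T1) l31894 = true ∧
    allY (E.wth T1) l31895 = true ∧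
    allY (E.wth T1) l31896 = true ∧
    allY (E.wth T1) l31897 = true :=
  ⟨by decide +kernel, by decide +kernel, by decide +kernel, by decide +kernel, by decide +kernel, by decide +kernel, by decide +kernel, by decide +kernel⟩

def t31898 : allY (E.wth T1) l31898 = true ∧
    allY (E.wth T1) l31899 = true ∧
    allY (E.wth T1) l31900 = true ∧
    allY (E.wth T1) l31901 = true ∧
    allY (E.wth T1) l31902 = true ∧
    allY (E.wth T1) l31903 = true ∧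
    allY (E.wth T1) l31904 = true ∧
    allY (E.wth T1) l31905 = true :=
  ⟨by decide +kernel, by decide +kernel, by decide +kernel, by decide +kernel, by decide +kernel, by decide +kernel, by decide +kernel, by decide +kernel⟩

def t31906 : allY (E.wth T1) l31906 = true ∧
    allY (E.wth T1) l31907 = true ∧
    allY (E.wth T1) l31908 = true ∧
    allY (E.wth T1) l31909 = true ∧
    allY (E.wth T1) l31910 = true ∧
    allY (E.wth T1) l31911 = true ∧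
    allY (E.wth T1) l31912 = true ∧
    allY (E.wth T1) l31913 = true :=
  ⟨by decide +kernel, by decide +kernel, by decide +kernel, by decide +kernel, by decide +kernel, by decide +kernel, by decide +kernel, by decide +kernel⟩

def t31914 : allY (E.wth T1) l31914 = true ∧
    allY (E.wth T1) l31915 = true ∧
    allY (E.wth T1) l31916 = true ∧
    allY (E.wth T1) l31917 = true ∧
    allY (E.wth T1) l31918 = true ∧
    allY (E.wth T1) l31919 = true ∧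
    allY (E.wth T1) l31920 = true ∧
    allY (E.wth T1) l31921 = true :=
  ⟨by decide +kernel, by decide +kernel, by decide +kernel, by decide +kernel, by decide +kernel, by decide +kernel, by decide +kernel, by decide +kernel⟩

def t31922 : allY (E.wth T1) l31922 = true ∧
    allY (E.wth T1) l31923 = true ∧
    allY (E.wth T1) l31924 = true ∧
    allY (E.wth T1) l31925 = true ∧
    allY (E.wth T1) l31926 = true ∧
    allY (E.wth T1) l31927 = true ∧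
    allY (E.wth T1) l31928 = true ∧
    allY (E.wth T1) l31929 = true :=
  ⟨by decide +kernel, by decide +kernel, by decide +kernel, by decide +kernel, by decide +kernel, by decide +kernel, by decide +kernel, by decide +kernel⟩

def t31930 : allY (E.wth T1) l31930 = true ∧
    allY (E.wth T1) l31931 = true ∧
    allY (E.wth T1) l31932 = true ∧
    allY (E.wth T1) l31933 = true ∧
    allY (E.wth T1) l31934 = true ∧
    allY (E.wth T1) l31935 = true ∧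
    allY (E.wth T1) l31936 = true ∧
    allY (E.wth T1) l31937 = true :=
  ⟨by decide +kernel, by decide +kernel, by decide +kernel, by decide +kernel, by decide +kernel, by decide +kernel, by decide +kernel, by decide +kernel⟩

def t31938 : allY (E.wth T1) l31938 = true ∧
    allY (E.wth T1) l31939 = true ∧
    allY (E.wth T1) l31940 = true ∧
    allY (E.wth T1) l31941 = true ∧
    allY (E.wth T1) l31942 = true ∧
    allY (E.wth T1) l31943 = true ∧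
    allY (E.wth T1) l31944 = true ∧
    allY (E.wth T1) l31945 = true :=
  ⟨by decide +kernel, by decide +kernel, by decide +kernel, by decide +kernel, by decide +kernel, by decide +kernel, by decide +kernel, by decide +kernel⟩

def t31946 : allY (E.wth T1) l31946 = true ∧
    allY (E.wth T1) l31947 = true ∧
    allY (E.wth T1) l31948 = true ∧
    allY (E.wth T1) l31949 = true ∧
    allY (E.wth T1) l31950 = true ∧
    allY (E.wth T1) l31951 = true ∧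
    allY (E.wth T1) l31952 = true ∧
    allY (E.wth T1) l31953 = true :=
  ⟨by decide +kernel, by decide +kernel, by decide +kernel, by decide +kernel, by decide +kernel, by decide +kernel, by decide +kernel, by decide +kernel⟩

def t31954 : allY (E.wth T1) l31954 = true ∧
    allY (E.wth T1) l31955 = true ∧
    allY (E.wth T1) l31956 = true ∧
    allY (E.wth T1) l31957 = true ∧
    allY (E.wth T1) l31958 = true ∧
    allY (E.wth T1) l31959 = true ∧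
    allY (E.wth T1) l31960 = true ∧
    allY (E.wth T1) l31961 = true :=
  ⟨by decide +kernel, by decide +kernel, by decide +kernel, by decide +kernel, by decide +kernel, by decide +kernel, by decide +kernel, by decide +kernel⟩

def t31962 : allY (E.wth T1) l31962 = true ∧
    allY (E.wth T1) l31963 = true ∧
    allY (E.wth T1) l31964 = true ∧
    allY (E.wth T1) l31965 = true ∧
    allY (E.wth T1) l31966 = true ∧
    allY (E.wth T1) l31967 = true ∧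
    allY (E.wth T1) l31968 = true ∧
    allY (E.wth T1) l31969 = true :=
  ⟨by decide +kernel, by decide +kernel, by decide +kernel, by decide +kernel, by decide +kernel, by decide +kernel, by decide +kernel, by decide +kernel⟩

def t31970 : allY (E.wth T1) l31970 = true ∧
    allY (E.wth T1) l31971 = true ∧
    allY (E.wth T1) l31972 = true ∧
    allY (E.wth T1) l31973 = true ∧
    allY (E.wth T1) l31974 = true ∧
    allY (E.wth T1) l31975 = true ∧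
    allY (E.wth T1) l31976 = true ∧
    allY (E.wth T1) l31977 = true :=
  ⟨by decide +kernel, by decide +kernel, by decide +kernel, by decide +kernel, by decide +kernel, by decide +kernel, by decide +kernel, by decide +kernel⟩

def t31978 : allY (E.wth T1) l31978 = true ∧
    allY (E.wth T1) l31979 = true ∧
    allY (E.wth T1) l31980 = true ∧
    allY (E.wth T1) l31981 = true ∧
    allY (E.wth T1) l31982 = true ∧
    allY (E.wth T1) l31983 = true ∧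
    allY (E.wth T1) l31984 = true ∧
    allY (E.wth T1) l31985 = true :=
  ⟨by decide +kernel, by decide +kernel, by decide +kernel, by decide +kernel, by decide +kernel, by decide +kernel, by decide +kernel, by decide +kernel⟩

def t31986 : allY (E.wth T1) l31986 = true ∧
    allY (E.wth T1) l31987 = true ∧
    allY (E.wth T1) l31988 = true ∧
    allY (E.wth T1) l31989 = true ∧
    allY (E.wth T1) l31990 = true ∧
    allY (E.wth T1) l31991 = true ∧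
    allY (E.wth T1) l31992 = true ∧
    allY (E.wth T1) l31993 = true :=
  ⟨by decide +kernel, by decide +kernel, by decide +kernel, by decide +kernel, by decide +kernel, by decide +kernel, by decide +kernel, by decide +kernel⟩

def t31994 : allY (E.wth T1) l31994 = true ∧
    allY (E.wth T1) l31995 = true ∧
    allY (E.wth T1) l31996 = true ∧
    allY (E.wth T1) l31997 = true ∧
    allY (E.wth T1) l31998 = true ∧
    allY (E.wth T1) l31999 = true ∧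
    allY (E.wth T1) l32000 = true ∧
    allY (E.wth T1) l32001 = true :=
  ⟨by decide +kernel, by decide +kernel, by decide +kernel, by decide +kernel, by decide +kernel, by decide +kernel, by decide +kernel, by decide +kernel⟩

def t32002 : allY (E.wth T1) l32002 = true ∧
    allY (E.wth T1) l32003 = true ∧
    allY (E.wth T1) l32004 = true ∧
    allY (E.wth T1) l32005 = true ∧
    allY (E.wth T1) l32006 = true ∧
    allY (E.wth T1) l32007 = true ∧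
    allY (E.wth T1) l32008 = true ∧
    allY (E.wth T1) l32009 = true :=
  ⟨by decide +kernel, by decide +kernel, by decide +kernel, by decide +kernel, by decide +kernel, by decide +kernel, by decide +kernel, by decide +kernel⟩

def t32010 : allY (E.wth T1) l32010 = true ∧
    allY (E.wth T1) l32011 = true ∧
    allY (E.wth T1) l32012 = true ∧
    allY (E.wth T1) l32013 = true ∧
    allY (E.wth T1) l32014 = true ∧
    allY (E.wth T1) l32015 = true ∧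
    allY (E.wth T1) l32016 = true ∧
    allY (E.wth T1) l32017 = true :=
  ⟨by decide +kernel, by decide +kernel, by decide +kernel, by decide +kernel, by decide +kernel, by decide +kernel, by decide +kernel, by decide +kernel⟩

def t32018 : allY (E.wth T1) l32018 = true ∧
    allY (E.wth T1) l32019 = true ∧
    allY (E.wth T1) l32020 = true ∧
    allY (E.wth T1) l32021 = true ∧
    allY (E.wth T1) l32022 = true ∧
    allY (E.wth T1) l32023 = true ∧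
    allY (E.wth T1) l32024 = true ∧
    allY (E.wth T1) l32025 = true :=
  ⟨by decide +kernel, by decide +kernel, by decide +kernel, by decide +kernel, by decide +kernel, by decide +kernel, by decide +kernel, by decide +kernel⟩

def t32026 : allY (E.wth T1) l32026 = true ∧
    allY (E.wth T1) l32027 = true ∧
    allY (E.wth T1) l32028 = true ∧
    allY (E.wth T1) l32029 = true ∧
    allY (E.wth T1) l32030 = true ∧
    allY (E.wth T1) l32031 = true ∧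
    allY (E.wth T1) l32032 = true ∧
    allY (E.wth T1) l32033 = true :=
  ⟨by decide +kernel, by decide +kernel, by decide +kernel, by decide +kernel, by decide +kernel, by decide +kernel, by decide +kernel, by decide +kernel⟩

def t32034 : allY (E.wth T1) l32034 = true ∧
    allY (E.wth T1) l32035 = true ∧
    allY (E.wth T1) l32036 = true ∧
    allY (E.wth T1) l32037 = true ∧
    allY (E.wth T1) l32038 = true ∧
    allY (E.wth T1) l32039 = true ∧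
    allY (E.wth T1) l32040 = true ∧
    allY (E.wth T1) l32041 = true :=
  ⟨by decide +kernel, by decide +kernel, by decide +kernel, by decide +kernel, by decide +kernel, by decide +kernel, by decide +kernel, by decide +kernel⟩

def t32042 : allY (E.wth T1) l32042 = true ∧
    allY (E.wth T1) l32043 = true ∧
    allY (E.wth T1) l32044 = true ∧
    allY (E.wth T1) l32045 = true ∧
    allY (E.wth T1) l32046 = true ∧
    allY (E.wth T1) l32047 = true ∧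
    allY (E.wth T1) l32048 = true ∧
    allY (E.wth T1) l32049 = true :=
  ⟨by decide +kernel, by decide +kernel, by decide +kernel, by decide +kernel, by decide +kernel, by decide +kernel, by decide +kernel, by decide +kernel⟩

def t32050 : allY (E.wth T1) l32050 = true ∧
    allY (E.wth T1) l32051 = true ∧
    allY (E.wth T1) l32052 = true ∧
    allY (E.wth T1) l32053 = true ∧
    allY (E.wth T1) l32054 = true ∧
    allY (E.wth T1) l32055 = true ∧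
    allY (E.wth T1) l32056 = true ∧
    allY (E.wth T1) l32057 = true :=
  ⟨by decide +kernel, by decide +kernel, by decide +kernel, by decide +kernel, by decide +kernel, by decide +kernel, by decide +kernel, by decide +kernel⟩

def t32058 : allY (E.wth T1) l32058 = true ∧
    allY (E.wth T1) l32059 = true ∧
    allY (E.wth T1) l32060 = true ∧
    allY (E.wth T1) l32061 = true ∧
    allY (E.wth T1) l32062 = true ∧
    allY (E.wth T1) l32063 = true ∧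
    allY (E.wth T1) l32064 = true ∧
    allY (E.wth T1) l32065 = true :=
  ⟨by decide +kernel, by decide +kernel, by decide +kernel, by decide +kernel, by decide +kernel, by decide +kernel, by decide +kernel, by decide +kernel⟩

def t32066 : allY (E.wth T1) l32066 = true ∧
    allY (E.wth T1) l32067 = true ∧
    allY (E.wth T1) l32068 = true ∧
    allY (E.wth T1) l32069 = true ∧
    allY (E.wth T1) l32070 = true ∧
    allY (E.wth T1) l32071 = true ∧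
    allY (E.wth T1) l32072 = true ∧
    allY (E.wth T1) l32073 = true :=
  ⟨by decide +kernel, by decide +kernel, by decide +kernel, by decide +kernel, by decide +kernel, by decide +kernel, by decide +kernel, by decide +kernel⟩

def t32074 : allY (E.wth T1) l32074 = true ∧
    allY (E.wth T1) l32075 = true ∧
    allY (E.wth T1) l32076 = true ∧
    allY (E.wth T1) l32077 = true ∧
    allY (E.wth T1) l32078 = true ∧
    allY (E.wth T1) l32079 = true ∧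
    allY (E.wth T1) l32080 = true ∧
    allY (E.wth T1) l32081 = true :=
  ⟨by decide +kernel, by decide +kernel, by decide +kernel, by decide +kernel, by decide +kernel, by decide +kernel, by decide +kernel, by decide +kernel⟩

def t32082 : allY (E.wth T1) l32082 = true ∧
    allY (E.wth T1) l32083 = true ∧
    allY (E.wth T1) l32084 = true ∧
    allY (E.wth T1) l32085 = true ∧
    allY (E.wth T1) l32086 = true ∧
    allY (E.wth T1) l32087 = true ∧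
    allY (E.wth T1) l32088 = true ∧
    allY (E.wth T1) l32089 = true :=
  ⟨by decide +kernel, by decide +kernel, by decide +kernel, by decide +kernel, by decide +kernel, by decide +kernel, by decide +kernel, by decide +kernel⟩

def t32090 : allY (E.wth T1) l32090 = true ∧
    allY (E.wth T1) l32091 = true ∧
    allY (E.wth T1) l32092 = true ∧
    allY (E.wth T1) l32093 = true ∧
    allY (E.wth T1) l32094 = true ∧
    allY (E.wth T1) l32095 = true ∧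
    allY (E.wth T1) l32096 = true ∧
    allY (E.wth T1) l32097 = true :=
  ⟨by decide +kernel, by decide +kernel, by decide +kernel, by decide +kernel, by decide +kernel, by decide +kernel, by decide +kernel, by decide +kernel⟩

def t32098 : allY (E.wth T1) l32098 = true ∧
    allY (E.wth T1) l32099 = true ∧
    allY (E.wth T1) l32100 = true ∧
    allY (E.wth T1) l32101 = true ∧
    allY (E.wth T1) l32102 = true ∧
    allY (E.wth T1) l32103 = true ∧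
    allY (E.wth T1) l32104 = true ∧
    allY (E.wth T1) l32105 = true :=
  ⟨by decide +kernel, by decide +kernel, by decide +kernel, by decide +kernel, by decide +kernel, by decide +kernel, by decide +kernel, by decide +kernel⟩

def t32106 : allY (E.wth T1) l32106 = true ∧
    allY (E.wth T1) l32107 = true ∧
    allY (E.wth T1) l32108 = true ∧
    allY (E.wth T1) l32109 = true ∧
    allY (E.wth T1) l32110 = true ∧
    allY (E.wth T1) l32111 = true ∧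
    allY (E.wth T1) l32112 = true ∧
    allY (E.wth T1) l32113 = true :=
  ⟨by decide +kernel, by decide +kernel, by decide +kernel, by decide +kernel, by decide +kernel, by decide +kernel, by decide +kernel, by decide +kernel⟩

def t32114 : allY (E.wth T1) l32114 = true ∧
    allY (E.wth T1) l32115 = true ∧
    allY (E.wth T1) l32116 = true ∧
    allY (E.wth T1) l32117 = true ∧
    allY (E.wth T1) l32118 = true :=
  ⟨by decide +kernel, by decide +kernel, by decide +kernel, by decide +kernel, by decide +kernel⟩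

theorem a57 {p : Rf → Prop} (H : ∀ l, allY (E.wth T1) l = true → (lkp l).All p) :
    b57.All p := ⟨⟨⟨⟨⟨⟨⟨⟨⟨H _ t31570.1, H _ t31570.2.1⟩, ⟨H _ t31570.2.2.1, H _ t31570.2.2.2.1⟩⟩, ⟨⟨H _ t31570.2.2.2.2.1, H _ t31570.2.2.2.2.2.1⟩, ⟨H _ t31570.2.2.2.2.2.2.1, H _ t31570.2.2.2.2.2.2.2⟩⟩⟩, ⟨⟨⟨H _ t31578.1, H _ t31578.2.1⟩, ⟨H _ t31578.2.2.1, H _ t31578.2.2.2.1⟩⟩, ⟨⟨H _ t31578.2.2.2.2.1, H _ t31578.2.2.2.2.2.1⟩, ⟨H _ t31578.2.2.2.2.2.2.1, ⟨H _ t31578.2.2.2.2.2.2.2, H _ t31586.1⟩⟩⟩⟩⟩, ⟨⟨⟨⟨H _ t31586.2.1, H _ t31586.2.2.1⟩, ⟨H _ t31586.2.2.2.1, H _ t31586.2.2.2.2.1⟩⟩, ⟨⟨H _ t31586.2.2.2.2.2.1, H _ t31586.2.2.2.2.2.2.1⟩, ⟨H _ t31586.2.2.2.2.2.2.2, H _ t31594.1⟩⟩⟩, ⟨⟨⟨H _ t31594.2.1, H _ t31594.2.2.1⟩, ⟨H _ t31594.2.2.2.1, H _ t31594.2.2.2.2.1⟩⟩, ⟨⟨H _ t31594.2.2.2.2.2.1, H _ t31594.2.2.2.2.2.2.1⟩, ⟨H _ t31594.2.2.2.2.2.2.2, ⟨H _ t31602.1, H _ t31602.2.1⟩⟩⟩⟩⟩⟩, ⟨⟨⟨⟨⟨H _ t31602.2.2.1, H _ t31602.2.2.2.1⟩,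 ⟨H _ t31602.2.2.2.2.1, H _ t31602.2.2.2.2.2.1⟩⟩, ⟨⟨H _ t31602.2.2.2.2.2.2.1, H _ t31602.2.2.2.2.2.2.2⟩, ⟨H _ t31610.1, H _ t31610.2.1⟩⟩⟩, ⟨⟨⟨H _ t31610.2.2.1, H _ t31610.2.2.2.1⟩, ⟨H _ t31610.2.2.2.2.1, H _ t31610.2.2.2.2.2.1⟩⟩, ⟨⟨H _ t31610.2.2.2.2.2.2.1, H _ t31610.2.2.2.2.2.2.2⟩, ⟨H _ t31618.1, ⟨H _ t31618.2.1, H _ t31618.2.2.1⟩⟩⟩⟩⟩, ⟨⟨⟨⟨H _ t31618.2.2.2.1, H _ t31618.2.2.2.2.1⟩, ⟨H _ t31618.2.2.2.2.2.1, H _ t31618.2.2.2.2.2.2.1⟩⟩, ⟨⟨H _ t31618.2.2.2.2.2.2.2, H _ t31626.1⟩, ⟨H _ t31626.2.1, H _ t31626.2.2.1⟩⟩⟩, ⟨⟨⟨H _ t31626.2.2.2.1, H _ t31626.2.2.2.2.1⟩, ⟨H _ t31626.2.2.2.2.2.1, H _ t31626.2.2.2.2.2.2.1⟩⟩, ⟨⟨H _ t31626.2.2.2.2.2.2.2, H _ t31634.1⟩, ⟨H _ t31634.2.1, ⟨H _ t31634.2.2.1, H _ t31634.2.2.2.1⟩⟩⟩⟩⟩⟩⟩, ⟨⟨⟨⟨⟨⟨H _ t31634.2.2.2.2.1, H _ t31634.2.2.2.2.2.1⟩, ⟨H _ t31634.2.2.2.2.2.2.1, H _ t31634.2.2.2.2.2.2.2⟩⟩, ⟨⟨H _ t31642.1, H _ t31642.2.1⟩, ⟨H _ t31642.2.2.1, H _ t31642.2.2.2.1⟩⟩⟩,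 ⟨⟨⟨H _ t31642.2.2.2.2.1, H _ t31642.2.2.2.2.2.1⟩, ⟨H _ t31642.2.2.2.2.2.2.1, H _ t31642.2.2.2.2.2.2.2⟩⟩, ⟨⟨H _ t31650.1, H _ t31650.2.1⟩, ⟨H _ t31650.2.2.1, ⟨H _ t31650.2.2.2.1, H _ t31650.2.2.2.2.1⟩⟩⟩⟩⟩, ⟨⟨⟨⟨H _ t31650.2.2.2.2.2.1, H _ t31650.2.2.2.2.2.2.1⟩, ⟨H _ t31650.2.2.2.2.2.2.2, H _ t31658.1⟩⟩, ⟨⟨H _ t31658.2.1, H _ t31658.2.2.1⟩, ⟨H _ t31658.2.2.2.1, H _ t31658.2.2.2.2.1⟩⟩⟩, ⟨⟨⟨H _ t31658.2.2.2.2.2.1, H _ t31658.2.2.2.2.2.2.1⟩, ⟨H _ t31658.2.2.2.2.2.2.2, H _ t31666.1⟩⟩, ⟨⟨H _ t31666.2.1, H _ t31666.2.2.1⟩, ⟨H _ t31666.2.2.2.1, ⟨H _ t31666.2.2.2.2.1, H _ t31666.2.2.2.2.2.1⟩⟩⟩⟩⟩⟩, ⟨⟨⟨⟨⟨H _ t31666.2.2.2.2.2.2.1, H _ t31666.2.2.2.2.2.2.2⟩, ⟨H _ t31674.1, H _ t31674.2.1⟩⟩, ⟨⟨H _ t31674.2.2.1, H _ t31674.2.2.2.1⟩, ⟨H _ t31674.2.2.2.2.1, H _ t31674.2.2.2.2.2.1⟩⟩⟩, ⟨⟨⟨H _ t31674.2.2.2.2.2.2.1, H _ t31674.2.2.2.2.2.2.2⟩, ⟨H _ t31682.1, H _ t31682.2.1⟩⟩, ⟨⟨H _ t31682.2.2.1, H _ t31682.2.2.2.1⟩,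 ⟨H _ t31682.2.2.2.2.1, ⟨H _ t31682.2.2.2.2.2.1, H _ t31682.2.2.2.2.2.2.1⟩⟩⟩⟩⟩, ⟨⟨⟨⟨H _ t31682.2.2.2.2.2.2.2, H _ t31690.1⟩, ⟨H _ t31690.2.1, H _ t31690.2.2.1⟩⟩, ⟨⟨H _ t31690.2.2.2.1, H _ t31690.2.2.2.2.1⟩, ⟨H _ t31690.2.2.2.2.2.1, ⟨H _ t31690.2.2.2.2.2.2.1, H _ t31690.2.2.2.2.2.2.2⟩⟩⟩⟩, ⟨⟨⟨H _ t31698.1, H _ t31698.2.1⟩, ⟨H _ t31698.2.2.1, H _ t31698.2.2.2.1⟩⟩, ⟨⟨H _ t31698.2.2.2.2.1, H _ t31698.2.2.2.2.2.1⟩, ⟨H _ t31698.2.2.2.2.2.2.1, ⟨H _ t31698.2.2.2.2.2.2.2, H _ t31706.1⟩⟩⟩⟩⟩⟩⟩⟩, ⟨⟨⟨⟨⟨⟨⟨H _ t31706.2.1, H _ t31706.2.2.1⟩, ⟨H _ t31706.2.2.2.1, H _ t31706.2.2.2.2.1⟩⟩, ⟨⟨H _ t31706.2.2.2.2.2.1, H _ t31706.2.2.2.2.2.2.1⟩, ⟨H _ t31706.2.2.2.2.2.2.2, H _ t31714.1⟩⟩⟩, ⟨⟨⟨H _ t31714.2.1, H _ t31714.2.2.1⟩, ⟨H _ t31714.2.2.2.1, H _ t31714.2.2.2.2.1⟩⟩, ⟨⟨H _ t31714.2.2.2.2.2.1, H _ t31714.2.2.2.2.2.2.1⟩, ⟨H _ t31714.2.2.2.2.2.2.2, ⟨H _ t31722.1, H _ t31722.2.1⟩⟩⟩⟩⟩, ⟨⟨⟨⟨H _ t31722.2.2.1, H _ t31722.2.2.2.1⟩,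 ⟨H _ t31722.2.2.2.2.1, H _ t31722.2.2.2.2.2.1⟩⟩, ⟨⟨H _ t31722.2.2.2.2.2.2.1, H _ t31722.2.2.2.2.2.2.2⟩, ⟨H _ t31730.1, H _ t31730.2.1⟩⟩⟩, ⟨⟨⟨H _ t31730.2.2.1, H _ t31730.2.2.2.1⟩, ⟨H _ t31730.2.2.2.2.1, H _ t31730.2.2.2.2.2.1⟩⟩, ⟨⟨H _ t31730.2.2.2.2.2.2.1, H _ t31730.2.2.2.2.2.2.2⟩, ⟨H _ t31738.1, ⟨H _ t31738.2.1, H _ t31738.2.2.1⟩⟩⟩⟩⟩⟩, ⟨⟨⟨⟨⟨H _ t31738.2.2.2.1, H _ t31738.2.2.2.2.1⟩, ⟨H _ t31738.2.2.2.2.2.1, H _ t31738.2.2.2.2.2.2.1⟩⟩, ⟨⟨H _ t31738.2.2.2.2.2.2.2, H _ t31746.1⟩, ⟨H _ t31746.2.1, H _ t31746.2.2.1⟩⟩⟩, ⟨⟨⟨H _ t31746.2.2.2.1, H _ t31746.2.2.2.2.1⟩, ⟨H _ t31746.2.2.2.2.2.1, H _ t31746.2.2.2.2.2.2.1⟩⟩, ⟨⟨H _ t31746.2.2.2.2.2.2.2, H _ t31754.1⟩, ⟨H _ t31754.2.1, ⟨H _ t31754.2.2.1, H _ t31754.2.2.2.1⟩⟩⟩⟩⟩, ⟨⟨⟨⟨H _ t31754.2.2.2.2.1, H _ t31754.2.2.2.2.2.1⟩, ⟨H _ t31754.2.2.2.2.2.2.1, H _ t31754.2.2.2.2.2.2.2⟩⟩, ⟨⟨H _ t31762.1, H _ t31762.2.1⟩, ⟨H _ t31762.2.2.1, H _ t31762.2.2.2.1⟩⟩⟩,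 ⟨⟨⟨H _ t31762.2.2.2.2.1, H _ t31762.2.2.2.2.2.1⟩, ⟨H _ t31762.2.2.2.2.2.2.1, H _ t31762.2.2.2.2.2.2.2⟩⟩, ⟨⟨H _ t31770.1, H _ t31770.2.1⟩, ⟨H _ t31770.2.2.1, ⟨H _ t31770.2.2.2.1, H _ t31770.2.2.2.2.1⟩⟩⟩⟩⟩⟩⟩, ⟨⟨⟨⟨⟨⟨H _ t31770.2.2.2.2.2.1, H _ t31770.2.2.2.2.2.2.1⟩, ⟨H _ t31770.2.2.2.2.2.2.2, H _ t31778.1⟩⟩, ⟨⟨H _ t31778.2.1, H _ t31778.2.2.1⟩, ⟨H _ t31778.2.2.2.1, H _ t31778.2.2.2.2.1⟩⟩⟩, ⟨⟨⟨H _ t31778.2.2.2.2.2.1, H _ t31778.2.2.2.2.2.2.1⟩, ⟨H _ t31778.2.2.2.2.2.2.2, H _ t31786.1⟩⟩, ⟨⟨H _ t31786.2.1, H _ t31786.2.2.1⟩, ⟨H _ t31786.2.2.2.1, ⟨H _ t31786.2.2.2.2.1, H _ t31786.2.2.2.2.2.1⟩⟩⟩⟩⟩, ⟨⟨⟨⟨H _ t31786.2.2.2.2.2.2.1, H _ t31786.2.2.2.2.2.2.2⟩, ⟨H _ t31794.1, H _ t31794.2.1⟩⟩, ⟨⟨H _ t31794.2.2.1, H _ t31794.2.2.2.1⟩, ⟨H _ t31794.2.2.2.2.1, H _ t31794.2.2.2.2.2.1⟩⟩⟩, ⟨⟨⟨H _ t31794.2.2.2.2.2.2.1, H _ t31794.2.2.2.2.2.2.2⟩, ⟨H _ t31802.1, H _ t31802.2.1⟩⟩, ⟨⟨H _ t31802.2.2.1, H _ t31802.2.2.2.1⟩,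 ⟨H _ t31802.2.2.2.2.1, ⟨H _ t31802.2.2.2.2.2.1, H _ t31802.2.2.2.2.2.2.1⟩⟩⟩⟩⟩⟩, ⟨⟨⟨⟨⟨H _ t31802.2.2.2.2.2.2.2, H _ t31810.1⟩, ⟨H _ t31810.2.1, H _ t31810.2.2.1⟩⟩, ⟨⟨H _ t31810.2.2.2.1, H _ t31810.2.2.2.2.1⟩, ⟨H _ t31810.2.2.2.2.2.1, H _ t31810.2.2.2.2.2.2.1⟩⟩⟩, ⟨⟨⟨H _ t31810.2.2.2.2.2.2.2, H _ t31818.1⟩, ⟨H _ t31818.2.1, H _ t31818.2.2.1⟩⟩, ⟨⟨H _ t31818.2.2.2.1, H _ t31818.2.2.2.2.1⟩, ⟨H _ t31818.2.2.2.2.2.1, ⟨H _ t31818.2.2.2.2.2.2.1, H _ t31818.2.2.2.2.2.2.2⟩⟩⟩⟩⟩, ⟨⟨⟨⟨H _ t31826.1, H _ t31826.2.1⟩, ⟨H _ t31826.2.2.1, H _ t31826.2.2.2.1⟩⟩, ⟨⟨H _ t31826.2.2.2.2.1, H _ t31826.2.2.2.2.2.1⟩, ⟨H _ t31826.2.2.2.2.2.2.1, ⟨H _ t31826.2.2.2.2.2.2.2, H _ t31834.1⟩⟩⟩⟩, ⟨⟨⟨H _ t31834.2.1, H _ t31834.2.2.1⟩, ⟨H _ t31834.2.2.2.1, H _ t31834.2.2.2.2.1⟩⟩, ⟨⟨H _ t31834.2.2.2.2.2.1, H _ t31834.2.2.2.2.2.2.1⟩, ⟨H _ t31834.2.2.2.2.2.2.2, ⟨H _ t31842.1, H _ t31842.2.1⟩⟩⟩⟩⟩⟩⟩⟩⟩, ⟨⟨⟨⟨⟨⟨⟨⟨H _ t31842.2.2.1, H _ t31842.2.2.2.1⟩,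 ⟨H _ t31842.2.2.2.2.1, H _ t31842.2.2.2.2.2.1⟩⟩, ⟨⟨H _ t31842.2.2.2.2.2.2.1, H _ t31842.2.2.2.2.2.2.2⟩, ⟨H _ t31850.1, H _ t31850.2.1⟩⟩⟩, ⟨⟨⟨H _ t31850.2.2.1, H _ t31850.2.2.2.1⟩, ⟨H _ t31850.2.2.2.2.1, H _ t31850.2.2.2.2.2.1⟩⟩, ⟨⟨H _ t31850.2.2.2.2.2.2.1, H _ t31850.2.2.2.2.2.2.2⟩, ⟨H _ t31858.1, ⟨H _ t31858.2.1, H _ t31858.2.2.1⟩⟩⟩⟩⟩, ⟨⟨⟨⟨H _ t31858.2.2.2.1, H _ t31858.2.2.2.2.1⟩, ⟨H _ t31858.2.2.2.2.2.1, H _ t31858.2.2.2.2.2.2.1⟩⟩, ⟨⟨H _ t31858.2.2.2.2.2.2.2, H _ t31866.1⟩, ⟨H _ t31866.2.1, H _ t31866.2.2.1⟩⟩⟩, ⟨⟨⟨H _ t31866.2.2.2.1, H _ t31866.2.2.2.2.1⟩, ⟨H _ t31866.2.2.2.2.2.1, H _ t31866.2.2.2.2.2.2.1⟩⟩, ⟨⟨H _ t31866.2.2.2.2.2.2.2, H _ t31874.1⟩, ⟨H _ t31874.2.1, ⟨H _ t31874.2.2.1, H _ t31874.2.2.2.1⟩⟩⟩⟩⟩⟩, ⟨⟨⟨⟨⟨H _ t31874.2.2.2.2.1, H _ t31874.2.2.2.2.2.1⟩, ⟨H _ t31874.2.2.2.2.2.2.1, H _ t31874.2.2.2.2.2.2.2⟩⟩, ⟨⟨H _ t31882.1, H _ t31882.2.1⟩, ⟨H _ t31882.2.2.1, H _ t31882.2.2.2.1⟩⟩⟩,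 ⟨⟨⟨H _ t31882.2.2.2.2.1, H _ t31882.2.2.2.2.2.1⟩, ⟨H _ t31882.2.2.2.2.2.2.1, H _ t31882.2.2.2.2.2.2.2⟩⟩, ⟨⟨H _ t31890.1, H _ t31890.2.1⟩, ⟨H _ t31890.2.2.1, ⟨H _ t31890.2.2.2.1, H _ t31890.2.2.2.2.1⟩⟩⟩⟩⟩, ⟨⟨⟨⟨H _ t31890.2.2.2.2.2.1, H _ t31890.2.2.2.2.2.2.1⟩, ⟨H _ t31890.2.2.2.2.2.2.2, H _ t31898.1⟩⟩, ⟨⟨H _ t31898.2.1, H _ t31898.2.2.1⟩, ⟨H _ t31898.2.2.2.1, H _ t31898.2.2.2.2.1⟩⟩⟩, ⟨⟨⟨H _ t31898.2.2.2.2.2.1, H _ t31898.2.2.2.2.2.2.1⟩, ⟨H _ t31898.2.2.2.2.2.2.2, H _ t31906.1⟩⟩, ⟨⟨H _ t31906.2.1, H _ t31906.2.2.1⟩, ⟨H _ t31906.2.2.2.1, ⟨H _ t31906.2.2.2.2.1, H _ t31906.2.2.2.2.2.1⟩⟩⟩⟩⟩⟩⟩, ⟨⟨⟨⟨⟨⟨H _ t31906.2.2.2.2.2.2.1, H _ t31906.2.2.2.2.2.2.2⟩, ⟨H _ t31914.1, H _ t31914.2.1⟩⟩, ⟨⟨H _ t31914.2.2.1, H _ t31914.2.2.2.1⟩, ⟨H _ t31914.2.2.2.2.1, H _ t31914.2.2.2.2.2.1⟩⟩⟩, ⟨⟨⟨H _ t31914.2.2.2.2.2.2.1, H _ t31914.2.2.2.2.2.2.2⟩, ⟨H _ t31922.1, H _ t31922.2.1⟩⟩, ⟨⟨H _ t31922.2.2.1, H _ t31922.2.2.2.1⟩,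 ⟨H _ t31922.2.2.2.2.1, ⟨H _ t31922.2.2.2.2.2.1, H _ t31922.2.2.2.2.2.2.1⟩⟩⟩⟩⟩, ⟨⟨⟨⟨H _ t31922.2.2.2.2.2.2.2, H _ t31930.1⟩, ⟨H _ t31930.2.1, H _ t31930.2.2.1⟩⟩, ⟨⟨H _ t31930.2.2.2.1, H _ t31930.2.2.2.2.1⟩, ⟨H _ t31930.2.2.2.2.2.1, H _ t31930.2.2.2.2.2.2.1⟩⟩⟩, ⟨⟨⟨H _ t31930.2.2.2.2.2.2.2, H _ t31938.1⟩, ⟨H _ t31938.2.1, H _ t31938.2.2.1⟩⟩, ⟨⟨H _ t31938.2.2.2.1, H _ t31938.2.2.2.2.1⟩, ⟨H _ t31938.2.2.2.2.2.1, ⟨H _ t31938.2.2.2.2.2.2.1, H _ t31938.2.2.2.2.2.2.2⟩⟩⟩⟩⟩⟩, ⟨⟨⟨⟨⟨H _ t31946.1, H _ t31946.2.1⟩, ⟨H _ t31946.2.2.1, H _ t31946.2.2.2.1⟩⟩, ⟨⟨H _ t31946.2.2.2.2.1, H _ t31946.2.2.2.2.2.1⟩, ⟨H _ t31946.2.2.2.2.2.2.1, H _ t31946.2.2.2.2.2.2.2⟩⟩⟩, ⟨⟨⟨H _ t31954.1, H _ t31954.2.1⟩, ⟨H _ t31954.2.2.1, H _ t31954.2.2.2.1⟩⟩, ⟨⟨H _ t31954.2.2.2.2.1, H _ t31954.2.2.2.2.2.1⟩, ⟨H _ t31954.2.2.2.2.2.2.1, ⟨H _ t31954.2.2.2.2.2.2.2, H _ t31962.1⟩⟩⟩⟩⟩, ⟨⟨⟨⟨H _ t31962.2.1, H _ t31962.2.2.1⟩, ⟨H _ t31962.2.2.2.1,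 H _ t31962.2.2.2.2.1⟩⟩, ⟨⟨H _ t31962.2.2.2.2.2.1, H _ t31962.2.2.2.2.2.2.1⟩, ⟨H _ t31962.2.2.2.2.2.2.2, ⟨H _ t31970.1, H _ t31970.2.1⟩⟩⟩⟩, ⟨⟨⟨H _ t31970.2.2.1, H _ t31970.2.2.2.1⟩, ⟨H _ t31970.2.2.2.2.1, H _ t31970.2.2.2.2.2.1⟩⟩, ⟨⟨H _ t31970.2.2.2.2.2.2.1, H _ t31970.2.2.2.2.2.2.2⟩, ⟨H _ t31978.1, ⟨H _ t31978.2.1, H _ t31978.2.2.1⟩⟩⟩⟩⟩⟩⟩⟩, ⟨⟨⟨⟨⟨⟨⟨H _ t31978.2.2.2.1, H _ t31978.2.2.2.2.1⟩, ⟨H _ t31978.2.2.2.2.2.1, H _ t31978.2.2.2.2.2.2.1⟩⟩, ⟨⟨H _ t31978.2.2.2.2.2.2.2, H _ t31986.1⟩, ⟨H _ t31986.2.1, H _ t31986.2.2.1⟩⟩⟩, ⟨⟨⟨H _ t31986.2.2.2.1, H _ t31986.2.2.2.2.1⟩, ⟨H _ t31986.2.2.2.2.2.1, H _ t31986.2.2.2.2.2.2.1⟩⟩, ⟨⟨H _ t31986.2.2.2.2.2.2.2, H _ t31994.1⟩, ⟨H _ t31994.2.1, ⟨H _ t31994.2.2.1, H _ t31994.2.2.2.1⟩⟩⟩⟩⟩, ⟨⟨⟨⟨H _ t31994.2.2.2.2.1, H _ t31994.2.2.2.2.2.1⟩, ⟨H _ t31994.2.2.2.2.2.2.1, H _ t31994.2.2.2.2.2.2.2⟩⟩, ⟨⟨H _ t32002.1, H _ t32002.2.1⟩, ⟨H _ t32002.2.2.1, H _ t32002.2.2.2.1⟩⟩⟩,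 ⟨⟨⟨H _ t32002.2.2.2.2.1, H _ t32002.2.2.2.2.2.1⟩, ⟨H _ t32002.2.2.2.2.2.2.1, H _ t32002.2.2.2.2.2.2.2⟩⟩, ⟨⟨H _ t32010.1, H _ t32010.2.1⟩, ⟨H _ t32010.2.2.1, ⟨H _ t32010.2.2.2.1, H _ t32010.2.2.2.2.1⟩⟩⟩⟩⟩⟩, ⟨⟨⟨⟨⟨H _ t32010.2.2.2.2.2.1, H _ t32010.2.2.2.2.2.2.1⟩, ⟨H _ t32010.2.2.2.2.2.2.2, H _ t32018.1⟩⟩, ⟨⟨H _ t32018.2.1, H _ t32018.2.2.1⟩, ⟨H _ t32018.2.2.2.1, H _ t32018.2.2.2.2.1⟩⟩⟩, ⟨⟨⟨H _ t32018.2.2.2.2.2.1, H _ t32018.2.2.2.2.2.2.1⟩, ⟨H _ t32018.2.2.2.2.2.2.2, H _ t32026.1⟩⟩, ⟨⟨H _ t32026.2.1, H _ t32026.2.2.1⟩, ⟨H _ t32026.2.2.2.1, ⟨H _ t32026.2.2.2.2.1, H _ t32026.2.2.2.2.2.1⟩⟩⟩⟩⟩, ⟨⟨⟨⟨H _ t32026.2.2.2.2.2.2.1, H _ t32026.2.2.2.2.2.2.2⟩, ⟨H _ t32034.1, H _ t32034.2.1⟩⟩, ⟨⟨H _ t32034.2.2.1, H _ t32034.2.2.2.1⟩, ⟨H _ t32034.2.2.2.2.1, ⟨H _ t32034.2.2.2.2.2.1, H _ t32034.2.2.2.2.2.2.1⟩⟩⟩⟩, ⟨⟨⟨H _ t32034.2.2.2.2.2.2.2, H _ t32042.1⟩, ⟨H _ t32042.2.1, H _ t32042.2.2.1⟩⟩, ⟨⟨H _ t32042.2.2.2.1,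 H _ t32042.2.2.2.2.1⟩, ⟨H _ t32042.2.2.2.2.2.1, ⟨H _ t32042.2.2.2.2.2.2.1, H _ t32042.2.2.2.2.2.2.2⟩⟩⟩⟩⟩⟩⟩, ⟨⟨⟨⟨⟨⟨H _ t32050.1, H _ t32050.2.1⟩, ⟨H _ t32050.2.2.1, H _ t32050.2.2.2.1⟩⟩, ⟨⟨H _ t32050.2.2.2.2.1, H _ t32050.2.2.2.2.2.1⟩, ⟨H _ t32050.2.2.2.2.2.2.1, H _ t32050.2.2.2.2.2.2.2⟩⟩⟩, ⟨⟨⟨H _ t32058.1, H _ t32058.2.1⟩, ⟨H _ t32058.2.2.1, H _ t32058.2.2.2.1⟩⟩, ⟨⟨H _ t32058.2.2.2.2.1, H _ t32058.2.2.2.2.2.1⟩, ⟨H _ t32058.2.2.2.2.2.2.1, ⟨H _ t32058.2.2.2.2.2.2.2, H _ t32066.1⟩⟩⟩⟩⟩, ⟨⟨⟨⟨H _ t32066.2.1, H _ t32066.2.2.1⟩, ⟨H _ t32066.2.2.2.1, H _ t32066.2.2.2.2.1⟩⟩, ⟨⟨H _ t32066.2.2.2.2.2.1, H _ t32066.2.2.2.2.2.2.1⟩, ⟨H _ t32066.2.2.2.2.2.2.2, H _ t32074.1⟩⟩⟩, ⟨⟨⟨H _ t32074.2.1, H _ t32074.2.2.1⟩, ⟨H _ t32074.2.2.2.1, H _ t32074.2.2.2.2.1⟩⟩, ⟨⟨H _ t32074.2.2.2.2.2.1, H _ t32074.2.2.2.2.2.2.1⟩, ⟨H _ t32074.2.2.2.2.2.2.2, ⟨H _ t32082.1, H _ t32082.2.1⟩⟩⟩⟩⟩⟩, ⟨⟨⟨⟨⟨H _ t32082.2.2.1, H _ t32082.2.2.2.1⟩,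 ⟨H _ t32082.2.2.2.2.1, H _ t32082.2.2.2.2.2.1⟩⟩, ⟨⟨H _ t32082.2.2.2.2.2.2.1, H _ t32082.2.2.2.2.2.2.2⟩, ⟨H _ t32090.1, H _ t32090.2.1⟩⟩⟩, ⟨⟨⟨H _ t32090.2.2.1, H _ t32090.2.2.2.1⟩, ⟨H _ t32090.2.2.2.2.1, H _ t32090.2.2.2.2.2.1⟩⟩, ⟨⟨H _ t32090.2.2.2.2.2.2.1, H _ t32090.2.2.2.2.2.2.2⟩, ⟨H _ t32098.1, ⟨H _ t32098.2.1, H _ t32098.2.2.1⟩⟩⟩⟩⟩, ⟨⟨⟨⟨H _ t32098.2.2.2.1, H _ t32098.2.2.2.2.1⟩, ⟨H _ t32098.2.2.2.2.2.1, H _ t32098.2.2.2.2.2.2.1⟩⟩, ⟨⟨H _ t32098.2.2.2.2.2.2.2, H _ t32106.1⟩, ⟨H _ t32106.2.1, ⟨H _ t32106.2.2.1, H _ t32106.2.2.2.1⟩⟩⟩⟩, ⟨⟨⟨H _ t32106.2.2.2.2.1, H _ t32106.2.2.2.2.2.1⟩, ⟨H _ t32106.2.2.2.2.2.2.1, H _ t32106.2.2.2.2.2.2.2⟩⟩, ⟨⟨H _ t32114.1, H _ t32114.2.1⟩, ⟨H _ t32114.2.2.1, ⟨H _ t32114.2.2.2.1, H _ t32114.2.2.2.2⟩⟩⟩⟩⟩⟩⟩⟩⟩⟩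

end Pool.Agent.MP_c853c5_nt.X.C4950
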