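import Pool.Agent.MP_c853c5_nt.X.C4950.Env
import Pool.Agent.MP_c853c5_nt.X.C4950.Tab

set_option autoImplicit false
set_option maxRecDepth 8192
set_option linter.all false

namespace Pool.Agent.MP_c853c5_nt.X.C4950

open Pool.Agent.MP_c853c5_nt.X

def t32119 : allY (E.wth T1) l32119 = true ∧
    allY (E.wth T1) l32120 = true ∧
    allY (E.wth T1) l32121 = true ∧
    allY (E.wth T1) l32122 = true ∧
    allY (E.wth T1) l32123 = true ∧
    allY (E.wth T1) l32124 = true ∧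
    allY (E.wth T1) l32125 = true ∧
    allY (E.wth T1) l32126 = true :=
  ⟨by decide +kernel, by decide +kernel, by decide +kernel, by decide +kernel, by decide +kernel, by decide +kernel, by decide +kernel, by decide +kernel⟩

def t32127 : allY (E.wth T1) l32127 = true ∧
    allY (E.wth T1) l32128 = true ∧
    allY (E.wth T1) l32129 = true ∧
    allY (E.wth T1) l32130 = true ∧
    allY (E.wth T1) l32131 = true ∧
    allY (E.wth T1) l32132 = true ∧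
    allY (E.wth T1) l32133 = true ∧
    allY (E.wth T1) l32134 = true :=
  ⟨by decide +kernel, by decide +kernel, by decide +kernel, by decide +kernel, by decide +kernel, by decide +kernel, by decide +kernel, by decide +kernel⟩

def t32135 : allY (E.wth T1) l32135 = true ∧
    allY (E.wth T1) l32136 = true ∧
    allY (E.wth T1) l32137 = true ∧
    allY (E.wth T1) l32138 = true ∧
    allY (E.wth T1) l32139 = true ∧
    allY (E.wth T1) l32140 = true ∧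
    allY (E.wth T1) l32141 = true ∧
    allY (E.wth T1) l32142 = true :=
  ⟨by decide +kernel, by decide +kernel, by decide +kernel, by decide +kernel, by decide +kernel, by decide +kernel, by decide +kernel, by decide +kernel⟩

def t32143 : allY (E.wth T1) l32143 = true ∧
    allY (E.wth T1) l32144 = true ∧
    allY (E.wth T1) l32145 = true ∧
    allY (E.wth T1) l32146 = true ∧
    allY (E.wth T1) l32147 = true ∧
    allY (E.wth T1) l32148 = true ∧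
    allY (E.wth T1) l32149 = true ∧
    allY (E.wth T1) l32150 = true :=
  ⟨by decide +kernel, by decide +kernel, by decide +kernel, by decide +kernel, by decide +kernel, by decide +kernel, by decide +kernel, by decide +kernel⟩

def t32151 : allY (E.wth T1) l32151 = true ∧
    allY (E.wth T1) l32152 = true ∧
    allY (E.wth T1) l32153 = true ∧
    allY (E.wth T1) l32154 = true ∧
    allY (E.wth T1) l32155 = true ∧
    allY (E.wth T1) l32156 = true ∧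
    allY (E.wth T1) l32157 = true ∧
    allY (E.wth T1) l32158 = true :=
  ⟨by decide +kernel, by decide +kernel, by decide +kernel, by decide +kernel, by decide +kernel, by decide +kernel, by decide +kernel, by decide +kernel⟩

def t32159 : allY (E.wth T1) l32159 = true ∧
    allY (E.wth T1) l32160 = true ∧
    allY (E.wth T1) l32161 = true ∧
    allY (E.wth T1) l32162 = true ∧
    allY (E.wth T1) l32163 = true ∧
    allY (E.wth T1) l32164 = true ∧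
    allY (E.wth T1) l32165 = true ∧
    allY (E.wth T1) l32166 = true :=
  ⟨by decide +kernel, by decide +kernel, by decide +kernel, by decide +kernel, by decide +kernel, by decide +kernel, by decide +kernel, by decide +kernel⟩

def t32167 : allY (E.wth T1) l32167 = true ∧
    allY (E.wth T1) l32168 = true ∧
    allY (E.wth T1) l32169 = true ∧
    allY (E.wth T1) l32170 = true ∧
    allY (E.wth T1) l32171 = true ∧
    allY (E.wth T1) l32172 = true ∧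
    allY (E.wth T1) l32173 = true ∧
    allY (E.wth T1) l32174 = true :=
  ⟨by decide +kernel, by decide +kernel, by decide +kernel, by decide +kernel, by decide +kernel, by decide +kernel, by decide +kernel, by decide +kernel⟩

def t32175 : allY (E.wth T1) l32175 = true ∧
    allY (E.wth T1) l32176 = true ∧
    allY (E.wth T1) l32177 = true ∧
    allY (E.wth T1) l32178 = true ∧
    allY (E.wth T1) l32179 = true ∧
    allY (E.wth T1) l32180 = true ∧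
    allY (E.wth T1) l32181 = true ∧
    allY (E.wth T1) l32182 = true :=
  ⟨by decide +kernel, by decide +kernel, by decide +kernel, by decide +kernel, by decide +kernel, by decide +kernel, by decide +kernel, by decide +kernel⟩

def t32183 : allY (E.wth T1) l32183 = true ∧
    allY (E.wth T1) l32184 = true ∧
    allY (E.wth T1) l32185 = true ∧
    allY (E.wth T1) l32186 = true ∧
    allY (E.wth T1) l32187 = true ∧
    allY (E.wth T1) l32188 = true ∧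
    allY (E.wth T1) l32189 = true ∧
    allY (E.wth T1) l32190 = true :=
  ⟨by decide +kernel, by decide +kernel, by decide +kernel, by decide +kernel, by decide +kernel, by decide +kernel, by decide +kernel, by decide +kernel⟩

def t32191 : allY (E.wth T1) l32191 = true ∧
    allY (E.wth T1) l32192 = true ∧
    allY (E.wth T1) l32193 = true ∧
    allY (E.wth T1) l32194 = true ∧
    allY (E.wth T1) l32195 = true ∧
    allY (E.wth T1) l32196 = true ∧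
    allY (E.wth T1) l32197 = true ∧
    allY (E.wth T1) l32198 = true :=
  ⟨by decide +kernel, by decide +kernel, by decide +kernel, by decide +kernel, by decide +kernel, by decide +kernel, by decide +kernel, by decide +kernel⟩

def t32199 : allY (E.wth T1) l32199 = true ∧
    allY (E.wth T1) l32200 = true ∧
    allY (E.wth T1) l32201 = true ∧
    allY (E.wth T1) l32202 = true ∧
    allY (E.wth T1) l32203 = true ∧
    allY (E.wth T1) l32204 = true ∧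
    allY (E.wth T1) l32205 = true ∧
    allY (E.wth T1) l32206 = true :=
  ⟨by decide +kernel, by decide +kernel, by decide +kernel, by decide +kernel, by decide +kernel, by decide +kernel, by decide +kernel, by decide +kernel⟩

def t32207 : allY (E.wth T1) l32207 = true ∧
    allY (E.wth T1) l32208 = true ∧
    allY (E.wth T1) l32209 = true ∧
    allY (E.wth T1) l32210 = true ∧
    allY (E.wth T1) l32211 = true ∧
    allY (E.wth T1) l32212 = true ∧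
    allY (E.wth T1) l32213 = true ∧
    allY (E.wth T1) l32214 = true :=
  ⟨by decide +kernel, by decide +kernel, by decide +kernel, by decide +kernel, by decide +kernel, by decide +kernel, by decide +kernel, by decide +kernel⟩

def t32215 : allY (E.wth T1) l32215 = true ∧
    allY (E.wth T1) l32216 = true ∧
    allY (E.wth T1) l32217 = true ∧
    allY (E.wth T1) l32218 = true ∧
    allY (E.wth T1) l32219 = true ∧
    allY (E.wth T1) l32220 = true ∧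
    allY (E.wth T1) l32221 = true ∧
    allY (E.wth T1) l32222 = true :=
  ⟨by decide +kernel, by decide +kernel, by decide +kernel, by decide +kernel, by decide +kernel, by decide +kernel, by decide +kernel, by decide +kernel⟩

def t32223 : allY (E.wth T1) l32223 = true ∧
    allY (E.wth T1) l32224 = true ∧
    allY (E.wth T1) l32225 = true ∧
    allY (E.wth T1) l32226 = true ∧
    allY (E.wth T1) l32227 = true ∧
    allY (E.wth T1) l32228 = true ∧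
    allY (E.wth T1) l32229 = true ∧
    allY (E.wth T1) l32230 = true :=
  ⟨by decide +kernel, by decide +kernel, by decide +kernel, by decide +kernel, by decide +kernel, by decide +kernel, by decide +kernel, by decide +kernel⟩

def t32231 : allY (E.wth T1) l32231 = true ∧
    allY (E.wth T1) l32232 = true ∧
    allY (E.wth T1) l32233 = true ∧
    allY (E.wth T1) l32234 = true ∧
    allY (E.wth T1) l32235 = true ∧
    allY (E.wth T1) l32236 = true ∧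
    allY (E.wth T1) l32237 = true ∧
    allY (E.wth T1) l32238 = true :=
  ⟨by decide +kernel, by decide +kernel, by decide +kernel, by decide +kernel, by decide +kernel, by decide +kernel, by decide +kernel, by decide +kernel⟩

def t32239 : allY (E.wth T1) l32239 = true ∧
    allY (E.wth T1) l32240 = true ∧
    allY (E.wth T1) l32241 = true ∧
    allY (E.wth T1) l32242 = true ∧
    allY (E.wth T1) l32243 = true ∧
    allY (E.wth T1) l32244 = true ∧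
    allY (E.wth T1) l32245 = true ∧
    allY (E.wth T1) l32246 = true :=
  ⟨by decide +kernel, by decide +kernel, by decide +kernel, by decide +kernel, by decide +kernel, by decide +kernel, by decide +kernel, by decide +kernel⟩

def t32247 : allY (E.wth T1) l32247 = true ∧
    allY (E.wth T1) l32248 = true ∧
    allY (E.wth T1) l32249 = true ∧
    allY (E.wth T1) l32250 = true ∧
    allY (E.wth T1) l32251 = true ∧
    allY (E.wth T1) l32252 = true ∧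
    allY (E.wth T1) l32253 = true ∧
    allY (E.wth T1) l32254 = true :=
  ⟨by decide +kernel, by decide +kernel, by decide +kernel, by decide +kernel, by decide +kernel, by decide +kernel, by decide +kernel, by decide +kernel⟩

def t32255 : allY (E.wth T1) l32255 = true ∧
    allY (E.wth T1) l32256 = true ∧
    allY (E.wth T1) l32257 = true ∧
    allY (E.wth T1) l32258 = true ∧
    allY (E.wth T1) l32259 = true ∧
    allY (E.wth T1) l32260 = true ∧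
    allY (E.wth T1) l32261 = true ∧
    allY (E.wth T1) l32262 = true :=
  ⟨by decide +kernel, by decide +kernel, by decide +kernel, by decide +kernel, by decide +kernel, by decide +kernel, by decide +kernel, by decide +kernel⟩

def t32263 : allY (E.wth T1) l32263 = true ∧
    allY (E.wth T1) l32264 = true ∧
    allY (E.wth T1) l32265 = true ∧
    allY (E.wth T1) l32266 = true ∧
    allY (E.wth T1) l32267 = true ∧
    allY (E.wth T1) l32268 = true ∧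
    allY (E.wth T1) l32269 = true ∧
    allY (E.wth T1) l32270 = true :=
  ⟨by decide +kernel, by decide +kernel, by decide +kernel, by decide +kernel, by decide +kernel, by decide +kernel, by decide +kernel, by decide +kernel⟩

def t32271 : allY (E.wth T1) l32271 = true ∧
    allY (E.wth T1) l32272 = true ∧
    allY (E.wth T1) l32273 = true ∧
    allY (E.wth T1) l32274 = true ∧
    allY (E.wth T1) l32275 = true ∧
    allY (E.wth T1) l32276 = true ∧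
    allY (E.wth T1) l32277 = true ∧
    allY (E.wth T1) l32278 = true :=
  ⟨by decide +kernel, by decide +kernel, by decide +kernel, by decide +kernel, by decide +kernel, by decide +kernel, by decide +kernel, by decide +kernel⟩

def t32279 : allY (E.wth T1) l32279 = true ∧
    allY (E.wth T1) l32280 = true ∧
    allY (E.wth T1) l32281 = true ∧
    allY (E.wth T1) l32282 = true ∧
    allY (E.wth T1) l32283 = true ∧
    allY (E.wth T1) l32284 = true ∧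
    allY (E.wth T1) l32285 = true ∧
    allY (E.wth T1) l32286 = true :=
  ⟨by decide +kernel, by decide +kernel, by decide +kernel, by decide +kernel, by decide +kernel, by decide +kernel, by decide +kernel, by decide +kernel⟩

def t32287 : allY (E.wth T1) l32287 = true ∧
    allY (E.wth T1) l32288 = true ∧
    allY (E.wth T1) l32289 = true ∧
    allY (E.wth T1) l32290 = true ∧
    allY (E.wth T1) l32291 = true ∧
    allY (E.wth T1) l32292 = true ∧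
    allY (E.wth T1) l32293 = true ∧
    allY (E.wth T1) l32294 = true :=
  ⟨by decide +kernel, by decide +kernel, by decide +kernel, by decide +kernel, by decide +kernel, by decide +kernel, by decide +kernel, by decide +kernel⟩

def t32295 : allY (E.wth T1) l32295 = true ∧
    allY (E.wth T1) l32296 = true ∧
    allY (E.wth T1) l32297 = true ∧
    allY (E.wth T1) l32298 = true ∧
    allY (E.wth T1) l32299 = true ∧
    allY (E.wth T1) l32300 = true ∧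
    allY (E.wth T1) l32301 = true ∧
    allY (E.wth T1) l32302 = true :=
  ⟨by decide +kernel, by decide +kernel, by decide +kernel, by decide +kernel, by decide +kernel, by decide +kernel, by decide +kernel, by decide +kernel⟩

def t32303 : allY (E.wth T1) l32303 = true ∧
    allY (E.wth T1) l32304 = true ∧
    allY (E.wth T1) l32305 = true ∧
    allY (E.wth T1) l32306 = true ∧
    allY (E.wth T1) l32307 = true ∧
    allY (E.wth T1) l32308 = true ∧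
    allY (E.wth T1) l32309 = true ∧
    allY (E.wth T1) l32310 = true :=
  ⟨by decide +kernel, by decide +kernel, by decide +kernel, by decide +kernel, by decide +kernel, by decide +kernel, by decide +kernel, by decide +kernel⟩

def t32311 : allY (E.wth T1) l32311 = true ∧
    allY (E.wth T1) l32312 = true ∧
    allY (E.wth T1) l32313 = true ∧
    allY (E.wth T1) l32314 = true ∧
    allY (E.wth T1) l32315 = true ∧
    allY (E.wth T1) l32316 = true ∧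
    allY (E.wth T1) l32317 = true ∧
    allY (E.wth T1) l32318 = true :=
  ⟨by decide +kernel, by decide +kernel, by decide +kernel, by decide +kernel, by decide +kernel, by decide +kernel, by decide +kernel, by decide +kernel⟩

def t32319 : allY (E.wth T1) l32319 = true ∧
    allY (E.wth T1) l32320 = true ∧
    allY (E.wth T1) l32321 = true ∧
    allY (E.wth T1) l32322 = true ∧
    allY (E.wth T1) l32323 = true ∧
    allY (E.wth T1) l32324 = true ∧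
    allY (E.wth T1) l32325 = true ∧
    allY (E.wth T1) l32326 = true :=
  ⟨by decide +kernel, by decide +kernel, by decide +kernel, by decide +kernel, by decide +kernel, by decide +kernel, by decide +kernel, by decide +kernel⟩

def t32327 : allY (E.wth T1) l32327 = true ∧
    allY (E.wth T1) l32328 = true ∧
    allY (E.wth T1) l32329 = true ∧
    allY (E.wth T1) l32330 = true ∧
    allY (E.wth T1) l32331 = true ∧
    allY (E.wth T1) l32332 = true ∧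
    allY (E.wth T1) l32333 = true ∧
    allY (E.wth T1) l32334 = true :=
  ⟨by decide +kernel, by decide +kernel, by decide +kernel, by decide +kernel, by decide +kernel, by decide +kernel, by decide +kernel, by decide +kernel⟩

def t32335 : allY (E.wth T1) l32335 = true ∧
    allY (E.wth T1) l32336 = true ∧
    allY (E.wth T1) l32337 = true ∧
    allY (E.wth T1) l32338 = true ∧
    allY (E.wth T1) l32339 = true ∧
    allY (E.wth T1) l32340 = true ∧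
    allY (E.wth T1) l32341 = true ∧
    allY (E.wth T1) l32342 = true :=
  ⟨by decide +kernel, by decide +kernel, by decide +kernel, by decide +kernel, by decide +kernel, by decide +kernel, by decide +kernel, by decide +kernel⟩

def t32343 : allY (E.wth T1) l32343 = true ∧
    allY (E.wth T1) l32344 = true ∧
    allY (E.wth T1) l32345 = true ∧
    allY (E.wth T1) l32346 = true ∧
    allY (E.wth T1) l32347 = true ∧
    allY (E.wth T1) l32348 = true ∧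
    allY (E.wth T1) l32349 = true ∧
    allY (E.wth T1) l32350 = true :=
  ⟨by decide +kernel, by decide +kernel, by decide +kernel, by decide +kernel, by decide +kernel, by decide +kernel, by decide +kernel, by decide +kernel⟩

def t32351 : allY (E.wth T1) l32351 = true ∧
    allY (E.wth T1) l32352 = true ∧
    allY (E.wth T1) l32353 = true ∧
    allY (E.wth T1) l32354 = true ∧
    allY (E.wth T1) l32355 = true ∧
    allY (E.wth T1) l32356 = true ∧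
    allY (E.wth T1) l32357 = true ∧
    allY (E.wth T1) l32358 = true :=
  ⟨by decide +kernel, by decide +kernel, by decide +kernel, by decide +kernel, by decide +kernel, by decide +kernel, by decide +kernel, by decide +kernel⟩

def t32359 : allY (E.wth T1) l32359 = true ∧
    allY (E.wth T1) l32360 = true ∧
    allY (E.wth T1) l32361 = true ∧
    allY (E.wth T1) l32362 = true ∧
    allY (E.wth T1) l32363 = true ∧
    allY (E.wth T1) l32364 = true ∧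
    allY (E.wth T1) l32365 = true ∧
    allY (E.wth T1) l32366 = true :=
  ⟨by decide +kernel, by decide +kernel, by decide +kernel, by decide +kernel, by decide +kernel, by decide +kernel, by decide +kernel, by decide +kernel⟩

def t32367 : allY (E.wth T1) l32367 = true ∧
    allY (E.wth T1) l32368 = true ∧
    allY (E.wth T1) l32369 = true ∧
    allY (E.wth T1) l32370 = true ∧
    allY (E.wth T1) l32371 = true ∧
    allY (E.wth T1) l32372 = true ∧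
    allY (E.wth T1) l32373 = true ∧
    allY (E.wth T1) l32374 = true :=
  ⟨by decide +kernel, by decide +kernel, by decide +kernel, by decide +kernel, by decide +kernel, by decide +kernel, by decide +kernel, by decide +kernel⟩

def t32375 : allY (E.wth T1) l32375 = true ∧
    allY (E.wth T1) l32376 = true ∧
    allY (E.wth T1) l32377 = true ∧
    allY (E.wth T1) l32378 = true ∧
    allY (E.wth T1) l32379 = true ∧
    allY (E.wth T1) l32380 = true ∧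
    allY (E.wth T1) l32381 = true ∧
    allY (E.wth T1) l32382 = true :=
  ⟨by decide +kernel, by decide +kernel, by decide +kernel, by decide +kernel, by decide +kernel, by decide +kernel, by decide +kernel, by decide +kernel⟩

def t32383 : allY (E.wth T1) l32383 = true ∧
    allY (E.wth T1) l32384 = true ∧
    allY (E.wth T1) l32385 = true ∧
    allY (E.wth T1) l32386 = true ∧
    allY (E.wth T1) l32387 = true ∧
    allY (E.wth T1) l32388 = true ∧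
    allY (E.wth T1) l32389 = true ∧
    allY (E.wth T1) l32390 = true :=
  ⟨by decide +kernel, by decide +kernel, by decide +kernel, by decide +kernel, by decide +kernel, by decide +kernel, by decide +kernel, by decide +kernel⟩

def t32391 : allY (E.wth T1) l32391 = true ∧
    allY (E.wth T1) l32392 = true ∧
    allY (E.wth T1) l32393 = true ∧
    allY (E.wth T1) l32394 = true ∧
    allY (E.wth T1) l32395 = true ∧
    allY (E.wth T1) l32396 = true ∧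
    allY (E.wth T1) l32397 = true ∧
    allY (E.wth T1) l32398 = true :=
  ⟨by decide +kernel, by decide +kernel, by decide +kernel, by decide +kernel, by decide +kernel, by decide +kernel, by decide +kernel, by decide +kernel⟩

def t32399 : allY (E.wth T1) l32399 = true ∧
    allY (E.wth T1) l32400 = true ∧
    allY (E.wth T1) l32401 = true ∧
    allY (E.wth T1) l32402 = true ∧
    allY (E.wth T1) l32403 = true ∧
    allY (E.wth T1) l32404 = true ∧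
    allY (E.wth T1) l32405 = true ∧
    allY (E.wth T1) l32406 = true :=
  ⟨by decide +kernel, by decide +kernel, by decide +kernel, by decide +kernel, by decide +kernel, by decide +kernel, by decide +kernel, by decide +kernel⟩

def t32407 : allY (E.wth T1) l32407 = true ∧
    allY (E.wth T1) l32408 = true ∧
    allY (E.wth T1) l32409 = true ∧
    allY (E.wth T1) l32410 = true ∧
    allY (E.wth T1) l32411 = true ∧
    allY (E.wth T1) l32412 = true ∧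
    allY (E.wth T1) l32413 = true ∧
    allY (E.wth T1) l32414 = true :=
  ⟨by decide +kernel, by decide +kernel, by decide +kernel, by decide +kernel, by decide +kernel, by decide +kernel, by decide +kernel, by decide +kernel⟩

def t32415 : allY (E.wth T1) l32415 = true ∧
    allY (E.wth T1) l32416 = true ∧
    allY (E.wth T1) l32417 = true ∧
    allY (E.wth T1) l32418 = true ∧
    allY (E.wth T1) l32419 = true ∧
    allY (E.wth T1) l32420 = true ∧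
    allY (E.wth T1) l32421 = true ∧
    allY (E.wth T1) l32422 = true :=
  ⟨by decide +kernel, by decide +kernel, by decide +kernel, by decide +kernel, by decide +kernel, by decide +kernel, by decide +kernel, by decide +kernel⟩

def t32423 : allY (E.wth T1) l32423 = true ∧
    allY (E.wth T1) l32424 = true ∧
    allY (E.wth T1) l32425 = true ∧
    allY (E.wth T1) l32426 = true ∧
    allY (E.wth T1) l32427 = true ∧
    allY (E.wth T1) l32428 = true ∧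
    allY (E.wth T1) l32429 = true ∧
    allY (E.wth T1) l32430 = true :=
  ⟨by decide +kernel, by decide +kernel, by decide +kernel, by decide +kernel, by decide +kernel, by decide +kernel, by decide +kernel, by decide +kernel⟩

def t32431 : allY (E.wth T1) l32431 = true ∧
    allY (E.wth T1) l32432 = true ∧
    allY (E.wth T1) l32433 = true ∧
    allY (E.wth T1) l32434 = true ∧
    allY (E.wth T1) l32435 = true ∧
    allY (E.wth T1) l32436 = true ∧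
    allY (E.wth T1) l32437 = true ∧
    allY (E.wth T1) l32438 = true :=
  ⟨by decide +kernel, by decide +kernel, by decide +kernel, by decide +kernel, by decide +kernel, by decide +kernel, by decide +kernel, by decide +kernel⟩

def t32439 : allY (E.wth T1) l32439 = true ∧
    allY (E.wth T1) l32440 = true ∧
    allY (E.wth T1) l32441 = true ∧
    allY (E.wth T1) l32442 = true ∧
    allY (E.wth T1) l32443 = true ∧
    allY (E.wth T1) l32444 = true ∧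
    allY (E.wth T1) l32445 = true ∧
    allY (E.wth T1) l32446 = true :=
  ⟨by decide +kernel, by decide +kernel, by decide +kernel, by decide +kernel, by decide +kernel, by decide +kernel, by decide +kernel, by decide +kernel⟩

def t32447 : allY (E.wth T1) l32447 = true ∧
    allY (E.wth T1) l32448 = true ∧
    allY (E.wth T1) l32449 = true ∧
    allY (E.wth T1) l32450 = true ∧
    allY (E.wth T1) l32451 = true ∧
    allY (E.wth T1) l32452 = true ∧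
    allY (E.wth T1) l32453 = true ∧
    allY (E.wth T1) l32454 = true :=
  ⟨by decide +kernel, by decide +kernel, by decide +kernel, by decide +kernel, by decide +kernel, by decide +kernel, by decide +kernel, by decide +kernel⟩

def t32455 : allY (E.wth T1) l32455 = true ∧
    allY (E.wth T1) l32456 = true ∧
    allY (E.wth T1) l32457 = true ∧
    allY (E.wth T1) l32458 = true ∧
    allY (E.wth T1) l32459 = true ∧
    allY (E.wth T1) l32460 = true ∧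
    allY (E.wth T1) l32461 = true ∧
    allY (E.wth T1) l32462 = true :=
  ⟨by decide +kernel, by decide +kernel, by decide +kernel, by decide +kernel, by decide +kernel, by decide +kernel, by decide +kernel, by decide +kernel⟩

def t32463 : allY (E.wth T1) l32463 = true ∧
    allY (E.wth T1) l32464 = true ∧
    allY (E.wth T1) l32465 = true ∧
    allY (E.wth T1) l32466 = true ∧
    allY (E.wth T1) l32467 = true ∧
    allY (E.wth T1) l32468 = true ∧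
    allY (E.wth T1) l32469 = true ∧
    allY (E.wth T1) l32470 = true :=
  ⟨by decide +kernel, by decide +kernel, by decide +kernel, by decide +kernel, by decide +kernel, by decide +kernel, by decide +kernel, by decide +kernel⟩

def t32471 : allY (E.wth T1) l32471 = true ∧
    allY (E.wth T1) l32472 = true ∧
    allY (E.wth T1) l32473 = true ∧
    allY (E.wth T1) l32474 = true ∧
    allY (E.wth T1) l32475 = true ∧
    allY (E.wth T1) l32476 = true ∧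
    allY (E.wth T1) l32477 = true ∧
    allY (E.wth T1) l32478 = true :=
  ⟨by decide +kernel, by decide +kernel, by decide +kernel, by decide +kernel, by decide +kernel, by decide +kernel, by decide +kernel, by decide +kernel⟩

def t32479 : allY (E.wth T1) l32479 = true ∧
    allY (E.wth T1) l32480 = true ∧
    allY (E.wth T1) l32481 = true ∧
    allY (E.wth T1) l32482 = true ∧
    allY (E.wth T1) l32483 = true ∧
    allY (E.wth T1) l32484 = true ∧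
    allY (E.wth T1) l32485 = true ∧
    allY (E.wth T1) l32486 = true :=
  ⟨by decide +kernel, by decide +kernel, by decide +kernel, by decide +kernel, by decide +kernel, by decide +kernel, by decide +kernel, by decide +kernel⟩

def t32487 : allY (E.wth T1) l32487 = true ∧
    allY (E.wth T1) l32488 = true ∧
    allY (E.wth T1) l32489 = true ∧
    allY (E.wth T1) l32490 = true ∧
    allY (E.wth T1) l32491 = true ∧
    allY (E.wth T1) l32492 = true ∧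
    allY (E.wth T1) l32493 = true ∧
    allY (E.wth T1) l32494 = true :=
  ⟨by decide +kernel, by decide +kernel, by decide +kernel, by decide +kernel, by decide +kernel, by decide +kernel, by decide +kernel, by decide +kernel⟩

def t32495 : allY (E.wth T1) l32495 = true ∧
    allY (E.wth T1) l32496 = true ∧
    allY (E.wth T1) l32497 = true ∧
    allY (E.wth T1) l32498 = true ∧
    allY (E.wth T1) l32499 = true ∧
    allY (E.wth T1) l32500 = true ∧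
    allY (E.wth T1) l32501 = true ∧
    allY (E.wth T1) l32502 = true :=
  ⟨by decide +kernel, by decide +kernel, by decide +kernel, by decide +kernel, by decide +kernel, by decide +kernel, by decide +kernel, by decide +kernel⟩

def t32503 : allY (E.wth T1) l32503 = true ∧
    allY (E.wth T1) l32504 = true ∧
    allY (E.wth T1) l32505 = true ∧
    allY (E.wth T1) l32506 = true ∧
    allY (E.wth T1) l32507 = true ∧
    allY (E.wth T1) l32508 = true ∧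
    allY (E.wth T1) l32509 = true ∧
    allY (E.wth T1) l32510 = true :=
  ⟨by decide +kernel, by decide +kernel, by decide +kernel, by decide +kernel, by decide +kernel, by decide +kernel, by decide +kernel, by decide +kernel⟩

def t32511 : allY (E.wth T1) l32511 = true ∧
    allY (E.wth T1) l32512 = true ∧
    allY (E.wth T1) l32513 = true ∧
    allY (E.wth T1) l32514 = true ∧
    allY (E.wth T1) l32515 = true ∧
    allY (E.wth T1) l32516 = true ∧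
    allY (E.wth T1) l32517 = true ∧
    allY (E.wth T1) l32518 = true :=
  ⟨by decide +kernel, by decide +kernel, by decide +kernel, by decide +kernel, by decide +kernel, by decide +kernel, by decide +kernel, by decide +kernel⟩

def t32519 : allY (E.wth T1) l32519 = true ∧
    allY (E.wth T1) l32520 = true ∧
    allY (E.wth T1) l32521 = true ∧
    allY (E.wth T1) l32522 = true ∧
    allY (E.wth T1) l32523 = true ∧
    allY (E.wth T1) l32524 = true ∧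
    allY (E.wth T1) l32525 = true ∧
    allY (E.wth T1) l32526 = true :=
  ⟨by decide +kernel, by decide +kernel, by decide +kernel, by decide +kernel, by decide +kernel, by decide +kernel, by decide +kernel, by decide +kernel⟩

def t32527 : allY (E.wth T1) l32527 = true ∧
    allY (E.wth T1) l32528 = true ∧
    allY (E.wth T1) l32529 = true ∧
    allY (E.wth T1) l32530 = true ∧
    allY (E.wth T1) l32531 = true ∧
    allY (E.wth T1) l32532 = true ∧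
    allY (E.wth T1) l32533 = true ∧
    allY (E.wth T1) l32534 = true :=
  ⟨by decide +kernel, by decide +kernel, by decide +kernel, by decide +kernel, by decide +kernel, by decide +kernel, by decide +kernel, by decide +kernel⟩

def t32535 : allY (E.wth T1) l32535 = true ∧
    allY (E.wth T1) l32536 = true ∧
    allY (E.wth T1) l32537 = true ∧
    allY (E.wth T1) l32538 = true ∧
    allY (E.wth T1) l32539 = true ∧
    allY (E.wth T1) l32540 = true ∧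
    allY (E.wth T1) l32541 = true ∧
    allY (E.wth T1) l32542 = true :=
  ⟨by decide +kernel, by decide +kernel, by decide +kernel, by decide +kernel, by decide +kernel, by decide +kernel, by decide +kernel, by decide +kernel⟩

def t32543 : allY (E.wth T1) l32543 = true ∧
    allY (E.wth T1) l32544 = true ∧
    allY (E.wth T1) l32545 = true ∧
    allY (E.wth T1) l32546 = true ∧
    allY (E.wth T1) l32547 = true ∧
    allY (E.wth T1) l32548 = true ∧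
    allY (E.wth T1) l32549 = true ∧
    allY (E.wth T1) l32550 = true :=
  ⟨by decide +kernel, by decide +kernel, by decide +kernel, by decide +kernel, by decide +kernel, by decide +kernel, by decide +kernel, by decide +kernel⟩

def t32551 : allY (E.wth T1) l32551 = true ∧
    allY (E.wth T1) l32552 = true ∧
    allY (E.wth T1) l32553 = true ∧
    allY (E.wth T1) l32554 = true ∧
    allY (E.wth T1) l32555 = true ∧
    allY (E.wth T1) l32556 = true ∧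
    allY (E.wth T1) l32557 = true ∧
    allY (E.wth T1) l32558 = true :=
  ⟨by decide +kernel, by decide +kernel, by decide +kernel, by decide +kernel, by decide +kernel, by decide +kernel, by decide +kernel, by decide +kernel⟩

def t32559 : allY (E.wth T1) l32559 = true ∧
    allY (E.wth T1) l32560 = true ∧
    allY (E.wth T1) l32561 = true ∧
    allY (E.wth T1) l32562 = true ∧
    allY (E.wth T1) l32563 = true ∧
    allY (E.wth T1) l32564 = true ∧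
    allY (E.wth T1) l32565 = true ∧
    allY (E.wth T1) l32566 = true :=
  ⟨by decide +kernel, by decide +kernel, by decide +kernel, by decide +kernel, by decide +kernel, by decide +kernel, by decide +kernel, by decide +kernel⟩

def t32567 : allY (E.wth T1) l32567 = true ∧
    allY (E.wth T1) l32568 = true ∧
    allY (E.wth T1) l32569 = true ∧
    allY (E.wth T1) l32570 = true ∧
    allY (E.wth T1) l32571 = true ∧
    allY (E.wth T1) l32572 = true ∧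
    allY (E.wth T1) l32573 = true ∧
    allY (E.wth T1) l32574 = true :=
  ⟨by decide +kernel, by decide +kernel, by decide +kernel, by decide +kernel, by decide +kernel, by decide +kernel, by decide +kernel, by decide +kernel⟩

def t32575 : allY (E.wth T1) l32575 = true ∧
    allY (E.wth T1) l32576 = true ∧
    allY (E.wth T1) l32577 = true ∧
    allY (E.wth T1) l32578 = true ∧
    allY (E.wth T1) l32579 = true ∧
    allY (E.wth T1) l32580 = true ∧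
    allY (E.wth T1) l32581 = true ∧
    allY (E.wth T1) l32582 = true :=
  ⟨by decide +kernel, by decide +kernel, by decide +kernel, by decide +kernel, by decide +kernel, by decide +kernel, by decide +kernel, by decide +kernel⟩

def t32583 : allY (E.wth T1) l32583 = true ∧
    allY (E.wth T1) l32584 = true ∧
    allY (E.wth T1) l32585 = true ∧
    allY (E.wth T1) l32586 = true ∧
    allY (E.wth T1) l32587 = true ∧
    allY (E.wth T1) l32588 = true ∧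
    allY (E.wth T1) l32589 = true ∧
    allY (E.wth T1) l32590 = true :=
  ⟨by decide +kernel, by decide +kernel, by decide +kernel, by decide +kernel, by decide +kernel, by decide +kernel, by decide +kernel, by decide +kernel⟩

def t32591 : allY (E.wth T1) l32591 = true ∧
    allY (E.wth T1) l32592 = true ∧
    allY (E.wth T1) l32593 = true ∧
    allY (E.wth T1) l32594 = true ∧
    allY (E.wth T1) l32595 = true ∧
    allY (E.wth T1) l32596 = true ∧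
    allY (E.wth T1) l32597 = true ∧
    allY (E.wth T1) l32598 = true :=
  ⟨by decide +kernel, by decide +kernel, by decide +kernel, by decide +kernel, by decide +kernel, by decide +kernel, by decide +kernel, by decide +kernel⟩

def t32599 : allY (E.wth T1) l32599 = true ∧
    allY (E.wth T1) l32600 = true ∧
    allY (E.wth T1) l32601 = true ∧
    allY (E.wth T1) l32602 = true ∧
    allY (E.wth T1) l32603 = true ∧
    allY (E.wth T1) l32604 = true ∧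
    allY (E.wth T1) l32605 = true ∧
    allY (E.wth T1) l32606 = true :=
  ⟨by decide +kernel, by decide +kernel, by decide +kernel, by decide +kernel, by decide +kernel, by decide +kernel, by decide +kernel, by decide +kernel⟩

def t32607 : allY (E.wth T1) l32607 = true ∧
    allY (E.wth T1) l32608 = true ∧
    allY (E.wth T1) l32609 = true ∧
    allY (E.wth T1) l32610 = true ∧
    allY (E.wth T1) l32611 = true ∧
    allY (E.wth T1) l32612 = true ∧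
    allY (E.wth T1) l32613 = true ∧
    allY (E.wth T1) l32614 = true :=
  ⟨by decide +kernel, by decide +kernel, by decide +kernel, by decide +kernel, by decide +kernel, by decide +kernel, by decide +kernel, by decide +kernel⟩

def t32615 : allY (E.wth T1) l32615 = true ∧
    allY (E.wth T1) l32616 = true ∧
    allY (E.wth T1) l32617 = true ∧
    allY (E.wth T1) l32618 = true ∧
    allY (E.wth T1) l32619 = true ∧
    allY (E.wth T1) l32620 = true ∧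
    allY (E.wth T1) l32621 = true ∧
    allY (E.wth T1) l32622 = true :=
  ⟨by decide +kernel, by decide +kernel, by decide +kernel, by decide +kernel, by decide +kernel, by decide +kernel, by decide +kernel, by decide +kernel⟩

def t32623 : allY (E.wth T1) l32623 = true ∧
    allY (E.wth T1) l32624 = true ∧
    allY (E.wth T1) l32625 = true ∧
    allY (E.wth T1) l32626 = true ∧
    allY (E.wth T1) l32627 = true ∧
    allY (E.wth T1) l32628 = true ∧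
    allY (E.wth T1) l32629 = true ∧
    allY (E.wth T1) l32630 = true :=
  ⟨by decide +kernel, by decide +kernel, by decide +kernel, by decide +kernel, by decide +kernel, by decide +kernel, by decide +kernel, by decide +kernel⟩

def t32631 : allY (E.wth T1) l32631 = true ∧
    allY (E.wth T1) l32632 = true ∧
    allY (E.wth T1) l32633 = true ∧
    allY (E.wth T1) l32634 = true ∧
    allY (E.wth T1) l32635 = true ∧
    allY (E.wth T1) l32636 = true ∧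
    allY (E.wth T1) l32637 = true ∧
    allY (E.wth T1) l32638 = true :=
  ⟨by decide +kernel, by decide +kernel, by decide +kernel, by decide +kernel, by decide +kernel, by decide +kernel, by decide +kernel, by decide +kernel⟩

def t32639 : allY (E.wth T1) l32639 = true ∧
    allY (E.wth T1) l32640 = true ∧
    allY (E.wth T1) l32641 = true ∧
    allY (E.wth T1) l32642 = true ∧
    allY (E.wth T1) l32643 = true ∧
    allY (E.wth T1) l32644 = true ∧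
    allY (E.wth T1) l32645 = true ∧
    allY (E.wth T1) l32646 = true :=
  ⟨by decide +kernel, by decide +kernel, by decide +kernel, by decide +kernel, by decide +kernel, by decide +kernel, by decide +kernel, by decide +kernel⟩

def t32647 : allY (E.wth T1) l32647 = true ∧
    allY (E.wth T1) l32648 = true ∧
    allY (E.wth T1) l32649 = true ∧
    allY (E.wth T1) l32650 = true ∧
    allY (E.wth T1) l32651 = true ∧
    allY (E.wth T1) l32652 = true :=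
  ⟨by decide +kernel, by decide +kernel, by decide +kernel, by decide +kernel, by decide +kernel, by decide +kernel⟩

theorem a58 {p : Rf → Prop} (H : ∀ l, allY (E.wth T1) l = true → (lkp l).All p) :
    b58.All p := ⟨⟨⟨⟨⟨⟨⟨⟨⟨H _ t32119.1, H _ t32119.2.1⟩, ⟨H _ t32119.2.2.1, H _ t32119.2.2.2.1⟩⟩, ⟨⟨H _ t32119.2.2.2.2.1, H _ t32119.2.2.2.2.2.1⟩, ⟨H _ t32119.2.2.2.2.2.2.1, H _ t32119.2.2.2.2.2.2.2⟩⟩⟩, ⟨⟨⟨H _ t32127.1, H _ t32127.2.1⟩, ⟨H _ t32127.2.2.1, H _ t32127.2.2.2.1⟩⟩, ⟨⟨H _ t32127.2.2.2.2.1, H _ t32127.2.2.2.2.2.1⟩, ⟨H _ t32127.2.2.2.2.2.2.1, H _ t32127.2.2.2.2.2.2.2⟩⟩⟩⟩, ⟨⟨⟨⟨H _ t32135.1, H _ t32135.2.1⟩, ⟨H _ t32135.2.2.1, H _ t32135.2.2.2.1⟩⟩, ⟨⟨H _ t32135.2.2.2.2.1, H _ t32135.2.2.2.2.2.1⟩, ⟨H _ t32135.2.2.2.2.2.2.1, H _ t32135.2.2.2.2.2.2.2⟩⟩⟩, ⟨⟨⟨H _ t32143.1, H _ t32143.2.1⟩, ⟨H _ t32143.2.2.1, H _ t32143.2.2.2.1⟩⟩, ⟨⟨H _ t32143.2.2.2.2.1, H _ t32143.2.2.2.2.2.1⟩, ⟨H _ t32143.2.2.2.2.2.2.1,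 ⟨H _ t32143.2.2.2.2.2.2.2, H _ t32151.1⟩⟩⟩⟩⟩⟩, ⟨⟨⟨⟨⟨H _ t32151.2.1, H _ t32151.2.2.1⟩, ⟨H _ t32151.2.2.2.1, H _ t32151.2.2.2.2.1⟩⟩, ⟨⟨H _ t32151.2.2.2.2.2.1, H _ t32151.2.2.2.2.2.2.1⟩, ⟨H _ t32151.2.2.2.2.2.2.2, H _ t32159.1⟩⟩⟩, ⟨⟨⟨H _ t32159.2.1, H _ t32159.2.2.1⟩, ⟨H _ t32159.2.2.2.1, H _ t32159.2.2.2.2.1⟩⟩, ⟨⟨H _ t32159.2.2.2.2.2.1, H _ t32159.2.2.2.2.2.2.1⟩, ⟨H _ t32159.2.2.2.2.2.2.2, H _ t32167.1⟩⟩⟩⟩, ⟨⟨⟨⟨H _ t32167.2.1, H _ t32167.2.2.1⟩, ⟨H _ t32167.2.2.2.1, H _ t32167.2.2.2.2.1⟩⟩, ⟨⟨H _ t32167.2.2.2.2.2.1, H _ t32167.2.2.2.2.2.2.1⟩, ⟨H _ t32167.2.2.2.2.2.2.2, H _ t32175.1⟩⟩⟩, ⟨⟨⟨H _ t32175.2.1, H _ t32175.2.2.1⟩, ⟨H _ t32175.2.2.2.1, H _ t32175.2.2.2.2.1⟩⟩, ⟨⟨H _ t32175.2.2.2.2.2.1, H _ t32175.2.2.2.2.2.2.1⟩, ⟨H _ t32175.2.2.2.2.2.2.2, ⟨H _ t32183.1, H _ t32183.2.1⟩⟩⟩⟩⟩⟩⟩, ⟨⟨⟨⟨⟨⟨H _ t32183.2.2.1, H _ t32183.2.2.2.1⟩, ⟨H _ t32183.2.2.2.2.1, H _ t32183.2.2.2.2.2.1⟩⟩, ⟨⟨H _ t32183.2.2.2.2.2.2.1,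 H _ t32183.2.2.2.2.2.2.2⟩, ⟨H _ t32191.1, H _ t32191.2.1⟩⟩⟩, ⟨⟨⟨H _ t32191.2.2.1, H _ t32191.2.2.2.1⟩, ⟨H _ t32191.2.2.2.2.1, H _ t32191.2.2.2.2.2.1⟩⟩, ⟨⟨H _ t32191.2.2.2.2.2.2.1, H _ t32191.2.2.2.2.2.2.2⟩, ⟨H _ t32199.1, H _ t32199.2.1⟩⟩⟩⟩, ⟨⟨⟨⟨H _ t32199.2.2.1, H _ t32199.2.2.2.1⟩, ⟨H _ t32199.2.2.2.2.1, H _ t32199.2.2.2.2.2.1⟩⟩, ⟨⟨H _ t32199.2.2.2.2.2.2.1, H _ t32199.2.2.2.2.2.2.2⟩, ⟨H _ t32207.1, H _ t32207.2.1⟩⟩⟩, ⟨⟨⟨H _ t32207.2.2.1, H _ t32207.2.2.2.1⟩, ⟨H _ t32207.2.2.2.2.1, H _ t32207.2.2.2.2.2.1⟩⟩, ⟨⟨H _ t32207.2.2.2.2.2.2.1, H _ t32207.2.2.2.2.2.2.2⟩, ⟨H _ t32215.1, ⟨H _ t32215.2.1, H _ t32215.2.2.1⟩⟩⟩⟩⟩⟩, ⟨⟨⟨⟨⟨H _ t32215.2.2.2.1, H _ t32215.2.2.2.2.1⟩, ⟨H _ t32215.2.2.2.2.2.1, H _ t32215.2.2.2.2.2.2.1⟩⟩, ⟨⟨H _ t32215.2.2.2.2.2.2.2, H _ t32223.1⟩, ⟨H _ t32223.2.1, H _ t32223.2.2.1⟩⟩⟩, ⟨⟨⟨H _ t32223.2.2.2.1, H _ t32223.2.2.2.2.1⟩, ⟨H _ t32223.2.2.2.2.2.1, H _ t32223.2.2.2.2.2.2.1⟩⟩,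 ⟨⟨H _ t32223.2.2.2.2.2.2.2, H _ t32231.1⟩, ⟨H _ t32231.2.1, ⟨H _ t32231.2.2.1, H _ t32231.2.2.2.1⟩⟩⟩⟩⟩, ⟨⟨⟨⟨H _ t32231.2.2.2.2.1, H _ t32231.2.2.2.2.2.1⟩, ⟨H _ t32231.2.2.2.2.2.2.1, H _ t32231.2.2.2.2.2.2.2⟩⟩, ⟨⟨H _ t32239.1, H _ t32239.2.1⟩, ⟨H _ t32239.2.2.1, H _ t32239.2.2.2.1⟩⟩⟩, ⟨⟨⟨H _ t32239.2.2.2.2.1, H _ t32239.2.2.2.2.2.1⟩, ⟨H _ t32239.2.2.2.2.2.2.1, H _ t32239.2.2.2.2.2.2.2⟩⟩, ⟨⟨H _ t32247.1, H _ t32247.2.1⟩, ⟨H _ t32247.2.2.1, ⟨H _ t32247.2.2.2.1, H _ t32247.2.2.2.2.1⟩⟩⟩⟩⟩⟩⟩⟩, ⟨⟨⟨⟨⟨⟨⟨H _ t32247.2.2.2.2.2.1, H _ t32247.2.2.2.2.2.2.1⟩, ⟨H _ t32247.2.2.2.2.2.2.2, H _ t32255.1⟩⟩, ⟨⟨H _ t32255.2.1, H _ t32255.2.2.1⟩, ⟨H _ t32255.2.2.2.1, H _ t32255.2.2.2.2.1⟩⟩⟩, ⟨⟨⟨H _ t32255.2.2.2.2.2.1, H _ t32255.2.2.2.2.2.2.1⟩, ⟨H _ t32255.2.2.2.2.2.2.2, H _ t32263.1⟩⟩, ⟨⟨H _ t32263.2.1, H _ t32263.2.2.1⟩, ⟨H _ t32263.2.2.2.1, H _ t32263.2.2.2.2.1⟩⟩⟩⟩, ⟨⟨⟨⟨H _ t32263.2.2.2.2.2.1, H _ t32263.2.2.2.2.2.2.1⟩,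 ⟨H _ t32263.2.2.2.2.2.2.2, H _ t32271.1⟩⟩, ⟨⟨H _ t32271.2.1, H _ t32271.2.2.1⟩, ⟨H _ t32271.2.2.2.1, H _ t32271.2.2.2.2.1⟩⟩⟩, ⟨⟨⟨H _ t32271.2.2.2.2.2.1, H _ t32271.2.2.2.2.2.2.1⟩, ⟨H _ t32271.2.2.2.2.2.2.2, H _ t32279.1⟩⟩, ⟨⟨H _ t32279.2.1, H _ t32279.2.2.1⟩, ⟨H _ t32279.2.2.2.1, ⟨H _ t32279.2.2.2.2.1, H _ t32279.2.2.2.2.2.1⟩⟩⟩⟩⟩⟩, ⟨⟨⟨⟨⟨H _ t32279.2.2.2.2.2.2.1, H _ t32279.2.2.2.2.2.2.2⟩, ⟨H _ t32287.1, H _ t32287.2.1⟩⟩, ⟨⟨H _ t32287.2.2.1, H _ t32287.2.2.2.1⟩, ⟨H _ t32287.2.2.2.2.1, H _ t32287.2.2.2.2.2.1⟩⟩⟩, ⟨⟨⟨H _ t32287.2.2.2.2.2.2.1, H _ t32287.2.2.2.2.2.2.2⟩, ⟨H _ t32295.1, H _ t32295.2.1⟩⟩, ⟨⟨H _ t32295.2.2.1, H _ t32295.2.2.2.1⟩, ⟨H _ t32295.2.2.2.2.1, ⟨H _ t32295.2.2.2.2.2.1, H _ t32295.2.2.2.2.2.2.1⟩⟩⟩⟩⟩, ⟨⟨⟨⟨H _ t32295.2.2.2.2.2.2.2, H _ t32303.1⟩, ⟨H _ t32303.2.1, H _ t32303.2.2.1⟩⟩, ⟨⟨H _ t32303.2.2.2.1, H _ t32303.2.2.2.2.1⟩, ⟨H _ t32303.2.2.2.2.2.1, H _ t32303.2.2.2.2.2.2.1⟩⟩⟩,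 ⟨⟨⟨H _ t32303.2.2.2.2.2.2.2, H _ t32311.1⟩, ⟨H _ t32311.2.1, H _ t32311.2.2.1⟩⟩, ⟨⟨H _ t32311.2.2.2.1, H _ t32311.2.2.2.2.1⟩, ⟨H _ t32311.2.2.2.2.2.1, ⟨H _ t32311.2.2.2.2.2.2.1, H _ t32311.2.2.2.2.2.2.2⟩⟩⟩⟩⟩⟩⟩, ⟨⟨⟨⟨⟨⟨H _ t32319.1, H _ t32319.2.1⟩, ⟨H _ t32319.2.2.1, H _ t32319.2.2.2.1⟩⟩, ⟨⟨H _ t32319.2.2.2.2.1, H _ t32319.2.2.2.2.2.1⟩, ⟨H _ t32319.2.2.2.2.2.2.1, H _ t32319.2.2.2.2.2.2.2⟩⟩⟩, ⟨⟨⟨H _ t32327.1, H _ t32327.2.1⟩, ⟨H _ t32327.2.2.1, H _ t32327.2.2.2.1⟩⟩, ⟨⟨H _ t32327.2.2.2.2.1, H _ t32327.2.2.2.2.2.1⟩, ⟨H _ t32327.2.2.2.2.2.2.1, H _ t32327.2.2.2.2.2.2.2⟩⟩⟩⟩, ⟨⟨⟨⟨H _ t32335.1, H _ t32335.2.1⟩, ⟨H _ t32335.2.2.1, H _ t32335.2.2.2.1⟩⟩, ⟨⟨H _ t32335.2.2.2.2.1, H _ t32335.2.2.2.2.2.1⟩, ⟨H _ t32335.2.2.2.2.2.2.1, H _ t32335.2.2.2.2.2.2.2⟩⟩⟩, ⟨⟨⟨H _ t32343.1, H _ t32343.2.1⟩, ⟨H _ t32343.2.2.1, H _ t32343.2.2.2.1⟩⟩, ⟨⟨H _ t32343.2.2.2.2.1, H _ t32343.2.2.2.2.2.1⟩, ⟨H _ t32343.2.2.2.2.2.2.1,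 ⟨H _ t32343.2.2.2.2.2.2.2, H _ t32351.1⟩⟩⟩⟩⟩⟩, ⟨⟨⟨⟨⟨H _ t32351.2.1, H _ t32351.2.2.1⟩, ⟨H _ t32351.2.2.2.1, H _ t32351.2.2.2.2.1⟩⟩, ⟨⟨H _ t32351.2.2.2.2.2.1, H _ t32351.2.2.2.2.2.2.1⟩, ⟨H _ t32351.2.2.2.2.2.2.2, H _ t32359.1⟩⟩⟩, ⟨⟨⟨H _ t32359.2.1, H _ t32359.2.2.1⟩, ⟨H _ t32359.2.2.2.1, H _ t32359.2.2.2.2.1⟩⟩, ⟨⟨H _ t32359.2.2.2.2.2.1, H _ t32359.2.2.2.2.2.2.1⟩, ⟨H _ t32359.2.2.2.2.2.2.2, ⟨H _ t32367.1, H _ t32367.2.1⟩⟩⟩⟩⟩, ⟨⟨⟨⟨H _ t32367.2.2.1, H _ t32367.2.2.2.1⟩, ⟨H _ t32367.2.2.2.2.1, H _ t32367.2.2.2.2.2.1⟩⟩, ⟨⟨H _ t32367.2.2.2.2.2.2.1, H _ t32367.2.2.2.2.2.2.2⟩, ⟨H _ t32375.1, H _ t32375.2.1⟩⟩⟩, ⟨⟨⟨H _ t32375.2.2.1, H _ t32375.2.2.2.1⟩, ⟨H _ t32375.2.2.2.2.1, H _ t32375.2.2.2.2.2.1⟩⟩, ⟨⟨H _ t32375.2.2.2.2.2.2.1, H _ t32375.2.2.2.2.2.2.2⟩, ⟨H _ t32383.1, ⟨H _ t32383.2.1, H _ t32383.2.2.1⟩⟩⟩⟩⟩⟩⟩⟩⟩, ⟨⟨⟨⟨⟨⟨⟨⟨H _ t32383.2.2.2.1, H _ t32383.2.2.2.2.1⟩, ⟨H _ t32383.2.2.2.2.2.1, H _ t32383.2.2.2.2.2.2.1⟩⟩,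 ⟨⟨H _ t32383.2.2.2.2.2.2.2, H _ t32391.1⟩, ⟨H _ t32391.2.1, H _ t32391.2.2.1⟩⟩⟩, ⟨⟨⟨H _ t32391.2.2.2.1, H _ t32391.2.2.2.2.1⟩, ⟨H _ t32391.2.2.2.2.2.1, H _ t32391.2.2.2.2.2.2.1⟩⟩, ⟨⟨H _ t32391.2.2.2.2.2.2.2, H _ t32399.1⟩, ⟨H _ t32399.2.1, H _ t32399.2.2.1⟩⟩⟩⟩, ⟨⟨⟨⟨H _ t32399.2.2.2.1, H _ t32399.2.2.2.2.1⟩, ⟨H _ t32399.2.2.2.2.2.1, H _ t32399.2.2.2.2.2.2.1⟩⟩, ⟨⟨H _ t32399.2.2.2.2.2.2.2, H _ t32407.1⟩, ⟨H _ t32407.2.1, H _ t32407.2.2.1⟩⟩⟩, ⟨⟨⟨H _ t32407.2.2.2.1, H _ t32407.2.2.2.2.1⟩, ⟨H _ t32407.2.2.2.2.2.1, H _ t32407.2.2.2.2.2.2.1⟩⟩, ⟨⟨H _ t32407.2.2.2.2.2.2.2, H _ t32415.1⟩, ⟨H _ t32415.2.1, ⟨H _ t32415.2.2.1, H _ t32415.2.2.2.1⟩⟩⟩⟩⟩⟩, ⟨⟨⟨⟨⟨H _ t32415.2.2.2.2.1, H _ t32415.2.2.2.2.2.1⟩, ⟨H _ t32415.2.2.2.2.2.2.1, H _ t32415.2.2.2.2.2.2.2⟩⟩, ⟨⟨H _ t32423.1, H _ t32423.2.1⟩, ⟨H _ t32423.2.2.1, H _ t32423.2.2.2.1⟩⟩⟩, ⟨⟨⟨H _ t32423.2.2.2.2.1, H _ t32423.2.2.2.2.2.1⟩, ⟨H _ t32423.2.2.2.2.2.2.1,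 H _ t32423.2.2.2.2.2.2.2⟩⟩, ⟨⟨H _ t32431.1, H _ t32431.2.1⟩, ⟨H _ t32431.2.2.1, H _ t32431.2.2.2.1⟩⟩⟩⟩, ⟨⟨⟨⟨H _ t32431.2.2.2.2.1, H _ t32431.2.2.2.2.2.1⟩, ⟨H _ t32431.2.2.2.2.2.2.1, H _ t32431.2.2.2.2.2.2.2⟩⟩, ⟨⟨H _ t32439.1, H _ t32439.2.1⟩, ⟨H _ t32439.2.2.1, H _ t32439.2.2.2.1⟩⟩⟩, ⟨⟨⟨H _ t32439.2.2.2.2.1, H _ t32439.2.2.2.2.2.1⟩, ⟨H _ t32439.2.2.2.2.2.2.1, H _ t32439.2.2.2.2.2.2.2⟩⟩, ⟨⟨H _ t32447.1, H _ t32447.2.1⟩, ⟨H _ t32447.2.2.1, ⟨H _ t32447.2.2.2.1, H _ t32447.2.2.2.2.1⟩⟩⟩⟩⟩⟩⟩, ⟨⟨⟨⟨⟨⟨H _ t32447.2.2.2.2.2.1, H _ t32447.2.2.2.2.2.2.1⟩, ⟨H _ t32447.2.2.2.2.2.2.2, H _ t32455.1⟩⟩, ⟨⟨H _ t32455.2.1, H _ t32455.2.2.1⟩, ⟨H _ t32455.2.2.2.1, H _ t32455.2.2.2.2.1⟩⟩⟩, ⟨⟨⟨H _ t32455.2.2.2.2.2.1, H _ t32455.2.2.2.2.2.2.1⟩, ⟨H _ t32455.2.2.2.2.2.2.2, H _ t32463.1⟩⟩, ⟨⟨H _ t32463.2.1, H _ t32463.2.2.1⟩, ⟨H _ t32463.2.2.2.1, H _ t32463.2.2.2.2.1⟩⟩⟩⟩, ⟨⟨⟨⟨H _ t32463.2.2.2.2.2.1, H _ t32463.2.2.2.2.2.2.1⟩,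 ⟨H _ t32463.2.2.2.2.2.2.2, H _ t32471.1⟩⟩, ⟨⟨H _ t32471.2.1, H _ t32471.2.2.1⟩, ⟨H _ t32471.2.2.2.1, H _ t32471.2.2.2.2.1⟩⟩⟩, ⟨⟨⟨H _ t32471.2.2.2.2.2.1, H _ t32471.2.2.2.2.2.2.1⟩, ⟨H _ t32471.2.2.2.2.2.2.2, H _ t32479.1⟩⟩, ⟨⟨H _ t32479.2.1, H _ t32479.2.2.1⟩, ⟨H _ t32479.2.2.2.1, ⟨H _ t32479.2.2.2.2.1, H _ t32479.2.2.2.2.2.1⟩⟩⟩⟩⟩⟩, ⟨⟨⟨⟨⟨H _ t32479.2.2.2.2.2.2.1, H _ t32479.2.2.2.2.2.2.2⟩, ⟨H _ t32487.1, H _ t32487.2.1⟩⟩, ⟨⟨H _ t32487.2.2.1, H _ t32487.2.2.2.1⟩, ⟨H _ t32487.2.2.2.2.1, H _ t32487.2.2.2.2.2.1⟩⟩⟩, ⟨⟨⟨H _ t32487.2.2.2.2.2.2.1, H _ t32487.2.2.2.2.2.2.2⟩, ⟨H _ t32495.1, H _ t32495.2.1⟩⟩, ⟨⟨H _ t32495.2.2.1, H _ t32495.2.2.2.1⟩, ⟨H _ t32495.2.2.2.2.1, ⟨H _ t32495.2.2.2.2.2.1, H _ t32495.2.2.2.2.2.2.1⟩⟩⟩⟩⟩, ⟨⟨⟨⟨H _ t32495.2.2.2.2.2.2.2, H _ t32503.1⟩, ⟨H _ t32503.2.1, H _ t32503.2.2.1⟩⟩, ⟨⟨H _ t32503.2.2.2.1, H _ t32503.2.2.2.2.1⟩, ⟨H _ t32503.2.2.2.2.2.1, H _ t32503.2.2.2.2.2.2.1⟩⟩⟩,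 ⟨⟨⟨H _ t32503.2.2.2.2.2.2.2, H _ t32511.1⟩, ⟨H _ t32511.2.1, H _ t32511.2.2.1⟩⟩, ⟨⟨H _ t32511.2.2.2.1, H _ t32511.2.2.2.2.1⟩, ⟨H _ t32511.2.2.2.2.2.1, ⟨H _ t32511.2.2.2.2.2.2.1, H _ t32511.2.2.2.2.2.2.2⟩⟩⟩⟩⟩⟩⟩⟩, ⟨⟨⟨⟨⟨⟨⟨H _ t32519.1, H _ t32519.2.1⟩, ⟨H _ t32519.2.2.1, H _ t32519.2.2.2.1⟩⟩, ⟨⟨H _ t32519.2.2.2.2.1, H _ t32519.2.2.2.2.2.1⟩, ⟨H _ t32519.2.2.2.2.2.2.1, H _ t32519.2.2.2.2.2.2.2⟩⟩⟩, ⟨⟨⟨H _ t32527.1, H _ t32527.2.1⟩, ⟨H _ t32527.2.2.1, H _ t32527.2.2.2.1⟩⟩, ⟨⟨H _ t32527.2.2.2.2.1, H _ t32527.2.2.2.2.2.1⟩, ⟨H _ t32527.2.2.2.2.2.2.1, H _ t32527.2.2.2.2.2.2.2⟩⟩⟩⟩, ⟨⟨⟨⟨H _ t32535.1, H _ t32535.2.1⟩, ⟨H _ t32535.2.2.1, H _ t32535.2.2.2.1⟩⟩, ⟨⟨H _ t32535.2.2.2.2.1, H _ t32535.2.2.2.2.2.1⟩, ⟨H _ t32535.2.2.2.2.2.2.1, H _ t32535.2.2.2.2.2.2.2⟩⟩⟩, ⟨⟨⟨H _ t32543.1, H _ t32543.2.1⟩, ⟨H _ t32543.2.2.1, H _ t32543.2.2.2.1⟩⟩, ⟨⟨H _ t32543.2.2.2.2.1, H _ t32543.2.2.2.2.2.1⟩, ⟨H _ t32543.2.2.2.2.2.2.1,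 ⟨H _ t32543.2.2.2.2.2.2.2, H _ t32551.1⟩⟩⟩⟩⟩⟩, ⟨⟨⟨⟨⟨H _ t32551.2.1, H _ t32551.2.2.1⟩, ⟨H _ t32551.2.2.2.1, H _ t32551.2.2.2.2.1⟩⟩, ⟨⟨H _ t32551.2.2.2.2.2.1, H _ t32551.2.2.2.2.2.2.1⟩, ⟨H _ t32551.2.2.2.2.2.2.2, H _ t32559.1⟩⟩⟩, ⟨⟨⟨H _ t32559.2.1, H _ t32559.2.2.1⟩, ⟨H _ t32559.2.2.2.1, H _ t32559.2.2.2.2.1⟩⟩, ⟨⟨H _ t32559.2.2.2.2.2.1, H _ t32559.2.2.2.2.2.2.1⟩, ⟨H _ t32559.2.2.2.2.2.2.2, ⟨H _ t32567.1, H _ t32567.2.1⟩⟩⟩⟩⟩, ⟨⟨⟨⟨H _ t32567.2.2.1, H _ t32567.2.2.2.1⟩, ⟨H _ t32567.2.2.2.2.1, H _ t32567.2.2.2.2.2.1⟩⟩, ⟨⟨H _ t32567.2.2.2.2.2.2.1, H _ t32567.2.2.2.2.2.2.2⟩, ⟨H _ t32575.1, H _ t32575.2.1⟩⟩⟩, ⟨⟨⟨H _ t32575.2.2.1, H _ t32575.2.2.2.1⟩, ⟨H _ t32575.2.2.2.2.1, H _ t32575.2.2.2.2.2.1⟩⟩, ⟨⟨H _ t32575.2.2.2.2.2.2.1, H _ t32575.2.2.2.2.2.2.2⟩, ⟨H _ t32583.1, ⟨H _ t32583.2.1, H _ t32583.2.2.1⟩⟩⟩⟩⟩⟩⟩, ⟨⟨⟨⟨⟨⟨H _ t32583.2.2.2.1, H _ t32583.2.2.2.2.1⟩, ⟨H _ t32583.2.2.2.2.2.1, H _ t32583.2.2.2.2.2.2.1⟩⟩,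 ⟨⟨H _ t32583.2.2.2.2.2.2.2, H _ t32591.1⟩, ⟨H _ t32591.2.1, H _ t32591.2.2.1⟩⟩⟩, ⟨⟨⟨H _ t32591.2.2.2.1, H _ t32591.2.2.2.2.1⟩, ⟨H _ t32591.2.2.2.2.2.1, H _ t32591.2.2.2.2.2.2.1⟩⟩, ⟨⟨H _ t32591.2.2.2.2.2.2.2, H _ t32599.1⟩, ⟨H _ t32599.2.1, H _ t32599.2.2.1⟩⟩⟩⟩, ⟨⟨⟨⟨H _ t32599.2.2.2.1, H _ t32599.2.2.2.2.1⟩, ⟨H _ t32599.2.2.2.2.2.1, H _ t32599.2.2.2.2.2.2.1⟩⟩, ⟨⟨H _ t32599.2.2.2.2.2.2.2, H _ t32607.1⟩, ⟨H _ t32607.2.1, H _ t32607.2.2.1⟩⟩⟩, ⟨⟨⟨H _ t32607.2.2.2.1, H _ t32607.2.2.2.2.1⟩, ⟨H _ t32607.2.2.2.2.2.1, H _ t32607.2.2.2.2.2.2.1⟩⟩, ⟨⟨H _ t32607.2.2.2.2.2.2.2, H _ t32615.1⟩, ⟨H _ t32615.2.1, ⟨H _ t32615.2.2.1, H _ t32615.2.2.2.1⟩⟩⟩⟩⟩⟩, ⟨⟨⟨⟨⟨H _ t32615.2.2.2.2.1, H _ t32615.2.2.2.2.2.1⟩, ⟨H _ t32615.2.2.2.2.2.2.1, H _ t32615.2.2.2.2.2.2.2⟩⟩, ⟨⟨H _ t32623.1, H _ t32623.2.1⟩, ⟨H _ t32623.2.2.1, H _ t32623.2.2.2.1⟩⟩⟩, ⟨⟨⟨H _ t32623.2.2.2.2.1, H _ t32623.2.2.2.2.2.1⟩, ⟨H _ t32623.2.2.2.2.2.2.1,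 H _ t32623.2.2.2.2.2.2.2⟩⟩, ⟨⟨H _ t32631.1, H _ t32631.2.1⟩, ⟨H _ t32631.2.2.1, ⟨H _ t32631.2.2.2.1, H _ t32631.2.2.2.2.1⟩⟩⟩⟩⟩, ⟨⟨⟨⟨H _ t32631.2.2.2.2.2.1, H _ t32631.2.2.2.2.2.2.1⟩, ⟨H _ t32631.2.2.2.2.2.2.2, H _ t32639.1⟩⟩, ⟨⟨H _ t32639.2.1, H _ t32639.2.2.1⟩, ⟨H _ t32639.2.2.2.1, H _ t32639.2.2.2.2.1⟩⟩⟩, ⟨⟨⟨H _ t32639.2.2.2.2.2.1, H _ t32639.2.2.2.2.2.2.1⟩, ⟨H _ t32639.2.2.2.2.2.2.2, H _ t32647.1⟩⟩, ⟨⟨H _ t32647.2.1, H _ t32647.2.2.1⟩, ⟨H _ t32647.2.2.2.1, ⟨H _ t32647.2.2.2.2.1, H _ t32647.2.2.2.2.2⟩⟩⟩⟩⟩⟩⟩⟩⟩⟩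

end Pool.Agent.MP_c853c5_nt.X.C4950
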