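import Pool.Agent.MP_c853c5_nt.X.C4950.Env
import Pool.Agent.MP_c853c5_nt.X.C4950.Tab

set_option autoImplicit false
set_option maxRecDepth 8192
set_option linter.all false

namespace Pool.Agent.MP_c853c5_nt.X.C4950

open Pool.Agent.MP_c853c5_nt.X

def t32653 : allY (E.wth T1) l32653 = true ∧
    allY (E.wth T1) l32654 = true ∧
    allY (E.wth T1) l32655 = true ∧
    allY (E.wth T1) l32656 = true ∧
    allY (E.wth T1) l32657 = true ∧
    allY (E.wth T1) l32658 = true ∧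
    allY (E.wth T1) l32659 = true ∧
    allY (E.wth T1) l32660 = true :=
  ⟨by decide +kernel, by decide +kernel, by decide +kernel, by decide +kernel, by decide +kernel, by decide +kernel, by decide +kernel, by decide +kernel⟩

def t32661 : allY (E.wth T1) l32661 = true ∧
    allY (E.wth T1) l32662 = true ∧
    allY (E.wth T1) l32663 = true ∧
    allY (E.wth T1) l32664 = true ∧
    allY (E.wth T1) l32665 = true ∧
    allY (E.wth T1) l32666 = true ∧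
    allY (E.wth T1) l32667 = true ∧
    allY (E.wth T1) l32668 = true :=
  ⟨by decide +kernel, by decide +kernel, by decide +kernel, by decide +kernel, by decide +kernel, by decide +kernel, by decide +kernel, by decide +kernel⟩

def t32669 : allY (E.wth T1) l32669 = true ∧
    allY (E.wth T1) l32670 = true ∧
    allY (E.wth T1) l32671 = true ∧
    allY (E.wth T1) l32672 = true ∧
    allY (E.wth T1) l32673 = true ∧
    allY (E.wth T1) l32674 = true ∧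
    allY (E.wth T1) l32675 = true ∧
    allY (E.wth T1) l32676 = true :=
  ⟨by decide +kernel, by decide +kernel, by decide +kernel, by decide +kernel, by decide +kernel, by decide +kernel, by decide +kernel, by decide +kernel⟩

def t32677 : allY (E.wth T1) l32677 = true ∧
    allY (E.wth T1) l32678 = true ∧
    allY (E.wth T1) l32679 = true ∧
    allY (E.wth T1) l32680 = true ∧
    allY (E.wth T1) l32681 = true ∧
    allY (E.wth T1) l32682 = true ∧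
    allY (E.wth T1) l32683 = true ∧
    allY (E.wth T1) l32684 = true :=
  ⟨by decide +kernel, by decide +kernel, by decide +kernel, by decide +kernel, by decide +kernel, by decide +kernel, by decide +kernel, by decide +kernel⟩

def t32685 : allY (E.wth T1) l32685 = true ∧
    allY (E.wth T1) l32686 = true ∧
    allY (E.wth T1) l32687 = true ∧
    allY (E.wth T1) l32688 = true ∧
    allY (E.wth T1) l32689 = true ∧
    allY (E.wth T1) l32690 = true ∧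
    allY (E.wth T1) l32691 = true ∧
    allY (E.wth T1) l32692 = true :=
  ⟨by decide +kernel, by decide +kernel, by decide +kernel, by decide +kernel, by decide +kernel, by decide +kernel, by decide +kernel, by decide +kernel⟩

def t32693 : allY (E.wth T1) l32693 = true ∧
    allY (E.wth T1) l32694 = true ∧
    allY (E.wth T1) l32695 = true ∧
    allY (E.wth T1) l32696 = true ∧
    allY (E.wth T1) l32697 = true ∧
    allY (E.wth T1) l32698 = true ∧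
    allY (E.wth T1) l32699 = true ∧
    allY (E.wth T1) l32700 = true :=
  ⟨by decide +kernel, by decide +kernel, by decide +kernel, by decide +kernel, by decide +kernel, by decide +kernel, by decide +kernel, by decide +kernel⟩

def t32701 : allY (E.wth T1) l32701 = true ∧
    allY (E.wth T1) l32702 = true ∧
    allY (E.wth T1) l32703 = true ∧
    allY (E.wth T1) l32704 = true ∧
    allY (E.wth T1) l32705 = true ∧
    allY (E.wth T1) l32706 = true ∧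
    allY (E.wth T1) l32707 = true ∧
    allY (E.wth T1) l32708 = true :=
  ⟨by decide +kernel, by decide +kernel, by decide +kernel, by decide +kernel, by decide +kernel, by decide +kernel, by decide +kernel, by decide +kernel⟩

def t32709 : allY (E.wth T1) l32709 = true ∧
    allY (E.wth T1) l32710 = true ∧
    allY (E.wth T1) l32711 = true ∧
    allY (E.wth T1) l32712 = true ∧
    allY (E.wth T1) l32713 = true ∧
    allY (E.wth T1) l32714 = true ∧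
    allY (E.wth T1) l32715 = true ∧
    allY (E.wth T1) l32716 = true :=
  ⟨by decide +kernel, by decide +kernel, by decide +kernel, by decide +kernel, by decide +kernel, by decide +kernel, by decide +kernel, by decide +kernel⟩

def t32717 : allY (E.wth T1) l32717 = true ∧
    allY (E.wth T1) l32718 = true ∧
    allY (E.wth T1) l32719 = true ∧
    allY (E.wth T1) l32720 = true ∧
    allY (E.wth T1) l32721 = true ∧
    allY (E.wth T1) l32722 = true ∧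
    allY (E.wth T1) l32723 = true ∧
    allY (E.wth T1) l32724 = true :=
  ⟨by decide +kernel, by decide +kernel, by decide +kernel, by decide +kernel, by decide +kernel, by decide +kernel, by decide +kernel, by decide +kernel⟩

def t32725 : allY (E.wth T1) l32725 = true ∧
    allY (E.wth T1) l32726 = true ∧
    allY (E.wth T1) l32727 = true ∧
    allY (E.wth T1) l32728 = true ∧
    allY (E.wth T1) l32729 = true ∧
    allY (E.wth T1) l32730 = true ∧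
    allY (E.wth T1) l32731 = true ∧
    allY (E.wth T1) l32732 = true :=
  ⟨by decide +kernel, by decide +kernel, by decide +kernel, by decide +kernel, by decide +kernel, by decide +kernel, by decide +kernel, by decide +kernel⟩

def t32733 : allY (E.wth T1) l32733 = true ∧
    allY (E.wth T1) l32734 = true ∧
    allY (E.wth T1) l32735 = true ∧
    allY (E.wth T1) l32736 = true ∧
    allY (E.wth T1) l32737 = true ∧
    allY (E.wth T1) l32738 = true ∧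
    allY (E.wth T1) l32739 = true ∧
    allY (E.wth T1) l32740 = true :=
  ⟨by decide +kernel, by decide +kernel, by decide +kernel, by decide +kernel, by decide +kernel, by decide +kernel, by decide +kernel, by decide +kernel⟩

def t32741 : allY (E.wth T1) l32741 = true ∧
    allY (E.wth T1) l32742 = true ∧
    allY (E.wth T1) l32743 = true ∧
    allY (E.wth T1) l32744 = true ∧
    allY (E.wth T1) l32745 = true ∧
    allY (E.wth T1) l32746 = true ∧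
    allY (E.wth T1) l32747 = true ∧
    allY (E.wth T1) l32748 = true :=
  ⟨by decide +kernel, by decide +kernel, by decide +kernel, by decide +kernel, by decide +kernel, by decide +kernel, by decide +kernel, by decide +kernel⟩

def t32749 : allY (E.wth T1) l32749 = true ∧
    allY (E.wth T1) l32750 = true ∧
    allY (E.wth T1) l32751 = true ∧
    allY (E.wth T1) l32752 = true ∧
    allY (E.wth T1) l32753 = true ∧
    allY (E.wth T1) l32754 = true ∧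
    allY (E.wth T1) l32755 = true ∧
    allY (E.wth T1) l32756 = true :=
  ⟨by decide +kernel, by decide +kernel, by decide +kernel, by decide +kernel, by decide +kernel, by decide +kernel, by decide +kernel, by decide +kernel⟩

def t32757 : allY (E.wth T1) l32757 = true ∧
    allY (E.wth T1) l32758 = true ∧
    allY (E.wth T1) l32759 = true ∧
    allY (E.wth T1) l32760 = true ∧
    allY (E.wth T1) l32761 = true ∧
    allY (E.wth T1) l32762 = true ∧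
    allY (E.wth T1) l32763 = true ∧
    allY (E.wth T1) l32764 = true :=
  ⟨by decide +kernel, by decide +kernel, by decide +kernel, by decide +kernel, by decide +kernel, by decide +kernel, by decide +kernel, by decide +kernel⟩

def t32765 : allY (E.wth T1) l32765 = true ∧
    allY (E.wth T1) l32766 = true ∧
    allY (E.wth T1) l32767 = true ∧
    allY (E.wth T1) l32768 = true ∧
    allY (E.wth T1) l32769 = true ∧
    allY (E.wth T1) l32770 = true ∧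
    allY (E.wth T1) l32771 = true ∧
    allY (E.wth T1) l32772 = true :=
  ⟨by decide +kernel, by decide +kernel, by decide +kernel, by decide +kernel, by decide +kernel, by decide +kernel, by decide +kernel, by decide +kernel⟩

def t32773 : allY (E.wth T1) l32773 = true ∧
    allY (E.wth T1) l32774 = true ∧
    allY (E.wth T1) l32775 = true ∧
    allY (E.wth T1) l32776 = true ∧
    allY (E.wth T1) l32777 = true ∧
    allY (E.wth T1) l32778 = true ∧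
    allY (E.wth T1) l32779 = true ∧
    allY (E.wth T1) l32780 = true :=
  ⟨by decide +kernel, by decide +kernel, by decide +kernel, by decide +kernel, by decide +kernel, by decide +kernel, by decide +kernel, by decide +kernel⟩

def t32781 : allY (E.wth T1) l32781 = true ∧
    allY (E.wth T1) l32782 = true ∧
    allY (E.wth T1) l32783 = true ∧
    allY (E.wth T1) l32784 = true ∧
    allY (E.wth T1) l32785 = true ∧
    allY (E.wth T1) l32786 = true ∧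
    allY (E.wth T1) l32787 = true ∧
    allY (E.wth T1) l32788 = true :=
  ⟨by decide +kernel, by decide +kernel, by decide +kernel, by decide +kernel, by decide +kernel, by decide +kernel, by decide +kernel, by decide +kernel⟩

def t32789 : allY (E.wth T1) l32789 = true ∧
    allY (E.wth T1) l32790 = true ∧
    allY (E.wth T1) l32791 = true ∧
    allY (E.wth T1) l32792 = true ∧
    allY (E.wth T1) l32793 = true ∧
    allY (E.wth T1) l32794 = true ∧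
    allY (E.wth T1) l32795 = true ∧
    allY (E.wth T1) l32796 = true :=
  ⟨by decide +kernel, by decide +kernel, by decide +kernel, by decide +kernel, by decide +kernel, by decide +kernel, by decide +kernel, by decide +kernel⟩

def t32797 : allY (E.wth T1) l32797 = true ∧
    allY (E.wth T1) l32798 = true ∧
    allY (E.wth T1) l32799 = true ∧
    allY (E.wth T1) l32800 = true ∧
    allY (E.wth T1) l32801 = true ∧
    allY (E.wth T1) l32802 = true ∧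
    allY (E.wth T1) l32803 = true ∧
    allY (E.wth T1) l32804 = true :=
  ⟨by decide +kernel, by decide +kernel, by decide +kernel, by decide +kernel, by decide +kernel, by decide +kernel, by decide +kernel, by decide +kernel⟩

def t32805 : allY (E.wth T1) l32805 = true ∧
    allY (E.wth T1) l32806 = true ∧
    allY (E.wth T1) l32807 = true ∧
    allY (E.wth T1) l32808 = true ∧
    allY (E.wth T1) l32809 = true ∧
    allY (E.wth T1) l32810 = true ∧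
    allY (E.wth T1) l32811 = true ∧
    allY (E.wth T1) l32812 = true :=
  ⟨by decide +kernel, by decide +kernel, by decide +kernel, by decide +kernel, by decide +kernel, by decide +kernel, by decide +kernel, by decide +kernel⟩

def t32813 : allY (E.wth T1) l32813 = true ∧
    allY (E.wth T1) l32814 = true ∧
    allY (E.wth T1) l32815 = true ∧
    allY (E.wth T1) l32816 = true ∧
    allY (E.wth T1) l32817 = true ∧
    allY (E.wth T1) l32818 = true ∧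
    allY (E.wth T1) l32819 = true ∧
    allY (E.wth T1) l32820 = true :=
  ⟨by decide +kernel, by decide +kernel, by decide +kernel, by decide +kernel, by decide +kernel, by decide +kernel, by decide +kernel, by decide +kernel⟩

def t32821 : allY (E.wth T1) l32821 = true ∧
    allY (E.wth T1) l32822 = true ∧
    allY (E.wth T1) l32823 = true ∧
    allY (E.wth T1) l32824 = true ∧
    allY (E.wth T1) l32825 = true ∧
    allY (E.wth T1) l32826 = true ∧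
    allY (E.wth T1) l32827 = true ∧
    allY (E.wth T1) l32828 = true :=
  ⟨by decide +kernel, by decide +kernel, by decide +kernel, by decide +kernel, by decide +kernel, by decide +kernel, by decide +kernel, by decide +kernel⟩

def t32829 : allY (E.wth T1) l32829 = true ∧
    allY (E.wth T1) l32830 = true ∧
    allY (E.wth T1) l32831 = true ∧
    allY (E.wth T1) l32832 = true ∧
    allY (E.wth T1) l32833 = true ∧
    allY (E.wth T1) l32834 = true ∧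
    allY (E.wth T1) l32835 = true ∧
    allY (E.wth T1) l32836 = true :=
  ⟨by decide +kernel, by decide +kernel, by decide +kernel, by decide +kernel, by decide +kernel, by decide +kernel, by decide +kernel, by decide +kernel⟩

def t32837 : allY (E.wth T1) l32837 = true ∧
    allY (E.wth T1) l32838 = true ∧
    allY (E.wth T1) l32839 = true ∧
    allY (E.wth T1) l32840 = true ∧
    allY (E.wth T1) l32841 = true ∧
    allY (E.wth T1) l32842 = true ∧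
    allY (E.wth T1) l32843 = true ∧
    allY (E.wth T1) l32844 = true :=
  ⟨by decide +kernel, by decide +kernel, by decide +kernel, by decide +kernel, by decide +kernel, by decide +kernel, by decide +kernel, by decide +kernel⟩

def t32845 : allY (E.wth T1) l32845 = true ∧
    allY (E.wth T1) l32846 = true ∧
    allY (E.wth T1) l32847 = true ∧
    allY (E.wth T1) l32848 = true ∧
    allY (E.wth T1) l32849 = true ∧
    allY (E.wth T1) l32850 = true ∧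
    allY (E.wth T1) l32851 = true ∧
    allY (E.wth T1) l32852 = true :=
  ⟨by decide +kernel, by decide +kernel, by decide +kernel, by decide +kernel, by decide +kernel, by decide +kernel, by decide +kernel, by decide +kernel⟩

def t32853 : allY (E.wth T1) l32853 = true ∧
    allY (E.wth T1) l32854 = true ∧
    allY (E.wth T1) l32855 = true ∧
    allY (E.wth T1) l32856 = true ∧
    allY (E.wth T1) l32857 = true ∧
    allY (E.wth T1) l32858 = true ∧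
    allY (E.wth T1) l32859 = true ∧
    allY (E.wth T1) l32860 = true :=
  ⟨by decide +kernel, by decide +kernel, by decide +kernel, by decide +kernel, by decide +kernel, by decide +kernel, by decide +kernel, by decide +kernel⟩

def t32861 : allY (E.wth T1) l32861 = true ∧
    allY (E.wth T1) l32862 = true ∧
    allY (E.wth T1) l32863 = true ∧
    allY (E.wth T1) l32864 = true ∧
    allY (E.wth T1) l32865 = true ∧
    allY (E.wth T1) l32866 = true ∧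
    allY (E.wth T1) l32867 = true ∧
    allY (E.wth T1) l32868 = true :=
  ⟨by decide +kernel, by decide +kernel, by decide +kernel, by decide +kernel, by decide +kernel, by decide +kernel, by decide +kernel, by decide +kernel⟩

def t32869 : allY (E.wth T1) l32869 = true ∧
    allY (E.wth T1) l32870 = true ∧
    allY (E.wth T1) l32871 = true ∧
    allY (E.wth T1) l32872 = true ∧
    allY (E.wth T1) l32873 = true ∧
    allY (E.wth T1) l32874 = true ∧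
    allY (E.wth T1) l32875 = true ∧
    allY (E.wth T1) l32876 = true :=
  ⟨by decide +kernel, by decide +kernel, by decide +kernel, by decide +kernel, by decide +kernel, by decide +kernel, by decide +kernel, by decide +kernel⟩

def t32877 : allY (E.wth T1) l32877 = true ∧
    allY (E.wth T1) l32878 = true ∧
    allY (E.wth T1) l32879 = true ∧
    allY (E.wth T1) l32880 = true ∧
    allY (E.wth T1) l32881 = true ∧
    allY (E.wth T1) l32882 = true ∧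
    allY (E.wth T1) l32883 = true ∧
    allY (E.wth T1) l32884 = true :=
  ⟨by decide +kernel, by decide +kernel, by decide +kernel, by decide +kernel, by decide +kernel, by decide +kernel, by decide +kernel, by decide +kernel⟩

def t32885 : allY (E.wth T1) l32885 = true ∧
    allY (E.wth T1) l32886 = true ∧
    allY (E.wth T1) l32887 = true ∧
    allY (E.wth T1) l32888 = true ∧
    allY (E.wth T1) l32889 = true ∧
    allY (E.wth T1) l32890 = true ∧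
    allY (E.wth T1) l32891 = true ∧
    allY (E.wth T1) l32892 = true :=
  ⟨by decide +kernel, by decide +kernel, by decide +kernel, by decide +kernel, by decide +kernel, by decide +kernel, by decide +kernel, by decide +kernel⟩

def t32893 : allY (E.wth T1) l32893 = true ∧
    allY (E.wth T1) l32894 = true ∧
    allY (E.wth T1) l32895 = true ∧
    allY (E.wth T1) l32896 = true ∧
    allY (E.wth T1) l32897 = true ∧
    allY (E.wth T1) l32898 = true ∧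
    allY (E.wth T1) l32899 = true ∧
    allY (E.wth T1) l32900 = true :=
  ⟨by decide +kernel, by decide +kernel, by decide +kernel, by decide +kernel, by decide +kernel, by decide +kernel, by decide +kernel, by decide +kernel⟩

def t32901 : allY (E.wth T1) l32901 = true ∧
    allY (E.wth T1) l32902 = true ∧
    allY (E.wth T1) l32903 = true ∧
    allY (E.wth T1) l32904 = true ∧
    allY (E.wth T1) l32905 = true ∧
    allY (E.wth T1) l32906 = true ∧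
    allY (E.wth T1) l32907 = true ∧
    allY (E.wth T1) l32908 = true :=
  ⟨by decide +kernel, by decide +kernel, by decide +kernel, by decide +kernel, by decide +kernel, by decide +kernel, by decide +kernel, by decide +kernel⟩

def t32909 : allY (E.wth T1) l32909 = true ∧
    allY (E.wth T1) l32910 = true ∧
    allY (E.wth T1) l32911 = true ∧
    allY (E.wth T1) l32912 = true ∧
    allY (E.wth T1) l32913 = true ∧
    allY (E.wth T1) l32914 = true ∧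
    allY (E.wth T1) l32915 = true ∧
    allY (E.wth T1) l32916 = true :=
  ⟨by decide +kernel, by decide +kernel, by decide +kernel, by decide +kernel, by decide +kernel, by decide +kernel, by decide +kernel, by decide +kernel⟩

def t32917 : allY (E.wth T1) l32917 = true ∧
    allY (E.wth T1) l32918 = true ∧
    allY (E.wth T1) l32919 = true ∧
    allY (E.wth T1) l32920 = true ∧
    allY (E.wth T1) l32921 = true ∧
    allY (E.wth T1) l32922 = true ∧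
    allY (E.wth T1) l32923 = true ∧
    allY (E.wth T1) l32924 = true :=
  ⟨by decide +kernel, by decide +kernel, by decide +kernel, by decide +kernel, by decide +kernel, by decide +kernel, by decide +kernel, by decide +kernel⟩

def t32925 : allY (E.wth T1) l32925 = true ∧
    allY (E.wth T1) l32926 = true ∧
    allY (E.wth T1) l32927 = true ∧
    allY (E.wth T1) l32928 = true ∧
    allY (E.wth T1) l32929 = true ∧
    allY (E.wth T1) l32930 = true ∧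
    allY (E.wth T1) l32931 = true ∧
    allY (E.wth T1) l32932 = true :=
  ⟨by decide +kernel, by decide +kernel, by decide +kernel, by decide +kernel, by decide +kernel, by decide +kernel, by decide +kernel, by decide +kernel⟩

def t32933 : allY (E.wth T1) l32933 = true ∧
    allY (E.wth T1) l32934 = true ∧
    allY (E.wth T1) l32935 = true ∧
    allY (E.wth T1) l32936 = true ∧
    allY (E.wth T1) l32937 = true ∧
    allY (E.wth T1) l32938 = true ∧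
    allY (E.wth T1) l32939 = true ∧
    allY (E.wth T1) l32940 = true :=
  ⟨by decide +kernel, by decide +kernel, by decide +kernel, by decide +kernel, by decide +kernel, by decide +kernel, by decide +kernel, by decide +kernel⟩

def t32941 : allY (E.wth T1) l32941 = true ∧
    allY (E.wth T1) l32942 = true ∧
    allY (E.wth T1) l32943 = true ∧
    allY (E.wth T1) l32944 = true ∧
    allY (E.wth T1) l32945 = true ∧
    allY (E.wth T1) l32946 = true ∧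
    allY (E.wth T1) l32947 = true ∧
    allY (E.wth T1) l32948 = true :=
  ⟨by decide +kernel, by decide +kernel, by decide +kernel, by decide +kernel, by decide +kernel, by decide +kernel, by decide +kernel, by decide +kernel⟩

def t32949 : allY (E.wth T1) l32949 = true ∧
    allY (E.wth T1) l32950 = true ∧
    allY (E.wth T1) l32951 = true ∧
    allY (E.wth T1) l32952 = true ∧
    allY (E.wth T1) l32953 = true ∧
    allY (E.wth T1) l32954 = true ∧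
    allY (E.wth T1) l32955 = true ∧
    allY (E.wth T1) l32956 = true :=
  ⟨by decide +kernel, by decide +kernel, by decide +kernel, by decide +kernel, by decide +kernel, by decide +kernel, by decide +kernel, by decide +kernel⟩

def t32957 : allY (E.wth T1) l32957 = true ∧
    allY (E.wth T1) l32958 = true ∧
    allY (E.wth T1) l32959 = true ∧
    allY (E.wth T1) l32960 = true ∧
    allY (E.wth T1) l32961 = true ∧
    allY (E.wth T1) l32962 = true ∧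
    allY (E.wth T1) l32963 = true ∧
    allY (E.wth T1) l32964 = true :=
  ⟨by decide +kernel, by decide +kernel, by decide +kernel, by decide +kernel, by decide +kernel, by decide +kernel, by decide +kernel, by decide +kernel⟩

def t32965 : allY (E.wth T1) l32965 = true ∧
    allY (E.wth T1) l32966 = true ∧
    allY (E.wth T1) l32967 = true ∧
    allY (E.wth T1) l32968 = true ∧
    allY (E.wth T1) l32969 = true ∧
    allY (E.wth T1) l32970 = true ∧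
    allY (E.wth T1) l32971 = true ∧
    allY (E.wth T1) l32972 = true :=
  ⟨by decide +kernel, by decide +kernel, by decide +kernel, by decide +kernel, by decide +kernel, by decide +kernel, by decide +kernel, by decide +kernel⟩

def t32973 : allY (E.wth T1) l32973 = true ∧
    allY (E.wth T1) l32974 = true ∧
    allY (E.wth T1) l32975 = true ∧
    allY (E.wth T1) l32976 = true ∧
    allY (E.wth T1) l32977 = true ∧
    allY (E.wth T1) l32978 = true ∧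
    allY (E.wth T1) l32979 = true ∧
    allY (E.wth T1) l32980 = true :=
  ⟨by decide +kernel, by decide +kernel, by decide +kernel, by decide +kernel, by decide +kernel, by decide +kernel, by decide +kernel, by decide +kernel⟩

def t32981 : allY (E.wth T1) l32981 = true ∧
    allY (E.wth T1) l32982 = true ∧
    allY (E.wth T1) l32983 = true ∧
    allY (E.wth T1) l32984 = true ∧
    allY (E.wth T1) l32985 = true ∧
    allY (E.wth T1) l32986 = true ∧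
    allY (E.wth T1) l32987 = true ∧
    allY (E.wth T1) l32988 = true :=
  ⟨by decide +kernel, by decide +kernel, by decide +kernel, by decide +kernel, by decide +kernel, by decide +kernel, by decide +kernel, by decide +kernel⟩

def t32989 : allY (E.wth T1) l32989 = true ∧
    allY (E.wth T1) l32990 = true ∧
    allY (E.wth T1) l32991 = true ∧
    allY (E.wth T1) l32992 = true ∧
    allY (E.wth T1) l32993 = true ∧
    allY (E.wth T1) l32994 = true ∧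
    allY (E.wth T1) l32995 = true ∧
    allY (E.wth T1) l32996 = true :=
  ⟨by decide +kernel, by decide +kernel, by decide +kernel, by decide +kernel, by decide +kernel, by decide +kernel, by decide +kernel, by decide +kernel⟩

def t32997 : allY (E.wth T1) l32997 = true ∧
    allY (E.wth T1) l32998 = true ∧
    allY (E.wth T1) l32999 = true ∧
    allY (E.wth T1) l33000 = true ∧
    allY (E.wth T1) l33001 = true ∧
    allY (E.wth T1) l33002 = true ∧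
    allY (E.wth T1) l33003 = true ∧
    allY (E.wth T1) l33004 = true :=
  ⟨by decide +kernel, by decide +kernel, by decide +kernel, by decide +kernel, by decide +kernel, by decide +kernel, by decide +kernel, by decide +kernel⟩

def t33005 : allY (E.wth T1) l33005 = true ∧
    allY (E.wth T1) l33006 = true ∧
    allY (E.wth T1) l33007 = true ∧
    allY (E.wth T1) l33008 = true ∧
    allY (E.wth T1) l33009 = true ∧
    allY (E.wth T1) l33010 = true ∧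
    allY (E.wth T1) l33011 = true ∧
    allY (E.wth T1) l33012 = true :=
  ⟨by decide +kernel, by decide +kernel, by decide +kernel, by decide +kernel, by decide +kernel, by decide +kernel, by decide +kernel, by decide +kernel⟩

def t33013 : allY (E.wth T1) l33013 = true ∧
    allY (E.wth T1) l33014 = true ∧
    allY (E.wth T1) l33015 = true ∧
    allY (E.wth T1) l33016 = true ∧
    allY (E.wth T1) l33017 = true ∧
    allY (E.wth T1) l33018 = true ∧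
    allY (E.wth T1) l33019 = true ∧
    allY (E.wth T1) l33020 = true :=
  ⟨by decide +kernel, by decide +kernel, by decide +kernel, by decide +kernel, by decide +kernel, by decide +kernel, by decide +kernel, by decide +kernel⟩

def t33021 : allY (E.wth T1) l33021 = true ∧
    allY (E.wth T1) l33022 = true ∧
    allY (E.wth T1) l33023 = true ∧
    allY (E.wth T1) l33024 = true ∧
    allY (E.wth T1) l33025 = true ∧
    allY (E.wth T1) l33026 = true ∧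
    allY (E.wth T1) l33027 = true ∧
    allY (E.wth T1) l33028 = true :=
  ⟨by decide +kernel, by decide +kernel, by decide +kernel, by decide +kernel, by decide +kernel, by decide +kernel, by decide +kernel, by decide +kernel⟩

def t33029 : allY (E.wth T1) l33029 = true ∧
    allY (E.wth T1) l33030 = true ∧
    allY (E.wth T1) l33031 = true ∧
    allY (E.wth T1) l33032 = true ∧
    allY (E.wth T1) l33033 = true ∧
    allY (E.wth T1) l33034 = true ∧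
    allY (E.wth T1) l33035 = true ∧
    allY (E.wth T1) l33036 = true :=
  ⟨by decide +kernel, by decide +kernel, by decide +kernel, by decide +kernel, by decide +kernel, by decide +kernel, by decide +kernel, by decide +kernel⟩

def t33037 : allY (E.wth T1) l33037 = true ∧
    allY (E.wth T1) l33038 = true ∧
    allY (E.wth T1) l33039 = true ∧
    allY (E.wth T1) l33040 = true ∧
    allY (E.wth T1) l33041 = true ∧
    allY (E.wth T1) l33042 = true ∧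
    allY (E.wth T1) l33043 = true ∧
    allY (E.wth T1) l33044 = true :=
  ⟨by decide +kernel, by decide +kernel, by decide +kernel, by decide +kernel, by decide +kernel, by decide +kernel, by decide +kernel, by decide +kernel⟩

def t33045 : allY (E.wth T1) l33045 = true ∧
    allY (E.wth T1) l33046 = true ∧
    allY (E.wth T1) l33047 = true ∧
    allY (E.wth T1) l33048 = true ∧
    allY (E.wth T1) l33049 = true ∧
    allY (E.wth T1) l33050 = true ∧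
    allY (E.wth T1) l33051 = true ∧
    allY (E.wth T1) l33052 = true :=
  ⟨by decide +kernel, by decide +kernel, by decide +kernel, by decide +kernel, by decide +kernel, by decide +kernel, by decide +kernel, by decide +kernel⟩

def t33053 : allY (E.wth T1) l33053 = true ∧
    allY (E.wth T1) l33054 = true ∧
    allY (E.wth T1) l33055 = true ∧
    allY (E.wth T1) l33056 = true ∧
    allY (E.wth T1) l33057 = true ∧
    allY (E.wth T1) l33058 = true ∧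
    allY (E.wth T1) l33059 = true ∧
    allY (E.wth T1) l33060 = true :=
  ⟨by decide +kernel, by decide +kernel, by decide +kernel, by decide +kernel, by decide +kernel, by decide +kernel, by decide +kernel, by decide +kernel⟩

def t33061 : allY (E.wth T1) l33061 = true ∧
    allY (E.wth T1) l33062 = true ∧
    allY (E.wth T1) l33063 = true ∧
    allY (E.wth T1) l33064 = true ∧
    allY (E.wth T1) l33065 = true ∧
    allY (E.wth T1) l33066 = true ∧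
    allY (E.wth T1) l33067 = true ∧
    allY (E.wth T1) l33068 = true :=
  ⟨by decide +kernel, by decide +kernel, by decide +kernel, by decide +kernel, by decide +kernel, by decide +kernel, by decide +kernel, by decide +kernel⟩

def t33069 : allY (E.wth T1) l33069 = true ∧
    allY (E.wth T1) l33070 = true ∧
    allY (E.wth T1) l33071 = true ∧
    allY (E.wth T1) l33072 = true ∧
    allY (E.wth T1) l33073 = true ∧
    allY (E.wth T1) l33074 = true ∧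
    allY (E.wth T1) l33075 = true ∧
    allY (E.wth T1) l33076 = true :=
  ⟨by decide +kernel, by decide +kernel, by decide +kernel, by decide +kernel, by decide +kernel, by decide +kernel, by decide +kernel, by decide +kernel⟩

def t33077 : allY (E.wth T1) l33077 = true ∧
    allY (E.wth T1) l33078 = true ∧
    allY (E.wth T1) l33079 = true ∧
    allY (E.wth T1) l33080 = true ∧
    allY (E.wth T1) l33081 = true ∧
    allY (E.wth T1) l33082 = true ∧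
    allY (E.wth T1) l33083 = true ∧
    allY (E.wth T1) l33084 = true :=
  ⟨by decide +kernel, by decide +kernel, by decide +kernel, by decide +kernel, by decide +kernel, by decide +kernel, by decide +kernel, by decide +kernel⟩

def t33085 : allY (E.wth T1) l33085 = true ∧
    allY (E.wth T1) l33086 = true ∧
    allY (E.wth T1) l33087 = true ∧
    allY (E.wth T1) l33088 = true ∧
    allY (E.wth T1) l33089 = true ∧
    allY (E.wth T1) l33090 = true ∧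
    allY (E.wth T1) l33091 = true ∧
    allY (E.wth T1) l33092 = true :=
  ⟨by decide +kernel, by decide +kernel, by decide +kernel, by decide +kernel, by decide +kernel, by decide +kernel, by decide +kernel, by decide +kernel⟩

def t33093 : allY (E.wth T1) l33093 = true ∧
    allY (E.wth T1) l33094 = true ∧
    allY (E.wth T1) l33095 = true ∧
    allY (E.wth T1) l33096 = true ∧
    allY (E.wth T1) l33097 = true ∧
    allY (E.wth T1) l33098 = true ∧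
    allY (E.wth T1) l33099 = true ∧
    allY (E.wth T1) l33100 = true :=
  ⟨by decide +kernel, by decide +kernel, by decide +kernel, by decide +kernel, by decide +kernel, by decide +kernel, by decide +kernel, by decide +kernel⟩

def t33101 : allY (E.wth T1) l33101 = true ∧
    allY (E.wth T1) l33102 = true ∧
    allY (E.wth T1) l33103 = true ∧
    allY (E.wth T1) l33104 = true ∧
    allY (E.wth T1) l33105 = true ∧
    allY (E.wth T1) l33106 = true ∧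
    allY (E.wth T1) l33107 = true ∧
    allY (E.wth T1) l33108 = true :=
  ⟨by decide +kernel, by decide +kernel, by decide +kernel, by decide +kernel, by decide +kernel, by decide +kernel, by decide +kernel, by decide +kernel⟩

def t33109 : allY (E.wth T1) l33109 = true ∧
    allY (E.wth T1) l33110 = true ∧
    allY (E.wth T1) l33111 = true ∧
    allY (E.wth T1) l33112 = true ∧
    allY (E.wth T1) l33113 = true ∧
    allY (E.wth T1) l33114 = true ∧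
    allY (E.wth T1) l33115 = true ∧
    allY (E.wth T1) l33116 = true :=
  ⟨by decide +kernel, by decide +kernel, by decide +kernel, by decide +kernel, by decide +kernel, by decide +kernel, by decide +kernel, by decide +kernel⟩

def t33117 : allY (E.wth T1) l33117 = true ∧
    allY (E.wth T1) l33118 = true ∧
    allY (E.wth T1) l33119 = true ∧
    allY (E.wth T1) l33120 = true ∧
    allY (E.wth T1) l33121 = true ∧
    allY (E.wth T1) l33122 = true ∧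
    allY (E.wth T1) l33123 = true ∧
    allY (E.wth T1) l33124 = true :=
  ⟨by decide +kernel, by decide +kernel, by decide +kernel, by decide +kernel, by decide +kernel, by decide +kernel, by decide +kernel, by decide +kernel⟩

def t33125 : allY (E.wth T1) l33125 = true ∧
    allY (E.wth T1) l33126 = true ∧
    allY (E.wth T1) l33127 = true ∧
    allY (E.wth T1) l33128 = true ∧
    allY (E.wth T1) l33129 = true ∧
    allY (E.wth T1) l33130 = true ∧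
    allY (E.wth T1) l33131 = true ∧
    allY (E.wth T1) l33132 = true :=
  ⟨by decide +kernel, by decide +kernel, by decide +kernel, by decide +kernel, by decide +kernel, by decide +kernel, by decide +kernel, by decide +kernel⟩

def t33133 : allY (E.wth T1) l33133 = true ∧
    allY (E.wth T1) l33134 = true ∧
    allY (E.wth T1) l33135 = true ∧
    allY (E.wth T1) l33136 = true ∧
    allY (E.wth T1) l33137 = true ∧
    allY (E.wth T1) l33138 = true ∧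
    allY (E.wth T1) l33139 = true ∧
    allY (E.wth T1) l33140 = true :=
  ⟨by decide +kernel, by decide +kernel, by decide +kernel, by decide +kernel, by decide +kernel, by decide +kernel, by decide +kernel, by decide +kernel⟩

def t33141 : allY (E.wth T1) l33141 = true ∧
    allY (E.wth T1) l33142 = true ∧
    allY (E.wth T1) l33143 = true ∧
    allY (E.wth T1) l33144 = true ∧
    allY (E.wth T1) l33145 = true ∧
    allY (E.wth T1) l33146 = true ∧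
    allY (E.wth T1) l33147 = true ∧
    allY (E.wth T1) l33148 = true :=
  ⟨by decide +kernel, by decide +kernel, by decide +kernel, by decide +kernel, by decide +kernel, by decide +kernel, by decide +kernel, by decide +kernel⟩

def t33149 : allY (E.wth T1) l33149 = true ∧
    allY (E.wth T1) l33150 = true ∧
    allY (E.wth T1) l33151 = true ∧
    allY (E.wth T1) l33152 = true ∧
    allY (E.wth T1) l33153 = true ∧
    allY (E.wth T1) l33154 = true ∧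
    allY (E.wth T1) l33155 = true ∧
    allY (E.wth T1) l33156 = true :=
  ⟨by decide +kernel, by decide +kernel, by decide +kernel, by decide +kernel, by decide +kernel, by decide +kernel, by decide +kernel, by decide +kernel⟩

def t33157 : allY (E.wth T1) l33157 = true ∧
    allY (E.wth T1) l33158 = true ∧
    allY (E.wth T1) l33159 = true ∧
    allY (E.wth T1) l33160 = true ∧
    allY (E.wth T1) l33161 = true ∧
    allY (E.wth T1) l33162 = true ∧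
    allY (E.wth T1) l33163 = true ∧
    allY (E.wth T1) l33164 = true :=
  ⟨by decide +kernel, by decide +kernel, by decide +kernel, by decide +kernel, by decide +kernel, by decide +kernel, by decide +kernel, by decide +kernel⟩

def t33165 : allY (E.wth T1) l33165 = true ∧
    allY (E.wth T1) l33166 = true ∧
    allY (E.wth T1) l33167 = true ∧
    allY (E.wth T1) l33168 = true ∧
    allY (E.wth T1) l33169 = true ∧
    allY (E.wth T1) l33170 = true ∧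
    allY (E.wth T1) l33171 = true ∧
    allY (E.wth T1) l33172 = true :=
  ⟨by decide +kernel, by decide +kernel, by decide +kernel, by decide +kernel, by decide +kernel, by decide +kernel, by decide +kernel, by decide +kernel⟩

def t33173 : allY (E.wth T1) l33173 = true ∧
    allY (E.wth T1) l33174 = true ∧
    allY (E.wth T1) l33175 = true ∧
    allY (E.wth T1) l33176 = true ∧
    allY (E.wth T1) l33177 = true ∧
    allY (E.wth T1) l33178 = true ∧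
    allY (E.wth T1) l33179 = true ∧
    allY (E.wth T1) l33180 = true :=
  ⟨by decide +kernel, by decide +kernel, by decide +kernel, by decide +kernel, by decide +kernel, by decide +kernel, by decide +kernel, by decide +kernel⟩

def t33181 : allY (E.wth T1) l33181 = true ∧
    allY (E.wth T1) l33182 = true ∧
    allY (E.wth T1) l33183 = true ∧
    allY (E.wth T1) l33184 = true ∧
    allY (E.wth T1) l33185 = true ∧
    allY (E.wth T1) l33186 = true ∧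
    allY (E.wth T1) l33187 = true ∧
    allY (E.wth T1) l33188 = true :=
  ⟨by decide +kernel, by decide +kernel, by decide +kernel, by decide +kernel, by decide +kernel, by decide +kernel, by decide +kernel, by decide +kernel⟩

def t33189 : allY (E.wth T1) l33189 = true ∧
    allY (E.wth T1) l33190 = true ∧
    allY (E.wth T1) l33191 = true ∧
    allY (E.wth T1) l33192 = true ∧
    allY (E.wth T1) l33193 = true ∧
    allY (E.wth T1) l33194 = true ∧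
    allY (E.wth T1) l33195 = true ∧
    allY (E.wth T1) l33196 = true :=
  ⟨by decide +kernel, by decide +kernel, by decide +kernel, by decide +kernel, by decide +kernel, by decide +kernel, by decide +kernel, by decide +kernel⟩

def t33197 : allY (E.wth T1) l33197 = true ∧
    allY (E.wth T1) l33198 = true ∧
    allY (E.wth T1) l33199 = true ∧
    allY (E.wth T1) l33200 = true ∧
    allY (E.wth T1) l33201 = true ∧
    allY (E.wth T1) l33202 = true :=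
  ⟨by decide +kernel, by decide +kernel, by decide +kernel, by decide +kernel, by decide +kernel, by decide +kernel⟩

theorem a59 {p : Rf → Prop} (H : ∀ l, allY (E.wth T1) l = true → (lkp l).All p) :
    b59.All p := ⟨⟨⟨⟨⟨⟨⟨⟨⟨H _ t32653.1, H _ t32653.2.1⟩, ⟨H _ t32653.2.2.1, H _ t32653.2.2.2.1⟩⟩, ⟨⟨H _ t32653.2.2.2.2.1, H _ t32653.2.2.2.2.2.1⟩, ⟨H _ t32653.2.2.2.2.2.2.1, H _ t32653.2.2.2.2.2.2.2⟩⟩⟩, ⟨⟨⟨H _ t32661.1, H _ t32661.2.1⟩, ⟨H _ t32661.2.2.1, H _ t32661.2.2.2.1⟩⟩, ⟨⟨H _ t32661.2.2.2.2.1, H _ t32661.2.2.2.2.2.1⟩, ⟨H _ t32661.2.2.2.2.2.2.1, ⟨H _ t32661.2.2.2.2.2.2.2, H _ t32669.1⟩⟩⟩⟩⟩, ⟨⟨⟨⟨H _ t32669.2.1, H _ t32669.2.2.1⟩, ⟨H _ t32669.2.2.2.1, H _ t32669.2.2.2.2.1⟩⟩, ⟨⟨H _ t32669.2.2.2.2.2.1, H _ t32669.2.2.2.2.2.2.1⟩, ⟨H _ t32669.2.2.2.2.2.2.2, H _ t32677.1⟩⟩⟩, ⟨⟨⟨H _ t32677.2.1, H _ t32677.2.2.1⟩, ⟨H _ t32677.2.2.2.1, H _ t32677.2.2.2.2.1⟩⟩, ⟨⟨H _ t32677.2.2.2.2.2.1, H _ t32677.2.2.2.2.2.2.1⟩,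 ⟨H _ t32677.2.2.2.2.2.2.2, ⟨H _ t32685.1, H _ t32685.2.1⟩⟩⟩⟩⟩⟩, ⟨⟨⟨⟨⟨H _ t32685.2.2.1, H _ t32685.2.2.2.1⟩, ⟨H _ t32685.2.2.2.2.1, H _ t32685.2.2.2.2.2.1⟩⟩, ⟨⟨H _ t32685.2.2.2.2.2.2.1, H _ t32685.2.2.2.2.2.2.2⟩, ⟨H _ t32693.1, H _ t32693.2.1⟩⟩⟩, ⟨⟨⟨H _ t32693.2.2.1, H _ t32693.2.2.2.1⟩, ⟨H _ t32693.2.2.2.2.1, H _ t32693.2.2.2.2.2.1⟩⟩, ⟨⟨H _ t32693.2.2.2.2.2.2.1, H _ t32693.2.2.2.2.2.2.2⟩, ⟨H _ t32701.1, ⟨H _ t32701.2.1, H _ t32701.2.2.1⟩⟩⟩⟩⟩, ⟨⟨⟨⟨H _ t32701.2.2.2.1, H _ t32701.2.2.2.2.1⟩, ⟨H _ t32701.2.2.2.2.2.1, H _ t32701.2.2.2.2.2.2.1⟩⟩, ⟨⟨H _ t32701.2.2.2.2.2.2.2, H _ t32709.1⟩, ⟨H _ t32709.2.1, H _ t32709.2.2.1⟩⟩⟩, ⟨⟨⟨H _ t32709.2.2.2.1, H _ t32709.2.2.2.2.1⟩, ⟨H _ t32709.2.2.2.2.2.1, H _ t32709.2.2.2.2.2.2.1⟩⟩, ⟨⟨H _ t32709.2.2.2.2.2.2.2, H _ t32717.1⟩, ⟨H _ t32717.2.1, ⟨H _ t32717.2.2.1, H _ t32717.2.2.2.1⟩⟩⟩⟩⟩⟩⟩, ⟨⟨⟨⟨⟨⟨H _ t32717.2.2.2.2.1, H _ t32717.2.2.2.2.2.1⟩, ⟨H _ t32717.2.2.2.2.2.2.1,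 H _ t32717.2.2.2.2.2.2.2⟩⟩, ⟨⟨H _ t32725.1, H _ t32725.2.1⟩, ⟨H _ t32725.2.2.1, H _ t32725.2.2.2.1⟩⟩⟩, ⟨⟨⟨H _ t32725.2.2.2.2.1, H _ t32725.2.2.2.2.2.1⟩, ⟨H _ t32725.2.2.2.2.2.2.1, H _ t32725.2.2.2.2.2.2.2⟩⟩, ⟨⟨H _ t32733.1, H _ t32733.2.1⟩, ⟨H _ t32733.2.2.1, ⟨H _ t32733.2.2.2.1, H _ t32733.2.2.2.2.1⟩⟩⟩⟩⟩, ⟨⟨⟨⟨H _ t32733.2.2.2.2.2.1, H _ t32733.2.2.2.2.2.2.1⟩, ⟨H _ t32733.2.2.2.2.2.2.2, H _ t32741.1⟩⟩, ⟨⟨H _ t32741.2.1, H _ t32741.2.2.1⟩, ⟨H _ t32741.2.2.2.1, H _ t32741.2.2.2.2.1⟩⟩⟩, ⟨⟨⟨H _ t32741.2.2.2.2.2.1, H _ t32741.2.2.2.2.2.2.1⟩, ⟨H _ t32741.2.2.2.2.2.2.2, H _ t32749.1⟩⟩, ⟨⟨H _ t32749.2.1, H _ t32749.2.2.1⟩, ⟨H _ t32749.2.2.2.1, ⟨H _ t32749.2.2.2.2.1, H _ t32749.2.2.2.2.2.1⟩⟩⟩⟩⟩⟩, ⟨⟨⟨⟨⟨H _ t32749.2.2.2.2.2.2.1, H _ t32749.2.2.2.2.2.2.2⟩, ⟨H _ t32757.1, H _ t32757.2.1⟩⟩, ⟨⟨H _ t32757.2.2.1, H _ t32757.2.2.2.1⟩, ⟨H _ t32757.2.2.2.2.1, H _ t32757.2.2.2.2.2.1⟩⟩⟩, ⟨⟨⟨H _ t32757.2.2.2.2.2.2.1,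 H _ t32757.2.2.2.2.2.2.2⟩, ⟨H _ t32765.1, H _ t32765.2.1⟩⟩, ⟨⟨H _ t32765.2.2.1, H _ t32765.2.2.2.1⟩, ⟨H _ t32765.2.2.2.2.1, ⟨H _ t32765.2.2.2.2.2.1, H _ t32765.2.2.2.2.2.2.1⟩⟩⟩⟩⟩, ⟨⟨⟨⟨H _ t32765.2.2.2.2.2.2.2, H _ t32773.1⟩, ⟨H _ t32773.2.1, H _ t32773.2.2.1⟩⟩, ⟨⟨H _ t32773.2.2.2.1, H _ t32773.2.2.2.2.1⟩, ⟨H _ t32773.2.2.2.2.2.1, ⟨H _ t32773.2.2.2.2.2.2.1, H _ t32773.2.2.2.2.2.2.2⟩⟩⟩⟩, ⟨⟨⟨H _ t32781.1, H _ t32781.2.1⟩, ⟨H _ t32781.2.2.1, H _ t32781.2.2.2.1⟩⟩, ⟨⟨H _ t32781.2.2.2.2.1, H _ t32781.2.2.2.2.2.1⟩, ⟨H _ t32781.2.2.2.2.2.2.1, ⟨H _ t32781.2.2.2.2.2.2.2, H _ t32789.1⟩⟩⟩⟩⟩⟩⟩⟩, ⟨⟨⟨⟨⟨⟨⟨H _ t32789.2.1, H _ t32789.2.2.1⟩, ⟨H _ t32789.2.2.2.1, H _ t32789.2.2.2.2.1⟩⟩, ⟨⟨H _ t32789.2.2.2.2.2.1, H _ t32789.2.2.2.2.2.2.1⟩, ⟨H _ t32789.2.2.2.2.2.2.2, H _ t32797.1⟩⟩⟩, ⟨⟨⟨H _ t32797.2.1, H _ t32797.2.2.1⟩, ⟨H _ t32797.2.2.2.1, H _ t32797.2.2.2.2.1⟩⟩, ⟨⟨H _ t32797.2.2.2.2.2.1, H _ t32797.2.2.2.2.2.2.1⟩,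 ⟨H _ t32797.2.2.2.2.2.2.2, ⟨H _ t32805.1, H _ t32805.2.1⟩⟩⟩⟩⟩, ⟨⟨⟨⟨H _ t32805.2.2.1, H _ t32805.2.2.2.1⟩, ⟨H _ t32805.2.2.2.2.1, H _ t32805.2.2.2.2.2.1⟩⟩, ⟨⟨H _ t32805.2.2.2.2.2.2.1, H _ t32805.2.2.2.2.2.2.2⟩, ⟨H _ t32813.1, H _ t32813.2.1⟩⟩⟩, ⟨⟨⟨H _ t32813.2.2.1, H _ t32813.2.2.2.1⟩, ⟨H _ t32813.2.2.2.2.1, H _ t32813.2.2.2.2.2.1⟩⟩, ⟨⟨H _ t32813.2.2.2.2.2.2.1, H _ t32813.2.2.2.2.2.2.2⟩, ⟨H _ t32821.1, ⟨H _ t32821.2.1, H _ t32821.2.2.1⟩⟩⟩⟩⟩⟩, ⟨⟨⟨⟨⟨H _ t32821.2.2.2.1, H _ t32821.2.2.2.2.1⟩, ⟨H _ t32821.2.2.2.2.2.1, H _ t32821.2.2.2.2.2.2.1⟩⟩, ⟨⟨H _ t32821.2.2.2.2.2.2.2, H _ t32829.1⟩, ⟨H _ t32829.2.1, H _ t32829.2.2.1⟩⟩⟩, ⟨⟨⟨H _ t32829.2.2.2.1, H _ t32829.2.2.2.2.1⟩, ⟨H _ t32829.2.2.2.2.2.1, H _ t32829.2.2.2.2.2.2.1⟩⟩, ⟨⟨H _ t32829.2.2.2.2.2.2.2, H _ t32837.1⟩, ⟨H _ t32837.2.1, ⟨H _ t32837.2.2.1, H _ t32837.2.2.2.1⟩⟩⟩⟩⟩, ⟨⟨⟨⟨H _ t32837.2.2.2.2.1, H _ t32837.2.2.2.2.2.1⟩, ⟨H _ t32837.2.2.2.2.2.2.1,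 H _ t32837.2.2.2.2.2.2.2⟩⟩, ⟨⟨H _ t32845.1, H _ t32845.2.1⟩, ⟨H _ t32845.2.2.1, ⟨H _ t32845.2.2.2.1, H _ t32845.2.2.2.2.1⟩⟩⟩⟩, ⟨⟨⟨H _ t32845.2.2.2.2.2.1, H _ t32845.2.2.2.2.2.2.1⟩, ⟨H _ t32845.2.2.2.2.2.2.2, H _ t32853.1⟩⟩, ⟨⟨H _ t32853.2.1, H _ t32853.2.2.1⟩, ⟨H _ t32853.2.2.2.1, ⟨H _ t32853.2.2.2.2.1, H _ t32853.2.2.2.2.2.1⟩⟩⟩⟩⟩⟩⟩, ⟨⟨⟨⟨⟨⟨H _ t32853.2.2.2.2.2.2.1, H _ t32853.2.2.2.2.2.2.2⟩, ⟨H _ t32861.1, H _ t32861.2.1⟩⟩, ⟨⟨H _ t32861.2.2.1, H _ t32861.2.2.2.1⟩, ⟨H _ t32861.2.2.2.2.1, H _ t32861.2.2.2.2.2.1⟩⟩⟩, ⟨⟨⟨H _ t32861.2.2.2.2.2.2.1, H _ t32861.2.2.2.2.2.2.2⟩, ⟨H _ t32869.1, H _ t32869.2.1⟩⟩, ⟨⟨H _ t32869.2.2.1, H _ t32869.2.2.2.1⟩, ⟨H _ t32869.2.2.2.2.1, ⟨H _ t32869.2.2.2.2.2.1, H _ t32869.2.2.2.2.2.2.1⟩⟩⟩⟩⟩, ⟨⟨⟨⟨H _ t32869.2.2.2.2.2.2.2, H _ t32877.1⟩, ⟨H _ t32877.2.1, H _ t32877.2.2.1⟩⟩, ⟨⟨H _ t32877.2.2.2.1, H _ t32877.2.2.2.2.1⟩, ⟨H _ t32877.2.2.2.2.2.1, H _ t32877.2.2.2.2.2.2.1⟩⟩⟩,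 ⟨⟨⟨H _ t32877.2.2.2.2.2.2.2, H _ t32885.1⟩, ⟨H _ t32885.2.1, H _ t32885.2.2.1⟩⟩, ⟨⟨H _ t32885.2.2.2.1, H _ t32885.2.2.2.2.1⟩, ⟨H _ t32885.2.2.2.2.2.1, ⟨H _ t32885.2.2.2.2.2.2.1, H _ t32885.2.2.2.2.2.2.2⟩⟩⟩⟩⟩⟩, ⟨⟨⟨⟨⟨H _ t32893.1, H _ t32893.2.1⟩, ⟨H _ t32893.2.2.1, H _ t32893.2.2.2.1⟩⟩, ⟨⟨H _ t32893.2.2.2.2.1, H _ t32893.2.2.2.2.2.1⟩, ⟨H _ t32893.2.2.2.2.2.2.1, H _ t32893.2.2.2.2.2.2.2⟩⟩⟩, ⟨⟨⟨H _ t32901.1, H _ t32901.2.1⟩, ⟨H _ t32901.2.2.1, H _ t32901.2.2.2.1⟩⟩, ⟨⟨H _ t32901.2.2.2.2.1, H _ t32901.2.2.2.2.2.1⟩, ⟨H _ t32901.2.2.2.2.2.2.1, ⟨H _ t32901.2.2.2.2.2.2.2, H _ t32909.1⟩⟩⟩⟩⟩, ⟨⟨⟨⟨H _ t32909.2.1, H _ t32909.2.2.1⟩, ⟨H _ t32909.2.2.2.1, H _ t32909.2.2.2.2.1⟩⟩, ⟨⟨H _ t32909.2.2.2.2.2.1, H _ t32909.2.2.2.2.2.2.1⟩, ⟨H _ t32909.2.2.2.2.2.2.2, ⟨H _ t32917.1, H _ t32917.2.1⟩⟩⟩⟩, ⟨⟨⟨H _ t32917.2.2.1, H _ t32917.2.2.2.1⟩, ⟨H _ t32917.2.2.2.2.1, H _ t32917.2.2.2.2.2.1⟩⟩, ⟨⟨H _ t32917.2.2.2.2.2.2.1,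 H _ t32917.2.2.2.2.2.2.2⟩, ⟨H _ t32925.1, ⟨H _ t32925.2.1, H _ t32925.2.2.1⟩⟩⟩⟩⟩⟩⟩⟩⟩, ⟨⟨⟨⟨⟨⟨⟨⟨H _ t32925.2.2.2.1, H _ t32925.2.2.2.2.1⟩, ⟨H _ t32925.2.2.2.2.2.1, H _ t32925.2.2.2.2.2.2.1⟩⟩, ⟨⟨H _ t32925.2.2.2.2.2.2.2, H _ t32933.1⟩, ⟨H _ t32933.2.1, H _ t32933.2.2.1⟩⟩⟩, ⟨⟨⟨H _ t32933.2.2.2.1, H _ t32933.2.2.2.2.1⟩, ⟨H _ t32933.2.2.2.2.2.1, H _ t32933.2.2.2.2.2.2.1⟩⟩, ⟨⟨H _ t32933.2.2.2.2.2.2.2, H _ t32941.1⟩, ⟨H _ t32941.2.1, ⟨H _ t32941.2.2.1, H _ t32941.2.2.2.1⟩⟩⟩⟩⟩, ⟨⟨⟨⟨H _ t32941.2.2.2.2.1, H _ t32941.2.2.2.2.2.1⟩, ⟨H _ t32941.2.2.2.2.2.2.1, H _ t32941.2.2.2.2.2.2.2⟩⟩, ⟨⟨H _ t32949.1, H _ t32949.2.1⟩, ⟨H _ t32949.2.2.1, H _ t32949.2.2.2.1⟩⟩⟩, ⟨⟨⟨H _ t32949.2.2.2.2.1, H _ t32949.2.2.2.2.2.1⟩, ⟨H _ t32949.2.2.2.2.2.2.1, H _ t32949.2.2.2.2.2.2.2⟩⟩, ⟨⟨H _ t32957.1, H _ t32957.2.1⟩, ⟨H _ t32957.2.2.1, ⟨H _ t32957.2.2.2.1, H _ t32957.2.2.2.2.1⟩⟩⟩⟩⟩⟩, ⟨⟨⟨⟨⟨H _ t32957.2.2.2.2.2.1, H _ t32957.2.2.2.2.2.2.1⟩,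 ⟨H _ t32957.2.2.2.2.2.2.2, H _ t32965.1⟩⟩, ⟨⟨H _ t32965.2.1, H _ t32965.2.2.1⟩, ⟨H _ t32965.2.2.2.1, H _ t32965.2.2.2.2.1⟩⟩⟩, ⟨⟨⟨H _ t32965.2.2.2.2.2.1, H _ t32965.2.2.2.2.2.2.1⟩, ⟨H _ t32965.2.2.2.2.2.2.2, H _ t32973.1⟩⟩, ⟨⟨H _ t32973.2.1, H _ t32973.2.2.1⟩, ⟨H _ t32973.2.2.2.1, ⟨H _ t32973.2.2.2.2.1, H _ t32973.2.2.2.2.2.1⟩⟩⟩⟩⟩, ⟨⟨⟨⟨H _ t32973.2.2.2.2.2.2.1, H _ t32973.2.2.2.2.2.2.2⟩, ⟨H _ t32981.1, H _ t32981.2.1⟩⟩, ⟨⟨H _ t32981.2.2.1, H _ t32981.2.2.2.1⟩, ⟨H _ t32981.2.2.2.2.1, H _ t32981.2.2.2.2.2.1⟩⟩⟩, ⟨⟨⟨H _ t32981.2.2.2.2.2.2.1, H _ t32981.2.2.2.2.2.2.2⟩, ⟨H _ t32989.1, H _ t32989.2.1⟩⟩, ⟨⟨H _ t32989.2.2.1, H _ t32989.2.2.2.1⟩, ⟨H _ t32989.2.2.2.2.1, ⟨H _ t32989.2.2.2.2.2.1, H _ t32989.2.2.2.2.2.2.1⟩⟩⟩⟩⟩⟩⟩, ⟨⟨⟨⟨⟨⟨H _ t32989.2.2.2.2.2.2.2, H _ t32997.1⟩, ⟨H _ t32997.2.1, H _ t32997.2.2.1⟩⟩, ⟨⟨H _ t32997.2.2.2.1, H _ t32997.2.2.2.2.1⟩, ⟨H _ t32997.2.2.2.2.2.1, H _ t32997.2.2.2.2.2.2.1⟩⟩⟩,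 ⟨⟨⟨H _ t32997.2.2.2.2.2.2.2, H _ t33005.1⟩, ⟨H _ t33005.2.1, H _ t33005.2.2.1⟩⟩, ⟨⟨H _ t33005.2.2.2.1, H _ t33005.2.2.2.2.1⟩, ⟨H _ t33005.2.2.2.2.2.1, ⟨H _ t33005.2.2.2.2.2.2.1, H _ t33005.2.2.2.2.2.2.2⟩⟩⟩⟩⟩, ⟨⟨⟨⟨H _ t33013.1, H _ t33013.2.1⟩, ⟨H _ t33013.2.2.1, H _ t33013.2.2.2.1⟩⟩, ⟨⟨H _ t33013.2.2.2.2.1, H _ t33013.2.2.2.2.2.1⟩, ⟨H _ t33013.2.2.2.2.2.2.1, H _ t33013.2.2.2.2.2.2.2⟩⟩⟩, ⟨⟨⟨H _ t33021.1, H _ t33021.2.1⟩, ⟨H _ t33021.2.2.1, H _ t33021.2.2.2.1⟩⟩, ⟨⟨H _ t33021.2.2.2.2.1, H _ t33021.2.2.2.2.2.1⟩, ⟨H _ t33021.2.2.2.2.2.2.1, ⟨H _ t33021.2.2.2.2.2.2.2, H _ t33029.1⟩⟩⟩⟩⟩⟩, ⟨⟨⟨⟨⟨H _ t33029.2.1, H _ t33029.2.2.1⟩, ⟨H _ t33029.2.2.2.1, H _ t33029.2.2.2.2.1⟩⟩, ⟨⟨H _ t33029.2.2.2.2.2.1, H _ t33029.2.2.2.2.2.2.1⟩, ⟨H _ t33029.2.2.2.2.2.2.2, H _ t33037.1⟩⟩⟩, ⟨⟨⟨H _ t33037.2.1, H _ t33037.2.2.1⟩, ⟨H _ t33037.2.2.2.1, H _ t33037.2.2.2.2.1⟩⟩, ⟨⟨H _ t33037.2.2.2.2.2.1, H _ t33037.2.2.2.2.2.2.1⟩,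 ⟨H _ t33037.2.2.2.2.2.2.2, ⟨H _ t33045.1, H _ t33045.2.1⟩⟩⟩⟩⟩, ⟨⟨⟨⟨H _ t33045.2.2.1, H _ t33045.2.2.2.1⟩, ⟨H _ t33045.2.2.2.2.1, H _ t33045.2.2.2.2.2.1⟩⟩, ⟨⟨H _ t33045.2.2.2.2.2.2.1, H _ t33045.2.2.2.2.2.2.2⟩, ⟨H _ t33053.1, ⟨H _ t33053.2.1, H _ t33053.2.2.1⟩⟩⟩⟩, ⟨⟨⟨H _ t33053.2.2.2.1, H _ t33053.2.2.2.2.1⟩, ⟨H _ t33053.2.2.2.2.2.1, H _ t33053.2.2.2.2.2.2.1⟩⟩, ⟨⟨H _ t33053.2.2.2.2.2.2.2, H _ t33061.1⟩, ⟨H _ t33061.2.1, ⟨H _ t33061.2.2.1, H _ t33061.2.2.2.1⟩⟩⟩⟩⟩⟩⟩⟩, ⟨⟨⟨⟨⟨⟨⟨H _ t33061.2.2.2.2.1, H _ t33061.2.2.2.2.2.1⟩, ⟨H _ t33061.2.2.2.2.2.2.1, H _ t33061.2.2.2.2.2.2.2⟩⟩, ⟨⟨H _ t33069.1, H _ t33069.2.1⟩, ⟨H _ t33069.2.2.1, H _ t33069.2.2.2.1⟩⟩⟩, ⟨⟨⟨H _ t33069.2.2.2.2.1, H _ t33069.2.2.2.2.2.1⟩, ⟨H _ t33069.2.2.2.2.2.2.1, H _ t33069.2.2.2.2.2.2.2⟩⟩, ⟨⟨H _ t33077.1, H _ t33077.2.1⟩, ⟨H _ t33077.2.2.1, ⟨H _ t33077.2.2.2.1, H _ t33077.2.2.2.2.1⟩⟩⟩⟩⟩, ⟨⟨⟨⟨H _ t33077.2.2.2.2.2.1, H _ t33077.2.2.2.2.2.2.1⟩,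 ⟨H _ t33077.2.2.2.2.2.2.2, H _ t33085.1⟩⟩, ⟨⟨H _ t33085.2.1, H _ t33085.2.2.1⟩, ⟨H _ t33085.2.2.2.1, H _ t33085.2.2.2.2.1⟩⟩⟩, ⟨⟨⟨H _ t33085.2.2.2.2.2.1, H _ t33085.2.2.2.2.2.2.1⟩, ⟨H _ t33085.2.2.2.2.2.2.2, H _ t33093.1⟩⟩, ⟨⟨H _ t33093.2.1, H _ t33093.2.2.1⟩, ⟨H _ t33093.2.2.2.1, ⟨H _ t33093.2.2.2.2.1, H _ t33093.2.2.2.2.2.1⟩⟩⟩⟩⟩⟩, ⟨⟨⟨⟨⟨H _ t33093.2.2.2.2.2.2.1, H _ t33093.2.2.2.2.2.2.2⟩, ⟨H _ t33101.1, H _ t33101.2.1⟩⟩, ⟨⟨H _ t33101.2.2.1, H _ t33101.2.2.2.1⟩, ⟨H _ t33101.2.2.2.2.1, H _ t33101.2.2.2.2.2.1⟩⟩⟩, ⟨⟨⟨H _ t33101.2.2.2.2.2.2.1, H _ t33101.2.2.2.2.2.2.2⟩, ⟨H _ t33109.1, H _ t33109.2.1⟩⟩, ⟨⟨H _ t33109.2.2.1, H _ t33109.2.2.2.1⟩, ⟨H _ t33109.2.2.2.2.1, ⟨H _ t33109.2.2.2.2.2.1, H _ t33109.2.2.2.2.2.2.1⟩⟩⟩⟩⟩, ⟨⟨⟨⟨H _ t33109.2.2.2.2.2.2.2, H _ t33117.1⟩, ⟨H _ t33117.2.1, H _ t33117.2.2.1⟩⟩, ⟨⟨H _ t33117.2.2.2.1, H _ t33117.2.2.2.2.1⟩, ⟨H _ t33117.2.2.2.2.2.1, ⟨H _ t33117.2.2.2.2.2.2.1, H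 _ t33117.2.2.2.2.2.2.2⟩⟩⟩⟩, ⟨⟨⟨H _ t33125.1, H _ t33125.2.1⟩, ⟨H _ t33125.2.2.1, H _ t33125.2.2.2.1⟩⟩, ⟨⟨H _ t33125.2.2.2.2.1, H _ t33125.2.2.2.2.2.1⟩, ⟨H _ t33125.2.2.2.2.2.2.1, ⟨H _ t33125.2.2.2.2.2.2.2, H _ t33133.1⟩⟩⟩⟩⟩⟩⟩, ⟨⟨⟨⟨⟨⟨H _ t33133.2.1, H _ t33133.2.2.1⟩, ⟨H _ t33133.2.2.2.1, H _ t33133.2.2.2.2.1⟩⟩, ⟨⟨H _ t33133.2.2.2.2.2.1, H _ t33133.2.2.2.2.2.2.1⟩, ⟨H _ t33133.2.2.2.2.2.2.2, H _ t33141.1⟩⟩⟩, ⟨⟨⟨H _ t33141.2.1, H _ t33141.2.2.1⟩, ⟨H _ t33141.2.2.2.1, H _ t33141.2.2.2.2.1⟩⟩, ⟨⟨H _ t33141.2.2.2.2.2.1, H _ t33141.2.2.2.2.2.2.1⟩, ⟨H _ t33141.2.2.2.2.2.2.2, ⟨H _ t33149.1, H _ t33149.2.1⟩⟩⟩⟩⟩, ⟨⟨⟨⟨H _ t33149.2.2.1, H _ t33149.2.2.2.1⟩, ⟨H _ t33149.2.2.2.2.1, H _ t33149.2.2.2.2.2.1⟩⟩, ⟨⟨H _ t33149.2.2.2.2.2.2.1, H _ t33149.2.2.2.2.2.2.2⟩, ⟨H _ t33157.1, H _ t33157.2.1⟩⟩⟩, ⟨⟨⟨H _ t33157.2.2.1, H _ t33157.2.2.2.1⟩, ⟨H _ t33157.2.2.2.2.1, H _ t33157.2.2.2.2.2.1⟩⟩, ⟨⟨H _ t33157.2.2.2.2.2.2.1,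 H _ t33157.2.2.2.2.2.2.2⟩, ⟨H _ t33165.1, ⟨H _ t33165.2.1, H _ t33165.2.2.1⟩⟩⟩⟩⟩⟩, ⟨⟨⟨⟨⟨H _ t33165.2.2.2.1, H _ t33165.2.2.2.2.1⟩, ⟨H _ t33165.2.2.2.2.2.1, H _ t33165.2.2.2.2.2.2.1⟩⟩, ⟨⟨H _ t33165.2.2.2.2.2.2.2, H _ t33173.1⟩, ⟨H _ t33173.2.1, H _ t33173.2.2.1⟩⟩⟩, ⟨⟨⟨H _ t33173.2.2.2.1, H _ t33173.2.2.2.2.1⟩, ⟨H _ t33173.2.2.2.2.2.1, H _ t33173.2.2.2.2.2.2.1⟩⟩, ⟨⟨H _ t33173.2.2.2.2.2.2.2, H _ t33181.1⟩, ⟨H _ t33181.2.1, ⟨H _ t33181.2.2.1, H _ t33181.2.2.2.1⟩⟩⟩⟩⟩, ⟨⟨⟨⟨H _ t33181.2.2.2.2.1, H _ t33181.2.2.2.2.2.1⟩, ⟨H _ t33181.2.2.2.2.2.2.1, H _ t33181.2.2.2.2.2.2.2⟩⟩, ⟨⟨H _ t33189.1, H _ t33189.2.1⟩, ⟨H _ t33189.2.2.1, ⟨H _ t33189.2.2.2.1, H _ t33189.2.2.2.2.1⟩⟩⟩⟩, ⟨⟨⟨H _ t33189.2.2.2.2.2.1, H _ t33189.2.2.2.2.2.2.1⟩, ⟨H _ t33189.2.2.2.2.2.2.2, H _ t33197.1⟩⟩, ⟨⟨H _ t33197.2.1, H _ t33197.2.2.1⟩, ⟨H _ t33197.2.2.2.1, ⟨H _ t33197.2.2.2.2.1, H _ t33197.2.2.2.2.2⟩⟩⟩⟩⟩⟩⟩⟩⟩⟩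

end Pool.Agent.MP_c853c5_nt.X.C4950
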