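import Pool.Agent.MP_c853c5_nt.X.C4950.Env
import Pool.Agent.MP_c853c5_nt.X.C4950.D1

set_option autoImplicit false
set_option maxRecDepth 8192
set_option linter.all false

namespace Pool.Agent.MP_c853c5_nt.X.C4950

open Pool.Agent.MP_c853c5_nt.X

def t3292 : allY (E.wth (lkp [])) l3292 = true ∧
    allY (E.wth (lkp [])) l3293 = true ∧
    allY (E.wth (lkp [])) l3294 = true ∧
    allY (E.wth (lkp [])) l3295 = true ∧
    allY (E.wth (lkp [])) l3296 = true ∧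
    allY (E.wth (lkp [])) l3297 = true ∧
    allY (E.wth (lkp [])) l3298 = true ∧
    allY (E.wth (lkp [])) l3299 = true :=
  ⟨by decide +kernel, by decide +kernel, by decide +kernel, by decide +kernel, by decide +kernel, by decide +kernel, by decide +kernel, by decide +kernel⟩

def t3300 : allY (E.wth (lkp [])) l3300 = true ∧
    allY (E.wth (lkp [])) l3301 = true ∧
    allY (E.wth (lkp [])) l3302 = true ∧
    allY (E.wth (lkp [])) l3303 = true ∧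
    allY (E.wth (lkp [])) l3304 = true ∧
    allY (E.wth (lkp [])) l3305 = true ∧
    allY (E.wth (lkp [])) l3306 = true ∧
    allY (E.wth (lkp [])) l3307 = true :=
  ⟨by decide +kernel, by decide +kernel, by decide +kernel, by decide +kernel, by decide +kernel, by decide +kernel, by decide +kernel, by decide +kernel⟩

def t3308 : allY (E.wth (lkp [])) l3308 = true ∧
    allY (E.wth (lkp [])) l3309 = true ∧
    allY (E.wth (lkp [])) l3310 = true ∧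
    allY (E.wth (lkp [])) l3311 = true ∧
    allY (E.wth (lkp [])) l3312 = true ∧
    allY (E.wth (lkp [])) l3313 = true ∧
    allY (E.wth (lkp [])) l3314 = true ∧
    allY (E.wth (lkp [])) l3315 = true :=
  ⟨by decide +kernel, by decide +kernel, by decide +kernel, by decide +kernel, by decide +kernel, by decide +kernel, by decide +kernel, by decide +kernel⟩

def t3316 : allY (E.wth (lkp [])) l3316 = true ∧
    allY (E.wth (lkp [])) l3317 = true ∧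
    allY (E.wth (lkp [])) l3318 = true ∧
    allY (E.wth (lkp [])) l3319 = true ∧
    allY (E.wth (lkp [])) l3320 = true ∧
    allY (E.wth (lkp [])) l3321 = true ∧
    allY (E.wth (lkp [])) l3322 = true ∧
    allY (E.wth (lkp [])) l3323 = true :=
  ⟨by decide +kernel, by decide +kernel, by decide +kernel, by decide +kernel, by decide +kernel, by decide +kernel, by decide +kernel, by decide +kernel⟩

def t3324 : allY (E.wth (lkp [])) l3324 = true ∧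
    allY (E.wth (lkp [])) l3325 = true ∧
    allY (E.wth (lkp [])) l3326 = true ∧
    allY (E.wth (lkp [])) l3327 = true ∧
    allY (E.wth (lkp [])) l3328 = true ∧
    allY (E.wth (lkp [])) l3329 = true ∧
    allY (E.wth (lkp [])) l3330 = true ∧
    allY (E.wth (lkp [])) l3331 = true :=
  ⟨by decide +kernel, by decide +kernel, by decide +kernel, by decide +kernel, by decide +kernel, by decide +kernel, by decide +kernel, by decide +kernel⟩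

def t3332 : allY (E.wth (lkp [])) l3332 = true ∧
    allY (E.wth (lkp [])) l3333 = true ∧
    allY (E.wth (lkp [])) l3334 = true ∧
    allY (E.wth (lkp [])) l3335 = true ∧
    allY (E.wth (lkp [])) l3336 = true ∧
    allY (E.wth (lkp [])) l3337 = true ∧
    allY (E.wth (lkp [])) l3338 = true ∧
    allY (E.wth (lkp [])) l3339 = true :=
  ⟨by decide +kernel, by decide +kernel, by decide +kernel, by decide +kernel, by decide +kernel, by decide +kernel, by decide +kernel, by decide +kernel⟩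

def t3340 : allY (E.wth (lkp [])) l3340 = true ∧
    allY (E.wth (lkp [])) l3341 = true ∧
    allY (E.wth (lkp [])) l3342 = true ∧
    allY (E.wth (lkp [])) l3343 = true ∧
    allY (E.wth (lkp [])) l3344 = true ∧
    allY (E.wth (lkp [])) l3345 = true ∧
    allY (E.wth (lkp [])) l3346 = true ∧
    allY (E.wth (lkp [])) l3347 = true :=
  ⟨by decide +kernel, by decide +kernel, by decide +kernel, by decide +kernel, by decide +kernel, by decide +kernel, by decide +kernel, by decide +kernel⟩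

def t3348 : allY (E.wth (lkp [])) l3348 = true ∧
    allY (E.wth (lkp [])) l3349 = true ∧
    allY (E.wth (lkp [])) l3350 = true ∧
    allY (E.wth (lkp [])) l3351 = true ∧
    allY (E.wth (lkp [])) l3352 = true ∧
    allY (E.wth (lkp [])) l3353 = true ∧
    allY (E.wth (lkp [])) l3354 = true ∧
    allY (E.wth (lkp [])) l3355 = true :=
  ⟨by decide +kernel, by decide +kernel, by decide +kernel, by decide +kernel, by decide +kernel, by decide +kernel, by decide +kernel, by decide +kernel⟩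

def t3356 : allY (E.wth (lkp [])) l3356 = true ∧
    allY (E.wth (lkp [])) l3357 = true ∧
    allY (E.wth (lkp [])) l3358 = true ∧
    allY (E.wth (lkp [])) l3359 = true ∧
    allY (E.wth (lkp [])) l3360 = true ∧
    allY (E.wth (lkp [])) l3361 = true ∧
    allY (E.wth (lkp [])) l3362 = true ∧
    allY (E.wth (lkp [])) l3363 = true :=
  ⟨by decide +kernel, by decide +kernel, by decide +kernel, by decide +kernel, by decide +kernel, by decide +kernel, by decide +kernel, by decide +kernel⟩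

def t3364 : allY (E.wth (lkp [])) l3364 = true ∧
    allY (E.wth (lkp [])) l3365 = true ∧
    allY (E.wth (lkp [])) l3366 = true ∧
    allY (E.wth (lkp [])) l3367 = true ∧
    allY (E.wth (lkp [])) l3368 = true ∧
    allY (E.wth (lkp [])) l3369 = true ∧
    allY (E.wth (lkp [])) l3370 = true ∧
    allY (E.wth (lkp [])) l3371 = true :=
  ⟨by decide +kernel, by decide +kernel, by decide +kernel, by decide +kernel, by decide +kernel, by decide +kernel, by decide +kernel, by decide +kernel⟩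

def t3372 : allY (E.wth (lkp [])) l3372 = true ∧
    allY (E.wth (lkp [])) l3373 = true ∧
    allY (E.wth (lkp [])) l3374 = true ∧
    allY (E.wth (lkp [])) l3375 = true ∧
    allY (E.wth (lkp [])) l3376 = true ∧
    allY (E.wth (lkp [])) l3377 = true ∧
    allY (E.wth (lkp [])) l3378 = true ∧
    allY (E.wth (lkp [])) l3379 = true :=
  ⟨by decide +kernel, by decide +kernel, by decide +kernel, by decide +kernel, by decide +kernel, by decide +kernel, by decide +kernel, by decide +kernel⟩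

def t3380 : allY (E.wth (lkp [])) l3380 = true ∧
    allY (E.wth (lkp [])) l3381 = true ∧
    allY (E.wth (lkp [])) l3382 = true ∧
    allY (E.wth (lkp [])) l3383 = true ∧
    allY (E.wth (lkp [])) l3384 = true ∧
    allY (E.wth (lkp [])) l3385 = true ∧
    allY (E.wth (lkp [])) l3386 = true ∧
    allY (E.wth (lkp [])) l3387 = true :=
  ⟨by decide +kernel, by decide +kernel, by decide +kernel, by decide +kernel, by decide +kernel, by decide +kernel, by decide +kernel, by decide +kernel⟩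

def t3388 : allY (E.wth (lkp [])) l3388 = true ∧
    allY (E.wth (lkp [])) l3389 = true ∧
    allY (E.wth (lkp [])) l3390 = true ∧
    allY (E.wth (lkp [])) l3391 = true ∧
    allY (E.wth (lkp [])) l3392 = true ∧
    allY (E.wth (lkp [])) l3393 = true ∧
    allY (E.wth (lkp [])) l3394 = true ∧
    allY (E.wth (lkp [])) l3395 = true :=
  ⟨by decide +kernel, by decide +kernel, by decide +kernel, by decide +kernel, by decide +kernel, by decide +kernel, by decide +kernel, by decide +kernel⟩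

def t3396 : allY (E.wth (lkp [])) l3396 = true ∧
    allY (E.wth (lkp [])) l3397 = true ∧
    allY (E.wth (lkp [])) l3398 = true ∧
    allY (E.wth (lkp [])) l3399 = true ∧
    allY (E.wth (lkp [])) l3400 = true ∧
    allY (E.wth (lkp [])) l3401 = true ∧
    allY (E.wth (lkp [])) l3402 = true ∧
    allY (E.wth (lkp [])) l3403 = true :=
  ⟨by decide +kernel, by decide +kernel, by decide +kernel, by decide +kernel, by decide +kernel, by decide +kernel, by decide +kernel, by decide +kernel⟩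

def t3404 : allY (E.wth (lkp [])) l3404 = true ∧
    allY (E.wth (lkp [])) l3405 = true ∧
    allY (E.wth (lkp [])) l3406 = true ∧
    allY (E.wth (lkp [])) l3407 = true ∧
    allY (E.wth (lkp [])) l3408 = true ∧
    allY (E.wth (lkp [])) l3409 = true ∧
    allY (E.wth (lkp [])) l3410 = true ∧
    allY (E.wth (lkp [])) l3411 = true :=
  ⟨by decide +kernel, by decide +kernel, by decide +kernel, by decide +kernel, by decide +kernel, by decide +kernel, by decide +kernel, by decide +kernel⟩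

def t3412 : allY (E.wth (lkp [])) l3412 = true ∧
    allY (E.wth (lkp [])) l3413 = true ∧
    allY (E.wth (lkp [])) l3414 = true ∧
    allY (E.wth (lkp [])) l3415 = true ∧
    allY (E.wth (lkp [])) l3416 = true ∧
    allY (E.wth (lkp [])) l3417 = true ∧
    allY (E.wth (lkp [])) l3418 = true ∧
    allY (E.wth (lkp [])) l3419 = true :=
  ⟨by decide +kernel, by decide +kernel, by decide +kernel, by decide +kernel, by decide +kernel, by decide +kernel, by decide +kernel, by decide +kernel⟩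

def t3420 : allY (E.wth (lkp [])) l3420 = true ∧
    allY (E.wth (lkp [])) l3421 = true ∧
    allY (E.wth (lkp [])) l3422 = true ∧
    allY (E.wth (lkp [])) l3423 = true ∧
    allY (E.wth (lkp [])) l3424 = true ∧
    allY (E.wth (lkp [])) l3425 = true ∧
    allY (E.wth (lkp [])) l3426 = true ∧
    allY (E.wth (lkp [])) l3427 = true :=
  ⟨by decide +kernel, by decide +kernel, by decide +kernel, by decide +kernel, by decide +kernel, by decide +kernel, by decide +kernel, by decide +kernel⟩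

def t3428 : allY (E.wth (lkp [])) l3428 = true ∧
    allY (E.wth (lkp [])) l3429 = true ∧
    allY (E.wth (lkp [])) l3430 = true ∧
    allY (E.wth (lkp [])) l3431 = true ∧
    allY (E.wth (lkp [])) l3432 = true ∧
    allY (E.wth (lkp [])) l3433 = true ∧
    allY (E.wth (lkp [])) l3434 = true ∧
    allY (E.wth (lkp [])) l3435 = true :=
  ⟨by decide +kernel, by decide +kernel, by decide +kernel, by decide +kernel, by decide +kernel, by decide +kernel, by decide +kernel, by decide +kernel⟩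

def t3436 : allY (E.wth (lkp [])) l3436 = true ∧
    allY (E.wth (lkp [])) l3437 = true ∧
    allY (E.wth (lkp [])) l3438 = true ∧
    allY (E.wth (lkp [])) l3439 = true ∧
    allY (E.wth (lkp [])) l3440 = true ∧
    allY (E.wth (lkp [])) l3441 = true ∧
    allY (E.wth (lkp [])) l3442 = true ∧
    allY (E.wth (lkp [])) l3443 = true :=
  ⟨by decide +kernel, by decide +kernel, by decide +kernel, by decide +kernel, by decide +kernel, by decide +kernel, by decide +kernel, by decide +kernel⟩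

def t3444 : allY (E.wth (lkp [])) l3444 = true ∧
    allY (E.wth (lkp [])) l3445 = true ∧
    allY (E.wth (lkp [])) l3446 = true ∧
    allY (E.wth (lkp [])) l3447 = true ∧
    allY (E.wth (lkp [])) l3448 = true ∧
    allY (E.wth (lkp [])) l3449 = true ∧
    allY (E.wth (lkp [])) l3450 = true ∧
    allY (E.wth (lkp [])) l3451 = true :=
  ⟨by decide +kernel, by decide +kernel, by decide +kernel, by decide +kernel, by decide +kernel, by decide +kernel, by decide +kernel, by decide +kernel⟩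

def t3452 : allY (E.wth (lkp [])) l3452 = true ∧
    allY (E.wth (lkp [])) l3453 = true ∧
    allY (E.wth (lkp [])) l3454 = true ∧
    allY (E.wth (lkp [])) l3455 = true ∧
    allY (E.wth (lkp [])) l3456 = true ∧
    allY (E.wth (lkp [])) l3457 = true ∧
    allY (E.wth (lkp [])) l3458 = true ∧
    allY (E.wth (lkp [])) l3459 = true :=
  ⟨by decide +kernel, by decide +kernel, by decide +kernel, by decide +kernel, by decide +kernel, by decide +kernel, by decide +kernel, by decide +kernel⟩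

def t3460 : allY (E.wth (lkp [])) l3460 = true ∧
    allY (E.wth (lkp [])) l3461 = true ∧
    allY (E.wth (lkp [])) l3462 = true ∧
    allY (E.wth (lkp [])) l3463 = true ∧
    allY (E.wth (lkp [])) l3464 = true ∧
    allY (E.wth (lkp [])) l3465 = true ∧
    allY (E.wth (lkp [])) l3466 = true ∧
    allY (E.wth (lkp [])) l3467 = true :=
  ⟨by decide +kernel, by decide +kernel, by decide +kernel, by decide +kernel, by decide +kernel, by decide +kernel, by decide +kernel, by decide +kernel⟩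

def t3468 : allY (E.wth (lkp [])) l3468 = true ∧
    allY (E.wth (lkp [])) l3469 = true ∧
    allY (E.wth (lkp [])) l3470 = true ∧
    allY (E.wth (lkp [])) l3471 = true ∧
    allY (E.wth (lkp [])) l3472 = true ∧
    allY (E.wth (lkp [])) l3473 = true ∧
    allY (E.wth (lkp [])) l3474 = true ∧
    allY (E.wth (lkp [])) l3475 = true :=
  ⟨by decide +kernel, by decide +kernel, by decide +kernel, by decide +kernel, by decide +kernel, by decide +kernel, by decide +kernel, by decide +kernel⟩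

def t3476 : allY (E.wth (lkp [])) l3476 = true ∧
    allY (E.wth (lkp [])) l3477 = true ∧
    allY (E.wth (lkp [])) l3478 = true ∧
    allY (E.wth (lkp [])) l3479 = true ∧
    allY (E.wth (lkp [])) l3480 = true ∧
    allY (E.wth (lkp [])) l3481 = true ∧
    allY (E.wth (lkp [])) l3482 = true ∧
    allY (E.wth (lkp [])) l3483 = true :=
  ⟨by decide +kernel, by decide +kernel, by decide +kernel, by decide +kernel, by decide +kernel, by decide +kernel, by decide +kernel, by decide +kernel⟩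

def t3484 : allY (E.wth (lkp [])) l3484 = true ∧
    allY (E.wth (lkp [])) l3485 = true ∧
    allY (E.wth (lkp [])) l3486 = true ∧
    allY (E.wth (lkp [])) l3487 = true ∧
    allY (E.wth (lkp [])) l3488 = true ∧
    allY (E.wth (lkp [])) l3489 = true ∧
    allY (E.wth (lkp [])) l3490 = true ∧
    allY (E.wth (lkp [])) l3491 = true :=
  ⟨by decide +kernel, by decide +kernel, by decide +kernel, by decide +kernel, by decide +kernel, by decide +kernel, by decide +kernel, by decide +kernel⟩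

def t3492 : allY (E.wth (lkp [])) l3492 = true ∧
    allY (E.wth (lkp [])) l3493 = true ∧
    allY (E.wth (lkp [])) l3494 = true ∧
    allY (E.wth (lkp [])) l3495 = true ∧
    allY (E.wth (lkp [])) l3496 = true ∧
    allY (E.wth (lkp [])) l3497 = true ∧
    allY (E.wth (lkp [])) l3498 = true ∧
    allY (E.wth (lkp [])) l3499 = true :=
  ⟨by decide +kernel, by decide +kernel, by decide +kernel, by decide +kernel, by decide +kernel, by decide +kernel, by decide +kernel, by decide +kernel⟩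

def t3500 : allY (E.wth (lkp [])) l3500 = true ∧
    allY (E.wth (lkp [])) l3501 = true ∧
    allY (E.wth (lkp [])) l3502 = true ∧
    allY (E.wth (lkp [])) l3503 = true ∧
    allY (E.wth (lkp [])) l3504 = true ∧
    allY (E.wth (lkp [])) l3505 = true ∧
    allY (E.wth (lkp [])) l3506 = true ∧
    allY (E.wth (lkp [])) l3507 = true :=
  ⟨by decide +kernel, by decide +kernel, by decide +kernel, by decide +kernel, by decide +kernel, by decide +kernel, by decide +kernel, by decide +kernel⟩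

def t3508 : allY (E.wth (lkp [])) l3508 = true ∧
    allY (E.wth (lkp [])) l3509 = true ∧
    allY (E.wth (lkp [])) l3510 = true ∧
    allY (E.wth (lkp [])) l3511 = true ∧
    allY (E.wth (lkp [])) l3512 = true ∧
    allY (E.wth (lkp [])) l3513 = true ∧
    allY (E.wth (lkp [])) l3514 = true ∧
    allY (E.wth (lkp [])) l3515 = true :=
  ⟨by decide +kernel, by decide +kernel, by decide +kernel, by decide +kernel, by decide +kernel, by decide +kernel, by decide +kernel, by decide +kernel⟩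

def t3516 : allY (E.wth (lkp [])) l3516 = true ∧
    allY (E.wth (lkp [])) l3517 = true ∧
    allY (E.wth (lkp [])) l3518 = true ∧
    allY (E.wth (lkp [])) l3519 = true ∧
    allY (E.wth (lkp [])) l3520 = true ∧
    allY (E.wth (lkp [])) l3521 = true ∧
    allY (E.wth (lkp [])) l3522 = true ∧
    allY (E.wth (lkp [])) l3523 = true :=
  ⟨by decide +kernel, by decide +kernel, by decide +kernel, by decide +kernel, by decide +kernel, by decide +kernel, by decide +kernel, by decide +kernel⟩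

def t3524 : allY (E.wth (lkp [])) l3524 = true ∧
    allY (E.wth (lkp [])) l3525 = true ∧
    allY (E.wth (lkp [])) l3526 = true ∧
    allY (E.wth (lkp [])) l3527 = true ∧
    allY (E.wth (lkp [])) l3528 = true ∧
    allY (E.wth (lkp [])) l3529 = true ∧
    allY (E.wth (lkp [])) l3530 = true ∧
    allY (E.wth (lkp [])) l3531 = true :=
  ⟨by decide +kernel, by decide +kernel, by decide +kernel, by decide +kernel, by decide +kernel, by decide +kernel, by decide +kernel, by decide +kernel⟩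

def t3532 : allY (E.wth (lkp [])) l3532 = true ∧
    allY (E.wth (lkp [])) l3533 = true ∧
    allY (E.wth (lkp [])) l3534 = true ∧
    allY (E.wth (lkp [])) l3535 = true ∧
    allY (E.wth (lkp [])) l3536 = true ∧
    allY (E.wth (lkp [])) l3537 = true ∧
    allY (E.wth (lkp [])) l3538 = true ∧
    allY (E.wth (lkp [])) l3539 = true :=
  ⟨by decide +kernel, by decide +kernel, by decide +kernel, by decide +kernel, by decide +kernel, by decide +kernel, by decide +kernel, by decide +kernel⟩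

def t3540 : allY (E.wth (lkp [])) l3540 = true ∧
    allY (E.wth (lkp [])) l3541 = true ∧
    allY (E.wth (lkp [])) l3542 = true ∧
    allY (E.wth (lkp [])) l3543 = true ∧
    allY (E.wth (lkp [])) l3544 = true ∧
    allY (E.wth (lkp [])) l3545 = true ∧
    allY (E.wth (lkp [])) l3546 = true ∧
    allY (E.wth (lkp [])) l3547 = true :=
  ⟨by decide +kernel, by decide +kernel, by decide +kernel, by decide +kernel, by decide +kernel, by decide +kernel, by decide +kernel, by decide +kernel⟩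

def t3548 : allY (E.wth (lkp [])) l3548 = true ∧
    allY (E.wth (lkp [])) l3549 = true ∧
    allY (E.wth (lkp [])) l3550 = true ∧
    allY (E.wth (lkp [])) l3551 = true ∧
    allY (E.wth (lkp [])) l3552 = true ∧
    allY (E.wth (lkp [])) l3553 = true ∧
    allY (E.wth (lkp [])) l3554 = true ∧
    allY (E.wth (lkp [])) l3555 = true :=
  ⟨by decide +kernel, by decide +kernel, by decide +kernel, by decide +kernel, by decide +kernel, by decide +kernel, by decide +kernel, by decide +kernel⟩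

def t3556 : allY (E.wth (lkp [])) l3556 = true ∧
    allY (E.wth (lkp [])) l3557 = true ∧
    allY (E.wth (lkp [])) l3558 = true ∧
    allY (E.wth (lkp [])) l3559 = true ∧
    allY (E.wth (lkp [])) l3560 = true ∧
    allY (E.wth (lkp [])) l3561 = true ∧
    allY (E.wth (lkp [])) l3562 = true ∧
    allY (E.wth (lkp [])) l3563 = true :=
  ⟨by decide +kernel, by decide +kernel, by decide +kernel, by decide +kernel, by decide +kernel, by decide +kernel, by decide +kernel, by decide +kernel⟩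

def t3564 : allY (E.wth (lkp [])) l3564 = true ∧
    allY (E.wth (lkp [])) l3565 = true ∧
    allY (E.wth (lkp [])) l3566 = true ∧
    allY (E.wth (lkp [])) l3567 = true ∧
    allY (E.wth (lkp [])) l3568 = true ∧
    allY (E.wth (lkp [])) l3569 = true ∧
    allY (E.wth (lkp [])) l3570 = true ∧
    allY (E.wth (lkp [])) l3571 = true :=
  ⟨by decide +kernel, by decide +kernel, by decide +kernel, by decide +kernel, by decide +kernel, by decide +kernel, by decide +kernel, by decide +kernel⟩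

def t3572 : allY (E.wth (lkp [])) l3572 = true ∧
    allY (E.wth (lkp [])) l3573 = true ∧
    allY (E.wth (lkp [])) l3574 = true ∧
    allY (E.wth (lkp [])) l3575 = true ∧
    allY (E.wth (lkp [])) l3576 = true ∧
    allY (E.wth (lkp [])) l3577 = true ∧
    allY (E.wth (lkp [])) l3578 = true ∧
    allY (E.wth (lkp [])) l3579 = true :=
  ⟨by decide +kernel, by decide +kernel, by decide +kernel, by decide +kernel, by decide +kernel, by decide +kernel, by decide +kernel, by decide +kernel⟩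

def t3580 : allY (E.wth (lkp [])) l3580 = true ∧
    allY (E.wth (lkp [])) l3581 = true ∧
    allY (E.wth (lkp [])) l3582 = true ∧
    allY (E.wth (lkp [])) l3583 = true ∧
    allY (E.wth (lkp [])) l3584 = true ∧
    allY (E.wth (lkp [])) l3585 = true ∧
    allY (E.wth (lkp [])) l3586 = true ∧
    allY (E.wth (lkp [])) l3587 = true :=
  ⟨by decide +kernel, by decide +kernel, by decide +kernel, by decide +kernel, by decide +kernel, by decide +kernel, by decide +kernel, by decide +kernel⟩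

def t3588 : allY (E.wth (lkp [])) l3588 = true ∧
    allY (E.wth (lkp [])) l3589 = true ∧
    allY (E.wth (lkp [])) l3590 = true ∧
    allY (E.wth (lkp [])) l3591 = true ∧
    allY (E.wth (lkp [])) l3592 = true ∧
    allY (E.wth (lkp [])) l3593 = true ∧
    allY (E.wth (lkp [])) l3594 = true ∧
    allY (E.wth (lkp [])) l3595 = true :=
  ⟨by decide +kernel, by decide +kernel, by decide +kernel, by decide +kernel, by decide +kernel, by decide +kernel, by decide +kernel, by decide +kernel⟩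

def t3596 : allY (E.wth (lkp [])) l3596 = true ∧
    allY (E.wth (lkp [])) l3597 = true ∧
    allY (E.wth (lkp [])) l3598 = true ∧
    allY (E.wth (lkp [])) l3599 = true ∧
    allY (E.wth (lkp [])) l3600 = true ∧
    allY (E.wth (lkp [])) l3601 = true ∧
    allY (E.wth (lkp [])) l3602 = true ∧
    allY (E.wth (lkp [])) l3603 = true :=
  ⟨by decide +kernel, by decide +kernel, by decide +kernel, by decide +kernel, by decide +kernel, by decide +kernel, by decide +kernel, by decide +kernel⟩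

def t3604 : allY (E.wth (lkp [])) l3604 = true ∧
    allY (E.wth (lkp [])) l3605 = true ∧
    allY (E.wth (lkp [])) l3606 = true ∧
    allY (E.wth (lkp [])) l3607 = true ∧
    allY (E.wth (lkp [])) l3608 = true ∧
    allY (E.wth (lkp [])) l3609 = true ∧
    allY (E.wth (lkp [])) l3610 = true ∧
    allY (E.wth (lkp [])) l3611 = true :=
  ⟨by decide +kernel, by decide +kernel, by decide +kernel, by decide +kernel, by decide +kernel, by decide +kernel, by decide +kernel, by decide +kernel⟩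

def t3612 : allY (E.wth (lkp [])) l3612 = true ∧
    allY (E.wth (lkp [])) l3613 = true ∧
    allY (E.wth (lkp [])) l3614 = true ∧
    allY (E.wth (lkp [])) l3615 = true ∧
    allY (E.wth (lkp [])) l3616 = true ∧
    allY (E.wth (lkp [])) l3617 = true ∧
    allY (E.wth (lkp [])) l3618 = true ∧
    allY (E.wth (lkp [])) l3619 = true :=
  ⟨by decide +kernel, by decide +kernel, by decide +kernel, by decide +kernel, by decide +kernel, by decide +kernel, by decide +kernel, by decide +kernel⟩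

def t3620 : allY (E.wth (lkp [])) l3620 = true ∧
    allY (E.wth (lkp [])) l3621 = true ∧
    allY (E.wth (lkp [])) l3622 = true ∧
    allY (E.wth (lkp [])) l3623 = true ∧
    allY (E.wth (lkp [])) l3624 = true ∧
    allY (E.wth (lkp [])) l3625 = true ∧
    allY (E.wth (lkp [])) l3626 = true ∧
    allY (E.wth (lkp [])) l3627 = true :=
  ⟨by decide +kernel, by decide +kernel, by decide +kernel, by decide +kernel, by decide +kernel, by decide +kernel, by decide +kernel, by decide +kernel⟩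

def t3628 : allY (E.wth (lkp [])) l3628 = true ∧
    allY (E.wth (lkp [])) l3629 = true ∧
    allY (E.wth (lkp [])) l3630 = true ∧
    allY (E.wth (lkp [])) l3631 = true ∧
    allY (E.wth (lkp [])) l3632 = true ∧
    allY (E.wth (lkp [])) l3633 = true ∧
    allY (E.wth (lkp [])) l3634 = true ∧
    allY (E.wth (lkp [])) l3635 = true :=
  ⟨by decide +kernel, by decide +kernel, by decide +kernel, by decide +kernel, by decide +kernel, by decide +kernel, by decide +kernel, by decide +kernel⟩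

def t3636 : allY (E.wth (lkp [])) l3636 = true ∧
    allY (E.wth (lkp [])) l3637 = true ∧
    allY (E.wth (lkp [])) l3638 = true ∧
    allY (E.wth (lkp [])) l3639 = true ∧
    allY (E.wth (lkp [])) l3640 = true ∧
    allY (E.wth (lkp [])) l3641 = true ∧
    allY (E.wth (lkp [])) l3642 = true ∧
    allY (E.wth (lkp [])) l3643 = true :=
  ⟨by decide +kernel, by decide +kernel, by decide +kernel, by decide +kernel, by decide +kernel, by decide +kernel, by decide +kernel, by decide +kernel⟩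

def t3644 : allY (E.wth (lkp [])) l3644 = true ∧
    allY (E.wth (lkp [])) l3645 = true ∧
    allY (E.wth (lkp [])) l3646 = true ∧
    allY (E.wth (lkp [])) l3647 = true ∧
    allY (E.wth (lkp [])) l3648 = true ∧
    allY (E.wth (lkp [])) l3649 = true ∧
    allY (E.wth (lkp [])) l3650 = true ∧
    allY (E.wth (lkp [])) l3651 = true :=
  ⟨by decide +kernel, by decide +kernel, by decide +kernel, by decide +kernel, by decide +kernel, by decide +kernel, by decide +kernel, by decide +kernel⟩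

def t3652 : allY (E.wth (lkp [])) l3652 = true ∧
    allY (E.wth (lkp [])) l3653 = true ∧
    allY (E.wth (lkp [])) l3654 = true ∧
    allY (E.wth (lkp [])) l3655 = true ∧
    allY (E.wth (lkp [])) l3656 = true ∧
    allY (E.wth (lkp [])) l3657 = true ∧
    allY (E.wth (lkp [])) l3658 = true ∧
    allY (E.wth (lkp [])) l3659 = true :=
  ⟨by decide +kernel, by decide +kernel, by decide +kernel, by decide +kernel, by decide +kernel, by decide +kernel, by decide +kernel, by decide +kernel⟩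

def t3660 : allY (E.wth (lkp [])) l3660 = true ∧
    allY (E.wth (lkp [])) l3661 = true ∧
    allY (E.wth (lkp [])) l3662 = true ∧
    allY (E.wth (lkp [])) l3663 = true ∧
    allY (E.wth (lkp [])) l3664 = true ∧
    allY (E.wth (lkp [])) l3665 = true ∧
    allY (E.wth (lkp [])) l3666 = true ∧
    allY (E.wth (lkp [])) l3667 = true :=
  ⟨by decide +kernel, by decide +kernel, by decide +kernel, by decide +kernel, by decide +kernel, by decide +kernel, by decide +kernel, by decide +kernel⟩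

def t3668 : allY (E.wth (lkp [])) l3668 = true ∧
    allY (E.wth (lkp [])) l3669 = true ∧
    allY (E.wth (lkp [])) l3670 = true ∧
    allY (E.wth (lkp [])) l3671 = true ∧
    allY (E.wth (lkp [])) l3672 = true ∧
    allY (E.wth (lkp [])) l3673 = true ∧
    allY (E.wth (lkp [])) l3674 = true ∧
    allY (E.wth (lkp [])) l3675 = true :=
  ⟨by decide +kernel, by decide +kernel, by decide +kernel, by decide +kernel, by decide +kernel, by decide +kernel, by decide +kernel, by decide +kernel⟩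

def t3676 : allY (E.wth (lkp [])) l3676 = true ∧
    allY (E.wth (lkp [])) l3677 = true ∧
    allY (E.wth (lkp [])) l3678 = true ∧
    allY (E.wth (lkp [])) l3679 = true ∧
    allY (E.wth (lkp [])) l3680 = true ∧
    allY (E.wth (lkp [])) l3681 = true ∧
    allY (E.wth (lkp [])) l3682 = true ∧
    allY (E.wth (lkp [])) l3683 = true :=
  ⟨by decide +kernel, by decide +kernel, by decide +kernel, by decide +kernel, by decide +kernel, by decide +kernel, by decide +kernel, by decide +kernel⟩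

def t3684 : allY (E.wth (lkp [])) l3684 = true ∧
    allY (E.wth (lkp [])) l3685 = true ∧
    allY (E.wth (lkp [])) l3686 = true ∧
    allY (E.wth (lkp [])) l3687 = true ∧
    allY (E.wth (lkp [])) l3688 = true ∧
    allY (E.wth (lkp [])) l3689 = true ∧
    allY (E.wth (lkp [])) l3690 = true ∧
    allY (E.wth (lkp [])) l3691 = true :=
  ⟨by decide +kernel, by decide +kernel, by decide +kernel, by decide +kernel, by decide +kernel, by decide +kernel, by decide +kernel, by decide +kernel⟩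

def t3692 : allY (E.wth (lkp [])) l3692 = true ∧
    allY (E.wth (lkp [])) l3693 = true ∧
    allY (E.wth (lkp [])) l3694 = true ∧
    allY (E.wth (lkp [])) l3695 = true ∧
    allY (E.wth (lkp [])) l3696 = true ∧
    allY (E.wth (lkp [])) l3697 = true ∧
    allY (E.wth (lkp [])) l3698 = true ∧
    allY (E.wth (lkp [])) l3699 = true :=
  ⟨by decide +kernel, by decide +kernel, by decide +kernel, by decide +kernel, by decide +kernel, by decide +kernel, by decide +kernel, by decide +kernel⟩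

def t3700 : allY (E.wth (lkp [])) l3700 = true ∧
    allY (E.wth (lkp [])) l3701 = true ∧
    allY (E.wth (lkp [])) l3702 = true ∧
    allY (E.wth (lkp [])) l3703 = true ∧
    allY (E.wth (lkp [])) l3704 = true ∧
    allY (E.wth (lkp [])) l3705 = true ∧
    allY (E.wth (lkp [])) l3706 = true ∧
    allY (E.wth (lkp [])) l3707 = true :=
  ⟨by decide +kernel, by decide +kernel, by decide +kernel, by decide +kernel, by decide +kernel, by decide +kernel, by decide +kernel, by decide +kernel⟩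

def t3708 : allY (E.wth (lkp [])) l3708 = true ∧
    allY (E.wth (lkp [])) l3709 = true ∧
    allY (E.wth (lkp [])) l3710 = true ∧
    allY (E.wth (lkp [])) l3711 = true ∧
    allY (E.wth (lkp [])) l3712 = true ∧
    allY (E.wth (lkp [])) l3713 = true ∧
    allY (E.wth (lkp [])) l3714 = true ∧
    allY (E.wth (lkp [])) l3715 = true :=
  ⟨by decide +kernel, by decide +kernel, by decide +kernel, by decide +kernel, by decide +kernel, by decide +kernel, by decide +kernel, by decide +kernel⟩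

def t3716 : allY (E.wth (lkp [])) l3716 = true ∧
    allY (E.wth (lkp [])) l3717 = true ∧
    allY (E.wth (lkp [])) l3718 = true ∧
    allY (E.wth (lkp [])) l3719 = true ∧
    allY (E.wth (lkp [])) l3720 = true ∧
    allY (E.wth (lkp [])) l3721 = true ∧
    allY (E.wth (lkp [])) l3722 = true ∧
    allY (E.wth (lkp [])) l3723 = true :=
  ⟨by decide +kernel, by decide +kernel, by decide +kernel, by decide +kernel, by decide +kernel, by decide +kernel, by decide +kernel, by decide +kernel⟩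

def t3724 : allY (E.wth (lkp [])) l3724 = true ∧
    allY (E.wth (lkp [])) l3725 = true ∧
    allY (E.wth (lkp [])) l3726 = true ∧
    allY (E.wth (lkp [])) l3727 = true ∧
    allY (E.wth (lkp [])) l3728 = true ∧
    allY (E.wth (lkp [])) l3729 = true ∧
    allY (E.wth (lkp [])) l3730 = true ∧
    allY (E.wth (lkp [])) l3731 = true :=
  ⟨by decide +kernel, by decide +kernel, by decide +kernel, by decide +kernel, by decide +kernel, by decide +kernel, by decide +kernel, by decide +kernel⟩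

def t3732 : allY (E.wth (lkp [])) l3732 = true ∧
    allY (E.wth (lkp [])) l3733 = true ∧
    allY (E.wth (lkp [])) l3734 = true ∧
    allY (E.wth (lkp [])) l3735 = true ∧
    allY (E.wth (lkp [])) l3736 = true ∧
    allY (E.wth (lkp [])) l3737 = true ∧
    allY (E.wth (lkp [])) l3738 = true ∧
    allY (E.wth (lkp [])) l3739 = true :=
  ⟨by decide +kernel, by decide +kernel, by decide +kernel, by decide +kernel, by decide +kernel, by decide +kernel, by decide +kernel, by decide +kernel⟩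

def t3740 : allY (E.wth (lkp [])) l3740 = true ∧
    allY (E.wth (lkp [])) l3741 = true ∧
    allY (E.wth (lkp [])) l3742 = true ∧
    allY (E.wth (lkp [])) l3743 = true ∧
    allY (E.wth (lkp [])) l3744 = true ∧
    allY (E.wth (lkp [])) l3745 = true ∧
    allY (E.wth (lkp [])) l3746 = true ∧
    allY (E.wth (lkp [])) l3747 = true :=
  ⟨by decide +kernel, by decide +kernel, by decide +kernel, by decide +kernel, by decide +kernel, by decide +kernel, by decide +kernel, by decide +kernel⟩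

def t3748 : allY (E.wth (lkp [])) l3748 = true ∧
    allY (E.wth (lkp [])) l3749 = true ∧
    allY (E.wth (lkp [])) l3750 = true ∧
    allY (E.wth (lkp [])) l3751 = true ∧
    allY (E.wth (lkp [])) l3752 = true ∧
    allY (E.wth (lkp [])) l3753 = true ∧
    allY (E.wth (lkp [])) l3754 = true ∧
    allY (E.wth (lkp [])) l3755 = true :=
  ⟨by decide +kernel, by decide +kernel, by decide +kernel, by decide +kernel, by decide +kernel, by decide +kernel, by decide +kernel, by decide +kernel⟩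

def t3756 : allY (E.wth (lkp [])) l3756 = true ∧
    allY (E.wth (lkp [])) l3757 = true ∧
    allY (E.wth (lkp [])) l3758 = true ∧
    allY (E.wth (lkp [])) l3759 = true ∧
    allY (E.wth (lkp [])) l3760 = true ∧
    allY (E.wth (lkp [])) l3761 = true ∧
    allY (E.wth (lkp [])) l3762 = true ∧
    allY (E.wth (lkp [])) l3763 = true :=
  ⟨by decide +kernel, by decide +kernel, by decide +kernel, by decide +kernel, by decide +kernel, by decide +kernel, by decide +kernel, by decide +kernel⟩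

def t3764 : allY (E.wth (lkp [])) l3764 = true ∧
    allY (E.wth (lkp [])) l3765 = true ∧
    allY (E.wth (lkp [])) l3766 = true ∧
    allY (E.wth (lkp [])) l3767 = true ∧
    allY (E.wth (lkp [])) l3768 = true ∧
    allY (E.wth (lkp [])) l3769 = true ∧
    allY (E.wth (lkp [])) l3770 = true ∧
    allY (E.wth (lkp [])) l3771 = true :=
  ⟨by decide +kernel, by decide +kernel, by decide +kernel, by decide +kernel, by decide +kernel, by decide +kernel, by decide +kernel, by decide +kernel⟩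

def t3772 : allY (E.wth (lkp [])) l3772 = true ∧
    allY (E.wth (lkp [])) l3773 = true ∧
    allY (E.wth (lkp [])) l3774 = true ∧
    allY (E.wth (lkp [])) l3775 = true ∧
    allY (E.wth (lkp [])) l3776 = true ∧
    allY (E.wth (lkp [])) l3777 = true ∧
    allY (E.wth (lkp [])) l3778 = true ∧
    allY (E.wth (lkp [])) l3779 = true :=
  ⟨by decide +kernel, by decide +kernel, by decide +kernel, by decide +kernel, by decide +kernel, by decide +kernel, by decide +kernel, by decide +kernel⟩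

def t3780 : allY (E.wth (lkp [])) l3780 = true ∧
    allY (E.wth (lkp [])) l3781 = true ∧
    allY (E.wth (lkp [])) l3782 = true ∧
    allY (E.wth (lkp [])) l3783 = true ∧
    allY (E.wth (lkp [])) l3784 = true ∧
    allY (E.wth (lkp [])) l3785 = true ∧
    allY (E.wth (lkp [])) l3786 = true ∧
    allY (E.wth (lkp [])) l3787 = true :=
  ⟨by decide +kernel, by decide +kernel, by decide +kernel, by decide +kernel, by decide +kernel, by decide +kernel, by decide +kernel, by decide +kernel⟩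

def t3788 : allY (E.wth (lkp [])) l3788 = true ∧
    allY (E.wth (lkp [])) l3789 = true ∧
    allY (E.wth (lkp [])) l3790 = true ∧
    allY (E.wth (lkp [])) l3791 = true ∧
    allY (E.wth (lkp [])) l3792 = true ∧
    allY (E.wth (lkp [])) l3793 = true ∧
    allY (E.wth (lkp [])) l3794 = true ∧
    allY (E.wth (lkp [])) l3795 = true :=
  ⟨by decide +kernel, by decide +kernel, by decide +kernel, by decide +kernel, by decide +kernel, by decide +kernel, by decide +kernel, by decide +kernel⟩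

def t3796 : allY (E.wth (lkp [])) l3796 = true ∧
    allY (E.wth (lkp [])) l3797 = true ∧
    allY (E.wth (lkp [])) l3798 = true ∧
    allY (E.wth (lkp [])) l3799 = true ∧
    allY (E.wth (lkp [])) l3800 = true ∧
    allY (E.wth (lkp [])) l3801 = true ∧
    allY (E.wth (lkp [])) l3802 = true ∧
    allY (E.wth (lkp [])) l3803 = true :=
  ⟨by decide +kernel, by decide +kernel, by decide +kernel, by decide +kernel, by decide +kernel, by decide +kernel, by decide +kernel, by decide +kernel⟩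

def t3804 : allY (E.wth (lkp [])) l3804 = true ∧
    allY (E.wth (lkp [])) l3805 = true ∧
    allY (E.wth (lkp [])) l3806 = true ∧
    allY (E.wth (lkp [])) l3807 = true ∧
    allY (E.wth (lkp [])) l3808 = true ∧
    allY (E.wth (lkp [])) l3809 = true ∧
    allY (E.wth (lkp [])) l3810 = true ∧
    allY (E.wth (lkp [])) l3811 = true :=
  ⟨by decide +kernel, by decide +kernel, by decide +kernel, by decide +kernel, by decide +kernel, by decide +kernel, by decide +kernel, by decide +kernel⟩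

def t3812 : allY (E.wth (lkp [])) l3812 = true ∧
    allY (E.wth (lkp [])) l3813 = true ∧
    allY (E.wth (lkp [])) l3814 = true ∧
    allY (E.wth (lkp [])) l3815 = true ∧
    allY (E.wth (lkp [])) l3816 = true ∧
    allY (E.wth (lkp [])) l3817 = true ∧
    allY (E.wth (lkp [])) l3818 = true ∧
    allY (E.wth (lkp [])) l3819 = true :=
  ⟨by decide +kernel, by decide +kernel, by decide +kernel, by decide +kernel, by decide +kernel, by decide +kernel, by decide +kernel, by decide +kernel⟩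

def t3820 : allY (E.wth (lkp [])) l3820 = true ∧
    allY (E.wth (lkp [])) l3821 = true ∧
    allY (E.wth (lkp [])) l3822 = true ∧
    allY (E.wth (lkp [])) l3823 = true ∧
    allY (E.wth (lkp [])) l3824 = true ∧
    allY (E.wth (lkp [])) l3825 = true ∧
    allY (E.wth (lkp [])) l3826 = true ∧
    allY (E.wth (lkp [])) l3827 = true :=
  ⟨by decide +kernel, by decide +kernel, by decide +kernel, by decide +kernel, by decide +kernel, by decide +kernel, by decide +kernel, by decide +kernel⟩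

def t3828 : allY (E.wth (lkp [])) l3828 = true ∧
    allY (E.wth (lkp [])) l3829 = true ∧
    allY (E.wth (lkp [])) l3830 = true ∧
    allY (E.wth (lkp [])) l3831 = true ∧
    allY (E.wth (lkp [])) l3832 = true ∧
    allY (E.wth (lkp [])) l3833 = true ∧
    allY (E.wth (lkp [])) l3834 = true ∧
    allY (E.wth (lkp [])) l3835 = true :=
  ⟨by decide +kernel, by decide +kernel, by decide +kernel, by decide +kernel, by decide +kernel, by decide +kernel, by decide +kernel, by decide +kernel⟩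

def t3836 : allY (E.wth (lkp [])) l3836 = true ∧
    allY (E.wth (lkp [])) l3837 = true ∧
    allY (E.wth (lkp [])) l3838 = true ∧
    allY (E.wth (lkp [])) l3839 = true ∧
    allY (E.wth (lkp [])) l3840 = true ∧
    allY (E.wth (lkp [])) l3841 = true ∧
    allY (E.wth (lkp [])) l3842 = true ∧
    allY (E.wth (lkp [])) l3843 = true :=
  ⟨by decide +kernel, by decide +kernel, by decide +kernel, by decide +kernel, by decide +kernel, by decide +kernel, by decide +kernel, by decide +kernel⟩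

def t3844 : allY (E.wth (lkp [])) l3844 = true ∧
    allY (E.wth (lkp [])) l3845 = true ∧
    allY (E.wth (lkp [])) l3846 = true ∧
    allY (E.wth (lkp [])) l3847 = true ∧
    allY (E.wth (lkp [])) l3848 = true ∧
    allY (E.wth (lkp [])) l3849 = true :=
  ⟨by decide +kernel, by decide +kernel, by decide +kernel, by decide +kernel, by decide +kernel, by decide +kernel⟩

theorem a6 {p : Rf → Prop} (H : ∀ l, allY (E.wth (lkp [])) l = true → (lkp l).All p) :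
    b6.All p := ⟨⟨⟨⟨⟨⟨⟨⟨⟨H _ t3292.1, H _ t3292.2.1⟩, ⟨H _ t3292.2.2.1, H _ t3292.2.2.2.1⟩⟩, ⟨⟨H _ t3292.2.2.2.2.1, H _ t3292.2.2.2.2.2.1⟩, ⟨H _ t3292.2.2.2.2.2.2.1, H _ t3292.2.2.2.2.2.2.2⟩⟩⟩, ⟨⟨⟨H _ t3300.1, H _ t3300.2.1⟩, ⟨H _ t3300.2.2.1, H _ t3300.2.2.2.1⟩⟩, ⟨⟨H _ t3300.2.2.2.2.1, H _ t3300.2.2.2.2.2.1⟩, ⟨H _ t3300.2.2.2.2.2.2.1, ⟨H _ t3300.2.2.2.2.2.2.2, H _ t3308.1⟩⟩⟩⟩⟩, ⟨⟨⟨⟨H _ t3308.2.1, H _ t3308.2.2.1⟩, ⟨H _ t3308.2.2.2.1, H _ t3308.2.2.2.2.1⟩⟩, ⟨⟨H _ t3308.2.2.2.2.2.1, H _ t3308.2.2.2.2.2.2.1⟩, ⟨H _ t3308.2.2.2.2.2.2.2, H _ t3316.1⟩⟩⟩, ⟨⟨⟨H _ t3316.2.1, H _ t3316.2.2.1⟩, ⟨H _ t3316.2.2.2.1, H _ t3316.2.2.2.2.1⟩⟩, ⟨⟨H _ t3316.2.2.2.2.2.1, H _ t3316.2.2.2.2.2.2.1⟩, ⟨H _ t3316.2.2.2.2.2.2.2, ⟨H _ t3324.1, H _ t3324.2.1⟩⟩⟩⟩⟩⟩, ⟨⟨⟨⟨⟨H _ t3324.2.2.1, H _ t3324.2.2.2.1⟩, ⟨H _ t3324.2.2.2.2.1, H _ t3324.2.2.2.2.2.1⟩⟩, ⟨⟨H _ t3324.2.2.2.2.2.2.1, H _ t3324.2.2.2.2.2.2.2⟩,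 ⟨H _ t3332.1, H _ t3332.2.1⟩⟩⟩, ⟨⟨⟨H _ t3332.2.2.1, H _ t3332.2.2.2.1⟩, ⟨H _ t3332.2.2.2.2.1, H _ t3332.2.2.2.2.2.1⟩⟩, ⟨⟨H _ t3332.2.2.2.2.2.2.1, H _ t3332.2.2.2.2.2.2.2⟩, ⟨H _ t3340.1, ⟨H _ t3340.2.1, H _ t3340.2.2.1⟩⟩⟩⟩⟩, ⟨⟨⟨⟨H _ t3340.2.2.2.1, H _ t3340.2.2.2.2.1⟩, ⟨H _ t3340.2.2.2.2.2.1, H _ t3340.2.2.2.2.2.2.1⟩⟩, ⟨⟨H _ t3340.2.2.2.2.2.2.2, H _ t3348.1⟩, ⟨H _ t3348.2.1, ⟨H _ t3348.2.2.1, H _ t3348.2.2.2.1⟩⟩⟩⟩, ⟨⟨⟨H _ t3348.2.2.2.2.1, H _ t3348.2.2.2.2.2.1⟩, ⟨H _ t3348.2.2.2.2.2.2.1, H _ t3348.2.2.2.2.2.2.2⟩⟩, ⟨⟨H _ t3356.1, H _ t3356.2.1⟩, ⟨H _ t3356.2.2.1, ⟨H _ t3356.2.2.2.1, H _ t3356.2.2.2.2.1⟩⟩⟩⟩⟩⟩⟩, ⟨⟨⟨⟨⟨⟨H _ t3356.2.2.2.2.2.1, H _ t3356.2.2.2.2.2.2.1⟩, ⟨H _ t3356.2.2.2.2.2.2.2, H _ t3364.1⟩⟩, ⟨⟨H _ t3364.2.1, H _ t3364.2.2.1⟩, ⟨H _ t3364.2.2.2.1, H _ t3364.2.2.2.2.1⟩⟩⟩, ⟨⟨⟨H _ t3364.2.2.2.2.2.1, H _ t3364.2.2.2.2.2.2.1⟩, ⟨H _ t3364.2.2.2.2.2.2.2, H _ t3372.1⟩⟩,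 ⟨⟨H _ t3372.2.1, H _ t3372.2.2.1⟩, ⟨H _ t3372.2.2.2.1, ⟨H _ t3372.2.2.2.2.1, H _ t3372.2.2.2.2.2.1⟩⟩⟩⟩⟩, ⟨⟨⟨⟨H _ t3372.2.2.2.2.2.2.1, H _ t3372.2.2.2.2.2.2.2⟩, ⟨H _ t3380.1, H _ t3380.2.1⟩⟩, ⟨⟨H _ t3380.2.2.1, H _ t3380.2.2.2.1⟩, ⟨H _ t3380.2.2.2.2.1, ⟨H _ t3380.2.2.2.2.2.1, H _ t3380.2.2.2.2.2.2.1⟩⟩⟩⟩, ⟨⟨⟨H _ t3380.2.2.2.2.2.2.2, H _ t3388.1⟩, ⟨H _ t3388.2.1, H _ t3388.2.2.1⟩⟩, ⟨⟨H _ t3388.2.2.2.1, H _ t3388.2.2.2.2.1⟩, ⟨H _ t3388.2.2.2.2.2.1, ⟨H _ t3388.2.2.2.2.2.2.1, H _ t3388.2.2.2.2.2.2.2⟩⟩⟩⟩⟩⟩, ⟨⟨⟨⟨⟨H _ t3396.1, H _ t3396.2.1⟩, ⟨H _ t3396.2.2.1, H _ t3396.2.2.2.1⟩⟩, ⟨⟨H _ t3396.2.2.2.2.1, H _ t3396.2.2.2.2.2.1⟩, ⟨H _ t3396.2.2.2.2.2.2.1, H _ t3396.2.2.2.2.2.2.2⟩⟩⟩, ⟨⟨⟨H _ t3404.1, H _ t3404.2.1⟩, ⟨H _ t3404.2.2.1, H _ t3404.2.2.2.1⟩⟩, ⟨⟨H _ t3404.2.2.2.2.1, H _ t3404.2.2.2.2.2.1⟩, ⟨H _ t3404.2.2.2.2.2.2.1, ⟨H _ t3404.2.2.2.2.2.2.2, H _ t3412.1⟩⟩⟩⟩⟩, ⟨⟨⟨⟨H _ t3412.2.1,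 H _ t3412.2.2.1⟩, ⟨H _ t3412.2.2.2.1, H _ t3412.2.2.2.2.1⟩⟩, ⟨⟨H _ t3412.2.2.2.2.2.1, H _ t3412.2.2.2.2.2.2.1⟩, ⟨H _ t3412.2.2.2.2.2.2.2, ⟨H _ t3420.1, H _ t3420.2.1⟩⟩⟩⟩, ⟨⟨⟨H _ t3420.2.2.1, H _ t3420.2.2.2.1⟩, ⟨H _ t3420.2.2.2.2.1, H _ t3420.2.2.2.2.2.1⟩⟩, ⟨⟨H _ t3420.2.2.2.2.2.2.1, H _ t3420.2.2.2.2.2.2.2⟩, ⟨H _ t3428.1, ⟨H _ t3428.2.1, H _ t3428.2.2.1⟩⟩⟩⟩⟩⟩⟩⟩, ⟨⟨⟨⟨⟨⟨⟨H _ t3428.2.2.2.1, H _ t3428.2.2.2.2.1⟩, ⟨H _ t3428.2.2.2.2.2.1, H _ t3428.2.2.2.2.2.2.1⟩⟩, ⟨⟨H _ t3428.2.2.2.2.2.2.2, H _ t3436.1⟩, ⟨H _ t3436.2.1, H _ t3436.2.2.1⟩⟩⟩, ⟨⟨⟨H _ t3436.2.2.2.1, H _ t3436.2.2.2.2.1⟩, ⟨H _ t3436.2.2.2.2.2.1, H _ t3436.2.2.2.2.2.2.1⟩⟩, ⟨⟨H _ t3436.2.2.2.2.2.2.2, H _ t3444.1⟩, ⟨H _ t3444.2.1, ⟨H _ t3444.2.2.1, H _ t3444.2.2.2.1⟩⟩⟩⟩⟩, ⟨⟨⟨⟨H _ t3444.2.2.2.2.1, H _ t3444.2.2.2.2.2.1⟩, ⟨H _ t3444.2.2.2.2.2.2.1, H _ t3444.2.2.2.2.2.2.2⟩⟩, ⟨⟨H _ t3452.1, H _ t3452.2.1⟩, ⟨H _ t3452.2.2.1,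 ⟨H _ t3452.2.2.2.1, H _ t3452.2.2.2.2.1⟩⟩⟩⟩, ⟨⟨⟨H _ t3452.2.2.2.2.2.1, H _ t3452.2.2.2.2.2.2.1⟩, ⟨H _ t3452.2.2.2.2.2.2.2, H _ t3460.1⟩⟩, ⟨⟨H _ t3460.2.1, H _ t3460.2.2.1⟩, ⟨H _ t3460.2.2.2.1, ⟨H _ t3460.2.2.2.2.1, H _ t3460.2.2.2.2.2.1⟩⟩⟩⟩⟩⟩, ⟨⟨⟨⟨⟨H _ t3460.2.2.2.2.2.2.1, H _ t3460.2.2.2.2.2.2.2⟩, ⟨H _ t3468.1, H _ t3468.2.1⟩⟩, ⟨⟨H _ t3468.2.2.1, H _ t3468.2.2.2.1⟩, ⟨H _ t3468.2.2.2.2.1, H _ t3468.2.2.2.2.2.1⟩⟩⟩, ⟨⟨⟨H _ t3468.2.2.2.2.2.2.1, H _ t3468.2.2.2.2.2.2.2⟩, ⟨H _ t3476.1, H _ t3476.2.1⟩⟩, ⟨⟨H _ t3476.2.2.1, H _ t3476.2.2.2.1⟩, ⟨H _ t3476.2.2.2.2.1, ⟨H _ t3476.2.2.2.2.2.1, H _ t3476.2.2.2.2.2.2.1⟩⟩⟩⟩⟩, ⟨⟨⟨⟨H _ t3476.2.2.2.2.2.2.2, H _ t3484.1⟩, ⟨H _ t3484.2.1, H _ t3484.2.2.1⟩⟩, ⟨⟨H _ t3484.2.2.2.1, H _ t3484.2.2.2.2.1⟩, ⟨H _ t3484.2.2.2.2.2.1, ⟨H _ t3484.2.2.2.2.2.2.1, H _ t3484.2.2.2.2.2.2.2⟩⟩⟩⟩, ⟨⟨⟨H _ t3492.1, H _ t3492.2.1⟩, ⟨H _ t3492.2.2.1, H _ t3492.2.2.2.1⟩⟩,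 ⟨⟨H _ t3492.2.2.2.2.1, H _ t3492.2.2.2.2.2.1⟩, ⟨H _ t3492.2.2.2.2.2.2.1, ⟨H _ t3492.2.2.2.2.2.2.2, H _ t3500.1⟩⟩⟩⟩⟩⟩⟩, ⟨⟨⟨⟨⟨⟨H _ t3500.2.1, H _ t3500.2.2.1⟩, ⟨H _ t3500.2.2.2.1, H _ t3500.2.2.2.2.1⟩⟩, ⟨⟨H _ t3500.2.2.2.2.2.1, H _ t3500.2.2.2.2.2.2.1⟩, ⟨H _ t3500.2.2.2.2.2.2.2, H _ t3508.1⟩⟩⟩, ⟨⟨⟨H _ t3508.2.1, H _ t3508.2.2.1⟩, ⟨H _ t3508.2.2.2.1, H _ t3508.2.2.2.2.1⟩⟩, ⟨⟨H _ t3508.2.2.2.2.2.1, H _ t3508.2.2.2.2.2.2.1⟩, ⟨H _ t3508.2.2.2.2.2.2.2, ⟨H _ t3516.1, H _ t3516.2.1⟩⟩⟩⟩⟩, ⟨⟨⟨⟨H _ t3516.2.2.1, H _ t3516.2.2.2.1⟩, ⟨H _ t3516.2.2.2.2.1, H _ t3516.2.2.2.2.2.1⟩⟩, ⟨⟨H _ t3516.2.2.2.2.2.2.1, H _ t3516.2.2.2.2.2.2.2⟩, ⟨H _ t3524.1, ⟨H _ t3524.2.1, H _ t3524.2.2.1⟩⟩⟩⟩, ⟨⟨⟨H _ t3524.2.2.2.1, H _ t3524.2.2.2.2.1⟩, ⟨H _ t3524.2.2.2.2.2.1, H _ t3524.2.2.2.2.2.2.1⟩⟩, ⟨⟨H _ t3524.2.2.2.2.2.2.2, H _ t3532.1⟩, ⟨H _ t3532.2.1, ⟨H _ t3532.2.2.1, H _ t3532.2.2.2.1⟩⟩⟩⟩⟩⟩, ⟨⟨⟨⟨⟨H _ t3532.2.2.2.2.1,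 H _ t3532.2.2.2.2.2.1⟩, ⟨H _ t3532.2.2.2.2.2.2.1, H _ t3532.2.2.2.2.2.2.2⟩⟩, ⟨⟨H _ t3540.1, H _ t3540.2.1⟩, ⟨H _ t3540.2.2.1, H _ t3540.2.2.2.1⟩⟩⟩, ⟨⟨⟨H _ t3540.2.2.2.2.1, H _ t3540.2.2.2.2.2.1⟩, ⟨H _ t3540.2.2.2.2.2.2.1, H _ t3540.2.2.2.2.2.2.2⟩⟩, ⟨⟨H _ t3548.1, H _ t3548.2.1⟩, ⟨H _ t3548.2.2.1, ⟨H _ t3548.2.2.2.1, H _ t3548.2.2.2.2.1⟩⟩⟩⟩⟩, ⟨⟨⟨⟨H _ t3548.2.2.2.2.2.1, H _ t3548.2.2.2.2.2.2.1⟩, ⟨H _ t3548.2.2.2.2.2.2.2, H _ t3556.1⟩⟩, ⟨⟨H _ t3556.2.1, H _ t3556.2.2.1⟩, ⟨H _ t3556.2.2.2.1, ⟨H _ t3556.2.2.2.2.1, H _ t3556.2.2.2.2.2.1⟩⟩⟩⟩, ⟨⟨⟨H _ t3556.2.2.2.2.2.2.1, H _ t3556.2.2.2.2.2.2.2⟩, ⟨H _ t3564.1, H _ t3564.2.1⟩⟩, ⟨⟨H _ t3564.2.2.1, H _ t3564.2.2.2.1⟩, ⟨H _ t3564.2.2.2.2.1, ⟨H _ t3564.2.2.2.2.2.1, H _ t3564.2.2.2.2.2.2.1⟩⟩⟩⟩⟩⟩⟩⟩⟩, ⟨⟨⟨⟨⟨⟨⟨⟨H _ t3564.2.2.2.2.2.2.2, H _ t3572.1⟩, ⟨H _ t3572.2.1, H _ t3572.2.2.1⟩⟩, ⟨⟨H _ t3572.2.2.2.1, H _ t3572.2.2.2.2.1⟩, ⟨H _ t3572.2.2.2.2.2.1,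 H _ t3572.2.2.2.2.2.2.1⟩⟩⟩, ⟨⟨⟨H _ t3572.2.2.2.2.2.2.2, H _ t3580.1⟩, ⟨H _ t3580.2.1, H _ t3580.2.2.1⟩⟩, ⟨⟨H _ t3580.2.2.2.1, H _ t3580.2.2.2.2.1⟩, ⟨H _ t3580.2.2.2.2.2.1, ⟨H _ t3580.2.2.2.2.2.2.1, H _ t3580.2.2.2.2.2.2.2⟩⟩⟩⟩⟩, ⟨⟨⟨⟨H _ t3588.1, H _ t3588.2.1⟩, ⟨H _ t3588.2.2.1, H _ t3588.2.2.2.1⟩⟩, ⟨⟨H _ t3588.2.2.2.2.1, H _ t3588.2.2.2.2.2.1⟩, ⟨H _ t3588.2.2.2.2.2.2.1, H _ t3588.2.2.2.2.2.2.2⟩⟩⟩, ⟨⟨⟨H _ t3596.1, H _ t3596.2.1⟩, ⟨H _ t3596.2.2.1, H _ t3596.2.2.2.1⟩⟩, ⟨⟨H _ t3596.2.2.2.2.1, H _ t3596.2.2.2.2.2.1⟩, ⟨H _ t3596.2.2.2.2.2.2.1, ⟨H _ t3596.2.2.2.2.2.2.2, H _ t3604.1⟩⟩⟩⟩⟩⟩, ⟨⟨⟨⟨⟨H _ t3604.2.1, H _ t3604.2.2.1⟩, ⟨H _ t3604.2.2.2.1, H _ t3604.2.2.2.2.1⟩⟩, ⟨⟨H _ t3604.2.2.2.2.2.1, H _ t3604.2.2.2.2.2.2.1⟩, ⟨H _ t3604.2.2.2.2.2.2.2, H _ t3612.1⟩⟩⟩, ⟨⟨⟨H _ t3612.2.1, H _ t3612.2.2.1⟩, ⟨H _ t3612.2.2.2.1, H _ t3612.2.2.2.2.1⟩⟩, ⟨⟨H _ t3612.2.2.2.2.2.1, H _ t3612.2.2.2.2.2.2.1⟩,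 ⟨H _ t3612.2.2.2.2.2.2.2, ⟨H _ t3620.1, H _ t3620.2.1⟩⟩⟩⟩⟩, ⟨⟨⟨⟨H _ t3620.2.2.1, H _ t3620.2.2.2.1⟩, ⟨H _ t3620.2.2.2.2.1, H _ t3620.2.2.2.2.2.1⟩⟩, ⟨⟨H _ t3620.2.2.2.2.2.2.1, H _ t3620.2.2.2.2.2.2.2⟩, ⟨H _ t3628.1, ⟨H _ t3628.2.1, H _ t3628.2.2.1⟩⟩⟩⟩, ⟨⟨⟨H _ t3628.2.2.2.1, H _ t3628.2.2.2.2.1⟩, ⟨H _ t3628.2.2.2.2.2.1, H _ t3628.2.2.2.2.2.2.1⟩⟩, ⟨⟨H _ t3628.2.2.2.2.2.2.2, H _ t3636.1⟩, ⟨H _ t3636.2.1, ⟨H _ t3636.2.2.1, H _ t3636.2.2.2.1⟩⟩⟩⟩⟩⟩⟩, ⟨⟨⟨⟨⟨⟨H _ t3636.2.2.2.2.1, H _ t3636.2.2.2.2.2.1⟩, ⟨H _ t3636.2.2.2.2.2.2.1, H _ t3636.2.2.2.2.2.2.2⟩⟩, ⟨⟨H _ t3644.1, H _ t3644.2.1⟩, ⟨H _ t3644.2.2.1, H _ t3644.2.2.2.1⟩⟩⟩, ⟨⟨⟨H _ t3644.2.2.2.2.1, H _ t3644.2.2.2.2.2.1⟩, ⟨H _ t3644.2.2.2.2.2.2.1, H _ t3644.2.2.2.2.2.2.2⟩⟩, ⟨⟨H _ t3652.1, H _ t3652.2.1⟩, ⟨H _ t3652.2.2.1, ⟨H _ t3652.2.2.2.1, H _ t3652.2.2.2.2.1⟩⟩⟩⟩⟩, ⟨⟨⟨⟨H _ t3652.2.2.2.2.2.1, H _ t3652.2.2.2.2.2.2.1⟩, ⟨H _ t3652.2.2.2.2.2.2.2,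 H _ t3660.1⟩⟩, ⟨⟨H _ t3660.2.1, H _ t3660.2.2.1⟩, ⟨H _ t3660.2.2.2.1, ⟨H _ t3660.2.2.2.2.1, H _ t3660.2.2.2.2.2.1⟩⟩⟩⟩, ⟨⟨⟨H _ t3660.2.2.2.2.2.2.1, H _ t3660.2.2.2.2.2.2.2⟩, ⟨H _ t3668.1, H _ t3668.2.1⟩⟩, ⟨⟨H _ t3668.2.2.1, H _ t3668.2.2.2.1⟩, ⟨H _ t3668.2.2.2.2.1, ⟨H _ t3668.2.2.2.2.2.1, H _ t3668.2.2.2.2.2.2.1⟩⟩⟩⟩⟩⟩, ⟨⟨⟨⟨⟨H _ t3668.2.2.2.2.2.2.2, H _ t3676.1⟩, ⟨H _ t3676.2.1, H _ t3676.2.2.1⟩⟩, ⟨⟨H _ t3676.2.2.2.1, H _ t3676.2.2.2.2.1⟩, ⟨H _ t3676.2.2.2.2.2.1, H _ t3676.2.2.2.2.2.2.1⟩⟩⟩, ⟨⟨⟨H _ t3676.2.2.2.2.2.2.2, H _ t3684.1⟩, ⟨H _ t3684.2.1, H _ t3684.2.2.1⟩⟩, ⟨⟨H _ t3684.2.2.2.1, H _ t3684.2.2.2.2.1⟩, ⟨H _ t3684.2.2.2.2.2.1, ⟨H _ t3684.2.2.2.2.2.2.1, H _ t3684.2.2.2.2.2.2.2⟩⟩⟩⟩⟩, ⟨⟨⟨⟨H _ t3692.1, H _ t3692.2.1⟩, ⟨H _ t3692.2.2.1, H _ t3692.2.2.2.1⟩⟩, ⟨⟨H _ t3692.2.2.2.2.1, H _ t3692.2.2.2.2.2.1⟩, ⟨H _ t3692.2.2.2.2.2.2.1, ⟨H _ t3692.2.2.2.2.2.2.2, H _ t3700.1⟩⟩⟩⟩, ⟨⟨⟨H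 _ t3700.2.1, H _ t3700.2.2.1⟩, ⟨H _ t3700.2.2.2.1, H _ t3700.2.2.2.2.1⟩⟩, ⟨⟨H _ t3700.2.2.2.2.2.1, H _ t3700.2.2.2.2.2.2.1⟩, ⟨H _ t3700.2.2.2.2.2.2.2, ⟨H _ t3708.1, H _ t3708.2.1⟩⟩⟩⟩⟩⟩⟩⟩, ⟨⟨⟨⟨⟨⟨⟨H _ t3708.2.2.1, H _ t3708.2.2.2.1⟩, ⟨H _ t3708.2.2.2.2.1, H _ t3708.2.2.2.2.2.1⟩⟩, ⟨⟨H _ t3708.2.2.2.2.2.2.1, H _ t3708.2.2.2.2.2.2.2⟩, ⟨H _ t3716.1, H _ t3716.2.1⟩⟩⟩, ⟨⟨⟨H _ t3716.2.2.1, H _ t3716.2.2.2.1⟩, ⟨H _ t3716.2.2.2.2.1, H _ t3716.2.2.2.2.2.1⟩⟩, ⟨⟨H _ t3716.2.2.2.2.2.2.1, H _ t3716.2.2.2.2.2.2.2⟩, ⟨H _ t3724.1, ⟨H _ t3724.2.1, H _ t3724.2.2.1⟩⟩⟩⟩⟩, ⟨⟨⟨⟨H _ t3724.2.2.2.1, H _ t3724.2.2.2.2.1⟩, ⟨H _ t3724.2.2.2.2.2.1, H _ t3724.2.2.2.2.2.2.1⟩⟩, ⟨⟨H _ t3724.2.2.2.2.2.2.2, H _ t3732.1⟩, ⟨H _ t3732.2.1, ⟨H _ t3732.2.2.1, H _ t3732.2.2.2.1⟩⟩⟩⟩, ⟨⟨⟨H _ t3732.2.2.2.2.1, H _ t3732.2.2.2.2.2.1⟩, ⟨H _ t3732.2.2.2.2.2.2.1, H _ t3732.2.2.2.2.2.2.2⟩⟩, ⟨⟨H _ t3740.1, H _ t3740.2.1⟩, ⟨H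 _ t3740.2.2.1, ⟨H _ t3740.2.2.2.1, H _ t3740.2.2.2.2.1⟩⟩⟩⟩⟩⟩, ⟨⟨⟨⟨⟨H _ t3740.2.2.2.2.2.1, H _ t3740.2.2.2.2.2.2.1⟩, ⟨H _ t3740.2.2.2.2.2.2.2, H _ t3748.1⟩⟩, ⟨⟨H _ t3748.2.1, H _ t3748.2.2.1⟩, ⟨H _ t3748.2.2.2.1, H _ t3748.2.2.2.2.1⟩⟩⟩, ⟨⟨⟨H _ t3748.2.2.2.2.2.1, H _ t3748.2.2.2.2.2.2.1⟩, ⟨H _ t3748.2.2.2.2.2.2.2, H _ t3756.1⟩⟩, ⟨⟨H _ t3756.2.1, H _ t3756.2.2.1⟩, ⟨H _ t3756.2.2.2.1, ⟨H _ t3756.2.2.2.2.1, H _ t3756.2.2.2.2.2.1⟩⟩⟩⟩⟩, ⟨⟨⟨⟨H _ t3756.2.2.2.2.2.2.1, H _ t3756.2.2.2.2.2.2.2⟩, ⟨H _ t3764.1, H _ t3764.2.1⟩⟩, ⟨⟨H _ t3764.2.2.1, H _ t3764.2.2.2.1⟩, ⟨H _ t3764.2.2.2.2.1, ⟨H _ t3764.2.2.2.2.2.1, H _ t3764.2.2.2.2.2.2.1⟩⟩⟩⟩, ⟨⟨⟨H _ t3764.2.2.2.2.2.2.2, H _ t3772.1⟩, ⟨H _ t3772.2.1, H _ t3772.2.2.1⟩⟩, ⟨⟨H _ t3772.2.2.2.1, H _ t3772.2.2.2.2.1⟩, ⟨H _ t3772.2.2.2.2.2.1, ⟨H _ t3772.2.2.2.2.2.2.1, H _ t3772.2.2.2.2.2.2.2⟩⟩⟩⟩⟩⟩⟩, ⟨⟨⟨⟨⟨⟨H _ t3780.1, H _ t3780.2.1⟩, ⟨H _ t3780.2.2.1,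 H _ t3780.2.2.2.1⟩⟩, ⟨⟨H _ t3780.2.2.2.2.1, H _ t3780.2.2.2.2.2.1⟩, ⟨H _ t3780.2.2.2.2.2.2.1, H _ t3780.2.2.2.2.2.2.2⟩⟩⟩, ⟨⟨⟨H _ t3788.1, H _ t3788.2.1⟩, ⟨H _ t3788.2.2.1, H _ t3788.2.2.2.1⟩⟩, ⟨⟨H _ t3788.2.2.2.2.1, H _ t3788.2.2.2.2.2.1⟩, ⟨H _ t3788.2.2.2.2.2.2.1, ⟨H _ t3788.2.2.2.2.2.2.2, H _ t3796.1⟩⟩⟩⟩⟩, ⟨⟨⟨⟨H _ t3796.2.1, H _ t3796.2.2.1⟩, ⟨H _ t3796.2.2.2.1, H _ t3796.2.2.2.2.1⟩⟩, ⟨⟨H _ t3796.2.2.2.2.2.1, H _ t3796.2.2.2.2.2.2.1⟩, ⟨H _ t3796.2.2.2.2.2.2.2, ⟨H _ t3804.1, H _ t3804.2.1⟩⟩⟩⟩, ⟨⟨⟨H _ t3804.2.2.1, H _ t3804.2.2.2.1⟩, ⟨H _ t3804.2.2.2.2.1, H _ t3804.2.2.2.2.2.1⟩⟩, ⟨⟨H _ t3804.2.2.2.2.2.2.1, H _ t3804.2.2.2.2.2.2.2⟩, ⟨H _ t3812.1, ⟨H _ t3812.2.1, H _ t3812.2.2.1⟩⟩⟩⟩⟩⟩, ⟨⟨⟨⟨⟨H _ t3812.2.2.2.1, H _ t3812.2.2.2.2.1⟩, ⟨H _ t3812.2.2.2.2.2.1, H _ t3812.2.2.2.2.2.2.1⟩⟩, ⟨⟨H _ t3812.2.2.2.2.2.2.2, H _ t3820.1⟩, ⟨H _ t3820.2.1, H _ t3820.2.2.1⟩⟩⟩, ⟨⟨⟨H _ t3820.2.2.2.1,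 H _ t3820.2.2.2.2.1⟩, ⟨H _ t3820.2.2.2.2.2.1, H _ t3820.2.2.2.2.2.2.1⟩⟩, ⟨⟨H _ t3820.2.2.2.2.2.2.2, H _ t3828.1⟩, ⟨H _ t3828.2.1, ⟨H _ t3828.2.2.1, H _ t3828.2.2.2.1⟩⟩⟩⟩⟩, ⟨⟨⟨⟨H _ t3828.2.2.2.2.1, H _ t3828.2.2.2.2.2.1⟩, ⟨H _ t3828.2.2.2.2.2.2.1, H _ t3828.2.2.2.2.2.2.2⟩⟩, ⟨⟨H _ t3836.1, H _ t3836.2.1⟩, ⟨H _ t3836.2.2.1, ⟨H _ t3836.2.2.2.1, H _ t3836.2.2.2.2.1⟩⟩⟩⟩, ⟨⟨⟨H _ t3836.2.2.2.2.2.1, H _ t3836.2.2.2.2.2.2.1⟩, ⟨H _ t3836.2.2.2.2.2.2.2, H _ t3844.1⟩⟩, ⟨⟨H _ t3844.2.1, H _ t3844.2.2.1⟩, ⟨H _ t3844.2.2.2.1, ⟨H _ t3844.2.2.2.2.1, H _ t3844.2.2.2.2.2⟩⟩⟩⟩⟩⟩⟩⟩⟩⟩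

end Pool.Agent.MP_c853c5_nt.X.C4950
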