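import Pool.Agent.MP_c853c5_nt.X.C4950.Env
import Pool.Agent.MP_c853c5_nt.X.C4950.Tab

set_option autoImplicit false
set_option maxRecDepth 8192
set_option linter.all false

namespace Pool.Agent.MP_c853c5_nt.X.C4950

open Pool.Agent.MP_c853c5_nt.X

def t33203 : allY (E.wth T1) l33203 = true ∧
    allY (E.wth T1) l33204 = true ∧
    allY (E.wth T1) l33205 = true ∧
    allY (E.wth T1) l33206 = true ∧
    allY (E.wth T1) l33207 = true ∧
    allY (E.wth T1) l33208 = true ∧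
    allY (E.wth T1) l33209 = true ∧
    allY (E.wth T1) l33210 = true :=
  ⟨by decide +kernel, by decide +kernel, by decide +kernel, by decide +kernel, by decide +kernel, by decide +kernel, by decide +kernel, by decide +kernel⟩

def t33211 : allY (E.wth T1) l33211 = true ∧
    allY (E.wth T1) l33212 = true ∧
    allY (E.wth T1) l33213 = true ∧
    allY (E.wth T1) l33214 = true ∧
    allY (E.wth T1) l33215 = true ∧
    allY (E.wth T1) l33216 = true ∧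
    allY (E.wth T1) l33217 = true ∧
    allY (E.wth T1) l33218 = true :=
  ⟨by decide +kernel, by decide +kernel, by decide +kernel, by decide +kernel, by decide +kernel, by decide +kernel, by decide +kernel, by decide +kernel⟩

def t33219 : allY (E.wth T1) l33219 = true ∧
    allY (E.wth T1) l33220 = true ∧
    allY (E.wth T1) l33221 = true ∧
    allY (E.wth T1) l33222 = true ∧
    allY (E.wth T1) l33223 = true ∧
    allY (E.wth T1) l33224 = true ∧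
    allY (E.wth T1) l33225 = true ∧
    allY (E.wth T1) l33226 = true :=
  ⟨by decide +kernel, by decide +kernel, by decide +kernel, by decide +kernel, by decide +kernel, by decide +kernel, by decide +kernel, by decide +kernel⟩

def t33227 : allY (E.wth T1) l33227 = true ∧
    allY (E.wth T1) l33228 = true ∧
    allY (E.wth T1) l33229 = true ∧
    allY (E.wth T1) l33230 = true ∧
    allY (E.wth T1) l33231 = true ∧
    allY (E.wth T1) l33232 = true ∧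
    allY (E.wth T1) l33233 = true ∧
    allY (E.wth T1) l33234 = true :=
  ⟨by decide +kernel, by decide +kernel, by decide +kernel, by decide +kernel, by decide +kernel, by decide +kernel, by decide +kernel, by decide +kernel⟩

def t33235 : allY (E.wth T1) l33235 = true ∧
    allY (E.wth T1) l33236 = true ∧
    allY (E.wth T1) l33237 = true ∧
    allY (E.wth T1) l33238 = true ∧
    allY (E.wth T1) l33239 = true ∧
    allY (E.wth T1) l33240 = true ∧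
    allY (E.wth T1) l33241 = true ∧
    allY (E.wth T1) l33242 = true :=
  ⟨by decide +kernel, by decide +kernel, by decide +kernel, by decide +kernel, by decide +kernel, by decide +kernel, by decide +kernel, by decide +kernel⟩

def t33243 : allY (E.wth T1) l33243 = true ∧
    allY (E.wth T1) l33244 = true ∧
    allY (E.wth T1) l33245 = true ∧
    allY (E.wth T1) l33246 = true ∧
    allY (E.wth T1) l33247 = true ∧
    allY (E.wth T1) l33248 = true ∧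
    allY (E.wth T1) l33249 = true ∧
    allY (E.wth T1) l33250 = true :=
  ⟨by decide +kernel, by decide +kernel, by decide +kernel, by decide +kernel, by decide +kernel, by decide +kernel, by decide +kernel, by decide +kernel⟩

def t33251 : allY (E.wth T1) l33251 = true ∧
    allY (E.wth T1) l33252 = true ∧
    allY (E.wth T1) l33253 = true ∧
    allY (E.wth T1) l33254 = true ∧
    allY (E.wth T1) l33255 = true ∧
    allY (E.wth T1) l33256 = true ∧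
    allY (E.wth T1) l33257 = true ∧
    allY (E.wth T1) l33258 = true :=
  ⟨by decide +kernel, by decide +kernel, by decide +kernel, by decide +kernel, by decide +kernel, by decide +kernel, by decide +kernel, by decide +kernel⟩

def t33259 : allY (E.wth T1) l33259 = true ∧
    allY (E.wth T1) l33260 = true ∧
    allY (E.wth T1) l33261 = true ∧
    allY (E.wth T1) l33262 = true ∧
    allY (E.wth T1) l33263 = true ∧
    allY (E.wth T1) l33264 = true ∧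
    allY (E.wth T1) l33265 = true ∧
    allY (E.wth T1) l33266 = true :=
  ⟨by decide +kernel, by decide +kernel, by decide +kernel, by decide +kernel, by decide +kernel, by decide +kernel, by decide +kernel, by decide +kernel⟩

def t33267 : allY (E.wth T1) l33267 = true ∧
    allY (E.wth T1) l33268 = true ∧
    allY (E.wth T1) l33269 = true ∧
    allY (E.wth T1) l33270 = true ∧
    allY (E.wth T1) l33271 = true ∧
    allY (E.wth T1) l33272 = true ∧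
    allY (E.wth T1) l33273 = true ∧
    allY (E.wth T1) l33274 = true :=
  ⟨by decide +kernel, by decide +kernel, by decide +kernel, by decide +kernel, by decide +kernel, by decide +kernel, by decide +kernel, by decide +kernel⟩

def t33275 : allY (E.wth T1) l33275 = true ∧
    allY (E.wth T1) l33276 = true ∧
    allY (E.wth T1) l33277 = true ∧
    allY (E.wth T1) l33278 = true ∧
    allY (E.wth T1) l33279 = true ∧
    allY (E.wth T1) l33280 = true ∧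
    allY (E.wth T1) l33281 = true ∧
    allY (E.wth T1) l33282 = true :=
  ⟨by decide +kernel, by decide +kernel, by decide +kernel, by decide +kernel, by decide +kernel, by decide +kernel, by decide +kernel, by decide +kernel⟩

def t33283 : allY (E.wth T1) l33283 = true ∧
    allY (E.wth T1) l33284 = true ∧
    allY (E.wth T1) l33285 = true ∧
    allY (E.wth T1) l33286 = true ∧
    allY (E.wth T1) l33287 = true ∧
    allY (E.wth T1) l33288 = true ∧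
    allY (E.wth T1) l33289 = true ∧
    allY (E.wth T1) l33290 = true :=
  ⟨by decide +kernel, by decide +kernel, by decide +kernel, by decide +kernel, by decide +kernel, by decide +kernel, by decide +kernel, by decide +kernel⟩

def t33291 : allY (E.wth T1) l33291 = true ∧
    allY (E.wth T1) l33292 = true ∧
    allY (E.wth T1) l33293 = true ∧
    allY (E.wth T1) l33294 = true ∧
    allY (E.wth T1) l33295 = true ∧
    allY (E.wth T1) l33296 = true ∧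
    allY (E.wth T1) l33297 = true ∧
    allY (E.wth T1) l33298 = true :=
  ⟨by decide +kernel, by decide +kernel, by decide +kernel, by decide +kernel, by decide +kernel, by decide +kernel, by decide +kernel, by decide +kernel⟩

def t33299 : allY (E.wth T1) l33299 = true ∧
    allY (E.wth T1) l33300 = true ∧
    allY (E.wth T1) l33301 = true ∧
    allY (E.wth T1) l33302 = true ∧
    allY (E.wth T1) l33303 = true ∧
    allY (E.wth T1) l33304 = true ∧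
    allY (E.wth T1) l33305 = true ∧
    allY (E.wth T1) l33306 = true :=
  ⟨by decide +kernel, by decide +kernel, by decide +kernel, by decide +kernel, by decide +kernel, by decide +kernel, by decide +kernel, by decide +kernel⟩

def t33307 : allY (E.wth T1) l33307 = true ∧
    allY (E.wth T1) l33308 = true ∧
    allY (E.wth T1) l33309 = true ∧
    allY (E.wth T1) l33310 = true ∧
    allY (E.wth T1) l33311 = true ∧
    allY (E.wth T1) l33312 = true ∧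
    allY (E.wth T1) l33313 = true ∧
    allY (E.wth T1) l33314 = true :=
  ⟨by decide +kernel, by decide +kernel, by decide +kernel, by decide +kernel, by decide +kernel, by decide +kernel, by decide +kernel, by decide +kernel⟩

def t33315 : allY (E.wth T1) l33315 = true ∧
    allY (E.wth T1) l33316 = true ∧
    allY (E.wth T1) l33317 = true ∧
    allY (E.wth T1) l33318 = true ∧
    allY (E.wth T1) l33319 = true ∧
    allY (E.wth T1) l33320 = true ∧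
    allY (E.wth T1) l33321 = true ∧
    allY (E.wth T1) l33322 = true :=
  ⟨by decide +kernel, by decide +kernel, by decide +kernel, by decide +kernel, by decide +kernel, by decide +kernel, by decide +kernel, by decide +kernel⟩

def t33323 : allY (E.wth T1) l33323 = true ∧
    allY (E.wth T1) l33324 = true ∧
    allY (E.wth T1) l33325 = true ∧
    allY (E.wth T1) l33326 = true ∧
    allY (E.wth T1) l33327 = true ∧
    allY (E.wth T1) l33328 = true ∧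
    allY (E.wth T1) l33329 = true ∧
    allY (E.wth T1) l33330 = true :=
  ⟨by decide +kernel, by decide +kernel, by decide +kernel, by decide +kernel, by decide +kernel, by decide +kernel, by decide +kernel, by decide +kernel⟩

def t33331 : allY (E.wth T1) l33331 = true ∧
    allY (E.wth T1) l33332 = true ∧
    allY (E.wth T1) l33333 = true ∧
    allY (E.wth T1) l33334 = true ∧
    allY (E.wth T1) l33335 = true ∧
    allY (E.wth T1) l33336 = true ∧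
    allY (E.wth T1) l33337 = true ∧
    allY (E.wth T1) l33338 = true :=
  ⟨by decide +kernel, by decide +kernel, by decide +kernel, by decide +kernel, by decide +kernel, by decide +kernel, by decide +kernel, by decide +kernel⟩

def t33339 : allY (E.wth T1) l33339 = true ∧
    allY (E.wth T1) l33340 = true ∧
    allY (E.wth T1) l33341 = true ∧
    allY (E.wth T1) l33342 = true ∧
    allY (E.wth T1) l33343 = true ∧
    allY (E.wth T1) l33344 = true ∧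
    allY (E.wth T1) l33345 = true ∧
    allY (E.wth T1) l33346 = true :=
  ⟨by decide +kernel, by decide +kernel, by decide +kernel, by decide +kernel, by decide +kernel, by decide +kernel, by decide +kernel, by decide +kernel⟩

def t33347 : allY (E.wth T1) l33347 = true ∧
    allY (E.wth T1) l33348 = true ∧
    allY (E.wth T1) l33349 = true ∧
    allY (E.wth T1) l33350 = true ∧
    allY (E.wth T1) l33351 = true ∧
    allY (E.wth T1) l33352 = true ∧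
    allY (E.wth T1) l33353 = true ∧
    allY (E.wth T1) l33354 = true :=
  ⟨by decide +kernel, by decide +kernel, by decide +kernel, by decide +kernel, by decide +kernel, by decide +kernel, by decide +kernel, by decide +kernel⟩

def t33355 : allY (E.wth T1) l33355 = true ∧
    allY (E.wth T1) l33356 = true ∧
    allY (E.wth T1) l33357 = true ∧
    allY (E.wth T1) l33358 = true ∧
    allY (E.wth T1) l33359 = true ∧
    allY (E.wth T1) l33360 = true ∧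
    allY (E.wth T1) l33361 = true ∧
    allY (E.wth T1) l33362 = true :=
  ⟨by decide +kernel, by decide +kernel, by decide +kernel, by decide +kernel, by decide +kernel, by decide +kernel, by decide +kernel, by decide +kernel⟩

def t33363 : allY (E.wth T1) l33363 = true ∧
    allY (E.wth T1) l33364 = true ∧
    allY (E.wth T1) l33365 = true ∧
    allY (E.wth T1) l33366 = true ∧
    allY (E.wth T1) l33367 = true ∧
    allY (E.wth T1) l33368 = true ∧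
    allY (E.wth T1) l33369 = true ∧
    allY (E.wth T1) l33370 = true :=
  ⟨by decide +kernel, by decide +kernel, by decide +kernel, by decide +kernel, by decide +kernel, by decide +kernel, by decide +kernel, by decide +kernel⟩

def t33371 : allY (E.wth T1) l33371 = true ∧
    allY (E.wth T1) l33372 = true ∧
    allY (E.wth T1) l33373 = true ∧
    allY (E.wth T1) l33374 = true ∧
    allY (E.wth T1) l33375 = true ∧
    allY (E.wth T1) l33376 = true ∧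
    allY (E.wth T1) l33377 = true ∧
    allY (E.wth T1) l33378 = true :=
  ⟨by decide +kernel, by decide +kernel, by decide +kernel, by decide +kernel, by decide +kernel, by decide +kernel, by decide +kernel, by decide +kernel⟩

def t33379 : allY (E.wth T1) l33379 = true ∧
    allY (E.wth T1) l33380 = true ∧
    allY (E.wth T1) l33381 = true ∧
    allY (E.wth T1) l33382 = true ∧
    allY (E.wth T1) l33383 = true ∧
    allY (E.wth T1) l33384 = true ∧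
    allY (E.wth T1) l33385 = true ∧
    allY (E.wth T1) l33386 = true :=
  ⟨by decide +kernel, by decide +kernel, by decide +kernel, by decide +kernel, by decide +kernel, by decide +kernel, by decide +kernel, by decide +kernel⟩

def t33387 : allY (E.wth T1) l33387 = true ∧
    allY (E.wth T1) l33388 = true ∧
    allY (E.wth T1) l33389 = true ∧
    allY (E.wth T1) l33390 = true ∧
    allY (E.wth T1) l33391 = true ∧
    allY (E.wth T1) l33392 = true ∧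
    allY (E.wth T1) l33393 = true ∧
    allY (E.wth T1) l33394 = true :=
  ⟨by decide +kernel, by decide +kernel, by decide +kernel, by decide +kernel, by decide +kernel, by decide +kernel, by decide +kernel, by decide +kernel⟩

def t33395 : allY (E.wth T1) l33395 = true ∧
    allY (E.wth T1) l33396 = true ∧
    allY (E.wth T1) l33397 = true ∧
    allY (E.wth T1) l33398 = true ∧
    allY (E.wth T1) l33399 = true ∧
    allY (E.wth T1) l33400 = true ∧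
    allY (E.wth T1) l33401 = true ∧
    allY (E.wth T1) l33402 = true :=
  ⟨by decide +kernel, by decide +kernel, by decide +kernel, by decide +kernel, by decide +kernel, by decide +kernel, by decide +kernel, by decide +kernel⟩

def t33403 : allY (E.wth T1) l33403 = true ∧
    allY (E.wth T1) l33404 = true ∧
    allY (E.wth T1) l33405 = true ∧
    allY (E.wth T1) l33406 = true ∧
    allY (E.wth T1) l33407 = true ∧
    allY (E.wth T1) l33408 = true ∧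
    allY (E.wth T1) l33409 = true ∧
    allY (E.wth T1) l33410 = true :=
  ⟨by decide +kernel, by decide +kernel, by decide +kernel, by decide +kernel, by decide +kernel, by decide +kernel, by decide +kernel, by decide +kernel⟩

def t33411 : allY (E.wth T1) l33411 = true ∧
    allY (E.wth T1) l33412 = true ∧
    allY (E.wth T1) l33413 = true ∧
    allY (E.wth T1) l33414 = true ∧
    allY (E.wth T1) l33415 = true ∧
    allY (E.wth T1) l33416 = true ∧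
    allY (E.wth T1) l33417 = true ∧
    allY (E.wth T1) l33418 = true :=
  ⟨by decide +kernel, by decide +kernel, by decide +kernel, by decide +kernel, by decide +kernel, by decide +kernel, by decide +kernel, by decide +kernel⟩

def t33419 : allY (E.wth T1) l33419 = true ∧
    allY (E.wth T1) l33420 = true ∧
    allY (E.wth T1) l33421 = true ∧
    allY (E.wth T1) l33422 = true ∧
    allY (E.wth T1) l33423 = true ∧
    allY (E.wth T1) l33424 = true ∧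
    allY (E.wth T1) l33425 = true ∧
    allY (E.wth T1) l33426 = true :=
  ⟨by decide +kernel, by decide +kernel, by decide +kernel, by decide +kernel, by decide +kernel, by decide +kernel, by decide +kernel, by decide +kernel⟩

def t33427 : allY (E.wth T1) l33427 = true ∧
    allY (E.wth T1) l33428 = true ∧
    allY (E.wth T1) l33429 = true ∧
    allY (E.wth T1) l33430 = true ∧
    allY (E.wth T1) l33431 = true ∧
    allY (E.wth T1) l33432 = true ∧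
    allY (E.wth T1) l33433 = true ∧
    allY (E.wth T1) l33434 = true :=
  ⟨by decide +kernel, by decide +kernel, by decide +kernel, by decide +kernel, by decide +kernel, by decide +kernel, by decide +kernel, by decide +kernel⟩

def t33435 : allY (E.wth T1) l33435 = true ∧
    allY (E.wth T1) l33436 = true ∧
    allY (E.wth T1) l33437 = true ∧
    allY (E.wth T1) l33438 = true ∧
    allY (E.wth T1) l33439 = true ∧
    allY (E.wth T1) l33440 = true ∧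
    allY (E.wth T1) l33441 = true ∧
    allY (E.wth T1) l33442 = true :=
  ⟨by decide +kernel, by decide +kernel, by decide +kernel, by decide +kernel, by decide +kernel, by decide +kernel, by decide +kernel, by decide +kernel⟩

def t33443 : allY (E.wth T1) l33443 = true ∧
    allY (E.wth T1) l33444 = true ∧
    allY (E.wth T1) l33445 = true ∧
    allY (E.wth T1) l33446 = true ∧
    allY (E.wth T1) l33447 = true ∧
    allY (E.wth T1) l33448 = true ∧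
    allY (E.wth T1) l33449 = true ∧
    allY (E.wth T1) l33450 = true :=
  ⟨by decide +kernel, by decide +kernel, by decide +kernel, by decide +kernel, by decide +kernel, by decide +kernel, by decide +kernel, by decide +kernel⟩

def t33451 : allY (E.wth T1) l33451 = true ∧
    allY (E.wth T1) l33452 = true ∧
    allY (E.wth T1) l33453 = true ∧
    allY (E.wth T1) l33454 = true ∧
    allY (E.wth T1) l33455 = true ∧
    allY (E.wth T1) l33456 = true ∧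
    allY (E.wth T1) l33457 = true ∧
    allY (E.wth T1) l33458 = true :=
  ⟨by decide +kernel, by decide +kernel, by decide +kernel, by decide +kernel, by decide +kernel, by decide +kernel, by decide +kernel, by decide +kernel⟩

def t33459 : allY (E.wth T1) l33459 = true ∧
    allY (E.wth T1) l33460 = true ∧
    allY (E.wth T1) l33461 = true ∧
    allY (E.wth T1) l33462 = true ∧
    allY (E.wth T1) l33463 = true ∧
    allY (E.wth T1) l33464 = true ∧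
    allY (E.wth T1) l33465 = true ∧
    allY (E.wth T1) l33466 = true :=
  ⟨by decide +kernel, by decide +kernel, by decide +kernel, by decide +kernel, by decide +kernel, by decide +kernel, by decide +kernel, by decide +kernel⟩

def t33467 : allY (E.wth T1) l33467 = true ∧
    allY (E.wth T1) l33468 = true ∧
    allY (E.wth T1) l33469 = true ∧
    allY (E.wth T1) l33470 = true ∧
    allY (E.wth T1) l33471 = true ∧
    allY (E.wth T1) l33472 = true ∧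
    allY (E.wth T1) l33473 = true ∧
    allY (E.wth T1) l33474 = true :=
  ⟨by decide +kernel, by decide +kernel, by decide +kernel, by decide +kernel, by decide +kernel, by decide +kernel, by decide +kernel, by decide +kernel⟩

def t33475 : allY (E.wth T1) l33475 = true ∧
    allY (E.wth T1) l33476 = true ∧
    allY (E.wth T1) l33477 = true ∧
    allY (E.wth T1) l33478 = true ∧
    allY (E.wth T1) l33479 = true ∧
    allY (E.wth T1) l33480 = true ∧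
    allY (E.wth T1) l33481 = true ∧
    allY (E.wth T1) l33482 = true :=
  ⟨by decide +kernel, by decide +kernel, by decide +kernel, by decide +kernel, by decide +kernel, by decide +kernel, by decide +kernel, by decide +kernel⟩

def t33483 : allY (E.wth T1) l33483 = true ∧
    allY (E.wth T1) l33484 = true ∧
    allY (E.wth T1) l33485 = true ∧
    allY (E.wth T1) l33486 = true ∧
    allY (E.wth T1) l33487 = true ∧
    allY (E.wth T1) l33488 = true ∧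
    allY (E.wth T1) l33489 = true ∧
    allY (E.wth T1) l33490 = true :=
  ⟨by decide +kernel, by decide +kernel, by decide +kernel, by decide +kernel, by decide +kernel, by decide +kernel, by decide +kernel, by decide +kernel⟩

def t33491 : allY (E.wth T1) l33491 = true ∧
    allY (E.wth T1) l33492 = true ∧
    allY (E.wth T1) l33493 = true ∧
    allY (E.wth T1) l33494 = true ∧
    allY (E.wth T1) l33495 = true ∧
    allY (E.wth T1) l33496 = true ∧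
    allY (E.wth T1) l33497 = true ∧
    allY (E.wth T1) l33498 = true :=
  ⟨by decide +kernel, by decide +kernel, by decide +kernel, by decide +kernel, by decide +kernel, by decide +kernel, by decide +kernel, by decide +kernel⟩

def t33499 : allY (E.wth T1) l33499 = true ∧
    allY (E.wth T1) l33500 = true ∧
    allY (E.wth T1) l33501 = true ∧
    allY (E.wth T1) l33502 = true ∧
    allY (E.wth T1) l33503 = true ∧
    allY (E.wth T1) l33504 = true ∧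
    allY (E.wth T1) l33505 = true ∧
    allY (E.wth T1) l33506 = true :=
  ⟨by decide +kernel, by decide +kernel, by decide +kernel, by decide +kernel, by decide +kernel, by decide +kernel, by decide +kernel, by decide +kernel⟩

def t33507 : allY (E.wth T1) l33507 = true ∧
    allY (E.wth T1) l33508 = true ∧
    allY (E.wth T1) l33509 = true ∧
    allY (E.wth T1) l33510 = true ∧
    allY (E.wth T1) l33511 = true ∧
    allY (E.wth T1) l33512 = true ∧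
    allY (E.wth T1) l33513 = true ∧
    allY (E.wth T1) l33514 = true :=
  ⟨by decide +kernel, by decide +kernel, by decide +kernel, by decide +kernel, by decide +kernel, by decide +kernel, by decide +kernel, by decide +kernel⟩

def t33515 : allY (E.wth T1) l33515 = true ∧
    allY (E.wth T1) l33516 = true ∧
    allY (E.wth T1) l33517 = true ∧
    allY (E.wth T1) l33518 = true ∧
    allY (E.wth T1) l33519 = true ∧
    allY (E.wth T1) l33520 = true ∧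
    allY (E.wth T1) l33521 = true ∧
    allY (E.wth T1) l33522 = true :=
  ⟨by decide +kernel, by decide +kernel, by decide +kernel, by decide +kernel, by decide +kernel, by decide +kernel, by decide +kernel, by decide +kernel⟩

def t33523 : allY (E.wth T1) l33523 = true ∧
    allY (E.wth T1) l33524 = true ∧
    allY (E.wth T1) l33525 = true ∧
    allY (E.wth T1) l33526 = true ∧
    allY (E.wth T1) l33527 = true ∧
    allY (E.wth T1) l33528 = true ∧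
    allY (E.wth T1) l33529 = true ∧
    allY (E.wth T1) l33530 = true :=
  ⟨by decide +kernel, by decide +kernel, by decide +kernel, by decide +kernel, by decide +kernel, by decide +kernel, by decide +kernel, by decide +kernel⟩

def t33531 : allY (E.wth T1) l33531 = true ∧
    allY (E.wth T1) l33532 = true ∧
    allY (E.wth T1) l33533 = true ∧
    allY (E.wth T1) l33534 = true ∧
    allY (E.wth T1) l33535 = true ∧
    allY (E.wth T1) l33536 = true ∧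
    allY (E.wth T1) l33537 = true ∧
    allY (E.wth T1) l33538 = true :=
  ⟨by decide +kernel, by decide +kernel, by decide +kernel, by decide +kernel, by decide +kernel, by decide +kernel, by decide +kernel, by decide +kernel⟩

def t33539 : allY (E.wth T1) l33539 = true ∧
    allY (E.wth T1) l33540 = true ∧
    allY (E.wth T1) l33541 = true ∧
    allY (E.wth T1) l33542 = true ∧
    allY (E.wth T1) l33543 = true ∧
    allY (E.wth T1) l33544 = true ∧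
    allY (E.wth T1) l33545 = true ∧
    allY (E.wth T1) l33546 = true :=
  ⟨by decide +kernel, by decide +kernel, by decide +kernel, by decide +kernel, by decide +kernel, by decide +kernel, by decide +kernel, by decide +kernel⟩

def t33547 : allY (E.wth T1) l33547 = true ∧
    allY (E.wth T1) l33548 = true ∧
    allY (E.wth T1) l33549 = true ∧
    allY (E.wth T1) l33550 = true ∧
    allY (E.wth T1) l33551 = true ∧
    allY (E.wth T1) l33552 = true ∧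
    allY (E.wth T1) l33553 = true ∧
    allY (E.wth T1) l33554 = true :=
  ⟨by decide +kernel, by decide +kernel, by decide +kernel, by decide +kernel, by decide +kernel, by decide +kernel, by decide +kernel, by decide +kernel⟩

def t33555 : allY (E.wth T1) l33555 = true ∧
    allY (E.wth T1) l33556 = true ∧
    allY (E.wth T1) l33557 = true ∧
    allY (E.wth T1) l33558 = true ∧
    allY (E.wth T1) l33559 = true ∧
    allY (E.wth T1) l33560 = true ∧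
    allY (E.wth T1) l33561 = true ∧
    allY (E.wth T1) l33562 = true :=
  ⟨by decide +kernel, by decide +kernel, by decide +kernel, by decide +kernel, by decide +kernel, by decide +kernel, by decide +kernel, by decide +kernel⟩

def t33563 : allY (E.wth T1) l33563 = true ∧
    allY (E.wth T1) l33564 = true ∧
    allY (E.wth T1) l33565 = true ∧
    allY (E.wth T1) l33566 = true ∧
    allY (E.wth T1) l33567 = true ∧
    allY (E.wth T1) l33568 = true ∧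
    allY (E.wth T1) l33569 = true ∧
    allY (E.wth T1) l33570 = true :=
  ⟨by decide +kernel, by decide +kernel, by decide +kernel, by decide +kernel, by decide +kernel, by decide +kernel, by decide +kernel, by decide +kernel⟩

def t33571 : allY (E.wth T1) l33571 = true ∧
    allY (E.wth T1) l33572 = true ∧
    allY (E.wth T1) l33573 = true ∧
    allY (E.wth T1) l33574 = true ∧
    allY (E.wth T1) l33575 = true ∧
    allY (E.wth T1) l33576 = true ∧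
    allY (E.wth T1) l33577 = true ∧
    allY (E.wth T1) l33578 = true :=
  ⟨by decide +kernel, by decide +kernel, by decide +kernel, by decide +kernel, by decide +kernel, by decide +kernel, by decide +kernel, by decide +kernel⟩

def t33579 : allY (E.wth T1) l33579 = true ∧
    allY (E.wth T1) l33580 = true ∧
    allY (E.wth T1) l33581 = true ∧
    allY (E.wth T1) l33582 = true ∧
    allY (E.wth T1) l33583 = true ∧
    allY (E.wth T1) l33584 = true ∧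
    allY (E.wth T1) l33585 = true ∧
    allY (E.wth T1) l33586 = true :=
  ⟨by decide +kernel, by decide +kernel, by decide +kernel, by decide +kernel, by decide +kernel, by decide +kernel, by decide +kernel, by decide +kernel⟩

def t33587 : allY (E.wth T1) l33587 = true ∧
    allY (E.wth T1) l33588 = true ∧
    allY (E.wth T1) l33589 = true ∧
    allY (E.wth T1) l33590 = true ∧
    allY (E.wth T1) l33591 = true ∧
    allY (E.wth T1) l33592 = true ∧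
    allY (E.wth T1) l33593 = true ∧
    allY (E.wth T1) l33594 = true :=
  ⟨by decide +kernel, by decide +kernel, by decide +kernel, by decide +kernel, by decide +kernel, by decide +kernel, by decide +kernel, by decide +kernel⟩

def t33595 : allY (E.wth T1) l33595 = true ∧
    allY (E.wth T1) l33596 = true ∧
    allY (E.wth T1) l33597 = true ∧
    allY (E.wth T1) l33598 = true ∧
    allY (E.wth T1) l33599 = true ∧
    allY (E.wth T1) l33600 = true ∧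
    allY (E.wth T1) l33601 = true ∧
    allY (E.wth T1) l33602 = true :=
  ⟨by decide +kernel, by decide +kernel, by decide +kernel, by decide +kernel, by decide +kernel, by decide +kernel, by decide +kernel, by decide +kernel⟩

def t33603 : allY (E.wth T1) l33603 = true ∧
    allY (E.wth T1) l33604 = true ∧
    allY (E.wth T1) l33605 = true ∧
    allY (E.wth T1) l33606 = true ∧
    allY (E.wth T1) l33607 = true ∧
    allY (E.wth T1) l33608 = true ∧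
    allY (E.wth T1) l33609 = true ∧
    allY (E.wth T1) l33610 = true :=
  ⟨by decide +kernel, by decide +kernel, by decide +kernel, by decide +kernel, by decide +kernel, by decide +kernel, by decide +kernel, by decide +kernel⟩

def t33611 : allY (E.wth T1) l33611 = true ∧
    allY (E.wth T1) l33612 = true ∧
    allY (E.wth T1) l33613 = true ∧
    allY (E.wth T1) l33614 = true ∧
    allY (E.wth T1) l33615 = true ∧
    allY (E.wth T1) l33616 = true ∧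
    allY (E.wth T1) l33617 = true ∧
    allY (E.wth T1) l33618 = true :=
  ⟨by decide +kernel, by decide +kernel, by decide +kernel, by decide +kernel, by decide +kernel, by decide +kernel, by decide +kernel, by decide +kernel⟩

def t33619 : allY (E.wth T1) l33619 = true ∧
    allY (E.wth T1) l33620 = true ∧
    allY (E.wth T1) l33621 = true ∧
    allY (E.wth T1) l33622 = true ∧
    allY (E.wth T1) l33623 = true ∧
    allY (E.wth T1) l33624 = true ∧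
    allY (E.wth T1) l33625 = true ∧
    allY (E.wth T1) l33626 = true :=
  ⟨by decide +kernel, by decide +kernel, by decide +kernel, by decide +kernel, by decide +kernel, by decide +kernel, by decide +kernel, by decide +kernel⟩

def t33627 : allY (E.wth T1) l33627 = true ∧
    allY (E.wth T1) l33628 = true ∧
    allY (E.wth T1) l33629 = true ∧
    allY (E.wth T1) l33630 = true ∧
    allY (E.wth T1) l33631 = true ∧
    allY (E.wth T1) l33632 = true ∧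
    allY (E.wth T1) l33633 = true ∧
    allY (E.wth T1) l33634 = true :=
  ⟨by decide +kernel, by decide +kernel, by decide +kernel, by decide +kernel, by decide +kernel, by decide +kernel, by decide +kernel, by decide +kernel⟩

def t33635 : allY (E.wth T1) l33635 = true ∧
    allY (E.wth T1) l33636 = true ∧
    allY (E.wth T1) l33637 = true ∧
    allY (E.wth T1) l33638 = true ∧
    allY (E.wth T1) l33639 = true ∧
    allY (E.wth T1) l33640 = true ∧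
    allY (E.wth T1) l33641 = true ∧
    allY (E.wth T1) l33642 = true :=
  ⟨by decide +kernel, by decide +kernel, by decide +kernel, by decide +kernel, by decide +kernel, by decide +kernel, by decide +kernel, by decide +kernel⟩

def t33643 : allY (E.wth T1) l33643 = true ∧
    allY (E.wth T1) l33644 = true ∧
    allY (E.wth T1) l33645 = true ∧
    allY (E.wth T1) l33646 = true ∧
    allY (E.wth T1) l33647 = true ∧
    allY (E.wth T1) l33648 = true ∧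
    allY (E.wth T1) l33649 = true ∧
    allY (E.wth T1) l33650 = true :=
  ⟨by decide +kernel, by decide +kernel, by decide +kernel, by decide +kernel, by decide +kernel, by decide +kernel, by decide +kernel, by decide +kernel⟩

def t33651 : allY (E.wth T1) l33651 = true ∧
    allY (E.wth T1) l33652 = true ∧
    allY (E.wth T1) l33653 = true ∧
    allY (E.wth T1) l33654 = true ∧
    allY (E.wth T1) l33655 = true ∧
    allY (E.wth T1) l33656 = true ∧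
    allY (E.wth T1) l33657 = true ∧
    allY (E.wth T1) l33658 = true :=
  ⟨by decide +kernel, by decide +kernel, by decide +kernel, by decide +kernel, by decide +kernel, by decide +kernel, by decide +kernel, by decide +kernel⟩

def t33659 : allY (E.wth T1) l33659 = true ∧
    allY (E.wth T1) l33660 = true ∧
    allY (E.wth T1) l33661 = true ∧
    allY (E.wth T1) l33662 = true ∧
    allY (E.wth T1) l33663 = true ∧
    allY (E.wth T1) l33664 = true ∧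
    allY (E.wth T1) l33665 = true ∧
    allY (E.wth T1) l33666 = true :=
  ⟨by decide +kernel, by decide +kernel, by decide +kernel, by decide +kernel, by decide +kernel, by decide +kernel, by decide +kernel, by decide +kernel⟩

def t33667 : allY (E.wth T1) l33667 = true ∧
    allY (E.wth T1) l33668 = true ∧
    allY (E.wth T1) l33669 = true ∧
    allY (E.wth T1) l33670 = true ∧
    allY (E.wth T1) l33671 = true ∧
    allY (E.wth T1) l33672 = true ∧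
    allY (E.wth T1) l33673 = true ∧
    allY (E.wth T1) l33674 = true :=
  ⟨by decide +kernel, by decide +kernel, by decide +kernel, by decide +kernel, by decide +kernel, by decide +kernel, by decide +kernel, by decide +kernel⟩

def t33675 : allY (E.wth T1) l33675 = true ∧
    allY (E.wth T1) l33676 = true ∧
    allY (E.wth T1) l33677 = true ∧
    allY (E.wth T1) l33678 = true ∧
    allY (E.wth T1) l33679 = true ∧
    allY (E.wth T1) l33680 = true ∧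
    allY (E.wth T1) l33681 = true ∧
    allY (E.wth T1) l33682 = true :=
  ⟨by decide +kernel, by decide +kernel, by decide +kernel, by decide +kernel, by decide +kernel, by decide +kernel, by decide +kernel, by decide +kernel⟩

def t33683 : allY (E.wth T1) l33683 = true ∧
    allY (E.wth T1) l33684 = true ∧
    allY (E.wth T1) l33685 = true ∧
    allY (E.wth T1) l33686 = true ∧
    allY (E.wth T1) l33687 = true ∧
    allY (E.wth T1) l33688 = true ∧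
    allY (E.wth T1) l33689 = true ∧
    allY (E.wth T1) l33690 = true :=
  ⟨by decide +kernel, by decide +kernel, by decide +kernel, by decide +kernel, by decide +kernel, by decide +kernel, by decide +kernel, by decide +kernel⟩

def t33691 : allY (E.wth T1) l33691 = true ∧
    allY (E.wth T1) l33692 = true ∧
    allY (E.wth T1) l33693 = true ∧
    allY (E.wth T1) l33694 = true ∧
    allY (E.wth T1) l33695 = true ∧
    allY (E.wth T1) l33696 = true ∧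
    allY (E.wth T1) l33697 = true ∧
    allY (E.wth T1) l33698 = true :=
  ⟨by decide +kernel, by decide +kernel, by decide +kernel, by decide +kernel, by decide +kernel, by decide +kernel, by decide +kernel, by decide +kernel⟩

def t33699 : allY (E.wth T1) l33699 = true ∧
    allY (E.wth T1) l33700 = true ∧
    allY (E.wth T1) l33701 = true ∧
    allY (E.wth T1) l33702 = true ∧
    allY (E.wth T1) l33703 = true ∧
    allY (E.wth T1) l33704 = true ∧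
    allY (E.wth T1) l33705 = true ∧
    allY (E.wth T1) l33706 = true :=
  ⟨by decide +kernel, by decide +kernel, by decide +kernel, by decide +kernel, by decide +kernel, by decide +kernel, by decide +kernel, by decide +kernel⟩

def t33707 : allY (E.wth T1) l33707 = true ∧
    allY (E.wth T1) l33708 = true ∧
    allY (E.wth T1) l33709 = true ∧
    allY (E.wth T1) l33710 = true ∧
    allY (E.wth T1) l33711 = true ∧
    allY (E.wth T1) l33712 = true ∧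
    allY (E.wth T1) l33713 = true ∧
    allY (E.wth T1) l33714 = true :=
  ⟨by decide +kernel, by decide +kernel, by decide +kernel, by decide +kernel, by decide +kernel, by decide +kernel, by decide +kernel, by decide +kernel⟩

def t33715 : allY (E.wth T1) l33715 = true ∧
    allY (E.wth T1) l33716 = true ∧
    allY (E.wth T1) l33717 = true ∧
    allY (E.wth T1) l33718 = true ∧
    allY (E.wth T1) l33719 = true ∧
    allY (E.wth T1) l33720 = true ∧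
    allY (E.wth T1) l33721 = true ∧
    allY (E.wth T1) l33722 = true :=
  ⟨by decide +kernel, by decide +kernel, by decide +kernel, by decide +kernel, by decide +kernel, by decide +kernel, by decide +kernel, by decide +kernel⟩

def t33723 : allY (E.wth T1) l33723 = true ∧
    allY (E.wth T1) l33724 = true ∧
    allY (E.wth T1) l33725 = true ∧
    allY (E.wth T1) l33726 = true ∧
    allY (E.wth T1) l33727 = true ∧
    allY (E.wth T1) l33728 = true ∧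
    allY (E.wth T1) l33729 = true ∧
    allY (E.wth T1) l33730 = true :=
  ⟨by decide +kernel, by decide +kernel, by decide +kernel, by decide +kernel, by decide +kernel, by decide +kernel, by decide +kernel, by decide +kernel⟩

def t33731 : allY (E.wth T1) l33731 = true ∧
    allY (E.wth T1) l33732 = true ∧
    allY (E.wth T1) l33733 = true ∧
    allY (E.wth T1) l33734 = true ∧
    allY (E.wth T1) l33735 = true ∧
    allY (E.wth T1) l33736 = true ∧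
    allY (E.wth T1) l33737 = true ∧
    allY (E.wth T1) l33738 = true :=
  ⟨by decide +kernel, by decide +kernel, by decide +kernel, by decide +kernel, by decide +kernel, by decide +kernel, by decide +kernel, by decide +kernel⟩

def t33739 : allY (E.wth T1) l33739 = true ∧
    allY (E.wth T1) l33740 = true ∧
    allY (E.wth T1) l33741 = true ∧
    allY (E.wth T1) l33742 = true ∧
    allY (E.wth T1) l33743 = true ∧
    allY (E.wth T1) l33744 = true ∧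
    allY (E.wth T1) l33745 = true ∧
    allY (E.wth T1) l33746 = true :=
  ⟨by decide +kernel, by decide +kernel, by decide +kernel, by decide +kernel, by decide +kernel, by decide +kernel, by decide +kernel, by decide +kernel⟩

def t33747 : allY (E.wth T1) l33747 = true ∧
    allY (E.wth T1) l33748 = true ∧
    allY (E.wth T1) l33749 = true ∧
    allY (E.wth T1) l33750 = true :=
  ⟨by decide +kernel, by decide +kernel, by decide +kernel, by decide +kernel⟩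

theorem a60 {p : Rf → Prop} (H : ∀ l, allY (E.wth T1) l = true → (lkp l).All p) :
    b60.All p := ⟨⟨⟨⟨⟨⟨⟨⟨⟨H _ t33203.1, H _ t33203.2.1⟩, ⟨H _ t33203.2.2.1, H _ t33203.2.2.2.1⟩⟩, ⟨⟨H _ t33203.2.2.2.2.1, H _ t33203.2.2.2.2.2.1⟩, ⟨H _ t33203.2.2.2.2.2.2.1, H _ t33203.2.2.2.2.2.2.2⟩⟩⟩, ⟨⟨⟨H _ t33211.1, H _ t33211.2.1⟩, ⟨H _ t33211.2.2.1, H _ t33211.2.2.2.1⟩⟩, ⟨⟨H _ t33211.2.2.2.2.1, H _ t33211.2.2.2.2.2.1⟩, ⟨H _ t33211.2.2.2.2.2.2.1, ⟨H _ t33211.2.2.2.2.2.2.2, H _ t33219.1⟩⟩⟩⟩⟩, ⟨⟨⟨⟨H _ t33219.2.1, H _ t33219.2.2.1⟩, ⟨H _ t33219.2.2.2.1, H _ t33219.2.2.2.2.1⟩⟩, ⟨⟨H _ t33219.2.2.2.2.2.1, H _ t33219.2.2.2.2.2.2.1⟩, ⟨H _ t33219.2.2.2.2.2.2.2, H _ t33227.1⟩⟩⟩, ⟨⟨⟨H _ t33227.2.1, H _ t33227.2.2.1⟩, ⟨H _ t33227.2.2.2.1, H _ t33227.2.2.2.2.1⟩⟩, ⟨⟨H _ t33227.2.2.2.2.2.1, H _ t33227.2.2.2.2.2.2.1⟩, ⟨H _ t33227.2.2.2.2.2.2.2, ⟨H _ t33235.1, H _ t33235.2.1⟩⟩⟩⟩⟩⟩, ⟨⟨⟨⟨⟨H _ t33235.2.2.1, H _ t33235.2.2.2.1⟩,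 ⟨H _ t33235.2.2.2.2.1, H _ t33235.2.2.2.2.2.1⟩⟩, ⟨⟨H _ t33235.2.2.2.2.2.2.1, H _ t33235.2.2.2.2.2.2.2⟩, ⟨H _ t33243.1, H _ t33243.2.1⟩⟩⟩, ⟨⟨⟨H _ t33243.2.2.1, H _ t33243.2.2.2.1⟩, ⟨H _ t33243.2.2.2.2.1, H _ t33243.2.2.2.2.2.1⟩⟩, ⟨⟨H _ t33243.2.2.2.2.2.2.1, H _ t33243.2.2.2.2.2.2.2⟩, ⟨H _ t33251.1, ⟨H _ t33251.2.1, H _ t33251.2.2.1⟩⟩⟩⟩⟩, ⟨⟨⟨⟨H _ t33251.2.2.2.1, H _ t33251.2.2.2.2.1⟩, ⟨H _ t33251.2.2.2.2.2.1, H _ t33251.2.2.2.2.2.2.1⟩⟩, ⟨⟨H _ t33251.2.2.2.2.2.2.2, H _ t33259.1⟩, ⟨H _ t33259.2.1, H _ t33259.2.2.1⟩⟩⟩, ⟨⟨⟨H _ t33259.2.2.2.1, H _ t33259.2.2.2.2.1⟩, ⟨H _ t33259.2.2.2.2.2.1, H _ t33259.2.2.2.2.2.2.1⟩⟩, ⟨⟨H _ t33259.2.2.2.2.2.2.2, H _ t33267.1⟩, ⟨H _ t33267.2.1, ⟨H _ t33267.2.2.1, H _ t33267.2.2.2.1⟩⟩⟩⟩⟩⟩⟩, ⟨⟨⟨⟨⟨⟨H _ t33267.2.2.2.2.1, H _ t33267.2.2.2.2.2.1⟩, ⟨H _ t33267.2.2.2.2.2.2.1, H _ t33267.2.2.2.2.2.2.2⟩⟩, ⟨⟨H _ t33275.1, H _ t33275.2.1⟩, ⟨H _ t33275.2.2.1, H _ t33275.2.2.2.1⟩⟩⟩,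 ⟨⟨⟨H _ t33275.2.2.2.2.1, H _ t33275.2.2.2.2.2.1⟩, ⟨H _ t33275.2.2.2.2.2.2.1, H _ t33275.2.2.2.2.2.2.2⟩⟩, ⟨⟨H _ t33283.1, H _ t33283.2.1⟩, ⟨H _ t33283.2.2.1, ⟨H _ t33283.2.2.2.1, H _ t33283.2.2.2.2.1⟩⟩⟩⟩⟩, ⟨⟨⟨⟨H _ t33283.2.2.2.2.2.1, H _ t33283.2.2.2.2.2.2.1⟩, ⟨H _ t33283.2.2.2.2.2.2.2, H _ t33291.1⟩⟩, ⟨⟨H _ t33291.2.1, H _ t33291.2.2.1⟩, ⟨H _ t33291.2.2.2.1, H _ t33291.2.2.2.2.1⟩⟩⟩, ⟨⟨⟨H _ t33291.2.2.2.2.2.1, H _ t33291.2.2.2.2.2.2.1⟩, ⟨H _ t33291.2.2.2.2.2.2.2, H _ t33299.1⟩⟩, ⟨⟨H _ t33299.2.1, H _ t33299.2.2.1⟩, ⟨H _ t33299.2.2.2.1, ⟨H _ t33299.2.2.2.2.1, H _ t33299.2.2.2.2.2.1⟩⟩⟩⟩⟩⟩, ⟨⟨⟨⟨⟨H _ t33299.2.2.2.2.2.2.1, H _ t33299.2.2.2.2.2.2.2⟩, ⟨H _ t33307.1, H _ t33307.2.1⟩⟩, ⟨⟨H _ t33307.2.2.1, H _ t33307.2.2.2.1⟩, ⟨H _ t33307.2.2.2.2.1, H _ t33307.2.2.2.2.2.1⟩⟩⟩, ⟨⟨⟨H _ t33307.2.2.2.2.2.2.1, H _ t33307.2.2.2.2.2.2.2⟩, ⟨H _ t33315.1, H _ t33315.2.1⟩⟩, ⟨⟨H _ t33315.2.2.1, H _ t33315.2.2.2.1⟩,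 ⟨H _ t33315.2.2.2.2.1, ⟨H _ t33315.2.2.2.2.2.1, H _ t33315.2.2.2.2.2.2.1⟩⟩⟩⟩⟩, ⟨⟨⟨⟨H _ t33315.2.2.2.2.2.2.2, H _ t33323.1⟩, ⟨H _ t33323.2.1, H _ t33323.2.2.1⟩⟩, ⟨⟨H _ t33323.2.2.2.1, H _ t33323.2.2.2.2.1⟩, ⟨H _ t33323.2.2.2.2.2.1, ⟨H _ t33323.2.2.2.2.2.2.1, H _ t33323.2.2.2.2.2.2.2⟩⟩⟩⟩, ⟨⟨⟨H _ t33331.1, H _ t33331.2.1⟩, ⟨H _ t33331.2.2.1, H _ t33331.2.2.2.1⟩⟩, ⟨⟨H _ t33331.2.2.2.2.1, H _ t33331.2.2.2.2.2.1⟩, ⟨H _ t33331.2.2.2.2.2.2.1, ⟨H _ t33331.2.2.2.2.2.2.2, H _ t33339.1⟩⟩⟩⟩⟩⟩⟩⟩, ⟨⟨⟨⟨⟨⟨⟨H _ t33339.2.1, H _ t33339.2.2.1⟩, ⟨H _ t33339.2.2.2.1, H _ t33339.2.2.2.2.1⟩⟩, ⟨⟨H _ t33339.2.2.2.2.2.1, H _ t33339.2.2.2.2.2.2.1⟩, ⟨H _ t33339.2.2.2.2.2.2.2, H _ t33347.1⟩⟩⟩, ⟨⟨⟨H _ t33347.2.1, H _ t33347.2.2.1⟩, ⟨H _ t33347.2.2.2.1, H _ t33347.2.2.2.2.1⟩⟩, ⟨⟨H _ t33347.2.2.2.2.2.1, H _ t33347.2.2.2.2.2.2.1⟩, ⟨H _ t33347.2.2.2.2.2.2.2, ⟨H _ t33355.1, H _ t33355.2.1⟩⟩⟩⟩⟩, ⟨⟨⟨⟨H _ t33355.2.2.1, H _ t33355.2.2.2.1⟩,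 ⟨H _ t33355.2.2.2.2.1, H _ t33355.2.2.2.2.2.1⟩⟩, ⟨⟨H _ t33355.2.2.2.2.2.2.1, H _ t33355.2.2.2.2.2.2.2⟩, ⟨H _ t33363.1, H _ t33363.2.1⟩⟩⟩, ⟨⟨⟨H _ t33363.2.2.1, H _ t33363.2.2.2.1⟩, ⟨H _ t33363.2.2.2.2.1, H _ t33363.2.2.2.2.2.1⟩⟩, ⟨⟨H _ t33363.2.2.2.2.2.2.1, H _ t33363.2.2.2.2.2.2.2⟩, ⟨H _ t33371.1, ⟨H _ t33371.2.1, H _ t33371.2.2.1⟩⟩⟩⟩⟩⟩, ⟨⟨⟨⟨⟨H _ t33371.2.2.2.1, H _ t33371.2.2.2.2.1⟩, ⟨H _ t33371.2.2.2.2.2.1, H _ t33371.2.2.2.2.2.2.1⟩⟩, ⟨⟨H _ t33371.2.2.2.2.2.2.2, H _ t33379.1⟩, ⟨H _ t33379.2.1, H _ t33379.2.2.1⟩⟩⟩, ⟨⟨⟨H _ t33379.2.2.2.1, H _ t33379.2.2.2.2.1⟩, ⟨H _ t33379.2.2.2.2.2.1, H _ t33379.2.2.2.2.2.2.1⟩⟩, ⟨⟨H _ t33379.2.2.2.2.2.2.2, H _ t33387.1⟩, ⟨H _ t33387.2.1, ⟨H _ t33387.2.2.1, H _ t33387.2.2.2.1⟩⟩⟩⟩⟩, ⟨⟨⟨⟨H _ t33387.2.2.2.2.1, H _ t33387.2.2.2.2.2.1⟩, ⟨H _ t33387.2.2.2.2.2.2.1, H _ t33387.2.2.2.2.2.2.2⟩⟩, ⟨⟨H _ t33395.1, H _ t33395.2.1⟩, ⟨H _ t33395.2.2.1, H _ t33395.2.2.2.1⟩⟩⟩,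 ⟨⟨⟨H _ t33395.2.2.2.2.1, H _ t33395.2.2.2.2.2.1⟩, ⟨H _ t33395.2.2.2.2.2.2.1, H _ t33395.2.2.2.2.2.2.2⟩⟩, ⟨⟨H _ t33403.1, H _ t33403.2.1⟩, ⟨H _ t33403.2.2.1, ⟨H _ t33403.2.2.2.1, H _ t33403.2.2.2.2.1⟩⟩⟩⟩⟩⟩⟩, ⟨⟨⟨⟨⟨⟨H _ t33403.2.2.2.2.2.1, H _ t33403.2.2.2.2.2.2.1⟩, ⟨H _ t33403.2.2.2.2.2.2.2, H _ t33411.1⟩⟩, ⟨⟨H _ t33411.2.1, H _ t33411.2.2.1⟩, ⟨H _ t33411.2.2.2.1, H _ t33411.2.2.2.2.1⟩⟩⟩, ⟨⟨⟨H _ t33411.2.2.2.2.2.1, H _ t33411.2.2.2.2.2.2.1⟩, ⟨H _ t33411.2.2.2.2.2.2.2, H _ t33419.1⟩⟩, ⟨⟨H _ t33419.2.1, H _ t33419.2.2.1⟩, ⟨H _ t33419.2.2.2.1, ⟨H _ t33419.2.2.2.2.1, H _ t33419.2.2.2.2.2.1⟩⟩⟩⟩⟩, ⟨⟨⟨⟨H _ t33419.2.2.2.2.2.2.1, H _ t33419.2.2.2.2.2.2.2⟩, ⟨H _ t33427.1, H _ t33427.2.1⟩⟩, ⟨⟨H _ t33427.2.2.1, H _ t33427.2.2.2.1⟩, ⟨H _ t33427.2.2.2.2.1, H _ t33427.2.2.2.2.2.1⟩⟩⟩, ⟨⟨⟨H _ t33427.2.2.2.2.2.2.1, H _ t33427.2.2.2.2.2.2.2⟩, ⟨H _ t33435.1, H _ t33435.2.1⟩⟩, ⟨⟨H _ t33435.2.2.1, H _ t33435.2.2.2.1⟩,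 ⟨H _ t33435.2.2.2.2.1, ⟨H _ t33435.2.2.2.2.2.1, H _ t33435.2.2.2.2.2.2.1⟩⟩⟩⟩⟩⟩, ⟨⟨⟨⟨⟨H _ t33435.2.2.2.2.2.2.2, H _ t33443.1⟩, ⟨H _ t33443.2.1, H _ t33443.2.2.1⟩⟩, ⟨⟨H _ t33443.2.2.2.1, H _ t33443.2.2.2.2.1⟩, ⟨H _ t33443.2.2.2.2.2.1, H _ t33443.2.2.2.2.2.2.1⟩⟩⟩, ⟨⟨⟨H _ t33443.2.2.2.2.2.2.2, H _ t33451.1⟩, ⟨H _ t33451.2.1, H _ t33451.2.2.1⟩⟩, ⟨⟨H _ t33451.2.2.2.1, H _ t33451.2.2.2.2.1⟩, ⟨H _ t33451.2.2.2.2.2.1, ⟨H _ t33451.2.2.2.2.2.2.1, H _ t33451.2.2.2.2.2.2.2⟩⟩⟩⟩⟩, ⟨⟨⟨⟨H _ t33459.1, H _ t33459.2.1⟩, ⟨H _ t33459.2.2.1, H _ t33459.2.2.2.1⟩⟩, ⟨⟨H _ t33459.2.2.2.2.1, H _ t33459.2.2.2.2.2.1⟩, ⟨H _ t33459.2.2.2.2.2.2.1, ⟨H _ t33459.2.2.2.2.2.2.2, H _ t33467.1⟩⟩⟩⟩, ⟨⟨⟨H _ t33467.2.1, H _ t33467.2.2.1⟩, ⟨H _ t33467.2.2.2.1, H _ t33467.2.2.2.2.1⟩⟩, ⟨⟨H _ t33467.2.2.2.2.2.1, H _ t33467.2.2.2.2.2.2.1⟩, ⟨H _ t33467.2.2.2.2.2.2.2, ⟨H _ t33475.1, H _ t33475.2.1⟩⟩⟩⟩⟩⟩⟩⟩⟩, ⟨⟨⟨⟨⟨⟨⟨⟨H _ t33475.2.2.1, H _ t33475.2.2.2.1⟩,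 ⟨H _ t33475.2.2.2.2.1, H _ t33475.2.2.2.2.2.1⟩⟩, ⟨⟨H _ t33475.2.2.2.2.2.2.1, H _ t33475.2.2.2.2.2.2.2⟩, ⟨H _ t33483.1, H _ t33483.2.1⟩⟩⟩, ⟨⟨⟨H _ t33483.2.2.1, H _ t33483.2.2.2.1⟩, ⟨H _ t33483.2.2.2.2.1, H _ t33483.2.2.2.2.2.1⟩⟩, ⟨⟨H _ t33483.2.2.2.2.2.2.1, H _ t33483.2.2.2.2.2.2.2⟩, ⟨H _ t33491.1, ⟨H _ t33491.2.1, H _ t33491.2.2.1⟩⟩⟩⟩⟩, ⟨⟨⟨⟨H _ t33491.2.2.2.1, H _ t33491.2.2.2.2.1⟩, ⟨H _ t33491.2.2.2.2.2.1, H _ t33491.2.2.2.2.2.2.1⟩⟩, ⟨⟨H _ t33491.2.2.2.2.2.2.2, H _ t33499.1⟩, ⟨H _ t33499.2.1, H _ t33499.2.2.1⟩⟩⟩, ⟨⟨⟨H _ t33499.2.2.2.1, H _ t33499.2.2.2.2.1⟩, ⟨H _ t33499.2.2.2.2.2.1, H _ t33499.2.2.2.2.2.2.1⟩⟩, ⟨⟨H _ t33499.2.2.2.2.2.2.2, H _ t33507.1⟩, ⟨H _ t33507.2.1, ⟨H _ t33507.2.2.1, H _ t33507.2.2.2.1⟩⟩⟩⟩⟩⟩, ⟨⟨⟨⟨⟨H _ t33507.2.2.2.2.1, H _ t33507.2.2.2.2.2.1⟩, ⟨H _ t33507.2.2.2.2.2.2.1, H _ t33507.2.2.2.2.2.2.2⟩⟩, ⟨⟨H _ t33515.1, H _ t33515.2.1⟩, ⟨H _ t33515.2.2.1, H _ t33515.2.2.2.1⟩⟩⟩,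 ⟨⟨⟨H _ t33515.2.2.2.2.1, H _ t33515.2.2.2.2.2.1⟩, ⟨H _ t33515.2.2.2.2.2.2.1, H _ t33515.2.2.2.2.2.2.2⟩⟩, ⟨⟨H _ t33523.1, H _ t33523.2.1⟩, ⟨H _ t33523.2.2.1, ⟨H _ t33523.2.2.2.1, H _ t33523.2.2.2.2.1⟩⟩⟩⟩⟩, ⟨⟨⟨⟨H _ t33523.2.2.2.2.2.1, H _ t33523.2.2.2.2.2.2.1⟩, ⟨H _ t33523.2.2.2.2.2.2.2, H _ t33531.1⟩⟩, ⟨⟨H _ t33531.2.1, H _ t33531.2.2.1⟩, ⟨H _ t33531.2.2.2.1, H _ t33531.2.2.2.2.1⟩⟩⟩, ⟨⟨⟨H _ t33531.2.2.2.2.2.1, H _ t33531.2.2.2.2.2.2.1⟩, ⟨H _ t33531.2.2.2.2.2.2.2, H _ t33539.1⟩⟩, ⟨⟨H _ t33539.2.1, H _ t33539.2.2.1⟩, ⟨H _ t33539.2.2.2.1, ⟨H _ t33539.2.2.2.2.1, H _ t33539.2.2.2.2.2.1⟩⟩⟩⟩⟩⟩⟩, ⟨⟨⟨⟨⟨⟨H _ t33539.2.2.2.2.2.2.1, H _ t33539.2.2.2.2.2.2.2⟩, ⟨H _ t33547.1, H _ t33547.2.1⟩⟩, ⟨⟨H _ t33547.2.2.1, H _ t33547.2.2.2.1⟩, ⟨H _ t33547.2.2.2.2.1, H _ t33547.2.2.2.2.2.1⟩⟩⟩, ⟨⟨⟨H _ t33547.2.2.2.2.2.2.1, H _ t33547.2.2.2.2.2.2.2⟩, ⟨H _ t33555.1, H _ t33555.2.1⟩⟩, ⟨⟨H _ t33555.2.2.1, H _ t33555.2.2.2.1⟩,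 ⟨H _ t33555.2.2.2.2.1, ⟨H _ t33555.2.2.2.2.2.1, H _ t33555.2.2.2.2.2.2.1⟩⟩⟩⟩⟩, ⟨⟨⟨⟨H _ t33555.2.2.2.2.2.2.2, H _ t33563.1⟩, ⟨H _ t33563.2.1, H _ t33563.2.2.1⟩⟩, ⟨⟨H _ t33563.2.2.2.1, H _ t33563.2.2.2.2.1⟩, ⟨H _ t33563.2.2.2.2.2.1, H _ t33563.2.2.2.2.2.2.1⟩⟩⟩, ⟨⟨⟨H _ t33563.2.2.2.2.2.2.2, H _ t33571.1⟩, ⟨H _ t33571.2.1, H _ t33571.2.2.1⟩⟩, ⟨⟨H _ t33571.2.2.2.1, H _ t33571.2.2.2.2.1⟩, ⟨H _ t33571.2.2.2.2.2.1, ⟨H _ t33571.2.2.2.2.2.2.1, H _ t33571.2.2.2.2.2.2.2⟩⟩⟩⟩⟩⟩, ⟨⟨⟨⟨⟨H _ t33579.1, H _ t33579.2.1⟩, ⟨H _ t33579.2.2.1, H _ t33579.2.2.2.1⟩⟩, ⟨⟨H _ t33579.2.2.2.2.1, H _ t33579.2.2.2.2.2.1⟩, ⟨H _ t33579.2.2.2.2.2.2.1, H _ t33579.2.2.2.2.2.2.2⟩⟩⟩, ⟨⟨⟨H _ t33587.1, H _ t33587.2.1⟩, ⟨H _ t33587.2.2.1, H _ t33587.2.2.2.1⟩⟩, ⟨⟨H _ t33587.2.2.2.2.1, H _ t33587.2.2.2.2.2.1⟩, ⟨H _ t33587.2.2.2.2.2.2.1, ⟨H _ t33587.2.2.2.2.2.2.2, H _ t33595.1⟩⟩⟩⟩⟩, ⟨⟨⟨⟨H _ t33595.2.1, H _ t33595.2.2.1⟩, ⟨H _ t33595.2.2.2.1,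 H _ t33595.2.2.2.2.1⟩⟩, ⟨⟨H _ t33595.2.2.2.2.2.1, H _ t33595.2.2.2.2.2.2.1⟩, ⟨H _ t33595.2.2.2.2.2.2.2, ⟨H _ t33603.1, H _ t33603.2.1⟩⟩⟩⟩, ⟨⟨⟨H _ t33603.2.2.1, H _ t33603.2.2.2.1⟩, ⟨H _ t33603.2.2.2.2.1, H _ t33603.2.2.2.2.2.1⟩⟩, ⟨⟨H _ t33603.2.2.2.2.2.2.1, H _ t33603.2.2.2.2.2.2.2⟩, ⟨H _ t33611.1, ⟨H _ t33611.2.1, H _ t33611.2.2.1⟩⟩⟩⟩⟩⟩⟩⟩, ⟨⟨⟨⟨⟨⟨⟨H _ t33611.2.2.2.1, H _ t33611.2.2.2.2.1⟩, ⟨H _ t33611.2.2.2.2.2.1, H _ t33611.2.2.2.2.2.2.1⟩⟩, ⟨⟨H _ t33611.2.2.2.2.2.2.2, H _ t33619.1⟩, ⟨H _ t33619.2.1, H _ t33619.2.2.1⟩⟩⟩, ⟨⟨⟨H _ t33619.2.2.2.1, H _ t33619.2.2.2.2.1⟩, ⟨H _ t33619.2.2.2.2.2.1, H _ t33619.2.2.2.2.2.2.1⟩⟩, ⟨⟨H _ t33619.2.2.2.2.2.2.2, H _ t33627.1⟩, ⟨H _ t33627.2.1, ⟨H _ t33627.2.2.1, H _ t33627.2.2.2.1⟩⟩⟩⟩⟩, ⟨⟨⟨⟨H _ t33627.2.2.2.2.1, H _ t33627.2.2.2.2.2.1⟩, ⟨H _ t33627.2.2.2.2.2.2.1, H _ t33627.2.2.2.2.2.2.2⟩⟩, ⟨⟨H _ t33635.1, H _ t33635.2.1⟩, ⟨H _ t33635.2.2.1, H _ t33635.2.2.2.1⟩⟩⟩,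 ⟨⟨⟨H _ t33635.2.2.2.2.1, H _ t33635.2.2.2.2.2.1⟩, ⟨H _ t33635.2.2.2.2.2.2.1, H _ t33635.2.2.2.2.2.2.2⟩⟩, ⟨⟨H _ t33643.1, H _ t33643.2.1⟩, ⟨H _ t33643.2.2.1, ⟨H _ t33643.2.2.2.1, H _ t33643.2.2.2.2.1⟩⟩⟩⟩⟩⟩, ⟨⟨⟨⟨⟨H _ t33643.2.2.2.2.2.1, H _ t33643.2.2.2.2.2.2.1⟩, ⟨H _ t33643.2.2.2.2.2.2.2, H _ t33651.1⟩⟩, ⟨⟨H _ t33651.2.1, H _ t33651.2.2.1⟩, ⟨H _ t33651.2.2.2.1, H _ t33651.2.2.2.2.1⟩⟩⟩, ⟨⟨⟨H _ t33651.2.2.2.2.2.1, H _ t33651.2.2.2.2.2.2.1⟩, ⟨H _ t33651.2.2.2.2.2.2.2, H _ t33659.1⟩⟩, ⟨⟨H _ t33659.2.1, H _ t33659.2.2.1⟩, ⟨H _ t33659.2.2.2.1, ⟨H _ t33659.2.2.2.2.1, H _ t33659.2.2.2.2.2.1⟩⟩⟩⟩⟩, ⟨⟨⟨⟨H _ t33659.2.2.2.2.2.2.1, H _ t33659.2.2.2.2.2.2.2⟩, ⟨H _ t33667.1, H _ t33667.2.1⟩⟩, ⟨⟨H _ t33667.2.2.1, H _ t33667.2.2.2.1⟩, ⟨H _ t33667.2.2.2.2.1, H _ t33667.2.2.2.2.2.1⟩⟩⟩, ⟨⟨⟨H _ t33667.2.2.2.2.2.2.1, H _ t33667.2.2.2.2.2.2.2⟩, ⟨H _ t33675.1, H _ t33675.2.1⟩⟩, ⟨⟨H _ t33675.2.2.1, H _ t33675.2.2.2.1⟩,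 ⟨H _ t33675.2.2.2.2.1, ⟨H _ t33675.2.2.2.2.2.1, H _ t33675.2.2.2.2.2.2.1⟩⟩⟩⟩⟩⟩⟩, ⟨⟨⟨⟨⟨⟨H _ t33675.2.2.2.2.2.2.2, H _ t33683.1⟩, ⟨H _ t33683.2.1, H _ t33683.2.2.1⟩⟩, ⟨⟨H _ t33683.2.2.2.1, H _ t33683.2.2.2.2.1⟩, ⟨H _ t33683.2.2.2.2.2.1, H _ t33683.2.2.2.2.2.2.1⟩⟩⟩, ⟨⟨⟨H _ t33683.2.2.2.2.2.2.2, H _ t33691.1⟩, ⟨H _ t33691.2.1, H _ t33691.2.2.1⟩⟩, ⟨⟨H _ t33691.2.2.2.1, H _ t33691.2.2.2.2.1⟩, ⟨H _ t33691.2.2.2.2.2.1, ⟨H _ t33691.2.2.2.2.2.2.1, H _ t33691.2.2.2.2.2.2.2⟩⟩⟩⟩⟩, ⟨⟨⟨⟨H _ t33699.1, H _ t33699.2.1⟩, ⟨H _ t33699.2.2.1, H _ t33699.2.2.2.1⟩⟩, ⟨⟨H _ t33699.2.2.2.2.1, H _ t33699.2.2.2.2.2.1⟩, ⟨H _ t33699.2.2.2.2.2.2.1, H _ t33699.2.2.2.2.2.2.2⟩⟩⟩, ⟨⟨⟨H _ t33707.1, H _ t33707.2.1⟩, ⟨H _ t33707.2.2.1, H _ t33707.2.2.2.1⟩⟩, ⟨⟨H _ t33707.2.2.2.2.1, H _ t33707.2.2.2.2.2.1⟩, ⟨H _ t33707.2.2.2.2.2.2.1, ⟨H _ t33707.2.2.2.2.2.2.2, H _ t33715.1⟩⟩⟩⟩⟩⟩, ⟨⟨⟨⟨⟨H _ t33715.2.1, H _ t33715.2.2.1⟩, ⟨H _ t33715.2.2.2.1,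 H _ t33715.2.2.2.2.1⟩⟩, ⟨⟨H _ t33715.2.2.2.2.2.1, H _ t33715.2.2.2.2.2.2.1⟩, ⟨H _ t33715.2.2.2.2.2.2.2, H _ t33723.1⟩⟩⟩, ⟨⟨⟨H _ t33723.2.1, H _ t33723.2.2.1⟩, ⟨H _ t33723.2.2.2.1, H _ t33723.2.2.2.2.1⟩⟩, ⟨⟨H _ t33723.2.2.2.2.2.1, H _ t33723.2.2.2.2.2.2.1⟩, ⟨H _ t33723.2.2.2.2.2.2.2, ⟨H _ t33731.1, H _ t33731.2.1⟩⟩⟩⟩⟩, ⟨⟨⟨⟨H _ t33731.2.2.1, H _ t33731.2.2.2.1⟩, ⟨H _ t33731.2.2.2.2.1, H _ t33731.2.2.2.2.2.1⟩⟩, ⟨⟨H _ t33731.2.2.2.2.2.2.1, H _ t33731.2.2.2.2.2.2.2⟩, ⟨H _ t33739.1, ⟨H _ t33739.2.1, H _ t33739.2.2.1⟩⟩⟩⟩, ⟨⟨⟨H _ t33739.2.2.2.1, H _ t33739.2.2.2.2.1⟩, ⟨H _ t33739.2.2.2.2.2.1, H _ t33739.2.2.2.2.2.2.1⟩⟩, ⟨⟨H _ t33739.2.2.2.2.2.2.2, H _ t33747.1⟩, ⟨H _ t33747.2.1, ⟨H _ t33747.2.2.1, H _ t33747.2.2.2⟩⟩⟩⟩⟩⟩⟩⟩⟩⟩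

end Pool.Agent.MP_c853c5_nt.X.C4950
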