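import Pool.Agent.MP_c853c5_nt.X.C4950.Env
import Pool.Agent.MP_c853c5_nt.X.C4950.Tab

set_option autoImplicit false
set_option maxRecDepth 8192
set_option linter.all false

namespace Pool.Agent.MP_c853c5_nt.X.C4950

open Pool.Agent.MP_c853c5_nt.X

def t33751 : allY (E.wth T1) l33751 = true ∧
    allY (E.wth T1) l33752 = true ∧
    allY (E.wth T1) l33753 = true ∧
    allY (E.wth T1) l33754 = true ∧
    allY (E.wth T1) l33755 = true ∧
    allY (E.wth T1) l33756 = true ∧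
    allY (E.wth T1) l33757 = true ∧
    allY (E.wth T1) l33758 = true :=
  ⟨by decide +kernel, by decide +kernel, by decide +kernel, by decide +kernel, by decide +kernel, by decide +kernel, by decide +kernel, by decide +kernel⟩

def t33759 : allY (E.wth T1) l33759 = true ∧
    allY (E.wth T1) l33760 = true ∧
    allY (E.wth T1) l33761 = true ∧
    allY (E.wth T1) l33762 = true ∧
    allY (E.wth T1) l33763 = true ∧
    allY (E.wth T1) l33764 = true ∧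
    allY (E.wth T1) l33765 = true ∧
    allY (E.wth T1) l33766 = true :=
  ⟨by decide +kernel, by decide +kernel, by decide +kernel, by decide +kernel, by decide +kernel, by decide +kernel, by decide +kernel, by decide +kernel⟩

def t33767 : allY (E.wth T1) l33767 = true ∧
    allY (E.wth T1) l33768 = true ∧
    allY (E.wth T1) l33769 = true ∧
    allY (E.wth T1) l33770 = true ∧
    allY (E.wth T1) l33771 = true ∧
    allY (E.wth T1) l33772 = true ∧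
    allY (E.wth T1) l33773 = true ∧
    allY (E.wth T1) l33774 = true :=
  ⟨by decide +kernel, by decide +kernel, by decide +kernel, by decide +kernel, by decide +kernel, by decide +kernel, by decide +kernel, by decide +kernel⟩

def t33775 : allY (E.wth T1) l33775 = true ∧
    allY (E.wth T1) l33776 = true ∧
    allY (E.wth T1) l33777 = true ∧
    allY (E.wth T1) l33778 = true ∧
    allY (E.wth T1) l33779 = true ∧
    allY (E.wth T1) l33780 = true ∧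
    allY (E.wth T1) l33781 = true ∧
    allY (E.wth T1) l33782 = true :=
  ⟨by decide +kernel, by decide +kernel, by decide +kernel, by decide +kernel, by decide +kernel, by decide +kernel, by decide +kernel, by decide +kernel⟩

def t33783 : allY (E.wth T1) l33783 = true ∧
    allY (E.wth T1) l33784 = true ∧
    allY (E.wth T1) l33785 = true ∧
    allY (E.wth T1) l33786 = true ∧
    allY (E.wth T1) l33787 = true ∧
    allY (E.wth T1) l33788 = true ∧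
    allY (E.wth T1) l33789 = true ∧
    allY (E.wth T1) l33790 = true :=
  ⟨by decide +kernel, by decide +kernel, by decide +kernel, by decide +kernel, by decide +kernel, by decide +kernel, by decide +kernel, by decide +kernel⟩

def t33791 : allY (E.wth T1) l33791 = true ∧
    allY (E.wth T1) l33792 = true ∧
    allY (E.wth T1) l33793 = true ∧
    allY (E.wth T1) l33794 = true ∧
    allY (E.wth T1) l33795 = true ∧
    allY (E.wth T1) l33796 = true ∧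
    allY (E.wth T1) l33797 = true ∧
    allY (E.wth T1) l33798 = true :=
  ⟨by decide +kernel, by decide +kernel, by decide +kernel, by decide +kernel, by decide +kernel, by decide +kernel, by decide +kernel, by decide +kernel⟩

def t33799 : allY (E.wth T1) l33799 = true ∧
    allY (E.wth T1) l33800 = true ∧
    allY (E.wth T1) l33801 = true ∧
    allY (E.wth T1) l33802 = true ∧
    allY (E.wth T1) l33803 = true ∧
    allY (E.wth T1) l33804 = true ∧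
    allY (E.wth T1) l33805 = true ∧
    allY (E.wth T1) l33806 = true :=
  ⟨by decide +kernel, by decide +kernel, by decide +kernel, by decide +kernel, by decide +kernel, by decide +kernel, by decide +kernel, by decide +kernel⟩

def t33807 : allY (E.wth T1) l33807 = true ∧
    allY (E.wth T1) l33808 = true ∧
    allY (E.wth T1) l33809 = true ∧
    allY (E.wth T1) l33810 = true ∧
    allY (E.wth T1) l33811 = true ∧
    allY (E.wth T1) l33812 = true ∧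
    allY (E.wth T1) l33813 = true ∧
    allY (E.wth T1) l33814 = true :=
  ⟨by decide +kernel, by decide +kernel, by decide +kernel, by decide +kernel, by decide +kernel, by decide +kernel, by decide +kernel, by decide +kernel⟩

def t33815 : allY (E.wth T1) l33815 = true ∧
    allY (E.wth T1) l33816 = true ∧
    allY (E.wth T1) l33817 = true ∧
    allY (E.wth T1) l33818 = true ∧
    allY (E.wth T1) l33819 = true ∧
    allY (E.wth T1) l33820 = true ∧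
    allY (E.wth T1) l33821 = true ∧
    allY (E.wth T1) l33822 = true :=
  ⟨by decide +kernel, by decide +kernel, by decide +kernel, by decide +kernel, by decide +kernel, by decide +kernel, by decide +kernel, by decide +kernel⟩

def t33823 : allY (E.wth T1) l33823 = true ∧
    allY (E.wth T1) l33824 = true ∧
    allY (E.wth T1) l33825 = true ∧
    allY (E.wth T1) l33826 = true ∧
    allY (E.wth T1) l33827 = true ∧
    allY (E.wth T1) l33828 = true ∧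
    allY (E.wth T1) l33829 = true ∧
    allY (E.wth T1) l33830 = true :=
  ⟨by decide +kernel, by decide +kernel, by decide +kernel, by decide +kernel, by decide +kernel, by decide +kernel, by decide +kernel, by decide +kernel⟩

def t33831 : allY (E.wth T1) l33831 = true ∧
    allY (E.wth T1) l33832 = true ∧
    allY (E.wth T1) l33833 = true ∧
    allY (E.wth T1) l33834 = true ∧
    allY (E.wth T1) l33835 = true ∧
    allY (E.wth T1) l33836 = true ∧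
    allY (E.wth T1) l33837 = true ∧
    allY (E.wth T1) l33838 = true :=
  ⟨by decide +kernel, by decide +kernel, by decide +kernel, by decide +kernel, by decide +kernel, by decide +kernel, by decide +kernel, by decide +kernel⟩

def t33839 : allY (E.wth T1) l33839 = true ∧
    allY (E.wth T1) l33840 = true ∧
    allY (E.wth T1) l33841 = true ∧
    allY (E.wth T1) l33842 = true ∧
    allY (E.wth T1) l33843 = true ∧
    allY (E.wth T1) l33844 = true ∧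
    allY (E.wth T1) l33845 = true ∧
    allY (E.wth T1) l33846 = true :=
  ⟨by decide +kernel, by decide +kernel, by decide +kernel, by decide +kernel, by decide +kernel, by decide +kernel, by decide +kernel, by decide +kernel⟩

def t33847 : allY (E.wth T1) l33847 = true ∧
    allY (E.wth T1) l33848 = true ∧
    allY (E.wth T1) l33849 = true ∧
    allY (E.wth T1) l33850 = true ∧
    allY (E.wth T1) l33851 = true ∧
    allY (E.wth T1) l33852 = true ∧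
    allY (E.wth T1) l33853 = true ∧
    allY (E.wth T1) l33854 = true :=
  ⟨by decide +kernel, by decide +kernel, by decide +kernel, by decide +kernel, by decide +kernel, by decide +kernel, by decide +kernel, by decide +kernel⟩

def t33855 : allY (E.wth T1) l33855 = true ∧
    allY (E.wth T1) l33856 = true ∧
    allY (E.wth T1) l33857 = true ∧
    allY (E.wth T1) l33858 = true ∧
    allY (E.wth T1) l33859 = true ∧
    allY (E.wth T1) l33860 = true ∧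
    allY (E.wth T1) l33861 = true ∧
    allY (E.wth T1) l33862 = true :=
  ⟨by decide +kernel, by decide +kernel, by decide +kernel, by decide +kernel, by decide +kernel, by decide +kernel, by decide +kernel, by decide +kernel⟩

def t33863 : allY (E.wth T1) l33863 = true ∧
    allY (E.wth T1) l33864 = true ∧
    allY (E.wth T1) l33865 = true ∧
    allY (E.wth T1) l33866 = true ∧
    allY (E.wth T1) l33867 = true ∧
    allY (E.wth T1) l33868 = true ∧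
    allY (E.wth T1) l33869 = true ∧
    allY (E.wth T1) l33870 = true :=
  ⟨by decide +kernel, by decide +kernel, by decide +kernel, by decide +kernel, by decide +kernel, by decide +kernel, by decide +kernel, by decide +kernel⟩

def t33871 : allY (E.wth T1) l33871 = true ∧
    allY (E.wth T1) l33872 = true ∧
    allY (E.wth T1) l33873 = true ∧
    allY (E.wth T1) l33874 = true ∧
    allY (E.wth T1) l33875 = true ∧
    allY (E.wth T1) l33876 = true ∧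
    allY (E.wth T1) l33877 = true ∧
    allY (E.wth T1) l33878 = true :=
  ⟨by decide +kernel, by decide +kernel, by decide +kernel, by decide +kernel, by decide +kernel, by decide +kernel, by decide +kernel, by decide +kernel⟩

def t33879 : allY (E.wth T1) l33879 = true ∧
    allY (E.wth T1) l33880 = true ∧
    allY (E.wth T1) l33881 = true ∧
    allY (E.wth T1) l33882 = true ∧
    allY (E.wth T1) l33883 = true ∧
    allY (E.wth T1) l33884 = true ∧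
    allY (E.wth T1) l33885 = true ∧
    allY (E.wth T1) l33886 = true :=
  ⟨by decide +kernel, by decide +kernel, by decide +kernel, by decide +kernel, by decide +kernel, by decide +kernel, by decide +kernel, by decide +kernel⟩

def t33887 : allY (E.wth T1) l33887 = true ∧
    allY (E.wth T1) l33888 = true ∧
    allY (E.wth T1) l33889 = true ∧
    allY (E.wth T1) l33890 = true ∧
    allY (E.wth T1) l33891 = true ∧
    allY (E.wth T1) l33892 = true ∧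
    allY (E.wth T1) l33893 = true ∧
    allY (E.wth T1) l33894 = true :=
  ⟨by decide +kernel, by decide +kernel, by decide +kernel, by decide +kernel, by decide +kernel, by decide +kernel, by decide +kernel, by decide +kernel⟩

def t33895 : allY (E.wth T1) l33895 = true ∧
    allY (E.wth T1) l33896 = true ∧
    allY (E.wth T1) l33897 = true ∧
    allY (E.wth T1) l33898 = true ∧
    allY (E.wth T1) l33899 = true ∧
    allY (E.wth T1) l33900 = true ∧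
    allY (E.wth T1) l33901 = true ∧
    allY (E.wth T1) l33902 = true :=
  ⟨by decide +kernel, by decide +kernel, by decide +kernel, by decide +kernel, by decide +kernel, by decide +kernel, by decide +kernel, by decide +kernel⟩

def t33903 : allY (E.wth T1) l33903 = true ∧
    allY (E.wth T1) l33904 = true ∧
    allY (E.wth T1) l33905 = true ∧
    allY (E.wth T1) l33906 = true ∧
    allY (E.wth T1) l33907 = true ∧
    allY (E.wth T1) l33908 = true ∧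
    allY (E.wth T1) l33909 = true ∧
    allY (E.wth T1) l33910 = true :=
  ⟨by decide +kernel, by decide +kernel, by decide +kernel, by decide +kernel, by decide +kernel, by decide +kernel, by decide +kernel, by decide +kernel⟩

def t33911 : allY (E.wth T1) l33911 = true ∧
    allY (E.wth T1) l33912 = true ∧
    allY (E.wth T1) l33913 = true ∧
    allY (E.wth T1) l33914 = true ∧
    allY (E.wth T1) l33915 = true ∧
    allY (E.wth T1) l33916 = true ∧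
    allY (E.wth T1) l33917 = true ∧
    allY (E.wth T1) l33918 = true :=
  ⟨by decide +kernel, by decide +kernel, by decide +kernel, by decide +kernel, by decide +kernel, by decide +kernel, by decide +kernel, by decide +kernel⟩

def t33919 : allY (E.wth T1) l33919 = true ∧
    allY (E.wth T1) l33920 = true ∧
    allY (E.wth T1) l33921 = true ∧
    allY (E.wth T1) l33922 = true ∧
    allY (E.wth T1) l33923 = true ∧
    allY (E.wth T1) l33924 = true ∧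
    allY (E.wth T1) l33925 = true ∧
    allY (E.wth T1) l33926 = true :=
  ⟨by decide +kernel, by decide +kernel, by decide +kernel, by decide +kernel, by decide +kernel, by decide +kernel, by decide +kernel, by decide +kernel⟩

def t33927 : allY (E.wth T1) l33927 = true ∧
    allY (E.wth T1) l33928 = true ∧
    allY (E.wth T1) l33929 = true ∧
    allY (E.wth T1) l33930 = true ∧
    allY (E.wth T1) l33931 = true ∧
    allY (E.wth T1) l33932 = true ∧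
    allY (E.wth T1) l33933 = true ∧
    allY (E.wth T1) l33934 = true :=
  ⟨by decide +kernel, by decide +kernel, by decide +kernel, by decide +kernel, by decide +kernel, by decide +kernel, by decide +kernel, by decide +kernel⟩

def t33935 : allY (E.wth T1) l33935 = true ∧
    allY (E.wth T1) l33936 = true ∧
    allY (E.wth T1) l33937 = true ∧
    allY (E.wth T1) l33938 = true ∧
    allY (E.wth T1) l33939 = true ∧
    allY (E.wth T1) l33940 = true ∧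
    allY (E.wth T1) l33941 = true ∧
    allY (E.wth T1) l33942 = true :=
  ⟨by decide +kernel, by decide +kernel, by decide +kernel, by decide +kernel, by decide +kernel, by decide +kernel, by decide +kernel, by decide +kernel⟩

def t33943 : allY (E.wth T1) l33943 = true ∧
    allY (E.wth T1) l33944 = true ∧
    allY (E.wth T1) l33945 = true ∧
    allY (E.wth T1) l33946 = true ∧
    allY (E.wth T1) l33947 = true ∧
    allY (E.wth T1) l33948 = true ∧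
    allY (E.wth T1) l33949 = true ∧
    allY (E.wth T1) l33950 = true :=
  ⟨by decide +kernel, by decide +kernel, by decide +kernel, by decide +kernel, by decide +kernel, by decide +kernel, by decide +kernel, by decide +kernel⟩

def t33951 : allY (E.wth T1) l33951 = true ∧
    allY (E.wth T1) l33952 = true ∧
    allY (E.wth T1) l33953 = true ∧
    allY (E.wth T1) l33954 = true ∧
    allY (E.wth T1) l33955 = true ∧
    allY (E.wth T1) l33956 = true ∧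
    allY (E.wth T1) l33957 = true ∧
    allY (E.wth T1) l33958 = true :=
  ⟨by decide +kernel, by decide +kernel, by decide +kernel, by decide +kernel, by decide +kernel, by decide +kernel, by decide +kernel, by decide +kernel⟩

def t33959 : allY (E.wth T1) l33959 = true ∧
    allY (E.wth T1) l33960 = true ∧
    allY (E.wth T1) l33961 = true ∧
    allY (E.wth T1) l33962 = true ∧
    allY (E.wth T1) l33963 = true ∧
    allY (E.wth T1) l33964 = true ∧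
    allY (E.wth T1) l33965 = true ∧
    allY (E.wth T1) l33966 = true :=
  ⟨by decide +kernel, by decide +kernel, by decide +kernel, by decide +kernel, by decide +kernel, by decide +kernel, by decide +kernel, by decide +kernel⟩

def t33967 : allY (E.wth T1) l33967 = true ∧
    allY (E.wth T1) l33968 = true ∧
    allY (E.wth T1) l33969 = true ∧
    allY (E.wth T1) l33970 = true ∧
    allY (E.wth T1) l33971 = true ∧
    allY (E.wth T1) l33972 = true ∧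
    allY (E.wth T1) l33973 = true ∧
    allY (E.wth T1) l33974 = true :=
  ⟨by decide +kernel, by decide +kernel, by decide +kernel, by decide +kernel, by decide +kernel, by decide +kernel, by decide +kernel, by decide +kernel⟩

def t33975 : allY (E.wth T1) l33975 = true ∧
    allY (E.wth T1) l33976 = true ∧
    allY (E.wth T1) l33977 = true ∧
    allY (E.wth T1) l33978 = true ∧
    allY (E.wth T1) l33979 = true ∧
    allY (E.wth T1) l33980 = true ∧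
    allY (E.wth T1) l33981 = true ∧
    allY (E.wth T1) l33982 = true :=
  ⟨by decide +kernel, by decide +kernel, by decide +kernel, by decide +kernel, by decide +kernel, by decide +kernel, by decide +kernel, by decide +kernel⟩

def t33983 : allY (E.wth T1) l33983 = true ∧
    allY (E.wth T1) l33984 = true ∧
    allY (E.wth T1) l33985 = true ∧
    allY (E.wth T1) l33986 = true ∧
    allY (E.wth T1) l33987 = true ∧
    allY (E.wth T1) l33988 = true ∧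
    allY (E.wth T1) l33989 = true ∧
    allY (E.wth T1) l33990 = true :=
  ⟨by decide +kernel, by decide +kernel, by decide +kernel, by decide +kernel, by decide +kernel, by decide +kernel, by decide +kernel, by decide +kernel⟩

def t33991 : allY (E.wth T1) l33991 = true ∧
    allY (E.wth T1) l33992 = true ∧
    allY (E.wth T1) l33993 = true ∧
    allY (E.wth T1) l33994 = true ∧
    allY (E.wth T1) l33995 = true ∧
    allY (E.wth T1) l33996 = true ∧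
    allY (E.wth T1) l33997 = true ∧
    allY (E.wth T1) l33998 = true :=
  ⟨by decide +kernel, by decide +kernel, by decide +kernel, by decide +kernel, by decide +kernel, by decide +kernel, by decide +kernel, by decide +kernel⟩

def t33999 : allY (E.wth T1) l33999 = true ∧
    allY (E.wth T1) l34000 = true ∧
    allY (E.wth T1) l34001 = true ∧
    allY (E.wth T1) l34002 = true ∧
    allY (E.wth T1) l34003 = true ∧
    allY (E.wth T1) l34004 = true ∧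
    allY (E.wth T1) l34005 = true ∧
    allY (E.wth T1) l34006 = true :=
  ⟨by decide +kernel, by decide +kernel, by decide +kernel, by decide +kernel, by decide +kernel, by decide +kernel, by decide +kernel, by decide +kernel⟩

def t34007 : allY (E.wth T1) l34007 = true ∧
    allY (E.wth T1) l34008 = true ∧
    allY (E.wth T1) l34009 = true ∧
    allY (E.wth T1) l34010 = true ∧
    allY (E.wth T1) l34011 = true ∧
    allY (E.wth T1) l34012 = true ∧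
    allY (E.wth T1) l34013 = true ∧
    allY (E.wth T1) l34014 = true :=
  ⟨by decide +kernel, by decide +kernel, by decide +kernel, by decide +kernel, by decide +kernel, by decide +kernel, by decide +kernel, by decide +kernel⟩

def t34015 : allY (E.wth T1) l34015 = true ∧
    allY (E.wth T1) l34016 = true ∧
    allY (E.wth T1) l34017 = true ∧
    allY (E.wth T1) l34018 = true ∧
    allY (E.wth T1) l34019 = true ∧
    allY (E.wth T1) l34020 = true ∧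
    allY (E.wth T1) l34021 = true ∧
    allY (E.wth T1) l34022 = true :=
  ⟨by decide +kernel, by decide +kernel, by decide +kernel, by decide +kernel, by decide +kernel, by decide +kernel, by decide +kernel, by decide +kernel⟩

def t34023 : allY (E.wth T1) l34023 = true ∧
    allY (E.wth T1) l34024 = true ∧
    allY (E.wth T1) l34025 = true ∧
    allY (E.wth T1) l34026 = true ∧
    allY (E.wth T1) l34027 = true ∧
    allY (E.wth T1) l34028 = true ∧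
    allY (E.wth T1) l34029 = true ∧
    allY (E.wth T1) l34030 = true :=
  ⟨by decide +kernel, by decide +kernel, by decide +kernel, by decide +kernel, by decide +kernel, by decide +kernel, by decide +kernel, by decide +kernel⟩

def t34031 : allY (E.wth T1) l34031 = true ∧
    allY (E.wth T1) l34032 = true ∧
    allY (E.wth T1) l34033 = true ∧
    allY (E.wth T1) l34034 = true ∧
    allY (E.wth T1) l34035 = true ∧
    allY (E.wth T1) l34036 = true ∧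
    allY (E.wth T1) l34037 = true ∧
    allY (E.wth T1) l34038 = true :=
  ⟨by decide +kernel, by decide +kernel, by decide +kernel, by decide +kernel, by decide +kernel, by decide +kernel, by decide +kernel, by decide +kernel⟩

def t34039 : allY (E.wth T1) l34039 = true ∧
    allY (E.wth T1) l34040 = true ∧
    allY (E.wth T1) l34041 = true ∧
    allY (E.wth T1) l34042 = true ∧
    allY (E.wth T1) l34043 = true ∧
    allY (E.wth T1) l34044 = true ∧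
    allY (E.wth T1) l34045 = true ∧
    allY (E.wth T1) l34046 = true :=
  ⟨by decide +kernel, by decide +kernel, by decide +kernel, by decide +kernel, by decide +kernel, by decide +kernel, by decide +kernel, by decide +kernel⟩

def t34047 : allY (E.wth T1) l34047 = true ∧
    allY (E.wth T1) l34048 = true ∧
    allY (E.wth T1) l34049 = true ∧
    allY (E.wth T1) l34050 = true ∧
    allY (E.wth T1) l34051 = true ∧
    allY (E.wth T1) l34052 = true ∧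
    allY (E.wth T1) l34053 = true ∧
    allY (E.wth T1) l34054 = true :=
  ⟨by decide +kernel, by decide +kernel, by decide +kernel, by decide +kernel, by decide +kernel, by decide +kernel, by decide +kernel, by decide +kernel⟩

def t34055 : allY (E.wth T1) l34055 = true ∧
    allY (E.wth T1) l34056 = true ∧
    allY (E.wth T1) l34057 = true ∧
    allY (E.wth T1) l34058 = true ∧
    allY (E.wth T1) l34059 = true ∧
    allY (E.wth T1) l34060 = true ∧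
    allY (E.wth T1) l34061 = true ∧
    allY (E.wth T1) l34062 = true :=
  ⟨by decide +kernel, by decide +kernel, by decide +kernel, by decide +kernel, by decide +kernel, by decide +kernel, by decide +kernel, by decide +kernel⟩

def t34063 : allY (E.wth T1) l34063 = true ∧
    allY (E.wth T1) l34064 = true ∧
    allY (E.wth T1) l34065 = true ∧
    allY (E.wth T1) l34066 = true ∧
    allY (E.wth T1) l34067 = true ∧
    allY (E.wth T1) l34068 = true ∧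
    allY (E.wth T1) l34069 = true ∧
    allY (E.wth T1) l34070 = true :=
  ⟨by decide +kernel, by decide +kernel, by decide +kernel, by decide +kernel, by decide +kernel, by decide +kernel, by decide +kernel, by decide +kernel⟩

def t34071 : allY (E.wth T1) l34071 = true ∧
    allY (E.wth T1) l34072 = true ∧
    allY (E.wth T1) l34073 = true ∧
    allY (E.wth T1) l34074 = true ∧
    allY (E.wth T1) l34075 = true ∧
    allY (E.wth T1) l34076 = true ∧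
    allY (E.wth T1) l34077 = true ∧
    allY (E.wth T1) l34078 = true :=
  ⟨by decide +kernel, by decide +kernel, by decide +kernel, by decide +kernel, by decide +kernel, by decide +kernel, by decide +kernel, by decide +kernel⟩

def t34079 : allY (E.wth T1) l34079 = true ∧
    allY (E.wth T1) l34080 = true ∧
    allY (E.wth T1) l34081 = true ∧
    allY (E.wth T1) l34082 = true ∧
    allY (E.wth T1) l34083 = true ∧
    allY (E.wth T1) l34084 = true ∧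
    allY (E.wth T1) l34085 = true ∧
    allY (E.wth T1) l34086 = true :=
  ⟨by decide +kernel, by decide +kernel, by decide +kernel, by decide +kernel, by decide +kernel, by decide +kernel, by decide +kernel, by decide +kernel⟩

def t34087 : allY (E.wth T1) l34087 = true ∧
    allY (E.wth T1) l34088 = true ∧
    allY (E.wth T1) l34089 = true ∧
    allY (E.wth T1) l34090 = true ∧
    allY (E.wth T1) l34091 = true ∧
    allY (E.wth T1) l34092 = true ∧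
    allY (E.wth T1) l34093 = true ∧
    allY (E.wth T1) l34094 = true :=
  ⟨by decide +kernel, by decide +kernel, by decide +kernel, by decide +kernel, by decide +kernel, by decide +kernel, by decide +kernel, by decide +kernel⟩

def t34095 : allY (E.wth T1) l34095 = true ∧
    allY (E.wth T1) l34096 = true ∧
    allY (E.wth T1) l34097 = true ∧
    allY (E.wth T1) l34098 = true ∧
    allY (E.wth T1) l34099 = true ∧
    allY (E.wth T1) l34100 = true ∧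
    allY (E.wth T1) l34101 = true ∧
    allY (E.wth T1) l34102 = true :=
  ⟨by decide +kernel, by decide +kernel, by decide +kernel, by decide +kernel, by decide +kernel, by decide +kernel, by decide +kernel, by decide +kernel⟩

def t34103 : allY (E.wth T1) l34103 = true ∧
    allY (E.wth T1) l34104 = true ∧
    allY (E.wth T1) l34105 = true ∧
    allY (E.wth T1) l34106 = true ∧
    allY (E.wth T1) l34107 = true ∧
    allY (E.wth T1) l34108 = true ∧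
    allY (E.wth T1) l34109 = true ∧
    allY (E.wth T1) l34110 = true :=
  ⟨by decide +kernel, by decide +kernel, by decide +kernel, by decide +kernel, by decide +kernel, by decide +kernel, by decide +kernel, by decide +kernel⟩

def t34111 : allY (E.wth T1) l34111 = true ∧
    allY (E.wth T1) l34112 = true ∧
    allY (E.wth T1) l34113 = true ∧
    allY (E.wth T1) l34114 = true ∧
    allY (E.wth T1) l34115 = true ∧
    allY (E.wth T1) l34116 = true ∧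
    allY (E.wth T1) l34117 = true ∧
    allY (E.wth T1) l34118 = true :=
  ⟨by decide +kernel, by decide +kernel, by decide +kernel, by decide +kernel, by decide +kernel, by decide +kernel, by decide +kernel, by decide +kernel⟩

def t34119 : allY (E.wth T1) l34119 = true ∧
    allY (E.wth T1) l34120 = true ∧
    allY (E.wth T1) l34121 = true ∧
    allY (E.wth T1) l34122 = true ∧
    allY (E.wth T1) l34123 = true ∧
    allY (E.wth T1) l34124 = true ∧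
    allY (E.wth T1) l34125 = true ∧
    allY (E.wth T1) l34126 = true :=
  ⟨by decide +kernel, by decide +kernel, by decide +kernel, by decide +kernel, by decide +kernel, by decide +kernel, by decide +kernel, by decide +kernel⟩

def t34127 : allY (E.wth T1) l34127 = true ∧
    allY (E.wth T1) l34128 = true ∧
    allY (E.wth T1) l34129 = true ∧
    allY (E.wth T1) l34130 = true ∧
    allY (E.wth T1) l34131 = true ∧
    allY (E.wth T1) l34132 = true ∧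
    allY (E.wth T1) l34133 = true ∧
    allY (E.wth T1) l34134 = true :=
  ⟨by decide +kernel, by decide +kernel, by decide +kernel, by decide +kernel, by decide +kernel, by decide +kernel, by decide +kernel, by decide +kernel⟩

def t34135 : allY (E.wth T1) l34135 = true ∧
    allY (E.wth T1) l34136 = true ∧
    allY (E.wth T1) l34137 = true ∧
    allY (E.wth T1) l34138 = true ∧
    allY (E.wth T1) l34139 = true ∧
    allY (E.wth T1) l34140 = true ∧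
    allY (E.wth T1) l34141 = true ∧
    allY (E.wth T1) l34142 = true :=
  ⟨by decide +kernel, by decide +kernel, by decide +kernel, by decide +kernel, by decide +kernel, by decide +kernel, by decide +kernel, by decide +kernel⟩

def t34143 : allY (E.wth T1) l34143 = true ∧
    allY (E.wth T1) l34144 = true ∧
    allY (E.wth T1) l34145 = true ∧
    allY (E.wth T1) l34146 = true ∧
    allY (E.wth T1) l34147 = true ∧
    allY (E.wth T1) l34148 = true ∧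
    allY (E.wth T1) l34149 = true ∧
    allY (E.wth T1) l34150 = true :=
  ⟨by decide +kernel, by decide +kernel, by decide +kernel, by decide +kernel, by decide +kernel, by decide +kernel, by decide +kernel, by decide +kernel⟩

def t34151 : allY (E.wth T1) l34151 = true ∧
    allY (E.wth T1) l34152 = true ∧
    allY (E.wth T1) l34153 = true ∧
    allY (E.wth T1) l34154 = true ∧
    allY (E.wth T1) l34155 = true ∧
    allY (E.wth T1) l34156 = true ∧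
    allY (E.wth T1) l34157 = true ∧
    allY (E.wth T1) l34158 = true :=
  ⟨by decide +kernel, by decide +kernel, by decide +kernel, by decide +kernel, by decide +kernel, by decide +kernel, by decide +kernel, by decide +kernel⟩

def t34159 : allY (E.wth T1) l34159 = true ∧
    allY (E.wth T1) l34160 = true ∧
    allY (E.wth T1) l34161 = true ∧
    allY (E.wth T1) l34162 = true ∧
    allY (E.wth T1) l34163 = true ∧
    allY (E.wth T1) l34164 = true ∧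
    allY (E.wth T1) l34165 = true ∧
    allY (E.wth T1) l34166 = true :=
  ⟨by decide +kernel, by decide +kernel, by decide +kernel, by decide +kernel, by decide +kernel, by decide +kernel, by decide +kernel, by decide +kernel⟩

def t34167 : allY (E.wth T1) l34167 = true ∧
    allY (E.wth T1) l34168 = true ∧
    allY (E.wth T1) l34169 = true ∧
    allY (E.wth T1) l34170 = true ∧
    allY (E.wth T1) l34171 = true ∧
    allY (E.wth T1) l34172 = true ∧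
    allY (E.wth T1) l34173 = true ∧
    allY (E.wth T1) l34174 = true :=
  ⟨by decide +kernel, by decide +kernel, by decide +kernel, by decide +kernel, by decide +kernel, by decide +kernel, by decide +kernel, by decide +kernel⟩

def t34175 : allY (E.wth T1) l34175 = true ∧
    allY (E.wth T1) l34176 = true ∧
    allY (E.wth T1) l34177 = true ∧
    allY (E.wth T1) l34178 = true ∧
    allY (E.wth T1) l34179 = true ∧
    allY (E.wth T1) l34180 = true ∧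
    allY (E.wth T1) l34181 = true ∧
    allY (E.wth T1) l34182 = true :=
  ⟨by decide +kernel, by decide +kernel, by decide +kernel, by decide +kernel, by decide +kernel, by decide +kernel, by decide +kernel, by decide +kernel⟩

def t34183 : allY (E.wth T1) l34183 = true ∧
    allY (E.wth T1) l34184 = true ∧
    allY (E.wth T1) l34185 = true ∧
    allY (E.wth T1) l34186 = true ∧
    allY (E.wth T1) l34187 = true ∧
    allY (E.wth T1) l34188 = true ∧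
    allY (E.wth T1) l34189 = true ∧
    allY (E.wth T1) l34190 = true :=
  ⟨by decide +kernel, by decide +kernel, by decide +kernel, by decide +kernel, by decide +kernel, by decide +kernel, by decide +kernel, by decide +kernel⟩

def t34191 : allY (E.wth T1) l34191 = true ∧
    allY (E.wth T1) l34192 = true ∧
    allY (E.wth T1) l34193 = true ∧
    allY (E.wth T1) l34194 = true ∧
    allY (E.wth T1) l34195 = true ∧
    allY (E.wth T1) l34196 = true ∧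
    allY (E.wth T1) l34197 = true ∧
    allY (E.wth T1) l34198 = true :=
  ⟨by decide +kernel, by decide +kernel, by decide +kernel, by decide +kernel, by decide +kernel, by decide +kernel, by decide +kernel, by decide +kernel⟩

def t34199 : allY (E.wth T1) l34199 = true ∧
    allY (E.wth T1) l34200 = true ∧
    allY (E.wth T1) l34201 = true ∧
    allY (E.wth T1) l34202 = true ∧
    allY (E.wth T1) l34203 = true ∧
    allY (E.wth T1) l34204 = true ∧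
    allY (E.wth T1) l34205 = true ∧
    allY (E.wth T1) l34206 = true :=
  ⟨by decide +kernel, by decide +kernel, by decide +kernel, by decide +kernel, by decide +kernel, by decide +kernel, by decide +kernel, by decide +kernel⟩

def t34207 : allY (E.wth T1) l34207 = true ∧
    allY (E.wth T1) l34208 = true ∧
    allY (E.wth T1) l34209 = true ∧
    allY (E.wth T1) l34210 = true ∧
    allY (E.wth T1) l34211 = true ∧
    allY (E.wth T1) l34212 = true ∧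
    allY (E.wth T1) l34213 = true ∧
    allY (E.wth T1) l34214 = true :=
  ⟨by decide +kernel, by decide +kernel, by decide +kernel, by decide +kernel, by decide +kernel, by decide +kernel, by decide +kernel, by decide +kernel⟩

def t34215 : allY (E.wth T1) l34215 = true ∧
    allY (E.wth T1) l34216 = true ∧
    allY (E.wth T1) l34217 = true ∧
    allY (E.wth T1) l34218 = true ∧
    allY (E.wth T1) l34219 = true ∧
    allY (E.wth T1) l34220 = true ∧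
    allY (E.wth T1) l34221 = true ∧
    allY (E.wth T1) l34222 = true :=
  ⟨by decide +kernel, by decide +kernel, by decide +kernel, by decide +kernel, by decide +kernel, by decide +kernel, by decide +kernel, by decide +kernel⟩

def t34223 : allY (E.wth T1) l34223 = true ∧
    allY (E.wth T1) l34224 = true ∧
    allY (E.wth T1) l34225 = true ∧
    allY (E.wth T1) l34226 = true ∧
    allY (E.wth T1) l34227 = true ∧
    allY (E.wth T1) l34228 = true ∧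
    allY (E.wth T1) l34229 = true ∧
    allY (E.wth T1) l34230 = true :=
  ⟨by decide +kernel, by decide +kernel, by decide +kernel, by decide +kernel, by decide +kernel, by decide +kernel, by decide +kernel, by decide +kernel⟩

def t34231 : allY (E.wth T1) l34231 = true ∧
    allY (E.wth T1) l34232 = true ∧
    allY (E.wth T1) l34233 = true ∧
    allY (E.wth T1) l34234 = true ∧
    allY (E.wth T1) l34235 = true ∧
    allY (E.wth T1) l34236 = true ∧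
    allY (E.wth T1) l34237 = true ∧
    allY (E.wth T1) l34238 = true :=
  ⟨by decide +kernel, by decide +kernel, by decide +kernel, by decide +kernel, by decide +kernel, by decide +kernel, by decide +kernel, by decide +kernel⟩

def t34239 : allY (E.wth T1) l34239 = true ∧
    allY (E.wth T1) l34240 = true ∧
    allY (E.wth T1) l34241 = true ∧
    allY (E.wth T1) l34242 = true ∧
    allY (E.wth T1) l34243 = true ∧
    allY (E.wth T1) l34244 = true ∧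
    allY (E.wth T1) l34245 = true ∧
    allY (E.wth T1) l34246 = true :=
  ⟨by decide +kernel, by decide +kernel, by decide +kernel, by decide +kernel, by decide +kernel, by decide +kernel, by decide +kernel, by decide +kernel⟩

def t34247 : allY (E.wth T1) l34247 = true ∧
    allY (E.wth T1) l34248 = true ∧
    allY (E.wth T1) l34249 = true ∧
    allY (E.wth T1) l34250 = true ∧
    allY (E.wth T1) l34251 = true ∧
    allY (E.wth T1) l34252 = true ∧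
    allY (E.wth T1) l34253 = true ∧
    allY (E.wth T1) l34254 = true :=
  ⟨by decide +kernel, by decide +kernel, by decide +kernel, by decide +kernel, by decide +kernel, by decide +kernel, by decide +kernel, by decide +kernel⟩

def t34255 : allY (E.wth T1) l34255 = true ∧
    allY (E.wth T1) l34256 = true ∧
    allY (E.wth T1) l34257 = true ∧
    allY (E.wth T1) l34258 = true ∧
    allY (E.wth T1) l34259 = true ∧
    allY (E.wth T1) l34260 = true ∧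
    allY (E.wth T1) l34261 = true ∧
    allY (E.wth T1) l34262 = true :=
  ⟨by decide +kernel, by decide +kernel, by decide +kernel, by decide +kernel, by decide +kernel, by decide +kernel, by decide +kernel, by decide +kernel⟩

def t34263 : allY (E.wth T1) l34263 = true ∧
    allY (E.wth T1) l34264 = true ∧
    allY (E.wth T1) l34265 = true ∧
    allY (E.wth T1) l34266 = true ∧
    allY (E.wth T1) l34267 = true ∧
    allY (E.wth T1) l34268 = true ∧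
    allY (E.wth T1) l34269 = true ∧
    allY (E.wth T1) l34270 = true :=
  ⟨by decide +kernel, by decide +kernel, by decide +kernel, by decide +kernel, by decide +kernel, by decide +kernel, by decide +kernel, by decide +kernel⟩

def t34271 : allY (E.wth T1) l34271 = true ∧
    allY (E.wth T1) l34272 = true ∧
    allY (E.wth T1) l34273 = true ∧
    allY (E.wth T1) l34274 = true ∧
    allY (E.wth T1) l34275 = true ∧
    allY (E.wth T1) l34276 = true ∧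
    allY (E.wth T1) l34277 = true ∧
    allY (E.wth T1) l34278 = true :=
  ⟨by decide +kernel, by decide +kernel, by decide +kernel, by decide +kernel, by decide +kernel, by decide +kernel, by decide +kernel, by decide +kernel⟩

def t34279 : allY (E.wth T1) l34279 = true ∧
    allY (E.wth T1) l34280 = true ∧
    allY (E.wth T1) l34281 = true ∧
    allY (E.wth T1) l34282 = true ∧
    allY (E.wth T1) l34283 = true ∧
    allY (E.wth T1) l34284 = true ∧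
    allY (E.wth T1) l34285 = true ∧
    allY (E.wth T1) l34286 = true :=
  ⟨by decide +kernel, by decide +kernel, by decide +kernel, by decide +kernel, by decide +kernel, by decide +kernel, by decide +kernel, by decide +kernel⟩

def t34287 : allY (E.wth T1) l34287 = true ∧
    allY (E.wth T1) l34288 = true ∧
    allY (E.wth T1) l34289 = true ∧
    allY (E.wth T1) l34290 = true ∧
    allY (E.wth T1) l34291 = true ∧
    allY (E.wth T1) l34292 = true ∧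
    allY (E.wth T1) l34293 = true ∧
    allY (E.wth T1) l34294 = true :=
  ⟨by decide +kernel, by decide +kernel, by decide +kernel, by decide +kernel, by decide +kernel, by decide +kernel, by decide +kernel, by decide +kernel⟩

def t34295 : allY (E.wth T1) l34295 = true ∧
    allY (E.wth T1) l34296 = true ∧
    allY (E.wth T1) l34297 = true ∧
    allY (E.wth T1) l34298 = true ∧
    allY (E.wth T1) l34299 = true ∧
    allY (E.wth T1) l34300 = true :=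
  ⟨by decide +kernel, by decide +kernel, by decide +kernel, by decide +kernel, by decide +kernel, by decide +kernel⟩

theorem a61 {p : Rf → Prop} (H : ∀ l, allY (E.wth T1) l = true → (lkp l).All p) :
    b61.All p := ⟨⟨⟨⟨⟨⟨⟨⟨⟨H _ t33751.1, H _ t33751.2.1⟩, ⟨H _ t33751.2.2.1, H _ t33751.2.2.2.1⟩⟩, ⟨⟨H _ t33751.2.2.2.2.1, H _ t33751.2.2.2.2.2.1⟩, ⟨H _ t33751.2.2.2.2.2.2.1, H _ t33751.2.2.2.2.2.2.2⟩⟩⟩, ⟨⟨⟨H _ t33759.1, H _ t33759.2.1⟩, ⟨H _ t33759.2.2.1, H _ t33759.2.2.2.1⟩⟩, ⟨⟨H _ t33759.2.2.2.2.1, H _ t33759.2.2.2.2.2.1⟩, ⟨H _ t33759.2.2.2.2.2.2.1, ⟨H _ t33759.2.2.2.2.2.2.2, H _ t33767.1⟩⟩⟩⟩⟩, ⟨⟨⟨⟨H _ t33767.2.1, H _ t33767.2.2.1⟩, ⟨H _ t33767.2.2.2.1, H _ t33767.2.2.2.2.1⟩⟩, ⟨⟨H _ t33767.2.2.2.2.2.1, H _ t33767.2.2.2.2.2.2.1⟩, ⟨H _ t33767.2.2.2.2.2.2.2, H _ t33775.1⟩⟩⟩, ⟨⟨⟨H _ t33775.2.1, H _ t33775.2.2.1⟩, ⟨H _ t33775.2.2.2.1, H _ t33775.2.2.2.2.1⟩⟩, ⟨⟨H _ t33775.2.2.2.2.2.1, H _ t33775.2.2.2.2.2.2.1⟩,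 ⟨H _ t33775.2.2.2.2.2.2.2, ⟨H _ t33783.1, H _ t33783.2.1⟩⟩⟩⟩⟩⟩, ⟨⟨⟨⟨⟨H _ t33783.2.2.1, H _ t33783.2.2.2.1⟩, ⟨H _ t33783.2.2.2.2.1, H _ t33783.2.2.2.2.2.1⟩⟩, ⟨⟨H _ t33783.2.2.2.2.2.2.1, H _ t33783.2.2.2.2.2.2.2⟩, ⟨H _ t33791.1, H _ t33791.2.1⟩⟩⟩, ⟨⟨⟨H _ t33791.2.2.1, H _ t33791.2.2.2.1⟩, ⟨H _ t33791.2.2.2.2.1, H _ t33791.2.2.2.2.2.1⟩⟩, ⟨⟨H _ t33791.2.2.2.2.2.2.1, H _ t33791.2.2.2.2.2.2.2⟩, ⟨H _ t33799.1, ⟨H _ t33799.2.1, H _ t33799.2.2.1⟩⟩⟩⟩⟩, ⟨⟨⟨⟨H _ t33799.2.2.2.1, H _ t33799.2.2.2.2.1⟩, ⟨H _ t33799.2.2.2.2.2.1, H _ t33799.2.2.2.2.2.2.1⟩⟩, ⟨⟨H _ t33799.2.2.2.2.2.2.2, H _ t33807.1⟩, ⟨H _ t33807.2.1, H _ t33807.2.2.1⟩⟩⟩, ⟨⟨⟨H _ t33807.2.2.2.1, H _ t33807.2.2.2.2.1⟩, ⟨H _ t33807.2.2.2.2.2.1, H _ t33807.2.2.2.2.2.2.1⟩⟩, ⟨⟨H _ t33807.2.2.2.2.2.2.2, H _ t33815.1⟩, ⟨H _ t33815.2.1, ⟨H _ t33815.2.2.1, H _ t33815.2.2.2.1⟩⟩⟩⟩⟩⟩⟩, ⟨⟨⟨⟨⟨⟨H _ t33815.2.2.2.2.1, H _ t33815.2.2.2.2.2.1⟩, ⟨H _ t33815.2.2.2.2.2.2.1,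 H _ t33815.2.2.2.2.2.2.2⟩⟩, ⟨⟨H _ t33823.1, H _ t33823.2.1⟩, ⟨H _ t33823.2.2.1, H _ t33823.2.2.2.1⟩⟩⟩, ⟨⟨⟨H _ t33823.2.2.2.2.1, H _ t33823.2.2.2.2.2.1⟩, ⟨H _ t33823.2.2.2.2.2.2.1, H _ t33823.2.2.2.2.2.2.2⟩⟩, ⟨⟨H _ t33831.1, H _ t33831.2.1⟩, ⟨H _ t33831.2.2.1, ⟨H _ t33831.2.2.2.1, H _ t33831.2.2.2.2.1⟩⟩⟩⟩⟩, ⟨⟨⟨⟨H _ t33831.2.2.2.2.2.1, H _ t33831.2.2.2.2.2.2.1⟩, ⟨H _ t33831.2.2.2.2.2.2.2, H _ t33839.1⟩⟩, ⟨⟨H _ t33839.2.1, H _ t33839.2.2.1⟩, ⟨H _ t33839.2.2.2.1, H _ t33839.2.2.2.2.1⟩⟩⟩, ⟨⟨⟨H _ t33839.2.2.2.2.2.1, H _ t33839.2.2.2.2.2.2.1⟩, ⟨H _ t33839.2.2.2.2.2.2.2, H _ t33847.1⟩⟩, ⟨⟨H _ t33847.2.1, H _ t33847.2.2.1⟩, ⟨H _ t33847.2.2.2.1, ⟨H _ t33847.2.2.2.2.1, H _ t33847.2.2.2.2.2.1⟩⟩⟩⟩⟩⟩, ⟨⟨⟨⟨⟨H _ t33847.2.2.2.2.2.2.1, H _ t33847.2.2.2.2.2.2.2⟩, ⟨H _ t33855.1, H _ t33855.2.1⟩⟩, ⟨⟨H _ t33855.2.2.1, H _ t33855.2.2.2.1⟩, ⟨H _ t33855.2.2.2.2.1, H _ t33855.2.2.2.2.2.1⟩⟩⟩, ⟨⟨⟨H _ t33855.2.2.2.2.2.2.1,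 H _ t33855.2.2.2.2.2.2.2⟩, ⟨H _ t33863.1, H _ t33863.2.1⟩⟩, ⟨⟨H _ t33863.2.2.1, H _ t33863.2.2.2.1⟩, ⟨H _ t33863.2.2.2.2.1, ⟨H _ t33863.2.2.2.2.2.1, H _ t33863.2.2.2.2.2.2.1⟩⟩⟩⟩⟩, ⟨⟨⟨⟨H _ t33863.2.2.2.2.2.2.2, H _ t33871.1⟩, ⟨H _ t33871.2.1, H _ t33871.2.2.1⟩⟩, ⟨⟨H _ t33871.2.2.2.1, H _ t33871.2.2.2.2.1⟩, ⟨H _ t33871.2.2.2.2.2.1, ⟨H _ t33871.2.2.2.2.2.2.1, H _ t33871.2.2.2.2.2.2.2⟩⟩⟩⟩, ⟨⟨⟨H _ t33879.1, H _ t33879.2.1⟩, ⟨H _ t33879.2.2.1, H _ t33879.2.2.2.1⟩⟩, ⟨⟨H _ t33879.2.2.2.2.1, H _ t33879.2.2.2.2.2.1⟩, ⟨H _ t33879.2.2.2.2.2.2.1, ⟨H _ t33879.2.2.2.2.2.2.2, H _ t33887.1⟩⟩⟩⟩⟩⟩⟩⟩, ⟨⟨⟨⟨⟨⟨⟨H _ t33887.2.1, H _ t33887.2.2.1⟩, ⟨H _ t33887.2.2.2.1, H _ t33887.2.2.2.2.1⟩⟩, ⟨⟨H _ t33887.2.2.2.2.2.1, H _ t33887.2.2.2.2.2.2.1⟩, ⟨H _ t33887.2.2.2.2.2.2.2, H _ t33895.1⟩⟩⟩, ⟨⟨⟨H _ t33895.2.1, H _ t33895.2.2.1⟩, ⟨H _ t33895.2.2.2.1, H _ t33895.2.2.2.2.1⟩⟩, ⟨⟨H _ t33895.2.2.2.2.2.1, H _ t33895.2.2.2.2.2.2.1⟩,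 ⟨H _ t33895.2.2.2.2.2.2.2, ⟨H _ t33903.1, H _ t33903.2.1⟩⟩⟩⟩⟩, ⟨⟨⟨⟨H _ t33903.2.2.1, H _ t33903.2.2.2.1⟩, ⟨H _ t33903.2.2.2.2.1, H _ t33903.2.2.2.2.2.1⟩⟩, ⟨⟨H _ t33903.2.2.2.2.2.2.1, H _ t33903.2.2.2.2.2.2.2⟩, ⟨H _ t33911.1, H _ t33911.2.1⟩⟩⟩, ⟨⟨⟨H _ t33911.2.2.1, H _ t33911.2.2.2.1⟩, ⟨H _ t33911.2.2.2.2.1, H _ t33911.2.2.2.2.2.1⟩⟩, ⟨⟨H _ t33911.2.2.2.2.2.2.1, H _ t33911.2.2.2.2.2.2.2⟩, ⟨H _ t33919.1, ⟨H _ t33919.2.1, H _ t33919.2.2.1⟩⟩⟩⟩⟩⟩, ⟨⟨⟨⟨⟨H _ t33919.2.2.2.1, H _ t33919.2.2.2.2.1⟩, ⟨H _ t33919.2.2.2.2.2.1, H _ t33919.2.2.2.2.2.2.1⟩⟩, ⟨⟨H _ t33919.2.2.2.2.2.2.2, H _ t33927.1⟩, ⟨H _ t33927.2.1, H _ t33927.2.2.1⟩⟩⟩, ⟨⟨⟨H _ t33927.2.2.2.1, H _ t33927.2.2.2.2.1⟩, ⟨H _ t33927.2.2.2.2.2.1, H _ t33927.2.2.2.2.2.2.1⟩⟩, ⟨⟨H _ t33927.2.2.2.2.2.2.2, H _ t33935.1⟩, ⟨H _ t33935.2.1, ⟨H _ t33935.2.2.1, H _ t33935.2.2.2.1⟩⟩⟩⟩⟩, ⟨⟨⟨⟨H _ t33935.2.2.2.2.1, H _ t33935.2.2.2.2.2.1⟩, ⟨H _ t33935.2.2.2.2.2.2.1,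 H _ t33935.2.2.2.2.2.2.2⟩⟩, ⟨⟨H _ t33943.1, H _ t33943.2.1⟩, ⟨H _ t33943.2.2.1, ⟨H _ t33943.2.2.2.1, H _ t33943.2.2.2.2.1⟩⟩⟩⟩, ⟨⟨⟨H _ t33943.2.2.2.2.2.1, H _ t33943.2.2.2.2.2.2.1⟩, ⟨H _ t33943.2.2.2.2.2.2.2, H _ t33951.1⟩⟩, ⟨⟨H _ t33951.2.1, H _ t33951.2.2.1⟩, ⟨H _ t33951.2.2.2.1, ⟨H _ t33951.2.2.2.2.1, H _ t33951.2.2.2.2.2.1⟩⟩⟩⟩⟩⟩⟩, ⟨⟨⟨⟨⟨⟨H _ t33951.2.2.2.2.2.2.1, H _ t33951.2.2.2.2.2.2.2⟩, ⟨H _ t33959.1, H _ t33959.2.1⟩⟩, ⟨⟨H _ t33959.2.2.1, H _ t33959.2.2.2.1⟩, ⟨H _ t33959.2.2.2.2.1, H _ t33959.2.2.2.2.2.1⟩⟩⟩, ⟨⟨⟨H _ t33959.2.2.2.2.2.2.1, H _ t33959.2.2.2.2.2.2.2⟩, ⟨H _ t33967.1, H _ t33967.2.1⟩⟩, ⟨⟨H _ t33967.2.2.1, H _ t33967.2.2.2.1⟩, ⟨H _ t33967.2.2.2.2.1, ⟨H _ t33967.2.2.2.2.2.1, H _ t33967.2.2.2.2.2.2.1⟩⟩⟩⟩⟩, ⟨⟨⟨⟨H _ t33967.2.2.2.2.2.2.2, H _ t33975.1⟩, ⟨H _ t33975.2.1, H _ t33975.2.2.1⟩⟩, ⟨⟨H _ t33975.2.2.2.1, H _ t33975.2.2.2.2.1⟩, ⟨H _ t33975.2.2.2.2.2.1, H _ t33975.2.2.2.2.2.2.1⟩⟩⟩,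 ⟨⟨⟨H _ t33975.2.2.2.2.2.2.2, H _ t33983.1⟩, ⟨H _ t33983.2.1, H _ t33983.2.2.1⟩⟩, ⟨⟨H _ t33983.2.2.2.1, H _ t33983.2.2.2.2.1⟩, ⟨H _ t33983.2.2.2.2.2.1, ⟨H _ t33983.2.2.2.2.2.2.1, H _ t33983.2.2.2.2.2.2.2⟩⟩⟩⟩⟩⟩, ⟨⟨⟨⟨⟨H _ t33991.1, H _ t33991.2.1⟩, ⟨H _ t33991.2.2.1, H _ t33991.2.2.2.1⟩⟩, ⟨⟨H _ t33991.2.2.2.2.1, H _ t33991.2.2.2.2.2.1⟩, ⟨H _ t33991.2.2.2.2.2.2.1, H _ t33991.2.2.2.2.2.2.2⟩⟩⟩, ⟨⟨⟨H _ t33999.1, H _ t33999.2.1⟩, ⟨H _ t33999.2.2.1, H _ t33999.2.2.2.1⟩⟩, ⟨⟨H _ t33999.2.2.2.2.1, H _ t33999.2.2.2.2.2.1⟩, ⟨H _ t33999.2.2.2.2.2.2.1, ⟨H _ t33999.2.2.2.2.2.2.2, H _ t34007.1⟩⟩⟩⟩⟩, ⟨⟨⟨⟨H _ t34007.2.1, H _ t34007.2.2.1⟩, ⟨H _ t34007.2.2.2.1, H _ t34007.2.2.2.2.1⟩⟩, ⟨⟨H _ t34007.2.2.2.2.2.1, H _ t34007.2.2.2.2.2.2.1⟩, ⟨H _ t34007.2.2.2.2.2.2.2, ⟨H _ t34015.1, H _ t34015.2.1⟩⟩⟩⟩, ⟨⟨⟨H _ t34015.2.2.1, H _ t34015.2.2.2.1⟩, ⟨H _ t34015.2.2.2.2.1, H _ t34015.2.2.2.2.2.1⟩⟩, ⟨⟨H _ t34015.2.2.2.2.2.2.1,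 H _ t34015.2.2.2.2.2.2.2⟩, ⟨H _ t34023.1, ⟨H _ t34023.2.1, H _ t34023.2.2.1⟩⟩⟩⟩⟩⟩⟩⟩⟩, ⟨⟨⟨⟨⟨⟨⟨⟨H _ t34023.2.2.2.1, H _ t34023.2.2.2.2.1⟩, ⟨H _ t34023.2.2.2.2.2.1, H _ t34023.2.2.2.2.2.2.1⟩⟩, ⟨⟨H _ t34023.2.2.2.2.2.2.2, H _ t34031.1⟩, ⟨H _ t34031.2.1, H _ t34031.2.2.1⟩⟩⟩, ⟨⟨⟨H _ t34031.2.2.2.1, H _ t34031.2.2.2.2.1⟩, ⟨H _ t34031.2.2.2.2.2.1, H _ t34031.2.2.2.2.2.2.1⟩⟩, ⟨⟨H _ t34031.2.2.2.2.2.2.2, H _ t34039.1⟩, ⟨H _ t34039.2.1, ⟨H _ t34039.2.2.1, H _ t34039.2.2.2.1⟩⟩⟩⟩⟩, ⟨⟨⟨⟨H _ t34039.2.2.2.2.1, H _ t34039.2.2.2.2.2.1⟩, ⟨H _ t34039.2.2.2.2.2.2.1, H _ t34039.2.2.2.2.2.2.2⟩⟩, ⟨⟨H _ t34047.1, H _ t34047.2.1⟩, ⟨H _ t34047.2.2.1, H _ t34047.2.2.2.1⟩⟩⟩, ⟨⟨⟨H _ t34047.2.2.2.2.1, H _ t34047.2.2.2.2.2.1⟩, ⟨H _ t34047.2.2.2.2.2.2.1, H _ t34047.2.2.2.2.2.2.2⟩⟩, ⟨⟨H _ t34055.1, H _ t34055.2.1⟩, ⟨H _ t34055.2.2.1, ⟨H _ t34055.2.2.2.1, H _ t34055.2.2.2.2.1⟩⟩⟩⟩⟩⟩, ⟨⟨⟨⟨⟨H _ t34055.2.2.2.2.2.1, H _ t34055.2.2.2.2.2.2.1⟩,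 ⟨H _ t34055.2.2.2.2.2.2.2, H _ t34063.1⟩⟩, ⟨⟨H _ t34063.2.1, H _ t34063.2.2.1⟩, ⟨H _ t34063.2.2.2.1, H _ t34063.2.2.2.2.1⟩⟩⟩, ⟨⟨⟨H _ t34063.2.2.2.2.2.1, H _ t34063.2.2.2.2.2.2.1⟩, ⟨H _ t34063.2.2.2.2.2.2.2, H _ t34071.1⟩⟩, ⟨⟨H _ t34071.2.1, H _ t34071.2.2.1⟩, ⟨H _ t34071.2.2.2.1, ⟨H _ t34071.2.2.2.2.1, H _ t34071.2.2.2.2.2.1⟩⟩⟩⟩⟩, ⟨⟨⟨⟨H _ t34071.2.2.2.2.2.2.1, H _ t34071.2.2.2.2.2.2.2⟩, ⟨H _ t34079.1, H _ t34079.2.1⟩⟩, ⟨⟨H _ t34079.2.2.1, H _ t34079.2.2.2.1⟩, ⟨H _ t34079.2.2.2.2.1, H _ t34079.2.2.2.2.2.1⟩⟩⟩, ⟨⟨⟨H _ t34079.2.2.2.2.2.2.1, H _ t34079.2.2.2.2.2.2.2⟩, ⟨H _ t34087.1, H _ t34087.2.1⟩⟩, ⟨⟨H _ t34087.2.2.1, H _ t34087.2.2.2.1⟩, ⟨H _ t34087.2.2.2.2.1, ⟨H _ t34087.2.2.2.2.2.1, H _ t34087.2.2.2.2.2.2.1⟩⟩⟩⟩⟩⟩⟩, ⟨⟨⟨⟨⟨⟨H _ t34087.2.2.2.2.2.2.2, H _ t34095.1⟩, ⟨H _ t34095.2.1, H _ t34095.2.2.1⟩⟩, ⟨⟨H _ t34095.2.2.2.1, H _ t34095.2.2.2.2.1⟩, ⟨H _ t34095.2.2.2.2.2.1, H _ t34095.2.2.2.2.2.2.1⟩⟩⟩,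 ⟨⟨⟨H _ t34095.2.2.2.2.2.2.2, H _ t34103.1⟩, ⟨H _ t34103.2.1, H _ t34103.2.2.1⟩⟩, ⟨⟨H _ t34103.2.2.2.1, H _ t34103.2.2.2.2.1⟩, ⟨H _ t34103.2.2.2.2.2.1, ⟨H _ t34103.2.2.2.2.2.2.1, H _ t34103.2.2.2.2.2.2.2⟩⟩⟩⟩⟩, ⟨⟨⟨⟨H _ t34111.1, H _ t34111.2.1⟩, ⟨H _ t34111.2.2.1, H _ t34111.2.2.2.1⟩⟩, ⟨⟨H _ t34111.2.2.2.2.1, H _ t34111.2.2.2.2.2.1⟩, ⟨H _ t34111.2.2.2.2.2.2.1, H _ t34111.2.2.2.2.2.2.2⟩⟩⟩, ⟨⟨⟨H _ t34119.1, H _ t34119.2.1⟩, ⟨H _ t34119.2.2.1, H _ t34119.2.2.2.1⟩⟩, ⟨⟨H _ t34119.2.2.2.2.1, H _ t34119.2.2.2.2.2.1⟩, ⟨H _ t34119.2.2.2.2.2.2.1, ⟨H _ t34119.2.2.2.2.2.2.2, H _ t34127.1⟩⟩⟩⟩⟩⟩, ⟨⟨⟨⟨⟨H _ t34127.2.1, H _ t34127.2.2.1⟩, ⟨H _ t34127.2.2.2.1, H _ t34127.2.2.2.2.1⟩⟩, ⟨⟨H _ t34127.2.2.2.2.2.1, H _ t34127.2.2.2.2.2.2.1⟩, ⟨H _ t34127.2.2.2.2.2.2.2, H _ t34135.1⟩⟩⟩, ⟨⟨⟨H _ t34135.2.1, H _ t34135.2.2.1⟩, ⟨H _ t34135.2.2.2.1, H _ t34135.2.2.2.2.1⟩⟩, ⟨⟨H _ t34135.2.2.2.2.2.1, H _ t34135.2.2.2.2.2.2.1⟩,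 ⟨H _ t34135.2.2.2.2.2.2.2, ⟨H _ t34143.1, H _ t34143.2.1⟩⟩⟩⟩⟩, ⟨⟨⟨⟨H _ t34143.2.2.1, H _ t34143.2.2.2.1⟩, ⟨H _ t34143.2.2.2.2.1, H _ t34143.2.2.2.2.2.1⟩⟩, ⟨⟨H _ t34143.2.2.2.2.2.2.1, H _ t34143.2.2.2.2.2.2.2⟩, ⟨H _ t34151.1, ⟨H _ t34151.2.1, H _ t34151.2.2.1⟩⟩⟩⟩, ⟨⟨⟨H _ t34151.2.2.2.1, H _ t34151.2.2.2.2.1⟩, ⟨H _ t34151.2.2.2.2.2.1, H _ t34151.2.2.2.2.2.2.1⟩⟩, ⟨⟨H _ t34151.2.2.2.2.2.2.2, H _ t34159.1⟩, ⟨H _ t34159.2.1, ⟨H _ t34159.2.2.1, H _ t34159.2.2.2.1⟩⟩⟩⟩⟩⟩⟩⟩, ⟨⟨⟨⟨⟨⟨⟨H _ t34159.2.2.2.2.1, H _ t34159.2.2.2.2.2.1⟩, ⟨H _ t34159.2.2.2.2.2.2.1, H _ t34159.2.2.2.2.2.2.2⟩⟩, ⟨⟨H _ t34167.1, H _ t34167.2.1⟩, ⟨H _ t34167.2.2.1, H _ t34167.2.2.2.1⟩⟩⟩, ⟨⟨⟨H _ t34167.2.2.2.2.1, H _ t34167.2.2.2.2.2.1⟩, ⟨H _ t34167.2.2.2.2.2.2.1, H _ t34167.2.2.2.2.2.2.2⟩⟩, ⟨⟨H _ t34175.1, H _ t34175.2.1⟩, ⟨H _ t34175.2.2.1, ⟨H _ t34175.2.2.2.1, H _ t34175.2.2.2.2.1⟩⟩⟩⟩⟩, ⟨⟨⟨⟨H _ t34175.2.2.2.2.2.1, H _ t34175.2.2.2.2.2.2.1⟩,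 ⟨H _ t34175.2.2.2.2.2.2.2, H _ t34183.1⟩⟩, ⟨⟨H _ t34183.2.1, H _ t34183.2.2.1⟩, ⟨H _ t34183.2.2.2.1, H _ t34183.2.2.2.2.1⟩⟩⟩, ⟨⟨⟨H _ t34183.2.2.2.2.2.1, H _ t34183.2.2.2.2.2.2.1⟩, ⟨H _ t34183.2.2.2.2.2.2.2, H _ t34191.1⟩⟩, ⟨⟨H _ t34191.2.1, H _ t34191.2.2.1⟩, ⟨H _ t34191.2.2.2.1, ⟨H _ t34191.2.2.2.2.1, H _ t34191.2.2.2.2.2.1⟩⟩⟩⟩⟩⟩, ⟨⟨⟨⟨⟨H _ t34191.2.2.2.2.2.2.1, H _ t34191.2.2.2.2.2.2.2⟩, ⟨H _ t34199.1, H _ t34199.2.1⟩⟩, ⟨⟨H _ t34199.2.2.1, H _ t34199.2.2.2.1⟩, ⟨H _ t34199.2.2.2.2.1, H _ t34199.2.2.2.2.2.1⟩⟩⟩, ⟨⟨⟨H _ t34199.2.2.2.2.2.2.1, H _ t34199.2.2.2.2.2.2.2⟩, ⟨H _ t34207.1, H _ t34207.2.1⟩⟩, ⟨⟨H _ t34207.2.2.1, H _ t34207.2.2.2.1⟩, ⟨H _ t34207.2.2.2.2.1, ⟨H _ t34207.2.2.2.2.2.1, H _ t34207.2.2.2.2.2.2.1⟩⟩⟩⟩⟩, ⟨⟨⟨⟨H _ t34207.2.2.2.2.2.2.2, H _ t34215.1⟩, ⟨H _ t34215.2.1, H _ t34215.2.2.1⟩⟩, ⟨⟨H _ t34215.2.2.2.1, H _ t34215.2.2.2.2.1⟩, ⟨H _ t34215.2.2.2.2.2.1, ⟨H _ t34215.2.2.2.2.2.2.1, H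 _ t34215.2.2.2.2.2.2.2⟩⟩⟩⟩, ⟨⟨⟨H _ t34223.1, H _ t34223.2.1⟩, ⟨H _ t34223.2.2.1, H _ t34223.2.2.2.1⟩⟩, ⟨⟨H _ t34223.2.2.2.2.1, H _ t34223.2.2.2.2.2.1⟩, ⟨H _ t34223.2.2.2.2.2.2.1, ⟨H _ t34223.2.2.2.2.2.2.2, H _ t34231.1⟩⟩⟩⟩⟩⟩⟩, ⟨⟨⟨⟨⟨⟨H _ t34231.2.1, H _ t34231.2.2.1⟩, ⟨H _ t34231.2.2.2.1, H _ t34231.2.2.2.2.1⟩⟩, ⟨⟨H _ t34231.2.2.2.2.2.1, H _ t34231.2.2.2.2.2.2.1⟩, ⟨H _ t34231.2.2.2.2.2.2.2, H _ t34239.1⟩⟩⟩, ⟨⟨⟨H _ t34239.2.1, H _ t34239.2.2.1⟩, ⟨H _ t34239.2.2.2.1, H _ t34239.2.2.2.2.1⟩⟩, ⟨⟨H _ t34239.2.2.2.2.2.1, H _ t34239.2.2.2.2.2.2.1⟩, ⟨H _ t34239.2.2.2.2.2.2.2, ⟨H _ t34247.1, H _ t34247.2.1⟩⟩⟩⟩⟩, ⟨⟨⟨⟨H _ t34247.2.2.1, H _ t34247.2.2.2.1⟩, ⟨H _ t34247.2.2.2.2.1, H _ t34247.2.2.2.2.2.1⟩⟩, ⟨⟨H _ t34247.2.2.2.2.2.2.1, H _ t34247.2.2.2.2.2.2.2⟩, ⟨H _ t34255.1, H _ t34255.2.1⟩⟩⟩, ⟨⟨⟨H _ t34255.2.2.1, H _ t34255.2.2.2.1⟩, ⟨H _ t34255.2.2.2.2.1, H _ t34255.2.2.2.2.2.1⟩⟩, ⟨⟨H _ t34255.2.2.2.2.2.2.1,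 H _ t34255.2.2.2.2.2.2.2⟩, ⟨H _ t34263.1, ⟨H _ t34263.2.1, H _ t34263.2.2.1⟩⟩⟩⟩⟩⟩, ⟨⟨⟨⟨⟨H _ t34263.2.2.2.1, H _ t34263.2.2.2.2.1⟩, ⟨H _ t34263.2.2.2.2.2.1, H _ t34263.2.2.2.2.2.2.1⟩⟩, ⟨⟨H _ t34263.2.2.2.2.2.2.2, H _ t34271.1⟩, ⟨H _ t34271.2.1, H _ t34271.2.2.1⟩⟩⟩, ⟨⟨⟨H _ t34271.2.2.2.1, H _ t34271.2.2.2.2.1⟩, ⟨H _ t34271.2.2.2.2.2.1, H _ t34271.2.2.2.2.2.2.1⟩⟩, ⟨⟨H _ t34271.2.2.2.2.2.2.2, H _ t34279.1⟩, ⟨H _ t34279.2.1, ⟨H _ t34279.2.2.1, H _ t34279.2.2.2.1⟩⟩⟩⟩⟩, ⟨⟨⟨⟨H _ t34279.2.2.2.2.1, H _ t34279.2.2.2.2.2.1⟩, ⟨H _ t34279.2.2.2.2.2.2.1, H _ t34279.2.2.2.2.2.2.2⟩⟩, ⟨⟨H _ t34287.1, H _ t34287.2.1⟩, ⟨H _ t34287.2.2.1, ⟨H _ t34287.2.2.2.1, H _ t34287.2.2.2.2.1⟩⟩⟩⟩, ⟨⟨⟨H _ t34287.2.2.2.2.2.1, H _ t34287.2.2.2.2.2.2.1⟩, ⟨H _ t34287.2.2.2.2.2.2.2, H _ t34295.1⟩⟩, ⟨⟨H _ t34295.2.1, H _ t34295.2.2.1⟩, ⟨H _ t34295.2.2.2.1, ⟨H _ t34295.2.2.2.2.1, H _ t34295.2.2.2.2.2⟩⟩⟩⟩⟩⟩⟩⟩⟩⟩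

end Pool.Agent.MP_c853c5_nt.X.C4950
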