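import Pool.Agent.MP_c853c5_nt.X.C4950.Env
import Pool.Agent.MP_c853c5_nt.X.C4950.Tab

set_option autoImplicit false
set_option maxRecDepth 8192
set_option linter.all false

namespace Pool.Agent.MP_c853c5_nt.X.C4950

open Pool.Agent.MP_c853c5_nt.X

def t34301 : allY (E.wth T1) l34301 = true ∧
    allY (E.wth T1) l34302 = true ∧
    allY (E.wth T1) l34303 = true ∧
    allY (E.wth T1) l34304 = true ∧
    allY (E.wth T1) l34305 = true ∧
    allY (E.wth T1) l34306 = true ∧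
    allY (E.wth T1) l34307 = true ∧
    allY (E.wth T1) l34308 = true :=
  ⟨by decide +kernel, by decide +kernel, by decide +kernel, by decide +kernel, by decide +kernel, by decide +kernel, by decide +kernel, by decide +kernel⟩

def t34309 : allY (E.wth T1) l34309 = true ∧
    allY (E.wth T1) l34310 = true ∧
    allY (E.wth T1) l34311 = true ∧
    allY (E.wth T1) l34312 = true ∧
    allY (E.wth T1) l34313 = true ∧
    allY (E.wth T1) l34314 = true ∧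
    allY (E.wth T1) l34315 = true ∧
    allY (E.wth T1) l34316 = true :=
  ⟨by decide +kernel, by decide +kernel, by decide +kernel, by decide +kernel, by decide +kernel, by decide +kernel, by decide +kernel, by decide +kernel⟩

def t34317 : allY (E.wth T1) l34317 = true ∧
    allY (E.wth T1) l34318 = true ∧
    allY (E.wth T1) l34319 = true ∧
    allY (E.wth T1) l34320 = true ∧
    allY (E.wth T1) l34321 = true ∧
    allY (E.wth T1) l34322 = true ∧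
    allY (E.wth T1) l34323 = true ∧
    allY (E.wth T1) l34324 = true :=
  ⟨by decide +kernel, by decide +kernel, by decide +kernel, by decide +kernel, by decide +kernel, by decide +kernel, by decide +kernel, by decide +kernel⟩

def t34325 : allY (E.wth T1) l34325 = true ∧
    allY (E.wth T1) l34326 = true ∧
    allY (E.wth T1) l34327 = true ∧
    allY (E.wth T1) l34328 = true ∧
    allY (E.wth T1) l34329 = true ∧
    allY (E.wth T1) l34330 = true ∧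
    allY (E.wth T1) l34331 = true ∧
    allY (E.wth T1) l34332 = true :=
  ⟨by decide +kernel, by decide +kernel, by decide +kernel, by decide +kernel, by decide +kernel, by decide +kernel, by decide +kernel, by decide +kernel⟩

def t34333 : allY (E.wth T1) l34333 = true ∧
    allY (E.wth T1) l34334 = true ∧
    allY (E.wth T1) l34335 = true ∧
    allY (E.wth T1) l34336 = true ∧
    allY (E.wth T1) l34337 = true ∧
    allY (E.wth T1) l34338 = true ∧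
    allY (E.wth T1) l34339 = true ∧
    allY (E.wth T1) l34340 = true :=
  ⟨by decide +kernel, by decide +kernel, by decide +kernel, by decide +kernel, by decide +kernel, by decide +kernel, by decide +kernel, by decide +kernel⟩

def t34341 : allY (E.wth T1) l34341 = true ∧
    allY (E.wth T1) l34342 = true ∧
    allY (E.wth T1) l34343 = true ∧
    allY (E.wth T1) l34344 = true ∧
    allY (E.wth T1) l34345 = true ∧
    allY (E.wth T1) l34346 = true ∧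
    allY (E.wth T1) l34347 = true ∧
    allY (E.wth T1) l34348 = true :=
  ⟨by decide +kernel, by decide +kernel, by decide +kernel, by decide +kernel, by decide +kernel, by decide +kernel, by decide +kernel, by decide +kernel⟩

def t34349 : allY (E.wth T1) l34349 = true ∧
    allY (E.wth T1) l34350 = true ∧
    allY (E.wth T1) l34351 = true ∧
    allY (E.wth T1) l34352 = true ∧
    allY (E.wth T1) l34353 = true ∧
    allY (E.wth T1) l34354 = true ∧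
    allY (E.wth T1) l34355 = true ∧
    allY (E.wth T1) l34356 = true :=
  ⟨by decide +kernel, by decide +kernel, by decide +kernel, by decide +kernel, by decide +kernel, by decide +kernel, by decide +kernel, by decide +kernel⟩

def t34357 : allY (E.wth T1) l34357 = true ∧
    allY (E.wth T1) l34358 = true ∧
    allY (E.wth T1) l34359 = true ∧
    allY (E.wth T1) l34360 = true ∧
    allY (E.wth T1) l34361 = true ∧
    allY (E.wth T1) l34362 = true ∧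
    allY (E.wth T1) l34363 = true ∧
    allY (E.wth T1) l34364 = true :=
  ⟨by decide +kernel, by decide +kernel, by decide +kernel, by decide +kernel, by decide +kernel, by decide +kernel, by decide +kernel, by decide +kernel⟩

def t34365 : allY (E.wth T1) l34365 = true ∧
    allY (E.wth T1) l34366 = true ∧
    allY (E.wth T1) l34367 = true ∧
    allY (E.wth T1) l34368 = true ∧
    allY (E.wth T1) l34369 = true ∧
    allY (E.wth T1) l34370 = true ∧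
    allY (E.wth T1) l34371 = true ∧
    allY (E.wth T1) l34372 = true :=
  ⟨by decide +kernel, by decide +kernel, by decide +kernel, by decide +kernel, by decide +kernel, by decide +kernel, by decide +kernel, by decide +kernel⟩

def t34373 : allY (E.wth T1) l34373 = true ∧
    allY (E.wth T1) l34374 = true ∧
    allY (E.wth T1) l34375 = true ∧
    allY (E.wth T1) l34376 = true ∧
    allY (E.wth T1) l34377 = true ∧
    allY (E.wth T1) l34378 = true ∧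
    allY (E.wth T1) l34379 = true ∧
    allY (E.wth T1) l34380 = true :=
  ⟨by decide +kernel, by decide +kernel, by decide +kernel, by decide +kernel, by decide +kernel, by decide +kernel, by decide +kernel, by decide +kernel⟩

def t34381 : allY (E.wth T1) l34381 = true ∧
    allY (E.wth T1) l34382 = true ∧
    allY (E.wth T1) l34383 = true ∧
    allY (E.wth T1) l34384 = true ∧
    allY (E.wth T1) l34385 = true ∧
    allY (E.wth T1) l34386 = true ∧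
    allY (E.wth T1) l34387 = true ∧
    allY (E.wth T1) l34388 = true :=
  ⟨by decide +kernel, by decide +kernel, by decide +kernel, by decide +kernel, by decide +kernel, by decide +kernel, by decide +kernel, by decide +kernel⟩

def t34389 : allY (E.wth T1) l34389 = true ∧
    allY (E.wth T1) l34390 = true ∧
    allY (E.wth T1) l34391 = true ∧
    allY (E.wth T1) l34392 = true ∧
    allY (E.wth T1) l34393 = true ∧
    allY (E.wth T1) l34394 = true ∧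
    allY (E.wth T1) l34395 = true ∧
    allY (E.wth T1) l34396 = true :=
  ⟨by decide +kernel, by decide +kernel, by decide +kernel, by decide +kernel, by decide +kernel, by decide +kernel, by decide +kernel, by decide +kernel⟩

def t34397 : allY (E.wth T1) l34397 = true ∧
    allY (E.wth T1) l34398 = true ∧
    allY (E.wth T1) l34399 = true ∧
    allY (E.wth T1) l34400 = true ∧
    allY (E.wth T1) l34401 = true ∧
    allY (E.wth T1) l34402 = true ∧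
    allY (E.wth T1) l34403 = true ∧
    allY (E.wth T1) l34404 = true :=
  ⟨by decide +kernel, by decide +kernel, by decide +kernel, by decide +kernel, by decide +kernel, by decide +kernel, by decide +kernel, by decide +kernel⟩

def t34405 : allY (E.wth T1) l34405 = true ∧
    allY (E.wth T1) l34406 = true ∧
    allY (E.wth T1) l34407 = true ∧
    allY (E.wth T1) l34408 = true ∧
    allY (E.wth T1) l34409 = true ∧
    allY (E.wth T1) l34410 = true ∧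
    allY (E.wth T1) l34411 = true ∧
    allY (E.wth T1) l34412 = true :=
  ⟨by decide +kernel, by decide +kernel, by decide +kernel, by decide +kernel, by decide +kernel, by decide +kernel, by decide +kernel, by decide +kernel⟩

def t34413 : allY (E.wth T1) l34413 = true ∧
    allY (E.wth T1) l34414 = true ∧
    allY (E.wth T1) l34415 = true ∧
    allY (E.wth T1) l34416 = true ∧
    allY (E.wth T1) l34417 = true ∧
    allY (E.wth T1) l34418 = true ∧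
    allY (E.wth T1) l34419 = true ∧
    allY (E.wth T1) l34420 = true :=
  ⟨by decide +kernel, by decide +kernel, by decide +kernel, by decide +kernel, by decide +kernel, by decide +kernel, by decide +kernel, by decide +kernel⟩

def t34421 : allY (E.wth T1) l34421 = true ∧
    allY (E.wth T1) l34422 = true ∧
    allY (E.wth T1) l34423 = true ∧
    allY (E.wth T1) l34424 = true ∧
    allY (E.wth T1) l34425 = true ∧
    allY (E.wth T1) l34426 = true ∧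
    allY (E.wth T1) l34427 = true ∧
    allY (E.wth T1) l34428 = true :=
  ⟨by decide +kernel, by decide +kernel, by decide +kernel, by decide +kernel, by decide +kernel, by decide +kernel, by decide +kernel, by decide +kernel⟩

def t34429 : allY (E.wth T1) l34429 = true ∧
    allY (E.wth T1) l34430 = true ∧
    allY (E.wth T1) l34431 = true ∧
    allY (E.wth T1) l34432 = true ∧
    allY (E.wth T1) l34433 = true ∧
    allY (E.wth T1) l34434 = true ∧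
    allY (E.wth T1) l34435 = true ∧
    allY (E.wth T1) l34436 = true :=
  ⟨by decide +kernel, by decide +kernel, by decide +kernel, by decide +kernel, by decide +kernel, by decide +kernel, by decide +kernel, by decide +kernel⟩

def t34437 : allY (E.wth T1) l34437 = true ∧
    allY (E.wth T1) l34438 = true ∧
    allY (E.wth T1) l34439 = true ∧
    allY (E.wth T1) l34440 = true ∧
    allY (E.wth T1) l34441 = true ∧
    allY (E.wth T1) l34442 = true ∧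
    allY (E.wth T1) l34443 = true ∧
    allY (E.wth T1) l34444 = true :=
  ⟨by decide +kernel, by decide +kernel, by decide +kernel, by decide +kernel, by decide +kernel, by decide +kernel, by decide +kernel, by decide +kernel⟩

def t34445 : allY (E.wth T1) l34445 = true ∧
    allY (E.wth T1) l34446 = true ∧
    allY (E.wth T1) l34447 = true ∧
    allY (E.wth T1) l34448 = true ∧
    allY (E.wth T1) l34449 = true ∧
    allY (E.wth T1) l34450 = true ∧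
    allY (E.wth T1) l34451 = true ∧
    allY (E.wth T1) l34452 = true :=
  ⟨by decide +kernel, by decide +kernel, by decide +kernel, by decide +kernel, by decide +kernel, by decide +kernel, by decide +kernel, by decide +kernel⟩

def t34453 : allY (E.wth T1) l34453 = true ∧
    allY (E.wth T1) l34454 = true ∧
    allY (E.wth T1) l34455 = true ∧
    allY (E.wth T1) l34456 = true ∧
    allY (E.wth T1) l34457 = true ∧
    allY (E.wth T1) l34458 = true ∧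
    allY (E.wth T1) l34459 = true ∧
    allY (E.wth T1) l34460 = true :=
  ⟨by decide +kernel, by decide +kernel, by decide +kernel, by decide +kernel, by decide +kernel, by decide +kernel, by decide +kernel, by decide +kernel⟩

def t34461 : allY (E.wth T1) l34461 = true ∧
    allY (E.wth T1) l34462 = true ∧
    allY (E.wth T1) l34463 = true ∧
    allY (E.wth T1) l34464 = true ∧
    allY (E.wth T1) l34465 = true ∧
    allY (E.wth T1) l34466 = true ∧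
    allY (E.wth T1) l34467 = true ∧
    allY (E.wth T1) l34468 = true :=
  ⟨by decide +kernel, by decide +kernel, by decide +kernel, by decide +kernel, by decide +kernel, by decide +kernel, by decide +kernel, by decide +kernel⟩

def t34469 : allY (E.wth T1) l34469 = true ∧
    allY (E.wth T1) l34470 = true ∧
    allY (E.wth T1) l34471 = true ∧
    allY (E.wth T1) l34472 = true ∧
    allY (E.wth T1) l34473 = true ∧
    allY (E.wth T1) l34474 = true ∧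
    allY (E.wth T1) l34475 = true ∧
    allY (E.wth T1) l34476 = true :=
  ⟨by decide +kernel, by decide +kernel, by decide +kernel, by decide +kernel, by decide +kernel, by decide +kernel, by decide +kernel, by decide +kernel⟩

def t34477 : allY (E.wth T1) l34477 = true ∧
    allY (E.wth T1) l34478 = true ∧
    allY (E.wth T1) l34479 = true ∧
    allY (E.wth T1) l34480 = true ∧
    allY (E.wth T1) l34481 = true ∧
    allY (E.wth T1) l34482 = true ∧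
    allY (E.wth T1) l34483 = true ∧
    allY (E.wth T1) l34484 = true :=
  ⟨by decide +kernel, by decide +kernel, by decide +kernel, by decide +kernel, by decide +kernel, by decide +kernel, by decide +kernel, by decide +kernel⟩

def t34485 : allY (E.wth T1) l34485 = true ∧
    allY (E.wth T1) l34486 = true ∧
    allY (E.wth T1) l34487 = true ∧
    allY (E.wth T1) l34488 = true ∧
    allY (E.wth T1) l34489 = true ∧
    allY (E.wth T1) l34490 = true ∧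
    allY (E.wth T1) l34491 = true ∧
    allY (E.wth T1) l34492 = true :=
  ⟨by decide +kernel, by decide +kernel, by decide +kernel, by decide +kernel, by decide +kernel, by decide +kernel, by decide +kernel, by decide +kernel⟩

def t34493 : allY (E.wth T1) l34493 = true ∧
    allY (E.wth T1) l34494 = true ∧
    allY (E.wth T1) l34495 = true ∧
    allY (E.wth T1) l34496 = true ∧
    allY (E.wth T1) l34497 = true ∧
    allY (E.wth T1) l34498 = true ∧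
    allY (E.wth T1) l34499 = true ∧
    allY (E.wth T1) l34500 = true :=
  ⟨by decide +kernel, by decide +kernel, by decide +kernel, by decide +kernel, by decide +kernel, by decide +kernel, by decide +kernel, by decide +kernel⟩

def t34501 : allY (E.wth T1) l34501 = true ∧
    allY (E.wth T1) l34502 = true ∧
    allY (E.wth T1) l34503 = true ∧
    allY (E.wth T1) l34504 = true ∧
    allY (E.wth T1) l34505 = true ∧
    allY (E.wth T1) l34506 = true ∧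
    allY (E.wth T1) l34507 = true ∧
    allY (E.wth T1) l34508 = true :=
  ⟨by decide +kernel, by decide +kernel, by decide +kernel, by decide +kernel, by decide +kernel, by decide +kernel, by decide +kernel, by decide +kernel⟩

def t34509 : allY (E.wth T1) l34509 = true ∧
    allY (E.wth T1) l34510 = true ∧
    allY (E.wth T1) l34511 = true ∧
    allY (E.wth T1) l34512 = true ∧
    allY (E.wth T1) l34513 = true ∧
    allY (E.wth T1) l34514 = true ∧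
    allY (E.wth T1) l34515 = true ∧
    allY (E.wth T1) l34516 = true :=
  ⟨by decide +kernel, by decide +kernel, by decide +kernel, by decide +kernel, by decide +kernel, by decide +kernel, by decide +kernel, by decide +kernel⟩

def t34517 : allY (E.wth T1) l34517 = true ∧
    allY (E.wth T1) l34518 = true ∧
    allY (E.wth T1) l34519 = true ∧
    allY (E.wth T1) l34520 = true ∧
    allY (E.wth T1) l34521 = true ∧
    allY (E.wth T1) l34522 = true ∧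
    allY (E.wth T1) l34523 = true ∧
    allY (E.wth T1) l34524 = true :=
  ⟨by decide +kernel, by decide +kernel, by decide +kernel, by decide +kernel, by decide +kernel, by decide +kernel, by decide +kernel, by decide +kernel⟩

def t34525 : allY (E.wth T1) l34525 = true ∧
    allY (E.wth T1) l34526 = true ∧
    allY (E.wth T1) l34527 = true ∧
    allY (E.wth T1) l34528 = true ∧
    allY (E.wth T1) l34529 = true ∧
    allY (E.wth T1) l34530 = true ∧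
    allY (E.wth T1) l34531 = true ∧
    allY (E.wth T1) l34532 = true :=
  ⟨by decide +kernel, by decide +kernel, by decide +kernel, by decide +kernel, by decide +kernel, by decide +kernel, by decide +kernel, by decide +kernel⟩

def t34533 : allY (E.wth T1) l34533 = true ∧
    allY (E.wth T1) l34534 = true ∧
    allY (E.wth T1) l34535 = true ∧
    allY (E.wth T1) l34536 = true ∧
    allY (E.wth T1) l34537 = true ∧
    allY (E.wth T1) l34538 = true ∧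
    allY (E.wth T1) l34539 = true ∧
    allY (E.wth T1) l34540 = true :=
  ⟨by decide +kernel, by decide +kernel, by decide +kernel, by decide +kernel, by decide +kernel, by decide +kernel, by decide +kernel, by decide +kernel⟩

def t34541 : allY (E.wth T1) l34541 = true ∧
    allY (E.wth T1) l34542 = true ∧
    allY (E.wth T1) l34543 = true ∧
    allY (E.wth T1) l34544 = true ∧
    allY (E.wth T1) l34545 = true ∧
    allY (E.wth T1) l34546 = true ∧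
    allY (E.wth T1) l34547 = true ∧
    allY (E.wth T1) l34548 = true :=
  ⟨by decide +kernel, by decide +kernel, by decide +kernel, by decide +kernel, by decide +kernel, by decide +kernel, by decide +kernel, by decide +kernel⟩

def t34549 : allY (E.wth T1) l34549 = true ∧
    allY (E.wth T1) l34550 = true ∧
    allY (E.wth T1) l34551 = true ∧
    allY (E.wth T1) l34552 = true ∧
    allY (E.wth T1) l34553 = true ∧
    allY (E.wth T1) l34554 = true ∧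
    allY (E.wth T1) l34555 = true ∧
    allY (E.wth T1) l34556 = true :=
  ⟨by decide +kernel, by decide +kernel, by decide +kernel, by decide +kernel, by decide +kernel, by decide +kernel, by decide +kernel, by decide +kernel⟩

def t34557 : allY (E.wth T1) l34557 = true ∧
    allY (E.wth T1) l34558 = true ∧
    allY (E.wth T1) l34559 = true ∧
    allY (E.wth T1) l34560 = true ∧
    allY (E.wth T1) l34561 = true ∧
    allY (E.wth T1) l34562 = true ∧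
    allY (E.wth T1) l34563 = true ∧
    allY (E.wth T1) l34564 = true :=
  ⟨by decide +kernel, by decide +kernel, by decide +kernel, by decide +kernel, by decide +kernel, by decide +kernel, by decide +kernel, by decide +kernel⟩

def t34565 : allY (E.wth T1) l34565 = true ∧
    allY (E.wth T1) l34566 = true ∧
    allY (E.wth T1) l34567 = true ∧
    allY (E.wth T1) l34568 = true ∧
    allY (E.wth T1) l34569 = true ∧
    allY (E.wth T1) l34570 = true ∧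
    allY (E.wth T1) l34571 = true ∧
    allY (E.wth T1) l34572 = true :=
  ⟨by decide +kernel, by decide +kernel, by decide +kernel, by decide +kernel, by decide +kernel, by decide +kernel, by decide +kernel, by decide +kernel⟩

def t34573 : allY (E.wth T1) l34573 = true ∧
    allY (E.wth T1) l34574 = true ∧
    allY (E.wth T1) l34575 = true ∧
    allY (E.wth T1) l34576 = true ∧
    allY (E.wth T1) l34577 = true ∧
    allY (E.wth T1) l34578 = true ∧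
    allY (E.wth T1) l34579 = true ∧
    allY (E.wth T1) l34580 = true :=
  ⟨by decide +kernel, by decide +kernel, by decide +kernel, by decide +kernel, by decide +kernel, by decide +kernel, by decide +kernel, by decide +kernel⟩

def t34581 : allY (E.wth T1) l34581 = true ∧
    allY (E.wth T1) l34582 = true ∧
    allY (E.wth T1) l34583 = true ∧
    allY (E.wth T1) l34584 = true ∧
    allY (E.wth T1) l34585 = true ∧
    allY (E.wth T1) l34586 = true ∧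
    allY (E.wth T1) l34587 = true ∧
    allY (E.wth T1) l34588 = true :=
  ⟨by decide +kernel, by decide +kernel, by decide +kernel, by decide +kernel, by decide +kernel, by decide +kernel, by decide +kernel, by decide +kernel⟩

def t34589 : allY (E.wth T1) l34589 = true ∧
    allY (E.wth T1) l34590 = true ∧
    allY (E.wth T1) l34591 = true ∧
    allY (E.wth T1) l34592 = true ∧
    allY (E.wth T1) l34593 = true ∧
    allY (E.wth T1) l34594 = true ∧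
    allY (E.wth T1) l34595 = true ∧
    allY (E.wth T1) l34596 = true :=
  ⟨by decide +kernel, by decide +kernel, by decide +kernel, by decide +kernel, by decide +kernel, by decide +kernel, by decide +kernel, by decide +kernel⟩

def t34597 : allY (E.wth T1) l34597 = true ∧
    allY (E.wth T1) l34598 = true ∧
    allY (E.wth T1) l34599 = true ∧
    allY (E.wth T1) l34600 = true ∧
    allY (E.wth T1) l34601 = true ∧
    allY (E.wth T1) l34602 = true ∧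
    allY (E.wth T1) l34603 = true ∧
    allY (E.wth T1) l34604 = true :=
  ⟨by decide +kernel, by decide +kernel, by decide +kernel, by decide +kernel, by decide +kernel, by decide +kernel, by decide +kernel, by decide +kernel⟩

def t34605 : allY (E.wth T1) l34605 = true ∧
    allY (E.wth T1) l34606 = true ∧
    allY (E.wth T1) l34607 = true ∧
    allY (E.wth T1) l34608 = true ∧
    allY (E.wth T1) l34609 = true ∧
    allY (E.wth T1) l34610 = true ∧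
    allY (E.wth T1) l34611 = true ∧
    allY (E.wth T1) l34612 = true :=
  ⟨by decide +kernel, by decide +kernel, by decide +kernel, by decide +kernel, by decide +kernel, by decide +kernel, by decide +kernel, by decide +kernel⟩

def t34613 : allY (E.wth T1) l34613 = true ∧
    allY (E.wth T1) l34614 = true ∧
    allY (E.wth T1) l34615 = true ∧
    allY (E.wth T1) l34616 = true ∧
    allY (E.wth T1) l34617 = true ∧
    allY (E.wth T1) l34618 = true ∧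
    allY (E.wth T1) l34619 = true ∧
    allY (E.wth T1) l34620 = true :=
  ⟨by decide +kernel, by decide +kernel, by decide +kernel, by decide +kernel, by decide +kernel, by decide +kernel, by decide +kernel, by decide +kernel⟩

def t34621 : allY (E.wth T1) l34621 = true ∧
    allY (E.wth T1) l34622 = true ∧
    allY (E.wth T1) l34623 = true ∧
    allY (E.wth T1) l34624 = true ∧
    allY (E.wth T1) l34625 = true ∧
    allY (E.wth T1) l34626 = true ∧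
    allY (E.wth T1) l34627 = true ∧
    allY (E.wth T1) l34628 = true :=
  ⟨by decide +kernel, by decide +kernel, by decide +kernel, by decide +kernel, by decide +kernel, by decide +kernel, by decide +kernel, by decide +kernel⟩

def t34629 : allY (E.wth T1) l34629 = true ∧
    allY (E.wth T1) l34630 = true ∧
    allY (E.wth T1) l34631 = true ∧
    allY (E.wth T1) l34632 = true ∧
    allY (E.wth T1) l34633 = true ∧
    allY (E.wth T1) l34634 = true ∧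
    allY (E.wth T1) l34635 = true ∧
    allY (E.wth T1) l34636 = true :=
  ⟨by decide +kernel, by decide +kernel, by decide +kernel, by decide +kernel, by decide +kernel, by decide +kernel, by decide +kernel, by decide +kernel⟩

def t34637 : allY (E.wth T1) l34637 = true ∧
    allY (E.wth T1) l34638 = true ∧
    allY (E.wth T1) l34639 = true ∧
    allY (E.wth T1) l34640 = true ∧
    allY (E.wth T1) l34641 = true ∧
    allY (E.wth T1) l34642 = true ∧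
    allY (E.wth T1) l34643 = true ∧
    allY (E.wth T1) l34644 = true :=
  ⟨by decide +kernel, by decide +kernel, by decide +kernel, by decide +kernel, by decide +kernel, by decide +kernel, by decide +kernel, by decide +kernel⟩

def t34645 : allY (E.wth T1) l34645 = true ∧
    allY (E.wth T1) l34646 = true ∧
    allY (E.wth T1) l34647 = true ∧
    allY (E.wth T1) l34648 = true ∧
    allY (E.wth T1) l34649 = true ∧
    allY (E.wth T1) l34650 = true ∧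
    allY (E.wth T1) l34651 = true ∧
    allY (E.wth T1) l34652 = true :=
  ⟨by decide +kernel, by decide +kernel, by decide +kernel, by decide +kernel, by decide +kernel, by decide +kernel, by decide +kernel, by decide +kernel⟩

def t34653 : allY (E.wth T1) l34653 = true ∧
    allY (E.wth T1) l34654 = true ∧
    allY (E.wth T1) l34655 = true ∧
    allY (E.wth T1) l34656 = true ∧
    allY (E.wth T1) l34657 = true ∧
    allY (E.wth T1) l34658 = true ∧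
    allY (E.wth T1) l34659 = true ∧
    allY (E.wth T1) l34660 = true :=
  ⟨by decide +kernel, by decide +kernel, by decide +kernel, by decide +kernel, by decide +kernel, by decide +kernel, by decide +kernel, by decide +kernel⟩

def t34661 : allY (E.wth T1) l34661 = true ∧
    allY (E.wth T1) l34662 = true ∧
    allY (E.wth T1) l34663 = true ∧
    allY (E.wth T1) l34664 = true ∧
    allY (E.wth T1) l34665 = true ∧
    allY (E.wth T1) l34666 = true ∧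
    allY (E.wth T1) l34667 = true ∧
    allY (E.wth T1) l34668 = true :=
  ⟨by decide +kernel, by decide +kernel, by decide +kernel, by decide +kernel, by decide +kernel, by decide +kernel, by decide +kernel, by decide +kernel⟩

def t34669 : allY (E.wth T1) l34669 = true ∧
    allY (E.wth T1) l34670 = true ∧
    allY (E.wth T1) l34671 = true ∧
    allY (E.wth T1) l34672 = true ∧
    allY (E.wth T1) l34673 = true ∧
    allY (E.wth T1) l34674 = true ∧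
    allY (E.wth T1) l34675 = true ∧
    allY (E.wth T1) l34676 = true :=
  ⟨by decide +kernel, by decide +kernel, by decide +kernel, by decide +kernel, by decide +kernel, by decide +kernel, by decide +kernel, by decide +kernel⟩

def t34677 : allY (E.wth T1) l34677 = true ∧
    allY (E.wth T1) l34678 = true ∧
    allY (E.wth T1) l34679 = true ∧
    allY (E.wth T1) l34680 = true ∧
    allY (E.wth T1) l34681 = true ∧
    allY (E.wth T1) l34682 = true ∧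
    allY (E.wth T1) l34683 = true ∧
    allY (E.wth T1) l34684 = true :=
  ⟨by decide +kernel, by decide +kernel, by decide +kernel, by decide +kernel, by decide +kernel, by decide +kernel, by decide +kernel, by decide +kernel⟩

def t34685 : allY (E.wth T1) l34685 = true ∧
    allY (E.wth T1) l34686 = true ∧
    allY (E.wth T1) l34687 = true ∧
    allY (E.wth T1) l34688 = true ∧
    allY (E.wth T1) l34689 = true ∧
    allY (E.wth T1) l34690 = true ∧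
    allY (E.wth T1) l34691 = true ∧
    allY (E.wth T1) l34692 = true :=
  ⟨by decide +kernel, by decide +kernel, by decide +kernel, by decide +kernel, by decide +kernel, by decide +kernel, by decide +kernel, by decide +kernel⟩

def t34693 : allY (E.wth T1) l34693 = true ∧
    allY (E.wth T1) l34694 = true ∧
    allY (E.wth T1) l34695 = true ∧
    allY (E.wth T1) l34696 = true ∧
    allY (E.wth T1) l34697 = true ∧
    allY (E.wth T1) l34698 = true ∧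
    allY (E.wth T1) l34699 = true ∧
    allY (E.wth T1) l34700 = true :=
  ⟨by decide +kernel, by decide +kernel, by decide +kernel, by decide +kernel, by decide +kernel, by decide +kernel, by decide +kernel, by decide +kernel⟩

def t34701 : allY (E.wth T1) l34701 = true ∧
    allY (E.wth T1) l34702 = true ∧
    allY (E.wth T1) l34703 = true ∧
    allY (E.wth T1) l34704 = true ∧
    allY (E.wth T1) l34705 = true ∧
    allY (E.wth T1) l34706 = true ∧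
    allY (E.wth T1) l34707 = true ∧
    allY (E.wth T1) l34708 = true :=
  ⟨by decide +kernel, by decide +kernel, by decide +kernel, by decide +kernel, by decide +kernel, by decide +kernel, by decide +kernel, by decide +kernel⟩

def t34709 : allY (E.wth T1) l34709 = true ∧
    allY (E.wth T1) l34710 = true ∧
    allY (E.wth T1) l34711 = true ∧
    allY (E.wth T1) l34712 = true ∧
    allY (E.wth T1) l34713 = true ∧
    allY (E.wth T1) l34714 = true ∧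
    allY (E.wth T1) l34715 = true ∧
    allY (E.wth T1) l34716 = true :=
  ⟨by decide +kernel, by decide +kernel, by decide +kernel, by decide +kernel, by decide +kernel, by decide +kernel, by decide +kernel, by decide +kernel⟩

def t34717 : allY (E.wth T1) l34717 = true ∧
    allY (E.wth T1) l34718 = true ∧
    allY (E.wth T1) l34719 = true ∧
    allY (E.wth T1) l34720 = true ∧
    allY (E.wth T1) l34721 = true ∧
    allY (E.wth T1) l34722 = true ∧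
    allY (E.wth T1) l34723 = true ∧
    allY (E.wth T1) l34724 = true :=
  ⟨by decide +kernel, by decide +kernel, by decide +kernel, by decide +kernel, by decide +kernel, by decide +kernel, by decide +kernel, by decide +kernel⟩

def t34725 : allY (E.wth T1) l34725 = true ∧
    allY (E.wth T1) l34726 = true ∧
    allY (E.wth T1) l34727 = true ∧
    allY (E.wth T1) l34728 = true ∧
    allY (E.wth T1) l34729 = true ∧
    allY (E.wth T1) l34730 = true ∧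
    allY (E.wth T1) l34731 = true ∧
    allY (E.wth T1) l34732 = true :=
  ⟨by decide +kernel, by decide +kernel, by decide +kernel, by decide +kernel, by decide +kernel, by decide +kernel, by decide +kernel, by decide +kernel⟩

def t34733 : allY (E.wth T1) l34733 = true ∧
    allY (E.wth T1) l34734 = true ∧
    allY (E.wth T1) l34735 = true ∧
    allY (E.wth T1) l34736 = true ∧
    allY (E.wth T1) l34737 = true ∧
    allY (E.wth T1) l34738 = true ∧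
    allY (E.wth T1) l34739 = true ∧
    allY (E.wth T1) l34740 = true :=
  ⟨by decide +kernel, by decide +kernel, by decide +kernel, by decide +kernel, by decide +kernel, by decide +kernel, by decide +kernel, by decide +kernel⟩

def t34741 : allY (E.wth T1) l34741 = true ∧
    allY (E.wth T1) l34742 = true ∧
    allY (E.wth T1) l34743 = true ∧
    allY (E.wth T1) l34744 = true ∧
    allY (E.wth T1) l34745 = true ∧
    allY (E.wth T1) l34746 = true ∧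
    allY (E.wth T1) l34747 = true ∧
    allY (E.wth T1) l34748 = true :=
  ⟨by decide +kernel, by decide +kernel, by decide +kernel, by decide +kernel, by decide +kernel, by decide +kernel, by decide +kernel, by decide +kernel⟩

def t34749 : allY (E.wth T1) l34749 = true ∧
    allY (E.wth T1) l34750 = true ∧
    allY (E.wth T1) l34751 = true ∧
    allY (E.wth T1) l34752 = true ∧
    allY (E.wth T1) l34753 = true ∧
    allY (E.wth T1) l34754 = true ∧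
    allY (E.wth T1) l34755 = true ∧
    allY (E.wth T1) l34756 = true :=
  ⟨by decide +kernel, by decide +kernel, by decide +kernel, by decide +kernel, by decide +kernel, by decide +kernel, by decide +kernel, by decide +kernel⟩

def t34757 : allY (E.wth T1) l34757 = true ∧
    allY (E.wth T1) l34758 = true ∧
    allY (E.wth T1) l34759 = true ∧
    allY (E.wth T1) l34760 = true ∧
    allY (E.wth T1) l34761 = true ∧
    allY (E.wth T1) l34762 = true ∧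
    allY (E.wth T1) l34763 = true ∧
    allY (E.wth T1) l34764 = true :=
  ⟨by decide +kernel, by decide +kernel, by decide +kernel, by decide +kernel, by decide +kernel, by decide +kernel, by decide +kernel, by decide +kernel⟩

def t34765 : allY (E.wth T1) l34765 = true ∧
    allY (E.wth T1) l34766 = true ∧
    allY (E.wth T1) l34767 = true ∧
    allY (E.wth T1) l34768 = true ∧
    allY (E.wth T1) l34769 = true ∧
    allY (E.wth T1) l34770 = true ∧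
    allY (E.wth T1) l34771 = true ∧
    allY (E.wth T1) l34772 = true :=
  ⟨by decide +kernel, by decide +kernel, by decide +kernel, by decide +kernel, by decide +kernel, by decide +kernel, by decide +kernel, by decide +kernel⟩

def t34773 : allY (E.wth T1) l34773 = true ∧
    allY (E.wth T1) l34774 = true ∧
    allY (E.wth T1) l34775 = true ∧
    allY (E.wth T1) l34776 = true ∧
    allY (E.wth T1) l34777 = true ∧
    allY (E.wth T1) l34778 = true ∧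
    allY (E.wth T1) l34779 = true ∧
    allY (E.wth T1) l34780 = true :=
  ⟨by decide +kernel, by decide +kernel, by decide +kernel, by decide +kernel, by decide +kernel, by decide +kernel, by decide +kernel, by decide +kernel⟩

def t34781 : allY (E.wth T1) l34781 = true ∧
    allY (E.wth T1) l34782 = true ∧
    allY (E.wth T1) l34783 = true ∧
    allY (E.wth T1) l34784 = true ∧
    allY (E.wth T1) l34785 = true ∧
    allY (E.wth T1) l34786 = true ∧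
    allY (E.wth T1) l34787 = true ∧
    allY (E.wth T1) l34788 = true :=
  ⟨by decide +kernel, by decide +kernel, by decide +kernel, by decide +kernel, by decide +kernel, by decide +kernel, by decide +kernel, by decide +kernel⟩

def t34789 : allY (E.wth T1) l34789 = true ∧
    allY (E.wth T1) l34790 = true ∧
    allY (E.wth T1) l34791 = true ∧
    allY (E.wth T1) l34792 = true ∧
    allY (E.wth T1) l34793 = true ∧
    allY (E.wth T1) l34794 = true ∧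
    allY (E.wth T1) l34795 = true ∧
    allY (E.wth T1) l34796 = true :=
  ⟨by decide +kernel, by decide +kernel, by decide +kernel, by decide +kernel, by decide +kernel, by decide +kernel, by decide +kernel, by decide +kernel⟩

def t34797 : allY (E.wth T1) l34797 = true ∧
    allY (E.wth T1) l34798 = true ∧
    allY (E.wth T1) l34799 = true ∧
    allY (E.wth T1) l34800 = true ∧
    allY (E.wth T1) l34801 = true ∧
    allY (E.wth T1) l34802 = true ∧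
    allY (E.wth T1) l34803 = true ∧
    allY (E.wth T1) l34804 = true :=
  ⟨by decide +kernel, by decide +kernel, by decide +kernel, by decide +kernel, by decide +kernel, by decide +kernel, by decide +kernel, by decide +kernel⟩

def t34805 : allY (E.wth T1) l34805 = true ∧
    allY (E.wth T1) l34806 = true ∧
    allY (E.wth T1) l34807 = true ∧
    allY (E.wth T1) l34808 = true ∧
    allY (E.wth T1) l34809 = true ∧
    allY (E.wth T1) l34810 = true ∧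
    allY (E.wth T1) l34811 = true ∧
    allY (E.wth T1) l34812 = true :=
  ⟨by decide +kernel, by decide +kernel, by decide +kernel, by decide +kernel, by decide +kernel, by decide +kernel, by decide +kernel, by decide +kernel⟩

def t34813 : allY (E.wth T1) l34813 = true ∧
    allY (E.wth T1) l34814 = true ∧
    allY (E.wth T1) l34815 = true ∧
    allY (E.wth T1) l34816 = true ∧
    allY (E.wth T1) l34817 = true ∧
    allY (E.wth T1) l34818 = true ∧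
    allY (E.wth T1) l34819 = true ∧
    allY (E.wth T1) l34820 = true :=
  ⟨by decide +kernel, by decide +kernel, by decide +kernel, by decide +kernel, by decide +kernel, by decide +kernel, by decide +kernel, by decide +kernel⟩

def t34821 : allY (E.wth T1) l34821 = true ∧
    allY (E.wth T1) l34822 = true ∧
    allY (E.wth T1) l34823 = true ∧
    allY (E.wth T1) l34824 = true ∧
    allY (E.wth T1) l34825 = true ∧
    allY (E.wth T1) l34826 = true ∧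
    allY (E.wth T1) l34827 = true ∧
    allY (E.wth T1) l34828 = true :=
  ⟨by decide +kernel, by decide +kernel, by decide +kernel, by decide +kernel, by decide +kernel, by decide +kernel, by decide +kernel, by decide +kernel⟩

def t34829 : allY (E.wth T1) l34829 = true ∧
    allY (E.wth T1) l34830 = true ∧
    allY (E.wth T1) l34831 = true ∧
    allY (E.wth T1) l34832 = true ∧
    allY (E.wth T1) l34833 = true ∧
    allY (E.wth T1) l34834 = true ∧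
    allY (E.wth T1) l34835 = true ∧
    allY (E.wth T1) l34836 = true :=
  ⟨by decide +kernel, by decide +kernel, by decide +kernel, by decide +kernel, by decide +kernel, by decide +kernel, by decide +kernel, by decide +kernel⟩

def t34837 : allY (E.wth T1) l34837 = true :=
  by decide +kernel

theorem a62 {p : Rf → Prop} (H : ∀ l, allY (E.wth T1) l = true → (lkp l).All p) :
    b62.All p := ⟨⟨⟨⟨⟨⟨⟨⟨⟨H _ t34301.1, H _ t34301.2.1⟩, ⟨H _ t34301.2.2.1, H _ t34301.2.2.2.1⟩⟩, ⟨⟨H _ t34301.2.2.2.2.1, H _ t34301.2.2.2.2.2.1⟩, ⟨H _ t34301.2.2.2.2.2.2.1, H _ t34301.2.2.2.2.2.2.2⟩⟩⟩, ⟨⟨⟨H _ t34309.1, H _ t34309.2.1⟩, ⟨H _ t34309.2.2.1, H _ t34309.2.2.2.1⟩⟩, ⟨⟨H _ t34309.2.2.2.2.1, H _ t34309.2.2.2.2.2.1⟩, ⟨H _ t34309.2.2.2.2.2.2.1, H _ t34309.2.2.2.2.2.2.2⟩⟩⟩⟩, ⟨⟨⟨⟨H _ t34317.1, H _ t34317.2.1⟩, ⟨H _ t34317.2.2.1, H _ t34317.2.2.2.1⟩⟩, ⟨⟨H _ t34317.2.2.2.2.1, H _ t34317.2.2.2.2.2.1⟩, ⟨H _ t34317.2.2.2.2.2.2.1,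 H _ t34317.2.2.2.2.2.2.2⟩⟩⟩, ⟨⟨⟨H _ t34325.1, H _ t34325.2.1⟩, ⟨H _ t34325.2.2.1, H _ t34325.2.2.2.1⟩⟩, ⟨⟨H _ t34325.2.2.2.2.1, H _ t34325.2.2.2.2.2.1⟩, ⟨H _ t34325.2.2.2.2.2.2.1, ⟨H _ t34325.2.2.2.2.2.2.2, H _ t34333.1⟩⟩⟩⟩⟩⟩, ⟨⟨⟨⟨⟨H _ t34333.2.1, H _ t34333.2.2.1⟩, ⟨H _ t34333.2.2.2.1, H _ t34333.2.2.2.2.1⟩⟩, ⟨⟨H _ t34333.2.2.2.2.2.1, H _ t34333.2.2.2.2.2.2.1⟩, ⟨H _ t34333.2.2.2.2.2.2.2, H _ t34341.1⟩⟩⟩, ⟨⟨⟨H _ t34341.2.1, H _ t34341.2.2.1⟩, ⟨H _ t34341.2.2.2.1, H _ t34341.2.2.2.2.1⟩⟩, ⟨⟨H _ t34341.2.2.2.2.2.1, H _ t34341.2.2.2.2.2.2.1⟩, ⟨H _ t34341.2.2.2.2.2.2.2, ⟨H _ t34349.1, H _ t34349.2.1⟩⟩⟩⟩⟩, ⟨⟨⟨⟨H _ t34349.2.2.1, H _ t34349.2.2.2.1⟩, ⟨H _ t34349.2.2.2.2.1, H _ t34349.2.2.2.2.2.1⟩⟩, ⟨⟨H _ t34349.2.2.2.2.2.2.1, H _ t34349.2.2.2.2.2.2.2⟩, ⟨H _ t34357.1, H _ t34357.2.1⟩⟩⟩, ⟨⟨⟨H _ t34357.2.2.1, H _ t34357.2.2.2.1⟩, ⟨H _ t34357.2.2.2.2.1, H _ t34357.2.2.2.2.2.1⟩⟩, ⟨⟨H _ t34357.2.2.2.2.2.2.1,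 H _ t34357.2.2.2.2.2.2.2⟩, ⟨H _ t34365.1, ⟨H _ t34365.2.1, H _ t34365.2.2.1⟩⟩⟩⟩⟩⟩⟩, ⟨⟨⟨⟨⟨⟨H _ t34365.2.2.2.1, H _ t34365.2.2.2.2.1⟩, ⟨H _ t34365.2.2.2.2.2.1, H _ t34365.2.2.2.2.2.2.1⟩⟩, ⟨⟨H _ t34365.2.2.2.2.2.2.2, H _ t34373.1⟩, ⟨H _ t34373.2.1, H _ t34373.2.2.1⟩⟩⟩, ⟨⟨⟨H _ t34373.2.2.2.1, H _ t34373.2.2.2.2.1⟩, ⟨H _ t34373.2.2.2.2.2.1, H _ t34373.2.2.2.2.2.2.1⟩⟩, ⟨⟨H _ t34373.2.2.2.2.2.2.2, H _ t34381.1⟩, ⟨H _ t34381.2.1, H _ t34381.2.2.1⟩⟩⟩⟩, ⟨⟨⟨⟨H _ t34381.2.2.2.1, H _ t34381.2.2.2.2.1⟩, ⟨H _ t34381.2.2.2.2.2.1, H _ t34381.2.2.2.2.2.2.1⟩⟩, ⟨⟨H _ t34381.2.2.2.2.2.2.2, H _ t34389.1⟩, ⟨H _ t34389.2.1, H _ t34389.2.2.1⟩⟩⟩, ⟨⟨⟨H _ t34389.2.2.2.1, H _ t34389.2.2.2.2.1⟩, ⟨H _ t34389.2.2.2.2.2.1, H _ t34389.2.2.2.2.2.2.1⟩⟩, ⟨⟨H _ t34389.2.2.2.2.2.2.2, H _ t34397.1⟩, ⟨H _ t34397.2.1, ⟨H _ t34397.2.2.1, H _ t34397.2.2.2.1⟩⟩⟩⟩⟩⟩, ⟨⟨⟨⟨⟨H _ t34397.2.2.2.2.1, H _ t34397.2.2.2.2.2.1⟩, ⟨H _ t34397.2.2.2.2.2.2.1,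 H _ t34397.2.2.2.2.2.2.2⟩⟩, ⟨⟨H _ t34405.1, H _ t34405.2.1⟩, ⟨H _ t34405.2.2.1, H _ t34405.2.2.2.1⟩⟩⟩, ⟨⟨⟨H _ t34405.2.2.2.2.1, H _ t34405.2.2.2.2.2.1⟩, ⟨H _ t34405.2.2.2.2.2.2.1, H _ t34405.2.2.2.2.2.2.2⟩⟩, ⟨⟨H _ t34413.1, H _ t34413.2.1⟩, ⟨H _ t34413.2.2.1, ⟨H _ t34413.2.2.2.1, H _ t34413.2.2.2.2.1⟩⟩⟩⟩⟩, ⟨⟨⟨⟨H _ t34413.2.2.2.2.2.1, H _ t34413.2.2.2.2.2.2.1⟩, ⟨H _ t34413.2.2.2.2.2.2.2, H _ t34421.1⟩⟩, ⟨⟨H _ t34421.2.1, H _ t34421.2.2.1⟩, ⟨H _ t34421.2.2.2.1, H _ t34421.2.2.2.2.1⟩⟩⟩, ⟨⟨⟨H _ t34421.2.2.2.2.2.1, H _ t34421.2.2.2.2.2.2.1⟩, ⟨H _ t34421.2.2.2.2.2.2.2, H _ t34429.1⟩⟩, ⟨⟨H _ t34429.2.1, H _ t34429.2.2.1⟩, ⟨H _ t34429.2.2.2.1, ⟨H _ t34429.2.2.2.2.1, H _ t34429.2.2.2.2.2.1⟩⟩⟩⟩⟩⟩⟩⟩, ⟨⟨⟨⟨⟨⟨⟨H _ t34429.2.2.2.2.2.2.1, H _ t34429.2.2.2.2.2.2.2⟩, ⟨H _ t34437.1, H _ t34437.2.1⟩⟩, ⟨⟨H _ t34437.2.2.1, H _ t34437.2.2.2.1⟩, ⟨H _ t34437.2.2.2.2.1, H _ t34437.2.2.2.2.2.1⟩⟩⟩, ⟨⟨⟨H _ t34437.2.2.2.2.2.2.1,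 H _ t34437.2.2.2.2.2.2.2⟩, ⟨H _ t34445.1, H _ t34445.2.1⟩⟩, ⟨⟨H _ t34445.2.2.1, H _ t34445.2.2.2.1⟩, ⟨H _ t34445.2.2.2.2.1, H _ t34445.2.2.2.2.2.1⟩⟩⟩⟩, ⟨⟨⟨⟨H _ t34445.2.2.2.2.2.2.1, H _ t34445.2.2.2.2.2.2.2⟩, ⟨H _ t34453.1, H _ t34453.2.1⟩⟩, ⟨⟨H _ t34453.2.2.1, H _ t34453.2.2.2.1⟩, ⟨H _ t34453.2.2.2.2.1, H _ t34453.2.2.2.2.2.1⟩⟩⟩, ⟨⟨⟨H _ t34453.2.2.2.2.2.2.1, H _ t34453.2.2.2.2.2.2.2⟩, ⟨H _ t34461.1, H _ t34461.2.1⟩⟩, ⟨⟨H _ t34461.2.2.1, H _ t34461.2.2.2.1⟩, ⟨H _ t34461.2.2.2.2.1, ⟨H _ t34461.2.2.2.2.2.1, H _ t34461.2.2.2.2.2.2.1⟩⟩⟩⟩⟩⟩, ⟨⟨⟨⟨⟨H _ t34461.2.2.2.2.2.2.2, H _ t34469.1⟩, ⟨H _ t34469.2.1, H _ t34469.2.2.1⟩⟩, ⟨⟨H _ t34469.2.2.2.1, H _ t34469.2.2.2.2.1⟩, ⟨H _ t34469.2.2.2.2.2.1, H _ t34469.2.2.2.2.2.2.1⟩⟩⟩, ⟨⟨⟨H _ t34469.2.2.2.2.2.2.2, H _ t34477.1⟩, ⟨H _ t34477.2.1, H _ t34477.2.2.1⟩⟩, ⟨⟨H _ t34477.2.2.2.1, H _ t34477.2.2.2.2.1⟩, ⟨H _ t34477.2.2.2.2.2.1, ⟨H _ t34477.2.2.2.2.2.2.1, H _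 t34477.2.2.2.2.2.2.2⟩⟩⟩⟩⟩, ⟨⟨⟨⟨H _ t34485.1, H _ t34485.2.1⟩, ⟨H _ t34485.2.2.1, H _ t34485.2.2.2.1⟩⟩, ⟨⟨H _ t34485.2.2.2.2.1, H _ t34485.2.2.2.2.2.1⟩, ⟨H _ t34485.2.2.2.2.2.2.1, H _ t34485.2.2.2.2.2.2.2⟩⟩⟩, ⟨⟨⟨H _ t34493.1, H _ t34493.2.1⟩, ⟨H _ t34493.2.2.1, H _ t34493.2.2.2.1⟩⟩, ⟨⟨H _ t34493.2.2.2.2.1, H _ t34493.2.2.2.2.2.1⟩, ⟨H _ t34493.2.2.2.2.2.2.1, ⟨H _ t34493.2.2.2.2.2.2.2, H _ t34501.1⟩⟩⟩⟩⟩⟩⟩, ⟨⟨⟨⟨⟨⟨H _ t34501.2.1, H _ t34501.2.2.1⟩, ⟨H _ t34501.2.2.2.1, H _ t34501.2.2.2.2.1⟩⟩, ⟨⟨H _ t34501.2.2.2.2.2.1, H _ t34501.2.2.2.2.2.2.1⟩, ⟨H _ t34501.2.2.2.2.2.2.2, H _ t34509.1⟩⟩⟩, ⟨⟨⟨H _ t34509.2.1, H _ t34509.2.2.1⟩, ⟨H _ t34509.2.2.2.1, H _ t34509.2.2.2.2.1⟩⟩, ⟨⟨H _ t34509.2.2.2.2.2.1, H _ t34509.2.2.2.2.2.2.1⟩, ⟨H _ t34509.2.2.2.2.2.2.2, H _ t34517.1⟩⟩⟩⟩, ⟨⟨⟨⟨H _ t34517.2.1, H _ t34517.2.2.1⟩, ⟨H _ t34517.2.2.2.1, H _ t34517.2.2.2.2.1⟩⟩, ⟨⟨H _ t34517.2.2.2.2.2.1, H _ t34517.2.2.2.2.2.2.1⟩,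 ⟨H _ t34517.2.2.2.2.2.2.2, H _ t34525.1⟩⟩⟩, ⟨⟨⟨H _ t34525.2.1, H _ t34525.2.2.1⟩, ⟨H _ t34525.2.2.2.1, H _ t34525.2.2.2.2.1⟩⟩, ⟨⟨H _ t34525.2.2.2.2.2.1, H _ t34525.2.2.2.2.2.2.1⟩, ⟨H _ t34525.2.2.2.2.2.2.2, ⟨H _ t34533.1, H _ t34533.2.1⟩⟩⟩⟩⟩⟩, ⟨⟨⟨⟨⟨H _ t34533.2.2.1, H _ t34533.2.2.2.1⟩, ⟨H _ t34533.2.2.2.2.1, H _ t34533.2.2.2.2.2.1⟩⟩, ⟨⟨H _ t34533.2.2.2.2.2.2.1, H _ t34533.2.2.2.2.2.2.2⟩, ⟨H _ t34541.1, H _ t34541.2.1⟩⟩⟩, ⟨⟨⟨H _ t34541.2.2.1, H _ t34541.2.2.2.1⟩, ⟨H _ t34541.2.2.2.2.1, H _ t34541.2.2.2.2.2.1⟩⟩, ⟨⟨H _ t34541.2.2.2.2.2.2.1, H _ t34541.2.2.2.2.2.2.2⟩, ⟨H _ t34549.1, ⟨H _ t34549.2.1, H _ t34549.2.2.1⟩⟩⟩⟩⟩, ⟨⟨⟨⟨H _ t34549.2.2.2.1, H _ t34549.2.2.2.2.1⟩, ⟨H _ t34549.2.2.2.2.2.1, H _ t34549.2.2.2.2.2.2.1⟩⟩, ⟨⟨H _ t34549.2.2.2.2.2.2.2, H _ t34557.1⟩, ⟨H _ t34557.2.1, H _ t34557.2.2.1⟩⟩⟩, ⟨⟨⟨H _ t34557.2.2.2.1, H _ t34557.2.2.2.2.1⟩, ⟨H _ t34557.2.2.2.2.2.1, H _ t34557.2.2.2.2.2.2.1⟩⟩,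 ⟨⟨H _ t34557.2.2.2.2.2.2.2, H _ t34565.1⟩, ⟨H _ t34565.2.1, ⟨H _ t34565.2.2.1, H _ t34565.2.2.2.1⟩⟩⟩⟩⟩⟩⟩⟩⟩, ⟨⟨⟨⟨⟨⟨⟨⟨H _ t34565.2.2.2.2.1, H _ t34565.2.2.2.2.2.1⟩, ⟨H _ t34565.2.2.2.2.2.2.1, H _ t34565.2.2.2.2.2.2.2⟩⟩, ⟨⟨H _ t34573.1, H _ t34573.2.1⟩, ⟨H _ t34573.2.2.1, H _ t34573.2.2.2.1⟩⟩⟩, ⟨⟨⟨H _ t34573.2.2.2.2.1, H _ t34573.2.2.2.2.2.1⟩, ⟨H _ t34573.2.2.2.2.2.2.1, H _ t34573.2.2.2.2.2.2.2⟩⟩, ⟨⟨H _ t34581.1, H _ t34581.2.1⟩, ⟨H _ t34581.2.2.1, H _ t34581.2.2.2.1⟩⟩⟩⟩, ⟨⟨⟨⟨H _ t34581.2.2.2.2.1, H _ t34581.2.2.2.2.2.1⟩, ⟨H _ t34581.2.2.2.2.2.2.1, H _ t34581.2.2.2.2.2.2.2⟩⟩, ⟨⟨H _ t34589.1, H _ t34589.2.1⟩, ⟨H _ t34589.2.2.1, H _ t34589.2.2.2.1⟩⟩⟩, ⟨⟨⟨H _ t34589.2.2.2.2.1, H _ t34589.2.2.2.2.2.1⟩, ⟨H _ t34589.2.2.2.2.2.2.1, H _ t34589.2.2.2.2.2.2.2⟩⟩, ⟨⟨H _ t34597.1, H _ t34597.2.1⟩, ⟨H _ t34597.2.2.1, ⟨H _ t34597.2.2.2.1, H _ t34597.2.2.2.2.1⟩⟩⟩⟩⟩⟩, ⟨⟨⟨⟨⟨H _ t34597.2.2.2.2.2.1, H _ t34597.2.2.2.2.2.2.1⟩,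 ⟨H _ t34597.2.2.2.2.2.2.2, H _ t34605.1⟩⟩, ⟨⟨H _ t34605.2.1, H _ t34605.2.2.1⟩, ⟨H _ t34605.2.2.2.1, H _ t34605.2.2.2.2.1⟩⟩⟩, ⟨⟨⟨H _ t34605.2.2.2.2.2.1, H _ t34605.2.2.2.2.2.2.1⟩, ⟨H _ t34605.2.2.2.2.2.2.2, H _ t34613.1⟩⟩, ⟨⟨H _ t34613.2.1, H _ t34613.2.2.1⟩, ⟨H _ t34613.2.2.2.1, ⟨H _ t34613.2.2.2.2.1, H _ t34613.2.2.2.2.2.1⟩⟩⟩⟩⟩, ⟨⟨⟨⟨H _ t34613.2.2.2.2.2.2.1, H _ t34613.2.2.2.2.2.2.2⟩, ⟨H _ t34621.1, H _ t34621.2.1⟩⟩, ⟨⟨H _ t34621.2.2.1, H _ t34621.2.2.2.1⟩, ⟨H _ t34621.2.2.2.2.1, H _ t34621.2.2.2.2.2.1⟩⟩⟩, ⟨⟨⟨H _ t34621.2.2.2.2.2.2.1, H _ t34621.2.2.2.2.2.2.2⟩, ⟨H _ t34629.1, H _ t34629.2.1⟩⟩, ⟨⟨H _ t34629.2.2.1, H _ t34629.2.2.2.1⟩, ⟨H _ t34629.2.2.2.2.1, ⟨H _ t34629.2.2.2.2.2.1, H _ t34629.2.2.2.2.2.2.1⟩⟩⟩⟩⟩⟩⟩, ⟨⟨⟨⟨⟨⟨H _ t34629.2.2.2.2.2.2.2, H _ t34637.1⟩, ⟨H _ t34637.2.1, H _ t34637.2.2.1⟩⟩, ⟨⟨H _ t34637.2.2.2.1, H _ t34637.2.2.2.2.1⟩, ⟨H _ t34637.2.2.2.2.2.1, H _ t34637.2.2.2.2.2.2.1⟩⟩⟩,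 ⟨⟨⟨H _ t34637.2.2.2.2.2.2.2, H _ t34645.1⟩, ⟨H _ t34645.2.1, H _ t34645.2.2.1⟩⟩, ⟨⟨H _ t34645.2.2.2.1, H _ t34645.2.2.2.2.1⟩, ⟨H _ t34645.2.2.2.2.2.1, H _ t34645.2.2.2.2.2.2.1⟩⟩⟩⟩, ⟨⟨⟨⟨H _ t34645.2.2.2.2.2.2.2, H _ t34653.1⟩, ⟨H _ t34653.2.1, H _ t34653.2.2.1⟩⟩, ⟨⟨H _ t34653.2.2.2.1, H _ t34653.2.2.2.2.1⟩, ⟨H _ t34653.2.2.2.2.2.1, H _ t34653.2.2.2.2.2.2.1⟩⟩⟩, ⟨⟨⟨H _ t34653.2.2.2.2.2.2.2, H _ t34661.1⟩, ⟨H _ t34661.2.1, H _ t34661.2.2.1⟩⟩, ⟨⟨H _ t34661.2.2.2.1, H _ t34661.2.2.2.2.1⟩, ⟨H _ t34661.2.2.2.2.2.1, ⟨H _ t34661.2.2.2.2.2.2.1, H _ t34661.2.2.2.2.2.2.2⟩⟩⟩⟩⟩⟩, ⟨⟨⟨⟨⟨H _ t34669.1, H _ t34669.2.1⟩, ⟨H _ t34669.2.2.1, H _ t34669.2.2.2.1⟩⟩, ⟨⟨H _ t34669.2.2.2.2.1, H _ t34669.2.2.2.2.2.1⟩, ⟨H _ t34669.2.2.2.2.2.2.1, H _ t34669.2.2.2.2.2.2.2⟩⟩⟩, ⟨⟨⟨H _ t34677.1, H _ t34677.2.1⟩, ⟨H _ t34677.2.2.1, H _ t34677.2.2.2.1⟩⟩, ⟨⟨H _ t34677.2.2.2.2.1, H _ t34677.2.2.2.2.2.1⟩, ⟨H _ t34677.2.2.2.2.2.2.1, ⟨H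 _ t34677.2.2.2.2.2.2.2, H _ t34685.1⟩⟩⟩⟩⟩, ⟨⟨⟨⟨H _ t34685.2.1, H _ t34685.2.2.1⟩, ⟨H _ t34685.2.2.2.1, H _ t34685.2.2.2.2.1⟩⟩, ⟨⟨H _ t34685.2.2.2.2.2.1, H _ t34685.2.2.2.2.2.2.1⟩, ⟨H _ t34685.2.2.2.2.2.2.2, H _ t34693.1⟩⟩⟩, ⟨⟨⟨H _ t34693.2.1, H _ t34693.2.2.1⟩, ⟨H _ t34693.2.2.2.1, H _ t34693.2.2.2.2.1⟩⟩, ⟨⟨H _ t34693.2.2.2.2.2.1, H _ t34693.2.2.2.2.2.2.1⟩, ⟨H _ t34693.2.2.2.2.2.2.2, ⟨H _ t34701.1, H _ t34701.2.1⟩⟩⟩⟩⟩⟩⟩⟩, ⟨⟨⟨⟨⟨⟨⟨H _ t34701.2.2.1, H _ t34701.2.2.2.1⟩, ⟨H _ t34701.2.2.2.2.1, H _ t34701.2.2.2.2.2.1⟩⟩, ⟨⟨H _ t34701.2.2.2.2.2.2.1, H _ t34701.2.2.2.2.2.2.2⟩, ⟨H _ t34709.1, H _ t34709.2.1⟩⟩⟩, ⟨⟨⟨H _ t34709.2.2.1, H _ t34709.2.2.2.1⟩, ⟨H _ t34709.2.2.2.2.1, H _ t34709.2.2.2.2.2.1⟩⟩, ⟨⟨H _ t34709.2.2.2.2.2.2.1, H _ t34709.2.2.2.2.2.2.2⟩, ⟨H _ t34717.1, H _ t34717.2.1⟩⟩⟩⟩, ⟨⟨⟨⟨H _ t34717.2.2.1, H _ t34717.2.2.2.1⟩, ⟨H _ t34717.2.2.2.2.1, H _ t34717.2.2.2.2.2.1⟩⟩, ⟨⟨H _ t34717.2.2.2.2.2.2.1,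 H _ t34717.2.2.2.2.2.2.2⟩, ⟨H _ t34725.1, H _ t34725.2.1⟩⟩⟩, ⟨⟨⟨H _ t34725.2.2.1, H _ t34725.2.2.2.1⟩, ⟨H _ t34725.2.2.2.2.1, H _ t34725.2.2.2.2.2.1⟩⟩, ⟨⟨H _ t34725.2.2.2.2.2.2.1, H _ t34725.2.2.2.2.2.2.2⟩, ⟨H _ t34733.1, ⟨H _ t34733.2.1, H _ t34733.2.2.1⟩⟩⟩⟩⟩⟩, ⟨⟨⟨⟨⟨H _ t34733.2.2.2.1, H _ t34733.2.2.2.2.1⟩, ⟨H _ t34733.2.2.2.2.2.1, H _ t34733.2.2.2.2.2.2.1⟩⟩, ⟨⟨H _ t34733.2.2.2.2.2.2.2, H _ t34741.1⟩, ⟨H _ t34741.2.1, H _ t34741.2.2.1⟩⟩⟩, ⟨⟨⟨H _ t34741.2.2.2.1, H _ t34741.2.2.2.2.1⟩, ⟨H _ t34741.2.2.2.2.2.1, H _ t34741.2.2.2.2.2.2.1⟩⟩, ⟨⟨H _ t34741.2.2.2.2.2.2.2, H _ t34749.1⟩, ⟨H _ t34749.2.1, ⟨H _ t34749.2.2.1, H _ t34749.2.2.2.1⟩⟩⟩⟩⟩, ⟨⟨⟨⟨H _ t34749.2.2.2.2.1, H _ t34749.2.2.2.2.2.1⟩, ⟨H _ t34749.2.2.2.2.2.2.1, H _ t34749.2.2.2.2.2.2.2⟩⟩, ⟨⟨H _ t34757.1, H _ t34757.2.1⟩, ⟨H _ t34757.2.2.1, H _ t34757.2.2.2.1⟩⟩⟩, ⟨⟨⟨H _ t34757.2.2.2.2.1, H _ t34757.2.2.2.2.2.1⟩, ⟨H _ t34757.2.2.2.2.2.2.1,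 H _ t34757.2.2.2.2.2.2.2⟩⟩, ⟨⟨H _ t34765.1, H _ t34765.2.1⟩, ⟨H _ t34765.2.2.1, ⟨H _ t34765.2.2.2.1, H _ t34765.2.2.2.2.1⟩⟩⟩⟩⟩⟩⟩, ⟨⟨⟨⟨⟨⟨H _ t34765.2.2.2.2.2.1, H _ t34765.2.2.2.2.2.2.1⟩, ⟨H _ t34765.2.2.2.2.2.2.2, H _ t34773.1⟩⟩, ⟨⟨H _ t34773.2.1, H _ t34773.2.2.1⟩, ⟨H _ t34773.2.2.2.1, H _ t34773.2.2.2.2.1⟩⟩⟩, ⟨⟨⟨H _ t34773.2.2.2.2.2.1, H _ t34773.2.2.2.2.2.2.1⟩, ⟨H _ t34773.2.2.2.2.2.2.2, H _ t34781.1⟩⟩, ⟨⟨H _ t34781.2.1, H _ t34781.2.2.1⟩, ⟨H _ t34781.2.2.2.1, ⟨H _ t34781.2.2.2.2.1, H _ t34781.2.2.2.2.2.1⟩⟩⟩⟩⟩, ⟨⟨⟨⟨H _ t34781.2.2.2.2.2.2.1, H _ t34781.2.2.2.2.2.2.2⟩, ⟨H _ t34789.1, H _ t34789.2.1⟩⟩, ⟨⟨H _ t34789.2.2.1, H _ t34789.2.2.2.1⟩, ⟨H _ t34789.2.2.2.2.1, H _ t34789.2.2.2.2.2.1⟩⟩⟩, ⟨⟨⟨H _ t34789.2.2.2.2.2.2.1, H _ t34789.2.2.2.2.2.2.2⟩, ⟨H _ t34797.1, H _ t34797.2.1⟩⟩, ⟨⟨H _ t34797.2.2.1, H _ t34797.2.2.2.1⟩, ⟨H _ t34797.2.2.2.2.1, ⟨H _ t34797.2.2.2.2.2.1, H _ t34797.2.2.2.2.2.2.1⟩⟩⟩⟩⟩⟩,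 ⟨⟨⟨⟨⟨H _ t34797.2.2.2.2.2.2.2, H _ t34805.1⟩, ⟨H _ t34805.2.1, H _ t34805.2.2.1⟩⟩, ⟨⟨H _ t34805.2.2.2.1, H _ t34805.2.2.2.2.1⟩, ⟨H _ t34805.2.2.2.2.2.1, H _ t34805.2.2.2.2.2.2.1⟩⟩⟩, ⟨⟨⟨H _ t34805.2.2.2.2.2.2.2, H _ t34813.1⟩, ⟨H _ t34813.2.1, H _ t34813.2.2.1⟩⟩, ⟨⟨H _ t34813.2.2.2.1, H _ t34813.2.2.2.2.1⟩, ⟨H _ t34813.2.2.2.2.2.1, ⟨H _ t34813.2.2.2.2.2.2.1, H _ t34813.2.2.2.2.2.2.2⟩⟩⟩⟩⟩, ⟨⟨⟨⟨H _ t34821.1, H _ t34821.2.1⟩, ⟨H _ t34821.2.2.1, H _ t34821.2.2.2.1⟩⟩, ⟨⟨H _ t34821.2.2.2.2.1, H _ t34821.2.2.2.2.2.1⟩, ⟨H _ t34821.2.2.2.2.2.2.1, H _ t34821.2.2.2.2.2.2.2⟩⟩⟩, ⟨⟨⟨H _ t34829.1, H _ t34829.2.1⟩, ⟨H _ t34829.2.2.1, H _ t34829.2.2.2.1⟩⟩, ⟨⟨H _ t34829.2.2.2.2.1, H _ t34829.2.2.2.2.2.1⟩, ⟨H _ t34829.2.2.2.2.2.2.1, ⟨H _ t34829.2.2.2.2.2.2.2, H _ t34837⟩⟩⟩⟩⟩⟩⟩⟩⟩⟩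

end Pool.Agent.MP_c853c5_nt.X.C4950
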