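import Pool.Agent.MP_c853c5_nt.X.C4950.Env
import Pool.Agent.MP_c853c5_nt.X.C4950.Tab

set_option autoImplicit false
set_option maxRecDepth 8192
set_option linter.all false

namespace Pool.Agent.MP_c853c5_nt.X.C4950

open Pool.Agent.MP_c853c5_nt.X

def t34838 : allY (E.wth T1) l34838 = true ∧
    allY (E.wth T1) l34839 = true ∧
    allY (E.wth T1) l34840 = true ∧
    allY (E.wth T1) l34841 = true ∧
    allY (E.wth T1) l34842 = true ∧
    allY (E.wth T1) l34843 = true ∧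
    allY (E.wth T1) l34844 = true ∧
    allY (E.wth T1) l34845 = true :=
  ⟨by decide +kernel, by decide +kernel, by decide +kernel, by decide +kernel, by decide +kernel, by decide +kernel, by decide +kernel, by decide +kernel⟩

def t34846 : allY (E.wth T1) l34846 = true ∧
    allY (E.wth T1) l34847 = true ∧
    allY (E.wth T1) l34848 = true ∧
    allY (E.wth T1) l34849 = true ∧
    allY (E.wth T1) l34850 = true ∧
    allY (E.wth T1) l34851 = true ∧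
    allY (E.wth T1) l34852 = true ∧
    allY (E.wth T1) l34853 = true :=
  ⟨by decide +kernel, by decide +kernel, by decide +kernel, by decide +kernel, by decide +kernel, by decide +kernel, by decide +kernel, by decide +kernel⟩

def t34854 : allY (E.wth T1) l34854 = true ∧
    allY (E.wth T1) l34855 = true ∧
    allY (E.wth T1) l34856 = true ∧
    allY (E.wth T1) l34857 = true ∧
    allY (E.wth T1) l34858 = true ∧
    allY (E.wth T1) l34859 = true ∧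
    allY (E.wth T1) l34860 = true ∧
    allY (E.wth T1) l34861 = true :=
  ⟨by decide +kernel, by decide +kernel, by decide +kernel, by decide +kernel, by decide +kernel, by decide +kernel, by decide +kernel, by decide +kernel⟩

def t34862 : allY (E.wth T1) l34862 = true ∧
    allY (E.wth T1) l34863 = true ∧
    allY (E.wth T1) l34864 = true ∧
    allY (E.wth T1) l34865 = true ∧
    allY (E.wth T1) l34866 = true ∧
    allY (E.wth T1) l34867 = true ∧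
    allY (E.wth T1) l34868 = true ∧
    allY (E.wth T1) l34869 = true :=
  ⟨by decide +kernel, by decide +kernel, by decide +kernel, by decide +kernel, by decide +kernel, by decide +kernel, by decide +kernel, by decide +kernel⟩

def t34870 : allY (E.wth T1) l34870 = true ∧
    allY (E.wth T1) l34871 = true ∧
    allY (E.wth T1) l34872 = true ∧
    allY (E.wth T1) l34873 = true ∧
    allY (E.wth T1) l34874 = true ∧
    allY (E.wth T1) l34875 = true ∧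
    allY (E.wth T1) l34876 = true ∧
    allY (E.wth T1) l34877 = true :=
  ⟨by decide +kernel, by decide +kernel, by decide +kernel, by decide +kernel, by decide +kernel, by decide +kernel, by decide +kernel, by decide +kernel⟩

def t34878 : allY (E.wth T1) l34878 = true ∧
    allY (E.wth T1) l34879 = true ∧
    allY (E.wth T1) l34880 = true ∧
    allY (E.wth T1) l34881 = true ∧
    allY (E.wth T1) l34882 = true ∧
    allY (E.wth T1) l34883 = true ∧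
    allY (E.wth T1) l34884 = true ∧
    allY (E.wth T1) l34885 = true :=
  ⟨by decide +kernel, by decide +kernel, by decide +kernel, by decide +kernel, by decide +kernel, by decide +kernel, by decide +kernel, by decide +kernel⟩

def t34886 : allY (E.wth T1) l34886 = true ∧
    allY (E.wth T1) l34887 = true ∧
    allY (E.wth T1) l34888 = true ∧
    allY (E.wth T1) l34889 = true ∧
    allY (E.wth T1) l34890 = true ∧
    allY (E.wth T1) l34891 = true ∧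
    allY (E.wth T1) l34892 = true ∧
    allY (E.wth T1) l34893 = true :=
  ⟨by decide +kernel, by decide +kernel, by decide +kernel, by decide +kernel, by decide +kernel, by decide +kernel, by decide +kernel, by decide +kernel⟩

def t34894 : allY (E.wth T1) l34894 = true ∧
    allY (E.wth T1) l34895 = true ∧
    allY (E.wth T1) l34896 = true ∧
    allY (E.wth T1) l34897 = true ∧
    allY (E.wth T1) l34898 = true ∧
    allY (E.wth T1) l34899 = true ∧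
    allY (E.wth T1) l34900 = true ∧
    allY (E.wth T1) l34901 = true :=
  ⟨by decide +kernel, by decide +kernel, by decide +kernel, by decide +kernel, by decide +kernel, by decide +kernel, by decide +kernel, by decide +kernel⟩

def t34902 : allY (E.wth T1) l34902 = true ∧
    allY (E.wth T1) l34903 = true ∧
    allY (E.wth T1) l34904 = true ∧
    allY (E.wth T1) l34905 = true ∧
    allY (E.wth T1) l34906 = true ∧
    allY (E.wth T1) l34907 = true ∧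
    allY (E.wth T1) l34908 = true ∧
    allY (E.wth T1) l34909 = true :=
  ⟨by decide +kernel, by decide +kernel, by decide +kernel, by decide +kernel, by decide +kernel, by decide +kernel, by decide +kernel, by decide +kernel⟩

def t34910 : allY (E.wth T1) l34910 = true ∧
    allY (E.wth T1) l34911 = true ∧
    allY (E.wth T1) l34912 = true ∧
    allY (E.wth T1) l34913 = true ∧
    allY (E.wth T1) l34914 = true ∧
    allY (E.wth T1) l34915 = true ∧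
    allY (E.wth T1) l34916 = true ∧
    allY (E.wth T1) l34917 = true :=
  ⟨by decide +kernel, by decide +kernel, by decide +kernel, by decide +kernel, by decide +kernel, by decide +kernel, by decide +kernel, by decide +kernel⟩

def t34918 : allY (E.wth T1) l34918 = true ∧
    allY (E.wth T1) l34919 = true ∧
    allY (E.wth T1) l34920 = true ∧
    allY (E.wth T1) l34921 = true ∧
    allY (E.wth T1) l34922 = true ∧
    allY (E.wth T1) l34923 = true ∧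
    allY (E.wth T1) l34924 = true ∧
    allY (E.wth T1) l34925 = true :=
  ⟨by decide +kernel, by decide +kernel, by decide +kernel, by decide +kernel, by decide +kernel, by decide +kernel, by decide +kernel, by decide +kernel⟩

def t34926 : allY (E.wth T1) l34926 = true ∧
    allY (E.wth T1) l34927 = true ∧
    allY (E.wth T1) l34928 = true ∧
    allY (E.wth T1) l34929 = true ∧
    allY (E.wth T1) l34930 = true ∧
    allY (E.wth T1) l34931 = true ∧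
    allY (E.wth T1) l34932 = true ∧
    allY (E.wth T1) l34933 = true :=
  ⟨by decide +kernel, by decide +kernel, by decide +kernel, by decide +kernel, by decide +kernel, by decide +kernel, by decide +kernel, by decide +kernel⟩

def t34934 : allY (E.wth T1) l34934 = true ∧
    allY (E.wth T1) l34935 = true ∧
    allY (E.wth T1) l34936 = true ∧
    allY (E.wth T1) l34937 = true ∧
    allY (E.wth T1) l34938 = true ∧
    allY (E.wth T1) l34939 = true ∧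
    allY (E.wth T1) l34940 = true ∧
    allY (E.wth T1) l34941 = true :=
  ⟨by decide +kernel, by decide +kernel, by decide +kernel, by decide +kernel, by decide +kernel, by decide +kernel, by decide +kernel, by decide +kernel⟩

def t34942 : allY (E.wth T1) l34942 = true ∧
    allY (E.wth T1) l34943 = true ∧
    allY (E.wth T1) l34944 = true ∧
    allY (E.wth T1) l34945 = true ∧
    allY (E.wth T1) l34946 = true ∧
    allY (E.wth T1) l34947 = true ∧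
    allY (E.wth T1) l34948 = true ∧
    allY (E.wth T1) l34949 = true :=
  ⟨by decide +kernel, by decide +kernel, by decide +kernel, by decide +kernel, by decide +kernel, by decide +kernel, by decide +kernel, by decide +kernel⟩

def t34950 : allY (E.wth T1) l34950 = true ∧
    allY (E.wth T1) l34951 = true ∧
    allY (E.wth T1) l34952 = true ∧
    allY (E.wth T1) l34953 = true ∧
    allY (E.wth T1) l34954 = true ∧
    allY (E.wth T1) l34955 = true ∧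
    allY (E.wth T1) l34956 = true ∧
    allY (E.wth T1) l34957 = true :=
  ⟨by decide +kernel, by decide +kernel, by decide +kernel, by decide +kernel, by decide +kernel, by decide +kernel, by decide +kernel, by decide +kernel⟩

def t34958 : allY (E.wth T1) l34958 = true ∧
    allY (E.wth T1) l34959 = true ∧
    allY (E.wth T1) l34960 = true ∧
    allY (E.wth T1) l34961 = true ∧
    allY (E.wth T1) l34962 = true ∧
    allY (E.wth T1) l34963 = true ∧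
    allY (E.wth T1) l34964 = true ∧
    allY (E.wth T1) l34965 = true :=
  ⟨by decide +kernel, by decide +kernel, by decide +kernel, by decide +kernel, by decide +kernel, by decide +kernel, by decide +kernel, by decide +kernel⟩

def t34966 : allY (E.wth T1) l34966 = true ∧
    allY (E.wth T1) l34967 = true ∧
    allY (E.wth T1) l34968 = true ∧
    allY (E.wth T1) l34969 = true ∧
    allY (E.wth T1) l34970 = true ∧
    allY (E.wth T1) l34971 = true ∧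
    allY (E.wth T1) l34972 = true ∧
    allY (E.wth T1) l34973 = true :=
  ⟨by decide +kernel, by decide +kernel, by decide +kernel, by decide +kernel, by decide +kernel, by decide +kernel, by decide +kernel, by decide +kernel⟩

def t34974 : allY (E.wth T1) l34974 = true ∧
    allY (E.wth T1) l34975 = true ∧
    allY (E.wth T1) l34976 = true ∧
    allY (E.wth T1) l34977 = true ∧
    allY (E.wth T1) l34978 = true ∧
    allY (E.wth T1) l34979 = true ∧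
    allY (E.wth T1) l34980 = true ∧
    allY (E.wth T1) l34981 = true :=
  ⟨by decide +kernel, by decide +kernel, by decide +kernel, by decide +kernel, by decide +kernel, by decide +kernel, by decide +kernel, by decide +kernel⟩

def t34982 : allY (E.wth T1) l34982 = true ∧
    allY (E.wth T1) l34983 = true ∧
    allY (E.wth T1) l34984 = true ∧
    allY (E.wth T1) l34985 = true ∧
    allY (E.wth T1) l34986 = true ∧
    allY (E.wth T1) l34987 = true ∧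
    allY (E.wth T1) l34988 = true ∧
    allY (E.wth T1) l34989 = true :=
  ⟨by decide +kernel, by decide +kernel, by decide +kernel, by decide +kernel, by decide +kernel, by decide +kernel, by decide +kernel, by decide +kernel⟩

def t34990 : allY (E.wth T1) l34990 = true ∧
    allY (E.wth T1) l34991 = true ∧
    allY (E.wth T1) l34992 = true ∧
    allY (E.wth T1) l34993 = true ∧
    allY (E.wth T1) l34994 = true ∧
    allY (E.wth T1) l34995 = true ∧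
    allY (E.wth T1) l34996 = true ∧
    allY (E.wth T1) l34997 = true :=
  ⟨by decide +kernel, by decide +kernel, by decide +kernel, by decide +kernel, by decide +kernel, by decide +kernel, by decide +kernel, by decide +kernel⟩

def t34998 : allY (E.wth T1) l34998 = true ∧
    allY (E.wth T1) l34999 = true ∧
    allY (E.wth T1) l35000 = true ∧
    allY (E.wth T1) l35001 = true ∧
    allY (E.wth T1) l35002 = true ∧
    allY (E.wth T1) l35003 = true ∧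
    allY (E.wth T1) l35004 = true ∧
    allY (E.wth T1) l35005 = true :=
  ⟨by decide +kernel, by decide +kernel, by decide +kernel, by decide +kernel, by decide +kernel, by decide +kernel, by decide +kernel, by decide +kernel⟩

def t35006 : allY (E.wth T1) l35006 = true ∧
    allY (E.wth T1) l35007 = true ∧
    allY (E.wth T1) l35008 = true ∧
    allY (E.wth T1) l35009 = true ∧
    allY (E.wth T1) l35010 = true ∧
    allY (E.wth T1) l35011 = true ∧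
    allY (E.wth T1) l35012 = true ∧
    allY (E.wth T1) l35013 = true :=
  ⟨by decide +kernel, by decide +kernel, by decide +kernel, by decide +kernel, by decide +kernel, by decide +kernel, by decide +kernel, by decide +kernel⟩

def t35014 : allY (E.wth T1) l35014 = true ∧
    allY (E.wth T1) l35015 = true ∧
    allY (E.wth T1) l35016 = true ∧
    allY (E.wth T1) l35017 = true ∧
    allY (E.wth T1) l35018 = true ∧
    allY (E.wth T1) l35019 = true ∧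
    allY (E.wth T1) l35020 = true ∧
    allY (E.wth T1) l35021 = true :=
  ⟨by decide +kernel, by decide +kernel, by decide +kernel, by decide +kernel, by decide +kernel, by decide +kernel, by decide +kernel, by decide +kernel⟩

def t35022 : allY (E.wth T1) l35022 = true ∧
    allY (E.wth T1) l35023 = true ∧
    allY (E.wth T1) l35024 = true ∧
    allY (E.wth T1) l35025 = true ∧
    allY (E.wth T1) l35026 = true ∧
    allY (E.wth T1) l35027 = true ∧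
    allY (E.wth T1) l35028 = true ∧
    allY (E.wth T1) l35029 = true :=
  ⟨by decide +kernel, by decide +kernel, by decide +kernel, by decide +kernel, by decide +kernel, by decide +kernel, by decide +kernel, by decide +kernel⟩

def t35030 : allY (E.wth T1) l35030 = true ∧
    allY (E.wth T1) l35031 = true ∧
    allY (E.wth T1) l35032 = true ∧
    allY (E.wth T1) l35033 = true ∧
    allY (E.wth T1) l35034 = true ∧
    allY (E.wth T1) l35035 = true ∧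
    allY (E.wth T1) l35036 = true ∧
    allY (E.wth T1) l35037 = true :=
  ⟨by decide +kernel, by decide +kernel, by decide +kernel, by decide +kernel, by decide +kernel, by decide +kernel, by decide +kernel, by decide +kernel⟩

def t35038 : allY (E.wth T1) l35038 = true ∧
    allY (E.wth T1) l35039 = true ∧
    allY (E.wth T1) l35040 = true ∧
    allY (E.wth T1) l35041 = true ∧
    allY (E.wth T1) l35042 = true ∧
    allY (E.wth T1) l35043 = true ∧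
    allY (E.wth T1) l35044 = true ∧
    allY (E.wth T1) l35045 = true :=
  ⟨by decide +kernel, by decide +kernel, by decide +kernel, by decide +kernel, by decide +kernel, by decide +kernel, by decide +kernel, by decide +kernel⟩

def t35046 : allY (E.wth T1) l35046 = true ∧
    allY (E.wth T1) l35047 = true ∧
    allY (E.wth T1) l35048 = true ∧
    allY (E.wth T1) l35049 = true ∧
    allY (E.wth T1) l35050 = true ∧
    allY (E.wth T1) l35051 = true ∧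
    allY (E.wth T1) l35052 = true ∧
    allY (E.wth T1) l35053 = true :=
  ⟨by decide +kernel, by decide +kernel, by decide +kernel, by decide +kernel, by decide +kernel, by decide +kernel, by decide +kernel, by decide +kernel⟩

def t35054 : allY (E.wth T1) l35054 = true ∧
    allY (E.wth T1) l35055 = true ∧
    allY (E.wth T1) l35056 = true ∧
    allY (E.wth T1) l35057 = true ∧
    allY (E.wth T1) l35058 = true ∧
    allY (E.wth T1) l35059 = true ∧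
    allY (E.wth T1) l35060 = true ∧
    allY (E.wth T1) l35061 = true :=
  ⟨by decide +kernel, by decide +kernel, by decide +kernel, by decide +kernel, by decide +kernel, by decide +kernel, by decide +kernel, by decide +kernel⟩

def t35062 : allY (E.wth T1) l35062 = true ∧
    allY (E.wth T1) l35063 = true ∧
    allY (E.wth T1) l35064 = true ∧
    allY (E.wth T1) l35065 = true ∧
    allY (E.wth T1) l35066 = true ∧
    allY (E.wth T1) l35067 = true ∧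
    allY (E.wth T1) l35068 = true ∧
    allY (E.wth T1) l35069 = true :=
  ⟨by decide +kernel, by decide +kernel, by decide +kernel, by decide +kernel, by decide +kernel, by decide +kernel, by decide +kernel, by decide +kernel⟩

def t35070 : allY (E.wth T1) l35070 = true ∧
    allY (E.wth T1) l35071 = true ∧
    allY (E.wth T1) l35072 = true ∧
    allY (E.wth T1) l35073 = true ∧
    allY (E.wth T1) l35074 = true ∧
    allY (E.wth T1) l35075 = true ∧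
    allY (E.wth T1) l35076 = true ∧
    allY (E.wth T1) l35077 = true :=
  ⟨by decide +kernel, by decide +kernel, by decide +kernel, by decide +kernel, by decide +kernel, by decide +kernel, by decide +kernel, by decide +kernel⟩

def t35078 : allY (E.wth T1) l35078 = true ∧
    allY (E.wth T1) l35079 = true ∧
    allY (E.wth T1) l35080 = true ∧
    allY (E.wth T1) l35081 = true ∧
    allY (E.wth T1) l35082 = true ∧
    allY (E.wth T1) l35083 = true ∧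
    allY (E.wth T1) l35084 = true ∧
    allY (E.wth T1) l35085 = true :=
  ⟨by decide +kernel, by decide +kernel, by decide +kernel, by decide +kernel, by decide +kernel, by decide +kernel, by decide +kernel, by decide +kernel⟩

def t35086 : allY (E.wth T1) l35086 = true ∧
    allY (E.wth T1) l35087 = true ∧
    allY (E.wth T1) l35088 = true ∧
    allY (E.wth T1) l35089 = true ∧
    allY (E.wth T1) l35090 = true ∧
    allY (E.wth T1) l35091 = true ∧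
    allY (E.wth T1) l35092 = true ∧
    allY (E.wth T1) l35093 = true :=
  ⟨by decide +kernel, by decide +kernel, by decide +kernel, by decide +kernel, by decide +kernel, by decide +kernel, by decide +kernel, by decide +kernel⟩

def t35094 : allY (E.wth T1) l35094 = true ∧
    allY (E.wth T1) l35095 = true ∧
    allY (E.wth T1) l35096 = true ∧
    allY (E.wth T1) l35097 = true ∧
    allY (E.wth T1) l35098 = true ∧
    allY (E.wth T1) l35099 = true ∧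
    allY (E.wth T1) l35100 = true ∧
    allY (E.wth T1) l35101 = true :=
  ⟨by decide +kernel, by decide +kernel, by decide +kernel, by decide +kernel, by decide +kernel, by decide +kernel, by decide +kernel, by decide +kernel⟩

def t35102 : allY (E.wth T1) l35102 = true ∧
    allY (E.wth T1) l35103 = true ∧
    allY (E.wth T1) l35104 = true ∧
    allY (E.wth T1) l35105 = true ∧
    allY (E.wth T1) l35106 = true ∧
    allY (E.wth T1) l35107 = true ∧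
    allY (E.wth T1) l35108 = true ∧
    allY (E.wth T1) l35109 = true :=
  ⟨by decide +kernel, by decide +kernel, by decide +kernel, by decide +kernel, by decide +kernel, by decide +kernel, by decide +kernel, by decide +kernel⟩

def t35110 : allY (E.wth T1) l35110 = true ∧
    allY (E.wth T1) l35111 = true ∧
    allY (E.wth T1) l35112 = true ∧
    allY (E.wth T1) l35113 = true ∧
    allY (E.wth T1) l35114 = true ∧
    allY (E.wth T1) l35115 = true ∧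
    allY (E.wth T1) l35116 = true ∧
    allY (E.wth T1) l35117 = true :=
  ⟨by decide +kernel, by decide +kernel, by decide +kernel, by decide +kernel, by decide +kernel, by decide +kernel, by decide +kernel, by decide +kernel⟩

def t35118 : allY (E.wth T1) l35118 = true ∧
    allY (E.wth T1) l35119 = true ∧
    allY (E.wth T1) l35120 = true ∧
    allY (E.wth T1) l35121 = true ∧
    allY (E.wth T1) l35122 = true ∧
    allY (E.wth T1) l35123 = true ∧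
    allY (E.wth T1) l35124 = true ∧
    allY (E.wth T1) l35125 = true :=
  ⟨by decide +kernel, by decide +kernel, by decide +kernel, by decide +kernel, by decide +kernel, by decide +kernel, by decide +kernel, by decide +kernel⟩

def t35126 : allY (E.wth T1) l35126 = true ∧
    allY (E.wth T1) l35127 = true ∧
    allY (E.wth T1) l35128 = true ∧
    allY (E.wth T1) l35129 = true ∧
    allY (E.wth T1) l35130 = true ∧
    allY (E.wth T1) l35131 = true ∧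
    allY (E.wth T1) l35132 = true ∧
    allY (E.wth T1) l35133 = true :=
  ⟨by decide +kernel, by decide +kernel, by decide +kernel, by decide +kernel, by decide +kernel, by decide +kernel, by decide +kernel, by decide +kernel⟩

def t35134 : allY (E.wth T1) l35134 = true ∧
    allY (E.wth T1) l35135 = true ∧
    allY (E.wth T1) l35136 = true ∧
    allY (E.wth T1) l35137 = true ∧
    allY (E.wth T1) l35138 = true ∧
    allY (E.wth T1) l35139 = true ∧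
    allY (E.wth T1) l35140 = true ∧
    allY (E.wth T1) l35141 = true :=
  ⟨by decide +kernel, by decide +kernel, by decide +kernel, by decide +kernel, by decide +kernel, by decide +kernel, by decide +kernel, by decide +kernel⟩

def t35142 : allY (E.wth T1) l35142 = true ∧
    allY (E.wth T1) l35143 = true ∧
    allY (E.wth T1) l35144 = true ∧
    allY (E.wth T1) l35145 = true ∧
    allY (E.wth T1) l35146 = true ∧
    allY (E.wth T1) l35147 = true ∧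
    allY (E.wth T1) l35148 = true ∧
    allY (E.wth T1) l35149 = true :=
  ⟨by decide +kernel, by decide +kernel, by decide +kernel, by decide +kernel, by decide +kernel, by decide +kernel, by decide +kernel, by decide +kernel⟩

def t35150 : allY (E.wth T1) l35150 = true ∧
    allY (E.wth T1) l35151 = true ∧
    allY (E.wth T1) l35152 = true ∧
    allY (E.wth T1) l35153 = true ∧
    allY (E.wth T1) l35154 = true ∧
    allY (E.wth T1) l35155 = true ∧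
    allY (E.wth T1) l35156 = true ∧
    allY (E.wth T1) l35157 = true :=
  ⟨by decide +kernel, by decide +kernel, by decide +kernel, by decide +kernel, by decide +kernel, by decide +kernel, by decide +kernel, by decide +kernel⟩

def t35158 : allY (E.wth T1) l35158 = true ∧
    allY (E.wth T1) l35159 = true ∧
    allY (E.wth T1) l35160 = true ∧
    allY (E.wth T1) l35161 = true ∧
    allY (E.wth T1) l35162 = true ∧
    allY (E.wth T1) l35163 = true ∧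
    allY (E.wth T1) l35164 = true ∧
    allY (E.wth T1) l35165 = true :=
  ⟨by decide +kernel, by decide +kernel, by decide +kernel, by decide +kernel, by decide +kernel, by decide +kernel, by decide +kernel, by decide +kernel⟩

def t35166 : allY (E.wth T1) l35166 = true ∧
    allY (E.wth T1) l35167 = true ∧
    allY (E.wth T1) l35168 = true ∧
    allY (E.wth T1) l35169 = true ∧
    allY (E.wth T1) l35170 = true ∧
    allY (E.wth T1) l35171 = true ∧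
    allY (E.wth T1) l35172 = true ∧
    allY (E.wth T1) l35173 = true :=
  ⟨by decide +kernel, by decide +kernel, by decide +kernel, by decide +kernel, by decide +kernel, by decide +kernel, by decide +kernel, by decide +kernel⟩

def t35174 : allY (E.wth T1) l35174 = true ∧
    allY (E.wth T1) l35175 = true ∧
    allY (E.wth T1) l35176 = true ∧
    allY (E.wth T1) l35177 = true ∧
    allY (E.wth T1) l35178 = true ∧
    allY (E.wth T1) l35179 = true ∧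
    allY (E.wth T1) l35180 = true ∧
    allY (E.wth T1) l35181 = true :=
  ⟨by decide +kernel, by decide +kernel, by decide +kernel, by decide +kernel, by decide +kernel, by decide +kernel, by decide +kernel, by decide +kernel⟩

def t35182 : allY (E.wth T1) l35182 = true ∧
    allY (E.wth T1) l35183 = true ∧
    allY (E.wth T1) l35184 = true ∧
    allY (E.wth T1) l35185 = true ∧
    allY (E.wth T1) l35186 = true ∧
    allY (E.wth T1) l35187 = true ∧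
    allY (E.wth T1) l35188 = true ∧
    allY (E.wth T1) l35189 = true :=
  ⟨by decide +kernel, by decide +kernel, by decide +kernel, by decide +kernel, by decide +kernel, by decide +kernel, by decide +kernel, by decide +kernel⟩

def t35190 : allY (E.wth T1) l35190 = true ∧
    allY (E.wth T1) l35191 = true ∧
    allY (E.wth T1) l35192 = true ∧
    allY (E.wth T1) l35193 = true ∧
    allY (E.wth T1) l35194 = true ∧
    allY (E.wth T1) l35195 = true ∧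
    allY (E.wth T1) l35196 = true ∧
    allY (E.wth T1) l35197 = true :=
  ⟨by decide +kernel, by decide +kernel, by decide +kernel, by decide +kernel, by decide +kernel, by decide +kernel, by decide +kernel, by decide +kernel⟩

def t35198 : allY (E.wth T1) l35198 = true ∧
    allY (E.wth T1) l35199 = true ∧
    allY (E.wth T1) l35200 = true ∧
    allY (E.wth T1) l35201 = true ∧
    allY (E.wth T1) l35202 = true ∧
    allY (E.wth T1) l35203 = true ∧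
    allY (E.wth T1) l35204 = true ∧
    allY (E.wth T1) l35205 = true :=
  ⟨by decide +kernel, by decide +kernel, by decide +kernel, by decide +kernel, by decide +kernel, by decide +kernel, by decide +kernel, by decide +kernel⟩

def t35206 : allY (E.wth T1) l35206 = true ∧
    allY (E.wth T1) l35207 = true ∧
    allY (E.wth T1) l35208 = true ∧
    allY (E.wth T1) l35209 = true ∧
    allY (E.wth T1) l35210 = true ∧
    allY (E.wth T1) l35211 = true ∧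
    allY (E.wth T1) l35212 = true ∧
    allY (E.wth T1) l35213 = true :=
  ⟨by decide +kernel, by decide +kernel, by decide +kernel, by decide +kernel, by decide +kernel, by decide +kernel, by decide +kernel, by decide +kernel⟩

def t35214 : allY (E.wth T1) l35214 = true ∧
    allY (E.wth T1) l35215 = true ∧
    allY (E.wth T1) l35216 = true ∧
    allY (E.wth T1) l35217 = true ∧
    allY (E.wth T1) l35218 = true ∧
    allY (E.wth T1) l35219 = true ∧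
    allY (E.wth T1) l35220 = true ∧
    allY (E.wth T1) l35221 = true :=
  ⟨by decide +kernel, by decide +kernel, by decide +kernel, by decide +kernel, by decide +kernel, by decide +kernel, by decide +kernel, by decide +kernel⟩

def t35222 : allY (E.wth T1) l35222 = true ∧
    allY (E.wth T1) l35223 = true ∧
    allY (E.wth T1) l35224 = true ∧
    allY (E.wth T1) l35225 = true ∧
    allY (E.wth T1) l35226 = true ∧
    allY (E.wth T1) l35227 = true ∧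
    allY (E.wth T1) l35228 = true ∧
    allY (E.wth T1) l35229 = true :=
  ⟨by decide +kernel, by decide +kernel, by decide +kernel, by decide +kernel, by decide +kernel, by decide +kernel, by decide +kernel, by decide +kernel⟩

def t35230 : allY (E.wth T1) l35230 = true ∧
    allY (E.wth T1) l35231 = true ∧
    allY (E.wth T1) l35232 = true ∧
    allY (E.wth T1) l35233 = true ∧
    allY (E.wth T1) l35234 = true ∧
    allY (E.wth T1) l35235 = true ∧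
    allY (E.wth T1) l35236 = true ∧
    allY (E.wth T1) l35237 = true :=
  ⟨by decide +kernel, by decide +kernel, by decide +kernel, by decide +kernel, by decide +kernel, by decide +kernel, by decide +kernel, by decide +kernel⟩

def t35238 : allY (E.wth T1) l35238 = true ∧
    allY (E.wth T1) l35239 = true ∧
    allY (E.wth T1) l35240 = true ∧
    allY (E.wth T1) l35241 = true ∧
    allY (E.wth T1) l35242 = true ∧
    allY (E.wth T1) l35243 = true ∧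
    allY (E.wth T1) l35244 = true ∧
    allY (E.wth T1) l35245 = true :=
  ⟨by decide +kernel, by decide +kernel, by decide +kernel, by decide +kernel, by decide +kernel, by decide +kernel, by decide +kernel, by decide +kernel⟩

def t35246 : allY (E.wth T1) l35246 = true ∧
    allY (E.wth T1) l35247 = true ∧
    allY (E.wth T1) l35248 = true ∧
    allY (E.wth T1) l35249 = true ∧
    allY (E.wth T1) l35250 = true ∧
    allY (E.wth T1) l35251 = true ∧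
    allY (E.wth T1) l35252 = true ∧
    allY (E.wth T1) l35253 = true :=
  ⟨by decide +kernel, by decide +kernel, by decide +kernel, by decide +kernel, by decide +kernel, by decide +kernel, by decide +kernel, by decide +kernel⟩

def t35254 : allY (E.wth T1) l35254 = true ∧
    allY (E.wth T1) l35255 = true ∧
    allY (E.wth T1) l35256 = true ∧
    allY (E.wth T1) l35257 = true ∧
    allY (E.wth T1) l35258 = true ∧
    allY (E.wth T1) l35259 = true ∧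
    allY (E.wth T1) l35260 = true ∧
    allY (E.wth T1) l35261 = true :=
  ⟨by decide +kernel, by decide +kernel, by decide +kernel, by decide +kernel, by decide +kernel, by decide +kernel, by decide +kernel, by decide +kernel⟩

def t35262 : allY (E.wth T1) l35262 = true ∧
    allY (E.wth T1) l35263 = true ∧
    allY (E.wth T1) l35264 = true ∧
    allY (E.wth T1) l35265 = true ∧
    allY (E.wth T1) l35266 = true ∧
    allY (E.wth T1) l35267 = true ∧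
    allY (E.wth T1) l35268 = true ∧
    allY (E.wth T1) l35269 = true :=
  ⟨by decide +kernel, by decide +kernel, by decide +kernel, by decide +kernel, by decide +kernel, by decide +kernel, by decide +kernel, by decide +kernel⟩

def t35270 : allY (E.wth T1) l35270 = true ∧
    allY (E.wth T1) l35271 = true ∧
    allY (E.wth T1) l35272 = true ∧
    allY (E.wth T1) l35273 = true ∧
    allY (E.wth T1) l35274 = true ∧
    allY (E.wth T1) l35275 = true ∧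
    allY (E.wth T1) l35276 = true ∧
    allY (E.wth T1) l35277 = true :=
  ⟨by decide +kernel, by decide +kernel, by decide +kernel, by decide +kernel, by decide +kernel, by decide +kernel, by decide +kernel, by decide +kernel⟩

def t35278 : allY (E.wth T1) l35278 = true ∧
    allY (E.wth T1) l35279 = true ∧
    allY (E.wth T1) l35280 = true ∧
    allY (E.wth T1) l35281 = true ∧
    allY (E.wth T1) l35282 = true ∧
    allY (E.wth T1) l35283 = true ∧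
    allY (E.wth T1) l35284 = true ∧
    allY (E.wth T1) l35285 = true :=
  ⟨by decide +kernel, by decide +kernel, by decide +kernel, by decide +kernel, by decide +kernel, by decide +kernel, by decide +kernel, by decide +kernel⟩

def t35286 : allY (E.wth T1) l35286 = true ∧
    allY (E.wth T1) l35287 = true ∧
    allY (E.wth T1) l35288 = true ∧
    allY (E.wth T1) l35289 = true ∧
    allY (E.wth T1) l35290 = true ∧
    allY (E.wth T1) l35291 = true ∧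
    allY (E.wth T1) l35292 = true ∧
    allY (E.wth T1) l35293 = true :=
  ⟨by decide +kernel, by decide +kernel, by decide +kernel, by decide +kernel, by decide +kernel, by decide +kernel, by decide +kernel, by decide +kernel⟩

def t35294 : allY (E.wth T1) l35294 = true ∧
    allY (E.wth T1) l35295 = true ∧
    allY (E.wth T1) l35296 = true ∧
    allY (E.wth T1) l35297 = true ∧
    allY (E.wth T1) l35298 = true ∧
    allY (E.wth T1) l35299 = true ∧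
    allY (E.wth T1) l35300 = true ∧
    allY (E.wth T1) l35301 = true :=
  ⟨by decide +kernel, by decide +kernel, by decide +kernel, by decide +kernel, by decide +kernel, by decide +kernel, by decide +kernel, by decide +kernel⟩

def t35302 : allY (E.wth T1) l35302 = true ∧
    allY (E.wth T1) l35303 = true ∧
    allY (E.wth T1) l35304 = true ∧
    allY (E.wth T1) l35305 = true ∧
    allY (E.wth T1) l35306 = true ∧
    allY (E.wth T1) l35307 = true ∧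
    allY (E.wth T1) l35308 = true ∧
    allY (E.wth T1) l35309 = true :=
  ⟨by decide +kernel, by decide +kernel, by decide +kernel, by decide +kernel, by decide +kernel, by decide +kernel, by decide +kernel, by decide +kernel⟩

def t35310 : allY (E.wth T1) l35310 = true ∧
    allY (E.wth T1) l35311 = true ∧
    allY (E.wth T1) l35312 = true ∧
    allY (E.wth T1) l35313 = true ∧
    allY (E.wth T1) l35314 = true ∧
    allY (E.wth T1) l35315 = true ∧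
    allY (E.wth T1) l35316 = true ∧
    allY (E.wth T1) l35317 = true :=
  ⟨by decide +kernel, by decide +kernel, by decide +kernel, by decide +kernel, by decide +kernel, by decide +kernel, by decide +kernel, by decide +kernel⟩

def t35318 : allY (E.wth T1) l35318 = true ∧
    allY (E.wth T1) l35319 = true ∧
    allY (E.wth T1) l35320 = true ∧
    allY (E.wth T1) l35321 = true ∧
    allY (E.wth T1) l35322 = true ∧
    allY (E.wth T1) l35323 = true ∧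
    allY (E.wth T1) l35324 = true ∧
    allY (E.wth T1) l35325 = true :=
  ⟨by decide +kernel, by decide +kernel, by decide +kernel, by decide +kernel, by decide +kernel, by decide +kernel, by decide +kernel, by decide +kernel⟩

def t35326 : allY (E.wth T1) l35326 = true ∧
    allY (E.wth T1) l35327 = true ∧
    allY (E.wth T1) l35328 = true ∧
    allY (E.wth T1) l35329 = true ∧
    allY (E.wth T1) l35330 = true ∧
    allY (E.wth T1) l35331 = true ∧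
    allY (E.wth T1) l35332 = true ∧
    allY (E.wth T1) l35333 = true :=
  ⟨by decide +kernel, by decide +kernel, by decide +kernel, by decide +kernel, by decide +kernel, by decide +kernel, by decide +kernel, by decide +kernel⟩

def t35334 : allY (E.wth T1) l35334 = true ∧
    allY (E.wth T1) l35335 = true ∧
    allY (E.wth T1) l35336 = true ∧
    allY (E.wth T1) l35337 = true ∧
    allY (E.wth T1) l35338 = true ∧
    allY (E.wth T1) l35339 = true ∧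
    allY (E.wth T1) l35340 = true ∧
    allY (E.wth T1) l35341 = true :=
  ⟨by decide +kernel, by decide +kernel, by decide +kernel, by decide +kernel, by decide +kernel, by decide +kernel, by decide +kernel, by decide +kernel⟩

def t35342 : allY (E.wth T1) l35342 = true ∧
    allY (E.wth T1) l35343 = true ∧
    allY (E.wth T1) l35344 = true ∧
    allY (E.wth T1) l35345 = true ∧
    allY (E.wth T1) l35346 = true ∧
    allY (E.wth T1) l35347 = true ∧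
    allY (E.wth T1) l35348 = true ∧
    allY (E.wth T1) l35349 = true :=
  ⟨by decide +kernel, by decide +kernel, by decide +kernel, by decide +kernel, by decide +kernel, by decide +kernel, by decide +kernel, by decide +kernel⟩

def t35350 : allY (E.wth T1) l35350 = true ∧
    allY (E.wth T1) l35351 = true ∧
    allY (E.wth T1) l35352 = true ∧
    allY (E.wth T1) l35353 = true ∧
    allY (E.wth T1) l35354 = true ∧
    allY (E.wth T1) l35355 = true ∧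
    allY (E.wth T1) l35356 = true ∧
    allY (E.wth T1) l35357 = true :=
  ⟨by decide +kernel, by decide +kernel, by decide +kernel, by decide +kernel, by decide +kernel, by decide +kernel, by decide +kernel, by decide +kernel⟩

def t35358 : allY (E.wth T1) l35358 = true ∧
    allY (E.wth T1) l35359 = true ∧
    allY (E.wth T1) l35360 = true ∧
    allY (E.wth T1) l35361 = true ∧
    allY (E.wth T1) l35362 = true ∧
    allY (E.wth T1) l35363 = true ∧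
    allY (E.wth T1) l35364 = true ∧
    allY (E.wth T1) l35365 = true :=
  ⟨by decide +kernel, by decide +kernel, by decide +kernel, by decide +kernel, by decide +kernel, by decide +kernel, by decide +kernel, by decide +kernel⟩

def t35366 : allY (E.wth T1) l35366 = true ∧
    allY (E.wth T1) l35367 = true ∧
    allY (E.wth T1) l35368 = true ∧
    allY (E.wth T1) l35369 = true ∧
    allY (E.wth T1) l35370 = true ∧
    allY (E.wth T1) l35371 = true ∧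
    allY (E.wth T1) l35372 = true ∧
    allY (E.wth T1) l35373 = true :=
  ⟨by decide +kernel, by decide +kernel, by decide +kernel, by decide +kernel, by decide +kernel, by decide +kernel, by decide +kernel, by decide +kernel⟩

def t35374 : allY (E.wth T1) l35374 = true ∧
    allY (E.wth T1) l35375 = true ∧
    allY (E.wth T1) l35376 = true :=
  ⟨by decide +kernel, by decide +kernel, by decide +kernel⟩

theorem a63 {p : Rf → Prop} (H : ∀ l, allY (E.wth T1) l = true → (lkp l).All p) :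
    b63.All p := ⟨⟨⟨⟨⟨⟨⟨⟨⟨H _ t34838.1, H _ t34838.2.1⟩, ⟨H _ t34838.2.2.1, H _ t34838.2.2.2.1⟩⟩, ⟨⟨H _ t34838.2.2.2.2.1, H _ t34838.2.2.2.2.2.1⟩, ⟨H _ t34838.2.2.2.2.2.2.1, H _ t34838.2.2.2.2.2.2.2⟩⟩⟩, ⟨⟨⟨H _ t34846.1, H _ t34846.2.1⟩, ⟨H _ t34846.2.2.1, H _ t34846.2.2.2.1⟩⟩, ⟨⟨H _ t34846.2.2.2.2.1, H _ t34846.2.2.2.2.2.1⟩, ⟨H _ t34846.2.2.2.2.2.2.1, H _ t34846.2.2.2.2.2.2.2⟩⟩⟩⟩, ⟨⟨⟨⟨H _ t34854.1, H _ t34854.2.1⟩, ⟨H _ t34854.2.2.1, H _ t34854.2.2.2.1⟩⟩, ⟨⟨H _ t34854.2.2.2.2.1, H _ t34854.2.2.2.2.2.1⟩, ⟨H _ t34854.2.2.2.2.2.2.1, H _ t34854.2.2.2.2.2.2.2⟩⟩⟩, ⟨⟨⟨H _ t34862.1, H _ t34862.2.1⟩, ⟨H _ t34862.2.2.1, H _ t34862.2.2.2.1⟩⟩, ⟨⟨H _ t34862.2.2.2.2.1, H _ t34862.2.2.2.2.2.1⟩, ⟨H _ t34862.2.2.2.2.2.2.1, ⟨H _ t34862.2.2.2.2.2.2.2, H _ t34870.1⟩⟩⟩⟩⟩⟩, ⟨⟨⟨⟨⟨H _ t34870.2.1, H _ t34870.2.2.1⟩, ⟨H _ t34870.2.2.2.1, H _ t34870.2.2.2.2.1⟩⟩, ⟨⟨H _ t34870.2.2.2.2.2.1, H _ t34870.2.2.2.2.2.2.1⟩, ⟨H _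 t34870.2.2.2.2.2.2.2, H _ t34878.1⟩⟩⟩, ⟨⟨⟨H _ t34878.2.1, H _ t34878.2.2.1⟩, ⟨H _ t34878.2.2.2.1, H _ t34878.2.2.2.2.1⟩⟩, ⟨⟨H _ t34878.2.2.2.2.2.1, H _ t34878.2.2.2.2.2.2.1⟩, ⟨H _ t34878.2.2.2.2.2.2.2, ⟨H _ t34886.1, H _ t34886.2.1⟩⟩⟩⟩⟩, ⟨⟨⟨⟨H _ t34886.2.2.1, H _ t34886.2.2.2.1⟩, ⟨H _ t34886.2.2.2.2.1, H _ t34886.2.2.2.2.2.1⟩⟩, ⟨⟨H _ t34886.2.2.2.2.2.2.1, H _ t34886.2.2.2.2.2.2.2⟩, ⟨H _ t34894.1, H _ t34894.2.1⟩⟩⟩, ⟨⟨⟨H _ t34894.2.2.1, H _ t34894.2.2.2.1⟩, ⟨H _ t34894.2.2.2.2.1, H _ t34894.2.2.2.2.2.1⟩⟩, ⟨⟨H _ t34894.2.2.2.2.2.2.1, H _ t34894.2.2.2.2.2.2.2⟩, ⟨H _ t34902.1, ⟨H _ t34902.2.1, H _ t34902.2.2.1⟩⟩⟩⟩⟩⟩⟩, ⟨⟨⟨⟨⟨⟨H _ t34902.2.2.2.1, H _ t34902.2.2.2.2.1⟩, ⟨H _ t34902.2.2.2.2.2.1, H _ t34902.2.2.2.2.2.2.1⟩⟩, ⟨⟨H _ t34902.2.2.2.2.2.2.2, H _ t34910.1⟩, ⟨H _ t34910.2.1, H _ t34910.2.2.1⟩⟩⟩, ⟨⟨⟨H _ t34910.2.2.2.1, H _ t34910.2.2.2.2.1⟩, ⟨H _ t34910.2.2.2.2.2.1, H _ t34910.2.2.2.2.2.2.1⟩⟩, ⟨⟨H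 _ t34910.2.2.2.2.2.2.2, H _ t34918.1⟩, ⟨H _ t34918.2.1, H _ t34918.2.2.1⟩⟩⟩⟩, ⟨⟨⟨⟨H _ t34918.2.2.2.1, H _ t34918.2.2.2.2.1⟩, ⟨H _ t34918.2.2.2.2.2.1, H _ t34918.2.2.2.2.2.2.1⟩⟩, ⟨⟨H _ t34918.2.2.2.2.2.2.2, H _ t34926.1⟩, ⟨H _ t34926.2.1, H _ t34926.2.2.1⟩⟩⟩, ⟨⟨⟨H _ t34926.2.2.2.1, H _ t34926.2.2.2.2.1⟩, ⟨H _ t34926.2.2.2.2.2.1, H _ t34926.2.2.2.2.2.2.1⟩⟩, ⟨⟨H _ t34926.2.2.2.2.2.2.2, H _ t34934.1⟩, ⟨H _ t34934.2.1, ⟨H _ t34934.2.2.1, H _ t34934.2.2.2.1⟩⟩⟩⟩⟩⟩, ⟨⟨⟨⟨⟨H _ t34934.2.2.2.2.1, H _ t34934.2.2.2.2.2.1⟩, ⟨H _ t34934.2.2.2.2.2.2.1, H _ t34934.2.2.2.2.2.2.2⟩⟩, ⟨⟨H _ t34942.1, H _ t34942.2.1⟩, ⟨H _ t34942.2.2.1, H _ t34942.2.2.2.1⟩⟩⟩, ⟨⟨⟨H _ t34942.2.2.2.2.1, H _ t34942.2.2.2.2.2.1⟩, ⟨H _ t34942.2.2.2.2.2.2.1, H _ t34942.2.2.2.2.2.2.2⟩⟩, ⟨⟨H _ t34950.1, H _ t34950.2.1⟩, ⟨H _ t34950.2.2.1, ⟨H _ t34950.2.2.2.1, H _ t34950.2.2.2.2.1⟩⟩⟩⟩⟩, ⟨⟨⟨⟨H _ t34950.2.2.2.2.2.1, H _ t34950.2.2.2.2.2.2.1⟩,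 ⟨H _ t34950.2.2.2.2.2.2.2, H _ t34958.1⟩⟩, ⟨⟨H _ t34958.2.1, H _ t34958.2.2.1⟩, ⟨H _ t34958.2.2.2.1, H _ t34958.2.2.2.2.1⟩⟩⟩, ⟨⟨⟨H _ t34958.2.2.2.2.2.1, H _ t34958.2.2.2.2.2.2.1⟩, ⟨H _ t34958.2.2.2.2.2.2.2, H _ t34966.1⟩⟩, ⟨⟨H _ t34966.2.1, H _ t34966.2.2.1⟩, ⟨H _ t34966.2.2.2.1, ⟨H _ t34966.2.2.2.2.1, H _ t34966.2.2.2.2.2.1⟩⟩⟩⟩⟩⟩⟩⟩, ⟨⟨⟨⟨⟨⟨⟨H _ t34966.2.2.2.2.2.2.1, H _ t34966.2.2.2.2.2.2.2⟩, ⟨H _ t34974.1, H _ t34974.2.1⟩⟩, ⟨⟨H _ t34974.2.2.1, H _ t34974.2.2.2.1⟩, ⟨H _ t34974.2.2.2.2.1, H _ t34974.2.2.2.2.2.1⟩⟩⟩, ⟨⟨⟨H _ t34974.2.2.2.2.2.2.1, H _ t34974.2.2.2.2.2.2.2⟩, ⟨H _ t34982.1, H _ t34982.2.1⟩⟩, ⟨⟨H _ t34982.2.2.1, H _ t34982.2.2.2.1⟩, ⟨H _ t34982.2.2.2.2.1, H _ t34982.2.2.2.2.2.1⟩⟩⟩⟩, ⟨⟨⟨⟨H _ t34982.2.2.2.2.2.2.1, H _ t34982.2.2.2.2.2.2.2⟩, ⟨H _ t34990.1, H _ t34990.2.1⟩⟩, ⟨⟨H _ t34990.2.2.1, H _ t34990.2.2.2.1⟩, ⟨H _ t34990.2.2.2.2.1, H _ t34990.2.2.2.2.2.1⟩⟩⟩, ⟨⟨⟨H _ t34990.2.2.2.2.2.2.1,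 H _ t34990.2.2.2.2.2.2.2⟩, ⟨H _ t34998.1, H _ t34998.2.1⟩⟩, ⟨⟨H _ t34998.2.2.1, H _ t34998.2.2.2.1⟩, ⟨H _ t34998.2.2.2.2.1, ⟨H _ t34998.2.2.2.2.2.1, H _ t34998.2.2.2.2.2.2.1⟩⟩⟩⟩⟩⟩, ⟨⟨⟨⟨⟨H _ t34998.2.2.2.2.2.2.2, H _ t35006.1⟩, ⟨H _ t35006.2.1, H _ t35006.2.2.1⟩⟩, ⟨⟨H _ t35006.2.2.2.1, H _ t35006.2.2.2.2.1⟩, ⟨H _ t35006.2.2.2.2.2.1, H _ t35006.2.2.2.2.2.2.1⟩⟩⟩, ⟨⟨⟨H _ t35006.2.2.2.2.2.2.2, H _ t35014.1⟩, ⟨H _ t35014.2.1, H _ t35014.2.2.1⟩⟩, ⟨⟨H _ t35014.2.2.2.1, H _ t35014.2.2.2.2.1⟩, ⟨H _ t35014.2.2.2.2.2.1, ⟨H _ t35014.2.2.2.2.2.2.1, H _ t35014.2.2.2.2.2.2.2⟩⟩⟩⟩⟩, ⟨⟨⟨⟨H _ t35022.1, H _ t35022.2.1⟩, ⟨H _ t35022.2.2.1, H _ t35022.2.2.2.1⟩⟩, ⟨⟨H _ t35022.2.2.2.2.1, H _ t35022.2.2.2.2.2.1⟩, ⟨H _ t35022.2.2.2.2.2.2.1, H _ t35022.2.2.2.2.2.2.2⟩⟩⟩, ⟨⟨⟨H _ t35030.1, H _ t35030.2.1⟩, ⟨H _ t35030.2.2.1, H _ t35030.2.2.2.1⟩⟩, ⟨⟨H _ t35030.2.2.2.2.1, H _ t35030.2.2.2.2.2.1⟩, ⟨H _ t35030.2.2.2.2.2.2.1, ⟨H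 _ t35030.2.2.2.2.2.2.2, H _ t35038.1⟩⟩⟩⟩⟩⟩⟩, ⟨⟨⟨⟨⟨⟨H _ t35038.2.1, H _ t35038.2.2.1⟩, ⟨H _ t35038.2.2.2.1, H _ t35038.2.2.2.2.1⟩⟩, ⟨⟨H _ t35038.2.2.2.2.2.1, H _ t35038.2.2.2.2.2.2.1⟩, ⟨H _ t35038.2.2.2.2.2.2.2, H _ t35046.1⟩⟩⟩, ⟨⟨⟨H _ t35046.2.1, H _ t35046.2.2.1⟩, ⟨H _ t35046.2.2.2.1, H _ t35046.2.2.2.2.1⟩⟩, ⟨⟨H _ t35046.2.2.2.2.2.1, H _ t35046.2.2.2.2.2.2.1⟩, ⟨H _ t35046.2.2.2.2.2.2.2, ⟨H _ t35054.1, H _ t35054.2.1⟩⟩⟩⟩⟩, ⟨⟨⟨⟨H _ t35054.2.2.1, H _ t35054.2.2.2.1⟩, ⟨H _ t35054.2.2.2.2.1, H _ t35054.2.2.2.2.2.1⟩⟩, ⟨⟨H _ t35054.2.2.2.2.2.2.1, H _ t35054.2.2.2.2.2.2.2⟩, ⟨H _ t35062.1, H _ t35062.2.1⟩⟩⟩, ⟨⟨⟨H _ t35062.2.2.1, H _ t35062.2.2.2.1⟩, ⟨H _ t35062.2.2.2.2.1, H _ t35062.2.2.2.2.2.1⟩⟩, ⟨⟨H _ t35062.2.2.2.2.2.2.1, H _ t35062.2.2.2.2.2.2.2⟩, ⟨H _ t35070.1, ⟨H _ t35070.2.1, H _ t35070.2.2.1⟩⟩⟩⟩⟩⟩, ⟨⟨⟨⟨⟨H _ t35070.2.2.2.1, H _ t35070.2.2.2.2.1⟩, ⟨H _ t35070.2.2.2.2.2.1, H _ t35070.2.2.2.2.2.2.1⟩⟩,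 ⟨⟨H _ t35070.2.2.2.2.2.2.2, H _ t35078.1⟩, ⟨H _ t35078.2.1, H _ t35078.2.2.1⟩⟩⟩, ⟨⟨⟨H _ t35078.2.2.2.1, H _ t35078.2.2.2.2.1⟩, ⟨H _ t35078.2.2.2.2.2.1, H _ t35078.2.2.2.2.2.2.1⟩⟩, ⟨⟨H _ t35078.2.2.2.2.2.2.2, H _ t35086.1⟩, ⟨H _ t35086.2.1, ⟨H _ t35086.2.2.1, H _ t35086.2.2.2.1⟩⟩⟩⟩⟩, ⟨⟨⟨⟨H _ t35086.2.2.2.2.1, H _ t35086.2.2.2.2.2.1⟩, ⟨H _ t35086.2.2.2.2.2.2.1, H _ t35086.2.2.2.2.2.2.2⟩⟩, ⟨⟨H _ t35094.1, H _ t35094.2.1⟩, ⟨H _ t35094.2.2.1, H _ t35094.2.2.2.1⟩⟩⟩, ⟨⟨⟨H _ t35094.2.2.2.2.1, H _ t35094.2.2.2.2.2.1⟩, ⟨H _ t35094.2.2.2.2.2.2.1, H _ t35094.2.2.2.2.2.2.2⟩⟩, ⟨⟨H _ t35102.1, H _ t35102.2.1⟩, ⟨H _ t35102.2.2.1, ⟨H _ t35102.2.2.2.1, H _ t35102.2.2.2.2.1⟩⟩⟩⟩⟩⟩⟩⟩⟩, ⟨⟨⟨⟨⟨⟨⟨⟨H _ t35102.2.2.2.2.2.1, H _ t35102.2.2.2.2.2.2.1⟩, ⟨H _ t35102.2.2.2.2.2.2.2, H _ t35110.1⟩⟩, ⟨⟨H _ t35110.2.1, H _ t35110.2.2.1⟩, ⟨H _ t35110.2.2.2.1, H _ t35110.2.2.2.2.1⟩⟩⟩, ⟨⟨⟨H _ t35110.2.2.2.2.2.1, H _ t35110.2.2.2.2.2.2.1⟩,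 ⟨H _ t35110.2.2.2.2.2.2.2, H _ t35118.1⟩⟩, ⟨⟨H _ t35118.2.1, H _ t35118.2.2.1⟩, ⟨H _ t35118.2.2.2.1, H _ t35118.2.2.2.2.1⟩⟩⟩⟩, ⟨⟨⟨⟨H _ t35118.2.2.2.2.2.1, H _ t35118.2.2.2.2.2.2.1⟩, ⟨H _ t35118.2.2.2.2.2.2.2, H _ t35126.1⟩⟩, ⟨⟨H _ t35126.2.1, H _ t35126.2.2.1⟩, ⟨H _ t35126.2.2.2.1, H _ t35126.2.2.2.2.1⟩⟩⟩, ⟨⟨⟨H _ t35126.2.2.2.2.2.1, H _ t35126.2.2.2.2.2.2.1⟩, ⟨H _ t35126.2.2.2.2.2.2.2, H _ t35134.1⟩⟩, ⟨⟨H _ t35134.2.1, H _ t35134.2.2.1⟩, ⟨H _ t35134.2.2.2.1, ⟨H _ t35134.2.2.2.2.1, H _ t35134.2.2.2.2.2.1⟩⟩⟩⟩⟩⟩, ⟨⟨⟨⟨⟨H _ t35134.2.2.2.2.2.2.1, H _ t35134.2.2.2.2.2.2.2⟩, ⟨H _ t35142.1, H _ t35142.2.1⟩⟩, ⟨⟨H _ t35142.2.2.1, H _ t35142.2.2.2.1⟩, ⟨H _ t35142.2.2.2.2.1, H _ t35142.2.2.2.2.2.1⟩⟩⟩, ⟨⟨⟨H _ t35142.2.2.2.2.2.2.1, H _ t35142.2.2.2.2.2.2.2⟩, ⟨H _ t35150.1, H _ t35150.2.1⟩⟩, ⟨⟨H _ t35150.2.2.1, H _ t35150.2.2.2.1⟩, ⟨H _ t35150.2.2.2.2.1, ⟨H _ t35150.2.2.2.2.2.1, H _ t35150.2.2.2.2.2.2.1⟩⟩⟩⟩⟩,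 ⟨⟨⟨⟨H _ t35150.2.2.2.2.2.2.2, H _ t35158.1⟩, ⟨H _ t35158.2.1, H _ t35158.2.2.1⟩⟩, ⟨⟨H _ t35158.2.2.2.1, H _ t35158.2.2.2.2.1⟩, ⟨H _ t35158.2.2.2.2.2.1, H _ t35158.2.2.2.2.2.2.1⟩⟩⟩, ⟨⟨⟨H _ t35158.2.2.2.2.2.2.2, H _ t35166.1⟩, ⟨H _ t35166.2.1, H _ t35166.2.2.1⟩⟩, ⟨⟨H _ t35166.2.2.2.1, H _ t35166.2.2.2.2.1⟩, ⟨H _ t35166.2.2.2.2.2.1, ⟨H _ t35166.2.2.2.2.2.2.1, H _ t35166.2.2.2.2.2.2.2⟩⟩⟩⟩⟩⟩⟩, ⟨⟨⟨⟨⟨⟨H _ t35174.1, H _ t35174.2.1⟩, ⟨H _ t35174.2.2.1, H _ t35174.2.2.2.1⟩⟩, ⟨⟨H _ t35174.2.2.2.2.1, H _ t35174.2.2.2.2.2.1⟩, ⟨H _ t35174.2.2.2.2.2.2.1, H _ t35174.2.2.2.2.2.2.2⟩⟩⟩, ⟨⟨⟨H _ t35182.1, H _ t35182.2.1⟩, ⟨H _ t35182.2.2.1, H _ t35182.2.2.2.1⟩⟩, ⟨⟨H _ t35182.2.2.2.2.1, H _ t35182.2.2.2.2.2.1⟩, ⟨H _ t35182.2.2.2.2.2.2.1, ⟨H _ t35182.2.2.2.2.2.2.2, H _ t35190.1⟩⟩⟩⟩⟩, ⟨⟨⟨⟨H _ t35190.2.1, H _ t35190.2.2.1⟩, ⟨H _ t35190.2.2.2.1, H _ t35190.2.2.2.2.1⟩⟩, ⟨⟨H _ t35190.2.2.2.2.2.1, H _ t35190.2.2.2.2.2.2.1⟩,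 ⟨H _ t35190.2.2.2.2.2.2.2, H _ t35198.1⟩⟩⟩, ⟨⟨⟨H _ t35198.2.1, H _ t35198.2.2.1⟩, ⟨H _ t35198.2.2.2.1, H _ t35198.2.2.2.2.1⟩⟩, ⟨⟨H _ t35198.2.2.2.2.2.1, H _ t35198.2.2.2.2.2.2.1⟩, ⟨H _ t35198.2.2.2.2.2.2.2, ⟨H _ t35206.1, H _ t35206.2.1⟩⟩⟩⟩⟩⟩, ⟨⟨⟨⟨⟨H _ t35206.2.2.1, H _ t35206.2.2.2.1⟩, ⟨H _ t35206.2.2.2.2.1, H _ t35206.2.2.2.2.2.1⟩⟩, ⟨⟨H _ t35206.2.2.2.2.2.2.1, H _ t35206.2.2.2.2.2.2.2⟩, ⟨H _ t35214.1, H _ t35214.2.1⟩⟩⟩, ⟨⟨⟨H _ t35214.2.2.1, H _ t35214.2.2.2.1⟩, ⟨H _ t35214.2.2.2.2.1, H _ t35214.2.2.2.2.2.1⟩⟩, ⟨⟨H _ t35214.2.2.2.2.2.2.1, H _ t35214.2.2.2.2.2.2.2⟩, ⟨H _ t35222.1, ⟨H _ t35222.2.1, H _ t35222.2.2.1⟩⟩⟩⟩⟩, ⟨⟨⟨⟨H _ t35222.2.2.2.1, H _ t35222.2.2.2.2.1⟩, ⟨H _ t35222.2.2.2.2.2.1, H _ t35222.2.2.2.2.2.2.1⟩⟩, ⟨⟨H _ t35222.2.2.2.2.2.2.2, H _ t35230.1⟩, ⟨H _ t35230.2.1, H _ t35230.2.2.1⟩⟩⟩, ⟨⟨⟨H _ t35230.2.2.2.1, H _ t35230.2.2.2.2.1⟩, ⟨H _ t35230.2.2.2.2.2.1, H _ t35230.2.2.2.2.2.2.1⟩⟩,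 ⟨⟨H _ t35230.2.2.2.2.2.2.2, H _ t35238.1⟩, ⟨H _ t35238.2.1, ⟨H _ t35238.2.2.1, H _ t35238.2.2.2.1⟩⟩⟩⟩⟩⟩⟩⟩, ⟨⟨⟨⟨⟨⟨⟨H _ t35238.2.2.2.2.1, H _ t35238.2.2.2.2.2.1⟩, ⟨H _ t35238.2.2.2.2.2.2.1, H _ t35238.2.2.2.2.2.2.2⟩⟩, ⟨⟨H _ t35246.1, H _ t35246.2.1⟩, ⟨H _ t35246.2.2.1, H _ t35246.2.2.2.1⟩⟩⟩, ⟨⟨⟨H _ t35246.2.2.2.2.1, H _ t35246.2.2.2.2.2.1⟩, ⟨H _ t35246.2.2.2.2.2.2.1, H _ t35246.2.2.2.2.2.2.2⟩⟩, ⟨⟨H _ t35254.1, H _ t35254.2.1⟩, ⟨H _ t35254.2.2.1, H _ t35254.2.2.2.1⟩⟩⟩⟩, ⟨⟨⟨⟨H _ t35254.2.2.2.2.1, H _ t35254.2.2.2.2.2.1⟩, ⟨H _ t35254.2.2.2.2.2.2.1, H _ t35254.2.2.2.2.2.2.2⟩⟩, ⟨⟨H _ t35262.1, H _ t35262.2.1⟩, ⟨H _ t35262.2.2.1, H _ t35262.2.2.2.1⟩⟩⟩, ⟨⟨⟨H _ t35262.2.2.2.2.1, H _ t35262.2.2.2.2.2.1⟩, ⟨H _ t35262.2.2.2.2.2.2.1, H _ t35262.2.2.2.2.2.2.2⟩⟩, ⟨⟨H _ t35270.1, H _ t35270.2.1⟩, ⟨H _ t35270.2.2.1, ⟨H _ t35270.2.2.2.1, H _ t35270.2.2.2.2.1⟩⟩⟩⟩⟩⟩, ⟨⟨⟨⟨⟨H _ t35270.2.2.2.2.2.1, H _ t35270.2.2.2.2.2.2.1⟩,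 ⟨H _ t35270.2.2.2.2.2.2.2, H _ t35278.1⟩⟩, ⟨⟨H _ t35278.2.1, H _ t35278.2.2.1⟩, ⟨H _ t35278.2.2.2.1, H _ t35278.2.2.2.2.1⟩⟩⟩, ⟨⟨⟨H _ t35278.2.2.2.2.2.1, H _ t35278.2.2.2.2.2.2.1⟩, ⟨H _ t35278.2.2.2.2.2.2.2, H _ t35286.1⟩⟩, ⟨⟨H _ t35286.2.1, H _ t35286.2.2.1⟩, ⟨H _ t35286.2.2.2.1, ⟨H _ t35286.2.2.2.2.1, H _ t35286.2.2.2.2.2.1⟩⟩⟩⟩⟩, ⟨⟨⟨⟨H _ t35286.2.2.2.2.2.2.1, H _ t35286.2.2.2.2.2.2.2⟩, ⟨H _ t35294.1, H _ t35294.2.1⟩⟩, ⟨⟨H _ t35294.2.2.1, H _ t35294.2.2.2.1⟩, ⟨H _ t35294.2.2.2.2.1, H _ t35294.2.2.2.2.2.1⟩⟩⟩, ⟨⟨⟨H _ t35294.2.2.2.2.2.2.1, H _ t35294.2.2.2.2.2.2.2⟩, ⟨H _ t35302.1, H _ t35302.2.1⟩⟩, ⟨⟨H _ t35302.2.2.1, H _ t35302.2.2.2.1⟩, ⟨H _ t35302.2.2.2.2.1, ⟨H _ t35302.2.2.2.2.2.1, H _ t35302.2.2.2.2.2.2.1⟩⟩⟩⟩⟩⟩⟩, ⟨⟨⟨⟨⟨⟨H _ t35302.2.2.2.2.2.2.2, H _ t35310.1⟩, ⟨H _ t35310.2.1, H _ t35310.2.2.1⟩⟩, ⟨⟨H _ t35310.2.2.2.1, H _ t35310.2.2.2.2.1⟩, ⟨H _ t35310.2.2.2.2.2.1, H _ t35310.2.2.2.2.2.2.1⟩⟩⟩,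 ⟨⟨⟨H _ t35310.2.2.2.2.2.2.2, H _ t35318.1⟩, ⟨H _ t35318.2.1, H _ t35318.2.2.1⟩⟩, ⟨⟨H _ t35318.2.2.2.1, H _ t35318.2.2.2.2.1⟩, ⟨H _ t35318.2.2.2.2.2.1, ⟨H _ t35318.2.2.2.2.2.2.1, H _ t35318.2.2.2.2.2.2.2⟩⟩⟩⟩⟩, ⟨⟨⟨⟨H _ t35326.1, H _ t35326.2.1⟩, ⟨H _ t35326.2.2.1, H _ t35326.2.2.2.1⟩⟩, ⟨⟨H _ t35326.2.2.2.2.1, H _ t35326.2.2.2.2.2.1⟩, ⟨H _ t35326.2.2.2.2.2.2.1, H _ t35326.2.2.2.2.2.2.2⟩⟩⟩, ⟨⟨⟨H _ t35334.1, H _ t35334.2.1⟩, ⟨H _ t35334.2.2.1, H _ t35334.2.2.2.1⟩⟩, ⟨⟨H _ t35334.2.2.2.2.1, H _ t35334.2.2.2.2.2.1⟩, ⟨H _ t35334.2.2.2.2.2.2.1, ⟨H _ t35334.2.2.2.2.2.2.2, H _ t35342.1⟩⟩⟩⟩⟩⟩, ⟨⟨⟨⟨⟨H _ t35342.2.1, H _ t35342.2.2.1⟩, ⟨H _ t35342.2.2.2.1, H _ t35342.2.2.2.2.1⟩⟩, ⟨⟨H _ t35342.2.2.2.2.2.1, H _ t35342.2.2.2.2.2.2.1⟩, ⟨H _ t35342.2.2.2.2.2.2.2, H _ t35350.1⟩⟩⟩, ⟨⟨⟨H _ t35350.2.1, H _ t35350.2.2.1⟩, ⟨H _ t35350.2.2.2.1, H _ t35350.2.2.2.2.1⟩⟩, ⟨⟨H _ t35350.2.2.2.2.2.1, H _ t35350.2.2.2.2.2.2.1⟩,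 ⟨H _ t35350.2.2.2.2.2.2.2, ⟨H _ t35358.1, H _ t35358.2.1⟩⟩⟩⟩⟩, ⟨⟨⟨⟨H _ t35358.2.2.1, H _ t35358.2.2.2.1⟩, ⟨H _ t35358.2.2.2.2.1, H _ t35358.2.2.2.2.2.1⟩⟩, ⟨⟨H _ t35358.2.2.2.2.2.2.1, H _ t35358.2.2.2.2.2.2.2⟩, ⟨H _ t35366.1, H _ t35366.2.1⟩⟩⟩, ⟨⟨⟨H _ t35366.2.2.1, H _ t35366.2.2.2.1⟩, ⟨H _ t35366.2.2.2.2.1, H _ t35366.2.2.2.2.2.1⟩⟩, ⟨⟨H _ t35366.2.2.2.2.2.2.1, H _ t35366.2.2.2.2.2.2.2⟩, ⟨H _ t35374.1, ⟨H _ t35374.2.1, H _ t35374.2.2⟩⟩⟩⟩⟩⟩⟩⟩⟩⟩

end Pool.Agent.MP_c853c5_nt.X.C4950
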