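import Pool.Agent.MP_c853c5_nt.X.C4950.Env
import Pool.Agent.MP_c853c5_nt.X.C4950.Tab

set_option autoImplicit false
set_option maxRecDepth 8192
set_option linter.all false

namespace Pool.Agent.MP_c853c5_nt.X.C4950

open Pool.Agent.MP_c853c5_nt.X

def t35377 : allY (E.wth T1) l35377 = true ∧
    allY (E.wth T1) l35378 = true ∧
    allY (E.wth T1) l35379 = true ∧
    allY (E.wth T1) l35380 = true ∧
    allY (E.wth T1) l35381 = true ∧
    allY (E.wth T1) l35382 = true ∧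
    allY (E.wth T1) l35383 = true ∧
    allY (E.wth T1) l35384 = true :=
  ⟨by decide +kernel, by decide +kernel, by decide +kernel, by decide +kernel, by decide +kernel, by decide +kernel, by decide +kernel, by decide +kernel⟩

def t35385 : allY (E.wth T1) l35385 = true ∧
    allY (E.wth T1) l35386 = true ∧
    allY (E.wth T1) l35387 = true ∧
    allY (E.wth T1) l35388 = true ∧
    allY (E.wth T1) l35389 = true ∧
    allY (E.wth T1) l35390 = true ∧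
    allY (E.wth T1) l35391 = true ∧
    allY (E.wth T1) l35392 = true :=
  ⟨by decide +kernel, by decide +kernel, by decide +kernel, by decide +kernel, by decide +kernel, by decide +kernel, by decide +kernel, by decide +kernel⟩

def t35393 : allY (E.wth T1) l35393 = true ∧
    allY (E.wth T1) l35394 = true ∧
    allY (E.wth T1) l35395 = true ∧
    allY (E.wth T1) l35396 = true ∧
    allY (E.wth T1) l35397 = true ∧
    allY (E.wth T1) l35398 = true ∧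
    allY (E.wth T1) l35399 = true ∧
    allY (E.wth T1) l35400 = true :=
  ⟨by decide +kernel, by decide +kernel, by decide +kernel, by decide +kernel, by decide +kernel, by decide +kernel, by decide +kernel, by decide +kernel⟩

def t35401 : allY (E.wth T1) l35401 = true ∧
    allY (E.wth T1) l35402 = true ∧
    allY (E.wth T1) l35403 = true ∧
    allY (E.wth T1) l35404 = true ∧
    allY (E.wth T1) l35405 = true ∧
    allY (E.wth T1) l35406 = true ∧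
    allY (E.wth T1) l35407 = true ∧
    allY (E.wth T1) l35408 = true :=
  ⟨by decide +kernel, by decide +kernel, by decide +kernel, by decide +kernel, by decide +kernel, by decide +kernel, by decide +kernel, by decide +kernel⟩

def t35409 : allY (E.wth T1) l35409 = true ∧
    allY (E.wth T1) l35410 = true ∧
    allY (E.wth T1) l35411 = true ∧
    allY (E.wth T1) l35412 = true ∧
    allY (E.wth T1) l35413 = true ∧
    allY (E.wth T1) l35414 = true ∧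
    allY (E.wth T1) l35415 = true ∧
    allY (E.wth T1) l35416 = true :=
  ⟨by decide +kernel, by decide +kernel, by decide +kernel, by decide +kernel, by decide +kernel, by decide +kernel, by decide +kernel, by decide +kernel⟩

def t35417 : allY (E.wth T1) l35417 = true ∧
    allY (E.wth T1) l35418 = true ∧
    allY (E.wth T1) l35419 = true ∧
    allY (E.wth T1) l35420 = true ∧
    allY (E.wth T1) l35421 = true ∧
    allY (E.wth T1) l35422 = true ∧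
    allY (E.wth T1) l35423 = true ∧
    allY (E.wth T1) l35424 = true :=
  ⟨by decide +kernel, by decide +kernel, by decide +kernel, by decide +kernel, by decide +kernel, by decide +kernel, by decide +kernel, by decide +kernel⟩

def t35425 : allY (E.wth T1) l35425 = true ∧
    allY (E.wth T1) l35426 = true ∧
    allY (E.wth T1) l35427 = true ∧
    allY (E.wth T1) l35428 = true ∧
    allY (E.wth T1) l35429 = true ∧
    allY (E.wth T1) l35430 = true ∧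
    allY (E.wth T1) l35431 = true ∧
    allY (E.wth T1) l35432 = true :=
  ⟨by decide +kernel, by decide +kernel, by decide +kernel, by decide +kernel, by decide +kernel, by decide +kernel, by decide +kernel, by decide +kernel⟩

def t35433 : allY (E.wth T1) l35433 = true ∧
    allY (E.wth T1) l35434 = true ∧
    allY (E.wth T1) l35435 = true ∧
    allY (E.wth T1) l35436 = true ∧
    allY (E.wth T1) l35437 = true ∧
    allY (E.wth T1) l35438 = true ∧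
    allY (E.wth T1) l35439 = true ∧
    allY (E.wth T1) l35440 = true :=
  ⟨by decide +kernel, by decide +kernel, by decide +kernel, by decide +kernel, by decide +kernel, by decide +kernel, by decide +kernel, by decide +kernel⟩

def t35441 : allY (E.wth T1) l35441 = true ∧
    allY (E.wth T1) l35442 = true ∧
    allY (E.wth T1) l35443 = true ∧
    allY (E.wth T1) l35444 = true ∧
    allY (E.wth T1) l35445 = true ∧
    allY (E.wth T1) l35446 = true ∧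
    allY (E.wth T1) l35447 = true ∧
    allY (E.wth T1) l35448 = true :=
  ⟨by decide +kernel, by decide +kernel, by decide +kernel, by decide +kernel, by decide +kernel, by decide +kernel, by decide +kernel, by decide +kernel⟩

def t35449 : allY (E.wth T1) l35449 = true ∧
    allY (E.wth T1) l35450 = true ∧
    allY (E.wth T1) l35451 = true ∧
    allY (E.wth T1) l35452 = true ∧
    allY (E.wth T1) l35453 = true ∧
    allY (E.wth T1) l35454 = true ∧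
    allY (E.wth T1) l35455 = true ∧
    allY (E.wth T1) l35456 = true :=
  ⟨by decide +kernel, by decide +kernel, by decide +kernel, by decide +kernel, by decide +kernel, by decide +kernel, by decide +kernel, by decide +kernel⟩

def t35457 : allY (E.wth T1) l35457 = true ∧
    allY (E.wth T1) l35458 = true ∧
    allY (E.wth T1) l35459 = true ∧
    allY (E.wth T1) l35460 = true ∧
    allY (E.wth T1) l35461 = true ∧
    allY (E.wth T1) l35462 = true ∧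
    allY (E.wth T1) l35463 = true ∧
    allY (E.wth T1) l35464 = true :=
  ⟨by decide +kernel, by decide +kernel, by decide +kernel, by decide +kernel, by decide +kernel, by decide +kernel, by decide +kernel, by decide +kernel⟩

def t35465 : allY (E.wth T1) l35465 = true ∧
    allY (E.wth T1) l35466 = true ∧
    allY (E.wth T1) l35467 = true ∧
    allY (E.wth T1) l35468 = true ∧
    allY (E.wth T1) l35469 = true ∧
    allY (E.wth T1) l35470 = true ∧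
    allY (E.wth T1) l35471 = true ∧
    allY (E.wth T1) l35472 = true :=
  ⟨by decide +kernel, by decide +kernel, by decide +kernel, by decide +kernel, by decide +kernel, by decide +kernel, by decide +kernel, by decide +kernel⟩

def t35473 : allY (E.wth T1) l35473 = true ∧
    allY (E.wth T1) l35474 = true ∧
    allY (E.wth T1) l35475 = true ∧
    allY (E.wth T1) l35476 = true ∧
    allY (E.wth T1) l35477 = true ∧
    allY (E.wth T1) l35478 = true ∧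
    allY (E.wth T1) l35479 = true ∧
    allY (E.wth T1) l35480 = true :=
  ⟨by decide +kernel, by decide +kernel, by decide +kernel, by decide +kernel, by decide +kernel, by decide +kernel, by decide +kernel, by decide +kernel⟩

def t35481 : allY (E.wth T1) l35481 = true ∧
    allY (E.wth T1) l35482 = true ∧
    allY (E.wth T1) l35483 = true ∧
    allY (E.wth T1) l35484 = true ∧
    allY (E.wth T1) l35485 = true ∧
    allY (E.wth T1) l35486 = true ∧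
    allY (E.wth T1) l35487 = true ∧
    allY (E.wth T1) l35488 = true :=
  ⟨by decide +kernel, by decide +kernel, by decide +kernel, by decide +kernel, by decide +kernel, by decide +kernel, by decide +kernel, by decide +kernel⟩

def t35489 : allY (E.wth T1) l35489 = true ∧
    allY (E.wth T1) l35490 = true ∧
    allY (E.wth T1) l35491 = true ∧
    allY (E.wth T1) l35492 = true ∧
    allY (E.wth T1) l35493 = true ∧
    allY (E.wth T1) l35494 = true ∧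
    allY (E.wth T1) l35495 = true ∧
    allY (E.wth T1) l35496 = true :=
  ⟨by decide +kernel, by decide +kernel, by decide +kernel, by decide +kernel, by decide +kernel, by decide +kernel, by decide +kernel, by decide +kernel⟩

def t35497 : allY (E.wth T1) l35497 = true ∧
    allY (E.wth T1) l35498 = true ∧
    allY (E.wth T1) l35499 = true ∧
    allY (E.wth T1) l35500 = true ∧
    allY (E.wth T1) l35501 = true ∧
    allY (E.wth T1) l35502 = true ∧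
    allY (E.wth T1) l35503 = true ∧
    allY (E.wth T1) l35504 = true :=
  ⟨by decide +kernel, by decide +kernel, by decide +kernel, by decide +kernel, by decide +kernel, by decide +kernel, by decide +kernel, by decide +kernel⟩

def t35505 : allY (E.wth T1) l35505 = true ∧
    allY (E.wth T1) l35506 = true ∧
    allY (E.wth T1) l35507 = true ∧
    allY (E.wth T1) l35508 = true ∧
    allY (E.wth T1) l35509 = true ∧
    allY (E.wth T1) l35510 = true ∧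
    allY (E.wth T1) l35511 = true ∧
    allY (E.wth T1) l35512 = true :=
  ⟨by decide +kernel, by decide +kernel, by decide +kernel, by decide +kernel, by decide +kernel, by decide +kernel, by decide +kernel, by decide +kernel⟩

def t35513 : allY (E.wth T1) l35513 = true ∧
    allY (E.wth T1) l35514 = true ∧
    allY (E.wth T1) l35515 = true ∧
    allY (E.wth T1) l35516 = true ∧
    allY (E.wth T1) l35517 = true ∧
    allY (E.wth T1) l35518 = true ∧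
    allY (E.wth T1) l35519 = true ∧
    allY (E.wth T1) l35520 = true :=
  ⟨by decide +kernel, by decide +kernel, by decide +kernel, by decide +kernel, by decide +kernel, by decide +kernel, by decide +kernel, by decide +kernel⟩

def t35521 : allY (E.wth T1) l35521 = true ∧
    allY (E.wth T1) l35522 = true ∧
    allY (E.wth T1) l35523 = true ∧
    allY (E.wth T1) l35524 = true ∧
    allY (E.wth T1) l35525 = true ∧
    allY (E.wth T1) l35526 = true ∧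
    allY (E.wth T1) l35527 = true ∧
    allY (E.wth T1) l35528 = true :=
  ⟨by decide +kernel, by decide +kernel, by decide +kernel, by decide +kernel, by decide +kernel, by decide +kernel, by decide +kernel, by decide +kernel⟩

def t35529 : allY (E.wth T1) l35529 = true ∧
    allY (E.wth T1) l35530 = true ∧
    allY (E.wth T1) l35531 = true ∧
    allY (E.wth T1) l35532 = true ∧
    allY (E.wth T1) l35533 = true ∧
    allY (E.wth T1) l35534 = true ∧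
    allY (E.wth T1) l35535 = true ∧
    allY (E.wth T1) l35536 = true :=
  ⟨by decide +kernel, by decide +kernel, by decide +kernel, by decide +kernel, by decide +kernel, by decide +kernel, by decide +kernel, by decide +kernel⟩

def t35537 : allY (E.wth T1) l35537 = true ∧
    allY (E.wth T1) l35538 = true ∧
    allY (E.wth T1) l35539 = true ∧
    allY (E.wth T1) l35540 = true ∧
    allY (E.wth T1) l35541 = true ∧
    allY (E.wth T1) l35542 = true ∧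
    allY (E.wth T1) l35543 = true ∧
    allY (E.wth T1) l35544 = true :=
  ⟨by decide +kernel, by decide +kernel, by decide +kernel, by decide +kernel, by decide +kernel, by decide +kernel, by decide +kernel, by decide +kernel⟩

def t35545 : allY (E.wth T1) l35545 = true ∧
    allY (E.wth T1) l35546 = true ∧
    allY (E.wth T1) l35547 = true ∧
    allY (E.wth T1) l35548 = true ∧
    allY (E.wth T1) l35549 = true ∧
    allY (E.wth T1) l35550 = true ∧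
    allY (E.wth T1) l35551 = true ∧
    allY (E.wth T1) l35552 = true :=
  ⟨by decide +kernel, by decide +kernel, by decide +kernel, by decide +kernel, by decide +kernel, by decide +kernel, by decide +kernel, by decide +kernel⟩

def t35553 : allY (E.wth T1) l35553 = true ∧
    allY (E.wth T1) l35554 = true ∧
    allY (E.wth T1) l35555 = true ∧
    allY (E.wth T1) l35556 = true ∧
    allY (E.wth T1) l35557 = true ∧
    allY (E.wth T1) l35558 = true ∧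
    allY (E.wth T1) l35559 = true ∧
    allY (E.wth T1) l35560 = true :=
  ⟨by decide +kernel, by decide +kernel, by decide +kernel, by decide +kernel, by decide +kernel, by decide +kernel, by decide +kernel, by decide +kernel⟩

def t35561 : allY (E.wth T1) l35561 = true ∧
    allY (E.wth T1) l35562 = true ∧
    allY (E.wth T1) l35563 = true ∧
    allY (E.wth T1) l35564 = true ∧
    allY (E.wth T1) l35565 = true ∧
    allY (E.wth T1) l35566 = true ∧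
    allY (E.wth T1) l35567 = true ∧
    allY (E.wth T1) l35568 = true :=
  ⟨by decide +kernel, by decide +kernel, by decide +kernel, by decide +kernel, by decide +kernel, by decide +kernel, by decide +kernel, by decide +kernel⟩

def t35569 : allY (E.wth T1) l35569 = true ∧
    allY (E.wth T1) l35570 = true ∧
    allY (E.wth T1) l35571 = true ∧
    allY (E.wth T1) l35572 = true ∧
    allY (E.wth T1) l35573 = true ∧
    allY (E.wth T1) l35574 = true ∧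
    allY (E.wth T1) l35575 = true ∧
    allY (E.wth T1) l35576 = true :=
  ⟨by decide +kernel, by decide +kernel, by decide +kernel, by decide +kernel, by decide +kernel, by decide +kernel, by decide +kernel, by decide +kernel⟩

def t35577 : allY (E.wth T1) l35577 = true ∧
    allY (E.wth T1) l35578 = true ∧
    allY (E.wth T1) l35579 = true ∧
    allY (E.wth T1) l35580 = true ∧
    allY (E.wth T1) l35581 = true ∧
    allY (E.wth T1) l35582 = true ∧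
    allY (E.wth T1) l35583 = true ∧
    allY (E.wth T1) l35584 = true :=
  ⟨by decide +kernel, by decide +kernel, by decide +kernel, by decide +kernel, by decide +kernel, by decide +kernel, by decide +kernel, by decide +kernel⟩

def t35585 : allY (E.wth T1) l35585 = true ∧
    allY (E.wth T1) l35586 = true ∧
    allY (E.wth T1) l35587 = true ∧
    allY (E.wth T1) l35588 = true ∧
    allY (E.wth T1) l35589 = true ∧
    allY (E.wth T1) l35590 = true ∧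
    allY (E.wth T1) l35591 = true ∧
    allY (E.wth T1) l35592 = true :=
  ⟨by decide +kernel, by decide +kernel, by decide +kernel, by decide +kernel, by decide +kernel, by decide +kernel, by decide +kernel, by decide +kernel⟩

def t35593 : allY (E.wth T1) l35593 = true ∧
    allY (E.wth T1) l35594 = true ∧
    allY (E.wth T1) l35595 = true ∧
    allY (E.wth T1) l35596 = true ∧
    allY (E.wth T1) l35597 = true ∧
    allY (E.wth T1) l35598 = true ∧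
    allY (E.wth T1) l35599 = true ∧
    allY (E.wth T1) l35600 = true :=
  ⟨by decide +kernel, by decide +kernel, by decide +kernel, by decide +kernel, by decide +kernel, by decide +kernel, by decide +kernel, by decide +kernel⟩

def t35601 : allY (E.wth T1) l35601 = true ∧
    allY (E.wth T1) l35602 = true ∧
    allY (E.wth T1) l35603 = true ∧
    allY (E.wth T1) l35604 = true ∧
    allY (E.wth T1) l35605 = true ∧
    allY (E.wth T1) l35606 = true ∧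
    allY (E.wth T1) l35607 = true ∧
    allY (E.wth T1) l35608 = true :=
  ⟨by decide +kernel, by decide +kernel, by decide +kernel, by decide +kernel, by decide +kernel, by decide +kernel, by decide +kernel, by decide +kernel⟩

def t35609 : allY (E.wth T1) l35609 = true ∧
    allY (E.wth T1) l35610 = true ∧
    allY (E.wth T1) l35611 = true ∧
    allY (E.wth T1) l35612 = true ∧
    allY (E.wth T1) l35613 = true ∧
    allY (E.wth T1) l35614 = true ∧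
    allY (E.wth T1) l35615 = true ∧
    allY (E.wth T1) l35616 = true :=
  ⟨by decide +kernel, by decide +kernel, by decide +kernel, by decide +kernel, by decide +kernel, by decide +kernel, by decide +kernel, by decide +kernel⟩

def t35617 : allY (E.wth T1) l35617 = true ∧
    allY (E.wth T1) l35618 = true ∧
    allY (E.wth T1) l35619 = true ∧
    allY (E.wth T1) l35620 = true ∧
    allY (E.wth T1) l35621 = true ∧
    allY (E.wth T1) l35622 = true ∧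
    allY (E.wth T1) l35623 = true ∧
    allY (E.wth T1) l35624 = true :=
  ⟨by decide +kernel, by decide +kernel, by decide +kernel, by decide +kernel, by decide +kernel, by decide +kernel, by decide +kernel, by decide +kernel⟩

def t35625 : allY (E.wth T1) l35625 = true ∧
    allY (E.wth T1) l35626 = true ∧
    allY (E.wth T1) l35627 = true ∧
    allY (E.wth T1) l35628 = true ∧
    allY (E.wth T1) l35629 = true ∧
    allY (E.wth T1) l35630 = true ∧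
    allY (E.wth T1) l35631 = true ∧
    allY (E.wth T1) l35632 = true :=
  ⟨by decide +kernel, by decide +kernel, by decide +kernel, by decide +kernel, by decide +kernel, by decide +kernel, by decide +kernel, by decide +kernel⟩

def t35633 : allY (E.wth T1) l35633 = true ∧
    allY (E.wth T1) l35634 = true ∧
    allY (E.wth T1) l35635 = true ∧
    allY (E.wth T1) l35636 = true ∧
    allY (E.wth T1) l35637 = true ∧
    allY (E.wth T1) l35638 = true ∧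
    allY (E.wth T1) l35639 = true ∧
    allY (E.wth T1) l35640 = true :=
  ⟨by decide +kernel, by decide +kernel, by decide +kernel, by decide +kernel, by decide +kernel, by decide +kernel, by decide +kernel, by decide +kernel⟩

def t35641 : allY (E.wth T1) l35641 = true ∧
    allY (E.wth T1) l35642 = true ∧
    allY (E.wth T1) l35643 = true ∧
    allY (E.wth T1) l35644 = true ∧
    allY (E.wth T1) l35645 = true ∧
    allY (E.wth T1) l35646 = true ∧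
    allY (E.wth T1) l35647 = true ∧
    allY (E.wth T1) l35648 = true :=
  ⟨by decide +kernel, by decide +kernel, by decide +kernel, by decide +kernel, by decide +kernel, by decide +kernel, by decide +kernel, by decide +kernel⟩

def t35649 : allY (E.wth T1) l35649 = true ∧
    allY (E.wth T1) l35650 = true ∧
    allY (E.wth T1) l35651 = true ∧
    allY (E.wth T1) l35652 = true ∧
    allY (E.wth T1) l35653 = true ∧
    allY (E.wth T1) l35654 = true ∧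
    allY (E.wth T1) l35655 = true ∧
    allY (E.wth T1) l35656 = true :=
  ⟨by decide +kernel, by decide +kernel, by decide +kernel, by decide +kernel, by decide +kernel, by decide +kernel, by decide +kernel, by decide +kernel⟩

def t35657 : allY (E.wth T1) l35657 = true ∧
    allY (E.wth T1) l35658 = true ∧
    allY (E.wth T1) l35659 = true ∧
    allY (E.wth T1) l35660 = true ∧
    allY (E.wth T1) l35661 = true ∧
    allY (E.wth T1) l35662 = true ∧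
    allY (E.wth T1) l35663 = true ∧
    allY (E.wth T1) l35664 = true :=
  ⟨by decide +kernel, by decide +kernel, by decide +kernel, by decide +kernel, by decide +kernel, by decide +kernel, by decide +kernel, by decide +kernel⟩

def t35665 : allY (E.wth T1) l35665 = true ∧
    allY (E.wth T1) l35666 = true ∧
    allY (E.wth T1) l35667 = true ∧
    allY (E.wth T1) l35668 = true ∧
    allY (E.wth T1) l35669 = true ∧
    allY (E.wth T1) l35670 = true ∧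
    allY (E.wth T1) l35671 = true ∧
    allY (E.wth T1) l35672 = true :=
  ⟨by decide +kernel, by decide +kernel, by decide +kernel, by decide +kernel, by decide +kernel, by decide +kernel, by decide +kernel, by decide +kernel⟩

def t35673 : allY (E.wth T1) l35673 = true ∧
    allY (E.wth T1) l35674 = true ∧
    allY (E.wth T1) l35675 = true ∧
    allY (E.wth T1) l35676 = true ∧
    allY (E.wth T1) l35677 = true ∧
    allY (E.wth T1) l35678 = true ∧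
    allY (E.wth T1) l35679 = true ∧
    allY (E.wth T1) l35680 = true :=
  ⟨by decide +kernel, by decide +kernel, by decide +kernel, by decide +kernel, by decide +kernel, by decide +kernel, by decide +kernel, by decide +kernel⟩

def t35681 : allY (E.wth T1) l35681 = true ∧
    allY (E.wth T1) l35682 = true ∧
    allY (E.wth T1) l35683 = true ∧
    allY (E.wth T1) l35684 = true ∧
    allY (E.wth T1) l35685 = true ∧
    allY (E.wth T1) l35686 = true ∧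
    allY (E.wth T1) l35687 = true ∧
    allY (E.wth T1) l35688 = true :=
  ⟨by decide +kernel, by decide +kernel, by decide +kernel, by decide +kernel, by decide +kernel, by decide +kernel, by decide +kernel, by decide +kernel⟩

def t35689 : allY (E.wth T1) l35689 = true ∧
    allY (E.wth T1) l35690 = true ∧
    allY (E.wth T1) l35691 = true ∧
    allY (E.wth T1) l35692 = true ∧
    allY (E.wth T1) l35693 = true ∧
    allY (E.wth T1) l35694 = true ∧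
    allY (E.wth T1) l35695 = true ∧
    allY (E.wth T1) l35696 = true :=
  ⟨by decide +kernel, by decide +kernel, by decide +kernel, by decide +kernel, by decide +kernel, by decide +kernel, by decide +kernel, by decide +kernel⟩

def t35697 : allY (E.wth T1) l35697 = true ∧
    allY (E.wth T1) l35698 = true ∧
    allY (E.wth T1) l35699 = true ∧
    allY (E.wth T1) l35700 = true ∧
    allY (E.wth T1) l35701 = true ∧
    allY (E.wth T1) l35702 = true ∧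
    allY (E.wth T1) l35703 = true ∧
    allY (E.wth T1) l35704 = true :=
  ⟨by decide +kernel, by decide +kernel, by decide +kernel, by decide +kernel, by decide +kernel, by decide +kernel, by decide +kernel, by decide +kernel⟩

def t35705 : allY (E.wth T1) l35705 = true ∧
    allY (E.wth T1) l35706 = true ∧
    allY (E.wth T1) l35707 = true ∧
    allY (E.wth T1) l35708 = true ∧
    allY (E.wth T1) l35709 = true ∧
    allY (E.wth T1) l35710 = true ∧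
    allY (E.wth T1) l35711 = true ∧
    allY (E.wth T1) l35712 = true :=
  ⟨by decide +kernel, by decide +kernel, by decide +kernel, by decide +kernel, by decide +kernel, by decide +kernel, by decide +kernel, by decide +kernel⟩

def t35713 : allY (E.wth T1) l35713 = true ∧
    allY (E.wth T1) l35714 = true ∧
    allY (E.wth T1) l35715 = true ∧
    allY (E.wth T1) l35716 = true ∧
    allY (E.wth T1) l35717 = true ∧
    allY (E.wth T1) l35718 = true ∧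
    allY (E.wth T1) l35719 = true ∧
    allY (E.wth T1) l35720 = true :=
  ⟨by decide +kernel, by decide +kernel, by decide +kernel, by decide +kernel, by decide +kernel, by decide +kernel, by decide +kernel, by decide +kernel⟩

def t35721 : allY (E.wth T1) l35721 = true ∧
    allY (E.wth T1) l35722 = true ∧
    allY (E.wth T1) l35723 = true ∧
    allY (E.wth T1) l35724 = true ∧
    allY (E.wth T1) l35725 = true ∧
    allY (E.wth T1) l35726 = true ∧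
    allY (E.wth T1) l35727 = true ∧
    allY (E.wth T1) l35728 = true :=
  ⟨by decide +kernel, by decide +kernel, by decide +kernel, by decide +kernel, by decide +kernel, by decide +kernel, by decide +kernel, by decide +kernel⟩

def t35729 : allY (E.wth T1) l35729 = true ∧
    allY (E.wth T1) l35730 = true ∧
    allY (E.wth T1) l35731 = true ∧
    allY (E.wth T1) l35732 = true ∧
    allY (E.wth T1) l35733 = true ∧
    allY (E.wth T1) l35734 = true ∧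
    allY (E.wth T1) l35735 = true ∧
    allY (E.wth T1) l35736 = true :=
  ⟨by decide +kernel, by decide +kernel, by decide +kernel, by decide +kernel, by decide +kernel, by decide +kernel, by decide +kernel, by decide +kernel⟩

def t35737 : allY (E.wth T1) l35737 = true ∧
    allY (E.wth T1) l35738 = true ∧
    allY (E.wth T1) l35739 = true ∧
    allY (E.wth T1) l35740 = true ∧
    allY (E.wth T1) l35741 = true ∧
    allY (E.wth T1) l35742 = true ∧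
    allY (E.wth T1) l35743 = true ∧
    allY (E.wth T1) l35744 = true :=
  ⟨by decide +kernel, by decide +kernel, by decide +kernel, by decide +kernel, by decide +kernel, by decide +kernel, by decide +kernel, by decide +kernel⟩

def t35745 : allY (E.wth T1) l35745 = true ∧
    allY (E.wth T1) l35746 = true ∧
    allY (E.wth T1) l35747 = true ∧
    allY (E.wth T1) l35748 = true ∧
    allY (E.wth T1) l35749 = true ∧
    allY (E.wth T1) l35750 = true ∧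
    allY (E.wth T1) l35751 = true ∧
    allY (E.wth T1) l35752 = true :=
  ⟨by decide +kernel, by decide +kernel, by decide +kernel, by decide +kernel, by decide +kernel, by decide +kernel, by decide +kernel, by decide +kernel⟩

def t35753 : allY (E.wth T1) l35753 = true ∧
    allY (E.wth T1) l35754 = true ∧
    allY (E.wth T1) l35755 = true ∧
    allY (E.wth T1) l35756 = true ∧
    allY (E.wth T1) l35757 = true ∧
    allY (E.wth T1) l35758 = true ∧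
    allY (E.wth T1) l35759 = true ∧
    allY (E.wth T1) l35760 = true :=
  ⟨by decide +kernel, by decide +kernel, by decide +kernel, by decide +kernel, by decide +kernel, by decide +kernel, by decide +kernel, by decide +kernel⟩

def t35761 : allY (E.wth T1) l35761 = true ∧
    allY (E.wth T1) l35762 = true ∧
    allY (E.wth T1) l35763 = true ∧
    allY (E.wth T1) l35764 = true ∧
    allY (E.wth T1) l35765 = true ∧
    allY (E.wth T1) l35766 = true ∧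
    allY (E.wth T1) l35767 = true ∧
    allY (E.wth T1) l35768 = true :=
  ⟨by decide +kernel, by decide +kernel, by decide +kernel, by decide +kernel, by decide +kernel, by decide +kernel, by decide +kernel, by decide +kernel⟩

def t35769 : allY (E.wth T1) l35769 = true ∧
    allY (E.wth T1) l35770 = true ∧
    allY (E.wth T1) l35771 = true ∧
    allY (E.wth T1) l35772 = true ∧
    allY (E.wth T1) l35773 = true ∧
    allY (E.wth T1) l35774 = true ∧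
    allY (E.wth T1) l35775 = true ∧
    allY (E.wth T1) l35776 = true :=
  ⟨by decide +kernel, by decide +kernel, by decide +kernel, by decide +kernel, by decide +kernel, by decide +kernel, by decide +kernel, by decide +kernel⟩

def t35777 : allY (E.wth T1) l35777 = true ∧
    allY (E.wth T1) l35778 = true ∧
    allY (E.wth T1) l35779 = true ∧
    allY (E.wth T1) l35780 = true ∧
    allY (E.wth T1) l35781 = true ∧
    allY (E.wth T1) l35782 = true ∧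
    allY (E.wth T1) l35783 = true ∧
    allY (E.wth T1) l35784 = true :=
  ⟨by decide +kernel, by decide +kernel, by decide +kernel, by decide +kernel, by decide +kernel, by decide +kernel, by decide +kernel, by decide +kernel⟩

def t35785 : allY (E.wth T1) l35785 = true ∧
    allY (E.wth T1) l35786 = true ∧
    allY (E.wth T1) l35787 = true ∧
    allY (E.wth T1) l35788 = true ∧
    allY (E.wth T1) l35789 = true ∧
    allY (E.wth T1) l35790 = true ∧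
    allY (E.wth T1) l35791 = true ∧
    allY (E.wth T1) l35792 = true :=
  ⟨by decide +kernel, by decide +kernel, by decide +kernel, by decide +kernel, by decide +kernel, by decide +kernel, by decide +kernel, by decide +kernel⟩

def t35793 : allY (E.wth T1) l35793 = true ∧
    allY (E.wth T1) l35794 = true ∧
    allY (E.wth T1) l35795 = true ∧
    allY (E.wth T1) l35796 = true ∧
    allY (E.wth T1) l35797 = true ∧
    allY (E.wth T1) l35798 = true ∧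
    allY (E.wth T1) l35799 = true ∧
    allY (E.wth T1) l35800 = true :=
  ⟨by decide +kernel, by decide +kernel, by decide +kernel, by decide +kernel, by decide +kernel, by decide +kernel, by decide +kernel, by decide +kernel⟩

def t35801 : allY (E.wth T1) l35801 = true ∧
    allY (E.wth T1) l35802 = true ∧
    allY (E.wth T1) l35803 = true ∧
    allY (E.wth T1) l35804 = true ∧
    allY (E.wth T1) l35805 = true ∧
    allY (E.wth T1) l35806 = true ∧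
    allY (E.wth T1) l35807 = true ∧
    allY (E.wth T1) l35808 = true :=
  ⟨by decide +kernel, by decide +kernel, by decide +kernel, by decide +kernel, by decide +kernel, by decide +kernel, by decide +kernel, by decide +kernel⟩

def t35809 : allY (E.wth T1) l35809 = true ∧
    allY (E.wth T1) l35810 = true ∧
    allY (E.wth T1) l35811 = true ∧
    allY (E.wth T1) l35812 = true ∧
    allY (E.wth T1) l35813 = true ∧
    allY (E.wth T1) l35814 = true ∧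
    allY (E.wth T1) l35815 = true ∧
    allY (E.wth T1) l35816 = true :=
  ⟨by decide +kernel, by decide +kernel, by decide +kernel, by decide +kernel, by decide +kernel, by decide +kernel, by decide +kernel, by decide +kernel⟩

def t35817 : allY (E.wth T1) l35817 = true ∧
    allY (E.wth T1) l35818 = true ∧
    allY (E.wth T1) l35819 = true ∧
    allY (E.wth T1) l35820 = true ∧
    allY (E.wth T1) l35821 = true ∧
    allY (E.wth T1) l35822 = true ∧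
    allY (E.wth T1) l35823 = true ∧
    allY (E.wth T1) l35824 = true :=
  ⟨by decide +kernel, by decide +kernel, by decide +kernel, by decide +kernel, by decide +kernel, by decide +kernel, by decide +kernel, by decide +kernel⟩

def t35825 : allY (E.wth T1) l35825 = true ∧
    allY (E.wth T1) l35826 = true ∧
    allY (E.wth T1) l35827 = true ∧
    allY (E.wth T1) l35828 = true ∧
    allY (E.wth T1) l35829 = true ∧
    allY (E.wth T1) l35830 = true ∧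
    allY (E.wth T1) l35831 = true ∧
    allY (E.wth T1) l35832 = true :=
  ⟨by decide +kernel, by decide +kernel, by decide +kernel, by decide +kernel, by decide +kernel, by decide +kernel, by decide +kernel, by decide +kernel⟩

def t35833 : allY (E.wth T1) l35833 = true ∧
    allY (E.wth T1) l35834 = true ∧
    allY (E.wth T1) l35835 = true ∧
    allY (E.wth T1) l35836 = true ∧
    allY (E.wth T1) l35837 = true ∧
    allY (E.wth T1) l35838 = true ∧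
    allY (E.wth T1) l35839 = true ∧
    allY (E.wth T1) l35840 = true :=
  ⟨by decide +kernel, by decide +kernel, by decide +kernel, by decide +kernel, by decide +kernel, by decide +kernel, by decide +kernel, by decide +kernel⟩

def t35841 : allY (E.wth T1) l35841 = true ∧
    allY (E.wth T1) l35842 = true ∧
    allY (E.wth T1) l35843 = true ∧
    allY (E.wth T1) l35844 = true ∧
    allY (E.wth T1) l35845 = true ∧
    allY (E.wth T1) l35846 = true ∧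
    allY (E.wth T1) l35847 = true ∧
    allY (E.wth T1) l35848 = true :=
  ⟨by decide +kernel, by decide +kernel, by decide +kernel, by decide +kernel, by decide +kernel, by decide +kernel, by decide +kernel, by decide +kernel⟩

def t35849 : allY (E.wth T1) l35849 = true ∧
    allY (E.wth T1) l35850 = true ∧
    allY (E.wth T1) l35851 = true ∧
    allY (E.wth T1) l35852 = true ∧
    allY (E.wth T1) l35853 = true ∧
    allY (E.wth T1) l35854 = true ∧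
    allY (E.wth T1) l35855 = true ∧
    allY (E.wth T1) l35856 = true :=
  ⟨by decide +kernel, by decide +kernel, by decide +kernel, by decide +kernel, by decide +kernel, by decide +kernel, by decide +kernel, by decide +kernel⟩

def t35857 : allY (E.wth T1) l35857 = true ∧
    allY (E.wth T1) l35858 = true ∧
    allY (E.wth T1) l35859 = true ∧
    allY (E.wth T1) l35860 = true ∧
    allY (E.wth T1) l35861 = true ∧
    allY (E.wth T1) l35862 = true ∧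
    allY (E.wth T1) l35863 = true ∧
    allY (E.wth T1) l35864 = true :=
  ⟨by decide +kernel, by decide +kernel, by decide +kernel, by decide +kernel, by decide +kernel, by decide +kernel, by decide +kernel, by decide +kernel⟩

def t35865 : allY (E.wth T1) l35865 = true ∧
    allY (E.wth T1) l35866 = true ∧
    allY (E.wth T1) l35867 = true ∧
    allY (E.wth T1) l35868 = true ∧
    allY (E.wth T1) l35869 = true ∧
    allY (E.wth T1) l35870 = true ∧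
    allY (E.wth T1) l35871 = true ∧
    allY (E.wth T1) l35872 = true :=
  ⟨by decide +kernel, by decide +kernel, by decide +kernel, by decide +kernel, by decide +kernel, by decide +kernel, by decide +kernel, by decide +kernel⟩

def t35873 : allY (E.wth T1) l35873 = true ∧
    allY (E.wth T1) l35874 = true ∧
    allY (E.wth T1) l35875 = true ∧
    allY (E.wth T1) l35876 = true ∧
    allY (E.wth T1) l35877 = true ∧
    allY (E.wth T1) l35878 = true ∧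
    allY (E.wth T1) l35879 = true ∧
    allY (E.wth T1) l35880 = true :=
  ⟨by decide +kernel, by decide +kernel, by decide +kernel, by decide +kernel, by decide +kernel, by decide +kernel, by decide +kernel, by decide +kernel⟩

def t35881 : allY (E.wth T1) l35881 = true ∧
    allY (E.wth T1) l35882 = true ∧
    allY (E.wth T1) l35883 = true ∧
    allY (E.wth T1) l35884 = true ∧
    allY (E.wth T1) l35885 = true ∧
    allY (E.wth T1) l35886 = true ∧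
    allY (E.wth T1) l35887 = true ∧
    allY (E.wth T1) l35888 = true :=
  ⟨by decide +kernel, by decide +kernel, by decide +kernel, by decide +kernel, by decide +kernel, by decide +kernel, by decide +kernel, by decide +kernel⟩

def t35889 : allY (E.wth T1) l35889 = true ∧
    allY (E.wth T1) l35890 = true ∧
    allY (E.wth T1) l35891 = true ∧
    allY (E.wth T1) l35892 = true ∧
    allY (E.wth T1) l35893 = true ∧
    allY (E.wth T1) l35894 = true ∧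
    allY (E.wth T1) l35895 = true ∧
    allY (E.wth T1) l35896 = true :=
  ⟨by decide +kernel, by decide +kernel, by decide +kernel, by decide +kernel, by decide +kernel, by decide +kernel, by decide +kernel, by decide +kernel⟩

def t35897 : allY (E.wth T1) l35897 = true ∧
    allY (E.wth T1) l35898 = true ∧
    allY (E.wth T1) l35899 = true ∧
    allY (E.wth T1) l35900 = true ∧
    allY (E.wth T1) l35901 = true ∧
    allY (E.wth T1) l35902 = true ∧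
    allY (E.wth T1) l35903 = true ∧
    allY (E.wth T1) l35904 = true :=
  ⟨by decide +kernel, by decide +kernel, by decide +kernel, by decide +kernel, by decide +kernel, by decide +kernel, by decide +kernel, by decide +kernel⟩

def t35905 : allY (E.wth T1) l35905 = true ∧
    allY (E.wth T1) l35906 = true ∧
    allY (E.wth T1) l35907 = true ∧
    allY (E.wth T1) l35908 = true ∧
    allY (E.wth T1) l35909 = true ∧
    allY (E.wth T1) l35910 = true ∧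
    allY (E.wth T1) l35911 = true ∧
    allY (E.wth T1) l35912 = true :=
  ⟨by decide +kernel, by decide +kernel, by decide +kernel, by decide +kernel, by decide +kernel, by decide +kernel, by decide +kernel, by decide +kernel⟩

def t35913 : allY (E.wth T1) l35913 = true ∧
    allY (E.wth T1) l35914 = true ∧
    allY (E.wth T1) l35915 = true ∧
    allY (E.wth T1) l35916 = true ∧
    allY (E.wth T1) l35917 = true ∧
    allY (E.wth T1) l35918 = true ∧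
    allY (E.wth T1) l35919 = true ∧
    allY (E.wth T1) l35920 = true :=
  ⟨by decide +kernel, by decide +kernel, by decide +kernel, by decide +kernel, by decide +kernel, by decide +kernel, by decide +kernel, by decide +kernel⟩

def t35921 : allY (E.wth T1) l35921 = true ∧
    allY (E.wth T1) l35922 = true ∧
    allY (E.wth T1) l35923 = true ∧
    allY (E.wth T1) l35924 = true :=
  ⟨by decide +kernel, by decide +kernel, by decide +kernel, by decide +kernel⟩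

theorem a64 {p : Rf → Prop} (H : ∀ l, allY (E.wth T1) l = true → (lkp l).All p) :
    b64.All p := ⟨⟨⟨⟨⟨⟨⟨⟨⟨H _ t35377.1, H _ t35377.2.1⟩, ⟨H _ t35377.2.2.1, H _ t35377.2.2.2.1⟩⟩, ⟨⟨H _ t35377.2.2.2.2.1, H _ t35377.2.2.2.2.2.1⟩, ⟨H _ t35377.2.2.2.2.2.2.1, H _ t35377.2.2.2.2.2.2.2⟩⟩⟩, ⟨⟨⟨H _ t35385.1, H _ t35385.2.1⟩, ⟨H _ t35385.2.2.1, H _ t35385.2.2.2.1⟩⟩, ⟨⟨H _ t35385.2.2.2.2.1, H _ t35385.2.2.2.2.2.1⟩, ⟨H _ t35385.2.2.2.2.2.2.1, ⟨H _ t35385.2.2.2.2.2.2.2, H _ t35393.1⟩⟩⟩⟩⟩, ⟨⟨⟨⟨H _ t35393.2.1, H _ t35393.2.2.1⟩, ⟨H _ t35393.2.2.2.1, H _ t35393.2.2.2.2.1⟩⟩, ⟨⟨H _ t35393.2.2.2.2.2.1, H _ t35393.2.2.2.2.2.2.1⟩, ⟨H _ t35393.2.2.2.2.2.2.2, H _ t35401.1⟩⟩⟩, ⟨⟨⟨H _ t35401.2.1, H _ t35401.2.2.1⟩, ⟨H _ t35401.2.2.2.1, H _ t35401.2.2.2.2.1⟩⟩, ⟨⟨H _ t35401.2.2.2.2.2.1, H _ t35401.2.2.2.2.2.2.1⟩, ⟨H _ t35401.2.2.2.2.2.2.2, ⟨H _ t35409.1, H _ t35409.2.1⟩⟩⟩⟩⟩⟩, ⟨⟨⟨⟨⟨H _ t35409.2.2.1, H _ t35409.2.2.2.1⟩,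 ⟨H _ t35409.2.2.2.2.1, H _ t35409.2.2.2.2.2.1⟩⟩, ⟨⟨H _ t35409.2.2.2.2.2.2.1, H _ t35409.2.2.2.2.2.2.2⟩, ⟨H _ t35417.1, H _ t35417.2.1⟩⟩⟩, ⟨⟨⟨H _ t35417.2.2.1, H _ t35417.2.2.2.1⟩, ⟨H _ t35417.2.2.2.2.1, H _ t35417.2.2.2.2.2.1⟩⟩, ⟨⟨H _ t35417.2.2.2.2.2.2.1, H _ t35417.2.2.2.2.2.2.2⟩, ⟨H _ t35425.1, ⟨H _ t35425.2.1, H _ t35425.2.2.1⟩⟩⟩⟩⟩, ⟨⟨⟨⟨H _ t35425.2.2.2.1, H _ t35425.2.2.2.2.1⟩, ⟨H _ t35425.2.2.2.2.2.1, H _ t35425.2.2.2.2.2.2.1⟩⟩, ⟨⟨H _ t35425.2.2.2.2.2.2.2, H _ t35433.1⟩, ⟨H _ t35433.2.1, H _ t35433.2.2.1⟩⟩⟩, ⟨⟨⟨H _ t35433.2.2.2.1, H _ t35433.2.2.2.2.1⟩, ⟨H _ t35433.2.2.2.2.2.1, H _ t35433.2.2.2.2.2.2.1⟩⟩, ⟨⟨H _ t35433.2.2.2.2.2.2.2, H _ t35441.1⟩, ⟨H _ t35441.2.1, ⟨H _ t35441.2.2.1, H _ t35441.2.2.2.1⟩⟩⟩⟩⟩⟩⟩, ⟨⟨⟨⟨⟨⟨H _ t35441.2.2.2.2.1, H _ t35441.2.2.2.2.2.1⟩, ⟨H _ t35441.2.2.2.2.2.2.1, H _ t35441.2.2.2.2.2.2.2⟩⟩, ⟨⟨H _ t35449.1, H _ t35449.2.1⟩, ⟨H _ t35449.2.2.1, H _ t35449.2.2.2.1⟩⟩⟩,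 ⟨⟨⟨H _ t35449.2.2.2.2.1, H _ t35449.2.2.2.2.2.1⟩, ⟨H _ t35449.2.2.2.2.2.2.1, H _ t35449.2.2.2.2.2.2.2⟩⟩, ⟨⟨H _ t35457.1, H _ t35457.2.1⟩, ⟨H _ t35457.2.2.1, ⟨H _ t35457.2.2.2.1, H _ t35457.2.2.2.2.1⟩⟩⟩⟩⟩, ⟨⟨⟨⟨H _ t35457.2.2.2.2.2.1, H _ t35457.2.2.2.2.2.2.1⟩, ⟨H _ t35457.2.2.2.2.2.2.2, H _ t35465.1⟩⟩, ⟨⟨H _ t35465.2.1, H _ t35465.2.2.1⟩, ⟨H _ t35465.2.2.2.1, H _ t35465.2.2.2.2.1⟩⟩⟩, ⟨⟨⟨H _ t35465.2.2.2.2.2.1, H _ t35465.2.2.2.2.2.2.1⟩, ⟨H _ t35465.2.2.2.2.2.2.2, H _ t35473.1⟩⟩, ⟨⟨H _ t35473.2.1, H _ t35473.2.2.1⟩, ⟨H _ t35473.2.2.2.1, ⟨H _ t35473.2.2.2.2.1, H _ t35473.2.2.2.2.2.1⟩⟩⟩⟩⟩⟩, ⟨⟨⟨⟨⟨H _ t35473.2.2.2.2.2.2.1, H _ t35473.2.2.2.2.2.2.2⟩, ⟨H _ t35481.1, H _ t35481.2.1⟩⟩, ⟨⟨H _ t35481.2.2.1, H _ t35481.2.2.2.1⟩, ⟨H _ t35481.2.2.2.2.1, H _ t35481.2.2.2.2.2.1⟩⟩⟩, ⟨⟨⟨H _ t35481.2.2.2.2.2.2.1, H _ t35481.2.2.2.2.2.2.2⟩, ⟨H _ t35489.1, H _ t35489.2.1⟩⟩, ⟨⟨H _ t35489.2.2.1, H _ t35489.2.2.2.1⟩,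 ⟨H _ t35489.2.2.2.2.1, ⟨H _ t35489.2.2.2.2.2.1, H _ t35489.2.2.2.2.2.2.1⟩⟩⟩⟩⟩, ⟨⟨⟨⟨H _ t35489.2.2.2.2.2.2.2, H _ t35497.1⟩, ⟨H _ t35497.2.1, H _ t35497.2.2.1⟩⟩, ⟨⟨H _ t35497.2.2.2.1, H _ t35497.2.2.2.2.1⟩, ⟨H _ t35497.2.2.2.2.2.1, ⟨H _ t35497.2.2.2.2.2.2.1, H _ t35497.2.2.2.2.2.2.2⟩⟩⟩⟩, ⟨⟨⟨H _ t35505.1, H _ t35505.2.1⟩, ⟨H _ t35505.2.2.1, H _ t35505.2.2.2.1⟩⟩, ⟨⟨H _ t35505.2.2.2.2.1, H _ t35505.2.2.2.2.2.1⟩, ⟨H _ t35505.2.2.2.2.2.2.1, ⟨H _ t35505.2.2.2.2.2.2.2, H _ t35513.1⟩⟩⟩⟩⟩⟩⟩⟩, ⟨⟨⟨⟨⟨⟨⟨H _ t35513.2.1, H _ t35513.2.2.1⟩, ⟨H _ t35513.2.2.2.1, H _ t35513.2.2.2.2.1⟩⟩, ⟨⟨H _ t35513.2.2.2.2.2.1, H _ t35513.2.2.2.2.2.2.1⟩, ⟨H _ t35513.2.2.2.2.2.2.2, H _ t35521.1⟩⟩⟩, ⟨⟨⟨H _ t35521.2.1, H _ t35521.2.2.1⟩, ⟨H _ t35521.2.2.2.1, H _ t35521.2.2.2.2.1⟩⟩, ⟨⟨H _ t35521.2.2.2.2.2.1, H _ t35521.2.2.2.2.2.2.1⟩, ⟨H _ t35521.2.2.2.2.2.2.2, ⟨H _ t35529.1, H _ t35529.2.1⟩⟩⟩⟩⟩, ⟨⟨⟨⟨H _ t35529.2.2.1, H _ t35529.2.2.2.1⟩,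 ⟨H _ t35529.2.2.2.2.1, H _ t35529.2.2.2.2.2.1⟩⟩, ⟨⟨H _ t35529.2.2.2.2.2.2.1, H _ t35529.2.2.2.2.2.2.2⟩, ⟨H _ t35537.1, H _ t35537.2.1⟩⟩⟩, ⟨⟨⟨H _ t35537.2.2.1, H _ t35537.2.2.2.1⟩, ⟨H _ t35537.2.2.2.2.1, H _ t35537.2.2.2.2.2.1⟩⟩, ⟨⟨H _ t35537.2.2.2.2.2.2.1, H _ t35537.2.2.2.2.2.2.2⟩, ⟨H _ t35545.1, ⟨H _ t35545.2.1, H _ t35545.2.2.1⟩⟩⟩⟩⟩⟩, ⟨⟨⟨⟨⟨H _ t35545.2.2.2.1, H _ t35545.2.2.2.2.1⟩, ⟨H _ t35545.2.2.2.2.2.1, H _ t35545.2.2.2.2.2.2.1⟩⟩, ⟨⟨H _ t35545.2.2.2.2.2.2.2, H _ t35553.1⟩, ⟨H _ t35553.2.1, H _ t35553.2.2.1⟩⟩⟩, ⟨⟨⟨H _ t35553.2.2.2.1, H _ t35553.2.2.2.2.1⟩, ⟨H _ t35553.2.2.2.2.2.1, H _ t35553.2.2.2.2.2.2.1⟩⟩, ⟨⟨H _ t35553.2.2.2.2.2.2.2, H _ t35561.1⟩, ⟨H _ t35561.2.1, ⟨H _ t35561.2.2.1, H _ t35561.2.2.2.1⟩⟩⟩⟩⟩, ⟨⟨⟨⟨H _ t35561.2.2.2.2.1, H _ t35561.2.2.2.2.2.1⟩, ⟨H _ t35561.2.2.2.2.2.2.1, H _ t35561.2.2.2.2.2.2.2⟩⟩, ⟨⟨H _ t35569.1, H _ t35569.2.1⟩, ⟨H _ t35569.2.2.1, H _ t35569.2.2.2.1⟩⟩⟩,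 ⟨⟨⟨H _ t35569.2.2.2.2.1, H _ t35569.2.2.2.2.2.1⟩, ⟨H _ t35569.2.2.2.2.2.2.1, H _ t35569.2.2.2.2.2.2.2⟩⟩, ⟨⟨H _ t35577.1, H _ t35577.2.1⟩, ⟨H _ t35577.2.2.1, ⟨H _ t35577.2.2.2.1, H _ t35577.2.2.2.2.1⟩⟩⟩⟩⟩⟩⟩, ⟨⟨⟨⟨⟨⟨H _ t35577.2.2.2.2.2.1, H _ t35577.2.2.2.2.2.2.1⟩, ⟨H _ t35577.2.2.2.2.2.2.2, H _ t35585.1⟩⟩, ⟨⟨H _ t35585.2.1, H _ t35585.2.2.1⟩, ⟨H _ t35585.2.2.2.1, H _ t35585.2.2.2.2.1⟩⟩⟩, ⟨⟨⟨H _ t35585.2.2.2.2.2.1, H _ t35585.2.2.2.2.2.2.1⟩, ⟨H _ t35585.2.2.2.2.2.2.2, H _ t35593.1⟩⟩, ⟨⟨H _ t35593.2.1, H _ t35593.2.2.1⟩, ⟨H _ t35593.2.2.2.1, ⟨H _ t35593.2.2.2.2.1, H _ t35593.2.2.2.2.2.1⟩⟩⟩⟩⟩, ⟨⟨⟨⟨H _ t35593.2.2.2.2.2.2.1, H _ t35593.2.2.2.2.2.2.2⟩, ⟨H _ t35601.1, H _ t35601.2.1⟩⟩, ⟨⟨H _ t35601.2.2.1, H _ t35601.2.2.2.1⟩, ⟨H _ t35601.2.2.2.2.1, H _ t35601.2.2.2.2.2.1⟩⟩⟩, ⟨⟨⟨H _ t35601.2.2.2.2.2.2.1, H _ t35601.2.2.2.2.2.2.2⟩, ⟨H _ t35609.1, H _ t35609.2.1⟩⟩, ⟨⟨H _ t35609.2.2.1, H _ t35609.2.2.2.1⟩,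 ⟨H _ t35609.2.2.2.2.1, ⟨H _ t35609.2.2.2.2.2.1, H _ t35609.2.2.2.2.2.2.1⟩⟩⟩⟩⟩⟩, ⟨⟨⟨⟨⟨H _ t35609.2.2.2.2.2.2.2, H _ t35617.1⟩, ⟨H _ t35617.2.1, H _ t35617.2.2.1⟩⟩, ⟨⟨H _ t35617.2.2.2.1, H _ t35617.2.2.2.2.1⟩, ⟨H _ t35617.2.2.2.2.2.1, H _ t35617.2.2.2.2.2.2.1⟩⟩⟩, ⟨⟨⟨H _ t35617.2.2.2.2.2.2.2, H _ t35625.1⟩, ⟨H _ t35625.2.1, H _ t35625.2.2.1⟩⟩, ⟨⟨H _ t35625.2.2.2.1, H _ t35625.2.2.2.2.1⟩, ⟨H _ t35625.2.2.2.2.2.1, ⟨H _ t35625.2.2.2.2.2.2.1, H _ t35625.2.2.2.2.2.2.2⟩⟩⟩⟩⟩, ⟨⟨⟨⟨H _ t35633.1, H _ t35633.2.1⟩, ⟨H _ t35633.2.2.1, H _ t35633.2.2.2.1⟩⟩, ⟨⟨H _ t35633.2.2.2.2.1, H _ t35633.2.2.2.2.2.1⟩, ⟨H _ t35633.2.2.2.2.2.2.1, ⟨H _ t35633.2.2.2.2.2.2.2, H _ t35641.1⟩⟩⟩⟩, ⟨⟨⟨H _ t35641.2.1, H _ t35641.2.2.1⟩, ⟨H _ t35641.2.2.2.1, H _ t35641.2.2.2.2.1⟩⟩, ⟨⟨H _ t35641.2.2.2.2.2.1, H _ t35641.2.2.2.2.2.2.1⟩, ⟨H _ t35641.2.2.2.2.2.2.2, ⟨H _ t35649.1, H _ t35649.2.1⟩⟩⟩⟩⟩⟩⟩⟩⟩, ⟨⟨⟨⟨⟨⟨⟨⟨H _ t35649.2.2.1, H _ t35649.2.2.2.1⟩,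 ⟨H _ t35649.2.2.2.2.1, H _ t35649.2.2.2.2.2.1⟩⟩, ⟨⟨H _ t35649.2.2.2.2.2.2.1, H _ t35649.2.2.2.2.2.2.2⟩, ⟨H _ t35657.1, H _ t35657.2.1⟩⟩⟩, ⟨⟨⟨H _ t35657.2.2.1, H _ t35657.2.2.2.1⟩, ⟨H _ t35657.2.2.2.2.1, H _ t35657.2.2.2.2.2.1⟩⟩, ⟨⟨H _ t35657.2.2.2.2.2.2.1, H _ t35657.2.2.2.2.2.2.2⟩, ⟨H _ t35665.1, ⟨H _ t35665.2.1, H _ t35665.2.2.1⟩⟩⟩⟩⟩, ⟨⟨⟨⟨H _ t35665.2.2.2.1, H _ t35665.2.2.2.2.1⟩, ⟨H _ t35665.2.2.2.2.2.1, H _ t35665.2.2.2.2.2.2.1⟩⟩, ⟨⟨H _ t35665.2.2.2.2.2.2.2, H _ t35673.1⟩, ⟨H _ t35673.2.1, H _ t35673.2.2.1⟩⟩⟩, ⟨⟨⟨H _ t35673.2.2.2.1, H _ t35673.2.2.2.2.1⟩, ⟨H _ t35673.2.2.2.2.2.1, H _ t35673.2.2.2.2.2.2.1⟩⟩, ⟨⟨H _ t35673.2.2.2.2.2.2.2, H _ t35681.1⟩, ⟨H _ t35681.2.1, ⟨H _ t35681.2.2.1, H _ t35681.2.2.2.1⟩⟩⟩⟩⟩⟩, ⟨⟨⟨⟨⟨H _ t35681.2.2.2.2.1, H _ t35681.2.2.2.2.2.1⟩, ⟨H _ t35681.2.2.2.2.2.2.1, H _ t35681.2.2.2.2.2.2.2⟩⟩, ⟨⟨H _ t35689.1, H _ t35689.2.1⟩, ⟨H _ t35689.2.2.1, H _ t35689.2.2.2.1⟩⟩⟩,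 ⟨⟨⟨H _ t35689.2.2.2.2.1, H _ t35689.2.2.2.2.2.1⟩, ⟨H _ t35689.2.2.2.2.2.2.1, H _ t35689.2.2.2.2.2.2.2⟩⟩, ⟨⟨H _ t35697.1, H _ t35697.2.1⟩, ⟨H _ t35697.2.2.1, ⟨H _ t35697.2.2.2.1, H _ t35697.2.2.2.2.1⟩⟩⟩⟩⟩, ⟨⟨⟨⟨H _ t35697.2.2.2.2.2.1, H _ t35697.2.2.2.2.2.2.1⟩, ⟨H _ t35697.2.2.2.2.2.2.2, H _ t35705.1⟩⟩, ⟨⟨H _ t35705.2.1, H _ t35705.2.2.1⟩, ⟨H _ t35705.2.2.2.1, H _ t35705.2.2.2.2.1⟩⟩⟩, ⟨⟨⟨H _ t35705.2.2.2.2.2.1, H _ t35705.2.2.2.2.2.2.1⟩, ⟨H _ t35705.2.2.2.2.2.2.2, H _ t35713.1⟩⟩, ⟨⟨H _ t35713.2.1, H _ t35713.2.2.1⟩, ⟨H _ t35713.2.2.2.1, ⟨H _ t35713.2.2.2.2.1, H _ t35713.2.2.2.2.2.1⟩⟩⟩⟩⟩⟩⟩, ⟨⟨⟨⟨⟨⟨H _ t35713.2.2.2.2.2.2.1, H _ t35713.2.2.2.2.2.2.2⟩, ⟨H _ t35721.1, H _ t35721.2.1⟩⟩, ⟨⟨H _ t35721.2.2.1, H _ t35721.2.2.2.1⟩, ⟨H _ t35721.2.2.2.2.1, H _ t35721.2.2.2.2.2.1⟩⟩⟩, ⟨⟨⟨H _ t35721.2.2.2.2.2.2.1, H _ t35721.2.2.2.2.2.2.2⟩, ⟨H _ t35729.1, H _ t35729.2.1⟩⟩, ⟨⟨H _ t35729.2.2.1, H _ t35729.2.2.2.1⟩,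 ⟨H _ t35729.2.2.2.2.1, ⟨H _ t35729.2.2.2.2.2.1, H _ t35729.2.2.2.2.2.2.1⟩⟩⟩⟩⟩, ⟨⟨⟨⟨H _ t35729.2.2.2.2.2.2.2, H _ t35737.1⟩, ⟨H _ t35737.2.1, H _ t35737.2.2.1⟩⟩, ⟨⟨H _ t35737.2.2.2.1, H _ t35737.2.2.2.2.1⟩, ⟨H _ t35737.2.2.2.2.2.1, H _ t35737.2.2.2.2.2.2.1⟩⟩⟩, ⟨⟨⟨H _ t35737.2.2.2.2.2.2.2, H _ t35745.1⟩, ⟨H _ t35745.2.1, H _ t35745.2.2.1⟩⟩, ⟨⟨H _ t35745.2.2.2.1, H _ t35745.2.2.2.2.1⟩, ⟨H _ t35745.2.2.2.2.2.1, ⟨H _ t35745.2.2.2.2.2.2.1, H _ t35745.2.2.2.2.2.2.2⟩⟩⟩⟩⟩⟩, ⟨⟨⟨⟨⟨H _ t35753.1, H _ t35753.2.1⟩, ⟨H _ t35753.2.2.1, H _ t35753.2.2.2.1⟩⟩, ⟨⟨H _ t35753.2.2.2.2.1, H _ t35753.2.2.2.2.2.1⟩, ⟨H _ t35753.2.2.2.2.2.2.1, H _ t35753.2.2.2.2.2.2.2⟩⟩⟩, ⟨⟨⟨H _ t35761.1, H _ t35761.2.1⟩, ⟨H _ t35761.2.2.1, H _ t35761.2.2.2.1⟩⟩, ⟨⟨H _ t35761.2.2.2.2.1, H _ t35761.2.2.2.2.2.1⟩, ⟨H _ t35761.2.2.2.2.2.2.1, ⟨H _ t35761.2.2.2.2.2.2.2, H _ t35769.1⟩⟩⟩⟩⟩, ⟨⟨⟨⟨H _ t35769.2.1, H _ t35769.2.2.1⟩, ⟨H _ t35769.2.2.2.1,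 H _ t35769.2.2.2.2.1⟩⟩, ⟨⟨H _ t35769.2.2.2.2.2.1, H _ t35769.2.2.2.2.2.2.1⟩, ⟨H _ t35769.2.2.2.2.2.2.2, ⟨H _ t35777.1, H _ t35777.2.1⟩⟩⟩⟩, ⟨⟨⟨H _ t35777.2.2.1, H _ t35777.2.2.2.1⟩, ⟨H _ t35777.2.2.2.2.1, H _ t35777.2.2.2.2.2.1⟩⟩, ⟨⟨H _ t35777.2.2.2.2.2.2.1, H _ t35777.2.2.2.2.2.2.2⟩, ⟨H _ t35785.1, ⟨H _ t35785.2.1, H _ t35785.2.2.1⟩⟩⟩⟩⟩⟩⟩⟩, ⟨⟨⟨⟨⟨⟨⟨H _ t35785.2.2.2.1, H _ t35785.2.2.2.2.1⟩, ⟨H _ t35785.2.2.2.2.2.1, H _ t35785.2.2.2.2.2.2.1⟩⟩, ⟨⟨H _ t35785.2.2.2.2.2.2.2, H _ t35793.1⟩, ⟨H _ t35793.2.1, H _ t35793.2.2.1⟩⟩⟩, ⟨⟨⟨H _ t35793.2.2.2.1, H _ t35793.2.2.2.2.1⟩, ⟨H _ t35793.2.2.2.2.2.1, H _ t35793.2.2.2.2.2.2.1⟩⟩, ⟨⟨H _ t35793.2.2.2.2.2.2.2, H _ t35801.1⟩, ⟨H _ t35801.2.1, ⟨H _ t35801.2.2.1, H _ t35801.2.2.2.1⟩⟩⟩⟩⟩, ⟨⟨⟨⟨H _ t35801.2.2.2.2.1, H _ t35801.2.2.2.2.2.1⟩, ⟨H _ t35801.2.2.2.2.2.2.1, H _ t35801.2.2.2.2.2.2.2⟩⟩, ⟨⟨H _ t35809.1, H _ t35809.2.1⟩, ⟨H _ t35809.2.2.1, H _ t35809.2.2.2.1⟩⟩⟩,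 ⟨⟨⟨H _ t35809.2.2.2.2.1, H _ t35809.2.2.2.2.2.1⟩, ⟨H _ t35809.2.2.2.2.2.2.1, H _ t35809.2.2.2.2.2.2.2⟩⟩, ⟨⟨H _ t35817.1, H _ t35817.2.1⟩, ⟨H _ t35817.2.2.1, ⟨H _ t35817.2.2.2.1, H _ t35817.2.2.2.2.1⟩⟩⟩⟩⟩⟩, ⟨⟨⟨⟨⟨H _ t35817.2.2.2.2.2.1, H _ t35817.2.2.2.2.2.2.1⟩, ⟨H _ t35817.2.2.2.2.2.2.2, H _ t35825.1⟩⟩, ⟨⟨H _ t35825.2.1, H _ t35825.2.2.1⟩, ⟨H _ t35825.2.2.2.1, H _ t35825.2.2.2.2.1⟩⟩⟩, ⟨⟨⟨H _ t35825.2.2.2.2.2.1, H _ t35825.2.2.2.2.2.2.1⟩, ⟨H _ t35825.2.2.2.2.2.2.2, H _ t35833.1⟩⟩, ⟨⟨H _ t35833.2.1, H _ t35833.2.2.1⟩, ⟨H _ t35833.2.2.2.1, ⟨H _ t35833.2.2.2.2.1, H _ t35833.2.2.2.2.2.1⟩⟩⟩⟩⟩, ⟨⟨⟨⟨H _ t35833.2.2.2.2.2.2.1, H _ t35833.2.2.2.2.2.2.2⟩, ⟨H _ t35841.1, H _ t35841.2.1⟩⟩, ⟨⟨H _ t35841.2.2.1, H _ t35841.2.2.2.1⟩, ⟨H _ t35841.2.2.2.2.1, H _ t35841.2.2.2.2.2.1⟩⟩⟩, ⟨⟨⟨H _ t35841.2.2.2.2.2.2.1, H _ t35841.2.2.2.2.2.2.2⟩, ⟨H _ t35849.1, H _ t35849.2.1⟩⟩, ⟨⟨H _ t35849.2.2.1, H _ t35849.2.2.2.1⟩,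 ⟨H _ t35849.2.2.2.2.1, ⟨H _ t35849.2.2.2.2.2.1, H _ t35849.2.2.2.2.2.2.1⟩⟩⟩⟩⟩⟩⟩, ⟨⟨⟨⟨⟨⟨H _ t35849.2.2.2.2.2.2.2, H _ t35857.1⟩, ⟨H _ t35857.2.1, H _ t35857.2.2.1⟩⟩, ⟨⟨H _ t35857.2.2.2.1, H _ t35857.2.2.2.2.1⟩, ⟨H _ t35857.2.2.2.2.2.1, H _ t35857.2.2.2.2.2.2.1⟩⟩⟩, ⟨⟨⟨H _ t35857.2.2.2.2.2.2.2, H _ t35865.1⟩, ⟨H _ t35865.2.1, H _ t35865.2.2.1⟩⟩, ⟨⟨H _ t35865.2.2.2.1, H _ t35865.2.2.2.2.1⟩, ⟨H _ t35865.2.2.2.2.2.1, ⟨H _ t35865.2.2.2.2.2.2.1, H _ t35865.2.2.2.2.2.2.2⟩⟩⟩⟩⟩, ⟨⟨⟨⟨H _ t35873.1, H _ t35873.2.1⟩, ⟨H _ t35873.2.2.1, H _ t35873.2.2.2.1⟩⟩, ⟨⟨H _ t35873.2.2.2.2.1, H _ t35873.2.2.2.2.2.1⟩, ⟨H _ t35873.2.2.2.2.2.2.1, H _ t35873.2.2.2.2.2.2.2⟩⟩⟩, ⟨⟨⟨H _ t35881.1, H _ t35881.2.1⟩, ⟨H _ t35881.2.2.1, H _ t35881.2.2.2.1⟩⟩, ⟨⟨H _ t35881.2.2.2.2.1, H _ t35881.2.2.2.2.2.1⟩, ⟨H _ t35881.2.2.2.2.2.2.1, ⟨H _ t35881.2.2.2.2.2.2.2, H _ t35889.1⟩⟩⟩⟩⟩⟩, ⟨⟨⟨⟨⟨H _ t35889.2.1, H _ t35889.2.2.1⟩, ⟨H _ t35889.2.2.2.1,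 H _ t35889.2.2.2.2.1⟩⟩, ⟨⟨H _ t35889.2.2.2.2.2.1, H _ t35889.2.2.2.2.2.2.1⟩, ⟨H _ t35889.2.2.2.2.2.2.2, H _ t35897.1⟩⟩⟩, ⟨⟨⟨H _ t35897.2.1, H _ t35897.2.2.1⟩, ⟨H _ t35897.2.2.2.1, H _ t35897.2.2.2.2.1⟩⟩, ⟨⟨H _ t35897.2.2.2.2.2.1, H _ t35897.2.2.2.2.2.2.1⟩, ⟨H _ t35897.2.2.2.2.2.2.2, ⟨H _ t35905.1, H _ t35905.2.1⟩⟩⟩⟩⟩, ⟨⟨⟨⟨H _ t35905.2.2.1, H _ t35905.2.2.2.1⟩, ⟨H _ t35905.2.2.2.2.1, H _ t35905.2.2.2.2.2.1⟩⟩, ⟨⟨H _ t35905.2.2.2.2.2.2.1, H _ t35905.2.2.2.2.2.2.2⟩, ⟨H _ t35913.1, ⟨H _ t35913.2.1, H _ t35913.2.2.1⟩⟩⟩⟩, ⟨⟨⟨H _ t35913.2.2.2.1, H _ t35913.2.2.2.2.1⟩, ⟨H _ t35913.2.2.2.2.2.1, H _ t35913.2.2.2.2.2.2.1⟩⟩, ⟨⟨H _ t35913.2.2.2.2.2.2.2, H _ t35921.1⟩, ⟨H _ t35921.2.1, ⟨H _ t35921.2.2.1, H _ t35921.2.2.2⟩⟩⟩⟩⟩⟩⟩⟩⟩⟩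

end Pool.Agent.MP_c853c5_nt.X.C4950
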