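import Pool.Agent.MP_c853c5_nt.X.C4950.Env
import Pool.Agent.MP_c853c5_nt.X.C4950.Tab

set_option autoImplicit false
set_option maxRecDepth 8192
set_option linter.all false

namespace Pool.Agent.MP_c853c5_nt.X.C4950

open Pool.Agent.MP_c853c5_nt.X

def t35925 : allY (E.wth T1) l35925 = true ∧
    allY (E.wth T1) l35926 = true ∧
    allY (E.wth T1) l35927 = true ∧
    allY (E.wth T1) l35928 = true ∧
    allY (E.wth T1) l35929 = true ∧
    allY (E.wth T1) l35930 = true ∧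
    allY (E.wth T1) l35931 = true ∧
    allY (E.wth T1) l35932 = true :=
  ⟨by decide +kernel, by decide +kernel, by decide +kernel, by decide +kernel, by decide +kernel, by decide +kernel, by decide +kernel, by decide +kernel⟩

def t35933 : allY (E.wth T1) l35933 = true ∧
    allY (E.wth T1) l35934 = true ∧
    allY (E.wth T1) l35935 = true ∧
    allY (E.wth T1) l35936 = true ∧
    allY (E.wth T1) l35937 = true ∧
    allY (E.wth T1) l35938 = true ∧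
    allY (E.wth T1) l35939 = true ∧
    allY (E.wth T1) l35940 = true :=
  ⟨by decide +kernel, by decide +kernel, by decide +kernel, by decide +kernel, by decide +kernel, by decide +kernel, by decide +kernel, by decide +kernel⟩

def t35941 : allY (E.wth T1) l35941 = true ∧
    allY (E.wth T1) l35942 = true ∧
    allY (E.wth T1) l35943 = true ∧
    allY (E.wth T1) l35944 = true ∧
    allY (E.wth T1) l35945 = true ∧
    allY (E.wth T1) l35946 = true ∧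
    allY (E.wth T1) l35947 = true ∧
    allY (E.wth T1) l35948 = true :=
  ⟨by decide +kernel, by decide +kernel, by decide +kernel, by decide +kernel, by decide +kernel, by decide +kernel, by decide +kernel, by decide +kernel⟩

def t35949 : allY (E.wth T1) l35949 = true ∧
    allY (E.wth T1) l35950 = true ∧
    allY (E.wth T1) l35951 = true ∧
    allY (E.wth T1) l35952 = true ∧
    allY (E.wth T1) l35953 = true ∧
    allY (E.wth T1) l35954 = true ∧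
    allY (E.wth T1) l35955 = true ∧
    allY (E.wth T1) l35956 = true :=
  ⟨by decide +kernel, by decide +kernel, by decide +kernel, by decide +kernel, by decide +kernel, by decide +kernel, by decide +kernel, by decide +kernel⟩

def t35957 : allY (E.wth T1) l35957 = true ∧
    allY (E.wth T1) l35958 = true ∧
    allY (E.wth T1) l35959 = true ∧
    allY (E.wth T1) l35960 = true ∧
    allY (E.wth T1) l35961 = true ∧
    allY (E.wth T1) l35962 = true ∧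
    allY (E.wth T1) l35963 = true ∧
    allY (E.wth T1) l35964 = true :=
  ⟨by decide +kernel, by decide +kernel, by decide +kernel, by decide +kernel, by decide +kernel, by decide +kernel, by decide +kernel, by decide +kernel⟩

def t35965 : allY (E.wth T1) l35965 = true ∧
    allY (E.wth T1) l35966 = true ∧
    allY (E.wth T1) l35967 = true ∧
    allY (E.wth T1) l35968 = true ∧
    allY (E.wth T1) l35969 = true ∧
    allY (E.wth T1) l35970 = true ∧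
    allY (E.wth T1) l35971 = true ∧
    allY (E.wth T1) l35972 = true :=
  ⟨by decide +kernel, by decide +kernel, by decide +kernel, by decide +kernel, by decide +kernel, by decide +kernel, by decide +kernel, by decide +kernel⟩

def t35973 : allY (E.wth T1) l35973 = true ∧
    allY (E.wth T1) l35974 = true ∧
    allY (E.wth T1) l35975 = true ∧
    allY (E.wth T1) l35976 = true ∧
    allY (E.wth T1) l35977 = true ∧
    allY (E.wth T1) l35978 = true ∧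
    allY (E.wth T1) l35979 = true ∧
    allY (E.wth T1) l35980 = true :=
  ⟨by decide +kernel, by decide +kernel, by decide +kernel, by decide +kernel, by decide +kernel, by decide +kernel, by decide +kernel, by decide +kernel⟩

def t35981 : allY (E.wth T1) l35981 = true ∧
    allY (E.wth T1) l35982 = true ∧
    allY (E.wth T1) l35983 = true ∧
    allY (E.wth T1) l35984 = true ∧
    allY (E.wth T1) l35985 = true ∧
    allY (E.wth T1) l35986 = true ∧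
    allY (E.wth T1) l35987 = true ∧
    allY (E.wth T1) l35988 = true :=
  ⟨by decide +kernel, by decide +kernel, by decide +kernel, by decide +kernel, by decide +kernel, by decide +kernel, by decide +kernel, by decide +kernel⟩

def t35989 : allY (E.wth T1) l35989 = true ∧
    allY (E.wth T1) l35990 = true ∧
    allY (E.wth T1) l35991 = true ∧
    allY (E.wth T1) l35992 = true ∧
    allY (E.wth T1) l35993 = true ∧
    allY (E.wth T1) l35994 = true ∧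
    allY (E.wth T1) l35995 = true ∧
    allY (E.wth T1) l35996 = true :=
  ⟨by decide +kernel, by decide +kernel, by decide +kernel, by decide +kernel, by decide +kernel, by decide +kernel, by decide +kernel, by decide +kernel⟩

def t35997 : allY (E.wth T1) l35997 = true ∧
    allY (E.wth T1) l35998 = true ∧
    allY (E.wth T1) l35999 = true ∧
    allY (E.wth T1) l36000 = true ∧
    allY (E.wth T1) l36001 = true ∧
    allY (E.wth T1) l36002 = true ∧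
    allY (E.wth T1) l36003 = true ∧
    allY (E.wth T1) l36004 = true :=
  ⟨by decide +kernel, by decide +kernel, by decide +kernel, by decide +kernel, by decide +kernel, by decide +kernel, by decide +kernel, by decide +kernel⟩

def t36005 : allY (E.wth T1) l36005 = true ∧
    allY (E.wth T1) l36006 = true ∧
    allY (E.wth T1) l36007 = true ∧
    allY (E.wth T1) l36008 = true ∧
    allY (E.wth T1) l36009 = true ∧
    allY (E.wth T1) l36010 = true ∧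
    allY (E.wth T1) l36011 = true ∧
    allY (E.wth T1) l36012 = true :=
  ⟨by decide +kernel, by decide +kernel, by decide +kernel, by decide +kernel, by decide +kernel, by decide +kernel, by decide +kernel, by decide +kernel⟩

def t36013 : allY (E.wth T1) l36013 = true ∧
    allY (E.wth T1) l36014 = true ∧
    allY (E.wth T1) l36015 = true ∧
    allY (E.wth T1) l36016 = true ∧
    allY (E.wth T1) l36017 = true ∧
    allY (E.wth T1) l36018 = true ∧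
    allY (E.wth T1) l36019 = true ∧
    allY (E.wth T1) l36020 = true :=
  ⟨by decide +kernel, by decide +kernel, by decide +kernel, by decide +kernel, by decide +kernel, by decide +kernel, by decide +kernel, by decide +kernel⟩

def t36021 : allY (E.wth T1) l36021 = true ∧
    allY (E.wth T1) l36022 = true ∧
    allY (E.wth T1) l36023 = true ∧
    allY (E.wth T1) l36024 = true ∧
    allY (E.wth T1) l36025 = true ∧
    allY (E.wth T1) l36026 = true ∧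
    allY (E.wth T1) l36027 = true ∧
    allY (E.wth T1) l36028 = true :=
  ⟨by decide +kernel, by decide +kernel, by decide +kernel, by decide +kernel, by decide +kernel, by decide +kernel, by decide +kernel, by decide +kernel⟩

def t36029 : allY (E.wth T1) l36029 = true ∧
    allY (E.wth T1) l36030 = true ∧
    allY (E.wth T1) l36031 = true ∧
    allY (E.wth T1) l36032 = true ∧
    allY (E.wth T1) l36033 = true ∧
    allY (E.wth T1) l36034 = true ∧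
    allY (E.wth T1) l36035 = true ∧
    allY (E.wth T1) l36036 = true :=
  ⟨by decide +kernel, by decide +kernel, by decide +kernel, by decide +kernel, by decide +kernel, by decide +kernel, by decide +kernel, by decide +kernel⟩

def t36037 : allY (E.wth T1) l36037 = true ∧
    allY (E.wth T1) l36038 = true ∧
    allY (E.wth T1) l36039 = true ∧
    allY (E.wth T1) l36040 = true ∧
    allY (E.wth T1) l36041 = true ∧
    allY (E.wth T1) l36042 = true ∧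
    allY (E.wth T1) l36043 = true ∧
    allY (E.wth T1) l36044 = true :=
  ⟨by decide +kernel, by decide +kernel, by decide +kernel, by decide +kernel, by decide +kernel, by decide +kernel, by decide +kernel, by decide +kernel⟩

def t36045 : allY (E.wth T1) l36045 = true ∧
    allY (E.wth T1) l36046 = true ∧
    allY (E.wth T1) l36047 = true ∧
    allY (E.wth T1) l36048 = true ∧
    allY (E.wth T1) l36049 = true ∧
    allY (E.wth T1) l36050 = true ∧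
    allY (E.wth T1) l36051 = true ∧
    allY (E.wth T1) l36052 = true :=
  ⟨by decide +kernel, by decide +kernel, by decide +kernel, by decide +kernel, by decide +kernel, by decide +kernel, by decide +kernel, by decide +kernel⟩

def t36053 : allY (E.wth T1) l36053 = true ∧
    allY (E.wth T1) l36054 = true ∧
    allY (E.wth T1) l36055 = true ∧
    allY (E.wth T1) l36056 = true ∧
    allY (E.wth T1) l36057 = true ∧
    allY (E.wth T1) l36058 = true ∧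
    allY (E.wth T1) l36059 = true ∧
    allY (E.wth T1) l36060 = true :=
  ⟨by decide +kernel, by decide +kernel, by decide +kernel, by decide +kernel, by decide +kernel, by decide +kernel, by decide +kernel, by decide +kernel⟩

def t36061 : allY (E.wth T1) l36061 = true ∧
    allY (E.wth T1) l36062 = true ∧
    allY (E.wth T1) l36063 = true ∧
    allY (E.wth T1) l36064 = true ∧
    allY (E.wth T1) l36065 = true ∧
    allY (E.wth T1) l36066 = true ∧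
    allY (E.wth T1) l36067 = true ∧
    allY (E.wth T1) l36068 = true :=
  ⟨by decide +kernel, by decide +kernel, by decide +kernel, by decide +kernel, by decide +kernel, by decide +kernel, by decide +kernel, by decide +kernel⟩

def t36069 : allY (E.wth T1) l36069 = true ∧
    allY (E.wth T1) l36070 = true ∧
    allY (E.wth T1) l36071 = true ∧
    allY (E.wth T1) l36072 = true ∧
    allY (E.wth T1) l36073 = true ∧
    allY (E.wth T1) l36074 = true ∧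
    allY (E.wth T1) l36075 = true ∧
    allY (E.wth T1) l36076 = true :=
  ⟨by decide +kernel, by decide +kernel, by decide +kernel, by decide +kernel, by decide +kernel, by decide +kernel, by decide +kernel, by decide +kernel⟩

def t36077 : allY (E.wth T1) l36077 = true ∧
    allY (E.wth T1) l36078 = true ∧
    allY (E.wth T1) l36079 = true ∧
    allY (E.wth T1) l36080 = true ∧
    allY (E.wth T1) l36081 = true ∧
    allY (E.wth T1) l36082 = true ∧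
    allY (E.wth T1) l36083 = true ∧
    allY (E.wth T1) l36084 = true :=
  ⟨by decide +kernel, by decide +kernel, by decide +kernel, by decide +kernel, by decide +kernel, by decide +kernel, by decide +kernel, by decide +kernel⟩

def t36085 : allY (E.wth T1) l36085 = true ∧
    allY (E.wth T1) l36086 = true ∧
    allY (E.wth T1) l36087 = true ∧
    allY (E.wth T1) l36088 = true ∧
    allY (E.wth T1) l36089 = true ∧
    allY (E.wth T1) l36090 = true ∧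
    allY (E.wth T1) l36091 = true ∧
    allY (E.wth T1) l36092 = true :=
  ⟨by decide +kernel, by decide +kernel, by decide +kernel, by decide +kernel, by decide +kernel, by decide +kernel, by decide +kernel, by decide +kernel⟩

def t36093 : allY (E.wth T1) l36093 = true ∧
    allY (E.wth T1) l36094 = true ∧
    allY (E.wth T1) l36095 = true ∧
    allY (E.wth T1) l36096 = true ∧
    allY (E.wth T1) l36097 = true ∧
    allY (E.wth T1) l36098 = true ∧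
    allY (E.wth T1) l36099 = true ∧
    allY (E.wth T1) l36100 = true :=
  ⟨by decide +kernel, by decide +kernel, by decide +kernel, by decide +kernel, by decide +kernel, by decide +kernel, by decide +kernel, by decide +kernel⟩

def t36101 : allY (E.wth T1) l36101 = true ∧
    allY (E.wth T1) l36102 = true ∧
    allY (E.wth T1) l36103 = true ∧
    allY (E.wth T1) l36104 = true ∧
    allY (E.wth T1) l36105 = true ∧
    allY (E.wth T1) l36106 = true ∧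
    allY (E.wth T1) l36107 = true ∧
    allY (E.wth T1) l36108 = true :=
  ⟨by decide +kernel, by decide +kernel, by decide +kernel, by decide +kernel, by decide +kernel, by decide +kernel, by decide +kernel, by decide +kernel⟩

def t36109 : allY (E.wth T1) l36109 = true ∧
    allY (E.wth T1) l36110 = true ∧
    allY (E.wth T1) l36111 = true ∧
    allY (E.wth T1) l36112 = true ∧
    allY (E.wth T1) l36113 = true ∧
    allY (E.wth T1) l36114 = true ∧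
    allY (E.wth T1) l36115 = true ∧
    allY (E.wth T1) l36116 = true :=
  ⟨by decide +kernel, by decide +kernel, by decide +kernel, by decide +kernel, by decide +kernel, by decide +kernel, by decide +kernel, by decide +kernel⟩

def t36117 : allY (E.wth T1) l36117 = true ∧
    allY (E.wth T1) l36118 = true ∧
    allY (E.wth T1) l36119 = true ∧
    allY (E.wth T1) l36120 = true ∧
    allY (E.wth T1) l36121 = true ∧
    allY (E.wth T1) l36122 = true ∧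
    allY (E.wth T1) l36123 = true ∧
    allY (E.wth T1) l36124 = true :=
  ⟨by decide +kernel, by decide +kernel, by decide +kernel, by decide +kernel, by decide +kernel, by decide +kernel, by decide +kernel, by decide +kernel⟩

def t36125 : allY (E.wth T1) l36125 = true ∧
    allY (E.wth T1) l36126 = true ∧
    allY (E.wth T1) l36127 = true ∧
    allY (E.wth T1) l36128 = true ∧
    allY (E.wth T1) l36129 = true ∧
    allY (E.wth T1) l36130 = true ∧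
    allY (E.wth T1) l36131 = true ∧
    allY (E.wth T1) l36132 = true :=
  ⟨by decide +kernel, by decide +kernel, by decide +kernel, by decide +kernel, by decide +kernel, by decide +kernel, by decide +kernel, by decide +kernel⟩

def t36133 : allY (E.wth T1) l36133 = true ∧
    allY (E.wth T1) l36134 = true ∧
    allY (E.wth T1) l36135 = true ∧
    allY (E.wth T1) l36136 = true ∧
    allY (E.wth T1) l36137 = true ∧
    allY (E.wth T1) l36138 = true ∧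
    allY (E.wth T1) l36139 = true ∧
    allY (E.wth T1) l36140 = true :=
  ⟨by decide +kernel, by decide +kernel, by decide +kernel, by decide +kernel, by decide +kernel, by decide +kernel, by decide +kernel, by decide +kernel⟩

def t36141 : allY (E.wth T1) l36141 = true ∧
    allY (E.wth T1) l36142 = true ∧
    allY (E.wth T1) l36143 = true ∧
    allY (E.wth T1) l36144 = true ∧
    allY (E.wth T1) l36145 = true ∧
    allY (E.wth T1) l36146 = true ∧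
    allY (E.wth T1) l36147 = true ∧
    allY (E.wth T1) l36148 = true :=
  ⟨by decide +kernel, by decide +kernel, by decide +kernel, by decide +kernel, by decide +kernel, by decide +kernel, by decide +kernel, by decide +kernel⟩

def t36149 : allY (E.wth T1) l36149 = true ∧
    allY (E.wth T1) l36150 = true ∧
    allY (E.wth T1) l36151 = true ∧
    allY (E.wth T1) l36152 = true ∧
    allY (E.wth T1) l36153 = true ∧
    allY (E.wth T1) l36154 = true ∧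
    allY (E.wth T1) l36155 = true ∧
    allY (E.wth T1) l36156 = true :=
  ⟨by decide +kernel, by decide +kernel, by decide +kernel, by decide +kernel, by decide +kernel, by decide +kernel, by decide +kernel, by decide +kernel⟩

def t36157 : allY (E.wth T1) l36157 = true ∧
    allY (E.wth T1) l36158 = true ∧
    allY (E.wth T1) l36159 = true ∧
    allY (E.wth T1) l36160 = true ∧
    allY (E.wth T1) l36161 = true ∧
    allY (E.wth T1) l36162 = true ∧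
    allY (E.wth T1) l36163 = true ∧
    allY (E.wth T1) l36164 = true :=
  ⟨by decide +kernel, by decide +kernel, by decide +kernel, by decide +kernel, by decide +kernel, by decide +kernel, by decide +kernel, by decide +kernel⟩

def t36165 : allY (E.wth T1) l36165 = true ∧
    allY (E.wth T1) l36166 = true ∧
    allY (E.wth T1) l36167 = true ∧
    allY (E.wth T1) l36168 = true ∧
    allY (E.wth T1) l36169 = true ∧
    allY (E.wth T1) l36170 = true ∧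
    allY (E.wth T1) l36171 = true ∧
    allY (E.wth T1) l36172 = true :=
  ⟨by decide +kernel, by decide +kernel, by decide +kernel, by decide +kernel, by decide +kernel, by decide +kernel, by decide +kernel, by decide +kernel⟩

def t36173 : allY (E.wth T1) l36173 = true ∧
    allY (E.wth T1) l36174 = true ∧
    allY (E.wth T1) l36175 = true ∧
    allY (E.wth T1) l36176 = true ∧
    allY (E.wth T1) l36177 = true ∧
    allY (E.wth T1) l36178 = true ∧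
    allY (E.wth T1) l36179 = true ∧
    allY (E.wth T1) l36180 = true :=
  ⟨by decide +kernel, by decide +kernel, by decide +kernel, by decide +kernel, by decide +kernel, by decide +kernel, by decide +kernel, by decide +kernel⟩

def t36181 : allY (E.wth T1) l36181 = true ∧
    allY (E.wth T1) l36182 = true ∧
    allY (E.wth T1) l36183 = true ∧
    allY (E.wth T1) l36184 = true ∧
    allY (E.wth T1) l36185 = true ∧
    allY (E.wth T1) l36186 = true ∧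
    allY (E.wth T1) l36187 = true ∧
    allY (E.wth T1) l36188 = true :=
  ⟨by decide +kernel, by decide +kernel, by decide +kernel, by decide +kernel, by decide +kernel, by decide +kernel, by decide +kernel, by decide +kernel⟩

def t36189 : allY (E.wth T1) l36189 = true ∧
    allY (E.wth T1) l36190 = true ∧
    allY (E.wth T1) l36191 = true ∧
    allY (E.wth T1) l36192 = true ∧
    allY (E.wth T1) l36193 = true ∧
    allY (E.wth T1) l36194 = true ∧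
    allY (E.wth T1) l36195 = true ∧
    allY (E.wth T1) l36196 = true :=
  ⟨by decide +kernel, by decide +kernel, by decide +kernel, by decide +kernel, by decide +kernel, by decide +kernel, by decide +kernel, by decide +kernel⟩

def t36197 : allY (E.wth T1) l36197 = true ∧
    allY (E.wth T1) l36198 = true ∧
    allY (E.wth T1) l36199 = true ∧
    allY (E.wth T1) l36200 = true ∧
    allY (E.wth T1) l36201 = true ∧
    allY (E.wth T1) l36202 = true ∧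
    allY (E.wth T1) l36203 = true ∧
    allY (E.wth T1) l36204 = true :=
  ⟨by decide +kernel, by decide +kernel, by decide +kernel, by decide +kernel, by decide +kernel, by decide +kernel, by decide +kernel, by decide +kernel⟩

def t36205 : allY (E.wth T1) l36205 = true ∧
    allY (E.wth T1) l36206 = true ∧
    allY (E.wth T1) l36207 = true ∧
    allY (E.wth T1) l36208 = true ∧
    allY (E.wth T1) l36209 = true ∧
    allY (E.wth T1) l36210 = true ∧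
    allY (E.wth T1) l36211 = true ∧
    allY (E.wth T1) l36212 = true :=
  ⟨by decide +kernel, by decide +kernel, by decide +kernel, by decide +kernel, by decide +kernel, by decide +kernel, by decide +kernel, by decide +kernel⟩

def t36213 : allY (E.wth T1) l36213 = true ∧
    allY (E.wth T1) l36214 = true ∧
    allY (E.wth T1) l36215 = true ∧
    allY (E.wth T1) l36216 = true ∧
    allY (E.wth T1) l36217 = true ∧
    allY (E.wth T1) l36218 = true ∧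
    allY (E.wth T1) l36219 = true ∧
    allY (E.wth T1) l36220 = true :=
  ⟨by decide +kernel, by decide +kernel, by decide +kernel, by decide +kernel, by decide +kernel, by decide +kernel, by decide +kernel, by decide +kernel⟩

def t36221 : allY (E.wth T1) l36221 = true ∧
    allY (E.wth T1) l36222 = true ∧
    allY (E.wth T1) l36223 = true ∧
    allY (E.wth T1) l36224 = true ∧
    allY (E.wth T1) l36225 = true ∧
    allY (E.wth T1) l36226 = true ∧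
    allY (E.wth T1) l36227 = true ∧
    allY (E.wth T1) l36228 = true :=
  ⟨by decide +kernel, by decide +kernel, by decide +kernel, by decide +kernel, by decide +kernel, by decide +kernel, by decide +kernel, by decide +kernel⟩

def t36229 : allY (E.wth T1) l36229 = true ∧
    allY (E.wth T1) l36230 = true ∧
    allY (E.wth T1) l36231 = true ∧
    allY (E.wth T1) l36232 = true ∧
    allY (E.wth T1) l36233 = true ∧
    allY (E.wth T1) l36234 = true ∧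
    allY (E.wth T1) l36235 = true ∧
    allY (E.wth T1) l36236 = true :=
  ⟨by decide +kernel, by decide +kernel, by decide +kernel, by decide +kernel, by decide +kernel, by decide +kernel, by decide +kernel, by decide +kernel⟩

def t36237 : allY (E.wth T1) l36237 = true ∧
    allY (E.wth T1) l36238 = true ∧
    allY (E.wth T1) l36239 = true ∧
    allY (E.wth T1) l36240 = true ∧
    allY (E.wth T1) l36241 = true ∧
    allY (E.wth T1) l36242 = true ∧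
    allY (E.wth T1) l36243 = true ∧
    allY (E.wth T1) l36244 = true :=
  ⟨by decide +kernel, by decide +kernel, by decide +kernel, by decide +kernel, by decide +kernel, by decide +kernel, by decide +kernel, by decide +kernel⟩

def t36245 : allY (E.wth T1) l36245 = true ∧
    allY (E.wth T1) l36246 = true ∧
    allY (E.wth T1) l36247 = true ∧
    allY (E.wth T1) l36248 = true ∧
    allY (E.wth T1) l36249 = true ∧
    allY (E.wth T1) l36250 = true ∧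
    allY (E.wth T1) l36251 = true ∧
    allY (E.wth T1) l36252 = true :=
  ⟨by decide +kernel, by decide +kernel, by decide +kernel, by decide +kernel, by decide +kernel, by decide +kernel, by decide +kernel, by decide +kernel⟩

def t36253 : allY (E.wth T1) l36253 = true ∧
    allY (E.wth T1) l36254 = true ∧
    allY (E.wth T1) l36255 = true ∧
    allY (E.wth T1) l36256 = true ∧
    allY (E.wth T1) l36257 = true ∧
    allY (E.wth T1) l36258 = true ∧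
    allY (E.wth T1) l36259 = true ∧
    allY (E.wth T1) l36260 = true :=
  ⟨by decide +kernel, by decide +kernel, by decide +kernel, by decide +kernel, by decide +kernel, by decide +kernel, by decide +kernel, by decide +kernel⟩

def t36261 : allY (E.wth T1) l36261 = true ∧
    allY (E.wth T1) l36262 = true ∧
    allY (E.wth T1) l36263 = true ∧
    allY (E.wth T1) l36264 = true ∧
    allY (E.wth T1) l36265 = true ∧
    allY (E.wth T1) l36266 = true ∧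
    allY (E.wth T1) l36267 = true ∧
    allY (E.wth T1) l36268 = true :=
  ⟨by decide +kernel, by decide +kernel, by decide +kernel, by decide +kernel, by decide +kernel, by decide +kernel, by decide +kernel, by decide +kernel⟩

def t36269 : allY (E.wth T1) l36269 = true ∧
    allY (E.wth T1) l36270 = true ∧
    allY (E.wth T1) l36271 = true ∧
    allY (E.wth T1) l36272 = true ∧
    allY (E.wth T1) l36273 = true ∧
    allY (E.wth T1) l36274 = true ∧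
    allY (E.wth T1) l36275 = true ∧
    allY (E.wth T1) l36276 = true :=
  ⟨by decide +kernel, by decide +kernel, by decide +kernel, by decide +kernel, by decide +kernel, by decide +kernel, by decide +kernel, by decide +kernel⟩

def t36277 : allY (E.wth T1) l36277 = true ∧
    allY (E.wth T1) l36278 = true ∧
    allY (E.wth T1) l36279 = true ∧
    allY (E.wth T1) l36280 = true ∧
    allY (E.wth T1) l36281 = true ∧
    allY (E.wth T1) l36282 = true ∧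
    allY (E.wth T1) l36283 = true ∧
    allY (E.wth T1) l36284 = true :=
  ⟨by decide +kernel, by decide +kernel, by decide +kernel, by decide +kernel, by decide +kernel, by decide +kernel, by decide +kernel, by decide +kernel⟩

def t36285 : allY (E.wth T1) l36285 = true ∧
    allY (E.wth T1) l36286 = true ∧
    allY (E.wth T1) l36287 = true ∧
    allY (E.wth T1) l36288 = true ∧
    allY (E.wth T1) l36289 = true ∧
    allY (E.wth T1) l36290 = true ∧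
    allY (E.wth T1) l36291 = true ∧
    allY (E.wth T1) l36292 = true :=
  ⟨by decide +kernel, by decide +kernel, by decide +kernel, by decide +kernel, by decide +kernel, by decide +kernel, by decide +kernel, by decide +kernel⟩

def t36293 : allY (E.wth T1) l36293 = true ∧
    allY (E.wth T1) l36294 = true ∧
    allY (E.wth T1) l36295 = true ∧
    allY (E.wth T1) l36296 = true ∧
    allY (E.wth T1) l36297 = true ∧
    allY (E.wth T1) l36298 = true ∧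
    allY (E.wth T1) l36299 = true ∧
    allY (E.wth T1) l36300 = true :=
  ⟨by decide +kernel, by decide +kernel, by decide +kernel, by decide +kernel, by decide +kernel, by decide +kernel, by decide +kernel, by decide +kernel⟩

def t36301 : allY (E.wth T1) l36301 = true ∧
    allY (E.wth T1) l36302 = true ∧
    allY (E.wth T1) l36303 = true ∧
    allY (E.wth T1) l36304 = true ∧
    allY (E.wth T1) l36305 = true ∧
    allY (E.wth T1) l36306 = true ∧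
    allY (E.wth T1) l36307 = true ∧
    allY (E.wth T1) l36308 = true :=
  ⟨by decide +kernel, by decide +kernel, by decide +kernel, by decide +kernel, by decide +kernel, by decide +kernel, by decide +kernel, by decide +kernel⟩

def t36309 : allY (E.wth T1) l36309 = true ∧
    allY (E.wth T1) l36310 = true ∧
    allY (E.wth T1) l36311 = true ∧
    allY (E.wth T1) l36312 = true ∧
    allY (E.wth T1) l36313 = true ∧
    allY (E.wth T1) l36314 = true ∧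
    allY (E.wth T1) l36315 = true ∧
    allY (E.wth T1) l36316 = true :=
  ⟨by decide +kernel, by decide +kernel, by decide +kernel, by decide +kernel, by decide +kernel, by decide +kernel, by decide +kernel, by decide +kernel⟩

def t36317 : allY (E.wth T1) l36317 = true ∧
    allY (E.wth T1) l36318 = true ∧
    allY (E.wth T1) l36319 = true ∧
    allY (E.wth T1) l36320 = true ∧
    allY (E.wth T1) l36321 = true ∧
    allY (E.wth T1) l36322 = true ∧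
    allY (E.wth T1) l36323 = true ∧
    allY (E.wth T1) l36324 = true :=
  ⟨by decide +kernel, by decide +kernel, by decide +kernel, by decide +kernel, by decide +kernel, by decide +kernel, by decide +kernel, by decide +kernel⟩

def t36325 : allY (E.wth T1) l36325 = true ∧
    allY (E.wth T1) l36326 = true ∧
    allY (E.wth T1) l36327 = true ∧
    allY (E.wth T1) l36328 = true ∧
    allY (E.wth T1) l36329 = true ∧
    allY (E.wth T1) l36330 = true ∧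
    allY (E.wth T1) l36331 = true ∧
    allY (E.wth T1) l36332 = true :=
  ⟨by decide +kernel, by decide +kernel, by decide +kernel, by decide +kernel, by decide +kernel, by decide +kernel, by decide +kernel, by decide +kernel⟩

def t36333 : allY (E.wth T1) l36333 = true ∧
    allY (E.wth T1) l36334 = true ∧
    allY (E.wth T1) l36335 = true ∧
    allY (E.wth T1) l36336 = true ∧
    allY (E.wth T1) l36337 = true ∧
    allY (E.wth T1) l36338 = true ∧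
    allY (E.wth T1) l36339 = true ∧
    allY (E.wth T1) l36340 = true :=
  ⟨by decide +kernel, by decide +kernel, by decide +kernel, by decide +kernel, by decide +kernel, by decide +kernel, by decide +kernel, by decide +kernel⟩

def t36341 : allY (E.wth T1) l36341 = true ∧
    allY (E.wth T1) l36342 = true ∧
    allY (E.wth T1) l36343 = true ∧
    allY (E.wth T1) l36344 = true ∧
    allY (E.wth T1) l36345 = true ∧
    allY (E.wth T1) l36346 = true ∧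
    allY (E.wth T1) l36347 = true ∧
    allY (E.wth T1) l36348 = true :=
  ⟨by decide +kernel, by decide +kernel, by decide +kernel, by decide +kernel, by decide +kernel, by decide +kernel, by decide +kernel, by decide +kernel⟩

def t36349 : allY (E.wth T1) l36349 = true ∧
    allY (E.wth T1) l36350 = true ∧
    allY (E.wth T1) l36351 = true ∧
    allY (E.wth T1) l36352 = true ∧
    allY (E.wth T1) l36353 = true ∧
    allY (E.wth T1) l36354 = true ∧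
    allY (E.wth T1) l36355 = true ∧
    allY (E.wth T1) l36356 = true :=
  ⟨by decide +kernel, by decide +kernel, by decide +kernel, by decide +kernel, by decide +kernel, by decide +kernel, by decide +kernel, by decide +kernel⟩

def t36357 : allY (E.wth T1) l36357 = true ∧
    allY (E.wth T1) l36358 = true ∧
    allY (E.wth T1) l36359 = true ∧
    allY (E.wth T1) l36360 = true ∧
    allY (E.wth T1) l36361 = true ∧
    allY (E.wth T1) l36362 = true ∧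
    allY (E.wth T1) l36363 = true ∧
    allY (E.wth T1) l36364 = true :=
  ⟨by decide +kernel, by decide +kernel, by decide +kernel, by decide +kernel, by decide +kernel, by decide +kernel, by decide +kernel, by decide +kernel⟩

def t36365 : allY (E.wth T1) l36365 = true ∧
    allY (E.wth T1) l36366 = true ∧
    allY (E.wth T1) l36367 = true ∧
    allY (E.wth T1) l36368 = true ∧
    allY (E.wth T1) l36369 = true ∧
    allY (E.wth T1) l36370 = true ∧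
    allY (E.wth T1) l36371 = true ∧
    allY (E.wth T1) l36372 = true :=
  ⟨by decide +kernel, by decide +kernel, by decide +kernel, by decide +kernel, by decide +kernel, by decide +kernel, by decide +kernel, by decide +kernel⟩

def t36373 : allY (E.wth T1) l36373 = true ∧
    allY (E.wth T1) l36374 = true ∧
    allY (E.wth T1) l36375 = true ∧
    allY (E.wth T1) l36376 = true ∧
    allY (E.wth T1) l36377 = true ∧
    allY (E.wth T1) l36378 = true ∧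
    allY (E.wth T1) l36379 = true ∧
    allY (E.wth T1) l36380 = true :=
  ⟨by decide +kernel, by decide +kernel, by decide +kernel, by decide +kernel, by decide +kernel, by decide +kernel, by decide +kernel, by decide +kernel⟩

def t36381 : allY (E.wth T1) l36381 = true ∧
    allY (E.wth T1) l36382 = true ∧
    allY (E.wth T1) l36383 = true ∧
    allY (E.wth T1) l36384 = true ∧
    allY (E.wth T1) l36385 = true ∧
    allY (E.wth T1) l36386 = true ∧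
    allY (E.wth T1) l36387 = true ∧
    allY (E.wth T1) l36388 = true :=
  ⟨by decide +kernel, by decide +kernel, by decide +kernel, by decide +kernel, by decide +kernel, by decide +kernel, by decide +kernel, by decide +kernel⟩

def t36389 : allY (E.wth T1) l36389 = true ∧
    allY (E.wth T1) l36390 = true ∧
    allY (E.wth T1) l36391 = true ∧
    allY (E.wth T1) l36392 = true ∧
    allY (E.wth T1) l36393 = true ∧
    allY (E.wth T1) l36394 = true ∧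
    allY (E.wth T1) l36395 = true ∧
    allY (E.wth T1) l36396 = true :=
  ⟨by decide +kernel, by decide +kernel, by decide +kernel, by decide +kernel, by decide +kernel, by decide +kernel, by decide +kernel, by decide +kernel⟩

def t36397 : allY (E.wth T1) l36397 = true ∧
    allY (E.wth T1) l36398 = true ∧
    allY (E.wth T1) l36399 = true ∧
    allY (E.wth T1) l36400 = true ∧
    allY (E.wth T1) l36401 = true ∧
    allY (E.wth T1) l36402 = true ∧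
    allY (E.wth T1) l36403 = true ∧
    allY (E.wth T1) l36404 = true :=
  ⟨by decide +kernel, by decide +kernel, by decide +kernel, by decide +kernel, by decide +kernel, by decide +kernel, by decide +kernel, by decide +kernel⟩

def t36405 : allY (E.wth T1) l36405 = true ∧
    allY (E.wth T1) l36406 = true ∧
    allY (E.wth T1) l36407 = true ∧
    allY (E.wth T1) l36408 = true ∧
    allY (E.wth T1) l36409 = true ∧
    allY (E.wth T1) l36410 = true ∧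
    allY (E.wth T1) l36411 = true ∧
    allY (E.wth T1) l36412 = true :=
  ⟨by decide +kernel, by decide +kernel, by decide +kernel, by decide +kernel, by decide +kernel, by decide +kernel, by decide +kernel, by decide +kernel⟩

def t36413 : allY (E.wth T1) l36413 = true ∧
    allY (E.wth T1) l36414 = true ∧
    allY (E.wth T1) l36415 = true ∧
    allY (E.wth T1) l36416 = true ∧
    allY (E.wth T1) l36417 = true ∧
    allY (E.wth T1) l36418 = true ∧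
    allY (E.wth T1) l36419 = true ∧
    allY (E.wth T1) l36420 = true :=
  ⟨by decide +kernel, by decide +kernel, by decide +kernel, by decide +kernel, by decide +kernel, by decide +kernel, by decide +kernel, by decide +kernel⟩

def t36421 : allY (E.wth T1) l36421 = true ∧
    allY (E.wth T1) l36422 = true ∧
    allY (E.wth T1) l36423 = true ∧
    allY (E.wth T1) l36424 = true ∧
    allY (E.wth T1) l36425 = true ∧
    allY (E.wth T1) l36426 = true ∧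
    allY (E.wth T1) l36427 = true ∧
    allY (E.wth T1) l36428 = true :=
  ⟨by decide +kernel, by decide +kernel, by decide +kernel, by decide +kernel, by decide +kernel, by decide +kernel, by decide +kernel, by decide +kernel⟩

def t36429 : allY (E.wth T1) l36429 = true ∧
    allY (E.wth T1) l36430 = true ∧
    allY (E.wth T1) l36431 = true ∧
    allY (E.wth T1) l36432 = true ∧
    allY (E.wth T1) l36433 = true ∧
    allY (E.wth T1) l36434 = true ∧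
    allY (E.wth T1) l36435 = true ∧
    allY (E.wth T1) l36436 = true :=
  ⟨by decide +kernel, by decide +kernel, by decide +kernel, by decide +kernel, by decide +kernel, by decide +kernel, by decide +kernel, by decide +kernel⟩

def t36437 : allY (E.wth T1) l36437 = true ∧
    allY (E.wth T1) l36438 = true ∧
    allY (E.wth T1) l36439 = true ∧
    allY (E.wth T1) l36440 = true ∧
    allY (E.wth T1) l36441 = true ∧
    allY (E.wth T1) l36442 = true ∧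
    allY (E.wth T1) l36443 = true ∧
    allY (E.wth T1) l36444 = true :=
  ⟨by decide +kernel, by decide +kernel, by decide +kernel, by decide +kernel, by decide +kernel, by decide +kernel, by decide +kernel, by decide +kernel⟩

def t36445 : allY (E.wth T1) l36445 = true ∧
    allY (E.wth T1) l36446 = true ∧
    allY (E.wth T1) l36447 = true ∧
    allY (E.wth T1) l36448 = true ∧
    allY (E.wth T1) l36449 = true ∧
    allY (E.wth T1) l36450 = true ∧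
    allY (E.wth T1) l36451 = true ∧
    allY (E.wth T1) l36452 = true :=
  ⟨by decide +kernel, by decide +kernel, by decide +kernel, by decide +kernel, by decide +kernel, by decide +kernel, by decide +kernel, by decide +kernel⟩

def t36453 : allY (E.wth T1) l36453 = true ∧
    allY (E.wth T1) l36454 = true ∧
    allY (E.wth T1) l36455 = true ∧
    allY (E.wth T1) l36456 = true ∧
    allY (E.wth T1) l36457 = true ∧
    allY (E.wth T1) l36458 = true ∧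
    allY (E.wth T1) l36459 = true ∧
    allY (E.wth T1) l36460 = true :=
  ⟨by decide +kernel, by decide +kernel, by decide +kernel, by decide +kernel, by decide +kernel, by decide +kernel, by decide +kernel, by decide +kernel⟩

def t36461 : allY (E.wth T1) l36461 = true ∧
    allY (E.wth T1) l36462 = true ∧
    allY (E.wth T1) l36463 = true ∧
    allY (E.wth T1) l36464 = true ∧
    allY (E.wth T1) l36465 = true ∧
    allY (E.wth T1) l36466 = true ∧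
    allY (E.wth T1) l36467 = true ∧
    allY (E.wth T1) l36468 = true :=
  ⟨by decide +kernel, by decide +kernel, by decide +kernel, by decide +kernel, by decide +kernel, by decide +kernel, by decide +kernel, by decide +kernel⟩

def t36469 : allY (E.wth T1) l36469 = true ∧
    allY (E.wth T1) l36470 = true ∧
    allY (E.wth T1) l36471 = true ∧
    allY (E.wth T1) l36472 = true :=
  ⟨by decide +kernel, by decide +kernel, by decide +kernel, by decide +kernel⟩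

theorem a65 {p : Rf → Prop} (H : ∀ l, allY (E.wth T1) l = true → (lkp l).All p) :
    b65.All p := ⟨⟨⟨⟨⟨⟨⟨⟨⟨H _ t35925.1, H _ t35925.2.1⟩, ⟨H _ t35925.2.2.1, H _ t35925.2.2.2.1⟩⟩, ⟨⟨H _ t35925.2.2.2.2.1, H _ t35925.2.2.2.2.2.1⟩, ⟨H _ t35925.2.2.2.2.2.2.1, H _ t35925.2.2.2.2.2.2.2⟩⟩⟩, ⟨⟨⟨H _ t35933.1, H _ t35933.2.1⟩, ⟨H _ t35933.2.2.1, H _ t35933.2.2.2.1⟩⟩, ⟨⟨H _ t35933.2.2.2.2.1, H _ t35933.2.2.2.2.2.1⟩, ⟨H _ t35933.2.2.2.2.2.2.1, ⟨H _ t35933.2.2.2.2.2.2.2, H _ t35941.1⟩⟩⟩⟩⟩, ⟨⟨⟨⟨H _ t35941.2.1, H _ t35941.2.2.1⟩, ⟨H _ t35941.2.2.2.1, H _ t35941.2.2.2.2.1⟩⟩, ⟨⟨H _ t35941.2.2.2.2.2.1, H _ t35941.2.2.2.2.2.2.1⟩, ⟨H _ t35941.2.2.2.2.2.2.2, H _ t35949.1⟩⟩⟩, ⟨⟨⟨H _ t35949.2.1, H _ t35949.2.2.1⟩, ⟨H _ t35949.2.2.2.1, H _ t35949.2.2.2.2.1⟩⟩, ⟨⟨H _ t35949.2.2.2.2.2.1, H _ t35949.2.2.2.2.2.2.1⟩, ⟨H _ t35949.2.2.2.2.2.2.2, ⟨H _ t35957.1, H _ t35957.2.1⟩⟩⟩⟩⟩⟩, ⟨⟨⟨⟨⟨H _ t35957.2.2.1, H _ t35957.2.2.2.1⟩,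 ⟨H _ t35957.2.2.2.2.1, H _ t35957.2.2.2.2.2.1⟩⟩, ⟨⟨H _ t35957.2.2.2.2.2.2.1, H _ t35957.2.2.2.2.2.2.2⟩, ⟨H _ t35965.1, H _ t35965.2.1⟩⟩⟩, ⟨⟨⟨H _ t35965.2.2.1, H _ t35965.2.2.2.1⟩, ⟨H _ t35965.2.2.2.2.1, H _ t35965.2.2.2.2.2.1⟩⟩, ⟨⟨H _ t35965.2.2.2.2.2.2.1, H _ t35965.2.2.2.2.2.2.2⟩, ⟨H _ t35973.1, ⟨H _ t35973.2.1, H _ t35973.2.2.1⟩⟩⟩⟩⟩, ⟨⟨⟨⟨H _ t35973.2.2.2.1, H _ t35973.2.2.2.2.1⟩, ⟨H _ t35973.2.2.2.2.2.1, H _ t35973.2.2.2.2.2.2.1⟩⟩, ⟨⟨H _ t35973.2.2.2.2.2.2.2, H _ t35981.1⟩, ⟨H _ t35981.2.1, H _ t35981.2.2.1⟩⟩⟩, ⟨⟨⟨H _ t35981.2.2.2.1, H _ t35981.2.2.2.2.1⟩, ⟨H _ t35981.2.2.2.2.2.1, H _ t35981.2.2.2.2.2.2.1⟩⟩, ⟨⟨H _ t35981.2.2.2.2.2.2.2, H _ t35989.1⟩, ⟨H _ t35989.2.1, ⟨H _ t35989.2.2.1, H _ t35989.2.2.2.1⟩⟩⟩⟩⟩⟩⟩, ⟨⟨⟨⟨⟨⟨H _ t35989.2.2.2.2.1, H _ t35989.2.2.2.2.2.1⟩, ⟨H _ t35989.2.2.2.2.2.2.1, H _ t35989.2.2.2.2.2.2.2⟩⟩, ⟨⟨H _ t35997.1, H _ t35997.2.1⟩, ⟨H _ t35997.2.2.1, H _ t35997.2.2.2.1⟩⟩⟩,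 ⟨⟨⟨H _ t35997.2.2.2.2.1, H _ t35997.2.2.2.2.2.1⟩, ⟨H _ t35997.2.2.2.2.2.2.1, H _ t35997.2.2.2.2.2.2.2⟩⟩, ⟨⟨H _ t36005.1, H _ t36005.2.1⟩, ⟨H _ t36005.2.2.1, ⟨H _ t36005.2.2.2.1, H _ t36005.2.2.2.2.1⟩⟩⟩⟩⟩, ⟨⟨⟨⟨H _ t36005.2.2.2.2.2.1, H _ t36005.2.2.2.2.2.2.1⟩, ⟨H _ t36005.2.2.2.2.2.2.2, H _ t36013.1⟩⟩, ⟨⟨H _ t36013.2.1, H _ t36013.2.2.1⟩, ⟨H _ t36013.2.2.2.1, H _ t36013.2.2.2.2.1⟩⟩⟩, ⟨⟨⟨H _ t36013.2.2.2.2.2.1, H _ t36013.2.2.2.2.2.2.1⟩, ⟨H _ t36013.2.2.2.2.2.2.2, H _ t36021.1⟩⟩, ⟨⟨H _ t36021.2.1, H _ t36021.2.2.1⟩, ⟨H _ t36021.2.2.2.1, ⟨H _ t36021.2.2.2.2.1, H _ t36021.2.2.2.2.2.1⟩⟩⟩⟩⟩⟩, ⟨⟨⟨⟨⟨H _ t36021.2.2.2.2.2.2.1, H _ t36021.2.2.2.2.2.2.2⟩, ⟨H _ t36029.1, H _ t36029.2.1⟩⟩, ⟨⟨H _ t36029.2.2.1, H _ t36029.2.2.2.1⟩, ⟨H _ t36029.2.2.2.2.1, H _ t36029.2.2.2.2.2.1⟩⟩⟩, ⟨⟨⟨H _ t36029.2.2.2.2.2.2.1, H _ t36029.2.2.2.2.2.2.2⟩, ⟨H _ t36037.1, H _ t36037.2.1⟩⟩, ⟨⟨H _ t36037.2.2.1, H _ t36037.2.2.2.1⟩,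 ⟨H _ t36037.2.2.2.2.1, ⟨H _ t36037.2.2.2.2.2.1, H _ t36037.2.2.2.2.2.2.1⟩⟩⟩⟩⟩, ⟨⟨⟨⟨H _ t36037.2.2.2.2.2.2.2, H _ t36045.1⟩, ⟨H _ t36045.2.1, H _ t36045.2.2.1⟩⟩, ⟨⟨H _ t36045.2.2.2.1, H _ t36045.2.2.2.2.1⟩, ⟨H _ t36045.2.2.2.2.2.1, ⟨H _ t36045.2.2.2.2.2.2.1, H _ t36045.2.2.2.2.2.2.2⟩⟩⟩⟩, ⟨⟨⟨H _ t36053.1, H _ t36053.2.1⟩, ⟨H _ t36053.2.2.1, H _ t36053.2.2.2.1⟩⟩, ⟨⟨H _ t36053.2.2.2.2.1, H _ t36053.2.2.2.2.2.1⟩, ⟨H _ t36053.2.2.2.2.2.2.1, ⟨H _ t36053.2.2.2.2.2.2.2, H _ t36061.1⟩⟩⟩⟩⟩⟩⟩⟩, ⟨⟨⟨⟨⟨⟨⟨H _ t36061.2.1, H _ t36061.2.2.1⟩, ⟨H _ t36061.2.2.2.1, H _ t36061.2.2.2.2.1⟩⟩, ⟨⟨H _ t36061.2.2.2.2.2.1, H _ t36061.2.2.2.2.2.2.1⟩, ⟨H _ t36061.2.2.2.2.2.2.2, H _ t36069.1⟩⟩⟩, ⟨⟨⟨H _ t36069.2.1, H _ t36069.2.2.1⟩, ⟨H _ t36069.2.2.2.1, H _ t36069.2.2.2.2.1⟩⟩, ⟨⟨H _ t36069.2.2.2.2.2.1, H _ t36069.2.2.2.2.2.2.1⟩, ⟨H _ t36069.2.2.2.2.2.2.2, ⟨H _ t36077.1, H _ t36077.2.1⟩⟩⟩⟩⟩, ⟨⟨⟨⟨H _ t36077.2.2.1, H _ t36077.2.2.2.1⟩,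 ⟨H _ t36077.2.2.2.2.1, H _ t36077.2.2.2.2.2.1⟩⟩, ⟨⟨H _ t36077.2.2.2.2.2.2.1, H _ t36077.2.2.2.2.2.2.2⟩, ⟨H _ t36085.1, H _ t36085.2.1⟩⟩⟩, ⟨⟨⟨H _ t36085.2.2.1, H _ t36085.2.2.2.1⟩, ⟨H _ t36085.2.2.2.2.1, H _ t36085.2.2.2.2.2.1⟩⟩, ⟨⟨H _ t36085.2.2.2.2.2.2.1, H _ t36085.2.2.2.2.2.2.2⟩, ⟨H _ t36093.1, ⟨H _ t36093.2.1, H _ t36093.2.2.1⟩⟩⟩⟩⟩⟩, ⟨⟨⟨⟨⟨H _ t36093.2.2.2.1, H _ t36093.2.2.2.2.1⟩, ⟨H _ t36093.2.2.2.2.2.1, H _ t36093.2.2.2.2.2.2.1⟩⟩, ⟨⟨H _ t36093.2.2.2.2.2.2.2, H _ t36101.1⟩, ⟨H _ t36101.2.1, H _ t36101.2.2.1⟩⟩⟩, ⟨⟨⟨H _ t36101.2.2.2.1, H _ t36101.2.2.2.2.1⟩, ⟨H _ t36101.2.2.2.2.2.1, H _ t36101.2.2.2.2.2.2.1⟩⟩, ⟨⟨H _ t36101.2.2.2.2.2.2.2, H _ t36109.1⟩, ⟨H _ t36109.2.1, ⟨H _ t36109.2.2.1, H _ t36109.2.2.2.1⟩⟩⟩⟩⟩, ⟨⟨⟨⟨H _ t36109.2.2.2.2.1, H _ t36109.2.2.2.2.2.1⟩, ⟨H _ t36109.2.2.2.2.2.2.1, H _ t36109.2.2.2.2.2.2.2⟩⟩, ⟨⟨H _ t36117.1, H _ t36117.2.1⟩, ⟨H _ t36117.2.2.1, H _ t36117.2.2.2.1⟩⟩⟩,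 ⟨⟨⟨H _ t36117.2.2.2.2.1, H _ t36117.2.2.2.2.2.1⟩, ⟨H _ t36117.2.2.2.2.2.2.1, H _ t36117.2.2.2.2.2.2.2⟩⟩, ⟨⟨H _ t36125.1, H _ t36125.2.1⟩, ⟨H _ t36125.2.2.1, ⟨H _ t36125.2.2.2.1, H _ t36125.2.2.2.2.1⟩⟩⟩⟩⟩⟩⟩, ⟨⟨⟨⟨⟨⟨H _ t36125.2.2.2.2.2.1, H _ t36125.2.2.2.2.2.2.1⟩, ⟨H _ t36125.2.2.2.2.2.2.2, H _ t36133.1⟩⟩, ⟨⟨H _ t36133.2.1, H _ t36133.2.2.1⟩, ⟨H _ t36133.2.2.2.1, H _ t36133.2.2.2.2.1⟩⟩⟩, ⟨⟨⟨H _ t36133.2.2.2.2.2.1, H _ t36133.2.2.2.2.2.2.1⟩, ⟨H _ t36133.2.2.2.2.2.2.2, H _ t36141.1⟩⟩, ⟨⟨H _ t36141.2.1, H _ t36141.2.2.1⟩, ⟨H _ t36141.2.2.2.1, ⟨H _ t36141.2.2.2.2.1, H _ t36141.2.2.2.2.2.1⟩⟩⟩⟩⟩, ⟨⟨⟨⟨H _ t36141.2.2.2.2.2.2.1, H _ t36141.2.2.2.2.2.2.2⟩, ⟨H _ t36149.1, H _ t36149.2.1⟩⟩, ⟨⟨H _ t36149.2.2.1, H _ t36149.2.2.2.1⟩, ⟨H _ t36149.2.2.2.2.1, H _ t36149.2.2.2.2.2.1⟩⟩⟩, ⟨⟨⟨H _ t36149.2.2.2.2.2.2.1, H _ t36149.2.2.2.2.2.2.2⟩, ⟨H _ t36157.1, H _ t36157.2.1⟩⟩, ⟨⟨H _ t36157.2.2.1, H _ t36157.2.2.2.1⟩,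 ⟨H _ t36157.2.2.2.2.1, ⟨H _ t36157.2.2.2.2.2.1, H _ t36157.2.2.2.2.2.2.1⟩⟩⟩⟩⟩⟩, ⟨⟨⟨⟨⟨H _ t36157.2.2.2.2.2.2.2, H _ t36165.1⟩, ⟨H _ t36165.2.1, H _ t36165.2.2.1⟩⟩, ⟨⟨H _ t36165.2.2.2.1, H _ t36165.2.2.2.2.1⟩, ⟨H _ t36165.2.2.2.2.2.1, H _ t36165.2.2.2.2.2.2.1⟩⟩⟩, ⟨⟨⟨H _ t36165.2.2.2.2.2.2.2, H _ t36173.1⟩, ⟨H _ t36173.2.1, H _ t36173.2.2.1⟩⟩, ⟨⟨H _ t36173.2.2.2.1, H _ t36173.2.2.2.2.1⟩, ⟨H _ t36173.2.2.2.2.2.1, ⟨H _ t36173.2.2.2.2.2.2.1, H _ t36173.2.2.2.2.2.2.2⟩⟩⟩⟩⟩, ⟨⟨⟨⟨H _ t36181.1, H _ t36181.2.1⟩, ⟨H _ t36181.2.2.1, H _ t36181.2.2.2.1⟩⟩, ⟨⟨H _ t36181.2.2.2.2.1, H _ t36181.2.2.2.2.2.1⟩, ⟨H _ t36181.2.2.2.2.2.2.1, ⟨H _ t36181.2.2.2.2.2.2.2, H _ t36189.1⟩⟩⟩⟩, ⟨⟨⟨H _ t36189.2.1, H _ t36189.2.2.1⟩, ⟨H _ t36189.2.2.2.1, H _ t36189.2.2.2.2.1⟩⟩, ⟨⟨H _ t36189.2.2.2.2.2.1, H _ t36189.2.2.2.2.2.2.1⟩, ⟨H _ t36189.2.2.2.2.2.2.2, ⟨H _ t36197.1, H _ t36197.2.1⟩⟩⟩⟩⟩⟩⟩⟩⟩, ⟨⟨⟨⟨⟨⟨⟨⟨H _ t36197.2.2.1, H _ t36197.2.2.2.1⟩,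 ⟨H _ t36197.2.2.2.2.1, H _ t36197.2.2.2.2.2.1⟩⟩, ⟨⟨H _ t36197.2.2.2.2.2.2.1, H _ t36197.2.2.2.2.2.2.2⟩, ⟨H _ t36205.1, H _ t36205.2.1⟩⟩⟩, ⟨⟨⟨H _ t36205.2.2.1, H _ t36205.2.2.2.1⟩, ⟨H _ t36205.2.2.2.2.1, H _ t36205.2.2.2.2.2.1⟩⟩, ⟨⟨H _ t36205.2.2.2.2.2.2.1, H _ t36205.2.2.2.2.2.2.2⟩, ⟨H _ t36213.1, ⟨H _ t36213.2.1, H _ t36213.2.2.1⟩⟩⟩⟩⟩, ⟨⟨⟨⟨H _ t36213.2.2.2.1, H _ t36213.2.2.2.2.1⟩, ⟨H _ t36213.2.2.2.2.2.1, H _ t36213.2.2.2.2.2.2.1⟩⟩, ⟨⟨H _ t36213.2.2.2.2.2.2.2, H _ t36221.1⟩, ⟨H _ t36221.2.1, H _ t36221.2.2.1⟩⟩⟩, ⟨⟨⟨H _ t36221.2.2.2.1, H _ t36221.2.2.2.2.1⟩, ⟨H _ t36221.2.2.2.2.2.1, H _ t36221.2.2.2.2.2.2.1⟩⟩, ⟨⟨H _ t36221.2.2.2.2.2.2.2, H _ t36229.1⟩, ⟨H _ t36229.2.1, ⟨H _ t36229.2.2.1, H _ t36229.2.2.2.1⟩⟩⟩⟩⟩⟩, ⟨⟨⟨⟨⟨H _ t36229.2.2.2.2.1, H _ t36229.2.2.2.2.2.1⟩, ⟨H _ t36229.2.2.2.2.2.2.1, H _ t36229.2.2.2.2.2.2.2⟩⟩, ⟨⟨H _ t36237.1, H _ t36237.2.1⟩, ⟨H _ t36237.2.2.1, H _ t36237.2.2.2.1⟩⟩⟩,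 ⟨⟨⟨H _ t36237.2.2.2.2.1, H _ t36237.2.2.2.2.2.1⟩, ⟨H _ t36237.2.2.2.2.2.2.1, H _ t36237.2.2.2.2.2.2.2⟩⟩, ⟨⟨H _ t36245.1, H _ t36245.2.1⟩, ⟨H _ t36245.2.2.1, ⟨H _ t36245.2.2.2.1, H _ t36245.2.2.2.2.1⟩⟩⟩⟩⟩, ⟨⟨⟨⟨H _ t36245.2.2.2.2.2.1, H _ t36245.2.2.2.2.2.2.1⟩, ⟨H _ t36245.2.2.2.2.2.2.2, H _ t36253.1⟩⟩, ⟨⟨H _ t36253.2.1, H _ t36253.2.2.1⟩, ⟨H _ t36253.2.2.2.1, H _ t36253.2.2.2.2.1⟩⟩⟩, ⟨⟨⟨H _ t36253.2.2.2.2.2.1, H _ t36253.2.2.2.2.2.2.1⟩, ⟨H _ t36253.2.2.2.2.2.2.2, H _ t36261.1⟩⟩, ⟨⟨H _ t36261.2.1, H _ t36261.2.2.1⟩, ⟨H _ t36261.2.2.2.1, ⟨H _ t36261.2.2.2.2.1, H _ t36261.2.2.2.2.2.1⟩⟩⟩⟩⟩⟩⟩, ⟨⟨⟨⟨⟨⟨H _ t36261.2.2.2.2.2.2.1, H _ t36261.2.2.2.2.2.2.2⟩, ⟨H _ t36269.1, H _ t36269.2.1⟩⟩, ⟨⟨H _ t36269.2.2.1, H _ t36269.2.2.2.1⟩, ⟨H _ t36269.2.2.2.2.1, H _ t36269.2.2.2.2.2.1⟩⟩⟩, ⟨⟨⟨H _ t36269.2.2.2.2.2.2.1, H _ t36269.2.2.2.2.2.2.2⟩, ⟨H _ t36277.1, H _ t36277.2.1⟩⟩, ⟨⟨H _ t36277.2.2.1, H _ t36277.2.2.2.1⟩,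 ⟨H _ t36277.2.2.2.2.1, ⟨H _ t36277.2.2.2.2.2.1, H _ t36277.2.2.2.2.2.2.1⟩⟩⟩⟩⟩, ⟨⟨⟨⟨H _ t36277.2.2.2.2.2.2.2, H _ t36285.1⟩, ⟨H _ t36285.2.1, H _ t36285.2.2.1⟩⟩, ⟨⟨H _ t36285.2.2.2.1, H _ t36285.2.2.2.2.1⟩, ⟨H _ t36285.2.2.2.2.2.1, H _ t36285.2.2.2.2.2.2.1⟩⟩⟩, ⟨⟨⟨H _ t36285.2.2.2.2.2.2.2, H _ t36293.1⟩, ⟨H _ t36293.2.1, H _ t36293.2.2.1⟩⟩, ⟨⟨H _ t36293.2.2.2.1, H _ t36293.2.2.2.2.1⟩, ⟨H _ t36293.2.2.2.2.2.1, ⟨H _ t36293.2.2.2.2.2.2.1, H _ t36293.2.2.2.2.2.2.2⟩⟩⟩⟩⟩⟩, ⟨⟨⟨⟨⟨H _ t36301.1, H _ t36301.2.1⟩, ⟨H _ t36301.2.2.1, H _ t36301.2.2.2.1⟩⟩, ⟨⟨H _ t36301.2.2.2.2.1, H _ t36301.2.2.2.2.2.1⟩, ⟨H _ t36301.2.2.2.2.2.2.1, H _ t36301.2.2.2.2.2.2.2⟩⟩⟩, ⟨⟨⟨H _ t36309.1, H _ t36309.2.1⟩, ⟨H _ t36309.2.2.1, H _ t36309.2.2.2.1⟩⟩, ⟨⟨H _ t36309.2.2.2.2.1, H _ t36309.2.2.2.2.2.1⟩, ⟨H _ t36309.2.2.2.2.2.2.1, ⟨H _ t36309.2.2.2.2.2.2.2, H _ t36317.1⟩⟩⟩⟩⟩, ⟨⟨⟨⟨H _ t36317.2.1, H _ t36317.2.2.1⟩, ⟨H _ t36317.2.2.2.1,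 H _ t36317.2.2.2.2.1⟩⟩, ⟨⟨H _ t36317.2.2.2.2.2.1, H _ t36317.2.2.2.2.2.2.1⟩, ⟨H _ t36317.2.2.2.2.2.2.2, ⟨H _ t36325.1, H _ t36325.2.1⟩⟩⟩⟩, ⟨⟨⟨H _ t36325.2.2.1, H _ t36325.2.2.2.1⟩, ⟨H _ t36325.2.2.2.2.1, H _ t36325.2.2.2.2.2.1⟩⟩, ⟨⟨H _ t36325.2.2.2.2.2.2.1, H _ t36325.2.2.2.2.2.2.2⟩, ⟨H _ t36333.1, ⟨H _ t36333.2.1, H _ t36333.2.2.1⟩⟩⟩⟩⟩⟩⟩⟩, ⟨⟨⟨⟨⟨⟨⟨H _ t36333.2.2.2.1, H _ t36333.2.2.2.2.1⟩, ⟨H _ t36333.2.2.2.2.2.1, H _ t36333.2.2.2.2.2.2.1⟩⟩, ⟨⟨H _ t36333.2.2.2.2.2.2.2, H _ t36341.1⟩, ⟨H _ t36341.2.1, H _ t36341.2.2.1⟩⟩⟩, ⟨⟨⟨H _ t36341.2.2.2.1, H _ t36341.2.2.2.2.1⟩, ⟨H _ t36341.2.2.2.2.2.1, H _ t36341.2.2.2.2.2.2.1⟩⟩, ⟨⟨H _ t36341.2.2.2.2.2.2.2, H _ t36349.1⟩, ⟨H _ t36349.2.1, ⟨H _ t36349.2.2.1, H _ t36349.2.2.2.1⟩⟩⟩⟩⟩, ⟨⟨⟨⟨H _ t36349.2.2.2.2.1, H _ t36349.2.2.2.2.2.1⟩, ⟨H _ t36349.2.2.2.2.2.2.1, H _ t36349.2.2.2.2.2.2.2⟩⟩, ⟨⟨H _ t36357.1, H _ t36357.2.1⟩, ⟨H _ t36357.2.2.1, H _ t36357.2.2.2.1⟩⟩⟩,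 ⟨⟨⟨H _ t36357.2.2.2.2.1, H _ t36357.2.2.2.2.2.1⟩, ⟨H _ t36357.2.2.2.2.2.2.1, H _ t36357.2.2.2.2.2.2.2⟩⟩, ⟨⟨H _ t36365.1, H _ t36365.2.1⟩, ⟨H _ t36365.2.2.1, ⟨H _ t36365.2.2.2.1, H _ t36365.2.2.2.2.1⟩⟩⟩⟩⟩⟩, ⟨⟨⟨⟨⟨H _ t36365.2.2.2.2.2.1, H _ t36365.2.2.2.2.2.2.1⟩, ⟨H _ t36365.2.2.2.2.2.2.2, H _ t36373.1⟩⟩, ⟨⟨H _ t36373.2.1, H _ t36373.2.2.1⟩, ⟨H _ t36373.2.2.2.1, H _ t36373.2.2.2.2.1⟩⟩⟩, ⟨⟨⟨H _ t36373.2.2.2.2.2.1, H _ t36373.2.2.2.2.2.2.1⟩, ⟨H _ t36373.2.2.2.2.2.2.2, H _ t36381.1⟩⟩, ⟨⟨H _ t36381.2.1, H _ t36381.2.2.1⟩, ⟨H _ t36381.2.2.2.1, ⟨H _ t36381.2.2.2.2.1, H _ t36381.2.2.2.2.2.1⟩⟩⟩⟩⟩, ⟨⟨⟨⟨H _ t36381.2.2.2.2.2.2.1, H _ t36381.2.2.2.2.2.2.2⟩, ⟨H _ t36389.1, H _ t36389.2.1⟩⟩, ⟨⟨H _ t36389.2.2.1, H _ t36389.2.2.2.1⟩, ⟨H _ t36389.2.2.2.2.1, H _ t36389.2.2.2.2.2.1⟩⟩⟩, ⟨⟨⟨H _ t36389.2.2.2.2.2.2.1, H _ t36389.2.2.2.2.2.2.2⟩, ⟨H _ t36397.1, H _ t36397.2.1⟩⟩, ⟨⟨H _ t36397.2.2.1, H _ t36397.2.2.2.1⟩,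 ⟨H _ t36397.2.2.2.2.1, ⟨H _ t36397.2.2.2.2.2.1, H _ t36397.2.2.2.2.2.2.1⟩⟩⟩⟩⟩⟩⟩, ⟨⟨⟨⟨⟨⟨H _ t36397.2.2.2.2.2.2.2, H _ t36405.1⟩, ⟨H _ t36405.2.1, H _ t36405.2.2.1⟩⟩, ⟨⟨H _ t36405.2.2.2.1, H _ t36405.2.2.2.2.1⟩, ⟨H _ t36405.2.2.2.2.2.1, H _ t36405.2.2.2.2.2.2.1⟩⟩⟩, ⟨⟨⟨H _ t36405.2.2.2.2.2.2.2, H _ t36413.1⟩, ⟨H _ t36413.2.1, H _ t36413.2.2.1⟩⟩, ⟨⟨H _ t36413.2.2.2.1, H _ t36413.2.2.2.2.1⟩, ⟨H _ t36413.2.2.2.2.2.1, ⟨H _ t36413.2.2.2.2.2.2.1, H _ t36413.2.2.2.2.2.2.2⟩⟩⟩⟩⟩, ⟨⟨⟨⟨H _ t36421.1, H _ t36421.2.1⟩, ⟨H _ t36421.2.2.1, H _ t36421.2.2.2.1⟩⟩, ⟨⟨H _ t36421.2.2.2.2.1, H _ t36421.2.2.2.2.2.1⟩, ⟨H _ t36421.2.2.2.2.2.2.1, H _ t36421.2.2.2.2.2.2.2⟩⟩⟩, ⟨⟨⟨H _ t36429.1, H _ t36429.2.1⟩, ⟨H _ t36429.2.2.1, H _ t36429.2.2.2.1⟩⟩, ⟨⟨H _ t36429.2.2.2.2.1, H _ t36429.2.2.2.2.2.1⟩, ⟨H _ t36429.2.2.2.2.2.2.1, ⟨H _ t36429.2.2.2.2.2.2.2, H _ t36437.1⟩⟩⟩⟩⟩⟩, ⟨⟨⟨⟨⟨H _ t36437.2.1, H _ t36437.2.2.1⟩, ⟨H _ t36437.2.2.2.1,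 H _ t36437.2.2.2.2.1⟩⟩, ⟨⟨H _ t36437.2.2.2.2.2.1, H _ t36437.2.2.2.2.2.2.1⟩, ⟨H _ t36437.2.2.2.2.2.2.2, H _ t36445.1⟩⟩⟩, ⟨⟨⟨H _ t36445.2.1, H _ t36445.2.2.1⟩, ⟨H _ t36445.2.2.2.1, H _ t36445.2.2.2.2.1⟩⟩, ⟨⟨H _ t36445.2.2.2.2.2.1, H _ t36445.2.2.2.2.2.2.1⟩, ⟨H _ t36445.2.2.2.2.2.2.2, ⟨H _ t36453.1, H _ t36453.2.1⟩⟩⟩⟩⟩, ⟨⟨⟨⟨H _ t36453.2.2.1, H _ t36453.2.2.2.1⟩, ⟨H _ t36453.2.2.2.2.1, H _ t36453.2.2.2.2.2.1⟩⟩, ⟨⟨H _ t36453.2.2.2.2.2.2.1, H _ t36453.2.2.2.2.2.2.2⟩, ⟨H _ t36461.1, ⟨H _ t36461.2.1, H _ t36461.2.2.1⟩⟩⟩⟩, ⟨⟨⟨H _ t36461.2.2.2.1, H _ t36461.2.2.2.2.1⟩, ⟨H _ t36461.2.2.2.2.2.1, H _ t36461.2.2.2.2.2.2.1⟩⟩, ⟨⟨H _ t36461.2.2.2.2.2.2.2, H _ t36469.1⟩, ⟨H _ t36469.2.1, ⟨H _ t36469.2.2.1, H _ t36469.2.2.2⟩⟩⟩⟩⟩⟩⟩⟩⟩⟩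

end Pool.Agent.MP_c853c5_nt.X.C4950
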