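import Pool.Agent.MP_c853c5_nt.X.C4950.Env
import Pool.Agent.MP_c853c5_nt.X.C4950.Tab

set_option autoImplicit false
set_option maxRecDepth 8192
set_option linter.all false

namespace Pool.Agent.MP_c853c5_nt.X.C4950

open Pool.Agent.MP_c853c5_nt.X

def t36473 : allY (E.wth T1) l36473 = true ∧
    allY (E.wth T1) l36474 = true ∧
    allY (E.wth T1) l36475 = true ∧
    allY (E.wth T1) l36476 = true ∧
    allY (E.wth T1) l36477 = true ∧
    allY (E.wth T1) l36478 = true ∧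
    allY (E.wth T1) l36479 = true ∧
    allY (E.wth T1) l36480 = true :=
  ⟨by decide +kernel, by decide +kernel, by decide +kernel, by decide +kernel, by decide +kernel, by decide +kernel, by decide +kernel, by decide +kernel⟩

def t36481 : allY (E.wth T1) l36481 = true ∧
    allY (E.wth T1) l36482 = true ∧
    allY (E.wth T1) l36483 = true ∧
    allY (E.wth T1) l36484 = true ∧
    allY (E.wth T1) l36485 = true ∧
    allY (E.wth T1) l36486 = true ∧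
    allY (E.wth T1) l36487 = true ∧
    allY (E.wth T1) l36488 = true :=
  ⟨by decide +kernel, by decide +kernel, by decide +kernel, by decide +kernel, by decide +kernel, by decide +kernel, by decide +kernel, by decide +kernel⟩

def t36489 : allY (E.wth T1) l36489 = true ∧
    allY (E.wth T1) l36490 = true ∧
    allY (E.wth T1) l36491 = true ∧
    allY (E.wth T1) l36492 = true ∧
    allY (E.wth T1) l36493 = true ∧
    allY (E.wth T1) l36494 = true ∧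
    allY (E.wth T1) l36495 = true ∧
    allY (E.wth T1) l36496 = true :=
  ⟨by decide +kernel, by decide +kernel, by decide +kernel, by decide +kernel, by decide +kernel, by decide +kernel, by decide +kernel, by decide +kernel⟩

def t36497 : allY (E.wth T1) l36497 = true ∧
    allY (E.wth T1) l36498 = true ∧
    allY (E.wth T1) l36499 = true ∧
    allY (E.wth T1) l36500 = true ∧
    allY (E.wth T1) l36501 = true ∧
    allY (E.wth T1) l36502 = true ∧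
    allY (E.wth T1) l36503 = true ∧
    allY (E.wth T1) l36504 = true :=
  ⟨by decide +kernel, by decide +kernel, by decide +kernel, by decide +kernel, by decide +kernel, by decide +kernel, by decide +kernel, by decide +kernel⟩

def t36505 : allY (E.wth T1) l36505 = true ∧
    allY (E.wth T1) l36506 = true ∧
    allY (E.wth T1) l36507 = true ∧
    allY (E.wth T1) l36508 = true ∧
    allY (E.wth T1) l36509 = true ∧
    allY (E.wth T1) l36510 = true ∧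
    allY (E.wth T1) l36511 = true ∧
    allY (E.wth T1) l36512 = true :=
  ⟨by decide +kernel, by decide +kernel, by decide +kernel, by decide +kernel, by decide +kernel, by decide +kernel, by decide +kernel, by decide +kernel⟩

def t36513 : allY (E.wth T1) l36513 = true ∧
    allY (E.wth T1) l36514 = true ∧
    allY (E.wth T1) l36515 = true ∧
    allY (E.wth T1) l36516 = true ∧
    allY (E.wth T1) l36517 = true ∧
    allY (E.wth T1) l36518 = true ∧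
    allY (E.wth T1) l36519 = true ∧
    allY (E.wth T1) l36520 = true :=
  ⟨by decide +kernel, by decide +kernel, by decide +kernel, by decide +kernel, by decide +kernel, by decide +kernel, by decide +kernel, by decide +kernel⟩

def t36521 : allY (E.wth T1) l36521 = true ∧
    allY (E.wth T1) l36522 = true ∧
    allY (E.wth T1) l36523 = true ∧
    allY (E.wth T1) l36524 = true ∧
    allY (E.wth T1) l36525 = true ∧
    allY (E.wth T1) l36526 = true ∧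
    allY (E.wth T1) l36527 = true ∧
    allY (E.wth T1) l36528 = true :=
  ⟨by decide +kernel, by decide +kernel, by decide +kernel, by decide +kernel, by decide +kernel, by decide +kernel, by decide +kernel, by decide +kernel⟩

def t36529 : allY (E.wth T1) l36529 = true ∧
    allY (E.wth T1) l36530 = true ∧
    allY (E.wth T1) l36531 = true ∧
    allY (E.wth T1) l36532 = true ∧
    allY (E.wth T1) l36533 = true ∧
    allY (E.wth T1) l36534 = true ∧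
    allY (E.wth T1) l36535 = true ∧
    allY (E.wth T1) l36536 = true :=
  ⟨by decide +kernel, by decide +kernel, by decide +kernel, by decide +kernel, by decide +kernel, by decide +kernel, by decide +kernel, by decide +kernel⟩

def t36537 : allY (E.wth T1) l36537 = true ∧
    allY (E.wth T1) l36538 = true ∧
    allY (E.wth T1) l36539 = true ∧
    allY (E.wth T1) l36540 = true ∧
    allY (E.wth T1) l36541 = true ∧
    allY (E.wth T1) l36542 = true ∧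
    allY (E.wth T1) l36543 = true ∧
    allY (E.wth T1) l36544 = true :=
  ⟨by decide +kernel, by decide +kernel, by decide +kernel, by decide +kernel, by decide +kernel, by decide +kernel, by decide +kernel, by decide +kernel⟩

def t36545 : allY (E.wth T1) l36545 = true ∧
    allY (E.wth T1) l36546 = true ∧
    allY (E.wth T1) l36547 = true ∧
    allY (E.wth T1) l36548 = true ∧
    allY (E.wth T1) l36549 = true ∧
    allY (E.wth T1) l36550 = true ∧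
    allY (E.wth T1) l36551 = true ∧
    allY (E.wth T1) l36552 = true :=
  ⟨by decide +kernel, by decide +kernel, by decide +kernel, by decide +kernel, by decide +kernel, by decide +kernel, by decide +kernel, by decide +kernel⟩

def t36553 : allY (E.wth T1) l36553 = true ∧
    allY (E.wth T1) l36554 = true ∧
    allY (E.wth T1) l36555 = true ∧
    allY (E.wth T1) l36556 = true ∧
    allY (E.wth T1) l36557 = true ∧
    allY (E.wth T1) l36558 = true ∧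
    allY (E.wth T1) l36559 = true ∧
    allY (E.wth T1) l36560 = true :=
  ⟨by decide +kernel, by decide +kernel, by decide +kernel, by decide +kernel, by decide +kernel, by decide +kernel, by decide +kernel, by decide +kernel⟩

def t36561 : allY (E.wth T1) l36561 = true ∧
    allY (E.wth T1) l36562 = true ∧
    allY (E.wth T1) l36563 = true ∧
    allY (E.wth T1) l36564 = true ∧
    allY (E.wth T1) l36565 = true ∧
    allY (E.wth T1) l36566 = true ∧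
    allY (E.wth T1) l36567 = true ∧
    allY (E.wth T1) l36568 = true :=
  ⟨by decide +kernel, by decide +kernel, by decide +kernel, by decide +kernel, by decide +kernel, by decide +kernel, by decide +kernel, by decide +kernel⟩

def t36569 : allY (E.wth T1) l36569 = true ∧
    allY (E.wth T1) l36570 = true ∧
    allY (E.wth T1) l36571 = true ∧
    allY (E.wth T1) l36572 = true ∧
    allY (E.wth T1) l36573 = true ∧
    allY (E.wth T1) l36574 = true ∧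
    allY (E.wth T1) l36575 = true ∧
    allY (E.wth T1) l36576 = true :=
  ⟨by decide +kernel, by decide +kernel, by decide +kernel, by decide +kernel, by decide +kernel, by decide +kernel, by decide +kernel, by decide +kernel⟩

def t36577 : allY (E.wth T1) l36577 = true ∧
    allY (E.wth T1) l36578 = true ∧
    allY (E.wth T1) l36579 = true ∧
    allY (E.wth T1) l36580 = true ∧
    allY (E.wth T1) l36581 = true ∧
    allY (E.wth T1) l36582 = true ∧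
    allY (E.wth T1) l36583 = true ∧
    allY (E.wth T1) l36584 = true :=
  ⟨by decide +kernel, by decide +kernel, by decide +kernel, by decide +kernel, by decide +kernel, by decide +kernel, by decide +kernel, by decide +kernel⟩

def t36585 : allY (E.wth T1) l36585 = true ∧
    allY (E.wth T1) l36586 = true ∧
    allY (E.wth T1) l36587 = true ∧
    allY (E.wth T1) l36588 = true ∧
    allY (E.wth T1) l36589 = true ∧
    allY (E.wth T1) l36590 = true ∧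
    allY (E.wth T1) l36591 = true ∧
    allY (E.wth T1) l36592 = true :=
  ⟨by decide +kernel, by decide +kernel, by decide +kernel, by decide +kernel, by decide +kernel, by decide +kernel, by decide +kernel, by decide +kernel⟩

def t36593 : allY (E.wth T1) l36593 = true ∧
    allY (E.wth T1) l36594 = true ∧
    allY (E.wth T1) l36595 = true ∧
    allY (E.wth T1) l36596 = true ∧
    allY (E.wth T1) l36597 = true ∧
    allY (E.wth T1) l36598 = true ∧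
    allY (E.wth T1) l36599 = true ∧
    allY (E.wth T1) l36600 = true :=
  ⟨by decide +kernel, by decide +kernel, by decide +kernel, by decide +kernel, by decide +kernel, by decide +kernel, by decide +kernel, by decide +kernel⟩

def t36601 : allY (E.wth T1) l36601 = true ∧
    allY (E.wth T1) l36602 = true ∧
    allY (E.wth T1) l36603 = true ∧
    allY (E.wth T1) l36604 = true ∧
    allY (E.wth T1) l36605 = true ∧
    allY (E.wth T1) l36606 = true ∧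
    allY (E.wth T1) l36607 = true ∧
    allY (E.wth T1) l36608 = true :=
  ⟨by decide +kernel, by decide +kernel, by decide +kernel, by decide +kernel, by decide +kernel, by decide +kernel, by decide +kernel, by decide +kernel⟩

def t36609 : allY (E.wth T1) l36609 = true ∧
    allY (E.wth T1) l36610 = true ∧
    allY (E.wth T1) l36611 = true ∧
    allY (E.wth T1) l36612 = true ∧
    allY (E.wth T1) l36613 = true ∧
    allY (E.wth T1) l36614 = true ∧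
    allY (E.wth T1) l36615 = true ∧
    allY (E.wth T1) l36616 = true :=
  ⟨by decide +kernel, by decide +kernel, by decide +kernel, by decide +kernel, by decide +kernel, by decide +kernel, by decide +kernel, by decide +kernel⟩

def t36617 : allY (E.wth T1) l36617 = true ∧
    allY (E.wth T1) l36618 = true ∧
    allY (E.wth T1) l36619 = true ∧
    allY (E.wth T1) l36620 = true ∧
    allY (E.wth T1) l36621 = true ∧
    allY (E.wth T1) l36622 = true ∧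
    allY (E.wth T1) l36623 = true ∧
    allY (E.wth T1) l36624 = true :=
  ⟨by decide +kernel, by decide +kernel, by decide +kernel, by decide +kernel, by decide +kernel, by decide +kernel, by decide +kernel, by decide +kernel⟩

def t36625 : allY (E.wth T1) l36625 = true ∧
    allY (E.wth T1) l36626 = true ∧
    allY (E.wth T1) l36627 = true ∧
    allY (E.wth T1) l36628 = true ∧
    allY (E.wth T1) l36629 = true ∧
    allY (E.wth T1) l36630 = true ∧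
    allY (E.wth T1) l36631 = true ∧
    allY (E.wth T1) l36632 = true :=
  ⟨by decide +kernel, by decide +kernel, by decide +kernel, by decide +kernel, by decide +kernel, by decide +kernel, by decide +kernel, by decide +kernel⟩

def t36633 : allY (E.wth T1) l36633 = true ∧
    allY (E.wth T1) l36634 = true ∧
    allY (E.wth T1) l36635 = true ∧
    allY (E.wth T1) l36636 = true ∧
    allY (E.wth T1) l36637 = true ∧
    allY (E.wth T1) l36638 = true ∧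
    allY (E.wth T1) l36639 = true ∧
    allY (E.wth T1) l36640 = true :=
  ⟨by decide +kernel, by decide +kernel, by decide +kernel, by decide +kernel, by decide +kernel, by decide +kernel, by decide +kernel, by decide +kernel⟩

def t36641 : allY (E.wth T1) l36641 = true ∧
    allY (E.wth T1) l36642 = true ∧
    allY (E.wth T1) l36643 = true ∧
    allY (E.wth T1) l36644 = true ∧
    allY (E.wth T1) l36645 = true ∧
    allY (E.wth T1) l36646 = true ∧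
    allY (E.wth T1) l36647 = true ∧
    allY (E.wth T1) l36648 = true :=
  ⟨by decide +kernel, by decide +kernel, by decide +kernel, by decide +kernel, by decide +kernel, by decide +kernel, by decide +kernel, by decide +kernel⟩

def t36649 : allY (E.wth T1) l36649 = true ∧
    allY (E.wth T1) l36650 = true ∧
    allY (E.wth T1) l36651 = true ∧
    allY (E.wth T1) l36652 = true ∧
    allY (E.wth T1) l36653 = true ∧
    allY (E.wth T1) l36654 = true ∧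
    allY (E.wth T1) l36655 = true ∧
    allY (E.wth T1) l36656 = true :=
  ⟨by decide +kernel, by decide +kernel, by decide +kernel, by decide +kernel, by decide +kernel, by decide +kernel, by decide +kernel, by decide +kernel⟩

def t36657 : allY (E.wth T1) l36657 = true ∧
    allY (E.wth T1) l36658 = true ∧
    allY (E.wth T1) l36659 = true ∧
    allY (E.wth T1) l36660 = true ∧
    allY (E.wth T1) l36661 = true ∧
    allY (E.wth T1) l36662 = true ∧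
    allY (E.wth T1) l36663 = true ∧
    allY (E.wth T1) l36664 = true :=
  ⟨by decide +kernel, by decide +kernel, by decide +kernel, by decide +kernel, by decide +kernel, by decide +kernel, by decide +kernel, by decide +kernel⟩

def t36665 : allY (E.wth T1) l36665 = true ∧
    allY (E.wth T1) l36666 = true ∧
    allY (E.wth T1) l36667 = true ∧
    allY (E.wth T1) l36668 = true ∧
    allY (E.wth T1) l36669 = true ∧
    allY (E.wth T1) l36670 = true ∧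
    allY (E.wth T1) l36671 = true ∧
    allY (E.wth T1) l36672 = true :=
  ⟨by decide +kernel, by decide +kernel, by decide +kernel, by decide +kernel, by decide +kernel, by decide +kernel, by decide +kernel, by decide +kernel⟩

def t36673 : allY (E.wth T1) l36673 = true ∧
    allY (E.wth T1) l36674 = true ∧
    allY (E.wth T1) l36675 = true ∧
    allY (E.wth T1) l36676 = true ∧
    allY (E.wth T1) l36677 = true ∧
    allY (E.wth T1) l36678 = true ∧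
    allY (E.wth T1) l36679 = true ∧
    allY (E.wth T1) l36680 = true :=
  ⟨by decide +kernel, by decide +kernel, by decide +kernel, by decide +kernel, by decide +kernel, by decide +kernel, by decide +kernel, by decide +kernel⟩

def t36681 : allY (E.wth T1) l36681 = true ∧
    allY (E.wth T1) l36682 = true ∧
    allY (E.wth T1) l36683 = true ∧
    allY (E.wth T1) l36684 = true ∧
    allY (E.wth T1) l36685 = true ∧
    allY (E.wth T1) l36686 = true ∧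
    allY (E.wth T1) l36687 = true ∧
    allY (E.wth T1) l36688 = true :=
  ⟨by decide +kernel, by decide +kernel, by decide +kernel, by decide +kernel, by decide +kernel, by decide +kernel, by decide +kernel, by decide +kernel⟩

def t36689 : allY (E.wth T1) l36689 = true ∧
    allY (E.wth T1) l36690 = true ∧
    allY (E.wth T1) l36691 = true ∧
    allY (E.wth T1) l36692 = true ∧
    allY (E.wth T1) l36693 = true ∧
    allY (E.wth T1) l36694 = true ∧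
    allY (E.wth T1) l36695 = true ∧
    allY (E.wth T1) l36696 = true :=
  ⟨by decide +kernel, by decide +kernel, by decide +kernel, by decide +kernel, by decide +kernel, by decide +kernel, by decide +kernel, by decide +kernel⟩

def t36697 : allY (E.wth T1) l36697 = true ∧
    allY (E.wth T1) l36698 = true ∧
    allY (E.wth T1) l36699 = true ∧
    allY (E.wth T1) l36700 = true ∧
    allY (E.wth T1) l36701 = true ∧
    allY (E.wth T1) l36702 = true ∧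
    allY (E.wth T1) l36703 = true ∧
    allY (E.wth T1) l36704 = true :=
  ⟨by decide +kernel, by decide +kernel, by decide +kernel, by decide +kernel, by decide +kernel, by decide +kernel, by decide +kernel, by decide +kernel⟩

def t36705 : allY (E.wth T1) l36705 = true ∧
    allY (E.wth T1) l36706 = true ∧
    allY (E.wth T1) l36707 = true ∧
    allY (E.wth T1) l36708 = true ∧
    allY (E.wth T1) l36709 = true ∧
    allY (E.wth T1) l36710 = true ∧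
    allY (E.wth T1) l36711 = true ∧
    allY (E.wth T1) l36712 = true :=
  ⟨by decide +kernel, by decide +kernel, by decide +kernel, by decide +kernel, by decide +kernel, by decide +kernel, by decide +kernel, by decide +kernel⟩

def t36713 : allY (E.wth T1) l36713 = true ∧
    allY (E.wth T1) l36714 = true ∧
    allY (E.wth T1) l36715 = true ∧
    allY (E.wth T1) l36716 = true ∧
    allY (E.wth T1) l36717 = true ∧
    allY (E.wth T1) l36718 = true ∧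
    allY (E.wth T1) l36719 = true ∧
    allY (E.wth T1) l36720 = true :=
  ⟨by decide +kernel, by decide +kernel, by decide +kernel, by decide +kernel, by decide +kernel, by decide +kernel, by decide +kernel, by decide +kernel⟩

def t36721 : allY (E.wth T1) l36721 = true ∧
    allY (E.wth T1) l36722 = true ∧
    allY (E.wth T1) l36723 = true ∧
    allY (E.wth T1) l36724 = true ∧
    allY (E.wth T1) l36725 = true ∧
    allY (E.wth T1) l36726 = true ∧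
    allY (E.wth T1) l36727 = true ∧
    allY (E.wth T1) l36728 = true :=
  ⟨by decide +kernel, by decide +kernel, by decide +kernel, by decide +kernel, by decide +kernel, by decide +kernel, by decide +kernel, by decide +kernel⟩

def t36729 : allY (E.wth T1) l36729 = true ∧
    allY (E.wth T1) l36730 = true ∧
    allY (E.wth T1) l36731 = true ∧
    allY (E.wth T1) l36732 = true ∧
    allY (E.wth T1) l36733 = true ∧
    allY (E.wth T1) l36734 = true ∧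
    allY (E.wth T1) l36735 = true ∧
    allY (E.wth T1) l36736 = true :=
  ⟨by decide +kernel, by decide +kernel, by decide +kernel, by decide +kernel, by decide +kernel, by decide +kernel, by decide +kernel, by decide +kernel⟩

def t36737 : allY (E.wth T1) l36737 = true ∧
    allY (E.wth T1) l36738 = true ∧
    allY (E.wth T1) l36739 = true ∧
    allY (E.wth T1) l36740 = true ∧
    allY (E.wth T1) l36741 = true ∧
    allY (E.wth T1) l36742 = true ∧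
    allY (E.wth T1) l36743 = true ∧
    allY (E.wth T1) l36744 = true :=
  ⟨by decide +kernel, by decide +kernel, by decide +kernel, by decide +kernel, by decide +kernel, by decide +kernel, by decide +kernel, by decide +kernel⟩

def t36745 : allY (E.wth T1) l36745 = true ∧
    allY (E.wth T1) l36746 = true ∧
    allY (E.wth T1) l36747 = true ∧
    allY (E.wth T1) l36748 = true ∧
    allY (E.wth T1) l36749 = true ∧
    allY (E.wth T1) l36750 = true ∧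
    allY (E.wth T1) l36751 = true ∧
    allY (E.wth T1) l36752 = true :=
  ⟨by decide +kernel, by decide +kernel, by decide +kernel, by decide +kernel, by decide +kernel, by decide +kernel, by decide +kernel, by decide +kernel⟩

def t36753 : allY (E.wth T1) l36753 = true ∧
    allY (E.wth T1) l36754 = true ∧
    allY (E.wth T1) l36755 = true ∧
    allY (E.wth T1) l36756 = true ∧
    allY (E.wth T1) l36757 = true ∧
    allY (E.wth T1) l36758 = true ∧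
    allY (E.wth T1) l36759 = true ∧
    allY (E.wth T1) l36760 = true :=
  ⟨by decide +kernel, by decide +kernel, by decide +kernel, by decide +kernel, by decide +kernel, by decide +kernel, by decide +kernel, by decide +kernel⟩

def t36761 : allY (E.wth T1) l36761 = true ∧
    allY (E.wth T1) l36762 = true ∧
    allY (E.wth T1) l36763 = true ∧
    allY (E.wth T1) l36764 = true ∧
    allY (E.wth T1) l36765 = true ∧
    allY (E.wth T1) l36766 = true ∧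
    allY (E.wth T1) l36767 = true ∧
    allY (E.wth T1) l36768 = true :=
  ⟨by decide +kernel, by decide +kernel, by decide +kernel, by decide +kernel, by decide +kernel, by decide +kernel, by decide +kernel, by decide +kernel⟩

def t36769 : allY (E.wth T1) l36769 = true ∧
    allY (E.wth T1) l36770 = true ∧
    allY (E.wth T1) l36771 = true ∧
    allY (E.wth T1) l36772 = true ∧
    allY (E.wth T1) l36773 = true ∧
    allY (E.wth T1) l36774 = true ∧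
    allY (E.wth T1) l36775 = true ∧
    allY (E.wth T1) l36776 = true :=
  ⟨by decide +kernel, by decide +kernel, by decide +kernel, by decide +kernel, by decide +kernel, by decide +kernel, by decide +kernel, by decide +kernel⟩

def t36777 : allY (E.wth T1) l36777 = true ∧
    allY (E.wth T1) l36778 = true ∧
    allY (E.wth T1) l36779 = true ∧
    allY (E.wth T1) l36780 = true ∧
    allY (E.wth T1) l36781 = true ∧
    allY (E.wth T1) l36782 = true ∧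
    allY (E.wth T1) l36783 = true ∧
    allY (E.wth T1) l36784 = true :=
  ⟨by decide +kernel, by decide +kernel, by decide +kernel, by decide +kernel, by decide +kernel, by decide +kernel, by decide +kernel, by decide +kernel⟩

def t36785 : allY (E.wth T1) l36785 = true ∧
    allY (E.wth T1) l36786 = true ∧
    allY (E.wth T1) l36787 = true ∧
    allY (E.wth T1) l36788 = true ∧
    allY (E.wth T1) l36789 = true ∧
    allY (E.wth T1) l36790 = true ∧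
    allY (E.wth T1) l36791 = true ∧
    allY (E.wth T1) l36792 = true :=
  ⟨by decide +kernel, by decide +kernel, by decide +kernel, by decide +kernel, by decide +kernel, by decide +kernel, by decide +kernel, by decide +kernel⟩

def t36793 : allY (E.wth T1) l36793 = true ∧
    allY (E.wth T1) l36794 = true ∧
    allY (E.wth T1) l36795 = true ∧
    allY (E.wth T1) l36796 = true ∧
    allY (E.wth T1) l36797 = true ∧
    allY (E.wth T1) l36798 = true ∧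
    allY (E.wth T1) l36799 = true ∧
    allY (E.wth T1) l36800 = true :=
  ⟨by decide +kernel, by decide +kernel, by decide +kernel, by decide +kernel, by decide +kernel, by decide +kernel, by decide +kernel, by decide +kernel⟩

def t36801 : allY (E.wth T1) l36801 = true ∧
    allY (E.wth T1) l36802 = true ∧
    allY (E.wth T1) l36803 = true ∧
    allY (E.wth T1) l36804 = true ∧
    allY (E.wth T1) l36805 = true ∧
    allY (E.wth T1) l36806 = true ∧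
    allY (E.wth T1) l36807 = true ∧
    allY (E.wth T1) l36808 = true :=
  ⟨by decide +kernel, by decide +kernel, by decide +kernel, by decide +kernel, by decide +kernel, by decide +kernel, by decide +kernel, by decide +kernel⟩

def t36809 : allY (E.wth T1) l36809 = true ∧
    allY (E.wth T1) l36810 = true ∧
    allY (E.wth T1) l36811 = true ∧
    allY (E.wth T1) l36812 = true ∧
    allY (E.wth T1) l36813 = true ∧
    allY (E.wth T1) l36814 = true ∧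
    allY (E.wth T1) l36815 = true ∧
    allY (E.wth T1) l36816 = true :=
  ⟨by decide +kernel, by decide +kernel, by decide +kernel, by decide +kernel, by decide +kernel, by decide +kernel, by decide +kernel, by decide +kernel⟩

def t36817 : allY (E.wth T1) l36817 = true ∧
    allY (E.wth T1) l36818 = true ∧
    allY (E.wth T1) l36819 = true ∧
    allY (E.wth T1) l36820 = true ∧
    allY (E.wth T1) l36821 = true ∧
    allY (E.wth T1) l36822 = true ∧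
    allY (E.wth T1) l36823 = true ∧
    allY (E.wth T1) l36824 = true :=
  ⟨by decide +kernel, by decide +kernel, by decide +kernel, by decide +kernel, by decide +kernel, by decide +kernel, by decide +kernel, by decide +kernel⟩

def t36825 : allY (E.wth T1) l36825 = true ∧
    allY (E.wth T1) l36826 = true ∧
    allY (E.wth T1) l36827 = true ∧
    allY (E.wth T1) l36828 = true ∧
    allY (E.wth T1) l36829 = true ∧
    allY (E.wth T1) l36830 = true ∧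
    allY (E.wth T1) l36831 = true ∧
    allY (E.wth T1) l36832 = true :=
  ⟨by decide +kernel, by decide +kernel, by decide +kernel, by decide +kernel, by decide +kernel, by decide +kernel, by decide +kernel, by decide +kernel⟩

def t36833 : allY (E.wth T1) l36833 = true ∧
    allY (E.wth T1) l36834 = true ∧
    allY (E.wth T1) l36835 = true ∧
    allY (E.wth T1) l36836 = true ∧
    allY (E.wth T1) l36837 = true ∧
    allY (E.wth T1) l36838 = true ∧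
    allY (E.wth T1) l36839 = true ∧
    allY (E.wth T1) l36840 = true :=
  ⟨by decide +kernel, by decide +kernel, by decide +kernel, by decide +kernel, by decide +kernel, by decide +kernel, by decide +kernel, by decide +kernel⟩

def t36841 : allY (E.wth T1) l36841 = true ∧
    allY (E.wth T1) l36842 = true ∧
    allY (E.wth T1) l36843 = true ∧
    allY (E.wth T1) l36844 = true ∧
    allY (E.wth T1) l36845 = true ∧
    allY (E.wth T1) l36846 = true ∧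
    allY (E.wth T1) l36847 = true ∧
    allY (E.wth T1) l36848 = true :=
  ⟨by decide +kernel, by decide +kernel, by decide +kernel, by decide +kernel, by decide +kernel, by decide +kernel, by decide +kernel, by decide +kernel⟩

def t36849 : allY (E.wth T1) l36849 = true ∧
    allY (E.wth T1) l36850 = true ∧
    allY (E.wth T1) l36851 = true ∧
    allY (E.wth T1) l36852 = true ∧
    allY (E.wth T1) l36853 = true ∧
    allY (E.wth T1) l36854 = true ∧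
    allY (E.wth T1) l36855 = true ∧
    allY (E.wth T1) l36856 = true :=
  ⟨by decide +kernel, by decide +kernel, by decide +kernel, by decide +kernel, by decide +kernel, by decide +kernel, by decide +kernel, by decide +kernel⟩

def t36857 : allY (E.wth T1) l36857 = true ∧
    allY (E.wth T1) l36858 = true ∧
    allY (E.wth T1) l36859 = true ∧
    allY (E.wth T1) l36860 = true ∧
    allY (E.wth T1) l36861 = true ∧
    allY (E.wth T1) l36862 = true ∧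
    allY (E.wth T1) l36863 = true ∧
    allY (E.wth T1) l36864 = true :=
  ⟨by decide +kernel, by decide +kernel, by decide +kernel, by decide +kernel, by decide +kernel, by decide +kernel, by decide +kernel, by decide +kernel⟩

def t36865 : allY (E.wth T1) l36865 = true ∧
    allY (E.wth T1) l36866 = true ∧
    allY (E.wth T1) l36867 = true ∧
    allY (E.wth T1) l36868 = true ∧
    allY (E.wth T1) l36869 = true ∧
    allY (E.wth T1) l36870 = true ∧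
    allY (E.wth T1) l36871 = true ∧
    allY (E.wth T1) l36872 = true :=
  ⟨by decide +kernel, by decide +kernel, by decide +kernel, by decide +kernel, by decide +kernel, by decide +kernel, by decide +kernel, by decide +kernel⟩

def t36873 : allY (E.wth T1) l36873 = true ∧
    allY (E.wth T1) l36874 = true ∧
    allY (E.wth T1) l36875 = true ∧
    allY (E.wth T1) l36876 = true ∧
    allY (E.wth T1) l36877 = true ∧
    allY (E.wth T1) l36878 = true ∧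
    allY (E.wth T1) l36879 = true ∧
    allY (E.wth T1) l36880 = true :=
  ⟨by decide +kernel, by decide +kernel, by decide +kernel, by decide +kernel, by decide +kernel, by decide +kernel, by decide +kernel, by decide +kernel⟩

def t36881 : allY (E.wth T1) l36881 = true ∧
    allY (E.wth T1) l36882 = true ∧
    allY (E.wth T1) l36883 = true ∧
    allY (E.wth T1) l36884 = true ∧
    allY (E.wth T1) l36885 = true ∧
    allY (E.wth T1) l36886 = true ∧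
    allY (E.wth T1) l36887 = true ∧
    allY (E.wth T1) l36888 = true :=
  ⟨by decide +kernel, by decide +kernel, by decide +kernel, by decide +kernel, by decide +kernel, by decide +kernel, by decide +kernel, by decide +kernel⟩

def t36889 : allY (E.wth T1) l36889 = true ∧
    allY (E.wth T1) l36890 = true ∧
    allY (E.wth T1) l36891 = true ∧
    allY (E.wth T1) l36892 = true ∧
    allY (E.wth T1) l36893 = true ∧
    allY (E.wth T1) l36894 = true ∧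
    allY (E.wth T1) l36895 = true ∧
    allY (E.wth T1) l36896 = true :=
  ⟨by decide +kernel, by decide +kernel, by decide +kernel, by decide +kernel, by decide +kernel, by decide +kernel, by decide +kernel, by decide +kernel⟩

def t36897 : allY (E.wth T1) l36897 = true ∧
    allY (E.wth T1) l36898 = true ∧
    allY (E.wth T1) l36899 = true ∧
    allY (E.wth T1) l36900 = true ∧
    allY (E.wth T1) l36901 = true ∧
    allY (E.wth T1) l36902 = true ∧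
    allY (E.wth T1) l36903 = true ∧
    allY (E.wth T1) l36904 = true :=
  ⟨by decide +kernel, by decide +kernel, by decide +kernel, by decide +kernel, by decide +kernel, by decide +kernel, by decide +kernel, by decide +kernel⟩

def t36905 : allY (E.wth T1) l36905 = true ∧
    allY (E.wth T1) l36906 = true ∧
    allY (E.wth T1) l36907 = true ∧
    allY (E.wth T1) l36908 = true ∧
    allY (E.wth T1) l36909 = true ∧
    allY (E.wth T1) l36910 = true ∧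
    allY (E.wth T1) l36911 = true ∧
    allY (E.wth T1) l36912 = true :=
  ⟨by decide +kernel, by decide +kernel, by decide +kernel, by decide +kernel, by decide +kernel, by decide +kernel, by decide +kernel, by decide +kernel⟩

def t36913 : allY (E.wth T1) l36913 = true ∧
    allY (E.wth T1) l36914 = true ∧
    allY (E.wth T1) l36915 = true ∧
    allY (E.wth T1) l36916 = true ∧
    allY (E.wth T1) l36917 = true ∧
    allY (E.wth T1) l36918 = true ∧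
    allY (E.wth T1) l36919 = true ∧
    allY (E.wth T1) l36920 = true :=
  ⟨by decide +kernel, by decide +kernel, by decide +kernel, by decide +kernel, by decide +kernel, by decide +kernel, by decide +kernel, by decide +kernel⟩

def t36921 : allY (E.wth T1) l36921 = true ∧
    allY (E.wth T1) l36922 = true ∧
    allY (E.wth T1) l36923 = true ∧
    allY (E.wth T1) l36924 = true ∧
    allY (E.wth T1) l36925 = true ∧
    allY (E.wth T1) l36926 = true ∧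
    allY (E.wth T1) l36927 = true ∧
    allY (E.wth T1) l36928 = true :=
  ⟨by decide +kernel, by decide +kernel, by decide +kernel, by decide +kernel, by decide +kernel, by decide +kernel, by decide +kernel, by decide +kernel⟩

def t36929 : allY (E.wth T1) l36929 = true ∧
    allY (E.wth T1) l36930 = true ∧
    allY (E.wth T1) l36931 = true ∧
    allY (E.wth T1) l36932 = true ∧
    allY (E.wth T1) l36933 = true ∧
    allY (E.wth T1) l36934 = true ∧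
    allY (E.wth T1) l36935 = true ∧
    allY (E.wth T1) l36936 = true :=
  ⟨by decide +kernel, by decide +kernel, by decide +kernel, by decide +kernel, by decide +kernel, by decide +kernel, by decide +kernel, by decide +kernel⟩

def t36937 : allY (E.wth T1) l36937 = true ∧
    allY (E.wth T1) l36938 = true ∧
    allY (E.wth T1) l36939 = true ∧
    allY (E.wth T1) l36940 = true ∧
    allY (E.wth T1) l36941 = true ∧
    allY (E.wth T1) l36942 = true ∧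
    allY (E.wth T1) l36943 = true ∧
    allY (E.wth T1) l36944 = true :=
  ⟨by decide +kernel, by decide +kernel, by decide +kernel, by decide +kernel, by decide +kernel, by decide +kernel, by decide +kernel, by decide +kernel⟩

def t36945 : allY (E.wth T1) l36945 = true ∧
    allY (E.wth T1) l36946 = true ∧
    allY (E.wth T1) l36947 = true ∧
    allY (E.wth T1) l36948 = true ∧
    allY (E.wth T1) l36949 = true ∧
    allY (E.wth T1) l36950 = true ∧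
    allY (E.wth T1) l36951 = true ∧
    allY (E.wth T1) l36952 = true :=
  ⟨by decide +kernel, by decide +kernel, by decide +kernel, by decide +kernel, by decide +kernel, by decide +kernel, by decide +kernel, by decide +kernel⟩

def t36953 : allY (E.wth T1) l36953 = true ∧
    allY (E.wth T1) l36954 = true ∧
    allY (E.wth T1) l36955 = true ∧
    allY (E.wth T1) l36956 = true ∧
    allY (E.wth T1) l36957 = true ∧
    allY (E.wth T1) l36958 = true ∧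
    allY (E.wth T1) l36959 = true ∧
    allY (E.wth T1) l36960 = true :=
  ⟨by decide +kernel, by decide +kernel, by decide +kernel, by decide +kernel, by decide +kernel, by decide +kernel, by decide +kernel, by decide +kernel⟩

def t36961 : allY (E.wth T1) l36961 = true ∧
    allY (E.wth T1) l36962 = true ∧
    allY (E.wth T1) l36963 = true ∧
    allY (E.wth T1) l36964 = true ∧
    allY (E.wth T1) l36965 = true ∧
    allY (E.wth T1) l36966 = true ∧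
    allY (E.wth T1) l36967 = true ∧
    allY (E.wth T1) l36968 = true :=
  ⟨by decide +kernel, by decide +kernel, by decide +kernel, by decide +kernel, by decide +kernel, by decide +kernel, by decide +kernel, by decide +kernel⟩

def t36969 : allY (E.wth T1) l36969 = true ∧
    allY (E.wth T1) l36970 = true ∧
    allY (E.wth T1) l36971 = true ∧
    allY (E.wth T1) l36972 = true ∧
    allY (E.wth T1) l36973 = true ∧
    allY (E.wth T1) l36974 = true ∧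
    allY (E.wth T1) l36975 = true ∧
    allY (E.wth T1) l36976 = true :=
  ⟨by decide +kernel, by decide +kernel, by decide +kernel, by decide +kernel, by decide +kernel, by decide +kernel, by decide +kernel, by decide +kernel⟩

def t36977 : allY (E.wth T1) l36977 = true ∧
    allY (E.wth T1) l36978 = true ∧
    allY (E.wth T1) l36979 = true ∧
    allY (E.wth T1) l36980 = true ∧
    allY (E.wth T1) l36981 = true ∧
    allY (E.wth T1) l36982 = true ∧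
    allY (E.wth T1) l36983 = true ∧
    allY (E.wth T1) l36984 = true :=
  ⟨by decide +kernel, by decide +kernel, by decide +kernel, by decide +kernel, by decide +kernel, by decide +kernel, by decide +kernel, by decide +kernel⟩

def t36985 : allY (E.wth T1) l36985 = true ∧
    allY (E.wth T1) l36986 = true ∧
    allY (E.wth T1) l36987 = true ∧
    allY (E.wth T1) l36988 = true ∧
    allY (E.wth T1) l36989 = true ∧
    allY (E.wth T1) l36990 = true ∧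
    allY (E.wth T1) l36991 = true ∧
    allY (E.wth T1) l36992 = true :=
  ⟨by decide +kernel, by decide +kernel, by decide +kernel, by decide +kernel, by decide +kernel, by decide +kernel, by decide +kernel, by decide +kernel⟩

def t36993 : allY (E.wth T1) l36993 = true ∧
    allY (E.wth T1) l36994 = true ∧
    allY (E.wth T1) l36995 = true ∧
    allY (E.wth T1) l36996 = true ∧
    allY (E.wth T1) l36997 = true ∧
    allY (E.wth T1) l36998 = true ∧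
    allY (E.wth T1) l36999 = true ∧
    allY (E.wth T1) l37000 = true :=
  ⟨by decide +kernel, by decide +kernel, by decide +kernel, by decide +kernel, by decide +kernel, by decide +kernel, by decide +kernel, by decide +kernel⟩

def t37001 : allY (E.wth T1) l37001 = true ∧
    allY (E.wth T1) l37002 = true ∧
    allY (E.wth T1) l37003 = true ∧
    allY (E.wth T1) l37004 = true ∧
    allY (E.wth T1) l37005 = true ∧
    allY (E.wth T1) l37006 = true ∧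
    allY (E.wth T1) l37007 = true ∧
    allY (E.wth T1) l37008 = true :=
  ⟨by decide +kernel, by decide +kernel, by decide +kernel, by decide +kernel, by decide +kernel, by decide +kernel, by decide +kernel, by decide +kernel⟩

def t37009 : allY (E.wth T1) l37009 = true ∧
    allY (E.wth T1) l37010 = true ∧
    allY (E.wth T1) l37011 = true ∧
    allY (E.wth T1) l37012 = true ∧
    allY (E.wth T1) l37013 = true ∧
    allY (E.wth T1) l37014 = true ∧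
    allY (E.wth T1) l37015 = true ∧
    allY (E.wth T1) l37016 = true :=
  ⟨by decide +kernel, by decide +kernel, by decide +kernel, by decide +kernel, by decide +kernel, by decide +kernel, by decide +kernel, by decide +kernel⟩

def t37017 : allY (E.wth T1) l37017 = true ∧
    allY (E.wth T1) l37018 = true ∧
    allY (E.wth T1) l37019 = true ∧
    allY (E.wth T1) l37020 = true ∧
    allY (E.wth T1) l37021 = true ∧
    allY (E.wth T1) l37022 = true ∧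
    allY (E.wth T1) l37023 = true ∧
    allY (E.wth T1) l37024 = true :=
  ⟨by decide +kernel, by decide +kernel, by decide +kernel, by decide +kernel, by decide +kernel, by decide +kernel, by decide +kernel, by decide +kernel⟩

def t37025 : allY (E.wth T1) l37025 = true ∧
    allY (E.wth T1) l37026 = true ∧
    allY (E.wth T1) l37027 = true ∧
    allY (E.wth T1) l37028 = true ∧
    allY (E.wth T1) l37029 = true ∧
    allY (E.wth T1) l37030 = true ∧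
    allY (E.wth T1) l37031 = true ∧
    allY (E.wth T1) l37032 = true :=
  ⟨by decide +kernel, by decide +kernel, by decide +kernel, by decide +kernel, by decide +kernel, by decide +kernel, by decide +kernel, by decide +kernel⟩

def t37033 : allY (E.wth T1) l37033 = true ∧
    allY (E.wth T1) l37034 = true ∧
    allY (E.wth T1) l37035 = true ∧
    allY (E.wth T1) l37036 = true ∧
    allY (E.wth T1) l37037 = true ∧
    allY (E.wth T1) l37038 = true :=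
  ⟨by decide +kernel, by decide +kernel, by decide +kernel, by decide +kernel, by decide +kernel, by decide +kernel⟩

theorem a66 {p : Rf → Prop} (H : ∀ l, allY (E.wth T1) l = true → (lkp l).All p) :
    b66.All p := ⟨⟨⟨⟨⟨⟨⟨⟨⟨H _ t36473.1, H _ t36473.2.1⟩, ⟨H _ t36473.2.2.1, H _ t36473.2.2.2.1⟩⟩, ⟨⟨H _ t36473.2.2.2.2.1, H _ t36473.2.2.2.2.2.1⟩, ⟨H _ t36473.2.2.2.2.2.2.1, H _ t36473.2.2.2.2.2.2.2⟩⟩⟩, ⟨⟨⟨H _ t36481.1, H _ t36481.2.1⟩, ⟨H _ t36481.2.2.1, H _ t36481.2.2.2.1⟩⟩, ⟨⟨H _ t36481.2.2.2.2.1, H _ t36481.2.2.2.2.2.1⟩, ⟨H _ t36481.2.2.2.2.2.2.1, ⟨H _ t36481.2.2.2.2.2.2.2, H _ t36489.1⟩⟩⟩⟩⟩, ⟨⟨⟨⟨H _ t36489.2.1, H _ t36489.2.2.1⟩, ⟨H _ t36489.2.2.2.1, H _ t36489.2.2.2.2.1⟩⟩, ⟨⟨H _ t36489.2.2.2.2.2.1, H _ t36489.2.2.2.2.2.2.1⟩, ⟨H _ t36489.2.2.2.2.2.2.2, ⟨H _ t36497.1, H _ t36497.2.1⟩⟩⟩⟩, ⟨⟨⟨H _ t36497.2.2.1, H _ t36497.2.2.2.1⟩, ⟨H _ t36497.2.2.2.2.1, H _ t36497.2.2.2.2.2.1⟩⟩, ⟨⟨H _ t36497.2.2.2.2.2.2.1,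 H _ t36497.2.2.2.2.2.2.2⟩, ⟨H _ t36505.1, ⟨H _ t36505.2.1, H _ t36505.2.2.1⟩⟩⟩⟩⟩⟩, ⟨⟨⟨⟨⟨H _ t36505.2.2.2.1, H _ t36505.2.2.2.2.1⟩, ⟨H _ t36505.2.2.2.2.2.1, H _ t36505.2.2.2.2.2.2.1⟩⟩, ⟨⟨H _ t36505.2.2.2.2.2.2.2, H _ t36513.1⟩, ⟨H _ t36513.2.1, H _ t36513.2.2.1⟩⟩⟩, ⟨⟨⟨H _ t36513.2.2.2.1, H _ t36513.2.2.2.2.1⟩, ⟨H _ t36513.2.2.2.2.2.1, H _ t36513.2.2.2.2.2.2.1⟩⟩, ⟨⟨H _ t36513.2.2.2.2.2.2.2, H _ t36521.1⟩, ⟨H _ t36521.2.1, ⟨H _ t36521.2.2.1, H _ t36521.2.2.2.1⟩⟩⟩⟩⟩, ⟨⟨⟨⟨H _ t36521.2.2.2.2.1, H _ t36521.2.2.2.2.2.1⟩, ⟨H _ t36521.2.2.2.2.2.2.1, H _ t36521.2.2.2.2.2.2.2⟩⟩, ⟨⟨H _ t36529.1, H _ t36529.2.1⟩, ⟨H _ t36529.2.2.1, ⟨H _ t36529.2.2.2.1, H _ t36529.2.2.2.2.1⟩⟩⟩⟩, ⟨⟨⟨H _ t36529.2.2.2.2.2.1, H _ t36529.2.2.2.2.2.2.1⟩, ⟨H _ t36529.2.2.2.2.2.2.2, H _ t36537.1⟩⟩, ⟨⟨H _ t36537.2.1, H _ t36537.2.2.1⟩, ⟨H _ t36537.2.2.2.1, ⟨H _ t36537.2.2.2.2.1, H _ t36537.2.2.2.2.2.1⟩⟩⟩⟩⟩⟩⟩, ⟨⟨⟨⟨⟨⟨H _ t36537.2.2.2.2.2.2.1,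 H _ t36537.2.2.2.2.2.2.2⟩, ⟨H _ t36545.1, H _ t36545.2.1⟩⟩, ⟨⟨H _ t36545.2.2.1, H _ t36545.2.2.2.1⟩, ⟨H _ t36545.2.2.2.2.1, H _ t36545.2.2.2.2.2.1⟩⟩⟩, ⟨⟨⟨H _ t36545.2.2.2.2.2.2.1, H _ t36545.2.2.2.2.2.2.2⟩, ⟨H _ t36553.1, H _ t36553.2.1⟩⟩, ⟨⟨H _ t36553.2.2.1, H _ t36553.2.2.2.1⟩, ⟨H _ t36553.2.2.2.2.1, ⟨H _ t36553.2.2.2.2.2.1, H _ t36553.2.2.2.2.2.2.1⟩⟩⟩⟩⟩, ⟨⟨⟨⟨H _ t36553.2.2.2.2.2.2.2, H _ t36561.1⟩, ⟨H _ t36561.2.1, H _ t36561.2.2.1⟩⟩, ⟨⟨H _ t36561.2.2.2.1, H _ t36561.2.2.2.2.1⟩, ⟨H _ t36561.2.2.2.2.2.1, ⟨H _ t36561.2.2.2.2.2.2.1, H _ t36561.2.2.2.2.2.2.2⟩⟩⟩⟩, ⟨⟨⟨H _ t36569.1, H _ t36569.2.1⟩, ⟨H _ t36569.2.2.1, H _ t36569.2.2.2.1⟩⟩, ⟨⟨H _ t36569.2.2.2.2.1, H _ t36569.2.2.2.2.2.1⟩, ⟨H _ t36569.2.2.2.2.2.2.1, ⟨H _ t36569.2.2.2.2.2.2.2, H _ t36577.1⟩⟩⟩⟩⟩⟩, ⟨⟨⟨⟨⟨H _ t36577.2.1, H _ t36577.2.2.1⟩, ⟨H _ t36577.2.2.2.1, H _ t36577.2.2.2.2.1⟩⟩, ⟨⟨H _ t36577.2.2.2.2.2.1, H _ t36577.2.2.2.2.2.2.1⟩,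 ⟨H _ t36577.2.2.2.2.2.2.2, ⟨H _ t36585.1, H _ t36585.2.1⟩⟩⟩⟩, ⟨⟨⟨H _ t36585.2.2.1, H _ t36585.2.2.2.1⟩, ⟨H _ t36585.2.2.2.2.1, H _ t36585.2.2.2.2.2.1⟩⟩, ⟨⟨H _ t36585.2.2.2.2.2.2.1, H _ t36585.2.2.2.2.2.2.2⟩, ⟨H _ t36593.1, ⟨H _ t36593.2.1, H _ t36593.2.2.1⟩⟩⟩⟩⟩, ⟨⟨⟨⟨H _ t36593.2.2.2.1, H _ t36593.2.2.2.2.1⟩, ⟨H _ t36593.2.2.2.2.2.1, H _ t36593.2.2.2.2.2.2.1⟩⟩, ⟨⟨H _ t36593.2.2.2.2.2.2.2, H _ t36601.1⟩, ⟨H _ t36601.2.1, ⟨H _ t36601.2.2.1, H _ t36601.2.2.2.1⟩⟩⟩⟩, ⟨⟨⟨H _ t36601.2.2.2.2.1, H _ t36601.2.2.2.2.2.1⟩, ⟨H _ t36601.2.2.2.2.2.2.1, H _ t36601.2.2.2.2.2.2.2⟩⟩, ⟨⟨H _ t36609.1, H _ t36609.2.1⟩, ⟨H _ t36609.2.2.1, ⟨H _ t36609.2.2.2.1, H _ t36609.2.2.2.2.1⟩⟩⟩⟩⟩⟩⟩⟩, ⟨⟨⟨⟨⟨⟨⟨H _ t36609.2.2.2.2.2.1, H _ t36609.2.2.2.2.2.2.1⟩, ⟨H _ t36609.2.2.2.2.2.2.2, H _ t36617.1⟩⟩, ⟨⟨H _ t36617.2.1, H _ t36617.2.2.1⟩, ⟨H _ t36617.2.2.2.1, H _ t36617.2.2.2.2.1⟩⟩⟩, ⟨⟨⟨H _ t36617.2.2.2.2.2.1, H _ t36617.2.2.2.2.2.2.1⟩,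 ⟨H _ t36617.2.2.2.2.2.2.2, H _ t36625.1⟩⟩, ⟨⟨H _ t36625.2.1, H _ t36625.2.2.1⟩, ⟨H _ t36625.2.2.2.1, ⟨H _ t36625.2.2.2.2.1, H _ t36625.2.2.2.2.2.1⟩⟩⟩⟩⟩, ⟨⟨⟨⟨H _ t36625.2.2.2.2.2.2.1, H _ t36625.2.2.2.2.2.2.2⟩, ⟨H _ t36633.1, H _ t36633.2.1⟩⟩, ⟨⟨H _ t36633.2.2.1, H _ t36633.2.2.2.1⟩, ⟨H _ t36633.2.2.2.2.1, ⟨H _ t36633.2.2.2.2.2.1, H _ t36633.2.2.2.2.2.2.1⟩⟩⟩⟩, ⟨⟨⟨H _ t36633.2.2.2.2.2.2.2, H _ t36641.1⟩, ⟨H _ t36641.2.1, H _ t36641.2.2.1⟩⟩, ⟨⟨H _ t36641.2.2.2.1, H _ t36641.2.2.2.2.1⟩, ⟨H _ t36641.2.2.2.2.2.1, ⟨H _ t36641.2.2.2.2.2.2.1, H _ t36641.2.2.2.2.2.2.2⟩⟩⟩⟩⟩⟩, ⟨⟨⟨⟨⟨H _ t36649.1, H _ t36649.2.1⟩, ⟨H _ t36649.2.2.1, H _ t36649.2.2.2.1⟩⟩, ⟨⟨H _ t36649.2.2.2.2.1, H _ t36649.2.2.2.2.2.1⟩, ⟨H _ t36649.2.2.2.2.2.2.1, ⟨H _ t36649.2.2.2.2.2.2.2, H _ t36657.1⟩⟩⟩⟩, ⟨⟨⟨H _ t36657.2.1, H _ t36657.2.2.1⟩, ⟨H _ t36657.2.2.2.1, H _ t36657.2.2.2.2.1⟩⟩, ⟨⟨H _ t36657.2.2.2.2.2.1, H _ t36657.2.2.2.2.2.2.1⟩,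 ⟨H _ t36657.2.2.2.2.2.2.2, ⟨H _ t36665.1, H _ t36665.2.1⟩⟩⟩⟩⟩, ⟨⟨⟨⟨H _ t36665.2.2.1, H _ t36665.2.2.2.1⟩, ⟨H _ t36665.2.2.2.2.1, H _ t36665.2.2.2.2.2.1⟩⟩, ⟨⟨H _ t36665.2.2.2.2.2.2.1, H _ t36665.2.2.2.2.2.2.2⟩, ⟨H _ t36673.1, ⟨H _ t36673.2.1, H _ t36673.2.2.1⟩⟩⟩⟩, ⟨⟨⟨H _ t36673.2.2.2.1, H _ t36673.2.2.2.2.1⟩, ⟨H _ t36673.2.2.2.2.2.1, H _ t36673.2.2.2.2.2.2.1⟩⟩, ⟨⟨H _ t36673.2.2.2.2.2.2.2, H _ t36681.1⟩, ⟨H _ t36681.2.1, ⟨H _ t36681.2.2.1, H _ t36681.2.2.2.1⟩⟩⟩⟩⟩⟩⟩, ⟨⟨⟨⟨⟨⟨H _ t36681.2.2.2.2.1, H _ t36681.2.2.2.2.2.1⟩, ⟨H _ t36681.2.2.2.2.2.2.1, H _ t36681.2.2.2.2.2.2.2⟩⟩, ⟨⟨H _ t36689.1, H _ t36689.2.1⟩, ⟨H _ t36689.2.2.1, H _ t36689.2.2.2.1⟩⟩⟩, ⟨⟨⟨H _ t36689.2.2.2.2.1, H _ t36689.2.2.2.2.2.1⟩, ⟨H _ t36689.2.2.2.2.2.2.1, H _ t36689.2.2.2.2.2.2.2⟩⟩, ⟨⟨H _ t36697.1, H _ t36697.2.1⟩, ⟨H _ t36697.2.2.1, ⟨H _ t36697.2.2.2.1, H _ t36697.2.2.2.2.1⟩⟩⟩⟩⟩, ⟨⟨⟨⟨H _ t36697.2.2.2.2.2.1, H _ t36697.2.2.2.2.2.2.1⟩,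 ⟨H _ t36697.2.2.2.2.2.2.2, H _ t36705.1⟩⟩, ⟨⟨H _ t36705.2.1, H _ t36705.2.2.1⟩, ⟨H _ t36705.2.2.2.1, ⟨H _ t36705.2.2.2.2.1, H _ t36705.2.2.2.2.2.1⟩⟩⟩⟩, ⟨⟨⟨H _ t36705.2.2.2.2.2.2.1, H _ t36705.2.2.2.2.2.2.2⟩, ⟨H _ t36713.1, H _ t36713.2.1⟩⟩, ⟨⟨H _ t36713.2.2.1, H _ t36713.2.2.2.1⟩, ⟨H _ t36713.2.2.2.2.1, ⟨H _ t36713.2.2.2.2.2.1, H _ t36713.2.2.2.2.2.2.1⟩⟩⟩⟩⟩⟩, ⟨⟨⟨⟨⟨H _ t36713.2.2.2.2.2.2.2, H _ t36721.1⟩, ⟨H _ t36721.2.1, H _ t36721.2.2.1⟩⟩, ⟨⟨H _ t36721.2.2.2.1, H _ t36721.2.2.2.2.1⟩, ⟨H _ t36721.2.2.2.2.2.1, ⟨H _ t36721.2.2.2.2.2.2.1, H _ t36721.2.2.2.2.2.2.2⟩⟩⟩⟩, ⟨⟨⟨H _ t36729.1, H _ t36729.2.1⟩, ⟨H _ t36729.2.2.1, H _ t36729.2.2.2.1⟩⟩, ⟨⟨H _ t36729.2.2.2.2.1, H _ t36729.2.2.2.2.2.1⟩, ⟨H _ t36729.2.2.2.2.2.2.1, ⟨H _ t36729.2.2.2.2.2.2.2, H _ t36737.1⟩⟩⟩⟩⟩, ⟨⟨⟨⟨H _ t36737.2.1, H _ t36737.2.2.1⟩, ⟨H _ t36737.2.2.2.1, H _ t36737.2.2.2.2.1⟩⟩, ⟨⟨H _ t36737.2.2.2.2.2.1, H _ t36737.2.2.2.2.2.2.1⟩,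 ⟨H _ t36737.2.2.2.2.2.2.2, ⟨H _ t36745.1, H _ t36745.2.1⟩⟩⟩⟩, ⟨⟨⟨H _ t36745.2.2.1, H _ t36745.2.2.2.1⟩, ⟨H _ t36745.2.2.2.2.1, H _ t36745.2.2.2.2.2.1⟩⟩, ⟨⟨H _ t36745.2.2.2.2.2.2.1, H _ t36745.2.2.2.2.2.2.2⟩, ⟨H _ t36753.1, ⟨H _ t36753.2.1, H _ t36753.2.2.1⟩⟩⟩⟩⟩⟩⟩⟩⟩, ⟨⟨⟨⟨⟨⟨⟨⟨H _ t36753.2.2.2.1, H _ t36753.2.2.2.2.1⟩, ⟨H _ t36753.2.2.2.2.2.1, H _ t36753.2.2.2.2.2.2.1⟩⟩, ⟨⟨H _ t36753.2.2.2.2.2.2.2, H _ t36761.1⟩, ⟨H _ t36761.2.1, H _ t36761.2.2.1⟩⟩⟩, ⟨⟨⟨H _ t36761.2.2.2.1, H _ t36761.2.2.2.2.1⟩, ⟨H _ t36761.2.2.2.2.2.1, H _ t36761.2.2.2.2.2.2.1⟩⟩, ⟨⟨H _ t36761.2.2.2.2.2.2.2, H _ t36769.1⟩, ⟨H _ t36769.2.1, ⟨H _ t36769.2.2.1, H _ t36769.2.2.2.1⟩⟩⟩⟩⟩, ⟨⟨⟨⟨H _ t36769.2.2.2.2.1, H _ t36769.2.2.2.2.2.1⟩, ⟨H _ t36769.2.2.2.2.2.2.1, H _ t36769.2.2.2.2.2.2.2⟩⟩, ⟨⟨H _ t36777.1, H _ t36777.2.1⟩, ⟨H _ t36777.2.2.1, ⟨H _ t36777.2.2.2.1, H _ t36777.2.2.2.2.1⟩⟩⟩⟩, ⟨⟨⟨H _ t36777.2.2.2.2.2.1, H _ t36777.2.2.2.2.2.2.1⟩,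 ⟨H _ t36777.2.2.2.2.2.2.2, H _ t36785.1⟩⟩, ⟨⟨H _ t36785.2.1, H _ t36785.2.2.1⟩, ⟨H _ t36785.2.2.2.1, ⟨H _ t36785.2.2.2.2.1, H _ t36785.2.2.2.2.2.1⟩⟩⟩⟩⟩⟩, ⟨⟨⟨⟨⟨H _ t36785.2.2.2.2.2.2.1, H _ t36785.2.2.2.2.2.2.2⟩, ⟨H _ t36793.1, H _ t36793.2.1⟩⟩, ⟨⟨H _ t36793.2.2.1, H _ t36793.2.2.2.1⟩, ⟨H _ t36793.2.2.2.2.1, H _ t36793.2.2.2.2.2.1⟩⟩⟩, ⟨⟨⟨H _ t36793.2.2.2.2.2.2.1, H _ t36793.2.2.2.2.2.2.2⟩, ⟨H _ t36801.1, H _ t36801.2.1⟩⟩, ⟨⟨H _ t36801.2.2.1, H _ t36801.2.2.2.1⟩, ⟨H _ t36801.2.2.2.2.1, ⟨H _ t36801.2.2.2.2.2.1, H _ t36801.2.2.2.2.2.2.1⟩⟩⟩⟩⟩, ⟨⟨⟨⟨H _ t36801.2.2.2.2.2.2.2, H _ t36809.1⟩, ⟨H _ t36809.2.1, H _ t36809.2.2.1⟩⟩, ⟨⟨H _ t36809.2.2.2.1, H _ t36809.2.2.2.2.1⟩, ⟨H _ t36809.2.2.2.2.2.1, ⟨H _ t36809.2.2.2.2.2.2.1, H _ t36809.2.2.2.2.2.2.2⟩⟩⟩⟩, ⟨⟨⟨H _ t36817.1, H _ t36817.2.1⟩, ⟨H _ t36817.2.2.1, H _ t36817.2.2.2.1⟩⟩, ⟨⟨H _ t36817.2.2.2.2.1, H _ t36817.2.2.2.2.2.1⟩, ⟨H _ t36817.2.2.2.2.2.2.1,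 ⟨H _ t36817.2.2.2.2.2.2.2, H _ t36825.1⟩⟩⟩⟩⟩⟩⟩, ⟨⟨⟨⟨⟨⟨H _ t36825.2.1, H _ t36825.2.2.1⟩, ⟨H _ t36825.2.2.2.1, H _ t36825.2.2.2.2.1⟩⟩, ⟨⟨H _ t36825.2.2.2.2.2.1, H _ t36825.2.2.2.2.2.2.1⟩, ⟨H _ t36825.2.2.2.2.2.2.2, H _ t36833.1⟩⟩⟩, ⟨⟨⟨H _ t36833.2.1, H _ t36833.2.2.1⟩, ⟨H _ t36833.2.2.2.1, H _ t36833.2.2.2.2.1⟩⟩, ⟨⟨H _ t36833.2.2.2.2.2.1, H _ t36833.2.2.2.2.2.2.1⟩, ⟨H _ t36833.2.2.2.2.2.2.2, ⟨H _ t36841.1, H _ t36841.2.1⟩⟩⟩⟩⟩, ⟨⟨⟨⟨H _ t36841.2.2.1, H _ t36841.2.2.2.1⟩, ⟨H _ t36841.2.2.2.2.1, H _ t36841.2.2.2.2.2.1⟩⟩, ⟨⟨H _ t36841.2.2.2.2.2.2.1, H _ t36841.2.2.2.2.2.2.2⟩, ⟨H _ t36849.1, ⟨H _ t36849.2.1, H _ t36849.2.2.1⟩⟩⟩⟩, ⟨⟨⟨H _ t36849.2.2.2.1, H _ t36849.2.2.2.2.1⟩, ⟨H _ t36849.2.2.2.2.2.1, H _ t36849.2.2.2.2.2.2.1⟩⟩, ⟨⟨H _ t36849.2.2.2.2.2.2.2, H _ t36857.1⟩, ⟨H _ t36857.2.1, ⟨H _ t36857.2.2.1, H _ t36857.2.2.2.1⟩⟩⟩⟩⟩⟩, ⟨⟨⟨⟨⟨H _ t36857.2.2.2.2.1, H _ t36857.2.2.2.2.2.1⟩, ⟨H _ t36857.2.2.2.2.2.2.1,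 H _ t36857.2.2.2.2.2.2.2⟩⟩, ⟨⟨H _ t36865.1, H _ t36865.2.1⟩, ⟨H _ t36865.2.2.1, ⟨H _ t36865.2.2.2.1, H _ t36865.2.2.2.2.1⟩⟩⟩⟩, ⟨⟨⟨H _ t36865.2.2.2.2.2.1, H _ t36865.2.2.2.2.2.2.1⟩, ⟨H _ t36865.2.2.2.2.2.2.2, H _ t36873.1⟩⟩, ⟨⟨H _ t36873.2.1, H _ t36873.2.2.1⟩, ⟨H _ t36873.2.2.2.1, ⟨H _ t36873.2.2.2.2.1, H _ t36873.2.2.2.2.2.1⟩⟩⟩⟩⟩, ⟨⟨⟨⟨H _ t36873.2.2.2.2.2.2.1, H _ t36873.2.2.2.2.2.2.2⟩, ⟨H _ t36881.1, H _ t36881.2.1⟩⟩, ⟨⟨H _ t36881.2.2.1, H _ t36881.2.2.2.1⟩, ⟨H _ t36881.2.2.2.2.1, ⟨H _ t36881.2.2.2.2.2.1, H _ t36881.2.2.2.2.2.2.1⟩⟩⟩⟩, ⟨⟨⟨H _ t36881.2.2.2.2.2.2.2, H _ t36889.1⟩, ⟨H _ t36889.2.1, H _ t36889.2.2.1⟩⟩, ⟨⟨H _ t36889.2.2.2.1, H _ t36889.2.2.2.2.1⟩, ⟨H _ t36889.2.2.2.2.2.1, ⟨H _ t36889.2.2.2.2.2.2.1, H _ t36889.2.2.2.2.2.2.2⟩⟩⟩⟩⟩⟩⟩⟩, ⟨⟨⟨⟨⟨⟨⟨H _ t36897.1, H _ t36897.2.1⟩, ⟨H _ t36897.2.2.1, H _ t36897.2.2.2.1⟩⟩, ⟨⟨H _ t36897.2.2.2.2.1, H _ t36897.2.2.2.2.2.1⟩, ⟨H _ t36897.2.2.2.2.2.2.1,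 H _ t36897.2.2.2.2.2.2.2⟩⟩⟩, ⟨⟨⟨H _ t36905.1, H _ t36905.2.1⟩, ⟨H _ t36905.2.2.1, H _ t36905.2.2.2.1⟩⟩, ⟨⟨H _ t36905.2.2.2.2.1, H _ t36905.2.2.2.2.2.1⟩, ⟨H _ t36905.2.2.2.2.2.2.1, ⟨H _ t36905.2.2.2.2.2.2.2, H _ t36913.1⟩⟩⟩⟩⟩, ⟨⟨⟨⟨H _ t36913.2.1, H _ t36913.2.2.1⟩, ⟨H _ t36913.2.2.2.1, H _ t36913.2.2.2.2.1⟩⟩, ⟨⟨H _ t36913.2.2.2.2.2.1, H _ t36913.2.2.2.2.2.2.1⟩, ⟨H _ t36913.2.2.2.2.2.2.2, ⟨H _ t36921.1, H _ t36921.2.1⟩⟩⟩⟩, ⟨⟨⟨H _ t36921.2.2.1, H _ t36921.2.2.2.1⟩, ⟨H _ t36921.2.2.2.2.1, H _ t36921.2.2.2.2.2.1⟩⟩, ⟨⟨H _ t36921.2.2.2.2.2.2.1, H _ t36921.2.2.2.2.2.2.2⟩, ⟨H _ t36929.1, ⟨H _ t36929.2.1, H _ t36929.2.2.1⟩⟩⟩⟩⟩⟩, ⟨⟨⟨⟨⟨H _ t36929.2.2.2.1, H _ t36929.2.2.2.2.1⟩, ⟨H _ t36929.2.2.2.2.2.1, H _ t36929.2.2.2.2.2.2.1⟩⟩, ⟨⟨H _ t36929.2.2.2.2.2.2.2, H _ t36937.1⟩, ⟨H _ t36937.2.1, ⟨H _ t36937.2.2.1, H _ t36937.2.2.2.1⟩⟩⟩⟩, ⟨⟨⟨H _ t36937.2.2.2.2.1, H _ t36937.2.2.2.2.2.1⟩, ⟨H _ t36937.2.2.2.2.2.2.1,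 H _ t36937.2.2.2.2.2.2.2⟩⟩, ⟨⟨H _ t36945.1, H _ t36945.2.1⟩, ⟨H _ t36945.2.2.1, ⟨H _ t36945.2.2.2.1, H _ t36945.2.2.2.2.1⟩⟩⟩⟩⟩, ⟨⟨⟨⟨H _ t36945.2.2.2.2.2.1, H _ t36945.2.2.2.2.2.2.1⟩, ⟨H _ t36945.2.2.2.2.2.2.2, H _ t36953.1⟩⟩, ⟨⟨H _ t36953.2.1, H _ t36953.2.2.1⟩, ⟨H _ t36953.2.2.2.1, ⟨H _ t36953.2.2.2.2.1, H _ t36953.2.2.2.2.2.1⟩⟩⟩⟩, ⟨⟨⟨H _ t36953.2.2.2.2.2.2.1, H _ t36953.2.2.2.2.2.2.2⟩, ⟨H _ t36961.1, H _ t36961.2.1⟩⟩, ⟨⟨H _ t36961.2.2.1, H _ t36961.2.2.2.1⟩, ⟨H _ t36961.2.2.2.2.1, ⟨H _ t36961.2.2.2.2.2.1, H _ t36961.2.2.2.2.2.2.1⟩⟩⟩⟩⟩⟩⟩, ⟨⟨⟨⟨⟨⟨H _ t36961.2.2.2.2.2.2.2, H _ t36969.1⟩, ⟨H _ t36969.2.1, H _ t36969.2.2.1⟩⟩, ⟨⟨H _ t36969.2.2.2.1, H _ t36969.2.2.2.2.1⟩, ⟨H _ t36969.2.2.2.2.2.1, H _ t36969.2.2.2.2.2.2.1⟩⟩⟩, ⟨⟨⟨H _ t36969.2.2.2.2.2.2.2, H _ t36977.1⟩, ⟨H _ t36977.2.1, H _ t36977.2.2.1⟩⟩, ⟨⟨H _ t36977.2.2.2.1, H _ t36977.2.2.2.2.1⟩, ⟨H _ t36977.2.2.2.2.2.1, ⟨H _ t36977.2.2.2.2.2.2.1,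 H _ t36977.2.2.2.2.2.2.2⟩⟩⟩⟩⟩, ⟨⟨⟨⟨H _ t36985.1, H _ t36985.2.1⟩, ⟨H _ t36985.2.2.1, H _ t36985.2.2.2.1⟩⟩, ⟨⟨H _ t36985.2.2.2.2.1, H _ t36985.2.2.2.2.2.1⟩, ⟨H _ t36985.2.2.2.2.2.2.1, ⟨H _ t36985.2.2.2.2.2.2.2, H _ t36993.1⟩⟩⟩⟩, ⟨⟨⟨H _ t36993.2.1, H _ t36993.2.2.1⟩, ⟨H _ t36993.2.2.2.1, H _ t36993.2.2.2.2.1⟩⟩, ⟨⟨H _ t36993.2.2.2.2.2.1, H _ t36993.2.2.2.2.2.2.1⟩, ⟨H _ t36993.2.2.2.2.2.2.2, ⟨H _ t37001.1, H _ t37001.2.1⟩⟩⟩⟩⟩⟩, ⟨⟨⟨⟨⟨H _ t37001.2.2.1, H _ t37001.2.2.2.1⟩, ⟨H _ t37001.2.2.2.2.1, H _ t37001.2.2.2.2.2.1⟩⟩, ⟨⟨H _ t37001.2.2.2.2.2.2.1, H _ t37001.2.2.2.2.2.2.2⟩, ⟨H _ t37009.1, ⟨H _ t37009.2.1, H _ t37009.2.2.1⟩⟩⟩⟩, ⟨⟨⟨H _ t37009.2.2.2.1, H _ t37009.2.2.2.2.1⟩, ⟨H _ t37009.2.2.2.2.2.1, H _ t37009.2.2.2.2.2.2.1⟩⟩, ⟨⟨H _ t37009.2.2.2.2.2.2.2, H _ t37017.1⟩, ⟨H _ t37017.2.1, ⟨H _ t37017.2.2.1, H _ t37017.2.2.2.1⟩⟩⟩⟩⟩, ⟨⟨⟨⟨H _ t37017.2.2.2.2.1, H _ t37017.2.2.2.2.2.1⟩, ⟨H _ t37017.2.2.2.2.2.2.1,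 H _ t37017.2.2.2.2.2.2.2⟩⟩, ⟨⟨H _ t37025.1, H _ t37025.2.1⟩, ⟨H _ t37025.2.2.1, ⟨H _ t37025.2.2.2.1, H _ t37025.2.2.2.2.1⟩⟩⟩⟩, ⟨⟨⟨H _ t37025.2.2.2.2.2.1, H _ t37025.2.2.2.2.2.2.1⟩, ⟨H _ t37025.2.2.2.2.2.2.2, H _ t37033.1⟩⟩, ⟨⟨H _ t37033.2.1, H _ t37033.2.2.1⟩, ⟨H _ t37033.2.2.2.1, ⟨H _ t37033.2.2.2.2.1, H _ t37033.2.2.2.2.2⟩⟩⟩⟩⟩⟩⟩⟩⟩⟩

end Pool.Agent.MP_c853c5_nt.X.C4950
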