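import Pool.Agent.MP_c853c5_nt.X.C4950.Env
import Pool.Agent.MP_c853c5_nt.X.C4950.Tab

set_option autoImplicit false
set_option maxRecDepth 8192
set_option linter.all false

namespace Pool.Agent.MP_c853c5_nt.X.C4950

open Pool.Agent.MP_c853c5_nt.X

def t37039 : allY (E.wth T1) l37039 = true ∧
    allY (E.wth T1) l37040 = true ∧
    allY (E.wth T1) l37041 = true ∧
    allY (E.wth T1) l37042 = true ∧
    allY (E.wth T1) l37043 = true ∧
    allY (E.wth T1) l37044 = true ∧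
    allY (E.wth T1) l37045 = true ∧
    allY (E.wth T1) l37046 = true :=
  ⟨by decide +kernel, by decide +kernel, by decide +kernel, by decide +kernel, by decide +kernel, by decide +kernel, by decide +kernel, by decide +kernel⟩

def t37047 : allY (E.wth T1) l37047 = true ∧
    allY (E.wth T1) l37048 = true ∧
    allY (E.wth T1) l37049 = true ∧
    allY (E.wth T1) l37050 = true ∧
    allY (E.wth T1) l37051 = true ∧
    allY (E.wth T1) l37052 = true ∧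
    allY (E.wth T1) l37053 = true ∧
    allY (E.wth T1) l37054 = true :=
  ⟨by decide +kernel, by decide +kernel, by decide +kernel, by decide +kernel, by decide +kernel, by decide +kernel, by decide +kernel, by decide +kernel⟩

def t37055 : allY (E.wth T1) l37055 = true ∧
    allY (E.wth T1) l37056 = true ∧
    allY (E.wth T1) l37057 = true ∧
    allY (E.wth T1) l37058 = true ∧
    allY (E.wth T1) l37059 = true ∧
    allY (E.wth T1) l37060 = true ∧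
    allY (E.wth T1) l37061 = true ∧
    allY (E.wth T1) l37062 = true :=
  ⟨by decide +kernel, by decide +kernel, by decide +kernel, by decide +kernel, by decide +kernel, by decide +kernel, by decide +kernel, by decide +kernel⟩

def t37063 : allY (E.wth T1) l37063 = true ∧
    allY (E.wth T1) l37064 = true ∧
    allY (E.wth T1) l37065 = true ∧
    allY (E.wth T1) l37066 = true ∧
    allY (E.wth T1) l37067 = true ∧
    allY (E.wth T1) l37068 = true ∧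
    allY (E.wth T1) l37069 = true ∧
    allY (E.wth T1) l37070 = true :=
  ⟨by decide +kernel, by decide +kernel, by decide +kernel, by decide +kernel, by decide +kernel, by decide +kernel, by decide +kernel, by decide +kernel⟩

def t37071 : allY (E.wth T1) l37071 = true ∧
    allY (E.wth T1) l37072 = true ∧
    allY (E.wth T1) l37073 = true ∧
    allY (E.wth T1) l37074 = true ∧
    allY (E.wth T1) l37075 = true ∧
    allY (E.wth T1) l37076 = true ∧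
    allY (E.wth T1) l37077 = true ∧
    allY (E.wth T1) l37078 = true :=
  ⟨by decide +kernel, by decide +kernel, by decide +kernel, by decide +kernel, by decide +kernel, by decide +kernel, by decide +kernel, by decide +kernel⟩

def t37079 : allY (E.wth T1) l37079 = true ∧
    allY (E.wth T1) l37080 = true ∧
    allY (E.wth T1) l37081 = true ∧
    allY (E.wth T1) l37082 = true ∧
    allY (E.wth T1) l37083 = true ∧
    allY (E.wth T1) l37084 = true ∧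
    allY (E.wth T1) l37085 = true ∧
    allY (E.wth T1) l37086 = true :=
  ⟨by decide +kernel, by decide +kernel, by decide +kernel, by decide +kernel, by decide +kernel, by decide +kernel, by decide +kernel, by decide +kernel⟩

def t37087 : allY (E.wth T1) l37087 = true ∧
    allY (E.wth T1) l37088 = true ∧
    allY (E.wth T1) l37089 = true ∧
    allY (E.wth T1) l37090 = true ∧
    allY (E.wth T1) l37091 = true ∧
    allY (E.wth T1) l37092 = true ∧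
    allY (E.wth T1) l37093 = true ∧
    allY (E.wth T1) l37094 = true :=
  ⟨by decide +kernel, by decide +kernel, by decide +kernel, by decide +kernel, by decide +kernel, by decide +kernel, by decide +kernel, by decide +kernel⟩

def t37095 : allY (E.wth T1) l37095 = true ∧
    allY (E.wth T1) l37096 = true ∧
    allY (E.wth T1) l37097 = true ∧
    allY (E.wth T1) l37098 = true ∧
    allY (E.wth T1) l37099 = true ∧
    allY (E.wth T1) l37100 = true ∧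
    allY (E.wth T1) l37101 = true ∧
    allY (E.wth T1) l37102 = true :=
  ⟨by decide +kernel, by decide +kernel, by decide +kernel, by decide +kernel, by decide +kernel, by decide +kernel, by decide +kernel, by decide +kernel⟩

def t37103 : allY (E.wth T1) l37103 = true ∧
    allY (E.wth T1) l37104 = true ∧
    allY (E.wth T1) l37105 = true ∧
    allY (E.wth T1) l37106 = true ∧
    allY (E.wth T1) l37107 = true ∧
    allY (E.wth T1) l37108 = true ∧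
    allY (E.wth T1) l37109 = true ∧
    allY (E.wth T1) l37110 = true :=
  ⟨by decide +kernel, by decide +kernel, by decide +kernel, by decide +kernel, by decide +kernel, by decide +kernel, by decide +kernel, by decide +kernel⟩

def t37111 : allY (E.wth T1) l37111 = true ∧
    allY (E.wth T1) l37112 = true ∧
    allY (E.wth T1) l37113 = true ∧
    allY (E.wth T1) l37114 = true ∧
    allY (E.wth T1) l37115 = true ∧
    allY (E.wth T1) l37116 = true ∧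
    allY (E.wth T1) l37117 = true ∧
    allY (E.wth T1) l37118 = true :=
  ⟨by decide +kernel, by decide +kernel, by decide +kernel, by decide +kernel, by decide +kernel, by decide +kernel, by decide +kernel, by decide +kernel⟩

def t37119 : allY (E.wth T1) l37119 = true ∧
    allY (E.wth T1) l37120 = true ∧
    allY (E.wth T1) l37121 = true ∧
    allY (E.wth T1) l37122 = true ∧
    allY (E.wth T1) l37123 = true ∧
    allY (E.wth T1) l37124 = true ∧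
    allY (E.wth T1) l37125 = true ∧
    allY (E.wth T1) l37126 = true :=
  ⟨by decide +kernel, by decide +kernel, by decide +kernel, by decide +kernel, by decide +kernel, by decide +kernel, by decide +kernel, by decide +kernel⟩

def t37127 : allY (E.wth T1) l37127 = true ∧
    allY (E.wth T1) l37128 = true ∧
    allY (E.wth T1) l37129 = true ∧
    allY (E.wth T1) l37130 = true ∧
    allY (E.wth T1) l37131 = true ∧
    allY (E.wth T1) l37132 = true ∧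
    allY (E.wth T1) l37133 = true ∧
    allY (E.wth T1) l37134 = true :=
  ⟨by decide +kernel, by decide +kernel, by decide +kernel, by decide +kernel, by decide +kernel, by decide +kernel, by decide +kernel, by decide +kernel⟩

def t37135 : allY (E.wth T1) l37135 = true ∧
    allY (E.wth T1) l37136 = true ∧
    allY (E.wth T1) l37137 = true ∧
    allY (E.wth T1) l37138 = true ∧
    allY (E.wth T1) l37139 = true ∧
    allY (E.wth T1) l37140 = true ∧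
    allY (E.wth T1) l37141 = true ∧
    allY (E.wth T1) l37142 = true :=
  ⟨by decide +kernel, by decide +kernel, by decide +kernel, by decide +kernel, by decide +kernel, by decide +kernel, by decide +kernel, by decide +kernel⟩

def t37143 : allY (E.wth T1) l37143 = true ∧
    allY (E.wth T1) l37144 = true ∧
    allY (E.wth T1) l37145 = true ∧
    allY (E.wth T1) l37146 = true ∧
    allY (E.wth T1) l37147 = true ∧
    allY (E.wth T1) l37148 = true ∧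
    allY (E.wth T1) l37149 = true ∧
    allY (E.wth T1) l37150 = true :=
  ⟨by decide +kernel, by decide +kernel, by decide +kernel, by decide +kernel, by decide +kernel, by decide +kernel, by decide +kernel, by decide +kernel⟩

def t37151 : allY (E.wth T1) l37151 = true ∧
    allY (E.wth T1) l37152 = true ∧
    allY (E.wth T1) l37153 = true ∧
    allY (E.wth T1) l37154 = true ∧
    allY (E.wth T1) l37155 = true ∧
    allY (E.wth T1) l37156 = true ∧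
    allY (E.wth T1) l37157 = true ∧
    allY (E.wth T1) l37158 = true :=
  ⟨by decide +kernel, by decide +kernel, by decide +kernel, by decide +kernel, by decide +kernel, by decide +kernel, by decide +kernel, by decide +kernel⟩

def t37159 : allY (E.wth T1) l37159 = true ∧
    allY (E.wth T1) l37160 = true ∧
    allY (E.wth T1) l37161 = true ∧
    allY (E.wth T1) l37162 = true ∧
    allY (E.wth T1) l37163 = true ∧
    allY (E.wth T1) l37164 = true ∧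
    allY (E.wth T1) l37165 = true ∧
    allY (E.wth T1) l37166 = true :=
  ⟨by decide +kernel, by decide +kernel, by decide +kernel, by decide +kernel, by decide +kernel, by decide +kernel, by decide +kernel, by decide +kernel⟩

def t37167 : allY (E.wth T1) l37167 = true ∧
    allY (E.wth T1) l37168 = true ∧
    allY (E.wth T1) l37169 = true ∧
    allY (E.wth T1) l37170 = true ∧
    allY (E.wth T1) l37171 = true ∧
    allY (E.wth T1) l37172 = true ∧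
    allY (E.wth T1) l37173 = true ∧
    allY (E.wth T1) l37174 = true :=
  ⟨by decide +kernel, by decide +kernel, by decide +kernel, by decide +kernel, by decide +kernel, by decide +kernel, by decide +kernel, by decide +kernel⟩

def t37175 : allY (E.wth T1) l37175 = true ∧
    allY (E.wth T1) l37176 = true ∧
    allY (E.wth T1) l37177 = true ∧
    allY (E.wth T1) l37178 = true ∧
    allY (E.wth T1) l37179 = true ∧
    allY (E.wth T1) l37180 = true ∧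
    allY (E.wth T1) l37181 = true ∧
    allY (E.wth T1) l37182 = true :=
  ⟨by decide +kernel, by decide +kernel, by decide +kernel, by decide +kernel, by decide +kernel, by decide +kernel, by decide +kernel, by decide +kernel⟩

def t37183 : allY (E.wth T1) l37183 = true ∧
    allY (E.wth T1) l37184 = true ∧
    allY (E.wth T1) l37185 = true ∧
    allY (E.wth T1) l37186 = true ∧
    allY (E.wth T1) l37187 = true ∧
    allY (E.wth T1) l37188 = true ∧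
    allY (E.wth T1) l37189 = true ∧
    allY (E.wth T1) l37190 = true :=
  ⟨by decide +kernel, by decide +kernel, by decide +kernel, by decide +kernel, by decide +kernel, by decide +kernel, by decide +kernel, by decide +kernel⟩

def t37191 : allY (E.wth T1) l37191 = true ∧
    allY (E.wth T1) l37192 = true ∧
    allY (E.wth T1) l37193 = true ∧
    allY (E.wth T1) l37194 = true ∧
    allY (E.wth T1) l37195 = true ∧
    allY (E.wth T1) l37196 = true ∧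
    allY (E.wth T1) l37197 = true ∧
    allY (E.wth T1) l37198 = true :=
  ⟨by decide +kernel, by decide +kernel, by decide +kernel, by decide +kernel, by decide +kernel, by decide +kernel, by decide +kernel, by decide +kernel⟩

def t37199 : allY (E.wth T1) l37199 = true ∧
    allY (E.wth T1) l37200 = true ∧
    allY (E.wth T1) l37201 = true ∧
    allY (E.wth T1) l37202 = true ∧
    allY (E.wth T1) l37203 = true ∧
    allY (E.wth T1) l37204 = true ∧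
    allY (E.wth T1) l37205 = true ∧
    allY (E.wth T1) l37206 = true :=
  ⟨by decide +kernel, by decide +kernel, by decide +kernel, by decide +kernel, by decide +kernel, by decide +kernel, by decide +kernel, by decide +kernel⟩

def t37207 : allY (E.wth T1) l37207 = true ∧
    allY (E.wth T1) l37208 = true ∧
    allY (E.wth T1) l37209 = true ∧
    allY (E.wth T1) l37210 = true ∧
    allY (E.wth T1) l37211 = true ∧
    allY (E.wth T1) l37212 = true ∧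
    allY (E.wth T1) l37213 = true ∧
    allY (E.wth T1) l37214 = true :=
  ⟨by decide +kernel, by decide +kernel, by decide +kernel, by decide +kernel, by decide +kernel, by decide +kernel, by decide +kernel, by decide +kernel⟩

def t37215 : allY (E.wth T1) l37215 = true ∧
    allY (E.wth T1) l37216 = true ∧
    allY (E.wth T1) l37217 = true ∧
    allY (E.wth T1) l37218 = true ∧
    allY (E.wth T1) l37219 = true ∧
    allY (E.wth T1) l37220 = true ∧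
    allY (E.wth T1) l37221 = true ∧
    allY (E.wth T1) l37222 = true :=
  ⟨by decide +kernel, by decide +kernel, by decide +kernel, by decide +kernel, by decide +kernel, by decide +kernel, by decide +kernel, by decide +kernel⟩

def t37223 : allY (E.wth T1) l37223 = true ∧
    allY (E.wth T1) l37224 = true ∧
    allY (E.wth T1) l37225 = true ∧
    allY (E.wth T1) l37226 = true ∧
    allY (E.wth T1) l37227 = true ∧
    allY (E.wth T1) l37228 = true ∧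
    allY (E.wth T1) l37229 = true ∧
    allY (E.wth T1) l37230 = true :=
  ⟨by decide +kernel, by decide +kernel, by decide +kernel, by decide +kernel, by decide +kernel, by decide +kernel, by decide +kernel, by decide +kernel⟩

def t37231 : allY (E.wth T1) l37231 = true ∧
    allY (E.wth T1) l37232 = true ∧
    allY (E.wth T1) l37233 = true ∧
    allY (E.wth T1) l37234 = true ∧
    allY (E.wth T1) l37235 = true ∧
    allY (E.wth T1) l37236 = true ∧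
    allY (E.wth T1) l37237 = true ∧
    allY (E.wth T1) l37238 = true :=
  ⟨by decide +kernel, by decide +kernel, by decide +kernel, by decide +kernel, by decide +kernel, by decide +kernel, by decide +kernel, by decide +kernel⟩

def t37239 : allY (E.wth T1) l37239 = true ∧
    allY (E.wth T1) l37240 = true ∧
    allY (E.wth T1) l37241 = true ∧
    allY (E.wth T1) l37242 = true ∧
    allY (E.wth T1) l37243 = true ∧
    allY (E.wth T1) l37244 = true ∧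
    allY (E.wth T1) l37245 = true ∧
    allY (E.wth T1) l37246 = true :=
  ⟨by decide +kernel, by decide +kernel, by decide +kernel, by decide +kernel, by decide +kernel, by decide +kernel, by decide +kernel, by decide +kernel⟩

def t37247 : allY (E.wth T1) l37247 = true ∧
    allY (E.wth T1) l37248 = true ∧
    allY (E.wth T1) l37249 = true ∧
    allY (E.wth T1) l37250 = true ∧
    allY (E.wth T1) l37251 = true ∧
    allY (E.wth T1) l37252 = true ∧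
    allY (E.wth T1) l37253 = true ∧
    allY (E.wth T1) l37254 = true :=
  ⟨by decide +kernel, by decide +kernel, by decide +kernel, by decide +kernel, by decide +kernel, by decide +kernel, by decide +kernel, by decide +kernel⟩

def t37255 : allY (E.wth T1) l37255 = true ∧
    allY (E.wth T1) l37256 = true ∧
    allY (E.wth T1) l37257 = true ∧
    allY (E.wth T1) l37258 = true ∧
    allY (E.wth T1) l37259 = true ∧
    allY (E.wth T1) l37260 = true ∧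
    allY (E.wth T1) l37261 = true ∧
    allY (E.wth T1) l37262 = true :=
  ⟨by decide +kernel, by decide +kernel, by decide +kernel, by decide +kernel, by decide +kernel, by decide +kernel, by decide +kernel, by decide +kernel⟩

def t37263 : allY (E.wth T1) l37263 = true ∧
    allY (E.wth T1) l37264 = true ∧
    allY (E.wth T1) l37265 = true ∧
    allY (E.wth T1) l37266 = true ∧
    allY (E.wth T1) l37267 = true ∧
    allY (E.wth T1) l37268 = true ∧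
    allY (E.wth T1) l37269 = true ∧
    allY (E.wth T1) l37270 = true :=
  ⟨by decide +kernel, by decide +kernel, by decide +kernel, by decide +kernel, by decide +kernel, by decide +kernel, by decide +kernel, by decide +kernel⟩

def t37271 : allY (E.wth T1) l37271 = true ∧
    allY (E.wth T1) l37272 = true ∧
    allY (E.wth T1) l37273 = true ∧
    allY (E.wth T1) l37274 = true ∧
    allY (E.wth T1) l37275 = true ∧
    allY (E.wth T1) l37276 = true ∧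
    allY (E.wth T1) l37277 = true ∧
    allY (E.wth T1) l37278 = true :=
  ⟨by decide +kernel, by decide +kernel, by decide +kernel, by decide +kernel, by decide +kernel, by decide +kernel, by decide +kernel, by decide +kernel⟩

def t37279 : allY (E.wth T1) l37279 = true ∧
    allY (E.wth T1) l37280 = true ∧
    allY (E.wth T1) l37281 = true ∧
    allY (E.wth T1) l37282 = true ∧
    allY (E.wth T1) l37283 = true ∧
    allY (E.wth T1) l37284 = true ∧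
    allY (E.wth T1) l37285 = true ∧
    allY (E.wth T1) l37286 = true :=
  ⟨by decide +kernel, by decide +kernel, by decide +kernel, by decide +kernel, by decide +kernel, by decide +kernel, by decide +kernel, by decide +kernel⟩

def t37287 : allY (E.wth T1) l37287 = true ∧
    allY (E.wth T1) l37288 = true ∧
    allY (E.wth T1) l37289 = true ∧
    allY (E.wth T1) l37290 = true ∧
    allY (E.wth T1) l37291 = true ∧
    allY (E.wth T1) l37292 = true ∧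
    allY (E.wth T1) l37293 = true ∧
    allY (E.wth T1) l37294 = true :=
  ⟨by decide +kernel, by decide +kernel, by decide +kernel, by decide +kernel, by decide +kernel, by decide +kernel, by decide +kernel, by decide +kernel⟩

def t37295 : allY (E.wth T1) l37295 = true ∧
    allY (E.wth T1) l37296 = true ∧
    allY (E.wth T1) l37297 = true ∧
    allY (E.wth T1) l37298 = true ∧
    allY (E.wth T1) l37299 = true ∧
    allY (E.wth T1) l37300 = true ∧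
    allY (E.wth T1) l37301 = true ∧
    allY (E.wth T1) l37302 = true :=
  ⟨by decide +kernel, by decide +kernel, by decide +kernel, by decide +kernel, by decide +kernel, by decide +kernel, by decide +kernel, by decide +kernel⟩

def t37303 : allY (E.wth T1) l37303 = true ∧
    allY (E.wth T1) l37304 = true ∧
    allY (E.wth T1) l37305 = true ∧
    allY (E.wth T1) l37306 = true ∧
    allY (E.wth T1) l37307 = true ∧
    allY (E.wth T1) l37308 = true ∧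
    allY (E.wth T1) l37309 = true ∧
    allY (E.wth T1) l37310 = true :=
  ⟨by decide +kernel, by decide +kernel, by decide +kernel, by decide +kernel, by decide +kernel, by decide +kernel, by decide +kernel, by decide +kernel⟩

def t37311 : allY (E.wth T1) l37311 = true ∧
    allY (E.wth T1) l37312 = true ∧
    allY (E.wth T1) l37313 = true ∧
    allY (E.wth T1) l37314 = true ∧
    allY (E.wth T1) l37315 = true ∧
    allY (E.wth T1) l37316 = true ∧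
    allY (E.wth T1) l37317 = true ∧
    allY (E.wth T1) l37318 = true :=
  ⟨by decide +kernel, by decide +kernel, by decide +kernel, by decide +kernel, by decide +kernel, by decide +kernel, by decide +kernel, by decide +kernel⟩

def t37319 : allY (E.wth T1) l37319 = true ∧
    allY (E.wth T1) l37320 = true ∧
    allY (E.wth T1) l37321 = true ∧
    allY (E.wth T1) l37322 = true ∧
    allY (E.wth T1) l37323 = true ∧
    allY (E.wth T1) l37324 = true ∧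
    allY (E.wth T1) l37325 = true ∧
    allY (E.wth T1) l37326 = true :=
  ⟨by decide +kernel, by decide +kernel, by decide +kernel, by decide +kernel, by decide +kernel, by decide +kernel, by decide +kernel, by decide +kernel⟩

def t37327 : allY (E.wth T1) l37327 = true ∧
    allY (E.wth T1) l37328 = true ∧
    allY (E.wth T1) l37329 = true ∧
    allY (E.wth T1) l37330 = true ∧
    allY (E.wth T1) l37331 = true ∧
    allY (E.wth T1) l37332 = true ∧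
    allY (E.wth T1) l37333 = true ∧
    allY (E.wth T1) l37334 = true :=
  ⟨by decide +kernel, by decide +kernel, by decide +kernel, by decide +kernel, by decide +kernel, by decide +kernel, by decide +kernel, by decide +kernel⟩

def t37335 : allY (E.wth T1) l37335 = true ∧
    allY (E.wth T1) l37336 = true ∧
    allY (E.wth T1) l37337 = true ∧
    allY (E.wth T1) l37338 = true ∧
    allY (E.wth T1) l37339 = true ∧
    allY (E.wth T1) l37340 = true ∧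
    allY (E.wth T1) l37341 = true ∧
    allY (E.wth T1) l37342 = true :=
  ⟨by decide +kernel, by decide +kernel, by decide +kernel, by decide +kernel, by decide +kernel, by decide +kernel, by decide +kernel, by decide +kernel⟩

def t37343 : allY (E.wth T1) l37343 = true ∧
    allY (E.wth T1) l37344 = true ∧
    allY (E.wth T1) l37345 = true ∧
    allY (E.wth T1) l37346 = true ∧
    allY (E.wth T1) l37347 = true ∧
    allY (E.wth T1) l37348 = true ∧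
    allY (E.wth T1) l37349 = true ∧
    allY (E.wth T1) l37350 = true :=
  ⟨by decide +kernel, by decide +kernel, by decide +kernel, by decide +kernel, by decide +kernel, by decide +kernel, by decide +kernel, by decide +kernel⟩

def t37351 : allY (E.wth T1) l37351 = true ∧
    allY (E.wth T1) l37352 = true ∧
    allY (E.wth T1) l37353 = true ∧
    allY (E.wth T1) l37354 = true ∧
    allY (E.wth T1) l37355 = true ∧
    allY (E.wth T1) l37356 = true ∧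
    allY (E.wth T1) l37357 = true ∧
    allY (E.wth T1) l37358 = true :=
  ⟨by decide +kernel, by decide +kernel, by decide +kernel, by decide +kernel, by decide +kernel, by decide +kernel, by decide +kernel, by decide +kernel⟩

def t37359 : allY (E.wth T1) l37359 = true ∧
    allY (E.wth T1) l37360 = true ∧
    allY (E.wth T1) l37361 = true ∧
    allY (E.wth T1) l37362 = true ∧
    allY (E.wth T1) l37363 = true ∧
    allY (E.wth T1) l37364 = true ∧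
    allY (E.wth T1) l37365 = true ∧
    allY (E.wth T1) l37366 = true :=
  ⟨by decide +kernel, by decide +kernel, by decide +kernel, by decide +kernel, by decide +kernel, by decide +kernel, by decide +kernel, by decide +kernel⟩

def t37367 : allY (E.wth T1) l37367 = true ∧
    allY (E.wth T1) l37368 = true ∧
    allY (E.wth T1) l37369 = true ∧
    allY (E.wth T1) l37370 = true ∧
    allY (E.wth T1) l37371 = true ∧
    allY (E.wth T1) l37372 = true ∧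
    allY (E.wth T1) l37373 = true ∧
    allY (E.wth T1) l37374 = true :=
  ⟨by decide +kernel, by decide +kernel, by decide +kernel, by decide +kernel, by decide +kernel, by decide +kernel, by decide +kernel, by decide +kernel⟩

def t37375 : allY (E.wth T1) l37375 = true ∧
    allY (E.wth T1) l37376 = true ∧
    allY (E.wth T1) l37377 = true ∧
    allY (E.wth T1) l37378 = true ∧
    allY (E.wth T1) l37379 = true ∧
    allY (E.wth T1) l37380 = true ∧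
    allY (E.wth T1) l37381 = true ∧
    allY (E.wth T1) l37382 = true :=
  ⟨by decide +kernel, by decide +kernel, by decide +kernel, by decide +kernel, by decide +kernel, by decide +kernel, by decide +kernel, by decide +kernel⟩

def t37383 : allY (E.wth T1) l37383 = true ∧
    allY (E.wth T1) l37384 = true ∧
    allY (E.wth T1) l37385 = true ∧
    allY (E.wth T1) l37386 = true ∧
    allY (E.wth T1) l37387 = true ∧
    allY (E.wth T1) l37388 = true ∧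
    allY (E.wth T1) l37389 = true ∧
    allY (E.wth T1) l37390 = true :=
  ⟨by decide +kernel, by decide +kernel, by decide +kernel, by decide +kernel, by decide +kernel, by decide +kernel, by decide +kernel, by decide +kernel⟩

def t37391 : allY (E.wth T1) l37391 = true ∧
    allY (E.wth T1) l37392 = true ∧
    allY (E.wth T1) l37393 = true ∧
    allY (E.wth T1) l37394 = true ∧
    allY (E.wth T1) l37395 = true ∧
    allY (E.wth T1) l37396 = true ∧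
    allY (E.wth T1) l37397 = true ∧
    allY (E.wth T1) l37398 = true :=
  ⟨by decide +kernel, by decide +kernel, by decide +kernel, by decide +kernel, by decide +kernel, by decide +kernel, by decide +kernel, by decide +kernel⟩

def t37399 : allY (E.wth T1) l37399 = true ∧
    allY (E.wth T1) l37400 = true ∧
    allY (E.wth T1) l37401 = true ∧
    allY (E.wth T1) l37402 = true ∧
    allY (E.wth T1) l37403 = true ∧
    allY (E.wth T1) l37404 = true ∧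
    allY (E.wth T1) l37405 = true ∧
    allY (E.wth T1) l37406 = true :=
  ⟨by decide +kernel, by decide +kernel, by decide +kernel, by decide +kernel, by decide +kernel, by decide +kernel, by decide +kernel, by decide +kernel⟩

def t37407 : allY (E.wth T1) l37407 = true ∧
    allY (E.wth T1) l37408 = true ∧
    allY (E.wth T1) l37409 = true ∧
    allY (E.wth T1) l37410 = true ∧
    allY (E.wth T1) l37411 = true ∧
    allY (E.wth T1) l37412 = true ∧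
    allY (E.wth T1) l37413 = true ∧
    allY (E.wth T1) l37414 = true :=
  ⟨by decide +kernel, by decide +kernel, by decide +kernel, by decide +kernel, by decide +kernel, by decide +kernel, by decide +kernel, by decide +kernel⟩

def t37415 : allY (E.wth T1) l37415 = true ∧
    allY (E.wth T1) l37416 = true ∧
    allY (E.wth T1) l37417 = true ∧
    allY (E.wth T1) l37418 = true ∧
    allY (E.wth T1) l37419 = true ∧
    allY (E.wth T1) l37420 = true ∧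
    allY (E.wth T1) l37421 = true ∧
    allY (E.wth T1) l37422 = true :=
  ⟨by decide +kernel, by decide +kernel, by decide +kernel, by decide +kernel, by decide +kernel, by decide +kernel, by decide +kernel, by decide +kernel⟩

def t37423 : allY (E.wth T1) l37423 = true ∧
    allY (E.wth T1) l37424 = true ∧
    allY (E.wth T1) l37425 = true ∧
    allY (E.wth T1) l37426 = true ∧
    allY (E.wth T1) l37427 = true ∧
    allY (E.wth T1) l37428 = true ∧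
    allY (E.wth T1) l37429 = true ∧
    allY (E.wth T1) l37430 = true :=
  ⟨by decide +kernel, by decide +kernel, by decide +kernel, by decide +kernel, by decide +kernel, by decide +kernel, by decide +kernel, by decide +kernel⟩

def t37431 : allY (E.wth T1) l37431 = true ∧
    allY (E.wth T1) l37432 = true ∧
    allY (E.wth T1) l37433 = true ∧
    allY (E.wth T1) l37434 = true ∧
    allY (E.wth T1) l37435 = true ∧
    allY (E.wth T1) l37436 = true ∧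
    allY (E.wth T1) l37437 = true ∧
    allY (E.wth T1) l37438 = true :=
  ⟨by decide +kernel, by decide +kernel, by decide +kernel, by decide +kernel, by decide +kernel, by decide +kernel, by decide +kernel, by decide +kernel⟩

def t37439 : allY (E.wth T1) l37439 = true ∧
    allY (E.wth T1) l37440 = true ∧
    allY (E.wth T1) l37441 = true ∧
    allY (E.wth T1) l37442 = true ∧
    allY (E.wth T1) l37443 = true ∧
    allY (E.wth T1) l37444 = true ∧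
    allY (E.wth T1) l37445 = true ∧
    allY (E.wth T1) l37446 = true :=
  ⟨by decide +kernel, by decide +kernel, by decide +kernel, by decide +kernel, by decide +kernel, by decide +kernel, by decide +kernel, by decide +kernel⟩

def t37447 : allY (E.wth T1) l37447 = true ∧
    allY (E.wth T1) l37448 = true ∧
    allY (E.wth T1) l37449 = true ∧
    allY (E.wth T1) l37450 = true ∧
    allY (E.wth T1) l37451 = true ∧
    allY (E.wth T1) l37452 = true ∧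
    allY (E.wth T1) l37453 = true ∧
    allY (E.wth T1) l37454 = true :=
  ⟨by decide +kernel, by decide +kernel, by decide +kernel, by decide +kernel, by decide +kernel, by decide +kernel, by decide +kernel, by decide +kernel⟩

def t37455 : allY (E.wth T1) l37455 = true ∧
    allY (E.wth T1) l37456 = true ∧
    allY (E.wth T1) l37457 = true ∧
    allY (E.wth T1) l37458 = true ∧
    allY (E.wth T1) l37459 = true ∧
    allY (E.wth T1) l37460 = true ∧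
    allY (E.wth T1) l37461 = true ∧
    allY (E.wth T1) l37462 = true :=
  ⟨by decide +kernel, by decide +kernel, by decide +kernel, by decide +kernel, by decide +kernel, by decide +kernel, by decide +kernel, by decide +kernel⟩

def t37463 : allY (E.wth T1) l37463 = true ∧
    allY (E.wth T1) l37464 = true ∧
    allY (E.wth T1) l37465 = true ∧
    allY (E.wth T1) l37466 = true ∧
    allY (E.wth T1) l37467 = true ∧
    allY (E.wth T1) l37468 = true ∧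
    allY (E.wth T1) l37469 = true ∧
    allY (E.wth T1) l37470 = true :=
  ⟨by decide +kernel, by decide +kernel, by decide +kernel, by decide +kernel, by decide +kernel, by decide +kernel, by decide +kernel, by decide +kernel⟩

def t37471 : allY (E.wth T1) l37471 = true ∧
    allY (E.wth T1) l37472 = true ∧
    allY (E.wth T1) l37473 = true ∧
    allY (E.wth T1) l37474 = true ∧
    allY (E.wth T1) l37475 = true ∧
    allY (E.wth T1) l37476 = true ∧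
    allY (E.wth T1) l37477 = true ∧
    allY (E.wth T1) l37478 = true :=
  ⟨by decide +kernel, by decide +kernel, by decide +kernel, by decide +kernel, by decide +kernel, by decide +kernel, by decide +kernel, by decide +kernel⟩

def t37479 : allY (E.wth T1) l37479 = true ∧
    allY (E.wth T1) l37480 = true ∧
    allY (E.wth T1) l37481 = true ∧
    allY (E.wth T1) l37482 = true ∧
    allY (E.wth T1) l37483 = true ∧
    allY (E.wth T1) l37484 = true ∧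
    allY (E.wth T1) l37485 = true ∧
    allY (E.wth T1) l37486 = true :=
  ⟨by decide +kernel, by decide +kernel, by decide +kernel, by decide +kernel, by decide +kernel, by decide +kernel, by decide +kernel, by decide +kernel⟩

def t37487 : allY (E.wth T1) l37487 = true ∧
    allY (E.wth T1) l37488 = true ∧
    allY (E.wth T1) l37489 = true ∧
    allY (E.wth T1) l37490 = true ∧
    allY (E.wth T1) l37491 = true ∧
    allY (E.wth T1) l37492 = true ∧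
    allY (E.wth T1) l37493 = true ∧
    allY (E.wth T1) l37494 = true :=
  ⟨by decide +kernel, by decide +kernel, by decide +kernel, by decide +kernel, by decide +kernel, by decide +kernel, by decide +kernel, by decide +kernel⟩

def t37495 : allY (E.wth T1) l37495 = true ∧
    allY (E.wth T1) l37496 = true ∧
    allY (E.wth T1) l37497 = true ∧
    allY (E.wth T1) l37498 = true ∧
    allY (E.wth T1) l37499 = true ∧
    allY (E.wth T1) l37500 = true ∧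
    allY (E.wth T1) l37501 = true ∧
    allY (E.wth T1) l37502 = true :=
  ⟨by decide +kernel, by decide +kernel, by decide +kernel, by decide +kernel, by decide +kernel, by decide +kernel, by decide +kernel, by decide +kernel⟩

def t37503 : allY (E.wth T1) l37503 = true ∧
    allY (E.wth T1) l37504 = true ∧
    allY (E.wth T1) l37505 = true ∧
    allY (E.wth T1) l37506 = true ∧
    allY (E.wth T1) l37507 = true ∧
    allY (E.wth T1) l37508 = true ∧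
    allY (E.wth T1) l37509 = true ∧
    allY (E.wth T1) l37510 = true :=
  ⟨by decide +kernel, by decide +kernel, by decide +kernel, by decide +kernel, by decide +kernel, by decide +kernel, by decide +kernel, by decide +kernel⟩

def t37511 : allY (E.wth T1) l37511 = true ∧
    allY (E.wth T1) l37512 = true ∧
    allY (E.wth T1) l37513 = true ∧
    allY (E.wth T1) l37514 = true ∧
    allY (E.wth T1) l37515 = true ∧
    allY (E.wth T1) l37516 = true ∧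
    allY (E.wth T1) l37517 = true ∧
    allY (E.wth T1) l37518 = true :=
  ⟨by decide +kernel, by decide +kernel, by decide +kernel, by decide +kernel, by decide +kernel, by decide +kernel, by decide +kernel, by decide +kernel⟩

def t37519 : allY (E.wth T1) l37519 = true ∧
    allY (E.wth T1) l37520 = true ∧
    allY (E.wth T1) l37521 = true ∧
    allY (E.wth T1) l37522 = true ∧
    allY (E.wth T1) l37523 = true ∧
    allY (E.wth T1) l37524 = true ∧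
    allY (E.wth T1) l37525 = true ∧
    allY (E.wth T1) l37526 = true :=
  ⟨by decide +kernel, by decide +kernel, by decide +kernel, by decide +kernel, by decide +kernel, by decide +kernel, by decide +kernel, by decide +kernel⟩

def t37527 : allY (E.wth T1) l37527 = true ∧
    allY (E.wth T1) l37528 = true ∧
    allY (E.wth T1) l37529 = true ∧
    allY (E.wth T1) l37530 = true ∧
    allY (E.wth T1) l37531 = true ∧
    allY (E.wth T1) l37532 = true ∧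
    allY (E.wth T1) l37533 = true ∧
    allY (E.wth T1) l37534 = true :=
  ⟨by decide +kernel, by decide +kernel, by decide +kernel, by decide +kernel, by decide +kernel, by decide +kernel, by decide +kernel, by decide +kernel⟩

def t37535 : allY (E.wth T1) l37535 = true ∧
    allY (E.wth T1) l37536 = true ∧
    allY (E.wth T1) l37537 = true ∧
    allY (E.wth T1) l37538 = true ∧
    allY (E.wth T1) l37539 = true ∧
    allY (E.wth T1) l37540 = true ∧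
    allY (E.wth T1) l37541 = true ∧
    allY (E.wth T1) l37542 = true :=
  ⟨by decide +kernel, by decide +kernel, by decide +kernel, by decide +kernel, by decide +kernel, by decide +kernel, by decide +kernel, by decide +kernel⟩

def t37543 : allY (E.wth T1) l37543 = true ∧
    allY (E.wth T1) l37544 = true ∧
    allY (E.wth T1) l37545 = true ∧
    allY (E.wth T1) l37546 = true ∧
    allY (E.wth T1) l37547 = true ∧
    allY (E.wth T1) l37548 = true ∧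
    allY (E.wth T1) l37549 = true ∧
    allY (E.wth T1) l37550 = true :=
  ⟨by decide +kernel, by decide +kernel, by decide +kernel, by decide +kernel, by decide +kernel, by decide +kernel, by decide +kernel, by decide +kernel⟩

def t37551 : allY (E.wth T1) l37551 = true ∧
    allY (E.wth T1) l37552 = true ∧
    allY (E.wth T1) l37553 = true ∧
    allY (E.wth T1) l37554 = true ∧
    allY (E.wth T1) l37555 = true ∧
    allY (E.wth T1) l37556 = true ∧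
    allY (E.wth T1) l37557 = true ∧
    allY (E.wth T1) l37558 = true :=
  ⟨by decide +kernel, by decide +kernel, by decide +kernel, by decide +kernel, by decide +kernel, by decide +kernel, by decide +kernel, by decide +kernel⟩

def t37559 : allY (E.wth T1) l37559 = true ∧
    allY (E.wth T1) l37560 = true ∧
    allY (E.wth T1) l37561 = true ∧
    allY (E.wth T1) l37562 = true ∧
    allY (E.wth T1) l37563 = true ∧
    allY (E.wth T1) l37564 = true ∧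
    allY (E.wth T1) l37565 = true ∧
    allY (E.wth T1) l37566 = true :=
  ⟨by decide +kernel, by decide +kernel, by decide +kernel, by decide +kernel, by decide +kernel, by decide +kernel, by decide +kernel, by decide +kernel⟩

def t37567 : allY (E.wth T1) l37567 = true ∧
    allY (E.wth T1) l37568 = true ∧
    allY (E.wth T1) l37569 = true ∧
    allY (E.wth T1) l37570 = true ∧
    allY (E.wth T1) l37571 = true ∧
    allY (E.wth T1) l37572 = true ∧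
    allY (E.wth T1) l37573 = true ∧
    allY (E.wth T1) l37574 = true :=
  ⟨by decide +kernel, by decide +kernel, by decide +kernel, by decide +kernel, by decide +kernel, by decide +kernel, by decide +kernel, by decide +kernel⟩

def t37575 : allY (E.wth T1) l37575 = true ∧
    allY (E.wth T1) l37576 = true ∧
    allY (E.wth T1) l37577 = true ∧
    allY (E.wth T1) l37578 = true ∧
    allY (E.wth T1) l37579 = true ∧
    allY (E.wth T1) l37580 = true ∧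
    allY (E.wth T1) l37581 = true ∧
    allY (E.wth T1) l37582 = true :=
  ⟨by decide +kernel, by decide +kernel, by decide +kernel, by decide +kernel, by decide +kernel, by decide +kernel, by decide +kernel, by decide +kernel⟩

def t37583 : allY (E.wth T1) l37583 = true ∧
    allY (E.wth T1) l37584 = true ∧
    allY (E.wth T1) l37585 = true ∧
    allY (E.wth T1) l37586 = true ∧
    allY (E.wth T1) l37587 = true ∧
    allY (E.wth T1) l37588 = true ∧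
    allY (E.wth T1) l37589 = true ∧
    allY (E.wth T1) l37590 = true :=
  ⟨by decide +kernel, by decide +kernel, by decide +kernel, by decide +kernel, by decide +kernel, by decide +kernel, by decide +kernel, by decide +kernel⟩

def t37591 : allY (E.wth T1) l37591 = true ∧
    allY (E.wth T1) l37592 = true :=
  ⟨by decide +kernel, by decide +kernel⟩

theorem a67 {p : Rf → Prop} (H : ∀ l, allY (E.wth T1) l = true → (lkp l).All p) :
    b67.All p := ⟨⟨⟨⟨⟨⟨⟨⟨⟨H _ t37039.1, H _ t37039.2.1⟩, ⟨H _ t37039.2.2.1, H _ t37039.2.2.2.1⟩⟩, ⟨⟨H _ t37039.2.2.2.2.1, H _ t37039.2.2.2.2.2.1⟩, ⟨H _ t37039.2.2.2.2.2.2.1, H _ t37039.2.2.2.2.2.2.2⟩⟩⟩, ⟨⟨⟨H _ t37047.1, H _ t37047.2.1⟩, ⟨H _ t37047.2.2.1, H _ t37047.2.2.2.1⟩⟩, ⟨⟨H _ t37047.2.2.2.2.1, H _ t37047.2.2.2.2.2.1⟩, ⟨H _ t37047.2.2.2.2.2.2.1, ⟨H _ t37047.2.2.2.2.2.2.2, H _ t37055.1⟩⟩⟩⟩⟩, ⟨⟨⟨⟨H _ t37055.2.1, H _ t37055.2.2.1⟩, ⟨H _ t37055.2.2.2.1, H _ t37055.2.2.2.2.1⟩⟩,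 ⟨⟨H _ t37055.2.2.2.2.2.1, H _ t37055.2.2.2.2.2.2.1⟩, ⟨H _ t37055.2.2.2.2.2.2.2, H _ t37063.1⟩⟩⟩, ⟨⟨⟨H _ t37063.2.1, H _ t37063.2.2.1⟩, ⟨H _ t37063.2.2.2.1, H _ t37063.2.2.2.2.1⟩⟩, ⟨⟨H _ t37063.2.2.2.2.2.1, H _ t37063.2.2.2.2.2.2.1⟩, ⟨H _ t37063.2.2.2.2.2.2.2, ⟨H _ t37071.1, H _ t37071.2.1⟩⟩⟩⟩⟩⟩, ⟨⟨⟨⟨⟨H _ t37071.2.2.1, H _ t37071.2.2.2.1⟩, ⟨H _ t37071.2.2.2.2.1, H _ t37071.2.2.2.2.2.1⟩⟩, ⟨⟨H _ t37071.2.2.2.2.2.2.1, H _ t37071.2.2.2.2.2.2.2⟩, ⟨H _ t37079.1, H _ t37079.2.1⟩⟩⟩, ⟨⟨⟨H _ t37079.2.2.1, H _ t37079.2.2.2.1⟩, ⟨H _ t37079.2.2.2.2.1, H _ t37079.2.2.2.2.2.1⟩⟩, ⟨⟨H _ t37079.2.2.2.2.2.2.1, H _ t37079.2.2.2.2.2.2.2⟩, ⟨H _ t37087.1, ⟨H _ t37087.2.1, H _ t37087.2.2.1⟩⟩⟩⟩⟩, ⟨⟨⟨⟨H _ t37087.2.2.2.1, H _ t37087.2.2.2.2.1⟩, ⟨H _ t37087.2.2.2.2.2.1, H _ t37087.2.2.2.2.2.2.1⟩⟩, ⟨⟨H _ t37087.2.2.2.2.2.2.2, H _ t37095.1⟩, ⟨H _ t37095.2.1, ⟨H _ t37095.2.2.1, H _ t37095.2.2.2.1⟩⟩⟩⟩, ⟨⟨⟨H _ t37095.2.2.2.2.1,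 H _ t37095.2.2.2.2.2.1⟩, ⟨H _ t37095.2.2.2.2.2.2.1, H _ t37095.2.2.2.2.2.2.2⟩⟩, ⟨⟨H _ t37103.1, H _ t37103.2.1⟩, ⟨H _ t37103.2.2.1, ⟨H _ t37103.2.2.2.1, H _ t37103.2.2.2.2.1⟩⟩⟩⟩⟩⟩⟩, ⟨⟨⟨⟨⟨⟨H _ t37103.2.2.2.2.2.1, H _ t37103.2.2.2.2.2.2.1⟩, ⟨H _ t37103.2.2.2.2.2.2.2, H _ t37111.1⟩⟩, ⟨⟨H _ t37111.2.1, H _ t37111.2.2.1⟩, ⟨H _ t37111.2.2.2.1, H _ t37111.2.2.2.2.1⟩⟩⟩, ⟨⟨⟨H _ t37111.2.2.2.2.2.1, H _ t37111.2.2.2.2.2.2.1⟩, ⟨H _ t37111.2.2.2.2.2.2.2, H _ t37119.1⟩⟩, ⟨⟨H _ t37119.2.1, H _ t37119.2.2.1⟩, ⟨H _ t37119.2.2.2.1, ⟨H _ t37119.2.2.2.2.1, H _ t37119.2.2.2.2.2.1⟩⟩⟩⟩⟩, ⟨⟨⟨⟨H _ t37119.2.2.2.2.2.2.1, H _ t37119.2.2.2.2.2.2.2⟩, ⟨H _ t37127.1, H _ t37127.2.1⟩⟩, ⟨⟨H _ t37127.2.2.1, H _ t37127.2.2.2.1⟩, ⟨H _ t37127.2.2.2.2.1, H _ t37127.2.2.2.2.2.1⟩⟩⟩, ⟨⟨⟨H _ t37127.2.2.2.2.2.2.1, H _ t37127.2.2.2.2.2.2.2⟩, ⟨H _ t37135.1, H _ t37135.2.1⟩⟩, ⟨⟨H _ t37135.2.2.1, H _ t37135.2.2.2.1⟩, ⟨H _ t37135.2.2.2.2.1,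 ⟨H _ t37135.2.2.2.2.2.1, H _ t37135.2.2.2.2.2.2.1⟩⟩⟩⟩⟩⟩, ⟨⟨⟨⟨⟨H _ t37135.2.2.2.2.2.2.2, H _ t37143.1⟩, ⟨H _ t37143.2.1, H _ t37143.2.2.1⟩⟩, ⟨⟨H _ t37143.2.2.2.1, H _ t37143.2.2.2.2.1⟩, ⟨H _ t37143.2.2.2.2.2.1, H _ t37143.2.2.2.2.2.2.1⟩⟩⟩, ⟨⟨⟨H _ t37143.2.2.2.2.2.2.2, H _ t37151.1⟩, ⟨H _ t37151.2.1, H _ t37151.2.2.1⟩⟩, ⟨⟨H _ t37151.2.2.2.1, H _ t37151.2.2.2.2.1⟩, ⟨H _ t37151.2.2.2.2.2.1, ⟨H _ t37151.2.2.2.2.2.2.1, H _ t37151.2.2.2.2.2.2.2⟩⟩⟩⟩⟩, ⟨⟨⟨⟨H _ t37159.1, H _ t37159.2.1⟩, ⟨H _ t37159.2.2.1, H _ t37159.2.2.2.1⟩⟩, ⟨⟨H _ t37159.2.2.2.2.1, H _ t37159.2.2.2.2.2.1⟩, ⟨H _ t37159.2.2.2.2.2.2.1, ⟨H _ t37159.2.2.2.2.2.2.2, H _ t37167.1⟩⟩⟩⟩, ⟨⟨⟨H _ t37167.2.1, H _ t37167.2.2.1⟩, ⟨H _ t37167.2.2.2.1, H _ t37167.2.2.2.2.1⟩⟩, ⟨⟨H _ t37167.2.2.2.2.2.1, H _ t37167.2.2.2.2.2.2.1⟩, ⟨H _ t37167.2.2.2.2.2.2.2, ⟨H _ t37175.1, H _ t37175.2.1⟩⟩⟩⟩⟩⟩⟩⟩, ⟨⟨⟨⟨⟨⟨⟨H _ t37175.2.2.1, H _ t37175.2.2.2.1⟩, ⟨H _ t37175.2.2.2.2.1,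 H _ t37175.2.2.2.2.2.1⟩⟩, ⟨⟨H _ t37175.2.2.2.2.2.2.1, H _ t37175.2.2.2.2.2.2.2⟩, ⟨H _ t37183.1, H _ t37183.2.1⟩⟩⟩, ⟨⟨⟨H _ t37183.2.2.1, H _ t37183.2.2.2.1⟩, ⟨H _ t37183.2.2.2.2.1, H _ t37183.2.2.2.2.2.1⟩⟩, ⟨⟨H _ t37183.2.2.2.2.2.2.1, H _ t37183.2.2.2.2.2.2.2⟩, ⟨H _ t37191.1, ⟨H _ t37191.2.1, H _ t37191.2.2.1⟩⟩⟩⟩⟩, ⟨⟨⟨⟨H _ t37191.2.2.2.1, H _ t37191.2.2.2.2.1⟩, ⟨H _ t37191.2.2.2.2.2.1, H _ t37191.2.2.2.2.2.2.1⟩⟩, ⟨⟨H _ t37191.2.2.2.2.2.2.2, H _ t37199.1⟩, ⟨H _ t37199.2.1, H _ t37199.2.2.1⟩⟩⟩, ⟨⟨⟨H _ t37199.2.2.2.1, H _ t37199.2.2.2.2.1⟩, ⟨H _ t37199.2.2.2.2.2.1, H _ t37199.2.2.2.2.2.2.1⟩⟩, ⟨⟨H _ t37199.2.2.2.2.2.2.2, H _ t37207.1⟩, ⟨H _ t37207.2.1, ⟨H _ t37207.2.2.1, H _ t37207.2.2.2.1⟩⟩⟩⟩⟩⟩, ⟨⟨⟨⟨⟨H _ t37207.2.2.2.2.1, H _ t37207.2.2.2.2.2.1⟩, ⟨H _ t37207.2.2.2.2.2.2.1, H _ t37207.2.2.2.2.2.2.2⟩⟩, ⟨⟨H _ t37215.1, H _ t37215.2.1⟩, ⟨H _ t37215.2.2.1, H _ t37215.2.2.2.1⟩⟩⟩, ⟨⟨⟨H _ t37215.2.2.2.2.1,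 H _ t37215.2.2.2.2.2.1⟩, ⟨H _ t37215.2.2.2.2.2.2.1, H _ t37215.2.2.2.2.2.2.2⟩⟩, ⟨⟨H _ t37223.1, H _ t37223.2.1⟩, ⟨H _ t37223.2.2.1, ⟨H _ t37223.2.2.2.1, H _ t37223.2.2.2.2.1⟩⟩⟩⟩⟩, ⟨⟨⟨⟨H _ t37223.2.2.2.2.2.1, H _ t37223.2.2.2.2.2.2.1⟩, ⟨H _ t37223.2.2.2.2.2.2.2, H _ t37231.1⟩⟩, ⟨⟨H _ t37231.2.1, H _ t37231.2.2.1⟩, ⟨H _ t37231.2.2.2.1, ⟨H _ t37231.2.2.2.2.1, H _ t37231.2.2.2.2.2.1⟩⟩⟩⟩, ⟨⟨⟨H _ t37231.2.2.2.2.2.2.1, H _ t37231.2.2.2.2.2.2.2⟩, ⟨H _ t37239.1, H _ t37239.2.1⟩⟩, ⟨⟨H _ t37239.2.2.1, H _ t37239.2.2.2.1⟩, ⟨H _ t37239.2.2.2.2.1, ⟨H _ t37239.2.2.2.2.2.1, H _ t37239.2.2.2.2.2.2.1⟩⟩⟩⟩⟩⟩⟩, ⟨⟨⟨⟨⟨⟨H _ t37239.2.2.2.2.2.2.2, H _ t37247.1⟩, ⟨H _ t37247.2.1, H _ t37247.2.2.1⟩⟩, ⟨⟨H _ t37247.2.2.2.1, H _ t37247.2.2.2.2.1⟩, ⟨H _ t37247.2.2.2.2.2.1, H _ t37247.2.2.2.2.2.2.1⟩⟩⟩, ⟨⟨⟨H _ t37247.2.2.2.2.2.2.2, H _ t37255.1⟩, ⟨H _ t37255.2.1, H _ t37255.2.2.1⟩⟩, ⟨⟨H _ t37255.2.2.2.1, H _ t37255.2.2.2.2.1⟩,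 ⟨H _ t37255.2.2.2.2.2.1, ⟨H _ t37255.2.2.2.2.2.2.1, H _ t37255.2.2.2.2.2.2.2⟩⟩⟩⟩⟩, ⟨⟨⟨⟨H _ t37263.1, H _ t37263.2.1⟩, ⟨H _ t37263.2.2.1, H _ t37263.2.2.2.1⟩⟩, ⟨⟨H _ t37263.2.2.2.2.1, H _ t37263.2.2.2.2.2.1⟩, ⟨H _ t37263.2.2.2.2.2.2.1, ⟨H _ t37263.2.2.2.2.2.2.2, H _ t37271.1⟩⟩⟩⟩, ⟨⟨⟨H _ t37271.2.1, H _ t37271.2.2.1⟩, ⟨H _ t37271.2.2.2.1, H _ t37271.2.2.2.2.1⟩⟩, ⟨⟨H _ t37271.2.2.2.2.2.1, H _ t37271.2.2.2.2.2.2.1⟩, ⟨H _ t37271.2.2.2.2.2.2.2, ⟨H _ t37279.1, H _ t37279.2.1⟩⟩⟩⟩⟩⟩, ⟨⟨⟨⟨⟨H _ t37279.2.2.1, H _ t37279.2.2.2.1⟩, ⟨H _ t37279.2.2.2.2.1, H _ t37279.2.2.2.2.2.1⟩⟩, ⟨⟨H _ t37279.2.2.2.2.2.2.1, H _ t37279.2.2.2.2.2.2.2⟩, ⟨H _ t37287.1, H _ t37287.2.1⟩⟩⟩, ⟨⟨⟨H _ t37287.2.2.1, H _ t37287.2.2.2.1⟩, ⟨H _ t37287.2.2.2.2.1, H _ t37287.2.2.2.2.2.1⟩⟩, ⟨⟨H _ t37287.2.2.2.2.2.2.1, H _ t37287.2.2.2.2.2.2.2⟩, ⟨H _ t37295.1, ⟨H _ t37295.2.1, H _ t37295.2.2.1⟩⟩⟩⟩⟩, ⟨⟨⟨⟨H _ t37295.2.2.2.1, H _ t37295.2.2.2.2.1⟩,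 ⟨H _ t37295.2.2.2.2.2.1, H _ t37295.2.2.2.2.2.2.1⟩⟩, ⟨⟨H _ t37295.2.2.2.2.2.2.2, H _ t37303.1⟩, ⟨H _ t37303.2.1, ⟨H _ t37303.2.2.1, H _ t37303.2.2.2.1⟩⟩⟩⟩, ⟨⟨⟨H _ t37303.2.2.2.2.1, H _ t37303.2.2.2.2.2.1⟩, ⟨H _ t37303.2.2.2.2.2.2.1, H _ t37303.2.2.2.2.2.2.2⟩⟩, ⟨⟨H _ t37311.1, H _ t37311.2.1⟩, ⟨H _ t37311.2.2.1, ⟨H _ t37311.2.2.2.1, H _ t37311.2.2.2.2.1⟩⟩⟩⟩⟩⟩⟩⟩⟩, ⟨⟨⟨⟨⟨⟨⟨⟨H _ t37311.2.2.2.2.2.1, H _ t37311.2.2.2.2.2.2.1⟩, ⟨H _ t37311.2.2.2.2.2.2.2, H _ t37319.1⟩⟩, ⟨⟨H _ t37319.2.1, H _ t37319.2.2.1⟩, ⟨H _ t37319.2.2.2.1, H _ t37319.2.2.2.2.1⟩⟩⟩, ⟨⟨⟨H _ t37319.2.2.2.2.2.1, H _ t37319.2.2.2.2.2.2.1⟩, ⟨H _ t37319.2.2.2.2.2.2.2, H _ t37327.1⟩⟩, ⟨⟨H _ t37327.2.1, H _ t37327.2.2.1⟩, ⟨H _ t37327.2.2.2.1, ⟨H _ t37327.2.2.2.2.1, H _ t37327.2.2.2.2.2.1⟩⟩⟩⟩⟩, ⟨⟨⟨⟨H _ t37327.2.2.2.2.2.2.1, H _ t37327.2.2.2.2.2.2.2⟩, ⟨H _ t37335.1, H _ t37335.2.1⟩⟩, ⟨⟨H _ t37335.2.2.1, H _ t37335.2.2.2.1⟩, ⟨H _ t37335.2.2.2.2.1,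 H _ t37335.2.2.2.2.2.1⟩⟩⟩, ⟨⟨⟨H _ t37335.2.2.2.2.2.2.1, H _ t37335.2.2.2.2.2.2.2⟩, ⟨H _ t37343.1, H _ t37343.2.1⟩⟩, ⟨⟨H _ t37343.2.2.1, H _ t37343.2.2.2.1⟩, ⟨H _ t37343.2.2.2.2.1, ⟨H _ t37343.2.2.2.2.2.1, H _ t37343.2.2.2.2.2.2.1⟩⟩⟩⟩⟩⟩, ⟨⟨⟨⟨⟨H _ t37343.2.2.2.2.2.2.2, H _ t37351.1⟩, ⟨H _ t37351.2.1, H _ t37351.2.2.1⟩⟩, ⟨⟨H _ t37351.2.2.2.1, H _ t37351.2.2.2.2.1⟩, ⟨H _ t37351.2.2.2.2.2.1, H _ t37351.2.2.2.2.2.2.1⟩⟩⟩, ⟨⟨⟨H _ t37351.2.2.2.2.2.2.2, H _ t37359.1⟩, ⟨H _ t37359.2.1, H _ t37359.2.2.1⟩⟩, ⟨⟨H _ t37359.2.2.2.1, H _ t37359.2.2.2.2.1⟩, ⟨H _ t37359.2.2.2.2.2.1, ⟨H _ t37359.2.2.2.2.2.2.1, H _ t37359.2.2.2.2.2.2.2⟩⟩⟩⟩⟩, ⟨⟨⟨⟨H _ t37367.1, H _ t37367.2.1⟩, ⟨H _ t37367.2.2.1, H _ t37367.2.2.2.1⟩⟩, ⟨⟨H _ t37367.2.2.2.2.1, H _ t37367.2.2.2.2.2.1⟩, ⟨H _ t37367.2.2.2.2.2.2.1, ⟨H _ t37367.2.2.2.2.2.2.2, H _ t37375.1⟩⟩⟩⟩, ⟨⟨⟨H _ t37375.2.1, H _ t37375.2.2.1⟩, ⟨H _ t37375.2.2.2.1, H _ t37375.2.2.2.2.1⟩⟩,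 ⟨⟨H _ t37375.2.2.2.2.2.1, H _ t37375.2.2.2.2.2.2.1⟩, ⟨H _ t37375.2.2.2.2.2.2.2, ⟨H _ t37383.1, H _ t37383.2.1⟩⟩⟩⟩⟩⟩⟩, ⟨⟨⟨⟨⟨⟨H _ t37383.2.2.1, H _ t37383.2.2.2.1⟩, ⟨H _ t37383.2.2.2.2.1, H _ t37383.2.2.2.2.2.1⟩⟩, ⟨⟨H _ t37383.2.2.2.2.2.2.1, H _ t37383.2.2.2.2.2.2.2⟩, ⟨H _ t37391.1, H _ t37391.2.1⟩⟩⟩, ⟨⟨⟨H _ t37391.2.2.1, H _ t37391.2.2.2.1⟩, ⟨H _ t37391.2.2.2.2.1, H _ t37391.2.2.2.2.2.1⟩⟩, ⟨⟨H _ t37391.2.2.2.2.2.2.1, H _ t37391.2.2.2.2.2.2.2⟩, ⟨H _ t37399.1, ⟨H _ t37399.2.1, H _ t37399.2.2.1⟩⟩⟩⟩⟩, ⟨⟨⟨⟨H _ t37399.2.2.2.1, H _ t37399.2.2.2.2.1⟩, ⟨H _ t37399.2.2.2.2.2.1, H _ t37399.2.2.2.2.2.2.1⟩⟩, ⟨⟨H _ t37399.2.2.2.2.2.2.2, H _ t37407.1⟩, ⟨H _ t37407.2.1, H _ t37407.2.2.1⟩⟩⟩, ⟨⟨⟨H _ t37407.2.2.2.1, H _ t37407.2.2.2.2.1⟩, ⟨H _ t37407.2.2.2.2.2.1, H _ t37407.2.2.2.2.2.2.1⟩⟩, ⟨⟨H _ t37407.2.2.2.2.2.2.2, H _ t37415.1⟩, ⟨H _ t37415.2.1, ⟨H _ t37415.2.2.1, H _ t37415.2.2.2.1⟩⟩⟩⟩⟩⟩, ⟨⟨⟨⟨⟨H _ t37415.2.2.2.2.1,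 H _ t37415.2.2.2.2.2.1⟩, ⟨H _ t37415.2.2.2.2.2.2.1, H _ t37415.2.2.2.2.2.2.2⟩⟩, ⟨⟨H _ t37423.1, H _ t37423.2.1⟩, ⟨H _ t37423.2.2.1, H _ t37423.2.2.2.1⟩⟩⟩, ⟨⟨⟨H _ t37423.2.2.2.2.1, H _ t37423.2.2.2.2.2.1⟩, ⟨H _ t37423.2.2.2.2.2.2.1, H _ t37423.2.2.2.2.2.2.2⟩⟩, ⟨⟨H _ t37431.1, H _ t37431.2.1⟩, ⟨H _ t37431.2.2.1, ⟨H _ t37431.2.2.2.1, H _ t37431.2.2.2.2.1⟩⟩⟩⟩⟩, ⟨⟨⟨⟨H _ t37431.2.2.2.2.2.1, H _ t37431.2.2.2.2.2.2.1⟩, ⟨H _ t37431.2.2.2.2.2.2.2, H _ t37439.1⟩⟩, ⟨⟨H _ t37439.2.1, H _ t37439.2.2.1⟩, ⟨H _ t37439.2.2.2.1, ⟨H _ t37439.2.2.2.2.1, H _ t37439.2.2.2.2.2.1⟩⟩⟩⟩, ⟨⟨⟨H _ t37439.2.2.2.2.2.2.1, H _ t37439.2.2.2.2.2.2.2⟩, ⟨H _ t37447.1, H _ t37447.2.1⟩⟩, ⟨⟨H _ t37447.2.2.1, H _ t37447.2.2.2.1⟩, ⟨H _ t37447.2.2.2.2.1, ⟨H _ t37447.2.2.2.2.2.1, H _ t37447.2.2.2.2.2.2.1⟩⟩⟩⟩⟩⟩⟩⟩, ⟨⟨⟨⟨⟨⟨⟨H _ t37447.2.2.2.2.2.2.2, H _ t37455.1⟩, ⟨H _ t37455.2.1, H _ t37455.2.2.1⟩⟩, ⟨⟨H _ t37455.2.2.2.1, H _ t37455.2.2.2.2.1⟩,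 ⟨H _ t37455.2.2.2.2.2.1, H _ t37455.2.2.2.2.2.2.1⟩⟩⟩, ⟨⟨⟨H _ t37455.2.2.2.2.2.2.2, H _ t37463.1⟩, ⟨H _ t37463.2.1, H _ t37463.2.2.1⟩⟩, ⟨⟨H _ t37463.2.2.2.1, H _ t37463.2.2.2.2.1⟩, ⟨H _ t37463.2.2.2.2.2.1, ⟨H _ t37463.2.2.2.2.2.2.1, H _ t37463.2.2.2.2.2.2.2⟩⟩⟩⟩⟩, ⟨⟨⟨⟨H _ t37471.1, H _ t37471.2.1⟩, ⟨H _ t37471.2.2.1, H _ t37471.2.2.2.1⟩⟩, ⟨⟨H _ t37471.2.2.2.2.1, H _ t37471.2.2.2.2.2.1⟩, ⟨H _ t37471.2.2.2.2.2.2.1, H _ t37471.2.2.2.2.2.2.2⟩⟩⟩, ⟨⟨⟨H _ t37479.1, H _ t37479.2.1⟩, ⟨H _ t37479.2.2.1, H _ t37479.2.2.2.1⟩⟩, ⟨⟨H _ t37479.2.2.2.2.1, H _ t37479.2.2.2.2.2.1⟩, ⟨H _ t37479.2.2.2.2.2.2.1, ⟨H _ t37479.2.2.2.2.2.2.2, H _ t37487.1⟩⟩⟩⟩⟩⟩, ⟨⟨⟨⟨⟨H _ t37487.2.1, H _ t37487.2.2.1⟩, ⟨H _ t37487.2.2.2.1, H _ t37487.2.2.2.2.1⟩⟩, ⟨⟨H _ t37487.2.2.2.2.2.1, H _ t37487.2.2.2.2.2.2.1⟩, ⟨H _ t37487.2.2.2.2.2.2.2, H _ t37495.1⟩⟩⟩, ⟨⟨⟨H _ t37495.2.1, H _ t37495.2.2.1⟩, ⟨H _ t37495.2.2.2.1, H _ t37495.2.2.2.2.1⟩⟩,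 ⟨⟨H _ t37495.2.2.2.2.2.1, H _ t37495.2.2.2.2.2.2.1⟩, ⟨H _ t37495.2.2.2.2.2.2.2, ⟨H _ t37503.1, H _ t37503.2.1⟩⟩⟩⟩⟩, ⟨⟨⟨⟨H _ t37503.2.2.1, H _ t37503.2.2.2.1⟩, ⟨H _ t37503.2.2.2.2.1, H _ t37503.2.2.2.2.2.1⟩⟩, ⟨⟨H _ t37503.2.2.2.2.2.2.1, H _ t37503.2.2.2.2.2.2.2⟩, ⟨H _ t37511.1, ⟨H _ t37511.2.1, H _ t37511.2.2.1⟩⟩⟩⟩, ⟨⟨⟨H _ t37511.2.2.2.1, H _ t37511.2.2.2.2.1⟩, ⟨H _ t37511.2.2.2.2.2.1, H _ t37511.2.2.2.2.2.2.1⟩⟩, ⟨⟨H _ t37511.2.2.2.2.2.2.2, H _ t37519.1⟩, ⟨H _ t37519.2.1, ⟨H _ t37519.2.2.1, H _ t37519.2.2.2.1⟩⟩⟩⟩⟩⟩⟩, ⟨⟨⟨⟨⟨⟨H _ t37519.2.2.2.2.1, H _ t37519.2.2.2.2.2.1⟩, ⟨H _ t37519.2.2.2.2.2.2.1, H _ t37519.2.2.2.2.2.2.2⟩⟩, ⟨⟨H _ t37527.1, H _ t37527.2.1⟩, ⟨H _ t37527.2.2.1, H _ t37527.2.2.2.1⟩⟩⟩, ⟨⟨⟨H _ t37527.2.2.2.2.1, H _ t37527.2.2.2.2.2.1⟩, ⟨H _ t37527.2.2.2.2.2.2.1, H _ t37527.2.2.2.2.2.2.2⟩⟩, ⟨⟨H _ t37535.1, H _ t37535.2.1⟩, ⟨H _ t37535.2.2.1, ⟨H _ t37535.2.2.2.1, H _ t37535.2.2.2.2.1⟩⟩⟩⟩⟩,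 ⟨⟨⟨⟨H _ t37535.2.2.2.2.2.1, H _ t37535.2.2.2.2.2.2.1⟩, ⟨H _ t37535.2.2.2.2.2.2.2, H _ t37543.1⟩⟩, ⟨⟨H _ t37543.2.1, H _ t37543.2.2.1⟩, ⟨H _ t37543.2.2.2.1, ⟨H _ t37543.2.2.2.2.1, H _ t37543.2.2.2.2.2.1⟩⟩⟩⟩, ⟨⟨⟨H _ t37543.2.2.2.2.2.2.1, H _ t37543.2.2.2.2.2.2.2⟩, ⟨H _ t37551.1, H _ t37551.2.1⟩⟩, ⟨⟨H _ t37551.2.2.1, H _ t37551.2.2.2.1⟩, ⟨H _ t37551.2.2.2.2.1, ⟨H _ t37551.2.2.2.2.2.1, H _ t37551.2.2.2.2.2.2.1⟩⟩⟩⟩⟩⟩, ⟨⟨⟨⟨⟨H _ t37551.2.2.2.2.2.2.2, H _ t37559.1⟩, ⟨H _ t37559.2.1, H _ t37559.2.2.1⟩⟩, ⟨⟨H _ t37559.2.2.2.1, H _ t37559.2.2.2.2.1⟩, ⟨H _ t37559.2.2.2.2.2.1, H _ t37559.2.2.2.2.2.2.1⟩⟩⟩, ⟨⟨⟨H _ t37559.2.2.2.2.2.2.2, H _ t37567.1⟩, ⟨H _ t37567.2.1, H _ t37567.2.2.1⟩⟩, ⟨⟨H _ t37567.2.2.2.1, H _ t37567.2.2.2.2.1⟩, ⟨H _ t37567.2.2.2.2.2.1, ⟨H _ t37567.2.2.2.2.2.2.1, H _ t37567.2.2.2.2.2.2.2⟩⟩⟩⟩⟩, ⟨⟨⟨⟨H _ t37575.1, H _ t37575.2.1⟩, ⟨H _ t37575.2.2.1, H _ t37575.2.2.2.1⟩⟩, ⟨⟨H _ t37575.2.2.2.2.1,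 H _ t37575.2.2.2.2.2.1⟩, ⟨H _ t37575.2.2.2.2.2.2.1, ⟨H _ t37575.2.2.2.2.2.2.2, H _ t37583.1⟩⟩⟩⟩, ⟨⟨⟨H _ t37583.2.1, H _ t37583.2.2.1⟩, ⟨H _ t37583.2.2.2.1, H _ t37583.2.2.2.2.1⟩⟩, ⟨⟨H _ t37583.2.2.2.2.2.1, H _ t37583.2.2.2.2.2.2.1⟩, ⟨H _ t37583.2.2.2.2.2.2.2, ⟨H _ t37591.1, H _ t37591.2⟩⟩⟩⟩⟩⟩⟩⟩⟩⟩

end Pool.Agent.MP_c853c5_nt.X.C4950
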