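import Pool.Agent.MP_c853c5_nt.X.C4950.Env
import Pool.Agent.MP_c853c5_nt.X.C4950.Tab

set_option autoImplicit false
set_option maxRecDepth 8192
set_option linter.all false

namespace Pool.Agent.MP_c853c5_nt.X.C4950

open Pool.Agent.MP_c853c5_nt.X

def t37593 : allY (E.wth T1) l37593 = true ∧
    allY (E.wth T1) l37594 = true ∧
    allY (E.wth T1) l37595 = true ∧
    allY (E.wth T1) l37596 = true ∧
    allY (E.wth T1) l37597 = true ∧
    allY (E.wth T1) l37598 = true ∧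
    allY (E.wth T1) l37599 = true ∧
    allY (E.wth T1) l37600 = true :=
  ⟨by decide +kernel, by decide +kernel, by decide +kernel, by decide +kernel, by decide +kernel, by decide +kernel, by decide +kernel, by decide +kernel⟩

def t37601 : allY (E.wth T1) l37601 = true ∧
    allY (E.wth T1) l37602 = true ∧
    allY (E.wth T1) l37603 = true ∧
    allY (E.wth T1) l37604 = true ∧
    allY (E.wth T1) l37605 = true ∧
    allY (E.wth T1) l37606 = true ∧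
    allY (E.wth T1) l37607 = true ∧
    allY (E.wth T1) l37608 = true :=
  ⟨by decide +kernel, by decide +kernel, by decide +kernel, by decide +kernel, by decide +kernel, by decide +kernel, by decide +kernel, by decide +kernel⟩

def t37609 : allY (E.wth T1) l37609 = true ∧
    allY (E.wth T1) l37610 = true ∧
    allY (E.wth T1) l37611 = true ∧
    allY (E.wth T1) l37612 = true ∧
    allY (E.wth T1) l37613 = true ∧
    allY (E.wth T1) l37614 = true ∧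
    allY (E.wth T1) l37615 = true ∧
    allY (E.wth T1) l37616 = true :=
  ⟨by decide +kernel, by decide +kernel, by decide +kernel, by decide +kernel, by decide +kernel, by decide +kernel, by decide +kernel, by decide +kernel⟩

def t37617 : allY (E.wth T1) l37617 = true ∧
    allY (E.wth T1) l37618 = true ∧
    allY (E.wth T1) l37619 = true ∧
    allY (E.wth T1) l37620 = true ∧
    allY (E.wth T1) l37621 = true ∧
    allY (E.wth T1) l37622 = true ∧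
    allY (E.wth T1) l37623 = true ∧
    allY (E.wth T1) l37624 = true :=
  ⟨by decide +kernel, by decide +kernel, by decide +kernel, by decide +kernel, by decide +kernel, by decide +kernel, by decide +kernel, by decide +kernel⟩

def t37625 : allY (E.wth T1) l37625 = true ∧
    allY (E.wth T1) l37626 = true ∧
    allY (E.wth T1) l37627 = true ∧
    allY (E.wth T1) l37628 = true ∧
    allY (E.wth T1) l37629 = true ∧
    allY (E.wth T1) l37630 = true ∧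
    allY (E.wth T1) l37631 = true ∧
    allY (E.wth T1) l37632 = true :=
  ⟨by decide +kernel, by decide +kernel, by decide +kernel, by decide +kernel, by decide +kernel, by decide +kernel, by decide +kernel, by decide +kernel⟩

def t37633 : allY (E.wth T1) l37633 = true ∧
    allY (E.wth T1) l37634 = true ∧
    allY (E.wth T1) l37635 = true ∧
    allY (E.wth T1) l37636 = true ∧
    allY (E.wth T1) l37637 = true ∧
    allY (E.wth T1) l37638 = true ∧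
    allY (E.wth T1) l37639 = true ∧
    allY (E.wth T1) l37640 = true :=
  ⟨by decide +kernel, by decide +kernel, by decide +kernel, by decide +kernel, by decide +kernel, by decide +kernel, by decide +kernel, by decide +kernel⟩

def t37641 : allY (E.wth T1) l37641 = true ∧
    allY (E.wth T1) l37642 = true ∧
    allY (E.wth T1) l37643 = true ∧
    allY (E.wth T1) l37644 = true ∧
    allY (E.wth T1) l37645 = true ∧
    allY (E.wth T1) l37646 = true ∧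
    allY (E.wth T1) l37647 = true ∧
    allY (E.wth T1) l37648 = true :=
  ⟨by decide +kernel, by decide +kernel, by decide +kernel, by decide +kernel, by decide +kernel, by decide +kernel, by decide +kernel, by decide +kernel⟩

def t37649 : allY (E.wth T1) l37649 = true ∧
    allY (E.wth T1) l37650 = true ∧
    allY (E.wth T1) l37651 = true ∧
    allY (E.wth T1) l37652 = true ∧
    allY (E.wth T1) l37653 = true ∧
    allY (E.wth T1) l37654 = true ∧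
    allY (E.wth T1) l37655 = true ∧
    allY (E.wth T1) l37656 = true :=
  ⟨by decide +kernel, by decide +kernel, by decide +kernel, by decide +kernel, by decide +kernel, by decide +kernel, by decide +kernel, by decide +kernel⟩

def t37657 : allY (E.wth T1) l37657 = true ∧
    allY (E.wth T1) l37658 = true ∧
    allY (E.wth T1) l37659 = true ∧
    allY (E.wth T1) l37660 = true ∧
    allY (E.wth T1) l37661 = true ∧
    allY (E.wth T1) l37662 = true ∧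
    allY (E.wth T1) l37663 = true ∧
    allY (E.wth T1) l37664 = true :=
  ⟨by decide +kernel, by decide +kernel, by decide +kernel, by decide +kernel, by decide +kernel, by decide +kernel, by decide +kernel, by decide +kernel⟩

def t37665 : allY (E.wth T1) l37665 = true ∧
    allY (E.wth T1) l37666 = true ∧
    allY (E.wth T1) l37667 = true ∧
    allY (E.wth T1) l37668 = true ∧
    allY (E.wth T1) l37669 = true ∧
    allY (E.wth T1) l37670 = true ∧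
    allY (E.wth T1) l37671 = true ∧
    allY (E.wth T1) l37672 = true :=
  ⟨by decide +kernel, by decide +kernel, by decide +kernel, by decide +kernel, by decide +kernel, by decide +kernel, by decide +kernel, by decide +kernel⟩

def t37673 : allY (E.wth T1) l37673 = true ∧
    allY (E.wth T1) l37674 = true ∧
    allY (E.wth T1) l37675 = true ∧
    allY (E.wth T1) l37676 = true ∧
    allY (E.wth T1) l37677 = true ∧
    allY (E.wth T1) l37678 = true ∧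
    allY (E.wth T1) l37679 = true ∧
    allY (E.wth T1) l37680 = true :=
  ⟨by decide +kernel, by decide +kernel, by decide +kernel, by decide +kernel, by decide +kernel, by decide +kernel, by decide +kernel, by decide +kernel⟩

def t37681 : allY (E.wth T1) l37681 = true ∧
    allY (E.wth T1) l37682 = true ∧
    allY (E.wth T1) l37683 = true ∧
    allY (E.wth T1) l37684 = true ∧
    allY (E.wth T1) l37685 = true ∧
    allY (E.wth T1) l37686 = true ∧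
    allY (E.wth T1) l37687 = true ∧
    allY (E.wth T1) l37688 = true :=
  ⟨by decide +kernel, by decide +kernel, by decide +kernel, by decide +kernel, by decide +kernel, by decide +kernel, by decide +kernel, by decide +kernel⟩

def t37689 : allY (E.wth T1) l37689 = true ∧
    allY (E.wth T1) l37690 = true ∧
    allY (E.wth T1) l37691 = true ∧
    allY (E.wth T1) l37692 = true ∧
    allY (E.wth T1) l37693 = true ∧
    allY (E.wth T1) l37694 = true ∧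
    allY (E.wth T1) l37695 = true ∧
    allY (E.wth T1) l37696 = true :=
  ⟨by decide +kernel, by decide +kernel, by decide +kernel, by decide +kernel, by decide +kernel, by decide +kernel, by decide +kernel, by decide +kernel⟩

def t37697 : allY (E.wth T1) l37697 = true ∧
    allY (E.wth T1) l37698 = true ∧
    allY (E.wth T1) l37699 = true ∧
    allY (E.wth T1) l37700 = true ∧
    allY (E.wth T1) l37701 = true ∧
    allY (E.wth T1) l37702 = true ∧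
    allY (E.wth T1) l37703 = true ∧
    allY (E.wth T1) l37704 = true :=
  ⟨by decide +kernel, by decide +kernel, by decide +kernel, by decide +kernel, by decide +kernel, by decide +kernel, by decide +kernel, by decide +kernel⟩

def t37705 : allY (E.wth T1) l37705 = true ∧
    allY (E.wth T1) l37706 = true ∧
    allY (E.wth T1) l37707 = true ∧
    allY (E.wth T1) l37708 = true ∧
    allY (E.wth T1) l37709 = true ∧
    allY (E.wth T1) l37710 = true ∧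
    allY (E.wth T1) l37711 = true ∧
    allY (E.wth T1) l37712 = true :=
  ⟨by decide +kernel, by decide +kernel, by decide +kernel, by decide +kernel, by decide +kernel, by decide +kernel, by decide +kernel, by decide +kernel⟩

def t37713 : allY (E.wth T1) l37713 = true ∧
    allY (E.wth T1) l37714 = true ∧
    allY (E.wth T1) l37715 = true ∧
    allY (E.wth T1) l37716 = true ∧
    allY (E.wth T1) l37717 = true ∧
    allY (E.wth T1) l37718 = true ∧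
    allY (E.wth T1) l37719 = true ∧
    allY (E.wth T1) l37720 = true :=
  ⟨by decide +kernel, by decide +kernel, by decide +kernel, by decide +kernel, by decide +kernel, by decide +kernel, by decide +kernel, by decide +kernel⟩

def t37721 : allY (E.wth T1) l37721 = true ∧
    allY (E.wth T1) l37722 = true ∧
    allY (E.wth T1) l37723 = true ∧
    allY (E.wth T1) l37724 = true ∧
    allY (E.wth T1) l37725 = true ∧
    allY (E.wth T1) l37726 = true ∧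
    allY (E.wth T1) l37727 = true ∧
    allY (E.wth T1) l37728 = true :=
  ⟨by decide +kernel, by decide +kernel, by decide +kernel, by decide +kernel, by decide +kernel, by decide +kernel, by decide +kernel, by decide +kernel⟩

def t37729 : allY (E.wth T1) l37729 = true ∧
    allY (E.wth T1) l37730 = true ∧
    allY (E.wth T1) l37731 = true ∧
    allY (E.wth T1) l37732 = true ∧
    allY (E.wth T1) l37733 = true ∧
    allY (E.wth T1) l37734 = true ∧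
    allY (E.wth T1) l37735 = true ∧
    allY (E.wth T1) l37736 = true :=
  ⟨by decide +kernel, by decide +kernel, by decide +kernel, by decide +kernel, by decide +kernel, by decide +kernel, by decide +kernel, by decide +kernel⟩

def t37737 : allY (E.wth T1) l37737 = true ∧
    allY (E.wth T1) l37738 = true ∧
    allY (E.wth T1) l37739 = true ∧
    allY (E.wth T1) l37740 = true ∧
    allY (E.wth T1) l37741 = true ∧
    allY (E.wth T1) l37742 = true ∧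
    allY (E.wth T1) l37743 = true ∧
    allY (E.wth T1) l37744 = true :=
  ⟨by decide +kernel, by decide +kernel, by decide +kernel, by decide +kernel, by decide +kernel, by decide +kernel, by decide +kernel, by decide +kernel⟩

def t37745 : allY (E.wth T1) l37745 = true ∧
    allY (E.wth T1) l37746 = true ∧
    allY (E.wth T1) l37747 = true ∧
    allY (E.wth T1) l37748 = true ∧
    allY (E.wth T1) l37749 = true ∧
    allY (E.wth T1) l37750 = true ∧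
    allY (E.wth T1) l37751 = true ∧
    allY (E.wth T1) l37752 = true :=
  ⟨by decide +kernel, by decide +kernel, by decide +kernel, by decide +kernel, by decide +kernel, by decide +kernel, by decide +kernel, by decide +kernel⟩

def t37753 : allY (E.wth T1) l37753 = true ∧
    allY (E.wth T1) l37754 = true ∧
    allY (E.wth T1) l37755 = true ∧
    allY (E.wth T1) l37756 = true ∧
    allY (E.wth T1) l37757 = true ∧
    allY (E.wth T1) l37758 = true ∧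
    allY (E.wth T1) l37759 = true ∧
    allY (E.wth T1) l37760 = true :=
  ⟨by decide +kernel, by decide +kernel, by decide +kernel, by decide +kernel, by decide +kernel, by decide +kernel, by decide +kernel, by decide +kernel⟩

def t37761 : allY (E.wth T1) l37761 = true ∧
    allY (E.wth T1) l37762 = true ∧
    allY (E.wth T1) l37763 = true ∧
    allY (E.wth T1) l37764 = true ∧
    allY (E.wth T1) l37765 = true ∧
    allY (E.wth T1) l37766 = true ∧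
    allY (E.wth T1) l37767 = true ∧
    allY (E.wth T1) l37768 = true :=
  ⟨by decide +kernel, by decide +kernel, by decide +kernel, by decide +kernel, by decide +kernel, by decide +kernel, by decide +kernel, by decide +kernel⟩

def t37769 : allY (E.wth T1) l37769 = true ∧
    allY (E.wth T1) l37770 = true ∧
    allY (E.wth T1) l37771 = true ∧
    allY (E.wth T1) l37772 = true ∧
    allY (E.wth T1) l37773 = true ∧
    allY (E.wth T1) l37774 = true ∧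
    allY (E.wth T1) l37775 = true ∧
    allY (E.wth T1) l37776 = true :=
  ⟨by decide +kernel, by decide +kernel, by decide +kernel, by decide +kernel, by decide +kernel, by decide +kernel, by decide +kernel, by decide +kernel⟩

def t37777 : allY (E.wth T1) l37777 = true ∧
    allY (E.wth T1) l37778 = true ∧
    allY (E.wth T1) l37779 = true ∧
    allY (E.wth T1) l37780 = true ∧
    allY (E.wth T1) l37781 = true ∧
    allY (E.wth T1) l37782 = true ∧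
    allY (E.wth T1) l37783 = true ∧
    allY (E.wth T1) l37784 = true :=
  ⟨by decide +kernel, by decide +kernel, by decide +kernel, by decide +kernel, by decide +kernel, by decide +kernel, by decide +kernel, by decide +kernel⟩

def t37785 : allY (E.wth T1) l37785 = true ∧
    allY (E.wth T1) l37786 = true ∧
    allY (E.wth T1) l37787 = true ∧
    allY (E.wth T1) l37788 = true ∧
    allY (E.wth T1) l37789 = true ∧
    allY (E.wth T1) l37790 = true ∧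
    allY (E.wth T1) l37791 = true ∧
    allY (E.wth T1) l37792 = true :=
  ⟨by decide +kernel, by decide +kernel, by decide +kernel, by decide +kernel, by decide +kernel, by decide +kernel, by decide +kernel, by decide +kernel⟩

def t37793 : allY (E.wth T1) l37793 = true ∧
    allY (E.wth T1) l37794 = true ∧
    allY (E.wth T1) l37795 = true ∧
    allY (E.wth T1) l37796 = true ∧
    allY (E.wth T1) l37797 = true ∧
    allY (E.wth T1) l37798 = true ∧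
    allY (E.wth T1) l37799 = true ∧
    allY (E.wth T1) l37800 = true :=
  ⟨by decide +kernel, by decide +kernel, by decide +kernel, by decide +kernel, by decide +kernel, by decide +kernel, by decide +kernel, by decide +kernel⟩

def t37801 : allY (E.wth T1) l37801 = true ∧
    allY (E.wth T1) l37802 = true ∧
    allY (E.wth T1) l37803 = true ∧
    allY (E.wth T1) l37804 = true ∧
    allY (E.wth T1) l37805 = true ∧
    allY (E.wth T1) l37806 = true ∧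
    allY (E.wth T1) l37807 = true ∧
    allY (E.wth T1) l37808 = true :=
  ⟨by decide +kernel, by decide +kernel, by decide +kernel, by decide +kernel, by decide +kernel, by decide +kernel, by decide +kernel, by decide +kernel⟩

def t37809 : allY (E.wth T1) l37809 = true ∧
    allY (E.wth T1) l37810 = true ∧
    allY (E.wth T1) l37811 = true ∧
    allY (E.wth T1) l37812 = true ∧
    allY (E.wth T1) l37813 = true ∧
    allY (E.wth T1) l37814 = true ∧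
    allY (E.wth T1) l37815 = true ∧
    allY (E.wth T1) l37816 = true :=
  ⟨by decide +kernel, by decide +kernel, by decide +kernel, by decide +kernel, by decide +kernel, by decide +kernel, by decide +kernel, by decide +kernel⟩

def t37817 : allY (E.wth T1) l37817 = true ∧
    allY (E.wth T1) l37818 = true ∧
    allY (E.wth T1) l37819 = true ∧
    allY (E.wth T1) l37820 = true ∧
    allY (E.wth T1) l37821 = true ∧
    allY (E.wth T1) l37822 = true ∧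
    allY (E.wth T1) l37823 = true ∧
    allY (E.wth T1) l37824 = true :=
  ⟨by decide +kernel, by decide +kernel, by decide +kernel, by decide +kernel, by decide +kernel, by decide +kernel, by decide +kernel, by decide +kernel⟩

def t37825 : allY (E.wth T1) l37825 = true ∧
    allY (E.wth T1) l37826 = true ∧
    allY (E.wth T1) l37827 = true ∧
    allY (E.wth T1) l37828 = true ∧
    allY (E.wth T1) l37829 = true ∧
    allY (E.wth T1) l37830 = true ∧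
    allY (E.wth T1) l37831 = true ∧
    allY (E.wth T1) l37832 = true :=
  ⟨by decide +kernel, by decide +kernel, by decide +kernel, by decide +kernel, by decide +kernel, by decide +kernel, by decide +kernel, by decide +kernel⟩

def t37833 : allY (E.wth T1) l37833 = true ∧
    allY (E.wth T1) l37834 = true ∧
    allY (E.wth T1) l37835 = true ∧
    allY (E.wth T1) l37836 = true ∧
    allY (E.wth T1) l37837 = true ∧
    allY (E.wth T1) l37838 = true ∧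
    allY (E.wth T1) l37839 = true ∧
    allY (E.wth T1) l37840 = true :=
  ⟨by decide +kernel, by decide +kernel, by decide +kernel, by decide +kernel, by decide +kernel, by decide +kernel, by decide +kernel, by decide +kernel⟩

def t37841 : allY (E.wth T1) l37841 = true ∧
    allY (E.wth T1) l37842 = true ∧
    allY (E.wth T1) l37843 = true ∧
    allY (E.wth T1) l37844 = true ∧
    allY (E.wth T1) l37845 = true ∧
    allY (E.wth T1) l37846 = true ∧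
    allY (E.wth T1) l37847 = true ∧
    allY (E.wth T1) l37848 = true :=
  ⟨by decide +kernel, by decide +kernel, by decide +kernel, by decide +kernel, by decide +kernel, by decide +kernel, by decide +kernel, by decide +kernel⟩

def t37849 : allY (E.wth T1) l37849 = true ∧
    allY (E.wth T1) l37850 = true ∧
    allY (E.wth T1) l37851 = true ∧
    allY (E.wth T1) l37852 = true ∧
    allY (E.wth T1) l37853 = true ∧
    allY (E.wth T1) l37854 = true ∧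
    allY (E.wth T1) l37855 = true ∧
    allY (E.wth T1) l37856 = true :=
  ⟨by decide +kernel, by decide +kernel, by decide +kernel, by decide +kernel, by decide +kernel, by decide +kernel, by decide +kernel, by decide +kernel⟩

def t37857 : allY (E.wth T1) l37857 = true ∧
    allY (E.wth T1) l37858 = true ∧
    allY (E.wth T1) l37859 = true ∧
    allY (E.wth T1) l37860 = true ∧
    allY (E.wth T1) l37861 = true ∧
    allY (E.wth T1) l37862 = true ∧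
    allY (E.wth T1) l37863 = true ∧
    allY (E.wth T1) l37864 = true :=
  ⟨by decide +kernel, by decide +kernel, by decide +kernel, by decide +kernel, by decide +kernel, by decide +kernel, by decide +kernel, by decide +kernel⟩

def t37865 : allY (E.wth T1) l37865 = true ∧
    allY (E.wth T1) l37866 = true ∧
    allY (E.wth T1) l37867 = true ∧
    allY (E.wth T1) l37868 = true ∧
    allY (E.wth T1) l37869 = true ∧
    allY (E.wth T1) l37870 = true ∧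
    allY (E.wth T1) l37871 = true ∧
    allY (E.wth T1) l37872 = true :=
  ⟨by decide +kernel, by decide +kernel, by decide +kernel, by decide +kernel, by decide +kernel, by decide +kernel, by decide +kernel, by decide +kernel⟩

def t37873 : allY (E.wth T1) l37873 = true ∧
    allY (E.wth T1) l37874 = true ∧
    allY (E.wth T1) l37875 = true ∧
    allY (E.wth T1) l37876 = true ∧
    allY (E.wth T1) l37877 = true ∧
    allY (E.wth T1) l37878 = true ∧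
    allY (E.wth T1) l37879 = true ∧
    allY (E.wth T1) l37880 = true :=
  ⟨by decide +kernel, by decide +kernel, by decide +kernel, by decide +kernel, by decide +kernel, by decide +kernel, by decide +kernel, by decide +kernel⟩

def t37881 : allY (E.wth T1) l37881 = true ∧
    allY (E.wth T1) l37882 = true ∧
    allY (E.wth T1) l37883 = true ∧
    allY (E.wth T1) l37884 = true ∧
    allY (E.wth T1) l37885 = true ∧
    allY (E.wth T1) l37886 = true ∧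
    allY (E.wth T1) l37887 = true ∧
    allY (E.wth T1) l37888 = true :=
  ⟨by decide +kernel, by decide +kernel, by decide +kernel, by decide +kernel, by decide +kernel, by decide +kernel, by decide +kernel, by decide +kernel⟩

def t37889 : allY (E.wth T1) l37889 = true ∧
    allY (E.wth T1) l37890 = true ∧
    allY (E.wth T1) l37891 = true ∧
    allY (E.wth T1) l37892 = true ∧
    allY (E.wth T1) l37893 = true ∧
    allY (E.wth T1) l37894 = true ∧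
    allY (E.wth T1) l37895 = true ∧
    allY (E.wth T1) l37896 = true :=
  ⟨by decide +kernel, by decide +kernel, by decide +kernel, by decide +kernel, by decide +kernel, by decide +kernel, by decide +kernel, by decide +kernel⟩

def t37897 : allY (E.wth T1) l37897 = true ∧
    allY (E.wth T1) l37898 = true ∧
    allY (E.wth T1) l37899 = true ∧
    allY (E.wth T1) l37900 = true ∧
    allY (E.wth T1) l37901 = true ∧
    allY (E.wth T1) l37902 = true ∧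
    allY (E.wth T1) l37903 = true ∧
    allY (E.wth T1) l37904 = true :=
  ⟨by decide +kernel, by decide +kernel, by decide +kernel, by decide +kernel, by decide +kernel, by decide +kernel, by decide +kernel, by decide +kernel⟩

def t37905 : allY (E.wth T1) l37905 = true ∧
    allY (E.wth T1) l37906 = true ∧
    allY (E.wth T1) l37907 = true ∧
    allY (E.wth T1) l37908 = true ∧
    allY (E.wth T1) l37909 = true ∧
    allY (E.wth T1) l37910 = true ∧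
    allY (E.wth T1) l37911 = true ∧
    allY (E.wth T1) l37912 = true :=
  ⟨by decide +kernel, by decide +kernel, by decide +kernel, by decide +kernel, by decide +kernel, by decide +kernel, by decide +kernel, by decide +kernel⟩

def t37913 : allY (E.wth T1) l37913 = true ∧
    allY (E.wth T1) l37914 = true ∧
    allY (E.wth T1) l37915 = true ∧
    allY (E.wth T1) l37916 = true ∧
    allY (E.wth T1) l37917 = true ∧
    allY (E.wth T1) l37918 = true ∧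
    allY (E.wth T1) l37919 = true ∧
    allY (E.wth T1) l37920 = true :=
  ⟨by decide +kernel, by decide +kernel, by decide +kernel, by decide +kernel, by decide +kernel, by decide +kernel, by decide +kernel, by decide +kernel⟩

def t37921 : allY (E.wth T1) l37921 = true ∧
    allY (E.wth T1) l37922 = true ∧
    allY (E.wth T1) l37923 = true ∧
    allY (E.wth T1) l37924 = true ∧
    allY (E.wth T1) l37925 = true ∧
    allY (E.wth T1) l37926 = true ∧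
    allY (E.wth T1) l37927 = true ∧
    allY (E.wth T1) l37928 = true :=
  ⟨by decide +kernel, by decide +kernel, by decide +kernel, by decide +kernel, by decide +kernel, by decide +kernel, by decide +kernel, by decide +kernel⟩

def t37929 : allY (E.wth T1) l37929 = true ∧
    allY (E.wth T1) l37930 = true ∧
    allY (E.wth T1) l37931 = true ∧
    allY (E.wth T1) l37932 = true ∧
    allY (E.wth T1) l37933 = true ∧
    allY (E.wth T1) l37934 = true ∧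
    allY (E.wth T1) l37935 = true ∧
    allY (E.wth T1) l37936 = true :=
  ⟨by decide +kernel, by decide +kernel, by decide +kernel, by decide +kernel, by decide +kernel, by decide +kernel, by decide +kernel, by decide +kernel⟩

def t37937 : allY (E.wth T1) l37937 = true ∧
    allY (E.wth T1) l37938 = true ∧
    allY (E.wth T1) l37939 = true ∧
    allY (E.wth T1) l37940 = true ∧
    allY (E.wth T1) l37941 = true ∧
    allY (E.wth T1) l37942 = true ∧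
    allY (E.wth T1) l37943 = true ∧
    allY (E.wth T1) l37944 = true :=
  ⟨by decide +kernel, by decide +kernel, by decide +kernel, by decide +kernel, by decide +kernel, by decide +kernel, by decide +kernel, by decide +kernel⟩

def t37945 : allY (E.wth T1) l37945 = true ∧
    allY (E.wth T1) l37946 = true ∧
    allY (E.wth T1) l37947 = true ∧
    allY (E.wth T1) l37948 = true ∧
    allY (E.wth T1) l37949 = true ∧
    allY (E.wth T1) l37950 = true ∧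
    allY (E.wth T1) l37951 = true ∧
    allY (E.wth T1) l37952 = true :=
  ⟨by decide +kernel, by decide +kernel, by decide +kernel, by decide +kernel, by decide +kernel, by decide +kernel, by decide +kernel, by decide +kernel⟩

def t37953 : allY (E.wth T1) l37953 = true ∧
    allY (E.wth T1) l37954 = true ∧
    allY (E.wth T1) l37955 = true ∧
    allY (E.wth T1) l37956 = true ∧
    allY (E.wth T1) l37957 = true ∧
    allY (E.wth T1) l37958 = true ∧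
    allY (E.wth T1) l37959 = true ∧
    allY (E.wth T1) l37960 = true :=
  ⟨by decide +kernel, by decide +kernel, by decide +kernel, by decide +kernel, by decide +kernel, by decide +kernel, by decide +kernel, by decide +kernel⟩

def t37961 : allY (E.wth T1) l37961 = true ∧
    allY (E.wth T1) l37962 = true ∧
    allY (E.wth T1) l37963 = true ∧
    allY (E.wth T1) l37964 = true ∧
    allY (E.wth T1) l37965 = true ∧
    allY (E.wth T1) l37966 = true ∧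
    allY (E.wth T1) l37967 = true ∧
    allY (E.wth T1) l37968 = true :=
  ⟨by decide +kernel, by decide +kernel, by decide +kernel, by decide +kernel, by decide +kernel, by decide +kernel, by decide +kernel, by decide +kernel⟩

def t37969 : allY (E.wth T1) l37969 = true ∧
    allY (E.wth T1) l37970 = true ∧
    allY (E.wth T1) l37971 = true ∧
    allY (E.wth T1) l37972 = true ∧
    allY (E.wth T1) l37973 = true ∧
    allY (E.wth T1) l37974 = true ∧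
    allY (E.wth T1) l37975 = true ∧
    allY (E.wth T1) l37976 = true :=
  ⟨by decide +kernel, by decide +kernel, by decide +kernel, by decide +kernel, by decide +kernel, by decide +kernel, by decide +kernel, by decide +kernel⟩

def t37977 : allY (E.wth T1) l37977 = true ∧
    allY (E.wth T1) l37978 = true ∧
    allY (E.wth T1) l37979 = true ∧
    allY (E.wth T1) l37980 = true ∧
    allY (E.wth T1) l37981 = true ∧
    allY (E.wth T1) l37982 = true ∧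
    allY (E.wth T1) l37983 = true ∧
    allY (E.wth T1) l37984 = true :=
  ⟨by decide +kernel, by decide +kernel, by decide +kernel, by decide +kernel, by decide +kernel, by decide +kernel, by decide +kernel, by decide +kernel⟩

def t37985 : allY (E.wth T1) l37985 = true ∧
    allY (E.wth T1) l37986 = true ∧
    allY (E.wth T1) l37987 = true ∧
    allY (E.wth T1) l37988 = true ∧
    allY (E.wth T1) l37989 = true ∧
    allY (E.wth T1) l37990 = true ∧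
    allY (E.wth T1) l37991 = true ∧
    allY (E.wth T1) l37992 = true :=
  ⟨by decide +kernel, by decide +kernel, by decide +kernel, by decide +kernel, by decide +kernel, by decide +kernel, by decide +kernel, by decide +kernel⟩

def t37993 : allY (E.wth T1) l37993 = true ∧
    allY (E.wth T1) l37994 = true ∧
    allY (E.wth T1) l37995 = true ∧
    allY (E.wth T1) l37996 = true ∧
    allY (E.wth T1) l37997 = true ∧
    allY (E.wth T1) l37998 = true ∧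
    allY (E.wth T1) l37999 = true ∧
    allY (E.wth T1) l38000 = true :=
  ⟨by decide +kernel, by decide +kernel, by decide +kernel, by decide +kernel, by decide +kernel, by decide +kernel, by decide +kernel, by decide +kernel⟩

def t38001 : allY (E.wth T1) l38001 = true ∧
    allY (E.wth T1) l38002 = true ∧
    allY (E.wth T1) l38003 = true ∧
    allY (E.wth T1) l38004 = true ∧
    allY (E.wth T1) l38005 = true ∧
    allY (E.wth T1) l38006 = true ∧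
    allY (E.wth T1) l38007 = true ∧
    allY (E.wth T1) l38008 = true :=
  ⟨by decide +kernel, by decide +kernel, by decide +kernel, by decide +kernel, by decide +kernel, by decide +kernel, by decide +kernel, by decide +kernel⟩

def t38009 : allY (E.wth T1) l38009 = true ∧
    allY (E.wth T1) l38010 = true ∧
    allY (E.wth T1) l38011 = true ∧
    allY (E.wth T1) l38012 = true ∧
    allY (E.wth T1) l38013 = true ∧
    allY (E.wth T1) l38014 = true ∧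
    allY (E.wth T1) l38015 = true ∧
    allY (E.wth T1) l38016 = true :=
  ⟨by decide +kernel, by decide +kernel, by decide +kernel, by decide +kernel, by decide +kernel, by decide +kernel, by decide +kernel, by decide +kernel⟩

def t38017 : allY (E.wth T1) l38017 = true ∧
    allY (E.wth T1) l38018 = true ∧
    allY (E.wth T1) l38019 = true ∧
    allY (E.wth T1) l38020 = true ∧
    allY (E.wth T1) l38021 = true ∧
    allY (E.wth T1) l38022 = true ∧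
    allY (E.wth T1) l38023 = true ∧
    allY (E.wth T1) l38024 = true :=
  ⟨by decide +kernel, by decide +kernel, by decide +kernel, by decide +kernel, by decide +kernel, by decide +kernel, by decide +kernel, by decide +kernel⟩

def t38025 : allY (E.wth T1) l38025 = true ∧
    allY (E.wth T1) l38026 = true ∧
    allY (E.wth T1) l38027 = true ∧
    allY (E.wth T1) l38028 = true ∧
    allY (E.wth T1) l38029 = true ∧
    allY (E.wth T1) l38030 = true ∧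
    allY (E.wth T1) l38031 = true ∧
    allY (E.wth T1) l38032 = true :=
  ⟨by decide +kernel, by decide +kernel, by decide +kernel, by decide +kernel, by decide +kernel, by decide +kernel, by decide +kernel, by decide +kernel⟩

def t38033 : allY (E.wth T1) l38033 = true ∧
    allY (E.wth T1) l38034 = true ∧
    allY (E.wth T1) l38035 = true ∧
    allY (E.wth T1) l38036 = true ∧
    allY (E.wth T1) l38037 = true ∧
    allY (E.wth T1) l38038 = true ∧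
    allY (E.wth T1) l38039 = true ∧
    allY (E.wth T1) l38040 = true :=
  ⟨by decide +kernel, by decide +kernel, by decide +kernel, by decide +kernel, by decide +kernel, by decide +kernel, by decide +kernel, by decide +kernel⟩

def t38041 : allY (E.wth T1) l38041 = true ∧
    allY (E.wth T1) l38042 = true ∧
    allY (E.wth T1) l38043 = true ∧
    allY (E.wth T1) l38044 = true ∧
    allY (E.wth T1) l38045 = true ∧
    allY (E.wth T1) l38046 = true ∧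
    allY (E.wth T1) l38047 = true ∧
    allY (E.wth T1) l38048 = true :=
  ⟨by decide +kernel, by decide +kernel, by decide +kernel, by decide +kernel, by decide +kernel, by decide +kernel, by decide +kernel, by decide +kernel⟩

def t38049 : allY (E.wth T1) l38049 = true ∧
    allY (E.wth T1) l38050 = true ∧
    allY (E.wth T1) l38051 = true ∧
    allY (E.wth T1) l38052 = true ∧
    allY (E.wth T1) l38053 = true ∧
    allY (E.wth T1) l38054 = true ∧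
    allY (E.wth T1) l38055 = true ∧
    allY (E.wth T1) l38056 = true :=
  ⟨by decide +kernel, by decide +kernel, by decide +kernel, by decide +kernel, by decide +kernel, by decide +kernel, by decide +kernel, by decide +kernel⟩

def t38057 : allY (E.wth T1) l38057 = true ∧
    allY (E.wth T1) l38058 = true ∧
    allY (E.wth T1) l38059 = true ∧
    allY (E.wth T1) l38060 = true ∧
    allY (E.wth T1) l38061 = true ∧
    allY (E.wth T1) l38062 = true ∧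
    allY (E.wth T1) l38063 = true ∧
    allY (E.wth T1) l38064 = true :=
  ⟨by decide +kernel, by decide +kernel, by decide +kernel, by decide +kernel, by decide +kernel, by decide +kernel, by decide +kernel, by decide +kernel⟩

def t38065 : allY (E.wth T1) l38065 = true ∧
    allY (E.wth T1) l38066 = true ∧
    allY (E.wth T1) l38067 = true ∧
    allY (E.wth T1) l38068 = true ∧
    allY (E.wth T1) l38069 = true ∧
    allY (E.wth T1) l38070 = true ∧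
    allY (E.wth T1) l38071 = true ∧
    allY (E.wth T1) l38072 = true :=
  ⟨by decide +kernel, by decide +kernel, by decide +kernel, by decide +kernel, by decide +kernel, by decide +kernel, by decide +kernel, by decide +kernel⟩

def t38073 : allY (E.wth T1) l38073 = true ∧
    allY (E.wth T1) l38074 = true ∧
    allY (E.wth T1) l38075 = true ∧
    allY (E.wth T1) l38076 = true ∧
    allY (E.wth T1) l38077 = true ∧
    allY (E.wth T1) l38078 = true ∧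
    allY (E.wth T1) l38079 = true ∧
    allY (E.wth T1) l38080 = true :=
  ⟨by decide +kernel, by decide +kernel, by decide +kernel, by decide +kernel, by decide +kernel, by decide +kernel, by decide +kernel, by decide +kernel⟩

def t38081 : allY (E.wth T1) l38081 = true ∧
    allY (E.wth T1) l38082 = true ∧
    allY (E.wth T1) l38083 = true ∧
    allY (E.wth T1) l38084 = true ∧
    allY (E.wth T1) l38085 = true ∧
    allY (E.wth T1) l38086 = true ∧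
    allY (E.wth T1) l38087 = true ∧
    allY (E.wth T1) l38088 = true :=
  ⟨by decide +kernel, by decide +kernel, by decide +kernel, by decide +kernel, by decide +kernel, by decide +kernel, by decide +kernel, by decide +kernel⟩

def t38089 : allY (E.wth T1) l38089 = true ∧
    allY (E.wth T1) l38090 = true ∧
    allY (E.wth T1) l38091 = true ∧
    allY (E.wth T1) l38092 = true ∧
    allY (E.wth T1) l38093 = true ∧
    allY (E.wth T1) l38094 = true ∧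
    allY (E.wth T1) l38095 = true ∧
    allY (E.wth T1) l38096 = true :=
  ⟨by decide +kernel, by decide +kernel, by decide +kernel, by decide +kernel, by decide +kernel, by decide +kernel, by decide +kernel, by decide +kernel⟩

def t38097 : allY (E.wth T1) l38097 = true ∧
    allY (E.wth T1) l38098 = true ∧
    allY (E.wth T1) l38099 = true ∧
    allY (E.wth T1) l38100 = true ∧
    allY (E.wth T1) l38101 = true ∧
    allY (E.wth T1) l38102 = true ∧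
    allY (E.wth T1) l38103 = true ∧
    allY (E.wth T1) l38104 = true :=
  ⟨by decide +kernel, by decide +kernel, by decide +kernel, by decide +kernel, by decide +kernel, by decide +kernel, by decide +kernel, by decide +kernel⟩

def t38105 : allY (E.wth T1) l38105 = true ∧
    allY (E.wth T1) l38106 = true ∧
    allY (E.wth T1) l38107 = true ∧
    allY (E.wth T1) l38108 = true ∧
    allY (E.wth T1) l38109 = true ∧
    allY (E.wth T1) l38110 = true ∧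
    allY (E.wth T1) l38111 = true ∧
    allY (E.wth T1) l38112 = true :=
  ⟨by decide +kernel, by decide +kernel, by decide +kernel, by decide +kernel, by decide +kernel, by decide +kernel, by decide +kernel, by decide +kernel⟩

def t38113 : allY (E.wth T1) l38113 = true ∧
    allY (E.wth T1) l38114 = true ∧
    allY (E.wth T1) l38115 = true ∧
    allY (E.wth T1) l38116 = true ∧
    allY (E.wth T1) l38117 = true ∧
    allY (E.wth T1) l38118 = true ∧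
    allY (E.wth T1) l38119 = true ∧
    allY (E.wth T1) l38120 = true :=
  ⟨by decide +kernel, by decide +kernel, by decide +kernel, by decide +kernel, by decide +kernel, by decide +kernel, by decide +kernel, by decide +kernel⟩

def t38121 : allY (E.wth T1) l38121 = true ∧
    allY (E.wth T1) l38122 = true ∧
    allY (E.wth T1) l38123 = true ∧
    allY (E.wth T1) l38124 = true ∧
    allY (E.wth T1) l38125 = true ∧
    allY (E.wth T1) l38126 = true ∧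
    allY (E.wth T1) l38127 = true ∧
    allY (E.wth T1) l38128 = true :=
  ⟨by decide +kernel, by decide +kernel, by decide +kernel, by decide +kernel, by decide +kernel, by decide +kernel, by decide +kernel, by decide +kernel⟩

def t38129 : allY (E.wth T1) l38129 = true ∧
    allY (E.wth T1) l38130 = true ∧
    allY (E.wth T1) l38131 = true ∧
    allY (E.wth T1) l38132 = true ∧
    allY (E.wth T1) l38133 = true ∧
    allY (E.wth T1) l38134 = true ∧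
    allY (E.wth T1) l38135 = true ∧
    allY (E.wth T1) l38136 = true :=
  ⟨by decide +kernel, by decide +kernel, by decide +kernel, by decide +kernel, by decide +kernel, by decide +kernel, by decide +kernel, by decide +kernel⟩

def t38137 : allY (E.wth T1) l38137 = true ∧
    allY (E.wth T1) l38138 = true ∧
    allY (E.wth T1) l38139 = true ∧
    allY (E.wth T1) l38140 = true ∧
    allY (E.wth T1) l38141 = true ∧
    allY (E.wth T1) l38142 = true ∧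
    allY (E.wth T1) l38143 = true ∧
    allY (E.wth T1) l38144 = true :=
  ⟨by decide +kernel, by decide +kernel, by decide +kernel, by decide +kernel, by decide +kernel, by decide +kernel, by decide +kernel, by decide +kernel⟩

def t38145 : allY (E.wth T1) l38145 = true ∧
    allY (E.wth T1) l38146 = true ∧
    allY (E.wth T1) l38147 = true ∧
    allY (E.wth T1) l38148 = true :=
  ⟨by decide +kernel, by decide +kernel, by decide +kernel, by decide +kernel⟩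

theorem a68 {p : Rf → Prop} (H : ∀ l, allY (E.wth T1) l = true → (lkp l).All p) :
    b68.All p := ⟨⟨⟨⟨⟨⟨⟨⟨⟨H _ t37593.1, H _ t37593.2.1⟩, ⟨H _ t37593.2.2.1, H _ t37593.2.2.2.1⟩⟩, ⟨⟨H _ t37593.2.2.2.2.1, H _ t37593.2.2.2.2.2.1⟩, ⟨H _ t37593.2.2.2.2.2.2.1, H _ t37593.2.2.2.2.2.2.2⟩⟩⟩, ⟨⟨⟨H _ t37601.1, H _ t37601.2.1⟩, ⟨H _ t37601.2.2.1, H _ t37601.2.2.2.1⟩⟩, ⟨⟨H _ t37601.2.2.2.2.1, H _ t37601.2.2.2.2.2.1⟩, ⟨H _ t37601.2.2.2.2.2.2.1, ⟨H _ t37601.2.2.2.2.2.2.2, H _ t37609.1⟩⟩⟩⟩⟩, ⟨⟨⟨⟨H _ t37609.2.1, H _ t37609.2.2.1⟩, ⟨H _ t37609.2.2.2.1, H _ t37609.2.2.2.2.1⟩⟩, ⟨⟨H _ t37609.2.2.2.2.2.1, H _ t37609.2.2.2.2.2.2.1⟩, ⟨H _ t37609.2.2.2.2.2.2.2, H _ t37617.1⟩⟩⟩, ⟨⟨⟨H _ t37617.2.1, H _ t37617.2.2.1⟩, ⟨H _ t37617.2.2.2.1, H _ t37617.2.2.2.2.1⟩⟩, ⟨⟨H _ t37617.2.2.2.2.2.1, H _ t37617.2.2.2.2.2.2.1⟩, ⟨H _ t37617.2.2.2.2.2.2.2, ⟨H _ t37625.1, H _ t37625.2.1⟩⟩⟩⟩⟩⟩, ⟨⟨⟨⟨⟨H _ t37625.2.2.1, H _ t37625.2.2.2.1⟩,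 ⟨H _ t37625.2.2.2.2.1, H _ t37625.2.2.2.2.2.1⟩⟩, ⟨⟨H _ t37625.2.2.2.2.2.2.1, H _ t37625.2.2.2.2.2.2.2⟩, ⟨H _ t37633.1, H _ t37633.2.1⟩⟩⟩, ⟨⟨⟨H _ t37633.2.2.1, H _ t37633.2.2.2.1⟩, ⟨H _ t37633.2.2.2.2.1, H _ t37633.2.2.2.2.2.1⟩⟩, ⟨⟨H _ t37633.2.2.2.2.2.2.1, H _ t37633.2.2.2.2.2.2.2⟩, ⟨H _ t37641.1, ⟨H _ t37641.2.1, H _ t37641.2.2.1⟩⟩⟩⟩⟩, ⟨⟨⟨⟨H _ t37641.2.2.2.1, H _ t37641.2.2.2.2.1⟩, ⟨H _ t37641.2.2.2.2.2.1, H _ t37641.2.2.2.2.2.2.1⟩⟩, ⟨⟨H _ t37641.2.2.2.2.2.2.2, H _ t37649.1⟩, ⟨H _ t37649.2.1, ⟨H _ t37649.2.2.1, H _ t37649.2.2.2.1⟩⟩⟩⟩, ⟨⟨⟨H _ t37649.2.2.2.2.1, H _ t37649.2.2.2.2.2.1⟩, ⟨H _ t37649.2.2.2.2.2.2.1, H _ t37649.2.2.2.2.2.2.2⟩⟩, ⟨⟨H _ t37657.1, H _ t37657.2.1⟩, ⟨H _ t37657.2.2.1, ⟨H _ t37657.2.2.2.1, H _ t37657.2.2.2.2.1⟩⟩⟩⟩⟩⟩⟩, ⟨⟨⟨⟨⟨⟨H _ t37657.2.2.2.2.2.1, H _ t37657.2.2.2.2.2.2.1⟩, ⟨H _ t37657.2.2.2.2.2.2.2, H _ t37665.1⟩⟩, ⟨⟨H _ t37665.2.1, H _ t37665.2.2.1⟩, ⟨H _ t37665.2.2.2.1,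 H _ t37665.2.2.2.2.1⟩⟩⟩, ⟨⟨⟨H _ t37665.2.2.2.2.2.1, H _ t37665.2.2.2.2.2.2.1⟩, ⟨H _ t37665.2.2.2.2.2.2.2, H _ t37673.1⟩⟩, ⟨⟨H _ t37673.2.1, H _ t37673.2.2.1⟩, ⟨H _ t37673.2.2.2.1, ⟨H _ t37673.2.2.2.2.1, H _ t37673.2.2.2.2.2.1⟩⟩⟩⟩⟩, ⟨⟨⟨⟨H _ t37673.2.2.2.2.2.2.1, H _ t37673.2.2.2.2.2.2.2⟩, ⟨H _ t37681.1, H _ t37681.2.1⟩⟩, ⟨⟨H _ t37681.2.2.1, H _ t37681.2.2.2.1⟩, ⟨H _ t37681.2.2.2.2.1, ⟨H _ t37681.2.2.2.2.2.1, H _ t37681.2.2.2.2.2.2.1⟩⟩⟩⟩, ⟨⟨⟨H _ t37681.2.2.2.2.2.2.2, H _ t37689.1⟩, ⟨H _ t37689.2.1, H _ t37689.2.2.1⟩⟩, ⟨⟨H _ t37689.2.2.2.1, H _ t37689.2.2.2.2.1⟩, ⟨H _ t37689.2.2.2.2.2.1, ⟨H _ t37689.2.2.2.2.2.2.1, H _ t37689.2.2.2.2.2.2.2⟩⟩⟩⟩⟩⟩, ⟨⟨⟨⟨⟨H _ t37697.1, H _ t37697.2.1⟩, ⟨H _ t37697.2.2.1, H _ t37697.2.2.2.1⟩⟩, ⟨⟨H _ t37697.2.2.2.2.1, H _ t37697.2.2.2.2.2.1⟩, ⟨H _ t37697.2.2.2.2.2.2.1, H _ t37697.2.2.2.2.2.2.2⟩⟩⟩, ⟨⟨⟨H _ t37705.1, H _ t37705.2.1⟩, ⟨H _ t37705.2.2.1, H _ t37705.2.2.2.1⟩⟩,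 ⟨⟨H _ t37705.2.2.2.2.1, H _ t37705.2.2.2.2.2.1⟩, ⟨H _ t37705.2.2.2.2.2.2.1, ⟨H _ t37705.2.2.2.2.2.2.2, H _ t37713.1⟩⟩⟩⟩⟩, ⟨⟨⟨⟨H _ t37713.2.1, H _ t37713.2.2.1⟩, ⟨H _ t37713.2.2.2.1, H _ t37713.2.2.2.2.1⟩⟩, ⟨⟨H _ t37713.2.2.2.2.2.1, H _ t37713.2.2.2.2.2.2.1⟩, ⟨H _ t37713.2.2.2.2.2.2.2, ⟨H _ t37721.1, H _ t37721.2.1⟩⟩⟩⟩, ⟨⟨⟨H _ t37721.2.2.1, H _ t37721.2.2.2.1⟩, ⟨H _ t37721.2.2.2.2.1, H _ t37721.2.2.2.2.2.1⟩⟩, ⟨⟨H _ t37721.2.2.2.2.2.2.1, H _ t37721.2.2.2.2.2.2.2⟩, ⟨H _ t37729.1, ⟨H _ t37729.2.1, H _ t37729.2.2.1⟩⟩⟩⟩⟩⟩⟩⟩, ⟨⟨⟨⟨⟨⟨⟨H _ t37729.2.2.2.1, H _ t37729.2.2.2.2.1⟩, ⟨H _ t37729.2.2.2.2.2.1, H _ t37729.2.2.2.2.2.2.1⟩⟩, ⟨⟨H _ t37729.2.2.2.2.2.2.2, H _ t37737.1⟩, ⟨H _ t37737.2.1, H _ t37737.2.2.1⟩⟩⟩, ⟨⟨⟨H _ t37737.2.2.2.1, H _ t37737.2.2.2.2.1⟩, ⟨H _ t37737.2.2.2.2.2.1, H _ t37737.2.2.2.2.2.2.1⟩⟩, ⟨⟨H _ t37737.2.2.2.2.2.2.2, H _ t37745.1⟩, ⟨H _ t37745.2.1, ⟨H _ t37745.2.2.1, H _ t37745.2.2.2.1⟩⟩⟩⟩⟩,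 ⟨⟨⟨⟨H _ t37745.2.2.2.2.1, H _ t37745.2.2.2.2.2.1⟩, ⟨H _ t37745.2.2.2.2.2.2.1, H _ t37745.2.2.2.2.2.2.2⟩⟩, ⟨⟨H _ t37753.1, H _ t37753.2.1⟩, ⟨H _ t37753.2.2.1, H _ t37753.2.2.2.1⟩⟩⟩, ⟨⟨⟨H _ t37753.2.2.2.2.1, H _ t37753.2.2.2.2.2.1⟩, ⟨H _ t37753.2.2.2.2.2.2.1, H _ t37753.2.2.2.2.2.2.2⟩⟩, ⟨⟨H _ t37761.1, H _ t37761.2.1⟩, ⟨H _ t37761.2.2.1, ⟨H _ t37761.2.2.2.1, H _ t37761.2.2.2.2.1⟩⟩⟩⟩⟩⟩, ⟨⟨⟨⟨⟨H _ t37761.2.2.2.2.2.1, H _ t37761.2.2.2.2.2.2.1⟩, ⟨H _ t37761.2.2.2.2.2.2.2, H _ t37769.1⟩⟩, ⟨⟨H _ t37769.2.1, H _ t37769.2.2.1⟩, ⟨H _ t37769.2.2.2.1, H _ t37769.2.2.2.2.1⟩⟩⟩, ⟨⟨⟨H _ t37769.2.2.2.2.2.1, H _ t37769.2.2.2.2.2.2.1⟩, ⟨H _ t37769.2.2.2.2.2.2.2, H _ t37777.1⟩⟩, ⟨⟨H _ t37777.2.1, H _ t37777.2.2.1⟩, ⟨H _ t37777.2.2.2.1, ⟨H _ t37777.2.2.2.2.1, H _ t37777.2.2.2.2.2.1⟩⟩⟩⟩⟩, ⟨⟨⟨⟨H _ t37777.2.2.2.2.2.2.1, H _ t37777.2.2.2.2.2.2.2⟩, ⟨H _ t37785.1, H _ t37785.2.1⟩⟩, ⟨⟨H _ t37785.2.2.1, H _ t37785.2.2.2.1⟩,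 ⟨H _ t37785.2.2.2.2.1, ⟨H _ t37785.2.2.2.2.2.1, H _ t37785.2.2.2.2.2.2.1⟩⟩⟩⟩, ⟨⟨⟨H _ t37785.2.2.2.2.2.2.2, H _ t37793.1⟩, ⟨H _ t37793.2.1, H _ t37793.2.2.1⟩⟩, ⟨⟨H _ t37793.2.2.2.1, H _ t37793.2.2.2.2.1⟩, ⟨H _ t37793.2.2.2.2.2.1, ⟨H _ t37793.2.2.2.2.2.2.1, H _ t37793.2.2.2.2.2.2.2⟩⟩⟩⟩⟩⟩⟩, ⟨⟨⟨⟨⟨⟨H _ t37801.1, H _ t37801.2.1⟩, ⟨H _ t37801.2.2.1, H _ t37801.2.2.2.1⟩⟩, ⟨⟨H _ t37801.2.2.2.2.1, H _ t37801.2.2.2.2.2.1⟩, ⟨H _ t37801.2.2.2.2.2.2.1, H _ t37801.2.2.2.2.2.2.2⟩⟩⟩, ⟨⟨⟨H _ t37809.1, H _ t37809.2.1⟩, ⟨H _ t37809.2.2.1, H _ t37809.2.2.2.1⟩⟩, ⟨⟨H _ t37809.2.2.2.2.1, H _ t37809.2.2.2.2.2.1⟩, ⟨H _ t37809.2.2.2.2.2.2.1, ⟨H _ t37809.2.2.2.2.2.2.2, H _ t37817.1⟩⟩⟩⟩⟩, ⟨⟨⟨⟨H _ t37817.2.1, H _ t37817.2.2.1⟩, ⟨H _ t37817.2.2.2.1, H _ t37817.2.2.2.2.1⟩⟩, ⟨⟨H _ t37817.2.2.2.2.2.1, H _ t37817.2.2.2.2.2.2.1⟩, ⟨H _ t37817.2.2.2.2.2.2.2, ⟨H _ t37825.1, H _ t37825.2.1⟩⟩⟩⟩, ⟨⟨⟨H _ t37825.2.2.1, H _ t37825.2.2.2.1⟩,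 ⟨H _ t37825.2.2.2.2.1, H _ t37825.2.2.2.2.2.1⟩⟩, ⟨⟨H _ t37825.2.2.2.2.2.2.1, H _ t37825.2.2.2.2.2.2.2⟩, ⟨H _ t37833.1, ⟨H _ t37833.2.1, H _ t37833.2.2.1⟩⟩⟩⟩⟩⟩, ⟨⟨⟨⟨⟨H _ t37833.2.2.2.1, H _ t37833.2.2.2.2.1⟩, ⟨H _ t37833.2.2.2.2.2.1, H _ t37833.2.2.2.2.2.2.1⟩⟩, ⟨⟨H _ t37833.2.2.2.2.2.2.2, H _ t37841.1⟩, ⟨H _ t37841.2.1, H _ t37841.2.2.1⟩⟩⟩, ⟨⟨⟨H _ t37841.2.2.2.1, H _ t37841.2.2.2.2.1⟩, ⟨H _ t37841.2.2.2.2.2.1, H _ t37841.2.2.2.2.2.2.1⟩⟩, ⟨⟨H _ t37841.2.2.2.2.2.2.2, H _ t37849.1⟩, ⟨H _ t37849.2.1, ⟨H _ t37849.2.2.1, H _ t37849.2.2.2.1⟩⟩⟩⟩⟩, ⟨⟨⟨⟨H _ t37849.2.2.2.2.1, H _ t37849.2.2.2.2.2.1⟩, ⟨H _ t37849.2.2.2.2.2.2.1, H _ t37849.2.2.2.2.2.2.2⟩⟩, ⟨⟨H _ t37857.1, H _ t37857.2.1⟩, ⟨H _ t37857.2.2.1, ⟨H _ t37857.2.2.2.1, H _ t37857.2.2.2.2.1⟩⟩⟩⟩, ⟨⟨⟨H _ t37857.2.2.2.2.2.1, H _ t37857.2.2.2.2.2.2.1⟩, ⟨H _ t37857.2.2.2.2.2.2.2, H _ t37865.1⟩⟩, ⟨⟨H _ t37865.2.1, H _ t37865.2.2.1⟩, ⟨H _ t37865.2.2.2.1,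 ⟨H _ t37865.2.2.2.2.1, H _ t37865.2.2.2.2.2.1⟩⟩⟩⟩⟩⟩⟩⟩⟩, ⟨⟨⟨⟨⟨⟨⟨⟨H _ t37865.2.2.2.2.2.2.1, H _ t37865.2.2.2.2.2.2.2⟩, ⟨H _ t37873.1, H _ t37873.2.1⟩⟩, ⟨⟨H _ t37873.2.2.1, H _ t37873.2.2.2.1⟩, ⟨H _ t37873.2.2.2.2.1, H _ t37873.2.2.2.2.2.1⟩⟩⟩, ⟨⟨⟨H _ t37873.2.2.2.2.2.2.1, H _ t37873.2.2.2.2.2.2.2⟩, ⟨H _ t37881.1, H _ t37881.2.1⟩⟩, ⟨⟨H _ t37881.2.2.1, H _ t37881.2.2.2.1⟩, ⟨H _ t37881.2.2.2.2.1, ⟨H _ t37881.2.2.2.2.2.1, H _ t37881.2.2.2.2.2.2.1⟩⟩⟩⟩⟩, ⟨⟨⟨⟨H _ t37881.2.2.2.2.2.2.2, H _ t37889.1⟩, ⟨H _ t37889.2.1, H _ t37889.2.2.1⟩⟩, ⟨⟨H _ t37889.2.2.2.1, H _ t37889.2.2.2.2.1⟩, ⟨H _ t37889.2.2.2.2.2.1, H _ t37889.2.2.2.2.2.2.1⟩⟩⟩, ⟨⟨⟨H _ t37889.2.2.2.2.2.2.2, H _ t37897.1⟩, ⟨H _ t37897.2.1, H _ t37897.2.2.1⟩⟩, ⟨⟨H _ t37897.2.2.2.1, H _ t37897.2.2.2.2.1⟩, ⟨H _ t37897.2.2.2.2.2.1, ⟨H _ t37897.2.2.2.2.2.2.1, H _ t37897.2.2.2.2.2.2.2⟩⟩⟩⟩⟩⟩, ⟨⟨⟨⟨⟨H _ t37905.1, H _ t37905.2.1⟩, ⟨H _ t37905.2.2.1, H _ t37905.2.2.2.1⟩⟩,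 ⟨⟨H _ t37905.2.2.2.2.1, H _ t37905.2.2.2.2.2.1⟩, ⟨H _ t37905.2.2.2.2.2.2.1, H _ t37905.2.2.2.2.2.2.2⟩⟩⟩, ⟨⟨⟨H _ t37913.1, H _ t37913.2.1⟩, ⟨H _ t37913.2.2.1, H _ t37913.2.2.2.1⟩⟩, ⟨⟨H _ t37913.2.2.2.2.1, H _ t37913.2.2.2.2.2.1⟩, ⟨H _ t37913.2.2.2.2.2.2.1, ⟨H _ t37913.2.2.2.2.2.2.2, H _ t37921.1⟩⟩⟩⟩⟩, ⟨⟨⟨⟨H _ t37921.2.1, H _ t37921.2.2.1⟩, ⟨H _ t37921.2.2.2.1, H _ t37921.2.2.2.2.1⟩⟩, ⟨⟨H _ t37921.2.2.2.2.2.1, H _ t37921.2.2.2.2.2.2.1⟩, ⟨H _ t37921.2.2.2.2.2.2.2, ⟨H _ t37929.1, H _ t37929.2.1⟩⟩⟩⟩, ⟨⟨⟨H _ t37929.2.2.1, H _ t37929.2.2.2.1⟩, ⟨H _ t37929.2.2.2.2.1, H _ t37929.2.2.2.2.2.1⟩⟩, ⟨⟨H _ t37929.2.2.2.2.2.2.1, H _ t37929.2.2.2.2.2.2.2⟩, ⟨H _ t37937.1, ⟨H _ t37937.2.1, H _ t37937.2.2.1⟩⟩⟩⟩⟩⟩⟩, ⟨⟨⟨⟨⟨⟨H _ t37937.2.2.2.1, H _ t37937.2.2.2.2.1⟩, ⟨H _ t37937.2.2.2.2.2.1, H _ t37937.2.2.2.2.2.2.1⟩⟩, ⟨⟨H _ t37937.2.2.2.2.2.2.2, H _ t37945.1⟩, ⟨H _ t37945.2.1, H _ t37945.2.2.1⟩⟩⟩, ⟨⟨⟨H _ t37945.2.2.2.1,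 H _ t37945.2.2.2.2.1⟩, ⟨H _ t37945.2.2.2.2.2.1, H _ t37945.2.2.2.2.2.2.1⟩⟩, ⟨⟨H _ t37945.2.2.2.2.2.2.2, H _ t37953.1⟩, ⟨H _ t37953.2.1, ⟨H _ t37953.2.2.1, H _ t37953.2.2.2.1⟩⟩⟩⟩⟩, ⟨⟨⟨⟨H _ t37953.2.2.2.2.1, H _ t37953.2.2.2.2.2.1⟩, ⟨H _ t37953.2.2.2.2.2.2.1, H _ t37953.2.2.2.2.2.2.2⟩⟩, ⟨⟨H _ t37961.1, H _ t37961.2.1⟩, ⟨H _ t37961.2.2.1, ⟨H _ t37961.2.2.2.1, H _ t37961.2.2.2.2.1⟩⟩⟩⟩, ⟨⟨⟨H _ t37961.2.2.2.2.2.1, H _ t37961.2.2.2.2.2.2.1⟩, ⟨H _ t37961.2.2.2.2.2.2.2, H _ t37969.1⟩⟩, ⟨⟨H _ t37969.2.1, H _ t37969.2.2.1⟩, ⟨H _ t37969.2.2.2.1, ⟨H _ t37969.2.2.2.2.1, H _ t37969.2.2.2.2.2.1⟩⟩⟩⟩⟩⟩, ⟨⟨⟨⟨⟨H _ t37969.2.2.2.2.2.2.1, H _ t37969.2.2.2.2.2.2.2⟩, ⟨H _ t37977.1, H _ t37977.2.1⟩⟩, ⟨⟨H _ t37977.2.2.1, H _ t37977.2.2.2.1⟩, ⟨H _ t37977.2.2.2.2.1, H _ t37977.2.2.2.2.2.1⟩⟩⟩, ⟨⟨⟨H _ t37977.2.2.2.2.2.2.1, H _ t37977.2.2.2.2.2.2.2⟩, ⟨H _ t37985.1, H _ t37985.2.1⟩⟩, ⟨⟨H _ t37985.2.2.1, H _ t37985.2.2.2.1⟩,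 ⟨H _ t37985.2.2.2.2.1, ⟨H _ t37985.2.2.2.2.2.1, H _ t37985.2.2.2.2.2.2.1⟩⟩⟩⟩⟩, ⟨⟨⟨⟨H _ t37985.2.2.2.2.2.2.2, H _ t37993.1⟩, ⟨H _ t37993.2.1, H _ t37993.2.2.1⟩⟩, ⟨⟨H _ t37993.2.2.2.1, H _ t37993.2.2.2.2.1⟩, ⟨H _ t37993.2.2.2.2.2.1, ⟨H _ t37993.2.2.2.2.2.2.1, H _ t37993.2.2.2.2.2.2.2⟩⟩⟩⟩, ⟨⟨⟨H _ t38001.1, H _ t38001.2.1⟩, ⟨H _ t38001.2.2.1, H _ t38001.2.2.2.1⟩⟩, ⟨⟨H _ t38001.2.2.2.2.1, H _ t38001.2.2.2.2.2.1⟩, ⟨H _ t38001.2.2.2.2.2.2.1, ⟨H _ t38001.2.2.2.2.2.2.2, H _ t38009.1⟩⟩⟩⟩⟩⟩⟩⟩, ⟨⟨⟨⟨⟨⟨⟨H _ t38009.2.1, H _ t38009.2.2.1⟩, ⟨H _ t38009.2.2.2.1, H _ t38009.2.2.2.2.1⟩⟩, ⟨⟨H _ t38009.2.2.2.2.2.1, H _ t38009.2.2.2.2.2.2.1⟩, ⟨H _ t38009.2.2.2.2.2.2.2, H _ t38017.1⟩⟩⟩, ⟨⟨⟨H _ t38017.2.1, H _ t38017.2.2.1⟩, ⟨H _ t38017.2.2.2.1, H _ t38017.2.2.2.2.1⟩⟩, ⟨⟨H _ t38017.2.2.2.2.2.1, H _ t38017.2.2.2.2.2.2.1⟩, ⟨H _ t38017.2.2.2.2.2.2.2, ⟨H _ t38025.1, H _ t38025.2.1⟩⟩⟩⟩⟩, ⟨⟨⟨⟨H _ t38025.2.2.1, H _ t38025.2.2.2.1⟩,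 ⟨H _ t38025.2.2.2.2.1, H _ t38025.2.2.2.2.2.1⟩⟩, ⟨⟨H _ t38025.2.2.2.2.2.2.1, H _ t38025.2.2.2.2.2.2.2⟩, ⟨H _ t38033.1, H _ t38033.2.1⟩⟩⟩, ⟨⟨⟨H _ t38033.2.2.1, H _ t38033.2.2.2.1⟩, ⟨H _ t38033.2.2.2.2.1, H _ t38033.2.2.2.2.2.1⟩⟩, ⟨⟨H _ t38033.2.2.2.2.2.2.1, H _ t38033.2.2.2.2.2.2.2⟩, ⟨H _ t38041.1, ⟨H _ t38041.2.1, H _ t38041.2.2.1⟩⟩⟩⟩⟩⟩, ⟨⟨⟨⟨⟨H _ t38041.2.2.2.1, H _ t38041.2.2.2.2.1⟩, ⟨H _ t38041.2.2.2.2.2.1, H _ t38041.2.2.2.2.2.2.1⟩⟩, ⟨⟨H _ t38041.2.2.2.2.2.2.2, H _ t38049.1⟩, ⟨H _ t38049.2.1, H _ t38049.2.2.1⟩⟩⟩, ⟨⟨⟨H _ t38049.2.2.2.1, H _ t38049.2.2.2.2.1⟩, ⟨H _ t38049.2.2.2.2.2.1, H _ t38049.2.2.2.2.2.2.1⟩⟩, ⟨⟨H _ t38049.2.2.2.2.2.2.2, H _ t38057.1⟩, ⟨H _ t38057.2.1, ⟨H _ t38057.2.2.1, H _ t38057.2.2.2.1⟩⟩⟩⟩⟩, ⟨⟨⟨⟨H _ t38057.2.2.2.2.1, H _ t38057.2.2.2.2.2.1⟩, ⟨H _ t38057.2.2.2.2.2.2.1, H _ t38057.2.2.2.2.2.2.2⟩⟩, ⟨⟨H _ t38065.1, H _ t38065.2.1⟩, ⟨H _ t38065.2.2.1, ⟨H _ t38065.2.2.2.1, H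 _ t38065.2.2.2.2.1⟩⟩⟩⟩, ⟨⟨⟨H _ t38065.2.2.2.2.2.1, H _ t38065.2.2.2.2.2.2.1⟩, ⟨H _ t38065.2.2.2.2.2.2.2, H _ t38073.1⟩⟩, ⟨⟨H _ t38073.2.1, H _ t38073.2.2.1⟩, ⟨H _ t38073.2.2.2.1, ⟨H _ t38073.2.2.2.2.1, H _ t38073.2.2.2.2.2.1⟩⟩⟩⟩⟩⟩⟩, ⟨⟨⟨⟨⟨⟨H _ t38073.2.2.2.2.2.2.1, H _ t38073.2.2.2.2.2.2.2⟩, ⟨H _ t38081.1, H _ t38081.2.1⟩⟩, ⟨⟨H _ t38081.2.2.1, H _ t38081.2.2.2.1⟩, ⟨H _ t38081.2.2.2.2.1, H _ t38081.2.2.2.2.2.1⟩⟩⟩, ⟨⟨⟨H _ t38081.2.2.2.2.2.2.1, H _ t38081.2.2.2.2.2.2.2⟩, ⟨H _ t38089.1, H _ t38089.2.1⟩⟩, ⟨⟨H _ t38089.2.2.1, H _ t38089.2.2.2.1⟩, ⟨H _ t38089.2.2.2.2.1, ⟨H _ t38089.2.2.2.2.2.1, H _ t38089.2.2.2.2.2.2.1⟩⟩⟩⟩⟩, ⟨⟨⟨⟨H _ t38089.2.2.2.2.2.2.2, H _ t38097.1⟩, ⟨H _ t38097.2.1, H _ t38097.2.2.1⟩⟩, ⟨⟨H _ t38097.2.2.2.1, H _ t38097.2.2.2.2.1⟩, ⟨H _ t38097.2.2.2.2.2.1, ⟨H _ t38097.2.2.2.2.2.2.1, H _ t38097.2.2.2.2.2.2.2⟩⟩⟩⟩, ⟨⟨⟨H _ t38105.1, H _ t38105.2.1⟩, ⟨H _ t38105.2.2.1, H _ t38105.2.2.2.1⟩⟩,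 ⟨⟨H _ t38105.2.2.2.2.1, H _ t38105.2.2.2.2.2.1⟩, ⟨H _ t38105.2.2.2.2.2.2.1, ⟨H _ t38105.2.2.2.2.2.2.2, H _ t38113.1⟩⟩⟩⟩⟩⟩, ⟨⟨⟨⟨⟨H _ t38113.2.1, H _ t38113.2.2.1⟩, ⟨H _ t38113.2.2.2.1, H _ t38113.2.2.2.2.1⟩⟩, ⟨⟨H _ t38113.2.2.2.2.2.1, H _ t38113.2.2.2.2.2.2.1⟩, ⟨H _ t38113.2.2.2.2.2.2.2, H _ t38121.1⟩⟩⟩, ⟨⟨⟨H _ t38121.2.1, H _ t38121.2.2.1⟩, ⟨H _ t38121.2.2.2.1, H _ t38121.2.2.2.2.1⟩⟩, ⟨⟨H _ t38121.2.2.2.2.2.1, H _ t38121.2.2.2.2.2.2.1⟩, ⟨H _ t38121.2.2.2.2.2.2.2, ⟨H _ t38129.1, H _ t38129.2.1⟩⟩⟩⟩⟩, ⟨⟨⟨⟨H _ t38129.2.2.1, H _ t38129.2.2.2.1⟩, ⟨H _ t38129.2.2.2.2.1, H _ t38129.2.2.2.2.2.1⟩⟩, ⟨⟨H _ t38129.2.2.2.2.2.2.1, H _ t38129.2.2.2.2.2.2.2⟩, ⟨H _ t38137.1, ⟨H _ t38137.2.1, H _ t38137.2.2.1⟩⟩⟩⟩, ⟨⟨⟨H _ t38137.2.2.2.1, H _ t38137.2.2.2.2.1⟩, ⟨H _ t38137.2.2.2.2.2.1, H _ t38137.2.2.2.2.2.2.1⟩⟩, ⟨⟨H _ t38137.2.2.2.2.2.2.2, H _ t38145.1⟩, ⟨H _ t38145.2.1, ⟨H _ t38145.2.2.1, H _ t38145.2.2.2⟩⟩⟩⟩⟩⟩⟩⟩⟩⟩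

end Pool.Agent.MP_c853c5_nt.X.C4950
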