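import Pool.Agent.MP_c853c5_nt.X.C4950.Env
import Pool.Agent.MP_c853c5_nt.X.C4950.Tab

set_option autoImplicit false
set_option maxRecDepth 8192
set_option linter.all false

namespace Pool.Agent.MP_c853c5_nt.X.C4950

open Pool.Agent.MP_c853c5_nt.X

def t38149 : allY (E.wth T1) l38149 = true ∧
    allY (E.wth T1) l38150 = true ∧
    allY (E.wth T1) l38151 = true ∧
    allY (E.wth T1) l38152 = true ∧
    allY (E.wth T1) l38153 = true ∧
    allY (E.wth T1) l38154 = true ∧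
    allY (E.wth T1) l38155 = true ∧
    allY (E.wth T1) l38156 = true :=
  ⟨by decide +kernel, by decide +kernel, by decide +kernel, by decide +kernel, by decide +kernel, by decide +kernel, by decide +kernel, by decide +kernel⟩

def t38157 : allY (E.wth T1) l38157 = true ∧
    allY (E.wth T1) l38158 = true ∧
    allY (E.wth T1) l38159 = true ∧
    allY (E.wth T1) l38160 = true ∧
    allY (E.wth T1) l38161 = true ∧
    allY (E.wth T1) l38162 = true ∧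
    allY (E.wth T1) l38163 = true ∧
    allY (E.wth T1) l38164 = true :=
  ⟨by decide +kernel, by decide +kernel, by decide +kernel, by decide +kernel, by decide +kernel, by decide +kernel, by decide +kernel, by decide +kernel⟩

def t38165 : allY (E.wth T1) l38165 = true ∧
    allY (E.wth T1) l38166 = true ∧
    allY (E.wth T1) l38167 = true ∧
    allY (E.wth T1) l38168 = true ∧
    allY (E.wth T1) l38169 = true ∧
    allY (E.wth T1) l38170 = true ∧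
    allY (E.wth T1) l38171 = true ∧
    allY (E.wth T1) l38172 = true :=
  ⟨by decide +kernel, by decide +kernel, by decide +kernel, by decide +kernel, by decide +kernel, by decide +kernel, by decide +kernel, by decide +kernel⟩

def t38173 : allY (E.wth T1) l38173 = true ∧
    allY (E.wth T1) l38174 = true ∧
    allY (E.wth T1) l38175 = true ∧
    allY (E.wth T1) l38176 = true ∧
    allY (E.wth T1) l38177 = true ∧
    allY (E.wth T1) l38178 = true ∧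
    allY (E.wth T1) l38179 = true ∧
    allY (E.wth T1) l38180 = true :=
  ⟨by decide +kernel, by decide +kernel, by decide +kernel, by decide +kernel, by decide +kernel, by decide +kernel, by decide +kernel, by decide +kernel⟩

def t38181 : allY (E.wth T1) l38181 = true ∧
    allY (E.wth T1) l38182 = true ∧
    allY (E.wth T1) l38183 = true ∧
    allY (E.wth T1) l38184 = true ∧
    allY (E.wth T1) l38185 = true ∧
    allY (E.wth T1) l38186 = true ∧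
    allY (E.wth T1) l38187 = true ∧
    allY (E.wth T1) l38188 = true :=
  ⟨by decide +kernel, by decide +kernel, by decide +kernel, by decide +kernel, by decide +kernel, by decide +kernel, by decide +kernel, by decide +kernel⟩

def t38189 : allY (E.wth T1) l38189 = true ∧
    allY (E.wth T1) l38190 = true ∧
    allY (E.wth T1) l38191 = true ∧
    allY (E.wth T1) l38192 = true ∧
    allY (E.wth T1) l38193 = true ∧
    allY (E.wth T1) l38194 = true ∧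
    allY (E.wth T1) l38195 = true ∧
    allY (E.wth T1) l38196 = true :=
  ⟨by decide +kernel, by decide +kernel, by decide +kernel, by decide +kernel, by decide +kernel, by decide +kernel, by decide +kernel, by decide +kernel⟩

def t38197 : allY (E.wth T1) l38197 = true ∧
    allY (E.wth T1) l38198 = true ∧
    allY (E.wth T1) l38199 = true ∧
    allY (E.wth T1) l38200 = true ∧
    allY (E.wth T1) l38201 = true ∧
    allY (E.wth T1) l38202 = true ∧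
    allY (E.wth T1) l38203 = true ∧
    allY (E.wth T1) l38204 = true :=
  ⟨by decide +kernel, by decide +kernel, by decide +kernel, by decide +kernel, by decide +kernel, by decide +kernel, by decide +kernel, by decide +kernel⟩

def t38205 : allY (E.wth T1) l38205 = true ∧
    allY (E.wth T1) l38206 = true ∧
    allY (E.wth T1) l38207 = true ∧
    allY (E.wth T1) l38208 = true ∧
    allY (E.wth T1) l38209 = true ∧
    allY (E.wth T1) l38210 = true ∧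
    allY (E.wth T1) l38211 = true ∧
    allY (E.wth T1) l38212 = true :=
  ⟨by decide +kernel, by decide +kernel, by decide +kernel, by decide +kernel, by decide +kernel, by decide +kernel, by decide +kernel, by decide +kernel⟩

def t38213 : allY (E.wth T1) l38213 = true ∧
    allY (E.wth T1) l38214 = true ∧
    allY (E.wth T1) l38215 = true ∧
    allY (E.wth T1) l38216 = true ∧
    allY (E.wth T1) l38217 = true ∧
    allY (E.wth T1) l38218 = true ∧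
    allY (E.wth T1) l38219 = true ∧
    allY (E.wth T1) l38220 = true :=
  ⟨by decide +kernel, by decide +kernel, by decide +kernel, by decide +kernel, by decide +kernel, by decide +kernel, by decide +kernel, by decide +kernel⟩

def t38221 : allY (E.wth T1) l38221 = true ∧
    allY (E.wth T1) l38222 = true ∧
    allY (E.wth T1) l38223 = true ∧
    allY (E.wth T1) l38224 = true ∧
    allY (E.wth T1) l38225 = true ∧
    allY (E.wth T1) l38226 = true ∧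
    allY (E.wth T1) l38227 = true ∧
    allY (E.wth T1) l38228 = true :=
  ⟨by decide +kernel, by decide +kernel, by decide +kernel, by decide +kernel, by decide +kernel, by decide +kernel, by decide +kernel, by decide +kernel⟩

def t38229 : allY (E.wth T1) l38229 = true ∧
    allY (E.wth T1) l38230 = true ∧
    allY (E.wth T1) l38231 = true ∧
    allY (E.wth T1) l38232 = true ∧
    allY (E.wth T1) l38233 = true ∧
    allY (E.wth T1) l38234 = true ∧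
    allY (E.wth T1) l38235 = true ∧
    allY (E.wth T1) l38236 = true :=
  ⟨by decide +kernel, by decide +kernel, by decide +kernel, by decide +kernel, by decide +kernel, by decide +kernel, by decide +kernel, by decide +kernel⟩

def t38237 : allY (E.wth T1) l38237 = true ∧
    allY (E.wth T1) l38238 = true ∧
    allY (E.wth T1) l38239 = true ∧
    allY (E.wth T1) l38240 = true ∧
    allY (E.wth T1) l38241 = true ∧
    allY (E.wth T1) l38242 = true ∧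
    allY (E.wth T1) l38243 = true ∧
    allY (E.wth T1) l38244 = true :=
  ⟨by decide +kernel, by decide +kernel, by decide +kernel, by decide +kernel, by decide +kernel, by decide +kernel, by decide +kernel, by decide +kernel⟩

def t38245 : allY (E.wth T1) l38245 = true ∧
    allY (E.wth T1) l38246 = true ∧
    allY (E.wth T1) l38247 = true ∧
    allY (E.wth T1) l38248 = true ∧
    allY (E.wth T1) l38249 = true ∧
    allY (E.wth T1) l38250 = true ∧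
    allY (E.wth T1) l38251 = true ∧
    allY (E.wth T1) l38252 = true :=
  ⟨by decide +kernel, by decide +kernel, by decide +kernel, by decide +kernel, by decide +kernel, by decide +kernel, by decide +kernel, by decide +kernel⟩

def t38253 : allY (E.wth T1) l38253 = true ∧
    allY (E.wth T1) l38254 = true ∧
    allY (E.wth T1) l38255 = true ∧
    allY (E.wth T1) l38256 = true ∧
    allY (E.wth T1) l38257 = true ∧
    allY (E.wth T1) l38258 = true ∧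
    allY (E.wth T1) l38259 = true ∧
    allY (E.wth T1) l38260 = true :=
  ⟨by decide +kernel, by decide +kernel, by decide +kernel, by decide +kernel, by decide +kernel, by decide +kernel, by decide +kernel, by decide +kernel⟩

def t38261 : allY (E.wth T1) l38261 = true ∧
    allY (E.wth T1) l38262 = true ∧
    allY (E.wth T1) l38263 = true ∧
    allY (E.wth T1) l38264 = true ∧
    allY (E.wth T1) l38265 = true ∧
    allY (E.wth T1) l38266 = true ∧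
    allY (E.wth T1) l38267 = true ∧
    allY (E.wth T1) l38268 = true :=
  ⟨by decide +kernel, by decide +kernel, by decide +kernel, by decide +kernel, by decide +kernel, by decide +kernel, by decide +kernel, by decide +kernel⟩

def t38269 : allY (E.wth T1) l38269 = true ∧
    allY (E.wth T1) l38270 = true ∧
    allY (E.wth T1) l38271 = true ∧
    allY (E.wth T1) l38272 = true ∧
    allY (E.wth T1) l38273 = true ∧
    allY (E.wth T1) l38274 = true ∧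
    allY (E.wth T1) l38275 = true ∧
    allY (E.wth T1) l38276 = true :=
  ⟨by decide +kernel, by decide +kernel, by decide +kernel, by decide +kernel, by decide +kernel, by decide +kernel, by decide +kernel, by decide +kernel⟩

def t38277 : allY (E.wth T1) l38277 = true ∧
    allY (E.wth T1) l38278 = true ∧
    allY (E.wth T1) l38279 = true ∧
    allY (E.wth T1) l38280 = true ∧
    allY (E.wth T1) l38281 = true ∧
    allY (E.wth T1) l38282 = true ∧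
    allY (E.wth T1) l38283 = true ∧
    allY (E.wth T1) l38284 = true :=
  ⟨by decide +kernel, by decide +kernel, by decide +kernel, by decide +kernel, by decide +kernel, by decide +kernel, by decide +kernel, by decide +kernel⟩

def t38285 : allY (E.wth T1) l38285 = true ∧
    allY (E.wth T1) l38286 = true ∧
    allY (E.wth T1) l38287 = true ∧
    allY (E.wth T1) l38288 = true ∧
    allY (E.wth T1) l38289 = true ∧
    allY (E.wth T1) l38290 = true ∧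
    allY (E.wth T1) l38291 = true ∧
    allY (E.wth T1) l38292 = true :=
  ⟨by decide +kernel, by decide +kernel, by decide +kernel, by decide +kernel, by decide +kernel, by decide +kernel, by decide +kernel, by decide +kernel⟩

def t38293 : allY (E.wth T1) l38293 = true ∧
    allY (E.wth T1) l38294 = true ∧
    allY (E.wth T1) l38295 = true ∧
    allY (E.wth T1) l38296 = true ∧
    allY (E.wth T1) l38297 = true ∧
    allY (E.wth T1) l38298 = true ∧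
    allY (E.wth T1) l38299 = true ∧
    allY (E.wth T1) l38300 = true :=
  ⟨by decide +kernel, by decide +kernel, by decide +kernel, by decide +kernel, by decide +kernel, by decide +kernel, by decide +kernel, by decide +kernel⟩

def t38301 : allY (E.wth T1) l38301 = true ∧
    allY (E.wth T1) l38302 = true ∧
    allY (E.wth T1) l38303 = true ∧
    allY (E.wth T1) l38304 = true ∧
    allY (E.wth T1) l38305 = true ∧
    allY (E.wth T1) l38306 = true ∧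
    allY (E.wth T1) l38307 = true ∧
    allY (E.wth T1) l38308 = true :=
  ⟨by decide +kernel, by decide +kernel, by decide +kernel, by decide +kernel, by decide +kernel, by decide +kernel, by decide +kernel, by decide +kernel⟩

def t38309 : allY (E.wth T1) l38309 = true ∧
    allY (E.wth T1) l38310 = true ∧
    allY (E.wth T1) l38311 = true ∧
    allY (E.wth T1) l38312 = true ∧
    allY (E.wth T1) l38313 = true ∧
    allY (E.wth T1) l38314 = true ∧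
    allY (E.wth T1) l38315 = true ∧
    allY (E.wth T1) l38316 = true :=
  ⟨by decide +kernel, by decide +kernel, by decide +kernel, by decide +kernel, by decide +kernel, by decide +kernel, by decide +kernel, by decide +kernel⟩

def t38317 : allY (E.wth T1) l38317 = true ∧
    allY (E.wth T1) l38318 = true ∧
    allY (E.wth T1) l38319 = true ∧
    allY (E.wth T1) l38320 = true ∧
    allY (E.wth T1) l38321 = true ∧
    allY (E.wth T1) l38322 = true ∧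
    allY (E.wth T1) l38323 = true ∧
    allY (E.wth T1) l38324 = true :=
  ⟨by decide +kernel, by decide +kernel, by decide +kernel, by decide +kernel, by decide +kernel, by decide +kernel, by decide +kernel, by decide +kernel⟩

def t38325 : allY (E.wth T1) l38325 = true ∧
    allY (E.wth T1) l38326 = true ∧
    allY (E.wth T1) l38327 = true ∧
    allY (E.wth T1) l38328 = true ∧
    allY (E.wth T1) l38329 = true ∧
    allY (E.wth T1) l38330 = true ∧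
    allY (E.wth T1) l38331 = true ∧
    allY (E.wth T1) l38332 = true :=
  ⟨by decide +kernel, by decide +kernel, by decide +kernel, by decide +kernel, by decide +kernel, by decide +kernel, by decide +kernel, by decide +kernel⟩

def t38333 : allY (E.wth T1) l38333 = true ∧
    allY (E.wth T1) l38334 = true ∧
    allY (E.wth T1) l38335 = true ∧
    allY (E.wth T1) l38336 = true ∧
    allY (E.wth T1) l38337 = true ∧
    allY (E.wth T1) l38338 = true ∧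
    allY (E.wth T1) l38339 = true ∧
    allY (E.wth T1) l38340 = true :=
  ⟨by decide +kernel, by decide +kernel, by decide +kernel, by decide +kernel, by decide +kernel, by decide +kernel, by decide +kernel, by decide +kernel⟩

def t38341 : allY (E.wth T1) l38341 = true ∧
    allY (E.wth T1) l38342 = true ∧
    allY (E.wth T1) l38343 = true ∧
    allY (E.wth T1) l38344 = true ∧
    allY (E.wth T1) l38345 = true ∧
    allY (E.wth T1) l38346 = true ∧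
    allY (E.wth T1) l38347 = true ∧
    allY (E.wth T1) l38348 = true :=
  ⟨by decide +kernel, by decide +kernel, by decide +kernel, by decide +kernel, by decide +kernel, by decide +kernel, by decide +kernel, by decide +kernel⟩

def t38349 : allY (E.wth T1) l38349 = true ∧
    allY (E.wth T1) l38350 = true ∧
    allY (E.wth T1) l38351 = true ∧
    allY (E.wth T1) l38352 = true ∧
    allY (E.wth T1) l38353 = true ∧
    allY (E.wth T1) l38354 = true ∧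
    allY (E.wth T1) l38355 = true ∧
    allY (E.wth T1) l38356 = true :=
  ⟨by decide +kernel, by decide +kernel, by decide +kernel, by decide +kernel, by decide +kernel, by decide +kernel, by decide +kernel, by decide +kernel⟩

def t38357 : allY (E.wth T1) l38357 = true ∧
    allY (E.wth T1) l38358 = true ∧
    allY (E.wth T1) l38359 = true ∧
    allY (E.wth T1) l38360 = true ∧
    allY (E.wth T1) l38361 = true ∧
    allY (E.wth T1) l38362 = true ∧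
    allY (E.wth T1) l38363 = true ∧
    allY (E.wth T1) l38364 = true :=
  ⟨by decide +kernel, by decide +kernel, by decide +kernel, by decide +kernel, by decide +kernel, by decide +kernel, by decide +kernel, by decide +kernel⟩

def t38365 : allY (E.wth T1) l38365 = true ∧
    allY (E.wth T1) l38366 = true ∧
    allY (E.wth T1) l38367 = true ∧
    allY (E.wth T1) l38368 = true ∧
    allY (E.wth T1) l38369 = true ∧
    allY (E.wth T1) l38370 = true ∧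
    allY (E.wth T1) l38371 = true ∧
    allY (E.wth T1) l38372 = true :=
  ⟨by decide +kernel, by decide +kernel, by decide +kernel, by decide +kernel, by decide +kernel, by decide +kernel, by decide +kernel, by decide +kernel⟩

def t38373 : allY (E.wth T1) l38373 = true ∧
    allY (E.wth T1) l38374 = true ∧
    allY (E.wth T1) l38375 = true ∧
    allY (E.wth T1) l38376 = true ∧
    allY (E.wth T1) l38377 = true ∧
    allY (E.wth T1) l38378 = true ∧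
    allY (E.wth T1) l38379 = true ∧
    allY (E.wth T1) l38380 = true :=
  ⟨by decide +kernel, by decide +kernel, by decide +kernel, by decide +kernel, by decide +kernel, by decide +kernel, by decide +kernel, by decide +kernel⟩

def t38381 : allY (E.wth T1) l38381 = true ∧
    allY (E.wth T1) l38382 = true ∧
    allY (E.wth T1) l38383 = true ∧
    allY (E.wth T1) l38384 = true ∧
    allY (E.wth T1) l38385 = true ∧
    allY (E.wth T1) l38386 = true ∧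
    allY (E.wth T1) l38387 = true ∧
    allY (E.wth T1) l38388 = true :=
  ⟨by decide +kernel, by decide +kernel, by decide +kernel, by decide +kernel, by decide +kernel, by decide +kernel, by decide +kernel, by decide +kernel⟩

def t38389 : allY (E.wth T1) l38389 = true ∧
    allY (E.wth T1) l38390 = true ∧
    allY (E.wth T1) l38391 = true ∧
    allY (E.wth T1) l38392 = true ∧
    allY (E.wth T1) l38393 = true ∧
    allY (E.wth T1) l38394 = true ∧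
    allY (E.wth T1) l38395 = true ∧
    allY (E.wth T1) l38396 = true :=
  ⟨by decide +kernel, by decide +kernel, by decide +kernel, by decide +kernel, by decide +kernel, by decide +kernel, by decide +kernel, by decide +kernel⟩

def t38397 : allY (E.wth T1) l38397 = true ∧
    allY (E.wth T1) l38398 = true ∧
    allY (E.wth T1) l38399 = true ∧
    allY (E.wth T1) l38400 = true ∧
    allY (E.wth T1) l38401 = true ∧
    allY (E.wth T1) l38402 = true ∧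
    allY (E.wth T1) l38403 = true ∧
    allY (E.wth T1) l38404 = true :=
  ⟨by decide +kernel, by decide +kernel, by decide +kernel, by decide +kernel, by decide +kernel, by decide +kernel, by decide +kernel, by decide +kernel⟩

def t38405 : allY (E.wth T1) l38405 = true ∧
    allY (E.wth T1) l38406 = true ∧
    allY (E.wth T1) l38407 = true ∧
    allY (E.wth T1) l38408 = true ∧
    allY (E.wth T1) l38409 = true ∧
    allY (E.wth T1) l38410 = true ∧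
    allY (E.wth T1) l38411 = true ∧
    allY (E.wth T1) l38412 = true :=
  ⟨by decide +kernel, by decide +kernel, by decide +kernel, by decide +kernel, by decide +kernel, by decide +kernel, by decide +kernel, by decide +kernel⟩

def t38413 : allY (E.wth T1) l38413 = true ∧
    allY (E.wth T1) l38414 = true ∧
    allY (E.wth T1) l38415 = true ∧
    allY (E.wth T1) l38416 = true ∧
    allY (E.wth T1) l38417 = true ∧
    allY (E.wth T1) l38418 = true ∧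
    allY (E.wth T1) l38419 = true ∧
    allY (E.wth T1) l38420 = true :=
  ⟨by decide +kernel, by decide +kernel, by decide +kernel, by decide +kernel, by decide +kernel, by decide +kernel, by decide +kernel, by decide +kernel⟩

def t38421 : allY (E.wth T1) l38421 = true ∧
    allY (E.wth T1) l38422 = true ∧
    allY (E.wth T1) l38423 = true ∧
    allY (E.wth T1) l38424 = true ∧
    allY (E.wth T1) l38425 = true ∧
    allY (E.wth T1) l38426 = true ∧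
    allY (E.wth T1) l38427 = true ∧
    allY (E.wth T1) l38428 = true :=
  ⟨by decide +kernel, by decide +kernel, by decide +kernel, by decide +kernel, by decide +kernel, by decide +kernel, by decide +kernel, by decide +kernel⟩

def t38429 : allY (E.wth T1) l38429 = true ∧
    allY (E.wth T1) l38430 = true ∧
    allY (E.wth T1) l38431 = true ∧
    allY (E.wth T1) l38432 = true ∧
    allY (E.wth T1) l38433 = true ∧
    allY (E.wth T1) l38434 = true ∧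
    allY (E.wth T1) l38435 = true ∧
    allY (E.wth T1) l38436 = true :=
  ⟨by decide +kernel, by decide +kernel, by decide +kernel, by decide +kernel, by decide +kernel, by decide +kernel, by decide +kernel, by decide +kernel⟩

def t38437 : allY (E.wth T1) l38437 = true ∧
    allY (E.wth T1) l38438 = true ∧
    allY (E.wth T1) l38439 = true ∧
    allY (E.wth T1) l38440 = true ∧
    allY (E.wth T1) l38441 = true ∧
    allY (E.wth T1) l38442 = true ∧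
    allY (E.wth T1) l38443 = true ∧
    allY (E.wth T1) l38444 = true :=
  ⟨by decide +kernel, by decide +kernel, by decide +kernel, by decide +kernel, by decide +kernel, by decide +kernel, by decide +kernel, by decide +kernel⟩

def t38445 : allY (E.wth T1) l38445 = true ∧
    allY (E.wth T1) l38446 = true ∧
    allY (E.wth T1) l38447 = true ∧
    allY (E.wth T1) l38448 = true ∧
    allY (E.wth T1) l38449 = true ∧
    allY (E.wth T1) l38450 = true ∧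
    allY (E.wth T1) l38451 = true ∧
    allY (E.wth T1) l38452 = true :=
  ⟨by decide +kernel, by decide +kernel, by decide +kernel, by decide +kernel, by decide +kernel, by decide +kernel, by decide +kernel, by decide +kernel⟩

def t38453 : allY (E.wth T1) l38453 = true ∧
    allY (E.wth T1) l38454 = true ∧
    allY (E.wth T1) l38455 = true ∧
    allY (E.wth T1) l38456 = true ∧
    allY (E.wth T1) l38457 = true ∧
    allY (E.wth T1) l38458 = true ∧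
    allY (E.wth T1) l38459 = true ∧
    allY (E.wth T1) l38460 = true :=
  ⟨by decide +kernel, by decide +kernel, by decide +kernel, by decide +kernel, by decide +kernel, by decide +kernel, by decide +kernel, by decide +kernel⟩

def t38461 : allY (E.wth T1) l38461 = true ∧
    allY (E.wth T1) l38462 = true ∧
    allY (E.wth T1) l38463 = true ∧
    allY (E.wth T1) l38464 = true ∧
    allY (E.wth T1) l38465 = true ∧
    allY (E.wth T1) l38466 = true ∧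
    allY (E.wth T1) l38467 = true ∧
    allY (E.wth T1) l38468 = true :=
  ⟨by decide +kernel, by decide +kernel, by decide +kernel, by decide +kernel, by decide +kernel, by decide +kernel, by decide +kernel, by decide +kernel⟩

def t38469 : allY (E.wth T1) l38469 = true ∧
    allY (E.wth T1) l38470 = true ∧
    allY (E.wth T1) l38471 = true ∧
    allY (E.wth T1) l38472 = true ∧
    allY (E.wth T1) l38473 = true ∧
    allY (E.wth T1) l38474 = true ∧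
    allY (E.wth T1) l38475 = true ∧
    allY (E.wth T1) l38476 = true :=
  ⟨by decide +kernel, by decide +kernel, by decide +kernel, by decide +kernel, by decide +kernel, by decide +kernel, by decide +kernel, by decide +kernel⟩

def t38477 : allY (E.wth T1) l38477 = true ∧
    allY (E.wth T1) l38478 = true ∧
    allY (E.wth T1) l38479 = true ∧
    allY (E.wth T1) l38480 = true ∧
    allY (E.wth T1) l38481 = true ∧
    allY (E.wth T1) l38482 = true ∧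
    allY (E.wth T1) l38483 = true ∧
    allY (E.wth T1) l38484 = true :=
  ⟨by decide +kernel, by decide +kernel, by decide +kernel, by decide +kernel, by decide +kernel, by decide +kernel, by decide +kernel, by decide +kernel⟩

def t38485 : allY (E.wth T1) l38485 = true ∧
    allY (E.wth T1) l38486 = true ∧
    allY (E.wth T1) l38487 = true ∧
    allY (E.wth T1) l38488 = true ∧
    allY (E.wth T1) l38489 = true ∧
    allY (E.wth T1) l38490 = true ∧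
    allY (E.wth T1) l38491 = true ∧
    allY (E.wth T1) l38492 = true :=
  ⟨by decide +kernel, by decide +kernel, by decide +kernel, by decide +kernel, by decide +kernel, by decide +kernel, by decide +kernel, by decide +kernel⟩

def t38493 : allY (E.wth T1) l38493 = true ∧
    allY (E.wth T1) l38494 = true ∧
    allY (E.wth T1) l38495 = true ∧
    allY (E.wth T1) l38496 = true ∧
    allY (E.wth T1) l38497 = true ∧
    allY (E.wth T1) l38498 = true ∧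
    allY (E.wth T1) l38499 = true ∧
    allY (E.wth T1) l38500 = true :=
  ⟨by decide +kernel, by decide +kernel, by decide +kernel, by decide +kernel, by decide +kernel, by decide +kernel, by decide +kernel, by decide +kernel⟩

def t38501 : allY (E.wth T1) l38501 = true ∧
    allY (E.wth T1) l38502 = true ∧
    allY (E.wth T1) l38503 = true ∧
    allY (E.wth T1) l38504 = true ∧
    allY (E.wth T1) l38505 = true ∧
    allY (E.wth T1) l38506 = true ∧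
    allY (E.wth T1) l38507 = true ∧
    allY (E.wth T1) l38508 = true :=
  ⟨by decide +kernel, by decide +kernel, by decide +kernel, by decide +kernel, by decide +kernel, by decide +kernel, by decide +kernel, by decide +kernel⟩

def t38509 : allY (E.wth T1) l38509 = true ∧
    allY (E.wth T1) l38510 = true ∧
    allY (E.wth T1) l38511 = true ∧
    allY (E.wth T1) l38512 = true ∧
    allY (E.wth T1) l38513 = true ∧
    allY (E.wth T1) l38514 = true ∧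
    allY (E.wth T1) l38515 = true ∧
    allY (E.wth T1) l38516 = true :=
  ⟨by decide +kernel, by decide +kernel, by decide +kernel, by decide +kernel, by decide +kernel, by decide +kernel, by decide +kernel, by decide +kernel⟩

def t38517 : allY (E.wth T1) l38517 = true ∧
    allY (E.wth T1) l38518 = true ∧
    allY (E.wth T1) l38519 = true ∧
    allY (E.wth T1) l38520 = true ∧
    allY (E.wth T1) l38521 = true ∧
    allY (E.wth T1) l38522 = true ∧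
    allY (E.wth T1) l38523 = true ∧
    allY (E.wth T1) l38524 = true :=
  ⟨by decide +kernel, by decide +kernel, by decide +kernel, by decide +kernel, by decide +kernel, by decide +kernel, by decide +kernel, by decide +kernel⟩

def t38525 : allY (E.wth T1) l38525 = true ∧
    allY (E.wth T1) l38526 = true ∧
    allY (E.wth T1) l38527 = true ∧
    allY (E.wth T1) l38528 = true ∧
    allY (E.wth T1) l38529 = true ∧
    allY (E.wth T1) l38530 = true ∧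
    allY (E.wth T1) l38531 = true ∧
    allY (E.wth T1) l38532 = true :=
  ⟨by decide +kernel, by decide +kernel, by decide +kernel, by decide +kernel, by decide +kernel, by decide +kernel, by decide +kernel, by decide +kernel⟩

def t38533 : allY (E.wth T1) l38533 = true ∧
    allY (E.wth T1) l38534 = true ∧
    allY (E.wth T1) l38535 = true ∧
    allY (E.wth T1) l38536 = true ∧
    allY (E.wth T1) l38537 = true ∧
    allY (E.wth T1) l38538 = true ∧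
    allY (E.wth T1) l38539 = true ∧
    allY (E.wth T1) l38540 = true :=
  ⟨by decide +kernel, by decide +kernel, by decide +kernel, by decide +kernel, by decide +kernel, by decide +kernel, by decide +kernel, by decide +kernel⟩

def t38541 : allY (E.wth T1) l38541 = true ∧
    allY (E.wth T1) l38542 = true ∧
    allY (E.wth T1) l38543 = true ∧
    allY (E.wth T1) l38544 = true ∧
    allY (E.wth T1) l38545 = true ∧
    allY (E.wth T1) l38546 = true ∧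
    allY (E.wth T1) l38547 = true ∧
    allY (E.wth T1) l38548 = true :=
  ⟨by decide +kernel, by decide +kernel, by decide +kernel, by decide +kernel, by decide +kernel, by decide +kernel, by decide +kernel, by decide +kernel⟩

def t38549 : allY (E.wth T1) l38549 = true ∧
    allY (E.wth T1) l38550 = true ∧
    allY (E.wth T1) l38551 = true ∧
    allY (E.wth T1) l38552 = true ∧
    allY (E.wth T1) l38553 = true ∧
    allY (E.wth T1) l38554 = true ∧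
    allY (E.wth T1) l38555 = true ∧
    allY (E.wth T1) l38556 = true :=
  ⟨by decide +kernel, by decide +kernel, by decide +kernel, by decide +kernel, by decide +kernel, by decide +kernel, by decide +kernel, by decide +kernel⟩

def t38557 : allY (E.wth T1) l38557 = true ∧
    allY (E.wth T1) l38558 = true ∧
    allY (E.wth T1) l38559 = true ∧
    allY (E.wth T1) l38560 = true ∧
    allY (E.wth T1) l38561 = true ∧
    allY (E.wth T1) l38562 = true ∧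
    allY (E.wth T1) l38563 = true ∧
    allY (E.wth T1) l38564 = true :=
  ⟨by decide +kernel, by decide +kernel, by decide +kernel, by decide +kernel, by decide +kernel, by decide +kernel, by decide +kernel, by decide +kernel⟩

def t38565 : allY (E.wth T1) l38565 = true ∧
    allY (E.wth T1) l38566 = true ∧
    allY (E.wth T1) l38567 = true ∧
    allY (E.wth T1) l38568 = true ∧
    allY (E.wth T1) l38569 = true ∧
    allY (E.wth T1) l38570 = true ∧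
    allY (E.wth T1) l38571 = true ∧
    allY (E.wth T1) l38572 = true :=
  ⟨by decide +kernel, by decide +kernel, by decide +kernel, by decide +kernel, by decide +kernel, by decide +kernel, by decide +kernel, by decide +kernel⟩

def t38573 : allY (E.wth T1) l38573 = true ∧
    allY (E.wth T1) l38574 = true ∧
    allY (E.wth T1) l38575 = true ∧
    allY (E.wth T1) l38576 = true ∧
    allY (E.wth T1) l38577 = true ∧
    allY (E.wth T1) l38578 = true ∧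
    allY (E.wth T1) l38579 = true ∧
    allY (E.wth T1) l38580 = true :=
  ⟨by decide +kernel, by decide +kernel, by decide +kernel, by decide +kernel, by decide +kernel, by decide +kernel, by decide +kernel, by decide +kernel⟩

def t38581 : allY (E.wth T1) l38581 = true ∧
    allY (E.wth T1) l38582 = true ∧
    allY (E.wth T1) l38583 = true ∧
    allY (E.wth T1) l38584 = true ∧
    allY (E.wth T1) l38585 = true ∧
    allY (E.wth T1) l38586 = true ∧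
    allY (E.wth T1) l38587 = true ∧
    allY (E.wth T1) l38588 = true :=
  ⟨by decide +kernel, by decide +kernel, by decide +kernel, by decide +kernel, by decide +kernel, by decide +kernel, by decide +kernel, by decide +kernel⟩

def t38589 : allY (E.wth T1) l38589 = true ∧
    allY (E.wth T1) l38590 = true ∧
    allY (E.wth T1) l38591 = true ∧
    allY (E.wth T1) l38592 = true ∧
    allY (E.wth T1) l38593 = true ∧
    allY (E.wth T1) l38594 = true ∧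
    allY (E.wth T1) l38595 = true ∧
    allY (E.wth T1) l38596 = true :=
  ⟨by decide +kernel, by decide +kernel, by decide +kernel, by decide +kernel, by decide +kernel, by decide +kernel, by decide +kernel, by decide +kernel⟩

def t38597 : allY (E.wth T1) l38597 = true ∧
    allY (E.wth T1) l38598 = true ∧
    allY (E.wth T1) l38599 = true ∧
    allY (E.wth T1) l38600 = true ∧
    allY (E.wth T1) l38601 = true ∧
    allY (E.wth T1) l38602 = true ∧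
    allY (E.wth T1) l38603 = true ∧
    allY (E.wth T1) l38604 = true :=
  ⟨by decide +kernel, by decide +kernel, by decide +kernel, by decide +kernel, by decide +kernel, by decide +kernel, by decide +kernel, by decide +kernel⟩

def t38605 : allY (E.wth T1) l38605 = true ∧
    allY (E.wth T1) l38606 = true ∧
    allY (E.wth T1) l38607 = true ∧
    allY (E.wth T1) l38608 = true ∧
    allY (E.wth T1) l38609 = true ∧
    allY (E.wth T1) l38610 = true ∧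
    allY (E.wth T1) l38611 = true ∧
    allY (E.wth T1) l38612 = true :=
  ⟨by decide +kernel, by decide +kernel, by decide +kernel, by decide +kernel, by decide +kernel, by decide +kernel, by decide +kernel, by decide +kernel⟩

def t38613 : allY (E.wth T1) l38613 = true ∧
    allY (E.wth T1) l38614 = true ∧
    allY (E.wth T1) l38615 = true ∧
    allY (E.wth T1) l38616 = true ∧
    allY (E.wth T1) l38617 = true ∧
    allY (E.wth T1) l38618 = true ∧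
    allY (E.wth T1) l38619 = true ∧
    allY (E.wth T1) l38620 = true :=
  ⟨by decide +kernel, by decide +kernel, by decide +kernel, by decide +kernel, by decide +kernel, by decide +kernel, by decide +kernel, by decide +kernel⟩

def t38621 : allY (E.wth T1) l38621 = true ∧
    allY (E.wth T1) l38622 = true ∧
    allY (E.wth T1) l38623 = true ∧
    allY (E.wth T1) l38624 = true ∧
    allY (E.wth T1) l38625 = true ∧
    allY (E.wth T1) l38626 = true ∧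
    allY (E.wth T1) l38627 = true ∧
    allY (E.wth T1) l38628 = true :=
  ⟨by decide +kernel, by decide +kernel, by decide +kernel, by decide +kernel, by decide +kernel, by decide +kernel, by decide +kernel, by decide +kernel⟩

def t38629 : allY (E.wth T1) l38629 = true ∧
    allY (E.wth T1) l38630 = true ∧
    allY (E.wth T1) l38631 = true ∧
    allY (E.wth T1) l38632 = true ∧
    allY (E.wth T1) l38633 = true ∧
    allY (E.wth T1) l38634 = true ∧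
    allY (E.wth T1) l38635 = true ∧
    allY (E.wth T1) l38636 = true :=
  ⟨by decide +kernel, by decide +kernel, by decide +kernel, by decide +kernel, by decide +kernel, by decide +kernel, by decide +kernel, by decide +kernel⟩

def t38637 : allY (E.wth T1) l38637 = true ∧
    allY (E.wth T1) l38638 = true ∧
    allY (E.wth T1) l38639 = true ∧
    allY (E.wth T1) l38640 = true ∧
    allY (E.wth T1) l38641 = true ∧
    allY (E.wth T1) l38642 = true ∧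
    allY (E.wth T1) l38643 = true ∧
    allY (E.wth T1) l38644 = true :=
  ⟨by decide +kernel, by decide +kernel, by decide +kernel, by decide +kernel, by decide +kernel, by decide +kernel, by decide +kernel, by decide +kernel⟩

def t38645 : allY (E.wth T1) l38645 = true ∧
    allY (E.wth T1) l38646 = true ∧
    allY (E.wth T1) l38647 = true ∧
    allY (E.wth T1) l38648 = true ∧
    allY (E.wth T1) l38649 = true ∧
    allY (E.wth T1) l38650 = true ∧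
    allY (E.wth T1) l38651 = true ∧
    allY (E.wth T1) l38652 = true :=
  ⟨by decide +kernel, by decide +kernel, by decide +kernel, by decide +kernel, by decide +kernel, by decide +kernel, by decide +kernel, by decide +kernel⟩

def t38653 : allY (E.wth T1) l38653 = true ∧
    allY (E.wth T1) l38654 = true ∧
    allY (E.wth T1) l38655 = true ∧
    allY (E.wth T1) l38656 = true ∧
    allY (E.wth T1) l38657 = true ∧
    allY (E.wth T1) l38658 = true ∧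
    allY (E.wth T1) l38659 = true ∧
    allY (E.wth T1) l38660 = true :=
  ⟨by decide +kernel, by decide +kernel, by decide +kernel, by decide +kernel, by decide +kernel, by decide +kernel, by decide +kernel, by decide +kernel⟩

def t38661 : allY (E.wth T1) l38661 = true ∧
    allY (E.wth T1) l38662 = true ∧
    allY (E.wth T1) l38663 = true ∧
    allY (E.wth T1) l38664 = true ∧
    allY (E.wth T1) l38665 = true ∧
    allY (E.wth T1) l38666 = true ∧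
    allY (E.wth T1) l38667 = true ∧
    allY (E.wth T1) l38668 = true :=
  ⟨by decide +kernel, by decide +kernel, by decide +kernel, by decide +kernel, by decide +kernel, by decide +kernel, by decide +kernel, by decide +kernel⟩

def t38669 : allY (E.wth T1) l38669 = true ∧
    allY (E.wth T1) l38670 = true ∧
    allY (E.wth T1) l38671 = true ∧
    allY (E.wth T1) l38672 = true ∧
    allY (E.wth T1) l38673 = true ∧
    allY (E.wth T1) l38674 = true ∧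
    allY (E.wth T1) l38675 = true ∧
    allY (E.wth T1) l38676 = true :=
  ⟨by decide +kernel, by decide +kernel, by decide +kernel, by decide +kernel, by decide +kernel, by decide +kernel, by decide +kernel, by decide +kernel⟩

def t38677 : allY (E.wth T1) l38677 = true ∧
    allY (E.wth T1) l38678 = true ∧
    allY (E.wth T1) l38679 = true ∧
    allY (E.wth T1) l38680 = true ∧
    allY (E.wth T1) l38681 = true ∧
    allY (E.wth T1) l38682 = true ∧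
    allY (E.wth T1) l38683 = true ∧
    allY (E.wth T1) l38684 = true :=
  ⟨by decide +kernel, by decide +kernel, by decide +kernel, by decide +kernel, by decide +kernel, by decide +kernel, by decide +kernel, by decide +kernel⟩

def t38685 : allY (E.wth T1) l38685 = true ∧
    allY (E.wth T1) l38686 = true ∧
    allY (E.wth T1) l38687 = true ∧
    allY (E.wth T1) l38688 = true ∧
    allY (E.wth T1) l38689 = true ∧
    allY (E.wth T1) l38690 = true ∧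
    allY (E.wth T1) l38691 = true ∧
    allY (E.wth T1) l38692 = true :=
  ⟨by decide +kernel, by decide +kernel, by decide +kernel, by decide +kernel, by decide +kernel, by decide +kernel, by decide +kernel, by decide +kernel⟩

def t38693 : allY (E.wth T1) l38693 = true ∧
    allY (E.wth T1) l38694 = true ∧
    allY (E.wth T1) l38695 = true :=
  ⟨by decide +kernel, by decide +kernel, by decide +kernel⟩

theorem a69 {p : Rf → Prop} (H : ∀ l, allY (E.wth T1) l = true → (lkp l).All p) :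
    b69.All p := ⟨⟨⟨⟨⟨⟨⟨⟨⟨H _ t38149.1, H _ t38149.2.1⟩, ⟨H _ t38149.2.2.1, H _ t38149.2.2.2.1⟩⟩, ⟨⟨H _ t38149.2.2.2.2.1, H _ t38149.2.2.2.2.2.1⟩, ⟨H _ t38149.2.2.2.2.2.2.1, H _ t38149.2.2.2.2.2.2.2⟩⟩⟩, ⟨⟨⟨H _ t38157.1, H _ t38157.2.1⟩, ⟨H _ t38157.2.2.1, H _ t38157.2.2.2.1⟩⟩, ⟨⟨H _ t38157.2.2.2.2.1, H _ t38157.2.2.2.2.2.1⟩, ⟨H _ t38157.2.2.2.2.2.2.1, ⟨H _ t38157.2.2.2.2.2.2.2, H _ t38165.1⟩⟩⟩⟩⟩, ⟨⟨⟨⟨H _ t38165.2.1, H _ t38165.2.2.1⟩, ⟨H _ t38165.2.2.2.1, H _ t38165.2.2.2.2.1⟩⟩, ⟨⟨H _ t38165.2.2.2.2.2.1, H _ t38165.2.2.2.2.2.2.1⟩, ⟨H _ t38165.2.2.2.2.2.2.2, H _ t38173.1⟩⟩⟩, ⟨⟨⟨H _ t38173.2.1, H _ t38173.2.2.1⟩, ⟨H _ t38173.2.2.2.1, H _ t38173.2.2.2.2.1⟩⟩, ⟨⟨H _ t38173.2.2.2.2.2.1, H _ t38173.2.2.2.2.2.2.1⟩, ⟨H _ t38173.2.2.2.2.2.2.2, ⟨H _ t38181.1, H _ t38181.2.1⟩⟩⟩⟩⟩⟩, ⟨⟨⟨⟨⟨H _ t38181.2.2.1, H _ t38181.2.2.2.1⟩, ⟨H _ t38181.2.2.2.2.1, H _ t38181.2.2.2.2.2.1⟩⟩, ⟨⟨H _ t38181.2.2.2.2.2.2.1, H _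 t38181.2.2.2.2.2.2.2⟩, ⟨H _ t38189.1, H _ t38189.2.1⟩⟩⟩, ⟨⟨⟨H _ t38189.2.2.1, H _ t38189.2.2.2.1⟩, ⟨H _ t38189.2.2.2.2.1, H _ t38189.2.2.2.2.2.1⟩⟩, ⟨⟨H _ t38189.2.2.2.2.2.2.1, H _ t38189.2.2.2.2.2.2.2⟩, ⟨H _ t38197.1, ⟨H _ t38197.2.1, H _ t38197.2.2.1⟩⟩⟩⟩⟩, ⟨⟨⟨⟨H _ t38197.2.2.2.1, H _ t38197.2.2.2.2.1⟩, ⟨H _ t38197.2.2.2.2.2.1, H _ t38197.2.2.2.2.2.2.1⟩⟩, ⟨⟨H _ t38197.2.2.2.2.2.2.2, H _ t38205.1⟩, ⟨H _ t38205.2.1, H _ t38205.2.2.1⟩⟩⟩, ⟨⟨⟨H _ t38205.2.2.2.1, H _ t38205.2.2.2.2.1⟩, ⟨H _ t38205.2.2.2.2.2.1, H _ t38205.2.2.2.2.2.2.1⟩⟩, ⟨⟨H _ t38205.2.2.2.2.2.2.2, H _ t38213.1⟩, ⟨H _ t38213.2.1, ⟨H _ t38213.2.2.1, H _ t38213.2.2.2.1⟩⟩⟩⟩⟩⟩⟩, ⟨⟨⟨⟨⟨⟨H _ t38213.2.2.2.2.1, H _ t38213.2.2.2.2.2.1⟩, ⟨H _ t38213.2.2.2.2.2.2.1, H _ t38213.2.2.2.2.2.2.2⟩⟩, ⟨⟨H _ t38221.1, H _ t38221.2.1⟩, ⟨H _ t38221.2.2.1, H _ t38221.2.2.2.1⟩⟩⟩, ⟨⟨⟨H _ t38221.2.2.2.2.1, H _ t38221.2.2.2.2.2.1⟩, ⟨H _ t38221.2.2.2.2.2.2.1, H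 _ t38221.2.2.2.2.2.2.2⟩⟩, ⟨⟨H _ t38229.1, H _ t38229.2.1⟩, ⟨H _ t38229.2.2.1, ⟨H _ t38229.2.2.2.1, H _ t38229.2.2.2.2.1⟩⟩⟩⟩⟩, ⟨⟨⟨⟨H _ t38229.2.2.2.2.2.1, H _ t38229.2.2.2.2.2.2.1⟩, ⟨H _ t38229.2.2.2.2.2.2.2, H _ t38237.1⟩⟩, ⟨⟨H _ t38237.2.1, H _ t38237.2.2.1⟩, ⟨H _ t38237.2.2.2.1, H _ t38237.2.2.2.2.1⟩⟩⟩, ⟨⟨⟨H _ t38237.2.2.2.2.2.1, H _ t38237.2.2.2.2.2.2.1⟩, ⟨H _ t38237.2.2.2.2.2.2.2, H _ t38245.1⟩⟩, ⟨⟨H _ t38245.2.1, H _ t38245.2.2.1⟩, ⟨H _ t38245.2.2.2.1, ⟨H _ t38245.2.2.2.2.1, H _ t38245.2.2.2.2.2.1⟩⟩⟩⟩⟩⟩, ⟨⟨⟨⟨⟨H _ t38245.2.2.2.2.2.2.1, H _ t38245.2.2.2.2.2.2.2⟩, ⟨H _ t38253.1, H _ t38253.2.1⟩⟩, ⟨⟨H _ t38253.2.2.1, H _ t38253.2.2.2.1⟩, ⟨H _ t38253.2.2.2.2.1, H _ t38253.2.2.2.2.2.1⟩⟩⟩, ⟨⟨⟨H _ t38253.2.2.2.2.2.2.1, H _ t38253.2.2.2.2.2.2.2⟩, ⟨H _ t38261.1, H _ t38261.2.1⟩⟩, ⟨⟨H _ t38261.2.2.1, H _ t38261.2.2.2.1⟩, ⟨H _ t38261.2.2.2.2.1, ⟨H _ t38261.2.2.2.2.2.1, H _ t38261.2.2.2.2.2.2.1⟩⟩⟩⟩⟩,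 ⟨⟨⟨⟨H _ t38261.2.2.2.2.2.2.2, H _ t38269.1⟩, ⟨H _ t38269.2.1, H _ t38269.2.2.1⟩⟩, ⟨⟨H _ t38269.2.2.2.1, H _ t38269.2.2.2.2.1⟩, ⟨H _ t38269.2.2.2.2.2.1, H _ t38269.2.2.2.2.2.2.1⟩⟩⟩, ⟨⟨⟨H _ t38269.2.2.2.2.2.2.2, H _ t38277.1⟩, ⟨H _ t38277.2.1, H _ t38277.2.2.1⟩⟩, ⟨⟨H _ t38277.2.2.2.1, H _ t38277.2.2.2.2.1⟩, ⟨H _ t38277.2.2.2.2.2.1, ⟨H _ t38277.2.2.2.2.2.2.1, H _ t38277.2.2.2.2.2.2.2⟩⟩⟩⟩⟩⟩⟩⟩, ⟨⟨⟨⟨⟨⟨⟨H _ t38285.1, H _ t38285.2.1⟩, ⟨H _ t38285.2.2.1, H _ t38285.2.2.2.1⟩⟩, ⟨⟨H _ t38285.2.2.2.2.1, H _ t38285.2.2.2.2.2.1⟩, ⟨H _ t38285.2.2.2.2.2.2.1, H _ t38285.2.2.2.2.2.2.2⟩⟩⟩, ⟨⟨⟨H _ t38293.1, H _ t38293.2.1⟩, ⟨H _ t38293.2.2.1, H _ t38293.2.2.2.1⟩⟩, ⟨⟨H _ t38293.2.2.2.2.1, H _ t38293.2.2.2.2.2.1⟩, ⟨H _ t38293.2.2.2.2.2.2.1, ⟨H _ t38293.2.2.2.2.2.2.2, H _ t38301.1⟩⟩⟩⟩⟩, ⟨⟨⟨⟨H _ t38301.2.1, H _ t38301.2.2.1⟩, ⟨H _ t38301.2.2.2.1, H _ t38301.2.2.2.2.1⟩⟩, ⟨⟨H _ t38301.2.2.2.2.2.1, H _ t38301.2.2.2.2.2.2.1⟩,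 ⟨H _ t38301.2.2.2.2.2.2.2, H _ t38309.1⟩⟩⟩, ⟨⟨⟨H _ t38309.2.1, H _ t38309.2.2.1⟩, ⟨H _ t38309.2.2.2.1, H _ t38309.2.2.2.2.1⟩⟩, ⟨⟨H _ t38309.2.2.2.2.2.1, H _ t38309.2.2.2.2.2.2.1⟩, ⟨H _ t38309.2.2.2.2.2.2.2, ⟨H _ t38317.1, H _ t38317.2.1⟩⟩⟩⟩⟩⟩, ⟨⟨⟨⟨⟨H _ t38317.2.2.1, H _ t38317.2.2.2.1⟩, ⟨H _ t38317.2.2.2.2.1, H _ t38317.2.2.2.2.2.1⟩⟩, ⟨⟨H _ t38317.2.2.2.2.2.2.1, H _ t38317.2.2.2.2.2.2.2⟩, ⟨H _ t38325.1, H _ t38325.2.1⟩⟩⟩, ⟨⟨⟨H _ t38325.2.2.1, H _ t38325.2.2.2.1⟩, ⟨H _ t38325.2.2.2.2.1, H _ t38325.2.2.2.2.2.1⟩⟩, ⟨⟨H _ t38325.2.2.2.2.2.2.1, H _ t38325.2.2.2.2.2.2.2⟩, ⟨H _ t38333.1, ⟨H _ t38333.2.1, H _ t38333.2.2.1⟩⟩⟩⟩⟩, ⟨⟨⟨⟨H _ t38333.2.2.2.1, H _ t38333.2.2.2.2.1⟩, ⟨H _ t38333.2.2.2.2.2.1, H _ t38333.2.2.2.2.2.2.1⟩⟩, ⟨⟨H _ t38333.2.2.2.2.2.2.2, H _ t38341.1⟩, ⟨H _ t38341.2.1, H _ t38341.2.2.1⟩⟩⟩, ⟨⟨⟨H _ t38341.2.2.2.1, H _ t38341.2.2.2.2.1⟩, ⟨H _ t38341.2.2.2.2.2.1, H _ t38341.2.2.2.2.2.2.1⟩⟩,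 ⟨⟨H _ t38341.2.2.2.2.2.2.2, H _ t38349.1⟩, ⟨H _ t38349.2.1, ⟨H _ t38349.2.2.1, H _ t38349.2.2.2.1⟩⟩⟩⟩⟩⟩⟩, ⟨⟨⟨⟨⟨⟨H _ t38349.2.2.2.2.1, H _ t38349.2.2.2.2.2.1⟩, ⟨H _ t38349.2.2.2.2.2.2.1, H _ t38349.2.2.2.2.2.2.2⟩⟩, ⟨⟨H _ t38357.1, H _ t38357.2.1⟩, ⟨H _ t38357.2.2.1, H _ t38357.2.2.2.1⟩⟩⟩, ⟨⟨⟨H _ t38357.2.2.2.2.1, H _ t38357.2.2.2.2.2.1⟩, ⟨H _ t38357.2.2.2.2.2.2.1, H _ t38357.2.2.2.2.2.2.2⟩⟩, ⟨⟨H _ t38365.1, H _ t38365.2.1⟩, ⟨H _ t38365.2.2.1, ⟨H _ t38365.2.2.2.1, H _ t38365.2.2.2.2.1⟩⟩⟩⟩⟩, ⟨⟨⟨⟨H _ t38365.2.2.2.2.2.1, H _ t38365.2.2.2.2.2.2.1⟩, ⟨H _ t38365.2.2.2.2.2.2.2, H _ t38373.1⟩⟩, ⟨⟨H _ t38373.2.1, H _ t38373.2.2.1⟩, ⟨H _ t38373.2.2.2.1, H _ t38373.2.2.2.2.1⟩⟩⟩, ⟨⟨⟨H _ t38373.2.2.2.2.2.1, H _ t38373.2.2.2.2.2.2.1⟩, ⟨H _ t38373.2.2.2.2.2.2.2, H _ t38381.1⟩⟩, ⟨⟨H _ t38381.2.1, H _ t38381.2.2.1⟩, ⟨H _ t38381.2.2.2.1, ⟨H _ t38381.2.2.2.2.1, H _ t38381.2.2.2.2.2.1⟩⟩⟩⟩⟩⟩, ⟨⟨⟨⟨⟨H _ t38381.2.2.2.2.2.2.1,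 H _ t38381.2.2.2.2.2.2.2⟩, ⟨H _ t38389.1, H _ t38389.2.1⟩⟩, ⟨⟨H _ t38389.2.2.1, H _ t38389.2.2.2.1⟩, ⟨H _ t38389.2.2.2.2.1, H _ t38389.2.2.2.2.2.1⟩⟩⟩, ⟨⟨⟨H _ t38389.2.2.2.2.2.2.1, H _ t38389.2.2.2.2.2.2.2⟩, ⟨H _ t38397.1, H _ t38397.2.1⟩⟩, ⟨⟨H _ t38397.2.2.1, H _ t38397.2.2.2.1⟩, ⟨H _ t38397.2.2.2.2.1, ⟨H _ t38397.2.2.2.2.2.1, H _ t38397.2.2.2.2.2.2.1⟩⟩⟩⟩⟩, ⟨⟨⟨⟨H _ t38397.2.2.2.2.2.2.2, H _ t38405.1⟩, ⟨H _ t38405.2.1, H _ t38405.2.2.1⟩⟩, ⟨⟨H _ t38405.2.2.2.1, H _ t38405.2.2.2.2.1⟩, ⟨H _ t38405.2.2.2.2.2.1, ⟨H _ t38405.2.2.2.2.2.2.1, H _ t38405.2.2.2.2.2.2.2⟩⟩⟩⟩, ⟨⟨⟨H _ t38413.1, H _ t38413.2.1⟩, ⟨H _ t38413.2.2.1, H _ t38413.2.2.2.1⟩⟩, ⟨⟨H _ t38413.2.2.2.2.1, H _ t38413.2.2.2.2.2.1⟩, ⟨H _ t38413.2.2.2.2.2.2.1, ⟨H _ t38413.2.2.2.2.2.2.2, H _ t38421.1⟩⟩⟩⟩⟩⟩⟩⟩⟩, ⟨⟨⟨⟨⟨⟨⟨⟨H _ t38421.2.1, H _ t38421.2.2.1⟩, ⟨H _ t38421.2.2.2.1, H _ t38421.2.2.2.2.1⟩⟩, ⟨⟨H _ t38421.2.2.2.2.2.1, H _ t38421.2.2.2.2.2.2.1⟩,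 ⟨H _ t38421.2.2.2.2.2.2.2, H _ t38429.1⟩⟩⟩, ⟨⟨⟨H _ t38429.2.1, H _ t38429.2.2.1⟩, ⟨H _ t38429.2.2.2.1, H _ t38429.2.2.2.2.1⟩⟩, ⟨⟨H _ t38429.2.2.2.2.2.1, H _ t38429.2.2.2.2.2.2.1⟩, ⟨H _ t38429.2.2.2.2.2.2.2, ⟨H _ t38437.1, H _ t38437.2.1⟩⟩⟩⟩⟩, ⟨⟨⟨⟨H _ t38437.2.2.1, H _ t38437.2.2.2.1⟩, ⟨H _ t38437.2.2.2.2.1, H _ t38437.2.2.2.2.2.1⟩⟩, ⟨⟨H _ t38437.2.2.2.2.2.2.1, H _ t38437.2.2.2.2.2.2.2⟩, ⟨H _ t38445.1, H _ t38445.2.1⟩⟩⟩, ⟨⟨⟨H _ t38445.2.2.1, H _ t38445.2.2.2.1⟩, ⟨H _ t38445.2.2.2.2.1, H _ t38445.2.2.2.2.2.1⟩⟩, ⟨⟨H _ t38445.2.2.2.2.2.2.1, H _ t38445.2.2.2.2.2.2.2⟩, ⟨H _ t38453.1, ⟨H _ t38453.2.1, H _ t38453.2.2.1⟩⟩⟩⟩⟩⟩, ⟨⟨⟨⟨⟨H _ t38453.2.2.2.1, H _ t38453.2.2.2.2.1⟩, ⟨H _ t38453.2.2.2.2.2.1, H _ t38453.2.2.2.2.2.2.1⟩⟩, ⟨⟨H _ t38453.2.2.2.2.2.2.2, H _ t38461.1⟩, ⟨H _ t38461.2.1, H _ t38461.2.2.1⟩⟩⟩, ⟨⟨⟨H _ t38461.2.2.2.1, H _ t38461.2.2.2.2.1⟩, ⟨H _ t38461.2.2.2.2.2.1, H _ t38461.2.2.2.2.2.2.1⟩⟩,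 ⟨⟨H _ t38461.2.2.2.2.2.2.2, H _ t38469.1⟩, ⟨H _ t38469.2.1, ⟨H _ t38469.2.2.1, H _ t38469.2.2.2.1⟩⟩⟩⟩⟩, ⟨⟨⟨⟨H _ t38469.2.2.2.2.1, H _ t38469.2.2.2.2.2.1⟩, ⟨H _ t38469.2.2.2.2.2.2.1, H _ t38469.2.2.2.2.2.2.2⟩⟩, ⟨⟨H _ t38477.1, H _ t38477.2.1⟩, ⟨H _ t38477.2.2.1, H _ t38477.2.2.2.1⟩⟩⟩, ⟨⟨⟨H _ t38477.2.2.2.2.1, H _ t38477.2.2.2.2.2.1⟩, ⟨H _ t38477.2.2.2.2.2.2.1, H _ t38477.2.2.2.2.2.2.2⟩⟩, ⟨⟨H _ t38485.1, H _ t38485.2.1⟩, ⟨H _ t38485.2.2.1, ⟨H _ t38485.2.2.2.1, H _ t38485.2.2.2.2.1⟩⟩⟩⟩⟩⟩⟩, ⟨⟨⟨⟨⟨⟨H _ t38485.2.2.2.2.2.1, H _ t38485.2.2.2.2.2.2.1⟩, ⟨H _ t38485.2.2.2.2.2.2.2, H _ t38493.1⟩⟩, ⟨⟨H _ t38493.2.1, H _ t38493.2.2.1⟩, ⟨H _ t38493.2.2.2.1, H _ t38493.2.2.2.2.1⟩⟩⟩, ⟨⟨⟨H _ t38493.2.2.2.2.2.1, H _ t38493.2.2.2.2.2.2.1⟩, ⟨H _ t38493.2.2.2.2.2.2.2, H _ t38501.1⟩⟩, ⟨⟨H _ t38501.2.1, H _ t38501.2.2.1⟩, ⟨H _ t38501.2.2.2.1, ⟨H _ t38501.2.2.2.2.1, H _ t38501.2.2.2.2.2.1⟩⟩⟩⟩⟩, ⟨⟨⟨⟨H _ t38501.2.2.2.2.2.2.1,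 H _ t38501.2.2.2.2.2.2.2⟩, ⟨H _ t38509.1, H _ t38509.2.1⟩⟩, ⟨⟨H _ t38509.2.2.1, H _ t38509.2.2.2.1⟩, ⟨H _ t38509.2.2.2.2.1, H _ t38509.2.2.2.2.2.1⟩⟩⟩, ⟨⟨⟨H _ t38509.2.2.2.2.2.2.1, H _ t38509.2.2.2.2.2.2.2⟩, ⟨H _ t38517.1, H _ t38517.2.1⟩⟩, ⟨⟨H _ t38517.2.2.1, H _ t38517.2.2.2.1⟩, ⟨H _ t38517.2.2.2.2.1, ⟨H _ t38517.2.2.2.2.2.1, H _ t38517.2.2.2.2.2.2.1⟩⟩⟩⟩⟩⟩, ⟨⟨⟨⟨⟨H _ t38517.2.2.2.2.2.2.2, H _ t38525.1⟩, ⟨H _ t38525.2.1, H _ t38525.2.2.1⟩⟩, ⟨⟨H _ t38525.2.2.2.1, H _ t38525.2.2.2.2.1⟩, ⟨H _ t38525.2.2.2.2.2.1, H _ t38525.2.2.2.2.2.2.1⟩⟩⟩, ⟨⟨⟨H _ t38525.2.2.2.2.2.2.2, H _ t38533.1⟩, ⟨H _ t38533.2.1, H _ t38533.2.2.1⟩⟩, ⟨⟨H _ t38533.2.2.2.1, H _ t38533.2.2.2.2.1⟩, ⟨H _ t38533.2.2.2.2.2.1, ⟨H _ t38533.2.2.2.2.2.2.1, H _ t38533.2.2.2.2.2.2.2⟩⟩⟩⟩⟩, ⟨⟨⟨⟨H _ t38541.1, H _ t38541.2.1⟩, ⟨H _ t38541.2.2.1, H _ t38541.2.2.2.1⟩⟩, ⟨⟨H _ t38541.2.2.2.2.1, H _ t38541.2.2.2.2.2.1⟩, ⟨H _ t38541.2.2.2.2.2.2.1, ⟨H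 _ t38541.2.2.2.2.2.2.2, H _ t38549.1⟩⟩⟩⟩, ⟨⟨⟨H _ t38549.2.1, H _ t38549.2.2.1⟩, ⟨H _ t38549.2.2.2.1, H _ t38549.2.2.2.2.1⟩⟩, ⟨⟨H _ t38549.2.2.2.2.2.1, H _ t38549.2.2.2.2.2.2.1⟩, ⟨H _ t38549.2.2.2.2.2.2.2, ⟨H _ t38557.1, H _ t38557.2.1⟩⟩⟩⟩⟩⟩⟩⟩, ⟨⟨⟨⟨⟨⟨⟨H _ t38557.2.2.1, H _ t38557.2.2.2.1⟩, ⟨H _ t38557.2.2.2.2.1, H _ t38557.2.2.2.2.2.1⟩⟩, ⟨⟨H _ t38557.2.2.2.2.2.2.1, H _ t38557.2.2.2.2.2.2.2⟩, ⟨H _ t38565.1, H _ t38565.2.1⟩⟩⟩, ⟨⟨⟨H _ t38565.2.2.1, H _ t38565.2.2.2.1⟩, ⟨H _ t38565.2.2.2.2.1, H _ t38565.2.2.2.2.2.1⟩⟩, ⟨⟨H _ t38565.2.2.2.2.2.2.1, H _ t38565.2.2.2.2.2.2.2⟩, ⟨H _ t38573.1, ⟨H _ t38573.2.1, H _ t38573.2.2.1⟩⟩⟩⟩⟩, ⟨⟨⟨⟨H _ t38573.2.2.2.1, H _ t38573.2.2.2.2.1⟩, ⟨H _ t38573.2.2.2.2.2.1, H _ t38573.2.2.2.2.2.2.1⟩⟩, ⟨⟨H _ t38573.2.2.2.2.2.2.2, H _ t38581.1⟩, ⟨H _ t38581.2.1, H _ t38581.2.2.1⟩⟩⟩, ⟨⟨⟨H _ t38581.2.2.2.1, H _ t38581.2.2.2.2.1⟩, ⟨H _ t38581.2.2.2.2.2.1, H _ t38581.2.2.2.2.2.2.1⟩⟩,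 ⟨⟨H _ t38581.2.2.2.2.2.2.2, H _ t38589.1⟩, ⟨H _ t38589.2.1, ⟨H _ t38589.2.2.1, H _ t38589.2.2.2.1⟩⟩⟩⟩⟩⟩, ⟨⟨⟨⟨⟨H _ t38589.2.2.2.2.1, H _ t38589.2.2.2.2.2.1⟩, ⟨H _ t38589.2.2.2.2.2.2.1, H _ t38589.2.2.2.2.2.2.2⟩⟩, ⟨⟨H _ t38597.1, H _ t38597.2.1⟩, ⟨H _ t38597.2.2.1, H _ t38597.2.2.2.1⟩⟩⟩, ⟨⟨⟨H _ t38597.2.2.2.2.1, H _ t38597.2.2.2.2.2.1⟩, ⟨H _ t38597.2.2.2.2.2.2.1, H _ t38597.2.2.2.2.2.2.2⟩⟩, ⟨⟨H _ t38605.1, H _ t38605.2.1⟩, ⟨H _ t38605.2.2.1, ⟨H _ t38605.2.2.2.1, H _ t38605.2.2.2.2.1⟩⟩⟩⟩⟩, ⟨⟨⟨⟨H _ t38605.2.2.2.2.2.1, H _ t38605.2.2.2.2.2.2.1⟩, ⟨H _ t38605.2.2.2.2.2.2.2, H _ t38613.1⟩⟩, ⟨⟨H _ t38613.2.1, H _ t38613.2.2.1⟩, ⟨H _ t38613.2.2.2.1, H _ t38613.2.2.2.2.1⟩⟩⟩, ⟨⟨⟨H _ t38613.2.2.2.2.2.1, H _ t38613.2.2.2.2.2.2.1⟩, ⟨H _ t38613.2.2.2.2.2.2.2, H _ t38621.1⟩⟩, ⟨⟨H _ t38621.2.1, H _ t38621.2.2.1⟩, ⟨H _ t38621.2.2.2.1, ⟨H _ t38621.2.2.2.2.1, H _ t38621.2.2.2.2.2.1⟩⟩⟩⟩⟩⟩⟩, ⟨⟨⟨⟨⟨⟨H _ t38621.2.2.2.2.2.2.1,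 H _ t38621.2.2.2.2.2.2.2⟩, ⟨H _ t38629.1, H _ t38629.2.1⟩⟩, ⟨⟨H _ t38629.2.2.1, H _ t38629.2.2.2.1⟩, ⟨H _ t38629.2.2.2.2.1, H _ t38629.2.2.2.2.2.1⟩⟩⟩, ⟨⟨⟨H _ t38629.2.2.2.2.2.2.1, H _ t38629.2.2.2.2.2.2.2⟩, ⟨H _ t38637.1, H _ t38637.2.1⟩⟩, ⟨⟨H _ t38637.2.2.1, H _ t38637.2.2.2.1⟩, ⟨H _ t38637.2.2.2.2.1, ⟨H _ t38637.2.2.2.2.2.1, H _ t38637.2.2.2.2.2.2.1⟩⟩⟩⟩⟩, ⟨⟨⟨⟨H _ t38637.2.2.2.2.2.2.2, H _ t38645.1⟩, ⟨H _ t38645.2.1, H _ t38645.2.2.1⟩⟩, ⟨⟨H _ t38645.2.2.2.1, H _ t38645.2.2.2.2.1⟩, ⟨H _ t38645.2.2.2.2.2.1, H _ t38645.2.2.2.2.2.2.1⟩⟩⟩, ⟨⟨⟨H _ t38645.2.2.2.2.2.2.2, H _ t38653.1⟩, ⟨H _ t38653.2.1, H _ t38653.2.2.1⟩⟩, ⟨⟨H _ t38653.2.2.2.1, H _ t38653.2.2.2.2.1⟩, ⟨H _ t38653.2.2.2.2.2.1, ⟨H _ t38653.2.2.2.2.2.2.1, H _ t38653.2.2.2.2.2.2.2⟩⟩⟩⟩⟩⟩, ⟨⟨⟨⟨⟨H _ t38661.1, H _ t38661.2.1⟩, ⟨H _ t38661.2.2.1, H _ t38661.2.2.2.1⟩⟩, ⟨⟨H _ t38661.2.2.2.2.1, H _ t38661.2.2.2.2.2.1⟩, ⟨H _ t38661.2.2.2.2.2.2.1, H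 _ t38661.2.2.2.2.2.2.2⟩⟩⟩, ⟨⟨⟨H _ t38669.1, H _ t38669.2.1⟩, ⟨H _ t38669.2.2.1, H _ t38669.2.2.2.1⟩⟩, ⟨⟨H _ t38669.2.2.2.2.1, H _ t38669.2.2.2.2.2.1⟩, ⟨H _ t38669.2.2.2.2.2.2.1, ⟨H _ t38669.2.2.2.2.2.2.2, H _ t38677.1⟩⟩⟩⟩⟩, ⟨⟨⟨⟨H _ t38677.2.1, H _ t38677.2.2.1⟩, ⟨H _ t38677.2.2.2.1, H _ t38677.2.2.2.2.1⟩⟩, ⟨⟨H _ t38677.2.2.2.2.2.1, H _ t38677.2.2.2.2.2.2.1⟩, ⟨H _ t38677.2.2.2.2.2.2.2, ⟨H _ t38685.1, H _ t38685.2.1⟩⟩⟩⟩, ⟨⟨⟨H _ t38685.2.2.1, H _ t38685.2.2.2.1⟩, ⟨H _ t38685.2.2.2.2.1, H _ t38685.2.2.2.2.2.1⟩⟩, ⟨⟨H _ t38685.2.2.2.2.2.2.1, H _ t38685.2.2.2.2.2.2.2⟩, ⟨H _ t38693.1, ⟨H _ t38693.2.1, H _ t38693.2.2⟩⟩⟩⟩⟩⟩⟩⟩⟩⟩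

end Pool.Agent.MP_c853c5_nt.X.C4950
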