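import Pool.Agent.MP_c853c5_nt.X.C4950.Env
import Pool.Agent.MP_c853c5_nt.X.C4950.D1

set_option autoImplicit false
set_option maxRecDepth 8192
set_option linter.all false

namespace Pool.Agent.MP_c853c5_nt.X.C4950

open Pool.Agent.MP_c853c5_nt.X

def t3850 : allY (E.wth (lkp [])) l3850 = true ∧
    allY (E.wth (lkp [])) l3851 = true ∧
    allY (E.wth (lkp [])) l3852 = true ∧
    allY (E.wth (lkp [])) l3853 = true ∧
    allY (E.wth (lkp [])) l3854 = true ∧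
    allY (E.wth (lkp [])) l3855 = true ∧
    allY (E.wth (lkp [])) l3856 = true ∧
    allY (E.wth (lkp [])) l3857 = true :=
  ⟨by decide +kernel, by decide +kernel, by decide +kernel, by decide +kernel, by decide +kernel, by decide +kernel, by decide +kernel, by decide +kernel⟩

def t3858 : allY (E.wth (lkp [])) l3858 = true ∧
    allY (E.wth (lkp [])) l3859 = true ∧
    allY (E.wth (lkp [])) l3860 = true ∧
    allY (E.wth (lkp [])) l3861 = true ∧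
    allY (E.wth (lkp [])) l3862 = true ∧
    allY (E.wth (lkp [])) l3863 = true ∧
    allY (E.wth (lkp [])) l3864 = true ∧
    allY (E.wth (lkp [])) l3865 = true :=
  ⟨by decide +kernel, by decide +kernel, by decide +kernel, by decide +kernel, by decide +kernel, by decide +kernel, by decide +kernel, by decide +kernel⟩

def t3866 : allY (E.wth (lkp [])) l3866 = true ∧
    allY (E.wth (lkp [])) l3867 = true ∧
    allY (E.wth (lkp [])) l3868 = true ∧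
    allY (E.wth (lkp [])) l3869 = true ∧
    allY (E.wth (lkp [])) l3870 = true ∧
    allY (E.wth (lkp [])) l3871 = true ∧
    allY (E.wth (lkp [])) l3872 = true ∧
    allY (E.wth (lkp [])) l3873 = true :=
  ⟨by decide +kernel, by decide +kernel, by decide +kernel, by decide +kernel, by decide +kernel, by decide +kernel, by decide +kernel, by decide +kernel⟩

def t3874 : allY (E.wth (lkp [])) l3874 = true ∧
    allY (E.wth (lkp [])) l3875 = true ∧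
    allY (E.wth (lkp [])) l3876 = true ∧
    allY (E.wth (lkp [])) l3877 = true ∧
    allY (E.wth (lkp [])) l3878 = true ∧
    allY (E.wth (lkp [])) l3879 = true ∧
    allY (E.wth (lkp [])) l3880 = true ∧
    allY (E.wth (lkp [])) l3881 = true :=
  ⟨by decide +kernel, by decide +kernel, by decide +kernel, by decide +kernel, by decide +kernel, by decide +kernel, by decide +kernel, by decide +kernel⟩

def t3882 : allY (E.wth (lkp [])) l3882 = true ∧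
    allY (E.wth (lkp [])) l3883 = true ∧
    allY (E.wth (lkp [])) l3884 = true ∧
    allY (E.wth (lkp [])) l3885 = true ∧
    allY (E.wth (lkp [])) l3886 = true ∧
    allY (E.wth (lkp [])) l3887 = true ∧
    allY (E.wth (lkp [])) l3888 = true ∧
    allY (E.wth (lkp [])) l3889 = true :=
  ⟨by decide +kernel, by decide +kernel, by decide +kernel, by decide +kernel, by decide +kernel, by decide +kernel, by decide +kernel, by decide +kernel⟩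

def t3890 : allY (E.wth (lkp [])) l3890 = true ∧
    allY (E.wth (lkp [])) l3891 = true ∧
    allY (E.wth (lkp [])) l3892 = true ∧
    allY (E.wth (lkp [])) l3893 = true ∧
    allY (E.wth (lkp [])) l3894 = true ∧
    allY (E.wth (lkp [])) l3895 = true ∧
    allY (E.wth (lkp [])) l3896 = true ∧
    allY (E.wth (lkp [])) l3897 = true :=
  ⟨by decide +kernel, by decide +kernel, by decide +kernel, by decide +kernel, by decide +kernel, by decide +kernel, by decide +kernel, by decide +kernel⟩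

def t3898 : allY (E.wth (lkp [])) l3898 = true ∧
    allY (E.wth (lkp [])) l3899 = true ∧
    allY (E.wth (lkp [])) l3900 = true ∧
    allY (E.wth (lkp [])) l3901 = true ∧
    allY (E.wth (lkp [])) l3902 = true ∧
    allY (E.wth (lkp [])) l3903 = true ∧
    allY (E.wth (lkp [])) l3904 = true ∧
    allY (E.wth (lkp [])) l3905 = true :=
  ⟨by decide +kernel, by decide +kernel, by decide +kernel, by decide +kernel, by decide +kernel, by decide +kernel, by decide +kernel, by decide +kernel⟩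

def t3906 : allY (E.wth (lkp [])) l3906 = true ∧
    allY (E.wth (lkp [])) l3907 = true ∧
    allY (E.wth (lkp [])) l3908 = true ∧
    allY (E.wth (lkp [])) l3909 = true ∧
    allY (E.wth (lkp [])) l3910 = true ∧
    allY (E.wth (lkp [])) l3911 = true ∧
    allY (E.wth (lkp [])) l3912 = true ∧
    allY (E.wth (lkp [])) l3913 = true :=
  ⟨by decide +kernel, by decide +kernel, by decide +kernel, by decide +kernel, by decide +kernel, by decide +kernel, by decide +kernel, by decide +kernel⟩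

def t3914 : allY (E.wth (lkp [])) l3914 = true ∧
    allY (E.wth (lkp [])) l3915 = true ∧
    allY (E.wth (lkp [])) l3916 = true ∧
    allY (E.wth (lkp [])) l3917 = true ∧
    allY (E.wth (lkp [])) l3918 = true ∧
    allY (E.wth (lkp [])) l3919 = true ∧
    allY (E.wth (lkp [])) l3920 = true ∧
    allY (E.wth (lkp [])) l3921 = true :=
  ⟨by decide +kernel, by decide +kernel, by decide +kernel, by decide +kernel, by decide +kernel, by decide +kernel, by decide +kernel, by decide +kernel⟩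

def t3922 : allY (E.wth (lkp [])) l3922 = true ∧
    allY (E.wth (lkp [])) l3923 = true ∧
    allY (E.wth (lkp [])) l3924 = true ∧
    allY (E.wth (lkp [])) l3925 = true ∧
    allY (E.wth (lkp [])) l3926 = true ∧
    allY (E.wth (lkp [])) l3927 = true ∧
    allY (E.wth (lkp [])) l3928 = true ∧
    allY (E.wth (lkp [])) l3929 = true :=
  ⟨by decide +kernel, by decide +kernel, by decide +kernel, by decide +kernel, by decide +kernel, by decide +kernel, by decide +kernel, by decide +kernel⟩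

def t3930 : allY (E.wth (lkp [])) l3930 = true ∧
    allY (E.wth (lkp [])) l3931 = true ∧
    allY (E.wth (lkp [])) l3932 = true ∧
    allY (E.wth (lkp [])) l3933 = true ∧
    allY (E.wth (lkp [])) l3934 = true ∧
    allY (E.wth (lkp [])) l3935 = true ∧
    allY (E.wth (lkp [])) l3936 = true ∧
    allY (E.wth (lkp [])) l3937 = true :=
  ⟨by decide +kernel, by decide +kernel, by decide +kernel, by decide +kernel, by decide +kernel, by decide +kernel, by decide +kernel, by decide +kernel⟩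

def t3938 : allY (E.wth (lkp [])) l3938 = true ∧
    allY (E.wth (lkp [])) l3939 = true ∧
    allY (E.wth (lkp [])) l3940 = true ∧
    allY (E.wth (lkp [])) l3941 = true ∧
    allY (E.wth (lkp [])) l3942 = true ∧
    allY (E.wth (lkp [])) l3943 = true ∧
    allY (E.wth (lkp [])) l3944 = true ∧
    allY (E.wth (lkp [])) l3945 = true :=
  ⟨by decide +kernel, by decide +kernel, by decide +kernel, by decide +kernel, by decide +kernel, by decide +kernel, by decide +kernel, by decide +kernel⟩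

def t3946 : allY (E.wth (lkp [])) l3946 = true ∧
    allY (E.wth (lkp [])) l3947 = true ∧
    allY (E.wth (lkp [])) l3948 = true ∧
    allY (E.wth (lkp [])) l3949 = true ∧
    allY (E.wth (lkp [])) l3950 = true ∧
    allY (E.wth (lkp [])) l3951 = true ∧
    allY (E.wth (lkp [])) l3952 = true ∧
    allY (E.wth (lkp [])) l3953 = true :=
  ⟨by decide +kernel, by decide +kernel, by decide +kernel, by decide +kernel, by decide +kernel, by decide +kernel, by decide +kernel, by decide +kernel⟩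

def t3954 : allY (E.wth (lkp [])) l3954 = true ∧
    allY (E.wth (lkp [])) l3955 = true ∧
    allY (E.wth (lkp [])) l3956 = true ∧
    allY (E.wth (lkp [])) l3957 = true ∧
    allY (E.wth (lkp [])) l3958 = true ∧
    allY (E.wth (lkp [])) l3959 = true ∧
    allY (E.wth (lkp [])) l3960 = true ∧
    allY (E.wth (lkp [])) l3961 = true :=
  ⟨by decide +kernel, by decide +kernel, by decide +kernel, by decide +kernel, by decide +kernel, by decide +kernel, by decide +kernel, by decide +kernel⟩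

def t3962 : allY (E.wth (lkp [])) l3962 = true ∧
    allY (E.wth (lkp [])) l3963 = true ∧
    allY (E.wth (lkp [])) l3964 = true ∧
    allY (E.wth (lkp [])) l3965 = true ∧
    allY (E.wth (lkp [])) l3966 = true ∧
    allY (E.wth (lkp [])) l3967 = true ∧
    allY (E.wth (lkp [])) l3968 = true ∧
    allY (E.wth (lkp [])) l3969 = true :=
  ⟨by decide +kernel, by decide +kernel, by decide +kernel, by decide +kernel, by decide +kernel, by decide +kernel, by decide +kernel, by decide +kernel⟩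

def t3970 : allY (E.wth (lkp [])) l3970 = true ∧
    allY (E.wth (lkp [])) l3971 = true ∧
    allY (E.wth (lkp [])) l3972 = true ∧
    allY (E.wth (lkp [])) l3973 = true ∧
    allY (E.wth (lkp [])) l3974 = true ∧
    allY (E.wth (lkp [])) l3975 = true ∧
    allY (E.wth (lkp [])) l3976 = true ∧
    allY (E.wth (lkp [])) l3977 = true :=
  ⟨by decide +kernel, by decide +kernel, by decide +kernel, by decide +kernel, by decide +kernel, by decide +kernel, by decide +kernel, by decide +kernel⟩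

def t3978 : allY (E.wth (lkp [])) l3978 = true ∧
    allY (E.wth (lkp [])) l3979 = true ∧
    allY (E.wth (lkp [])) l3980 = true ∧
    allY (E.wth (lkp [])) l3981 = true ∧
    allY (E.wth (lkp [])) l3982 = true ∧
    allY (E.wth (lkp [])) l3983 = true ∧
    allY (E.wth (lkp [])) l3984 = true ∧
    allY (E.wth (lkp [])) l3985 = true :=
  ⟨by decide +kernel, by decide +kernel, by decide +kernel, by decide +kernel, by decide +kernel, by decide +kernel, by decide +kernel, by decide +kernel⟩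

def t3986 : allY (E.wth (lkp [])) l3986 = true ∧
    allY (E.wth (lkp [])) l3987 = true ∧
    allY (E.wth (lkp [])) l3988 = true ∧
    allY (E.wth (lkp [])) l3989 = true ∧
    allY (E.wth (lkp [])) l3990 = true ∧
    allY (E.wth (lkp [])) l3991 = true ∧
    allY (E.wth (lkp [])) l3992 = true ∧
    allY (E.wth (lkp [])) l3993 = true :=
  ⟨by decide +kernel, by decide +kernel, by decide +kernel, by decide +kernel, by decide +kernel, by decide +kernel, by decide +kernel, by decide +kernel⟩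

def t3994 : allY (E.wth (lkp [])) l3994 = true ∧
    allY (E.wth (lkp [])) l3995 = true ∧
    allY (E.wth (lkp [])) l3996 = true ∧
    allY (E.wth (lkp [])) l3997 = true ∧
    allY (E.wth (lkp [])) l3998 = true ∧
    allY (E.wth (lkp [])) l3999 = true ∧
    allY (E.wth (lkp [])) l4000 = true ∧
    allY (E.wth (lkp [])) l4001 = true :=
  ⟨by decide +kernel, by decide +kernel, by decide +kernel, by decide +kernel, by decide +kernel, by decide +kernel, by decide +kernel, by decide +kernel⟩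

def t4002 : allY (E.wth (lkp [])) l4002 = true ∧
    allY (E.wth (lkp [])) l4003 = true ∧
    allY (E.wth (lkp [])) l4004 = true ∧
    allY (E.wth (lkp [])) l4005 = true ∧
    allY (E.wth (lkp [])) l4006 = true ∧
    allY (E.wth (lkp [])) l4007 = true ∧
    allY (E.wth (lkp [])) l4008 = true ∧
    allY (E.wth (lkp [])) l4009 = true :=
  ⟨by decide +kernel, by decide +kernel, by decide +kernel, by decide +kernel, by decide +kernel, by decide +kernel, by decide +kernel, by decide +kernel⟩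

def t4010 : allY (E.wth (lkp [])) l4010 = true ∧
    allY (E.wth (lkp [])) l4011 = true ∧
    allY (E.wth (lkp [])) l4012 = true ∧
    allY (E.wth (lkp [])) l4013 = true ∧
    allY (E.wth (lkp [])) l4014 = true ∧
    allY (E.wth (lkp [])) l4015 = true ∧
    allY (E.wth (lkp [])) l4016 = true ∧
    allY (E.wth (lkp [])) l4017 = true :=
  ⟨by decide +kernel, by decide +kernel, by decide +kernel, by decide +kernel, by decide +kernel, by decide +kernel, by decide +kernel, by decide +kernel⟩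

def t4018 : allY (E.wth (lkp [])) l4018 = true ∧
    allY (E.wth (lkp [])) l4019 = true ∧
    allY (E.wth (lkp [])) l4020 = true ∧
    allY (E.wth (lkp [])) l4021 = true ∧
    allY (E.wth (lkp [])) l4022 = true ∧
    allY (E.wth (lkp [])) l4023 = true ∧
    allY (E.wth (lkp [])) l4024 = true ∧
    allY (E.wth (lkp [])) l4025 = true :=
  ⟨by decide +kernel, by decide +kernel, by decide +kernel, by decide +kernel, by decide +kernel, by decide +kernel, by decide +kernel, by decide +kernel⟩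

def t4026 : allY (E.wth (lkp [])) l4026 = true ∧
    allY (E.wth (lkp [])) l4027 = true ∧
    allY (E.wth (lkp [])) l4028 = true ∧
    allY (E.wth (lkp [])) l4029 = true ∧
    allY (E.wth (lkp [])) l4030 = true ∧
    allY (E.wth (lkp [])) l4031 = true ∧
    allY (E.wth (lkp [])) l4032 = true ∧
    allY (E.wth (lkp [])) l4033 = true :=
  ⟨by decide +kernel, by decide +kernel, by decide +kernel, by decide +kernel, by decide +kernel, by decide +kernel, by decide +kernel, by decide +kernel⟩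

def t4034 : allY (E.wth (lkp [])) l4034 = true ∧
    allY (E.wth (lkp [])) l4035 = true ∧
    allY (E.wth (lkp [])) l4036 = true ∧
    allY (E.wth (lkp [])) l4037 = true ∧
    allY (E.wth (lkp [])) l4038 = true ∧
    allY (E.wth (lkp [])) l4039 = true ∧
    allY (E.wth (lkp [])) l4040 = true ∧
    allY (E.wth (lkp [])) l4041 = true :=
  ⟨by decide +kernel, by decide +kernel, by decide +kernel, by decide +kernel, by decide +kernel, by decide +kernel, by decide +kernel, by decide +kernel⟩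

def t4042 : allY (E.wth (lkp [])) l4042 = true ∧
    allY (E.wth (lkp [])) l4043 = true ∧
    allY (E.wth (lkp [])) l4044 = true ∧
    allY (E.wth (lkp [])) l4045 = true ∧
    allY (E.wth (lkp [])) l4046 = true ∧
    allY (E.wth (lkp [])) l4047 = true ∧
    allY (E.wth (lkp [])) l4048 = true ∧
    allY (E.wth (lkp [])) l4049 = true :=
  ⟨by decide +kernel, by decide +kernel, by decide +kernel, by decide +kernel, by decide +kernel, by decide +kernel, by decide +kernel, by decide +kernel⟩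

def t4050 : allY (E.wth (lkp [])) l4050 = true ∧
    allY (E.wth (lkp [])) l4051 = true ∧
    allY (E.wth (lkp [])) l4052 = true ∧
    allY (E.wth (lkp [])) l4053 = true ∧
    allY (E.wth (lkp [])) l4054 = true ∧
    allY (E.wth (lkp [])) l4055 = true ∧
    allY (E.wth (lkp [])) l4056 = true ∧
    allY (E.wth (lkp [])) l4057 = true :=
  ⟨by decide +kernel, by decide +kernel, by decide +kernel, by decide +kernel, by decide +kernel, by decide +kernel, by decide +kernel, by decide +kernel⟩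

def t4058 : allY (E.wth (lkp [])) l4058 = true ∧
    allY (E.wth (lkp [])) l4059 = true ∧
    allY (E.wth (lkp [])) l4060 = true ∧
    allY (E.wth (lkp [])) l4061 = true ∧
    allY (E.wth (lkp [])) l4062 = true ∧
    allY (E.wth (lkp [])) l4063 = true ∧
    allY (E.wth (lkp [])) l4064 = true ∧
    allY (E.wth (lkp [])) l4065 = true :=
  ⟨by decide +kernel, by decide +kernel, by decide +kernel, by decide +kernel, by decide +kernel, by decide +kernel, by decide +kernel, by decide +kernel⟩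

def t4066 : allY (E.wth (lkp [])) l4066 = true ∧
    allY (E.wth (lkp [])) l4067 = true ∧
    allY (E.wth (lkp [])) l4068 = true ∧
    allY (E.wth (lkp [])) l4069 = true ∧
    allY (E.wth (lkp [])) l4070 = true ∧
    allY (E.wth (lkp [])) l4071 = true ∧
    allY (E.wth (lkp [])) l4072 = true ∧
    allY (E.wth (lkp [])) l4073 = true :=
  ⟨by decide +kernel, by decide +kernel, by decide +kernel, by decide +kernel, by decide +kernel, by decide +kernel, by decide +kernel, by decide +kernel⟩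

def t4074 : allY (E.wth (lkp [])) l4074 = true ∧
    allY (E.wth (lkp [])) l4075 = true ∧
    allY (E.wth (lkp [])) l4076 = true ∧
    allY (E.wth (lkp [])) l4077 = true ∧
    allY (E.wth (lkp [])) l4078 = true ∧
    allY (E.wth (lkp [])) l4079 = true ∧
    allY (E.wth (lkp [])) l4080 = true ∧
    allY (E.wth (lkp [])) l4081 = true :=
  ⟨by decide +kernel, by decide +kernel, by decide +kernel, by decide +kernel, by decide +kernel, by decide +kernel, by decide +kernel, by decide +kernel⟩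

def t4082 : allY (E.wth (lkp [])) l4082 = true ∧
    allY (E.wth (lkp [])) l4083 = true ∧
    allY (E.wth (lkp [])) l4084 = true ∧
    allY (E.wth (lkp [])) l4085 = true ∧
    allY (E.wth (lkp [])) l4086 = true ∧
    allY (E.wth (lkp [])) l4087 = true ∧
    allY (E.wth (lkp [])) l4088 = true ∧
    allY (E.wth (lkp [])) l4089 = true :=
  ⟨by decide +kernel, by decide +kernel, by decide +kernel, by decide +kernel, by decide +kernel, by decide +kernel, by decide +kernel, by decide +kernel⟩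

def t4090 : allY (E.wth (lkp [])) l4090 = true ∧
    allY (E.wth (lkp [])) l4091 = true ∧
    allY (E.wth (lkp [])) l4092 = true ∧
    allY (E.wth (lkp [])) l4093 = true ∧
    allY (E.wth (lkp [])) l4094 = true ∧
    allY (E.wth (lkp [])) l4095 = true ∧
    allY (E.wth (lkp [])) l4096 = true ∧
    allY (E.wth (lkp [])) l4097 = true :=
  ⟨by decide +kernel, by decide +kernel, by decide +kernel, by decide +kernel, by decide +kernel, by decide +kernel, by decide +kernel, by decide +kernel⟩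

def t4098 : allY (E.wth (lkp [])) l4098 = true ∧
    allY (E.wth (lkp [])) l4099 = true ∧
    allY (E.wth (lkp [])) l4100 = true ∧
    allY (E.wth (lkp [])) l4101 = true ∧
    allY (E.wth (lkp [])) l4102 = true ∧
    allY (E.wth (lkp [])) l4103 = true ∧
    allY (E.wth (lkp [])) l4104 = true ∧
    allY (E.wth (lkp [])) l4105 = true :=
  ⟨by decide +kernel, by decide +kernel, by decide +kernel, by decide +kernel, by decide +kernel, by decide +kernel, by decide +kernel, by decide +kernel⟩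

def t4106 : allY (E.wth (lkp [])) l4106 = true ∧
    allY (E.wth (lkp [])) l4107 = true ∧
    allY (E.wth (lkp [])) l4108 = true ∧
    allY (E.wth (lkp [])) l4109 = true ∧
    allY (E.wth (lkp [])) l4110 = true ∧
    allY (E.wth (lkp [])) l4111 = true ∧
    allY (E.wth (lkp [])) l4112 = true ∧
    allY (E.wth (lkp [])) l4113 = true :=
  ⟨by decide +kernel, by decide +kernel, by decide +kernel, by decide +kernel, by decide +kernel, by decide +kernel, by decide +kernel, by decide +kernel⟩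

def t4114 : allY (E.wth (lkp [])) l4114 = true ∧
    allY (E.wth (lkp [])) l4115 = true ∧
    allY (E.wth (lkp [])) l4116 = true ∧
    allY (E.wth (lkp [])) l4117 = true ∧
    allY (E.wth (lkp [])) l4118 = true ∧
    allY (E.wth (lkp [])) l4119 = true ∧
    allY (E.wth (lkp [])) l4120 = true ∧
    allY (E.wth (lkp [])) l4121 = true :=
  ⟨by decide +kernel, by decide +kernel, by decide +kernel, by decide +kernel, by decide +kernel, by decide +kernel, by decide +kernel, by decide +kernel⟩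

def t4122 : allY (E.wth (lkp [])) l4122 = true ∧
    allY (E.wth (lkp [])) l4123 = true ∧
    allY (E.wth (lkp [])) l4124 = true ∧
    allY (E.wth (lkp [])) l4125 = true ∧
    allY (E.wth (lkp [])) l4126 = true ∧
    allY (E.wth (lkp [])) l4127 = true ∧
    allY (E.wth (lkp [])) l4128 = true ∧
    allY (E.wth (lkp [])) l4129 = true :=
  ⟨by decide +kernel, by decide +kernel, by decide +kernel, by decide +kernel, by decide +kernel, by decide +kernel, by decide +kernel, by decide +kernel⟩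

def t4130 : allY (E.wth (lkp [])) l4130 = true ∧
    allY (E.wth (lkp [])) l4131 = true ∧
    allY (E.wth (lkp [])) l4132 = true ∧
    allY (E.wth (lkp [])) l4133 = true ∧
    allY (E.wth (lkp [])) l4134 = true ∧
    allY (E.wth (lkp [])) l4135 = true ∧
    allY (E.wth (lkp [])) l4136 = true ∧
    allY (E.wth (lkp [])) l4137 = true :=
  ⟨by decide +kernel, by decide +kernel, by decide +kernel, by decide +kernel, by decide +kernel, by decide +kernel, by decide +kernel, by decide +kernel⟩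

def t4138 : allY (E.wth (lkp [])) l4138 = true ∧
    allY (E.wth (lkp [])) l4139 = true ∧
    allY (E.wth (lkp [])) l4140 = true ∧
    allY (E.wth (lkp [])) l4141 = true ∧
    allY (E.wth (lkp [])) l4142 = true ∧
    allY (E.wth (lkp [])) l4143 = true ∧
    allY (E.wth (lkp [])) l4144 = true ∧
    allY (E.wth (lkp [])) l4145 = true :=
  ⟨by decide +kernel, by decide +kernel, by decide +kernel, by decide +kernel, by decide +kernel, by decide +kernel, by decide +kernel, by decide +kernel⟩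

def t4146 : allY (E.wth (lkp [])) l4146 = true ∧
    allY (E.wth (lkp [])) l4147 = true ∧
    allY (E.wth (lkp [])) l4148 = true ∧
    allY (E.wth (lkp [])) l4149 = true ∧
    allY (E.wth (lkp [])) l4150 = true ∧
    allY (E.wth (lkp [])) l4151 = true ∧
    allY (E.wth (lkp [])) l4152 = true ∧
    allY (E.wth (lkp [])) l4153 = true :=
  ⟨by decide +kernel, by decide +kernel, by decide +kernel, by decide +kernel, by decide +kernel, by decide +kernel, by decide +kernel, by decide +kernel⟩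

def t4154 : allY (E.wth (lkp [])) l4154 = true ∧
    allY (E.wth (lkp [])) l4155 = true ∧
    allY (E.wth (lkp [])) l4156 = true ∧
    allY (E.wth (lkp [])) l4157 = true ∧
    allY (E.wth (lkp [])) l4158 = true ∧
    allY (E.wth (lkp [])) l4159 = true ∧
    allY (E.wth (lkp [])) l4160 = true ∧
    allY (E.wth (lkp [])) l4161 = true :=
  ⟨by decide +kernel, by decide +kernel, by decide +kernel, by decide +kernel, by decide +kernel, by decide +kernel, by decide +kernel, by decide +kernel⟩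

def t4162 : allY (E.wth (lkp [])) l4162 = true ∧
    allY (E.wth (lkp [])) l4163 = true ∧
    allY (E.wth (lkp [])) l4164 = true ∧
    allY (E.wth (lkp [])) l4165 = true ∧
    allY (E.wth (lkp [])) l4166 = true ∧
    allY (E.wth (lkp [])) l4167 = true ∧
    allY (E.wth (lkp [])) l4168 = true ∧
    allY (E.wth (lkp [])) l4169 = true :=
  ⟨by decide +kernel, by decide +kernel, by decide +kernel, by decide +kernel, by decide +kernel, by decide +kernel, by decide +kernel, by decide +kernel⟩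

def t4170 : allY (E.wth (lkp [])) l4170 = true ∧
    allY (E.wth (lkp [])) l4171 = true ∧
    allY (E.wth (lkp [])) l4172 = true ∧
    allY (E.wth (lkp [])) l4173 = true ∧
    allY (E.wth (lkp [])) l4174 = true ∧
    allY (E.wth (lkp [])) l4175 = true ∧
    allY (E.wth (lkp [])) l4176 = true ∧
    allY (E.wth (lkp [])) l4177 = true :=
  ⟨by decide +kernel, by decide +kernel, by decide +kernel, by decide +kernel, by decide +kernel, by decide +kernel, by decide +kernel, by decide +kernel⟩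

def t4178 : allY (E.wth (lkp [])) l4178 = true ∧
    allY (E.wth (lkp [])) l4179 = true ∧
    allY (E.wth (lkp [])) l4180 = true ∧
    allY (E.wth (lkp [])) l4181 = true ∧
    allY (E.wth (lkp [])) l4182 = true ∧
    allY (E.wth (lkp [])) l4183 = true ∧
    allY (E.wth (lkp [])) l4184 = true ∧
    allY (E.wth (lkp [])) l4185 = true :=
  ⟨by decide +kernel, by decide +kernel, by decide +kernel, by decide +kernel, by decide +kernel, by decide +kernel, by decide +kernel, by decide +kernel⟩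

def t4186 : allY (E.wth (lkp [])) l4186 = true ∧
    allY (E.wth (lkp [])) l4187 = true ∧
    allY (E.wth (lkp [])) l4188 = true ∧
    allY (E.wth (lkp [])) l4189 = true ∧
    allY (E.wth (lkp [])) l4190 = true ∧
    allY (E.wth (lkp [])) l4191 = true ∧
    allY (E.wth (lkp [])) l4192 = true ∧
    allY (E.wth (lkp [])) l4193 = true :=
  ⟨by decide +kernel, by decide +kernel, by decide +kernel, by decide +kernel, by decide +kernel, by decide +kernel, by decide +kernel, by decide +kernel⟩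

def t4194 : allY (E.wth (lkp [])) l4194 = true ∧
    allY (E.wth (lkp [])) l4195 = true ∧
    allY (E.wth (lkp [])) l4196 = true ∧
    allY (E.wth (lkp [])) l4197 = true ∧
    allY (E.wth (lkp [])) l4198 = true ∧
    allY (E.wth (lkp [])) l4199 = true ∧
    allY (E.wth (lkp [])) l4200 = true ∧
    allY (E.wth (lkp [])) l4201 = true :=
  ⟨by decide +kernel, by decide +kernel, by decide +kernel, by decide +kernel, by decide +kernel, by decide +kernel, by decide +kernel, by decide +kernel⟩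

def t4202 : allY (E.wth (lkp [])) l4202 = true ∧
    allY (E.wth (lkp [])) l4203 = true ∧
    allY (E.wth (lkp [])) l4204 = true ∧
    allY (E.wth (lkp [])) l4205 = true ∧
    allY (E.wth (lkp [])) l4206 = true ∧
    allY (E.wth (lkp [])) l4207 = true ∧
    allY (E.wth (lkp [])) l4208 = true ∧
    allY (E.wth (lkp [])) l4209 = true :=
  ⟨by decide +kernel, by decide +kernel, by decide +kernel, by decide +kernel, by decide +kernel, by decide +kernel, by decide +kernel, by decide +kernel⟩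

def t4210 : allY (E.wth (lkp [])) l4210 = true ∧
    allY (E.wth (lkp [])) l4211 = true ∧
    allY (E.wth (lkp [])) l4212 = true ∧
    allY (E.wth (lkp [])) l4213 = true ∧
    allY (E.wth (lkp [])) l4214 = true ∧
    allY (E.wth (lkp [])) l4215 = true ∧
    allY (E.wth (lkp [])) l4216 = true ∧
    allY (E.wth (lkp [])) l4217 = true :=
  ⟨by decide +kernel, by decide +kernel, by decide +kernel, by decide +kernel, by decide +kernel, by decide +kernel, by decide +kernel, by decide +kernel⟩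

def t4218 : allY (E.wth (lkp [])) l4218 = true ∧
    allY (E.wth (lkp [])) l4219 = true ∧
    allY (E.wth (lkp [])) l4220 = true ∧
    allY (E.wth (lkp [])) l4221 = true ∧
    allY (E.wth (lkp [])) l4222 = true ∧
    allY (E.wth (lkp [])) l4223 = true ∧
    allY (E.wth (lkp [])) l4224 = true ∧
    allY (E.wth (lkp [])) l4225 = true :=
  ⟨by decide +kernel, by decide +kernel, by decide +kernel, by decide +kernel, by decide +kernel, by decide +kernel, by decide +kernel, by decide +kernel⟩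

def t4226 : allY (E.wth (lkp [])) l4226 = true ∧
    allY (E.wth (lkp [])) l4227 = true ∧
    allY (E.wth (lkp [])) l4228 = true ∧
    allY (E.wth (lkp [])) l4229 = true ∧
    allY (E.wth (lkp [])) l4230 = true ∧
    allY (E.wth (lkp [])) l4231 = true ∧
    allY (E.wth (lkp [])) l4232 = true ∧
    allY (E.wth (lkp [])) l4233 = true :=
  ⟨by decide +kernel, by decide +kernel, by decide +kernel, by decide +kernel, by decide +kernel, by decide +kernel, by decide +kernel, by decide +kernel⟩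

def t4234 : allY (E.wth (lkp [])) l4234 = true ∧
    allY (E.wth (lkp [])) l4235 = true ∧
    allY (E.wth (lkp [])) l4236 = true ∧
    allY (E.wth (lkp [])) l4237 = true ∧
    allY (E.wth (lkp [])) l4238 = true ∧
    allY (E.wth (lkp [])) l4239 = true ∧
    allY (E.wth (lkp [])) l4240 = true ∧
    allY (E.wth (lkp [])) l4241 = true :=
  ⟨by decide +kernel, by decide +kernel, by decide +kernel, by decide +kernel, by decide +kernel, by decide +kernel, by decide +kernel, by decide +kernel⟩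

def t4242 : allY (E.wth (lkp [])) l4242 = true ∧
    allY (E.wth (lkp [])) l4243 = true ∧
    allY (E.wth (lkp [])) l4244 = true ∧
    allY (E.wth (lkp [])) l4245 = true ∧
    allY (E.wth (lkp [])) l4246 = true ∧
    allY (E.wth (lkp [])) l4247 = true ∧
    allY (E.wth (lkp [])) l4248 = true ∧
    allY (E.wth (lkp [])) l4249 = true :=
  ⟨by decide +kernel, by decide +kernel, by decide +kernel, by decide +kernel, by decide +kernel, by decide +kernel, by decide +kernel, by decide +kernel⟩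

def t4250 : allY (E.wth (lkp [])) l4250 = true ∧
    allY (E.wth (lkp [])) l4251 = true ∧
    allY (E.wth (lkp [])) l4252 = true ∧
    allY (E.wth (lkp [])) l4253 = true ∧
    allY (E.wth (lkp [])) l4254 = true ∧
    allY (E.wth (lkp [])) l4255 = true ∧
    allY (E.wth (lkp [])) l4256 = true ∧
    allY (E.wth (lkp [])) l4257 = true :=
  ⟨by decide +kernel, by decide +kernel, by decide +kernel, by decide +kernel, by decide +kernel, by decide +kernel, by decide +kernel, by decide +kernel⟩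

def t4258 : allY (E.wth (lkp [])) l4258 = true ∧
    allY (E.wth (lkp [])) l4259 = true ∧
    allY (E.wth (lkp [])) l4260 = true ∧
    allY (E.wth (lkp [])) l4261 = true ∧
    allY (E.wth (lkp [])) l4262 = true ∧
    allY (E.wth (lkp [])) l4263 = true ∧
    allY (E.wth (lkp [])) l4264 = true ∧
    allY (E.wth (lkp [])) l4265 = true :=
  ⟨by decide +kernel, by decide +kernel, by decide +kernel, by decide +kernel, by decide +kernel, by decide +kernel, by decide +kernel, by decide +kernel⟩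

def t4266 : allY (E.wth (lkp [])) l4266 = true ∧
    allY (E.wth (lkp [])) l4267 = true ∧
    allY (E.wth (lkp [])) l4268 = true ∧
    allY (E.wth (lkp [])) l4269 = true ∧
    allY (E.wth (lkp [])) l4270 = true ∧
    allY (E.wth (lkp [])) l4271 = true ∧
    allY (E.wth (lkp [])) l4272 = true ∧
    allY (E.wth (lkp [])) l4273 = true :=
  ⟨by decide +kernel, by decide +kernel, by decide +kernel, by decide +kernel, by decide +kernel, by decide +kernel, by decide +kernel, by decide +kernel⟩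

def t4274 : allY (E.wth (lkp [])) l4274 = true ∧
    allY (E.wth (lkp [])) l4275 = true ∧
    allY (E.wth (lkp [])) l4276 = true ∧
    allY (E.wth (lkp [])) l4277 = true ∧
    allY (E.wth (lkp [])) l4278 = true ∧
    allY (E.wth (lkp [])) l4279 = true ∧
    allY (E.wth (lkp [])) l4280 = true ∧
    allY (E.wth (lkp [])) l4281 = true :=
  ⟨by decide +kernel, by decide +kernel, by decide +kernel, by decide +kernel, by decide +kernel, by decide +kernel, by decide +kernel, by decide +kernel⟩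

def t4282 : allY (E.wth (lkp [])) l4282 = true ∧
    allY (E.wth (lkp [])) l4283 = true ∧
    allY (E.wth (lkp [])) l4284 = true ∧
    allY (E.wth (lkp [])) l4285 = true ∧
    allY (E.wth (lkp [])) l4286 = true ∧
    allY (E.wth (lkp [])) l4287 = true ∧
    allY (E.wth (lkp [])) l4288 = true ∧
    allY (E.wth (lkp [])) l4289 = true :=
  ⟨by decide +kernel, by decide +kernel, by decide +kernel, by decide +kernel, by decide +kernel, by decide +kernel, by decide +kernel, by decide +kernel⟩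

def t4290 : allY (E.wth (lkp [])) l4290 = true ∧
    allY (E.wth (lkp [])) l4291 = true ∧
    allY (E.wth (lkp [])) l4292 = true ∧
    allY (E.wth (lkp [])) l4293 = true ∧
    allY (E.wth (lkp [])) l4294 = true ∧
    allY (E.wth (lkp [])) l4295 = true ∧
    allY (E.wth (lkp [])) l4296 = true ∧
    allY (E.wth (lkp [])) l4297 = true :=
  ⟨by decide +kernel, by decide +kernel, by decide +kernel, by decide +kernel, by decide +kernel, by decide +kernel, by decide +kernel, by decide +kernel⟩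

def t4298 : allY (E.wth (lkp [])) l4298 = true ∧
    allY (E.wth (lkp [])) l4299 = true ∧
    allY (E.wth (lkp [])) l4300 = true ∧
    allY (E.wth (lkp [])) l4301 = true ∧
    allY (E.wth (lkp [])) l4302 = true ∧
    allY (E.wth (lkp [])) l4303 = true ∧
    allY (E.wth (lkp [])) l4304 = true ∧
    allY (E.wth (lkp [])) l4305 = true :=
  ⟨by decide +kernel, by decide +kernel, by decide +kernel, by decide +kernel, by decide +kernel, by decide +kernel, by decide +kernel, by decide +kernel⟩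

def t4306 : allY (E.wth (lkp [])) l4306 = true ∧
    allY (E.wth (lkp [])) l4307 = true ∧
    allY (E.wth (lkp [])) l4308 = true ∧
    allY (E.wth (lkp [])) l4309 = true ∧
    allY (E.wth (lkp [])) l4310 = true ∧
    allY (E.wth (lkp [])) l4311 = true ∧
    allY (E.wth (lkp [])) l4312 = true ∧
    allY (E.wth (lkp [])) l4313 = true :=
  ⟨by decide +kernel, by decide +kernel, by decide +kernel, by decide +kernel, by decide +kernel, by decide +kernel, by decide +kernel, by decide +kernel⟩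

def t4314 : allY (E.wth (lkp [])) l4314 = true ∧
    allY (E.wth (lkp [])) l4315 = true ∧
    allY (E.wth (lkp [])) l4316 = true ∧
    allY (E.wth (lkp [])) l4317 = true ∧
    allY (E.wth (lkp [])) l4318 = true ∧
    allY (E.wth (lkp [])) l4319 = true ∧
    allY (E.wth (lkp [])) l4320 = true ∧
    allY (E.wth (lkp [])) l4321 = true :=
  ⟨by decide +kernel, by decide +kernel, by decide +kernel, by decide +kernel, by decide +kernel, by decide +kernel, by decide +kernel, by decide +kernel⟩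

def t4322 : allY (E.wth (lkp [])) l4322 = true ∧
    allY (E.wth (lkp [])) l4323 = true ∧
    allY (E.wth (lkp [])) l4324 = true ∧
    allY (E.wth (lkp [])) l4325 = true ∧
    allY (E.wth (lkp [])) l4326 = true ∧
    allY (E.wth (lkp [])) l4327 = true ∧
    allY (E.wth (lkp [])) l4328 = true ∧
    allY (E.wth (lkp [])) l4329 = true :=
  ⟨by decide +kernel, by decide +kernel, by decide +kernel, by decide +kernel, by decide +kernel, by decide +kernel, by decide +kernel, by decide +kernel⟩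

def t4330 : allY (E.wth (lkp [])) l4330 = true ∧
    allY (E.wth (lkp [])) l4331 = true ∧
    allY (E.wth (lkp [])) l4332 = true ∧
    allY (E.wth (lkp [])) l4333 = true ∧
    allY (E.wth (lkp [])) l4334 = true ∧
    allY (E.wth (lkp [])) l4335 = true ∧
    allY (E.wth (lkp [])) l4336 = true ∧
    allY (E.wth (lkp [])) l4337 = true :=
  ⟨by decide +kernel, by decide +kernel, by decide +kernel, by decide +kernel, by decide +kernel, by decide +kernel, by decide +kernel, by decide +kernel⟩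

def t4338 : allY (E.wth (lkp [])) l4338 = true ∧
    allY (E.wth (lkp [])) l4339 = true ∧
    allY (E.wth (lkp [])) l4340 = true ∧
    allY (E.wth (lkp [])) l4341 = true ∧
    allY (E.wth (lkp [])) l4342 = true ∧
    allY (E.wth (lkp [])) l4343 = true ∧
    allY (E.wth (lkp [])) l4344 = true ∧
    allY (E.wth (lkp [])) l4345 = true :=
  ⟨by decide +kernel, by decide +kernel, by decide +kernel, by decide +kernel, by decide +kernel, by decide +kernel, by decide +kernel, by decide +kernel⟩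

def t4346 : allY (E.wth (lkp [])) l4346 = true ∧
    allY (E.wth (lkp [])) l4347 = true ∧
    allY (E.wth (lkp [])) l4348 = true ∧
    allY (E.wth (lkp [])) l4349 = true ∧
    allY (E.wth (lkp [])) l4350 = true ∧
    allY (E.wth (lkp [])) l4351 = true ∧
    allY (E.wth (lkp [])) l4352 = true ∧
    allY (E.wth (lkp [])) l4353 = true :=
  ⟨by decide +kernel, by decide +kernel, by decide +kernel, by decide +kernel, by decide +kernel, by decide +kernel, by decide +kernel, by decide +kernel⟩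

def t4354 : allY (E.wth (lkp [])) l4354 = true ∧
    allY (E.wth (lkp [])) l4355 = true ∧
    allY (E.wth (lkp [])) l4356 = true ∧
    allY (E.wth (lkp [])) l4357 = true ∧
    allY (E.wth (lkp [])) l4358 = true ∧
    allY (E.wth (lkp [])) l4359 = true ∧
    allY (E.wth (lkp [])) l4360 = true ∧
    allY (E.wth (lkp [])) l4361 = true :=
  ⟨by decide +kernel, by decide +kernel, by decide +kernel, by decide +kernel, by decide +kernel, by decide +kernel, by decide +kernel, by decide +kernel⟩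

def t4362 : allY (E.wth (lkp [])) l4362 = true ∧
    allY (E.wth (lkp [])) l4363 = true ∧
    allY (E.wth (lkp [])) l4364 = true ∧
    allY (E.wth (lkp [])) l4365 = true ∧
    allY (E.wth (lkp [])) l4366 = true ∧
    allY (E.wth (lkp [])) l4367 = true ∧
    allY (E.wth (lkp [])) l4368 = true ∧
    allY (E.wth (lkp [])) l4369 = true :=
  ⟨by decide +kernel, by decide +kernel, by decide +kernel, by decide +kernel, by decide +kernel, by decide +kernel, by decide +kernel, by decide +kernel⟩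

def t4370 : allY (E.wth (lkp [])) l4370 = true ∧
    allY (E.wth (lkp [])) l4371 = true ∧
    allY (E.wth (lkp [])) l4372 = true ∧
    allY (E.wth (lkp [])) l4373 = true ∧
    allY (E.wth (lkp [])) l4374 = true ∧
    allY (E.wth (lkp [])) l4375 = true ∧
    allY (E.wth (lkp [])) l4376 = true ∧
    allY (E.wth (lkp [])) l4377 = true :=
  ⟨by decide +kernel, by decide +kernel, by decide +kernel, by decide +kernel, by decide +kernel, by decide +kernel, by decide +kernel, by decide +kernel⟩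

def t4378 : allY (E.wth (lkp [])) l4378 = true ∧
    allY (E.wth (lkp [])) l4379 = true ∧
    allY (E.wth (lkp [])) l4380 = true ∧
    allY (E.wth (lkp [])) l4381 = true ∧
    allY (E.wth (lkp [])) l4382 = true ∧
    allY (E.wth (lkp [])) l4383 = true ∧
    allY (E.wth (lkp [])) l4384 = true ∧
    allY (E.wth (lkp [])) l4385 = true :=
  ⟨by decide +kernel, by decide +kernel, by decide +kernel, by decide +kernel, by decide +kernel, by decide +kernel, by decide +kernel, by decide +kernel⟩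

def t4386 : allY (E.wth (lkp [])) l4386 = true ∧
    allY (E.wth (lkp [])) l4387 = true ∧
    allY (E.wth (lkp [])) l4388 = true ∧
    allY (E.wth (lkp [])) l4389 = true ∧
    allY (E.wth (lkp [])) l4390 = true ∧
    allY (E.wth (lkp [])) l4391 = true ∧
    allY (E.wth (lkp [])) l4392 = true ∧
    allY (E.wth (lkp [])) l4393 = true :=
  ⟨by decide +kernel, by decide +kernel, by decide +kernel, by decide +kernel, by decide +kernel, by decide +kernel, by decide +kernel, by decide +kernel⟩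

def t4394 : allY (E.wth (lkp [])) l4394 = true ∧
    allY (E.wth (lkp [])) l4395 = true ∧
    allY (E.wth (lkp [])) l4396 = true ∧
    allY (E.wth (lkp [])) l4397 = true ∧
    allY (E.wth (lkp [])) l4398 = true ∧
    allY (E.wth (lkp [])) l4399 = true ∧
    allY (E.wth (lkp [])) l4400 = true ∧
    allY (E.wth (lkp [])) l4401 = true :=
  ⟨by decide +kernel, by decide +kernel, by decide +kernel, by decide +kernel, by decide +kernel, by decide +kernel, by decide +kernel, by decide +kernel⟩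

def t4402 : allY (E.wth (lkp [])) l4402 = true ∧
    allY (E.wth (lkp [])) l4403 = true ∧
    allY (E.wth (lkp [])) l4404 = true ∧
    allY (E.wth (lkp [])) l4405 = true ∧
    allY (E.wth (lkp [])) l4406 = true ∧
    allY (E.wth (lkp [])) l4407 = true ∧
    allY (E.wth (lkp [])) l4408 = true ∧
    allY (E.wth (lkp [])) l4409 = true :=
  ⟨by decide +kernel, by decide +kernel, by decide +kernel, by decide +kernel, by decide +kernel, by decide +kernel, by decide +kernel, by decide +kernel⟩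

def t4410 : allY (E.wth (lkp [])) l4410 = true ∧
    allY (E.wth (lkp [])) l4411 = true ∧
    allY (E.wth (lkp [])) l4412 = true ∧
    allY (E.wth (lkp [])) l4413 = true ∧
    allY (E.wth (lkp [])) l4414 = true ∧
    allY (E.wth (lkp [])) l4415 = true ∧
    allY (E.wth (lkp [])) l4416 = true ∧
    allY (E.wth (lkp [])) l4417 = true :=
  ⟨by decide +kernel, by decide +kernel, by decide +kernel, by decide +kernel, by decide +kernel, by decide +kernel, by decide +kernel, by decide +kernel⟩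

def t4418 : allY (E.wth (lkp [])) l4418 = true ∧
    allY (E.wth (lkp [])) l4419 = true ∧
    allY (E.wth (lkp [])) l4420 = true ∧
    allY (E.wth (lkp [])) l4421 = true ∧
    allY (E.wth (lkp [])) l4422 = true ∧
    allY (E.wth (lkp [])) l4423 = true ∧
    allY (E.wth (lkp [])) l4424 = true ∧
    allY (E.wth (lkp [])) l4425 = true :=
  ⟨by decide +kernel, by decide +kernel, by decide +kernel, by decide +kernel, by decide +kernel, by decide +kernel, by decide +kernel, by decide +kernel⟩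

theorem a7 {p : Rf → Prop} (H : ∀ l, allY (E.wth (lkp [])) l = true → (lkp l).All p) :
    b7.All p := ⟨⟨⟨⟨⟨⟨⟨⟨⟨H _ t3850.1, H _ t3850.2.1⟩, ⟨H _ t3850.2.2.1, H _ t3850.2.2.2.1⟩⟩, ⟨⟨H _ t3850.2.2.2.2.1, H _ t3850.2.2.2.2.2.1⟩, ⟨H _ t3850.2.2.2.2.2.2.1, ⟨H _ t3850.2.2.2.2.2.2.2, H _ t3858.1⟩⟩⟩⟩, ⟨⟨⟨H _ t3858.2.1, H _ t3858.2.2.1⟩, ⟨H _ t3858.2.2.2.1, H _ t3858.2.2.2.2.1⟩⟩, ⟨⟨H _ t3858.2.2.2.2.2.1, H _ t3858.2.2.2.2.2.2.1⟩, ⟨H _ t3858.2.2.2.2.2.2.2, ⟨H _ t3866.1, H _ t3866.2.1⟩⟩⟩⟩⟩, ⟨⟨⟨⟨H _ t3866.2.2.1, H _ t3866.2.2.2.1⟩, ⟨H _ t3866.2.2.2.2.1, H _ t3866.2.2.2.2.2.1⟩⟩, ⟨⟨H _ t3866.2.2.2.2.2.2.1, H _ t3866.2.2.2.2.2.2.2⟩, ⟨H _ t3874.1, ⟨H _ t3874.2.1, H _ t3874.2.2.1⟩⟩⟩⟩, ⟨⟨⟨H _ t3874.2.2.2.1, H _ t3874.2.2.2.2.1⟩, ⟨H _ t3874.2.2.2.2.2.1, H _ t3874.2.2.2.2.2.2.1⟩⟩, ⟨⟨H _ t3874.2.2.2.2.2.2.2, H _ t3882.1⟩, ⟨H _ t3882.2.1, ⟨H _ t3882.2.2.1, H _ t3882.2.2.2.1⟩⟩⟩⟩⟩⟩, ⟨⟨⟨⟨⟨H _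 t3882.2.2.2.2.1, H _ t3882.2.2.2.2.2.1⟩, ⟨H _ t3882.2.2.2.2.2.2.1, H _ t3882.2.2.2.2.2.2.2⟩⟩, ⟨⟨H _ t3890.1, H _ t3890.2.1⟩, ⟨H _ t3890.2.2.1, ⟨H _ t3890.2.2.2.1, H _ t3890.2.2.2.2.1⟩⟩⟩⟩, ⟨⟨⟨H _ t3890.2.2.2.2.2.1, H _ t3890.2.2.2.2.2.2.1⟩, ⟨H _ t3890.2.2.2.2.2.2.2, H _ t3898.1⟩⟩, ⟨⟨H _ t3898.2.1, H _ t3898.2.2.1⟩, ⟨H _ t3898.2.2.2.1, ⟨H _ t3898.2.2.2.2.1, H _ t3898.2.2.2.2.2.1⟩⟩⟩⟩⟩, ⟨⟨⟨⟨H _ t3898.2.2.2.2.2.2.1, H _ t3898.2.2.2.2.2.2.2⟩, ⟨H _ t3906.1, H _ t3906.2.1⟩⟩, ⟨⟨H _ t3906.2.2.1, H _ t3906.2.2.2.1⟩, ⟨H _ t3906.2.2.2.2.1, ⟨H _ t3906.2.2.2.2.2.1, H _ t3906.2.2.2.2.2.2.1⟩⟩⟩⟩, ⟨⟨⟨H _ t3906.2.2.2.2.2.2.2, H _ t3914.1⟩, ⟨H _ t3914.2.1, H _ t3914.2.2.1⟩⟩, ⟨⟨H _ t3914.2.2.2.1, H _ t3914.2.2.2.2.1⟩, ⟨H _ t3914.2.2.2.2.2.1, ⟨H _ t3914.2.2.2.2.2.2.1, H _ t3914.2.2.2.2.2.2.2⟩⟩⟩⟩⟩⟩⟩, ⟨⟨⟨⟨⟨⟨H _ t3922.1, H _ t3922.2.1⟩, ⟨H _ t3922.2.2.1, H _ t3922.2.2.2.1⟩⟩, ⟨⟨H _ t3922.2.2.2.2.1,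 H _ t3922.2.2.2.2.2.1⟩, ⟨H _ t3922.2.2.2.2.2.2.1, ⟨H _ t3922.2.2.2.2.2.2.2, H _ t3930.1⟩⟩⟩⟩, ⟨⟨⟨H _ t3930.2.1, H _ t3930.2.2.1⟩, ⟨H _ t3930.2.2.2.1, H _ t3930.2.2.2.2.1⟩⟩, ⟨⟨H _ t3930.2.2.2.2.2.1, H _ t3930.2.2.2.2.2.2.1⟩, ⟨H _ t3930.2.2.2.2.2.2.2, ⟨H _ t3938.1, H _ t3938.2.1⟩⟩⟩⟩⟩, ⟨⟨⟨⟨H _ t3938.2.2.1, H _ t3938.2.2.2.1⟩, ⟨H _ t3938.2.2.2.2.1, H _ t3938.2.2.2.2.2.1⟩⟩, ⟨⟨H _ t3938.2.2.2.2.2.2.1, H _ t3938.2.2.2.2.2.2.2⟩, ⟨H _ t3946.1, ⟨H _ t3946.2.1, H _ t3946.2.2.1⟩⟩⟩⟩, ⟨⟨⟨H _ t3946.2.2.2.1, H _ t3946.2.2.2.2.1⟩, ⟨H _ t3946.2.2.2.2.2.1, H _ t3946.2.2.2.2.2.2.1⟩⟩, ⟨⟨H _ t3946.2.2.2.2.2.2.2, H _ t3954.1⟩, ⟨H _ t3954.2.1, ⟨H _ t3954.2.2.1, H _ t3954.2.2.2.1⟩⟩⟩⟩⟩⟩, ⟨⟨⟨⟨⟨H _ t3954.2.2.2.2.1, H _ t3954.2.2.2.2.2.1⟩, ⟨H _ t3954.2.2.2.2.2.2.1, H _ t3954.2.2.2.2.2.2.2⟩⟩, ⟨⟨H _ t3962.1, H _ t3962.2.1⟩, ⟨H _ t3962.2.2.1, ⟨H _ t3962.2.2.2.1, H _ t3962.2.2.2.2.1⟩⟩⟩⟩, ⟨⟨⟨H _ t3962.2.2.2.2.2.1,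 H _ t3962.2.2.2.2.2.2.1⟩, ⟨H _ t3962.2.2.2.2.2.2.2, H _ t3970.1⟩⟩, ⟨⟨H _ t3970.2.1, H _ t3970.2.2.1⟩, ⟨H _ t3970.2.2.2.1, ⟨H _ t3970.2.2.2.2.1, H _ t3970.2.2.2.2.2.1⟩⟩⟩⟩⟩, ⟨⟨⟨⟨H _ t3970.2.2.2.2.2.2.1, H _ t3970.2.2.2.2.2.2.2⟩, ⟨H _ t3978.1, H _ t3978.2.1⟩⟩, ⟨⟨H _ t3978.2.2.1, H _ t3978.2.2.2.1⟩, ⟨H _ t3978.2.2.2.2.1, ⟨H _ t3978.2.2.2.2.2.1, H _ t3978.2.2.2.2.2.2.1⟩⟩⟩⟩, ⟨⟨⟨H _ t3978.2.2.2.2.2.2.2, H _ t3986.1⟩, ⟨H _ t3986.2.1, H _ t3986.2.2.1⟩⟩, ⟨⟨H _ t3986.2.2.2.1, H _ t3986.2.2.2.2.1⟩, ⟨H _ t3986.2.2.2.2.2.1, ⟨H _ t3986.2.2.2.2.2.2.1, H _ t3986.2.2.2.2.2.2.2⟩⟩⟩⟩⟩⟩⟩⟩, ⟨⟨⟨⟨⟨⟨⟨H _ t3994.1, H _ t3994.2.1⟩, ⟨H _ t3994.2.2.1, H _ t3994.2.2.2.1⟩⟩, ⟨⟨H _ t3994.2.2.2.2.1, H _ t3994.2.2.2.2.2.1⟩, ⟨H _ t3994.2.2.2.2.2.2.1, ⟨H _ t3994.2.2.2.2.2.2.2, H _ t4002.1⟩⟩⟩⟩, ⟨⟨⟨H _ t4002.2.1, H _ t4002.2.2.1⟩, ⟨H _ t4002.2.2.2.1, H _ t4002.2.2.2.2.1⟩⟩, ⟨⟨H _ t4002.2.2.2.2.2.1, H _ t4002.2.2.2.2.2.2.1⟩,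 ⟨H _ t4002.2.2.2.2.2.2.2, ⟨H _ t4010.1, H _ t4010.2.1⟩⟩⟩⟩⟩, ⟨⟨⟨⟨H _ t4010.2.2.1, H _ t4010.2.2.2.1⟩, ⟨H _ t4010.2.2.2.2.1, H _ t4010.2.2.2.2.2.1⟩⟩, ⟨⟨H _ t4010.2.2.2.2.2.2.1, H _ t4010.2.2.2.2.2.2.2⟩, ⟨H _ t4018.1, ⟨H _ t4018.2.1, H _ t4018.2.2.1⟩⟩⟩⟩, ⟨⟨⟨H _ t4018.2.2.2.1, H _ t4018.2.2.2.2.1⟩, ⟨H _ t4018.2.2.2.2.2.1, H _ t4018.2.2.2.2.2.2.1⟩⟩, ⟨⟨H _ t4018.2.2.2.2.2.2.2, H _ t4026.1⟩, ⟨H _ t4026.2.1, ⟨H _ t4026.2.2.1, H _ t4026.2.2.2.1⟩⟩⟩⟩⟩⟩, ⟨⟨⟨⟨⟨H _ t4026.2.2.2.2.1, H _ t4026.2.2.2.2.2.1⟩, ⟨H _ t4026.2.2.2.2.2.2.1, H _ t4026.2.2.2.2.2.2.2⟩⟩, ⟨⟨H _ t4034.1, H _ t4034.2.1⟩, ⟨H _ t4034.2.2.1, ⟨H _ t4034.2.2.2.1, H _ t4034.2.2.2.2.1⟩⟩⟩⟩, ⟨⟨⟨H _ t4034.2.2.2.2.2.1, H _ t4034.2.2.2.2.2.2.1⟩, ⟨H _ t4034.2.2.2.2.2.2.2, H _ t4042.1⟩⟩, ⟨⟨H _ t4042.2.1, H _ t4042.2.2.1⟩, ⟨H _ t4042.2.2.2.1, ⟨H _ t4042.2.2.2.2.1, H _ t4042.2.2.2.2.2.1⟩⟩⟩⟩⟩, ⟨⟨⟨⟨H _ t4042.2.2.2.2.2.2.1, H _ t4042.2.2.2.2.2.2.2⟩,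 ⟨H _ t4050.1, H _ t4050.2.1⟩⟩, ⟨⟨H _ t4050.2.2.1, H _ t4050.2.2.2.1⟩, ⟨H _ t4050.2.2.2.2.1, ⟨H _ t4050.2.2.2.2.2.1, H _ t4050.2.2.2.2.2.2.1⟩⟩⟩⟩, ⟨⟨⟨H _ t4050.2.2.2.2.2.2.2, H _ t4058.1⟩, ⟨H _ t4058.2.1, H _ t4058.2.2.1⟩⟩, ⟨⟨H _ t4058.2.2.2.1, H _ t4058.2.2.2.2.1⟩, ⟨H _ t4058.2.2.2.2.2.1, ⟨H _ t4058.2.2.2.2.2.2.1, H _ t4058.2.2.2.2.2.2.2⟩⟩⟩⟩⟩⟩⟩, ⟨⟨⟨⟨⟨⟨H _ t4066.1, H _ t4066.2.1⟩, ⟨H _ t4066.2.2.1, H _ t4066.2.2.2.1⟩⟩, ⟨⟨H _ t4066.2.2.2.2.1, H _ t4066.2.2.2.2.2.1⟩, ⟨H _ t4066.2.2.2.2.2.2.1, ⟨H _ t4066.2.2.2.2.2.2.2, H _ t4074.1⟩⟩⟩⟩, ⟨⟨⟨H _ t4074.2.1, H _ t4074.2.2.1⟩, ⟨H _ t4074.2.2.2.1, H _ t4074.2.2.2.2.1⟩⟩, ⟨⟨H _ t4074.2.2.2.2.2.1, H _ t4074.2.2.2.2.2.2.1⟩, ⟨H _ t4074.2.2.2.2.2.2.2, ⟨H _ t4082.1, H _ t4082.2.1⟩⟩⟩⟩⟩, ⟨⟨⟨⟨H _ t4082.2.2.1, H _ t4082.2.2.2.1⟩, ⟨H _ t4082.2.2.2.2.1, H _ t4082.2.2.2.2.2.1⟩⟩, ⟨⟨H _ t4082.2.2.2.2.2.2.1, H _ t4082.2.2.2.2.2.2.2⟩, ⟨H _ t4090.1,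 ⟨H _ t4090.2.1, H _ t4090.2.2.1⟩⟩⟩⟩, ⟨⟨⟨H _ t4090.2.2.2.1, H _ t4090.2.2.2.2.1⟩, ⟨H _ t4090.2.2.2.2.2.1, H _ t4090.2.2.2.2.2.2.1⟩⟩, ⟨⟨H _ t4090.2.2.2.2.2.2.2, H _ t4098.1⟩, ⟨H _ t4098.2.1, ⟨H _ t4098.2.2.1, H _ t4098.2.2.2.1⟩⟩⟩⟩⟩⟩, ⟨⟨⟨⟨⟨H _ t4098.2.2.2.2.1, H _ t4098.2.2.2.2.2.1⟩, ⟨H _ t4098.2.2.2.2.2.2.1, H _ t4098.2.2.2.2.2.2.2⟩⟩, ⟨⟨H _ t4106.1, H _ t4106.2.1⟩, ⟨H _ t4106.2.2.1, ⟨H _ t4106.2.2.2.1, H _ t4106.2.2.2.2.1⟩⟩⟩⟩, ⟨⟨⟨H _ t4106.2.2.2.2.2.1, H _ t4106.2.2.2.2.2.2.1⟩, ⟨H _ t4106.2.2.2.2.2.2.2, H _ t4114.1⟩⟩, ⟨⟨H _ t4114.2.1, H _ t4114.2.2.1⟩, ⟨H _ t4114.2.2.2.1, ⟨H _ t4114.2.2.2.2.1, H _ t4114.2.2.2.2.2.1⟩⟩⟩⟩⟩, ⟨⟨⟨⟨H _ t4114.2.2.2.2.2.2.1, H _ t4114.2.2.2.2.2.2.2⟩, ⟨H _ t4122.1, H _ t4122.2.1⟩⟩, ⟨⟨H _ t4122.2.2.1, H _ t4122.2.2.2.1⟩, ⟨H _ t4122.2.2.2.2.1, ⟨H _ t4122.2.2.2.2.2.1, H _ t4122.2.2.2.2.2.2.1⟩⟩⟩⟩, ⟨⟨⟨H _ t4122.2.2.2.2.2.2.2, H _ t4130.1⟩, ⟨H _ t4130.2.1,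 H _ t4130.2.2.1⟩⟩, ⟨⟨H _ t4130.2.2.2.1, H _ t4130.2.2.2.2.1⟩, ⟨H _ t4130.2.2.2.2.2.1, ⟨H _ t4130.2.2.2.2.2.2.1, H _ t4130.2.2.2.2.2.2.2⟩⟩⟩⟩⟩⟩⟩⟩⟩, ⟨⟨⟨⟨⟨⟨⟨⟨H _ t4138.1, H _ t4138.2.1⟩, ⟨H _ t4138.2.2.1, H _ t4138.2.2.2.1⟩⟩, ⟨⟨H _ t4138.2.2.2.2.1, H _ t4138.2.2.2.2.2.1⟩, ⟨H _ t4138.2.2.2.2.2.2.1, ⟨H _ t4138.2.2.2.2.2.2.2, H _ t4146.1⟩⟩⟩⟩, ⟨⟨⟨H _ t4146.2.1, H _ t4146.2.2.1⟩, ⟨H _ t4146.2.2.2.1, H _ t4146.2.2.2.2.1⟩⟩, ⟨⟨H _ t4146.2.2.2.2.2.1, H _ t4146.2.2.2.2.2.2.1⟩, ⟨H _ t4146.2.2.2.2.2.2.2, ⟨H _ t4154.1, H _ t4154.2.1⟩⟩⟩⟩⟩, ⟨⟨⟨⟨H _ t4154.2.2.1, H _ t4154.2.2.2.1⟩, ⟨H _ t4154.2.2.2.2.1, H _ t4154.2.2.2.2.2.1⟩⟩, ⟨⟨H _ t4154.2.2.2.2.2.2.1, H _ t4154.2.2.2.2.2.2.2⟩, ⟨H _ t4162.1, ⟨H _ t4162.2.1, H _ t4162.2.2.1⟩⟩⟩⟩, ⟨⟨⟨H _ t4162.2.2.2.1, H _ t4162.2.2.2.2.1⟩, ⟨H _ t4162.2.2.2.2.2.1, H _ t4162.2.2.2.2.2.2.1⟩⟩, ⟨⟨H _ t4162.2.2.2.2.2.2.2, H _ t4170.1⟩, ⟨H _ t4170.2.1, ⟨H _ t4170.2.2.1,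 H _ t4170.2.2.2.1⟩⟩⟩⟩⟩⟩, ⟨⟨⟨⟨⟨H _ t4170.2.2.2.2.1, H _ t4170.2.2.2.2.2.1⟩, ⟨H _ t4170.2.2.2.2.2.2.1, H _ t4170.2.2.2.2.2.2.2⟩⟩, ⟨⟨H _ t4178.1, H _ t4178.2.1⟩, ⟨H _ t4178.2.2.1, ⟨H _ t4178.2.2.2.1, H _ t4178.2.2.2.2.1⟩⟩⟩⟩, ⟨⟨⟨H _ t4178.2.2.2.2.2.1, H _ t4178.2.2.2.2.2.2.1⟩, ⟨H _ t4178.2.2.2.2.2.2.2, H _ t4186.1⟩⟩, ⟨⟨H _ t4186.2.1, H _ t4186.2.2.1⟩, ⟨H _ t4186.2.2.2.1, ⟨H _ t4186.2.2.2.2.1, H _ t4186.2.2.2.2.2.1⟩⟩⟩⟩⟩, ⟨⟨⟨⟨H _ t4186.2.2.2.2.2.2.1, H _ t4186.2.2.2.2.2.2.2⟩, ⟨H _ t4194.1, H _ t4194.2.1⟩⟩, ⟨⟨H _ t4194.2.2.1, H _ t4194.2.2.2.1⟩, ⟨H _ t4194.2.2.2.2.1, ⟨H _ t4194.2.2.2.2.2.1, H _ t4194.2.2.2.2.2.2.1⟩⟩⟩⟩, ⟨⟨⟨H _ t4194.2.2.2.2.2.2.2, H _ t4202.1⟩, ⟨H _ t4202.2.1, H _ t4202.2.2.1⟩⟩, ⟨⟨H _ t4202.2.2.2.1, H _ t4202.2.2.2.2.1⟩, ⟨H _ t4202.2.2.2.2.2.1, ⟨H _ t4202.2.2.2.2.2.2.1, H _ t4202.2.2.2.2.2.2.2⟩⟩⟩⟩⟩⟩⟩, ⟨⟨⟨⟨⟨⟨H _ t4210.1, H _ t4210.2.1⟩, ⟨H _ t4210.2.2.1, H _ t4210.2.2.2.1⟩⟩,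 ⟨⟨H _ t4210.2.2.2.2.1, H _ t4210.2.2.2.2.2.1⟩, ⟨H _ t4210.2.2.2.2.2.2.1, ⟨H _ t4210.2.2.2.2.2.2.2, H _ t4218.1⟩⟩⟩⟩, ⟨⟨⟨H _ t4218.2.1, H _ t4218.2.2.1⟩, ⟨H _ t4218.2.2.2.1, H _ t4218.2.2.2.2.1⟩⟩, ⟨⟨H _ t4218.2.2.2.2.2.1, H _ t4218.2.2.2.2.2.2.1⟩, ⟨H _ t4218.2.2.2.2.2.2.2, ⟨H _ t4226.1, H _ t4226.2.1⟩⟩⟩⟩⟩, ⟨⟨⟨⟨H _ t4226.2.2.1, H _ t4226.2.2.2.1⟩, ⟨H _ t4226.2.2.2.2.1, H _ t4226.2.2.2.2.2.1⟩⟩, ⟨⟨H _ t4226.2.2.2.2.2.2.1, H _ t4226.2.2.2.2.2.2.2⟩, ⟨H _ t4234.1, ⟨H _ t4234.2.1, H _ t4234.2.2.1⟩⟩⟩⟩, ⟨⟨⟨H _ t4234.2.2.2.1, H _ t4234.2.2.2.2.1⟩, ⟨H _ t4234.2.2.2.2.2.1, H _ t4234.2.2.2.2.2.2.1⟩⟩, ⟨⟨H _ t4234.2.2.2.2.2.2.2, H _ t4242.1⟩, ⟨H _ t4242.2.1, ⟨H _ t4242.2.2.1, H _ t4242.2.2.2.1⟩⟩⟩⟩⟩⟩, ⟨⟨⟨⟨⟨H _ t4242.2.2.2.2.1, H _ t4242.2.2.2.2.2.1⟩, ⟨H _ t4242.2.2.2.2.2.2.1, H _ t4242.2.2.2.2.2.2.2⟩⟩, ⟨⟨H _ t4250.1, H _ t4250.2.1⟩, ⟨H _ t4250.2.2.1, ⟨H _ t4250.2.2.2.1, H _ t4250.2.2.2.2.1⟩⟩⟩⟩,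 ⟨⟨⟨H _ t4250.2.2.2.2.2.1, H _ t4250.2.2.2.2.2.2.1⟩, ⟨H _ t4250.2.2.2.2.2.2.2, H _ t4258.1⟩⟩, ⟨⟨H _ t4258.2.1, H _ t4258.2.2.1⟩, ⟨H _ t4258.2.2.2.1, ⟨H _ t4258.2.2.2.2.1, H _ t4258.2.2.2.2.2.1⟩⟩⟩⟩⟩, ⟨⟨⟨⟨H _ t4258.2.2.2.2.2.2.1, H _ t4258.2.2.2.2.2.2.2⟩, ⟨H _ t4266.1, H _ t4266.2.1⟩⟩, ⟨⟨H _ t4266.2.2.1, H _ t4266.2.2.2.1⟩, ⟨H _ t4266.2.2.2.2.1, ⟨H _ t4266.2.2.2.2.2.1, H _ t4266.2.2.2.2.2.2.1⟩⟩⟩⟩, ⟨⟨⟨H _ t4266.2.2.2.2.2.2.2, H _ t4274.1⟩, ⟨H _ t4274.2.1, H _ t4274.2.2.1⟩⟩, ⟨⟨H _ t4274.2.2.2.1, H _ t4274.2.2.2.2.1⟩, ⟨H _ t4274.2.2.2.2.2.1, ⟨H _ t4274.2.2.2.2.2.2.1, H _ t4274.2.2.2.2.2.2.2⟩⟩⟩⟩⟩⟩⟩⟩, ⟨⟨⟨⟨⟨⟨⟨H _ t4282.1, H _ t4282.2.1⟩, ⟨H _ t4282.2.2.1, H _ t4282.2.2.2.1⟩⟩, ⟨⟨H _ t4282.2.2.2.2.1, H _ t4282.2.2.2.2.2.1⟩, ⟨H _ t4282.2.2.2.2.2.2.1, ⟨H _ t4282.2.2.2.2.2.2.2, H _ t4290.1⟩⟩⟩⟩, ⟨⟨⟨H _ t4290.2.1, H _ t4290.2.2.1⟩, ⟨H _ t4290.2.2.2.1, H _ t4290.2.2.2.2.1⟩⟩, ⟨⟨H _ t4290.2.2.2.2.2.1,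 H _ t4290.2.2.2.2.2.2.1⟩, ⟨H _ t4290.2.2.2.2.2.2.2, ⟨H _ t4298.1, H _ t4298.2.1⟩⟩⟩⟩⟩, ⟨⟨⟨⟨H _ t4298.2.2.1, H _ t4298.2.2.2.1⟩, ⟨H _ t4298.2.2.2.2.1, H _ t4298.2.2.2.2.2.1⟩⟩, ⟨⟨H _ t4298.2.2.2.2.2.2.1, H _ t4298.2.2.2.2.2.2.2⟩, ⟨H _ t4306.1, ⟨H _ t4306.2.1, H _ t4306.2.2.1⟩⟩⟩⟩, ⟨⟨⟨H _ t4306.2.2.2.1, H _ t4306.2.2.2.2.1⟩, ⟨H _ t4306.2.2.2.2.2.1, H _ t4306.2.2.2.2.2.2.1⟩⟩, ⟨⟨H _ t4306.2.2.2.2.2.2.2, H _ t4314.1⟩, ⟨H _ t4314.2.1, ⟨H _ t4314.2.2.1, H _ t4314.2.2.2.1⟩⟩⟩⟩⟩⟩, ⟨⟨⟨⟨⟨H _ t4314.2.2.2.2.1, H _ t4314.2.2.2.2.2.1⟩, ⟨H _ t4314.2.2.2.2.2.2.1, H _ t4314.2.2.2.2.2.2.2⟩⟩, ⟨⟨H _ t4322.1, H _ t4322.2.1⟩, ⟨H _ t4322.2.2.1, ⟨H _ t4322.2.2.2.1, H _ t4322.2.2.2.2.1⟩⟩⟩⟩, ⟨⟨⟨H _ t4322.2.2.2.2.2.1, H _ t4322.2.2.2.2.2.2.1⟩, ⟨H _ t4322.2.2.2.2.2.2.2, H _ t4330.1⟩⟩, ⟨⟨H _ t4330.2.1, H _ t4330.2.2.1⟩, ⟨H _ t4330.2.2.2.1, ⟨H _ t4330.2.2.2.2.1, H _ t4330.2.2.2.2.2.1⟩⟩⟩⟩⟩, ⟨⟨⟨⟨H _ t4330.2.2.2.2.2.2.1,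 H _ t4330.2.2.2.2.2.2.2⟩, ⟨H _ t4338.1, H _ t4338.2.1⟩⟩, ⟨⟨H _ t4338.2.2.1, H _ t4338.2.2.2.1⟩, ⟨H _ t4338.2.2.2.2.1, ⟨H _ t4338.2.2.2.2.2.1, H _ t4338.2.2.2.2.2.2.1⟩⟩⟩⟩, ⟨⟨⟨H _ t4338.2.2.2.2.2.2.2, H _ t4346.1⟩, ⟨H _ t4346.2.1, H _ t4346.2.2.1⟩⟩, ⟨⟨H _ t4346.2.2.2.1, H _ t4346.2.2.2.2.1⟩, ⟨H _ t4346.2.2.2.2.2.1, ⟨H _ t4346.2.2.2.2.2.2.1, H _ t4346.2.2.2.2.2.2.2⟩⟩⟩⟩⟩⟩⟩, ⟨⟨⟨⟨⟨⟨H _ t4354.1, H _ t4354.2.1⟩, ⟨H _ t4354.2.2.1, H _ t4354.2.2.2.1⟩⟩, ⟨⟨H _ t4354.2.2.2.2.1, H _ t4354.2.2.2.2.2.1⟩, ⟨H _ t4354.2.2.2.2.2.2.1, ⟨H _ t4354.2.2.2.2.2.2.2, H _ t4362.1⟩⟩⟩⟩, ⟨⟨⟨H _ t4362.2.1, H _ t4362.2.2.1⟩, ⟨H _ t4362.2.2.2.1, H _ t4362.2.2.2.2.1⟩⟩, ⟨⟨H _ t4362.2.2.2.2.2.1, H _ t4362.2.2.2.2.2.2.1⟩, ⟨H _ t4362.2.2.2.2.2.2.2, ⟨H _ t4370.1, H _ t4370.2.1⟩⟩⟩⟩⟩, ⟨⟨⟨⟨H _ t4370.2.2.1, H _ t4370.2.2.2.1⟩, ⟨H _ t4370.2.2.2.2.1, H _ t4370.2.2.2.2.2.1⟩⟩, ⟨⟨H _ t4370.2.2.2.2.2.2.1, H _ t4370.2.2.2.2.2.2.2⟩,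 ⟨H _ t4378.1, ⟨H _ t4378.2.1, H _ t4378.2.2.1⟩⟩⟩⟩, ⟨⟨⟨H _ t4378.2.2.2.1, H _ t4378.2.2.2.2.1⟩, ⟨H _ t4378.2.2.2.2.2.1, H _ t4378.2.2.2.2.2.2.1⟩⟩, ⟨⟨H _ t4378.2.2.2.2.2.2.2, H _ t4386.1⟩, ⟨H _ t4386.2.1, ⟨H _ t4386.2.2.1, H _ t4386.2.2.2.1⟩⟩⟩⟩⟩⟩, ⟨⟨⟨⟨⟨H _ t4386.2.2.2.2.1, H _ t4386.2.2.2.2.2.1⟩, ⟨H _ t4386.2.2.2.2.2.2.1, H _ t4386.2.2.2.2.2.2.2⟩⟩, ⟨⟨H _ t4394.1, H _ t4394.2.1⟩, ⟨H _ t4394.2.2.1, ⟨H _ t4394.2.2.2.1, H _ t4394.2.2.2.2.1⟩⟩⟩⟩, ⟨⟨⟨H _ t4394.2.2.2.2.2.1, H _ t4394.2.2.2.2.2.2.1⟩, ⟨H _ t4394.2.2.2.2.2.2.2, H _ t4402.1⟩⟩, ⟨⟨H _ t4402.2.1, H _ t4402.2.2.1⟩, ⟨H _ t4402.2.2.2.1, ⟨H _ t4402.2.2.2.2.1, H _ t4402.2.2.2.2.2.1⟩⟩⟩⟩⟩, ⟨⟨⟨⟨H _ t4402.2.2.2.2.2.2.1, H _ t4402.2.2.2.2.2.2.2⟩, ⟨H _ t4410.1, H _ t4410.2.1⟩⟩, ⟨⟨H _ t4410.2.2.1, H _ t4410.2.2.2.1⟩, ⟨H _ t4410.2.2.2.2.1, ⟨H _ t4410.2.2.2.2.2.1, H _ t4410.2.2.2.2.2.2.1⟩⟩⟩⟩, ⟨⟨⟨H _ t4410.2.2.2.2.2.2.2, H _ t4418.1⟩,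 ⟨H _ t4418.2.1, H _ t4418.2.2.1⟩⟩, ⟨⟨H _ t4418.2.2.2.1, H _ t4418.2.2.2.2.1⟩, ⟨H _ t4418.2.2.2.2.2.1, ⟨H _ t4418.2.2.2.2.2.2.1, H _ t4418.2.2.2.2.2.2.2⟩⟩⟩⟩⟩⟩⟩⟩⟩⟩

end Pool.Agent.MP_c853c5_nt.X.C4950
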