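import Pool.Agent.MP_c853c5_nt.X.C4950.Env
import Pool.Agent.MP_c853c5_nt.X.C4950.Tab

set_option autoImplicit false
set_option maxRecDepth 8192
set_option linter.all false

namespace Pool.Agent.MP_c853c5_nt.X.C4950

open Pool.Agent.MP_c853c5_nt.X

def t38696 : allY (E.wth T1) l38696 = true ∧
    allY (E.wth T1) l38697 = true ∧
    allY (E.wth T1) l38698 = true ∧
    allY (E.wth T1) l38699 = true ∧
    allY (E.wth T1) l38700 = true ∧
    allY (E.wth T1) l38701 = true ∧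
    allY (E.wth T1) l38702 = true ∧
    allY (E.wth T1) l38703 = true :=
  ⟨by decide +kernel, by decide +kernel, by decide +kernel, by decide +kernel, by decide +kernel, by decide +kernel, by decide +kernel, by decide +kernel⟩

def t38704 : allY (E.wth T1) l38704 = true ∧
    allY (E.wth T1) l38705 = true ∧
    allY (E.wth T1) l38706 = true ∧
    allY (E.wth T1) l38707 = true ∧
    allY (E.wth T1) l38708 = true ∧
    allY (E.wth T1) l38709 = true ∧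
    allY (E.wth T1) l38710 = true ∧
    allY (E.wth T1) l38711 = true :=
  ⟨by decide +kernel, by decide +kernel, by decide +kernel, by decide +kernel, by decide +kernel, by decide +kernel, by decide +kernel, by decide +kernel⟩

def t38712 : allY (E.wth T1) l38712 = true ∧
    allY (E.wth T1) l38713 = true ∧
    allY (E.wth T1) l38714 = true ∧
    allY (E.wth T1) l38715 = true ∧
    allY (E.wth T1) l38716 = true ∧
    allY (E.wth T1) l38717 = true ∧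
    allY (E.wth T1) l38718 = true ∧
    allY (E.wth T1) l38719 = true :=
  ⟨by decide +kernel, by decide +kernel, by decide +kernel, by decide +kernel, by decide +kernel, by decide +kernel, by decide +kernel, by decide +kernel⟩

def t38720 : allY (E.wth T1) l38720 = true ∧
    allY (E.wth T1) l38721 = true ∧
    allY (E.wth T1) l38722 = true ∧
    allY (E.wth T1) l38723 = true ∧
    allY (E.wth T1) l38724 = true ∧
    allY (E.wth T1) l38725 = true ∧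
    allY (E.wth T1) l38726 = true ∧
    allY (E.wth T1) l38727 = true :=
  ⟨by decide +kernel, by decide +kernel, by decide +kernel, by decide +kernel, by decide +kernel, by decide +kernel, by decide +kernel, by decide +kernel⟩

def t38728 : allY (E.wth T1) l38728 = true ∧
    allY (E.wth T1) l38729 = true ∧
    allY (E.wth T1) l38730 = true ∧
    allY (E.wth T1) l38731 = true ∧
    allY (E.wth T1) l38732 = true ∧
    allY (E.wth T1) l38733 = true ∧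
    allY (E.wth T1) l38734 = true ∧
    allY (E.wth T1) l38735 = true :=
  ⟨by decide +kernel, by decide +kernel, by decide +kernel, by decide +kernel, by decide +kernel, by decide +kernel, by decide +kernel, by decide +kernel⟩

def t38736 : allY (E.wth T1) l38736 = true ∧
    allY (E.wth T1) l38737 = true ∧
    allY (E.wth T1) l38738 = true ∧
    allY (E.wth T1) l38739 = true ∧
    allY (E.wth T1) l38740 = true ∧
    allY (E.wth T1) l38741 = true ∧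
    allY (E.wth T1) l38742 = true ∧
    allY (E.wth T1) l38743 = true :=
  ⟨by decide +kernel, by decide +kernel, by decide +kernel, by decide +kernel, by decide +kernel, by decide +kernel, by decide +kernel, by decide +kernel⟩

def t38744 : allY (E.wth T1) l38744 = true ∧
    allY (E.wth T1) l38745 = true ∧
    allY (E.wth T1) l38746 = true ∧
    allY (E.wth T1) l38747 = true ∧
    allY (E.wth T1) l38748 = true ∧
    allY (E.wth T1) l38749 = true ∧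
    allY (E.wth T1) l38750 = true ∧
    allY (E.wth T1) l38751 = true :=
  ⟨by decide +kernel, by decide +kernel, by decide +kernel, by decide +kernel, by decide +kernel, by decide +kernel, by decide +kernel, by decide +kernel⟩

def t38752 : allY (E.wth T1) l38752 = true ∧
    allY (E.wth T1) l38753 = true ∧
    allY (E.wth T1) l38754 = true ∧
    allY (E.wth T1) l38755 = true ∧
    allY (E.wth T1) l38756 = true ∧
    allY (E.wth T1) l38757 = true ∧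
    allY (E.wth T1) l38758 = true ∧
    allY (E.wth T1) l38759 = true :=
  ⟨by decide +kernel, by decide +kernel, by decide +kernel, by decide +kernel, by decide +kernel, by decide +kernel, by decide +kernel, by decide +kernel⟩

def t38760 : allY (E.wth T1) l38760 = true ∧
    allY (E.wth T1) l38761 = true ∧
    allY (E.wth T1) l38762 = true ∧
    allY (E.wth T1) l38763 = true ∧
    allY (E.wth T1) l38764 = true ∧
    allY (E.wth T1) l38765 = true ∧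
    allY (E.wth T1) l38766 = true ∧
    allY (E.wth T1) l38767 = true :=
  ⟨by decide +kernel, by decide +kernel, by decide +kernel, by decide +kernel, by decide +kernel, by decide +kernel, by decide +kernel, by decide +kernel⟩

def t38768 : allY (E.wth T1) l38768 = true ∧
    allY (E.wth T1) l38769 = true ∧
    allY (E.wth T1) l38770 = true ∧
    allY (E.wth T1) l38771 = true ∧
    allY (E.wth T1) l38772 = true ∧
    allY (E.wth T1) l38773 = true ∧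
    allY (E.wth T1) l38774 = true ∧
    allY (E.wth T1) l38775 = true :=
  ⟨by decide +kernel, by decide +kernel, by decide +kernel, by decide +kernel, by decide +kernel, by decide +kernel, by decide +kernel, by decide +kernel⟩

def t38776 : allY (E.wth T1) l38776 = true ∧
    allY (E.wth T1) l38777 = true :=
  ⟨by decide +kernel, by decide +kernel⟩

theorem a70 {p : Rf → Prop} (H : ∀ l, allY (E.wth T1) l = true → (lkp l).All p) :
    b70.All p := ⟨⟨⟨⟨⟨⟨H _ t38696.1, H _ t38696.2.1⟩, ⟨H _ t38696.2.2.1, ⟨H _ t38696.2.2.2.1, H _ t38696.2.2.2.2.1⟩⟩⟩, ⟨⟨H _ t38696.2.2.2.2.2.1, H _ t38696.2.2.2.2.2.2.1⟩, ⟨H _ t38696.2.2.2.2.2.2.2, ⟨H _ t38704.1, H _ t38704.2.1⟩⟩⟩⟩, ⟨⟨⟨H _ t38704.2.2.1, H _ t38704.2.2.2.1⟩, ⟨H _ t38704.2.2.2.2.1, ⟨H _ t38704.2.2.2.2.2.1, H _ t38704.2.2.2.2.2.2.1⟩⟩⟩, ⟨⟨H _ t38704.2.2.2.2.2.2.2, H _ t38712.1⟩, ⟨H _ t38712.2.1, ⟨H _ t38712.2.2.1, H _ t38712.2.2.2.1⟩⟩⟩⟩⟩, ⟨⟨⟨⟨H _ t38712.2.2.2.2.1,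 H _ t38712.2.2.2.2.2.1⟩, ⟨H _ t38712.2.2.2.2.2.2.1, ⟨H _ t38712.2.2.2.2.2.2.2, H _ t38720.1⟩⟩⟩, ⟨⟨H _ t38720.2.1, H _ t38720.2.2.1⟩, ⟨H _ t38720.2.2.2.1, ⟨H _ t38720.2.2.2.2.1, H _ t38720.2.2.2.2.2.1⟩⟩⟩⟩, ⟨⟨⟨H _ t38720.2.2.2.2.2.2.1, H _ t38720.2.2.2.2.2.2.2⟩, ⟨H _ t38728.1, ⟨H _ t38728.2.1, H _ t38728.2.2.1⟩⟩⟩, ⟨⟨H _ t38728.2.2.2.1, ⟨H _ t38728.2.2.2.2.1, H _ t38728.2.2.2.2.2.1⟩⟩, ⟨H _ t38728.2.2.2.2.2.2.1, ⟨H _ t38728.2.2.2.2.2.2.2, H _ t38736.1⟩⟩⟩⟩⟩⟩, ⟨⟨⟨⟨⟨H _ t38736.2.1, H _ t38736.2.2.1⟩, ⟨H _ t38736.2.2.2.1, ⟨H _ t38736.2.2.2.2.1, H _ t38736.2.2.2.2.2.1⟩⟩⟩, ⟨⟨H _ t38736.2.2.2.2.2.2.1, H _ t38736.2.2.2.2.2.2.2⟩, ⟨H _ t38744.1, ⟨H _ t38744.2.1, H _ t38744.2.2.1⟩⟩⟩⟩, ⟨⟨⟨H _ t38744.2.2.2.1, H _ t38744.2.2.2.2.1⟩, ⟨H _ t38744.2.2.2.2.2.1, ⟨H _ t38744.2.2.2.2.2.2.1, H _ t38744.2.2.2.2.2.2.2⟩⟩⟩, ⟨⟨H _ t38752.1, H _ t38752.2.1⟩, ⟨H _ t38752.2.2.1, ⟨H _ t38752.2.2.2.1, H _ t38752.2.2.2.2.1⟩⟩⟩⟩⟩,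 ⟨⟨⟨⟨H _ t38752.2.2.2.2.2.1, H _ t38752.2.2.2.2.2.2.1⟩, ⟨H _ t38752.2.2.2.2.2.2.2, ⟨H _ t38760.1, H _ t38760.2.1⟩⟩⟩, ⟨⟨H _ t38760.2.2.1, H _ t38760.2.2.2.1⟩, ⟨H _ t38760.2.2.2.2.1, ⟨H _ t38760.2.2.2.2.2.1, H _ t38760.2.2.2.2.2.2.1⟩⟩⟩⟩, ⟨⟨⟨H _ t38760.2.2.2.2.2.2.2, H _ t38768.1⟩, ⟨H _ t38768.2.1, ⟨H _ t38768.2.2.1, H _ t38768.2.2.2.1⟩⟩⟩, ⟨⟨H _ t38768.2.2.2.2.1, ⟨H _ t38768.2.2.2.2.2.1, H _ t38768.2.2.2.2.2.2.1⟩⟩, ⟨H _ t38768.2.2.2.2.2.2.2, ⟨H _ t38776.1, H _ t38776.2⟩⟩⟩⟩⟩⟩⟩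

def t38778 : allY (E.wth T2) l38778 = true ∧
    allY (E.wth T2) l38779 = true ∧
    allY (E.wth T2) l38780 = true ∧
    allY (E.wth T2) l38781 = true ∧
    allY (E.wth T2) l38782 = true ∧
    allY (E.wth T2) l38783 = true ∧
    allY (E.wth T2) l38784 = true ∧
    allY (E.wth T2) l38785 = true :=
  ⟨by decide +kernel, by decide +kernel, by decide +kernel, by decide +kernel, by decide +kernel, by decide +kernel, by decide +kernel, by decide +kernel⟩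

def t38786 : allY (E.wth T2) l38786 = true ∧
    allY (E.wth T2) l38787 = true ∧
    allY (E.wth T2) l38788 = true ∧
    allY (E.wth T2) l38789 = true ∧
    allY (E.wth T2) l38790 = true ∧
    allY (E.wth T2) l38791 = true ∧
    allY (E.wth T2) l38792 = true ∧
    allY (E.wth T2) l38793 = true :=
  ⟨by decide +kernel, by decide +kernel, by decide +kernel, by decide +kernel, by decide +kernel, by decide +kernel, by decide +kernel, by decide +kernel⟩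

def t38794 : allY (E.wth T2) l38794 = true ∧
    allY (E.wth T2) l38795 = true ∧
    allY (E.wth T2) l38796 = true ∧
    allY (E.wth T2) l38797 = true ∧
    allY (E.wth T2) l38798 = true ∧
    allY (E.wth T2) l38799 = true ∧
    allY (E.wth T2) l38800 = true ∧
    allY (E.wth T2) l38801 = true :=
  ⟨by decide +kernel, by decide +kernel, by decide +kernel, by decide +kernel, by decide +kernel, by decide +kernel, by decide +kernel, by decide +kernel⟩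

def t38802 : allY (E.wth T2) l38802 = true ∧
    allY (E.wth T2) l38803 = true ∧
    allY (E.wth T2) l38804 = true ∧
    allY (E.wth T2) l38805 = true ∧
    allY (E.wth T2) l38806 = true ∧
    allY (E.wth T2) l38807 = true ∧
    allY (E.wth T2) l38808 = true ∧
    allY (E.wth T2) l38809 = true :=
  ⟨by decide +kernel, by decide +kernel, by decide +kernel, by decide +kernel, by decide +kernel, by decide +kernel, by decide +kernel, by decide +kernel⟩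

def t38810 : allY (E.wth T2) l38810 = true ∧
    allY (E.wth T2) l38811 = true ∧
    allY (E.wth T2) l38812 = true ∧
    allY (E.wth T2) l38813 = true ∧
    allY (E.wth T2) l38814 = true ∧
    allY (E.wth T2) l38815 = true ∧
    allY (E.wth T2) l38816 = true ∧
    allY (E.wth T2) l38817 = true :=
  ⟨by decide +kernel, by decide +kernel, by decide +kernel, by decide +kernel, by decide +kernel, by decide +kernel, by decide +kernel, by decide +kernel⟩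

def t38818 : allY (E.wth T2) l38818 = true ∧
    allY (E.wth T2) l38819 = true ∧
    allY (E.wth T2) l38820 = true ∧
    allY (E.wth T2) l38821 = true ∧
    allY (E.wth T2) l38822 = true ∧
    allY (E.wth T2) l38823 = true ∧
    allY (E.wth T2) l38824 = true ∧
    allY (E.wth T2) l38825 = true :=
  ⟨by decide +kernel, by decide +kernel, by decide +kernel, by decide +kernel, by decide +kernel, by decide +kernel, by decide +kernel, by decide +kernel⟩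

def t38826 : allY (E.wth T2) l38826 = true ∧
    allY (E.wth T2) l38827 = true ∧
    allY (E.wth T2) l38828 = true ∧
    allY (E.wth T2) l38829 = true ∧
    allY (E.wth T2) l38830 = true ∧
    allY (E.wth T2) l38831 = true ∧
    allY (E.wth T2) l38832 = true ∧
    allY (E.wth T2) l38833 = true :=
  ⟨by decide +kernel, by decide +kernel, by decide +kernel, by decide +kernel, by decide +kernel, by decide +kernel, by decide +kernel, by decide +kernel⟩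

def t38834 : allY (E.wth T2) l38834 = true ∧
    allY (E.wth T2) l38835 = true ∧
    allY (E.wth T2) l38836 = true ∧
    allY (E.wth T2) l38837 = true ∧
    allY (E.wth T2) l38838 = true ∧
    allY (E.wth T2) l38839 = true ∧
    allY (E.wth T2) l38840 = true ∧
    allY (E.wth T2) l38841 = true :=
  ⟨by decide +kernel, by decide +kernel, by decide +kernel, by decide +kernel, by decide +kernel, by decide +kernel, by decide +kernel, by decide +kernel⟩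

def t38842 : allY (E.wth T2) l38842 = true ∧
    allY (E.wth T2) l38843 = true ∧
    allY (E.wth T2) l38844 = true ∧
    allY (E.wth T2) l38845 = true ∧
    allY (E.wth T2) l38846 = true ∧
    allY (E.wth T2) l38847 = true ∧
    allY (E.wth T2) l38848 = true ∧
    allY (E.wth T2) l38849 = true :=
  ⟨by decide +kernel, by decide +kernel, by decide +kernel, by decide +kernel, by decide +kernel, by decide +kernel, by decide +kernel, by decide +kernel⟩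

def t38850 : allY (E.wth T2) l38850 = true ∧
    allY (E.wth T2) l38851 = true ∧
    allY (E.wth T2) l38852 = true ∧
    allY (E.wth T2) l38853 = true ∧
    allY (E.wth T2) l38854 = true ∧
    allY (E.wth T2) l38855 = true ∧
    allY (E.wth T2) l38856 = true ∧
    allY (E.wth T2) l38857 = true :=
  ⟨by decide +kernel, by decide +kernel, by decide +kernel, by decide +kernel, by decide +kernel, by decide +kernel, by decide +kernel, by decide +kernel⟩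

def t38858 : allY (E.wth T2) l38858 = true ∧
    allY (E.wth T2) l38859 = true ∧
    allY (E.wth T2) l38860 = true ∧
    allY (E.wth T2) l38861 = true ∧
    allY (E.wth T2) l38862 = true ∧
    allY (E.wth T2) l38863 = true ∧
    allY (E.wth T2) l38864 = true ∧
    allY (E.wth T2) l38865 = true :=
  ⟨by decide +kernel, by decide +kernel, by decide +kernel, by decide +kernel, by decide +kernel, by decide +kernel, by decide +kernel, by decide +kernel⟩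

def t38866 : allY (E.wth T2) l38866 = true ∧
    allY (E.wth T2) l38867 = true ∧
    allY (E.wth T2) l38868 = true ∧
    allY (E.wth T2) l38869 = true ∧
    allY (E.wth T2) l38870 = true ∧
    allY (E.wth T2) l38871 = true ∧
    allY (E.wth T2) l38872 = true ∧
    allY (E.wth T2) l38873 = true :=
  ⟨by decide +kernel, by decide +kernel, by decide +kernel, by decide +kernel, by decide +kernel, by decide +kernel, by decide +kernel, by decide +kernel⟩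

def t38874 : allY (E.wth T2) l38874 = true ∧
    allY (E.wth T2) l38875 = true ∧
    allY (E.wth T2) l38876 = true ∧
    allY (E.wth T2) l38877 = true ∧
    allY (E.wth T2) l38878 = true ∧
    allY (E.wth T2) l38879 = true ∧
    allY (E.wth T2) l38880 = true ∧
    allY (E.wth T2) l38881 = true :=
  ⟨by decide +kernel, by decide +kernel, by decide +kernel, by decide +kernel, by decide +kernel, by decide +kernel, by decide +kernel, by decide +kernel⟩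

def t38882 : allY (E.wth T2) l38882 = true ∧
    allY (E.wth T2) l38883 = true ∧
    allY (E.wth T2) l38884 = true ∧
    allY (E.wth T2) l38885 = true ∧
    allY (E.wth T2) l38886 = true ∧
    allY (E.wth T2) l38887 = true ∧
    allY (E.wth T2) l38888 = true ∧
    allY (E.wth T2) l38889 = true :=
  ⟨by decide +kernel, by decide +kernel, by decide +kernel, by decide +kernel, by decide +kernel, by decide +kernel, by decide +kernel, by decide +kernel⟩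

def t38890 : allY (E.wth T2) l38890 = true ∧
    allY (E.wth T2) l38891 = true ∧
    allY (E.wth T2) l38892 = true ∧
    allY (E.wth T2) l38893 = true ∧
    allY (E.wth T2) l38894 = true ∧
    allY (E.wth T2) l38895 = true ∧
    allY (E.wth T2) l38896 = true ∧
    allY (E.wth T2) l38897 = true :=
  ⟨by decide +kernel, by decide +kernel, by decide +kernel, by decide +kernel, by decide +kernel, by decide +kernel, by decide +kernel, by decide +kernel⟩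

def t38898 : allY (E.wth T2) l38898 = true ∧
    allY (E.wth T2) l38899 = true ∧
    allY (E.wth T2) l38900 = true ∧
    allY (E.wth T2) l38901 = true ∧
    allY (E.wth T2) l38902 = true ∧
    allY (E.wth T2) l38903 = true ∧
    allY (E.wth T2) l38904 = true ∧
    allY (E.wth T2) l38905 = true :=
  ⟨by decide +kernel, by decide +kernel, by decide +kernel, by decide +kernel, by decide +kernel, by decide +kernel, by decide +kernel, by decide +kernel⟩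

def t38906 : allY (E.wth T2) l38906 = true ∧
    allY (E.wth T2) l38907 = true ∧
    allY (E.wth T2) l38908 = true ∧
    allY (E.wth T2) l38909 = true ∧
    allY (E.wth T2) l38910 = true ∧
    allY (E.wth T2) l38911 = true ∧
    allY (E.wth T2) l38912 = true ∧
    allY (E.wth T2) l38913 = true :=
  ⟨by decide +kernel, by decide +kernel, by decide +kernel, by decide +kernel, by decide +kernel, by decide +kernel, by decide +kernel, by decide +kernel⟩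

def t38914 : allY (E.wth T2) l38914 = true ∧
    allY (E.wth T2) l38915 = true ∧
    allY (E.wth T2) l38916 = true ∧
    allY (E.wth T2) l38917 = true ∧
    allY (E.wth T2) l38918 = true ∧
    allY (E.wth T2) l38919 = true ∧
    allY (E.wth T2) l38920 = true ∧
    allY (E.wth T2) l38921 = true :=
  ⟨by decide +kernel, by decide +kernel, by decide +kernel, by decide +kernel, by decide +kernel, by decide +kernel, by decide +kernel, by decide +kernel⟩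

def t38922 : allY (E.wth T2) l38922 = true ∧
    allY (E.wth T2) l38923 = true ∧
    allY (E.wth T2) l38924 = true ∧
    allY (E.wth T2) l38925 = true ∧
    allY (E.wth T2) l38926 = true ∧
    allY (E.wth T2) l38927 = true ∧
    allY (E.wth T2) l38928 = true ∧
    allY (E.wth T2) l38929 = true :=
  ⟨by decide +kernel, by decide +kernel, by decide +kernel, by decide +kernel, by decide +kernel, by decide +kernel, by decide +kernel, by decide +kernel⟩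

def t38930 : allY (E.wth T2) l38930 = true ∧
    allY (E.wth T2) l38931 = true ∧
    allY (E.wth T2) l38932 = true ∧
    allY (E.wth T2) l38933 = true ∧
    allY (E.wth T2) l38934 = true ∧
    allY (E.wth T2) l38935 = true ∧
    allY (E.wth T2) l38936 = true ∧
    allY (E.wth T2) l38937 = true :=
  ⟨by decide +kernel, by decide +kernel, by decide +kernel, by decide +kernel, by decide +kernel, by decide +kernel, by decide +kernel, by decide +kernel⟩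

def t38938 : allY (E.wth T2) l38938 = true ∧
    allY (E.wth T2) l38939 = true ∧
    allY (E.wth T2) l38940 = true ∧
    allY (E.wth T2) l38941 = true ∧
    allY (E.wth T2) l38942 = true ∧
    allY (E.wth T2) l38943 = true ∧
    allY (E.wth T2) l38944 = true ∧
    allY (E.wth T2) l38945 = true :=
  ⟨by decide +kernel, by decide +kernel, by decide +kernel, by decide +kernel, by decide +kernel, by decide +kernel, by decide +kernel, by decide +kernel⟩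

def t38946 : allY (E.wth T2) l38946 = true ∧
    allY (E.wth T2) l38947 = true ∧
    allY (E.wth T2) l38948 = true ∧
    allY (E.wth T2) l38949 = true ∧
    allY (E.wth T2) l38950 = true ∧
    allY (E.wth T2) l38951 = true ∧
    allY (E.wth T2) l38952 = true ∧
    allY (E.wth T2) l38953 = true :=
  ⟨by decide +kernel, by decide +kernel, by decide +kernel, by decide +kernel, by decide +kernel, by decide +kernel, by decide +kernel, by decide +kernel⟩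

def t38954 : allY (E.wth T2) l38954 = true ∧
    allY (E.wth T2) l38955 = true ∧
    allY (E.wth T2) l38956 = true ∧
    allY (E.wth T2) l38957 = true ∧
    allY (E.wth T2) l38958 = true ∧
    allY (E.wth T2) l38959 = true ∧
    allY (E.wth T2) l38960 = true ∧
    allY (E.wth T2) l38961 = true :=
  ⟨by decide +kernel, by decide +kernel, by decide +kernel, by decide +kernel, by decide +kernel, by decide +kernel, by decide +kernel, by decide +kernel⟩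

def t38962 : allY (E.wth T2) l38962 = true ∧
    allY (E.wth T2) l38963 = true ∧
    allY (E.wth T2) l38964 = true ∧
    allY (E.wth T2) l38965 = true ∧
    allY (E.wth T2) l38966 = true ∧
    allY (E.wth T2) l38967 = true ∧
    allY (E.wth T2) l38968 = true ∧
    allY (E.wth T2) l38969 = true :=
  ⟨by decide +kernel, by decide +kernel, by decide +kernel, by decide +kernel, by decide +kernel, by decide +kernel, by decide +kernel, by decide +kernel⟩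

def t38970 : allY (E.wth T2) l38970 = true ∧
    allY (E.wth T2) l38971 = true ∧
    allY (E.wth T2) l38972 = true ∧
    allY (E.wth T2) l38973 = true ∧
    allY (E.wth T2) l38974 = true ∧
    allY (E.wth T2) l38975 = true ∧
    allY (E.wth T2) l38976 = true ∧
    allY (E.wth T2) l38977 = true :=
  ⟨by decide +kernel, by decide +kernel, by decide +kernel, by decide +kernel, by decide +kernel, by decide +kernel, by decide +kernel, by decide +kernel⟩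

def t38978 : allY (E.wth T2) l38978 = true ∧
    allY (E.wth T2) l38979 = true ∧
    allY (E.wth T2) l38980 = true ∧
    allY (E.wth T2) l38981 = true ∧
    allY (E.wth T2) l38982 = true ∧
    allY (E.wth T2) l38983 = true ∧
    allY (E.wth T2) l38984 = true ∧
    allY (E.wth T2) l38985 = true :=
  ⟨by decide +kernel, by decide +kernel, by decide +kernel, by decide +kernel, by decide +kernel, by decide +kernel, by decide +kernel, by decide +kernel⟩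

def t38986 : allY (E.wth T2) l38986 = true ∧
    allY (E.wth T2) l38987 = true ∧
    allY (E.wth T2) l38988 = true ∧
    allY (E.wth T2) l38989 = true ∧
    allY (E.wth T2) l38990 = true ∧
    allY (E.wth T2) l38991 = true ∧
    allY (E.wth T2) l38992 = true ∧
    allY (E.wth T2) l38993 = true :=
  ⟨by decide +kernel, by decide +kernel, by decide +kernel, by decide +kernel, by decide +kernel, by decide +kernel, by decide +kernel, by decide +kernel⟩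

def t38994 : allY (E.wth T2) l38994 = true ∧
    allY (E.wth T2) l38995 = true ∧
    allY (E.wth T2) l38996 = true ∧
    allY (E.wth T2) l38997 = true ∧
    allY (E.wth T2) l38998 = true ∧
    allY (E.wth T2) l38999 = true ∧
    allY (E.wth T2) l39000 = true ∧
    allY (E.wth T2) l39001 = true :=
  ⟨by decide +kernel, by decide +kernel, by decide +kernel, by decide +kernel, by decide +kernel, by decide +kernel, by decide +kernel, by decide +kernel⟩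

def t39002 : allY (E.wth T2) l39002 = true ∧
    allY (E.wth T2) l39003 = true ∧
    allY (E.wth T2) l39004 = true ∧
    allY (E.wth T2) l39005 = true ∧
    allY (E.wth T2) l39006 = true ∧
    allY (E.wth T2) l39007 = true ∧
    allY (E.wth T2) l39008 = true ∧
    allY (E.wth T2) l39009 = true :=
  ⟨by decide +kernel, by decide +kernel, by decide +kernel, by decide +kernel, by decide +kernel, by decide +kernel, by decide +kernel, by decide +kernel⟩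

def t39010 : allY (E.wth T2) l39010 = true ∧
    allY (E.wth T2) l39011 = true ∧
    allY (E.wth T2) l39012 = true ∧
    allY (E.wth T2) l39013 = true ∧
    allY (E.wth T2) l39014 = true ∧
    allY (E.wth T2) l39015 = true ∧
    allY (E.wth T2) l39016 = true ∧
    allY (E.wth T2) l39017 = true :=
  ⟨by decide +kernel, by decide +kernel, by decide +kernel, by decide +kernel, by decide +kernel, by decide +kernel, by decide +kernel, by decide +kernel⟩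

def t39018 : allY (E.wth T2) l39018 = true ∧
    allY (E.wth T2) l39019 = true ∧
    allY (E.wth T2) l39020 = true ∧
    allY (E.wth T2) l39021 = true ∧
    allY (E.wth T2) l39022 = true ∧
    allY (E.wth T2) l39023 = true ∧
    allY (E.wth T2) l39024 = true ∧
    allY (E.wth T2) l39025 = true :=
  ⟨by decide +kernel, by decide +kernel, by decide +kernel, by decide +kernel, by decide +kernel, by decide +kernel, by decide +kernel, by decide +kernel⟩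

def t39026 : allY (E.wth T2) l39026 = true ∧
    allY (E.wth T2) l39027 = true ∧
    allY (E.wth T2) l39028 = true ∧
    allY (E.wth T2) l39029 = true ∧
    allY (E.wth T2) l39030 = true ∧
    allY (E.wth T2) l39031 = true ∧
    allY (E.wth T2) l39032 = true ∧
    allY (E.wth T2) l39033 = true :=
  ⟨by decide +kernel, by decide +kernel, by decide +kernel, by decide +kernel, by decide +kernel, by decide +kernel, by decide +kernel, by decide +kernel⟩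

def t39034 : allY (E.wth T2) l39034 = true ∧
    allY (E.wth T2) l39035 = true ∧
    allY (E.wth T2) l39036 = true ∧
    allY (E.wth T2) l39037 = true ∧
    allY (E.wth T2) l39038 = true ∧
    allY (E.wth T2) l39039 = true ∧
    allY (E.wth T2) l39040 = true ∧
    allY (E.wth T2) l39041 = true :=
  ⟨by decide +kernel, by decide +kernel, by decide +kernel, by decide +kernel, by decide +kernel, by decide +kernel, by decide +kernel, by decide +kernel⟩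

def t39042 : allY (E.wth T2) l39042 = true ∧
    allY (E.wth T2) l39043 = true ∧
    allY (E.wth T2) l39044 = true ∧
    allY (E.wth T2) l39045 = true ∧
    allY (E.wth T2) l39046 = true ∧
    allY (E.wth T2) l39047 = true ∧
    allY (E.wth T2) l39048 = true ∧
    allY (E.wth T2) l39049 = true :=
  ⟨by decide +kernel, by decide +kernel, by decide +kernel, by decide +kernel, by decide +kernel, by decide +kernel, by decide +kernel, by decide +kernel⟩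

def t39050 : allY (E.wth T2) l39050 = true ∧
    allY (E.wth T2) l39051 = true ∧
    allY (E.wth T2) l39052 = true ∧
    allY (E.wth T2) l39053 = true ∧
    allY (E.wth T2) l39054 = true ∧
    allY (E.wth T2) l39055 = true ∧
    allY (E.wth T2) l39056 = true ∧
    allY (E.wth T2) l39057 = true :=
  ⟨by decide +kernel, by decide +kernel, by decide +kernel, by decide +kernel, by decide +kernel, by decide +kernel, by decide +kernel, by decide +kernel⟩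

def t39058 : allY (E.wth T2) l39058 = true ∧
    allY (E.wth T2) l39059 = true ∧
    allY (E.wth T2) l39060 = true ∧
    allY (E.wth T2) l39061 = true ∧
    allY (E.wth T2) l39062 = true ∧
    allY (E.wth T2) l39063 = true ∧
    allY (E.wth T2) l39064 = true ∧
    allY (E.wth T2) l39065 = true :=
  ⟨by decide +kernel, by decide +kernel, by decide +kernel, by decide +kernel, by decide +kernel, by decide +kernel, by decide +kernel, by decide +kernel⟩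

def t39066 : allY (E.wth T2) l39066 = true ∧
    allY (E.wth T2) l39067 = true ∧
    allY (E.wth T2) l39068 = true ∧
    allY (E.wth T2) l39069 = true ∧
    allY (E.wth T2) l39070 = true ∧
    allY (E.wth T2) l39071 = true ∧
    allY (E.wth T2) l39072 = true ∧
    allY (E.wth T2) l39073 = true :=
  ⟨by decide +kernel, by decide +kernel, by decide +kernel, by decide +kernel, by decide +kernel, by decide +kernel, by decide +kernel, by decide +kernel⟩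

def t39074 : allY (E.wth T2) l39074 = true ∧
    allY (E.wth T2) l39075 = true ∧
    allY (E.wth T2) l39076 = true ∧
    allY (E.wth T2) l39077 = true ∧
    allY (E.wth T2) l39078 = true ∧
    allY (E.wth T2) l39079 = true ∧
    allY (E.wth T2) l39080 = true ∧
    allY (E.wth T2) l39081 = true :=
  ⟨by decide +kernel, by decide +kernel, by decide +kernel, by decide +kernel, by decide +kernel, by decide +kernel, by decide +kernel, by decide +kernel⟩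

def t39082 : allY (E.wth T2) l39082 = true ∧
    allY (E.wth T2) l39083 = true ∧
    allY (E.wth T2) l39084 = true ∧
    allY (E.wth T2) l39085 = true ∧
    allY (E.wth T2) l39086 = true ∧
    allY (E.wth T2) l39087 = true ∧
    allY (E.wth T2) l39088 = true ∧
    allY (E.wth T2) l39089 = true :=
  ⟨by decide +kernel, by decide +kernel, by decide +kernel, by decide +kernel, by decide +kernel, by decide +kernel, by decide +kernel, by decide +kernel⟩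

def t39090 : allY (E.wth T2) l39090 = true ∧
    allY (E.wth T2) l39091 = true ∧
    allY (E.wth T2) l39092 = true ∧
    allY (E.wth T2) l39093 = true ∧
    allY (E.wth T2) l39094 = true ∧
    allY (E.wth T2) l39095 = true ∧
    allY (E.wth T2) l39096 = true ∧
    allY (E.wth T2) l39097 = true :=
  ⟨by decide +kernel, by decide +kernel, by decide +kernel, by decide +kernel, by decide +kernel, by decide +kernel, by decide +kernel, by decide +kernel⟩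

def t39098 : allY (E.wth T2) l39098 = true ∧
    allY (E.wth T2) l39099 = true ∧
    allY (E.wth T2) l39100 = true ∧
    allY (E.wth T2) l39101 = true ∧
    allY (E.wth T2) l39102 = true ∧
    allY (E.wth T2) l39103 = true ∧
    allY (E.wth T2) l39104 = true ∧
    allY (E.wth T2) l39105 = true :=
  ⟨by decide +kernel, by decide +kernel, by decide +kernel, by decide +kernel, by decide +kernel, by decide +kernel, by decide +kernel, by decide +kernel⟩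

def t39106 : allY (E.wth T2) l39106 = true ∧
    allY (E.wth T2) l39107 = true ∧
    allY (E.wth T2) l39108 = true ∧
    allY (E.wth T2) l39109 = true ∧
    allY (E.wth T2) l39110 = true ∧
    allY (E.wth T2) l39111 = true ∧
    allY (E.wth T2) l39112 = true ∧
    allY (E.wth T2) l39113 = true :=
  ⟨by decide +kernel, by decide +kernel, by decide +kernel, by decide +kernel, by decide +kernel, by decide +kernel, by decide +kernel, by decide +kernel⟩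

def t39114 : allY (E.wth T2) l39114 = true ∧
    allY (E.wth T2) l39115 = true ∧
    allY (E.wth T2) l39116 = true ∧
    allY (E.wth T2) l39117 = true ∧
    allY (E.wth T2) l39118 = true ∧
    allY (E.wth T2) l39119 = true ∧
    allY (E.wth T2) l39120 = true ∧
    allY (E.wth T2) l39121 = true :=
  ⟨by decide +kernel, by decide +kernel, by decide +kernel, by decide +kernel, by decide +kernel, by decide +kernel, by decide +kernel, by decide +kernel⟩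

def t39122 : allY (E.wth T2) l39122 = true ∧
    allY (E.wth T2) l39123 = true ∧
    allY (E.wth T2) l39124 = true ∧
    allY (E.wth T2) l39125 = true ∧
    allY (E.wth T2) l39126 = true ∧
    allY (E.wth T2) l39127 = true ∧
    allY (E.wth T2) l39128 = true ∧
    allY (E.wth T2) l39129 = true :=
  ⟨by decide +kernel, by decide +kernel, by decide +kernel, by decide +kernel, by decide +kernel, by decide +kernel, by decide +kernel, by decide +kernel⟩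

def t39130 : allY (E.wth T2) l39130 = true ∧
    allY (E.wth T2) l39131 = true ∧
    allY (E.wth T2) l39132 = true ∧
    allY (E.wth T2) l39133 = true ∧
    allY (E.wth T2) l39134 = true ∧
    allY (E.wth T2) l39135 = true ∧
    allY (E.wth T2) l39136 = true ∧
    allY (E.wth T2) l39137 = true :=
  ⟨by decide +kernel, by decide +kernel, by decide +kernel, by decide +kernel, by decide +kernel, by decide +kernel, by decide +kernel, by decide +kernel⟩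

def t39138 : allY (E.wth T2) l39138 = true ∧
    allY (E.wth T2) l39139 = true ∧
    allY (E.wth T2) l39140 = true ∧
    allY (E.wth T2) l39141 = true ∧
    allY (E.wth T2) l39142 = true ∧
    allY (E.wth T2) l39143 = true ∧
    allY (E.wth T2) l39144 = true ∧
    allY (E.wth T2) l39145 = true :=
  ⟨by decide +kernel, by decide +kernel, by decide +kernel, by decide +kernel, by decide +kernel, by decide +kernel, by decide +kernel, by decide +kernel⟩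

def t39146 : allY (E.wth T2) l39146 = true ∧
    allY (E.wth T2) l39147 = true ∧
    allY (E.wth T2) l39148 = true ∧
    allY (E.wth T2) l39149 = true ∧
    allY (E.wth T2) l39150 = true ∧
    allY (E.wth T2) l39151 = true ∧
    allY (E.wth T2) l39152 = true ∧
    allY (E.wth T2) l39153 = true :=
  ⟨by decide +kernel, by decide +kernel, by decide +kernel, by decide +kernel, by decide +kernel, by decide +kernel, by decide +kernel, by decide +kernel⟩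

def t39154 : allY (E.wth T2) l39154 = true ∧
    allY (E.wth T2) l39155 = true ∧
    allY (E.wth T2) l39156 = true ∧
    allY (E.wth T2) l39157 = true ∧
    allY (E.wth T2) l39158 = true ∧
    allY (E.wth T2) l39159 = true ∧
    allY (E.wth T2) l39160 = true ∧
    allY (E.wth T2) l39161 = true :=
  ⟨by decide +kernel, by decide +kernel, by decide +kernel, by decide +kernel, by decide +kernel, by decide +kernel, by decide +kernel, by decide +kernel⟩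

def t39162 : allY (E.wth T2) l39162 = true ∧
    allY (E.wth T2) l39163 = true ∧
    allY (E.wth T2) l39164 = true ∧
    allY (E.wth T2) l39165 = true ∧
    allY (E.wth T2) l39166 = true ∧
    allY (E.wth T2) l39167 = true ∧
    allY (E.wth T2) l39168 = true ∧
    allY (E.wth T2) l39169 = true :=
  ⟨by decide +kernel, by decide +kernel, by decide +kernel, by decide +kernel, by decide +kernel, by decide +kernel, by decide +kernel, by decide +kernel⟩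

def t39170 : allY (E.wth T2) l39170 = true ∧
    allY (E.wth T2) l39171 = true ∧
    allY (E.wth T2) l39172 = true ∧
    allY (E.wth T2) l39173 = true ∧
    allY (E.wth T2) l39174 = true ∧
    allY (E.wth T2) l39175 = true ∧
    allY (E.wth T2) l39176 = true ∧
    allY (E.wth T2) l39177 = true :=
  ⟨by decide +kernel, by decide +kernel, by decide +kernel, by decide +kernel, by decide +kernel, by decide +kernel, by decide +kernel, by decide +kernel⟩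

def t39178 : allY (E.wth T2) l39178 = true ∧
    allY (E.wth T2) l39179 = true ∧
    allY (E.wth T2) l39180 = true ∧
    allY (E.wth T2) l39181 = true ∧
    allY (E.wth T2) l39182 = true ∧
    allY (E.wth T2) l39183 = true ∧
    allY (E.wth T2) l39184 = true ∧
    allY (E.wth T2) l39185 = true :=
  ⟨by decide +kernel, by decide +kernel, by decide +kernel, by decide +kernel, by decide +kernel, by decide +kernel, by decide +kernel, by decide +kernel⟩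

def t39186 : allY (E.wth T2) l39186 = true ∧
    allY (E.wth T2) l39187 = true ∧
    allY (E.wth T2) l39188 = true ∧
    allY (E.wth T2) l39189 = true ∧
    allY (E.wth T2) l39190 = true ∧
    allY (E.wth T2) l39191 = true ∧
    allY (E.wth T2) l39192 = true ∧
    allY (E.wth T2) l39193 = true :=
  ⟨by decide +kernel, by decide +kernel, by decide +kernel, by decide +kernel, by decide +kernel, by decide +kernel, by decide +kernel, by decide +kernel⟩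

def t39194 : allY (E.wth T2) l39194 = true ∧
    allY (E.wth T2) l39195 = true ∧
    allY (E.wth T2) l39196 = true ∧
    allY (E.wth T2) l39197 = true ∧
    allY (E.wth T2) l39198 = true ∧
    allY (E.wth T2) l39199 = true ∧
    allY (E.wth T2) l39200 = true ∧
    allY (E.wth T2) l39201 = true :=
  ⟨by decide +kernel, by decide +kernel, by decide +kernel, by decide +kernel, by decide +kernel, by decide +kernel, by decide +kernel, by decide +kernel⟩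

def t39202 : allY (E.wth T2) l39202 = true ∧
    allY (E.wth T2) l39203 = true ∧
    allY (E.wth T2) l39204 = true ∧
    allY (E.wth T2) l39205 = true ∧
    allY (E.wth T2) l39206 = true ∧
    allY (E.wth T2) l39207 = true ∧
    allY (E.wth T2) l39208 = true ∧
    allY (E.wth T2) l39209 = true :=
  ⟨by decide +kernel, by decide +kernel, by decide +kernel, by decide +kernel, by decide +kernel, by decide +kernel, by decide +kernel, by decide +kernel⟩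

def t39210 : allY (E.wth T2) l39210 = true ∧
    allY (E.wth T2) l39211 = true ∧
    allY (E.wth T2) l39212 = true ∧
    allY (E.wth T2) l39213 = true ∧
    allY (E.wth T2) l39214 = true ∧
    allY (E.wth T2) l39215 = true ∧
    allY (E.wth T2) l39216 = true ∧
    allY (E.wth T2) l39217 = true :=
  ⟨by decide +kernel, by decide +kernel, by decide +kernel, by decide +kernel, by decide +kernel, by decide +kernel, by decide +kernel, by decide +kernel⟩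

def t39218 : allY (E.wth T2) l39218 = true ∧
    allY (E.wth T2) l39219 = true ∧
    allY (E.wth T2) l39220 = true ∧
    allY (E.wth T2) l39221 = true ∧
    allY (E.wth T2) l39222 = true ∧
    allY (E.wth T2) l39223 = true ∧
    allY (E.wth T2) l39224 = true ∧
    allY (E.wth T2) l39225 = true :=
  ⟨by decide +kernel, by decide +kernel, by decide +kernel, by decide +kernel, by decide +kernel, by decide +kernel, by decide +kernel, by decide +kernel⟩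

def t39226 : allY (E.wth T2) l39226 = true ∧
    allY (E.wth T2) l39227 = true ∧
    allY (E.wth T2) l39228 = true ∧
    allY (E.wth T2) l39229 = true ∧
    allY (E.wth T2) l39230 = true ∧
    allY (E.wth T2) l39231 = true ∧
    allY (E.wth T2) l39232 = true ∧
    allY (E.wth T2) l39233 = true :=
  ⟨by decide +kernel, by decide +kernel, by decide +kernel, by decide +kernel, by decide +kernel, by decide +kernel, by decide +kernel, by decide +kernel⟩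

def t39234 : allY (E.wth T2) l39234 = true ∧
    allY (E.wth T2) l39235 = true ∧
    allY (E.wth T2) l39236 = true ∧
    allY (E.wth T2) l39237 = true ∧
    allY (E.wth T2) l39238 = true ∧
    allY (E.wth T2) l39239 = true ∧
    allY (E.wth T2) l39240 = true ∧
    allY (E.wth T2) l39241 = true :=
  ⟨by decide +kernel, by decide +kernel, by decide +kernel, by decide +kernel, by decide +kernel, by decide +kernel, by decide +kernel, by decide +kernel⟩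

def t39242 : allY (E.wth T2) l39242 = true ∧
    allY (E.wth T2) l39243 = true ∧
    allY (E.wth T2) l39244 = true ∧
    allY (E.wth T2) l39245 = true ∧
    allY (E.wth T2) l39246 = true :=
  ⟨by decide +kernel, by decide +kernel, by decide +kernel, by decide +kernel, by decide +kernel⟩

theorem a71 {p : Rf → Prop} (H : ∀ l, allY (E.wth T2) l = true → (lkp l).All p) :
    b71.All p := ⟨⟨⟨⟨⟨⟨⟨⟨H _ t38778.1, ⟨H _ t38778.2.1, H _ t38778.2.2.1⟩⟩, ⟨⟨H _ t38778.2.2.2.1, H _ t38778.2.2.2.2.1⟩, ⟨H _ t38778.2.2.2.2.2.1, H _ t38778.2.2.2.2.2.2.1⟩⟩⟩, ⟨⟨H _ t38778.2.2.2.2.2.2.2, ⟨H _ t38786.1, H _ t38786.2.1⟩⟩, ⟨⟨H _ t38786.2.2.1, H _ t38786.2.2.2.1⟩, ⟨H _ t38786.2.2.2.2.1, H _ t38786.2.2.2.2.2.1⟩⟩⟩⟩, ⟨⟨⟨H _ t38786.2.2.2.2.2.2.1, ⟨H _ t38786.2.2.2.2.2.2.2, H _ t38794.1⟩⟩, ⟨⟨H _ t38794.2.1, H _ t38794.2.2.1⟩, ⟨H _ t38794.2.2.2.1, H _ t38794.2.2.2.2.1⟩⟩⟩, ⟨⟨⟨H _ t38794.2.2.2.2.2.1, H _ t38794.2.2.2.2.2.2.1⟩,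 ⟨H _ t38794.2.2.2.2.2.2.2, H _ t38802.1⟩⟩, ⟨⟨H _ t38802.2.1, H _ t38802.2.2.1⟩, ⟨H _ t38802.2.2.2.1, H _ t38802.2.2.2.2.1⟩⟩⟩⟩⟩, ⟨⟨⟨⟨H _ t38802.2.2.2.2.2.1, ⟨H _ t38802.2.2.2.2.2.2.1, H _ t38802.2.2.2.2.2.2.2⟩⟩, ⟨⟨H _ t38810.1, H _ t38810.2.1⟩, ⟨H _ t38810.2.2.1, H _ t38810.2.2.2.1⟩⟩⟩, ⟨⟨H _ t38810.2.2.2.2.1, ⟨H _ t38810.2.2.2.2.2.1, H _ t38810.2.2.2.2.2.2.1⟩⟩, ⟨⟨H _ t38810.2.2.2.2.2.2.2, H _ t38818.1⟩, ⟨H _ t38818.2.1, H _ t38818.2.2.1⟩⟩⟩⟩, ⟨⟨⟨H _ t38818.2.2.2.1, ⟨H _ t38818.2.2.2.2.1, H _ t38818.2.2.2.2.2.1⟩⟩, ⟨⟨H _ t38818.2.2.2.2.2.2.1, H _ t38818.2.2.2.2.2.2.2⟩, ⟨H _ t38826.1, H _ t38826.2.1⟩⟩⟩, ⟨⟨⟨H _ t38826.2.2.1, H _ t38826.2.2.2.1⟩, ⟨H _ t38826.2.2.2.2.1, H _ t38826.2.2.2.2.2.1⟩⟩, ⟨⟨H _ t38826.2.2.2.2.2.2.1, H _ t38826.2.2.2.2.2.2.2⟩, ⟨H _ t38834.1, H _ t38834.2.1⟩⟩⟩⟩⟩⟩, ⟨⟨⟨⟨⟨H _ t38834.2.2.1, ⟨H _ t38834.2.2.2.1, H _ t38834.2.2.2.2.1⟩⟩, ⟨⟨H _ t38834.2.2.2.2.2.1, H _ t38834.2.2.2.2.2.2.1⟩,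 ⟨H _ t38834.2.2.2.2.2.2.2, H _ t38842.1⟩⟩⟩, ⟨⟨H _ t38842.2.1, ⟨H _ t38842.2.2.1, H _ t38842.2.2.2.1⟩⟩, ⟨⟨H _ t38842.2.2.2.2.1, H _ t38842.2.2.2.2.2.1⟩, ⟨H _ t38842.2.2.2.2.2.2.1, H _ t38842.2.2.2.2.2.2.2⟩⟩⟩⟩, ⟨⟨⟨H _ t38850.1, ⟨H _ t38850.2.1, H _ t38850.2.2.1⟩⟩, ⟨⟨H _ t38850.2.2.2.1, H _ t38850.2.2.2.2.1⟩, ⟨H _ t38850.2.2.2.2.2.1, H _ t38850.2.2.2.2.2.2.1⟩⟩⟩, ⟨⟨⟨H _ t38850.2.2.2.2.2.2.2, H _ t38858.1⟩, ⟨H _ t38858.2.1, H _ t38858.2.2.1⟩⟩, ⟨⟨H _ t38858.2.2.2.1, H _ t38858.2.2.2.2.1⟩, ⟨H _ t38858.2.2.2.2.2.1, H _ t38858.2.2.2.2.2.2.1⟩⟩⟩⟩⟩, ⟨⟨⟨⟨H _ t38858.2.2.2.2.2.2.2, ⟨H _ t38866.1, H _ t38866.2.1⟩⟩, ⟨⟨H _ t38866.2.2.1, H _ t38866.2.2.2.1⟩, ⟨H _ t38866.2.2.2.2.1, H _ t38866.2.2.2.2.2.1⟩⟩⟩, ⟨⟨⟨H _ t38866.2.2.2.2.2.2.1, H _ t38866.2.2.2.2.2.2.2⟩, ⟨H _ t38874.1, H _ t38874.2.1⟩⟩, ⟨⟨H _ t38874.2.2.1, H _ t38874.2.2.2.1⟩, ⟨H _ t38874.2.2.2.2.1, H _ t38874.2.2.2.2.2.1⟩⟩⟩⟩, ⟨⟨⟨H _ t38874.2.2.2.2.2.2.1,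 ⟨H _ t38874.2.2.2.2.2.2.2, H _ t38882.1⟩⟩, ⟨⟨H _ t38882.2.1, H _ t38882.2.2.1⟩, ⟨H _ t38882.2.2.2.1, H _ t38882.2.2.2.2.1⟩⟩⟩, ⟨⟨⟨H _ t38882.2.2.2.2.2.1, H _ t38882.2.2.2.2.2.2.1⟩, ⟨H _ t38882.2.2.2.2.2.2.2, H _ t38890.1⟩⟩, ⟨⟨H _ t38890.2.1, H _ t38890.2.2.1⟩, ⟨H _ t38890.2.2.2.1, H _ t38890.2.2.2.2.1⟩⟩⟩⟩⟩⟩⟩, ⟨⟨⟨⟨⟨⟨H _ t38890.2.2.2.2.2.1, ⟨H _ t38890.2.2.2.2.2.2.1, H _ t38890.2.2.2.2.2.2.2⟩⟩, ⟨⟨H _ t38898.1, H _ t38898.2.1⟩, ⟨H _ t38898.2.2.1, H _ t38898.2.2.2.1⟩⟩⟩, ⟨⟨H _ t38898.2.2.2.2.1, ⟨H _ t38898.2.2.2.2.2.1, H _ t38898.2.2.2.2.2.2.1⟩⟩, ⟨⟨H _ t38898.2.2.2.2.2.2.2, H _ t38906.1⟩, ⟨H _ t38906.2.1, H _ t38906.2.2.1⟩⟩⟩⟩, ⟨⟨⟨H _ t38906.2.2.2.1, ⟨H _ t38906.2.2.2.2.1, H _ t38906.2.2.2.2.2.1⟩⟩, ⟨⟨H _ t38906.2.2.2.2.2.2.1, H _ t38906.2.2.2.2.2.2.2⟩, ⟨H _ t38914.1, H _ t38914.2.1⟩⟩⟩, ⟨⟨⟨H _ t38914.2.2.1, H _ t38914.2.2.2.1⟩, ⟨H _ t38914.2.2.2.2.1, H _ t38914.2.2.2.2.2.1⟩⟩, ⟨⟨H _ t38914.2.2.2.2.2.2.1,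 H _ t38914.2.2.2.2.2.2.2⟩, ⟨H _ t38922.1, H _ t38922.2.1⟩⟩⟩⟩⟩, ⟨⟨⟨⟨H _ t38922.2.2.1, ⟨H _ t38922.2.2.2.1, H _ t38922.2.2.2.2.1⟩⟩, ⟨⟨H _ t38922.2.2.2.2.2.1, H _ t38922.2.2.2.2.2.2.1⟩, ⟨H _ t38922.2.2.2.2.2.2.2, H _ t38930.1⟩⟩⟩, ⟨⟨H _ t38930.2.1, ⟨H _ t38930.2.2.1, H _ t38930.2.2.2.1⟩⟩, ⟨⟨H _ t38930.2.2.2.2.1, H _ t38930.2.2.2.2.2.1⟩, ⟨H _ t38930.2.2.2.2.2.2.1, H _ t38930.2.2.2.2.2.2.2⟩⟩⟩⟩, ⟨⟨⟨H _ t38938.1, ⟨H _ t38938.2.1, H _ t38938.2.2.1⟩⟩, ⟨⟨H _ t38938.2.2.2.1, H _ t38938.2.2.2.2.1⟩, ⟨H _ t38938.2.2.2.2.2.1, H _ t38938.2.2.2.2.2.2.1⟩⟩⟩, ⟨⟨⟨H _ t38938.2.2.2.2.2.2.2, H _ t38946.1⟩, ⟨H _ t38946.2.1, H _ t38946.2.2.1⟩⟩, ⟨⟨H _ t38946.2.2.2.1, H _ t38946.2.2.2.2.1⟩, ⟨H _ t38946.2.2.2.2.2.1, H _ t38946.2.2.2.2.2.2.1⟩⟩⟩⟩⟩⟩, ⟨⟨⟨⟨⟨H _ t38946.2.2.2.2.2.2.2, ⟨H _ t38954.1, H _ t38954.2.1⟩⟩, ⟨⟨H _ t38954.2.2.1, H _ t38954.2.2.2.1⟩, ⟨H _ t38954.2.2.2.2.1, H _ t38954.2.2.2.2.2.1⟩⟩⟩, ⟨⟨H _ t38954.2.2.2.2.2.2.1,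 ⟨H _ t38954.2.2.2.2.2.2.2, H _ t38962.1⟩⟩, ⟨⟨H _ t38962.2.1, H _ t38962.2.2.1⟩, ⟨H _ t38962.2.2.2.1, H _ t38962.2.2.2.2.1⟩⟩⟩⟩, ⟨⟨⟨H _ t38962.2.2.2.2.2.1, ⟨H _ t38962.2.2.2.2.2.2.1, H _ t38962.2.2.2.2.2.2.2⟩⟩, ⟨⟨H _ t38970.1, H _ t38970.2.1⟩, ⟨H _ t38970.2.2.1, H _ t38970.2.2.2.1⟩⟩⟩, ⟨⟨⟨H _ t38970.2.2.2.2.1, H _ t38970.2.2.2.2.2.1⟩, ⟨H _ t38970.2.2.2.2.2.2.1, H _ t38970.2.2.2.2.2.2.2⟩⟩, ⟨⟨H _ t38978.1, H _ t38978.2.1⟩, ⟨H _ t38978.2.2.1, H _ t38978.2.2.2.1⟩⟩⟩⟩⟩, ⟨⟨⟨⟨H _ t38978.2.2.2.2.1, ⟨H _ t38978.2.2.2.2.2.1, H _ t38978.2.2.2.2.2.2.1⟩⟩, ⟨⟨H _ t38978.2.2.2.2.2.2.2, H _ t38986.1⟩, ⟨H _ t38986.2.1, H _ t38986.2.2.1⟩⟩⟩, ⟨⟨⟨H _ t38986.2.2.2.1, H _ t38986.2.2.2.2.1⟩, ⟨H _ t38986.2.2.2.2.2.1, H _ t38986.2.2.2.2.2.2.1⟩⟩, ⟨⟨H _ t38986.2.2.2.2.2.2.2, H _ t38994.1⟩, ⟨H _ t38994.2.1, H _ t38994.2.2.1⟩⟩⟩⟩, ⟨⟨⟨H _ t38994.2.2.2.1, ⟨H _ t38994.2.2.2.2.1, H _ t38994.2.2.2.2.2.1⟩⟩, ⟨⟨H _ t38994.2.2.2.2.2.2.1,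 H _ t38994.2.2.2.2.2.2.2⟩, ⟨H _ t39002.1, H _ t39002.2.1⟩⟩⟩, ⟨⟨⟨H _ t39002.2.2.1, H _ t39002.2.2.2.1⟩, ⟨H _ t39002.2.2.2.2.1, H _ t39002.2.2.2.2.2.1⟩⟩, ⟨⟨H _ t39002.2.2.2.2.2.2.1, H _ t39002.2.2.2.2.2.2.2⟩, ⟨H _ t39010.1, H _ t39010.2.1⟩⟩⟩⟩⟩⟩⟩⟩, ⟨⟨⟨⟨⟨⟨⟨H _ t39010.2.2.1, ⟨H _ t39010.2.2.2.1, H _ t39010.2.2.2.2.1⟩⟩, ⟨⟨H _ t39010.2.2.2.2.2.1, H _ t39010.2.2.2.2.2.2.1⟩, ⟨H _ t39010.2.2.2.2.2.2.2, H _ t39018.1⟩⟩⟩, ⟨⟨H _ t39018.2.1, ⟨H _ t39018.2.2.1, H _ t39018.2.2.2.1⟩⟩, ⟨⟨H _ t39018.2.2.2.2.1, H _ t39018.2.2.2.2.2.1⟩, ⟨H _ t39018.2.2.2.2.2.2.1, H _ t39018.2.2.2.2.2.2.2⟩⟩⟩⟩, ⟨⟨⟨H _ t39026.1, ⟨H _ t39026.2.1, H _ t39026.2.2.1⟩⟩, ⟨⟨H _ t39026.2.2.2.1, H _ t39026.2.2.2.2.1⟩, ⟨H _ t39026.2.2.2.2.2.1, H _ t39026.2.2.2.2.2.2.1⟩⟩⟩, ⟨⟨⟨H _ t39026.2.2.2.2.2.2.2, H _ t39034.1⟩, ⟨H _ t39034.2.1, H _ t39034.2.2.1⟩⟩, ⟨⟨H _ t39034.2.2.2.1, H _ t39034.2.2.2.2.1⟩, ⟨H _ t39034.2.2.2.2.2.1, H _ t39034.2.2.2.2.2.2.1⟩⟩⟩⟩⟩,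 ⟨⟨⟨⟨H _ t39034.2.2.2.2.2.2.2, ⟨H _ t39042.1, H _ t39042.2.1⟩⟩, ⟨⟨H _ t39042.2.2.1, H _ t39042.2.2.2.1⟩, ⟨H _ t39042.2.2.2.2.1, H _ t39042.2.2.2.2.2.1⟩⟩⟩, ⟨⟨H _ t39042.2.2.2.2.2.2.1, ⟨H _ t39042.2.2.2.2.2.2.2, H _ t39050.1⟩⟩, ⟨⟨H _ t39050.2.1, H _ t39050.2.2.1⟩, ⟨H _ t39050.2.2.2.1, H _ t39050.2.2.2.2.1⟩⟩⟩⟩, ⟨⟨⟨H _ t39050.2.2.2.2.2.1, ⟨H _ t39050.2.2.2.2.2.2.1, H _ t39050.2.2.2.2.2.2.2⟩⟩, ⟨⟨H _ t39058.1, H _ t39058.2.1⟩, ⟨H _ t39058.2.2.1, H _ t39058.2.2.2.1⟩⟩⟩, ⟨⟨⟨H _ t39058.2.2.2.2.1, H _ t39058.2.2.2.2.2.1⟩, ⟨H _ t39058.2.2.2.2.2.2.1, H _ t39058.2.2.2.2.2.2.2⟩⟩, ⟨⟨H _ t39066.1, H _ t39066.2.1⟩, ⟨H _ t39066.2.2.1, H _ t39066.2.2.2.1⟩⟩⟩⟩⟩⟩, ⟨⟨⟨⟨⟨H _ t39066.2.2.2.2.1, ⟨H _ t39066.2.2.2.2.2.1, H _ t39066.2.2.2.2.2.2.1⟩⟩, ⟨⟨H _ t39066.2.2.2.2.2.2.2, H _ t39074.1⟩, ⟨H _ t39074.2.1, H _ t39074.2.2.1⟩⟩⟩, ⟨⟨H _ t39074.2.2.2.1, ⟨H _ t39074.2.2.2.2.1, H _ t39074.2.2.2.2.2.1⟩⟩, ⟨⟨H _ t39074.2.2.2.2.2.2.1,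 H _ t39074.2.2.2.2.2.2.2⟩, ⟨H _ t39082.1, H _ t39082.2.1⟩⟩⟩⟩, ⟨⟨⟨H _ t39082.2.2.1, ⟨H _ t39082.2.2.2.1, H _ t39082.2.2.2.2.1⟩⟩, ⟨⟨H _ t39082.2.2.2.2.2.1, H _ t39082.2.2.2.2.2.2.1⟩, ⟨H _ t39082.2.2.2.2.2.2.2, H _ t39090.1⟩⟩⟩, ⟨⟨⟨H _ t39090.2.1, H _ t39090.2.2.1⟩, ⟨H _ t39090.2.2.2.1, H _ t39090.2.2.2.2.1⟩⟩, ⟨⟨H _ t39090.2.2.2.2.2.1, H _ t39090.2.2.2.2.2.2.1⟩, ⟨H _ t39090.2.2.2.2.2.2.2, H _ t39098.1⟩⟩⟩⟩⟩, ⟨⟨⟨⟨H _ t39098.2.1, ⟨H _ t39098.2.2.1, H _ t39098.2.2.2.1⟩⟩, ⟨⟨H _ t39098.2.2.2.2.1, H _ t39098.2.2.2.2.2.1⟩, ⟨H _ t39098.2.2.2.2.2.2.1, H _ t39098.2.2.2.2.2.2.2⟩⟩⟩, ⟨⟨⟨H _ t39106.1, H _ t39106.2.1⟩, ⟨H _ t39106.2.2.1, H _ t39106.2.2.2.1⟩⟩, ⟨⟨H _ t39106.2.2.2.2.1, H _ t39106.2.2.2.2.2.1⟩, ⟨H _ t39106.2.2.2.2.2.2.1, H _ t39106.2.2.2.2.2.2.2⟩⟩⟩⟩, ⟨⟨⟨H _ t39114.1, ⟨H _ t39114.2.1, H _ t39114.2.2.1⟩⟩, ⟨⟨H _ t39114.2.2.2.1, H _ t39114.2.2.2.2.1⟩, ⟨H _ t39114.2.2.2.2.2.1, H _ t39114.2.2.2.2.2.2.1⟩⟩⟩,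 ⟨⟨⟨H _ t39114.2.2.2.2.2.2.2, H _ t39122.1⟩, ⟨H _ t39122.2.1, H _ t39122.2.2.1⟩⟩, ⟨⟨H _ t39122.2.2.2.1, H _ t39122.2.2.2.2.1⟩, ⟨H _ t39122.2.2.2.2.2.1, H _ t39122.2.2.2.2.2.2.1⟩⟩⟩⟩⟩⟩⟩, ⟨⟨⟨⟨⟨⟨H _ t39122.2.2.2.2.2.2.2, ⟨H _ t39130.1, H _ t39130.2.1⟩⟩, ⟨⟨H _ t39130.2.2.1, H _ t39130.2.2.2.1⟩, ⟨H _ t39130.2.2.2.2.1, H _ t39130.2.2.2.2.2.1⟩⟩⟩, ⟨⟨H _ t39130.2.2.2.2.2.2.1, ⟨H _ t39130.2.2.2.2.2.2.2, H _ t39138.1⟩⟩, ⟨⟨H _ t39138.2.1, H _ t39138.2.2.1⟩, ⟨H _ t39138.2.2.2.1, H _ t39138.2.2.2.2.1⟩⟩⟩⟩, ⟨⟨⟨H _ t39138.2.2.2.2.2.1, ⟨H _ t39138.2.2.2.2.2.2.1, H _ t39138.2.2.2.2.2.2.2⟩⟩, ⟨⟨H _ t39146.1, H _ t39146.2.1⟩, ⟨H _ t39146.2.2.1, H _ t39146.2.2.2.1⟩⟩⟩, ⟨⟨⟨H _ t39146.2.2.2.2.1, H _ t39146.2.2.2.2.2.1⟩, ⟨H _ t39146.2.2.2.2.2.2.1, H _ t39146.2.2.2.2.2.2.2⟩⟩, ⟨⟨H _ t39154.1, H _ t39154.2.1⟩, ⟨H _ t39154.2.2.1, H _ t39154.2.2.2.1⟩⟩⟩⟩⟩, ⟨⟨⟨⟨H _ t39154.2.2.2.2.1, ⟨H _ t39154.2.2.2.2.2.1, H _ t39154.2.2.2.2.2.2.1⟩⟩,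 ⟨⟨H _ t39154.2.2.2.2.2.2.2, H _ t39162.1⟩, ⟨H _ t39162.2.1, H _ t39162.2.2.1⟩⟩⟩, ⟨⟨⟨H _ t39162.2.2.2.1, H _ t39162.2.2.2.2.1⟩, ⟨H _ t39162.2.2.2.2.2.1, H _ t39162.2.2.2.2.2.2.1⟩⟩, ⟨⟨H _ t39162.2.2.2.2.2.2.2, H _ t39170.1⟩, ⟨H _ t39170.2.1, H _ t39170.2.2.1⟩⟩⟩⟩, ⟨⟨⟨H _ t39170.2.2.2.1, ⟨H _ t39170.2.2.2.2.1, H _ t39170.2.2.2.2.2.1⟩⟩, ⟨⟨H _ t39170.2.2.2.2.2.2.1, H _ t39170.2.2.2.2.2.2.2⟩, ⟨H _ t39178.1, H _ t39178.2.1⟩⟩⟩, ⟨⟨⟨H _ t39178.2.2.1, H _ t39178.2.2.2.1⟩, ⟨H _ t39178.2.2.2.2.1, H _ t39178.2.2.2.2.2.1⟩⟩, ⟨⟨H _ t39178.2.2.2.2.2.2.1, H _ t39178.2.2.2.2.2.2.2⟩, ⟨H _ t39186.1, H _ t39186.2.1⟩⟩⟩⟩⟩⟩, ⟨⟨⟨⟨⟨H _ t39186.2.2.1, ⟨H _ t39186.2.2.2.1, H _ t39186.2.2.2.2.1⟩⟩, ⟨⟨H _ t39186.2.2.2.2.2.1, H _ t39186.2.2.2.2.2.2.1⟩, ⟨H _ t39186.2.2.2.2.2.2.2, H _ t39194.1⟩⟩⟩, ⟨⟨H _ t39194.2.1, ⟨H _ t39194.2.2.1, H _ t39194.2.2.2.1⟩⟩, ⟨⟨H _ t39194.2.2.2.2.1, H _ t39194.2.2.2.2.2.1⟩, ⟨H _ t39194.2.2.2.2.2.2.1,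 H _ t39194.2.2.2.2.2.2.2⟩⟩⟩⟩, ⟨⟨⟨H _ t39202.1, ⟨H _ t39202.2.1, H _ t39202.2.2.1⟩⟩, ⟨⟨H _ t39202.2.2.2.1, H _ t39202.2.2.2.2.1⟩, ⟨H _ t39202.2.2.2.2.2.1, H _ t39202.2.2.2.2.2.2.1⟩⟩⟩, ⟨⟨⟨H _ t39202.2.2.2.2.2.2.2, H _ t39210.1⟩, ⟨H _ t39210.2.1, H _ t39210.2.2.1⟩⟩, ⟨⟨H _ t39210.2.2.2.1, H _ t39210.2.2.2.2.1⟩, ⟨H _ t39210.2.2.2.2.2.1, H _ t39210.2.2.2.2.2.2.1⟩⟩⟩⟩⟩, ⟨⟨⟨⟨H _ t39210.2.2.2.2.2.2.2, ⟨H _ t39218.1, H _ t39218.2.1⟩⟩, ⟨⟨H _ t39218.2.2.1, H _ t39218.2.2.2.1⟩, ⟨H _ t39218.2.2.2.2.1, H _ t39218.2.2.2.2.2.1⟩⟩⟩, ⟨⟨⟨H _ t39218.2.2.2.2.2.2.1, H _ t39218.2.2.2.2.2.2.2⟩, ⟨H _ t39226.1, H _ t39226.2.1⟩⟩, ⟨⟨H _ t39226.2.2.1, H _ t39226.2.2.2.1⟩, ⟨H _ t39226.2.2.2.2.1, H _ t39226.2.2.2.2.2.1⟩⟩⟩⟩, ⟨⟨⟨H _ t39226.2.2.2.2.2.2.1, ⟨H _ t39226.2.2.2.2.2.2.2, H _ t39234.1⟩⟩, ⟨⟨H _ t39234.2.1, H _ t39234.2.2.1⟩, ⟨H _ t39234.2.2.2.1, H _ t39234.2.2.2.2.1⟩⟩⟩, ⟨⟨⟨H _ t39234.2.2.2.2.2.1, H _ t39234.2.2.2.2.2.2.1⟩,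 ⟨H _ t39234.2.2.2.2.2.2.2, H _ t39242.1⟩⟩, ⟨⟨H _ t39242.2.1, H _ t39242.2.2.1⟩, ⟨H _ t39242.2.2.2.1, H _ t39242.2.2.2.2⟩⟩⟩⟩⟩⟩⟩⟩⟩

end Pool.Agent.MP_c853c5_nt.X.C4950
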