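import Pool.Agent.MP_c853c5_nt.X.C4950.Env
import Pool.Agent.MP_c853c5_nt.X.C4950.Tab

set_option autoImplicit false
set_option maxRecDepth 8192
set_option linter.all false

namespace Pool.Agent.MP_c853c5_nt.X.C4950

open Pool.Agent.MP_c853c5_nt.X

def t39247 : allY (E.wth T2) l39247 = true ∧
    allY (E.wth T2) l39248 = true ∧
    allY (E.wth T2) l39249 = true ∧
    allY (E.wth T2) l39250 = true ∧
    allY (E.wth T2) l39251 = true ∧
    allY (E.wth T2) l39252 = true ∧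
    allY (E.wth T2) l39253 = true ∧
    allY (E.wth T2) l39254 = true :=
  ⟨by decide +kernel, by decide +kernel, by decide +kernel, by decide +kernel, by decide +kernel, by decide +kernel, by decide +kernel, by decide +kernel⟩

def t39255 : allY (E.wth T2) l39255 = true ∧
    allY (E.wth T2) l39256 = true ∧
    allY (E.wth T2) l39257 = true ∧
    allY (E.wth T2) l39258 = true ∧
    allY (E.wth T2) l39259 = true ∧
    allY (E.wth T2) l39260 = true ∧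
    allY (E.wth T2) l39261 = true ∧
    allY (E.wth T2) l39262 = true :=
  ⟨by decide +kernel, by decide +kernel, by decide +kernel, by decide +kernel, by decide +kernel, by decide +kernel, by decide +kernel, by decide +kernel⟩

def t39263 : allY (E.wth T2) l39263 = true ∧
    allY (E.wth T2) l39264 = true ∧
    allY (E.wth T2) l39265 = true ∧
    allY (E.wth T2) l39266 = true ∧
    allY (E.wth T2) l39267 = true ∧
    allY (E.wth T2) l39268 = true ∧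
    allY (E.wth T2) l39269 = true ∧
    allY (E.wth T2) l39270 = true :=
  ⟨by decide +kernel, by decide +kernel, by decide +kernel, by decide +kernel, by decide +kernel, by decide +kernel, by decide +kernel, by decide +kernel⟩

def t39271 : allY (E.wth T2) l39271 = true ∧
    allY (E.wth T2) l39272 = true ∧
    allY (E.wth T2) l39273 = true ∧
    allY (E.wth T2) l39274 = true ∧
    allY (E.wth T2) l39275 = true ∧
    allY (E.wth T2) l39276 = true ∧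
    allY (E.wth T2) l39277 = true ∧
    allY (E.wth T2) l39278 = true :=
  ⟨by decide +kernel, by decide +kernel, by decide +kernel, by decide +kernel, by decide +kernel, by decide +kernel, by decide +kernel, by decide +kernel⟩

def t39279 : allY (E.wth T2) l39279 = true ∧
    allY (E.wth T2) l39280 = true ∧
    allY (E.wth T2) l39281 = true ∧
    allY (E.wth T2) l39282 = true ∧
    allY (E.wth T2) l39283 = true ∧
    allY (E.wth T2) l39284 = true ∧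
    allY (E.wth T2) l39285 = true ∧
    allY (E.wth T2) l39286 = true :=
  ⟨by decide +kernel, by decide +kernel, by decide +kernel, by decide +kernel, by decide +kernel, by decide +kernel, by decide +kernel, by decide +kernel⟩

def t39287 : allY (E.wth T2) l39287 = true ∧
    allY (E.wth T2) l39288 = true ∧
    allY (E.wth T2) l39289 = true ∧
    allY (E.wth T2) l39290 = true ∧
    allY (E.wth T2) l39291 = true ∧
    allY (E.wth T2) l39292 = true ∧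
    allY (E.wth T2) l39293 = true ∧
    allY (E.wth T2) l39294 = true :=
  ⟨by decide +kernel, by decide +kernel, by decide +kernel, by decide +kernel, by decide +kernel, by decide +kernel, by decide +kernel, by decide +kernel⟩

def t39295 : allY (E.wth T2) l39295 = true ∧
    allY (E.wth T2) l39296 = true ∧
    allY (E.wth T2) l39297 = true ∧
    allY (E.wth T2) l39298 = true ∧
    allY (E.wth T2) l39299 = true ∧
    allY (E.wth T2) l39300 = true ∧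
    allY (E.wth T2) l39301 = true ∧
    allY (E.wth T2) l39302 = true :=
  ⟨by decide +kernel, by decide +kernel, by decide +kernel, by decide +kernel, by decide +kernel, by decide +kernel, by decide +kernel, by decide +kernel⟩

def t39303 : allY (E.wth T2) l39303 = true ∧
    allY (E.wth T2) l39304 = true ∧
    allY (E.wth T2) l39305 = true ∧
    allY (E.wth T2) l39306 = true ∧
    allY (E.wth T2) l39307 = true ∧
    allY (E.wth T2) l39308 = true ∧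
    allY (E.wth T2) l39309 = true ∧
    allY (E.wth T2) l39310 = true :=
  ⟨by decide +kernel, by decide +kernel, by decide +kernel, by decide +kernel, by decide +kernel, by decide +kernel, by decide +kernel, by decide +kernel⟩

def t39311 : allY (E.wth T2) l39311 = true ∧
    allY (E.wth T2) l39312 = true ∧
    allY (E.wth T2) l39313 = true ∧
    allY (E.wth T2) l39314 = true ∧
    allY (E.wth T2) l39315 = true ∧
    allY (E.wth T2) l39316 = true ∧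
    allY (E.wth T2) l39317 = true ∧
    allY (E.wth T2) l39318 = true :=
  ⟨by decide +kernel, by decide +kernel, by decide +kernel, by decide +kernel, by decide +kernel, by decide +kernel, by decide +kernel, by decide +kernel⟩

def t39319 : allY (E.wth T2) l39319 = true ∧
    allY (E.wth T2) l39320 = true ∧
    allY (E.wth T2) l39321 = true ∧
    allY (E.wth T2) l39322 = true ∧
    allY (E.wth T2) l39323 = true ∧
    allY (E.wth T2) l39324 = true ∧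
    allY (E.wth T2) l39325 = true ∧
    allY (E.wth T2) l39326 = true :=
  ⟨by decide +kernel, by decide +kernel, by decide +kernel, by decide +kernel, by decide +kernel, by decide +kernel, by decide +kernel, by decide +kernel⟩

def t39327 : allY (E.wth T2) l39327 = true ∧
    allY (E.wth T2) l39328 = true ∧
    allY (E.wth T2) l39329 = true ∧
    allY (E.wth T2) l39330 = true ∧
    allY (E.wth T2) l39331 = true ∧
    allY (E.wth T2) l39332 = true ∧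
    allY (E.wth T2) l39333 = true ∧
    allY (E.wth T2) l39334 = true :=
  ⟨by decide +kernel, by decide +kernel, by decide +kernel, by decide +kernel, by decide +kernel, by decide +kernel, by decide +kernel, by decide +kernel⟩

def t39335 : allY (E.wth T2) l39335 = true ∧
    allY (E.wth T2) l39336 = true ∧
    allY (E.wth T2) l39337 = true ∧
    allY (E.wth T2) l39338 = true ∧
    allY (E.wth T2) l39339 = true ∧
    allY (E.wth T2) l39340 = true ∧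
    allY (E.wth T2) l39341 = true ∧
    allY (E.wth T2) l39342 = true :=
  ⟨by decide +kernel, by decide +kernel, by decide +kernel, by decide +kernel, by decide +kernel, by decide +kernel, by decide +kernel, by decide +kernel⟩

def t39343 : allY (E.wth T2) l39343 = true ∧
    allY (E.wth T2) l39344 = true ∧
    allY (E.wth T2) l39345 = true ∧
    allY (E.wth T2) l39346 = true ∧
    allY (E.wth T2) l39347 = true ∧
    allY (E.wth T2) l39348 = true ∧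
    allY (E.wth T2) l39349 = true ∧
    allY (E.wth T2) l39350 = true :=
  ⟨by decide +kernel, by decide +kernel, by decide +kernel, by decide +kernel, by decide +kernel, by decide +kernel, by decide +kernel, by decide +kernel⟩

def t39351 : allY (E.wth T2) l39351 = true ∧
    allY (E.wth T2) l39352 = true ∧
    allY (E.wth T2) l39353 = true ∧
    allY (E.wth T2) l39354 = true ∧
    allY (E.wth T2) l39355 = true ∧
    allY (E.wth T2) l39356 = true ∧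
    allY (E.wth T2) l39357 = true ∧
    allY (E.wth T2) l39358 = true :=
  ⟨by decide +kernel, by decide +kernel, by decide +kernel, by decide +kernel, by decide +kernel, by decide +kernel, by decide +kernel, by decide +kernel⟩

def t39359 : allY (E.wth T2) l39359 = true ∧
    allY (E.wth T2) l39360 = true ∧
    allY (E.wth T2) l39361 = true ∧
    allY (E.wth T2) l39362 = true ∧
    allY (E.wth T2) l39363 = true ∧
    allY (E.wth T2) l39364 = true ∧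
    allY (E.wth T2) l39365 = true ∧
    allY (E.wth T2) l39366 = true :=
  ⟨by decide +kernel, by decide +kernel, by decide +kernel, by decide +kernel, by decide +kernel, by decide +kernel, by decide +kernel, by decide +kernel⟩

def t39367 : allY (E.wth T2) l39367 = true ∧
    allY (E.wth T2) l39368 = true ∧
    allY (E.wth T2) l39369 = true ∧
    allY (E.wth T2) l39370 = true ∧
    allY (E.wth T2) l39371 = true ∧
    allY (E.wth T2) l39372 = true ∧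
    allY (E.wth T2) l39373 = true ∧
    allY (E.wth T2) l39374 = true :=
  ⟨by decide +kernel, by decide +kernel, by decide +kernel, by decide +kernel, by decide +kernel, by decide +kernel, by decide +kernel, by decide +kernel⟩

def t39375 : allY (E.wth T2) l39375 = true ∧
    allY (E.wth T2) l39376 = true ∧
    allY (E.wth T2) l39377 = true ∧
    allY (E.wth T2) l39378 = true ∧
    allY (E.wth T2) l39379 = true ∧
    allY (E.wth T2) l39380 = true ∧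
    allY (E.wth T2) l39381 = true ∧
    allY (E.wth T2) l39382 = true :=
  ⟨by decide +kernel, by decide +kernel, by decide +kernel, by decide +kernel, by decide +kernel, by decide +kernel, by decide +kernel, by decide +kernel⟩

def t39383 : allY (E.wth T2) l39383 = true ∧
    allY (E.wth T2) l39384 = true ∧
    allY (E.wth T2) l39385 = true ∧
    allY (E.wth T2) l39386 = true ∧
    allY (E.wth T2) l39387 = true ∧
    allY (E.wth T2) l39388 = true ∧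
    allY (E.wth T2) l39389 = true ∧
    allY (E.wth T2) l39390 = true :=
  ⟨by decide +kernel, by decide +kernel, by decide +kernel, by decide +kernel, by decide +kernel, by decide +kernel, by decide +kernel, by decide +kernel⟩

def t39391 : allY (E.wth T2) l39391 = true ∧
    allY (E.wth T2) l39392 = true ∧
    allY (E.wth T2) l39393 = true ∧
    allY (E.wth T2) l39394 = true ∧
    allY (E.wth T2) l39395 = true ∧
    allY (E.wth T2) l39396 = true ∧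
    allY (E.wth T2) l39397 = true ∧
    allY (E.wth T2) l39398 = true :=
  ⟨by decide +kernel, by decide +kernel, by decide +kernel, by decide +kernel, by decide +kernel, by decide +kernel, by decide +kernel, by decide +kernel⟩

def t39399 : allY (E.wth T2) l39399 = true ∧
    allY (E.wth T2) l39400 = true ∧
    allY (E.wth T2) l39401 = true ∧
    allY (E.wth T2) l39402 = true ∧
    allY (E.wth T2) l39403 = true ∧
    allY (E.wth T2) l39404 = true ∧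
    allY (E.wth T2) l39405 = true ∧
    allY (E.wth T2) l39406 = true :=
  ⟨by decide +kernel, by decide +kernel, by decide +kernel, by decide +kernel, by decide +kernel, by decide +kernel, by decide +kernel, by decide +kernel⟩

def t39407 : allY (E.wth T2) l39407 = true ∧
    allY (E.wth T2) l39408 = true ∧
    allY (E.wth T2) l39409 = true ∧
    allY (E.wth T2) l39410 = true ∧
    allY (E.wth T2) l39411 = true ∧
    allY (E.wth T2) l39412 = true ∧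
    allY (E.wth T2) l39413 = true ∧
    allY (E.wth T2) l39414 = true :=
  ⟨by decide +kernel, by decide +kernel, by decide +kernel, by decide +kernel, by decide +kernel, by decide +kernel, by decide +kernel, by decide +kernel⟩

def t39415 : allY (E.wth T2) l39415 = true ∧
    allY (E.wth T2) l39416 = true ∧
    allY (E.wth T2) l39417 = true ∧
    allY (E.wth T2) l39418 = true ∧
    allY (E.wth T2) l39419 = true ∧
    allY (E.wth T2) l39420 = true ∧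
    allY (E.wth T2) l39421 = true ∧
    allY (E.wth T2) l39422 = true :=
  ⟨by decide +kernel, by decide +kernel, by decide +kernel, by decide +kernel, by decide +kernel, by decide +kernel, by decide +kernel, by decide +kernel⟩

def t39423 : allY (E.wth T2) l39423 = true ∧
    allY (E.wth T2) l39424 = true ∧
    allY (E.wth T2) l39425 = true ∧
    allY (E.wth T2) l39426 = true ∧
    allY (E.wth T2) l39427 = true ∧
    allY (E.wth T2) l39428 = true ∧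
    allY (E.wth T2) l39429 = true ∧
    allY (E.wth T2) l39430 = true :=
  ⟨by decide +kernel, by decide +kernel, by decide +kernel, by decide +kernel, by decide +kernel, by decide +kernel, by decide +kernel, by decide +kernel⟩

def t39431 : allY (E.wth T2) l39431 = true ∧
    allY (E.wth T2) l39432 = true ∧
    allY (E.wth T2) l39433 = true ∧
    allY (E.wth T2) l39434 = true ∧
    allY (E.wth T2) l39435 = true ∧
    allY (E.wth T2) l39436 = true ∧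
    allY (E.wth T2) l39437 = true ∧
    allY (E.wth T2) l39438 = true :=
  ⟨by decide +kernel, by decide +kernel, by decide +kernel, by decide +kernel, by decide +kernel, by decide +kernel, by decide +kernel, by decide +kernel⟩

def t39439 : allY (E.wth T2) l39439 = true ∧
    allY (E.wth T2) l39440 = true ∧
    allY (E.wth T2) l39441 = true ∧
    allY (E.wth T2) l39442 = true ∧
    allY (E.wth T2) l39443 = true ∧
    allY (E.wth T2) l39444 = true ∧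
    allY (E.wth T2) l39445 = true ∧
    allY (E.wth T2) l39446 = true :=
  ⟨by decide +kernel, by decide +kernel, by decide +kernel, by decide +kernel, by decide +kernel, by decide +kernel, by decide +kernel, by decide +kernel⟩

def t39447 : allY (E.wth T2) l39447 = true ∧
    allY (E.wth T2) l39448 = true ∧
    allY (E.wth T2) l39449 = true ∧
    allY (E.wth T2) l39450 = true ∧
    allY (E.wth T2) l39451 = true ∧
    allY (E.wth T2) l39452 = true ∧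
    allY (E.wth T2) l39453 = true ∧
    allY (E.wth T2) l39454 = true :=
  ⟨by decide +kernel, by decide +kernel, by decide +kernel, by decide +kernel, by decide +kernel, by decide +kernel, by decide +kernel, by decide +kernel⟩

def t39455 : allY (E.wth T2) l39455 = true ∧
    allY (E.wth T2) l39456 = true ∧
    allY (E.wth T2) l39457 = true ∧
    allY (E.wth T2) l39458 = true ∧
    allY (E.wth T2) l39459 = true ∧
    allY (E.wth T2) l39460 = true ∧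
    allY (E.wth T2) l39461 = true ∧
    allY (E.wth T2) l39462 = true :=
  ⟨by decide +kernel, by decide +kernel, by decide +kernel, by decide +kernel, by decide +kernel, by decide +kernel, by decide +kernel, by decide +kernel⟩

def t39463 : allY (E.wth T2) l39463 = true ∧
    allY (E.wth T2) l39464 = true ∧
    allY (E.wth T2) l39465 = true ∧
    allY (E.wth T2) l39466 = true ∧
    allY (E.wth T2) l39467 = true ∧
    allY (E.wth T2) l39468 = true ∧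
    allY (E.wth T2) l39469 = true ∧
    allY (E.wth T2) l39470 = true :=
  ⟨by decide +kernel, by decide +kernel, by decide +kernel, by decide +kernel, by decide +kernel, by decide +kernel, by decide +kernel, by decide +kernel⟩

def t39471 : allY (E.wth T2) l39471 = true ∧
    allY (E.wth T2) l39472 = true ∧
    allY (E.wth T2) l39473 = true ∧
    allY (E.wth T2) l39474 = true ∧
    allY (E.wth T2) l39475 = true ∧
    allY (E.wth T2) l39476 = true ∧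
    allY (E.wth T2) l39477 = true ∧
    allY (E.wth T2) l39478 = true :=
  ⟨by decide +kernel, by decide +kernel, by decide +kernel, by decide +kernel, by decide +kernel, by decide +kernel, by decide +kernel, by decide +kernel⟩

def t39479 : allY (E.wth T2) l39479 = true ∧
    allY (E.wth T2) l39480 = true ∧
    allY (E.wth T2) l39481 = true ∧
    allY (E.wth T2) l39482 = true ∧
    allY (E.wth T2) l39483 = true ∧
    allY (E.wth T2) l39484 = true ∧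
    allY (E.wth T2) l39485 = true ∧
    allY (E.wth T2) l39486 = true :=
  ⟨by decide +kernel, by decide +kernel, by decide +kernel, by decide +kernel, by decide +kernel, by decide +kernel, by decide +kernel, by decide +kernel⟩

def t39487 : allY (E.wth T2) l39487 = true ∧
    allY (E.wth T2) l39488 = true ∧
    allY (E.wth T2) l39489 = true ∧
    allY (E.wth T2) l39490 = true ∧
    allY (E.wth T2) l39491 = true ∧
    allY (E.wth T2) l39492 = true ∧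
    allY (E.wth T2) l39493 = true ∧
    allY (E.wth T2) l39494 = true :=
  ⟨by decide +kernel, by decide +kernel, by decide +kernel, by decide +kernel, by decide +kernel, by decide +kernel, by decide +kernel, by decide +kernel⟩

def t39495 : allY (E.wth T2) l39495 = true ∧
    allY (E.wth T2) l39496 = true ∧
    allY (E.wth T2) l39497 = true ∧
    allY (E.wth T2) l39498 = true ∧
    allY (E.wth T2) l39499 = true ∧
    allY (E.wth T2) l39500 = true ∧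
    allY (E.wth T2) l39501 = true ∧
    allY (E.wth T2) l39502 = true :=
  ⟨by decide +kernel, by decide +kernel, by decide +kernel, by decide +kernel, by decide +kernel, by decide +kernel, by decide +kernel, by decide +kernel⟩

def t39503 : allY (E.wth T2) l39503 = true ∧
    allY (E.wth T2) l39504 = true ∧
    allY (E.wth T2) l39505 = true ∧
    allY (E.wth T2) l39506 = true ∧
    allY (E.wth T2) l39507 = true ∧
    allY (E.wth T2) l39508 = true ∧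
    allY (E.wth T2) l39509 = true ∧
    allY (E.wth T2) l39510 = true :=
  ⟨by decide +kernel, by decide +kernel, by decide +kernel, by decide +kernel, by decide +kernel, by decide +kernel, by decide +kernel, by decide +kernel⟩

def t39511 : allY (E.wth T2) l39511 = true ∧
    allY (E.wth T2) l39512 = true ∧
    allY (E.wth T2) l39513 = true ∧
    allY (E.wth T2) l39514 = true ∧
    allY (E.wth T2) l39515 = true ∧
    allY (E.wth T2) l39516 = true ∧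
    allY (E.wth T2) l39517 = true ∧
    allY (E.wth T2) l39518 = true :=
  ⟨by decide +kernel, by decide +kernel, by decide +kernel, by decide +kernel, by decide +kernel, by decide +kernel, by decide +kernel, by decide +kernel⟩

def t39519 : allY (E.wth T2) l39519 = true ∧
    allY (E.wth T2) l39520 = true ∧
    allY (E.wth T2) l39521 = true ∧
    allY (E.wth T2) l39522 = true ∧
    allY (E.wth T2) l39523 = true ∧
    allY (E.wth T2) l39524 = true ∧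
    allY (E.wth T2) l39525 = true ∧
    allY (E.wth T2) l39526 = true :=
  ⟨by decide +kernel, by decide +kernel, by decide +kernel, by decide +kernel, by decide +kernel, by decide +kernel, by decide +kernel, by decide +kernel⟩

def t39527 : allY (E.wth T2) l39527 = true ∧
    allY (E.wth T2) l39528 = true ∧
    allY (E.wth T2) l39529 = true ∧
    allY (E.wth T2) l39530 = true ∧
    allY (E.wth T2) l39531 = true ∧
    allY (E.wth T2) l39532 = true ∧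
    allY (E.wth T2) l39533 = true ∧
    allY (E.wth T2) l39534 = true :=
  ⟨by decide +kernel, by decide +kernel, by decide +kernel, by decide +kernel, by decide +kernel, by decide +kernel, by decide +kernel, by decide +kernel⟩

def t39535 : allY (E.wth T2) l39535 = true ∧
    allY (E.wth T2) l39536 = true ∧
    allY (E.wth T2) l39537 = true ∧
    allY (E.wth T2) l39538 = true ∧
    allY (E.wth T2) l39539 = true ∧
    allY (E.wth T2) l39540 = true ∧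
    allY (E.wth T2) l39541 = true ∧
    allY (E.wth T2) l39542 = true :=
  ⟨by decide +kernel, by decide +kernel, by decide +kernel, by decide +kernel, by decide +kernel, by decide +kernel, by decide +kernel, by decide +kernel⟩

def t39543 : allY (E.wth T2) l39543 = true ∧
    allY (E.wth T2) l39544 = true ∧
    allY (E.wth T2) l39545 = true ∧
    allY (E.wth T2) l39546 = true ∧
    allY (E.wth T2) l39547 = true ∧
    allY (E.wth T2) l39548 = true ∧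
    allY (E.wth T2) l39549 = true ∧
    allY (E.wth T2) l39550 = true :=
  ⟨by decide +kernel, by decide +kernel, by decide +kernel, by decide +kernel, by decide +kernel, by decide +kernel, by decide +kernel, by decide +kernel⟩

def t39551 : allY (E.wth T2) l39551 = true ∧
    allY (E.wth T2) l39552 = true ∧
    allY (E.wth T2) l39553 = true ∧
    allY (E.wth T2) l39554 = true ∧
    allY (E.wth T2) l39555 = true ∧
    allY (E.wth T2) l39556 = true ∧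
    allY (E.wth T2) l39557 = true ∧
    allY (E.wth T2) l39558 = true :=
  ⟨by decide +kernel, by decide +kernel, by decide +kernel, by decide +kernel, by decide +kernel, by decide +kernel, by decide +kernel, by decide +kernel⟩

def t39559 : allY (E.wth T2) l39559 = true ∧
    allY (E.wth T2) l39560 = true ∧
    allY (E.wth T2) l39561 = true ∧
    allY (E.wth T2) l39562 = true ∧
    allY (E.wth T2) l39563 = true ∧
    allY (E.wth T2) l39564 = true ∧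
    allY (E.wth T2) l39565 = true ∧
    allY (E.wth T2) l39566 = true :=
  ⟨by decide +kernel, by decide +kernel, by decide +kernel, by decide +kernel, by decide +kernel, by decide +kernel, by decide +kernel, by decide +kernel⟩

def t39567 : allY (E.wth T2) l39567 = true ∧
    allY (E.wth T2) l39568 = true ∧
    allY (E.wth T2) l39569 = true ∧
    allY (E.wth T2) l39570 = true ∧
    allY (E.wth T2) l39571 = true ∧
    allY (E.wth T2) l39572 = true ∧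
    allY (E.wth T2) l39573 = true ∧
    allY (E.wth T2) l39574 = true :=
  ⟨by decide +kernel, by decide +kernel, by decide +kernel, by decide +kernel, by decide +kernel, by decide +kernel, by decide +kernel, by decide +kernel⟩

def t39575 : allY (E.wth T2) l39575 = true ∧
    allY (E.wth T2) l39576 = true ∧
    allY (E.wth T2) l39577 = true ∧
    allY (E.wth T2) l39578 = true ∧
    allY (E.wth T2) l39579 = true ∧
    allY (E.wth T2) l39580 = true ∧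
    allY (E.wth T2) l39581 = true ∧
    allY (E.wth T2) l39582 = true :=
  ⟨by decide +kernel, by decide +kernel, by decide +kernel, by decide +kernel, by decide +kernel, by decide +kernel, by decide +kernel, by decide +kernel⟩

def t39583 : allY (E.wth T2) l39583 = true ∧
    allY (E.wth T2) l39584 = true ∧
    allY (E.wth T2) l39585 = true ∧
    allY (E.wth T2) l39586 = true ∧
    allY (E.wth T2) l39587 = true ∧
    allY (E.wth T2) l39588 = true ∧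
    allY (E.wth T2) l39589 = true ∧
    allY (E.wth T2) l39590 = true :=
  ⟨by decide +kernel, by decide +kernel, by decide +kernel, by decide +kernel, by decide +kernel, by decide +kernel, by decide +kernel, by decide +kernel⟩

def t39591 : allY (E.wth T2) l39591 = true ∧
    allY (E.wth T2) l39592 = true ∧
    allY (E.wth T2) l39593 = true ∧
    allY (E.wth T2) l39594 = true ∧
    allY (E.wth T2) l39595 = true ∧
    allY (E.wth T2) l39596 = true ∧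
    allY (E.wth T2) l39597 = true ∧
    allY (E.wth T2) l39598 = true :=
  ⟨by decide +kernel, by decide +kernel, by decide +kernel, by decide +kernel, by decide +kernel, by decide +kernel, by decide +kernel, by decide +kernel⟩

def t39599 : allY (E.wth T2) l39599 = true ∧
    allY (E.wth T2) l39600 = true ∧
    allY (E.wth T2) l39601 = true ∧
    allY (E.wth T2) l39602 = true ∧
    allY (E.wth T2) l39603 = true ∧
    allY (E.wth T2) l39604 = true ∧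
    allY (E.wth T2) l39605 = true ∧
    allY (E.wth T2) l39606 = true :=
  ⟨by decide +kernel, by decide +kernel, by decide +kernel, by decide +kernel, by decide +kernel, by decide +kernel, by decide +kernel, by decide +kernel⟩

def t39607 : allY (E.wth T2) l39607 = true ∧
    allY (E.wth T2) l39608 = true ∧
    allY (E.wth T2) l39609 = true ∧
    allY (E.wth T2) l39610 = true ∧
    allY (E.wth T2) l39611 = true ∧
    allY (E.wth T2) l39612 = true ∧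
    allY (E.wth T2) l39613 = true ∧
    allY (E.wth T2) l39614 = true :=
  ⟨by decide +kernel, by decide +kernel, by decide +kernel, by decide +kernel, by decide +kernel, by decide +kernel, by decide +kernel, by decide +kernel⟩

def t39615 : allY (E.wth T2) l39615 = true ∧
    allY (E.wth T2) l39616 = true ∧
    allY (E.wth T2) l39617 = true ∧
    allY (E.wth T2) l39618 = true ∧
    allY (E.wth T2) l39619 = true ∧
    allY (E.wth T2) l39620 = true ∧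
    allY (E.wth T2) l39621 = true ∧
    allY (E.wth T2) l39622 = true :=
  ⟨by decide +kernel, by decide +kernel, by decide +kernel, by decide +kernel, by decide +kernel, by decide +kernel, by decide +kernel, by decide +kernel⟩

def t39623 : allY (E.wth T2) l39623 = true ∧
    allY (E.wth T2) l39624 = true ∧
    allY (E.wth T2) l39625 = true ∧
    allY (E.wth T2) l39626 = true ∧
    allY (E.wth T2) l39627 = true ∧
    allY (E.wth T2) l39628 = true ∧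
    allY (E.wth T2) l39629 = true ∧
    allY (E.wth T2) l39630 = true :=
  ⟨by decide +kernel, by decide +kernel, by decide +kernel, by decide +kernel, by decide +kernel, by decide +kernel, by decide +kernel, by decide +kernel⟩

def t39631 : allY (E.wth T2) l39631 = true ∧
    allY (E.wth T2) l39632 = true ∧
    allY (E.wth T2) l39633 = true ∧
    allY (E.wth T2) l39634 = true ∧
    allY (E.wth T2) l39635 = true ∧
    allY (E.wth T2) l39636 = true ∧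
    allY (E.wth T2) l39637 = true ∧
    allY (E.wth T2) l39638 = true :=
  ⟨by decide +kernel, by decide +kernel, by decide +kernel, by decide +kernel, by decide +kernel, by decide +kernel, by decide +kernel, by decide +kernel⟩

def t39639 : allY (E.wth T2) l39639 = true ∧
    allY (E.wth T2) l39640 = true ∧
    allY (E.wth T2) l39641 = true ∧
    allY (E.wth T2) l39642 = true ∧
    allY (E.wth T2) l39643 = true ∧
    allY (E.wth T2) l39644 = true ∧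
    allY (E.wth T2) l39645 = true ∧
    allY (E.wth T2) l39646 = true :=
  ⟨by decide +kernel, by decide +kernel, by decide +kernel, by decide +kernel, by decide +kernel, by decide +kernel, by decide +kernel, by decide +kernel⟩

def t39647 : allY (E.wth T2) l39647 = true ∧
    allY (E.wth T2) l39648 = true ∧
    allY (E.wth T2) l39649 = true ∧
    allY (E.wth T2) l39650 = true ∧
    allY (E.wth T2) l39651 = true ∧
    allY (E.wth T2) l39652 = true ∧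
    allY (E.wth T2) l39653 = true ∧
    allY (E.wth T2) l39654 = true :=
  ⟨by decide +kernel, by decide +kernel, by decide +kernel, by decide +kernel, by decide +kernel, by decide +kernel, by decide +kernel, by decide +kernel⟩

def t39655 : allY (E.wth T2) l39655 = true ∧
    allY (E.wth T2) l39656 = true ∧
    allY (E.wth T2) l39657 = true ∧
    allY (E.wth T2) l39658 = true ∧
    allY (E.wth T2) l39659 = true ∧
    allY (E.wth T2) l39660 = true ∧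
    allY (E.wth T2) l39661 = true ∧
    allY (E.wth T2) l39662 = true :=
  ⟨by decide +kernel, by decide +kernel, by decide +kernel, by decide +kernel, by decide +kernel, by decide +kernel, by decide +kernel, by decide +kernel⟩

def t39663 : allY (E.wth T2) l39663 = true ∧
    allY (E.wth T2) l39664 = true ∧
    allY (E.wth T2) l39665 = true ∧
    allY (E.wth T2) l39666 = true ∧
    allY (E.wth T2) l39667 = true ∧
    allY (E.wth T2) l39668 = true ∧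
    allY (E.wth T2) l39669 = true ∧
    allY (E.wth T2) l39670 = true :=
  ⟨by decide +kernel, by decide +kernel, by decide +kernel, by decide +kernel, by decide +kernel, by decide +kernel, by decide +kernel, by decide +kernel⟩

def t39671 : allY (E.wth T2) l39671 = true ∧
    allY (E.wth T2) l39672 = true ∧
    allY (E.wth T2) l39673 = true ∧
    allY (E.wth T2) l39674 = true ∧
    allY (E.wth T2) l39675 = true ∧
    allY (E.wth T2) l39676 = true ∧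
    allY (E.wth T2) l39677 = true ∧
    allY (E.wth T2) l39678 = true :=
  ⟨by decide +kernel, by decide +kernel, by decide +kernel, by decide +kernel, by decide +kernel, by decide +kernel, by decide +kernel, by decide +kernel⟩

def t39679 : allY (E.wth T2) l39679 = true ∧
    allY (E.wth T2) l39680 = true ∧
    allY (E.wth T2) l39681 = true ∧
    allY (E.wth T2) l39682 = true ∧
    allY (E.wth T2) l39683 = true ∧
    allY (E.wth T2) l39684 = true ∧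
    allY (E.wth T2) l39685 = true ∧
    allY (E.wth T2) l39686 = true :=
  ⟨by decide +kernel, by decide +kernel, by decide +kernel, by decide +kernel, by decide +kernel, by decide +kernel, by decide +kernel, by decide +kernel⟩

def t39687 : allY (E.wth T2) l39687 = true ∧
    allY (E.wth T2) l39688 = true ∧
    allY (E.wth T2) l39689 = true ∧
    allY (E.wth T2) l39690 = true ∧
    allY (E.wth T2) l39691 = true ∧
    allY (E.wth T2) l39692 = true ∧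
    allY (E.wth T2) l39693 = true ∧
    allY (E.wth T2) l39694 = true :=
  ⟨by decide +kernel, by decide +kernel, by decide +kernel, by decide +kernel, by decide +kernel, by decide +kernel, by decide +kernel, by decide +kernel⟩

def t39695 : allY (E.wth T2) l39695 = true ∧
    allY (E.wth T2) l39696 = true ∧
    allY (E.wth T2) l39697 = true ∧
    allY (E.wth T2) l39698 = true ∧
    allY (E.wth T2) l39699 = true ∧
    allY (E.wth T2) l39700 = true ∧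
    allY (E.wth T2) l39701 = true ∧
    allY (E.wth T2) l39702 = true :=
  ⟨by decide +kernel, by decide +kernel, by decide +kernel, by decide +kernel, by decide +kernel, by decide +kernel, by decide +kernel, by decide +kernel⟩

def t39703 : allY (E.wth T2) l39703 = true ∧
    allY (E.wth T2) l39704 = true ∧
    allY (E.wth T2) l39705 = true ∧
    allY (E.wth T2) l39706 = true ∧
    allY (E.wth T2) l39707 = true ∧
    allY (E.wth T2) l39708 = true ∧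
    allY (E.wth T2) l39709 = true ∧
    allY (E.wth T2) l39710 = true :=
  ⟨by decide +kernel, by decide +kernel, by decide +kernel, by decide +kernel, by decide +kernel, by decide +kernel, by decide +kernel, by decide +kernel⟩

def t39711 : allY (E.wth T2) l39711 = true ∧
    allY (E.wth T2) l39712 = true ∧
    allY (E.wth T2) l39713 = true ∧
    allY (E.wth T2) l39714 = true ∧
    allY (E.wth T2) l39715 = true ∧
    allY (E.wth T2) l39716 = true ∧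
    allY (E.wth T2) l39717 = true ∧
    allY (E.wth T2) l39718 = true :=
  ⟨by decide +kernel, by decide +kernel, by decide +kernel, by decide +kernel, by decide +kernel, by decide +kernel, by decide +kernel, by decide +kernel⟩

def t39719 : allY (E.wth T2) l39719 = true ∧
    allY (E.wth T2) l39720 = true ∧
    allY (E.wth T2) l39721 = true ∧
    allY (E.wth T2) l39722 = true ∧
    allY (E.wth T2) l39723 = true ∧
    allY (E.wth T2) l39724 = true ∧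
    allY (E.wth T2) l39725 = true ∧
    allY (E.wth T2) l39726 = true :=
  ⟨by decide +kernel, by decide +kernel, by decide +kernel, by decide +kernel, by decide +kernel, by decide +kernel, by decide +kernel, by decide +kernel⟩

def t39727 : allY (E.wth T2) l39727 = true ∧
    allY (E.wth T2) l39728 = true ∧
    allY (E.wth T2) l39729 = true ∧
    allY (E.wth T2) l39730 = true ∧
    allY (E.wth T2) l39731 = true ∧
    allY (E.wth T2) l39732 = true ∧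
    allY (E.wth T2) l39733 = true ∧
    allY (E.wth T2) l39734 = true :=
  ⟨by decide +kernel, by decide +kernel, by decide +kernel, by decide +kernel, by decide +kernel, by decide +kernel, by decide +kernel, by decide +kernel⟩

def t39735 : allY (E.wth T2) l39735 = true ∧
    allY (E.wth T2) l39736 = true ∧
    allY (E.wth T2) l39737 = true ∧
    allY (E.wth T2) l39738 = true ∧
    allY (E.wth T2) l39739 = true ∧
    allY (E.wth T2) l39740 = true ∧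
    allY (E.wth T2) l39741 = true ∧
    allY (E.wth T2) l39742 = true :=
  ⟨by decide +kernel, by decide +kernel, by decide +kernel, by decide +kernel, by decide +kernel, by decide +kernel, by decide +kernel, by decide +kernel⟩

def t39743 : allY (E.wth T2) l39743 = true ∧
    allY (E.wth T2) l39744 = true ∧
    allY (E.wth T2) l39745 = true ∧
    allY (E.wth T2) l39746 = true ∧
    allY (E.wth T2) l39747 = true ∧
    allY (E.wth T2) l39748 = true ∧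
    allY (E.wth T2) l39749 = true ∧
    allY (E.wth T2) l39750 = true :=
  ⟨by decide +kernel, by decide +kernel, by decide +kernel, by decide +kernel, by decide +kernel, by decide +kernel, by decide +kernel, by decide +kernel⟩

def t39751 : allY (E.wth T2) l39751 = true ∧
    allY (E.wth T2) l39752 = true ∧
    allY (E.wth T2) l39753 = true ∧
    allY (E.wth T2) l39754 = true ∧
    allY (E.wth T2) l39755 = true ∧
    allY (E.wth T2) l39756 = true ∧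
    allY (E.wth T2) l39757 = true ∧
    allY (E.wth T2) l39758 = true :=
  ⟨by decide +kernel, by decide +kernel, by decide +kernel, by decide +kernel, by decide +kernel, by decide +kernel, by decide +kernel, by decide +kernel⟩

def t39759 : allY (E.wth T2) l39759 = true ∧
    allY (E.wth T2) l39760 = true ∧
    allY (E.wth T2) l39761 = true ∧
    allY (E.wth T2) l39762 = true ∧
    allY (E.wth T2) l39763 = true ∧
    allY (E.wth T2) l39764 = true ∧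
    allY (E.wth T2) l39765 = true ∧
    allY (E.wth T2) l39766 = true :=
  ⟨by decide +kernel, by decide +kernel, by decide +kernel, by decide +kernel, by decide +kernel, by decide +kernel, by decide +kernel, by decide +kernel⟩

def t39767 : allY (E.wth T2) l39767 = true ∧
    allY (E.wth T2) l39768 = true ∧
    allY (E.wth T2) l39769 = true ∧
    allY (E.wth T2) l39770 = true ∧
    allY (E.wth T2) l39771 = true ∧
    allY (E.wth T2) l39772 = true ∧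
    allY (E.wth T2) l39773 = true ∧
    allY (E.wth T2) l39774 = true :=
  ⟨by decide +kernel, by decide +kernel, by decide +kernel, by decide +kernel, by decide +kernel, by decide +kernel, by decide +kernel, by decide +kernel⟩

def t39775 : allY (E.wth T2) l39775 = true ∧
    allY (E.wth T2) l39776 = true ∧
    allY (E.wth T2) l39777 = true ∧
    allY (E.wth T2) l39778 = true ∧
    allY (E.wth T2) l39779 = true ∧
    allY (E.wth T2) l39780 = true ∧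
    allY (E.wth T2) l39781 = true ∧
    allY (E.wth T2) l39782 = true :=
  ⟨by decide +kernel, by decide +kernel, by decide +kernel, by decide +kernel, by decide +kernel, by decide +kernel, by decide +kernel, by decide +kernel⟩

def t39783 : allY (E.wth T2) l39783 = true ∧
    allY (E.wth T2) l39784 = true ∧
    allY (E.wth T2) l39785 = true ∧
    allY (E.wth T2) l39786 = true ∧
    allY (E.wth T2) l39787 = true ∧
    allY (E.wth T2) l39788 = true ∧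
    allY (E.wth T2) l39789 = true ∧
    allY (E.wth T2) l39790 = true :=
  ⟨by decide +kernel, by decide +kernel, by decide +kernel, by decide +kernel, by decide +kernel, by decide +kernel, by decide +kernel, by decide +kernel⟩

def t39791 : allY (E.wth T2) l39791 = true ∧
    allY (E.wth T2) l39792 = true ∧
    allY (E.wth T2) l39793 = true ∧
    allY (E.wth T2) l39794 = true ∧
    allY (E.wth T2) l39795 = true ∧
    allY (E.wth T2) l39796 = true ∧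
    allY (E.wth T2) l39797 = true ∧
    allY (E.wth T2) l39798 = true :=
  ⟨by decide +kernel, by decide +kernel, by decide +kernel, by decide +kernel, by decide +kernel, by decide +kernel, by decide +kernel, by decide +kernel⟩

def t39799 : allY (E.wth T2) l39799 = true ∧
    allY (E.wth T2) l39800 = true ∧
    allY (E.wth T2) l39801 = true ∧
    allY (E.wth T2) l39802 = true ∧
    allY (E.wth T2) l39803 = true ∧
    allY (E.wth T2) l39804 = true ∧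
    allY (E.wth T2) l39805 = true ∧
    allY (E.wth T2) l39806 = true :=
  ⟨by decide +kernel, by decide +kernel, by decide +kernel, by decide +kernel, by decide +kernel, by decide +kernel, by decide +kernel, by decide +kernel⟩

def t39807 : allY (E.wth T2) l39807 = true :=
  by decide +kernel

theorem a72 {p : Rf → Prop} (H : ∀ l, allY (E.wth T2) l = true → (lkp l).All p) :
    b72.All p := ⟨⟨⟨⟨⟨⟨⟨⟨⟨H _ t39247.1, H _ t39247.2.1⟩, ⟨H _ t39247.2.2.1, H _ t39247.2.2.2.1⟩⟩, ⟨⟨H _ t39247.2.2.2.2.1, H _ t39247.2.2.2.2.2.1⟩, ⟨H _ t39247.2.2.2.2.2.2.1, H _ t39247.2.2.2.2.2.2.2⟩⟩⟩, ⟨⟨⟨H _ t39255.1, H _ t39255.2.1⟩, ⟨H _ t39255.2.2.1, H _ t39255.2.2.2.1⟩⟩, ⟨⟨H _ t39255.2.2.2.2.1, H _ t39255.2.2.2.2.2.1⟩, ⟨H _ t39255.2.2.2.2.2.2.1, ⟨H _ t39255.2.2.2.2.2.2.2, H _ t39263.1⟩⟩⟩⟩⟩, ⟨⟨⟨⟨H _ t39263.2.1, H _ t39263.2.2.1⟩, ⟨H _ t39263.2.2.2.1, H _ t39263.2.2.2.2.1⟩⟩, ⟨⟨H _ t39263.2.2.2.2.2.1, H _ t39263.2.2.2.2.2.2.1⟩,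 ⟨H _ t39263.2.2.2.2.2.2.2, ⟨H _ t39271.1, H _ t39271.2.1⟩⟩⟩⟩, ⟨⟨⟨H _ t39271.2.2.1, H _ t39271.2.2.2.1⟩, ⟨H _ t39271.2.2.2.2.1, H _ t39271.2.2.2.2.2.1⟩⟩, ⟨⟨H _ t39271.2.2.2.2.2.2.1, H _ t39271.2.2.2.2.2.2.2⟩, ⟨H _ t39279.1, ⟨H _ t39279.2.1, H _ t39279.2.2.1⟩⟩⟩⟩⟩⟩, ⟨⟨⟨⟨⟨H _ t39279.2.2.2.1, H _ t39279.2.2.2.2.1⟩, ⟨H _ t39279.2.2.2.2.2.1, H _ t39279.2.2.2.2.2.2.1⟩⟩, ⟨⟨H _ t39279.2.2.2.2.2.2.2, H _ t39287.1⟩, ⟨H _ t39287.2.1, H _ t39287.2.2.1⟩⟩⟩, ⟨⟨⟨H _ t39287.2.2.2.1, H _ t39287.2.2.2.2.1⟩, ⟨H _ t39287.2.2.2.2.2.1, H _ t39287.2.2.2.2.2.2.1⟩⟩, ⟨⟨H _ t39287.2.2.2.2.2.2.2, H _ t39295.1⟩, ⟨H _ t39295.2.1, ⟨H _ t39295.2.2.1, H _ t39295.2.2.2.1⟩⟩⟩⟩⟩, ⟨⟨⟨⟨H _ t39295.2.2.2.2.1, H _ t39295.2.2.2.2.2.1⟩, ⟨H _ t39295.2.2.2.2.2.2.1, H _ t39295.2.2.2.2.2.2.2⟩⟩, ⟨⟨H _ t39303.1, H _ t39303.2.1⟩, ⟨H _ t39303.2.2.1, ⟨H _ t39303.2.2.2.1, H _ t39303.2.2.2.2.1⟩⟩⟩⟩, ⟨⟨⟨H _ t39303.2.2.2.2.2.1, H _ t39303.2.2.2.2.2.2.1⟩,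 ⟨H _ t39303.2.2.2.2.2.2.2, H _ t39311.1⟩⟩, ⟨⟨H _ t39311.2.1, H _ t39311.2.2.1⟩, ⟨H _ t39311.2.2.2.1, ⟨H _ t39311.2.2.2.2.1, H _ t39311.2.2.2.2.2.1⟩⟩⟩⟩⟩⟩⟩, ⟨⟨⟨⟨⟨⟨H _ t39311.2.2.2.2.2.2.1, H _ t39311.2.2.2.2.2.2.2⟩, ⟨H _ t39319.1, H _ t39319.2.1⟩⟩, ⟨⟨H _ t39319.2.2.1, H _ t39319.2.2.2.1⟩, ⟨H _ t39319.2.2.2.2.1, H _ t39319.2.2.2.2.2.1⟩⟩⟩, ⟨⟨⟨H _ t39319.2.2.2.2.2.2.1, H _ t39319.2.2.2.2.2.2.2⟩, ⟨H _ t39327.1, H _ t39327.2.1⟩⟩, ⟨⟨H _ t39327.2.2.1, H _ t39327.2.2.2.1⟩, ⟨H _ t39327.2.2.2.2.1, ⟨H _ t39327.2.2.2.2.2.1, H _ t39327.2.2.2.2.2.2.1⟩⟩⟩⟩⟩, ⟨⟨⟨⟨H _ t39327.2.2.2.2.2.2.2, H _ t39335.1⟩, ⟨H _ t39335.2.1, H _ t39335.2.2.1⟩⟩, ⟨⟨H _ t39335.2.2.2.1, H _ t39335.2.2.2.2.1⟩, ⟨H _ t39335.2.2.2.2.2.1, ⟨H _ t39335.2.2.2.2.2.2.1, H _ t39335.2.2.2.2.2.2.2⟩⟩⟩⟩, ⟨⟨⟨H _ t39343.1, H _ t39343.2.1⟩, ⟨H _ t39343.2.2.1, H _ t39343.2.2.2.1⟩⟩, ⟨⟨H _ t39343.2.2.2.2.1, H _ t39343.2.2.2.2.2.1⟩, ⟨H _ t39343.2.2.2.2.2.2.1,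 ⟨H _ t39343.2.2.2.2.2.2.2, H _ t39351.1⟩⟩⟩⟩⟩⟩, ⟨⟨⟨⟨⟨H _ t39351.2.1, H _ t39351.2.2.1⟩, ⟨H _ t39351.2.2.2.1, H _ t39351.2.2.2.2.1⟩⟩, ⟨⟨H _ t39351.2.2.2.2.2.1, H _ t39351.2.2.2.2.2.2.1⟩, ⟨H _ t39351.2.2.2.2.2.2.2, H _ t39359.1⟩⟩⟩, ⟨⟨⟨H _ t39359.2.1, H _ t39359.2.2.1⟩, ⟨H _ t39359.2.2.2.1, H _ t39359.2.2.2.2.1⟩⟩, ⟨⟨H _ t39359.2.2.2.2.2.1, H _ t39359.2.2.2.2.2.2.1⟩, ⟨H _ t39359.2.2.2.2.2.2.2, ⟨H _ t39367.1, H _ t39367.2.1⟩⟩⟩⟩⟩, ⟨⟨⟨⟨H _ t39367.2.2.1, H _ t39367.2.2.2.1⟩, ⟨H _ t39367.2.2.2.2.1, H _ t39367.2.2.2.2.2.1⟩⟩, ⟨⟨H _ t39367.2.2.2.2.2.2.1, H _ t39367.2.2.2.2.2.2.2⟩, ⟨H _ t39375.1, ⟨H _ t39375.2.1, H _ t39375.2.2.1⟩⟩⟩⟩, ⟨⟨⟨H _ t39375.2.2.2.1, H _ t39375.2.2.2.2.1⟩, ⟨H _ t39375.2.2.2.2.2.1, H _ t39375.2.2.2.2.2.2.1⟩⟩, ⟨⟨H _ t39375.2.2.2.2.2.2.2, H _ t39383.1⟩, ⟨H _ t39383.2.1, ⟨H _ t39383.2.2.1, H _ t39383.2.2.2.1⟩⟩⟩⟩⟩⟩⟩⟩, ⟨⟨⟨⟨⟨⟨⟨H _ t39383.2.2.2.2.1, H _ t39383.2.2.2.2.2.1⟩, ⟨H _ t39383.2.2.2.2.2.2.1,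 H _ t39383.2.2.2.2.2.2.2⟩⟩, ⟨⟨H _ t39391.1, H _ t39391.2.1⟩, ⟨H _ t39391.2.2.1, H _ t39391.2.2.2.1⟩⟩⟩, ⟨⟨⟨H _ t39391.2.2.2.2.1, H _ t39391.2.2.2.2.2.1⟩, ⟨H _ t39391.2.2.2.2.2.2.1, H _ t39391.2.2.2.2.2.2.2⟩⟩, ⟨⟨H _ t39399.1, H _ t39399.2.1⟩, ⟨H _ t39399.2.2.1, ⟨H _ t39399.2.2.2.1, H _ t39399.2.2.2.2.1⟩⟩⟩⟩⟩, ⟨⟨⟨⟨H _ t39399.2.2.2.2.2.1, H _ t39399.2.2.2.2.2.2.1⟩, ⟨H _ t39399.2.2.2.2.2.2.2, H _ t39407.1⟩⟩, ⟨⟨H _ t39407.2.1, H _ t39407.2.2.1⟩, ⟨H _ t39407.2.2.2.1, ⟨H _ t39407.2.2.2.2.1, H _ t39407.2.2.2.2.2.1⟩⟩⟩⟩, ⟨⟨⟨H _ t39407.2.2.2.2.2.2.1, H _ t39407.2.2.2.2.2.2.2⟩, ⟨H _ t39415.1, H _ t39415.2.1⟩⟩, ⟨⟨H _ t39415.2.2.1, H _ t39415.2.2.2.1⟩, ⟨H _ t39415.2.2.2.2.1, ⟨H _ t39415.2.2.2.2.2.1, H _ t39415.2.2.2.2.2.2.1⟩⟩⟩⟩⟩⟩, ⟨⟨⟨⟨⟨H _ t39415.2.2.2.2.2.2.2, H _ t39423.1⟩, ⟨H _ t39423.2.1, H _ t39423.2.2.1⟩⟩, ⟨⟨H _ t39423.2.2.2.1, H _ t39423.2.2.2.2.1⟩, ⟨H _ t39423.2.2.2.2.2.1, H _ t39423.2.2.2.2.2.2.1⟩⟩⟩,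 ⟨⟨⟨H _ t39423.2.2.2.2.2.2.2, H _ t39431.1⟩, ⟨H _ t39431.2.1, H _ t39431.2.2.1⟩⟩, ⟨⟨H _ t39431.2.2.2.1, H _ t39431.2.2.2.2.1⟩, ⟨H _ t39431.2.2.2.2.2.1, ⟨H _ t39431.2.2.2.2.2.2.1, H _ t39431.2.2.2.2.2.2.2⟩⟩⟩⟩⟩, ⟨⟨⟨⟨H _ t39439.1, H _ t39439.2.1⟩, ⟨H _ t39439.2.2.1, H _ t39439.2.2.2.1⟩⟩, ⟨⟨H _ t39439.2.2.2.2.1, H _ t39439.2.2.2.2.2.1⟩, ⟨H _ t39439.2.2.2.2.2.2.1, ⟨H _ t39439.2.2.2.2.2.2.2, H _ t39447.1⟩⟩⟩⟩, ⟨⟨⟨H _ t39447.2.1, H _ t39447.2.2.1⟩, ⟨H _ t39447.2.2.2.1, H _ t39447.2.2.2.2.1⟩⟩, ⟨⟨H _ t39447.2.2.2.2.2.1, H _ t39447.2.2.2.2.2.2.1⟩, ⟨H _ t39447.2.2.2.2.2.2.2, ⟨H _ t39455.1, H _ t39455.2.1⟩⟩⟩⟩⟩⟩⟩, ⟨⟨⟨⟨⟨⟨H _ t39455.2.2.1, H _ t39455.2.2.2.1⟩, ⟨H _ t39455.2.2.2.2.1, H _ t39455.2.2.2.2.2.1⟩⟩, ⟨⟨H _ t39455.2.2.2.2.2.2.1, H _ t39455.2.2.2.2.2.2.2⟩, ⟨H _ t39463.1, H _ t39463.2.1⟩⟩⟩, ⟨⟨⟨H _ t39463.2.2.1, H _ t39463.2.2.2.1⟩, ⟨H _ t39463.2.2.2.2.1, H _ t39463.2.2.2.2.2.1⟩⟩, ⟨⟨H _ t39463.2.2.2.2.2.2.1,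 H _ t39463.2.2.2.2.2.2.2⟩, ⟨H _ t39471.1, ⟨H _ t39471.2.1, H _ t39471.2.2.1⟩⟩⟩⟩⟩, ⟨⟨⟨⟨H _ t39471.2.2.2.1, H _ t39471.2.2.2.2.1⟩, ⟨H _ t39471.2.2.2.2.2.1, H _ t39471.2.2.2.2.2.2.1⟩⟩, ⟨⟨H _ t39471.2.2.2.2.2.2.2, H _ t39479.1⟩, ⟨H _ t39479.2.1, ⟨H _ t39479.2.2.1, H _ t39479.2.2.2.1⟩⟩⟩⟩, ⟨⟨⟨H _ t39479.2.2.2.2.1, H _ t39479.2.2.2.2.2.1⟩, ⟨H _ t39479.2.2.2.2.2.2.1, H _ t39479.2.2.2.2.2.2.2⟩⟩, ⟨⟨H _ t39487.1, H _ t39487.2.1⟩, ⟨H _ t39487.2.2.1, ⟨H _ t39487.2.2.2.1, H _ t39487.2.2.2.2.1⟩⟩⟩⟩⟩⟩, ⟨⟨⟨⟨⟨H _ t39487.2.2.2.2.2.1, H _ t39487.2.2.2.2.2.2.1⟩, ⟨H _ t39487.2.2.2.2.2.2.2, H _ t39495.1⟩⟩, ⟨⟨H _ t39495.2.1, H _ t39495.2.2.1⟩, ⟨H _ t39495.2.2.2.1, H _ t39495.2.2.2.2.1⟩⟩⟩, ⟨⟨⟨H _ t39495.2.2.2.2.2.1, H _ t39495.2.2.2.2.2.2.1⟩, ⟨H _ t39495.2.2.2.2.2.2.2, H _ t39503.1⟩⟩, ⟨⟨H _ t39503.2.1, H _ t39503.2.2.1⟩, ⟨H _ t39503.2.2.2.1, ⟨H _ t39503.2.2.2.2.1, H _ t39503.2.2.2.2.2.1⟩⟩⟩⟩⟩, ⟨⟨⟨⟨H _ t39503.2.2.2.2.2.2.1,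 H _ t39503.2.2.2.2.2.2.2⟩, ⟨H _ t39511.1, H _ t39511.2.1⟩⟩, ⟨⟨H _ t39511.2.2.1, H _ t39511.2.2.2.1⟩, ⟨H _ t39511.2.2.2.2.1, ⟨H _ t39511.2.2.2.2.2.1, H _ t39511.2.2.2.2.2.2.1⟩⟩⟩⟩, ⟨⟨⟨H _ t39511.2.2.2.2.2.2.2, H _ t39519.1⟩, ⟨H _ t39519.2.1, H _ t39519.2.2.1⟩⟩, ⟨⟨H _ t39519.2.2.2.1, H _ t39519.2.2.2.2.1⟩, ⟨H _ t39519.2.2.2.2.2.1, ⟨H _ t39519.2.2.2.2.2.2.1, H _ t39519.2.2.2.2.2.2.2⟩⟩⟩⟩⟩⟩⟩⟩⟩, ⟨⟨⟨⟨⟨⟨⟨⟨H _ t39527.1, H _ t39527.2.1⟩, ⟨H _ t39527.2.2.1, H _ t39527.2.2.2.1⟩⟩, ⟨⟨H _ t39527.2.2.2.2.1, H _ t39527.2.2.2.2.2.1⟩, ⟨H _ t39527.2.2.2.2.2.2.1, H _ t39527.2.2.2.2.2.2.2⟩⟩⟩, ⟨⟨⟨H _ t39535.1, H _ t39535.2.1⟩, ⟨H _ t39535.2.2.1, H _ t39535.2.2.2.1⟩⟩, ⟨⟨H _ t39535.2.2.2.2.1, H _ t39535.2.2.2.2.2.1⟩, ⟨H _ t39535.2.2.2.2.2.2.1, ⟨H _ t39535.2.2.2.2.2.2.2, H _ t39543.1⟩⟩⟩⟩⟩, ⟨⟨⟨⟨H _ t39543.2.1, H _ t39543.2.2.1⟩, ⟨H _ t39543.2.2.2.1, H _ t39543.2.2.2.2.1⟩⟩, ⟨⟨H _ t39543.2.2.2.2.2.1, H _ t39543.2.2.2.2.2.2.1⟩,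 ⟨H _ t39543.2.2.2.2.2.2.2, ⟨H _ t39551.1, H _ t39551.2.1⟩⟩⟩⟩, ⟨⟨⟨H _ t39551.2.2.1, H _ t39551.2.2.2.1⟩, ⟨H _ t39551.2.2.2.2.1, H _ t39551.2.2.2.2.2.1⟩⟩, ⟨⟨H _ t39551.2.2.2.2.2.2.1, H _ t39551.2.2.2.2.2.2.2⟩, ⟨H _ t39559.1, ⟨H _ t39559.2.1, H _ t39559.2.2.1⟩⟩⟩⟩⟩⟩, ⟨⟨⟨⟨⟨H _ t39559.2.2.2.1, H _ t39559.2.2.2.2.1⟩, ⟨H _ t39559.2.2.2.2.2.1, H _ t39559.2.2.2.2.2.2.1⟩⟩, ⟨⟨H _ t39559.2.2.2.2.2.2.2, H _ t39567.1⟩, ⟨H _ t39567.2.1, H _ t39567.2.2.1⟩⟩⟩, ⟨⟨⟨H _ t39567.2.2.2.1, H _ t39567.2.2.2.2.1⟩, ⟨H _ t39567.2.2.2.2.2.1, H _ t39567.2.2.2.2.2.2.1⟩⟩, ⟨⟨H _ t39567.2.2.2.2.2.2.2, H _ t39575.1⟩, ⟨H _ t39575.2.1, ⟨H _ t39575.2.2.1, H _ t39575.2.2.2.1⟩⟩⟩⟩⟩, ⟨⟨⟨⟨H _ t39575.2.2.2.2.1, H _ t39575.2.2.2.2.2.1⟩, ⟨H _ t39575.2.2.2.2.2.2.1, H _ t39575.2.2.2.2.2.2.2⟩⟩, ⟨⟨H _ t39583.1, H _ t39583.2.1⟩, ⟨H _ t39583.2.2.1, ⟨H _ t39583.2.2.2.1, H _ t39583.2.2.2.2.1⟩⟩⟩⟩, ⟨⟨⟨H _ t39583.2.2.2.2.2.1, H _ t39583.2.2.2.2.2.2.1⟩,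 ⟨H _ t39583.2.2.2.2.2.2.2, H _ t39591.1⟩⟩, ⟨⟨H _ t39591.2.1, H _ t39591.2.2.1⟩, ⟨H _ t39591.2.2.2.1, ⟨H _ t39591.2.2.2.2.1, H _ t39591.2.2.2.2.2.1⟩⟩⟩⟩⟩⟩⟩, ⟨⟨⟨⟨⟨⟨H _ t39591.2.2.2.2.2.2.1, H _ t39591.2.2.2.2.2.2.2⟩, ⟨H _ t39599.1, H _ t39599.2.1⟩⟩, ⟨⟨H _ t39599.2.2.1, H _ t39599.2.2.2.1⟩, ⟨H _ t39599.2.2.2.2.1, H _ t39599.2.2.2.2.2.1⟩⟩⟩, ⟨⟨⟨H _ t39599.2.2.2.2.2.2.1, H _ t39599.2.2.2.2.2.2.2⟩, ⟨H _ t39607.1, H _ t39607.2.1⟩⟩, ⟨⟨H _ t39607.2.2.1, H _ t39607.2.2.2.1⟩, ⟨H _ t39607.2.2.2.2.1, ⟨H _ t39607.2.2.2.2.2.1, H _ t39607.2.2.2.2.2.2.1⟩⟩⟩⟩⟩, ⟨⟨⟨⟨H _ t39607.2.2.2.2.2.2.2, H _ t39615.1⟩, ⟨H _ t39615.2.1, H _ t39615.2.2.1⟩⟩, ⟨⟨H _ t39615.2.2.2.1, H _ t39615.2.2.2.2.1⟩, ⟨H _ t39615.2.2.2.2.2.1, ⟨H _ t39615.2.2.2.2.2.2.1, H _ t39615.2.2.2.2.2.2.2⟩⟩⟩⟩, ⟨⟨⟨H _ t39623.1, H _ t39623.2.1⟩, ⟨H _ t39623.2.2.1, H _ t39623.2.2.2.1⟩⟩, ⟨⟨H _ t39623.2.2.2.2.1, H _ t39623.2.2.2.2.2.1⟩, ⟨H _ t39623.2.2.2.2.2.2.1,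 ⟨H _ t39623.2.2.2.2.2.2.2, H _ t39631.1⟩⟩⟩⟩⟩⟩, ⟨⟨⟨⟨⟨H _ t39631.2.1, H _ t39631.2.2.1⟩, ⟨H _ t39631.2.2.2.1, H _ t39631.2.2.2.2.1⟩⟩, ⟨⟨H _ t39631.2.2.2.2.2.1, H _ t39631.2.2.2.2.2.2.1⟩, ⟨H _ t39631.2.2.2.2.2.2.2, H _ t39639.1⟩⟩⟩, ⟨⟨⟨H _ t39639.2.1, H _ t39639.2.2.1⟩, ⟨H _ t39639.2.2.2.1, H _ t39639.2.2.2.2.1⟩⟩, ⟨⟨H _ t39639.2.2.2.2.2.1, H _ t39639.2.2.2.2.2.2.1⟩, ⟨H _ t39639.2.2.2.2.2.2.2, ⟨H _ t39647.1, H _ t39647.2.1⟩⟩⟩⟩⟩, ⟨⟨⟨⟨H _ t39647.2.2.1, H _ t39647.2.2.2.1⟩, ⟨H _ t39647.2.2.2.2.1, H _ t39647.2.2.2.2.2.1⟩⟩, ⟨⟨H _ t39647.2.2.2.2.2.2.1, H _ t39647.2.2.2.2.2.2.2⟩, ⟨H _ t39655.1, ⟨H _ t39655.2.1, H _ t39655.2.2.1⟩⟩⟩⟩, ⟨⟨⟨H _ t39655.2.2.2.1, H _ t39655.2.2.2.2.1⟩, ⟨H _ t39655.2.2.2.2.2.1, H _ t39655.2.2.2.2.2.2.1⟩⟩, ⟨⟨H _ t39655.2.2.2.2.2.2.2, H _ t39663.1⟩, ⟨H _ t39663.2.1, ⟨H _ t39663.2.2.1, H _ t39663.2.2.2.1⟩⟩⟩⟩⟩⟩⟩⟩, ⟨⟨⟨⟨⟨⟨⟨H _ t39663.2.2.2.2.1, H _ t39663.2.2.2.2.2.1⟩, ⟨H _ t39663.2.2.2.2.2.2.1,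 H _ t39663.2.2.2.2.2.2.2⟩⟩, ⟨⟨H _ t39671.1, H _ t39671.2.1⟩, ⟨H _ t39671.2.2.1, H _ t39671.2.2.2.1⟩⟩⟩, ⟨⟨⟨H _ t39671.2.2.2.2.1, H _ t39671.2.2.2.2.2.1⟩, ⟨H _ t39671.2.2.2.2.2.2.1, H _ t39671.2.2.2.2.2.2.2⟩⟩, ⟨⟨H _ t39679.1, H _ t39679.2.1⟩, ⟨H _ t39679.2.2.1, ⟨H _ t39679.2.2.2.1, H _ t39679.2.2.2.2.1⟩⟩⟩⟩⟩, ⟨⟨⟨⟨H _ t39679.2.2.2.2.2.1, H _ t39679.2.2.2.2.2.2.1⟩, ⟨H _ t39679.2.2.2.2.2.2.2, H _ t39687.1⟩⟩, ⟨⟨H _ t39687.2.1, H _ t39687.2.2.1⟩, ⟨H _ t39687.2.2.2.1, ⟨H _ t39687.2.2.2.2.1, H _ t39687.2.2.2.2.2.1⟩⟩⟩⟩, ⟨⟨⟨H _ t39687.2.2.2.2.2.2.1, H _ t39687.2.2.2.2.2.2.2⟩, ⟨H _ t39695.1, H _ t39695.2.1⟩⟩, ⟨⟨H _ t39695.2.2.1, H _ t39695.2.2.2.1⟩, ⟨H _ t39695.2.2.2.2.1, ⟨H _ t39695.2.2.2.2.2.1, H _ t39695.2.2.2.2.2.2.1⟩⟩⟩⟩⟩⟩, ⟨⟨⟨⟨⟨H _ t39695.2.2.2.2.2.2.2, H _ t39703.1⟩, ⟨H _ t39703.2.1, H _ t39703.2.2.1⟩⟩, ⟨⟨H _ t39703.2.2.2.1, H _ t39703.2.2.2.2.1⟩, ⟨H _ t39703.2.2.2.2.2.1, H _ t39703.2.2.2.2.2.2.1⟩⟩⟩,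 ⟨⟨⟨H _ t39703.2.2.2.2.2.2.2, H _ t39711.1⟩, ⟨H _ t39711.2.1, H _ t39711.2.2.1⟩⟩, ⟨⟨H _ t39711.2.2.2.1, H _ t39711.2.2.2.2.1⟩, ⟨H _ t39711.2.2.2.2.2.1, ⟨H _ t39711.2.2.2.2.2.2.1, H _ t39711.2.2.2.2.2.2.2⟩⟩⟩⟩⟩, ⟨⟨⟨⟨H _ t39719.1, H _ t39719.2.1⟩, ⟨H _ t39719.2.2.1, H _ t39719.2.2.2.1⟩⟩, ⟨⟨H _ t39719.2.2.2.2.1, H _ t39719.2.2.2.2.2.1⟩, ⟨H _ t39719.2.2.2.2.2.2.1, ⟨H _ t39719.2.2.2.2.2.2.2, H _ t39727.1⟩⟩⟩⟩, ⟨⟨⟨H _ t39727.2.1, H _ t39727.2.2.1⟩, ⟨H _ t39727.2.2.2.1, H _ t39727.2.2.2.2.1⟩⟩, ⟨⟨H _ t39727.2.2.2.2.2.1, H _ t39727.2.2.2.2.2.2.1⟩, ⟨H _ t39727.2.2.2.2.2.2.2, ⟨H _ t39735.1, H _ t39735.2.1⟩⟩⟩⟩⟩⟩⟩, ⟨⟨⟨⟨⟨⟨H _ t39735.2.2.1, H _ t39735.2.2.2.1⟩, ⟨H _ t39735.2.2.2.2.1, H _ t39735.2.2.2.2.2.1⟩⟩, ⟨⟨H _ t39735.2.2.2.2.2.2.1, H _ t39735.2.2.2.2.2.2.2⟩, ⟨H _ t39743.1, H _ t39743.2.1⟩⟩⟩, ⟨⟨⟨H _ t39743.2.2.1, H _ t39743.2.2.2.1⟩, ⟨H _ t39743.2.2.2.2.1, H _ t39743.2.2.2.2.2.1⟩⟩, ⟨⟨H _ t39743.2.2.2.2.2.2.1,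 H _ t39743.2.2.2.2.2.2.2⟩, ⟨H _ t39751.1, ⟨H _ t39751.2.1, H _ t39751.2.2.1⟩⟩⟩⟩⟩, ⟨⟨⟨⟨H _ t39751.2.2.2.1, H _ t39751.2.2.2.2.1⟩, ⟨H _ t39751.2.2.2.2.2.1, H _ t39751.2.2.2.2.2.2.1⟩⟩, ⟨⟨H _ t39751.2.2.2.2.2.2.2, H _ t39759.1⟩, ⟨H _ t39759.2.1, ⟨H _ t39759.2.2.1, H _ t39759.2.2.2.1⟩⟩⟩⟩, ⟨⟨⟨H _ t39759.2.2.2.2.1, H _ t39759.2.2.2.2.2.1⟩, ⟨H _ t39759.2.2.2.2.2.2.1, H _ t39759.2.2.2.2.2.2.2⟩⟩, ⟨⟨H _ t39767.1, H _ t39767.2.1⟩, ⟨H _ t39767.2.2.1, ⟨H _ t39767.2.2.2.1, H _ t39767.2.2.2.2.1⟩⟩⟩⟩⟩⟩, ⟨⟨⟨⟨⟨H _ t39767.2.2.2.2.2.1, H _ t39767.2.2.2.2.2.2.1⟩, ⟨H _ t39767.2.2.2.2.2.2.2, H _ t39775.1⟩⟩, ⟨⟨H _ t39775.2.1, H _ t39775.2.2.1⟩, ⟨H _ t39775.2.2.2.1, ⟨H _ t39775.2.2.2.2.1, H _ t39775.2.2.2.2.2.1⟩⟩⟩⟩, ⟨⟨⟨H _ t39775.2.2.2.2.2.2.1, H _ t39775.2.2.2.2.2.2.2⟩, ⟨H _ t39783.1, H _ t39783.2.1⟩⟩, ⟨⟨H _ t39783.2.2.1, H _ t39783.2.2.2.1⟩, ⟨H _ t39783.2.2.2.2.1, ⟨H _ t39783.2.2.2.2.2.1, H _ t39783.2.2.2.2.2.2.1⟩⟩⟩⟩⟩,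 ⟨⟨⟨⟨H _ t39783.2.2.2.2.2.2.2, H _ t39791.1⟩, ⟨H _ t39791.2.1, H _ t39791.2.2.1⟩⟩, ⟨⟨H _ t39791.2.2.2.1, H _ t39791.2.2.2.2.1⟩, ⟨H _ t39791.2.2.2.2.2.1, ⟨H _ t39791.2.2.2.2.2.2.1, H _ t39791.2.2.2.2.2.2.2⟩⟩⟩⟩, ⟨⟨⟨H _ t39799.1, H _ t39799.2.1⟩, ⟨H _ t39799.2.2.1, H _ t39799.2.2.2.1⟩⟩, ⟨⟨H _ t39799.2.2.2.2.1, H _ t39799.2.2.2.2.2.1⟩, ⟨H _ t39799.2.2.2.2.2.2.1, ⟨H _ t39799.2.2.2.2.2.2.2, H _ t39807⟩⟩⟩⟩⟩⟩⟩⟩⟩⟩

end Pool.Agent.MP_c853c5_nt.X.C4950
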