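import Pool.Agent.MP_c853c5_nt.X.C4950.Env
import Pool.Agent.MP_c853c5_nt.X.C4950.Tab

set_option autoImplicit false
set_option maxRecDepth 8192
set_option linter.all false

namespace Pool.Agent.MP_c853c5_nt.X.C4950

open Pool.Agent.MP_c853c5_nt.X

def t39808 : allY (E.wth T2) l39808 = true ∧
    allY (E.wth T2) l39809 = true ∧
    allY (E.wth T2) l39810 = true ∧
    allY (E.wth T2) l39811 = true ∧
    allY (E.wth T2) l39812 = true ∧
    allY (E.wth T2) l39813 = true ∧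
    allY (E.wth T2) l39814 = true ∧
    allY (E.wth T2) l39815 = true :=
  ⟨by decide +kernel, by decide +kernel, by decide +kernel, by decide +kernel, by decide +kernel, by decide +kernel, by decide +kernel, by decide +kernel⟩

def t39816 : allY (E.wth T2) l39816 = true ∧
    allY (E.wth T2) l39817 = true ∧
    allY (E.wth T2) l39818 = true ∧
    allY (E.wth T2) l39819 = true ∧
    allY (E.wth T2) l39820 = true ∧
    allY (E.wth T2) l39821 = true ∧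
    allY (E.wth T2) l39822 = true ∧
    allY (E.wth T2) l39823 = true :=
  ⟨by decide +kernel, by decide +kernel, by decide +kernel, by decide +kernel, by decide +kernel, by decide +kernel, by decide +kernel, by decide +kernel⟩

def t39824 : allY (E.wth T2) l39824 = true ∧
    allY (E.wth T2) l39825 = true ∧
    allY (E.wth T2) l39826 = true ∧
    allY (E.wth T2) l39827 = true ∧
    allY (E.wth T2) l39828 = true ∧
    allY (E.wth T2) l39829 = true ∧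
    allY (E.wth T2) l39830 = true ∧
    allY (E.wth T2) l39831 = true :=
  ⟨by decide +kernel, by decide +kernel, by decide +kernel, by decide +kernel, by decide +kernel, by decide +kernel, by decide +kernel, by decide +kernel⟩

def t39832 : allY (E.wth T2) l39832 = true ∧
    allY (E.wth T2) l39833 = true ∧
    allY (E.wth T2) l39834 = true ∧
    allY (E.wth T2) l39835 = true ∧
    allY (E.wth T2) l39836 = true ∧
    allY (E.wth T2) l39837 = true ∧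
    allY (E.wth T2) l39838 = true ∧
    allY (E.wth T2) l39839 = true :=
  ⟨by decide +kernel, by decide +kernel, by decide +kernel, by decide +kernel, by decide +kernel, by decide +kernel, by decide +kernel, by decide +kernel⟩

def t39840 : allY (E.wth T2) l39840 = true ∧
    allY (E.wth T2) l39841 = true ∧
    allY (E.wth T2) l39842 = true ∧
    allY (E.wth T2) l39843 = true ∧
    allY (E.wth T2) l39844 = true ∧
    allY (E.wth T2) l39845 = true ∧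
    allY (E.wth T2) l39846 = true ∧
    allY (E.wth T2) l39847 = true :=
  ⟨by decide +kernel, by decide +kernel, by decide +kernel, by decide +kernel, by decide +kernel, by decide +kernel, by decide +kernel, by decide +kernel⟩

def t39848 : allY (E.wth T2) l39848 = true ∧
    allY (E.wth T2) l39849 = true ∧
    allY (E.wth T2) l39850 = true ∧
    allY (E.wth T2) l39851 = true ∧
    allY (E.wth T2) l39852 = true ∧
    allY (E.wth T2) l39853 = true ∧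
    allY (E.wth T2) l39854 = true ∧
    allY (E.wth T2) l39855 = true :=
  ⟨by decide +kernel, by decide +kernel, by decide +kernel, by decide +kernel, by decide +kernel, by decide +kernel, by decide +kernel, by decide +kernel⟩

def t39856 : allY (E.wth T2) l39856 = true ∧
    allY (E.wth T2) l39857 = true ∧
    allY (E.wth T2) l39858 = true ∧
    allY (E.wth T2) l39859 = true ∧
    allY (E.wth T2) l39860 = true ∧
    allY (E.wth T2) l39861 = true ∧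
    allY (E.wth T2) l39862 = true ∧
    allY (E.wth T2) l39863 = true :=
  ⟨by decide +kernel, by decide +kernel, by decide +kernel, by decide +kernel, by decide +kernel, by decide +kernel, by decide +kernel, by decide +kernel⟩

def t39864 : allY (E.wth T2) l39864 = true ∧
    allY (E.wth T2) l39865 = true ∧
    allY (E.wth T2) l39866 = true ∧
    allY (E.wth T2) l39867 = true ∧
    allY (E.wth T2) l39868 = true ∧
    allY (E.wth T2) l39869 = true ∧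
    allY (E.wth T2) l39870 = true ∧
    allY (E.wth T2) l39871 = true :=
  ⟨by decide +kernel, by decide +kernel, by decide +kernel, by decide +kernel, by decide +kernel, by decide +kernel, by decide +kernel, by decide +kernel⟩

def t39872 : allY (E.wth T2) l39872 = true ∧
    allY (E.wth T2) l39873 = true ∧
    allY (E.wth T2) l39874 = true ∧
    allY (E.wth T2) l39875 = true ∧
    allY (E.wth T2) l39876 = true ∧
    allY (E.wth T2) l39877 = true ∧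
    allY (E.wth T2) l39878 = true ∧
    allY (E.wth T2) l39879 = true :=
  ⟨by decide +kernel, by decide +kernel, by decide +kernel, by decide +kernel, by decide +kernel, by decide +kernel, by decide +kernel, by decide +kernel⟩

def t39880 : allY (E.wth T2) l39880 = true ∧
    allY (E.wth T2) l39881 = true ∧
    allY (E.wth T2) l39882 = true ∧
    allY (E.wth T2) l39883 = true ∧
    allY (E.wth T2) l39884 = true ∧
    allY (E.wth T2) l39885 = true ∧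
    allY (E.wth T2) l39886 = true ∧
    allY (E.wth T2) l39887 = true :=
  ⟨by decide +kernel, by decide +kernel, by decide +kernel, by decide +kernel, by decide +kernel, by decide +kernel, by decide +kernel, by decide +kernel⟩

def t39888 : allY (E.wth T2) l39888 = true ∧
    allY (E.wth T2) l39889 = true ∧
    allY (E.wth T2) l39890 = true ∧
    allY (E.wth T2) l39891 = true ∧
    allY (E.wth T2) l39892 = true ∧
    allY (E.wth T2) l39893 = true ∧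
    allY (E.wth T2) l39894 = true ∧
    allY (E.wth T2) l39895 = true :=
  ⟨by decide +kernel, by decide +kernel, by decide +kernel, by decide +kernel, by decide +kernel, by decide +kernel, by decide +kernel, by decide +kernel⟩

def t39896 : allY (E.wth T2) l39896 = true ∧
    allY (E.wth T2) l39897 = true ∧
    allY (E.wth T2) l39898 = true ∧
    allY (E.wth T2) l39899 = true ∧
    allY (E.wth T2) l39900 = true ∧
    allY (E.wth T2) l39901 = true ∧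
    allY (E.wth T2) l39902 = true ∧
    allY (E.wth T2) l39903 = true :=
  ⟨by decide +kernel, by decide +kernel, by decide +kernel, by decide +kernel, by decide +kernel, by decide +kernel, by decide +kernel, by decide +kernel⟩

def t39904 : allY (E.wth T2) l39904 = true ∧
    allY (E.wth T2) l39905 = true ∧
    allY (E.wth T2) l39906 = true ∧
    allY (E.wth T2) l39907 = true ∧
    allY (E.wth T2) l39908 = true ∧
    allY (E.wth T2) l39909 = true ∧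
    allY (E.wth T2) l39910 = true ∧
    allY (E.wth T2) l39911 = true :=
  ⟨by decide +kernel, by decide +kernel, by decide +kernel, by decide +kernel, by decide +kernel, by decide +kernel, by decide +kernel, by decide +kernel⟩

def t39912 : allY (E.wth T2) l39912 = true ∧
    allY (E.wth T2) l39913 = true ∧
    allY (E.wth T2) l39914 = true ∧
    allY (E.wth T2) l39915 = true ∧
    allY (E.wth T2) l39916 = true ∧
    allY (E.wth T2) l39917 = true ∧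
    allY (E.wth T2) l39918 = true ∧
    allY (E.wth T2) l39919 = true :=
  ⟨by decide +kernel, by decide +kernel, by decide +kernel, by decide +kernel, by decide +kernel, by decide +kernel, by decide +kernel, by decide +kernel⟩

def t39920 : allY (E.wth T2) l39920 = true ∧
    allY (E.wth T2) l39921 = true ∧
    allY (E.wth T2) l39922 = true ∧
    allY (E.wth T2) l39923 = true ∧
    allY (E.wth T2) l39924 = true ∧
    allY (E.wth T2) l39925 = true ∧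
    allY (E.wth T2) l39926 = true ∧
    allY (E.wth T2) l39927 = true :=
  ⟨by decide +kernel, by decide +kernel, by decide +kernel, by decide +kernel, by decide +kernel, by decide +kernel, by decide +kernel, by decide +kernel⟩

def t39928 : allY (E.wth T2) l39928 = true ∧
    allY (E.wth T2) l39929 = true ∧
    allY (E.wth T2) l39930 = true ∧
    allY (E.wth T2) l39931 = true ∧
    allY (E.wth T2) l39932 = true ∧
    allY (E.wth T2) l39933 = true ∧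
    allY (E.wth T2) l39934 = true ∧
    allY (E.wth T2) l39935 = true :=
  ⟨by decide +kernel, by decide +kernel, by decide +kernel, by decide +kernel, by decide +kernel, by decide +kernel, by decide +kernel, by decide +kernel⟩

def t39936 : allY (E.wth T2) l39936 = true ∧
    allY (E.wth T2) l39937 = true ∧
    allY (E.wth T2) l39938 = true ∧
    allY (E.wth T2) l39939 = true ∧
    allY (E.wth T2) l39940 = true ∧
    allY (E.wth T2) l39941 = true ∧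
    allY (E.wth T2) l39942 = true ∧
    allY (E.wth T2) l39943 = true :=
  ⟨by decide +kernel, by decide +kernel, by decide +kernel, by decide +kernel, by decide +kernel, by decide +kernel, by decide +kernel, by decide +kernel⟩

def t39944 : allY (E.wth T2) l39944 = true ∧
    allY (E.wth T2) l39945 = true ∧
    allY (E.wth T2) l39946 = true ∧
    allY (E.wth T2) l39947 = true ∧
    allY (E.wth T2) l39948 = true ∧
    allY (E.wth T2) l39949 = true ∧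
    allY (E.wth T2) l39950 = true ∧
    allY (E.wth T2) l39951 = true :=
  ⟨by decide +kernel, by decide +kernel, by decide +kernel, by decide +kernel, by decide +kernel, by decide +kernel, by decide +kernel, by decide +kernel⟩

def t39952 : allY (E.wth T2) l39952 = true ∧
    allY (E.wth T2) l39953 = true ∧
    allY (E.wth T2) l39954 = true ∧
    allY (E.wth T2) l39955 = true ∧
    allY (E.wth T2) l39956 = true ∧
    allY (E.wth T2) l39957 = true ∧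
    allY (E.wth T2) l39958 = true ∧
    allY (E.wth T2) l39959 = true :=
  ⟨by decide +kernel, by decide +kernel, by decide +kernel, by decide +kernel, by decide +kernel, by decide +kernel, by decide +kernel, by decide +kernel⟩

def t39960 : allY (E.wth T2) l39960 = true ∧
    allY (E.wth T2) l39961 = true ∧
    allY (E.wth T2) l39962 = true ∧
    allY (E.wth T2) l39963 = true ∧
    allY (E.wth T2) l39964 = true ∧
    allY (E.wth T2) l39965 = true ∧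
    allY (E.wth T2) l39966 = true ∧
    allY (E.wth T2) l39967 = true :=
  ⟨by decide +kernel, by decide +kernel, by decide +kernel, by decide +kernel, by decide +kernel, by decide +kernel, by decide +kernel, by decide +kernel⟩

def t39968 : allY (E.wth T2) l39968 = true ∧
    allY (E.wth T2) l39969 = true ∧
    allY (E.wth T2) l39970 = true ∧
    allY (E.wth T2) l39971 = true ∧
    allY (E.wth T2) l39972 = true ∧
    allY (E.wth T2) l39973 = true ∧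
    allY (E.wth T2) l39974 = true ∧
    allY (E.wth T2) l39975 = true :=
  ⟨by decide +kernel, by decide +kernel, by decide +kernel, by decide +kernel, by decide +kernel, by decide +kernel, by decide +kernel, by decide +kernel⟩

def t39976 : allY (E.wth T2) l39976 = true ∧
    allY (E.wth T2) l39977 = true ∧
    allY (E.wth T2) l39978 = true ∧
    allY (E.wth T2) l39979 = true ∧
    allY (E.wth T2) l39980 = true ∧
    allY (E.wth T2) l39981 = true ∧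
    allY (E.wth T2) l39982 = true ∧
    allY (E.wth T2) l39983 = true :=
  ⟨by decide +kernel, by decide +kernel, by decide +kernel, by decide +kernel, by decide +kernel, by decide +kernel, by decide +kernel, by decide +kernel⟩

def t39984 : allY (E.wth T2) l39984 = true ∧
    allY (E.wth T2) l39985 = true ∧
    allY (E.wth T2) l39986 = true ∧
    allY (E.wth T2) l39987 = true ∧
    allY (E.wth T2) l39988 = true ∧
    allY (E.wth T2) l39989 = true ∧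
    allY (E.wth T2) l39990 = true ∧
    allY (E.wth T2) l39991 = true :=
  ⟨by decide +kernel, by decide +kernel, by decide +kernel, by decide +kernel, by decide +kernel, by decide +kernel, by decide +kernel, by decide +kernel⟩

def t39992 : allY (E.wth T2) l39992 = true ∧
    allY (E.wth T2) l39993 = true ∧
    allY (E.wth T2) l39994 = true ∧
    allY (E.wth T2) l39995 = true ∧
    allY (E.wth T2) l39996 = true ∧
    allY (E.wth T2) l39997 = true ∧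
    allY (E.wth T2) l39998 = true ∧
    allY (E.wth T2) l39999 = true :=
  ⟨by decide +kernel, by decide +kernel, by decide +kernel, by decide +kernel, by decide +kernel, by decide +kernel, by decide +kernel, by decide +kernel⟩

def t40000 : allY (E.wth T2) l40000 = true ∧
    allY (E.wth T2) l40001 = true ∧
    allY (E.wth T2) l40002 = true ∧
    allY (E.wth T2) l40003 = true ∧
    allY (E.wth T2) l40004 = true ∧
    allY (E.wth T2) l40005 = true ∧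
    allY (E.wth T2) l40006 = true ∧
    allY (E.wth T2) l40007 = true :=
  ⟨by decide +kernel, by decide +kernel, by decide +kernel, by decide +kernel, by decide +kernel, by decide +kernel, by decide +kernel, by decide +kernel⟩

def t40008 : allY (E.wth T2) l40008 = true ∧
    allY (E.wth T2) l40009 = true ∧
    allY (E.wth T2) l40010 = true ∧
    allY (E.wth T2) l40011 = true ∧
    allY (E.wth T2) l40012 = true ∧
    allY (E.wth T2) l40013 = true ∧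
    allY (E.wth T2) l40014 = true ∧
    allY (E.wth T2) l40015 = true :=
  ⟨by decide +kernel, by decide +kernel, by decide +kernel, by decide +kernel, by decide +kernel, by decide +kernel, by decide +kernel, by decide +kernel⟩

def t40016 : allY (E.wth T2) l40016 = true ∧
    allY (E.wth T2) l40017 = true ∧
    allY (E.wth T2) l40018 = true ∧
    allY (E.wth T2) l40019 = true ∧
    allY (E.wth T2) l40020 = true ∧
    allY (E.wth T2) l40021 = true ∧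
    allY (E.wth T2) l40022 = true ∧
    allY (E.wth T2) l40023 = true :=
  ⟨by decide +kernel, by decide +kernel, by decide +kernel, by decide +kernel, by decide +kernel, by decide +kernel, by decide +kernel, by decide +kernel⟩

def t40024 : allY (E.wth T2) l40024 = true ∧
    allY (E.wth T2) l40025 = true ∧
    allY (E.wth T2) l40026 = true ∧
    allY (E.wth T2) l40027 = true ∧
    allY (E.wth T2) l40028 = true ∧
    allY (E.wth T2) l40029 = true ∧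
    allY (E.wth T2) l40030 = true ∧
    allY (E.wth T2) l40031 = true :=
  ⟨by decide +kernel, by decide +kernel, by decide +kernel, by decide +kernel, by decide +kernel, by decide +kernel, by decide +kernel, by decide +kernel⟩

def t40032 : allY (E.wth T2) l40032 = true ∧
    allY (E.wth T2) l40033 = true ∧
    allY (E.wth T2) l40034 = true ∧
    allY (E.wth T2) l40035 = true ∧
    allY (E.wth T2) l40036 = true ∧
    allY (E.wth T2) l40037 = true ∧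
    allY (E.wth T2) l40038 = true ∧
    allY (E.wth T2) l40039 = true :=
  ⟨by decide +kernel, by decide +kernel, by decide +kernel, by decide +kernel, by decide +kernel, by decide +kernel, by decide +kernel, by decide +kernel⟩

def t40040 : allY (E.wth T2) l40040 = true ∧
    allY (E.wth T2) l40041 = true ∧
    allY (E.wth T2) l40042 = true ∧
    allY (E.wth T2) l40043 = true ∧
    allY (E.wth T2) l40044 = true ∧
    allY (E.wth T2) l40045 = true ∧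
    allY (E.wth T2) l40046 = true ∧
    allY (E.wth T2) l40047 = true :=
  ⟨by decide +kernel, by decide +kernel, by decide +kernel, by decide +kernel, by decide +kernel, by decide +kernel, by decide +kernel, by decide +kernel⟩

def t40048 : allY (E.wth T2) l40048 = true ∧
    allY (E.wth T2) l40049 = true ∧
    allY (E.wth T2) l40050 = true ∧
    allY (E.wth T2) l40051 = true ∧
    allY (E.wth T2) l40052 = true ∧
    allY (E.wth T2) l40053 = true ∧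
    allY (E.wth T2) l40054 = true ∧
    allY (E.wth T2) l40055 = true :=
  ⟨by decide +kernel, by decide +kernel, by decide +kernel, by decide +kernel, by decide +kernel, by decide +kernel, by decide +kernel, by decide +kernel⟩

def t40056 : allY (E.wth T2) l40056 = true ∧
    allY (E.wth T2) l40057 = true ∧
    allY (E.wth T2) l40058 = true ∧
    allY (E.wth T2) l40059 = true ∧
    allY (E.wth T2) l40060 = true ∧
    allY (E.wth T2) l40061 = true ∧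
    allY (E.wth T2) l40062 = true ∧
    allY (E.wth T2) l40063 = true :=
  ⟨by decide +kernel, by decide +kernel, by decide +kernel, by decide +kernel, by decide +kernel, by decide +kernel, by decide +kernel, by decide +kernel⟩

def t40064 : allY (E.wth T2) l40064 = true ∧
    allY (E.wth T2) l40065 = true ∧
    allY (E.wth T2) l40066 = true ∧
    allY (E.wth T2) l40067 = true ∧
    allY (E.wth T2) l40068 = true ∧
    allY (E.wth T2) l40069 = true ∧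
    allY (E.wth T2) l40070 = true ∧
    allY (E.wth T2) l40071 = true :=
  ⟨by decide +kernel, by decide +kernel, by decide +kernel, by decide +kernel, by decide +kernel, by decide +kernel, by decide +kernel, by decide +kernel⟩

def t40072 : allY (E.wth T2) l40072 = true ∧
    allY (E.wth T2) l40073 = true ∧
    allY (E.wth T2) l40074 = true ∧
    allY (E.wth T2) l40075 = true ∧
    allY (E.wth T2) l40076 = true ∧
    allY (E.wth T2) l40077 = true ∧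
    allY (E.wth T2) l40078 = true ∧
    allY (E.wth T2) l40079 = true :=
  ⟨by decide +kernel, by decide +kernel, by decide +kernel, by decide +kernel, by decide +kernel, by decide +kernel, by decide +kernel, by decide +kernel⟩

def t40080 : allY (E.wth T2) l40080 = true ∧
    allY (E.wth T2) l40081 = true ∧
    allY (E.wth T2) l40082 = true ∧
    allY (E.wth T2) l40083 = true ∧
    allY (E.wth T2) l40084 = true ∧
    allY (E.wth T2) l40085 = true ∧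
    allY (E.wth T2) l40086 = true ∧
    allY (E.wth T2) l40087 = true :=
  ⟨by decide +kernel, by decide +kernel, by decide +kernel, by decide +kernel, by decide +kernel, by decide +kernel, by decide +kernel, by decide +kernel⟩

def t40088 : allY (E.wth T2) l40088 = true ∧
    allY (E.wth T2) l40089 = true ∧
    allY (E.wth T2) l40090 = true ∧
    allY (E.wth T2) l40091 = true ∧
    allY (E.wth T2) l40092 = true ∧
    allY (E.wth T2) l40093 = true ∧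
    allY (E.wth T2) l40094 = true ∧
    allY (E.wth T2) l40095 = true :=
  ⟨by decide +kernel, by decide +kernel, by decide +kernel, by decide +kernel, by decide +kernel, by decide +kernel, by decide +kernel, by decide +kernel⟩

def t40096 : allY (E.wth T2) l40096 = true ∧
    allY (E.wth T2) l40097 = true ∧
    allY (E.wth T2) l40098 = true ∧
    allY (E.wth T2) l40099 = true ∧
    allY (E.wth T2) l40100 = true ∧
    allY (E.wth T2) l40101 = true ∧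
    allY (E.wth T2) l40102 = true ∧
    allY (E.wth T2) l40103 = true :=
  ⟨by decide +kernel, by decide +kernel, by decide +kernel, by decide +kernel, by decide +kernel, by decide +kernel, by decide +kernel, by decide +kernel⟩

def t40104 : allY (E.wth T2) l40104 = true ∧
    allY (E.wth T2) l40105 = true ∧
    allY (E.wth T2) l40106 = true ∧
    allY (E.wth T2) l40107 = true ∧
    allY (E.wth T2) l40108 = true ∧
    allY (E.wth T2) l40109 = true ∧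
    allY (E.wth T2) l40110 = true ∧
    allY (E.wth T2) l40111 = true :=
  ⟨by decide +kernel, by decide +kernel, by decide +kernel, by decide +kernel, by decide +kernel, by decide +kernel, by decide +kernel, by decide +kernel⟩

def t40112 : allY (E.wth T2) l40112 = true ∧
    allY (E.wth T2) l40113 = true ∧
    allY (E.wth T2) l40114 = true ∧
    allY (E.wth T2) l40115 = true ∧
    allY (E.wth T2) l40116 = true ∧
    allY (E.wth T2) l40117 = true ∧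
    allY (E.wth T2) l40118 = true ∧
    allY (E.wth T2) l40119 = true :=
  ⟨by decide +kernel, by decide +kernel, by decide +kernel, by decide +kernel, by decide +kernel, by decide +kernel, by decide +kernel, by decide +kernel⟩

def t40120 : allY (E.wth T2) l40120 = true ∧
    allY (E.wth T2) l40121 = true ∧
    allY (E.wth T2) l40122 = true ∧
    allY (E.wth T2) l40123 = true ∧
    allY (E.wth T2) l40124 = true ∧
    allY (E.wth T2) l40125 = true ∧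
    allY (E.wth T2) l40126 = true ∧
    allY (E.wth T2) l40127 = true :=
  ⟨by decide +kernel, by decide +kernel, by decide +kernel, by decide +kernel, by decide +kernel, by decide +kernel, by decide +kernel, by decide +kernel⟩

def t40128 : allY (E.wth T2) l40128 = true ∧
    allY (E.wth T2) l40129 = true ∧
    allY (E.wth T2) l40130 = true ∧
    allY (E.wth T2) l40131 = true ∧
    allY (E.wth T2) l40132 = true ∧
    allY (E.wth T2) l40133 = true ∧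
    allY (E.wth T2) l40134 = true ∧
    allY (E.wth T2) l40135 = true :=
  ⟨by decide +kernel, by decide +kernel, by decide +kernel, by decide +kernel, by decide +kernel, by decide +kernel, by decide +kernel, by decide +kernel⟩

def t40136 : allY (E.wth T2) l40136 = true ∧
    allY (E.wth T2) l40137 = true ∧
    allY (E.wth T2) l40138 = true ∧
    allY (E.wth T2) l40139 = true ∧
    allY (E.wth T2) l40140 = true ∧
    allY (E.wth T2) l40141 = true ∧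
    allY (E.wth T2) l40142 = true ∧
    allY (E.wth T2) l40143 = true :=
  ⟨by decide +kernel, by decide +kernel, by decide +kernel, by decide +kernel, by decide +kernel, by decide +kernel, by decide +kernel, by decide +kernel⟩

def t40144 : allY (E.wth T2) l40144 = true ∧
    allY (E.wth T2) l40145 = true ∧
    allY (E.wth T2) l40146 = true ∧
    allY (E.wth T2) l40147 = true ∧
    allY (E.wth T2) l40148 = true ∧
    allY (E.wth T2) l40149 = true ∧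
    allY (E.wth T2) l40150 = true ∧
    allY (E.wth T2) l40151 = true :=
  ⟨by decide +kernel, by decide +kernel, by decide +kernel, by decide +kernel, by decide +kernel, by decide +kernel, by decide +kernel, by decide +kernel⟩

def t40152 : allY (E.wth T2) l40152 = true ∧
    allY (E.wth T2) l40153 = true ∧
    allY (E.wth T2) l40154 = true ∧
    allY (E.wth T2) l40155 = true ∧
    allY (E.wth T2) l40156 = true ∧
    allY (E.wth T2) l40157 = true ∧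
    allY (E.wth T2) l40158 = true ∧
    allY (E.wth T2) l40159 = true :=
  ⟨by decide +kernel, by decide +kernel, by decide +kernel, by decide +kernel, by decide +kernel, by decide +kernel, by decide +kernel, by decide +kernel⟩

def t40160 : allY (E.wth T2) l40160 = true ∧
    allY (E.wth T2) l40161 = true ∧
    allY (E.wth T2) l40162 = true ∧
    allY (E.wth T2) l40163 = true ∧
    allY (E.wth T2) l40164 = true ∧
    allY (E.wth T2) l40165 = true ∧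
    allY (E.wth T2) l40166 = true ∧
    allY (E.wth T2) l40167 = true :=
  ⟨by decide +kernel, by decide +kernel, by decide +kernel, by decide +kernel, by decide +kernel, by decide +kernel, by decide +kernel, by decide +kernel⟩

def t40168 : allY (E.wth T2) l40168 = true ∧
    allY (E.wth T2) l40169 = true ∧
    allY (E.wth T2) l40170 = true ∧
    allY (E.wth T2) l40171 = true ∧
    allY (E.wth T2) l40172 = true ∧
    allY (E.wth T2) l40173 = true ∧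
    allY (E.wth T2) l40174 = true ∧
    allY (E.wth T2) l40175 = true :=
  ⟨by decide +kernel, by decide +kernel, by decide +kernel, by decide +kernel, by decide +kernel, by decide +kernel, by decide +kernel, by decide +kernel⟩

def t40176 : allY (E.wth T2) l40176 = true ∧
    allY (E.wth T2) l40177 = true ∧
    allY (E.wth T2) l40178 = true ∧
    allY (E.wth T2) l40179 = true ∧
    allY (E.wth T2) l40180 = true ∧
    allY (E.wth T2) l40181 = true ∧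
    allY (E.wth T2) l40182 = true ∧
    allY (E.wth T2) l40183 = true :=
  ⟨by decide +kernel, by decide +kernel, by decide +kernel, by decide +kernel, by decide +kernel, by decide +kernel, by decide +kernel, by decide +kernel⟩

def t40184 : allY (E.wth T2) l40184 = true ∧
    allY (E.wth T2) l40185 = true ∧
    allY (E.wth T2) l40186 = true ∧
    allY (E.wth T2) l40187 = true ∧
    allY (E.wth T2) l40188 = true ∧
    allY (E.wth T2) l40189 = true ∧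
    allY (E.wth T2) l40190 = true ∧
    allY (E.wth T2) l40191 = true :=
  ⟨by decide +kernel, by decide +kernel, by decide +kernel, by decide +kernel, by decide +kernel, by decide +kernel, by decide +kernel, by decide +kernel⟩

def t40192 : allY (E.wth T2) l40192 = true ∧
    allY (E.wth T2) l40193 = true ∧
    allY (E.wth T2) l40194 = true ∧
    allY (E.wth T2) l40195 = true ∧
    allY (E.wth T2) l40196 = true ∧
    allY (E.wth T2) l40197 = true ∧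
    allY (E.wth T2) l40198 = true ∧
    allY (E.wth T2) l40199 = true :=
  ⟨by decide +kernel, by decide +kernel, by decide +kernel, by decide +kernel, by decide +kernel, by decide +kernel, by decide +kernel, by decide +kernel⟩

def t40200 : allY (E.wth T2) l40200 = true ∧
    allY (E.wth T2) l40201 = true ∧
    allY (E.wth T2) l40202 = true ∧
    allY (E.wth T2) l40203 = true ∧
    allY (E.wth T2) l40204 = true ∧
    allY (E.wth T2) l40205 = true ∧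
    allY (E.wth T2) l40206 = true ∧
    allY (E.wth T2) l40207 = true :=
  ⟨by decide +kernel, by decide +kernel, by decide +kernel, by decide +kernel, by decide +kernel, by decide +kernel, by decide +kernel, by decide +kernel⟩

def t40208 : allY (E.wth T2) l40208 = true ∧
    allY (E.wth T2) l40209 = true ∧
    allY (E.wth T2) l40210 = true ∧
    allY (E.wth T2) l40211 = true ∧
    allY (E.wth T2) l40212 = true ∧
    allY (E.wth T2) l40213 = true ∧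
    allY (E.wth T2) l40214 = true ∧
    allY (E.wth T2) l40215 = true :=
  ⟨by decide +kernel, by decide +kernel, by decide +kernel, by decide +kernel, by decide +kernel, by decide +kernel, by decide +kernel, by decide +kernel⟩

def t40216 : allY (E.wth T2) l40216 = true ∧
    allY (E.wth T2) l40217 = true ∧
    allY (E.wth T2) l40218 = true ∧
    allY (E.wth T2) l40219 = true ∧
    allY (E.wth T2) l40220 = true ∧
    allY (E.wth T2) l40221 = true ∧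
    allY (E.wth T2) l40222 = true ∧
    allY (E.wth T2) l40223 = true :=
  ⟨by decide +kernel, by decide +kernel, by decide +kernel, by decide +kernel, by decide +kernel, by decide +kernel, by decide +kernel, by decide +kernel⟩

def t40224 : allY (E.wth T2) l40224 = true ∧
    allY (E.wth T2) l40225 = true ∧
    allY (E.wth T2) l40226 = true ∧
    allY (E.wth T2) l40227 = true ∧
    allY (E.wth T2) l40228 = true ∧
    allY (E.wth T2) l40229 = true ∧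
    allY (E.wth T2) l40230 = true ∧
    allY (E.wth T2) l40231 = true :=
  ⟨by decide +kernel, by decide +kernel, by decide +kernel, by decide +kernel, by decide +kernel, by decide +kernel, by decide +kernel, by decide +kernel⟩

def t40232 : allY (E.wth T2) l40232 = true ∧
    allY (E.wth T2) l40233 = true ∧
    allY (E.wth T2) l40234 = true ∧
    allY (E.wth T2) l40235 = true ∧
    allY (E.wth T2) l40236 = true ∧
    allY (E.wth T2) l40237 = true ∧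
    allY (E.wth T2) l40238 = true ∧
    allY (E.wth T2) l40239 = true :=
  ⟨by decide +kernel, by decide +kernel, by decide +kernel, by decide +kernel, by decide +kernel, by decide +kernel, by decide +kernel, by decide +kernel⟩

def t40240 : allY (E.wth T2) l40240 = true ∧
    allY (E.wth T2) l40241 = true ∧
    allY (E.wth T2) l40242 = true ∧
    allY (E.wth T2) l40243 = true ∧
    allY (E.wth T2) l40244 = true ∧
    allY (E.wth T2) l40245 = true ∧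
    allY (E.wth T2) l40246 = true ∧
    allY (E.wth T2) l40247 = true :=
  ⟨by decide +kernel, by decide +kernel, by decide +kernel, by decide +kernel, by decide +kernel, by decide +kernel, by decide +kernel, by decide +kernel⟩

def t40248 : allY (E.wth T2) l40248 = true ∧
    allY (E.wth T2) l40249 = true ∧
    allY (E.wth T2) l40250 = true ∧
    allY (E.wth T2) l40251 = true ∧
    allY (E.wth T2) l40252 = true ∧
    allY (E.wth T2) l40253 = true ∧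
    allY (E.wth T2) l40254 = true ∧
    allY (E.wth T2) l40255 = true :=
  ⟨by decide +kernel, by decide +kernel, by decide +kernel, by decide +kernel, by decide +kernel, by decide +kernel, by decide +kernel, by decide +kernel⟩

def t40256 : allY (E.wth T2) l40256 = true ∧
    allY (E.wth T2) l40257 = true ∧
    allY (E.wth T2) l40258 = true ∧
    allY (E.wth T2) l40259 = true ∧
    allY (E.wth T2) l40260 = true ∧
    allY (E.wth T2) l40261 = true ∧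
    allY (E.wth T2) l40262 = true ∧
    allY (E.wth T2) l40263 = true :=
  ⟨by decide +kernel, by decide +kernel, by decide +kernel, by decide +kernel, by decide +kernel, by decide +kernel, by decide +kernel, by decide +kernel⟩

def t40264 : allY (E.wth T2) l40264 = true ∧
    allY (E.wth T2) l40265 = true ∧
    allY (E.wth T2) l40266 = true ∧
    allY (E.wth T2) l40267 = true ∧
    allY (E.wth T2) l40268 = true ∧
    allY (E.wth T2) l40269 = true ∧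
    allY (E.wth T2) l40270 = true ∧
    allY (E.wth T2) l40271 = true :=
  ⟨by decide +kernel, by decide +kernel, by decide +kernel, by decide +kernel, by decide +kernel, by decide +kernel, by decide +kernel, by decide +kernel⟩

def t40272 : allY (E.wth T2) l40272 = true ∧
    allY (E.wth T2) l40273 = true ∧
    allY (E.wth T2) l40274 = true ∧
    allY (E.wth T2) l40275 = true ∧
    allY (E.wth T2) l40276 = true ∧
    allY (E.wth T2) l40277 = true ∧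
    allY (E.wth T2) l40278 = true ∧
    allY (E.wth T2) l40279 = true :=
  ⟨by decide +kernel, by decide +kernel, by decide +kernel, by decide +kernel, by decide +kernel, by decide +kernel, by decide +kernel, by decide +kernel⟩

def t40280 : allY (E.wth T2) l40280 = true ∧
    allY (E.wth T2) l40281 = true ∧
    allY (E.wth T2) l40282 = true ∧
    allY (E.wth T2) l40283 = true ∧
    allY (E.wth T2) l40284 = true ∧
    allY (E.wth T2) l40285 = true ∧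
    allY (E.wth T2) l40286 = true ∧
    allY (E.wth T2) l40287 = true :=
  ⟨by decide +kernel, by decide +kernel, by decide +kernel, by decide +kernel, by decide +kernel, by decide +kernel, by decide +kernel, by decide +kernel⟩

def t40288 : allY (E.wth T2) l40288 = true ∧
    allY (E.wth T2) l40289 = true ∧
    allY (E.wth T2) l40290 = true ∧
    allY (E.wth T2) l40291 = true ∧
    allY (E.wth T2) l40292 = true ∧
    allY (E.wth T2) l40293 = true ∧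
    allY (E.wth T2) l40294 = true ∧
    allY (E.wth T2) l40295 = true :=
  ⟨by decide +kernel, by decide +kernel, by decide +kernel, by decide +kernel, by decide +kernel, by decide +kernel, by decide +kernel, by decide +kernel⟩

def t40296 : allY (E.wth T2) l40296 = true ∧
    allY (E.wth T2) l40297 = true ∧
    allY (E.wth T2) l40298 = true ∧
    allY (E.wth T2) l40299 = true ∧
    allY (E.wth T2) l40300 = true ∧
    allY (E.wth T2) l40301 = true ∧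
    allY (E.wth T2) l40302 = true ∧
    allY (E.wth T2) l40303 = true :=
  ⟨by decide +kernel, by decide +kernel, by decide +kernel, by decide +kernel, by decide +kernel, by decide +kernel, by decide +kernel, by decide +kernel⟩

def t40304 : allY (E.wth T2) l40304 = true ∧
    allY (E.wth T2) l40305 = true ∧
    allY (E.wth T2) l40306 = true ∧
    allY (E.wth T2) l40307 = true ∧
    allY (E.wth T2) l40308 = true ∧
    allY (E.wth T2) l40309 = true ∧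
    allY (E.wth T2) l40310 = true ∧
    allY (E.wth T2) l40311 = true :=
  ⟨by decide +kernel, by decide +kernel, by decide +kernel, by decide +kernel, by decide +kernel, by decide +kernel, by decide +kernel, by decide +kernel⟩

def t40312 : allY (E.wth T2) l40312 = true ∧
    allY (E.wth T2) l40313 = true ∧
    allY (E.wth T2) l40314 = true ∧
    allY (E.wth T2) l40315 = true ∧
    allY (E.wth T2) l40316 = true ∧
    allY (E.wth T2) l40317 = true ∧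
    allY (E.wth T2) l40318 = true ∧
    allY (E.wth T2) l40319 = true :=
  ⟨by decide +kernel, by decide +kernel, by decide +kernel, by decide +kernel, by decide +kernel, by decide +kernel, by decide +kernel, by decide +kernel⟩

def t40320 : allY (E.wth T2) l40320 = true ∧
    allY (E.wth T2) l40321 = true ∧
    allY (E.wth T2) l40322 = true ∧
    allY (E.wth T2) l40323 = true ∧
    allY (E.wth T2) l40324 = true ∧
    allY (E.wth T2) l40325 = true ∧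
    allY (E.wth T2) l40326 = true ∧
    allY (E.wth T2) l40327 = true :=
  ⟨by decide +kernel, by decide +kernel, by decide +kernel, by decide +kernel, by decide +kernel, by decide +kernel, by decide +kernel, by decide +kernel⟩

def t40328 : allY (E.wth T2) l40328 = true ∧
    allY (E.wth T2) l40329 = true ∧
    allY (E.wth T2) l40330 = true ∧
    allY (E.wth T2) l40331 = true ∧
    allY (E.wth T2) l40332 = true ∧
    allY (E.wth T2) l40333 = true ∧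
    allY (E.wth T2) l40334 = true ∧
    allY (E.wth T2) l40335 = true :=
  ⟨by decide +kernel, by decide +kernel, by decide +kernel, by decide +kernel, by decide +kernel, by decide +kernel, by decide +kernel, by decide +kernel⟩

def t40336 : allY (E.wth T2) l40336 = true ∧
    allY (E.wth T2) l40337 = true ∧
    allY (E.wth T2) l40338 = true ∧
    allY (E.wth T2) l40339 = true ∧
    allY (E.wth T2) l40340 = true ∧
    allY (E.wth T2) l40341 = true ∧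
    allY (E.wth T2) l40342 = true ∧
    allY (E.wth T2) l40343 = true :=
  ⟨by decide +kernel, by decide +kernel, by decide +kernel, by decide +kernel, by decide +kernel, by decide +kernel, by decide +kernel, by decide +kernel⟩

def t40344 : allY (E.wth T2) l40344 = true ∧
    allY (E.wth T2) l40345 = true ∧
    allY (E.wth T2) l40346 = true ∧
    allY (E.wth T2) l40347 = true ∧
    allY (E.wth T2) l40348 = true ∧
    allY (E.wth T2) l40349 = true ∧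
    allY (E.wth T2) l40350 = true ∧
    allY (E.wth T2) l40351 = true :=
  ⟨by decide +kernel, by decide +kernel, by decide +kernel, by decide +kernel, by decide +kernel, by decide +kernel, by decide +kernel, by decide +kernel⟩

def t40352 : allY (E.wth T2) l40352 = true ∧
    allY (E.wth T2) l40353 = true ∧
    allY (E.wth T2) l40354 = true ∧
    allY (E.wth T2) l40355 = true ∧
    allY (E.wth T2) l40356 = true ∧
    allY (E.wth T2) l40357 = true ∧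
    allY (E.wth T2) l40358 = true ∧
    allY (E.wth T2) l40359 = true :=
  ⟨by decide +kernel, by decide +kernel, by decide +kernel, by decide +kernel, by decide +kernel, by decide +kernel, by decide +kernel, by decide +kernel⟩

def t40360 : allY (E.wth T2) l40360 = true ∧
    allY (E.wth T2) l40361 = true ∧
    allY (E.wth T2) l40362 = true ∧
    allY (E.wth T2) l40363 = true ∧
    allY (E.wth T2) l40364 = true ∧
    allY (E.wth T2) l40365 = true :=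
  ⟨by decide +kernel, by decide +kernel, by decide +kernel, by decide +kernel, by decide +kernel, by decide +kernel⟩

theorem a73 {p : Rf → Prop} (H : ∀ l, allY (E.wth T2) l = true → (lkp l).All p) :
    b73.All p := ⟨⟨⟨⟨⟨⟨⟨⟨⟨H _ t39808.1, H _ t39808.2.1⟩, ⟨H _ t39808.2.2.1, H _ t39808.2.2.2.1⟩⟩, ⟨⟨H _ t39808.2.2.2.2.1, H _ t39808.2.2.2.2.2.1⟩, ⟨H _ t39808.2.2.2.2.2.2.1, H _ t39808.2.2.2.2.2.2.2⟩⟩⟩, ⟨⟨⟨H _ t39816.1, H _ t39816.2.1⟩, ⟨H _ t39816.2.2.1, H _ t39816.2.2.2.1⟩⟩, ⟨⟨H _ t39816.2.2.2.2.1, H _ t39816.2.2.2.2.2.1⟩, ⟨H _ t39816.2.2.2.2.2.2.1, ⟨H _ t39816.2.2.2.2.2.2.2, H _ t39824.1⟩⟩⟩⟩⟩, ⟨⟨⟨⟨H _ t39824.2.1, H _ t39824.2.2.1⟩, ⟨H _ t39824.2.2.2.1, H _ t39824.2.2.2.2.1⟩⟩, ⟨⟨H _ t39824.2.2.2.2.2.1, H _ t39824.2.2.2.2.2.2.1⟩, ⟨H _ t39824.2.2.2.2.2.2.2, H _ t39832.1⟩⟩⟩, ⟨⟨⟨H _ t39832.2.1, H _ t39832.2.2.1⟩, ⟨H _ t39832.2.2.2.1, H _ t39832.2.2.2.2.1⟩⟩, ⟨⟨H _ t39832.2.2.2.2.2.1, H _ t39832.2.2.2.2.2.2.1⟩,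 ⟨H _ t39832.2.2.2.2.2.2.2, ⟨H _ t39840.1, H _ t39840.2.1⟩⟩⟩⟩⟩⟩, ⟨⟨⟨⟨⟨H _ t39840.2.2.1, H _ t39840.2.2.2.1⟩, ⟨H _ t39840.2.2.2.2.1, H _ t39840.2.2.2.2.2.1⟩⟩, ⟨⟨H _ t39840.2.2.2.2.2.2.1, H _ t39840.2.2.2.2.2.2.2⟩, ⟨H _ t39848.1, H _ t39848.2.1⟩⟩⟩, ⟨⟨⟨H _ t39848.2.2.1, H _ t39848.2.2.2.1⟩, ⟨H _ t39848.2.2.2.2.1, H _ t39848.2.2.2.2.2.1⟩⟩, ⟨⟨H _ t39848.2.2.2.2.2.2.1, H _ t39848.2.2.2.2.2.2.2⟩, ⟨H _ t39856.1, ⟨H _ t39856.2.1, H _ t39856.2.2.1⟩⟩⟩⟩⟩, ⟨⟨⟨⟨H _ t39856.2.2.2.1, H _ t39856.2.2.2.2.1⟩, ⟨H _ t39856.2.2.2.2.2.1, H _ t39856.2.2.2.2.2.2.1⟩⟩, ⟨⟨H _ t39856.2.2.2.2.2.2.2, H _ t39864.1⟩, ⟨H _ t39864.2.1, ⟨H _ t39864.2.2.1, H _ t39864.2.2.2.1⟩⟩⟩⟩, ⟨⟨⟨H _ t39864.2.2.2.2.1, H _ t39864.2.2.2.2.2.1⟩, ⟨H _ t39864.2.2.2.2.2.2.1, H _ t39864.2.2.2.2.2.2.2⟩⟩, ⟨⟨H _ t39872.1, H _ t39872.2.1⟩, ⟨H _ t39872.2.2.1, ⟨H _ t39872.2.2.2.1, H _ t39872.2.2.2.2.1⟩⟩⟩⟩⟩⟩⟩, ⟨⟨⟨⟨⟨⟨H _ t39872.2.2.2.2.2.1, H _ t39872.2.2.2.2.2.2.1⟩,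 ⟨H _ t39872.2.2.2.2.2.2.2, H _ t39880.1⟩⟩, ⟨⟨H _ t39880.2.1, H _ t39880.2.2.1⟩, ⟨H _ t39880.2.2.2.1, H _ t39880.2.2.2.2.1⟩⟩⟩, ⟨⟨⟨H _ t39880.2.2.2.2.2.1, H _ t39880.2.2.2.2.2.2.1⟩, ⟨H _ t39880.2.2.2.2.2.2.2, H _ t39888.1⟩⟩, ⟨⟨H _ t39888.2.1, H _ t39888.2.2.1⟩, ⟨H _ t39888.2.2.2.1, ⟨H _ t39888.2.2.2.2.1, H _ t39888.2.2.2.2.2.1⟩⟩⟩⟩⟩, ⟨⟨⟨⟨H _ t39888.2.2.2.2.2.2.1, H _ t39888.2.2.2.2.2.2.2⟩, ⟨H _ t39896.1, H _ t39896.2.1⟩⟩, ⟨⟨H _ t39896.2.2.1, H _ t39896.2.2.2.1⟩, ⟨H _ t39896.2.2.2.2.1, ⟨H _ t39896.2.2.2.2.2.1, H _ t39896.2.2.2.2.2.2.1⟩⟩⟩⟩, ⟨⟨⟨H _ t39896.2.2.2.2.2.2.2, H _ t39904.1⟩, ⟨H _ t39904.2.1, H _ t39904.2.2.1⟩⟩, ⟨⟨H _ t39904.2.2.2.1, H _ t39904.2.2.2.2.1⟩, ⟨H _ t39904.2.2.2.2.2.1, ⟨H _ t39904.2.2.2.2.2.2.1, H _ t39904.2.2.2.2.2.2.2⟩⟩⟩⟩⟩⟩, ⟨⟨⟨⟨⟨H _ t39912.1, H _ t39912.2.1⟩, ⟨H _ t39912.2.2.1, H _ t39912.2.2.2.1⟩⟩, ⟨⟨H _ t39912.2.2.2.2.1, H _ t39912.2.2.2.2.2.1⟩, ⟨H _ t39912.2.2.2.2.2.2.1,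 H _ t39912.2.2.2.2.2.2.2⟩⟩⟩, ⟨⟨⟨H _ t39920.1, H _ t39920.2.1⟩, ⟨H _ t39920.2.2.1, H _ t39920.2.2.2.1⟩⟩, ⟨⟨H _ t39920.2.2.2.2.1, H _ t39920.2.2.2.2.2.1⟩, ⟨H _ t39920.2.2.2.2.2.2.1, ⟨H _ t39920.2.2.2.2.2.2.2, H _ t39928.1⟩⟩⟩⟩⟩, ⟨⟨⟨⟨H _ t39928.2.1, H _ t39928.2.2.1⟩, ⟨H _ t39928.2.2.2.1, H _ t39928.2.2.2.2.1⟩⟩, ⟨⟨H _ t39928.2.2.2.2.2.1, H _ t39928.2.2.2.2.2.2.1⟩, ⟨H _ t39928.2.2.2.2.2.2.2, ⟨H _ t39936.1, H _ t39936.2.1⟩⟩⟩⟩, ⟨⟨⟨H _ t39936.2.2.1, H _ t39936.2.2.2.1⟩, ⟨H _ t39936.2.2.2.2.1, H _ t39936.2.2.2.2.2.1⟩⟩, ⟨⟨H _ t39936.2.2.2.2.2.2.1, H _ t39936.2.2.2.2.2.2.2⟩, ⟨H _ t39944.1, ⟨H _ t39944.2.1, H _ t39944.2.2.1⟩⟩⟩⟩⟩⟩⟩⟩, ⟨⟨⟨⟨⟨⟨⟨H _ t39944.2.2.2.1, H _ t39944.2.2.2.2.1⟩, ⟨H _ t39944.2.2.2.2.2.1, H _ t39944.2.2.2.2.2.2.1⟩⟩, ⟨⟨H _ t39944.2.2.2.2.2.2.2, H _ t39952.1⟩, ⟨H _ t39952.2.1, H _ t39952.2.2.1⟩⟩⟩, ⟨⟨⟨H _ t39952.2.2.2.1, H _ t39952.2.2.2.2.1⟩, ⟨H _ t39952.2.2.2.2.2.1, H _ t39952.2.2.2.2.2.2.1⟩⟩,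 ⟨⟨H _ t39952.2.2.2.2.2.2.2, H _ t39960.1⟩, ⟨H _ t39960.2.1, ⟨H _ t39960.2.2.1, H _ t39960.2.2.2.1⟩⟩⟩⟩⟩, ⟨⟨⟨⟨H _ t39960.2.2.2.2.1, H _ t39960.2.2.2.2.2.1⟩, ⟨H _ t39960.2.2.2.2.2.2.1, H _ t39960.2.2.2.2.2.2.2⟩⟩, ⟨⟨H _ t39968.1, H _ t39968.2.1⟩, ⟨H _ t39968.2.2.1, ⟨H _ t39968.2.2.2.1, H _ t39968.2.2.2.2.1⟩⟩⟩⟩, ⟨⟨⟨H _ t39968.2.2.2.2.2.1, H _ t39968.2.2.2.2.2.2.1⟩, ⟨H _ t39968.2.2.2.2.2.2.2, H _ t39976.1⟩⟩, ⟨⟨H _ t39976.2.1, H _ t39976.2.2.1⟩, ⟨H _ t39976.2.2.2.1, ⟨H _ t39976.2.2.2.2.1, H _ t39976.2.2.2.2.2.1⟩⟩⟩⟩⟩⟩, ⟨⟨⟨⟨⟨H _ t39976.2.2.2.2.2.2.1, H _ t39976.2.2.2.2.2.2.2⟩, ⟨H _ t39984.1, H _ t39984.2.1⟩⟩, ⟨⟨H _ t39984.2.2.1, H _ t39984.2.2.2.1⟩, ⟨H _ t39984.2.2.2.2.1, H _ t39984.2.2.2.2.2.1⟩⟩⟩, ⟨⟨⟨H _ t39984.2.2.2.2.2.2.1, H _ t39984.2.2.2.2.2.2.2⟩, ⟨H _ t39992.1, H _ t39992.2.1⟩⟩, ⟨⟨H _ t39992.2.2.1, H _ t39992.2.2.2.1⟩, ⟨H _ t39992.2.2.2.2.1, ⟨H _ t39992.2.2.2.2.2.1, H _ t39992.2.2.2.2.2.2.1⟩⟩⟩⟩⟩,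 ⟨⟨⟨⟨H _ t39992.2.2.2.2.2.2.2, H _ t40000.1⟩, ⟨H _ t40000.2.1, H _ t40000.2.2.1⟩⟩, ⟨⟨H _ t40000.2.2.2.1, H _ t40000.2.2.2.2.1⟩, ⟨H _ t40000.2.2.2.2.2.1, ⟨H _ t40000.2.2.2.2.2.2.1, H _ t40000.2.2.2.2.2.2.2⟩⟩⟩⟩, ⟨⟨⟨H _ t40008.1, H _ t40008.2.1⟩, ⟨H _ t40008.2.2.1, H _ t40008.2.2.2.1⟩⟩, ⟨⟨H _ t40008.2.2.2.2.1, H _ t40008.2.2.2.2.2.1⟩, ⟨H _ t40008.2.2.2.2.2.2.1, ⟨H _ t40008.2.2.2.2.2.2.2, H _ t40016.1⟩⟩⟩⟩⟩⟩⟩, ⟨⟨⟨⟨⟨⟨H _ t40016.2.1, H _ t40016.2.2.1⟩, ⟨H _ t40016.2.2.2.1, H _ t40016.2.2.2.2.1⟩⟩, ⟨⟨H _ t40016.2.2.2.2.2.1, H _ t40016.2.2.2.2.2.2.1⟩, ⟨H _ t40016.2.2.2.2.2.2.2, H _ t40024.1⟩⟩⟩, ⟨⟨⟨H _ t40024.2.1, H _ t40024.2.2.1⟩, ⟨H _ t40024.2.2.2.1, H _ t40024.2.2.2.2.1⟩⟩, ⟨⟨H _ t40024.2.2.2.2.2.1, H _ t40024.2.2.2.2.2.2.1⟩, ⟨H _ t40024.2.2.2.2.2.2.2, ⟨H _ t40032.1, H _ t40032.2.1⟩⟩⟩⟩⟩, ⟨⟨⟨⟨H _ t40032.2.2.1, H _ t40032.2.2.2.1⟩, ⟨H _ t40032.2.2.2.2.1, H _ t40032.2.2.2.2.2.1⟩⟩, ⟨⟨H _ t40032.2.2.2.2.2.2.1,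 H _ t40032.2.2.2.2.2.2.2⟩, ⟨H _ t40040.1, ⟨H _ t40040.2.1, H _ t40040.2.2.1⟩⟩⟩⟩, ⟨⟨⟨H _ t40040.2.2.2.1, H _ t40040.2.2.2.2.1⟩, ⟨H _ t40040.2.2.2.2.2.1, H _ t40040.2.2.2.2.2.2.1⟩⟩, ⟨⟨H _ t40040.2.2.2.2.2.2.2, H _ t40048.1⟩, ⟨H _ t40048.2.1, ⟨H _ t40048.2.2.1, H _ t40048.2.2.2.1⟩⟩⟩⟩⟩⟩, ⟨⟨⟨⟨⟨H _ t40048.2.2.2.2.1, H _ t40048.2.2.2.2.2.1⟩, ⟨H _ t40048.2.2.2.2.2.2.1, H _ t40048.2.2.2.2.2.2.2⟩⟩, ⟨⟨H _ t40056.1, H _ t40056.2.1⟩, ⟨H _ t40056.2.2.1, H _ t40056.2.2.2.1⟩⟩⟩, ⟨⟨⟨H _ t40056.2.2.2.2.1, H _ t40056.2.2.2.2.2.1⟩, ⟨H _ t40056.2.2.2.2.2.2.1, H _ t40056.2.2.2.2.2.2.2⟩⟩, ⟨⟨H _ t40064.1, H _ t40064.2.1⟩, ⟨H _ t40064.2.2.1, ⟨H _ t40064.2.2.2.1, H _ t40064.2.2.2.2.1⟩⟩⟩⟩⟩, ⟨⟨⟨⟨H _ t40064.2.2.2.2.2.1, H _ t40064.2.2.2.2.2.2.1⟩, ⟨H _ t40064.2.2.2.2.2.2.2, H _ t40072.1⟩⟩, ⟨⟨H _ t40072.2.1, H _ t40072.2.2.1⟩, ⟨H _ t40072.2.2.2.1, ⟨H _ t40072.2.2.2.2.1, H _ t40072.2.2.2.2.2.1⟩⟩⟩⟩, ⟨⟨⟨H _ t40072.2.2.2.2.2.2.1,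 H _ t40072.2.2.2.2.2.2.2⟩, ⟨H _ t40080.1, H _ t40080.2.1⟩⟩, ⟨⟨H _ t40080.2.2.1, H _ t40080.2.2.2.1⟩, ⟨H _ t40080.2.2.2.2.1, ⟨H _ t40080.2.2.2.2.2.1, H _ t40080.2.2.2.2.2.2.1⟩⟩⟩⟩⟩⟩⟩⟩⟩, ⟨⟨⟨⟨⟨⟨⟨⟨H _ t40080.2.2.2.2.2.2.2, H _ t40088.1⟩, ⟨H _ t40088.2.1, H _ t40088.2.2.1⟩⟩, ⟨⟨H _ t40088.2.2.2.1, H _ t40088.2.2.2.2.1⟩, ⟨H _ t40088.2.2.2.2.2.1, H _ t40088.2.2.2.2.2.2.1⟩⟩⟩, ⟨⟨⟨H _ t40088.2.2.2.2.2.2.2, H _ t40096.1⟩, ⟨H _ t40096.2.1, H _ t40096.2.2.1⟩⟩, ⟨⟨H _ t40096.2.2.2.1, H _ t40096.2.2.2.2.1⟩, ⟨H _ t40096.2.2.2.2.2.1, ⟨H _ t40096.2.2.2.2.2.2.1, H _ t40096.2.2.2.2.2.2.2⟩⟩⟩⟩⟩, ⟨⟨⟨⟨H _ t40104.1, H _ t40104.2.1⟩, ⟨H _ t40104.2.2.1, H _ t40104.2.2.2.1⟩⟩, ⟨⟨H _ t40104.2.2.2.2.1, H _ t40104.2.2.2.2.2.1⟩, ⟨H _ t40104.2.2.2.2.2.2.1, H _ t40104.2.2.2.2.2.2.2⟩⟩⟩, ⟨⟨⟨H _ t40112.1, H _ t40112.2.1⟩, ⟨H _ t40112.2.2.1, H _ t40112.2.2.2.1⟩⟩, ⟨⟨H _ t40112.2.2.2.2.1, H _ t40112.2.2.2.2.2.1⟩, ⟨H _ t40112.2.2.2.2.2.2.1,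 ⟨H _ t40112.2.2.2.2.2.2.2, H _ t40120.1⟩⟩⟩⟩⟩⟩, ⟨⟨⟨⟨⟨H _ t40120.2.1, H _ t40120.2.2.1⟩, ⟨H _ t40120.2.2.2.1, H _ t40120.2.2.2.2.1⟩⟩, ⟨⟨H _ t40120.2.2.2.2.2.1, H _ t40120.2.2.2.2.2.2.1⟩, ⟨H _ t40120.2.2.2.2.2.2.2, H _ t40128.1⟩⟩⟩, ⟨⟨⟨H _ t40128.2.1, H _ t40128.2.2.1⟩, ⟨H _ t40128.2.2.2.1, H _ t40128.2.2.2.2.1⟩⟩, ⟨⟨H _ t40128.2.2.2.2.2.1, H _ t40128.2.2.2.2.2.2.1⟩, ⟨H _ t40128.2.2.2.2.2.2.2, ⟨H _ t40136.1, H _ t40136.2.1⟩⟩⟩⟩⟩, ⟨⟨⟨⟨H _ t40136.2.2.1, H _ t40136.2.2.2.1⟩, ⟨H _ t40136.2.2.2.2.1, H _ t40136.2.2.2.2.2.1⟩⟩, ⟨⟨H _ t40136.2.2.2.2.2.2.1, H _ t40136.2.2.2.2.2.2.2⟩, ⟨H _ t40144.1, ⟨H _ t40144.2.1, H _ t40144.2.2.1⟩⟩⟩⟩, ⟨⟨⟨H _ t40144.2.2.2.1, H _ t40144.2.2.2.2.1⟩, ⟨H _ t40144.2.2.2.2.2.1, H _ t40144.2.2.2.2.2.2.1⟩⟩, ⟨⟨H _ t40144.2.2.2.2.2.2.2, H _ t40152.1⟩, ⟨H _ t40152.2.1, ⟨H _ t40152.2.2.1, H _ t40152.2.2.2.1⟩⟩⟩⟩⟩⟩⟩, ⟨⟨⟨⟨⟨⟨H _ t40152.2.2.2.2.1, H _ t40152.2.2.2.2.2.1⟩, ⟨H _ t40152.2.2.2.2.2.2.1,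 H _ t40152.2.2.2.2.2.2.2⟩⟩, ⟨⟨H _ t40160.1, H _ t40160.2.1⟩, ⟨H _ t40160.2.2.1, H _ t40160.2.2.2.1⟩⟩⟩, ⟨⟨⟨H _ t40160.2.2.2.2.1, H _ t40160.2.2.2.2.2.1⟩, ⟨H _ t40160.2.2.2.2.2.2.1, H _ t40160.2.2.2.2.2.2.2⟩⟩, ⟨⟨H _ t40168.1, H _ t40168.2.1⟩, ⟨H _ t40168.2.2.1, ⟨H _ t40168.2.2.2.1, H _ t40168.2.2.2.2.1⟩⟩⟩⟩⟩, ⟨⟨⟨⟨H _ t40168.2.2.2.2.2.1, H _ t40168.2.2.2.2.2.2.1⟩, ⟨H _ t40168.2.2.2.2.2.2.2, H _ t40176.1⟩⟩, ⟨⟨H _ t40176.2.1, H _ t40176.2.2.1⟩, ⟨H _ t40176.2.2.2.1, ⟨H _ t40176.2.2.2.2.1, H _ t40176.2.2.2.2.2.1⟩⟩⟩⟩, ⟨⟨⟨H _ t40176.2.2.2.2.2.2.1, H _ t40176.2.2.2.2.2.2.2⟩, ⟨H _ t40184.1, H _ t40184.2.1⟩⟩, ⟨⟨H _ t40184.2.2.1, H _ t40184.2.2.2.1⟩, ⟨H _ t40184.2.2.2.2.1, ⟨H _ t40184.2.2.2.2.2.1, H _ t40184.2.2.2.2.2.2.1⟩⟩⟩⟩⟩⟩, ⟨⟨⟨⟨⟨H _ t40184.2.2.2.2.2.2.2, H _ t40192.1⟩, ⟨H _ t40192.2.1, H _ t40192.2.2.1⟩⟩, ⟨⟨H _ t40192.2.2.2.1, H _ t40192.2.2.2.2.1⟩, ⟨H _ t40192.2.2.2.2.2.1, H _ t40192.2.2.2.2.2.2.1⟩⟩⟩,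 ⟨⟨⟨H _ t40192.2.2.2.2.2.2.2, H _ t40200.1⟩, ⟨H _ t40200.2.1, H _ t40200.2.2.1⟩⟩, ⟨⟨H _ t40200.2.2.2.1, H _ t40200.2.2.2.2.1⟩, ⟨H _ t40200.2.2.2.2.2.1, ⟨H _ t40200.2.2.2.2.2.2.1, H _ t40200.2.2.2.2.2.2.2⟩⟩⟩⟩⟩, ⟨⟨⟨⟨H _ t40208.1, H _ t40208.2.1⟩, ⟨H _ t40208.2.2.1, H _ t40208.2.2.2.1⟩⟩, ⟨⟨H _ t40208.2.2.2.2.1, H _ t40208.2.2.2.2.2.1⟩, ⟨H _ t40208.2.2.2.2.2.2.1, ⟨H _ t40208.2.2.2.2.2.2.2, H _ t40216.1⟩⟩⟩⟩, ⟨⟨⟨H _ t40216.2.1, H _ t40216.2.2.1⟩, ⟨H _ t40216.2.2.2.1, H _ t40216.2.2.2.2.1⟩⟩, ⟨⟨H _ t40216.2.2.2.2.2.1, H _ t40216.2.2.2.2.2.2.1⟩, ⟨H _ t40216.2.2.2.2.2.2.2, ⟨H _ t40224.1, H _ t40224.2.1⟩⟩⟩⟩⟩⟩⟩⟩, ⟨⟨⟨⟨⟨⟨⟨H _ t40224.2.2.1, H _ t40224.2.2.2.1⟩, ⟨H _ t40224.2.2.2.2.1, H _ t40224.2.2.2.2.2.1⟩⟩, ⟨⟨H _ t40224.2.2.2.2.2.2.1, H _ t40224.2.2.2.2.2.2.2⟩, ⟨H _ t40232.1, H _ t40232.2.1⟩⟩⟩, ⟨⟨⟨H _ t40232.2.2.1, H _ t40232.2.2.2.1⟩, ⟨H _ t40232.2.2.2.2.1, H _ t40232.2.2.2.2.2.1⟩⟩, ⟨⟨H _ t40232.2.2.2.2.2.2.1,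 H _ t40232.2.2.2.2.2.2.2⟩, ⟨H _ t40240.1, ⟨H _ t40240.2.1, H _ t40240.2.2.1⟩⟩⟩⟩⟩, ⟨⟨⟨⟨H _ t40240.2.2.2.1, H _ t40240.2.2.2.2.1⟩, ⟨H _ t40240.2.2.2.2.2.1, H _ t40240.2.2.2.2.2.2.1⟩⟩, ⟨⟨H _ t40240.2.2.2.2.2.2.2, H _ t40248.1⟩, ⟨H _ t40248.2.1, ⟨H _ t40248.2.2.1, H _ t40248.2.2.2.1⟩⟩⟩⟩, ⟨⟨⟨H _ t40248.2.2.2.2.1, H _ t40248.2.2.2.2.2.1⟩, ⟨H _ t40248.2.2.2.2.2.2.1, H _ t40248.2.2.2.2.2.2.2⟩⟩, ⟨⟨H _ t40256.1, H _ t40256.2.1⟩, ⟨H _ t40256.2.2.1, ⟨H _ t40256.2.2.2.1, H _ t40256.2.2.2.2.1⟩⟩⟩⟩⟩⟩, ⟨⟨⟨⟨⟨H _ t40256.2.2.2.2.2.1, H _ t40256.2.2.2.2.2.2.1⟩, ⟨H _ t40256.2.2.2.2.2.2.2, H _ t40264.1⟩⟩, ⟨⟨H _ t40264.2.1, H _ t40264.2.2.1⟩, ⟨H _ t40264.2.2.2.1, H _ t40264.2.2.2.2.1⟩⟩⟩, ⟨⟨⟨H _ t40264.2.2.2.2.2.1, H _ t40264.2.2.2.2.2.2.1⟩, ⟨H _ t40264.2.2.2.2.2.2.2, H _ t40272.1⟩⟩, ⟨⟨H _ t40272.2.1, H _ t40272.2.2.1⟩, ⟨H _ t40272.2.2.2.1, ⟨H _ t40272.2.2.2.2.1, H _ t40272.2.2.2.2.2.1⟩⟩⟩⟩⟩, ⟨⟨⟨⟨H _ t40272.2.2.2.2.2.2.1,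 H _ t40272.2.2.2.2.2.2.2⟩, ⟨H _ t40280.1, H _ t40280.2.1⟩⟩, ⟨⟨H _ t40280.2.2.1, H _ t40280.2.2.2.1⟩, ⟨H _ t40280.2.2.2.2.1, ⟨H _ t40280.2.2.2.2.2.1, H _ t40280.2.2.2.2.2.2.1⟩⟩⟩⟩, ⟨⟨⟨H _ t40280.2.2.2.2.2.2.2, H _ t40288.1⟩, ⟨H _ t40288.2.1, H _ t40288.2.2.1⟩⟩, ⟨⟨H _ t40288.2.2.2.1, H _ t40288.2.2.2.2.1⟩, ⟨H _ t40288.2.2.2.2.2.1, ⟨H _ t40288.2.2.2.2.2.2.1, H _ t40288.2.2.2.2.2.2.2⟩⟩⟩⟩⟩⟩⟩, ⟨⟨⟨⟨⟨⟨H _ t40296.1, H _ t40296.2.1⟩, ⟨H _ t40296.2.2.1, H _ t40296.2.2.2.1⟩⟩, ⟨⟨H _ t40296.2.2.2.2.1, H _ t40296.2.2.2.2.2.1⟩, ⟨H _ t40296.2.2.2.2.2.2.1, H _ t40296.2.2.2.2.2.2.2⟩⟩⟩, ⟨⟨⟨H _ t40304.1, H _ t40304.2.1⟩, ⟨H _ t40304.2.2.1, H _ t40304.2.2.2.1⟩⟩, ⟨⟨H _ t40304.2.2.2.2.1, H _ t40304.2.2.2.2.2.1⟩, ⟨H _ t40304.2.2.2.2.2.2.1, ⟨H _ t40304.2.2.2.2.2.2.2, H _ t40312.1⟩⟩⟩⟩⟩, ⟨⟨⟨⟨H _ t40312.2.1, H _ t40312.2.2.1⟩, ⟨H _ t40312.2.2.2.1, H _ t40312.2.2.2.2.1⟩⟩, ⟨⟨H _ t40312.2.2.2.2.2.1, H _ t40312.2.2.2.2.2.2.1⟩,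 ⟨H _ t40312.2.2.2.2.2.2.2, ⟨H _ t40320.1, H _ t40320.2.1⟩⟩⟩⟩, ⟨⟨⟨H _ t40320.2.2.1, H _ t40320.2.2.2.1⟩, ⟨H _ t40320.2.2.2.2.1, H _ t40320.2.2.2.2.2.1⟩⟩, ⟨⟨H _ t40320.2.2.2.2.2.2.1, H _ t40320.2.2.2.2.2.2.2⟩, ⟨H _ t40328.1, ⟨H _ t40328.2.1, H _ t40328.2.2.1⟩⟩⟩⟩⟩⟩, ⟨⟨⟨⟨⟨H _ t40328.2.2.2.1, H _ t40328.2.2.2.2.1⟩, ⟨H _ t40328.2.2.2.2.2.1, H _ t40328.2.2.2.2.2.2.1⟩⟩, ⟨⟨H _ t40328.2.2.2.2.2.2.2, H _ t40336.1⟩, ⟨H _ t40336.2.1, H _ t40336.2.2.1⟩⟩⟩, ⟨⟨⟨H _ t40336.2.2.2.1, H _ t40336.2.2.2.2.1⟩, ⟨H _ t40336.2.2.2.2.2.1, H _ t40336.2.2.2.2.2.2.1⟩⟩, ⟨⟨H _ t40336.2.2.2.2.2.2.2, H _ t40344.1⟩, ⟨H _ t40344.2.1, ⟨H _ t40344.2.2.1, H _ t40344.2.2.2.1⟩⟩⟩⟩⟩, ⟨⟨⟨⟨H _ t40344.2.2.2.2.1, H _ t40344.2.2.2.2.2.1⟩, ⟨H _ t40344.2.2.2.2.2.2.1, H _ t40344.2.2.2.2.2.2.2⟩⟩, ⟨⟨H _ t40352.1, H _ t40352.2.1⟩, ⟨H _ t40352.2.2.1, ⟨H _ t40352.2.2.2.1, H _ t40352.2.2.2.2.1⟩⟩⟩⟩, ⟨⟨⟨H _ t40352.2.2.2.2.2.1, H _ t40352.2.2.2.2.2.2.1⟩,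 ⟨H _ t40352.2.2.2.2.2.2.2, H _ t40360.1⟩⟩, ⟨⟨H _ t40360.2.1, H _ t40360.2.2.1⟩, ⟨H _ t40360.2.2.2.1, ⟨H _ t40360.2.2.2.2.1, H _ t40360.2.2.2.2.2⟩⟩⟩⟩⟩⟩⟩⟩⟩⟩

end Pool.Agent.MP_c853c5_nt.X.C4950
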