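import Pool.Agent.MP_c853c5_nt.X.C4950.Env
import Pool.Agent.MP_c853c5_nt.X.C4950.Tab

set_option autoImplicit false
set_option maxRecDepth 8192
set_option linter.all false

namespace Pool.Agent.MP_c853c5_nt.X.C4950

open Pool.Agent.MP_c853c5_nt.X

def t40366 : allY (E.wth T2) l40366 = true ∧
    allY (E.wth T2) l40367 = true ∧
    allY (E.wth T2) l40368 = true ∧
    allY (E.wth T2) l40369 = true ∧
    allY (E.wth T2) l40370 = true ∧
    allY (E.wth T2) l40371 = true ∧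
    allY (E.wth T2) l40372 = true ∧
    allY (E.wth T2) l40373 = true :=
  ⟨by decide +kernel, by decide +kernel, by decide +kernel, by decide +kernel, by decide +kernel, by decide +kernel, by decide +kernel, by decide +kernel⟩

def t40374 : allY (E.wth T2) l40374 = true ∧
    allY (E.wth T2) l40375 = true ∧
    allY (E.wth T2) l40376 = true ∧
    allY (E.wth T2) l40377 = true ∧
    allY (E.wth T2) l40378 = true ∧
    allY (E.wth T2) l40379 = true ∧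
    allY (E.wth T2) l40380 = true ∧
    allY (E.wth T2) l40381 = true :=
  ⟨by decide +kernel, by decide +kernel, by decide +kernel, by decide +kernel, by decide +kernel, by decide +kernel, by decide +kernel, by decide +kernel⟩

def t40382 : allY (E.wth T2) l40382 = true ∧
    allY (E.wth T2) l40383 = true ∧
    allY (E.wth T2) l40384 = true ∧
    allY (E.wth T2) l40385 = true ∧
    allY (E.wth T2) l40386 = true ∧
    allY (E.wth T2) l40387 = true ∧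
    allY (E.wth T2) l40388 = true ∧
    allY (E.wth T2) l40389 = true :=
  ⟨by decide +kernel, by decide +kernel, by decide +kernel, by decide +kernel, by decide +kernel, by decide +kernel, by decide +kernel, by decide +kernel⟩

def t40390 : allY (E.wth T2) l40390 = true ∧
    allY (E.wth T2) l40391 = true ∧
    allY (E.wth T2) l40392 = true ∧
    allY (E.wth T2) l40393 = true ∧
    allY (E.wth T2) l40394 = true ∧
    allY (E.wth T2) l40395 = true ∧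
    allY (E.wth T2) l40396 = true ∧
    allY (E.wth T2) l40397 = true :=
  ⟨by decide +kernel, by decide +kernel, by decide +kernel, by decide +kernel, by decide +kernel, by decide +kernel, by decide +kernel, by decide +kernel⟩

def t40398 : allY (E.wth T2) l40398 = true ∧
    allY (E.wth T2) l40399 = true ∧
    allY (E.wth T2) l40400 = true ∧
    allY (E.wth T2) l40401 = true ∧
    allY (E.wth T2) l40402 = true ∧
    allY (E.wth T2) l40403 = true ∧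
    allY (E.wth T2) l40404 = true ∧
    allY (E.wth T2) l40405 = true :=
  ⟨by decide +kernel, by decide +kernel, by decide +kernel, by decide +kernel, by decide +kernel, by decide +kernel, by decide +kernel, by decide +kernel⟩

def t40406 : allY (E.wth T2) l40406 = true ∧
    allY (E.wth T2) l40407 = true ∧
    allY (E.wth T2) l40408 = true ∧
    allY (E.wth T2) l40409 = true ∧
    allY (E.wth T2) l40410 = true ∧
    allY (E.wth T2) l40411 = true ∧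
    allY (E.wth T2) l40412 = true ∧
    allY (E.wth T2) l40413 = true :=
  ⟨by decide +kernel, by decide +kernel, by decide +kernel, by decide +kernel, by decide +kernel, by decide +kernel, by decide +kernel, by decide +kernel⟩

def t40414 : allY (E.wth T2) l40414 = true ∧
    allY (E.wth T2) l40415 = true ∧
    allY (E.wth T2) l40416 = true ∧
    allY (E.wth T2) l40417 = true ∧
    allY (E.wth T2) l40418 = true ∧
    allY (E.wth T2) l40419 = true ∧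
    allY (E.wth T2) l40420 = true ∧
    allY (E.wth T2) l40421 = true :=
  ⟨by decide +kernel, by decide +kernel, by decide +kernel, by decide +kernel, by decide +kernel, by decide +kernel, by decide +kernel, by decide +kernel⟩

def t40422 : allY (E.wth T2) l40422 = true ∧
    allY (E.wth T2) l40423 = true ∧
    allY (E.wth T2) l40424 = true ∧
    allY (E.wth T2) l40425 = true ∧
    allY (E.wth T2) l40426 = true ∧
    allY (E.wth T2) l40427 = true ∧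
    allY (E.wth T2) l40428 = true ∧
    allY (E.wth T2) l40429 = true :=
  ⟨by decide +kernel, by decide +kernel, by decide +kernel, by decide +kernel, by decide +kernel, by decide +kernel, by decide +kernel, by decide +kernel⟩

def t40430 : allY (E.wth T2) l40430 = true ∧
    allY (E.wth T2) l40431 = true ∧
    allY (E.wth T2) l40432 = true ∧
    allY (E.wth T2) l40433 = true ∧
    allY (E.wth T2) l40434 = true ∧
    allY (E.wth T2) l40435 = true ∧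
    allY (E.wth T2) l40436 = true ∧
    allY (E.wth T2) l40437 = true :=
  ⟨by decide +kernel, by decide +kernel, by decide +kernel, by decide +kernel, by decide +kernel, by decide +kernel, by decide +kernel, by decide +kernel⟩

def t40438 : allY (E.wth T2) l40438 = true ∧
    allY (E.wth T2) l40439 = true ∧
    allY (E.wth T2) l40440 = true ∧
    allY (E.wth T2) l40441 = true ∧
    allY (E.wth T2) l40442 = true ∧
    allY (E.wth T2) l40443 = true ∧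
    allY (E.wth T2) l40444 = true ∧
    allY (E.wth T2) l40445 = true :=
  ⟨by decide +kernel, by decide +kernel, by decide +kernel, by decide +kernel, by decide +kernel, by decide +kernel, by decide +kernel, by decide +kernel⟩

def t40446 : allY (E.wth T2) l40446 = true ∧
    allY (E.wth T2) l40447 = true ∧
    allY (E.wth T2) l40448 = true ∧
    allY (E.wth T2) l40449 = true ∧
    allY (E.wth T2) l40450 = true ∧
    allY (E.wth T2) l40451 = true ∧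
    allY (E.wth T2) l40452 = true ∧
    allY (E.wth T2) l40453 = true :=
  ⟨by decide +kernel, by decide +kernel, by decide +kernel, by decide +kernel, by decide +kernel, by decide +kernel, by decide +kernel, by decide +kernel⟩

def t40454 : allY (E.wth T2) l40454 = true ∧
    allY (E.wth T2) l40455 = true ∧
    allY (E.wth T2) l40456 = true ∧
    allY (E.wth T2) l40457 = true ∧
    allY (E.wth T2) l40458 = true ∧
    allY (E.wth T2) l40459 = true ∧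
    allY (E.wth T2) l40460 = true ∧
    allY (E.wth T2) l40461 = true :=
  ⟨by decide +kernel, by decide +kernel, by decide +kernel, by decide +kernel, by decide +kernel, by decide +kernel, by decide +kernel, by decide +kernel⟩

def t40462 : allY (E.wth T2) l40462 = true ∧
    allY (E.wth T2) l40463 = true ∧
    allY (E.wth T2) l40464 = true ∧
    allY (E.wth T2) l40465 = true ∧
    allY (E.wth T2) l40466 = true ∧
    allY (E.wth T2) l40467 = true ∧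
    allY (E.wth T2) l40468 = true ∧
    allY (E.wth T2) l40469 = true :=
  ⟨by decide +kernel, by decide +kernel, by decide +kernel, by decide +kernel, by decide +kernel, by decide +kernel, by decide +kernel, by decide +kernel⟩

def t40470 : allY (E.wth T2) l40470 = true ∧
    allY (E.wth T2) l40471 = true ∧
    allY (E.wth T2) l40472 = true ∧
    allY (E.wth T2) l40473 = true ∧
    allY (E.wth T2) l40474 = true ∧
    allY (E.wth T2) l40475 = true ∧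
    allY (E.wth T2) l40476 = true ∧
    allY (E.wth T2) l40477 = true :=
  ⟨by decide +kernel, by decide +kernel, by decide +kernel, by decide +kernel, by decide +kernel, by decide +kernel, by decide +kernel, by decide +kernel⟩

def t40478 : allY (E.wth T2) l40478 = true ∧
    allY (E.wth T2) l40479 = true ∧
    allY (E.wth T2) l40480 = true ∧
    allY (E.wth T2) l40481 = true ∧
    allY (E.wth T2) l40482 = true ∧
    allY (E.wth T2) l40483 = true ∧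
    allY (E.wth T2) l40484 = true ∧
    allY (E.wth T2) l40485 = true :=
  ⟨by decide +kernel, by decide +kernel, by decide +kernel, by decide +kernel, by decide +kernel, by decide +kernel, by decide +kernel, by decide +kernel⟩

def t40486 : allY (E.wth T2) l40486 = true ∧
    allY (E.wth T2) l40487 = true ∧
    allY (E.wth T2) l40488 = true ∧
    allY (E.wth T2) l40489 = true ∧
    allY (E.wth T2) l40490 = true ∧
    allY (E.wth T2) l40491 = true ∧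
    allY (E.wth T2) l40492 = true ∧
    allY (E.wth T2) l40493 = true :=
  ⟨by decide +kernel, by decide +kernel, by decide +kernel, by decide +kernel, by decide +kernel, by decide +kernel, by decide +kernel, by decide +kernel⟩

def t40494 : allY (E.wth T2) l40494 = true ∧
    allY (E.wth T2) l40495 = true ∧
    allY (E.wth T2) l40496 = true ∧
    allY (E.wth T2) l40497 = true ∧
    allY (E.wth T2) l40498 = true ∧
    allY (E.wth T2) l40499 = true ∧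
    allY (E.wth T2) l40500 = true ∧
    allY (E.wth T2) l40501 = true :=
  ⟨by decide +kernel, by decide +kernel, by decide +kernel, by decide +kernel, by decide +kernel, by decide +kernel, by decide +kernel, by decide +kernel⟩

def t40502 : allY (E.wth T2) l40502 = true ∧
    allY (E.wth T2) l40503 = true ∧
    allY (E.wth T2) l40504 = true ∧
    allY (E.wth T2) l40505 = true ∧
    allY (E.wth T2) l40506 = true ∧
    allY (E.wth T2) l40507 = true ∧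
    allY (E.wth T2) l40508 = true ∧
    allY (E.wth T2) l40509 = true :=
  ⟨by decide +kernel, by decide +kernel, by decide +kernel, by decide +kernel, by decide +kernel, by decide +kernel, by decide +kernel, by decide +kernel⟩

def t40510 : allY (E.wth T2) l40510 = true ∧
    allY (E.wth T2) l40511 = true ∧
    allY (E.wth T2) l40512 = true ∧
    allY (E.wth T2) l40513 = true ∧
    allY (E.wth T2) l40514 = true ∧
    allY (E.wth T2) l40515 = true ∧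
    allY (E.wth T2) l40516 = true ∧
    allY (E.wth T2) l40517 = true :=
  ⟨by decide +kernel, by decide +kernel, by decide +kernel, by decide +kernel, by decide +kernel, by decide +kernel, by decide +kernel, by decide +kernel⟩

def t40518 : allY (E.wth T2) l40518 = true ∧
    allY (E.wth T2) l40519 = true ∧
    allY (E.wth T2) l40520 = true ∧
    allY (E.wth T2) l40521 = true ∧
    allY (E.wth T2) l40522 = true ∧
    allY (E.wth T2) l40523 = true ∧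
    allY (E.wth T2) l40524 = true ∧
    allY (E.wth T2) l40525 = true :=
  ⟨by decide +kernel, by decide +kernel, by decide +kernel, by decide +kernel, by decide +kernel, by decide +kernel, by decide +kernel, by decide +kernel⟩

def t40526 : allY (E.wth T2) l40526 = true ∧
    allY (E.wth T2) l40527 = true ∧
    allY (E.wth T2) l40528 = true ∧
    allY (E.wth T2) l40529 = true ∧
    allY (E.wth T2) l40530 = true ∧
    allY (E.wth T2) l40531 = true ∧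
    allY (E.wth T2) l40532 = true ∧
    allY (E.wth T2) l40533 = true :=
  ⟨by decide +kernel, by decide +kernel, by decide +kernel, by decide +kernel, by decide +kernel, by decide +kernel, by decide +kernel, by decide +kernel⟩

def t40534 : allY (E.wth T2) l40534 = true ∧
    allY (E.wth T2) l40535 = true ∧
    allY (E.wth T2) l40536 = true ∧
    allY (E.wth T2) l40537 = true ∧
    allY (E.wth T2) l40538 = true ∧
    allY (E.wth T2) l40539 = true ∧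
    allY (E.wth T2) l40540 = true ∧
    allY (E.wth T2) l40541 = true :=
  ⟨by decide +kernel, by decide +kernel, by decide +kernel, by decide +kernel, by decide +kernel, by decide +kernel, by decide +kernel, by decide +kernel⟩

def t40542 : allY (E.wth T2) l40542 = true ∧
    allY (E.wth T2) l40543 = true ∧
    allY (E.wth T2) l40544 = true ∧
    allY (E.wth T2) l40545 = true ∧
    allY (E.wth T2) l40546 = true ∧
    allY (E.wth T2) l40547 = true ∧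
    allY (E.wth T2) l40548 = true ∧
    allY (E.wth T2) l40549 = true :=
  ⟨by decide +kernel, by decide +kernel, by decide +kernel, by decide +kernel, by decide +kernel, by decide +kernel, by decide +kernel, by decide +kernel⟩

def t40550 : allY (E.wth T2) l40550 = true ∧
    allY (E.wth T2) l40551 = true ∧
    allY (E.wth T2) l40552 = true ∧
    allY (E.wth T2) l40553 = true ∧
    allY (E.wth T2) l40554 = true ∧
    allY (E.wth T2) l40555 = true ∧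
    allY (E.wth T2) l40556 = true ∧
    allY (E.wth T2) l40557 = true :=
  ⟨by decide +kernel, by decide +kernel, by decide +kernel, by decide +kernel, by decide +kernel, by decide +kernel, by decide +kernel, by decide +kernel⟩

def t40558 : allY (E.wth T2) l40558 = true ∧
    allY (E.wth T2) l40559 = true ∧
    allY (E.wth T2) l40560 = true ∧
    allY (E.wth T2) l40561 = true ∧
    allY (E.wth T2) l40562 = true ∧
    allY (E.wth T2) l40563 = true ∧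
    allY (E.wth T2) l40564 = true ∧
    allY (E.wth T2) l40565 = true :=
  ⟨by decide +kernel, by decide +kernel, by decide +kernel, by decide +kernel, by decide +kernel, by decide +kernel, by decide +kernel, by decide +kernel⟩

def t40566 : allY (E.wth T2) l40566 = true ∧
    allY (E.wth T2) l40567 = true ∧
    allY (E.wth T2) l40568 = true ∧
    allY (E.wth T2) l40569 = true ∧
    allY (E.wth T2) l40570 = true ∧
    allY (E.wth T2) l40571 = true ∧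
    allY (E.wth T2) l40572 = true ∧
    allY (E.wth T2) l40573 = true :=
  ⟨by decide +kernel, by decide +kernel, by decide +kernel, by decide +kernel, by decide +kernel, by decide +kernel, by decide +kernel, by decide +kernel⟩

def t40574 : allY (E.wth T2) l40574 = true ∧
    allY (E.wth T2) l40575 = true ∧
    allY (E.wth T2) l40576 = true ∧
    allY (E.wth T2) l40577 = true ∧
    allY (E.wth T2) l40578 = true ∧
    allY (E.wth T2) l40579 = true ∧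
    allY (E.wth T2) l40580 = true ∧
    allY (E.wth T2) l40581 = true :=
  ⟨by decide +kernel, by decide +kernel, by decide +kernel, by decide +kernel, by decide +kernel, by decide +kernel, by decide +kernel, by decide +kernel⟩

def t40582 : allY (E.wth T2) l40582 = true ∧
    allY (E.wth T2) l40583 = true ∧
    allY (E.wth T2) l40584 = true ∧
    allY (E.wth T2) l40585 = true ∧
    allY (E.wth T2) l40586 = true ∧
    allY (E.wth T2) l40587 = true ∧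
    allY (E.wth T2) l40588 = true ∧
    allY (E.wth T2) l40589 = true :=
  ⟨by decide +kernel, by decide +kernel, by decide +kernel, by decide +kernel, by decide +kernel, by decide +kernel, by decide +kernel, by decide +kernel⟩

def t40590 : allY (E.wth T2) l40590 = true ∧
    allY (E.wth T2) l40591 = true ∧
    allY (E.wth T2) l40592 = true ∧
    allY (E.wth T2) l40593 = true ∧
    allY (E.wth T2) l40594 = true ∧
    allY (E.wth T2) l40595 = true ∧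
    allY (E.wth T2) l40596 = true ∧
    allY (E.wth T2) l40597 = true :=
  ⟨by decide +kernel, by decide +kernel, by decide +kernel, by decide +kernel, by decide +kernel, by decide +kernel, by decide +kernel, by decide +kernel⟩

def t40598 : allY (E.wth T2) l40598 = true ∧
    allY (E.wth T2) l40599 = true ∧
    allY (E.wth T2) l40600 = true ∧
    allY (E.wth T2) l40601 = true ∧
    allY (E.wth T2) l40602 = true ∧
    allY (E.wth T2) l40603 = true ∧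
    allY (E.wth T2) l40604 = true ∧
    allY (E.wth T2) l40605 = true :=
  ⟨by decide +kernel, by decide +kernel, by decide +kernel, by decide +kernel, by decide +kernel, by decide +kernel, by decide +kernel, by decide +kernel⟩

def t40606 : allY (E.wth T2) l40606 = true ∧
    allY (E.wth T2) l40607 = true ∧
    allY (E.wth T2) l40608 = true ∧
    allY (E.wth T2) l40609 = true ∧
    allY (E.wth T2) l40610 = true ∧
    allY (E.wth T2) l40611 = true ∧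
    allY (E.wth T2) l40612 = true ∧
    allY (E.wth T2) l40613 = true :=
  ⟨by decide +kernel, by decide +kernel, by decide +kernel, by decide +kernel, by decide +kernel, by decide +kernel, by decide +kernel, by decide +kernel⟩

def t40614 : allY (E.wth T2) l40614 = true ∧
    allY (E.wth T2) l40615 = true ∧
    allY (E.wth T2) l40616 = true ∧
    allY (E.wth T2) l40617 = true ∧
    allY (E.wth T2) l40618 = true ∧
    allY (E.wth T2) l40619 = true ∧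
    allY (E.wth T2) l40620 = true ∧
    allY (E.wth T2) l40621 = true :=
  ⟨by decide +kernel, by decide +kernel, by decide +kernel, by decide +kernel, by decide +kernel, by decide +kernel, by decide +kernel, by decide +kernel⟩

def t40622 : allY (E.wth T2) l40622 = true ∧
    allY (E.wth T2) l40623 = true ∧
    allY (E.wth T2) l40624 = true ∧
    allY (E.wth T2) l40625 = true ∧
    allY (E.wth T2) l40626 = true ∧
    allY (E.wth T2) l40627 = true ∧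
    allY (E.wth T2) l40628 = true ∧
    allY (E.wth T2) l40629 = true :=
  ⟨by decide +kernel, by decide +kernel, by decide +kernel, by decide +kernel, by decide +kernel, by decide +kernel, by decide +kernel, by decide +kernel⟩

def t40630 : allY (E.wth T2) l40630 = true ∧
    allY (E.wth T2) l40631 = true ∧
    allY (E.wth T2) l40632 = true ∧
    allY (E.wth T2) l40633 = true ∧
    allY (E.wth T2) l40634 = true ∧
    allY (E.wth T2) l40635 = true ∧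
    allY (E.wth T2) l40636 = true ∧
    allY (E.wth T2) l40637 = true :=
  ⟨by decide +kernel, by decide +kernel, by decide +kernel, by decide +kernel, by decide +kernel, by decide +kernel, by decide +kernel, by decide +kernel⟩

def t40638 : allY (E.wth T2) l40638 = true ∧
    allY (E.wth T2) l40639 = true ∧
    allY (E.wth T2) l40640 = true ∧
    allY (E.wth T2) l40641 = true ∧
    allY (E.wth T2) l40642 = true ∧
    allY (E.wth T2) l40643 = true ∧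
    allY (E.wth T2) l40644 = true ∧
    allY (E.wth T2) l40645 = true :=
  ⟨by decide +kernel, by decide +kernel, by decide +kernel, by decide +kernel, by decide +kernel, by decide +kernel, by decide +kernel, by decide +kernel⟩

def t40646 : allY (E.wth T2) l40646 = true ∧
    allY (E.wth T2) l40647 = true ∧
    allY (E.wth T2) l40648 = true ∧
    allY (E.wth T2) l40649 = true ∧
    allY (E.wth T2) l40650 = true ∧
    allY (E.wth T2) l40651 = true ∧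
    allY (E.wth T2) l40652 = true ∧
    allY (E.wth T2) l40653 = true :=
  ⟨by decide +kernel, by decide +kernel, by decide +kernel, by decide +kernel, by decide +kernel, by decide +kernel, by decide +kernel, by decide +kernel⟩

def t40654 : allY (E.wth T2) l40654 = true ∧
    allY (E.wth T2) l40655 = true ∧
    allY (E.wth T2) l40656 = true ∧
    allY (E.wth T2) l40657 = true ∧
    allY (E.wth T2) l40658 = true ∧
    allY (E.wth T2) l40659 = true ∧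
    allY (E.wth T2) l40660 = true ∧
    allY (E.wth T2) l40661 = true :=
  ⟨by decide +kernel, by decide +kernel, by decide +kernel, by decide +kernel, by decide +kernel, by decide +kernel, by decide +kernel, by decide +kernel⟩

def t40662 : allY (E.wth T2) l40662 = true ∧
    allY (E.wth T2) l40663 = true ∧
    allY (E.wth T2) l40664 = true ∧
    allY (E.wth T2) l40665 = true ∧
    allY (E.wth T2) l40666 = true ∧
    allY (E.wth T2) l40667 = true ∧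
    allY (E.wth T2) l40668 = true ∧
    allY (E.wth T2) l40669 = true :=
  ⟨by decide +kernel, by decide +kernel, by decide +kernel, by decide +kernel, by decide +kernel, by decide +kernel, by decide +kernel, by decide +kernel⟩

def t40670 : allY (E.wth T2) l40670 = true ∧
    allY (E.wth T2) l40671 = true ∧
    allY (E.wth T2) l40672 = true ∧
    allY (E.wth T2) l40673 = true ∧
    allY (E.wth T2) l40674 = true ∧
    allY (E.wth T2) l40675 = true ∧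
    allY (E.wth T2) l40676 = true ∧
    allY (E.wth T2) l40677 = true :=
  ⟨by decide +kernel, by decide +kernel, by decide +kernel, by decide +kernel, by decide +kernel, by decide +kernel, by decide +kernel, by decide +kernel⟩

def t40678 : allY (E.wth T2) l40678 = true ∧
    allY (E.wth T2) l40679 = true ∧
    allY (E.wth T2) l40680 = true ∧
    allY (E.wth T2) l40681 = true ∧
    allY (E.wth T2) l40682 = true ∧
    allY (E.wth T2) l40683 = true ∧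
    allY (E.wth T2) l40684 = true ∧
    allY (E.wth T2) l40685 = true :=
  ⟨by decide +kernel, by decide +kernel, by decide +kernel, by decide +kernel, by decide +kernel, by decide +kernel, by decide +kernel, by decide +kernel⟩

def t40686 : allY (E.wth T2) l40686 = true ∧
    allY (E.wth T2) l40687 = true ∧
    allY (E.wth T2) l40688 = true ∧
    allY (E.wth T2) l40689 = true ∧
    allY (E.wth T2) l40690 = true ∧
    allY (E.wth T2) l40691 = true ∧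
    allY (E.wth T2) l40692 = true ∧
    allY (E.wth T2) l40693 = true :=
  ⟨by decide +kernel, by decide +kernel, by decide +kernel, by decide +kernel, by decide +kernel, by decide +kernel, by decide +kernel, by decide +kernel⟩

def t40694 : allY (E.wth T2) l40694 = true ∧
    allY (E.wth T2) l40695 = true ∧
    allY (E.wth T2) l40696 = true ∧
    allY (E.wth T2) l40697 = true ∧
    allY (E.wth T2) l40698 = true ∧
    allY (E.wth T2) l40699 = true ∧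
    allY (E.wth T2) l40700 = true ∧
    allY (E.wth T2) l40701 = true :=
  ⟨by decide +kernel, by decide +kernel, by decide +kernel, by decide +kernel, by decide +kernel, by decide +kernel, by decide +kernel, by decide +kernel⟩

def t40702 : allY (E.wth T2) l40702 = true ∧
    allY (E.wth T2) l40703 = true ∧
    allY (E.wth T2) l40704 = true ∧
    allY (E.wth T2) l40705 = true ∧
    allY (E.wth T2) l40706 = true ∧
    allY (E.wth T2) l40707 = true ∧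
    allY (E.wth T2) l40708 = true ∧
    allY (E.wth T2) l40709 = true :=
  ⟨by decide +kernel, by decide +kernel, by decide +kernel, by decide +kernel, by decide +kernel, by decide +kernel, by decide +kernel, by decide +kernel⟩

def t40710 : allY (E.wth T2) l40710 = true ∧
    allY (E.wth T2) l40711 = true ∧
    allY (E.wth T2) l40712 = true ∧
    allY (E.wth T2) l40713 = true ∧
    allY (E.wth T2) l40714 = true ∧
    allY (E.wth T2) l40715 = true ∧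
    allY (E.wth T2) l40716 = true ∧
    allY (E.wth T2) l40717 = true :=
  ⟨by decide +kernel, by decide +kernel, by decide +kernel, by decide +kernel, by decide +kernel, by decide +kernel, by decide +kernel, by decide +kernel⟩

def t40718 : allY (E.wth T2) l40718 = true ∧
    allY (E.wth T2) l40719 = true ∧
    allY (E.wth T2) l40720 = true ∧
    allY (E.wth T2) l40721 = true ∧
    allY (E.wth T2) l40722 = true ∧
    allY (E.wth T2) l40723 = true ∧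
    allY (E.wth T2) l40724 = true ∧
    allY (E.wth T2) l40725 = true :=
  ⟨by decide +kernel, by decide +kernel, by decide +kernel, by decide +kernel, by decide +kernel, by decide +kernel, by decide +kernel, by decide +kernel⟩

def t40726 : allY (E.wth T2) l40726 = true ∧
    allY (E.wth T2) l40727 = true ∧
    allY (E.wth T2) l40728 = true ∧
    allY (E.wth T2) l40729 = true ∧
    allY (E.wth T2) l40730 = true ∧
    allY (E.wth T2) l40731 = true ∧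
    allY (E.wth T2) l40732 = true ∧
    allY (E.wth T2) l40733 = true :=
  ⟨by decide +kernel, by decide +kernel, by decide +kernel, by decide +kernel, by decide +kernel, by decide +kernel, by decide +kernel, by decide +kernel⟩

def t40734 : allY (E.wth T2) l40734 = true ∧
    allY (E.wth T2) l40735 = true ∧
    allY (E.wth T2) l40736 = true ∧
    allY (E.wth T2) l40737 = true ∧
    allY (E.wth T2) l40738 = true ∧
    allY (E.wth T2) l40739 = true ∧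
    allY (E.wth T2) l40740 = true ∧
    allY (E.wth T2) l40741 = true :=
  ⟨by decide +kernel, by decide +kernel, by decide +kernel, by decide +kernel, by decide +kernel, by decide +kernel, by decide +kernel, by decide +kernel⟩

def t40742 : allY (E.wth T2) l40742 = true ∧
    allY (E.wth T2) l40743 = true ∧
    allY (E.wth T2) l40744 = true ∧
    allY (E.wth T2) l40745 = true ∧
    allY (E.wth T2) l40746 = true ∧
    allY (E.wth T2) l40747 = true ∧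
    allY (E.wth T2) l40748 = true ∧
    allY (E.wth T2) l40749 = true :=
  ⟨by decide +kernel, by decide +kernel, by decide +kernel, by decide +kernel, by decide +kernel, by decide +kernel, by decide +kernel, by decide +kernel⟩

def t40750 : allY (E.wth T2) l40750 = true ∧
    allY (E.wth T2) l40751 = true ∧
    allY (E.wth T2) l40752 = true ∧
    allY (E.wth T2) l40753 = true ∧
    allY (E.wth T2) l40754 = true ∧
    allY (E.wth T2) l40755 = true ∧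
    allY (E.wth T2) l40756 = true ∧
    allY (E.wth T2) l40757 = true :=
  ⟨by decide +kernel, by decide +kernel, by decide +kernel, by decide +kernel, by decide +kernel, by decide +kernel, by decide +kernel, by decide +kernel⟩

def t40758 : allY (E.wth T2) l40758 = true ∧
    allY (E.wth T2) l40759 = true ∧
    allY (E.wth T2) l40760 = true ∧
    allY (E.wth T2) l40761 = true ∧
    allY (E.wth T2) l40762 = true ∧
    allY (E.wth T2) l40763 = true ∧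
    allY (E.wth T2) l40764 = true ∧
    allY (E.wth T2) l40765 = true :=
  ⟨by decide +kernel, by decide +kernel, by decide +kernel, by decide +kernel, by decide +kernel, by decide +kernel, by decide +kernel, by decide +kernel⟩

def t40766 : allY (E.wth T2) l40766 = true ∧
    allY (E.wth T2) l40767 = true ∧
    allY (E.wth T2) l40768 = true ∧
    allY (E.wth T2) l40769 = true ∧
    allY (E.wth T2) l40770 = true ∧
    allY (E.wth T2) l40771 = true ∧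
    allY (E.wth T2) l40772 = true ∧
    allY (E.wth T2) l40773 = true :=
  ⟨by decide +kernel, by decide +kernel, by decide +kernel, by decide +kernel, by decide +kernel, by decide +kernel, by decide +kernel, by decide +kernel⟩

def t40774 : allY (E.wth T2) l40774 = true ∧
    allY (E.wth T2) l40775 = true ∧
    allY (E.wth T2) l40776 = true ∧
    allY (E.wth T2) l40777 = true ∧
    allY (E.wth T2) l40778 = true ∧
    allY (E.wth T2) l40779 = true ∧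
    allY (E.wth T2) l40780 = true ∧
    allY (E.wth T2) l40781 = true :=
  ⟨by decide +kernel, by decide +kernel, by decide +kernel, by decide +kernel, by decide +kernel, by decide +kernel, by decide +kernel, by decide +kernel⟩

def t40782 : allY (E.wth T2) l40782 = true ∧
    allY (E.wth T2) l40783 = true ∧
    allY (E.wth T2) l40784 = true ∧
    allY (E.wth T2) l40785 = true ∧
    allY (E.wth T2) l40786 = true ∧
    allY (E.wth T2) l40787 = true ∧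
    allY (E.wth T2) l40788 = true ∧
    allY (E.wth T2) l40789 = true :=
  ⟨by decide +kernel, by decide +kernel, by decide +kernel, by decide +kernel, by decide +kernel, by decide +kernel, by decide +kernel, by decide +kernel⟩

def t40790 : allY (E.wth T2) l40790 = true ∧
    allY (E.wth T2) l40791 = true ∧
    allY (E.wth T2) l40792 = true ∧
    allY (E.wth T2) l40793 = true ∧
    allY (E.wth T2) l40794 = true ∧
    allY (E.wth T2) l40795 = true ∧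
    allY (E.wth T2) l40796 = true ∧
    allY (E.wth T2) l40797 = true :=
  ⟨by decide +kernel, by decide +kernel, by decide +kernel, by decide +kernel, by decide +kernel, by decide +kernel, by decide +kernel, by decide +kernel⟩

def t40798 : allY (E.wth T2) l40798 = true ∧
    allY (E.wth T2) l40799 = true ∧
    allY (E.wth T2) l40800 = true ∧
    allY (E.wth T2) l40801 = true ∧
    allY (E.wth T2) l40802 = true ∧
    allY (E.wth T2) l40803 = true ∧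
    allY (E.wth T2) l40804 = true ∧
    allY (E.wth T2) l40805 = true :=
  ⟨by decide +kernel, by decide +kernel, by decide +kernel, by decide +kernel, by decide +kernel, by decide +kernel, by decide +kernel, by decide +kernel⟩

def t40806 : allY (E.wth T2) l40806 = true ∧
    allY (E.wth T2) l40807 = true ∧
    allY (E.wth T2) l40808 = true ∧
    allY (E.wth T2) l40809 = true ∧
    allY (E.wth T2) l40810 = true ∧
    allY (E.wth T2) l40811 = true ∧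
    allY (E.wth T2) l40812 = true ∧
    allY (E.wth T2) l40813 = true :=
  ⟨by decide +kernel, by decide +kernel, by decide +kernel, by decide +kernel, by decide +kernel, by decide +kernel, by decide +kernel, by decide +kernel⟩

def t40814 : allY (E.wth T2) l40814 = true ∧
    allY (E.wth T2) l40815 = true ∧
    allY (E.wth T2) l40816 = true ∧
    allY (E.wth T2) l40817 = true ∧
    allY (E.wth T2) l40818 = true ∧
    allY (E.wth T2) l40819 = true ∧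
    allY (E.wth T2) l40820 = true ∧
    allY (E.wth T2) l40821 = true :=
  ⟨by decide +kernel, by decide +kernel, by decide +kernel, by decide +kernel, by decide +kernel, by decide +kernel, by decide +kernel, by decide +kernel⟩

def t40822 : allY (E.wth T2) l40822 = true ∧
    allY (E.wth T2) l40823 = true ∧
    allY (E.wth T2) l40824 = true ∧
    allY (E.wth T2) l40825 = true ∧
    allY (E.wth T2) l40826 = true ∧
    allY (E.wth T2) l40827 = true ∧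
    allY (E.wth T2) l40828 = true ∧
    allY (E.wth T2) l40829 = true :=
  ⟨by decide +kernel, by decide +kernel, by decide +kernel, by decide +kernel, by decide +kernel, by decide +kernel, by decide +kernel, by decide +kernel⟩

def t40830 : allY (E.wth T2) l40830 = true ∧
    allY (E.wth T2) l40831 = true ∧
    allY (E.wth T2) l40832 = true ∧
    allY (E.wth T2) l40833 = true ∧
    allY (E.wth T2) l40834 = true ∧
    allY (E.wth T2) l40835 = true ∧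
    allY (E.wth T2) l40836 = true ∧
    allY (E.wth T2) l40837 = true :=
  ⟨by decide +kernel, by decide +kernel, by decide +kernel, by decide +kernel, by decide +kernel, by decide +kernel, by decide +kernel, by decide +kernel⟩

def t40838 : allY (E.wth T2) l40838 = true ∧
    allY (E.wth T2) l40839 = true ∧
    allY (E.wth T2) l40840 = true ∧
    allY (E.wth T2) l40841 = true ∧
    allY (E.wth T2) l40842 = true ∧
    allY (E.wth T2) l40843 = true ∧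
    allY (E.wth T2) l40844 = true ∧
    allY (E.wth T2) l40845 = true :=
  ⟨by decide +kernel, by decide +kernel, by decide +kernel, by decide +kernel, by decide +kernel, by decide +kernel, by decide +kernel, by decide +kernel⟩

def t40846 : allY (E.wth T2) l40846 = true ∧
    allY (E.wth T2) l40847 = true ∧
    allY (E.wth T2) l40848 = true ∧
    allY (E.wth T2) l40849 = true ∧
    allY (E.wth T2) l40850 = true ∧
    allY (E.wth T2) l40851 = true ∧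
    allY (E.wth T2) l40852 = true ∧
    allY (E.wth T2) l40853 = true :=
  ⟨by decide +kernel, by decide +kernel, by decide +kernel, by decide +kernel, by decide +kernel, by decide +kernel, by decide +kernel, by decide +kernel⟩

def t40854 : allY (E.wth T2) l40854 = true ∧
    allY (E.wth T2) l40855 = true ∧
    allY (E.wth T2) l40856 = true ∧
    allY (E.wth T2) l40857 = true ∧
    allY (E.wth T2) l40858 = true ∧
    allY (E.wth T2) l40859 = true ∧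
    allY (E.wth T2) l40860 = true ∧
    allY (E.wth T2) l40861 = true :=
  ⟨by decide +kernel, by decide +kernel, by decide +kernel, by decide +kernel, by decide +kernel, by decide +kernel, by decide +kernel, by decide +kernel⟩

def t40862 : allY (E.wth T2) l40862 = true ∧
    allY (E.wth T2) l40863 = true ∧
    allY (E.wth T2) l40864 = true ∧
    allY (E.wth T2) l40865 = true ∧
    allY (E.wth T2) l40866 = true ∧
    allY (E.wth T2) l40867 = true ∧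
    allY (E.wth T2) l40868 = true ∧
    allY (E.wth T2) l40869 = true :=
  ⟨by decide +kernel, by decide +kernel, by decide +kernel, by decide +kernel, by decide +kernel, by decide +kernel, by decide +kernel, by decide +kernel⟩

def t40870 : allY (E.wth T2) l40870 = true ∧
    allY (E.wth T2) l40871 = true ∧
    allY (E.wth T2) l40872 = true ∧
    allY (E.wth T2) l40873 = true ∧
    allY (E.wth T2) l40874 = true ∧
    allY (E.wth T2) l40875 = true ∧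
    allY (E.wth T2) l40876 = true ∧
    allY (E.wth T2) l40877 = true :=
  ⟨by decide +kernel, by decide +kernel, by decide +kernel, by decide +kernel, by decide +kernel, by decide +kernel, by decide +kernel, by decide +kernel⟩

def t40878 : allY (E.wth T2) l40878 = true ∧
    allY (E.wth T2) l40879 = true ∧
    allY (E.wth T2) l40880 = true ∧
    allY (E.wth T2) l40881 = true ∧
    allY (E.wth T2) l40882 = true ∧
    allY (E.wth T2) l40883 = true ∧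
    allY (E.wth T2) l40884 = true ∧
    allY (E.wth T2) l40885 = true :=
  ⟨by decide +kernel, by decide +kernel, by decide +kernel, by decide +kernel, by decide +kernel, by decide +kernel, by decide +kernel, by decide +kernel⟩

def t40886 : allY (E.wth T2) l40886 = true ∧
    allY (E.wth T2) l40887 = true ∧
    allY (E.wth T2) l40888 = true ∧
    allY (E.wth T2) l40889 = true ∧
    allY (E.wth T2) l40890 = true ∧
    allY (E.wth T2) l40891 = true ∧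
    allY (E.wth T2) l40892 = true ∧
    allY (E.wth T2) l40893 = true :=
  ⟨by decide +kernel, by decide +kernel, by decide +kernel, by decide +kernel, by decide +kernel, by decide +kernel, by decide +kernel, by decide +kernel⟩

def t40894 : allY (E.wth T2) l40894 = true ∧
    allY (E.wth T2) l40895 = true ∧
    allY (E.wth T2) l40896 = true ∧
    allY (E.wth T2) l40897 = true ∧
    allY (E.wth T2) l40898 = true ∧
    allY (E.wth T2) l40899 = true ∧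
    allY (E.wth T2) l40900 = true ∧
    allY (E.wth T2) l40901 = true :=
  ⟨by decide +kernel, by decide +kernel, by decide +kernel, by decide +kernel, by decide +kernel, by decide +kernel, by decide +kernel, by decide +kernel⟩

def t40902 : allY (E.wth T2) l40902 = true ∧
    allY (E.wth T2) l40903 = true ∧
    allY (E.wth T2) l40904 = true ∧
    allY (E.wth T2) l40905 = true ∧
    allY (E.wth T2) l40906 = true ∧
    allY (E.wth T2) l40907 = true ∧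
    allY (E.wth T2) l40908 = true ∧
    allY (E.wth T2) l40909 = true :=
  ⟨by decide +kernel, by decide +kernel, by decide +kernel, by decide +kernel, by decide +kernel, by decide +kernel, by decide +kernel, by decide +kernel⟩

def t40910 : allY (E.wth T2) l40910 = true ∧
    allY (E.wth T2) l40911 = true ∧
    allY (E.wth T2) l40912 = true ∧
    allY (E.wth T2) l40913 = true ∧
    allY (E.wth T2) l40914 = true ∧
    allY (E.wth T2) l40915 = true ∧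
    allY (E.wth T2) l40916 = true ∧
    allY (E.wth T2) l40917 = true :=
  ⟨by decide +kernel, by decide +kernel, by decide +kernel, by decide +kernel, by decide +kernel, by decide +kernel, by decide +kernel, by decide +kernel⟩

def t40918 : allY (E.wth T2) l40918 = true ∧
    allY (E.wth T2) l40919 = true ∧
    allY (E.wth T2) l40920 = true ∧
    allY (E.wth T2) l40921 = true ∧
    allY (E.wth T2) l40922 = true ∧
    allY (E.wth T2) l40923 = true ∧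
    allY (E.wth T2) l40924 = true ∧
    allY (E.wth T2) l40925 = true :=
  ⟨by decide +kernel, by decide +kernel, by decide +kernel, by decide +kernel, by decide +kernel, by decide +kernel, by decide +kernel, by decide +kernel⟩

theorem a74 {p : Rf → Prop} (H : ∀ l, allY (E.wth T2) l = true → (lkp l).All p) :
    b74.All p := ⟨⟨⟨⟨⟨⟨⟨⟨⟨H _ t40366.1, H _ t40366.2.1⟩, ⟨H _ t40366.2.2.1, H _ t40366.2.2.2.1⟩⟩, ⟨⟨H _ t40366.2.2.2.2.1, H _ t40366.2.2.2.2.2.1⟩, ⟨H _ t40366.2.2.2.2.2.2.1, H _ t40366.2.2.2.2.2.2.2⟩⟩⟩, ⟨⟨⟨H _ t40374.1, H _ t40374.2.1⟩, ⟨H _ t40374.2.2.1, H _ t40374.2.2.2.1⟩⟩, ⟨⟨H _ t40374.2.2.2.2.1, H _ t40374.2.2.2.2.2.1⟩, ⟨H _ t40374.2.2.2.2.2.2.1, ⟨H _ t40374.2.2.2.2.2.2.2, H _ t40382.1⟩⟩⟩⟩⟩, ⟨⟨⟨⟨H _ t40382.2.1, H _ t40382.2.2.1⟩, ⟨H _ t40382.2.2.2.1, H _ t40382.2.2.2.2.1⟩⟩, ⟨⟨H _ t40382.2.2.2.2.2.1, H _ t40382.2.2.2.2.2.2.1⟩, ⟨H _ t40382.2.2.2.2.2.2.2, ⟨H _ t40390.1, H _ t40390.2.1⟩⟩⟩⟩,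 ⟨⟨⟨H _ t40390.2.2.1, H _ t40390.2.2.2.1⟩, ⟨H _ t40390.2.2.2.2.1, H _ t40390.2.2.2.2.2.1⟩⟩, ⟨⟨H _ t40390.2.2.2.2.2.2.1, H _ t40390.2.2.2.2.2.2.2⟩, ⟨H _ t40398.1, ⟨H _ t40398.2.1, H _ t40398.2.2.1⟩⟩⟩⟩⟩⟩, ⟨⟨⟨⟨⟨H _ t40398.2.2.2.1, H _ t40398.2.2.2.2.1⟩, ⟨H _ t40398.2.2.2.2.2.1, H _ t40398.2.2.2.2.2.2.1⟩⟩, ⟨⟨H _ t40398.2.2.2.2.2.2.2, H _ t40406.1⟩, ⟨H _ t40406.2.1, H _ t40406.2.2.1⟩⟩⟩, ⟨⟨⟨H _ t40406.2.2.2.1, H _ t40406.2.2.2.2.1⟩, ⟨H _ t40406.2.2.2.2.2.1, H _ t40406.2.2.2.2.2.2.1⟩⟩, ⟨⟨H _ t40406.2.2.2.2.2.2.2, H _ t40414.1⟩, ⟨H _ t40414.2.1, ⟨H _ t40414.2.2.1, H _ t40414.2.2.2.1⟩⟩⟩⟩⟩, ⟨⟨⟨⟨H _ t40414.2.2.2.2.1, H _ t40414.2.2.2.2.2.1⟩, ⟨H _ t40414.2.2.2.2.2.2.1, H _ t40414.2.2.2.2.2.2.2⟩⟩, ⟨⟨H _ t40422.1, H _ t40422.2.1⟩, ⟨H _ t40422.2.2.1, ⟨H _ t40422.2.2.2.1, H _ t40422.2.2.2.2.1⟩⟩⟩⟩, ⟨⟨⟨H _ t40422.2.2.2.2.2.1, H _ t40422.2.2.2.2.2.2.1⟩, ⟨H _ t40422.2.2.2.2.2.2.2, H _ t40430.1⟩⟩, ⟨⟨H _ t40430.2.1,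 H _ t40430.2.2.1⟩, ⟨H _ t40430.2.2.2.1, ⟨H _ t40430.2.2.2.2.1, H _ t40430.2.2.2.2.2.1⟩⟩⟩⟩⟩⟩⟩, ⟨⟨⟨⟨⟨⟨H _ t40430.2.2.2.2.2.2.1, H _ t40430.2.2.2.2.2.2.2⟩, ⟨H _ t40438.1, H _ t40438.2.1⟩⟩, ⟨⟨H _ t40438.2.2.1, H _ t40438.2.2.2.1⟩, ⟨H _ t40438.2.2.2.2.1, H _ t40438.2.2.2.2.2.1⟩⟩⟩, ⟨⟨⟨H _ t40438.2.2.2.2.2.2.1, H _ t40438.2.2.2.2.2.2.2⟩, ⟨H _ t40446.1, H _ t40446.2.1⟩⟩, ⟨⟨H _ t40446.2.2.1, H _ t40446.2.2.2.1⟩, ⟨H _ t40446.2.2.2.2.1, ⟨H _ t40446.2.2.2.2.2.1, H _ t40446.2.2.2.2.2.2.1⟩⟩⟩⟩⟩, ⟨⟨⟨⟨H _ t40446.2.2.2.2.2.2.2, H _ t40454.1⟩, ⟨H _ t40454.2.1, H _ t40454.2.2.1⟩⟩, ⟨⟨H _ t40454.2.2.2.1, H _ t40454.2.2.2.2.1⟩, ⟨H _ t40454.2.2.2.2.2.1, ⟨H _ t40454.2.2.2.2.2.2.1, H _ t40454.2.2.2.2.2.2.2⟩⟩⟩⟩, ⟨⟨⟨H _ t40462.1, H _ t40462.2.1⟩, ⟨H _ t40462.2.2.1, H _ t40462.2.2.2.1⟩⟩, ⟨⟨H _ t40462.2.2.2.2.1, H _ t40462.2.2.2.2.2.1⟩, ⟨H _ t40462.2.2.2.2.2.2.1, ⟨H _ t40462.2.2.2.2.2.2.2, H _ t40470.1⟩⟩⟩⟩⟩⟩, ⟨⟨⟨⟨⟨H _ t40470.2.1,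 H _ t40470.2.2.1⟩, ⟨H _ t40470.2.2.2.1, H _ t40470.2.2.2.2.1⟩⟩, ⟨⟨H _ t40470.2.2.2.2.2.1, H _ t40470.2.2.2.2.2.2.1⟩, ⟨H _ t40470.2.2.2.2.2.2.2, H _ t40478.1⟩⟩⟩, ⟨⟨⟨H _ t40478.2.1, H _ t40478.2.2.1⟩, ⟨H _ t40478.2.2.2.1, H _ t40478.2.2.2.2.1⟩⟩, ⟨⟨H _ t40478.2.2.2.2.2.1, H _ t40478.2.2.2.2.2.2.1⟩, ⟨H _ t40478.2.2.2.2.2.2.2, ⟨H _ t40486.1, H _ t40486.2.1⟩⟩⟩⟩⟩, ⟨⟨⟨⟨H _ t40486.2.2.1, H _ t40486.2.2.2.1⟩, ⟨H _ t40486.2.2.2.2.1, H _ t40486.2.2.2.2.2.1⟩⟩, ⟨⟨H _ t40486.2.2.2.2.2.2.1, H _ t40486.2.2.2.2.2.2.2⟩, ⟨H _ t40494.1, ⟨H _ t40494.2.1, H _ t40494.2.2.1⟩⟩⟩⟩, ⟨⟨⟨H _ t40494.2.2.2.1, H _ t40494.2.2.2.2.1⟩, ⟨H _ t40494.2.2.2.2.2.1, H _ t40494.2.2.2.2.2.2.1⟩⟩, ⟨⟨H _ t40494.2.2.2.2.2.2.2, H _ t40502.1⟩, ⟨H _ t40502.2.1, ⟨H _ t40502.2.2.1, H _ t40502.2.2.2.1⟩⟩⟩⟩⟩⟩⟩⟩, ⟨⟨⟨⟨⟨⟨⟨H _ t40502.2.2.2.2.1, H _ t40502.2.2.2.2.2.1⟩, ⟨H _ t40502.2.2.2.2.2.2.1, H _ t40502.2.2.2.2.2.2.2⟩⟩, ⟨⟨H _ t40510.1, H _ t40510.2.1⟩,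 ⟨H _ t40510.2.2.1, H _ t40510.2.2.2.1⟩⟩⟩, ⟨⟨⟨H _ t40510.2.2.2.2.1, H _ t40510.2.2.2.2.2.1⟩, ⟨H _ t40510.2.2.2.2.2.2.1, H _ t40510.2.2.2.2.2.2.2⟩⟩, ⟨⟨H _ t40518.1, H _ t40518.2.1⟩, ⟨H _ t40518.2.2.1, ⟨H _ t40518.2.2.2.1, H _ t40518.2.2.2.2.1⟩⟩⟩⟩⟩, ⟨⟨⟨⟨H _ t40518.2.2.2.2.2.1, H _ t40518.2.2.2.2.2.2.1⟩, ⟨H _ t40518.2.2.2.2.2.2.2, H _ t40526.1⟩⟩, ⟨⟨H _ t40526.2.1, H _ t40526.2.2.1⟩, ⟨H _ t40526.2.2.2.1, ⟨H _ t40526.2.2.2.2.1, H _ t40526.2.2.2.2.2.1⟩⟩⟩⟩, ⟨⟨⟨H _ t40526.2.2.2.2.2.2.1, H _ t40526.2.2.2.2.2.2.2⟩, ⟨H _ t40534.1, H _ t40534.2.1⟩⟩, ⟨⟨H _ t40534.2.2.1, H _ t40534.2.2.2.1⟩, ⟨H _ t40534.2.2.2.2.1, ⟨H _ t40534.2.2.2.2.2.1, H _ t40534.2.2.2.2.2.2.1⟩⟩⟩⟩⟩⟩, ⟨⟨⟨⟨⟨H _ t40534.2.2.2.2.2.2.2, H _ t40542.1⟩, ⟨H _ t40542.2.1, H _ t40542.2.2.1⟩⟩, ⟨⟨H _ t40542.2.2.2.1, H _ t40542.2.2.2.2.1⟩, ⟨H _ t40542.2.2.2.2.2.1, H _ t40542.2.2.2.2.2.2.1⟩⟩⟩, ⟨⟨⟨H _ t40542.2.2.2.2.2.2.2, H _ t40550.1⟩, ⟨H _ t40550.2.1,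 H _ t40550.2.2.1⟩⟩, ⟨⟨H _ t40550.2.2.2.1, H _ t40550.2.2.2.2.1⟩, ⟨H _ t40550.2.2.2.2.2.1, ⟨H _ t40550.2.2.2.2.2.2.1, H _ t40550.2.2.2.2.2.2.2⟩⟩⟩⟩⟩, ⟨⟨⟨⟨H _ t40558.1, H _ t40558.2.1⟩, ⟨H _ t40558.2.2.1, H _ t40558.2.2.2.1⟩⟩, ⟨⟨H _ t40558.2.2.2.2.1, H _ t40558.2.2.2.2.2.1⟩, ⟨H _ t40558.2.2.2.2.2.2.1, ⟨H _ t40558.2.2.2.2.2.2.2, H _ t40566.1⟩⟩⟩⟩, ⟨⟨⟨H _ t40566.2.1, H _ t40566.2.2.1⟩, ⟨H _ t40566.2.2.2.1, H _ t40566.2.2.2.2.1⟩⟩, ⟨⟨H _ t40566.2.2.2.2.2.1, H _ t40566.2.2.2.2.2.2.1⟩, ⟨H _ t40566.2.2.2.2.2.2.2, ⟨H _ t40574.1, H _ t40574.2.1⟩⟩⟩⟩⟩⟩⟩, ⟨⟨⟨⟨⟨⟨H _ t40574.2.2.1, H _ t40574.2.2.2.1⟩, ⟨H _ t40574.2.2.2.2.1, H _ t40574.2.2.2.2.2.1⟩⟩, ⟨⟨H _ t40574.2.2.2.2.2.2.1, H _ t40574.2.2.2.2.2.2.2⟩, ⟨H _ t40582.1, H _ t40582.2.1⟩⟩⟩, ⟨⟨⟨H _ t40582.2.2.1, H _ t40582.2.2.2.1⟩, ⟨H _ t40582.2.2.2.2.1, H _ t40582.2.2.2.2.2.1⟩⟩, ⟨⟨H _ t40582.2.2.2.2.2.2.1, H _ t40582.2.2.2.2.2.2.2⟩, ⟨H _ t40590.1, ⟨H _ t40590.2.1,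 H _ t40590.2.2.1⟩⟩⟩⟩⟩, ⟨⟨⟨⟨H _ t40590.2.2.2.1, H _ t40590.2.2.2.2.1⟩, ⟨H _ t40590.2.2.2.2.2.1, H _ t40590.2.2.2.2.2.2.1⟩⟩, ⟨⟨H _ t40590.2.2.2.2.2.2.2, H _ t40598.1⟩, ⟨H _ t40598.2.1, ⟨H _ t40598.2.2.1, H _ t40598.2.2.2.1⟩⟩⟩⟩, ⟨⟨⟨H _ t40598.2.2.2.2.1, H _ t40598.2.2.2.2.2.1⟩, ⟨H _ t40598.2.2.2.2.2.2.1, H _ t40598.2.2.2.2.2.2.2⟩⟩, ⟨⟨H _ t40606.1, H _ t40606.2.1⟩, ⟨H _ t40606.2.2.1, ⟨H _ t40606.2.2.2.1, H _ t40606.2.2.2.2.1⟩⟩⟩⟩⟩⟩, ⟨⟨⟨⟨⟨H _ t40606.2.2.2.2.2.1, H _ t40606.2.2.2.2.2.2.1⟩, ⟨H _ t40606.2.2.2.2.2.2.2, H _ t40614.1⟩⟩, ⟨⟨H _ t40614.2.1, H _ t40614.2.2.1⟩, ⟨H _ t40614.2.2.2.1, H _ t40614.2.2.2.2.1⟩⟩⟩, ⟨⟨⟨H _ t40614.2.2.2.2.2.1, H _ t40614.2.2.2.2.2.2.1⟩, ⟨H _ t40614.2.2.2.2.2.2.2, H _ t40622.1⟩⟩, ⟨⟨H _ t40622.2.1, H _ t40622.2.2.1⟩, ⟨H _ t40622.2.2.2.1, ⟨H _ t40622.2.2.2.2.1, H _ t40622.2.2.2.2.2.1⟩⟩⟩⟩⟩, ⟨⟨⟨⟨H _ t40622.2.2.2.2.2.2.1, H _ t40622.2.2.2.2.2.2.2⟩, ⟨H _ t40630.1, H _ t40630.2.1⟩⟩,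 ⟨⟨H _ t40630.2.2.1, H _ t40630.2.2.2.1⟩, ⟨H _ t40630.2.2.2.2.1, ⟨H _ t40630.2.2.2.2.2.1, H _ t40630.2.2.2.2.2.2.1⟩⟩⟩⟩, ⟨⟨⟨H _ t40630.2.2.2.2.2.2.2, H _ t40638.1⟩, ⟨H _ t40638.2.1, H _ t40638.2.2.1⟩⟩, ⟨⟨H _ t40638.2.2.2.1, H _ t40638.2.2.2.2.1⟩, ⟨H _ t40638.2.2.2.2.2.1, ⟨H _ t40638.2.2.2.2.2.2.1, H _ t40638.2.2.2.2.2.2.2⟩⟩⟩⟩⟩⟩⟩⟩⟩, ⟨⟨⟨⟨⟨⟨⟨⟨H _ t40646.1, H _ t40646.2.1⟩, ⟨H _ t40646.2.2.1, H _ t40646.2.2.2.1⟩⟩, ⟨⟨H _ t40646.2.2.2.2.1, H _ t40646.2.2.2.2.2.1⟩, ⟨H _ t40646.2.2.2.2.2.2.1, H _ t40646.2.2.2.2.2.2.2⟩⟩⟩, ⟨⟨⟨H _ t40654.1, H _ t40654.2.1⟩, ⟨H _ t40654.2.2.1, H _ t40654.2.2.2.1⟩⟩, ⟨⟨H _ t40654.2.2.2.2.1, H _ t40654.2.2.2.2.2.1⟩, ⟨H _ t40654.2.2.2.2.2.2.1, ⟨H _ t40654.2.2.2.2.2.2.2, H _ t40662.1⟩⟩⟩⟩⟩, ⟨⟨⟨⟨H _ t40662.2.1, H _ t40662.2.2.1⟩, ⟨H _ t40662.2.2.2.1, H _ t40662.2.2.2.2.1⟩⟩, ⟨⟨H _ t40662.2.2.2.2.2.1, H _ t40662.2.2.2.2.2.2.1⟩, ⟨H _ t40662.2.2.2.2.2.2.2, ⟨H _ t40670.1, H _ t40670.2.1⟩⟩⟩⟩,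 ⟨⟨⟨H _ t40670.2.2.1, H _ t40670.2.2.2.1⟩, ⟨H _ t40670.2.2.2.2.1, H _ t40670.2.2.2.2.2.1⟩⟩, ⟨⟨H _ t40670.2.2.2.2.2.2.1, H _ t40670.2.2.2.2.2.2.2⟩, ⟨H _ t40678.1, ⟨H _ t40678.2.1, H _ t40678.2.2.1⟩⟩⟩⟩⟩⟩, ⟨⟨⟨⟨⟨H _ t40678.2.2.2.1, H _ t40678.2.2.2.2.1⟩, ⟨H _ t40678.2.2.2.2.2.1, H _ t40678.2.2.2.2.2.2.1⟩⟩, ⟨⟨H _ t40678.2.2.2.2.2.2.2, H _ t40686.1⟩, ⟨H _ t40686.2.1, H _ t40686.2.2.1⟩⟩⟩, ⟨⟨⟨H _ t40686.2.2.2.1, H _ t40686.2.2.2.2.1⟩, ⟨H _ t40686.2.2.2.2.2.1, H _ t40686.2.2.2.2.2.2.1⟩⟩, ⟨⟨H _ t40686.2.2.2.2.2.2.2, H _ t40694.1⟩, ⟨H _ t40694.2.1, ⟨H _ t40694.2.2.1, H _ t40694.2.2.2.1⟩⟩⟩⟩⟩, ⟨⟨⟨⟨H _ t40694.2.2.2.2.1, H _ t40694.2.2.2.2.2.1⟩, ⟨H _ t40694.2.2.2.2.2.2.1, H _ t40694.2.2.2.2.2.2.2⟩⟩, ⟨⟨H _ t40702.1, H _ t40702.2.1⟩, ⟨H _ t40702.2.2.1, ⟨H _ t40702.2.2.2.1, H _ t40702.2.2.2.2.1⟩⟩⟩⟩, ⟨⟨⟨H _ t40702.2.2.2.2.2.1, H _ t40702.2.2.2.2.2.2.1⟩, ⟨H _ t40702.2.2.2.2.2.2.2, H _ t40710.1⟩⟩, ⟨⟨H _ t40710.2.1,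 H _ t40710.2.2.1⟩, ⟨H _ t40710.2.2.2.1, ⟨H _ t40710.2.2.2.2.1, H _ t40710.2.2.2.2.2.1⟩⟩⟩⟩⟩⟩⟩, ⟨⟨⟨⟨⟨⟨H _ t40710.2.2.2.2.2.2.1, H _ t40710.2.2.2.2.2.2.2⟩, ⟨H _ t40718.1, H _ t40718.2.1⟩⟩, ⟨⟨H _ t40718.2.2.1, H _ t40718.2.2.2.1⟩, ⟨H _ t40718.2.2.2.2.1, H _ t40718.2.2.2.2.2.1⟩⟩⟩, ⟨⟨⟨H _ t40718.2.2.2.2.2.2.1, H _ t40718.2.2.2.2.2.2.2⟩, ⟨H _ t40726.1, H _ t40726.2.1⟩⟩, ⟨⟨H _ t40726.2.2.1, H _ t40726.2.2.2.1⟩, ⟨H _ t40726.2.2.2.2.1, ⟨H _ t40726.2.2.2.2.2.1, H _ t40726.2.2.2.2.2.2.1⟩⟩⟩⟩⟩, ⟨⟨⟨⟨H _ t40726.2.2.2.2.2.2.2, H _ t40734.1⟩, ⟨H _ t40734.2.1, H _ t40734.2.2.1⟩⟩, ⟨⟨H _ t40734.2.2.2.1, H _ t40734.2.2.2.2.1⟩, ⟨H _ t40734.2.2.2.2.2.1, ⟨H _ t40734.2.2.2.2.2.2.1, H _ t40734.2.2.2.2.2.2.2⟩⟩⟩⟩, ⟨⟨⟨H _ t40742.1, H _ t40742.2.1⟩, ⟨H _ t40742.2.2.1, H _ t40742.2.2.2.1⟩⟩, ⟨⟨H _ t40742.2.2.2.2.1, H _ t40742.2.2.2.2.2.1⟩, ⟨H _ t40742.2.2.2.2.2.2.1, ⟨H _ t40742.2.2.2.2.2.2.2, H _ t40750.1⟩⟩⟩⟩⟩⟩, ⟨⟨⟨⟨⟨H _ t40750.2.1,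 H _ t40750.2.2.1⟩, ⟨H _ t40750.2.2.2.1, H _ t40750.2.2.2.2.1⟩⟩, ⟨⟨H _ t40750.2.2.2.2.2.1, H _ t40750.2.2.2.2.2.2.1⟩, ⟨H _ t40750.2.2.2.2.2.2.2, H _ t40758.1⟩⟩⟩, ⟨⟨⟨H _ t40758.2.1, H _ t40758.2.2.1⟩, ⟨H _ t40758.2.2.2.1, H _ t40758.2.2.2.2.1⟩⟩, ⟨⟨H _ t40758.2.2.2.2.2.1, H _ t40758.2.2.2.2.2.2.1⟩, ⟨H _ t40758.2.2.2.2.2.2.2, ⟨H _ t40766.1, H _ t40766.2.1⟩⟩⟩⟩⟩, ⟨⟨⟨⟨H _ t40766.2.2.1, H _ t40766.2.2.2.1⟩, ⟨H _ t40766.2.2.2.2.1, H _ t40766.2.2.2.2.2.1⟩⟩, ⟨⟨H _ t40766.2.2.2.2.2.2.1, H _ t40766.2.2.2.2.2.2.2⟩, ⟨H _ t40774.1, ⟨H _ t40774.2.1, H _ t40774.2.2.1⟩⟩⟩⟩, ⟨⟨⟨H _ t40774.2.2.2.1, H _ t40774.2.2.2.2.1⟩, ⟨H _ t40774.2.2.2.2.2.1, H _ t40774.2.2.2.2.2.2.1⟩⟩, ⟨⟨H _ t40774.2.2.2.2.2.2.2, H _ t40782.1⟩, ⟨H _ t40782.2.1, ⟨H _ t40782.2.2.1, H _ t40782.2.2.2.1⟩⟩⟩⟩⟩⟩⟩⟩, ⟨⟨⟨⟨⟨⟨⟨H _ t40782.2.2.2.2.1, H _ t40782.2.2.2.2.2.1⟩, ⟨H _ t40782.2.2.2.2.2.2.1, H _ t40782.2.2.2.2.2.2.2⟩⟩, ⟨⟨H _ t40790.1, H _ t40790.2.1⟩,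 ⟨H _ t40790.2.2.1, H _ t40790.2.2.2.1⟩⟩⟩, ⟨⟨⟨H _ t40790.2.2.2.2.1, H _ t40790.2.2.2.2.2.1⟩, ⟨H _ t40790.2.2.2.2.2.2.1, H _ t40790.2.2.2.2.2.2.2⟩⟩, ⟨⟨H _ t40798.1, H _ t40798.2.1⟩, ⟨H _ t40798.2.2.1, ⟨H _ t40798.2.2.2.1, H _ t40798.2.2.2.2.1⟩⟩⟩⟩⟩, ⟨⟨⟨⟨H _ t40798.2.2.2.2.2.1, H _ t40798.2.2.2.2.2.2.1⟩, ⟨H _ t40798.2.2.2.2.2.2.2, H _ t40806.1⟩⟩, ⟨⟨H _ t40806.2.1, H _ t40806.2.2.1⟩, ⟨H _ t40806.2.2.2.1, ⟨H _ t40806.2.2.2.2.1, H _ t40806.2.2.2.2.2.1⟩⟩⟩⟩, ⟨⟨⟨H _ t40806.2.2.2.2.2.2.1, H _ t40806.2.2.2.2.2.2.2⟩, ⟨H _ t40814.1, H _ t40814.2.1⟩⟩, ⟨⟨H _ t40814.2.2.1, H _ t40814.2.2.2.1⟩, ⟨H _ t40814.2.2.2.2.1, ⟨H _ t40814.2.2.2.2.2.1, H _ t40814.2.2.2.2.2.2.1⟩⟩⟩⟩⟩⟩, ⟨⟨⟨⟨⟨H _ t40814.2.2.2.2.2.2.2, H _ t40822.1⟩, ⟨H _ t40822.2.1, H _ t40822.2.2.1⟩⟩, ⟨⟨H _ t40822.2.2.2.1, H _ t40822.2.2.2.2.1⟩, ⟨H _ t40822.2.2.2.2.2.1, H _ t40822.2.2.2.2.2.2.1⟩⟩⟩, ⟨⟨⟨H _ t40822.2.2.2.2.2.2.2, H _ t40830.1⟩, ⟨H _ t40830.2.1,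 H _ t40830.2.2.1⟩⟩, ⟨⟨H _ t40830.2.2.2.1, H _ t40830.2.2.2.2.1⟩, ⟨H _ t40830.2.2.2.2.2.1, ⟨H _ t40830.2.2.2.2.2.2.1, H _ t40830.2.2.2.2.2.2.2⟩⟩⟩⟩⟩, ⟨⟨⟨⟨H _ t40838.1, H _ t40838.2.1⟩, ⟨H _ t40838.2.2.1, H _ t40838.2.2.2.1⟩⟩, ⟨⟨H _ t40838.2.2.2.2.1, H _ t40838.2.2.2.2.2.1⟩, ⟨H _ t40838.2.2.2.2.2.2.1, ⟨H _ t40838.2.2.2.2.2.2.2, H _ t40846.1⟩⟩⟩⟩, ⟨⟨⟨H _ t40846.2.1, H _ t40846.2.2.1⟩, ⟨H _ t40846.2.2.2.1, H _ t40846.2.2.2.2.1⟩⟩, ⟨⟨H _ t40846.2.2.2.2.2.1, H _ t40846.2.2.2.2.2.2.1⟩, ⟨H _ t40846.2.2.2.2.2.2.2, ⟨H _ t40854.1, H _ t40854.2.1⟩⟩⟩⟩⟩⟩⟩, ⟨⟨⟨⟨⟨⟨H _ t40854.2.2.1, H _ t40854.2.2.2.1⟩, ⟨H _ t40854.2.2.2.2.1, H _ t40854.2.2.2.2.2.1⟩⟩, ⟨⟨H _ t40854.2.2.2.2.2.2.1, H _ t40854.2.2.2.2.2.2.2⟩, ⟨H _ t40862.1, H _ t40862.2.1⟩⟩⟩, ⟨⟨⟨H _ t40862.2.2.1, H _ t40862.2.2.2.1⟩, ⟨H _ t40862.2.2.2.2.1, H _ t40862.2.2.2.2.2.1⟩⟩, ⟨⟨H _ t40862.2.2.2.2.2.2.1, H _ t40862.2.2.2.2.2.2.2⟩, ⟨H _ t40870.1, ⟨H _ t40870.2.1,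 H _ t40870.2.2.1⟩⟩⟩⟩⟩, ⟨⟨⟨⟨H _ t40870.2.2.2.1, H _ t40870.2.2.2.2.1⟩, ⟨H _ t40870.2.2.2.2.2.1, H _ t40870.2.2.2.2.2.2.1⟩⟩, ⟨⟨H _ t40870.2.2.2.2.2.2.2, H _ t40878.1⟩, ⟨H _ t40878.2.1, ⟨H _ t40878.2.2.1, H _ t40878.2.2.2.1⟩⟩⟩⟩, ⟨⟨⟨H _ t40878.2.2.2.2.1, H _ t40878.2.2.2.2.2.1⟩, ⟨H _ t40878.2.2.2.2.2.2.1, H _ t40878.2.2.2.2.2.2.2⟩⟩, ⟨⟨H _ t40886.1, H _ t40886.2.1⟩, ⟨H _ t40886.2.2.1, ⟨H _ t40886.2.2.2.1, H _ t40886.2.2.2.2.1⟩⟩⟩⟩⟩⟩, ⟨⟨⟨⟨⟨H _ t40886.2.2.2.2.2.1, H _ t40886.2.2.2.2.2.2.1⟩, ⟨H _ t40886.2.2.2.2.2.2.2, H _ t40894.1⟩⟩, ⟨⟨H _ t40894.2.1, H _ t40894.2.2.1⟩, ⟨H _ t40894.2.2.2.1, H _ t40894.2.2.2.2.1⟩⟩⟩, ⟨⟨⟨H _ t40894.2.2.2.2.2.1, H _ t40894.2.2.2.2.2.2.1⟩, ⟨H _ t40894.2.2.2.2.2.2.2, H _ t40902.1⟩⟩, ⟨⟨H _ t40902.2.1, H _ t40902.2.2.1⟩, ⟨H _ t40902.2.2.2.1, ⟨H _ t40902.2.2.2.2.1, H _ t40902.2.2.2.2.2.1⟩⟩⟩⟩⟩, ⟨⟨⟨⟨H _ t40902.2.2.2.2.2.2.1, H _ t40902.2.2.2.2.2.2.2⟩, ⟨H _ t40910.1, H _ t40910.2.1⟩⟩,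 ⟨⟨H _ t40910.2.2.1, H _ t40910.2.2.2.1⟩, ⟨H _ t40910.2.2.2.2.1, ⟨H _ t40910.2.2.2.2.2.1, H _ t40910.2.2.2.2.2.2.1⟩⟩⟩⟩, ⟨⟨⟨H _ t40910.2.2.2.2.2.2.2, H _ t40918.1⟩, ⟨H _ t40918.2.1, H _ t40918.2.2.1⟩⟩, ⟨⟨H _ t40918.2.2.2.1, H _ t40918.2.2.2.2.1⟩, ⟨H _ t40918.2.2.2.2.2.1, ⟨H _ t40918.2.2.2.2.2.2.1, H _ t40918.2.2.2.2.2.2.2⟩⟩⟩⟩⟩⟩⟩⟩⟩⟩

end Pool.Agent.MP_c853c5_nt.X.C4950
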