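import Pool.Agent.MP_c853c5_nt.X.C4950.Env
import Pool.Agent.MP_c853c5_nt.X.C4950.Tab

set_option autoImplicit false
set_option maxRecDepth 8192
set_option linter.all false

namespace Pool.Agent.MP_c853c5_nt.X.C4950

open Pool.Agent.MP_c853c5_nt.X

def t40926 : allY (E.wth T2) l40926 = true ∧
    allY (E.wth T2) l40927 = true ∧
    allY (E.wth T2) l40928 = true ∧
    allY (E.wth T2) l40929 = true ∧
    allY (E.wth T2) l40930 = true ∧
    allY (E.wth T2) l40931 = true ∧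
    allY (E.wth T2) l40932 = true ∧
    allY (E.wth T2) l40933 = true :=
  ⟨by decide +kernel, by decide +kernel, by decide +kernel, by decide +kernel, by decide +kernel, by decide +kernel, by decide +kernel, by decide +kernel⟩

def t40934 : allY (E.wth T2) l40934 = true ∧
    allY (E.wth T2) l40935 = true ∧
    allY (E.wth T2) l40936 = true ∧
    allY (E.wth T2) l40937 = true ∧
    allY (E.wth T2) l40938 = true ∧
    allY (E.wth T2) l40939 = true ∧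
    allY (E.wth T2) l40940 = true ∧
    allY (E.wth T2) l40941 = true :=
  ⟨by decide +kernel, by decide +kernel, by decide +kernel, by decide +kernel, by decide +kernel, by decide +kernel, by decide +kernel, by decide +kernel⟩

def t40942 : allY (E.wth T2) l40942 = true ∧
    allY (E.wth T2) l40943 = true ∧
    allY (E.wth T2) l40944 = true ∧
    allY (E.wth T2) l40945 = true ∧
    allY (E.wth T2) l40946 = true ∧
    allY (E.wth T2) l40947 = true ∧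
    allY (E.wth T2) l40948 = true ∧
    allY (E.wth T2) l40949 = true :=
  ⟨by decide +kernel, by decide +kernel, by decide +kernel, by decide +kernel, by decide +kernel, by decide +kernel, by decide +kernel, by decide +kernel⟩

def t40950 : allY (E.wth T2) l40950 = true ∧
    allY (E.wth T2) l40951 = true ∧
    allY (E.wth T2) l40952 = true ∧
    allY (E.wth T2) l40953 = true ∧
    allY (E.wth T2) l40954 = true ∧
    allY (E.wth T2) l40955 = true ∧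
    allY (E.wth T2) l40956 = true ∧
    allY (E.wth T2) l40957 = true :=
  ⟨by decide +kernel, by decide +kernel, by decide +kernel, by decide +kernel, by decide +kernel, by decide +kernel, by decide +kernel, by decide +kernel⟩

def t40958 : allY (E.wth T2) l40958 = true ∧
    allY (E.wth T2) l40959 = true ∧
    allY (E.wth T2) l40960 = true ∧
    allY (E.wth T2) l40961 = true ∧
    allY (E.wth T2) l40962 = true ∧
    allY (E.wth T2) l40963 = true ∧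
    allY (E.wth T2) l40964 = true ∧
    allY (E.wth T2) l40965 = true :=
  ⟨by decide +kernel, by decide +kernel, by decide +kernel, by decide +kernel, by decide +kernel, by decide +kernel, by decide +kernel, by decide +kernel⟩

def t40966 : allY (E.wth T2) l40966 = true ∧
    allY (E.wth T2) l40967 = true ∧
    allY (E.wth T2) l40968 = true ∧
    allY (E.wth T2) l40969 = true ∧
    allY (E.wth T2) l40970 = true ∧
    allY (E.wth T2) l40971 = true ∧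
    allY (E.wth T2) l40972 = true ∧
    allY (E.wth T2) l40973 = true :=
  ⟨by decide +kernel, by decide +kernel, by decide +kernel, by decide +kernel, by decide +kernel, by decide +kernel, by decide +kernel, by decide +kernel⟩

def t40974 : allY (E.wth T2) l40974 = true ∧
    allY (E.wth T2) l40975 = true ∧
    allY (E.wth T2) l40976 = true ∧
    allY (E.wth T2) l40977 = true ∧
    allY (E.wth T2) l40978 = true ∧
    allY (E.wth T2) l40979 = true ∧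
    allY (E.wth T2) l40980 = true ∧
    allY (E.wth T2) l40981 = true :=
  ⟨by decide +kernel, by decide +kernel, by decide +kernel, by decide +kernel, by decide +kernel, by decide +kernel, by decide +kernel, by decide +kernel⟩

def t40982 : allY (E.wth T2) l40982 = true ∧
    allY (E.wth T2) l40983 = true ∧
    allY (E.wth T2) l40984 = true ∧
    allY (E.wth T2) l40985 = true ∧
    allY (E.wth T2) l40986 = true ∧
    allY (E.wth T2) l40987 = true ∧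
    allY (E.wth T2) l40988 = true ∧
    allY (E.wth T2) l40989 = true :=
  ⟨by decide +kernel, by decide +kernel, by decide +kernel, by decide +kernel, by decide +kernel, by decide +kernel, by decide +kernel, by decide +kernel⟩

def t40990 : allY (E.wth T2) l40990 = true ∧
    allY (E.wth T2) l40991 = true ∧
    allY (E.wth T2) l40992 = true ∧
    allY (E.wth T2) l40993 = true ∧
    allY (E.wth T2) l40994 = true ∧
    allY (E.wth T2) l40995 = true ∧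
    allY (E.wth T2) l40996 = true ∧
    allY (E.wth T2) l40997 = true :=
  ⟨by decide +kernel, by decide +kernel, by decide +kernel, by decide +kernel, by decide +kernel, by decide +kernel, by decide +kernel, by decide +kernel⟩

def t40998 : allY (E.wth T2) l40998 = true ∧
    allY (E.wth T2) l40999 = true ∧
    allY (E.wth T2) l41000 = true ∧
    allY (E.wth T2) l41001 = true ∧
    allY (E.wth T2) l41002 = true ∧
    allY (E.wth T2) l41003 = true ∧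
    allY (E.wth T2) l41004 = true ∧
    allY (E.wth T2) l41005 = true :=
  ⟨by decide +kernel, by decide +kernel, by decide +kernel, by decide +kernel, by decide +kernel, by decide +kernel, by decide +kernel, by decide +kernel⟩

def t41006 : allY (E.wth T2) l41006 = true ∧
    allY (E.wth T2) l41007 = true ∧
    allY (E.wth T2) l41008 = true ∧
    allY (E.wth T2) l41009 = true ∧
    allY (E.wth T2) l41010 = true ∧
    allY (E.wth T2) l41011 = true ∧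
    allY (E.wth T2) l41012 = true ∧
    allY (E.wth T2) l41013 = true :=
  ⟨by decide +kernel, by decide +kernel, by decide +kernel, by decide +kernel, by decide +kernel, by decide +kernel, by decide +kernel, by decide +kernel⟩

def t41014 : allY (E.wth T2) l41014 = true ∧
    allY (E.wth T2) l41015 = true ∧
    allY (E.wth T2) l41016 = true ∧
    allY (E.wth T2) l41017 = true ∧
    allY (E.wth T2) l41018 = true ∧
    allY (E.wth T2) l41019 = true ∧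
    allY (E.wth T2) l41020 = true ∧
    allY (E.wth T2) l41021 = true :=
  ⟨by decide +kernel, by decide +kernel, by decide +kernel, by decide +kernel, by decide +kernel, by decide +kernel, by decide +kernel, by decide +kernel⟩

def t41022 : allY (E.wth T2) l41022 = true ∧
    allY (E.wth T2) l41023 = true ∧
    allY (E.wth T2) l41024 = true ∧
    allY (E.wth T2) l41025 = true ∧
    allY (E.wth T2) l41026 = true ∧
    allY (E.wth T2) l41027 = true ∧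
    allY (E.wth T2) l41028 = true ∧
    allY (E.wth T2) l41029 = true :=
  ⟨by decide +kernel, by decide +kernel, by decide +kernel, by decide +kernel, by decide +kernel, by decide +kernel, by decide +kernel, by decide +kernel⟩

def t41030 : allY (E.wth T2) l41030 = true ∧
    allY (E.wth T2) l41031 = true ∧
    allY (E.wth T2) l41032 = true ∧
    allY (E.wth T2) l41033 = true ∧
    allY (E.wth T2) l41034 = true ∧
    allY (E.wth T2) l41035 = true ∧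
    allY (E.wth T2) l41036 = true ∧
    allY (E.wth T2) l41037 = true :=
  ⟨by decide +kernel, by decide +kernel, by decide +kernel, by decide +kernel, by decide +kernel, by decide +kernel, by decide +kernel, by decide +kernel⟩

def t41038 : allY (E.wth T2) l41038 = true ∧
    allY (E.wth T2) l41039 = true ∧
    allY (E.wth T2) l41040 = true ∧
    allY (E.wth T2) l41041 = true ∧
    allY (E.wth T2) l41042 = true ∧
    allY (E.wth T2) l41043 = true ∧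
    allY (E.wth T2) l41044 = true ∧
    allY (E.wth T2) l41045 = true :=
  ⟨by decide +kernel, by decide +kernel, by decide +kernel, by decide +kernel, by decide +kernel, by decide +kernel, by decide +kernel, by decide +kernel⟩

def t41046 : allY (E.wth T2) l41046 = true ∧
    allY (E.wth T2) l41047 = true ∧
    allY (E.wth T2) l41048 = true ∧
    allY (E.wth T2) l41049 = true ∧
    allY (E.wth T2) l41050 = true ∧
    allY (E.wth T2) l41051 = true ∧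
    allY (E.wth T2) l41052 = true ∧
    allY (E.wth T2) l41053 = true :=
  ⟨by decide +kernel, by decide +kernel, by decide +kernel, by decide +kernel, by decide +kernel, by decide +kernel, by decide +kernel, by decide +kernel⟩

def t41054 : allY (E.wth T2) l41054 = true ∧
    allY (E.wth T2) l41055 = true ∧
    allY (E.wth T2) l41056 = true ∧
    allY (E.wth T2) l41057 = true ∧
    allY (E.wth T2) l41058 = true ∧
    allY (E.wth T2) l41059 = true ∧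
    allY (E.wth T2) l41060 = true ∧
    allY (E.wth T2) l41061 = true :=
  ⟨by decide +kernel, by decide +kernel, by decide +kernel, by decide +kernel, by decide +kernel, by decide +kernel, by decide +kernel, by decide +kernel⟩

def t41062 : allY (E.wth T2) l41062 = true ∧
    allY (E.wth T2) l41063 = true ∧
    allY (E.wth T2) l41064 = true ∧
    allY (E.wth T2) l41065 = true ∧
    allY (E.wth T2) l41066 = true ∧
    allY (E.wth T2) l41067 = true ∧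
    allY (E.wth T2) l41068 = true ∧
    allY (E.wth T2) l41069 = true :=
  ⟨by decide +kernel, by decide +kernel, by decide +kernel, by decide +kernel, by decide +kernel, by decide +kernel, by decide +kernel, by decide +kernel⟩

def t41070 : allY (E.wth T2) l41070 = true ∧
    allY (E.wth T2) l41071 = true ∧
    allY (E.wth T2) l41072 = true ∧
    allY (E.wth T2) l41073 = true ∧
    allY (E.wth T2) l41074 = true ∧
    allY (E.wth T2) l41075 = true ∧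
    allY (E.wth T2) l41076 = true ∧
    allY (E.wth T2) l41077 = true :=
  ⟨by decide +kernel, by decide +kernel, by decide +kernel, by decide +kernel, by decide +kernel, by decide +kernel, by decide +kernel, by decide +kernel⟩

def t41078 : allY (E.wth T2) l41078 = true ∧
    allY (E.wth T2) l41079 = true ∧
    allY (E.wth T2) l41080 = true ∧
    allY (E.wth T2) l41081 = true ∧
    allY (E.wth T2) l41082 = true ∧
    allY (E.wth T2) l41083 = true ∧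
    allY (E.wth T2) l41084 = true ∧
    allY (E.wth T2) l41085 = true :=
  ⟨by decide +kernel, by decide +kernel, by decide +kernel, by decide +kernel, by decide +kernel, by decide +kernel, by decide +kernel, by decide +kernel⟩

def t41086 : allY (E.wth T2) l41086 = true ∧
    allY (E.wth T2) l41087 = true ∧
    allY (E.wth T2) l41088 = true ∧
    allY (E.wth T2) l41089 = true ∧
    allY (E.wth T2) l41090 = true ∧
    allY (E.wth T2) l41091 = true ∧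
    allY (E.wth T2) l41092 = true ∧
    allY (E.wth T2) l41093 = true :=
  ⟨by decide +kernel, by decide +kernel, by decide +kernel, by decide +kernel, by decide +kernel, by decide +kernel, by decide +kernel, by decide +kernel⟩

def t41094 : allY (E.wth T2) l41094 = true ∧
    allY (E.wth T2) l41095 = true ∧
    allY (E.wth T2) l41096 = true ∧
    allY (E.wth T2) l41097 = true ∧
    allY (E.wth T2) l41098 = true ∧
    allY (E.wth T2) l41099 = true ∧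
    allY (E.wth T2) l41100 = true ∧
    allY (E.wth T2) l41101 = true :=
  ⟨by decide +kernel, by decide +kernel, by decide +kernel, by decide +kernel, by decide +kernel, by decide +kernel, by decide +kernel, by decide +kernel⟩

def t41102 : allY (E.wth T2) l41102 = true ∧
    allY (E.wth T2) l41103 = true ∧
    allY (E.wth T2) l41104 = true ∧
    allY (E.wth T2) l41105 = true ∧
    allY (E.wth T2) l41106 = true ∧
    allY (E.wth T2) l41107 = true ∧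
    allY (E.wth T2) l41108 = true ∧
    allY (E.wth T2) l41109 = true :=
  ⟨by decide +kernel, by decide +kernel, by decide +kernel, by decide +kernel, by decide +kernel, by decide +kernel, by decide +kernel, by decide +kernel⟩

def t41110 : allY (E.wth T2) l41110 = true ∧
    allY (E.wth T2) l41111 = true ∧
    allY (E.wth T2) l41112 = true ∧
    allY (E.wth T2) l41113 = true ∧
    allY (E.wth T2) l41114 = true ∧
    allY (E.wth T2) l41115 = true ∧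
    allY (E.wth T2) l41116 = true ∧
    allY (E.wth T2) l41117 = true :=
  ⟨by decide +kernel, by decide +kernel, by decide +kernel, by decide +kernel, by decide +kernel, by decide +kernel, by decide +kernel, by decide +kernel⟩

def t41118 : allY (E.wth T2) l41118 = true ∧
    allY (E.wth T2) l41119 = true ∧
    allY (E.wth T2) l41120 = true ∧
    allY (E.wth T2) l41121 = true ∧
    allY (E.wth T2) l41122 = true ∧
    allY (E.wth T2) l41123 = true ∧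
    allY (E.wth T2) l41124 = true ∧
    allY (E.wth T2) l41125 = true :=
  ⟨by decide +kernel, by decide +kernel, by decide +kernel, by decide +kernel, by decide +kernel, by decide +kernel, by decide +kernel, by decide +kernel⟩

def t41126 : allY (E.wth T2) l41126 = true ∧
    allY (E.wth T2) l41127 = true ∧
    allY (E.wth T2) l41128 = true ∧
    allY (E.wth T2) l41129 = true ∧
    allY (E.wth T2) l41130 = true ∧
    allY (E.wth T2) l41131 = true ∧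
    allY (E.wth T2) l41132 = true ∧
    allY (E.wth T2) l41133 = true :=
  ⟨by decide +kernel, by decide +kernel, by decide +kernel, by decide +kernel, by decide +kernel, by decide +kernel, by decide +kernel, by decide +kernel⟩

def t41134 : allY (E.wth T2) l41134 = true ∧
    allY (E.wth T2) l41135 = true ∧
    allY (E.wth T2) l41136 = true ∧
    allY (E.wth T2) l41137 = true ∧
    allY (E.wth T2) l41138 = true ∧
    allY (E.wth T2) l41139 = true ∧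
    allY (E.wth T2) l41140 = true ∧
    allY (E.wth T2) l41141 = true :=
  ⟨by decide +kernel, by decide +kernel, by decide +kernel, by decide +kernel, by decide +kernel, by decide +kernel, by decide +kernel, by decide +kernel⟩

def t41142 : allY (E.wth T2) l41142 = true ∧
    allY (E.wth T2) l41143 = true ∧
    allY (E.wth T2) l41144 = true ∧
    allY (E.wth T2) l41145 = true ∧
    allY (E.wth T2) l41146 = true ∧
    allY (E.wth T2) l41147 = true ∧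
    allY (E.wth T2) l41148 = true ∧
    allY (E.wth T2) l41149 = true :=
  ⟨by decide +kernel, by decide +kernel, by decide +kernel, by decide +kernel, by decide +kernel, by decide +kernel, by decide +kernel, by decide +kernel⟩

def t41150 : allY (E.wth T2) l41150 = true ∧
    allY (E.wth T2) l41151 = true ∧
    allY (E.wth T2) l41152 = true ∧
    allY (E.wth T2) l41153 = true ∧
    allY (E.wth T2) l41154 = true ∧
    allY (E.wth T2) l41155 = true ∧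
    allY (E.wth T2) l41156 = true ∧
    allY (E.wth T2) l41157 = true :=
  ⟨by decide +kernel, by decide +kernel, by decide +kernel, by decide +kernel, by decide +kernel, by decide +kernel, by decide +kernel, by decide +kernel⟩

def t41158 : allY (E.wth T2) l41158 = true ∧
    allY (E.wth T2) l41159 = true ∧
    allY (E.wth T2) l41160 = true ∧
    allY (E.wth T2) l41161 = true ∧
    allY (E.wth T2) l41162 = true ∧
    allY (E.wth T2) l41163 = true ∧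
    allY (E.wth T2) l41164 = true ∧
    allY (E.wth T2) l41165 = true :=
  ⟨by decide +kernel, by decide +kernel, by decide +kernel, by decide +kernel, by decide +kernel, by decide +kernel, by decide +kernel, by decide +kernel⟩

def t41166 : allY (E.wth T2) l41166 = true ∧
    allY (E.wth T2) l41167 = true ∧
    allY (E.wth T2) l41168 = true ∧
    allY (E.wth T2) l41169 = true ∧
    allY (E.wth T2) l41170 = true ∧
    allY (E.wth T2) l41171 = true ∧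
    allY (E.wth T2) l41172 = true ∧
    allY (E.wth T2) l41173 = true :=
  ⟨by decide +kernel, by decide +kernel, by decide +kernel, by decide +kernel, by decide +kernel, by decide +kernel, by decide +kernel, by decide +kernel⟩

def t41174 : allY (E.wth T2) l41174 = true ∧
    allY (E.wth T2) l41175 = true ∧
    allY (E.wth T2) l41176 = true ∧
    allY (E.wth T2) l41177 = true ∧
    allY (E.wth T2) l41178 = true ∧
    allY (E.wth T2) l41179 = true ∧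
    allY (E.wth T2) l41180 = true ∧
    allY (E.wth T2) l41181 = true :=
  ⟨by decide +kernel, by decide +kernel, by decide +kernel, by decide +kernel, by decide +kernel, by decide +kernel, by decide +kernel, by decide +kernel⟩

def t41182 : allY (E.wth T2) l41182 = true ∧
    allY (E.wth T2) l41183 = true ∧
    allY (E.wth T2) l41184 = true ∧
    allY (E.wth T2) l41185 = true ∧
    allY (E.wth T2) l41186 = true ∧
    allY (E.wth T2) l41187 = true ∧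
    allY (E.wth T2) l41188 = true ∧
    allY (E.wth T2) l41189 = true :=
  ⟨by decide +kernel, by decide +kernel, by decide +kernel, by decide +kernel, by decide +kernel, by decide +kernel, by decide +kernel, by decide +kernel⟩

def t41190 : allY (E.wth T2) l41190 = true ∧
    allY (E.wth T2) l41191 = true ∧
    allY (E.wth T2) l41192 = true ∧
    allY (E.wth T2) l41193 = true ∧
    allY (E.wth T2) l41194 = true ∧
    allY (E.wth T2) l41195 = true ∧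
    allY (E.wth T2) l41196 = true ∧
    allY (E.wth T2) l41197 = true :=
  ⟨by decide +kernel, by decide +kernel, by decide +kernel, by decide +kernel, by decide +kernel, by decide +kernel, by decide +kernel, by decide +kernel⟩

def t41198 : allY (E.wth T2) l41198 = true ∧
    allY (E.wth T2) l41199 = true ∧
    allY (E.wth T2) l41200 = true ∧
    allY (E.wth T2) l41201 = true ∧
    allY (E.wth T2) l41202 = true ∧
    allY (E.wth T2) l41203 = true ∧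
    allY (E.wth T2) l41204 = true ∧
    allY (E.wth T2) l41205 = true :=
  ⟨by decide +kernel, by decide +kernel, by decide +kernel, by decide +kernel, by decide +kernel, by decide +kernel, by decide +kernel, by decide +kernel⟩

def t41206 : allY (E.wth T2) l41206 = true ∧
    allY (E.wth T2) l41207 = true ∧
    allY (E.wth T2) l41208 = true ∧
    allY (E.wth T2) l41209 = true ∧
    allY (E.wth T2) l41210 = true ∧
    allY (E.wth T2) l41211 = true ∧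
    allY (E.wth T2) l41212 = true ∧
    allY (E.wth T2) l41213 = true :=
  ⟨by decide +kernel, by decide +kernel, by decide +kernel, by decide +kernel, by decide +kernel, by decide +kernel, by decide +kernel, by decide +kernel⟩

def t41214 : allY (E.wth T2) l41214 = true ∧
    allY (E.wth T2) l41215 = true ∧
    allY (E.wth T2) l41216 = true ∧
    allY (E.wth T2) l41217 = true ∧
    allY (E.wth T2) l41218 = true ∧
    allY (E.wth T2) l41219 = true ∧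
    allY (E.wth T2) l41220 = true ∧
    allY (E.wth T2) l41221 = true :=
  ⟨by decide +kernel, by decide +kernel, by decide +kernel, by decide +kernel, by decide +kernel, by decide +kernel, by decide +kernel, by decide +kernel⟩

def t41222 : allY (E.wth T2) l41222 = true ∧
    allY (E.wth T2) l41223 = true ∧
    allY (E.wth T2) l41224 = true ∧
    allY (E.wth T2) l41225 = true ∧
    allY (E.wth T2) l41226 = true ∧
    allY (E.wth T2) l41227 = true ∧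
    allY (E.wth T2) l41228 = true ∧
    allY (E.wth T2) l41229 = true :=
  ⟨by decide +kernel, by decide +kernel, by decide +kernel, by decide +kernel, by decide +kernel, by decide +kernel, by decide +kernel, by decide +kernel⟩

def t41230 : allY (E.wth T2) l41230 = true ∧
    allY (E.wth T2) l41231 = true ∧
    allY (E.wth T2) l41232 = true ∧
    allY (E.wth T2) l41233 = true ∧
    allY (E.wth T2) l41234 = true ∧
    allY (E.wth T2) l41235 = true ∧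
    allY (E.wth T2) l41236 = true ∧
    allY (E.wth T2) l41237 = true :=
  ⟨by decide +kernel, by decide +kernel, by decide +kernel, by decide +kernel, by decide +kernel, by decide +kernel, by decide +kernel, by decide +kernel⟩

def t41238 : allY (E.wth T2) l41238 = true ∧
    allY (E.wth T2) l41239 = true ∧
    allY (E.wth T2) l41240 = true ∧
    allY (E.wth T2) l41241 = true ∧
    allY (E.wth T2) l41242 = true ∧
    allY (E.wth T2) l41243 = true ∧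
    allY (E.wth T2) l41244 = true ∧
    allY (E.wth T2) l41245 = true :=
  ⟨by decide +kernel, by decide +kernel, by decide +kernel, by decide +kernel, by decide +kernel, by decide +kernel, by decide +kernel, by decide +kernel⟩

def t41246 : allY (E.wth T2) l41246 = true ∧
    allY (E.wth T2) l41247 = true ∧
    allY (E.wth T2) l41248 = true ∧
    allY (E.wth T2) l41249 = true ∧
    allY (E.wth T2) l41250 = true ∧
    allY (E.wth T2) l41251 = true ∧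
    allY (E.wth T2) l41252 = true ∧
    allY (E.wth T2) l41253 = true :=
  ⟨by decide +kernel, by decide +kernel, by decide +kernel, by decide +kernel, by decide +kernel, by decide +kernel, by decide +kernel, by decide +kernel⟩

def t41254 : allY (E.wth T2) l41254 = true ∧
    allY (E.wth T2) l41255 = true ∧
    allY (E.wth T2) l41256 = true ∧
    allY (E.wth T2) l41257 = true ∧
    allY (E.wth T2) l41258 = true ∧
    allY (E.wth T2) l41259 = true ∧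
    allY (E.wth T2) l41260 = true ∧
    allY (E.wth T2) l41261 = true :=
  ⟨by decide +kernel, by decide +kernel, by decide +kernel, by decide +kernel, by decide +kernel, by decide +kernel, by decide +kernel, by decide +kernel⟩

def t41262 : allY (E.wth T2) l41262 = true ∧
    allY (E.wth T2) l41263 = true ∧
    allY (E.wth T2) l41264 = true ∧
    allY (E.wth T2) l41265 = true ∧
    allY (E.wth T2) l41266 = true ∧
    allY (E.wth T2) l41267 = true ∧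
    allY (E.wth T2) l41268 = true ∧
    allY (E.wth T2) l41269 = true :=
  ⟨by decide +kernel, by decide +kernel, by decide +kernel, by decide +kernel, by decide +kernel, by decide +kernel, by decide +kernel, by decide +kernel⟩

def t41270 : allY (E.wth T2) l41270 = true ∧
    allY (E.wth T2) l41271 = true ∧
    allY (E.wth T2) l41272 = true ∧
    allY (E.wth T2) l41273 = true ∧
    allY (E.wth T2) l41274 = true ∧
    allY (E.wth T2) l41275 = true ∧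
    allY (E.wth T2) l41276 = true ∧
    allY (E.wth T2) l41277 = true :=
  ⟨by decide +kernel, by decide +kernel, by decide +kernel, by decide +kernel, by decide +kernel, by decide +kernel, by decide +kernel, by decide +kernel⟩

def t41278 : allY (E.wth T2) l41278 = true ∧
    allY (E.wth T2) l41279 = true ∧
    allY (E.wth T2) l41280 = true ∧
    allY (E.wth T2) l41281 = true ∧
    allY (E.wth T2) l41282 = true ∧
    allY (E.wth T2) l41283 = true ∧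
    allY (E.wth T2) l41284 = true ∧
    allY (E.wth T2) l41285 = true :=
  ⟨by decide +kernel, by decide +kernel, by decide +kernel, by decide +kernel, by decide +kernel, by decide +kernel, by decide +kernel, by decide +kernel⟩

def t41286 : allY (E.wth T2) l41286 = true ∧
    allY (E.wth T2) l41287 = true ∧
    allY (E.wth T2) l41288 = true ∧
    allY (E.wth T2) l41289 = true ∧
    allY (E.wth T2) l41290 = true ∧
    allY (E.wth T2) l41291 = true ∧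
    allY (E.wth T2) l41292 = true ∧
    allY (E.wth T2) l41293 = true :=
  ⟨by decide +kernel, by decide +kernel, by decide +kernel, by decide +kernel, by decide +kernel, by decide +kernel, by decide +kernel, by decide +kernel⟩

def t41294 : allY (E.wth T2) l41294 = true ∧
    allY (E.wth T2) l41295 = true ∧
    allY (E.wth T2) l41296 = true ∧
    allY (E.wth T2) l41297 = true ∧
    allY (E.wth T2) l41298 = true ∧
    allY (E.wth T2) l41299 = true ∧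
    allY (E.wth T2) l41300 = true ∧
    allY (E.wth T2) l41301 = true :=
  ⟨by decide +kernel, by decide +kernel, by decide +kernel, by decide +kernel, by decide +kernel, by decide +kernel, by decide +kernel, by decide +kernel⟩

def t41302 : allY (E.wth T2) l41302 = true ∧
    allY (E.wth T2) l41303 = true ∧
    allY (E.wth T2) l41304 = true ∧
    allY (E.wth T2) l41305 = true ∧
    allY (E.wth T2) l41306 = true ∧
    allY (E.wth T2) l41307 = true ∧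
    allY (E.wth T2) l41308 = true ∧
    allY (E.wth T2) l41309 = true :=
  ⟨by decide +kernel, by decide +kernel, by decide +kernel, by decide +kernel, by decide +kernel, by decide +kernel, by decide +kernel, by decide +kernel⟩

def t41310 : allY (E.wth T2) l41310 = true ∧
    allY (E.wth T2) l41311 = true ∧
    allY (E.wth T2) l41312 = true ∧
    allY (E.wth T2) l41313 = true ∧
    allY (E.wth T2) l41314 = true ∧
    allY (E.wth T2) l41315 = true ∧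
    allY (E.wth T2) l41316 = true ∧
    allY (E.wth T2) l41317 = true :=
  ⟨by decide +kernel, by decide +kernel, by decide +kernel, by decide +kernel, by decide +kernel, by decide +kernel, by decide +kernel, by decide +kernel⟩

def t41318 : allY (E.wth T2) l41318 = true ∧
    allY (E.wth T2) l41319 = true ∧
    allY (E.wth T2) l41320 = true ∧
    allY (E.wth T2) l41321 = true ∧
    allY (E.wth T2) l41322 = true ∧
    allY (E.wth T2) l41323 = true ∧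
    allY (E.wth T2) l41324 = true ∧
    allY (E.wth T2) l41325 = true :=
  ⟨by decide +kernel, by decide +kernel, by decide +kernel, by decide +kernel, by decide +kernel, by decide +kernel, by decide +kernel, by decide +kernel⟩

def t41326 : allY (E.wth T2) l41326 = true ∧
    allY (E.wth T2) l41327 = true ∧
    allY (E.wth T2) l41328 = true ∧
    allY (E.wth T2) l41329 = true ∧
    allY (E.wth T2) l41330 = true ∧
    allY (E.wth T2) l41331 = true ∧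
    allY (E.wth T2) l41332 = true ∧
    allY (E.wth T2) l41333 = true :=
  ⟨by decide +kernel, by decide +kernel, by decide +kernel, by decide +kernel, by decide +kernel, by decide +kernel, by decide +kernel, by decide +kernel⟩

def t41334 : allY (E.wth T2) l41334 = true ∧
    allY (E.wth T2) l41335 = true ∧
    allY (E.wth T2) l41336 = true ∧
    allY (E.wth T2) l41337 = true ∧
    allY (E.wth T2) l41338 = true ∧
    allY (E.wth T2) l41339 = true ∧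
    allY (E.wth T2) l41340 = true ∧
    allY (E.wth T2) l41341 = true :=
  ⟨by decide +kernel, by decide +kernel, by decide +kernel, by decide +kernel, by decide +kernel, by decide +kernel, by decide +kernel, by decide +kernel⟩

def t41342 : allY (E.wth T2) l41342 = true ∧
    allY (E.wth T2) l41343 = true ∧
    allY (E.wth T2) l41344 = true ∧
    allY (E.wth T2) l41345 = true ∧
    allY (E.wth T2) l41346 = true ∧
    allY (E.wth T2) l41347 = true ∧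
    allY (E.wth T2) l41348 = true ∧
    allY (E.wth T2) l41349 = true :=
  ⟨by decide +kernel, by decide +kernel, by decide +kernel, by decide +kernel, by decide +kernel, by decide +kernel, by decide +kernel, by decide +kernel⟩

def t41350 : allY (E.wth T2) l41350 = true ∧
    allY (E.wth T2) l41351 = true ∧
    allY (E.wth T2) l41352 = true ∧
    allY (E.wth T2) l41353 = true ∧
    allY (E.wth T2) l41354 = true ∧
    allY (E.wth T2) l41355 = true ∧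
    allY (E.wth T2) l41356 = true ∧
    allY (E.wth T2) l41357 = true :=
  ⟨by decide +kernel, by decide +kernel, by decide +kernel, by decide +kernel, by decide +kernel, by decide +kernel, by decide +kernel, by decide +kernel⟩

def t41358 : allY (E.wth T2) l41358 = true ∧
    allY (E.wth T2) l41359 = true ∧
    allY (E.wth T2) l41360 = true ∧
    allY (E.wth T2) l41361 = true ∧
    allY (E.wth T2) l41362 = true ∧
    allY (E.wth T2) l41363 = true ∧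
    allY (E.wth T2) l41364 = true ∧
    allY (E.wth T2) l41365 = true :=
  ⟨by decide +kernel, by decide +kernel, by decide +kernel, by decide +kernel, by decide +kernel, by decide +kernel, by decide +kernel, by decide +kernel⟩

def t41366 : allY (E.wth T2) l41366 = true ∧
    allY (E.wth T2) l41367 = true ∧
    allY (E.wth T2) l41368 = true ∧
    allY (E.wth T2) l41369 = true ∧
    allY (E.wth T2) l41370 = true ∧
    allY (E.wth T2) l41371 = true ∧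
    allY (E.wth T2) l41372 = true ∧
    allY (E.wth T2) l41373 = true :=
  ⟨by decide +kernel, by decide +kernel, by decide +kernel, by decide +kernel, by decide +kernel, by decide +kernel, by decide +kernel, by decide +kernel⟩

def t41374 : allY (E.wth T2) l41374 = true ∧
    allY (E.wth T2) l41375 = true ∧
    allY (E.wth T2) l41376 = true ∧
    allY (E.wth T2) l41377 = true ∧
    allY (E.wth T2) l41378 = true ∧
    allY (E.wth T2) l41379 = true ∧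
    allY (E.wth T2) l41380 = true ∧
    allY (E.wth T2) l41381 = true :=
  ⟨by decide +kernel, by decide +kernel, by decide +kernel, by decide +kernel, by decide +kernel, by decide +kernel, by decide +kernel, by decide +kernel⟩

def t41382 : allY (E.wth T2) l41382 = true ∧
    allY (E.wth T2) l41383 = true ∧
    allY (E.wth T2) l41384 = true ∧
    allY (E.wth T2) l41385 = true ∧
    allY (E.wth T2) l41386 = true ∧
    allY (E.wth T2) l41387 = true ∧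
    allY (E.wth T2) l41388 = true ∧
    allY (E.wth T2) l41389 = true :=
  ⟨by decide +kernel, by decide +kernel, by decide +kernel, by decide +kernel, by decide +kernel, by decide +kernel, by decide +kernel, by decide +kernel⟩

def t41390 : allY (E.wth T2) l41390 = true ∧
    allY (E.wth T2) l41391 = true ∧
    allY (E.wth T2) l41392 = true ∧
    allY (E.wth T2) l41393 = true ∧
    allY (E.wth T2) l41394 = true ∧
    allY (E.wth T2) l41395 = true ∧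
    allY (E.wth T2) l41396 = true ∧
    allY (E.wth T2) l41397 = true :=
  ⟨by decide +kernel, by decide +kernel, by decide +kernel, by decide +kernel, by decide +kernel, by decide +kernel, by decide +kernel, by decide +kernel⟩

def t41398 : allY (E.wth T2) l41398 = true ∧
    allY (E.wth T2) l41399 = true ∧
    allY (E.wth T2) l41400 = true ∧
    allY (E.wth T2) l41401 = true ∧
    allY (E.wth T2) l41402 = true ∧
    allY (E.wth T2) l41403 = true ∧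
    allY (E.wth T2) l41404 = true ∧
    allY (E.wth T2) l41405 = true :=
  ⟨by decide +kernel, by decide +kernel, by decide +kernel, by decide +kernel, by decide +kernel, by decide +kernel, by decide +kernel, by decide +kernel⟩

def t41406 : allY (E.wth T2) l41406 = true ∧
    allY (E.wth T2) l41407 = true ∧
    allY (E.wth T2) l41408 = true ∧
    allY (E.wth T2) l41409 = true ∧
    allY (E.wth T2) l41410 = true ∧
    allY (E.wth T2) l41411 = true ∧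
    allY (E.wth T2) l41412 = true ∧
    allY (E.wth T2) l41413 = true :=
  ⟨by decide +kernel, by decide +kernel, by decide +kernel, by decide +kernel, by decide +kernel, by decide +kernel, by decide +kernel, by decide +kernel⟩

def t41414 : allY (E.wth T2) l41414 = true ∧
    allY (E.wth T2) l41415 = true ∧
    allY (E.wth T2) l41416 = true ∧
    allY (E.wth T2) l41417 = true ∧
    allY (E.wth T2) l41418 = true ∧
    allY (E.wth T2) l41419 = true ∧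
    allY (E.wth T2) l41420 = true ∧
    allY (E.wth T2) l41421 = true :=
  ⟨by decide +kernel, by decide +kernel, by decide +kernel, by decide +kernel, by decide +kernel, by decide +kernel, by decide +kernel, by decide +kernel⟩

def t41422 : allY (E.wth T2) l41422 = true ∧
    allY (E.wth T2) l41423 = true ∧
    allY (E.wth T2) l41424 = true ∧
    allY (E.wth T2) l41425 = true ∧
    allY (E.wth T2) l41426 = true ∧
    allY (E.wth T2) l41427 = true ∧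
    allY (E.wth T2) l41428 = true ∧
    allY (E.wth T2) l41429 = true :=
  ⟨by decide +kernel, by decide +kernel, by decide +kernel, by decide +kernel, by decide +kernel, by decide +kernel, by decide +kernel, by decide +kernel⟩

def t41430 : allY (E.wth T2) l41430 = true ∧
    allY (E.wth T2) l41431 = true ∧
    allY (E.wth T2) l41432 = true ∧
    allY (E.wth T2) l41433 = true ∧
    allY (E.wth T2) l41434 = true ∧
    allY (E.wth T2) l41435 = true ∧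
    allY (E.wth T2) l41436 = true ∧
    allY (E.wth T2) l41437 = true :=
  ⟨by decide +kernel, by decide +kernel, by decide +kernel, by decide +kernel, by decide +kernel, by decide +kernel, by decide +kernel, by decide +kernel⟩

def t41438 : allY (E.wth T2) l41438 = true ∧
    allY (E.wth T2) l41439 = true ∧
    allY (E.wth T2) l41440 = true ∧
    allY (E.wth T2) l41441 = true ∧
    allY (E.wth T2) l41442 = true ∧
    allY (E.wth T2) l41443 = true ∧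
    allY (E.wth T2) l41444 = true ∧
    allY (E.wth T2) l41445 = true :=
  ⟨by decide +kernel, by decide +kernel, by decide +kernel, by decide +kernel, by decide +kernel, by decide +kernel, by decide +kernel, by decide +kernel⟩

def t41446 : allY (E.wth T2) l41446 = true ∧
    allY (E.wth T2) l41447 = true ∧
    allY (E.wth T2) l41448 = true ∧
    allY (E.wth T2) l41449 = true ∧
    allY (E.wth T2) l41450 = true ∧
    allY (E.wth T2) l41451 = true ∧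
    allY (E.wth T2) l41452 = true ∧
    allY (E.wth T2) l41453 = true :=
  ⟨by decide +kernel, by decide +kernel, by decide +kernel, by decide +kernel, by decide +kernel, by decide +kernel, by decide +kernel, by decide +kernel⟩

def t41454 : allY (E.wth T2) l41454 = true ∧
    allY (E.wth T2) l41455 = true ∧
    allY (E.wth T2) l41456 = true ∧
    allY (E.wth T2) l41457 = true ∧
    allY (E.wth T2) l41458 = true ∧
    allY (E.wth T2) l41459 = true ∧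
    allY (E.wth T2) l41460 = true ∧
    allY (E.wth T2) l41461 = true :=
  ⟨by decide +kernel, by decide +kernel, by decide +kernel, by decide +kernel, by decide +kernel, by decide +kernel, by decide +kernel, by decide +kernel⟩

def t41462 : allY (E.wth T2) l41462 = true ∧
    allY (E.wth T2) l41463 = true ∧
    allY (E.wth T2) l41464 = true ∧
    allY (E.wth T2) l41465 = true ∧
    allY (E.wth T2) l41466 = true ∧
    allY (E.wth T2) l41467 = true ∧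
    allY (E.wth T2) l41468 = true ∧
    allY (E.wth T2) l41469 = true :=
  ⟨by decide +kernel, by decide +kernel, by decide +kernel, by decide +kernel, by decide +kernel, by decide +kernel, by decide +kernel, by decide +kernel⟩

def t41470 : allY (E.wth T2) l41470 = true ∧
    allY (E.wth T2) l41471 = true ∧
    allY (E.wth T2) l41472 = true ∧
    allY (E.wth T2) l41473 = true ∧
    allY (E.wth T2) l41474 = true ∧
    allY (E.wth T2) l41475 = true ∧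
    allY (E.wth T2) l41476 = true ∧
    allY (E.wth T2) l41477 = true :=
  ⟨by decide +kernel, by decide +kernel, by decide +kernel, by decide +kernel, by decide +kernel, by decide +kernel, by decide +kernel, by decide +kernel⟩

def t41478 : allY (E.wth T2) l41478 = true ∧
    allY (E.wth T2) l41479 = true ∧
    allY (E.wth T2) l41480 = true ∧
    allY (E.wth T2) l41481 = true ∧
    allY (E.wth T2) l41482 = true ∧
    allY (E.wth T2) l41483 = true ∧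
    allY (E.wth T2) l41484 = true ∧
    allY (E.wth T2) l41485 = true :=
  ⟨by decide +kernel, by decide +kernel, by decide +kernel, by decide +kernel, by decide +kernel, by decide +kernel, by decide +kernel, by decide +kernel⟩

def t41486 : allY (E.wth T2) l41486 = true ∧
    allY (E.wth T2) l41487 = true ∧
    allY (E.wth T2) l41488 = true :=
  ⟨by decide +kernel, by decide +kernel, by decide +kernel⟩

theorem a75 {p : Rf → Prop} (H : ∀ l, allY (E.wth T2) l = true → (lkp l).All p) :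
    b75.All p := ⟨⟨⟨⟨⟨⟨⟨⟨⟨H _ t40926.1, H _ t40926.2.1⟩, ⟨H _ t40926.2.2.1, H _ t40926.2.2.2.1⟩⟩, ⟨⟨H _ t40926.2.2.2.2.1, H _ t40926.2.2.2.2.2.1⟩, ⟨H _ t40926.2.2.2.2.2.2.1, H _ t40926.2.2.2.2.2.2.2⟩⟩⟩, ⟨⟨⟨H _ t40934.1, H _ t40934.2.1⟩, ⟨H _ t40934.2.2.1, H _ t40934.2.2.2.1⟩⟩, ⟨⟨H _ t40934.2.2.2.2.1, H _ t40934.2.2.2.2.2.1⟩, ⟨H _ t40934.2.2.2.2.2.2.1, ⟨H _ t40934.2.2.2.2.2.2.2, H _ t40942.1⟩⟩⟩⟩⟩, ⟨⟨⟨⟨H _ t40942.2.1, H _ t40942.2.2.1⟩, ⟨H _ t40942.2.2.2.1, H _ t40942.2.2.2.2.1⟩⟩, ⟨⟨H _ t40942.2.2.2.2.2.1, H _ t40942.2.2.2.2.2.2.1⟩, ⟨H _ t40942.2.2.2.2.2.2.2, ⟨H _ t40950.1, H _ t40950.2.1⟩⟩⟩⟩, ⟨⟨⟨H _ t40950.2.2.1, H _ t40950.2.2.2.1⟩, ⟨H _ t40950.2.2.2.2.1, H _ t40950.2.2.2.2.2.1⟩⟩, ⟨⟨H _ t40950.2.2.2.2.2.2.1, H _ t40950.2.2.2.2.2.2.2⟩, ⟨H _ t40958.1, ⟨H _ t40958.2.1, H _ t40958.2.2.1⟩⟩⟩⟩⟩⟩, ⟨⟨⟨⟨⟨H _ t40958.2.2.2.1, H _ t40958.2.2.2.2.1⟩, ⟨H _ t40958.2.2.2.2.2.1, H _ t40958.2.2.2.2.2.2.1⟩⟩, ⟨⟨H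 _ t40958.2.2.2.2.2.2.2, H _ t40966.1⟩, ⟨H _ t40966.2.1, H _ t40966.2.2.1⟩⟩⟩, ⟨⟨⟨H _ t40966.2.2.2.1, H _ t40966.2.2.2.2.1⟩, ⟨H _ t40966.2.2.2.2.2.1, H _ t40966.2.2.2.2.2.2.1⟩⟩, ⟨⟨H _ t40966.2.2.2.2.2.2.2, H _ t40974.1⟩, ⟨H _ t40974.2.1, ⟨H _ t40974.2.2.1, H _ t40974.2.2.2.1⟩⟩⟩⟩⟩, ⟨⟨⟨⟨H _ t40974.2.2.2.2.1, H _ t40974.2.2.2.2.2.1⟩, ⟨H _ t40974.2.2.2.2.2.2.1, H _ t40974.2.2.2.2.2.2.2⟩⟩, ⟨⟨H _ t40982.1, H _ t40982.2.1⟩, ⟨H _ t40982.2.2.1, ⟨H _ t40982.2.2.2.1, H _ t40982.2.2.2.2.1⟩⟩⟩⟩, ⟨⟨⟨H _ t40982.2.2.2.2.2.1, H _ t40982.2.2.2.2.2.2.1⟩, ⟨H _ t40982.2.2.2.2.2.2.2, H _ t40990.1⟩⟩, ⟨⟨H _ t40990.2.1, H _ t40990.2.2.1⟩, ⟨H _ t40990.2.2.2.1, ⟨H _ t40990.2.2.2.2.1, H _ t40990.2.2.2.2.2.1⟩⟩⟩⟩⟩⟩⟩, ⟨⟨⟨⟨⟨⟨H _ t40990.2.2.2.2.2.2.1, H _ t40990.2.2.2.2.2.2.2⟩, ⟨H _ t40998.1, H _ t40998.2.1⟩⟩, ⟨⟨H _ t40998.2.2.1, H _ t40998.2.2.2.1⟩, ⟨H _ t40998.2.2.2.2.1, H _ t40998.2.2.2.2.2.1⟩⟩⟩, ⟨⟨⟨H _ t40998.2.2.2.2.2.2.1,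 H _ t40998.2.2.2.2.2.2.2⟩, ⟨H _ t41006.1, H _ t41006.2.1⟩⟩, ⟨⟨H _ t41006.2.2.1, H _ t41006.2.2.2.1⟩, ⟨H _ t41006.2.2.2.2.1, ⟨H _ t41006.2.2.2.2.2.1, H _ t41006.2.2.2.2.2.2.1⟩⟩⟩⟩⟩, ⟨⟨⟨⟨H _ t41006.2.2.2.2.2.2.2, H _ t41014.1⟩, ⟨H _ t41014.2.1, H _ t41014.2.2.1⟩⟩, ⟨⟨H _ t41014.2.2.2.1, H _ t41014.2.2.2.2.1⟩, ⟨H _ t41014.2.2.2.2.2.1, ⟨H _ t41014.2.2.2.2.2.2.1, H _ t41014.2.2.2.2.2.2.2⟩⟩⟩⟩, ⟨⟨⟨H _ t41022.1, H _ t41022.2.1⟩, ⟨H _ t41022.2.2.1, H _ t41022.2.2.2.1⟩⟩, ⟨⟨H _ t41022.2.2.2.2.1, H _ t41022.2.2.2.2.2.1⟩, ⟨H _ t41022.2.2.2.2.2.2.1, ⟨H _ t41022.2.2.2.2.2.2.2, H _ t41030.1⟩⟩⟩⟩⟩⟩, ⟨⟨⟨⟨⟨H _ t41030.2.1, H _ t41030.2.2.1⟩, ⟨H _ t41030.2.2.2.1, H _ t41030.2.2.2.2.1⟩⟩, ⟨⟨H _ t41030.2.2.2.2.2.1, H _ t41030.2.2.2.2.2.2.1⟩, ⟨H _ t41030.2.2.2.2.2.2.2, H _ t41038.1⟩⟩⟩, ⟨⟨⟨H _ t41038.2.1, H _ t41038.2.2.1⟩, ⟨H _ t41038.2.2.2.1, H _ t41038.2.2.2.2.1⟩⟩, ⟨⟨H _ t41038.2.2.2.2.2.1, H _ t41038.2.2.2.2.2.2.1⟩,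 ⟨H _ t41038.2.2.2.2.2.2.2, ⟨H _ t41046.1, H _ t41046.2.1⟩⟩⟩⟩⟩, ⟨⟨⟨⟨H _ t41046.2.2.1, H _ t41046.2.2.2.1⟩, ⟨H _ t41046.2.2.2.2.1, H _ t41046.2.2.2.2.2.1⟩⟩, ⟨⟨H _ t41046.2.2.2.2.2.2.1, H _ t41046.2.2.2.2.2.2.2⟩, ⟨H _ t41054.1, ⟨H _ t41054.2.1, H _ t41054.2.2.1⟩⟩⟩⟩, ⟨⟨⟨H _ t41054.2.2.2.1, H _ t41054.2.2.2.2.1⟩, ⟨H _ t41054.2.2.2.2.2.1, H _ t41054.2.2.2.2.2.2.1⟩⟩, ⟨⟨H _ t41054.2.2.2.2.2.2.2, H _ t41062.1⟩, ⟨H _ t41062.2.1, ⟨H _ t41062.2.2.1, H _ t41062.2.2.2.1⟩⟩⟩⟩⟩⟩⟩⟩, ⟨⟨⟨⟨⟨⟨⟨H _ t41062.2.2.2.2.1, H _ t41062.2.2.2.2.2.1⟩, ⟨H _ t41062.2.2.2.2.2.2.1, H _ t41062.2.2.2.2.2.2.2⟩⟩, ⟨⟨H _ t41070.1, H _ t41070.2.1⟩, ⟨H _ t41070.2.2.1, H _ t41070.2.2.2.1⟩⟩⟩, ⟨⟨⟨H _ t41070.2.2.2.2.1, H _ t41070.2.2.2.2.2.1⟩, ⟨H _ t41070.2.2.2.2.2.2.1, H _ t41070.2.2.2.2.2.2.2⟩⟩, ⟨⟨H _ t41078.1, H _ t41078.2.1⟩, ⟨H _ t41078.2.2.1, ⟨H _ t41078.2.2.2.1, H _ t41078.2.2.2.2.1⟩⟩⟩⟩⟩, ⟨⟨⟨⟨H _ t41078.2.2.2.2.2.1, H _ t41078.2.2.2.2.2.2.1⟩,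 ⟨H _ t41078.2.2.2.2.2.2.2, H _ t41086.1⟩⟩, ⟨⟨H _ t41086.2.1, H _ t41086.2.2.1⟩, ⟨H _ t41086.2.2.2.1, ⟨H _ t41086.2.2.2.2.1, H _ t41086.2.2.2.2.2.1⟩⟩⟩⟩, ⟨⟨⟨H _ t41086.2.2.2.2.2.2.1, H _ t41086.2.2.2.2.2.2.2⟩, ⟨H _ t41094.1, H _ t41094.2.1⟩⟩, ⟨⟨H _ t41094.2.2.1, H _ t41094.2.2.2.1⟩, ⟨H _ t41094.2.2.2.2.1, ⟨H _ t41094.2.2.2.2.2.1, H _ t41094.2.2.2.2.2.2.1⟩⟩⟩⟩⟩⟩, ⟨⟨⟨⟨⟨H _ t41094.2.2.2.2.2.2.2, H _ t41102.1⟩, ⟨H _ t41102.2.1, H _ t41102.2.2.1⟩⟩, ⟨⟨H _ t41102.2.2.2.1, H _ t41102.2.2.2.2.1⟩, ⟨H _ t41102.2.2.2.2.2.1, H _ t41102.2.2.2.2.2.2.1⟩⟩⟩, ⟨⟨⟨H _ t41102.2.2.2.2.2.2.2, H _ t41110.1⟩, ⟨H _ t41110.2.1, H _ t41110.2.2.1⟩⟩, ⟨⟨H _ t41110.2.2.2.1, H _ t41110.2.2.2.2.1⟩, ⟨H _ t41110.2.2.2.2.2.1, ⟨H _ t41110.2.2.2.2.2.2.1, H _ t41110.2.2.2.2.2.2.2⟩⟩⟩⟩⟩, ⟨⟨⟨⟨H _ t41118.1, H _ t41118.2.1⟩, ⟨H _ t41118.2.2.1, H _ t41118.2.2.2.1⟩⟩, ⟨⟨H _ t41118.2.2.2.2.1, H _ t41118.2.2.2.2.2.1⟩, ⟨H _ t41118.2.2.2.2.2.2.1,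 ⟨H _ t41118.2.2.2.2.2.2.2, H _ t41126.1⟩⟩⟩⟩, ⟨⟨⟨H _ t41126.2.1, H _ t41126.2.2.1⟩, ⟨H _ t41126.2.2.2.1, H _ t41126.2.2.2.2.1⟩⟩, ⟨⟨H _ t41126.2.2.2.2.2.1, H _ t41126.2.2.2.2.2.2.1⟩, ⟨H _ t41126.2.2.2.2.2.2.2, ⟨H _ t41134.1, H _ t41134.2.1⟩⟩⟩⟩⟩⟩⟩, ⟨⟨⟨⟨⟨⟨H _ t41134.2.2.1, H _ t41134.2.2.2.1⟩, ⟨H _ t41134.2.2.2.2.1, H _ t41134.2.2.2.2.2.1⟩⟩, ⟨⟨H _ t41134.2.2.2.2.2.2.1, H _ t41134.2.2.2.2.2.2.2⟩, ⟨H _ t41142.1, H _ t41142.2.1⟩⟩⟩, ⟨⟨⟨H _ t41142.2.2.1, H _ t41142.2.2.2.1⟩, ⟨H _ t41142.2.2.2.2.1, H _ t41142.2.2.2.2.2.1⟩⟩, ⟨⟨H _ t41142.2.2.2.2.2.2.1, H _ t41142.2.2.2.2.2.2.2⟩, ⟨H _ t41150.1, ⟨H _ t41150.2.1, H _ t41150.2.2.1⟩⟩⟩⟩⟩, ⟨⟨⟨⟨H _ t41150.2.2.2.1, H _ t41150.2.2.2.2.1⟩, ⟨H _ t41150.2.2.2.2.2.1, H _ t41150.2.2.2.2.2.2.1⟩⟩, ⟨⟨H _ t41150.2.2.2.2.2.2.2, H _ t41158.1⟩, ⟨H _ t41158.2.1, ⟨H _ t41158.2.2.1, H _ t41158.2.2.2.1⟩⟩⟩⟩, ⟨⟨⟨H _ t41158.2.2.2.2.1, H _ t41158.2.2.2.2.2.1⟩, ⟨H _ t41158.2.2.2.2.2.2.1,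 H _ t41158.2.2.2.2.2.2.2⟩⟩, ⟨⟨H _ t41166.1, H _ t41166.2.1⟩, ⟨H _ t41166.2.2.1, ⟨H _ t41166.2.2.2.1, H _ t41166.2.2.2.2.1⟩⟩⟩⟩⟩⟩, ⟨⟨⟨⟨⟨H _ t41166.2.2.2.2.2.1, H _ t41166.2.2.2.2.2.2.1⟩, ⟨H _ t41166.2.2.2.2.2.2.2, H _ t41174.1⟩⟩, ⟨⟨H _ t41174.2.1, H _ t41174.2.2.1⟩, ⟨H _ t41174.2.2.2.1, ⟨H _ t41174.2.2.2.2.1, H _ t41174.2.2.2.2.2.1⟩⟩⟩⟩, ⟨⟨⟨H _ t41174.2.2.2.2.2.2.1, H _ t41174.2.2.2.2.2.2.2⟩, ⟨H _ t41182.1, H _ t41182.2.1⟩⟩, ⟨⟨H _ t41182.2.2.1, H _ t41182.2.2.2.1⟩, ⟨H _ t41182.2.2.2.2.1, ⟨H _ t41182.2.2.2.2.2.1, H _ t41182.2.2.2.2.2.2.1⟩⟩⟩⟩⟩, ⟨⟨⟨⟨H _ t41182.2.2.2.2.2.2.2, H _ t41190.1⟩, ⟨H _ t41190.2.1, H _ t41190.2.2.1⟩⟩, ⟨⟨H _ t41190.2.2.2.1, H _ t41190.2.2.2.2.1⟩, ⟨H _ t41190.2.2.2.2.2.1, ⟨H _ t41190.2.2.2.2.2.2.1, H _ t41190.2.2.2.2.2.2.2⟩⟩⟩⟩, ⟨⟨⟨H _ t41198.1, H _ t41198.2.1⟩, ⟨H _ t41198.2.2.1, H _ t41198.2.2.2.1⟩⟩, ⟨⟨H _ t41198.2.2.2.2.1, H _ t41198.2.2.2.2.2.1⟩, ⟨H _ t41198.2.2.2.2.2.2.1,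 ⟨H _ t41198.2.2.2.2.2.2.2, H _ t41206.1⟩⟩⟩⟩⟩⟩⟩⟩⟩, ⟨⟨⟨⟨⟨⟨⟨⟨H _ t41206.2.1, H _ t41206.2.2.1⟩, ⟨H _ t41206.2.2.2.1, H _ t41206.2.2.2.2.1⟩⟩, ⟨⟨H _ t41206.2.2.2.2.2.1, H _ t41206.2.2.2.2.2.2.1⟩, ⟨H _ t41206.2.2.2.2.2.2.2, H _ t41214.1⟩⟩⟩, ⟨⟨⟨H _ t41214.2.1, H _ t41214.2.2.1⟩, ⟨H _ t41214.2.2.2.1, H _ t41214.2.2.2.2.1⟩⟩, ⟨⟨H _ t41214.2.2.2.2.2.1, H _ t41214.2.2.2.2.2.2.1⟩, ⟨H _ t41214.2.2.2.2.2.2.2, ⟨H _ t41222.1, H _ t41222.2.1⟩⟩⟩⟩⟩, ⟨⟨⟨⟨H _ t41222.2.2.1, H _ t41222.2.2.2.1⟩, ⟨H _ t41222.2.2.2.2.1, H _ t41222.2.2.2.2.2.1⟩⟩, ⟨⟨H _ t41222.2.2.2.2.2.2.1, H _ t41222.2.2.2.2.2.2.2⟩, ⟨H _ t41230.1, ⟨H _ t41230.2.1, H _ t41230.2.2.1⟩⟩⟩⟩, ⟨⟨⟨H _ t41230.2.2.2.1, H _ t41230.2.2.2.2.1⟩, ⟨H _ t41230.2.2.2.2.2.1, H _ t41230.2.2.2.2.2.2.1⟩⟩, ⟨⟨H _ t41230.2.2.2.2.2.2.2, H _ t41238.1⟩, ⟨H _ t41238.2.1, ⟨H _ t41238.2.2.1, H _ t41238.2.2.2.1⟩⟩⟩⟩⟩⟩, ⟨⟨⟨⟨⟨H _ t41238.2.2.2.2.1, H _ t41238.2.2.2.2.2.1⟩, ⟨H _ t41238.2.2.2.2.2.2.1,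 H _ t41238.2.2.2.2.2.2.2⟩⟩, ⟨⟨H _ t41246.1, H _ t41246.2.1⟩, ⟨H _ t41246.2.2.1, H _ t41246.2.2.2.1⟩⟩⟩, ⟨⟨⟨H _ t41246.2.2.2.2.1, H _ t41246.2.2.2.2.2.1⟩, ⟨H _ t41246.2.2.2.2.2.2.1, H _ t41246.2.2.2.2.2.2.2⟩⟩, ⟨⟨H _ t41254.1, H _ t41254.2.1⟩, ⟨H _ t41254.2.2.1, ⟨H _ t41254.2.2.2.1, H _ t41254.2.2.2.2.1⟩⟩⟩⟩⟩, ⟨⟨⟨⟨H _ t41254.2.2.2.2.2.1, H _ t41254.2.2.2.2.2.2.1⟩, ⟨H _ t41254.2.2.2.2.2.2.2, H _ t41262.1⟩⟩, ⟨⟨H _ t41262.2.1, H _ t41262.2.2.1⟩, ⟨H _ t41262.2.2.2.1, ⟨H _ t41262.2.2.2.2.1, H _ t41262.2.2.2.2.2.1⟩⟩⟩⟩, ⟨⟨⟨H _ t41262.2.2.2.2.2.2.1, H _ t41262.2.2.2.2.2.2.2⟩, ⟨H _ t41270.1, H _ t41270.2.1⟩⟩, ⟨⟨H _ t41270.2.2.1, H _ t41270.2.2.2.1⟩, ⟨H _ t41270.2.2.2.2.1, ⟨H _ t41270.2.2.2.2.2.1, H _ t41270.2.2.2.2.2.2.1⟩⟩⟩⟩⟩⟩⟩, ⟨⟨⟨⟨⟨⟨H _ t41270.2.2.2.2.2.2.2, H _ t41278.1⟩, ⟨H _ t41278.2.1, H _ t41278.2.2.1⟩⟩, ⟨⟨H _ t41278.2.2.2.1, H _ t41278.2.2.2.2.1⟩, ⟨H _ t41278.2.2.2.2.2.1, H _ t41278.2.2.2.2.2.2.1⟩⟩⟩,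 ⟨⟨⟨H _ t41278.2.2.2.2.2.2.2, H _ t41286.1⟩, ⟨H _ t41286.2.1, H _ t41286.2.2.1⟩⟩, ⟨⟨H _ t41286.2.2.2.1, H _ t41286.2.2.2.2.1⟩, ⟨H _ t41286.2.2.2.2.2.1, ⟨H _ t41286.2.2.2.2.2.2.1, H _ t41286.2.2.2.2.2.2.2⟩⟩⟩⟩⟩, ⟨⟨⟨⟨H _ t41294.1, H _ t41294.2.1⟩, ⟨H _ t41294.2.2.1, H _ t41294.2.2.2.1⟩⟩, ⟨⟨H _ t41294.2.2.2.2.1, H _ t41294.2.2.2.2.2.1⟩, ⟨H _ t41294.2.2.2.2.2.2.1, ⟨H _ t41294.2.2.2.2.2.2.2, H _ t41302.1⟩⟩⟩⟩, ⟨⟨⟨H _ t41302.2.1, H _ t41302.2.2.1⟩, ⟨H _ t41302.2.2.2.1, H _ t41302.2.2.2.2.1⟩⟩, ⟨⟨H _ t41302.2.2.2.2.2.1, H _ t41302.2.2.2.2.2.2.1⟩, ⟨H _ t41302.2.2.2.2.2.2.2, ⟨H _ t41310.1, H _ t41310.2.1⟩⟩⟩⟩⟩⟩, ⟨⟨⟨⟨⟨H _ t41310.2.2.1, H _ t41310.2.2.2.1⟩, ⟨H _ t41310.2.2.2.2.1, H _ t41310.2.2.2.2.2.1⟩⟩, ⟨⟨H _ t41310.2.2.2.2.2.2.1, H _ t41310.2.2.2.2.2.2.2⟩, ⟨H _ t41318.1, ⟨H _ t41318.2.1, H _ t41318.2.2.1⟩⟩⟩⟩, ⟨⟨⟨H _ t41318.2.2.2.1, H _ t41318.2.2.2.2.1⟩, ⟨H _ t41318.2.2.2.2.2.1, H _ t41318.2.2.2.2.2.2.1⟩⟩,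 ⟨⟨H _ t41318.2.2.2.2.2.2.2, H _ t41326.1⟩, ⟨H _ t41326.2.1, ⟨H _ t41326.2.2.1, H _ t41326.2.2.2.1⟩⟩⟩⟩⟩, ⟨⟨⟨⟨H _ t41326.2.2.2.2.1, H _ t41326.2.2.2.2.2.1⟩, ⟨H _ t41326.2.2.2.2.2.2.1, H _ t41326.2.2.2.2.2.2.2⟩⟩, ⟨⟨H _ t41334.1, H _ t41334.2.1⟩, ⟨H _ t41334.2.2.1, ⟨H _ t41334.2.2.2.1, H _ t41334.2.2.2.2.1⟩⟩⟩⟩, ⟨⟨⟨H _ t41334.2.2.2.2.2.1, H _ t41334.2.2.2.2.2.2.1⟩, ⟨H _ t41334.2.2.2.2.2.2.2, H _ t41342.1⟩⟩, ⟨⟨H _ t41342.2.1, H _ t41342.2.2.1⟩, ⟨H _ t41342.2.2.2.1, ⟨H _ t41342.2.2.2.2.1, H _ t41342.2.2.2.2.2.1⟩⟩⟩⟩⟩⟩⟩⟩, ⟨⟨⟨⟨⟨⟨⟨H _ t41342.2.2.2.2.2.2.1, H _ t41342.2.2.2.2.2.2.2⟩, ⟨H _ t41350.1, H _ t41350.2.1⟩⟩, ⟨⟨H _ t41350.2.2.1, H _ t41350.2.2.2.1⟩, ⟨H _ t41350.2.2.2.2.1, H _ t41350.2.2.2.2.2.1⟩⟩⟩, ⟨⟨⟨H _ t41350.2.2.2.2.2.2.1, H _ t41350.2.2.2.2.2.2.2⟩, ⟨H _ t41358.1, H _ t41358.2.1⟩⟩, ⟨⟨H _ t41358.2.2.1, H _ t41358.2.2.2.1⟩, ⟨H _ t41358.2.2.2.2.1, ⟨H _ t41358.2.2.2.2.2.1, H _ t41358.2.2.2.2.2.2.1⟩⟩⟩⟩⟩,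 ⟨⟨⟨⟨H _ t41358.2.2.2.2.2.2.2, H _ t41366.1⟩, ⟨H _ t41366.2.1, H _ t41366.2.2.1⟩⟩, ⟨⟨H _ t41366.2.2.2.1, H _ t41366.2.2.2.2.1⟩, ⟨H _ t41366.2.2.2.2.2.1, ⟨H _ t41366.2.2.2.2.2.2.1, H _ t41366.2.2.2.2.2.2.2⟩⟩⟩⟩, ⟨⟨⟨H _ t41374.1, H _ t41374.2.1⟩, ⟨H _ t41374.2.2.1, H _ t41374.2.2.2.1⟩⟩, ⟨⟨H _ t41374.2.2.2.2.1, H _ t41374.2.2.2.2.2.1⟩, ⟨H _ t41374.2.2.2.2.2.2.1, ⟨H _ t41374.2.2.2.2.2.2.2, H _ t41382.1⟩⟩⟩⟩⟩⟩, ⟨⟨⟨⟨⟨H _ t41382.2.1, H _ t41382.2.2.1⟩, ⟨H _ t41382.2.2.2.1, H _ t41382.2.2.2.2.1⟩⟩, ⟨⟨H _ t41382.2.2.2.2.2.1, H _ t41382.2.2.2.2.2.2.1⟩, ⟨H _ t41382.2.2.2.2.2.2.2, H _ t41390.1⟩⟩⟩, ⟨⟨⟨H _ t41390.2.1, H _ t41390.2.2.1⟩, ⟨H _ t41390.2.2.2.1, H _ t41390.2.2.2.2.1⟩⟩, ⟨⟨H _ t41390.2.2.2.2.2.1, H _ t41390.2.2.2.2.2.2.1⟩, ⟨H _ t41390.2.2.2.2.2.2.2, ⟨H _ t41398.1, H _ t41398.2.1⟩⟩⟩⟩⟩, ⟨⟨⟨⟨H _ t41398.2.2.1, H _ t41398.2.2.2.1⟩, ⟨H _ t41398.2.2.2.2.1, H _ t41398.2.2.2.2.2.1⟩⟩, ⟨⟨H _ t41398.2.2.2.2.2.2.1,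 H _ t41398.2.2.2.2.2.2.2⟩, ⟨H _ t41406.1, ⟨H _ t41406.2.1, H _ t41406.2.2.1⟩⟩⟩⟩, ⟨⟨⟨H _ t41406.2.2.2.1, H _ t41406.2.2.2.2.1⟩, ⟨H _ t41406.2.2.2.2.2.1, H _ t41406.2.2.2.2.2.2.1⟩⟩, ⟨⟨H _ t41406.2.2.2.2.2.2.2, H _ t41414.1⟩, ⟨H _ t41414.2.1, ⟨H _ t41414.2.2.1, H _ t41414.2.2.2.1⟩⟩⟩⟩⟩⟩⟩, ⟨⟨⟨⟨⟨⟨H _ t41414.2.2.2.2.1, H _ t41414.2.2.2.2.2.1⟩, ⟨H _ t41414.2.2.2.2.2.2.1, H _ t41414.2.2.2.2.2.2.2⟩⟩, ⟨⟨H _ t41422.1, H _ t41422.2.1⟩, ⟨H _ t41422.2.2.1, H _ t41422.2.2.2.1⟩⟩⟩, ⟨⟨⟨H _ t41422.2.2.2.2.1, H _ t41422.2.2.2.2.2.1⟩, ⟨H _ t41422.2.2.2.2.2.2.1, H _ t41422.2.2.2.2.2.2.2⟩⟩, ⟨⟨H _ t41430.1, H _ t41430.2.1⟩, ⟨H _ t41430.2.2.1, ⟨H _ t41430.2.2.2.1, H _ t41430.2.2.2.2.1⟩⟩⟩⟩⟩, ⟨⟨⟨⟨H _ t41430.2.2.2.2.2.1, H _ t41430.2.2.2.2.2.2.1⟩, ⟨H _ t41430.2.2.2.2.2.2.2, H _ t41438.1⟩⟩, ⟨⟨H _ t41438.2.1, H _ t41438.2.2.1⟩, ⟨H _ t41438.2.2.2.1, ⟨H _ t41438.2.2.2.2.1, H _ t41438.2.2.2.2.2.1⟩⟩⟩⟩, ⟨⟨⟨H _ t41438.2.2.2.2.2.2.1,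 H _ t41438.2.2.2.2.2.2.2⟩, ⟨H _ t41446.1, H _ t41446.2.1⟩⟩, ⟨⟨H _ t41446.2.2.1, H _ t41446.2.2.2.1⟩, ⟨H _ t41446.2.2.2.2.1, ⟨H _ t41446.2.2.2.2.2.1, H _ t41446.2.2.2.2.2.2.1⟩⟩⟩⟩⟩⟩, ⟨⟨⟨⟨⟨H _ t41446.2.2.2.2.2.2.2, H _ t41454.1⟩, ⟨H _ t41454.2.1, H _ t41454.2.2.1⟩⟩, ⟨⟨H _ t41454.2.2.2.1, H _ t41454.2.2.2.2.1⟩, ⟨H _ t41454.2.2.2.2.2.1, ⟨H _ t41454.2.2.2.2.2.2.1, H _ t41454.2.2.2.2.2.2.2⟩⟩⟩⟩, ⟨⟨⟨H _ t41462.1, H _ t41462.2.1⟩, ⟨H _ t41462.2.2.1, H _ t41462.2.2.2.1⟩⟩, ⟨⟨H _ t41462.2.2.2.2.1, H _ t41462.2.2.2.2.2.1⟩, ⟨H _ t41462.2.2.2.2.2.2.1, ⟨H _ t41462.2.2.2.2.2.2.2, H _ t41470.1⟩⟩⟩⟩⟩, ⟨⟨⟨⟨H _ t41470.2.1, H _ t41470.2.2.1⟩, ⟨H _ t41470.2.2.2.1, H _ t41470.2.2.2.2.1⟩⟩, ⟨⟨H _ t41470.2.2.2.2.2.1, H _ t41470.2.2.2.2.2.2.1⟩, ⟨H _ t41470.2.2.2.2.2.2.2, ⟨H _ t41478.1, H _ t41478.2.1⟩⟩⟩⟩, ⟨⟨⟨H _ t41478.2.2.1, H _ t41478.2.2.2.1⟩, ⟨H _ t41478.2.2.2.2.1, H _ t41478.2.2.2.2.2.1⟩⟩, ⟨⟨H _ t41478.2.2.2.2.2.2.1,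 H _ t41478.2.2.2.2.2.2.2⟩, ⟨H _ t41486.1, ⟨H _ t41486.2.1, H _ t41486.2.2⟩⟩⟩⟩⟩⟩⟩⟩⟩⟩

end Pool.Agent.MP_c853c5_nt.X.C4950
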