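import Pool.Agent.MP_c853c5_nt.X.C4950.Env
import Pool.Agent.MP_c853c5_nt.X.C4950.Tab

set_option autoImplicit false
set_option maxRecDepth 8192
set_option linter.all false

namespace Pool.Agent.MP_c853c5_nt.X.C4950

open Pool.Agent.MP_c853c5_nt.X

def t41489 : allY (E.wth T2) l41489 = true ∧
    allY (E.wth T2) l41490 = true ∧
    allY (E.wth T2) l41491 = true ∧
    allY (E.wth T2) l41492 = true ∧
    allY (E.wth T2) l41493 = true ∧
    allY (E.wth T2) l41494 = true ∧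
    allY (E.wth T2) l41495 = true ∧
    allY (E.wth T2) l41496 = true :=
  ⟨by decide +kernel, by decide +kernel, by decide +kernel, by decide +kernel, by decide +kernel, by decide +kernel, by decide +kernel, by decide +kernel⟩

def t41497 : allY (E.wth T2) l41497 = true ∧
    allY (E.wth T2) l41498 = true ∧
    allY (E.wth T2) l41499 = true ∧
    allY (E.wth T2) l41500 = true ∧
    allY (E.wth T2) l41501 = true ∧
    allY (E.wth T2) l41502 = true ∧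
    allY (E.wth T2) l41503 = true ∧
    allY (E.wth T2) l41504 = true :=
  ⟨by decide +kernel, by decide +kernel, by decide +kernel, by decide +kernel, by decide +kernel, by decide +kernel, by decide +kernel, by decide +kernel⟩

def t41505 : allY (E.wth T2) l41505 = true ∧
    allY (E.wth T2) l41506 = true ∧
    allY (E.wth T2) l41507 = true ∧
    allY (E.wth T2) l41508 = true ∧
    allY (E.wth T2) l41509 = true ∧
    allY (E.wth T2) l41510 = true ∧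
    allY (E.wth T2) l41511 = true ∧
    allY (E.wth T2) l41512 = true :=
  ⟨by decide +kernel, by decide +kernel, by decide +kernel, by decide +kernel, by decide +kernel, by decide +kernel, by decide +kernel, by decide +kernel⟩

def t41513 : allY (E.wth T2) l41513 = true ∧
    allY (E.wth T2) l41514 = true ∧
    allY (E.wth T2) l41515 = true ∧
    allY (E.wth T2) l41516 = true ∧
    allY (E.wth T2) l41517 = true ∧
    allY (E.wth T2) l41518 = true ∧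
    allY (E.wth T2) l41519 = true ∧
    allY (E.wth T2) l41520 = true :=
  ⟨by decide +kernel, by decide +kernel, by decide +kernel, by decide +kernel, by decide +kernel, by decide +kernel, by decide +kernel, by decide +kernel⟩

def t41521 : allY (E.wth T2) l41521 = true ∧
    allY (E.wth T2) l41522 = true ∧
    allY (E.wth T2) l41523 = true ∧
    allY (E.wth T2) l41524 = true ∧
    allY (E.wth T2) l41525 = true ∧
    allY (E.wth T2) l41526 = true ∧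
    allY (E.wth T2) l41527 = true ∧
    allY (E.wth T2) l41528 = true :=
  ⟨by decide +kernel, by decide +kernel, by decide +kernel, by decide +kernel, by decide +kernel, by decide +kernel, by decide +kernel, by decide +kernel⟩

def t41529 : allY (E.wth T2) l41529 = true ∧
    allY (E.wth T2) l41530 = true ∧
    allY (E.wth T2) l41531 = true ∧
    allY (E.wth T2) l41532 = true ∧
    allY (E.wth T2) l41533 = true ∧
    allY (E.wth T2) l41534 = true ∧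
    allY (E.wth T2) l41535 = true ∧
    allY (E.wth T2) l41536 = true :=
  ⟨by decide +kernel, by decide +kernel, by decide +kernel, by decide +kernel, by decide +kernel, by decide +kernel, by decide +kernel, by decide +kernel⟩

def t41537 : allY (E.wth T2) l41537 = true ∧
    allY (E.wth T2) l41538 = true ∧
    allY (E.wth T2) l41539 = true ∧
    allY (E.wth T2) l41540 = true ∧
    allY (E.wth T2) l41541 = true ∧
    allY (E.wth T2) l41542 = true ∧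
    allY (E.wth T2) l41543 = true ∧
    allY (E.wth T2) l41544 = true :=
  ⟨by decide +kernel, by decide +kernel, by decide +kernel, by decide +kernel, by decide +kernel, by decide +kernel, by decide +kernel, by decide +kernel⟩

def t41545 : allY (E.wth T2) l41545 = true ∧
    allY (E.wth T2) l41546 = true ∧
    allY (E.wth T2) l41547 = true ∧
    allY (E.wth T2) l41548 = true ∧
    allY (E.wth T2) l41549 = true ∧
    allY (E.wth T2) l41550 = true ∧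
    allY (E.wth T2) l41551 = true ∧
    allY (E.wth T2) l41552 = true :=
  ⟨by decide +kernel, by decide +kernel, by decide +kernel, by decide +kernel, by decide +kernel, by decide +kernel, by decide +kernel, by decide +kernel⟩

def t41553 : allY (E.wth T2) l41553 = true ∧
    allY (E.wth T2) l41554 = true ∧
    allY (E.wth T2) l41555 = true ∧
    allY (E.wth T2) l41556 = true ∧
    allY (E.wth T2) l41557 = true ∧
    allY (E.wth T2) l41558 = true ∧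
    allY (E.wth T2) l41559 = true ∧
    allY (E.wth T2) l41560 = true :=
  ⟨by decide +kernel, by decide +kernel, by decide +kernel, by decide +kernel, by decide +kernel, by decide +kernel, by decide +kernel, by decide +kernel⟩

def t41561 : allY (E.wth T2) l41561 = true ∧
    allY (E.wth T2) l41562 = true ∧
    allY (E.wth T2) l41563 = true ∧
    allY (E.wth T2) l41564 = true ∧
    allY (E.wth T2) l41565 = true ∧
    allY (E.wth T2) l41566 = true ∧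
    allY (E.wth T2) l41567 = true ∧
    allY (E.wth T2) l41568 = true :=
  ⟨by decide +kernel, by decide +kernel, by decide +kernel, by decide +kernel, by decide +kernel, by decide +kernel, by decide +kernel, by decide +kernel⟩

def t41569 : allY (E.wth T2) l41569 = true ∧
    allY (E.wth T2) l41570 = true ∧
    allY (E.wth T2) l41571 = true ∧
    allY (E.wth T2) l41572 = true ∧
    allY (E.wth T2) l41573 = true ∧
    allY (E.wth T2) l41574 = true ∧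
    allY (E.wth T2) l41575 = true ∧
    allY (E.wth T2) l41576 = true :=
  ⟨by decide +kernel, by decide +kernel, by decide +kernel, by decide +kernel, by decide +kernel, by decide +kernel, by decide +kernel, by decide +kernel⟩

def t41577 : allY (E.wth T2) l41577 = true ∧
    allY (E.wth T2) l41578 = true ∧
    allY (E.wth T2) l41579 = true ∧
    allY (E.wth T2) l41580 = true ∧
    allY (E.wth T2) l41581 = true ∧
    allY (E.wth T2) l41582 = true ∧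
    allY (E.wth T2) l41583 = true ∧
    allY (E.wth T2) l41584 = true :=
  ⟨by decide +kernel, by decide +kernel, by decide +kernel, by decide +kernel, by decide +kernel, by decide +kernel, by decide +kernel, by decide +kernel⟩

def t41585 : allY (E.wth T2) l41585 = true ∧
    allY (E.wth T2) l41586 = true ∧
    allY (E.wth T2) l41587 = true ∧
    allY (E.wth T2) l41588 = true ∧
    allY (E.wth T2) l41589 = true ∧
    allY (E.wth T2) l41590 = true ∧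
    allY (E.wth T2) l41591 = true ∧
    allY (E.wth T2) l41592 = true :=
  ⟨by decide +kernel, by decide +kernel, by decide +kernel, by decide +kernel, by decide +kernel, by decide +kernel, by decide +kernel, by decide +kernel⟩

def t41593 : allY (E.wth T2) l41593 = true ∧
    allY (E.wth T2) l41594 = true ∧
    allY (E.wth T2) l41595 = true ∧
    allY (E.wth T2) l41596 = true ∧
    allY (E.wth T2) l41597 = true ∧
    allY (E.wth T2) l41598 = true ∧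
    allY (E.wth T2) l41599 = true ∧
    allY (E.wth T2) l41600 = true :=
  ⟨by decide +kernel, by decide +kernel, by decide +kernel, by decide +kernel, by decide +kernel, by decide +kernel, by decide +kernel, by decide +kernel⟩

def t41601 : allY (E.wth T2) l41601 = true ∧
    allY (E.wth T2) l41602 = true ∧
    allY (E.wth T2) l41603 = true ∧
    allY (E.wth T2) l41604 = true ∧
    allY (E.wth T2) l41605 = true ∧
    allY (E.wth T2) l41606 = true ∧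
    allY (E.wth T2) l41607 = true ∧
    allY (E.wth T2) l41608 = true :=
  ⟨by decide +kernel, by decide +kernel, by decide +kernel, by decide +kernel, by decide +kernel, by decide +kernel, by decide +kernel, by decide +kernel⟩

def t41609 : allY (E.wth T2) l41609 = true ∧
    allY (E.wth T2) l41610 = true ∧
    allY (E.wth T2) l41611 = true ∧
    allY (E.wth T2) l41612 = true ∧
    allY (E.wth T2) l41613 = true ∧
    allY (E.wth T2) l41614 = true ∧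
    allY (E.wth T2) l41615 = true ∧
    allY (E.wth T2) l41616 = true :=
  ⟨by decide +kernel, by decide +kernel, by decide +kernel, by decide +kernel, by decide +kernel, by decide +kernel, by decide +kernel, by decide +kernel⟩

def t41617 : allY (E.wth T2) l41617 = true ∧
    allY (E.wth T2) l41618 = true ∧
    allY (E.wth T2) l41619 = true ∧
    allY (E.wth T2) l41620 = true ∧
    allY (E.wth T2) l41621 = true ∧
    allY (E.wth T2) l41622 = true ∧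
    allY (E.wth T2) l41623 = true ∧
    allY (E.wth T2) l41624 = true :=
  ⟨by decide +kernel, by decide +kernel, by decide +kernel, by decide +kernel, by decide +kernel, by decide +kernel, by decide +kernel, by decide +kernel⟩

def t41625 : allY (E.wth T2) l41625 = true ∧
    allY (E.wth T2) l41626 = true ∧
    allY (E.wth T2) l41627 = true ∧
    allY (E.wth T2) l41628 = true ∧
    allY (E.wth T2) l41629 = true ∧
    allY (E.wth T2) l41630 = true ∧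
    allY (E.wth T2) l41631 = true ∧
    allY (E.wth T2) l41632 = true :=
  ⟨by decide +kernel, by decide +kernel, by decide +kernel, by decide +kernel, by decide +kernel, by decide +kernel, by decide +kernel, by decide +kernel⟩

def t41633 : allY (E.wth T2) l41633 = true ∧
    allY (E.wth T2) l41634 = true ∧
    allY (E.wth T2) l41635 = true ∧
    allY (E.wth T2) l41636 = true ∧
    allY (E.wth T2) l41637 = true ∧
    allY (E.wth T2) l41638 = true ∧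
    allY (E.wth T2) l41639 = true ∧
    allY (E.wth T2) l41640 = true :=
  ⟨by decide +kernel, by decide +kernel, by decide +kernel, by decide +kernel, by decide +kernel, by decide +kernel, by decide +kernel, by decide +kernel⟩

def t41641 : allY (E.wth T2) l41641 = true ∧
    allY (E.wth T2) l41642 = true ∧
    allY (E.wth T2) l41643 = true ∧
    allY (E.wth T2) l41644 = true ∧
    allY (E.wth T2) l41645 = true ∧
    allY (E.wth T2) l41646 = true ∧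
    allY (E.wth T2) l41647 = true ∧
    allY (E.wth T2) l41648 = true :=
  ⟨by decide +kernel, by decide +kernel, by decide +kernel, by decide +kernel, by decide +kernel, by decide +kernel, by decide +kernel, by decide +kernel⟩

def t41649 : allY (E.wth T2) l41649 = true ∧
    allY (E.wth T2) l41650 = true ∧
    allY (E.wth T2) l41651 = true ∧
    allY (E.wth T2) l41652 = true ∧
    allY (E.wth T2) l41653 = true ∧
    allY (E.wth T2) l41654 = true ∧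
    allY (E.wth T2) l41655 = true ∧
    allY (E.wth T2) l41656 = true :=
  ⟨by decide +kernel, by decide +kernel, by decide +kernel, by decide +kernel, by decide +kernel, by decide +kernel, by decide +kernel, by decide +kernel⟩

def t41657 : allY (E.wth T2) l41657 = true ∧
    allY (E.wth T2) l41658 = true ∧
    allY (E.wth T2) l41659 = true ∧
    allY (E.wth T2) l41660 = true ∧
    allY (E.wth T2) l41661 = true ∧
    allY (E.wth T2) l41662 = true ∧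
    allY (E.wth T2) l41663 = true ∧
    allY (E.wth T2) l41664 = true :=
  ⟨by decide +kernel, by decide +kernel, by decide +kernel, by decide +kernel, by decide +kernel, by decide +kernel, by decide +kernel, by decide +kernel⟩

def t41665 : allY (E.wth T2) l41665 = true ∧
    allY (E.wth T2) l41666 = true ∧
    allY (E.wth T2) l41667 = true ∧
    allY (E.wth T2) l41668 = true ∧
    allY (E.wth T2) l41669 = true ∧
    allY (E.wth T2) l41670 = true ∧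
    allY (E.wth T2) l41671 = true ∧
    allY (E.wth T2) l41672 = true :=
  ⟨by decide +kernel, by decide +kernel, by decide +kernel, by decide +kernel, by decide +kernel, by decide +kernel, by decide +kernel, by decide +kernel⟩

def t41673 : allY (E.wth T2) l41673 = true ∧
    allY (E.wth T2) l41674 = true ∧
    allY (E.wth T2) l41675 = true ∧
    allY (E.wth T2) l41676 = true ∧
    allY (E.wth T2) l41677 = true ∧
    allY (E.wth T2) l41678 = true ∧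
    allY (E.wth T2) l41679 = true ∧
    allY (E.wth T2) l41680 = true :=
  ⟨by decide +kernel, by decide +kernel, by decide +kernel, by decide +kernel, by decide +kernel, by decide +kernel, by decide +kernel, by decide +kernel⟩

def t41681 : allY (E.wth T2) l41681 = true ∧
    allY (E.wth T2) l41682 = true ∧
    allY (E.wth T2) l41683 = true ∧
    allY (E.wth T2) l41684 = true ∧
    allY (E.wth T2) l41685 = true ∧
    allY (E.wth T2) l41686 = true ∧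
    allY (E.wth T2) l41687 = true ∧
    allY (E.wth T2) l41688 = true :=
  ⟨by decide +kernel, by decide +kernel, by decide +kernel, by decide +kernel, by decide +kernel, by decide +kernel, by decide +kernel, by decide +kernel⟩

def t41689 : allY (E.wth T2) l41689 = true ∧
    allY (E.wth T2) l41690 = true ∧
    allY (E.wth T2) l41691 = true ∧
    allY (E.wth T2) l41692 = true ∧
    allY (E.wth T2) l41693 = true ∧
    allY (E.wth T2) l41694 = true ∧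
    allY (E.wth T2) l41695 = true ∧
    allY (E.wth T2) l41696 = true :=
  ⟨by decide +kernel, by decide +kernel, by decide +kernel, by decide +kernel, by decide +kernel, by decide +kernel, by decide +kernel, by decide +kernel⟩

def t41697 : allY (E.wth T2) l41697 = true ∧
    allY (E.wth T2) l41698 = true ∧
    allY (E.wth T2) l41699 = true ∧
    allY (E.wth T2) l41700 = true ∧
    allY (E.wth T2) l41701 = true ∧
    allY (E.wth T2) l41702 = true ∧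
    allY (E.wth T2) l41703 = true ∧
    allY (E.wth T2) l41704 = true :=
  ⟨by decide +kernel, by decide +kernel, by decide +kernel, by decide +kernel, by decide +kernel, by decide +kernel, by decide +kernel, by decide +kernel⟩

def t41705 : allY (E.wth T2) l41705 = true ∧
    allY (E.wth T2) l41706 = true ∧
    allY (E.wth T2) l41707 = true ∧
    allY (E.wth T2) l41708 = true ∧
    allY (E.wth T2) l41709 = true ∧
    allY (E.wth T2) l41710 = true ∧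
    allY (E.wth T2) l41711 = true ∧
    allY (E.wth T2) l41712 = true :=
  ⟨by decide +kernel, by decide +kernel, by decide +kernel, by decide +kernel, by decide +kernel, by decide +kernel, by decide +kernel, by decide +kernel⟩

def t41713 : allY (E.wth T2) l41713 = true ∧
    allY (E.wth T2) l41714 = true ∧
    allY (E.wth T2) l41715 = true ∧
    allY (E.wth T2) l41716 = true ∧
    allY (E.wth T2) l41717 = true ∧
    allY (E.wth T2) l41718 = true ∧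
    allY (E.wth T2) l41719 = true ∧
    allY (E.wth T2) l41720 = true :=
  ⟨by decide +kernel, by decide +kernel, by decide +kernel, by decide +kernel, by decide +kernel, by decide +kernel, by decide +kernel, by decide +kernel⟩

def t41721 : allY (E.wth T2) l41721 = true ∧
    allY (E.wth T2) l41722 = true ∧
    allY (E.wth T2) l41723 = true ∧
    allY (E.wth T2) l41724 = true ∧
    allY (E.wth T2) l41725 = true ∧
    allY (E.wth T2) l41726 = true ∧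
    allY (E.wth T2) l41727 = true ∧
    allY (E.wth T2) l41728 = true :=
  ⟨by decide +kernel, by decide +kernel, by decide +kernel, by decide +kernel, by decide +kernel, by decide +kernel, by decide +kernel, by decide +kernel⟩

def t41729 : allY (E.wth T2) l41729 = true ∧
    allY (E.wth T2) l41730 = true ∧
    allY (E.wth T2) l41731 = true ∧
    allY (E.wth T2) l41732 = true ∧
    allY (E.wth T2) l41733 = true ∧
    allY (E.wth T2) l41734 = true ∧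
    allY (E.wth T2) l41735 = true ∧
    allY (E.wth T2) l41736 = true :=
  ⟨by decide +kernel, by decide +kernel, by decide +kernel, by decide +kernel, by decide +kernel, by decide +kernel, by decide +kernel, by decide +kernel⟩

def t41737 : allY (E.wth T2) l41737 = true ∧
    allY (E.wth T2) l41738 = true ∧
    allY (E.wth T2) l41739 = true ∧
    allY (E.wth T2) l41740 = true ∧
    allY (E.wth T2) l41741 = true ∧
    allY (E.wth T2) l41742 = true ∧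
    allY (E.wth T2) l41743 = true ∧
    allY (E.wth T2) l41744 = true :=
  ⟨by decide +kernel, by decide +kernel, by decide +kernel, by decide +kernel, by decide +kernel, by decide +kernel, by decide +kernel, by decide +kernel⟩

def t41745 : allY (E.wth T2) l41745 = true ∧
    allY (E.wth T2) l41746 = true ∧
    allY (E.wth T2) l41747 = true ∧
    allY (E.wth T2) l41748 = true ∧
    allY (E.wth T2) l41749 = true ∧
    allY (E.wth T2) l41750 = true ∧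
    allY (E.wth T2) l41751 = true ∧
    allY (E.wth T2) l41752 = true :=
  ⟨by decide +kernel, by decide +kernel, by decide +kernel, by decide +kernel, by decide +kernel, by decide +kernel, by decide +kernel, by decide +kernel⟩

def t41753 : allY (E.wth T2) l41753 = true ∧
    allY (E.wth T2) l41754 = true ∧
    allY (E.wth T2) l41755 = true ∧
    allY (E.wth T2) l41756 = true ∧
    allY (E.wth T2) l41757 = true ∧
    allY (E.wth T2) l41758 = true ∧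
    allY (E.wth T2) l41759 = true ∧
    allY (E.wth T2) l41760 = true :=
  ⟨by decide +kernel, by decide +kernel, by decide +kernel, by decide +kernel, by decide +kernel, by decide +kernel, by decide +kernel, by decide +kernel⟩

def t41761 : allY (E.wth T2) l41761 = true ∧
    allY (E.wth T2) l41762 = true ∧
    allY (E.wth T2) l41763 = true ∧
    allY (E.wth T2) l41764 = true ∧
    allY (E.wth T2) l41765 = true ∧
    allY (E.wth T2) l41766 = true ∧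
    allY (E.wth T2) l41767 = true ∧
    allY (E.wth T2) l41768 = true :=
  ⟨by decide +kernel, by decide +kernel, by decide +kernel, by decide +kernel, by decide +kernel, by decide +kernel, by decide +kernel, by decide +kernel⟩

def t41769 : allY (E.wth T2) l41769 = true ∧
    allY (E.wth T2) l41770 = true ∧
    allY (E.wth T2) l41771 = true ∧
    allY (E.wth T2) l41772 = true ∧
    allY (E.wth T2) l41773 = true ∧
    allY (E.wth T2) l41774 = true ∧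
    allY (E.wth T2) l41775 = true ∧
    allY (E.wth T2) l41776 = true :=
  ⟨by decide +kernel, by decide +kernel, by decide +kernel, by decide +kernel, by decide +kernel, by decide +kernel, by decide +kernel, by decide +kernel⟩

def t41777 : allY (E.wth T2) l41777 = true ∧
    allY (E.wth T2) l41778 = true ∧
    allY (E.wth T2) l41779 = true ∧
    allY (E.wth T2) l41780 = true ∧
    allY (E.wth T2) l41781 = true ∧
    allY (E.wth T2) l41782 = true ∧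
    allY (E.wth T2) l41783 = true ∧
    allY (E.wth T2) l41784 = true :=
  ⟨by decide +kernel, by decide +kernel, by decide +kernel, by decide +kernel, by decide +kernel, by decide +kernel, by decide +kernel, by decide +kernel⟩

def t41785 : allY (E.wth T2) l41785 = true ∧
    allY (E.wth T2) l41786 = true ∧
    allY (E.wth T2) l41787 = true ∧
    allY (E.wth T2) l41788 = true ∧
    allY (E.wth T2) l41789 = true ∧
    allY (E.wth T2) l41790 = true ∧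
    allY (E.wth T2) l41791 = true ∧
    allY (E.wth T2) l41792 = true :=
  ⟨by decide +kernel, by decide +kernel, by decide +kernel, by decide +kernel, by decide +kernel, by decide +kernel, by decide +kernel, by decide +kernel⟩

def t41793 : allY (E.wth T2) l41793 = true ∧
    allY (E.wth T2) l41794 = true ∧
    allY (E.wth T2) l41795 = true ∧
    allY (E.wth T2) l41796 = true ∧
    allY (E.wth T2) l41797 = true ∧
    allY (E.wth T2) l41798 = true ∧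
    allY (E.wth T2) l41799 = true ∧
    allY (E.wth T2) l41800 = true :=
  ⟨by decide +kernel, by decide +kernel, by decide +kernel, by decide +kernel, by decide +kernel, by decide +kernel, by decide +kernel, by decide +kernel⟩

def t41801 : allY (E.wth T2) l41801 = true ∧
    allY (E.wth T2) l41802 = true ∧
    allY (E.wth T2) l41803 = true ∧
    allY (E.wth T2) l41804 = true ∧
    allY (E.wth T2) l41805 = true ∧
    allY (E.wth T2) l41806 = true ∧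
    allY (E.wth T2) l41807 = true ∧
    allY (E.wth T2) l41808 = true :=
  ⟨by decide +kernel, by decide +kernel, by decide +kernel, by decide +kernel, by decide +kernel, by decide +kernel, by decide +kernel, by decide +kernel⟩

def t41809 : allY (E.wth T2) l41809 = true ∧
    allY (E.wth T2) l41810 = true ∧
    allY (E.wth T2) l41811 = true ∧
    allY (E.wth T2) l41812 = true ∧
    allY (E.wth T2) l41813 = true ∧
    allY (E.wth T2) l41814 = true ∧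
    allY (E.wth T2) l41815 = true ∧
    allY (E.wth T2) l41816 = true :=
  ⟨by decide +kernel, by decide +kernel, by decide +kernel, by decide +kernel, by decide +kernel, by decide +kernel, by decide +kernel, by decide +kernel⟩

def t41817 : allY (E.wth T2) l41817 = true ∧
    allY (E.wth T2) l41818 = true ∧
    allY (E.wth T2) l41819 = true ∧
    allY (E.wth T2) l41820 = true ∧
    allY (E.wth T2) l41821 = true ∧
    allY (E.wth T2) l41822 = true ∧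
    allY (E.wth T2) l41823 = true ∧
    allY (E.wth T2) l41824 = true :=
  ⟨by decide +kernel, by decide +kernel, by decide +kernel, by decide +kernel, by decide +kernel, by decide +kernel, by decide +kernel, by decide +kernel⟩

def t41825 : allY (E.wth T2) l41825 = true ∧
    allY (E.wth T2) l41826 = true ∧
    allY (E.wth T2) l41827 = true ∧
    allY (E.wth T2) l41828 = true ∧
    allY (E.wth T2) l41829 = true ∧
    allY (E.wth T2) l41830 = true ∧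
    allY (E.wth T2) l41831 = true ∧
    allY (E.wth T2) l41832 = true :=
  ⟨by decide +kernel, by decide +kernel, by decide +kernel, by decide +kernel, by decide +kernel, by decide +kernel, by decide +kernel, by decide +kernel⟩

def t41833 : allY (E.wth T2) l41833 = true ∧
    allY (E.wth T2) l41834 = true ∧
    allY (E.wth T2) l41835 = true ∧
    allY (E.wth T2) l41836 = true ∧
    allY (E.wth T2) l41837 = true ∧
    allY (E.wth T2) l41838 = true ∧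
    allY (E.wth T2) l41839 = true ∧
    allY (E.wth T2) l41840 = true :=
  ⟨by decide +kernel, by decide +kernel, by decide +kernel, by decide +kernel, by decide +kernel, by decide +kernel, by decide +kernel, by decide +kernel⟩

def t41841 : allY (E.wth T2) l41841 = true ∧
    allY (E.wth T2) l41842 = true ∧
    allY (E.wth T2) l41843 = true ∧
    allY (E.wth T2) l41844 = true ∧
    allY (E.wth T2) l41845 = true ∧
    allY (E.wth T2) l41846 = true ∧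
    allY (E.wth T2) l41847 = true ∧
    allY (E.wth T2) l41848 = true :=
  ⟨by decide +kernel, by decide +kernel, by decide +kernel, by decide +kernel, by decide +kernel, by decide +kernel, by decide +kernel, by decide +kernel⟩

def t41849 : allY (E.wth T2) l41849 = true ∧
    allY (E.wth T2) l41850 = true ∧
    allY (E.wth T2) l41851 = true ∧
    allY (E.wth T2) l41852 = true ∧
    allY (E.wth T2) l41853 = true ∧
    allY (E.wth T2) l41854 = true ∧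
    allY (E.wth T2) l41855 = true ∧
    allY (E.wth T2) l41856 = true :=
  ⟨by decide +kernel, by decide +kernel, by decide +kernel, by decide +kernel, by decide +kernel, by decide +kernel, by decide +kernel, by decide +kernel⟩

def t41857 : allY (E.wth T2) l41857 = true ∧
    allY (E.wth T2) l41858 = true ∧
    allY (E.wth T2) l41859 = true ∧
    allY (E.wth T2) l41860 = true ∧
    allY (E.wth T2) l41861 = true ∧
    allY (E.wth T2) l41862 = true ∧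
    allY (E.wth T2) l41863 = true ∧
    allY (E.wth T2) l41864 = true :=
  ⟨by decide +kernel, by decide +kernel, by decide +kernel, by decide +kernel, by decide +kernel, by decide +kernel, by decide +kernel, by decide +kernel⟩

def t41865 : allY (E.wth T2) l41865 = true ∧
    allY (E.wth T2) l41866 = true ∧
    allY (E.wth T2) l41867 = true ∧
    allY (E.wth T2) l41868 = true ∧
    allY (E.wth T2) l41869 = true ∧
    allY (E.wth T2) l41870 = true ∧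
    allY (E.wth T2) l41871 = true ∧
    allY (E.wth T2) l41872 = true :=
  ⟨by decide +kernel, by decide +kernel, by decide +kernel, by decide +kernel, by decide +kernel, by decide +kernel, by decide +kernel, by decide +kernel⟩

def t41873 : allY (E.wth T2) l41873 = true ∧
    allY (E.wth T2) l41874 = true ∧
    allY (E.wth T2) l41875 = true ∧
    allY (E.wth T2) l41876 = true ∧
    allY (E.wth T2) l41877 = true ∧
    allY (E.wth T2) l41878 = true ∧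
    allY (E.wth T2) l41879 = true ∧
    allY (E.wth T2) l41880 = true :=
  ⟨by decide +kernel, by decide +kernel, by decide +kernel, by decide +kernel, by decide +kernel, by decide +kernel, by decide +kernel, by decide +kernel⟩

def t41881 : allY (E.wth T2) l41881 = true ∧
    allY (E.wth T2) l41882 = true ∧
    allY (E.wth T2) l41883 = true ∧
    allY (E.wth T2) l41884 = true ∧
    allY (E.wth T2) l41885 = true ∧
    allY (E.wth T2) l41886 = true ∧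
    allY (E.wth T2) l41887 = true ∧
    allY (E.wth T2) l41888 = true :=
  ⟨by decide +kernel, by decide +kernel, by decide +kernel, by decide +kernel, by decide +kernel, by decide +kernel, by decide +kernel, by decide +kernel⟩

def t41889 : allY (E.wth T2) l41889 = true ∧
    allY (E.wth T2) l41890 = true ∧
    allY (E.wth T2) l41891 = true ∧
    allY (E.wth T2) l41892 = true ∧
    allY (E.wth T2) l41893 = true ∧
    allY (E.wth T2) l41894 = true ∧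
    allY (E.wth T2) l41895 = true ∧
    allY (E.wth T2) l41896 = true :=
  ⟨by decide +kernel, by decide +kernel, by decide +kernel, by decide +kernel, by decide +kernel, by decide +kernel, by decide +kernel, by decide +kernel⟩

def t41897 : allY (E.wth T2) l41897 = true ∧
    allY (E.wth T2) l41898 = true ∧
    allY (E.wth T2) l41899 = true ∧
    allY (E.wth T2) l41900 = true ∧
    allY (E.wth T2) l41901 = true ∧
    allY (E.wth T2) l41902 = true ∧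
    allY (E.wth T2) l41903 = true ∧
    allY (E.wth T2) l41904 = true :=
  ⟨by decide +kernel, by decide +kernel, by decide +kernel, by decide +kernel, by decide +kernel, by decide +kernel, by decide +kernel, by decide +kernel⟩

def t41905 : allY (E.wth T2) l41905 = true ∧
    allY (E.wth T2) l41906 = true ∧
    allY (E.wth T2) l41907 = true ∧
    allY (E.wth T2) l41908 = true ∧
    allY (E.wth T2) l41909 = true ∧
    allY (E.wth T2) l41910 = true ∧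
    allY (E.wth T2) l41911 = true ∧
    allY (E.wth T2) l41912 = true :=
  ⟨by decide +kernel, by decide +kernel, by decide +kernel, by decide +kernel, by decide +kernel, by decide +kernel, by decide +kernel, by decide +kernel⟩

def t41913 : allY (E.wth T2) l41913 = true ∧
    allY (E.wth T2) l41914 = true ∧
    allY (E.wth T2) l41915 = true ∧
    allY (E.wth T2) l41916 = true ∧
    allY (E.wth T2) l41917 = true ∧
    allY (E.wth T2) l41918 = true ∧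
    allY (E.wth T2) l41919 = true ∧
    allY (E.wth T2) l41920 = true :=
  ⟨by decide +kernel, by decide +kernel, by decide +kernel, by decide +kernel, by decide +kernel, by decide +kernel, by decide +kernel, by decide +kernel⟩

def t41921 : allY (E.wth T2) l41921 = true ∧
    allY (E.wth T2) l41922 = true ∧
    allY (E.wth T2) l41923 = true ∧
    allY (E.wth T2) l41924 = true ∧
    allY (E.wth T2) l41925 = true ∧
    allY (E.wth T2) l41926 = true ∧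
    allY (E.wth T2) l41927 = true ∧
    allY (E.wth T2) l41928 = true :=
  ⟨by decide +kernel, by decide +kernel, by decide +kernel, by decide +kernel, by decide +kernel, by decide +kernel, by decide +kernel, by decide +kernel⟩

def t41929 : allY (E.wth T2) l41929 = true ∧
    allY (E.wth T2) l41930 = true ∧
    allY (E.wth T2) l41931 = true ∧
    allY (E.wth T2) l41932 = true ∧
    allY (E.wth T2) l41933 = true ∧
    allY (E.wth T2) l41934 = true ∧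
    allY (E.wth T2) l41935 = true ∧
    allY (E.wth T2) l41936 = true :=
  ⟨by decide +kernel, by decide +kernel, by decide +kernel, by decide +kernel, by decide +kernel, by decide +kernel, by decide +kernel, by decide +kernel⟩

def t41937 : allY (E.wth T2) l41937 = true ∧
    allY (E.wth T2) l41938 = true ∧
    allY (E.wth T2) l41939 = true ∧
    allY (E.wth T2) l41940 = true ∧
    allY (E.wth T2) l41941 = true ∧
    allY (E.wth T2) l41942 = true ∧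
    allY (E.wth T2) l41943 = true ∧
    allY (E.wth T2) l41944 = true :=
  ⟨by decide +kernel, by decide +kernel, by decide +kernel, by decide +kernel, by decide +kernel, by decide +kernel, by decide +kernel, by decide +kernel⟩

def t41945 : allY (E.wth T2) l41945 = true ∧
    allY (E.wth T2) l41946 = true ∧
    allY (E.wth T2) l41947 = true ∧
    allY (E.wth T2) l41948 = true ∧
    allY (E.wth T2) l41949 = true ∧
    allY (E.wth T2) l41950 = true ∧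
    allY (E.wth T2) l41951 = true ∧
    allY (E.wth T2) l41952 = true :=
  ⟨by decide +kernel, by decide +kernel, by decide +kernel, by decide +kernel, by decide +kernel, by decide +kernel, by decide +kernel, by decide +kernel⟩

def t41953 : allY (E.wth T2) l41953 = true ∧
    allY (E.wth T2) l41954 = true ∧
    allY (E.wth T2) l41955 = true ∧
    allY (E.wth T2) l41956 = true ∧
    allY (E.wth T2) l41957 = true ∧
    allY (E.wth T2) l41958 = true ∧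
    allY (E.wth T2) l41959 = true ∧
    allY (E.wth T2) l41960 = true :=
  ⟨by decide +kernel, by decide +kernel, by decide +kernel, by decide +kernel, by decide +kernel, by decide +kernel, by decide +kernel, by decide +kernel⟩

def t41961 : allY (E.wth T2) l41961 = true ∧
    allY (E.wth T2) l41962 = true ∧
    allY (E.wth T2) l41963 = true ∧
    allY (E.wth T2) l41964 = true ∧
    allY (E.wth T2) l41965 = true ∧
    allY (E.wth T2) l41966 = true ∧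
    allY (E.wth T2) l41967 = true ∧
    allY (E.wth T2) l41968 = true :=
  ⟨by decide +kernel, by decide +kernel, by decide +kernel, by decide +kernel, by decide +kernel, by decide +kernel, by decide +kernel, by decide +kernel⟩

def t41969 : allY (E.wth T2) l41969 = true ∧
    allY (E.wth T2) l41970 = true ∧
    allY (E.wth T2) l41971 = true ∧
    allY (E.wth T2) l41972 = true ∧
    allY (E.wth T2) l41973 = true ∧
    allY (E.wth T2) l41974 = true ∧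
    allY (E.wth T2) l41975 = true ∧
    allY (E.wth T2) l41976 = true :=
  ⟨by decide +kernel, by decide +kernel, by decide +kernel, by decide +kernel, by decide +kernel, by decide +kernel, by decide +kernel, by decide +kernel⟩

def t41977 : allY (E.wth T2) l41977 = true ∧
    allY (E.wth T2) l41978 = true ∧
    allY (E.wth T2) l41979 = true ∧
    allY (E.wth T2) l41980 = true ∧
    allY (E.wth T2) l41981 = true ∧
    allY (E.wth T2) l41982 = true ∧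
    allY (E.wth T2) l41983 = true ∧
    allY (E.wth T2) l41984 = true :=
  ⟨by decide +kernel, by decide +kernel, by decide +kernel, by decide +kernel, by decide +kernel, by decide +kernel, by decide +kernel, by decide +kernel⟩

def t41985 : allY (E.wth T2) l41985 = true ∧
    allY (E.wth T2) l41986 = true ∧
    allY (E.wth T2) l41987 = true ∧
    allY (E.wth T2) l41988 = true ∧
    allY (E.wth T2) l41989 = true ∧
    allY (E.wth T2) l41990 = true ∧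
    allY (E.wth T2) l41991 = true ∧
    allY (E.wth T2) l41992 = true :=
  ⟨by decide +kernel, by decide +kernel, by decide +kernel, by decide +kernel, by decide +kernel, by decide +kernel, by decide +kernel, by decide +kernel⟩

def t41993 : allY (E.wth T2) l41993 = true ∧
    allY (E.wth T2) l41994 = true ∧
    allY (E.wth T2) l41995 = true ∧
    allY (E.wth T2) l41996 = true ∧
    allY (E.wth T2) l41997 = true ∧
    allY (E.wth T2) l41998 = true ∧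
    allY (E.wth T2) l41999 = true ∧
    allY (E.wth T2) l42000 = true :=
  ⟨by decide +kernel, by decide +kernel, by decide +kernel, by decide +kernel, by decide +kernel, by decide +kernel, by decide +kernel, by decide +kernel⟩

def t42001 : allY (E.wth T2) l42001 = true ∧
    allY (E.wth T2) l42002 = true ∧
    allY (E.wth T2) l42003 = true ∧
    allY (E.wth T2) l42004 = true ∧
    allY (E.wth T2) l42005 = true ∧
    allY (E.wth T2) l42006 = true ∧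
    allY (E.wth T2) l42007 = true ∧
    allY (E.wth T2) l42008 = true :=
  ⟨by decide +kernel, by decide +kernel, by decide +kernel, by decide +kernel, by decide +kernel, by decide +kernel, by decide +kernel, by decide +kernel⟩

def t42009 : allY (E.wth T2) l42009 = true ∧
    allY (E.wth T2) l42010 = true ∧
    allY (E.wth T2) l42011 = true ∧
    allY (E.wth T2) l42012 = true ∧
    allY (E.wth T2) l42013 = true ∧
    allY (E.wth T2) l42014 = true ∧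
    allY (E.wth T2) l42015 = true ∧
    allY (E.wth T2) l42016 = true :=
  ⟨by decide +kernel, by decide +kernel, by decide +kernel, by decide +kernel, by decide +kernel, by decide +kernel, by decide +kernel, by decide +kernel⟩

def t42017 : allY (E.wth T2) l42017 = true ∧
    allY (E.wth T2) l42018 = true ∧
    allY (E.wth T2) l42019 = true ∧
    allY (E.wth T2) l42020 = true ∧
    allY (E.wth T2) l42021 = true ∧
    allY (E.wth T2) l42022 = true ∧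
    allY (E.wth T2) l42023 = true ∧
    allY (E.wth T2) l42024 = true :=
  ⟨by decide +kernel, by decide +kernel, by decide +kernel, by decide +kernel, by decide +kernel, by decide +kernel, by decide +kernel, by decide +kernel⟩

def t42025 : allY (E.wth T2) l42025 = true ∧
    allY (E.wth T2) l42026 = true ∧
    allY (E.wth T2) l42027 = true ∧
    allY (E.wth T2) l42028 = true ∧
    allY (E.wth T2) l42029 = true ∧
    allY (E.wth T2) l42030 = true ∧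
    allY (E.wth T2) l42031 = true ∧
    allY (E.wth T2) l42032 = true :=
  ⟨by decide +kernel, by decide +kernel, by decide +kernel, by decide +kernel, by decide +kernel, by decide +kernel, by decide +kernel, by decide +kernel⟩

def t42033 : allY (E.wth T2) l42033 = true ∧
    allY (E.wth T2) l42034 = true ∧
    allY (E.wth T2) l42035 = true ∧
    allY (E.wth T2) l42036 = true ∧
    allY (E.wth T2) l42037 = true ∧
    allY (E.wth T2) l42038 = true ∧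
    allY (E.wth T2) l42039 = true ∧
    allY (E.wth T2) l42040 = true :=
  ⟨by decide +kernel, by decide +kernel, by decide +kernel, by decide +kernel, by decide +kernel, by decide +kernel, by decide +kernel, by decide +kernel⟩

def t42041 : allY (E.wth T2) l42041 = true ∧
    allY (E.wth T2) l42042 = true :=
  ⟨by decide +kernel, by decide +kernel⟩

theorem a76 {p : Rf → Prop} (H : ∀ l, allY (E.wth T2) l = true → (lkp l).All p) :
    b76.All p := ⟨⟨⟨⟨⟨⟨⟨⟨⟨H _ t41489.1, H _ t41489.2.1⟩, ⟨H _ t41489.2.2.1, H _ t41489.2.2.2.1⟩⟩, ⟨⟨H _ t41489.2.2.2.2.1, H _ t41489.2.2.2.2.2.1⟩, ⟨H _ t41489.2.2.2.2.2.2.1, H _ t41489.2.2.2.2.2.2.2⟩⟩⟩, ⟨⟨⟨H _ t41497.1, H _ t41497.2.1⟩, ⟨H _ t41497.2.2.1, H _ t41497.2.2.2.1⟩⟩, ⟨⟨H _ t41497.2.2.2.2.1, H _ t41497.2.2.2.2.2.1⟩, ⟨H _ t41497.2.2.2.2.2.2.1, ⟨H _ t41497.2.2.2.2.2.2.2, H _ t41505.1⟩⟩⟩⟩⟩, ⟨⟨⟨⟨H _ t41505.2.1, H _ t41505.2.2.1⟩, ⟨H _ t41505.2.2.2.1, H _ t41505.2.2.2.2.1⟩⟩,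 ⟨⟨H _ t41505.2.2.2.2.2.1, H _ t41505.2.2.2.2.2.2.1⟩, ⟨H _ t41505.2.2.2.2.2.2.2, H _ t41513.1⟩⟩⟩, ⟨⟨⟨H _ t41513.2.1, H _ t41513.2.2.1⟩, ⟨H _ t41513.2.2.2.1, H _ t41513.2.2.2.2.1⟩⟩, ⟨⟨H _ t41513.2.2.2.2.2.1, H _ t41513.2.2.2.2.2.2.1⟩, ⟨H _ t41513.2.2.2.2.2.2.2, ⟨H _ t41521.1, H _ t41521.2.1⟩⟩⟩⟩⟩⟩, ⟨⟨⟨⟨⟨H _ t41521.2.2.1, H _ t41521.2.2.2.1⟩, ⟨H _ t41521.2.2.2.2.1, H _ t41521.2.2.2.2.2.1⟩⟩, ⟨⟨H _ t41521.2.2.2.2.2.2.1, H _ t41521.2.2.2.2.2.2.2⟩, ⟨H _ t41529.1, H _ t41529.2.1⟩⟩⟩, ⟨⟨⟨H _ t41529.2.2.1, H _ t41529.2.2.2.1⟩, ⟨H _ t41529.2.2.2.2.1, H _ t41529.2.2.2.2.2.1⟩⟩, ⟨⟨H _ t41529.2.2.2.2.2.2.1, H _ t41529.2.2.2.2.2.2.2⟩, ⟨H _ t41537.1, ⟨H _ t41537.2.1, H _ t41537.2.2.1⟩⟩⟩⟩⟩, ⟨⟨⟨⟨H _ t41537.2.2.2.1, H _ t41537.2.2.2.2.1⟩, ⟨H _ t41537.2.2.2.2.2.1, H _ t41537.2.2.2.2.2.2.1⟩⟩, ⟨⟨H _ t41537.2.2.2.2.2.2.2, H _ t41545.1⟩, ⟨H _ t41545.2.1, ⟨H _ t41545.2.2.1, H _ t41545.2.2.2.1⟩⟩⟩⟩, ⟨⟨⟨H _ t41545.2.2.2.2.1,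 H _ t41545.2.2.2.2.2.1⟩, ⟨H _ t41545.2.2.2.2.2.2.1, H _ t41545.2.2.2.2.2.2.2⟩⟩, ⟨⟨H _ t41553.1, H _ t41553.2.1⟩, ⟨H _ t41553.2.2.1, ⟨H _ t41553.2.2.2.1, H _ t41553.2.2.2.2.1⟩⟩⟩⟩⟩⟩⟩, ⟨⟨⟨⟨⟨⟨H _ t41553.2.2.2.2.2.1, H _ t41553.2.2.2.2.2.2.1⟩, ⟨H _ t41553.2.2.2.2.2.2.2, H _ t41561.1⟩⟩, ⟨⟨H _ t41561.2.1, H _ t41561.2.2.1⟩, ⟨H _ t41561.2.2.2.1, H _ t41561.2.2.2.2.1⟩⟩⟩, ⟨⟨⟨H _ t41561.2.2.2.2.2.1, H _ t41561.2.2.2.2.2.2.1⟩, ⟨H _ t41561.2.2.2.2.2.2.2, H _ t41569.1⟩⟩, ⟨⟨H _ t41569.2.1, H _ t41569.2.2.1⟩, ⟨H _ t41569.2.2.2.1, ⟨H _ t41569.2.2.2.2.1, H _ t41569.2.2.2.2.2.1⟩⟩⟩⟩⟩, ⟨⟨⟨⟨H _ t41569.2.2.2.2.2.2.1, H _ t41569.2.2.2.2.2.2.2⟩, ⟨H _ t41577.1, H _ t41577.2.1⟩⟩, ⟨⟨H _ t41577.2.2.1, H _ t41577.2.2.2.1⟩, ⟨H _ t41577.2.2.2.2.1, H _ t41577.2.2.2.2.2.1⟩⟩⟩, ⟨⟨⟨H _ t41577.2.2.2.2.2.2.1, H _ t41577.2.2.2.2.2.2.2⟩, ⟨H _ t41585.1, H _ t41585.2.1⟩⟩, ⟨⟨H _ t41585.2.2.1, H _ t41585.2.2.2.1⟩, ⟨H _ t41585.2.2.2.2.1,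 ⟨H _ t41585.2.2.2.2.2.1, H _ t41585.2.2.2.2.2.2.1⟩⟩⟩⟩⟩⟩, ⟨⟨⟨⟨⟨H _ t41585.2.2.2.2.2.2.2, H _ t41593.1⟩, ⟨H _ t41593.2.1, H _ t41593.2.2.1⟩⟩, ⟨⟨H _ t41593.2.2.2.1, H _ t41593.2.2.2.2.1⟩, ⟨H _ t41593.2.2.2.2.2.1, H _ t41593.2.2.2.2.2.2.1⟩⟩⟩, ⟨⟨⟨H _ t41593.2.2.2.2.2.2.2, H _ t41601.1⟩, ⟨H _ t41601.2.1, H _ t41601.2.2.1⟩⟩, ⟨⟨H _ t41601.2.2.2.1, H _ t41601.2.2.2.2.1⟩, ⟨H _ t41601.2.2.2.2.2.1, ⟨H _ t41601.2.2.2.2.2.2.1, H _ t41601.2.2.2.2.2.2.2⟩⟩⟩⟩⟩, ⟨⟨⟨⟨H _ t41609.1, H _ t41609.2.1⟩, ⟨H _ t41609.2.2.1, H _ t41609.2.2.2.1⟩⟩, ⟨⟨H _ t41609.2.2.2.2.1, H _ t41609.2.2.2.2.2.1⟩, ⟨H _ t41609.2.2.2.2.2.2.1, ⟨H _ t41609.2.2.2.2.2.2.2, H _ t41617.1⟩⟩⟩⟩, ⟨⟨⟨H _ t41617.2.1, H _ t41617.2.2.1⟩, ⟨H _ t41617.2.2.2.1, H _ t41617.2.2.2.2.1⟩⟩, ⟨⟨H _ t41617.2.2.2.2.2.1, H _ t41617.2.2.2.2.2.2.1⟩, ⟨H _ t41617.2.2.2.2.2.2.2, ⟨H _ t41625.1, H _ t41625.2.1⟩⟩⟩⟩⟩⟩⟩⟩, ⟨⟨⟨⟨⟨⟨⟨H _ t41625.2.2.1, H _ t41625.2.2.2.1⟩, ⟨H _ t41625.2.2.2.2.1,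 H _ t41625.2.2.2.2.2.1⟩⟩, ⟨⟨H _ t41625.2.2.2.2.2.2.1, H _ t41625.2.2.2.2.2.2.2⟩, ⟨H _ t41633.1, H _ t41633.2.1⟩⟩⟩, ⟨⟨⟨H _ t41633.2.2.1, H _ t41633.2.2.2.1⟩, ⟨H _ t41633.2.2.2.2.1, H _ t41633.2.2.2.2.2.1⟩⟩, ⟨⟨H _ t41633.2.2.2.2.2.2.1, H _ t41633.2.2.2.2.2.2.2⟩, ⟨H _ t41641.1, ⟨H _ t41641.2.1, H _ t41641.2.2.1⟩⟩⟩⟩⟩, ⟨⟨⟨⟨H _ t41641.2.2.2.1, H _ t41641.2.2.2.2.1⟩, ⟨H _ t41641.2.2.2.2.2.1, H _ t41641.2.2.2.2.2.2.1⟩⟩, ⟨⟨H _ t41641.2.2.2.2.2.2.2, H _ t41649.1⟩, ⟨H _ t41649.2.1, H _ t41649.2.2.1⟩⟩⟩, ⟨⟨⟨H _ t41649.2.2.2.1, H _ t41649.2.2.2.2.1⟩, ⟨H _ t41649.2.2.2.2.2.1, H _ t41649.2.2.2.2.2.2.1⟩⟩, ⟨⟨H _ t41649.2.2.2.2.2.2.2, H _ t41657.1⟩, ⟨H _ t41657.2.1, ⟨H _ t41657.2.2.1, H _ t41657.2.2.2.1⟩⟩⟩⟩⟩⟩, ⟨⟨⟨⟨⟨H _ t41657.2.2.2.2.1, H _ t41657.2.2.2.2.2.1⟩, ⟨H _ t41657.2.2.2.2.2.2.1, H _ t41657.2.2.2.2.2.2.2⟩⟩, ⟨⟨H _ t41665.1, H _ t41665.2.1⟩, ⟨H _ t41665.2.2.1, H _ t41665.2.2.2.1⟩⟩⟩, ⟨⟨⟨H _ t41665.2.2.2.2.1,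 H _ t41665.2.2.2.2.2.1⟩, ⟨H _ t41665.2.2.2.2.2.2.1, H _ t41665.2.2.2.2.2.2.2⟩⟩, ⟨⟨H _ t41673.1, H _ t41673.2.1⟩, ⟨H _ t41673.2.2.1, ⟨H _ t41673.2.2.2.1, H _ t41673.2.2.2.2.1⟩⟩⟩⟩⟩, ⟨⟨⟨⟨H _ t41673.2.2.2.2.2.1, H _ t41673.2.2.2.2.2.2.1⟩, ⟨H _ t41673.2.2.2.2.2.2.2, H _ t41681.1⟩⟩, ⟨⟨H _ t41681.2.1, H _ t41681.2.2.1⟩, ⟨H _ t41681.2.2.2.1, ⟨H _ t41681.2.2.2.2.1, H _ t41681.2.2.2.2.2.1⟩⟩⟩⟩, ⟨⟨⟨H _ t41681.2.2.2.2.2.2.1, H _ t41681.2.2.2.2.2.2.2⟩, ⟨H _ t41689.1, H _ t41689.2.1⟩⟩, ⟨⟨H _ t41689.2.2.1, H _ t41689.2.2.2.1⟩, ⟨H _ t41689.2.2.2.2.1, ⟨H _ t41689.2.2.2.2.2.1, H _ t41689.2.2.2.2.2.2.1⟩⟩⟩⟩⟩⟩⟩, ⟨⟨⟨⟨⟨⟨H _ t41689.2.2.2.2.2.2.2, H _ t41697.1⟩, ⟨H _ t41697.2.1, H _ t41697.2.2.1⟩⟩, ⟨⟨H _ t41697.2.2.2.1, H _ t41697.2.2.2.2.1⟩, ⟨H _ t41697.2.2.2.2.2.1, H _ t41697.2.2.2.2.2.2.1⟩⟩⟩, ⟨⟨⟨H _ t41697.2.2.2.2.2.2.2, H _ t41705.1⟩, ⟨H _ t41705.2.1, H _ t41705.2.2.1⟩⟩, ⟨⟨H _ t41705.2.2.2.1, H _ t41705.2.2.2.2.1⟩,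 ⟨H _ t41705.2.2.2.2.2.1, ⟨H _ t41705.2.2.2.2.2.2.1, H _ t41705.2.2.2.2.2.2.2⟩⟩⟩⟩⟩, ⟨⟨⟨⟨H _ t41713.1, H _ t41713.2.1⟩, ⟨H _ t41713.2.2.1, H _ t41713.2.2.2.1⟩⟩, ⟨⟨H _ t41713.2.2.2.2.1, H _ t41713.2.2.2.2.2.1⟩, ⟨H _ t41713.2.2.2.2.2.2.1, ⟨H _ t41713.2.2.2.2.2.2.2, H _ t41721.1⟩⟩⟩⟩, ⟨⟨⟨H _ t41721.2.1, H _ t41721.2.2.1⟩, ⟨H _ t41721.2.2.2.1, H _ t41721.2.2.2.2.1⟩⟩, ⟨⟨H _ t41721.2.2.2.2.2.1, H _ t41721.2.2.2.2.2.2.1⟩, ⟨H _ t41721.2.2.2.2.2.2.2, ⟨H _ t41729.1, H _ t41729.2.1⟩⟩⟩⟩⟩⟩, ⟨⟨⟨⟨⟨H _ t41729.2.2.1, H _ t41729.2.2.2.1⟩, ⟨H _ t41729.2.2.2.2.1, H _ t41729.2.2.2.2.2.1⟩⟩, ⟨⟨H _ t41729.2.2.2.2.2.2.1, H _ t41729.2.2.2.2.2.2.2⟩, ⟨H _ t41737.1, H _ t41737.2.1⟩⟩⟩, ⟨⟨⟨H _ t41737.2.2.1, H _ t41737.2.2.2.1⟩, ⟨H _ t41737.2.2.2.2.1, H _ t41737.2.2.2.2.2.1⟩⟩, ⟨⟨H _ t41737.2.2.2.2.2.2.1, H _ t41737.2.2.2.2.2.2.2⟩, ⟨H _ t41745.1, ⟨H _ t41745.2.1, H _ t41745.2.2.1⟩⟩⟩⟩⟩, ⟨⟨⟨⟨H _ t41745.2.2.2.1, H _ t41745.2.2.2.2.1⟩,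 ⟨H _ t41745.2.2.2.2.2.1, H _ t41745.2.2.2.2.2.2.1⟩⟩, ⟨⟨H _ t41745.2.2.2.2.2.2.2, H _ t41753.1⟩, ⟨H _ t41753.2.1, ⟨H _ t41753.2.2.1, H _ t41753.2.2.2.1⟩⟩⟩⟩, ⟨⟨⟨H _ t41753.2.2.2.2.1, H _ t41753.2.2.2.2.2.1⟩, ⟨H _ t41753.2.2.2.2.2.2.1, H _ t41753.2.2.2.2.2.2.2⟩⟩, ⟨⟨H _ t41761.1, H _ t41761.2.1⟩, ⟨H _ t41761.2.2.1, ⟨H _ t41761.2.2.2.1, H _ t41761.2.2.2.2.1⟩⟩⟩⟩⟩⟩⟩⟩⟩, ⟨⟨⟨⟨⟨⟨⟨⟨H _ t41761.2.2.2.2.2.1, H _ t41761.2.2.2.2.2.2.1⟩, ⟨H _ t41761.2.2.2.2.2.2.2, H _ t41769.1⟩⟩, ⟨⟨H _ t41769.2.1, H _ t41769.2.2.1⟩, ⟨H _ t41769.2.2.2.1, H _ t41769.2.2.2.2.1⟩⟩⟩, ⟨⟨⟨H _ t41769.2.2.2.2.2.1, H _ t41769.2.2.2.2.2.2.1⟩, ⟨H _ t41769.2.2.2.2.2.2.2, H _ t41777.1⟩⟩, ⟨⟨H _ t41777.2.1, H _ t41777.2.2.1⟩, ⟨H _ t41777.2.2.2.1, ⟨H _ t41777.2.2.2.2.1, H _ t41777.2.2.2.2.2.1⟩⟩⟩⟩⟩, ⟨⟨⟨⟨H _ t41777.2.2.2.2.2.2.1, H _ t41777.2.2.2.2.2.2.2⟩, ⟨H _ t41785.1, H _ t41785.2.1⟩⟩, ⟨⟨H _ t41785.2.2.1, H _ t41785.2.2.2.1⟩, ⟨H _ t41785.2.2.2.2.1,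 H _ t41785.2.2.2.2.2.1⟩⟩⟩, ⟨⟨⟨H _ t41785.2.2.2.2.2.2.1, H _ t41785.2.2.2.2.2.2.2⟩, ⟨H _ t41793.1, H _ t41793.2.1⟩⟩, ⟨⟨H _ t41793.2.2.1, H _ t41793.2.2.2.1⟩, ⟨H _ t41793.2.2.2.2.1, ⟨H _ t41793.2.2.2.2.2.1, H _ t41793.2.2.2.2.2.2.1⟩⟩⟩⟩⟩⟩, ⟨⟨⟨⟨⟨H _ t41793.2.2.2.2.2.2.2, H _ t41801.1⟩, ⟨H _ t41801.2.1, H _ t41801.2.2.1⟩⟩, ⟨⟨H _ t41801.2.2.2.1, H _ t41801.2.2.2.2.1⟩, ⟨H _ t41801.2.2.2.2.2.1, H _ t41801.2.2.2.2.2.2.1⟩⟩⟩, ⟨⟨⟨H _ t41801.2.2.2.2.2.2.2, H _ t41809.1⟩, ⟨H _ t41809.2.1, H _ t41809.2.2.1⟩⟩, ⟨⟨H _ t41809.2.2.2.1, H _ t41809.2.2.2.2.1⟩, ⟨H _ t41809.2.2.2.2.2.1, ⟨H _ t41809.2.2.2.2.2.2.1, H _ t41809.2.2.2.2.2.2.2⟩⟩⟩⟩⟩, ⟨⟨⟨⟨H _ t41817.1, H _ t41817.2.1⟩, ⟨H _ t41817.2.2.1, H _ t41817.2.2.2.1⟩⟩, ⟨⟨H _ t41817.2.2.2.2.1, H _ t41817.2.2.2.2.2.1⟩, ⟨H _ t41817.2.2.2.2.2.2.1, ⟨H _ t41817.2.2.2.2.2.2.2, H _ t41825.1⟩⟩⟩⟩, ⟨⟨⟨H _ t41825.2.1, H _ t41825.2.2.1⟩, ⟨H _ t41825.2.2.2.1, H _ t41825.2.2.2.2.1⟩⟩,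 ⟨⟨H _ t41825.2.2.2.2.2.1, H _ t41825.2.2.2.2.2.2.1⟩, ⟨H _ t41825.2.2.2.2.2.2.2, ⟨H _ t41833.1, H _ t41833.2.1⟩⟩⟩⟩⟩⟩⟩, ⟨⟨⟨⟨⟨⟨H _ t41833.2.2.1, H _ t41833.2.2.2.1⟩, ⟨H _ t41833.2.2.2.2.1, H _ t41833.2.2.2.2.2.1⟩⟩, ⟨⟨H _ t41833.2.2.2.2.2.2.1, H _ t41833.2.2.2.2.2.2.2⟩, ⟨H _ t41841.1, H _ t41841.2.1⟩⟩⟩, ⟨⟨⟨H _ t41841.2.2.1, H _ t41841.2.2.2.1⟩, ⟨H _ t41841.2.2.2.2.1, H _ t41841.2.2.2.2.2.1⟩⟩, ⟨⟨H _ t41841.2.2.2.2.2.2.1, H _ t41841.2.2.2.2.2.2.2⟩, ⟨H _ t41849.1, ⟨H _ t41849.2.1, H _ t41849.2.2.1⟩⟩⟩⟩⟩, ⟨⟨⟨⟨H _ t41849.2.2.2.1, H _ t41849.2.2.2.2.1⟩, ⟨H _ t41849.2.2.2.2.2.1, H _ t41849.2.2.2.2.2.2.1⟩⟩, ⟨⟨H _ t41849.2.2.2.2.2.2.2, H _ t41857.1⟩, ⟨H _ t41857.2.1, H _ t41857.2.2.1⟩⟩⟩, ⟨⟨⟨H _ t41857.2.2.2.1, H _ t41857.2.2.2.2.1⟩, ⟨H _ t41857.2.2.2.2.2.1, H _ t41857.2.2.2.2.2.2.1⟩⟩, ⟨⟨H _ t41857.2.2.2.2.2.2.2, H _ t41865.1⟩, ⟨H _ t41865.2.1, ⟨H _ t41865.2.2.1, H _ t41865.2.2.2.1⟩⟩⟩⟩⟩⟩, ⟨⟨⟨⟨⟨H _ t41865.2.2.2.2.1,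 H _ t41865.2.2.2.2.2.1⟩, ⟨H _ t41865.2.2.2.2.2.2.1, H _ t41865.2.2.2.2.2.2.2⟩⟩, ⟨⟨H _ t41873.1, H _ t41873.2.1⟩, ⟨H _ t41873.2.2.1, H _ t41873.2.2.2.1⟩⟩⟩, ⟨⟨⟨H _ t41873.2.2.2.2.1, H _ t41873.2.2.2.2.2.1⟩, ⟨H _ t41873.2.2.2.2.2.2.1, H _ t41873.2.2.2.2.2.2.2⟩⟩, ⟨⟨H _ t41881.1, H _ t41881.2.1⟩, ⟨H _ t41881.2.2.1, ⟨H _ t41881.2.2.2.1, H _ t41881.2.2.2.2.1⟩⟩⟩⟩⟩, ⟨⟨⟨⟨H _ t41881.2.2.2.2.2.1, H _ t41881.2.2.2.2.2.2.1⟩, ⟨H _ t41881.2.2.2.2.2.2.2, H _ t41889.1⟩⟩, ⟨⟨H _ t41889.2.1, H _ t41889.2.2.1⟩, ⟨H _ t41889.2.2.2.1, ⟨H _ t41889.2.2.2.2.1, H _ t41889.2.2.2.2.2.1⟩⟩⟩⟩, ⟨⟨⟨H _ t41889.2.2.2.2.2.2.1, H _ t41889.2.2.2.2.2.2.2⟩, ⟨H _ t41897.1, H _ t41897.2.1⟩⟩, ⟨⟨H _ t41897.2.2.1, H _ t41897.2.2.2.1⟩, ⟨H _ t41897.2.2.2.2.1, ⟨H _ t41897.2.2.2.2.2.1, H _ t41897.2.2.2.2.2.2.1⟩⟩⟩⟩⟩⟩⟩⟩, ⟨⟨⟨⟨⟨⟨⟨H _ t41897.2.2.2.2.2.2.2, H _ t41905.1⟩, ⟨H _ t41905.2.1, H _ t41905.2.2.1⟩⟩, ⟨⟨H _ t41905.2.2.2.1, H _ t41905.2.2.2.2.1⟩,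 ⟨H _ t41905.2.2.2.2.2.1, H _ t41905.2.2.2.2.2.2.1⟩⟩⟩, ⟨⟨⟨H _ t41905.2.2.2.2.2.2.2, H _ t41913.1⟩, ⟨H _ t41913.2.1, H _ t41913.2.2.1⟩⟩, ⟨⟨H _ t41913.2.2.2.1, H _ t41913.2.2.2.2.1⟩, ⟨H _ t41913.2.2.2.2.2.1, ⟨H _ t41913.2.2.2.2.2.2.1, H _ t41913.2.2.2.2.2.2.2⟩⟩⟩⟩⟩, ⟨⟨⟨⟨H _ t41921.1, H _ t41921.2.1⟩, ⟨H _ t41921.2.2.1, H _ t41921.2.2.2.1⟩⟩, ⟨⟨H _ t41921.2.2.2.2.1, H _ t41921.2.2.2.2.2.1⟩, ⟨H _ t41921.2.2.2.2.2.2.1, H _ t41921.2.2.2.2.2.2.2⟩⟩⟩, ⟨⟨⟨H _ t41929.1, H _ t41929.2.1⟩, ⟨H _ t41929.2.2.1, H _ t41929.2.2.2.1⟩⟩, ⟨⟨H _ t41929.2.2.2.2.1, H _ t41929.2.2.2.2.2.1⟩, ⟨H _ t41929.2.2.2.2.2.2.1, ⟨H _ t41929.2.2.2.2.2.2.2, H _ t41937.1⟩⟩⟩⟩⟩⟩, ⟨⟨⟨⟨⟨H _ t41937.2.1, H _ t41937.2.2.1⟩, ⟨H _ t41937.2.2.2.1, H _ t41937.2.2.2.2.1⟩⟩, ⟨⟨H _ t41937.2.2.2.2.2.1, H _ t41937.2.2.2.2.2.2.1⟩, ⟨H _ t41937.2.2.2.2.2.2.2, H _ t41945.1⟩⟩⟩, ⟨⟨⟨H _ t41945.2.1, H _ t41945.2.2.1⟩, ⟨H _ t41945.2.2.2.1, H _ t41945.2.2.2.2.1⟩⟩,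 ⟨⟨H _ t41945.2.2.2.2.2.1, H _ t41945.2.2.2.2.2.2.1⟩, ⟨H _ t41945.2.2.2.2.2.2.2, ⟨H _ t41953.1, H _ t41953.2.1⟩⟩⟩⟩⟩, ⟨⟨⟨⟨H _ t41953.2.2.1, H _ t41953.2.2.2.1⟩, ⟨H _ t41953.2.2.2.2.1, H _ t41953.2.2.2.2.2.1⟩⟩, ⟨⟨H _ t41953.2.2.2.2.2.2.1, H _ t41953.2.2.2.2.2.2.2⟩, ⟨H _ t41961.1, ⟨H _ t41961.2.1, H _ t41961.2.2.1⟩⟩⟩⟩, ⟨⟨⟨H _ t41961.2.2.2.1, H _ t41961.2.2.2.2.1⟩, ⟨H _ t41961.2.2.2.2.2.1, H _ t41961.2.2.2.2.2.2.1⟩⟩, ⟨⟨H _ t41961.2.2.2.2.2.2.2, H _ t41969.1⟩, ⟨H _ t41969.2.1, ⟨H _ t41969.2.2.1, H _ t41969.2.2.2.1⟩⟩⟩⟩⟩⟩⟩, ⟨⟨⟨⟨⟨⟨H _ t41969.2.2.2.2.1, H _ t41969.2.2.2.2.2.1⟩, ⟨H _ t41969.2.2.2.2.2.2.1, H _ t41969.2.2.2.2.2.2.2⟩⟩, ⟨⟨H _ t41977.1, H _ t41977.2.1⟩, ⟨H _ t41977.2.2.1, H _ t41977.2.2.2.1⟩⟩⟩, ⟨⟨⟨H _ t41977.2.2.2.2.1, H _ t41977.2.2.2.2.2.1⟩, ⟨H _ t41977.2.2.2.2.2.2.1, H _ t41977.2.2.2.2.2.2.2⟩⟩, ⟨⟨H _ t41985.1, H _ t41985.2.1⟩, ⟨H _ t41985.2.2.1, ⟨H _ t41985.2.2.2.1, H _ t41985.2.2.2.2.1⟩⟩⟩⟩⟩,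 ⟨⟨⟨⟨H _ t41985.2.2.2.2.2.1, H _ t41985.2.2.2.2.2.2.1⟩, ⟨H _ t41985.2.2.2.2.2.2.2, H _ t41993.1⟩⟩, ⟨⟨H _ t41993.2.1, H _ t41993.2.2.1⟩, ⟨H _ t41993.2.2.2.1, ⟨H _ t41993.2.2.2.2.1, H _ t41993.2.2.2.2.2.1⟩⟩⟩⟩, ⟨⟨⟨H _ t41993.2.2.2.2.2.2.1, H _ t41993.2.2.2.2.2.2.2⟩, ⟨H _ t42001.1, H _ t42001.2.1⟩⟩, ⟨⟨H _ t42001.2.2.1, H _ t42001.2.2.2.1⟩, ⟨H _ t42001.2.2.2.2.1, ⟨H _ t42001.2.2.2.2.2.1, H _ t42001.2.2.2.2.2.2.1⟩⟩⟩⟩⟩⟩, ⟨⟨⟨⟨⟨H _ t42001.2.2.2.2.2.2.2, H _ t42009.1⟩, ⟨H _ t42009.2.1, H _ t42009.2.2.1⟩⟩, ⟨⟨H _ t42009.2.2.2.1, H _ t42009.2.2.2.2.1⟩, ⟨H _ t42009.2.2.2.2.2.1, H _ t42009.2.2.2.2.2.2.1⟩⟩⟩, ⟨⟨⟨H _ t42009.2.2.2.2.2.2.2, H _ t42017.1⟩, ⟨H _ t42017.2.1, H _ t42017.2.2.1⟩⟩, ⟨⟨H _ t42017.2.2.2.1, H _ t42017.2.2.2.2.1⟩, ⟨H _ t42017.2.2.2.2.2.1, ⟨H _ t42017.2.2.2.2.2.2.1, H _ t42017.2.2.2.2.2.2.2⟩⟩⟩⟩⟩, ⟨⟨⟨⟨H _ t42025.1, H _ t42025.2.1⟩, ⟨H _ t42025.2.2.1, H _ t42025.2.2.2.1⟩⟩, ⟨⟨H _ t42025.2.2.2.2.1,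 H _ t42025.2.2.2.2.2.1⟩, ⟨H _ t42025.2.2.2.2.2.2.1, ⟨H _ t42025.2.2.2.2.2.2.2, H _ t42033.1⟩⟩⟩⟩, ⟨⟨⟨H _ t42033.2.1, H _ t42033.2.2.1⟩, ⟨H _ t42033.2.2.2.1, H _ t42033.2.2.2.2.1⟩⟩, ⟨⟨H _ t42033.2.2.2.2.2.1, H _ t42033.2.2.2.2.2.2.1⟩, ⟨H _ t42033.2.2.2.2.2.2.2, ⟨H _ t42041.1, H _ t42041.2⟩⟩⟩⟩⟩⟩⟩⟩⟩⟩

end Pool.Agent.MP_c853c5_nt.X.C4950
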