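import Pool.Agent.MP_c853c5_nt.X.C4950.Env
import Pool.Agent.MP_c853c5_nt.X.C4950.Tab

set_option autoImplicit false
set_option maxRecDepth 8192
set_option linter.all false

namespace Pool.Agent.MP_c853c5_nt.X.C4950

open Pool.Agent.MP_c853c5_nt.X

def t42043 : allY (E.wth T2) l42043 = true ∧
    allY (E.wth T2) l42044 = true ∧
    allY (E.wth T2) l42045 = true ∧
    allY (E.wth T2) l42046 = true ∧
    allY (E.wth T2) l42047 = true ∧
    allY (E.wth T2) l42048 = true ∧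
    allY (E.wth T2) l42049 = true ∧
    allY (E.wth T2) l42050 = true :=
  ⟨by decide +kernel, by decide +kernel, by decide +kernel, by decide +kernel, by decide +kernel, by decide +kernel, by decide +kernel, by decide +kernel⟩

def t42051 : allY (E.wth T2) l42051 = true ∧
    allY (E.wth T2) l42052 = true ∧
    allY (E.wth T2) l42053 = true ∧
    allY (E.wth T2) l42054 = true ∧
    allY (E.wth T2) l42055 = true ∧
    allY (E.wth T2) l42056 = true ∧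
    allY (E.wth T2) l42057 = true ∧
    allY (E.wth T2) l42058 = true :=
  ⟨by decide +kernel, by decide +kernel, by decide +kernel, by decide +kernel, by decide +kernel, by decide +kernel, by decide +kernel, by decide +kernel⟩

def t42059 : allY (E.wth T2) l42059 = true ∧
    allY (E.wth T2) l42060 = true ∧
    allY (E.wth T2) l42061 = true ∧
    allY (E.wth T2) l42062 = true ∧
    allY (E.wth T2) l42063 = true ∧
    allY (E.wth T2) l42064 = true ∧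
    allY (E.wth T2) l42065 = true ∧
    allY (E.wth T2) l42066 = true :=
  ⟨by decide +kernel, by decide +kernel, by decide +kernel, by decide +kernel, by decide +kernel, by decide +kernel, by decide +kernel, by decide +kernel⟩

def t42067 : allY (E.wth T2) l42067 = true ∧
    allY (E.wth T2) l42068 = true ∧
    allY (E.wth T2) l42069 = true ∧
    allY (E.wth T2) l42070 = true ∧
    allY (E.wth T2) l42071 = true ∧
    allY (E.wth T2) l42072 = true ∧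
    allY (E.wth T2) l42073 = true ∧
    allY (E.wth T2) l42074 = true :=
  ⟨by decide +kernel, by decide +kernel, by decide +kernel, by decide +kernel, by decide +kernel, by decide +kernel, by decide +kernel, by decide +kernel⟩

def t42075 : allY (E.wth T2) l42075 = true ∧
    allY (E.wth T2) l42076 = true ∧
    allY (E.wth T2) l42077 = true ∧
    allY (E.wth T2) l42078 = true ∧
    allY (E.wth T2) l42079 = true ∧
    allY (E.wth T2) l42080 = true ∧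
    allY (E.wth T2) l42081 = true ∧
    allY (E.wth T2) l42082 = true :=
  ⟨by decide +kernel, by decide +kernel, by decide +kernel, by decide +kernel, by decide +kernel, by decide +kernel, by decide +kernel, by decide +kernel⟩

def t42083 : allY (E.wth T2) l42083 = true ∧
    allY (E.wth T2) l42084 = true ∧
    allY (E.wth T2) l42085 = true ∧
    allY (E.wth T2) l42086 = true ∧
    allY (E.wth T2) l42087 = true ∧
    allY (E.wth T2) l42088 = true ∧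
    allY (E.wth T2) l42089 = true ∧
    allY (E.wth T2) l42090 = true :=
  ⟨by decide +kernel, by decide +kernel, by decide +kernel, by decide +kernel, by decide +kernel, by decide +kernel, by decide +kernel, by decide +kernel⟩

def t42091 : allY (E.wth T2) l42091 = true ∧
    allY (E.wth T2) l42092 = true ∧
    allY (E.wth T2) l42093 = true ∧
    allY (E.wth T2) l42094 = true ∧
    allY (E.wth T2) l42095 = true ∧
    allY (E.wth T2) l42096 = true ∧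
    allY (E.wth T2) l42097 = true ∧
    allY (E.wth T2) l42098 = true :=
  ⟨by decide +kernel, by decide +kernel, by decide +kernel, by decide +kernel, by decide +kernel, by decide +kernel, by decide +kernel, by decide +kernel⟩

def t42099 : allY (E.wth T2) l42099 = true ∧
    allY (E.wth T2) l42100 = true ∧
    allY (E.wth T2) l42101 = true ∧
    allY (E.wth T2) l42102 = true ∧
    allY (E.wth T2) l42103 = true ∧
    allY (E.wth T2) l42104 = true ∧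
    allY (E.wth T2) l42105 = true ∧
    allY (E.wth T2) l42106 = true :=
  ⟨by decide +kernel, by decide +kernel, by decide +kernel, by decide +kernel, by decide +kernel, by decide +kernel, by decide +kernel, by decide +kernel⟩

def t42107 : allY (E.wth T2) l42107 = true ∧
    allY (E.wth T2) l42108 = true ∧
    allY (E.wth T2) l42109 = true ∧
    allY (E.wth T2) l42110 = true ∧
    allY (E.wth T2) l42111 = true ∧
    allY (E.wth T2) l42112 = true ∧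
    allY (E.wth T2) l42113 = true ∧
    allY (E.wth T2) l42114 = true :=
  ⟨by decide +kernel, by decide +kernel, by decide +kernel, by decide +kernel, by decide +kernel, by decide +kernel, by decide +kernel, by decide +kernel⟩

def t42115 : allY (E.wth T2) l42115 = true ∧
    allY (E.wth T2) l42116 = true ∧
    allY (E.wth T2) l42117 = true ∧
    allY (E.wth T2) l42118 = true ∧
    allY (E.wth T2) l42119 = true ∧
    allY (E.wth T2) l42120 = true ∧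
    allY (E.wth T2) l42121 = true ∧
    allY (E.wth T2) l42122 = true :=
  ⟨by decide +kernel, by decide +kernel, by decide +kernel, by decide +kernel, by decide +kernel, by decide +kernel, by decide +kernel, by decide +kernel⟩

def t42123 : allY (E.wth T2) l42123 = true ∧
    allY (E.wth T2) l42124 = true ∧
    allY (E.wth T2) l42125 = true ∧
    allY (E.wth T2) l42126 = true ∧
    allY (E.wth T2) l42127 = true ∧
    allY (E.wth T2) l42128 = true ∧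
    allY (E.wth T2) l42129 = true ∧
    allY (E.wth T2) l42130 = true :=
  ⟨by decide +kernel, by decide +kernel, by decide +kernel, by decide +kernel, by decide +kernel, by decide +kernel, by decide +kernel, by decide +kernel⟩

def t42131 : allY (E.wth T2) l42131 = true ∧
    allY (E.wth T2) l42132 = true ∧
    allY (E.wth T2) l42133 = true ∧
    allY (E.wth T2) l42134 = true ∧
    allY (E.wth T2) l42135 = true ∧
    allY (E.wth T2) l42136 = true ∧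
    allY (E.wth T2) l42137 = true ∧
    allY (E.wth T2) l42138 = true :=
  ⟨by decide +kernel, by decide +kernel, by decide +kernel, by decide +kernel, by decide +kernel, by decide +kernel, by decide +kernel, by decide +kernel⟩

def t42139 : allY (E.wth T2) l42139 = true ∧
    allY (E.wth T2) l42140 = true ∧
    allY (E.wth T2) l42141 = true ∧
    allY (E.wth T2) l42142 = true ∧
    allY (E.wth T2) l42143 = true ∧
    allY (E.wth T2) l42144 = true ∧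
    allY (E.wth T2) l42145 = true ∧
    allY (E.wth T2) l42146 = true :=
  ⟨by decide +kernel, by decide +kernel, by decide +kernel, by decide +kernel, by decide +kernel, by decide +kernel, by decide +kernel, by decide +kernel⟩

def t42147 : allY (E.wth T2) l42147 = true ∧
    allY (E.wth T2) l42148 = true ∧
    allY (E.wth T2) l42149 = true ∧
    allY (E.wth T2) l42150 = true ∧
    allY (E.wth T2) l42151 = true ∧
    allY (E.wth T2) l42152 = true ∧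
    allY (E.wth T2) l42153 = true ∧
    allY (E.wth T2) l42154 = true :=
  ⟨by decide +kernel, by decide +kernel, by decide +kernel, by decide +kernel, by decide +kernel, by decide +kernel, by decide +kernel, by decide +kernel⟩

def t42155 : allY (E.wth T2) l42155 = true ∧
    allY (E.wth T2) l42156 = true ∧
    allY (E.wth T2) l42157 = true ∧
    allY (E.wth T2) l42158 = true ∧
    allY (E.wth T2) l42159 = true ∧
    allY (E.wth T2) l42160 = true ∧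
    allY (E.wth T2) l42161 = true ∧
    allY (E.wth T2) l42162 = true :=
  ⟨by decide +kernel, by decide +kernel, by decide +kernel, by decide +kernel, by decide +kernel, by decide +kernel, by decide +kernel, by decide +kernel⟩

def t42163 : allY (E.wth T2) l42163 = true ∧
    allY (E.wth T2) l42164 = true ∧
    allY (E.wth T2) l42165 = true ∧
    allY (E.wth T2) l42166 = true ∧
    allY (E.wth T2) l42167 = true ∧
    allY (E.wth T2) l42168 = true ∧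
    allY (E.wth T2) l42169 = true ∧
    allY (E.wth T2) l42170 = true :=
  ⟨by decide +kernel, by decide +kernel, by decide +kernel, by decide +kernel, by decide +kernel, by decide +kernel, by decide +kernel, by decide +kernel⟩

def t42171 : allY (E.wth T2) l42171 = true ∧
    allY (E.wth T2) l42172 = true ∧
    allY (E.wth T2) l42173 = true ∧
    allY (E.wth T2) l42174 = true ∧
    allY (E.wth T2) l42175 = true ∧
    allY (E.wth T2) l42176 = true ∧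
    allY (E.wth T2) l42177 = true ∧
    allY (E.wth T2) l42178 = true :=
  ⟨by decide +kernel, by decide +kernel, by decide +kernel, by decide +kernel, by decide +kernel, by decide +kernel, by decide +kernel, by decide +kernel⟩

def t42179 : allY (E.wth T2) l42179 = true ∧
    allY (E.wth T2) l42180 = true ∧
    allY (E.wth T2) l42181 = true ∧
    allY (E.wth T2) l42182 = true ∧
    allY (E.wth T2) l42183 = true ∧
    allY (E.wth T2) l42184 = true ∧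
    allY (E.wth T2) l42185 = true ∧
    allY (E.wth T2) l42186 = true :=
  ⟨by decide +kernel, by decide +kernel, by decide +kernel, by decide +kernel, by decide +kernel, by decide +kernel, by decide +kernel, by decide +kernel⟩

def t42187 : allY (E.wth T2) l42187 = true ∧
    allY (E.wth T2) l42188 = true ∧
    allY (E.wth T2) l42189 = true ∧
    allY (E.wth T2) l42190 = true ∧
    allY (E.wth T2) l42191 = true ∧
    allY (E.wth T2) l42192 = true ∧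
    allY (E.wth T2) l42193 = true ∧
    allY (E.wth T2) l42194 = true :=
  ⟨by decide +kernel, by decide +kernel, by decide +kernel, by decide +kernel, by decide +kernel, by decide +kernel, by decide +kernel, by decide +kernel⟩

def t42195 : allY (E.wth T2) l42195 = true ∧
    allY (E.wth T2) l42196 = true ∧
    allY (E.wth T2) l42197 = true ∧
    allY (E.wth T2) l42198 = true ∧
    allY (E.wth T2) l42199 = true ∧
    allY (E.wth T2) l42200 = true ∧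
    allY (E.wth T2) l42201 = true ∧
    allY (E.wth T2) l42202 = true :=
  ⟨by decide +kernel, by decide +kernel, by decide +kernel, by decide +kernel, by decide +kernel, by decide +kernel, by decide +kernel, by decide +kernel⟩

def t42203 : allY (E.wth T2) l42203 = true ∧
    allY (E.wth T2) l42204 = true ∧
    allY (E.wth T2) l42205 = true ∧
    allY (E.wth T2) l42206 = true ∧
    allY (E.wth T2) l42207 = true ∧
    allY (E.wth T2) l42208 = true ∧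
    allY (E.wth T2) l42209 = true ∧
    allY (E.wth T2) l42210 = true :=
  ⟨by decide +kernel, by decide +kernel, by decide +kernel, by decide +kernel, by decide +kernel, by decide +kernel, by decide +kernel, by decide +kernel⟩

def t42211 : allY (E.wth T2) l42211 = true ∧
    allY (E.wth T2) l42212 = true ∧
    allY (E.wth T2) l42213 = true ∧
    allY (E.wth T2) l42214 = true ∧
    allY (E.wth T2) l42215 = true ∧
    allY (E.wth T2) l42216 = true ∧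
    allY (E.wth T2) l42217 = true ∧
    allY (E.wth T2) l42218 = true :=
  ⟨by decide +kernel, by decide +kernel, by decide +kernel, by decide +kernel, by decide +kernel, by decide +kernel, by decide +kernel, by decide +kernel⟩

def t42219 : allY (E.wth T2) l42219 = true ∧
    allY (E.wth T2) l42220 = true ∧
    allY (E.wth T2) l42221 = true ∧
    allY (E.wth T2) l42222 = true ∧
    allY (E.wth T2) l42223 = true ∧
    allY (E.wth T2) l42224 = true ∧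
    allY (E.wth T2) l42225 = true ∧
    allY (E.wth T2) l42226 = true :=
  ⟨by decide +kernel, by decide +kernel, by decide +kernel, by decide +kernel, by decide +kernel, by decide +kernel, by decide +kernel, by decide +kernel⟩

def t42227 : allY (E.wth T2) l42227 = true ∧
    allY (E.wth T2) l42228 = true ∧
    allY (E.wth T2) l42229 = true ∧
    allY (E.wth T2) l42230 = true ∧
    allY (E.wth T2) l42231 = true ∧
    allY (E.wth T2) l42232 = true ∧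
    allY (E.wth T2) l42233 = true ∧
    allY (E.wth T2) l42234 = true :=
  ⟨by decide +kernel, by decide +kernel, by decide +kernel, by decide +kernel, by decide +kernel, by decide +kernel, by decide +kernel, by decide +kernel⟩

def t42235 : allY (E.wth T2) l42235 = true ∧
    allY (E.wth T2) l42236 = true ∧
    allY (E.wth T2) l42237 = true ∧
    allY (E.wth T2) l42238 = true ∧
    allY (E.wth T2) l42239 = true ∧
    allY (E.wth T2) l42240 = true ∧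
    allY (E.wth T2) l42241 = true ∧
    allY (E.wth T2) l42242 = true :=
  ⟨by decide +kernel, by decide +kernel, by decide +kernel, by decide +kernel, by decide +kernel, by decide +kernel, by decide +kernel, by decide +kernel⟩

def t42243 : allY (E.wth T2) l42243 = true ∧
    allY (E.wth T2) l42244 = true ∧
    allY (E.wth T2) l42245 = true ∧
    allY (E.wth T2) l42246 = true ∧
    allY (E.wth T2) l42247 = true ∧
    allY (E.wth T2) l42248 = true ∧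
    allY (E.wth T2) l42249 = true ∧
    allY (E.wth T2) l42250 = true :=
  ⟨by decide +kernel, by decide +kernel, by decide +kernel, by decide +kernel, by decide +kernel, by decide +kernel, by decide +kernel, by decide +kernel⟩

def t42251 : allY (E.wth T2) l42251 = true ∧
    allY (E.wth T2) l42252 = true ∧
    allY (E.wth T2) l42253 = true ∧
    allY (E.wth T2) l42254 = true ∧
    allY (E.wth T2) l42255 = true ∧
    allY (E.wth T2) l42256 = true ∧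
    allY (E.wth T2) l42257 = true ∧
    allY (E.wth T2) l42258 = true :=
  ⟨by decide +kernel, by decide +kernel, by decide +kernel, by decide +kernel, by decide +kernel, by decide +kernel, by decide +kernel, by decide +kernel⟩

def t42259 : allY (E.wth T2) l42259 = true ∧
    allY (E.wth T2) l42260 = true ∧
    allY (E.wth T2) l42261 = true ∧
    allY (E.wth T2) l42262 = true ∧
    allY (E.wth T2) l42263 = true ∧
    allY (E.wth T2) l42264 = true ∧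
    allY (E.wth T2) l42265 = true ∧
    allY (E.wth T2) l42266 = true :=
  ⟨by decide +kernel, by decide +kernel, by decide +kernel, by decide +kernel, by decide +kernel, by decide +kernel, by decide +kernel, by decide +kernel⟩

def t42267 : allY (E.wth T2) l42267 = true ∧
    allY (E.wth T2) l42268 = true ∧
    allY (E.wth T2) l42269 = true ∧
    allY (E.wth T2) l42270 = true ∧
    allY (E.wth T2) l42271 = true ∧
    allY (E.wth T2) l42272 = true ∧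
    allY (E.wth T2) l42273 = true ∧
    allY (E.wth T2) l42274 = true :=
  ⟨by decide +kernel, by decide +kernel, by decide +kernel, by decide +kernel, by decide +kernel, by decide +kernel, by decide +kernel, by decide +kernel⟩

def t42275 : allY (E.wth T2) l42275 = true ∧
    allY (E.wth T2) l42276 = true ∧
    allY (E.wth T2) l42277 = true ∧
    allY (E.wth T2) l42278 = true ∧
    allY (E.wth T2) l42279 = true ∧
    allY (E.wth T2) l42280 = true ∧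
    allY (E.wth T2) l42281 = true ∧
    allY (E.wth T2) l42282 = true :=
  ⟨by decide +kernel, by decide +kernel, by decide +kernel, by decide +kernel, by decide +kernel, by decide +kernel, by decide +kernel, by decide +kernel⟩

def t42283 : allY (E.wth T2) l42283 = true ∧
    allY (E.wth T2) l42284 = true ∧
    allY (E.wth T2) l42285 = true ∧
    allY (E.wth T2) l42286 = true ∧
    allY (E.wth T2) l42287 = true ∧
    allY (E.wth T2) l42288 = true ∧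
    allY (E.wth T2) l42289 = true ∧
    allY (E.wth T2) l42290 = true :=
  ⟨by decide +kernel, by decide +kernel, by decide +kernel, by decide +kernel, by decide +kernel, by decide +kernel, by decide +kernel, by decide +kernel⟩

def t42291 : allY (E.wth T2) l42291 = true ∧
    allY (E.wth T2) l42292 = true ∧
    allY (E.wth T2) l42293 = true ∧
    allY (E.wth T2) l42294 = true ∧
    allY (E.wth T2) l42295 = true ∧
    allY (E.wth T2) l42296 = true ∧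
    allY (E.wth T2) l42297 = true ∧
    allY (E.wth T2) l42298 = true :=
  ⟨by decide +kernel, by decide +kernel, by decide +kernel, by decide +kernel, by decide +kernel, by decide +kernel, by decide +kernel, by decide +kernel⟩

def t42299 : allY (E.wth T2) l42299 = true ∧
    allY (E.wth T2) l42300 = true ∧
    allY (E.wth T2) l42301 = true ∧
    allY (E.wth T2) l42302 = true ∧
    allY (E.wth T2) l42303 = true ∧
    allY (E.wth T2) l42304 = true ∧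
    allY (E.wth T2) l42305 = true ∧
    allY (E.wth T2) l42306 = true :=
  ⟨by decide +kernel, by decide +kernel, by decide +kernel, by decide +kernel, by decide +kernel, by decide +kernel, by decide +kernel, by decide +kernel⟩

def t42307 : allY (E.wth T2) l42307 = true ∧
    allY (E.wth T2) l42308 = true ∧
    allY (E.wth T2) l42309 = true ∧
    allY (E.wth T2) l42310 = true ∧
    allY (E.wth T2) l42311 = true ∧
    allY (E.wth T2) l42312 = true ∧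
    allY (E.wth T2) l42313 = true ∧
    allY (E.wth T2) l42314 = true :=
  ⟨by decide +kernel, by decide +kernel, by decide +kernel, by decide +kernel, by decide +kernel, by decide +kernel, by decide +kernel, by decide +kernel⟩

def t42315 : allY (E.wth T2) l42315 = true ∧
    allY (E.wth T2) l42316 = true ∧
    allY (E.wth T2) l42317 = true ∧
    allY (E.wth T2) l42318 = true ∧
    allY (E.wth T2) l42319 = true ∧
    allY (E.wth T2) l42320 = true ∧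
    allY (E.wth T2) l42321 = true ∧
    allY (E.wth T2) l42322 = true :=
  ⟨by decide +kernel, by decide +kernel, by decide +kernel, by decide +kernel, by decide +kernel, by decide +kernel, by decide +kernel, by decide +kernel⟩

def t42323 : allY (E.wth T2) l42323 = true ∧
    allY (E.wth T2) l42324 = true ∧
    allY (E.wth T2) l42325 = true ∧
    allY (E.wth T2) l42326 = true ∧
    allY (E.wth T2) l42327 = true ∧
    allY (E.wth T2) l42328 = true ∧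
    allY (E.wth T2) l42329 = true ∧
    allY (E.wth T2) l42330 = true :=
  ⟨by decide +kernel, by decide +kernel, by decide +kernel, by decide +kernel, by decide +kernel, by decide +kernel, by decide +kernel, by decide +kernel⟩

def t42331 : allY (E.wth T2) l42331 = true ∧
    allY (E.wth T2) l42332 = true ∧
    allY (E.wth T2) l42333 = true ∧
    allY (E.wth T2) l42334 = true ∧
    allY (E.wth T2) l42335 = true ∧
    allY (E.wth T2) l42336 = true ∧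
    allY (E.wth T2) l42337 = true ∧
    allY (E.wth T2) l42338 = true :=
  ⟨by decide +kernel, by decide +kernel, by decide +kernel, by decide +kernel, by decide +kernel, by decide +kernel, by decide +kernel, by decide +kernel⟩

def t42339 : allY (E.wth T2) l42339 = true ∧
    allY (E.wth T2) l42340 = true ∧
    allY (E.wth T2) l42341 = true ∧
    allY (E.wth T2) l42342 = true ∧
    allY (E.wth T2) l42343 = true ∧
    allY (E.wth T2) l42344 = true ∧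
    allY (E.wth T2) l42345 = true ∧
    allY (E.wth T2) l42346 = true :=
  ⟨by decide +kernel, by decide +kernel, by decide +kernel, by decide +kernel, by decide +kernel, by decide +kernel, by decide +kernel, by decide +kernel⟩

def t42347 : allY (E.wth T2) l42347 = true ∧
    allY (E.wth T2) l42348 = true ∧
    allY (E.wth T2) l42349 = true ∧
    allY (E.wth T2) l42350 = true ∧
    allY (E.wth T2) l42351 = true ∧
    allY (E.wth T2) l42352 = true ∧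
    allY (E.wth T2) l42353 = true ∧
    allY (E.wth T2) l42354 = true :=
  ⟨by decide +kernel, by decide +kernel, by decide +kernel, by decide +kernel, by decide +kernel, by decide +kernel, by decide +kernel, by decide +kernel⟩

def t42355 : allY (E.wth T2) l42355 = true ∧
    allY (E.wth T2) l42356 = true ∧
    allY (E.wth T2) l42357 = true ∧
    allY (E.wth T2) l42358 = true ∧
    allY (E.wth T2) l42359 = true ∧
    allY (E.wth T2) l42360 = true ∧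
    allY (E.wth T2) l42361 = true ∧
    allY (E.wth T2) l42362 = true :=
  ⟨by decide +kernel, by decide +kernel, by decide +kernel, by decide +kernel, by decide +kernel, by decide +kernel, by decide +kernel, by decide +kernel⟩

def t42363 : allY (E.wth T2) l42363 = true ∧
    allY (E.wth T2) l42364 = true ∧
    allY (E.wth T2) l42365 = true ∧
    allY (E.wth T2) l42366 = true ∧
    allY (E.wth T2) l42367 = true ∧
    allY (E.wth T2) l42368 = true ∧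
    allY (E.wth T2) l42369 = true ∧
    allY (E.wth T2) l42370 = true :=
  ⟨by decide +kernel, by decide +kernel, by decide +kernel, by decide +kernel, by decide +kernel, by decide +kernel, by decide +kernel, by decide +kernel⟩

def t42371 : allY (E.wth T2) l42371 = true ∧
    allY (E.wth T2) l42372 = true ∧
    allY (E.wth T2) l42373 = true ∧
    allY (E.wth T2) l42374 = true ∧
    allY (E.wth T2) l42375 = true ∧
    allY (E.wth T2) l42376 = true ∧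
    allY (E.wth T2) l42377 = true ∧
    allY (E.wth T2) l42378 = true :=
  ⟨by decide +kernel, by decide +kernel, by decide +kernel, by decide +kernel, by decide +kernel, by decide +kernel, by decide +kernel, by decide +kernel⟩

def t42379 : allY (E.wth T2) l42379 = true ∧
    allY (E.wth T2) l42380 = true ∧
    allY (E.wth T2) l42381 = true ∧
    allY (E.wth T2) l42382 = true ∧
    allY (E.wth T2) l42383 = true ∧
    allY (E.wth T2) l42384 = true ∧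
    allY (E.wth T2) l42385 = true ∧
    allY (E.wth T2) l42386 = true :=
  ⟨by decide +kernel, by decide +kernel, by decide +kernel, by decide +kernel, by decide +kernel, by decide +kernel, by decide +kernel, by decide +kernel⟩

def t42387 : allY (E.wth T2) l42387 = true ∧
    allY (E.wth T2) l42388 = true ∧
    allY (E.wth T2) l42389 = true ∧
    allY (E.wth T2) l42390 = true ∧
    allY (E.wth T2) l42391 = true ∧
    allY (E.wth T2) l42392 = true ∧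
    allY (E.wth T2) l42393 = true ∧
    allY (E.wth T2) l42394 = true :=
  ⟨by decide +kernel, by decide +kernel, by decide +kernel, by decide +kernel, by decide +kernel, by decide +kernel, by decide +kernel, by decide +kernel⟩

def t42395 : allY (E.wth T2) l42395 = true ∧
    allY (E.wth T2) l42396 = true ∧
    allY (E.wth T2) l42397 = true ∧
    allY (E.wth T2) l42398 = true ∧
    allY (E.wth T2) l42399 = true ∧
    allY (E.wth T2) l42400 = true ∧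
    allY (E.wth T2) l42401 = true ∧
    allY (E.wth T2) l42402 = true :=
  ⟨by decide +kernel, by decide +kernel, by decide +kernel, by decide +kernel, by decide +kernel, by decide +kernel, by decide +kernel, by decide +kernel⟩

def t42403 : allY (E.wth T2) l42403 = true ∧
    allY (E.wth T2) l42404 = true ∧
    allY (E.wth T2) l42405 = true ∧
    allY (E.wth T2) l42406 = true ∧
    allY (E.wth T2) l42407 = true ∧
    allY (E.wth T2) l42408 = true ∧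
    allY (E.wth T2) l42409 = true ∧
    allY (E.wth T2) l42410 = true :=
  ⟨by decide +kernel, by decide +kernel, by decide +kernel, by decide +kernel, by decide +kernel, by decide +kernel, by decide +kernel, by decide +kernel⟩

def t42411 : allY (E.wth T2) l42411 = true ∧
    allY (E.wth T2) l42412 = true ∧
    allY (E.wth T2) l42413 = true ∧
    allY (E.wth T2) l42414 = true ∧
    allY (E.wth T2) l42415 = true ∧
    allY (E.wth T2) l42416 = true ∧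
    allY (E.wth T2) l42417 = true ∧
    allY (E.wth T2) l42418 = true :=
  ⟨by decide +kernel, by decide +kernel, by decide +kernel, by decide +kernel, by decide +kernel, by decide +kernel, by decide +kernel, by decide +kernel⟩

def t42419 : allY (E.wth T2) l42419 = true ∧
    allY (E.wth T2) l42420 = true ∧
    allY (E.wth T2) l42421 = true ∧
    allY (E.wth T2) l42422 = true ∧
    allY (E.wth T2) l42423 = true ∧
    allY (E.wth T2) l42424 = true ∧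
    allY (E.wth T2) l42425 = true ∧
    allY (E.wth T2) l42426 = true :=
  ⟨by decide +kernel, by decide +kernel, by decide +kernel, by decide +kernel, by decide +kernel, by decide +kernel, by decide +kernel, by decide +kernel⟩

def t42427 : allY (E.wth T2) l42427 = true ∧
    allY (E.wth T2) l42428 = true ∧
    allY (E.wth T2) l42429 = true ∧
    allY (E.wth T2) l42430 = true ∧
    allY (E.wth T2) l42431 = true ∧
    allY (E.wth T2) l42432 = true ∧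
    allY (E.wth T2) l42433 = true ∧
    allY (E.wth T2) l42434 = true :=
  ⟨by decide +kernel, by decide +kernel, by decide +kernel, by decide +kernel, by decide +kernel, by decide +kernel, by decide +kernel, by decide +kernel⟩

def t42435 : allY (E.wth T2) l42435 = true ∧
    allY (E.wth T2) l42436 = true ∧
    allY (E.wth T2) l42437 = true ∧
    allY (E.wth T2) l42438 = true ∧
    allY (E.wth T2) l42439 = true ∧
    allY (E.wth T2) l42440 = true ∧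
    allY (E.wth T2) l42441 = true ∧
    allY (E.wth T2) l42442 = true :=
  ⟨by decide +kernel, by decide +kernel, by decide +kernel, by decide +kernel, by decide +kernel, by decide +kernel, by decide +kernel, by decide +kernel⟩

def t42443 : allY (E.wth T2) l42443 = true ∧
    allY (E.wth T2) l42444 = true ∧
    allY (E.wth T2) l42445 = true ∧
    allY (E.wth T2) l42446 = true ∧
    allY (E.wth T2) l42447 = true ∧
    allY (E.wth T2) l42448 = true ∧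
    allY (E.wth T2) l42449 = true ∧
    allY (E.wth T2) l42450 = true :=
  ⟨by decide +kernel, by decide +kernel, by decide +kernel, by decide +kernel, by decide +kernel, by decide +kernel, by decide +kernel, by decide +kernel⟩

def t42451 : allY (E.wth T2) l42451 = true ∧
    allY (E.wth T2) l42452 = true ∧
    allY (E.wth T2) l42453 = true ∧
    allY (E.wth T2) l42454 = true ∧
    allY (E.wth T2) l42455 = true ∧
    allY (E.wth T2) l42456 = true ∧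
    allY (E.wth T2) l42457 = true ∧
    allY (E.wth T2) l42458 = true :=
  ⟨by decide +kernel, by decide +kernel, by decide +kernel, by decide +kernel, by decide +kernel, by decide +kernel, by decide +kernel, by decide +kernel⟩

def t42459 : allY (E.wth T2) l42459 = true ∧
    allY (E.wth T2) l42460 = true ∧
    allY (E.wth T2) l42461 = true ∧
    allY (E.wth T2) l42462 = true ∧
    allY (E.wth T2) l42463 = true ∧
    allY (E.wth T2) l42464 = true ∧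
    allY (E.wth T2) l42465 = true ∧
    allY (E.wth T2) l42466 = true :=
  ⟨by decide +kernel, by decide +kernel, by decide +kernel, by decide +kernel, by decide +kernel, by decide +kernel, by decide +kernel, by decide +kernel⟩

def t42467 : allY (E.wth T2) l42467 = true ∧
    allY (E.wth T2) l42468 = true ∧
    allY (E.wth T2) l42469 = true ∧
    allY (E.wth T2) l42470 = true ∧
    allY (E.wth T2) l42471 = true ∧
    allY (E.wth T2) l42472 = true ∧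
    allY (E.wth T2) l42473 = true ∧
    allY (E.wth T2) l42474 = true :=
  ⟨by decide +kernel, by decide +kernel, by decide +kernel, by decide +kernel, by decide +kernel, by decide +kernel, by decide +kernel, by decide +kernel⟩

def t42475 : allY (E.wth T2) l42475 = true ∧
    allY (E.wth T2) l42476 = true ∧
    allY (E.wth T2) l42477 = true ∧
    allY (E.wth T2) l42478 = true ∧
    allY (E.wth T2) l42479 = true ∧
    allY (E.wth T2) l42480 = true ∧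
    allY (E.wth T2) l42481 = true ∧
    allY (E.wth T2) l42482 = true :=
  ⟨by decide +kernel, by decide +kernel, by decide +kernel, by decide +kernel, by decide +kernel, by decide +kernel, by decide +kernel, by decide +kernel⟩

def t42483 : allY (E.wth T2) l42483 = true ∧
    allY (E.wth T2) l42484 = true ∧
    allY (E.wth T2) l42485 = true ∧
    allY (E.wth T2) l42486 = true ∧
    allY (E.wth T2) l42487 = true ∧
    allY (E.wth T2) l42488 = true ∧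
    allY (E.wth T2) l42489 = true ∧
    allY (E.wth T2) l42490 = true :=
  ⟨by decide +kernel, by decide +kernel, by decide +kernel, by decide +kernel, by decide +kernel, by decide +kernel, by decide +kernel, by decide +kernel⟩

def t42491 : allY (E.wth T2) l42491 = true ∧
    allY (E.wth T2) l42492 = true ∧
    allY (E.wth T2) l42493 = true ∧
    allY (E.wth T2) l42494 = true ∧
    allY (E.wth T2) l42495 = true ∧
    allY (E.wth T2) l42496 = true ∧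
    allY (E.wth T2) l42497 = true ∧
    allY (E.wth T2) l42498 = true :=
  ⟨by decide +kernel, by decide +kernel, by decide +kernel, by decide +kernel, by decide +kernel, by decide +kernel, by decide +kernel, by decide +kernel⟩

def t42499 : allY (E.wth T2) l42499 = true ∧
    allY (E.wth T2) l42500 = true ∧
    allY (E.wth T2) l42501 = true ∧
    allY (E.wth T2) l42502 = true ∧
    allY (E.wth T2) l42503 = true ∧
    allY (E.wth T2) l42504 = true ∧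
    allY (E.wth T2) l42505 = true ∧
    allY (E.wth T2) l42506 = true :=
  ⟨by decide +kernel, by decide +kernel, by decide +kernel, by decide +kernel, by decide +kernel, by decide +kernel, by decide +kernel, by decide +kernel⟩

def t42507 : allY (E.wth T2) l42507 = true ∧
    allY (E.wth T2) l42508 = true ∧
    allY (E.wth T2) l42509 = true ∧
    allY (E.wth T2) l42510 = true ∧
    allY (E.wth T2) l42511 = true ∧
    allY (E.wth T2) l42512 = true ∧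
    allY (E.wth T2) l42513 = true ∧
    allY (E.wth T2) l42514 = true :=
  ⟨by decide +kernel, by decide +kernel, by decide +kernel, by decide +kernel, by decide +kernel, by decide +kernel, by decide +kernel, by decide +kernel⟩

def t42515 : allY (E.wth T2) l42515 = true ∧
    allY (E.wth T2) l42516 = true ∧
    allY (E.wth T2) l42517 = true ∧
    allY (E.wth T2) l42518 = true ∧
    allY (E.wth T2) l42519 = true ∧
    allY (E.wth T2) l42520 = true ∧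
    allY (E.wth T2) l42521 = true ∧
    allY (E.wth T2) l42522 = true :=
  ⟨by decide +kernel, by decide +kernel, by decide +kernel, by decide +kernel, by decide +kernel, by decide +kernel, by decide +kernel, by decide +kernel⟩

def t42523 : allY (E.wth T2) l42523 = true ∧
    allY (E.wth T2) l42524 = true ∧
    allY (E.wth T2) l42525 = true ∧
    allY (E.wth T2) l42526 = true ∧
    allY (E.wth T2) l42527 = true ∧
    allY (E.wth T2) l42528 = true ∧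
    allY (E.wth T2) l42529 = true ∧
    allY (E.wth T2) l42530 = true :=
  ⟨by decide +kernel, by decide +kernel, by decide +kernel, by decide +kernel, by decide +kernel, by decide +kernel, by decide +kernel, by decide +kernel⟩

def t42531 : allY (E.wth T2) l42531 = true ∧
    allY (E.wth T2) l42532 = true ∧
    allY (E.wth T2) l42533 = true ∧
    allY (E.wth T2) l42534 = true ∧
    allY (E.wth T2) l42535 = true ∧
    allY (E.wth T2) l42536 = true ∧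
    allY (E.wth T2) l42537 = true ∧
    allY (E.wth T2) l42538 = true :=
  ⟨by decide +kernel, by decide +kernel, by decide +kernel, by decide +kernel, by decide +kernel, by decide +kernel, by decide +kernel, by decide +kernel⟩

def t42539 : allY (E.wth T2) l42539 = true ∧
    allY (E.wth T2) l42540 = true ∧
    allY (E.wth T2) l42541 = true ∧
    allY (E.wth T2) l42542 = true ∧
    allY (E.wth T2) l42543 = true ∧
    allY (E.wth T2) l42544 = true ∧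
    allY (E.wth T2) l42545 = true ∧
    allY (E.wth T2) l42546 = true :=
  ⟨by decide +kernel, by decide +kernel, by decide +kernel, by decide +kernel, by decide +kernel, by decide +kernel, by decide +kernel, by decide +kernel⟩

def t42547 : allY (E.wth T2) l42547 = true ∧
    allY (E.wth T2) l42548 = true ∧
    allY (E.wth T2) l42549 = true ∧
    allY (E.wth T2) l42550 = true ∧
    allY (E.wth T2) l42551 = true ∧
    allY (E.wth T2) l42552 = true ∧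
    allY (E.wth T2) l42553 = true ∧
    allY (E.wth T2) l42554 = true :=
  ⟨by decide +kernel, by decide +kernel, by decide +kernel, by decide +kernel, by decide +kernel, by decide +kernel, by decide +kernel, by decide +kernel⟩

def t42555 : allY (E.wth T2) l42555 = true ∧
    allY (E.wth T2) l42556 = true ∧
    allY (E.wth T2) l42557 = true ∧
    allY (E.wth T2) l42558 = true ∧
    allY (E.wth T2) l42559 = true ∧
    allY (E.wth T2) l42560 = true ∧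
    allY (E.wth T2) l42561 = true ∧
    allY (E.wth T2) l42562 = true :=
  ⟨by decide +kernel, by decide +kernel, by decide +kernel, by decide +kernel, by decide +kernel, by decide +kernel, by decide +kernel, by decide +kernel⟩

def t42563 : allY (E.wth T2) l42563 = true ∧
    allY (E.wth T2) l42564 = true ∧
    allY (E.wth T2) l42565 = true ∧
    allY (E.wth T2) l42566 = true ∧
    allY (E.wth T2) l42567 = true ∧
    allY (E.wth T2) l42568 = true ∧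
    allY (E.wth T2) l42569 = true ∧
    allY (E.wth T2) l42570 = true :=
  ⟨by decide +kernel, by decide +kernel, by decide +kernel, by decide +kernel, by decide +kernel, by decide +kernel, by decide +kernel, by decide +kernel⟩

def t42571 : allY (E.wth T2) l42571 = true ∧
    allY (E.wth T2) l42572 = true ∧
    allY (E.wth T2) l42573 = true ∧
    allY (E.wth T2) l42574 = true ∧
    allY (E.wth T2) l42575 = true ∧
    allY (E.wth T2) l42576 = true ∧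
    allY (E.wth T2) l42577 = true ∧
    allY (E.wth T2) l42578 = true :=
  ⟨by decide +kernel, by decide +kernel, by decide +kernel, by decide +kernel, by decide +kernel, by decide +kernel, by decide +kernel, by decide +kernel⟩

def t42579 : allY (E.wth T2) l42579 = true ∧
    allY (E.wth T2) l42580 = true ∧
    allY (E.wth T2) l42581 = true ∧
    allY (E.wth T2) l42582 = true ∧
    allY (E.wth T2) l42583 = true ∧
    allY (E.wth T2) l42584 = true ∧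
    allY (E.wth T2) l42585 = true ∧
    allY (E.wth T2) l42586 = true :=
  ⟨by decide +kernel, by decide +kernel, by decide +kernel, by decide +kernel, by decide +kernel, by decide +kernel, by decide +kernel, by decide +kernel⟩

def t42587 : allY (E.wth T2) l42587 = true ∧
    allY (E.wth T2) l42588 = true ∧
    allY (E.wth T2) l42589 = true ∧
    allY (E.wth T2) l42590 = true ∧
    allY (E.wth T2) l42591 = true ∧
    allY (E.wth T2) l42592 = true ∧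
    allY (E.wth T2) l42593 = true ∧
    allY (E.wth T2) l42594 = true :=
  ⟨by decide +kernel, by decide +kernel, by decide +kernel, by decide +kernel, by decide +kernel, by decide +kernel, by decide +kernel, by decide +kernel⟩

def t42595 : allY (E.wth T2) l42595 = true ∧
    allY (E.wth T2) l42596 = true ∧
    allY (E.wth T2) l42597 = true ∧
    allY (E.wth T2) l42598 = true ∧
    allY (E.wth T2) l42599 = true ∧
    allY (E.wth T2) l42600 = true ∧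
    allY (E.wth T2) l42601 = true ∧
    allY (E.wth T2) l42602 = true :=
  ⟨by decide +kernel, by decide +kernel, by decide +kernel, by decide +kernel, by decide +kernel, by decide +kernel, by decide +kernel, by decide +kernel⟩

def t42603 : allY (E.wth T2) l42603 = true ∧
    allY (E.wth T2) l42604 = true ∧
    allY (E.wth T2) l42605 = true ∧
    allY (E.wth T2) l42606 = true ∧
    allY (E.wth T2) l42607 = true ∧
    allY (E.wth T2) l42608 = true ∧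
    allY (E.wth T2) l42609 = true ∧
    allY (E.wth T2) l42610 = true :=
  ⟨by decide +kernel, by decide +kernel, by decide +kernel, by decide +kernel, by decide +kernel, by decide +kernel, by decide +kernel, by decide +kernel⟩

def t42611 : allY (E.wth T2) l42611 = true ∧
    allY (E.wth T2) l42612 = true ∧
    allY (E.wth T2) l42613 = true ∧
    allY (E.wth T2) l42614 = true ∧
    allY (E.wth T2) l42615 = true :=
  ⟨by decide +kernel, by decide +kernel, by decide +kernel, by decide +kernel, by decide +kernel⟩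

theorem a77 {p : Rf → Prop} (H : ∀ l, allY (E.wth T2) l = true → (lkp l).All p) :
    b77.All p := ⟨⟨⟨⟨⟨⟨⟨⟨⟨H _ t42043.1, H _ t42043.2.1⟩, ⟨H _ t42043.2.2.1, H _ t42043.2.2.2.1⟩⟩, ⟨⟨H _ t42043.2.2.2.2.1, H _ t42043.2.2.2.2.2.1⟩, ⟨H _ t42043.2.2.2.2.2.2.1, H _ t42043.2.2.2.2.2.2.2⟩⟩⟩, ⟨⟨⟨H _ t42051.1, H _ t42051.2.1⟩, ⟨H _ t42051.2.2.1, H _ t42051.2.2.2.1⟩⟩, ⟨⟨H _ t42051.2.2.2.2.1, H _ t42051.2.2.2.2.2.1⟩, ⟨H _ t42051.2.2.2.2.2.2.1, ⟨H _ t42051.2.2.2.2.2.2.2, H _ t42059.1⟩⟩⟩⟩⟩, ⟨⟨⟨⟨H _ t42059.2.1, H _ t42059.2.2.1⟩, ⟨H _ t42059.2.2.2.1, H _ t42059.2.2.2.2.1⟩⟩, ⟨⟨H _ t42059.2.2.2.2.2.1, H _ t42059.2.2.2.2.2.2.1⟩, ⟨H _ t42059.2.2.2.2.2.2.2, ⟨H _ t42067.1, H _ t42067.2.1⟩⟩⟩⟩, ⟨⟨⟨H _ t42067.2.2.1, H _ t42067.2.2.2.1⟩, ⟨H _ t42067.2.2.2.2.1, H _ t42067.2.2.2.2.2.1⟩⟩, ⟨⟨H _ t42067.2.2.2.2.2.2.1, H _ t42067.2.2.2.2.2.2.2⟩, ⟨H _ t42075.1, ⟨H _ t42075.2.1, H _ t42075.2.2.1⟩⟩⟩⟩⟩⟩, ⟨⟨⟨⟨⟨H _ t42075.2.2.2.1,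 H _ t42075.2.2.2.2.1⟩, ⟨H _ t42075.2.2.2.2.2.1, H _ t42075.2.2.2.2.2.2.1⟩⟩, ⟨⟨H _ t42075.2.2.2.2.2.2.2, H _ t42083.1⟩, ⟨H _ t42083.2.1, ⟨H _ t42083.2.2.1, H _ t42083.2.2.2.1⟩⟩⟩⟩, ⟨⟨⟨H _ t42083.2.2.2.2.1, H _ t42083.2.2.2.2.2.1⟩, ⟨H _ t42083.2.2.2.2.2.2.1, H _ t42083.2.2.2.2.2.2.2⟩⟩, ⟨⟨H _ t42091.1, H _ t42091.2.1⟩, ⟨H _ t42091.2.2.1, ⟨H _ t42091.2.2.2.1, H _ t42091.2.2.2.2.1⟩⟩⟩⟩⟩, ⟨⟨⟨⟨H _ t42091.2.2.2.2.2.1, H _ t42091.2.2.2.2.2.2.1⟩, ⟨H _ t42091.2.2.2.2.2.2.2, H _ t42099.1⟩⟩, ⟨⟨H _ t42099.2.1, H _ t42099.2.2.1⟩, ⟨H _ t42099.2.2.2.1, ⟨H _ t42099.2.2.2.2.1, H _ t42099.2.2.2.2.2.1⟩⟩⟩⟩, ⟨⟨⟨H _ t42099.2.2.2.2.2.2.1, H _ t42099.2.2.2.2.2.2.2⟩, ⟨H _ t42107.1, H _ t42107.2.1⟩⟩, ⟨⟨H _ t42107.2.2.1, H _ t42107.2.2.2.1⟩, ⟨H _ t42107.2.2.2.2.1, ⟨H _ t42107.2.2.2.2.2.1, H _ t42107.2.2.2.2.2.2.1⟩⟩⟩⟩⟩⟩⟩, ⟨⟨⟨⟨⟨⟨H _ t42107.2.2.2.2.2.2.2, H _ t42115.1⟩, ⟨H _ t42115.2.1, H _ t42115.2.2.1⟩⟩, ⟨⟨H _ t42115.2.2.2.1,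 H _ t42115.2.2.2.2.1⟩, ⟨H _ t42115.2.2.2.2.2.1, ⟨H _ t42115.2.2.2.2.2.2.1, H _ t42115.2.2.2.2.2.2.2⟩⟩⟩⟩, ⟨⟨⟨H _ t42123.1, H _ t42123.2.1⟩, ⟨H _ t42123.2.2.1, H _ t42123.2.2.2.1⟩⟩, ⟨⟨H _ t42123.2.2.2.2.1, H _ t42123.2.2.2.2.2.1⟩, ⟨H _ t42123.2.2.2.2.2.2.1, ⟨H _ t42123.2.2.2.2.2.2.2, H _ t42131.1⟩⟩⟩⟩⟩, ⟨⟨⟨⟨H _ t42131.2.1, H _ t42131.2.2.1⟩, ⟨H _ t42131.2.2.2.1, H _ t42131.2.2.2.2.1⟩⟩, ⟨⟨H _ t42131.2.2.2.2.2.1, H _ t42131.2.2.2.2.2.2.1⟩, ⟨H _ t42131.2.2.2.2.2.2.2, ⟨H _ t42139.1, H _ t42139.2.1⟩⟩⟩⟩, ⟨⟨⟨H _ t42139.2.2.1, H _ t42139.2.2.2.1⟩, ⟨H _ t42139.2.2.2.2.1, H _ t42139.2.2.2.2.2.1⟩⟩, ⟨⟨H _ t42139.2.2.2.2.2.2.1, H _ t42139.2.2.2.2.2.2.2⟩, ⟨H _ t42147.1, ⟨H _ t42147.2.1, H _ t42147.2.2.1⟩⟩⟩⟩⟩⟩, ⟨⟨⟨⟨⟨H _ t42147.2.2.2.1, H _ t42147.2.2.2.2.1⟩, ⟨H _ t42147.2.2.2.2.2.1, H _ t42147.2.2.2.2.2.2.1⟩⟩, ⟨⟨H _ t42147.2.2.2.2.2.2.2, H _ t42155.1⟩, ⟨H _ t42155.2.1, ⟨H _ t42155.2.2.1, H _ t42155.2.2.2.1⟩⟩⟩⟩,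 ⟨⟨⟨H _ t42155.2.2.2.2.1, H _ t42155.2.2.2.2.2.1⟩, ⟨H _ t42155.2.2.2.2.2.2.1, H _ t42155.2.2.2.2.2.2.2⟩⟩, ⟨⟨H _ t42163.1, H _ t42163.2.1⟩, ⟨H _ t42163.2.2.1, ⟨H _ t42163.2.2.2.1, H _ t42163.2.2.2.2.1⟩⟩⟩⟩⟩, ⟨⟨⟨⟨H _ t42163.2.2.2.2.2.1, H _ t42163.2.2.2.2.2.2.1⟩, ⟨H _ t42163.2.2.2.2.2.2.2, H _ t42171.1⟩⟩, ⟨⟨H _ t42171.2.1, H _ t42171.2.2.1⟩, ⟨H _ t42171.2.2.2.1, ⟨H _ t42171.2.2.2.2.1, H _ t42171.2.2.2.2.2.1⟩⟩⟩⟩, ⟨⟨⟨H _ t42171.2.2.2.2.2.2.1, H _ t42171.2.2.2.2.2.2.2⟩, ⟨H _ t42179.1, H _ t42179.2.1⟩⟩, ⟨⟨H _ t42179.2.2.1, H _ t42179.2.2.2.1⟩, ⟨H _ t42179.2.2.2.2.1, ⟨H _ t42179.2.2.2.2.2.1, H _ t42179.2.2.2.2.2.2.1⟩⟩⟩⟩⟩⟩⟩⟩, ⟨⟨⟨⟨⟨⟨⟨H _ t42179.2.2.2.2.2.2.2, H _ t42187.1⟩, ⟨H _ t42187.2.1, H _ t42187.2.2.1⟩⟩, ⟨⟨H _ t42187.2.2.2.1, H _ t42187.2.2.2.2.1⟩, ⟨H _ t42187.2.2.2.2.2.1, H _ t42187.2.2.2.2.2.2.1⟩⟩⟩, ⟨⟨⟨H _ t42187.2.2.2.2.2.2.2, H _ t42195.1⟩, ⟨H _ t42195.2.1, H _ t42195.2.2.1⟩⟩, ⟨⟨H _ t42195.2.2.2.1,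 H _ t42195.2.2.2.2.1⟩, ⟨H _ t42195.2.2.2.2.2.1, ⟨H _ t42195.2.2.2.2.2.2.1, H _ t42195.2.2.2.2.2.2.2⟩⟩⟩⟩⟩, ⟨⟨⟨⟨H _ t42203.1, H _ t42203.2.1⟩, ⟨H _ t42203.2.2.1, H _ t42203.2.2.2.1⟩⟩, ⟨⟨H _ t42203.2.2.2.2.1, H _ t42203.2.2.2.2.2.1⟩, ⟨H _ t42203.2.2.2.2.2.2.1, ⟨H _ t42203.2.2.2.2.2.2.2, H _ t42211.1⟩⟩⟩⟩, ⟨⟨⟨H _ t42211.2.1, H _ t42211.2.2.1⟩, ⟨H _ t42211.2.2.2.1, H _ t42211.2.2.2.2.1⟩⟩, ⟨⟨H _ t42211.2.2.2.2.2.1, H _ t42211.2.2.2.2.2.2.1⟩, ⟨H _ t42211.2.2.2.2.2.2.2, ⟨H _ t42219.1, H _ t42219.2.1⟩⟩⟩⟩⟩⟩, ⟨⟨⟨⟨⟨H _ t42219.2.2.1, H _ t42219.2.2.2.1⟩, ⟨H _ t42219.2.2.2.2.1, H _ t42219.2.2.2.2.2.1⟩⟩, ⟨⟨H _ t42219.2.2.2.2.2.2.1, H _ t42219.2.2.2.2.2.2.2⟩, ⟨H _ t42227.1, ⟨H _ t42227.2.1, H _ t42227.2.2.1⟩⟩⟩⟩, ⟨⟨⟨H _ t42227.2.2.2.1, H _ t42227.2.2.2.2.1⟩, ⟨H _ t42227.2.2.2.2.2.1, H _ t42227.2.2.2.2.2.2.1⟩⟩, ⟨⟨H _ t42227.2.2.2.2.2.2.2, H _ t42235.1⟩, ⟨H _ t42235.2.1, ⟨H _ t42235.2.2.1, H _ t42235.2.2.2.1⟩⟩⟩⟩⟩,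 ⟨⟨⟨⟨H _ t42235.2.2.2.2.1, H _ t42235.2.2.2.2.2.1⟩, ⟨H _ t42235.2.2.2.2.2.2.1, H _ t42235.2.2.2.2.2.2.2⟩⟩, ⟨⟨H _ t42243.1, H _ t42243.2.1⟩, ⟨H _ t42243.2.2.1, ⟨H _ t42243.2.2.2.1, H _ t42243.2.2.2.2.1⟩⟩⟩⟩, ⟨⟨⟨H _ t42243.2.2.2.2.2.1, H _ t42243.2.2.2.2.2.2.1⟩, ⟨H _ t42243.2.2.2.2.2.2.2, H _ t42251.1⟩⟩, ⟨⟨H _ t42251.2.1, H _ t42251.2.2.1⟩, ⟨H _ t42251.2.2.2.1, ⟨H _ t42251.2.2.2.2.1, H _ t42251.2.2.2.2.2.1⟩⟩⟩⟩⟩⟩⟩, ⟨⟨⟨⟨⟨⟨H _ t42251.2.2.2.2.2.2.1, H _ t42251.2.2.2.2.2.2.2⟩, ⟨H _ t42259.1, H _ t42259.2.1⟩⟩, ⟨⟨H _ t42259.2.2.1, H _ t42259.2.2.2.1⟩, ⟨H _ t42259.2.2.2.2.1, ⟨H _ t42259.2.2.2.2.2.1, H _ t42259.2.2.2.2.2.2.1⟩⟩⟩⟩, ⟨⟨⟨H _ t42259.2.2.2.2.2.2.2, H _ t42267.1⟩, ⟨H _ t42267.2.1, H _ t42267.2.2.1⟩⟩, ⟨⟨H _ t42267.2.2.2.1, H _ t42267.2.2.2.2.1⟩, ⟨H _ t42267.2.2.2.2.2.1, ⟨H _ t42267.2.2.2.2.2.2.1, H _ t42267.2.2.2.2.2.2.2⟩⟩⟩⟩⟩, ⟨⟨⟨⟨H _ t42275.1, H _ t42275.2.1⟩, ⟨H _ t42275.2.2.1, H _ t42275.2.2.2.1⟩⟩,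 ⟨⟨H _ t42275.2.2.2.2.1, H _ t42275.2.2.2.2.2.1⟩, ⟨H _ t42275.2.2.2.2.2.2.1, ⟨H _ t42275.2.2.2.2.2.2.2, H _ t42283.1⟩⟩⟩⟩, ⟨⟨⟨H _ t42283.2.1, H _ t42283.2.2.1⟩, ⟨H _ t42283.2.2.2.1, H _ t42283.2.2.2.2.1⟩⟩, ⟨⟨H _ t42283.2.2.2.2.2.1, H _ t42283.2.2.2.2.2.2.1⟩, ⟨H _ t42283.2.2.2.2.2.2.2, ⟨H _ t42291.1, H _ t42291.2.1⟩⟩⟩⟩⟩⟩, ⟨⟨⟨⟨⟨H _ t42291.2.2.1, H _ t42291.2.2.2.1⟩, ⟨H _ t42291.2.2.2.2.1, H _ t42291.2.2.2.2.2.1⟩⟩, ⟨⟨H _ t42291.2.2.2.2.2.2.1, H _ t42291.2.2.2.2.2.2.2⟩, ⟨H _ t42299.1, ⟨H _ t42299.2.1, H _ t42299.2.2.1⟩⟩⟩⟩, ⟨⟨⟨H _ t42299.2.2.2.1, H _ t42299.2.2.2.2.1⟩, ⟨H _ t42299.2.2.2.2.2.1, H _ t42299.2.2.2.2.2.2.1⟩⟩, ⟨⟨H _ t42299.2.2.2.2.2.2.2, H _ t42307.1⟩, ⟨H _ t42307.2.1, ⟨H _ t42307.2.2.1, H _ t42307.2.2.2.1⟩⟩⟩⟩⟩, ⟨⟨⟨⟨H _ t42307.2.2.2.2.1, H _ t42307.2.2.2.2.2.1⟩, ⟨H _ t42307.2.2.2.2.2.2.1, H _ t42307.2.2.2.2.2.2.2⟩⟩, ⟨⟨H _ t42315.1, H _ t42315.2.1⟩, ⟨H _ t42315.2.2.1, ⟨H _ t42315.2.2.2.1,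 H _ t42315.2.2.2.2.1⟩⟩⟩⟩, ⟨⟨⟨H _ t42315.2.2.2.2.2.1, H _ t42315.2.2.2.2.2.2.1⟩, ⟨H _ t42315.2.2.2.2.2.2.2, H _ t42323.1⟩⟩, ⟨⟨H _ t42323.2.1, H _ t42323.2.2.1⟩, ⟨H _ t42323.2.2.2.1, ⟨H _ t42323.2.2.2.2.1, H _ t42323.2.2.2.2.2.1⟩⟩⟩⟩⟩⟩⟩⟩⟩, ⟨⟨⟨⟨⟨⟨⟨⟨H _ t42323.2.2.2.2.2.2.1, H _ t42323.2.2.2.2.2.2.2⟩, ⟨H _ t42331.1, H _ t42331.2.1⟩⟩, ⟨⟨H _ t42331.2.2.1, H _ t42331.2.2.2.1⟩, ⟨H _ t42331.2.2.2.2.1, H _ t42331.2.2.2.2.2.1⟩⟩⟩, ⟨⟨⟨H _ t42331.2.2.2.2.2.2.1, H _ t42331.2.2.2.2.2.2.2⟩, ⟨H _ t42339.1, H _ t42339.2.1⟩⟩, ⟨⟨H _ t42339.2.2.1, H _ t42339.2.2.2.1⟩, ⟨H _ t42339.2.2.2.2.1, ⟨H _ t42339.2.2.2.2.2.1, H _ t42339.2.2.2.2.2.2.1⟩⟩⟩⟩⟩, ⟨⟨⟨⟨H _ t42339.2.2.2.2.2.2.2, H _ t42347.1⟩, ⟨H _ t42347.2.1, H _ t42347.2.2.1⟩⟩, ⟨⟨H _ t42347.2.2.2.1, H _ t42347.2.2.2.2.1⟩, ⟨H _ t42347.2.2.2.2.2.1, ⟨H _ t42347.2.2.2.2.2.2.1, H _ t42347.2.2.2.2.2.2.2⟩⟩⟩⟩, ⟨⟨⟨H _ t42355.1, H _ t42355.2.1⟩, ⟨H _ t42355.2.2.1, H _ t42355.2.2.2.1⟩⟩,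 ⟨⟨H _ t42355.2.2.2.2.1, H _ t42355.2.2.2.2.2.1⟩, ⟨H _ t42355.2.2.2.2.2.2.1, ⟨H _ t42355.2.2.2.2.2.2.2, H _ t42363.1⟩⟩⟩⟩⟩⟩, ⟨⟨⟨⟨⟨H _ t42363.2.1, H _ t42363.2.2.1⟩, ⟨H _ t42363.2.2.2.1, H _ t42363.2.2.2.2.1⟩⟩, ⟨⟨H _ t42363.2.2.2.2.2.1, H _ t42363.2.2.2.2.2.2.1⟩, ⟨H _ t42363.2.2.2.2.2.2.2, ⟨H _ t42371.1, H _ t42371.2.1⟩⟩⟩⟩, ⟨⟨⟨H _ t42371.2.2.1, H _ t42371.2.2.2.1⟩, ⟨H _ t42371.2.2.2.2.1, H _ t42371.2.2.2.2.2.1⟩⟩, ⟨⟨H _ t42371.2.2.2.2.2.2.1, H _ t42371.2.2.2.2.2.2.2⟩, ⟨H _ t42379.1, ⟨H _ t42379.2.1, H _ t42379.2.2.1⟩⟩⟩⟩⟩, ⟨⟨⟨⟨H _ t42379.2.2.2.1, H _ t42379.2.2.2.2.1⟩, ⟨H _ t42379.2.2.2.2.2.1, H _ t42379.2.2.2.2.2.2.1⟩⟩, ⟨⟨H _ t42379.2.2.2.2.2.2.2, H _ t42387.1⟩, ⟨H _ t42387.2.1, ⟨H _ t42387.2.2.1, H _ t42387.2.2.2.1⟩⟩⟩⟩, ⟨⟨⟨H _ t42387.2.2.2.2.1, H _ t42387.2.2.2.2.2.1⟩, ⟨H _ t42387.2.2.2.2.2.2.1, H _ t42387.2.2.2.2.2.2.2⟩⟩, ⟨⟨H _ t42395.1, H _ t42395.2.1⟩, ⟨H _ t42395.2.2.1, ⟨H _ t42395.2.2.2.1,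 H _ t42395.2.2.2.2.1⟩⟩⟩⟩⟩⟩⟩, ⟨⟨⟨⟨⟨⟨H _ t42395.2.2.2.2.2.1, H _ t42395.2.2.2.2.2.2.1⟩, ⟨H _ t42395.2.2.2.2.2.2.2, H _ t42403.1⟩⟩, ⟨⟨H _ t42403.2.1, H _ t42403.2.2.1⟩, ⟨H _ t42403.2.2.2.1, ⟨H _ t42403.2.2.2.2.1, H _ t42403.2.2.2.2.2.1⟩⟩⟩⟩, ⟨⟨⟨H _ t42403.2.2.2.2.2.2.1, H _ t42403.2.2.2.2.2.2.2⟩, ⟨H _ t42411.1, H _ t42411.2.1⟩⟩, ⟨⟨H _ t42411.2.2.1, H _ t42411.2.2.2.1⟩, ⟨H _ t42411.2.2.2.2.1, ⟨H _ t42411.2.2.2.2.2.1, H _ t42411.2.2.2.2.2.2.1⟩⟩⟩⟩⟩, ⟨⟨⟨⟨H _ t42411.2.2.2.2.2.2.2, H _ t42419.1⟩, ⟨H _ t42419.2.1, H _ t42419.2.2.1⟩⟩, ⟨⟨H _ t42419.2.2.2.1, H _ t42419.2.2.2.2.1⟩, ⟨H _ t42419.2.2.2.2.2.1, ⟨H _ t42419.2.2.2.2.2.2.1, H _ t42419.2.2.2.2.2.2.2⟩⟩⟩⟩, ⟨⟨⟨H _ t42427.1, H _ t42427.2.1⟩, ⟨H _ t42427.2.2.1, H _ t42427.2.2.2.1⟩⟩, ⟨⟨H _ t42427.2.2.2.2.1, H _ t42427.2.2.2.2.2.1⟩, ⟨H _ t42427.2.2.2.2.2.2.1, ⟨H _ t42427.2.2.2.2.2.2.2, H _ t42435.1⟩⟩⟩⟩⟩⟩, ⟨⟨⟨⟨⟨H _ t42435.2.1, H _ t42435.2.2.1⟩, ⟨H _ t42435.2.2.2.1,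 H _ t42435.2.2.2.2.1⟩⟩, ⟨⟨H _ t42435.2.2.2.2.2.1, H _ t42435.2.2.2.2.2.2.1⟩, ⟨H _ t42435.2.2.2.2.2.2.2, ⟨H _ t42443.1, H _ t42443.2.1⟩⟩⟩⟩, ⟨⟨⟨H _ t42443.2.2.1, H _ t42443.2.2.2.1⟩, ⟨H _ t42443.2.2.2.2.1, H _ t42443.2.2.2.2.2.1⟩⟩, ⟨⟨H _ t42443.2.2.2.2.2.2.1, H _ t42443.2.2.2.2.2.2.2⟩, ⟨H _ t42451.1, ⟨H _ t42451.2.1, H _ t42451.2.2.1⟩⟩⟩⟩⟩, ⟨⟨⟨⟨H _ t42451.2.2.2.1, H _ t42451.2.2.2.2.1⟩, ⟨H _ t42451.2.2.2.2.2.1, H _ t42451.2.2.2.2.2.2.1⟩⟩, ⟨⟨H _ t42451.2.2.2.2.2.2.2, H _ t42459.1⟩, ⟨H _ t42459.2.1, ⟨H _ t42459.2.2.1, H _ t42459.2.2.2.1⟩⟩⟩⟩, ⟨⟨⟨H _ t42459.2.2.2.2.1, H _ t42459.2.2.2.2.2.1⟩, ⟨H _ t42459.2.2.2.2.2.2.1, H _ t42459.2.2.2.2.2.2.2⟩⟩, ⟨⟨H _ t42467.1, H _ t42467.2.1⟩, ⟨H _ t42467.2.2.1, ⟨H _ t42467.2.2.2.1, H _ t42467.2.2.2.2.1⟩⟩⟩⟩⟩⟩⟩⟩, ⟨⟨⟨⟨⟨⟨⟨H _ t42467.2.2.2.2.2.1, H _ t42467.2.2.2.2.2.2.1⟩, ⟨H _ t42467.2.2.2.2.2.2.2, H _ t42475.1⟩⟩, ⟨⟨H _ t42475.2.1, H _ t42475.2.2.1⟩, ⟨H _ t42475.2.2.2.1,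 ⟨H _ t42475.2.2.2.2.1, H _ t42475.2.2.2.2.2.1⟩⟩⟩⟩, ⟨⟨⟨H _ t42475.2.2.2.2.2.2.1, H _ t42475.2.2.2.2.2.2.2⟩, ⟨H _ t42483.1, H _ t42483.2.1⟩⟩, ⟨⟨H _ t42483.2.2.1, H _ t42483.2.2.2.1⟩, ⟨H _ t42483.2.2.2.2.1, ⟨H _ t42483.2.2.2.2.2.1, H _ t42483.2.2.2.2.2.2.1⟩⟩⟩⟩⟩, ⟨⟨⟨⟨H _ t42483.2.2.2.2.2.2.2, H _ t42491.1⟩, ⟨H _ t42491.2.1, H _ t42491.2.2.1⟩⟩, ⟨⟨H _ t42491.2.2.2.1, H _ t42491.2.2.2.2.1⟩, ⟨H _ t42491.2.2.2.2.2.1, ⟨H _ t42491.2.2.2.2.2.2.1, H _ t42491.2.2.2.2.2.2.2⟩⟩⟩⟩, ⟨⟨⟨H _ t42499.1, H _ t42499.2.1⟩, ⟨H _ t42499.2.2.1, H _ t42499.2.2.2.1⟩⟩, ⟨⟨H _ t42499.2.2.2.2.1, H _ t42499.2.2.2.2.2.1⟩, ⟨H _ t42499.2.2.2.2.2.2.1, ⟨H _ t42499.2.2.2.2.2.2.2, H _ t42507.1⟩⟩⟩⟩⟩⟩, ⟨⟨⟨⟨⟨H _ t42507.2.1, H _ t42507.2.2.1⟩, ⟨H _ t42507.2.2.2.1, H _ t42507.2.2.2.2.1⟩⟩, ⟨⟨H _ t42507.2.2.2.2.2.1, H _ t42507.2.2.2.2.2.2.1⟩, ⟨H _ t42507.2.2.2.2.2.2.2, ⟨H _ t42515.1, H _ t42515.2.1⟩⟩⟩⟩, ⟨⟨⟨H _ t42515.2.2.1, H _ t42515.2.2.2.1⟩,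 ⟨H _ t42515.2.2.2.2.1, H _ t42515.2.2.2.2.2.1⟩⟩, ⟨⟨H _ t42515.2.2.2.2.2.2.1, H _ t42515.2.2.2.2.2.2.2⟩, ⟨H _ t42523.1, ⟨H _ t42523.2.1, H _ t42523.2.2.1⟩⟩⟩⟩⟩, ⟨⟨⟨⟨H _ t42523.2.2.2.1, H _ t42523.2.2.2.2.1⟩, ⟨H _ t42523.2.2.2.2.2.1, H _ t42523.2.2.2.2.2.2.1⟩⟩, ⟨⟨H _ t42523.2.2.2.2.2.2.2, H _ t42531.1⟩, ⟨H _ t42531.2.1, ⟨H _ t42531.2.2.1, H _ t42531.2.2.2.1⟩⟩⟩⟩, ⟨⟨⟨H _ t42531.2.2.2.2.1, H _ t42531.2.2.2.2.2.1⟩, ⟨H _ t42531.2.2.2.2.2.2.1, H _ t42531.2.2.2.2.2.2.2⟩⟩, ⟨⟨H _ t42539.1, H _ t42539.2.1⟩, ⟨H _ t42539.2.2.1, ⟨H _ t42539.2.2.2.1, H _ t42539.2.2.2.2.1⟩⟩⟩⟩⟩⟩⟩, ⟨⟨⟨⟨⟨⟨H _ t42539.2.2.2.2.2.1, H _ t42539.2.2.2.2.2.2.1⟩, ⟨H _ t42539.2.2.2.2.2.2.2, H _ t42547.1⟩⟩, ⟨⟨H _ t42547.2.1, H _ t42547.2.2.1⟩, ⟨H _ t42547.2.2.2.1, ⟨H _ t42547.2.2.2.2.1, H _ t42547.2.2.2.2.2.1⟩⟩⟩⟩, ⟨⟨⟨H _ t42547.2.2.2.2.2.2.1, H _ t42547.2.2.2.2.2.2.2⟩, ⟨H _ t42555.1, H _ t42555.2.1⟩⟩, ⟨⟨H _ t42555.2.2.1, H _ t42555.2.2.2.1⟩,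 ⟨H _ t42555.2.2.2.2.1, ⟨H _ t42555.2.2.2.2.2.1, H _ t42555.2.2.2.2.2.2.1⟩⟩⟩⟩⟩, ⟨⟨⟨⟨H _ t42555.2.2.2.2.2.2.2, H _ t42563.1⟩, ⟨H _ t42563.2.1, H _ t42563.2.2.1⟩⟩, ⟨⟨H _ t42563.2.2.2.1, H _ t42563.2.2.2.2.1⟩, ⟨H _ t42563.2.2.2.2.2.1, ⟨H _ t42563.2.2.2.2.2.2.1, H _ t42563.2.2.2.2.2.2.2⟩⟩⟩⟩, ⟨⟨⟨H _ t42571.1, H _ t42571.2.1⟩, ⟨H _ t42571.2.2.1, H _ t42571.2.2.2.1⟩⟩, ⟨⟨H _ t42571.2.2.2.2.1, H _ t42571.2.2.2.2.2.1⟩, ⟨H _ t42571.2.2.2.2.2.2.1, ⟨H _ t42571.2.2.2.2.2.2.2, H _ t42579.1⟩⟩⟩⟩⟩⟩, ⟨⟨⟨⟨⟨H _ t42579.2.1, H _ t42579.2.2.1⟩, ⟨H _ t42579.2.2.2.1, H _ t42579.2.2.2.2.1⟩⟩, ⟨⟨H _ t42579.2.2.2.2.2.1, H _ t42579.2.2.2.2.2.2.1⟩, ⟨H _ t42579.2.2.2.2.2.2.2, ⟨H _ t42587.1, H _ t42587.2.1⟩⟩⟩⟩, ⟨⟨⟨H _ t42587.2.2.1, H _ t42587.2.2.2.1⟩, ⟨H _ t42587.2.2.2.2.1, H _ t42587.2.2.2.2.2.1⟩⟩, ⟨⟨H _ t42587.2.2.2.2.2.2.1, H _ t42587.2.2.2.2.2.2.2⟩, ⟨H _ t42595.1, ⟨H _ t42595.2.1, H _ t42595.2.2.1⟩⟩⟩⟩⟩, ⟨⟨⟨⟨H _ t42595.2.2.2.1,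 H _ t42595.2.2.2.2.1⟩, ⟨H _ t42595.2.2.2.2.2.1, H _ t42595.2.2.2.2.2.2.1⟩⟩, ⟨⟨H _ t42595.2.2.2.2.2.2.2, H _ t42603.1⟩, ⟨H _ t42603.2.1, ⟨H _ t42603.2.2.1, H _ t42603.2.2.2.1⟩⟩⟩⟩, ⟨⟨⟨H _ t42603.2.2.2.2.1, H _ t42603.2.2.2.2.2.1⟩, ⟨H _ t42603.2.2.2.2.2.2.1, H _ t42603.2.2.2.2.2.2.2⟩⟩, ⟨⟨H _ t42611.1, H _ t42611.2.1⟩, ⟨H _ t42611.2.2.1, ⟨H _ t42611.2.2.2.1, H _ t42611.2.2.2.2⟩⟩⟩⟩⟩⟩⟩⟩⟩⟩

end Pool.Agent.MP_c853c5_nt.X.C4950
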