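import Pool.Agent.MP_c853c5_nt.X.C4950.Env
import Pool.Agent.MP_c853c5_nt.X.C4950.Tab

set_option autoImplicit false
set_option maxRecDepth 8192
set_option linter.all false

namespace Pool.Agent.MP_c853c5_nt.X.C4950

open Pool.Agent.MP_c853c5_nt.X

def t42616 : allY (E.wth T2) l42616 = true ∧
    allY (E.wth T2) l42617 = true ∧
    allY (E.wth T2) l42618 = true ∧
    allY (E.wth T2) l42619 = true ∧
    allY (E.wth T2) l42620 = true ∧
    allY (E.wth T2) l42621 = true ∧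
    allY (E.wth T2) l42622 = true ∧
    allY (E.wth T2) l42623 = true :=
  ⟨by decide +kernel, by decide +kernel, by decide +kernel, by decide +kernel, by decide +kernel, by decide +kernel, by decide +kernel, by decide +kernel⟩

def t42624 : allY (E.wth T2) l42624 = true ∧
    allY (E.wth T2) l42625 = true ∧
    allY (E.wth T2) l42626 = true ∧
    allY (E.wth T2) l42627 = true ∧
    allY (E.wth T2) l42628 = true ∧
    allY (E.wth T2) l42629 = true ∧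
    allY (E.wth T2) l42630 = true ∧
    allY (E.wth T2) l42631 = true :=
  ⟨by decide +kernel, by decide +kernel, by decide +kernel, by decide +kernel, by decide +kernel, by decide +kernel, by decide +kernel, by decide +kernel⟩

def t42632 : allY (E.wth T2) l42632 = true ∧
    allY (E.wth T2) l42633 = true ∧
    allY (E.wth T2) l42634 = true ∧
    allY (E.wth T2) l42635 = true ∧
    allY (E.wth T2) l42636 = true ∧
    allY (E.wth T2) l42637 = true ∧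
    allY (E.wth T2) l42638 = true ∧
    allY (E.wth T2) l42639 = true :=
  ⟨by decide +kernel, by decide +kernel, by decide +kernel, by decide +kernel, by decide +kernel, by decide +kernel, by decide +kernel, by decide +kernel⟩

def t42640 : allY (E.wth T2) l42640 = true ∧
    allY (E.wth T2) l42641 = true ∧
    allY (E.wth T2) l42642 = true ∧
    allY (E.wth T2) l42643 = true ∧
    allY (E.wth T2) l42644 = true ∧
    allY (E.wth T2) l42645 = true ∧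
    allY (E.wth T2) l42646 = true ∧
    allY (E.wth T2) l42647 = true :=
  ⟨by decide +kernel, by decide +kernel, by decide +kernel, by decide +kernel, by decide +kernel, by decide +kernel, by decide +kernel, by decide +kernel⟩

def t42648 : allY (E.wth T2) l42648 = true ∧
    allY (E.wth T2) l42649 = true ∧
    allY (E.wth T2) l42650 = true ∧
    allY (E.wth T2) l42651 = true ∧
    allY (E.wth T2) l42652 = true ∧
    allY (E.wth T2) l42653 = true ∧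
    allY (E.wth T2) l42654 = true ∧
    allY (E.wth T2) l42655 = true :=
  ⟨by decide +kernel, by decide +kernel, by decide +kernel, by decide +kernel, by decide +kernel, by decide +kernel, by decide +kernel, by decide +kernel⟩

def t42656 : allY (E.wth T2) l42656 = true ∧
    allY (E.wth T2) l42657 = true ∧
    allY (E.wth T2) l42658 = true ∧
    allY (E.wth T2) l42659 = true ∧
    allY (E.wth T2) l42660 = true ∧
    allY (E.wth T2) l42661 = true ∧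
    allY (E.wth T2) l42662 = true ∧
    allY (E.wth T2) l42663 = true :=
  ⟨by decide +kernel, by decide +kernel, by decide +kernel, by decide +kernel, by decide +kernel, by decide +kernel, by decide +kernel, by decide +kernel⟩

def t42664 : allY (E.wth T2) l42664 = true ∧
    allY (E.wth T2) l42665 = true ∧
    allY (E.wth T2) l42666 = true ∧
    allY (E.wth T2) l42667 = true ∧
    allY (E.wth T2) l42668 = true ∧
    allY (E.wth T2) l42669 = true ∧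
    allY (E.wth T2) l42670 = true ∧
    allY (E.wth T2) l42671 = true :=
  ⟨by decide +kernel, by decide +kernel, by decide +kernel, by decide +kernel, by decide +kernel, by decide +kernel, by decide +kernel, by decide +kernel⟩

def t42672 : allY (E.wth T2) l42672 = true ∧
    allY (E.wth T2) l42673 = true ∧
    allY (E.wth T2) l42674 = true ∧
    allY (E.wth T2) l42675 = true ∧
    allY (E.wth T2) l42676 = true ∧
    allY (E.wth T2) l42677 = true ∧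
    allY (E.wth T2) l42678 = true ∧
    allY (E.wth T2) l42679 = true :=
  ⟨by decide +kernel, by decide +kernel, by decide +kernel, by decide +kernel, by decide +kernel, by decide +kernel, by decide +kernel, by decide +kernel⟩

def t42680 : allY (E.wth T2) l42680 = true ∧
    allY (E.wth T2) l42681 = true ∧
    allY (E.wth T2) l42682 = true ∧
    allY (E.wth T2) l42683 = true ∧
    allY (E.wth T2) l42684 = true ∧
    allY (E.wth T2) l42685 = true ∧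
    allY (E.wth T2) l42686 = true ∧
    allY (E.wth T2) l42687 = true :=
  ⟨by decide +kernel, by decide +kernel, by decide +kernel, by decide +kernel, by decide +kernel, by decide +kernel, by decide +kernel, by decide +kernel⟩

def t42688 : allY (E.wth T2) l42688 = true ∧
    allY (E.wth T2) l42689 = true ∧
    allY (E.wth T2) l42690 = true ∧
    allY (E.wth T2) l42691 = true ∧
    allY (E.wth T2) l42692 = true ∧
    allY (E.wth T2) l42693 = true ∧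
    allY (E.wth T2) l42694 = true ∧
    allY (E.wth T2) l42695 = true :=
  ⟨by decide +kernel, by decide +kernel, by decide +kernel, by decide +kernel, by decide +kernel, by decide +kernel, by decide +kernel, by decide +kernel⟩

def t42696 : allY (E.wth T2) l42696 = true ∧
    allY (E.wth T2) l42697 = true ∧
    allY (E.wth T2) l42698 = true ∧
    allY (E.wth T2) l42699 = true ∧
    allY (E.wth T2) l42700 = true ∧
    allY (E.wth T2) l42701 = true ∧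
    allY (E.wth T2) l42702 = true ∧
    allY (E.wth T2) l42703 = true :=
  ⟨by decide +kernel, by decide +kernel, by decide +kernel, by decide +kernel, by decide +kernel, by decide +kernel, by decide +kernel, by decide +kernel⟩

def t42704 : allY (E.wth T2) l42704 = true ∧
    allY (E.wth T2) l42705 = true ∧
    allY (E.wth T2) l42706 = true ∧
    allY (E.wth T2) l42707 = true ∧
    allY (E.wth T2) l42708 = true ∧
    allY (E.wth T2) l42709 = true ∧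
    allY (E.wth T2) l42710 = true ∧
    allY (E.wth T2) l42711 = true :=
  ⟨by decide +kernel, by decide +kernel, by decide +kernel, by decide +kernel, by decide +kernel, by decide +kernel, by decide +kernel, by decide +kernel⟩

def t42712 : allY (E.wth T2) l42712 = true ∧
    allY (E.wth T2) l42713 = true ∧
    allY (E.wth T2) l42714 = true ∧
    allY (E.wth T2) l42715 = true ∧
    allY (E.wth T2) l42716 = true ∧
    allY (E.wth T2) l42717 = true ∧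
    allY (E.wth T2) l42718 = true ∧
    allY (E.wth T2) l42719 = true :=
  ⟨by decide +kernel, by decide +kernel, by decide +kernel, by decide +kernel, by decide +kernel, by decide +kernel, by decide +kernel, by decide +kernel⟩

def t42720 : allY (E.wth T2) l42720 = true ∧
    allY (E.wth T2) l42721 = true ∧
    allY (E.wth T2) l42722 = true ∧
    allY (E.wth T2) l42723 = true ∧
    allY (E.wth T2) l42724 = true ∧
    allY (E.wth T2) l42725 = true ∧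
    allY (E.wth T2) l42726 = true ∧
    allY (E.wth T2) l42727 = true :=
  ⟨by decide +kernel, by decide +kernel, by decide +kernel, by decide +kernel, by decide +kernel, by decide +kernel, by decide +kernel, by decide +kernel⟩

def t42728 : allY (E.wth T2) l42728 = true ∧
    allY (E.wth T2) l42729 = true ∧
    allY (E.wth T2) l42730 = true ∧
    allY (E.wth T2) l42731 = true ∧
    allY (E.wth T2) l42732 = true ∧
    allY (E.wth T2) l42733 = true ∧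
    allY (E.wth T2) l42734 = true ∧
    allY (E.wth T2) l42735 = true :=
  ⟨by decide +kernel, by decide +kernel, by decide +kernel, by decide +kernel, by decide +kernel, by decide +kernel, by decide +kernel, by decide +kernel⟩

def t42736 : allY (E.wth T2) l42736 = true ∧
    allY (E.wth T2) l42737 = true ∧
    allY (E.wth T2) l42738 = true ∧
    allY (E.wth T2) l42739 = true ∧
    allY (E.wth T2) l42740 = true ∧
    allY (E.wth T2) l42741 = true ∧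
    allY (E.wth T2) l42742 = true ∧
    allY (E.wth T2) l42743 = true :=
  ⟨by decide +kernel, by decide +kernel, by decide +kernel, by decide +kernel, by decide +kernel, by decide +kernel, by decide +kernel, by decide +kernel⟩

def t42744 : allY (E.wth T2) l42744 = true ∧
    allY (E.wth T2) l42745 = true ∧
    allY (E.wth T2) l42746 = true ∧
    allY (E.wth T2) l42747 = true ∧
    allY (E.wth T2) l42748 = true ∧
    allY (E.wth T2) l42749 = true ∧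
    allY (E.wth T2) l42750 = true ∧
    allY (E.wth T2) l42751 = true :=
  ⟨by decide +kernel, by decide +kernel, by decide +kernel, by decide +kernel, by decide +kernel, by decide +kernel, by decide +kernel, by decide +kernel⟩

def t42752 : allY (E.wth T2) l42752 = true ∧
    allY (E.wth T2) l42753 = true ∧
    allY (E.wth T2) l42754 = true ∧
    allY (E.wth T2) l42755 = true ∧
    allY (E.wth T2) l42756 = true ∧
    allY (E.wth T2) l42757 = true ∧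
    allY (E.wth T2) l42758 = true ∧
    allY (E.wth T2) l42759 = true :=
  ⟨by decide +kernel, by decide +kernel, by decide +kernel, by decide +kernel, by decide +kernel, by decide +kernel, by decide +kernel, by decide +kernel⟩

def t42760 : allY (E.wth T2) l42760 = true ∧
    allY (E.wth T2) l42761 = true ∧
    allY (E.wth T2) l42762 = true ∧
    allY (E.wth T2) l42763 = true ∧
    allY (E.wth T2) l42764 = true ∧
    allY (E.wth T2) l42765 = true ∧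
    allY (E.wth T2) l42766 = true ∧
    allY (E.wth T2) l42767 = true :=
  ⟨by decide +kernel, by decide +kernel, by decide +kernel, by decide +kernel, by decide +kernel, by decide +kernel, by decide +kernel, by decide +kernel⟩

def t42768 : allY (E.wth T2) l42768 = true ∧
    allY (E.wth T2) l42769 = true ∧
    allY (E.wth T2) l42770 = true ∧
    allY (E.wth T2) l42771 = true ∧
    allY (E.wth T2) l42772 = true ∧
    allY (E.wth T2) l42773 = true ∧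
    allY (E.wth T2) l42774 = true ∧
    allY (E.wth T2) l42775 = true :=
  ⟨by decide +kernel, by decide +kernel, by decide +kernel, by decide +kernel, by decide +kernel, by decide +kernel, by decide +kernel, by decide +kernel⟩

def t42776 : allY (E.wth T2) l42776 = true ∧
    allY (E.wth T2) l42777 = true ∧
    allY (E.wth T2) l42778 = true ∧
    allY (E.wth T2) l42779 = true ∧
    allY (E.wth T2) l42780 = true ∧
    allY (E.wth T2) l42781 = true ∧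
    allY (E.wth T2) l42782 = true ∧
    allY (E.wth T2) l42783 = true :=
  ⟨by decide +kernel, by decide +kernel, by decide +kernel, by decide +kernel, by decide +kernel, by decide +kernel, by decide +kernel, by decide +kernel⟩

def t42784 : allY (E.wth T2) l42784 = true ∧
    allY (E.wth T2) l42785 = true ∧
    allY (E.wth T2) l42786 = true ∧
    allY (E.wth T2) l42787 = true ∧
    allY (E.wth T2) l42788 = true ∧
    allY (E.wth T2) l42789 = true ∧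
    allY (E.wth T2) l42790 = true ∧
    allY (E.wth T2) l42791 = true :=
  ⟨by decide +kernel, by decide +kernel, by decide +kernel, by decide +kernel, by decide +kernel, by decide +kernel, by decide +kernel, by decide +kernel⟩

def t42792 : allY (E.wth T2) l42792 = true ∧
    allY (E.wth T2) l42793 = true ∧
    allY (E.wth T2) l42794 = true ∧
    allY (E.wth T2) l42795 = true ∧
    allY (E.wth T2) l42796 = true ∧
    allY (E.wth T2) l42797 = true ∧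
    allY (E.wth T2) l42798 = true ∧
    allY (E.wth T2) l42799 = true :=
  ⟨by decide +kernel, by decide +kernel, by decide +kernel, by decide +kernel, by decide +kernel, by decide +kernel, by decide +kernel, by decide +kernel⟩

def t42800 : allY (E.wth T2) l42800 = true ∧
    allY (E.wth T2) l42801 = true ∧
    allY (E.wth T2) l42802 = true ∧
    allY (E.wth T2) l42803 = true ∧
    allY (E.wth T2) l42804 = true ∧
    allY (E.wth T2) l42805 = true ∧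
    allY (E.wth T2) l42806 = true ∧
    allY (E.wth T2) l42807 = true :=
  ⟨by decide +kernel, by decide +kernel, by decide +kernel, by decide +kernel, by decide +kernel, by decide +kernel, by decide +kernel, by decide +kernel⟩

def t42808 : allY (E.wth T2) l42808 = true ∧
    allY (E.wth T2) l42809 = true ∧
    allY (E.wth T2) l42810 = true ∧
    allY (E.wth T2) l42811 = true ∧
    allY (E.wth T2) l42812 = true ∧
    allY (E.wth T2) l42813 = true ∧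
    allY (E.wth T2) l42814 = true ∧
    allY (E.wth T2) l42815 = true :=
  ⟨by decide +kernel, by decide +kernel, by decide +kernel, by decide +kernel, by decide +kernel, by decide +kernel, by decide +kernel, by decide +kernel⟩

def t42816 : allY (E.wth T2) l42816 = true ∧
    allY (E.wth T2) l42817 = true ∧
    allY (E.wth T2) l42818 = true ∧
    allY (E.wth T2) l42819 = true ∧
    allY (E.wth T2) l42820 = true ∧
    allY (E.wth T2) l42821 = true ∧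
    allY (E.wth T2) l42822 = true ∧
    allY (E.wth T2) l42823 = true :=
  ⟨by decide +kernel, by decide +kernel, by decide +kernel, by decide +kernel, by decide +kernel, by decide +kernel, by decide +kernel, by decide +kernel⟩

def t42824 : allY (E.wth T2) l42824 = true ∧
    allY (E.wth T2) l42825 = true ∧
    allY (E.wth T2) l42826 = true ∧
    allY (E.wth T2) l42827 = true ∧
    allY (E.wth T2) l42828 = true ∧
    allY (E.wth T2) l42829 = true ∧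
    allY (E.wth T2) l42830 = true ∧
    allY (E.wth T2) l42831 = true :=
  ⟨by decide +kernel, by decide +kernel, by decide +kernel, by decide +kernel, by decide +kernel, by decide +kernel, by decide +kernel, by decide +kernel⟩

def t42832 : allY (E.wth T2) l42832 = true ∧
    allY (E.wth T2) l42833 = true ∧
    allY (E.wth T2) l42834 = true ∧
    allY (E.wth T2) l42835 = true ∧
    allY (E.wth T2) l42836 = true ∧
    allY (E.wth T2) l42837 = true ∧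
    allY (E.wth T2) l42838 = true ∧
    allY (E.wth T2) l42839 = true :=
  ⟨by decide +kernel, by decide +kernel, by decide +kernel, by decide +kernel, by decide +kernel, by decide +kernel, by decide +kernel, by decide +kernel⟩

def t42840 : allY (E.wth T2) l42840 = true ∧
    allY (E.wth T2) l42841 = true ∧
    allY (E.wth T2) l42842 = true ∧
    allY (E.wth T2) l42843 = true ∧
    allY (E.wth T2) l42844 = true ∧
    allY (E.wth T2) l42845 = true ∧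
    allY (E.wth T2) l42846 = true ∧
    allY (E.wth T2) l42847 = true :=
  ⟨by decide +kernel, by decide +kernel, by decide +kernel, by decide +kernel, by decide +kernel, by decide +kernel, by decide +kernel, by decide +kernel⟩

def t42848 : allY (E.wth T2) l42848 = true ∧
    allY (E.wth T2) l42849 = true ∧
    allY (E.wth T2) l42850 = true ∧
    allY (E.wth T2) l42851 = true ∧
    allY (E.wth T2) l42852 = true ∧
    allY (E.wth T2) l42853 = true ∧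
    allY (E.wth T2) l42854 = true ∧
    allY (E.wth T2) l42855 = true :=
  ⟨by decide +kernel, by decide +kernel, by decide +kernel, by decide +kernel, by decide +kernel, by decide +kernel, by decide +kernel, by decide +kernel⟩

def t42856 : allY (E.wth T2) l42856 = true ∧
    allY (E.wth T2) l42857 = true ∧
    allY (E.wth T2) l42858 = true ∧
    allY (E.wth T2) l42859 = true ∧
    allY (E.wth T2) l42860 = true ∧
    allY (E.wth T2) l42861 = true ∧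
    allY (E.wth T2) l42862 = true ∧
    allY (E.wth T2) l42863 = true :=
  ⟨by decide +kernel, by decide +kernel, by decide +kernel, by decide +kernel, by decide +kernel, by decide +kernel, by decide +kernel, by decide +kernel⟩

def t42864 : allY (E.wth T2) l42864 = true ∧
    allY (E.wth T2) l42865 = true ∧
    allY (E.wth T2) l42866 = true ∧
    allY (E.wth T2) l42867 = true ∧
    allY (E.wth T2) l42868 = true ∧
    allY (E.wth T2) l42869 = true ∧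
    allY (E.wth T2) l42870 = true ∧
    allY (E.wth T2) l42871 = true :=
  ⟨by decide +kernel, by decide +kernel, by decide +kernel, by decide +kernel, by decide +kernel, by decide +kernel, by decide +kernel, by decide +kernel⟩

def t42872 : allY (E.wth T2) l42872 = true ∧
    allY (E.wth T2) l42873 = true ∧
    allY (E.wth T2) l42874 = true ∧
    allY (E.wth T2) l42875 = true ∧
    allY (E.wth T2) l42876 = true ∧
    allY (E.wth T2) l42877 = true ∧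
    allY (E.wth T2) l42878 = true ∧
    allY (E.wth T2) l42879 = true :=
  ⟨by decide +kernel, by decide +kernel, by decide +kernel, by decide +kernel, by decide +kernel, by decide +kernel, by decide +kernel, by decide +kernel⟩

def t42880 : allY (E.wth T2) l42880 = true ∧
    allY (E.wth T2) l42881 = true ∧
    allY (E.wth T2) l42882 = true ∧
    allY (E.wth T2) l42883 = true ∧
    allY (E.wth T2) l42884 = true ∧
    allY (E.wth T2) l42885 = true ∧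
    allY (E.wth T2) l42886 = true ∧
    allY (E.wth T2) l42887 = true :=
  ⟨by decide +kernel, by decide +kernel, by decide +kernel, by decide +kernel, by decide +kernel, by decide +kernel, by decide +kernel, by decide +kernel⟩

def t42888 : allY (E.wth T2) l42888 = true ∧
    allY (E.wth T2) l42889 = true ∧
    allY (E.wth T2) l42890 = true ∧
    allY (E.wth T2) l42891 = true ∧
    allY (E.wth T2) l42892 = true ∧
    allY (E.wth T2) l42893 = true ∧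
    allY (E.wth T2) l42894 = true ∧
    allY (E.wth T2) l42895 = true :=
  ⟨by decide +kernel, by decide +kernel, by decide +kernel, by decide +kernel, by decide +kernel, by decide +kernel, by decide +kernel, by decide +kernel⟩

def t42896 : allY (E.wth T2) l42896 = true ∧
    allY (E.wth T2) l42897 = true ∧
    allY (E.wth T2) l42898 = true ∧
    allY (E.wth T2) l42899 = true ∧
    allY (E.wth T2) l42900 = true ∧
    allY (E.wth T2) l42901 = true ∧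
    allY (E.wth T2) l42902 = true ∧
    allY (E.wth T2) l42903 = true :=
  ⟨by decide +kernel, by decide +kernel, by decide +kernel, by decide +kernel, by decide +kernel, by decide +kernel, by decide +kernel, by decide +kernel⟩

def t42904 : allY (E.wth T2) l42904 = true ∧
    allY (E.wth T2) l42905 = true ∧
    allY (E.wth T2) l42906 = true ∧
    allY (E.wth T2) l42907 = true ∧
    allY (E.wth T2) l42908 = true ∧
    allY (E.wth T2) l42909 = true ∧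
    allY (E.wth T2) l42910 = true ∧
    allY (E.wth T2) l42911 = true :=
  ⟨by decide +kernel, by decide +kernel, by decide +kernel, by decide +kernel, by decide +kernel, by decide +kernel, by decide +kernel, by decide +kernel⟩

def t42912 : allY (E.wth T2) l42912 = true ∧
    allY (E.wth T2) l42913 = true ∧
    allY (E.wth T2) l42914 = true ∧
    allY (E.wth T2) l42915 = true ∧
    allY (E.wth T2) l42916 = true ∧
    allY (E.wth T2) l42917 = true ∧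
    allY (E.wth T2) l42918 = true ∧
    allY (E.wth T2) l42919 = true :=
  ⟨by decide +kernel, by decide +kernel, by decide +kernel, by decide +kernel, by decide +kernel, by decide +kernel, by decide +kernel, by decide +kernel⟩

def t42920 : allY (E.wth T2) l42920 = true ∧
    allY (E.wth T2) l42921 = true ∧
    allY (E.wth T2) l42922 = true ∧
    allY (E.wth T2) l42923 = true ∧
    allY (E.wth T2) l42924 = true ∧
    allY (E.wth T2) l42925 = true ∧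
    allY (E.wth T2) l42926 = true ∧
    allY (E.wth T2) l42927 = true :=
  ⟨by decide +kernel, by decide +kernel, by decide +kernel, by decide +kernel, by decide +kernel, by decide +kernel, by decide +kernel, by decide +kernel⟩

def t42928 : allY (E.wth T2) l42928 = true ∧
    allY (E.wth T2) l42929 = true ∧
    allY (E.wth T2) l42930 = true ∧
    allY (E.wth T2) l42931 = true ∧
    allY (E.wth T2) l42932 = true ∧
    allY (E.wth T2) l42933 = true ∧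
    allY (E.wth T2) l42934 = true ∧
    allY (E.wth T2) l42935 = true :=
  ⟨by decide +kernel, by decide +kernel, by decide +kernel, by decide +kernel, by decide +kernel, by decide +kernel, by decide +kernel, by decide +kernel⟩

def t42936 : allY (E.wth T2) l42936 = true ∧
    allY (E.wth T2) l42937 = true ∧
    allY (E.wth T2) l42938 = true ∧
    allY (E.wth T2) l42939 = true ∧
    allY (E.wth T2) l42940 = true ∧
    allY (E.wth T2) l42941 = true ∧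
    allY (E.wth T2) l42942 = true ∧
    allY (E.wth T2) l42943 = true :=
  ⟨by decide +kernel, by decide +kernel, by decide +kernel, by decide +kernel, by decide +kernel, by decide +kernel, by decide +kernel, by decide +kernel⟩

def t42944 : allY (E.wth T2) l42944 = true ∧
    allY (E.wth T2) l42945 = true ∧
    allY (E.wth T2) l42946 = true ∧
    allY (E.wth T2) l42947 = true ∧
    allY (E.wth T2) l42948 = true ∧
    allY (E.wth T2) l42949 = true ∧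
    allY (E.wth T2) l42950 = true ∧
    allY (E.wth T2) l42951 = true :=
  ⟨by decide +kernel, by decide +kernel, by decide +kernel, by decide +kernel, by decide +kernel, by decide +kernel, by decide +kernel, by decide +kernel⟩

def t42952 : allY (E.wth T2) l42952 = true ∧
    allY (E.wth T2) l42953 = true ∧
    allY (E.wth T2) l42954 = true ∧
    allY (E.wth T2) l42955 = true ∧
    allY (E.wth T2) l42956 = true ∧
    allY (E.wth T2) l42957 = true ∧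
    allY (E.wth T2) l42958 = true ∧
    allY (E.wth T2) l42959 = true :=
  ⟨by decide +kernel, by decide +kernel, by decide +kernel, by decide +kernel, by decide +kernel, by decide +kernel, by decide +kernel, by decide +kernel⟩

def t42960 : allY (E.wth T2) l42960 = true ∧
    allY (E.wth T2) l42961 = true ∧
    allY (E.wth T2) l42962 = true ∧
    allY (E.wth T2) l42963 = true ∧
    allY (E.wth T2) l42964 = true ∧
    allY (E.wth T2) l42965 = true ∧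
    allY (E.wth T2) l42966 = true ∧
    allY (E.wth T2) l42967 = true :=
  ⟨by decide +kernel, by decide +kernel, by decide +kernel, by decide +kernel, by decide +kernel, by decide +kernel, by decide +kernel, by decide +kernel⟩

def t42968 : allY (E.wth T2) l42968 = true ∧
    allY (E.wth T2) l42969 = true ∧
    allY (E.wth T2) l42970 = true ∧
    allY (E.wth T2) l42971 = true ∧
    allY (E.wth T2) l42972 = true ∧
    allY (E.wth T2) l42973 = true ∧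
    allY (E.wth T2) l42974 = true ∧
    allY (E.wth T2) l42975 = true :=
  ⟨by decide +kernel, by decide +kernel, by decide +kernel, by decide +kernel, by decide +kernel, by decide +kernel, by decide +kernel, by decide +kernel⟩

def t42976 : allY (E.wth T2) l42976 = true ∧
    allY (E.wth T2) l42977 = true ∧
    allY (E.wth T2) l42978 = true ∧
    allY (E.wth T2) l42979 = true ∧
    allY (E.wth T2) l42980 = true ∧
    allY (E.wth T2) l42981 = true ∧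
    allY (E.wth T2) l42982 = true ∧
    allY (E.wth T2) l42983 = true :=
  ⟨by decide +kernel, by decide +kernel, by decide +kernel, by decide +kernel, by decide +kernel, by decide +kernel, by decide +kernel, by decide +kernel⟩

def t42984 : allY (E.wth T2) l42984 = true ∧
    allY (E.wth T2) l42985 = true ∧
    allY (E.wth T2) l42986 = true ∧
    allY (E.wth T2) l42987 = true ∧
    allY (E.wth T2) l42988 = true ∧
    allY (E.wth T2) l42989 = true ∧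
    allY (E.wth T2) l42990 = true ∧
    allY (E.wth T2) l42991 = true :=
  ⟨by decide +kernel, by decide +kernel, by decide +kernel, by decide +kernel, by decide +kernel, by decide +kernel, by decide +kernel, by decide +kernel⟩

def t42992 : allY (E.wth T2) l42992 = true ∧
    allY (E.wth T2) l42993 = true ∧
    allY (E.wth T2) l42994 = true ∧
    allY (E.wth T2) l42995 = true ∧
    allY (E.wth T2) l42996 = true ∧
    allY (E.wth T2) l42997 = true ∧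
    allY (E.wth T2) l42998 = true ∧
    allY (E.wth T2) l42999 = true :=
  ⟨by decide +kernel, by decide +kernel, by decide +kernel, by decide +kernel, by decide +kernel, by decide +kernel, by decide +kernel, by decide +kernel⟩

def t43000 : allY (E.wth T2) l43000 = true ∧
    allY (E.wth T2) l43001 = true ∧
    allY (E.wth T2) l43002 = true ∧
    allY (E.wth T2) l43003 = true ∧
    allY (E.wth T2) l43004 = true ∧
    allY (E.wth T2) l43005 = true ∧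
    allY (E.wth T2) l43006 = true ∧
    allY (E.wth T2) l43007 = true :=
  ⟨by decide +kernel, by decide +kernel, by decide +kernel, by decide +kernel, by decide +kernel, by decide +kernel, by decide +kernel, by decide +kernel⟩

def t43008 : allY (E.wth T2) l43008 = true ∧
    allY (E.wth T2) l43009 = true ∧
    allY (E.wth T2) l43010 = true ∧
    allY (E.wth T2) l43011 = true ∧
    allY (E.wth T2) l43012 = true ∧
    allY (E.wth T2) l43013 = true ∧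
    allY (E.wth T2) l43014 = true ∧
    allY (E.wth T2) l43015 = true :=
  ⟨by decide +kernel, by decide +kernel, by decide +kernel, by decide +kernel, by decide +kernel, by decide +kernel, by decide +kernel, by decide +kernel⟩

def t43016 : allY (E.wth T2) l43016 = true ∧
    allY (E.wth T2) l43017 = true ∧
    allY (E.wth T2) l43018 = true ∧
    allY (E.wth T2) l43019 = true ∧
    allY (E.wth T2) l43020 = true ∧
    allY (E.wth T2) l43021 = true ∧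
    allY (E.wth T2) l43022 = true ∧
    allY (E.wth T2) l43023 = true :=
  ⟨by decide +kernel, by decide +kernel, by decide +kernel, by decide +kernel, by decide +kernel, by decide +kernel, by decide +kernel, by decide +kernel⟩

def t43024 : allY (E.wth T2) l43024 = true ∧
    allY (E.wth T2) l43025 = true ∧
    allY (E.wth T2) l43026 = true ∧
    allY (E.wth T2) l43027 = true ∧
    allY (E.wth T2) l43028 = true ∧
    allY (E.wth T2) l43029 = true ∧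
    allY (E.wth T2) l43030 = true ∧
    allY (E.wth T2) l43031 = true :=
  ⟨by decide +kernel, by decide +kernel, by decide +kernel, by decide +kernel, by decide +kernel, by decide +kernel, by decide +kernel, by decide +kernel⟩

def t43032 : allY (E.wth T2) l43032 = true ∧
    allY (E.wth T2) l43033 = true ∧
    allY (E.wth T2) l43034 = true ∧
    allY (E.wth T2) l43035 = true ∧
    allY (E.wth T2) l43036 = true ∧
    allY (E.wth T2) l43037 = true ∧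
    allY (E.wth T2) l43038 = true ∧
    allY (E.wth T2) l43039 = true :=
  ⟨by decide +kernel, by decide +kernel, by decide +kernel, by decide +kernel, by decide +kernel, by decide +kernel, by decide +kernel, by decide +kernel⟩

def t43040 : allY (E.wth T2) l43040 = true ∧
    allY (E.wth T2) l43041 = true ∧
    allY (E.wth T2) l43042 = true ∧
    allY (E.wth T2) l43043 = true ∧
    allY (E.wth T2) l43044 = true ∧
    allY (E.wth T2) l43045 = true ∧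
    allY (E.wth T2) l43046 = true ∧
    allY (E.wth T2) l43047 = true :=
  ⟨by decide +kernel, by decide +kernel, by decide +kernel, by decide +kernel, by decide +kernel, by decide +kernel, by decide +kernel, by decide +kernel⟩

def t43048 : allY (E.wth T2) l43048 = true ∧
    allY (E.wth T2) l43049 = true ∧
    allY (E.wth T2) l43050 = true ∧
    allY (E.wth T2) l43051 = true ∧
    allY (E.wth T2) l43052 = true ∧
    allY (E.wth T2) l43053 = true ∧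
    allY (E.wth T2) l43054 = true ∧
    allY (E.wth T2) l43055 = true :=
  ⟨by decide +kernel, by decide +kernel, by decide +kernel, by decide +kernel, by decide +kernel, by decide +kernel, by decide +kernel, by decide +kernel⟩

def t43056 : allY (E.wth T2) l43056 = true ∧
    allY (E.wth T2) l43057 = true ∧
    allY (E.wth T2) l43058 = true ∧
    allY (E.wth T2) l43059 = true ∧
    allY (E.wth T2) l43060 = true ∧
    allY (E.wth T2) l43061 = true ∧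
    allY (E.wth T2) l43062 = true ∧
    allY (E.wth T2) l43063 = true :=
  ⟨by decide +kernel, by decide +kernel, by decide +kernel, by decide +kernel, by decide +kernel, by decide +kernel, by decide +kernel, by decide +kernel⟩

def t43064 : allY (E.wth T2) l43064 = true ∧
    allY (E.wth T2) l43065 = true ∧
    allY (E.wth T2) l43066 = true ∧
    allY (E.wth T2) l43067 = true ∧
    allY (E.wth T2) l43068 = true ∧
    allY (E.wth T2) l43069 = true ∧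
    allY (E.wth T2) l43070 = true ∧
    allY (E.wth T2) l43071 = true :=
  ⟨by decide +kernel, by decide +kernel, by decide +kernel, by decide +kernel, by decide +kernel, by decide +kernel, by decide +kernel, by decide +kernel⟩

def t43072 : allY (E.wth T2) l43072 = true ∧
    allY (E.wth T2) l43073 = true ∧
    allY (E.wth T2) l43074 = true ∧
    allY (E.wth T2) l43075 = true ∧
    allY (E.wth T2) l43076 = true ∧
    allY (E.wth T2) l43077 = true ∧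
    allY (E.wth T2) l43078 = true ∧
    allY (E.wth T2) l43079 = true :=
  ⟨by decide +kernel, by decide +kernel, by decide +kernel, by decide +kernel, by decide +kernel, by decide +kernel, by decide +kernel, by decide +kernel⟩

def t43080 : allY (E.wth T2) l43080 = true ∧
    allY (E.wth T2) l43081 = true ∧
    allY (E.wth T2) l43082 = true ∧
    allY (E.wth T2) l43083 = true ∧
    allY (E.wth T2) l43084 = true ∧
    allY (E.wth T2) l43085 = true ∧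
    allY (E.wth T2) l43086 = true ∧
    allY (E.wth T2) l43087 = true :=
  ⟨by decide +kernel, by decide +kernel, by decide +kernel, by decide +kernel, by decide +kernel, by decide +kernel, by decide +kernel, by decide +kernel⟩

def t43088 : allY (E.wth T2) l43088 = true ∧
    allY (E.wth T2) l43089 = true ∧
    allY (E.wth T2) l43090 = true ∧
    allY (E.wth T2) l43091 = true ∧
    allY (E.wth T2) l43092 = true ∧
    allY (E.wth T2) l43093 = true ∧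
    allY (E.wth T2) l43094 = true ∧
    allY (E.wth T2) l43095 = true :=
  ⟨by decide +kernel, by decide +kernel, by decide +kernel, by decide +kernel, by decide +kernel, by decide +kernel, by decide +kernel, by decide +kernel⟩

def t43096 : allY (E.wth T2) l43096 = true ∧
    allY (E.wth T2) l43097 = true ∧
    allY (E.wth T2) l43098 = true ∧
    allY (E.wth T2) l43099 = true ∧
    allY (E.wth T2) l43100 = true ∧
    allY (E.wth T2) l43101 = true ∧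
    allY (E.wth T2) l43102 = true ∧
    allY (E.wth T2) l43103 = true :=
  ⟨by decide +kernel, by decide +kernel, by decide +kernel, by decide +kernel, by decide +kernel, by decide +kernel, by decide +kernel, by decide +kernel⟩

def t43104 : allY (E.wth T2) l43104 = true ∧
    allY (E.wth T2) l43105 = true ∧
    allY (E.wth T2) l43106 = true ∧
    allY (E.wth T2) l43107 = true ∧
    allY (E.wth T2) l43108 = true ∧
    allY (E.wth T2) l43109 = true ∧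
    allY (E.wth T2) l43110 = true ∧
    allY (E.wth T2) l43111 = true :=
  ⟨by decide +kernel, by decide +kernel, by decide +kernel, by decide +kernel, by decide +kernel, by decide +kernel, by decide +kernel, by decide +kernel⟩

def t43112 : allY (E.wth T2) l43112 = true ∧
    allY (E.wth T2) l43113 = true ∧
    allY (E.wth T2) l43114 = true ∧
    allY (E.wth T2) l43115 = true ∧
    allY (E.wth T2) l43116 = true ∧
    allY (E.wth T2) l43117 = true ∧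
    allY (E.wth T2) l43118 = true ∧
    allY (E.wth T2) l43119 = true :=
  ⟨by decide +kernel, by decide +kernel, by decide +kernel, by decide +kernel, by decide +kernel, by decide +kernel, by decide +kernel, by decide +kernel⟩

def t43120 : allY (E.wth T2) l43120 = true ∧
    allY (E.wth T2) l43121 = true ∧
    allY (E.wth T2) l43122 = true ∧
    allY (E.wth T2) l43123 = true ∧
    allY (E.wth T2) l43124 = true ∧
    allY (E.wth T2) l43125 = true ∧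
    allY (E.wth T2) l43126 = true ∧
    allY (E.wth T2) l43127 = true :=
  ⟨by decide +kernel, by decide +kernel, by decide +kernel, by decide +kernel, by decide +kernel, by decide +kernel, by decide +kernel, by decide +kernel⟩

def t43128 : allY (E.wth T2) l43128 = true ∧
    allY (E.wth T2) l43129 = true ∧
    allY (E.wth T2) l43130 = true ∧
    allY (E.wth T2) l43131 = true ∧
    allY (E.wth T2) l43132 = true ∧
    allY (E.wth T2) l43133 = true ∧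
    allY (E.wth T2) l43134 = true ∧
    allY (E.wth T2) l43135 = true :=
  ⟨by decide +kernel, by decide +kernel, by decide +kernel, by decide +kernel, by decide +kernel, by decide +kernel, by decide +kernel, by decide +kernel⟩

def t43136 : allY (E.wth T2) l43136 = true ∧
    allY (E.wth T2) l43137 = true ∧
    allY (E.wth T2) l43138 = true ∧
    allY (E.wth T2) l43139 = true ∧
    allY (E.wth T2) l43140 = true ∧
    allY (E.wth T2) l43141 = true ∧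
    allY (E.wth T2) l43142 = true ∧
    allY (E.wth T2) l43143 = true :=
  ⟨by decide +kernel, by decide +kernel, by decide +kernel, by decide +kernel, by decide +kernel, by decide +kernel, by decide +kernel, by decide +kernel⟩

def t43144 : allY (E.wth T2) l43144 = true ∧
    allY (E.wth T2) l43145 = true ∧
    allY (E.wth T2) l43146 = true ∧
    allY (E.wth T2) l43147 = true ∧
    allY (E.wth T2) l43148 = true ∧
    allY (E.wth T2) l43149 = true ∧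
    allY (E.wth T2) l43150 = true ∧
    allY (E.wth T2) l43151 = true :=
  ⟨by decide +kernel, by decide +kernel, by decide +kernel, by decide +kernel, by decide +kernel, by decide +kernel, by decide +kernel, by decide +kernel⟩

def t43152 : allY (E.wth T2) l43152 = true ∧
    allY (E.wth T2) l43153 = true ∧
    allY (E.wth T2) l43154 = true ∧
    allY (E.wth T2) l43155 = true ∧
    allY (E.wth T2) l43156 = true ∧
    allY (E.wth T2) l43157 = true ∧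
    allY (E.wth T2) l43158 = true ∧
    allY (E.wth T2) l43159 = true :=
  ⟨by decide +kernel, by decide +kernel, by decide +kernel, by decide +kernel, by decide +kernel, by decide +kernel, by decide +kernel, by decide +kernel⟩

def t43160 : allY (E.wth T2) l43160 = true ∧
    allY (E.wth T2) l43161 = true ∧
    allY (E.wth T2) l43162 = true ∧
    allY (E.wth T2) l43163 = true ∧
    allY (E.wth T2) l43164 = true ∧
    allY (E.wth T2) l43165 = true ∧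
    allY (E.wth T2) l43166 = true ∧
    allY (E.wth T2) l43167 = true :=
  ⟨by decide +kernel, by decide +kernel, by decide +kernel, by decide +kernel, by decide +kernel, by decide +kernel, by decide +kernel, by decide +kernel⟩

def t43168 : allY (E.wth T2) l43168 = true ∧
    allY (E.wth T2) l43169 = true ∧
    allY (E.wth T2) l43170 = true ∧
    allY (E.wth T2) l43171 = true ∧
    allY (E.wth T2) l43172 = true ∧
    allY (E.wth T2) l43173 = true ∧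
    allY (E.wth T2) l43174 = true ∧
    allY (E.wth T2) l43175 = true :=
  ⟨by decide +kernel, by decide +kernel, by decide +kernel, by decide +kernel, by decide +kernel, by decide +kernel, by decide +kernel, by decide +kernel⟩

def t43176 : allY (E.wth T2) l43176 = true ∧
    allY (E.wth T2) l43177 = true ∧
    allY (E.wth T2) l43178 = true ∧
    allY (E.wth T2) l43179 = true ∧
    allY (E.wth T2) l43180 = true ∧
    allY (E.wth T2) l43181 = true ∧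
    allY (E.wth T2) l43182 = true ∧
    allY (E.wth T2) l43183 = true :=
  ⟨by decide +kernel, by decide +kernel, by decide +kernel, by decide +kernel, by decide +kernel, by decide +kernel, by decide +kernel, by decide +kernel⟩

def t43184 : allY (E.wth T2) l43184 = true ∧
    allY (E.wth T2) l43185 = true ∧
    allY (E.wth T2) l43186 = true ∧
    allY (E.wth T2) l43187 = true :=
  ⟨by decide +kernel, by decide +kernel, by decide +kernel, by decide +kernel⟩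

theorem a78 {p : Rf → Prop} (H : ∀ l, allY (E.wth T2) l = true → (lkp l).All p) :
    b78.All p := ⟨⟨⟨⟨⟨⟨⟨⟨⟨H _ t42616.1, H _ t42616.2.1⟩, ⟨H _ t42616.2.2.1, H _ t42616.2.2.2.1⟩⟩, ⟨⟨H _ t42616.2.2.2.2.1, H _ t42616.2.2.2.2.2.1⟩, ⟨H _ t42616.2.2.2.2.2.2.1, H _ t42616.2.2.2.2.2.2.2⟩⟩⟩, ⟨⟨⟨H _ t42624.1, H _ t42624.2.1⟩, ⟨H _ t42624.2.2.1, H _ t42624.2.2.2.1⟩⟩, ⟨⟨H _ t42624.2.2.2.2.1, H _ t42624.2.2.2.2.2.1⟩, ⟨H _ t42624.2.2.2.2.2.2.1, ⟨H _ t42624.2.2.2.2.2.2.2, H _ t42632.1⟩⟩⟩⟩⟩, ⟨⟨⟨⟨H _ t42632.2.1, H _ t42632.2.2.1⟩, ⟨H _ t42632.2.2.2.1, H _ t42632.2.2.2.2.1⟩⟩, ⟨⟨H _ t42632.2.2.2.2.2.1, H _ t42632.2.2.2.2.2.2.1⟩, ⟨H _ t42632.2.2.2.2.2.2.2, ⟨H _ t42640.1, H _ t42640.2.1⟩⟩⟩⟩, ⟨⟨⟨H _ t42640.2.2.1, H _ t42640.2.2.2.1⟩, ⟨H _ t42640.2.2.2.2.1, H _ t42640.2.2.2.2.2.1⟩⟩, ⟨⟨H _ t42640.2.2.2.2.2.2.1, H _ t42640.2.2.2.2.2.2.2⟩, ⟨H _ t42648.1, ⟨H _ t42648.2.1, H _ t42648.2.2.1⟩⟩⟩⟩⟩⟩, ⟨⟨⟨⟨⟨H _ t42648.2.2.2.1,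 H _ t42648.2.2.2.2.1⟩, ⟨H _ t42648.2.2.2.2.2.1, H _ t42648.2.2.2.2.2.2.1⟩⟩, ⟨⟨H _ t42648.2.2.2.2.2.2.2, H _ t42656.1⟩, ⟨H _ t42656.2.1, ⟨H _ t42656.2.2.1, H _ t42656.2.2.2.1⟩⟩⟩⟩, ⟨⟨⟨H _ t42656.2.2.2.2.1, H _ t42656.2.2.2.2.2.1⟩, ⟨H _ t42656.2.2.2.2.2.2.1, H _ t42656.2.2.2.2.2.2.2⟩⟩, ⟨⟨H _ t42664.1, H _ t42664.2.1⟩, ⟨H _ t42664.2.2.1, ⟨H _ t42664.2.2.2.1, H _ t42664.2.2.2.2.1⟩⟩⟩⟩⟩, ⟨⟨⟨⟨H _ t42664.2.2.2.2.2.1, H _ t42664.2.2.2.2.2.2.1⟩, ⟨H _ t42664.2.2.2.2.2.2.2, H _ t42672.1⟩⟩, ⟨⟨H _ t42672.2.1, H _ t42672.2.2.1⟩, ⟨H _ t42672.2.2.2.1, ⟨H _ t42672.2.2.2.2.1, H _ t42672.2.2.2.2.2.1⟩⟩⟩⟩, ⟨⟨⟨H _ t42672.2.2.2.2.2.2.1, H _ t42672.2.2.2.2.2.2.2⟩, ⟨H _ t42680.1, H _ t42680.2.1⟩⟩, ⟨⟨H _ t42680.2.2.1, H _ t42680.2.2.2.1⟩, ⟨H _ t42680.2.2.2.2.1, ⟨H _ t42680.2.2.2.2.2.1, H _ t42680.2.2.2.2.2.2.1⟩⟩⟩⟩⟩⟩⟩, ⟨⟨⟨⟨⟨⟨H _ t42680.2.2.2.2.2.2.2, H _ t42688.1⟩, ⟨H _ t42688.2.1, H _ t42688.2.2.1⟩⟩, ⟨⟨H _ t42688.2.2.2.1,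 H _ t42688.2.2.2.2.1⟩, ⟨H _ t42688.2.2.2.2.2.1, ⟨H _ t42688.2.2.2.2.2.2.1, H _ t42688.2.2.2.2.2.2.2⟩⟩⟩⟩, ⟨⟨⟨H _ t42696.1, H _ t42696.2.1⟩, ⟨H _ t42696.2.2.1, H _ t42696.2.2.2.1⟩⟩, ⟨⟨H _ t42696.2.2.2.2.1, H _ t42696.2.2.2.2.2.1⟩, ⟨H _ t42696.2.2.2.2.2.2.1, ⟨H _ t42696.2.2.2.2.2.2.2, H _ t42704.1⟩⟩⟩⟩⟩, ⟨⟨⟨⟨H _ t42704.2.1, H _ t42704.2.2.1⟩, ⟨H _ t42704.2.2.2.1, H _ t42704.2.2.2.2.1⟩⟩, ⟨⟨H _ t42704.2.2.2.2.2.1, H _ t42704.2.2.2.2.2.2.1⟩, ⟨H _ t42704.2.2.2.2.2.2.2, ⟨H _ t42712.1, H _ t42712.2.1⟩⟩⟩⟩, ⟨⟨⟨H _ t42712.2.2.1, H _ t42712.2.2.2.1⟩, ⟨H _ t42712.2.2.2.2.1, H _ t42712.2.2.2.2.2.1⟩⟩, ⟨⟨H _ t42712.2.2.2.2.2.2.1, H _ t42712.2.2.2.2.2.2.2⟩, ⟨H _ t42720.1, ⟨H _ t42720.2.1, H _ t42720.2.2.1⟩⟩⟩⟩⟩⟩, ⟨⟨⟨⟨⟨H _ t42720.2.2.2.1, H _ t42720.2.2.2.2.1⟩, ⟨H _ t42720.2.2.2.2.2.1, H _ t42720.2.2.2.2.2.2.1⟩⟩, ⟨⟨H _ t42720.2.2.2.2.2.2.2, H _ t42728.1⟩, ⟨H _ t42728.2.1, ⟨H _ t42728.2.2.1, H _ t42728.2.2.2.1⟩⟩⟩⟩,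 ⟨⟨⟨H _ t42728.2.2.2.2.1, H _ t42728.2.2.2.2.2.1⟩, ⟨H _ t42728.2.2.2.2.2.2.1, H _ t42728.2.2.2.2.2.2.2⟩⟩, ⟨⟨H _ t42736.1, H _ t42736.2.1⟩, ⟨H _ t42736.2.2.1, ⟨H _ t42736.2.2.2.1, H _ t42736.2.2.2.2.1⟩⟩⟩⟩⟩, ⟨⟨⟨⟨H _ t42736.2.2.2.2.2.1, H _ t42736.2.2.2.2.2.2.1⟩, ⟨H _ t42736.2.2.2.2.2.2.2, H _ t42744.1⟩⟩, ⟨⟨H _ t42744.2.1, H _ t42744.2.2.1⟩, ⟨H _ t42744.2.2.2.1, ⟨H _ t42744.2.2.2.2.1, H _ t42744.2.2.2.2.2.1⟩⟩⟩⟩, ⟨⟨⟨H _ t42744.2.2.2.2.2.2.1, H _ t42744.2.2.2.2.2.2.2⟩, ⟨H _ t42752.1, H _ t42752.2.1⟩⟩, ⟨⟨H _ t42752.2.2.1, H _ t42752.2.2.2.1⟩, ⟨H _ t42752.2.2.2.2.1, ⟨H _ t42752.2.2.2.2.2.1, H _ t42752.2.2.2.2.2.2.1⟩⟩⟩⟩⟩⟩⟩⟩, ⟨⟨⟨⟨⟨⟨⟨H _ t42752.2.2.2.2.2.2.2, H _ t42760.1⟩, ⟨H _ t42760.2.1, H _ t42760.2.2.1⟩⟩, ⟨⟨H _ t42760.2.2.2.1, H _ t42760.2.2.2.2.1⟩, ⟨H _ t42760.2.2.2.2.2.1, H _ t42760.2.2.2.2.2.2.1⟩⟩⟩, ⟨⟨⟨H _ t42760.2.2.2.2.2.2.2, H _ t42768.1⟩, ⟨H _ t42768.2.1, H _ t42768.2.2.1⟩⟩, ⟨⟨H _ t42768.2.2.2.1,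 H _ t42768.2.2.2.2.1⟩, ⟨H _ t42768.2.2.2.2.2.1, ⟨H _ t42768.2.2.2.2.2.2.1, H _ t42768.2.2.2.2.2.2.2⟩⟩⟩⟩⟩, ⟨⟨⟨⟨H _ t42776.1, H _ t42776.2.1⟩, ⟨H _ t42776.2.2.1, H _ t42776.2.2.2.1⟩⟩, ⟨⟨H _ t42776.2.2.2.2.1, H _ t42776.2.2.2.2.2.1⟩, ⟨H _ t42776.2.2.2.2.2.2.1, ⟨H _ t42776.2.2.2.2.2.2.2, H _ t42784.1⟩⟩⟩⟩, ⟨⟨⟨H _ t42784.2.1, H _ t42784.2.2.1⟩, ⟨H _ t42784.2.2.2.1, H _ t42784.2.2.2.2.1⟩⟩, ⟨⟨H _ t42784.2.2.2.2.2.1, H _ t42784.2.2.2.2.2.2.1⟩, ⟨H _ t42784.2.2.2.2.2.2.2, ⟨H _ t42792.1, H _ t42792.2.1⟩⟩⟩⟩⟩⟩, ⟨⟨⟨⟨⟨H _ t42792.2.2.1, H _ t42792.2.2.2.1⟩, ⟨H _ t42792.2.2.2.2.1, H _ t42792.2.2.2.2.2.1⟩⟩, ⟨⟨H _ t42792.2.2.2.2.2.2.1, H _ t42792.2.2.2.2.2.2.2⟩, ⟨H _ t42800.1, ⟨H _ t42800.2.1, H _ t42800.2.2.1⟩⟩⟩⟩, ⟨⟨⟨H _ t42800.2.2.2.1, H _ t42800.2.2.2.2.1⟩, ⟨H _ t42800.2.2.2.2.2.1, H _ t42800.2.2.2.2.2.2.1⟩⟩, ⟨⟨H _ t42800.2.2.2.2.2.2.2, H _ t42808.1⟩, ⟨H _ t42808.2.1, ⟨H _ t42808.2.2.1, H _ t42808.2.2.2.1⟩⟩⟩⟩⟩,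 ⟨⟨⟨⟨H _ t42808.2.2.2.2.1, H _ t42808.2.2.2.2.2.1⟩, ⟨H _ t42808.2.2.2.2.2.2.1, H _ t42808.2.2.2.2.2.2.2⟩⟩, ⟨⟨H _ t42816.1, H _ t42816.2.1⟩, ⟨H _ t42816.2.2.1, ⟨H _ t42816.2.2.2.1, H _ t42816.2.2.2.2.1⟩⟩⟩⟩, ⟨⟨⟨H _ t42816.2.2.2.2.2.1, H _ t42816.2.2.2.2.2.2.1⟩, ⟨H _ t42816.2.2.2.2.2.2.2, H _ t42824.1⟩⟩, ⟨⟨H _ t42824.2.1, H _ t42824.2.2.1⟩, ⟨H _ t42824.2.2.2.1, ⟨H _ t42824.2.2.2.2.1, H _ t42824.2.2.2.2.2.1⟩⟩⟩⟩⟩⟩⟩, ⟨⟨⟨⟨⟨⟨H _ t42824.2.2.2.2.2.2.1, H _ t42824.2.2.2.2.2.2.2⟩, ⟨H _ t42832.1, H _ t42832.2.1⟩⟩, ⟨⟨H _ t42832.2.2.1, H _ t42832.2.2.2.1⟩, ⟨H _ t42832.2.2.2.2.1, ⟨H _ t42832.2.2.2.2.2.1, H _ t42832.2.2.2.2.2.2.1⟩⟩⟩⟩, ⟨⟨⟨H _ t42832.2.2.2.2.2.2.2, H _ t42840.1⟩, ⟨H _ t42840.2.1, H _ t42840.2.2.1⟩⟩, ⟨⟨H _ t42840.2.2.2.1, H _ t42840.2.2.2.2.1⟩, ⟨H _ t42840.2.2.2.2.2.1, ⟨H _ t42840.2.2.2.2.2.2.1, H _ t42840.2.2.2.2.2.2.2⟩⟩⟩⟩⟩, ⟨⟨⟨⟨H _ t42848.1, H _ t42848.2.1⟩, ⟨H _ t42848.2.2.1, H _ t42848.2.2.2.1⟩⟩,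 ⟨⟨H _ t42848.2.2.2.2.1, H _ t42848.2.2.2.2.2.1⟩, ⟨H _ t42848.2.2.2.2.2.2.1, ⟨H _ t42848.2.2.2.2.2.2.2, H _ t42856.1⟩⟩⟩⟩, ⟨⟨⟨H _ t42856.2.1, H _ t42856.2.2.1⟩, ⟨H _ t42856.2.2.2.1, H _ t42856.2.2.2.2.1⟩⟩, ⟨⟨H _ t42856.2.2.2.2.2.1, H _ t42856.2.2.2.2.2.2.1⟩, ⟨H _ t42856.2.2.2.2.2.2.2, ⟨H _ t42864.1, H _ t42864.2.1⟩⟩⟩⟩⟩⟩, ⟨⟨⟨⟨⟨H _ t42864.2.2.1, H _ t42864.2.2.2.1⟩, ⟨H _ t42864.2.2.2.2.1, H _ t42864.2.2.2.2.2.1⟩⟩, ⟨⟨H _ t42864.2.2.2.2.2.2.1, H _ t42864.2.2.2.2.2.2.2⟩, ⟨H _ t42872.1, ⟨H _ t42872.2.1, H _ t42872.2.2.1⟩⟩⟩⟩, ⟨⟨⟨H _ t42872.2.2.2.1, H _ t42872.2.2.2.2.1⟩, ⟨H _ t42872.2.2.2.2.2.1, H _ t42872.2.2.2.2.2.2.1⟩⟩, ⟨⟨H _ t42872.2.2.2.2.2.2.2, H _ t42880.1⟩, ⟨H _ t42880.2.1, ⟨H _ t42880.2.2.1, H _ t42880.2.2.2.1⟩⟩⟩⟩⟩, ⟨⟨⟨⟨H _ t42880.2.2.2.2.1, H _ t42880.2.2.2.2.2.1⟩, ⟨H _ t42880.2.2.2.2.2.2.1, H _ t42880.2.2.2.2.2.2.2⟩⟩, ⟨⟨H _ t42888.1, H _ t42888.2.1⟩, ⟨H _ t42888.2.2.1, ⟨H _ t42888.2.2.2.1,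 H _ t42888.2.2.2.2.1⟩⟩⟩⟩, ⟨⟨⟨H _ t42888.2.2.2.2.2.1, H _ t42888.2.2.2.2.2.2.1⟩, ⟨H _ t42888.2.2.2.2.2.2.2, H _ t42896.1⟩⟩, ⟨⟨H _ t42896.2.1, H _ t42896.2.2.1⟩, ⟨H _ t42896.2.2.2.1, ⟨H _ t42896.2.2.2.2.1, H _ t42896.2.2.2.2.2.1⟩⟩⟩⟩⟩⟩⟩⟩⟩, ⟨⟨⟨⟨⟨⟨⟨⟨H _ t42896.2.2.2.2.2.2.1, H _ t42896.2.2.2.2.2.2.2⟩, ⟨H _ t42904.1, H _ t42904.2.1⟩⟩, ⟨⟨H _ t42904.2.2.1, H _ t42904.2.2.2.1⟩, ⟨H _ t42904.2.2.2.2.1, H _ t42904.2.2.2.2.2.1⟩⟩⟩, ⟨⟨⟨H _ t42904.2.2.2.2.2.2.1, H _ t42904.2.2.2.2.2.2.2⟩, ⟨H _ t42912.1, H _ t42912.2.1⟩⟩, ⟨⟨H _ t42912.2.2.1, H _ t42912.2.2.2.1⟩, ⟨H _ t42912.2.2.2.2.1, ⟨H _ t42912.2.2.2.2.2.1, H _ t42912.2.2.2.2.2.2.1⟩⟩⟩⟩⟩, ⟨⟨⟨⟨H _ t42912.2.2.2.2.2.2.2, H _ t42920.1⟩, ⟨H _ t42920.2.1, H _ t42920.2.2.1⟩⟩, ⟨⟨H _ t42920.2.2.2.1, H _ t42920.2.2.2.2.1⟩, ⟨H _ t42920.2.2.2.2.2.1, ⟨H _ t42920.2.2.2.2.2.2.1, H _ t42920.2.2.2.2.2.2.2⟩⟩⟩⟩, ⟨⟨⟨H _ t42928.1, H _ t42928.2.1⟩, ⟨H _ t42928.2.2.1, H _ t42928.2.2.2.1⟩⟩,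 ⟨⟨H _ t42928.2.2.2.2.1, H _ t42928.2.2.2.2.2.1⟩, ⟨H _ t42928.2.2.2.2.2.2.1, ⟨H _ t42928.2.2.2.2.2.2.2, H _ t42936.1⟩⟩⟩⟩⟩⟩, ⟨⟨⟨⟨⟨H _ t42936.2.1, H _ t42936.2.2.1⟩, ⟨H _ t42936.2.2.2.1, H _ t42936.2.2.2.2.1⟩⟩, ⟨⟨H _ t42936.2.2.2.2.2.1, H _ t42936.2.2.2.2.2.2.1⟩, ⟨H _ t42936.2.2.2.2.2.2.2, ⟨H _ t42944.1, H _ t42944.2.1⟩⟩⟩⟩, ⟨⟨⟨H _ t42944.2.2.1, H _ t42944.2.2.2.1⟩, ⟨H _ t42944.2.2.2.2.1, H _ t42944.2.2.2.2.2.1⟩⟩, ⟨⟨H _ t42944.2.2.2.2.2.2.1, H _ t42944.2.2.2.2.2.2.2⟩, ⟨H _ t42952.1, ⟨H _ t42952.2.1, H _ t42952.2.2.1⟩⟩⟩⟩⟩, ⟨⟨⟨⟨H _ t42952.2.2.2.1, H _ t42952.2.2.2.2.1⟩, ⟨H _ t42952.2.2.2.2.2.1, H _ t42952.2.2.2.2.2.2.1⟩⟩, ⟨⟨H _ t42952.2.2.2.2.2.2.2, H _ t42960.1⟩, ⟨H _ t42960.2.1, ⟨H _ t42960.2.2.1, H _ t42960.2.2.2.1⟩⟩⟩⟩, ⟨⟨⟨H _ t42960.2.2.2.2.1, H _ t42960.2.2.2.2.2.1⟩, ⟨H _ t42960.2.2.2.2.2.2.1, H _ t42960.2.2.2.2.2.2.2⟩⟩, ⟨⟨H _ t42968.1, H _ t42968.2.1⟩, ⟨H _ t42968.2.2.1, ⟨H _ t42968.2.2.2.1,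 H _ t42968.2.2.2.2.1⟩⟩⟩⟩⟩⟩⟩, ⟨⟨⟨⟨⟨⟨H _ t42968.2.2.2.2.2.1, H _ t42968.2.2.2.2.2.2.1⟩, ⟨H _ t42968.2.2.2.2.2.2.2, H _ t42976.1⟩⟩, ⟨⟨H _ t42976.2.1, H _ t42976.2.2.1⟩, ⟨H _ t42976.2.2.2.1, ⟨H _ t42976.2.2.2.2.1, H _ t42976.2.2.2.2.2.1⟩⟩⟩⟩, ⟨⟨⟨H _ t42976.2.2.2.2.2.2.1, H _ t42976.2.2.2.2.2.2.2⟩, ⟨H _ t42984.1, H _ t42984.2.1⟩⟩, ⟨⟨H _ t42984.2.2.1, H _ t42984.2.2.2.1⟩, ⟨H _ t42984.2.2.2.2.1, ⟨H _ t42984.2.2.2.2.2.1, H _ t42984.2.2.2.2.2.2.1⟩⟩⟩⟩⟩, ⟨⟨⟨⟨H _ t42984.2.2.2.2.2.2.2, H _ t42992.1⟩, ⟨H _ t42992.2.1, H _ t42992.2.2.1⟩⟩, ⟨⟨H _ t42992.2.2.2.1, H _ t42992.2.2.2.2.1⟩, ⟨H _ t42992.2.2.2.2.2.1, ⟨H _ t42992.2.2.2.2.2.2.1, H _ t42992.2.2.2.2.2.2.2⟩⟩⟩⟩, ⟨⟨⟨H _ t43000.1, H _ t43000.2.1⟩, ⟨H _ t43000.2.2.1, H _ t43000.2.2.2.1⟩⟩, ⟨⟨H _ t43000.2.2.2.2.1, H _ t43000.2.2.2.2.2.1⟩, ⟨H _ t43000.2.2.2.2.2.2.1, ⟨H _ t43000.2.2.2.2.2.2.2, H _ t43008.1⟩⟩⟩⟩⟩⟩, ⟨⟨⟨⟨⟨H _ t43008.2.1, H _ t43008.2.2.1⟩, ⟨H _ t43008.2.2.2.1,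 H _ t43008.2.2.2.2.1⟩⟩, ⟨⟨H _ t43008.2.2.2.2.2.1, H _ t43008.2.2.2.2.2.2.1⟩, ⟨H _ t43008.2.2.2.2.2.2.2, ⟨H _ t43016.1, H _ t43016.2.1⟩⟩⟩⟩, ⟨⟨⟨H _ t43016.2.2.1, H _ t43016.2.2.2.1⟩, ⟨H _ t43016.2.2.2.2.1, H _ t43016.2.2.2.2.2.1⟩⟩, ⟨⟨H _ t43016.2.2.2.2.2.2.1, H _ t43016.2.2.2.2.2.2.2⟩, ⟨H _ t43024.1, ⟨H _ t43024.2.1, H _ t43024.2.2.1⟩⟩⟩⟩⟩, ⟨⟨⟨⟨H _ t43024.2.2.2.1, H _ t43024.2.2.2.2.1⟩, ⟨H _ t43024.2.2.2.2.2.1, H _ t43024.2.2.2.2.2.2.1⟩⟩, ⟨⟨H _ t43024.2.2.2.2.2.2.2, H _ t43032.1⟩, ⟨H _ t43032.2.1, ⟨H _ t43032.2.2.1, H _ t43032.2.2.2.1⟩⟩⟩⟩, ⟨⟨⟨H _ t43032.2.2.2.2.1, H _ t43032.2.2.2.2.2.1⟩, ⟨H _ t43032.2.2.2.2.2.2.1, H _ t43032.2.2.2.2.2.2.2⟩⟩, ⟨⟨H _ t43040.1, H _ t43040.2.1⟩, ⟨H _ t43040.2.2.1, ⟨H _ t43040.2.2.2.1, H _ t43040.2.2.2.2.1⟩⟩⟩⟩⟩⟩⟩⟩, ⟨⟨⟨⟨⟨⟨⟨H _ t43040.2.2.2.2.2.1, H _ t43040.2.2.2.2.2.2.1⟩, ⟨H _ t43040.2.2.2.2.2.2.2, H _ t43048.1⟩⟩, ⟨⟨H _ t43048.2.1, H _ t43048.2.2.1⟩, ⟨H _ t43048.2.2.2.1,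 H _ t43048.2.2.2.2.1⟩⟩⟩, ⟨⟨⟨H _ t43048.2.2.2.2.2.1, H _ t43048.2.2.2.2.2.2.1⟩, ⟨H _ t43048.2.2.2.2.2.2.2, H _ t43056.1⟩⟩, ⟨⟨H _ t43056.2.1, H _ t43056.2.2.1⟩, ⟨H _ t43056.2.2.2.1, ⟨H _ t43056.2.2.2.2.1, H _ t43056.2.2.2.2.2.1⟩⟩⟩⟩⟩, ⟨⟨⟨⟨H _ t43056.2.2.2.2.2.2.1, H _ t43056.2.2.2.2.2.2.2⟩, ⟨H _ t43064.1, H _ t43064.2.1⟩⟩, ⟨⟨H _ t43064.2.2.1, H _ t43064.2.2.2.1⟩, ⟨H _ t43064.2.2.2.2.1, ⟨H _ t43064.2.2.2.2.2.1, H _ t43064.2.2.2.2.2.2.1⟩⟩⟩⟩, ⟨⟨⟨H _ t43064.2.2.2.2.2.2.2, H _ t43072.1⟩, ⟨H _ t43072.2.1, H _ t43072.2.2.1⟩⟩, ⟨⟨H _ t43072.2.2.2.1, H _ t43072.2.2.2.2.1⟩, ⟨H _ t43072.2.2.2.2.2.1, ⟨H _ t43072.2.2.2.2.2.2.1, H _ t43072.2.2.2.2.2.2.2⟩⟩⟩⟩⟩⟩, ⟨⟨⟨⟨⟨H _ t43080.1, H _ t43080.2.1⟩, ⟨H _ t43080.2.2.1, H _ t43080.2.2.2.1⟩⟩, ⟨⟨H _ t43080.2.2.2.2.1, H _ t43080.2.2.2.2.2.1⟩, ⟨H _ t43080.2.2.2.2.2.2.1, ⟨H _ t43080.2.2.2.2.2.2.2, H _ t43088.1⟩⟩⟩⟩, ⟨⟨⟨H _ t43088.2.1, H _ t43088.2.2.1⟩, ⟨H _ t43088.2.2.2.1,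 H _ t43088.2.2.2.2.1⟩⟩, ⟨⟨H _ t43088.2.2.2.2.2.1, H _ t43088.2.2.2.2.2.2.1⟩, ⟨H _ t43088.2.2.2.2.2.2.2, ⟨H _ t43096.1, H _ t43096.2.1⟩⟩⟩⟩⟩, ⟨⟨⟨⟨H _ t43096.2.2.1, H _ t43096.2.2.2.1⟩, ⟨H _ t43096.2.2.2.2.1, H _ t43096.2.2.2.2.2.1⟩⟩, ⟨⟨H _ t43096.2.2.2.2.2.2.1, H _ t43096.2.2.2.2.2.2.2⟩, ⟨H _ t43104.1, ⟨H _ t43104.2.1, H _ t43104.2.2.1⟩⟩⟩⟩, ⟨⟨⟨H _ t43104.2.2.2.1, H _ t43104.2.2.2.2.1⟩, ⟨H _ t43104.2.2.2.2.2.1, H _ t43104.2.2.2.2.2.2.1⟩⟩, ⟨⟨H _ t43104.2.2.2.2.2.2.2, H _ t43112.1⟩, ⟨H _ t43112.2.1, ⟨H _ t43112.2.2.1, H _ t43112.2.2.2.1⟩⟩⟩⟩⟩⟩⟩, ⟨⟨⟨⟨⟨⟨H _ t43112.2.2.2.2.1, H _ t43112.2.2.2.2.2.1⟩, ⟨H _ t43112.2.2.2.2.2.2.1, H _ t43112.2.2.2.2.2.2.2⟩⟩, ⟨⟨H _ t43120.1, H _ t43120.2.1⟩, ⟨H _ t43120.2.2.1, ⟨H _ t43120.2.2.2.1, H _ t43120.2.2.2.2.1⟩⟩⟩⟩, ⟨⟨⟨H _ t43120.2.2.2.2.2.1, H _ t43120.2.2.2.2.2.2.1⟩, ⟨H _ t43120.2.2.2.2.2.2.2, H _ t43128.1⟩⟩, ⟨⟨H _ t43128.2.1, H _ t43128.2.2.1⟩, ⟨H _ t43128.2.2.2.1,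 ⟨H _ t43128.2.2.2.2.1, H _ t43128.2.2.2.2.2.1⟩⟩⟩⟩⟩, ⟨⟨⟨⟨H _ t43128.2.2.2.2.2.2.1, H _ t43128.2.2.2.2.2.2.2⟩, ⟨H _ t43136.1, H _ t43136.2.1⟩⟩, ⟨⟨H _ t43136.2.2.1, H _ t43136.2.2.2.1⟩, ⟨H _ t43136.2.2.2.2.1, ⟨H _ t43136.2.2.2.2.2.1, H _ t43136.2.2.2.2.2.2.1⟩⟩⟩⟩, ⟨⟨⟨H _ t43136.2.2.2.2.2.2.2, H _ t43144.1⟩, ⟨H _ t43144.2.1, H _ t43144.2.2.1⟩⟩, ⟨⟨H _ t43144.2.2.2.1, H _ t43144.2.2.2.2.1⟩, ⟨H _ t43144.2.2.2.2.2.1, ⟨H _ t43144.2.2.2.2.2.2.1, H _ t43144.2.2.2.2.2.2.2⟩⟩⟩⟩⟩⟩, ⟨⟨⟨⟨⟨H _ t43152.1, H _ t43152.2.1⟩, ⟨H _ t43152.2.2.1, H _ t43152.2.2.2.1⟩⟩, ⟨⟨H _ t43152.2.2.2.2.1, H _ t43152.2.2.2.2.2.1⟩, ⟨H _ t43152.2.2.2.2.2.2.1, ⟨H _ t43152.2.2.2.2.2.2.2, H _ t43160.1⟩⟩⟩⟩, ⟨⟨⟨H _ t43160.2.1, H _ t43160.2.2.1⟩, ⟨H _ t43160.2.2.2.1, H _ t43160.2.2.2.2.1⟩⟩, ⟨⟨H _ t43160.2.2.2.2.2.1, H _ t43160.2.2.2.2.2.2.1⟩, ⟨H _ t43160.2.2.2.2.2.2.2, ⟨H _ t43168.1, H _ t43168.2.1⟩⟩⟩⟩⟩, ⟨⟨⟨⟨H _ t43168.2.2.1, H _ t43168.2.2.2.1⟩,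 ⟨H _ t43168.2.2.2.2.1, H _ t43168.2.2.2.2.2.1⟩⟩, ⟨⟨H _ t43168.2.2.2.2.2.2.1, H _ t43168.2.2.2.2.2.2.2⟩, ⟨H _ t43176.1, ⟨H _ t43176.2.1, H _ t43176.2.2.1⟩⟩⟩⟩, ⟨⟨⟨H _ t43176.2.2.2.1, H _ t43176.2.2.2.2.1⟩, ⟨H _ t43176.2.2.2.2.2.1, H _ t43176.2.2.2.2.2.2.1⟩⟩, ⟨⟨H _ t43176.2.2.2.2.2.2.2, H _ t43184.1⟩, ⟨H _ t43184.2.1, ⟨H _ t43184.2.2.1, H _ t43184.2.2.2⟩⟩⟩⟩⟩⟩⟩⟩⟩⟩

end Pool.Agent.MP_c853c5_nt.X.C4950
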