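import Pool.Agent.MP_c853c5_nt.X.C4950.Env
import Pool.Agent.MP_c853c5_nt.X.C4950.Tab

set_option autoImplicit false
set_option maxRecDepth 8192
set_option linter.all false

namespace Pool.Agent.MP_c853c5_nt.X.C4950

open Pool.Agent.MP_c853c5_nt.X

def t43188 : allY (E.wth T2) l43188 = true ∧
    allY (E.wth T2) l43189 = true ∧
    allY (E.wth T2) l43190 = true ∧
    allY (E.wth T2) l43191 = true ∧
    allY (E.wth T2) l43192 = true ∧
    allY (E.wth T2) l43193 = true ∧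
    allY (E.wth T2) l43194 = true ∧
    allY (E.wth T2) l43195 = true :=
  ⟨by decide +kernel, by decide +kernel, by decide +kernel, by decide +kernel, by decide +kernel, by decide +kernel, by decide +kernel, by decide +kernel⟩

def t43196 : allY (E.wth T2) l43196 = true ∧
    allY (E.wth T2) l43197 = true ∧
    allY (E.wth T2) l43198 = true ∧
    allY (E.wth T2) l43199 = true ∧
    allY (E.wth T2) l43200 = true ∧
    allY (E.wth T2) l43201 = true ∧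
    allY (E.wth T2) l43202 = true ∧
    allY (E.wth T2) l43203 = true :=
  ⟨by decide +kernel, by decide +kernel, by decide +kernel, by decide +kernel, by decide +kernel, by decide +kernel, by decide +kernel, by decide +kernel⟩

def t43204 : allY (E.wth T2) l43204 = true ∧
    allY (E.wth T2) l43205 = true ∧
    allY (E.wth T2) l43206 = true ∧
    allY (E.wth T2) l43207 = true ∧
    allY (E.wth T2) l43208 = true ∧
    allY (E.wth T2) l43209 = true ∧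
    allY (E.wth T2) l43210 = true ∧
    allY (E.wth T2) l43211 = true :=
  ⟨by decide +kernel, by decide +kernel, by decide +kernel, by decide +kernel, by decide +kernel, by decide +kernel, by decide +kernel, by decide +kernel⟩

def t43212 : allY (E.wth T2) l43212 = true ∧
    allY (E.wth T2) l43213 = true ∧
    allY (E.wth T2) l43214 = true ∧
    allY (E.wth T2) l43215 = true ∧
    allY (E.wth T2) l43216 = true ∧
    allY (E.wth T2) l43217 = true ∧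
    allY (E.wth T2) l43218 = true ∧
    allY (E.wth T2) l43219 = true :=
  ⟨by decide +kernel, by decide +kernel, by decide +kernel, by decide +kernel, by decide +kernel, by decide +kernel, by decide +kernel, by decide +kernel⟩

def t43220 : allY (E.wth T2) l43220 = true ∧
    allY (E.wth T2) l43221 = true ∧
    allY (E.wth T2) l43222 = true ∧
    allY (E.wth T2) l43223 = true ∧
    allY (E.wth T2) l43224 = true ∧
    allY (E.wth T2) l43225 = true ∧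
    allY (E.wth T2) l43226 = true ∧
    allY (E.wth T2) l43227 = true :=
  ⟨by decide +kernel, by decide +kernel, by decide +kernel, by decide +kernel, by decide +kernel, by decide +kernel, by decide +kernel, by decide +kernel⟩

def t43228 : allY (E.wth T2) l43228 = true ∧
    allY (E.wth T2) l43229 = true ∧
    allY (E.wth T2) l43230 = true ∧
    allY (E.wth T2) l43231 = true ∧
    allY (E.wth T2) l43232 = true ∧
    allY (E.wth T2) l43233 = true ∧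
    allY (E.wth T2) l43234 = true ∧
    allY (E.wth T2) l43235 = true :=
  ⟨by decide +kernel, by decide +kernel, by decide +kernel, by decide +kernel, by decide +kernel, by decide +kernel, by decide +kernel, by decide +kernel⟩

def t43236 : allY (E.wth T2) l43236 = true ∧
    allY (E.wth T2) l43237 = true ∧
    allY (E.wth T2) l43238 = true ∧
    allY (E.wth T2) l43239 = true ∧
    allY (E.wth T2) l43240 = true ∧
    allY (E.wth T2) l43241 = true ∧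
    allY (E.wth T2) l43242 = true ∧
    allY (E.wth T2) l43243 = true :=
  ⟨by decide +kernel, by decide +kernel, by decide +kernel, by decide +kernel, by decide +kernel, by decide +kernel, by decide +kernel, by decide +kernel⟩

def t43244 : allY (E.wth T2) l43244 = true ∧
    allY (E.wth T2) l43245 = true ∧
    allY (E.wth T2) l43246 = true ∧
    allY (E.wth T2) l43247 = true ∧
    allY (E.wth T2) l43248 = true ∧
    allY (E.wth T2) l43249 = true ∧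
    allY (E.wth T2) l43250 = true ∧
    allY (E.wth T2) l43251 = true :=
  ⟨by decide +kernel, by decide +kernel, by decide +kernel, by decide +kernel, by decide +kernel, by decide +kernel, by decide +kernel, by decide +kernel⟩

def t43252 : allY (E.wth T2) l43252 = true ∧
    allY (E.wth T2) l43253 = true ∧
    allY (E.wth T2) l43254 = true ∧
    allY (E.wth T2) l43255 = true ∧
    allY (E.wth T2) l43256 = true ∧
    allY (E.wth T2) l43257 = true ∧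
    allY (E.wth T2) l43258 = true ∧
    allY (E.wth T2) l43259 = true :=
  ⟨by decide +kernel, by decide +kernel, by decide +kernel, by decide +kernel, by decide +kernel, by decide +kernel, by decide +kernel, by decide +kernel⟩

def t43260 : allY (E.wth T2) l43260 = true ∧
    allY (E.wth T2) l43261 = true ∧
    allY (E.wth T2) l43262 = true ∧
    allY (E.wth T2) l43263 = true ∧
    allY (E.wth T2) l43264 = true ∧
    allY (E.wth T2) l43265 = true ∧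
    allY (E.wth T2) l43266 = true ∧
    allY (E.wth T2) l43267 = true :=
  ⟨by decide +kernel, by decide +kernel, by decide +kernel, by decide +kernel, by decide +kernel, by decide +kernel, by decide +kernel, by decide +kernel⟩

def t43268 : allY (E.wth T2) l43268 = true ∧
    allY (E.wth T2) l43269 = true ∧
    allY (E.wth T2) l43270 = true ∧
    allY (E.wth T2) l43271 = true ∧
    allY (E.wth T2) l43272 = true ∧
    allY (E.wth T2) l43273 = true ∧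
    allY (E.wth T2) l43274 = true ∧
    allY (E.wth T2) l43275 = true :=
  ⟨by decide +kernel, by decide +kernel, by decide +kernel, by decide +kernel, by decide +kernel, by decide +kernel, by decide +kernel, by decide +kernel⟩

def t43276 : allY (E.wth T2) l43276 = true ∧
    allY (E.wth T2) l43277 = true ∧
    allY (E.wth T2) l43278 = true ∧
    allY (E.wth T2) l43279 = true ∧
    allY (E.wth T2) l43280 = true ∧
    allY (E.wth T2) l43281 = true ∧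
    allY (E.wth T2) l43282 = true ∧
    allY (E.wth T2) l43283 = true :=
  ⟨by decide +kernel, by decide +kernel, by decide +kernel, by decide +kernel, by decide +kernel, by decide +kernel, by decide +kernel, by decide +kernel⟩

def t43284 : allY (E.wth T2) l43284 = true ∧
    allY (E.wth T2) l43285 = true ∧
    allY (E.wth T2) l43286 = true ∧
    allY (E.wth T2) l43287 = true ∧
    allY (E.wth T2) l43288 = true ∧
    allY (E.wth T2) l43289 = true ∧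
    allY (E.wth T2) l43290 = true ∧
    allY (E.wth T2) l43291 = true :=
  ⟨by decide +kernel, by decide +kernel, by decide +kernel, by decide +kernel, by decide +kernel, by decide +kernel, by decide +kernel, by decide +kernel⟩

def t43292 : allY (E.wth T2) l43292 = true ∧
    allY (E.wth T2) l43293 = true ∧
    allY (E.wth T2) l43294 = true ∧
    allY (E.wth T2) l43295 = true ∧
    allY (E.wth T2) l43296 = true ∧
    allY (E.wth T2) l43297 = true ∧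
    allY (E.wth T2) l43298 = true ∧
    allY (E.wth T2) l43299 = true :=
  ⟨by decide +kernel, by decide +kernel, by decide +kernel, by decide +kernel, by decide +kernel, by decide +kernel, by decide +kernel, by decide +kernel⟩

def t43300 : allY (E.wth T2) l43300 = true ∧
    allY (E.wth T2) l43301 = true ∧
    allY (E.wth T2) l43302 = true ∧
    allY (E.wth T2) l43303 = true ∧
    allY (E.wth T2) l43304 = true ∧
    allY (E.wth T2) l43305 = true ∧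
    allY (E.wth T2) l43306 = true ∧
    allY (E.wth T2) l43307 = true :=
  ⟨by decide +kernel, by decide +kernel, by decide +kernel, by decide +kernel, by decide +kernel, by decide +kernel, by decide +kernel, by decide +kernel⟩

def t43308 : allY (E.wth T2) l43308 = true ∧
    allY (E.wth T2) l43309 = true ∧
    allY (E.wth T2) l43310 = true ∧
    allY (E.wth T2) l43311 = true ∧
    allY (E.wth T2) l43312 = true ∧
    allY (E.wth T2) l43313 = true ∧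
    allY (E.wth T2) l43314 = true ∧
    allY (E.wth T2) l43315 = true :=
  ⟨by decide +kernel, by decide +kernel, by decide +kernel, by decide +kernel, by decide +kernel, by decide +kernel, by decide +kernel, by decide +kernel⟩

def t43316 : allY (E.wth T2) l43316 = true ∧
    allY (E.wth T2) l43317 = true ∧
    allY (E.wth T2) l43318 = true ∧
    allY (E.wth T2) l43319 = true ∧
    allY (E.wth T2) l43320 = true ∧
    allY (E.wth T2) l43321 = true ∧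
    allY (E.wth T2) l43322 = true ∧
    allY (E.wth T2) l43323 = true :=
  ⟨by decide +kernel, by decide +kernel, by decide +kernel, by decide +kernel, by decide +kernel, by decide +kernel, by decide +kernel, by decide +kernel⟩

def t43324 : allY (E.wth T2) l43324 = true ∧
    allY (E.wth T2) l43325 = true ∧
    allY (E.wth T2) l43326 = true ∧
    allY (E.wth T2) l43327 = true ∧
    allY (E.wth T2) l43328 = true ∧
    allY (E.wth T2) l43329 = true ∧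
    allY (E.wth T2) l43330 = true ∧
    allY (E.wth T2) l43331 = true :=
  ⟨by decide +kernel, by decide +kernel, by decide +kernel, by decide +kernel, by decide +kernel, by decide +kernel, by decide +kernel, by decide +kernel⟩

def t43332 : allY (E.wth T2) l43332 = true ∧
    allY (E.wth T2) l43333 = true ∧
    allY (E.wth T2) l43334 = true ∧
    allY (E.wth T2) l43335 = true ∧
    allY (E.wth T2) l43336 = true ∧
    allY (E.wth T2) l43337 = true ∧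
    allY (E.wth T2) l43338 = true ∧
    allY (E.wth T2) l43339 = true :=
  ⟨by decide +kernel, by decide +kernel, by decide +kernel, by decide +kernel, by decide +kernel, by decide +kernel, by decide +kernel, by decide +kernel⟩

def t43340 : allY (E.wth T2) l43340 = true ∧
    allY (E.wth T2) l43341 = true ∧
    allY (E.wth T2) l43342 = true ∧
    allY (E.wth T2) l43343 = true ∧
    allY (E.wth T2) l43344 = true ∧
    allY (E.wth T2) l43345 = true ∧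
    allY (E.wth T2) l43346 = true ∧
    allY (E.wth T2) l43347 = true :=
  ⟨by decide +kernel, by decide +kernel, by decide +kernel, by decide +kernel, by decide +kernel, by decide +kernel, by decide +kernel, by decide +kernel⟩

def t43348 : allY (E.wth T2) l43348 = true ∧
    allY (E.wth T2) l43349 = true ∧
    allY (E.wth T2) l43350 = true ∧
    allY (E.wth T2) l43351 = true ∧
    allY (E.wth T2) l43352 = true ∧
    allY (E.wth T2) l43353 = true ∧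
    allY (E.wth T2) l43354 = true ∧
    allY (E.wth T2) l43355 = true :=
  ⟨by decide +kernel, by decide +kernel, by decide +kernel, by decide +kernel, by decide +kernel, by decide +kernel, by decide +kernel, by decide +kernel⟩

def t43356 : allY (E.wth T2) l43356 = true ∧
    allY (E.wth T2) l43357 = true ∧
    allY (E.wth T2) l43358 = true ∧
    allY (E.wth T2) l43359 = true ∧
    allY (E.wth T2) l43360 = true ∧
    allY (E.wth T2) l43361 = true ∧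
    allY (E.wth T2) l43362 = true ∧
    allY (E.wth T2) l43363 = true :=
  ⟨by decide +kernel, by decide +kernel, by decide +kernel, by decide +kernel, by decide +kernel, by decide +kernel, by decide +kernel, by decide +kernel⟩

def t43364 : allY (E.wth T2) l43364 = true ∧
    allY (E.wth T2) l43365 = true ∧
    allY (E.wth T2) l43366 = true ∧
    allY (E.wth T2) l43367 = true ∧
    allY (E.wth T2) l43368 = true ∧
    allY (E.wth T2) l43369 = true ∧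
    allY (E.wth T2) l43370 = true ∧
    allY (E.wth T2) l43371 = true :=
  ⟨by decide +kernel, by decide +kernel, by decide +kernel, by decide +kernel, by decide +kernel, by decide +kernel, by decide +kernel, by decide +kernel⟩

def t43372 : allY (E.wth T2) l43372 = true ∧
    allY (E.wth T2) l43373 = true ∧
    allY (E.wth T2) l43374 = true ∧
    allY (E.wth T2) l43375 = true ∧
    allY (E.wth T2) l43376 = true ∧
    allY (E.wth T2) l43377 = true ∧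
    allY (E.wth T2) l43378 = true ∧
    allY (E.wth T2) l43379 = true :=
  ⟨by decide +kernel, by decide +kernel, by decide +kernel, by decide +kernel, by decide +kernel, by decide +kernel, by decide +kernel, by decide +kernel⟩

def t43380 : allY (E.wth T2) l43380 = true ∧
    allY (E.wth T2) l43381 = true ∧
    allY (E.wth T2) l43382 = true ∧
    allY (E.wth T2) l43383 = true ∧
    allY (E.wth T2) l43384 = true ∧
    allY (E.wth T2) l43385 = true ∧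
    allY (E.wth T2) l43386 = true ∧
    allY (E.wth T2) l43387 = true :=
  ⟨by decide +kernel, by decide +kernel, by decide +kernel, by decide +kernel, by decide +kernel, by decide +kernel, by decide +kernel, by decide +kernel⟩

def t43388 : allY (E.wth T2) l43388 = true ∧
    allY (E.wth T2) l43389 = true ∧
    allY (E.wth T2) l43390 = true ∧
    allY (E.wth T2) l43391 = true ∧
    allY (E.wth T2) l43392 = true ∧
    allY (E.wth T2) l43393 = true ∧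
    allY (E.wth T2) l43394 = true ∧
    allY (E.wth T2) l43395 = true :=
  ⟨by decide +kernel, by decide +kernel, by decide +kernel, by decide +kernel, by decide +kernel, by decide +kernel, by decide +kernel, by decide +kernel⟩

def t43396 : allY (E.wth T2) l43396 = true ∧
    allY (E.wth T2) l43397 = true ∧
    allY (E.wth T2) l43398 = true ∧
    allY (E.wth T2) l43399 = true ∧
    allY (E.wth T2) l43400 = true ∧
    allY (E.wth T2) l43401 = true ∧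
    allY (E.wth T2) l43402 = true ∧
    allY (E.wth T2) l43403 = true :=
  ⟨by decide +kernel, by decide +kernel, by decide +kernel, by decide +kernel, by decide +kernel, by decide +kernel, by decide +kernel, by decide +kernel⟩

def t43404 : allY (E.wth T2) l43404 = true ∧
    allY (E.wth T2) l43405 = true ∧
    allY (E.wth T2) l43406 = true ∧
    allY (E.wth T2) l43407 = true ∧
    allY (E.wth T2) l43408 = true ∧
    allY (E.wth T2) l43409 = true ∧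
    allY (E.wth T2) l43410 = true ∧
    allY (E.wth T2) l43411 = true :=
  ⟨by decide +kernel, by decide +kernel, by decide +kernel, by decide +kernel, by decide +kernel, by decide +kernel, by decide +kernel, by decide +kernel⟩

def t43412 : allY (E.wth T2) l43412 = true ∧
    allY (E.wth T2) l43413 = true ∧
    allY (E.wth T2) l43414 = true ∧
    allY (E.wth T2) l43415 = true ∧
    allY (E.wth T2) l43416 = true ∧
    allY (E.wth T2) l43417 = true ∧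
    allY (E.wth T2) l43418 = true ∧
    allY (E.wth T2) l43419 = true :=
  ⟨by decide +kernel, by decide +kernel, by decide +kernel, by decide +kernel, by decide +kernel, by decide +kernel, by decide +kernel, by decide +kernel⟩

def t43420 : allY (E.wth T2) l43420 = true ∧
    allY (E.wth T2) l43421 = true ∧
    allY (E.wth T2) l43422 = true ∧
    allY (E.wth T2) l43423 = true ∧
    allY (E.wth T2) l43424 = true ∧
    allY (E.wth T2) l43425 = true ∧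
    allY (E.wth T2) l43426 = true ∧
    allY (E.wth T2) l43427 = true :=
  ⟨by decide +kernel, by decide +kernel, by decide +kernel, by decide +kernel, by decide +kernel, by decide +kernel, by decide +kernel, by decide +kernel⟩

def t43428 : allY (E.wth T2) l43428 = true ∧
    allY (E.wth T2) l43429 = true ∧
    allY (E.wth T2) l43430 = true ∧
    allY (E.wth T2) l43431 = true ∧
    allY (E.wth T2) l43432 = true ∧
    allY (E.wth T2) l43433 = true ∧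
    allY (E.wth T2) l43434 = true ∧
    allY (E.wth T2) l43435 = true :=
  ⟨by decide +kernel, by decide +kernel, by decide +kernel, by decide +kernel, by decide +kernel, by decide +kernel, by decide +kernel, by decide +kernel⟩

def t43436 : allY (E.wth T2) l43436 = true ∧
    allY (E.wth T2) l43437 = true ∧
    allY (E.wth T2) l43438 = true ∧
    allY (E.wth T2) l43439 = true ∧
    allY (E.wth T2) l43440 = true ∧
    allY (E.wth T2) l43441 = true ∧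
    allY (E.wth T2) l43442 = true ∧
    allY (E.wth T2) l43443 = true :=
  ⟨by decide +kernel, by decide +kernel, by decide +kernel, by decide +kernel, by decide +kernel, by decide +kernel, by decide +kernel, by decide +kernel⟩

def t43444 : allY (E.wth T2) l43444 = true ∧
    allY (E.wth T2) l43445 = true ∧
    allY (E.wth T2) l43446 = true ∧
    allY (E.wth T2) l43447 = true ∧
    allY (E.wth T2) l43448 = true ∧
    allY (E.wth T2) l43449 = true ∧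
    allY (E.wth T2) l43450 = true ∧
    allY (E.wth T2) l43451 = true :=
  ⟨by decide +kernel, by decide +kernel, by decide +kernel, by decide +kernel, by decide +kernel, by decide +kernel, by decide +kernel, by decide +kernel⟩

def t43452 : allY (E.wth T2) l43452 = true ∧
    allY (E.wth T2) l43453 = true ∧
    allY (E.wth T2) l43454 = true ∧
    allY (E.wth T2) l43455 = true ∧
    allY (E.wth T2) l43456 = true ∧
    allY (E.wth T2) l43457 = true ∧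
    allY (E.wth T2) l43458 = true ∧
    allY (E.wth T2) l43459 = true :=
  ⟨by decide +kernel, by decide +kernel, by decide +kernel, by decide +kernel, by decide +kernel, by decide +kernel, by decide +kernel, by decide +kernel⟩

def t43460 : allY (E.wth T2) l43460 = true ∧
    allY (E.wth T2) l43461 = true ∧
    allY (E.wth T2) l43462 = true ∧
    allY (E.wth T2) l43463 = true ∧
    allY (E.wth T2) l43464 = true ∧
    allY (E.wth T2) l43465 = true ∧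
    allY (E.wth T2) l43466 = true ∧
    allY (E.wth T2) l43467 = true :=
  ⟨by decide +kernel, by decide +kernel, by decide +kernel, by decide +kernel, by decide +kernel, by decide +kernel, by decide +kernel, by decide +kernel⟩

def t43468 : allY (E.wth T2) l43468 = true ∧
    allY (E.wth T2) l43469 = true ∧
    allY (E.wth T2) l43470 = true ∧
    allY (E.wth T2) l43471 = true ∧
    allY (E.wth T2) l43472 = true ∧
    allY (E.wth T2) l43473 = true ∧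
    allY (E.wth T2) l43474 = true ∧
    allY (E.wth T2) l43475 = true :=
  ⟨by decide +kernel, by decide +kernel, by decide +kernel, by decide +kernel, by decide +kernel, by decide +kernel, by decide +kernel, by decide +kernel⟩

def t43476 : allY (E.wth T2) l43476 = true ∧
    allY (E.wth T2) l43477 = true ∧
    allY (E.wth T2) l43478 = true ∧
    allY (E.wth T2) l43479 = true ∧
    allY (E.wth T2) l43480 = true ∧
    allY (E.wth T2) l43481 = true ∧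
    allY (E.wth T2) l43482 = true ∧
    allY (E.wth T2) l43483 = true :=
  ⟨by decide +kernel, by decide +kernel, by decide +kernel, by decide +kernel, by decide +kernel, by decide +kernel, by decide +kernel, by decide +kernel⟩

def t43484 : allY (E.wth T2) l43484 = true ∧
    allY (E.wth T2) l43485 = true ∧
    allY (E.wth T2) l43486 = true ∧
    allY (E.wth T2) l43487 = true ∧
    allY (E.wth T2) l43488 = true ∧
    allY (E.wth T2) l43489 = true ∧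
    allY (E.wth T2) l43490 = true ∧
    allY (E.wth T2) l43491 = true :=
  ⟨by decide +kernel, by decide +kernel, by decide +kernel, by decide +kernel, by decide +kernel, by decide +kernel, by decide +kernel, by decide +kernel⟩

def t43492 : allY (E.wth T2) l43492 = true ∧
    allY (E.wth T2) l43493 = true ∧
    allY (E.wth T2) l43494 = true ∧
    allY (E.wth T2) l43495 = true ∧
    allY (E.wth T2) l43496 = true ∧
    allY (E.wth T2) l43497 = true ∧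
    allY (E.wth T2) l43498 = true ∧
    allY (E.wth T2) l43499 = true :=
  ⟨by decide +kernel, by decide +kernel, by decide +kernel, by decide +kernel, by decide +kernel, by decide +kernel, by decide +kernel, by decide +kernel⟩

def t43500 : allY (E.wth T2) l43500 = true ∧
    allY (E.wth T2) l43501 = true ∧
    allY (E.wth T2) l43502 = true ∧
    allY (E.wth T2) l43503 = true ∧
    allY (E.wth T2) l43504 = true ∧
    allY (E.wth T2) l43505 = true ∧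
    allY (E.wth T2) l43506 = true ∧
    allY (E.wth T2) l43507 = true :=
  ⟨by decide +kernel, by decide +kernel, by decide +kernel, by decide +kernel, by decide +kernel, by decide +kernel, by decide +kernel, by decide +kernel⟩

def t43508 : allY (E.wth T2) l43508 = true ∧
    allY (E.wth T2) l43509 = true ∧
    allY (E.wth T2) l43510 = true ∧
    allY (E.wth T2) l43511 = true ∧
    allY (E.wth T2) l43512 = true ∧
    allY (E.wth T2) l43513 = true :=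
  ⟨by decide +kernel, by decide +kernel, by decide +kernel, by decide +kernel, by decide +kernel, by decide +kernel⟩

theorem a79 {p : Rf → Prop} (H : ∀ l, allY (E.wth T2) l = true → (lkp l).All p) :
    b79.All p := ⟨⟨⟨⟨⟨⟨⟨⟨H _ t43188.1, H _ t43188.2.1⟩, ⟨H _ t43188.2.2.1, ⟨H _ t43188.2.2.2.1, H _ t43188.2.2.2.2.1⟩⟩⟩, ⟨⟨H _ t43188.2.2.2.2.2.1, H _ t43188.2.2.2.2.2.2.1⟩, ⟨H _ t43188.2.2.2.2.2.2.2, ⟨H _ t43196.1, H _ t43196.2.1⟩⟩⟩⟩, ⟨⟨⟨H _ t43196.2.2.1, H _ t43196.2.2.2.1⟩, ⟨H _ t43196.2.2.2.2.1, ⟨H _ t43196.2.2.2.2.2.1, H _ t43196.2.2.2.2.2.2.1⟩⟩⟩, ⟨⟨H _ t43196.2.2.2.2.2.2.2, H _ t43204.1⟩, ⟨H _ t43204.2.1, ⟨H _ t43204.2.2.1, H _ t43204.2.2.2.1⟩⟩⟩⟩⟩, ⟨⟨⟨⟨H _ t43204.2.2.2.2.1, H _ t43204.2.2.2.2.2.1⟩, ⟨H _ t43204.2.2.2.2.2.2.1, ⟨H _ t43204.2.2.2.2.2.2.2, H _ t43212.1⟩⟩⟩, ⟨⟨H _ t43212.2.1, H _ t43212.2.2.1⟩, ⟨H _ t43212.2.2.2.1, ⟨H _ t43212.2.2.2.2.1, H _ t43212.2.2.2.2.2.1⟩⟩⟩⟩, ⟨⟨⟨H _ t43212.2.2.2.2.2.2.1,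 H _ t43212.2.2.2.2.2.2.2⟩, ⟨H _ t43220.1, ⟨H _ t43220.2.1, H _ t43220.2.2.1⟩⟩⟩, ⟨⟨H _ t43220.2.2.2.1, H _ t43220.2.2.2.2.1⟩, ⟨H _ t43220.2.2.2.2.2.1, ⟨H _ t43220.2.2.2.2.2.2.1, H _ t43220.2.2.2.2.2.2.2⟩⟩⟩⟩⟩⟩, ⟨⟨⟨⟨⟨H _ t43228.1, H _ t43228.2.1⟩, ⟨H _ t43228.2.2.1, ⟨H _ t43228.2.2.2.1, H _ t43228.2.2.2.2.1⟩⟩⟩, ⟨⟨H _ t43228.2.2.2.2.2.1, H _ t43228.2.2.2.2.2.2.1⟩, ⟨H _ t43228.2.2.2.2.2.2.2, ⟨H _ t43236.1, H _ t43236.2.1⟩⟩⟩⟩, ⟨⟨⟨H _ t43236.2.2.1, H _ t43236.2.2.2.1⟩, ⟨H _ t43236.2.2.2.2.1, ⟨H _ t43236.2.2.2.2.2.1, H _ t43236.2.2.2.2.2.2.1⟩⟩⟩, ⟨⟨H _ t43236.2.2.2.2.2.2.2, H _ t43244.1⟩, ⟨H _ t43244.2.1, ⟨H _ t43244.2.2.1, H _ t43244.2.2.2.1⟩⟩⟩⟩⟩, ⟨⟨⟨⟨H _ t43244.2.2.2.2.1, H _ t43244.2.2.2.2.2.1⟩, ⟨H _ t43244.2.2.2.2.2.2.1, ⟨H _ t43244.2.2.2.2.2.2.2, H _ t43252.1⟩⟩⟩, ⟨⟨H _ t43252.2.1, H _ t43252.2.2.1⟩, ⟨H _ t43252.2.2.2.1, ⟨H _ t43252.2.2.2.2.1, H _ t43252.2.2.2.2.2.1⟩⟩⟩⟩, ⟨⟨⟨H _ t43252.2.2.2.2.2.2.1,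 H _ t43252.2.2.2.2.2.2.2⟩, ⟨H _ t43260.1, ⟨H _ t43260.2.1, H _ t43260.2.2.1⟩⟩⟩, ⟨⟨H _ t43260.2.2.2.1, ⟨H _ t43260.2.2.2.2.1, H _ t43260.2.2.2.2.2.1⟩⟩, ⟨H _ t43260.2.2.2.2.2.2.1, ⟨H _ t43260.2.2.2.2.2.2.2, H _ t43268.1⟩⟩⟩⟩⟩⟩⟩, ⟨⟨⟨⟨⟨⟨H _ t43268.2.1, H _ t43268.2.2.1⟩, ⟨H _ t43268.2.2.2.1, ⟨H _ t43268.2.2.2.2.1, H _ t43268.2.2.2.2.2.1⟩⟩⟩, ⟨⟨H _ t43268.2.2.2.2.2.2.1, H _ t43268.2.2.2.2.2.2.2⟩, ⟨H _ t43276.1, ⟨H _ t43276.2.1, H _ t43276.2.2.1⟩⟩⟩⟩, ⟨⟨⟨H _ t43276.2.2.2.1, H _ t43276.2.2.2.2.1⟩, ⟨H _ t43276.2.2.2.2.2.1, ⟨H _ t43276.2.2.2.2.2.2.1, H _ t43276.2.2.2.2.2.2.2⟩⟩⟩, ⟨⟨H _ t43284.1, H _ t43284.2.1⟩, ⟨H _ t43284.2.2.1, ⟨H _ t43284.2.2.2.1, H _ t43284.2.2.2.2.1⟩⟩⟩⟩⟩, ⟨⟨⟨⟨H _ t43284.2.2.2.2.2.1, H _ t43284.2.2.2.2.2.2.1⟩, ⟨H _ t43284.2.2.2.2.2.2.2, ⟨H _ t43292.1, H _ t43292.2.1⟩⟩⟩, ⟨⟨H _ t43292.2.2.1, H _ t43292.2.2.2.1⟩, ⟨H _ t43292.2.2.2.2.1, ⟨H _ t43292.2.2.2.2.2.1, H _ t43292.2.2.2.2.2.2.1⟩⟩⟩⟩,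 ⟨⟨⟨H _ t43292.2.2.2.2.2.2.2, H _ t43300.1⟩, ⟨H _ t43300.2.1, ⟨H _ t43300.2.2.1, H _ t43300.2.2.2.1⟩⟩⟩, ⟨⟨H _ t43300.2.2.2.2.1, ⟨H _ t43300.2.2.2.2.2.1, H _ t43300.2.2.2.2.2.2.1⟩⟩, ⟨H _ t43300.2.2.2.2.2.2.2, ⟨H _ t43308.1, H _ t43308.2.1⟩⟩⟩⟩⟩⟩, ⟨⟨⟨⟨⟨H _ t43308.2.2.1, H _ t43308.2.2.2.1⟩, ⟨H _ t43308.2.2.2.2.1, ⟨H _ t43308.2.2.2.2.2.1, H _ t43308.2.2.2.2.2.2.1⟩⟩⟩, ⟨⟨H _ t43308.2.2.2.2.2.2.2, H _ t43316.1⟩, ⟨H _ t43316.2.1, ⟨H _ t43316.2.2.1, H _ t43316.2.2.2.1⟩⟩⟩⟩, ⟨⟨⟨H _ t43316.2.2.2.2.1, H _ t43316.2.2.2.2.2.1⟩, ⟨H _ t43316.2.2.2.2.2.2.1, ⟨H _ t43316.2.2.2.2.2.2.2, H _ t43324.1⟩⟩⟩, ⟨⟨H _ t43324.2.1, H _ t43324.2.2.1⟩, ⟨H _ t43324.2.2.2.1, ⟨H _ t43324.2.2.2.2.1, H _ t43324.2.2.2.2.2.1⟩⟩⟩⟩⟩, ⟨⟨⟨⟨H _ t43324.2.2.2.2.2.2.1, H _ t43324.2.2.2.2.2.2.2⟩, ⟨H _ t43332.1, ⟨H _ t43332.2.1, H _ t43332.2.2.1⟩⟩⟩, ⟨⟨H _ t43332.2.2.2.1, H _ t43332.2.2.2.2.1⟩, ⟨H _ t43332.2.2.2.2.2.1, ⟨H _ t43332.2.2.2.2.2.2.1,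 H _ t43332.2.2.2.2.2.2.2⟩⟩⟩⟩, ⟨⟨⟨H _ t43340.1, H _ t43340.2.1⟩, ⟨H _ t43340.2.2.1, ⟨H _ t43340.2.2.2.1, H _ t43340.2.2.2.2.1⟩⟩⟩, ⟨⟨H _ t43340.2.2.2.2.2.1, ⟨H _ t43340.2.2.2.2.2.2.1, H _ t43340.2.2.2.2.2.2.2⟩⟩, ⟨H _ t43348.1, ⟨H _ t43348.2.1, H _ t43348.2.2.1⟩⟩⟩⟩⟩⟩⟩⟩, ⟨⟨⟨⟨⟨⟨⟨H _ t43348.2.2.2.1, H _ t43348.2.2.2.2.1⟩, ⟨H _ t43348.2.2.2.2.2.1, ⟨H _ t43348.2.2.2.2.2.2.1, H _ t43348.2.2.2.2.2.2.2⟩⟩⟩, ⟨⟨H _ t43356.1, H _ t43356.2.1⟩, ⟨H _ t43356.2.2.1, ⟨H _ t43356.2.2.2.1, H _ t43356.2.2.2.2.1⟩⟩⟩⟩, ⟨⟨⟨H _ t43356.2.2.2.2.2.1, H _ t43356.2.2.2.2.2.2.1⟩, ⟨H _ t43356.2.2.2.2.2.2.2, ⟨H _ t43364.1, H _ t43364.2.1⟩⟩⟩, ⟨⟨H _ t43364.2.2.1, H _ t43364.2.2.2.1⟩, ⟨H _ t43364.2.2.2.2.1, ⟨H _ t43364.2.2.2.2.2.1, H _ t43364.2.2.2.2.2.2.1⟩⟩⟩⟩⟩, ⟨⟨⟨⟨H _ t43364.2.2.2.2.2.2.2, H _ t43372.1⟩, ⟨H _ t43372.2.1, ⟨H _ t43372.2.2.1, H _ t43372.2.2.2.1⟩⟩⟩, ⟨⟨H _ t43372.2.2.2.2.1, H _ t43372.2.2.2.2.2.1⟩, ⟨H _ t43372.2.2.2.2.2.2.1,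 ⟨H _ t43372.2.2.2.2.2.2.2, H _ t43380.1⟩⟩⟩⟩, ⟨⟨⟨H _ t43380.2.1, H _ t43380.2.2.1⟩, ⟨H _ t43380.2.2.2.1, ⟨H _ t43380.2.2.2.2.1, H _ t43380.2.2.2.2.2.1⟩⟩⟩, ⟨⟨H _ t43380.2.2.2.2.2.2.1, H _ t43380.2.2.2.2.2.2.2⟩, ⟨H _ t43388.1, ⟨H _ t43388.2.1, H _ t43388.2.2.1⟩⟩⟩⟩⟩⟩, ⟨⟨⟨⟨⟨H _ t43388.2.2.2.1, H _ t43388.2.2.2.2.1⟩, ⟨H _ t43388.2.2.2.2.2.1, ⟨H _ t43388.2.2.2.2.2.2.1, H _ t43388.2.2.2.2.2.2.2⟩⟩⟩, ⟨⟨H _ t43396.1, H _ t43396.2.1⟩, ⟨H _ t43396.2.2.1, ⟨H _ t43396.2.2.2.1, H _ t43396.2.2.2.2.1⟩⟩⟩⟩, ⟨⟨⟨H _ t43396.2.2.2.2.2.1, H _ t43396.2.2.2.2.2.2.1⟩, ⟨H _ t43396.2.2.2.2.2.2.2, ⟨H _ t43404.1, H _ t43404.2.1⟩⟩⟩, ⟨⟨H _ t43404.2.2.1, H _ t43404.2.2.2.1⟩, ⟨H _ t43404.2.2.2.2.1, ⟨H _ t43404.2.2.2.2.2.1, H _ t43404.2.2.2.2.2.2.1⟩⟩⟩⟩⟩, ⟨⟨⟨⟨H _ t43404.2.2.2.2.2.2.2, H _ t43412.1⟩, ⟨H _ t43412.2.1, ⟨H _ t43412.2.2.1, H _ t43412.2.2.2.1⟩⟩⟩, ⟨⟨H _ t43412.2.2.2.2.1, H _ t43412.2.2.2.2.2.1⟩, ⟨H _ t43412.2.2.2.2.2.2.1,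 ⟨H _ t43412.2.2.2.2.2.2.2, H _ t43420.1⟩⟩⟩⟩, ⟨⟨⟨H _ t43420.2.1, H _ t43420.2.2.1⟩, ⟨H _ t43420.2.2.2.1, ⟨H _ t43420.2.2.2.2.1, H _ t43420.2.2.2.2.2.1⟩⟩⟩, ⟨⟨H _ t43420.2.2.2.2.2.2.1, ⟨H _ t43420.2.2.2.2.2.2.2, H _ t43428.1⟩⟩, ⟨H _ t43428.2.1, ⟨H _ t43428.2.2.1, H _ t43428.2.2.2.1⟩⟩⟩⟩⟩⟩⟩, ⟨⟨⟨⟨⟨⟨H _ t43428.2.2.2.2.1, H _ t43428.2.2.2.2.2.1⟩, ⟨H _ t43428.2.2.2.2.2.2.1, ⟨H _ t43428.2.2.2.2.2.2.2, H _ t43436.1⟩⟩⟩, ⟨⟨H _ t43436.2.1, H _ t43436.2.2.1⟩, ⟨H _ t43436.2.2.2.1, ⟨H _ t43436.2.2.2.2.1, H _ t43436.2.2.2.2.2.1⟩⟩⟩⟩, ⟨⟨⟨H _ t43436.2.2.2.2.2.2.1, H _ t43436.2.2.2.2.2.2.2⟩, ⟨H _ t43444.1, ⟨H _ t43444.2.1, H _ t43444.2.2.1⟩⟩⟩, ⟨⟨H _ t43444.2.2.2.1, H _ t43444.2.2.2.2.1⟩, ⟨H _ t43444.2.2.2.2.2.1, ⟨H _ t43444.2.2.2.2.2.2.1, H _ t43444.2.2.2.2.2.2.2⟩⟩⟩⟩⟩, ⟨⟨⟨⟨H _ t43452.1, H _ t43452.2.1⟩, ⟨H _ t43452.2.2.1, ⟨H _ t43452.2.2.2.1, H _ t43452.2.2.2.2.1⟩⟩⟩, ⟨⟨H _ t43452.2.2.2.2.2.1, H _ t43452.2.2.2.2.2.2.1⟩,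 ⟨H _ t43452.2.2.2.2.2.2.2, ⟨H _ t43460.1, H _ t43460.2.1⟩⟩⟩⟩, ⟨⟨⟨H _ t43460.2.2.1, H _ t43460.2.2.2.1⟩, ⟨H _ t43460.2.2.2.2.1, ⟨H _ t43460.2.2.2.2.2.1, H _ t43460.2.2.2.2.2.2.1⟩⟩⟩, ⟨⟨H _ t43460.2.2.2.2.2.2.2, ⟨H _ t43468.1, H _ t43468.2.1⟩⟩, ⟨H _ t43468.2.2.1, ⟨H _ t43468.2.2.2.1, H _ t43468.2.2.2.2.1⟩⟩⟩⟩⟩⟩, ⟨⟨⟨⟨⟨H _ t43468.2.2.2.2.2.1, H _ t43468.2.2.2.2.2.2.1⟩, ⟨H _ t43468.2.2.2.2.2.2.2, ⟨H _ t43476.1, H _ t43476.2.1⟩⟩⟩, ⟨⟨H _ t43476.2.2.1, H _ t43476.2.2.2.1⟩, ⟨H _ t43476.2.2.2.2.1, ⟨H _ t43476.2.2.2.2.2.1, H _ t43476.2.2.2.2.2.2.1⟩⟩⟩⟩, ⟨⟨⟨H _ t43476.2.2.2.2.2.2.2, H _ t43484.1⟩, ⟨H _ t43484.2.1, ⟨H _ t43484.2.2.1, H _ t43484.2.2.2.1⟩⟩⟩, ⟨⟨H _ t43484.2.2.2.2.1, H _ t43484.2.2.2.2.2.1⟩, ⟨H _ t43484.2.2.2.2.2.2.1, ⟨H _ t43484.2.2.2.2.2.2.2, H _ t43492.1⟩⟩⟩⟩⟩, ⟨⟨⟨⟨H _ t43492.2.1, H _ t43492.2.2.1⟩, ⟨H _ t43492.2.2.2.1, ⟨H _ t43492.2.2.2.2.1, H _ t43492.2.2.2.2.2.1⟩⟩⟩, ⟨⟨H _ t43492.2.2.2.2.2.2.1,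 H _ t43492.2.2.2.2.2.2.2⟩, ⟨H _ t43500.1, ⟨H _ t43500.2.1, H _ t43500.2.2.1⟩⟩⟩⟩, ⟨⟨⟨H _ t43500.2.2.2.1, H _ t43500.2.2.2.2.1⟩, ⟨H _ t43500.2.2.2.2.2.1, ⟨H _ t43500.2.2.2.2.2.2.1, H _ t43500.2.2.2.2.2.2.2⟩⟩⟩, ⟨⟨H _ t43508.1, ⟨H _ t43508.2.1, H _ t43508.2.2.1⟩⟩, ⟨H _ t43508.2.2.2.1, ⟨H _ t43508.2.2.2.2.1, H _ t43508.2.2.2.2.2⟩⟩⟩⟩⟩⟩⟩⟩⟩

def t43514 : allY (E.wth T3) l43514 = true ∧
    allY (E.wth T3) l43515 = true ∧
    allY (E.wth T3) l43516 = true ∧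
    allY (E.wth T3) l43517 = true ∧
    allY (E.wth T3) l43518 = true ∧
    allY (E.wth T3) l43519 = true ∧
    allY (E.wth T3) l43520 = true ∧
    allY (E.wth T3) l43521 = true :=
  ⟨by decide +kernel, by decide +kernel, by decide +kernel, by decide +kernel, by decide +kernel, by decide +kernel, by decide +kernel, by decide +kernel⟩

def t43522 : allY (E.wth T3) l43522 = true ∧
    allY (E.wth T3) l43523 = true ∧
    allY (E.wth T3) l43524 = true ∧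
    allY (E.wth T3) l43525 = true ∧
    allY (E.wth T3) l43526 = true ∧
    allY (E.wth T3) l43527 = true ∧
    allY (E.wth T3) l43528 = true ∧
    allY (E.wth T3) l43529 = true :=
  ⟨by decide +kernel, by decide +kernel, by decide +kernel, by decide +kernel, by decide +kernel, by decide +kernel, by decide +kernel, by decide +kernel⟩

def t43530 : allY (E.wth T3) l43530 = true ∧
    allY (E.wth T3) l43531 = true ∧
    allY (E.wth T3) l43532 = true ∧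
    allY (E.wth T3) l43533 = true ∧
    allY (E.wth T3) l43534 = true ∧
    allY (E.wth T3) l43535 = true ∧
    allY (E.wth T3) l43536 = true ∧
    allY (E.wth T3) l43537 = true :=
  ⟨by decide +kernel, by decide +kernel, by decide +kernel, by decide +kernel, by decide +kernel, by decide +kernel, by decide +kernel, by decide +kernel⟩

def t43538 : allY (E.wth T3) l43538 = true ∧
    allY (E.wth T3) l43539 = true ∧
    allY (E.wth T3) l43540 = true ∧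
    allY (E.wth T3) l43541 = true ∧
    allY (E.wth T3) l43542 = true ∧
    allY (E.wth T3) l43543 = true ∧
    allY (E.wth T3) l43544 = true ∧
    allY (E.wth T3) l43545 = true :=
  ⟨by decide +kernel, by decide +kernel, by decide +kernel, by decide +kernel, by decide +kernel, by decide +kernel, by decide +kernel, by decide +kernel⟩

def t43546 : allY (E.wth T3) l43546 = true ∧
    allY (E.wth T3) l43547 = true ∧
    allY (E.wth T3) l43548 = true ∧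
    allY (E.wth T3) l43549 = true ∧
    allY (E.wth T3) l43550 = true ∧
    allY (E.wth T3) l43551 = true ∧
    allY (E.wth T3) l43552 = true ∧
    allY (E.wth T3) l43553 = true :=
  ⟨by decide +kernel, by decide +kernel, by decide +kernel, by decide +kernel, by decide +kernel, by decide +kernel, by decide +kernel, by decide +kernel⟩

def t43554 : allY (E.wth T3) l43554 = true ∧
    allY (E.wth T3) l43555 = true ∧
    allY (E.wth T3) l43556 = true ∧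
    allY (E.wth T3) l43557 = true ∧
    allY (E.wth T3) l43558 = true ∧
    allY (E.wth T3) l43559 = true ∧
    allY (E.wth T3) l43560 = true ∧
    allY (E.wth T3) l43561 = true :=
  ⟨by decide +kernel, by decide +kernel, by decide +kernel, by decide +kernel, by decide +kernel, by decide +kernel, by decide +kernel, by decide +kernel⟩

def t43562 : allY (E.wth T3) l43562 = true ∧
    allY (E.wth T3) l43563 = true ∧
    allY (E.wth T3) l43564 = true ∧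
    allY (E.wth T3) l43565 = true ∧
    allY (E.wth T3) l43566 = true ∧
    allY (E.wth T3) l43567 = true ∧
    allY (E.wth T3) l43568 = true ∧
    allY (E.wth T3) l43569 = true :=
  ⟨by decide +kernel, by decide +kernel, by decide +kernel, by decide +kernel, by decide +kernel, by decide +kernel, by decide +kernel, by decide +kernel⟩

def t43570 : allY (E.wth T3) l43570 = true ∧
    allY (E.wth T3) l43571 = true ∧
    allY (E.wth T3) l43572 = true ∧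
    allY (E.wth T3) l43573 = true ∧
    allY (E.wth T3) l43574 = true ∧
    allY (E.wth T3) l43575 = true ∧
    allY (E.wth T3) l43576 = true ∧
    allY (E.wth T3) l43577 = true :=
  ⟨by decide +kernel, by decide +kernel, by decide +kernel, by decide +kernel, by decide +kernel, by decide +kernel, by decide +kernel, by decide +kernel⟩

def t43578 : allY (E.wth T3) l43578 = true ∧
    allY (E.wth T3) l43579 = true ∧
    allY (E.wth T3) l43580 = true ∧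
    allY (E.wth T3) l43581 = true ∧
    allY (E.wth T3) l43582 = true ∧
    allY (E.wth T3) l43583 = true ∧
    allY (E.wth T3) l43584 = true ∧
    allY (E.wth T3) l43585 = true :=
  ⟨by decide +kernel, by decide +kernel, by decide +kernel, by decide +kernel, by decide +kernel, by decide +kernel, by decide +kernel, by decide +kernel⟩

def t43586 : allY (E.wth T3) l43586 = true ∧
    allY (E.wth T3) l43587 = true ∧
    allY (E.wth T3) l43588 = true ∧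
    allY (E.wth T3) l43589 = true ∧
    allY (E.wth T3) l43590 = true ∧
    allY (E.wth T3) l43591 = true ∧
    allY (E.wth T3) l43592 = true ∧
    allY (E.wth T3) l43593 = true :=
  ⟨by decide +kernel, by decide +kernel, by decide +kernel, by decide +kernel, by decide +kernel, by decide +kernel, by decide +kernel, by decide +kernel⟩

def t43594 : allY (E.wth T3) l43594 = true ∧
    allY (E.wth T3) l43595 = true ∧
    allY (E.wth T3) l43596 = true ∧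
    allY (E.wth T3) l43597 = true ∧
    allY (E.wth T3) l43598 = true ∧
    allY (E.wth T3) l43599 = true ∧
    allY (E.wth T3) l43600 = true ∧
    allY (E.wth T3) l43601 = true :=
  ⟨by decide +kernel, by decide +kernel, by decide +kernel, by decide +kernel, by decide +kernel, by decide +kernel, by decide +kernel, by decide +kernel⟩

def t43602 : allY (E.wth T3) l43602 = true ∧
    allY (E.wth T3) l43603 = true ∧
    allY (E.wth T3) l43604 = true ∧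
    allY (E.wth T3) l43605 = true ∧
    allY (E.wth T3) l43606 = true ∧
    allY (E.wth T3) l43607 = true ∧
    allY (E.wth T3) l43608 = true ∧
    allY (E.wth T3) l43609 = true :=
  ⟨by decide +kernel, by decide +kernel, by decide +kernel, by decide +kernel, by decide +kernel, by decide +kernel, by decide +kernel, by decide +kernel⟩

def t43610 : allY (E.wth T3) l43610 = true ∧
    allY (E.wth T3) l43611 = true ∧
    allY (E.wth T3) l43612 = true ∧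
    allY (E.wth T3) l43613 = true ∧
    allY (E.wth T3) l43614 = true ∧
    allY (E.wth T3) l43615 = true ∧
    allY (E.wth T3) l43616 = true ∧
    allY (E.wth T3) l43617 = true :=
  ⟨by decide +kernel, by decide +kernel, by decide +kernel, by decide +kernel, by decide +kernel, by decide +kernel, by decide +kernel, by decide +kernel⟩

def t43618 : allY (E.wth T3) l43618 = true ∧
    allY (E.wth T3) l43619 = true ∧
    allY (E.wth T3) l43620 = true ∧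
    allY (E.wth T3) l43621 = true ∧
    allY (E.wth T3) l43622 = true ∧
    allY (E.wth T3) l43623 = true ∧
    allY (E.wth T3) l43624 = true ∧
    allY (E.wth T3) l43625 = true :=
  ⟨by decide +kernel, by decide +kernel, by decide +kernel, by decide +kernel, by decide +kernel, by decide +kernel, by decide +kernel, by decide +kernel⟩

def t43626 : allY (E.wth T3) l43626 = true ∧
    allY (E.wth T3) l43627 = true ∧
    allY (E.wth T3) l43628 = true ∧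
    allY (E.wth T3) l43629 = true ∧
    allY (E.wth T3) l43630 = true ∧
    allY (E.wth T3) l43631 = true ∧
    allY (E.wth T3) l43632 = true ∧
    allY (E.wth T3) l43633 = true :=
  ⟨by decide +kernel, by decide +kernel, by decide +kernel, by decide +kernel, by decide +kernel, by decide +kernel, by decide +kernel, by decide +kernel⟩

def t43634 : allY (E.wth T3) l43634 = true ∧
    allY (E.wth T3) l43635 = true ∧
    allY (E.wth T3) l43636 = true ∧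
    allY (E.wth T3) l43637 = true ∧
    allY (E.wth T3) l43638 = true ∧
    allY (E.wth T3) l43639 = true ∧
    allY (E.wth T3) l43640 = true ∧
    allY (E.wth T3) l43641 = true :=
  ⟨by decide +kernel, by decide +kernel, by decide +kernel, by decide +kernel, by decide +kernel, by decide +kernel, by decide +kernel, by decide +kernel⟩

def t43642 : allY (E.wth T3) l43642 = true ∧
    allY (E.wth T3) l43643 = true ∧
    allY (E.wth T3) l43644 = true ∧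
    allY (E.wth T3) l43645 = true ∧
    allY (E.wth T3) l43646 = true ∧
    allY (E.wth T3) l43647 = true ∧
    allY (E.wth T3) l43648 = true ∧
    allY (E.wth T3) l43649 = true :=
  ⟨by decide +kernel, by decide +kernel, by decide +kernel, by decide +kernel, by decide +kernel, by decide +kernel, by decide +kernel, by decide +kernel⟩

def t43650 : allY (E.wth T3) l43650 = true ∧
    allY (E.wth T3) l43651 = true ∧
    allY (E.wth T3) l43652 = true ∧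
    allY (E.wth T3) l43653 = true ∧
    allY (E.wth T3) l43654 = true ∧
    allY (E.wth T3) l43655 = true ∧
    allY (E.wth T3) l43656 = true ∧
    allY (E.wth T3) l43657 = true :=
  ⟨by decide +kernel, by decide +kernel, by decide +kernel, by decide +kernel, by decide +kernel, by decide +kernel, by decide +kernel, by decide +kernel⟩

def t43658 : allY (E.wth T3) l43658 = true ∧
    allY (E.wth T3) l43659 = true ∧
    allY (E.wth T3) l43660 = true ∧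
    allY (E.wth T3) l43661 = true ∧
    allY (E.wth T3) l43662 = true ∧
    allY (E.wth T3) l43663 = true ∧
    allY (E.wth T3) l43664 = true ∧
    allY (E.wth T3) l43665 = true :=
  ⟨by decide +kernel, by decide +kernel, by decide +kernel, by decide +kernel, by decide +kernel, by decide +kernel, by decide +kernel, by decide +kernel⟩

def t43666 : allY (E.wth T3) l43666 = true ∧
    allY (E.wth T3) l43667 = true ∧
    allY (E.wth T3) l43668 = true ∧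
    allY (E.wth T3) l43669 = true ∧
    allY (E.wth T3) l43670 = true ∧
    allY (E.wth T3) l43671 = true ∧
    allY (E.wth T3) l43672 = true ∧
    allY (E.wth T3) l43673 = true :=
  ⟨by decide +kernel, by decide +kernel, by decide +kernel, by decide +kernel, by decide +kernel, by decide +kernel, by decide +kernel, by decide +kernel⟩

def t43674 : allY (E.wth T3) l43674 = true ∧
    allY (E.wth T3) l43675 = true ∧
    allY (E.wth T3) l43676 = true ∧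
    allY (E.wth T3) l43677 = true ∧
    allY (E.wth T3) l43678 = true ∧
    allY (E.wth T3) l43679 = true ∧
    allY (E.wth T3) l43680 = true ∧
    allY (E.wth T3) l43681 = true :=
  ⟨by decide +kernel, by decide +kernel, by decide +kernel, by decide +kernel, by decide +kernel, by decide +kernel, by decide +kernel, by decide +kernel⟩

def t43682 : allY (E.wth T3) l43682 = true ∧
    allY (E.wth T3) l43683 = true ∧
    allY (E.wth T3) l43684 = true ∧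
    allY (E.wth T3) l43685 = true ∧
    allY (E.wth T3) l43686 = true ∧
    allY (E.wth T3) l43687 = true ∧
    allY (E.wth T3) l43688 = true ∧
    allY (E.wth T3) l43689 = true :=
  ⟨by decide +kernel, by decide +kernel, by decide +kernel, by decide +kernel, by decide +kernel, by decide +kernel, by decide +kernel, by decide +kernel⟩

def t43690 : allY (E.wth T3) l43690 = true ∧
    allY (E.wth T3) l43691 = true ∧
    allY (E.wth T3) l43692 = true ∧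
    allY (E.wth T3) l43693 = true ∧
    allY (E.wth T3) l43694 = true ∧
    allY (E.wth T3) l43695 = true ∧
    allY (E.wth T3) l43696 = true ∧
    allY (E.wth T3) l43697 = true :=
  ⟨by decide +kernel, by decide +kernel, by decide +kernel, by decide +kernel, by decide +kernel, by decide +kernel, by decide +kernel, by decide +kernel⟩

def t43698 : allY (E.wth T3) l43698 = true ∧
    allY (E.wth T3) l43699 = true ∧
    allY (E.wth T3) l43700 = true ∧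
    allY (E.wth T3) l43701 = true ∧
    allY (E.wth T3) l43702 = true ∧
    allY (E.wth T3) l43703 = true ∧
    allY (E.wth T3) l43704 = true ∧
    allY (E.wth T3) l43705 = true :=
  ⟨by decide +kernel, by decide +kernel, by decide +kernel, by decide +kernel, by decide +kernel, by decide +kernel, by decide +kernel, by decide +kernel⟩

def t43706 : allY (E.wth T3) l43706 = true ∧
    allY (E.wth T3) l43707 = true ∧
    allY (E.wth T3) l43708 = true ∧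
    allY (E.wth T3) l43709 = true ∧
    allY (E.wth T3) l43710 = true ∧
    allY (E.wth T3) l43711 = true ∧
    allY (E.wth T3) l43712 = true ∧
    allY (E.wth T3) l43713 = true :=
  ⟨by decide +kernel, by decide +kernel, by decide +kernel, by decide +kernel, by decide +kernel, by decide +kernel, by decide +kernel, by decide +kernel⟩

def t43714 : allY (E.wth T3) l43714 = true ∧
    allY (E.wth T3) l43715 = true ∧
    allY (E.wth T3) l43716 = true ∧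
    allY (E.wth T3) l43717 = true ∧
    allY (E.wth T3) l43718 = true ∧
    allY (E.wth T3) l43719 = true ∧
    allY (E.wth T3) l43720 = true ∧
    allY (E.wth T3) l43721 = true :=
  ⟨by decide +kernel, by decide +kernel, by decide +kernel, by decide +kernel, by decide +kernel, by decide +kernel, by decide +kernel, by decide +kernel⟩

def t43722 : allY (E.wth T3) l43722 = true ∧
    allY (E.wth T3) l43723 = true ∧
    allY (E.wth T3) l43724 = true ∧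
    allY (E.wth T3) l43725 = true ∧
    allY (E.wth T3) l43726 = true ∧
    allY (E.wth T3) l43727 = true ∧
    allY (E.wth T3) l43728 = true ∧
    allY (E.wth T3) l43729 = true :=
  ⟨by decide +kernel, by decide +kernel, by decide +kernel, by decide +kernel, by decide +kernel, by decide +kernel, by decide +kernel, by decide +kernel⟩

def t43730 : allY (E.wth T3) l43730 = true ∧
    allY (E.wth T3) l43731 = true ∧
    allY (E.wth T3) l43732 = true ∧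
    allY (E.wth T3) l43733 = true ∧
    allY (E.wth T3) l43734 = true ∧
    allY (E.wth T3) l43735 = true ∧
    allY (E.wth T3) l43736 = true ∧
    allY (E.wth T3) l43737 = true :=
  ⟨by decide +kernel, by decide +kernel, by decide +kernel, by decide +kernel, by decide +kernel, by decide +kernel, by decide +kernel, by decide +kernel⟩

def t43738 : allY (E.wth T3) l43738 = true ∧
    allY (E.wth T3) l43739 = true ∧
    allY (E.wth T3) l43740 = true ∧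
    allY (E.wth T3) l43741 = true ∧
    allY (E.wth T3) l43742 = true ∧
    allY (E.wth T3) l43743 = true ∧
    allY (E.wth T3) l43744 = true ∧
    allY (E.wth T3) l43745 = true :=
  ⟨by decide +kernel, by decide +kernel, by decide +kernel, by decide +kernel, by decide +kernel, by decide +kernel, by decide +kernel, by decide +kernel⟩

def t43746 : allY (E.wth T3) l43746 = true ∧
    allY (E.wth T3) l43747 = true ∧
    allY (E.wth T3) l43748 = true ∧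
    allY (E.wth T3) l43749 = true ∧
    allY (E.wth T3) l43750 = true ∧
    allY (E.wth T3) l43751 = true ∧
    allY (E.wth T3) l43752 = true ∧
    allY (E.wth T3) l43753 = true :=
  ⟨by decide +kernel, by decide +kernel, by decide +kernel, by decide +kernel, by decide +kernel, by decide +kernel, by decide +kernel, by decide +kernel⟩

def t43754 : allY (E.wth T3) l43754 = true ∧
    allY (E.wth T3) l43755 = true ∧
    allY (E.wth T3) l43756 = true ∧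
    allY (E.wth T3) l43757 = true ∧
    allY (E.wth T3) l43758 = true ∧
    allY (E.wth T3) l43759 = true ∧
    allY (E.wth T3) l43760 = true :=
  ⟨by decide +kernel, by decide +kernel, by decide +kernel, by decide +kernel, by decide +kernel, by decide +kernel, by decide +kernel⟩

theorem a80 {p : Rf → Prop} (H : ∀ l, allY (E.wth T3) l = true → (lkp l).All p) :
    b80.All p := ⟨⟨⟨⟨⟨⟨⟨H _ t43514.1, ⟨H _ t43514.2.1, H _ t43514.2.2.1⟩⟩, ⟨⟨H _ t43514.2.2.2.1, H _ t43514.2.2.2.2.1⟩, ⟨H _ t43514.2.2.2.2.2.1, H _ t43514.2.2.2.2.2.2.1⟩⟩⟩, ⟨⟨⟨H _ t43514.2.2.2.2.2.2.2, H _ t43522.1⟩, ⟨H _ t43522.2.1, H _ t43522.2.2.1⟩⟩, ⟨⟨H _ t43522.2.2.2.1, H _ t43522.2.2.2.2.1⟩, ⟨H _ t43522.2.2.2.2.2.1, H _ t43522.2.2.2.2.2.2.1⟩⟩⟩⟩, ⟨⟨⟨H _ t43522.2.2.2.2.2.2.2, ⟨H _ t43530.1, H _ t43530.2.1⟩⟩, ⟨⟨H _ t43530.2.2.1, H _ t43530.2.2.2.1⟩, ⟨H _ t43530.2.2.2.2.1, H _ t43530.2.2.2.2.2.1⟩⟩⟩, ⟨⟨⟨H _ t43530.2.2.2.2.2.2.1, H _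 t43530.2.2.2.2.2.2.2⟩, ⟨H _ t43538.1, H _ t43538.2.1⟩⟩, ⟨⟨H _ t43538.2.2.1, H _ t43538.2.2.2.1⟩, ⟨H _ t43538.2.2.2.2.1, H _ t43538.2.2.2.2.2.1⟩⟩⟩⟩⟩, ⟨⟨⟨⟨H _ t43538.2.2.2.2.2.2.1, ⟨H _ t43538.2.2.2.2.2.2.2, H _ t43546.1⟩⟩, ⟨⟨H _ t43546.2.1, H _ t43546.2.2.1⟩, ⟨H _ t43546.2.2.2.1, H _ t43546.2.2.2.2.1⟩⟩⟩, ⟨⟨⟨H _ t43546.2.2.2.2.2.1, H _ t43546.2.2.2.2.2.2.1⟩, ⟨H _ t43546.2.2.2.2.2.2.2, H _ t43554.1⟩⟩, ⟨⟨H _ t43554.2.1, H _ t43554.2.2.1⟩, ⟨H _ t43554.2.2.2.1, H _ t43554.2.2.2.2.1⟩⟩⟩⟩, ⟨⟨⟨⟨H _ t43554.2.2.2.2.2.1, H _ t43554.2.2.2.2.2.2.1⟩, ⟨H _ t43554.2.2.2.2.2.2.2, H _ t43562.1⟩⟩, ⟨⟨H _ t43562.2.1, H _ t43562.2.2.1⟩, ⟨H _ t43562.2.2.2.1, H _ t43562.2.2.2.2.1⟩⟩⟩, ⟨⟨⟨H _ t43562.2.2.2.2.2.1, H _ t43562.2.2.2.2.2.2.1⟩, ⟨H _ t43562.2.2.2.2.2.2.2, H _ t43570.1⟩⟩, ⟨⟨H _ t43570.2.1, H _ t43570.2.2.1⟩, ⟨H _ t43570.2.2.2.1, H _ t43570.2.2.2.2.1⟩⟩⟩⟩⟩⟩, ⟨⟨⟨⟨⟨H _ t43570.2.2.2.2.2.1, ⟨H _ t43570.2.2.2.2.2.2.1,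 H _ t43570.2.2.2.2.2.2.2⟩⟩, ⟨⟨H _ t43578.1, H _ t43578.2.1⟩, ⟨H _ t43578.2.2.1, H _ t43578.2.2.2.1⟩⟩⟩, ⟨⟨⟨H _ t43578.2.2.2.2.1, H _ t43578.2.2.2.2.2.1⟩, ⟨H _ t43578.2.2.2.2.2.2.1, H _ t43578.2.2.2.2.2.2.2⟩⟩, ⟨⟨H _ t43586.1, H _ t43586.2.1⟩, ⟨H _ t43586.2.2.1, H _ t43586.2.2.2.1⟩⟩⟩⟩, ⟨⟨⟨⟨H _ t43586.2.2.2.2.1, H _ t43586.2.2.2.2.2.1⟩, ⟨H _ t43586.2.2.2.2.2.2.1, H _ t43586.2.2.2.2.2.2.2⟩⟩, ⟨⟨H _ t43594.1, H _ t43594.2.1⟩, ⟨H _ t43594.2.2.1, H _ t43594.2.2.2.1⟩⟩⟩, ⟨⟨⟨H _ t43594.2.2.2.2.1, H _ t43594.2.2.2.2.2.1⟩, ⟨H _ t43594.2.2.2.2.2.2.1, H _ t43594.2.2.2.2.2.2.2⟩⟩, ⟨⟨H _ t43602.1, H _ t43602.2.1⟩, ⟨H _ t43602.2.2.1, H _ t43602.2.2.2.1⟩⟩⟩⟩⟩, ⟨⟨⟨⟨H _ t43602.2.2.2.2.1, ⟨H _ t43602.2.2.2.2.2.1, H _ t43602.2.2.2.2.2.2.1⟩⟩, ⟨⟨H _ t43602.2.2.2.2.2.2.2, H _ t43610.1⟩, ⟨H _ t43610.2.1, H _ t43610.2.2.1⟩⟩⟩, ⟨⟨⟨H _ t43610.2.2.2.1, H _ t43610.2.2.2.2.1⟩, ⟨H _ t43610.2.2.2.2.2.1, H _ t43610.2.2.2.2.2.2.1⟩⟩,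 ⟨⟨H _ t43610.2.2.2.2.2.2.2, H _ t43618.1⟩, ⟨H _ t43618.2.1, H _ t43618.2.2.1⟩⟩⟩⟩, ⟨⟨⟨⟨H _ t43618.2.2.2.1, H _ t43618.2.2.2.2.1⟩, ⟨H _ t43618.2.2.2.2.2.1, H _ t43618.2.2.2.2.2.2.1⟩⟩, ⟨⟨H _ t43618.2.2.2.2.2.2.2, H _ t43626.1⟩, ⟨H _ t43626.2.1, H _ t43626.2.2.1⟩⟩⟩, ⟨⟨⟨H _ t43626.2.2.2.1, H _ t43626.2.2.2.2.1⟩, ⟨H _ t43626.2.2.2.2.2.1, H _ t43626.2.2.2.2.2.2.1⟩⟩, ⟨⟨H _ t43626.2.2.2.2.2.2.2, H _ t43634.1⟩, ⟨H _ t43634.2.1, H _ t43634.2.2.1⟩⟩⟩⟩⟩⟩⟩, ⟨⟨⟨⟨⟨⟨H _ t43634.2.2.2.1, ⟨H _ t43634.2.2.2.2.1, H _ t43634.2.2.2.2.2.1⟩⟩, ⟨⟨H _ t43634.2.2.2.2.2.2.1, H _ t43634.2.2.2.2.2.2.2⟩, ⟨H _ t43642.1, H _ t43642.2.1⟩⟩⟩, ⟨⟨⟨H _ t43642.2.2.1, H _ t43642.2.2.2.1⟩, ⟨H _ t43642.2.2.2.2.1, H _ t43642.2.2.2.2.2.1⟩⟩, ⟨⟨H _ t43642.2.2.2.2.2.2.1, H _ t43642.2.2.2.2.2.2.2⟩, ⟨H _ t43650.1, H _ t43650.2.1⟩⟩⟩⟩, ⟨⟨⟨⟨H _ t43650.2.2.1, H _ t43650.2.2.2.1⟩, ⟨H _ t43650.2.2.2.2.1, H _ t43650.2.2.2.2.2.1⟩⟩, ⟨⟨H _ t43650.2.2.2.2.2.2.1,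 H _ t43650.2.2.2.2.2.2.2⟩, ⟨H _ t43658.1, H _ t43658.2.1⟩⟩⟩, ⟨⟨⟨H _ t43658.2.2.1, H _ t43658.2.2.2.1⟩, ⟨H _ t43658.2.2.2.2.1, H _ t43658.2.2.2.2.2.1⟩⟩, ⟨⟨H _ t43658.2.2.2.2.2.2.1, H _ t43658.2.2.2.2.2.2.2⟩, ⟨H _ t43666.1, H _ t43666.2.1⟩⟩⟩⟩⟩, ⟨⟨⟨⟨H _ t43666.2.2.1, ⟨H _ t43666.2.2.2.1, H _ t43666.2.2.2.2.1⟩⟩, ⟨⟨H _ t43666.2.2.2.2.2.1, H _ t43666.2.2.2.2.2.2.1⟩, ⟨H _ t43666.2.2.2.2.2.2.2, H _ t43674.1⟩⟩⟩, ⟨⟨⟨H _ t43674.2.1, H _ t43674.2.2.1⟩, ⟨H _ t43674.2.2.2.1, H _ t43674.2.2.2.2.1⟩⟩, ⟨⟨H _ t43674.2.2.2.2.2.1, H _ t43674.2.2.2.2.2.2.1⟩, ⟨H _ t43674.2.2.2.2.2.2.2, H _ t43682.1⟩⟩⟩⟩, ⟨⟨⟨⟨H _ t43682.2.1, H _ t43682.2.2.1⟩, ⟨H _ t43682.2.2.2.1, H _ t43682.2.2.2.2.1⟩⟩, ⟨⟨H _ t43682.2.2.2.2.2.1, H _ t43682.2.2.2.2.2.2.1⟩, ⟨H _ t43682.2.2.2.2.2.2.2, H _ t43690.1⟩⟩⟩, ⟨⟨⟨H _ t43690.2.1, H _ t43690.2.2.1⟩, ⟨H _ t43690.2.2.2.1, H _ t43690.2.2.2.2.1⟩⟩, ⟨⟨H _ t43690.2.2.2.2.2.1, H _ t43690.2.2.2.2.2.2.1⟩,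 ⟨H _ t43690.2.2.2.2.2.2.2, H _ t43698.1⟩⟩⟩⟩⟩⟩, ⟨⟨⟨⟨⟨H _ t43698.2.1, ⟨H _ t43698.2.2.1, H _ t43698.2.2.2.1⟩⟩, ⟨⟨H _ t43698.2.2.2.2.1, H _ t43698.2.2.2.2.2.1⟩, ⟨H _ t43698.2.2.2.2.2.2.1, H _ t43698.2.2.2.2.2.2.2⟩⟩⟩, ⟨⟨⟨H _ t43706.1, H _ t43706.2.1⟩, ⟨H _ t43706.2.2.1, H _ t43706.2.2.2.1⟩⟩, ⟨⟨H _ t43706.2.2.2.2.1, H _ t43706.2.2.2.2.2.1⟩, ⟨H _ t43706.2.2.2.2.2.2.1, H _ t43706.2.2.2.2.2.2.2⟩⟩⟩⟩, ⟨⟨⟨⟨H _ t43714.1, H _ t43714.2.1⟩, ⟨H _ t43714.2.2.1, H _ t43714.2.2.2.1⟩⟩, ⟨⟨H _ t43714.2.2.2.2.1, H _ t43714.2.2.2.2.2.1⟩, ⟨H _ t43714.2.2.2.2.2.2.1, H _ t43714.2.2.2.2.2.2.2⟩⟩⟩, ⟨⟨⟨H _ t43722.1, H _ t43722.2.1⟩, ⟨H _ t43722.2.2.1, H _ t43722.2.2.2.1⟩⟩, ⟨⟨H _ t43722.2.2.2.2.1, H _ t43722.2.2.2.2.2.1⟩, ⟨H _ t43722.2.2.2.2.2.2.1, H _ t43722.2.2.2.2.2.2.2⟩⟩⟩⟩⟩, ⟨⟨⟨⟨H _ t43730.1, ⟨H _ t43730.2.1, H _ t43730.2.2.1⟩⟩, ⟨⟨H _ t43730.2.2.2.1, H _ t43730.2.2.2.2.1⟩, ⟨H _ t43730.2.2.2.2.2.1, H _ t43730.2.2.2.2.2.2.1⟩⟩⟩,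 ⟨⟨⟨H _ t43730.2.2.2.2.2.2.2, H _ t43738.1⟩, ⟨H _ t43738.2.1, H _ t43738.2.2.1⟩⟩, ⟨⟨H _ t43738.2.2.2.1, H _ t43738.2.2.2.2.1⟩, ⟨H _ t43738.2.2.2.2.2.1, H _ t43738.2.2.2.2.2.2.1⟩⟩⟩⟩, ⟨⟨⟨⟨H _ t43738.2.2.2.2.2.2.2, H _ t43746.1⟩, ⟨H _ t43746.2.1, H _ t43746.2.2.1⟩⟩, ⟨⟨H _ t43746.2.2.2.1, H _ t43746.2.2.2.2.1⟩, ⟨H _ t43746.2.2.2.2.2.1, H _ t43746.2.2.2.2.2.2.1⟩⟩⟩, ⟨⟨⟨H _ t43746.2.2.2.2.2.2.2, H _ t43754.1⟩, ⟨H _ t43754.2.1, H _ t43754.2.2.1⟩⟩, ⟨⟨H _ t43754.2.2.2.1, H _ t43754.2.2.2.2.1⟩, ⟨H _ t43754.2.2.2.2.2.1, H _ t43754.2.2.2.2.2.2⟩⟩⟩⟩⟩⟩⟩⟩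

end Pool.Agent.MP_c853c5_nt.X.C4950
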