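import Pool.Agent.MP_c853c5_nt.X.C4950.Env
import Pool.Agent.MP_c853c5_nt.X.C4950.Tab

set_option autoImplicit false
set_option maxRecDepth 8192
set_option linter.all false

namespace Pool.Agent.MP_c853c5_nt.X.C4950

open Pool.Agent.MP_c853c5_nt.X

def t43761 : allY (E.wth T3) l43761 = true ∧
    allY (E.wth T3) l43762 = true ∧
    allY (E.wth T3) l43763 = true ∧
    allY (E.wth T3) l43764 = true ∧
    allY (E.wth T3) l43765 = true ∧
    allY (E.wth T3) l43766 = true ∧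
    allY (E.wth T3) l43767 = true ∧
    allY (E.wth T3) l43768 = true :=
  ⟨by decide +kernel, by decide +kernel, by decide +kernel, by decide +kernel, by decide +kernel, by decide +kernel, by decide +kernel, by decide +kernel⟩

def t43769 : allY (E.wth T3) l43769 = true ∧
    allY (E.wth T3) l43770 = true ∧
    allY (E.wth T3) l43771 = true ∧
    allY (E.wth T3) l43772 = true ∧
    allY (E.wth T3) l43773 = true ∧
    allY (E.wth T3) l43774 = true ∧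
    allY (E.wth T3) l43775 = true ∧
    allY (E.wth T3) l43776 = true :=
  ⟨by decide +kernel, by decide +kernel, by decide +kernel, by decide +kernel, by decide +kernel, by decide +kernel, by decide +kernel, by decide +kernel⟩

def t43777 : allY (E.wth T3) l43777 = true ∧
    allY (E.wth T3) l43778 = true ∧
    allY (E.wth T3) l43779 = true ∧
    allY (E.wth T3) l43780 = true ∧
    allY (E.wth T3) l43781 = true ∧
    allY (E.wth T3) l43782 = true ∧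
    allY (E.wth T3) l43783 = true ∧
    allY (E.wth T3) l43784 = true :=
  ⟨by decide +kernel, by decide +kernel, by decide +kernel, by decide +kernel, by decide +kernel, by decide +kernel, by decide +kernel, by decide +kernel⟩

def t43785 : allY (E.wth T3) l43785 = true ∧
    allY (E.wth T3) l43786 = true ∧
    allY (E.wth T3) l43787 = true ∧
    allY (E.wth T3) l43788 = true ∧
    allY (E.wth T3) l43789 = true ∧
    allY (E.wth T3) l43790 = true ∧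
    allY (E.wth T3) l43791 = true ∧
    allY (E.wth T3) l43792 = true :=
  ⟨by decide +kernel, by decide +kernel, by decide +kernel, by decide +kernel, by decide +kernel, by decide +kernel, by decide +kernel, by decide +kernel⟩

def t43793 : allY (E.wth T3) l43793 = true ∧
    allY (E.wth T3) l43794 = true ∧
    allY (E.wth T3) l43795 = true ∧
    allY (E.wth T3) l43796 = true ∧
    allY (E.wth T3) l43797 = true ∧
    allY (E.wth T3) l43798 = true ∧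
    allY (E.wth T3) l43799 = true ∧
    allY (E.wth T3) l43800 = true :=
  ⟨by decide +kernel, by decide +kernel, by decide +kernel, by decide +kernel, by decide +kernel, by decide +kernel, by decide +kernel, by decide +kernel⟩

def t43801 : allY (E.wth T3) l43801 = true ∧
    allY (E.wth T3) l43802 = true ∧
    allY (E.wth T3) l43803 = true ∧
    allY (E.wth T3) l43804 = true ∧
    allY (E.wth T3) l43805 = true ∧
    allY (E.wth T3) l43806 = true ∧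
    allY (E.wth T3) l43807 = true ∧
    allY (E.wth T3) l43808 = true :=
  ⟨by decide +kernel, by decide +kernel, by decide +kernel, by decide +kernel, by decide +kernel, by decide +kernel, by decide +kernel, by decide +kernel⟩

def t43809 : allY (E.wth T3) l43809 = true ∧
    allY (E.wth T3) l43810 = true ∧
    allY (E.wth T3) l43811 = true ∧
    allY (E.wth T3) l43812 = true ∧
    allY (E.wth T3) l43813 = true ∧
    allY (E.wth T3) l43814 = true ∧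
    allY (E.wth T3) l43815 = true ∧
    allY (E.wth T3) l43816 = true :=
  ⟨by decide +kernel, by decide +kernel, by decide +kernel, by decide +kernel, by decide +kernel, by decide +kernel, by decide +kernel, by decide +kernel⟩

def t43817 : allY (E.wth T3) l43817 = true ∧
    allY (E.wth T3) l43818 = true ∧
    allY (E.wth T3) l43819 = true ∧
    allY (E.wth T3) l43820 = true ∧
    allY (E.wth T3) l43821 = true ∧
    allY (E.wth T3) l43822 = true ∧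
    allY (E.wth T3) l43823 = true ∧
    allY (E.wth T3) l43824 = true :=
  ⟨by decide +kernel, by decide +kernel, by decide +kernel, by decide +kernel, by decide +kernel, by decide +kernel, by decide +kernel, by decide +kernel⟩

def t43825 : allY (E.wth T3) l43825 = true ∧
    allY (E.wth T3) l43826 = true ∧
    allY (E.wth T3) l43827 = true ∧
    allY (E.wth T3) l43828 = true ∧
    allY (E.wth T3) l43829 = true ∧
    allY (E.wth T3) l43830 = true ∧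
    allY (E.wth T3) l43831 = true ∧
    allY (E.wth T3) l43832 = true :=
  ⟨by decide +kernel, by decide +kernel, by decide +kernel, by decide +kernel, by decide +kernel, by decide +kernel, by decide +kernel, by decide +kernel⟩

def t43833 : allY (E.wth T3) l43833 = true ∧
    allY (E.wth T3) l43834 = true ∧
    allY (E.wth T3) l43835 = true ∧
    allY (E.wth T3) l43836 = true ∧
    allY (E.wth T3) l43837 = true ∧
    allY (E.wth T3) l43838 = true ∧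
    allY (E.wth T3) l43839 = true ∧
    allY (E.wth T3) l43840 = true :=
  ⟨by decide +kernel, by decide +kernel, by decide +kernel, by decide +kernel, by decide +kernel, by decide +kernel, by decide +kernel, by decide +kernel⟩

def t43841 : allY (E.wth T3) l43841 = true ∧
    allY (E.wth T3) l43842 = true ∧
    allY (E.wth T3) l43843 = true ∧
    allY (E.wth T3) l43844 = true ∧
    allY (E.wth T3) l43845 = true ∧
    allY (E.wth T3) l43846 = true ∧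
    allY (E.wth T3) l43847 = true ∧
    allY (E.wth T3) l43848 = true :=
  ⟨by decide +kernel, by decide +kernel, by decide +kernel, by decide +kernel, by decide +kernel, by decide +kernel, by decide +kernel, by decide +kernel⟩

def t43849 : allY (E.wth T3) l43849 = true ∧
    allY (E.wth T3) l43850 = true ∧
    allY (E.wth T3) l43851 = true ∧
    allY (E.wth T3) l43852 = true ∧
    allY (E.wth T3) l43853 = true ∧
    allY (E.wth T3) l43854 = true ∧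
    allY (E.wth T3) l43855 = true ∧
    allY (E.wth T3) l43856 = true :=
  ⟨by decide +kernel, by decide +kernel, by decide +kernel, by decide +kernel, by decide +kernel, by decide +kernel, by decide +kernel, by decide +kernel⟩

def t43857 : allY (E.wth T3) l43857 = true ∧
    allY (E.wth T3) l43858 = true ∧
    allY (E.wth T3) l43859 = true ∧
    allY (E.wth T3) l43860 = true ∧
    allY (E.wth T3) l43861 = true ∧
    allY (E.wth T3) l43862 = true ∧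
    allY (E.wth T3) l43863 = true ∧
    allY (E.wth T3) l43864 = true :=
  ⟨by decide +kernel, by decide +kernel, by decide +kernel, by decide +kernel, by decide +kernel, by decide +kernel, by decide +kernel, by decide +kernel⟩

def t43865 : allY (E.wth T3) l43865 = true ∧
    allY (E.wth T3) l43866 = true ∧
    allY (E.wth T3) l43867 = true ∧
    allY (E.wth T3) l43868 = true ∧
    allY (E.wth T3) l43869 = true ∧
    allY (E.wth T3) l43870 = true ∧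
    allY (E.wth T3) l43871 = true ∧
    allY (E.wth T3) l43872 = true :=
  ⟨by decide +kernel, by decide +kernel, by decide +kernel, by decide +kernel, by decide +kernel, by decide +kernel, by decide +kernel, by decide +kernel⟩

def t43873 : allY (E.wth T3) l43873 = true ∧
    allY (E.wth T3) l43874 = true ∧
    allY (E.wth T3) l43875 = true ∧
    allY (E.wth T3) l43876 = true ∧
    allY (E.wth T3) l43877 = true ∧
    allY (E.wth T3) l43878 = true ∧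
    allY (E.wth T3) l43879 = true ∧
    allY (E.wth T3) l43880 = true :=
  ⟨by decide +kernel, by decide +kernel, by decide +kernel, by decide +kernel, by decide +kernel, by decide +kernel, by decide +kernel, by decide +kernel⟩

def t43881 : allY (E.wth T3) l43881 = true ∧
    allY (E.wth T3) l43882 = true ∧
    allY (E.wth T3) l43883 = true ∧
    allY (E.wth T3) l43884 = true ∧
    allY (E.wth T3) l43885 = true ∧
    allY (E.wth T3) l43886 = true ∧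
    allY (E.wth T3) l43887 = true ∧
    allY (E.wth T3) l43888 = true :=
  ⟨by decide +kernel, by decide +kernel, by decide +kernel, by decide +kernel, by decide +kernel, by decide +kernel, by decide +kernel, by decide +kernel⟩

def t43889 : allY (E.wth T3) l43889 = true ∧
    allY (E.wth T3) l43890 = true ∧
    allY (E.wth T3) l43891 = true ∧
    allY (E.wth T3) l43892 = true ∧
    allY (E.wth T3) l43893 = true ∧
    allY (E.wth T3) l43894 = true ∧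
    allY (E.wth T3) l43895 = true ∧
    allY (E.wth T3) l43896 = true :=
  ⟨by decide +kernel, by decide +kernel, by decide +kernel, by decide +kernel, by decide +kernel, by decide +kernel, by decide +kernel, by decide +kernel⟩

def t43897 : allY (E.wth T3) l43897 = true ∧
    allY (E.wth T3) l43898 = true ∧
    allY (E.wth T3) l43899 = true ∧
    allY (E.wth T3) l43900 = true ∧
    allY (E.wth T3) l43901 = true ∧
    allY (E.wth T3) l43902 = true ∧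
    allY (E.wth T3) l43903 = true ∧
    allY (E.wth T3) l43904 = true :=
  ⟨by decide +kernel, by decide +kernel, by decide +kernel, by decide +kernel, by decide +kernel, by decide +kernel, by decide +kernel, by decide +kernel⟩

def t43905 : allY (E.wth T3) l43905 = true ∧
    allY (E.wth T3) l43906 = true ∧
    allY (E.wth T3) l43907 = true ∧
    allY (E.wth T3) l43908 = true ∧
    allY (E.wth T3) l43909 = true ∧
    allY (E.wth T3) l43910 = true ∧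
    allY (E.wth T3) l43911 = true ∧
    allY (E.wth T3) l43912 = true :=
  ⟨by decide +kernel, by decide +kernel, by decide +kernel, by decide +kernel, by decide +kernel, by decide +kernel, by decide +kernel, by decide +kernel⟩

def t43913 : allY (E.wth T3) l43913 = true ∧
    allY (E.wth T3) l43914 = true ∧
    allY (E.wth T3) l43915 = true ∧
    allY (E.wth T3) l43916 = true ∧
    allY (E.wth T3) l43917 = true ∧
    allY (E.wth T3) l43918 = true ∧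
    allY (E.wth T3) l43919 = true ∧
    allY (E.wth T3) l43920 = true :=
  ⟨by decide +kernel, by decide +kernel, by decide +kernel, by decide +kernel, by decide +kernel, by decide +kernel, by decide +kernel, by decide +kernel⟩

def t43921 : allY (E.wth T3) l43921 = true ∧
    allY (E.wth T3) l43922 = true ∧
    allY (E.wth T3) l43923 = true ∧
    allY (E.wth T3) l43924 = true ∧
    allY (E.wth T3) l43925 = true ∧
    allY (E.wth T3) l43926 = true ∧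
    allY (E.wth T3) l43927 = true ∧
    allY (E.wth T3) l43928 = true :=
  ⟨by decide +kernel, by decide +kernel, by decide +kernel, by decide +kernel, by decide +kernel, by decide +kernel, by decide +kernel, by decide +kernel⟩

def t43929 : allY (E.wth T3) l43929 = true ∧
    allY (E.wth T3) l43930 = true ∧
    allY (E.wth T3) l43931 = true ∧
    allY (E.wth T3) l43932 = true ∧
    allY (E.wth T3) l43933 = true ∧
    allY (E.wth T3) l43934 = true ∧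
    allY (E.wth T3) l43935 = true ∧
    allY (E.wth T3) l43936 = true :=
  ⟨by decide +kernel, by decide +kernel, by decide +kernel, by decide +kernel, by decide +kernel, by decide +kernel, by decide +kernel, by decide +kernel⟩

def t43937 : allY (E.wth T3) l43937 = true ∧
    allY (E.wth T3) l43938 = true ∧
    allY (E.wth T3) l43939 = true ∧
    allY (E.wth T3) l43940 = true ∧
    allY (E.wth T3) l43941 = true ∧
    allY (E.wth T3) l43942 = true ∧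
    allY (E.wth T3) l43943 = true ∧
    allY (E.wth T3) l43944 = true :=
  ⟨by decide +kernel, by decide +kernel, by decide +kernel, by decide +kernel, by decide +kernel, by decide +kernel, by decide +kernel, by decide +kernel⟩

def t43945 : allY (E.wth T3) l43945 = true ∧
    allY (E.wth T3) l43946 = true ∧
    allY (E.wth T3) l43947 = true ∧
    allY (E.wth T3) l43948 = true ∧
    allY (E.wth T3) l43949 = true ∧
    allY (E.wth T3) l43950 = true ∧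
    allY (E.wth T3) l43951 = true ∧
    allY (E.wth T3) l43952 = true :=
  ⟨by decide +kernel, by decide +kernel, by decide +kernel, by decide +kernel, by decide +kernel, by decide +kernel, by decide +kernel, by decide +kernel⟩

def t43953 : allY (E.wth T3) l43953 = true ∧
    allY (E.wth T3) l43954 = true ∧
    allY (E.wth T3) l43955 = true ∧
    allY (E.wth T3) l43956 = true ∧
    allY (E.wth T3) l43957 = true ∧
    allY (E.wth T3) l43958 = true ∧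
    allY (E.wth T3) l43959 = true ∧
    allY (E.wth T3) l43960 = true :=
  ⟨by decide +kernel, by decide +kernel, by decide +kernel, by decide +kernel, by decide +kernel, by decide +kernel, by decide +kernel, by decide +kernel⟩

def t43961 : allY (E.wth T3) l43961 = true ∧
    allY (E.wth T3) l43962 = true ∧
    allY (E.wth T3) l43963 = true ∧
    allY (E.wth T3) l43964 = true ∧
    allY (E.wth T3) l43965 = true ∧
    allY (E.wth T3) l43966 = true ∧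
    allY (E.wth T3) l43967 = true ∧
    allY (E.wth T3) l43968 = true :=
  ⟨by decide +kernel, by decide +kernel, by decide +kernel, by decide +kernel, by decide +kernel, by decide +kernel, by decide +kernel, by decide +kernel⟩

def t43969 : allY (E.wth T3) l43969 = true ∧
    allY (E.wth T3) l43970 = true ∧
    allY (E.wth T3) l43971 = true ∧
    allY (E.wth T3) l43972 = true ∧
    allY (E.wth T3) l43973 = true ∧
    allY (E.wth T3) l43974 = true ∧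
    allY (E.wth T3) l43975 = true ∧
    allY (E.wth T3) l43976 = true :=
  ⟨by decide +kernel, by decide +kernel, by decide +kernel, by decide +kernel, by decide +kernel, by decide +kernel, by decide +kernel, by decide +kernel⟩

def t43977 : allY (E.wth T3) l43977 = true ∧
    allY (E.wth T3) l43978 = true ∧
    allY (E.wth T3) l43979 = true ∧
    allY (E.wth T3) l43980 = true ∧
    allY (E.wth T3) l43981 = true ∧
    allY (E.wth T3) l43982 = true ∧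
    allY (E.wth T3) l43983 = true ∧
    allY (E.wth T3) l43984 = true :=
  ⟨by decide +kernel, by decide +kernel, by decide +kernel, by decide +kernel, by decide +kernel, by decide +kernel, by decide +kernel, by decide +kernel⟩

def t43985 : allY (E.wth T3) l43985 = true ∧
    allY (E.wth T3) l43986 = true ∧
    allY (E.wth T3) l43987 = true ∧
    allY (E.wth T3) l43988 = true ∧
    allY (E.wth T3) l43989 = true ∧
    allY (E.wth T3) l43990 = true ∧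
    allY (E.wth T3) l43991 = true ∧
    allY (E.wth T3) l43992 = true :=
  ⟨by decide +kernel, by decide +kernel, by decide +kernel, by decide +kernel, by decide +kernel, by decide +kernel, by decide +kernel, by decide +kernel⟩

def t43993 : allY (E.wth T3) l43993 = true ∧
    allY (E.wth T3) l43994 = true ∧
    allY (E.wth T3) l43995 = true ∧
    allY (E.wth T3) l43996 = true ∧
    allY (E.wth T3) l43997 = true ∧
    allY (E.wth T3) l43998 = true ∧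
    allY (E.wth T3) l43999 = true ∧
    allY (E.wth T3) l44000 = true :=
  ⟨by decide +kernel, by decide +kernel, by decide +kernel, by decide +kernel, by decide +kernel, by decide +kernel, by decide +kernel, by decide +kernel⟩

def t44001 : allY (E.wth T3) l44001 = true ∧
    allY (E.wth T3) l44002 = true ∧
    allY (E.wth T3) l44003 = true ∧
    allY (E.wth T3) l44004 = true ∧
    allY (E.wth T3) l44005 = true ∧
    allY (E.wth T3) l44006 = true ∧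
    allY (E.wth T3) l44007 = true ∧
    allY (E.wth T3) l44008 = true :=
  ⟨by decide +kernel, by decide +kernel, by decide +kernel, by decide +kernel, by decide +kernel, by decide +kernel, by decide +kernel, by decide +kernel⟩

def t44009 : allY (E.wth T3) l44009 = true ∧
    allY (E.wth T3) l44010 = true ∧
    allY (E.wth T3) l44011 = true ∧
    allY (E.wth T3) l44012 = true ∧
    allY (E.wth T3) l44013 = true ∧
    allY (E.wth T3) l44014 = true ∧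
    allY (E.wth T3) l44015 = true ∧
    allY (E.wth T3) l44016 = true :=
  ⟨by decide +kernel, by decide +kernel, by decide +kernel, by decide +kernel, by decide +kernel, by decide +kernel, by decide +kernel, by decide +kernel⟩

def t44017 : allY (E.wth T3) l44017 = true ∧
    allY (E.wth T3) l44018 = true ∧
    allY (E.wth T3) l44019 = true ∧
    allY (E.wth T3) l44020 = true ∧
    allY (E.wth T3) l44021 = true ∧
    allY (E.wth T3) l44022 = true ∧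
    allY (E.wth T3) l44023 = true ∧
    allY (E.wth T3) l44024 = true :=
  ⟨by decide +kernel, by decide +kernel, by decide +kernel, by decide +kernel, by decide +kernel, by decide +kernel, by decide +kernel, by decide +kernel⟩

def t44025 : allY (E.wth T3) l44025 = true ∧
    allY (E.wth T3) l44026 = true ∧
    allY (E.wth T3) l44027 = true ∧
    allY (E.wth T3) l44028 = true ∧
    allY (E.wth T3) l44029 = true ∧
    allY (E.wth T3) l44030 = true ∧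
    allY (E.wth T3) l44031 = true ∧
    allY (E.wth T3) l44032 = true :=
  ⟨by decide +kernel, by decide +kernel, by decide +kernel, by decide +kernel, by decide +kernel, by decide +kernel, by decide +kernel, by decide +kernel⟩

def t44033 : allY (E.wth T3) l44033 = true ∧
    allY (E.wth T3) l44034 = true ∧
    allY (E.wth T3) l44035 = true ∧
    allY (E.wth T3) l44036 = true ∧
    allY (E.wth T3) l44037 = true ∧
    allY (E.wth T3) l44038 = true ∧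
    allY (E.wth T3) l44039 = true ∧
    allY (E.wth T3) l44040 = true :=
  ⟨by decide +kernel, by decide +kernel, by decide +kernel, by decide +kernel, by decide +kernel, by decide +kernel, by decide +kernel, by decide +kernel⟩

def t44041 : allY (E.wth T3) l44041 = true ∧
    allY (E.wth T3) l44042 = true ∧
    allY (E.wth T3) l44043 = true ∧
    allY (E.wth T3) l44044 = true ∧
    allY (E.wth T3) l44045 = true ∧
    allY (E.wth T3) l44046 = true ∧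
    allY (E.wth T3) l44047 = true ∧
    allY (E.wth T3) l44048 = true :=
  ⟨by decide +kernel, by decide +kernel, by decide +kernel, by decide +kernel, by decide +kernel, by decide +kernel, by decide +kernel, by decide +kernel⟩

def t44049 : allY (E.wth T3) l44049 = true ∧
    allY (E.wth T3) l44050 = true ∧
    allY (E.wth T3) l44051 = true ∧
    allY (E.wth T3) l44052 = true ∧
    allY (E.wth T3) l44053 = true ∧
    allY (E.wth T3) l44054 = true ∧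
    allY (E.wth T3) l44055 = true ∧
    allY (E.wth T3) l44056 = true :=
  ⟨by decide +kernel, by decide +kernel, by decide +kernel, by decide +kernel, by decide +kernel, by decide +kernel, by decide +kernel, by decide +kernel⟩

def t44057 : allY (E.wth T3) l44057 = true ∧
    allY (E.wth T3) l44058 = true ∧
    allY (E.wth T3) l44059 = true ∧
    allY (E.wth T3) l44060 = true ∧
    allY (E.wth T3) l44061 = true ∧
    allY (E.wth T3) l44062 = true ∧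
    allY (E.wth T3) l44063 = true ∧
    allY (E.wth T3) l44064 = true :=
  ⟨by decide +kernel, by decide +kernel, by decide +kernel, by decide +kernel, by decide +kernel, by decide +kernel, by decide +kernel, by decide +kernel⟩

def t44065 : allY (E.wth T3) l44065 = true ∧
    allY (E.wth T3) l44066 = true ∧
    allY (E.wth T3) l44067 = true ∧
    allY (E.wth T3) l44068 = true ∧
    allY (E.wth T3) l44069 = true ∧
    allY (E.wth T3) l44070 = true ∧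
    allY (E.wth T3) l44071 = true ∧
    allY (E.wth T3) l44072 = true :=
  ⟨by decide +kernel, by decide +kernel, by decide +kernel, by decide +kernel, by decide +kernel, by decide +kernel, by decide +kernel, by decide +kernel⟩

def t44073 : allY (E.wth T3) l44073 = true ∧
    allY (E.wth T3) l44074 = true ∧
    allY (E.wth T3) l44075 = true ∧
    allY (E.wth T3) l44076 = true ∧
    allY (E.wth T3) l44077 = true ∧
    allY (E.wth T3) l44078 = true ∧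
    allY (E.wth T3) l44079 = true ∧
    allY (E.wth T3) l44080 = true :=
  ⟨by decide +kernel, by decide +kernel, by decide +kernel, by decide +kernel, by decide +kernel, by decide +kernel, by decide +kernel, by decide +kernel⟩

def t44081 : allY (E.wth T3) l44081 = true ∧
    allY (E.wth T3) l44082 = true ∧
    allY (E.wth T3) l44083 = true ∧
    allY (E.wth T3) l44084 = true ∧
    allY (E.wth T3) l44085 = true ∧
    allY (E.wth T3) l44086 = true ∧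
    allY (E.wth T3) l44087 = true ∧
    allY (E.wth T3) l44088 = true :=
  ⟨by decide +kernel, by decide +kernel, by decide +kernel, by decide +kernel, by decide +kernel, by decide +kernel, by decide +kernel, by decide +kernel⟩

def t44089 : allY (E.wth T3) l44089 = true ∧
    allY (E.wth T3) l44090 = true ∧
    allY (E.wth T3) l44091 = true ∧
    allY (E.wth T3) l44092 = true ∧
    allY (E.wth T3) l44093 = true ∧
    allY (E.wth T3) l44094 = true ∧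
    allY (E.wth T3) l44095 = true ∧
    allY (E.wth T3) l44096 = true :=
  ⟨by decide +kernel, by decide +kernel, by decide +kernel, by decide +kernel, by decide +kernel, by decide +kernel, by decide +kernel, by decide +kernel⟩

def t44097 : allY (E.wth T3) l44097 = true ∧
    allY (E.wth T3) l44098 = true ∧
    allY (E.wth T3) l44099 = true ∧
    allY (E.wth T3) l44100 = true ∧
    allY (E.wth T3) l44101 = true ∧
    allY (E.wth T3) l44102 = true ∧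
    allY (E.wth T3) l44103 = true ∧
    allY (E.wth T3) l44104 = true :=
  ⟨by decide +kernel, by decide +kernel, by decide +kernel, by decide +kernel, by decide +kernel, by decide +kernel, by decide +kernel, by decide +kernel⟩

def t44105 : allY (E.wth T3) l44105 = true ∧
    allY (E.wth T3) l44106 = true ∧
    allY (E.wth T3) l44107 = true ∧
    allY (E.wth T3) l44108 = true ∧
    allY (E.wth T3) l44109 = true ∧
    allY (E.wth T3) l44110 = true ∧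
    allY (E.wth T3) l44111 = true ∧
    allY (E.wth T3) l44112 = true :=
  ⟨by decide +kernel, by decide +kernel, by decide +kernel, by decide +kernel, by decide +kernel, by decide +kernel, by decide +kernel, by decide +kernel⟩

def t44113 : allY (E.wth T3) l44113 = true ∧
    allY (E.wth T3) l44114 = true ∧
    allY (E.wth T3) l44115 = true ∧
    allY (E.wth T3) l44116 = true ∧
    allY (E.wth T3) l44117 = true ∧
    allY (E.wth T3) l44118 = true ∧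
    allY (E.wth T3) l44119 = true ∧
    allY (E.wth T3) l44120 = true :=
  ⟨by decide +kernel, by decide +kernel, by decide +kernel, by decide +kernel, by decide +kernel, by decide +kernel, by decide +kernel, by decide +kernel⟩

def t44121 : allY (E.wth T3) l44121 = true ∧
    allY (E.wth T3) l44122 = true ∧
    allY (E.wth T3) l44123 = true ∧
    allY (E.wth T3) l44124 = true ∧
    allY (E.wth T3) l44125 = true ∧
    allY (E.wth T3) l44126 = true ∧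
    allY (E.wth T3) l44127 = true ∧
    allY (E.wth T3) l44128 = true :=
  ⟨by decide +kernel, by decide +kernel, by decide +kernel, by decide +kernel, by decide +kernel, by decide +kernel, by decide +kernel, by decide +kernel⟩

def t44129 : allY (E.wth T3) l44129 = true ∧
    allY (E.wth T3) l44130 = true ∧
    allY (E.wth T3) l44131 = true ∧
    allY (E.wth T3) l44132 = true ∧
    allY (E.wth T3) l44133 = true ∧
    allY (E.wth T3) l44134 = true ∧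
    allY (E.wth T3) l44135 = true ∧
    allY (E.wth T3) l44136 = true :=
  ⟨by decide +kernel, by decide +kernel, by decide +kernel, by decide +kernel, by decide +kernel, by decide +kernel, by decide +kernel, by decide +kernel⟩

def t44137 : allY (E.wth T3) l44137 = true ∧
    allY (E.wth T3) l44138 = true ∧
    allY (E.wth T3) l44139 = true ∧
    allY (E.wth T3) l44140 = true ∧
    allY (E.wth T3) l44141 = true ∧
    allY (E.wth T3) l44142 = true ∧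
    allY (E.wth T3) l44143 = true ∧
    allY (E.wth T3) l44144 = true :=
  ⟨by decide +kernel, by decide +kernel, by decide +kernel, by decide +kernel, by decide +kernel, by decide +kernel, by decide +kernel, by decide +kernel⟩

def t44145 : allY (E.wth T3) l44145 = true ∧
    allY (E.wth T3) l44146 = true ∧
    allY (E.wth T3) l44147 = true ∧
    allY (E.wth T3) l44148 = true ∧
    allY (E.wth T3) l44149 = true ∧
    allY (E.wth T3) l44150 = true ∧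
    allY (E.wth T3) l44151 = true ∧
    allY (E.wth T3) l44152 = true :=
  ⟨by decide +kernel, by decide +kernel, by decide +kernel, by decide +kernel, by decide +kernel, by decide +kernel, by decide +kernel, by decide +kernel⟩

def t44153 : allY (E.wth T3) l44153 = true ∧
    allY (E.wth T3) l44154 = true ∧
    allY (E.wth T3) l44155 = true ∧
    allY (E.wth T3) l44156 = true ∧
    allY (E.wth T3) l44157 = true ∧
    allY (E.wth T3) l44158 = true ∧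
    allY (E.wth T3) l44159 = true ∧
    allY (E.wth T3) l44160 = true :=
  ⟨by decide +kernel, by decide +kernel, by decide +kernel, by decide +kernel, by decide +kernel, by decide +kernel, by decide +kernel, by decide +kernel⟩

def t44161 : allY (E.wth T3) l44161 = true ∧
    allY (E.wth T3) l44162 = true ∧
    allY (E.wth T3) l44163 = true ∧
    allY (E.wth T3) l44164 = true ∧
    allY (E.wth T3) l44165 = true ∧
    allY (E.wth T3) l44166 = true ∧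
    allY (E.wth T3) l44167 = true ∧
    allY (E.wth T3) l44168 = true :=
  ⟨by decide +kernel, by decide +kernel, by decide +kernel, by decide +kernel, by decide +kernel, by decide +kernel, by decide +kernel, by decide +kernel⟩

def t44169 : allY (E.wth T3) l44169 = true ∧
    allY (E.wth T3) l44170 = true ∧
    allY (E.wth T3) l44171 = true ∧
    allY (E.wth T3) l44172 = true ∧
    allY (E.wth T3) l44173 = true ∧
    allY (E.wth T3) l44174 = true ∧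
    allY (E.wth T3) l44175 = true ∧
    allY (E.wth T3) l44176 = true :=
  ⟨by decide +kernel, by decide +kernel, by decide +kernel, by decide +kernel, by decide +kernel, by decide +kernel, by decide +kernel, by decide +kernel⟩

def t44177 : allY (E.wth T3) l44177 = true ∧
    allY (E.wth T3) l44178 = true ∧
    allY (E.wth T3) l44179 = true ∧
    allY (E.wth T3) l44180 = true ∧
    allY (E.wth T3) l44181 = true ∧
    allY (E.wth T3) l44182 = true ∧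
    allY (E.wth T3) l44183 = true ∧
    allY (E.wth T3) l44184 = true :=
  ⟨by decide +kernel, by decide +kernel, by decide +kernel, by decide +kernel, by decide +kernel, by decide +kernel, by decide +kernel, by decide +kernel⟩

def t44185 : allY (E.wth T3) l44185 = true ∧
    allY (E.wth T3) l44186 = true ∧
    allY (E.wth T3) l44187 = true ∧
    allY (E.wth T3) l44188 = true ∧
    allY (E.wth T3) l44189 = true ∧
    allY (E.wth T3) l44190 = true ∧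
    allY (E.wth T3) l44191 = true ∧
    allY (E.wth T3) l44192 = true :=
  ⟨by decide +kernel, by decide +kernel, by decide +kernel, by decide +kernel, by decide +kernel, by decide +kernel, by decide +kernel, by decide +kernel⟩

def t44193 : allY (E.wth T3) l44193 = true ∧
    allY (E.wth T3) l44194 = true ∧
    allY (E.wth T3) l44195 = true ∧
    allY (E.wth T3) l44196 = true ∧
    allY (E.wth T3) l44197 = true ∧
    allY (E.wth T3) l44198 = true ∧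
    allY (E.wth T3) l44199 = true ∧
    allY (E.wth T3) l44200 = true :=
  ⟨by decide +kernel, by decide +kernel, by decide +kernel, by decide +kernel, by decide +kernel, by decide +kernel, by decide +kernel, by decide +kernel⟩

def t44201 : allY (E.wth T3) l44201 = true ∧
    allY (E.wth T3) l44202 = true ∧
    allY (E.wth T3) l44203 = true ∧
    allY (E.wth T3) l44204 = true ∧
    allY (E.wth T3) l44205 = true ∧
    allY (E.wth T3) l44206 = true ∧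
    allY (E.wth T3) l44207 = true ∧
    allY (E.wth T3) l44208 = true :=
  ⟨by decide +kernel, by decide +kernel, by decide +kernel, by decide +kernel, by decide +kernel, by decide +kernel, by decide +kernel, by decide +kernel⟩

def t44209 : allY (E.wth T3) l44209 = true ∧
    allY (E.wth T3) l44210 = true ∧
    allY (E.wth T3) l44211 = true ∧
    allY (E.wth T3) l44212 = true ∧
    allY (E.wth T3) l44213 = true ∧
    allY (E.wth T3) l44214 = true ∧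
    allY (E.wth T3) l44215 = true ∧
    allY (E.wth T3) l44216 = true :=
  ⟨by decide +kernel, by decide +kernel, by decide +kernel, by decide +kernel, by decide +kernel, by decide +kernel, by decide +kernel, by decide +kernel⟩

def t44217 : allY (E.wth T3) l44217 = true ∧
    allY (E.wth T3) l44218 = true ∧
    allY (E.wth T3) l44219 = true ∧
    allY (E.wth T3) l44220 = true ∧
    allY (E.wth T3) l44221 = true ∧
    allY (E.wth T3) l44222 = true ∧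
    allY (E.wth T3) l44223 = true ∧
    allY (E.wth T3) l44224 = true :=
  ⟨by decide +kernel, by decide +kernel, by decide +kernel, by decide +kernel, by decide +kernel, by decide +kernel, by decide +kernel, by decide +kernel⟩

def t44225 : allY (E.wth T3) l44225 = true ∧
    allY (E.wth T3) l44226 = true ∧
    allY (E.wth T3) l44227 = true ∧
    allY (E.wth T3) l44228 = true ∧
    allY (E.wth T3) l44229 = true ∧
    allY (E.wth T3) l44230 = true ∧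
    allY (E.wth T3) l44231 = true ∧
    allY (E.wth T3) l44232 = true :=
  ⟨by decide +kernel, by decide +kernel, by decide +kernel, by decide +kernel, by decide +kernel, by decide +kernel, by decide +kernel, by decide +kernel⟩

def t44233 : allY (E.wth T3) l44233 = true ∧
    allY (E.wth T3) l44234 = true ∧
    allY (E.wth T3) l44235 = true ∧
    allY (E.wth T3) l44236 = true ∧
    allY (E.wth T3) l44237 = true ∧
    allY (E.wth T3) l44238 = true ∧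
    allY (E.wth T3) l44239 = true ∧
    allY (E.wth T3) l44240 = true :=
  ⟨by decide +kernel, by decide +kernel, by decide +kernel, by decide +kernel, by decide +kernel, by decide +kernel, by decide +kernel, by decide +kernel⟩

def t44241 : allY (E.wth T3) l44241 = true ∧
    allY (E.wth T3) l44242 = true ∧
    allY (E.wth T3) l44243 = true ∧
    allY (E.wth T3) l44244 = true ∧
    allY (E.wth T3) l44245 = true ∧
    allY (E.wth T3) l44246 = true ∧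
    allY (E.wth T3) l44247 = true ∧
    allY (E.wth T3) l44248 = true :=
  ⟨by decide +kernel, by decide +kernel, by decide +kernel, by decide +kernel, by decide +kernel, by decide +kernel, by decide +kernel, by decide +kernel⟩

def t44249 : allY (E.wth T3) l44249 = true ∧
    allY (E.wth T3) l44250 = true ∧
    allY (E.wth T3) l44251 = true ∧
    allY (E.wth T3) l44252 = true ∧
    allY (E.wth T3) l44253 = true ∧
    allY (E.wth T3) l44254 = true ∧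
    allY (E.wth T3) l44255 = true ∧
    allY (E.wth T3) l44256 = true :=
  ⟨by decide +kernel, by decide +kernel, by decide +kernel, by decide +kernel, by decide +kernel, by decide +kernel, by decide +kernel, by decide +kernel⟩

def t44257 : allY (E.wth T3) l44257 = true ∧
    allY (E.wth T3) l44258 = true ∧
    allY (E.wth T3) l44259 = true ∧
    allY (E.wth T3) l44260 = true ∧
    allY (E.wth T3) l44261 = true ∧
    allY (E.wth T3) l44262 = true ∧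
    allY (E.wth T3) l44263 = true ∧
    allY (E.wth T3) l44264 = true :=
  ⟨by decide +kernel, by decide +kernel, by decide +kernel, by decide +kernel, by decide +kernel, by decide +kernel, by decide +kernel, by decide +kernel⟩

def t44265 : allY (E.wth T3) l44265 = true ∧
    allY (E.wth T3) l44266 = true ∧
    allY (E.wth T3) l44267 = true ∧
    allY (E.wth T3) l44268 = true ∧
    allY (E.wth T3) l44269 = true ∧
    allY (E.wth T3) l44270 = true ∧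
    allY (E.wth T3) l44271 = true ∧
    allY (E.wth T3) l44272 = true :=
  ⟨by decide +kernel, by decide +kernel, by decide +kernel, by decide +kernel, by decide +kernel, by decide +kernel, by decide +kernel, by decide +kernel⟩

def t44273 : allY (E.wth T3) l44273 = true ∧
    allY (E.wth T3) l44274 = true ∧
    allY (E.wth T3) l44275 = true ∧
    allY (E.wth T3) l44276 = true ∧
    allY (E.wth T3) l44277 = true ∧
    allY (E.wth T3) l44278 = true ∧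
    allY (E.wth T3) l44279 = true ∧
    allY (E.wth T3) l44280 = true :=
  ⟨by decide +kernel, by decide +kernel, by decide +kernel, by decide +kernel, by decide +kernel, by decide +kernel, by decide +kernel, by decide +kernel⟩

def t44281 : allY (E.wth T3) l44281 = true ∧
    allY (E.wth T3) l44282 = true ∧
    allY (E.wth T3) l44283 = true ∧
    allY (E.wth T3) l44284 = true ∧
    allY (E.wth T3) l44285 = true ∧
    allY (E.wth T3) l44286 = true ∧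
    allY (E.wth T3) l44287 = true ∧
    allY (E.wth T3) l44288 = true :=
  ⟨by decide +kernel, by decide +kernel, by decide +kernel, by decide +kernel, by decide +kernel, by decide +kernel, by decide +kernel, by decide +kernel⟩

def t44289 : allY (E.wth T3) l44289 = true ∧
    allY (E.wth T3) l44290 = true ∧
    allY (E.wth T3) l44291 = true ∧
    allY (E.wth T3) l44292 = true ∧
    allY (E.wth T3) l44293 = true ∧
    allY (E.wth T3) l44294 = true ∧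
    allY (E.wth T3) l44295 = true ∧
    allY (E.wth T3) l44296 = true :=
  ⟨by decide +kernel, by decide +kernel, by decide +kernel, by decide +kernel, by decide +kernel, by decide +kernel, by decide +kernel, by decide +kernel⟩

def t44297 : allY (E.wth T3) l44297 = true ∧
    allY (E.wth T3) l44298 = true ∧
    allY (E.wth T3) l44299 = true ∧
    allY (E.wth T3) l44300 = true ∧
    allY (E.wth T3) l44301 = true ∧
    allY (E.wth T3) l44302 = true ∧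
    allY (E.wth T3) l44303 = true ∧
    allY (E.wth T3) l44304 = true :=
  ⟨by decide +kernel, by decide +kernel, by decide +kernel, by decide +kernel, by decide +kernel, by decide +kernel, by decide +kernel, by decide +kernel⟩

def t44305 : allY (E.wth T3) l44305 = true ∧
    allY (E.wth T3) l44306 = true ∧
    allY (E.wth T3) l44307 = true ∧
    allY (E.wth T3) l44308 = true ∧
    allY (E.wth T3) l44309 = true ∧
    allY (E.wth T3) l44310 = true ∧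
    allY (E.wth T3) l44311 = true ∧
    allY (E.wth T3) l44312 = true :=
  ⟨by decide +kernel, by decide +kernel, by decide +kernel, by decide +kernel, by decide +kernel, by decide +kernel, by decide +kernel, by decide +kernel⟩

def t44313 : allY (E.wth T3) l44313 = true ∧
    allY (E.wth T3) l44314 = true ∧
    allY (E.wth T3) l44315 = true ∧
    allY (E.wth T3) l44316 = true ∧
    allY (E.wth T3) l44317 = true ∧
    allY (E.wth T3) l44318 = true ∧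
    allY (E.wth T3) l44319 = true ∧
    allY (E.wth T3) l44320 = true :=
  ⟨by decide +kernel, by decide +kernel, by decide +kernel, by decide +kernel, by decide +kernel, by decide +kernel, by decide +kernel, by decide +kernel⟩

def t44321 : allY (E.wth T3) l44321 = true ∧
    allY (E.wth T3) l44322 = true ∧
    allY (E.wth T3) l44323 = true ∧
    allY (E.wth T3) l44324 = true ∧
    allY (E.wth T3) l44325 = true ∧
    allY (E.wth T3) l44326 = true ∧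
    allY (E.wth T3) l44327 = true ∧
    allY (E.wth T3) l44328 = true :=
  ⟨by decide +kernel, by decide +kernel, by decide +kernel, by decide +kernel, by decide +kernel, by decide +kernel, by decide +kernel, by decide +kernel⟩

def t44329 : allY (E.wth T3) l44329 = true ∧
    allY (E.wth T3) l44330 = true ∧
    allY (E.wth T3) l44331 = true ∧
    allY (E.wth T3) l44332 = true ∧
    allY (E.wth T3) l44333 = true ∧
    allY (E.wth T3) l44334 = true ∧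
    allY (E.wth T3) l44335 = true ∧
    allY (E.wth T3) l44336 = true :=
  ⟨by decide +kernel, by decide +kernel, by decide +kernel, by decide +kernel, by decide +kernel, by decide +kernel, by decide +kernel, by decide +kernel⟩

def t44337 : allY (E.wth T3) l44337 = true ∧
    allY (E.wth T3) l44338 = true :=
  ⟨by decide +kernel, by decide +kernel⟩

theorem a81 {p : Rf → Prop} (H : ∀ l, allY (E.wth T3) l = true → (lkp l).All p) :
    b81.All p := ⟨⟨⟨⟨⟨⟨⟨⟨⟨H _ t43761.1, H _ t43761.2.1⟩, ⟨H _ t43761.2.2.1, H _ t43761.2.2.2.1⟩⟩, ⟨⟨H _ t43761.2.2.2.2.1, H _ t43761.2.2.2.2.2.1⟩, ⟨H _ t43761.2.2.2.2.2.2.1, ⟨H _ t43761.2.2.2.2.2.2.2, H _ t43769.1⟩⟩⟩⟩, ⟨⟨⟨H _ t43769.2.1, H _ t43769.2.2.1⟩, ⟨H _ t43769.2.2.2.1, H _ t43769.2.2.2.2.1⟩⟩, ⟨⟨H _ t43769.2.2.2.2.2.1, H _ t43769.2.2.2.2.2.2.1⟩, ⟨H _ t43769.2.2.2.2.2.2.2, ⟨H _ t43777.1, H _ t43777.2.1⟩⟩⟩⟩⟩, ⟨⟨⟨⟨H _ t43777.2.2.1, H _ t43777.2.2.2.1⟩, ⟨H _ t43777.2.2.2.2.1,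 H _ t43777.2.2.2.2.2.1⟩⟩, ⟨⟨H _ t43777.2.2.2.2.2.2.1, H _ t43777.2.2.2.2.2.2.2⟩, ⟨H _ t43785.1, ⟨H _ t43785.2.1, H _ t43785.2.2.1⟩⟩⟩⟩, ⟨⟨⟨H _ t43785.2.2.2.1, H _ t43785.2.2.2.2.1⟩, ⟨H _ t43785.2.2.2.2.2.1, H _ t43785.2.2.2.2.2.2.1⟩⟩, ⟨⟨H _ t43785.2.2.2.2.2.2.2, H _ t43793.1⟩, ⟨H _ t43793.2.1, ⟨H _ t43793.2.2.1, H _ t43793.2.2.2.1⟩⟩⟩⟩⟩⟩, ⟨⟨⟨⟨⟨H _ t43793.2.2.2.2.1, H _ t43793.2.2.2.2.2.1⟩, ⟨H _ t43793.2.2.2.2.2.2.1, H _ t43793.2.2.2.2.2.2.2⟩⟩, ⟨⟨H _ t43801.1, H _ t43801.2.1⟩, ⟨H _ t43801.2.2.1, ⟨H _ t43801.2.2.2.1, H _ t43801.2.2.2.2.1⟩⟩⟩⟩, ⟨⟨⟨H _ t43801.2.2.2.2.2.1, H _ t43801.2.2.2.2.2.2.1⟩, ⟨H _ t43801.2.2.2.2.2.2.2, H _ t43809.1⟩⟩, ⟨⟨H _ t43809.2.1, H _ t43809.2.2.1⟩, ⟨H _ t43809.2.2.2.1, ⟨H _ t43809.2.2.2.2.1, H _ t43809.2.2.2.2.2.1⟩⟩⟩⟩⟩, ⟨⟨⟨⟨H _ t43809.2.2.2.2.2.2.1, H _ t43809.2.2.2.2.2.2.2⟩, ⟨H _ t43817.1, H _ t43817.2.1⟩⟩, ⟨⟨H _ t43817.2.2.1, H _ t43817.2.2.2.1⟩, ⟨H _ t43817.2.2.2.2.1,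 ⟨H _ t43817.2.2.2.2.2.1, H _ t43817.2.2.2.2.2.2.1⟩⟩⟩⟩, ⟨⟨⟨H _ t43817.2.2.2.2.2.2.2, H _ t43825.1⟩, ⟨H _ t43825.2.1, H _ t43825.2.2.1⟩⟩, ⟨⟨H _ t43825.2.2.2.1, H _ t43825.2.2.2.2.1⟩, ⟨H _ t43825.2.2.2.2.2.1, ⟨H _ t43825.2.2.2.2.2.2.1, H _ t43825.2.2.2.2.2.2.2⟩⟩⟩⟩⟩⟩⟩, ⟨⟨⟨⟨⟨⟨H _ t43833.1, H _ t43833.2.1⟩, ⟨H _ t43833.2.2.1, H _ t43833.2.2.2.1⟩⟩, ⟨⟨H _ t43833.2.2.2.2.1, H _ t43833.2.2.2.2.2.1⟩, ⟨H _ t43833.2.2.2.2.2.2.1, ⟨H _ t43833.2.2.2.2.2.2.2, H _ t43841.1⟩⟩⟩⟩, ⟨⟨⟨H _ t43841.2.1, H _ t43841.2.2.1⟩, ⟨H _ t43841.2.2.2.1, H _ t43841.2.2.2.2.1⟩⟩, ⟨⟨H _ t43841.2.2.2.2.2.1, H _ t43841.2.2.2.2.2.2.1⟩, ⟨H _ t43841.2.2.2.2.2.2.2, ⟨H _ t43849.1, H _ t43849.2.1⟩⟩⟩⟩⟩, ⟨⟨⟨⟨H _ t43849.2.2.1, H _ t43849.2.2.2.1⟩, ⟨H _ t43849.2.2.2.2.1, H _ t43849.2.2.2.2.2.1⟩⟩, ⟨⟨H _ t43849.2.2.2.2.2.2.1, H _ t43849.2.2.2.2.2.2.2⟩, ⟨H _ t43857.1, ⟨H _ t43857.2.1, H _ t43857.2.2.1⟩⟩⟩⟩, ⟨⟨⟨H _ t43857.2.2.2.1, H _ t43857.2.2.2.2.1⟩,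 ⟨H _ t43857.2.2.2.2.2.1, H _ t43857.2.2.2.2.2.2.1⟩⟩, ⟨⟨H _ t43857.2.2.2.2.2.2.2, H _ t43865.1⟩, ⟨H _ t43865.2.1, ⟨H _ t43865.2.2.1, H _ t43865.2.2.2.1⟩⟩⟩⟩⟩⟩, ⟨⟨⟨⟨⟨H _ t43865.2.2.2.2.1, H _ t43865.2.2.2.2.2.1⟩, ⟨H _ t43865.2.2.2.2.2.2.1, H _ t43865.2.2.2.2.2.2.2⟩⟩, ⟨⟨H _ t43873.1, H _ t43873.2.1⟩, ⟨H _ t43873.2.2.1, ⟨H _ t43873.2.2.2.1, H _ t43873.2.2.2.2.1⟩⟩⟩⟩, ⟨⟨⟨H _ t43873.2.2.2.2.2.1, H _ t43873.2.2.2.2.2.2.1⟩, ⟨H _ t43873.2.2.2.2.2.2.2, H _ t43881.1⟩⟩, ⟨⟨H _ t43881.2.1, H _ t43881.2.2.1⟩, ⟨H _ t43881.2.2.2.1, ⟨H _ t43881.2.2.2.2.1, H _ t43881.2.2.2.2.2.1⟩⟩⟩⟩⟩, ⟨⟨⟨⟨H _ t43881.2.2.2.2.2.2.1, H _ t43881.2.2.2.2.2.2.2⟩, ⟨H _ t43889.1, H _ t43889.2.1⟩⟩, ⟨⟨H _ t43889.2.2.1, H _ t43889.2.2.2.1⟩, ⟨H _ t43889.2.2.2.2.1, ⟨H _ t43889.2.2.2.2.2.1, H _ t43889.2.2.2.2.2.2.1⟩⟩⟩⟩, ⟨⟨⟨H _ t43889.2.2.2.2.2.2.2, H _ t43897.1⟩, ⟨H _ t43897.2.1, H _ t43897.2.2.1⟩⟩, ⟨⟨H _ t43897.2.2.2.1, H _ t43897.2.2.2.2.1⟩,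 ⟨H _ t43897.2.2.2.2.2.1, ⟨H _ t43897.2.2.2.2.2.2.1, H _ t43897.2.2.2.2.2.2.2⟩⟩⟩⟩⟩⟩⟩⟩, ⟨⟨⟨⟨⟨⟨⟨H _ t43905.1, H _ t43905.2.1⟩, ⟨H _ t43905.2.2.1, H _ t43905.2.2.2.1⟩⟩, ⟨⟨H _ t43905.2.2.2.2.1, H _ t43905.2.2.2.2.2.1⟩, ⟨H _ t43905.2.2.2.2.2.2.1, ⟨H _ t43905.2.2.2.2.2.2.2, H _ t43913.1⟩⟩⟩⟩, ⟨⟨⟨H _ t43913.2.1, H _ t43913.2.2.1⟩, ⟨H _ t43913.2.2.2.1, H _ t43913.2.2.2.2.1⟩⟩, ⟨⟨H _ t43913.2.2.2.2.2.1, H _ t43913.2.2.2.2.2.2.1⟩, ⟨H _ t43913.2.2.2.2.2.2.2, ⟨H _ t43921.1, H _ t43921.2.1⟩⟩⟩⟩⟩, ⟨⟨⟨⟨H _ t43921.2.2.1, H _ t43921.2.2.2.1⟩, ⟨H _ t43921.2.2.2.2.1, H _ t43921.2.2.2.2.2.1⟩⟩, ⟨⟨H _ t43921.2.2.2.2.2.2.1, H _ t43921.2.2.2.2.2.2.2⟩, ⟨H _ t43929.1, ⟨H _ t43929.2.1, H _ t43929.2.2.1⟩⟩⟩⟩, ⟨⟨⟨H _ t43929.2.2.2.1, H _ t43929.2.2.2.2.1⟩, ⟨H _ t43929.2.2.2.2.2.1, H _ t43929.2.2.2.2.2.2.1⟩⟩, ⟨⟨H _ t43929.2.2.2.2.2.2.2, H _ t43937.1⟩, ⟨H _ t43937.2.1, ⟨H _ t43937.2.2.1, H _ t43937.2.2.2.1⟩⟩⟩⟩⟩⟩, ⟨⟨⟨⟨⟨H _ t43937.2.2.2.2.1,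 H _ t43937.2.2.2.2.2.1⟩, ⟨H _ t43937.2.2.2.2.2.2.1, H _ t43937.2.2.2.2.2.2.2⟩⟩, ⟨⟨H _ t43945.1, H _ t43945.2.1⟩, ⟨H _ t43945.2.2.1, ⟨H _ t43945.2.2.2.1, H _ t43945.2.2.2.2.1⟩⟩⟩⟩, ⟨⟨⟨H _ t43945.2.2.2.2.2.1, H _ t43945.2.2.2.2.2.2.1⟩, ⟨H _ t43945.2.2.2.2.2.2.2, H _ t43953.1⟩⟩, ⟨⟨H _ t43953.2.1, H _ t43953.2.2.1⟩, ⟨H _ t43953.2.2.2.1, ⟨H _ t43953.2.2.2.2.1, H _ t43953.2.2.2.2.2.1⟩⟩⟩⟩⟩, ⟨⟨⟨⟨H _ t43953.2.2.2.2.2.2.1, H _ t43953.2.2.2.2.2.2.2⟩, ⟨H _ t43961.1, H _ t43961.2.1⟩⟩, ⟨⟨H _ t43961.2.2.1, H _ t43961.2.2.2.1⟩, ⟨H _ t43961.2.2.2.2.1, ⟨H _ t43961.2.2.2.2.2.1, H _ t43961.2.2.2.2.2.2.1⟩⟩⟩⟩, ⟨⟨⟨H _ t43961.2.2.2.2.2.2.2, H _ t43969.1⟩, ⟨H _ t43969.2.1, H _ t43969.2.2.1⟩⟩, ⟨⟨H _ t43969.2.2.2.1, H _ t43969.2.2.2.2.1⟩, ⟨H _ t43969.2.2.2.2.2.1, ⟨H _ t43969.2.2.2.2.2.2.1, H _ t43969.2.2.2.2.2.2.2⟩⟩⟩⟩⟩⟩⟩, ⟨⟨⟨⟨⟨⟨H _ t43977.1, H _ t43977.2.1⟩, ⟨H _ t43977.2.2.1, H _ t43977.2.2.2.1⟩⟩, ⟨⟨H _ t43977.2.2.2.2.1,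 H _ t43977.2.2.2.2.2.1⟩, ⟨H _ t43977.2.2.2.2.2.2.1, ⟨H _ t43977.2.2.2.2.2.2.2, H _ t43985.1⟩⟩⟩⟩, ⟨⟨⟨H _ t43985.2.1, H _ t43985.2.2.1⟩, ⟨H _ t43985.2.2.2.1, H _ t43985.2.2.2.2.1⟩⟩, ⟨⟨H _ t43985.2.2.2.2.2.1, H _ t43985.2.2.2.2.2.2.1⟩, ⟨H _ t43985.2.2.2.2.2.2.2, ⟨H _ t43993.1, H _ t43993.2.1⟩⟩⟩⟩⟩, ⟨⟨⟨⟨H _ t43993.2.2.1, H _ t43993.2.2.2.1⟩, ⟨H _ t43993.2.2.2.2.1, H _ t43993.2.2.2.2.2.1⟩⟩, ⟨⟨H _ t43993.2.2.2.2.2.2.1, H _ t43993.2.2.2.2.2.2.2⟩, ⟨H _ t44001.1, ⟨H _ t44001.2.1, H _ t44001.2.2.1⟩⟩⟩⟩, ⟨⟨⟨H _ t44001.2.2.2.1, H _ t44001.2.2.2.2.1⟩, ⟨H _ t44001.2.2.2.2.2.1, H _ t44001.2.2.2.2.2.2.1⟩⟩, ⟨⟨H _ t44001.2.2.2.2.2.2.2, H _ t44009.1⟩, ⟨H _ t44009.2.1, ⟨H _ t44009.2.2.1, H _ t44009.2.2.2.1⟩⟩⟩⟩⟩⟩, ⟨⟨⟨⟨⟨H _ t44009.2.2.2.2.1, H _ t44009.2.2.2.2.2.1⟩, ⟨H _ t44009.2.2.2.2.2.2.1, H _ t44009.2.2.2.2.2.2.2⟩⟩, ⟨⟨H _ t44017.1, H _ t44017.2.1⟩, ⟨H _ t44017.2.2.1, ⟨H _ t44017.2.2.2.1, H _ t44017.2.2.2.2.1⟩⟩⟩⟩,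 ⟨⟨⟨H _ t44017.2.2.2.2.2.1, H _ t44017.2.2.2.2.2.2.1⟩, ⟨H _ t44017.2.2.2.2.2.2.2, H _ t44025.1⟩⟩, ⟨⟨H _ t44025.2.1, H _ t44025.2.2.1⟩, ⟨H _ t44025.2.2.2.1, ⟨H _ t44025.2.2.2.2.1, H _ t44025.2.2.2.2.2.1⟩⟩⟩⟩⟩, ⟨⟨⟨⟨H _ t44025.2.2.2.2.2.2.1, H _ t44025.2.2.2.2.2.2.2⟩, ⟨H _ t44033.1, H _ t44033.2.1⟩⟩, ⟨⟨H _ t44033.2.2.1, H _ t44033.2.2.2.1⟩, ⟨H _ t44033.2.2.2.2.1, ⟨H _ t44033.2.2.2.2.2.1, H _ t44033.2.2.2.2.2.2.1⟩⟩⟩⟩, ⟨⟨⟨H _ t44033.2.2.2.2.2.2.2, H _ t44041.1⟩, ⟨H _ t44041.2.1, ⟨H _ t44041.2.2.1, H _ t44041.2.2.2.1⟩⟩⟩, ⟨⟨H _ t44041.2.2.2.2.1, H _ t44041.2.2.2.2.2.1⟩, ⟨H _ t44041.2.2.2.2.2.2.1, ⟨H _ t44041.2.2.2.2.2.2.2, H _ t44049.1⟩⟩⟩⟩⟩⟩⟩⟩⟩, ⟨⟨⟨⟨⟨⟨⟨⟨H _ t44049.2.1, H _ t44049.2.2.1⟩, ⟨H _ t44049.2.2.2.1, H _ t44049.2.2.2.2.1⟩⟩, ⟨⟨H _ t44049.2.2.2.2.2.1, H _ t44049.2.2.2.2.2.2.1⟩, ⟨H _ t44049.2.2.2.2.2.2.2, ⟨H _ t44057.1, H _ t44057.2.1⟩⟩⟩⟩, ⟨⟨⟨H _ t44057.2.2.1, H _ t44057.2.2.2.1⟩, ⟨H _ t44057.2.2.2.2.1,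 H _ t44057.2.2.2.2.2.1⟩⟩, ⟨⟨H _ t44057.2.2.2.2.2.2.1, H _ t44057.2.2.2.2.2.2.2⟩, ⟨H _ t44065.1, ⟨H _ t44065.2.1, H _ t44065.2.2.1⟩⟩⟩⟩⟩, ⟨⟨⟨⟨H _ t44065.2.2.2.1, H _ t44065.2.2.2.2.1⟩, ⟨H _ t44065.2.2.2.2.2.1, H _ t44065.2.2.2.2.2.2.1⟩⟩, ⟨⟨H _ t44065.2.2.2.2.2.2.2, H _ t44073.1⟩, ⟨H _ t44073.2.1, ⟨H _ t44073.2.2.1, H _ t44073.2.2.2.1⟩⟩⟩⟩, ⟨⟨⟨H _ t44073.2.2.2.2.1, H _ t44073.2.2.2.2.2.1⟩, ⟨H _ t44073.2.2.2.2.2.2.1, H _ t44073.2.2.2.2.2.2.2⟩⟩, ⟨⟨H _ t44081.1, H _ t44081.2.1⟩, ⟨H _ t44081.2.2.1, ⟨H _ t44081.2.2.2.1, H _ t44081.2.2.2.2.1⟩⟩⟩⟩⟩⟩, ⟨⟨⟨⟨⟨H _ t44081.2.2.2.2.2.1, H _ t44081.2.2.2.2.2.2.1⟩, ⟨H _ t44081.2.2.2.2.2.2.2, H _ t44089.1⟩⟩, ⟨⟨H _ t44089.2.1, H _ t44089.2.2.1⟩, ⟨H _ t44089.2.2.2.1, ⟨H _ t44089.2.2.2.2.1, H _ t44089.2.2.2.2.2.1⟩⟩⟩⟩, ⟨⟨⟨H _ t44089.2.2.2.2.2.2.1, H _ t44089.2.2.2.2.2.2.2⟩, ⟨H _ t44097.1, H _ t44097.2.1⟩⟩, ⟨⟨H _ t44097.2.2.1, H _ t44097.2.2.2.1⟩, ⟨H _ t44097.2.2.2.2.1,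 ⟨H _ t44097.2.2.2.2.2.1, H _ t44097.2.2.2.2.2.2.1⟩⟩⟩⟩⟩, ⟨⟨⟨⟨H _ t44097.2.2.2.2.2.2.2, H _ t44105.1⟩, ⟨H _ t44105.2.1, H _ t44105.2.2.1⟩⟩, ⟨⟨H _ t44105.2.2.2.1, H _ t44105.2.2.2.2.1⟩, ⟨H _ t44105.2.2.2.2.2.1, ⟨H _ t44105.2.2.2.2.2.2.1, H _ t44105.2.2.2.2.2.2.2⟩⟩⟩⟩, ⟨⟨⟨H _ t44113.1, H _ t44113.2.1⟩, ⟨H _ t44113.2.2.1, H _ t44113.2.2.2.1⟩⟩, ⟨⟨H _ t44113.2.2.2.2.1, H _ t44113.2.2.2.2.2.1⟩, ⟨H _ t44113.2.2.2.2.2.2.1, ⟨H _ t44113.2.2.2.2.2.2.2, H _ t44121.1⟩⟩⟩⟩⟩⟩⟩, ⟨⟨⟨⟨⟨⟨H _ t44121.2.1, H _ t44121.2.2.1⟩, ⟨H _ t44121.2.2.2.1, H _ t44121.2.2.2.2.1⟩⟩, ⟨⟨H _ t44121.2.2.2.2.2.1, H _ t44121.2.2.2.2.2.2.1⟩, ⟨H _ t44121.2.2.2.2.2.2.2, ⟨H _ t44129.1, H _ t44129.2.1⟩⟩⟩⟩, ⟨⟨⟨H _ t44129.2.2.1, H _ t44129.2.2.2.1⟩, ⟨H _ t44129.2.2.2.2.1, H _ t44129.2.2.2.2.2.1⟩⟩, ⟨⟨H _ t44129.2.2.2.2.2.2.1, H _ t44129.2.2.2.2.2.2.2⟩, ⟨H _ t44137.1, ⟨H _ t44137.2.1, H _ t44137.2.2.1⟩⟩⟩⟩⟩, ⟨⟨⟨⟨H _ t44137.2.2.2.1, H _ t44137.2.2.2.2.1⟩,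 ⟨H _ t44137.2.2.2.2.2.1, H _ t44137.2.2.2.2.2.2.1⟩⟩, ⟨⟨H _ t44137.2.2.2.2.2.2.2, H _ t44145.1⟩, ⟨H _ t44145.2.1, ⟨H _ t44145.2.2.1, H _ t44145.2.2.2.1⟩⟩⟩⟩, ⟨⟨⟨H _ t44145.2.2.2.2.1, H _ t44145.2.2.2.2.2.1⟩, ⟨H _ t44145.2.2.2.2.2.2.1, H _ t44145.2.2.2.2.2.2.2⟩⟩, ⟨⟨H _ t44153.1, H _ t44153.2.1⟩, ⟨H _ t44153.2.2.1, ⟨H _ t44153.2.2.2.1, H _ t44153.2.2.2.2.1⟩⟩⟩⟩⟩⟩, ⟨⟨⟨⟨⟨H _ t44153.2.2.2.2.2.1, H _ t44153.2.2.2.2.2.2.1⟩, ⟨H _ t44153.2.2.2.2.2.2.2, H _ t44161.1⟩⟩, ⟨⟨H _ t44161.2.1, H _ t44161.2.2.1⟩, ⟨H _ t44161.2.2.2.1, ⟨H _ t44161.2.2.2.2.1, H _ t44161.2.2.2.2.2.1⟩⟩⟩⟩, ⟨⟨⟨H _ t44161.2.2.2.2.2.2.1, H _ t44161.2.2.2.2.2.2.2⟩, ⟨H _ t44169.1, H _ t44169.2.1⟩⟩, ⟨⟨H _ t44169.2.2.1, H _ t44169.2.2.2.1⟩, ⟨H _ t44169.2.2.2.2.1, ⟨H _ t44169.2.2.2.2.2.1, H _ t44169.2.2.2.2.2.2.1⟩⟩⟩⟩⟩, ⟨⟨⟨⟨H _ t44169.2.2.2.2.2.2.2, H _ t44177.1⟩, ⟨H _ t44177.2.1, H _ t44177.2.2.1⟩⟩, ⟨⟨H _ t44177.2.2.2.1, H _ t44177.2.2.2.2.1⟩,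 ⟨H _ t44177.2.2.2.2.2.1, ⟨H _ t44177.2.2.2.2.2.2.1, H _ t44177.2.2.2.2.2.2.2⟩⟩⟩⟩, ⟨⟨⟨H _ t44185.1, H _ t44185.2.1⟩, ⟨H _ t44185.2.2.1, H _ t44185.2.2.2.1⟩⟩, ⟨⟨H _ t44185.2.2.2.2.1, H _ t44185.2.2.2.2.2.1⟩, ⟨H _ t44185.2.2.2.2.2.2.1, ⟨H _ t44185.2.2.2.2.2.2.2, H _ t44193.1⟩⟩⟩⟩⟩⟩⟩⟩, ⟨⟨⟨⟨⟨⟨⟨H _ t44193.2.1, H _ t44193.2.2.1⟩, ⟨H _ t44193.2.2.2.1, H _ t44193.2.2.2.2.1⟩⟩, ⟨⟨H _ t44193.2.2.2.2.2.1, H _ t44193.2.2.2.2.2.2.1⟩, ⟨H _ t44193.2.2.2.2.2.2.2, ⟨H _ t44201.1, H _ t44201.2.1⟩⟩⟩⟩, ⟨⟨⟨H _ t44201.2.2.1, H _ t44201.2.2.2.1⟩, ⟨H _ t44201.2.2.2.2.1, H _ t44201.2.2.2.2.2.1⟩⟩, ⟨⟨H _ t44201.2.2.2.2.2.2.1, H _ t44201.2.2.2.2.2.2.2⟩, ⟨H _ t44209.1, ⟨H _ t44209.2.1, H _ t44209.2.2.1⟩⟩⟩⟩⟩, ⟨⟨⟨⟨H _ t44209.2.2.2.1, H _ t44209.2.2.2.2.1⟩, ⟨H _ t44209.2.2.2.2.2.1, H _ t44209.2.2.2.2.2.2.1⟩⟩, ⟨⟨H _ t44209.2.2.2.2.2.2.2, H _ t44217.1⟩, ⟨H _ t44217.2.1, ⟨H _ t44217.2.2.1, H _ t44217.2.2.2.1⟩⟩⟩⟩, ⟨⟨⟨H _ t44217.2.2.2.2.1,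 H _ t44217.2.2.2.2.2.1⟩, ⟨H _ t44217.2.2.2.2.2.2.1, H _ t44217.2.2.2.2.2.2.2⟩⟩, ⟨⟨H _ t44225.1, H _ t44225.2.1⟩, ⟨H _ t44225.2.2.1, ⟨H _ t44225.2.2.2.1, H _ t44225.2.2.2.2.1⟩⟩⟩⟩⟩⟩, ⟨⟨⟨⟨⟨H _ t44225.2.2.2.2.2.1, H _ t44225.2.2.2.2.2.2.1⟩, ⟨H _ t44225.2.2.2.2.2.2.2, H _ t44233.1⟩⟩, ⟨⟨H _ t44233.2.1, H _ t44233.2.2.1⟩, ⟨H _ t44233.2.2.2.1, ⟨H _ t44233.2.2.2.2.1, H _ t44233.2.2.2.2.2.1⟩⟩⟩⟩, ⟨⟨⟨H _ t44233.2.2.2.2.2.2.1, H _ t44233.2.2.2.2.2.2.2⟩, ⟨H _ t44241.1, H _ t44241.2.1⟩⟩, ⟨⟨H _ t44241.2.2.1, H _ t44241.2.2.2.1⟩, ⟨H _ t44241.2.2.2.2.1, ⟨H _ t44241.2.2.2.2.2.1, H _ t44241.2.2.2.2.2.2.1⟩⟩⟩⟩⟩, ⟨⟨⟨⟨H _ t44241.2.2.2.2.2.2.2, H _ t44249.1⟩, ⟨H _ t44249.2.1, H _ t44249.2.2.1⟩⟩, ⟨⟨H _ t44249.2.2.2.1, H _ t44249.2.2.2.2.1⟩, ⟨H _ t44249.2.2.2.2.2.1, ⟨H _ t44249.2.2.2.2.2.2.1, H _ t44249.2.2.2.2.2.2.2⟩⟩⟩⟩, ⟨⟨⟨H _ t44257.1, H _ t44257.2.1⟩, ⟨H _ t44257.2.2.1, H _ t44257.2.2.2.1⟩⟩, ⟨⟨H _ t44257.2.2.2.2.1,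 H _ t44257.2.2.2.2.2.1⟩, ⟨H _ t44257.2.2.2.2.2.2.1, ⟨H _ t44257.2.2.2.2.2.2.2, H _ t44265.1⟩⟩⟩⟩⟩⟩⟩, ⟨⟨⟨⟨⟨⟨H _ t44265.2.1, H _ t44265.2.2.1⟩, ⟨H _ t44265.2.2.2.1, H _ t44265.2.2.2.2.1⟩⟩, ⟨⟨H _ t44265.2.2.2.2.2.1, H _ t44265.2.2.2.2.2.2.1⟩, ⟨H _ t44265.2.2.2.2.2.2.2, ⟨H _ t44273.1, H _ t44273.2.1⟩⟩⟩⟩, ⟨⟨⟨H _ t44273.2.2.1, H _ t44273.2.2.2.1⟩, ⟨H _ t44273.2.2.2.2.1, H _ t44273.2.2.2.2.2.1⟩⟩, ⟨⟨H _ t44273.2.2.2.2.2.2.1, H _ t44273.2.2.2.2.2.2.2⟩, ⟨H _ t44281.1, ⟨H _ t44281.2.1, H _ t44281.2.2.1⟩⟩⟩⟩⟩, ⟨⟨⟨⟨H _ t44281.2.2.2.1, H _ t44281.2.2.2.2.1⟩, ⟨H _ t44281.2.2.2.2.2.1, H _ t44281.2.2.2.2.2.2.1⟩⟩, ⟨⟨H _ t44281.2.2.2.2.2.2.2, H _ t44289.1⟩, ⟨H _ t44289.2.1, ⟨H _ t44289.2.2.1, H _ t44289.2.2.2.1⟩⟩⟩⟩, ⟨⟨⟨H _ t44289.2.2.2.2.1, H _ t44289.2.2.2.2.2.1⟩, ⟨H _ t44289.2.2.2.2.2.2.1, H _ t44289.2.2.2.2.2.2.2⟩⟩, ⟨⟨H _ t44297.1, H _ t44297.2.1⟩, ⟨H _ t44297.2.2.1, ⟨H _ t44297.2.2.2.1, H _ t44297.2.2.2.2.1⟩⟩⟩⟩⟩⟩,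 ⟨⟨⟨⟨⟨H _ t44297.2.2.2.2.2.1, H _ t44297.2.2.2.2.2.2.1⟩, ⟨H _ t44297.2.2.2.2.2.2.2, H _ t44305.1⟩⟩, ⟨⟨H _ t44305.2.1, H _ t44305.2.2.1⟩, ⟨H _ t44305.2.2.2.1, ⟨H _ t44305.2.2.2.2.1, H _ t44305.2.2.2.2.2.1⟩⟩⟩⟩, ⟨⟨⟨H _ t44305.2.2.2.2.2.2.1, H _ t44305.2.2.2.2.2.2.2⟩, ⟨H _ t44313.1, H _ t44313.2.1⟩⟩, ⟨⟨H _ t44313.2.2.1, H _ t44313.2.2.2.1⟩, ⟨H _ t44313.2.2.2.2.1, ⟨H _ t44313.2.2.2.2.2.1, H _ t44313.2.2.2.2.2.2.1⟩⟩⟩⟩⟩, ⟨⟨⟨⟨H _ t44313.2.2.2.2.2.2.2, H _ t44321.1⟩, ⟨H _ t44321.2.1, H _ t44321.2.2.1⟩⟩, ⟨⟨H _ t44321.2.2.2.1, H _ t44321.2.2.2.2.1⟩, ⟨H _ t44321.2.2.2.2.2.1, ⟨H _ t44321.2.2.2.2.2.2.1, H _ t44321.2.2.2.2.2.2.2⟩⟩⟩⟩, ⟨⟨⟨H _ t44329.1, H _ t44329.2.1⟩, ⟨H _ t44329.2.2.1, ⟨H _ t44329.2.2.2.1, H _ t44329.2.2.2.2.1⟩⟩⟩, ⟨⟨H _ t44329.2.2.2.2.2.1, H _ t44329.2.2.2.2.2.2.1⟩, ⟨H _ t44329.2.2.2.2.2.2.2, ⟨H _ t44337.1, H _ t44337.2⟩⟩⟩⟩⟩⟩⟩⟩⟩⟩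

end Pool.Agent.MP_c853c5_nt.X.C4950
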