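import Pool.Agent.MP_c853c5_nt.X.C4950.Env
import Pool.Agent.MP_c853c5_nt.X.C4950.D1

set_option autoImplicit false
set_option maxRecDepth 8192
set_option linter.all false

namespace Pool.Agent.MP_c853c5_nt.X.C4950

open Pool.Agent.MP_c853c5_nt.X

def t4426 : allY (E.wth (lkp [])) l4426 = true ∧
    allY (E.wth (lkp [])) l4427 = true ∧
    allY (E.wth (lkp [])) l4428 = true ∧
    allY (E.wth (lkp [])) l4429 = true ∧
    allY (E.wth (lkp [])) l4430 = true ∧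
    allY (E.wth (lkp [])) l4431 = true ∧
    allY (E.wth (lkp [])) l4432 = true ∧
    allY (E.wth (lkp [])) l4433 = true :=
  ⟨by decide +kernel, by decide +kernel, by decide +kernel, by decide +kernel, by decide +kernel, by decide +kernel, by decide +kernel, by decide +kernel⟩

def t4434 : allY (E.wth (lkp [])) l4434 = true ∧
    allY (E.wth (lkp [])) l4435 = true ∧
    allY (E.wth (lkp [])) l4436 = true ∧
    allY (E.wth (lkp [])) l4437 = true ∧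
    allY (E.wth (lkp [])) l4438 = true ∧
    allY (E.wth (lkp [])) l4439 = true ∧
    allY (E.wth (lkp [])) l4440 = true ∧
    allY (E.wth (lkp [])) l4441 = true :=
  ⟨by decide +kernel, by decide +kernel, by decide +kernel, by decide +kernel, by decide +kernel, by decide +kernel, by decide +kernel, by decide +kernel⟩

def t4442 : allY (E.wth (lkp [])) l4442 = true ∧
    allY (E.wth (lkp [])) l4443 = true ∧
    allY (E.wth (lkp [])) l4444 = true ∧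
    allY (E.wth (lkp [])) l4445 = true ∧
    allY (E.wth (lkp [])) l4446 = true ∧
    allY (E.wth (lkp [])) l4447 = true ∧
    allY (E.wth (lkp [])) l4448 = true ∧
    allY (E.wth (lkp [])) l4449 = true :=
  ⟨by decide +kernel, by decide +kernel, by decide +kernel, by decide +kernel, by decide +kernel, by decide +kernel, by decide +kernel, by decide +kernel⟩

def t4450 : allY (E.wth (lkp [])) l4450 = true ∧
    allY (E.wth (lkp [])) l4451 = true ∧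
    allY (E.wth (lkp [])) l4452 = true ∧
    allY (E.wth (lkp [])) l4453 = true ∧
    allY (E.wth (lkp [])) l4454 = true ∧
    allY (E.wth (lkp [])) l4455 = true ∧
    allY (E.wth (lkp [])) l4456 = true ∧
    allY (E.wth (lkp [])) l4457 = true :=
  ⟨by decide +kernel, by decide +kernel, by decide +kernel, by decide +kernel, by decide +kernel, by decide +kernel, by decide +kernel, by decide +kernel⟩

def t4458 : allY (E.wth (lkp [])) l4458 = true ∧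
    allY (E.wth (lkp [])) l4459 = true ∧
    allY (E.wth (lkp [])) l4460 = true ∧
    allY (E.wth (lkp [])) l4461 = true ∧
    allY (E.wth (lkp [])) l4462 = true ∧
    allY (E.wth (lkp [])) l4463 = true ∧
    allY (E.wth (lkp [])) l4464 = true ∧
    allY (E.wth (lkp [])) l4465 = true :=
  ⟨by decide +kernel, by decide +kernel, by decide +kernel, by decide +kernel, by decide +kernel, by decide +kernel, by decide +kernel, by decide +kernel⟩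

def t4466 : allY (E.wth (lkp [])) l4466 = true ∧
    allY (E.wth (lkp [])) l4467 = true ∧
    allY (E.wth (lkp [])) l4468 = true ∧
    allY (E.wth (lkp [])) l4469 = true ∧
    allY (E.wth (lkp [])) l4470 = true ∧
    allY (E.wth (lkp [])) l4471 = true ∧
    allY (E.wth (lkp [])) l4472 = true ∧
    allY (E.wth (lkp [])) l4473 = true :=
  ⟨by decide +kernel, by decide +kernel, by decide +kernel, by decide +kernel, by decide +kernel, by decide +kernel, by decide +kernel, by decide +kernel⟩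

def t4474 : allY (E.wth (lkp [])) l4474 = true ∧
    allY (E.wth (lkp [])) l4475 = true ∧
    allY (E.wth (lkp [])) l4476 = true ∧
    allY (E.wth (lkp [])) l4477 = true ∧
    allY (E.wth (lkp [])) l4478 = true ∧
    allY (E.wth (lkp [])) l4479 = true ∧
    allY (E.wth (lkp [])) l4480 = true ∧
    allY (E.wth (lkp [])) l4481 = true :=
  ⟨by decide +kernel, by decide +kernel, by decide +kernel, by decide +kernel, by decide +kernel, by decide +kernel, by decide +kernel, by decide +kernel⟩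

def t4482 : allY (E.wth (lkp [])) l4482 = true ∧
    allY (E.wth (lkp [])) l4483 = true ∧
    allY (E.wth (lkp [])) l4484 = true ∧
    allY (E.wth (lkp [])) l4485 = true ∧
    allY (E.wth (lkp [])) l4486 = true ∧
    allY (E.wth (lkp [])) l4487 = true ∧
    allY (E.wth (lkp [])) l4488 = true ∧
    allY (E.wth (lkp [])) l4489 = true :=
  ⟨by decide +kernel, by decide +kernel, by decide +kernel, by decide +kernel, by decide +kernel, by decide +kernel, by decide +kernel, by decide +kernel⟩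

def t4490 : allY (E.wth (lkp [])) l4490 = true ∧
    allY (E.wth (lkp [])) l4491 = true ∧
    allY (E.wth (lkp [])) l4492 = true ∧
    allY (E.wth (lkp [])) l4493 = true ∧
    allY (E.wth (lkp [])) l4494 = true ∧
    allY (E.wth (lkp [])) l4495 = true ∧
    allY (E.wth (lkp [])) l4496 = true ∧
    allY (E.wth (lkp [])) l4497 = true :=
  ⟨by decide +kernel, by decide +kernel, by decide +kernel, by decide +kernel, by decide +kernel, by decide +kernel, by decide +kernel, by decide +kernel⟩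

def t4498 : allY (E.wth (lkp [])) l4498 = true ∧
    allY (E.wth (lkp [])) l4499 = true ∧
    allY (E.wth (lkp [])) l4500 = true ∧
    allY (E.wth (lkp [])) l4501 = true ∧
    allY (E.wth (lkp [])) l4502 = true ∧
    allY (E.wth (lkp [])) l4503 = true ∧
    allY (E.wth (lkp [])) l4504 = true ∧
    allY (E.wth (lkp [])) l4505 = true :=
  ⟨by decide +kernel, by decide +kernel, by decide +kernel, by decide +kernel, by decide +kernel, by decide +kernel, by decide +kernel, by decide +kernel⟩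

def t4506 : allY (E.wth (lkp [])) l4506 = true ∧
    allY (E.wth (lkp [])) l4507 = true ∧
    allY (E.wth (lkp [])) l4508 = true ∧
    allY (E.wth (lkp [])) l4509 = true ∧
    allY (E.wth (lkp [])) l4510 = true ∧
    allY (E.wth (lkp [])) l4511 = true ∧
    allY (E.wth (lkp [])) l4512 = true ∧
    allY (E.wth (lkp [])) l4513 = true :=
  ⟨by decide +kernel, by decide +kernel, by decide +kernel, by decide +kernel, by decide +kernel, by decide +kernel, by decide +kernel, by decide +kernel⟩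

def t4514 : allY (E.wth (lkp [])) l4514 = true ∧
    allY (E.wth (lkp [])) l4515 = true ∧
    allY (E.wth (lkp [])) l4516 = true ∧
    allY (E.wth (lkp [])) l4517 = true ∧
    allY (E.wth (lkp [])) l4518 = true ∧
    allY (E.wth (lkp [])) l4519 = true ∧
    allY (E.wth (lkp [])) l4520 = true ∧
    allY (E.wth (lkp [])) l4521 = true :=
  ⟨by decide +kernel, by decide +kernel, by decide +kernel, by decide +kernel, by decide +kernel, by decide +kernel, by decide +kernel, by decide +kernel⟩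

def t4522 : allY (E.wth (lkp [])) l4522 = true ∧
    allY (E.wth (lkp [])) l4523 = true ∧
    allY (E.wth (lkp [])) l4524 = true ∧
    allY (E.wth (lkp [])) l4525 = true ∧
    allY (E.wth (lkp [])) l4526 = true ∧
    allY (E.wth (lkp [])) l4527 = true ∧
    allY (E.wth (lkp [])) l4528 = true ∧
    allY (E.wth (lkp [])) l4529 = true :=
  ⟨by decide +kernel, by decide +kernel, by decide +kernel, by decide +kernel, by decide +kernel, by decide +kernel, by decide +kernel, by decide +kernel⟩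

def t4530 : allY (E.wth (lkp [])) l4530 = true ∧
    allY (E.wth (lkp [])) l4531 = true ∧
    allY (E.wth (lkp [])) l4532 = true ∧
    allY (E.wth (lkp [])) l4533 = true ∧
    allY (E.wth (lkp [])) l4534 = true ∧
    allY (E.wth (lkp [])) l4535 = true ∧
    allY (E.wth (lkp [])) l4536 = true ∧
    allY (E.wth (lkp [])) l4537 = true :=
  ⟨by decide +kernel, by decide +kernel, by decide +kernel, by decide +kernel, by decide +kernel, by decide +kernel, by decide +kernel, by decide +kernel⟩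

def t4538 : allY (E.wth (lkp [])) l4538 = true ∧
    allY (E.wth (lkp [])) l4539 = true ∧
    allY (E.wth (lkp [])) l4540 = true ∧
    allY (E.wth (lkp [])) l4541 = true ∧
    allY (E.wth (lkp [])) l4542 = true ∧
    allY (E.wth (lkp [])) l4543 = true ∧
    allY (E.wth (lkp [])) l4544 = true ∧
    allY (E.wth (lkp [])) l4545 = true :=
  ⟨by decide +kernel, by decide +kernel, by decide +kernel, by decide +kernel, by decide +kernel, by decide +kernel, by decide +kernel, by decide +kernel⟩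

def t4546 : allY (E.wth (lkp [])) l4546 = true ∧
    allY (E.wth (lkp [])) l4547 = true ∧
    allY (E.wth (lkp [])) l4548 = true ∧
    allY (E.wth (lkp [])) l4549 = true ∧
    allY (E.wth (lkp [])) l4550 = true ∧
    allY (E.wth (lkp [])) l4551 = true ∧
    allY (E.wth (lkp [])) l4552 = true ∧
    allY (E.wth (lkp [])) l4553 = true :=
  ⟨by decide +kernel, by decide +kernel, by decide +kernel, by decide +kernel, by decide +kernel, by decide +kernel, by decide +kernel, by decide +kernel⟩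

def t4554 : allY (E.wth (lkp [])) l4554 = true ∧
    allY (E.wth (lkp [])) l4555 = true ∧
    allY (E.wth (lkp [])) l4556 = true ∧
    allY (E.wth (lkp [])) l4557 = true ∧
    allY (E.wth (lkp [])) l4558 = true ∧
    allY (E.wth (lkp [])) l4559 = true ∧
    allY (E.wth (lkp [])) l4560 = true ∧
    allY (E.wth (lkp [])) l4561 = true :=
  ⟨by decide +kernel, by decide +kernel, by decide +kernel, by decide +kernel, by decide +kernel, by decide +kernel, by decide +kernel, by decide +kernel⟩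

def t4562 : allY (E.wth (lkp [])) l4562 = true ∧
    allY (E.wth (lkp [])) l4563 = true ∧
    allY (E.wth (lkp [])) l4564 = true ∧
    allY (E.wth (lkp [])) l4565 = true ∧
    allY (E.wth (lkp [])) l4566 = true ∧
    allY (E.wth (lkp [])) l4567 = true ∧
    allY (E.wth (lkp [])) l4568 = true ∧
    allY (E.wth (lkp [])) l4569 = true :=
  ⟨by decide +kernel, by decide +kernel, by decide +kernel, by decide +kernel, by decide +kernel, by decide +kernel, by decide +kernel, by decide +kernel⟩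

def t4570 : allY (E.wth (lkp [])) l4570 = true ∧
    allY (E.wth (lkp [])) l4571 = true ∧
    allY (E.wth (lkp [])) l4572 = true ∧
    allY (E.wth (lkp [])) l4573 = true ∧
    allY (E.wth (lkp [])) l4574 = true ∧
    allY (E.wth (lkp [])) l4575 = true ∧
    allY (E.wth (lkp [])) l4576 = true ∧
    allY (E.wth (lkp [])) l4577 = true :=
  ⟨by decide +kernel, by decide +kernel, by decide +kernel, by decide +kernel, by decide +kernel, by decide +kernel, by decide +kernel, by decide +kernel⟩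

def t4578 : allY (E.wth (lkp [])) l4578 = true ∧
    allY (E.wth (lkp [])) l4579 = true ∧
    allY (E.wth (lkp [])) l4580 = true ∧
    allY (E.wth (lkp [])) l4581 = true ∧
    allY (E.wth (lkp [])) l4582 = true ∧
    allY (E.wth (lkp [])) l4583 = true ∧
    allY (E.wth (lkp [])) l4584 = true ∧
    allY (E.wth (lkp [])) l4585 = true :=
  ⟨by decide +kernel, by decide +kernel, by decide +kernel, by decide +kernel, by decide +kernel, by decide +kernel, by decide +kernel, by decide +kernel⟩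

def t4586 : allY (E.wth (lkp [])) l4586 = true ∧
    allY (E.wth (lkp [])) l4587 = true ∧
    allY (E.wth (lkp [])) l4588 = true ∧
    allY (E.wth (lkp [])) l4589 = true ∧
    allY (E.wth (lkp [])) l4590 = true ∧
    allY (E.wth (lkp [])) l4591 = true ∧
    allY (E.wth (lkp [])) l4592 = true ∧
    allY (E.wth (lkp [])) l4593 = true :=
  ⟨by decide +kernel, by decide +kernel, by decide +kernel, by decide +kernel, by decide +kernel, by decide +kernel, by decide +kernel, by decide +kernel⟩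

def t4594 : allY (E.wth (lkp [])) l4594 = true ∧
    allY (E.wth (lkp [])) l4595 = true ∧
    allY (E.wth (lkp [])) l4596 = true ∧
    allY (E.wth (lkp [])) l4597 = true ∧
    allY (E.wth (lkp [])) l4598 = true ∧
    allY (E.wth (lkp [])) l4599 = true ∧
    allY (E.wth (lkp [])) l4600 = true ∧
    allY (E.wth (lkp [])) l4601 = true :=
  ⟨by decide +kernel, by decide +kernel, by decide +kernel, by decide +kernel, by decide +kernel, by decide +kernel, by decide +kernel, by decide +kernel⟩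

def t4602 : allY (E.wth (lkp [])) l4602 = true ∧
    allY (E.wth (lkp [])) l4603 = true ∧
    allY (E.wth (lkp [])) l4604 = true ∧
    allY (E.wth (lkp [])) l4605 = true ∧
    allY (E.wth (lkp [])) l4606 = true ∧
    allY (E.wth (lkp [])) l4607 = true ∧
    allY (E.wth (lkp [])) l4608 = true ∧
    allY (E.wth (lkp [])) l4609 = true :=
  ⟨by decide +kernel, by decide +kernel, by decide +kernel, by decide +kernel, by decide +kernel, by decide +kernel, by decide +kernel, by decide +kernel⟩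

def t4610 : allY (E.wth (lkp [])) l4610 = true ∧
    allY (E.wth (lkp [])) l4611 = true ∧
    allY (E.wth (lkp [])) l4612 = true ∧
    allY (E.wth (lkp [])) l4613 = true ∧
    allY (E.wth (lkp [])) l4614 = true ∧
    allY (E.wth (lkp [])) l4615 = true ∧
    allY (E.wth (lkp [])) l4616 = true ∧
    allY (E.wth (lkp [])) l4617 = true :=
  ⟨by decide +kernel, by decide +kernel, by decide +kernel, by decide +kernel, by decide +kernel, by decide +kernel, by decide +kernel, by decide +kernel⟩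

def t4618 : allY (E.wth (lkp [])) l4618 = true ∧
    allY (E.wth (lkp [])) l4619 = true ∧
    allY (E.wth (lkp [])) l4620 = true ∧
    allY (E.wth (lkp [])) l4621 = true ∧
    allY (E.wth (lkp [])) l4622 = true ∧
    allY (E.wth (lkp [])) l4623 = true ∧
    allY (E.wth (lkp [])) l4624 = true ∧
    allY (E.wth (lkp [])) l4625 = true :=
  ⟨by decide +kernel, by decide +kernel, by decide +kernel, by decide +kernel, by decide +kernel, by decide +kernel, by decide +kernel, by decide +kernel⟩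

def t4626 : allY (E.wth (lkp [])) l4626 = true ∧
    allY (E.wth (lkp [])) l4627 = true ∧
    allY (E.wth (lkp [])) l4628 = true ∧
    allY (E.wth (lkp [])) l4629 = true ∧
    allY (E.wth (lkp [])) l4630 = true ∧
    allY (E.wth (lkp [])) l4631 = true ∧
    allY (E.wth (lkp [])) l4632 = true ∧
    allY (E.wth (lkp [])) l4633 = true :=
  ⟨by decide +kernel, by decide +kernel, by decide +kernel, by decide +kernel, by decide +kernel, by decide +kernel, by decide +kernel, by decide +kernel⟩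

def t4634 : allY (E.wth (lkp [])) l4634 = true ∧
    allY (E.wth (lkp [])) l4635 = true ∧
    allY (E.wth (lkp [])) l4636 = true ∧
    allY (E.wth (lkp [])) l4637 = true ∧
    allY (E.wth (lkp [])) l4638 = true ∧
    allY (E.wth (lkp [])) l4639 = true ∧
    allY (E.wth (lkp [])) l4640 = true ∧
    allY (E.wth (lkp [])) l4641 = true :=
  ⟨by decide +kernel, by decide +kernel, by decide +kernel, by decide +kernel, by decide +kernel, by decide +kernel, by decide +kernel, by decide +kernel⟩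

def t4642 : allY (E.wth (lkp [])) l4642 = true ∧
    allY (E.wth (lkp [])) l4643 = true ∧
    allY (E.wth (lkp [])) l4644 = true ∧
    allY (E.wth (lkp [])) l4645 = true ∧
    allY (E.wth (lkp [])) l4646 = true ∧
    allY (E.wth (lkp [])) l4647 = true ∧
    allY (E.wth (lkp [])) l4648 = true ∧
    allY (E.wth (lkp [])) l4649 = true :=
  ⟨by decide +kernel, by decide +kernel, by decide +kernel, by decide +kernel, by decide +kernel, by decide +kernel, by decide +kernel, by decide +kernel⟩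

def t4650 : allY (E.wth (lkp [])) l4650 = true ∧
    allY (E.wth (lkp [])) l4651 = true ∧
    allY (E.wth (lkp [])) l4652 = true ∧
    allY (E.wth (lkp [])) l4653 = true ∧
    allY (E.wth (lkp [])) l4654 = true ∧
    allY (E.wth (lkp [])) l4655 = true ∧
    allY (E.wth (lkp [])) l4656 = true ∧
    allY (E.wth (lkp [])) l4657 = true :=
  ⟨by decide +kernel, by decide +kernel, by decide +kernel, by decide +kernel, by decide +kernel, by decide +kernel, by decide +kernel, by decide +kernel⟩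

def t4658 : allY (E.wth (lkp [])) l4658 = true ∧
    allY (E.wth (lkp [])) l4659 = true ∧
    allY (E.wth (lkp [])) l4660 = true ∧
    allY (E.wth (lkp [])) l4661 = true ∧
    allY (E.wth (lkp [])) l4662 = true ∧
    allY (E.wth (lkp [])) l4663 = true ∧
    allY (E.wth (lkp [])) l4664 = true ∧
    allY (E.wth (lkp [])) l4665 = true :=
  ⟨by decide +kernel, by decide +kernel, by decide +kernel, by decide +kernel, by decide +kernel, by decide +kernel, by decide +kernel, by decide +kernel⟩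

def t4666 : allY (E.wth (lkp [])) l4666 = true ∧
    allY (E.wth (lkp [])) l4667 = true ∧
    allY (E.wth (lkp [])) l4668 = true ∧
    allY (E.wth (lkp [])) l4669 = true ∧
    allY (E.wth (lkp [])) l4670 = true ∧
    allY (E.wth (lkp [])) l4671 = true ∧
    allY (E.wth (lkp [])) l4672 = true ∧
    allY (E.wth (lkp [])) l4673 = true :=
  ⟨by decide +kernel, by decide +kernel, by decide +kernel, by decide +kernel, by decide +kernel, by decide +kernel, by decide +kernel, by decide +kernel⟩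

def t4674 : allY (E.wth (lkp [])) l4674 = true ∧
    allY (E.wth (lkp [])) l4675 = true ∧
    allY (E.wth (lkp [])) l4676 = true ∧
    allY (E.wth (lkp [])) l4677 = true ∧
    allY (E.wth (lkp [])) l4678 = true ∧
    allY (E.wth (lkp [])) l4679 = true ∧
    allY (E.wth (lkp [])) l4680 = true ∧
    allY (E.wth (lkp [])) l4681 = true :=
  ⟨by decide +kernel, by decide +kernel, by decide +kernel, by decide +kernel, by decide +kernel, by decide +kernel, by decide +kernel, by decide +kernel⟩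

def t4682 : allY (E.wth (lkp [])) l4682 = true ∧
    allY (E.wth (lkp [])) l4683 = true ∧
    allY (E.wth (lkp [])) l4684 = true ∧
    allY (E.wth (lkp [])) l4685 = true ∧
    allY (E.wth (lkp [])) l4686 = true ∧
    allY (E.wth (lkp [])) l4687 = true ∧
    allY (E.wth (lkp [])) l4688 = true ∧
    allY (E.wth (lkp [])) l4689 = true :=
  ⟨by decide +kernel, by decide +kernel, by decide +kernel, by decide +kernel, by decide +kernel, by decide +kernel, by decide +kernel, by decide +kernel⟩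

def t4690 : allY (E.wth (lkp [])) l4690 = true ∧
    allY (E.wth (lkp [])) l4691 = true ∧
    allY (E.wth (lkp [])) l4692 = true ∧
    allY (E.wth (lkp [])) l4693 = true ∧
    allY (E.wth (lkp [])) l4694 = true ∧
    allY (E.wth (lkp [])) l4695 = true ∧
    allY (E.wth (lkp [])) l4696 = true ∧
    allY (E.wth (lkp [])) l4697 = true :=
  ⟨by decide +kernel, by decide +kernel, by decide +kernel, by decide +kernel, by decide +kernel, by decide +kernel, by decide +kernel, by decide +kernel⟩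

def t4698 : allY (E.wth (lkp [])) l4698 = true ∧
    allY (E.wth (lkp [])) l4699 = true ∧
    allY (E.wth (lkp [])) l4700 = true ∧
    allY (E.wth (lkp [])) l4701 = true ∧
    allY (E.wth (lkp [])) l4702 = true ∧
    allY (E.wth (lkp [])) l4703 = true ∧
    allY (E.wth (lkp [])) l4704 = true ∧
    allY (E.wth (lkp [])) l4705 = true :=
  ⟨by decide +kernel, by decide +kernel, by decide +kernel, by decide +kernel, by decide +kernel, by decide +kernel, by decide +kernel, by decide +kernel⟩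

def t4706 : allY (E.wth (lkp [])) l4706 = true ∧
    allY (E.wth (lkp [])) l4707 = true ∧
    allY (E.wth (lkp [])) l4708 = true ∧
    allY (E.wth (lkp [])) l4709 = true ∧
    allY (E.wth (lkp [])) l4710 = true ∧
    allY (E.wth (lkp [])) l4711 = true ∧
    allY (E.wth (lkp [])) l4712 = true ∧
    allY (E.wth (lkp [])) l4713 = true :=
  ⟨by decide +kernel, by decide +kernel, by decide +kernel, by decide +kernel, by decide +kernel, by decide +kernel, by decide +kernel, by decide +kernel⟩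

def t4714 : allY (E.wth (lkp [])) l4714 = true ∧
    allY (E.wth (lkp [])) l4715 = true ∧
    allY (E.wth (lkp [])) l4716 = true ∧
    allY (E.wth (lkp [])) l4717 = true ∧
    allY (E.wth (lkp [])) l4718 = true ∧
    allY (E.wth (lkp [])) l4719 = true ∧
    allY (E.wth (lkp [])) l4720 = true ∧
    allY (E.wth (lkp [])) l4721 = true :=
  ⟨by decide +kernel, by decide +kernel, by decide +kernel, by decide +kernel, by decide +kernel, by decide +kernel, by decide +kernel, by decide +kernel⟩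

def t4722 : allY (E.wth (lkp [])) l4722 = true ∧
    allY (E.wth (lkp [])) l4723 = true ∧
    allY (E.wth (lkp [])) l4724 = true ∧
    allY (E.wth (lkp [])) l4725 = true ∧
    allY (E.wth (lkp [])) l4726 = true ∧
    allY (E.wth (lkp [])) l4727 = true ∧
    allY (E.wth (lkp [])) l4728 = true ∧
    allY (E.wth (lkp [])) l4729 = true :=
  ⟨by decide +kernel, by decide +kernel, by decide +kernel, by decide +kernel, by decide +kernel, by decide +kernel, by decide +kernel, by decide +kernel⟩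

def t4730 : allY (E.wth (lkp [])) l4730 = true ∧
    allY (E.wth (lkp [])) l4731 = true ∧
    allY (E.wth (lkp [])) l4732 = true ∧
    allY (E.wth (lkp [])) l4733 = true ∧
    allY (E.wth (lkp [])) l4734 = true ∧
    allY (E.wth (lkp [])) l4735 = true ∧
    allY (E.wth (lkp [])) l4736 = true ∧
    allY (E.wth (lkp [])) l4737 = true :=
  ⟨by decide +kernel, by decide +kernel, by decide +kernel, by decide +kernel, by decide +kernel, by decide +kernel, by decide +kernel, by decide +kernel⟩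

def t4738 : allY (E.wth (lkp [])) l4738 = true ∧
    allY (E.wth (lkp [])) l4739 = true ∧
    allY (E.wth (lkp [])) l4740 = true ∧
    allY (E.wth (lkp [])) l4741 = true ∧
    allY (E.wth (lkp [])) l4742 = true ∧
    allY (E.wth (lkp [])) l4743 = true ∧
    allY (E.wth (lkp [])) l4744 = true ∧
    allY (E.wth (lkp [])) l4745 = true :=
  ⟨by decide +kernel, by decide +kernel, by decide +kernel, by decide +kernel, by decide +kernel, by decide +kernel, by decide +kernel, by decide +kernel⟩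

def t4746 : allY (E.wth (lkp [])) l4746 = true ∧
    allY (E.wth (lkp [])) l4747 = true ∧
    allY (E.wth (lkp [])) l4748 = true ∧
    allY (E.wth (lkp [])) l4749 = true ∧
    allY (E.wth (lkp [])) l4750 = true ∧
    allY (E.wth (lkp [])) l4751 = true ∧
    allY (E.wth (lkp [])) l4752 = true ∧
    allY (E.wth (lkp [])) l4753 = true :=
  ⟨by decide +kernel, by decide +kernel, by decide +kernel, by decide +kernel, by decide +kernel, by decide +kernel, by decide +kernel, by decide +kernel⟩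

def t4754 : allY (E.wth (lkp [])) l4754 = true ∧
    allY (E.wth (lkp [])) l4755 = true ∧
    allY (E.wth (lkp [])) l4756 = true ∧
    allY (E.wth (lkp [])) l4757 = true ∧
    allY (E.wth (lkp [])) l4758 = true ∧
    allY (E.wth (lkp [])) l4759 = true ∧
    allY (E.wth (lkp [])) l4760 = true ∧
    allY (E.wth (lkp [])) l4761 = true :=
  ⟨by decide +kernel, by decide +kernel, by decide +kernel, by decide +kernel, by decide +kernel, by decide +kernel, by decide +kernel, by decide +kernel⟩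

def t4762 : allY (E.wth (lkp [])) l4762 = true ∧
    allY (E.wth (lkp [])) l4763 = true ∧
    allY (E.wth (lkp [])) l4764 = true ∧
    allY (E.wth (lkp [])) l4765 = true ∧
    allY (E.wth (lkp [])) l4766 = true ∧
    allY (E.wth (lkp [])) l4767 = true ∧
    allY (E.wth (lkp [])) l4768 = true ∧
    allY (E.wth (lkp [])) l4769 = true :=
  ⟨by decide +kernel, by decide +kernel, by decide +kernel, by decide +kernel, by decide +kernel, by decide +kernel, by decide +kernel, by decide +kernel⟩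

def t4770 : allY (E.wth (lkp [])) l4770 = true ∧
    allY (E.wth (lkp [])) l4771 = true ∧
    allY (E.wth (lkp [])) l4772 = true ∧
    allY (E.wth (lkp [])) l4773 = true ∧
    allY (E.wth (lkp [])) l4774 = true ∧
    allY (E.wth (lkp [])) l4775 = true ∧
    allY (E.wth (lkp [])) l4776 = true ∧
    allY (E.wth (lkp [])) l4777 = true :=
  ⟨by decide +kernel, by decide +kernel, by decide +kernel, by decide +kernel, by decide +kernel, by decide +kernel, by decide +kernel, by decide +kernel⟩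

def t4778 : allY (E.wth (lkp [])) l4778 = true ∧
    allY (E.wth (lkp [])) l4779 = true ∧
    allY (E.wth (lkp [])) l4780 = true ∧
    allY (E.wth (lkp [])) l4781 = true ∧
    allY (E.wth (lkp [])) l4782 = true ∧
    allY (E.wth (lkp [])) l4783 = true ∧
    allY (E.wth (lkp [])) l4784 = true ∧
    allY (E.wth (lkp [])) l4785 = true :=
  ⟨by decide +kernel, by decide +kernel, by decide +kernel, by decide +kernel, by decide +kernel, by decide +kernel, by decide +kernel, by decide +kernel⟩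

def t4786 : allY (E.wth (lkp [])) l4786 = true ∧
    allY (E.wth (lkp [])) l4787 = true ∧
    allY (E.wth (lkp [])) l4788 = true ∧
    allY (E.wth (lkp [])) l4789 = true ∧
    allY (E.wth (lkp [])) l4790 = true ∧
    allY (E.wth (lkp [])) l4791 = true ∧
    allY (E.wth (lkp [])) l4792 = true ∧
    allY (E.wth (lkp [])) l4793 = true :=
  ⟨by decide +kernel, by decide +kernel, by decide +kernel, by decide +kernel, by decide +kernel, by decide +kernel, by decide +kernel, by decide +kernel⟩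

def t4794 : allY (E.wth (lkp [])) l4794 = true ∧
    allY (E.wth (lkp [])) l4795 = true ∧
    allY (E.wth (lkp [])) l4796 = true ∧
    allY (E.wth (lkp [])) l4797 = true ∧
    allY (E.wth (lkp [])) l4798 = true ∧
    allY (E.wth (lkp [])) l4799 = true ∧
    allY (E.wth (lkp [])) l4800 = true ∧
    allY (E.wth (lkp [])) l4801 = true :=
  ⟨by decide +kernel, by decide +kernel, by decide +kernel, by decide +kernel, by decide +kernel, by decide +kernel, by decide +kernel, by decide +kernel⟩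

def t4802 : allY (E.wth (lkp [])) l4802 = true ∧
    allY (E.wth (lkp [])) l4803 = true ∧
    allY (E.wth (lkp [])) l4804 = true ∧
    allY (E.wth (lkp [])) l4805 = true ∧
    allY (E.wth (lkp [])) l4806 = true ∧
    allY (E.wth (lkp [])) l4807 = true ∧
    allY (E.wth (lkp [])) l4808 = true ∧
    allY (E.wth (lkp [])) l4809 = true :=
  ⟨by decide +kernel, by decide +kernel, by decide +kernel, by decide +kernel, by decide +kernel, by decide +kernel, by decide +kernel, by decide +kernel⟩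

def t4810 : allY (E.wth (lkp [])) l4810 = true ∧
    allY (E.wth (lkp [])) l4811 = true ∧
    allY (E.wth (lkp [])) l4812 = true ∧
    allY (E.wth (lkp [])) l4813 = true ∧
    allY (E.wth (lkp [])) l4814 = true ∧
    allY (E.wth (lkp [])) l4815 = true ∧
    allY (E.wth (lkp [])) l4816 = true ∧
    allY (E.wth (lkp [])) l4817 = true :=
  ⟨by decide +kernel, by decide +kernel, by decide +kernel, by decide +kernel, by decide +kernel, by decide +kernel, by decide +kernel, by decide +kernel⟩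

def t4818 : allY (E.wth (lkp [])) l4818 = true ∧
    allY (E.wth (lkp [])) l4819 = true ∧
    allY (E.wth (lkp [])) l4820 = true ∧
    allY (E.wth (lkp [])) l4821 = true ∧
    allY (E.wth (lkp [])) l4822 = true ∧
    allY (E.wth (lkp [])) l4823 = true ∧
    allY (E.wth (lkp [])) l4824 = true ∧
    allY (E.wth (lkp [])) l4825 = true :=
  ⟨by decide +kernel, by decide +kernel, by decide +kernel, by decide +kernel, by decide +kernel, by decide +kernel, by decide +kernel, by decide +kernel⟩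

def t4826 : allY (E.wth (lkp [])) l4826 = true ∧
    allY (E.wth (lkp [])) l4827 = true ∧
    allY (E.wth (lkp [])) l4828 = true ∧
    allY (E.wth (lkp [])) l4829 = true ∧
    allY (E.wth (lkp [])) l4830 = true ∧
    allY (E.wth (lkp [])) l4831 = true ∧
    allY (E.wth (lkp [])) l4832 = true ∧
    allY (E.wth (lkp [])) l4833 = true :=
  ⟨by decide +kernel, by decide +kernel, by decide +kernel, by decide +kernel, by decide +kernel, by decide +kernel, by decide +kernel, by decide +kernel⟩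

def t4834 : allY (E.wth (lkp [])) l4834 = true ∧
    allY (E.wth (lkp [])) l4835 = true ∧
    allY (E.wth (lkp [])) l4836 = true ∧
    allY (E.wth (lkp [])) l4837 = true ∧
    allY (E.wth (lkp [])) l4838 = true ∧
    allY (E.wth (lkp [])) l4839 = true ∧
    allY (E.wth (lkp [])) l4840 = true ∧
    allY (E.wth (lkp [])) l4841 = true :=
  ⟨by decide +kernel, by decide +kernel, by decide +kernel, by decide +kernel, by decide +kernel, by decide +kernel, by decide +kernel, by decide +kernel⟩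

def t4842 : allY (E.wth (lkp [])) l4842 = true ∧
    allY (E.wth (lkp [])) l4843 = true ∧
    allY (E.wth (lkp [])) l4844 = true ∧
    allY (E.wth (lkp [])) l4845 = true ∧
    allY (E.wth (lkp [])) l4846 = true ∧
    allY (E.wth (lkp [])) l4847 = true ∧
    allY (E.wth (lkp [])) l4848 = true ∧
    allY (E.wth (lkp [])) l4849 = true :=
  ⟨by decide +kernel, by decide +kernel, by decide +kernel, by decide +kernel, by decide +kernel, by decide +kernel, by decide +kernel, by decide +kernel⟩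

def t4850 : allY (E.wth (lkp [])) l4850 = true ∧
    allY (E.wth (lkp [])) l4851 = true ∧
    allY (E.wth (lkp [])) l4852 = true ∧
    allY (E.wth (lkp [])) l4853 = true ∧
    allY (E.wth (lkp [])) l4854 = true ∧
    allY (E.wth (lkp [])) l4855 = true ∧
    allY (E.wth (lkp [])) l4856 = true ∧
    allY (E.wth (lkp [])) l4857 = true :=
  ⟨by decide +kernel, by decide +kernel, by decide +kernel, by decide +kernel, by decide +kernel, by decide +kernel, by decide +kernel, by decide +kernel⟩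

def t4858 : allY (E.wth (lkp [])) l4858 = true ∧
    allY (E.wth (lkp [])) l4859 = true ∧
    allY (E.wth (lkp [])) l4860 = true ∧
    allY (E.wth (lkp [])) l4861 = true ∧
    allY (E.wth (lkp [])) l4862 = true ∧
    allY (E.wth (lkp [])) l4863 = true ∧
    allY (E.wth (lkp [])) l4864 = true ∧
    allY (E.wth (lkp [])) l4865 = true :=
  ⟨by decide +kernel, by decide +kernel, by decide +kernel, by decide +kernel, by decide +kernel, by decide +kernel, by decide +kernel, by decide +kernel⟩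

def t4866 : allY (E.wth (lkp [])) l4866 = true ∧
    allY (E.wth (lkp [])) l4867 = true ∧
    allY (E.wth (lkp [])) l4868 = true ∧
    allY (E.wth (lkp [])) l4869 = true ∧
    allY (E.wth (lkp [])) l4870 = true ∧
    allY (E.wth (lkp [])) l4871 = true ∧
    allY (E.wth (lkp [])) l4872 = true ∧
    allY (E.wth (lkp [])) l4873 = true :=
  ⟨by decide +kernel, by decide +kernel, by decide +kernel, by decide +kernel, by decide +kernel, by decide +kernel, by decide +kernel, by decide +kernel⟩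

def t4874 : allY (E.wth (lkp [])) l4874 = true ∧
    allY (E.wth (lkp [])) l4875 = true ∧
    allY (E.wth (lkp [])) l4876 = true ∧
    allY (E.wth (lkp [])) l4877 = true ∧
    allY (E.wth (lkp [])) l4878 = true ∧
    allY (E.wth (lkp [])) l4879 = true ∧
    allY (E.wth (lkp [])) l4880 = true ∧
    allY (E.wth (lkp [])) l4881 = true :=
  ⟨by decide +kernel, by decide +kernel, by decide +kernel, by decide +kernel, by decide +kernel, by decide +kernel, by decide +kernel, by decide +kernel⟩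

def t4882 : allY (E.wth (lkp [])) l4882 = true ∧
    allY (E.wth (lkp [])) l4883 = true ∧
    allY (E.wth (lkp [])) l4884 = true ∧
    allY (E.wth (lkp [])) l4885 = true ∧
    allY (E.wth (lkp [])) l4886 = true ∧
    allY (E.wth (lkp [])) l4887 = true ∧
    allY (E.wth (lkp [])) l4888 = true ∧
    allY (E.wth (lkp [])) l4889 = true :=
  ⟨by decide +kernel, by decide +kernel, by decide +kernel, by decide +kernel, by decide +kernel, by decide +kernel, by decide +kernel, by decide +kernel⟩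

def t4890 : allY (E.wth (lkp [])) l4890 = true ∧
    allY (E.wth (lkp [])) l4891 = true ∧
    allY (E.wth (lkp [])) l4892 = true ∧
    allY (E.wth (lkp [])) l4893 = true ∧
    allY (E.wth (lkp [])) l4894 = true ∧
    allY (E.wth (lkp [])) l4895 = true ∧
    allY (E.wth (lkp [])) l4896 = true ∧
    allY (E.wth (lkp [])) l4897 = true :=
  ⟨by decide +kernel, by decide +kernel, by decide +kernel, by decide +kernel, by decide +kernel, by decide +kernel, by decide +kernel, by decide +kernel⟩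

def t4898 : allY (E.wth (lkp [])) l4898 = true ∧
    allY (E.wth (lkp [])) l4899 = true ∧
    allY (E.wth (lkp [])) l4900 = true ∧
    allY (E.wth (lkp [])) l4901 = true ∧
    allY (E.wth (lkp [])) l4902 = true ∧
    allY (E.wth (lkp [])) l4903 = true ∧
    allY (E.wth (lkp [])) l4904 = true ∧
    allY (E.wth (lkp [])) l4905 = true :=
  ⟨by decide +kernel, by decide +kernel, by decide +kernel, by decide +kernel, by decide +kernel, by decide +kernel, by decide +kernel, by decide +kernel⟩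

def t4906 : allY (E.wth (lkp [])) l4906 = true ∧
    allY (E.wth (lkp [])) l4907 = true ∧
    allY (E.wth (lkp [])) l4908 = true ∧
    allY (E.wth (lkp [])) l4909 = true ∧
    allY (E.wth (lkp [])) l4910 = true ∧
    allY (E.wth (lkp [])) l4911 = true ∧
    allY (E.wth (lkp [])) l4912 = true ∧
    allY (E.wth (lkp [])) l4913 = true :=
  ⟨by decide +kernel, by decide +kernel, by decide +kernel, by decide +kernel, by decide +kernel, by decide +kernel, by decide +kernel, by decide +kernel⟩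

def t4914 : allY (E.wth (lkp [])) l4914 = true ∧
    allY (E.wth (lkp [])) l4915 = true ∧
    allY (E.wth (lkp [])) l4916 = true ∧
    allY (E.wth (lkp [])) l4917 = true ∧
    allY (E.wth (lkp [])) l4918 = true ∧
    allY (E.wth (lkp [])) l4919 = true ∧
    allY (E.wth (lkp [])) l4920 = true ∧
    allY (E.wth (lkp [])) l4921 = true :=
  ⟨by decide +kernel, by decide +kernel, by decide +kernel, by decide +kernel, by decide +kernel, by decide +kernel, by decide +kernel, by decide +kernel⟩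

def t4922 : allY (E.wth (lkp [])) l4922 = true ∧
    allY (E.wth (lkp [])) l4923 = true ∧
    allY (E.wth (lkp [])) l4924 = true ∧
    allY (E.wth (lkp [])) l4925 = true ∧
    allY (E.wth (lkp [])) l4926 = true ∧
    allY (E.wth (lkp [])) l4927 = true ∧
    allY (E.wth (lkp [])) l4928 = true ∧
    allY (E.wth (lkp [])) l4929 = true :=
  ⟨by decide +kernel, by decide +kernel, by decide +kernel, by decide +kernel, by decide +kernel, by decide +kernel, by decide +kernel, by decide +kernel⟩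

def t4930 : allY (E.wth (lkp [])) l4930 = true ∧
    allY (E.wth (lkp [])) l4931 = true ∧
    allY (E.wth (lkp [])) l4932 = true ∧
    allY (E.wth (lkp [])) l4933 = true ∧
    allY (E.wth (lkp [])) l4934 = true ∧
    allY (E.wth (lkp [])) l4935 = true ∧
    allY (E.wth (lkp [])) l4936 = true ∧
    allY (E.wth (lkp [])) l4937 = true :=
  ⟨by decide +kernel, by decide +kernel, by decide +kernel, by decide +kernel, by decide +kernel, by decide +kernel, by decide +kernel, by decide +kernel⟩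

def t4938 : allY (E.wth (lkp [])) l4938 = true ∧
    allY (E.wth (lkp [])) l4939 = true ∧
    allY (E.wth (lkp [])) l4940 = true ∧
    allY (E.wth (lkp [])) l4941 = true ∧
    allY (E.wth (lkp [])) l4942 = true ∧
    allY (E.wth (lkp [])) l4943 = true ∧
    allY (E.wth (lkp [])) l4944 = true ∧
    allY (E.wth (lkp [])) l4945 = true :=
  ⟨by decide +kernel, by decide +kernel, by decide +kernel, by decide +kernel, by decide +kernel, by decide +kernel, by decide +kernel, by decide +kernel⟩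

def t4946 : allY (E.wth (lkp [])) l4946 = true ∧
    allY (E.wth (lkp [])) l4947 = true ∧
    allY (E.wth (lkp [])) l4948 = true ∧
    allY (E.wth (lkp [])) l4949 = true ∧
    allY (E.wth (lkp [])) l4950 = true ∧
    allY (E.wth (lkp [])) l4951 = true ∧
    allY (E.wth (lkp [])) l4952 = true ∧
    allY (E.wth (lkp [])) l4953 = true :=
  ⟨by decide +kernel, by decide +kernel, by decide +kernel, by decide +kernel, by decide +kernel, by decide +kernel, by decide +kernel, by decide +kernel⟩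

def t4954 : allY (E.wth (lkp [])) l4954 = true ∧
    allY (E.wth (lkp [])) l4955 = true ∧
    allY (E.wth (lkp [])) l4956 = true ∧
    allY (E.wth (lkp [])) l4957 = true ∧
    allY (E.wth (lkp [])) l4958 = true ∧
    allY (E.wth (lkp [])) l4959 = true ∧
    allY (E.wth (lkp [])) l4960 = true ∧
    allY (E.wth (lkp [])) l4961 = true :=
  ⟨by decide +kernel, by decide +kernel, by decide +kernel, by decide +kernel, by decide +kernel, by decide +kernel, by decide +kernel, by decide +kernel⟩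

def t4962 : allY (E.wth (lkp [])) l4962 = true ∧
    allY (E.wth (lkp [])) l4963 = true ∧
    allY (E.wth (lkp [])) l4964 = true ∧
    allY (E.wth (lkp [])) l4965 = true ∧
    allY (E.wth (lkp [])) l4966 = true ∧
    allY (E.wth (lkp [])) l4967 = true ∧
    allY (E.wth (lkp [])) l4968 = true ∧
    allY (E.wth (lkp [])) l4969 = true :=
  ⟨by decide +kernel, by decide +kernel, by decide +kernel, by decide +kernel, by decide +kernel, by decide +kernel, by decide +kernel, by decide +kernel⟩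

def t4970 : allY (E.wth (lkp [])) l4970 = true ∧
    allY (E.wth (lkp [])) l4971 = true ∧
    allY (E.wth (lkp [])) l4972 = true ∧
    allY (E.wth (lkp [])) l4973 = true ∧
    allY (E.wth (lkp [])) l4974 = true ∧
    allY (E.wth (lkp [])) l4975 = true ∧
    allY (E.wth (lkp [])) l4976 = true ∧
    allY (E.wth (lkp [])) l4977 = true :=
  ⟨by decide +kernel, by decide +kernel, by decide +kernel, by decide +kernel, by decide +kernel, by decide +kernel, by decide +kernel, by decide +kernel⟩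

def t4978 : allY (E.wth (lkp [])) l4978 = true ∧
    allY (E.wth (lkp [])) l4979 = true ∧
    allY (E.wth (lkp [])) l4980 = true ∧
    allY (E.wth (lkp [])) l4981 = true ∧
    allY (E.wth (lkp [])) l4982 = true ∧
    allY (E.wth (lkp [])) l4983 = true ∧
    allY (E.wth (lkp [])) l4984 = true ∧
    allY (E.wth (lkp [])) l4985 = true :=
  ⟨by decide +kernel, by decide +kernel, by decide +kernel, by decide +kernel, by decide +kernel, by decide +kernel, by decide +kernel, by decide +kernel⟩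

def t4986 : allY (E.wth (lkp [])) l4986 = true ∧
    allY (E.wth (lkp [])) l4987 = true ∧
    allY (E.wth (lkp [])) l4988 = true ∧
    allY (E.wth (lkp [])) l4989 = true ∧
    allY (E.wth (lkp [])) l4990 = true ∧
    allY (E.wth (lkp [])) l4991 = true ∧
    allY (E.wth (lkp [])) l4992 = true ∧
    allY (E.wth (lkp [])) l4993 = true :=
  ⟨by decide +kernel, by decide +kernel, by decide +kernel, by decide +kernel, by decide +kernel, by decide +kernel, by decide +kernel, by decide +kernel⟩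

def t4994 : allY (E.wth (lkp [])) l4994 = true :=
  by decide +kernel

theorem a8 {p : Rf → Prop} (H : ∀ l, allY (E.wth (lkp [])) l = true → (lkp l).All p) :
    b8.All p := ⟨⟨⟨⟨⟨⟨⟨⟨⟨H _ t4426.1, H _ t4426.2.1⟩, ⟨H _ t4426.2.2.1, H _ t4426.2.2.2.1⟩⟩, ⟨⟨H _ t4426.2.2.2.2.1, H _ t4426.2.2.2.2.2.1⟩, ⟨H _ t4426.2.2.2.2.2.2.1, H _ t4426.2.2.2.2.2.2.2⟩⟩⟩, ⟨⟨⟨H _ t4434.1, H _ t4434.2.1⟩, ⟨H _ t4434.2.2.1, H _ t4434.2.2.2.1⟩⟩, ⟨⟨H _ t4434.2.2.2.2.1, H _ t4434.2.2.2.2.2.1⟩, ⟨H _ t4434.2.2.2.2.2.2.1, ⟨H _ t4434.2.2.2.2.2.2.2, H _ t4442.1⟩⟩⟩⟩⟩, ⟨⟨⟨⟨H _ t4442.2.1, H _ t4442.2.2.1⟩, ⟨H _ t4442.2.2.2.1, H _ t4442.2.2.2.2.1⟩⟩, ⟨⟨H _ t4442.2.2.2.2.2.1, H _ t4442.2.2.2.2.2.2.1⟩, ⟨H _ t4442.2.2.2.2.2.2.2, ⟨H _ t4450.1, H _ t4450.2.1⟩⟩⟩⟩, ⟨⟨⟨H _ t4450.2.2.1, H _ t4450.2.2.2.1⟩, ⟨H _ t4450.2.2.2.2.1, H _ t4450.2.2.2.2.2.1⟩⟩, ⟨⟨H _ t4450.2.2.2.2.2.2.1, H _ t4450.2.2.2.2.2.2.2⟩, ⟨H _ t4458.1,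 ⟨H _ t4458.2.1, H _ t4458.2.2.1⟩⟩⟩⟩⟩⟩, ⟨⟨⟨⟨⟨H _ t4458.2.2.2.1, H _ t4458.2.2.2.2.1⟩, ⟨H _ t4458.2.2.2.2.2.1, H _ t4458.2.2.2.2.2.2.1⟩⟩, ⟨⟨H _ t4458.2.2.2.2.2.2.2, H _ t4466.1⟩, ⟨H _ t4466.2.1, ⟨H _ t4466.2.2.1, H _ t4466.2.2.2.1⟩⟩⟩⟩, ⟨⟨⟨H _ t4466.2.2.2.2.1, H _ t4466.2.2.2.2.2.1⟩, ⟨H _ t4466.2.2.2.2.2.2.1, H _ t4466.2.2.2.2.2.2.2⟩⟩, ⟨⟨H _ t4474.1, H _ t4474.2.1⟩, ⟨H _ t4474.2.2.1, ⟨H _ t4474.2.2.2.1, H _ t4474.2.2.2.2.1⟩⟩⟩⟩⟩, ⟨⟨⟨⟨H _ t4474.2.2.2.2.2.1, H _ t4474.2.2.2.2.2.2.1⟩, ⟨H _ t4474.2.2.2.2.2.2.2, H _ t4482.1⟩⟩, ⟨⟨H _ t4482.2.1, H _ t4482.2.2.1⟩, ⟨H _ t4482.2.2.2.1, ⟨H _ t4482.2.2.2.2.1, H _ t4482.2.2.2.2.2.1⟩⟩⟩⟩, ⟨⟨⟨H _ t4482.2.2.2.2.2.2.1, H _ t4482.2.2.2.2.2.2.2⟩, ⟨H _ t4490.1, H _ t4490.2.1⟩⟩, ⟨⟨H _ t4490.2.2.1, H _ t4490.2.2.2.1⟩, ⟨H _ t4490.2.2.2.2.1, ⟨H _ t4490.2.2.2.2.2.1, H _ t4490.2.2.2.2.2.2.1⟩⟩⟩⟩⟩⟩⟩, ⟨⟨⟨⟨⟨⟨H _ t4490.2.2.2.2.2.2.2, H _ t4498.1⟩, ⟨H _ t4498.2.1,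 H _ t4498.2.2.1⟩⟩, ⟨⟨H _ t4498.2.2.2.1, H _ t4498.2.2.2.2.1⟩, ⟨H _ t4498.2.2.2.2.2.1, H _ t4498.2.2.2.2.2.2.1⟩⟩⟩, ⟨⟨⟨H _ t4498.2.2.2.2.2.2.2, H _ t4506.1⟩, ⟨H _ t4506.2.1, H _ t4506.2.2.1⟩⟩, ⟨⟨H _ t4506.2.2.2.1, H _ t4506.2.2.2.2.1⟩, ⟨H _ t4506.2.2.2.2.2.1, ⟨H _ t4506.2.2.2.2.2.2.1, H _ t4506.2.2.2.2.2.2.2⟩⟩⟩⟩⟩, ⟨⟨⟨⟨H _ t4514.1, H _ t4514.2.1⟩, ⟨H _ t4514.2.2.1, H _ t4514.2.2.2.1⟩⟩, ⟨⟨H _ t4514.2.2.2.2.1, H _ t4514.2.2.2.2.2.1⟩, ⟨H _ t4514.2.2.2.2.2.2.1, ⟨H _ t4514.2.2.2.2.2.2.2, H _ t4522.1⟩⟩⟩⟩, ⟨⟨⟨H _ t4522.2.1, H _ t4522.2.2.1⟩, ⟨H _ t4522.2.2.2.1, H _ t4522.2.2.2.2.1⟩⟩, ⟨⟨H _ t4522.2.2.2.2.2.1, H _ t4522.2.2.2.2.2.2.1⟩, ⟨H _ t4522.2.2.2.2.2.2.2, ⟨H _ t4530.1, H _ t4530.2.1⟩⟩⟩⟩⟩⟩, ⟨⟨⟨⟨⟨H _ t4530.2.2.1, H _ t4530.2.2.2.1⟩, ⟨H _ t4530.2.2.2.2.1, H _ t4530.2.2.2.2.2.1⟩⟩, ⟨⟨H _ t4530.2.2.2.2.2.2.1, H _ t4530.2.2.2.2.2.2.2⟩, ⟨H _ t4538.1, ⟨H _ t4538.2.1, H _ t4538.2.2.1⟩⟩⟩⟩,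 ⟨⟨⟨H _ t4538.2.2.2.1, H _ t4538.2.2.2.2.1⟩, ⟨H _ t4538.2.2.2.2.2.1, H _ t4538.2.2.2.2.2.2.1⟩⟩, ⟨⟨H _ t4538.2.2.2.2.2.2.2, H _ t4546.1⟩, ⟨H _ t4546.2.1, ⟨H _ t4546.2.2.1, H _ t4546.2.2.2.1⟩⟩⟩⟩⟩, ⟨⟨⟨⟨H _ t4546.2.2.2.2.1, H _ t4546.2.2.2.2.2.1⟩, ⟨H _ t4546.2.2.2.2.2.2.1, H _ t4546.2.2.2.2.2.2.2⟩⟩, ⟨⟨H _ t4554.1, H _ t4554.2.1⟩, ⟨H _ t4554.2.2.1, ⟨H _ t4554.2.2.2.1, H _ t4554.2.2.2.2.1⟩⟩⟩⟩, ⟨⟨⟨H _ t4554.2.2.2.2.2.1, H _ t4554.2.2.2.2.2.2.1⟩, ⟨H _ t4554.2.2.2.2.2.2.2, H _ t4562.1⟩⟩, ⟨⟨H _ t4562.2.1, H _ t4562.2.2.1⟩, ⟨H _ t4562.2.2.2.1, ⟨H _ t4562.2.2.2.2.1, H _ t4562.2.2.2.2.2.1⟩⟩⟩⟩⟩⟩⟩⟩, ⟨⟨⟨⟨⟨⟨⟨H _ t4562.2.2.2.2.2.2.1, H _ t4562.2.2.2.2.2.2.2⟩, ⟨H _ t4570.1, H _ t4570.2.1⟩⟩, ⟨⟨H _ t4570.2.2.1, H _ t4570.2.2.2.1⟩, ⟨H _ t4570.2.2.2.2.1, H _ t4570.2.2.2.2.2.1⟩⟩⟩, ⟨⟨⟨H _ t4570.2.2.2.2.2.2.1, H _ t4570.2.2.2.2.2.2.2⟩, ⟨H _ t4578.1, H _ t4578.2.1⟩⟩, ⟨⟨H _ t4578.2.2.1, H _ t4578.2.2.2.1⟩,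 ⟨H _ t4578.2.2.2.2.1, ⟨H _ t4578.2.2.2.2.2.1, H _ t4578.2.2.2.2.2.2.1⟩⟩⟩⟩⟩, ⟨⟨⟨⟨H _ t4578.2.2.2.2.2.2.2, H _ t4586.1⟩, ⟨H _ t4586.2.1, H _ t4586.2.2.1⟩⟩, ⟨⟨H _ t4586.2.2.2.1, H _ t4586.2.2.2.2.1⟩, ⟨H _ t4586.2.2.2.2.2.1, ⟨H _ t4586.2.2.2.2.2.2.1, H _ t4586.2.2.2.2.2.2.2⟩⟩⟩⟩, ⟨⟨⟨H _ t4594.1, H _ t4594.2.1⟩, ⟨H _ t4594.2.2.1, H _ t4594.2.2.2.1⟩⟩, ⟨⟨H _ t4594.2.2.2.2.1, H _ t4594.2.2.2.2.2.1⟩, ⟨H _ t4594.2.2.2.2.2.2.1, ⟨H _ t4594.2.2.2.2.2.2.2, H _ t4602.1⟩⟩⟩⟩⟩⟩, ⟨⟨⟨⟨⟨H _ t4602.2.1, H _ t4602.2.2.1⟩, ⟨H _ t4602.2.2.2.1, H _ t4602.2.2.2.2.1⟩⟩, ⟨⟨H _ t4602.2.2.2.2.2.1, H _ t4602.2.2.2.2.2.2.1⟩, ⟨H _ t4602.2.2.2.2.2.2.2, ⟨H _ t4610.1, H _ t4610.2.1⟩⟩⟩⟩, ⟨⟨⟨H _ t4610.2.2.1, H _ t4610.2.2.2.1⟩, ⟨H _ t4610.2.2.2.2.1, H _ t4610.2.2.2.2.2.1⟩⟩, ⟨⟨H _ t4610.2.2.2.2.2.2.1, H _ t4610.2.2.2.2.2.2.2⟩, ⟨H _ t4618.1, ⟨H _ t4618.2.1, H _ t4618.2.2.1⟩⟩⟩⟩⟩, ⟨⟨⟨⟨H _ t4618.2.2.2.1, H _ t4618.2.2.2.2.1⟩,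 ⟨H _ t4618.2.2.2.2.2.1, H _ t4618.2.2.2.2.2.2.1⟩⟩, ⟨⟨H _ t4618.2.2.2.2.2.2.2, H _ t4626.1⟩, ⟨H _ t4626.2.1, ⟨H _ t4626.2.2.1, H _ t4626.2.2.2.1⟩⟩⟩⟩, ⟨⟨⟨H _ t4626.2.2.2.2.1, H _ t4626.2.2.2.2.2.1⟩, ⟨H _ t4626.2.2.2.2.2.2.1, H _ t4626.2.2.2.2.2.2.2⟩⟩, ⟨⟨H _ t4634.1, H _ t4634.2.1⟩, ⟨H _ t4634.2.2.1, ⟨H _ t4634.2.2.2.1, H _ t4634.2.2.2.2.1⟩⟩⟩⟩⟩⟩⟩, ⟨⟨⟨⟨⟨⟨H _ t4634.2.2.2.2.2.1, H _ t4634.2.2.2.2.2.2.1⟩, ⟨H _ t4634.2.2.2.2.2.2.2, H _ t4642.1⟩⟩, ⟨⟨H _ t4642.2.1, H _ t4642.2.2.1⟩, ⟨H _ t4642.2.2.2.1, H _ t4642.2.2.2.2.1⟩⟩⟩, ⟨⟨⟨H _ t4642.2.2.2.2.2.1, H _ t4642.2.2.2.2.2.2.1⟩, ⟨H _ t4642.2.2.2.2.2.2.2, H _ t4650.1⟩⟩, ⟨⟨H _ t4650.2.1, H _ t4650.2.2.1⟩, ⟨H _ t4650.2.2.2.1, ⟨H _ t4650.2.2.2.2.1, H _ t4650.2.2.2.2.2.1⟩⟩⟩⟩⟩, ⟨⟨⟨⟨H _ t4650.2.2.2.2.2.2.1, H _ t4650.2.2.2.2.2.2.2⟩, ⟨H _ t4658.1, H _ t4658.2.1⟩⟩, ⟨⟨H _ t4658.2.2.1, H _ t4658.2.2.2.1⟩, ⟨H _ t4658.2.2.2.2.1, ⟨H _ t4658.2.2.2.2.2.1,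 H _ t4658.2.2.2.2.2.2.1⟩⟩⟩⟩, ⟨⟨⟨H _ t4658.2.2.2.2.2.2.2, H _ t4666.1⟩, ⟨H _ t4666.2.1, H _ t4666.2.2.1⟩⟩, ⟨⟨H _ t4666.2.2.2.1, H _ t4666.2.2.2.2.1⟩, ⟨H _ t4666.2.2.2.2.2.1, ⟨H _ t4666.2.2.2.2.2.2.1, H _ t4666.2.2.2.2.2.2.2⟩⟩⟩⟩⟩⟩, ⟨⟨⟨⟨⟨H _ t4674.1, H _ t4674.2.1⟩, ⟨H _ t4674.2.2.1, H _ t4674.2.2.2.1⟩⟩, ⟨⟨H _ t4674.2.2.2.2.1, H _ t4674.2.2.2.2.2.1⟩, ⟨H _ t4674.2.2.2.2.2.2.1, ⟨H _ t4674.2.2.2.2.2.2.2, H _ t4682.1⟩⟩⟩⟩, ⟨⟨⟨H _ t4682.2.1, H _ t4682.2.2.1⟩, ⟨H _ t4682.2.2.2.1, H _ t4682.2.2.2.2.1⟩⟩, ⟨⟨H _ t4682.2.2.2.2.2.1, H _ t4682.2.2.2.2.2.2.1⟩, ⟨H _ t4682.2.2.2.2.2.2.2, ⟨H _ t4690.1, H _ t4690.2.1⟩⟩⟩⟩⟩, ⟨⟨⟨⟨H _ t4690.2.2.1, H _ t4690.2.2.2.1⟩, ⟨H _ t4690.2.2.2.2.1, H _ t4690.2.2.2.2.2.1⟩⟩, ⟨⟨H _ t4690.2.2.2.2.2.2.1, H _ t4690.2.2.2.2.2.2.2⟩, ⟨H _ t4698.1, ⟨H _ t4698.2.1, H _ t4698.2.2.1⟩⟩⟩⟩, ⟨⟨⟨H _ t4698.2.2.2.1, H _ t4698.2.2.2.2.1⟩, ⟨H _ t4698.2.2.2.2.2.1, H _ t4698.2.2.2.2.2.2.1⟩⟩,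 ⟨⟨H _ t4698.2.2.2.2.2.2.2, H _ t4706.1⟩, ⟨H _ t4706.2.1, ⟨H _ t4706.2.2.1, H _ t4706.2.2.2.1⟩⟩⟩⟩⟩⟩⟩⟩⟩, ⟨⟨⟨⟨⟨⟨⟨⟨H _ t4706.2.2.2.2.1, H _ t4706.2.2.2.2.2.1⟩, ⟨H _ t4706.2.2.2.2.2.2.1, H _ t4706.2.2.2.2.2.2.2⟩⟩, ⟨⟨H _ t4714.1, H _ t4714.2.1⟩, ⟨H _ t4714.2.2.1, H _ t4714.2.2.2.1⟩⟩⟩, ⟨⟨⟨H _ t4714.2.2.2.2.1, H _ t4714.2.2.2.2.2.1⟩, ⟨H _ t4714.2.2.2.2.2.2.1, H _ t4714.2.2.2.2.2.2.2⟩⟩, ⟨⟨H _ t4722.1, H _ t4722.2.1⟩, ⟨H _ t4722.2.2.1, ⟨H _ t4722.2.2.2.1, H _ t4722.2.2.2.2.1⟩⟩⟩⟩⟩, ⟨⟨⟨⟨H _ t4722.2.2.2.2.2.1, H _ t4722.2.2.2.2.2.2.1⟩, ⟨H _ t4722.2.2.2.2.2.2.2, H _ t4730.1⟩⟩, ⟨⟨H _ t4730.2.1, H _ t4730.2.2.1⟩, ⟨H _ t4730.2.2.2.1, ⟨H _ t4730.2.2.2.2.1, H _ t4730.2.2.2.2.2.1⟩⟩⟩⟩, ⟨⟨⟨H _ t4730.2.2.2.2.2.2.1, H _ t4730.2.2.2.2.2.2.2⟩, ⟨H _ t4738.1, H _ t4738.2.1⟩⟩, ⟨⟨H _ t4738.2.2.1, H _ t4738.2.2.2.1⟩, ⟨H _ t4738.2.2.2.2.1, ⟨H _ t4738.2.2.2.2.2.1, H _ t4738.2.2.2.2.2.2.1⟩⟩⟩⟩⟩⟩, ⟨⟨⟨⟨⟨H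 _ t4738.2.2.2.2.2.2.2, H _ t4746.1⟩, ⟨H _ t4746.2.1, H _ t4746.2.2.1⟩⟩, ⟨⟨H _ t4746.2.2.2.1, H _ t4746.2.2.2.2.1⟩, ⟨H _ t4746.2.2.2.2.2.1, ⟨H _ t4746.2.2.2.2.2.2.1, H _ t4746.2.2.2.2.2.2.2⟩⟩⟩⟩, ⟨⟨⟨H _ t4754.1, H _ t4754.2.1⟩, ⟨H _ t4754.2.2.1, H _ t4754.2.2.2.1⟩⟩, ⟨⟨H _ t4754.2.2.2.2.1, H _ t4754.2.2.2.2.2.1⟩, ⟨H _ t4754.2.2.2.2.2.2.1, ⟨H _ t4754.2.2.2.2.2.2.2, H _ t4762.1⟩⟩⟩⟩⟩, ⟨⟨⟨⟨H _ t4762.2.1, H _ t4762.2.2.1⟩, ⟨H _ t4762.2.2.2.1, H _ t4762.2.2.2.2.1⟩⟩, ⟨⟨H _ t4762.2.2.2.2.2.1, H _ t4762.2.2.2.2.2.2.1⟩, ⟨H _ t4762.2.2.2.2.2.2.2, ⟨H _ t4770.1, H _ t4770.2.1⟩⟩⟩⟩, ⟨⟨⟨H _ t4770.2.2.1, H _ t4770.2.2.2.1⟩, ⟨H _ t4770.2.2.2.2.1, H _ t4770.2.2.2.2.2.1⟩⟩, ⟨⟨H _ t4770.2.2.2.2.2.2.1, H _ t4770.2.2.2.2.2.2.2⟩, ⟨H _ t4778.1, ⟨H _ t4778.2.1, H _ t4778.2.2.1⟩⟩⟩⟩⟩⟩⟩, ⟨⟨⟨⟨⟨⟨H _ t4778.2.2.2.1, H _ t4778.2.2.2.2.1⟩, ⟨H _ t4778.2.2.2.2.2.1, H _ t4778.2.2.2.2.2.2.1⟩⟩, ⟨⟨H _ t4778.2.2.2.2.2.2.2,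 H _ t4786.1⟩, ⟨H _ t4786.2.1, H _ t4786.2.2.1⟩⟩⟩, ⟨⟨⟨H _ t4786.2.2.2.1, H _ t4786.2.2.2.2.1⟩, ⟨H _ t4786.2.2.2.2.2.1, H _ t4786.2.2.2.2.2.2.1⟩⟩, ⟨⟨H _ t4786.2.2.2.2.2.2.2, H _ t4794.1⟩, ⟨H _ t4794.2.1, ⟨H _ t4794.2.2.1, H _ t4794.2.2.2.1⟩⟩⟩⟩⟩, ⟨⟨⟨⟨H _ t4794.2.2.2.2.1, H _ t4794.2.2.2.2.2.1⟩, ⟨H _ t4794.2.2.2.2.2.2.1, H _ t4794.2.2.2.2.2.2.2⟩⟩, ⟨⟨H _ t4802.1, H _ t4802.2.1⟩, ⟨H _ t4802.2.2.1, ⟨H _ t4802.2.2.2.1, H _ t4802.2.2.2.2.1⟩⟩⟩⟩, ⟨⟨⟨H _ t4802.2.2.2.2.2.1, H _ t4802.2.2.2.2.2.2.1⟩, ⟨H _ t4802.2.2.2.2.2.2.2, H _ t4810.1⟩⟩, ⟨⟨H _ t4810.2.1, H _ t4810.2.2.1⟩, ⟨H _ t4810.2.2.2.1, ⟨H _ t4810.2.2.2.2.1, H _ t4810.2.2.2.2.2.1⟩⟩⟩⟩⟩⟩, ⟨⟨⟨⟨⟨H _ t4810.2.2.2.2.2.2.1, H _ t4810.2.2.2.2.2.2.2⟩, ⟨H _ t4818.1, H _ t4818.2.1⟩⟩, ⟨⟨H _ t4818.2.2.1, H _ t4818.2.2.2.1⟩, ⟨H _ t4818.2.2.2.2.1, ⟨H _ t4818.2.2.2.2.2.1, H _ t4818.2.2.2.2.2.2.1⟩⟩⟩⟩, ⟨⟨⟨H _ t4818.2.2.2.2.2.2.2, H _ t4826.1⟩,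 ⟨H _ t4826.2.1, H _ t4826.2.2.1⟩⟩, ⟨⟨H _ t4826.2.2.2.1, H _ t4826.2.2.2.2.1⟩, ⟨H _ t4826.2.2.2.2.2.1, ⟨H _ t4826.2.2.2.2.2.2.1, H _ t4826.2.2.2.2.2.2.2⟩⟩⟩⟩⟩, ⟨⟨⟨⟨H _ t4834.1, H _ t4834.2.1⟩, ⟨H _ t4834.2.2.1, H _ t4834.2.2.2.1⟩⟩, ⟨⟨H _ t4834.2.2.2.2.1, H _ t4834.2.2.2.2.2.1⟩, ⟨H _ t4834.2.2.2.2.2.2.1, ⟨H _ t4834.2.2.2.2.2.2.2, H _ t4842.1⟩⟩⟩⟩, ⟨⟨⟨H _ t4842.2.1, H _ t4842.2.2.1⟩, ⟨H _ t4842.2.2.2.1, H _ t4842.2.2.2.2.1⟩⟩, ⟨⟨H _ t4842.2.2.2.2.2.1, H _ t4842.2.2.2.2.2.2.1⟩, ⟨H _ t4842.2.2.2.2.2.2.2, ⟨H _ t4850.1, H _ t4850.2.1⟩⟩⟩⟩⟩⟩⟩⟩, ⟨⟨⟨⟨⟨⟨⟨H _ t4850.2.2.1, H _ t4850.2.2.2.1⟩, ⟨H _ t4850.2.2.2.2.1, H _ t4850.2.2.2.2.2.1⟩⟩, ⟨⟨H _ t4850.2.2.2.2.2.2.1, H _ t4850.2.2.2.2.2.2.2⟩, ⟨H _ t4858.1, H _ t4858.2.1⟩⟩⟩, ⟨⟨⟨H _ t4858.2.2.1, H _ t4858.2.2.2.1⟩, ⟨H _ t4858.2.2.2.2.1, H _ t4858.2.2.2.2.2.1⟩⟩, ⟨⟨H _ t4858.2.2.2.2.2.2.1, H _ t4858.2.2.2.2.2.2.2⟩, ⟨H _ t4866.1, ⟨H _ t4866.2.1,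 H _ t4866.2.2.1⟩⟩⟩⟩⟩, ⟨⟨⟨⟨H _ t4866.2.2.2.1, H _ t4866.2.2.2.2.1⟩, ⟨H _ t4866.2.2.2.2.2.1, H _ t4866.2.2.2.2.2.2.1⟩⟩, ⟨⟨H _ t4866.2.2.2.2.2.2.2, H _ t4874.1⟩, ⟨H _ t4874.2.1, ⟨H _ t4874.2.2.1, H _ t4874.2.2.2.1⟩⟩⟩⟩, ⟨⟨⟨H _ t4874.2.2.2.2.1, H _ t4874.2.2.2.2.2.1⟩, ⟨H _ t4874.2.2.2.2.2.2.1, H _ t4874.2.2.2.2.2.2.2⟩⟩, ⟨⟨H _ t4882.1, H _ t4882.2.1⟩, ⟨H _ t4882.2.2.1, ⟨H _ t4882.2.2.2.1, H _ t4882.2.2.2.2.1⟩⟩⟩⟩⟩⟩, ⟨⟨⟨⟨⟨H _ t4882.2.2.2.2.2.1, H _ t4882.2.2.2.2.2.2.1⟩, ⟨H _ t4882.2.2.2.2.2.2.2, H _ t4890.1⟩⟩, ⟨⟨H _ t4890.2.1, H _ t4890.2.2.1⟩, ⟨H _ t4890.2.2.2.1, ⟨H _ t4890.2.2.2.2.1, H _ t4890.2.2.2.2.2.1⟩⟩⟩⟩, ⟨⟨⟨H _ t4890.2.2.2.2.2.2.1, H _ t4890.2.2.2.2.2.2.2⟩, ⟨H _ t4898.1, H _ t4898.2.1⟩⟩, ⟨⟨H _ t4898.2.2.1, H _ t4898.2.2.2.1⟩, ⟨H _ t4898.2.2.2.2.1, ⟨H _ t4898.2.2.2.2.2.1, H _ t4898.2.2.2.2.2.2.1⟩⟩⟩⟩⟩, ⟨⟨⟨⟨H _ t4898.2.2.2.2.2.2.2, H _ t4906.1⟩, ⟨H _ t4906.2.1, H _ t4906.2.2.1⟩⟩,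 ⟨⟨H _ t4906.2.2.2.1, H _ t4906.2.2.2.2.1⟩, ⟨H _ t4906.2.2.2.2.2.1, ⟨H _ t4906.2.2.2.2.2.2.1, H _ t4906.2.2.2.2.2.2.2⟩⟩⟩⟩, ⟨⟨⟨H _ t4914.1, H _ t4914.2.1⟩, ⟨H _ t4914.2.2.1, H _ t4914.2.2.2.1⟩⟩, ⟨⟨H _ t4914.2.2.2.2.1, H _ t4914.2.2.2.2.2.1⟩, ⟨H _ t4914.2.2.2.2.2.2.1, ⟨H _ t4914.2.2.2.2.2.2.2, H _ t4922.1⟩⟩⟩⟩⟩⟩⟩, ⟨⟨⟨⟨⟨⟨H _ t4922.2.1, H _ t4922.2.2.1⟩, ⟨H _ t4922.2.2.2.1, H _ t4922.2.2.2.2.1⟩⟩, ⟨⟨H _ t4922.2.2.2.2.2.1, H _ t4922.2.2.2.2.2.2.1⟩, ⟨H _ t4922.2.2.2.2.2.2.2, ⟨H _ t4930.1, H _ t4930.2.1⟩⟩⟩⟩, ⟨⟨⟨H _ t4930.2.2.1, H _ t4930.2.2.2.1⟩, ⟨H _ t4930.2.2.2.2.1, H _ t4930.2.2.2.2.2.1⟩⟩, ⟨⟨H _ t4930.2.2.2.2.2.2.1, H _ t4930.2.2.2.2.2.2.2⟩, ⟨H _ t4938.1, ⟨H _ t4938.2.1, H _ t4938.2.2.1⟩⟩⟩⟩⟩, ⟨⟨⟨⟨H _ t4938.2.2.2.1, H _ t4938.2.2.2.2.1⟩, ⟨H _ t4938.2.2.2.2.2.1, H _ t4938.2.2.2.2.2.2.1⟩⟩, ⟨⟨H _ t4938.2.2.2.2.2.2.2, H _ t4946.1⟩, ⟨H _ t4946.2.1, ⟨H _ t4946.2.2.1, H _ t4946.2.2.2.1⟩⟩⟩⟩,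 ⟨⟨⟨H _ t4946.2.2.2.2.1, H _ t4946.2.2.2.2.2.1⟩, ⟨H _ t4946.2.2.2.2.2.2.1, H _ t4946.2.2.2.2.2.2.2⟩⟩, ⟨⟨H _ t4954.1, H _ t4954.2.1⟩, ⟨H _ t4954.2.2.1, ⟨H _ t4954.2.2.2.1, H _ t4954.2.2.2.2.1⟩⟩⟩⟩⟩⟩, ⟨⟨⟨⟨⟨H _ t4954.2.2.2.2.2.1, H _ t4954.2.2.2.2.2.2.1⟩, ⟨H _ t4954.2.2.2.2.2.2.2, H _ t4962.1⟩⟩, ⟨⟨H _ t4962.2.1, H _ t4962.2.2.1⟩, ⟨H _ t4962.2.2.2.1, ⟨H _ t4962.2.2.2.2.1, H _ t4962.2.2.2.2.2.1⟩⟩⟩⟩, ⟨⟨⟨H _ t4962.2.2.2.2.2.2.1, H _ t4962.2.2.2.2.2.2.2⟩, ⟨H _ t4970.1, H _ t4970.2.1⟩⟩, ⟨⟨H _ t4970.2.2.1, H _ t4970.2.2.2.1⟩, ⟨H _ t4970.2.2.2.2.1, ⟨H _ t4970.2.2.2.2.2.1, H _ t4970.2.2.2.2.2.2.1⟩⟩⟩⟩⟩, ⟨⟨⟨⟨H _ t4970.2.2.2.2.2.2.2, H _ t4978.1⟩, ⟨H _ t4978.2.1, H _ t4978.2.2.1⟩⟩, ⟨⟨H _ t4978.2.2.2.1, H _ t4978.2.2.2.2.1⟩, ⟨H _ t4978.2.2.2.2.2.1, ⟨H _ t4978.2.2.2.2.2.2.1, H _ t4978.2.2.2.2.2.2.2⟩⟩⟩⟩, ⟨⟨⟨H _ t4986.1, H _ t4986.2.1⟩, ⟨H _ t4986.2.2.1, H _ t4986.2.2.2.1⟩⟩, ⟨⟨H _ t4986.2.2.2.2.1,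 H _ t4986.2.2.2.2.2.1⟩, ⟨H _ t4986.2.2.2.2.2.2.1, ⟨H _ t4986.2.2.2.2.2.2.2, H _ t4994⟩⟩⟩⟩⟩⟩⟩⟩⟩⟩

end Pool.Agent.MP_c853c5_nt.X.C4950
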