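import Pool.Agent.MP_c853c5_nt.X.C4950.Env
import Pool.Agent.MP_c853c5_nt.X.C4950.Tab

set_option autoImplicit false
set_option maxRecDepth 8192
set_option linter.all false

namespace Pool.Agent.MP_c853c5_nt.X.C4950

open Pool.Agent.MP_c853c5_nt.X

def t44339 : allY (E.wth T3) l44339 = true ∧
    allY (E.wth T3) l44340 = true ∧
    allY (E.wth T3) l44341 = true ∧
    allY (E.wth T3) l44342 = true ∧
    allY (E.wth T3) l44343 = true ∧
    allY (E.wth T3) l44344 = true ∧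
    allY (E.wth T3) l44345 = true ∧
    allY (E.wth T3) l44346 = true :=
  ⟨by decide +kernel, by decide +kernel, by decide +kernel, by decide +kernel, by decide +kernel, by decide +kernel, by decide +kernel, by decide +kernel⟩

def t44347 : allY (E.wth T3) l44347 = true ∧
    allY (E.wth T3) l44348 = true ∧
    allY (E.wth T3) l44349 = true ∧
    allY (E.wth T3) l44350 = true ∧
    allY (E.wth T3) l44351 = true ∧
    allY (E.wth T3) l44352 = true ∧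
    allY (E.wth T3) l44353 = true ∧
    allY (E.wth T3) l44354 = true :=
  ⟨by decide +kernel, by decide +kernel, by decide +kernel, by decide +kernel, by decide +kernel, by decide +kernel, by decide +kernel, by decide +kernel⟩

def t44355 : allY (E.wth T3) l44355 = true ∧
    allY (E.wth T3) l44356 = true ∧
    allY (E.wth T3) l44357 = true ∧
    allY (E.wth T3) l44358 = true ∧
    allY (E.wth T3) l44359 = true ∧
    allY (E.wth T3) l44360 = true ∧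
    allY (E.wth T3) l44361 = true ∧
    allY (E.wth T3) l44362 = true :=
  ⟨by decide +kernel, by decide +kernel, by decide +kernel, by decide +kernel, by decide +kernel, by decide +kernel, by decide +kernel, by decide +kernel⟩

def t44363 : allY (E.wth T3) l44363 = true ∧
    allY (E.wth T3) l44364 = true ∧
    allY (E.wth T3) l44365 = true ∧
    allY (E.wth T3) l44366 = true ∧
    allY (E.wth T3) l44367 = true ∧
    allY (E.wth T3) l44368 = true ∧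
    allY (E.wth T3) l44369 = true ∧
    allY (E.wth T3) l44370 = true :=
  ⟨by decide +kernel, by decide +kernel, by decide +kernel, by decide +kernel, by decide +kernel, by decide +kernel, by decide +kernel, by decide +kernel⟩

def t44371 : allY (E.wth T3) l44371 = true ∧
    allY (E.wth T3) l44372 = true ∧
    allY (E.wth T3) l44373 = true ∧
    allY (E.wth T3) l44374 = true ∧
    allY (E.wth T3) l44375 = true ∧
    allY (E.wth T3) l44376 = true ∧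
    allY (E.wth T3) l44377 = true ∧
    allY (E.wth T3) l44378 = true :=
  ⟨by decide +kernel, by decide +kernel, by decide +kernel, by decide +kernel, by decide +kernel, by decide +kernel, by decide +kernel, by decide +kernel⟩

def t44379 : allY (E.wth T3) l44379 = true ∧
    allY (E.wth T3) l44380 = true ∧
    allY (E.wth T3) l44381 = true ∧
    allY (E.wth T3) l44382 = true ∧
    allY (E.wth T3) l44383 = true ∧
    allY (E.wth T3) l44384 = true ∧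
    allY (E.wth T3) l44385 = true ∧
    allY (E.wth T3) l44386 = true :=
  ⟨by decide +kernel, by decide +kernel, by decide +kernel, by decide +kernel, by decide +kernel, by decide +kernel, by decide +kernel, by decide +kernel⟩

def t44387 : allY (E.wth T3) l44387 = true ∧
    allY (E.wth T3) l44388 = true ∧
    allY (E.wth T3) l44389 = true ∧
    allY (E.wth T3) l44390 = true ∧
    allY (E.wth T3) l44391 = true ∧
    allY (E.wth T3) l44392 = true ∧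
    allY (E.wth T3) l44393 = true ∧
    allY (E.wth T3) l44394 = true :=
  ⟨by decide +kernel, by decide +kernel, by decide +kernel, by decide +kernel, by decide +kernel, by decide +kernel, by decide +kernel, by decide +kernel⟩

def t44395 : allY (E.wth T3) l44395 = true ∧
    allY (E.wth T3) l44396 = true ∧
    allY (E.wth T3) l44397 = true ∧
    allY (E.wth T3) l44398 = true ∧
    allY (E.wth T3) l44399 = true ∧
    allY (E.wth T3) l44400 = true ∧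
    allY (E.wth T3) l44401 = true ∧
    allY (E.wth T3) l44402 = true :=
  ⟨by decide +kernel, by decide +kernel, by decide +kernel, by decide +kernel, by decide +kernel, by decide +kernel, by decide +kernel, by decide +kernel⟩

def t44403 : allY (E.wth T3) l44403 = true ∧
    allY (E.wth T3) l44404 = true ∧
    allY (E.wth T3) l44405 = true ∧
    allY (E.wth T3) l44406 = true ∧
    allY (E.wth T3) l44407 = true ∧
    allY (E.wth T3) l44408 = true ∧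
    allY (E.wth T3) l44409 = true ∧
    allY (E.wth T3) l44410 = true :=
  ⟨by decide +kernel, by decide +kernel, by decide +kernel, by decide +kernel, by decide +kernel, by decide +kernel, by decide +kernel, by decide +kernel⟩

def t44411 : allY (E.wth T3) l44411 = true ∧
    allY (E.wth T3) l44412 = true ∧
    allY (E.wth T3) l44413 = true ∧
    allY (E.wth T3) l44414 = true ∧
    allY (E.wth T3) l44415 = true ∧
    allY (E.wth T3) l44416 = true ∧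
    allY (E.wth T3) l44417 = true ∧
    allY (E.wth T3) l44418 = true :=
  ⟨by decide +kernel, by decide +kernel, by decide +kernel, by decide +kernel, by decide +kernel, by decide +kernel, by decide +kernel, by decide +kernel⟩

def t44419 : allY (E.wth T3) l44419 = true ∧
    allY (E.wth T3) l44420 = true ∧
    allY (E.wth T3) l44421 = true ∧
    allY (E.wth T3) l44422 = true ∧
    allY (E.wth T3) l44423 = true ∧
    allY (E.wth T3) l44424 = true ∧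
    allY (E.wth T3) l44425 = true ∧
    allY (E.wth T3) l44426 = true :=
  ⟨by decide +kernel, by decide +kernel, by decide +kernel, by decide +kernel, by decide +kernel, by decide +kernel, by decide +kernel, by decide +kernel⟩

def t44427 : allY (E.wth T3) l44427 = true ∧
    allY (E.wth T3) l44428 = true ∧
    allY (E.wth T3) l44429 = true ∧
    allY (E.wth T3) l44430 = true ∧
    allY (E.wth T3) l44431 = true ∧
    allY (E.wth T3) l44432 = true ∧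
    allY (E.wth T3) l44433 = true ∧
    allY (E.wth T3) l44434 = true :=
  ⟨by decide +kernel, by decide +kernel, by decide +kernel, by decide +kernel, by decide +kernel, by decide +kernel, by decide +kernel, by decide +kernel⟩

def t44435 : allY (E.wth T3) l44435 = true ∧
    allY (E.wth T3) l44436 = true ∧
    allY (E.wth T3) l44437 = true ∧
    allY (E.wth T3) l44438 = true ∧
    allY (E.wth T3) l44439 = true ∧
    allY (E.wth T3) l44440 = true ∧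
    allY (E.wth T3) l44441 = true ∧
    allY (E.wth T3) l44442 = true :=
  ⟨by decide +kernel, by decide +kernel, by decide +kernel, by decide +kernel, by decide +kernel, by decide +kernel, by decide +kernel, by decide +kernel⟩

def t44443 : allY (E.wth T3) l44443 = true ∧
    allY (E.wth T3) l44444 = true ∧
    allY (E.wth T3) l44445 = true ∧
    allY (E.wth T3) l44446 = true ∧
    allY (E.wth T3) l44447 = true ∧
    allY (E.wth T3) l44448 = true ∧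
    allY (E.wth T3) l44449 = true ∧
    allY (E.wth T3) l44450 = true :=
  ⟨by decide +kernel, by decide +kernel, by decide +kernel, by decide +kernel, by decide +kernel, by decide +kernel, by decide +kernel, by decide +kernel⟩

def t44451 : allY (E.wth T3) l44451 = true ∧
    allY (E.wth T3) l44452 = true ∧
    allY (E.wth T3) l44453 = true ∧
    allY (E.wth T3) l44454 = true ∧
    allY (E.wth T3) l44455 = true ∧
    allY (E.wth T3) l44456 = true ∧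
    allY (E.wth T3) l44457 = true ∧
    allY (E.wth T3) l44458 = true :=
  ⟨by decide +kernel, by decide +kernel, by decide +kernel, by decide +kernel, by decide +kernel, by decide +kernel, by decide +kernel, by decide +kernel⟩

def t44459 : allY (E.wth T3) l44459 = true ∧
    allY (E.wth T3) l44460 = true ∧
    allY (E.wth T3) l44461 = true ∧
    allY (E.wth T3) l44462 = true ∧
    allY (E.wth T3) l44463 = true ∧
    allY (E.wth T3) l44464 = true ∧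
    allY (E.wth T3) l44465 = true ∧
    allY (E.wth T3) l44466 = true :=
  ⟨by decide +kernel, by decide +kernel, by decide +kernel, by decide +kernel, by decide +kernel, by decide +kernel, by decide +kernel, by decide +kernel⟩

def t44467 : allY (E.wth T3) l44467 = true ∧
    allY (E.wth T3) l44468 = true ∧
    allY (E.wth T3) l44469 = true ∧
    allY (E.wth T3) l44470 = true ∧
    allY (E.wth T3) l44471 = true ∧
    allY (E.wth T3) l44472 = true ∧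
    allY (E.wth T3) l44473 = true ∧
    allY (E.wth T3) l44474 = true :=
  ⟨by decide +kernel, by decide +kernel, by decide +kernel, by decide +kernel, by decide +kernel, by decide +kernel, by decide +kernel, by decide +kernel⟩

def t44475 : allY (E.wth T3) l44475 = true ∧
    allY (E.wth T3) l44476 = true ∧
    allY (E.wth T3) l44477 = true ∧
    allY (E.wth T3) l44478 = true ∧
    allY (E.wth T3) l44479 = true ∧
    allY (E.wth T3) l44480 = true ∧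
    allY (E.wth T3) l44481 = true ∧
    allY (E.wth T3) l44482 = true :=
  ⟨by decide +kernel, by decide +kernel, by decide +kernel, by decide +kernel, by decide +kernel, by decide +kernel, by decide +kernel, by decide +kernel⟩

def t44483 : allY (E.wth T3) l44483 = true ∧
    allY (E.wth T3) l44484 = true ∧
    allY (E.wth T3) l44485 = true ∧
    allY (E.wth T3) l44486 = true ∧
    allY (E.wth T3) l44487 = true ∧
    allY (E.wth T3) l44488 = true ∧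
    allY (E.wth T3) l44489 = true ∧
    allY (E.wth T3) l44490 = true :=
  ⟨by decide +kernel, by decide +kernel, by decide +kernel, by decide +kernel, by decide +kernel, by decide +kernel, by decide +kernel, by decide +kernel⟩

def t44491 : allY (E.wth T3) l44491 = true ∧
    allY (E.wth T3) l44492 = true ∧
    allY (E.wth T3) l44493 = true ∧
    allY (E.wth T3) l44494 = true ∧
    allY (E.wth T3) l44495 = true ∧
    allY (E.wth T3) l44496 = true ∧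
    allY (E.wth T3) l44497 = true ∧
    allY (E.wth T3) l44498 = true :=
  ⟨by decide +kernel, by decide +kernel, by decide +kernel, by decide +kernel, by decide +kernel, by decide +kernel, by decide +kernel, by decide +kernel⟩

def t44499 : allY (E.wth T3) l44499 = true ∧
    allY (E.wth T3) l44500 = true ∧
    allY (E.wth T3) l44501 = true ∧
    allY (E.wth T3) l44502 = true ∧
    allY (E.wth T3) l44503 = true ∧
    allY (E.wth T3) l44504 = true ∧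
    allY (E.wth T3) l44505 = true ∧
    allY (E.wth T3) l44506 = true :=
  ⟨by decide +kernel, by decide +kernel, by decide +kernel, by decide +kernel, by decide +kernel, by decide +kernel, by decide +kernel, by decide +kernel⟩

def t44507 : allY (E.wth T3) l44507 = true ∧
    allY (E.wth T3) l44508 = true ∧
    allY (E.wth T3) l44509 = true ∧
    allY (E.wth T3) l44510 = true ∧
    allY (E.wth T3) l44511 = true ∧
    allY (E.wth T3) l44512 = true ∧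
    allY (E.wth T3) l44513 = true ∧
    allY (E.wth T3) l44514 = true :=
  ⟨by decide +kernel, by decide +kernel, by decide +kernel, by decide +kernel, by decide +kernel, by decide +kernel, by decide +kernel, by decide +kernel⟩

def t44515 : allY (E.wth T3) l44515 = true ∧
    allY (E.wth T3) l44516 = true ∧
    allY (E.wth T3) l44517 = true ∧
    allY (E.wth T3) l44518 = true ∧
    allY (E.wth T3) l44519 = true ∧
    allY (E.wth T3) l44520 = true ∧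
    allY (E.wth T3) l44521 = true ∧
    allY (E.wth T3) l44522 = true :=
  ⟨by decide +kernel, by decide +kernel, by decide +kernel, by decide +kernel, by decide +kernel, by decide +kernel, by decide +kernel, by decide +kernel⟩

def t44523 : allY (E.wth T3) l44523 = true ∧
    allY (E.wth T3) l44524 = true ∧
    allY (E.wth T3) l44525 = true ∧
    allY (E.wth T3) l44526 = true ∧
    allY (E.wth T3) l44527 = true ∧
    allY (E.wth T3) l44528 = true ∧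
    allY (E.wth T3) l44529 = true ∧
    allY (E.wth T3) l44530 = true :=
  ⟨by decide +kernel, by decide +kernel, by decide +kernel, by decide +kernel, by decide +kernel, by decide +kernel, by decide +kernel, by decide +kernel⟩

def t44531 : allY (E.wth T3) l44531 = true ∧
    allY (E.wth T3) l44532 = true ∧
    allY (E.wth T3) l44533 = true ∧
    allY (E.wth T3) l44534 = true ∧
    allY (E.wth T3) l44535 = true ∧
    allY (E.wth T3) l44536 = true ∧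
    allY (E.wth T3) l44537 = true ∧
    allY (E.wth T3) l44538 = true :=
  ⟨by decide +kernel, by decide +kernel, by decide +kernel, by decide +kernel, by decide +kernel, by decide +kernel, by decide +kernel, by decide +kernel⟩

def t44539 : allY (E.wth T3) l44539 = true ∧
    allY (E.wth T3) l44540 = true ∧
    allY (E.wth T3) l44541 = true ∧
    allY (E.wth T3) l44542 = true ∧
    allY (E.wth T3) l44543 = true ∧
    allY (E.wth T3) l44544 = true ∧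
    allY (E.wth T3) l44545 = true ∧
    allY (E.wth T3) l44546 = true :=
  ⟨by decide +kernel, by decide +kernel, by decide +kernel, by decide +kernel, by decide +kernel, by decide +kernel, by decide +kernel, by decide +kernel⟩

def t44547 : allY (E.wth T3) l44547 = true ∧
    allY (E.wth T3) l44548 = true ∧
    allY (E.wth T3) l44549 = true ∧
    allY (E.wth T3) l44550 = true ∧
    allY (E.wth T3) l44551 = true ∧
    allY (E.wth T3) l44552 = true ∧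
    allY (E.wth T3) l44553 = true ∧
    allY (E.wth T3) l44554 = true :=
  ⟨by decide +kernel, by decide +kernel, by decide +kernel, by decide +kernel, by decide +kernel, by decide +kernel, by decide +kernel, by decide +kernel⟩

def t44555 : allY (E.wth T3) l44555 = true ∧
    allY (E.wth T3) l44556 = true ∧
    allY (E.wth T3) l44557 = true ∧
    allY (E.wth T3) l44558 = true ∧
    allY (E.wth T3) l44559 = true ∧
    allY (E.wth T3) l44560 = true ∧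
    allY (E.wth T3) l44561 = true ∧
    allY (E.wth T3) l44562 = true :=
  ⟨by decide +kernel, by decide +kernel, by decide +kernel, by decide +kernel, by decide +kernel, by decide +kernel, by decide +kernel, by decide +kernel⟩

def t44563 : allY (E.wth T3) l44563 = true ∧
    allY (E.wth T3) l44564 = true ∧
    allY (E.wth T3) l44565 = true ∧
    allY (E.wth T3) l44566 = true ∧
    allY (E.wth T3) l44567 = true ∧
    allY (E.wth T3) l44568 = true ∧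
    allY (E.wth T3) l44569 = true ∧
    allY (E.wth T3) l44570 = true :=
  ⟨by decide +kernel, by decide +kernel, by decide +kernel, by decide +kernel, by decide +kernel, by decide +kernel, by decide +kernel, by decide +kernel⟩

def t44571 : allY (E.wth T3) l44571 = true ∧
    allY (E.wth T3) l44572 = true ∧
    allY (E.wth T3) l44573 = true ∧
    allY (E.wth T3) l44574 = true ∧
    allY (E.wth T3) l44575 = true ∧
    allY (E.wth T3) l44576 = true ∧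
    allY (E.wth T3) l44577 = true ∧
    allY (E.wth T3) l44578 = true :=
  ⟨by decide +kernel, by decide +kernel, by decide +kernel, by decide +kernel, by decide +kernel, by decide +kernel, by decide +kernel, by decide +kernel⟩

def t44579 : allY (E.wth T3) l44579 = true ∧
    allY (E.wth T3) l44580 = true ∧
    allY (E.wth T3) l44581 = true ∧
    allY (E.wth T3) l44582 = true ∧
    allY (E.wth T3) l44583 = true ∧
    allY (E.wth T3) l44584 = true ∧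
    allY (E.wth T3) l44585 = true ∧
    allY (E.wth T3) l44586 = true :=
  ⟨by decide +kernel, by decide +kernel, by decide +kernel, by decide +kernel, by decide +kernel, by decide +kernel, by decide +kernel, by decide +kernel⟩

def t44587 : allY (E.wth T3) l44587 = true ∧
    allY (E.wth T3) l44588 = true ∧
    allY (E.wth T3) l44589 = true ∧
    allY (E.wth T3) l44590 = true ∧
    allY (E.wth T3) l44591 = true ∧
    allY (E.wth T3) l44592 = true ∧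
    allY (E.wth T3) l44593 = true ∧
    allY (E.wth T3) l44594 = true :=
  ⟨by decide +kernel, by decide +kernel, by decide +kernel, by decide +kernel, by decide +kernel, by decide +kernel, by decide +kernel, by decide +kernel⟩

def t44595 : allY (E.wth T3) l44595 = true ∧
    allY (E.wth T3) l44596 = true ∧
    allY (E.wth T3) l44597 = true ∧
    allY (E.wth T3) l44598 = true ∧
    allY (E.wth T3) l44599 = true ∧
    allY (E.wth T3) l44600 = true ∧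
    allY (E.wth T3) l44601 = true ∧
    allY (E.wth T3) l44602 = true :=
  ⟨by decide +kernel, by decide +kernel, by decide +kernel, by decide +kernel, by decide +kernel, by decide +kernel, by decide +kernel, by decide +kernel⟩

def t44603 : allY (E.wth T3) l44603 = true ∧
    allY (E.wth T3) l44604 = true ∧
    allY (E.wth T3) l44605 = true ∧
    allY (E.wth T3) l44606 = true ∧
    allY (E.wth T3) l44607 = true ∧
    allY (E.wth T3) l44608 = true ∧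
    allY (E.wth T3) l44609 = true ∧
    allY (E.wth T3) l44610 = true :=
  ⟨by decide +kernel, by decide +kernel, by decide +kernel, by decide +kernel, by decide +kernel, by decide +kernel, by decide +kernel, by decide +kernel⟩

def t44611 : allY (E.wth T3) l44611 = true ∧
    allY (E.wth T3) l44612 = true ∧
    allY (E.wth T3) l44613 = true ∧
    allY (E.wth T3) l44614 = true ∧
    allY (E.wth T3) l44615 = true ∧
    allY (E.wth T3) l44616 = true ∧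
    allY (E.wth T3) l44617 = true ∧
    allY (E.wth T3) l44618 = true :=
  ⟨by decide +kernel, by decide +kernel, by decide +kernel, by decide +kernel, by decide +kernel, by decide +kernel, by decide +kernel, by decide +kernel⟩

def t44619 : allY (E.wth T3) l44619 = true ∧
    allY (E.wth T3) l44620 = true ∧
    allY (E.wth T3) l44621 = true ∧
    allY (E.wth T3) l44622 = true ∧
    allY (E.wth T3) l44623 = true ∧
    allY (E.wth T3) l44624 = true ∧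
    allY (E.wth T3) l44625 = true ∧
    allY (E.wth T3) l44626 = true :=
  ⟨by decide +kernel, by decide +kernel, by decide +kernel, by decide +kernel, by decide +kernel, by decide +kernel, by decide +kernel, by decide +kernel⟩

def t44627 : allY (E.wth T3) l44627 = true ∧
    allY (E.wth T3) l44628 = true ∧
    allY (E.wth T3) l44629 = true ∧
    allY (E.wth T3) l44630 = true ∧
    allY (E.wth T3) l44631 = true ∧
    allY (E.wth T3) l44632 = true ∧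
    allY (E.wth T3) l44633 = true ∧
    allY (E.wth T3) l44634 = true :=
  ⟨by decide +kernel, by decide +kernel, by decide +kernel, by decide +kernel, by decide +kernel, by decide +kernel, by decide +kernel, by decide +kernel⟩

def t44635 : allY (E.wth T3) l44635 = true ∧
    allY (E.wth T3) l44636 = true ∧
    allY (E.wth T3) l44637 = true ∧
    allY (E.wth T3) l44638 = true ∧
    allY (E.wth T3) l44639 = true ∧
    allY (E.wth T3) l44640 = true ∧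
    allY (E.wth T3) l44641 = true ∧
    allY (E.wth T3) l44642 = true :=
  ⟨by decide +kernel, by decide +kernel, by decide +kernel, by decide +kernel, by decide +kernel, by decide +kernel, by decide +kernel, by decide +kernel⟩

def t44643 : allY (E.wth T3) l44643 = true ∧
    allY (E.wth T3) l44644 = true ∧
    allY (E.wth T3) l44645 = true ∧
    allY (E.wth T3) l44646 = true ∧
    allY (E.wth T3) l44647 = true ∧
    allY (E.wth T3) l44648 = true ∧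
    allY (E.wth T3) l44649 = true ∧
    allY (E.wth T3) l44650 = true :=
  ⟨by decide +kernel, by decide +kernel, by decide +kernel, by decide +kernel, by decide +kernel, by decide +kernel, by decide +kernel, by decide +kernel⟩

def t44651 : allY (E.wth T3) l44651 = true ∧
    allY (E.wth T3) l44652 = true ∧
    allY (E.wth T3) l44653 = true ∧
    allY (E.wth T3) l44654 = true ∧
    allY (E.wth T3) l44655 = true ∧
    allY (E.wth T3) l44656 = true ∧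
    allY (E.wth T3) l44657 = true ∧
    allY (E.wth T3) l44658 = true :=
  ⟨by decide +kernel, by decide +kernel, by decide +kernel, by decide +kernel, by decide +kernel, by decide +kernel, by decide +kernel, by decide +kernel⟩

def t44659 : allY (E.wth T3) l44659 = true ∧
    allY (E.wth T3) l44660 = true ∧
    allY (E.wth T3) l44661 = true ∧
    allY (E.wth T3) l44662 = true ∧
    allY (E.wth T3) l44663 = true ∧
    allY (E.wth T3) l44664 = true ∧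
    allY (E.wth T3) l44665 = true ∧
    allY (E.wth T3) l44666 = true :=
  ⟨by decide +kernel, by decide +kernel, by decide +kernel, by decide +kernel, by decide +kernel, by decide +kernel, by decide +kernel, by decide +kernel⟩

def t44667 : allY (E.wth T3) l44667 = true ∧
    allY (E.wth T3) l44668 = true ∧
    allY (E.wth T3) l44669 = true ∧
    allY (E.wth T3) l44670 = true ∧
    allY (E.wth T3) l44671 = true ∧
    allY (E.wth T3) l44672 = true ∧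
    allY (E.wth T3) l44673 = true ∧
    allY (E.wth T3) l44674 = true :=
  ⟨by decide +kernel, by decide +kernel, by decide +kernel, by decide +kernel, by decide +kernel, by decide +kernel, by decide +kernel, by decide +kernel⟩

def t44675 : allY (E.wth T3) l44675 = true ∧
    allY (E.wth T3) l44676 = true ∧
    allY (E.wth T3) l44677 = true ∧
    allY (E.wth T3) l44678 = true ∧
    allY (E.wth T3) l44679 = true ∧
    allY (E.wth T3) l44680 = true ∧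
    allY (E.wth T3) l44681 = true ∧
    allY (E.wth T3) l44682 = true :=
  ⟨by decide +kernel, by decide +kernel, by decide +kernel, by decide +kernel, by decide +kernel, by decide +kernel, by decide +kernel, by decide +kernel⟩

def t44683 : allY (E.wth T3) l44683 = true ∧
    allY (E.wth T3) l44684 = true ∧
    allY (E.wth T3) l44685 = true ∧
    allY (E.wth T3) l44686 = true ∧
    allY (E.wth T3) l44687 = true ∧
    allY (E.wth T3) l44688 = true ∧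
    allY (E.wth T3) l44689 = true ∧
    allY (E.wth T3) l44690 = true :=
  ⟨by decide +kernel, by decide +kernel, by decide +kernel, by decide +kernel, by decide +kernel, by decide +kernel, by decide +kernel, by decide +kernel⟩

def t44691 : allY (E.wth T3) l44691 = true ∧
    allY (E.wth T3) l44692 = true ∧
    allY (E.wth T3) l44693 = true ∧
    allY (E.wth T3) l44694 = true ∧
    allY (E.wth T3) l44695 = true ∧
    allY (E.wth T3) l44696 = true ∧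
    allY (E.wth T3) l44697 = true ∧
    allY (E.wth T3) l44698 = true :=
  ⟨by decide +kernel, by decide +kernel, by decide +kernel, by decide +kernel, by decide +kernel, by decide +kernel, by decide +kernel, by decide +kernel⟩

def t44699 : allY (E.wth T3) l44699 = true ∧
    allY (E.wth T3) l44700 = true ∧
    allY (E.wth T3) l44701 = true ∧
    allY (E.wth T3) l44702 = true ∧
    allY (E.wth T3) l44703 = true ∧
    allY (E.wth T3) l44704 = true ∧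
    allY (E.wth T3) l44705 = true ∧
    allY (E.wth T3) l44706 = true :=
  ⟨by decide +kernel, by decide +kernel, by decide +kernel, by decide +kernel, by decide +kernel, by decide +kernel, by decide +kernel, by decide +kernel⟩

def t44707 : allY (E.wth T3) l44707 = true ∧
    allY (E.wth T3) l44708 = true ∧
    allY (E.wth T3) l44709 = true ∧
    allY (E.wth T3) l44710 = true ∧
    allY (E.wth T3) l44711 = true ∧
    allY (E.wth T3) l44712 = true ∧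
    allY (E.wth T3) l44713 = true ∧
    allY (E.wth T3) l44714 = true :=
  ⟨by decide +kernel, by decide +kernel, by decide +kernel, by decide +kernel, by decide +kernel, by decide +kernel, by decide +kernel, by decide +kernel⟩

def t44715 : allY (E.wth T3) l44715 = true ∧
    allY (E.wth T3) l44716 = true ∧
    allY (E.wth T3) l44717 = true ∧
    allY (E.wth T3) l44718 = true ∧
    allY (E.wth T3) l44719 = true ∧
    allY (E.wth T3) l44720 = true ∧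
    allY (E.wth T3) l44721 = true ∧
    allY (E.wth T3) l44722 = true :=
  ⟨by decide +kernel, by decide +kernel, by decide +kernel, by decide +kernel, by decide +kernel, by decide +kernel, by decide +kernel, by decide +kernel⟩

def t44723 : allY (E.wth T3) l44723 = true ∧
    allY (E.wth T3) l44724 = true ∧
    allY (E.wth T3) l44725 = true ∧
    allY (E.wth T3) l44726 = true ∧
    allY (E.wth T3) l44727 = true ∧
    allY (E.wth T3) l44728 = true ∧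
    allY (E.wth T3) l44729 = true ∧
    allY (E.wth T3) l44730 = true :=
  ⟨by decide +kernel, by decide +kernel, by decide +kernel, by decide +kernel, by decide +kernel, by decide +kernel, by decide +kernel, by decide +kernel⟩

def t44731 : allY (E.wth T3) l44731 = true ∧
    allY (E.wth T3) l44732 = true ∧
    allY (E.wth T3) l44733 = true ∧
    allY (E.wth T3) l44734 = true ∧
    allY (E.wth T3) l44735 = true ∧
    allY (E.wth T3) l44736 = true ∧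
    allY (E.wth T3) l44737 = true ∧
    allY (E.wth T3) l44738 = true :=
  ⟨by decide +kernel, by decide +kernel, by decide +kernel, by decide +kernel, by decide +kernel, by decide +kernel, by decide +kernel, by decide +kernel⟩

def t44739 : allY (E.wth T3) l44739 = true ∧
    allY (E.wth T3) l44740 = true ∧
    allY (E.wth T3) l44741 = true ∧
    allY (E.wth T3) l44742 = true ∧
    allY (E.wth T3) l44743 = true ∧
    allY (E.wth T3) l44744 = true ∧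
    allY (E.wth T3) l44745 = true ∧
    allY (E.wth T3) l44746 = true :=
  ⟨by decide +kernel, by decide +kernel, by decide +kernel, by decide +kernel, by decide +kernel, by decide +kernel, by decide +kernel, by decide +kernel⟩

def t44747 : allY (E.wth T3) l44747 = true ∧
    allY (E.wth T3) l44748 = true ∧
    allY (E.wth T3) l44749 = true ∧
    allY (E.wth T3) l44750 = true ∧
    allY (E.wth T3) l44751 = true ∧
    allY (E.wth T3) l44752 = true ∧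
    allY (E.wth T3) l44753 = true ∧
    allY (E.wth T3) l44754 = true :=
  ⟨by decide +kernel, by decide +kernel, by decide +kernel, by decide +kernel, by decide +kernel, by decide +kernel, by decide +kernel, by decide +kernel⟩

def t44755 : allY (E.wth T3) l44755 = true ∧
    allY (E.wth T3) l44756 = true ∧
    allY (E.wth T3) l44757 = true ∧
    allY (E.wth T3) l44758 = true ∧
    allY (E.wth T3) l44759 = true ∧
    allY (E.wth T3) l44760 = true ∧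
    allY (E.wth T3) l44761 = true ∧
    allY (E.wth T3) l44762 = true :=
  ⟨by decide +kernel, by decide +kernel, by decide +kernel, by decide +kernel, by decide +kernel, by decide +kernel, by decide +kernel, by decide +kernel⟩

def t44763 : allY (E.wth T3) l44763 = true ∧
    allY (E.wth T3) l44764 = true ∧
    allY (E.wth T3) l44765 = true ∧
    allY (E.wth T3) l44766 = true ∧
    allY (E.wth T3) l44767 = true ∧
    allY (E.wth T3) l44768 = true ∧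
    allY (E.wth T3) l44769 = true ∧
    allY (E.wth T3) l44770 = true :=
  ⟨by decide +kernel, by decide +kernel, by decide +kernel, by decide +kernel, by decide +kernel, by decide +kernel, by decide +kernel, by decide +kernel⟩

def t44771 : allY (E.wth T3) l44771 = true ∧
    allY (E.wth T3) l44772 = true ∧
    allY (E.wth T3) l44773 = true ∧
    allY (E.wth T3) l44774 = true ∧
    allY (E.wth T3) l44775 = true ∧
    allY (E.wth T3) l44776 = true ∧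
    allY (E.wth T3) l44777 = true ∧
    allY (E.wth T3) l44778 = true :=
  ⟨by decide +kernel, by decide +kernel, by decide +kernel, by decide +kernel, by decide +kernel, by decide +kernel, by decide +kernel, by decide +kernel⟩

def t44779 : allY (E.wth T3) l44779 = true ∧
    allY (E.wth T3) l44780 = true ∧
    allY (E.wth T3) l44781 = true ∧
    allY (E.wth T3) l44782 = true ∧
    allY (E.wth T3) l44783 = true ∧
    allY (E.wth T3) l44784 = true ∧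
    allY (E.wth T3) l44785 = true ∧
    allY (E.wth T3) l44786 = true :=
  ⟨by decide +kernel, by decide +kernel, by decide +kernel, by decide +kernel, by decide +kernel, by decide +kernel, by decide +kernel, by decide +kernel⟩

def t44787 : allY (E.wth T3) l44787 = true ∧
    allY (E.wth T3) l44788 = true ∧
    allY (E.wth T3) l44789 = true ∧
    allY (E.wth T3) l44790 = true ∧
    allY (E.wth T3) l44791 = true ∧
    allY (E.wth T3) l44792 = true ∧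
    allY (E.wth T3) l44793 = true ∧
    allY (E.wth T3) l44794 = true :=
  ⟨by decide +kernel, by decide +kernel, by decide +kernel, by decide +kernel, by decide +kernel, by decide +kernel, by decide +kernel, by decide +kernel⟩

def t44795 : allY (E.wth T3) l44795 = true ∧
    allY (E.wth T3) l44796 = true ∧
    allY (E.wth T3) l44797 = true ∧
    allY (E.wth T3) l44798 = true ∧
    allY (E.wth T3) l44799 = true ∧
    allY (E.wth T3) l44800 = true ∧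
    allY (E.wth T3) l44801 = true ∧
    allY (E.wth T3) l44802 = true :=
  ⟨by decide +kernel, by decide +kernel, by decide +kernel, by decide +kernel, by decide +kernel, by decide +kernel, by decide +kernel, by decide +kernel⟩

def t44803 : allY (E.wth T3) l44803 = true ∧
    allY (E.wth T3) l44804 = true ∧
    allY (E.wth T3) l44805 = true ∧
    allY (E.wth T3) l44806 = true ∧
    allY (E.wth T3) l44807 = true ∧
    allY (E.wth T3) l44808 = true ∧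
    allY (E.wth T3) l44809 = true ∧
    allY (E.wth T3) l44810 = true :=
  ⟨by decide +kernel, by decide +kernel, by decide +kernel, by decide +kernel, by decide +kernel, by decide +kernel, by decide +kernel, by decide +kernel⟩

def t44811 : allY (E.wth T3) l44811 = true ∧
    allY (E.wth T3) l44812 = true ∧
    allY (E.wth T3) l44813 = true ∧
    allY (E.wth T3) l44814 = true ∧
    allY (E.wth T3) l44815 = true ∧
    allY (E.wth T3) l44816 = true ∧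
    allY (E.wth T3) l44817 = true ∧
    allY (E.wth T3) l44818 = true :=
  ⟨by decide +kernel, by decide +kernel, by decide +kernel, by decide +kernel, by decide +kernel, by decide +kernel, by decide +kernel, by decide +kernel⟩

def t44819 : allY (E.wth T3) l44819 = true ∧
    allY (E.wth T3) l44820 = true ∧
    allY (E.wth T3) l44821 = true ∧
    allY (E.wth T3) l44822 = true ∧
    allY (E.wth T3) l44823 = true ∧
    allY (E.wth T3) l44824 = true ∧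
    allY (E.wth T3) l44825 = true ∧
    allY (E.wth T3) l44826 = true :=
  ⟨by decide +kernel, by decide +kernel, by decide +kernel, by decide +kernel, by decide +kernel, by decide +kernel, by decide +kernel, by decide +kernel⟩

def t44827 : allY (E.wth T3) l44827 = true ∧
    allY (E.wth T3) l44828 = true ∧
    allY (E.wth T3) l44829 = true ∧
    allY (E.wth T3) l44830 = true ∧
    allY (E.wth T3) l44831 = true ∧
    allY (E.wth T3) l44832 = true ∧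
    allY (E.wth T3) l44833 = true ∧
    allY (E.wth T3) l44834 = true :=
  ⟨by decide +kernel, by decide +kernel, by decide +kernel, by decide +kernel, by decide +kernel, by decide +kernel, by decide +kernel, by decide +kernel⟩

def t44835 : allY (E.wth T3) l44835 = true ∧
    allY (E.wth T3) l44836 = true ∧
    allY (E.wth T3) l44837 = true ∧
    allY (E.wth T3) l44838 = true ∧
    allY (E.wth T3) l44839 = true ∧
    allY (E.wth T3) l44840 = true ∧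
    allY (E.wth T3) l44841 = true ∧
    allY (E.wth T3) l44842 = true :=
  ⟨by decide +kernel, by decide +kernel, by decide +kernel, by decide +kernel, by decide +kernel, by decide +kernel, by decide +kernel, by decide +kernel⟩

def t44843 : allY (E.wth T3) l44843 = true ∧
    allY (E.wth T3) l44844 = true ∧
    allY (E.wth T3) l44845 = true ∧
    allY (E.wth T3) l44846 = true ∧
    allY (E.wth T3) l44847 = true ∧
    allY (E.wth T3) l44848 = true ∧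
    allY (E.wth T3) l44849 = true ∧
    allY (E.wth T3) l44850 = true :=
  ⟨by decide +kernel, by decide +kernel, by decide +kernel, by decide +kernel, by decide +kernel, by decide +kernel, by decide +kernel, by decide +kernel⟩

def t44851 : allY (E.wth T3) l44851 = true ∧
    allY (E.wth T3) l44852 = true ∧
    allY (E.wth T3) l44853 = true ∧
    allY (E.wth T3) l44854 = true ∧
    allY (E.wth T3) l44855 = true ∧
    allY (E.wth T3) l44856 = true ∧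
    allY (E.wth T3) l44857 = true ∧
    allY (E.wth T3) l44858 = true :=
  ⟨by decide +kernel, by decide +kernel, by decide +kernel, by decide +kernel, by decide +kernel, by decide +kernel, by decide +kernel, by decide +kernel⟩

def t44859 : allY (E.wth T3) l44859 = true ∧
    allY (E.wth T3) l44860 = true ∧
    allY (E.wth T3) l44861 = true ∧
    allY (E.wth T3) l44862 = true ∧
    allY (E.wth T3) l44863 = true ∧
    allY (E.wth T3) l44864 = true ∧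
    allY (E.wth T3) l44865 = true ∧
    allY (E.wth T3) l44866 = true :=
  ⟨by decide +kernel, by decide +kernel, by decide +kernel, by decide +kernel, by decide +kernel, by decide +kernel, by decide +kernel, by decide +kernel⟩

def t44867 : allY (E.wth T3) l44867 = true ∧
    allY (E.wth T3) l44868 = true ∧
    allY (E.wth T3) l44869 = true ∧
    allY (E.wth T3) l44870 = true ∧
    allY (E.wth T3) l44871 = true ∧
    allY (E.wth T3) l44872 = true ∧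
    allY (E.wth T3) l44873 = true ∧
    allY (E.wth T3) l44874 = true :=
  ⟨by decide +kernel, by decide +kernel, by decide +kernel, by decide +kernel, by decide +kernel, by decide +kernel, by decide +kernel, by decide +kernel⟩

def t44875 : allY (E.wth T3) l44875 = true ∧
    allY (E.wth T3) l44876 = true ∧
    allY (E.wth T3) l44877 = true ∧
    allY (E.wth T3) l44878 = true ∧
    allY (E.wth T3) l44879 = true ∧
    allY (E.wth T3) l44880 = true ∧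
    allY (E.wth T3) l44881 = true ∧
    allY (E.wth T3) l44882 = true :=
  ⟨by decide +kernel, by decide +kernel, by decide +kernel, by decide +kernel, by decide +kernel, by decide +kernel, by decide +kernel, by decide +kernel⟩

def t44883 : allY (E.wth T3) l44883 = true ∧
    allY (E.wth T3) l44884 = true ∧
    allY (E.wth T3) l44885 = true ∧
    allY (E.wth T3) l44886 = true ∧
    allY (E.wth T3) l44887 = true ∧
    allY (E.wth T3) l44888 = true ∧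
    allY (E.wth T3) l44889 = true ∧
    allY (E.wth T3) l44890 = true :=
  ⟨by decide +kernel, by decide +kernel, by decide +kernel, by decide +kernel, by decide +kernel, by decide +kernel, by decide +kernel, by decide +kernel⟩

def t44891 : allY (E.wth T3) l44891 = true ∧
    allY (E.wth T3) l44892 = true ∧
    allY (E.wth T3) l44893 = true ∧
    allY (E.wth T3) l44894 = true ∧
    allY (E.wth T3) l44895 = true ∧
    allY (E.wth T3) l44896 = true ∧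
    allY (E.wth T3) l44897 = true ∧
    allY (E.wth T3) l44898 = true :=
  ⟨by decide +kernel, by decide +kernel, by decide +kernel, by decide +kernel, by decide +kernel, by decide +kernel, by decide +kernel, by decide +kernel⟩

def t44899 : allY (E.wth T3) l44899 = true ∧
    allY (E.wth T3) l44900 = true ∧
    allY (E.wth T3) l44901 = true ∧
    allY (E.wth T3) l44902 = true ∧
    allY (E.wth T3) l44903 = true ∧
    allY (E.wth T3) l44904 = true ∧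
    allY (E.wth T3) l44905 = true ∧
    allY (E.wth T3) l44906 = true :=
  ⟨by decide +kernel, by decide +kernel, by decide +kernel, by decide +kernel, by decide +kernel, by decide +kernel, by decide +kernel, by decide +kernel⟩

def t44907 : allY (E.wth T3) l44907 = true ∧
    allY (E.wth T3) l44908 = true ∧
    allY (E.wth T3) l44909 = true ∧
    allY (E.wth T3) l44910 = true ∧
    allY (E.wth T3) l44911 = true ∧
    allY (E.wth T3) l44912 = true ∧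
    allY (E.wth T3) l44913 = true ∧
    allY (E.wth T3) l44914 = true :=
  ⟨by decide +kernel, by decide +kernel, by decide +kernel, by decide +kernel, by decide +kernel, by decide +kernel, by decide +kernel, by decide +kernel⟩

def t44915 : allY (E.wth T3) l44915 = true :=
  by decide +kernel

theorem a82 {p : Rf → Prop} (H : ∀ l, allY (E.wth T3) l = true → (lkp l).All p) :
    b82.All p := ⟨⟨⟨⟨⟨⟨⟨⟨⟨H _ t44339.1, H _ t44339.2.1⟩, ⟨H _ t44339.2.2.1, H _ t44339.2.2.2.1⟩⟩, ⟨⟨H _ t44339.2.2.2.2.1, H _ t44339.2.2.2.2.2.1⟩, ⟨H _ t44339.2.2.2.2.2.2.1, ⟨H _ t44339.2.2.2.2.2.2.2, H _ t44347.1⟩⟩⟩⟩, ⟨⟨⟨H _ t44347.2.1, H _ t44347.2.2.1⟩, ⟨H _ t44347.2.2.2.1, H _ t44347.2.2.2.2.1⟩⟩, ⟨⟨H _ t44347.2.2.2.2.2.1, H _ t44347.2.2.2.2.2.2.1⟩, ⟨H _ t44347.2.2.2.2.2.2.2, ⟨H _ t44355.1, H _ t44355.2.1⟩⟩⟩⟩⟩, ⟨⟨⟨⟨H _ t44355.2.2.1, H _ t44355.2.2.2.1⟩, ⟨H _ t44355.2.2.2.2.1, H _ t44355.2.2.2.2.2.1⟩⟩, ⟨⟨H _ t44355.2.2.2.2.2.2.1,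 H _ t44355.2.2.2.2.2.2.2⟩, ⟨H _ t44363.1, ⟨H _ t44363.2.1, H _ t44363.2.2.1⟩⟩⟩⟩, ⟨⟨⟨H _ t44363.2.2.2.1, H _ t44363.2.2.2.2.1⟩, ⟨H _ t44363.2.2.2.2.2.1, H _ t44363.2.2.2.2.2.2.1⟩⟩, ⟨⟨H _ t44363.2.2.2.2.2.2.2, H _ t44371.1⟩, ⟨H _ t44371.2.1, ⟨H _ t44371.2.2.1, H _ t44371.2.2.2.1⟩⟩⟩⟩⟩⟩, ⟨⟨⟨⟨⟨H _ t44371.2.2.2.2.1, H _ t44371.2.2.2.2.2.1⟩, ⟨H _ t44371.2.2.2.2.2.2.1, H _ t44371.2.2.2.2.2.2.2⟩⟩, ⟨⟨H _ t44379.1, H _ t44379.2.1⟩, ⟨H _ t44379.2.2.1, ⟨H _ t44379.2.2.2.1, H _ t44379.2.2.2.2.1⟩⟩⟩⟩, ⟨⟨⟨H _ t44379.2.2.2.2.2.1, H _ t44379.2.2.2.2.2.2.1⟩, ⟨H _ t44379.2.2.2.2.2.2.2, H _ t44387.1⟩⟩, ⟨⟨H _ t44387.2.1, H _ t44387.2.2.1⟩, ⟨H _ t44387.2.2.2.1, ⟨H _ t44387.2.2.2.2.1, H _ t44387.2.2.2.2.2.1⟩⟩⟩⟩⟩, ⟨⟨⟨⟨H _ t44387.2.2.2.2.2.2.1, H _ t44387.2.2.2.2.2.2.2⟩, ⟨H _ t44395.1, H _ t44395.2.1⟩⟩, ⟨⟨H _ t44395.2.2.1, H _ t44395.2.2.2.1⟩, ⟨H _ t44395.2.2.2.2.1, ⟨H _ t44395.2.2.2.2.2.1, H _ t44395.2.2.2.2.2.2.1⟩⟩⟩⟩,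 ⟨⟨⟨H _ t44395.2.2.2.2.2.2.2, H _ t44403.1⟩, ⟨H _ t44403.2.1, H _ t44403.2.2.1⟩⟩, ⟨⟨H _ t44403.2.2.2.1, H _ t44403.2.2.2.2.1⟩, ⟨H _ t44403.2.2.2.2.2.1, ⟨H _ t44403.2.2.2.2.2.2.1, H _ t44403.2.2.2.2.2.2.2⟩⟩⟩⟩⟩⟩⟩, ⟨⟨⟨⟨⟨⟨H _ t44411.1, H _ t44411.2.1⟩, ⟨H _ t44411.2.2.1, H _ t44411.2.2.2.1⟩⟩, ⟨⟨H _ t44411.2.2.2.2.1, H _ t44411.2.2.2.2.2.1⟩, ⟨H _ t44411.2.2.2.2.2.2.1, ⟨H _ t44411.2.2.2.2.2.2.2, H _ t44419.1⟩⟩⟩⟩, ⟨⟨⟨H _ t44419.2.1, H _ t44419.2.2.1⟩, ⟨H _ t44419.2.2.2.1, H _ t44419.2.2.2.2.1⟩⟩, ⟨⟨H _ t44419.2.2.2.2.2.1, H _ t44419.2.2.2.2.2.2.1⟩, ⟨H _ t44419.2.2.2.2.2.2.2, ⟨H _ t44427.1, H _ t44427.2.1⟩⟩⟩⟩⟩, ⟨⟨⟨⟨H _ t44427.2.2.1, H _ t44427.2.2.2.1⟩, ⟨H _ t44427.2.2.2.2.1, H _ t44427.2.2.2.2.2.1⟩⟩, ⟨⟨H _ t44427.2.2.2.2.2.2.1, H _ t44427.2.2.2.2.2.2.2⟩, ⟨H _ t44435.1, ⟨H _ t44435.2.1, H _ t44435.2.2.1⟩⟩⟩⟩, ⟨⟨⟨H _ t44435.2.2.2.1, H _ t44435.2.2.2.2.1⟩, ⟨H _ t44435.2.2.2.2.2.1, H _ t44435.2.2.2.2.2.2.1⟩⟩,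 ⟨⟨H _ t44435.2.2.2.2.2.2.2, H _ t44443.1⟩, ⟨H _ t44443.2.1, ⟨H _ t44443.2.2.1, H _ t44443.2.2.2.1⟩⟩⟩⟩⟩⟩, ⟨⟨⟨⟨⟨H _ t44443.2.2.2.2.1, H _ t44443.2.2.2.2.2.1⟩, ⟨H _ t44443.2.2.2.2.2.2.1, H _ t44443.2.2.2.2.2.2.2⟩⟩, ⟨⟨H _ t44451.1, H _ t44451.2.1⟩, ⟨H _ t44451.2.2.1, ⟨H _ t44451.2.2.2.1, H _ t44451.2.2.2.2.1⟩⟩⟩⟩, ⟨⟨⟨H _ t44451.2.2.2.2.2.1, H _ t44451.2.2.2.2.2.2.1⟩, ⟨H _ t44451.2.2.2.2.2.2.2, H _ t44459.1⟩⟩, ⟨⟨H _ t44459.2.1, H _ t44459.2.2.1⟩, ⟨H _ t44459.2.2.2.1, ⟨H _ t44459.2.2.2.2.1, H _ t44459.2.2.2.2.2.1⟩⟩⟩⟩⟩, ⟨⟨⟨⟨H _ t44459.2.2.2.2.2.2.1, H _ t44459.2.2.2.2.2.2.2⟩, ⟨H _ t44467.1, H _ t44467.2.1⟩⟩, ⟨⟨H _ t44467.2.2.1, H _ t44467.2.2.2.1⟩, ⟨H _ t44467.2.2.2.2.1, ⟨H _ t44467.2.2.2.2.2.1, H _ t44467.2.2.2.2.2.2.1⟩⟩⟩⟩, ⟨⟨⟨H _ t44467.2.2.2.2.2.2.2, H _ t44475.1⟩, ⟨H _ t44475.2.1, H _ t44475.2.2.1⟩⟩, ⟨⟨H _ t44475.2.2.2.1, H _ t44475.2.2.2.2.1⟩, ⟨H _ t44475.2.2.2.2.2.1, ⟨H _ t44475.2.2.2.2.2.2.1,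 H _ t44475.2.2.2.2.2.2.2⟩⟩⟩⟩⟩⟩⟩⟩, ⟨⟨⟨⟨⟨⟨⟨H _ t44483.1, H _ t44483.2.1⟩, ⟨H _ t44483.2.2.1, H _ t44483.2.2.2.1⟩⟩, ⟨⟨H _ t44483.2.2.2.2.1, H _ t44483.2.2.2.2.2.1⟩, ⟨H _ t44483.2.2.2.2.2.2.1, ⟨H _ t44483.2.2.2.2.2.2.2, H _ t44491.1⟩⟩⟩⟩, ⟨⟨⟨H _ t44491.2.1, H _ t44491.2.2.1⟩, ⟨H _ t44491.2.2.2.1, H _ t44491.2.2.2.2.1⟩⟩, ⟨⟨H _ t44491.2.2.2.2.2.1, H _ t44491.2.2.2.2.2.2.1⟩, ⟨H _ t44491.2.2.2.2.2.2.2, ⟨H _ t44499.1, H _ t44499.2.1⟩⟩⟩⟩⟩, ⟨⟨⟨⟨H _ t44499.2.2.1, H _ t44499.2.2.2.1⟩, ⟨H _ t44499.2.2.2.2.1, H _ t44499.2.2.2.2.2.1⟩⟩, ⟨⟨H _ t44499.2.2.2.2.2.2.1, H _ t44499.2.2.2.2.2.2.2⟩, ⟨H _ t44507.1, ⟨H _ t44507.2.1, H _ t44507.2.2.1⟩⟩⟩⟩, ⟨⟨⟨H _ t44507.2.2.2.1, H _ t44507.2.2.2.2.1⟩, ⟨H _ t44507.2.2.2.2.2.1, H _ t44507.2.2.2.2.2.2.1⟩⟩, ⟨⟨H _ t44507.2.2.2.2.2.2.2, H _ t44515.1⟩, ⟨H _ t44515.2.1, ⟨H _ t44515.2.2.1, H _ t44515.2.2.2.1⟩⟩⟩⟩⟩⟩, ⟨⟨⟨⟨⟨H _ t44515.2.2.2.2.1, H _ t44515.2.2.2.2.2.1⟩, ⟨H _ t44515.2.2.2.2.2.2.1,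 H _ t44515.2.2.2.2.2.2.2⟩⟩, ⟨⟨H _ t44523.1, H _ t44523.2.1⟩, ⟨H _ t44523.2.2.1, ⟨H _ t44523.2.2.2.1, H _ t44523.2.2.2.2.1⟩⟩⟩⟩, ⟨⟨⟨H _ t44523.2.2.2.2.2.1, H _ t44523.2.2.2.2.2.2.1⟩, ⟨H _ t44523.2.2.2.2.2.2.2, H _ t44531.1⟩⟩, ⟨⟨H _ t44531.2.1, H _ t44531.2.2.1⟩, ⟨H _ t44531.2.2.2.1, ⟨H _ t44531.2.2.2.2.1, H _ t44531.2.2.2.2.2.1⟩⟩⟩⟩⟩, ⟨⟨⟨⟨H _ t44531.2.2.2.2.2.2.1, H _ t44531.2.2.2.2.2.2.2⟩, ⟨H _ t44539.1, H _ t44539.2.1⟩⟩, ⟨⟨H _ t44539.2.2.1, H _ t44539.2.2.2.1⟩, ⟨H _ t44539.2.2.2.2.1, ⟨H _ t44539.2.2.2.2.2.1, H _ t44539.2.2.2.2.2.2.1⟩⟩⟩⟩, ⟨⟨⟨H _ t44539.2.2.2.2.2.2.2, H _ t44547.1⟩, ⟨H _ t44547.2.1, H _ t44547.2.2.1⟩⟩, ⟨⟨H _ t44547.2.2.2.1, H _ t44547.2.2.2.2.1⟩, ⟨H _ t44547.2.2.2.2.2.1, ⟨H _ t44547.2.2.2.2.2.2.1, H _ t44547.2.2.2.2.2.2.2⟩⟩⟩⟩⟩⟩⟩, ⟨⟨⟨⟨⟨⟨H _ t44555.1, H _ t44555.2.1⟩, ⟨H _ t44555.2.2.1, H _ t44555.2.2.2.1⟩⟩, ⟨⟨H _ t44555.2.2.2.2.1, H _ t44555.2.2.2.2.2.1⟩, ⟨H _ t44555.2.2.2.2.2.2.1,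 ⟨H _ t44555.2.2.2.2.2.2.2, H _ t44563.1⟩⟩⟩⟩, ⟨⟨⟨H _ t44563.2.1, H _ t44563.2.2.1⟩, ⟨H _ t44563.2.2.2.1, H _ t44563.2.2.2.2.1⟩⟩, ⟨⟨H _ t44563.2.2.2.2.2.1, H _ t44563.2.2.2.2.2.2.1⟩, ⟨H _ t44563.2.2.2.2.2.2.2, ⟨H _ t44571.1, H _ t44571.2.1⟩⟩⟩⟩⟩, ⟨⟨⟨⟨H _ t44571.2.2.1, H _ t44571.2.2.2.1⟩, ⟨H _ t44571.2.2.2.2.1, H _ t44571.2.2.2.2.2.1⟩⟩, ⟨⟨H _ t44571.2.2.2.2.2.2.1, H _ t44571.2.2.2.2.2.2.2⟩, ⟨H _ t44579.1, ⟨H _ t44579.2.1, H _ t44579.2.2.1⟩⟩⟩⟩, ⟨⟨⟨H _ t44579.2.2.2.1, H _ t44579.2.2.2.2.1⟩, ⟨H _ t44579.2.2.2.2.2.1, H _ t44579.2.2.2.2.2.2.1⟩⟩, ⟨⟨H _ t44579.2.2.2.2.2.2.2, H _ t44587.1⟩, ⟨H _ t44587.2.1, ⟨H _ t44587.2.2.1, H _ t44587.2.2.2.1⟩⟩⟩⟩⟩⟩, ⟨⟨⟨⟨⟨H _ t44587.2.2.2.2.1, H _ t44587.2.2.2.2.2.1⟩, ⟨H _ t44587.2.2.2.2.2.2.1, H _ t44587.2.2.2.2.2.2.2⟩⟩, ⟨⟨H _ t44595.1, H _ t44595.2.1⟩, ⟨H _ t44595.2.2.1, ⟨H _ t44595.2.2.2.1, H _ t44595.2.2.2.2.1⟩⟩⟩⟩, ⟨⟨⟨H _ t44595.2.2.2.2.2.1, H _ t44595.2.2.2.2.2.2.1⟩,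 ⟨H _ t44595.2.2.2.2.2.2.2, H _ t44603.1⟩⟩, ⟨⟨H _ t44603.2.1, H _ t44603.2.2.1⟩, ⟨H _ t44603.2.2.2.1, ⟨H _ t44603.2.2.2.2.1, H _ t44603.2.2.2.2.2.1⟩⟩⟩⟩⟩, ⟨⟨⟨⟨H _ t44603.2.2.2.2.2.2.1, H _ t44603.2.2.2.2.2.2.2⟩, ⟨H _ t44611.1, H _ t44611.2.1⟩⟩, ⟨⟨H _ t44611.2.2.1, H _ t44611.2.2.2.1⟩, ⟨H _ t44611.2.2.2.2.1, ⟨H _ t44611.2.2.2.2.2.1, H _ t44611.2.2.2.2.2.2.1⟩⟩⟩⟩, ⟨⟨⟨H _ t44611.2.2.2.2.2.2.2, H _ t44619.1⟩, ⟨H _ t44619.2.1, H _ t44619.2.2.1⟩⟩, ⟨⟨H _ t44619.2.2.2.1, H _ t44619.2.2.2.2.1⟩, ⟨H _ t44619.2.2.2.2.2.1, ⟨H _ t44619.2.2.2.2.2.2.1, H _ t44619.2.2.2.2.2.2.2⟩⟩⟩⟩⟩⟩⟩⟩⟩, ⟨⟨⟨⟨⟨⟨⟨⟨H _ t44627.1, H _ t44627.2.1⟩, ⟨H _ t44627.2.2.1, H _ t44627.2.2.2.1⟩⟩, ⟨⟨H _ t44627.2.2.2.2.1, H _ t44627.2.2.2.2.2.1⟩, ⟨H _ t44627.2.2.2.2.2.2.1, ⟨H _ t44627.2.2.2.2.2.2.2, H _ t44635.1⟩⟩⟩⟩, ⟨⟨⟨H _ t44635.2.1, H _ t44635.2.2.1⟩, ⟨H _ t44635.2.2.2.1, H _ t44635.2.2.2.2.1⟩⟩, ⟨⟨H _ t44635.2.2.2.2.2.1, H _ t44635.2.2.2.2.2.2.1⟩,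 ⟨H _ t44635.2.2.2.2.2.2.2, ⟨H _ t44643.1, H _ t44643.2.1⟩⟩⟩⟩⟩, ⟨⟨⟨⟨H _ t44643.2.2.1, H _ t44643.2.2.2.1⟩, ⟨H _ t44643.2.2.2.2.1, H _ t44643.2.2.2.2.2.1⟩⟩, ⟨⟨H _ t44643.2.2.2.2.2.2.1, H _ t44643.2.2.2.2.2.2.2⟩, ⟨H _ t44651.1, ⟨H _ t44651.2.1, H _ t44651.2.2.1⟩⟩⟩⟩, ⟨⟨⟨H _ t44651.2.2.2.1, H _ t44651.2.2.2.2.1⟩, ⟨H _ t44651.2.2.2.2.2.1, H _ t44651.2.2.2.2.2.2.1⟩⟩, ⟨⟨H _ t44651.2.2.2.2.2.2.2, H _ t44659.1⟩, ⟨H _ t44659.2.1, ⟨H _ t44659.2.2.1, H _ t44659.2.2.2.1⟩⟩⟩⟩⟩⟩, ⟨⟨⟨⟨⟨H _ t44659.2.2.2.2.1, H _ t44659.2.2.2.2.2.1⟩, ⟨H _ t44659.2.2.2.2.2.2.1, H _ t44659.2.2.2.2.2.2.2⟩⟩, ⟨⟨H _ t44667.1, H _ t44667.2.1⟩, ⟨H _ t44667.2.2.1, ⟨H _ t44667.2.2.2.1, H _ t44667.2.2.2.2.1⟩⟩⟩⟩, ⟨⟨⟨H _ t44667.2.2.2.2.2.1, H _ t44667.2.2.2.2.2.2.1⟩, ⟨H _ t44667.2.2.2.2.2.2.2, H _ t44675.1⟩⟩, ⟨⟨H _ t44675.2.1, H _ t44675.2.2.1⟩, ⟨H _ t44675.2.2.2.1, ⟨H _ t44675.2.2.2.2.1, H _ t44675.2.2.2.2.2.1⟩⟩⟩⟩⟩, ⟨⟨⟨⟨H _ t44675.2.2.2.2.2.2.1,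 H _ t44675.2.2.2.2.2.2.2⟩, ⟨H _ t44683.1, H _ t44683.2.1⟩⟩, ⟨⟨H _ t44683.2.2.1, H _ t44683.2.2.2.1⟩, ⟨H _ t44683.2.2.2.2.1, ⟨H _ t44683.2.2.2.2.2.1, H _ t44683.2.2.2.2.2.2.1⟩⟩⟩⟩, ⟨⟨⟨H _ t44683.2.2.2.2.2.2.2, H _ t44691.1⟩, ⟨H _ t44691.2.1, H _ t44691.2.2.1⟩⟩, ⟨⟨H _ t44691.2.2.2.1, H _ t44691.2.2.2.2.1⟩, ⟨H _ t44691.2.2.2.2.2.1, ⟨H _ t44691.2.2.2.2.2.2.1, H _ t44691.2.2.2.2.2.2.2⟩⟩⟩⟩⟩⟩⟩, ⟨⟨⟨⟨⟨⟨H _ t44699.1, H _ t44699.2.1⟩, ⟨H _ t44699.2.2.1, H _ t44699.2.2.2.1⟩⟩, ⟨⟨H _ t44699.2.2.2.2.1, H _ t44699.2.2.2.2.2.1⟩, ⟨H _ t44699.2.2.2.2.2.2.1, ⟨H _ t44699.2.2.2.2.2.2.2, H _ t44707.1⟩⟩⟩⟩, ⟨⟨⟨H _ t44707.2.1, H _ t44707.2.2.1⟩, ⟨H _ t44707.2.2.2.1, H _ t44707.2.2.2.2.1⟩⟩, ⟨⟨H _ t44707.2.2.2.2.2.1, H _ t44707.2.2.2.2.2.2.1⟩, ⟨H _ t44707.2.2.2.2.2.2.2, ⟨H _ t44715.1, H _ t44715.2.1⟩⟩⟩⟩⟩, ⟨⟨⟨⟨H _ t44715.2.2.1, H _ t44715.2.2.2.1⟩, ⟨H _ t44715.2.2.2.2.1, H _ t44715.2.2.2.2.2.1⟩⟩, ⟨⟨H _ t44715.2.2.2.2.2.2.1,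 H _ t44715.2.2.2.2.2.2.2⟩, ⟨H _ t44723.1, ⟨H _ t44723.2.1, H _ t44723.2.2.1⟩⟩⟩⟩, ⟨⟨⟨H _ t44723.2.2.2.1, H _ t44723.2.2.2.2.1⟩, ⟨H _ t44723.2.2.2.2.2.1, H _ t44723.2.2.2.2.2.2.1⟩⟩, ⟨⟨H _ t44723.2.2.2.2.2.2.2, H _ t44731.1⟩, ⟨H _ t44731.2.1, ⟨H _ t44731.2.2.1, H _ t44731.2.2.2.1⟩⟩⟩⟩⟩⟩, ⟨⟨⟨⟨⟨H _ t44731.2.2.2.2.1, H _ t44731.2.2.2.2.2.1⟩, ⟨H _ t44731.2.2.2.2.2.2.1, H _ t44731.2.2.2.2.2.2.2⟩⟩, ⟨⟨H _ t44739.1, H _ t44739.2.1⟩, ⟨H _ t44739.2.2.1, ⟨H _ t44739.2.2.2.1, H _ t44739.2.2.2.2.1⟩⟩⟩⟩, ⟨⟨⟨H _ t44739.2.2.2.2.2.1, H _ t44739.2.2.2.2.2.2.1⟩, ⟨H _ t44739.2.2.2.2.2.2.2, H _ t44747.1⟩⟩, ⟨⟨H _ t44747.2.1, H _ t44747.2.2.1⟩, ⟨H _ t44747.2.2.2.1, ⟨H _ t44747.2.2.2.2.1, H _ t44747.2.2.2.2.2.1⟩⟩⟩⟩⟩, ⟨⟨⟨⟨H _ t44747.2.2.2.2.2.2.1, H _ t44747.2.2.2.2.2.2.2⟩, ⟨H _ t44755.1, H _ t44755.2.1⟩⟩, ⟨⟨H _ t44755.2.2.1, H _ t44755.2.2.2.1⟩, ⟨H _ t44755.2.2.2.2.1, ⟨H _ t44755.2.2.2.2.2.1, H _ t44755.2.2.2.2.2.2.1⟩⟩⟩⟩,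 ⟨⟨⟨H _ t44755.2.2.2.2.2.2.2, H _ t44763.1⟩, ⟨H _ t44763.2.1, H _ t44763.2.2.1⟩⟩, ⟨⟨H _ t44763.2.2.2.1, H _ t44763.2.2.2.2.1⟩, ⟨H _ t44763.2.2.2.2.2.1, ⟨H _ t44763.2.2.2.2.2.2.1, H _ t44763.2.2.2.2.2.2.2⟩⟩⟩⟩⟩⟩⟩⟩, ⟨⟨⟨⟨⟨⟨⟨H _ t44771.1, H _ t44771.2.1⟩, ⟨H _ t44771.2.2.1, H _ t44771.2.2.2.1⟩⟩, ⟨⟨H _ t44771.2.2.2.2.1, H _ t44771.2.2.2.2.2.1⟩, ⟨H _ t44771.2.2.2.2.2.2.1, ⟨H _ t44771.2.2.2.2.2.2.2, H _ t44779.1⟩⟩⟩⟩, ⟨⟨⟨H _ t44779.2.1, H _ t44779.2.2.1⟩, ⟨H _ t44779.2.2.2.1, H _ t44779.2.2.2.2.1⟩⟩, ⟨⟨H _ t44779.2.2.2.2.2.1, H _ t44779.2.2.2.2.2.2.1⟩, ⟨H _ t44779.2.2.2.2.2.2.2, ⟨H _ t44787.1, H _ t44787.2.1⟩⟩⟩⟩⟩, ⟨⟨⟨⟨H _ t44787.2.2.1, H _ t44787.2.2.2.1⟩, ⟨H _ t44787.2.2.2.2.1, H _ t44787.2.2.2.2.2.1⟩⟩, ⟨⟨H _ t44787.2.2.2.2.2.2.1, H _ t44787.2.2.2.2.2.2.2⟩, ⟨H _ t44795.1, ⟨H _ t44795.2.1, H _ t44795.2.2.1⟩⟩⟩⟩, ⟨⟨⟨H _ t44795.2.2.2.1, H _ t44795.2.2.2.2.1⟩, ⟨H _ t44795.2.2.2.2.2.1, H _ t44795.2.2.2.2.2.2.1⟩⟩,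 ⟨⟨H _ t44795.2.2.2.2.2.2.2, H _ t44803.1⟩, ⟨H _ t44803.2.1, ⟨H _ t44803.2.2.1, H _ t44803.2.2.2.1⟩⟩⟩⟩⟩⟩, ⟨⟨⟨⟨⟨H _ t44803.2.2.2.2.1, H _ t44803.2.2.2.2.2.1⟩, ⟨H _ t44803.2.2.2.2.2.2.1, H _ t44803.2.2.2.2.2.2.2⟩⟩, ⟨⟨H _ t44811.1, H _ t44811.2.1⟩, ⟨H _ t44811.2.2.1, ⟨H _ t44811.2.2.2.1, H _ t44811.2.2.2.2.1⟩⟩⟩⟩, ⟨⟨⟨H _ t44811.2.2.2.2.2.1, H _ t44811.2.2.2.2.2.2.1⟩, ⟨H _ t44811.2.2.2.2.2.2.2, H _ t44819.1⟩⟩, ⟨⟨H _ t44819.2.1, H _ t44819.2.2.1⟩, ⟨H _ t44819.2.2.2.1, ⟨H _ t44819.2.2.2.2.1, H _ t44819.2.2.2.2.2.1⟩⟩⟩⟩⟩, ⟨⟨⟨⟨H _ t44819.2.2.2.2.2.2.1, H _ t44819.2.2.2.2.2.2.2⟩, ⟨H _ t44827.1, H _ t44827.2.1⟩⟩, ⟨⟨H _ t44827.2.2.1, H _ t44827.2.2.2.1⟩, ⟨H _ t44827.2.2.2.2.1, ⟨H _ t44827.2.2.2.2.2.1, H _ t44827.2.2.2.2.2.2.1⟩⟩⟩⟩, ⟨⟨⟨H _ t44827.2.2.2.2.2.2.2, H _ t44835.1⟩, ⟨H _ t44835.2.1, H _ t44835.2.2.1⟩⟩, ⟨⟨H _ t44835.2.2.2.1, H _ t44835.2.2.2.2.1⟩, ⟨H _ t44835.2.2.2.2.2.1, ⟨H _ t44835.2.2.2.2.2.2.1,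 H _ t44835.2.2.2.2.2.2.2⟩⟩⟩⟩⟩⟩⟩, ⟨⟨⟨⟨⟨⟨H _ t44843.1, H _ t44843.2.1⟩, ⟨H _ t44843.2.2.1, H _ t44843.2.2.2.1⟩⟩, ⟨⟨H _ t44843.2.2.2.2.1, H _ t44843.2.2.2.2.2.1⟩, ⟨H _ t44843.2.2.2.2.2.2.1, ⟨H _ t44843.2.2.2.2.2.2.2, H _ t44851.1⟩⟩⟩⟩, ⟨⟨⟨H _ t44851.2.1, H _ t44851.2.2.1⟩, ⟨H _ t44851.2.2.2.1, H _ t44851.2.2.2.2.1⟩⟩, ⟨⟨H _ t44851.2.2.2.2.2.1, H _ t44851.2.2.2.2.2.2.1⟩, ⟨H _ t44851.2.2.2.2.2.2.2, ⟨H _ t44859.1, H _ t44859.2.1⟩⟩⟩⟩⟩, ⟨⟨⟨⟨H _ t44859.2.2.1, H _ t44859.2.2.2.1⟩, ⟨H _ t44859.2.2.2.2.1, H _ t44859.2.2.2.2.2.1⟩⟩, ⟨⟨H _ t44859.2.2.2.2.2.2.1, H _ t44859.2.2.2.2.2.2.2⟩, ⟨H _ t44867.1, ⟨H _ t44867.2.1, H _ t44867.2.2.1⟩⟩⟩⟩, ⟨⟨⟨H _ t44867.2.2.2.1, H _ t44867.2.2.2.2.1⟩, ⟨H _ t44867.2.2.2.2.2.1, H _ t44867.2.2.2.2.2.2.1⟩⟩, ⟨⟨H _ t44867.2.2.2.2.2.2.2, H _ t44875.1⟩, ⟨H _ t44875.2.1, ⟨H _ t44875.2.2.1, H _ t44875.2.2.2.1⟩⟩⟩⟩⟩⟩, ⟨⟨⟨⟨⟨H _ t44875.2.2.2.2.1, H _ t44875.2.2.2.2.2.1⟩, ⟨H _ t44875.2.2.2.2.2.2.1,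 H _ t44875.2.2.2.2.2.2.2⟩⟩, ⟨⟨H _ t44883.1, H _ t44883.2.1⟩, ⟨H _ t44883.2.2.1, ⟨H _ t44883.2.2.2.1, H _ t44883.2.2.2.2.1⟩⟩⟩⟩, ⟨⟨⟨H _ t44883.2.2.2.2.2.1, H _ t44883.2.2.2.2.2.2.1⟩, ⟨H _ t44883.2.2.2.2.2.2.2, H _ t44891.1⟩⟩, ⟨⟨H _ t44891.2.1, H _ t44891.2.2.1⟩, ⟨H _ t44891.2.2.2.1, ⟨H _ t44891.2.2.2.2.1, H _ t44891.2.2.2.2.2.1⟩⟩⟩⟩⟩, ⟨⟨⟨⟨H _ t44891.2.2.2.2.2.2.1, H _ t44891.2.2.2.2.2.2.2⟩, ⟨H _ t44899.1, H _ t44899.2.1⟩⟩, ⟨⟨H _ t44899.2.2.1, H _ t44899.2.2.2.1⟩, ⟨H _ t44899.2.2.2.2.1, ⟨H _ t44899.2.2.2.2.2.1, H _ t44899.2.2.2.2.2.2.1⟩⟩⟩⟩, ⟨⟨⟨H _ t44899.2.2.2.2.2.2.2, H _ t44907.1⟩, ⟨H _ t44907.2.1, ⟨H _ t44907.2.2.1, H _ t44907.2.2.2.1⟩⟩⟩, ⟨⟨H _ t44907.2.2.2.2.1, H _ t44907.2.2.2.2.2.1⟩, ⟨H _ t44907.2.2.2.2.2.2.1, ⟨H _ t44907.2.2.2.2.2.2.2, H _ t44915⟩⟩⟩⟩⟩⟩⟩⟩⟩⟩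

end Pool.Agent.MP_c853c5_nt.X.C4950
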