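import Pool.Agent.MP_c853c5_nt.X.C4950.Env
import Pool.Agent.MP_c853c5_nt.X.C4950.Tab

set_option autoImplicit false
set_option maxRecDepth 8192
set_option linter.all false

namespace Pool.Agent.MP_c853c5_nt.X.C4950

open Pool.Agent.MP_c853c5_nt.X

def t44916 : allY (E.wth T3) l44916 = true ∧
    allY (E.wth T3) l44917 = true ∧
    allY (E.wth T3) l44918 = true ∧
    allY (E.wth T3) l44919 = true ∧
    allY (E.wth T3) l44920 = true ∧
    allY (E.wth T3) l44921 = true ∧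
    allY (E.wth T3) l44922 = true ∧
    allY (E.wth T3) l44923 = true :=
  ⟨by decide +kernel, by decide +kernel, by decide +kernel, by decide +kernel, by decide +kernel, by decide +kernel, by decide +kernel, by decide +kernel⟩

def t44924 : allY (E.wth T3) l44924 = true ∧
    allY (E.wth T3) l44925 = true ∧
    allY (E.wth T3) l44926 = true ∧
    allY (E.wth T3) l44927 = true ∧
    allY (E.wth T3) l44928 = true ∧
    allY (E.wth T3) l44929 = true ∧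
    allY (E.wth T3) l44930 = true ∧
    allY (E.wth T3) l44931 = true :=
  ⟨by decide +kernel, by decide +kernel, by decide +kernel, by decide +kernel, by decide +kernel, by decide +kernel, by decide +kernel, by decide +kernel⟩

def t44932 : allY (E.wth T3) l44932 = true ∧
    allY (E.wth T3) l44933 = true ∧
    allY (E.wth T3) l44934 = true ∧
    allY (E.wth T3) l44935 = true ∧
    allY (E.wth T3) l44936 = true ∧
    allY (E.wth T3) l44937 = true ∧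
    allY (E.wth T3) l44938 = true ∧
    allY (E.wth T3) l44939 = true :=
  ⟨by decide +kernel, by decide +kernel, by decide +kernel, by decide +kernel, by decide +kernel, by decide +kernel, by decide +kernel, by decide +kernel⟩

def t44940 : allY (E.wth T3) l44940 = true ∧
    allY (E.wth T3) l44941 = true ∧
    allY (E.wth T3) l44942 = true ∧
    allY (E.wth T3) l44943 = true ∧
    allY (E.wth T3) l44944 = true ∧
    allY (E.wth T3) l44945 = true ∧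
    allY (E.wth T3) l44946 = true ∧
    allY (E.wth T3) l44947 = true :=
  ⟨by decide +kernel, by decide +kernel, by decide +kernel, by decide +kernel, by decide +kernel, by decide +kernel, by decide +kernel, by decide +kernel⟩

def t44948 : allY (E.wth T3) l44948 = true ∧
    allY (E.wth T3) l44949 = true ∧
    allY (E.wth T3) l44950 = true ∧
    allY (E.wth T3) l44951 = true ∧
    allY (E.wth T3) l44952 = true ∧
    allY (E.wth T3) l44953 = true ∧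
    allY (E.wth T3) l44954 = true ∧
    allY (E.wth T3) l44955 = true :=
  ⟨by decide +kernel, by decide +kernel, by decide +kernel, by decide +kernel, by decide +kernel, by decide +kernel, by decide +kernel, by decide +kernel⟩

def t44956 : allY (E.wth T3) l44956 = true ∧
    allY (E.wth T3) l44957 = true ∧
    allY (E.wth T3) l44958 = true ∧
    allY (E.wth T3) l44959 = true ∧
    allY (E.wth T3) l44960 = true ∧
    allY (E.wth T3) l44961 = true ∧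
    allY (E.wth T3) l44962 = true ∧
    allY (E.wth T3) l44963 = true :=
  ⟨by decide +kernel, by decide +kernel, by decide +kernel, by decide +kernel, by decide +kernel, by decide +kernel, by decide +kernel, by decide +kernel⟩

def t44964 : allY (E.wth T3) l44964 = true ∧
    allY (E.wth T3) l44965 = true ∧
    allY (E.wth T3) l44966 = true ∧
    allY (E.wth T3) l44967 = true ∧
    allY (E.wth T3) l44968 = true ∧
    allY (E.wth T3) l44969 = true ∧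
    allY (E.wth T3) l44970 = true ∧
    allY (E.wth T3) l44971 = true :=
  ⟨by decide +kernel, by decide +kernel, by decide +kernel, by decide +kernel, by decide +kernel, by decide +kernel, by decide +kernel, by decide +kernel⟩

def t44972 : allY (E.wth T3) l44972 = true ∧
    allY (E.wth T3) l44973 = true ∧
    allY (E.wth T3) l44974 = true ∧
    allY (E.wth T3) l44975 = true ∧
    allY (E.wth T3) l44976 = true ∧
    allY (E.wth T3) l44977 = true ∧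
    allY (E.wth T3) l44978 = true ∧
    allY (E.wth T3) l44979 = true :=
  ⟨by decide +kernel, by decide +kernel, by decide +kernel, by decide +kernel, by decide +kernel, by decide +kernel, by decide +kernel, by decide +kernel⟩

def t44980 : allY (E.wth T3) l44980 = true ∧
    allY (E.wth T3) l44981 = true ∧
    allY (E.wth T3) l44982 = true ∧
    allY (E.wth T3) l44983 = true ∧
    allY (E.wth T3) l44984 = true ∧
    allY (E.wth T3) l44985 = true ∧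
    allY (E.wth T3) l44986 = true ∧
    allY (E.wth T3) l44987 = true :=
  ⟨by decide +kernel, by decide +kernel, by decide +kernel, by decide +kernel, by decide +kernel, by decide +kernel, by decide +kernel, by decide +kernel⟩

def t44988 : allY (E.wth T3) l44988 = true ∧
    allY (E.wth T3) l44989 = true ∧
    allY (E.wth T3) l44990 = true ∧
    allY (E.wth T3) l44991 = true ∧
    allY (E.wth T3) l44992 = true ∧
    allY (E.wth T3) l44993 = true ∧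
    allY (E.wth T3) l44994 = true ∧
    allY (E.wth T3) l44995 = true :=
  ⟨by decide +kernel, by decide +kernel, by decide +kernel, by decide +kernel, by decide +kernel, by decide +kernel, by decide +kernel, by decide +kernel⟩

def t44996 : allY (E.wth T3) l44996 = true ∧
    allY (E.wth T3) l44997 = true ∧
    allY (E.wth T3) l44998 = true ∧
    allY (E.wth T3) l44999 = true ∧
    allY (E.wth T3) l45000 = true ∧
    allY (E.wth T3) l45001 = true ∧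
    allY (E.wth T3) l45002 = true ∧
    allY (E.wth T3) l45003 = true :=
  ⟨by decide +kernel, by decide +kernel, by decide +kernel, by decide +kernel, by decide +kernel, by decide +kernel, by decide +kernel, by decide +kernel⟩

def t45004 : allY (E.wth T3) l45004 = true ∧
    allY (E.wth T3) l45005 = true ∧
    allY (E.wth T3) l45006 = true ∧
    allY (E.wth T3) l45007 = true ∧
    allY (E.wth T3) l45008 = true ∧
    allY (E.wth T3) l45009 = true ∧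
    allY (E.wth T3) l45010 = true ∧
    allY (E.wth T3) l45011 = true :=
  ⟨by decide +kernel, by decide +kernel, by decide +kernel, by decide +kernel, by decide +kernel, by decide +kernel, by decide +kernel, by decide +kernel⟩

def t45012 : allY (E.wth T3) l45012 = true ∧
    allY (E.wth T3) l45013 = true ∧
    allY (E.wth T3) l45014 = true ∧
    allY (E.wth T3) l45015 = true ∧
    allY (E.wth T3) l45016 = true ∧
    allY (E.wth T3) l45017 = true ∧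
    allY (E.wth T3) l45018 = true ∧
    allY (E.wth T3) l45019 = true :=
  ⟨by decide +kernel, by decide +kernel, by decide +kernel, by decide +kernel, by decide +kernel, by decide +kernel, by decide +kernel, by decide +kernel⟩

def t45020 : allY (E.wth T3) l45020 = true ∧
    allY (E.wth T3) l45021 = true ∧
    allY (E.wth T3) l45022 = true ∧
    allY (E.wth T3) l45023 = true ∧
    allY (E.wth T3) l45024 = true ∧
    allY (E.wth T3) l45025 = true ∧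
    allY (E.wth T3) l45026 = true ∧
    allY (E.wth T3) l45027 = true :=
  ⟨by decide +kernel, by decide +kernel, by decide +kernel, by decide +kernel, by decide +kernel, by decide +kernel, by decide +kernel, by decide +kernel⟩

def t45028 : allY (E.wth T3) l45028 = true ∧
    allY (E.wth T3) l45029 = true ∧
    allY (E.wth T3) l45030 = true ∧
    allY (E.wth T3) l45031 = true ∧
    allY (E.wth T3) l45032 = true ∧
    allY (E.wth T3) l45033 = true ∧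
    allY (E.wth T3) l45034 = true ∧
    allY (E.wth T3) l45035 = true :=
  ⟨by decide +kernel, by decide +kernel, by decide +kernel, by decide +kernel, by decide +kernel, by decide +kernel, by decide +kernel, by decide +kernel⟩

def t45036 : allY (E.wth T3) l45036 = true ∧
    allY (E.wth T3) l45037 = true ∧
    allY (E.wth T3) l45038 = true ∧
    allY (E.wth T3) l45039 = true ∧
    allY (E.wth T3) l45040 = true ∧
    allY (E.wth T3) l45041 = true ∧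
    allY (E.wth T3) l45042 = true ∧
    allY (E.wth T3) l45043 = true :=
  ⟨by decide +kernel, by decide +kernel, by decide +kernel, by decide +kernel, by decide +kernel, by decide +kernel, by decide +kernel, by decide +kernel⟩

def t45044 : allY (E.wth T3) l45044 = true ∧
    allY (E.wth T3) l45045 = true ∧
    allY (E.wth T3) l45046 = true ∧
    allY (E.wth T3) l45047 = true ∧
    allY (E.wth T3) l45048 = true ∧
    allY (E.wth T3) l45049 = true ∧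
    allY (E.wth T3) l45050 = true ∧
    allY (E.wth T3) l45051 = true :=
  ⟨by decide +kernel, by decide +kernel, by decide +kernel, by decide +kernel, by decide +kernel, by decide +kernel, by decide +kernel, by decide +kernel⟩

def t45052 : allY (E.wth T3) l45052 = true ∧
    allY (E.wth T3) l45053 = true ∧
    allY (E.wth T3) l45054 = true ∧
    allY (E.wth T3) l45055 = true ∧
    allY (E.wth T3) l45056 = true ∧
    allY (E.wth T3) l45057 = true ∧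
    allY (E.wth T3) l45058 = true ∧
    allY (E.wth T3) l45059 = true :=
  ⟨by decide +kernel, by decide +kernel, by decide +kernel, by decide +kernel, by decide +kernel, by decide +kernel, by decide +kernel, by decide +kernel⟩

def t45060 : allY (E.wth T3) l45060 = true ∧
    allY (E.wth T3) l45061 = true ∧
    allY (E.wth T3) l45062 = true ∧
    allY (E.wth T3) l45063 = true ∧
    allY (E.wth T3) l45064 = true ∧
    allY (E.wth T3) l45065 = true ∧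
    allY (E.wth T3) l45066 = true ∧
    allY (E.wth T3) l45067 = true :=
  ⟨by decide +kernel, by decide +kernel, by decide +kernel, by decide +kernel, by decide +kernel, by decide +kernel, by decide +kernel, by decide +kernel⟩

def t45068 : allY (E.wth T3) l45068 = true ∧
    allY (E.wth T3) l45069 = true ∧
    allY (E.wth T3) l45070 = true ∧
    allY (E.wth T3) l45071 = true ∧
    allY (E.wth T3) l45072 = true ∧
    allY (E.wth T3) l45073 = true ∧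
    allY (E.wth T3) l45074 = true ∧
    allY (E.wth T3) l45075 = true :=
  ⟨by decide +kernel, by decide +kernel, by decide +kernel, by decide +kernel, by decide +kernel, by decide +kernel, by decide +kernel, by decide +kernel⟩

def t45076 : allY (E.wth T3) l45076 = true ∧
    allY (E.wth T3) l45077 = true ∧
    allY (E.wth T3) l45078 = true ∧
    allY (E.wth T3) l45079 = true ∧
    allY (E.wth T3) l45080 = true ∧
    allY (E.wth T3) l45081 = true ∧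
    allY (E.wth T3) l45082 = true ∧
    allY (E.wth T3) l45083 = true :=
  ⟨by decide +kernel, by decide +kernel, by decide +kernel, by decide +kernel, by decide +kernel, by decide +kernel, by decide +kernel, by decide +kernel⟩

def t45084 : allY (E.wth T3) l45084 = true ∧
    allY (E.wth T3) l45085 = true ∧
    allY (E.wth T3) l45086 = true ∧
    allY (E.wth T3) l45087 = true ∧
    allY (E.wth T3) l45088 = true ∧
    allY (E.wth T3) l45089 = true ∧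
    allY (E.wth T3) l45090 = true ∧
    allY (E.wth T3) l45091 = true :=
  ⟨by decide +kernel, by decide +kernel, by decide +kernel, by decide +kernel, by decide +kernel, by decide +kernel, by decide +kernel, by decide +kernel⟩

def t45092 : allY (E.wth T3) l45092 = true ∧
    allY (E.wth T3) l45093 = true ∧
    allY (E.wth T3) l45094 = true ∧
    allY (E.wth T3) l45095 = true ∧
    allY (E.wth T3) l45096 = true ∧
    allY (E.wth T3) l45097 = true ∧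
    allY (E.wth T3) l45098 = true ∧
    allY (E.wth T3) l45099 = true :=
  ⟨by decide +kernel, by decide +kernel, by decide +kernel, by decide +kernel, by decide +kernel, by decide +kernel, by decide +kernel, by decide +kernel⟩

def t45100 : allY (E.wth T3) l45100 = true ∧
    allY (E.wth T3) l45101 = true ∧
    allY (E.wth T3) l45102 = true ∧
    allY (E.wth T3) l45103 = true ∧
    allY (E.wth T3) l45104 = true ∧
    allY (E.wth T3) l45105 = true ∧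
    allY (E.wth T3) l45106 = true ∧
    allY (E.wth T3) l45107 = true :=
  ⟨by decide +kernel, by decide +kernel, by decide +kernel, by decide +kernel, by decide +kernel, by decide +kernel, by decide +kernel, by decide +kernel⟩

def t45108 : allY (E.wth T3) l45108 = true ∧
    allY (E.wth T3) l45109 = true ∧
    allY (E.wth T3) l45110 = true ∧
    allY (E.wth T3) l45111 = true ∧
    allY (E.wth T3) l45112 = true ∧
    allY (E.wth T3) l45113 = true ∧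
    allY (E.wth T3) l45114 = true ∧
    allY (E.wth T3) l45115 = true :=
  ⟨by decide +kernel, by decide +kernel, by decide +kernel, by decide +kernel, by decide +kernel, by decide +kernel, by decide +kernel, by decide +kernel⟩

def t45116 : allY (E.wth T3) l45116 = true ∧
    allY (E.wth T3) l45117 = true ∧
    allY (E.wth T3) l45118 = true ∧
    allY (E.wth T3) l45119 = true ∧
    allY (E.wth T3) l45120 = true ∧
    allY (E.wth T3) l45121 = true ∧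
    allY (E.wth T3) l45122 = true ∧
    allY (E.wth T3) l45123 = true :=
  ⟨by decide +kernel, by decide +kernel, by decide +kernel, by decide +kernel, by decide +kernel, by decide +kernel, by decide +kernel, by decide +kernel⟩

def t45124 : allY (E.wth T3) l45124 = true ∧
    allY (E.wth T3) l45125 = true ∧
    allY (E.wth T3) l45126 = true ∧
    allY (E.wth T3) l45127 = true ∧
    allY (E.wth T3) l45128 = true ∧
    allY (E.wth T3) l45129 = true ∧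
    allY (E.wth T3) l45130 = true ∧
    allY (E.wth T3) l45131 = true :=
  ⟨by decide +kernel, by decide +kernel, by decide +kernel, by decide +kernel, by decide +kernel, by decide +kernel, by decide +kernel, by decide +kernel⟩

def t45132 : allY (E.wth T3) l45132 = true ∧
    allY (E.wth T3) l45133 = true ∧
    allY (E.wth T3) l45134 = true ∧
    allY (E.wth T3) l45135 = true ∧
    allY (E.wth T3) l45136 = true ∧
    allY (E.wth T3) l45137 = true ∧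
    allY (E.wth T3) l45138 = true ∧
    allY (E.wth T3) l45139 = true :=
  ⟨by decide +kernel, by decide +kernel, by decide +kernel, by decide +kernel, by decide +kernel, by decide +kernel, by decide +kernel, by decide +kernel⟩

def t45140 : allY (E.wth T3) l45140 = true ∧
    allY (E.wth T3) l45141 = true ∧
    allY (E.wth T3) l45142 = true ∧
    allY (E.wth T3) l45143 = true ∧
    allY (E.wth T3) l45144 = true ∧
    allY (E.wth T3) l45145 = true ∧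
    allY (E.wth T3) l45146 = true ∧
    allY (E.wth T3) l45147 = true :=
  ⟨by decide +kernel, by decide +kernel, by decide +kernel, by decide +kernel, by decide +kernel, by decide +kernel, by decide +kernel, by decide +kernel⟩

def t45148 : allY (E.wth T3) l45148 = true ∧
    allY (E.wth T3) l45149 = true ∧
    allY (E.wth T3) l45150 = true ∧
    allY (E.wth T3) l45151 = true ∧
    allY (E.wth T3) l45152 = true ∧
    allY (E.wth T3) l45153 = true ∧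
    allY (E.wth T3) l45154 = true ∧
    allY (E.wth T3) l45155 = true :=
  ⟨by decide +kernel, by decide +kernel, by decide +kernel, by decide +kernel, by decide +kernel, by decide +kernel, by decide +kernel, by decide +kernel⟩

def t45156 : allY (E.wth T3) l45156 = true ∧
    allY (E.wth T3) l45157 = true ∧
    allY (E.wth T3) l45158 = true ∧
    allY (E.wth T3) l45159 = true ∧
    allY (E.wth T3) l45160 = true ∧
    allY (E.wth T3) l45161 = true ∧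
    allY (E.wth T3) l45162 = true ∧
    allY (E.wth T3) l45163 = true :=
  ⟨by decide +kernel, by decide +kernel, by decide +kernel, by decide +kernel, by decide +kernel, by decide +kernel, by decide +kernel, by decide +kernel⟩

def t45164 : allY (E.wth T3) l45164 = true ∧
    allY (E.wth T3) l45165 = true ∧
    allY (E.wth T3) l45166 = true ∧
    allY (E.wth T3) l45167 = true ∧
    allY (E.wth T3) l45168 = true ∧
    allY (E.wth T3) l45169 = true ∧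
    allY (E.wth T3) l45170 = true ∧
    allY (E.wth T3) l45171 = true :=
  ⟨by decide +kernel, by decide +kernel, by decide +kernel, by decide +kernel, by decide +kernel, by decide +kernel, by decide +kernel, by decide +kernel⟩

def t45172 : allY (E.wth T3) l45172 = true ∧
    allY (E.wth T3) l45173 = true ∧
    allY (E.wth T3) l45174 = true ∧
    allY (E.wth T3) l45175 = true ∧
    allY (E.wth T3) l45176 = true ∧
    allY (E.wth T3) l45177 = true ∧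
    allY (E.wth T3) l45178 = true ∧
    allY (E.wth T3) l45179 = true :=
  ⟨by decide +kernel, by decide +kernel, by decide +kernel, by decide +kernel, by decide +kernel, by decide +kernel, by decide +kernel, by decide +kernel⟩

def t45180 : allY (E.wth T3) l45180 = true ∧
    allY (E.wth T3) l45181 = true ∧
    allY (E.wth T3) l45182 = true ∧
    allY (E.wth T3) l45183 = true ∧
    allY (E.wth T3) l45184 = true ∧
    allY (E.wth T3) l45185 = true ∧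
    allY (E.wth T3) l45186 = true ∧
    allY (E.wth T3) l45187 = true :=
  ⟨by decide +kernel, by decide +kernel, by decide +kernel, by decide +kernel, by decide +kernel, by decide +kernel, by decide +kernel, by decide +kernel⟩

def t45188 : allY (E.wth T3) l45188 = true ∧
    allY (E.wth T3) l45189 = true ∧
    allY (E.wth T3) l45190 = true ∧
    allY (E.wth T3) l45191 = true ∧
    allY (E.wth T3) l45192 = true ∧
    allY (E.wth T3) l45193 = true ∧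
    allY (E.wth T3) l45194 = true ∧
    allY (E.wth T3) l45195 = true :=
  ⟨by decide +kernel, by decide +kernel, by decide +kernel, by decide +kernel, by decide +kernel, by decide +kernel, by decide +kernel, by decide +kernel⟩

def t45196 : allY (E.wth T3) l45196 = true ∧
    allY (E.wth T3) l45197 = true ∧
    allY (E.wth T3) l45198 = true ∧
    allY (E.wth T3) l45199 = true ∧
    allY (E.wth T3) l45200 = true ∧
    allY (E.wth T3) l45201 = true ∧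
    allY (E.wth T3) l45202 = true ∧
    allY (E.wth T3) l45203 = true :=
  ⟨by decide +kernel, by decide +kernel, by decide +kernel, by decide +kernel, by decide +kernel, by decide +kernel, by decide +kernel, by decide +kernel⟩

def t45204 : allY (E.wth T3) l45204 = true ∧
    allY (E.wth T3) l45205 = true ∧
    allY (E.wth T3) l45206 = true ∧
    allY (E.wth T3) l45207 = true ∧
    allY (E.wth T3) l45208 = true ∧
    allY (E.wth T3) l45209 = true ∧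
    allY (E.wth T3) l45210 = true ∧
    allY (E.wth T3) l45211 = true :=
  ⟨by decide +kernel, by decide +kernel, by decide +kernel, by decide +kernel, by decide +kernel, by decide +kernel, by decide +kernel, by decide +kernel⟩

def t45212 : allY (E.wth T3) l45212 = true ∧
    allY (E.wth T3) l45213 = true ∧
    allY (E.wth T3) l45214 = true ∧
    allY (E.wth T3) l45215 = true ∧
    allY (E.wth T3) l45216 = true ∧
    allY (E.wth T3) l45217 = true ∧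
    allY (E.wth T3) l45218 = true ∧
    allY (E.wth T3) l45219 = true :=
  ⟨by decide +kernel, by decide +kernel, by decide +kernel, by decide +kernel, by decide +kernel, by decide +kernel, by decide +kernel, by decide +kernel⟩

def t45220 : allY (E.wth T3) l45220 = true ∧
    allY (E.wth T3) l45221 = true ∧
    allY (E.wth T3) l45222 = true ∧
    allY (E.wth T3) l45223 = true ∧
    allY (E.wth T3) l45224 = true ∧
    allY (E.wth T3) l45225 = true ∧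
    allY (E.wth T3) l45226 = true ∧
    allY (E.wth T3) l45227 = true :=
  ⟨by decide +kernel, by decide +kernel, by decide +kernel, by decide +kernel, by decide +kernel, by decide +kernel, by decide +kernel, by decide +kernel⟩

def t45228 : allY (E.wth T3) l45228 = true ∧
    allY (E.wth T3) l45229 = true ∧
    allY (E.wth T3) l45230 = true ∧
    allY (E.wth T3) l45231 = true ∧
    allY (E.wth T3) l45232 = true ∧
    allY (E.wth T3) l45233 = true ∧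
    allY (E.wth T3) l45234 = true ∧
    allY (E.wth T3) l45235 = true :=
  ⟨by decide +kernel, by decide +kernel, by decide +kernel, by decide +kernel, by decide +kernel, by decide +kernel, by decide +kernel, by decide +kernel⟩

def t45236 : allY (E.wth T3) l45236 = true ∧
    allY (E.wth T3) l45237 = true ∧
    allY (E.wth T3) l45238 = true ∧
    allY (E.wth T3) l45239 = true ∧
    allY (E.wth T3) l45240 = true ∧
    allY (E.wth T3) l45241 = true ∧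
    allY (E.wth T3) l45242 = true ∧
    allY (E.wth T3) l45243 = true :=
  ⟨by decide +kernel, by decide +kernel, by decide +kernel, by decide +kernel, by decide +kernel, by decide +kernel, by decide +kernel, by decide +kernel⟩

def t45244 : allY (E.wth T3) l45244 = true ∧
    allY (E.wth T3) l45245 = true ∧
    allY (E.wth T3) l45246 = true ∧
    allY (E.wth T3) l45247 = true ∧
    allY (E.wth T3) l45248 = true ∧
    allY (E.wth T3) l45249 = true ∧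
    allY (E.wth T3) l45250 = true ∧
    allY (E.wth T3) l45251 = true :=
  ⟨by decide +kernel, by decide +kernel, by decide +kernel, by decide +kernel, by decide +kernel, by decide +kernel, by decide +kernel, by decide +kernel⟩

def t45252 : allY (E.wth T3) l45252 = true ∧
    allY (E.wth T3) l45253 = true ∧
    allY (E.wth T3) l45254 = true ∧
    allY (E.wth T3) l45255 = true ∧
    allY (E.wth T3) l45256 = true ∧
    allY (E.wth T3) l45257 = true ∧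
    allY (E.wth T3) l45258 = true ∧
    allY (E.wth T3) l45259 = true :=
  ⟨by decide +kernel, by decide +kernel, by decide +kernel, by decide +kernel, by decide +kernel, by decide +kernel, by decide +kernel, by decide +kernel⟩

def t45260 : allY (E.wth T3) l45260 = true ∧
    allY (E.wth T3) l45261 = true ∧
    allY (E.wth T3) l45262 = true ∧
    allY (E.wth T3) l45263 = true ∧
    allY (E.wth T3) l45264 = true ∧
    allY (E.wth T3) l45265 = true ∧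
    allY (E.wth T3) l45266 = true ∧
    allY (E.wth T3) l45267 = true :=
  ⟨by decide +kernel, by decide +kernel, by decide +kernel, by decide +kernel, by decide +kernel, by decide +kernel, by decide +kernel, by decide +kernel⟩

def t45268 : allY (E.wth T3) l45268 = true ∧
    allY (E.wth T3) l45269 = true ∧
    allY (E.wth T3) l45270 = true ∧
    allY (E.wth T3) l45271 = true ∧
    allY (E.wth T3) l45272 = true ∧
    allY (E.wth T3) l45273 = true ∧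
    allY (E.wth T3) l45274 = true ∧
    allY (E.wth T3) l45275 = true :=
  ⟨by decide +kernel, by decide +kernel, by decide +kernel, by decide +kernel, by decide +kernel, by decide +kernel, by decide +kernel, by decide +kernel⟩

def t45276 : allY (E.wth T3) l45276 = true ∧
    allY (E.wth T3) l45277 = true ∧
    allY (E.wth T3) l45278 = true ∧
    allY (E.wth T3) l45279 = true ∧
    allY (E.wth T3) l45280 = true ∧
    allY (E.wth T3) l45281 = true ∧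
    allY (E.wth T3) l45282 = true ∧
    allY (E.wth T3) l45283 = true :=
  ⟨by decide +kernel, by decide +kernel, by decide +kernel, by decide +kernel, by decide +kernel, by decide +kernel, by decide +kernel, by decide +kernel⟩

def t45284 : allY (E.wth T3) l45284 = true ∧
    allY (E.wth T3) l45285 = true ∧
    allY (E.wth T3) l45286 = true ∧
    allY (E.wth T3) l45287 = true ∧
    allY (E.wth T3) l45288 = true ∧
    allY (E.wth T3) l45289 = true ∧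
    allY (E.wth T3) l45290 = true ∧
    allY (E.wth T3) l45291 = true :=
  ⟨by decide +kernel, by decide +kernel, by decide +kernel, by decide +kernel, by decide +kernel, by decide +kernel, by decide +kernel, by decide +kernel⟩

def t45292 : allY (E.wth T3) l45292 = true ∧
    allY (E.wth T3) l45293 = true ∧
    allY (E.wth T3) l45294 = true ∧
    allY (E.wth T3) l45295 = true ∧
    allY (E.wth T3) l45296 = true ∧
    allY (E.wth T3) l45297 = true ∧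
    allY (E.wth T3) l45298 = true ∧
    allY (E.wth T3) l45299 = true :=
  ⟨by decide +kernel, by decide +kernel, by decide +kernel, by decide +kernel, by decide +kernel, by decide +kernel, by decide +kernel, by decide +kernel⟩

def t45300 : allY (E.wth T3) l45300 = true ∧
    allY (E.wth T3) l45301 = true ∧
    allY (E.wth T3) l45302 = true ∧
    allY (E.wth T3) l45303 = true ∧
    allY (E.wth T3) l45304 = true ∧
    allY (E.wth T3) l45305 = true ∧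
    allY (E.wth T3) l45306 = true ∧
    allY (E.wth T3) l45307 = true :=
  ⟨by decide +kernel, by decide +kernel, by decide +kernel, by decide +kernel, by decide +kernel, by decide +kernel, by decide +kernel, by decide +kernel⟩

def t45308 : allY (E.wth T3) l45308 = true ∧
    allY (E.wth T3) l45309 = true ∧
    allY (E.wth T3) l45310 = true ∧
    allY (E.wth T3) l45311 = true ∧
    allY (E.wth T3) l45312 = true ∧
    allY (E.wth T3) l45313 = true ∧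
    allY (E.wth T3) l45314 = true ∧
    allY (E.wth T3) l45315 = true :=
  ⟨by decide +kernel, by decide +kernel, by decide +kernel, by decide +kernel, by decide +kernel, by decide +kernel, by decide +kernel, by decide +kernel⟩

def t45316 : allY (E.wth T3) l45316 = true ∧
    allY (E.wth T3) l45317 = true ∧
    allY (E.wth T3) l45318 = true ∧
    allY (E.wth T3) l45319 = true ∧
    allY (E.wth T3) l45320 = true ∧
    allY (E.wth T3) l45321 = true ∧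
    allY (E.wth T3) l45322 = true ∧
    allY (E.wth T3) l45323 = true :=
  ⟨by decide +kernel, by decide +kernel, by decide +kernel, by decide +kernel, by decide +kernel, by decide +kernel, by decide +kernel, by decide +kernel⟩

def t45324 : allY (E.wth T3) l45324 = true ∧
    allY (E.wth T3) l45325 = true ∧
    allY (E.wth T3) l45326 = true ∧
    allY (E.wth T3) l45327 = true ∧
    allY (E.wth T3) l45328 = true ∧
    allY (E.wth T3) l45329 = true ∧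
    allY (E.wth T3) l45330 = true ∧
    allY (E.wth T3) l45331 = true :=
  ⟨by decide +kernel, by decide +kernel, by decide +kernel, by decide +kernel, by decide +kernel, by decide +kernel, by decide +kernel, by decide +kernel⟩

def t45332 : allY (E.wth T3) l45332 = true ∧
    allY (E.wth T3) l45333 = true ∧
    allY (E.wth T3) l45334 = true ∧
    allY (E.wth T3) l45335 = true ∧
    allY (E.wth T3) l45336 = true ∧
    allY (E.wth T3) l45337 = true ∧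
    allY (E.wth T3) l45338 = true ∧
    allY (E.wth T3) l45339 = true :=
  ⟨by decide +kernel, by decide +kernel, by decide +kernel, by decide +kernel, by decide +kernel, by decide +kernel, by decide +kernel, by decide +kernel⟩

def t45340 : allY (E.wth T3) l45340 = true ∧
    allY (E.wth T3) l45341 = true ∧
    allY (E.wth T3) l45342 = true ∧
    allY (E.wth T3) l45343 = true ∧
    allY (E.wth T3) l45344 = true ∧
    allY (E.wth T3) l45345 = true ∧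
    allY (E.wth T3) l45346 = true ∧
    allY (E.wth T3) l45347 = true :=
  ⟨by decide +kernel, by decide +kernel, by decide +kernel, by decide +kernel, by decide +kernel, by decide +kernel, by decide +kernel, by decide +kernel⟩

def t45348 : allY (E.wth T3) l45348 = true ∧
    allY (E.wth T3) l45349 = true ∧
    allY (E.wth T3) l45350 = true ∧
    allY (E.wth T3) l45351 = true ∧
    allY (E.wth T3) l45352 = true ∧
    allY (E.wth T3) l45353 = true ∧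
    allY (E.wth T3) l45354 = true ∧
    allY (E.wth T3) l45355 = true :=
  ⟨by decide +kernel, by decide +kernel, by decide +kernel, by decide +kernel, by decide +kernel, by decide +kernel, by decide +kernel, by decide +kernel⟩

def t45356 : allY (E.wth T3) l45356 = true ∧
    allY (E.wth T3) l45357 = true ∧
    allY (E.wth T3) l45358 = true ∧
    allY (E.wth T3) l45359 = true ∧
    allY (E.wth T3) l45360 = true ∧
    allY (E.wth T3) l45361 = true ∧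
    allY (E.wth T3) l45362 = true ∧
    allY (E.wth T3) l45363 = true :=
  ⟨by decide +kernel, by decide +kernel, by decide +kernel, by decide +kernel, by decide +kernel, by decide +kernel, by decide +kernel, by decide +kernel⟩

def t45364 : allY (E.wth T3) l45364 = true ∧
    allY (E.wth T3) l45365 = true ∧
    allY (E.wth T3) l45366 = true ∧
    allY (E.wth T3) l45367 = true ∧
    allY (E.wth T3) l45368 = true ∧
    allY (E.wth T3) l45369 = true ∧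
    allY (E.wth T3) l45370 = true ∧
    allY (E.wth T3) l45371 = true :=
  ⟨by decide +kernel, by decide +kernel, by decide +kernel, by decide +kernel, by decide +kernel, by decide +kernel, by decide +kernel, by decide +kernel⟩

def t45372 : allY (E.wth T3) l45372 = true ∧
    allY (E.wth T3) l45373 = true ∧
    allY (E.wth T3) l45374 = true ∧
    allY (E.wth T3) l45375 = true ∧
    allY (E.wth T3) l45376 = true ∧
    allY (E.wth T3) l45377 = true ∧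
    allY (E.wth T3) l45378 = true ∧
    allY (E.wth T3) l45379 = true :=
  ⟨by decide +kernel, by decide +kernel, by decide +kernel, by decide +kernel, by decide +kernel, by decide +kernel, by decide +kernel, by decide +kernel⟩

def t45380 : allY (E.wth T3) l45380 = true ∧
    allY (E.wth T3) l45381 = true ∧
    allY (E.wth T3) l45382 = true ∧
    allY (E.wth T3) l45383 = true ∧
    allY (E.wth T3) l45384 = true ∧
    allY (E.wth T3) l45385 = true ∧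
    allY (E.wth T3) l45386 = true ∧
    allY (E.wth T3) l45387 = true :=
  ⟨by decide +kernel, by decide +kernel, by decide +kernel, by decide +kernel, by decide +kernel, by decide +kernel, by decide +kernel, by decide +kernel⟩

def t45388 : allY (E.wth T3) l45388 = true ∧
    allY (E.wth T3) l45389 = true ∧
    allY (E.wth T3) l45390 = true ∧
    allY (E.wth T3) l45391 = true ∧
    allY (E.wth T3) l45392 = true ∧
    allY (E.wth T3) l45393 = true ∧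
    allY (E.wth T3) l45394 = true ∧
    allY (E.wth T3) l45395 = true :=
  ⟨by decide +kernel, by decide +kernel, by decide +kernel, by decide +kernel, by decide +kernel, by decide +kernel, by decide +kernel, by decide +kernel⟩

def t45396 : allY (E.wth T3) l45396 = true ∧
    allY (E.wth T3) l45397 = true ∧
    allY (E.wth T3) l45398 = true ∧
    allY (E.wth T3) l45399 = true ∧
    allY (E.wth T3) l45400 = true ∧
    allY (E.wth T3) l45401 = true ∧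
    allY (E.wth T3) l45402 = true ∧
    allY (E.wth T3) l45403 = true :=
  ⟨by decide +kernel, by decide +kernel, by decide +kernel, by decide +kernel, by decide +kernel, by decide +kernel, by decide +kernel, by decide +kernel⟩

def t45404 : allY (E.wth T3) l45404 = true ∧
    allY (E.wth T3) l45405 = true ∧
    allY (E.wth T3) l45406 = true ∧
    allY (E.wth T3) l45407 = true ∧
    allY (E.wth T3) l45408 = true ∧
    allY (E.wth T3) l45409 = true ∧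
    allY (E.wth T3) l45410 = true ∧
    allY (E.wth T3) l45411 = true :=
  ⟨by decide +kernel, by decide +kernel, by decide +kernel, by decide +kernel, by decide +kernel, by decide +kernel, by decide +kernel, by decide +kernel⟩

def t45412 : allY (E.wth T3) l45412 = true ∧
    allY (E.wth T3) l45413 = true ∧
    allY (E.wth T3) l45414 = true ∧
    allY (E.wth T3) l45415 = true ∧
    allY (E.wth T3) l45416 = true ∧
    allY (E.wth T3) l45417 = true ∧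
    allY (E.wth T3) l45418 = true ∧
    allY (E.wth T3) l45419 = true :=
  ⟨by decide +kernel, by decide +kernel, by decide +kernel, by decide +kernel, by decide +kernel, by decide +kernel, by decide +kernel, by decide +kernel⟩

def t45420 : allY (E.wth T3) l45420 = true ∧
    allY (E.wth T3) l45421 = true ∧
    allY (E.wth T3) l45422 = true ∧
    allY (E.wth T3) l45423 = true ∧
    allY (E.wth T3) l45424 = true ∧
    allY (E.wth T3) l45425 = true ∧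
    allY (E.wth T3) l45426 = true ∧
    allY (E.wth T3) l45427 = true :=
  ⟨by decide +kernel, by decide +kernel, by decide +kernel, by decide +kernel, by decide +kernel, by decide +kernel, by decide +kernel, by decide +kernel⟩

def t45428 : allY (E.wth T3) l45428 = true ∧
    allY (E.wth T3) l45429 = true ∧
    allY (E.wth T3) l45430 = true ∧
    allY (E.wth T3) l45431 = true ∧
    allY (E.wth T3) l45432 = true ∧
    allY (E.wth T3) l45433 = true ∧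
    allY (E.wth T3) l45434 = true ∧
    allY (E.wth T3) l45435 = true :=
  ⟨by decide +kernel, by decide +kernel, by decide +kernel, by decide +kernel, by decide +kernel, by decide +kernel, by decide +kernel, by decide +kernel⟩

def t45436 : allY (E.wth T3) l45436 = true ∧
    allY (E.wth T3) l45437 = true ∧
    allY (E.wth T3) l45438 = true ∧
    allY (E.wth T3) l45439 = true ∧
    allY (E.wth T3) l45440 = true ∧
    allY (E.wth T3) l45441 = true ∧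
    allY (E.wth T3) l45442 = true ∧
    allY (E.wth T3) l45443 = true :=
  ⟨by decide +kernel, by decide +kernel, by decide +kernel, by decide +kernel, by decide +kernel, by decide +kernel, by decide +kernel, by decide +kernel⟩

def t45444 : allY (E.wth T3) l45444 = true ∧
    allY (E.wth T3) l45445 = true ∧
    allY (E.wth T3) l45446 = true ∧
    allY (E.wth T3) l45447 = true ∧
    allY (E.wth T3) l45448 = true ∧
    allY (E.wth T3) l45449 = true ∧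
    allY (E.wth T3) l45450 = true ∧
    allY (E.wth T3) l45451 = true :=
  ⟨by decide +kernel, by decide +kernel, by decide +kernel, by decide +kernel, by decide +kernel, by decide +kernel, by decide +kernel, by decide +kernel⟩

def t45452 : allY (E.wth T3) l45452 = true ∧
    allY (E.wth T3) l45453 = true ∧
    allY (E.wth T3) l45454 = true ∧
    allY (E.wth T3) l45455 = true ∧
    allY (E.wth T3) l45456 = true ∧
    allY (E.wth T3) l45457 = true ∧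
    allY (E.wth T3) l45458 = true ∧
    allY (E.wth T3) l45459 = true :=
  ⟨by decide +kernel, by decide +kernel, by decide +kernel, by decide +kernel, by decide +kernel, by decide +kernel, by decide +kernel, by decide +kernel⟩

def t45460 : allY (E.wth T3) l45460 = true ∧
    allY (E.wth T3) l45461 = true ∧
    allY (E.wth T3) l45462 = true ∧
    allY (E.wth T3) l45463 = true ∧
    allY (E.wth T3) l45464 = true ∧
    allY (E.wth T3) l45465 = true ∧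
    allY (E.wth T3) l45466 = true ∧
    allY (E.wth T3) l45467 = true :=
  ⟨by decide +kernel, by decide +kernel, by decide +kernel, by decide +kernel, by decide +kernel, by decide +kernel, by decide +kernel, by decide +kernel⟩

def t45468 : allY (E.wth T3) l45468 = true ∧
    allY (E.wth T3) l45469 = true ∧
    allY (E.wth T3) l45470 = true ∧
    allY (E.wth T3) l45471 = true ∧
    allY (E.wth T3) l45472 = true ∧
    allY (E.wth T3) l45473 = true ∧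
    allY (E.wth T3) l45474 = true ∧
    allY (E.wth T3) l45475 = true :=
  ⟨by decide +kernel, by decide +kernel, by decide +kernel, by decide +kernel, by decide +kernel, by decide +kernel, by decide +kernel, by decide +kernel⟩

def t45476 : allY (E.wth T3) l45476 = true ∧
    allY (E.wth T3) l45477 = true ∧
    allY (E.wth T3) l45478 = true ∧
    allY (E.wth T3) l45479 = true ∧
    allY (E.wth T3) l45480 = true ∧
    allY (E.wth T3) l45481 = true ∧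
    allY (E.wth T3) l45482 = true ∧
    allY (E.wth T3) l45483 = true :=
  ⟨by decide +kernel, by decide +kernel, by decide +kernel, by decide +kernel, by decide +kernel, by decide +kernel, by decide +kernel, by decide +kernel⟩

def t45484 : allY (E.wth T3) l45484 = true ∧
    allY (E.wth T3) l45485 = true ∧
    allY (E.wth T3) l45486 = true ∧
    allY (E.wth T3) l45487 = true ∧
    allY (E.wth T3) l45488 = true ∧
    allY (E.wth T3) l45489 = true ∧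
    allY (E.wth T3) l45490 = true ∧
    allY (E.wth T3) l45491 = true :=
  ⟨by decide +kernel, by decide +kernel, by decide +kernel, by decide +kernel, by decide +kernel, by decide +kernel, by decide +kernel, by decide +kernel⟩

def t45492 : allY (E.wth T3) l45492 = true ∧
    allY (E.wth T3) l45493 = true ∧
    allY (E.wth T3) l45494 = true ∧
    allY (E.wth T3) l45495 = true ∧
    allY (E.wth T3) l45496 = true ∧
    allY (E.wth T3) l45497 = true :=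
  ⟨by decide +kernel, by decide +kernel, by decide +kernel, by decide +kernel, by decide +kernel, by decide +kernel⟩

theorem a83 {p : Rf → Prop} (H : ∀ l, allY (E.wth T3) l = true → (lkp l).All p) :
    b83.All p := ⟨⟨⟨⟨⟨⟨⟨⟨⟨H _ t44916.1, H _ t44916.2.1⟩, ⟨H _ t44916.2.2.1, H _ t44916.2.2.2.1⟩⟩, ⟨⟨H _ t44916.2.2.2.2.1, H _ t44916.2.2.2.2.2.1⟩, ⟨H _ t44916.2.2.2.2.2.2.1, ⟨H _ t44916.2.2.2.2.2.2.2, H _ t44924.1⟩⟩⟩⟩, ⟨⟨⟨H _ t44924.2.1, H _ t44924.2.2.1⟩, ⟨H _ t44924.2.2.2.1, H _ t44924.2.2.2.2.1⟩⟩, ⟨⟨H _ t44924.2.2.2.2.2.1, H _ t44924.2.2.2.2.2.2.1⟩, ⟨H _ t44924.2.2.2.2.2.2.2, ⟨H _ t44932.1, H _ t44932.2.1⟩⟩⟩⟩⟩, ⟨⟨⟨⟨H _ t44932.2.2.1, H _ t44932.2.2.2.1⟩, ⟨H _ t44932.2.2.2.2.1, H _ t44932.2.2.2.2.2.1⟩⟩, ⟨⟨H _ t44932.2.2.2.2.2.2.1, H _ t44932.2.2.2.2.2.2.2⟩, ⟨H _ t44940.1, ⟨H _ t44940.2.1, H _ t44940.2.2.1⟩⟩⟩⟩, ⟨⟨⟨H _ t44940.2.2.2.1, H _ t44940.2.2.2.2.1⟩, ⟨H _ t44940.2.2.2.2.2.1, H _ t44940.2.2.2.2.2.2.1⟩⟩,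 ⟨⟨H _ t44940.2.2.2.2.2.2.2, H _ t44948.1⟩, ⟨H _ t44948.2.1, ⟨H _ t44948.2.2.1, H _ t44948.2.2.2.1⟩⟩⟩⟩⟩⟩, ⟨⟨⟨⟨⟨H _ t44948.2.2.2.2.1, H _ t44948.2.2.2.2.2.1⟩, ⟨H _ t44948.2.2.2.2.2.2.1, H _ t44948.2.2.2.2.2.2.2⟩⟩, ⟨⟨H _ t44956.1, H _ t44956.2.1⟩, ⟨H _ t44956.2.2.1, ⟨H _ t44956.2.2.2.1, H _ t44956.2.2.2.2.1⟩⟩⟩⟩, ⟨⟨⟨H _ t44956.2.2.2.2.2.1, H _ t44956.2.2.2.2.2.2.1⟩, ⟨H _ t44956.2.2.2.2.2.2.2, H _ t44964.1⟩⟩, ⟨⟨H _ t44964.2.1, H _ t44964.2.2.1⟩, ⟨H _ t44964.2.2.2.1, ⟨H _ t44964.2.2.2.2.1, H _ t44964.2.2.2.2.2.1⟩⟩⟩⟩⟩, ⟨⟨⟨⟨H _ t44964.2.2.2.2.2.2.1, H _ t44964.2.2.2.2.2.2.2⟩, ⟨H _ t44972.1, H _ t44972.2.1⟩⟩, ⟨⟨H _ t44972.2.2.1, H _ t44972.2.2.2.1⟩, ⟨H _ t44972.2.2.2.2.1, ⟨H _ t44972.2.2.2.2.2.1, H _ t44972.2.2.2.2.2.2.1⟩⟩⟩⟩, ⟨⟨⟨H _ t44972.2.2.2.2.2.2.2, H _ t44980.1⟩, ⟨H _ t44980.2.1, H _ t44980.2.2.1⟩⟩, ⟨⟨H _ t44980.2.2.2.1, H _ t44980.2.2.2.2.1⟩, ⟨H _ t44980.2.2.2.2.2.1, ⟨H _ t44980.2.2.2.2.2.2.1,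 H _ t44980.2.2.2.2.2.2.2⟩⟩⟩⟩⟩⟩⟩, ⟨⟨⟨⟨⟨⟨H _ t44988.1, H _ t44988.2.1⟩, ⟨H _ t44988.2.2.1, H _ t44988.2.2.2.1⟩⟩, ⟨⟨H _ t44988.2.2.2.2.1, H _ t44988.2.2.2.2.2.1⟩, ⟨H _ t44988.2.2.2.2.2.2.1, ⟨H _ t44988.2.2.2.2.2.2.2, H _ t44996.1⟩⟩⟩⟩, ⟨⟨⟨H _ t44996.2.1, H _ t44996.2.2.1⟩, ⟨H _ t44996.2.2.2.1, H _ t44996.2.2.2.2.1⟩⟩, ⟨⟨H _ t44996.2.2.2.2.2.1, H _ t44996.2.2.2.2.2.2.1⟩, ⟨H _ t44996.2.2.2.2.2.2.2, ⟨H _ t45004.1, H _ t45004.2.1⟩⟩⟩⟩⟩, ⟨⟨⟨⟨H _ t45004.2.2.1, H _ t45004.2.2.2.1⟩, ⟨H _ t45004.2.2.2.2.1, H _ t45004.2.2.2.2.2.1⟩⟩, ⟨⟨H _ t45004.2.2.2.2.2.2.1, H _ t45004.2.2.2.2.2.2.2⟩, ⟨H _ t45012.1, ⟨H _ t45012.2.1, H _ t45012.2.2.1⟩⟩⟩⟩, ⟨⟨⟨H _ t45012.2.2.2.1, H _ t45012.2.2.2.2.1⟩, ⟨H _ t45012.2.2.2.2.2.1, H _ t45012.2.2.2.2.2.2.1⟩⟩, ⟨⟨H _ t45012.2.2.2.2.2.2.2, H _ t45020.1⟩, ⟨H _ t45020.2.1, ⟨H _ t45020.2.2.1, H _ t45020.2.2.2.1⟩⟩⟩⟩⟩⟩, ⟨⟨⟨⟨⟨H _ t45020.2.2.2.2.1, H _ t45020.2.2.2.2.2.1⟩, ⟨H _ t45020.2.2.2.2.2.2.1,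 H _ t45020.2.2.2.2.2.2.2⟩⟩, ⟨⟨H _ t45028.1, H _ t45028.2.1⟩, ⟨H _ t45028.2.2.1, ⟨H _ t45028.2.2.2.1, H _ t45028.2.2.2.2.1⟩⟩⟩⟩, ⟨⟨⟨H _ t45028.2.2.2.2.2.1, H _ t45028.2.2.2.2.2.2.1⟩, ⟨H _ t45028.2.2.2.2.2.2.2, H _ t45036.1⟩⟩, ⟨⟨H _ t45036.2.1, H _ t45036.2.2.1⟩, ⟨H _ t45036.2.2.2.1, ⟨H _ t45036.2.2.2.2.1, H _ t45036.2.2.2.2.2.1⟩⟩⟩⟩⟩, ⟨⟨⟨⟨H _ t45036.2.2.2.2.2.2.1, H _ t45036.2.2.2.2.2.2.2⟩, ⟨H _ t45044.1, H _ t45044.2.1⟩⟩, ⟨⟨H _ t45044.2.2.1, H _ t45044.2.2.2.1⟩, ⟨H _ t45044.2.2.2.2.1, ⟨H _ t45044.2.2.2.2.2.1, H _ t45044.2.2.2.2.2.2.1⟩⟩⟩⟩, ⟨⟨⟨H _ t45044.2.2.2.2.2.2.2, H _ t45052.1⟩, ⟨H _ t45052.2.1, ⟨H _ t45052.2.2.1, H _ t45052.2.2.2.1⟩⟩⟩, ⟨⟨H _ t45052.2.2.2.2.1, H _ t45052.2.2.2.2.2.1⟩, ⟨H _ t45052.2.2.2.2.2.2.1, ⟨H _ t45052.2.2.2.2.2.2.2, H _ t45060.1⟩⟩⟩⟩⟩⟩⟩⟩, ⟨⟨⟨⟨⟨⟨⟨H _ t45060.2.1, H _ t45060.2.2.1⟩, ⟨H _ t45060.2.2.2.1, H _ t45060.2.2.2.2.1⟩⟩, ⟨⟨H _ t45060.2.2.2.2.2.1, H _ t45060.2.2.2.2.2.2.1⟩,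 ⟨H _ t45060.2.2.2.2.2.2.2, ⟨H _ t45068.1, H _ t45068.2.1⟩⟩⟩⟩, ⟨⟨⟨H _ t45068.2.2.1, H _ t45068.2.2.2.1⟩, ⟨H _ t45068.2.2.2.2.1, H _ t45068.2.2.2.2.2.1⟩⟩, ⟨⟨H _ t45068.2.2.2.2.2.2.1, H _ t45068.2.2.2.2.2.2.2⟩, ⟨H _ t45076.1, ⟨H _ t45076.2.1, H _ t45076.2.2.1⟩⟩⟩⟩⟩, ⟨⟨⟨⟨H _ t45076.2.2.2.1, H _ t45076.2.2.2.2.1⟩, ⟨H _ t45076.2.2.2.2.2.1, H _ t45076.2.2.2.2.2.2.1⟩⟩, ⟨⟨H _ t45076.2.2.2.2.2.2.2, H _ t45084.1⟩, ⟨H _ t45084.2.1, ⟨H _ t45084.2.2.1, H _ t45084.2.2.2.1⟩⟩⟩⟩, ⟨⟨⟨H _ t45084.2.2.2.2.1, H _ t45084.2.2.2.2.2.1⟩, ⟨H _ t45084.2.2.2.2.2.2.1, H _ t45084.2.2.2.2.2.2.2⟩⟩, ⟨⟨H _ t45092.1, H _ t45092.2.1⟩, ⟨H _ t45092.2.2.1, ⟨H _ t45092.2.2.2.1, H _ t45092.2.2.2.2.1⟩⟩⟩⟩⟩⟩, ⟨⟨⟨⟨⟨H _ t45092.2.2.2.2.2.1, H _ t45092.2.2.2.2.2.2.1⟩, ⟨H _ t45092.2.2.2.2.2.2.2, H _ t45100.1⟩⟩, ⟨⟨H _ t45100.2.1, H _ t45100.2.2.1⟩, ⟨H _ t45100.2.2.2.1, ⟨H _ t45100.2.2.2.2.1, H _ t45100.2.2.2.2.2.1⟩⟩⟩⟩, ⟨⟨⟨H _ t45100.2.2.2.2.2.2.1,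 H _ t45100.2.2.2.2.2.2.2⟩, ⟨H _ t45108.1, H _ t45108.2.1⟩⟩, ⟨⟨H _ t45108.2.2.1, H _ t45108.2.2.2.1⟩, ⟨H _ t45108.2.2.2.2.1, ⟨H _ t45108.2.2.2.2.2.1, H _ t45108.2.2.2.2.2.2.1⟩⟩⟩⟩⟩, ⟨⟨⟨⟨H _ t45108.2.2.2.2.2.2.2, H _ t45116.1⟩, ⟨H _ t45116.2.1, H _ t45116.2.2.1⟩⟩, ⟨⟨H _ t45116.2.2.2.1, H _ t45116.2.2.2.2.1⟩, ⟨H _ t45116.2.2.2.2.2.1, ⟨H _ t45116.2.2.2.2.2.2.1, H _ t45116.2.2.2.2.2.2.2⟩⟩⟩⟩, ⟨⟨⟨H _ t45124.1, H _ t45124.2.1⟩, ⟨H _ t45124.2.2.1, ⟨H _ t45124.2.2.2.1, H _ t45124.2.2.2.2.1⟩⟩⟩, ⟨⟨H _ t45124.2.2.2.2.2.1, H _ t45124.2.2.2.2.2.2.1⟩, ⟨H _ t45124.2.2.2.2.2.2.2, ⟨H _ t45132.1, H _ t45132.2.1⟩⟩⟩⟩⟩⟩⟩, ⟨⟨⟨⟨⟨⟨H _ t45132.2.2.1, H _ t45132.2.2.2.1⟩, ⟨H _ t45132.2.2.2.2.1, H _ t45132.2.2.2.2.2.1⟩⟩, ⟨⟨H _ t45132.2.2.2.2.2.2.1, H _ t45132.2.2.2.2.2.2.2⟩, ⟨H _ t45140.1, ⟨H _ t45140.2.1, H _ t45140.2.2.1⟩⟩⟩⟩, ⟨⟨⟨H _ t45140.2.2.2.1, H _ t45140.2.2.2.2.1⟩, ⟨H _ t45140.2.2.2.2.2.1, H _ t45140.2.2.2.2.2.2.1⟩⟩,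 ⟨⟨H _ t45140.2.2.2.2.2.2.2, H _ t45148.1⟩, ⟨H _ t45148.2.1, ⟨H _ t45148.2.2.1, H _ t45148.2.2.2.1⟩⟩⟩⟩⟩, ⟨⟨⟨⟨H _ t45148.2.2.2.2.1, H _ t45148.2.2.2.2.2.1⟩, ⟨H _ t45148.2.2.2.2.2.2.1, H _ t45148.2.2.2.2.2.2.2⟩⟩, ⟨⟨H _ t45156.1, H _ t45156.2.1⟩, ⟨H _ t45156.2.2.1, ⟨H _ t45156.2.2.2.1, H _ t45156.2.2.2.2.1⟩⟩⟩⟩, ⟨⟨⟨H _ t45156.2.2.2.2.2.1, H _ t45156.2.2.2.2.2.2.1⟩, ⟨H _ t45156.2.2.2.2.2.2.2, H _ t45164.1⟩⟩, ⟨⟨H _ t45164.2.1, H _ t45164.2.2.1⟩, ⟨H _ t45164.2.2.2.1, ⟨H _ t45164.2.2.2.2.1, H _ t45164.2.2.2.2.2.1⟩⟩⟩⟩⟩⟩, ⟨⟨⟨⟨⟨H _ t45164.2.2.2.2.2.2.1, H _ t45164.2.2.2.2.2.2.2⟩, ⟨H _ t45172.1, H _ t45172.2.1⟩⟩, ⟨⟨H _ t45172.2.2.1, H _ t45172.2.2.2.1⟩, ⟨H _ t45172.2.2.2.2.1, ⟨H _ t45172.2.2.2.2.2.1, H _ t45172.2.2.2.2.2.2.1⟩⟩⟩⟩, ⟨⟨⟨H _ t45172.2.2.2.2.2.2.2, H _ t45180.1⟩, ⟨H _ t45180.2.1, H _ t45180.2.2.1⟩⟩, ⟨⟨H _ t45180.2.2.2.1, H _ t45180.2.2.2.2.1⟩, ⟨H _ t45180.2.2.2.2.2.1, ⟨H _ t45180.2.2.2.2.2.2.1,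 H _ t45180.2.2.2.2.2.2.2⟩⟩⟩⟩⟩, ⟨⟨⟨⟨H _ t45188.1, H _ t45188.2.1⟩, ⟨H _ t45188.2.2.1, H _ t45188.2.2.2.1⟩⟩, ⟨⟨H _ t45188.2.2.2.2.1, H _ t45188.2.2.2.2.2.1⟩, ⟨H _ t45188.2.2.2.2.2.2.1, ⟨H _ t45188.2.2.2.2.2.2.2, H _ t45196.1⟩⟩⟩⟩, ⟨⟨⟨H _ t45196.2.1, H _ t45196.2.2.1⟩, ⟨H _ t45196.2.2.2.1, ⟨H _ t45196.2.2.2.2.1, H _ t45196.2.2.2.2.2.1⟩⟩⟩, ⟨⟨H _ t45196.2.2.2.2.2.2.1, H _ t45196.2.2.2.2.2.2.2⟩, ⟨H _ t45204.1, ⟨H _ t45204.2.1, H _ t45204.2.2.1⟩⟩⟩⟩⟩⟩⟩⟩⟩, ⟨⟨⟨⟨⟨⟨⟨⟨H _ t45204.2.2.2.1, H _ t45204.2.2.2.2.1⟩, ⟨H _ t45204.2.2.2.2.2.1, H _ t45204.2.2.2.2.2.2.1⟩⟩, ⟨⟨H _ t45204.2.2.2.2.2.2.2, H _ t45212.1⟩, ⟨H _ t45212.2.1, ⟨H _ t45212.2.2.1, H _ t45212.2.2.2.1⟩⟩⟩⟩, ⟨⟨⟨H _ t45212.2.2.2.2.1, H _ t45212.2.2.2.2.2.1⟩, ⟨H _ t45212.2.2.2.2.2.2.1, H _ t45212.2.2.2.2.2.2.2⟩⟩, ⟨⟨H _ t45220.1, H _ t45220.2.1⟩, ⟨H _ t45220.2.2.1, ⟨H _ t45220.2.2.2.1, H _ t45220.2.2.2.2.1⟩⟩⟩⟩⟩, ⟨⟨⟨⟨H _ t45220.2.2.2.2.2.1, H _ t45220.2.2.2.2.2.2.1⟩,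 ⟨H _ t45220.2.2.2.2.2.2.2, H _ t45228.1⟩⟩, ⟨⟨H _ t45228.2.1, H _ t45228.2.2.1⟩, ⟨H _ t45228.2.2.2.1, ⟨H _ t45228.2.2.2.2.1, H _ t45228.2.2.2.2.2.1⟩⟩⟩⟩, ⟨⟨⟨H _ t45228.2.2.2.2.2.2.1, H _ t45228.2.2.2.2.2.2.2⟩, ⟨H _ t45236.1, H _ t45236.2.1⟩⟩, ⟨⟨H _ t45236.2.2.1, H _ t45236.2.2.2.1⟩, ⟨H _ t45236.2.2.2.2.1, ⟨H _ t45236.2.2.2.2.2.1, H _ t45236.2.2.2.2.2.2.1⟩⟩⟩⟩⟩⟩, ⟨⟨⟨⟨⟨H _ t45236.2.2.2.2.2.2.2, H _ t45244.1⟩, ⟨H _ t45244.2.1, H _ t45244.2.2.1⟩⟩, ⟨⟨H _ t45244.2.2.2.1, H _ t45244.2.2.2.2.1⟩, ⟨H _ t45244.2.2.2.2.2.1, ⟨H _ t45244.2.2.2.2.2.2.1, H _ t45244.2.2.2.2.2.2.2⟩⟩⟩⟩, ⟨⟨⟨H _ t45252.1, H _ t45252.2.1⟩, ⟨H _ t45252.2.2.1, H _ t45252.2.2.2.1⟩⟩, ⟨⟨H _ t45252.2.2.2.2.1, H _ t45252.2.2.2.2.2.1⟩, ⟨H _ t45252.2.2.2.2.2.2.1, ⟨H _ t45252.2.2.2.2.2.2.2, H _ t45260.1⟩⟩⟩⟩⟩, ⟨⟨⟨⟨H _ t45260.2.1, H _ t45260.2.2.1⟩, ⟨H _ t45260.2.2.2.1, H _ t45260.2.2.2.2.1⟩⟩, ⟨⟨H _ t45260.2.2.2.2.2.1, H _ t45260.2.2.2.2.2.2.1⟩,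 ⟨H _ t45260.2.2.2.2.2.2.2, ⟨H _ t45268.1, H _ t45268.2.1⟩⟩⟩⟩, ⟨⟨⟨H _ t45268.2.2.1, H _ t45268.2.2.2.1⟩, ⟨H _ t45268.2.2.2.2.1, H _ t45268.2.2.2.2.2.1⟩⟩, ⟨⟨H _ t45268.2.2.2.2.2.2.1, H _ t45268.2.2.2.2.2.2.2⟩, ⟨H _ t45276.1, ⟨H _ t45276.2.1, H _ t45276.2.2.1⟩⟩⟩⟩⟩⟩⟩, ⟨⟨⟨⟨⟨⟨H _ t45276.2.2.2.1, H _ t45276.2.2.2.2.1⟩, ⟨H _ t45276.2.2.2.2.2.1, H _ t45276.2.2.2.2.2.2.1⟩⟩, ⟨⟨H _ t45276.2.2.2.2.2.2.2, H _ t45284.1⟩, ⟨H _ t45284.2.1, ⟨H _ t45284.2.2.1, H _ t45284.2.2.2.1⟩⟩⟩⟩, ⟨⟨⟨H _ t45284.2.2.2.2.1, H _ t45284.2.2.2.2.2.1⟩, ⟨H _ t45284.2.2.2.2.2.2.1, H _ t45284.2.2.2.2.2.2.2⟩⟩, ⟨⟨H _ t45292.1, H _ t45292.2.1⟩, ⟨H _ t45292.2.2.1, ⟨H _ t45292.2.2.2.1, H _ t45292.2.2.2.2.1⟩⟩⟩⟩⟩, ⟨⟨⟨⟨H _ t45292.2.2.2.2.2.1, H _ t45292.2.2.2.2.2.2.1⟩, ⟨H _ t45292.2.2.2.2.2.2.2, H _ t45300.1⟩⟩, ⟨⟨H _ t45300.2.1, H _ t45300.2.2.1⟩, ⟨H _ t45300.2.2.2.1, ⟨H _ t45300.2.2.2.2.1, H _ t45300.2.2.2.2.2.1⟩⟩⟩⟩, ⟨⟨⟨H _ t45300.2.2.2.2.2.2.1,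 H _ t45300.2.2.2.2.2.2.2⟩, ⟨H _ t45308.1, H _ t45308.2.1⟩⟩, ⟨⟨H _ t45308.2.2.1, H _ t45308.2.2.2.1⟩, ⟨H _ t45308.2.2.2.2.1, ⟨H _ t45308.2.2.2.2.2.1, H _ t45308.2.2.2.2.2.2.1⟩⟩⟩⟩⟩⟩, ⟨⟨⟨⟨⟨H _ t45308.2.2.2.2.2.2.2, H _ t45316.1⟩, ⟨H _ t45316.2.1, H _ t45316.2.2.1⟩⟩, ⟨⟨H _ t45316.2.2.2.1, H _ t45316.2.2.2.2.1⟩, ⟨H _ t45316.2.2.2.2.2.1, ⟨H _ t45316.2.2.2.2.2.2.1, H _ t45316.2.2.2.2.2.2.2⟩⟩⟩⟩, ⟨⟨⟨H _ t45324.1, H _ t45324.2.1⟩, ⟨H _ t45324.2.2.1, H _ t45324.2.2.2.1⟩⟩, ⟨⟨H _ t45324.2.2.2.2.1, H _ t45324.2.2.2.2.2.1⟩, ⟨H _ t45324.2.2.2.2.2.2.1, ⟨H _ t45324.2.2.2.2.2.2.2, H _ t45332.1⟩⟩⟩⟩⟩, ⟨⟨⟨⟨H _ t45332.2.1, H _ t45332.2.2.1⟩, ⟨H _ t45332.2.2.2.1, H _ t45332.2.2.2.2.1⟩⟩, ⟨⟨H _ t45332.2.2.2.2.2.1, H _ t45332.2.2.2.2.2.2.1⟩, ⟨H _ t45332.2.2.2.2.2.2.2, ⟨H _ t45340.1, H _ t45340.2.1⟩⟩⟩⟩, ⟨⟨⟨H _ t45340.2.2.1, H _ t45340.2.2.2.1⟩, ⟨H _ t45340.2.2.2.2.1, ⟨H _ t45340.2.2.2.2.2.1, H _ t45340.2.2.2.2.2.2.1⟩⟩⟩,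 ⟨⟨H _ t45340.2.2.2.2.2.2.2, H _ t45348.1⟩, ⟨H _ t45348.2.1, ⟨H _ t45348.2.2.1, H _ t45348.2.2.2.1⟩⟩⟩⟩⟩⟩⟩⟩, ⟨⟨⟨⟨⟨⟨⟨H _ t45348.2.2.2.2.1, H _ t45348.2.2.2.2.2.1⟩, ⟨H _ t45348.2.2.2.2.2.2.1, H _ t45348.2.2.2.2.2.2.2⟩⟩, ⟨⟨H _ t45356.1, H _ t45356.2.1⟩, ⟨H _ t45356.2.2.1, ⟨H _ t45356.2.2.2.1, H _ t45356.2.2.2.2.1⟩⟩⟩⟩, ⟨⟨⟨H _ t45356.2.2.2.2.2.1, H _ t45356.2.2.2.2.2.2.1⟩, ⟨H _ t45356.2.2.2.2.2.2.2, H _ t45364.1⟩⟩, ⟨⟨H _ t45364.2.1, H _ t45364.2.2.1⟩, ⟨H _ t45364.2.2.2.1, ⟨H _ t45364.2.2.2.2.1, H _ t45364.2.2.2.2.2.1⟩⟩⟩⟩⟩, ⟨⟨⟨⟨H _ t45364.2.2.2.2.2.2.1, H _ t45364.2.2.2.2.2.2.2⟩, ⟨H _ t45372.1, H _ t45372.2.1⟩⟩, ⟨⟨H _ t45372.2.2.1, H _ t45372.2.2.2.1⟩, ⟨H _ t45372.2.2.2.2.1, ⟨H _ t45372.2.2.2.2.2.1, H _ t45372.2.2.2.2.2.2.1⟩⟩⟩⟩, ⟨⟨⟨H _ t45372.2.2.2.2.2.2.2, H _ t45380.1⟩, ⟨H _ t45380.2.1, H _ t45380.2.2.1⟩⟩, ⟨⟨H _ t45380.2.2.2.1, H _ t45380.2.2.2.2.1⟩, ⟨H _ t45380.2.2.2.2.2.1, ⟨H _ t45380.2.2.2.2.2.2.1,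 H _ t45380.2.2.2.2.2.2.2⟩⟩⟩⟩⟩⟩, ⟨⟨⟨⟨⟨H _ t45388.1, H _ t45388.2.1⟩, ⟨H _ t45388.2.2.1, H _ t45388.2.2.2.1⟩⟩, ⟨⟨H _ t45388.2.2.2.2.1, H _ t45388.2.2.2.2.2.1⟩, ⟨H _ t45388.2.2.2.2.2.2.1, ⟨H _ t45388.2.2.2.2.2.2.2, H _ t45396.1⟩⟩⟩⟩, ⟨⟨⟨H _ t45396.2.1, H _ t45396.2.2.1⟩, ⟨H _ t45396.2.2.2.1, H _ t45396.2.2.2.2.1⟩⟩, ⟨⟨H _ t45396.2.2.2.2.2.1, H _ t45396.2.2.2.2.2.2.1⟩, ⟨H _ t45396.2.2.2.2.2.2.2, ⟨H _ t45404.1, H _ t45404.2.1⟩⟩⟩⟩⟩, ⟨⟨⟨⟨H _ t45404.2.2.1, H _ t45404.2.2.2.1⟩, ⟨H _ t45404.2.2.2.2.1, H _ t45404.2.2.2.2.2.1⟩⟩, ⟨⟨H _ t45404.2.2.2.2.2.2.1, H _ t45404.2.2.2.2.2.2.2⟩, ⟨H _ t45412.1, ⟨H _ t45412.2.1, H _ t45412.2.2.1⟩⟩⟩⟩, ⟨⟨⟨H _ t45412.2.2.2.1, H _ t45412.2.2.2.2.1⟩, ⟨H _ t45412.2.2.2.2.2.1, ⟨H _ t45412.2.2.2.2.2.2.1, H _ t45412.2.2.2.2.2.2.2⟩⟩⟩, ⟨⟨H _ t45420.1, H _ t45420.2.1⟩, ⟨H _ t45420.2.2.1, ⟨H _ t45420.2.2.2.1, H _ t45420.2.2.2.2.1⟩⟩⟩⟩⟩⟩⟩, ⟨⟨⟨⟨⟨⟨H _ t45420.2.2.2.2.2.1, H _ t45420.2.2.2.2.2.2.1⟩,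 ⟨H _ t45420.2.2.2.2.2.2.2, H _ t45428.1⟩⟩, ⟨⟨H _ t45428.2.1, H _ t45428.2.2.1⟩, ⟨H _ t45428.2.2.2.1, ⟨H _ t45428.2.2.2.2.1, H _ t45428.2.2.2.2.2.1⟩⟩⟩⟩, ⟨⟨⟨H _ t45428.2.2.2.2.2.2.1, H _ t45428.2.2.2.2.2.2.2⟩, ⟨H _ t45436.1, H _ t45436.2.1⟩⟩, ⟨⟨H _ t45436.2.2.1, H _ t45436.2.2.2.1⟩, ⟨H _ t45436.2.2.2.2.1, ⟨H _ t45436.2.2.2.2.2.1, H _ t45436.2.2.2.2.2.2.1⟩⟩⟩⟩⟩, ⟨⟨⟨⟨H _ t45436.2.2.2.2.2.2.2, H _ t45444.1⟩, ⟨H _ t45444.2.1, H _ t45444.2.2.1⟩⟩, ⟨⟨H _ t45444.2.2.2.1, H _ t45444.2.2.2.2.1⟩, ⟨H _ t45444.2.2.2.2.2.1, ⟨H _ t45444.2.2.2.2.2.2.1, H _ t45444.2.2.2.2.2.2.2⟩⟩⟩⟩, ⟨⟨⟨H _ t45452.1, H _ t45452.2.1⟩, ⟨H _ t45452.2.2.1, H _ t45452.2.2.2.1⟩⟩, ⟨⟨H _ t45452.2.2.2.2.1, H _ t45452.2.2.2.2.2.1⟩, ⟨H _ t45452.2.2.2.2.2.2.1, ⟨H _ t45452.2.2.2.2.2.2.2, H _ t45460.1⟩⟩⟩⟩⟩⟩, ⟨⟨⟨⟨⟨H _ t45460.2.1, H _ t45460.2.2.1⟩, ⟨H _ t45460.2.2.2.1, H _ t45460.2.2.2.2.1⟩⟩, ⟨⟨H _ t45460.2.2.2.2.2.1, H _ t45460.2.2.2.2.2.2.1⟩,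 ⟨H _ t45460.2.2.2.2.2.2.2, ⟨H _ t45468.1, H _ t45468.2.1⟩⟩⟩⟩, ⟨⟨⟨H _ t45468.2.2.1, H _ t45468.2.2.2.1⟩, ⟨H _ t45468.2.2.2.2.1, H _ t45468.2.2.2.2.2.1⟩⟩, ⟨⟨H _ t45468.2.2.2.2.2.2.1, H _ t45468.2.2.2.2.2.2.2⟩, ⟨H _ t45476.1, ⟨H _ t45476.2.1, H _ t45476.2.2.1⟩⟩⟩⟩⟩, ⟨⟨⟨⟨H _ t45476.2.2.2.1, H _ t45476.2.2.2.2.1⟩, ⟨H _ t45476.2.2.2.2.2.1, H _ t45476.2.2.2.2.2.2.1⟩⟩, ⟨⟨H _ t45476.2.2.2.2.2.2.2, H _ t45484.1⟩, ⟨H _ t45484.2.1, ⟨H _ t45484.2.2.1, H _ t45484.2.2.2.1⟩⟩⟩⟩, ⟨⟨⟨H _ t45484.2.2.2.2.1, H _ t45484.2.2.2.2.2.1⟩, ⟨H _ t45484.2.2.2.2.2.2.1, ⟨H _ t45484.2.2.2.2.2.2.2, H _ t45492.1⟩⟩⟩, ⟨⟨H _ t45492.2.1, H _ t45492.2.2.1⟩, ⟨H _ t45492.2.2.2.1, ⟨H _ t45492.2.2.2.2.1, H _ t45492.2.2.2.2.2⟩⟩⟩⟩⟩⟩⟩⟩⟩⟩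

end Pool.Agent.MP_c853c5_nt.X.C4950
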