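import Pool.Agent.MP_c853c5_nt.X.C4950.Env
import Pool.Agent.MP_c853c5_nt.X.C4950.Tab

set_option autoImplicit false
set_option maxRecDepth 8192
set_option linter.all false

namespace Pool.Agent.MP_c853c5_nt.X.C4950

open Pool.Agent.MP_c853c5_nt.X

def t45498 : allY (E.wth T3) l45498 = true ∧
    allY (E.wth T3) l45499 = true ∧
    allY (E.wth T3) l45500 = true ∧
    allY (E.wth T3) l45501 = true ∧
    allY (E.wth T3) l45502 = true ∧
    allY (E.wth T3) l45503 = true ∧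
    allY (E.wth T3) l45504 = true ∧
    allY (E.wth T3) l45505 = true :=
  ⟨by decide +kernel, by decide +kernel, by decide +kernel, by decide +kernel, by decide +kernel, by decide +kernel, by decide +kernel, by decide +kernel⟩

def t45506 : allY (E.wth T3) l45506 = true ∧
    allY (E.wth T3) l45507 = true ∧
    allY (E.wth T3) l45508 = true ∧
    allY (E.wth T3) l45509 = true ∧
    allY (E.wth T3) l45510 = true ∧
    allY (E.wth T3) l45511 = true ∧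
    allY (E.wth T3) l45512 = true ∧
    allY (E.wth T3) l45513 = true :=
  ⟨by decide +kernel, by decide +kernel, by decide +kernel, by decide +kernel, by decide +kernel, by decide +kernel, by decide +kernel, by decide +kernel⟩

def t45514 : allY (E.wth T3) l45514 = true ∧
    allY (E.wth T3) l45515 = true ∧
    allY (E.wth T3) l45516 = true ∧
    allY (E.wth T3) l45517 = true ∧
    allY (E.wth T3) l45518 = true ∧
    allY (E.wth T3) l45519 = true ∧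
    allY (E.wth T3) l45520 = true ∧
    allY (E.wth T3) l45521 = true :=
  ⟨by decide +kernel, by decide +kernel, by decide +kernel, by decide +kernel, by decide +kernel, by decide +kernel, by decide +kernel, by decide +kernel⟩

def t45522 : allY (E.wth T3) l45522 = true ∧
    allY (E.wth T3) l45523 = true ∧
    allY (E.wth T3) l45524 = true ∧
    allY (E.wth T3) l45525 = true ∧
    allY (E.wth T3) l45526 = true ∧
    allY (E.wth T3) l45527 = true ∧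
    allY (E.wth T3) l45528 = true ∧
    allY (E.wth T3) l45529 = true :=
  ⟨by decide +kernel, by decide +kernel, by decide +kernel, by decide +kernel, by decide +kernel, by decide +kernel, by decide +kernel, by decide +kernel⟩

def t45530 : allY (E.wth T3) l45530 = true ∧
    allY (E.wth T3) l45531 = true ∧
    allY (E.wth T3) l45532 = true ∧
    allY (E.wth T3) l45533 = true ∧
    allY (E.wth T3) l45534 = true ∧
    allY (E.wth T3) l45535 = true ∧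
    allY (E.wth T3) l45536 = true ∧
    allY (E.wth T3) l45537 = true :=
  ⟨by decide +kernel, by decide +kernel, by decide +kernel, by decide +kernel, by decide +kernel, by decide +kernel, by decide +kernel, by decide +kernel⟩

def t45538 : allY (E.wth T3) l45538 = true ∧
    allY (E.wth T3) l45539 = true ∧
    allY (E.wth T3) l45540 = true ∧
    allY (E.wth T3) l45541 = true ∧
    allY (E.wth T3) l45542 = true ∧
    allY (E.wth T3) l45543 = true ∧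
    allY (E.wth T3) l45544 = true ∧
    allY (E.wth T3) l45545 = true :=
  ⟨by decide +kernel, by decide +kernel, by decide +kernel, by decide +kernel, by decide +kernel, by decide +kernel, by decide +kernel, by decide +kernel⟩

def t45546 : allY (E.wth T3) l45546 = true ∧
    allY (E.wth T3) l45547 = true ∧
    allY (E.wth T3) l45548 = true ∧
    allY (E.wth T3) l45549 = true ∧
    allY (E.wth T3) l45550 = true ∧
    allY (E.wth T3) l45551 = true ∧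
    allY (E.wth T3) l45552 = true ∧
    allY (E.wth T3) l45553 = true :=
  ⟨by decide +kernel, by decide +kernel, by decide +kernel, by decide +kernel, by decide +kernel, by decide +kernel, by decide +kernel, by decide +kernel⟩

def t45554 : allY (E.wth T3) l45554 = true ∧
    allY (E.wth T3) l45555 = true ∧
    allY (E.wth T3) l45556 = true ∧
    allY (E.wth T3) l45557 = true ∧
    allY (E.wth T3) l45558 = true ∧
    allY (E.wth T3) l45559 = true ∧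
    allY (E.wth T3) l45560 = true ∧
    allY (E.wth T3) l45561 = true :=
  ⟨by decide +kernel, by decide +kernel, by decide +kernel, by decide +kernel, by decide +kernel, by decide +kernel, by decide +kernel, by decide +kernel⟩

def t45562 : allY (E.wth T3) l45562 = true ∧
    allY (E.wth T3) l45563 = true ∧
    allY (E.wth T3) l45564 = true ∧
    allY (E.wth T3) l45565 = true ∧
    allY (E.wth T3) l45566 = true ∧
    allY (E.wth T3) l45567 = true ∧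
    allY (E.wth T3) l45568 = true ∧
    allY (E.wth T3) l45569 = true :=
  ⟨by decide +kernel, by decide +kernel, by decide +kernel, by decide +kernel, by decide +kernel, by decide +kernel, by decide +kernel, by decide +kernel⟩

def t45570 : allY (E.wth T3) l45570 = true ∧
    allY (E.wth T3) l45571 = true ∧
    allY (E.wth T3) l45572 = true ∧
    allY (E.wth T3) l45573 = true ∧
    allY (E.wth T3) l45574 = true ∧
    allY (E.wth T3) l45575 = true ∧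
    allY (E.wth T3) l45576 = true ∧
    allY (E.wth T3) l45577 = true :=
  ⟨by decide +kernel, by decide +kernel, by decide +kernel, by decide +kernel, by decide +kernel, by decide +kernel, by decide +kernel, by decide +kernel⟩

def t45578 : allY (E.wth T3) l45578 = true ∧
    allY (E.wth T3) l45579 = true ∧
    allY (E.wth T3) l45580 = true ∧
    allY (E.wth T3) l45581 = true ∧
    allY (E.wth T3) l45582 = true ∧
    allY (E.wth T3) l45583 = true ∧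
    allY (E.wth T3) l45584 = true ∧
    allY (E.wth T3) l45585 = true :=
  ⟨by decide +kernel, by decide +kernel, by decide +kernel, by decide +kernel, by decide +kernel, by decide +kernel, by decide +kernel, by decide +kernel⟩

def t45586 : allY (E.wth T3) l45586 = true ∧
    allY (E.wth T3) l45587 = true ∧
    allY (E.wth T3) l45588 = true ∧
    allY (E.wth T3) l45589 = true ∧
    allY (E.wth T3) l45590 = true ∧
    allY (E.wth T3) l45591 = true ∧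
    allY (E.wth T3) l45592 = true ∧
    allY (E.wth T3) l45593 = true :=
  ⟨by decide +kernel, by decide +kernel, by decide +kernel, by decide +kernel, by decide +kernel, by decide +kernel, by decide +kernel, by decide +kernel⟩

def t45594 : allY (E.wth T3) l45594 = true ∧
    allY (E.wth T3) l45595 = true ∧
    allY (E.wth T3) l45596 = true ∧
    allY (E.wth T3) l45597 = true ∧
    allY (E.wth T3) l45598 = true ∧
    allY (E.wth T3) l45599 = true ∧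
    allY (E.wth T3) l45600 = true ∧
    allY (E.wth T3) l45601 = true :=
  ⟨by decide +kernel, by decide +kernel, by decide +kernel, by decide +kernel, by decide +kernel, by decide +kernel, by decide +kernel, by decide +kernel⟩

def t45602 : allY (E.wth T3) l45602 = true ∧
    allY (E.wth T3) l45603 = true ∧
    allY (E.wth T3) l45604 = true ∧
    allY (E.wth T3) l45605 = true ∧
    allY (E.wth T3) l45606 = true ∧
    allY (E.wth T3) l45607 = true ∧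
    allY (E.wth T3) l45608 = true ∧
    allY (E.wth T3) l45609 = true :=
  ⟨by decide +kernel, by decide +kernel, by decide +kernel, by decide +kernel, by decide +kernel, by decide +kernel, by decide +kernel, by decide +kernel⟩

def t45610 : allY (E.wth T3) l45610 = true ∧
    allY (E.wth T3) l45611 = true ∧
    allY (E.wth T3) l45612 = true ∧
    allY (E.wth T3) l45613 = true ∧
    allY (E.wth T3) l45614 = true ∧
    allY (E.wth T3) l45615 = true ∧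
    allY (E.wth T3) l45616 = true ∧
    allY (E.wth T3) l45617 = true :=
  ⟨by decide +kernel, by decide +kernel, by decide +kernel, by decide +kernel, by decide +kernel, by decide +kernel, by decide +kernel, by decide +kernel⟩

def t45618 : allY (E.wth T3) l45618 = true ∧
    allY (E.wth T3) l45619 = true ∧
    allY (E.wth T3) l45620 = true ∧
    allY (E.wth T3) l45621 = true ∧
    allY (E.wth T3) l45622 = true ∧
    allY (E.wth T3) l45623 = true ∧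
    allY (E.wth T3) l45624 = true ∧
    allY (E.wth T3) l45625 = true :=
  ⟨by decide +kernel, by decide +kernel, by decide +kernel, by decide +kernel, by decide +kernel, by decide +kernel, by decide +kernel, by decide +kernel⟩

def t45626 : allY (E.wth T3) l45626 = true ∧
    allY (E.wth T3) l45627 = true ∧
    allY (E.wth T3) l45628 = true ∧
    allY (E.wth T3) l45629 = true ∧
    allY (E.wth T3) l45630 = true ∧
    allY (E.wth T3) l45631 = true ∧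
    allY (E.wth T3) l45632 = true ∧
    allY (E.wth T3) l45633 = true :=
  ⟨by decide +kernel, by decide +kernel, by decide +kernel, by decide +kernel, by decide +kernel, by decide +kernel, by decide +kernel, by decide +kernel⟩

def t45634 : allY (E.wth T3) l45634 = true ∧
    allY (E.wth T3) l45635 = true ∧
    allY (E.wth T3) l45636 = true ∧
    allY (E.wth T3) l45637 = true ∧
    allY (E.wth T3) l45638 = true ∧
    allY (E.wth T3) l45639 = true ∧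
    allY (E.wth T3) l45640 = true ∧
    allY (E.wth T3) l45641 = true :=
  ⟨by decide +kernel, by decide +kernel, by decide +kernel, by decide +kernel, by decide +kernel, by decide +kernel, by decide +kernel, by decide +kernel⟩

def t45642 : allY (E.wth T3) l45642 = true ∧
    allY (E.wth T3) l45643 = true ∧
    allY (E.wth T3) l45644 = true ∧
    allY (E.wth T3) l45645 = true ∧
    allY (E.wth T3) l45646 = true :=
  ⟨by decide +kernel, by decide +kernel, by decide +kernel, by decide +kernel, by decide +kernel⟩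

theorem a84 {p : Rf → Prop} (H : ∀ l, allY (E.wth T3) l = true → (lkp l).All p) :
    b84.All p := ⟨⟨⟨⟨⟨⟨⟨H _ t45498.1, H _ t45498.2.1⟩, ⟨H _ t45498.2.2.1, H _ t45498.2.2.2.1⟩⟩, ⟨⟨H _ t45498.2.2.2.2.1, H _ t45498.2.2.2.2.2.1⟩, ⟨H _ t45498.2.2.2.2.2.2.1, ⟨H _ t45498.2.2.2.2.2.2.2, H _ t45506.1⟩⟩⟩⟩, ⟨⟨⟨H _ t45506.2.1, H _ t45506.2.2.1⟩, ⟨H _ t45506.2.2.2.1, H _ t45506.2.2.2.2.1⟩⟩, ⟨⟨H _ t45506.2.2.2.2.2.1, H _ t45506.2.2.2.2.2.2.1⟩, ⟨H _ t45506.2.2.2.2.2.2.2, ⟨H _ t45514.1, H _ t45514.2.1⟩⟩⟩⟩⟩, ⟨⟨⟨⟨H _ t45514.2.2.1, H _ t45514.2.2.2.1⟩, ⟨H _ t45514.2.2.2.2.1, H _ t45514.2.2.2.2.2.1⟩⟩, ⟨⟨H _ t45514.2.2.2.2.2.2.1, H _ t45514.2.2.2.2.2.2.2⟩, ⟨H _ t45522.1, ⟨H _ t45522.2.1, H _ t45522.2.2.1⟩⟩⟩⟩, ⟨⟨⟨H _ t45522.2.2.2.1, H _ t45522.2.2.2.2.1⟩, ⟨H _ t45522.2.2.2.2.2.1, ⟨H _ t45522.2.2.2.2.2.2.1, H _ t45522.2.2.2.2.2.2.2⟩⟩⟩, ⟨⟨H _ t45530.1, H _ t45530.2.1⟩, ⟨H _ t45530.2.2.1, ⟨H _ t45530.2.2.2.1, H _ t45530.2.2.2.2.1⟩⟩⟩⟩⟩⟩,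 ⟨⟨⟨⟨⟨H _ t45530.2.2.2.2.2.1, H _ t45530.2.2.2.2.2.2.1⟩, ⟨H _ t45530.2.2.2.2.2.2.2, H _ t45538.1⟩⟩, ⟨⟨H _ t45538.2.1, H _ t45538.2.2.1⟩, ⟨H _ t45538.2.2.2.1, ⟨H _ t45538.2.2.2.2.1, H _ t45538.2.2.2.2.2.1⟩⟩⟩⟩, ⟨⟨⟨H _ t45538.2.2.2.2.2.2.1, H _ t45538.2.2.2.2.2.2.2⟩, ⟨H _ t45546.1, H _ t45546.2.1⟩⟩, ⟨⟨H _ t45546.2.2.1, H _ t45546.2.2.2.1⟩, ⟨H _ t45546.2.2.2.2.1, ⟨H _ t45546.2.2.2.2.2.1, H _ t45546.2.2.2.2.2.2.1⟩⟩⟩⟩⟩, ⟨⟨⟨⟨H _ t45546.2.2.2.2.2.2.2, H _ t45554.1⟩, ⟨H _ t45554.2.1, H _ t45554.2.2.1⟩⟩, ⟨⟨H _ t45554.2.2.2.1, H _ t45554.2.2.2.2.1⟩, ⟨H _ t45554.2.2.2.2.2.1, ⟨H _ t45554.2.2.2.2.2.2.1, H _ t45554.2.2.2.2.2.2.2⟩⟩⟩⟩, ⟨⟨⟨H _ t45562.1, H _ t45562.2.1⟩, ⟨H _ t45562.2.2.1, ⟨H _ t45562.2.2.2.1, H _ t45562.2.2.2.2.1⟩⟩⟩, ⟨⟨H _ t45562.2.2.2.2.2.1, H _ t45562.2.2.2.2.2.2.1⟩, ⟨H _ t45562.2.2.2.2.2.2.2, ⟨H _ t45570.1, H _ t45570.2.1⟩⟩⟩⟩⟩⟩⟩, ⟨⟨⟨⟨⟨⟨H _ t45570.2.2.1, H _ t45570.2.2.2.1⟩, ⟨H _ t45570.2.2.2.2.1,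 H _ t45570.2.2.2.2.2.1⟩⟩, ⟨⟨H _ t45570.2.2.2.2.2.2.1, H _ t45570.2.2.2.2.2.2.2⟩, ⟨H _ t45578.1, ⟨H _ t45578.2.1, H _ t45578.2.2.1⟩⟩⟩⟩, ⟨⟨⟨H _ t45578.2.2.2.1, H _ t45578.2.2.2.2.1⟩, ⟨H _ t45578.2.2.2.2.2.1, H _ t45578.2.2.2.2.2.2.1⟩⟩, ⟨⟨H _ t45578.2.2.2.2.2.2.2, H _ t45586.1⟩, ⟨H _ t45586.2.1, ⟨H _ t45586.2.2.1, H _ t45586.2.2.2.1⟩⟩⟩⟩⟩, ⟨⟨⟨⟨H _ t45586.2.2.2.2.1, H _ t45586.2.2.2.2.2.1⟩, ⟨H _ t45586.2.2.2.2.2.2.1, H _ t45586.2.2.2.2.2.2.2⟩⟩, ⟨⟨H _ t45594.1, H _ t45594.2.1⟩, ⟨H _ t45594.2.2.1, ⟨H _ t45594.2.2.2.1, H _ t45594.2.2.2.2.1⟩⟩⟩⟩, ⟨⟨⟨H _ t45594.2.2.2.2.2.1, H _ t45594.2.2.2.2.2.2.1⟩, ⟨H _ t45594.2.2.2.2.2.2.2, ⟨H _ t45602.1, H _ t45602.2.1⟩⟩⟩, ⟨⟨H _ t45602.2.2.1, H _ t45602.2.2.2.1⟩, ⟨H _ t45602.2.2.2.2.1, ⟨H _ t45602.2.2.2.2.2.1, H _ t45602.2.2.2.2.2.2.1⟩⟩⟩⟩⟩⟩, ⟨⟨⟨⟨⟨H _ t45602.2.2.2.2.2.2.2, H _ t45610.1⟩, ⟨H _ t45610.2.1, H _ t45610.2.2.1⟩⟩, ⟨⟨H _ t45610.2.2.2.1, H _ t45610.2.2.2.2.1⟩,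 ⟨H _ t45610.2.2.2.2.2.1, ⟨H _ t45610.2.2.2.2.2.2.1, H _ t45610.2.2.2.2.2.2.2⟩⟩⟩⟩, ⟨⟨⟨H _ t45618.1, H _ t45618.2.1⟩, ⟨H _ t45618.2.2.1, ⟨H _ t45618.2.2.2.1, H _ t45618.2.2.2.2.1⟩⟩⟩, ⟨⟨H _ t45618.2.2.2.2.2.1, H _ t45618.2.2.2.2.2.2.1⟩, ⟨H _ t45618.2.2.2.2.2.2.2, ⟨H _ t45626.1, H _ t45626.2.1⟩⟩⟩⟩⟩, ⟨⟨⟨⟨H _ t45626.2.2.1, H _ t45626.2.2.2.1⟩, ⟨H _ t45626.2.2.2.2.1, H _ t45626.2.2.2.2.2.1⟩⟩, ⟨⟨H _ t45626.2.2.2.2.2.2.1, H _ t45626.2.2.2.2.2.2.2⟩, ⟨H _ t45634.1, ⟨H _ t45634.2.1, H _ t45634.2.2.1⟩⟩⟩⟩, ⟨⟨⟨H _ t45634.2.2.2.1, H _ t45634.2.2.2.2.1⟩, ⟨H _ t45634.2.2.2.2.2.1, ⟨H _ t45634.2.2.2.2.2.2.1, H _ t45634.2.2.2.2.2.2.2⟩⟩⟩, ⟨⟨H _ t45642.1, H _ t45642.2.1⟩, ⟨H _ t45642.2.2.1, ⟨H _ t45642.2.2.2.1, H _ t45642.2.2.2.2⟩⟩⟩⟩⟩⟩⟩⟩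

def t45647 : allY (E.wth T4) l45647 = true ∧
    allY (E.wth T4) l45648 = true ∧
    allY (E.wth T4) l45649 = true ∧
    allY (E.wth T4) l45650 = true ∧
    allY (E.wth T4) l45651 = true ∧
    allY (E.wth T4) l45652 = true ∧
    allY (E.wth T4) l45653 = true ∧
    allY (E.wth T4) l45654 = true :=
  ⟨by decide +kernel, by decide +kernel, by decide +kernel, by decide +kernel, by decide +kernel, by decide +kernel, by decide +kernel, by decide +kernel⟩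

def t45655 : allY (E.wth T4) l45655 = true ∧
    allY (E.wth T4) l45656 = true ∧
    allY (E.wth T4) l45657 = true ∧
    allY (E.wth T4) l45658 = true ∧
    allY (E.wth T4) l45659 = true ∧
    allY (E.wth T4) l45660 = true ∧
    allY (E.wth T4) l45661 = true ∧
    allY (E.wth T4) l45662 = true :=
  ⟨by decide +kernel, by decide +kernel, by decide +kernel, by decide +kernel, by decide +kernel, by decide +kernel, by decide +kernel, by decide +kernel⟩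

def t45663 : allY (E.wth T4) l45663 = true ∧
    allY (E.wth T4) l45664 = true ∧
    allY (E.wth T4) l45665 = true ∧
    allY (E.wth T4) l45666 = true ∧
    allY (E.wth T4) l45667 = true ∧
    allY (E.wth T4) l45668 = true ∧
    allY (E.wth T4) l45669 = true ∧
    allY (E.wth T4) l45670 = true :=
  ⟨by decide +kernel, by decide +kernel, by decide +kernel, by decide +kernel, by decide +kernel, by decide +kernel, by decide +kernel, by decide +kernel⟩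

def t45671 : allY (E.wth T4) l45671 = true ∧
    allY (E.wth T4) l45672 = true ∧
    allY (E.wth T4) l45673 = true ∧
    allY (E.wth T4) l45674 = true ∧
    allY (E.wth T4) l45675 = true ∧
    allY (E.wth T4) l45676 = true ∧
    allY (E.wth T4) l45677 = true ∧
    allY (E.wth T4) l45678 = true :=
  ⟨by decide +kernel, by decide +kernel, by decide +kernel, by decide +kernel, by decide +kernel, by decide +kernel, by decide +kernel, by decide +kernel⟩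

def t45679 : allY (E.wth T4) l45679 = true ∧
    allY (E.wth T4) l45680 = true ∧
    allY (E.wth T4) l45681 = true ∧
    allY (E.wth T4) l45682 = true ∧
    allY (E.wth T4) l45683 = true ∧
    allY (E.wth T4) l45684 = true ∧
    allY (E.wth T4) l45685 = true ∧
    allY (E.wth T4) l45686 = true :=
  ⟨by decide +kernel, by decide +kernel, by decide +kernel, by decide +kernel, by decide +kernel, by decide +kernel, by decide +kernel, by decide +kernel⟩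

def t45687 : allY (E.wth T4) l45687 = true ∧
    allY (E.wth T4) l45688 = true ∧
    allY (E.wth T4) l45689 = true ∧
    allY (E.wth T4) l45690 = true ∧
    allY (E.wth T4) l45691 = true ∧
    allY (E.wth T4) l45692 = true ∧
    allY (E.wth T4) l45693 = true ∧
    allY (E.wth T4) l45694 = true :=
  ⟨by decide +kernel, by decide +kernel, by decide +kernel, by decide +kernel, by decide +kernel, by decide +kernel, by decide +kernel, by decide +kernel⟩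

def t45695 : allY (E.wth T4) l45695 = true ∧
    allY (E.wth T4) l45696 = true ∧
    allY (E.wth T4) l45697 = true ∧
    allY (E.wth T4) l45698 = true ∧
    allY (E.wth T4) l45699 = true ∧
    allY (E.wth T4) l45700 = true ∧
    allY (E.wth T4) l45701 = true ∧
    allY (E.wth T4) l45702 = true :=
  ⟨by decide +kernel, by decide +kernel, by decide +kernel, by decide +kernel, by decide +kernel, by decide +kernel, by decide +kernel, by decide +kernel⟩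

def t45703 : allY (E.wth T4) l45703 = true ∧
    allY (E.wth T4) l45704 = true ∧
    allY (E.wth T4) l45705 = true ∧
    allY (E.wth T4) l45706 = true ∧
    allY (E.wth T4) l45707 = true ∧
    allY (E.wth T4) l45708 = true ∧
    allY (E.wth T4) l45709 = true ∧
    allY (E.wth T4) l45710 = true :=
  ⟨by decide +kernel, by decide +kernel, by decide +kernel, by decide +kernel, by decide +kernel, by decide +kernel, by decide +kernel, by decide +kernel⟩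

def t45711 : allY (E.wth T4) l45711 = true ∧
    allY (E.wth T4) l45712 = true ∧
    allY (E.wth T4) l45713 = true ∧
    allY (E.wth T4) l45714 = true ∧
    allY (E.wth T4) l45715 = true ∧
    allY (E.wth T4) l45716 = true ∧
    allY (E.wth T4) l45717 = true ∧
    allY (E.wth T4) l45718 = true :=
  ⟨by decide +kernel, by decide +kernel, by decide +kernel, by decide +kernel, by decide +kernel, by decide +kernel, by decide +kernel, by decide +kernel⟩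

def t45719 : allY (E.wth T4) l45719 = true ∧
    allY (E.wth T4) l45720 = true ∧
    allY (E.wth T4) l45721 = true ∧
    allY (E.wth T4) l45722 = true ∧
    allY (E.wth T4) l45723 = true ∧
    allY (E.wth T4) l45724 = true ∧
    allY (E.wth T4) l45725 = true ∧
    allY (E.wth T4) l45726 = true :=
  ⟨by decide +kernel, by decide +kernel, by decide +kernel, by decide +kernel, by decide +kernel, by decide +kernel, by decide +kernel, by decide +kernel⟩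

def t45727 : allY (E.wth T4) l45727 = true ∧
    allY (E.wth T4) l45728 = true ∧
    allY (E.wth T4) l45729 = true ∧
    allY (E.wth T4) l45730 = true ∧
    allY (E.wth T4) l45731 = true ∧
    allY (E.wth T4) l45732 = true ∧
    allY (E.wth T4) l45733 = true ∧
    allY (E.wth T4) l45734 = true :=
  ⟨by decide +kernel, by decide +kernel, by decide +kernel, by decide +kernel, by decide +kernel, by decide +kernel, by decide +kernel, by decide +kernel⟩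

def t45735 : allY (E.wth T4) l45735 = true ∧
    allY (E.wth T4) l45736 = true ∧
    allY (E.wth T4) l45737 = true ∧
    allY (E.wth T4) l45738 = true ∧
    allY (E.wth T4) l45739 = true ∧
    allY (E.wth T4) l45740 = true ∧
    allY (E.wth T4) l45741 = true ∧
    allY (E.wth T4) l45742 = true :=
  ⟨by decide +kernel, by decide +kernel, by decide +kernel, by decide +kernel, by decide +kernel, by decide +kernel, by decide +kernel, by decide +kernel⟩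

def t45743 : allY (E.wth T4) l45743 = true ∧
    allY (E.wth T4) l45744 = true ∧
    allY (E.wth T4) l45745 = true ∧
    allY (E.wth T4) l45746 = true ∧
    allY (E.wth T4) l45747 = true ∧
    allY (E.wth T4) l45748 = true ∧
    allY (E.wth T4) l45749 = true ∧
    allY (E.wth T4) l45750 = true :=
  ⟨by decide +kernel, by decide +kernel, by decide +kernel, by decide +kernel, by decide +kernel, by decide +kernel, by decide +kernel, by decide +kernel⟩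

def t45751 : allY (E.wth T4) l45751 = true ∧
    allY (E.wth T4) l45752 = true ∧
    allY (E.wth T4) l45753 = true ∧
    allY (E.wth T4) l45754 = true ∧
    allY (E.wth T4) l45755 = true ∧
    allY (E.wth T4) l45756 = true ∧
    allY (E.wth T4) l45757 = true ∧
    allY (E.wth T4) l45758 = true :=
  ⟨by decide +kernel, by decide +kernel, by decide +kernel, by decide +kernel, by decide +kernel, by decide +kernel, by decide +kernel, by decide +kernel⟩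

def t45759 : allY (E.wth T4) l45759 = true ∧
    allY (E.wth T4) l45760 = true ∧
    allY (E.wth T4) l45761 = true ∧
    allY (E.wth T4) l45762 = true ∧
    allY (E.wth T4) l45763 = true ∧
    allY (E.wth T4) l45764 = true ∧
    allY (E.wth T4) l45765 = true ∧
    allY (E.wth T4) l45766 = true :=
  ⟨by decide +kernel, by decide +kernel, by decide +kernel, by decide +kernel, by decide +kernel, by decide +kernel, by decide +kernel, by decide +kernel⟩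

def t45767 : allY (E.wth T4) l45767 = true ∧
    allY (E.wth T4) l45768 = true ∧
    allY (E.wth T4) l45769 = true ∧
    allY (E.wth T4) l45770 = true ∧
    allY (E.wth T4) l45771 = true ∧
    allY (E.wth T4) l45772 = true ∧
    allY (E.wth T4) l45773 = true ∧
    allY (E.wth T4) l45774 = true :=
  ⟨by decide +kernel, by decide +kernel, by decide +kernel, by decide +kernel, by decide +kernel, by decide +kernel, by decide +kernel, by decide +kernel⟩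

def t45775 : allY (E.wth T4) l45775 = true ∧
    allY (E.wth T4) l45776 = true ∧
    allY (E.wth T4) l45777 = true ∧
    allY (E.wth T4) l45778 = true ∧
    allY (E.wth T4) l45779 = true ∧
    allY (E.wth T4) l45780 = true ∧
    allY (E.wth T4) l45781 = true ∧
    allY (E.wth T4) l45782 = true :=
  ⟨by decide +kernel, by decide +kernel, by decide +kernel, by decide +kernel, by decide +kernel, by decide +kernel, by decide +kernel, by decide +kernel⟩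

def t45783 : allY (E.wth T4) l45783 = true ∧
    allY (E.wth T4) l45784 = true ∧
    allY (E.wth T4) l45785 = true ∧
    allY (E.wth T4) l45786 = true ∧
    allY (E.wth T4) l45787 = true ∧
    allY (E.wth T4) l45788 = true ∧
    allY (E.wth T4) l45789 = true ∧
    allY (E.wth T4) l45790 = true :=
  ⟨by decide +kernel, by decide +kernel, by decide +kernel, by decide +kernel, by decide +kernel, by decide +kernel, by decide +kernel, by decide +kernel⟩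

def t45791 : allY (E.wth T4) l45791 = true ∧
    allY (E.wth T4) l45792 = true ∧
    allY (E.wth T4) l45793 = true ∧
    allY (E.wth T4) l45794 = true ∧
    allY (E.wth T4) l45795 = true ∧
    allY (E.wth T4) l45796 = true ∧
    allY (E.wth T4) l45797 = true ∧
    allY (E.wth T4) l45798 = true :=
  ⟨by decide +kernel, by decide +kernel, by decide +kernel, by decide +kernel, by decide +kernel, by decide +kernel, by decide +kernel, by decide +kernel⟩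

def t45799 : allY (E.wth T4) l45799 = true ∧
    allY (E.wth T4) l45800 = true ∧
    allY (E.wth T4) l45801 = true ∧
    allY (E.wth T4) l45802 = true ∧
    allY (E.wth T4) l45803 = true ∧
    allY (E.wth T4) l45804 = true ∧
    allY (E.wth T4) l45805 = true ∧
    allY (E.wth T4) l45806 = true :=
  ⟨by decide +kernel, by decide +kernel, by decide +kernel, by decide +kernel, by decide +kernel, by decide +kernel, by decide +kernel, by decide +kernel⟩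

def t45807 : allY (E.wth T4) l45807 = true ∧
    allY (E.wth T4) l45808 = true ∧
    allY (E.wth T4) l45809 = true ∧
    allY (E.wth T4) l45810 = true ∧
    allY (E.wth T4) l45811 = true ∧
    allY (E.wth T4) l45812 = true ∧
    allY (E.wth T4) l45813 = true ∧
    allY (E.wth T4) l45814 = true :=
  ⟨by decide +kernel, by decide +kernel, by decide +kernel, by decide +kernel, by decide +kernel, by decide +kernel, by decide +kernel, by decide +kernel⟩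

def t45815 : allY (E.wth T4) l45815 = true ∧
    allY (E.wth T4) l45816 = true ∧
    allY (E.wth T4) l45817 = true ∧
    allY (E.wth T4) l45818 = true ∧
    allY (E.wth T4) l45819 = true ∧
    allY (E.wth T4) l45820 = true ∧
    allY (E.wth T4) l45821 = true ∧
    allY (E.wth T4) l45822 = true :=
  ⟨by decide +kernel, by decide +kernel, by decide +kernel, by decide +kernel, by decide +kernel, by decide +kernel, by decide +kernel, by decide +kernel⟩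

def t45823 : allY (E.wth T4) l45823 = true ∧
    allY (E.wth T4) l45824 = true ∧
    allY (E.wth T4) l45825 = true ∧
    allY (E.wth T4) l45826 = true ∧
    allY (E.wth T4) l45827 = true ∧
    allY (E.wth T4) l45828 = true ∧
    allY (E.wth T4) l45829 = true ∧
    allY (E.wth T4) l45830 = true :=
  ⟨by decide +kernel, by decide +kernel, by decide +kernel, by decide +kernel, by decide +kernel, by decide +kernel, by decide +kernel, by decide +kernel⟩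

def t45831 : allY (E.wth T4) l45831 = true ∧
    allY (E.wth T4) l45832 = true ∧
    allY (E.wth T4) l45833 = true ∧
    allY (E.wth T4) l45834 = true ∧
    allY (E.wth T4) l45835 = true ∧
    allY (E.wth T4) l45836 = true ∧
    allY (E.wth T4) l45837 = true ∧
    allY (E.wth T4) l45838 = true :=
  ⟨by decide +kernel, by decide +kernel, by decide +kernel, by decide +kernel, by decide +kernel, by decide +kernel, by decide +kernel, by decide +kernel⟩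

def t45839 : allY (E.wth T4) l45839 = true ∧
    allY (E.wth T4) l45840 = true ∧
    allY (E.wth T4) l45841 = true ∧
    allY (E.wth T4) l45842 = true ∧
    allY (E.wth T4) l45843 = true ∧
    allY (E.wth T4) l45844 = true ∧
    allY (E.wth T4) l45845 = true ∧
    allY (E.wth T4) l45846 = true :=
  ⟨by decide +kernel, by decide +kernel, by decide +kernel, by decide +kernel, by decide +kernel, by decide +kernel, by decide +kernel, by decide +kernel⟩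

def t45847 : allY (E.wth T4) l45847 = true ∧
    allY (E.wth T4) l45848 = true ∧
    allY (E.wth T4) l45849 = true ∧
    allY (E.wth T4) l45850 = true ∧
    allY (E.wth T4) l45851 = true ∧
    allY (E.wth T4) l45852 = true ∧
    allY (E.wth T4) l45853 = true ∧
    allY (E.wth T4) l45854 = true :=
  ⟨by decide +kernel, by decide +kernel, by decide +kernel, by decide +kernel, by decide +kernel, by decide +kernel, by decide +kernel, by decide +kernel⟩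

def t45855 : allY (E.wth T4) l45855 = true ∧
    allY (E.wth T4) l45856 = true ∧
    allY (E.wth T4) l45857 = true ∧
    allY (E.wth T4) l45858 = true ∧
    allY (E.wth T4) l45859 = true ∧
    allY (E.wth T4) l45860 = true ∧
    allY (E.wth T4) l45861 = true ∧
    allY (E.wth T4) l45862 = true :=
  ⟨by decide +kernel, by decide +kernel, by decide +kernel, by decide +kernel, by decide +kernel, by decide +kernel, by decide +kernel, by decide +kernel⟩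

def t45863 : allY (E.wth T4) l45863 = true ∧
    allY (E.wth T4) l45864 = true ∧
    allY (E.wth T4) l45865 = true ∧
    allY (E.wth T4) l45866 = true ∧
    allY (E.wth T4) l45867 = true ∧
    allY (E.wth T4) l45868 = true ∧
    allY (E.wth T4) l45869 = true ∧
    allY (E.wth T4) l45870 = true :=
  ⟨by decide +kernel, by decide +kernel, by decide +kernel, by decide +kernel, by decide +kernel, by decide +kernel, by decide +kernel, by decide +kernel⟩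

def t45871 : allY (E.wth T4) l45871 = true ∧
    allY (E.wth T4) l45872 = true ∧
    allY (E.wth T4) l45873 = true ∧
    allY (E.wth T4) l45874 = true ∧
    allY (E.wth T4) l45875 = true ∧
    allY (E.wth T4) l45876 = true ∧
    allY (E.wth T4) l45877 = true ∧
    allY (E.wth T4) l45878 = true :=
  ⟨by decide +kernel, by decide +kernel, by decide +kernel, by decide +kernel, by decide +kernel, by decide +kernel, by decide +kernel, by decide +kernel⟩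

def t45879 : allY (E.wth T4) l45879 = true ∧
    allY (E.wth T4) l45880 = true ∧
    allY (E.wth T4) l45881 = true ∧
    allY (E.wth T4) l45882 = true ∧
    allY (E.wth T4) l45883 = true ∧
    allY (E.wth T4) l45884 = true ∧
    allY (E.wth T4) l45885 = true ∧
    allY (E.wth T4) l45886 = true :=
  ⟨by decide +kernel, by decide +kernel, by decide +kernel, by decide +kernel, by decide +kernel, by decide +kernel, by decide +kernel, by decide +kernel⟩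

def t45887 : allY (E.wth T4) l45887 = true ∧
    allY (E.wth T4) l45888 = true ∧
    allY (E.wth T4) l45889 = true ∧
    allY (E.wth T4) l45890 = true ∧
    allY (E.wth T4) l45891 = true ∧
    allY (E.wth T4) l45892 = true ∧
    allY (E.wth T4) l45893 = true ∧
    allY (E.wth T4) l45894 = true :=
  ⟨by decide +kernel, by decide +kernel, by decide +kernel, by decide +kernel, by decide +kernel, by decide +kernel, by decide +kernel, by decide +kernel⟩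

def t45895 : allY (E.wth T4) l45895 = true ∧
    allY (E.wth T4) l45896 = true ∧
    allY (E.wth T4) l45897 = true ∧
    allY (E.wth T4) l45898 = true ∧
    allY (E.wth T4) l45899 = true ∧
    allY (E.wth T4) l45900 = true ∧
    allY (E.wth T4) l45901 = true ∧
    allY (E.wth T4) l45902 = true :=
  ⟨by decide +kernel, by decide +kernel, by decide +kernel, by decide +kernel, by decide +kernel, by decide +kernel, by decide +kernel, by decide +kernel⟩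

def t45903 : allY (E.wth T4) l45903 = true ∧
    allY (E.wth T4) l45904 = true ∧
    allY (E.wth T4) l45905 = true ∧
    allY (E.wth T4) l45906 = true ∧
    allY (E.wth T4) l45907 = true ∧
    allY (E.wth T4) l45908 = true ∧
    allY (E.wth T4) l45909 = true ∧
    allY (E.wth T4) l45910 = true :=
  ⟨by decide +kernel, by decide +kernel, by decide +kernel, by decide +kernel, by decide +kernel, by decide +kernel, by decide +kernel, by decide +kernel⟩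

def t45911 : allY (E.wth T4) l45911 = true ∧
    allY (E.wth T4) l45912 = true ∧
    allY (E.wth T4) l45913 = true ∧
    allY (E.wth T4) l45914 = true ∧
    allY (E.wth T4) l45915 = true ∧
    allY (E.wth T4) l45916 = true ∧
    allY (E.wth T4) l45917 = true ∧
    allY (E.wth T4) l45918 = true :=
  ⟨by decide +kernel, by decide +kernel, by decide +kernel, by decide +kernel, by decide +kernel, by decide +kernel, by decide +kernel, by decide +kernel⟩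

def t45919 : allY (E.wth T4) l45919 = true ∧
    allY (E.wth T4) l45920 = true ∧
    allY (E.wth T4) l45921 = true ∧
    allY (E.wth T4) l45922 = true ∧
    allY (E.wth T4) l45923 = true ∧
    allY (E.wth T4) l45924 = true ∧
    allY (E.wth T4) l45925 = true ∧
    allY (E.wth T4) l45926 = true :=
  ⟨by decide +kernel, by decide +kernel, by decide +kernel, by decide +kernel, by decide +kernel, by decide +kernel, by decide +kernel, by decide +kernel⟩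

def t45927 : allY (E.wth T4) l45927 = true ∧
    allY (E.wth T4) l45928 = true ∧
    allY (E.wth T4) l45929 = true ∧
    allY (E.wth T4) l45930 = true ∧
    allY (E.wth T4) l45931 = true ∧
    allY (E.wth T4) l45932 = true ∧
    allY (E.wth T4) l45933 = true ∧
    allY (E.wth T4) l45934 = true :=
  ⟨by decide +kernel, by decide +kernel, by decide +kernel, by decide +kernel, by decide +kernel, by decide +kernel, by decide +kernel, by decide +kernel⟩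

def t45935 : allY (E.wth T4) l45935 = true ∧
    allY (E.wth T4) l45936 = true ∧
    allY (E.wth T4) l45937 = true ∧
    allY (E.wth T4) l45938 = true ∧
    allY (E.wth T4) l45939 = true ∧
    allY (E.wth T4) l45940 = true ∧
    allY (E.wth T4) l45941 = true ∧
    allY (E.wth T4) l45942 = true :=
  ⟨by decide +kernel, by decide +kernel, by decide +kernel, by decide +kernel, by decide +kernel, by decide +kernel, by decide +kernel, by decide +kernel⟩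

def t45943 : allY (E.wth T4) l45943 = true ∧
    allY (E.wth T4) l45944 = true ∧
    allY (E.wth T4) l45945 = true ∧
    allY (E.wth T4) l45946 = true ∧
    allY (E.wth T4) l45947 = true ∧
    allY (E.wth T4) l45948 = true ∧
    allY (E.wth T4) l45949 = true ∧
    allY (E.wth T4) l45950 = true :=
  ⟨by decide +kernel, by decide +kernel, by decide +kernel, by decide +kernel, by decide +kernel, by decide +kernel, by decide +kernel, by decide +kernel⟩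

def t45951 : allY (E.wth T4) l45951 = true ∧
    allY (E.wth T4) l45952 = true ∧
    allY (E.wth T4) l45953 = true ∧
    allY (E.wth T4) l45954 = true ∧
    allY (E.wth T4) l45955 = true ∧
    allY (E.wth T4) l45956 = true ∧
    allY (E.wth T4) l45957 = true ∧
    allY (E.wth T4) l45958 = true :=
  ⟨by decide +kernel, by decide +kernel, by decide +kernel, by decide +kernel, by decide +kernel, by decide +kernel, by decide +kernel, by decide +kernel⟩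

def t45959 : allY (E.wth T4) l45959 = true ∧
    allY (E.wth T4) l45960 = true ∧
    allY (E.wth T4) l45961 = true ∧
    allY (E.wth T4) l45962 = true ∧
    allY (E.wth T4) l45963 = true ∧
    allY (E.wth T4) l45964 = true ∧
    allY (E.wth T4) l45965 = true ∧
    allY (E.wth T4) l45966 = true :=
  ⟨by decide +kernel, by decide +kernel, by decide +kernel, by decide +kernel, by decide +kernel, by decide +kernel, by decide +kernel, by decide +kernel⟩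

def t45967 : allY (E.wth T4) l45967 = true ∧
    allY (E.wth T4) l45968 = true ∧
    allY (E.wth T4) l45969 = true ∧
    allY (E.wth T4) l45970 = true ∧
    allY (E.wth T4) l45971 = true ∧
    allY (E.wth T4) l45972 = true ∧
    allY (E.wth T4) l45973 = true ∧
    allY (E.wth T4) l45974 = true :=
  ⟨by decide +kernel, by decide +kernel, by decide +kernel, by decide +kernel, by decide +kernel, by decide +kernel, by decide +kernel, by decide +kernel⟩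

def t45975 : allY (E.wth T4) l45975 = true ∧
    allY (E.wth T4) l45976 = true ∧
    allY (E.wth T4) l45977 = true ∧
    allY (E.wth T4) l45978 = true ∧
    allY (E.wth T4) l45979 = true ∧
    allY (E.wth T4) l45980 = true ∧
    allY (E.wth T4) l45981 = true ∧
    allY (E.wth T4) l45982 = true :=
  ⟨by decide +kernel, by decide +kernel, by decide +kernel, by decide +kernel, by decide +kernel, by decide +kernel, by decide +kernel, by decide +kernel⟩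

def t45983 : allY (E.wth T4) l45983 = true ∧
    allY (E.wth T4) l45984 = true ∧
    allY (E.wth T4) l45985 = true ∧
    allY (E.wth T4) l45986 = true ∧
    allY (E.wth T4) l45987 = true ∧
    allY (E.wth T4) l45988 = true ∧
    allY (E.wth T4) l45989 = true ∧
    allY (E.wth T4) l45990 = true :=
  ⟨by decide +kernel, by decide +kernel, by decide +kernel, by decide +kernel, by decide +kernel, by decide +kernel, by decide +kernel, by decide +kernel⟩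

def t45991 : allY (E.wth T4) l45991 = true ∧
    allY (E.wth T4) l45992 = true ∧
    allY (E.wth T4) l45993 = true ∧
    allY (E.wth T4) l45994 = true ∧
    allY (E.wth T4) l45995 = true ∧
    allY (E.wth T4) l45996 = true ∧
    allY (E.wth T4) l45997 = true ∧
    allY (E.wth T4) l45998 = true :=
  ⟨by decide +kernel, by decide +kernel, by decide +kernel, by decide +kernel, by decide +kernel, by decide +kernel, by decide +kernel, by decide +kernel⟩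

def t45999 : allY (E.wth T4) l45999 = true ∧
    allY (E.wth T4) l46000 = true ∧
    allY (E.wth T4) l46001 = true ∧
    allY (E.wth T4) l46002 = true ∧
    allY (E.wth T4) l46003 = true ∧
    allY (E.wth T4) l46004 = true ∧
    allY (E.wth T4) l46005 = true ∧
    allY (E.wth T4) l46006 = true :=
  ⟨by decide +kernel, by decide +kernel, by decide +kernel, by decide +kernel, by decide +kernel, by decide +kernel, by decide +kernel, by decide +kernel⟩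

def t46007 : allY (E.wth T4) l46007 = true ∧
    allY (E.wth T4) l46008 = true ∧
    allY (E.wth T4) l46009 = true ∧
    allY (E.wth T4) l46010 = true ∧
    allY (E.wth T4) l46011 = true ∧
    allY (E.wth T4) l46012 = true ∧
    allY (E.wth T4) l46013 = true ∧
    allY (E.wth T4) l46014 = true :=
  ⟨by decide +kernel, by decide +kernel, by decide +kernel, by decide +kernel, by decide +kernel, by decide +kernel, by decide +kernel, by decide +kernel⟩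

def t46015 : allY (E.wth T4) l46015 = true ∧
    allY (E.wth T4) l46016 = true ∧
    allY (E.wth T4) l46017 = true ∧
    allY (E.wth T4) l46018 = true ∧
    allY (E.wth T4) l46019 = true ∧
    allY (E.wth T4) l46020 = true ∧
    allY (E.wth T4) l46021 = true ∧
    allY (E.wth T4) l46022 = true :=
  ⟨by decide +kernel, by decide +kernel, by decide +kernel, by decide +kernel, by decide +kernel, by decide +kernel, by decide +kernel, by decide +kernel⟩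

def t46023 : allY (E.wth T4) l46023 = true ∧
    allY (E.wth T4) l46024 = true ∧
    allY (E.wth T4) l46025 = true ∧
    allY (E.wth T4) l46026 = true ∧
    allY (E.wth T4) l46027 = true ∧
    allY (E.wth T4) l46028 = true ∧
    allY (E.wth T4) l46029 = true ∧
    allY (E.wth T4) l46030 = true :=
  ⟨by decide +kernel, by decide +kernel, by decide +kernel, by decide +kernel, by decide +kernel, by decide +kernel, by decide +kernel, by decide +kernel⟩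

def t46031 : allY (E.wth T4) l46031 = true ∧
    allY (E.wth T4) l46032 = true ∧
    allY (E.wth T4) l46033 = true ∧
    allY (E.wth T4) l46034 = true ∧
    allY (E.wth T4) l46035 = true ∧
    allY (E.wth T4) l46036 = true ∧
    allY (E.wth T4) l46037 = true ∧
    allY (E.wth T4) l46038 = true :=
  ⟨by decide +kernel, by decide +kernel, by decide +kernel, by decide +kernel, by decide +kernel, by decide +kernel, by decide +kernel, by decide +kernel⟩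

def t46039 : allY (E.wth T4) l46039 = true ∧
    allY (E.wth T4) l46040 = true ∧
    allY (E.wth T4) l46041 = true ∧
    allY (E.wth T4) l46042 = true ∧
    allY (E.wth T4) l46043 = true ∧
    allY (E.wth T4) l46044 = true ∧
    allY (E.wth T4) l46045 = true ∧
    allY (E.wth T4) l46046 = true :=
  ⟨by decide +kernel, by decide +kernel, by decide +kernel, by decide +kernel, by decide +kernel, by decide +kernel, by decide +kernel, by decide +kernel⟩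

def t46047 : allY (E.wth T4) l46047 = true ∧
    allY (E.wth T4) l46048 = true ∧
    allY (E.wth T4) l46049 = true ∧
    allY (E.wth T4) l46050 = true ∧
    allY (E.wth T4) l46051 = true ∧
    allY (E.wth T4) l46052 = true ∧
    allY (E.wth T4) l46053 = true ∧
    allY (E.wth T4) l46054 = true :=
  ⟨by decide +kernel, by decide +kernel, by decide +kernel, by decide +kernel, by decide +kernel, by decide +kernel, by decide +kernel, by decide +kernel⟩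

def t46055 : allY (E.wth T4) l46055 = true ∧
    allY (E.wth T4) l46056 = true ∧
    allY (E.wth T4) l46057 = true ∧
    allY (E.wth T4) l46058 = true ∧
    allY (E.wth T4) l46059 = true ∧
    allY (E.wth T4) l46060 = true ∧
    allY (E.wth T4) l46061 = true ∧
    allY (E.wth T4) l46062 = true :=
  ⟨by decide +kernel, by decide +kernel, by decide +kernel, by decide +kernel, by decide +kernel, by decide +kernel, by decide +kernel, by decide +kernel⟩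

def t46063 : allY (E.wth T4) l46063 = true ∧
    allY (E.wth T4) l46064 = true ∧
    allY (E.wth T4) l46065 = true ∧
    allY (E.wth T4) l46066 = true ∧
    allY (E.wth T4) l46067 = true ∧
    allY (E.wth T4) l46068 = true ∧
    allY (E.wth T4) l46069 = true ∧
    allY (E.wth T4) l46070 = true :=
  ⟨by decide +kernel, by decide +kernel, by decide +kernel, by decide +kernel, by decide +kernel, by decide +kernel, by decide +kernel, by decide +kernel⟩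

def t46071 : allY (E.wth T4) l46071 = true ∧
    allY (E.wth T4) l46072 = true ∧
    allY (E.wth T4) l46073 = true ∧
    allY (E.wth T4) l46074 = true ∧
    allY (E.wth T4) l46075 = true ∧
    allY (E.wth T4) l46076 = true ∧
    allY (E.wth T4) l46077 = true ∧
    allY (E.wth T4) l46078 = true :=
  ⟨by decide +kernel, by decide +kernel, by decide +kernel, by decide +kernel, by decide +kernel, by decide +kernel, by decide +kernel, by decide +kernel⟩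

def t46079 : allY (E.wth T4) l46079 = true ∧
    allY (E.wth T4) l46080 = true ∧
    allY (E.wth T4) l46081 = true ∧
    allY (E.wth T4) l46082 = true ∧
    allY (E.wth T4) l46083 = true ∧
    allY (E.wth T4) l46084 = true :=
  ⟨by decide +kernel, by decide +kernel, by decide +kernel, by decide +kernel, by decide +kernel, by decide +kernel⟩

theorem a85 {p : Rf → Prop} (H : ∀ l, allY (E.wth T4) l = true → (lkp l).All p) :
    b85.All p := ⟨⟨⟨⟨⟨⟨⟨⟨H _ t45647.1, ⟨H _ t45647.2.1, H _ t45647.2.2.1⟩⟩, ⟨H _ t45647.2.2.2.1, ⟨H _ t45647.2.2.2.2.1, H _ t45647.2.2.2.2.2.1⟩⟩⟩, ⟨⟨H _ t45647.2.2.2.2.2.2.1, ⟨H _ t45647.2.2.2.2.2.2.2, H _ t45655.1⟩⟩, ⟨⟨H _ t45655.2.1, H _ t45655.2.2.1⟩, ⟨H _ t45655.2.2.2.1, H _ t45655.2.2.2.2.1⟩⟩⟩⟩, ⟨⟨⟨H _ t45655.2.2.2.2.2.1, ⟨H _ t45655.2.2.2.2.2.2.1, H _ t45655.2.2.2.2.2.2.2⟩⟩, ⟨⟨H _ t45663.1, H _ t45663.2.1⟩, ⟨H _ t45663.2.2.1, H _ t45663.2.2.2.1⟩⟩⟩, ⟨⟨H _ t45663.2.2.2.2.1,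 ⟨H _ t45663.2.2.2.2.2.1, H _ t45663.2.2.2.2.2.2.1⟩⟩, ⟨⟨H _ t45663.2.2.2.2.2.2.2, H _ t45671.1⟩, ⟨H _ t45671.2.1, H _ t45671.2.2.1⟩⟩⟩⟩⟩, ⟨⟨⟨⟨H _ t45671.2.2.2.1, ⟨H _ t45671.2.2.2.2.1, H _ t45671.2.2.2.2.2.1⟩⟩, ⟨H _ t45671.2.2.2.2.2.2.1, ⟨H _ t45671.2.2.2.2.2.2.2, H _ t45679.1⟩⟩⟩, ⟨⟨H _ t45679.2.1, ⟨H _ t45679.2.2.1, H _ t45679.2.2.2.1⟩⟩, ⟨⟨H _ t45679.2.2.2.2.1, H _ t45679.2.2.2.2.2.1⟩, ⟨H _ t45679.2.2.2.2.2.2.1, H _ t45679.2.2.2.2.2.2.2⟩⟩⟩⟩, ⟨⟨⟨H _ t45687.1, ⟨H _ t45687.2.1, H _ t45687.2.2.1⟩⟩, ⟨⟨H _ t45687.2.2.2.1, H _ t45687.2.2.2.2.1⟩, ⟨H _ t45687.2.2.2.2.2.1, H _ t45687.2.2.2.2.2.2.1⟩⟩⟩, ⟨⟨H _ t45687.2.2.2.2.2.2.2, ⟨H _ t45695.1, H _ t45695.2.1⟩⟩, ⟨⟨H _ t45695.2.2.1, H _ t45695.2.2.2.1⟩, ⟨H _ t45695.2.2.2.2.1, H _ t45695.2.2.2.2.2.1⟩⟩⟩⟩⟩⟩, ⟨⟨⟨⟨⟨H _ t45695.2.2.2.2.2.2.1, ⟨H _ t45695.2.2.2.2.2.2.2, H _ t45703.1⟩⟩, ⟨H _ t45703.2.1, ⟨H _ t45703.2.2.1, H _ t45703.2.2.2.1⟩⟩⟩, ⟨⟨H _ t45703.2.2.2.2.1,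 ⟨H _ t45703.2.2.2.2.2.1, H _ t45703.2.2.2.2.2.2.1⟩⟩, ⟨⟨H _ t45703.2.2.2.2.2.2.2, H _ t45711.1⟩, ⟨H _ t45711.2.1, H _ t45711.2.2.1⟩⟩⟩⟩, ⟨⟨⟨H _ t45711.2.2.2.1, ⟨H _ t45711.2.2.2.2.1, H _ t45711.2.2.2.2.2.1⟩⟩, ⟨⟨H _ t45711.2.2.2.2.2.2.1, H _ t45711.2.2.2.2.2.2.2⟩, ⟨H _ t45719.1, H _ t45719.2.1⟩⟩⟩, ⟨⟨H _ t45719.2.2.1, ⟨H _ t45719.2.2.2.1, H _ t45719.2.2.2.2.1⟩⟩, ⟨⟨H _ t45719.2.2.2.2.2.1, H _ t45719.2.2.2.2.2.2.1⟩, ⟨H _ t45719.2.2.2.2.2.2.2, H _ t45727.1⟩⟩⟩⟩⟩, ⟨⟨⟨⟨H _ t45727.2.1, ⟨H _ t45727.2.2.1, H _ t45727.2.2.2.1⟩⟩, ⟨⟨H _ t45727.2.2.2.2.1, H _ t45727.2.2.2.2.2.1⟩, ⟨H _ t45727.2.2.2.2.2.2.1, H _ t45727.2.2.2.2.2.2.2⟩⟩⟩, ⟨⟨H _ t45735.1, ⟨H _ t45735.2.1, H _ t45735.2.2.1⟩⟩, ⟨⟨H _ t45735.2.2.2.1, H _ t45735.2.2.2.2.1⟩, ⟨H _ t45735.2.2.2.2.2.1, H _ t45735.2.2.2.2.2.2.1⟩⟩⟩⟩, ⟨⟨⟨H _ t45735.2.2.2.2.2.2.2, ⟨H _ t45743.1, H _ t45743.2.1⟩⟩, ⟨⟨H _ t45743.2.2.1, H _ t45743.2.2.2.1⟩, ⟨H _ t45743.2.2.2.2.1,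 H _ t45743.2.2.2.2.2.1⟩⟩⟩, ⟨⟨H _ t45743.2.2.2.2.2.2.1, ⟨H _ t45743.2.2.2.2.2.2.2, H _ t45751.1⟩⟩, ⟨⟨H _ t45751.2.1, H _ t45751.2.2.1⟩, ⟨H _ t45751.2.2.2.1, H _ t45751.2.2.2.2.1⟩⟩⟩⟩⟩⟩⟩, ⟨⟨⟨⟨⟨⟨H _ t45751.2.2.2.2.2.1, ⟨H _ t45751.2.2.2.2.2.2.1, H _ t45751.2.2.2.2.2.2.2⟩⟩, ⟨H _ t45759.1, ⟨H _ t45759.2.1, H _ t45759.2.2.1⟩⟩⟩, ⟨⟨H _ t45759.2.2.2.1, ⟨H _ t45759.2.2.2.2.1, H _ t45759.2.2.2.2.2.1⟩⟩, ⟨⟨H _ t45759.2.2.2.2.2.2.1, H _ t45759.2.2.2.2.2.2.2⟩, ⟨H _ t45767.1, H _ t45767.2.1⟩⟩⟩⟩, ⟨⟨⟨H _ t45767.2.2.1, ⟨H _ t45767.2.2.2.1, H _ t45767.2.2.2.2.1⟩⟩, ⟨⟨H _ t45767.2.2.2.2.2.1, H _ t45767.2.2.2.2.2.2.1⟩, ⟨H _ t45767.2.2.2.2.2.2.2, H _ t45775.1⟩⟩⟩, ⟨⟨H _ t45775.2.1, ⟨H _ t45775.2.2.1, H _ t45775.2.2.2.1⟩⟩, ⟨⟨H _ t45775.2.2.2.2.1, H _ t45775.2.2.2.2.2.1⟩, ⟨H _ t45775.2.2.2.2.2.2.1, H _ t45775.2.2.2.2.2.2.2⟩⟩⟩⟩⟩, ⟨⟨⟨⟨H _ t45783.1, ⟨H _ t45783.2.1, H _ t45783.2.2.1⟩⟩, ⟨⟨H _ t45783.2.2.2.1, H _ t45783.2.2.2.2.1⟩,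 ⟨H _ t45783.2.2.2.2.2.1, H _ t45783.2.2.2.2.2.2.1⟩⟩⟩, ⟨⟨H _ t45783.2.2.2.2.2.2.2, ⟨H _ t45791.1, H _ t45791.2.1⟩⟩, ⟨⟨H _ t45791.2.2.1, H _ t45791.2.2.2.1⟩, ⟨H _ t45791.2.2.2.2.1, H _ t45791.2.2.2.2.2.1⟩⟩⟩⟩, ⟨⟨⟨H _ t45791.2.2.2.2.2.2.1, ⟨H _ t45791.2.2.2.2.2.2.2, H _ t45799.1⟩⟩, ⟨⟨H _ t45799.2.1, H _ t45799.2.2.1⟩, ⟨H _ t45799.2.2.2.1, H _ t45799.2.2.2.2.1⟩⟩⟩, ⟨⟨H _ t45799.2.2.2.2.2.1, ⟨H _ t45799.2.2.2.2.2.2.1, H _ t45799.2.2.2.2.2.2.2⟩⟩, ⟨⟨H _ t45807.1, H _ t45807.2.1⟩, ⟨H _ t45807.2.2.1, H _ t45807.2.2.2.1⟩⟩⟩⟩⟩⟩, ⟨⟨⟨⟨⟨H _ t45807.2.2.2.2.1, ⟨H _ t45807.2.2.2.2.2.1, H _ t45807.2.2.2.2.2.2.1⟩⟩, ⟨H _ t45807.2.2.2.2.2.2.2, ⟨H _ t45815.1, H _ t45815.2.1⟩⟩⟩, ⟨⟨H _ t45815.2.2.1, ⟨H _ t45815.2.2.2.1, H _ t45815.2.2.2.2.1⟩⟩, ⟨⟨H _ t45815.2.2.2.2.2.1, H _ t45815.2.2.2.2.2.2.1⟩, ⟨H _ t45815.2.2.2.2.2.2.2, H _ t45823.1⟩⟩⟩⟩, ⟨⟨⟨H _ t45823.2.1, ⟨H _ t45823.2.2.1, H _ t45823.2.2.2.1⟩⟩, ⟨⟨H _ t45823.2.2.2.2.1,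 H _ t45823.2.2.2.2.2.1⟩, ⟨H _ t45823.2.2.2.2.2.2.1, H _ t45823.2.2.2.2.2.2.2⟩⟩⟩, ⟨⟨H _ t45831.1, ⟨H _ t45831.2.1, H _ t45831.2.2.1⟩⟩, ⟨⟨H _ t45831.2.2.2.1, H _ t45831.2.2.2.2.1⟩, ⟨H _ t45831.2.2.2.2.2.1, H _ t45831.2.2.2.2.2.2.1⟩⟩⟩⟩⟩, ⟨⟨⟨⟨H _ t45831.2.2.2.2.2.2.2, ⟨H _ t45839.1, H _ t45839.2.1⟩⟩, ⟨⟨H _ t45839.2.2.1, H _ t45839.2.2.2.1⟩, ⟨H _ t45839.2.2.2.2.1, H _ t45839.2.2.2.2.2.1⟩⟩⟩, ⟨⟨H _ t45839.2.2.2.2.2.2.1, ⟨H _ t45839.2.2.2.2.2.2.2, H _ t45847.1⟩⟩, ⟨⟨H _ t45847.2.1, H _ t45847.2.2.1⟩, ⟨H _ t45847.2.2.2.1, H _ t45847.2.2.2.2.1⟩⟩⟩⟩, ⟨⟨⟨H _ t45847.2.2.2.2.2.1, ⟨H _ t45847.2.2.2.2.2.2.1, H _ t45847.2.2.2.2.2.2.2⟩⟩, ⟨⟨H _ t45855.1, H _ t45855.2.1⟩, ⟨H _ t45855.2.2.1, H _ t45855.2.2.2.1⟩⟩⟩, ⟨⟨H _ t45855.2.2.2.2.1, ⟨H _ t45855.2.2.2.2.2.1, H _ t45855.2.2.2.2.2.2.1⟩⟩, ⟨⟨H _ t45855.2.2.2.2.2.2.2, H _ t45863.1⟩, ⟨H _ t45863.2.1, H _ t45863.2.2.1⟩⟩⟩⟩⟩⟩⟩⟩, ⟨⟨⟨⟨⟨⟨⟨H _ t45863.2.2.2.1, ⟨H _ t45863.2.2.2.2.1,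 H _ t45863.2.2.2.2.2.1⟩⟩, ⟨H _ t45863.2.2.2.2.2.2.1, ⟨H _ t45863.2.2.2.2.2.2.2, H _ t45871.1⟩⟩⟩, ⟨⟨H _ t45871.2.1, ⟨H _ t45871.2.2.1, H _ t45871.2.2.2.1⟩⟩, ⟨⟨H _ t45871.2.2.2.2.1, H _ t45871.2.2.2.2.2.1⟩, ⟨H _ t45871.2.2.2.2.2.2.1, H _ t45871.2.2.2.2.2.2.2⟩⟩⟩⟩, ⟨⟨⟨H _ t45879.1, ⟨H _ t45879.2.1, H _ t45879.2.2.1⟩⟩, ⟨⟨H _ t45879.2.2.2.1, H _ t45879.2.2.2.2.1⟩, ⟨H _ t45879.2.2.2.2.2.1, H _ t45879.2.2.2.2.2.2.1⟩⟩⟩, ⟨⟨H _ t45879.2.2.2.2.2.2.2, ⟨H _ t45887.1, H _ t45887.2.1⟩⟩, ⟨⟨H _ t45887.2.2.1, H _ t45887.2.2.2.1⟩, ⟨H _ t45887.2.2.2.2.1, H _ t45887.2.2.2.2.2.1⟩⟩⟩⟩⟩, ⟨⟨⟨⟨H _ t45887.2.2.2.2.2.2.1, ⟨H _ t45887.2.2.2.2.2.2.2, H _ t45895.1⟩⟩, ⟨H _ t45895.2.1, ⟨H _ t45895.2.2.1, H _ t45895.2.2.2.1⟩⟩⟩, ⟨⟨H _ t45895.2.2.2.2.1, ⟨H _ t45895.2.2.2.2.2.1, H _ t45895.2.2.2.2.2.2.1⟩⟩, ⟨⟨H _ t45895.2.2.2.2.2.2.2, H _ t45903.1⟩, ⟨H _ t45903.2.1, H _ t45903.2.2.1⟩⟩⟩⟩, ⟨⟨⟨H _ t45903.2.2.2.1, ⟨H _ t45903.2.2.2.2.1,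 H _ t45903.2.2.2.2.2.1⟩⟩, ⟨⟨H _ t45903.2.2.2.2.2.2.1, H _ t45903.2.2.2.2.2.2.2⟩, ⟨H _ t45911.1, H _ t45911.2.1⟩⟩⟩, ⟨⟨H _ t45911.2.2.1, ⟨H _ t45911.2.2.2.1, H _ t45911.2.2.2.2.1⟩⟩, ⟨⟨H _ t45911.2.2.2.2.2.1, H _ t45911.2.2.2.2.2.2.1⟩, ⟨H _ t45911.2.2.2.2.2.2.2, H _ t45919.1⟩⟩⟩⟩⟩⟩, ⟨⟨⟨⟨⟨H _ t45919.2.1, ⟨H _ t45919.2.2.1, H _ t45919.2.2.2.1⟩⟩, ⟨H _ t45919.2.2.2.2.1, ⟨H _ t45919.2.2.2.2.2.1, H _ t45919.2.2.2.2.2.2.1⟩⟩⟩, ⟨⟨H _ t45919.2.2.2.2.2.2.2, ⟨H _ t45927.1, H _ t45927.2.1⟩⟩, ⟨⟨H _ t45927.2.2.1, H _ t45927.2.2.2.1⟩, ⟨H _ t45927.2.2.2.2.1, H _ t45927.2.2.2.2.2.1⟩⟩⟩⟩, ⟨⟨⟨H _ t45927.2.2.2.2.2.2.1, ⟨H _ t45927.2.2.2.2.2.2.2, H _ t45935.1⟩⟩, ⟨⟨H _ t45935.2.1, H _ t45935.2.2.1⟩, ⟨H _ t45935.2.2.2.1, H _ t45935.2.2.2.2.1⟩⟩⟩, ⟨⟨H _ t45935.2.2.2.2.2.1, ⟨H _ t45935.2.2.2.2.2.2.1, H _ t45935.2.2.2.2.2.2.2⟩⟩, ⟨⟨H _ t45943.1, H _ t45943.2.1⟩, ⟨H _ t45943.2.2.1, H _ t45943.2.2.2.1⟩⟩⟩⟩⟩, ⟨⟨⟨⟨H _ t45943.2.2.2.2.1,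 ⟨H _ t45943.2.2.2.2.2.1, H _ t45943.2.2.2.2.2.2.1⟩⟩, ⟨⟨H _ t45943.2.2.2.2.2.2.2, H _ t45951.1⟩, ⟨H _ t45951.2.1, H _ t45951.2.2.1⟩⟩⟩, ⟨⟨H _ t45951.2.2.2.1, ⟨H _ t45951.2.2.2.2.1, H _ t45951.2.2.2.2.2.1⟩⟩, ⟨⟨H _ t45951.2.2.2.2.2.2.1, H _ t45951.2.2.2.2.2.2.2⟩, ⟨H _ t45959.1, H _ t45959.2.1⟩⟩⟩⟩, ⟨⟨⟨H _ t45959.2.2.1, ⟨H _ t45959.2.2.2.1, H _ t45959.2.2.2.2.1⟩⟩, ⟨⟨H _ t45959.2.2.2.2.2.1, H _ t45959.2.2.2.2.2.2.1⟩, ⟨H _ t45959.2.2.2.2.2.2.2, H _ t45967.1⟩⟩⟩, ⟨⟨H _ t45967.2.1, ⟨H _ t45967.2.2.1, H _ t45967.2.2.2.1⟩⟩, ⟨⟨H _ t45967.2.2.2.2.1, H _ t45967.2.2.2.2.2.1⟩, ⟨H _ t45967.2.2.2.2.2.2.1, H _ t45967.2.2.2.2.2.2.2⟩⟩⟩⟩⟩⟩⟩, ⟨⟨⟨⟨⟨⟨H _ t45975.1, ⟨H _ t45975.2.1, H _ t45975.2.2.1⟩⟩, ⟨H _ t45975.2.2.2.1, ⟨H _ t45975.2.2.2.2.1, H _ t45975.2.2.2.2.2.1⟩⟩⟩, ⟨⟨H _ t45975.2.2.2.2.2.2.1, ⟨H _ t45975.2.2.2.2.2.2.2, H _ t45983.1⟩⟩, ⟨⟨H _ t45983.2.1, H _ t45983.2.2.1⟩, ⟨H _ t45983.2.2.2.1, H _ t45983.2.2.2.2.1⟩⟩⟩⟩,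 ⟨⟨⟨H _ t45983.2.2.2.2.2.1, ⟨H _ t45983.2.2.2.2.2.2.1, H _ t45983.2.2.2.2.2.2.2⟩⟩, ⟨⟨H _ t45991.1, H _ t45991.2.1⟩, ⟨H _ t45991.2.2.1, H _ t45991.2.2.2.1⟩⟩⟩, ⟨⟨H _ t45991.2.2.2.2.1, ⟨H _ t45991.2.2.2.2.2.1, H _ t45991.2.2.2.2.2.2.1⟩⟩, ⟨⟨H _ t45991.2.2.2.2.2.2.2, H _ t45999.1⟩, ⟨H _ t45999.2.1, H _ t45999.2.2.1⟩⟩⟩⟩⟩, ⟨⟨⟨⟨H _ t45999.2.2.2.1, ⟨H _ t45999.2.2.2.2.1, H _ t45999.2.2.2.2.2.1⟩⟩, ⟨⟨H _ t45999.2.2.2.2.2.2.1, H _ t45999.2.2.2.2.2.2.2⟩, ⟨H _ t46007.1, H _ t46007.2.1⟩⟩⟩, ⟨⟨H _ t46007.2.2.1, ⟨H _ t46007.2.2.2.1, H _ t46007.2.2.2.2.1⟩⟩, ⟨⟨H _ t46007.2.2.2.2.2.1, H _ t46007.2.2.2.2.2.2.1⟩, ⟨H _ t46007.2.2.2.2.2.2.2, H _ t46015.1⟩⟩⟩⟩, ⟨⟨⟨H _ t46015.2.1, ⟨H _ t46015.2.2.1, H _ t46015.2.2.2.1⟩⟩, ⟨⟨H _ t46015.2.2.2.2.1, H _ t46015.2.2.2.2.2.1⟩, ⟨H _ t46015.2.2.2.2.2.2.1, H _ t46015.2.2.2.2.2.2.2⟩⟩⟩, ⟨⟨H _ t46023.1, ⟨H _ t46023.2.1, H _ t46023.2.2.1⟩⟩, ⟨⟨H _ t46023.2.2.2.1, H _ t46023.2.2.2.2.1⟩,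 ⟨H _ t46023.2.2.2.2.2.1, H _ t46023.2.2.2.2.2.2.1⟩⟩⟩⟩⟩⟩, ⟨⟨⟨⟨⟨H _ t46023.2.2.2.2.2.2.2, ⟨H _ t46031.1, H _ t46031.2.1⟩⟩, ⟨H _ t46031.2.2.1, ⟨H _ t46031.2.2.2.1, H _ t46031.2.2.2.2.1⟩⟩⟩, ⟨⟨H _ t46031.2.2.2.2.2.1, ⟨H _ t46031.2.2.2.2.2.2.1, H _ t46031.2.2.2.2.2.2.2⟩⟩, ⟨⟨H _ t46039.1, H _ t46039.2.1⟩, ⟨H _ t46039.2.2.1, H _ t46039.2.2.2.1⟩⟩⟩⟩, ⟨⟨⟨H _ t46039.2.2.2.2.1, ⟨H _ t46039.2.2.2.2.2.1, H _ t46039.2.2.2.2.2.2.1⟩⟩, ⟨⟨H _ t46039.2.2.2.2.2.2.2, H _ t46047.1⟩, ⟨H _ t46047.2.1, H _ t46047.2.2.1⟩⟩⟩, ⟨⟨H _ t46047.2.2.2.1, ⟨H _ t46047.2.2.2.2.1, H _ t46047.2.2.2.2.2.1⟩⟩, ⟨⟨H _ t46047.2.2.2.2.2.2.1, H _ t46047.2.2.2.2.2.2.2⟩, ⟨H _ t46055.1, H _ t46055.2.1⟩⟩⟩⟩⟩, ⟨⟨⟨⟨H _ t46055.2.2.1, ⟨H _ t46055.2.2.2.1, H _ t46055.2.2.2.2.1⟩⟩, ⟨⟨H _ t46055.2.2.2.2.2.1, H _ t46055.2.2.2.2.2.2.1⟩, ⟨H _ t46055.2.2.2.2.2.2.2, H _ t46063.1⟩⟩⟩, ⟨⟨H _ t46063.2.1, ⟨H _ t46063.2.2.1, H _ t46063.2.2.2.1⟩⟩, ⟨⟨H _ t46063.2.2.2.2.1,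 H _ t46063.2.2.2.2.2.1⟩, ⟨H _ t46063.2.2.2.2.2.2.1, H _ t46063.2.2.2.2.2.2.2⟩⟩⟩⟩, ⟨⟨⟨H _ t46071.1, ⟨H _ t46071.2.1, H _ t46071.2.2.1⟩⟩, ⟨⟨H _ t46071.2.2.2.1, H _ t46071.2.2.2.2.1⟩, ⟨H _ t46071.2.2.2.2.2.1, H _ t46071.2.2.2.2.2.2.1⟩⟩⟩, ⟨⟨H _ t46071.2.2.2.2.2.2.2, ⟨H _ t46079.1, H _ t46079.2.1⟩⟩, ⟨⟨H _ t46079.2.2.1, H _ t46079.2.2.2.1⟩, ⟨H _ t46079.2.2.2.2.1, H _ t46079.2.2.2.2.2⟩⟩⟩⟩⟩⟩⟩⟩⟩

end Pool.Agent.MP_c853c5_nt.X.C4950
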