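import Pool.Agent.MP_c853c5_nt.X.C4950.Env
import Pool.Agent.MP_c853c5_nt.X.C4950.Tab

set_option autoImplicit false
set_option maxRecDepth 8192
set_option linter.all false

namespace Pool.Agent.MP_c853c5_nt.X.C4950

open Pool.Agent.MP_c853c5_nt.X

def t46085 : allY (E.wth T4) l46085 = true ∧
    allY (E.wth T4) l46086 = true ∧
    allY (E.wth T4) l46087 = true ∧
    allY (E.wth T4) l46088 = true ∧
    allY (E.wth T4) l46089 = true ∧
    allY (E.wth T4) l46090 = true ∧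
    allY (E.wth T4) l46091 = true ∧
    allY (E.wth T4) l46092 = true :=
  ⟨by decide +kernel, by decide +kernel, by decide +kernel, by decide +kernel, by decide +kernel, by decide +kernel, by decide +kernel, by decide +kernel⟩

def t46093 : allY (E.wth T4) l46093 = true ∧
    allY (E.wth T4) l46094 = true ∧
    allY (E.wth T4) l46095 = true ∧
    allY (E.wth T4) l46096 = true ∧
    allY (E.wth T4) l46097 = true ∧
    allY (E.wth T4) l46098 = true ∧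
    allY (E.wth T4) l46099 = true ∧
    allY (E.wth T4) l46100 = true :=
  ⟨by decide +kernel, by decide +kernel, by decide +kernel, by decide +kernel, by decide +kernel, by decide +kernel, by decide +kernel, by decide +kernel⟩

def t46101 : allY (E.wth T4) l46101 = true ∧
    allY (E.wth T4) l46102 = true ∧
    allY (E.wth T4) l46103 = true ∧
    allY (E.wth T4) l46104 = true ∧
    allY (E.wth T4) l46105 = true ∧
    allY (E.wth T4) l46106 = true ∧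
    allY (E.wth T4) l46107 = true ∧
    allY (E.wth T4) l46108 = true :=
  ⟨by decide +kernel, by decide +kernel, by decide +kernel, by decide +kernel, by decide +kernel, by decide +kernel, by decide +kernel, by decide +kernel⟩

def t46109 : allY (E.wth T4) l46109 = true ∧
    allY (E.wth T4) l46110 = true ∧
    allY (E.wth T4) l46111 = true ∧
    allY (E.wth T4) l46112 = true ∧
    allY (E.wth T4) l46113 = true ∧
    allY (E.wth T4) l46114 = true ∧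
    allY (E.wth T4) l46115 = true ∧
    allY (E.wth T4) l46116 = true :=
  ⟨by decide +kernel, by decide +kernel, by decide +kernel, by decide +kernel, by decide +kernel, by decide +kernel, by decide +kernel, by decide +kernel⟩

def t46117 : allY (E.wth T4) l46117 = true ∧
    allY (E.wth T4) l46118 = true ∧
    allY (E.wth T4) l46119 = true ∧
    allY (E.wth T4) l46120 = true ∧
    allY (E.wth T4) l46121 = true ∧
    allY (E.wth T4) l46122 = true ∧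
    allY (E.wth T4) l46123 = true ∧
    allY (E.wth T4) l46124 = true :=
  ⟨by decide +kernel, by decide +kernel, by decide +kernel, by decide +kernel, by decide +kernel, by decide +kernel, by decide +kernel, by decide +kernel⟩

def t46125 : allY (E.wth T4) l46125 = true ∧
    allY (E.wth T4) l46126 = true ∧
    allY (E.wth T4) l46127 = true ∧
    allY (E.wth T4) l46128 = true ∧
    allY (E.wth T4) l46129 = true ∧
    allY (E.wth T4) l46130 = true ∧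
    allY (E.wth T4) l46131 = true ∧
    allY (E.wth T4) l46132 = true :=
  ⟨by decide +kernel, by decide +kernel, by decide +kernel, by decide +kernel, by decide +kernel, by decide +kernel, by decide +kernel, by decide +kernel⟩

def t46133 : allY (E.wth T4) l46133 = true ∧
    allY (E.wth T4) l46134 = true ∧
    allY (E.wth T4) l46135 = true ∧
    allY (E.wth T4) l46136 = true ∧
    allY (E.wth T4) l46137 = true ∧
    allY (E.wth T4) l46138 = true ∧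
    allY (E.wth T4) l46139 = true ∧
    allY (E.wth T4) l46140 = true :=
  ⟨by decide +kernel, by decide +kernel, by decide +kernel, by decide +kernel, by decide +kernel, by decide +kernel, by decide +kernel, by decide +kernel⟩

def t46141 : allY (E.wth T4) l46141 = true ∧
    allY (E.wth T4) l46142 = true ∧
    allY (E.wth T4) l46143 = true ∧
    allY (E.wth T4) l46144 = true ∧
    allY (E.wth T4) l46145 = true ∧
    allY (E.wth T4) l46146 = true ∧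
    allY (E.wth T4) l46147 = true ∧
    allY (E.wth T4) l46148 = true :=
  ⟨by decide +kernel, by decide +kernel, by decide +kernel, by decide +kernel, by decide +kernel, by decide +kernel, by decide +kernel, by decide +kernel⟩

def t46149 : allY (E.wth T4) l46149 = true ∧
    allY (E.wth T4) l46150 = true ∧
    allY (E.wth T4) l46151 = true ∧
    allY (E.wth T4) l46152 = true ∧
    allY (E.wth T4) l46153 = true ∧
    allY (E.wth T4) l46154 = true ∧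
    allY (E.wth T4) l46155 = true ∧
    allY (E.wth T4) l46156 = true :=
  ⟨by decide +kernel, by decide +kernel, by decide +kernel, by decide +kernel, by decide +kernel, by decide +kernel, by decide +kernel, by decide +kernel⟩

def t46157 : allY (E.wth T4) l46157 = true ∧
    allY (E.wth T4) l46158 = true ∧
    allY (E.wth T4) l46159 = true ∧
    allY (E.wth T4) l46160 = true ∧
    allY (E.wth T4) l46161 = true ∧
    allY (E.wth T4) l46162 = true ∧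
    allY (E.wth T4) l46163 = true ∧
    allY (E.wth T4) l46164 = true :=
  ⟨by decide +kernel, by decide +kernel, by decide +kernel, by decide +kernel, by decide +kernel, by decide +kernel, by decide +kernel, by decide +kernel⟩

def t46165 : allY (E.wth T4) l46165 = true ∧
    allY (E.wth T4) l46166 = true ∧
    allY (E.wth T4) l46167 = true ∧
    allY (E.wth T4) l46168 = true ∧
    allY (E.wth T4) l46169 = true ∧
    allY (E.wth T4) l46170 = true ∧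
    allY (E.wth T4) l46171 = true ∧
    allY (E.wth T4) l46172 = true :=
  ⟨by decide +kernel, by decide +kernel, by decide +kernel, by decide +kernel, by decide +kernel, by decide +kernel, by decide +kernel, by decide +kernel⟩

def t46173 : allY (E.wth T4) l46173 = true ∧
    allY (E.wth T4) l46174 = true ∧
    allY (E.wth T4) l46175 = true ∧
    allY (E.wth T4) l46176 = true ∧
    allY (E.wth T4) l46177 = true ∧
    allY (E.wth T4) l46178 = true ∧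
    allY (E.wth T4) l46179 = true ∧
    allY (E.wth T4) l46180 = true :=
  ⟨by decide +kernel, by decide +kernel, by decide +kernel, by decide +kernel, by decide +kernel, by decide +kernel, by decide +kernel, by decide +kernel⟩

def t46181 : allY (E.wth T4) l46181 = true ∧
    allY (E.wth T4) l46182 = true ∧
    allY (E.wth T4) l46183 = true ∧
    allY (E.wth T4) l46184 = true ∧
    allY (E.wth T4) l46185 = true ∧
    allY (E.wth T4) l46186 = true ∧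
    allY (E.wth T4) l46187 = true ∧
    allY (E.wth T4) l46188 = true :=
  ⟨by decide +kernel, by decide +kernel, by decide +kernel, by decide +kernel, by decide +kernel, by decide +kernel, by decide +kernel, by decide +kernel⟩

def t46189 : allY (E.wth T4) l46189 = true ∧
    allY (E.wth T4) l46190 = true ∧
    allY (E.wth T4) l46191 = true ∧
    allY (E.wth T4) l46192 = true ∧
    allY (E.wth T4) l46193 = true ∧
    allY (E.wth T4) l46194 = true ∧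
    allY (E.wth T4) l46195 = true ∧
    allY (E.wth T4) l46196 = true :=
  ⟨by decide +kernel, by decide +kernel, by decide +kernel, by decide +kernel, by decide +kernel, by decide +kernel, by decide +kernel, by decide +kernel⟩

def t46197 : allY (E.wth T4) l46197 = true ∧
    allY (E.wth T4) l46198 = true ∧
    allY (E.wth T4) l46199 = true ∧
    allY (E.wth T4) l46200 = true ∧
    allY (E.wth T4) l46201 = true ∧
    allY (E.wth T4) l46202 = true ∧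
    allY (E.wth T4) l46203 = true ∧
    allY (E.wth T4) l46204 = true :=
  ⟨by decide +kernel, by decide +kernel, by decide +kernel, by decide +kernel, by decide +kernel, by decide +kernel, by decide +kernel, by decide +kernel⟩

def t46205 : allY (E.wth T4) l46205 = true ∧
    allY (E.wth T4) l46206 = true ∧
    allY (E.wth T4) l46207 = true ∧
    allY (E.wth T4) l46208 = true ∧
    allY (E.wth T4) l46209 = true ∧
    allY (E.wth T4) l46210 = true ∧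
    allY (E.wth T4) l46211 = true ∧
    allY (E.wth T4) l46212 = true :=
  ⟨by decide +kernel, by decide +kernel, by decide +kernel, by decide +kernel, by decide +kernel, by decide +kernel, by decide +kernel, by decide +kernel⟩

def t46213 : allY (E.wth T4) l46213 = true ∧
    allY (E.wth T4) l46214 = true ∧
    allY (E.wth T4) l46215 = true ∧
    allY (E.wth T4) l46216 = true ∧
    allY (E.wth T4) l46217 = true ∧
    allY (E.wth T4) l46218 = true ∧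
    allY (E.wth T4) l46219 = true ∧
    allY (E.wth T4) l46220 = true :=
  ⟨by decide +kernel, by decide +kernel, by decide +kernel, by decide +kernel, by decide +kernel, by decide +kernel, by decide +kernel, by decide +kernel⟩

def t46221 : allY (E.wth T4) l46221 = true ∧
    allY (E.wth T4) l46222 = true ∧
    allY (E.wth T4) l46223 = true ∧
    allY (E.wth T4) l46224 = true ∧
    allY (E.wth T4) l46225 = true ∧
    allY (E.wth T4) l46226 = true ∧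
    allY (E.wth T4) l46227 = true ∧
    allY (E.wth T4) l46228 = true :=
  ⟨by decide +kernel, by decide +kernel, by decide +kernel, by decide +kernel, by decide +kernel, by decide +kernel, by decide +kernel, by decide +kernel⟩

def t46229 : allY (E.wth T4) l46229 = true ∧
    allY (E.wth T4) l46230 = true ∧
    allY (E.wth T4) l46231 = true ∧
    allY (E.wth T4) l46232 = true ∧
    allY (E.wth T4) l46233 = true ∧
    allY (E.wth T4) l46234 = true ∧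
    allY (E.wth T4) l46235 = true ∧
    allY (E.wth T4) l46236 = true :=
  ⟨by decide +kernel, by decide +kernel, by decide +kernel, by decide +kernel, by decide +kernel, by decide +kernel, by decide +kernel, by decide +kernel⟩

def t46237 : allY (E.wth T4) l46237 = true ∧
    allY (E.wth T4) l46238 = true ∧
    allY (E.wth T4) l46239 = true ∧
    allY (E.wth T4) l46240 = true ∧
    allY (E.wth T4) l46241 = true ∧
    allY (E.wth T4) l46242 = true ∧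
    allY (E.wth T4) l46243 = true ∧
    allY (E.wth T4) l46244 = true :=
  ⟨by decide +kernel, by decide +kernel, by decide +kernel, by decide +kernel, by decide +kernel, by decide +kernel, by decide +kernel, by decide +kernel⟩

def t46245 : allY (E.wth T4) l46245 = true ∧
    allY (E.wth T4) l46246 = true ∧
    allY (E.wth T4) l46247 = true ∧
    allY (E.wth T4) l46248 = true ∧
    allY (E.wth T4) l46249 = true ∧
    allY (E.wth T4) l46250 = true ∧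
    allY (E.wth T4) l46251 = true ∧
    allY (E.wth T4) l46252 = true :=
  ⟨by decide +kernel, by decide +kernel, by decide +kernel, by decide +kernel, by decide +kernel, by decide +kernel, by decide +kernel, by decide +kernel⟩

def t46253 : allY (E.wth T4) l46253 = true ∧
    allY (E.wth T4) l46254 = true ∧
    allY (E.wth T4) l46255 = true ∧
    allY (E.wth T4) l46256 = true ∧
    allY (E.wth T4) l46257 = true ∧
    allY (E.wth T4) l46258 = true ∧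
    allY (E.wth T4) l46259 = true ∧
    allY (E.wth T4) l46260 = true :=
  ⟨by decide +kernel, by decide +kernel, by decide +kernel, by decide +kernel, by decide +kernel, by decide +kernel, by decide +kernel, by decide +kernel⟩

def t46261 : allY (E.wth T4) l46261 = true ∧
    allY (E.wth T4) l46262 = true ∧
    allY (E.wth T4) l46263 = true ∧
    allY (E.wth T4) l46264 = true ∧
    allY (E.wth T4) l46265 = true ∧
    allY (E.wth T4) l46266 = true ∧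
    allY (E.wth T4) l46267 = true ∧
    allY (E.wth T4) l46268 = true :=
  ⟨by decide +kernel, by decide +kernel, by decide +kernel, by decide +kernel, by decide +kernel, by decide +kernel, by decide +kernel, by decide +kernel⟩

def t46269 : allY (E.wth T4) l46269 = true ∧
    allY (E.wth T4) l46270 = true ∧
    allY (E.wth T4) l46271 = true ∧
    allY (E.wth T4) l46272 = true ∧
    allY (E.wth T4) l46273 = true ∧
    allY (E.wth T4) l46274 = true ∧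
    allY (E.wth T4) l46275 = true ∧
    allY (E.wth T4) l46276 = true :=
  ⟨by decide +kernel, by decide +kernel, by decide +kernel, by decide +kernel, by decide +kernel, by decide +kernel, by decide +kernel, by decide +kernel⟩

def t46277 : allY (E.wth T4) l46277 = true ∧
    allY (E.wth T4) l46278 = true ∧
    allY (E.wth T4) l46279 = true ∧
    allY (E.wth T4) l46280 = true ∧
    allY (E.wth T4) l46281 = true ∧
    allY (E.wth T4) l46282 = true ∧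
    allY (E.wth T4) l46283 = true ∧
    allY (E.wth T4) l46284 = true :=
  ⟨by decide +kernel, by decide +kernel, by decide +kernel, by decide +kernel, by decide +kernel, by decide +kernel, by decide +kernel, by decide +kernel⟩

def t46285 : allY (E.wth T4) l46285 = true ∧
    allY (E.wth T4) l46286 = true ∧
    allY (E.wth T4) l46287 = true ∧
    allY (E.wth T4) l46288 = true ∧
    allY (E.wth T4) l46289 = true ∧
    allY (E.wth T4) l46290 = true ∧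
    allY (E.wth T4) l46291 = true ∧
    allY (E.wth T4) l46292 = true :=
  ⟨by decide +kernel, by decide +kernel, by decide +kernel, by decide +kernel, by decide +kernel, by decide +kernel, by decide +kernel, by decide +kernel⟩

def t46293 : allY (E.wth T4) l46293 = true ∧
    allY (E.wth T4) l46294 = true ∧
    allY (E.wth T4) l46295 = true ∧
    allY (E.wth T4) l46296 = true ∧
    allY (E.wth T4) l46297 = true ∧
    allY (E.wth T4) l46298 = true ∧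
    allY (E.wth T4) l46299 = true ∧
    allY (E.wth T4) l46300 = true :=
  ⟨by decide +kernel, by decide +kernel, by decide +kernel, by decide +kernel, by decide +kernel, by decide +kernel, by decide +kernel, by decide +kernel⟩

def t46301 : allY (E.wth T4) l46301 = true ∧
    allY (E.wth T4) l46302 = true ∧
    allY (E.wth T4) l46303 = true ∧
    allY (E.wth T4) l46304 = true ∧
    allY (E.wth T4) l46305 = true ∧
    allY (E.wth T4) l46306 = true ∧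
    allY (E.wth T4) l46307 = true ∧
    allY (E.wth T4) l46308 = true :=
  ⟨by decide +kernel, by decide +kernel, by decide +kernel, by decide +kernel, by decide +kernel, by decide +kernel, by decide +kernel, by decide +kernel⟩

def t46309 : allY (E.wth T4) l46309 = true ∧
    allY (E.wth T4) l46310 = true ∧
    allY (E.wth T4) l46311 = true ∧
    allY (E.wth T4) l46312 = true ∧
    allY (E.wth T4) l46313 = true ∧
    allY (E.wth T4) l46314 = true ∧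
    allY (E.wth T4) l46315 = true ∧
    allY (E.wth T4) l46316 = true :=
  ⟨by decide +kernel, by decide +kernel, by decide +kernel, by decide +kernel, by decide +kernel, by decide +kernel, by decide +kernel, by decide +kernel⟩

def t46317 : allY (E.wth T4) l46317 = true ∧
    allY (E.wth T4) l46318 = true ∧
    allY (E.wth T4) l46319 = true ∧
    allY (E.wth T4) l46320 = true ∧
    allY (E.wth T4) l46321 = true ∧
    allY (E.wth T4) l46322 = true ∧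
    allY (E.wth T4) l46323 = true ∧
    allY (E.wth T4) l46324 = true :=
  ⟨by decide +kernel, by decide +kernel, by decide +kernel, by decide +kernel, by decide +kernel, by decide +kernel, by decide +kernel, by decide +kernel⟩

def t46325 : allY (E.wth T4) l46325 = true ∧
    allY (E.wth T4) l46326 = true ∧
    allY (E.wth T4) l46327 = true ∧
    allY (E.wth T4) l46328 = true ∧
    allY (E.wth T4) l46329 = true ∧
    allY (E.wth T4) l46330 = true ∧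
    allY (E.wth T4) l46331 = true ∧
    allY (E.wth T4) l46332 = true :=
  ⟨by decide +kernel, by decide +kernel, by decide +kernel, by decide +kernel, by decide +kernel, by decide +kernel, by decide +kernel, by decide +kernel⟩

def t46333 : allY (E.wth T4) l46333 = true ∧
    allY (E.wth T4) l46334 = true ∧
    allY (E.wth T4) l46335 = true ∧
    allY (E.wth T4) l46336 = true ∧
    allY (E.wth T4) l46337 = true ∧
    allY (E.wth T4) l46338 = true ∧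
    allY (E.wth T4) l46339 = true ∧
    allY (E.wth T4) l46340 = true :=
  ⟨by decide +kernel, by decide +kernel, by decide +kernel, by decide +kernel, by decide +kernel, by decide +kernel, by decide +kernel, by decide +kernel⟩

def t46341 : allY (E.wth T4) l46341 = true ∧
    allY (E.wth T4) l46342 = true ∧
    allY (E.wth T4) l46343 = true ∧
    allY (E.wth T4) l46344 = true ∧
    allY (E.wth T4) l46345 = true ∧
    allY (E.wth T4) l46346 = true ∧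
    allY (E.wth T4) l46347 = true ∧
    allY (E.wth T4) l46348 = true :=
  ⟨by decide +kernel, by decide +kernel, by decide +kernel, by decide +kernel, by decide +kernel, by decide +kernel, by decide +kernel, by decide +kernel⟩

def t46349 : allY (E.wth T4) l46349 = true ∧
    allY (E.wth T4) l46350 = true ∧
    allY (E.wth T4) l46351 = true ∧
    allY (E.wth T4) l46352 = true ∧
    allY (E.wth T4) l46353 = true ∧
    allY (E.wth T4) l46354 = true ∧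
    allY (E.wth T4) l46355 = true ∧
    allY (E.wth T4) l46356 = true :=
  ⟨by decide +kernel, by decide +kernel, by decide +kernel, by decide +kernel, by decide +kernel, by decide +kernel, by decide +kernel, by decide +kernel⟩

def t46357 : allY (E.wth T4) l46357 = true ∧
    allY (E.wth T4) l46358 = true ∧
    allY (E.wth T4) l46359 = true ∧
    allY (E.wth T4) l46360 = true ∧
    allY (E.wth T4) l46361 = true ∧
    allY (E.wth T4) l46362 = true ∧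
    allY (E.wth T4) l46363 = true ∧
    allY (E.wth T4) l46364 = true :=
  ⟨by decide +kernel, by decide +kernel, by decide +kernel, by decide +kernel, by decide +kernel, by decide +kernel, by decide +kernel, by decide +kernel⟩

def t46365 : allY (E.wth T4) l46365 = true ∧
    allY (E.wth T4) l46366 = true ∧
    allY (E.wth T4) l46367 = true ∧
    allY (E.wth T4) l46368 = true ∧
    allY (E.wth T4) l46369 = true ∧
    allY (E.wth T4) l46370 = true ∧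
    allY (E.wth T4) l46371 = true ∧
    allY (E.wth T4) l46372 = true :=
  ⟨by decide +kernel, by decide +kernel, by decide +kernel, by decide +kernel, by decide +kernel, by decide +kernel, by decide +kernel, by decide +kernel⟩

def t46373 : allY (E.wth T4) l46373 = true ∧
    allY (E.wth T4) l46374 = true ∧
    allY (E.wth T4) l46375 = true ∧
    allY (E.wth T4) l46376 = true ∧
    allY (E.wth T4) l46377 = true ∧
    allY (E.wth T4) l46378 = true ∧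
    allY (E.wth T4) l46379 = true ∧
    allY (E.wth T4) l46380 = true :=
  ⟨by decide +kernel, by decide +kernel, by decide +kernel, by decide +kernel, by decide +kernel, by decide +kernel, by decide +kernel, by decide +kernel⟩

def t46381 : allY (E.wth T4) l46381 = true ∧
    allY (E.wth T4) l46382 = true ∧
    allY (E.wth T4) l46383 = true ∧
    allY (E.wth T4) l46384 = true ∧
    allY (E.wth T4) l46385 = true ∧
    allY (E.wth T4) l46386 = true ∧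
    allY (E.wth T4) l46387 = true ∧
    allY (E.wth T4) l46388 = true :=
  ⟨by decide +kernel, by decide +kernel, by decide +kernel, by decide +kernel, by decide +kernel, by decide +kernel, by decide +kernel, by decide +kernel⟩

def t46389 : allY (E.wth T4) l46389 = true ∧
    allY (E.wth T4) l46390 = true ∧
    allY (E.wth T4) l46391 = true ∧
    allY (E.wth T4) l46392 = true ∧
    allY (E.wth T4) l46393 = true ∧
    allY (E.wth T4) l46394 = true ∧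
    allY (E.wth T4) l46395 = true ∧
    allY (E.wth T4) l46396 = true :=
  ⟨by decide +kernel, by decide +kernel, by decide +kernel, by decide +kernel, by decide +kernel, by decide +kernel, by decide +kernel, by decide +kernel⟩

def t46397 : allY (E.wth T4) l46397 = true ∧
    allY (E.wth T4) l46398 = true ∧
    allY (E.wth T4) l46399 = true ∧
    allY (E.wth T4) l46400 = true ∧
    allY (E.wth T4) l46401 = true ∧
    allY (E.wth T4) l46402 = true ∧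
    allY (E.wth T4) l46403 = true ∧
    allY (E.wth T4) l46404 = true :=
  ⟨by decide +kernel, by decide +kernel, by decide +kernel, by decide +kernel, by decide +kernel, by decide +kernel, by decide +kernel, by decide +kernel⟩

def t46405 : allY (E.wth T4) l46405 = true ∧
    allY (E.wth T4) l46406 = true ∧
    allY (E.wth T4) l46407 = true ∧
    allY (E.wth T4) l46408 = true ∧
    allY (E.wth T4) l46409 = true ∧
    allY (E.wth T4) l46410 = true ∧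
    allY (E.wth T4) l46411 = true ∧
    allY (E.wth T4) l46412 = true :=
  ⟨by decide +kernel, by decide +kernel, by decide +kernel, by decide +kernel, by decide +kernel, by decide +kernel, by decide +kernel, by decide +kernel⟩

def t46413 : allY (E.wth T4) l46413 = true ∧
    allY (E.wth T4) l46414 = true ∧
    allY (E.wth T4) l46415 = true ∧
    allY (E.wth T4) l46416 = true ∧
    allY (E.wth T4) l46417 = true ∧
    allY (E.wth T4) l46418 = true ∧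
    allY (E.wth T4) l46419 = true ∧
    allY (E.wth T4) l46420 = true :=
  ⟨by decide +kernel, by decide +kernel, by decide +kernel, by decide +kernel, by decide +kernel, by decide +kernel, by decide +kernel, by decide +kernel⟩

def t46421 : allY (E.wth T4) l46421 = true ∧
    allY (E.wth T4) l46422 = true ∧
    allY (E.wth T4) l46423 = true ∧
    allY (E.wth T4) l46424 = true ∧
    allY (E.wth T4) l46425 = true ∧
    allY (E.wth T4) l46426 = true ∧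
    allY (E.wth T4) l46427 = true ∧
    allY (E.wth T4) l46428 = true :=
  ⟨by decide +kernel, by decide +kernel, by decide +kernel, by decide +kernel, by decide +kernel, by decide +kernel, by decide +kernel, by decide +kernel⟩

def t46429 : allY (E.wth T4) l46429 = true ∧
    allY (E.wth T4) l46430 = true ∧
    allY (E.wth T4) l46431 = true ∧
    allY (E.wth T4) l46432 = true ∧
    allY (E.wth T4) l46433 = true ∧
    allY (E.wth T4) l46434 = true ∧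
    allY (E.wth T4) l46435 = true ∧
    allY (E.wth T4) l46436 = true :=
  ⟨by decide +kernel, by decide +kernel, by decide +kernel, by decide +kernel, by decide +kernel, by decide +kernel, by decide +kernel, by decide +kernel⟩

def t46437 : allY (E.wth T4) l46437 = true ∧
    allY (E.wth T4) l46438 = true ∧
    allY (E.wth T4) l46439 = true ∧
    allY (E.wth T4) l46440 = true ∧
    allY (E.wth T4) l46441 = true ∧
    allY (E.wth T4) l46442 = true ∧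
    allY (E.wth T4) l46443 = true ∧
    allY (E.wth T4) l46444 = true :=
  ⟨by decide +kernel, by decide +kernel, by decide +kernel, by decide +kernel, by decide +kernel, by decide +kernel, by decide +kernel, by decide +kernel⟩

def t46445 : allY (E.wth T4) l46445 = true ∧
    allY (E.wth T4) l46446 = true ∧
    allY (E.wth T4) l46447 = true ∧
    allY (E.wth T4) l46448 = true ∧
    allY (E.wth T4) l46449 = true ∧
    allY (E.wth T4) l46450 = true ∧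
    allY (E.wth T4) l46451 = true ∧
    allY (E.wth T4) l46452 = true :=
  ⟨by decide +kernel, by decide +kernel, by decide +kernel, by decide +kernel, by decide +kernel, by decide +kernel, by decide +kernel, by decide +kernel⟩

def t46453 : allY (E.wth T4) l46453 = true ∧
    allY (E.wth T4) l46454 = true ∧
    allY (E.wth T4) l46455 = true ∧
    allY (E.wth T4) l46456 = true ∧
    allY (E.wth T4) l46457 = true ∧
    allY (E.wth T4) l46458 = true ∧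
    allY (E.wth T4) l46459 = true ∧
    allY (E.wth T4) l46460 = true :=
  ⟨by decide +kernel, by decide +kernel, by decide +kernel, by decide +kernel, by decide +kernel, by decide +kernel, by decide +kernel, by decide +kernel⟩

def t46461 : allY (E.wth T4) l46461 = true ∧
    allY (E.wth T4) l46462 = true ∧
    allY (E.wth T4) l46463 = true ∧
    allY (E.wth T4) l46464 = true ∧
    allY (E.wth T4) l46465 = true ∧
    allY (E.wth T4) l46466 = true ∧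
    allY (E.wth T4) l46467 = true ∧
    allY (E.wth T4) l46468 = true :=
  ⟨by decide +kernel, by decide +kernel, by decide +kernel, by decide +kernel, by decide +kernel, by decide +kernel, by decide +kernel, by decide +kernel⟩

def t46469 : allY (E.wth T4) l46469 = true ∧
    allY (E.wth T4) l46470 = true ∧
    allY (E.wth T4) l46471 = true ∧
    allY (E.wth T4) l46472 = true ∧
    allY (E.wth T4) l46473 = true ∧
    allY (E.wth T4) l46474 = true ∧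
    allY (E.wth T4) l46475 = true ∧
    allY (E.wth T4) l46476 = true :=
  ⟨by decide +kernel, by decide +kernel, by decide +kernel, by decide +kernel, by decide +kernel, by decide +kernel, by decide +kernel, by decide +kernel⟩

def t46477 : allY (E.wth T4) l46477 = true ∧
    allY (E.wth T4) l46478 = true ∧
    allY (E.wth T4) l46479 = true ∧
    allY (E.wth T4) l46480 = true ∧
    allY (E.wth T4) l46481 = true ∧
    allY (E.wth T4) l46482 = true ∧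
    allY (E.wth T4) l46483 = true ∧
    allY (E.wth T4) l46484 = true :=
  ⟨by decide +kernel, by decide +kernel, by decide +kernel, by decide +kernel, by decide +kernel, by decide +kernel, by decide +kernel, by decide +kernel⟩

def t46485 : allY (E.wth T4) l46485 = true ∧
    allY (E.wth T4) l46486 = true ∧
    allY (E.wth T4) l46487 = true ∧
    allY (E.wth T4) l46488 = true ∧
    allY (E.wth T4) l46489 = true ∧
    allY (E.wth T4) l46490 = true ∧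
    allY (E.wth T4) l46491 = true ∧
    allY (E.wth T4) l46492 = true :=
  ⟨by decide +kernel, by decide +kernel, by decide +kernel, by decide +kernel, by decide +kernel, by decide +kernel, by decide +kernel, by decide +kernel⟩

def t46493 : allY (E.wth T4) l46493 = true ∧
    allY (E.wth T4) l46494 = true ∧
    allY (E.wth T4) l46495 = true ∧
    allY (E.wth T4) l46496 = true ∧
    allY (E.wth T4) l46497 = true ∧
    allY (E.wth T4) l46498 = true ∧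
    allY (E.wth T4) l46499 = true ∧
    allY (E.wth T4) l46500 = true :=
  ⟨by decide +kernel, by decide +kernel, by decide +kernel, by decide +kernel, by decide +kernel, by decide +kernel, by decide +kernel, by decide +kernel⟩

def t46501 : allY (E.wth T4) l46501 = true ∧
    allY (E.wth T4) l46502 = true ∧
    allY (E.wth T4) l46503 = true ∧
    allY (E.wth T4) l46504 = true ∧
    allY (E.wth T4) l46505 = true ∧
    allY (E.wth T4) l46506 = true ∧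
    allY (E.wth T4) l46507 = true ∧
    allY (E.wth T4) l46508 = true :=
  ⟨by decide +kernel, by decide +kernel, by decide +kernel, by decide +kernel, by decide +kernel, by decide +kernel, by decide +kernel, by decide +kernel⟩

def t46509 : allY (E.wth T4) l46509 = true ∧
    allY (E.wth T4) l46510 = true ∧
    allY (E.wth T4) l46511 = true ∧
    allY (E.wth T4) l46512 = true ∧
    allY (E.wth T4) l46513 = true ∧
    allY (E.wth T4) l46514 = true ∧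
    allY (E.wth T4) l46515 = true ∧
    allY (E.wth T4) l46516 = true :=
  ⟨by decide +kernel, by decide +kernel, by decide +kernel, by decide +kernel, by decide +kernel, by decide +kernel, by decide +kernel, by decide +kernel⟩

def t46517 : allY (E.wth T4) l46517 = true ∧
    allY (E.wth T4) l46518 = true ∧
    allY (E.wth T4) l46519 = true ∧
    allY (E.wth T4) l46520 = true ∧
    allY (E.wth T4) l46521 = true ∧
    allY (E.wth T4) l46522 = true ∧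
    allY (E.wth T4) l46523 = true ∧
    allY (E.wth T4) l46524 = true :=
  ⟨by decide +kernel, by decide +kernel, by decide +kernel, by decide +kernel, by decide +kernel, by decide +kernel, by decide +kernel, by decide +kernel⟩

def t46525 : allY (E.wth T4) l46525 = true ∧
    allY (E.wth T4) l46526 = true ∧
    allY (E.wth T4) l46527 = true ∧
    allY (E.wth T4) l46528 = true ∧
    allY (E.wth T4) l46529 = true ∧
    allY (E.wth T4) l46530 = true ∧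
    allY (E.wth T4) l46531 = true ∧
    allY (E.wth T4) l46532 = true :=
  ⟨by decide +kernel, by decide +kernel, by decide +kernel, by decide +kernel, by decide +kernel, by decide +kernel, by decide +kernel, by decide +kernel⟩

def t46533 : allY (E.wth T4) l46533 = true ∧
    allY (E.wth T4) l46534 = true ∧
    allY (E.wth T4) l46535 = true ∧
    allY (E.wth T4) l46536 = true ∧
    allY (E.wth T4) l46537 = true ∧
    allY (E.wth T4) l46538 = true ∧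
    allY (E.wth T4) l46539 = true ∧
    allY (E.wth T4) l46540 = true :=
  ⟨by decide +kernel, by decide +kernel, by decide +kernel, by decide +kernel, by decide +kernel, by decide +kernel, by decide +kernel, by decide +kernel⟩

def t46541 : allY (E.wth T4) l46541 = true ∧
    allY (E.wth T4) l46542 = true ∧
    allY (E.wth T4) l46543 = true ∧
    allY (E.wth T4) l46544 = true ∧
    allY (E.wth T4) l46545 = true ∧
    allY (E.wth T4) l46546 = true ∧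
    allY (E.wth T4) l46547 = true ∧
    allY (E.wth T4) l46548 = true :=
  ⟨by decide +kernel, by decide +kernel, by decide +kernel, by decide +kernel, by decide +kernel, by decide +kernel, by decide +kernel, by decide +kernel⟩

def t46549 : allY (E.wth T4) l46549 = true ∧
    allY (E.wth T4) l46550 = true ∧
    allY (E.wth T4) l46551 = true ∧
    allY (E.wth T4) l46552 = true ∧
    allY (E.wth T4) l46553 = true ∧
    allY (E.wth T4) l46554 = true ∧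
    allY (E.wth T4) l46555 = true ∧
    allY (E.wth T4) l46556 = true :=
  ⟨by decide +kernel, by decide +kernel, by decide +kernel, by decide +kernel, by decide +kernel, by decide +kernel, by decide +kernel, by decide +kernel⟩

def t46557 : allY (E.wth T4) l46557 = true ∧
    allY (E.wth T4) l46558 = true ∧
    allY (E.wth T4) l46559 = true ∧
    allY (E.wth T4) l46560 = true ∧
    allY (E.wth T4) l46561 = true ∧
    allY (E.wth T4) l46562 = true ∧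
    allY (E.wth T4) l46563 = true ∧
    allY (E.wth T4) l46564 = true :=
  ⟨by decide +kernel, by decide +kernel, by decide +kernel, by decide +kernel, by decide +kernel, by decide +kernel, by decide +kernel, by decide +kernel⟩

def t46565 : allY (E.wth T4) l46565 = true ∧
    allY (E.wth T4) l46566 = true ∧
    allY (E.wth T4) l46567 = true ∧
    allY (E.wth T4) l46568 = true ∧
    allY (E.wth T4) l46569 = true ∧
    allY (E.wth T4) l46570 = true ∧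
    allY (E.wth T4) l46571 = true ∧
    allY (E.wth T4) l46572 = true :=
  ⟨by decide +kernel, by decide +kernel, by decide +kernel, by decide +kernel, by decide +kernel, by decide +kernel, by decide +kernel, by decide +kernel⟩

def t46573 : allY (E.wth T4) l46573 = true ∧
    allY (E.wth T4) l46574 = true ∧
    allY (E.wth T4) l46575 = true ∧
    allY (E.wth T4) l46576 = true ∧
    allY (E.wth T4) l46577 = true ∧
    allY (E.wth T4) l46578 = true ∧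
    allY (E.wth T4) l46579 = true ∧
    allY (E.wth T4) l46580 = true :=
  ⟨by decide +kernel, by decide +kernel, by decide +kernel, by decide +kernel, by decide +kernel, by decide +kernel, by decide +kernel, by decide +kernel⟩

def t46581 : allY (E.wth T4) l46581 = true ∧
    allY (E.wth T4) l46582 = true ∧
    allY (E.wth T4) l46583 = true ∧
    allY (E.wth T4) l46584 = true ∧
    allY (E.wth T4) l46585 = true ∧
    allY (E.wth T4) l46586 = true ∧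
    allY (E.wth T4) l46587 = true ∧
    allY (E.wth T4) l46588 = true :=
  ⟨by decide +kernel, by decide +kernel, by decide +kernel, by decide +kernel, by decide +kernel, by decide +kernel, by decide +kernel, by decide +kernel⟩

def t46589 : allY (E.wth T4) l46589 = true ∧
    allY (E.wth T4) l46590 = true ∧
    allY (E.wth T4) l46591 = true ∧
    allY (E.wth T4) l46592 = true ∧
    allY (E.wth T4) l46593 = true ∧
    allY (E.wth T4) l46594 = true ∧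
    allY (E.wth T4) l46595 = true ∧
    allY (E.wth T4) l46596 = true :=
  ⟨by decide +kernel, by decide +kernel, by decide +kernel, by decide +kernel, by decide +kernel, by decide +kernel, by decide +kernel, by decide +kernel⟩

def t46597 : allY (E.wth T4) l46597 = true ∧
    allY (E.wth T4) l46598 = true ∧
    allY (E.wth T4) l46599 = true ∧
    allY (E.wth T4) l46600 = true ∧
    allY (E.wth T4) l46601 = true ∧
    allY (E.wth T4) l46602 = true ∧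
    allY (E.wth T4) l46603 = true ∧
    allY (E.wth T4) l46604 = true :=
  ⟨by decide +kernel, by decide +kernel, by decide +kernel, by decide +kernel, by decide +kernel, by decide +kernel, by decide +kernel, by decide +kernel⟩

def t46605 : allY (E.wth T4) l46605 = true ∧
    allY (E.wth T4) l46606 = true ∧
    allY (E.wth T4) l46607 = true ∧
    allY (E.wth T4) l46608 = true ∧
    allY (E.wth T4) l46609 = true ∧
    allY (E.wth T4) l46610 = true ∧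
    allY (E.wth T4) l46611 = true ∧
    allY (E.wth T4) l46612 = true :=
  ⟨by decide +kernel, by decide +kernel, by decide +kernel, by decide +kernel, by decide +kernel, by decide +kernel, by decide +kernel, by decide +kernel⟩

def t46613 : allY (E.wth T4) l46613 = true ∧
    allY (E.wth T4) l46614 = true ∧
    allY (E.wth T4) l46615 = true ∧
    allY (E.wth T4) l46616 = true ∧
    allY (E.wth T4) l46617 = true ∧
    allY (E.wth T4) l46618 = true ∧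
    allY (E.wth T4) l46619 = true ∧
    allY (E.wth T4) l46620 = true :=
  ⟨by decide +kernel, by decide +kernel, by decide +kernel, by decide +kernel, by decide +kernel, by decide +kernel, by decide +kernel, by decide +kernel⟩

def t46621 : allY (E.wth T4) l46621 = true ∧
    allY (E.wth T4) l46622 = true ∧
    allY (E.wth T4) l46623 = true ∧
    allY (E.wth T4) l46624 = true ∧
    allY (E.wth T4) l46625 = true ∧
    allY (E.wth T4) l46626 = true ∧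
    allY (E.wth T4) l46627 = true ∧
    allY (E.wth T4) l46628 = true :=
  ⟨by decide +kernel, by decide +kernel, by decide +kernel, by decide +kernel, by decide +kernel, by decide +kernel, by decide +kernel, by decide +kernel⟩

def t46629 : allY (E.wth T4) l46629 = true ∧
    allY (E.wth T4) l46630 = true ∧
    allY (E.wth T4) l46631 = true ∧
    allY (E.wth T4) l46632 = true ∧
    allY (E.wth T4) l46633 = true ∧
    allY (E.wth T4) l46634 = true ∧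
    allY (E.wth T4) l46635 = true ∧
    allY (E.wth T4) l46636 = true :=
  ⟨by decide +kernel, by decide +kernel, by decide +kernel, by decide +kernel, by decide +kernel, by decide +kernel, by decide +kernel, by decide +kernel⟩

def t46637 : allY (E.wth T4) l46637 = true ∧
    allY (E.wth T4) l46638 = true ∧
    allY (E.wth T4) l46639 = true :=
  ⟨by decide +kernel, by decide +kernel, by decide +kernel⟩

theorem a86 {p : Rf → Prop} (H : ∀ l, allY (E.wth T4) l = true → (lkp l).All p) :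
    b86.All p := ⟨⟨⟨⟨⟨⟨⟨⟨⟨H _ t46085.1, H _ t46085.2.1⟩, ⟨H _ t46085.2.2.1, H _ t46085.2.2.2.1⟩⟩, ⟨⟨H _ t46085.2.2.2.2.1, H _ t46085.2.2.2.2.2.1⟩, ⟨H _ t46085.2.2.2.2.2.2.1, H _ t46085.2.2.2.2.2.2.2⟩⟩⟩, ⟨⟨⟨H _ t46093.1, H _ t46093.2.1⟩, ⟨H _ t46093.2.2.1, H _ t46093.2.2.2.1⟩⟩, ⟨⟨H _ t46093.2.2.2.2.1, H _ t46093.2.2.2.2.2.1⟩, ⟨H _ t46093.2.2.2.2.2.2.1, ⟨H _ t46093.2.2.2.2.2.2.2, H _ t46101.1⟩⟩⟩⟩⟩, ⟨⟨⟨⟨H _ t46101.2.1, H _ t46101.2.2.1⟩, ⟨H _ t46101.2.2.2.1, H _ t46101.2.2.2.2.1⟩⟩, ⟨⟨H _ t46101.2.2.2.2.2.1, H _ t46101.2.2.2.2.2.2.1⟩, ⟨H _ t46101.2.2.2.2.2.2.2, H _ t46109.1⟩⟩⟩, ⟨⟨⟨H _ t46109.2.1, H _ t46109.2.2.1⟩, ⟨H _ t46109.2.2.2.1, H _ t46109.2.2.2.2.1⟩⟩, ⟨⟨H _ t46109.2.2.2.2.2.1, H _ t46109.2.2.2.2.2.2.1⟩, ⟨H _ t46109.2.2.2.2.2.2.2, ⟨H _ t46117.1, H _ t46117.2.1⟩⟩⟩⟩⟩⟩, ⟨⟨⟨⟨⟨H _ t46117.2.2.1, H _ t46117.2.2.2.1⟩, ⟨H _ t46117.2.2.2.2.1, H _ t46117.2.2.2.2.2.1⟩⟩, ⟨⟨H _ t46117.2.2.2.2.2.2.1, H _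 t46117.2.2.2.2.2.2.2⟩, ⟨H _ t46125.1, H _ t46125.2.1⟩⟩⟩, ⟨⟨⟨H _ t46125.2.2.1, H _ t46125.2.2.2.1⟩, ⟨H _ t46125.2.2.2.2.1, H _ t46125.2.2.2.2.2.1⟩⟩, ⟨⟨H _ t46125.2.2.2.2.2.2.1, H _ t46125.2.2.2.2.2.2.2⟩, ⟨H _ t46133.1, ⟨H _ t46133.2.1, H _ t46133.2.2.1⟩⟩⟩⟩⟩, ⟨⟨⟨⟨H _ t46133.2.2.2.1, H _ t46133.2.2.2.2.1⟩, ⟨H _ t46133.2.2.2.2.2.1, H _ t46133.2.2.2.2.2.2.1⟩⟩, ⟨⟨H _ t46133.2.2.2.2.2.2.2, H _ t46141.1⟩, ⟨H _ t46141.2.1, ⟨H _ t46141.2.2.1, H _ t46141.2.2.2.1⟩⟩⟩⟩, ⟨⟨⟨H _ t46141.2.2.2.2.1, H _ t46141.2.2.2.2.2.1⟩, ⟨H _ t46141.2.2.2.2.2.2.1, H _ t46141.2.2.2.2.2.2.2⟩⟩, ⟨⟨H _ t46149.1, H _ t46149.2.1⟩, ⟨H _ t46149.2.2.1, ⟨H _ t46149.2.2.2.1, H _ t46149.2.2.2.2.1⟩⟩⟩⟩⟩⟩⟩, ⟨⟨⟨⟨⟨⟨H _ t46149.2.2.2.2.2.1, H _ t46149.2.2.2.2.2.2.1⟩, ⟨H _ t46149.2.2.2.2.2.2.2, H _ t46157.1⟩⟩, ⟨⟨H _ t46157.2.1, H _ t46157.2.2.1⟩, ⟨H _ t46157.2.2.2.1, H _ t46157.2.2.2.2.1⟩⟩⟩, ⟨⟨⟨H _ t46157.2.2.2.2.2.1, H _ t46157.2.2.2.2.2.2.1⟩,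 ⟨H _ t46157.2.2.2.2.2.2.2, H _ t46165.1⟩⟩, ⟨⟨H _ t46165.2.1, H _ t46165.2.2.1⟩, ⟨H _ t46165.2.2.2.1, ⟨H _ t46165.2.2.2.2.1, H _ t46165.2.2.2.2.2.1⟩⟩⟩⟩⟩, ⟨⟨⟨⟨H _ t46165.2.2.2.2.2.2.1, H _ t46165.2.2.2.2.2.2.2⟩, ⟨H _ t46173.1, H _ t46173.2.1⟩⟩, ⟨⟨H _ t46173.2.2.1, H _ t46173.2.2.2.1⟩, ⟨H _ t46173.2.2.2.2.1, H _ t46173.2.2.2.2.2.1⟩⟩⟩, ⟨⟨⟨H _ t46173.2.2.2.2.2.2.1, H _ t46173.2.2.2.2.2.2.2⟩, ⟨H _ t46181.1, H _ t46181.2.1⟩⟩, ⟨⟨H _ t46181.2.2.1, H _ t46181.2.2.2.1⟩, ⟨H _ t46181.2.2.2.2.1, ⟨H _ t46181.2.2.2.2.2.1, H _ t46181.2.2.2.2.2.2.1⟩⟩⟩⟩⟩⟩, ⟨⟨⟨⟨⟨H _ t46181.2.2.2.2.2.2.2, H _ t46189.1⟩, ⟨H _ t46189.2.1, H _ t46189.2.2.1⟩⟩, ⟨⟨H _ t46189.2.2.2.1, H _ t46189.2.2.2.2.1⟩, ⟨H _ t46189.2.2.2.2.2.1, H _ t46189.2.2.2.2.2.2.1⟩⟩⟩, ⟨⟨⟨H _ t46189.2.2.2.2.2.2.2, H _ t46197.1⟩, ⟨H _ t46197.2.1, H _ t46197.2.2.1⟩⟩, ⟨⟨H _ t46197.2.2.2.1, H _ t46197.2.2.2.2.1⟩, ⟨H _ t46197.2.2.2.2.2.1, ⟨H _ t46197.2.2.2.2.2.2.1, H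 _ t46197.2.2.2.2.2.2.2⟩⟩⟩⟩⟩, ⟨⟨⟨⟨H _ t46205.1, H _ t46205.2.1⟩, ⟨H _ t46205.2.2.1, H _ t46205.2.2.2.1⟩⟩, ⟨⟨H _ t46205.2.2.2.2.1, H _ t46205.2.2.2.2.2.1⟩, ⟨H _ t46205.2.2.2.2.2.2.1, ⟨H _ t46205.2.2.2.2.2.2.2, H _ t46213.1⟩⟩⟩⟩, ⟨⟨⟨H _ t46213.2.1, H _ t46213.2.2.1⟩, ⟨H _ t46213.2.2.2.1, H _ t46213.2.2.2.2.1⟩⟩, ⟨⟨H _ t46213.2.2.2.2.2.1, H _ t46213.2.2.2.2.2.2.1⟩, ⟨H _ t46213.2.2.2.2.2.2.2, ⟨H _ t46221.1, H _ t46221.2.1⟩⟩⟩⟩⟩⟩⟩⟩, ⟨⟨⟨⟨⟨⟨⟨H _ t46221.2.2.1, H _ t46221.2.2.2.1⟩, ⟨H _ t46221.2.2.2.2.1, H _ t46221.2.2.2.2.2.1⟩⟩, ⟨⟨H _ t46221.2.2.2.2.2.2.1, H _ t46221.2.2.2.2.2.2.2⟩, ⟨H _ t46229.1, H _ t46229.2.1⟩⟩⟩, ⟨⟨⟨H _ t46229.2.2.1, H _ t46229.2.2.2.1⟩, ⟨H _ t46229.2.2.2.2.1, H _ t46229.2.2.2.2.2.1⟩⟩, ⟨⟨H _ t46229.2.2.2.2.2.2.1, H _ t46229.2.2.2.2.2.2.2⟩, ⟨H _ t46237.1, ⟨H _ t46237.2.1, H _ t46237.2.2.1⟩⟩⟩⟩⟩, ⟨⟨⟨⟨H _ t46237.2.2.2.1, H _ t46237.2.2.2.2.1⟩, ⟨H _ t46237.2.2.2.2.2.1, H _ t46237.2.2.2.2.2.2.1⟩⟩,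 ⟨⟨H _ t46237.2.2.2.2.2.2.2, H _ t46245.1⟩, ⟨H _ t46245.2.1, H _ t46245.2.2.1⟩⟩⟩, ⟨⟨⟨H _ t46245.2.2.2.1, H _ t46245.2.2.2.2.1⟩, ⟨H _ t46245.2.2.2.2.2.1, H _ t46245.2.2.2.2.2.2.1⟩⟩, ⟨⟨H _ t46245.2.2.2.2.2.2.2, H _ t46253.1⟩, ⟨H _ t46253.2.1, ⟨H _ t46253.2.2.1, H _ t46253.2.2.2.1⟩⟩⟩⟩⟩⟩, ⟨⟨⟨⟨⟨H _ t46253.2.2.2.2.1, H _ t46253.2.2.2.2.2.1⟩, ⟨H _ t46253.2.2.2.2.2.2.1, H _ t46253.2.2.2.2.2.2.2⟩⟩, ⟨⟨H _ t46261.1, H _ t46261.2.1⟩, ⟨H _ t46261.2.2.1, H _ t46261.2.2.2.1⟩⟩⟩, ⟨⟨⟨H _ t46261.2.2.2.2.1, H _ t46261.2.2.2.2.2.1⟩, ⟨H _ t46261.2.2.2.2.2.2.1, H _ t46261.2.2.2.2.2.2.2⟩⟩, ⟨⟨H _ t46269.1, H _ t46269.2.1⟩, ⟨H _ t46269.2.2.1, ⟨H _ t46269.2.2.2.1, H _ t46269.2.2.2.2.1⟩⟩⟩⟩⟩, ⟨⟨⟨⟨H _ t46269.2.2.2.2.2.1, H _ t46269.2.2.2.2.2.2.1⟩, ⟨H _ t46269.2.2.2.2.2.2.2, H _ t46277.1⟩⟩, ⟨⟨H _ t46277.2.1, H _ t46277.2.2.1⟩, ⟨H _ t46277.2.2.2.1, ⟨H _ t46277.2.2.2.2.1, H _ t46277.2.2.2.2.2.1⟩⟩⟩⟩, ⟨⟨⟨H _ t46277.2.2.2.2.2.2.1,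 H _ t46277.2.2.2.2.2.2.2⟩, ⟨H _ t46285.1, H _ t46285.2.1⟩⟩, ⟨⟨H _ t46285.2.2.1, H _ t46285.2.2.2.1⟩, ⟨H _ t46285.2.2.2.2.1, ⟨H _ t46285.2.2.2.2.2.1, H _ t46285.2.2.2.2.2.2.1⟩⟩⟩⟩⟩⟩⟩, ⟨⟨⟨⟨⟨⟨H _ t46285.2.2.2.2.2.2.2, H _ t46293.1⟩, ⟨H _ t46293.2.1, H _ t46293.2.2.1⟩⟩, ⟨⟨H _ t46293.2.2.2.1, H _ t46293.2.2.2.2.1⟩, ⟨H _ t46293.2.2.2.2.2.1, H _ t46293.2.2.2.2.2.2.1⟩⟩⟩, ⟨⟨⟨H _ t46293.2.2.2.2.2.2.2, H _ t46301.1⟩, ⟨H _ t46301.2.1, H _ t46301.2.2.1⟩⟩, ⟨⟨H _ t46301.2.2.2.1, H _ t46301.2.2.2.2.1⟩, ⟨H _ t46301.2.2.2.2.2.1, ⟨H _ t46301.2.2.2.2.2.2.1, H _ t46301.2.2.2.2.2.2.2⟩⟩⟩⟩⟩, ⟨⟨⟨⟨H _ t46309.1, H _ t46309.2.1⟩, ⟨H _ t46309.2.2.1, H _ t46309.2.2.2.1⟩⟩, ⟨⟨H _ t46309.2.2.2.2.1, H _ t46309.2.2.2.2.2.1⟩, ⟨H _ t46309.2.2.2.2.2.2.1, ⟨H _ t46309.2.2.2.2.2.2.2, H _ t46317.1⟩⟩⟩⟩, ⟨⟨⟨H _ t46317.2.1, H _ t46317.2.2.1⟩, ⟨H _ t46317.2.2.2.1, H _ t46317.2.2.2.2.1⟩⟩, ⟨⟨H _ t46317.2.2.2.2.2.1, H _ t46317.2.2.2.2.2.2.1⟩,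 ⟨H _ t46317.2.2.2.2.2.2.2, ⟨H _ t46325.1, H _ t46325.2.1⟩⟩⟩⟩⟩⟩, ⟨⟨⟨⟨⟨H _ t46325.2.2.1, H _ t46325.2.2.2.1⟩, ⟨H _ t46325.2.2.2.2.1, H _ t46325.2.2.2.2.2.1⟩⟩, ⟨⟨H _ t46325.2.2.2.2.2.2.1, H _ t46325.2.2.2.2.2.2.2⟩, ⟨H _ t46333.1, H _ t46333.2.1⟩⟩⟩, ⟨⟨⟨H _ t46333.2.2.1, H _ t46333.2.2.2.1⟩, ⟨H _ t46333.2.2.2.2.1, H _ t46333.2.2.2.2.2.1⟩⟩, ⟨⟨H _ t46333.2.2.2.2.2.2.1, H _ t46333.2.2.2.2.2.2.2⟩, ⟨H _ t46341.1, ⟨H _ t46341.2.1, H _ t46341.2.2.1⟩⟩⟩⟩⟩, ⟨⟨⟨⟨H _ t46341.2.2.2.1, H _ t46341.2.2.2.2.1⟩, ⟨H _ t46341.2.2.2.2.2.1, H _ t46341.2.2.2.2.2.2.1⟩⟩, ⟨⟨H _ t46341.2.2.2.2.2.2.2, H _ t46349.1⟩, ⟨H _ t46349.2.1, ⟨H _ t46349.2.2.1, H _ t46349.2.2.2.1⟩⟩⟩⟩, ⟨⟨⟨H _ t46349.2.2.2.2.1, H _ t46349.2.2.2.2.2.1⟩, ⟨H _ t46349.2.2.2.2.2.2.1, H _ t46349.2.2.2.2.2.2.2⟩⟩, ⟨⟨H _ t46357.1, H _ t46357.2.1⟩, ⟨H _ t46357.2.2.1, ⟨H _ t46357.2.2.2.1, H _ t46357.2.2.2.2.1⟩⟩⟩⟩⟩⟩⟩⟩⟩, ⟨⟨⟨⟨⟨⟨⟨⟨H _ t46357.2.2.2.2.2.1, H _ t46357.2.2.2.2.2.2.1⟩,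 ⟨H _ t46357.2.2.2.2.2.2.2, H _ t46365.1⟩⟩, ⟨⟨H _ t46365.2.1, H _ t46365.2.2.1⟩, ⟨H _ t46365.2.2.2.1, H _ t46365.2.2.2.2.1⟩⟩⟩, ⟨⟨⟨H _ t46365.2.2.2.2.2.1, H _ t46365.2.2.2.2.2.2.1⟩, ⟨H _ t46365.2.2.2.2.2.2.2, H _ t46373.1⟩⟩, ⟨⟨H _ t46373.2.1, H _ t46373.2.2.1⟩, ⟨H _ t46373.2.2.2.1, ⟨H _ t46373.2.2.2.2.1, H _ t46373.2.2.2.2.2.1⟩⟩⟩⟩⟩, ⟨⟨⟨⟨H _ t46373.2.2.2.2.2.2.1, H _ t46373.2.2.2.2.2.2.2⟩, ⟨H _ t46381.1, H _ t46381.2.1⟩⟩, ⟨⟨H _ t46381.2.2.1, H _ t46381.2.2.2.1⟩, ⟨H _ t46381.2.2.2.2.1, H _ t46381.2.2.2.2.2.1⟩⟩⟩, ⟨⟨⟨H _ t46381.2.2.2.2.2.2.1, H _ t46381.2.2.2.2.2.2.2⟩, ⟨H _ t46389.1, H _ t46389.2.1⟩⟩, ⟨⟨H _ t46389.2.2.1, H _ t46389.2.2.2.1⟩, ⟨H _ t46389.2.2.2.2.1, ⟨H _ t46389.2.2.2.2.2.1, H _ t46389.2.2.2.2.2.2.1⟩⟩⟩⟩⟩⟩, ⟨⟨⟨⟨⟨H _ t46389.2.2.2.2.2.2.2, H _ t46397.1⟩, ⟨H _ t46397.2.1, H _ t46397.2.2.1⟩⟩, ⟨⟨H _ t46397.2.2.2.1, H _ t46397.2.2.2.2.1⟩, ⟨H _ t46397.2.2.2.2.2.1, H _ t46397.2.2.2.2.2.2.1⟩⟩⟩,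 ⟨⟨⟨H _ t46397.2.2.2.2.2.2.2, H _ t46405.1⟩, ⟨H _ t46405.2.1, H _ t46405.2.2.1⟩⟩, ⟨⟨H _ t46405.2.2.2.1, H _ t46405.2.2.2.2.1⟩, ⟨H _ t46405.2.2.2.2.2.1, ⟨H _ t46405.2.2.2.2.2.2.1, H _ t46405.2.2.2.2.2.2.2⟩⟩⟩⟩⟩, ⟨⟨⟨⟨H _ t46413.1, H _ t46413.2.1⟩, ⟨H _ t46413.2.2.1, H _ t46413.2.2.2.1⟩⟩, ⟨⟨H _ t46413.2.2.2.2.1, H _ t46413.2.2.2.2.2.1⟩, ⟨H _ t46413.2.2.2.2.2.2.1, ⟨H _ t46413.2.2.2.2.2.2.2, H _ t46421.1⟩⟩⟩⟩, ⟨⟨⟨H _ t46421.2.1, H _ t46421.2.2.1⟩, ⟨H _ t46421.2.2.2.1, H _ t46421.2.2.2.2.1⟩⟩, ⟨⟨H _ t46421.2.2.2.2.2.1, H _ t46421.2.2.2.2.2.2.1⟩, ⟨H _ t46421.2.2.2.2.2.2.2, ⟨H _ t46429.1, H _ t46429.2.1⟩⟩⟩⟩⟩⟩⟩, ⟨⟨⟨⟨⟨⟨H _ t46429.2.2.1, H _ t46429.2.2.2.1⟩, ⟨H _ t46429.2.2.2.2.1, H _ t46429.2.2.2.2.2.1⟩⟩, ⟨⟨H _ t46429.2.2.2.2.2.2.1, H _ t46429.2.2.2.2.2.2.2⟩, ⟨H _ t46437.1, H _ t46437.2.1⟩⟩⟩, ⟨⟨⟨H _ t46437.2.2.1, H _ t46437.2.2.2.1⟩, ⟨H _ t46437.2.2.2.2.1, H _ t46437.2.2.2.2.2.1⟩⟩, ⟨⟨H _ t46437.2.2.2.2.2.2.1,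 H _ t46437.2.2.2.2.2.2.2⟩, ⟨H _ t46445.1, ⟨H _ t46445.2.1, H _ t46445.2.2.1⟩⟩⟩⟩⟩, ⟨⟨⟨⟨H _ t46445.2.2.2.1, H _ t46445.2.2.2.2.1⟩, ⟨H _ t46445.2.2.2.2.2.1, H _ t46445.2.2.2.2.2.2.1⟩⟩, ⟨⟨H _ t46445.2.2.2.2.2.2.2, H _ t46453.1⟩, ⟨H _ t46453.2.1, ⟨H _ t46453.2.2.1, H _ t46453.2.2.2.1⟩⟩⟩⟩, ⟨⟨⟨H _ t46453.2.2.2.2.1, H _ t46453.2.2.2.2.2.1⟩, ⟨H _ t46453.2.2.2.2.2.2.1, H _ t46453.2.2.2.2.2.2.2⟩⟩, ⟨⟨H _ t46461.1, H _ t46461.2.1⟩, ⟨H _ t46461.2.2.1, ⟨H _ t46461.2.2.2.1, H _ t46461.2.2.2.2.1⟩⟩⟩⟩⟩⟩, ⟨⟨⟨⟨⟨H _ t46461.2.2.2.2.2.1, H _ t46461.2.2.2.2.2.2.1⟩, ⟨H _ t46461.2.2.2.2.2.2.2, H _ t46469.1⟩⟩, ⟨⟨H _ t46469.2.1, H _ t46469.2.2.1⟩, ⟨H _ t46469.2.2.2.1, H _ t46469.2.2.2.2.1⟩⟩⟩, ⟨⟨⟨H _ t46469.2.2.2.2.2.1, H _ t46469.2.2.2.2.2.2.1⟩, ⟨H _ t46469.2.2.2.2.2.2.2, H _ t46477.1⟩⟩, ⟨⟨H _ t46477.2.1, H _ t46477.2.2.1⟩, ⟨H _ t46477.2.2.2.1, ⟨H _ t46477.2.2.2.2.1, H _ t46477.2.2.2.2.2.1⟩⟩⟩⟩⟩, ⟨⟨⟨⟨H _ t46477.2.2.2.2.2.2.1,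 H _ t46477.2.2.2.2.2.2.2⟩, ⟨H _ t46485.1, H _ t46485.2.1⟩⟩, ⟨⟨H _ t46485.2.2.1, H _ t46485.2.2.2.1⟩, ⟨H _ t46485.2.2.2.2.1, ⟨H _ t46485.2.2.2.2.2.1, H _ t46485.2.2.2.2.2.2.1⟩⟩⟩⟩, ⟨⟨⟨H _ t46485.2.2.2.2.2.2.2, H _ t46493.1⟩, ⟨H _ t46493.2.1, H _ t46493.2.2.1⟩⟩, ⟨⟨H _ t46493.2.2.2.1, H _ t46493.2.2.2.2.1⟩, ⟨H _ t46493.2.2.2.2.2.1, ⟨H _ t46493.2.2.2.2.2.2.1, H _ t46493.2.2.2.2.2.2.2⟩⟩⟩⟩⟩⟩⟩⟩, ⟨⟨⟨⟨⟨⟨⟨H _ t46501.1, H _ t46501.2.1⟩, ⟨H _ t46501.2.2.1, H _ t46501.2.2.2.1⟩⟩, ⟨⟨H _ t46501.2.2.2.2.1, H _ t46501.2.2.2.2.2.1⟩, ⟨H _ t46501.2.2.2.2.2.2.1, H _ t46501.2.2.2.2.2.2.2⟩⟩⟩, ⟨⟨⟨H _ t46509.1, H _ t46509.2.1⟩, ⟨H _ t46509.2.2.1, H _ t46509.2.2.2.1⟩⟩, ⟨⟨H _ t46509.2.2.2.2.1, H _ t46509.2.2.2.2.2.1⟩, ⟨H _ t46509.2.2.2.2.2.2.1, ⟨H _ t46509.2.2.2.2.2.2.2, H _ t46517.1⟩⟩⟩⟩⟩, ⟨⟨⟨⟨H _ t46517.2.1, H _ t46517.2.2.1⟩, ⟨H _ t46517.2.2.2.1, H _ t46517.2.2.2.2.1⟩⟩, ⟨⟨H _ t46517.2.2.2.2.2.1, H _ t46517.2.2.2.2.2.2.1⟩,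 ⟨H _ t46517.2.2.2.2.2.2.2, H _ t46525.1⟩⟩⟩, ⟨⟨⟨H _ t46525.2.1, H _ t46525.2.2.1⟩, ⟨H _ t46525.2.2.2.1, H _ t46525.2.2.2.2.1⟩⟩, ⟨⟨H _ t46525.2.2.2.2.2.1, H _ t46525.2.2.2.2.2.2.1⟩, ⟨H _ t46525.2.2.2.2.2.2.2, ⟨H _ t46533.1, H _ t46533.2.1⟩⟩⟩⟩⟩⟩, ⟨⟨⟨⟨⟨H _ t46533.2.2.1, H _ t46533.2.2.2.1⟩, ⟨H _ t46533.2.2.2.2.1, H _ t46533.2.2.2.2.2.1⟩⟩, ⟨⟨H _ t46533.2.2.2.2.2.2.1, H _ t46533.2.2.2.2.2.2.2⟩, ⟨H _ t46541.1, H _ t46541.2.1⟩⟩⟩, ⟨⟨⟨H _ t46541.2.2.1, H _ t46541.2.2.2.1⟩, ⟨H _ t46541.2.2.2.2.1, H _ t46541.2.2.2.2.2.1⟩⟩, ⟨⟨H _ t46541.2.2.2.2.2.2.1, H _ t46541.2.2.2.2.2.2.2⟩, ⟨H _ t46549.1, ⟨H _ t46549.2.1, H _ t46549.2.2.1⟩⟩⟩⟩⟩, ⟨⟨⟨⟨H _ t46549.2.2.2.1, H _ t46549.2.2.2.2.1⟩, ⟨H _ t46549.2.2.2.2.2.1, H _ t46549.2.2.2.2.2.2.1⟩⟩, ⟨⟨H _ t46549.2.2.2.2.2.2.2, H _ t46557.1⟩, ⟨H _ t46557.2.1, ⟨H _ t46557.2.2.1, H _ t46557.2.2.2.1⟩⟩⟩⟩, ⟨⟨⟨H _ t46557.2.2.2.2.1, H _ t46557.2.2.2.2.2.1⟩, ⟨H _ t46557.2.2.2.2.2.2.1,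 H _ t46557.2.2.2.2.2.2.2⟩⟩, ⟨⟨H _ t46565.1, H _ t46565.2.1⟩, ⟨H _ t46565.2.2.1, ⟨H _ t46565.2.2.2.1, H _ t46565.2.2.2.2.1⟩⟩⟩⟩⟩⟩⟩, ⟨⟨⟨⟨⟨⟨H _ t46565.2.2.2.2.2.1, H _ t46565.2.2.2.2.2.2.1⟩, ⟨H _ t46565.2.2.2.2.2.2.2, H _ t46573.1⟩⟩, ⟨⟨H _ t46573.2.1, H _ t46573.2.2.1⟩, ⟨H _ t46573.2.2.2.1, H _ t46573.2.2.2.2.1⟩⟩⟩, ⟨⟨⟨H _ t46573.2.2.2.2.2.1, H _ t46573.2.2.2.2.2.2.1⟩, ⟨H _ t46573.2.2.2.2.2.2.2, H _ t46581.1⟩⟩, ⟨⟨H _ t46581.2.1, H _ t46581.2.2.1⟩, ⟨H _ t46581.2.2.2.1, ⟨H _ t46581.2.2.2.2.1, H _ t46581.2.2.2.2.2.1⟩⟩⟩⟩⟩, ⟨⟨⟨⟨H _ t46581.2.2.2.2.2.2.1, H _ t46581.2.2.2.2.2.2.2⟩, ⟨H _ t46589.1, H _ t46589.2.1⟩⟩, ⟨⟨H _ t46589.2.2.1, H _ t46589.2.2.2.1⟩, ⟨H _ t46589.2.2.2.2.1, ⟨H _ t46589.2.2.2.2.2.1, H _ t46589.2.2.2.2.2.2.1⟩⟩⟩⟩, ⟨⟨⟨H _ t46589.2.2.2.2.2.2.2, H _ t46597.1⟩, ⟨H _ t46597.2.1, H _ t46597.2.2.1⟩⟩, ⟨⟨H _ t46597.2.2.2.1, H _ t46597.2.2.2.2.1⟩, ⟨H _ t46597.2.2.2.2.2.1, ⟨H _ t46597.2.2.2.2.2.2.1,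 H _ t46597.2.2.2.2.2.2.2⟩⟩⟩⟩⟩⟩, ⟨⟨⟨⟨⟨H _ t46605.1, H _ t46605.2.1⟩, ⟨H _ t46605.2.2.1, H _ t46605.2.2.2.1⟩⟩, ⟨⟨H _ t46605.2.2.2.2.1, H _ t46605.2.2.2.2.2.1⟩, ⟨H _ t46605.2.2.2.2.2.2.1, H _ t46605.2.2.2.2.2.2.2⟩⟩⟩, ⟨⟨⟨H _ t46613.1, H _ t46613.2.1⟩, ⟨H _ t46613.2.2.1, H _ t46613.2.2.2.1⟩⟩, ⟨⟨H _ t46613.2.2.2.2.1, H _ t46613.2.2.2.2.2.1⟩, ⟨H _ t46613.2.2.2.2.2.2.1, ⟨H _ t46613.2.2.2.2.2.2.2, H _ t46621.1⟩⟩⟩⟩⟩, ⟨⟨⟨⟨H _ t46621.2.1, H _ t46621.2.2.1⟩, ⟨H _ t46621.2.2.2.1, H _ t46621.2.2.2.2.1⟩⟩, ⟨⟨H _ t46621.2.2.2.2.2.1, H _ t46621.2.2.2.2.2.2.1⟩, ⟨H _ t46621.2.2.2.2.2.2.2, ⟨H _ t46629.1, H _ t46629.2.1⟩⟩⟩⟩, ⟨⟨⟨H _ t46629.2.2.1, H _ t46629.2.2.2.1⟩, ⟨H _ t46629.2.2.2.2.1, H _ t46629.2.2.2.2.2.1⟩⟩, ⟨⟨H _ t46629.2.2.2.2.2.2.1, H _ t46629.2.2.2.2.2.2.2⟩, ⟨H _ t46637.1, ⟨H _ t46637.2.1, H _ t46637.2.2⟩⟩⟩⟩⟩⟩⟩⟩⟩⟩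

def t46640 : allY (E.wth T5) l46640 = true ∧
    allY (E.wth T5) l46641 = true ∧
    allY (E.wth T5) l46642 = true ∧
    allY (E.wth T5) l46643 = true ∧
    allY (E.wth T5) l46644 = true ∧
    allY (E.wth T5) l46645 = true ∧
    allY (E.wth T5) l46646 = true ∧
    allY (E.wth T5) l46647 = true :=
  ⟨by decide +kernel, by decide +kernel, by decide +kernel, by decide +kernel, by decide +kernel, by decide +kernel, by decide +kernel, by decide +kernel⟩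

def t46648 : allY (E.wth T5) l46648 = true ∧
    allY (E.wth T5) l46649 = true ∧
    allY (E.wth T5) l46650 = true ∧
    allY (E.wth T5) l46651 = true ∧
    allY (E.wth T5) l46652 = true ∧
    allY (E.wth T5) l46653 = true ∧
    allY (E.wth T5) l46654 = true ∧
    allY (E.wth T5) l46655 = true :=
  ⟨by decide +kernel, by decide +kernel, by decide +kernel, by decide +kernel, by decide +kernel, by decide +kernel, by decide +kernel, by decide +kernel⟩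

def t46656 : allY (E.wth T5) l46656 = true ∧
    allY (E.wth T5) l46657 = true ∧
    allY (E.wth T5) l46658 = true ∧
    allY (E.wth T5) l46659 = true ∧
    allY (E.wth T5) l46660 = true ∧
    allY (E.wth T5) l46661 = true ∧
    allY (E.wth T5) l46662 = true ∧
    allY (E.wth T5) l46663 = true :=
  ⟨by decide +kernel, by decide +kernel, by decide +kernel, by decide +kernel, by decide +kernel, by decide +kernel, by decide +kernel, by decide +kernel⟩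

theorem a87 {p : Rf → Prop} (H : ∀ l, allY (E.wth T5) l = true → (lkp l).All p) :
    b87.All p := ⟨⟨⟨⟨H _ t46640.1, ⟨H _ t46640.2.1, H _ t46640.2.2.1⟩⟩, ⟨H _ t46640.2.2.2.1, ⟨H _ t46640.2.2.2.2.1, H _ t46640.2.2.2.2.2.1⟩⟩⟩, ⟨⟨H _ t46640.2.2.2.2.2.2.1, ⟨H _ t46640.2.2.2.2.2.2.2, H _ t46648.1⟩⟩, ⟨H _ t46648.2.1, ⟨H _ t46648.2.2.1, H _ t46648.2.2.2.1⟩⟩⟩⟩, ⟨⟨⟨H _ t46648.2.2.2.2.1, ⟨H _ t46648.2.2.2.2.2.1, H _ t46648.2.2.2.2.2.2.1⟩⟩, ⟨H _ t46648.2.2.2.2.2.2.2, ⟨H _ t46656.1, H _ t46656.2.1⟩⟩⟩, ⟨⟨H _ t46656.2.2.1, ⟨H _ t46656.2.2.2.1, H _ t46656.2.2.2.2.1⟩⟩, ⟨H _ t46656.2.2.2.2.2.1, ⟨H _ t46656.2.2.2.2.2.2.1, H _ t46656.2.2.2.2.2.2.2⟩⟩⟩⟩⟩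

end Pool.Agent.MP_c853c5_nt.X.C4950
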