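import Pool.Agent.MP_c853c5_nt.X.C4950.Env
import Pool.Agent.MP_c853c5_nt.X.C4950.Tab

set_option autoImplicit false
set_option maxRecDepth 8192
set_option linter.all false

namespace Pool.Agent.MP_c853c5_nt.X.C4950

open Pool.Agent.MP_c853c5_nt.X

def t46664 : allY (E.wth T5) l46664 = true ∧
    allY (E.wth T5) l46665 = true ∧
    allY (E.wth T5) l46666 = true ∧
    allY (E.wth T5) l46667 = true ∧
    allY (E.wth T5) l46668 = true ∧
    allY (E.wth T5) l46669 = true ∧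
    allY (E.wth T5) l46670 = true ∧
    allY (E.wth T5) l46671 = true :=
  ⟨by decide +kernel, by decide +kernel, by decide +kernel, by decide +kernel, by decide +kernel, by decide +kernel, by decide +kernel, by decide +kernel⟩

def t46672 : allY (E.wth T5) l46672 = true ∧
    allY (E.wth T5) l46673 = true ∧
    allY (E.wth T5) l46674 = true ∧
    allY (E.wth T5) l46675 = true ∧
    allY (E.wth T5) l46676 = true ∧
    allY (E.wth T5) l46677 = true ∧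
    allY (E.wth T5) l46678 = true ∧
    allY (E.wth T5) l46679 = true :=
  ⟨by decide +kernel, by decide +kernel, by decide +kernel, by decide +kernel, by decide +kernel, by decide +kernel, by decide +kernel, by decide +kernel⟩

def t46680 : allY (E.wth T5) l46680 = true ∧
    allY (E.wth T5) l46681 = true ∧
    allY (E.wth T5) l46682 = true ∧
    allY (E.wth T5) l46683 = true ∧
    allY (E.wth T5) l46684 = true ∧
    allY (E.wth T5) l46685 = true ∧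
    allY (E.wth T5) l46686 = true ∧
    allY (E.wth T5) l46687 = true :=
  ⟨by decide +kernel, by decide +kernel, by decide +kernel, by decide +kernel, by decide +kernel, by decide +kernel, by decide +kernel, by decide +kernel⟩

def t46688 : allY (E.wth T5) l46688 = true ∧
    allY (E.wth T5) l46689 = true ∧
    allY (E.wth T5) l46690 = true ∧
    allY (E.wth T5) l46691 = true ∧
    allY (E.wth T5) l46692 = true ∧
    allY (E.wth T5) l46693 = true ∧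
    allY (E.wth T5) l46694 = true ∧
    allY (E.wth T5) l46695 = true :=
  ⟨by decide +kernel, by decide +kernel, by decide +kernel, by decide +kernel, by decide +kernel, by decide +kernel, by decide +kernel, by decide +kernel⟩

def t46696 : allY (E.wth T5) l46696 = true ∧
    allY (E.wth T5) l46697 = true ∧
    allY (E.wth T5) l46698 = true ∧
    allY (E.wth T5) l46699 = true ∧
    allY (E.wth T5) l46700 = true ∧
    allY (E.wth T5) l46701 = true ∧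
    allY (E.wth T5) l46702 = true ∧
    allY (E.wth T5) l46703 = true :=
  ⟨by decide +kernel, by decide +kernel, by decide +kernel, by decide +kernel, by decide +kernel, by decide +kernel, by decide +kernel, by decide +kernel⟩

def t46704 : allY (E.wth T5) l46704 = true ∧
    allY (E.wth T5) l46705 = true ∧
    allY (E.wth T5) l46706 = true ∧
    allY (E.wth T5) l46707 = true ∧
    allY (E.wth T5) l46708 = true ∧
    allY (E.wth T5) l46709 = true ∧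
    allY (E.wth T5) l46710 = true ∧
    allY (E.wth T5) l46711 = true :=
  ⟨by decide +kernel, by decide +kernel, by decide +kernel, by decide +kernel, by decide +kernel, by decide +kernel, by decide +kernel, by decide +kernel⟩

def t46712 : allY (E.wth T5) l46712 = true ∧
    allY (E.wth T5) l46713 = true ∧
    allY (E.wth T5) l46714 = true ∧
    allY (E.wth T5) l46715 = true ∧
    allY (E.wth T5) l46716 = true ∧
    allY (E.wth T5) l46717 = true ∧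
    allY (E.wth T5) l46718 = true ∧
    allY (E.wth T5) l46719 = true :=
  ⟨by decide +kernel, by decide +kernel, by decide +kernel, by decide +kernel, by decide +kernel, by decide +kernel, by decide +kernel, by decide +kernel⟩

def t46720 : allY (E.wth T5) l46720 = true ∧
    allY (E.wth T5) l46721 = true ∧
    allY (E.wth T5) l46722 = true ∧
    allY (E.wth T5) l46723 = true ∧
    allY (E.wth T5) l46724 = true ∧
    allY (E.wth T5) l46725 = true ∧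
    allY (E.wth T5) l46726 = true ∧
    allY (E.wth T5) l46727 = true :=
  ⟨by decide +kernel, by decide +kernel, by decide +kernel, by decide +kernel, by decide +kernel, by decide +kernel, by decide +kernel, by decide +kernel⟩

def t46728 : allY (E.wth T5) l46728 = true ∧
    allY (E.wth T5) l46729 = true ∧
    allY (E.wth T5) l46730 = true ∧
    allY (E.wth T5) l46731 = true ∧
    allY (E.wth T5) l46732 = true ∧
    allY (E.wth T5) l46733 = true ∧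
    allY (E.wth T5) l46734 = true ∧
    allY (E.wth T5) l46735 = true :=
  ⟨by decide +kernel, by decide +kernel, by decide +kernel, by decide +kernel, by decide +kernel, by decide +kernel, by decide +kernel, by decide +kernel⟩

def t46736 : allY (E.wth T5) l46736 = true ∧
    allY (E.wth T5) l46737 = true ∧
    allY (E.wth T5) l46738 = true ∧
    allY (E.wth T5) l46739 = true ∧
    allY (E.wth T5) l46740 = true ∧
    allY (E.wth T5) l46741 = true ∧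
    allY (E.wth T5) l46742 = true ∧
    allY (E.wth T5) l46743 = true :=
  ⟨by decide +kernel, by decide +kernel, by decide +kernel, by decide +kernel, by decide +kernel, by decide +kernel, by decide +kernel, by decide +kernel⟩

def t46744 : allY (E.wth T5) l46744 = true ∧
    allY (E.wth T5) l46745 = true ∧
    allY (E.wth T5) l46746 = true ∧
    allY (E.wth T5) l46747 = true ∧
    allY (E.wth T5) l46748 = true ∧
    allY (E.wth T5) l46749 = true ∧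
    allY (E.wth T5) l46750 = true ∧
    allY (E.wth T5) l46751 = true :=
  ⟨by decide +kernel, by decide +kernel, by decide +kernel, by decide +kernel, by decide +kernel, by decide +kernel, by decide +kernel, by decide +kernel⟩

def t46752 : allY (E.wth T5) l46752 = true ∧
    allY (E.wth T5) l46753 = true ∧
    allY (E.wth T5) l46754 = true ∧
    allY (E.wth T5) l46755 = true ∧
    allY (E.wth T5) l46756 = true ∧
    allY (E.wth T5) l46757 = true ∧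
    allY (E.wth T5) l46758 = true ∧
    allY (E.wth T5) l46759 = true :=
  ⟨by decide +kernel, by decide +kernel, by decide +kernel, by decide +kernel, by decide +kernel, by decide +kernel, by decide +kernel, by decide +kernel⟩

def t46760 : allY (E.wth T5) l46760 = true ∧
    allY (E.wth T5) l46761 = true ∧
    allY (E.wth T5) l46762 = true ∧
    allY (E.wth T5) l46763 = true ∧
    allY (E.wth T5) l46764 = true ∧
    allY (E.wth T5) l46765 = true ∧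
    allY (E.wth T5) l46766 = true ∧
    allY (E.wth T5) l46767 = true :=
  ⟨by decide +kernel, by decide +kernel, by decide +kernel, by decide +kernel, by decide +kernel, by decide +kernel, by decide +kernel, by decide +kernel⟩

def t46768 : allY (E.wth T5) l46768 = true ∧
    allY (E.wth T5) l46769 = true ∧
    allY (E.wth T5) l46770 = true ∧
    allY (E.wth T5) l46771 = true ∧
    allY (E.wth T5) l46772 = true ∧
    allY (E.wth T5) l46773 = true ∧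
    allY (E.wth T5) l46774 = true ∧
    allY (E.wth T5) l46775 = true :=
  ⟨by decide +kernel, by decide +kernel, by decide +kernel, by decide +kernel, by decide +kernel, by decide +kernel, by decide +kernel, by decide +kernel⟩

def t46776 : allY (E.wth T5) l46776 = true ∧
    allY (E.wth T5) l46777 = true ∧
    allY (E.wth T5) l46778 = true ∧
    allY (E.wth T5) l46779 = true ∧
    allY (E.wth T5) l46780 = true ∧
    allY (E.wth T5) l46781 = true ∧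
    allY (E.wth T5) l46782 = true ∧
    allY (E.wth T5) l46783 = true :=
  ⟨by decide +kernel, by decide +kernel, by decide +kernel, by decide +kernel, by decide +kernel, by decide +kernel, by decide +kernel, by decide +kernel⟩

def t46784 : allY (E.wth T5) l46784 = true ∧
    allY (E.wth T5) l46785 = true ∧
    allY (E.wth T5) l46786 = true ∧
    allY (E.wth T5) l46787 = true ∧
    allY (E.wth T5) l46788 = true ∧
    allY (E.wth T5) l46789 = true ∧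
    allY (E.wth T5) l46790 = true ∧
    allY (E.wth T5) l46791 = true :=
  ⟨by decide +kernel, by decide +kernel, by decide +kernel, by decide +kernel, by decide +kernel, by decide +kernel, by decide +kernel, by decide +kernel⟩

def t46792 : allY (E.wth T5) l46792 = true ∧
    allY (E.wth T5) l46793 = true ∧
    allY (E.wth T5) l46794 = true ∧
    allY (E.wth T5) l46795 = true ∧
    allY (E.wth T5) l46796 = true ∧
    allY (E.wth T5) l46797 = true ∧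
    allY (E.wth T5) l46798 = true ∧
    allY (E.wth T5) l46799 = true :=
  ⟨by decide +kernel, by decide +kernel, by decide +kernel, by decide +kernel, by decide +kernel, by decide +kernel, by decide +kernel, by decide +kernel⟩

def t46800 : allY (E.wth T5) l46800 = true ∧
    allY (E.wth T5) l46801 = true ∧
    allY (E.wth T5) l46802 = true ∧
    allY (E.wth T5) l46803 = true ∧
    allY (E.wth T5) l46804 = true ∧
    allY (E.wth T5) l46805 = true ∧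
    allY (E.wth T5) l46806 = true ∧
    allY (E.wth T5) l46807 = true :=
  ⟨by decide +kernel, by decide +kernel, by decide +kernel, by decide +kernel, by decide +kernel, by decide +kernel, by decide +kernel, by decide +kernel⟩

def t46808 : allY (E.wth T5) l46808 = true ∧
    allY (E.wth T5) l46809 = true ∧
    allY (E.wth T5) l46810 = true ∧
    allY (E.wth T5) l46811 = true ∧
    allY (E.wth T5) l46812 = true ∧
    allY (E.wth T5) l46813 = true ∧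
    allY (E.wth T5) l46814 = true ∧
    allY (E.wth T5) l46815 = true :=
  ⟨by decide +kernel, by decide +kernel, by decide +kernel, by decide +kernel, by decide +kernel, by decide +kernel, by decide +kernel, by decide +kernel⟩

def t46816 : allY (E.wth T5) l46816 = true ∧
    allY (E.wth T5) l46817 = true ∧
    allY (E.wth T5) l46818 = true ∧
    allY (E.wth T5) l46819 = true ∧
    allY (E.wth T5) l46820 = true ∧
    allY (E.wth T5) l46821 = true ∧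
    allY (E.wth T5) l46822 = true ∧
    allY (E.wth T5) l46823 = true :=
  ⟨by decide +kernel, by decide +kernel, by decide +kernel, by decide +kernel, by decide +kernel, by decide +kernel, by decide +kernel, by decide +kernel⟩

def t46824 : allY (E.wth T5) l46824 = true ∧
    allY (E.wth T5) l46825 = true ∧
    allY (E.wth T5) l46826 = true ∧
    allY (E.wth T5) l46827 = true ∧
    allY (E.wth T5) l46828 = true ∧
    allY (E.wth T5) l46829 = true ∧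
    allY (E.wth T5) l46830 = true ∧
    allY (E.wth T5) l46831 = true :=
  ⟨by decide +kernel, by decide +kernel, by decide +kernel, by decide +kernel, by decide +kernel, by decide +kernel, by decide +kernel, by decide +kernel⟩

def t46832 : allY (E.wth T5) l46832 = true ∧
    allY (E.wth T5) l46833 = true ∧
    allY (E.wth T5) l46834 = true ∧
    allY (E.wth T5) l46835 = true ∧
    allY (E.wth T5) l46836 = true ∧
    allY (E.wth T5) l46837 = true ∧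
    allY (E.wth T5) l46838 = true ∧
    allY (E.wth T5) l46839 = true :=
  ⟨by decide +kernel, by decide +kernel, by decide +kernel, by decide +kernel, by decide +kernel, by decide +kernel, by decide +kernel, by decide +kernel⟩

def t46840 : allY (E.wth T5) l46840 = true ∧
    allY (E.wth T5) l46841 = true ∧
    allY (E.wth T5) l46842 = true ∧
    allY (E.wth T5) l46843 = true ∧
    allY (E.wth T5) l46844 = true ∧
    allY (E.wth T5) l46845 = true ∧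
    allY (E.wth T5) l46846 = true ∧
    allY (E.wth T5) l46847 = true :=
  ⟨by decide +kernel, by decide +kernel, by decide +kernel, by decide +kernel, by decide +kernel, by decide +kernel, by decide +kernel, by decide +kernel⟩

def t46848 : allY (E.wth T5) l46848 = true ∧
    allY (E.wth T5) l46849 = true ∧
    allY (E.wth T5) l46850 = true ∧
    allY (E.wth T5) l46851 = true ∧
    allY (E.wth T5) l46852 = true ∧
    allY (E.wth T5) l46853 = true ∧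
    allY (E.wth T5) l46854 = true ∧
    allY (E.wth T5) l46855 = true :=
  ⟨by decide +kernel, by decide +kernel, by decide +kernel, by decide +kernel, by decide +kernel, by decide +kernel, by decide +kernel, by decide +kernel⟩

def t46856 : allY (E.wth T5) l46856 = true ∧
    allY (E.wth T5) l46857 = true ∧
    allY (E.wth T5) l46858 = true ∧
    allY (E.wth T5) l46859 = true ∧
    allY (E.wth T5) l46860 = true ∧
    allY (E.wth T5) l46861 = true ∧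
    allY (E.wth T5) l46862 = true ∧
    allY (E.wth T5) l46863 = true :=
  ⟨by decide +kernel, by decide +kernel, by decide +kernel, by decide +kernel, by decide +kernel, by decide +kernel, by decide +kernel, by decide +kernel⟩

def t46864 : allY (E.wth T5) l46864 = true ∧
    allY (E.wth T5) l46865 = true ∧
    allY (E.wth T5) l46866 = true ∧
    allY (E.wth T5) l46867 = true ∧
    allY (E.wth T5) l46868 = true ∧
    allY (E.wth T5) l46869 = true ∧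
    allY (E.wth T5) l46870 = true ∧
    allY (E.wth T5) l46871 = true :=
  ⟨by decide +kernel, by decide +kernel, by decide +kernel, by decide +kernel, by decide +kernel, by decide +kernel, by decide +kernel, by decide +kernel⟩

def t46872 : allY (E.wth T5) l46872 = true ∧
    allY (E.wth T5) l46873 = true ∧
    allY (E.wth T5) l46874 = true ∧
    allY (E.wth T5) l46875 = true ∧
    allY (E.wth T5) l46876 = true ∧
    allY (E.wth T5) l46877 = true ∧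
    allY (E.wth T5) l46878 = true ∧
    allY (E.wth T5) l46879 = true :=
  ⟨by decide +kernel, by decide +kernel, by decide +kernel, by decide +kernel, by decide +kernel, by decide +kernel, by decide +kernel, by decide +kernel⟩

def t46880 : allY (E.wth T5) l46880 = true ∧
    allY (E.wth T5) l46881 = true ∧
    allY (E.wth T5) l46882 = true ∧
    allY (E.wth T5) l46883 = true ∧
    allY (E.wth T5) l46884 = true ∧
    allY (E.wth T5) l46885 = true ∧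
    allY (E.wth T5) l46886 = true ∧
    allY (E.wth T5) l46887 = true :=
  ⟨by decide +kernel, by decide +kernel, by decide +kernel, by decide +kernel, by decide +kernel, by decide +kernel, by decide +kernel, by decide +kernel⟩

def t46888 : allY (E.wth T5) l46888 = true ∧
    allY (E.wth T5) l46889 = true ∧
    allY (E.wth T5) l46890 = true ∧
    allY (E.wth T5) l46891 = true ∧
    allY (E.wth T5) l46892 = true ∧
    allY (E.wth T5) l46893 = true ∧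
    allY (E.wth T5) l46894 = true ∧
    allY (E.wth T5) l46895 = true :=
  ⟨by decide +kernel, by decide +kernel, by decide +kernel, by decide +kernel, by decide +kernel, by decide +kernel, by decide +kernel, by decide +kernel⟩

def t46896 : allY (E.wth T5) l46896 = true ∧
    allY (E.wth T5) l46897 = true ∧
    allY (E.wth T5) l46898 = true ∧
    allY (E.wth T5) l46899 = true ∧
    allY (E.wth T5) l46900 = true ∧
    allY (E.wth T5) l46901 = true ∧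
    allY (E.wth T5) l46902 = true ∧
    allY (E.wth T5) l46903 = true :=
  ⟨by decide +kernel, by decide +kernel, by decide +kernel, by decide +kernel, by decide +kernel, by decide +kernel, by decide +kernel, by decide +kernel⟩

def t46904 : allY (E.wth T5) l46904 = true ∧
    allY (E.wth T5) l46905 = true ∧
    allY (E.wth T5) l46906 = true ∧
    allY (E.wth T5) l46907 = true ∧
    allY (E.wth T5) l46908 = true ∧
    allY (E.wth T5) l46909 = true ∧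
    allY (E.wth T5) l46910 = true ∧
    allY (E.wth T5) l46911 = true :=
  ⟨by decide +kernel, by decide +kernel, by decide +kernel, by decide +kernel, by decide +kernel, by decide +kernel, by decide +kernel, by decide +kernel⟩

def t46912 : allY (E.wth T5) l46912 = true ∧
    allY (E.wth T5) l46913 = true ∧
    allY (E.wth T5) l46914 = true ∧
    allY (E.wth T5) l46915 = true ∧
    allY (E.wth T5) l46916 = true ∧
    allY (E.wth T5) l46917 = true ∧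
    allY (E.wth T5) l46918 = true ∧
    allY (E.wth T5) l46919 = true :=
  ⟨by decide +kernel, by decide +kernel, by decide +kernel, by decide +kernel, by decide +kernel, by decide +kernel, by decide +kernel, by decide +kernel⟩

def t46920 : allY (E.wth T5) l46920 = true ∧
    allY (E.wth T5) l46921 = true ∧
    allY (E.wth T5) l46922 = true ∧
    allY (E.wth T5) l46923 = true ∧
    allY (E.wth T5) l46924 = true ∧
    allY (E.wth T5) l46925 = true ∧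
    allY (E.wth T5) l46926 = true ∧
    allY (E.wth T5) l46927 = true :=
  ⟨by decide +kernel, by decide +kernel, by decide +kernel, by decide +kernel, by decide +kernel, by decide +kernel, by decide +kernel, by decide +kernel⟩

def t46928 : allY (E.wth T5) l46928 = true ∧
    allY (E.wth T5) l46929 = true ∧
    allY (E.wth T5) l46930 = true ∧
    allY (E.wth T5) l46931 = true ∧
    allY (E.wth T5) l46932 = true ∧
    allY (E.wth T5) l46933 = true ∧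
    allY (E.wth T5) l46934 = true ∧
    allY (E.wth T5) l46935 = true :=
  ⟨by decide +kernel, by decide +kernel, by decide +kernel, by decide +kernel, by decide +kernel, by decide +kernel, by decide +kernel, by decide +kernel⟩

def t46936 : allY (E.wth T5) l46936 = true ∧
    allY (E.wth T5) l46937 = true ∧
    allY (E.wth T5) l46938 = true ∧
    allY (E.wth T5) l46939 = true ∧
    allY (E.wth T5) l46940 = true ∧
    allY (E.wth T5) l46941 = true ∧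
    allY (E.wth T5) l46942 = true ∧
    allY (E.wth T5) l46943 = true :=
  ⟨by decide +kernel, by decide +kernel, by decide +kernel, by decide +kernel, by decide +kernel, by decide +kernel, by decide +kernel, by decide +kernel⟩

def t46944 : allY (E.wth T5) l46944 = true ∧
    allY (E.wth T5) l46945 = true ∧
    allY (E.wth T5) l46946 = true ∧
    allY (E.wth T5) l46947 = true ∧
    allY (E.wth T5) l46948 = true ∧
    allY (E.wth T5) l46949 = true ∧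
    allY (E.wth T5) l46950 = true ∧
    allY (E.wth T5) l46951 = true :=
  ⟨by decide +kernel, by decide +kernel, by decide +kernel, by decide +kernel, by decide +kernel, by decide +kernel, by decide +kernel, by decide +kernel⟩

def t46952 : allY (E.wth T5) l46952 = true ∧
    allY (E.wth T5) l46953 = true ∧
    allY (E.wth T5) l46954 = true ∧
    allY (E.wth T5) l46955 = true ∧
    allY (E.wth T5) l46956 = true ∧
    allY (E.wth T5) l46957 = true ∧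
    allY (E.wth T5) l46958 = true ∧
    allY (E.wth T5) l46959 = true :=
  ⟨by decide +kernel, by decide +kernel, by decide +kernel, by decide +kernel, by decide +kernel, by decide +kernel, by decide +kernel, by decide +kernel⟩

def t46960 : allY (E.wth T5) l46960 = true ∧
    allY (E.wth T5) l46961 = true ∧
    allY (E.wth T5) l46962 = true ∧
    allY (E.wth T5) l46963 = true ∧
    allY (E.wth T5) l46964 = true ∧
    allY (E.wth T5) l46965 = true ∧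
    allY (E.wth T5) l46966 = true ∧
    allY (E.wth T5) l46967 = true :=
  ⟨by decide +kernel, by decide +kernel, by decide +kernel, by decide +kernel, by decide +kernel, by decide +kernel, by decide +kernel, by decide +kernel⟩

def t46968 : allY (E.wth T5) l46968 = true ∧
    allY (E.wth T5) l46969 = true ∧
    allY (E.wth T5) l46970 = true ∧
    allY (E.wth T5) l46971 = true ∧
    allY (E.wth T5) l46972 = true ∧
    allY (E.wth T5) l46973 = true ∧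
    allY (E.wth T5) l46974 = true ∧
    allY (E.wth T5) l46975 = true :=
  ⟨by decide +kernel, by decide +kernel, by decide +kernel, by decide +kernel, by decide +kernel, by decide +kernel, by decide +kernel, by decide +kernel⟩

def t46976 : allY (E.wth T5) l46976 = true ∧
    allY (E.wth T5) l46977 = true ∧
    allY (E.wth T5) l46978 = true ∧
    allY (E.wth T5) l46979 = true ∧
    allY (E.wth T5) l46980 = true ∧
    allY (E.wth T5) l46981 = true ∧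
    allY (E.wth T5) l46982 = true ∧
    allY (E.wth T5) l46983 = true :=
  ⟨by decide +kernel, by decide +kernel, by decide +kernel, by decide +kernel, by decide +kernel, by decide +kernel, by decide +kernel, by decide +kernel⟩

def t46984 : allY (E.wth T5) l46984 = true ∧
    allY (E.wth T5) l46985 = true ∧
    allY (E.wth T5) l46986 = true ∧
    allY (E.wth T5) l46987 = true ∧
    allY (E.wth T5) l46988 = true ∧
    allY (E.wth T5) l46989 = true ∧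
    allY (E.wth T5) l46990 = true ∧
    allY (E.wth T5) l46991 = true :=
  ⟨by decide +kernel, by decide +kernel, by decide +kernel, by decide +kernel, by decide +kernel, by decide +kernel, by decide +kernel, by decide +kernel⟩

def t46992 : allY (E.wth T5) l46992 = true ∧
    allY (E.wth T5) l46993 = true ∧
    allY (E.wth T5) l46994 = true ∧
    allY (E.wth T5) l46995 = true ∧
    allY (E.wth T5) l46996 = true ∧
    allY (E.wth T5) l46997 = true ∧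
    allY (E.wth T5) l46998 = true ∧
    allY (E.wth T5) l46999 = true :=
  ⟨by decide +kernel, by decide +kernel, by decide +kernel, by decide +kernel, by decide +kernel, by decide +kernel, by decide +kernel, by decide +kernel⟩

def t47000 : allY (E.wth T5) l47000 = true ∧
    allY (E.wth T5) l47001 = true ∧
    allY (E.wth T5) l47002 = true ∧
    allY (E.wth T5) l47003 = true ∧
    allY (E.wth T5) l47004 = true ∧
    allY (E.wth T5) l47005 = true ∧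
    allY (E.wth T5) l47006 = true ∧
    allY (E.wth T5) l47007 = true :=
  ⟨by decide +kernel, by decide +kernel, by decide +kernel, by decide +kernel, by decide +kernel, by decide +kernel, by decide +kernel, by decide +kernel⟩

def t47008 : allY (E.wth T5) l47008 = true ∧
    allY (E.wth T5) l47009 = true ∧
    allY (E.wth T5) l47010 = true ∧
    allY (E.wth T5) l47011 = true ∧
    allY (E.wth T5) l47012 = true ∧
    allY (E.wth T5) l47013 = true ∧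
    allY (E.wth T5) l47014 = true ∧
    allY (E.wth T5) l47015 = true :=
  ⟨by decide +kernel, by decide +kernel, by decide +kernel, by decide +kernel, by decide +kernel, by decide +kernel, by decide +kernel, by decide +kernel⟩

def t47016 : allY (E.wth T5) l47016 = true ∧
    allY (E.wth T5) l47017 = true ∧
    allY (E.wth T5) l47018 = true ∧
    allY (E.wth T5) l47019 = true ∧
    allY (E.wth T5) l47020 = true ∧
    allY (E.wth T5) l47021 = true ∧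
    allY (E.wth T5) l47022 = true ∧
    allY (E.wth T5) l47023 = true :=
  ⟨by decide +kernel, by decide +kernel, by decide +kernel, by decide +kernel, by decide +kernel, by decide +kernel, by decide +kernel, by decide +kernel⟩

def t47024 : allY (E.wth T5) l47024 = true ∧
    allY (E.wth T5) l47025 = true ∧
    allY (E.wth T5) l47026 = true ∧
    allY (E.wth T5) l47027 = true ∧
    allY (E.wth T5) l47028 = true ∧
    allY (E.wth T5) l47029 = true ∧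
    allY (E.wth T5) l47030 = true ∧
    allY (E.wth T5) l47031 = true :=
  ⟨by decide +kernel, by decide +kernel, by decide +kernel, by decide +kernel, by decide +kernel, by decide +kernel, by decide +kernel, by decide +kernel⟩

def t47032 : allY (E.wth T5) l47032 = true ∧
    allY (E.wth T5) l47033 = true ∧
    allY (E.wth T5) l47034 = true ∧
    allY (E.wth T5) l47035 = true ∧
    allY (E.wth T5) l47036 = true ∧
    allY (E.wth T5) l47037 = true ∧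
    allY (E.wth T5) l47038 = true ∧
    allY (E.wth T5) l47039 = true :=
  ⟨by decide +kernel, by decide +kernel, by decide +kernel, by decide +kernel, by decide +kernel, by decide +kernel, by decide +kernel, by decide +kernel⟩

def t47040 : allY (E.wth T5) l47040 = true ∧
    allY (E.wth T5) l47041 = true ∧
    allY (E.wth T5) l47042 = true ∧
    allY (E.wth T5) l47043 = true ∧
    allY (E.wth T5) l47044 = true ∧
    allY (E.wth T5) l47045 = true ∧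
    allY (E.wth T5) l47046 = true ∧
    allY (E.wth T5) l47047 = true :=
  ⟨by decide +kernel, by decide +kernel, by decide +kernel, by decide +kernel, by decide +kernel, by decide +kernel, by decide +kernel, by decide +kernel⟩

def t47048 : allY (E.wth T5) l47048 = true ∧
    allY (E.wth T5) l47049 = true ∧
    allY (E.wth T5) l47050 = true ∧
    allY (E.wth T5) l47051 = true ∧
    allY (E.wth T5) l47052 = true ∧
    allY (E.wth T5) l47053 = true ∧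
    allY (E.wth T5) l47054 = true ∧
    allY (E.wth T5) l47055 = true :=
  ⟨by decide +kernel, by decide +kernel, by decide +kernel, by decide +kernel, by decide +kernel, by decide +kernel, by decide +kernel, by decide +kernel⟩

def t47056 : allY (E.wth T5) l47056 = true ∧
    allY (E.wth T5) l47057 = true ∧
    allY (E.wth T5) l47058 = true ∧
    allY (E.wth T5) l47059 = true ∧
    allY (E.wth T5) l47060 = true ∧
    allY (E.wth T5) l47061 = true ∧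
    allY (E.wth T5) l47062 = true ∧
    allY (E.wth T5) l47063 = true :=
  ⟨by decide +kernel, by decide +kernel, by decide +kernel, by decide +kernel, by decide +kernel, by decide +kernel, by decide +kernel, by decide +kernel⟩

def t47064 : allY (E.wth T5) l47064 = true ∧
    allY (E.wth T5) l47065 = true ∧
    allY (E.wth T5) l47066 = true ∧
    allY (E.wth T5) l47067 = true ∧
    allY (E.wth T5) l47068 = true ∧
    allY (E.wth T5) l47069 = true ∧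
    allY (E.wth T5) l47070 = true ∧
    allY (E.wth T5) l47071 = true :=
  ⟨by decide +kernel, by decide +kernel, by decide +kernel, by decide +kernel, by decide +kernel, by decide +kernel, by decide +kernel, by decide +kernel⟩

def t47072 : allY (E.wth T5) l47072 = true ∧
    allY (E.wth T5) l47073 = true ∧
    allY (E.wth T5) l47074 = true ∧
    allY (E.wth T5) l47075 = true ∧
    allY (E.wth T5) l47076 = true ∧
    allY (E.wth T5) l47077 = true ∧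
    allY (E.wth T5) l47078 = true ∧
    allY (E.wth T5) l47079 = true :=
  ⟨by decide +kernel, by decide +kernel, by decide +kernel, by decide +kernel, by decide +kernel, by decide +kernel, by decide +kernel, by decide +kernel⟩

def t47080 : allY (E.wth T5) l47080 = true ∧
    allY (E.wth T5) l47081 = true ∧
    allY (E.wth T5) l47082 = true ∧
    allY (E.wth T5) l47083 = true ∧
    allY (E.wth T5) l47084 = true ∧
    allY (E.wth T5) l47085 = true ∧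
    allY (E.wth T5) l47086 = true ∧
    allY (E.wth T5) l47087 = true :=
  ⟨by decide +kernel, by decide +kernel, by decide +kernel, by decide +kernel, by decide +kernel, by decide +kernel, by decide +kernel, by decide +kernel⟩

def t47088 : allY (E.wth T5) l47088 = true ∧
    allY (E.wth T5) l47089 = true ∧
    allY (E.wth T5) l47090 = true ∧
    allY (E.wth T5) l47091 = true ∧
    allY (E.wth T5) l47092 = true ∧
    allY (E.wth T5) l47093 = true ∧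
    allY (E.wth T5) l47094 = true ∧
    allY (E.wth T5) l47095 = true :=
  ⟨by decide +kernel, by decide +kernel, by decide +kernel, by decide +kernel, by decide +kernel, by decide +kernel, by decide +kernel, by decide +kernel⟩

def t47096 : allY (E.wth T5) l47096 = true ∧
    allY (E.wth T5) l47097 = true ∧
    allY (E.wth T5) l47098 = true ∧
    allY (E.wth T5) l47099 = true ∧
    allY (E.wth T5) l47100 = true ∧
    allY (E.wth T5) l47101 = true ∧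
    allY (E.wth T5) l47102 = true ∧
    allY (E.wth T5) l47103 = true :=
  ⟨by decide +kernel, by decide +kernel, by decide +kernel, by decide +kernel, by decide +kernel, by decide +kernel, by decide +kernel, by decide +kernel⟩

def t47104 : allY (E.wth T5) l47104 = true ∧
    allY (E.wth T5) l47105 = true ∧
    allY (E.wth T5) l47106 = true ∧
    allY (E.wth T5) l47107 = true ∧
    allY (E.wth T5) l47108 = true :=
  ⟨by decide +kernel, by decide +kernel, by decide +kernel, by decide +kernel, by decide +kernel⟩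

theorem a88 {p : Rf → Prop} (H : ∀ l, allY (E.wth T5) l = true → (lkp l).All p) :
    b88.All p := ⟨⟨⟨⟨⟨⟨⟨⟨H _ t46664.1, ⟨H _ t46664.2.1, H _ t46664.2.2.1⟩⟩, ⟨H _ t46664.2.2.2.1, ⟨H _ t46664.2.2.2.2.1, H _ t46664.2.2.2.2.2.1⟩⟩⟩, ⟨⟨H _ t46664.2.2.2.2.2.2.1, ⟨H _ t46664.2.2.2.2.2.2.2, H _ t46672.1⟩⟩, ⟨⟨H _ t46672.2.1, H _ t46672.2.2.1⟩, ⟨H _ t46672.2.2.2.1, H _ t46672.2.2.2.2.1⟩⟩⟩⟩, ⟨⟨⟨H _ t46672.2.2.2.2.2.1, ⟨H _ t46672.2.2.2.2.2.2.1, H _ t46672.2.2.2.2.2.2.2⟩⟩, ⟨⟨H _ t46680.1, H _ t46680.2.1⟩, ⟨H _ t46680.2.2.1, H _ t46680.2.2.2.1⟩⟩⟩, ⟨⟨H _ t46680.2.2.2.2.1, ⟨H _ t46680.2.2.2.2.2.1, H _ t46680.2.2.2.2.2.2.1⟩⟩, ⟨⟨H _ t46680.2.2.2.2.2.2.2, H _ t46688.1⟩, ⟨H _ t46688.2.1, H _ t46688.2.2.1⟩⟩⟩⟩⟩, ⟨⟨⟨⟨H _ t46688.2.2.2.1, ⟨H _ t46688.2.2.2.2.1, H _ t46688.2.2.2.2.2.1⟩⟩, ⟨⟨H _ t46688.2.2.2.2.2.2.1, H _ t46688.2.2.2.2.2.2.2⟩, ⟨H _ t46696.1, H _ t46696.2.1⟩⟩⟩, ⟨⟨H _ t46696.2.2.1, ⟨H _ t46696.2.2.2.1,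 H _ t46696.2.2.2.2.1⟩⟩, ⟨⟨H _ t46696.2.2.2.2.2.1, H _ t46696.2.2.2.2.2.2.1⟩, ⟨H _ t46696.2.2.2.2.2.2.2, H _ t46704.1⟩⟩⟩⟩, ⟨⟨⟨H _ t46704.2.1, ⟨H _ t46704.2.2.1, H _ t46704.2.2.2.1⟩⟩, ⟨⟨H _ t46704.2.2.2.2.1, H _ t46704.2.2.2.2.2.1⟩, ⟨H _ t46704.2.2.2.2.2.2.1, H _ t46704.2.2.2.2.2.2.2⟩⟩⟩, ⟨⟨H _ t46712.1, ⟨H _ t46712.2.1, H _ t46712.2.2.1⟩⟩, ⟨⟨H _ t46712.2.2.2.1, H _ t46712.2.2.2.2.1⟩, ⟨H _ t46712.2.2.2.2.2.1, H _ t46712.2.2.2.2.2.2.1⟩⟩⟩⟩⟩⟩, ⟨⟨⟨⟨⟨H _ t46712.2.2.2.2.2.2.2, ⟨H _ t46720.1, H _ t46720.2.1⟩⟩, ⟨⟨H _ t46720.2.2.1, H _ t46720.2.2.2.1⟩, ⟨H _ t46720.2.2.2.2.1, H _ t46720.2.2.2.2.2.1⟩⟩⟩, ⟨⟨H _ t46720.2.2.2.2.2.2.1, ⟨H _ t46720.2.2.2.2.2.2.2, H _ t46728.1⟩⟩, ⟨⟨H _ t46728.2.1, H _ t46728.2.2.1⟩, ⟨H _ t46728.2.2.2.1, H _ t46728.2.2.2.2.1⟩⟩⟩⟩, ⟨⟨⟨H _ t46728.2.2.2.2.2.1, ⟨H _ t46728.2.2.2.2.2.2.1, H _ t46728.2.2.2.2.2.2.2⟩⟩, ⟨⟨H _ t46736.1, H _ t46736.2.1⟩, ⟨H _ t46736.2.2.1, H _ t46736.2.2.2.1⟩⟩⟩,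 ⟨⟨H _ t46736.2.2.2.2.1, ⟨H _ t46736.2.2.2.2.2.1, H _ t46736.2.2.2.2.2.2.1⟩⟩, ⟨⟨H _ t46736.2.2.2.2.2.2.2, H _ t46744.1⟩, ⟨H _ t46744.2.1, H _ t46744.2.2.1⟩⟩⟩⟩⟩, ⟨⟨⟨⟨H _ t46744.2.2.2.1, ⟨H _ t46744.2.2.2.2.1, H _ t46744.2.2.2.2.2.1⟩⟩, ⟨⟨H _ t46744.2.2.2.2.2.2.1, H _ t46744.2.2.2.2.2.2.2⟩, ⟨H _ t46752.1, H _ t46752.2.1⟩⟩⟩, ⟨⟨H _ t46752.2.2.1, ⟨H _ t46752.2.2.2.1, H _ t46752.2.2.2.2.1⟩⟩, ⟨⟨H _ t46752.2.2.2.2.2.1, H _ t46752.2.2.2.2.2.2.1⟩, ⟨H _ t46752.2.2.2.2.2.2.2, H _ t46760.1⟩⟩⟩⟩, ⟨⟨⟨H _ t46760.2.1, ⟨H _ t46760.2.2.1, H _ t46760.2.2.2.1⟩⟩, ⟨⟨H _ t46760.2.2.2.2.1, H _ t46760.2.2.2.2.2.1⟩, ⟨H _ t46760.2.2.2.2.2.2.1, H _ t46760.2.2.2.2.2.2.2⟩⟩⟩, ⟨⟨H _ t46768.1, ⟨H _ t46768.2.1, H _ t46768.2.2.1⟩⟩, ⟨⟨H _ t46768.2.2.2.1, H _ t46768.2.2.2.2.1⟩, ⟨H _ t46768.2.2.2.2.2.1, H _ t46768.2.2.2.2.2.2.1⟩⟩⟩⟩⟩⟩⟩, ⟨⟨⟨⟨⟨⟨H _ t46768.2.2.2.2.2.2.2, ⟨H _ t46776.1, H _ t46776.2.1⟩⟩, ⟨H _ t46776.2.2.1, ⟨H _ t46776.2.2.2.1,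 H _ t46776.2.2.2.2.1⟩⟩⟩, ⟨⟨H _ t46776.2.2.2.2.2.1, ⟨H _ t46776.2.2.2.2.2.2.1, H _ t46776.2.2.2.2.2.2.2⟩⟩, ⟨⟨H _ t46784.1, H _ t46784.2.1⟩, ⟨H _ t46784.2.2.1, H _ t46784.2.2.2.1⟩⟩⟩⟩, ⟨⟨⟨H _ t46784.2.2.2.2.1, ⟨H _ t46784.2.2.2.2.2.1, H _ t46784.2.2.2.2.2.2.1⟩⟩, ⟨⟨H _ t46784.2.2.2.2.2.2.2, H _ t46792.1⟩, ⟨H _ t46792.2.1, H _ t46792.2.2.1⟩⟩⟩, ⟨⟨H _ t46792.2.2.2.1, ⟨H _ t46792.2.2.2.2.1, H _ t46792.2.2.2.2.2.1⟩⟩, ⟨⟨H _ t46792.2.2.2.2.2.2.1, H _ t46792.2.2.2.2.2.2.2⟩, ⟨H _ t46800.1, H _ t46800.2.1⟩⟩⟩⟩⟩, ⟨⟨⟨⟨H _ t46800.2.2.1, ⟨H _ t46800.2.2.2.1, H _ t46800.2.2.2.2.1⟩⟩, ⟨⟨H _ t46800.2.2.2.2.2.1, H _ t46800.2.2.2.2.2.2.1⟩, ⟨H _ t46800.2.2.2.2.2.2.2, H _ t46808.1⟩⟩⟩, ⟨⟨H _ t46808.2.1, ⟨H _ t46808.2.2.1, H _ t46808.2.2.2.1⟩⟩, ⟨⟨H _ t46808.2.2.2.2.1, H _ t46808.2.2.2.2.2.1⟩, ⟨H _ t46808.2.2.2.2.2.2.1, H _ t46808.2.2.2.2.2.2.2⟩⟩⟩⟩, ⟨⟨⟨H _ t46816.1, ⟨H _ t46816.2.1, H _ t46816.2.2.1⟩⟩, ⟨⟨H _ t46816.2.2.2.1,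 H _ t46816.2.2.2.2.1⟩, ⟨H _ t46816.2.2.2.2.2.1, H _ t46816.2.2.2.2.2.2.1⟩⟩⟩, ⟨⟨H _ t46816.2.2.2.2.2.2.2, ⟨H _ t46824.1, H _ t46824.2.1⟩⟩, ⟨⟨H _ t46824.2.2.1, H _ t46824.2.2.2.1⟩, ⟨H _ t46824.2.2.2.2.1, H _ t46824.2.2.2.2.2.1⟩⟩⟩⟩⟩⟩, ⟨⟨⟨⟨⟨H _ t46824.2.2.2.2.2.2.1, ⟨H _ t46824.2.2.2.2.2.2.2, H _ t46832.1⟩⟩, ⟨⟨H _ t46832.2.1, H _ t46832.2.2.1⟩, ⟨H _ t46832.2.2.2.1, H _ t46832.2.2.2.2.1⟩⟩⟩, ⟨⟨H _ t46832.2.2.2.2.2.1, ⟨H _ t46832.2.2.2.2.2.2.1, H _ t46832.2.2.2.2.2.2.2⟩⟩, ⟨⟨H _ t46840.1, H _ t46840.2.1⟩, ⟨H _ t46840.2.2.1, H _ t46840.2.2.2.1⟩⟩⟩⟩, ⟨⟨⟨H _ t46840.2.2.2.2.1, ⟨H _ t46840.2.2.2.2.2.1, H _ t46840.2.2.2.2.2.2.1⟩⟩, ⟨⟨H _ t46840.2.2.2.2.2.2.2, H _ t46848.1⟩, ⟨H _ t46848.2.1, H _ t46848.2.2.1⟩⟩⟩, ⟨⟨H _ t46848.2.2.2.1, ⟨H _ t46848.2.2.2.2.1, H _ t46848.2.2.2.2.2.1⟩⟩, ⟨⟨H _ t46848.2.2.2.2.2.2.1, H _ t46848.2.2.2.2.2.2.2⟩, ⟨H _ t46856.1, H _ t46856.2.1⟩⟩⟩⟩⟩, ⟨⟨⟨⟨H _ t46856.2.2.1, ⟨H _ t46856.2.2.2.1,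 H _ t46856.2.2.2.2.1⟩⟩, ⟨⟨H _ t46856.2.2.2.2.2.1, H _ t46856.2.2.2.2.2.2.1⟩, ⟨H _ t46856.2.2.2.2.2.2.2, H _ t46864.1⟩⟩⟩, ⟨⟨H _ t46864.2.1, ⟨H _ t46864.2.2.1, H _ t46864.2.2.2.1⟩⟩, ⟨⟨H _ t46864.2.2.2.2.1, H _ t46864.2.2.2.2.2.1⟩, ⟨H _ t46864.2.2.2.2.2.2.1, H _ t46864.2.2.2.2.2.2.2⟩⟩⟩⟩, ⟨⟨⟨H _ t46872.1, ⟨H _ t46872.2.1, H _ t46872.2.2.1⟩⟩, ⟨⟨H _ t46872.2.2.2.1, H _ t46872.2.2.2.2.1⟩, ⟨H _ t46872.2.2.2.2.2.1, H _ t46872.2.2.2.2.2.2.1⟩⟩⟩, ⟨⟨H _ t46872.2.2.2.2.2.2.2, ⟨H _ t46880.1, H _ t46880.2.1⟩⟩, ⟨⟨H _ t46880.2.2.1, H _ t46880.2.2.2.1⟩, ⟨H _ t46880.2.2.2.2.1, H _ t46880.2.2.2.2.2.1⟩⟩⟩⟩⟩⟩⟩⟩, ⟨⟨⟨⟨⟨⟨⟨H _ t46880.2.2.2.2.2.2.1, ⟨H _ t46880.2.2.2.2.2.2.2, H _ t46888.1⟩⟩, ⟨H _ t46888.2.1, ⟨H _ t46888.2.2.1, H _ t46888.2.2.2.1⟩⟩⟩, ⟨⟨H _ t46888.2.2.2.2.1, ⟨H _ t46888.2.2.2.2.2.1, H _ t46888.2.2.2.2.2.2.1⟩⟩, ⟨⟨H _ t46888.2.2.2.2.2.2.2, H _ t46896.1⟩, ⟨H _ t46896.2.1, H _ t46896.2.2.1⟩⟩⟩⟩, ⟨⟨⟨H _ t46896.2.2.2.1,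 ⟨H _ t46896.2.2.2.2.1, H _ t46896.2.2.2.2.2.1⟩⟩, ⟨⟨H _ t46896.2.2.2.2.2.2.1, H _ t46896.2.2.2.2.2.2.2⟩, ⟨H _ t46904.1, H _ t46904.2.1⟩⟩⟩, ⟨⟨H _ t46904.2.2.1, ⟨H _ t46904.2.2.2.1, H _ t46904.2.2.2.2.1⟩⟩, ⟨⟨H _ t46904.2.2.2.2.2.1, H _ t46904.2.2.2.2.2.2.1⟩, ⟨H _ t46904.2.2.2.2.2.2.2, H _ t46912.1⟩⟩⟩⟩⟩, ⟨⟨⟨⟨H _ t46912.2.1, ⟨H _ t46912.2.2.1, H _ t46912.2.2.2.1⟩⟩, ⟨⟨H _ t46912.2.2.2.2.1, H _ t46912.2.2.2.2.2.1⟩, ⟨H _ t46912.2.2.2.2.2.2.1, H _ t46912.2.2.2.2.2.2.2⟩⟩⟩, ⟨⟨H _ t46920.1, ⟨H _ t46920.2.1, H _ t46920.2.2.1⟩⟩, ⟨⟨H _ t46920.2.2.2.1, H _ t46920.2.2.2.2.1⟩, ⟨H _ t46920.2.2.2.2.2.1, H _ t46920.2.2.2.2.2.2.1⟩⟩⟩⟩, ⟨⟨⟨H _ t46920.2.2.2.2.2.2.2, ⟨H _ t46928.1, H _ t46928.2.1⟩⟩, ⟨⟨H _ t46928.2.2.1, H _ t46928.2.2.2.1⟩, ⟨H _ t46928.2.2.2.2.1, H _ t46928.2.2.2.2.2.1⟩⟩⟩, ⟨⟨H _ t46928.2.2.2.2.2.2.1, ⟨H _ t46928.2.2.2.2.2.2.2, H _ t46936.1⟩⟩, ⟨⟨H _ t46936.2.1, H _ t46936.2.2.1⟩, ⟨H _ t46936.2.2.2.1, H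 _ t46936.2.2.2.2.1⟩⟩⟩⟩⟩⟩, ⟨⟨⟨⟨⟨H _ t46936.2.2.2.2.2.1, ⟨H _ t46936.2.2.2.2.2.2.1, H _ t46936.2.2.2.2.2.2.2⟩⟩, ⟨⟨H _ t46944.1, H _ t46944.2.1⟩, ⟨H _ t46944.2.2.1, H _ t46944.2.2.2.1⟩⟩⟩, ⟨⟨H _ t46944.2.2.2.2.1, ⟨H _ t46944.2.2.2.2.2.1, H _ t46944.2.2.2.2.2.2.1⟩⟩, ⟨⟨H _ t46944.2.2.2.2.2.2.2, H _ t46952.1⟩, ⟨H _ t46952.2.1, H _ t46952.2.2.1⟩⟩⟩⟩, ⟨⟨⟨H _ t46952.2.2.2.1, ⟨H _ t46952.2.2.2.2.1, H _ t46952.2.2.2.2.2.1⟩⟩, ⟨⟨H _ t46952.2.2.2.2.2.2.1, H _ t46952.2.2.2.2.2.2.2⟩, ⟨H _ t46960.1, H _ t46960.2.1⟩⟩⟩, ⟨⟨H _ t46960.2.2.1, ⟨H _ t46960.2.2.2.1, H _ t46960.2.2.2.2.1⟩⟩, ⟨⟨H _ t46960.2.2.2.2.2.1, H _ t46960.2.2.2.2.2.2.1⟩, ⟨H _ t46960.2.2.2.2.2.2.2, H _ t46968.1⟩⟩⟩⟩⟩, ⟨⟨⟨⟨H _ t46968.2.1, ⟨H _ t46968.2.2.1, H _ t46968.2.2.2.1⟩⟩, ⟨⟨H _ t46968.2.2.2.2.1, H _ t46968.2.2.2.2.2.1⟩, ⟨H _ t46968.2.2.2.2.2.2.1, H _ t46968.2.2.2.2.2.2.2⟩⟩⟩, ⟨⟨H _ t46976.1, ⟨H _ t46976.2.1, H _ t46976.2.2.1⟩⟩, ⟨⟨H _ t46976.2.2.2.1,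 H _ t46976.2.2.2.2.1⟩, ⟨H _ t46976.2.2.2.2.2.1, H _ t46976.2.2.2.2.2.2.1⟩⟩⟩⟩, ⟨⟨⟨H _ t46976.2.2.2.2.2.2.2, ⟨H _ t46984.1, H _ t46984.2.1⟩⟩, ⟨⟨H _ t46984.2.2.1, H _ t46984.2.2.2.1⟩, ⟨H _ t46984.2.2.2.2.1, H _ t46984.2.2.2.2.2.1⟩⟩⟩, ⟨⟨H _ t46984.2.2.2.2.2.2.1, ⟨H _ t46984.2.2.2.2.2.2.2, H _ t46992.1⟩⟩, ⟨⟨H _ t46992.2.1, H _ t46992.2.2.1⟩, ⟨H _ t46992.2.2.2.1, H _ t46992.2.2.2.2.1⟩⟩⟩⟩⟩⟩⟩, ⟨⟨⟨⟨⟨⟨H _ t46992.2.2.2.2.2.1, ⟨H _ t46992.2.2.2.2.2.2.1, H _ t46992.2.2.2.2.2.2.2⟩⟩, ⟨⟨H _ t47000.1, H _ t47000.2.1⟩, ⟨H _ t47000.2.2.1, H _ t47000.2.2.2.1⟩⟩⟩, ⟨⟨H _ t47000.2.2.2.2.1, ⟨H _ t47000.2.2.2.2.2.1, H _ t47000.2.2.2.2.2.2.1⟩⟩, ⟨⟨H _ t47000.2.2.2.2.2.2.2, H _ t47008.1⟩, ⟨H _ t47008.2.1, H _ t47008.2.2.1⟩⟩⟩⟩, ⟨⟨⟨H _ t47008.2.2.2.1, ⟨H _ t47008.2.2.2.2.1, H _ t47008.2.2.2.2.2.1⟩⟩, ⟨⟨H _ t47008.2.2.2.2.2.2.1, H _ t47008.2.2.2.2.2.2.2⟩, ⟨H _ t47016.1, H _ t47016.2.1⟩⟩⟩, ⟨⟨H _ t47016.2.2.1, ⟨H _ t47016.2.2.2.1,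 H _ t47016.2.2.2.2.1⟩⟩, ⟨⟨H _ t47016.2.2.2.2.2.1, H _ t47016.2.2.2.2.2.2.1⟩, ⟨H _ t47016.2.2.2.2.2.2.2, H _ t47024.1⟩⟩⟩⟩⟩, ⟨⟨⟨⟨H _ t47024.2.1, ⟨H _ t47024.2.2.1, H _ t47024.2.2.2.1⟩⟩, ⟨⟨H _ t47024.2.2.2.2.1, H _ t47024.2.2.2.2.2.1⟩, ⟨H _ t47024.2.2.2.2.2.2.1, H _ t47024.2.2.2.2.2.2.2⟩⟩⟩, ⟨⟨H _ t47032.1, ⟨H _ t47032.2.1, H _ t47032.2.2.1⟩⟩, ⟨⟨H _ t47032.2.2.2.1, H _ t47032.2.2.2.2.1⟩, ⟨H _ t47032.2.2.2.2.2.1, H _ t47032.2.2.2.2.2.2.1⟩⟩⟩⟩, ⟨⟨⟨H _ t47032.2.2.2.2.2.2.2, ⟨H _ t47040.1, H _ t47040.2.1⟩⟩, ⟨⟨H _ t47040.2.2.1, H _ t47040.2.2.2.1⟩, ⟨H _ t47040.2.2.2.2.1, H _ t47040.2.2.2.2.2.1⟩⟩⟩, ⟨⟨H _ t47040.2.2.2.2.2.2.1, ⟨H _ t47040.2.2.2.2.2.2.2, H _ t47048.1⟩⟩, ⟨⟨H _ t47048.2.1, H _ t47048.2.2.1⟩, ⟨H _ t47048.2.2.2.1, H _ t47048.2.2.2.2.1⟩⟩⟩⟩⟩⟩, ⟨⟨⟨⟨⟨H _ t47048.2.2.2.2.2.1, ⟨H _ t47048.2.2.2.2.2.2.1, H _ t47048.2.2.2.2.2.2.2⟩⟩, ⟨⟨H _ t47056.1, H _ t47056.2.1⟩, ⟨H _ t47056.2.2.1, H _ t47056.2.2.2.1⟩⟩⟩,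 ⟨⟨H _ t47056.2.2.2.2.1, ⟨H _ t47056.2.2.2.2.2.1, H _ t47056.2.2.2.2.2.2.1⟩⟩, ⟨⟨H _ t47056.2.2.2.2.2.2.2, H _ t47064.1⟩, ⟨H _ t47064.2.1, H _ t47064.2.2.1⟩⟩⟩⟩, ⟨⟨⟨H _ t47064.2.2.2.1, ⟨H _ t47064.2.2.2.2.1, H _ t47064.2.2.2.2.2.1⟩⟩, ⟨⟨H _ t47064.2.2.2.2.2.2.1, H _ t47064.2.2.2.2.2.2.2⟩, ⟨H _ t47072.1, H _ t47072.2.1⟩⟩⟩, ⟨⟨H _ t47072.2.2.1, ⟨H _ t47072.2.2.2.1, H _ t47072.2.2.2.2.1⟩⟩, ⟨⟨H _ t47072.2.2.2.2.2.1, H _ t47072.2.2.2.2.2.2.1⟩, ⟨H _ t47072.2.2.2.2.2.2.2, H _ t47080.1⟩⟩⟩⟩⟩, ⟨⟨⟨⟨H _ t47080.2.1, ⟨H _ t47080.2.2.1, H _ t47080.2.2.2.1⟩⟩, ⟨⟨H _ t47080.2.2.2.2.1, H _ t47080.2.2.2.2.2.1⟩, ⟨H _ t47080.2.2.2.2.2.2.1, H _ t47080.2.2.2.2.2.2.2⟩⟩⟩, ⟨⟨H _ t47088.1, ⟨H _ t47088.2.1, H _ t47088.2.2.1⟩⟩, ⟨⟨H _ t47088.2.2.2.1, H _ t47088.2.2.2.2.1⟩, ⟨H _ t47088.2.2.2.2.2.1, H _ t47088.2.2.2.2.2.2.1⟩⟩⟩⟩, ⟨⟨⟨H _ t47088.2.2.2.2.2.2.2, ⟨H _ t47096.1, H _ t47096.2.1⟩⟩, ⟨⟨H _ t47096.2.2.1, H _ t47096.2.2.2.1⟩,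 ⟨H _ t47096.2.2.2.2.1, H _ t47096.2.2.2.2.2.1⟩⟩⟩, ⟨⟨H _ t47096.2.2.2.2.2.2.1, ⟨H _ t47096.2.2.2.2.2.2.2, H _ t47104.1⟩⟩, ⟨⟨H _ t47104.2.1, H _ t47104.2.2.1⟩, ⟨H _ t47104.2.2.2.1, H _ t47104.2.2.2.2⟩⟩⟩⟩⟩⟩⟩⟩⟩

def t47109 : allY (E.wth T6) l47109 = true ∧
    allY (E.wth T6) l47110 = true ∧
    allY (E.wth T6) l47111 = true ∧
    allY (E.wth T6) l47112 = true ∧
    allY (E.wth T6) l47113 = true ∧
    allY (E.wth T6) l47114 = true ∧
    allY (E.wth T6) l47115 = true ∧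
    allY (E.wth T6) l47116 = true :=
  ⟨by decide +kernel, by decide +kernel, by decide +kernel, by decide +kernel, by decide +kernel, by decide +kernel, by decide +kernel, by decide +kernel⟩

def t47117 : allY (E.wth T6) l47117 = true ∧
    allY (E.wth T6) l47118 = true ∧
    allY (E.wth T6) l47119 = true ∧
    allY (E.wth T6) l47120 = true ∧
    allY (E.wth T6) l47121 = true ∧
    allY (E.wth T6) l47122 = true ∧
    allY (E.wth T6) l47123 = true ∧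
    allY (E.wth T6) l47124 = true :=
  ⟨by decide +kernel, by decide +kernel, by decide +kernel, by decide +kernel, by decide +kernel, by decide +kernel, by decide +kernel, by decide +kernel⟩

def t47125 : allY (E.wth T6) l47125 = true ∧
    allY (E.wth T6) l47126 = true ∧
    allY (E.wth T6) l47127 = true ∧
    allY (E.wth T6) l47128 = true ∧
    allY (E.wth T6) l47129 = true ∧
    allY (E.wth T6) l47130 = true ∧
    allY (E.wth T6) l47131 = true ∧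
    allY (E.wth T6) l47132 = true :=
  ⟨by decide +kernel, by decide +kernel, by decide +kernel, by decide +kernel, by decide +kernel, by decide +kernel, by decide +kernel, by decide +kernel⟩

def t47133 : allY (E.wth T6) l47133 = true ∧
    allY (E.wth T6) l47134 = true ∧
    allY (E.wth T6) l47135 = true ∧
    allY (E.wth T6) l47136 = true ∧
    allY (E.wth T6) l47137 = true ∧
    allY (E.wth T6) l47138 = true ∧
    allY (E.wth T6) l47139 = true ∧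
    allY (E.wth T6) l47140 = true :=
  ⟨by decide +kernel, by decide +kernel, by decide +kernel, by decide +kernel, by decide +kernel, by decide +kernel, by decide +kernel, by decide +kernel⟩

def t47141 : allY (E.wth T6) l47141 = true ∧
    allY (E.wth T6) l47142 = true ∧
    allY (E.wth T6) l47143 = true ∧
    allY (E.wth T6) l47144 = true ∧
    allY (E.wth T6) l47145 = true ∧
    allY (E.wth T6) l47146 = true ∧
    allY (E.wth T6) l47147 = true ∧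
    allY (E.wth T6) l47148 = true :=
  ⟨by decide +kernel, by decide +kernel, by decide +kernel, by decide +kernel, by decide +kernel, by decide +kernel, by decide +kernel, by decide +kernel⟩

def t47149 : allY (E.wth T6) l47149 = true ∧
    allY (E.wth T6) l47150 = true ∧
    allY (E.wth T6) l47151 = true ∧
    allY (E.wth T6) l47152 = true ∧
    allY (E.wth T6) l47153 = true ∧
    allY (E.wth T6) l47154 = true ∧
    allY (E.wth T6) l47155 = true ∧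
    allY (E.wth T6) l47156 = true :=
  ⟨by decide +kernel, by decide +kernel, by decide +kernel, by decide +kernel, by decide +kernel, by decide +kernel, by decide +kernel, by decide +kernel⟩

def t47157 : allY (E.wth T6) l47157 = true ∧
    allY (E.wth T6) l47158 = true ∧
    allY (E.wth T6) l47159 = true ∧
    allY (E.wth T6) l47160 = true ∧
    allY (E.wth T6) l47161 = true ∧
    allY (E.wth T6) l47162 = true ∧
    allY (E.wth T6) l47163 = true ∧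
    allY (E.wth T6) l47164 = true :=
  ⟨by decide +kernel, by decide +kernel, by decide +kernel, by decide +kernel, by decide +kernel, by decide +kernel, by decide +kernel, by decide +kernel⟩

def t47165 : allY (E.wth T6) l47165 = true ∧
    allY (E.wth T6) l47166 = true ∧
    allY (E.wth T6) l47167 = true ∧
    allY (E.wth T6) l47168 = true ∧
    allY (E.wth T6) l47169 = true ∧
    allY (E.wth T6) l47170 = true ∧
    allY (E.wth T6) l47171 = true ∧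
    allY (E.wth T6) l47172 = true :=
  ⟨by decide +kernel, by decide +kernel, by decide +kernel, by decide +kernel, by decide +kernel, by decide +kernel, by decide +kernel, by decide +kernel⟩

def t47173 : allY (E.wth T6) l47173 = true ∧
    allY (E.wth T6) l47174 = true ∧
    allY (E.wth T6) l47175 = true ∧
    allY (E.wth T6) l47176 = true ∧
    allY (E.wth T6) l47177 = true ∧
    allY (E.wth T6) l47178 = true ∧
    allY (E.wth T6) l47179 = true ∧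
    allY (E.wth T6) l47180 = true :=
  ⟨by decide +kernel, by decide +kernel, by decide +kernel, by decide +kernel, by decide +kernel, by decide +kernel, by decide +kernel, by decide +kernel⟩

def t47181 : allY (E.wth T6) l47181 = true ∧
    allY (E.wth T6) l47182 = true ∧
    allY (E.wth T6) l47183 = true ∧
    allY (E.wth T6) l47184 = true ∧
    allY (E.wth T6) l47185 = true ∧
    allY (E.wth T6) l47186 = true ∧
    allY (E.wth T6) l47187 = true ∧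
    allY (E.wth T6) l47188 = true :=
  ⟨by decide +kernel, by decide +kernel, by decide +kernel, by decide +kernel, by decide +kernel, by decide +kernel, by decide +kernel, by decide +kernel⟩

def t47189 : allY (E.wth T6) l47189 = true ∧
    allY (E.wth T6) l47190 = true ∧
    allY (E.wth T6) l47191 = true ∧
    allY (E.wth T6) l47192 = true ∧
    allY (E.wth T6) l47193 = true ∧
    allY (E.wth T6) l47194 = true ∧
    allY (E.wth T6) l47195 = true ∧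
    allY (E.wth T6) l47196 = true :=
  ⟨by decide +kernel, by decide +kernel, by decide +kernel, by decide +kernel, by decide +kernel, by decide +kernel, by decide +kernel, by decide +kernel⟩

def t47197 : allY (E.wth T6) l47197 = true ∧
    allY (E.wth T6) l47198 = true ∧
    allY (E.wth T6) l47199 = true ∧
    allY (E.wth T6) l47200 = true ∧
    allY (E.wth T6) l47201 = true ∧
    allY (E.wth T6) l47202 = true ∧
    allY (E.wth T6) l47203 = true ∧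
    allY (E.wth T6) l47204 = true :=
  ⟨by decide +kernel, by decide +kernel, by decide +kernel, by decide +kernel, by decide +kernel, by decide +kernel, by decide +kernel, by decide +kernel⟩

def t47205 : allY (E.wth T6) l47205 = true ∧
    allY (E.wth T6) l47206 = true ∧
    allY (E.wth T6) l47207 = true ∧
    allY (E.wth T6) l47208 = true ∧
    allY (E.wth T6) l47209 = true ∧
    allY (E.wth T6) l47210 = true ∧
    allY (E.wth T6) l47211 = true ∧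
    allY (E.wth T6) l47212 = true :=
  ⟨by decide +kernel, by decide +kernel, by decide +kernel, by decide +kernel, by decide +kernel, by decide +kernel, by decide +kernel, by decide +kernel⟩

def t47213 : allY (E.wth T6) l47213 = true ∧
    allY (E.wth T6) l47214 = true ∧
    allY (E.wth T6) l47215 = true ∧
    allY (E.wth T6) l47216 = true ∧
    allY (E.wth T6) l47217 = true ∧
    allY (E.wth T6) l47218 = true ∧
    allY (E.wth T6) l47219 = true ∧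
    allY (E.wth T6) l47220 = true :=
  ⟨by decide +kernel, by decide +kernel, by decide +kernel, by decide +kernel, by decide +kernel, by decide +kernel, by decide +kernel, by decide +kernel⟩

def t47221 : allY (E.wth T6) l47221 = true ∧
    allY (E.wth T6) l47222 = true ∧
    allY (E.wth T6) l47223 = true ∧
    allY (E.wth T6) l47224 = true ∧
    allY (E.wth T6) l47225 = true ∧
    allY (E.wth T6) l47226 = true ∧
    allY (E.wth T6) l47227 = true ∧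
    allY (E.wth T6) l47228 = true :=
  ⟨by decide +kernel, by decide +kernel, by decide +kernel, by decide +kernel, by decide +kernel, by decide +kernel, by decide +kernel, by decide +kernel⟩

def t47229 : allY (E.wth T6) l47229 = true ∧
    allY (E.wth T6) l47230 = true ∧
    allY (E.wth T6) l47231 = true ∧
    allY (E.wth T6) l47232 = true ∧
    allY (E.wth T6) l47233 = true ∧
    allY (E.wth T6) l47234 = true ∧
    allY (E.wth T6) l47235 = true ∧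
    allY (E.wth T6) l47236 = true :=
  ⟨by decide +kernel, by decide +kernel, by decide +kernel, by decide +kernel, by decide +kernel, by decide +kernel, by decide +kernel, by decide +kernel⟩

def t47237 : allY (E.wth T6) l47237 = true ∧
    allY (E.wth T6) l47238 = true ∧
    allY (E.wth T6) l47239 = true ∧
    allY (E.wth T6) l47240 = true ∧
    allY (E.wth T6) l47241 = true ∧
    allY (E.wth T6) l47242 = true ∧
    allY (E.wth T6) l47243 = true ∧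
    allY (E.wth T6) l47244 = true :=
  ⟨by decide +kernel, by decide +kernel, by decide +kernel, by decide +kernel, by decide +kernel, by decide +kernel, by decide +kernel, by decide +kernel⟩

def t47245 : allY (E.wth T6) l47245 = true ∧
    allY (E.wth T6) l47246 = true ∧
    allY (E.wth T6) l47247 = true ∧
    allY (E.wth T6) l47248 = true ∧
    allY (E.wth T6) l47249 = true ∧
    allY (E.wth T6) l47250 = true ∧
    allY (E.wth T6) l47251 = true ∧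
    allY (E.wth T6) l47252 = true :=
  ⟨by decide +kernel, by decide +kernel, by decide +kernel, by decide +kernel, by decide +kernel, by decide +kernel, by decide +kernel, by decide +kernel⟩

def t47253 : allY (E.wth T6) l47253 = true ∧
    allY (E.wth T6) l47254 = true ∧
    allY (E.wth T6) l47255 = true ∧
    allY (E.wth T6) l47256 = true ∧
    allY (E.wth T6) l47257 = true ∧
    allY (E.wth T6) l47258 = true ∧
    allY (E.wth T6) l47259 = true ∧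
    allY (E.wth T6) l47260 = true :=
  ⟨by decide +kernel, by decide +kernel, by decide +kernel, by decide +kernel, by decide +kernel, by decide +kernel, by decide +kernel, by decide +kernel⟩

def t47261 : allY (E.wth T6) l47261 = true ∧
    allY (E.wth T6) l47262 = true ∧
    allY (E.wth T6) l47263 = true ∧
    allY (E.wth T6) l47264 = true ∧
    allY (E.wth T6) l47265 = true ∧
    allY (E.wth T6) l47266 = true ∧
    allY (E.wth T6) l47267 = true ∧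
    allY (E.wth T6) l47268 = true :=
  ⟨by decide +kernel, by decide +kernel, by decide +kernel, by decide +kernel, by decide +kernel, by decide +kernel, by decide +kernel, by decide +kernel⟩

def t47269 : allY (E.wth T6) l47269 = true ∧
    allY (E.wth T6) l47270 = true ∧
    allY (E.wth T6) l47271 = true ∧
    allY (E.wth T6) l47272 = true ∧
    allY (E.wth T6) l47273 = true ∧
    allY (E.wth T6) l47274 = true ∧
    allY (E.wth T6) l47275 = true ∧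
    allY (E.wth T6) l47276 = true :=
  ⟨by decide +kernel, by decide +kernel, by decide +kernel, by decide +kernel, by decide +kernel, by decide +kernel, by decide +kernel, by decide +kernel⟩

theorem a89 {p : Rf → Prop} (H : ∀ l, allY (E.wth T6) l = true → (lkp l).All p) :
    b89.All p := ⟨⟨⟨⟨⟨⟨⟨H _ t47109.1, H _ t47109.2.1⟩, ⟨H _ t47109.2.2.1, ⟨H _ t47109.2.2.2.1, H _ t47109.2.2.2.2.1⟩⟩⟩, ⟨⟨H _ t47109.2.2.2.2.2.1, H _ t47109.2.2.2.2.2.2.1⟩, ⟨H _ t47109.2.2.2.2.2.2.2, ⟨H _ t47117.1, H _ t47117.2.1⟩⟩⟩⟩, ⟨⟨⟨H _ t47117.2.2.1, H _ t47117.2.2.2.1⟩, ⟨H _ t47117.2.2.2.2.1, ⟨H _ t47117.2.2.2.2.2.1, H _ t47117.2.2.2.2.2.2.1⟩⟩⟩, ⟨⟨H _ t47117.2.2.2.2.2.2.2, ⟨H _ t47125.1, H _ t47125.2.1⟩⟩, ⟨H _ t47125.2.2.1, ⟨H _ t47125.2.2.2.1, H _ t47125.2.2.2.2.1⟩⟩⟩⟩⟩, ⟨⟨⟨⟨H _ t47125.2.2.2.2.2.1, H _ t47125.2.2.2.2.2.2.1⟩, ⟨H _ t47125.2.2.2.2.2.2.2, ⟨H _ t47133.1, H _ t47133.2.1⟩⟩⟩, ⟨⟨H _ t47133.2.2.1, H _ t47133.2.2.2.1⟩,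 ⟨H _ t47133.2.2.2.2.1, ⟨H _ t47133.2.2.2.2.2.1, H _ t47133.2.2.2.2.2.2.1⟩⟩⟩⟩, ⟨⟨⟨H _ t47133.2.2.2.2.2.2.2, H _ t47141.1⟩, ⟨H _ t47141.2.1, ⟨H _ t47141.2.2.1, H _ t47141.2.2.2.1⟩⟩⟩, ⟨⟨H _ t47141.2.2.2.2.1, ⟨H _ t47141.2.2.2.2.2.1, H _ t47141.2.2.2.2.2.2.1⟩⟩, ⟨H _ t47141.2.2.2.2.2.2.2, ⟨H _ t47149.1, H _ t47149.2.1⟩⟩⟩⟩⟩⟩, ⟨⟨⟨⟨⟨H _ t47149.2.2.1, H _ t47149.2.2.2.1⟩, ⟨H _ t47149.2.2.2.2.1, ⟨H _ t47149.2.2.2.2.2.1, H _ t47149.2.2.2.2.2.2.1⟩⟩⟩, ⟨⟨H _ t47149.2.2.2.2.2.2.2, H _ t47157.1⟩, ⟨H _ t47157.2.1, ⟨H _ t47157.2.2.1, H _ t47157.2.2.2.1⟩⟩⟩⟩, ⟨⟨⟨H _ t47157.2.2.2.2.1, H _ t47157.2.2.2.2.2.1⟩, ⟨H _ t47157.2.2.2.2.2.2.1, ⟨H _ t47157.2.2.2.2.2.2.2, H _ t47165.1⟩⟩⟩, ⟨⟨H _ t47165.2.1, ⟨H _ t47165.2.2.1, H _ t47165.2.2.2.1⟩⟩, ⟨H _ t47165.2.2.2.2.1, ⟨H _ t47165.2.2.2.2.2.1, H _ t47165.2.2.2.2.2.2.1⟩⟩⟩⟩⟩, ⟨⟨⟨⟨H _ t47165.2.2.2.2.2.2.2, H _ t47173.1⟩, ⟨H _ t47173.2.1, ⟨H _ t47173.2.2.1, H _ t47173.2.2.2.1⟩⟩⟩,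 ⟨⟨H _ t47173.2.2.2.2.1, H _ t47173.2.2.2.2.2.1⟩, ⟨H _ t47173.2.2.2.2.2.2.1, ⟨H _ t47173.2.2.2.2.2.2.2, H _ t47181.1⟩⟩⟩⟩, ⟨⟨⟨H _ t47181.2.1, H _ t47181.2.2.1⟩, ⟨H _ t47181.2.2.2.1, ⟨H _ t47181.2.2.2.2.1, H _ t47181.2.2.2.2.2.1⟩⟩⟩, ⟨⟨H _ t47181.2.2.2.2.2.2.1, ⟨H _ t47181.2.2.2.2.2.2.2, H _ t47189.1⟩⟩, ⟨H _ t47189.2.1, ⟨H _ t47189.2.2.1, H _ t47189.2.2.2.1⟩⟩⟩⟩⟩⟩⟩, ⟨⟨⟨⟨⟨⟨H _ t47189.2.2.2.2.1, H _ t47189.2.2.2.2.2.1⟩, ⟨H _ t47189.2.2.2.2.2.2.1, ⟨H _ t47189.2.2.2.2.2.2.2, H _ t47197.1⟩⟩⟩, ⟨⟨H _ t47197.2.1, H _ t47197.2.2.1⟩, ⟨H _ t47197.2.2.2.1, ⟨H _ t47197.2.2.2.2.1, H _ t47197.2.2.2.2.2.1⟩⟩⟩⟩, ⟨⟨⟨H _ t47197.2.2.2.2.2.2.1, H _ t47197.2.2.2.2.2.2.2⟩, ⟨H _ t47205.1, ⟨H _ t47205.2.1, H _ t47205.2.2.1⟩⟩⟩, ⟨⟨H _ t47205.2.2.2.1, ⟨H _ t47205.2.2.2.2.1, H _ t47205.2.2.2.2.2.1⟩⟩, ⟨H _ t47205.2.2.2.2.2.2.1, ⟨H _ t47205.2.2.2.2.2.2.2, H _ t47213.1⟩⟩⟩⟩⟩, ⟨⟨⟨⟨H _ t47213.2.1, H _ t47213.2.2.1⟩, ⟨H _ t47213.2.2.2.1,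 ⟨H _ t47213.2.2.2.2.1, H _ t47213.2.2.2.2.2.1⟩⟩⟩, ⟨⟨H _ t47213.2.2.2.2.2.2.1, H _ t47213.2.2.2.2.2.2.2⟩, ⟨H _ t47221.1, ⟨H _ t47221.2.1, H _ t47221.2.2.1⟩⟩⟩⟩, ⟨⟨⟨H _ t47221.2.2.2.1, H _ t47221.2.2.2.2.1⟩, ⟨H _ t47221.2.2.2.2.2.1, ⟨H _ t47221.2.2.2.2.2.2.1, H _ t47221.2.2.2.2.2.2.2⟩⟩⟩, ⟨⟨H _ t47229.1, ⟨H _ t47229.2.1, H _ t47229.2.2.1⟩⟩, ⟨H _ t47229.2.2.2.1, ⟨H _ t47229.2.2.2.2.1, H _ t47229.2.2.2.2.2.1⟩⟩⟩⟩⟩⟩, ⟨⟨⟨⟨⟨H _ t47229.2.2.2.2.2.2.1, H _ t47229.2.2.2.2.2.2.2⟩, ⟨H _ t47237.1, ⟨H _ t47237.2.1, H _ t47237.2.2.1⟩⟩⟩, ⟨⟨H _ t47237.2.2.2.1, H _ t47237.2.2.2.2.1⟩, ⟨H _ t47237.2.2.2.2.2.1, ⟨H _ t47237.2.2.2.2.2.2.1, H _ t47237.2.2.2.2.2.2.2⟩⟩⟩⟩, ⟨⟨⟨H _ t47245.1, H _ t47245.2.1⟩, ⟨H _ t47245.2.2.1, ⟨H _ t47245.2.2.2.1, H _ t47245.2.2.2.2.1⟩⟩⟩, ⟨⟨H _ t47245.2.2.2.2.2.1, ⟨H _ t47245.2.2.2.2.2.2.1, H _ t47245.2.2.2.2.2.2.2⟩⟩, ⟨H _ t47253.1, ⟨H _ t47253.2.1, H _ t47253.2.2.1⟩⟩⟩⟩⟩, ⟨⟨⟨⟨H _ t47253.2.2.2.1,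 H _ t47253.2.2.2.2.1⟩, ⟨H _ t47253.2.2.2.2.2.1, ⟨H _ t47253.2.2.2.2.2.2.1, H _ t47253.2.2.2.2.2.2.2⟩⟩⟩, ⟨⟨H _ t47261.1, H _ t47261.2.1⟩, ⟨H _ t47261.2.2.1, ⟨H _ t47261.2.2.2.1, H _ t47261.2.2.2.2.1⟩⟩⟩⟩, ⟨⟨⟨H _ t47261.2.2.2.2.2.1, H _ t47261.2.2.2.2.2.2.1⟩, ⟨H _ t47261.2.2.2.2.2.2.2, ⟨H _ t47269.1, H _ t47269.2.1⟩⟩⟩, ⟨⟨H _ t47269.2.2.1, ⟨H _ t47269.2.2.2.1, H _ t47269.2.2.2.2.1⟩⟩, ⟨H _ t47269.2.2.2.2.2.1, ⟨H _ t47269.2.2.2.2.2.2.1, H _ t47269.2.2.2.2.2.2.2⟩⟩⟩⟩⟩⟩⟩⟩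

end Pool.Agent.MP_c853c5_nt.X.C4950
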