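import Pool.Agent.MP_c853c5_nt.X.C4950.Env
import Pool.Agent.MP_c853c5_nt.X.C4950.Tab

set_option autoImplicit false
set_option maxRecDepth 8192
set_option linter.all false

namespace Pool.Agent.MP_c853c5_nt.X.C4950

open Pool.Agent.MP_c853c5_nt.X

def t47277 : allY (E.wth T6) l47277 = true ∧
    allY (E.wth T6) l47278 = true ∧
    allY (E.wth T6) l47279 = true ∧
    allY (E.wth T6) l47280 = true ∧
    allY (E.wth T6) l47281 = true ∧
    allY (E.wth T6) l47282 = true ∧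
    allY (E.wth T6) l47283 = true ∧
    allY (E.wth T6) l47284 = true :=
  ⟨by decide +kernel, by decide +kernel, by decide +kernel, by decide +kernel, by decide +kernel, by decide +kernel, by decide +kernel, by decide +kernel⟩

def t47285 : allY (E.wth T6) l47285 = true ∧
    allY (E.wth T6) l47286 = true ∧
    allY (E.wth T6) l47287 = true ∧
    allY (E.wth T6) l47288 = true ∧
    allY (E.wth T6) l47289 = true ∧
    allY (E.wth T6) l47290 = true ∧
    allY (E.wth T6) l47291 = true ∧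
    allY (E.wth T6) l47292 = true :=
  ⟨by decide +kernel, by decide +kernel, by decide +kernel, by decide +kernel, by decide +kernel, by decide +kernel, by decide +kernel, by decide +kernel⟩

def t47293 : allY (E.wth T6) l47293 = true ∧
    allY (E.wth T6) l47294 = true ∧
    allY (E.wth T6) l47295 = true ∧
    allY (E.wth T6) l47296 = true ∧
    allY (E.wth T6) l47297 = true ∧
    allY (E.wth T6) l47298 = true ∧
    allY (E.wth T6) l47299 = true ∧
    allY (E.wth T6) l47300 = true :=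
  ⟨by decide +kernel, by decide +kernel, by decide +kernel, by decide +kernel, by decide +kernel, by decide +kernel, by decide +kernel, by decide +kernel⟩

def t47301 : allY (E.wth T6) l47301 = true ∧
    allY (E.wth T6) l47302 = true ∧
    allY (E.wth T6) l47303 = true ∧
    allY (E.wth T6) l47304 = true ∧
    allY (E.wth T6) l47305 = true ∧
    allY (E.wth T6) l47306 = true ∧
    allY (E.wth T6) l47307 = true ∧
    allY (E.wth T6) l47308 = true :=
  ⟨by decide +kernel, by decide +kernel, by decide +kernel, by decide +kernel, by decide +kernel, by decide +kernel, by decide +kernel, by decide +kernel⟩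

def t47309 : allY (E.wth T6) l47309 = true ∧
    allY (E.wth T6) l47310 = true ∧
    allY (E.wth T6) l47311 = true ∧
    allY (E.wth T6) l47312 = true ∧
    allY (E.wth T6) l47313 = true ∧
    allY (E.wth T6) l47314 = true ∧
    allY (E.wth T6) l47315 = true ∧
    allY (E.wth T6) l47316 = true :=
  ⟨by decide +kernel, by decide +kernel, by decide +kernel, by decide +kernel, by decide +kernel, by decide +kernel, by decide +kernel, by decide +kernel⟩

def t47317 : allY (E.wth T6) l47317 = true ∧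
    allY (E.wth T6) l47318 = true ∧
    allY (E.wth T6) l47319 = true ∧
    allY (E.wth T6) l47320 = true ∧
    allY (E.wth T6) l47321 = true ∧
    allY (E.wth T6) l47322 = true ∧
    allY (E.wth T6) l47323 = true ∧
    allY (E.wth T6) l47324 = true :=
  ⟨by decide +kernel, by decide +kernel, by decide +kernel, by decide +kernel, by decide +kernel, by decide +kernel, by decide +kernel, by decide +kernel⟩

def t47325 : allY (E.wth T6) l47325 = true ∧
    allY (E.wth T6) l47326 = true ∧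
    allY (E.wth T6) l47327 = true ∧
    allY (E.wth T6) l47328 = true ∧
    allY (E.wth T6) l47329 = true ∧
    allY (E.wth T6) l47330 = true ∧
    allY (E.wth T6) l47331 = true ∧
    allY (E.wth T6) l47332 = true :=
  ⟨by decide +kernel, by decide +kernel, by decide +kernel, by decide +kernel, by decide +kernel, by decide +kernel, by decide +kernel, by decide +kernel⟩

def t47333 : allY (E.wth T6) l47333 = true ∧
    allY (E.wth T6) l47334 = true ∧
    allY (E.wth T6) l47335 = true ∧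
    allY (E.wth T6) l47336 = true ∧
    allY (E.wth T6) l47337 = true ∧
    allY (E.wth T6) l47338 = true ∧
    allY (E.wth T6) l47339 = true ∧
    allY (E.wth T6) l47340 = true :=
  ⟨by decide +kernel, by decide +kernel, by decide +kernel, by decide +kernel, by decide +kernel, by decide +kernel, by decide +kernel, by decide +kernel⟩

def t47341 : allY (E.wth T6) l47341 = true ∧
    allY (E.wth T6) l47342 = true ∧
    allY (E.wth T6) l47343 = true ∧
    allY (E.wth T6) l47344 = true ∧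
    allY (E.wth T6) l47345 = true ∧
    allY (E.wth T6) l47346 = true ∧
    allY (E.wth T6) l47347 = true ∧
    allY (E.wth T6) l47348 = true :=
  ⟨by decide +kernel, by decide +kernel, by decide +kernel, by decide +kernel, by decide +kernel, by decide +kernel, by decide +kernel, by decide +kernel⟩

def t47349 : allY (E.wth T6) l47349 = true ∧
    allY (E.wth T6) l47350 = true ∧
    allY (E.wth T6) l47351 = true ∧
    allY (E.wth T6) l47352 = true ∧
    allY (E.wth T6) l47353 = true ∧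
    allY (E.wth T6) l47354 = true ∧
    allY (E.wth T6) l47355 = true ∧
    allY (E.wth T6) l47356 = true :=
  ⟨by decide +kernel, by decide +kernel, by decide +kernel, by decide +kernel, by decide +kernel, by decide +kernel, by decide +kernel, by decide +kernel⟩

def t47357 : allY (E.wth T6) l47357 = true ∧
    allY (E.wth T6) l47358 = true ∧
    allY (E.wth T6) l47359 = true ∧
    allY (E.wth T6) l47360 = true ∧
    allY (E.wth T6) l47361 = true :=
  ⟨by decide +kernel, by decide +kernel, by decide +kernel, by decide +kernel, by decide +kernel⟩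

theorem a90 {p : Rf → Prop} (H : ∀ l, allY (E.wth T6) l = true → (lkp l).All p) :
    b90.All p := ⟨⟨⟨⟨⟨⟨H _ t47277.1, H _ t47277.2.1⟩, ⟨H _ t47277.2.2.1, ⟨H _ t47277.2.2.2.1, H _ t47277.2.2.2.2.1⟩⟩⟩, ⟨⟨H _ t47277.2.2.2.2.2.1, H _ t47277.2.2.2.2.2.2.1⟩, ⟨H _ t47277.2.2.2.2.2.2.2, ⟨H _ t47285.1, H _ t47285.2.1⟩⟩⟩⟩, ⟨⟨⟨H _ t47285.2.2.1, H _ t47285.2.2.2.1⟩, ⟨H _ t47285.2.2.2.2.1, ⟨H _ t47285.2.2.2.2.2.1, H _ t47285.2.2.2.2.2.2.1⟩⟩⟩, ⟨⟨H _ t47285.2.2.2.2.2.2.2, ⟨H _ t47293.1, H _ t47293.2.1⟩⟩, ⟨H _ t47293.2.2.1, ⟨H _ t47293.2.2.2.1, H _ t47293.2.2.2.2.1⟩⟩⟩⟩⟩, ⟨⟨⟨⟨H _ t47293.2.2.2.2.2.1, H _ t47293.2.2.2.2.2.2.1⟩, ⟨H _ t47293.2.2.2.2.2.2.2, ⟨H _ t47301.1, H _ t47301.2.1⟩⟩⟩, ⟨⟨H _ t47301.2.2.1, H _ t47301.2.2.2.1⟩, ⟨H _ t47301.2.2.2.2.1, ⟨H _ t47301.2.2.2.2.2.1, H _ t47301.2.2.2.2.2.2.1⟩⟩⟩⟩, ⟨⟨⟨H _ t47301.2.2.2.2.2.2.2, H _ t47309.1⟩, ⟨H _ t47309.2.1, ⟨H _ t47309.2.2.1, H _ t47309.2.2.2.1⟩⟩⟩, ⟨⟨H _ t47309.2.2.2.2.1,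 ⟨H _ t47309.2.2.2.2.2.1, H _ t47309.2.2.2.2.2.2.1⟩⟩, ⟨H _ t47309.2.2.2.2.2.2.2, ⟨H _ t47317.1, H _ t47317.2.1⟩⟩⟩⟩⟩⟩, ⟨⟨⟨⟨⟨H _ t47317.2.2.1, H _ t47317.2.2.2.1⟩, ⟨H _ t47317.2.2.2.2.1, ⟨H _ t47317.2.2.2.2.2.1, H _ t47317.2.2.2.2.2.2.1⟩⟩⟩, ⟨⟨H _ t47317.2.2.2.2.2.2.2, H _ t47325.1⟩, ⟨H _ t47325.2.1, ⟨H _ t47325.2.2.1, H _ t47325.2.2.2.1⟩⟩⟩⟩, ⟨⟨⟨H _ t47325.2.2.2.2.1, H _ t47325.2.2.2.2.2.1⟩, ⟨H _ t47325.2.2.2.2.2.2.1, ⟨H _ t47325.2.2.2.2.2.2.2, H _ t47333.1⟩⟩⟩, ⟨⟨H _ t47333.2.1, ⟨H _ t47333.2.2.1, H _ t47333.2.2.2.1⟩⟩, ⟨H _ t47333.2.2.2.2.1, ⟨H _ t47333.2.2.2.2.2.1, H _ t47333.2.2.2.2.2.2.1⟩⟩⟩⟩⟩, ⟨⟨⟨⟨H _ t47333.2.2.2.2.2.2.2, H _ t47341.1⟩, ⟨H _ t47341.2.1, ⟨H _ t47341.2.2.1, H _ t47341.2.2.2.1⟩⟩⟩, ⟨⟨H _ t47341.2.2.2.2.1, ⟨H _ t47341.2.2.2.2.2.1, H _ t47341.2.2.2.2.2.2.1⟩⟩, ⟨H _ t47341.2.2.2.2.2.2.2, ⟨H _ t47349.1, H _ t47349.2.1⟩⟩⟩⟩, ⟨⟨⟨H _ t47349.2.2.1, H _ t47349.2.2.2.1⟩, ⟨H _ t47349.2.2.2.2.1, ⟨H _ t47349.2.2.2.2.2.1,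 H _ t47349.2.2.2.2.2.2.1⟩⟩⟩, ⟨⟨H _ t47349.2.2.2.2.2.2.2, ⟨H _ t47357.1, H _ t47357.2.1⟩⟩, ⟨H _ t47357.2.2.1, ⟨H _ t47357.2.2.2.1, H _ t47357.2.2.2.2⟩⟩⟩⟩⟩⟩⟩

def t47362 : allY (E.wth T7) l47362 = true ∧
    allY (E.wth T7) l47363 = true ∧
    allY (E.wth T7) l47364 = true ∧
    allY (E.wth T7) l47365 = true ∧
    allY (E.wth T7) l47366 = true ∧
    allY (E.wth T7) l47367 = true ∧
    allY (E.wth T7) l47368 = true ∧
    allY (E.wth T7) l47369 = true :=
  ⟨by decide +kernel, by decide +kernel, by decide +kernel, by decide +kernel, by decide +kernel, by decide +kernel, by decide +kernel, by decide +kernel⟩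

def t47370 : allY (E.wth T7) l47370 = true ∧
    allY (E.wth T7) l47371 = true ∧
    allY (E.wth T7) l47372 = true ∧
    allY (E.wth T7) l47373 = true ∧
    allY (E.wth T7) l47374 = true ∧
    allY (E.wth T7) l47375 = true ∧
    allY (E.wth T7) l47376 = true ∧
    allY (E.wth T7) l47377 = true :=
  ⟨by decide +kernel, by decide +kernel, by decide +kernel, by decide +kernel, by decide +kernel, by decide +kernel, by decide +kernel, by decide +kernel⟩

def t47378 : allY (E.wth T7) l47378 = true ∧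
    allY (E.wth T7) l47379 = true ∧
    allY (E.wth T7) l47380 = true ∧
    allY (E.wth T7) l47381 = true ∧
    allY (E.wth T7) l47382 = true ∧
    allY (E.wth T7) l47383 = true ∧
    allY (E.wth T7) l47384 = true ∧
    allY (E.wth T7) l47385 = true :=
  ⟨by decide +kernel, by decide +kernel, by decide +kernel, by decide +kernel, by decide +kernel, by decide +kernel, by decide +kernel, by decide +kernel⟩

def t47386 : allY (E.wth T7) l47386 = true ∧
    allY (E.wth T7) l47387 = true ∧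
    allY (E.wth T7) l47388 = true ∧
    allY (E.wth T7) l47389 = true ∧
    allY (E.wth T7) l47390 = true ∧
    allY (E.wth T7) l47391 = true ∧
    allY (E.wth T7) l47392 = true ∧
    allY (E.wth T7) l47393 = true :=
  ⟨by decide +kernel, by decide +kernel, by decide +kernel, by decide +kernel, by decide +kernel, by decide +kernel, by decide +kernel, by decide +kernel⟩

def t47394 : allY (E.wth T7) l47394 = true ∧
    allY (E.wth T7) l47395 = true ∧
    allY (E.wth T7) l47396 = true ∧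
    allY (E.wth T7) l47397 = true ∧
    allY (E.wth T7) l47398 = true ∧
    allY (E.wth T7) l47399 = true ∧
    allY (E.wth T7) l47400 = true ∧
    allY (E.wth T7) l47401 = true :=
  ⟨by decide +kernel, by decide +kernel, by decide +kernel, by decide +kernel, by decide +kernel, by decide +kernel, by decide +kernel, by decide +kernel⟩

def t47402 : allY (E.wth T7) l47402 = true ∧
    allY (E.wth T7) l47403 = true ∧
    allY (E.wth T7) l47404 = true ∧
    allY (E.wth T7) l47405 = true ∧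
    allY (E.wth T7) l47406 = true ∧
    allY (E.wth T7) l47407 = true ∧
    allY (E.wth T7) l47408 = true ∧
    allY (E.wth T7) l47409 = true :=
  ⟨by decide +kernel, by decide +kernel, by decide +kernel, by decide +kernel, by decide +kernel, by decide +kernel, by decide +kernel, by decide +kernel⟩

def t47410 : allY (E.wth T7) l47410 = true ∧
    allY (E.wth T7) l47411 = true ∧
    allY (E.wth T7) l47412 = true ∧
    allY (E.wth T7) l47413 = true ∧
    allY (E.wth T7) l47414 = true ∧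
    allY (E.wth T7) l47415 = true ∧
    allY (E.wth T7) l47416 = true ∧
    allY (E.wth T7) l47417 = true :=
  ⟨by decide +kernel, by decide +kernel, by decide +kernel, by decide +kernel, by decide +kernel, by decide +kernel, by decide +kernel, by decide +kernel⟩

def t47418 : allY (E.wth T7) l47418 = true ∧
    allY (E.wth T7) l47419 = true ∧
    allY (E.wth T7) l47420 = true ∧
    allY (E.wth T7) l47421 = true ∧
    allY (E.wth T7) l47422 = true ∧
    allY (E.wth T7) l47423 = true ∧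
    allY (E.wth T7) l47424 = true ∧
    allY (E.wth T7) l47425 = true :=
  ⟨by decide +kernel, by decide +kernel, by decide +kernel, by decide +kernel, by decide +kernel, by decide +kernel, by decide +kernel, by decide +kernel⟩

def t47426 : allY (E.wth T7) l47426 = true ∧
    allY (E.wth T7) l47427 = true ∧
    allY (E.wth T7) l47428 = true ∧
    allY (E.wth T7) l47429 = true ∧
    allY (E.wth T7) l47430 = true ∧
    allY (E.wth T7) l47431 = true ∧
    allY (E.wth T7) l47432 = true ∧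
    allY (E.wth T7) l47433 = true :=
  ⟨by decide +kernel, by decide +kernel, by decide +kernel, by decide +kernel, by decide +kernel, by decide +kernel, by decide +kernel, by decide +kernel⟩

def t47434 : allY (E.wth T7) l47434 = true ∧
    allY (E.wth T7) l47435 = true ∧
    allY (E.wth T7) l47436 = true ∧
    allY (E.wth T7) l47437 = true ∧
    allY (E.wth T7) l47438 = true ∧
    allY (E.wth T7) l47439 = true ∧
    allY (E.wth T7) l47440 = true ∧
    allY (E.wth T7) l47441 = true :=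
  ⟨by decide +kernel, by decide +kernel, by decide +kernel, by decide +kernel, by decide +kernel, by decide +kernel, by decide +kernel, by decide +kernel⟩

def t47442 : allY (E.wth T7) l47442 = true ∧
    allY (E.wth T7) l47443 = true ∧
    allY (E.wth T7) l47444 = true ∧
    allY (E.wth T7) l47445 = true ∧
    allY (E.wth T7) l47446 = true ∧
    allY (E.wth T7) l47447 = true ∧
    allY (E.wth T7) l47448 = true ∧
    allY (E.wth T7) l47449 = true :=
  ⟨by decide +kernel, by decide +kernel, by decide +kernel, by decide +kernel, by decide +kernel, by decide +kernel, by decide +kernel, by decide +kernel⟩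

def t47450 : allY (E.wth T7) l47450 = true ∧
    allY (E.wth T7) l47451 = true ∧
    allY (E.wth T7) l47452 = true ∧
    allY (E.wth T7) l47453 = true ∧
    allY (E.wth T7) l47454 = true ∧
    allY (E.wth T7) l47455 = true ∧
    allY (E.wth T7) l47456 = true ∧
    allY (E.wth T7) l47457 = true :=
  ⟨by decide +kernel, by decide +kernel, by decide +kernel, by decide +kernel, by decide +kernel, by decide +kernel, by decide +kernel, by decide +kernel⟩

def t47458 : allY (E.wth T7) l47458 = true ∧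
    allY (E.wth T7) l47459 = true ∧
    allY (E.wth T7) l47460 = true ∧
    allY (E.wth T7) l47461 = true ∧
    allY (E.wth T7) l47462 = true ∧
    allY (E.wth T7) l47463 = true ∧
    allY (E.wth T7) l47464 = true ∧
    allY (E.wth T7) l47465 = true :=
  ⟨by decide +kernel, by decide +kernel, by decide +kernel, by decide +kernel, by decide +kernel, by decide +kernel, by decide +kernel, by decide +kernel⟩

def t47466 : allY (E.wth T7) l47466 = true ∧
    allY (E.wth T7) l47467 = true ∧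
    allY (E.wth T7) l47468 = true ∧
    allY (E.wth T7) l47469 = true ∧
    allY (E.wth T7) l47470 = true ∧
    allY (E.wth T7) l47471 = true ∧
    allY (E.wth T7) l47472 = true ∧
    allY (E.wth T7) l47473 = true :=
  ⟨by decide +kernel, by decide +kernel, by decide +kernel, by decide +kernel, by decide +kernel, by decide +kernel, by decide +kernel, by decide +kernel⟩

def t47474 : allY (E.wth T7) l47474 = true ∧
    allY (E.wth T7) l47475 = true ∧
    allY (E.wth T7) l47476 = true ∧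
    allY (E.wth T7) l47477 = true ∧
    allY (E.wth T7) l47478 = true ∧
    allY (E.wth T7) l47479 = true ∧
    allY (E.wth T7) l47480 = true ∧
    allY (E.wth T7) l47481 = true :=
  ⟨by decide +kernel, by decide +kernel, by decide +kernel, by decide +kernel, by decide +kernel, by decide +kernel, by decide +kernel, by decide +kernel⟩

def t47482 : allY (E.wth T7) l47482 = true ∧
    allY (E.wth T7) l47483 = true ∧
    allY (E.wth T7) l47484 = true ∧
    allY (E.wth T7) l47485 = true ∧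
    allY (E.wth T7) l47486 = true ∧
    allY (E.wth T7) l47487 = true :=
  ⟨by decide +kernel, by decide +kernel, by decide +kernel, by decide +kernel, by decide +kernel, by decide +kernel⟩

theorem a91 {p : Rf → Prop} (H : ∀ l, allY (E.wth T7) l = true → (lkp l).All p) :
    b91.All p := ⟨⟨⟨⟨⟨⟨H _ t47362.1, ⟨H _ t47362.2.1, H _ t47362.2.2.1⟩⟩, ⟨⟨H _ t47362.2.2.2.1, H _ t47362.2.2.2.2.1⟩, ⟨H _ t47362.2.2.2.2.2.1, H _ t47362.2.2.2.2.2.2.1⟩⟩⟩, ⟨⟨⟨H _ t47362.2.2.2.2.2.2.2, H _ t47370.1⟩, ⟨H _ t47370.2.1, H _ t47370.2.2.1⟩⟩, ⟨⟨H _ t47370.2.2.2.1, H _ t47370.2.2.2.2.1⟩, ⟨H _ t47370.2.2.2.2.2.1, H _ t47370.2.2.2.2.2.2.1⟩⟩⟩⟩, ⟨⟨⟨⟨H _ t47370.2.2.2.2.2.2.2, H _ t47378.1⟩, ⟨H _ t47378.2.1, H _ t47378.2.2.1⟩⟩, ⟨⟨H _ t47378.2.2.2.1, H _ t47378.2.2.2.2.1⟩, ⟨H _ t47378.2.2.2.2.2.1, H _ t47378.2.2.2.2.2.2.1⟩⟩⟩, ⟨⟨⟨H _ t47378.2.2.2.2.2.2.2, H _ t47386.1⟩, ⟨H _ t47386.2.1, H _ t47386.2.2.1⟩⟩, ⟨⟨H _ t47386.2.2.2.1, H _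 t47386.2.2.2.2.1⟩, ⟨H _ t47386.2.2.2.2.2.1, H _ t47386.2.2.2.2.2.2.1⟩⟩⟩⟩⟩, ⟨⟨⟨⟨⟨H _ t47386.2.2.2.2.2.2.2, H _ t47394.1⟩, ⟨H _ t47394.2.1, H _ t47394.2.2.1⟩⟩, ⟨⟨H _ t47394.2.2.2.1, H _ t47394.2.2.2.2.1⟩, ⟨H _ t47394.2.2.2.2.2.1, H _ t47394.2.2.2.2.2.2.1⟩⟩⟩, ⟨⟨⟨H _ t47394.2.2.2.2.2.2.2, H _ t47402.1⟩, ⟨H _ t47402.2.1, H _ t47402.2.2.1⟩⟩, ⟨⟨H _ t47402.2.2.2.1, H _ t47402.2.2.2.2.1⟩, ⟨H _ t47402.2.2.2.2.2.1, H _ t47402.2.2.2.2.2.2.1⟩⟩⟩⟩, ⟨⟨⟨⟨H _ t47402.2.2.2.2.2.2.2, H _ t47410.1⟩, ⟨H _ t47410.2.1, H _ t47410.2.2.1⟩⟩, ⟨⟨H _ t47410.2.2.2.1, H _ t47410.2.2.2.2.1⟩, ⟨H _ t47410.2.2.2.2.2.1, H _ t47410.2.2.2.2.2.2.1⟩⟩⟩, ⟨⟨⟨H _ t47410.2.2.2.2.2.2.2, H _ t47418.1⟩, ⟨H _ t47418.2.1, H _ t47418.2.2.1⟩⟩, ⟨⟨H _ t47418.2.2.2.1, H _ t47418.2.2.2.2.1⟩, ⟨H _ t47418.2.2.2.2.2.1, H _ t47418.2.2.2.2.2.2.1⟩⟩⟩⟩⟩⟩, ⟨⟨⟨⟨⟨H _ t47418.2.2.2.2.2.2.2, ⟨H _ t47426.1, H _ t47426.2.1⟩⟩, ⟨⟨H _ t47426.2.2.1, H _ t47426.2.2.2.1⟩, ⟨H _ t47426.2.2.2.2.1,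 H _ t47426.2.2.2.2.2.1⟩⟩⟩, ⟨⟨⟨H _ t47426.2.2.2.2.2.2.1, H _ t47426.2.2.2.2.2.2.2⟩, ⟨H _ t47434.1, H _ t47434.2.1⟩⟩, ⟨⟨H _ t47434.2.2.1, H _ t47434.2.2.2.1⟩, ⟨H _ t47434.2.2.2.2.1, H _ t47434.2.2.2.2.2.1⟩⟩⟩⟩, ⟨⟨⟨⟨H _ t47434.2.2.2.2.2.2.1, H _ t47434.2.2.2.2.2.2.2⟩, ⟨H _ t47442.1, H _ t47442.2.1⟩⟩, ⟨⟨H _ t47442.2.2.1, H _ t47442.2.2.2.1⟩, ⟨H _ t47442.2.2.2.2.1, H _ t47442.2.2.2.2.2.1⟩⟩⟩, ⟨⟨⟨H _ t47442.2.2.2.2.2.2.1, H _ t47442.2.2.2.2.2.2.2⟩, ⟨H _ t47450.1, H _ t47450.2.1⟩⟩, ⟨⟨H _ t47450.2.2.1, H _ t47450.2.2.2.1⟩, ⟨H _ t47450.2.2.2.2.1, H _ t47450.2.2.2.2.2.1⟩⟩⟩⟩⟩, ⟨⟨⟨⟨⟨H _ t47450.2.2.2.2.2.2.1, H _ t47450.2.2.2.2.2.2.2⟩, ⟨H _ t47458.1, H _ t47458.2.1⟩⟩, ⟨⟨H _ t47458.2.2.1, H _ t47458.2.2.2.1⟩, ⟨H _ t47458.2.2.2.2.1, H _ t47458.2.2.2.2.2.1⟩⟩⟩, ⟨⟨⟨H _ t47458.2.2.2.2.2.2.1, H _ t47458.2.2.2.2.2.2.2⟩, ⟨H _ t47466.1, H _ t47466.2.1⟩⟩, ⟨⟨H _ t47466.2.2.1, H _ t47466.2.2.2.1⟩, ⟨H _ t47466.2.2.2.2.1, H _ t47466.2.2.2.2.2.1⟩⟩⟩⟩,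 ⟨⟨⟨⟨H _ t47466.2.2.2.2.2.2.1, H _ t47466.2.2.2.2.2.2.2⟩, ⟨H _ t47474.1, H _ t47474.2.1⟩⟩, ⟨⟨H _ t47474.2.2.1, H _ t47474.2.2.2.1⟩, ⟨H _ t47474.2.2.2.2.1, H _ t47474.2.2.2.2.2.1⟩⟩⟩, ⟨⟨⟨H _ t47474.2.2.2.2.2.2.1, H _ t47474.2.2.2.2.2.2.2⟩, ⟨H _ t47482.1, H _ t47482.2.1⟩⟩, ⟨⟨H _ t47482.2.2.1, H _ t47482.2.2.2.1⟩, ⟨H _ t47482.2.2.2.2.1, H _ t47482.2.2.2.2.2⟩⟩⟩⟩⟩⟩⟩

def t47488 : allY (E.wth T8) l47488 = true ∧
    allY (E.wth T8) l47489 = true ∧
    allY (E.wth T8) l47490 = true ∧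
    allY (E.wth T8) l47491 = true ∧
    allY (E.wth T8) l47492 = true ∧
    allY (E.wth T8) l47493 = true ∧
    allY (E.wth T8) l47494 = true ∧
    allY (E.wth T8) l47495 = true :=
  ⟨by decide +kernel, by decide +kernel, by decide +kernel, by decide +kernel, by decide +kernel, by decide +kernel, by decide +kernel, by decide +kernel⟩

def t47496 : allY (E.wth T8) l47496 = true ∧
    allY (E.wth T8) l47497 = true ∧
    allY (E.wth T8) l47498 = true ∧
    allY (E.wth T8) l47499 = true ∧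
    allY (E.wth T8) l47500 = true ∧
    allY (E.wth T8) l47501 = true ∧
    allY (E.wth T8) l47502 = true ∧
    allY (E.wth T8) l47503 = true :=
  ⟨by decide +kernel, by decide +kernel, by decide +kernel, by decide +kernel, by decide +kernel, by decide +kernel, by decide +kernel, by decide +kernel⟩

def t47504 : allY (E.wth T8) l47504 = true ∧
    allY (E.wth T8) l47505 = true ∧
    allY (E.wth T8) l47506 = true ∧
    allY (E.wth T8) l47507 = true ∧
    allY (E.wth T8) l47508 = true ∧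
    allY (E.wth T8) l47509 = true ∧
    allY (E.wth T8) l47510 = true ∧
    allY (E.wth T8) l47511 = true :=
  ⟨by decide +kernel, by decide +kernel, by decide +kernel, by decide +kernel, by decide +kernel, by decide +kernel, by decide +kernel, by decide +kernel⟩

def t47512 : allY (E.wth T8) l47512 = true ∧
    allY (E.wth T8) l47513 = true ∧
    allY (E.wth T8) l47514 = true ∧
    allY (E.wth T8) l47515 = true ∧
    allY (E.wth T8) l47516 = true ∧
    allY (E.wth T8) l47517 = true ∧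
    allY (E.wth T8) l47518 = true ∧
    allY (E.wth T8) l47519 = true :=
  ⟨by decide +kernel, by decide +kernel, by decide +kernel, by decide +kernel, by decide +kernel, by decide +kernel, by decide +kernel, by decide +kernel⟩

def t47520 : allY (E.wth T8) l47520 = true ∧
    allY (E.wth T8) l47521 = true ∧
    allY (E.wth T8) l47522 = true ∧
    allY (E.wth T8) l47523 = true ∧
    allY (E.wth T8) l47524 = true ∧
    allY (E.wth T8) l47525 = true ∧
    allY (E.wth T8) l47526 = true ∧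
    allY (E.wth T8) l47527 = true :=
  ⟨by decide +kernel, by decide +kernel, by decide +kernel, by decide +kernel, by decide +kernel, by decide +kernel, by decide +kernel, by decide +kernel⟩

def t47528 : allY (E.wth T8) l47528 = true ∧
    allY (E.wth T8) l47529 = true ∧
    allY (E.wth T8) l47530 = true ∧
    allY (E.wth T8) l47531 = true ∧
    allY (E.wth T8) l47532 = true ∧
    allY (E.wth T8) l47533 = true ∧
    allY (E.wth T8) l47534 = true ∧
    allY (E.wth T8) l47535 = true :=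
  ⟨by decide +kernel, by decide +kernel, by decide +kernel, by decide +kernel, by decide +kernel, by decide +kernel, by decide +kernel, by decide +kernel⟩

def t47536 : allY (E.wth T8) l47536 = true ∧
    allY (E.wth T8) l47537 = true ∧
    allY (E.wth T8) l47538 = true ∧
    allY (E.wth T8) l47539 = true ∧
    allY (E.wth T8) l47540 = true ∧
    allY (E.wth T8) l47541 = true ∧
    allY (E.wth T8) l47542 = true ∧
    allY (E.wth T8) l47543 = true :=
  ⟨by decide +kernel, by decide +kernel, by decide +kernel, by decide +kernel, by decide +kernel, by decide +kernel, by decide +kernel, by decide +kernel⟩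

def t47544 : allY (E.wth T8) l47544 = true :=
  by decide +kernel

theorem a92 {p : Rf → Prop} (H : ∀ l, allY (E.wth T8) l = true → (lkp l).All p) :
    b92.All p := ⟨⟨⟨⟨⟨H _ t47488.1, ⟨H _ t47488.2.1, H _ t47488.2.2.1⟩⟩, ⟨⟨H _ t47488.2.2.2.1, H _ t47488.2.2.2.2.1⟩, ⟨H _ t47488.2.2.2.2.2.1, H _ t47488.2.2.2.2.2.2.1⟩⟩⟩, ⟨⟨H _ t47488.2.2.2.2.2.2.2, ⟨H _ t47496.1, H _ t47496.2.1⟩⟩, ⟨⟨H _ t47496.2.2.1, H _ t47496.2.2.2.1⟩, ⟨H _ t47496.2.2.2.2.1, H _ t47496.2.2.2.2.2.1⟩⟩⟩⟩, ⟨⟨⟨H _ t47496.2.2.2.2.2.2.1, ⟨H _ t47496.2.2.2.2.2.2.2, H _ t47504.1⟩⟩, ⟨⟨H _ t47504.2.1, H _ t47504.2.2.1⟩, ⟨H _ t47504.2.2.2.1, H _ t47504.2.2.2.2.1⟩⟩⟩, ⟨⟨H _ t47504.2.2.2.2.2.1, ⟨H _ t47504.2.2.2.2.2.2.1, H _ t47504.2.2.2.2.2.2.2⟩⟩, ⟨⟨H _ t47512.1, H _ t47512.2.1⟩, ⟨H _ t47512.2.2.1, H _ t47512.2.2.2.1⟩⟩⟩⟩⟩, ⟨⟨⟨⟨H _ t47512.2.2.2.2.1, ⟨H _ t47512.2.2.2.2.2.1, H _ t47512.2.2.2.2.2.2.1⟩⟩, ⟨⟨H _ t47512.2.2.2.2.2.2.2, H _ t47520.1⟩, ⟨H _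 t47520.2.1, H _ t47520.2.2.1⟩⟩⟩, ⟨⟨H _ t47520.2.2.2.1, ⟨H _ t47520.2.2.2.2.1, H _ t47520.2.2.2.2.2.1⟩⟩, ⟨⟨H _ t47520.2.2.2.2.2.2.1, H _ t47520.2.2.2.2.2.2.2⟩, ⟨H _ t47528.1, H _ t47528.2.1⟩⟩⟩⟩, ⟨⟨⟨H _ t47528.2.2.1, ⟨H _ t47528.2.2.2.1, H _ t47528.2.2.2.2.1⟩⟩, ⟨⟨H _ t47528.2.2.2.2.2.1, H _ t47528.2.2.2.2.2.2.1⟩, ⟨H _ t47528.2.2.2.2.2.2.2, H _ t47536.1⟩⟩⟩, ⟨⟨⟨H _ t47536.2.1, H _ t47536.2.2.1⟩, ⟨H _ t47536.2.2.2.1, H _ t47536.2.2.2.2.1⟩⟩, ⟨⟨H _ t47536.2.2.2.2.2.1, H _ t47536.2.2.2.2.2.2.1⟩, ⟨H _ t47536.2.2.2.2.2.2.2, H _ t47544⟩⟩⟩⟩⟩⟩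

def t47545 : allY (E.wth T9) l47545 = true ∧
    allY (E.wth T9) l47546 = true ∧
    allY (E.wth T9) l47547 = true ∧
    allY (E.wth T9) l47548 = true ∧
    allY (E.wth T9) l47549 = true ∧
    allY (E.wth T9) l47550 = true ∧
    allY (E.wth T9) l47551 = true ∧
    allY (E.wth T9) l47552 = true :=
  ⟨by decide +kernel, by decide +kernel, by decide +kernel, by decide +kernel, by decide +kernel, by decide +kernel, by decide +kernel, by decide +kernel⟩

def t47553 : allY (E.wth T9) l47553 = true ∧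
    allY (E.wth T9) l47554 = true ∧
    allY (E.wth T9) l47555 = true ∧
    allY (E.wth T9) l47556 = true ∧
    allY (E.wth T9) l47557 = true ∧
    allY (E.wth T9) l47558 = true ∧
    allY (E.wth T9) l47559 = true ∧
    allY (E.wth T9) l47560 = true :=
  ⟨by decide +kernel, by decide +kernel, by decide +kernel, by decide +kernel, by decide +kernel, by decide +kernel, by decide +kernel, by decide +kernel⟩

def t47561 : allY (E.wth T9) l47561 = true ∧
    allY (E.wth T9) l47562 = true ∧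
    allY (E.wth T9) l47563 = true ∧
    allY (E.wth T9) l47564 = true ∧
    allY (E.wth T9) l47565 = true ∧
    allY (E.wth T9) l47566 = true ∧
    allY (E.wth T9) l47567 = true ∧
    allY (E.wth T9) l47568 = true :=
  ⟨by decide +kernel, by decide +kernel, by decide +kernel, by decide +kernel, by decide +kernel, by decide +kernel, by decide +kernel, by decide +kernel⟩

def t47569 : allY (E.wth T9) l47569 = true ∧
    allY (E.wth T9) l47570 = true ∧
    allY (E.wth T9) l47571 = true ∧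
    allY (E.wth T9) l47572 = true :=
  ⟨by decide +kernel, by decide +kernel, by decide +kernel, by decide +kernel⟩

theorem a93 {p : Rf → Prop} (H : ∀ l, allY (E.wth T9) l = true → (lkp l).All p) :
    b93.All p := ⟨⟨⟨⟨H _ t47545.1, ⟨H _ t47545.2.1, H _ t47545.2.2.1⟩⟩, ⟨⟨H _ t47545.2.2.2.1, H _ t47545.2.2.2.2.1⟩, ⟨H _ t47545.2.2.2.2.2.1, H _ t47545.2.2.2.2.2.2.1⟩⟩⟩, ⟨⟨H _ t47545.2.2.2.2.2.2.2, ⟨H _ t47553.1, H _ t47553.2.1⟩⟩, ⟨⟨H _ t47553.2.2.1, H _ t47553.2.2.2.1⟩, ⟨H _ t47553.2.2.2.2.1, H _ t47553.2.2.2.2.2.1⟩⟩⟩⟩, ⟨⟨⟨H _ t47553.2.2.2.2.2.2.1, ⟨H _ t47553.2.2.2.2.2.2.2, H _ t47561.1⟩⟩, ⟨⟨H _ t47561.2.1, H _ t47561.2.2.1⟩, ⟨H _ t47561.2.2.2.1, H _ t47561.2.2.2.2.1⟩⟩⟩, ⟨⟨H _ t47561.2.2.2.2.2.1, ⟨H _ t47561.2.2.2.2.2.2.1, H _ t47561.2.2.2.2.2.2.2⟩⟩, ⟨⟨H _ t47569.1, H _ t47569.2.1⟩, ⟨H _ t47569.2.2.1, H _ t47569.2.2.2⟩⟩⟩⟩⟩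

def t47573 : allY (E.wth T10) l47573 = true ∧
    allY (E.wth T10) l47574 = true ∧
    allY (E.wth T10) l47575 = true ∧
    allY (E.wth T10) l47576 = true ∧
    allY (E.wth T10) l47577 = true ∧
    allY (E.wth T10) l47578 = true ∧
    allY (E.wth T10) l47579 = true ∧
    allY (E.wth T10) l47580 = true :=
  ⟨by decide +kernel, by decide +kernel, by decide +kernel, by decide +kernel, by decide +kernel, by decide +kernel, by decide +kernel, by decide +kernel⟩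

def t47581 : allY (E.wth T10) l47581 = true ∧
    allY (E.wth T10) l47582 = true ∧
    allY (E.wth T10) l47583 = true ∧
    allY (E.wth T10) l47584 = true ∧
    allY (E.wth T10) l47585 = true ∧
    allY (E.wth T10) l47586 = true ∧
    allY (E.wth T10) l47587 = true ∧
    allY (E.wth T10) l47588 = true :=
  ⟨by decide +kernel, by decide +kernel, by decide +kernel, by decide +kernel, by decide +kernel, by decide +kernel, by decide +kernel, by decide +kernel⟩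

theorem a94 {p : Rf → Prop} (H : ∀ l, allY (E.wth T10) l = true → (lkp l).All p) :
    b94.All p := ⟨⟨⟨⟨H _ t47573.1, H _ t47573.2.1⟩, ⟨H _ t47573.2.2.1, H _ t47573.2.2.2.1⟩⟩, ⟨⟨H _ t47573.2.2.2.2.1, H _ t47573.2.2.2.2.2.1⟩, ⟨H _ t47573.2.2.2.2.2.2.1, H _ t47573.2.2.2.2.2.2.2⟩⟩⟩, ⟨⟨⟨H _ t47581.1, H _ t47581.2.1⟩, ⟨H _ t47581.2.2.1, H _ t47581.2.2.2.1⟩⟩, ⟨⟨H _ t47581.2.2.2.2.1, H _ t47581.2.2.2.2.2.1⟩, ⟨H _ t47581.2.2.2.2.2.2.1, H _ t47581.2.2.2.2.2.2.2⟩⟩⟩⟩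

def t47589 : allY (E.wth T11) l47589 = true ∧
    allY (E.wth T11) l47590 = true ∧
    allY (E.wth T11) l47591 = true ∧
    allY (E.wth T11) l47592 = true ∧
    allY (E.wth T11) l47593 = true ∧
    allY (E.wth T11) l47594 = true ∧
    allY (E.wth T11) l47595 = true :=
  ⟨by decide +kernel, by decide +kernel, by decide +kernel, by decide +kernel, by decide +kernel, by decide +kernel, by decide +kernel⟩

theorem a95 {p : Rf → Prop} (H : ∀ l, allY (E.wth T11) l = true → (lkp l).All p) :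
    b95.All p := ⟨⟨H _ t47589.1, ⟨H _ t47589.2.1, H _ t47589.2.2.1⟩⟩, ⟨⟨H _ t47589.2.2.2.1, H _ t47589.2.2.2.2.1⟩, ⟨H _ t47589.2.2.2.2.2.1, H _ t47589.2.2.2.2.2.2⟩⟩⟩

def t47596 : allY (E.wth T12) l47596 = true ∧
    allY (E.wth T12) l47597 = true ∧
    allY (E.wth T12) l47598 = true :=
  ⟨by decide +kernel, by decide +kernel, by decide +kernel⟩

theorem a96 {p : Rf → Prop} (H : ∀ l, allY (E.wth T12) l = true → (lkp l).All p) :
    b96.All p := ⟨H _ t47596.1, ⟨H _ t47596.2.1, H _ t47596.2.2⟩⟩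

def t47599 : allY (E.wth T13) l47599 = true ∧
    allY (E.wth T13) l47600 = true :=
  ⟨by decide +kernel, by decide +kernel⟩

theorem a97 {p : Rf → Prop} (H : ∀ l, allY (E.wth T13) l = true → (lkp l).All p) :
    b97.All p := ⟨H _ t47599.1, H _ t47599.2⟩

def t47601 : allY (E.wth T14) l47601 = true :=
  by decide +kernel

theorem a98 {p : Rf → Prop} (H : ∀ l, allY (E.wth T14) l = true → (lkp l).All p) :
    b98.All p := H _ t47601

def t47602 : allY (E.wth T15) l47602 = true :=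
  by decide +kernel

theorem a99 {p : Rf → Prop} (H : ∀ l, allY (E.wth T15) l = true → (lkp l).All p) :
    b99.All p := H _ t47602

end Pool.Agent.MP_c853c5_nt.X.C4950
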