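import Pool.Agent.MP_c853c5_nt.X.C4950.Env
import Pool.Agent.MP_c853c5_nt.X.C4950.D1

set_option autoImplicit false
set_option maxRecDepth 8192
set_option linter.all false

namespace Pool.Agent.MP_c853c5_nt.X.C4950

open Pool.Agent.MP_c853c5_nt.X

def t4995 : allY (E.wth (lkp [])) l4995 = true ∧
    allY (E.wth (lkp [])) l4996 = true ∧
    allY (E.wth (lkp [])) l4997 = true ∧
    allY (E.wth (lkp [])) l4998 = true ∧
    allY (E.wth (lkp [])) l4999 = true ∧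
    allY (E.wth (lkp [])) l5000 = true ∧
    allY (E.wth (lkp [])) l5001 = true ∧
    allY (E.wth (lkp [])) l5002 = true :=
  ⟨by decide +kernel, by decide +kernel, by decide +kernel, by decide +kernel, by decide +kernel, by decide +kernel, by decide +kernel, by decide +kernel⟩

def t5003 : allY (E.wth (lkp [])) l5003 = true ∧
    allY (E.wth (lkp [])) l5004 = true ∧
    allY (E.wth (lkp [])) l5005 = true ∧
    allY (E.wth (lkp [])) l5006 = true ∧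
    allY (E.wth (lkp [])) l5007 = true ∧
    allY (E.wth (lkp [])) l5008 = true ∧
    allY (E.wth (lkp [])) l5009 = true ∧
    allY (E.wth (lkp [])) l5010 = true :=
  ⟨by decide +kernel, by decide +kernel, by decide +kernel, by decide +kernel, by decide +kernel, by decide +kernel, by decide +kernel, by decide +kernel⟩

def t5011 : allY (E.wth (lkp [])) l5011 = true ∧
    allY (E.wth (lkp [])) l5012 = true ∧
    allY (E.wth (lkp [])) l5013 = true ∧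
    allY (E.wth (lkp [])) l5014 = true ∧
    allY (E.wth (lkp [])) l5015 = true ∧
    allY (E.wth (lkp [])) l5016 = true ∧
    allY (E.wth (lkp [])) l5017 = true ∧
    allY (E.wth (lkp [])) l5018 = true :=
  ⟨by decide +kernel, by decide +kernel, by decide +kernel, by decide +kernel, by decide +kernel, by decide +kernel, by decide +kernel, by decide +kernel⟩

def t5019 : allY (E.wth (lkp [])) l5019 = true ∧
    allY (E.wth (lkp [])) l5020 = true ∧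
    allY (E.wth (lkp [])) l5021 = true ∧
    allY (E.wth (lkp [])) l5022 = true ∧
    allY (E.wth (lkp [])) l5023 = true ∧
    allY (E.wth (lkp [])) l5024 = true ∧
    allY (E.wth (lkp [])) l5025 = true ∧
    allY (E.wth (lkp [])) l5026 = true :=
  ⟨by decide +kernel, by decide +kernel, by decide +kernel, by decide +kernel, by decide +kernel, by decide +kernel, by decide +kernel, by decide +kernel⟩

def t5027 : allY (E.wth (lkp [])) l5027 = true ∧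
    allY (E.wth (lkp [])) l5028 = true ∧
    allY (E.wth (lkp [])) l5029 = true ∧
    allY (E.wth (lkp [])) l5030 = true ∧
    allY (E.wth (lkp [])) l5031 = true ∧
    allY (E.wth (lkp [])) l5032 = true ∧
    allY (E.wth (lkp [])) l5033 = true ∧
    allY (E.wth (lkp [])) l5034 = true :=
  ⟨by decide +kernel, by decide +kernel, by decide +kernel, by decide +kernel, by decide +kernel, by decide +kernel, by decide +kernel, by decide +kernel⟩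

def t5035 : allY (E.wth (lkp [])) l5035 = true ∧
    allY (E.wth (lkp [])) l5036 = true ∧
    allY (E.wth (lkp [])) l5037 = true ∧
    allY (E.wth (lkp [])) l5038 = true ∧
    allY (E.wth (lkp [])) l5039 = true ∧
    allY (E.wth (lkp [])) l5040 = true ∧
    allY (E.wth (lkp [])) l5041 = true ∧
    allY (E.wth (lkp [])) l5042 = true :=
  ⟨by decide +kernel, by decide +kernel, by decide +kernel, by decide +kernel, by decide +kernel, by decide +kernel, by decide +kernel, by decide +kernel⟩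

def t5043 : allY (E.wth (lkp [])) l5043 = true ∧
    allY (E.wth (lkp [])) l5044 = true ∧
    allY (E.wth (lkp [])) l5045 = true ∧
    allY (E.wth (lkp [])) l5046 = true ∧
    allY (E.wth (lkp [])) l5047 = true ∧
    allY (E.wth (lkp [])) l5048 = true ∧
    allY (E.wth (lkp [])) l5049 = true ∧
    allY (E.wth (lkp [])) l5050 = true :=
  ⟨by decide +kernel, by decide +kernel, by decide +kernel, by decide +kernel, by decide +kernel, by decide +kernel, by decide +kernel, by decide +kernel⟩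

def t5051 : allY (E.wth (lkp [])) l5051 = true ∧
    allY (E.wth (lkp [])) l5052 = true ∧
    allY (E.wth (lkp [])) l5053 = true ∧
    allY (E.wth (lkp [])) l5054 = true ∧
    allY (E.wth (lkp [])) l5055 = true ∧
    allY (E.wth (lkp [])) l5056 = true ∧
    allY (E.wth (lkp [])) l5057 = true ∧
    allY (E.wth (lkp [])) l5058 = true :=
  ⟨by decide +kernel, by decide +kernel, by decide +kernel, by decide +kernel, by decide +kernel, by decide +kernel, by decide +kernel, by decide +kernel⟩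

def t5059 : allY (E.wth (lkp [])) l5059 = true ∧
    allY (E.wth (lkp [])) l5060 = true ∧
    allY (E.wth (lkp [])) l5061 = true ∧
    allY (E.wth (lkp [])) l5062 = true ∧
    allY (E.wth (lkp [])) l5063 = true ∧
    allY (E.wth (lkp [])) l5064 = true ∧
    allY (E.wth (lkp [])) l5065 = true ∧
    allY (E.wth (lkp [])) l5066 = true :=
  ⟨by decide +kernel, by decide +kernel, by decide +kernel, by decide +kernel, by decide +kernel, by decide +kernel, by decide +kernel, by decide +kernel⟩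

def t5067 : allY (E.wth (lkp [])) l5067 = true ∧
    allY (E.wth (lkp [])) l5068 = true ∧
    allY (E.wth (lkp [])) l5069 = true ∧
    allY (E.wth (lkp [])) l5070 = true ∧
    allY (E.wth (lkp [])) l5071 = true ∧
    allY (E.wth (lkp [])) l5072 = true ∧
    allY (E.wth (lkp [])) l5073 = true ∧
    allY (E.wth (lkp [])) l5074 = true :=
  ⟨by decide +kernel, by decide +kernel, by decide +kernel, by decide +kernel, by decide +kernel, by decide +kernel, by decide +kernel, by decide +kernel⟩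

def t5075 : allY (E.wth (lkp [])) l5075 = true ∧
    allY (E.wth (lkp [])) l5076 = true ∧
    allY (E.wth (lkp [])) l5077 = true ∧
    allY (E.wth (lkp [])) l5078 = true ∧
    allY (E.wth (lkp [])) l5079 = true ∧
    allY (E.wth (lkp [])) l5080 = true ∧
    allY (E.wth (lkp [])) l5081 = true ∧
    allY (E.wth (lkp [])) l5082 = true :=
  ⟨by decide +kernel, by decide +kernel, by decide +kernel, by decide +kernel, by decide +kernel, by decide +kernel, by decide +kernel, by decide +kernel⟩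

def t5083 : allY (E.wth (lkp [])) l5083 = true ∧
    allY (E.wth (lkp [])) l5084 = true ∧
    allY (E.wth (lkp [])) l5085 = true ∧
    allY (E.wth (lkp [])) l5086 = true ∧
    allY (E.wth (lkp [])) l5087 = true ∧
    allY (E.wth (lkp [])) l5088 = true ∧
    allY (E.wth (lkp [])) l5089 = true ∧
    allY (E.wth (lkp [])) l5090 = true :=
  ⟨by decide +kernel, by decide +kernel, by decide +kernel, by decide +kernel, by decide +kernel, by decide +kernel, by decide +kernel, by decide +kernel⟩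

def t5091 : allY (E.wth (lkp [])) l5091 = true ∧
    allY (E.wth (lkp [])) l5092 = true ∧
    allY (E.wth (lkp [])) l5093 = true ∧
    allY (E.wth (lkp [])) l5094 = true ∧
    allY (E.wth (lkp [])) l5095 = true ∧
    allY (E.wth (lkp [])) l5096 = true ∧
    allY (E.wth (lkp [])) l5097 = true ∧
    allY (E.wth (lkp [])) l5098 = true :=
  ⟨by decide +kernel, by decide +kernel, by decide +kernel, by decide +kernel, by decide +kernel, by decide +kernel, by decide +kernel, by decide +kernel⟩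

def t5099 : allY (E.wth (lkp [])) l5099 = true ∧
    allY (E.wth (lkp [])) l5100 = true ∧
    allY (E.wth (lkp [])) l5101 = true ∧
    allY (E.wth (lkp [])) l5102 = true ∧
    allY (E.wth (lkp [])) l5103 = true ∧
    allY (E.wth (lkp [])) l5104 = true ∧
    allY (E.wth (lkp [])) l5105 = true ∧
    allY (E.wth (lkp [])) l5106 = true :=
  ⟨by decide +kernel, by decide +kernel, by decide +kernel, by decide +kernel, by decide +kernel, by decide +kernel, by decide +kernel, by decide +kernel⟩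

def t5107 : allY (E.wth (lkp [])) l5107 = true ∧
    allY (E.wth (lkp [])) l5108 = true ∧
    allY (E.wth (lkp [])) l5109 = true ∧
    allY (E.wth (lkp [])) l5110 = true ∧
    allY (E.wth (lkp [])) l5111 = true ∧
    allY (E.wth (lkp [])) l5112 = true ∧
    allY (E.wth (lkp [])) l5113 = true ∧
    allY (E.wth (lkp [])) l5114 = true :=
  ⟨by decide +kernel, by decide +kernel, by decide +kernel, by decide +kernel, by decide +kernel, by decide +kernel, by decide +kernel, by decide +kernel⟩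

def t5115 : allY (E.wth (lkp [])) l5115 = true ∧
    allY (E.wth (lkp [])) l5116 = true ∧
    allY (E.wth (lkp [])) l5117 = true ∧
    allY (E.wth (lkp [])) l5118 = true ∧
    allY (E.wth (lkp [])) l5119 = true ∧
    allY (E.wth (lkp [])) l5120 = true ∧
    allY (E.wth (lkp [])) l5121 = true ∧
    allY (E.wth (lkp [])) l5122 = true :=
  ⟨by decide +kernel, by decide +kernel, by decide +kernel, by decide +kernel, by decide +kernel, by decide +kernel, by decide +kernel, by decide +kernel⟩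

def t5123 : allY (E.wth (lkp [])) l5123 = true ∧
    allY (E.wth (lkp [])) l5124 = true ∧
    allY (E.wth (lkp [])) l5125 = true ∧
    allY (E.wth (lkp [])) l5126 = true ∧
    allY (E.wth (lkp [])) l5127 = true ∧
    allY (E.wth (lkp [])) l5128 = true ∧
    allY (E.wth (lkp [])) l5129 = true ∧
    allY (E.wth (lkp [])) l5130 = true :=
  ⟨by decide +kernel, by decide +kernel, by decide +kernel, by decide +kernel, by decide +kernel, by decide +kernel, by decide +kernel, by decide +kernel⟩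

def t5131 : allY (E.wth (lkp [])) l5131 = true ∧
    allY (E.wth (lkp [])) l5132 = true ∧
    allY (E.wth (lkp [])) l5133 = true ∧
    allY (E.wth (lkp [])) l5134 = true ∧
    allY (E.wth (lkp [])) l5135 = true ∧
    allY (E.wth (lkp [])) l5136 = true ∧
    allY (E.wth (lkp [])) l5137 = true ∧
    allY (E.wth (lkp [])) l5138 = true :=
  ⟨by decide +kernel, by decide +kernel, by decide +kernel, by decide +kernel, by decide +kernel, by decide +kernel, by decide +kernel, by decide +kernel⟩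

def t5139 : allY (E.wth (lkp [])) l5139 = true ∧
    allY (E.wth (lkp [])) l5140 = true ∧
    allY (E.wth (lkp [])) l5141 = true ∧
    allY (E.wth (lkp [])) l5142 = true ∧
    allY (E.wth (lkp [])) l5143 = true ∧
    allY (E.wth (lkp [])) l5144 = true ∧
    allY (E.wth (lkp [])) l5145 = true ∧
    allY (E.wth (lkp [])) l5146 = true :=
  ⟨by decide +kernel, by decide +kernel, by decide +kernel, by decide +kernel, by decide +kernel, by decide +kernel, by decide +kernel, by decide +kernel⟩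

def t5147 : allY (E.wth (lkp [])) l5147 = true ∧
    allY (E.wth (lkp [])) l5148 = true ∧
    allY (E.wth (lkp [])) l5149 = true ∧
    allY (E.wth (lkp [])) l5150 = true ∧
    allY (E.wth (lkp [])) l5151 = true ∧
    allY (E.wth (lkp [])) l5152 = true ∧
    allY (E.wth (lkp [])) l5153 = true ∧
    allY (E.wth (lkp [])) l5154 = true :=
  ⟨by decide +kernel, by decide +kernel, by decide +kernel, by decide +kernel, by decide +kernel, by decide +kernel, by decide +kernel, by decide +kernel⟩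

def t5155 : allY (E.wth (lkp [])) l5155 = true ∧
    allY (E.wth (lkp [])) l5156 = true ∧
    allY (E.wth (lkp [])) l5157 = true ∧
    allY (E.wth (lkp [])) l5158 = true ∧
    allY (E.wth (lkp [])) l5159 = true ∧
    allY (E.wth (lkp [])) l5160 = true ∧
    allY (E.wth (lkp [])) l5161 = true ∧
    allY (E.wth (lkp [])) l5162 = true :=
  ⟨by decide +kernel, by decide +kernel, by decide +kernel, by decide +kernel, by decide +kernel, by decide +kernel, by decide +kernel, by decide +kernel⟩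

def t5163 : allY (E.wth (lkp [])) l5163 = true ∧
    allY (E.wth (lkp [])) l5164 = true ∧
    allY (E.wth (lkp [])) l5165 = true ∧
    allY (E.wth (lkp [])) l5166 = true ∧
    allY (E.wth (lkp [])) l5167 = true ∧
    allY (E.wth (lkp [])) l5168 = true ∧
    allY (E.wth (lkp [])) l5169 = true ∧
    allY (E.wth (lkp [])) l5170 = true :=
  ⟨by decide +kernel, by decide +kernel, by decide +kernel, by decide +kernel, by decide +kernel, by decide +kernel, by decide +kernel, by decide +kernel⟩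

def t5171 : allY (E.wth (lkp [])) l5171 = true ∧
    allY (E.wth (lkp [])) l5172 = true ∧
    allY (E.wth (lkp [])) l5173 = true ∧
    allY (E.wth (lkp [])) l5174 = true ∧
    allY (E.wth (lkp [])) l5175 = true ∧
    allY (E.wth (lkp [])) l5176 = true ∧
    allY (E.wth (lkp [])) l5177 = true ∧
    allY (E.wth (lkp [])) l5178 = true :=
  ⟨by decide +kernel, by decide +kernel, by decide +kernel, by decide +kernel, by decide +kernel, by decide +kernel, by decide +kernel, by decide +kernel⟩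

def t5179 : allY (E.wth (lkp [])) l5179 = true ∧
    allY (E.wth (lkp [])) l5180 = true ∧
    allY (E.wth (lkp [])) l5181 = true ∧
    allY (E.wth (lkp [])) l5182 = true ∧
    allY (E.wth (lkp [])) l5183 = true ∧
    allY (E.wth (lkp [])) l5184 = true ∧
    allY (E.wth (lkp [])) l5185 = true ∧
    allY (E.wth (lkp [])) l5186 = true :=
  ⟨by decide +kernel, by decide +kernel, by decide +kernel, by decide +kernel, by decide +kernel, by decide +kernel, by decide +kernel, by decide +kernel⟩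

def t5187 : allY (E.wth (lkp [])) l5187 = true ∧
    allY (E.wth (lkp [])) l5188 = true ∧
    allY (E.wth (lkp [])) l5189 = true ∧
    allY (E.wth (lkp [])) l5190 = true ∧
    allY (E.wth (lkp [])) l5191 = true ∧
    allY (E.wth (lkp [])) l5192 = true ∧
    allY (E.wth (lkp [])) l5193 = true ∧
    allY (E.wth (lkp [])) l5194 = true :=
  ⟨by decide +kernel, by decide +kernel, by decide +kernel, by decide +kernel, by decide +kernel, by decide +kernel, by decide +kernel, by decide +kernel⟩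

def t5195 : allY (E.wth (lkp [])) l5195 = true ∧
    allY (E.wth (lkp [])) l5196 = true ∧
    allY (E.wth (lkp [])) l5197 = true ∧
    allY (E.wth (lkp [])) l5198 = true ∧
    allY (E.wth (lkp [])) l5199 = true ∧
    allY (E.wth (lkp [])) l5200 = true ∧
    allY (E.wth (lkp [])) l5201 = true ∧
    allY (E.wth (lkp [])) l5202 = true :=
  ⟨by decide +kernel, by decide +kernel, by decide +kernel, by decide +kernel, by decide +kernel, by decide +kernel, by decide +kernel, by decide +kernel⟩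

def t5203 : allY (E.wth (lkp [])) l5203 = true ∧
    allY (E.wth (lkp [])) l5204 = true ∧
    allY (E.wth (lkp [])) l5205 = true ∧
    allY (E.wth (lkp [])) l5206 = true ∧
    allY (E.wth (lkp [])) l5207 = true ∧
    allY (E.wth (lkp [])) l5208 = true ∧
    allY (E.wth (lkp [])) l5209 = true ∧
    allY (E.wth (lkp [])) l5210 = true :=
  ⟨by decide +kernel, by decide +kernel, by decide +kernel, by decide +kernel, by decide +kernel, by decide +kernel, by decide +kernel, by decide +kernel⟩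

def t5211 : allY (E.wth (lkp [])) l5211 = true ∧
    allY (E.wth (lkp [])) l5212 = true ∧
    allY (E.wth (lkp [])) l5213 = true ∧
    allY (E.wth (lkp [])) l5214 = true ∧
    allY (E.wth (lkp [])) l5215 = true ∧
    allY (E.wth (lkp [])) l5216 = true ∧
    allY (E.wth (lkp [])) l5217 = true ∧
    allY (E.wth (lkp [])) l5218 = true :=
  ⟨by decide +kernel, by decide +kernel, by decide +kernel, by decide +kernel, by decide +kernel, by decide +kernel, by decide +kernel, by decide +kernel⟩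

def t5219 : allY (E.wth (lkp [])) l5219 = true ∧
    allY (E.wth (lkp [])) l5220 = true ∧
    allY (E.wth (lkp [])) l5221 = true ∧
    allY (E.wth (lkp [])) l5222 = true ∧
    allY (E.wth (lkp [])) l5223 = true ∧
    allY (E.wth (lkp [])) l5224 = true ∧
    allY (E.wth (lkp [])) l5225 = true ∧
    allY (E.wth (lkp [])) l5226 = true :=
  ⟨by decide +kernel, by decide +kernel, by decide +kernel, by decide +kernel, by decide +kernel, by decide +kernel, by decide +kernel, by decide +kernel⟩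

def t5227 : allY (E.wth (lkp [])) l5227 = true ∧
    allY (E.wth (lkp [])) l5228 = true ∧
    allY (E.wth (lkp [])) l5229 = true ∧
    allY (E.wth (lkp [])) l5230 = true ∧
    allY (E.wth (lkp [])) l5231 = true ∧
    allY (E.wth (lkp [])) l5232 = true ∧
    allY (E.wth (lkp [])) l5233 = true ∧
    allY (E.wth (lkp [])) l5234 = true :=
  ⟨by decide +kernel, by decide +kernel, by decide +kernel, by decide +kernel, by decide +kernel, by decide +kernel, by decide +kernel, by decide +kernel⟩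

def t5235 : allY (E.wth (lkp [])) l5235 = true ∧
    allY (E.wth (lkp [])) l5236 = true ∧
    allY (E.wth (lkp [])) l5237 = true ∧
    allY (E.wth (lkp [])) l5238 = true ∧
    allY (E.wth (lkp [])) l5239 = true ∧
    allY (E.wth (lkp [])) l5240 = true ∧
    allY (E.wth (lkp [])) l5241 = true ∧
    allY (E.wth (lkp [])) l5242 = true :=
  ⟨by decide +kernel, by decide +kernel, by decide +kernel, by decide +kernel, by decide +kernel, by decide +kernel, by decide +kernel, by decide +kernel⟩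

def t5243 : allY (E.wth (lkp [])) l5243 = true ∧
    allY (E.wth (lkp [])) l5244 = true ∧
    allY (E.wth (lkp [])) l5245 = true ∧
    allY (E.wth (lkp [])) l5246 = true ∧
    allY (E.wth (lkp [])) l5247 = true ∧
    allY (E.wth (lkp [])) l5248 = true ∧
    allY (E.wth (lkp [])) l5249 = true ∧
    allY (E.wth (lkp [])) l5250 = true :=
  ⟨by decide +kernel, by decide +kernel, by decide +kernel, by decide +kernel, by decide +kernel, by decide +kernel, by decide +kernel, by decide +kernel⟩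

def t5251 : allY (E.wth (lkp [])) l5251 = true ∧
    allY (E.wth (lkp [])) l5252 = true ∧
    allY (E.wth (lkp [])) l5253 = true ∧
    allY (E.wth (lkp [])) l5254 = true ∧
    allY (E.wth (lkp [])) l5255 = true ∧
    allY (E.wth (lkp [])) l5256 = true ∧
    allY (E.wth (lkp [])) l5257 = true ∧
    allY (E.wth (lkp [])) l5258 = true :=
  ⟨by decide +kernel, by decide +kernel, by decide +kernel, by decide +kernel, by decide +kernel, by decide +kernel, by decide +kernel, by decide +kernel⟩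

def t5259 : allY (E.wth (lkp [])) l5259 = true ∧
    allY (E.wth (lkp [])) l5260 = true ∧
    allY (E.wth (lkp [])) l5261 = true ∧
    allY (E.wth (lkp [])) l5262 = true ∧
    allY (E.wth (lkp [])) l5263 = true ∧
    allY (E.wth (lkp [])) l5264 = true ∧
    allY (E.wth (lkp [])) l5265 = true ∧
    allY (E.wth (lkp [])) l5266 = true :=
  ⟨by decide +kernel, by decide +kernel, by decide +kernel, by decide +kernel, by decide +kernel, by decide +kernel, by decide +kernel, by decide +kernel⟩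

def t5267 : allY (E.wth (lkp [])) l5267 = true ∧
    allY (E.wth (lkp [])) l5268 = true ∧
    allY (E.wth (lkp [])) l5269 = true ∧
    allY (E.wth (lkp [])) l5270 = true ∧
    allY (E.wth (lkp [])) l5271 = true ∧
    allY (E.wth (lkp [])) l5272 = true ∧
    allY (E.wth (lkp [])) l5273 = true ∧
    allY (E.wth (lkp [])) l5274 = true :=
  ⟨by decide +kernel, by decide +kernel, by decide +kernel, by decide +kernel, by decide +kernel, by decide +kernel, by decide +kernel, by decide +kernel⟩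

def t5275 : allY (E.wth (lkp [])) l5275 = true ∧
    allY (E.wth (lkp [])) l5276 = true ∧
    allY (E.wth (lkp [])) l5277 = true ∧
    allY (E.wth (lkp [])) l5278 = true ∧
    allY (E.wth (lkp [])) l5279 = true ∧
    allY (E.wth (lkp [])) l5280 = true ∧
    allY (E.wth (lkp [])) l5281 = true ∧
    allY (E.wth (lkp [])) l5282 = true :=
  ⟨by decide +kernel, by decide +kernel, by decide +kernel, by decide +kernel, by decide +kernel, by decide +kernel, by decide +kernel, by decide +kernel⟩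

def t5283 : allY (E.wth (lkp [])) l5283 = true ∧
    allY (E.wth (lkp [])) l5284 = true ∧
    allY (E.wth (lkp [])) l5285 = true ∧
    allY (E.wth (lkp [])) l5286 = true ∧
    allY (E.wth (lkp [])) l5287 = true ∧
    allY (E.wth (lkp [])) l5288 = true ∧
    allY (E.wth (lkp [])) l5289 = true ∧
    allY (E.wth (lkp [])) l5290 = true :=
  ⟨by decide +kernel, by decide +kernel, by decide +kernel, by decide +kernel, by decide +kernel, by decide +kernel, by decide +kernel, by decide +kernel⟩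

def t5291 : allY (E.wth (lkp [])) l5291 = true ∧
    allY (E.wth (lkp [])) l5292 = true ∧
    allY (E.wth (lkp [])) l5293 = true ∧
    allY (E.wth (lkp [])) l5294 = true ∧
    allY (E.wth (lkp [])) l5295 = true ∧
    allY (E.wth (lkp [])) l5296 = true ∧
    allY (E.wth (lkp [])) l5297 = true ∧
    allY (E.wth (lkp [])) l5298 = true :=
  ⟨by decide +kernel, by decide +kernel, by decide +kernel, by decide +kernel, by decide +kernel, by decide +kernel, by decide +kernel, by decide +kernel⟩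

def t5299 : allY (E.wth (lkp [])) l5299 = true ∧
    allY (E.wth (lkp [])) l5300 = true ∧
    allY (E.wth (lkp [])) l5301 = true ∧
    allY (E.wth (lkp [])) l5302 = true ∧
    allY (E.wth (lkp [])) l5303 = true ∧
    allY (E.wth (lkp [])) l5304 = true ∧
    allY (E.wth (lkp [])) l5305 = true ∧
    allY (E.wth (lkp [])) l5306 = true :=
  ⟨by decide +kernel, by decide +kernel, by decide +kernel, by decide +kernel, by decide +kernel, by decide +kernel, by decide +kernel, by decide +kernel⟩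

def t5307 : allY (E.wth (lkp [])) l5307 = true ∧
    allY (E.wth (lkp [])) l5308 = true ∧
    allY (E.wth (lkp [])) l5309 = true ∧
    allY (E.wth (lkp [])) l5310 = true ∧
    allY (E.wth (lkp [])) l5311 = true ∧
    allY (E.wth (lkp [])) l5312 = true ∧
    allY (E.wth (lkp [])) l5313 = true ∧
    allY (E.wth (lkp [])) l5314 = true :=
  ⟨by decide +kernel, by decide +kernel, by decide +kernel, by decide +kernel, by decide +kernel, by decide +kernel, by decide +kernel, by decide +kernel⟩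

def t5315 : allY (E.wth (lkp [])) l5315 = true ∧
    allY (E.wth (lkp [])) l5316 = true ∧
    allY (E.wth (lkp [])) l5317 = true ∧
    allY (E.wth (lkp [])) l5318 = true ∧
    allY (E.wth (lkp [])) l5319 = true ∧
    allY (E.wth (lkp [])) l5320 = true ∧
    allY (E.wth (lkp [])) l5321 = true ∧
    allY (E.wth (lkp [])) l5322 = true :=
  ⟨by decide +kernel, by decide +kernel, by decide +kernel, by decide +kernel, by decide +kernel, by decide +kernel, by decide +kernel, by decide +kernel⟩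

def t5323 : allY (E.wth (lkp [])) l5323 = true ∧
    allY (E.wth (lkp [])) l5324 = true ∧
    allY (E.wth (lkp [])) l5325 = true ∧
    allY (E.wth (lkp [])) l5326 = true ∧
    allY (E.wth (lkp [])) l5327 = true ∧
    allY (E.wth (lkp [])) l5328 = true ∧
    allY (E.wth (lkp [])) l5329 = true ∧
    allY (E.wth (lkp [])) l5330 = true :=
  ⟨by decide +kernel, by decide +kernel, by decide +kernel, by decide +kernel, by decide +kernel, by decide +kernel, by decide +kernel, by decide +kernel⟩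

def t5331 : allY (E.wth (lkp [])) l5331 = true ∧
    allY (E.wth (lkp [])) l5332 = true ∧
    allY (E.wth (lkp [])) l5333 = true ∧
    allY (E.wth (lkp [])) l5334 = true ∧
    allY (E.wth (lkp [])) l5335 = true ∧
    allY (E.wth (lkp [])) l5336 = true ∧
    allY (E.wth (lkp [])) l5337 = true ∧
    allY (E.wth (lkp [])) l5338 = true :=
  ⟨by decide +kernel, by decide +kernel, by decide +kernel, by decide +kernel, by decide +kernel, by decide +kernel, by decide +kernel, by decide +kernel⟩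

def t5339 : allY (E.wth (lkp [])) l5339 = true ∧
    allY (E.wth (lkp [])) l5340 = true ∧
    allY (E.wth (lkp [])) l5341 = true ∧
    allY (E.wth (lkp [])) l5342 = true ∧
    allY (E.wth (lkp [])) l5343 = true ∧
    allY (E.wth (lkp [])) l5344 = true ∧
    allY (E.wth (lkp [])) l5345 = true ∧
    allY (E.wth (lkp [])) l5346 = true :=
  ⟨by decide +kernel, by decide +kernel, by decide +kernel, by decide +kernel, by decide +kernel, by decide +kernel, by decide +kernel, by decide +kernel⟩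

def t5347 : allY (E.wth (lkp [])) l5347 = true ∧
    allY (E.wth (lkp [])) l5348 = true ∧
    allY (E.wth (lkp [])) l5349 = true ∧
    allY (E.wth (lkp [])) l5350 = true ∧
    allY (E.wth (lkp [])) l5351 = true ∧
    allY (E.wth (lkp [])) l5352 = true ∧
    allY (E.wth (lkp [])) l5353 = true ∧
    allY (E.wth (lkp [])) l5354 = true :=
  ⟨by decide +kernel, by decide +kernel, by decide +kernel, by decide +kernel, by decide +kernel, by decide +kernel, by decide +kernel, by decide +kernel⟩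

def t5355 : allY (E.wth (lkp [])) l5355 = true ∧
    allY (E.wth (lkp [])) l5356 = true ∧
    allY (E.wth (lkp [])) l5357 = true ∧
    allY (E.wth (lkp [])) l5358 = true ∧
    allY (E.wth (lkp [])) l5359 = true ∧
    allY (E.wth (lkp [])) l5360 = true ∧
    allY (E.wth (lkp [])) l5361 = true ∧
    allY (E.wth (lkp [])) l5362 = true :=
  ⟨by decide +kernel, by decide +kernel, by decide +kernel, by decide +kernel, by decide +kernel, by decide +kernel, by decide +kernel, by decide +kernel⟩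

def t5363 : allY (E.wth (lkp [])) l5363 = true ∧
    allY (E.wth (lkp [])) l5364 = true ∧
    allY (E.wth (lkp [])) l5365 = true ∧
    allY (E.wth (lkp [])) l5366 = true ∧
    allY (E.wth (lkp [])) l5367 = true ∧
    allY (E.wth (lkp [])) l5368 = true ∧
    allY (E.wth (lkp [])) l5369 = true ∧
    allY (E.wth (lkp [])) l5370 = true :=
  ⟨by decide +kernel, by decide +kernel, by decide +kernel, by decide +kernel, by decide +kernel, by decide +kernel, by decide +kernel, by decide +kernel⟩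

def t5371 : allY (E.wth (lkp [])) l5371 = true ∧
    allY (E.wth (lkp [])) l5372 = true ∧
    allY (E.wth (lkp [])) l5373 = true ∧
    allY (E.wth (lkp [])) l5374 = true ∧
    allY (E.wth (lkp [])) l5375 = true ∧
    allY (E.wth (lkp [])) l5376 = true ∧
    allY (E.wth (lkp [])) l5377 = true ∧
    allY (E.wth (lkp [])) l5378 = true :=
  ⟨by decide +kernel, by decide +kernel, by decide +kernel, by decide +kernel, by decide +kernel, by decide +kernel, by decide +kernel, by decide +kernel⟩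

def t5379 : allY (E.wth (lkp [])) l5379 = true ∧
    allY (E.wth (lkp [])) l5380 = true ∧
    allY (E.wth (lkp [])) l5381 = true ∧
    allY (E.wth (lkp [])) l5382 = true ∧
    allY (E.wth (lkp [])) l5383 = true ∧
    allY (E.wth (lkp [])) l5384 = true ∧
    allY (E.wth (lkp [])) l5385 = true ∧
    allY (E.wth (lkp [])) l5386 = true :=
  ⟨by decide +kernel, by decide +kernel, by decide +kernel, by decide +kernel, by decide +kernel, by decide +kernel, by decide +kernel, by decide +kernel⟩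

def t5387 : allY (E.wth (lkp [])) l5387 = true ∧
    allY (E.wth (lkp [])) l5388 = true ∧
    allY (E.wth (lkp [])) l5389 = true ∧
    allY (E.wth (lkp [])) l5390 = true ∧
    allY (E.wth (lkp [])) l5391 = true ∧
    allY (E.wth (lkp [])) l5392 = true ∧
    allY (E.wth (lkp [])) l5393 = true ∧
    allY (E.wth (lkp [])) l5394 = true :=
  ⟨by decide +kernel, by decide +kernel, by decide +kernel, by decide +kernel, by decide +kernel, by decide +kernel, by decide +kernel, by decide +kernel⟩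

def t5395 : allY (E.wth (lkp [])) l5395 = true ∧
    allY (E.wth (lkp [])) l5396 = true ∧
    allY (E.wth (lkp [])) l5397 = true ∧
    allY (E.wth (lkp [])) l5398 = true ∧
    allY (E.wth (lkp [])) l5399 = true ∧
    allY (E.wth (lkp [])) l5400 = true ∧
    allY (E.wth (lkp [])) l5401 = true ∧
    allY (E.wth (lkp [])) l5402 = true :=
  ⟨by decide +kernel, by decide +kernel, by decide +kernel, by decide +kernel, by decide +kernel, by decide +kernel, by decide +kernel, by decide +kernel⟩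

def t5403 : allY (E.wth (lkp [])) l5403 = true ∧
    allY (E.wth (lkp [])) l5404 = true ∧
    allY (E.wth (lkp [])) l5405 = true ∧
    allY (E.wth (lkp [])) l5406 = true ∧
    allY (E.wth (lkp [])) l5407 = true ∧
    allY (E.wth (lkp [])) l5408 = true ∧
    allY (E.wth (lkp [])) l5409 = true ∧
    allY (E.wth (lkp [])) l5410 = true :=
  ⟨by decide +kernel, by decide +kernel, by decide +kernel, by decide +kernel, by decide +kernel, by decide +kernel, by decide +kernel, by decide +kernel⟩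

def t5411 : allY (E.wth (lkp [])) l5411 = true ∧
    allY (E.wth (lkp [])) l5412 = true ∧
    allY (E.wth (lkp [])) l5413 = true ∧
    allY (E.wth (lkp [])) l5414 = true ∧
    allY (E.wth (lkp [])) l5415 = true ∧
    allY (E.wth (lkp [])) l5416 = true ∧
    allY (E.wth (lkp [])) l5417 = true ∧
    allY (E.wth (lkp [])) l5418 = true :=
  ⟨by decide +kernel, by decide +kernel, by decide +kernel, by decide +kernel, by decide +kernel, by decide +kernel, by decide +kernel, by decide +kernel⟩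

def t5419 : allY (E.wth (lkp [])) l5419 = true ∧
    allY (E.wth (lkp [])) l5420 = true ∧
    allY (E.wth (lkp [])) l5421 = true ∧
    allY (E.wth (lkp [])) l5422 = true ∧
    allY (E.wth (lkp [])) l5423 = true ∧
    allY (E.wth (lkp [])) l5424 = true ∧
    allY (E.wth (lkp [])) l5425 = true ∧
    allY (E.wth (lkp [])) l5426 = true :=
  ⟨by decide +kernel, by decide +kernel, by decide +kernel, by decide +kernel, by decide +kernel, by decide +kernel, by decide +kernel, by decide +kernel⟩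

def t5427 : allY (E.wth (lkp [])) l5427 = true ∧
    allY (E.wth (lkp [])) l5428 = true ∧
    allY (E.wth (lkp [])) l5429 = true ∧
    allY (E.wth (lkp [])) l5430 = true ∧
    allY (E.wth (lkp [])) l5431 = true ∧
    allY (E.wth (lkp [])) l5432 = true ∧
    allY (E.wth (lkp [])) l5433 = true ∧
    allY (E.wth (lkp [])) l5434 = true :=
  ⟨by decide +kernel, by decide +kernel, by decide +kernel, by decide +kernel, by decide +kernel, by decide +kernel, by decide +kernel, by decide +kernel⟩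

def t5435 : allY (E.wth (lkp [])) l5435 = true ∧
    allY (E.wth (lkp [])) l5436 = true ∧
    allY (E.wth (lkp [])) l5437 = true ∧
    allY (E.wth (lkp [])) l5438 = true ∧
    allY (E.wth (lkp [])) l5439 = true ∧
    allY (E.wth (lkp [])) l5440 = true ∧
    allY (E.wth (lkp [])) l5441 = true ∧
    allY (E.wth (lkp [])) l5442 = true :=
  ⟨by decide +kernel, by decide +kernel, by decide +kernel, by decide +kernel, by decide +kernel, by decide +kernel, by decide +kernel, by decide +kernel⟩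

def t5443 : allY (E.wth (lkp [])) l5443 = true ∧
    allY (E.wth (lkp [])) l5444 = true ∧
    allY (E.wth (lkp [])) l5445 = true ∧
    allY (E.wth (lkp [])) l5446 = true ∧
    allY (E.wth (lkp [])) l5447 = true ∧
    allY (E.wth (lkp [])) l5448 = true ∧
    allY (E.wth (lkp [])) l5449 = true ∧
    allY (E.wth (lkp [])) l5450 = true :=
  ⟨by decide +kernel, by decide +kernel, by decide +kernel, by decide +kernel, by decide +kernel, by decide +kernel, by decide +kernel, by decide +kernel⟩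

def t5451 : allY (E.wth (lkp [])) l5451 = true ∧
    allY (E.wth (lkp [])) l5452 = true ∧
    allY (E.wth (lkp [])) l5453 = true ∧
    allY (E.wth (lkp [])) l5454 = true ∧
    allY (E.wth (lkp [])) l5455 = true ∧
    allY (E.wth (lkp [])) l5456 = true ∧
    allY (E.wth (lkp [])) l5457 = true ∧
    allY (E.wth (lkp [])) l5458 = true :=
  ⟨by decide +kernel, by decide +kernel, by decide +kernel, by decide +kernel, by decide +kernel, by decide +kernel, by decide +kernel, by decide +kernel⟩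

def t5459 : allY (E.wth (lkp [])) l5459 = true ∧
    allY (E.wth (lkp [])) l5460 = true ∧
    allY (E.wth (lkp [])) l5461 = true ∧
    allY (E.wth (lkp [])) l5462 = true ∧
    allY (E.wth (lkp [])) l5463 = true ∧
    allY (E.wth (lkp [])) l5464 = true ∧
    allY (E.wth (lkp [])) l5465 = true ∧
    allY (E.wth (lkp [])) l5466 = true :=
  ⟨by decide +kernel, by decide +kernel, by decide +kernel, by decide +kernel, by decide +kernel, by decide +kernel, by decide +kernel, by decide +kernel⟩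

def t5467 : allY (E.wth (lkp [])) l5467 = true ∧
    allY (E.wth (lkp [])) l5468 = true ∧
    allY (E.wth (lkp [])) l5469 = true ∧
    allY (E.wth (lkp [])) l5470 = true ∧
    allY (E.wth (lkp [])) l5471 = true ∧
    allY (E.wth (lkp [])) l5472 = true ∧
    allY (E.wth (lkp [])) l5473 = true ∧
    allY (E.wth (lkp [])) l5474 = true :=
  ⟨by decide +kernel, by decide +kernel, by decide +kernel, by decide +kernel, by decide +kernel, by decide +kernel, by decide +kernel, by decide +kernel⟩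

def t5475 : allY (E.wth (lkp [])) l5475 = true ∧
    allY (E.wth (lkp [])) l5476 = true ∧
    allY (E.wth (lkp [])) l5477 = true ∧
    allY (E.wth (lkp [])) l5478 = true ∧
    allY (E.wth (lkp [])) l5479 = true ∧
    allY (E.wth (lkp [])) l5480 = true ∧
    allY (E.wth (lkp [])) l5481 = true ∧
    allY (E.wth (lkp [])) l5482 = true :=
  ⟨by decide +kernel, by decide +kernel, by decide +kernel, by decide +kernel, by decide +kernel, by decide +kernel, by decide +kernel, by decide +kernel⟩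

def t5483 : allY (E.wth (lkp [])) l5483 = true ∧
    allY (E.wth (lkp [])) l5484 = true ∧
    allY (E.wth (lkp [])) l5485 = true ∧
    allY (E.wth (lkp [])) l5486 = true ∧
    allY (E.wth (lkp [])) l5487 = true ∧
    allY (E.wth (lkp [])) l5488 = true ∧
    allY (E.wth (lkp [])) l5489 = true ∧
    allY (E.wth (lkp [])) l5490 = true :=
  ⟨by decide +kernel, by decide +kernel, by decide +kernel, by decide +kernel, by decide +kernel, by decide +kernel, by decide +kernel, by decide +kernel⟩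

def t5491 : allY (E.wth (lkp [])) l5491 = true ∧
    allY (E.wth (lkp [])) l5492 = true ∧
    allY (E.wth (lkp [])) l5493 = true ∧
    allY (E.wth (lkp [])) l5494 = true ∧
    allY (E.wth (lkp [])) l5495 = true ∧
    allY (E.wth (lkp [])) l5496 = true ∧
    allY (E.wth (lkp [])) l5497 = true ∧
    allY (E.wth (lkp [])) l5498 = true :=
  ⟨by decide +kernel, by decide +kernel, by decide +kernel, by decide +kernel, by decide +kernel, by decide +kernel, by decide +kernel, by decide +kernel⟩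

def t5499 : allY (E.wth (lkp [])) l5499 = true ∧
    allY (E.wth (lkp [])) l5500 = true ∧
    allY (E.wth (lkp [])) l5501 = true ∧
    allY (E.wth (lkp [])) l5502 = true ∧
    allY (E.wth (lkp [])) l5503 = true ∧
    allY (E.wth (lkp [])) l5504 = true ∧
    allY (E.wth (lkp [])) l5505 = true ∧
    allY (E.wth (lkp [])) l5506 = true :=
  ⟨by decide +kernel, by decide +kernel, by decide +kernel, by decide +kernel, by decide +kernel, by decide +kernel, by decide +kernel, by decide +kernel⟩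

def t5507 : allY (E.wth (lkp [])) l5507 = true ∧
    allY (E.wth (lkp [])) l5508 = true ∧
    allY (E.wth (lkp [])) l5509 = true ∧
    allY (E.wth (lkp [])) l5510 = true ∧
    allY (E.wth (lkp [])) l5511 = true ∧
    allY (E.wth (lkp [])) l5512 = true ∧
    allY (E.wth (lkp [])) l5513 = true ∧
    allY (E.wth (lkp [])) l5514 = true :=
  ⟨by decide +kernel, by decide +kernel, by decide +kernel, by decide +kernel, by decide +kernel, by decide +kernel, by decide +kernel, by decide +kernel⟩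

def t5515 : allY (E.wth (lkp [])) l5515 = true ∧
    allY (E.wth (lkp [])) l5516 = true ∧
    allY (E.wth (lkp [])) l5517 = true ∧
    allY (E.wth (lkp [])) l5518 = true ∧
    allY (E.wth (lkp [])) l5519 = true ∧
    allY (E.wth (lkp [])) l5520 = true ∧
    allY (E.wth (lkp [])) l5521 = true ∧
    allY (E.wth (lkp [])) l5522 = true :=
  ⟨by decide +kernel, by decide +kernel, by decide +kernel, by decide +kernel, by decide +kernel, by decide +kernel, by decide +kernel, by decide +kernel⟩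

def t5523 : allY (E.wth (lkp [])) l5523 = true ∧
    allY (E.wth (lkp [])) l5524 = true ∧
    allY (E.wth (lkp [])) l5525 = true ∧
    allY (E.wth (lkp [])) l5526 = true ∧
    allY (E.wth (lkp [])) l5527 = true ∧
    allY (E.wth (lkp [])) l5528 = true ∧
    allY (E.wth (lkp [])) l5529 = true ∧
    allY (E.wth (lkp [])) l5530 = true :=
  ⟨by decide +kernel, by decide +kernel, by decide +kernel, by decide +kernel, by decide +kernel, by decide +kernel, by decide +kernel, by decide +kernel⟩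

def t5531 : allY (E.wth (lkp [])) l5531 = true ∧
    allY (E.wth (lkp [])) l5532 = true ∧
    allY (E.wth (lkp [])) l5533 = true ∧
    allY (E.wth (lkp [])) l5534 = true ∧
    allY (E.wth (lkp [])) l5535 = true ∧
    allY (E.wth (lkp [])) l5536 = true ∧
    allY (E.wth (lkp [])) l5537 = true ∧
    allY (E.wth (lkp [])) l5538 = true :=
  ⟨by decide +kernel, by decide +kernel, by decide +kernel, by decide +kernel, by decide +kernel, by decide +kernel, by decide +kernel, by decide +kernel⟩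

def t5539 : allY (E.wth (lkp [])) l5539 = true ∧
    allY (E.wth (lkp [])) l5540 = true ∧
    allY (E.wth (lkp [])) l5541 = true ∧
    allY (E.wth (lkp [])) l5542 = true ∧
    allY (E.wth (lkp [])) l5543 = true ∧
    allY (E.wth (lkp [])) l5544 = true ∧
    allY (E.wth (lkp [])) l5545 = true ∧
    allY (E.wth (lkp [])) l5546 = true :=
  ⟨by decide +kernel, by decide +kernel, by decide +kernel, by decide +kernel, by decide +kernel, by decide +kernel, by decide +kernel, by decide +kernel⟩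

def t5547 : allY (E.wth (lkp [])) l5547 = true ∧
    allY (E.wth (lkp [])) l5548 = true ∧
    allY (E.wth (lkp [])) l5549 = true ∧
    allY (E.wth (lkp [])) l5550 = true ∧
    allY (E.wth (lkp [])) l5551 = true ∧
    allY (E.wth (lkp [])) l5552 = true ∧
    allY (E.wth (lkp [])) l5553 = true ∧
    allY (E.wth (lkp [])) l5554 = true :=
  ⟨by decide +kernel, by decide +kernel, by decide +kernel, by decide +kernel, by decide +kernel, by decide +kernel, by decide +kernel, by decide +kernel⟩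

def t5555 : allY (E.wth (lkp [])) l5555 = true ∧
    allY (E.wth (lkp [])) l5556 = true ∧
    allY (E.wth (lkp [])) l5557 = true ∧
    allY (E.wth (lkp [])) l5558 = true ∧
    allY (E.wth (lkp [])) l5559 = true ∧
    allY (E.wth (lkp [])) l5560 = true ∧
    allY (E.wth (lkp [])) l5561 = true ∧
    allY (E.wth (lkp [])) l5562 = true :=
  ⟨by decide +kernel, by decide +kernel, by decide +kernel, by decide +kernel, by decide +kernel, by decide +kernel, by decide +kernel, by decide +kernel⟩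

def t5563 : allY (E.wth (lkp [])) l5563 = true ∧
    allY (E.wth (lkp [])) l5564 = true ∧
    allY (E.wth (lkp [])) l5565 = true ∧
    allY (E.wth (lkp [])) l5566 = true ∧
    allY (E.wth (lkp [])) l5567 = true ∧
    allY (E.wth (lkp [])) l5568 = true ∧
    allY (E.wth (lkp [])) l5569 = true ∧
    allY (E.wth (lkp [])) l5570 = true :=
  ⟨by decide +kernel, by decide +kernel, by decide +kernel, by decide +kernel, by decide +kernel, by decide +kernel, by decide +kernel, by decide +kernel⟩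

theorem a9 {p : Rf → Prop} (H : ∀ l, allY (E.wth (lkp [])) l = true → (lkp l).All p) :
    b9.All p := ⟨⟨⟨⟨⟨⟨⟨⟨⟨H _ t4995.1, H _ t4995.2.1⟩, ⟨H _ t4995.2.2.1, H _ t4995.2.2.2.1⟩⟩, ⟨⟨H _ t4995.2.2.2.2.1, H _ t4995.2.2.2.2.2.1⟩, ⟨H _ t4995.2.2.2.2.2.2.1, ⟨H _ t4995.2.2.2.2.2.2.2, H _ t5003.1⟩⟩⟩⟩, ⟨⟨⟨H _ t5003.2.1, H _ t5003.2.2.1⟩, ⟨H _ t5003.2.2.2.1, H _ t5003.2.2.2.2.1⟩⟩, ⟨⟨H _ t5003.2.2.2.2.2.1, H _ t5003.2.2.2.2.2.2.1⟩, ⟨H _ t5003.2.2.2.2.2.2.2, ⟨H _ t5011.1, H _ t5011.2.1⟩⟩⟩⟩⟩, ⟨⟨⟨⟨H _ t5011.2.2.1, H _ t5011.2.2.2.1⟩, ⟨H _ t5011.2.2.2.2.1, H _ t5011.2.2.2.2.2.1⟩⟩, ⟨⟨H _ t5011.2.2.2.2.2.2.1, H _ t5011.2.2.2.2.2.2.2⟩, ⟨H _ t5019.1, ⟨H _ t5019.2.1, H _ t5019.2.2.1⟩⟩⟩⟩, ⟨⟨⟨H _ t5019.2.2.2.1, H _ t5019.2.2.2.2.1⟩, ⟨H _ t5019.2.2.2.2.2.1, H _ t5019.2.2.2.2.2.2.1⟩⟩, ⟨⟨H _ t5019.2.2.2.2.2.2.2, H _ t5027.1⟩, ⟨H _ t5027.2.1, ⟨H _ t5027.2.2.1, H _ t5027.2.2.2.1⟩⟩⟩⟩⟩⟩, ⟨⟨⟨⟨⟨H _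 t5027.2.2.2.2.1, H _ t5027.2.2.2.2.2.1⟩, ⟨H _ t5027.2.2.2.2.2.2.1, H _ t5027.2.2.2.2.2.2.2⟩⟩, ⟨⟨H _ t5035.1, H _ t5035.2.1⟩, ⟨H _ t5035.2.2.1, ⟨H _ t5035.2.2.2.1, H _ t5035.2.2.2.2.1⟩⟩⟩⟩, ⟨⟨⟨H _ t5035.2.2.2.2.2.1, H _ t5035.2.2.2.2.2.2.1⟩, ⟨H _ t5035.2.2.2.2.2.2.2, H _ t5043.1⟩⟩, ⟨⟨H _ t5043.2.1, H _ t5043.2.2.1⟩, ⟨H _ t5043.2.2.2.1, ⟨H _ t5043.2.2.2.2.1, H _ t5043.2.2.2.2.2.1⟩⟩⟩⟩⟩, ⟨⟨⟨⟨H _ t5043.2.2.2.2.2.2.1, H _ t5043.2.2.2.2.2.2.2⟩, ⟨H _ t5051.1, H _ t5051.2.1⟩⟩, ⟨⟨H _ t5051.2.2.1, H _ t5051.2.2.2.1⟩, ⟨H _ t5051.2.2.2.2.1, ⟨H _ t5051.2.2.2.2.2.1, H _ t5051.2.2.2.2.2.2.1⟩⟩⟩⟩, ⟨⟨⟨H _ t5051.2.2.2.2.2.2.2, H _ t5059.1⟩, ⟨H _ t5059.2.1, H _ t5059.2.2.1⟩⟩, ⟨⟨H _ t5059.2.2.2.1, H _ t5059.2.2.2.2.1⟩, ⟨H _ t5059.2.2.2.2.2.1, ⟨H _ t5059.2.2.2.2.2.2.1, H _ t5059.2.2.2.2.2.2.2⟩⟩⟩⟩⟩⟩⟩, ⟨⟨⟨⟨⟨⟨H _ t5067.1, H _ t5067.2.1⟩, ⟨H _ t5067.2.2.1, H _ t5067.2.2.2.1⟩⟩, ⟨⟨H _ t5067.2.2.2.2.1,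 H _ t5067.2.2.2.2.2.1⟩, ⟨H _ t5067.2.2.2.2.2.2.1, ⟨H _ t5067.2.2.2.2.2.2.2, H _ t5075.1⟩⟩⟩⟩, ⟨⟨⟨H _ t5075.2.1, H _ t5075.2.2.1⟩, ⟨H _ t5075.2.2.2.1, H _ t5075.2.2.2.2.1⟩⟩, ⟨⟨H _ t5075.2.2.2.2.2.1, H _ t5075.2.2.2.2.2.2.1⟩, ⟨H _ t5075.2.2.2.2.2.2.2, ⟨H _ t5083.1, H _ t5083.2.1⟩⟩⟩⟩⟩, ⟨⟨⟨⟨H _ t5083.2.2.1, H _ t5083.2.2.2.1⟩, ⟨H _ t5083.2.2.2.2.1, H _ t5083.2.2.2.2.2.1⟩⟩, ⟨⟨H _ t5083.2.2.2.2.2.2.1, H _ t5083.2.2.2.2.2.2.2⟩, ⟨H _ t5091.1, ⟨H _ t5091.2.1, H _ t5091.2.2.1⟩⟩⟩⟩, ⟨⟨⟨H _ t5091.2.2.2.1, H _ t5091.2.2.2.2.1⟩, ⟨H _ t5091.2.2.2.2.2.1, H _ t5091.2.2.2.2.2.2.1⟩⟩, ⟨⟨H _ t5091.2.2.2.2.2.2.2, H _ t5099.1⟩, ⟨H _ t5099.2.1, ⟨H _ t5099.2.2.1, H _ t5099.2.2.2.1⟩⟩⟩⟩⟩⟩, ⟨⟨⟨⟨⟨H _ t5099.2.2.2.2.1, H _ t5099.2.2.2.2.2.1⟩, ⟨H _ t5099.2.2.2.2.2.2.1, H _ t5099.2.2.2.2.2.2.2⟩⟩, ⟨⟨H _ t5107.1, H _ t5107.2.1⟩, ⟨H _ t5107.2.2.1, ⟨H _ t5107.2.2.2.1, H _ t5107.2.2.2.2.1⟩⟩⟩⟩, ⟨⟨⟨H _ t5107.2.2.2.2.2.1,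 H _ t5107.2.2.2.2.2.2.1⟩, ⟨H _ t5107.2.2.2.2.2.2.2, H _ t5115.1⟩⟩, ⟨⟨H _ t5115.2.1, H _ t5115.2.2.1⟩, ⟨H _ t5115.2.2.2.1, ⟨H _ t5115.2.2.2.2.1, H _ t5115.2.2.2.2.2.1⟩⟩⟩⟩⟩, ⟨⟨⟨⟨H _ t5115.2.2.2.2.2.2.1, H _ t5115.2.2.2.2.2.2.2⟩, ⟨H _ t5123.1, H _ t5123.2.1⟩⟩, ⟨⟨H _ t5123.2.2.1, H _ t5123.2.2.2.1⟩, ⟨H _ t5123.2.2.2.2.1, ⟨H _ t5123.2.2.2.2.2.1, H _ t5123.2.2.2.2.2.2.1⟩⟩⟩⟩, ⟨⟨⟨H _ t5123.2.2.2.2.2.2.2, H _ t5131.1⟩, ⟨H _ t5131.2.1, H _ t5131.2.2.1⟩⟩, ⟨⟨H _ t5131.2.2.2.1, H _ t5131.2.2.2.2.1⟩, ⟨H _ t5131.2.2.2.2.2.1, ⟨H _ t5131.2.2.2.2.2.2.1, H _ t5131.2.2.2.2.2.2.2⟩⟩⟩⟩⟩⟩⟩⟩, ⟨⟨⟨⟨⟨⟨⟨H _ t5139.1, H _ t5139.2.1⟩, ⟨H _ t5139.2.2.1, H _ t5139.2.2.2.1⟩⟩, ⟨⟨H _ t5139.2.2.2.2.1, H _ t5139.2.2.2.2.2.1⟩, ⟨H _ t5139.2.2.2.2.2.2.1, ⟨H _ t5139.2.2.2.2.2.2.2, H _ t5147.1⟩⟩⟩⟩, ⟨⟨⟨H _ t5147.2.1, H _ t5147.2.2.1⟩, ⟨H _ t5147.2.2.2.1, H _ t5147.2.2.2.2.1⟩⟩, ⟨⟨H _ t5147.2.2.2.2.2.1, H _ t5147.2.2.2.2.2.2.1⟩,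 ⟨H _ t5147.2.2.2.2.2.2.2, ⟨H _ t5155.1, H _ t5155.2.1⟩⟩⟩⟩⟩, ⟨⟨⟨⟨H _ t5155.2.2.1, H _ t5155.2.2.2.1⟩, ⟨H _ t5155.2.2.2.2.1, H _ t5155.2.2.2.2.2.1⟩⟩, ⟨⟨H _ t5155.2.2.2.2.2.2.1, H _ t5155.2.2.2.2.2.2.2⟩, ⟨H _ t5163.1, ⟨H _ t5163.2.1, H _ t5163.2.2.1⟩⟩⟩⟩, ⟨⟨⟨H _ t5163.2.2.2.1, H _ t5163.2.2.2.2.1⟩, ⟨H _ t5163.2.2.2.2.2.1, H _ t5163.2.2.2.2.2.2.1⟩⟩, ⟨⟨H _ t5163.2.2.2.2.2.2.2, H _ t5171.1⟩, ⟨H _ t5171.2.1, ⟨H _ t5171.2.2.1, H _ t5171.2.2.2.1⟩⟩⟩⟩⟩⟩, ⟨⟨⟨⟨⟨H _ t5171.2.2.2.2.1, H _ t5171.2.2.2.2.2.1⟩, ⟨H _ t5171.2.2.2.2.2.2.1, H _ t5171.2.2.2.2.2.2.2⟩⟩, ⟨⟨H _ t5179.1, H _ t5179.2.1⟩, ⟨H _ t5179.2.2.1, ⟨H _ t5179.2.2.2.1, H _ t5179.2.2.2.2.1⟩⟩⟩⟩, ⟨⟨⟨H _ t5179.2.2.2.2.2.1, H _ t5179.2.2.2.2.2.2.1⟩, ⟨H _ t5179.2.2.2.2.2.2.2, H _ t5187.1⟩⟩, ⟨⟨H _ t5187.2.1, H _ t5187.2.2.1⟩, ⟨H _ t5187.2.2.2.1, ⟨H _ t5187.2.2.2.2.1, H _ t5187.2.2.2.2.2.1⟩⟩⟩⟩⟩, ⟨⟨⟨⟨H _ t5187.2.2.2.2.2.2.1, H _ t5187.2.2.2.2.2.2.2⟩,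 ⟨H _ t5195.1, H _ t5195.2.1⟩⟩, ⟨⟨H _ t5195.2.2.1, H _ t5195.2.2.2.1⟩, ⟨H _ t5195.2.2.2.2.1, ⟨H _ t5195.2.2.2.2.2.1, H _ t5195.2.2.2.2.2.2.1⟩⟩⟩⟩, ⟨⟨⟨H _ t5195.2.2.2.2.2.2.2, H _ t5203.1⟩, ⟨H _ t5203.2.1, H _ t5203.2.2.1⟩⟩, ⟨⟨H _ t5203.2.2.2.1, H _ t5203.2.2.2.2.1⟩, ⟨H _ t5203.2.2.2.2.2.1, ⟨H _ t5203.2.2.2.2.2.2.1, H _ t5203.2.2.2.2.2.2.2⟩⟩⟩⟩⟩⟩⟩, ⟨⟨⟨⟨⟨⟨H _ t5211.1, H _ t5211.2.1⟩, ⟨H _ t5211.2.2.1, H _ t5211.2.2.2.1⟩⟩, ⟨⟨H _ t5211.2.2.2.2.1, H _ t5211.2.2.2.2.2.1⟩, ⟨H _ t5211.2.2.2.2.2.2.1, ⟨H _ t5211.2.2.2.2.2.2.2, H _ t5219.1⟩⟩⟩⟩, ⟨⟨⟨H _ t5219.2.1, H _ t5219.2.2.1⟩, ⟨H _ t5219.2.2.2.1, H _ t5219.2.2.2.2.1⟩⟩, ⟨⟨H _ t5219.2.2.2.2.2.1, H _ t5219.2.2.2.2.2.2.1⟩, ⟨H _ t5219.2.2.2.2.2.2.2, ⟨H _ t5227.1, H _ t5227.2.1⟩⟩⟩⟩⟩, ⟨⟨⟨⟨H _ t5227.2.2.1, H _ t5227.2.2.2.1⟩, ⟨H _ t5227.2.2.2.2.1, H _ t5227.2.2.2.2.2.1⟩⟩, ⟨⟨H _ t5227.2.2.2.2.2.2.1, H _ t5227.2.2.2.2.2.2.2⟩, ⟨H _ t5235.1,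 ⟨H _ t5235.2.1, H _ t5235.2.2.1⟩⟩⟩⟩, ⟨⟨⟨H _ t5235.2.2.2.1, H _ t5235.2.2.2.2.1⟩, ⟨H _ t5235.2.2.2.2.2.1, H _ t5235.2.2.2.2.2.2.1⟩⟩, ⟨⟨H _ t5235.2.2.2.2.2.2.2, H _ t5243.1⟩, ⟨H _ t5243.2.1, ⟨H _ t5243.2.2.1, H _ t5243.2.2.2.1⟩⟩⟩⟩⟩⟩, ⟨⟨⟨⟨⟨H _ t5243.2.2.2.2.1, H _ t5243.2.2.2.2.2.1⟩, ⟨H _ t5243.2.2.2.2.2.2.1, H _ t5243.2.2.2.2.2.2.2⟩⟩, ⟨⟨H _ t5251.1, H _ t5251.2.1⟩, ⟨H _ t5251.2.2.1, ⟨H _ t5251.2.2.2.1, H _ t5251.2.2.2.2.1⟩⟩⟩⟩, ⟨⟨⟨H _ t5251.2.2.2.2.2.1, H _ t5251.2.2.2.2.2.2.1⟩, ⟨H _ t5251.2.2.2.2.2.2.2, H _ t5259.1⟩⟩, ⟨⟨H _ t5259.2.1, H _ t5259.2.2.1⟩, ⟨H _ t5259.2.2.2.1, ⟨H _ t5259.2.2.2.2.1, H _ t5259.2.2.2.2.2.1⟩⟩⟩⟩⟩, ⟨⟨⟨⟨H _ t5259.2.2.2.2.2.2.1, H _ t5259.2.2.2.2.2.2.2⟩, ⟨H _ t5267.1, H _ t5267.2.1⟩⟩, ⟨⟨H _ t5267.2.2.1, H _ t5267.2.2.2.1⟩, ⟨H _ t5267.2.2.2.2.1, ⟨H _ t5267.2.2.2.2.2.1, H _ t5267.2.2.2.2.2.2.1⟩⟩⟩⟩, ⟨⟨⟨H _ t5267.2.2.2.2.2.2.2, H _ t5275.1⟩, ⟨H _ t5275.2.1,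 H _ t5275.2.2.1⟩⟩, ⟨⟨H _ t5275.2.2.2.1, H _ t5275.2.2.2.2.1⟩, ⟨H _ t5275.2.2.2.2.2.1, ⟨H _ t5275.2.2.2.2.2.2.1, H _ t5275.2.2.2.2.2.2.2⟩⟩⟩⟩⟩⟩⟩⟩⟩, ⟨⟨⟨⟨⟨⟨⟨⟨H _ t5283.1, H _ t5283.2.1⟩, ⟨H _ t5283.2.2.1, H _ t5283.2.2.2.1⟩⟩, ⟨⟨H _ t5283.2.2.2.2.1, H _ t5283.2.2.2.2.2.1⟩, ⟨H _ t5283.2.2.2.2.2.2.1, ⟨H _ t5283.2.2.2.2.2.2.2, H _ t5291.1⟩⟩⟩⟩, ⟨⟨⟨H _ t5291.2.1, H _ t5291.2.2.1⟩, ⟨H _ t5291.2.2.2.1, H _ t5291.2.2.2.2.1⟩⟩, ⟨⟨H _ t5291.2.2.2.2.2.1, H _ t5291.2.2.2.2.2.2.1⟩, ⟨H _ t5291.2.2.2.2.2.2.2, ⟨H _ t5299.1, H _ t5299.2.1⟩⟩⟩⟩⟩, ⟨⟨⟨⟨H _ t5299.2.2.1, H _ t5299.2.2.2.1⟩, ⟨H _ t5299.2.2.2.2.1, H _ t5299.2.2.2.2.2.1⟩⟩, ⟨⟨H _ t5299.2.2.2.2.2.2.1, H _ t5299.2.2.2.2.2.2.2⟩, ⟨H _ t5307.1, ⟨H _ t5307.2.1, H _ t5307.2.2.1⟩⟩⟩⟩, ⟨⟨⟨H _ t5307.2.2.2.1, H _ t5307.2.2.2.2.1⟩, ⟨H _ t5307.2.2.2.2.2.1, H _ t5307.2.2.2.2.2.2.1⟩⟩, ⟨⟨H _ t5307.2.2.2.2.2.2.2, H _ t5315.1⟩, ⟨H _ t5315.2.1, ⟨H _ t5315.2.2.1,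 H _ t5315.2.2.2.1⟩⟩⟩⟩⟩⟩, ⟨⟨⟨⟨⟨H _ t5315.2.2.2.2.1, H _ t5315.2.2.2.2.2.1⟩, ⟨H _ t5315.2.2.2.2.2.2.1, H _ t5315.2.2.2.2.2.2.2⟩⟩, ⟨⟨H _ t5323.1, H _ t5323.2.1⟩, ⟨H _ t5323.2.2.1, ⟨H _ t5323.2.2.2.1, H _ t5323.2.2.2.2.1⟩⟩⟩⟩, ⟨⟨⟨H _ t5323.2.2.2.2.2.1, H _ t5323.2.2.2.2.2.2.1⟩, ⟨H _ t5323.2.2.2.2.2.2.2, H _ t5331.1⟩⟩, ⟨⟨H _ t5331.2.1, H _ t5331.2.2.1⟩, ⟨H _ t5331.2.2.2.1, ⟨H _ t5331.2.2.2.2.1, H _ t5331.2.2.2.2.2.1⟩⟩⟩⟩⟩, ⟨⟨⟨⟨H _ t5331.2.2.2.2.2.2.1, H _ t5331.2.2.2.2.2.2.2⟩, ⟨H _ t5339.1, H _ t5339.2.1⟩⟩, ⟨⟨H _ t5339.2.2.1, H _ t5339.2.2.2.1⟩, ⟨H _ t5339.2.2.2.2.1, ⟨H _ t5339.2.2.2.2.2.1, H _ t5339.2.2.2.2.2.2.1⟩⟩⟩⟩, ⟨⟨⟨H _ t5339.2.2.2.2.2.2.2, H _ t5347.1⟩, ⟨H _ t5347.2.1, H _ t5347.2.2.1⟩⟩, ⟨⟨H _ t5347.2.2.2.1, H _ t5347.2.2.2.2.1⟩, ⟨H _ t5347.2.2.2.2.2.1, ⟨H _ t5347.2.2.2.2.2.2.1, H _ t5347.2.2.2.2.2.2.2⟩⟩⟩⟩⟩⟩⟩, ⟨⟨⟨⟨⟨⟨H _ t5355.1, H _ t5355.2.1⟩, ⟨H _ t5355.2.2.1, H _ t5355.2.2.2.1⟩⟩,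 ⟨⟨H _ t5355.2.2.2.2.1, H _ t5355.2.2.2.2.2.1⟩, ⟨H _ t5355.2.2.2.2.2.2.1, ⟨H _ t5355.2.2.2.2.2.2.2, H _ t5363.1⟩⟩⟩⟩, ⟨⟨⟨H _ t5363.2.1, H _ t5363.2.2.1⟩, ⟨H _ t5363.2.2.2.1, H _ t5363.2.2.2.2.1⟩⟩, ⟨⟨H _ t5363.2.2.2.2.2.1, H _ t5363.2.2.2.2.2.2.1⟩, ⟨H _ t5363.2.2.2.2.2.2.2, ⟨H _ t5371.1, H _ t5371.2.1⟩⟩⟩⟩⟩, ⟨⟨⟨⟨H _ t5371.2.2.1, H _ t5371.2.2.2.1⟩, ⟨H _ t5371.2.2.2.2.1, H _ t5371.2.2.2.2.2.1⟩⟩, ⟨⟨H _ t5371.2.2.2.2.2.2.1, H _ t5371.2.2.2.2.2.2.2⟩, ⟨H _ t5379.1, ⟨H _ t5379.2.1, H _ t5379.2.2.1⟩⟩⟩⟩, ⟨⟨⟨H _ t5379.2.2.2.1, H _ t5379.2.2.2.2.1⟩, ⟨H _ t5379.2.2.2.2.2.1, H _ t5379.2.2.2.2.2.2.1⟩⟩, ⟨⟨H _ t5379.2.2.2.2.2.2.2, H _ t5387.1⟩, ⟨H _ t5387.2.1, ⟨H _ t5387.2.2.1, H _ t5387.2.2.2.1⟩⟩⟩⟩⟩⟩, ⟨⟨⟨⟨⟨H _ t5387.2.2.2.2.1, H _ t5387.2.2.2.2.2.1⟩, ⟨H _ t5387.2.2.2.2.2.2.1, H _ t5387.2.2.2.2.2.2.2⟩⟩, ⟨⟨H _ t5395.1, H _ t5395.2.1⟩, ⟨H _ t5395.2.2.1, ⟨H _ t5395.2.2.2.1, H _ t5395.2.2.2.2.1⟩⟩⟩⟩,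 ⟨⟨⟨H _ t5395.2.2.2.2.2.1, H _ t5395.2.2.2.2.2.2.1⟩, ⟨H _ t5395.2.2.2.2.2.2.2, H _ t5403.1⟩⟩, ⟨⟨H _ t5403.2.1, H _ t5403.2.2.1⟩, ⟨H _ t5403.2.2.2.1, ⟨H _ t5403.2.2.2.2.1, H _ t5403.2.2.2.2.2.1⟩⟩⟩⟩⟩, ⟨⟨⟨⟨H _ t5403.2.2.2.2.2.2.1, H _ t5403.2.2.2.2.2.2.2⟩, ⟨H _ t5411.1, H _ t5411.2.1⟩⟩, ⟨⟨H _ t5411.2.2.1, H _ t5411.2.2.2.1⟩, ⟨H _ t5411.2.2.2.2.1, ⟨H _ t5411.2.2.2.2.2.1, H _ t5411.2.2.2.2.2.2.1⟩⟩⟩⟩, ⟨⟨⟨H _ t5411.2.2.2.2.2.2.2, H _ t5419.1⟩, ⟨H _ t5419.2.1, H _ t5419.2.2.1⟩⟩, ⟨⟨H _ t5419.2.2.2.1, H _ t5419.2.2.2.2.1⟩, ⟨H _ t5419.2.2.2.2.2.1, ⟨H _ t5419.2.2.2.2.2.2.1, H _ t5419.2.2.2.2.2.2.2⟩⟩⟩⟩⟩⟩⟩⟩, ⟨⟨⟨⟨⟨⟨⟨H _ t5427.1, H _ t5427.2.1⟩, ⟨H _ t5427.2.2.1, H _ t5427.2.2.2.1⟩⟩, ⟨⟨H _ t5427.2.2.2.2.1, H _ t5427.2.2.2.2.2.1⟩, ⟨H _ t5427.2.2.2.2.2.2.1, ⟨H _ t5427.2.2.2.2.2.2.2, H _ t5435.1⟩⟩⟩⟩, ⟨⟨⟨H _ t5435.2.1, H _ t5435.2.2.1⟩, ⟨H _ t5435.2.2.2.1, H _ t5435.2.2.2.2.1⟩⟩, ⟨⟨H _ t5435.2.2.2.2.2.1,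 H _ t5435.2.2.2.2.2.2.1⟩, ⟨H _ t5435.2.2.2.2.2.2.2, ⟨H _ t5443.1, H _ t5443.2.1⟩⟩⟩⟩⟩, ⟨⟨⟨⟨H _ t5443.2.2.1, H _ t5443.2.2.2.1⟩, ⟨H _ t5443.2.2.2.2.1, H _ t5443.2.2.2.2.2.1⟩⟩, ⟨⟨H _ t5443.2.2.2.2.2.2.1, H _ t5443.2.2.2.2.2.2.2⟩, ⟨H _ t5451.1, ⟨H _ t5451.2.1, H _ t5451.2.2.1⟩⟩⟩⟩, ⟨⟨⟨H _ t5451.2.2.2.1, H _ t5451.2.2.2.2.1⟩, ⟨H _ t5451.2.2.2.2.2.1, H _ t5451.2.2.2.2.2.2.1⟩⟩, ⟨⟨H _ t5451.2.2.2.2.2.2.2, H _ t5459.1⟩, ⟨H _ t5459.2.1, ⟨H _ t5459.2.2.1, H _ t5459.2.2.2.1⟩⟩⟩⟩⟩⟩, ⟨⟨⟨⟨⟨H _ t5459.2.2.2.2.1, H _ t5459.2.2.2.2.2.1⟩, ⟨H _ t5459.2.2.2.2.2.2.1, H _ t5459.2.2.2.2.2.2.2⟩⟩, ⟨⟨H _ t5467.1, H _ t5467.2.1⟩, ⟨H _ t5467.2.2.1, ⟨H _ t5467.2.2.2.1, H _ t5467.2.2.2.2.1⟩⟩⟩⟩, ⟨⟨⟨H _ t5467.2.2.2.2.2.1, H _ t5467.2.2.2.2.2.2.1⟩, ⟨H _ t5467.2.2.2.2.2.2.2, H _ t5475.1⟩⟩, ⟨⟨H _ t5475.2.1, H _ t5475.2.2.1⟩, ⟨H _ t5475.2.2.2.1, ⟨H _ t5475.2.2.2.2.1, H _ t5475.2.2.2.2.2.1⟩⟩⟩⟩⟩, ⟨⟨⟨⟨H _ t5475.2.2.2.2.2.2.1,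 H _ t5475.2.2.2.2.2.2.2⟩, ⟨H _ t5483.1, H _ t5483.2.1⟩⟩, ⟨⟨H _ t5483.2.2.1, H _ t5483.2.2.2.1⟩, ⟨H _ t5483.2.2.2.2.1, ⟨H _ t5483.2.2.2.2.2.1, H _ t5483.2.2.2.2.2.2.1⟩⟩⟩⟩, ⟨⟨⟨H _ t5483.2.2.2.2.2.2.2, H _ t5491.1⟩, ⟨H _ t5491.2.1, H _ t5491.2.2.1⟩⟩, ⟨⟨H _ t5491.2.2.2.1, H _ t5491.2.2.2.2.1⟩, ⟨H _ t5491.2.2.2.2.2.1, ⟨H _ t5491.2.2.2.2.2.2.1, H _ t5491.2.2.2.2.2.2.2⟩⟩⟩⟩⟩⟩⟩, ⟨⟨⟨⟨⟨⟨H _ t5499.1, H _ t5499.2.1⟩, ⟨H _ t5499.2.2.1, H _ t5499.2.2.2.1⟩⟩, ⟨⟨H _ t5499.2.2.2.2.1, H _ t5499.2.2.2.2.2.1⟩, ⟨H _ t5499.2.2.2.2.2.2.1, ⟨H _ t5499.2.2.2.2.2.2.2, H _ t5507.1⟩⟩⟩⟩, ⟨⟨⟨H _ t5507.2.1, H _ t5507.2.2.1⟩, ⟨H _ t5507.2.2.2.1, H _ t5507.2.2.2.2.1⟩⟩, ⟨⟨H _ t5507.2.2.2.2.2.1, H _ t5507.2.2.2.2.2.2.1⟩, ⟨H _ t5507.2.2.2.2.2.2.2, ⟨H _ t5515.1, H _ t5515.2.1⟩⟩⟩⟩⟩, ⟨⟨⟨⟨H _ t5515.2.2.1, H _ t5515.2.2.2.1⟩, ⟨H _ t5515.2.2.2.2.1, H _ t5515.2.2.2.2.2.1⟩⟩, ⟨⟨H _ t5515.2.2.2.2.2.2.1, H _ t5515.2.2.2.2.2.2.2⟩,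 ⟨H _ t5523.1, ⟨H _ t5523.2.1, H _ t5523.2.2.1⟩⟩⟩⟩, ⟨⟨⟨H _ t5523.2.2.2.1, H _ t5523.2.2.2.2.1⟩, ⟨H _ t5523.2.2.2.2.2.1, H _ t5523.2.2.2.2.2.2.1⟩⟩, ⟨⟨H _ t5523.2.2.2.2.2.2.2, H _ t5531.1⟩, ⟨H _ t5531.2.1, ⟨H _ t5531.2.2.1, H _ t5531.2.2.2.1⟩⟩⟩⟩⟩⟩, ⟨⟨⟨⟨⟨H _ t5531.2.2.2.2.1, H _ t5531.2.2.2.2.2.1⟩, ⟨H _ t5531.2.2.2.2.2.2.1, H _ t5531.2.2.2.2.2.2.2⟩⟩, ⟨⟨H _ t5539.1, H _ t5539.2.1⟩, ⟨H _ t5539.2.2.1, ⟨H _ t5539.2.2.2.1, H _ t5539.2.2.2.2.1⟩⟩⟩⟩, ⟨⟨⟨H _ t5539.2.2.2.2.2.1, H _ t5539.2.2.2.2.2.2.1⟩, ⟨H _ t5539.2.2.2.2.2.2.2, H _ t5547.1⟩⟩, ⟨⟨H _ t5547.2.1, H _ t5547.2.2.1⟩, ⟨H _ t5547.2.2.2.1, ⟨H _ t5547.2.2.2.2.1, H _ t5547.2.2.2.2.2.1⟩⟩⟩⟩⟩, ⟨⟨⟨⟨H _ t5547.2.2.2.2.2.2.1, H _ t5547.2.2.2.2.2.2.2⟩, ⟨H _ t5555.1, H _ t5555.2.1⟩⟩, ⟨⟨H _ t5555.2.2.1, H _ t5555.2.2.2.1⟩, ⟨H _ t5555.2.2.2.2.1, ⟨H _ t5555.2.2.2.2.2.1, H _ t5555.2.2.2.2.2.2.1⟩⟩⟩⟩, ⟨⟨⟨H _ t5555.2.2.2.2.2.2.2, H _ t5563.1⟩,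 ⟨H _ t5563.2.1, H _ t5563.2.2.1⟩⟩, ⟨⟨H _ t5563.2.2.2.1, H _ t5563.2.2.2.2.1⟩, ⟨H _ t5563.2.2.2.2.2.1, ⟨H _ t5563.2.2.2.2.2.2.1, H _ t5563.2.2.2.2.2.2.2⟩⟩⟩⟩⟩⟩⟩⟩⟩⟩

end Pool.Agent.MP_c853c5_nt.X.C4950
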