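import Pool.Agent.MP_c853c5_nt.X.ChY
import Pool.Agent.MP_c853c5_nt.X.C4950.Tab
import Pool.Agent.MP_c853c5_nt.X.C4950.T0
import Pool.Agent.MP_c853c5_nt.X.C4950.T1
import Pool.Agent.MP_c853c5_nt.X.C4950.T2
import Pool.Agent.MP_c853c5_nt.X.C4950.T3
import Pool.Agent.MP_c853c5_nt.X.C4950.T4
import Pool.Agent.MP_c853c5_nt.X.C4950.T5
import Pool.Agent.MP_c853c5_nt.X.C4950.T6
import Pool.Agent.MP_c853c5_nt.X.C4950.T7
import Pool.Agent.MP_c853c5_nt.X.C4950.T8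
import Pool.Agent.MP_c853c5_nt.X.C4950.T9
import Pool.Agent.MP_c853c5_nt.X.C4950.T10
import Pool.Agent.MP_c853c5_nt.X.C4950.T11
import Pool.Agent.MP_c853c5_nt.X.C4950.T12
import Pool.Agent.MP_c853c5_nt.X.C4950.T13
import Pool.Agent.MP_c853c5_nt.X.C4950.T14
import Pool.Agent.MP_c853c5_nt.X.C4950.T15
import Pool.Agent.MP_c853c5_nt.X.C4950.T16
import Pool.Agent.MP_c853c5_nt.X.C4950.T17
import Pool.Agent.MP_c853c5_nt.X.C4950.T18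
import Pool.Agent.MP_c853c5_nt.X.C4950.T19
import Pool.Agent.MP_c853c5_nt.X.C4950.T20
import Pool.Agent.MP_c853c5_nt.X.C4950.T21
import Pool.Agent.MP_c853c5_nt.X.C4950.T22
import Pool.Agent.MP_c853c5_nt.X.C4950.T23
import Pool.Agent.MP_c853c5_nt.X.C4950.T24
import Pool.Agent.MP_c853c5_nt.X.C4950.T25
import Pool.Agent.MP_c853c5_nt.X.C4950.T26
import Pool.Agent.MP_c853c5_nt.X.C4950.T27
import Pool.Agent.MP_c853c5_nt.X.C4950.T28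
import Pool.Agent.MP_c853c5_nt.X.C4950.T29
import Pool.Agent.MP_c853c5_nt.X.C4950.T30
import Pool.Agent.MP_c853c5_nt.X.C4950.T31
import Pool.Agent.MP_c853c5_nt.X.C4950.T32
import Pool.Agent.MP_c853c5_nt.X.C4950.T33
import Pool.Agent.MP_c853c5_nt.X.C4950.T34
import Pool.Agent.MP_c853c5_nt.X.C4950.T35
import Pool.Agent.MP_c853c5_nt.X.C4950.T36
import Pool.Agent.MP_c853c5_nt.X.C4950.T37
import Pool.Agent.MP_c853c5_nt.X.C4950.T38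
import Pool.Agent.MP_c853c5_nt.X.C4950.T39
import Pool.Agent.MP_c853c5_nt.X.C4950.T40
import Pool.Agent.MP_c853c5_nt.X.C4950.T41
import Pool.Agent.MP_c853c5_nt.X.C4950.T42
import Pool.Agent.MP_c853c5_nt.X.C4950.T43
import Pool.Agent.MP_c853c5_nt.X.C4950.T44
import Pool.Agent.MP_c853c5_nt.X.C4950.T45
import Pool.Agent.MP_c853c5_nt.X.C4950.T46
import Pool.Agent.MP_c853c5_nt.X.C4950.T47
import Pool.Agent.MP_c853c5_nt.X.C4950.T48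
import Pool.Agent.MP_c853c5_nt.X.C4950.T49
import Pool.Agent.MP_c853c5_nt.X.C4950.T50
import Pool.Agent.MP_c853c5_nt.X.C4950.T51
import Pool.Agent.MP_c853c5_nt.X.C4950.T52
import Pool.Agent.MP_c853c5_nt.X.C4950.T53
import Pool.Agent.MP_c853c5_nt.X.C4950.T54
import Pool.Agent.MP_c853c5_nt.X.C4950.T55
import Pool.Agent.MP_c853c5_nt.X.C4950.T56
import Pool.Agent.MP_c853c5_nt.X.C4950.T57
import Pool.Agent.MP_c853c5_nt.X.C4950.T58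
import Pool.Agent.MP_c853c5_nt.X.C4950.T59
import Pool.Agent.MP_c853c5_nt.X.C4950.T60
import Pool.Agent.MP_c853c5_nt.X.C4950.T61
import Pool.Agent.MP_c853c5_nt.X.C4950.T62
import Pool.Agent.MP_c853c5_nt.X.C4950.T63
import Pool.Agent.MP_c853c5_nt.X.C4950.T64
import Pool.Agent.MP_c853c5_nt.X.C4950.T65
import Pool.Agent.MP_c853c5_nt.X.C4950.T66
import Pool.Agent.MP_c853c5_nt.X.C4950.T67
import Pool.Agent.MP_c853c5_nt.X.C4950.T68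
import Pool.Agent.MP_c853c5_nt.X.C4950.T69
import Pool.Agent.MP_c853c5_nt.X.C4950.T70
import Pool.Agent.MP_c853c5_nt.X.C4950.T71
import Pool.Agent.MP_c853c5_nt.X.C4950.T72
import Pool.Agent.MP_c853c5_nt.X.C4950.T73
import Pool.Agent.MP_c853c5_nt.X.C4950.T74
import Pool.Agent.MP_c853c5_nt.X.C4950.T75
import Pool.Agent.MP_c853c5_nt.X.C4950.T76
import Pool.Agent.MP_c853c5_nt.X.C4950.T77
import Pool.Agent.MP_c853c5_nt.X.C4950.T78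
import Pool.Agent.MP_c853c5_nt.X.C4950.T79
import Pool.Agent.MP_c853c5_nt.X.C4950.T80
import Pool.Agent.MP_c853c5_nt.X.C4950.T81
import Pool.Agent.MP_c853c5_nt.X.C4950.T82
import Pool.Agent.MP_c853c5_nt.X.C4950.T83
import Pool.Agent.MP_c853c5_nt.X.C4950.T84
import Pool.Agent.MP_c853c5_nt.X.C4950.T85

set_option autoImplicit false
set_option maxRecDepth 8192
set_option linter.all false

namespace Pool.Agent.MP_c853c5_nt.X.C4950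

open Pool.Agent.MP_c853c5_nt.X

theorem v0 {t : ℝ} (h : Hyp E t) : b0.All (ValR t) := a0 fun _ => glueY h (Pool.Agent.MP_c853c5_nt.X.w0 t)

theorem v1 {t : ℝ} (h : Hyp E t) : b1.All (ValR t) := a1 fun _ => glueY h (Pool.Agent.MP_c853c5_nt.X.w0 t)

theorem v2 {t : ℝ} (h : Hyp E t) : b2.All (ValR t) := a2 fun _ => glueY h (Pool.Agent.MP_c853c5_nt.X.w0 t)

theorem v3 {t : ℝ} (h : Hyp E t) : b3.All (ValR t) := a3 fun _ => glueY h (Pool.Agent.MP_c853c5_nt.X.w0 t)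

theorem v4 {t : ℝ} (h : Hyp E t) : b4.All (ValR t) := a4 fun _ => glueY h (Pool.Agent.MP_c853c5_nt.X.w0 t)

theorem v5 {t : ℝ} (h : Hyp E t) : b5.All (ValR t) := a5 fun _ => glueY h (Pool.Agent.MP_c853c5_nt.X.w0 t)

theorem v6 {t : ℝ} (h : Hyp E t) : b6.All (ValR t) := a6 fun _ => glueY h (Pool.Agent.MP_c853c5_nt.X.w0 t)

theorem v7 {t : ℝ} (h : Hyp E t) : b7.All (ValR t) := a7 fun _ => glueY h (Pool.Agent.MP_c853c5_nt.X.w0 t)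

theorem v8 {t : ℝ} (h : Hyp E t) : b8.All (ValR t) := a8 fun _ => glueY h (Pool.Agent.MP_c853c5_nt.X.w0 t)

theorem v9 {t : ℝ} (h : Hyp E t) : b9.All (ValR t) := a9 fun _ => glueY h (Pool.Agent.MP_c853c5_nt.X.w0 t)

theorem v10 {t : ℝ} (h : Hyp E t) : b10.All (ValR t) := a10 fun _ => glueY h (Pool.Agent.MP_c853c5_nt.X.w0 t)

theorem v11 {t : ℝ} (h : Hyp E t) : b11.All (ValR t) := a11 fun _ => glueY h (Pool.Agent.MP_c853c5_nt.X.w0 t)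

theorem v12 {t : ℝ} (h : Hyp E t) : b12.All (ValR t) := a12 fun _ => glueY h (Pool.Agent.MP_c853c5_nt.X.w0 t)

theorem v13 {t : ℝ} (h : Hyp E t) : b13.All (ValR t) := a13 fun _ => glueY h (Pool.Agent.MP_c853c5_nt.X.w0 t)

theorem v14 {t : ℝ} (h : Hyp E t) : b14.All (ValR t) := a14 fun _ => glueY h (Pool.Agent.MP_c853c5_nt.X.w0 t)

theorem v15 {t : ℝ} (h : Hyp E t) : b15.All (ValR t) := a15 fun _ => glueY h (Pool.Agent.MP_c853c5_nt.X.w0 t)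

theorem v16 {t : ℝ} (h : Hyp E t) : b16.All (ValR t) := a16 fun _ => glueY h (Pool.Agent.MP_c853c5_nt.X.w0 t)

theorem v17 {t : ℝ} (h : Hyp E t) : b17.All (ValR t) := a17 fun _ => glueY h (Pool.Agent.MP_c853c5_nt.X.w0 t)

theorem v18 {t : ℝ} (h : Hyp E t) : b18.All (ValR t) := a18 fun _ => glueY h (Pool.Agent.MP_c853c5_nt.X.w0 t)

theorem v19 {t : ℝ} (h : Hyp E t) : b19.All (ValR t) := a19 fun _ => glueY h (Pool.Agent.MP_c853c5_nt.X.w0 t)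

theorem v20 {t : ℝ} (h : Hyp E t) : b20.All (ValR t) := a20 fun _ => glueY h (Pool.Agent.MP_c853c5_nt.X.w0 t)

theorem v21 {t : ℝ} (h : Hyp E t) : b21.All (ValR t) := a21 fun _ => glueY h (Pool.Agent.MP_c853c5_nt.X.w0 t)

theorem v22 {t : ℝ} (h : Hyp E t) : b22.All (ValR t) := a22 fun _ => glueY h (Pool.Agent.MP_c853c5_nt.X.w0 t)

theorem v23 {t : ℝ} (h : Hyp E t) : b23.All (ValR t) := a23 fun _ => glueY h (Pool.Agent.MP_c853c5_nt.X.w0 t)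

theorem v24 {t : ℝ} (h : Hyp E t) : b24.All (ValR t) := a24 fun _ => glueY h (Pool.Agent.MP_c853c5_nt.X.w0 t)

theorem v25 {t : ℝ} (h : Hyp E t) : b25.All (ValR t) := a25 fun _ => glueY h (Pool.Agent.MP_c853c5_nt.X.w0 t)

theorem v26 {t : ℝ} (h : Hyp E t) : b26.All (ValR t) := a26 fun _ => glueY h (Pool.Agent.MP_c853c5_nt.X.w0 t)

theorem v27 {t : ℝ} (h : Hyp E t) : b27.All (ValR t) := a27 fun _ => glueY h (Pool.Agent.MP_c853c5_nt.X.w0 t)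

theorem v28 {t : ℝ} (h : Hyp E t) : b28.All (ValR t) := a28 fun _ => glueY h (Pool.Agent.MP_c853c5_nt.X.w0 t)

theorem v29 {t : ℝ} (h : Hyp E t) : b29.All (ValR t) := a29 fun _ => glueY h (Pool.Agent.MP_c853c5_nt.X.w0 t)

theorem v30 {t : ℝ} (h : Hyp E t) : b30.All (ValR t) := a30 fun _ => glueY h (Pool.Agent.MP_c853c5_nt.X.w0 t)

theorem v31 {t : ℝ} (h : Hyp E t) : b31.All (ValR t) := a31 fun _ => glueY h (Pool.Agent.MP_c853c5_nt.X.w0 t)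

theorem v32 {t : ℝ} (h : Hyp E t) : b32.All (ValR t) := a32 fun _ => glueY h (Pool.Agent.MP_c853c5_nt.X.w0 t)

theorem v33 {t : ℝ} (h : Hyp E t) : b33.All (ValR t) := a33 fun _ => glueY h (Pool.Agent.MP_c853c5_nt.X.w0 t)

theorem v34 {t : ℝ} (h : Hyp E t) : b34.All (ValR t) := a34 fun _ => glueY h (Pool.Agent.MP_c853c5_nt.X.w0 t)

theorem v35 {t : ℝ} (h : Hyp E t) : b35.All (ValR t) := a35 fun _ => glueY h (Pool.Agent.MP_c853c5_nt.X.w0 t)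

theorem v36 {t : ℝ} (h : Hyp E t) : b36.All (ValR t) := a36 fun _ => glueY h (Pool.Agent.MP_c853c5_nt.X.w0 t)

theorem v37 {t : ℝ} (h : Hyp E t) : b37.All (ValR t) := a37 fun _ => glueY h (Pool.Agent.MP_c853c5_nt.X.w0 t)

theorem v38 {t : ℝ} (h : Hyp E t) : b38.All (ValR t) := a38 fun _ => glueY h (Pool.Agent.MP_c853c5_nt.X.w0 t)

theorem v39 {t : ℝ} (h : Hyp E t) : b39.All (ValR t) := a39 fun _ => glueY h (Pool.Agent.MP_c853c5_nt.X.w0 t)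

theorem v40 {t : ℝ} (h : Hyp E t) : b40.All (ValR t) := a40 fun _ => glueY h (Pool.Agent.MP_c853c5_nt.X.w0 t)

theorem v41 {t : ℝ} (h : Hyp E t) : b41.All (ValR t) := a41 fun _ => glueY h (Pool.Agent.MP_c853c5_nt.X.w0 t)

theorem v42 {t : ℝ} (h : Hyp E t) : b42.All (ValR t) := a42 fun _ => glueY h (Pool.Agent.MP_c853c5_nt.X.w0 t)

theorem v43 {t : ℝ} (h : Hyp E t) : b43.All (ValR t) := a43 fun _ => glueY h (Pool.Agent.MP_c853c5_nt.X.w0 t)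

theorem v44 {t : ℝ} (h : Hyp E t) : b44.All (ValR t) := a44 fun _ => glueY h (Pool.Agent.MP_c853c5_nt.X.w0 t)

theorem v45 {t : ℝ} (h : Hyp E t) : b45.All (ValR t) := a45 fun _ => glueY h (Pool.Agent.MP_c853c5_nt.X.w0 t)

theorem v46 {t : ℝ} (h : Hyp E t) : b46.All (ValR t) := a46 fun _ => glueY h (Pool.Agent.MP_c853c5_nt.X.w0 t)

theorem v47 {t : ℝ} (h : Hyp E t) : b47.All (ValR t) := a47 fun _ => glueY h (Pool.Agent.MP_c853c5_nt.X.w0 t)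

theorem v48 {t : ℝ} (h : Hyp E t) : b48.All (ValR t) := a48 fun _ => glueY h (Pool.Agent.MP_c853c5_nt.X.w0 t)

theorem v49 {t : ℝ} (h : Hyp E t) : b49.All (ValR t) := a49 fun _ => glueY h (Pool.Agent.MP_c853c5_nt.X.w0 t)

theorem ww1 {t : ℝ} (h : Hyp E t) : T1.All (ValR t) := ⟨⟨⟨⟨⟨v0 h, ⟨v1 h, v2 h⟩⟩, ⟨v3 h, ⟨v4 h, v5 h⟩⟩⟩, ⟨⟨v6 h, ⟨v7 h, v8 h⟩⟩, ⟨v9 h, ⟨v10 h, v11 h⟩⟩⟩⟩, ⟨⟨⟨v12 h, ⟨v13 h, v14 h⟩⟩, ⟨v15 h, ⟨v16 h, v17 h⟩⟩⟩, ⟨⟨v18 h, ⟨v19 h, v20 h⟩⟩, ⟨⟨v21 h, v22 h⟩, ⟨v23 h, v24 h⟩⟩⟩⟩⟩, ⟨⟨⟨⟨v25 h, ⟨v26 h, v27 h⟩⟩, ⟨v28 h, ⟨v29 h, v30 h⟩⟩⟩, ⟨⟨v31 h, ⟨v32 h, v33 h⟩⟩, ⟨v34 h, ⟨v35 h, v36 h⟩⟩⟩⟩, ⟨⟨⟨v37 h, ⟨v38 h, v39 h⟩⟩, ⟨v40 h, ⟨v41 h, v42 h⟩⟩⟩, ⟨⟨v43 h, ⟨v44 h, v45 h⟩⟩, ⟨⟨v46 h, v47 h⟩, ⟨v48 h, v49 h⟩⟩⟩⟩⟩⟩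

theorem v50 {t : ℝ} (h : Hyp E t) : b50.All (ValR t) := a50 fun _ => glueY h (ww1 h)

theorem v51 {t : ℝ} (h : Hyp E t) : b51.All (ValR t) := a51 fun _ => glueY h (ww1 h)

theorem v52 {t : ℝ} (h : Hyp E t) : b52.All (ValR t) := a52 fun _ => glueY h (ww1 h)

theorem v53 {t : ℝ} (h : Hyp E t) : b53.All (ValR t) := a53 fun _ => glueY h (ww1 h)

theorem v54 {t : ℝ} (h : Hyp E t) : b54.All (ValR t) := a54 fun _ => glueY h (ww1 h)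

theorem v55 {t : ℝ} (h : Hyp E t) : b55.All (ValR t) := a55 fun _ => glueY h (ww1 h)

theorem v56 {t : ℝ} (h : Hyp E t) : b56.All (ValR t) := a56 fun _ => glueY h (ww1 h)

theorem v57 {t : ℝ} (h : Hyp E t) : b57.All (ValR t) := a57 fun _ => glueY h (ww1 h)

theorem v58 {t : ℝ} (h : Hyp E t) : b58.All (ValR t) := a58 fun _ => glueY h (ww1 h)

theorem v59 {t : ℝ} (h : Hyp E t) : b59.All (ValR t) := a59 fun _ => glueY h (ww1 h)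

theorem v60 {t : ℝ} (h : Hyp E t) : b60.All (ValR t) := a60 fun _ => glueY h (ww1 h)

theorem v61 {t : ℝ} (h : Hyp E t) : b61.All (ValR t) := a61 fun _ => glueY h (ww1 h)

theorem v62 {t : ℝ} (h : Hyp E t) : b62.All (ValR t) := a62 fun _ => glueY h (ww1 h)

theorem v63 {t : ℝ} (h : Hyp E t) : b63.All (ValR t) := a63 fun _ => glueY h (ww1 h)

theorem v64 {t : ℝ} (h : Hyp E t) : b64.All (ValR t) := a64 fun _ => glueY h (ww1 h)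

theorem v65 {t : ℝ} (h : Hyp E t) : b65.All (ValR t) := a65 fun _ => glueY h (ww1 h)

theorem v66 {t : ℝ} (h : Hyp E t) : b66.All (ValR t) := a66 fun _ => glueY h (ww1 h)

theorem v67 {t : ℝ} (h : Hyp E t) : b67.All (ValR t) := a67 fun _ => glueY h (ww1 h)

theorem v68 {t : ℝ} (h : Hyp E t) : b68.All (ValR t) := a68 fun _ => glueY h (ww1 h)

theorem v69 {t : ℝ} (h : Hyp E t) : b69.All (ValR t) := a69 fun _ => glueY h (ww1 h)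

theorem v70 {t : ℝ} (h : Hyp E t) : b70.All (ValR t) := a70 fun _ => glueY h (ww1 h)

theorem ww2 {t : ℝ} (h : Hyp E t) : T2.All (ValR t) := ⟨(ww1 h), ⟨⟨⟨⟨v50 h, v51 h⟩, ⟨v52 h, ⟨v53 h, v54 h⟩⟩⟩, ⟨⟨v55 h, v56 h⟩, ⟨v57 h, ⟨v58 h, v59 h⟩⟩⟩⟩, ⟨⟨⟨v60 h, v61 h⟩, ⟨v62 h, ⟨v63 h, v64 h⟩⟩⟩, ⟨⟨v65 h, ⟨v66 h, v67 h⟩⟩, ⟨v68 h, ⟨v69 h, v70 h⟩⟩⟩⟩⟩⟩

theorem v71 {t : ℝ} (h : Hyp E t) : b71.All (ValR t) := a71 fun _ => glueY h (ww2 h)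

theorem v72 {t : ℝ} (h : Hyp E t) : b72.All (ValR t) := a72 fun _ => glueY h (ww2 h)

theorem v73 {t : ℝ} (h : Hyp E t) : b73.All (ValR t) := a73 fun _ => glueY h (ww2 h)

theorem v74 {t : ℝ} (h : Hyp E t) : b74.All (ValR t) := a74 fun _ => glueY h (ww2 h)

theorem v75 {t : ℝ} (h : Hyp E t) : b75.All (ValR t) := a75 fun _ => glueY h (ww2 h)

theorem v76 {t : ℝ} (h : Hyp E t) : b76.All (ValR t) := a76 fun _ => glueY h (ww2 h)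

theorem v77 {t : ℝ} (h : Hyp E t) : b77.All (ValR t) := a77 fun _ => glueY h (ww2 h)

theorem v78 {t : ℝ} (h : Hyp E t) : b78.All (ValR t) := a78 fun _ => glueY h (ww2 h)

theorem v79 {t : ℝ} (h : Hyp E t) : b79.All (ValR t) := a79 fun _ => glueY h (ww2 h)

theorem ww3 {t : ℝ} (h : Hyp E t) : T3.All (ValR t) := ⟨(ww2 h), ⟨⟨⟨v71 h, v72 h⟩, ⟨v73 h, v74 h⟩⟩, ⟨⟨v75 h, v76 h⟩, ⟨v77 h, ⟨v78 h, v79 h⟩⟩⟩⟩⟩

theorem v80 {t : ℝ} (h : Hyp E t) : b80.All (ValR t) := a80 fun _ => glueY h (ww3 h)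

theorem v81 {t : ℝ} (h : Hyp E t) : b81.All (ValR t) := a81 fun _ => glueY h (ww3 h)

theorem v82 {t : ℝ} (h : Hyp E t) : b82.All (ValR t) := a82 fun _ => glueY h (ww3 h)

theorem v83 {t : ℝ} (h : Hyp E t) : b83.All (ValR t) := a83 fun _ => glueY h (ww3 h)

theorem v84 {t : ℝ} (h : Hyp E t) : b84.All (ValR t) := a84 fun _ => glueY h (ww3 h)

theorem ww4 {t : ℝ} (h : Hyp E t) : T4.All (ValR t) := ⟨(ww3 h), ⟨⟨v80 h, v81 h⟩, ⟨v82 h, ⟨v83 h, v84 h⟩⟩⟩⟩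

theorem v85 {t : ℝ} (h : Hyp E t) : b85.All (ValR t) := a85 fun _ => glueY h (ww4 h)

theorem v86 {t : ℝ} (h : Hyp E t) : b86.All (ValR t) := a86 fun _ => glueY h (ww4 h)

theorem ww5 {t : ℝ} (h : Hyp E t) : T5.All (ValR t) := ⟨(ww4 h), ⟨v85 h, v86 h⟩⟩

theorem v87 {t : ℝ} (h : Hyp E t) : b87.All (ValR t) := a87 fun _ => glueY h (ww5 h)

theorem v88 {t : ℝ} (h : Hyp E t) : b88.All (ValR t) := a88 fun _ => glueY h (ww5 h)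

theorem ww6 {t : ℝ} (h : Hyp E t) : T6.All (ValR t) := ⟨(ww5 h), ⟨v87 h, v88 h⟩⟩

theorem v89 {t : ℝ} (h : Hyp E t) : b89.All (ValR t) := a89 fun _ => glueY h (ww6 h)

theorem v90 {t : ℝ} (h : Hyp E t) : b90.All (ValR t) := a90 fun _ => glueY h (ww6 h)

theorem ww7 {t : ℝ} (h : Hyp E t) : T7.All (ValR t) := ⟨(ww6 h), ⟨v89 h, v90 h⟩⟩

theorem v91 {t : ℝ} (h : Hyp E t) : b91.All (ValR t) := a91 fun _ => glueY h (ww7 h)

theorem ww8 {t : ℝ} (h : Hyp E t) : T8.All (ValR t) := ⟨(ww7 h), v91 h⟩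

theorem v92 {t : ℝ} (h : Hyp E t) : b92.All (ValR t) := a92 fun _ => glueY h (ww8 h)

theorem ww9 {t : ℝ} (h : Hyp E t) : T9.All (ValR t) := ⟨(ww8 h), v92 h⟩

theorem v93 {t : ℝ} (h : Hyp E t) : b93.All (ValR t) := a93 fun _ => glueY h (ww9 h)

theorem ww10 {t : ℝ} (h : Hyp E t) : T10.All (ValR t) := ⟨(ww9 h), v93 h⟩

theorem v94 {t : ℝ} (h : Hyp E t) : b94.All (ValR t) := a94 fun _ => glueY h (ww10 h)

theorem ww11 {t : ℝ} (h : Hyp E t) : T11.All (ValR t) := ⟨(ww10 h), v94 h⟩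

theorem v95 {t : ℝ} (h : Hyp E t) : b95.All (ValR t) := a95 fun _ => glueY h (ww11 h)

theorem ww12 {t : ℝ} (h : Hyp E t) : T12.All (ValR t) := ⟨(ww11 h), v95 h⟩

theorem v96 {t : ℝ} (h : Hyp E t) : b96.All (ValR t) := a96 fun _ => glueY h (ww12 h)

theorem ww13 {t : ℝ} (h : Hyp E t) : T13.All (ValR t) := ⟨(ww12 h), v96 h⟩

theorem v97 {t : ℝ} (h : Hyp E t) : b97.All (ValR t) := a97 fun _ => glueY h (ww13 h)

theorem ww14 {t : ℝ} (h : Hyp E t) : T14.All (ValR t) := ⟨(ww13 h), v97 h⟩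

theorem v98 {t : ℝ} (h : Hyp E t) : b98.All (ValR t) := a98 fun _ => glueY h (ww14 h)

theorem ww15 {t : ℝ} (h : Hyp E t) : T15.All (ValR t) := ⟨(ww14 h), v98 h⟩

theorem v99 {t : ℝ} (h : Hyp E t) : b99.All (ValR t) := a99 fun _ => glueY h (ww15 h)

theorem top (t : ℝ) (h : Hyp E t) : Val t true root 989250763 := (v99 h).1

end Pool.Agent.MP_c853c5_nt.X.C4950
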